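import Mathlib

/-! Parts: Lib_helper67.QE.Wirt, Lib_helper67.QE.Bdd, Lib_helper67.QE.Cauchy, Lib_helper67.QE.Compact, Lib_helper67.QE.Elliptic, LibH11.QEV.EllQ, Lib_helper67.QE.Tame, Lib_helper67.QE.Jets, LibH11.QEV.Growth, Lib_helper67.QE.Cutoff -/

section

/-!
Wirtinger derivatives of functions on the complex plane, viewed as a real vector space.
-/

open Complex MeasureTheory Filter Topology
open scoped ContDiff

namespace QE

noncomputable section

/-- the Wirtinger derivative `∂/∂z` -/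
def dz (f : ℂ → ℂ) (z : ℂ) : ℂ := (1 / 2) * (fderiv ℝ f z 1 - I * fderiv ℝ f z I)

/-- the Wirtinger derivative `∂/∂z̄` -/
def dzb (f : ℂ → ℂ) (z : ℂ) : ℂ := (1 / 2) * (fderiv ℝ f z 1 + I * fderiv ℝ f z I)

theorem dz_congr {f g : ℂ → ℂ} {z : ℂ} (h : f =ᶠ[𝓝 z] g) : dz f z = dz g z := by
  unfold dz; rw [h.fderiv_eq]

theorem dzb_congr {f g : ℂ → ℂ} {z : ℂ} (h : f =ᶠ[𝓝 z] g) : dzb f z = dzb g z := by
  unfold dzb; rw [h.fderiv_eq]

theorem dz_congr_on {f g : ℂ → ℂ} {U : Set ℂ} (hU : IsOpen U) (h : ∀ z ∈ U, f z = g z) {z : ℂ}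
    (hz : z ∈ U) : dz f z = dz g z :=
  dz_congr (Filter.eventuallyEq_of_mem (hU.mem_nhds hz) h)

theorem dzb_congr_on {f g : ℂ → ℂ} {U : Set ℂ} (hU : IsOpen U) (h : ∀ z ∈ U, f z = g z) {z : ℂ}
    (hz : z ∈ U) : dzb f z = dzb g z :=
  dzb_congr (Filter.eventuallyEq_of_mem (hU.mem_nhds hz) h)

theorem dz_add {f g : ℂ → ℂ} {z : ℂ} (hf : DifferentiableAt ℝ f z) (hg : DifferentiableAt ℝ g z) :
    dz (fun w => f w + g w) z = dz f z + dz g z := by
  have : fderiv ℝ (fun w => f w + g w) z = fderiv ℝ f z + fderiv ℝ g z := fderiv_fun_add hf hg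
  unfold dz; rw [this]; simp only [add_apply]; ring

theorem dzb_add {f g : ℂ → ℂ} {z : ℂ} (hf : DifferentiableAt ℝ f z) (hg : DifferentiableAt ℝ g z) :
    dzb (fun w => f w + g w) z = dzb f z + dzb g z := by
  have : fderiv ℝ (fun w => f w + g w) z = fderiv ℝ f z + fderiv ℝ g z := fderiv_fun_add hf hg
  unfold dzb; rw [this]; simp only [add_apply]; ring

theorem dz_sub {f g : ℂ → ℂ} {z : ℂ} (hf : DifferentiableAt ℝ f z) (hg : DifferentiableAt ℝ g z) :
    dz (fun w => f w - g w) z = dz f z - dz g z := by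
  have : fderiv ℝ (fun w => f w - g w) z = fderiv ℝ f z - fderiv ℝ g z := fderiv_fun_sub hf hg
  unfold dz; rw [this]; simp only [sub_apply]; ring

theorem dzb_sub {f g : ℂ → ℂ} {z : ℂ} (hf : DifferentiableAt ℝ f z) (hg : DifferentiableAt ℝ g z) :
    dzb (fun w => f w - g w) z = dzb f z - dzb g z := by
  have : fderiv ℝ (fun w => f w - g w) z = fderiv ℝ f z - fderiv ℝ g z := fderiv_fun_sub hf hg
  unfold dzb; rw [this]; simp only [sub_apply]; ring

theorem dz_mul {f g : ℂ → ℂ} {z : ℂ} (hf : DifferentiableAt ℝ f z) (hg : DifferentiableAt ℝ g z) :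
    dz (fun w => f w * g w) z = dz f z * g z + f z * dz g z := by
  have : fderiv ℝ (fun w => f w * g w) z = f z • fderiv ℝ g z + g z • fderiv ℝ f z :=
    fderiv_fun_mul hf hg
  unfold dz; rw [this]
  simp only [add_apply, smul_apply, smul_eq_mul]; ring

theorem dzb_mul {f g : ℂ → ℂ} {z : ℂ} (hf : DifferentiableAt ℝ f z) (hg : DifferentiableAt ℝ g z) :
    dzb (fun w => f w * g w) z = dzb f z * g z + f z * dzb g z := by
  have : fderiv ℝ (fun w => f w * g w) z = f z • fderiv ℝ g z + g z • fderiv ℝ f z :=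
    fderiv_fun_mul hf hg
  unfold dzb; rw [this]
  simp only [add_apply, smul_apply, smul_eq_mul]; ring

theorem dz_const_mul {f : ℂ → ℂ} {z : ℂ} (c : ℂ) (hf : DifferentiableAt ℝ f z) :
    dz (fun w => c * f w) z = c * dz f z := by
  have : fderiv ℝ (fun w => c * f w) z = c • fderiv ℝ f z := fderiv_const_mul hf c
  unfold dz; rw [this]
  simp only [smul_apply, smul_eq_mul]; ring

theorem dzb_const_mul {f : ℂ → ℂ} {z : ℂ} (c : ℂ) (hf : DifferentiableAt ℝ f z) :
    dzb (fun w => c * f w) z = c * dzb f z := by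
  have : fderiv ℝ (fun w => c * f w) z = c • fderiv ℝ f z := fderiv_const_mul hf c
  unfold dzb; rw [this]
  simp only [smul_apply, smul_eq_mul]; ring

theorem dz_const (c : ℂ) (z : ℂ) : dz (fun _ => c) z = 0 := by
  unfold dz; simp

theorem dzb_const (c : ℂ) (z : ℂ) : dzb (fun _ => c) z = 0 := by
  unfold dzb; simp

theorem fderiv_conj {f : ℂ → ℂ} {z : ℂ} (hf : DifferentiableAt ℝ f z) (v : ℂ) :
    fderiv ℝ (fun w => (starRingEnd ℂ) (f w)) z v = (starRingEnd ℂ) (fderiv ℝ f z v) := by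
  have h : (fun w => (starRingEnd ℂ) (f w)) = conjCLE ∘ f := by
    funext w; simp
  rw [h, ContinuousLinearEquiv.comp_fderiv]; simp

theorem dz_conj {f : ℂ → ℂ} {z : ℂ} (hf : DifferentiableAt ℝ f z) :
    dz (fun w => (starRingEnd ℂ) (f w)) z = (starRingEnd ℂ) (dzb f z) := by
  unfold dz dzb; rw [fderiv_conj hf, fderiv_conj hf]
  simp only [map_mul, map_add, map_div₀, map_one, map_ofNat, conj_I]; ring

theorem dzb_conj {f : ℂ → ℂ} {z : ℂ} (hf : DifferentiableAt ℝ f z) :
    dzb (fun w => (starRingEnd ℂ) (f w)) z = (starRingEnd ℂ) (dz f z) := by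
  unfold dz dzb; rw [fderiv_conj hf, fderiv_conj hf]
  simp only [map_mul, map_sub, map_div₀, map_one, map_ofNat, conj_I]; ring

/-- smoothness of the Wirtinger derivatives on open sets -/
theorem contDiffOn_dz {f : ℂ → ℂ} {U : Set ℂ} (hU : IsOpen U) (hf : ContDiffOn ℝ ∞ f U) :
    ContDiffOn ℝ ∞ (dz f) U := by
  have h1 : ContDiffOn ℝ ∞ (fderiv ℝ f) U := hf.fderiv_of_isOpen hU (by simp)
  unfold dz
  exact contDiffOn_const.mul ((h1.clm_apply contDiffOn_const).sub
    (contDiffOn_const.mul (h1.clm_apply contDiffOn_const)))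

theorem contDiffOn_dzb {f : ℂ → ℂ} {U : Set ℂ} (hU : IsOpen U) (hf : ContDiffOn ℝ ∞ f U) :
    ContDiffOn ℝ ∞ (dzb f) U := by
  have h1 : ContDiffOn ℝ ∞ (fderiv ℝ f) U := hf.fderiv_of_isOpen hU (by simp)
  unfold dzb
  exact contDiffOn_const.mul ((h1.clm_apply contDiffOn_const).add
    (contDiffOn_const.mul (h1.clm_apply contDiffOn_const)))

theorem contDiff_dz {f : ℂ → ℂ} (hf : ContDiff ℝ ∞ f) : ContDiff ℝ ∞ (dz f) := by
  rw [← contDiffOn_univ] at hf ⊢; exact contDiffOn_dz isOpen_univ hf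

theorem contDiff_dzb {f : ℂ → ℂ} (hf : ContDiff ℝ ∞ f) : ContDiff ℝ ∞ (dzb f) := by
  rw [← contDiffOn_univ] at hf ⊢; exact contDiffOn_dzb isOpen_univ hf

/-- the two Wirtinger derivatives commute -/
theorem dz_dzb_comm {f : ℂ → ℂ} {z : ℂ} (hf : ContDiffAt ℝ 2 f z) :
    dz (dzb f) z = dzb (dz f) z := by
  have hd : ContDiffAt ℝ 1 (fderiv ℝ f) z := hf.fderiv_right (m := 1) (by norm_num)
  have hd' : DifferentiableAt ℝ (fderiv ℝ f) z := hd.differentiableAt (by norm_num)
  have hsym : ∀ v w : ℂ, fderiv ℝ (fderiv ℝ f) z v w = fderiv ℝ (fderiv ℝ f) z w v :=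
    fun v w => (hf.isSymmSndFDerivAt (by simp)).eq v w
  have key : ∀ v w : ℂ, fderiv ℝ (fun x => fderiv ℝ f x v) z w = fderiv ℝ (fderiv ℝ f) z w v := by
    intro v w
    rw [fderiv_clm_apply hd' (differentiableAt_const v)]
    simp
  have hv : ∀ v : ℂ, DifferentiableAt ℝ (fun x => fderiv ℝ f x v) z := fun v =>
    hd'.clm_apply (differentiableAt_const v)
  have e1 : ∀ w, fderiv ℝ (dzb f) z w
      = (1 / 2) * (fderiv ℝ (fderiv ℝ f) z w 1 + I * fderiv ℝ (fderiv ℝ f) z w I) := by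
    intro w
    have : fderiv ℝ (dzb f) z = (1 / 2 : ℂ) • (fderiv ℝ (fun x => fderiv ℝ f x 1) z
        + I • fderiv ℝ (fun x => fderiv ℝ f x I) z) := by
      have hs : DifferentiableAt ℝ (fun x => fderiv ℝ f x 1 + I * fderiv ℝ f x I) z :=
        (hv 1).add ((hv I).const_mul I)
      have e : dzb f = fun x => (1 / 2 : ℂ) * (fderiv ℝ f x 1 + I * fderiv ℝ f x I) := rfl
      rw [e, fderiv_const_mul hs,
        fderiv_fun_add (hv 1) ((hv I).const_mul I), fderiv_const_mul (hv I)]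
    rw [this]
    simp only [smul_apply, add_apply, smul_eq_mul, key]
  have e2 : ∀ w, fderiv ℝ (dz f) z w
      = (1 / 2) * (fderiv ℝ (fderiv ℝ f) z w 1 - I * fderiv ℝ (fderiv ℝ f) z w I) := by
    intro w
    have : fderiv ℝ (dz f) z = (1 / 2 : ℂ) • (fderiv ℝ (fun x => fderiv ℝ f x 1) z
        - I • fderiv ℝ (fun x => fderiv ℝ f x I) z) := by
      have hs : DifferentiableAt ℝ (fun x => fderiv ℝ f x 1 - I * fderiv ℝ f x I) z :=
        (hv 1).sub ((hv I).const_mul I)
      have e : dz f = fun x => (1 / 2 : ℂ) * (fderiv ℝ f x 1 - I * fderiv ℝ f x I) := rfl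
      rw [e, fderiv_const_mul hs,
        fderiv_fun_sub (hv 1) ((hv I).const_mul I), fderiv_const_mul (hv I)]
    rw [this]
    simp only [smul_apply, sub_apply, smul_eq_mul, key]
  have u1 : dz (dzb f) z = (1 / 2) * (fderiv ℝ (dzb f) z 1 - I * fderiv ℝ (dzb f) z I) := rfl
  have u2 : dzb (dz f) z = (1 / 2) * (fderiv ℝ (dz f) z 1 + I * fderiv ℝ (dz f) z I) := rfl
  rw [u1, u2, e1, e1, e2, e2, hsym 1 I]
  ring

/-- a test function on the open set `U` -/
structure Test (U : Set ℂ) (ζ : ℂ → ℂ) : Prop where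
  smooth : ContDiff ℝ ∞ ζ
  supp : HasCompactSupport ζ
  sub : tsupport ζ ⊆ U

theorem tsupport_dz_subset (f : ℂ → ℂ) : tsupport (dz f) ⊆ tsupport f := by
  have : Function.support (dz f) ⊆ Function.support (fderiv ℝ f) := by
    intro z hz hz0
    apply hz
    simp only [dz, hz0]
    simp
  exact (closure_mono this).trans (tsupport_fderiv_subset ℝ)

theorem tsupport_dzb_subset (f : ℂ → ℂ) : tsupport (dzb f) ⊆ tsupport f := by
  have : Function.support (dzb f) ⊆ Function.support (fderiv ℝ f) := by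
    intro z hz hz0
    apply hz
    simp only [dzb, hz0]
    simp
  exact (closure_mono this).trans (tsupport_fderiv_subset ℝ)

theorem _root_.HasCompactSupport.dz {f : ℂ → ℂ} (hf : HasCompactSupport f) :
    HasCompactSupport (QE.dz f) :=
  hf.of_isClosed_subset (isClosed_tsupport _) (tsupport_dz_subset f)

theorem _root_.HasCompactSupport.dzb {f : ℂ → ℂ} (hf : HasCompactSupport f) :
    HasCompactSupport (QE.dzb f) :=
  hf.of_isClosed_subset (isClosed_tsupport _) (tsupport_dzb_subset f)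

theorem Test.dz {U : Set ℂ} {ζ : ℂ → ℂ} (h : Test U ζ) : Test U (QE.dz ζ) :=
  ⟨contDiff_dz h.smooth, h.supp.dz, (tsupport_dz_subset ζ).trans h.sub⟩

theorem Test.dzb {U : Set ℂ} {ζ : ℂ → ℂ} (h : Test U ζ) : Test U (QE.dzb ζ) :=
  ⟨contDiff_dzb h.smooth, h.supp.dzb, (tsupport_dzb_subset ζ).trans h.sub⟩

/-- a test function times a function smooth on `U` is a test function -/
theorem Test.mul {U : Set ℂ} (hU : IsOpen U) {ζ f : ℂ → ℂ} (h : Test U ζ)
    (hf : ContDiffOn ℝ ∞ f U) : Test U (fun z => ζ z * f z) := by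
  refine ⟨?_, h.supp.mul_right, (closure_mono ?_).trans h.sub⟩
  · rw [contDiff_iff_contDiffAt]
    intro z
    by_cases hz : z ∈ U
    · exact h.smooth.contDiffAt.mul (hf.contDiffAt (hU.mem_nhds hz))
    · have hz' : z ∉ tsupport ζ := fun hh => hz (h.sub hh)
      have : (fun z => ζ z * f z) =ᶠ[𝓝 z] fun _ => 0 := by
        have := notMem_tsupport_iff_eventuallyEq.mp hz'
        filter_upwards [this] with w hw
        simp [hw]
      exact contDiffAt_const.congr_of_eventuallyEq this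
  · intro z hz
    simp only [Function.mem_support] at hz ⊢
    intro h0; exact hz (by simp [h0])

theorem Test.mono {U V : Set ℂ} {ζ : ℂ → ℂ} (h : Test U ζ) (hUV : U ⊆ V) : Test V ζ :=
  ⟨h.smooth, h.supp, h.sub.trans hUV⟩

theorem Test.conj {U : Set ℂ} {ζ : ℂ → ℂ} (h : Test U ζ) :
    Test U (fun z => (starRingEnd ℂ) (ζ z)) := by
  refine ⟨conjCLE.contDiff.comp h.smooth, h.supp.comp_left (map_zero _), (closure_mono ?_).trans h.sub⟩
  intro z hz
  simp only [Function.mem_support] at hz ⊢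
  intro h0; exact hz (by simp [h0])

/-- integral of a derivative of a compactly supported function -/
theorem integral_fderiv_eq_zero {f : ℂ → ℂ} (hf : ContDiff ℝ ∞ f) (hc : HasCompactSupport f)
    (v : ℂ) : ∫ z, fderiv ℝ f z v = 0 := by
  have h := integral_mul_fderiv_eq_neg_fderiv_mul_of_integrable (𝕜 := ℂ) (μ := (volume : Measure ℂ))
    (f := fun _ : ℂ => (1 : ℂ)) (g := f) (v := v)
  have hfi : Integrable (fun z => fderiv ℝ f z v) := by
    have hcont : Continuous (fun z => fderiv ℝ f z v) :=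
      (hf.continuous_fderiv (by simp)).clm_apply continuous_const
    exact hcont.integrable_of_hasCompactSupport (hc.fderiv_apply (𝕜 := ℝ) v)
  have hfi2 : Integrable f := hf.continuous.integrable_of_hasCompactSupport hc
  have h2 := h (by simp) (by simpa using hfi) (by simpa using hfi2) (fun x _ => by fun_prop)
    (fun x _ => hf.differentiable (by simp) x)
  simpa using h2

theorem integral_dz_eq_zero {f : ℂ → ℂ} (hf : ContDiff ℝ ∞ f) (hc : HasCompactSupport f) :
    ∫ z, dz f z = 0 := by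
  have hi : ∀ v : ℂ, Integrable (fun z => fderiv ℝ f z v) := fun v =>
    ((hf.continuous_fderiv (by simp)).clm_apply continuous_const).integrable_of_hasCompactSupport
      (hc.fderiv_apply (𝕜 := ℝ) v)
  unfold dz
  rw [integral_const_mul, integral_sub (hi 1) ((hi I).const_mul I), integral_const_mul,
    integral_fderiv_eq_zero hf hc, integral_fderiv_eq_zero hf hc]
  simp

theorem integral_dzb_eq_zero {f : ℂ → ℂ} (hf : ContDiff ℝ ∞ f) (hc : HasCompactSupport f) :
    ∫ z, dzb f z = 0 := by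
  have hi : ∀ v : ℂ, Integrable (fun z => fderiv ℝ f z v) := fun v =>
    ((hf.continuous_fderiv (by simp)).clm_apply continuous_const).integrable_of_hasCompactSupport
      (hc.fderiv_apply (𝕜 := ℝ) v)
  unfold dzb
  rw [integral_const_mul, integral_add (hi 1) ((hi I).const_mul I), integral_const_mul,
    integral_fderiv_eq_zero hf hc, integral_fderiv_eq_zero hf hc]
  simp

/-- a function which vanishes off a compact subset of `U` and is continuous on `U` -/
theorem Test.integrable_mul {U : Set ℂ} (hU : IsOpen U) {ζ f : ℂ → ℂ} (h : Test U ζ)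
    (hf : ContinuousOn f U) : Integrable (fun z => ζ z * f z) := by
  have hc : Continuous (fun z => ζ z * f z) := by
    rw [continuous_iff_continuousAt]
    intro z
    by_cases hz : z ∈ U
    · exact h.smooth.continuous.continuousAt.mul (hf.continuousAt (hU.mem_nhds hz))
    · have hz' : z ∉ tsupport ζ := fun hh => hz (h.sub hh)
      have : (fun z => ζ z * f z) =ᶠ[𝓝 z] fun _ => 0 := by
        have := notMem_tsupport_iff_eventuallyEq.mp hz'
        filter_upwards [this] with w hw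
        simp [hw]
      exact (continuousAt_const).congr this.symm
  exact hc.integrable_of_hasCompactSupport h.supp.mul_right

/-- integration by parts on `U` -/
theorem integral_mul_dz {U : Set ℂ} (hU : IsOpen U) {ζ f : ℂ → ℂ} (h : Test U ζ)
    (hf : ContDiffOn ℝ ∞ f U) : ∫ z, ζ z * dz f z = - ∫ z, dz ζ z * f z := by
  have ht := h.mul hU hf
  have h0 := integral_dz_eq_zero ht.smooth ht.supp
  have he : ∀ z, dz (fun z => ζ z * f z) z = dz ζ z * f z + ζ z * dz f z := by
    intro z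
    by_cases hz : z ∈ U
    · exact dz_mul (h.smooth.differentiable (by simp) z)
        ((hf.contDiffAt (hU.mem_nhds hz)).differentiableAt (by simp))
    · have hz' : z ∉ tsupport ζ := fun hh => hz (h.sub hh)
      have e1 : (fun z => ζ z * f z) =ᶠ[𝓝 z] fun _ => 0 := by
        have := notMem_tsupport_iff_eventuallyEq.mp hz'
        filter_upwards [this] with w hw
        simp [hw]
      have e2 : ζ =ᶠ[𝓝 z] fun _ => 0 := notMem_tsupport_iff_eventuallyEq.mp hz'
      rw [dz_congr e1, dz_congr e2, dz_const, e2.self_of_nhds]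
      simp
  rw [integral_congr_ae (Filter.Eventually.of_forall he), integral_add
    (h.dz.integrable_mul hU hf.continuousOn)
    (h.integrable_mul hU (contDiffOn_dz hU hf).continuousOn)] at h0
  linear_combination h0

theorem integral_mul_dzb {U : Set ℂ} (hU : IsOpen U) {ζ f : ℂ → ℂ} (h : Test U ζ)
    (hf : ContDiffOn ℝ ∞ f U) : ∫ z, ζ z * dzb f z = - ∫ z, dzb ζ z * f z := by
  have ht := h.mul hU hf
  have h0 := integral_dzb_eq_zero ht.smooth ht.supp
  have he : ∀ z, dzb (fun z => ζ z * f z) z = dzb ζ z * f z + ζ z * dzb f z := by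
    intro z
    by_cases hz : z ∈ U
    · exact dzb_mul (h.smooth.differentiable (by simp) z)
        ((hf.contDiffAt (hU.mem_nhds hz)).differentiableAt (by simp))
    · have hz' : z ∉ tsupport ζ := fun hh => hz (h.sub hh)
      have e1 : (fun z => ζ z * f z) =ᶠ[𝓝 z] fun _ => 0 := by
        have := notMem_tsupport_iff_eventuallyEq.mp hz'
        filter_upwards [this] with w hw
        simp [hw]
      have e2 : ζ =ᶠ[𝓝 z] fun _ => 0 := notMem_tsupport_iff_eventuallyEq.mp hz'
      rw [dzb_congr e1, dzb_congr e2, dzb_const, e2.self_of_nhds]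
      simp
  rw [integral_congr_ae (Filter.Eventually.of_forall he), integral_add
    (h.dzb.integrable_mul hU hf.continuousOn)
    (h.integrable_mul hU (contDiffOn_dzb hU hf).continuousOn)] at h0
  linear_combination h0

end

end QE


end

section

/-!
Sequences of functions which are bounded in `L^p` on the compact subsets of an open set.
-/

open Complex MeasureTheory Filter Topology
open scoped ContDiff

namespace QE

noncomputable section

/-- the sequence `u` is bounded in `L^p(K)` for every compact `K ⊆ U` -/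
def LBdd (p : ℕ) (U : Set ℂ) (u : ℕ → ℂ → ℂ) : Prop :=
  ∀ K : Set ℂ, IsCompact K → K ⊆ U → ∃ C : ℝ, ∀ᶠ n in atTop, ∫ z in K, ‖u n z‖ ^ p ≤ C

/-- all the functions of the sequence are smooth on `U` -/
def SmoothSeq (U : Set ℂ) (u : ℕ → ℂ → ℂ) : Prop := ∀ n, ContDiffOn ℝ ∞ (u n) U

theorem SmoothSeq.intOn {U K : Set ℂ} {u : ℕ → ℂ → ℂ} (h : SmoothSeq U u) (hK : IsCompact K)
    (hKU : K ⊆ U) (p n : ℕ) : IntegrableOn (fun z => ‖u n z‖ ^ p) K :=
  (((h n).continuousOn.mono hKU).norm.pow p).integrableOn_compact hK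

theorem SmoothSeq.add {U : Set ℂ} {u v : ℕ → ℂ → ℂ} (hu : SmoothSeq U u) (hv : SmoothSeq U v) :
    SmoothSeq U (fun n z => u n z + v n z) := fun n => (hu n).add (hv n)

theorem SmoothSeq.sub {U : Set ℂ} {u v : ℕ → ℂ → ℂ} (hu : SmoothSeq U u) (hv : SmoothSeq U v) :
    SmoothSeq U (fun n z => u n z - v n z) := fun n => (hu n).sub (hv n)

theorem SmoothSeq.mul {U : Set ℂ} {u v : ℕ → ℂ → ℂ} (hu : SmoothSeq U u) (hv : SmoothSeq U v) :
    SmoothSeq U (fun n z => u n z * v n z) := fun n => (hu n).mul (hv n)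

theorem SmoothSeq.conj {U : Set ℂ} {u : ℕ → ℂ → ℂ} (hu : SmoothSeq U u) :
    SmoothSeq U (fun n z => (starRingEnd ℂ) (u n z)) := fun n =>
  conjCLE.contDiff.comp_contDiffOn (hu n)

theorem SmoothSeq.const_mul {U : Set ℂ} {u : ℕ → ℂ → ℂ} (hu : SmoothSeq U u) (c : ℕ → ℂ) :
    SmoothSeq U (fun n z => c n * u n z) := fun n => contDiffOn_const.mul (hu n)

theorem SmoothSeq.fn_mul {U : Set ℂ} {u : ℕ → ℂ → ℂ} (hu : SmoothSeq U u) {b : ℂ → ℂ}
    (hb : ContDiffOn ℝ ∞ b U) : SmoothSeq U (fun n z => b z * u n z) := fun n => hb.mul (hu n)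

theorem SmoothSeq.dz {U : Set ℂ} (hU : IsOpen U) {u : ℕ → ℂ → ℂ} (hu : SmoothSeq U u) :
    SmoothSeq U (fun n => QE.dz (u n)) := fun n => contDiffOn_dz hU (hu n)

theorem SmoothSeq.dzb {U : Set ℂ} (hU : IsOpen U) {u : ℕ → ℂ → ℂ} (hu : SmoothSeq U u) :
    SmoothSeq U (fun n => QE.dzb (u n)) := fun n => contDiffOn_dzb hU (hu n)

theorem LBdd.congr {p : ℕ} {U : Set ℂ} {u v : ℕ → ℂ → ℂ} (h : LBdd p U u)
    (he : ∀ n, ∀ z ∈ U, u n z = v n z) : LBdd p U v := by
  intro K hK hKU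
  obtain ⟨C, hC⟩ := h K hK hKU
  refine ⟨C, ?_⟩
  filter_upwards [hC] with n hn
  refine le_trans (le_of_eq ?_) hn
  refine setIntegral_congr_fun hK.measurableSet fun z hz => ?_
  simp only [he n z (hKU hz)]

theorem LBdd.mono_set {p : ℕ} {U V : Set ℂ} {u : ℕ → ℂ → ℂ} (h : LBdd p U u) (hVU : V ⊆ U) :
    LBdd p V u := fun K hK hKV => h K hK (hKV.trans hVU)

/-- domination on compact sets -/
theorem LBdd.of_le {p : ℕ} {U : Set ℂ} {u v : ℕ → ℂ → ℂ} (h : LBdd p U u) (hu : SmoothSeq U u)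
    (hv : SmoothSeq U v)
    (hle : ∀ K : Set ℂ, IsCompact K → K ⊆ U → ∃ c : ℝ, 0 ≤ c ∧ ∀ᶠ n in atTop, ∀ z ∈ K,
      ‖v n z‖ ≤ c * ‖u n z‖) : LBdd p U v := by
  intro K hK hKU
  obtain ⟨C, hC⟩ := h K hK hKU
  obtain ⟨c, hc0, hc⟩ := hle K hK hKU
  refine ⟨c ^ p * C, ?_⟩
  filter_upwards [hC, hc] with n hn hcn
  calc ∫ z in K, ‖v n z‖ ^ p ≤ ∫ z in K, c ^ p * ‖u n z‖ ^ p := by
        refine setIntegral_mono_on (hv.intOn hK hKU p n) ((hu.intOn hK hKU p n).const_mul _)
          hK.measurableSet fun z hz => ?_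
        rw [← mul_pow]
        gcongr
        exact hcn z hz
    _ = c ^ p * ∫ z in K, ‖u n z‖ ^ p := integral_const_mul _ _
    _ ≤ c ^ p * C := by gcongr

theorem LBdd.fn_mul {p : ℕ} {U : Set ℂ} {u : ℕ → ℂ → ℂ} (h : LBdd p U u) (hu : SmoothSeq U u)
    {b : ℂ → ℂ} (hb : ContDiffOn ℝ ∞ b U) : LBdd p U (fun n z => b z * u n z) := by
  refine h.of_le hu (hu.fn_mul hb) fun K hK hKU => ?_
  obtain ⟨c, hc⟩ := hK.exists_bound_of_continuousOn (hb.continuousOn.mono hKU)
  refine ⟨max c 0, le_max_right _ _, Filter.Eventually.of_forall fun n z hz => ?_⟩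
  rw [norm_mul]
  gcongr
  exact (hc z hz).trans (le_max_left _ _)

theorem LBdd.const_mul {p : ℕ} {U : Set ℂ} {u : ℕ → ℂ → ℂ} (h : LBdd p U u) (hu : SmoothSeq U u)
    {c : ℕ → ℂ} {B : ℝ} (hc : ∀ᶠ n in atTop, ‖c n‖ ≤ B) : LBdd p U (fun n z => c n * u n z) := by
  refine h.of_le hu (hu.const_mul c) fun K hK hKU => ?_
  refine ⟨max B 0, le_max_right _ _, ?_⟩
  filter_upwards [hc] with n hn z _
  rw [norm_mul]
  gcongr
  exact hn.trans (le_max_left _ _)

theorem LBdd.conj {p : ℕ} {U : Set ℂ} {u : ℕ → ℂ → ℂ} (h : LBdd p U u) :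
    LBdd p U (fun n z => (starRingEnd ℂ) (u n z)) := by
  intro K hK hKU
  obtain ⟨C, hC⟩ := h K hK hKU
  refine ⟨C, ?_⟩
  filter_upwards [hC] with n hn
  simpa only [RCLike.norm_conj] using hn

theorem LBdd.add {p : ℕ} {U : Set ℂ} {u v : ℕ → ℂ → ℂ} (h1 : LBdd p U u) (hu : SmoothSeq U u)
    (h2 : LBdd p U v) (hv : SmoothSeq U v) : LBdd p U (fun n z => u n z + v n z) := by
  intro K hK hKU
  obtain ⟨C, hC⟩ := h1 K hK hKU
  obtain ⟨D, hD⟩ := h2 K hK hKU
  refine ⟨2 ^ p * (C + D), ?_⟩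
  filter_upwards [hC, hD] with n hn hn'
  calc ∫ z in K, ‖u n z + v n z‖ ^ p
      ≤ ∫ z in K, 2 ^ p * (‖u n z‖ ^ p + ‖v n z‖ ^ p) := by
        refine setIntegral_mono_on ((hu.add hv).intOn hK hKU p n)
          (((hu.intOn hK hKU p n).add (hv.intOn hK hKU p n)).const_mul _)
          hK.measurableSet fun z _ => ?_
        have ha : 0 ≤ ‖u n z‖ := norm_nonneg _
        have hb : 0 ≤ ‖v n z‖ := norm_nonneg _
        calc ‖u n z + v n z‖ ^ p ≤ (‖u n z‖ + ‖v n z‖) ^ p := by gcongr; exact norm_add_le _ _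
          _ ≤ (2 * max ‖u n z‖ ‖v n z‖) ^ p := by
              gcongr
              linarith [le_max_left ‖u n z‖ ‖v n z‖, le_max_right ‖u n z‖ ‖v n z‖]
          _ = 2 ^ p * (max ‖u n z‖ ‖v n z‖) ^ p := mul_pow _ _ _
          _ ≤ 2 ^ p * (‖u n z‖ ^ p + ‖v n z‖ ^ p) := by
              gcongr
              rcases le_total ‖u n z‖ ‖v n z‖ with h | h
              · rw [max_eq_right h]; linarith [pow_nonneg ha p]
              · rw [max_eq_left h]; linarith [pow_nonneg hb p]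
    _ = 2 ^ p * ((∫ z in K, ‖u n z‖ ^ p) + ∫ z in K, ‖v n z‖ ^ p) := by
        rw [integral_const_mul, integral_add (hu.intOn hK hKU p n) (hv.intOn hK hKU p n)]
    _ ≤ 2 ^ p * (C + D) := by gcongr

theorem LBdd.neg {p : ℕ} {U : Set ℂ} {u : ℕ → ℂ → ℂ} (h : LBdd p U u) :
    LBdd p U (fun n z => - u n z) := by
  intro K hK hKU
  obtain ⟨C, hC⟩ := h K hK hKU
  refine ⟨C, ?_⟩
  filter_upwards [hC] with n hn
  simpa only [norm_neg] using hn

theorem SmoothSeq.neg {U : Set ℂ} {u : ℕ → ℂ → ℂ} (hu : SmoothSeq U u) :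
    SmoothSeq U (fun n z => - u n z) := fun n => (hu n).neg

theorem LBdd.sub {p : ℕ} {U : Set ℂ} {u v : ℕ → ℂ → ℂ} (h1 : LBdd p U u) (hu : SmoothSeq U u)
    (h2 : LBdd p U v) (hv : SmoothSeq U v) : LBdd p U (fun n z => u n z - v n z) := by
  have := h1.add hu h2.neg hv.neg
  simpa only [sub_eq_add_neg] using this

/-- the product of two `L⁴` bounded sequences is `L²` bounded -/
theorem LBdd.mul4 {U : Set ℂ} {u v : ℕ → ℂ → ℂ} (h1 : LBdd 4 U u) (hu : SmoothSeq U u)
    (h2 : LBdd 4 U v) (hv : SmoothSeq U v) : LBdd 2 U (fun n z => u n z * v n z) := by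
  intro K hK hKU
  obtain ⟨C, hC⟩ := h1 K hK hKU
  obtain ⟨D, hD⟩ := h2 K hK hKU
  refine ⟨C + D, ?_⟩
  filter_upwards [hC, hD] with n hn hn'
  calc ∫ z in K, ‖u n z * v n z‖ ^ 2
      ≤ ∫ z in K, (‖u n z‖ ^ 4 + ‖v n z‖ ^ 4) := by
        refine setIntegral_mono_on ((hu.mul hv).intOn hK hKU 2 n)
          ((hu.intOn hK hKU 4 n).add (hv.intOn hK hKU 4 n)) hK.measurableSet fun z _ => ?_
        rw [norm_mul]
        nlinarith [sq_nonneg (‖u n z‖ ^ 2 - ‖v n z‖ ^ 2), sq_nonneg (‖u n z‖ ^ 2),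
          sq_nonneg (‖v n z‖ ^ 2)]
    _ = (∫ z in K, ‖u n z‖ ^ 4) + ∫ z in K, ‖v n z‖ ^ 4 :=
        integral_add (hu.intOn hK hKU 4 n) (hv.intOn hK hKU 4 n)
    _ ≤ C + D := by gcongr

/-- a bounded sequence has bounded integrals against test functions -/
theorem LBdd.test {U : Set ℂ} {u : ℕ → ℂ → ℂ} (h : LBdd 2 U u) (hu : SmoothSeq U u)
    {ζ : ℂ → ℂ} (hζ : Test U ζ) : ∃ C : ℝ, ∀ᶠ n in atTop, ‖∫ z, ζ z * u n z‖ ≤ C := by
  have hKc : IsCompact (tsupport ζ) := hζ.supp
  obtain ⟨C, hC⟩ := h _ hKc hζ.sub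
  obtain ⟨B, hB⟩ := hζ.smooth.continuous.bounded_above_of_compact_support hζ.supp
  have hB0 : 0 ≤ B := (norm_nonneg _).trans (hB 0)
  refine ⟨B * ((volume : Measure ℂ).real (tsupport ζ) + C), ?_⟩
  filter_upwards [hC] with n hn
  have e : ∫ z, ζ z * u n z = ∫ z in tsupport ζ, ζ z * u n z := by
    rw [setIntegral_eq_integral_of_forall_compl_eq_zero]
    intro z hz
    rw [image_eq_zero_of_notMem_tsupport hz, zero_mul]
  rw [e]
  have hi : IntegrableOn (fun z => ‖u n z‖ ^ 2) (tsupport ζ) := hu.intOn hKc hζ.sub 2 n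
  have hc : IntegrableOn (fun _ : ℂ => (1 : ℝ)) (tsupport ζ) := integrableOn_const hKc.measure_lt_top.ne
  calc ‖∫ z in tsupport ζ, ζ z * u n z‖ ≤ ∫ z in tsupport ζ, ‖ζ z * u n z‖ :=
        norm_integral_le_integral_norm _
    _ ≤ ∫ z in tsupport ζ, B * (1 + ‖u n z‖ ^ 2) := by
        refine integral_mono_of_nonneg (Filter.Eventually.of_forall fun z => norm_nonneg _)
          ((hc.add hi).const_mul B) (Filter.Eventually.of_forall fun z => ?_)
        simp only [norm_mul]
        refine mul_le_mul (hB z) ?_ (norm_nonneg _) hB0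
        nlinarith [sq_nonneg (‖u n z‖ - 1), norm_nonneg (u n z)]
    _ = B * ((volume : Measure ℂ).real (tsupport ζ) + ∫ z in tsupport ζ, ‖u n z‖ ^ 2) := by
        rw [integral_const_mul, integral_add hc hi]; simp
    _ ≤ _ := by gcongr

end

end QE


end

section

/-!
The Cauchy transform on the complex plane: it inverts `∂/∂z̄` and it is compact from `L²` functions
with support in a compact set to `L²_loc`.
-/

open Complex MeasureTheory Filter Topology Real
open scoped ContDiff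

namespace QE

noncomputable section

/-- the Cauchy kernel -/
def ck (w : ℂ) : ℂ := ((π : ℂ) * w)⁻¹

/-- the smoothed Cauchy kernel -/
def kd (δ : ℝ) (w : ℂ) : ℂ := (starRingEnd ℂ) w * ((π : ℂ) * (w * (starRingEnd ℂ) w + (δ : ℂ) ^ 2))⁻¹

/-- the Cauchy transform -/
def cauchy (f : ℂ → ℂ) (z : ℂ) : ℂ := ∫ w, ck w * f (z - w)

theorem mul_conj_eq (w : ℂ) : w * (starRingEnd ℂ) w = ((‖w‖ ^ 2 : ℝ) : ℂ) := by
  rw [Complex.mul_conj, Complex.normSq_eq_norm_sq]

theorem kd_den_eq (δ : ℝ) (w : ℂ) :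
    w * (starRingEnd ℂ) w + (δ : ℂ) ^ 2 = ((‖w‖ ^ 2 + δ ^ 2 : ℝ) : ℂ) := by
  rw [mul_conj_eq]; push_cast; ring

theorem norm_kd (δ : ℝ) (w : ℂ) : ‖kd δ w‖ = ‖w‖ / (π * (‖w‖ ^ 2 + δ ^ 2)) := by
  unfold kd
  rw [kd_den_eq, norm_mul, norm_inv, norm_mul, Complex.norm_real, Complex.norm_real,
    RCLike.norm_conj, Real.norm_of_nonneg pi_pos.le, Real.norm_of_nonneg (by positivity)]
  rfl

theorem norm_kd_le {δ : ℝ} (hδ : 0 < δ) (w : ℂ) : ‖kd δ w‖ ≤ 1 / (2 * π * δ) := by
  rw [norm_kd, div_le_div_iff₀ (by positivity) (by positivity)]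
  linarith only [mul_nonneg pi_pos.le (sq_nonneg (‖w‖ - δ))]

theorem ck_sub_kd {δ : ℝ} (hδ : 0 < δ) (w : ℂ) :
    ‖ck w - kd δ w‖ = δ ^ 2 / (π * ‖w‖ * (‖w‖ ^ 2 + δ ^ 2)) := by
  by_cases hw : w = 0
  · subst hw; simp [ck, kd]
  have hw' : 0 < ‖w‖ := norm_pos_iff.mpr hw
  have hp : (π : ℂ) ≠ 0 := by exact_mod_cast pi_ne_zero
  have hd : w * (starRingEnd ℂ) w + (δ : ℂ) ^ 2 ≠ 0 := by
    rw [kd_den_eq]
    exact_mod_cast (by positivity : ‖w‖ ^ 2 + δ ^ 2 ≠ 0)
  have e : ck w - kd δ w = (δ : ℂ) ^ 2 * ((π : ℂ) * w * (w * (starRingEnd ℂ) w + (δ : ℂ) ^ 2))⁻¹ := by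
    unfold ck kd
    field_simp
    ring
  rw [e, kd_den_eq, norm_mul, norm_inv, norm_mul, norm_mul, Complex.norm_real, norm_pow,
    Complex.norm_real, Complex.norm_real, Real.norm_of_nonneg pi_pos.le, Real.norm_of_nonneg hδ.le,
    Real.norm_of_nonneg (by positivity)]
  rfl

theorem measurable_ck : Measurable ck := by
  unfold ck; fun_prop

theorem continuous_kd {δ : ℝ} (hδ : 0 < δ) : Continuous (kd δ) := by
  unfold kd
  refine Complex.continuous_conj.mul (Continuous.inv₀ (by fun_prop) ?_)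
  intro w
  rw [kd_den_eq]
  exact mul_ne_zero (by exact_mod_cast pi_ne_zero)
    (by exact_mod_cast (by positivity : ‖w‖ ^ 2 + δ ^ 2 ≠ 0))

theorem vol_ball : (volume : Measure ℂ).real (Metric.ball 0 1) = π := by
  simp [Measure.real, Complex.volume_ball]

/-- the `L¹` distance of the two kernels -/
theorem integrable_ck_sub_kd {δ : ℝ} (hδ : 0 < δ) : Integrable (fun w => ‖ck w - kd δ w‖) := by
  have e : (fun w => ‖ck w - kd δ w‖) = fun w : ℂ => (fun y : ℝ => δ ^ 2 / (π * y * (y ^ 2 + δ ^ 2))) ‖w‖ := by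
    funext w; exact ck_sub_kd hδ w
  rw [e, integrable_fun_norm_addHaar (volume : Measure ℂ)
    (f := fun y : ℝ => δ ^ 2 / (π * y * (y ^ 2 + δ ^ 2)))]
  have h1 : Integrable (fun y : ℝ => (π⁻¹ * δ ^ 2) * (δ ^ 2)⁻¹ * (1 + (y / δ) ^ 2)⁻¹) := by
    have := (integrable_inv_one_add_sq.comp_div hδ.ne').const_mul ((π⁻¹ * δ ^ 2) * (δ ^ 2)⁻¹)
    exact this
  refine (h1.integrableOn (s := Set.Ioi 0)).congr_fun ?_ measurableSet_Ioi
  intro y hy
  have hy : 0 < y := hy
  simp only [Complex.finrank_real_complex, smul_eq_mul]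
  field_simp
  try ring

theorem integral_ck_sub_kd {δ : ℝ} (hδ : 0 < δ) : ∫ w, ‖ck w - kd δ w‖ ≤ π * δ := by
  have e : (fun w => ‖ck w - kd δ w‖) = fun w : ℂ => (fun y : ℝ => δ ^ 2 / (π * y * (y ^ 2 + δ ^ 2))) ‖w‖ := by
    funext w; exact ck_sub_kd hδ w
  rw [e, integral_fun_norm_addHaar (volume : Measure ℂ)
    (fun y : ℝ => δ ^ 2 / (π * y * (y ^ 2 + δ ^ 2))), vol_ball]
  have h1 : Integrable (fun y : ℝ => π⁻¹ * (1 + (y / δ) ^ 2)⁻¹) := by
    exact (integrable_inv_one_add_sq.comp_div hδ.ne').const_mul π⁻¹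
  have h2 : ∫ y in Set.Ioi (0 : ℝ), y ^ (Module.finrank ℝ ℂ - 1) • (δ ^ 2 / (π * y * (y ^ 2 + δ ^ 2)))
      = ∫ y in Set.Ioi (0 : ℝ), π⁻¹ * (1 + (y / δ) ^ 2)⁻¹ := by
    refine setIntegral_congr_fun measurableSet_Ioi ?_
    intro y hy
    have hy : 0 < y := hy
    simp only [Complex.finrank_real_complex, smul_eq_mul]
    field_simp
    try ring
  rw [h2]
  have h3 : ∫ y in Set.Ioi (0 : ℝ), π⁻¹ * (1 + (y / δ) ^ 2)⁻¹ = π⁻¹ * (δ * (π / 2)) := by
    rw [integral_const_mul]
    congr 1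
    have := integral_comp_mul_left_Ioi (fun y : ℝ => (1 + y ^ 2)⁻¹) 0 (inv_pos.mpr hδ)
    simp only [mul_zero, smul_eq_mul, inv_inv] at this
    have e2 : ∀ y : ℝ, y / δ = δ⁻¹ * y := fun y => by ring
    simp only [e2]
    rw [this, integral_Ioi_inv_one_add_sq]
    simp
  rw [h3]
  simp only [Complex.finrank_real_complex, smul_eq_mul, nsmul_eq_mul]
  push_cast
  have : (2 : ℝ) * (π * (π⁻¹ * (δ * (π / 2)))) = π * δ := by
    field_simp
  linarith only [this]

theorem locInt_ck : LocallyIntegrable ck := by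
  have h1 : Integrable (fun w => ck w - kd 1 w) := by
    have h := integrable_ck_sub_kd one_pos
    exact (integrable_norm_iff (measurable_ck.sub (continuous_kd one_pos).measurable).aestronglyMeasurable).mp h
  have h2 : LocallyIntegrable (kd 1) := (continuous_kd one_pos).locallyIntegrable
  have h3 := h1.locallyIntegrable.add h2
  refine h3.congr ?_
  filter_upwards with w
  simp

theorem cauchy_eq_conv (f : ℂ → ℂ) :
    cauchy f = convolution ck f (ContinuousLinearMap.mul ℝ ℂ) volume := by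
  funext z
  rw [convolution_def]
  rfl

theorem contDiff_cauchy {f : ℂ → ℂ} (hf : ContDiff ℝ ∞ f) (hc : HasCompactSupport f) :
    ContDiff ℝ ∞ (cauchy f) := by
  rw [cauchy_eq_conv]
  exact hc.contDiff_convolution_right (n := ⊤) _ locInt_ck hf

theorem convExists {f : ℂ → ℂ} (hf : Continuous f) (hc : HasCompactSupport f) (z : ℂ) :
    Integrable (fun w => ck w * f (z - w)) := by
  have := hc.convolutionExists_right (ContinuousLinearMap.mul ℝ ℂ) locInt_ck hf (μ := volume) z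
  exact this

theorem fderiv_cauchy {f : ℂ → ℂ} (hf : ContDiff ℝ ∞ f) (hc : HasCompactSupport f) (z v : ℂ) :
    fderiv ℝ (cauchy f) z v = cauchy (fun w => fderiv ℝ f w v) z := by
  have h := (hc.hasFDerivAt_convolution_right (ContinuousLinearMap.mul ℝ ℂ) locInt_ck
    (hf.of_le (by simp)) (μ := volume) z).fderiv
  rw [cauchy_eq_conv, h, convolution_def]
  have hi := (hc.fderiv (𝕜 := ℝ)).convolutionExists_right
    ((ContinuousLinearMap.mul ℝ ℂ).precompR ℂ) locInt_ck
    (hf.continuous_fderiv (by simp)) (μ := volume) z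
  rw [ContinuousLinearMap.integral_apply hi]
  rfl

theorem dz_cauchy {f : ℂ → ℂ} (hf : ContDiff ℝ ∞ f) (hc : HasCompactSupport f) (z : ℂ) :
    dz (cauchy f) z = cauchy (dz f) z := by
  have hi : ∀ v, Integrable (fun w => ck w * fderiv ℝ f (z - w) v) := fun v =>
    convExists ((hf.continuous_fderiv (by simp)).clm_apply continuous_const)
      (hc.fderiv_apply (𝕜 := ℝ) v) z
  have e : cauchy (dz f) z = (1 / 2) * (cauchy (fun w => fderiv ℝ f w 1) z
      - I * cauchy (fun w => fderiv ℝ f w I) z) := by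
    unfold cauchy
    rw [← integral_const_mul, ← integral_sub (hi 1) ((hi I).const_mul I), ← integral_const_mul]
    refine integral_congr_ae (Filter.Eventually.of_forall fun w => ?_)
    simp only [dz]; ring
  rw [e]
  unfold dz
  rw [fderiv_cauchy hf hc, fderiv_cauchy hf hc]

theorem dzb_cauchy' {f : ℂ → ℂ} (hf : ContDiff ℝ ∞ f) (hc : HasCompactSupport f) (z : ℂ) :
    dzb (cauchy f) z = cauchy (dzb f) z := by
  have hi : ∀ v, Integrable (fun w => ck w * fderiv ℝ f (z - w) v) := fun v =>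
    convExists ((hf.continuous_fderiv (by simp)).clm_apply continuous_const)
      (hc.fderiv_apply (𝕜 := ℝ) v) z
  have e : cauchy (dzb f) z = (1 / 2) * (cauchy (fun w => fderiv ℝ f w 1) z
      + I * cauchy (fun w => fderiv ℝ f w I) z) := by
    unfold cauchy
    rw [← integral_const_mul, ← integral_add (hi 1) ((hi I).const_mul I), ← integral_const_mul]
    refine integral_congr_ae (Filter.Eventually.of_forall fun w => ?_)
    simp only [dzb]; ring
  rw [e]
  unfold dzb
  rw [fderiv_cauchy hf hc, fderiv_cauchy hf hc]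

theorem cauchy_add {f g : ℂ → ℂ} (hf : Continuous f) (hfc : HasCompactSupport f)
    (hg : Continuous g) (hgc : HasCompactSupport g) (z : ℂ) :
    cauchy (fun w => f w + g w) z = cauchy f z + cauchy g z := by
  unfold cauchy
  rw [← integral_add (convExists hf hfc z) (convExists hg hgc z)]
  refine integral_congr_ae (Filter.Eventually.of_forall fun w => ?_)
  simp only []; ring

theorem cauchy_sub {f g : ℂ → ℂ} (hf : Continuous f) (hfc : HasCompactSupport f)
    (hg : Continuous g) (hgc : HasCompactSupport g) (z : ℂ) :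
    cauchy (fun w => f w - g w) z = cauchy f z - cauchy g z := by
  unfold cauchy
  rw [← integral_sub (convExists hf hfc z) (convExists hg hgc z)]
  refine integral_congr_ae (Filter.Eventually.of_forall fun w => ?_)
  simp only []; ring

theorem cauchy_neg (f : ℂ → ℂ) (z : ℂ) : cauchy (fun w => - f w) z = - cauchy f z := by
  unfold cauchy
  rw [← integral_neg]
  refine integral_congr_ae (Filter.Eventually.of_forall fun w => ?_)
  simp only []; ring

/-- the `∂/∂z̄` derivative of the smoothed kernel -/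
theorem differentiable_kd {δ : ℝ} (hδ : 0 < δ) : Differentiable ℝ (kd δ) := by
  intro w
  unfold kd
  have hd : (π : ℂ) * (w * (starRingEnd ℂ) w + (δ : ℂ) ^ 2) ≠ 0 := by
    rw [kd_den_eq]
    exact mul_ne_zero (by exact_mod_cast pi_ne_zero)
      (by exact_mod_cast (by positivity : ‖w‖ ^ 2 + δ ^ 2 ≠ 0))
  have hconj : DifferentiableAt ℝ (fun w : ℂ => (starRingEnd ℂ) w) w :=
    conjCLE.differentiableAt
  exact hconj.mul ((((differentiableAt_id).mul hconj).add_const _).const_mul _ |>.inv hd)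

theorem contDiff_kd {δ : ℝ} (hδ : 0 < δ) : ContDiff ℝ ∞ (kd δ) := by
  unfold kd
  have hconj : ContDiff ℝ ∞ (fun w : ℂ => (starRingEnd ℂ) w) := conjCLE.contDiff
  refine hconj.mul (ContDiff.inv (contDiff_const.mul ((contDiff_id.mul hconj).add contDiff_const)) ?_)
  intro w
  show (π : ℂ) * (w * (starRingEnd ℂ) w + (δ : ℂ) ^ 2) ≠ 0
  rw [kd_den_eq]
  exact mul_ne_zero (by exact_mod_cast pi_ne_zero)
    (by exact_mod_cast (by positivity : ‖w‖ ^ 2 + δ ^ 2 ≠ 0))

theorem dzb_kd {δ : ℝ} (hδ : 0 < δ) (w : ℂ) :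
    dzb (kd δ) w = ((π⁻¹ * δ ^ 2 / (‖w‖ ^ 2 + δ ^ 2) ^ 2 : ℝ) : ℂ) := by
  have hconj : DifferentiableAt ℝ (fun w : ℂ => (starRingEnd ℂ) w) w :=
    conjCLE.differentiableAt
  set D : ℂ → ℂ := fun w => (π : ℂ) * (w * (starRingEnd ℂ) w + (δ : ℂ) ^ 2) with hD
  have hDw : D w ≠ 0 := by
    rw [hD]; simp only []
    rw [kd_den_eq]
    exact mul_ne_zero (by exact_mod_cast pi_ne_zero)
      (by exact_mod_cast (by positivity : ‖w‖ ^ 2 + δ ^ 2 ≠ 0))
  have hDd : DifferentiableAt ℝ D w :=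
    (((differentiableAt_id).mul hconj).add_const _).const_mul _
  have hDi : DifferentiableAt ℝ (fun w => (D w)⁻¹) w := hDd.inv hDw
  have hid : dzb (fun w : ℂ => w) w = 0 := by
    unfold dzb
    have : fderiv ℝ (fun w : ℂ => w) w = ContinuousLinearMap.id ℝ ℂ := fderiv_fun_id
    rw [this]; simp
  have hcj : dzb (fun w : ℂ => (starRingEnd ℂ) w) w = 1 := by
    have := dzb_conj (f := fun w : ℂ => w) (z := w) differentiableAt_id
    rw [this]
    unfold dz
    have : fderiv ℝ (fun w : ℂ => w) w = ContinuousLinearMap.id ℝ ℂ := fderiv_fun_id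
    rw [this]
    simp only [ContinuousLinearMap.id_apply, I_mul_I, sub_neg_eq_add]
    rw [show (1 : ℂ) / 2 * (1 + 1) = 1 by norm_num]; simp
  have hDz : dzb D w = (π : ℂ) * w := by
    have hm : DifferentiableAt ℝ (fun w : ℂ => w * (starRingEnd ℂ) w) w :=
      (differentiableAt_id).mul hconj
    rw [hD, dzb_const_mul _ (hm.add_const _), dzb_add hm (differentiableAt_const _),
      dzb_mul (f := fun w : ℂ => w) differentiableAt_id hconj, dzb_const]
    simp only [hid, hcj]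
    ring
  have hinv : dzb (fun w => (D w)⁻¹) w = - dzb D w / (D w) ^ 2 := by
    have h1 : (fun u => D u * (D u)⁻¹) =ᶠ[𝓝 w] fun _ => 1 := by
      have : ∀ᶠ u in 𝓝 w, D u ≠ 0 := hDd.continuousAt.eventually_ne hDw
      filter_upwards [this] with u hu
      exact mul_inv_cancel₀ hu
    have h2 := dzb_congr h1
    rw [dzb_mul hDd hDi, dzb_const] at h2
    field_simp at h2 ⊢
    linear_combination h2
  have e : kd δ = fun w => (starRingEnd ℂ) w * (D w)⁻¹ := rfl
  rw [e, dzb_mul hconj hDi, hcj, hinv, hDz]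
  have hDe : D w = (π : ℂ) * ((‖w‖ ^ 2 + δ ^ 2 : ℝ) : ℂ) := by
    rw [hD]; simp only []; rw [kd_den_eq]
  have hne : ((‖w‖ ^ 2 + δ ^ 2 : ℝ) : ℂ) ≠ 0 := by
    exact_mod_cast (by positivity : ‖w‖ ^ 2 + δ ^ 2 ≠ 0)
  have hp : (π : ℂ) ≠ 0 := by exact_mod_cast pi_ne_zero
  have hmc := mul_conj_eq w
  rw [hDe]
  have goal1 : (1 : ℂ) * ((π : ℂ) * ((‖w‖ ^ 2 + δ ^ 2 : ℝ) : ℂ))⁻¹
      + (starRingEnd ℂ) w * (-((π : ℂ) * w) / ((π : ℂ) * ((‖w‖ ^ 2 + δ ^ 2 : ℝ) : ℂ)) ^ 2)
      = (π : ℂ)⁻¹ * (((‖w‖ ^ 2 + δ ^ 2 : ℝ) : ℂ) - w * (starRingEnd ℂ) w)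
        / ((‖w‖ ^ 2 + δ ^ 2 : ℝ) : ℂ) ^ 2 := by
    field_simp
    ring
  rw [goal1, hmc]
  push_cast
  ring

/-- the integral of the derivative of the smoothed kernel -/
theorem integral_peak : ∫ w : ℂ, π⁻¹ * (1 + ‖w‖ ^ 2)⁻¹ ^ 2 = 1 := by
  rw [integral_fun_norm_addHaar (volume : Measure ℂ) (fun y : ℝ => π⁻¹ * (1 + y ^ 2)⁻¹ ^ 2), vol_ball]
  have h1 : ∫ y in Set.Ioi (0 : ℝ), y ^ (Module.finrank ℝ ℂ - 1) • (π⁻¹ * (1 + y ^ 2)⁻¹ ^ 2)
      = 0 - (-(π⁻¹ / 2) * (1 + (0 : ℝ) ^ 2)⁻¹) := by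
    have hderiv : ∀ y ∈ Set.Ici (0 : ℝ), HasDerivAt (fun y : ℝ => -(π⁻¹ / 2) * (1 + y ^ 2)⁻¹)
        (y ^ (Module.finrank ℝ ℂ - 1) • (π⁻¹ * (1 + y ^ 2)⁻¹ ^ 2)) y := by
      intro y _
      have hne : (1 + y ^ 2) ≠ 0 := by positivity
      have h := ((((hasDerivAt_id y).pow 2).const_add 1).inv hne).const_mul (-(π⁻¹ / 2))
      simp only [id, Complex.finrank_real_complex] at h ⊢
      refine h.congr_deriv ?_
      simp
      field_simp
    have hlim : Tendsto (fun y : ℝ => -(π⁻¹ / 2) * (1 + y ^ 2)⁻¹) atTop (𝓝 0) := by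
      have h0 : Tendsto (fun y : ℝ => (1 + y ^ 2)⁻¹) atTop (𝓝 0) :=
        (tendsto_atTop_add_const_left _ _ (tendsto_pow_atTop (by norm_num))).inv_tendsto_atTop
      simpa using h0.const_mul (-(π⁻¹ / 2))
    have hpos : ∀ y ∈ Set.Ioi (0 : ℝ), 0 ≤ y ^ (Module.finrank ℝ ℂ - 1) • (π⁻¹ * (1 + y ^ 2)⁻¹ ^ 2) := by
      intro y hy
      have hy : 0 < y := hy
      simp only [smul_eq_mul]
      positivity
    exact integral_Ioi_of_hasDerivAt_of_nonneg' hderiv hpos hlim
  rw [h1]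
  simp only [Complex.finrank_real_complex, smul_eq_mul, nsmul_eq_mul]
  push_cast
  field_simp
  norm_num

/-- **Cauchy–Pompeiu**: the Cauchy transform inverts `∂/∂z̄` -/
theorem cauchy_dzb {f : ℂ → ℂ} (hf : ContDiff ℝ ∞ f) (hc : HasCompactSupport f) (z : ℂ) :
    cauchy (dzb f) z = f z := by
  -- the reflected function
  set g : ℂ → ℂ := fun w => f (z - w) with hg
  have hgs : ContDiff ℝ ∞ g := hf.comp (contDiff_const.sub contDiff_id)
  have hgc : HasCompactSupport g := by
    have := hc.comp_homeomorph (Homeomorph.subLeft z)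
    exact this
  have hgd : ∀ w, dzb g w = - dzb f (z - w) := by
    intro w
    have h1 : ∀ v, fderiv ℝ g w v = - fderiv ℝ f (z - w) v := by
      intro v
      have h2 : HasFDerivAt g ((fderiv ℝ f (z - w)).comp (-(ContinuousLinearMap.id ℝ ℂ))) w := by
        have h3 : HasFDerivAt (fun w : ℂ => z - w) (-(ContinuousLinearMap.id ℝ ℂ)) w := by
          simpa using (hasFDerivAt_id w).const_sub z
        exact ((hf.differentiable (by simp) (z - w)).hasFDerivAt).comp w h3
      rw [h2.fderiv]; simp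
    unfold dzb
    rw [h1, h1]; ring
  obtain ⟨B, hB⟩ : ∃ B : ℝ, ∀ w, ‖dzb f w‖ ≤ B := by
    obtain ⟨B, hB⟩ := (contDiff_dzb hf).continuous.bounded_above_of_compact_support hc.dzb
    exact ⟨B, hB⟩
  have hB0 : 0 ≤ B := (norm_nonneg _).trans (hB 0)
  -- the smoothed identity
  have key : ∀ c : ℝ, 0 < c → ∫ w, kd c⁻¹ w * dzb f (z - w)
      = ∫ w, (c ^ (Module.finrank ℝ ℂ) * (π⁻¹ * (1 + ‖c • w‖ ^ 2)⁻¹ ^ 2)) • g w := by
    intro c hcpos
    have hδ : 0 < c⁻¹ := inv_pos.mpr hcpos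
    have hibp : ∫ w, g w * dzb (kd c⁻¹) w = - ∫ w, dzb g w * kd c⁻¹ w :=
      integral_mul_dzb isOpen_univ (⟨hgs, hgc, Set.subset_univ _⟩ : Test Set.univ g)
        (contDiff_kd hδ).contDiffOn
    have e1 : ∫ w, kd c⁻¹ w * dzb f (z - w) = - ∫ w, dzb g w * kd c⁻¹ w := by
      rw [← integral_neg]
      refine integral_congr_ae (Filter.Eventually.of_forall fun w => ?_)
      simp only [hgd]; ring
    rw [e1, ← hibp]
    refine integral_congr_ae (Filter.Eventually.of_forall fun w => ?_)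
    simp only [dzb_kd hδ]
    rw [Complex.real_smul, mul_comm]
    congr 1
    simp only [Complex.finrank_real_complex, norm_smul, Real.norm_of_nonneg hcpos.le]
    congr 1
    have : (0:ℝ) < ‖w‖ ^ 2 + c⁻¹ ^ 2 := by positivity
    field_simp
    ring
  have hlim1 : Tendsto (fun c : ℝ => ∫ w, (c ^ (Module.finrank ℝ ℂ)
      * (π⁻¹ * (1 + ‖c • w‖ ^ 2)⁻¹ ^ 2)) • g w) atTop (𝓝 (g 0)) := by
    refine tendsto_integral_comp_smul_smul_of_integrable
      (φ := fun w : ℂ => π⁻¹ * (1 + ‖w‖ ^ 2)⁻¹ ^ 2) (fun w => by positivity) integral_peak ?_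
      (hgs.continuous.integrable_of_hasCompactSupport hgc) hgs.continuous.continuousAt
    have hn : Tendsto (fun w : ℂ => ‖w‖) (Bornology.cobounded ℂ) atTop := tendsto_norm_cobounded_atTop
    have h1 : Tendsto (fun r : ℝ => r ^ 2 * (π⁻¹ * (1 + r ^ 2)⁻¹ ^ 2)) atTop (𝓝 0) := by
      have h2 : Tendsto (fun r : ℝ => π⁻¹ * (1 + r ^ 2)⁻¹) atTop (𝓝 0) := by
        have h0 : Tendsto (fun y : ℝ => (1 + y ^ 2)⁻¹) atTop (𝓝 0) :=
          (tendsto_atTop_add_const_left _ _ (tendsto_pow_atTop (by norm_num))).inv_tendsto_atTop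
        simpa using h0.const_mul π⁻¹
      refine squeeze_zero (fun r => by (clear * -; positivity)) (fun r => ?_) h2
      have : (0:ℝ) < 1 + r ^ 2 := by positivity
      have h3 : r ^ 2 * (1 + r ^ 2)⁻¹ ≤ 1 := by
        rw [← div_eq_mul_inv, div_le_one this]; linarith
      calc r ^ 2 * (π⁻¹ * (1 + r ^ 2)⁻¹ ^ 2) = (r ^ 2 * (1 + r ^ 2)⁻¹) * (π⁻¹ * (1 + r ^ 2)⁻¹) := by ring
        _ ≤ 1 * (π⁻¹ * (1 + r ^ 2)⁻¹) := by (clear * - h3; gcongr)
        _ = _ := one_mul _
    simpa [Complex.finrank_real_complex, Function.comp_def] using h1.comp hn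
  have hlim2 : Tendsto (fun c : ℝ => ∫ w, kd c⁻¹ w * dzb f (z - w)) atTop (𝓝 (g 0)) :=
    hlim1.congr' (by filter_upwards [eventually_gt_atTop 0] with c hc' using (key c hc').symm)
  have hlim3 : Tendsto (fun c : ℝ => ∫ w, kd c⁻¹ w * dzb f (z - w)) atTop
      (𝓝 (cauchy (dzb f) z)) := by
    rw [tendsto_iff_norm_sub_tendsto_zero]
    have h0 : Tendsto (fun c : ℝ => B * (π * c⁻¹)) atTop (𝓝 0) := by
      simpa using (tendsto_inv_atTop_zero.const_mul π).const_mul B
    refine squeeze_zero' (Filter.Eventually.of_forall fun c => norm_nonneg _) ?_ h0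
    filter_upwards [eventually_gt_atTop 0] with c hcpos
    have hδ : 0 < c⁻¹ := inv_pos.mpr hcpos
    have hi1 : Integrable (fun w => ck w * dzb f (z - w)) :=
      convExists (contDiff_dzb hf).continuous hc.dzb z
    have hi3 : Integrable (fun w => dzb f (z - w)) := by
      have : Integrable (dzb f) := (contDiff_dzb hf).continuous.integrable_of_hasCompactSupport hc.dzb
      exact this.comp_sub_left z
    have hi2 : Integrable (fun w => kd c⁻¹ w * dzb f (z - w)) :=
      hi3.bdd_mul (continuous_kd hδ).aestronglyMeasurable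
        (Filter.Eventually.of_forall fun w => norm_kd_le hδ w)
    unfold cauchy
    rw [← integral_sub hi2 hi1]
    calc ‖∫ w, (kd c⁻¹ w * dzb f (z - w) - ck w * dzb f (z - w))‖
        ≤ ∫ w, ‖kd c⁻¹ w * dzb f (z - w) - ck w * dzb f (z - w)‖ := norm_integral_le_integral_norm _
      _ ≤ ∫ w, B * ‖ck w - kd c⁻¹ w‖ := by
          refine integral_mono (hi2.sub hi1).norm ((integrable_ck_sub_kd hδ).const_mul B) fun w => ?_
          simp only []
          rw [← sub_mul, norm_mul, norm_sub_rev, mul_comm]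
          gcongr
          exact hB _
      _ = B * ∫ w, ‖ck w - kd c⁻¹ w‖ := integral_const_mul _ _
      _ ≤ B * (π * c⁻¹) := by gcongr; exact integral_ck_sub_kd hδ
  have := tendsto_nhds_unique hlim3 hlim2
  rw [this, hg]; simp

theorem dzb_cauchy {f : ℂ → ℂ} (hf : ContDiff ℝ ∞ f) (hc : HasCompactSupport f) (z : ℂ) :
    dzb (cauchy f) z = f z := by
  rw [dzb_cauchy' hf hc, cauchy_dzb hf hc]

end

end QE


end

section

/-!
Compactness of the Cauchy transform.
-/

open Complex MeasureTheory Filter Topology Real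
open scoped ContDiff

namespace QE

noncomputable section

theorem sq_integral_mul_le {k g : ℂ → ℝ} (hk : ∀ z, 0 ≤ k z) (h0 : Integrable k)
    (h1 : Integrable (fun z => k z * g z)) (h2 : Integrable (fun z => k z * g z ^ 2)) :
    (∫ z, k z * g z) ^ 2 ≤ (∫ z, k z) * ∫ z, k z * g z ^ 2 := by
  have key : ∀ t : ℝ, 0 ≤ (∫ z, k z) * (t * t) + (-2 * ∫ z, k z * g z) * t
      + ∫ z, k z * g z ^ 2 := by
    intro t
    have e : (∫ z, k z) * (t * t) + (-2 * ∫ z, k z * g z) * t + ∫ z, k z * g z ^ 2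
        = ∫ z, k z * (t - g z) ^ 2 := by
      have e1 : ∀ z, k z * (t - g z) ^ 2 = ((t * t) * k z + (-2 * t) * (k z * g z)) + k z * g z ^ 2 :=
        fun z => by ring
      simp only [e1]
      have h3 : Integrable (fun z => (t * t) * k z + (-2 * t) * (k z * g z)) :=
        (h0.const_mul _).add (h1.const_mul _)
      rw [integral_add h3 h2,
        integral_add (h0.const_mul _) (h1.const_mul _), integral_const_mul, integral_const_mul]
      ring
    rw [e]
    exact integral_nonneg fun z => mul_nonneg (hk z) (sq_nonneg _)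
  have := discrim_le_zero key
  unfold discrim at this
  nlinarith

/-- Young's inequality for the square norm, for a compactly supported continuous function -/
theorem young_sq {k f : ℂ → ℂ} (hk : Integrable k) (hf : Continuous f) (hc : HasCompactSupport f) :
    Integrable (fun z => ‖∫ w, k w * f (z - w)‖ ^ 2) ∧
    ∫ z, ‖∫ w, k w * f (z - w)‖ ^ 2 ≤ (∫ w, ‖k w‖) ^ 2 * ∫ z, ‖f z‖ ^ 2 := by
  have hf2 : Integrable (fun z => ‖f z‖ ^ 2) := by
    have : Continuous (fun z => ‖f z‖ ^ 2) := by fun_prop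
    refine this.integrable_of_hasCompactSupport ?_
    exact hc.comp_left (g := fun w => ‖w‖ ^ 2) (by simp)
  obtain ⟨B, hB⟩ := hf.bounded_above_of_compact_support hc
  have hB0 : 0 ≤ B := (norm_nonneg _).trans (hB 0)
  have hkn : Integrable (fun w => ‖k w‖) := hk.norm
  have hi1 : ∀ z, Integrable (fun w => ‖k w‖ * ‖f (z - w)‖) := fun z =>
    hkn.mul_bdd (c := B) (by fun_prop) (Filter.Eventually.of_forall fun w => by simpa using hB _)
  have hi2 : ∀ z, Integrable (fun w => ‖k w‖ * ‖f (z - w)‖ ^ 2) := fun z =>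
    hkn.mul_bdd (c := B ^ 2) (by fun_prop) (Filter.Eventually.of_forall fun w => by
      simp only [norm_pow, norm_norm]; gcongr; exact hB _)
  have hpt : ∀ z, ‖∫ w, k w * f (z - w)‖ ^ 2 ≤ (∫ w, ‖k w‖) * ∫ w, ‖k w‖ * ‖f (z - w)‖ ^ 2 := by
    intro z
    calc ‖∫ w, k w * f (z - w)‖ ^ 2 ≤ (∫ w, ‖k w‖ * ‖f (z - w)‖) ^ 2 := by
          gcongr
          refine (norm_integral_le_integral_norm _).trans_eq ?_
          exact integral_congr_ae (Filter.Eventually.of_forall fun w => norm_mul _ _)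
      _ ≤ _ := sq_integral_mul_le (fun w => norm_nonneg _) hkn (hi1 z) (hi2 z)
  have hconv : Integrable (convolution (fun w => ‖k w‖) (fun w => ‖f w‖ ^ 2)
      (ContinuousLinearMap.mul ℝ ℝ) volume) :=
    hkn.integrable_convolution _ hf2
  have hconvi : ∫ z, convolution (fun w => ‖k w‖) (fun w => ‖f w‖ ^ 2)
      (ContinuousLinearMap.mul ℝ ℝ) volume z = (∫ w, ‖k w‖) * ∫ z, ‖f z‖ ^ 2 := by
    rw [integral_convolution _ hkn hf2]; rfl
  have hmeas : AEStronglyMeasurable (fun z => ‖∫ w, k w * f (z - w)‖ ^ 2) volume := by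
    have h1 : Continuous (convolution k f (ContinuousLinearMap.mul ℝ ℂ) volume) :=
      hc.continuous_convolution_right _ hk.locallyIntegrable hf
    have h2 : (fun z => ‖∫ w, k w * f (z - w)‖ ^ 2)
        = fun z => ‖convolution k f (ContinuousLinearMap.mul ℝ ℂ) volume z‖ ^ 2 := by
      funext z; rw [convolution_def]; rfl
    rw [h2]
    exact (by fun_prop : Continuous _).aestronglyMeasurable
  have hdom : Integrable (fun z => (∫ w, ‖k w‖) * ∫ w, ‖k w‖ * ‖f (z - w)‖ ^ 2) := by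
    exact hconv.const_mul _
  have hint : Integrable (fun z => ‖∫ w, k w * f (z - w)‖ ^ 2) :=
    hdom.mono' hmeas (Filter.Eventually.of_forall fun z => by
      rw [Real.norm_of_nonneg (by positivity)]; exact hpt z)
  refine ⟨hint, ?_⟩
  calc ∫ z, ‖∫ w, k w * f (z - w)‖ ^ 2
      ≤ ∫ z, (∫ w, ‖k w‖) * ∫ w, ‖k w‖ * ‖f (z - w)‖ ^ 2 := integral_mono hint hdom hpt
    _ = (∫ w, ‖k w‖) * ∫ z, convolution (fun w => ‖k w‖) (fun w => ‖f w‖ ^ 2)
      (ContinuousLinearMap.mul ℝ ℝ) volume z := by rw [integral_const_mul]; rfl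
    _ = _ := by rw [hconvi]; ring

theorem cauchy_compact {f : ℕ → ℂ → ℂ} {L K : Set ℂ} (hL : IsCompact L) (hK : IsCompact K)
    (hf : ∀ n, ContDiff ℝ ∞ (f n)) (hs : ∀ n, tsupport (f n) ⊆ L) {B : ℝ}
    (hB : ∀ᶠ n in atTop, ∫ z, ‖f n z‖ ^ 2 ≤ B)
    (hw : ∀ η : ℂ → ℂ, ContDiff ℝ ∞ η → Tendsto (fun n => ∫ z, f n z * η z) atTop (𝓝 0)) :
    Tendsto (fun n => ∫ z in K, ‖cauchy (f n) z‖ ^ 2) atTop (𝓝 0) := by
  have hc : ∀ n, HasCompactSupport (f n) := fun n => hL.of_isClosed_subset (isClosed_tsupport _) (hs n)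
  have hB0 : 0 ≤ B := by
    obtain ⟨n, hn⟩ := hB.exists
    exact (integral_nonneg fun z => by positivity).trans hn
  -- `L¹` norms
  set V : ℝ := (volume : Measure ℂ).real L with hV
  have hLfin : (volume : Measure ℂ) L ≠ ⊤ := hL.measure_lt_top.ne
  have hL1 : ∀ᶠ n in atTop, ∫ z, ‖f n z‖ ≤ V + B := by
    filter_upwards [hB] with n hn
    have hi2 : Integrable (fun z => ‖f n z‖ ^ 2) := by
      have : Continuous (fun z => ‖f n z‖ ^ 2) := by have := (hf n).continuous; fun_prop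
      exact this.integrable_of_hasCompactSupport ((hc n).comp_left (g := fun w => ‖w‖ ^ 2) (by simp))
    have hi1 : Integrable (fun z => ‖f n z‖) :=
      ((hf n).continuous.integrable_of_hasCompactSupport (hc n)).norm
    have hind : Integrable (L.indicator fun _ => (1 : ℝ)) :=
      (integrable_indicator_iff hL.measurableSet).mpr (integrableOn_const hLfin)
    have hpt : ∀ z, ‖f n z‖ ≤ L.indicator (fun _ => (1 : ℝ)) z + ‖f n z‖ ^ 2 := by
      intro z
      by_cases hz : z ∈ L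
      · rw [Set.indicator_of_mem hz]; linarith only [sq_nonneg (‖f n z‖ - 1), norm_nonneg (f n z)]
      · have : f n z = 0 := image_eq_zero_of_notMem_tsupport fun h => hz (hs n h)
        rw [Set.indicator_of_notMem hz, this]; simp
    calc ∫ z, ‖f n z‖ ≤ ∫ z, (L.indicator (fun _ => (1 : ℝ)) z + ‖f n z‖ ^ 2) :=
          integral_mono hi1 (hind.add hi2) hpt
      _ = V + ∫ z, ‖f n z‖ ^ 2 := by
          rw [integral_add hind hi2, integral_indicator hL.measurableSet]; simp [hV]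
      _ ≤ V + B := by linarith
  -- the smoothed part tends to zero
  have hsm : ∀ δ : ℝ, 0 < δ → Tendsto (fun n => ∫ z in K, ‖∫ w, kd δ w * f n (z - w)‖ ^ 2) atTop
      (𝓝 0) := by
    intro δ hδ
    have hcont : ∀ n, Continuous (fun z => ∫ w, kd δ w * f n (z - w)) := by
      intro n
      have h1 := (hc n).continuous_convolution_right (ContinuousLinearMap.mul ℝ ℂ)
        ((continuous_kd hδ).locallyIntegrable (μ := volume)) (hf n).continuous
      have h2 : (fun z => ∫ w, kd δ w * f n (z - w))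
        = convolution (kd δ) (f n) (ContinuousLinearMap.mul ℝ ℂ) volume := by
        funext z; rw [convolution_def]; rfl
      rw [h2]; exact h1
    have hz : Tendsto (fun n => ∫ z in K, ‖∫ w, kd δ w * f n (z - w)‖ ^ 2) atTop
        (𝓝 (∫ _ in K, (0 : ℝ))) := by
      refine tendsto_integral_filter_of_dominated_convergence
        (fun _ => (1 / (2 * π * δ) * (V + B)) ^ 2) ?_ ?_ ?_ ?_
      · exact Filter.Eventually.of_forall fun n =>
          (by have := hcont n; fun_prop : Continuous _).aestronglyMeasurable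
      · filter_upwards [hL1] with n hn
        refine Filter.Eventually.of_forall fun z => ?_
        rw [Real.norm_of_nonneg (by positivity)]
        gcongr
        have hi : Integrable (fun w => ‖f n (z - w)‖) :=
          (((hf n).continuous.integrable_of_hasCompactSupport (hc n)).norm).comp_sub_left z
        calc ‖∫ w, kd δ w * f n (z - w)‖ ≤ ∫ w, ‖kd δ w * f n (z - w)‖ :=
              norm_integral_le_integral_norm _
          _ ≤ ∫ w, 1 / (2 * π * δ) * ‖f n (z - w)‖ := by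
              refine integral_mono_of_nonneg (Filter.Eventually.of_forall fun w => norm_nonneg _)
                (hi.const_mul _) (Filter.Eventually.of_forall fun w => ?_)
              simp only [norm_mul]
              gcongr
              exact norm_kd_le hδ w
          _ = 1 / (2 * π * δ) * ∫ w, ‖f n w‖ := by
              rw [integral_const_mul, integral_sub_left_eq_self (fun w => ‖f n w‖) volume z]
          _ ≤ _ := by gcongr
      · exact integrableOn_const hK.measure_lt_top.ne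
      · refine Filter.Eventually.of_forall fun z => ?_
        have h1 : ∀ n, ∫ w, kd δ w * f n (z - w) = ∫ w, f n w * kd δ (z - w) := by
          intro n
          rw [← integral_sub_left_eq_self (fun w => f n w * kd δ (z - w)) volume z]
          refine integral_congr_ae (Filter.Eventually.of_forall fun w => ?_)
          simp only [sub_sub_cancel]; ring
        have h2 := hw (fun w => kd δ (z - w)) ((contDiff_kd hδ).comp (contDiff_const.sub contDiff_id))
        have h3 : Tendsto (fun n => ∫ w, kd δ w * f n (z - w)) atTop (𝓝 0) :=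
          h2.congr fun n => (h1 n).symm
        have h4 := (h3.norm).pow 2
        simpa using h4
    simpa using hz
  -- conclusion
  rw [Metric.tendsto_atTop]
  intro ε hε
  obtain ⟨δ, hδ, hδ2⟩ : ∃ δ : ℝ, 0 < δ ∧ 2 * ((π * δ) ^ 2 * B) < ε / 2 := by
    have h1 : Tendsto (fun δ : ℝ => 2 * ((π * δ) ^ 2 * B)) (𝓝[>] 0) (𝓝 0) := by
      have : Tendsto (fun δ : ℝ => 2 * ((π * δ) ^ 2 * B)) (𝓝 0) (𝓝 (2 * ((π * 0) ^ 2 * B))) :=
        (by fun_prop : Continuous fun δ : ℝ => 2 * ((π * δ) ^ 2 * B)).tendsto 0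
      simpa using this.mono_left nhdsWithin_le_nhds
    have h2 := (h1.eventually_lt_const (half_pos hε)).and self_mem_nhdsWithin
    obtain ⟨δ, h3, h4⟩ := h2.exists
    exact ⟨δ, h4, h3⟩
  have h5 := (hsm δ hδ).const_mul 2
  rw [mul_zero] at h5
  have h6 := h5.eventually_lt_const (half_pos hε)
  obtain ⟨N, hN⟩ := (h6.and hB).exists_forall_of_atTop
  refine ⟨N, fun n hn => ?_⟩
  obtain ⟨h7, h8⟩ := hN n hn
  have hkk : Integrable (fun w => ck w - kd δ w) :=
    (integrable_norm_iff (measurable_ck.sub (continuous_kd hδ).measurable).aestronglyMeasurable).mp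
      (integrable_ck_sub_kd hδ)
  obtain ⟨hy1, hy2⟩ := young_sq hkk (hf n).continuous (hc n)
  have hsplit : ∀ z, cauchy (f n) z = (∫ w, (ck w - kd δ w) * f n (z - w))
      + ∫ w, kd δ w * f n (z - w) := by
    intro z
    have hi1 : Integrable (fun w => ck w * f n (z - w)) := convExists (hf n).continuous (hc n) z
    have hi3 : Integrable (fun w => f n (z - w)) :=
      ((hf n).continuous.integrable_of_hasCompactSupport (hc n)).comp_sub_left z
    have hi2 : Integrable (fun w => kd δ w * f n (z - w)) :=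
      hi3.bdd_mul (continuous_kd hδ).aestronglyMeasurable
        (Filter.Eventually.of_forall fun w => norm_kd_le hδ w)
    have hi4 : Integrable (fun w => (ck w - kd δ w) * f n (z - w)) := by
      refine (hi1.sub hi2).congr (Filter.Eventually.of_forall fun w => ?_)
      simp only [Pi.sub_apply]; ring
    rw [← integral_add hi4 hi2]
    unfold cauchy
    refine integral_congr_ae (Filter.Eventually.of_forall fun w => ?_)
    simp only []; ring
  have hcontk : Continuous (fun z => ∫ w, kd δ w * f n (z - w)) := by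
    have h1 := (hc n).continuous_convolution_right (ContinuousLinearMap.mul ℝ ℂ)
      ((continuous_kd hδ).locallyIntegrable (μ := volume)) (hf n).continuous
    have h2 : (fun z => ∫ w, kd δ w * f n (z - w))
      = convolution (kd δ) (f n) (ContinuousLinearMap.mul ℝ ℂ) volume := by
      funext z; rw [convolution_def]; rfl
    rw [h2]; exact h1
  have hik : IntegrableOn (fun z => ‖∫ w, kd δ w * f n (z - w)‖ ^ 2) K :=
    (by fun_prop : Continuous (fun z => ‖∫ w, kd δ w * f n (z - w)‖ ^ 2)).continuousOn.integrableOn_compact hK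
  have hic : IntegrableOn (fun z => ‖cauchy (f n) z‖ ^ 2) K := by
    have := (contDiff_cauchy (hf n) (hc n)).continuous
    exact (by fun_prop : Continuous (fun z => ‖cauchy (f n) z‖ ^ 2)).continuousOn.integrableOn_compact hK
  rw [Real.dist_eq, sub_zero, abs_of_nonneg (integral_nonneg fun z => by positivity)]
  calc ∫ z in K, ‖cauchy (f n) z‖ ^ 2
      ≤ ∫ z in K, (2 * ‖∫ w, (ck w - kd δ w) * f n (z - w)‖ ^ 2
        + 2 * ‖∫ w, kd δ w * f n (z - w)‖ ^ 2) := by
        refine integral_mono hic ((hy1.integrableOn.const_mul 2).add (hik.const_mul 2)) fun z => ?_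
        simp only []
        rw [hsplit z]
        have h1 := norm_add_le (∫ w, (ck w - kd δ w) * f n (z - w)) (∫ w, kd δ w * f n (z - w))
        nlinarith only [h1, norm_nonneg ((∫ w, (ck w - kd δ w) * f n (z - w)) + ∫ w, kd δ w * f n (z - w)), sq_nonneg (‖∫ w, (ck w - kd δ w) * f n (z - w)‖ - ‖∫ w, kd δ w * f n (z - w)‖)]
    _ = 2 * (∫ z in K, ‖∫ w, (ck w - kd δ w) * f n (z - w)‖ ^ 2)
        + 2 * ∫ z in K, ‖∫ w, kd δ w * f n (z - w)‖ ^ 2 := by
        rw [integral_add (hy1.integrableOn.const_mul 2) (hik.const_mul 2), integral_const_mul,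
          integral_const_mul]
    _ ≤ 2 * ((π * δ) ^ 2 * B) + 2 * ∫ z in K, ‖∫ w, kd δ w * f n (z - w)‖ ^ 2 := by
        gcongr
        calc ∫ z in K, ‖∫ w, (ck w - kd δ w) * f n (z - w)‖ ^ 2
            ≤ ∫ z, ‖∫ w, (ck w - kd δ w) * f n (z - w)‖ ^ 2 :=
              setIntegral_le_integral hy1 (Filter.Eventually.of_forall fun z => by positivity)
          _ ≤ (∫ w, ‖ck w - kd δ w‖) ^ 2 * ∫ z, ‖f n z‖ ^ 2 := hy2
          _ ≤ (π * δ) ^ 2 * B := by
              gcongr
              exact integral_ck_sub_kd hδ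
    _ < ε / 2 + ε / 2 := by linarith only [hδ2, h7]
    _ = ε := by ring

end

end QE


end

section

/-!
The interior elliptic estimate at the scale of Planck's constant, in `L⁴`.
-/

open Complex MeasureTheory Filter Topology Real
open scoped ContDiff

namespace QE

noncomputable section

namespace EllAux

/-- the bump -/
def bump : ContDiffBump (0 : ℂ) := ⟨1 / 2, 1, by norm_num, by norm_num⟩

/-- the cut-off function -/
def ze (w : ℂ) : ℂ := ((bump w : ℝ) : ℂ)

lemma ze_smooth : ContDiff ℝ ∞ ze := by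
  have := Complex.ofRealCLM.contDiff (n := ∞) |>.comp (bump.contDiff (n := ⊤))
  exact this

lemma ze_tsupport : tsupport ze ⊆ Metric.closedBall 0 1 := by
  have h : tsupport ze ⊆ tsupport (bump : ℂ → ℝ) := by
    apply closure_mono
    intro z hz h0
    apply hz
    show ((bump z : ℝ) : ℂ) = 0
    simp only [Complex.ofReal_eq_zero]
    exact h0
  rw [bump.tsupport_eq] at h
  exact h

lemma ze_compact : HasCompactSupport ze :=
  (isCompact_closedBall (0 : ℂ) 1).of_isClosed_subset (isClosed_tsupport _) ze_tsupport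

lemma ze_zero : ze 0 = 1 := by
  unfold ze
  rw [bump.one_of_mem_closedBall (by simp [bump.rIn_pos.le])]
  simp

lemma ze_test {W : Set ℂ} (hW : Metric.closedBall (0 : ℂ) 1 ⊆ W) : Test W ze :=
  ⟨ze_smooth, ze_compact, ze_tsupport.trans hW⟩

lemma dzb_ze_near : dzb ze =ᶠ[𝓝 0] fun _ => 0 := by
  have h1 : ∀ w ∈ Metric.ball (0 : ℂ) (1 / 2), ze w = (fun _ => (1 : ℂ)) w := by
    intro w hw
    unfold ze
    rw [bump.one_of_mem_closedBall (Metric.ball_subset_closedBall hw)]
    simp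
  filter_upwards [Metric.ball_mem_nhds (0 : ℂ) (by norm_num : (0 : ℝ) < 1 / 2)] with w hw
  rw [dzb_congr_on Metric.isOpen_ball h1 hw, dzb_const]

/-- the first kernel -/
def ka (u : ℂ) : ℂ := ck (-u) * dzb ze u

lemma ka_smooth : ContDiff ℝ ∞ ka := by
  rw [contDiff_iff_contDiffAt]
  intro u
  by_cases hu : u = 0
  · subst hu
    have : ka =ᶠ[𝓝 0] fun _ => 0 := by
      filter_upwards [dzb_ze_near] with w hw
      unfold ka
      rw [hw, mul_zero]
    exact contDiffAt_const.congr_of_eventuallyEq this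
  · unfold ka ck
    refine ContDiffAt.mul (ContDiffAt.inv ?_ ?_) (contDiff_dzb ze_smooth).contDiffAt
    · exact contDiffAt_const.mul contDiffAt_id.neg
    · exact mul_ne_zero (by exact_mod_cast pi_ne_zero) (neg_ne_zero.mpr hu)

lemma ka_tsupport : tsupport ka ⊆ Metric.closedBall 0 1 := by
  refine (closure_mono ?_).trans ((tsupport_dzb_subset ze).trans ze_tsupport)
  intro z hz h0
  apply hz
  unfold ka
  rw [h0, mul_zero]

lemma ka_test {W : Set ℂ} (hW : Metric.closedBall (0 : ℂ) 1 ⊆ W) : Test W ka :=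
  ⟨ka_smooth, (isCompact_closedBall (0 : ℂ) 1).of_isClosed_subset (isClosed_tsupport _)
    ka_tsupport, ka_tsupport.trans hW⟩

/-- the kernel -/
def kap (u : ℂ) : ℝ := ‖dz ka u‖ + ‖ck (-u) * ze u‖

lemma kap_nonneg (u : ℂ) : 0 ≤ kap u := add_nonneg (norm_nonneg _) (norm_nonneg _)

lemma kap_eq_zero {u : ℂ} (hu : 1 < ‖u‖) : kap u = 0 := by
  have hu' : u ∉ Metric.closedBall (0 : ℂ) 1 := by
    rw [mem_closedBall_zero_iff]; linarith
  have h1 : dz ka u = 0 :=
    image_eq_zero_of_notMem_tsupport fun h => hu' (ka_tsupport (tsupport_dz_subset ka h))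
  have h2 : ze u = 0 := image_eq_zero_of_notMem_tsupport fun h => hu' (ze_tsupport h)
  unfold kap
  rw [h1, h2]; simp

lemma integrable_ckze : Integrable (fun u : ℂ => ck (-u) * ze u) := by
  have h1 : Integrable (fun w => ck w * ze (0 - w)) := convExists ze_smooth.continuous ze_compact 0
  have h2 := h1.comp_neg
  refine h2.congr (Filter.Eventually.of_forall fun u => ?_)
  simp

lemma integrable_dzka : Integrable (dz ka) := by
  have h := (ka_test (W := Set.univ) (Set.subset_univ _)).dz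
  exact h.smooth.continuous.integrable_of_hasCompactSupport h.supp

lemma kap_integrable : Integrable kap := integrable_dzka.norm.add integrable_ckze.norm

/-- the estimate at scale one -/
lemma unit_bound {W : Set ℂ} (hWo : IsOpen W) (hW : Metric.closedBall (0 : ℂ) 1 ⊆ W) {V : ℂ → ℂ}
    (hV : ContDiffOn ℝ ∞ V W) :
    ‖dz V 0‖ ≤ ∫ u, kap u * (‖V u‖ + ‖dz (dzb V) u‖) := by
  have hdV := contDiffOn_dz hWo hV
  have hddV := contDiffOn_dzb hWo hdV
  have hf : Test W (fun w => ze w * dz V w) := (ze_test hW).mul hWo hdV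
  have h0 := cauchy_dzb hf.smooth hf.supp 0
  rw [ze_zero, one_mul] at h0
  have hcomm : ∀ u ∈ W, dzb (dz V) u = dz (dzb V) u := fun u hu =>
    (dz_dzb_comm ((hV.contDiffAt (hWo.mem_nhds hu)).of_le
      (WithTop.coe_le_coe.mpr (le_top : (2 : ℕ∞) ≤ ⊤)))).symm
  -- the derivative of the product
  have hprod : ∀ u, dzb (fun w => ze w * dz V w) u
      = dzb ze u * dz V u + ze u * dzb (dz V) u := by
    intro u
    by_cases hu : u ∈ W
    · exact dzb_mul (ze_smooth.differentiable (by simp) u)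
        ((hdV.contDiffAt (hWo.mem_nhds hu)).differentiableAt (by simp))
    · have hu' : u ∉ tsupport ze := fun h => hu (hW (ze_tsupport h))
      have e1 : dzb (fun w => ze w * dz V w) u = 0 := by
        refine image_eq_zero_of_notMem_tsupport fun h => ?_
        exact hu (hf.sub (tsupport_dzb_subset _ h))
      have e2 : dzb ze u = 0 := image_eq_zero_of_notMem_tsupport fun h =>
        hu' (tsupport_dzb_subset _ h)
      have e3 : ze u = 0 := image_eq_zero_of_notMem_tsupport hu'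
      rw [e1, e2, e3]; ring
  have hI1 : Integrable (fun u => ka u * dz V u) := (ka_test hW).integrable_mul hWo hdV.continuousOn
  have hcz : Integrable (fun u => ze u * dzb (dz V) u) :=
    (ze_test hW).integrable_mul hWo hddV.continuousOn
  have hf2 : Test W (fun w => ze w * dzb (dz V) w) := (ze_test hW).mul hWo hddV
  have hI2 : Integrable (fun u => (ck (-u) * ze u) * dzb (dz V) u) := by
    have h1 := convExists hf2.smooth.continuous hf2.supp 0
    have h2 := h1.comp_neg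
    refine h2.congr (Filter.Eventually.of_forall fun u => ?_)
    simp only [sub_neg_eq_add, zero_add]
    ring
  have h1 : dz V 0 = (∫ u, ka u * dz V u) + ∫ u, (ck (-u) * ze u) * dzb (dz V) u := by
    rw [← h0, ← integral_add hI1 hI2]
    unfold cauchy
    rw [← integral_neg_eq_self]
    refine integral_congr_ae (Filter.Eventually.of_forall fun u => ?_)
    simp only [zero_sub, neg_neg]
    rw [hprod]
    unfold ka
    ring
  have h2 : ∫ u, ka u * dz V u = - ∫ u, dz ka u * V u := integral_mul_dz hWo (ka_test hW) hV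
  have hI3 : Integrable (fun u => dz ka u * V u) :=
    (ka_test hW).dz.integrable_mul hWo hV.continuousOn
  have hzero : ∀ u, u ∉ W → kap u = 0 := by
    intro u hu
    apply kap_eq_zero
    by_contra h
    push Not at h
    exact hu (hW (by rwa [mem_closedBall_zero_iff]))
  -- integrability of the right side
  have hI4 : Integrable (fun u => kap u * (‖V u‖ + ‖dz (dzb V) u‖)) := by
    have hKc : IsCompact (Metric.closedBall (0 : ℂ) 1) := isCompact_closedBall _ _
    have hcont : ContinuousOn (fun u => ‖V u‖ + ‖dz (dzb V) u‖) W :=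
      hV.continuousOn.norm.add ((contDiffOn_dz hWo (contDiffOn_dzb hWo hV)).continuousOn.norm)
    obtain ⟨B, hB⟩ := hKc.exists_bound_of_continuousOn (hcont.mono hW)
    have h3 : Integrable (fun u => kap u *
        (Metric.closedBall (0 : ℂ) 1).indicator (fun u => ‖V u‖ + ‖dz (dzb V) u‖) u) := by
      refine kap_integrable.mul_bdd (c := max B 0) ?_ (Filter.Eventually.of_forall fun u => ?_)
      · rw [aestronglyMeasurable_indicator_iff hKc.measurableSet]
        exact (hcont.mono hW).aestronglyMeasurable hKc.measurableSet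
      · by_cases hu : u ∈ Metric.closedBall (0 : ℂ) 1
        · rw [Set.indicator_of_mem hu]
          exact (hB u hu).trans (le_max_left _ _)
        · rw [Set.indicator_of_notMem hu]; simp
    refine h3.congr (Filter.Eventually.of_forall fun u => ?_)
    simp only []
    by_cases hu : u ∈ Metric.closedBall (0 : ℂ) 1
    · rw [Set.indicator_of_mem hu]
    · rw [kap_eq_zero (by rw [mem_closedBall_zero_iff] at hu; linarith)]; simp
  calc ‖dz V 0‖ = ‖∫ u, (-(dz ka u * V u) + (ck (-u) * ze u) * dzb (dz V) u)‖ := by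
        have h5 : ∫ u, (-(dz ka u * V u) + (ck (-u) * ze u) * dzb (dz V) u)
            = (∫ u, -(dz ka u * V u)) + ∫ u, (ck (-u) * ze u) * dzb (dz V) u :=
          integral_add hI3.neg hI2
        rw [h5, h1, h2, integral_neg]
    _ ≤ ∫ u, ‖-(dz ka u * V u) + (ck (-u) * ze u) * dzb (dz V) u‖ := norm_integral_le_integral_norm _
    _ ≤ ∫ u, kap u * (‖V u‖ + ‖dz (dzb V) u‖) := by
        refine integral_mono_of_nonneg (Filter.Eventually.of_forall fun u => norm_nonneg _) hI4
          (Filter.Eventually.of_forall fun u => ?_)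
        simp only []
        by_cases hu : u ∈ W
        · refine (norm_add_le _ _).trans ?_
          rw [norm_neg, norm_mul, norm_mul (ck (-u) * ze u), hcomm u hu]
          unfold kap
          linarith only [mul_nonneg (norm_nonneg (dz ka u)) (norm_nonneg (dz (dzb V) u)), mul_nonneg (norm_nonneg (ck (-u) * ze u)) (norm_nonneg (V u))]
        · have hk := hzero u hu
          have ha : ‖dz ka u‖ = 0 := by
            have := norm_nonneg (dz ka u)
            have := norm_nonneg (ck (-u) * ze u)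
            unfold kap at hk; linarith
          have hb : ‖ck (-u) * ze u‖ = 0 := by
            have := norm_nonneg (dz ka u)
            have := norm_nonneg (ck (-u) * ze u)
            unfold kap at hk; linarith
          rw [norm_eq_zero] at ha hb
          rw [hk, ha, hb]; simp

/-- derivatives of a rescaled function -/
lemma dz_scale {U : Set ℂ} (hU : IsOpen U) {v : ℂ → ℂ} (hv : ContDiffOn ℝ ∞ v U) (z : ℂ) (h : ℝ)
    {w : ℂ} (hw : z + (h : ℂ) * w ∈ U) :
    dz (fun w => v (z + (h : ℂ) * w)) w = (h : ℂ) * dz v (z + (h : ℂ) * w) ∧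
    dzb (fun w => v (z + (h : ℂ) * w)) w = (h : ℂ) * dzb v (z + (h : ℂ) * w) := by
  have hd : DifferentiableAt ℝ v (z + (h : ℂ) * w) :=
    (hv.contDiffAt (hU.mem_nhds hw)).differentiableAt (by simp)
  have h1 : HasFDerivAt (fun w : ℂ => z + (h : ℂ) * w)
      ((h : ℂ) • (ContinuousLinearMap.id ℝ ℂ)) w := by
    have := ((hasFDerivAt_id (𝕜 := ℝ) w).const_mul (h : ℂ)).const_add z
    exact this
  have h2 := hd.hasFDerivAt.comp w h1
  have h3 : ∀ x : ℂ, fderiv ℝ (fun w => v (z + (h : ℂ) * w)) w x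
      = (h : ℂ) * fderiv ℝ v (z + (h : ℂ) * w) x := by
    intro x
    have h4 : fderiv ℝ (fun w => v (z + (h : ℂ) * w)) w
        = (fderiv ℝ v (z + (h : ℂ) * w)).comp ((h : ℂ) • (ContinuousLinearMap.id ℝ ℂ)) :=
      h2.fderiv
    rw [h4]
    simp only [ContinuousLinearMap.comp_apply, smul_apply, ContinuousLinearMap.id_apply,
      smul_eq_mul]
    have h5 : (h : ℂ) * x = h • x := Complex.real_smul.symm
    rw [h5, map_smul, Complex.real_smul]
  unfold dz dzb
  rw [h3, h3]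
  constructor <;> ring

/-- the estimate at scale `h` -/
lemma scale_bound {U : Set ℂ} (hU : IsOpen U) {v : ℂ → ℂ} (hv : ContDiffOn ℝ ∞ v U) {z : ℂ}
    {h : ℝ} (hh : 0 < h) (hz : Metric.closedBall z h ⊆ U) :
    ‖(h : ℂ) * dz v z‖ ≤ ∫ u, kap u * (‖v (z + (h : ℂ) * u)‖
      + ‖(h : ℂ) ^ 2 * dz (dzb v) (z + (h : ℂ) * u)‖) := by
  set W : Set ℂ := {w | z + (h : ℂ) * w ∈ U} with hWd
  have hWo : IsOpen W := hU.preimage (by fun_prop)
  have hW : Metric.closedBall (0 : ℂ) 1 ⊆ W := by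
    intro w hw
    apply hz
    rw [mem_closedBall_zero_iff] at hw
    rw [Metric.mem_closedBall, dist_eq_norm]
    rw [add_sub_cancel_left, norm_mul, Complex.norm_real, Real.norm_of_nonneg hh.le]
    nlinarith
  have hV : ContDiffOn ℝ ∞ (fun w => v (z + (h : ℂ) * w)) W := by
    refine hv.comp (ContDiff.contDiffOn ?_) fun w hw => hw
    exact contDiff_const.add (contDiff_const.mul contDiff_id)
  have h1 := unit_bound hWo hW hV
  have hz0 : z + (h : ℂ) * 0 ∈ U := by
    apply hW; simp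
  rw [(dz_scale hU hv z h hz0).1, mul_zero, add_zero] at h1
  refine h1.trans (le_of_eq ?_)
  refine integral_congr_ae (Filter.Eventually.of_forall fun u => ?_)
  simp only []
  by_cases hu : u ∈ W
  · have e1 : dz (dzb fun w => v (z + (h : ℂ) * w)) u
        = (h : ℂ) ^ 2 * dz (dzb v) (z + (h : ℂ) * u) := by
      have e2 : dz (dzb fun w => v (z + (h : ℂ) * w)) u
          = dz (fun w => (h : ℂ) * dzb v (z + (h : ℂ) * w)) u :=
        dz_congr_on hWo (fun w hw => (dz_scale hU hv z h hw).2) hu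
      have hv' := contDiffOn_dzb hU hv
      have e3 : DifferentiableAt ℝ (fun w => dzb v (z + (h : ℂ) * w)) u := by
        have : ContDiffOn ℝ ∞ (fun w => dzb v (z + (h : ℂ) * w)) W := by
          refine hv'.comp (ContDiff.contDiffOn ?_) fun w hw => hw
          exact contDiff_const.add (contDiff_const.mul contDiff_id)
        exact (this.contDiffAt (hWo.mem_nhds hu)).differentiableAt (by simp)
      rw [e2, dz_const_mul _ e3, (dz_scale hU hv' z h hu).1]
      ring
    rw [e1]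
  · have hk : kap u = 0 := by
      apply kap_eq_zero
      by_contra hc
      push Not at hc
      exact hu (hW (by rwa [mem_closedBall_zero_iff]))
    rw [hk, zero_mul, zero_mul]

/-- Young's inequality for the fourth power -/
lemma young4 {k G : ℂ → ℝ} (hk0 : ∀ w, 0 ≤ k w) (hk : Integrable k) (hG0 : ∀ w, 0 ≤ G w)
    (hGm : AEStronglyMeasurable G volume) {B : ℝ} (hGB : ∀ w, G w ≤ B)
    (hG4 : Integrable (fun z => G z ^ 4)) :
    Integrable (fun z => ∫ w, k w * G (z - w) ^ 4) ∧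
    (∀ z, (∫ w, k w * G (z - w)) ^ 4 ≤ (∫ w, k w) ^ 3 * ∫ w, k w * G (z - w) ^ 4) ∧
    ∫ z, ∫ w, k w * G (z - w) ^ 4 = (∫ w, k w) * ∫ z, G z ^ 4 := by
  have hi : ∀ (j : ℕ) (z : ℂ), Integrable (fun w => k w * G (z - w) ^ j) := by
    intro j z
    refine hk.mul_bdd (c := B ^ j) ?_ (Filter.Eventually.of_forall fun w => ?_)
    · have h1 : AEStronglyMeasurable (fun w => G (z - w)) volume :=
        hGm.comp_quasiMeasurePreserving (quasiMeasurePreserving_sub_left volume z)
      exact h1.pow j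
    · rw [Real.norm_of_nonneg (pow_nonneg (hG0 _) _)]
      exact pow_le_pow_left₀ (hG0 _) (hGB _) _
  have hconv : Integrable (convolution k (fun w => G w ^ 4)
      (ContinuousLinearMap.mul ℝ ℝ) volume) := hk.integrable_convolution _ hG4
  have hconvi : ∫ z, convolution k (fun w => G w ^ 4)
      (ContinuousLinearMap.mul ℝ ℝ) volume z = (∫ w, k w) * ∫ z, G z ^ 4 := by
    rw [integral_convolution _ hk hG4]; rfl
  refine ⟨hconv, ?_, hconvi⟩
  intro z
  have h1 := hi 1 z
  simp only [pow_one] at h1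
  have h2 := hi 2 z
  have h4 := hi 4 z
  have a1 := sq_integral_mul_le hk0 hk h1 h2
  have h4' : Integrable (fun w => k w * (G (z - w) ^ 2) ^ 2) := by
    refine h4.congr (Filter.Eventually.of_forall fun w => ?_)
    simp only []; ring
  have a2 := sq_integral_mul_le (g := fun w => G (z - w) ^ 2) hk0 hk h2 h4'
  have e4 : ∫ w, k w * (G (z - w) ^ 2) ^ 2 = ∫ w, k w * G (z - w) ^ 4 := by
    refine integral_congr_ae (Filter.Eventually.of_forall fun w => ?_)
    simp only []; ring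
  rw [e4] at a2
  have hK : 0 ≤ ∫ w, k w := integral_nonneg hk0
  have hI2 : 0 ≤ ∫ w, k w * G (z - w) ^ 2 :=
    integral_nonneg fun w => mul_nonneg (hk0 w) (sq_nonneg _)
  calc (∫ w, k w * G (z - w)) ^ 4 = ((∫ w, k w * G (z - w)) ^ 2) ^ 2 := by ring
    _ ≤ ((∫ w, k w) * ∫ w, k w * G (z - w) ^ 2) ^ 2 := by gcongr
    _ = (∫ w, k w) ^ 2 * (∫ w, k w * G (z - w) ^ 2) ^ 2 := by ring
    _ ≤ (∫ w, k w) ^ 2 * ((∫ w, k w) * ∫ w, k w * G (z - w) ^ 4) := by gcongr
    _ = _ := by ring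

/-- the rescaled kernel -/
def kh (h : ℝ) (w : ℂ) : ℝ := |((-h) ^ Module.finrank ℝ ℂ)⁻¹| * kap ((-h)⁻¹ • w)

lemma kh_nonneg (h : ℝ) (w : ℂ) : 0 ≤ kh h w := mul_nonneg (abs_nonneg _) (kap_nonneg _)

lemma kh_int {h : ℝ} (hh : 0 < h) (G : ℂ → ℝ) (z : ℂ) :
    ∫ u, kap u * G (z + (h : ℂ) * u) = ∫ w, kh h w * G (z - w) := by
  have hne : -h ≠ 0 := by linarith
  have h1 := Measure.integral_comp_smul (volume : Measure ℂ)
    (fun w => kap ((-h)⁻¹ • w) * G (z - w)) (-h)
  simp only [smul_eq_mul] at h1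
  rw [← integral_const_mul] at h1
  have e1 : ∫ u, kap u * G (z + (h : ℂ) * u)
      = ∫ u : ℂ, kap ((-h)⁻¹ • ((-h) • u)) * G (z - (-h) • u) := by
    refine integral_congr_ae (Filter.Eventually.of_forall fun u => ?_)
    simp only []
    rw [inv_smul_smul₀ hne]
    congr 2
    rw [neg_smul, sub_neg_eq_add, Complex.real_smul]
  rw [e1, h1]
  refine integral_congr_ae (Filter.Eventually.of_forall fun w => ?_)
  simp only [kh]
  ring

lemma kh_integrable {h : ℝ} (hh : 0 < h) : Integrable (kh h) := by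
  have hne : (-h)⁻¹ ≠ 0 := inv_ne_zero (by linarith)
  exact (kap_integrable.comp_smul hne).const_mul _

lemma kh_total {h : ℝ} (hh : 0 < h) : ∫ w, kh h w = ∫ u, kap u := by
  have := kh_int hh (fun _ => 1) 0
  simpa using this.symm

end EllAux

open _root_.QE.EllAux

theorem planck_elliptic {U : Set ℂ} (hU : IsOpen U) {h : ℕ → ℝ} (hh : ∀ n, 0 < h n)
    (hh0 : Tendsto h atTop (𝓝 0)) {v : ℕ → ℂ → ℂ} (hv : SmoothSeq U v) (h1 : LBdd 4 U v)
    (h2 : LBdd 4 U (fun n z => ((h n : ℂ)) ^ 2 * dz (dzb (v n)) z)) :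
    LBdd 4 U (fun n z => (h n : ℂ) * dz (v n) z) := by
  intro K hK hKU
  obtain ⟨δ, hδ, hδU⟩ := hK.exists_cthickening_subset_open hU hKU
  have hK'c : IsCompact (Metric.cthickening δ K) := hK.cthickening
  obtain ⟨C1, hC1⟩ := h1 _ hK'c hδU
  obtain ⟨C2, hC2⟩ := h2 _ hK'c hδU
  set K' := Metric.cthickening δ K with hK'
  have hw : SmoothSeq U (fun n z => ((h n : ℂ)) ^ 2 * dz (dzb (v n)) z) :=
    ((hv.dzb hU).dz hU).const_mul (fun n => (h n : ℂ) ^ 2)
  refine ⟨(∫ u, kap u) ^ 3 * ((∫ u, kap u) * (8 * (C1 + C2))), ?_⟩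
  have hsmall : ∀ᶠ n in atTop, h n ≤ δ := (hh0.eventually_lt_const hδ).mono fun n hn => hn.le
  filter_upwards [hC1, hC2, hsmall] with n hn1 hn2 hn3
  have hκ : 0 ≤ ∫ u, kap u := integral_nonneg kap_nonneg
  set g : ℂ → ℝ := fun z => ‖v n z‖ + ‖((h n : ℂ)) ^ 2 * dz (dzb (v n)) z‖ with hg
  have hgc : ContinuousOn g K' :=
    ((hv n).continuousOn.mono hδU).norm.add ((hw n).continuousOn.mono hδU).norm
  have hg0 : ∀ z, 0 ≤ g z := fun z => add_nonneg (norm_nonneg _) (norm_nonneg _)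
  obtain ⟨B, hB⟩ := hK'c.exists_bound_of_continuousOn hgc
  set G : ℂ → ℝ := K'.indicator g with hG
  have hG0 : ∀ z, 0 ≤ G z := fun z => Set.indicator_nonneg (fun z _ => hg0 z) z
  have hGB : ∀ z, G z ≤ max B 0 := by
    intro z
    by_cases hz : z ∈ K'
    · rw [hG, Set.indicator_of_mem hz]
      exact (le_abs_self _).trans ((hB z hz).trans (le_max_left _ _))
    · rw [hG, Set.indicator_of_notMem hz]; exact le_max_right _ _
  have hGm : AEStronglyMeasurable G volume := by
    rw [hG, aestronglyMeasurable_indicator_iff hK'c.measurableSet]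
    exact hgc.aestronglyMeasurable hK'c.measurableSet
  have hG4e : (fun z => G z ^ 4) = K'.indicator fun z => g z ^ 4 := by
    funext z
    by_cases hz : z ∈ K'
    · rw [hG, Set.indicator_of_mem hz, Set.indicator_of_mem hz]
    · rw [hG, Set.indicator_of_notMem hz, Set.indicator_of_notMem hz]; simp
  have hG4 : Integrable (fun z => G z ^ 4) := by
    rw [hG4e, integrable_indicator_iff hK'c.measurableSet]
    exact (hgc.pow 4).integrableOn_compact hK'c
  have hG4i : ∫ z, G z ^ 4 ≤ 8 * (C1 + C2) := by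
    rw [hG4e, integral_indicator hK'c.measurableSet]
    have i1 := hv.intOn hK'c hδU 4 n
    have i2 := hw.intOn hK'c hδU 4 n
    calc ∫ z in K', g z ^ 4
        ≤ ∫ z in K', 8 * (‖v n z‖ ^ 4 + ‖((h n : ℂ)) ^ 2 * dz (dzb (v n)) z‖ ^ 4) := by
          refine setIntegral_mono_on ((hgc.pow 4).integrableOn_compact hK'c)
            ((i1.add i2).const_mul 8) hK'c.measurableSet fun z _ => ?_
          simp only [hg]
          have p1 := norm_nonneg (v n z)
          have p2 := norm_nonneg (((h n : ℂ)) ^ 2 * dz (dzb (v n)) z)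
          set a := ‖v n z‖
          set b := ‖((h n : ℂ)) ^ 2 * dz (dzb (v n)) z‖
          linarith only [sq_nonneg (a ^ 2 - b ^ 2), mul_nonneg (sq_nonneg (a - b)) (add_nonneg (sq_nonneg (a + b))
              (add_nonneg (sq_nonneg a) (sq_nonneg b)))]
      _ = 8 * ((∫ z in K', ‖v n z‖ ^ 4)
            + ∫ z in K', ‖((h n : ℂ)) ^ 2 * dz (dzb (v n)) z‖ ^ 4) := by
          rw [integral_const_mul, integral_add i1 i2]
      _ ≤ 8 * (C1 + C2) := by (clear * - hn1 hn2; gcongr)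
  obtain ⟨y1, y2, y3⟩ := young4 (kh_nonneg (h n)) (kh_integrable (hh n)) hG0 hGm hGB hG4
  rw [kh_total (hh n)] at y2 y3
  -- the pointwise bound
  have hpt : ∀ z ∈ K, ‖(h n : ℂ) * dz (v n) z‖ ^ 4
      ≤ (∫ u, kap u) ^ 3 * ∫ w, kh (h n) w * G (z - w) ^ 4 := by
    intro z hz
    have hball : Metric.closedBall z (h n) ⊆ K' :=
      (Metric.closedBall_subset_closedBall hn3).trans
        (Metric.closedBall_subset_cthickening hz δ)
    have b1 := scale_bound hU (hv n) (hh n) (hball.trans hδU)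
    have b2 : ∫ u, kap u * (‖v n (z + (h n : ℂ) * u)‖
        + ‖(h n : ℂ) ^ 2 * dz (dzb (v n)) (z + (h n : ℂ) * u)‖)
        = ∫ u, kap u * G (z + (h n : ℂ) * u) := by
      refine integral_congr_ae (Filter.Eventually.of_forall fun u => ?_)
      simp only []
      by_cases hu : 1 < ‖u‖
      · rw [kap_eq_zero hu, zero_mul, zero_mul]
      · push Not at hu
        have hmem : z + (h n : ℂ) * u ∈ K' := by
          apply hball
          rw [Metric.mem_closedBall, dist_eq_norm, add_sub_cancel_left, norm_mul,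
            Complex.norm_real, Real.norm_of_nonneg (hh n).le]
          have := hh n
          nlinarith only [hu, this]
        rw [hG, Set.indicator_of_mem hmem]
    rw [b2, kh_int (hh n)] at b1
    refine le_trans ?_ (y2 z)
    exact pow_le_pow_left₀ (norm_nonneg _) b1 4
  have hsm : SmoothSeq U (fun n z => (h n : ℂ) * dz (v n) z) :=
    (hv.dz hU).const_mul (fun n => (h n : ℂ))
  calc ∫ z in K, ‖(h n : ℂ) * dz (v n) z‖ ^ 4
      ≤ ∫ z in K, (∫ u, kap u) ^ 3 * ∫ w, kh (h n) w * G (z - w) ^ 4 :=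
        setIntegral_mono_on (hsm.intOn hK hKU 4 n) (y1.integrableOn.const_mul _)
          hK.measurableSet hpt
    _ = (∫ u, kap u) ^ 3 * ∫ z in K, ∫ w, kh (h n) w * G (z - w) ^ 4 := integral_const_mul _ _
    _ ≤ (∫ u, kap u) ^ 3 * ∫ z, ∫ w, kh (h n) w * G (z - w) ^ 4 := by
        refine mul_le_mul_of_nonneg_left ?_ (pow_nonneg hκ 3)
        refine setIntegral_le_integral y1 (Filter.Eventually.of_forall fun z => ?_)
        exact integral_nonneg fun w => mul_nonneg (kh_nonneg _ _) (pow_nonneg (hG0 _) _)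
    _ = (∫ u, kap u) ^ 3 * ((∫ u, kap u) * ∫ z, G z ^ 4) := by rw [y3]
    _ ≤ _ := by (clear * - hG4i hκ; gcongr)

end

end QE


end

section

/-!
A quantitative form of the interior elliptic estimate at scale `h` in `L⁴`.
-/

open Complex MeasureTheory Filter Topology
open scoped ContDiff

namespace QE

noncomputable section

open EllAux

/-- the constant of the estimate -/
def ellC : ℝ := 8 * (∫ u, kap u) ^ 4

lemma ellC_nonneg : 0 ≤ ellC := by
  have : 0 ≤ ∫ u, kap u := integral_nonneg kap_nonneg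
  unfold ellC; positivity

theorem planck_quant {U : Set ℂ} (hU : IsOpen U) {h : ℕ → ℝ} (hh : ∀ n, 0 < h n)
    (hh0 : Tendsto h atTop (𝓝 0)) {v : ℕ → ℂ → ℂ} (hv : SmoothSeq U v) {K : Set ℂ}
    (hK : IsCompact K) {δ : ℝ} (hδ : 0 < δ) (hδU : Metric.cthickening δ K ⊆ U) :
    ∀ᶠ n in atTop, ∫ z in K, ‖(h n : ℂ) * dz (v n) z‖ ^ 4
      ≤ ellC * ((∫ z in Metric.cthickening δ K, ‖v n z‖ ^ 4)
        + ∫ z in Metric.cthickening δ K, ‖((h n : ℂ)) ^ 2 * dz (dzb (v n)) z‖ ^ 4) := by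
  have hK'c : IsCompact (Metric.cthickening δ K) := hK.cthickening
  have hKU : K ⊆ U := (Metric.self_subset_cthickening K).trans hδU
  set K' := Metric.cthickening δ K with hK'
  have hw : SmoothSeq U (fun n z => ((h n : ℂ)) ^ 2 * dz (dzb (v n)) z) :=
    ((hv.dzb hU).dz hU).const_mul (fun n => (h n : ℂ) ^ 2)
  have hsmall : ∀ᶠ n in atTop, h n ≤ δ := (hh0.eventually_lt_const hδ).mono fun n hn => hn.le
  filter_upwards [hsmall] with n hn3
  have hκ : 0 ≤ ∫ u, kap u := integral_nonneg kap_nonneg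
  set g : ℂ → ℝ := fun z => ‖v n z‖ + ‖((h n : ℂ)) ^ 2 * dz (dzb (v n)) z‖ with hg
  have hgc : ContinuousOn g K' :=
    ((hv n).continuousOn.mono hδU).norm.add ((hw n).continuousOn.mono hδU).norm
  have hg0 : ∀ z, 0 ≤ g z := fun z => add_nonneg (norm_nonneg _) (norm_nonneg _)
  obtain ⟨B, hB⟩ := hK'c.exists_bound_of_continuousOn hgc
  set G : ℂ → ℝ := K'.indicator g with hG
  have hG0 : ∀ z, 0 ≤ G z := fun z => Set.indicator_nonneg (fun z _ => hg0 z) z
  have hGB : ∀ z, G z ≤ max B 0 := by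
    intro z
    by_cases hz : z ∈ K'
    · rw [hG, Set.indicator_of_mem hz]
      exact (le_abs_self _).trans ((hB z hz).trans (le_max_left _ _))
    · rw [hG, Set.indicator_of_notMem hz]; exact le_max_right _ _
  have hGm : AEStronglyMeasurable G volume := by
    rw [hG, aestronglyMeasurable_indicator_iff hK'c.measurableSet]
    exact hgc.aestronglyMeasurable hK'c.measurableSet
  have hG4e : (fun z => G z ^ 4) = K'.indicator fun z => g z ^ 4 := by
    funext z
    by_cases hz : z ∈ K'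
    · rw [hG, Set.indicator_of_mem hz, Set.indicator_of_mem hz]
    · rw [hG, Set.indicator_of_notMem hz, Set.indicator_of_notMem hz]; simp
  have hG4 : Integrable (fun z => G z ^ 4) := by
    rw [hG4e, integrable_indicator_iff hK'c.measurableSet]
    exact (hgc.pow 4).integrableOn_compact hK'c
  have hG4i : ∫ z, G z ^ 4 ≤ 8 * ((∫ z in K', ‖v n z‖ ^ 4)
            + ∫ z in K', ‖((h n : ℂ)) ^ 2 * dz (dzb (v n)) z‖ ^ 4) := by
    rw [hG4e, integral_indicator hK'c.measurableSet]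
    have i1 := hv.intOn hK'c hδU 4 n
    have i2 := hw.intOn hK'c hδU 4 n
    calc ∫ z in K', g z ^ 4
        ≤ ∫ z in K', 8 * (‖v n z‖ ^ 4 + ‖((h n : ℂ)) ^ 2 * dz (dzb (v n)) z‖ ^ 4) := by
          refine setIntegral_mono_on ((hgc.pow 4).integrableOn_compact hK'c)
            ((i1.add i2).const_mul 8) hK'c.measurableSet fun z _ => ?_
          simp only [hg]
          have p1 := norm_nonneg (v n z)
          have p2 := norm_nonneg (((h n : ℂ)) ^ 2 * dz (dzb (v n)) z)
          set a := ‖v n z‖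
          set b := ‖((h n : ℂ)) ^ 2 * dz (dzb (v n)) z‖
          nlinarith [sq_nonneg (a ^ 2 - b ^ 2), sq_nonneg (a - b), sq_nonneg (a + b),
            mul_nonneg (sq_nonneg (a - b)) (add_nonneg (sq_nonneg (a + b))
              (add_nonneg (sq_nonneg a) (sq_nonneg b)))]
      _ = 8 * ((∫ z in K', ‖v n z‖ ^ 4)
            + ∫ z in K', ‖((h n : ℂ)) ^ 2 * dz (dzb (v n)) z‖ ^ 4) := by
          rw [integral_const_mul, integral_add i1 i2]
  obtain ⟨y1, y2, y3⟩ := young4 (kh_nonneg (h n)) (kh_integrable (hh n)) hG0 hGm hGB hG4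
  rw [kh_total (hh n)] at y2 y3
  have hpt : ∀ z ∈ K, ‖(h n : ℂ) * dz (v n) z‖ ^ 4
      ≤ (∫ u, kap u) ^ 3 * ∫ w, kh (h n) w * G (z - w) ^ 4 := by
    intro z hz
    have hball : Metric.closedBall z (h n) ⊆ K' :=
      (Metric.closedBall_subset_closedBall hn3).trans
        (Metric.closedBall_subset_cthickening hz δ)
    have b1 := scale_bound hU (hv n) (hh n) (hball.trans hδU)
    have b2 : ∫ u, kap u * (‖v n (z + (h n : ℂ) * u)‖
        + ‖(h n : ℂ) ^ 2 * dz (dzb (v n)) (z + (h n : ℂ) * u)‖)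
        = ∫ u, kap u * G (z + (h n : ℂ) * u) := by
      refine integral_congr_ae (Filter.Eventually.of_forall fun u => ?_)
      simp only []
      by_cases hu : 1 < ‖u‖
      · rw [kap_eq_zero hu, zero_mul, zero_mul]
      · push Not at hu
        have hmem : z + (h n : ℂ) * u ∈ K' := by
          apply hball
          rw [Metric.mem_closedBall, dist_eq_norm, add_sub_cancel_left, norm_mul,
            Complex.norm_real, Real.norm_of_nonneg (hh n).le]
          have := hh n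
          nlinarith
        rw [hG, Set.indicator_of_mem hmem]
    rw [b2, kh_int (hh n)] at b1
    refine le_trans ?_ (y2 z)
    exact pow_le_pow_left₀ (norm_nonneg _) b1 4
  have hsm : SmoothSeq U (fun n z => (h n : ℂ) * dz (v n) z) :=
    (hv.dz hU).const_mul (fun n => (h n : ℂ))
  calc ∫ z in K, ‖(h n : ℂ) * dz (v n) z‖ ^ 4
      ≤ ∫ z in K, (∫ u, kap u) ^ 3 * ∫ w, kh (h n) w * G (z - w) ^ 4 :=
        setIntegral_mono_on (hsm.intOn hK hKU 4 n) (y1.integrableOn.const_mul _)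
          hK.measurableSet hpt
    _ = (∫ u, kap u) ^ 3 * ∫ z in K, ∫ w, kh (h n) w * G (z - w) ^ 4 := integral_const_mul _ _
    _ ≤ (∫ u, kap u) ^ 3 * ∫ z, ∫ w, kh (h n) w * G (z - w) ^ 4 := by
        refine mul_le_mul_of_nonneg_left ?_ (pow_nonneg hκ 3)
        refine setIntegral_le_integral y1 (Filter.Eventually.of_forall fun z => ?_)
        exact integral_nonneg fun w => mul_nonneg (kh_nonneg _ _) (pow_nonneg (hG0 _) _)
    _ = (∫ u, kap u) ^ 3 * ((∫ u, kap u) * ∫ z, G z ^ 4) := by rw [y3]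
    _ ≤ (∫ u, kap u) ^ 3 * ((∫ u, kap u) * (8 * ((∫ z in K', ‖v n z‖ ^ 4)
            + ∫ z in K', ‖((h n : ℂ)) ^ 2 * dz (dzb (v n)) z‖ ^ 4))) := by gcongr
    _ = _ := by unfold ellC; ring

end

end QE


end

section

/-!
Sequences of functions which are bounded in `L⁴` on compact sets together with all their
semiclassical derivatives.
-/

open Complex MeasureTheory Filter Topology
open scoped ContDiff

namespace QE

noncomputable section

/-- bounded in `L⁴` on compact sets together with the semiclassical derivatives of order `≤ k` -/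
def TameK (U : Set ℂ) (h : ℕ → ℝ) : ℕ → (ℕ → ℂ → ℂ) → Prop
  | 0, u => LBdd 4 U u
  | k + 1, u => LBdd 4 U u ∧ TameK U h k (fun n z => (h n : ℂ) * dz (u n) z) ∧
      TameK U h k (fun n z => (h n : ℂ) * dzb (u n) z)

variable {U : Set ℂ} {h : ℕ → ℝ}

theorem SmoothSeq.dAt {u : ℕ → ℂ → ℂ} (hU : IsOpen U) (hu : SmoothSeq U u) (n : ℕ) {z : ℂ}
    (hz : z ∈ U) : DifferentiableAt ℝ (u n) z :=
  ((hu n).contDiffAt (hU.mem_nhds hz)).differentiableAt (by simp)

theorem SmoothSeq.hdz (hU : IsOpen U) {u : ℕ → ℂ → ℂ} (hu : SmoothSeq U u) :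
    SmoothSeq U (fun n z => (h n : ℂ) * QE.dz (u n) z) :=
  (SmoothSeq.dz hU hu).const_mul _

theorem SmoothSeq.hdzb (hU : IsOpen U) {u : ℕ → ℂ → ℂ} (hu : SmoothSeq U u) :
    SmoothSeq U (fun n z => (h n : ℂ) * QE.dzb (u n) z) :=
  (SmoothSeq.dzb hU hu).const_mul _

theorem SmoothSeq.congr {u v : ℕ → ℂ → ℂ} (hu : SmoothSeq U u)
    (he : ∀ n, ∀ z ∈ U, u n z = v n z) : SmoothSeq U v := fun n =>
  (hu n).congr fun z hz => (he n z hz).symm

theorem TameK.congr (hU : IsOpen U) {k : ℕ} : ∀ {u v : ℕ → ℂ → ℂ}, TameK U h k u →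
    (∀ n, ∀ z ∈ U, u n z = v n z) → TameK U h k v := by
  induction k with
  | zero => intro u v hu he; exact LBdd.congr hu he
  | succ k ih =>
    intro u v hu he
    refine ⟨hu.1.congr he, ih hu.2.1 fun n z hz => ?_, ih hu.2.2 fun n z hz => ?_⟩
    · rw [dz_congr_on hU (he n) hz]
    · rw [dzb_congr_on hU (he n) hz]

theorem TameK.bdd {k : ℕ} {u : ℕ → ℂ → ℂ} (hu : TameK U h k u) : LBdd 4 U u := by
  cases k with
  | zero => exact hu
  | succ k => exact hu.1

theorem TameK.mono {k : ℕ} : ∀ {u : ℕ → ℂ → ℂ}, TameK U h (k + 1) u → TameK U h k u := by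
  induction k with
  | zero => intro u hu; exact hu.1
  | succ k ih => intro u hu; exact ⟨hu.1, ih hu.2.1, ih hu.2.2⟩

theorem TameK.add (hU : IsOpen U) {k : ℕ} : ∀ {u v : ℕ → ℂ → ℂ}, TameK U h k u → SmoothSeq U u →
    TameK U h k v → SmoothSeq U v → TameK U h k (fun n z => u n z + v n z) := by
  induction k with
  | zero => intro u v hu su hv sv; exact LBdd.add hu su hv sv
  | succ k ih =>
    intro u v hu su hv sv
    refine ⟨hu.1.add su hv.1 sv, ?_, ?_⟩
    · refine (ih hu.2.1 (su.hdz hU) hv.2.1 (sv.hdz hU)).congr hU fun n z hz => ?_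
      rw [dz_add (su.dAt hU n hz) (sv.dAt hU n hz)]; ring
    · refine (ih hu.2.2 (su.hdzb hU) hv.2.2 (sv.hdzb hU)).congr hU fun n z hz => ?_
      rw [dzb_add (su.dAt hU n hz) (sv.dAt hU n hz)]; ring

theorem TameK.const_mul (hU : IsOpen U) {c : ℕ → ℂ} {B : ℝ} (hc : ∀ᶠ n in atTop, ‖c n‖ ≤ B)
    {k : ℕ} : ∀ {u : ℕ → ℂ → ℂ}, TameK U h k u → SmoothSeq U u →
    TameK U h k (fun n z => c n * u n z) := by
  induction k with
  | zero => intro u hu su; exact LBdd.const_mul hu su hc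
  | succ k ih =>
    intro u hu su
    refine ⟨hu.1.const_mul su hc, ?_, ?_⟩
    · refine (ih hu.2.1 (su.hdz hU)).congr hU fun n z hz => ?_
      rw [dz_const_mul _ (su.dAt hU n hz)]; ring
    · refine (ih hu.2.2 (su.hdzb hU)).congr hU fun n z hz => ?_
      rw [dzb_const_mul _ (su.dAt hU n hz)]; ring

theorem TameK.conj (hU : IsOpen U) {k : ℕ} : ∀ {u : ℕ → ℂ → ℂ}, TameK U h k u → SmoothSeq U u →
    TameK U h k (fun n z => (starRingEnd ℂ) (u n z)) := by
  induction k with
  | zero => intro u hu _; exact LBdd.conj hu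
  | succ k ih =>
    intro u hu su
    refine ⟨hu.1.conj, ?_, ?_⟩
    · refine (ih hu.2.2 (su.hdzb hU)).congr hU fun n z hz => ?_
      rw [dz_conj (su.dAt hU n hz)]; simp
    · refine (ih hu.2.1 (su.hdz hU)).congr hU fun n z hz => ?_
      rw [dzb_conj (su.dAt hU n hz)]; simp

theorem hbd (hh0 : Tendsto h atTop (𝓝 0)) : ∀ᶠ n in atTop, ‖((h n : ℝ) : ℂ)‖ ≤ 1 := by
  have := (hh0.eventually (Metric.ball_mem_nhds (0 : ℝ) one_pos))
  filter_upwards [this] with n hn
  rw [Complex.norm_real]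
  simpa [Real.dist_eq] using (le_of_lt hn)

theorem TameK.fn_mul (hU : IsOpen U) (hh0 : Tendsto h atTop (𝓝 0)) {k : ℕ} :
    ∀ {u : ℕ → ℂ → ℂ} {b : ℂ → ℂ}, TameK U h k u → SmoothSeq U u →
    ContDiffOn ℝ ∞ b U → TameK U h k (fun n z => b z * u n z) := by
  induction k with
  | zero => intro u b hu su hb; exact LBdd.fn_mul hu su hb
  | succ k ih =>
    intro u b hu su hb
    have hbz := contDiffOn_dz hU hb
    have hbzb := contDiffOn_dzb hU hb
    have hbd' : ∀ z ∈ U, DifferentiableAt ℝ b z := fun z hz =>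
      (hb.contDiffAt (hU.mem_nhds hz)).differentiableAt (by simp)
    refine ⟨hu.1.fn_mul su hb, ?_, ?_⟩
    · have t1 := ih hu.2.1 (su.hdz hU) hb
      have t2 := (ih hu.mono su hbz).const_mul hU (hbd hh0) (su.fn_mul hbz)
      refine (t1.add hU ((su.hdz hU).fn_mul hb) t2 ((su.fn_mul hbz).const_mul _)).congr hU
        fun n z hz => ?_
      rw [dz_mul (hbd' z hz) (su.dAt hU n hz)]; ring
    · have t1 := ih hu.2.2 (su.hdzb hU) hb
      have t2 := (ih hu.mono su hbzb).const_mul hU (hbd hh0) (su.fn_mul hbzb)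
      refine (t1.add hU ((su.hdzb hU).fn_mul hb) t2 ((su.fn_mul hbzb).const_mul _)).congr hU
        fun n z hz => ?_
      rw [dzb_mul (hbd' z hz) (su.dAt hU n hz)]; ring

/-- smooth sequences, bounded in `L⁴` on compact sets with all semiclassical derivatives -/
structure Tame (U : Set ℂ) (h : ℕ → ℝ) (u : ℕ → ℂ → ℂ) : Prop where
  smooth : SmoothSeq U u
  bdd : ∀ k, TameK U h k u

theorem Tame.bdd4 {u : ℕ → ℂ → ℂ} (hu : Tame U h u) : LBdd 4 U u := hu.bdd 0

theorem Tame.congr (hU : IsOpen U) {u v : ℕ → ℂ → ℂ} (hu : Tame U h u)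
    (he : ∀ n, ∀ z ∈ U, u n z = v n z) : Tame U h v :=
  ⟨hu.smooth.congr he, fun k => (hu.bdd k).congr hU he⟩

theorem Tame.add (hU : IsOpen U) {u v : ℕ → ℂ → ℂ} (hu : Tame U h u) (hv : Tame U h v) :
    Tame U h (fun n z => u n z + v n z) :=
  ⟨hu.smooth.add hv.smooth, fun k => (hu.bdd k).add hU hu.smooth (hv.bdd k) hv.smooth⟩

theorem Tame.const_mul (hU : IsOpen U) {c : ℕ → ℂ} {B : ℝ} (hc : ∀ᶠ n in atTop, ‖c n‖ ≤ B)
    {u : ℕ → ℂ → ℂ} (hu : Tame U h u) : Tame U h (fun n z => c n * u n z) :=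
  ⟨hu.smooth.const_mul c, fun k => (hu.bdd k).const_mul hU hc hu.smooth⟩

theorem Tame.smul (hU : IsOpen U) (c : ℂ) {u : ℕ → ℂ → ℂ} (hu : Tame U h u) :
    Tame U h (fun n z => c * u n z) :=
  hu.const_mul hU (c := fun _ => c) (B := ‖c‖) (Filter.Eventually.of_forall fun _ => le_rfl)

theorem Tame.conj (hU : IsOpen U) {u : ℕ → ℂ → ℂ} (hu : Tame U h u) :
    Tame U h (fun n z => (starRingEnd ℂ) (u n z)) :=
  ⟨hu.smooth.conj, fun k => (hu.bdd k).conj hU hu.smooth⟩

theorem Tame.fn_mul (hU : IsOpen U) (hh0 : Tendsto h atTop (𝓝 0)) {u : ℕ → ℂ → ℂ}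
    (hu : Tame U h u) {b : ℂ → ℂ} (hb : ContDiffOn ℝ ∞ b U) : Tame U h (fun n z => b z * u n z) :=
  ⟨hu.smooth.fn_mul hb, fun k => (hu.bdd k).fn_mul hU hh0 hu.smooth hb⟩

theorem Tame.hdz (hU : IsOpen U) {u : ℕ → ℂ → ℂ} (hu : Tame U h u) :
    Tame U h (fun n z => (h n : ℂ) * QE.dz (u n) z) :=
  ⟨hu.smooth.hdz hU, fun k => (hu.bdd (k + 1)).2.1⟩

theorem Tame.hdzb (hU : IsOpen U) {u : ℕ → ℂ → ℂ} (hu : Tame U h u) :
    Tame U h (fun n z => (h n : ℂ) * QE.dzb (u n) z) :=
  ⟨hu.smooth.hdzb hU, fun k => (hu.bdd (k + 1)).2.2⟩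

/-- the semiclassical Laplacian `h² ∂ ∂̄` -/
def hLap (h : ℕ → ℝ) (v : ℕ → ℂ → ℂ) : ℕ → ℂ → ℂ := fun n z => ((h n : ℂ)) ^ 2 * dz (dzb (v n)) z

/-- the interior elliptic estimate at scale `h` in `L⁴` -/
def EllProp (U : Set ℂ) (h : ℕ → ℝ) : Prop :=
  ∀ v : ℕ → ℂ → ℂ, SmoothSeq U v → LBdd 4 U v → LBdd 4 U (hLap h v) →
    LBdd 4 U (fun n z => (h n : ℂ) * dz (v n) z)

theorem SmoothSeq.hLap (hU : IsOpen U) {v : ℕ → ℂ → ℂ} (hv : SmoothSeq U v) :
    SmoothSeq U (QE.hLap h v) :=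
  (SmoothSeq.dz hU (SmoothSeq.dzb hU hv)).const_mul _

theorem EllProp.dzb (hU : IsOpen U) (hE : EllProp U h) {v : ℕ → ℂ → ℂ} (hv : SmoothSeq U v)
    (h1 : LBdd 4 U v) (h2 : LBdd 4 U (hLap h v)) : LBdd 4 U (fun n z => (h n : ℂ) * QE.dzb (v n) z) := by
  have h3 : LBdd 4 U (QE.hLap h (fun n z => (starRingEnd ℂ) (v n z))) := by
    refine h2.conj.congr fun n z hz => ?_
    unfold QE.hLap
    rw [dz_congr_on hU (f := QE.dzb fun w => (starRingEnd ℂ) (v n w))
      (g := fun w => (starRingEnd ℂ) (QE.dz (v n) w)) (fun w hw => dzb_conj (hv.dAt hU n hw)) hz,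
      dz_conj ((SmoothSeq.dz hU hv).dAt hU n hz), map_mul, map_pow, conj_ofReal,
      dz_dzb_comm (((hv n).contDiffAt (hU.mem_nhds hz)).of_le (WithTop.coe_le_coe.2 le_top))]
  have h4 := (hE _ hv.conj h1.conj h3).conj
  refine h4.congr fun n z hz => ?_
  rw [dz_conj (hv.dAt hU n hz)]; simp

theorem tameK_of_elliptic (hU : IsOpen U) (hE : EllProp U h) {k : ℕ} :
    ∀ {v : ℕ → ℂ → ℂ}, SmoothSeq U v → TameK U h k v → TameK U h k (hLap h v) →
      TameK U h (k + 1) v := by
  have hc : ∀ (v : ℕ → ℂ → ℂ), SmoothSeq U v → ∀ n, ∀ z ∈ U, dz (QE.dzb (v n)) z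
      = QE.dzb (dz (v n)) z := fun v hv n z hz =>
    dz_dzb_comm (((hv n).contDiffAt (hU.mem_nhds hz)).of_le (WithTop.coe_le_coe.2 le_top))
  induction k with
  | zero => intro v hv h1 h2; exact ⟨h1, hE v hv h1 h2, hE.dzb hU hv h1 h2⟩
  | succ k ih =>
    intro v hv h1 h2
    refine ⟨h1.1, ih (hv.hdz hU) h1.2.1 ?_, ih (hv.hdzb hU) h1.2.2 ?_⟩
    · refine h2.2.1.congr hU fun n z hz => ?_
      have e1 : ∀ w ∈ U, QE.dzb (fun w => (h n : ℂ) * dz (v n) w) w = (h n : ℂ) * dz (QE.dzb (v n)) w := by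
        intro w hw
        rw [dzb_const_mul _ ((SmoothSeq.dz hU hv).dAt hU n hw), hc v hv n w hw]
      unfold QE.hLap
      rw [dz_congr_on hU e1 hz, dz_const_mul _ ((SmoothSeq.dz hU (SmoothSeq.dzb hU hv)).dAt hU n hz),
        dz_const_mul _ ((SmoothSeq.dz hU (SmoothSeq.dzb hU hv)).dAt hU n hz)]
      ring
    · refine h2.2.2.congr hU fun n z hz => ?_
      have e1 : ∀ w ∈ U, QE.dzb (fun w => (h n : ℂ) * QE.dzb (v n) w) w
          = (h n : ℂ) * QE.dzb (QE.dzb (v n)) w := by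
        intro w hw
        rw [dzb_const_mul _ ((SmoothSeq.dzb hU hv).dAt hU n hw)]
      have e2 := hc (fun n => QE.dzb (v n)) (SmoothSeq.dzb hU hv) n
      unfold QE.hLap
      rw [dz_congr_on hU e1 hz,
        dz_const_mul _ ((SmoothSeq.dzb hU (SmoothSeq.dzb hU hv)).dAt hU n hz), e2 z hz,
        dzb_const_mul _ ((SmoothSeq.dz hU (SmoothSeq.dzb hU hv)).dAt hU n hz)]
      ring

/-- a sequence bounded in `L⁴` whose semiclassical Laplacian is a smooth multiple of itself -/
theorem tame_of_eigen (hU : IsOpen U) (hh0 : Tendsto h atTop (𝓝 0)) (hE : EllProp U h)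
    {v : ℕ → ℂ → ℂ} (hv : SmoothSeq U v) (h1 : LBdd 4 U v) {b : ℂ → ℂ} (hb : ContDiffOn ℝ ∞ b U)
    (he : ∀ n, ∀ z ∈ U, hLap h v n z = b z * v n z) : Tame U h v := by
  refine ⟨hv, fun k => ?_⟩
  induction k with
  | zero => exact h1
  | succ k ih =>
    exact tameK_of_elliptic hU hE hv ih ((ih.fn_mul hU hh0 hv hb).congr hU
      fun n z hz => (he n z hz).symm)

end

end QE


end

section

/-!
The semiclassical jets of an eigenfunction along the fibres of the cosphere bundle.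
-/

open Complex MeasureTheory Filter Topology
open scoped ContDiff

namespace QE

noncomputable section

variable {U : Set ℂ} {h : ℕ → ℝ}

/-- equality up to `h` times a tame sequence -/
def Near (U : Set ℂ) (h : ℕ → ℝ) (u v : ℕ → ℂ → ℂ) : Prop :=
  ∃ w, Tame U h w ∧ ∀ n, ∀ z ∈ U, u n z = v n z + (h n : ℂ) * w n z

theorem LBdd.zero (p : ℕ) (hp : p ≠ 0) : LBdd p U (fun _ _ => 0) := by
  intro K _ _
  exact ⟨0, Filter.Eventually.of_forall fun n => by simp [hp]⟩

theorem Tame.zero (hU : IsOpen U) : Tame U h (fun _ _ => 0) := by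
  refine ⟨fun n => contDiffOn_const, fun k => ?_⟩
  induction k with
  | zero => exact LBdd.zero 4 (by norm_num)
  | succ k ih =>
    refine ⟨LBdd.zero 4 (by norm_num), ih.congr hU fun n z _ => ?_, ih.congr hU fun n z _ => ?_⟩
    · rw [dz_const, mul_zero]
    · rw [dzb_const, mul_zero]

theorem Near.of_eq (hU : IsOpen U) {u v : ℕ → ℂ → ℂ} (he : ∀ n, ∀ z ∈ U, u n z = v n z) :
    Near U h u v := ⟨_, Tame.zero hU, fun n z hz => by rw [he n z hz]; simp⟩

theorem Near.trans (hU : IsOpen U) {u v w : ℕ → ℂ → ℂ} (h1 : Near U h u v) (h2 : Near U h v w) :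
    Near U h u w := by
  obtain ⟨a, ha, ha'⟩ := h1
  obtain ⟨b, hb, hb'⟩ := h2
  refine ⟨_, ha.add hU hb, fun n z hz => ?_⟩
  rw [ha' n z hz, hb' n z hz]; ring

theorem Near.symm (hU : IsOpen U) {u v : ℕ → ℂ → ℂ} (h1 : Near U h u v) : Near U h v u := by
  obtain ⟨a, ha, ha'⟩ := h1
  refine ⟨_, ha.smul hU (-1), fun n z hz => ?_⟩
  rw [ha' n z hz]; ring

theorem Near.add (hU : IsOpen U) {u v u' v' : ℕ → ℂ → ℂ} (h1 : Near U h u v)
    (h2 : Near U h u' v') : Near U h (fun n z => u n z + u' n z) (fun n z => v n z + v' n z) := by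
  obtain ⟨a, ha, ha'⟩ := h1
  obtain ⟨b, hb, hb'⟩ := h2
  refine ⟨_, ha.add hU hb, fun n z hz => ?_⟩
  beta_reduce
  rw [ha' n z hz, hb' n z hz]; ring

theorem Near.smul (hU : IsOpen U) (c : ℂ) {u v : ℕ → ℂ → ℂ} (h1 : Near U h u v) :
    Near U h (fun n z => c * u n z) (fun n z => c * v n z) := by
  obtain ⟨a, ha, ha'⟩ := h1
  refine ⟨_, ha.smul hU c, fun n z hz => ?_⟩
  beta_reduce
  rw [ha' n z hz]; ring

theorem Near.conj (hU : IsOpen U) {u v : ℕ → ℂ → ℂ} (h1 : Near U h u v) :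
    Near U h (fun n z => (starRingEnd ℂ) (u n z)) (fun n z => (starRingEnd ℂ) (v n z)) := by
  obtain ⟨a, ha, ha'⟩ := h1
  refine ⟨_, ha.conj hU, fun n z hz => ?_⟩
  beta_reduce
  rw [ha' n z hz]; simp

/-- the operator `- 2 i h a ∂` -/
def LL (h : ℕ → ℝ) (a : ℂ → ℂ) (u : ℕ → ℂ → ℂ) : ℕ → ℂ → ℂ :=
  fun n z => -(2 * I * h n) * a z * dz (u n) z

/-- the operator `- 2 i h a ∂̄` -/
def LLb (h : ℕ → ℝ) (a : ℂ → ℂ) (u : ℕ → ℂ → ℂ) : ℕ → ℂ → ℂ :=
  fun n z => -(2 * I * h n) * a z * dzb (u n) z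

variable {a : ℂ → ℂ}

theorem Tame.LL (hU : IsOpen U) (hh0 : Tendsto h atTop (𝓝 0)) (ha : ContDiffOn ℝ ∞ a U)
    {u : ℕ → ℂ → ℂ} (hu : Tame U h u) : Tame U h (QE.LL h a u) := by
  refine (((hu.hdz hU).fn_mul hU hh0 ha).smul hU (-(2 * I))).congr hU fun n z _ => ?_
  unfold QE.LL; ring

theorem Tame.LLb (hU : IsOpen U) (hh0 : Tendsto h atTop (𝓝 0)) (ha : ContDiffOn ℝ ∞ a U)
    {u : ℕ → ℂ → ℂ} (hu : Tame U h u) : Tame U h (QE.LLb h a u) := by
  refine (((hu.hdzb hU).fn_mul hU hh0 ha).smul hU (-(2 * I))).congr hU fun n z _ => ?_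
  unfold QE.LLb; ring

theorem SmoothSeq.LL (hU : IsOpen U) (ha : ContDiffOn ℝ ∞ a U)
    {u : ℕ → ℂ → ℂ} (hu : SmoothSeq U u) : SmoothSeq U (QE.LL h a u) := by
  intro n
  exact (contDiffOn_const.mul ha).mul (contDiffOn_dz hU (hu n))

theorem SmoothSeq.LLb (hU : IsOpen U) (ha : ContDiffOn ℝ ∞ a U)
    {u : ℕ → ℂ → ℂ} (hu : SmoothSeq U u) : SmoothSeq U (QE.LLb h a u) := by
  intro n
  exact (contDiffOn_const.mul ha).mul (contDiffOn_dzb hU (hu n))

theorem Near.LL (hU : IsOpen U) (hh0 : Tendsto h atTop (𝓝 0)) (ha : ContDiffOn ℝ ∞ a U)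
    {u v : ℕ → ℂ → ℂ} (h1 : Near U h u v) (hv : SmoothSeq U v) :
    Near U h (QE.LL h a u) (QE.LL h a v) := by
  obtain ⟨w, hw, hw'⟩ := h1
  refine ⟨_, hw.LL hU hh0 ha, fun n z hz => ?_⟩
  unfold QE.LL
  rw [dz_congr_on hU (hw' n) hz, dz_add (hv.dAt hU n hz)
    (((hw.smooth.dAt hU n hz).const_mul _)), dz_const_mul _ (hw.smooth.dAt hU n hz)]
  ring

theorem Near.LLb (hU : IsOpen U) (hh0 : Tendsto h atTop (𝓝 0)) (ha : ContDiffOn ℝ ∞ a U)
    {u v : ℕ → ℂ → ℂ} (h1 : Near U h u v) (hv : SmoothSeq U v) :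
    Near U h (QE.LLb h a u) (QE.LLb h a v) := by
  obtain ⟨w, hw, hw'⟩ := h1
  refine ⟨_, hw.LLb hU hh0 ha, fun n z hz => ?_⟩
  unfold QE.LLb
  rw [dzb_congr_on hU (hw' n) hz, dzb_add (hv.dAt hU n hz)
    (((hw.smooth.dAt hU n hz).const_mul _)), dzb_const_mul _ (hw.smooth.dAt hU n hz)]
  ring

/-- the two operators commute up to a tame error -/
theorem LL_comm (hU : IsOpen U) (hh0 : Tendsto h atTop (𝓝 0)) (ha : ContDiffOn ℝ ∞ a U)
    {u : ℕ → ℂ → ℂ} (hu : Tame U h u) :
    Near U h (QE.LLb h a (QE.LL h a u)) (QE.LL h a (QE.LLb h a u)) := by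
  have hda : ∀ z ∈ U, DifferentiableAt ℝ a z := fun z hz =>
    (ha.contDiffAt (hU.mem_nhds hz)).differentiableAt (by simp)
  have haz := contDiffOn_dz hU ha
  have hazb := contDiffOn_dzb hU ha
  have t1 := (((hu.hdz hU).fn_mul hU hh0 (ha.mul hazb)).smul hU (-4))
  have t2 := (((hu.hdzb hU).fn_mul hU hh0 (ha.mul haz)).smul hU 4)
  refine ⟨_, t1.add hU t2, fun n z hz => ?_⟩
  have s1 : DifferentiableAt ℝ (dz (u n)) z := (SmoothSeq.dz hU hu.smooth).dAt hU n hz
  have s2 : DifferentiableAt ℝ (dzb (u n)) z := (SmoothSeq.dzb hU hu.smooth).dAt hU n hz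
  have hI : I ^ 2 = -1 := I_sq
  have e1 : dzb (QE.LL h a u n) z
      = -(2 * I * h n) * (dzb a z * dz (u n) z + a z * dzb (dz (u n)) z) := by
    unfold QE.LL
    have : (fun z => -(2 * I * (h n : ℂ)) * a z * dz (u n) z)
        = fun z => -(2 * I * (h n : ℂ)) * (a z * dz (u n) z) := by funext w; ring
    rw [this, dzb_const_mul _ ((hda z hz).fun_mul s1), dzb_mul (hda z hz) s1]
  have e2 : dz (QE.LLb h a u n) z
      = -(2 * I * h n) * (dz a z * dzb (u n) z + a z * dz (dzb (u n)) z) := by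
    unfold QE.LLb
    have : (fun z => -(2 * I * (h n : ℂ)) * a z * dzb (u n) z)
        = fun z => -(2 * I * (h n : ℂ)) * (a z * dzb (u n) z) := by funext w; ring
    rw [this, dz_const_mul _ ((hda z hz).fun_mul s2), dz_mul (hda z hz) s2]
  have e3 : QE.LLb h a (QE.LL h a u) n z = -(2 * I * h n) * a z * dzb (QE.LL h a u n) z := rfl
  have e4 : QE.LL h a (QE.LLb h a u) n z = -(2 * I * h n) * a z * dz (QE.LLb h a u n) z := rfl
  rw [e3, e4, e1, e2, dz_dzb_comm (((hu.smooth n).contDiffAt (hU.mem_nhds hz)).of_le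
    (WithTop.coe_le_coe.2 le_top))]
  linear_combination (4 * (h n : ℂ) ^ 2 * a z * (dzb a z * dz (u n) z - dz a z * dzb (u n) z)) * hI

/-- the derivatives `(- 2 i h a ∂)^m φ` -/
def jet (h : ℕ → ℝ) (a : ℂ → ℂ) (φ : ℕ → ℂ → ℂ) : ℕ → ℕ → ℂ → ℂ
  | 0 => φ
  | m + 1 => QE.LL h a (jet h a φ m)

/-- the jets for all integers: `E_{-m} = (-1)^m conj E_m` -/
def E (h : ℕ → ℝ) (a : ℂ → ℂ) (φ : ℕ → ℂ → ℂ) : ℤ → ℕ → ℂ → ℂ
  | Int.ofNat m => jet h a φ m
  | Int.negSucc m => fun n z => (-1) ^ (m + 1) * (starRingEnd ℂ) (jet h a φ (m + 1) n z)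

/-- the standing hypotheses -/
structure Setup (U : Set ℂ) (g : ℂ → ℂ) (a : ℂ → ℂ) (h : ℕ → ℝ) (φ : ℕ → ℂ → ℂ) : Prop where
  op : IsOpen U
  hpos : ∀ n, 0 < h n
  hlim : Tendsto h atTop (𝓝 0)
  ha : ContDiffOn ℝ ∞ a U
  hg : ContDiffOn ℝ ∞ g U
  areal : ∀ z ∈ U, (starRingEnd ℂ) (a z) = a z
  ag : ∀ z ∈ U, a z ^ 2 * g z = 1
  tame : Tame U h φ
  real : ∀ n, ∀ z ∈ U, (starRingEnd ℂ) (φ n z) = φ n z
  eig : ∀ n, ∀ z ∈ U, 4 * (h n : ℂ) ^ 2 * dz (dzb (φ n)) z = - g z * φ n z

namespace Setup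

variable {g : ℂ → ℂ} {φ : ℕ → ℂ → ℂ} (S : Setup U g a h φ)

include S

theorem tame_jet (m : ℕ) : Tame U h (jet h a φ m) := by
  induction m with
  | zero => exact S.tame
  | succ m ih => exact ih.LL S.op S.hlim S.ha

theorem tame_E (m : ℤ) : Tame U h (E h a φ m) := by
  cases m with
  | ofNat m => exact S.tame_jet m
  | negSucc m => exact ((S.tame_jet (m + 1)).conj S.op).smul S.op _

theorem E_neg (m : ℕ) : ∀ n, ∀ z ∈ U, E h a φ (-(m : ℤ)) n z
    = (-1) ^ m * (starRingEnd ℂ) (jet h a φ m n z) := by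
  intro n z hz
  cases m with
  | zero =>
    show φ n z = _
    rw [pow_zero, one_mul]
    exact (S.real n z hz).symm
  | succ m => rfl

/-- `L̄ L φ = φ + h (tame)` -/
theorem LLb_jet_one : Near U h (LLb h a (jet h a φ 1)) (jet h a φ 0) := by
  have hda : ∀ z ∈ U, DifferentiableAt ℝ a z := fun z hz =>
    (S.ha.contDiffAt (S.op.mem_nhds hz)).differentiableAt (by simp)
  have hazb := contDiffOn_dzb S.op S.ha
  refine ⟨_, ((S.tame_jet 1).fn_mul S.op S.hlim hazb).smul S.op (-(2 * I)), fun n z hz => ?_⟩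
  have s1 : DifferentiableAt ℝ (dz (φ n)) z := (SmoothSeq.dz S.op S.tame.smooth).dAt S.op n hz
  have e1 : dzb (QE.LL h a φ n) z
      = -(2 * I * h n) * (dzb a z * dz (φ n) z + a z * dzb (dz (φ n)) z) := by
    unfold QE.LL
    have : (fun z => -(2 * I * (h n : ℂ)) * a z * dz (φ n) z)
        = fun z => -(2 * I * (h n : ℂ)) * (a z * dz (φ n) z) := by funext w; ring
    rw [this, dzb_const_mul _ ((hda z hz).fun_mul s1), dzb_mul (hda z hz) s1]
  have e3 : LLb h a (jet h a φ 1) n z = -(2 * I * h n) * a z * dzb (QE.LL h a φ n) z := rfl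
  have e5 : jet h a φ 1 n z = -(2 * I * h n) * a z * dz (φ n) z := rfl
  have e6 : jet h a φ 0 n z = φ n z := rfl
  have hI : I ^ 2 = -1 := I_sq
  have hc : dz (dzb (φ n)) z = dzb (dz (φ n)) z := dz_dzb_comm (((S.tame.smooth n).contDiffAt
    (S.op.mem_nhds hz)).of_le (WithTop.coe_le_coe.2 le_top))
  have hag := S.ag z hz
  have heig := S.eig n z hz
  rw [hc] at heig
  rw [e3, e1, e5, e6]
  linear_combination (4 * (h n : ℂ) ^ 2 * a z ^ 2 * dzb (dz (φ n)) z) * hI - a z ^ 2 * heig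
    + φ n z * hag

/-- `L̄ E_{m+1} = E_m + h (tame)` for `m ≥ 0` -/
theorem LLb_jet (m : ℕ) : Near U h (LLb h a (jet h a φ (m + 1))) (jet h a φ m) := by
  induction m with
  | zero => exact S.LLb_jet_one
  | succ m ih =>
    have h1 : Near U h (LLb h a (jet h a φ (m + 2))) (QE.LL h a (LLb h a (jet h a φ (m + 1)))) :=
      LL_comm S.op S.hlim S.ha (S.tame_jet (m + 1))
    have h2 : Near U h (QE.LL h a (LLb h a (jet h a φ (m + 1)))) (jet h a φ (m + 1)) :=
      ih.LL S.op S.hlim S.ha (S.tame_jet m).smooth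
    exact h1.trans S.op h2

theorem LL_conj {u : ℕ → ℂ → ℂ} (hu : SmoothSeq U u) (c : ℂ) (n : ℕ) (z : ℂ) (hz : z ∈ U) :
    QE.LL h a (fun n z => c * (starRingEnd ℂ) (u n z)) n z
      = - c * (starRingEnd ℂ) (LLb h a u n z) := by
  unfold QE.LL QE.LLb
  rw [dz_const_mul _ (hu.conj.dAt S.op n hz), dz_conj (hu.dAt S.op n hz)]
  simp only [map_mul, map_neg, map_ofNat, conj_I, conj_ofReal, S.areal z hz]
  ring

theorem LLb_conj {u : ℕ → ℂ → ℂ} (hu : SmoothSeq U u) (c : ℂ) (n : ℕ) (z : ℂ) (hz : z ∈ U) :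
    QE.LLb h a (fun n z => c * (starRingEnd ℂ) (u n z)) n z
      = - c * (starRingEnd ℂ) (QE.LL h a u n z) := by
  unfold QE.LL QE.LLb
  rw [dzb_const_mul _ (hu.conj.dAt S.op n hz), dzb_conj (hu.dAt S.op n hz)]
  simp only [map_mul, map_neg, map_ofNat, conj_I, conj_ofReal, S.areal z hz]
  ring

/-- `L E_m = E_{m+1} + h (tame)` -/
theorem LL_E (m : ℤ) : Near U h (QE.LL h a (E h a φ m)) (E h a φ (m + 1)) := by
  cases m with
  | ofNat m => exact Near.of_eq S.op fun n z _ => rfl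
  | negSucc m =>
    have h1 := ((S.LLb_jet m).conj S.op).smul S.op (-(-1) ^ (m + 1))
    have h0 : Near U h (QE.LL h a (E h a φ (Int.negSucc m)))
        (fun n z => -(-1) ^ (m + 1) * (starRingEnd ℂ) (LLb h a (jet h a φ (m + 1)) n z)) :=
      Near.of_eq S.op fun n z hz => S.LL_conj (S.tame_jet (m + 1)).smooth ((-1) ^ (m + 1)) n z hz
    refine (h0.trans S.op h1).trans S.op (Near.of_eq S.op fun n z hz => ?_)
    have : Int.negSucc m + 1 = -(m : ℤ) := by omega
    rw [this, S.E_neg m n z hz]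
    ring

/-- `L̄ E_m = E_{m-1} + h (tame)` -/
theorem LLb_E (m : ℤ) : Near U h (LLb h a (E h a φ m)) (E h a φ (m - 1)) := by
  have hneg : ∀ k : ℕ, ∀ n, ∀ z ∈ U, LLb h a (fun n z => (-1) ^ k * (starRingEnd ℂ)
      (jet h a φ k n z)) n z = E h a φ (-(k : ℤ) - 1) n z := by
    intro k n z hz
    rw [S.LLb_conj (S.tame_jet k).smooth]
    · have : -(k : ℤ) - 1 = -((k + 1 : ℕ) : ℤ) := by push_cast; ring
      rw [this, S.E_neg (k + 1) n z hz]
      show _ = (-1) ^ (k + 1) * (starRingEnd ℂ) (QE.LL h a (jet h a φ k) n z)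
      ring
    · exact hz
  cases m with
  | ofNat m =>
    cases m with
    | zero =>
      have h2 : ∀ n, ∀ z ∈ U, LLb h a (E h a φ (Int.ofNat 0)) n z
          = LLb h a (fun n z => (-1) ^ 0 * (starRingEnd ℂ) (jet h a φ 0 n z)) n z := by
        intro n z hz
        unfold LLb
        congr 1
        refine dzb_congr_on S.op (fun w hw => ?_) hz
        show φ n w = (-1) ^ 0 * (starRingEnd ℂ) (φ n w)
        rw [S.real n w hw]; ring
      refine Near.of_eq S.op fun n z hz => ?_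
      rw [h2 n z hz, hneg 0 n z hz]
      rfl
    | succ m =>
      have : (Int.ofNat (m + 1) - 1 : ℤ) = Int.ofNat m := by simp
      rw [this]
      exact S.LLb_jet m
  | negSucc m =>
    refine Near.of_eq S.op fun n z hz => ?_
    have : Int.negSucc m = -((m + 1 : ℕ) : ℤ) := by omega
    have h3 := hneg (m + 1) n z hz
    rw [this, ← h3]
    rfl

end Setup

end

end QE


end

section

/-!
Geometric growth of the jets of an eigenfunction in `L⁴`.
-/

open Complex MeasureTheory Filter Topology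
open scoped ContDiff

namespace QE

noncomputable section

variable {U : Set ℂ} {h : ℕ → ℝ} {a g : ℂ → ℂ} {φ : ℕ → ℂ → ℂ}

theorem Near.fn_mul (hU : IsOpen U) (hh0 : Tendsto h atTop (𝓝 0)) {b : ℂ → ℂ}
    (hb : ContDiffOn ℝ ∞ b U) {u v : ℕ → ℂ → ℂ} (h1 : Near U h u v) :
    Near U h (fun n z => b z * u n z) (fun n z => b z * v n z) := by
  obtain ⟨w, hw, hw'⟩ := h1
  refine ⟨_, hw.fn_mul hU hh0 hb, fun n z hz => ?_⟩
  beta_reduce
  rw [hw' n z hz]; ring

namespace Setup

variable (S : Setup U g a h φ)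

include S

theorem a_ne {z : ℂ} (hz : z ∈ U) : a z ≠ 0 := by
  intro h0
  have := S.ag z hz
  rw [h0] at this
  simp at this

theorem LL_LLb_E (m : ℤ) : Near U h (QE.LL h a (QE.LLb h a (E h a φ m))) (E h a φ m) := by
  have h1 := (S.LLb_E m).LL S.op S.hlim S.ha (S.tame_E (m - 1)).smooth
  have h2 := S.LL_E (m - 1)
  rw [sub_add_cancel] at h2
  exact h1.trans S.op h2

/-- `h² ∂ ∂̄ E_m = - (g / 4) E_m + h (tame)` -/
theorem hLap_E (m : ℤ) : Near U h (hLap h (E h a φ m)) (fun n z => (-(g z / 4)) * E h a φ m n z) := by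
  have hda : ∀ z ∈ U, DifferentiableAt ℝ a z := fun z hz =>
    (S.ha.contDiffAt (S.op.mem_nhds hz)).differentiableAt (by simp)
  have haz := contDiffOn_dz S.op S.ha
  have hb : ContDiffOn ℝ ∞ (fun z => -(g z / 4)) U := (S.hg.div_const 4).neg
  have h1 := (S.LL_LLb_E m).fn_mul S.op S.hlim hb
  have hc : ContDiffOn ℝ ∞ (fun z => g z * a z * dz a z) U := (S.hg.mul S.ha).mul haz
  have h0 : Near U h (hLap h (E h a φ m))
      (fun n z => (-(g z / 4)) * QE.LL h a (QE.LLb h a (E h a φ m)) n z) := by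
    refine ⟨_, (((S.tame_E m).hdzb S.op).fn_mul S.op S.hlim hc).smul S.op (-1), fun n z hz => ?_⟩
    have s2 : DifferentiableAt ℝ (dzb (E h a φ m n)) z :=
      (SmoothSeq.dzb S.op (S.tame_E m).smooth).dAt S.op n hz
    have hI : I ^ 2 = -1 := I_sq
    have e2 : dz (QE.LLb h a (E h a φ m) n) z
        = -(2 * I * h n) * (dz a z * dzb (E h a φ m n) z + a z * dz (dzb (E h a φ m n)) z) := by
      unfold QE.LLb
      have : (fun z => -(2 * I * (h n : ℂ)) * a z * dzb (E h a φ m n) z)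
          = fun z => -(2 * I * (h n : ℂ)) * (a z * dzb (E h a φ m n) z) := by funext w; ring
      rw [this, dz_const_mul _ ((hda z hz).fun_mul s2), dz_mul (hda z hz) s2]
    have e4 : QE.LL h a (QE.LLb h a (E h a φ m)) n z
        = -(2 * I * h n) * a z * dz (QE.LLb h a (E h a φ m) n) z := rfl
    have hag := S.ag z hz
    unfold hLap
    beta_reduce
    rw [e4, e2]
    linear_combination (-(h n : ℂ) ^ 2 * dz (dzb (E h a φ m n)) z) * hag
      + (g z * (h n : ℂ) ^ 2 * a z * (dz a z * dzb (E h a φ m n) z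
        + a z * dz (dzb (E h a φ m n)) z)) * hI
  exact h0.trans S.op h1

end Setup

lemma four_add (x y : ℝ) (hx : 0 ≤ x) (hy : 0 ≤ y) : (x + y) ^ 4 ≤ 8 * (x ^ 4 + y ^ 4) := by
  linarith only [sq_nonneg (x ^ 2 - y ^ 2), mul_nonneg (sq_nonneg (x - y)) (add_nonneg (sq_nonneg (x + y))
      (add_nonneg (sq_nonneg x) (sq_nonneg y)))]

/-- the error term of `Near` in `L⁴` -/
theorem Near.small {u v : ℕ → ℂ → ℂ} (hh0 : Tendsto h atTop (𝓝 0))
    (h1 : Near U h u v) (hu : SmoothSeq U u) (hv : SmoothSeq U v) {K : Set ℂ} (hK : IsCompact K)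
    (hKU : K ⊆ U) {ε : ℝ} (hε : 0 < ε) :
    ∀ᶠ n in atTop, ∫ z in K, ‖u n z - v n z‖ ^ 4 ≤ ε := by
  obtain ⟨w, hw, hw'⟩ := h1
  obtain ⟨C, hC⟩ := hw.bdd4 K hK hKU
  have hlim : Tendsto (fun n => h n ^ 4 * |C|) atTop (𝓝 0) := by
    have := (hh0.pow 4).mul_const |C|
    simpa using this
  filter_upwards [hC, hlim.eventually_lt_const hε] with n hn hn2
  have e : ∫ z in K, ‖u n z - v n z‖ ^ 4 = h n ^ 4 * ∫ z in K, ‖w n z‖ ^ 4 := by
    rw [← integral_const_mul]
    refine setIntegral_congr_fun hK.measurableSet fun z hz => ?_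
    beta_reduce
    rw [hw' n z (hKU hz), add_sub_cancel_left, norm_mul, mul_pow, Complex.norm_real,
      Real.norm_eq_abs, show |h n| ^ 4 = h n ^ 4 from Even.pow_abs ⟨2, rfl⟩ _]
  rw [e]
  refine le_trans ?_ hn2.le
  have : 0 ≤ h n ^ 4 := by positivity
  exact mul_le_mul_of_nonneg_left (hn.trans (le_abs_self C)) this

theorem Setup.growth (S : Setup U g a h φ) {K : Set ℂ} (hK : IsCompact K) {δ : ℝ} (hδ : 0 < δ)
    (hδU : Metric.cthickening δ K ⊆ U) :
    ∃ C : ℝ, 1 ≤ C ∧ ∀ m : ℤ, ∀ᶠ n in atTop,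
      ∫ z in K, ‖E h a φ m n z‖ ^ 4 ≤ C ^ (m.natAbs + 1) := by
  have hK'c : IsCompact (Metric.cthickening δ K) := hK.cthickening
  obtain ⟨A, hA⟩ := hK'c.exists_bound_of_continuousOn (S.ha.continuousOn.mono hδU)
  obtain ⟨G, hG⟩ := hK'c.exists_bound_of_continuousOn (S.hg.continuousOn.mono hδU)
  obtain ⟨M, hM⟩ := S.tame.bdd4 _ hK'c hδU
  set C1 : ℝ := 16 * |A| ^ 4 * ellC * (1 + 8 * (|G| / 4) ^ 4) with hC1
  have hC10 : 0 ≤ C1 := by have := ellC_nonneg; (clear * - this; positivity)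
  set C : ℝ := |M| + C1 + 1 with hC
  have hC1' : 1 ≤ C := by have := abs_nonneg M; linarith
  -- jets of nonnegative index
  have key : ∀ N : ℕ, 0 < N → ∀ m : ℕ, m ≤ N → ∀ᶠ n in atTop,
      ∫ z in Metric.cthickening (δ * ((N - m : ℕ) : ℝ) / N) K, ‖jet h a φ m n z‖ ^ 4
        ≤ C ^ (m + 1) := by
    intro N hN m
    have hN' : (0 : ℝ) < N := by exact_mod_cast hN
    induction m with
    | zero =>
      intro _
      have e : δ * ((N - 0 : ℕ) : ℝ) / N = δ := by
        rw [Nat.sub_zero]; field_simp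
      rw [e]
      filter_upwards [hM] with n hn
      refine hn.trans ?_
      rw [zero_add, pow_one]
      have := le_abs_self M
      linarith
    | succ m ih =>
      intro hm
      set r : ℝ := δ * ((N - (m + 1) : ℕ) : ℝ) / N with hr
      set r' : ℝ := δ * ((N - m : ℕ) : ℝ) / N with hr'
      have hr0 : 0 ≤ r := by positivity
      have hrr : r' = δ / N + r := by
        rw [hr, hr']
        have : ((N - m : ℕ) : ℝ) = ((N - (m + 1) : ℕ) : ℝ) + 1 := by
          rw [← Nat.cast_add_one]; congr 1; omega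
        rw [this]; ring
      have hr'δ : r' ≤ δ := by
        rw [hr', div_le_iff₀ hN']
        have : ((N - m : ℕ) : ℝ) ≤ N := by exact_mod_cast Nat.sub_le N m
        exact mul_le_mul_of_nonneg_left this hδ.le
      have hr'0 : 0 ≤ r' := by positivity
      set K1 := Metric.cthickening r K with hK1
      have hK1c : IsCompact K1 := hK.cthickening
      have hsub : Metric.cthickening (δ / N) K1 ⊆ Metric.cthickening r' K := by
        rw [hrr]
        exact Metric.cthickening_cthickening_subset (by positivity) hr0 K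
      have hsubU : Metric.cthickening r' K ⊆ Metric.cthickening δ K :=
        Metric.cthickening_mono hr'δ K
      have hK1U : K1 ⊆ Metric.cthickening δ K :=
        (Metric.self_subset_cthickening K1).trans (hsub.trans hsubU)
      have hK2c : IsCompact (Metric.cthickening r' K) := hK.cthickening
      have hU2 := hsubU.trans hδU
      have hell := planck_quant S.op S.hpos S.hlim (S.tame_jet m).smooth hK1c
        (show 0 < δ / N by positivity) (hsub.trans hU2)
      have hLap' : SmoothSeq U (hLap h (jet h a φ m)) := (S.tame_jet m).smooth.hLap S.op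
      have hgm : SmoothSeq U (fun n z => (-(g z / 4)) * jet h a φ m n z) :=
        (S.tame_jet m).smooth.fn_mul (S.hg.div_const 4).neg
      have hsmall := (S.hLap_E (m : ℤ)).small S.hlim hLap' hgm hK2c hU2
        (ε := (1 / (8 * (16 * |A| ^ 4 * ellC) + 1))) (by have := ellC_nonneg; positivity)
      filter_upwards [ih (by omega), hell, hsmall] with n h1 h2 h3
      have hcc := ellC_nonneg
      -- the mean over the enlarged set
      have i1 := (S.tame_jet m).smooth.intOn hK2c hU2 4 n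
      have i2 := hLap'.intOn hK2c hU2 4 n
      have i3 : IntegrableOn (fun z => ‖hLap h (jet h a φ m) n z
          - (-(g z / 4)) * jet h a φ m n z‖ ^ 4) (Metric.cthickening r' K) :=
        (hLap'.sub hgm).intOn hK2c hU2 4 n
      have b1 : ∫ z in Metric.cthickening (δ / N) K1, ‖jet h a φ m n z‖ ^ 4
          ≤ ∫ z in Metric.cthickening r' K, ‖jet h a φ m n z‖ ^ 4 :=
        setIntegral_mono_set i1 (Eventually.of_forall fun z => by positivity) hsub.eventuallyLE
      have b2 : ∫ z in Metric.cthickening (δ / N) K1, ‖((h n : ℂ)) ^ 2 * dz (dzb (jet h a φ m n)) z‖ ^ 4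
          ≤ ∫ z in Metric.cthickening r' K, ‖hLap h (jet h a φ m) n z‖ ^ 4 :=
        setIntegral_mono_set i2 (Eventually.of_forall fun z => by positivity) hsub.eventuallyLE
      have b3 : ∫ z in Metric.cthickening r' K, ‖hLap h (jet h a φ m) n z‖ ^ 4
          ≤ 8 * ((1 / (8 * (16 * |A| ^ 4 * ellC) + 1))
            + (|G| / 4) ^ 4 * ∫ z in Metric.cthickening r' K, ‖jet h a φ m n z‖ ^ 4) := by
        calc ∫ z in Metric.cthickening r' K, ‖hLap h (jet h a φ m) n z‖ ^ 4
            ≤ ∫ z in Metric.cthickening r' K, 8 * (‖hLap h (jet h a φ m) n z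
                - (-(g z / 4)) * jet h a φ m n z‖ ^ 4 + (|G| / 4) ^ 4 * ‖jet h a φ m n z‖ ^ 4) := by
              refine setIntegral_mono_on i2 ((i3.add (i1.const_mul _)).const_mul 8)
                hK2c.measurableSet fun z hz => ?_
              have t1 : ‖hLap h (jet h a φ m) n z‖ ≤ ‖hLap h (jet h a φ m) n z
                  - (-(g z / 4)) * jet h a φ m n z‖ + ‖(-(g z / 4)) * jet h a φ m n z‖ := by
                have := norm_add_le (hLap h (jet h a φ m) n z - (-(g z / 4)) * jet h a φ m n z)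
                  ((-(g z / 4)) * jet h a φ m n z)
                rwa [sub_add_cancel] at this
              have t2 : ‖(-(g z / 4)) * jet h a φ m n z‖ ≤ (|G| / 4) * ‖jet h a φ m n z‖ := by
                rw [norm_mul, norm_neg, norm_div]
                have h5 : ‖g z‖ ≤ |G| := (hG z (hsubU hz)).trans (le_abs_self G)
                have h6 : ‖(4 : ℂ)‖ = 4 := by simp
                rw [h6]
                (clear * - h5; gcongr)
              calc ‖hLap h (jet h a φ m) n z‖ ^ 4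
                  ≤ (‖hLap h (jet h a φ m) n z - (-(g z / 4)) * jet h a φ m n z‖
                    + (|G| / 4) * ‖jet h a φ m n z‖) ^ 4 :=
                    pow_le_pow_left₀ (norm_nonneg _) (t1.trans (by gcongr)) 4
                _ ≤ 8 * (‖hLap h (jet h a φ m) n z - (-(g z / 4)) * jet h a φ m n z‖ ^ 4
                    + ((|G| / 4) * ‖jet h a φ m n z‖) ^ 4) :=
                    four_add _ _ (norm_nonneg _) (by positivity)
                _ = _ := by rw [mul_pow]
          _ = 8 * ((∫ z in Metric.cthickening r' K, ‖hLap h (jet h a φ m) n z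
                - (-(g z / 4)) * jet h a φ m n z‖ ^ 4) + (|G| / 4) ^ 4 *
                ∫ z in Metric.cthickening r' K, ‖jet h a φ m n z‖ ^ 4) := by
              rw [integral_const_mul, integral_add i3 (i1.const_mul _), integral_const_mul]
          _ ≤ _ := by gcongr; exact h3
      have e1 : ∫ z in K1, ‖jet h a φ (m + 1) n z‖ ^ 4
          ≤ 16 * |A| ^ 4 * ∫ z in K1, ‖(h n : ℂ) * dz (jet h a φ m n) z‖ ^ 4 := by
        rw [← integral_const_mul]
        have hK1U' : K1 ⊆ U := hK1U.trans hδU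
        refine setIntegral_mono_on ((S.tame_jet (m + 1)).smooth.intOn hK1c hK1U' 4 n)
          ((((S.tame_jet m).smooth.hdz S.op).intOn hK1c hK1U' 4 n).const_mul _)
          hK1c.measurableSet fun z hz => ?_
        have e5 : jet h a φ (m + 1) n z = -(2 * I) * (a z * ((h n : ℂ) * dz (jet h a φ m n) z)) := by
          show -(2 * I * h n) * a z * dz (jet h a φ m n) z = _
          ring
        rw [e5, norm_mul, norm_mul, mul_pow, mul_pow]
        have h5 : ‖a z‖ ≤ |A| := (hA z (hK1U hz)).trans (le_abs_self A)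
        have h6 : ‖-(2 * I)‖ = 2 := by simp
        rw [h6]
        have h7 : ‖a z‖ ^ 4 ≤ |A| ^ 4 := pow_le_pow_left₀ (norm_nonneg _) h5 4
        have h8 : 0 ≤ ‖(h n : ℂ) * dz (jet h a φ m n) z‖ ^ 4 := by positivity
        linarith only [mul_le_mul_of_nonneg_right h7 h8]
      set X := ∫ z in Metric.cthickening r' K, ‖jet h a φ m n z‖ ^ 4 with hX
      have hXC : X ≤ C ^ (m + 1) := h1
      have hq : 0 ≤ 16 * |A| ^ 4 * ellC := by (clear * - hcc; positivity)
      have e2 : ∫ z in K1, ‖jet h a φ (m + 1) n z‖ ^ 4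
          ≤ 16 * |A| ^ 4 * (ellC * (X + 8 * ((1 / (8 * (16 * |A| ^ 4 * ellC) + 1))
            + (|G| / 4) ^ 4 * X))) := by
        refine e1.trans ?_
        gcongr
        refine h2.trans ?_
        gcongr
        exact b2.trans b3
      have e3 : 8 * (16 * |A| ^ 4 * ellC) * (1 / (8 * (16 * |A| ^ 4 * ellC) + 1)) ≤ 1 := by
        rw [mul_one_div, div_le_one (by (clear * - hcc; positivity))]
        linarith only []
      calc ∫ z in K1, ‖jet h a φ (m + 1) n z‖ ^ 4 ≤ _ := e2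
        _ = C1 * X + 8 * (16 * |A| ^ 4 * ellC) * (1 / (8 * (16 * |A| ^ 4 * ellC) + 1)) := by
            rw [hC1]; ring
        _ ≤ C1 * C ^ (m + 1) + 1 := by gcongr
        _ ≤ C1 * C ^ (m + 1) + C ^ (m + 1) := by
            have := one_le_pow₀ hC1' (n := m + 1)
            linarith only [this]
        _ = (C1 + 1) * C ^ (m + 1) := by ring
        _ ≤ C * C ^ (m + 1) := by
            have := abs_nonneg M
            gcongr
            linarith
        _ = C ^ (m + 1 + 1) := by ring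
  have key2 : ∀ m : ℕ, ∀ᶠ n in atTop, ∫ z in K, ‖jet h a φ m n z‖ ^ 4 ≤ C ^ (m + 1) := by
    intro m
    have h1 := key (m + 1) (Nat.succ_pos m) m (Nat.le_succ m)
    filter_upwards [h1] with n hn
    refine le_trans (setIntegral_mono_set ?_ (Eventually.of_forall fun z => by positivity)
      (Metric.self_subset_cthickening K).eventuallyLE) hn
    have hle : δ * ((m + 1 - m : ℕ) : ℝ) / (m + 1 : ℕ) ≤ δ := by
      rw [div_le_iff₀ (by positivity)]
      have : ((m + 1 - m : ℕ) : ℝ) ≤ (m + 1 : ℕ) := by exact_mod_cast Nat.sub_le _ _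
      exact mul_le_mul_of_nonneg_left this hδ.le
    exact (S.tame_jet m).smooth.intOn hK.cthickening
      ((Metric.cthickening_mono hle K).trans hδU) 4 n
  refine ⟨C, hC1', fun m => ?_⟩
  cases m with
  | ofNat m => exact key2 m
  | negSucc m =>
    filter_upwards [key2 (m + 1)] with n hn
    refine le_trans (le_of_eq ?_) hn
    congr 1
    funext z
    show ‖(-1) ^ (m + 1) * (starRingEnd ℂ) (jet h a φ (m + 1) n z)‖ ^ 4 = _
    rw [norm_mul, norm_pow, norm_neg, norm_one, one_pow, one_mul, RCLike.norm_conj]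

end

end QE


end

section

/-!
Smooth cutoff functions.
-/

open Complex MeasureTheory Filter Topology
open scoped ContDiff Manifold

namespace QE

noncomputable section

/-- a test function which is one near the compact set `K` -/
theorem exists_cutoff {U K : Set ℂ} (hU : IsOpen U) (hK : IsCompact K) (hKU : K ⊆ U) :
    ∃ χ : ℂ → ℂ, Test U χ ∧ (∀ z ∈ K, ∀ᶠ w in 𝓝 z, χ w = 1) ∧ (∀ z, ‖χ z‖ ≤ 1) := by
  obtain ⟨K', hK', hKK', hK'U⟩ := exists_compact_between hK hU hKU
  obtain ⟨f, hf1, hf2, hf3⟩ := exists_contMDiffMap_one_nhds_of_subset_interior (n := (⊤ : ℕ∞)) 𝓘(ℝ, ℂ)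
    hK.isClosed hKK'
  have hfs : ContDiff ℝ ∞ (f : ℂ → ℝ) := f.contMDiff.contDiff
  have hsupp : Function.support (fun z => (f z : ℂ)) ⊆ K' := by
    intro z hz
    by_contra h
    exact hz (by simp [hf2 z h])
  have hts : tsupport (fun z => (f z : ℂ)) ⊆ K' :=
    closure_minimal hsupp hK'.isClosed
  refine ⟨fun z => (f z : ℂ), ⟨ofRealCLM.contDiff.comp hfs,
    hK'.of_isClosed_subset (isClosed_tsupport _) hts, hts.trans hK'U⟩, ?_, ?_⟩
  · intro z hz
    have := hf1.filter_mono (nhds_le_nhdsSet hz)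
    filter_upwards [this] with w hw
    simp [hw]
  · intro z
    obtain ⟨h1, h2⟩ := hf3 z
    rw [Complex.norm_real, Real.norm_of_nonneg h1]
    exact h2

end

end QE


end
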