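import Mathlib
import Pool.Agent.LibH11.Berry.Defs
import Pool.Agent.LibH11.Berry.HDefs

/-! Parts: LibH11.Berry.WaveK, LibH11.Berry.SL, LibH11.Berry.SL2, LibH11.Berry.LpInt -/

section

/-!
The covariance `K(x) = ∫_{S¹} cos⟨x, ω⟩ dσ(ω)` of the monochromatic Gaussian wave in the plane.
-/

open Filter Topology MeasureTheory intervalIntegral

namespace Berry

noncomputable section

lemma waveK_zero : waveK 0 = 1 := by
  have := Real.pi_pos
  simp only [waveK, Complex.zero_re, Complex.zero_im, zero_mul, add_zero, Real.cos_zero,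
    intervalIntegral.integral_const, sub_zero, smul_eq_mul, mul_one]
  field_simp

lemma waveK_neg (x : ℂ) : waveK (-x) = waveK x := by
  simp only [waveK, Complex.neg_re, Complex.neg_im]
  congr 2
  funext θ
  rw [← Real.cos_neg]
  congr 1; ring

lemma waveK_abs_le (x : ℂ) : |waveK x| ≤ 1 := by
  have hpi := Real.pi_pos
  have h : ‖∫ θ in (0:ℝ)..(2 * Real.pi), Real.cos (x.re * Real.cos θ + x.im * Real.sin θ)‖
      ≤ 1 * |2 * Real.pi - 0| := by
    apply intervalIntegral.norm_integral_le_of_norm_le_const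
    intro θ _
    exact Real.abs_cos_le_one _
  rw [waveK, abs_mul, abs_of_pos (by positivity)]
  rw [sub_zero, abs_of_pos (by positivity), one_mul, Real.norm_eq_abs] at h
  calc (2 * Real.pi)⁻¹ * |∫ θ in (0:ℝ)..(2 * Real.pi), Real.cos (x.re * Real.cos θ + x.im * Real.sin θ)|
      ≤ (2 * Real.pi)⁻¹ * (2 * Real.pi) := mul_le_mul_of_nonneg_left h (by positivity)
    _ = 1 := by field_simp

lemma waveK_continuous : Continuous waveK := by
  unfold waveK
  apply continuous_const.mul
  apply intervalIntegral.continuous_parametric_intervalIntegral_of_continuous'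
  fun_prop

/-- the van der Corput bound away from the critical points of `cos` -/
lemma osc_bound {a b m r : ℝ} (hab : a ≤ b) (hm : 0 < m) (hr : 0 < r)
    (hs : ∀ θ ∈ Set.Icc a b, m ≤ |Real.sin θ|) :
    |∫ θ in a..b, Real.cos (r * Real.cos θ)| ≤ (2 / m + (b - a) / m^2) / r := by
  have hne : ∀ θ ∈ Set.uIcc a b, Real.sin θ ≠ 0 := by
    intro θ hθ h0
    rw [Set.uIcc_of_le hab] at hθ
    have := hs θ hθ
    rw [h0, abs_zero] at this
    linarith
  have hu : ∀ θ ∈ Set.uIcc a b, HasDerivAt (fun θ => (Real.sin θ)⁻¹)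
      (-(Real.cos θ) / (Real.sin θ)^2) θ := by
    intro θ hθ
    exact (Real.hasDerivAt_sin θ).inv (hne θ hθ)
  have hv : ∀ θ ∈ Set.uIcc a b, HasDerivAt (fun θ => -(Real.sin (r * Real.cos θ)) / r)
      (Real.cos (r * Real.cos θ) * Real.sin θ) θ := by
    intro θ _
    have h1 : HasDerivAt (fun θ => r * Real.cos θ) (r * (-(Real.sin θ))) θ :=
      (Real.hasDerivAt_cos θ).const_mul r
    have h2 := (h1.sin.neg).div_const r
    refine h2.congr_deriv ?_
    field_simp
  have hcu : ContinuousOn (fun θ => -(Real.cos θ) / (Real.sin θ)^2) (Set.uIcc a b) := by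
    apply ContinuousOn.div
    · exact Real.continuous_cos.neg.continuousOn
    · exact (Real.continuous_sin.pow 2).continuousOn
    · intro θ hθ; exact pow_ne_zero 2 (hne θ hθ)
  have hcv : Continuous (fun θ => Real.cos (r * Real.cos θ) * Real.sin θ) := by fun_prop
  have hibp := intervalIntegral.integral_mul_deriv_eq_deriv_mul hu hv
    (hcu.intervalIntegrable) (hcv.intervalIntegrable a b)
  have e1 : ∫ θ in a..b, Real.cos (r * Real.cos θ) =
      ∫ θ in a..b, (Real.sin θ)⁻¹ * (Real.cos (r * Real.cos θ) * Real.sin θ) := by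
    apply intervalIntegral.integral_congr
    intro θ hθ
    have := hne θ hθ
    simp only
    field_simp
  rw [e1, hibp]
  have hvb : ∀ θ, |-(Real.sin (r * Real.cos θ)) / r| ≤ 1 / r := by
    intro θ
    rw [abs_div, abs_neg, abs_of_pos hr]
    gcongr
    exact Real.abs_sin_le_one _
  have hub : ∀ θ ∈ Set.Icc a b, |(Real.sin θ)⁻¹| ≤ 1 / m := by
    intro θ hθ
    rw [abs_inv, one_div]
    exact inv_anti₀ hm (hs θ hθ)
  have hub' : ∀ θ ∈ Set.Icc a b, |-(Real.cos θ) / (Real.sin θ)^2| ≤ 1 / m^2 := by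
    intro θ hθ
    rw [abs_div, abs_neg, abs_pow]
    have h1 := hs θ hθ
    have h2 : m^2 ≤ |Real.sin θ|^2 := by gcongr
    have h3 : |Real.cos θ| ≤ 1 := Real.abs_cos_le_one _
    exact div_le_div₀ zero_le_one h3 (by positivity) h2
  have hI : ‖∫ θ in a..b, -(Real.cos θ) / (Real.sin θ)^2 * (-(Real.sin (r * Real.cos θ)) / r)‖ ≤
      (1 / m^2 * (1 / r)) * |b - a| := by
    apply intervalIntegral.norm_integral_le_of_norm_le_const
    intro θ hθ
    rw [Set.uIoc_of_le hab] at hθ
    rw [Real.norm_eq_abs, abs_mul]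
    exact mul_le_mul (hub' θ ⟨hθ.1.le, hθ.2⟩) (hvb θ) (abs_nonneg _) (by positivity)
  rw [Real.norm_eq_abs, abs_of_nonneg (sub_nonneg.2 hab)] at hI
  have ha : |(Real.sin a)⁻¹ * (-(Real.sin (r * Real.cos a)) / r)| ≤ 1 / m * (1 / r) := by
    rw [abs_mul]
    exact mul_le_mul (hub a ⟨le_rfl, hab⟩) (hvb a) (abs_nonneg _) (by positivity)
  have hb : |(Real.sin b)⁻¹ * (-(Real.sin (r * Real.cos b)) / r)| ≤ 1 / m * (1 / r) := by
    rw [abs_mul]
    exact mul_le_mul (hub b ⟨hab, le_rfl⟩) (hvb b) (abs_nonneg _) (by positivity)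
  calc _ ≤ |(Real.sin b)⁻¹ * (-(Real.sin (r * Real.cos b)) / r)|
        + |(Real.sin a)⁻¹ * (-(Real.sin (r * Real.cos a)) / r)|
        + |∫ θ in a..b, -(Real.cos θ) / (Real.sin θ)^2 * (-(Real.sin (r * Real.cos θ)) / r)| := by
          refine (abs_sub _ _).trans ?_
          gcongr
          exact abs_sub _ _
    _ ≤ 1 / m * (1 / r) + 1 / m * (1 / r) + (1 / m^2 * (1 / r)) * (b - a) := by
          gcongr
    _ = (2 / m + (b - a) / m^2) / r := by field_simp; ring

lemma waveK_eq_norm (x : ℂ) :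
    waveK x = (2 * Real.pi)⁻¹ * ∫ θ in (0:ℝ)..(2 * Real.pi), Real.cos (‖x‖ * Real.cos θ) := by
  rw [waveK]
  congr 1
  have h1 : ∀ θ, x.re * Real.cos θ + x.im * Real.sin θ = ‖x‖ * Real.cos (θ - x.arg) := by
    intro θ
    rw [Real.cos_sub]
    have h2 : x.re = ‖x‖ * Real.cos x.arg := (Complex.norm_mul_cos_arg x).symm
    have h3 : x.im = ‖x‖ * Real.sin x.arg := (Complex.norm_mul_sin_arg x).symm
    rw [h2, h3]
    have e1 : ‖x‖ * Real.cos x.arg * Real.cos θ + ‖x‖ * Real.sin x.arg * Real.sin θ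
      = ‖x‖ * (Real.cos θ * Real.cos x.arg + Real.sin θ * Real.sin x.arg) := by ring
    exact e1
  simp only [h1]
  have hper : Function.Periodic (fun θ => Real.cos (‖x‖ * Real.cos θ)) (2 * Real.pi) := by
    intro θ
    simp only [Real.cos_add_two_pi]
  rw [intervalIntegral.integral_comp_sub_right (fun θ => Real.cos (‖x‖ * Real.cos θ)) x.arg]
  have h4 := hper.intervalIntegral_add_eq (0 - x.arg) 0
  rw [zero_add] at h4
  rw [← h4]
  congr 1; ring

/-- `K` vanishes at infinity -/
lemma waveK_vanishes : ∀ ε > 0, ∃ N : ℝ, ∀ x : ℂ, N ≤ ‖x‖ → |waveK x| ≤ ε := by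
  intro ε hε
  have hpi := Real.pi_pos
  -- choose δ
  obtain ⟨δ, hδ0, hδ1, hδ2⟩ : ∃ δ : ℝ, 0 < δ ∧ δ < Real.pi / 2 ∧ 4 * δ ≤ ε / 2 := by
    refine ⟨min (ε/8) (Real.pi/4), ?_, ?_, ?_⟩
    · positivity
    · exact lt_of_le_of_lt (min_le_right _ _) (by linarith)
    · have := min_le_left (ε/8) (Real.pi/4); linarith
  set m := Real.sin δ with hm
  have hm0 : 0 < m := Real.sin_pos_of_pos_of_lt_pi hδ0 (by linarith)
  set B := 2 * (2 / m + (Real.pi - 2 * δ) / m^2) with hB
  have hB0 : 0 < B := by
    have : 0 ≤ (Real.pi - 2 * δ) / m^2 := div_nonneg (by linarith) (by positivity)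
    positivity
  refine ⟨2 * B / ε + 1, fun x hx => ?_⟩
  set r := ‖x‖ with hr
  have hr0 : 0 < r := lt_of_lt_of_le (by positivity) hx
  rw [waveK_eq_norm, ← hr]
  set f : ℝ → ℝ := fun θ => Real.cos (r * Real.cos θ) with hf
  have hfc : Continuous f := by fun_prop
  have hi : ∀ a b, IntervalIntegrable f volume a b := fun a b => hfc.intervalIntegrable a b
  have hsmall : ∀ a b, |∫ θ in a..b, f θ| ≤ |b - a| := by
    intro a b
    have := intervalIntegral.norm_integral_le_of_norm_le_const (a := a) (b := b) (f := f) (C := 1)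
      (fun θ _ => Real.abs_cos_le_one _)
    rwa [one_mul] at this
  -- on [δ, π-δ]
  have h1 : |∫ θ in δ..(Real.pi - δ), f θ| ≤ (2 / m + (Real.pi - 2 * δ) / m^2) / r := by
    have := osc_bound (a := δ) (b := Real.pi - δ) (m := m) (r := r) (by linarith) hm0 hr0 (by
      intro θ hθ
      have hs : m ≤ Real.sin θ := by
        rcases le_total θ (Real.pi/2) with h | h
        · exact Real.sin_le_sin_of_le_of_le_pi_div_two (by linarith) h hθ.1
        · rw [hm, ← Real.sin_pi_sub θ]
          exact Real.sin_le_sin_of_le_of_le_pi_div_two (by linarith only [hδ0, hδ1]) (by linarith only [h])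
            (by linarith only [hθ.2])
      exact hs.trans (le_abs_self _))
    have e : Real.pi - δ - δ = Real.pi - 2 * δ := by ring
    rw [e] at this
    exact this
  -- on [π+δ, 2π-δ]
  have h2 : |∫ θ in (Real.pi + δ)..(2 * Real.pi - δ), f θ| ≤
      (2 / m + (Real.pi - 2 * δ) / m^2) / r := by
    have e1 : ∫ θ in (Real.pi + δ)..(2 * Real.pi - δ), f θ
        = ∫ θ in δ..(Real.pi - δ), f (θ + Real.pi) := by
      rw [intervalIntegral.integral_comp_add_right f Real.pi]
      congr 1 <;> ring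
    have e2 : ∀ θ, f (θ + Real.pi) = f θ := by
      intro θ
      simp only [hf, Real.cos_add_pi, mul_neg, Real.cos_neg]
    rw [e1]
    simp only [e2]
    exact h1
  have hsplit : ∫ θ in (0:ℝ)..(2 * Real.pi), f θ =
      (∫ θ in (0:ℝ)..δ, f θ) + (∫ θ in δ..(Real.pi - δ), f θ)
      + (∫ θ in (Real.pi - δ)..(Real.pi + δ), f θ)
      + (∫ θ in (Real.pi + δ)..(2 * Real.pi - δ), f θ)
      + ∫ θ in (2 * Real.pi - δ)..(2 * Real.pi), f θ := by
    rw [intervalIntegral.integral_add_adjacent_intervals (hi _ _) (hi _ _),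
      intervalIntegral.integral_add_adjacent_intervals (hi _ _) (hi _ _),
      intervalIntegral.integral_add_adjacent_intervals (hi _ _) (hi _ _),
      intervalIntegral.integral_add_adjacent_intervals (hi _ _) (hi _ _)]
  have h3 := hsmall 0 δ
  have h4 := hsmall (Real.pi - δ) (Real.pi + δ)
  have h5 := hsmall (2 * Real.pi - δ) (2 * Real.pi)
  have a3 : |δ - 0| = δ := by rw [sub_zero, abs_of_pos hδ0]
  have a4 : |Real.pi + δ - (Real.pi - δ)| = 2 * δ := by
    rw [abs_of_pos (by linarith)]; ring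
  have a5 : |2 * Real.pi - (2 * Real.pi - δ)| = δ := by
    rw [abs_of_pos (by linarith)]; ring
  rw [a3] at h3; rw [a4] at h4; rw [a5] at h5
  have htot : |∫ θ in (0:ℝ)..(2 * Real.pi), f θ| ≤ 4 * δ + B / r := by
    rw [hsplit]
    rw [abs_le] at h1 h2 h3 h4 h5 ⊢
    have e : B / r = 2 * ((2 / m + (Real.pi - 2 * δ) / m^2) / r) := by rw [hB]; ring
    rw [e]
    constructor <;> (first | linarith only [h1, h2, h3, h4, h5] | linarith [h1.1, h1.2, h2.1, h2.2, h3.1, h3.2, h4.1, h4.2, h5.1, h5.2])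
  have hBr : B / r ≤ ε / 2 := by
    rw [div_le_iff₀ hr0]
    have : 2 * B / ε ≤ r := by linarith only [hx]
    have h6 : 2 * B ≤ r * ε := by rwa [div_le_iff₀ hε] at this
    linarith only [h6]
  rw [abs_mul, abs_of_pos (by positivity : (0:ℝ) < (2 * Real.pi)⁻¹)]
  have h7 : (2 * Real.pi)⁻¹ ≤ 1 := by
    rw [inv_le_one₀ (by positivity)]
    linarith only [Real.pi_gt_three]
  calc (2 * Real.pi)⁻¹ * |∫ θ in (0:ℝ)..(2 * Real.pi), f θ|
      ≤ 1 * |∫ θ in (0:ℝ)..(2 * Real.pi), f θ| := mul_le_mul_of_nonneg_right h7 (abs_nonneg _)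
    _ ≤ ε := by linarith only [hδ2, htot, hBr]

end

end Berry


end

section

/-!
Haar measure on `SL(2, ℝ)` in terms of points and frames.
-/

open UpperHalfPlane MeasureTheory ProbabilityTheory MatrixGroups Filter Topology
open scoped ENNReal NNReal

namespace Berry

noncomputable section

instance : LocallyCompactSpace SL(2, ℝ) := by
  have : LocallyCompactSpace (Matrix (Fin 2) (Fin 2) ℝ) :=
    inferInstanceAs (LocallyCompactSpace (Fin 2 → Fin 2 → ℝ))
  exact Matrix.SpecialLinearGroup.isClosedEmbedding_val.locallyCompactSpace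

instance : SecondCountableTopology SL(2, ℝ) := by
  have : SecondCountableTopology (Matrix (Fin 2) (Fin 2) ℝ) :=
    inferInstanceAs (SecondCountableTopology (Fin 2 → Fin 2 → ℝ))
  exact Matrix.SpecialLinearGroup.isClosedEmbedding_val.isEmbedding.secondCountableTopology

instance : SMulInvariantMeasure SL(2, ℝ) ℍ volume where
  measure_preimage_smul g s hs := by
    have := measure_preimage_smul (volume : Measure ℍ) (g : GL (Fin 2) ℝ) s
    exact this

instance (Γ : Subgroup SL(2, ℝ)) : SMulInvariantMeasure Γ ℍ volume where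
  measure_preimage_smul g s _ := by
    have := measure_preimage_smul (volume : Measure ℍ) (g : SL(2, ℝ)) s
    exact this

lemma rot_add (a b : ℝ) : rot (a + b) = rot a * rot b := by
  apply Subtype.ext
  show _ = (rot a).1 * (rot b).1
  simp only [rot, Matrix.mul_fin_two]
  rw [Real.cos_add, Real.sin_add]
  ext i j
  fin_cases i <;> fin_cases j <;> simp <;> ring

lemma rot_two_pi (a : ℝ) : rot (a + 2 * Real.pi) = rot a := by
  apply Subtype.ext
  simp [rot]

lemma rot_continuous : Continuous rot := by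
  apply continuous_induced_rng.mpr
  simp only [Function.comp_def]
  show Continuous fun θ => !![Real.cos θ, -Real.sin θ; Real.sin θ, Real.cos θ]
  fun_prop

lemma rot_smul_I (θ : ℝ) : rot θ • I = I := by
  apply UpperHalfPlane.ext
  rw [coe_specialLinearGroup_apply]
  have h : ((algebraMap ℝ ℝ) ((rot θ) 1 0) : ℂ) * (I : ℂ) + ((algebraMap ℝ ℝ) ((rot θ) 1 1) : ℂ)
      ≠ 0 := by
    intro h
    have h1 := congrArg Complex.re h
    have h2 := congrArg Complex.im h
    simp [rot, -Complex.ofReal_cos,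
      -Complex.ofReal_sin] at h1 h2
    have := Real.sin_sq_add_cos_sq θ
    rw [h1, h2] at this
    norm_num at this
  rw [div_eq_iff h]
  simp [rot]
  apply Complex.ext <;> simp

lemma stab_I {g : SL(2, ℝ)} (h : g • I = I) : ∃ α, g = rot α := by
  have h1 := congrArg (UpperHalfPlane.coe) h
  rw [coe_specialLinearGroup_apply] at h1
  have hne : ((algebraMap ℝ ℝ) (g 1 0) : ℂ) * (I : ℂ) + ((algebraMap ℝ ℝ) (g 1 1) : ℂ) ≠ 0 := by
    intro h
    have h2 := congrArg Complex.re h
    have h3 := congrArg Complex.im h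
    simp at h2 h3
    have hdet := g.det_coe
    rw [Matrix.det_fin_two, h2, h3] at hdet
    norm_num at hdet
  rw [div_eq_iff hne] at h1
  have h2 := congrArg Complex.re h1
  have h3 := congrArg Complex.im h1
  simp at h2 h3
  have hdet := g.det_coe
  rw [Matrix.det_fin_two] at hdet
  have hsq : g 0 0 ^ 2 + g 1 0 ^ 2 = 1 := by
    rw [h3, h2] at hdet
    rw [h3]
    linarith
  -- choose the angle
  set z : ℂ := ⟨g 0 0, g 1 0⟩ with hz
  have hz1 : ‖z‖ = 1 := by
    have : ‖z‖ ^ 2 = 1 := by
      rw [← Complex.normSq_eq_norm_sq, Complex.normSq_apply]; simp only [hz]; linarith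
    nlinarith [norm_nonneg z]
  refine ⟨Complex.arg z, ?_⟩
  have hc := Complex.norm_mul_cos_arg z
  have hs := Complex.norm_mul_sin_arg z
  rw [hz1, one_mul] at hc hs
  apply Subtype.ext
  simp only [rot]
  rw [hc, hs]
  ext i j
  fin_cases i <;> fin_cases j
  · simp [hz]
  · simpa [hz] using h2
  · simp [hz]
  · simpa [hz] using h3.symm

lemma frame_smul_I (p : ℍ × ℝ) : frame p • I = p.1 := by
  unfold frame
  rw [mul_smul, rot_smul_I, toSL2R_smul_I]

lemma frame_continuous : Continuous frame := by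
  unfold frame
  exact (continuous_toSL2R.comp continuous_fst).mul (rot_continuous.comp continuous_snd)

lemma frame_periodic (z : ℍ) (θ : ℝ) : frame (z, θ + 2 * Real.pi) = frame (z, θ) := by
  unfold frame
  rw [rot_two_pi]

/-- left multiplication in terms of frames -/
lemma mul_frame (h : SL(2, ℝ)) (z : ℍ) : ∃ α, ∀ θ, h * frame (z, θ) = frame (h • z, α + θ) := by
  have h1 : (((h • z).toSL2R)⁻¹ * h * z.toSL2R) • I = I := by
    rw [mul_smul, mul_smul, toSL2R_smul_I, inv_smul_eq_iff, toSL2R_smul_I]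
  obtain ⟨α, hα⟩ := stab_I h1
  refine ⟨α, fun θ => ?_⟩
  unfold frame
  simp only
  rw [rot_add, ← hα]
  group

end

end Berry


end

section

/-!
The measure on `SL(2, ℝ)` given by points and frames is a Haar measure.
-/

open UpperHalfPlane MeasureTheory ProbabilityTheory MatrixGroups Filter Topology Set
open scoped ENNReal NNReal

namespace Berry

noncomputable section

lemma lintegral_periodic {G : ℝ → ℝ≥0∞} (hG : ∀ θ, G (θ + 2 * Real.pi) = G θ) (α : ℝ) :
    ∫⁻ θ in Ioc 0 (2 * Real.pi), G (α + θ) = ∫⁻ θ in Ioc 0 (2 * Real.pi), G θ := by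
  have hT : 0 < 2 * Real.pi := by positivity
  have h1 : ∫⁻ θ in Ioc 0 (2 * Real.pi), G (α + θ) = ∫⁻ θ in Ioc α (α + 2 * Real.pi), G θ := by
    have h2 := (measurePreserving_add_left (volume : Measure ℝ) α).setLIntegral_comp_preimage_emb
      (MeasurableEquiv.addLeft α).measurableEmbedding G (Ioc α (α + 2 * Real.pi))
    rw [← h2]
    congr 2
    ext θ
    simp [mem_Ioc]
  rw [h1]
  have d1 := isAddFundamentalDomain_Ioc hT α volume
  have d2 := isAddFundamentalDomain_Ioc hT 0 volume
  have h3 := d1.setLIntegral_eq d2 G (fun g x => by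
    obtain ⟨g, hg⟩ := g
    obtain ⟨k, rfl⟩ := AddSubgroup.mem_zmultiples_iff.1 hg
    show G (k • (2 * Real.pi) + x) = G x
    have hp : Function.Periodic G (2 * Real.pi) := hG
    rw [add_comm]
    exact hp.zsmul k x)
  rw [zero_add] at h3
  exact h3

/-- the product measure on points and frames -/
def pf : Measure (ℍ × ℝ) :=
  (volume : Measure ℍ).prod ((volume : Measure ℝ).restrict (Ioc 0 (2 * Real.pi)))

variable [MeasurableSpace SL(2, ℝ)] [BorelSpace SL(2, ℝ)]

/-- the measure on `SL(2, ℝ)` -/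
def nuF : Measure SL(2, ℝ) := Measure.map frame pf

lemma frame_measurable : Measurable frame := frame_continuous.measurable

lemma lintegral_nuF {f : SL(2, ℝ) → ℝ≥0∞} (hf : Measurable f) :
    ∫⁻ g, f g ∂nuF = ∫⁻ z : ℍ, ∫⁻ θ in Ioc 0 (2 * Real.pi), f (frame (z, θ)) := by
  unfold nuF pf
  rw [lintegral_map hf frame_measurable, lintegral_prod]
  exact (hf.comp frame_measurable).aemeasurable

instance : (nuF : Measure SL(2, ℝ)).IsMulLeftInvariant where
  map_mul_left_eq_self h := by
    refine Measure.ext_of_lintegral _ fun f hf => ?_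
    have hm : Measurable fun g : SL(2, ℝ) => h * g := (continuous_const_mul h).measurable
    rw [lintegral_map hf hm, lintegral_nuF (f := fun g => f (h * g)) (hf.comp hm),
      lintegral_nuF hf]
    set Ψ : ℍ → ℝ≥0∞ := fun z => ∫⁻ θ in Ioc 0 (2 * Real.pi), f (frame (z, θ)) with hΨ
    have h1 : ∀ z : ℍ, ∫⁻ θ in Ioc 0 (2 * Real.pi), f (h * frame (z, θ)) = Ψ (h • z) := by
      intro z
      obtain ⟨α, hα⟩ := mul_frame h z
      simp only [hα, hΨ]
      exact lintegral_periodic (G := fun θ => f (frame (h • z, θ)))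
        (fun θ => by simp only [frame_periodic]) α
    simp only [h1]
    have h2 := (measurePreserving_smul h (volume : Measure ℍ)).lintegral_comp_emb
      (measurableEmbedding_const_smul h) Ψ
    exact h2

lemma nuF_preimage {S : Set ℍ} (hS : MeasurableSet S) :
    nuF ((fun g : SL(2, ℝ) => g • I) ⁻¹' S) = volume S * ENNReal.ofReal (2 * Real.pi) := by
  unfold nuF pf
  have hm : Measurable fun g : SL(2, ℝ) => g • I :=
    (continuous_id.smul continuous_const).measurable
  rw [Measure.map_apply frame_measurable (hm hS)]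
  have e : frame ⁻¹' ((fun g : SL(2, ℝ) => g • I) ⁻¹' S) = S ×ˢ univ := by
    ext p
    simp [frame_smul_I]
  rw [e, Measure.prod_prod, Measure.restrict_apply_univ, Real.volume_Ioc, sub_zero]

omit [MeasurableSpace SL(2, ℝ)] [BorelSpace SL(2, ℝ)] in
lemma volume_pos_of_isOpen {S : Set ℍ} (hS : IsOpen S) (hne : S.Nonempty) :
    0 < (volume : Measure ℍ) S := by
  rw [pos_iff_ne_zero]
  intro h0
  rw [volume_eq_lintegral] at h0
  have hopen : IsOpen (UpperHalfPlane.coe '' S) := isOpenEmbedding_coe.isOpenMap S hS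
  have hmeas : Measurable fun z : ℂ => (((1 / ‖z.im‖₊) ^ 2 : NNReal) : ℝ≥0∞) := by
    have h1 : Measurable fun z : ℂ => ‖z.im‖₊ := Complex.measurable_im.nnnorm
    exact ((measurable_const.div h1).pow_const 2).coe_nnreal_ennreal
  rw [lintegral_eq_zero_iff hmeas] at h0
  have h2 : ∀ᵐ z : ℂ ∂(volume.restrict (UpperHalfPlane.coe '' S)), False := by
    filter_upwards [h0, ae_restrict_mem hopen.measurableSet] with z hz hz2
    obtain ⟨w, -, rfl⟩ := hz2
    have h3 : w.im ≠ 0 := w.im_ne_zero
    simp at hz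
    exact h3 hz
  have h3 : (volume : Measure ℂ) (UpperHalfPlane.coe '' S) = 0 := by
    rw [ae_iff] at h2
    simpa using h2
  exact (hopen.measure_pos volume (hne.image _)).ne' h3

instance : (nuF : Measure SL(2, ℝ)).IsHaarMeasure := by
  have hprop := isProperMap_smul_I
  set B : Set ℍ := Metric.closedBall I 1 with hB
  have hBc : IsCompact B := isCompact_closedBall _ _
  have hBm : MeasurableSet B := hBc.isClosed.measurableSet
  have hcont : Continuous fun g : SL(2, ℝ) => g • I := continuous_id.smul continuous_const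
  refine Measure.isHaarMeasure_of_isCompact_nonempty_interior nuF
    ((fun g : SL(2, ℝ) => g • I) ⁻¹' B) (hprop.isCompact_preimage hBc) ?_ ?_ ?_
  · refine ⟨1, ?_⟩
    have h1 : (fun g : SL(2, ℝ) => g • I) ⁻¹' (Metric.ball I 1)
        ⊆ (fun g : SL(2, ℝ) => g • I) ⁻¹' B := preimage_mono Metric.ball_subset_closedBall
    refine interior_maximal h1 (Metric.isOpen_ball.preimage hcont) ?_
    simp
  · rw [nuF_preimage hBm]
    refine mul_ne_zero ?_ ?_
    · have h2 : 0 < (volume : Measure ℍ) (Metric.ball I 1) :=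
        volume_pos_of_isOpen Metric.isOpen_ball ⟨I, Metric.mem_ball_self one_pos⟩
      exact (lt_of_lt_of_le h2 (measure_mono Metric.ball_subset_closedBall)).ne'
    · rw [Ne, ENNReal.ofReal_eq_zero, not_le]; positivity
  · rw [nuF_preimage hBm]
    exact ENNReal.mul_ne_top hBc.measure_lt_top.ne ENNReal.ofReal_ne_top

end

end Berry


end

section

/-!
The Bochner integral of an `Lᵖ`-valued function agrees with the pointwise integral.
-/

open Complex Filter Topology MeasureTheory
open scoped ENNReal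

namespace Berry

noncomputable section

variable {Ω : Type*} [MeasurableSpace Ω] {P : Measure Ω} [IsProbabilityMeasure P]

lemma integral_norm_le_Lp {p : ℝ≥0∞} [Fact (1 ≤ p)] (f : Lp ℂ p P) :
    ∫ ω, ‖f ω‖ ∂P ≤ ‖f‖ := by
  have h1 : MemLp f p P := Lp.memLp f
  have h2 : eLpNorm f 1 P ≤ eLpNorm f p P :=
    eLpNorm_le_eLpNorm_of_exponent_le Fact.out h1.1
  have h3 : ∫ ω, ‖f ω‖ ∂P = (eLpNorm f 1 P).toReal := by
    rw [eLpNorm_one_eq_lintegral_enorm, integral_norm_eq_lintegral_enorm h1.1]
  rw [h3, Lp.norm_def]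
  exact ENNReal.toReal_mono h1.2.ne h2

lemma Lp_integrable {p : ℝ≥0∞} [hp : Fact (1 ≤ p)] (f : Lp ℂ p P) : Integrable f P :=
  (Lp.memLp f).integrable hp.out

/-- integration over a set as a continuous linear functional on `Lᵖ` -/
def setIntCLM (P : Measure Ω) [IsProbabilityMeasure P] (p : ℝ≥0∞) [Fact (1 ≤ p)] (s : Set Ω) :
    Lp ℂ p P →L[ℝ] ℂ :=
  LinearMap.mkContinuous
    { toFun := fun f => ∫ ω in s, f ω ∂P
      map_add' := by
        intro f g
        rw [← integral_add (Lp_integrable f).integrableOn (Lp_integrable g).integrableOn]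
        apply integral_congr_ae
        exact ae_restrict_of_ae (Lp.coeFn_add f g)
      map_smul' := by
        intro c f
        rw [RingHom.id_apply, ← integral_smul]
        apply integral_congr_ae
        exact ae_restrict_of_ae (Lp.coeFn_smul c f) }
    1 (by
      intro f
      rw [one_mul]
      calc ‖∫ ω in s, f ω ∂P‖ ≤ ∫ ω in s, ‖f ω‖ ∂P := norm_integral_le_integral_norm _
        _ ≤ ∫ ω, ‖f ω‖ ∂P := setIntegral_le_integral (Lp_integrable f).norm
            (Eventually.of_forall fun _ => norm_nonneg _)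
        _ ≤ ‖f‖ := integral_norm_le_Lp f)

lemma setIntCLM_apply (p : ℝ≥0∞) [Fact (1 ≤ p)] (s : Set Ω) (f : Lp ℂ p P) :
    setIntCLM P p s f = ∫ ω in s, f ω ∂P := rfl

lemma Lp_integrable_prod {α : Type*} [MeasurableSpace α] {μ : Measure α} [SFinite μ]
    {p : ℝ≥0∞} [Fact (1 ≤ p)] {g : α → Ω → ℂ} (hm : StronglyMeasurable (Function.uncurry g))
    (hp : ∀ x, MemLp (g x) p P) (hi : Integrable (fun x => (hp x).toLp (g x)) μ) :
    Integrable (Function.uncurry g) (μ.prod P) := by
  rw [integrable_prod_iff hm.aestronglyMeasurable]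
  refine ⟨Eventually.of_forall fun x => (hp x).integrable Fact.out, ?_⟩
  refine hi.norm.mono' ?_ ?_
  · exact (hm.norm.integral_prod_right).aestronglyMeasurable
  · refine Eventually.of_forall fun x => ?_
    rw [Real.norm_of_nonneg (integral_nonneg fun _ => norm_nonneg _)]
    have := integral_norm_le_Lp ((hp x).toLp (g x))
    refine le_trans (le_of_eq ?_) this
    apply integral_congr_ae
    filter_upwards [(hp x).coeFn_toLp] with ω hω
    rw [hω]; rfl

/-- The Bochner integral of an `Lᵖ`-valued function agrees a.e. with the pointwise integral. -/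
lemma Lp_integral_coeFn {α : Type*} [MeasurableSpace α] {μ : Measure α} [SFinite μ]
    {p : ℝ≥0∞} [Fact (1 ≤ p)] {g : α → Ω → ℂ} (hm : StronglyMeasurable (Function.uncurry g))
    (hp : ∀ x, MemLp (g x) p P) (hi : Integrable (fun x => (hp x).toLp (g x)) μ) :
    (∫ x, (hp x).toLp (g x) ∂μ : Lp ℂ p P) =ᵐ[P] fun ω => ∫ x, g x ω ∂μ := by
  have hprod := Lp_integrable_prod hm hp hi
  apply Integrable.ae_eq_of_forall_setIntegral_eq
  · exact Lp_integrable _
  · exact hprod.integral_prod_right
  · intro s _ _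
    rw [← setIntCLM_apply, ← ContinuousLinearMap.integral_comp_comm _ hi]
    have h1 : ∀ x, setIntCLM P p s ((hp x).toLp (g x)) = ∫ ω in s, g x ω ∂P := by
      intro x
      rw [setIntCLM_apply]
      apply integral_congr_ae
      exact ae_restrict_of_ae (hp x).coeFn_toLp
    simp only [h1]
    have h2 : Integrable (Function.uncurry g) (μ.prod (P.restrict s)) := by
      refine hprod.mono_measure ?_
      exact Measure.prod_mono le_rfl Measure.restrict_le_self
    exact integral_integral_swap h2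

end

end Berry


end
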