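import Mathlib
import Pool.Agent.BWM.C01
import Pool.Agent.BWM.C03

/-! Parts: LibH11.Berry.Lap, LibH11.Berry.SL3, LibH11.Berry.Gns, Lib_helper67.QE.Moments, Lib_helper67.QE.DivCurl, Lib_helper67.QE.HypDefs, Lib_helper67.QE.WLimTools, Lib_helper67.QE.DivCurlGen -/

section

/-!
The Laplacian of the composition with a holomorphic map.
-/

open Complex Filter Topology InnerProductSpace Laplacian

namespace Berry

noncomputable section

/-- **conformal covariance of the Laplacian** -/
lemma laplacian_conformal {f : ℂ → ℝ} {h : ℂ → ℂ} {w : ℂ} (hf : ContDiffAt ℝ 2 f (h w))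
    (hh : AnalyticAt ℂ h w) :
    (Δ (fun z => f (h z))) w = ‖deriv h w‖ ^ 2 * (Δ f) (h w) := by
  have hev : ∀ᶠ z in 𝓝 w, AnalyticAt ℂ h z := hh.eventually_analyticAt
  have hfd : ∀ᶠ y in 𝓝 (h w), DifferentiableAt ℝ f y := by
    have h1 : ∀ᶠ y in 𝓝 (h w), ContDiffAt ℝ 2 f y := by
      have := hf.eventually (by norm_num)
      exact this
    exact h1.mono fun y hy => hy.differentiableAt (by norm_num)
  have hfd' : ∀ᶠ z in 𝓝 w, DifferentiableAt ℝ f (h z) := hh.continuousAt.eventually hfd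
  set M : ℂ → (ℂ →L[ℝ] ℂ) := fun z => ContinuousLinearMap.mul ℝ ℂ (deriv h z) with hM
  have hder : ∀ᶠ z in 𝓝 w, HasFDerivAt h (M z) z := by
    filter_upwards [hev] with z hz
    have h1 : HasDerivAt h (deriv h z) z := hz.differentiableAt.hasDerivAt
    have h2 := h1.hasFDerivAt.restrictScalars ℝ
    refine h2.congr_fderiv ?_
    ext v
    simp [hM, mul_comm]
  have hu1 : fderiv ℝ (fun z => f (h z)) =ᶠ[𝓝 w] fun z => (fderiv ℝ f (h z)).comp (M z) := by
    filter_upwards [hder, hfd'] with z hz hz2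
    exact (hz2.hasFDerivAt.comp z hz).fderiv
  -- second derivative
  have hL : HasFDerivAt (fun z => fderiv ℝ f (h z)) ((fderiv ℝ (fderiv ℝ f) (h w)).comp (M w)) w := by
    have h1 : DifferentiableAt ℝ (fderiv ℝ f) (h w) := by
      have h2 : ContDiffAt ℝ 1 (fderiv ℝ f) (h w) := hf.fderiv_right (by norm_num)
      exact h2.differentiableAt (by norm_num)
    exact h1.hasFDerivAt.comp w hder.self_of_nhds
  have hM' : HasFDerivAt M ((ContinuousLinearMap.mul ℝ ℂ).comp
      (ContinuousLinearMap.mul ℝ ℂ (deriv (deriv h) w))) w := by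
    have h1 : HasDerivAt (deriv h) (deriv (deriv h) w) w := hh.deriv.differentiableAt.hasDerivAt
    have h2 := h1.hasFDerivAt.restrictScalars ℝ
    have h3 : HasFDerivAt (deriv h) (ContinuousLinearMap.mul ℝ ℂ (deriv (deriv h) w)) w := by
      refine h2.congr_fderiv ?_
      ext v
      simp [mul_comm]
    exact (ContinuousLinearMap.mul ℝ ℂ).hasFDerivAt.comp w h3
  have hu2 := hL.clm_comp hM'
  have hval : ∀ v : ℂ, fderiv ℝ (fderiv ℝ (fun z => f (h z))) w v v
      = fderiv ℝ f (h w) (deriv (deriv h) w * v * v)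
        + fderiv ℝ (fderiv ℝ f) (h w) (deriv h w * v) (deriv h w * v) := by
    intro v
    rw [hu1.fderiv_eq, hu2.fderiv]
    simp [hM]
  rw [laplacian_eq_iteratedFDeriv_complexPlane, laplacian_eq_iteratedFDeriv_complexPlane]
  simp only [iteratedFDeriv_two_apply, Matrix.cons_val_zero, Matrix.cons_val_one]
  rw [hval 1, hval I]
  set D := fderiv ℝ (fderiv ℝ f) (h w) with hD
  set a := deriv h w with ha
  have e1 : fderiv ℝ f (h w) (deriv (deriv h) w * 1 * 1)
      + fderiv ℝ f (h w) (deriv (deriv h) w * I * I) = 0 := by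
    rw [← map_add]
    have : deriv (deriv h) w * 1 * 1 + deriv (deriv h) w * I * I = 0 := by
      have hI : I * I = -1 := I_mul_I
      linear_combination (deriv (deriv h) w) * hI
    rw [this, map_zero]
  have ea : a = a.re • (1:ℂ) + a.im • I := by
    simp only [real_smul, mul_one]
    exact (re_add_im a).symm
  have eb : a * I = (-a.im) • (1:ℂ) + a.re • I := by
    simp only [real_smul, mul_one]
    apply Complex.ext <;> simp
  have e2 : D (a * 1) (a * 1) + D (a * I) (a * I) = ‖a‖ ^ 2 * (D 1 1 + D I I) := by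
    rw [mul_one, eb]
    nth_rewrite 1 [ea]
    nth_rewrite 3 [ea]
    simp only [map_add, map_smul, ContinuousLinearMap.add_apply, ContinuousLinearMap.smul_apply,
      smul_eq_mul]
    have : ‖a‖ ^ 2 = a.re ^ 2 + a.im ^ 2 := by
      rw [← Complex.normSq_eq_norm_sq, Complex.normSq_apply]; ring
    rw [this]; ring
  linear_combination e1 + e2

end

end Berry


end

section

/-!
Unimodularity from a lattice, and the invariance of averages over points and frames.
-/

open UpperHalfPlane MeasureTheory ProbabilityTheory MatrixGroups Filter Topology Set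
open scoped ENNReal NNReal

namespace Berry

noncomputable section

variable [MeasurableSpace SL(2, ℝ)] [BorelSpace SL(2, ℝ)]

lemma proj_measurable : Measurable fun g : SL(2, ℝ) => g • I :=
  (continuous_id.smul continuous_const).measurable

lemma map_proj : Measure.map (fun g : SL(2, ℝ) => g • I) nuF
    = ENNReal.ofReal (2 * Real.pi) • (volume : Measure ℍ) := by
  ext S hS
  rw [Measure.map_apply proj_measurable hS, nuF_preimage hS, Measure.smul_apply, smul_eq_mul,
    mul_comm]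

lemma proj_qmp : Measure.QuasiMeasurePreserving (fun g : SL(2, ℝ) => g • I) nuF volume := by
  refine ⟨proj_measurable, ?_⟩
  rw [map_proj]
  exact Measure.smul_absolutelyContinuous

/-- the preimage of a fundamental domain in the group -/
def Fd (D : Set ℍ) : Set SL(2, ℝ) := (fun g : SL(2, ℝ) => g • I) ⁻¹' D

variable {Γ : Subgroup SL(2, ℝ)} {D : Set ℍ}

lemma fd_isFund (hD : IsFundamentalDomain Γ D (volume : Measure ℍ)) :
    IsFundamentalDomain Γ (Fd D) (nuF : Measure SL(2, ℝ)) :=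
  hD.preimage_of_equiv proj_qmp (e := id) Function.bijective_id fun γ g => by
    show (γ • g) • I = γ • (g • I)
    exact mul_smul (γ : SL(2, ℝ)) g I

lemma right_qmp (h : SL(2, ℝ)) :
    Measure.QuasiMeasurePreserving (fun g : SL(2, ℝ) => g * h) nuF nuF := by
  refine ⟨(continuous_mul_const h).measurable, ?_⟩
  rw [Measure.map_right_mul_eq_modularCharacterFun_smul nuF h]
  exact Measure.smul_absolutelyContinuous

lemma fd_right (hD : IsFundamentalDomain Γ D (volume : Measure ℍ)) (h : SL(2, ℝ)) :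
    IsFundamentalDomain Γ ((fun g : SL(2, ℝ) => g * h) ⁻¹' (Fd D)) (nuF : Measure SL(2, ℝ)) :=
  (fd_isFund hD).preimage_of_equiv (right_qmp h) (e := id) Function.bijective_id fun γ g => by
    show ((γ : SL(2, ℝ)) * g) * h = (γ : SL(2, ℝ)) * (g * h)
    rw [mul_assoc]

lemma nuF_fd (hDm : MeasurableSet D) :
    nuF (Fd D) = volume D * ENNReal.ofReal (2 * Real.pi) := nuF_preimage hDm

/-- right invariance, from a lattice -/
lemma nuF_right [Countable Γ] (hD : IsFundamentalDomain Γ D (volume : Measure ℍ))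
    (hDm : MeasurableSet D) (hfin : volume D ≠ ∞) (h : SL(2, ℝ)) :
    Measure.map (fun g : SL(2, ℝ) => g * h) nuF = nuF := by
  have h1 := Measure.map_right_mul_eq_modularCharacterFun_smul (nuF : Measure SL(2, ℝ)) h
  have hFm : MeasurableSet (Fd D) := proj_measurable hDm
  have h2 : nuF ((fun g : SL(2, ℝ) => g * h) ⁻¹' (Fd D)) = nuF (Fd D) :=
    (fd_right hD h).measure_eq (fd_isFund hD)
  rw [← Measure.map_apply (continuous_mul_const h).measurable hFm, h1, Measure.smul_apply] at h2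
  have hne : nuF (Fd D) ≠ 0 := by
    rw [nuF_fd hDm]
    refine mul_ne_zero ?_ ?_
    · refine hD.measure_ne_zero ?_
      intro h0
      have := volume_pos_of_isOpen isOpen_univ ⟨I, mem_univ I⟩
      rw [h0] at this
      simp at this
    · rw [Ne, ENNReal.ofReal_eq_zero, not_le]; positivity
  have hne' : nuF (Fd D) ≠ ∞ := by
    rw [nuF_fd hDm]
    exact ENNReal.mul_ne_top hfin ENNReal.ofReal_ne_top
  have h3 : (Measure.modularCharacterFun h : ℝ≥0∞) = 1 := by
    have h4 : (Measure.modularCharacterFun h : ℝ≥0∞) * nuF (Fd D) = 1 * nuF (Fd D) := by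
      rw [one_mul]; exact h2
    exact (ENNReal.mul_left_inj hne hne').1 h4
  rw [h1]
  have h5 : Measure.modularCharacterFun h = 1 := by exact_mod_cast h3
  rw [h5, one_smul]

lemma frameProb_eq (hDm : MeasurableSet D) : Measure.map frame (frameProb D)
    = ((volume D)⁻¹ * (ENNReal.ofReal (2 * Real.pi))⁻¹) • (nuF : Measure SL(2, ℝ)).restrict (Fd D) := by
  have hFm : MeasurableSet (Fd D) := proj_measurable hDm
  have e : frame ⁻¹' (Fd D) = D ×ˢ univ := by
    ext p
    simp [Fd, frame_smul_I]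
  unfold nuF
  rw [Measure.restrict_map frame_measurable hFm, e]
  unfold pf
  rw [← Measure.prod_restrict, Measure.restrict_univ, ← Measure.map_smul]
  congr 1
  unfold frameProb ProbabilityTheory.cond
  rw [Real.volume_Ioc, sub_zero, Measure.prod_smul_left, Measure.prod_smul_right, smul_smul]

/-- **invariance of the averages over points and frames** -/
lemma frame_invariant [Countable Γ] (hD : IsFundamentalDomain Γ D (volume : Measure ℍ))
    (hDm : MeasurableSet D) (hfin : volume D ≠ ∞) {f : SL(2, ℝ) → ℝ} (hf : Measurable f)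
    (hinv : ∀ γ ∈ Γ, ∀ g, f (γ * g) = f g) (h : SL(2, ℝ)) :
    ∫ p, f (frame p * h) ∂(frameProb D) = ∫ p, f (frame p) ∂(frameProb D) := by
  have hr : Measurable fun g : SL(2, ℝ) => g * h := (continuous_mul_const h).measurable
  have e1 : ∀ F : SL(2, ℝ) → ℝ, Measurable F → ∫ p, F (frame p) ∂(frameProb D)
      = ((volume D)⁻¹ * (ENNReal.ofReal (2 * Real.pi))⁻¹).toReal • ∫ g in Fd D, F g ∂nuF := by
    intro F hF
    rw [← integral_map frame_measurable.aemeasurable hF.aestronglyMeasurable,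
      frameProb_eq hDm, integral_smul_measure]
  rw [e1 (fun g => f (g * h)) (hf.comp hr), e1 f hf]
  congr 1
  have hmp : MeasurePreserving (fun g : SL(2, ℝ) => g * h) nuF nuF :=
    ⟨hr, nuF_right hD hDm hfin h⟩
  have hemb : MeasurableEmbedding fun g : SL(2, ℝ) => g * h :=
    (Homeomorph.mulRight h).measurableEmbedding
  have h1 := hmp.setIntegral_preimage_emb hemb f ((fun g : SL(2, ℝ) => g * h⁻¹) ⁻¹' (Fd D))
  have e2 : (fun g : SL(2, ℝ) => g * h) ⁻¹' ((fun g : SL(2, ℝ) => g * h⁻¹) ⁻¹' (Fd D)) = Fd D := by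
    ext g
    simp
  rw [e2] at h1
  rw [h1]
  exact (fd_right hD h⁻¹).setIntegral_eq (fd_isFund hD) fun γ g => hinv γ γ.2 g

end

end Berry


end

section

/-!
A real Hilbert space with prescribed Gram matrix.
-/

open MeasureTheory InnerProductSpace RKHS

namespace Berry

noncomputable section

theorem exists_hilbert {X : Type} (k : X → X → ℝ) (hsymm : ∀ x y, k x y = k y x)
    (hpsd : ∀ (s : Finset X) (c : X → ℝ), 0 ≤ ∑ x ∈ s, ∑ y ∈ s, c x * c y * k x y) :
    ∃ (H : Type) (_ : NormedAddCommGroup H) (_ : InnerProductSpace ℝ H) (_ : CompleteSpace H)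
      (e : X → H), ∀ x y, inner ℝ (e x) (e y) = k x y := by
  set K : Matrix X X (ℝ →L[ℝ] ℝ) := fun x y => k x y • ContinuousLinearMap.id ℝ ℝ with hK
  have hKapp : ∀ x y v, K x y v = k x y * v := by
    intro x y v; simp [hK]
  have hherm : K.IsHermitian := by
    ext x y
    rw [Matrix.conjTranspose_apply]
    have : K y x = K x y := by
      simp only [hK]; rw [hsymm]
    rw [this, ContinuousLinearMap.star_eq_adjoint]
    refine congrArg (fun T : ℝ →L[ℝ] ℝ => T 1) ?_
    refine ContinuousLinearMap.ext fun v => ?_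
    apply ext_inner_right ℝ
    intro w
    rw [ContinuousLinearMap.adjoint_inner_left, hKapp, hKapp]
    simp only [RCLike.inner_apply, conj_trivial]
    ring
  have hpos : K.PosSemidef := by
    apply (posSemidef_tfae.out 0 2).mpr
    refine ⟨hherm, fun vv => ?_⟩
    have h := hpsd vv.support (fun x => vv x)
    simp only [Finsupp.sum, hKapp]
    simp only [RCLike.inner_apply, conj_trivial, RCLike.re_to_real]
    refine le_of_le_of_eq h ?_
    refine Finset.sum_congr rfl fun x _ => Finset.sum_congr rfl fun y _ => ?_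
    rw [hsymm x y]; ring
  haveI : Fact K.PosSemidef := ⟨hpos⟩
  refine ⟨RKHS.OfKernel K, inferInstance, inferInstance, inferInstance,
    fun x => kerFun (RKHS.OfKernel K) x 1, fun x y => ?_⟩
  have h1 := kernel_inner (RKHS.OfKernel K) y x (1:ℝ) (1:ℝ)
  rw [RKHS.OfKernel.kernel_ofKernel] at h1
  rw [← h1, hKapp, hsymm]
  simp

end

end Berry


end

section

/-!
Weak limits of the products of two jets, and the currents.
-/

open Complex MeasureTheory Filter Topology
open scoped ContDiff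

namespace QE

noncomputable section

variable {U : Set ℂ} {h : ℕ → ℝ}

theorem Test.integral_congr {ζ f f' : ℂ → ℂ} (hζ : Test U ζ) (he : ∀ z ∈ U, f z = f' z) :
    ∫ z, ζ z * f z = ∫ z, ζ z * f' z := by
  refine MeasureTheory.integral_congr_ae (Filter.Eventually.of_forall fun z => ?_)
  by_cases hz : z ∈ U
  · show ζ z * f z = ζ z * f' z
    rw [he z hz]
  · have : ζ z = 0 := image_eq_zero_of_notMem_tsupport fun hh => hz (hζ.sub hh)
    show ζ z * f z = ζ z * f' z
    rw [this, zero_mul, zero_mul]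

theorem Test.int {ζ f : ℂ → ℂ} (hU : IsOpen U) (hζ : Test U ζ) (hf : ContDiffOn ℝ ∞ f U) :
    Integrable (fun z => ζ z * f z) := hζ.integrable_mul hU hf.continuousOn

theorem integral_add_four {f₁ f₂ f₃ f₄ : ℂ → ℂ} (h₁ : Integrable f₁) (h₂ : Integrable f₂)
    (h₃ : Integrable f₃) (h₄ : Integrable f₄) : ∫ z, (f₁ z + f₂ z + f₃ z + f₄ z)
      = (∫ z, f₁ z) + (∫ z, f₂ z) + (∫ z, f₃ z) + ∫ z, f₄ z := by
  have e1 : ∫ z, (f₁ z + f₂ z + f₃ z + f₄ z) = (∫ z, (f₁ z + f₂ z + f₃ z)) + ∫ z, f₄ z :=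
    integral_add ((h₁.add h₂).add h₃) h₄
  have e2 : ∫ z, (f₁ z + f₂ z + f₃ z) = (∫ z, (f₁ z + f₂ z)) + ∫ z, f₃ z :=
    integral_add (h₁.add h₂) h₃
  have e3 : ∫ z, (f₁ z + f₂ z) = (∫ z, f₁ z) + ∫ z, f₂ z := integral_add h₁ h₂
  rw [e1, e2, e3]

/-- the integral of a product of tame sequences, multiplied by `h`, tends to zero -/
theorem tendsto_h_int (hh0 : Tendsto h atTop (𝓝 0)) {u v : ℕ → ℂ → ℂ} (hu : Tame U h u)
    (hv : Tame U h v) {ζ : ℂ → ℂ} (hζ : Test U ζ) :
    Tendsto (fun n => (h n : ℂ) * ∫ z, ζ z * (u n z * v n z)) atTop (𝓝 0) := by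
  obtain ⟨C, hC⟩ := (hu.bdd4.mul4 hu.smooth hv.bdd4 hv.smooth).test (hu.smooth.mul hv.smooth) hζ
  have h1 : Tendsto (fun n => ‖((h n : ℝ) : ℂ)‖ * C) atTop (𝓝 0) := by
    have := ((continuous_ofReal.tendsto 0).comp hh0).norm.mul_const C
    simpa using this
  refine squeeze_zero_norm' ?_ h1
  filter_upwards [hC] with n hn
  rw [norm_mul]
  gcongr

namespace Setup

variable {a : ℂ → ℂ} {g : ℂ → ℂ} {φ : ℕ → ℂ → ℂ} (S : Setup U g a h φ)

include S

theorem dAt_E (m : ℤ) (n : ℕ) {z : ℂ} (hz : z ∈ U) : DifferentiableAt ℝ (E h a φ m n) z :=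
  (S.tame_E m).smooth.dAt S.op n hz

/-- the derivative of the product of two jets -/
theorem LL_prod (j m : ℤ) : ∃ w v : ℕ → ℂ → ℂ, Tame U h w ∧ Tame U h v ∧ ∀ n, ∀ z ∈ U,
    -(2 * I * h n) * a z * dz (fun z => E h a φ j n z * E h a φ m n z) z
      = E h a φ (j + 1) n z * E h a φ m n z + E h a φ j n z * E h a φ (m + 1) n z
        + (h n : ℂ) * (w n z * E h a φ m n z + E h a φ j n z * v n z) := by
  obtain ⟨w, hw, hw'⟩ := S.LL_E j
  obtain ⟨v, hv, hv'⟩ := S.LL_E m
  refine ⟨w, v, hw, hv, fun n z hz => ?_⟩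
  rw [dz_mul (S.dAt_E j n hz) (S.dAt_E m n hz)]
  have e1 := hw' n z hz
  have e2 := hv' n z hz
  unfold LL at e1 e2
  linear_combination E h a φ m n z * e1 + E h a φ j n z * e2

theorem LLb_prod (j m : ℤ) : ∃ w v : ℕ → ℂ → ℂ, Tame U h w ∧ Tame U h v ∧ ∀ n, ∀ z ∈ U,
    -(2 * I * h n) * a z * dzb (fun z => E h a φ j n z * E h a φ m n z) z
      = E h a φ (j - 1) n z * E h a φ m n z + E h a φ j n z * E h a φ (m - 1) n z
        + (h n : ℂ) * (w n z * E h a φ m n z + E h a φ j n z * v n z) := by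
  obtain ⟨w, hw, hw'⟩ := S.LLb_E j
  obtain ⟨v, hv, hv'⟩ := S.LLb_E m
  refine ⟨w, v, hw, hv, fun n z hz => ?_⟩
  rw [dzb_mul (S.dAt_E j n hz) (S.dAt_E m n hz)]
  have e1 := hw' n z hz
  have e2 := hv' n z hz
  unfold LLb at e1 e2
  linear_combination E h a φ m n z * e1 + E h a φ j n z * e2

/-- `∫ ζ (E_{j+1} E_m + E_j E_{m+1}) → 0` -/
theorem int_add (j m : ℤ) {ζ : ℂ → ℂ} (hζ : Test U ζ) :
    Tendsto (fun n => (∫ z, ζ z * (E h a φ (j + 1) n z * E h a φ m n z))
      + ∫ z, ζ z * (E h a φ j n z * E h a φ (m + 1) n z)) atTop (𝓝 0) := by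
  obtain ⟨w, v, hw, hv, he⟩ := S.LL_prod j m
  have hE := fun j => (S.tame_E j)
  have hζa : Test U (dz (fun z => ζ z * a z)) := (hζ.mul S.op S.ha).dz
  have t1 := (tendsto_h_int S.hlim (hE j) (hE m) hζa).const_mul (2 * I)
  have t2 := tendsto_h_int S.hlim hw (hE m) hζ
  have t3 := tendsto_h_int S.hlim (hE j) hv hζ
  have t4 := (t1.sub t2).sub t3
  rw [mul_zero, sub_zero, sub_zero] at t4
  refine t4.congr fun n => ?_
  have i1 : Integrable (fun z => ζ z * (E h a φ (j + 1) n z * E h a φ m n z)) :=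
    hζ.int S.op (((hE (j+1)).smooth.mul (hE m).smooth) n)
  have i2 : Integrable (fun z => ζ z * (E h a φ j n z * E h a φ (m + 1) n z)) :=
    hζ.int S.op (((hE j).smooth.mul (hE (m+1)).smooth) n)
  have i3 : Integrable (fun z => ζ z * (w n z * E h a φ m n z)) :=
    hζ.int S.op ((hw.smooth.mul (hE m).smooth) n)
  have i4 : Integrable (fun z => ζ z * (E h a φ j n z * v n z)) :=
    hζ.int S.op (((hE j).smooth.mul hv.smooth) n)
  have e0 : ∫ z, (ζ z * a z) * dz (fun z => E h a φ j n z * E h a φ m n z) z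
      = - ∫ z, dz (fun z => ζ z * a z) z * (E h a φ j n z * E h a φ m n z) :=
    integral_mul_dz S.op (hζ.mul S.op S.ha) (((hE j).smooth.mul (hE m).smooth) n)
  have e1 : -(2 * I * h n) * ∫ z, (ζ z * a z) * dz (fun z => E h a φ j n z * E h a φ m n z) z
      = ∫ z, (ζ z * (E h a φ (j + 1) n z * E h a φ m n z)
        + ζ z * (E h a φ j n z * E h a φ (m + 1) n z)
        + (h n : ℂ) * (ζ z * (w n z * E h a φ m n z)) + (h n : ℂ) * (ζ z * (E h a φ j n z * v n z))) := by
    have e2 := hζ.integral_congr (f := fun z => -(2 * I * h n) * a z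
      * dz (fun z => E h a φ j n z * E h a φ m n z) z) (f' := fun z => E h a φ (j + 1) n z
      * E h a φ m n z + E h a φ j n z * E h a φ (m + 1) n z
        + (h n : ℂ) * (w n z * E h a φ m n z + E h a φ j n z * v n z)) (he n)
    rw [← integral_const_mul]
    refine Eq.trans ?_ (e2.trans ?_)
    · refine MeasureTheory.integral_congr_ae (Filter.Eventually.of_forall fun z => ?_)
      beta_reduce; ring
    · refine MeasureTheory.integral_congr_ae (Filter.Eventually.of_forall fun z => ?_)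
      beta_reduce; ring
  have i3' := i3.const_mul (h n : ℂ)
  have i4' := i4.const_mul (h n : ℂ)
  have e5 : ∫ z, (ζ z * (E h a φ (j + 1) n z * E h a φ m n z)
        + ζ z * (E h a φ j n z * E h a φ (m + 1) n z)
        + (h n : ℂ) * (ζ z * (w n z * E h a φ m n z)) + (h n : ℂ) * (ζ z * (E h a φ j n z * v n z)))
      = (∫ z, ζ z * (E h a φ (j + 1) n z * E h a φ m n z))
        + (∫ z, ζ z * (E h a φ j n z * E h a φ (m + 1) n z))
        + (h n : ℂ) * (∫ z, ζ z * (w n z * E h a φ m n z))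
        + (h n : ℂ) * (∫ z, ζ z * (E h a φ j n z * v n z)) := by
    rw [← integral_const_mul, ← integral_const_mul]
    exact integral_add_four i1 i2 i3' i4'
  rw [e5, e0] at e1
  linear_combination e1

/-- the two-point function -/
theorem int_two (h0 : ∀ ζ : ℂ → ℂ, Test U ζ →
      Tendsto (fun n => ∫ z, ζ z * (E h a φ 0 n z * E h a φ 0 n z)) atTop (𝓝 (∫ z, ζ z)))
    (h1 : ∀ k : ℕ, 1 ≤ k → ∀ ζ : ℂ → ℂ, Test U ζ →
      Tendsto (fun n => ∫ z, ζ z * (E h a φ 0 n z * E h a φ k n z)) atTop (𝓝 0))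
    (j m : ℤ) {ζ : ℂ → ℂ} (hζ : Test U ζ) :
    Tendsto (fun n => ∫ z, ζ z * (E h a φ j n z * E h a φ m n z)) atTop
      (𝓝 ((if j + m = 0 then (-1 : ℂ) ^ j else 0) * ∫ z, ζ z)) := by
  -- the case `j = 0`
  have base : ∀ m : ℤ, Tendsto (fun n => ∫ z, ζ z * (E h a φ 0 n z * E h a φ m n z)) atTop
      (𝓝 ((if 0 + m = 0 then (-1 : ℂ) ^ (0 : ℤ) else 0) * ∫ z, ζ z)) := by
    intro m
    cases m with
    | ofNat m =>
      cases m with
      | zero =>
        have := h0 ζ hζ
        simpa using this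
      | succ m =>
        have h2 := h1 (m + 1) (by omega) ζ hζ
        have h3 : ¬ ((0 : ℤ) + Int.ofNat (m + 1) = 0) := by
          rw [zero_add]; exact Int.ofNat_ne_zero.2 (Nat.succ_ne_zero m)
        rw [if_neg h3, zero_mul]
        exact h2
    | negSucc m =>
      have h2 := h1 (m + 1) (by omega) _ hζ.conj
      have h3 : ¬ ((0 : ℤ) + Int.negSucc m = 0) := by
        rw [zero_add]; exact Int.negSucc_ne_zero m
      rw [if_neg h3, zero_mul]
      have h4 := ((continuous_conj.tendsto 0).comp h2).const_mul ((-1 : ℂ) ^ (m + 1))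
      rw [map_zero, mul_zero] at h4
      refine h4.congr fun n => ?_
      simp only [Function.comp_apply]
      rw [← integral_conj, ← integral_const_mul]
      have e2 := hζ.integral_congr (f := fun z => (-1 : ℂ) ^ (m + 1) * (E h a φ 0 n z
        * (starRingEnd ℂ) (jet h a φ (m + 1) n z)))
        (f' := fun z => E h a φ 0 n z * E h a φ (Int.negSucc m) n z) (fun z _ => by
          show _ = E h a φ 0 n z * ((-1) ^ (m + 1) * (starRingEnd ℂ) (jet h a φ (m + 1) n z))
          ring)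
      rw [← e2]
      have e3 := hζ.integral_congr (f := fun z => (-1 : ℂ) ^ (m + 1) * (E h a φ 0 n z
        * (starRingEnd ℂ) (jet h a φ (m + 1) n z)))
        (f' := fun z => (-1 : ℂ) ^ (m + 1) * ((starRingEnd ℂ) (E h a φ 0 n z)
        * (starRingEnd ℂ) (E h a φ ((m + 1 : ℕ) : ℤ) n z))) (fun z hz => by
          have : (starRingEnd ℂ) (E h a φ 0 n z) = E h a φ 0 n z := S.real n z hz
          rw [this]
          rfl)
      rw [e3]
      refine MeasureTheory.integral_congr_ae (Filter.Eventually.of_forall fun z => ?_)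
      beta_reduce
      simp only [map_mul, starRingEnd_self_apply]
      ring
  -- induction on `j`
  have up : ∀ j : ℤ, (∀ m : ℤ, Tendsto (fun n => ∫ z, ζ z * (E h a φ j n z * E h a φ m n z)) atTop
      (𝓝 ((if j + m = 0 then (-1 : ℂ) ^ j else 0) * ∫ z, ζ z))) →
      ∀ m : ℤ, Tendsto (fun n => ∫ z, ζ z * (E h a φ (j + 1) n z * E h a φ m n z)) atTop
      (𝓝 ((if (j + 1) + m = 0 then (-1 : ℂ) ^ (j + 1) else 0) * ∫ z, ζ z)) := by
    intro j hj m
    have h2 := (S.int_add j m hζ).sub (hj (m + 1))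
    have e1 : (0 : ℂ) - (if j + (m + 1) = 0 then (-1 : ℂ) ^ j else 0) * ∫ z, ζ z
        = (if (j + 1) + m = 0 then (-1 : ℂ) ^ (j + 1) else 0) * ∫ z, ζ z := by
      have : (j + (m + 1) = 0) ↔ ((j + 1) + m = 0) := by constructor <;> intro h <;> linarith
      simp only [this]
      split_ifs
      · rw [zpow_add_one₀ (by norm_num)]; ring
      · ring
    rw [e1] at h2
    refine h2.congr fun n => ?_
    ring
  have down : ∀ j : ℤ, (∀ m : ℤ, Tendsto (fun n => ∫ z, ζ z * (E h a φ j n z * E h a φ m n z)) atTop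
      (𝓝 ((if j + m = 0 then (-1 : ℂ) ^ j else 0) * ∫ z, ζ z))) →
      ∀ m : ℤ, Tendsto (fun n => ∫ z, ζ z * (E h a φ (j - 1) n z * E h a φ m n z)) atTop
      (𝓝 ((if (j - 1) + m = 0 then (-1 : ℂ) ^ (j - 1) else 0) * ∫ z, ζ z)) := by
    intro j hj m
    have h2 := (S.int_add (j - 1) (m - 1) hζ).sub (hj (m - 1))
    have e1 : (0 : ℂ) - (if j + (m - 1) = 0 then (-1 : ℂ) ^ j else 0) * ∫ z, ζ z
        = (if (j - 1) + m = 0 then (-1 : ℂ) ^ (j - 1) else 0) * ∫ z, ζ z := by
      have : (j + (m - 1) = 0) ↔ ((j - 1) + m = 0) := by constructor <;> intro h <;> linarith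
      simp only [this]
      split_ifs
      · rw [zpow_sub_one₀ (by norm_num)]; ring
      · ring
    rw [e1] at h2
    refine h2.congr fun n => ?_
    have e2 : j - 1 + 1 = j := by ring
    have e3 : m - 1 + 1 = m := by ring
    rw [e2, e3]
    ring
  have key : ∀ j : ℤ, ∀ m : ℤ, Tendsto (fun n => ∫ z, ζ z * (E h a φ j n z * E h a φ m n z)) atTop
      (𝓝 ((if j + m = 0 then (-1 : ℂ) ^ j else 0) * ∫ z, ζ z)) := by
    intro j
    induction j using Int.induction_on with
    | zero => exact base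
    | succ i ih => exact up _ ih
    | pred i ih => exact down _ ih
  exact key j m

/-- the currents have bounded divergence -/
theorem div_bdd (j m : ℤ) : LBdd 2 U (fun n z => dz (fun z => E h a φ j n z * E h a φ m n z) z
    + dzb (fun z => -(E h a φ (j + 1) n z * E h a φ (m + 1) n z)) z) := by
  obtain ⟨w, v, hw, hv, he⟩ := S.LL_prod j m
  obtain ⟨w', v', hw', hv', he'⟩ := S.LLb_prod (j + 1) (m + 1)
  have hE := fun j => (S.tame_E j)
  have b1 := hw.bdd4.mul4 hw.smooth (hE m).bdd4 (hE m).smooth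
  have b2 := (hE j).bdd4.mul4 (hE j).smooth hv.bdd4 hv.smooth
  have b3 := hw'.bdd4.mul4 hw'.smooth (hE (m + 1)).bdd4 (hE (m + 1)).smooth
  have b4 := (hE (j + 1)).bdd4.mul4 (hE (j + 1)).smooth hv'.bdd4 hv'.smooth
  have s1 := hw.smooth.mul (hE m).smooth
  have s2 := (hE j).smooth.mul hv.smooth
  have s3 := hw'.smooth.mul (hE (m + 1)).smooth
  have s4 := (hE (j + 1)).smooth.mul hv'.smooth
  have b5 := ((b1.add s1 b2 s2).sub (s1.add s2) (b3.add s3 b4 s4) (s3.add s4))
  have s5 := (s1.add s2).sub (s3.add s4)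
  have hga : ContDiffOn ℝ ∞ (fun z => I / 2 * (g z * a z)) U := contDiffOn_const.mul (S.hg.mul S.ha)
  refine (b5.fn_mul s5 hga).congr fun n z hz => ?_
  have hd : DifferentiableAt ℝ (fun z => E h a φ (j + 1) n z * E h a φ (m + 1) n z) z :=
    (S.dAt_E (j + 1) n hz).fun_mul (S.dAt_E (m + 1) n hz)
  have e3 : dzb (fun z => -(E h a φ (j + 1) n z * E h a φ (m + 1) n z)) z
      = - dzb (fun z => E h a φ (j + 1) n z * E h a φ (m + 1) n z) z := by
    have := dzb_const_mul (-1) hd
    rw [neg_one_mul] at this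
    rw [← this]
    congr 1
    funext w; ring
  have e1 := he n z hz
  have e2 := he' n z hz
  rw [add_sub_cancel_right, add_sub_cancel_right] at e2
  rw [e3]
  have hh : ((h n : ℝ) : ℂ) ≠ 0 := ofReal_ne_zero.2 (S.hpos n).ne'
  have hag := S.ag z hz
  have ha0 : a z ≠ 0 := by
    intro h0
    rw [h0] at hag
    simp at hag
  have hI : I ^ 2 = -1 := I_sq
  have hne : -(2 * I * h n) * a z ≠ 0 := by
    refine mul_ne_zero (neg_ne_zero.2 (mul_ne_zero (mul_ne_zero two_ne_zero I_ne_zero) hh)) ha0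
  apply mul_left_cancel₀ hne
  set X := dz (fun z => E h a φ j n z * E h a φ m n z) z
  set Y := dzb (fun z => E h a φ (j + 1) n z * E h a φ (m + 1) n z) z
  set Q := w n z * E h a φ m n z + E h a φ j n z * v n z
    - (w' n z * E h a φ (m + 1) n z + E h a φ (j + 1) n z * v' n z) with hQ
  have e4 : -(2 * I * h n) * a z * (X + -Y) = (h n : ℂ) * Q := by
    rw [hQ]
    linear_combination e1 - e2
  rw [e4]
  linear_combination (-(h n : ℂ) * Q * (a z ^ 2 * g z)) * hI + (h n : ℂ) * Q * hag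

/-- conversion of the derivatives -/
theorem tame_D (k : ℕ) : Tame U h (fun n z => (h n : ℂ) ^ k * dz^[k] (φ n) z) := by
  induction k with
  | zero => exact S.tame.congr S.op fun n z _ => by simp
  | succ k ih =>
    have hs : ∀ n, ContDiffOn ℝ ∞ (dz^[k] (φ n)) U := by
      intro n
      clear ih
      induction k with
      | zero => exact S.tame.smooth n
      | succ k ih => rw [Function.iterate_succ_apply']; exact contDiffOn_dz S.op ih
    refine (ih.hdz S.op).congr S.op fun n z hz => ?_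
    rw [dz_const_mul _ (((hs n).contDiffAt (S.op.mem_nhds hz)).differentiableAt (by simp)),
      Function.iterate_succ_apply']
    ring

theorem smooth_iter (k n : ℕ) : ContDiffOn ℝ ∞ (dz^[k] (φ n)) U := by
  induction k with
  | zero => exact S.tame.smooth n
  | succ k ih => rw [Function.iterate_succ_apply']; exact contDiffOn_dz S.op ih

theorem jet_near (k : ℕ) : Near U h (jet h a φ k)
    (fun n z => (-(2 * I)) ^ k * (a z ^ k * ((h n : ℂ) ^ k * dz^[k] (φ n) z))) := by
  induction k with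
  | zero =>
    refine Near.of_eq S.op fun n z _ => ?_
    show φ n z = _
    simp
  | succ k ih =>
    have hs : Tame U h (fun n z => (-(2 * I)) ^ k * (a z ^ k * ((h n : ℂ) ^ k * dz^[k] (φ n) z))) :=
      ((S.tame_D k).fn_mul S.op S.hlim (S.ha.pow k)).smul S.op _
    have h1 := ih.LL S.op S.hlim S.ha hs.smooth
    refine Near.trans S.op h1 ?_
    have hak := contDiffOn_dz S.op (S.ha.pow k)
    have t := ((S.tame_D k).fn_mul S.op S.hlim (S.ha.mul hak)).smul S.op ((-(2 * I)) ^ (k + 1))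
    refine ⟨_, t, fun n z hz => ?_⟩
    have hda : DifferentiableAt ℝ (fun z => a z ^ k) z :=
      ((S.ha.pow k).contDiffAt (S.op.mem_nhds hz)).differentiableAt (by simp)
    have hdD : DifferentiableAt ℝ (fun z => (h n : ℂ) ^ k * dz^[k] (φ n) z) z :=
      (S.tame_D k).smooth.dAt S.op n hz
    have hdd : DifferentiableAt ℝ (dz^[k] (φ n)) z :=
      ((S.smooth_iter k n).contDiffAt (S.op.mem_nhds hz)).differentiableAt (by simp)
    unfold LL
    beta_reduce
    rw [dz_const_mul _ (hda.fun_mul hdD), dz_mul hda hdD, dz_const_mul _ hdd,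
      Function.iterate_succ_apply']
    ring

/-- the hypotheses of quantum ergodicity in terms of the jets -/
theorem mom_jet {k : ℕ} (hmom : ∀ ζ : ℂ → ℂ, Test U ζ →
      Tendsto (fun n => ∫ z, ζ z * (φ n z * ((h n : ℂ) ^ k * dz^[k] (φ n) z))) atTop (𝓝 0))
    {ζ : ℂ → ℂ} (hζ : Test U ζ) :
    Tendsto (fun n => ∫ z, ζ z * (E h a φ 0 n z * E h a φ k n z)) atTop (𝓝 0) := by
  obtain ⟨w, hw, hw'⟩ := S.jet_near k
  have t1 := (hmom _ (hζ.mul S.op (S.ha.pow k))).const_mul ((-(2 * I)) ^ k)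
  have t2 := tendsto_h_int S.hlim S.tame hw hζ
  have t3 := t1.add t2
  rw [mul_zero, zero_add] at t3
  refine t3.congr fun n => ?_
  have i1 : Integrable (fun z => (ζ z * a z ^ k) * (φ n z * ((h n : ℂ) ^ k * dz^[k] (φ n) z))) :=
    (hζ.mul S.op (S.ha.pow k)).int S.op ((S.tame.smooth.mul (S.tame_D k).smooth) n)
  have i2 : Integrable (fun z => ζ z * (φ n z * w n z)) :=
    hζ.int S.op ((S.tame.smooth.mul hw.smooth) n)
  have e := hζ.integral_congr (f := fun z => E h a φ 0 n z * E h a φ k n z)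
    (f' := fun z => φ n z * ((-(2 * I)) ^ k * (a z ^ k * ((h n : ℂ) ^ k * dz^[k] (φ n) z))
      + (h n : ℂ) * w n z)) (fun z hz => by
        have : E h a φ k n z = jet h a φ k n z := rfl
        rw [this, hw' n z hz]
        rfl)
  rw [e, ← integral_const_mul, ← integral_const_mul, ← integral_add (i1.const_mul _)
    (i2.const_mul _)]
  refine MeasureTheory.integral_congr_ae (Filter.Eventually.of_forall fun z => ?_)
  beta_reduce
  ring

end Setup

end

end QE


end

section

/-!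
The div-curl lemma for sequences of smooth functions in the plane (helper70).
-/

open Complex MeasureTheory Filter Topology
open scoped ContDiff

namespace QE

noncomputable section

theorem Test.zero_of_notMem {U : Set ℂ} {ζ : ℂ → ℂ} (h : Test U ζ) {z : ℂ} (hz : z ∉ U) :
    ζ z = 0 ∧ QE.dz ζ z = 0 ∧ QE.dzb ζ z = 0 :=
  ⟨image_eq_zero_of_notMem_tsupport fun hh => hz (h.sub hh),
    image_eq_zero_of_notMem_tsupport fun hh => hz (Test.sub (Test.dz h) hh),
    image_eq_zero_of_notMem_tsupport fun hh => hz (Test.sub (Test.dzb h) hh)⟩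

/-- product rule, everywhere -/
theorem Test.dz_mul_apply {U : Set ℂ} (hU : IsOpen U) {ζ f : ℂ → ℂ} (h : Test U ζ)
    (hf : ContDiffOn ℝ ∞ f U) (z : ℂ) :
    QE.dz (fun z => ζ z * f z) z = QE.dz ζ z * f z + ζ z * QE.dz f z := by
  by_cases hz : z ∈ U
  · exact QE.dz_mul (h.smooth.differentiable (by simp) z)
      ((hf.contDiffAt (hU.mem_nhds hz)).differentiableAt (by simp))
  · obtain ⟨h1, h2, _⟩ := h.zero_of_notMem hz
    have h3 := ((h.mul hU hf).zero_of_notMem hz).2.1
    rw [h3, h1, h2]; simp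

theorem Test.dzb_mul_apply {U : Set ℂ} (hU : IsOpen U) {ζ f : ℂ → ℂ} (h : Test U ζ)
    (hf : ContDiffOn ℝ ∞ f U) (z : ℂ) :
    QE.dzb (fun z => ζ z * f z) z = QE.dzb ζ z * f z + ζ z * QE.dzb f z := by
  by_cases hz : z ∈ U
  · exact QE.dzb_mul (h.smooth.differentiable (by simp) z)
      ((hf.contDiffAt (hU.mem_nhds hz)).differentiableAt (by simp))
  · obtain ⟨h1, _, h2⟩ := h.zero_of_notMem hz
    have h3 := ((h.mul hU hf).zero_of_notMem hz).2.2
    rw [h3, h1, h2]; simp

/-- strong convergence to zero against a bounded sequence -/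
theorem pair_tendsto {U : Set ℂ} {η : ℂ → ℂ} (hη : Test U η) {g u : ℕ → ℂ → ℂ}
    (sg : SmoothSeq U g) (su : SmoothSeq U u)
    (hg : Tendsto (fun n => ∫ z in tsupport η, ‖g n z‖ ^ 2) atTop (𝓝 0)) (bu : LBdd 2 U u) :
    Tendsto (fun n => ∫ z, η z * (g n z * u n z)) atTop (𝓝 0) := by
  have hKc : IsCompact (tsupport η) := hη.supp
  obtain ⟨C, hC⟩ := bu _ hKc hη.sub
  obtain ⟨B, hB⟩ := hη.smooth.continuous.bounded_above_of_compact_support hη.supp
  have hB0 : 0 ≤ B := (norm_nonneg _).trans (hB 0)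
  have hC0 : 0 ≤ C := by
    obtain ⟨n, hn⟩ := hC.exists
    exact (integral_nonneg fun z => by positivity).trans hn
  rw [Metric.tendsto_atTop]
  intro ε hε
  -- weight
  obtain ⟨δ, hδ, hδe⟩ : ∃ δ : ℝ, 0 < δ ∧ B * (δ * C) < ε / 2 := by
    refine ⟨ε / (4 * (B * C + 1)), by positivity, ?_⟩
    rw [show B * (ε / (4 * (B * C + 1)) * C) = ε * (B * C / (4 * (B * C + 1))) by ring]
    have : B * C / (4 * (B * C + 1)) < 1 / 2 := by
      rw [div_lt_div_iff₀ (by positivity) (by norm_num)]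
      nlinarith [mul_nonneg hB0 hC0]
    nlinarith
  have hg' : ∀ᶠ n in atTop, B * (δ⁻¹ * ∫ z in tsupport η, ‖g n z‖ ^ 2) < ε / 2 := by
    have h1 : Tendsto (fun n => B * (δ⁻¹ * ∫ z in tsupport η, ‖g n z‖ ^ 2)) atTop
        (𝓝 (B * (δ⁻¹ * 0))) := (hg.const_mul _).const_mul _
    have h2 : B * (δ⁻¹ * 0) < ε / 2 := by simp only [mul_zero]; linarith
    exact h1.eventually (gt_mem_nhds h2)
  have hmain : ∀ᶠ n in atTop, ‖∫ z, η z * (g n z * u n z)‖ < ε := by
    filter_upwards [hC, hg'] with n hn hgn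
    have e : ∫ z, η z * (g n z * u n z) = ∫ z in tsupport η, η z * (g n z * u n z) := by
      rw [setIntegral_eq_integral_of_forall_compl_eq_zero]
      intro z hz
      rw [image_eq_zero_of_notMem_tsupport hz, zero_mul]
    rw [e]
    have hi : IntegrableOn (fun z => ‖u n z‖ ^ 2) (tsupport η) := su.intOn hKc hη.sub 2 n
    have hj : IntegrableOn (fun z => ‖g n z‖ ^ 2) (tsupport η) := sg.intOn hKc hη.sub 2 n
    calc ‖∫ z in tsupport η, η z * (g n z * u n z)‖
        ≤ ∫ z in tsupport η, ‖η z * (g n z * u n z)‖ := norm_integral_le_integral_norm _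
      _ ≤ ∫ z in tsupport η, B * (δ⁻¹ * ‖g n z‖ ^ 2 + δ * ‖u n z‖ ^ 2) := by
          refine integral_mono_of_nonneg (Filter.Eventually.of_forall fun z => norm_nonneg _)
            (((hj.const_mul _).add (hi.const_mul _)).const_mul B)
            (Filter.Eventually.of_forall fun z => ?_)
          simp only [norm_mul]
          refine mul_le_mul (hB z) ?_ (by positivity) hB0
          have hx : 0 ≤ ‖g n z‖ := norm_nonneg _
          have hy : 0 ≤ ‖u n z‖ := norm_nonneg _
          have hid : δ⁻¹ * ‖g n z‖ ^ 2 + δ * ‖u n z‖ ^ 2 - 2 * (‖g n z‖ * ‖u n z‖)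
              = δ⁻¹ * (‖g n z‖ - δ * ‖u n z‖) ^ 2 := by
            field_simp
            ring
          have : 0 ≤ δ⁻¹ * (‖g n z‖ - δ * ‖u n z‖) ^ 2 := by (clear * - hδ; positivity)
          linarith only [hid, this, mul_nonneg hx hy]
      _ = B * (δ⁻¹ * (∫ z in tsupport η, ‖g n z‖ ^ 2) + δ * ∫ z in tsupport η, ‖u n z‖ ^ 2) := by
          rw [integral_const_mul, integral_add (hj.const_mul _) (hi.const_mul _),
            integral_const_mul, integral_const_mul]
      _ ≤ B * (δ⁻¹ * (∫ z in tsupport η, ‖g n z‖ ^ 2) + δ * C) := by (clear * - hn hδ hB0; gcongr)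
      _ < ε := by rw [mul_add]; linarith
  obtain ⟨N, hN⟩ := eventually_atTop.mp hmain
  exact ⟨N, fun n hn => by rw [dist_zero_right]; exact hN n hn⟩

/-- the div-curl lemma when the first field tends weakly to zero -/
theorem div_curl_zero {U : Set ℂ} (hU : IsOpen U) {A B A' B' : ℕ → ℂ → ℂ}
    (sA : SmoothSeq U A) (sB : SmoothSeq U B) (sA' : SmoothSeq U A') (sB' : SmoothSeq U B')
    (bA : LBdd 2 U A) (bB : LBdd 2 U B) (bA' : LBdd 2 U A') (bB' : LBdd 2 U B')
    (bR : LBdd 2 U (fun n z => dz (A n) z + dzb (B n) z))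
    (bR' : LBdd 2 U (fun n z => dz (A' n) z + dzb (B' n) z))
    (wA : ∀ ζ, Test U ζ → Tendsto (fun n => ∫ w, ζ w * A n w) atTop (𝓝 0))
    (wB : ∀ ζ, Test U ζ → Tendsto (fun n => ∫ w, ζ w * B n w) atTop (𝓝 0))
    {ζ : ℂ → ℂ} (hζ : Test U ζ) :
    Tendsto (fun n => ∫ w, ζ w * (A n w * B' n w - B n w * A' n w)) atTop (𝓝 0) := by
  obtain ⟨χ, hχ, hχ1, -⟩ := exists_cutoff hU (hζ.supp : IsCompact (tsupport ζ)) hζ.sub
  set L := tsupport χ with hL
  have hLc : IsCompact L := hχ.supp
  have sR : SmoothSeq U (fun n z => dz (A n) z + dzb (B n) z) := (sA.dz hU).add (sB.dzb hU)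
  have sR' : SmoothSeq U (fun n z => dz (A' n) z + dzb (B' n) z) := (sA'.dz hU).add (sB'.dzb hU)
  have tA : ∀ n, Test U (fun z => χ z * A n z) := fun n => hχ.mul hU (sA n)
  have tB : ∀ n, Test U (fun z => χ z * B n z) := fun n => hχ.mul hU (sB n)
  -- the source term
  set f : ℕ → ℂ → ℂ := fun n z => dz χ z * A n z + dzb χ z * B n z
    + χ z * (dz (A n) z + dzb (B n) z) with hf
  have t1 : ∀ n, Test U (fun z => dz χ z * A n z) := fun n => hχ.dz.mul hU (sA n)
  have t2 : ∀ n, Test U (fun z => dzb χ z * B n z) := fun n => hχ.dzb.mul hU (sB n)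
  have t3 : ∀ n, Test U (fun z => χ z * (dz (A n) z + dzb (B n) z)) := fun n => hχ.mul hU (sR n)
  have hfs : ∀ n, ContDiff ℝ ∞ (f n) := fun n =>
    ((t1 n).smooth.add (t2 n).smooth).add (t3 n).smooth
  have hfz : ∀ n z, z ∉ L → f n z = 0 := by
    intro n z hz
    have h1 : χ z = 0 := image_eq_zero_of_notMem_tsupport hz
    have h2 : dz χ z = 0 := image_eq_zero_of_notMem_tsupport fun hh => hz (tsupport_dz_subset χ hh)
    have h3 : dzb χ z = 0 := image_eq_zero_of_notMem_tsupport fun hh => hz (tsupport_dzb_subset χ hh)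
    simp only [hf, h1, h2, h3]; ring
  have hfsupp : ∀ n, tsupport (f n) ⊆ L := fun n => by
    refine closure_minimal ?_ (isClosed_tsupport χ)
    intro z hz
    by_contra h
    exact hz (hfz n z h)
  have hfc : ∀ n, HasCompactSupport (f n) := fun n =>
    hLc.of_isClosed_subset (isClosed_tsupport _) (hfsupp n)
  have sf : SmoothSeq U f := fun n => (hfs n).contDiffOn
  have bf : LBdd 2 U f := by
    have u1 : LBdd 2 U (fun n z => dz χ z * A n z) := bA.fn_mul sA (contDiff_dz hχ.smooth).contDiffOn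
    have u2 : LBdd 2 U (fun n z => dzb χ z * B n z) :=
      bB.fn_mul sB (contDiff_dzb hχ.smooth).contDiffOn
    have u3 : LBdd 2 U (fun n z => χ z * (dz (A n) z + dzb (B n) z)) :=
      bR.fn_mul sR hχ.smooth.contDiffOn
    have s1 : SmoothSeq U (fun n z => dz χ z * A n z) := fun n => (t1 n).smooth.contDiffOn
    have s2 : SmoothSeq U (fun n z => dzb χ z * B n z) := fun n => (t2 n).smooth.contDiffOn
    have s3 : SmoothSeq U (fun n z => χ z * (dz (A n) z + dzb (B n) z)) :=
      fun n => (t3 n).smooth.contDiffOn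
    exact (u1.add s1 u2 s2).add (s1.add s2) u3 s3
  have glob : ∀ (g : ℕ → ℂ → ℂ), (∀ n z, z ∉ L → g n z = 0) → LBdd 2 U g →
      ∃ C : ℝ, ∀ᶠ n in atTop, ∫ z, ‖g n z‖ ^ 2 ≤ C := by
    intro g hg0 hg
    obtain ⟨C, hC⟩ := hg L hLc hχ.sub
    refine ⟨C, ?_⟩
    filter_upwards [hC] with n hn
    rw [setIntegral_eq_integral_of_forall_compl_eq_zero] at hn
    · exact hn
    · intro z hz; rw [hg0 n z hz]; simp
  obtain ⟨Cf, hCf⟩ := glob f hfz bf
  have bχA : LBdd 2 U (fun n z => χ z * A n z) := bA.fn_mul sA hχ.smooth.contDiffOn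
  obtain ⟨CA, hCA⟩ := glob (fun n z => χ z * A n z) (fun n z hz => by
    rw [image_eq_zero_of_notMem_tsupport hz, zero_mul]) bχA
  -- weak limits
  have hwA : ∀ η : ℂ → ℂ, ContDiff ℝ ∞ η →
      Tendsto (fun n => ∫ z, (χ z * A n z) * η z) atTop (𝓝 0) := by
    intro η hη
    refine (wA _ (hχ.mul hU hη.contDiffOn)).congr fun n => ?_
    exact integral_congr_ae (Filter.Eventually.of_forall fun z => by simp only []; ring)
  have hwf : ∀ η : ℂ → ℂ, ContDiff ℝ ∞ η → Tendsto (fun n => ∫ z, f n z * η z) atTop (𝓝 0) := by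
    intro η hη
    have p1 := wA _ (hχ.dz.mul hU hη.contDiffOn)
    have p2 := wB _ (hχ.dzb.mul hU hη.contDiffOn)
    have tη : Test U (fun z => χ z * η z) := hχ.mul hU hη.contDiffOn
    have p3 : Tendsto (fun n => ∫ z, (χ z * η z) * (dz (A n) z + dzb (B n) z)) atTop (𝓝 0) := by
      have q1 := (wA _ tη.dz).neg
      have q2 := (wB _ tη.dzb).neg
      have q := q1.add q2
      simp only [neg_zero, add_zero] at q
      refine q.congr fun n => ?_
      rw [← integral_mul_dz hU tη (sA n), ← integral_mul_dzb hU tη (sB n), ← integral_add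
        (tη.integrable_mul hU (contDiffOn_dz hU (sA n)).continuousOn)
        (tη.integrable_mul hU (contDiffOn_dzb hU (sB n)).continuousOn)]
      exact integral_congr_ae (Filter.Eventually.of_forall fun z => by simp only []; ring)
    have p := (p1.add p2).add p3
    simp only [add_zero] at p
    refine p.congr fun n => ?_
    have k1 : Integrable (fun z => (dz χ z * η z) * A n z) :=
      (hχ.dz.mul hU hη.contDiffOn).integrable_mul hU (sA n).continuousOn
    have k2 : Integrable (fun z => (dzb χ z * η z) * B n z) :=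
      (hχ.dzb.mul hU hη.contDiffOn).integrable_mul hU (sB n).continuousOn
    have k3 : Integrable (fun z => (χ z * η z) * (dz (A n) z + dzb (B n) z)) :=
      tη.integrable_mul hU (sR n).continuousOn
    have k12 : Integrable (fun z => (dz χ z * η z) * A n z + (dzb χ z * η z) * B n z) := k1.add k2
    rw [← integral_add k1 k2, ← integral_add k12 k3]
    exact integral_congr_ae (Filter.Eventually.of_forall fun z => by simp only [hf]; ring)
  -- the potentials
  set Φ : ℕ → ℂ → ℂ := fun n => cauchy (fun z => χ z * A n z) with hΦ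
  set κ : ℕ → ℂ → ℂ := fun n => cauchy (f n) with hκ
  have sΦ' : ∀ n, ContDiff ℝ ∞ (Φ n) := fun n => contDiff_cauchy (tA n).smooth (tA n).supp
  have sκ' : ∀ n, ContDiff ℝ ∞ (κ n) := fun n => contDiff_cauchy (hfs n) (hfc n)
  have sΦ : SmoothSeq U Φ := fun n => (sΦ' n).contDiffOn
  have sκ : SmoothSeq U κ := fun n => (sκ' n).contDiffOn
  have cΦ : ∀ K : Set ℂ, IsCompact K → Tendsto (fun n => ∫ z in K, ‖Φ n z‖ ^ 2) atTop (𝓝 0) :=
    fun K hK => cauchy_compact hLc hK (fun n => (tA n).smooth) (fun n => by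
      refine closure_minimal ?_ (isClosed_tsupport χ)
      intro z hz
      by_contra h
      exact hz (by simp only []; rw [image_eq_zero_of_notMem_tsupport h, zero_mul])) hCA hwA
  have cκ : ∀ K : Set ℂ, IsCompact K → Tendsto (fun n => ∫ z in K, ‖κ n z‖ ^ 2) atTop (𝓝 0) :=
    fun K hK => cauchy_compact hLc hK hfs hfsupp hCf hwf
  have eΦb : ∀ n z, dzb (Φ n) z = χ z * A n z := fun n z => dzb_cauchy (tA n).smooth (tA n).supp z
  have eΦ : ∀ n z, dz (Φ n) z = κ n z - χ z * B n z := by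
    intro n z
    have e1 : dz (Φ n) z = cauchy (dz (fun z => χ z * A n z)) z :=
      dz_cauchy (tA n).smooth (tA n).supp z
    have e2 : dz (fun z => χ z * A n z) = fun z => f n z - dzb (fun z => χ z * B n z) z := by
      funext w
      rw [hχ.dz_mul_apply hU (sA n), hχ.dzb_mul_apply hU (sB n)]
      simp only [hf]; ring
    rw [e1, e2, cauchy_sub (hfs n).continuous (hfc n) (contDiff_dzb (tB n).smooth).continuous
      (tB n).supp.dzb, cauchy_dzb (tB n).smooth (tB n).supp]
  -- the four terms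
  have hζc : IsCompact (tsupport ζ) := hζ.supp
  have r1 := pair_tendsto hζ.dzb sΦ sB' (cΦ _ hζ.dzb.supp) bB'
  have r2 := pair_tendsto hζ.dz sΦ sA' (cΦ _ hζ.dz.supp) bA'
  have r3 := pair_tendsto hζ sΦ sR' (cΦ _ hζ.supp) bR'
  have r4 := pair_tendsto hζ sκ sA' (cκ _ hζ.supp) bA'
  have r := ((r1.add r2).add (r3.add r4)).neg
  simp only [add_zero, neg_zero] at r
  refine r.congr fun n => ?_
  -- integration by parts
  have tA' : Test U (fun z => ζ z * A' n z) := hζ.mul hU (sA' n)
  have tB' : Test U (fun z => ζ z * B' n z) := hζ.mul hU (sB' n)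
  have i1 := integral_mul_dzb hU tB' (sΦ n)
  have i2 := integral_mul_dz hU tA' (sΦ n)
  have I1 : Integrable (fun z => dzb ζ z * (Φ n z * B' n z)) :=
    hζ.dzb.integrable_mul hU ((sΦ n).mul (sB' n)).continuousOn
  have I2 : Integrable (fun z => dz ζ z * (Φ n z * A' n z)) :=
    hζ.dz.integrable_mul hU ((sΦ n).mul (sA' n)).continuousOn
  have I3 : Integrable (fun z => ζ z * (Φ n z * (dz (A' n) z + dzb (B' n) z))) :=
    hζ.integrable_mul hU ((sΦ n).mul (sR' n)).continuousOn
  have I4 : Integrable (fun z => ζ z * (κ n z * A' n z)) :=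
    hζ.integrable_mul hU ((sκ n).mul (sA' n)).continuousOn
  have J1 : Integrable (fun z => dzb (fun z => ζ z * B' n z) z * Φ n z) :=
    tB'.dzb.integrable_mul hU (sΦ n).continuousOn
  have J2 : Integrable (fun z => dz (fun z => ζ z * A' n z) z * Φ n z) :=
    tA'.dz.integrable_mul hU (sΦ n).continuousOn
  have J3 : Integrable (fun z => (ζ z * B' n z) * dzb (Φ n) z) :=
    tB'.integrable_mul hU (contDiffOn_dzb hU (sΦ n)).continuousOn
  have J4 : Integrable (fun z => (ζ z * A' n z) * dz (Φ n) z) :=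
    tA'.integrable_mul hU (contDiffOn_dz hU (sΦ n)).continuousOn
  have key : (∫ z, dzb ζ z * (Φ n z * B' n z)) + (∫ z, dz ζ z * (Φ n z * A' n z))
      + (∫ z, ζ z * (Φ n z * (dz (A' n) z + dzb (B' n) z)))
      = (∫ z, dzb (fun z => ζ z * B' n z) z * Φ n z)
        + ∫ z, dz (fun z => ζ z * A' n z) z * Φ n z := by
    have I12 : Integrable (fun z => dzb ζ z * (Φ n z * B' n z) + dz ζ z * (Φ n z * A' n z)) :=
      I1.add I2
    rw [← integral_add I1 I2, ← integral_add I12 I3, ← integral_add J1 J2]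
    refine integral_congr_ae (Filter.Eventually.of_forall fun z => ?_)
    simp only []
    rw [hζ.dzb_mul_apply hU (sB' n), hζ.dz_mul_apply hU (sA' n)]
    ring
  have fin : ∫ w, ζ w * (A n w * B' n w - B n w * A' n w)
      = (∫ z, (ζ z * B' n z) * dzb (Φ n) z) + (∫ z, (ζ z * A' n z) * dz (Φ n) z)
        - ∫ z, ζ z * (κ n z * A' n z) := by
    have J34 : Integrable (fun z => (ζ z * B' n z) * dzb (Φ n) z
        + (ζ z * A' n z) * dz (Φ n) z) := J3.add J4
    rw [← integral_add J3 J4, ← integral_sub J34 I4]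
    refine integral_congr_ae (Filter.Eventually.of_forall fun z => ?_)
    simp only []
    by_cases hz : z ∈ tsupport ζ
    · have h1 : χ z = 1 := (hχ1 z hz).self_of_nhds
      rw [eΦb, eΦ, h1]; ring
    · rw [image_eq_zero_of_notMem_tsupport hz]; ring
  rw [fin, i1, i2]
  have : -((∫ z, dzb ζ z * (Φ n z * B' n z)) + (∫ z, dz ζ z * (Φ n z * A' n z))
      + ((∫ z, ζ z * (Φ n z * (dz (A' n) z + dzb (B' n) z))) + ∫ z, ζ z * (κ n z * A' n z)))
      = -(∫ z, dzb (fun z => ζ z * B' n z) z * Φ n z)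
        + -(∫ z, dz (fun z => ζ z * A' n z) z * Φ n z) - ∫ z, ζ z * (κ n z * A' n z) := by
    linear_combination -key
  exact this

/-- **the div-curl lemma** -/
theorem div_curl {U : Set ℂ} (hU : IsOpen U) {A B A' B' : ℕ → ℂ → ℂ}
    (sA : SmoothSeq U A) (sB : SmoothSeq U B) (sA' : SmoothSeq U A') (sB' : SmoothSeq U B')
    (bA : LBdd 2 U A) (bB : LBdd 2 U B) (bA' : LBdd 2 U A') (bB' : LBdd 2 U B')
    (bR : LBdd 2 U (fun n z => dz (A n) z + dzb (B n) z))
    (bR' : LBdd 2 U (fun n z => dz (A' n) z + dzb (B' n) z)) {a b a' b' : ℂ}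
    (wA : ∀ ζ, Test U ζ → Tendsto (fun n => ∫ w, ζ w * A n w) atTop (𝓝 (a * ∫ w, ζ w)))
    (wB : ∀ ζ, Test U ζ → Tendsto (fun n => ∫ w, ζ w * B n w) atTop (𝓝 (b * ∫ w, ζ w)))
    (wA' : ∀ ζ, Test U ζ → Tendsto (fun n => ∫ w, ζ w * A' n w) atTop (𝓝 (a' * ∫ w, ζ w)))
    (wB' : ∀ ζ, Test U ζ → Tendsto (fun n => ∫ w, ζ w * B' n w) atTop (𝓝 (b' * ∫ w, ζ w)))
    {ζ : ℂ → ℂ} (hζ : Test U ζ) :
    Tendsto (fun n => ∫ w, ζ w * (A n w * B' n w - B n w * A' n w)) atTop
      (𝓝 ((a * b' - b * a') * ∫ w, ζ w)) := by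
  have smC : ∀ c : ℂ, SmoothSeq U (fun (_ : ℕ) (_ : ℂ) => c) := fun c _ => contDiffOn_const
  have bdC : ∀ c : ℂ, LBdd 2 U (fun (_ : ℕ) (_ : ℂ) => c) := by
    intro c K hK hKU
    exact ⟨∫ z in K, ‖c‖ ^ 2, Filter.Eventually.of_forall fun n => le_rfl⟩
  have wsub : ∀ {X : ℕ → ℂ → ℂ} {c : ℂ}, SmoothSeq U X →
      (∀ ζ, Test U ζ → Tendsto (fun n => ∫ w, ζ w * X n w) atTop (𝓝 (c * ∫ w, ζ w))) →
      ∀ ζ, Test U ζ → Tendsto (fun n => ∫ w, ζ w * (X n w - c)) atTop (𝓝 0) := by
    intro X c sX hX η hη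
    have h1 := (hX η hη).sub_const (c * ∫ w, η w)
    rw [sub_self] at h1
    refine h1.congr fun n => ?_
    have hηi : Integrable η := hη.smooth.continuous.integrable_of_hasCompactSupport hη.supp
    rw [← integral_const_mul, ← integral_sub (hη.integrable_mul hU (sX n).continuousOn)
      (hηi.const_mul c)]
    exact integral_congr_ae (Filter.Eventually.of_forall fun z => by simp only []; ring)
  have dzs : ∀ (X : ℂ → ℂ) (c : ℂ) (z : ℂ), dz (fun w => X w - c) z = dz X z := by
    intro X c z; simp only [dz, fderiv_sub_const]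
  have dzbs : ∀ (X : ℂ → ℂ) (c : ℂ) (z : ℂ), dzb (fun w => X w - c) z = dzb X z := by
    intro X c z; simp only [dzb, fderiv_sub_const]
  have h0 := div_curl_zero hU (A := fun n z => A n z - a) (B := fun n z => B n z - b)
    (A' := A') (B' := B') (sA.sub (smC a)) (sB.sub (smC b)) sA' sB'
    (bA.sub sA (bdC a) (smC a)) (bB.sub sB (bdC b) (smC b)) bA' bB'
    (by simpa only [dzs, dzbs] using bR) bR' (wsub sA wA) (wsub sB wB) hζ
  have h1 := ((wB' ζ hζ).const_mul a).sub ((wA' ζ hζ).const_mul b)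
  have h2 := h0.add h1
  rw [zero_add] at h2
  have e : a * (b' * ∫ w, ζ w) - b * (a' * ∫ w, ζ w) = (a * b' - b * a') * ∫ w, ζ w := by ring
  rw [e] at h2
  refine h2.congr fun n => ?_
  have I1 := hζ.integrable_mul hU (f := fun w => (A n w - a) * B' n w - (B n w - b) * A' n w)
    ((((sA n).sub contDiffOn_const).mul (sB' n)).sub
      (((sB n).sub contDiffOn_const).mul (sA' n))).continuousOn
  have I2 := hζ.integrable_mul hU (sB' n).continuousOn
  have I3 := hζ.integrable_mul hU (sA' n).continuousOn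
  have I23 : Integrable (fun z => a * (ζ z * B' n z) - b * (ζ z * A' n z)) :=
    (I2.const_mul a).sub (I3.const_mul b)
  rw [← integral_const_mul, ← integral_const_mul, ← integral_sub (I2.const_mul a) (I3.const_mul b),
    ← integral_add I1 I23]
  exact integral_congr_ae (Filter.Eventually.of_forall fun z => by simp only []; ring)

end

end QE


end

section

/-!
Definitions for the hyperbolic plane: weak limits, directions, the geodesic flow, and the families of
Fourier coefficients of semiclassical measures.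
-/

open MeasureTheory Filter Topology
open UpperHalfPlane hiding I
open scoped ContDiff MatrixGroups

namespace QE

noncomputable section

/-- square integrable on the compact subsets of `U` -/
def LocL2 (U : Set ℂ) (w : ℂ → ℂ) : Prop :=
  ∀ K : Set ℂ, IsCompact K → K ⊆ U → MemLp w 2 (volume.restrict K)

/-- `v n` converges to `w` weakly in `L²(K)` for every compact `K ⊆ U` -/
def WLim (U : Set ℂ) (v : ℕ → ℂ → ℂ) (w : ℂ → ℂ) : Prop :=
  ∀ K : Set ℂ, IsCompact K → K ⊆ U → ∀ ζ : ℂ → ℂ, MemLp ζ 2 (volume.restrict K) →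
    Tendsto (fun n => ∫ z in K, ζ z * v n z) atTop (𝓝 (∫ z in K, ζ z * w z))

/-- the upper half plane, as a subset of the plane -/
def UH : Set ℂ := {z | 0 < z.im}

/-- the Möbius transformation `γ`, as a map of the plane -/
def mob (γ : SL(2, ℝ)) (z : ℂ) : ℂ := ((γ • ofComplex z : ℍ) : ℂ)

/-- the denominator `c z + d` -/
def den (γ : SL(2, ℝ)) (z : ℂ) : ℂ := ((γ 1 0 : ℝ) : ℂ) * z + ((γ 1 1 : ℝ) : ℂ)

/-- the phase `γ'(z) / |γ'(z)|` of the derivative of a Möbius transformation -/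
def phase (γ : SL(2, ℝ)) (z : ℂ) : ℂ := ((starRingEnd ℂ) (den γ z) / (‖den γ z‖ : ℂ)) ^ 2

/-- the conformal factor `1 / y²` of the hyperbolic metric -/
def gH (z : ℂ) : ℂ := 1 / (z.im : ℂ) ^ 2

/-- the weight `y = gH ^ (-1/2)` -/
def aH (z : ℂ) : ℂ := (z.im : ℂ)

/-- the diagonal flow `diag (e^{s/2}, e^{-s/2})` -/
def aS (s : ℝ) : SL(2, ℝ) :=
  ⟨!![Real.exp (s / 2), 0; 0, Real.exp (-(s / 2))], by
    rw [Matrix.det_fin_two_of, mul_zero, sub_zero, ← Real.exp_add, add_neg_cancel, Real.exp_zero]⟩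

/-- the direction at `g • i` of the geodesic `s ↦ g a_s • i`, a complex number of modulus one -/
def dirG (g : SL(2, ℝ)) : ℂ := Complex.I * phase g Complex.I

/-- the Fourier coefficients (along the fibres of the circle bundle) of a measure with locally square
integrable projection: `u k` is the weak limit of `E₀ E_k` -/
structure LimFam0 (Γ : Subgroup SL(2, ℝ)) (u : ℤ → ℂ → ℂ) : Prop where
  meas : ∀ k, Measurable (u k)
  loc : ∀ k, LocL2 UH (u k)
  real : ∀ᵐ z ∂((volume : Measure ℂ).restrict UH), 0 ≤ (u 0 z).re ∧ (u 0 z).im = 0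
  bound : ∀ k, ∀ᵐ z ∂((volume : Measure ℂ).restrict UH), ‖u k z‖ ≤ (u 0 z).re
  conj : ∀ k, ∀ᵐ z ∂((volume : Measure ℂ).restrict UH), u (-k) z = (starRingEnd ℂ) (u k z)
  odd : ∀ k, Odd k → ∀ᵐ z ∂((volume : Measure ℂ).restrict UH), u k z = 0
  pos : ∀ N : ℕ, ∀ w : ℂ, ‖w‖ = 1 → ∀ᵐ z ∂((volume : Measure ℂ).restrict UH),
    0 ≤ (∑ j ∈ Finset.range N, ∑ l ∈ Finset.range N, u ((j : ℤ) - l) z * w ^ ((j : ℤ) - l)).re
  equiv : ∀ γ ∈ Γ, ∀ k, ∀ᵐ z ∂((volume : Measure ℂ).restrict UH),
    u k z = phase γ z ^ k * u k (mob γ z)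

/-- the Fourier coefficients (along the fibres of the circle bundle) of a measure invariant under the
geodesic flow of the hyperbolic metric, with locally square integrable projection -/
structure LimFam (Γ : Subgroup SL(2, ℝ)) (u : ℤ → ℂ → ℂ) : Prop extends LimFam0 Γ u where
  transport : ∀ k : ℤ, ∀ ζ : ℂ → ℂ, Test UH ζ →
    ∫ z, (((z.im : ℂ) * dz ζ z + Complex.I * k / 2 * ζ z) * u (k - 1) z
      + ((z.im : ℂ) * dzb ζ z + Complex.I * k / 2 * ζ z) * u (k + 1) z) / (z.im : ℂ) ^ 2 = 0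

variable [MeasurableSpace SL(2, ℝ)] [BorelSpace SL(2, ℝ)]

/-- a measure on `SL(2, ℝ)` which is left invariant under `Γ` and under `-1`, and whose projection to
the upper half plane has the density `p`, square integrable over the surface -/
structure FlowMeas0 (Γ : Subgroup SL(2, ℝ)) (D : Set ℍ) (μ : Measure SL(2, ℝ)) (p : ℍ → ℝ) :
    Prop where
  left : ∀ γ ∈ Γ, Measure.map (fun g => γ * g) μ = μ
  neg : Measure.map (fun g => -g) μ = μ
  pmeas : Measurable p
  pnonneg : ∀ z, 0 ≤ p z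
  pinv : ∀ γ ∈ Γ, ∀ z, p (γ • z) = p z
  psq : IntegrableOn (fun z => p z ^ 2) D (volume : Measure ℍ)
  proj : ∀ S : Set ℍ, MeasurableSet S →
    μ ((fun g : SL(2, ℝ) => g • UpperHalfPlane.I) ⁻¹' S) = ∫⁻ z in S, ENNReal.ofReal (p z)

/-- a measure on `SL(2, ℝ)` which is left invariant under `Γ` and under `-1`, right invariant under
the geodesic flow, and whose projection to the upper half plane has the density `p`, square
integrable over the surface -/
structure FlowMeas (Γ : Subgroup SL(2, ℝ)) (D : Set ℍ) (μ : Measure SL(2, ℝ)) (p : ℍ → ℝ) :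
    Prop extends FlowMeas0 Γ D μ p where
  right : ∀ s : ℝ, Measure.map (fun g => g * aS s) μ = μ

/-- the set of `g` which move `i` by a small distance (less than about `δ`) and are close to `1` or
`-1` up to a rotation by an angle less than about `ε` -/
def Kset (δ ε : ℝ) : Set SL(2, ℝ) :=
  {g | (g 0 0 - g 1 1) ^ 2 + (g 0 1 + g 1 0) ^ 2 < δ ^ 2 ∧ |g 0 1 - g 1 0| < ε}

/-- mass, modulo `Γ`, of the pairs `(v, v g)` with `g ∈ S` -/
def pairMass (D : Set ℍ) (μ : Measure SL(2, ℝ)) (S : Set SL(2, ℝ)) : ENNReal :=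
  ∫⁻ v in Berry.Fd D, μ ((fun w => v⁻¹ * w) ⁻¹' S) ∂μ

end

end QE


end

section

/-!
Calculus of weak limits: linearity, conjugation, uniqueness, positivity.
-/

open MeasureTheory Filter Topology
open UpperHalfPlane hiding I
open scoped ContDiff MatrixGroups

namespace QE

noncomputable section

variable {U : Set ℂ}

theorem LocL2.add {v w : ℂ → ℂ} (hv : LocL2 U v) (hw : LocL2 U w) :
    LocL2 U (fun z => v z + w z) := fun K hK hKU => (hv K hK hKU).add (hw K hK hKU)

theorem LocL2.sub {v w : ℂ → ℂ} (hv : LocL2 U v) (hw : LocL2 U w) :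
    LocL2 U (fun z => v z - w z) := fun K hK hKU => (hv K hK hKU).sub (hw K hK hKU)

theorem LocL2.const_mul {v : ℂ → ℂ} (hv : LocL2 U v) (c : ℂ) :
    LocL2 U (fun z => c * v z) := fun K hK hKU => (hv K hK hKU).const_mul c

theorem LocL2.conj {v : ℂ → ℂ} (hv : LocL2 U v) :
    LocL2 U (fun z => (starRingEnd ℂ) (v z)) := fun K hK hKU => (hv K hK hKU).star

theorem LocL2.zero : LocL2 U (fun _ => 0) := fun _ _ _ => MemLp.zero

theorem LocL2.sum {ι : Type*} (s : Finset ι) {v : ι → ℂ → ℂ} (hv : ∀ i ∈ s, LocL2 U (v i)) :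
    LocL2 U (fun z => ∑ i ∈ s, v i z) := fun K hK hKU =>
  memLp_finsetSum s fun i hi => hv i hi K hK hKU

/-- the product of two square integrable functions is integrable -/
theorem memLp_mul_integrable {μ : Measure ℂ} {ζ v : ℂ → ℂ} (hζ : MemLp ζ 2 μ) (hv : MemLp v 2 μ) :
    Integrable (fun z => ζ z * v z) μ := by
  have := hv.integrable_mul hζ
  refine this.congr (Filter.Eventually.of_forall fun z => ?_)
  show v z * ζ z = ζ z * v z
  ring

theorem SmoothSeq.memLp {v : ℕ → ℂ → ℂ} (hv : SmoothSeq U v) {K : Set ℂ} (hK : IsCompact K)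
    (hKU : K ⊆ U) (n : ℕ) : MemLp (v n) 2 (volume.restrict K) := by
  have : IsFiniteMeasure (volume.restrict K) := ⟨by
    rw [Measure.restrict_apply_univ]; exact hK.measure_lt_top⟩
  have hc : ContinuousOn (v n) K := (hv n).continuousOn.mono hKU
  obtain ⟨C, hC⟩ := hK.exists_bound_of_continuousOn hc
  refine MemLp.of_bound (hc.aestronglyMeasurable hK.measurableSet) C ?_
  exact (ae_restrict_iff' hK.measurableSet).2 (Filter.Eventually.of_forall fun z hz => hC z hz)

theorem WLim.add {v v' : ℕ → ℂ → ℂ} {w w' : ℂ → ℂ} (h : WLim U v w) (h' : WLim U v' w')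
    (sv : SmoothSeq U v) (sv' : SmoothSeq U v') (lw : LocL2 U w) (lw' : LocL2 U w') :
    WLim U (fun n z => v n z + v' n z) (fun z => w z + w' z) := by
  intro K hK hKU ζ hζ
  have e1 : ∀ n, ∫ z in K, ζ z * (v n z + v' n z) = (∫ z in K, ζ z * v n z)
      + ∫ z in K, ζ z * v' n z := by
    intro n
    rw [← integral_add (memLp_mul_integrable hζ (sv.memLp hK hKU n))
      (memLp_mul_integrable hζ (sv'.memLp hK hKU n))]
    exact integral_congr_ae (Filter.Eventually.of_forall fun z => by beta_reduce; ring)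
  have e2 : ∫ z in K, ζ z * (w z + w' z) = (∫ z in K, ζ z * w z) + ∫ z in K, ζ z * w' z := by
    rw [← integral_add (memLp_mul_integrable hζ (lw K hK hKU))
      (memLp_mul_integrable hζ (lw' K hK hKU))]
    exact integral_congr_ae (Filter.Eventually.of_forall fun z => by beta_reduce; ring)
  simp only [e1, e2]
  exact (h K hK hKU ζ hζ).add (h' K hK hKU ζ hζ)

theorem WLim.const_mul {v : ℕ → ℂ → ℂ} {w : ℂ → ℂ} (h : WLim U v w) (c : ℂ) :
    WLim U (fun n z => c * v n z) (fun z => c * w z) := by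
  intro K hK hKU ζ hζ
  have e1 : ∀ f : ℂ → ℂ, ∫ z in K, ζ z * (c * f z) = c * ∫ z in K, ζ z * f z := by
    intro f
    rw [← integral_const_mul]
    exact integral_congr_ae (Filter.Eventually.of_forall fun z => by beta_reduce; ring)
  have := (h K hK hKU ζ hζ).const_mul c
  simp only [e1 (v _), e1 w]
  exact this

theorem WLim.conj {v : ℕ → ℂ → ℂ} {w : ℂ → ℂ} (h : WLim U v w) :
    WLim U (fun n z => (starRingEnd ℂ) (v n z)) (fun z => (starRingEnd ℂ) (w z)) := by
  intro K hK hKU ζ hζ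
  have e1 : ∀ f : ℂ → ℂ, ∫ z in K, ζ z * (starRingEnd ℂ) (f z)
      = (starRingEnd ℂ) (∫ z in K, (starRingEnd ℂ) (ζ z) * f z) := by
    intro f
    rw [← integral_conj]
    exact integral_congr_ae (Filter.Eventually.of_forall fun z => by
      beta_reduce; simp only [map_mul, starRingEnd_self_apply])
  have h2 := (Complex.continuous_conj.tendsto _).comp (h K hK hKU (fun z => (starRingEnd ℂ) (ζ z))
    hζ.star)
  simp only [e1 (v _), e1 w]
  exact h2

theorem WLim.congr {v v' : ℕ → ℂ → ℂ} {w : ℂ → ℂ} (h : WLim U v w)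
    (he : ∀ n, ∀ z ∈ U, v n z = v' n z) : WLim U v' w := by
  intro K hK hKU ζ hζ
  refine (h K hK hKU ζ hζ).congr fun n => ?_
  refine setIntegral_congr_fun hK.measurableSet fun z hz => ?_
  simp only [he n z (hKU hz)]

theorem WLim.congr_right {v : ℕ → ℂ → ℂ} {w w' : ℂ → ℂ} (h : WLim U v w)
    (he : ∀ z ∈ U, w z = w' z) : WLim U v w' := by
  intro K hK hKU ζ hζ
  have e : ∫ z in K, ζ z * w' z = ∫ z in K, ζ z * w z :=
    setIntegral_congr_fun hK.measurableSet fun z hz => by simp only [he z (hKU hz)]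
  rw [e]
  exact h K hK hKU ζ hζ

theorem WLim.zero : WLim U (fun _ _ => 0) (fun _ => 0) := by
  intro K _ _ ζ _
  simp

theorem WLim.sum {ι : Type*} (s : Finset ι) {v : ι → ℕ → ℂ → ℂ} {w : ι → ℂ → ℂ}
    (h : ∀ i ∈ s, WLim U (v i) (w i)) (sv : ∀ i ∈ s, SmoothSeq U (v i))
    (lw : ∀ i ∈ s, LocL2 U (w i)) :
    WLim U (fun n z => ∑ i ∈ s, v i n z) (fun z => ∑ i ∈ s, w i z) := by
  classical
  induction s using Finset.induction_on with
  | empty => simpa using WLim.zero
  | insert a s ha ih =>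
    have h1 := ih (fun i hi => h i (Finset.mem_insert_of_mem hi))
      (fun i hi => sv i (Finset.mem_insert_of_mem hi)) (fun i hi => lw i (Finset.mem_insert_of_mem hi))
    have s1 : SmoothSeq U (fun n z => ∑ i ∈ s, v i n z) := fun n =>
      ContDiffOn.sum fun i hi => sv i (Finset.mem_insert_of_mem hi) n
    have h2 := WLim.add (h a (Finset.mem_insert_self a s)) h1 (sv a (Finset.mem_insert_self a s)) s1
      (lw a (Finset.mem_insert_self a s))
      (LocL2.sum s fun i hi => lw i (Finset.mem_insert_of_mem hi))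
    refine (h2.congr fun n z _ => ?_).congr_right fun z _ => ?_
    · rw [Finset.sum_insert ha]
    · rw [Finset.sum_insert ha]

/-- an open subset of the plane is exhausted by countably many compact sets -/
theorem exists_exhaustion (hU : IsOpen U) : ∃ K : ℕ → Set ℂ, (∀ n, IsCompact (K n)) ∧
    (∀ n, K n ⊆ U) ∧ U = ⋃ n, K n := by
  have h1 : IsSigmaCompact U := by
    have : LocallyCompactSpace U := hU.locallyCompactSpace
    have : SigmaCompactSpace U := inferInstance
    exact isSigmaCompact_iff_sigmaCompactSpace.2 inferInstance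
  obtain ⟨K, hK, hKU⟩ := h1
  exact ⟨K, hK, fun n => hKU ▸ Set.subset_iUnion K n, hKU.symm⟩

/-- statements which hold almost everywhere on every compact subset hold almost everywhere -/
theorem ae_of_compacts (hU : IsOpen U) {p : ℂ → Prop}
    (h : ∀ K : Set ℂ, IsCompact K → K ⊆ U → ∀ᵐ z ∂((volume : Measure ℂ).restrict K), p z) :
    ∀ᵐ z ∂((volume : Measure ℂ).restrict U), p z := by
  obtain ⟨K, hK, hKU, e⟩ := exists_exhaustion hU
  rw [e]
  exact (ae_restrict_iUnion_iff K p).2 fun n => h (K n) (hK n) (hKU n)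

theorem WLim.nonneg (hU : IsOpen U) {v : ℕ → ℂ → ℂ} {w : ℂ → ℂ} (h : WLim U v w)
    (lw : LocL2 U w) (hn : ∀ n, ∀ z ∈ U, 0 ≤ (v n z).re) (sv : SmoothSeq U v) :
    ∀ᵐ z ∂((volume : Measure ℂ).restrict U), 0 ≤ (w z).re := by
  refine ae_of_compacts hU fun K hK hKU => ?_
  have : IsFiniteMeasure ((volume : Measure ℂ).restrict K) := ⟨by
    rw [Measure.restrict_apply_univ]; exact hK.measure_lt_top⟩
  have hwi : Integrable (fun z => (w z).re) (volume.restrict K) :=
    ((lw K hK hKU).integrable (by norm_num)).re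
  refine ae_nonneg_of_forall_setIntegral_nonneg hwi fun s hs hμs => ?_
  set ζ : ℂ → ℂ := s.indicator fun _ => 1 with hζ
  have hζm : MemLp ζ 2 (volume.restrict K) := memLp_indicator_const 2 hs (1 : ℂ) (Or.inr (by
    exact (measure_lt_top _ _).ne))
  have h1 := (Complex.continuous_re.tendsto _).comp (h K hK hKU ζ hζm)
  have e : ∀ f : ℂ → ℂ, MemLp f 2 (volume.restrict K) → (∫ z in K, ζ z * f z).re
      = ∫ z in s, (f z).re ∂(volume.restrict K) := by
    intro f hf
    have e0 : (∫ z in K, ζ z * f z).re = ∫ z in K, (ζ z * f z).re :=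
      (integral_re (memLp_mul_integrable hζm hf)).symm
    rw [e0, ← integral_indicator hs]
    refine integral_congr_ae (Filter.Eventually.of_forall fun z => ?_)
    by_cases hz : z ∈ s
    · simp [hζ, hz]
    · simp [hζ, hz]
  rw [← e w (lw K hK hKU)]
  refine ge_of_tendsto' h1 fun n => ?_
  show 0 ≤ (∫ z in K, ζ z * v n z).re
  rw [e (v n) (sv.memLp hK hKU n)]
  have : ∫ z in s, (v n z).re ∂(volume.restrict K) = ∫ z in K, s.indicator (fun z => (v n z).re) z :=
    (integral_indicator hs).symm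
  rw [this]
  refine setIntegral_nonneg hK.measurableSet fun z hz => ?_
  by_cases hzs : z ∈ s
  · simp [hzs, hn n z (hKU hz)]
  · simp [hzs]

theorem WLim.unique (hU : IsOpen U) {v : ℕ → ℂ → ℂ} {w w' : ℂ → ℂ} (h : WLim U v w)
    (h' : WLim U v w') (lw : LocL2 U w) (lw' : LocL2 U w') :
    ∀ᵐ z ∂((volume : Measure ℂ).restrict U), w z = w' z := by
  refine ae_of_compacts hU fun K hK hKU => ?_
  have : IsFiniteMeasure ((volume : Measure ℂ).restrict K) := ⟨by
    rw [Measure.restrict_apply_univ]; exact hK.measure_lt_top⟩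
  refine Integrable.ae_eq_of_forall_setIntegral_eq _ _ ((lw K hK hKU).integrable (by norm_num))
    ((lw' K hK hKU).integrable (by norm_num)) fun s hs hμs => ?_
  set ζ : ℂ → ℂ := s.indicator fun _ => 1 with hζ
  have hζm : MemLp ζ 2 (volume.restrict K) := memLp_indicator_const 2 hs (1 : ℂ) (Or.inr (by
    exact (measure_lt_top _ _).ne))
  have e : ∀ f : ℂ → ℂ, ∫ z in K, ζ z * f z = ∫ z in s, f z ∂(volume.restrict K) := by
    intro f
    rw [← integral_indicator hs]
    refine integral_congr_ae (Filter.Eventually.of_forall fun z => ?_)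
    by_cases hz : z ∈ s
    · simp [hζ, hz]
    · simp [hζ, hz]
  rw [← e w, ← e w']
  exact tendsto_nhds_unique (h K hK hKU ζ hζm) (h' K hK hKU ζ hζm)

/-- weak limits tested with test functions -/
theorem WLim.test {v : ℕ → ℂ → ℂ} {w : ℂ → ℂ} (h : WLim U v w) {ζ : ℂ → ℂ} (hζ : Test U ζ) :
    Tendsto (fun n => ∫ z, ζ z * v n z) atTop (𝓝 (∫ z, ζ z * w z)) := by
  have hm : MemLp ζ 2 (volume.restrict (tsupport ζ)) :=
    (hζ.smooth.continuous.memLp_of_hasCompactSupport hζ.supp).restrict _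
  have h1 := h (tsupport ζ) hζ.supp hζ.sub ζ hm
  have e : ∀ f : ℂ → ℂ, ∫ z in tsupport ζ, ζ z * f z = ∫ z, ζ z * f z := by
    intro f
    refine setIntegral_eq_integral_of_forall_compl_eq_zero fun z hz => ?_
    rw [image_eq_zero_of_notMem_tsupport hz, zero_mul]
  simpa only [e] using h1

end

end QE


end

section

/-!
The div-curl lemma for sequences of smooth functions in the plane, the weak limits being square
integrable functions (helper50).
-/

open Complex MeasureTheory Filter Topology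
open scoped ContDiff

namespace QE

noncomputable section

/-! ### Subsequences -/

theorem SmoothSeq.comp {U : Set ℂ} {u : ℕ → ℂ → ℂ} (hu : SmoothSeq U u) (s : ℕ → ℕ) :
    SmoothSeq U (fun n => u (s n)) := fun n => hu (s n)

theorem LBdd.comp {p : ℕ} {U : Set ℂ} {u : ℕ → ℂ → ℂ} (h : LBdd p U u) {s : ℕ → ℕ}
    (hs : Tendsto s atTop atTop) : LBdd p U (fun n => u (s n)) := by
  intro K hK hKU
  obtain ⟨C, hC⟩ := h K hK hKU
  exact ⟨C, hs.eventually hC⟩

theorem WLim.comp {U : Set ℂ} {u : ℕ → ℂ → ℂ} {w : ℂ → ℂ} (h : WLim U u w) {s : ℕ → ℕ}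
    (hs : Tendsto s atTop atTop) : WLim U (fun n => u (s n)) w := fun K hK hKU ζ hζ =>
  (h K hK hKU ζ hζ).comp hs

/-! ### Pairings -/

/-- the integral of `ζ X` over the support of `ζ` -/
theorem integral_eq_tsupport (ζ X : ℂ → ℂ) :
    ∫ z, ζ z * X z = ∫ z in tsupport ζ, ζ z * X z := by
  rw [setIntegral_eq_integral_of_forall_compl_eq_zero]
  intro z hz
  rw [image_eq_zero_of_notMem_tsupport hz, zero_mul]

/-- a test function times a locally square integrable function -/
theorem Test.memLp {U : Set ℂ} {ζ X : ℂ → ℂ} (hζ : Test U ζ) (hX : LocL2 U X) :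
    MemLp (fun z => ζ z * X z) 2 (volume.restrict (tsupport ζ)) := by
  obtain ⟨B, hB⟩ := hζ.smooth.continuous.bounded_above_of_compact_support hζ.supp
  have h1 : MemLp ζ ⊤ (volume.restrict (tsupport ζ)) :=
    memLp_top_of_bound hζ.smooth.continuous.aestronglyMeasurable B
      (Filter.Eventually.of_forall hB)
  exact (hX _ hζ.supp hζ.sub).mul' h1

theorem Test.memLp_smooth {U : Set ℂ} (hU : IsOpen U) {ζ X : ℂ → ℂ} (hζ : Test U ζ)
    (hX : ContDiffOn ℝ ∞ X U) :
    MemLp (fun z => ζ z * X z) 2 (volume.restrict (tsupport ζ)) := by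
  have h := hζ.mul hU hX
  exact (h.smooth.continuous.memLp_of_hasCompactSupport h.supp).restrict _

/-- products of two locally square integrable functions -/
theorem Test.integrable_mul2 {U : Set ℂ} {ζ X Y : ℂ → ℂ} (hζ : Test U ζ) (hX : LocL2 U X)
    (hY : LocL2 U Y) : Integrable (fun z => ζ z * (X z * Y z)) := by
  have h : IntegrableOn (fun z => ζ z * (X z * Y z)) (tsupport ζ) := by
    have h1 := (hζ.memLp hX).integrable_mul (hY _ hζ.supp hζ.sub)
    refine h1.congr (Filter.Eventually.of_forall fun z => ?_)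
    simp only [Pi.mul_apply]
    ring
  rw [← integrableOn_iff_integrable_of_support_subset (s := tsupport ζ)]
  · exact h
  · intro z hz
    by_contra h0
    exact hz (by simp only [image_eq_zero_of_notMem_tsupport h0, zero_mul])

/-- weak convergence in a pairing with a square integrable function -/
theorem WLim.pair {U : Set ℂ} {ζ X : ℂ → ℂ} (hζ : Test U ζ)
    (hX : MemLp (fun z => ζ z * X z) 2 (volume.restrict (tsupport ζ)))
    {v : ℕ → ℂ → ℂ} {w : ℂ → ℂ} (h : WLim U v w) :
    Tendsto (fun n => ∫ z, ζ z * (X z * v n z)) atTop (𝓝 (∫ z, ζ z * (X z * w z))) := by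
  have h1 := h _ hζ.supp hζ.sub _ hX
  rw [integral_eq_tsupport ζ fun z => X z * w z]
  have e : ∫ z in tsupport ζ, ζ z * (X z * w z) = ∫ z in tsupport ζ, ζ z * X z * w z :=
    integral_congr_ae (Filter.Eventually.of_forall fun z => by simp only []; ring)
  rw [e]
  refine h1.congr fun n => ?_
  rw [integral_eq_tsupport ζ fun z => X z * v n z]
  exact integral_congr_ae (Filter.Eventually.of_forall fun z => by simp only []; ring)

/-- the differences of two subsequences tend weakly to zero -/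
theorem WLim.sub_test {U : Set ℂ} (hU : IsOpen U) {v : ℕ → ℂ → ℂ} (sv : SmoothSeq U v) {w : ℂ → ℂ}
    (h : WLim U v w) {s t : ℕ → ℕ} (hs : Tendsto s atTop atTop) (ht : Tendsto t atTop atTop)
    {ζ : ℂ → ℂ} (hζ : Test U ζ) :
    Tendsto (fun n => ∫ z, ζ z * (v (s n) z - v (t n) z)) atTop (𝓝 0) := by
  have h0 : Tendsto (fun n => ∫ z, ζ z * v n z) atTop (𝓝 (∫ z, ζ z * w z)) := by
    have hm : MemLp (fun z => ζ z * (fun _ => (1 : ℂ)) z) 2 (volume.restrict (tsupport ζ)) :=
      hζ.memLp_smooth hU contDiffOn_const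
    have := WLim.pair hζ hm h
    simpa only [one_mul] using this
  have h1 := (h0.comp hs).sub (h0.comp ht)
  rw [sub_self] at h1
  refine h1.congr fun n => ?_
  simp only [Function.comp_apply]
  rw [← integral_sub (hζ.integrable_mul hU (sv (s n)).continuousOn)
    (hζ.integrable_mul hU (sv (t n)).continuousOn)]
  exact integral_congr_ae (Filter.Eventually.of_forall fun z => by simp only []; ring)

/-- the pairings of two bounded sequences are bounded -/
theorem pair_bounded {U : Set ℂ} {ζ : ℂ → ℂ} (hζ : Test U ζ) {u v : ℕ → ℂ → ℂ}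
    (su : SmoothSeq U u) (sv : SmoothSeq U v) (bu : LBdd 2 U u) (bv : LBdd 2 U v) :
    ∃ C : ℝ, ∀ᶠ n in atTop, ‖∫ z, ζ z * (u n z * v n z)‖ ≤ C := by
  have hKc : IsCompact (tsupport ζ) := hζ.supp
  obtain ⟨C, hC⟩ := bu _ hKc hζ.sub
  obtain ⟨D, hD⟩ := bv _ hKc hζ.sub
  obtain ⟨B, hB⟩ := hζ.smooth.continuous.bounded_above_of_compact_support hζ.supp
  have hB0 : 0 ≤ B := (norm_nonneg _).trans (hB 0)
  refine ⟨B * (C + D), ?_⟩
  filter_upwards [hC, hD] with n hn hn'
  rw [integral_eq_tsupport ζ fun z => u n z * v n z]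
  have hi : IntegrableOn (fun z => ‖u n z‖ ^ 2) (tsupport ζ) := su.intOn hKc hζ.sub 2 n
  have hj : IntegrableOn (fun z => ‖v n z‖ ^ 2) (tsupport ζ) := sv.intOn hKc hζ.sub 2 n
  calc ‖∫ z in tsupport ζ, ζ z * (u n z * v n z)‖
      ≤ ∫ z in tsupport ζ, ‖ζ z * (u n z * v n z)‖ := norm_integral_le_integral_norm _
    _ ≤ ∫ z in tsupport ζ, B * (‖u n z‖ ^ 2 + ‖v n z‖ ^ 2) := by
        refine integral_mono_of_nonneg (Filter.Eventually.of_forall fun z => norm_nonneg _)
          ((hi.add hj).const_mul B) (Filter.Eventually.of_forall fun z => ?_)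
        simp only [norm_mul]
        refine mul_le_mul (hB z) ?_ (by positivity) hB0
        nlinarith [sq_nonneg (‖u n z‖ - ‖v n z‖), norm_nonneg (u n z), norm_nonneg (v n z)]
    _ = B * ((∫ z in tsupport ζ, ‖u n z‖ ^ 2) + ∫ z in tsupport ζ, ‖v n z‖ ^ 2) := by
        rw [integral_const_mul, integral_add hi hj]
    _ ≤ _ := by gcongr

/-- **the div-curl lemma**, general weak limits -/
theorem div_curl_gen {U : Set ℂ} (hU : IsOpen U) {A B A' B' : ℕ → ℂ → ℂ}
    (sA : SmoothSeq U A) (sB : SmoothSeq U B) (sA' : SmoothSeq U A') (sB' : SmoothSeq U B')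
    (bA : LBdd 2 U A) (bB : LBdd 2 U B) (bA' : LBdd 2 U A') (bB' : LBdd 2 U B')
    (bR : LBdd 2 U (fun n z => dz (A n) z + dzb (B n) z))
    (bR' : LBdd 2 U (fun n z => dz (A' n) z + dzb (B' n) z)) {a b a' b' : ℂ → ℂ}
    (la : LocL2 U a) (lb : LocL2 U b) (la' : LocL2 U a') (lb' : LocL2 U b')
    (wA : WLim U A a) (wB : WLim U B b) (wA' : WLim U A' a') (wB' : WLim U B' b')
    {ζ : ℂ → ℂ} (hζ : Test U ζ) :
    Tendsto (fun n => ∫ w, ζ w * (A n w * B' n w - B n w * A' n w)) atTop
      (𝓝 (∫ w, ζ w * (a w * b' w - b w * a' w))) := by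
  -- the two parts of the form
  have hsplit : ∀ {X Y X' Y' : ℂ → ℂ}, Integrable (fun z => ζ z * (X z * Y' z)) →
      Integrable (fun z => ζ z * (Y z * X' z)) →
      ∫ w, ζ w * (X w * Y' w - Y w * X' w) =
        (∫ w, ζ w * (X w * Y' w)) - ∫ w, ζ w * (Y w * X' w) := by
    intro X Y X' Y' h1 h2
    rw [← integral_sub h1 h2]
    exact integral_congr_ae (Filter.Eventually.of_forall fun z => by simp only []; ring)
  have hint : ∀ {X Y : ℕ → ℂ → ℂ}, SmoothSeq U X → SmoothSeq U Y → ∀ n m,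
      Integrable (fun z => ζ z * (X n z * Y m z)) := fun hX hY n m =>
    hζ.integrable_mul hU ((hX n).mul (hY m)).continuousOn
  refine tendsto_of_subseq_tendsto fun ns hns => ?_
  -- the sequence is bounded
  obtain ⟨C, hC⟩ := pair_bounded hζ sA sB' bA bB'
  obtain ⟨D, hD⟩ := pair_bounded hζ sB sA' bB bA'
  have hbd : ∀ᶠ n in atTop, ∫ w, ζ w * (A (ns n) w * B' (ns n) w - B (ns n) w * A' (ns n) w) ∈
      Metric.closedBall (0 : ℂ) (C + D) := by
    filter_upwards [hns.eventually hC, hns.eventually hD] with n h1 h2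
    rw [mem_closedBall_zero_iff, hsplit (hint sA sB' _ _) (hint sB sA' _ _)]
    exact (norm_sub_le _ _).trans (add_le_add h1 h2)
  obtain ⟨T', -, φ, hφ, hT'⟩ :=
    tendsto_subseq_of_frequently_bounded Metric.isBounded_closedBall hbd.frequently
  refine ⟨φ, ?_⟩
  set T := ∫ w, ζ w * (a w * b' w - b w * a' w) with hT
  set s : ℕ → ℕ := fun n => ns (φ n) with hs_def
  have hs : Tendsto s atTop atTop := hns.comp hφ.tendsto_atTop
  change Tendsto (fun n => ∫ w, ζ w * (A (s n) w * B' (s n) w - B (s n) w * A' (s n) w)) atTop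
    (𝓝 T)
  have hT1 : Tendsto (fun n => ∫ w, ζ w * (A (s n) w * B' (s n) w - B (s n) w * A' (s n) w)) atTop
    (𝓝 T') := hT'
  suffices hTT : T' = T by rwa [hTT] at hT1
  -- the second subsequence
  have hk : ∀ n : ℕ, ∃ k : ℕ, n ≤ k ∧
      dist (∫ z, ζ z * (A (s n) z * B' (s k) z)) (∫ z, ζ z * (A (s n) z * b' z)) <
        1 / ((n : ℝ) + 1) ∧
      dist (∫ z, ζ z * (B (s n) z * A' (s k) z)) (∫ z, ζ z * (B (s n) z * a' z)) <
        1 / ((n : ℝ) + 1) ∧
      dist (∫ z, ζ z * (B' (s n) z * A (s k) z)) (∫ z, ζ z * (B' (s n) z * a z)) <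
        1 / ((n : ℝ) + 1) ∧
      dist (∫ z, ζ z * (A' (s n) z * B (s k) z)) (∫ z, ζ z * (A' (s n) z * b z)) <
        1 / ((n : ℝ) + 1) := by
    intro n
    have hpos : (0 : ℝ) < 1 / ((n : ℝ) + 1) := by positivity
    have e1 := (Metric.tendsto_nhds.1 (WLim.pair hζ (hζ.memLp_smooth hU (sA (s n)))
      (wB'.comp hs))) _ hpos
    have e2 := (Metric.tendsto_nhds.1 (WLim.pair hζ (hζ.memLp_smooth hU (sB (s n)))
      (wA'.comp hs))) _ hpos
    have e3 := (Metric.tendsto_nhds.1 (WLim.pair hζ (hζ.memLp_smooth hU (sB' (s n)))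
      (wA.comp hs))) _ hpos
    have e4 := (Metric.tendsto_nhds.1 (WLim.pair hζ (hζ.memLp_smooth hU (sA' (s n)))
      (wB.comp hs))) _ hpos
    obtain ⟨k, h0, h1, h2, h3, h4⟩ :=
      ((eventually_ge_atTop n).and (e1.and (e2.and (e3.and e4)))).exists
    exact ⟨k, h0, h1, h2, h3, h4⟩
  choose k hkn hk1 hk2 hk3 hk4 using hk
  have hkt : Tendsto k atTop atTop := tendsto_atTop_mono hkn tendsto_id
  have ht : Tendsto (fun n => s (k n)) atTop atTop := hs.comp hkt
  -- the div-curl lemma for the differences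
  have hR : LBdd 2 U (fun n z => dz (fun z => A (s n) z - A (s (k n)) z) z +
      dzb (fun z => B (s n) z - B (s (k n)) z) z) := by
    have sR : SmoothSeq U (fun n z => dz (A n) z + dzb (B n) z) := (sA.dz hU).add (sB.dzb hU)
    refine ((bR.comp hs).sub (sR.comp s) (bR.comp ht) (sR.comp fun n => s (k n))).congr ?_
    intro n z hz
    have dA : ∀ m, DifferentiableAt ℝ (A m) z := fun m =>
      ((sA m).contDiffAt (hU.mem_nhds hz)).differentiableAt (by simp)
    have dB : ∀ m, DifferentiableAt ℝ (B m) z := fun m =>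
      ((sB m).contDiffAt (hU.mem_nhds hz)).differentiableAt (by simp)
    rw [dz_sub (dA _) (dA _), dzb_sub (dB _) (dB _)]
    ring
  have hR' : LBdd 2 U (fun n z => dz (fun z => A' (s n) z - A' (s (k n)) z) z +
      dzb (fun z => B' (s n) z - B' (s (k n)) z) z) := by
    have sR : SmoothSeq U (fun n z => dz (A' n) z + dzb (B' n) z) := (sA'.dz hU).add (sB'.dzb hU)
    refine ((bR'.comp hs).sub (sR.comp s) (bR'.comp ht) (sR.comp fun n => s (k n))).congr ?_
    intro n z hz
    have dA : ∀ m, DifferentiableAt ℝ (A' m) z := fun m =>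
      ((sA' m).contDiffAt (hU.mem_nhds hz)).differentiableAt (by simp)
    have dB : ∀ m, DifferentiableAt ℝ (B' m) z := fun m =>
      ((sB' m).contDiffAt (hU.mem_nhds hz)).differentiableAt (by simp)
    rw [dz_sub (dA _) (dA _), dzb_sub (dB _) (dB _)]
    ring
  have h0 := div_curl_zero hU
    (A := fun n z => A (s n) z - A (s (k n)) z) (B := fun n z => B (s n) z - B (s (k n)) z)
    (A' := fun n z => A' (s n) z - A' (s (k n)) z) (B' := fun n z => B' (s n) z - B' (s (k n)) z)
    ((sA.comp s).sub (sA.comp fun n => s (k n))) ((sB.comp s).sub (sB.comp fun n => s (k n)))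
    ((sA'.comp s).sub (sA'.comp fun n => s (k n))) ((sB'.comp s).sub (sB'.comp fun n => s (k n)))
    ((bA.comp hs).sub (sA.comp s) (bA.comp ht) (sA.comp fun n => s (k n)))
    ((bB.comp hs).sub (sB.comp s) (bB.comp ht) (sB.comp fun n => s (k n)))
    ((bA'.comp hs).sub (sA'.comp s) (bA'.comp ht) (sA'.comp fun n => s (k n)))
    ((bB'.comp hs).sub (sB'.comp s) (bB'.comp ht) (sB'.comp fun n => s (k n)))
    hR hR' (fun η hη => wA.sub_test hU sA hs ht hη) (fun η hη => wB.sub_test hU sB hs ht hη) hζ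
  -- expansion
  have hexp : ∀ n, ∫ w, ζ w * ((A (s n) w - A (s (k n)) w) * (B' (s n) w - B' (s (k n)) w) -
        (B (s n) w - B (s (k n)) w) * (A' (s n) w - A' (s (k n)) w)) =
      (∫ w, ζ w * (A (s n) w * B' (s n) w - B (s n) w * A' (s n) w)) +
      (∫ w, ζ w * (A (s (k n)) w * B' (s (k n)) w - B (s (k n)) w * A' (s (k n)) w)) -
      ((∫ w, ζ w * (A (s n) w * B' (s (k n)) w)) - ∫ w, ζ w * (B (s n) w * A' (s (k n)) w)) -
      ((∫ w, ζ w * (B' (s n) w * A (s (k n)) w)) - ∫ w, ζ w * (A' (s n) w * B (s (k n)) w)) := by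
    intro n
    have i1 : Integrable fun w => ζ w * (A (s n) w * B' (s n) w - B (s n) w * A' (s n) w) :=
      hζ.integrable_mul hU
        (((sA (s n)).mul (sB' (s n))).sub ((sB (s n)).mul (sA' (s n)))).continuousOn
    have i2 : Integrable fun w => ζ w * (A (s (k n)) w * B' (s (k n)) w -
        B (s (k n)) w * A' (s (k n)) w) :=
      hζ.integrable_mul hU (((sA (s (k n))).mul (sB' (s (k n)))).sub
        ((sB (s (k n))).mul (sA' (s (k n))))).continuousOn
    have i3 := hint sA sB' (s n) (s (k n))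
    have i4 := hint sB sA' (s n) (s (k n))
    have i5 := hint sB' sA (s n) (s (k n))
    have i6 := hint sA' sB (s n) (s (k n))
    have i12 : Integrable fun w => ζ w * (A (s n) w * B' (s n) w - B (s n) w * A' (s n) w) +
        ζ w * (A (s (k n)) w * B' (s (k n)) w - B (s (k n)) w * A' (s (k n)) w) := i1.add i2
    have i34 : Integrable fun w => ζ w * (A (s n) w * B' (s (k n)) w) -
        ζ w * (B (s n) w * A' (s (k n)) w) := i3.sub i4
    have i56 : Integrable fun w => ζ w * (B' (s n) w * A (s (k n)) w) -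
        ζ w * (A' (s n) w * B (s (k n)) w) := i5.sub i6
    have i1234 : Integrable fun w => (ζ w * (A (s n) w * B' (s n) w - B (s n) w * A' (s n) w) +
        ζ w * (A (s (k n)) w * B' (s (k n)) w - B (s (k n)) w * A' (s (k n)) w)) -
        (ζ w * (A (s n) w * B' (s (k n)) w) - ζ w * (B (s n) w * A' (s (k n)) w)) := i12.sub i34
    rw [← integral_add i1 i2, ← integral_sub i3 i4, ← integral_sub i5 i6,
      ← integral_sub i12 i34, ← integral_sub i1234 i56]
    exact integral_congr_ae (Filter.Eventually.of_forall fun z => by simp only []; ring)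
  -- limits of the mixed terms
  have hε : Tendsto (fun n : ℕ => 1 / ((n : ℝ) + 1)) atTop (𝓝 0) :=
    tendsto_one_div_add_atTop_nhds_zero_nat
  have mixed : ∀ {f g : ℕ → ℂ} {L : ℂ}, (∀ n, dist (f n) (g n) < 1 / ((n : ℝ) + 1)) →
      Tendsto g atTop (𝓝 L) → Tendsto f atTop (𝓝 L) := by
    intro f g L h1 h2
    have h3 : Tendsto (fun n => dist (g n) (f n)) atTop (𝓝 0) :=
      squeeze_zero (fun n => dist_nonneg) (fun n => by rw [dist_comm]; exact (h1 n).le) hε
    exact (tendsto_iff_of_dist h3).1 h2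
  have swap : ∀ {X : ℕ → ℂ → ℂ} {Y : ℂ → ℂ} {w : ℂ → ℂ}, WLim U X w → LocL2 U Y →
      Tendsto (fun n => ∫ z, ζ z * (X (s n) z * Y z)) atTop (𝓝 (∫ z, ζ z * (w z * Y z))) := by
    intro X Y w h1 h2
    have h3 := WLim.pair hζ (hζ.memLp h2) (h1.comp hs)
    simpa only [mul_comm (Y _)] using h3
  have m1 := mixed hk1 (swap wA lb')
  have m2 := mixed hk2 (swap wB la')
  have m3 := mixed hk3 (swap wB' la)
  have m4 := mixed hk4 (swap wA' lb)
  have hlim := ((hT1.add (hT1.comp hkt)).sub (m1.sub m2)).sub (m3.sub m4)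
  have e1 : (∫ w, ζ w * (a w * b' w)) - ∫ w, ζ w * (b w * a' w) = T :=
    (hsplit (hζ.integrable_mul2 la lb') (hζ.integrable_mul2 lb la')).symm
  have e2 : (∫ w, ζ w * (b' w * a w)) - ∫ w, ζ w * (a' w * b w) = T := by
    rw [← e1]
    simp only [mul_comm (b' _), mul_comm (a' _)]
  rw [e1, e2] at hlim
  have hzero : Tendsto (fun n => ∫ w, ζ w * ((A (s n) w - A (s (k n)) w) *
      (B' (s n) w - B' (s (k n)) w) - (B (s n) w - B (s (k n)) w) *
      (A' (s n) w - A' (s (k n)) w))) atTop (𝓝 (T' + T' - T - T)) := by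
    refine hlim.congr fun n => ?_
    rw [hexp n]
    rfl
  have := tendsto_nhds_unique h0 hzero
  have h2 : (2 : ℂ) * (T' - T) = 0 := by linear_combination -this
  have h3 : T' - T = 0 := by
    rcases mul_eq_zero.1 h2 with h | h
    · norm_num at h
    · exact h
  exact sub_eq_zero.1 h3

end

end QE


end
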