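import Mathlib

/-! Parts: LibH11.Berry.MV, LibH11.Berry.Equi, LibH11.Berry.Equi2, LibH11.Berry.Det, LibH11.Berry.Det2, Lib_helper67.QE.Alg, Lib_helper67.QE.Alg2, Lib_helper67.QE.Alg3 -/

section

/-!
A mean value formula with smooth compactly supported radial weights.
-/

open Complex Filter Topology MeasureTheory Metric InnerProductSpace Laplacian
open scoped ENNReal ContDiff

namespace Berry

noncomputable section

/-- a smooth decreasing function vanishing on `[1, ∞)` -/
def bfun (s : ℝ) : ℝ := expNegInvGlue (1 - s)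

/-- a smooth radial bump -/
def Phi (z : ℂ) : ℝ := bfun (‖z‖ ^ 2)

/-- the radial weight with `∇ Φ(z) = β(z) z` -/
def bet (z : ℂ) : ℝ := 2 * deriv bfun (‖z‖ ^ 2)

lemma bfun_contDiff {n : ℕ∞} : ContDiff ℝ n bfun :=
  expNegInvGlue.contDiff.comp (contDiff_const.sub contDiff_id)

lemma bfun_zero {s : ℝ} (hs : 1 ≤ s) : bfun s = 0 :=
  expNegInvGlue.zero_of_nonpos (by linarith)

lemma bfun_antitone : Antitone bfun := fun _ _ h => expNegInvGlue.monotone (by linarith)

lemma bfun_nonneg (s : ℝ) : 0 ≤ bfun s := expNegInvGlue.nonneg _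

lemma deriv_bfun_continuous : Continuous (deriv bfun) :=
  (bfun_contDiff (n := 1)).continuous_deriv (by norm_num)

lemma deriv_bfun_nonpos (s : ℝ) : deriv bfun s ≤ 0 := bfun_antitone.deriv_nonpos

lemma deriv_bfun_zero {s : ℝ} (hs : 1 ≤ s) : deriv bfun s = 0 := by
  have h1 : ∀ s : ℝ, 1 < s → deriv bfun s = 0 := by
    intro s hs
    have : bfun =ᶠ[𝓝 s] fun _ => 0 := by
      filter_upwards [lt_mem_nhds hs] with x hx
      exact bfun_zero hx.le
    rw [this.deriv_eq]; simp
  have hcl : IsClosed {s : ℝ | deriv bfun s = 0} := isClosed_eq deriv_bfun_continuous continuous_const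
  have h2 : Set.Ici (1:ℝ) ⊆ {s : ℝ | deriv bfun s = 0} := by
    rw [← closure_Ioi (1:ℝ)]
    exact hcl.closure_subset_iff.2 (fun s hs => h1 s hs)
  exact h2 hs

lemma norm_sq_contDiff {n : WithTop ℕ∞} : ContDiff ℝ n (fun z : ℂ => ‖z‖ ^ 2) := contDiff_norm_sq ℝ

lemma Phi_contDiff {n : ℕ∞} : ContDiff ℝ n Phi := bfun_contDiff.comp norm_sq_contDiff

lemma Phi_nonneg (z : ℂ) : 0 ≤ Phi z := bfun_nonneg _

lemma Phi_zero {z : ℂ} (hz : z ∉ closedBall (0:ℂ) 1) : Phi z = 0 := by
  rw [mem_closedBall, dist_zero_right, not_le] at hz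
  exact bfun_zero (by nlinarith only [hz])

lemma bet_zero {z : ℂ} (hz : z ∉ closedBall (0:ℂ) 1) : bet z = 0 := by
  rw [mem_closedBall, dist_zero_right, not_le] at hz
  unfold bet
  rw [deriv_bfun_zero (by nlinarith only [hz])]; ring

lemma Phi_hcs : HasCompactSupport Phi :=
  HasCompactSupport.intro (isCompact_closedBall (0:ℂ) 1) fun _ hz => Phi_zero hz

lemma bet_hcs : HasCompactSupport bet :=
  HasCompactSupport.intro (isCompact_closedBall (0:ℂ) 1) fun _ hz => bet_zero hz

lemma Phi_continuous : Continuous Phi := (Phi_contDiff (n := 0)).continuous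

lemma bet_continuous : Continuous bet :=
  continuous_const.mul (deriv_bfun_continuous.comp (continuous_norm.pow 2))

lemma bet_nonpos (z : ℂ) : bet z ≤ 0 := by
  unfold bet
  have := deriv_bfun_nonpos (‖z‖ ^ 2)
  linarith

/-- the total mass of the weight -/
def kap : ℝ := ∫ z, bet z

lemma kap_neg : kap < 0 := by
  -- `b` is not constant on `[0,1]`
  obtain ⟨s, hs, hd⟩ : ∃ s ∈ Set.Ioo (0:ℝ) 1, deriv bfun s = (bfun 1 - bfun 0) / (1 - 0) := by
    apply exists_deriv_eq_slope bfun (by norm_num)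
    · exact (bfun_contDiff (n := 0)).continuous.continuousOn
    · exact ((bfun_contDiff (n := 1)).differentiable (by norm_num)).differentiableOn
  have h1 : bfun 1 = 0 := bfun_zero le_rfl
  have h0 : 0 < bfun 0 := expNegInvGlue.pos_of_pos (by norm_num)
  have hneg : deriv bfun s < 0 := by rw [hd, h1]; linarith
  have hz : bet ((Real.sqrt s : ℝ) : ℂ) ≠ 0 := by
    unfold bet
    rw [Complex.norm_real, Real.norm_of_nonneg (Real.sqrt_nonneg _), Real.sq_sqrt hs.1.le]
    linarith
  have hpos : 0 < ∫ z, -(bet z) := by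
    apply Continuous.integral_pos_of_hasCompactSupport_nonneg_nonzero (bet_continuous.neg)
      bet_hcs.neg (fun z => by
        have := bet_nonpos z
        simp only [Pi.zero_apply, Pi.neg_apply]; linarith) (x := ((Real.sqrt s : ℝ) : ℂ))
    simpa using hz
  rw [integral_neg] at hpos
  unfold kap
  linarith

lemma fderiv_Phi (z v : ℂ) : fderiv ℝ Phi z v = bet z * inner ℝ z v := by
  have h1 : HasFDerivAt (fun z : ℂ => ‖z‖ ^ 2) (2 • (innerSL ℝ z)) z :=
    (hasStrictFDerivAt_norm_sq z).hasFDerivAt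
  have h2 : HasDerivAt bfun (deriv bfun (‖z‖ ^ 2)) (‖z‖ ^ 2) :=
    (((bfun_contDiff (n := 1)).differentiable (by norm_num)) _).hasDerivAt
  have h3 := h2.comp_hasFDerivAt z h1
  have h4 : (bfun ∘ fun z : ℂ => ‖z‖ ^ 2) = Phi := rfl
  rw [h4] at h3
  rw [h3.fderiv]
  simp [bet]
  ring

lemma inner_one (z : ℂ) : inner ℝ z (1:ℂ) = z.re := by
  simp [Complex.inner]

lemma inner_I (z : ℂ) : inner ℝ z I = z.im := by
  simp [Complex.inner]

lemma fderiv_coord {f : ℂ → ℝ} (p z : ℂ) :
    fderiv ℝ f p z = z.re * fderiv ℝ f p 1 + z.im * fderiv ℝ f p I := by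
  have h1 : z = z.re • (1:ℂ) + z.im • I := by simp
  conv_lhs => rw [h1]
  rw [map_add, map_smul, map_smul, smul_eq_mul, smul_eq_mul]

lemma laplacian_eq_sndR (g : ℂ → ℝ) (y : ℂ) :
    (Δ g) y = fderiv ℝ (fderiv ℝ g) y 1 1 + fderiv ℝ (fderiv ℝ g) y I I := by
  rw [laplacian_eq_iteratedFDeriv_complexPlane]
  simp [iteratedFDeriv_two_apply]

lemma laplacian_continuous {f : ℂ → ℝ} (hf : ContDiff ℝ 2 f) : Continuous (Δ f) := by
  have h1 : ContDiff ℝ 1 (fderiv ℝ f) := hf.fderiv_right (m := 1) (by norm_num)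
  have h2 : Continuous (fderiv ℝ (fderiv ℝ f)) := h1.continuous_fderiv (by norm_num)
  have h3 : (Δ f) = fun y => fderiv ℝ (fderiv ℝ f) y 1 1 + fderiv ℝ (fderiv ℝ f) y I I := by
    funext y; exact laplacian_eq_sndR f y
  rw [h3]
  exact ((h2.clm_apply continuous_const).clm_apply continuous_const).add
    ((h2.clm_apply continuous_const).clm_apply continuous_const)

/-- integration by parts against `Φ` -/
lemma ibp_Phi {f : ℂ → ℝ} (hf : ContDiff ℝ 2 f) (t : ℂ) (s : ℝ) :
    ∫ z, bet z * fderiv ℝ f (t + s • z) z = - s * ∫ z, Phi z * (Δ f) (t + s • z) := by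
  have h1 : ContDiff ℝ 1 (fderiv ℝ f) := hf.fderiv_right (m := 1) (by norm_num)
  have hcm : Continuous fun z : ℂ => t + s • z := by fun_prop
  have key : ∀ v : ℂ, ∫ z, bet z * inner ℝ z v * fderiv ℝ f (t + s • z) v
      = - ∫ z, Phi z * (s * fderiv ℝ (fderiv ℝ f) (t + s • z) v v) := by
    intro v
    have hg1 : ContDiff ℝ 1 fun p => fderiv ℝ f p v := h1.clm_apply contDiff_const
    have hgd : ∀ z, HasFDerivAt (fun z : ℂ => fderiv ℝ f (t + s • z) v)
        ((fderiv ℝ (fun p => fderiv ℝ f p v) (t + s • z)).comp (s • ContinuousLinearMap.id ℝ ℂ)) z := by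
      intro z
      have a1 : HasFDerivAt (fun z : ℂ => t + s • z) (s • ContinuousLinearMap.id ℝ ℂ) z :=
        ((hasFDerivAt_id (𝕜 := ℝ) z).const_smul s).const_add t
      exact ((hg1.differentiable (by norm_num)) (t + s • z)).hasFDerivAt.comp z a1
    have hgf : ∀ z, fderiv ℝ (fun z : ℂ => fderiv ℝ f (t + s • z) v) z v
        = s * fderiv ℝ (fderiv ℝ f) (t + s • z) v v := by
      intro z
      rw [(hgd z).fderiv]
      have a2 : fderiv ℝ (fun p => fderiv ℝ f p v) (t + s • z) v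
          = fderiv ℝ (fderiv ℝ f) (t + s • z) v v := by
        have h2 : DifferentiableAt ℝ (fderiv ℝ f) (t + s • z) :=
          (h1.differentiable (by norm_num)) _
        rw [fderiv_clm_apply h2 (differentiableAt_const v)]
        simp
      rw [ContinuousLinearMap.comp_apply, _root_.smul_apply, ContinuousLinearMap.id_apply,
        map_smul, smul_eq_mul, a2]
    have c1 : Continuous fun z : ℂ => fderiv ℝ f (t + s • z) v :=
      (hg1.continuous).comp hcm
    have h2c : Continuous (fderiv ℝ (fderiv ℝ f)) := h1.continuous_fderiv (by norm_num)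
    have c2 : Continuous fun z : ℂ => s * fderiv ℝ (fderiv ℝ f) (t + s • z) v v :=
      continuous_const.mul (((h2c.comp hcm).clm_apply continuous_const).clm_apply continuous_const)
    have i1 : Integrable (fun z => fderiv ℝ Phi z v * fderiv ℝ f (t + s • z) v) := by
      have hc : Continuous fun z => fderiv ℝ Phi z v :=
        ((Phi_contDiff (n := 1)).continuous_fderiv (by norm_num)).clm_apply continuous_const
      refine (hc.mul c1).integrable_of_hasCompactSupport ?_
      have : HasCompactSupport fun z => fderiv ℝ Phi z v := by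
        have := (Phi_hcs).fderiv ℝ
        refine this.mono ?_
        intro y hy
        simp only [Function.mem_support, ne_eq] at hy ⊢
        intro h2
        apply hy
        rw [h2]; simp
      exact this.mul_right
    have i2 : Integrable (fun z => Phi z * fderiv ℝ (fun z : ℂ => fderiv ℝ f (t + s • z) v) z v) := by
      simp only [hgf]
      exact (Phi_continuous.mul c2).integrable_of_hasCompactSupport Phi_hcs.mul_right
    have i3 : Integrable (fun z => Phi z * fderiv ℝ f (t + s • z) v) :=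
      (Phi_continuous.mul c1).integrable_of_hasCompactSupport Phi_hcs.mul_right
    have := integral_mul_fderiv_eq_neg_fderiv_mul_of_integrable i1 i2 i3
      (fun x _ => ((Phi_contDiff (n := 1)).differentiable (by norm_num)) x)
      (fun x _ => (hgd x).differentiableAt)
    simp only [hgf, fderiv_Phi] at this
    rw [this, neg_neg]
  have k1 := key 1
  have k2 := key I
  simp only [inner_one, inner_I] at k1 k2
  have h2c : Continuous (fderiv ℝ (fderiv ℝ f)) := h1.continuous_fderiv (by norm_num)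
  have cc : ∀ v : ℂ, Continuous fun z : ℂ => s * fderiv ℝ (fderiv ℝ f) (t + s • z) v v := fun v =>
    continuous_const.mul (((h2c.comp hcm).clm_apply continuous_const).clm_apply continuous_const)
  have c1 : ∀ v : ℂ, Continuous fun z : ℂ => fderiv ℝ f (t + s • z) v := fun v =>
    ((h1.continuous).comp hcm).clm_apply continuous_const
  have j1 : Integrable fun z => bet z * z.re * fderiv ℝ f (t + s • z) 1 :=
    (((bet_continuous.mul continuous_re).mul (c1 1))).integrable_of_hasCompactSupport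
      (bet_hcs.mul_right.mul_right)
  have j2 : Integrable fun z => bet z * z.im * fderiv ℝ f (t + s • z) I :=
    (((bet_continuous.mul continuous_im).mul (c1 I))).integrable_of_hasCompactSupport
      (bet_hcs.mul_right.mul_right)
  have l1 : Integrable fun z => Phi z * (s * fderiv ℝ (fderiv ℝ f) (t + s • z) 1 1) :=
    (Phi_continuous.mul (cc 1)).integrable_of_hasCompactSupport Phi_hcs.mul_right
  have l2 : Integrable fun z => Phi z * (s * fderiv ℝ (fderiv ℝ f) (t + s • z) I I) :=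
    (Phi_continuous.mul (cc I)).integrable_of_hasCompactSupport Phi_hcs.mul_right
  calc ∫ z, bet z * fderiv ℝ f (t + s • z) z
      = ∫ z, (bet z * z.re * fderiv ℝ f (t + s • z) 1 + bet z * z.im * fderiv ℝ f (t + s • z) I) := by
        congr 1; funext z
        rw [fderiv_coord (f := f) (t + s • z) z]; ring
    _ = - ∫ z, (Phi z * (s * fderiv ℝ (fderiv ℝ f) (t + s • z) 1 1)
        + Phi z * (s * fderiv ℝ (fderiv ℝ f) (t + s • z) I I)) := by
        rw [integral_add j1 j2, integral_add l1 l2, k1, k2]; ring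
    _ = ∫ z, (- s) * (Phi z * (Δ f) (t + s • z)) := by
        rw [← integral_neg]
        congr 1; funext z
        rw [laplacian_eq_sndR]; ring
    _ = _ := by rw [integral_const_mul]

/-- derivative of the smooth means in the radius -/
lemma hasDerivAt_mean {f : ℂ → ℝ} (hf : ContDiff ℝ 2 f) (t : ℂ) (s : ℝ) :
    HasDerivAt (fun s : ℝ => ∫ z, bet z * f (t + s • z))
      (- s * ∫ z, Phi z * (Δ f) (t + s • z)) s := by
  rw [← ibp_Phi hf t s]
  have hfc : Continuous f := hf.continuous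
  have hdf : Continuous (fderiv ℝ f) := hf.continuous_fderiv (by norm_num)
  -- bound on the derivative
  obtain ⟨M, hM⟩ := (isCompact_closedBall t (|s| + 1)).exists_bound_of_continuousOn hdf.continuousOn
  have hM0 : 0 ≤ M := (norm_nonneg _).trans (hM t (mem_closedBall_self (by positivity)))
  have hb : ∀ z : ℂ, ∀ x ∈ ball s 1, ‖bet z * fderiv ℝ f (t + x • z) z‖ ≤ ‖bet z‖ * M := by
    intro z x hx
    by_cases hz : z ∈ closedBall (0:ℂ) 1
    · rw [norm_mul]
      refine mul_le_mul_of_nonneg_left ?_ (norm_nonneg _)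
      rw [mem_closedBall, dist_zero_right] at hz
      rw [mem_ball, Real.dist_eq] at hx
      have hx2 : |x| ≤ |s| + 1 := by
        have := abs_sub_abs_le_abs_sub x s
        linarith
      have h1 : t + x • z ∈ closedBall t (|s| + 1) := by
        rw [mem_closedBall, dist_eq_norm, add_sub_cancel_left, norm_smul, Real.norm_eq_abs]
        calc |x| * ‖z‖ ≤ (|s| + 1) * 1 := by gcongr
          _ = _ := mul_one _
      calc ‖fderiv ℝ f (t + x • z) z‖ ≤ ‖fderiv ℝ f (t + x • z)‖ * ‖z‖ :=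
            ContinuousLinearMap.le_opNorm _ _
        _ ≤ M * 1 := mul_le_mul (hM _ h1) hz (norm_nonneg _) hM0
        _ = M := mul_one _
    · rw [bet_zero hz]; simp
  have := hasDerivAt_integral_of_dominated_loc_of_deriv_le (μ := (volume : Measure ℂ))
    (F := fun (x : ℝ) (z : ℂ) => bet z * f (t + x • z))
    (F' := fun (x : ℝ) (z : ℂ) => bet z * fderiv ℝ f (t + x • z) z)
    (x₀ := s) (bound := fun z => ‖bet z‖ * M) (s := ball s 1) (ball_mem_nhds s one_pos)
    (Eventually.of_forall fun x => ?_) ?_ ?_ (Eventually.of_forall hb) ?_ ?_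
  · exact this.2
  · exact (bet_continuous.mul (hfc.comp (by fun_prop))).aestronglyMeasurable
  · exact (bet_continuous.mul (hfc.comp (by fun_prop))).integrable_of_hasCompactSupport
      bet_hcs.mul_right
  · have hc : Continuous fun z : ℂ => t + s • z := by fun_prop
    exact (bet_continuous.mul ((hdf.comp hc).clm_apply continuous_id)).aestronglyMeasurable
  · have hi : Integrable bet := bet_continuous.integrable_of_hasCompactSupport bet_hcs
    exact hi.norm.mul_const M
  · refine Eventually.of_forall fun z x _ => ?_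
    have a1 : HasDerivAt (fun x : ℝ => t + x • z) z x := by
      have := ((hasDerivAt_id x).smul_const z).const_add t
      simpa using this
    have a2 := ((hf.differentiable (by norm_num)) (t + x • z)).hasFDerivAt.comp_hasDerivAt x a1
    exact a2.const_mul (bet z)

/-- **Mean value formula.** -/
lemma mean_value {f : ℂ → ℝ} (hf : ContDiff ℝ 2 f) (t : ℂ) (ε : ℝ) :
    kap * f t = (∫ z, bet z * f (t + ε • z))
      + ∫ s in (0:ℝ)..ε, s * ∫ z, Phi z * (Δ f) (t + s • z) := by
  have hc : Continuous fun s : ℝ => ∫ z, Phi z * (Δ f) (t + s • z) := by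
    have e : (fun s : ℝ => ∫ z, Phi z * (Δ f) (t + s • z))
        = fun s : ℝ => ∫ z in closedBall (0:ℂ) 1, Phi z * (Δ f) (t + s • z) := by
      funext s
      rw [setIntegral_eq_integral_of_forall_compl_eq_zero]
      intro z hz
      rw [Phi_zero hz]; simp
    rw [e]
    have hl := laplacian_continuous hf
    have h1 : Continuous fun p : ℝ × ℂ => t + p.1 • p.2 := by fun_prop
    have h2 : Continuous (Function.uncurry fun (s : ℝ) (z : ℂ) => Phi z * (Δ f) (t + s • z)) :=
      (Phi_continuous.comp continuous_snd).mul (hl.comp h1)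
    exact continuous_parametric_integral_of_continuous h2 (isCompact_closedBall (0:ℂ) 1)
  have h1 : ∫ s in (0:ℝ)..ε, (- s * ∫ z, Phi z * (Δ f) (t + s • z))
      = (∫ z, bet z * f (t + ε • z)) - ∫ z, bet z * f (t + (0:ℝ) • z) := by
    apply intervalIntegral.integral_eq_sub_of_hasDerivAt
    · intro s _
      exact hasDerivAt_mean hf t s
    · exact (continuous_neg.mul hc).intervalIntegrable _ _
  have h2 : ∫ z, bet z * f (t + (0:ℝ) • z) = kap * f t := by
    simp only [zero_smul, add_zero]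
    rw [integral_mul_const]; rfl
  have h3 : ∫ s in (0:ℝ)..ε, (- s * ∫ z, Phi z * (Δ f) (t + s • z))
      = - ∫ s in (0:ℝ)..ε, s * ∫ z, Phi z * (Δ f) (t + s • z) := by
    rw [← intervalIntegral.integral_neg]
    congr 1; funext s; ring
  rw [h2, h3] at h1
  linarith

end

end Berry


end

section

/-!
Equicontinuity of correlations of approximate solutions of the Helmholtz equation.
-/

open Complex Filter Topology MeasureTheory Metric InnerProductSpace Laplacian
open scoped ENNReal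

namespace Berry

noncomputable section

variable {Ω : Type*} [MeasurableSpace Ω] {P : Measure Ω} [IsProbabilityMeasure P]

lemma integrable_bdd {α : Type*} [MeasurableSpace α] {μ : Measure α} [IsFiniteMeasure μ]
    {f : α → ℝ} (hm : Measurable f) {C : ℝ} (hC : ∀ a, |f a| ≤ C) : Integrable f μ :=
  Integrable.of_bound hm.aestronglyMeasurable C (Eventually.of_forall fun a => hC a)

lemma swap_bdd {α β : Type*} [MeasurableSpace α] [MeasurableSpace β] {μ : Measure α}
    [IsFiniteMeasure μ] {ν : Measure β} [IsFiniteMeasure ν]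
    {f : β → α → ℝ} (hm : Measurable (Function.uncurry f)) {C : ℝ} (hC : ∀ b a, |f b a| ≤ C) :
    ∫ b, ∫ a, f b a ∂μ ∂ν = ∫ a, ∫ b, f b a ∂ν ∂μ :=
  integral_integral_swap (integrable_bdd hm fun _ => hC _ _)

/-- the hypotheses on a single random function -/
structure SingleW (P : Measure Ω) (F : ℂ → Ω → ℝ) : Prop where
  meas : ∀ x, Measurable (F x)
  smooth : ∀ ω, ContDiff ℝ 2 (fun x => F x ω)
  bdd : ∃ K : ℝ, ∀ x ω, |F x ω| ≤ K

omit [IsProbabilityMeasure P] in
lemma SingleW.meas_uncurry {F : ℂ → Ω → ℝ} (hF : SingleW P F) : Measurable (Function.uncurry F) :=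
  measurable_uncurry_of_continuous_of_measurable (fun ω => (hF.smooth ω).continuous) hF.meas

lemma restrict_closedBall_finite : IsFiniteMeasure ((volume : Measure ℂ).restrict (closedBall 0 1)) :=
  ⟨by rw [Measure.restrict_apply_univ]; exact (isCompact_closedBall (0:ℂ) 1).measure_lt_top⟩

lemma int_Phi_eq (g : ℂ → ℝ) : ∫ z, Phi z * g z = ∫ z in closedBall (0:ℂ) 1, Phi z * g z := by
  rw [setIntegral_eq_integral_of_forall_compl_eq_zero]
  intro z hz
  rw [Phi_zero hz]; simp

lemma int_bet_eq (g : ℂ → ℝ) : ∫ z, bet z * g z = ∫ z in closedBall (0:ℂ) 1, bet z * g z := by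
  rw [setIntegral_eq_integral_of_forall_compl_eq_zero]
  intro z hz
  rw [bet_zero hz]; simp

lemma Phi_le : ∃ C : ℝ, ∀ z, |Phi z| ≤ C := by
  obtain ⟨C, hC⟩ := Phi_hcs.exists_bound_of_continuous Phi_continuous
  exact ⟨C, hC⟩

lemma bet_le : ∃ C : ℝ, ∀ z, |bet z| ≤ C := by
  obtain ⟨C, hC⟩ := bet_hcs.exists_bound_of_continuous bet_continuous
  exact ⟨C, hC⟩

/-- total mass of `Φ` -/
def kPhi : ℝ := ∫ z, Phi z

lemma kPhi_nonneg : 0 ≤ kPhi := integral_nonneg Phi_nonneg

/-- **mean value estimate** for correlations -/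
lemma mean_estimate {F : ℂ → Ω → ℝ} (hF : SingleW P F) {G : Ω → ℝ} (hG : Measurable G)
    (hGb : ∃ K : ℝ, ∀ ω, |G ω| ≤ K) {M : ℝ} (hM : ∀ y, ∫ ω, |F y ω| * |G ω| ∂P ≤ M)
    {r δ : ℝ} (hδ : 0 ≤ δ)
    (heq : ∀ ω, ∀ x ∈ ball (0:ℂ) r, |(Δ (fun x => F x ω)) x + F x ω| ≤ δ * |F x ω|)
    {t : ℂ} {ε : ℝ} (hε : 0 ≤ ε) (ht : ‖t‖ + ε < r) :
    |kap * (∫ ω, F t ω * G ω ∂P) - ∫ z, bet z * ∫ ω, F (t + ε • z) ω * G ω ∂P|
      ≤ (1 + δ) * (M * kPhi * (ε ^ 2 / 2)) := by
  have := restrict_closedBall_finite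
  have hfin : IsFiniteMeasure ((volume : Measure ℝ).restrict (Set.Ioc 0 ε)) :=
    ⟨by rw [Measure.restrict_apply_univ]; exact measure_Ioc_lt_top⟩
  obtain ⟨K, hK⟩ := hF.bdd
  obtain ⟨K', hK'⟩ := hGb
  obtain ⟨CP, hCP⟩ := Phi_le
  obtain ⟨Cb, hCb⟩ := bet_le
  have hK0 : ∀ ω : Ω, 0 ≤ K := fun ω => (abs_nonneg _).trans (hK 0 ω)
  have hmF := hF.meas_uncurry
  -- the pointwise error
  set A : Ω → ℝ := fun ω => kap * F t ω - ∫ z, bet z * F (t + ε • z) ω with hA
  set I : ℝ → Ω → ℝ := fun s ω => ∫ z in closedBall (0:ℂ) 1, Phi z * |F (t + s • z) ω| with hI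
  -- measurability
  have hmz : Measurable fun p : (ℝ × Ω) × ℂ => Phi p.2 * |F (t + p.1.1 • p.2) p.1.2| := by
    have h1 : Measurable fun p : (ℝ × Ω) × ℂ => (t + p.1.1 • p.2, p.1.2) := by fun_prop
    have h2 : Measurable fun p : (ℝ × Ω) × ℂ => F (t + p.1.1 • p.2) p.1.2 := hmF.comp h1
    exact (Phi_continuous.measurable.comp measurable_snd).mul h2.abs
  have hmI : Measurable (Function.uncurry I) := by
    have : StronglyMeasurable fun q : ℝ × Ω => ∫ z, Phi z * |F (t + q.1 • z) q.2|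
        ∂((volume : Measure ℂ).restrict (closedBall 0 1)) :=
      hmz.stronglyMeasurable.integral_prod_right'
    exact this.measurable
  have hIb : ∀ s ω, |I s ω| ≤ CP * K * ((volume : Measure ℂ).restrict (closedBall 0 1)).real Set.univ := by
    intro s ω
    have := norm_integral_le_of_norm_le_const
      (μ := (volume : Measure ℂ).restrict (closedBall 0 1)) (f := fun z => Phi z * |F (t + s • z) ω|)
      (C := CP * K) (Eventually.of_forall fun z => by
        rw [norm_mul, Real.norm_eq_abs, Real.norm_eq_abs, abs_abs]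
        exact mul_le_mul (hCP z) (hK _ _) (abs_nonneg _) ((abs_nonneg _).trans (hCP z)))
    exact this
  have hI0 : ∀ s ω, 0 ≤ I s ω := fun s ω => integral_nonneg fun z =>
    mul_nonneg (Phi_nonneg z) (abs_nonneg _)
  -- pointwise bound
  have hpt : ∀ ω, |A ω| ≤ (1 + δ) * ∫ s in Set.Ioc (0:ℝ) ε, s * I s ω := by
    intro ω
    have h1 := mean_value (hF.smooth ω) t ε
    have h2 : A ω = ∫ s in (0:ℝ)..ε, s * ∫ z, Phi z * (Δ (fun x => F x ω)) (t + s • z) := by
      simp only [hA]; rw [h1]; ring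
    rw [h2, intervalIntegral.integral_of_le hε]
    have hcI : Continuous fun s : ℝ => I s ω := by
      have h2 : Continuous (Function.uncurry fun (s : ℝ) (z : ℂ) => Phi z * |F (t + s • z) ω|) := by
        have h1 : Continuous fun p : ℝ × ℂ => t + p.1 • p.2 := by fun_prop
        exact (Phi_continuous.comp continuous_snd).mul (((hF.smooth ω).continuous.comp h1).abs)
      exact continuous_parametric_integral_of_continuous h2 (isCompact_closedBall (0:ℂ) 1)
    rw [← integral_const_mul, ← Real.norm_eq_abs]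
    refine norm_integral_le_of_norm_le ?_ ?_
    · have hcc : Continuous fun s : ℝ => (1 + δ) * (s * I s ω) :=
        continuous_const.mul (continuous_id.mul hcI)
      exact (hcc.integrableOn_Icc (a := 0) (b := ε)).mono_set Set.Ioc_subset_Icc_self
    · refine (ae_restrict_iff' measurableSet_Ioc).2 (Eventually.of_forall fun s hs => ?_)
      rw [norm_mul, Real.norm_eq_abs, abs_of_pos hs.1]
      have h3 : ‖∫ z, Phi z * (Δ (fun x => F x ω)) (t + s • z)‖ ≤ (1 + δ) * I s ω := by
        rw [int_Phi_eq]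
        simp only [hI]
        rw [← integral_const_mul]
        refine norm_integral_le_of_norm_le ?_ ?_
        · have h4 : Continuous fun z : ℂ => (1 + δ) * (Phi z * |F (t + s • z) ω|) := by
            have h1 : Continuous fun z : ℂ => t + s • z := by fun_prop
            exact continuous_const.mul (Phi_continuous.mul
              (((hF.smooth ω).continuous.comp h1).abs))
          exact h4.continuousOn.integrableOn_compact (isCompact_closedBall (0:ℂ) 1)
        · refine (ae_restrict_iff' measurableSet_closedBall).2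
            (Eventually.of_forall fun z hz => ?_)
          rw [norm_mul, Real.norm_eq_abs, abs_of_nonneg (Phi_nonneg z)]
          have hzb : t + s • z ∈ ball (0:ℂ) r := by
            rw [mem_ball, dist_zero_right]
            rw [mem_closedBall, dist_zero_right] at hz
            calc ‖t + s • z‖ ≤ ‖t‖ + ‖s • z‖ := norm_add_le _ _
              _ ≤ ‖t‖ + ε * 1 := by
                  rw [norm_smul, Real.norm_eq_abs, abs_of_pos hs.1]
                  gcongr
                  exact hs.2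
              _ < r := by linarith
          have h5 := heq ω _ hzb
          have h6 : ‖(Δ (fun x => F x ω)) (t + s • z)‖ ≤ (1 + δ) * |F (t + s • z) ω| := by
            rw [Real.norm_eq_abs]
            have h7 : (Δ (fun x => F x ω)) (t + s • z)
                = ((Δ (fun x => F x ω)) (t + s • z) + F (t + s • z) ω) - F (t + s • z) ω := by ring
            rw [h7]
            refine (abs_sub _ _).trans ?_
            linarith
          calc Phi z * ‖(Δ (fun x => F x ω)) (t + s • z)‖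
              ≤ Phi z * ((1 + δ) * |F (t + s • z) ω|) :=
                mul_le_mul_of_nonneg_left h6 (Phi_nonneg z)
            _ = (1 + δ) * (Phi z * |F (t + s • z) ω|) := by ring
      calc s * ‖∫ z, Phi z * (Δ (fun x => F x ω)) (t + s • z)‖ ≤ s * ((1 + δ) * I s ω) :=
            mul_le_mul_of_nonneg_left h3 hs.1.le
        _ = (1 + δ) * (s * I s ω) := by ring
  -- the error in terms of A
  have hmb : Measurable fun p : Ω × ℂ => bet p.2 * F (t + ε • p.2) p.1 * G p.1 := by
    have h1 : Measurable fun p : Ω × ℂ => (t + ε • p.2, p.1) := by fun_prop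
    have h2 : Measurable fun p : Ω × ℂ => F (t + ε • p.2) p.1 := hmF.comp h1
    exact ((bet_continuous.measurable.comp measurable_snd).mul h2).mul (hG.comp measurable_fst)
  have e1 : kap * (∫ ω, F t ω * G ω ∂P) - (∫ z, bet z * ∫ ω, F (t + ε • z) ω * G ω ∂P)
      = ∫ ω, A ω * G ω ∂P := by
    have s1 : ∫ z, bet z * ∫ ω, F (t + ε • z) ω * G ω ∂P
        = ∫ ω, (∫ z, bet z * F (t + ε • z) ω) * G ω ∂P := by
      rw [int_bet_eq]
      have s2 : ∀ z, bet z * ∫ ω, F (t + ε • z) ω * G ω ∂P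
          = ∫ ω, bet z * F (t + ε • z) ω * G ω ∂P := by
        intro z
        rw [← integral_const_mul]
        congr 1; funext ω; ring
      simp only [s2]
      have s3 := swap_bdd (μ := (volume : Measure ℂ).restrict (closedBall 0 1)) (ν := P)
        (f := fun ω z => bet z * F (t + ε • z) ω * G ω) hmb (C := Cb * K * K')
        (fun ω z => by
          rw [abs_mul, abs_mul]
          exact mul_le_mul (mul_le_mul (hCb z) (hK _ _) (abs_nonneg _)
            ((abs_nonneg _).trans (hCb z))) (hK' _) (abs_nonneg _)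
            (mul_nonneg ((abs_nonneg _).trans (hCb z)) (hK0 ω)))
      rw [← s3]
      congr 1; funext ω
      rw [integral_mul_const, ← int_bet_eq]
    rw [s1, ← integral_const_mul, ← integral_sub]
    · congr 1; funext ω; simp only [hA]; ring
    · refine (integrable_bdd (C := K * K') ((hF.meas t).mul hG) fun ω => ?_).const_mul _
      show |F t ω * G ω| ≤ _
      rw [abs_mul]
      exact mul_le_mul (hK _ _) (hK' _) (abs_nonneg _) (hK0 ω)
    · refine integrable_bdd (C := (Cb * K * ((volume : Measure ℂ).restrict (closedBall 0 1)).real Set.univ) * K') ?_ ?_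
      · have : Measurable fun ω => ∫ z, bet z * F (t + ε • z) ω := by
          have h1 : Measurable fun p : Ω × ℂ => (t + ε • p.2, p.1) := by fun_prop
          have h2 : Measurable fun p : Ω × ℂ => bet p.2 * F (t + ε • p.2) p.1 :=
            (bet_continuous.measurable.comp measurable_snd).mul (hmF.comp h1)
          exact (h2.stronglyMeasurable.integral_prod_right' (ν := (volume : Measure ℂ))).measurable
        exact this.mul hG
      · intro ω
        rw [abs_mul]
        have h8 : |∫ z, bet z * F (t + ε • z) ω| ≤ Cb * K * ((volume : Measure ℂ).restrict (closedBall 0 1)).real Set.univ := by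
          rw [int_bet_eq]
          exact norm_integral_le_of_norm_le_const
            (μ := (volume : Measure ℂ).restrict (closedBall 0 1)) (f := fun z => bet z * F (t + ε • z) ω)
            (C := Cb * K) (Eventually.of_forall fun z => by
              rw [norm_mul, Real.norm_eq_abs, Real.norm_eq_abs]
              exact mul_le_mul (hCb z) (hK _ _) (abs_nonneg _) ((abs_nonneg _).trans (hCb z)))
        exact mul_le_mul h8 (hK' _) (abs_nonneg _) ((abs_nonneg _).trans h8)
  rw [e1]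
  -- measurability of the product
  have hmsI : Measurable fun p : Ω × ℝ => p.2 * I p.2 p.1 * |G p.1| := by
    have h1 : Measurable fun p : Ω × ℝ => I p.2 p.1 := hmI.comp measurable_swap
    exact (measurable_snd.mul h1).mul (hG.comp measurable_fst).abs
  set V := ((volume : Measure ℂ).restrict (closedBall 0 1)).real Set.univ with hV
  -- bounded version on Ioc: use the truncation `min (max s 0) ε`
  have hstep1 : |∫ ω, A ω * G ω ∂P|
      ≤ ∫ ω, ((1 + δ) * ∫ s in Set.Ioc (0:ℝ) ε, s * I s ω * |G ω|) ∂P := by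
    rw [← Real.norm_eq_abs]
    refine norm_integral_le_of_norm_le ?_ (Eventually.of_forall fun ω => ?_)
    · apply Integrable.const_mul
      have hm1 : Measurable fun ω => ∫ s in Set.Ioc (0:ℝ) ε, s * I s ω * |G ω| :=
        (hmsI.stronglyMeasurable.integral_prod_right'
          (ν := (volume : Measure ℝ).restrict (Set.Ioc 0 ε))).measurable
      refine integrable_bdd (μ := P) (C := ε * (CP * K * V) * K' * ((volume : Measure ℝ).restrict (Set.Ioc 0 ε)).real Set.univ) hm1 fun ω => ?_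
      rw [← Real.norm_eq_abs]
      refine norm_integral_le_of_norm_le_const (C := ε * (CP * K * V) * K') ?_
      refine (ae_restrict_iff' measurableSet_Ioc).2 (Eventually.of_forall fun s hs => ?_)
      rw [norm_mul, norm_mul, Real.norm_eq_abs, Real.norm_eq_abs, Real.norm_eq_abs, abs_abs,
        abs_of_pos hs.1]
      exact mul_le_mul (mul_le_mul hs.2 (hIb s ω) (abs_nonneg _) hε) (hK' ω) (abs_nonneg _)
        (mul_nonneg hε ((abs_nonneg _).trans (hIb s ω)))
    · rw [norm_mul, Real.norm_eq_abs, Real.norm_eq_abs, integral_mul_const, ← mul_assoc]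
      exact mul_le_mul_of_nonneg_right (hpt ω) (abs_nonneg _)
  have hstep2 : ∫ ω, ((1 + δ) * ∫ s in Set.Ioc (0:ℝ) ε, s * I s ω * |G ω|) ∂P
      = (1 + δ) * ∫ s in Set.Ioc (0:ℝ) ε, s * ∫ z in closedBall (0:ℂ) 1,
        Phi z * ∫ ω, |F (t + s • z) ω| * |G ω| ∂P := by
    rw [integral_const_mul]
    congr 1
    -- replace `s` by a bounded function on the interval
    have hb : ∀ ω, ∫ s in Set.Ioc (0:ℝ) ε, s * I s ω * |G ω|
        = ∫ s in Set.Ioc (0:ℝ) ε, (min (max s 0) ε) * I s ω * |G ω| := by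
      intro ω
      apply setIntegral_congr_fun measurableSet_Ioc
      intro s hs
      simp only
      rw [max_eq_left hs.1.le, min_eq_left hs.2]
    simp only [hb]
    have hm2 : Measurable (Function.uncurry fun (ω : Ω) (s : ℝ) =>
        (min (max s 0) ε) * I s ω * |G ω|) := by
      have h1 : Measurable fun p : Ω × ℝ => I p.2 p.1 := hmI.comp measurable_swap
      exact (((measurable_snd.max measurable_const).min measurable_const).mul h1).mul
        (hG.comp measurable_fst).abs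
    have hmin : ∀ s : ℝ, |min (max s 0) ε| ≤ ε := by
      intro s
      rw [abs_of_nonneg (le_min (le_max_right _ _) hε)]
      exact min_le_right _ _
    rw [swap_bdd (μ := (volume : Measure ℝ).restrict (Set.Ioc 0 ε)) (ν := P) hm2
      (C := ε * (CP * K * V) * K') (fun ω s => by
        rw [abs_mul, abs_mul, abs_abs]
        exact mul_le_mul (mul_le_mul (hmin s) (hIb s ω) (abs_nonneg _) hε) (hK' ω) (abs_nonneg _)
          (mul_nonneg hε ((abs_nonneg _).trans (hIb s ω))))]
    apply setIntegral_congr_fun measurableSet_Ioc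
    intro s hs
    simp only
    rw [max_eq_left hs.1.le, min_eq_left hs.2]
    have h9 : ∀ ω, s * I s ω * |G ω| = s * ∫ z in closedBall (0:ℂ) 1,
        Phi z * (|F (t + s • z) ω| * |G ω|) := by
      intro ω
      simp only [hI]
      rw [mul_assoc, ← integral_mul_const]
      congr 2; funext z; ring
    simp only [h9]
    rw [integral_const_mul]
    congr 1
    have hm3 : Measurable (Function.uncurry fun (ω : Ω) (z : ℂ) =>
        Phi z * (|F (t + s • z) ω| * |G ω|)) := by
      have h1 : Measurable fun p : Ω × ℂ => (t + s • p.2, p.1) := by fun_prop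
      have h2 : Measurable fun p : Ω × ℂ => F (t + s • p.2) p.1 := hmF.comp h1
      exact (Phi_continuous.measurable.comp measurable_snd).mul (h2.abs.mul
        (hG.comp measurable_fst).abs)
    rw [swap_bdd (μ := (volume : Measure ℂ).restrict (closedBall 0 1)) (ν := P) hm3
      (C := CP * (K * K')) (fun ω z => by
        rw [abs_mul, abs_mul, abs_abs, abs_abs]
        exact mul_le_mul (hCP z) (mul_le_mul (hK _ _) (hK' ω) (abs_nonneg _) (hK0 ω))
          (mul_nonneg (abs_nonneg _) (abs_nonneg _)) ((abs_nonneg _).trans (hCP z)))]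
    congr 1
    funext z
    rw [integral_const_mul]
  have hM0 : 0 ≤ M := (integral_nonneg fun ω => mul_nonneg (abs_nonneg _) (abs_nonneg _)).trans (hM 0)
  have hstep3 : ∫ s in Set.Ioc (0:ℝ) ε, s * ∫ z in closedBall (0:ℂ) 1,
        Phi z * ∫ ω, |F (t + s • z) ω| * |G ω| ∂P ≤ M * kPhi * (ε ^ 2 / 2) := by
    have hb : ∀ s : ℝ, ‖∫ z in closedBall (0:ℂ) 1,
        Phi z * ∫ ω, |F (t + s • z) ω| * |G ω| ∂P‖ ≤ M * kPhi := by
      intro s
      have h1 : M * kPhi = ∫ z in closedBall (0:ℂ) 1, Phi z * M := by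
        rw [← int_Phi_eq, integral_mul_const]; unfold kPhi; ring
      rw [h1]
      refine norm_integral_le_of_norm_le ?_ (Eventually.of_forall fun z => ?_)
      · exact (Phi_continuous.mul continuous_const).continuousOn.integrableOn_compact
          (isCompact_closedBall (0:ℂ) 1)
      · rw [norm_mul, Real.norm_eq_abs, abs_of_nonneg (Phi_nonneg z)]
        refine mul_le_mul_of_nonneg_left ?_ (Phi_nonneg z)
        rw [Real.norm_of_nonneg (integral_nonneg fun ω => mul_nonneg (abs_nonneg _) (abs_nonneg _))]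
        exact hM _
    have h2 : ∫ s in Set.Ioc (0:ℝ) ε, s * (M * kPhi) = M * kPhi * (ε ^ 2 / 2) := by
      rw [← intervalIntegral.integral_of_le hε, intervalIntegral.integral_mul_const,
        integral_id]
      ring
    rw [← h2]
    refine (le_abs_self _).trans ?_
    rw [← Real.norm_eq_abs]
    refine norm_integral_le_of_norm_le ?_ ?_
    · exact (continuous_id.mul continuous_const).integrableOn_Ioc
    · refine (ae_restrict_iff' measurableSet_Ioc).2 (Eventually.of_forall fun s hs => ?_)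
      rw [norm_mul, Real.norm_eq_abs, abs_of_pos hs.1]
      exact mul_le_mul_of_nonneg_left (hb s) hs.1.le
  calc |∫ ω, A ω * G ω ∂P| ≤ _ := hstep1
    _ = _ := hstep2
    _ ≤ (1 + δ) * (M * kPhi * (ε ^ 2 / 2)) :=
        mul_le_mul_of_nonneg_left hstep3 (by linarith)

end

end Berry


end

section

/-!
Equicontinuity of correlations of approximate solutions of the Helmholtz equation: conclusion.
-/

open Complex Filter Topology MeasureTheory Metric InnerProductSpace Laplacian
open scoped ENNReal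

namespace Berry

noncomputable section

variable {Ω : Type*} [MeasurableSpace Ω] {P : Measure Ω} [IsProbabilityMeasure P]

lemma trans_mod {η : ℝ} (hη : 0 < η) : ∃ d > 0, ∀ h : ℂ, ‖h‖ < d →
    ∫ z, |bet z - bet (z - h)| ≤ η := by
  set V := (volume : Measure ℂ).real (closedBall (0:ℂ) 2) with hV
  have hV0 : 0 ≤ V := measureReal_nonneg
  have huc : UniformContinuous bet := bet_hcs.uniformContinuous_of_continuous bet_continuous
  obtain ⟨d, hd, h⟩ := Metric.uniformContinuous_iff.1 huc (η / (V + 1)) (by positivity)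
  refine ⟨min d 1, by positivity, fun h0 hh => ?_⟩
  have h1 : ‖h0‖ < d := lt_of_lt_of_le hh (min_le_left _ _)
  have h2 : ‖h0‖ < 1 := lt_of_lt_of_le hh (min_le_right _ _)
  have hz : ∀ z : ℂ, z ∉ closedBall (0:ℂ) 2 → |bet z - bet (z - h0)| = 0 := by
    intro z hz
    rw [mem_closedBall, dist_zero_right, not_le] at hz
    have a1 : bet z = 0 := bet_zero (by
      rw [mem_closedBall, dist_zero_right, not_le]; linarith)
    have a2 : bet (z - h0) = 0 := bet_zero (by
      rw [mem_closedBall, dist_zero_right, not_le]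
      have := norm_sub_norm_le z h0
      linarith)
    rw [a1, a2]; simp
  rw [← setIntegral_eq_integral_of_forall_compl_eq_zero hz]
  have hc : Continuous fun z => |bet z - bet (z - h0)| :=
    (bet_continuous.sub (bet_continuous.comp (by fun_prop))).abs
  have hle : ∀ z, |bet z - bet (z - h0)| ≤ η / (V + 1) := by
    intro z
    have := @h z (z - h0) (by rw [dist_eq_norm]; simpa using h1)
    rw [Real.dist_eq] at this
    exact this.le
  calc ∫ z in closedBall (0:ℂ) 2, |bet z - bet (z - h0)|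
      ≤ ∫ z in closedBall (0:ℂ) 2, η / (V + 1) := by
        refine integral_mono (hc.continuousOn.integrableOn_compact (isCompact_closedBall (0:ℂ) 2))
          ?_ hle
        exact continuous_const.continuousOn.integrableOn_compact (isCompact_closedBall (0:ℂ) 2)
    _ = V * (η / (V + 1)) := by
        rw [setIntegral_const, smul_eq_mul]
    _ ≤ η := by
        rw [mul_div_assoc', div_le_iff₀ (by positivity)]
        linarith only [hη]

/-- continuity of correlations -/
lemma corr_continuous {F : ℂ → Ω → ℝ} (hF : SingleW P F) {G : Ω → ℝ} (hG : Measurable G)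
    (hGb : ∃ K : ℝ, ∀ ω, |G ω| ≤ K) : Continuous fun y => ∫ ω, F y ω * G ω ∂P := by
  obtain ⟨K, hK⟩ := hF.bdd
  obtain ⟨K', hK'⟩ := hGb
  refine continuous_of_dominated (bound := fun _ => K * K') ?_ ?_ (integrable_const _) ?_
  · intro y; exact ((hF.meas y).mul hG).aestronglyMeasurable
  · intro y
    refine Eventually.of_forall fun ω => ?_
    rw [norm_mul, Real.norm_eq_abs, Real.norm_eq_abs]
    exact mul_le_mul (hK _ _) (hK' _) (abs_nonneg _) ((abs_nonneg _).trans (hK y ω))
  · refine Eventually.of_forall fun ω => ?_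
    exact (hF.smooth ω).continuous.mul continuous_const

/-- **equicontinuity** of correlations -/
lemma equi {M : ℝ} (hM0 : 0 ≤ M) {η : ℝ} (hη : 0 < η) : ∃ d > 0,
    ∀ (F : ℂ → Ω → ℝ), SingleW P F → ∀ (G : Ω → ℝ), Measurable G → (∃ K : ℝ, ∀ ω, |G ω| ≤ K) →
      (∀ y, ∫ ω, |F y ω| * |G ω| ∂P ≤ M) → ∀ (r δ : ℝ), 0 ≤ δ → δ ≤ 1 →
      (∀ ω, ∀ x ∈ ball (0:ℂ) r, |(Δ (fun x => F x ω)) x + F x ω| ≤ δ * |F x ω|) →
      ∀ t t' : ℂ, ‖t‖ + 1 < r → ‖t'‖ + 1 < r → ‖t - t'‖ < d →
      |(∫ ω, F t ω * G ω ∂P) - ∫ ω, F t' ω * G ω ∂P| ≤ η := by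
  have hk : 0 < -kap := by have := kap_neg; linarith
  set κ := -kap with hκ
  -- choose ε
  obtain ⟨ε, hε0, hε1, hε⟩ : ∃ ε : ℝ, 0 < ε ∧ ε ≤ 1 ∧ 2 * (M * kPhi * (ε ^ 2 / 2)) ≤ κ * η / 4 := by
    set A := M * kPhi with hA
    have hA0 : 0 ≤ A := mul_nonneg hM0 kPhi_nonneg
    refine ⟨min 1 (κ * η / (4 * (A + 1))), by positivity, min_le_left _ _, ?_⟩
    set e := min 1 (κ * η / (4 * (A + 1))) with he
    have h1 : e ≤ 1 := min_le_left _ _
    have h2 : e ≤ κ * η / (4 * (A + 1)) := min_le_right _ _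
    have h3 : 0 ≤ e := by positivity
    rw [le_div_iff₀ (by positivity)] at h2
    nlinarith only [h2, h3, h1, mul_nonneg hA0 h3]
  obtain ⟨d, hd, hT⟩ := trans_mod (η := κ * η / (4 * (M + 1))) (by positivity)
  refine ⟨ε * d, by positivity, ?_⟩
  intro F hF G hG hGb hM r δ hδ0 hδ1 heq t t' ht ht' htt
  set k : ℂ → ℝ := fun y => ∫ ω, F y ω * G ω ∂P with hkdef
  have hkc : Continuous k := corr_continuous hF hG hGb
  have hkb : ∀ y, |k y| ≤ M := by
    intro y
    refine le_trans ?_ (hM y)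
    rw [← Real.norm_eq_abs]
    refine (norm_integral_le_integral_norm _).trans (le_of_eq ?_)
    congr 1; funext ω; rw [norm_mul, Real.norm_eq_abs, Real.norm_eq_abs]
  have m1 := mean_estimate hF hG hGb hM hδ0 heq hε0.le (t := t) (by linarith)
  have m2 := mean_estimate hF hG hGb hM hδ0 heq hε0.le (t := t') (by linarith)
  have hq : (1 + δ) * (M * kPhi * (ε ^ 2 / 2)) ≤ κ * η / 4 := by
    refine le_trans ?_ hε
    have : 0 ≤ M * kPhi * (ε ^ 2 / 2) := by
      have := mul_nonneg hM0 kPhi_nonneg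
      positivity
    nlinarith only [hδ1, this]
  -- difference of the means
  set h : ℂ := (1 / ε : ℝ) • (t' - t) with hh
  have hhn : ‖h‖ < d := by
    rw [hh, norm_smul, Real.norm_of_nonneg (by positivity), one_div, inv_mul_lt_iff₀ hε0,
      norm_sub_rev]
    exact htt
  have hsm : |(∫ z, bet z * k (t + ε • z)) - ∫ z, bet z * k (t' + ε • z)| ≤ κ * η / 4 := by
    have e1 : ∫ z, bet z * k (t' + ε • z) = ∫ z, bet (z - h) * k (t + ε • z) := by
      rw [← integral_sub_right_eq_self (fun z => bet z * k (t' + ε • z)) h]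
      congr 1
      funext z
      congr 2
      have : ε • h = t' - t := by
        rw [hh, smul_smul, mul_one_div_cancel hε0.ne', one_smul]
      rw [smul_sub, this]; ring
    have hck : Continuous fun z : ℂ => k (t + ε • z) := hkc.comp (by fun_prop)
    have hcb : Continuous fun z : ℂ => bet (z - h) := bet_continuous.comp (by fun_prop)
    have hcs : HasCompactSupport fun z : ℂ => bet (z - h) := by
      apply HasCompactSupport.intro (isCompact_closedBall h 1)
      intro z hz
      apply bet_zero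
      rw [mem_closedBall, dist_eq_norm] at hz
      rw [mem_closedBall, dist_zero_right]
      exact hz
    have i1 : Integrable fun z : ℂ => bet z * k (t + ε • z) :=
      (bet_continuous.mul hck).integrable_of_hasCompactSupport bet_hcs.mul_right
    have i2 : Integrable fun z : ℂ => bet (z - h) * k (t + ε • z) :=
      (hcb.mul hck).integrable_of_hasCompactSupport hcs.mul_right
    rw [e1, ← integral_sub i1 i2]
    have j1 : Integrable bet := bet_continuous.integrable_of_hasCompactSupport bet_hcs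
    have j2 : Integrable fun z : ℂ => bet (z - h) := hcb.integrable_of_hasCompactSupport hcs
    have h5 : ‖∫ z, (bet z * k (t + ε • z) - bet (z - h) * k (t + ε • z))‖
        ≤ ∫ z, |bet z - bet (z - h)| * M := by
      refine norm_integral_le_of_norm_le ((j1.sub j2).norm.mul_const M) ?_
      refine Eventually.of_forall fun z => ?_
      rw [← sub_mul, norm_mul, Real.norm_eq_abs, Real.norm_eq_abs]
      exact mul_le_mul_of_nonneg_left (hkb _) (abs_nonneg _)
    rw [Real.norm_eq_abs] at h5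
    refine h5.trans ?_
    rw [integral_mul_const]
    calc (∫ z, |bet z - bet (z - h)|) * M ≤ (κ * η / (4 * (M + 1))) * M :=
          mul_le_mul_of_nonneg_right (hT h hhn) hM0
      _ ≤ κ * η / 4 := by
          rw [div_mul_eq_mul_div, div_le_div_iff₀ (by positivity) (by norm_num)]
          have : 0 ≤ κ * η := by positivity
          linarith only [this]
  have hfin : κ * |k t - k t'| ≤ κ * η := by
    have e : κ * |k t - k t'| = |kap * k t - kap * k t'| := by
      rw [← mul_sub, abs_mul, hκ, abs_of_neg kap_neg]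
    rw [e]
    have e2 : kap * k t - kap * k t' = (kap * k t - ∫ z, bet z * k (t + ε • z))
        + ((∫ z, bet z * k (t + ε • z)) - ∫ z, bet z * k (t' + ε • z))
        - (kap * k t' - ∫ z, bet z * k (t' + ε • z)) := by ring
    rw [e2]
    have t1 := abs_sub ((kap * k t - ∫ z, bet z * k (t + ε • z))
        + ((∫ z, bet z * k (t + ε • z)) - ∫ z, bet z * k (t' + ε • z)))
        (kap * k t' - ∫ z, bet z * k (t' + ε • z))
    have t2 := abs_add_le (kap * k t - ∫ z, bet z * k (t + ε • z))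
        ((∫ z, bet z * k (t + ε • z)) - ∫ z, bet z * k (t' + ε • z))
    have m1' := m1.trans hq
    have m2' := m2.trans hq
    have hκη : 0 ≤ κ * η := by positivity
    linarith only [m1, m2, hq, hsm, t1, t2, hκη]
  exact le_of_mul_le_mul_left hfin hk

end

end Berry


end

section

/-!
Deterministic local estimates for functions with `|Δ f| ≤ Λ |f|`: the values and the modulus of
continuity are controlled by a local `L⁴` norm.
-/

open Complex Filter Topology MeasureTheory Metric InnerProductSpace Laplacian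
open scoped ENNReal Pointwise

namespace Berry

noncomputable section

/-- fourth power of the `L⁴` norm on a ball -/
def N4 (f : ℂ → ℝ) (t : ℂ) (r : ℝ) : ℝ := ∫ y in ball t r, f y ^ 4

/-- fourth root -/
def rt4 (x : ℝ) : ℝ := √(√x)

lemma rt4_nonneg (x : ℝ) : 0 ≤ rt4 x := Real.sqrt_nonneg _

lemma rt4_pow {x : ℝ} (hx : 0 ≤ x) : rt4 x ^ 4 = x := by
  unfold rt4
  have h1 : √(√x) ^ 2 = √x := Real.sq_sqrt (Real.sqrt_nonneg _)
  have h2 : √x ^ 2 = x := Real.sq_sqrt hx
  calc √(√x) ^ 4 = (√(√x) ^ 2) ^ 2 := by ring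
    _ = x := by rw [h1, h2]

lemma rt4_mono {x y : ℝ} (h : x ≤ y) : rt4 x ≤ rt4 y := Real.sqrt_le_sqrt (Real.sqrt_le_sqrt h)

lemma rt4_continuous : Continuous rt4 := Real.continuous_sqrt.comp Real.continuous_sqrt

lemma N4_nonneg (f : ℂ → ℝ) (t : ℂ) (r : ℝ) : 0 ≤ N4 f t r :=
  integral_nonneg fun y => by positivity

lemma intBall {f : ℂ → ℝ} (hf : Continuous f) (t : ℂ) (r : ℝ) : IntegrableOn f (ball t r) :=
  (hf.continuousOn.integrableOn_compact (isCompact_closedBall t r)).mono_set ball_subset_closedBall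

lemma N4_mono {f : ℂ → ℝ} (hf : Continuous f) {t t' : ℂ} {r r' : ℝ}
    (h : ball t r ⊆ ball t' r') : N4 f t r ≤ N4 f t' r' :=
  setIntegral_mono_set (intBall (hf.pow 4) t' r') (Eventually.of_forall fun y => by
    simp only [Pi.zero_apply]; positivity) h.eventuallyLE

lemma cs_set {S : Set ℂ} (hS : volume S ≠ ∞) {g : ℂ → ℝ} (hg : IntegrableOn g S)
    (hg2 : IntegrableOn (fun z => g z ^ 2) S) :
    (∫ z in S, g z) ^ 2 ≤ (volume : Measure ℂ).real S * ∫ z in S, g z ^ 2 := by
  set V := (volume : Measure ℂ).real S with hV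
  have hV0 : 0 ≤ V := measureReal_nonneg
  set A := ∫ z in S, g z with hA
  set Q := ∫ z in S, g z ^ 2 with hQ
  have hQ0 : 0 ≤ Q := integral_nonneg fun z => sq_nonneg _
  have key : ∀ k : ℝ, 0 ≤ Q - 2 * k * A + k ^ 2 * V := by
    intro k
    have h1 : ∫ z in S, (g z - k) ^ 2 = Q - 2 * k * A + k ^ 2 * V := by
      have e : ∀ z, (g z - k) ^ 2 = g z ^ 2 - 2 * k * g z + k ^ 2 := fun z => by ring
      simp only [e]
      have i1 : IntegrableOn (fun z => 2 * k * g z) S := hg.const_mul _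
      have i2 : IntegrableOn (fun z => g z ^ 2 - 2 * k * g z) S := hg2.sub i1
      have i3 : IntegrableOn (fun _ : ℂ => k ^ 2) S := by
        rw [integrableOn_const_iff]
        exact Or.inr (lt_top_iff_ne_top.2 hS)
      rw [integral_add i2 i3, integral_sub hg2 i1, integral_const_mul, setIntegral_const,
        smul_eq_mul]
      ring
    rw [← h1]
    exact integral_nonneg fun z => sq_nonneg _
  rcases hV0.eq_or_lt with h0 | hpos
  · -- null set
    have hA0 : A = 0 := by
      have : volume S = 0 := by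
        rw [hV, Measure.real, eq_comm, ENNReal.toReal_eq_zero_iff] at h0
        exact h0.resolve_right hS
      rw [hA, Measure.restrict_eq_zero.2 this, integral_zero_measure]
    rw [hA0]
    have : 0 ≤ V * Q := mul_nonneg hV0 hQ0
    simpa using this
  · have h2 := key (A / V)
    have h3 : Q - 2 * (A / V) * A + (A / V) ^ 2 * V = Q - A ^ 2 / V := by
      field_simp; ring
    rw [h3] at h2
    have h4 : A ^ 2 / V ≤ Q := by linarith
    rw [div_le_iff₀ hpos] at h4
    linarith

/-- scaling of the local norm -/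
lemma N4_scale (f : ℂ → ℝ) (t : ℂ) {s : ℝ} (hs : 0 < s) (a : ℝ) :
    ∫ z in ball (0:ℂ) a, f (t + s • z) ^ 4 = (s ^ 2)⁻¹ * N4 f t (a * s) := by
  have h1 := Measure.setIntegral_comp_smul_of_pos (volume : Measure ℂ)
    (fun z => f (t + z) ^ 4) (ball (0:ℂ) a) hs
  rw [Complex.finrank_real_complex, smul_eq_mul] at h1
  rw [h1]
  congr 1
  have h2 : s • ball (0:ℂ) a = ball (0:ℂ) (a * s) := by
    rw [_root_.smul_ball hs.ne', smul_zero, Real.norm_of_nonneg hs.le, mul_comm]
  rw [h2]
  unfold N4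
  have h3 := (measurePreserving_add_left (volume : Measure ℂ) t).setIntegral_preimage_emb
    (MeasurableEquiv.addLeft t).measurableEmbedding (fun z => f z ^ 4) (ball t (a * s))
  rw [← h3]
  congr 2
  ext z
  simp [mem_ball, dist_eq_norm]

/-- the mean of `|f|` over a small ball in terms of the `L⁴` norm -/
lemma mean_le {f : ℂ → ℝ} (hf : Continuous f) (t : ℂ) {s : ℝ} (hs : 0 < s) {a A : ℝ}
    (hA : 0 ≤ A) (hN : N4 f t (a * s) ≤ A ^ 4) :
    ∫ z in ball (0:ℂ) a, |f (t + s • z)|
      ≤ ((volume : Measure ℂ).real (ball (0:ℂ) a) + 1) * A / √s := by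
  set V := (volume : Measure ℂ).real (ball (0:ℂ) a) with hV
  have hV0 : 0 ≤ V := measureReal_nonneg
  have hg : Continuous fun z : ℂ => |f (t + s • z)| := (hf.comp (by fun_prop)).abs
  set I1 := ∫ z in ball (0:ℂ) a, |f (t + s • z)| with hI1
  have hI10 : 0 ≤ I1 := integral_nonneg fun z => abs_nonneg _
  have hfin : (volume : Measure ℂ) (ball (0:ℂ) a) ≠ ∞ := measure_ball_lt_top.ne
  have h1 := cs_set hfin (intBall hg 0 a) (intBall (hg.pow 2) 0 a)
  have hg2 : Continuous fun z : ℂ => |f (t + s • z)| ^ 2 := hg.pow 2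
  have h2 := cs_set (g := fun z : ℂ => |f (t + s • z)| ^ 2) hfin (intBall hg2 0 a)
    (intBall (hg2.pow 2) 0 a)
  have e2 : ∫ z in ball (0:ℂ) a, (|f (t + s • z)| ^ 2) ^ 2 = (s ^ 2)⁻¹ * N4 f t (a * s) := by
    rw [← N4_scale f t hs a]
    congr 1; funext z
    rw [← pow_mul]
    show |f (t + s • z)| ^ 4 = _
    rw [← abs_pow, abs_of_nonneg (by positivity)]
  rw [e2] at h2
  set I2 := ∫ z in ball (0:ℂ) a, |f (t + s • z)| ^ 2 with hI2
  have hI20 : 0 ≤ I2 := integral_nonneg fun z => sq_nonneg _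
  have hs2 : 0 < s ^ 2 := by positivity
  have h3 : I1 ^ 4 ≤ V ^ 3 * ((s ^ 2)⁻¹ * A ^ 4) := by
    calc I1 ^ 4 = (I1 ^ 2) ^ 2 := by ring
      _ ≤ (V * I2) ^ 2 := pow_le_pow_left₀ (sq_nonneg _) h1 2
      _ = V ^ 2 * I2 ^ 2 := by ring
      _ ≤ V ^ 2 * (V * ((s ^ 2)⁻¹ * N4 f t (a * s))) :=
          mul_le_mul_of_nonneg_left h2 (by positivity)
      _ ≤ V ^ 2 * (V * ((s ^ 2)⁻¹ * A ^ 4)) := by gcongr
      _ = V ^ 3 * ((s ^ 2)⁻¹ * A ^ 4) := by ring
  have hsq : √s ^ 2 = s := Real.sq_sqrt hs.le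
  have hsp : 0 < √s := Real.sqrt_pos.2 hs
  have h4 : I1 ^ 4 ≤ ((V + 1) * A / √s) ^ 4 := by
    refine h3.trans ?_
    have e3 : ((V + 1) * A / √s) ^ 4 = (V + 1) ^ 4 * ((s ^ 2)⁻¹ * A ^ 4) := by
      have : √s ^ 4 = s ^ 2 := by
        calc √s ^ 4 = (√s ^ 2) ^ 2 := by ring
          _ = s ^ 2 := by rw [hsq]
      rw [div_pow, mul_pow, this]
      field_simp
    rw [e3]
    have h5 : V ^ 3 ≤ (V + 1) ^ 4 := by linarith only [hV0, pow_nonneg hV0 2, pow_nonneg hV0 3, pow_nonneg hV0 4]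
    (clear * - h5 hs; gcongr)
  exact le_of_pow_le_pow_left₀ (by norm_num) (by (clear * - hA hs; positivity)) h4

end

end Berry


end

section

/-!
Deterministic local estimates: conclusion.
-/

open Complex Filter Topology MeasureTheory Metric InnerProductSpace Laplacian
open scoped ENNReal Pointwise

namespace Berry

noncomputable section

/-- the error term in the mean value formula -/
lemma err_le {CP : ℝ} (hCP : ∀ z, |Phi z| ≤ CP) {f : ℂ → ℝ} (hf : ContDiff ℝ 2 f) {t₀ : ℂ}
    {L : ℝ} (hL : 0 ≤ L) (heq : ∀ x ∈ ball t₀ 1, |(Δ f) x| ≤ L * |f x|) {t : ℂ} {ε : ℝ}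
    (hε : 0 < ε) (ht : ‖t - t₀‖ + 2 * ε ≤ 1) :
    |∫ s in (0:ℝ)..ε, s * ∫ z, Phi z * (Δ f) (t + s • z)|
      ≤ CP * L * (((volume : Measure ℂ).real (ball (0:ℂ) 2) + 1) * rt4 (N4 f t₀ 1)) * √ε * ε := by
  have hCP0 : 0 ≤ CP := (abs_nonneg _).trans (hCP 0)
  have hfc := hf.continuous
  set V := (volume : Measure ℂ).real (ball (0:ℂ) 2) with hV
  have hV0 : 0 ≤ V := measureReal_nonneg
  set A := rt4 (N4 f t₀ 1) with hA
  have hA0 : 0 ≤ A := rt4_nonneg _
  have h1 : ∀ s ∈ Set.uIoc (0:ℝ) ε, ‖s * ∫ z, Phi z * (Δ f) (t + s • z)‖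
      ≤ CP * L * ((V + 1) * A) * √ε := by
    intro s hs
    rw [Set.uIoc_of_le hε.le] at hs
    have hs0 : 0 < s := hs.1
    have hball : ball t (2 * s) ⊆ ball t₀ 1 := by
      apply ball_subset_ball'
      rw [dist_eq_norm]
      linarith only [ht, hs.2]
    have hN : N4 f t (2 * s) ≤ A ^ 4 := by
      rw [hA, rt4_pow (N4_nonneg _ _ _)]
      exact N4_mono hfc hball
    have h2 := mean_le hfc t hs0 (a := 2) hA0 hN
    have h3 : |∫ z, Phi z * (Δ f) (t + s • z)| ≤ CP * L * ∫ z in ball (0:ℂ) 2, |f (t + s • z)| := by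
      have e : ∫ z, Phi z * (Δ f) (t + s • z) = ∫ z in ball (0:ℂ) 2, Phi z * (Δ f) (t + s • z) := by
        rw [setIntegral_eq_integral_of_forall_compl_eq_zero]
        intro z hz
        rw [Phi_zero (fun h => hz ?_)]; · simp
        rw [mem_closedBall] at h
        rw [mem_ball]; linarith
      rw [e, ← Real.norm_eq_abs, ← integral_const_mul]
      refine norm_integral_le_of_norm_le ?_ ?_
      · exact (intBall (f := fun z : ℂ => |f (t + s • z)|) (hfc.comp (by fun_prop)).abs 0 2).const_mul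
          (CP * L)
      · refine (ae_restrict_iff' measurableSet_ball).2 (Eventually.of_forall fun z hz => ?_)
        rw [mem_ball, dist_zero_right] at hz
        have hx : t + s • z ∈ ball t₀ 1 := by
          apply hball
          rw [mem_ball, dist_eq_norm, add_sub_cancel_left, norm_smul, Real.norm_of_nonneg hs0.le]
          nlinarith [norm_nonneg z]
        rw [norm_mul, Real.norm_eq_abs, Real.norm_eq_abs, mul_assoc]
        exact mul_le_mul (hCP z) (heq _ hx) (abs_nonneg _) hCP0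
    have hsp : 0 < √s := Real.sqrt_pos.2 hs0
    have hss : √s * √s = s := Real.mul_self_sqrt hs0.le
    have hse : √s ≤ √ε := Real.sqrt_le_sqrt hs.2
    rw [norm_mul, Real.norm_of_nonneg hs0.le, Real.norm_eq_abs]
    calc s * |∫ z, Phi z * (Δ f) (t + s • z)| ≤ s * (CP * L * ((V + 1) * A / √s)) := by
          refine mul_le_mul_of_nonneg_left (h3.trans ?_) hs0.le
          exact mul_le_mul_of_nonneg_left h2 (by positivity)
      _ = CP * L * ((V + 1) * A) * √s := by
          have : s * (1 / √s) = √s := by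
            rw [mul_one_div, div_eq_iff hsp.ne']; exact hss.symm
          calc s * (CP * L * ((V + 1) * A / √s)) = CP * L * ((V + 1) * A) * (s * (1 / √s)) := by ring
            _ = _ := by rw [this]
      _ ≤ CP * L * ((V + 1) * A) * √ε := mul_le_mul_of_nonneg_left hse (by positivity)
  have h2 := intervalIntegral.norm_integral_le_of_norm_le_const h1
  rw [Real.norm_eq_abs, sub_zero, abs_of_pos hε] at h2
  exact h2

/-- **local sup bound** -/
lemma det_sup {L : ℝ} (hL : 0 ≤ L) : ∃ C : ℝ, 0 < C ∧ ∀ f : ℂ → ℝ, ContDiff ℝ 2 f → ∀ t₀ : ℂ,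
    (∀ x ∈ ball t₀ 1, |(Δ f) x| ≤ L * |f x|) → ∀ t ∈ ball t₀ (1 / 2),
      |f t| ≤ C * rt4 (N4 f t₀ 1) := by
  obtain ⟨CP, hCP⟩ := Phi_le
  obtain ⟨Cb, hCb⟩ := bet_le
  have hCP0 : 0 ≤ CP := (abs_nonneg _).trans (hCP 0)
  have hCb0 : 0 ≤ Cb := (abs_nonneg _).trans (hCb 0)
  set V := (volume : Measure ℂ).real (ball (0:ℂ) 2) with hV
  have hV0 : 0 ≤ V := measureReal_nonneg
  set k := |kap| with hk
  have hk0 : 0 < k := abs_pos.2 kap_neg.ne
  set ε : ℝ := 1 / 4 with hε
  have hε0 : 0 < ε := by norm_num [hε]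
  set C₁ := Cb * ((V + 1) / √ε) + CP * L * (V + 1) * √ε * ε with hC₁
  have hC₁0 : 0 ≤ C₁ := by positivity
  refine ⟨C₁ / k + 1, by (clear * - hCb0 hCP0 hL hk0; positivity), fun f hf t₀ heq t ht => ?_⟩
  rw [mem_ball, dist_eq_norm] at ht
  set A := rt4 (N4 f t₀ 1) with hA
  have hA0 : 0 ≤ A := rt4_nonneg _
  have h1 := err_le hCP hf hL heq (t := t) hε0 (by rw [hε]; linarith)
  have h2 := mean_value hf t ε
  have hball : ball t (2 * ε) ⊆ ball t₀ 1 := by
    apply ball_subset_ball'
    rw [dist_eq_norm, hε]; linarith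
  have hN : N4 f t (2 * ε) ≤ A ^ 4 := by
    rw [hA, rt4_pow (N4_nonneg _ _ _)]
    exact N4_mono hf.continuous hball
  have h3 := mean_le hf.continuous t hε0 (a := 2) hA0 hN
  have h4 : |∫ z, bet z * f (t + ε • z)| ≤ Cb * ∫ z in ball (0:ℂ) 2, |f (t + ε • z)| := by
    have e : ∫ z, bet z * f (t + ε • z) = ∫ z in ball (0:ℂ) 2, bet z * f (t + ε • z) := by
      rw [setIntegral_eq_integral_of_forall_compl_eq_zero]
      intro z hz
      rw [bet_zero (fun h => hz ?_)]; · simp
      rw [mem_closedBall] at h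
      rw [mem_ball]; linarith only [h]
    rw [e, ← Real.norm_eq_abs, ← integral_const_mul]
    refine norm_integral_le_of_norm_le ?_ (Eventually.of_forall fun z => ?_)
    · exact (intBall (f := fun z : ℂ => |f (t + ε • z)|)
        (hf.continuous.comp (by fun_prop)).abs 0 2).const_mul Cb
    · rw [norm_mul, Real.norm_eq_abs, Real.norm_eq_abs]
      exact mul_le_mul_of_nonneg_right (hCb z) (abs_nonneg _)
  have h5 : k * |f t| ≤ C₁ * A := by
    rw [hk, ← abs_mul, h2]
    refine (abs_add_le _ _).trans ?_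
    calc |∫ z, bet z * f (t + ε • z)| + |∫ s in (0:ℝ)..ε, s * ∫ z, Phi z * (Δ f) (t + s • z)|
        ≤ Cb * ((V + 1) * A / √ε) + CP * L * ((V + 1) * A) * √ε * ε := by
          refine add_le_add (h4.trans ?_) h1
          exact mul_le_mul_of_nonneg_left h3 hCb0
      _ = C₁ * A := by rw [hC₁]; ring
  have h6 : |f t| ≤ C₁ / k * A := by
    rw [div_mul_eq_mul_div, le_div_iff₀ hk0, mul_comm]; exact h5
  calc |f t| ≤ C₁ / k * A := h6
    _ ≤ (C₁ / k + 1) * A := mul_le_mul_of_nonneg_right (by linarith) hA0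

/-- uniform modulus of continuity of `bet` -/
lemma bet_mod {τ : ℝ} (hτ : 0 < τ) : ∃ d > 0, ∀ h : ℂ, ‖h‖ < d → ∀ z, |bet z - bet (z - h)| ≤ τ := by
  have huc : UniformContinuous bet := bet_hcs.uniformContinuous_of_continuous bet_continuous
  obtain ⟨d, hd, h⟩ := Metric.uniformContinuous_iff.1 huc τ hτ
  refine ⟨d, hd, fun h0 hh z => ?_⟩
  have := @h z (z - h0) (by rw [dist_eq_norm]; simpa using hh)
  rw [Real.dist_eq] at this
  exact this.le

/-- **local modulus of continuity** -/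
lemma det_mod {L : ℝ} (hL : 0 ≤ L) {η : ℝ} (hη : 0 < η) : ∃ d > 0, ∀ f : ℂ → ℝ, ContDiff ℝ 2 f →
    ∀ t₀ : ℂ, (∀ x ∈ ball t₀ 1, |(Δ f) x| ≤ L * |f x|) → ∀ t ∈ ball t₀ (1 / 2),
      ∀ t' ∈ ball t₀ (1 / 2), ‖t - t'‖ < d → |f t - f t'| ≤ η * rt4 (N4 f t₀ 1) := by
  obtain ⟨CP, hCP⟩ := Phi_le
  have hCP0 : 0 ≤ CP := (abs_nonneg _).trans (hCP 0)
  set V := (volume : Measure ℂ).real (ball (0:ℂ) 2) with hV
  set V3 := (volume : Measure ℂ).real (ball (0:ℂ) 3) with hV3
  have hV0 : 0 ≤ V := measureReal_nonneg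
  have hV30 : 0 ≤ V3 := measureReal_nonneg
  set k := |kap| with hk
  have hk0 : 0 < k := abs_pos.2 kap_neg.ne
  -- choice of ε
  set M := CP * L * (V + 1) with hM
  have hM0 : 0 ≤ M := by positivity
  obtain ⟨ε, hε0, hε1, hε2⟩ : ∃ ε : ℝ, 0 < ε ∧ ε ≤ 1 / 8 ∧ M * √ε * ε ≤ k * η / 4 := by
    refine ⟨min (1 / 8) (k * η / (4 * (M + 1))), by (clear * - hk0 hη hCP0 hL; positivity), min_le_left _ _, ?_⟩
    set ε := min (1 / 8) (k * η / (4 * (M + 1))) with hε
    have h1 : ε ≤ 1 / 8 := min_le_left _ _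
    have h2 : ε ≤ k * η / (4 * (M + 1)) := min_le_right _ _
    have hε0 : 0 < ε := by positivity
    have h3 : √ε ≤ 1 := by
      rw [Real.sqrt_le_one]; linarith
    have h4 : M * √ε * ε ≤ (M + 1) * ε := by
      have : M * √ε ≤ M * 1 := mul_le_mul_of_nonneg_left h3 hM0
      nlinarith only [hε0, this]
    refine h4.trans ?_
    calc (M + 1) * ε ≤ (M + 1) * (k * η / (4 * (M + 1))) :=
          mul_le_mul_of_nonneg_left h2 (by positivity)
      _ = k * η / 4 := by field_simp
  have hsp : 0 < √ε := Real.sqrt_pos.2 hε0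
  -- choice of d
  set τ := k * η * √ε / (2 * (V3 + 1)) with hτ
  have hτ0 : 0 < τ := by positivity
  obtain ⟨d₀, hd₀, hbet⟩ := bet_mod hτ0
  refine ⟨min (d₀ * ε) ε, by positivity, fun f hf t₀ heq t ht t' ht' htt => ?_⟩
  rw [mem_ball, dist_eq_norm] at ht ht'
  have htt1 : ‖t - t'‖ < d₀ * ε := lt_of_lt_of_le htt (min_le_left _ _)
  have htt2 : ‖t - t'‖ < ε := lt_of_lt_of_le htt (min_le_right _ _)
  set A := rt4 (N4 f t₀ 1) with hA
  have hA0 : 0 ≤ A := rt4_nonneg _
  have hfc := hf.continuous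
  have e1 := err_le hCP hf hL heq (t := t) hε0 (by linarith)
  have e2 := err_le hCP hf hL heq (t := t') hε0 (by linarith only [hε1, ht'])
  have m1 := mean_value hf t ε
  have m2 := mean_value hf t' ε
  have hball : ball t (3 * ε) ⊆ ball t₀ 1 := by
    apply ball_subset_ball'
    rw [dist_eq_norm]; linarith only [hε1, ht]
  have hN : N4 f t (3 * ε) ≤ A ^ 4 := by
    rw [hA, rt4_pow (N4_nonneg _ _ _)]
    exact N4_mono hfc hball
  have h3 := mean_le hfc t hε0 (a := 3) hA0 hN
  -- the difference of the means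
  set h : ℂ := (1 / ε : ℝ) • (t' - t) with hh
  have hhn : ‖h‖ < d₀ := by
    rw [hh, norm_smul, Real.norm_of_nonneg (by positivity), one_div, inv_mul_lt_iff₀ hε0,
      norm_sub_rev, mul_comm]
    exact htt1
  have hhn1 : ‖h‖ < 1 := by
    rw [hh, norm_smul, Real.norm_of_nonneg (by positivity), one_div, inv_mul_lt_iff₀ hε0,
      norm_sub_rev, mul_one]
    exact htt2
  have hdiff : |(∫ z, bet z * f (t + ε • z)) - ∫ z, bet z * f (t' + ε • z)|
      ≤ τ * ∫ z in ball (0:ℂ) 3, |f (t + ε • z)| := by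
    have q1 : ∫ z, bet z * f (t' + ε • z) = ∫ z, bet (z - h) * f (t + ε • z) := by
      rw [← integral_sub_right_eq_self (fun z => bet z * f (t' + ε • z)) h]
      congr 1
      funext z
      congr 2
      have : ε • h = t' - t := by
        rw [hh, smul_smul, mul_one_div_cancel hε0.ne', one_smul]
      rw [smul_sub, this]; ring
    have hck : Continuous fun z : ℂ => f (t + ε • z) := hfc.comp (by fun_prop)
    have hcb : Continuous fun z : ℂ => bet (z - h) := bet_continuous.comp (by fun_prop)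
    have hcs : HasCompactSupport fun z : ℂ => bet (z - h) := by
      apply HasCompactSupport.intro (isCompact_closedBall h 1)
      intro z hz
      apply bet_zero
      rw [mem_closedBall, dist_eq_norm] at hz
      rw [mem_closedBall, dist_zero_right]
      exact hz
    have i1 : Integrable fun z : ℂ => bet z * f (t + ε • z) :=
      (bet_continuous.mul hck).integrable_of_hasCompactSupport bet_hcs.mul_right
    have i2 : Integrable fun z : ℂ => bet (z - h) * f (t + ε • z) :=
      (hcb.mul hck).integrable_of_hasCompactSupport hcs.mul_right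
    rw [q1, ← integral_sub i1 i2]
    have q2 : ∫ z, (bet z * f (t + ε • z) - bet (z - h) * f (t + ε • z))
        = ∫ z in ball (0:ℂ) 3, (bet z * f (t + ε • z) - bet (z - h) * f (t + ε • z)) := by
      rw [setIntegral_eq_integral_of_forall_compl_eq_zero]
      intro z hz
      rw [mem_ball, dist_zero_right, not_lt] at hz
      have a1 : bet z = 0 := bet_zero (by
        rw [mem_closedBall, dist_zero_right, not_le]; linarith)
      have a2 : bet (z - h) = 0 := bet_zero (by
        rw [mem_closedBall, dist_zero_right, not_le]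
        have := norm_sub_norm_le z h
        linarith)
      rw [a1, a2]; simp
    rw [q2, ← Real.norm_eq_abs, ← integral_const_mul]
    refine norm_integral_le_of_norm_le ?_ (Eventually.of_forall fun z => ?_)
    · exact (intBall (f := fun z : ℂ => |f (t + ε • z)|) hck.abs 0 3).const_mul τ
    · rw [← sub_mul, norm_mul, Real.norm_eq_abs, Real.norm_eq_abs]
      exact mul_le_mul_of_nonneg_right (hbet h hhn z) (abs_nonneg _)
  have hdiff2 : |(∫ z, bet z * f (t + ε • z)) - ∫ z, bet z * f (t' + ε • z)| ≤ k * η / 2 * A := by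
    refine hdiff.trans ?_
    calc τ * ∫ z in ball (0:ℂ) 3, |f (t + ε • z)| ≤ τ * ((V3 + 1) * A / √ε) :=
          mul_le_mul_of_nonneg_left h3 hτ0.le
      _ = k * η / 2 * A := by rw [hτ]; field_simp
  have hE : CP * L * ((V + 1) * A) * √ε * ε ≤ k * η / 4 * A := by
    calc CP * L * ((V + 1) * A) * √ε * ε = (M * √ε * ε) * A := by rw [hM]; ring
      _ ≤ k * η / 4 * A := mul_le_mul_of_nonneg_right hε2 hA0
  have hfin : k * |f t - f t'| ≤ k * (η * A) := by
    rw [hk, ← abs_mul, mul_sub, m1, m2]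
    set E1 := ∫ s in (0:ℝ)..ε, s * ∫ z, Phi z * (Δ f) (t + s • z) with hE1
    set E2 := ∫ s in (0:ℝ)..ε, s * ∫ z, Phi z * (Δ f) (t' + s • z) with hE2
    have r1 : (∫ z, bet z * f (t + ε • z)) + E1 - ((∫ z, bet z * f (t' + ε • z)) + E2)
        = ((∫ z, bet z * f (t + ε • z)) - ∫ z, bet z * f (t' + ε • z)) + (E1 - E2) := by ring
    rw [r1]
    have r2 := abs_add_le ((∫ z, bet z * f (t + ε • z)) - ∫ z, bet z * f (t' + ε • z)) (E1 - E2)
    have r3 := abs_sub E1 E2
    have r4 := e1.trans hE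
    have r5 := e2.trans hE
    have r6 : |kap| * (η * A) = k * η / 2 * A + (k * η / 4 * A + k * η / 4 * A) := by
      rw [← hk]; ring
    rw [r6]
    linarith only [hdiff2, hE, e1, e2, r2, r3]
  exact le_of_mul_le_mul_left hfin hk0

end

end Berry


end

section

/-! Module QE_Alg: algebra and limits. -/

namespace QE

open Filter Topology

/-- The pairing weight. -/
noncomputable def P (j m : ℤ) : ℂ := if j + m = 0 then (-1 : ℂ) ^ j else 0

/-- The Wick sum of pairing weights. -/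
noncomputable def G (a b c d : ℤ) : ℂ := P a b * P c d + P a c * P b d + P a d * P b c

theorem P_succ (j k : ℤ) : P (j + 1) k = - P j (k + 1) := by
  unfold P
  by_cases h : j + k + 1 = 0
  · rw [if_pos (by omega), if_pos (by omega), zpow_add_one₀ (by norm_num)]
    ring
  · rw [if_neg (by omega), if_neg (by omega)]
    simp

theorem P_comm (j k : ℤ) : P j k = P k j := by
  unfold P
  by_cases h : j + k = 0
  · rw [if_pos h, if_pos (by omega)]
    have hj : j = -k := by omega
    rw [hj, zpow_neg]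
    have h1 : ((-1 : ℂ) ^ k) * ((-1 : ℂ) ^ k) = 1 := by
      rw [← zpow_add₀ (by norm_num), ← two_mul, zpow_mul]
      norm_num
    exact inv_eq_of_mul_eq_one_left h1
  · rw [if_neg h, if_neg (by omega)]

theorem G_12 (a b c d : ℤ) : G a b c d = G b a c d := by
  unfold G; rw [P_comm a b]; ring

theorem G_23 (a b c d : ℤ) : G a b c d = G a c b d := by
  unfold G; rw [P_comm b c]; ring

theorem G_34 (a b c d : ℤ) : G a b c d = G a b d c := by
  unfold G; rw [P_comm c d]; ring

theorem G_step (j m k l : ℤ) :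
    G (j + 1) (m + 1) k l - G j m (k + 1) (l + 1) =
      P (j + 1) (m + 1) * P k l - P j m * P (k + 1) (l + 1) := by
  unfold G
  rw [P_succ j k, P_succ j l, P_succ m k, P_succ m l]
  ring

/-- Asymptotic equality of sequences. -/
def Asy (f g : ℕ → ℂ) : Prop := Tendsto (fun n => f n - g n) atTop (𝓝 0)

theorem Asy.refl (f : ℕ → ℂ) : Asy f f := by
  unfold Asy; simp

theorem Asy.of_eq {f g : ℕ → ℂ} (h : f = g) : Asy f g := by
  rw [h]; exact Asy.refl g

theorem Asy.trans {f g h : ℕ → ℂ} (h1 : Asy f g) (h2 : Asy g h) : Asy f h := by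
  unfold Asy at *
  have := h1.add h2
  rw [add_zero] at this
  refine this.congr fun n => ?_
  ring

/-- The error sequence. -/
noncomputable def Err (X : ℕ → ℤ → ℤ → ℤ → ℤ → ℂ) (Z : ℝ) (a b c d : ℤ) : ℕ → ℂ :=
  fun n => X n a b c d - G a b c d * (Z : ℂ)

section

variable {X : ℕ → ℤ → ℤ → ℤ → ℤ → ℂ} {Z : ℝ}

theorem Err_12 (s1 : ∀ n a b c d, X n a b c d = X n b a c d) (a b c d : ℤ) :
    Err X Z a b c d = Err X Z b a c d := by
  funext n; unfold Err; rw [s1, G_12]

theorem Err_23 (s2 : ∀ n a b c d, X n a b c d = X n a c b d) (a b c d : ℤ) :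
    Err X Z a b c d = Err X Z a c b d := by
  funext n; unfold Err; rw [s2, G_23]

theorem Err_34 (s3 : ∀ n a b c d, X n a b c d = X n a b d c) (a b c d : ℤ) :
    Err X Z a b c d = Err X Z a b d c := by
  funext n; unfold Err; rw [s3, G_34]

theorem Err_step (hmac : ∀ j m k l : ℤ,
      Tendsto (fun n => X n (j + 1) (m + 1) k l - X n j m (k + 1) (l + 1)) atTop
        (𝓝 ((P (j + 1) (m + 1) * P k l - P j m * P (k + 1) (l + 1)) * (Z : ℂ))))
    (j m k l : ℤ) : Asy (Err X Z (j + 1) (m + 1) k l) (Err X Z j m (k + 1) (l + 1)) := by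
  unfold Asy
  have h := (hmac j m k l).sub_const
    ((P (j + 1) (m + 1) * P k l - P j m * P (k + 1) (l + 1)) * (Z : ℂ))
  rw [sub_self] at h
  refine h.congr fun n => ?_
  unfold Err
  rw [← G_step]
  ring

theorem Err_move (s2 : ∀ n a b c d, X n a b c d = X n a c b d)
    (hmac : ∀ j m k l : ℤ,
      Tendsto (fun n => X n (j + 1) (m + 1) k l - X n j m (k + 1) (l + 1)) atTop
        (𝓝 ((P (j + 1) (m + 1) * P k l - P j m * P (k + 1) (l + 1)) * (Z : ℂ))))
    (a b c d : ℤ) : Asy (Err X Z (a + 2) b c d) (Err X Z a b c (d + 2)) := by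
  have h1 := Err_step hmac (a + 1) (b - 1) c d
  have h2 := Err_step hmac a c (b - 1) (d + 1)
  have e1 : a + 1 + 1 = a + 2 := by ring
  have e2 : b - 1 + 1 = b := by ring
  have e3 : d + 1 + 1 = d + 2 := by ring
  rw [e1, e2] at h1
  rw [e2, e3] at h2
  rw [Err_23 s2 (a + 1) (b - 1) (c + 1) (d + 1)] at h1
  rw [Err_23 s2 a c b (d + 2)] at h2
  exact h1.trans h2

theorem Err_move_nat (s2 : ∀ n a b c d, X n a b c d = X n a c b d)
    (hmac : ∀ j m k l : ℤ,
      Tendsto (fun n => X n (j + 1) (m + 1) k l - X n j m (k + 1) (l + 1)) atTop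
        (𝓝 ((P (j + 1) (m + 1) * P k l - P j m * P (k + 1) (l + 1)) * (Z : ℂ))))
    (b c : ℤ) (t : ℕ) : ∀ a d : ℤ,
      Asy (Err X Z (a + 2 * t) b c d) (Err X Z a b c (d + 2 * t)) := by
  induction t with
  | zero =>
    intro a d
    apply Asy.of_eq
    simp
  | succ t ih =>
    intro a d
    have h1 := Err_move s2 hmac (a + 2 * t) b c d
    have h2 := ih a (d + 2)
    have e1 : a + 2 * (t : ℤ) + 2 = a + 2 * ((t + 1 : ℕ) : ℤ) := by push_cast; ring
    have e2 : d + 2 + 2 * (t : ℤ) = d + 2 * ((t + 1 : ℕ) : ℤ) := by push_cast; ring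
    rw [e1] at h1
    rw [e2] at h2
    exact h1.trans h2

theorem Err_zero (s1 : ∀ n a b c d, X n a b c d = X n b a c d)
    (s2 : ∀ n a b c d, X n a b c d = X n a c b d)
    (s3 : ∀ n a b c d, X n a b c d = X n a b d c)
    (hmac : ∀ j m k l : ℤ,
      Tendsto (fun n => X n (j + 1) (m + 1) k l - X n j m (k + 1) (l + 1)) atTop
        (𝓝 ((P (j + 1) (m + 1) * P k l - P j m * P (k + 1) (l + 1)) * (Z : ℂ))))
    (a b c d : ℕ) (h : a + b = c + d) :
    Asy (Err X Z (2 * a) (2 * b) (-(2 * c)) (-(2 * d))) (Err X Z 0 0 0 0) := by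
  have h1 := Err_move_nat s2 hmac (2 * a) (-(2 * c)) b 0 (-(2 * d))
  rw [zero_add, ← Err_12 s1 (2 * (a : ℤ)) (2 * b)] at h1
  refine h1.trans ?_
  rw [Err_12 s1 0 (2 * (a : ℤ))]
  have h2 := Err_move_nat s2 hmac 0 (-(2 * c)) a 0 (-(2 * d) + 2 * b)
  rw [zero_add] at h2
  refine h2.trans ?_
  have e1 : (-(2 * (d : ℤ)) + 2 * b + 2 * a) = 2 * c := by
    have : (a : ℤ) + b = c + d := by exact_mod_cast h
    linarith
  rw [e1, Err_34 s3, Err_23 s2, Err_12 s1]
  have h3 := Err_move_nat s2 hmac 0 0 c 0 (-(2 * c))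
  rw [zero_add] at h3
  refine h3.trans (Asy.of_eq ?_)
  congr 1
  ring

end

/-- The index set of quadruples. -/
def quads (M : ℕ) : Finset ((ℕ × ℕ) × (ℕ × ℕ)) :=
  ((Finset.range (M + 1) ×ˢ Finset.range (M + 1)) ×ˢ
    (Finset.range (M + 1) ×ˢ Finset.range (M + 1))).filter
      (fun p => p.1.1 + p.1.2 = p.2.1 + p.2.2)

theorem mem_quads {M : ℕ} {p : (ℕ × ℕ) × (ℕ × ℕ)} :
    p ∈ quads M ↔ (p.1.1 ≤ M ∧ p.1.2 ≤ M ∧ p.2.1 ≤ M ∧ p.2.2 ≤ M) ∧
      p.1.1 + p.1.2 = p.2.1 + p.2.2 := by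
  unfold quads
  simp only [Finset.mem_filter, Finset.mem_product, Finset.mem_range]
  constructor
  · rintro ⟨⟨⟨h1, h2⟩, h3, h4⟩, h5⟩
    exact ⟨⟨by omega, by omega, by omega, by omega⟩, h5⟩
  · rintro ⟨⟨h1, h2, h3, h4⟩, h5⟩
    exact ⟨⟨⟨by omega, by omega⟩, by omega, by omega⟩, h5⟩

theorem card_quads (K : ℕ) : (K + 1) ^ 3 ≤ (quads (2 * K)).card := by
  let f : ℕ × ℕ × ℕ → (ℕ × ℕ) × (ℕ × ℕ) := fun t => ((t.1 + t.2.2, t.2.1), (t.2.2, t.1 + t.2.1))
  have hinj : Function.Injective f := by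
    rintro ⟨a, b, i⟩ ⟨a', b', i'⟩ h
    simp only [f, Prod.mk.injEq] at h
    obtain ⟨⟨h1, h2⟩, h3, h4⟩ := h
    simp only [Prod.mk.injEq]
    omega
  have hsub : (Finset.range (K + 1) ×ˢ (Finset.range (K + 1) ×ˢ Finset.range (K + 1))).image f ⊆
      quads (2 * K) := by
    intro p hp
    rw [Finset.mem_image] at hp
    obtain ⟨⟨a, b, i⟩, ht, rfl⟩ := hp
    simp only [Finset.mem_product, Finset.mem_range] at ht
    rw [mem_quads]
    simp only [f]
    omega
  calc (K + 1) ^ 3 = ((Finset.range (K + 1) ×ˢ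
        (Finset.range (K + 1) ×ˢ Finset.range (K + 1))).image f).card := by
        rw [Finset.card_image_of_injective _ hinj]
        simp only [Finset.card_product, Finset.card_range]
        ring
    _ ≤ (quads (2 * K)).card := Finset.card_le_card hsub

theorem P_even_pos (a b : ℕ) : P (2 * a) (2 * b) = if a = 0 ∧ b = 0 then 1 else 0 := by
  unfold P
  by_cases h : a = 0 ∧ b = 0
  · rw [if_pos h, if_pos (by omega)]
    obtain ⟨rfl, rfl⟩ := h
    simp
  · rw [if_neg h, if_neg (by omega)]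

theorem P_even_mixed (a b : ℕ) : P (2 * a) (-(2 * b)) = if a = b then 1 else 0 := by
  unfold P
  by_cases h : a = b
  · rw [if_pos h, if_pos (by omega), zpow_mul]
    norm_num
  · rw [if_neg h, if_neg (by omega)]

theorem P_even_le (a b : ℤ) : ‖P (2 * a) (2 * b)‖ ≤ 1 := by
  unfold P
  split_ifs
  · rw [zpow_mul]; norm_num
  · simp

theorem sum_G_re (M : ℕ) :
    (∑ p ∈ quads M, G (2 * p.1.1) (2 * p.1.2) (-(2 * p.2.1)) (-(2 * p.2.2))).re ≤
      2 * (M + 1) ^ 2 + 1 := by
  have hG : ∀ p ∈ quads M, (G (2 * p.1.1) (2 * p.1.2) (-(2 * p.2.1)) (-(2 * p.2.2))).re ≤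
      (if p = ((0, 0), (0, 0)) then (1 : ℝ) else 0) +
        (if p.2 = (p.1.1, p.1.2) then (1 : ℝ) else 0) +
        (if p.2 = (p.1.2, p.1.1) then (1 : ℝ) else 0) := by
    intro p hp
    rw [mem_quads] at hp
    obtain ⟨_, h5⟩ := hp
    obtain ⟨⟨a, b⟩, c, d⟩ := p
    simp only at h5 ⊢
    unfold G
    rw [P_even_mixed a c, P_even_mixed b d, P_even_mixed a d, P_even_mixed b c, P_even_pos]
    rw [Complex.add_re, Complex.add_re]
    apply add_le_add
    · apply add_le_add
      · by_cases h : a = 0 ∧ b = 0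
        · obtain ⟨rfl, rfl⟩ := h
          have hc : c = 0 := by omega
          have hd : d = 0 := by omega
          subst hc; subst hd
          simp only [Nat.cast_zero, mul_zero, neg_zero, and_self, if_true, one_mul]
          have := P_even_le 0 0
          simp only [mul_zero] at this
          exact (Complex.re_le_norm _).trans this
        · rw [if_neg h, zero_mul]
          split_ifs <;> simp
      · by_cases h1 : a = c
        · by_cases h2 : b = d
          · subst h1; subst h2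
            simp
          · rw [if_neg h2]
            simp only [mul_zero, Complex.zero_re]
            split_ifs <;> norm_num
        · rw [if_neg h1]
          simp only [zero_mul, Complex.zero_re]
          split_ifs <;> norm_num
    · by_cases h1 : a = d
      · by_cases h2 : b = c
        · subst h1; subst h2
          simp
        · rw [if_neg h2]
          simp only [mul_zero, Complex.zero_re]
          split_ifs <;> norm_num
      · rw [if_neg h1]
        simp only [zero_mul, Complex.zero_re]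
        split_ifs <;> norm_num
  rw [Complex.re_sum]
  refine (Finset.sum_le_sum hG).trans ?_
  rw [Finset.sum_add_distrib, Finset.sum_add_distrib]
  have h1 : ∑ p ∈ quads M, (if p = ((0, 0), (0, 0)) then (1 : ℝ) else 0) ≤ 1 := by
    rw [← Finset.sum_filter, Finset.sum_const, nsmul_eq_mul, mul_one]
    have : ((quads M).filter (fun p => p = ((0, 0), (0, 0)))).card ≤ 1 := by
      apply Finset.card_le_one.mpr
      intro x hx y hy
      rw [(Finset.mem_filter.mp hx).2, (Finset.mem_filter.mp hy).2]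
    exact_mod_cast this
  have hcard : ∀ g : ℕ × ℕ → ℕ × ℕ,
      ∑ p ∈ quads M, (if p.2 = g p.1 then (1 : ℝ) else 0) ≤ (M + 1) ^ 2 := by
    intro g
    rw [← Finset.sum_filter, Finset.sum_const, nsmul_eq_mul, mul_one]
    have h2 : ((quads M).filter (fun p => p.2 = g p.1)).card ≤
        (Finset.range (M + 1) ×ˢ Finset.range (M + 1)).card := by
      apply Finset.card_le_card_of_injOn (fun p => p.1)
      · intro p hp
        have h3 := (Finset.mem_filter.mp hp).1
        rw [mem_quads] at h3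
        simp only [Finset.coe_product, Finset.coe_range, Set.mem_prod, Set.mem_Iio]
        omega
      · intro p hp p' hp' heq
        have h3 := (Finset.mem_filter.mp hp).2
        have h4 := (Finset.mem_filter.mp hp').2
        have heq' : p.1 = p'.1 := heq
        exact Prod.ext heq' (by rw [h3, h4, heq'])
    rw [Finset.card_product, Finset.card_range] at h2
    have h5 : (((quads M).filter (fun p => p.2 = g p.1)).card : ℝ) ≤
        (((M + 1) * (M + 1) : ℕ) : ℝ) := by exact_mod_cast h2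
    refine h5.trans ?_
    push_cast
    linarith only []
  have h2 := hcard (fun q => (q.1, q.2))
  have h3 := hcard (fun q => (q.2, q.1))
  linarith

/-- The final algebraic step, filter form of the positivity hypothesis. -/
theorem alg_final (X : ℕ → ℤ → ℤ → ℤ → ℤ → ℂ) (Z : ℝ) (hZ : 0 ≤ Z)
    (s1 : ∀ n a b c d, X n a b c d = X n b a c d)
    (s2 : ∀ n a b c d, X n a b c d = X n a c b d)
    (s3 : ∀ n a b c d, X n a b c d = X n a b d c)
    (hmac : ∀ j m k l : ℤ,
      Tendsto (fun n => X n (j + 1) (m + 1) k l - X n j m (k + 1) (l + 1)) atTop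
        (𝓝 ((P (j + 1) (m + 1) * P k l - P j m * P (k + 1) (l + 1)) * (Z : ℂ))))
    (hpos : ∀ M n : ℕ, 0 ≤ (∑ p ∈ quads M,
      X n (2 * p.1.1) (2 * p.1.2) (-(2 * p.2.1)) (-(2 * p.2.2))).re) :
    ∀ ε > 0, ∀ᶠ n in atTop, 3 * Z - ε ≤ (X n 0 0 0 0).re := by
  intro ε hε
  obtain ⟨K, hK⟩ : ∃ K : ℕ, Z * 8 / (K + 1) ≤ ε / 2 := by
    obtain ⟨K, hK⟩ := exists_nat_ge (Z * 8 / (ε / 2))
    refine ⟨K, ?_⟩
    have h1 : (0 : ℝ) < (K : ℝ) + 1 := by positivity
    rw [div_le_iff₀ h1]
    rw [div_le_iff₀ (by positivity)] at hK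
    nlinarith
  set M := 2 * K with hM
  set T : ℝ := ((quads M).card : ℝ) with hT
  have hTK : ((K : ℝ) + 1) ^ 3 ≤ T := by
    have := card_quads K
    rw [← hM] at this
    rw [hT]
    exact_mod_cast this
  have hT1 : 1 ≤ T := by
    have : (1 : ℝ) ≤ ((K : ℝ) + 1) ^ 3 := by
      apply one_le_pow₀
      have : (0 : ℝ) ≤ K := by positivity
      linarith
    linarith
  have hlim : Tendsto (fun n => ∑ p ∈ quads M,
      (Err X Z (2 * p.1.1) (2 * p.1.2) (-(2 * p.2.1)) (-(2 * p.2.2)) n - Err X Z 0 0 0 0 n))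
      atTop (𝓝 0) := by
    have h0 : (0 : ℂ) = ∑ p ∈ quads M, (0 : ℂ) := by simp
    rw [h0]
    apply tendsto_finsetSum
    intro p hp
    exact Err_zero s1 s2 s3 hmac p.1.1 p.1.2 p.2.1 p.2.2 (mem_quads.mp hp).2
  have hev := (Metric.tendsto_nhds.mp hlim) (ε / 2) (by positivity)
  filter_upwards [hev] with n hn
  rw [dist_zero_right] at hn
  have hre := (Complex.abs_re_le_norm (∑ p ∈ quads M,
      (Err X Z (2 * p.1.1) (2 * p.1.2) (-(2 * p.2.1)) (-(2 * p.2.2)) n -
        Err X Z 0 0 0 0 n))).trans hn.le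
  rw [Finset.sum_sub_distrib, Finset.sum_const, nsmul_eq_mul] at hre
  have hsumE : ∑ p ∈ quads M, Err X Z (2 * p.1.1) (2 * p.1.2) (-(2 * p.2.1)) (-(2 * p.2.2)) n
      = ∑ p ∈ quads M, X n (2 * p.1.1) (2 * p.1.2) (-(2 * p.2.1)) (-(2 * p.2.2)) -
        (∑ p ∈ quads M, G (2 * p.1.1) (2 * p.1.2) (-(2 * p.2.1)) (-(2 * p.2.2))) * (Z : ℂ) := by
    rw [Finset.sum_mul, ← Finset.sum_sub_distrib]
    rfl
  rw [hsumE] at hre
  rw [Complex.sub_re, Complex.sub_re, Complex.re_mul_ofReal] at hre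
  have hcast : (((quads M).card : ℂ) * Err X Z 0 0 0 0 n).re = T * (Err X Z 0 0 0 0 n).re := by
    rw [hT]
    have : ((quads M).card : ℂ) = (((quads M).card : ℝ) : ℂ) := by push_cast; rfl
    rw [this, Complex.re_ofReal_mul]
  rw [hcast] at hre
  have h0 := (abs_le.mp hre).2
  have h1 := hpos M n
  have h2 := sum_G_re M
  have h3 : -(ε / 2) - Z * (2 * ((M : ℝ) + 1) ^ 2 + 1) ≤ T * (Err X Z 0 0 0 0 n).re := by
    nlinarith only [h0, h1, hZ, h2]
  have h4 : Z * (2 * ((M : ℝ) + 1) ^ 2 + 1) ≤ T * (ε / 2) := by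
    have hMc : (M : ℝ) = 2 * K := by rw [hM]; push_cast; ring
    have hK0 : (0 : ℝ) ≤ K := by positivity
    have h5 : 2 * ((M : ℝ) + 1) ^ 2 + 1 ≤ 8 * ((K : ℝ) + 1) ^ 2 := by
      rw [hMc]; linarith
    have h6 : Z * 8 ≤ ε / 2 * ((K : ℝ) + 1) := by
      rw [div_le_iff₀ (by positivity)] at hK
      exact hK
    calc Z * (2 * ((M : ℝ) + 1) ^ 2 + 1) ≤ Z * (8 * ((K : ℝ) + 1) ^ 2) :=
          mul_le_mul_of_nonneg_left h5 hZ
      _ = (Z * 8) * ((K : ℝ) + 1) ^ 2 := by ring
      _ ≤ (ε / 2 * ((K : ℝ) + 1)) * ((K : ℝ) + 1) ^ 2 :=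
          mul_le_mul_of_nonneg_right h6 (by positivity)
      _ = ((K : ℝ) + 1) ^ 3 * (ε / 2) := by ring
      _ ≤ T * (ε / 2) := mul_le_mul_of_nonneg_right hTK (by positivity)
  have h7 : -ε ≤ (Err X Z 0 0 0 0 n).re := by
    have h8 : T * (-ε) ≤ T * (Err X Z 0 0 0 0 n).re := by
      nlinarith only [h3, h4, hε, hT1]
    exact le_of_mul_le_mul_left h8 (by linarith only [hT1])
  have h9 : (Err X Z 0 0 0 0 n).re = (X n 0 0 0 0).re - 3 * Z := by
    unfold Err G P
    rw [Complex.sub_re]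
    simp only [add_zero, if_true, zpow_zero, mul_one]
    rw [Complex.re_mul_ofReal]
    norm_num
  linarith only [h7, h9]

/-- The same statement with nested sums and if-then-else in the positivity hypothesis. -/
theorem alg_final' (X : ℕ → ℤ → ℤ → ℤ → ℤ → ℂ) (Z : ℝ) (hZ : 0 ≤ Z)
    (s1 : ∀ n a b c d, X n a b c d = X n b a c d)
    (s2 : ∀ n a b c d, X n a b c d = X n a c b d)
    (s3 : ∀ n a b c d, X n a b c d = X n a b d c)
    (hmac : ∀ j m k l : ℤ,
      Tendsto (fun n => X n (j + 1) (m + 1) k l - X n j m (k + 1) (l + 1)) atTop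
        (𝓝 ((P (j + 1) (m + 1) * P k l - P j m * P (k + 1) (l + 1)) * (Z : ℂ))))
    (hpos : ∀ M n : ℕ, 0 ≤ (∑ a ∈ Finset.range (M + 1), ∑ b ∈ Finset.range (M + 1),
      ∑ c ∈ Finset.range (M + 1), ∑ d ∈ Finset.range (M + 1),
        if a + b = c + d then X n (2 * a) (2 * b) (-(2 * c)) (-(2 * d)) else 0).re) :
    ∀ ε > 0, ∀ᶠ n in atTop, 3 * Z - ε ≤ (X n 0 0 0 0).re := by
  apply alg_final X Z hZ s1 s2 s3 hmac
  intro M n
  have h := hpos M n
  have heq : ∑ p ∈ quads M, X n (2 * p.1.1) (2 * p.1.2) (-(2 * p.2.1)) (-(2 * p.2.2)) =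
      ∑ a ∈ Finset.range (M + 1), ∑ b ∈ Finset.range (M + 1),
      ∑ c ∈ Finset.range (M + 1), ∑ d ∈ Finset.range (M + 1),
        if a + b = c + d then X n (2 * a) (2 * b) (-(2 * c)) (-(2 * d)) else 0 := by
    unfold quads
    rw [Finset.sum_filter, Finset.sum_product, Finset.sum_product]
    simp only [Finset.sum_product]
  rw [heq]
  exact h

end QE


end

section

/-!
Algebra and limits, second part (helper70): if in addition the kurtosis tends to the Gaussian
value, then every fourth order correlation of the jets tends to its Gaussian value.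
-/

namespace QE

open Filter Topology

theorem Asy.symm {f g : ℕ → ℂ} (h : Asy f g) : Asy g f := by
  unfold Asy at *
  have := h.neg
  rw [neg_zero] at this
  exact this.congr fun n => by ring

theorem Asy.tendsto_zero {f g : ℕ → ℂ} (h : Asy f g) (hg : Tendsto g atTop (𝓝 0)) :
    Tendsto f atTop (𝓝 0) := by
  unfold Asy at h
  have := h.add hg
  rw [add_zero] at this
  exact this.congr fun n => by ring

section

variable {X : ℕ → ℤ → ℤ → ℤ → ℤ → ℂ} {Z : ℝ}

theorem Err_shift1 (s2 : ∀ n a b c d, X n a b c d = X n a c b d)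
    (hmac : ∀ j m k l : ℤ,
      Tendsto (fun n => X n (j + 1) (m + 1) k l - X n j m (k + 1) (l + 1)) atTop
        (𝓝 ((P (j + 1) (m + 1) * P k l - P j m * P (k + 1) (l + 1)) * (Z : ℂ))))
    (a b c d k : ℤ) : Asy (Err X Z (a + 2 * k) b c d) (Err X Z a b c (d + 2 * k)) := by
  obtain ⟨t, rfl | rfl⟩ := Int.eq_nat_or_neg k
  · exact Err_move_nat s2 hmac b c t a d
  · have h := Err_move_nat s2 hmac b c t (a + 2 * (-(t : ℤ))) (d + 2 * (-(t : ℤ)))
    have e1 : a + 2 * (-(t : ℤ)) + 2 * t = a := by ring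
    have e2 : d + 2 * (-(t : ℤ)) + 2 * t = d := by ring
    rw [e1, e2] at h
    exact h.symm

theorem Err_shift2 (s1 : ∀ n a b c d, X n a b c d = X n b a c d)
    (s2 : ∀ n a b c d, X n a b c d = X n a c b d)
    (hmac : ∀ j m k l : ℤ,
      Tendsto (fun n => X n (j + 1) (m + 1) k l - X n j m (k + 1) (l + 1)) atTop
        (𝓝 ((P (j + 1) (m + 1) * P k l - P j m * P (k + 1) (l + 1)) * (Z : ℂ))))
    (a b c d k : ℤ) : Asy (Err X Z a (b + 2 * k) c d) (Err X Z a b c (d + 2 * k)) := by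
  rw [Err_12 s1 a (b + 2 * k), Err_12 s1 a b]
  exact Err_shift1 s2 hmac b a c d k

theorem Err_shift3 (s1 : ∀ n a b c d, X n a b c d = X n b a c d)
    (s2 : ∀ n a b c d, X n a b c d = X n a c b d)
    (hmac : ∀ j m k l : ℤ,
      Tendsto (fun n => X n (j + 1) (m + 1) k l - X n j m (k + 1) (l + 1)) atTop
        (𝓝 ((P (j + 1) (m + 1) * P k l - P j m * P (k + 1) (l + 1)) * (Z : ℂ))))
    (a b c d k : ℤ) : Asy (Err X Z a b (c + 2 * k) d) (Err X Z a b c (d + 2 * k)) := by
  rw [Err_23 s2 a b (c + 2 * k), Err_23 s2 a b c]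
  exact Err_shift2 s1 s2 hmac a c b d k

/-- if the kurtosis tends to three, the errors of total index zero tend to zero -/
theorem Err_sum_zero (s1 : ∀ n a b c d, X n a b c d = X n b a c d)
    (s2 : ∀ n a b c d, X n a b c d = X n a c b d)
    (s3 : ∀ n a b c d, X n a b c d = X n a b d c)
    (hmac : ∀ j m k l : ℤ,
      Tendsto (fun n => X n (j + 1) (m + 1) k l - X n j m (k + 1) (l + 1)) atTop
        (𝓝 ((P (j + 1) (m + 1) * P k l - P j m * P (k + 1) (l + 1)) * (Z : ℂ))))
    (hibp : Tendsto (fun n => X n 1 0 0 (-1) + X n 0 1 0 (-1) + X n 0 0 1 (-1) + X n 0 0 0 0)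
      atTop (𝓝 0))
    (h0 : Tendsto (Err X Z 0 0 0 0) atTop (𝓝 0)) (a b c d : ℤ) (hs : a + b + c + d = 0) :
    Tendsto (Err X Z a b c d) atTop (𝓝 0) := by
  -- the mixed class
  have hG1 : G 1 0 0 (-1) = -1 := by simp [G, P]
  have hG0 : G 0 0 0 0 = 3 := by simp [G, P]; norm_num
  have hm : Tendsto (Err X Z 1 0 0 (-1)) atTop (𝓝 0) := by
    have h1 := (hibp.sub h0).const_mul (1 / 3 : ℂ)
    rw [sub_zero, mul_zero] at h1
    refine h1.congr fun n => ?_
    have e1 : X n 0 1 0 (-1) = X n 1 0 0 (-1) := s1 n 0 1 0 (-1)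
    have e2 : X n 0 0 1 (-1) = X n 1 0 0 (-1) := by rw [s2 n 0 0 1 (-1), s1 n 0 1 0 (-1)]
    unfold Err
    rw [hG1, hG0, e1, e2]
    ring
  have hm2 : Tendsto (Err X Z 0 1 0 (-1)) atTop (𝓝 0) := by
    rw [Err_12 s1]; exact hm
  have hm3 : Tendsto (Err X Z 0 0 1 (-1)) atTop (𝓝 0) := by
    rw [Err_23 s2]; exact hm2
  have hn1 : Tendsto (Err X Z 1 1 0 (-2)) atTop (𝓝 0) := by
    have := Err_step (Z := Z) hmac 0 0 0 (-2)
    simp only [zero_add] at this
    exact this.tendsto_zero hm3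
  have hn2 : Tendsto (Err X Z 1 0 1 (-2)) atTop (𝓝 0) := by
    rw [Err_23 s2]; exact hn1
  have hn3 : Tendsto (Err X Z 0 1 1 (-2)) atTop (𝓝 0) := by
    rw [Err_12 s1]; exact hn2
  have hq : Tendsto (Err X Z 1 1 1 (-3)) atTop (𝓝 0) := by
    have h1 := Err_step (Z := Z) hmac 0 0 1 (-3)
    have h2 := Err_shift3 s1 s2 hmac 0 0 0 (-2) 1
    simp only [zero_add] at h1
    have e : (-3 : ℤ) + 1 = -2 := by norm_num
    have e' : (1 : ℤ) + 1 = 0 + 2 * 1 := by norm_num
    rw [e, e'] at h1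
    have e3 : (-2 : ℤ) + 2 * 1 = 0 := by norm_num
    rw [e3] at h2
    exact (h1.trans h2).tendsto_zero h0
  -- normal form
  obtain ⟨α, k1, ha, hα⟩ : ∃ α k : ℤ, a = α + 2 * k ∧ (α = 0 ∨ α = 1) :=
    ⟨a % 2, a / 2, by omega, by omega⟩
  obtain ⟨β, k2, hb, hβ⟩ : ∃ α k : ℤ, b = α + 2 * k ∧ (α = 0 ∨ α = 1) :=
    ⟨b % 2, b / 2, by omega, by omega⟩
  obtain ⟨γ, k3, hc, hγ⟩ : ∃ α k : ℤ, c = α + 2 * k ∧ (α = 0 ∨ α = 1) :=
    ⟨c % 2, c / 2, by omega, by omega⟩
  have h1 := Err_shift1 s2 hmac α b c d k1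
  have h2 := Err_shift2 s1 s2 hmac α β c (d + 2 * k1) k2
  have h3 := Err_shift3 s1 s2 hmac α β γ (d + 2 * k1 + 2 * k2) k3
  rw [← ha] at h1
  rw [← hb] at h2
  rw [← hc] at h3
  have hall := (h1.trans h2).trans h3
  have ed : d + 2 * k1 + 2 * k2 + 2 * k3 = -(α + β + γ) := by omega
  rw [ed] at hall
  refine hall.tendsto_zero ?_
  rcases hα with rfl | rfl <;> rcases hβ with rfl | rfl <;> rcases hγ with rfl | rfl <;>
    norm_num <;> assumption

end

theorem norm_P_le (j m : ℤ) : ‖P j m‖ ≤ if j + m = 0 then 1 else 0 := by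
  unfold P
  split_ifs
  · rw [norm_zpow]; norm_num
  · simp

/-- the Wick terms of a block sum -/
theorem norm_Gsum_le (N : ℕ) (a b c d : ℤ) (hab : a + b ≠ 0) :
    ‖∑ t ∈ Finset.range N, ∑ u ∈ Finset.range N,
      G (a + 2 * t) (b - 2 * t) (c - 2 * u) (d + 2 * u)‖ ≤ 2 * N := by
  have hG : ∀ t u : ℕ, ‖G (a + 2 * t) (b - 2 * t) (c - 2 * u) (d + 2 * u)‖ ≤
      (if a + 2 * t + (c - 2 * u) = 0 then (1 : ℝ) else 0)
        + (if a + 2 * t + (d + 2 * u) = 0 then (1 : ℝ) else 0) := by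
    intro t u
    have h0 : P (a + 2 * t) (b - 2 * t) = 0 := by
      unfold P
      rw [if_neg]
      omega
    unfold G
    rw [h0, zero_mul, zero_add]
    refine (norm_add_le _ _).trans (add_le_add ?_ ?_)
    · rw [norm_mul]
      have h1 := norm_P_le (a + 2 * t) (c - 2 * u)
      have h2 : ‖P (b - 2 * t) (d + 2 * u)‖ ≤ 1 := (norm_P_le _ _).trans (by split_ifs <;> norm_num)
      calc ‖P (a + 2 * t) (c - 2 * u)‖ * ‖P (b - 2 * t) (d + 2 * u)‖
          ≤ ‖P (a + 2 * t) (c - 2 * u)‖ * 1 := by gcongr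
        _ ≤ _ := by rw [mul_one]; exact h1
    · rw [norm_mul]
      have h1 := norm_P_le (a + 2 * t) (d + 2 * u)
      have h2 : ‖P (b - 2 * t) (c - 2 * u)‖ ≤ 1 := (norm_P_le _ _).trans (by split_ifs <;> norm_num)
      calc ‖P (a + 2 * t) (d + 2 * u)‖ * ‖P (b - 2 * t) (c - 2 * u)‖
          ≤ ‖P (a + 2 * t) (d + 2 * u)‖ * 1 := by (clear * - h2; gcongr)
        _ ≤ _ := by rw [mul_one]; exact h1
  have hone : ∀ (p : ℕ → Prop) [DecidablePred p], (∀ u v, p u → p v → u = v) →
      ∑ u ∈ Finset.range N, (if p u then (1 : ℝ) else 0) ≤ 1 := by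
    intro p _ hp
    rw [← Finset.sum_filter, Finset.sum_const, nsmul_eq_mul, mul_one]
    have : ((Finset.range N).filter p).card ≤ 1 := by
      apply Finset.card_le_one.mpr
      intro x hx y hy
      exact hp x y (Finset.mem_filter.mp hx).2 (Finset.mem_filter.mp hy).2
    exact_mod_cast this
  calc ‖∑ t ∈ Finset.range N, ∑ u ∈ Finset.range N,
        G (a + 2 * t) (b - 2 * t) (c - 2 * u) (d + 2 * u)‖
      ≤ ∑ t ∈ Finset.range N, ∑ u ∈ Finset.range N,
        ‖G (a + 2 * t) (b - 2 * t) (c - 2 * u) (d + 2 * u)‖ :=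
        (norm_sum_le _ _).trans (Finset.sum_le_sum fun t _ => norm_sum_le _ _)
    _ ≤ ∑ t ∈ Finset.range N, ∑ u ∈ Finset.range N,
        ((if a + 2 * (t : ℤ) + (c - 2 * u) = 0 then (1 : ℝ) else 0)
        + (if a + 2 * (t : ℤ) + (d + 2 * u) = 0 then (1 : ℝ) else 0)) :=
        Finset.sum_le_sum fun t _ => Finset.sum_le_sum fun u _ => hG t u
    _ ≤ ∑ _t ∈ Finset.range N, (2 : ℝ) := by
        refine Finset.sum_le_sum fun t _ => ?_
        rw [Finset.sum_add_distrib]
        have h1 := hone (fun u : ℕ => a + 2 * (t : ℤ) + (c - 2 * u) = 0)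
          (fun u v hu hv => by omega)
        have h2 := hone (fun u : ℕ => a + 2 * (t : ℤ) + (d + 2 * u) = 0)
          (fun u v hu hv => by omega)
        linarith
    _ = 2 * N := by rw [Finset.sum_const, Finset.card_range, nsmul_eq_mul]; ring

/-- the block sums of the fourth order correlations -/
noncomputable def blk (X : ℕ → ℤ → ℤ → ℤ → ℤ → ℂ) (N n : ℕ) (a b c d : ℤ) : ℂ :=
  ∑ t ∈ Finset.range N, ∑ u ∈ Finset.range N,
    X n (a + 2 * t) (b - 2 * t) (c - 2 * u) (d + 2 * u)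

/-- **kurtosis three implies Gaussian fourth order correlations** (algebraic part) -/
theorem alg_full (X : ℕ → ℤ → ℤ → ℤ → ℤ → ℂ) (Z : ℝ) (hZ : 0 ≤ Z)
    (s1 : ∀ n a b c d, X n a b c d = X n b a c d)
    (s2 : ∀ n a b c d, X n a b c d = X n a c b d)
    (s3 : ∀ n a b c d, X n a b c d = X n a b d c)
    (hmac : ∀ j m k l : ℤ,
      Tendsto (fun n => X n (j + 1) (m + 1) k l - X n j m (k + 1) (l + 1)) atTop
        (𝓝 ((P (j + 1) (m + 1) * P k l - P j m * P (k + 1) (l + 1)) * (Z : ℂ))))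
    (hibp : Tendsto (fun n => X n 1 0 0 (-1) + X n 0 1 0 (-1) + X n 0 0 1 (-1) + X n 0 0 0 0)
      atTop (𝓝 0))
    (hcs : ∀ (N n : ℕ) (a b c d : ℤ), ‖blk X N n a b c d‖ ≤
      (((-1 : ℂ) ^ (a + b) * blk X N n a b (-a) (-b)).re
        + ((-1 : ℂ) ^ (c + d) * blk X N n (-c) (-d) c d).re) / 2)
    (h3 : Tendsto (fun n => X n 0 0 0 0) atTop (𝓝 (3 * Z))) (a b c d : ℤ) :
    Tendsto (fun n => X n a b c d) atTop (𝓝 (G a b c d * Z)) := by
  have hG0 : G 0 0 0 0 = 3 := by simp [G, P]; norm_num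
  have h0 : Tendsto (Err X Z 0 0 0 0) atTop (𝓝 0) := by
    have := h3.sub_const (3 * (Z : ℂ))
    rw [sub_self] at this
    refine this.congr fun n => ?_
    unfold Err; rw [hG0]
  have hsz := Err_sum_zero (Z := Z) s1 s2 s3 hmac hibp h0
  -- the main claim for a good splitting
  have main : ∀ a b c d : ℤ, a + b ≠ 0 → c + d ≠ 0 → Tendsto (Err X Z a b c d) atTop (𝓝 0) := by
    intro a b c d hab hcd
    rw [tendsto_zero_iff_norm_tendsto_zero, Metric.tendsto_atTop]
    intro ε hε
    obtain ⟨N, hN1, hN⟩ : ∃ N : ℕ, 1 ≤ N ∧ 4 * Z < N * (ε / 2) := by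
      obtain ⟨N, hN⟩ := exists_nat_gt (4 * Z / (ε / 2))
      refine ⟨N + 1, by omega, ?_⟩
      rw [div_lt_iff₀ (by positivity)] at hN
      push_cast
      linarith only [hε, hN]
    have hNr : (1 : ℝ) ≤ N := by exact_mod_cast hN1
    -- the error in a block
    have hblk : ∀ a b c d : ℤ, ∀ n, blk X N n a b c d =
        (∑ t ∈ Finset.range N, ∑ u ∈ Finset.range N,
          Err X Z (a + 2 * t) (b - 2 * t) (c - 2 * u) (d + 2 * u) n)
        + (∑ t ∈ Finset.range N, ∑ u ∈ Finset.range N,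
          G (a + 2 * t) (b - 2 * t) (c - 2 * u) (d + 2 * u)) * (Z : ℂ) := by
      intro a b c d n
      unfold blk Err
      rw [Finset.sum_mul, ← Finset.sum_add_distrib]
      refine Finset.sum_congr rfl fun t _ => ?_
      rw [Finset.sum_mul, ← Finset.sum_add_distrib]
      refine Finset.sum_congr rfl fun u _ => ?_
      ring
    have hzero : ∀ a b : ℤ, Tendsto (fun n => ∑ t ∈ Finset.range N, ∑ u ∈ Finset.range N,
          Err X Z (a + 2 * t) (b - 2 * t) (-a - 2 * u) (-b + 2 * u) n) atTop (𝓝 0) := by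
      intro a b
      have h0 : (0 : ℂ) = ∑ t ∈ Finset.range N, ∑ u ∈ Finset.range N, (0 : ℂ) := by simp
      rw [h0]
      refine tendsto_finsetSum _ fun t _ => tendsto_finsetSum _ fun u _ => ?_
      exact hsz _ _ _ _ (by ring)
    have hzero2 : ∀ c d : ℤ, Tendsto (fun n => ∑ t ∈ Finset.range N, ∑ u ∈ Finset.range N,
          Err X Z (-c + 2 * t) (-d - 2 * t) (c - 2 * u) (d + 2 * u) n) atTop (𝓝 0) := by
      intro c d
      have h0 : (0 : ℂ) = ∑ t ∈ Finset.range N, ∑ u ∈ Finset.range N, (0 : ℂ) := by simp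
      rw [h0]
      refine tendsto_finsetSum _ fun t _ => tendsto_finsetSum _ fun u _ => ?_
      exact hsz _ _ _ _ (by ring)
    have hdiff : Tendsto (fun n => ∑ t ∈ Finset.range N, ∑ u ∈ Finset.range N,
          (Err X Z (a + 2 * t) (b - 2 * t) (c - 2 * u) (d + 2 * u) n - Err X Z a b c d n))
          atTop (𝓝 0) := by
      have h0 : (0 : ℂ) = ∑ t ∈ Finset.range N, ∑ u ∈ Finset.range N, (0 : ℂ) := by simp
      rw [h0]
      refine tendsto_finsetSum _ fun t _ => tendsto_finsetSum _ fun u _ => ?_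
      have h1 := Err_shift1 s2 hmac a (b - 2 * t) (c - 2 * u) (d + 2 * u) t
      have h2 := Err_shift2 s1 s2 hmac a b (c - 2 * u) (d + 2 * u + 2 * t) (-t)
      have h3 := Err_shift3 s1 s2 hmac a b c (d + 2 * u) (-u)
      have e1 : b + 2 * (-(t : ℤ)) = b - 2 * t := by ring
      have e2 : d + 2 * (u : ℤ) + 2 * t + 2 * (-(t : ℤ)) = d + 2 * u := by ring
      have e3 : c + 2 * (-(u : ℤ)) = c - 2 * u := by ring
      have e4 : d + 2 * (u : ℤ) + 2 * (-(u : ℤ)) = d := by ring
      rw [e1, e2] at h2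
      rw [e3, e4] at h3
      exact (h1.trans h2).trans h3
    have ev1 := (Metric.tendsto_nhds.mp (hzero a b)) (ε / 8) (by positivity)
    have ev2 := (Metric.tendsto_nhds.mp (hzero2 c d)) (ε / 8) (by positivity)
    have ev3 := (Metric.tendsto_nhds.mp hdiff) (ε / 8) (by positivity)
    have hev : ∀ᶠ n in atTop, ‖Err X Z a b c d n‖ < ε := by
      filter_upwards [ev1, ev2, ev3] with n h1 h2 h3'
      rw [dist_zero_right] at h1 h2 h3'
      -- names
      set S0 := ∑ t ∈ Finset.range N, ∑ u ∈ Finset.range N,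
        Err X Z (a + 2 * t) (b - 2 * t) (c - 2 * u) (d + 2 * u) n with hS0
      have hsplit : ∑ t ∈ Finset.range N, ∑ u ∈ Finset.range N,
          (Err X Z (a + 2 * t) (b - 2 * t) (c - 2 * u) (d + 2 * u) n - Err X Z a b c d n)
          = S0 - (N : ℂ) ^ 2 * Err X Z a b c d n := by
        rw [hS0]
        simp only [Finset.sum_sub_distrib, Finset.sum_const, Finset.card_range, nsmul_eq_mul]
        ring
      rw [hsplit] at h3'
      have k1 : ((-1 : ℂ) ^ (a + b) * blk X N n a b (-a) (-b)).re ≤ ε / 8 + 2 * N * Z := by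
        refine (Complex.re_le_norm _).trans ?_
        rw [norm_mul, norm_zpow]
        simp only [norm_neg, norm_one, one_zpow, one_mul]
        rw [hblk]
        refine (norm_add_le _ _).trans (add_le_add h1.le ?_)
        rw [norm_mul, Complex.norm_real, Real.norm_of_nonneg hZ]
        exact mul_le_mul_of_nonneg_right (norm_Gsum_le N a b (-a) (-b) hab) hZ
      have k2 : ((-1 : ℂ) ^ (c + d) * blk X N n (-c) (-d) c d).re ≤ ε / 8 + 2 * N * Z := by
        refine (Complex.re_le_norm _).trans ?_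
        rw [norm_mul, norm_zpow]
        simp only [norm_neg, norm_one, one_zpow, one_mul]
        rw [hblk]
        refine (norm_add_le _ _).trans (add_le_add h2.le ?_)
        rw [norm_mul, Complex.norm_real, Real.norm_of_nonneg hZ]
        exact mul_le_mul_of_nonneg_right (norm_Gsum_le N (-c) (-d) c d (by omega)) hZ
      have k3 := hcs N n a b c d
      have k4 : ‖S0‖ ≤ ‖blk X N n a b c d‖ + 2 * N * Z := by
        have e : S0 = blk X N n a b c d - (∑ t ∈ Finset.range N, ∑ u ∈ Finset.range N,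
          G (a + 2 * t) (b - 2 * t) (c - 2 * u) (d + 2 * u)) * (Z : ℂ) := by
          rw [hblk]; ring
        rw [e]
        refine (norm_sub_le _ _).trans (add_le_add le_rfl ?_)
        rw [norm_mul, Complex.norm_real, Real.norm_of_nonneg hZ]
        exact mul_le_mul_of_nonneg_right (norm_Gsum_le N a b c d hab) hZ
      have k5 : ‖(N : ℂ) ^ 2 * Err X Z a b c d n‖ ≤ ‖S0‖ + ε / 8 := by
        have e : (N : ℂ) ^ 2 * Err X Z a b c d n
            = S0 - (S0 - (N : ℂ) ^ 2 * Err X Z a b c d n) := by ring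
        rw [e]
        exact (norm_sub_le _ _).trans (add_le_add le_rfl h3'.le)
      have k6 : ‖(N : ℂ) ^ 2 * Err X Z a b c d n‖ = (N : ℝ) ^ 2 * ‖Err X Z a b c d n‖ := by
        rw [norm_mul, norm_pow, Complex.norm_natCast]
      rw [k6] at k5
      have k7 : (N : ℝ) ^ 2 * ‖Err X Z a b c d n‖ ≤ ε / 4 + 4 * N * Z := by linarith only [k1, k2, k3, k4, k5]
      have k8 : (N : ℝ) ^ 2 * ‖Err X Z a b c d n‖ < (N : ℝ) ^ 2 * ε := by
        have hN2 : (1 : ℝ) ≤ (N : ℝ) ^ 2 := one_le_pow₀ hNr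
        have m1 : (N : ℝ) * (4 * Z) < N * (N * (ε / 2)) := by
          apply mul_lt_mul_of_pos_left hN; linarith only [hNr]
        nlinarith only [k1, k2, k3, k4, k5, m1, hε, hN2]
      exact lt_of_mul_lt_mul_left k8 (by positivity)
    obtain ⟨n0, hn0⟩ := eventually_atTop.mp hev
    refine ⟨n0, fun n hn => ?_⟩
    rw [dist_zero_right, norm_norm]
    exact hn0 n hn
  -- reduction to a good splitting
  obtain ⟨k, hk1, hk2⟩ : ∃ k : ℤ, a + 2 * k + b ≠ 0 ∧ c + (d - 2 * k) ≠ 0 := by
    by_cases h1 : a + b ≠ 0 ∧ c + d ≠ 0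
    · exact ⟨0, by omega, by omega⟩
    · by_cases h2 : a + 2 * 1 + b ≠ 0 ∧ c + (d - 2 * 1) ≠ 0
      · exact ⟨1, h2.1, h2.2⟩
      · by_cases h3 : a + 2 * 2 + b ≠ 0 ∧ c + (d - 2 * 2) ≠ 0
        · exact ⟨2, h3.1, h3.2⟩
        · exact ⟨-1, by omega, by omega⟩
  have hfin : Tendsto (Err X Z a b c d) atTop (𝓝 0) := by
    have h1 := Err_shift1 s2 hmac a b c (d - 2 * k) k
    have e : d - 2 * k + 2 * k = d := by ring
    rw [e] at h1
    exact h1.symm.tendsto_zero (main _ _ _ _ hk1 hk2)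
  have := hfin.add_const (G a b c d * (Z : ℂ))
  rw [zero_add] at this
  refine this.congr fun n => ?_
  unfold Err; ring

end QE


end

section

/-!
Algebra and limits, third part (helper70): all fourth order correlations of total index zero are
determined by the kurtosis, and the third order correlations vanish.
-/

namespace QE

open Filter Topology

theorem Asy.const_mul {f g : ℕ → ℂ} (c : ℂ) (h : Asy f g) :
    Asy (fun n => c * f n) (fun n => c * g n) := by
  unfold Asy at *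
  have := h.const_mul c
  rw [mul_zero] at this
  exact this.congr fun n => by ring

theorem Asy.add {f g f' g' : ℕ → ℂ} (h : Asy f g) (h' : Asy f' g') :
    Asy (fun n => f n + f' n) (fun n => g n + g' n) := by
  unfold Asy at *
  have := Tendsto.add h h'
  rw [add_zero] at this
  exact this.congr fun n => by ring

theorem Asy.sum {ι : Type*} (s : Finset ι) {f g : ι → ℕ → ℂ} (h : ∀ i ∈ s, Asy (f i) (g i)) :
    Asy (fun n => ∑ i ∈ s, f i n) (fun n => ∑ i ∈ s, g i n) := by
  unfold Asy at *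
  have h0 : (0 : ℂ) = ∑ i ∈ s, (0 : ℂ) := by simp
  rw [h0]
  refine (tendsto_finsetSum s fun i hi => h i hi).congr fun n => ?_
  rw [Finset.sum_sub_distrib]

/-- the pattern of the fourth cumulants of total index zero -/
noncomputable def pat (a b c d : ℤ) : ℂ :=
  if (a - b) % 2 = 0 ∧ (a - c) % 2 = 0 ∧ (a - d) % 2 = 0 then 1 else -1 / 3

section

variable {X : ℕ → ℤ → ℤ → ℤ → ℤ → ℂ} {Z : ℝ}

/-- the errors of total index zero are determined by the kurtosis -/
theorem Err_pattern (s1 : ∀ n a b c d, X n a b c d = X n b a c d)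
    (s2 : ∀ n a b c d, X n a b c d = X n a c b d)
    (hmac : ∀ j m k l : ℤ,
      Tendsto (fun n => X n (j + 1) (m + 1) k l - X n j m (k + 1) (l + 1)) atTop
        (𝓝 ((P (j + 1) (m + 1) * P k l - P j m * P (k + 1) (l + 1)) * (Z : ℂ))))
    (hibp : Tendsto (fun n => X n 1 0 0 (-1) + X n 0 1 0 (-1) + X n 0 0 1 (-1) + X n 0 0 0 0)
      atTop (𝓝 0)) (a b c d : ℤ) (hs : a + b + c + d = 0) :
    Asy (Err X Z a b c d) (fun n => pat a b c d * Err X Z 0 0 0 0 n) := by
  -- the mixed class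
  have hG1 : G 1 0 0 (-1) = -1 := by simp [G, P]
  have hG0 : G 0 0 0 0 = 3 := by simp [G, P]; norm_num
  have h00 : Asy (Err X Z 0 0 0 0) (fun n => 1 * Err X Z 0 0 0 0 n) :=
    Asy.of_eq (by funext n; ring)
  have hm : Asy (Err X Z 1 0 0 (-1)) (fun n => (-1 / 3) * Err X Z 0 0 0 0 n) := by
    unfold Asy
    have h1 := hibp.const_mul (1 / 3 : ℂ)
    rw [mul_zero] at h1
    refine h1.congr fun n => ?_
    have e1 : X n 0 1 0 (-1) = X n 1 0 0 (-1) := s1 n 0 1 0 (-1)
    have e2 : X n 0 0 1 (-1) = X n 1 0 0 (-1) := by rw [s2 n 0 0 1 (-1), s1 n 0 1 0 (-1)]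
    unfold Err
    rw [hG1, hG0, e1, e2]
    ring
  have hm2 : Asy (Err X Z 0 1 0 (-1)) (fun n => (-1 / 3) * Err X Z 0 0 0 0 n) := by
    rw [Err_12 s1]; exact hm
  have hm3 : Asy (Err X Z 0 0 1 (-1)) (fun n => (-1 / 3) * Err X Z 0 0 0 0 n) := by
    rw [Err_23 s2]; exact hm2
  have hn1 : Asy (Err X Z 1 1 0 (-2)) (fun n => (-1 / 3) * Err X Z 0 0 0 0 n) := by
    have := Err_step (Z := Z) hmac 0 0 0 (-2)
    simp only [zero_add] at this
    exact this.trans hm3
  have hn2 : Asy (Err X Z 1 0 1 (-2)) (fun n => (-1 / 3) * Err X Z 0 0 0 0 n) := by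
    rw [Err_23 s2]; exact hn1
  have hn3 : Asy (Err X Z 0 1 1 (-2)) (fun n => (-1 / 3) * Err X Z 0 0 0 0 n) := by
    rw [Err_12 s1]; exact hn2
  have hq : Asy (Err X Z 1 1 1 (-3)) (fun n => 1 * Err X Z 0 0 0 0 n) := by
    have h1 := Err_step (Z := Z) hmac 0 0 1 (-3)
    have h2 := Err_shift3 s1 s2 hmac 0 0 0 (-2) 1
    simp only [zero_add] at h1
    have e : (-3 : ℤ) + 1 = -2 := by norm_num
    have e' : (1 : ℤ) + 1 = 0 + 2 * 1 := by norm_num
    rw [e, e'] at h1
    have e3 : (-2 : ℤ) + 2 * 1 = 0 := by norm_num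
    rw [e3] at h2
    exact (h1.trans h2).trans h00
  -- normal form
  obtain ⟨α, k1, ha, hα⟩ : ∃ α k : ℤ, a = α + 2 * k ∧ (α = 0 ∨ α = 1) :=
    ⟨a % 2, a / 2, by omega, by omega⟩
  obtain ⟨β, k2, hb, hβ⟩ : ∃ α k : ℤ, b = α + 2 * k ∧ (α = 0 ∨ α = 1) :=
    ⟨b % 2, b / 2, by omega, by omega⟩
  obtain ⟨γ, k3, hc, hγ⟩ : ∃ α k : ℤ, c = α + 2 * k ∧ (α = 0 ∨ α = 1) :=
    ⟨c % 2, c / 2, by omega, by omega⟩
  have h1 := Err_shift1 s2 hmac α b c d k1
  have h2 := Err_shift2 s1 s2 hmac α β c (d + 2 * k1) k2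
  have h3 := Err_shift3 s1 s2 hmac α β γ (d + 2 * k1 + 2 * k2) k3
  rw [← ha] at h1
  rw [← hb] at h2
  rw [← hc] at h3
  have hall := (h1.trans h2).trans h3
  have ed : d + 2 * k1 + 2 * k2 + 2 * k3 = -(α + β + γ) := by omega
  rw [ed] at hall
  have epat : pat a b c d = pat α β γ (-(α + β + γ)) := by
    unfold pat
    have : ((a - b) % 2 = 0 ∧ (a - c) % 2 = 0 ∧ (a - d) % 2 = 0) ↔
        ((α - β) % 2 = 0 ∧ (α - γ) % 2 = 0 ∧ (α - -(α + β + γ)) % 2 = 0) := by
      constructor <;> intro h <;> omega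
    simp only [this]
  rw [epat]
  refine hall.trans ?_
  rcases hα with rfl | rfl <;> rcases hβ with rfl | rfl <;> rcases hγ with rfl | rfl <;>
    norm_num [pat] at * <;> assumption

/-- the correlations of total index zero, when the kurtosis converges -/
theorem alg_pattern (s1 : ∀ n a b c d, X n a b c d = X n b a c d)
    (s2 : ∀ n a b c d, X n a b c d = X n a c b d)
    (hmac : ∀ j m k l : ℤ,
      Tendsto (fun n => X n (j + 1) (m + 1) k l - X n j m (k + 1) (l + 1)) atTop
        (𝓝 ((P (j + 1) (m + 1) * P k l - P j m * P (k + 1) (l + 1)) * (Z : ℂ))))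
    (hibp : Tendsto (fun n => X n 1 0 0 (-1) + X n 0 1 0 (-1) + X n 0 0 1 (-1) + X n 0 0 0 0)
      atTop (𝓝 0)) (a b c d : ℤ) (hs : a + b + c + d = 0) :
    Tendsto (fun n => X n a b c d - G a b c d * (Z : ℂ)
      - pat a b c d * (X n 0 0 0 0 - 3 * (Z : ℂ))) atTop (𝓝 0) := by
  have hG0 : G 0 0 0 0 = 3 := by simp [G, P]; norm_num
  have h := Err_pattern (Z := Z) s1 s2 hmac hibp a b c d hs
  unfold Asy Err at h
  rw [hG0] at h
  exact h

end

section third

variable {Y : ℕ → ℤ → ℤ → ℤ → ℂ}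

theorem T_move (hD : ∀ a b c : ℤ, Tendsto (fun n => Y n (a + 1) b c + Y n a (b + 1) c
      + Y n a b (c + 1)) atTop (𝓝 0))
    (hDb : ∀ a b c : ℤ, Tendsto (fun n => Y n (a - 1) b c + Y n a (b - 1) c
      + Y n a b (c - 1)) atTop (𝓝 0)) (a b c : ℤ) :
    Asy (fun n => Y n (a + 2) b c) (fun n => Y n a (b + 1) (c + 1)) := by
  have h1 := hD (a + 1) b c
  have h2 := hDb (a + 1) (b + 1) (c + 1)
  have e1 : a + 1 + 1 = a + 2 := by ring
  have e2 : a + 1 - 1 = a := by ring
  have e3 : b + 1 - 1 = b := by ring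
  have e4 : c + 1 - 1 = c := by ring
  rw [e1] at h1
  rw [e2, e3, e4] at h2
  have := h1.sub h2
  rw [sub_zero] at this
  unfold Asy
  exact this.congr fun n => by ring

theorem T_shift (t1 : ∀ n a b c, Y n a b c = Y n b a c)
    (hD : ∀ a b c : ℤ, Tendsto (fun n => Y n (a + 1) b c + Y n a (b + 1) c
      + Y n a b (c + 1)) atTop (𝓝 0))
    (hDb : ∀ a b c : ℤ, Tendsto (fun n => Y n (a - 1) b c + Y n a (b - 1) c
      + Y n a b (c - 1)) atTop (𝓝 0)) (a b c : ℤ) :
    Asy (fun n => Y n (a + 3) b c) (fun n => Y n a (b + 3) c) := by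
  have h1 := T_move hD hDb (a + 1) b c
  have h2 := T_move hD hDb (b + 1) a c
  have e1 : a + 1 + 2 = a + 3 := by ring
  have e2 : b + 1 + 2 = b + 3 := by ring
  rw [e1] at h1
  rw [e2] at h2
  have h3 : Asy (fun n => Y n a (b + 3) c) (fun n => Y n (a + 1) (b + 1) (c + 1)) := by
    have e : (fun n => Y n (b + 3) a c) = fun n => Y n a (b + 3) c := by
      funext n; exact t1 _ _ _ _
    have e' : (fun n => Y n (b + 1) (a + 1) (c + 1)) = fun n => Y n (a + 1) (b + 1) (c + 1) := by
      funext n; exact t1 _ _ _ _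
    rw [e, e'] at h2
    exact h2
  exact h1.trans h3.symm

theorem T_shift_nat (t1 : ∀ n a b c, Y n a b c = Y n b a c)
    (hD : ∀ a b c : ℤ, Tendsto (fun n => Y n (a + 1) b c + Y n a (b + 1) c
      + Y n a b (c + 1)) atTop (𝓝 0))
    (hDb : ∀ a b c : ℤ, Tendsto (fun n => Y n (a - 1) b c + Y n a (b - 1) c
      + Y n a b (c - 1)) atTop (𝓝 0)) (c : ℤ) (k : ℕ) : ∀ a b : ℤ,
    Asy (fun n => Y n (a + 3 * k) b c) (fun n => Y n a (b + 3 * k) c) := by
  induction k with
  | zero => intro a b; apply Asy.of_eq; simp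
  | succ k ih =>
    intro a b
    have h1 := T_shift t1 hD hDb (a + 3 * k) b c
    have h2 := ih a (b + 3)
    have e1 : a + 3 * (k : ℤ) + 3 = a + 3 * ((k + 1 : ℕ) : ℤ) := by push_cast; ring
    have e2 : b + 3 + 3 * (k : ℤ) = b + 3 * ((k + 1 : ℕ) : ℤ) := by push_cast; ring
    rw [e1] at h1
    rw [e2] at h2
    exact h1.trans h2

theorem T_shift_int (t1 : ∀ n a b c, Y n a b c = Y n b a c)
    (hD : ∀ a b c : ℤ, Tendsto (fun n => Y n (a + 1) b c + Y n a (b + 1) c
      + Y n a b (c + 1)) atTop (𝓝 0))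
    (hDb : ∀ a b c : ℤ, Tendsto (fun n => Y n (a - 1) b c + Y n a (b - 1) c
      + Y n a b (c - 1)) atTop (𝓝 0)) (a b c k : ℤ) :
    Asy (fun n => Y n (a + 3 * k) b c) (fun n => Y n a (b + 3 * k) c) := by
  obtain ⟨t, rfl | rfl⟩ := Int.eq_nat_or_neg k
  · exact T_shift_nat t1 hD hDb c t a b
  · have h := T_shift_nat t1 hD hDb c t (a + 3 * (-(t : ℤ))) (b + 3 * (-(t : ℤ)))
    have e1 : a + 3 * (-(t : ℤ)) + 3 * t = a := by ring
    have e2 : b + 3 * (-(t : ℤ)) + 3 * t = b := by ring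
    rw [e1, e2] at h
    exact h.symm

theorem T_shift_13 (t1 : ∀ n a b c, Y n a b c = Y n b a c)
    (t2 : ∀ n a b c, Y n a b c = Y n a c b)
    (hD : ∀ a b c : ℤ, Tendsto (fun n => Y n (a + 1) b c + Y n a (b + 1) c
      + Y n a b (c + 1)) atTop (𝓝 0))
    (hDb : ∀ a b c : ℤ, Tendsto (fun n => Y n (a - 1) b c + Y n a (b - 1) c
      + Y n a b (c - 1)) atTop (𝓝 0)) (a b c k : ℤ) :
    Asy (fun n => Y n (a + 3 * k) b c) (fun n => Y n a b (c + 3 * k)) := by
  have h := T_shift_int t1 hD hDb a c b k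
  have e : (fun n => Y n (a + 3 * k) c b) = fun n => Y n (a + 3 * k) b c := by
    funext n; exact t2 _ _ _ _
  have e' : (fun n => Y n a (c + 3 * k) b) = fun n => Y n a b (c + 3 * k) := by
    funext n; exact t2 _ _ _ _
  rw [e, e'] at h
  exact h

/-- the value of the third order correlations of total index zero -/
noncomputable def pat3 (a b : ℤ) : ℂ := if (a - b) % 3 = 0 then 1 else -1 / 2

theorem T_pattern (t1 : ∀ n a b c, Y n a b c = Y n b a c)
    (t2 : ∀ n a b c, Y n a b c = Y n a c b)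
    (hD : ∀ a b c : ℤ, Tendsto (fun n => Y n (a + 1) b c + Y n a (b + 1) c
      + Y n a b (c + 1)) atTop (𝓝 0))
    (hDb : ∀ a b c : ℤ, Tendsto (fun n => Y n (a - 1) b c + Y n a (b - 1) c
      + Y n a b (c - 1)) atTop (𝓝 0)) (a b c : ℤ) (hs : a + b + c = 0) :
    Asy (fun n => Y n a b c) (fun n => pat3 a b * Y n 0 0 0) := by
  have h00 : Asy (fun n => Y n 0 0 0) (fun n => 1 * Y n 0 0 0) :=
    Asy.of_eq (by funext n; ring)
  -- (1, -1, 0) and its permutations
  have q1 : Asy (fun n => Y n 1 0 (-1)) (fun n => (-1 / 2) * Y n 0 0 0) := by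
    unfold Asy
    have h1 := (hD 0 0 (-1)).const_mul (1 / 2 : ℂ)
    rw [mul_zero] at h1
    refine h1.congr fun n => ?_
    have e1 : Y n 0 (0 + 1) (-1) = Y n 1 0 (-1) := by rw [zero_add]; exact t1 n 0 1 (-1)
    rw [e1]
    simp only [zero_add, neg_add_cancel]
    ring
  have p12 : ∀ a b c : ℤ, (fun n => Y n a b c) = fun n => Y n b a c := fun a b c => by
    funext n; exact t1 _ _ _ _
  have p23 : ∀ a b c : ℤ, (fun n => Y n a b c) = fun n => Y n a c b := fun a b c => by
    funext n; exact t2 _ _ _ _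
  have q2 : Asy (fun n => Y n 0 1 (-1)) (fun n => (-1 / 2) * Y n 0 0 0) := by
    rw [p12]; exact q1
  have q3 : Asy (fun n => Y n 1 (-1) 0) (fun n => (-1 / 2) * Y n 0 0 0) := by
    rw [p23]; exact q1
  have q4 : Asy (fun n => Y n 0 (-1) 1) (fun n => (-1 / 2) * Y n 0 0 0) := by
    rw [p23]; exact q2
  have q5 : Asy (fun n => Y n (-1) 1 0) (fun n => (-1 / 2) * Y n 0 0 0) := by
    rw [p12]; exact q3
  have q6 : Asy (fun n => Y n (-1) 0 1) (fun n => (-1 / 2) * Y n 0 0 0) := by
    rw [p23]; exact q5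
  -- (2, -1, -1) and its permutations
  have r1 : Asy (fun n => Y n 2 (-1) (-1)) (fun n => 1 * Y n 0 0 0) := by
    have := T_move hD hDb 0 (-1) (-1)
    simp only [zero_add, neg_add_cancel] at this
    exact this.trans h00
  have r2 : Asy (fun n => Y n 1 1 (-2)) (fun n => 1 * Y n 0 0 0) := by
    have h1 := T_move hD hDb (-2) 0 0
    simp only [neg_add_cancel, zero_add] at h1
    have h2 := h1.symm.trans h00
    rw [p12, p23] at h2
    exact h2
  -- normal form
  obtain ⟨α, k1, ha, hα⟩ : ∃ α k : ℤ, a = α + 3 * k ∧ (α = 0 ∨ α = 1 ∨ α = -1) := by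
    by_cases h0 : a % 3 = 0
    · exact ⟨0, a / 3, by omega, by omega⟩
    · by_cases h1 : a % 3 = 1
      · exact ⟨1, a / 3, by omega, by omega⟩
      · exact ⟨-1, a / 3 + 1, by omega, by omega⟩
  obtain ⟨β, k2, hb, hβ⟩ : ∃ α k : ℤ, b = α + 3 * k ∧ (α = 0 ∨ α = 1 ∨ α = -1) := by
    by_cases h0 : b % 3 = 0
    · exact ⟨0, b / 3, by omega, by omega⟩
    · by_cases h1 : b % 3 = 1
      · exact ⟨1, b / 3, by omega, by omega⟩
      · exact ⟨-1, b / 3 + 1, by omega, by omega⟩
  have h1 := T_shift_13 t1 t2 hD hDb α b c k1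
  have h2 := T_shift_13 t1 t2 hD hDb β α (c + 3 * k1) k2
  rw [← ha] at h1
  rw [← hb, p12 b, p12 β] at h2
  have hall := h1.trans h2
  have ec : c + 3 * k1 + 3 * k2 = -(α + β) := by omega
  rw [ec] at hall
  have epat : pat3 a b = pat3 α β := by
    unfold pat3
    have : ((a - b) % 3 = 0) ↔ ((α - β) % 3 = 0) := by omega
    simp only [this]
  rw [epat]
  refine hall.trans ?_
  have s1 : Asy (fun n => Y n (-1) (-1) 2) (fun n => 1 * Y n 0 0 0) := by
    have h := r1
    rw [p12, p23] at h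
    exact h
  rcases hα with rfl | rfl | rfl <;> rcases hβ with rfl | rfl | rfl <;>
    norm_num [pat3] at * <;> assumption

end third

/-- **the third order correlations vanish** (algebraic part) -/
theorem alg_third (X : ℕ → ℤ → ℤ → ℤ → ℤ → ℂ) (Y : ℕ → ℤ → ℤ → ℤ → ℂ) (V : ℕ → ℝ) (Z C : ℝ)
    (hZ : 0 ≤ Z) (hC : 0 ≤ C)
    (s1 : ∀ n a b c d, X n a b c d = X n b a c d)
    (s2 : ∀ n a b c d, X n a b c d = X n a c b d)
    (hmac : ∀ j m k l : ℤ,
      Tendsto (fun n => X n (j + 1) (m + 1) k l - X n j m (k + 1) (l + 1)) atTop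
        (𝓝 ((P (j + 1) (m + 1) * P k l - P j m * P (k + 1) (l + 1)) * (Z : ℂ))))
    (hibp : Tendsto (fun n => X n 1 0 0 (-1) + X n 0 1 0 (-1) + X n 0 0 1 (-1) + X n 0 0 0 0)
      atTop (𝓝 0))
    (t1 : ∀ n a b c, Y n a b c = Y n b a c)
    (t2 : ∀ n a b c, Y n a b c = Y n a c b)
    (hD : ∀ a b c : ℤ, Tendsto (fun n => Y n (a + 1) b c + Y n a (b + 1) c
      + Y n a b (c + 1)) atTop (𝓝 0))
    (hDb : ∀ a b c : ℤ, Tendsto (fun n => Y n (a - 1) b c + Y n a (b - 1) c
      + Y n a b (c - 1)) atTop (𝓝 0))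
    (hV : ∀ᶠ n in atTop, V n ≤ C)
    (hcs : ∀ (N n : ℕ) (w : ℕ → ℝ) (l : ℝ), 0 < l →
      ‖∑ t ∈ Finset.range N, (w t : ℂ) * Y n t (-3 - t) 3‖ ≤
        (l * V n + l⁻¹ * (-∑ t ∈ Finset.range N, ∑ u ∈ Finset.range N,
          (w t : ℂ) * (w u : ℂ) * X n t (-3 - t) (-u) (3 + u)).re) / 2)
    (a b c : ℤ) (hs : a + b + c = 0) : Tendsto (fun n => Y n a b c) atTop (𝓝 0) := by
  have hpat := T_pattern t1 t2 hD hDb
  suffices h0 : Tendsto (fun n => Y n 0 0 0) atTop (𝓝 0) by
    refine (hpat a b c hs).tendsto_zero ?_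
    have := h0.const_mul (pat3 a b)
    rw [mul_zero] at this
    exact this
  -- the weights
  set w : ℕ → ℝ := fun t => if t % 3 = 0 then 1 else -1 / 2 with hw
  have hw1 : ∀ t, |w t| ≤ 1 := by
    intro t
    simp only [hw]
    split_ifs
    · simp
    · rw [abs_le]; constructor <;> norm_num
  have hwsum : ∀ K : ℕ, ∑ t ∈ Finset.range (3 * K), (w t : ℂ) = 0 := by
    intro K
    induction K with
    | zero => simp
    | succ K ih =>
      rw [show 3 * (K + 1) = 3 * K + 1 + 1 + 1 by ring, Finset.sum_range_succ,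
        Finset.sum_range_succ, Finset.sum_range_succ, ih]
      simp only [hw]
      rw [if_pos (by omega), if_neg (by omega), if_neg (by omega)]
      push_cast
      norm_num
  have hwY : ∀ K : ℕ, ∑ t ∈ Finset.range (3 * K), (w t : ℂ) * pat3 t (-3 - t) = (3 / 2) * K := by
    intro K
    induction K with
    | zero => simp
    | succ K ih =>
      rw [show 3 * (K + 1) = 3 * K + 1 + 1 + 1 by ring, Finset.sum_range_succ,
        Finset.sum_range_succ, Finset.sum_range_succ, ih]
      simp only [hw, pat3]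
      rw [if_pos (by omega), if_pos (by omega), if_neg (by omega), if_neg (by omega),
        if_neg (by omega), if_neg (by omega)]
      push_cast
      ring
  rw [tendsto_zero_iff_norm_tendsto_zero, Metric.tendsto_atTop]
  intro ε hε
  -- the number of blocks
  obtain ⟨r, hr1, hr⟩ : ∃ r : ℕ, 1 ≤ r ∧ C + 3 * Z + 2 < r * (ε * (3 / 2)) := by
    obtain ⟨r, hr⟩ := exists_nat_gt ((C + 3 * Z + 2) / (ε * (3 / 2)))
    refine ⟨r + 1, by omega, ?_⟩
    rw [div_lt_iff₀ (by positivity)] at hr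
    push_cast
    linarith only [hε, hr]
  have hrr : (1 : ℝ) ≤ r := by exact_mod_cast hr1
  set K : ℕ := r ^ 2 with hK
  set N : ℕ := 3 * K with hN
  have hY : Asy (fun n => ∑ t ∈ Finset.range N, (w t : ℂ) * Y n t (-3 - t) 3)
      (fun n => ((3 / 2) * K) * Y n 0 0 0) := by
    have h1 : Asy (fun n => ∑ t ∈ Finset.range N, (w t : ℂ) * Y n t (-3 - t) 3)
        (fun n => ∑ t ∈ Finset.range N, (w t : ℂ) * (pat3 t (-3 - t) * Y n 0 0 0)) := by
      refine Asy.sum (Finset.range N) (f := fun (t : ℕ) n => (w t : ℂ) * Y n t (-3 - t) 3)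
        (g := fun (t : ℕ) n => (w t : ℂ) * (pat3 t (-3 - t) * Y n 0 0 0)) fun t _ => ?_
      exact (hpat _ _ _ (by ring)).const_mul _
    refine h1.trans (Asy.of_eq ?_)
    funext n
    rw [← hwY K, Finset.sum_mul]
    refine Finset.sum_congr rfl fun t _ => ?_
    ring
  have hX : Tendsto (fun n => ∑ t ∈ Finset.range N, ∑ u ∈ Finset.range N,
      (w t : ℂ) * (w u : ℂ) * Err X Z t (-3 - t) (-u) (3 + u) n) atTop (𝓝 0) := by
    have h1 : Asy (fun n => ∑ t ∈ Finset.range N, ∑ u ∈ Finset.range N,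
        (w t : ℂ) * (w u : ℂ) * Err X Z t (-3 - t) (-u) (3 + u) n)
        (fun n => ∑ t ∈ Finset.range N, ∑ u ∈ Finset.range N,
        (w t : ℂ) * (w u : ℂ) * ((-1 / 3) * Err X Z 0 0 0 0 n)) := by
      refine Asy.sum (Finset.range N) (f := fun (t : ℕ) n => ∑ u ∈ Finset.range N,
        (w t : ℂ) * (w u : ℂ) * Err X Z t (-3 - t) (-u) (3 + u) n)
        (g := fun (t : ℕ) n => ∑ u ∈ Finset.range N,
        (w t : ℂ) * (w u : ℂ) * ((-1 / 3) * Err X Z 0 0 0 0 n)) fun t _ => ?_
      refine Asy.sum (Finset.range N) (f := fun (u : ℕ) n =>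
        (w t : ℂ) * (w u : ℂ) * Err X Z t (-3 - t) (-u) (3 + u) n)
        (g := fun (u : ℕ) n =>
        (w t : ℂ) * (w u : ℂ) * ((-1 / 3) * Err X Z 0 0 0 0 n)) fun u _ => ?_
      have h2 := Err_pattern (Z := Z) s1 s2 hmac hibp t (-3 - t) (-u) (3 + u) (by ring)
      have h3 : pat (t : ℤ) (-3 - t) (-u) (3 + u) = -1 / 3 := by
        unfold pat
        rw [if_neg]
        omega
      rw [h3] at h2
      exact h2.const_mul _
    refine h1.tendsto_zero ?_
    have e : ∀ n, ∑ t ∈ Finset.range N, ∑ u ∈ Finset.range N,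
        (w t : ℂ) * (w u : ℂ) * ((-1 / 3) * Err X Z 0 0 0 0 n) = 0 := by
      intro n
      have : ∀ t ∈ Finset.range N, ∑ u ∈ Finset.range N,
          (w t : ℂ) * (w u : ℂ) * ((-1 / 3) * Err X Z 0 0 0 0 n) = 0 := by
        intro t _
        have e2 : ∑ u ∈ Finset.range N,
            (w t : ℂ) * (w u : ℂ) * ((-1 / 3) * Err X Z 0 0 0 0 n)
            = (w t : ℂ) * ((-1 / 3) * Err X Z 0 0 0 0 n) * ∑ u ∈ Finset.range N, (w u : ℂ) := by
          rw [Finset.mul_sum]
          refine Finset.sum_congr rfl fun u _ => ?_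
          ring
        rw [e2, hN, hwsum, mul_zero]
      exact Finset.sum_eq_zero this
    simp only [e]
    exact tendsto_const_nhds
  have hG : ‖∑ t ∈ Finset.range N, ∑ u ∈ Finset.range N,
      (w t : ℂ) * (w u : ℂ) * (G t (-3 - t) (-u) (3 + u) * (Z : ℂ))‖ ≤ N * Z := by
    have hone : ∀ t u : ℕ, ‖(w t : ℂ) * (w u : ℂ) * (G t (-3 - t) (-u) (3 + u) * (Z : ℂ))‖ ≤
        (if u = t then Z else 0) := by
      intro t u
      have h0 : P (t : ℤ) (-3 - t) = 0 := by unfold P; rw [if_neg]; omega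
      have h1 : P (t : ℤ) (3 + u) = 0 := by unfold P; rw [if_neg]; omega
      have hwn : ∀ s, ‖(w s : ℂ)‖ ≤ 1 := fun s => by
        rw [Complex.norm_real, Real.norm_eq_abs]; exact hw1 s
      have hGle : ‖G (t : ℤ) (-3 - t) (-u) (3 + u)‖ ≤ if u = t then 1 else 0 := by
        unfold G
        rw [h0, h1]
        simp only [zero_mul, zero_add, add_zero]
        rw [norm_mul]
        have h2 := norm_P_le (t : ℤ) (-u)
        have h3 : ‖P (-3 - (t : ℤ)) (3 + u)‖ ≤ 1 :=
          (norm_P_le _ _).trans (by split_ifs <;> norm_num)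
        by_cases hut : u = t
        · rw [if_pos hut]
          have h4 : ‖P (t : ℤ) (-u)‖ ≤ 1 := h2.trans (by split_ifs <;> norm_num)
          calc ‖P (t : ℤ) (-u)‖ * ‖P (-3 - (t : ℤ)) (3 + u)‖ ≤ 1 * 1 := by (clear * - h4 h3; gcongr)
            _ = 1 := one_mul 1
        · rw [if_neg hut]
          rw [if_neg (by omega)] at h2
          have h4 : ‖P (t : ℤ) (-u)‖ = 0 := le_antisymm h2 (norm_nonneg _)
          rw [h4, zero_mul]
      have hZn : ‖(Z : ℂ)‖ = Z := by rw [Complex.norm_real, Real.norm_of_nonneg hZ]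
      rw [norm_mul, norm_mul, norm_mul, hZn]
      calc ‖(w t : ℂ)‖ * ‖(w u : ℂ)‖ * (‖G (t : ℤ) (-3 - t) (-u) (3 + u)‖ * Z)
          ≤ 1 * 1 * ((if u = t then 1 else 0) * Z) := by
            gcongr
            · exact hwn t
            · exact hwn u
        _ = if u = t then Z else 0 := by split_ifs <;> simp
    calc ‖∑ t ∈ Finset.range N, ∑ u ∈ Finset.range N,
          (w t : ℂ) * (w u : ℂ) * (G t (-3 - t) (-u) (3 + u) * (Z : ℂ))‖
        ≤ ∑ t ∈ Finset.range N, ∑ u ∈ Finset.range N,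
          ‖(w t : ℂ) * (w u : ℂ) * (G t (-3 - t) (-u) (3 + u) * (Z : ℂ))‖ :=
          (norm_sum_le _ _).trans (Finset.sum_le_sum fun t _ => norm_sum_le _ _)
      _ ≤ ∑ t ∈ Finset.range N, ∑ u ∈ Finset.range N, (if u = t then Z else 0) :=
          Finset.sum_le_sum fun t _ => Finset.sum_le_sum fun u _ => hone t u
      _ = ∑ _t ∈ Finset.range N, Z := by
          refine Finset.sum_congr rfl fun t ht => ?_
          rw [Finset.sum_ite_eq', if_pos ht]
      _ = N * Z := by rw [Finset.sum_const, Finset.card_range, nsmul_eq_mul]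
  have ev1 := (Metric.tendsto_nhds.mp hX) 1 one_pos
  have ev2 := (Metric.tendsto_nhds.mp hY) 1 one_pos
  have hev : ∀ᶠ n in atTop, ‖Y n 0 0 0‖ < ε := by
    filter_upwards [ev1, ev2, hV] with n h1 h2 h3
    rw [dist_zero_right] at h1 h2
    have hrp : (0 : ℝ) < r := by linarith only [hrr]
    have k1 := hcs N n w (r : ℝ) hrp
    have k2 : (-∑ t ∈ Finset.range N, ∑ u ∈ Finset.range N,
        (w t : ℂ) * (w u : ℂ) * X n t (-3 - t) (-u) (3 + u)).re ≤ 1 + N * Z := by
      have e : -∑ t ∈ Finset.range N, ∑ u ∈ Finset.range N,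
          (w t : ℂ) * (w u : ℂ) * X n t (-3 - t) (-u) (3 + u)
          = -((∑ t ∈ Finset.range N, ∑ u ∈ Finset.range N,
          (w t : ℂ) * (w u : ℂ) * Err X Z t (-3 - t) (-u) (3 + u) n)
          + ∑ t ∈ Finset.range N, ∑ u ∈ Finset.range N,
          (w t : ℂ) * (w u : ℂ) * (G t (-3 - t) (-u) (3 + u) * (Z : ℂ))) := by
        rw [← Finset.sum_add_distrib]
        congr 1
        refine Finset.sum_congr rfl fun t _ => ?_
        rw [← Finset.sum_add_distrib]
        refine Finset.sum_congr rfl fun u _ => ?_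
        unfold Err
        ring
      rw [e]
      refine (Complex.re_le_norm _).trans ?_
      rw [norm_neg]
      refine (norm_add_le _ _).trans (add_le_add h1.le hG)
    have k3 : ‖((3 / 2 : ℂ) * K) * Y n 0 0 0‖
        ≤ ‖∑ t ∈ Finset.range N, (w t : ℂ) * Y n t (-3 - t) 3‖ + 1 := by
      have e : ((3 / 2 : ℂ) * K) * Y n 0 0 0
          = (∑ t ∈ Finset.range N, (w t : ℂ) * Y n t (-3 - t) 3)
            - ((∑ t ∈ Finset.range N, (w t : ℂ) * Y n t (-3 - t) 3)
              - ((3 / 2 : ℂ) * K) * Y n 0 0 0) := by ring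
      rw [e]
      exact (norm_sub_le _ _).trans (add_le_add le_rfl h2.le)
    have k4 : ‖((3 / 2 : ℂ) * K) * Y n 0 0 0‖ = (3 / 2) * (r : ℝ) ^ 2 * ‖Y n 0 0 0‖ := by
      rw [norm_mul, norm_mul, hK]
      simp
    rw [k4] at k3
    have hNr : (N : ℝ) = 3 * (r : ℝ) ^ 2 := by rw [hN, hK]; push_cast; ring
    rw [hNr] at k2
    have k5 : (r : ℝ) * V n ≤ r * C := by (clear * - h3 hr1; gcongr)
    have k6 : (r : ℝ)⁻¹ * (-∑ t ∈ Finset.range N, ∑ u ∈ Finset.range N,
        (w t : ℂ) * (w u : ℂ) * X n t (-3 - t) (-u) (3 + u)).re ≤ 1 + 3 * r * Z := by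
      calc (r : ℝ)⁻¹ * (-∑ t ∈ Finset.range N, ∑ u ∈ Finset.range N,
            (w t : ℂ) * (w u : ℂ) * X n t (-3 - t) (-u) (3 + u)).re
          ≤ (r : ℝ)⁻¹ * (1 + 3 * (r : ℝ) ^ 2 * Z) := by (clear * - k2 hr1; gcongr)
        _ = (r : ℝ)⁻¹ + 3 * r * Z := by field_simp
        _ ≤ 1 + 3 * r * Z := by
            have : (r : ℝ)⁻¹ ≤ 1 := inv_le_one_of_one_le₀ hrr
            linarith only [this]
    have k7 : (3 / 2) * (r : ℝ) ^ 2 * ‖Y n 0 0 0‖ ≤ (r * C + (1 + 3 * r * Z)) / 2 + 1 := by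
      linarith only [k1, k3, k5, k6]
    have k8 : (r : ℝ) * ‖Y n 0 0 0‖ * (3 / 2) ≤ C + 3 * Z + 2 := by
      have m1 : (3 / 2) * (r : ℝ) ^ 2 * ‖Y n 0 0 0‖ ≤ r * (C + 3 * Z + 2) := by nlinarith only [hrr, k1, k3, k5, k6, hZ, hC]
      have m2 : (r : ℝ) * ((r : ℝ) * ‖Y n 0 0 0‖ * (3 / 2)) ≤ r * (C + 3 * Z + 2) := by
        calc (r : ℝ) * ((r : ℝ) * ‖Y n 0 0 0‖ * (3 / 2)) = (3 / 2) * (r : ℝ) ^ 2 * ‖Y n 0 0 0‖ := by
              ring
          _ ≤ _ := m1
      exact le_of_mul_le_mul_left m2 hrp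
    by_contra hcon
    rw [not_lt] at hcon
    have m3 : (r : ℝ) * (ε * (3 / 2)) ≤ (r : ℝ) * ‖Y n 0 0 0‖ * (3 / 2) := by
      have : (r : ℝ) * ε ≤ r * ‖Y n 0 0 0‖ := by gcongr
      linarith only [this]
    linarith only [hr, k8, m3]
  obtain ⟨n0, hn0⟩ := eventually_atTop.mp hev
  refine ⟨n0, fun n hn => ?_⟩
  rw [dist_zero_right, norm_norm]
  exact hn0 n hn

end QE


end
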