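import Pool.Agent.BWM.C01
import Pool.Agent.LibH11.Berry.RDefs

/-!
Quantum ergodic sequences of Laplace eigenfunctions on surfaces.
-/

open Complex MeasureTheory Filter Topology UpperHalfPlane
open scoped ContDiff

namespace QE

noncomputable section

/-- the semiclassical derivative `- i h ∂_v f` in the direction `v` (a function on the plane) -/
def hD (h : ℝ) (v : ℂ) (f : ℂ → ℂ) (z : ℂ) : ℂ := - (Complex.I * h) * fderiv ℝ f z v

/-- **Quantum ergodicity** for functions `φₙ` on `ℍ` which are eigenfunctions with eigenvalues `mₙ²` for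
the metric `e^{2ρ} (dx² + dy²) / y²`, tested on the semiclassical differential operators
`A = ζ(z) (- i h ∂_x)^j (- i h ∂_y)^k`, `h = 1 / mₙ`, with `ζ` smooth and compactly supported: the
integrals of `(A φₙ) φₙ` converge to the integral of the symbol `ζ(z) ξ^j η^k` of `A` over the unit
cosphere bundle `ξ² + η² = (e^ρ / y)²` (the uniform average over the circle for fixed `z`). -/
def QuantumErgodic (ρ : ℍ → ℝ) (φ : ℕ → ℍ → ℝ) (m : ℕ → ℝ) : Prop :=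
  ∀ (j k : ℕ) (ζ : ℂ → ℂ), ContDiff ℝ ∞ ζ → HasCompactSupport ζ → tsupport ζ ⊆ {w | 0 < w.im} →
    Tendsto (fun n => ∫ z : ℂ, ζ z *
        ((hD (1 / m n) 1)^[j] ((hD (1 / m n) Complex.I)^[k] (fun w => (φ n (ofComplex w) : ℂ))) z
          * (φ n (ofComplex z) : ℂ))) atTop
      (𝓝 (∫ z : ℂ, ζ z * ((1 / (2 * Real.pi) * ∫ θ in (0 : ℝ)..(2 * Real.pi),
        (Real.exp (ρ (ofComplex z)) / z.im * Real.cos θ) ^ j
          * (Real.exp (ρ (ofComplex z)) / z.im * Real.sin θ) ^ k : ℝ) : ℂ)))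

/-- the hypotheses of the local theorem: `φₙ` are smooth real functions on the open set `U ⊆ ℂ` with
`h² Δ φ = - g φ`, `φₙ² → 1` weakly and `φₙ hᵏ ∂_zᵏ φₙ → 0` weakly for all `k ≥ 1` -/
structure LocalQE (U : Set ℂ) (g : ℂ → ℝ) (h : ℕ → ℝ) (φ : ℕ → ℂ → ℂ) : Prop where
  hpos : ∀ n, 0 < h n
  hlim : Tendsto h atTop (𝓝 0)
  smooth : SmoothSeq U φ
  real : ∀ n, ∀ z ∈ U, (starRingEnd ℂ) (φ n z) = φ n z
  eig : ∀ n, ∀ z ∈ U, 4 * (h n : ℂ) ^ 2 * dz (dzb (φ n)) z = - ((g z : ℝ) : ℂ) * φ n z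
  mass : ∀ ζ : ℂ → ℂ, Test U ζ →
    Tendsto (fun n => ∫ z, ζ z * (φ n z * φ n z)) atTop (𝓝 (∫ z, ζ z))
  mom : ∀ k : ℕ, 1 ≤ k → ∀ ζ : ℂ → ℂ, Test U ζ →
    Tendsto (fun n => ∫ z, ζ z * (φ n z * ((h n : ℂ) ^ k * dz^[k] (φ n) z))) atTop (𝓝 0)

end

end QE
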