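import Mathlib
import Pool.Agent.BWM.C01
import Pool.Agent.BWM.C02
import Pool.Agent.BWM.C04
import Pool.Agent.BWM.Defs

/-! Parts: LibH11.QEV.Cov, LibH11.QEV.Dir, LibH11.QEV.Coef, LibH11.QEV.Rem, LibH11.QEV.Taylor, LibH11.QEV.Taylor2, LibH11.QEV.Prod4, Lib_helper67.QE.Local, Lib_helper67.QE.Localize, Lib_helper67.QE.JetJ, Lib_helper67.QE.TestLim, Lib_helper67.QE.VarJ -/

section

/-!
Change of variables for maps which are close to the identity.
-/

open MeasureTheory Filter Topology Set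
open scoped ContDiff ENNReal NNReal

namespace QE

noncomputable section

lemma volume_smul_hausdorff : ∃ c : ℝ≥0,
    (volume : Measure ℂ) = c • (μH[2] : Measure ℂ) := by
  have h1 : (Module.finrank ℝ ℂ : ℝ) = 2 := by simp
  have h2 : (μH[(Module.finrank ℝ ℂ : ℝ)] : Measure ℂ).IsAddHaarMeasure := inferInstance
  rw [h1] at h2
  exact ⟨_, Measure.isAddLeftInvariant_eq_smul _ _⟩

/-- the preimage under an expanding map -/
lemma volume_preimage_le {K S : Set ℂ} {T : ℂ → ℂ}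
    (hT : ∀ z ∈ K, ∀ w ∈ K, ‖z - w‖ ≤ 2 * ‖T z - T w‖) (hKS : MapsTo T K S) (s : Set ℂ) :
    volume (K ∩ T ⁻¹' s) ≤ 4 * volume (S ∩ s) := by
  obtain ⟨c, hc⟩ := volume_smul_hausdorff
  set A : Set ℂ := K ∩ T ⁻¹' s with hA
  have hinj : InjOn T K := by
    intro z hz w hw hzw
    have := hT z hz w hw
    rw [hzw, sub_self, norm_zero, mul_zero] at this
    exact sub_eq_zero.1 (norm_le_zero_iff.1 this)
  set g := Function.invFunOn T K with hg
  have hgT : ∀ z ∈ K, g (T z) = z := fun z hz => hinj.leftInvOn_invFunOn hz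
  have hlip : LipschitzOnWith 2 g (T '' A) := by
    refine LipschitzOnWith.of_dist_le_mul ?_
    rintro _ ⟨z, hz, rfl⟩ _ ⟨w, hw, rfl⟩
    rw [hgT z hz.1, hgT w hw.1, dist_eq_norm, dist_eq_norm]
    exact hT z hz.1 w hw.1
  have hAg : A = g '' (T '' A) := by
    rw [image_image]
    ext z
    constructor
    · exact fun hz => ⟨z, hz, hgT z hz.1⟩
    · rintro ⟨w, hw, rfl⟩
      beta_reduce
      rwa [hgT w hw.1]
  have h1 := hlip.hausdorffMeasure_image_le (d := 2) (by norm_num)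
  rw [← hAg] at h1
  have h2 : T '' A ⊆ S ∩ s := by
    rintro _ ⟨z, hz, rfl⟩
    exact ⟨hKS hz.1, hz.2⟩
  have h3 : (((2 : ℝ≥0) : ℝ≥0∞)) ^ (2 : ℝ) = 4 := by
    rw [show ((2 : ℝ)) = ((2 : ℕ) : ℝ) by norm_num, ENNReal.rpow_natCast]
    norm_num
  rw [h3] at h1
  calc volume A = c * μH[2] A := by rw [hc]; rfl
    _ ≤ c * (4 * μH[2] (T '' A)) := by gcongr
    _ = 4 * (c * μH[2] (T '' A)) := by ring
    _ = 4 * volume (T '' A) := by rw [hc]; rfl
    _ ≤ 4 * volume (S ∩ s) := by gcongr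

lemma map_le {K S : Set ℂ} {T : ℂ → ℂ} (hK : MeasurableSet K)
    (hT : ∀ z ∈ K, ∀ w ∈ K, ‖z - w‖ ≤ 2 * ‖T z - T w‖) (hKS : MapsTo T K S)
    (hTc : ContinuousOn T K) :
    Measure.map T (volume.restrict K) ≤ (4 : ℝ≥0∞) • (volume.restrict S) := by
  have hm : AEMeasurable T (volume.restrict K) := hTc.aemeasurable hK
  refine Measure.le_iff.2 fun s hs => ?_
  rw [Measure.map_apply_of_aemeasurable hm hs, Measure.smul_apply, Measure.restrict_apply hs,
    Measure.restrict_apply' hK, inter_comm, smul_eq_mul, inter_comm s S]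
  exact volume_preimage_le hT hKS s

/-- **Change of variables.** -/
theorem integral_comp_le {K S : Set ℂ} {T : ℂ → ℂ} (hK : IsCompact K) (hS : IsCompact S)
    (hT : ∀ z ∈ K, ∀ w ∈ K, ‖z - w‖ ≤ 2 * ‖T z - T w‖) (hKS : MapsTo T K S)
    (hTc : ContinuousOn T K) {f : ℂ → ℝ} (hf : ContinuousOn f S) (h0 : ∀ z ∈ S, 0 ≤ f z) :
    ∫ z in K, f (T z) ≤ 4 * ∫ z in S, f z := by
  have hTm : AEMeasurable T (volume.restrict K) := hTc.aemeasurable hK.measurableSet
  have hle := map_le hK.measurableSet hT hKS hTc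
  have hac : Measure.map T (volume.restrict K) ≪ (volume.restrict S) :=
    (Measure.absolutelyContinuous_of_le hle).trans
      (Measure.smul_absolutelyContinuous)
  have hfS : AEStronglyMeasurable f (volume.restrict S) :=
    hf.aestronglyMeasurable hS.measurableSet
  have hfm : AEStronglyMeasurable f (Measure.map T (volume.restrict K)) := hfS.mono_ac hac
  have hint : IntegrableOn f S := hf.integrableOn_compact hS
  have hint4 : Integrable f ((4 : ℝ≥0∞) • (volume.restrict S)) :=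
    hint.smul_measure (by norm_num)
  have e1 : ∫ z in K, f (T z) = ∫ z, f z ∂(Measure.map T (volume.restrict K)) :=
    (integral_map hTm hfm).symm
  have h0' : 0 ≤ᵐ[(4 : ℝ≥0∞) • (volume.restrict S)] f := by
    refine Measure.ae_smul_measure ?_ _
    exact (ae_restrict_iff' hS.measurableSet).2 (Eventually.of_forall h0)
  rw [e1]
  refine (integral_mono_measure hle h0' hint4).trans (le_of_eq ?_)
  rw [integral_smul_measure]
  norm_num

/-- maps which are close to the identity are expanding -/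
lemma expand_of_lip {K : Set ℂ} {v : ℂ → ℂ}
    (hv : ∀ z ∈ K, ∀ w ∈ K, ‖v z - v w‖ ≤ (1 / 2) * ‖z - w‖) {t : ℝ} (ht : t ∈ Icc (0 : ℝ) 1) :
    ∀ z ∈ K, ∀ w ∈ K, ‖z - w‖ ≤ 2 * ‖(z + t • v z) - (w + t • v w)‖ := by
  intro z hz w hw
  have h1 : ‖z - w‖ ≤ ‖(z + t • v z) - (w + t • v w)‖ + ‖t • (v z - v w)‖ := by
    have e : z - w = ((z + t • v z) - (w + t • v w)) - t • (v z - v w) := by
      rw [smul_sub]; ring
    calc ‖z - w‖ = ‖((z + t • v z) - (w + t • v w)) - t • (v z - v w)‖ := by rw [← e]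
      _ ≤ _ := norm_sub_le _ _
  have h2 : ‖t • (v z - v w)‖ ≤ (1 / 2) * ‖z - w‖ := by
    rw [norm_smul, Real.norm_of_nonneg ht.1]
    calc t * ‖v z - v w‖ ≤ 1 * ‖v z - v w‖ := by gcongr; exact ht.2
      _ ≤ _ := by rw [one_mul]; exact hv z hz w hw
  linarith

end

end QE


end

section

/-!
Iterated directional derivatives of an eigenfunction in terms of the jets.
-/

open Complex MeasureTheory Filter Topology
open scoped ContDiff

namespace QE

noncomputable section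

variable {U : Set ℂ} {h : ℕ → ℝ} {a g : ℂ → ℂ} {φ : ℕ → ℂ → ℂ}

lemma dir_eq (f : ℂ → ℂ) (z v : ℂ) :
    fderiv ℝ f z v = v * dz f z + (starRingEnd ℂ) v * dzb f z := by
  have e : v = (v.re : ℝ) • (1 : ℂ) + (v.im : ℝ) • I := by
    rw [Complex.real_smul, Complex.real_smul, mul_one, Complex.re_add_im]
  have h1 : fderiv ℝ f z v = (v.re : ℂ) * fderiv ℝ f z 1 + (v.im : ℂ) * fderiv ℝ f z I := by
    conv_lhs => rw [e]
    rw [map_add, map_smul, map_smul, Complex.real_smul, Complex.real_smul]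
  have h2 : v = v.re + v.im * I := (Complex.re_add_im v).symm
  have h3 : (starRingEnd ℂ) v = v.re - v.im * I := by
    conv_lhs => rw [h2]
    simp only [map_add, map_mul, conj_ofReal, conj_I]; ring
  rw [h1, h3]
  unfold dz dzb
  conv_rhs => rw [h2]
  simp only [add_re, ofReal_re, mul_re, I_re, mul_zero, ofReal_im, I_im, mul_one, sub_self,
    add_zero, add_im, mul_im, zero_add]
  linear_combination ((v.im : ℂ) * fderiv ℝ f z I) * I_sq

/-- iterated derivatives in the direction `v` -/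
def dirK : ℕ → ℂ → (ℂ → ℂ) → ℂ → ℂ
  | 0, _, f => f
  | k + 1, v, f => fun z => fderiv ℝ (dirK k v f) z v

lemma contDiffOn_dirK (hU : IsOpen U) (v : ℂ) {f : ℂ → ℂ} (hf : ContDiffOn ℝ ∞ f U) (k : ℕ) :
    ContDiffOn ℝ ∞ (dirK k v f) U := by
  induction k with
  | zero => exact hf
  | succ k ih =>
    exact (ih.fderiv_of_isOpen hU (by simp)).clm_apply contDiffOn_const

lemma iteratedFDeriv_eq_dirK (hU : IsOpen U) (v : ℂ) {f : ℂ → ℂ} (hf : ContDiffOn ℝ ∞ f U)
    (k : ℕ) : ∀ z ∈ U, iteratedFDeriv ℝ k f z (fun _ => v) = dirK k v f z := by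
  induction k with
  | zero => intro z _; rfl
  | succ k ih =>
    intro z hz
    have h1 : ContDiffAt ℝ ∞ f z := hf.contDiffAt (hU.mem_nhds hz)
    have h2 : DifferentiableAt ℝ (iteratedFDeriv ℝ k f) z :=
      h1.differentiableAt_iteratedFDeriv (by exact_mod_cast WithTop.coe_lt_top k)
    have h3 := h2.iteratedFDeriv_succ_apply_left' (m := fun _ => v)
    rw [h3]
    show _ = fderiv ℝ (dirK k v f) z v
    congr 1
    refine Filter.EventuallyEq.fderiv_eq ?_
    filter_upwards [hU.mem_nhds hz] with w hw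
    exact ih w hw

lemma dirK_smul (hU : IsOpen U) (c : ℝ) (v : ℂ) {f : ℂ → ℂ} (hf : ContDiffOn ℝ ∞ f U) (k : ℕ)
    {z : ℂ} (hz : z ∈ U) : dirK k ((c : ℂ) * v) f z = (c : ℂ) ^ k * dirK k v f z := by
  rw [← iteratedFDeriv_eq_dirK hU _ hf k z hz, ← iteratedFDeriv_eq_dirK hU _ hf k z hz]
  have h1 := (iteratedFDeriv ℝ k f z).map_smul_univ (fun _ => c) (fun _ => v)
  simp only [Finset.prod_const, Finset.card_univ, Fintype.card_fin] at h1
  have e : (fun _ : Fin k => (c : ℂ) * v) = fun _ => c • v := by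
    funext _; rw [Complex.real_smul]
  rw [e, h1, Complex.real_smul, Complex.ofReal_pow]

/-! ### families depending on a direction -/

/-- finite sums of continuous functions of the direction times tame sequences -/
def PT (U : Set ℂ) (h : ℕ → ℝ) (F : ℂ → ℕ → ℂ → ℂ) : Prop :=
  ∃ (ι : Type) (_ : Fintype ι) (c : ι → ℂ → ℂ) (w : ι → ℕ → ℂ → ℂ), (∀ i, Continuous (c i)) ∧
    (∀ i, Tame U h (w i)) ∧ ∀ ξ n, ∀ z ∈ U, F ξ n z = ∑ i, c i ξ * w i n z

/-- equality up to `h` times such a family -/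
def NPT (U : Set ℂ) (h : ℕ → ℝ) (F G : ℂ → ℕ → ℂ → ℂ) : Prop :=
  ∃ W, PT U h W ∧ ∀ ξ n, ∀ z ∈ U, F ξ n z = G ξ n z + (h n : ℂ) * W ξ n z

theorem PT.of_tame {w : ℕ → ℂ → ℂ} (hw : Tame U h w) : PT U h (fun _ n z => w n z) :=
  ⟨Unit, inferInstance, fun _ _ => 1, fun _ => w, fun _ => continuous_const, fun _ => hw,
    fun ξ n z _ => by simp⟩

theorem PT.congr {F G : ℂ → ℕ → ℂ → ℂ} (hF : PT U h F) (he : ∀ ξ n, ∀ z ∈ U, F ξ n z = G ξ n z) :
    PT U h G := by
  obtain ⟨ι, _, c, w, hc, hw, h1⟩ := hF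
  exact ⟨ι, inferInstance, c, w, hc, hw, fun ξ n z hz => by rw [← he ξ n z hz, h1 ξ n z hz]⟩

theorem PT.add {F G : ℂ → ℕ → ℂ → ℂ} (hF : PT U h F) (hG : PT U h G) :
    PT U h (fun ξ n z => F ξ n z + G ξ n z) := by
  obtain ⟨ι, _, c, w, hc, hw, h1⟩ := hF
  obtain ⟨κ, _, c', w', hc', hw', h1'⟩ := hG
  refine ⟨ι ⊕ κ, inferInstance, Sum.elim c c', Sum.elim w w', ?_, ?_, fun ξ n z hz => ?_⟩
  · rintro (i | i); exacts [hc i, hc' i]
  · rintro (i | i); exacts [hw i, hw' i]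
  · beta_reduce
    rw [h1 ξ n z hz, h1' ξ n z hz, Fintype.sum_sum_type]
    rfl

theorem PT.cmul {F : ℂ → ℕ → ℂ → ℂ} (hF : PT U h F) {b : ℂ → ℂ} (hb : Continuous b) :
    PT U h (fun ξ n z => b ξ * F ξ n z) := by
  obtain ⟨ι, _, c, w, hc, hw, h1⟩ := hF
  refine ⟨ι, inferInstance, fun i ξ => b ξ * c i ξ, w, fun i => hb.mul (hc i), hw,
    fun ξ n z hz => ?_⟩
  beta_reduce
  rw [h1 ξ n z hz, Finset.mul_sum]
  exact Finset.sum_congr rfl fun i _ => by ring

theorem PT.fmul (hU : IsOpen U) (hh0 : Tendsto h atTop (𝓝 0)) {F : ℂ → ℕ → ℂ → ℂ}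
    (hF : PT U h F) {b : ℂ → ℂ} (hb : ContDiffOn ℝ ∞ b U) :
    PT U h (fun ξ n z => b z * F ξ n z) := by
  obtain ⟨ι, _, c, w, hc, hw, h1⟩ := hF
  refine ⟨ι, inferInstance, c, fun i n z => b z * w i n z, hc, fun i => (hw i).fn_mul hU hh0 hb,
    fun ξ n z hz => ?_⟩
  beta_reduce
  rw [h1 ξ n z hz, Finset.mul_sum]
  exact Finset.sum_congr rfl fun i _ => by ring

theorem PT.hmul (hU : IsOpen U) (hh0 : Tendsto h atTop (𝓝 0)) {F : ℂ → ℕ → ℂ → ℂ}
    (hF : PT U h F) : PT U h (fun ξ n z => (h n : ℂ) * F ξ n z) := by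
  obtain ⟨ι, _, c, w, hc, hw, h1⟩ := hF
  refine ⟨ι, inferInstance, c, fun i n z => (h n : ℂ) * w i n z, hc,
    fun i => (hw i).const_mul hU (hbd hh0), fun ξ n z hz => ?_⟩
  beta_reduce
  rw [h1 ξ n z hz, Finset.mul_sum]
  exact Finset.sum_congr rfl fun i _ => by ring

theorem PT.dAt (hU : IsOpen U) {F : ℂ → ℕ → ℂ → ℂ} (hF : PT U h F) (ξ : ℂ) (n : ℕ) {z : ℂ}
    (hz : z ∈ U) : DifferentiableAt ℝ (F ξ n) z := by
  obtain ⟨ι, _, c, w, hc, hw, h1⟩ := hF
  have e : F ξ n =ᶠ[𝓝 z] fun z => ∑ i, c i ξ * w i n z := by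
    filter_upwards [hU.mem_nhds hz] with y hy
    exact h1 ξ n y hy
  refine DifferentiableAt.congr_of_eventuallyEq ?_ e
  exact DifferentiableAt.fun_sum fun i _ => ((hw i).smooth.dAt hU n hz).const_mul _

/-- the semiclassical derivative in the direction `ξ` -/
def hdir (h : ℕ → ℝ) (F : ℂ → ℕ → ℂ → ℂ) : ℂ → ℕ → ℂ → ℂ :=
  fun ξ n z => (h n : ℂ) * fderiv ℝ (F ξ n) z ξ

lemma hdir_congr (hU : IsOpen U) {F G : ℂ → ℕ → ℂ → ℂ} (he : ∀ ξ n, ∀ z ∈ U, F ξ n z = G ξ n z)
    (ξ : ℂ) (n : ℕ) {z : ℂ} (hz : z ∈ U) : hdir h F ξ n z = hdir h G ξ n z := by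
  unfold hdir
  congr 2
  refine Filter.EventuallyEq.fderiv_eq ?_
  filter_upwards [hU.mem_nhds hz] with y hy
  exact he ξ n y hy

theorem PT.hdir (hU : IsOpen U) {F : ℂ → ℕ → ℂ → ℂ} (hF : PT U h F) : PT U h (QE.hdir h F) := by
  obtain ⟨ι, _, c, w, hc, hw, h1⟩ := hF
  refine ⟨ι ⊕ ι, inferInstance, Sum.elim (fun i ξ => ξ * c i ξ)
    (fun i ξ => (starRingEnd ℂ) ξ * c i ξ), Sum.elim (fun i n z => (h n : ℂ) * dz (w i n) z)
    (fun i n z => (h n : ℂ) * dzb (w i n) z), ?_, ?_, fun ξ n z hz => ?_⟩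
  · rintro (i | i)
    · exact continuous_id.mul (hc i)
    · exact Complex.continuous_conj.mul (hc i)
  · rintro (i | i)
    · exact (hw i).hdz hU
    · exact (hw i).hdzb hU
  · rw [hdir_congr hU h1 ξ n hz]
    unfold QE.hdir
    have hd : ∀ i ∈ (Finset.univ : Finset ι), DifferentiableAt ℝ (fun z => c i ξ * w i n z) z :=
      fun i _ => ((hw i).smooth.dAt hU n hz).const_mul _
    have e1 : fderiv ℝ (fun z => ∑ i, c i ξ * w i n z) z ξ
        = ∑ i, c i ξ * fderiv ℝ (w i n) z ξ := by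
      rw [fderiv_fun_sum hd, FunLike.coe_sum, Finset.sum_apply]
      refine Finset.sum_congr rfl fun i _ => ?_
      rw [fderiv_const_mul ((hw i).smooth.dAt hU n hz), FunLike.coe_smul, Pi.smul_apply,
        smul_eq_mul]
    rw [e1, Fintype.sum_sum_type, Finset.mul_sum, ← Finset.sum_add_distrib]
    refine Finset.sum_congr rfl fun i _ => ?_
    rw [dir_eq]
    simp only [Sum.elim_inl, Sum.elim_inr]
    ring

theorem NPT.of_eq (hU : IsOpen U) {F G : ℂ → ℕ → ℂ → ℂ}
    (he : ∀ ξ n, ∀ z ∈ U, F ξ n z = G ξ n z) : NPT U h F G :=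
  ⟨_, PT.of_tame (Tame.zero hU), fun ξ n z hz => by rw [he ξ n z hz]; simp⟩

theorem NPT.of_near {u v : ℕ → ℂ → ℂ} (h1 : Near U h u v) :
    NPT U h (fun _ n z => u n z) (fun _ n z => v n z) := by
  obtain ⟨w, hw, hw'⟩ := h1
  exact ⟨_, PT.of_tame hw, fun _ n z hz => hw' n z hz⟩

theorem NPT.trans {F G H : ℂ → ℕ → ℂ → ℂ} (h1 : NPT U h F G) (h2 : NPT U h G H) :
    NPT U h F H := by
  obtain ⟨a, ha, ha'⟩ := h1
  obtain ⟨b, hb, hb'⟩ := h2
  refine ⟨_, ha.add hb, fun ξ n z hz => ?_⟩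
  rw [ha' ξ n z hz, hb' ξ n z hz]; ring

theorem NPT.add {F G F' G' : ℂ → ℕ → ℂ → ℂ} (h1 : NPT U h F G) (h2 : NPT U h F' G') :
    NPT U h (fun ξ n z => F ξ n z + F' ξ n z) (fun ξ n z => G ξ n z + G' ξ n z) := by
  obtain ⟨a, ha, ha'⟩ := h1
  obtain ⟨b, hb, hb'⟩ := h2
  refine ⟨_, ha.add hb, fun ξ n z hz => ?_⟩
  beta_reduce
  rw [ha' ξ n z hz, hb' ξ n z hz]; ring

theorem NPT.cmul {F G : ℂ → ℕ → ℂ → ℂ} (h1 : NPT U h F G) {b : ℂ → ℂ} (hb : Continuous b) :
    NPT U h (fun ξ n z => b ξ * F ξ n z) (fun ξ n z => b ξ * G ξ n z) := by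
  obtain ⟨a, ha, ha'⟩ := h1
  refine ⟨_, ha.cmul hb, fun ξ n z hz => ?_⟩
  beta_reduce
  rw [ha' ξ n z hz]; ring

theorem NPT.fmul (hU : IsOpen U) (hh0 : Tendsto h atTop (𝓝 0)) {F G : ℂ → ℕ → ℂ → ℂ}
    (h1 : NPT U h F G) {b : ℂ → ℂ} (hb : ContDiffOn ℝ ∞ b U) :
    NPT U h (fun ξ n z => b z * F ξ n z) (fun ξ n z => b z * G ξ n z) := by
  obtain ⟨a, ha, ha'⟩ := h1
  refine ⟨_, ha.fmul hU hh0 hb, fun ξ n z hz => ?_⟩
  beta_reduce
  rw [ha' ξ n z hz]; ring

theorem NPT.hdir (hU : IsOpen U) {F G : ℂ → ℕ → ℂ → ℂ}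
    (h1 : NPT U h F G) (hG : PT U h G) : NPT U h (QE.hdir h F) (QE.hdir h G) := by
  obtain ⟨W, hW, hW'⟩ := h1
  refine ⟨_, hW.hdir hU, fun ξ n z hz => ?_⟩
  rw [hdir_congr hU hW' ξ n hz]
  unfold QE.hdir
  rw [fderiv_fun_add (hG.dAt hU ξ n hz) ((hW.dAt hU ξ n hz).const_mul _),
    fderiv_const_mul (hW.dAt hU ξ n hz)]
  simp only [add_apply, smul_apply, smul_eq_mul]
  ring

namespace Setup

/-- the jets in the expansion of the iterated directional derivatives -/
def TT (h : ℕ → ℝ) (a : ℂ → ℂ) (φ : ℕ → ℂ → ℂ) : ℕ → ℤ → ℂ → ℕ → ℂ → ℂ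
  | 0, m => fun _ n z => E h a φ m n z
  | k + 1, m => fun ξ n z => (I / 2) * (ξ * TT h a φ k (m + 1) ξ n z
      + (starRingEnd ℂ) ξ * TT h a φ k (m - 1) ξ n z)

variable (S : Setup U g a h φ)

include S

theorem pt_TT (k : ℕ) : ∀ m : ℤ, PT U h (TT h a φ k m) := by
  induction k with
  | zero => exact fun m => PT.of_tame (S.tame_E m)
  | succ k ih =>
    intro m
    have h1 := (ih (m + 1)).cmul (b := fun ξ => (I / 2) * ξ) (by fun_prop)
    have h2 := (ih (m - 1)).cmul (b := fun ξ => (I / 2) * (starRingEnd ℂ) ξ)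
      (continuous_const.mul Complex.continuous_conj)
    refine (h1.add h2).congr fun ξ n z _ => ?_
    show _ = (I / 2) * (ξ * TT h a φ k (m + 1) ξ n z + (starRingEnd ℂ) ξ * TT h a φ k (m - 1) ξ n z)
    ring

theorem hdz_E (m : ℤ) : Near U h (fun n z => (h n : ℂ) * dz (E h a φ m n) z)
    (fun n z => (I / 2) * (a z * g z) * E h a φ (m + 1) n z) := by
  have hb : ContDiffOn ℝ ∞ (fun z => (I / 2) * (a z * g z)) U :=
    contDiffOn_const.mul (S.ha.mul S.hg)
  have h1 := (S.LL_E m).fn_mul S.op S.hlim hb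
  have h0 : Near U h (fun n z => (h n : ℂ) * dz (E h a φ m n) z)
      (fun n z => (I / 2) * (a z * g z) * QE.LL h a (E h a φ m) n z) := by
    refine Near.of_eq S.op fun n z hz => ?_
    have hag := S.ag z hz
    unfold QE.LL
    linear_combination (-(h n : ℂ) * dz (E h a φ m n) z) * hag
      + ((h n : ℂ) * a z ^ 2 * g z * dz (E h a φ m n) z) * I_sq
  exact h0.trans S.op h1

theorem hdzb_E (m : ℤ) : Near U h (fun n z => (h n : ℂ) * dzb (E h a φ m n) z)
    (fun n z => (I / 2) * (a z * g z) * E h a φ (m - 1) n z) := by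
  have hb : ContDiffOn ℝ ∞ (fun z => (I / 2) * (a z * g z)) U :=
    contDiffOn_const.mul (S.ha.mul S.hg)
  have h1 := (S.LLb_E m).fn_mul S.op S.hlim hb
  have h0 : Near U h (fun n z => (h n : ℂ) * dzb (E h a φ m n) z)
      (fun n z => (I / 2) * (a z * g z) * QE.LLb h a (E h a φ m) n z) := by
    refine Near.of_eq S.op fun n z hz => ?_
    have hag := S.ag z hz
    unfold QE.LLb
    linear_combination (-(h n : ℂ) * dzb (E h a φ m n) z) * hag
      + ((h n : ℂ) * a z ^ 2 * g z * dzb (E h a φ m n) z) * I_sq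
  exact h0.trans S.op h1

theorem hdir_TT (k : ℕ) : ∀ m : ℤ, NPT U h (QE.hdir h (TT h a φ k m))
    (fun ξ n z => (a z * g z) * TT h a φ (k + 1) m ξ n z) := by
  induction k with
  | zero =>
    intro m
    have h1 := (NPT.of_near (S.hdz_E m)).cmul (b := fun ξ => ξ) continuous_id
    have h2 := (NPT.of_near (S.hdzb_E m)).cmul (b := fun ξ => (starRingEnd ℂ) ξ)
      Complex.continuous_conj
    refine ((NPT.of_eq S.op fun ξ n z _ => ?_).trans (h1.add h2)).trans
      (NPT.of_eq S.op fun ξ n z _ => ?_)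
    · show (h n : ℂ) * fderiv ℝ (E h a φ m n) z ξ = _
      rw [dir_eq]; ring
    · show _ = a z * g z * ((I / 2) * (ξ * E h a φ (m + 1) n z
        + (starRingEnd ℂ) ξ * E h a φ (m - 1) n z))
      ring
  | succ k ih =>
    intro m
    have h1 := (ih (m + 1)).cmul (b := fun ξ => (I / 2) * ξ) (by fun_prop)
    have h2 := (ih (m - 1)).cmul (b := fun ξ => (I / 2) * (starRingEnd ℂ) ξ)
      (continuous_const.mul Complex.continuous_conj)
    refine ((NPT.of_eq S.op fun ξ n z hz => ?_).trans (h1.add h2)).trans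
      (NPT.of_eq S.op fun ξ n z _ => ?_)
    · have d1 := (S.pt_TT k (m + 1)).dAt S.op ξ n hz
      have d2 := (S.pt_TT k (m - 1)).dAt S.op ξ n hz
      show (h n : ℂ) * fderiv ℝ (fun z => (I / 2) * (ξ * TT h a φ k (m + 1) ξ n z
        + (starRingEnd ℂ) ξ * TT h a φ k (m - 1) ξ n z)) z ξ
        = I / 2 * ξ * ((h n : ℂ) * fderiv ℝ (TT h a φ k (m + 1) ξ n) z ξ)
          + I / 2 * (starRingEnd ℂ) ξ * ((h n : ℂ) * fderiv ℝ (TT h a φ k (m - 1) ξ n) z ξ)
      rw [fderiv_const_mul ((d1.const_mul _).fun_add (d2.const_mul _)),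
        fderiv_fun_add (d1.const_mul _) (d2.const_mul _), fderiv_const_mul d1, fderiv_const_mul d2]
      simp only [add_apply, smul_apply, smul_eq_mul]
      ring
    · have e : TT h a φ (k + 1 + 1) m ξ n z = (I / 2) * (ξ * TT h a φ (k + 1) (m + 1) ξ n z
        + (starRingEnd ℂ) ξ * TT h a φ (k + 1) (m - 1) ξ n z) := rfl
      rw [e]; ring

/-- **iterated semiclassical derivatives in terms of jets** -/
theorem dirK_near (k : ℕ) : NPT U h (fun ξ n z => (h n : ℂ) ^ k * dirK k ξ (φ n) z)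
    (fun ξ n z => (a z * g z) ^ k * TT h a φ k 0 ξ n z) := by
  induction k with
  | zero =>
    refine NPT.of_eq S.op fun ξ n z _ => ?_
    simp only [pow_zero, one_mul]
    rfl
  | succ k ih =>
    have hag : ContDiffOn ℝ ∞ (fun z => a z * g z) U := S.ha.mul S.hg
    have hagk : ContDiffOn ℝ ∞ (fun z => (a z * g z) ^ k) U := hag.pow k
    have hG : PT U h (fun ξ n z => (a z * g z) ^ k * TT h a φ k 0 ξ n z) :=
      (S.pt_TT k 0).fmul S.op S.hlim hagk
    have h1 := ih.hdir S.op hG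
    have h2 := (S.hdir_TT k 0).fmul S.op S.hlim hagk
    -- the derivative of the weight
    have h3 : NPT U h (QE.hdir h (fun ξ n z => (a z * g z) ^ k * TT h a φ k 0 ξ n z))
        (fun ξ n z => (a z * g z) ^ k * QE.hdir h (TT h a φ k 0) ξ n z) := by
      have p1 := ((S.pt_TT k 0).fmul S.op S.hlim (contDiffOn_dz S.op hagk)).cmul
        (b := fun ξ => ξ) continuous_id
      have p2 := ((S.pt_TT k 0).fmul S.op S.hlim (contDiffOn_dzb S.op hagk)).cmul
        (b := fun ξ => (starRingEnd ℂ) ξ) Complex.continuous_conj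
      refine ⟨_, p1.add p2, fun ξ n z hz => ?_⟩
      have d1 : DifferentiableAt ℝ (fun z => (a z * g z) ^ k) z :=
        (hagk.contDiffAt (S.op.mem_nhds hz)).differentiableAt (by simp)
      have d2 := (S.pt_TT k 0).dAt S.op ξ n hz
      have e1 : fderiv ℝ (fun z => (a z * g z) ^ k * TT h a φ k 0 ξ n z) z ξ
          = (a z * g z) ^ k * fderiv ℝ (TT h a φ k 0 ξ n) z ξ
            + TT h a φ k 0 ξ n z * fderiv ℝ (fun z => (a z * g z) ^ k) z ξ := by
        rw [fderiv_fun_mul d1 d2]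
        simp only [add_apply, smul_apply, smul_eq_mul]
      unfold QE.hdir
      rw [e1, dir_eq (fun z => (a z * g z) ^ k)]
      ring
    refine ((NPT.of_eq S.op fun ξ n z hz => ?_).trans (h1.trans (h3.trans h2))).trans
      (NPT.of_eq S.op fun ξ n z _ => ?_)
    · show (h n : ℂ) ^ (k + 1) * fderiv ℝ (dirK k ξ (φ n)) z ξ
        = (h n : ℂ) * fderiv ℝ (fun z => (h n : ℂ) ^ k * dirK k ξ (φ n) z) z ξ
      have d : DifferentiableAt ℝ (dirK k ξ (φ n)) z :=
        ((contDiffOn_dirK S.op ξ (S.tame.smooth n) k).contDiffAt (S.op.mem_nhds hz)).differentiableAt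
          (by simp)
      rw [fderiv_const_mul d]
      simp only [smul_apply, smul_eq_mul]
      ring
    · ring

end Setup

end

end QE


end

section

/-!
Coefficients of the jets in the iterated directional derivatives, and bounded dominating sequences.
-/

open Complex MeasureTheory Filter Topology
open scoped ContDiff

namespace QE

noncomputable section

variable {U : Set ℂ} {h : ℕ → ℝ} {a g : ℂ → ℂ} {φ : ℕ → ℂ → ℂ}

/-- the coefficient of the jet of index `j` in the `k`-th derivative in the direction `ξ` -/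
def cc : ℕ → ℤ → ℂ → ℂ
  | 0, j => fun _ => if j = 0 then 1 else 0
  | k + 1, j => fun ξ => (I / 2) * (ξ * cc k (j - 1) ξ + (starRingEnd ℂ) ξ * cc k (j + 1) ξ)

lemma cc_succ (k : ℕ) (j : ℤ) (ξ : ℂ) : cc (k + 1) j ξ
    = (I / 2) * (ξ * cc k (j - 1) ξ + (starRingEnd ℂ) ξ * cc k (j + 1) ξ) := rfl

lemma continuous_cc (k : ℕ) : ∀ j, Continuous (cc k j) := by
  induction k with
  | zero => exact fun j => continuous_const
  | succ k ih =>
    intro j
    exact continuous_const.mul ((continuous_id.mul (ih (j - 1))).add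
      (Complex.continuous_conj.mul (ih (j + 1))))

lemma cc_eq_zero (k : ℕ) : ∀ j : ℤ, (k : ℤ) < |j| → ∀ ξ, cc k j ξ = 0 := by
  induction k with
  | zero =>
    intro j hj ξ
    have : j ≠ 0 := by rintro rfl; simp at hj
    simp [cc, this]
  | succ k ih =>
    intro j hj ξ
    have h1 : (k : ℤ) < |j - 1| := by
      push_cast at hj
      rcases abs_cases j with h | h <;> rcases abs_cases (j - 1) with h' | h' <;> omega
    have h2 : (k : ℤ) < |j + 1| := by
      push_cast at hj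
      rcases abs_cases j with h | h <;> rcases abs_cases (j + 1) with h' | h' <;> omega
    rw [cc_succ, ih _ h1, ih _ h2]; ring

/-- equivariance under rotations -/
lemma cc_rot (k : ℕ) {u : ℂ} (hu : ‖u‖ = 1) : ∀ (j : ℤ) (ξ : ℂ), cc k j (u * ξ) = u ^ j * cc k j ξ := by
  have hu0 : u ≠ 0 := by
    intro h0; rw [h0, norm_zero] at hu; exact zero_ne_one hu
  have hconj : (starRingEnd ℂ) u = u⁻¹ := by
    rw [Complex.inv_def, Complex.normSq_eq_norm_sq, hu]; simp
  induction k with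
  | zero =>
    intro j ξ
    by_cases hj : j = 0
    · simp [cc, hj]
    · simp [cc, hj]
  | succ k ih =>
    intro j ξ
    rw [cc_succ, cc_succ, ih, ih, map_mul, hconj, zpow_sub_one₀ hu0, zpow_add_one₀ hu0]
    field_simp

lemma sum_norm_cc (k : ℕ) : ∀ (s : Finset ℤ) (ξ : ℂ), ∑ j ∈ s, ‖cc k j ξ‖ ≤ ‖ξ‖ ^ k := by
  induction k with
  | zero =>
    intro s ξ
    rw [pow_zero]
    have : ∀ j ∈ s, ‖cc 0 j ξ‖ = if j = 0 then (1 : ℝ) else 0 := by
      intro j _
      by_cases hj : j = 0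
      · simp [cc, hj]
      · simp [cc, hj]
    rw [Finset.sum_congr rfl this, Finset.sum_ite_eq']
    split_ifs <;> norm_num
  | succ k ih =>
    intro s ξ
    have e1 : ∑ j ∈ s, ‖cc k (j - 1) ξ‖ ≤ ‖ξ‖ ^ k := by
      have := ih (s.map (Equiv.subRight (1 : ℤ)).toEmbedding) ξ
      rw [Finset.sum_map] at this
      exact this
    have e2 : ∑ j ∈ s, ‖cc k (j + 1) ξ‖ ≤ ‖ξ‖ ^ k := by
      have := ih (s.map (Equiv.addRight (1 : ℤ)).toEmbedding) ξ
      rw [Finset.sum_map] at this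
      exact this
    calc ∑ j ∈ s, ‖cc (k + 1) j ξ‖
        ≤ ∑ j ∈ s, (1 / 2 * ‖ξ‖ * ‖cc k (j - 1) ξ‖ + 1 / 2 * ‖ξ‖ * ‖cc k (j + 1) ξ‖) := by
          refine Finset.sum_le_sum fun j _ => ?_
          rw [cc_succ, norm_mul]
          have h1 : ‖(I / 2 : ℂ)‖ = 1 / 2 := by simp
          have h2 := norm_add_le (ξ * cc k (j - 1) ξ) ((starRingEnd ℂ) ξ * cc k (j + 1) ξ)
          rw [norm_mul, norm_mul, RCLike.norm_conj] at h2
          rw [h1]
          linarith
      _ = 1 / 2 * ‖ξ‖ * (∑ j ∈ s, ‖cc k (j - 1) ξ‖) + 1 / 2 * ‖ξ‖ * ∑ j ∈ s, ‖cc k (j + 1) ξ‖ := by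
          rw [Finset.sum_add_distrib, Finset.mul_sum, Finset.mul_sum]
      _ ≤ 1 / 2 * ‖ξ‖ * ‖ξ‖ ^ k + 1 / 2 * ‖ξ‖ * ‖ξ‖ ^ k := by gcongr
      _ = ‖ξ‖ ^ (k + 1) := by ring

lemma TT_eq (k : ℕ) : ∀ (m : ℤ) (s : Finset ℤ), Finset.Icc (-(k : ℤ)) k ⊆ s → ∀ (ξ : ℂ) (n : ℕ)
    (z : ℂ), Setup.TT h a φ k m ξ n z = ∑ j ∈ s, cc k j ξ * E h a φ (m + j) n z := by
  induction k with
  | zero =>
    intro m s hs ξ n z
    have h0 : (0 : ℤ) ∈ s := hs (by simp)
    rw [Finset.sum_eq_single_of_mem 0 h0 (fun j _ hj => by simp [cc, hj])]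
    simp [cc, Setup.TT]
  | succ k ih =>
    intro m s hs ξ n z
    have m1 : Finset.Icc (-(k : ℤ)) k ⊆ s.map (Equiv.subRight (1 : ℤ)).toEmbedding := by
      intro j hj
      rw [Finset.mem_map]
      rw [Finset.mem_Icc] at hj
      refine ⟨j + 1, hs ?_, by simp⟩
      rw [Finset.mem_Icc]; push_cast; omega
    have m2 : Finset.Icc (-(k : ℤ)) k ⊆ s.map (Equiv.addRight (1 : ℤ)).toEmbedding := by
      intro j hj
      rw [Finset.mem_map]
      rw [Finset.mem_Icc] at hj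
      refine ⟨j - 1, hs ?_, by simp⟩
      rw [Finset.mem_Icc]; push_cast; omega
    have e1 := ih (m + 1) _ m1 ξ n z
    have e2 := ih (m - 1) _ m2 ξ n z
    rw [Finset.sum_map] at e1 e2
    have e : Setup.TT h a φ (k + 1) m ξ n z = (I / 2) * (ξ * Setup.TT h a φ k (m + 1) ξ n z
        + (starRingEnd ℂ) ξ * Setup.TT h a φ k (m - 1) ξ n z) := rfl
    rw [e, e1, e2, Finset.mul_sum, Finset.mul_sum, ← Finset.sum_add_distrib, Finset.mul_sum]
    refine Finset.sum_congr rfl fun j _ => ?_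
    have i1 : m + 1 + (Equiv.subRight (1 : ℤ)).toEmbedding j = m + j := by
      show m + 1 + (j - 1) = m + j
      ring
    have i2 : m - 1 + (Equiv.addRight (1 : ℤ)).toEmbedding j = m + j := by
      show m - 1 + (j + 1) = m + j
      ring
    rw [i1, i2, cc_succ]
    show I / 2 * (ξ * (cc k (j - 1) ξ * _) + (starRingEnd ℂ) ξ * (cc k (j + 1) ξ * _)) = _
    ring

/-! ### dominating sequences -/

lemma sum_pow4 {ι : Type*} (s : Finset ι) {f : ι → ℝ} (hf : ∀ i ∈ s, 0 ≤ f i) :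
    (∑ i ∈ s, f i) ^ 4 ≤ (s.card : ℝ) ^ 3 * ∑ i ∈ s, f i ^ 4 :=
  pow_sum_le_card_mul_sum_pow hf 3

/-- nonnegative sequences which are bounded in `L⁴` on compact sets -/
structure RB (U : Set ℂ) (p : ℕ → ℂ → ℝ) : Prop where
  cont : ∀ n, ContinuousOn (p n) U
  nonneg : ∀ n z, 0 ≤ p n z
  bdd : ∀ K, IsCompact K → K ⊆ U → ∃ M : ℝ, ∀ᶠ n in atTop, ∫ z in K, p n z ^ 4 ≤ M

lemma RB.int {p : ℕ → ℂ → ℝ} (hp : RB U p) {K : Set ℂ} (hK : IsCompact K) (hKU : K ⊆ U) (n : ℕ) :
    IntegrableOn (fun z => p n z ^ 4) K :=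
  (((hp.cont n).mono hKU).pow 4).integrableOn_compact hK

lemma RB.zero : RB U (fun _ _ => 0) :=
  ⟨fun _ => continuousOn_const, fun _ _ => le_rfl, fun K _ _ =>
    ⟨0, Eventually.of_forall fun n => by simp⟩⟩

lemma RB.of_tame {w : ℕ → ℂ → ℂ} (hw : Tame U h w) : RB U (fun n z => ‖w n z‖) :=
  ⟨fun n => (hw.smooth n).continuousOn.norm, fun _ _ => norm_nonneg _, fun K hK hKU =>
    hw.bdd4 K hK hKU⟩

lemma four_add_int {K : Set ℂ} {p q : ℂ → ℝ} (hp0 : ∀ z, 0 ≤ p z) (hq0 : ∀ z, 0 ≤ q z)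
    (ip : IntegrableOn (fun z => p z ^ 4) K) (iq : IntegrableOn (fun z => q z ^ 4) K) :
    ∫ z in K, (p z + q z) ^ 4 ≤ 8 * ((∫ z in K, p z ^ 4) + ∫ z in K, q z ^ 4) := by
  rw [← integral_add ip iq, ← integral_const_mul]
  refine integral_mono_of_nonneg (Eventually.of_forall fun z => ?_) ((ip.add iq).const_mul 8)
    (Eventually.of_forall fun z => four_add _ _ (hp0 z) (hq0 z))
  have := hp0 z
  have := hq0 z
  show 0 ≤ (p z + q z) ^ 4
  positivity

lemma RB.add {p q : ℕ → ℂ → ℝ} (hp : RB U p) (hq : RB U q) : RB U (fun n z => p n z + q n z) := by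
  refine ⟨fun n => (hp.cont n).add (hq.cont n), fun n z => add_nonneg (hp.nonneg n z)
    (hq.nonneg n z), fun K hK hKU => ?_⟩
  obtain ⟨M, hM⟩ := hp.bdd K hK hKU
  obtain ⟨L, hL⟩ := hq.bdd K hK hKU
  refine ⟨8 * (M + L), ?_⟩
  filter_upwards [hM, hL] with n h1 h2
  refine (four_add_int (hp.nonneg n) (hq.nonneg n) (hp.int hK hKU n) (hq.int hK hKU n)).trans ?_
  gcongr

lemma RB.const_mul {p : ℕ → ℂ → ℝ} (hp : RB U p) {c : ℝ} (hc : 0 ≤ c) :
    RB U (fun n z => c * p n z) := by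
  refine ⟨fun n => continuousOn_const.mul (hp.cont n), fun n z => mul_nonneg hc (hp.nonneg n z),
    fun K hK hKU => ?_⟩
  obtain ⟨M, hM⟩ := hp.bdd K hK hKU
  refine ⟨c ^ 4 * M, ?_⟩
  filter_upwards [hM] with n h1
  simp only [mul_pow]
  rw [integral_const_mul]
  gcongr

lemma RB.sum {ι : Type*} (s : Finset ι) {p : ι → ℕ → ℂ → ℝ} (hp : ∀ i ∈ s, RB U (p i)) :
    RB U (fun n z => ∑ i ∈ s, p i n z) := by
  classical
  induction s using Finset.induction_on with
  | empty => simpa using RB.zero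
  | insert i s hi ih =>
    have h1 := (hp i (Finset.mem_insert_self i s)).add
      (ih fun j hj => hp j (Finset.mem_insert_of_mem hj))
    simpa only [Finset.sum_insert hi] using h1

lemma PT.bound {W : ℂ → ℕ → ℂ → ℂ} (hW : PT U h W) (r : ℝ) : ∃ w : ℕ → ℂ → ℝ, RB U w ∧
    ∀ ξ : ℂ, ‖ξ‖ ≤ r → ∀ n, ∀ z ∈ U, ‖W ξ n z‖ ≤ w n z := by
  obtain ⟨ι, _, c, w, hc, hw, h1⟩ := hW
  have hb : ∀ i, ∃ B : ℝ, 0 ≤ B ∧ ∀ ξ : ℂ, ‖ξ‖ ≤ r → ‖c i ξ‖ ≤ B := by
    intro i
    obtain ⟨B, hB⟩ := (isCompact_closedBall (0 : ℂ) r).exists_bound_of_continuousOn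
      (hc i).continuousOn
    exact ⟨|B|, abs_nonneg B, fun ξ hξ => (hB ξ (by simpa using hξ)).trans (le_abs_self B)⟩
  choose B hB0 hB using hb
  refine ⟨fun n z => ∑ i, B i * ‖w i n z‖, RB.sum _ fun i _ => (RB.of_tame (hw i)).const_mul (hB0 i),
    fun ξ hξ n z hz => ?_⟩
  rw [h1 ξ n z hz]
  refine (norm_sum_le _ _).trans (Finset.sum_le_sum fun i _ => ?_)
  rw [norm_mul]
  exact mul_le_mul_of_nonneg_right (hB i ξ hξ) (norm_nonneg _)

end

end QE


end

section

/-!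
Taylor's formula along a displacement field, and the `L⁴` bound for the remainder.
-/

open Complex MeasureTheory Filter Topology Set
open scoped ContDiff

namespace QE

noncomputable section

variable {U : Set ℂ} {h : ℕ → ℝ} {a g : ℂ → ℂ} {φ : ℕ → ℂ → ℂ}

/-- Jensen's inequality for fourth powers -/
lemma jensen4 {G : ℝ → ℝ} (hG : ContinuousOn G (Icc (0 : ℝ) 1)) (h0 : ∀ t ∈ Icc (0 : ℝ) 1, 0 ≤ G t) :
    (∫ t in (0 : ℝ)..1, G t) ^ 4 ≤ ∫ t in (0 : ℝ)..1, G t ^ 4 := by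
  have hu : uIcc (0 : ℝ) 1 = Icc 0 1 := uIcc_of_le zero_le_one
  have i1 : IntervalIntegrable G volume 0 1 := (hG.mono hu.le).intervalIntegrable
  have i4 : IntervalIntegrable (fun t => G t ^ 4) volume 0 1 :=
    ((hG.pow 4).mono hu.le).intervalIntegrable
  set A := ∫ t in (0 : ℝ)..1, G t with hA
  have hA0 : 0 ≤ A := intervalIntegral.integral_nonneg zero_le_one h0
  have h1 : ∫ t in (0 : ℝ)..1, (A ^ 4 + 4 * A ^ 3 * (G t - A)) ≤ ∫ t in (0 : ℝ)..1, G t ^ 4 := by
    refine intervalIntegral.integral_mono_on zero_le_one ?_ i4 fun t ht => ?_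
    · exact intervalIntegrable_const.add ((i1.sub intervalIntegrable_const).const_mul _)
    · have hg := h0 t ht
      nlinarith [mul_nonneg (sq_nonneg (G t - A)) (add_nonneg (add_nonneg (sq_nonneg (G t))
        (mul_nonneg (mul_nonneg zero_le_two hA0) hg)) (mul_nonneg zero_le_three (sq_nonneg A)))]
  have h2 : ∫ t in (0 : ℝ)..1, (A ^ 4 + 4 * A ^ 3 * (G t - A)) = A ^ 4 := by
    rw [intervalIntegral.integral_add intervalIntegrable_const
      ((i1.sub intervalIntegrable_const).const_mul _), intervalIntegral.integral_const_mul,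
      intervalIntegral.integral_sub i1 intervalIntegrable_const, ← hA]
    simp
  linarith

/-- the `L⁴` bound for the remainder -/
theorem rem_bound {K S : Set ℂ} (hK : IsCompact K) (hS : IsCompact S) {v : ℂ → ℂ}
    (hvc : ContinuousOn v K) (hlip : ∀ z ∈ K, ∀ w ∈ K, ‖v z - v w‖ ≤ (1 / 2) * ‖z - w‖)
    (hseg : ∀ z ∈ K, ∀ t ∈ Icc (0 : ℝ) 1, z + t • v z ∈ S) {G : ℂ → ℝ} (hG : ContinuousOn G S)
    (h0 : ∀ z ∈ S, 0 ≤ G z) :
    IntegrableOn (fun z => (∫ t in (0 : ℝ)..1, G (z + t • v z)) ^ 4) K ∧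
    ∫ z in K, (∫ t in (0 : ℝ)..1, G (z + t • v z)) ^ 4 ≤ 4 * ∫ z in S, G z ^ 4 := by
  have hm : MapsTo (fun p : ℂ × ℝ => p.1 + p.2 • v p.1) (K ×ˢ Icc (0 : ℝ) 1) S :=
    fun p hp => hseg p.1 hp.1 p.2 hp.2
  have hcm : ContinuousOn (fun p : ℂ × ℝ => p.1 + p.2 • v p.1) (K ×ˢ Icc (0 : ℝ) 1) := by
    refine continuousOn_fst.add (continuousOn_snd.smul ?_)
    exact hvc.comp continuousOn_fst fun p hp => hp.1
  have hGc : ContinuousOn (fun p : ℂ × ℝ => G (p.1 + p.2 • v p.1)) (K ×ˢ Icc (0 : ℝ) 1) :=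
    hG.comp hcm hm
  have hKI : IsCompact (K ×ˢ Icc (0 : ℝ) 1) := hK.prod isCompact_Icc
  set μ : Measure ℂ := volume.restrict K with hμ
  set ν : Measure ℝ := volume.restrict (Ioc (0 : ℝ) 1) with hν
  have hprod : μ.prod ν ≤ ((volume : Measure ℂ).prod (volume : Measure ℝ)).restrict
      (K ×ˢ Icc (0 : ℝ) 1) := by
    rw [hμ, hν, Measure.prod_restrict]
    exact Measure.restrict_mono (prod_mono_right Ioc_subset_Icc_self) le_rfl
  have i1 : Integrable (fun p : ℂ × ℝ => G (p.1 + p.2 • v p.1)) (μ.prod ν) :=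
    Integrable.mono_measure (hGc.integrableOn_compact hKI
      (μ := (volume : Measure ℂ).prod (volume : Measure ℝ))).integrable hprod
  have i4 : Integrable (fun p : ℂ × ℝ => G (p.1 + p.2 • v p.1) ^ 4) (μ.prod ν) :=
    Integrable.mono_measure ((hGc.pow 4).integrableOn_compact hKI
      (μ := (volume : Measure ℂ).prod (volume : Measure ℝ))).integrable hprod
  have j1 : Integrable (fun z => ∫ t in (0 : ℝ)..1, G (z + t • v z)) μ := by
    simp only [intervalIntegral.integral_of_le zero_le_one]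
    exact i1.integral_prod_left
  have j4 : Integrable (fun z => ∫ t in (0 : ℝ)..1, G (z + t • v z) ^ 4) μ := by
    simp only [intervalIntegral.integral_of_le zero_le_one]
    exact i4.integral_prod_left
  have hGz : ∀ z ∈ K, ContinuousOn (fun t : ℝ => G (z + t • v z)) (Icc (0 : ℝ) 1) := by
    intro z hz
    refine hG.comp (by fun_prop) fun t ht => hseg z hz t ht
  have hle : ∀ᵐ z ∂μ, (∫ t in (0 : ℝ)..1, G (z + t • v z)) ^ 4
      ≤ ∫ t in (0 : ℝ)..1, G (z + t • v z) ^ 4 := by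
    rw [hμ, ae_restrict_iff' hK.measurableSet]
    exact Eventually.of_forall fun z hz => jensen4 (hGz z hz) fun t ht => h0 _ (hseg z hz t ht)
  refine ⟨?_, ?_⟩
  · refine j4.mono' (j1.aestronglyMeasurable.pow 4) ?_
    filter_upwards [hle] with z hz
    rw [Real.norm_of_nonneg (by positivity)]
    exact hz
  · calc ∫ z in K, (∫ t in (0 : ℝ)..1, G (z + t • v z)) ^ 4
        ≤ ∫ z in K, ∫ t in (0 : ℝ)..1, G (z + t • v z) ^ 4 :=
          integral_mono_of_nonneg (Eventually.of_forall fun z => by positivity) j4 hle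
      _ = ∫ z, ∫ t, G (z + t • v z) ^ 4 ∂ν ∂μ := by
          simp only [intervalIntegral.integral_of_le zero_le_one, hμ, hν]
      _ = ∫ t, ∫ z, G (z + t • v z) ^ 4 ∂μ ∂ν := integral_integral_swap i4
      _ ≤ ∫ t, 4 * (∫ z in S, G z ^ 4) ∂ν := by
          refine integral_mono_of_nonneg (Eventually.of_forall fun t =>
            integral_nonneg fun z => by positivity) (integrable_const _) ?_
          rw [hν]
          refine (ae_restrict_iff' measurableSet_Ioc).2 (Eventually.of_forall fun t ht => ?_)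
          have ht' : t ∈ Icc (0 : ℝ) 1 := Ioc_subset_Icc_self ht
          exact integral_comp_le hK hS (expand_of_lip hlip ht') (fun z hz => hseg z hz t ht')
            (continuousOn_id.add (hvc.const_smul t)) (hG.pow 4)
            (fun z hz => pow_nonneg (h0 z hz) 4)
      _ = 4 * ∫ z in S, G z ^ 4 := by
          rw [integral_const, hν]
          simp

/-- Taylor's formula along a segment, for the iterated directional derivatives -/
theorem taylor_dir (hU : IsOpen U) {f : ℂ → ℂ} (hf : ContDiffOn ℝ ∞ f U) {z v : ℂ}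
    (hseg : ∀ t ∈ Icc (0 : ℝ) 1, z + t • v ∈ U) (N : ℕ) :
    f (z + v) = ∑ k ∈ Finset.range (N + 1), ((k.factorial : ℝ)⁻¹ : ℝ) • dirK k v f z
      + ((N.factorial : ℝ)⁻¹ : ℝ) • ∫ t in (0 : ℝ)..1, (1 - t) ^ N • dirK (N + 1) v f (z + t • v) := by
  have h1 := map_add_eq_sum_add_integral_iteratedFDeriv (f := f) (x := z) (y := v) (n := N)
    (fun t ht => ((hf.contDiffAt (hU.mem_nhds (hseg t ht))).of_le (by
      exact_mod_cast le_top)))
  have hz : z ∈ U := by
    have := hseg 0 (by simp)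
    simpa using this
  rw [h1]
  congr 1
  · refine Finset.sum_congr rfl fun k _ => ?_
    rw [iteratedFDeriv_eq_dirK hU v hf k z hz]
  · congr 1
    refine intervalIntegral.integral_congr fun t ht => ?_
    rw [uIcc_of_le zero_le_one] at ht
    beta_reduce
    rw [iteratedFDeriv_eq_dirK hU v hf (N + 1) _ (hseg t ht)]

end

end QE


end

section

/-!
The Taylor expansion of an eigenfunction at the scale of the wavelength, in terms of the jets.
-/

open Complex MeasureTheory Filter Topology Set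
open scoped ContDiff

namespace QE

noncomputable section

variable {U : Set ℂ} {h : ℕ → ℝ} {a g : ℂ → ℂ} {φ : ℕ → ℂ → ℂ}

/-- the Taylor polynomial in terms of the jets -/
def Phi (h : ℕ → ℝ) (a : ℂ → ℂ) (φ : ℕ → ℂ → ℂ) (N : ℕ) (x : ℂ) (n : ℕ) (z : ℂ) : ℂ :=
  ∑ k ∈ Finset.range (N + 1), ((k.factorial : ℝ)⁻¹ : ℝ) • Setup.TT h a φ k 0 x n z

lemma norm_TT_le (k : ℕ) (ξ : ℂ) (n : ℕ) (z : ℂ) : ‖Setup.TT h a φ k 0 ξ n z‖
    ≤ ‖ξ‖ ^ k * ∑ j ∈ Finset.Icc (-(k : ℤ)) k, ‖E h a φ j n z‖ := by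
  rw [TT_eq k 0 _ (Finset.Subset.refl _), Finset.mul_sum]
  refine (norm_sum_le _ _).trans (Finset.sum_le_sum fun j hj => ?_)
  rw [norm_mul, zero_add]
  refine mul_le_mul_of_nonneg_right ?_ (norm_nonneg _)
  refine le_trans ?_ (sum_norm_cc k (Finset.Icc (-(k : ℤ)) k) ξ)
  exact Finset.single_le_sum (f := fun j => ‖cc k j ξ‖) (fun _ _ => norm_nonneg _) hj

lemma norm_TT_sub_le {k N : ℕ} (hk : k ≤ N) {ξ x : ℂ} {η : ℝ}
    (hη : ∀ j ∈ Finset.Icc (-(N : ℤ)) N, ‖cc k j ξ - cc k j x‖ ≤ η) (n : ℕ) (z : ℂ) :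
    ‖Setup.TT h a φ k 0 ξ n z - Setup.TT h a φ k 0 x n z‖
      ≤ η * ∑ j ∈ Finset.Icc (-(N : ℤ)) N, ‖E h a φ j n z‖ := by
  have hs : Finset.Icc (-(k : ℤ)) k ⊆ Finset.Icc (-(N : ℤ)) N := by
    intro j hj
    rw [Finset.mem_Icc] at hj ⊢
    omega
  rw [TT_eq k 0 _ hs, TT_eq k 0 _ hs, ← Finset.sum_sub_distrib, Finset.mul_sum]
  refine (norm_sum_le _ _).trans (Finset.sum_le_sum fun j hj => ?_)
  rw [← sub_mul, norm_mul, zero_add]
  exact mul_le_mul_of_nonneg_right (hη j hj) (norm_nonneg _)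

/-- the function dominating the remainder -/
def GG (h : ℕ → ℝ) (a : ℂ → ℂ) (φ : ℕ → ℂ → ℂ) (D A : ℝ) (w : ℕ → ℂ → ℝ) (N n : ℕ) (z : ℂ) : ℝ :=
  D ^ (N + 1) * (∑ j ∈ Finset.Icc (-((N + 1 : ℕ) : ℤ)) (N + 1 : ℕ), ‖E h a φ j n z‖)
    + h n * (A ^ (N + 1) * w n z)

namespace Setup

variable (S : Setup U g a h φ)

include S

lemma a_re {z : ℂ} (hz : z ∈ U) : a z = ((a z).re : ℂ) := by
  have := S.areal z hz
  exact (Complex.conj_eq_iff_real.1 this).elim fun r hr => by rw [hr]; simp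

/-- the pointwise form of Taylor's formula -/
theorem point {K K₁ : Set ℂ} (hK₁ : K₁ ⊆ U) (hKK₁ : K ⊆ K₁) {A B r : ℝ} (hA1 : 1 ≤ A) (hB1 : 1 ≤ B)
    (hr : 0 ≤ r)
    (hA : ∀ z ∈ K₁, ‖a z‖ ≤ A) (hB : ∀ z ∈ K₁, ‖a z * g z‖ ≤ B) (N : ℕ) :
    ∃ P : ℕ → ℂ → ℝ, RB U P ∧ ∃ w : ℕ → ℂ → ℝ, RB U w ∧ ∀ η > 0, ∀ (Θ : Type) (x : Θ → ℂ)
      (ξ : ℕ → Θ → ℂ → ℂ), (∀ s, ‖x s‖ ≤ r) →
      (∀ ε > 0, ∀ᶠ n in atTop, ∀ s, ∀ z ∈ K, ‖ξ n s z - x s‖ ≤ ε) →
      (∀ᶠ n in atTop, ∀ s, ∀ z ∈ K, ∀ t ∈ Icc (0 : ℝ) 1, z + t • (h n * a z * ξ n s z) ∈ K₁) →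
      ∀ᶠ n in atTop, ∀ s, ∀ z ∈ K,
        ‖φ n (z + h n * a z * ξ n s z) - Phi h a φ N (x s) n z‖
          ≤ η * P n z + ((N.factorial : ℝ)⁻¹ : ℝ) * ∫ t in (0 : ℝ)..1,
            GG h a φ (A * B * (r + 1)) A w N n (z + t • (h n * a z * ξ n s z)) := by
  choose W hW hWeq using fun k => S.dirK_near k
  choose w hw hwle using fun k => (hW k).bound (r + 1)
  refine ⟨fun n z => (∑ j ∈ Finset.Icc (-(N : ℤ)) N, ‖E h a φ j n z‖)
    + ∑ k ∈ Finset.range (N + 1), A ^ k * w k n z, ?_, w (N + 1), hw (N + 1), ?_⟩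
  · exact (RB.sum _ fun j _ => RB.of_tame (S.tame_E j)).add
      (RB.sum _ fun k _ => (hw k).const_mul (by positivity))
  intro η hη Θ x ξ hx hξ hseg
  -- uniform continuity of the coefficients
  set η₁ : ℝ := η / (N + 1) with hη₁
  have hη₁0 : 0 < η₁ := by positivity
  have hcc : ∀ᶠ n in atTop, ∀ k ∈ Finset.range (N + 1), ∀ j ∈ Finset.Icc (-(N : ℤ)) N, ∀ s,
      ∀ z ∈ K, ‖cc k j (ξ n s z) - cc k j (x s)‖ ≤ η₁ := by
    rw [Filter.eventually_all_finset]
    intro k _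
    rw [Filter.eventually_all_finset]
    intro j _
    have huc := (isCompact_closedBall (0 : ℂ) (r + 1)).uniformContinuousOn_of_continuous
      (continuous_cc k j).continuousOn
    rw [Metric.uniformContinuousOn_iff] at huc
    obtain ⟨δ, hδ, hδ'⟩ := huc η₁ hη₁0
    filter_upwards [hξ (min (δ / 2) 1) (by positivity)] with n hn s z hz
    have h1 := hn s z hz
    have h2 : ‖ξ n s z‖ ≤ r + 1 := by
      have h3 := norm_add_le (ξ n s z - x s) (x s)
      rw [sub_add_cancel] at h3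
      have := hx s
      have := h1.trans (min_le_right _ _)
      linarith
    have h4 := hδ' (ξ n s z) (by simpa using h2) (x s) (by
      have := hx s
      simp only [mem_closedBall_zero_iff]; linarith) (by
      rw [dist_eq_norm]
      have := h1.trans (min_le_left _ _)
      linarith)
    rw [dist_eq_norm] at h4
    exact h4.le
  have hhη : ∀ᶠ n in atTop, h n < η := S.hlim.eventually_lt_const hη
  filter_upwards [hcc, hhη, hξ 1 one_pos, hseg] with n hn1 hn2 hn3 hn4 s z hz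
  have hzU : z ∈ U := hK₁ (hKK₁ hz)
  have hh := S.hpos n
  set X := ξ n s z with hX
  have hXr : ‖X‖ ≤ r + 1 := by
    have h3 := norm_add_le (X - x s) (x s)
    rw [sub_add_cancel] at h3
    have := hx s
    have := hn3 s z hz
    linarith
  set v := (h n : ℂ) * a z * X with hv
  set c : ℝ := h n * (a z).re with hc
  have hcv : v = (c : ℂ) * X := by
    rw [hv, hc, Complex.ofReal_mul, ← S.a_re hzU]
  have hca : (c : ℂ) = (h n : ℂ) * a z := by
    rw [hc, Complex.ofReal_mul, ← S.a_re hzU]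
  have hsegz := fun t ht => hK₁ (hn4 s z hz t ht)
  have hT := taylor_dir S.op (S.tame.smooth n) hsegz N
  have hdir : ∀ k, ∀ y ∈ U, dirK k v (φ n) y = (a z) ^ k * ((a y * g y) ^ k * Setup.TT h a φ k 0 X n y
      + (h n : ℂ) * W k X n y) := by
    intro k y hy
    rw [hcv, dirK_smul S.op c X (S.tame.smooth n) k hy, hca, mul_pow, ← hWeq k X n y hy]
    ring
  -- the terms of the Taylor polynomial
  have hterm : ∀ k ∈ Finset.range (N + 1), ‖dirK k v (φ n) z - Setup.TT h a φ k 0 (x s) n z‖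
      ≤ η₁ * (∑ j ∈ Finset.Icc (-(N : ℤ)) N, ‖E h a φ j n z‖) + h n * (A ^ k * w k n z) := by
    intro k hk
    have hkN : k ≤ N := by rw [Finset.mem_range] at hk; omega
    have e1 : dirK k v (φ n) z - Setup.TT h a φ k 0 (x s) n z
        = (Setup.TT h a φ k 0 X n z - Setup.TT h a φ k 0 (x s) n z)
          + (h n : ℂ) * ((a z) ^ k * W k X n z) := by
      rw [hdir k z hzU]
      have e2 : (a z) ^ k * (a z * g z) ^ k = 1 := by
        rw [← mul_pow, show a z * (a z * g z) = a z ^ 2 * g z by ring, S.ag z hzU, one_pow]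
      linear_combination (Setup.TT h a φ k 0 X n z) * e2
    rw [e1]
    refine (norm_add_le _ _).trans (add_le_add ?_ ?_)
    · exact norm_TT_sub_le hkN (fun j hj => hn1 k hk j hj s z hz) n z
    · rw [norm_mul, norm_mul, norm_pow, Complex.norm_real, Real.norm_of_nonneg hh.le]
      have h5 : ‖a z‖ ^ k ≤ A ^ k := pow_le_pow_left₀ (norm_nonneg _) (hA z (hKK₁ hz)) k
      have h6 := hwle k X hXr n z hzU
      gcongr
  -- the remainder
  have hGG : ∀ t ∈ Icc (0 : ℝ) 1, ‖(1 - t) ^ N • dirK (N + 1) v (φ n) (z + t • v)‖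
      ≤ GG h a φ (A * B * (r + 1)) A (w (N + 1)) N n (z + t • v) := by
    intro t ht
    set y := z + t • v with hy
    have hyK : y ∈ K₁ := hn4 s z hz t ht
    have hyU : y ∈ U := hK₁ hyK
    rw [norm_smul, hdir (N + 1) y hyU, norm_mul, norm_pow (a z)]
    have h1 : ‖(1 - t) ^ N‖ ≤ 1 := by
      rw [norm_pow, Real.norm_of_nonneg (by linarith [ht.2])]
      exact pow_le_one₀ (by linarith [ht.2]) (by linarith [ht.1])
    have h2 : ‖(a y * g y) ^ (N + 1) * Setup.TT h a φ (N + 1) 0 X n y + (h n : ℂ) * W (N + 1) X n y‖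
        ≤ B ^ (N + 1) * ((r + 1) ^ (N + 1) * ∑ j ∈ Finset.Icc (-((N + 1 : ℕ) : ℤ)) (N + 1 : ℕ),
          ‖E h a φ j n y‖) + h n * w (N + 1) n y := by
      refine (norm_add_le _ _).trans (add_le_add ?_ ?_)
      · rw [norm_mul, norm_pow]
        have h3 : ‖a y * g y‖ ^ (N + 1) ≤ B ^ (N + 1) :=
          pow_le_pow_left₀ (norm_nonneg _) (hB y hyK) _
        have h4 := norm_TT_le (h := h) (a := a) (φ := φ) (N + 1) X n y
        have h5 : ‖X‖ ^ (N + 1) ≤ (r + 1) ^ (N + 1) := pow_le_pow_left₀ (norm_nonneg _) hXr _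
        have h6 : 0 ≤ ∑ j ∈ Finset.Icc (-((N + 1 : ℕ) : ℤ)) (N + 1 : ℕ), ‖E h a φ j n y‖ :=
          Finset.sum_nonneg fun _ _ => norm_nonneg _
        exact mul_le_mul h3 (h4.trans (mul_le_mul_of_nonneg_right h5 h6)) (norm_nonneg _)
          (by positivity)
      · rw [norm_mul, Complex.norm_real, Real.norm_of_nonneg hh.le]
        exact mul_le_mul_of_nonneg_left (hwle (N + 1) X hXr n y hyU) hh.le
    have h7 : ‖a z‖ ^ (N + 1) ≤ A ^ (N + 1) :=
      pow_le_pow_left₀ (norm_nonneg _) (hA z (hKK₁ hz)) _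
    have h8 : 0 ≤ w (N + 1) n y := (hw (N + 1)).nonneg n y
    have h9 : 0 ≤ ∑ j ∈ Finset.Icc (-((N + 1 : ℕ) : ℤ)) (N + 1 : ℕ), ‖E h a φ j n y‖ :=
      Finset.sum_nonneg fun _ _ => norm_nonneg _
    calc ‖(1 - t) ^ N‖ * (‖a z‖ ^ (N + 1) * ‖(a y * g y) ^ (N + 1)
          * Setup.TT h a φ (N + 1) 0 X n y + (h n : ℂ) * W (N + 1) X n y‖)
        ≤ 1 * (A ^ (N + 1) * (B ^ (N + 1) * ((r + 1) ^ (N + 1)
          * ∑ j ∈ Finset.Icc (-((N + 1 : ℕ) : ℤ)) (N + 1 : ℕ), ‖E h a φ j n y‖)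
            + h n * w (N + 1) n y)) :=
          mul_le_mul h1 (mul_le_mul h7 h2 (norm_nonneg _) (by positivity)) (by positivity)
            zero_le_one
      _ = GG h a φ (A * B * (r + 1)) A (w (N + 1)) N n y := by
          unfold GG; rw [mul_pow, mul_pow]; ring
  have hGc : ContinuousOn (fun t : ℝ => GG h a φ (A * B * (r + 1)) A (w (N + 1)) N n (z + t • v))
      (Icc (0 : ℝ) 1) := by
    have hG1 : ContinuousOn (GG h a φ (A * B * (r + 1)) A (w (N + 1)) N n) U := by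
      unfold GG
      refine (continuousOn_const.mul (continuousOn_finset_sum _ fun j _ =>
        ((S.tame_E j).smooth n).continuousOn.norm)).add
        (continuousOn_const.mul (continuousOn_const.mul ((hw (N + 1)).cont n)))
    exact hG1.comp (by fun_prop) fun t ht => hsegz t ht
  have hrem : ‖∫ t in (0 : ℝ)..1, (1 - t) ^ N • dirK (N + 1) v (φ n) (z + t • v)‖
      ≤ ∫ t in (0 : ℝ)..1, GG h a φ (A * B * (r + 1)) A (w (N + 1)) N n (z + t • v) := by
    refine intervalIntegral.norm_integral_le_of_norm_le zero_le_one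
      (Eventually.of_forall fun t ht => hGG t (Ioc_subset_Icc_self ht)) ?_
    rw [← uIcc_of_le zero_le_one] at hGc
    exact hGc.intervalIntegrable
  have e3 : φ n (z + v) - Phi h a φ N (x s) n z = (∑ k ∈ Finset.range (N + 1),
      ((k.factorial : ℝ)⁻¹ : ℝ) • (dirK k v (φ n) z - Setup.TT h a φ k 0 (x s) n z))
      + ((N.factorial : ℝ)⁻¹ : ℝ) • ∫ t in (0 : ℝ)..1, (1 - t) ^ N
        • dirK (N + 1) v (φ n) (z + t • v) := by
    rw [hT]
    unfold Phi
    simp only [smul_sub, Finset.sum_sub_distrib]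
    ring
  rw [e3]
  refine (norm_add_le _ _).trans (add_le_add ?_ ?_)
  · have hE0 : 0 ≤ ∑ j ∈ Finset.Icc (-(N : ℤ)) N, ‖E h a φ j n z‖ :=
      Finset.sum_nonneg fun _ _ => norm_nonneg _
    calc ‖∑ k ∈ Finset.range (N + 1), ((k.factorial : ℝ)⁻¹ : ℝ)
          • (dirK k v (φ n) z - Setup.TT h a φ k 0 (x s) n z)‖
        ≤ ∑ k ∈ Finset.range (N + 1), (η₁ * (∑ j ∈ Finset.Icc (-(N : ℤ)) N, ‖E h a φ j n z‖)
          + h n * (A ^ k * w k n z)) := by
          refine (norm_sum_le _ _).trans (Finset.sum_le_sum fun k hk => ?_)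
          rw [norm_smul, Real.norm_of_nonneg (by positivity)]
          have h1 : ((k.factorial : ℝ)⁻¹ : ℝ) ≤ 1 :=
            inv_le_one_of_one_le₀ (by exact_mod_cast k.factorial_pos)
          calc ((k.factorial : ℝ)⁻¹ : ℝ) * ‖dirK k v (φ n) z - Setup.TT h a φ k 0 (x s) n z‖
              ≤ 1 * ‖dirK k v (φ n) z - Setup.TT h a φ k 0 (x s) n z‖ := by gcongr
            _ ≤ _ := by rw [one_mul]; exact hterm k hk
      _ = η * (∑ j ∈ Finset.Icc (-(N : ℤ)) N, ‖E h a φ j n z‖)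
          + h n * ∑ k ∈ Finset.range (N + 1), A ^ k * w k n z := by
          rw [Finset.sum_add_distrib, Finset.sum_const, Finset.card_range, ← Finset.mul_sum,
            nsmul_eq_mul, hη₁]
          push_cast
          field_simp
      _ ≤ η * ((∑ j ∈ Finset.Icc (-(N : ℤ)) N, ‖E h a φ j n z‖)
          + ∑ k ∈ Finset.range (N + 1), A ^ k * w k n z) := by
          have hw0 : 0 ≤ ∑ k ∈ Finset.range (N + 1), A ^ k * w k n z :=
            Finset.sum_nonneg fun k _ => mul_nonneg (by positivity) ((hw k).nonneg n z)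
          rw [mul_add]
          gcongr
  · rw [norm_smul, Real.norm_of_nonneg (by positivity)]
    gcongr

end Setup

end

end QE


end

section

/-!
The Taylor expansion of an eigenfunction at the scale of the wavelength, in `L⁴`.
-/

open Complex MeasureTheory Filter Topology Set
open scoped ContDiff

namespace QE

noncomputable section

variable {U : Set ℂ} {h : ℕ → ℝ} {a g : ℂ → ℂ} {φ : ℕ → ℂ → ℂ}

/-- the bound for the `L⁴` norm of the remainder -/
def remC (D C : ℝ) (N : ℕ) : ℝ := 8 * (D ^ (4 * (N + 1)) * ((2 * N + 3 : ℝ) ^ 4 * C ^ (N + 2))) + 1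

lemma remC_nonneg {D C : ℝ} (hD : 0 ≤ D) (hC : 0 ≤ C) (N : ℕ) : 0 ≤ remC D C N := by
  unfold remC; positivity

lemma tendsto_remC {D C : ℝ} (hD : 0 ≤ D) (hC : 0 ≤ C) :
    Tendsto (fun N : ℕ => ((N.factorial : ℝ)⁻¹) ^ 4 * remC D C N) atTop (𝓝 0) := by
  have h1 : Tendsto (fun N : ℕ => (8 * 81 * D ^ 4 * C ^ 2) * ((16 * D ^ 4 * C) ^ N / N.factorial)
      + 1 ^ N / (N.factorial : ℝ)) atTop (𝓝 0) := by
    have := ((FloorSemiring.tendsto_pow_div_factorial_atTop (16 * D ^ 4 * C)).const_mul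
      (8 * 81 * D ^ 4 * C ^ 2)).add (FloorSemiring.tendsto_pow_div_factorial_atTop (1 : ℝ))
    simpa using this
  refine squeeze_zero (fun N => mul_nonneg (by positivity) (remC_nonneg hD hC N)) (fun N => ?_) h1
  have hN : (0 : ℝ) < N.factorial := by exact_mod_cast N.factorial_pos
  have hN1 : ((N.factorial : ℝ)⁻¹) ≤ 1 :=
    inv_le_one_of_one_le₀ (by exact_mod_cast N.factorial_pos)
  have hN0 : 0 ≤ ((N.factorial : ℝ)⁻¹) := by positivity
  have h2 : ((N.factorial : ℝ)⁻¹) ^ 4 ≤ ((N.factorial : ℝ)⁻¹) := by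
    calc ((N.factorial : ℝ)⁻¹) ^ 4 = ((N.factorial : ℝ)⁻¹) ^ 3 * ((N.factorial : ℝ)⁻¹) := by ring
      _ ≤ 1 ^ 3 * ((N.factorial : ℝ)⁻¹) := by gcongr
      _ = _ := by ring
  have h3 : (2 * N + 3 : ℝ) ≤ 3 * 2 ^ N := by
    have : 2 * N + 3 ≤ 3 * 2 ^ N := by
      induction N with
      | zero => norm_num
      | succ N ih =>
        have ih' := ih (by exact_mod_cast N.factorial_pos)
          (inv_le_one_of_one_le₀ (by exact_mod_cast N.factorial_pos)) (by positivity) (by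
            have hM1 : ((N.factorial : ℝ)⁻¹) ≤ 1 :=
              inv_le_one_of_one_le₀ (by exact_mod_cast N.factorial_pos)
            calc ((N.factorial : ℝ)⁻¹) ^ 4 = ((N.factorial : ℝ)⁻¹) ^ 3 * ((N.factorial : ℝ)⁻¹) := by
                  ring
              _ ≤ 1 ^ 3 * ((N.factorial : ℝ)⁻¹) := by (clear * - hM1; gcongr)
              _ = _ := by ring)
        rw [pow_succ]
        have : 1 ≤ 2 ^ N := Nat.one_le_two_pow
        omega
    exact_mod_cast this
  have h4 : (2 * N + 3 : ℝ) ^ 4 ≤ 81 * 16 ^ N := by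
    calc (2 * N + 3 : ℝ) ^ 4 ≤ (3 * 2 ^ N) ^ 4 := by gcongr
      _ = 81 * (2 ^ N) ^ 4 := by ring
      _ = 81 * 16 ^ N := by rw [← pow_mul, mul_comm N 4, pow_mul]; norm_num
  calc ((N.factorial : ℝ)⁻¹) ^ 4 * remC D C N ≤ ((N.factorial : ℝ)⁻¹) * remC D C N := by
        have := remC_nonneg hD hC N
        (clear * - h2 this; gcongr)
    _ ≤ ((N.factorial : ℝ)⁻¹) * (8 * (D ^ (4 * (N + 1)) * ((81 * 16 ^ N) * C ^ (N + 2))) + 1) := by
        unfold remC; (clear * - h4 hC hD; gcongr)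
    _ = _ := by
        rw [one_pow]
        have e1 : D ^ (4 * (N + 1)) = D ^ 4 * (D ^ 4) ^ N := by rw [← pow_mul, ← pow_add]; ring_nf
        rw [e1]
        field_simp
        ring

namespace Setup

variable (S : Setup U g a h φ)

include S

lemma GG_cont {w : ℕ → ℂ → ℝ} (hw : RB U w) (D A : ℝ) (N n : ℕ) :
    ContinuousOn (GG h a φ D A w N n) U := by
  unfold GG
  exact (continuousOn_const.mul (continuousOn_finset_sum _ fun j _ =>
    ((S.tame_E j).smooth n).continuousOn.norm)).add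
    (continuousOn_const.mul (continuousOn_const.mul (hw.cont n)))

lemma GG_nonneg {w : ℕ → ℂ → ℝ} (hw : RB U w) {D A : ℝ} (hD : 0 ≤ D) (hA : 0 ≤ A) (N n : ℕ)
    (z : ℂ) : 0 ≤ GG h a φ D A w N n z := by
  unfold GG
  have h1 := (S.hpos n).le
  have h2 := hw.nonneg n z
  have h3 : 0 ≤ ∑ j ∈ Finset.Icc (-((N + 1 : ℕ) : ℤ)) (N + 1 : ℕ), ‖E h a φ j n z‖ :=
    Finset.sum_nonneg fun _ _ => norm_nonneg _
  (clear * - hD h1 hA h2; positivity)

lemma GG_bdd {w : ℕ → ℂ → ℝ} (hw : RB U w) {D A C : ℝ} (hD : 0 ≤ D) (hA : 0 ≤ A) (hC : 1 ≤ C)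
    {K₁ : Set ℂ} (hK₁ : IsCompact K₁) (hK₁U : K₁ ⊆ U)
    (hgr : ∀ m : ℤ, ∀ᶠ n in atTop, ∫ z in K₁, ‖E h a φ m n z‖ ^ 4 ≤ C ^ (m.natAbs + 1)) (N : ℕ) :
    ∀ᶠ n in atTop, ∫ z in K₁, GG h a φ D A w N n z ^ 4 ≤ remC D C N := by
  obtain ⟨M, hM⟩ := hw.bdd K₁ hK₁ hK₁U
  have h1 : ∀ᶠ n in atTop, ∀ j ∈ Finset.Icc (-((N + 1 : ℕ) : ℤ)) (N + 1 : ℕ),
      ∫ z in K₁, ‖E h a φ j n z‖ ^ 4 ≤ C ^ (N + 2) := by
    rw [Filter.eventually_all_finset]
    intro j hj
    filter_upwards [hgr j] with n hn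
    refine hn.trans (pow_le_pow_right₀ hC ?_)
    rw [Finset.mem_Icc] at hj
    omega
  have h2 : Tendsto (fun n => 8 * (h n ^ 4 * ((A ^ (N + 1)) ^ 4 * |M|))) atTop (𝓝 0) := by
    have := ((S.hlim.pow 4).mul_const ((A ^ (N + 1)) ^ 4 * |M|)).const_mul 8
    simpa using this
  filter_upwards [h1, hM, h2.eventually_lt_const one_pos] with n n1 n2 n3
  have hh := (S.hpos n).le
  set s := Finset.Icc (-((N + 1 : ℕ) : ℤ)) (N + 1 : ℕ) with hs
  have hcard : (s.card : ℝ) = 2 * N + 3 := by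
    rw [hs, Int.card_Icc]
    have : (((N + 1 : ℕ) : ℤ) + 1 - -((N + 1 : ℕ) : ℤ)).toNat = 2 * N + 3 := by omega
    rw [this]; push_cast; ring
  have iE : ∀ j, IntegrableOn (fun z => ‖E h a φ j n z‖ ^ 4) K₁ := fun j =>
    (S.tame_E j).smooth.intOn hK₁ hK₁U 4 n
  have hp0 : ∀ z, 0 ≤ D ^ (N + 1) * ∑ j ∈ s, ‖E h a φ j n z‖ := fun z =>
    mul_nonneg (by positivity) (Finset.sum_nonneg fun _ _ => norm_nonneg _)
  have hq0 : ∀ z, 0 ≤ h n * (A ^ (N + 1) * w n z) := fun z =>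
    mul_nonneg hh (mul_nonneg (by positivity) (hw.nonneg n z))
  have cp : ContinuousOn (fun z => D ^ (N + 1) * ∑ j ∈ s, ‖E h a φ j n z‖) K₁ :=
    (continuousOn_const.mul (continuousOn_finset_sum _ fun j _ =>
      ((S.tame_E j).smooth n).continuousOn.norm)).mono hK₁U
  have cq : ContinuousOn (fun z => h n * (A ^ (N + 1) * w n z)) K₁ :=
    (continuousOn_const.mul (continuousOn_const.mul (hw.cont n))).mono hK₁U
  have e1 := four_add_int (K := K₁) hp0 hq0 ((cp.pow 4).integrableOn_compact hK₁)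
    ((cq.pow 4).integrableOn_compact hK₁)
  have e2 : ∫ z in K₁, (D ^ (N + 1) * ∑ j ∈ s, ‖E h a φ j n z‖) ^ 4
      ≤ D ^ (4 * (N + 1)) * ((2 * N + 3 : ℝ) ^ 4 * C ^ (N + 2)) := by
    calc ∫ z in K₁, (D ^ (N + 1) * ∑ j ∈ s, ‖E h a φ j n z‖) ^ 4
        ≤ ∫ z in K₁, D ^ (4 * (N + 1)) * ((s.card : ℝ) ^ 3 * ∑ j ∈ s, ‖E h a φ j n z‖ ^ 4) := by
          refine integral_mono_of_nonneg (Eventually.of_forall fun z =>
            pow_nonneg (hp0 z) 4) (((integrable_finset_sum s fun j _ => iE j).const_mul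
              _).const_mul _) (Eventually.of_forall fun z => ?_)
          beta_reduce
          rw [mul_pow, ← pow_mul, mul_comm (N + 1) 4]
          gcongr
          exact sum_pow4 s fun _ _ => norm_nonneg _
      _ = D ^ (4 * (N + 1)) * ((s.card : ℝ) ^ 3 * ∑ j ∈ s, ∫ z in K₁, ‖E h a φ j n z‖ ^ 4) := by
          rw [integral_const_mul, integral_const_mul, integral_finset_sum s fun j _ => iE j]
      _ ≤ D ^ (4 * (N + 1)) * ((s.card : ℝ) ^ 3 * ∑ j ∈ s, C ^ (N + 2)) := by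
          gcongr with j hj
          exact n1 j hj
      _ = _ := by
          rw [Finset.sum_const, nsmul_eq_mul, hcard]; ring
  have e3 : 8 * ∫ z in K₁, (h n * (A ^ (N + 1) * w n z)) ^ 4 ≤ 1 := by
    have e4 : ∫ z in K₁, (h n * (A ^ (N + 1) * w n z)) ^ 4
        = h n ^ 4 * ((A ^ (N + 1)) ^ 4 * ∫ z in K₁, w n z ^ 4) := by
      rw [← integral_const_mul, ← integral_const_mul]
      congr 1; funext z; ring
    rw [e4]
    refine le_trans ?_ n3.le
    have := n2.trans (le_abs_self M)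
    (clear * - this; gcongr)
  unfold GG remC
  calc _ ≤ _ := e1
    _ ≤ _ := by linarith only [e2, e3]

/-- **Taylor's formula at the scale of the wavelength, in `L⁴`.** -/
theorem taylor {K : Set ℂ} (hK : IsCompact K) {δ : ℝ} (hδ : 0 < δ)
    (hδU : Metric.cthickening (2 * δ) K ⊆ U) {r : ℝ} (hr : 0 ≤ r) {ε : ℝ} (hε : 0 < ε) :
    ∃ N₀ : ℕ, ∀ N ≥ N₀, ∀ (Θ : Type) (x : Θ → ℂ) (ξ : ℕ → Θ → ℂ → ℂ), (∀ s, ‖x s‖ ≤ r) →
      (∀ ε > 0, ∀ᶠ n in atTop, ∀ s, ∀ z ∈ K, ‖ξ n s z - x s‖ ≤ ε) →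
      (∀ᶠ n in atTop, ∀ s, ContinuousOn (ξ n s) K) →
      (∀ᶠ n in atTop, ∀ s, ∀ z ∈ K, ∀ w ∈ K,
        ‖h n * a z * ξ n s z - h n * a w * ξ n s w‖ ≤ (1 / 2) * ‖z - w‖) →
      ∀ᶠ n in atTop, ∀ s, ∫ z in K, ‖φ n (z + h n * a z * ξ n s z) - Phi h a φ N (x s) n z‖ ^ 4
        ≤ ε := by
  set K₁ := Metric.cthickening δ K with hK₁def
  have hK₁ : IsCompact K₁ := hK.cthickening
  have hKK₁ : K ⊆ K₁ := Metric.self_subset_cthickening K
  have hK₁2 : Metric.cthickening δ K₁ ⊆ U := by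
    refine (Metric.cthickening_cthickening_subset hδ.le hδ.le K).trans ?_
    rw [← two_mul]; exact hδU
  have hK₁U : K₁ ⊆ U := (Metric.self_subset_cthickening K₁).trans hK₁2
  obtain ⟨C, hC1, hgr⟩ := S.growth hK₁ hδ hK₁2
  obtain ⟨A₀, hA₀⟩ := hK₁.exists_bound_of_continuousOn (S.ha.continuousOn.mono hK₁U)
  obtain ⟨B₀, hB₀⟩ := hK₁.exists_bound_of_continuousOn ((S.ha.mul S.hg).continuousOn.mono hK₁U)
  set A := max A₀ 1 with hAdef
  set B := max B₀ 1 with hBdef
  have hA1 : 1 ≤ A := le_max_right _ _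
  have hB1 : 1 ≤ B := le_max_right _ _
  have hA : ∀ z ∈ K₁, ‖a z‖ ≤ A := fun z hz => (hA₀ z hz).trans (le_max_left _ _)
  have hB : ∀ z ∈ K₁, ‖a z * g z‖ ≤ B := fun z hz => (hB₀ z hz).trans (le_max_left _ _)
  set D := A * B * (r + 1) with hD
  have hD0 : 0 ≤ D := by positivity
  have hC0 : 0 ≤ C := by linarith
  obtain ⟨N₀, hN₀⟩ := eventually_atTop.1 ((tendsto_remC hD0 hC0).eventually_lt_const
    (show (0 : ℝ) < ε / 64 by positivity))
  refine ⟨N₀, fun N hN Θ x ξ hx hξ hξc hlip => ?_⟩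
  obtain ⟨P, hP, w, hw, hpt⟩ := S.point hK₁U hKK₁ hA1 hB1 hr hA hB N
  obtain ⟨M, hM⟩ := hP.bdd K hK (hKK₁.trans hK₁U)
  -- the choice of `η`
  set η : ℝ := min 1 (ε / (16 * (|M| + 1))) with hη
  have hη0 : 0 < η := by positivity
  have hη1 : η ≤ 1 := min_le_left _ _
  have hη4 : 8 * (η ^ 4 * |M|) ≤ ε / 2 := by
    have h1 : η ^ 4 ≤ η := by
      calc η ^ 4 = η ^ 3 * η := by ring
        _ ≤ 1 ^ 3 * η := by (clear * - hε hη1; gcongr)
        _ = η := by ring
    have h2 : η ≤ ε / (16 * (|M| + 1)) := min_le_right _ _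
    have h3 : 0 ≤ |M| := abs_nonneg M
    calc 8 * (η ^ 4 * |M|) ≤ 8 * (ε / (16 * (|M| + 1)) * (|M| + 1)) := by
          gcongr
          · exact h1.trans h2
          · linarith
      _ = ε / 2 := by field_simp; ring
  -- the displacements stay in `K₁`
  have hseg : ∀ᶠ n in atTop, ∀ s, ∀ z ∈ K, ∀ t ∈ Icc (0 : ℝ) 1,
      z + t • ((h n : ℂ) * a z * ξ n s z) ∈ K₁ := by
    have hl : Tendsto (fun n => h n * (A * (r + 1))) atTop (𝓝 0) := by
      have := S.hlim.mul_const (A * (r + 1))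
      simpa using this
    filter_upwards [hξ 1 one_pos, hl.eventually_lt_const hδ] with n hn1 hn2 s z hz t ht
    refine Metric.mem_cthickening_of_dist_le _ z δ K hz ?_
    rw [dist_eq_norm, add_sub_cancel_left, norm_smul, norm_mul, norm_mul, Complex.norm_real,
      Real.norm_of_nonneg (S.hpos n).le, Real.norm_of_nonneg ht.1]
    have h3 : ‖ξ n s z‖ ≤ r + 1 := by
      have h4 := norm_add_le (ξ n s z - x s) (x s)
      rw [sub_add_cancel] at h4
      have := hx s
      have := hn1 s z hz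
      linarith
    have hh := (S.hpos n).le
    calc t * (h n * ‖a z‖ * ‖ξ n s z‖) ≤ 1 * (h n * A * (r + 1)) := by
          have := hA z (hKK₁ hz)
          have := ht.2
          gcongr
      _ ≤ δ := by rw [one_mul, mul_assoc]; exact hn2.le
  have hpt' := hpt η hη0 Θ x ξ hx hξ hseg
  have hG := S.GG_bdd hw hD0 (zero_le_one.trans hA1) hC1 hK₁ hK₁U hgr N
  filter_upwards [hpt', hG, hseg, hξc, hlip, hM] with n n1 n2 n3 n4 n5 n6 s
  set v : ℂ → ℂ := fun z => (h n : ℂ) * a z * ξ n s z with hv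
  have hvc : ContinuousOn v K := (continuousOn_const.mul (S.ha.continuousOn.mono
    (hKK₁.trans hK₁U))).mul (n4 s)
  obtain ⟨j1, j2⟩ := rem_bound hK hK₁ hvc (n5 s) (n3 s)
    (G := GG h a φ D A w N n) ((S.GG_cont hw D A N n).mono hK₁U)
    (fun z _ => S.GG_nonneg hw hD0 (zero_le_one.trans hA1) N n z)
  set R : ℂ → ℝ := fun z => ∫ t in (0 : ℝ)..1, GG h a φ D A w N n (z + t • v z) with hR
  have hR0 : ∀ z, 0 ≤ R z := fun z => intervalIntegral.integral_nonneg zero_le_one fun t _ =>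
    S.GG_nonneg hw hD0 (zero_le_one.trans hA1) N n _
  set c : ℝ := ((N.factorial : ℝ)⁻¹ : ℝ) with hc
  have hc0 : 0 ≤ c := by positivity
  have hPi := (hP.int hK (hKK₁.trans hK₁U) n)
  have i1 : IntegrableOn (fun z => (η * P n z) ^ 4) K := by
    simp only [mul_pow]; exact hPi.const_mul _
  have i2 : IntegrableOn (fun z => (c * R z) ^ 4) K := by
    simp only [mul_pow]; exact j1.const_mul _
  have hP0 := hP.nonneg n
  calc ∫ z in K, ‖φ n (z + h n * a z * ξ n s z) - Phi h a φ N (x s) n z‖ ^ 4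
      ≤ ∫ z in K, 8 * ((η * P n z) ^ 4 + (c * R z) ^ 4) := by
        refine integral_mono_of_nonneg (Eventually.of_forall fun z => by positivity)
          ((i1.add i2).const_mul 8) ?_
        refine (ae_restrict_iff' hK.measurableSet).2 (Eventually.of_forall fun z hz => ?_)
        have h0 := n1 s z hz
        calc ‖φ n (z + h n * a z * ξ n s z) - Phi h a φ N (x s) n z‖ ^ 4
            ≤ (η * P n z + c * R z) ^ 4 := pow_le_pow_left₀ (norm_nonneg _) h0 4
          _ ≤ _ := four_add _ _ (mul_nonneg hη0.le (hP0 z)) (mul_nonneg hc0 (hR0 z))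
    _ = 8 * (η ^ 4 * (∫ z in K, P n z ^ 4) + c ^ 4 * ∫ z in K, R z ^ 4) := by
        rw [integral_const_mul, integral_add i1 i2]
        simp only [mul_pow]
        rw [integral_const_mul, integral_const_mul]
    _ ≤ 8 * (η ^ 4 * |M| + c ^ 4 * (4 * remC D C N)) := by
        gcongr
        · exact n6.trans (le_abs_self M)
        · exact j2.trans (by gcongr)
    _ = 8 * (η ^ 4 * |M|) + 32 * (c ^ 4 * remC D C N) := by ring
    _ ≤ ε / 2 + 32 * (ε / 64) := by
        have := (hN₀ N hN).le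
        (clear * - hη4 this; gcongr)
    _ = ε := by ring

end Setup

end

end QE


end

section

/-!
Products of four functions which are close in `L⁴`.
-/

open Complex MeasureTheory Filter Topology Set
open scoped ContDiff

namespace QE

noncomputable section

/-- the weighted inequality between the arithmetic and the geometric mean -/
lemma amgm4 {a b c d μ : ℝ} (ha : 0 ≤ a) (hb : 0 ≤ b) (hc : 0 ≤ c) (hd : 0 ≤ d) (hμ : 0 < μ) :
    a * b * c * d ≤ (μ⁻¹) ^ 3 * a ^ 4 + μ * (b ^ 4 + c ^ 4 + d ^ 4) := by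
  -- with `λ = √√μ`
  set l := Real.sqrt (Real.sqrt μ) with hl
  have hl0 : 0 < l := Real.sqrt_pos.2 (Real.sqrt_pos.2 hμ)
  have hl4 : l ^ 4 = μ := by
    rw [hl, show (4 : ℕ) = 2 * 2 from rfl, pow_mul, Real.sq_sqrt (Real.sqrt_nonneg _),
      Real.sq_sqrt hμ.le]
  have key : ∀ x y z w : ℝ, x * y * z * w ≤ (x ^ 4 + y ^ 4 + z ^ 4 + w ^ 4) := by
    intro x y z w
    linarith only [sq_nonneg (x * y - z * w), sq_nonneg (x ^ 2 - y ^ 2), sq_nonneg (z ^ 2 - w ^ 2), sq_nonneg (x ^ 2), sq_nonneg (y ^ 2), sq_nonneg (z ^ 2), sq_nonneg (w ^ 2)]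
  have h1 := key (a * (l⁻¹) ^ 3) (b * l) (c * l) (d * l)
  have e1 : a * (l⁻¹) ^ 3 * (b * l) * (c * l) * (d * l) = a * b * c * d := by
    field_simp
  have e2 : (a * (l⁻¹) ^ 3) ^ 4 = (μ⁻¹) ^ 3 * a ^ 4 := by
    rw [← hl4]; field_simp
  have e3 : (b * l) ^ 4 = μ * b ^ 4 := by rw [← hl4]; ring
  have e4 : (c * l) ^ 4 = μ * c ^ 4 := by rw [← hl4]; ring
  have e5 : (d * l) ^ 4 = μ * d ^ 4 := by rw [← hl4]; ring
  rw [e1, e2, e3, e4, e5] at h1
  linarith only [h1]

lemma tele4 (F1 F2 F3 F4 G1 G2 G3 G4 : ℂ) {μ : ℝ} (hμ : 0 < μ) :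
    ‖F1 * F2 * F3 * F4 - G1 * G2 * G3 * G4‖ ≤
      (μ⁻¹) ^ 3 * (‖F1 - G1‖ ^ 4 + ‖F2 - G2‖ ^ 4 + ‖F3 - G3‖ ^ 4 + ‖F4 - G4‖ ^ 4)
      + 3 * μ * (‖F1‖ ^ 4 + ‖F2‖ ^ 4 + ‖F3‖ ^ 4 + ‖F4‖ ^ 4
        + (‖G1‖ ^ 4 + ‖G2‖ ^ 4 + ‖G3‖ ^ 4 + ‖G4‖ ^ 4)) := by
  have e : F1 * F2 * F3 * F4 - G1 * G2 * G3 * G4
      = (F1 - G1) * F2 * F3 * F4 + (F2 - G2) * G1 * F3 * F4 + (F3 - G3) * G1 * G2 * F4
        + (F4 - G4) * G1 * G2 * G3 := by ring
  have n : ∀ x y z w : ℂ, ‖x * y * z * w‖ ≤ (μ⁻¹) ^ 3 * ‖x‖ ^ 4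
      + μ * (‖y‖ ^ 4 + ‖z‖ ^ 4 + ‖w‖ ^ 4) := by
    intro x y z w
    rw [norm_mul, norm_mul, norm_mul]
    exact amgm4 (norm_nonneg _) (norm_nonneg _) (norm_nonneg _) (norm_nonneg _) hμ
  have t1 := n (F1 - G1) F2 F3 F4
  have t2 := n (F2 - G2) G1 F3 F4
  have t3 := n (F3 - G3) G1 G2 F4
  have t4 := n (F4 - G4) G1 G2 G3
  have t5 := norm_add_le ((F1 - G1) * F2 * F3 * F4 + (F2 - G2) * G1 * F3 * F4
    + (F3 - G3) * G1 * G2 * F4) ((F4 - G4) * G1 * G2 * G3)
  have t6 := norm_add_le ((F1 - G1) * F2 * F3 * F4 + (F2 - G2) * G1 * F3 * F4)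
    ((F3 - G3) * G1 * G2 * F4)
  have t7 := norm_add_le ((F1 - G1) * F2 * F3 * F4) ((F2 - G2) * G1 * F3 * F4)
  rw [e]
  have p : ∀ x : ℂ, 0 ≤ μ * ‖x‖ ^ 4 := fun x => by positivity
  linarith [p F1, p F2, p F3, p F4, p G1, p G2, p G3, p G4]

/-- **Products of four functions which are close in `L⁴`.** -/
theorem prod4_close {K : Set ℂ} (hK : IsCompact K) {M B : ℝ} (hM : 0 ≤ M) (hB : 0 ≤ B) {ε : ℝ}
    (hε : 0 < ε) : ∃ ε₁ > 0, ∀ (F G : Fin 4 → ℂ → ℂ), (∀ i, ContinuousOn (F i) K) →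
      (∀ i, ContinuousOn (G i) K) → (∀ i, ∫ z in K, ‖F i z‖ ^ 4 ≤ B) →
      (∀ i, ∫ z in K, ‖F i z - G i z‖ ^ 4 ≤ ε₁) → ∀ ζ : ℂ → ℂ, ContinuousOn ζ K →
      (∀ z ∈ K, ‖ζ z‖ ≤ M) →
      ‖(∫ z in K, ζ z * (F 0 z * F 1 z * F 2 z * F 3 z))
        - ∫ z in K, ζ z * (G 0 z * G 1 z * G 2 z * G 3 z)‖ ≤ ε := by
  -- the choice of constants
  set B' : ℝ := 8 * (B + 1) with hB'
  have hB'0 : 0 < B' := by positivity
  set μ : ℝ := ε / (48 * (M + 1) * B') with hμ
  have hμ0 : 0 < μ := by positivity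
  set ε₁ : ℝ := min 1 (ε * μ ^ 3 / (8 * (M + 1))) with hε₁
  have hε₁0 : 0 < ε₁ := by positivity
  refine ⟨ε₁, hε₁0, fun F G hF hG hFB hFG ζ hζ hζM => ?_⟩
  have iF : ∀ i, IntegrableOn (fun z => ‖F i z‖ ^ 4) K := fun i =>
    ((hF i).norm.pow 4).integrableOn_compact hK
  have iG : ∀ i, IntegrableOn (fun z => ‖G i z‖ ^ 4) K := fun i =>
    ((hG i).norm.pow 4).integrableOn_compact hK
  have iFG : ∀ i, IntegrableOn (fun z => ‖F i z - G i z‖ ^ 4) K := fun i =>
    (((hF i).sub (hG i)).norm.pow 4).integrableOn_compact hK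
  have hGB : ∀ i, ∫ z in K, ‖G i z‖ ^ 4 ≤ B' := by
    intro i
    calc ∫ z in K, ‖G i z‖ ^ 4 ≤ ∫ z in K, (‖F i z‖ + ‖F i z - G i z‖) ^ 4 := by
          refine integral_mono_of_nonneg (Eventually.of_forall fun z => by positivity)
            (((hF i).norm.add ((hF i).sub (hG i)).norm).pow 4 |>.integrableOn_compact hK)
            (Eventually.of_forall fun z => ?_)
          have h1 : ‖G i z‖ ≤ ‖F i z‖ + ‖F i z - G i z‖ := by
            have := norm_sub_le (F i z) (F i z - G i z)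
            rwa [sub_sub_cancel] at this
          exact pow_le_pow_left₀ (norm_nonneg _) h1 4
      _ ≤ 8 * ((∫ z in K, ‖F i z‖ ^ 4) + ∫ z in K, ‖F i z - G i z‖ ^ 4) :=
          four_add_int (fun z => norm_nonneg _) (fun z => norm_nonneg _) (iF i) (iFG i)
      _ ≤ 8 * (B + 1) := by
          have := hFB i
          have := (hFG i).trans (min_le_left _ _)
          linarith
  have hFB' : ∀ i, ∫ z in K, ‖F i z‖ ^ 4 ≤ B' := fun i => (hFB i).trans (by rw [hB']; linarith)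
  have c1 : ContinuousOn (fun z => ζ z * (F 0 z * F 1 z * F 2 z * F 3 z)) K :=
    hζ.mul ((((hF 0).mul (hF 1)).mul (hF 2)).mul (hF 3))
  have c2 : ContinuousOn (fun z => ζ z * (G 0 z * G 1 z * G 2 z * G 3 z)) K :=
    hζ.mul ((((hG 0).mul (hG 1)).mul (hG 2)).mul (hG 3))
  rw [← integral_sub (c1.integrableOn_compact hK) (c2.integrableOn_compact hK)]
  have sFG : Integrable (fun z => ∑ i, ‖F i z - G i z‖ ^ 4) (volume.restrict K) :=
    integrable_finset_sum _ fun i _ => iFG i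
  have sF : Integrable (fun z => ∑ i, ‖F i z‖ ^ 4) (volume.restrict K) :=
    integrable_finset_sum _ fun i _ => iF i
  have sG : Integrable (fun z => ∑ i, ‖G i z‖ ^ 4) (volume.restrict K) :=
    integrable_finset_sum _ fun i _ => iG i
  have sFG' : Integrable (fun z => (∑ i, ‖F i z‖ ^ 4) + ∑ i, ‖G i z‖ ^ 4) (volume.restrict K) :=
    sF.add sG
  calc ‖∫ z in K, (ζ z * (F 0 z * F 1 z * F 2 z * F 3 z)
        - ζ z * (G 0 z * G 1 z * G 2 z * G 3 z))‖
      ≤ ∫ z in K, M * ((μ⁻¹) ^ 3 * (∑ i, ‖F i z - G i z‖ ^ 4)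
          + 3 * μ * ((∑ i, ‖F i z‖ ^ 4) + ∑ i, ‖G i z‖ ^ 4)) := by
        refine norm_integral_le_of_norm_le (((sFG.const_mul _).add
          (sFG'.const_mul _)).const_mul M) ?_
        refine (ae_restrict_iff' hK.measurableSet).2 (Eventually.of_forall fun z hz => ?_)
        rw [← mul_sub, norm_mul]
        have h1 := tele4 (F 0 z) (F 1 z) (F 2 z) (F 3 z) (G 0 z) (G 1 z) (G 2 z) (G 3 z) hμ0
        rw [Fin.sum_univ_four, Fin.sum_univ_four, Fin.sum_univ_four]
        exact mul_le_mul (hζM z hz) h1 (norm_nonneg _) hM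
    _ = M * ((μ⁻¹) ^ 3 * (∑ i, ∫ z in K, ‖F i z - G i z‖ ^ 4)
          + 3 * μ * ((∑ i, ∫ z in K, ‖F i z‖ ^ 4) + ∑ i, ∫ z in K, ‖G i z‖ ^ 4)) := by
        rw [integral_const_mul, integral_add (sFG.const_mul _) (sFG'.const_mul _),
          integral_const_mul, integral_const_mul, integral_add sF sG,
          integral_finset_sum _ fun i _ => iFG i, integral_finset_sum _ fun i _ => iF i,
          integral_finset_sum _ fun i _ => iG i]
    _ ≤ M * ((μ⁻¹) ^ 3 * (∑ _i : Fin 4, ε₁) + 3 * μ * ((∑ _i : Fin 4, B') + ∑ _i : Fin 4, B')) := by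
        gcongr with i _ i _ i _
        · exact hFG i
        · exact hFB' i
        · exact hGB i
    _ = M * (4 * (μ⁻¹) ^ 3 * ε₁) + M * (24 * μ * B') := by
        simp only [Finset.sum_const, Finset.card_univ, Fintype.card_fin, nsmul_eq_mul]
        push_cast
        ring
    _ ≤ ε / 2 + ε / 2 := by
        have h1 : ε₁ ≤ ε * μ ^ 3 / (8 * (M + 1)) := min_le_right _ _
        have hM1 : 0 < M + 1 := by linarith
        refine add_le_add ?_ ?_
        · calc M * (4 * (μ⁻¹) ^ 3 * ε₁) ≤ (M + 1) * (4 * (μ⁻¹) ^ 3 * (ε * μ ^ 3 / (8 * (M + 1)))) := by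
                gcongr
                linarith
            _ = ε / 2 := by field_simp; ring
        · calc M * (24 * μ * B') ≤ (M + 1) * (24 * μ * B') := by
                gcongr
                linarith
            _ = ε / 2 := by rw [hμ]; field_simp; ring
    _ = ε := by ring

end

end QE


end

section

/-!
The local theorem for sequences which are bounded in `L⁴`.
-/

open Complex MeasureTheory Filter Topology
open scoped ContDiff

namespace QE

noncomputable section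

variable {U : Set ℂ} {h : ℕ → ℝ}

theorem ellProp (hU : IsOpen U) (hh : ∀ n, 0 < h n) (hh0 : Tendsto h atTop (𝓝 0)) : EllProp U h :=
  fun _ hv h1 h2 => planck_elliptic hU hh hh0 hv h1 h2

/-- the weight `a = g^{-1/2}` -/
def wt (g : ℂ → ℝ) (z : ℂ) : ℂ := (((Real.sqrt (g z))⁻¹ : ℝ) : ℂ)

theorem setup_of_local {g : ℂ → ℝ} {φ : ℕ → ℂ → ℂ} (hU : IsOpen U) (hg : ContDiffOn ℝ ∞ g U)
    (hgpos : ∀ z ∈ U, 0 < g z) (H : LocalQE U g h φ) (hb : LBdd 4 U φ) :
    Setup U (fun z => (g z : ℂ)) (wt g) h φ := by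
  have hgC : ContDiffOn ℝ ∞ (fun z => (g z : ℂ)) U := ofRealCLM.contDiff.comp_contDiffOn hg
  refine ⟨hU, H.hpos, H.hlim, ?_, hgC, fun z _ => conj_ofReal _, ?_, ?_, H.real, H.eig⟩
  · have h1 : ContDiffOn ℝ ∞ (fun z => (Real.sqrt (g z))⁻¹) U :=
      (hg.sqrt fun z hz => (hgpos z hz).ne').inv fun z hz => (Real.sqrt_pos.2 (hgpos z hz)).ne'
    exact ofRealCLM.contDiff.comp_contDiffOn h1
  · intro z hz
    have h0 := hgpos z hz
    have h1 : (Real.sqrt (g z)) ^ 2 = g z := Real.sq_sqrt h0.le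
    have h2 : (Real.sqrt (g z))⁻¹ ^ 2 * g z = 1 := by
      rw [inv_pow, h1, inv_mul_cancel₀ h0.ne']
    unfold wt
    exact_mod_cast h2
  · refine tame_of_eigen hU H.hlim (ellProp hU H.hpos H.hlim) H.smooth hb
      (b := fun z => -(1 / 4) * (g z : ℂ)) (contDiffOn_const.mul hgC) fun n z hz => ?_
    have := H.eig n z hz
    unfold hLap
    linear_combination (1 / 4) * this

/-- positivity of the sum over the pairs with the same weight -/
theorem sum_pairs_nonneg {ι : Type*} [DecidableEq ι] (S : Finset ι) (F : ι → ℂ) (w : ι → ℕ) :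
    0 ≤ (∑ p ∈ (S ×ˢ S).filter (fun p => w p.1 = w p.2), F p.1 * (starRingEnd ℂ) (F p.2)).re := by
  have e : ∑ p ∈ (S ×ˢ S).filter (fun p => w p.1 = w p.2), F p.1 * (starRingEnd ℂ) (F p.2)
      = ∑ s ∈ S.image w, (((normSq (∑ p ∈ S, if w p = s then F p else 0)) : ℝ) : ℂ) := by
    rw [Finset.sum_filter, Finset.sum_product]
    have e1 : ∀ s, (((normSq (∑ p ∈ S, if w p = s then F p else 0)) : ℝ) : ℂ)
        = ∑ p ∈ S, ∑ q ∈ S, if w p = s ∧ w q = s then F p * (starRingEnd ℂ) (F q) else 0 := by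
      intro s
      rw [← mul_conj, map_sum, Finset.sum_mul_sum]
      refine Finset.sum_congr rfl fun p _ => Finset.sum_congr rfl fun q _ => ?_
      by_cases h1 : w p = s <;> by_cases h2 : w q = s <;> simp [h1, h2]
    simp only [e1]
    have e2 : ∑ s ∈ S.image w, ∑ p ∈ S, ∑ q ∈ S,
          (if w p = s ∧ w q = s then F p * (starRingEnd ℂ) (F q) else 0)
        = ∑ p ∈ S, ∑ q ∈ S, ∑ s ∈ S.image w,
          (if w p = s ∧ w q = s then F p * (starRingEnd ℂ) (F q) else 0) := by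
      rw [Finset.sum_comm]
      exact Finset.sum_congr rfl fun p _ => Finset.sum_comm
    rw [e2]
    refine Finset.sum_congr rfl fun p hp => ?_
    refine Finset.sum_congr rfl fun q hq => ?_
    by_cases hpq : w p = w q
    · rw [if_pos hpq]
      rw [Finset.sum_eq_single (w p)]
      · rw [if_pos ⟨rfl, hpq.symm⟩]
      · intro s _ hs
        rw [if_neg]
        rintro ⟨h1, _⟩
        exact hs h1.symm
      · intro h1
        exact absurd (Finset.mem_image_of_mem w hp) h1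
    · rw [if_neg hpq]
      symm
      refine Finset.sum_eq_zero fun s _ => ?_
      rw [if_neg]
      rintro ⟨h1, h2⟩
      exact hpq (h1.trans h2.symm)
  rw [e, ← ofReal_sum, ofReal_re]
  exact Finset.sum_nonneg fun s _ => normSq_nonneg _

theorem local_bdd {g : ℂ → ℝ} {φ : ℕ → ℂ → ℂ} (hU : IsOpen U) (hg : ContDiffOn ℝ ∞ g U)
    (hgpos : ∀ z ∈ U, 0 < g z) (H : LocalQE U g h φ) (hb : LBdd 4 U φ) {ζ : ℂ → ℝ}
    (hζs : ContDiff ℝ ∞ ζ) (hζc : HasCompactSupport ζ) (hζU : tsupport ζ ⊆ U)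
    (hζ0 : ∀ z, 0 ≤ ζ z) {ε : ℝ} (hε : 0 < ε) :
    ∀ᶠ n in atTop, 3 * (∫ z, ζ z) - ε ≤ ∫ z, ζ z * (φ n z).re ^ 4 := by
  have S := setup_of_local hU hg hgpos H hb
  set a := wt g with hadef
  have hts : tsupport (fun z => (ζ z : ℂ)) ⊆ tsupport ζ := by
    refine closure_mono fun z hz => ?_
    simp only [Function.mem_support] at hz ⊢
    intro h0; exact hz (by simp [h0])
  have hT : Test U (fun z => (ζ z : ℂ)) :=
    ⟨ofRealCLM.contDiff.comp hζs, hζc.of_isClosed_subset (isClosed_tsupport _) hts,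
      hts.trans hζU⟩
  have hZ : ∫ z, ((ζ z : ℝ) : ℂ) = ((∫ z, ζ z : ℝ) : ℂ) := integral_ofReal
  have htwo : ∀ (j m : ℤ) (η : ℂ → ℂ), Test U η →
      Tendsto (fun n => ∫ z, η z * (E h a φ j n z * E h a φ m n z)) atTop
      (𝓝 (P j m * ∫ z, η z)) := fun j m η hη =>
    S.int_two H.mass (fun k hk η hη => S.mom_jet (H.mom k hk) hη) j m hη
  have hsm : ∀ j m, SmoothSeq U (fun n z => E h a φ j n z * E h a φ m n z) := fun j m =>
    (S.tame_E j).smooth.mul (S.tame_E m).smooth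
  have hbd : ∀ j m, LBdd 2 U (fun n z => E h a φ j n z * E h a φ m n z) := fun j m =>
    (S.tame_E j).bdd4.mul4 (S.tame_E j).smooth (S.tame_E m).bdd4 (S.tame_E m).smooth
  set X : ℕ → ℤ → ℤ → ℤ → ℤ → ℂ := fun n j m k l =>
    ∫ z, (ζ z : ℂ) * (E h a φ j n z * E h a φ m n z * (E h a φ k n z * E h a φ l n z)) with hX
  have hint : ∀ n j m k l, Integrable (fun z => (ζ z : ℂ)
      * (E h a φ j n z * E h a φ m n z * (E h a φ k n z * E h a φ l n z))) := fun n j m k l =>
    hT.int hU (((hsm j m).mul (hsm k l)) n)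
  have key := alg_final X (∫ z, ζ z) (integral_nonneg hζ0) ?_ ?_ ?_ ?_ ?_ ε hε
  · filter_upwards [key] with n hn
    refine hn.trans (le_of_eq ?_)
    have e1 : X n 0 0 0 0 = ((∫ z, ζ z * (φ n z).re ^ 4 : ℝ) : ℂ) := by
      have e0 : ((∫ z, ζ z * (φ n z).re ^ 4 : ℝ) : ℂ)
          = ∫ z, ((ζ z * (φ n z).re ^ 4 : ℝ) : ℂ) := integral_ofReal.symm
      rw [e0]
      have := hT.integral_congr (f := fun z => E h a φ 0 n z * E h a φ 0 n z
        * (E h a φ 0 n z * E h a φ 0 n z)) (f' := fun z => (((φ n z).re : ℝ) : ℂ) ^ 4)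
        (fun z hz => by
          have h1 : (((φ n z).re : ℝ) : ℂ) = φ n z := conj_eq_iff_re.1 (H.real n z hz)
          rw [h1]
          show φ n z * φ n z * (φ n z * φ n z) = φ n z ^ 4
          ring)
      rw [hX]
      refine Eq.trans this ?_
      refine MeasureTheory.integral_congr_ae (Filter.Eventually.of_forall fun z => ?_)
      push_cast
      ring
    rw [e1, ofReal_re]
  · intro n j m k l
    refine MeasureTheory.integral_congr_ae (Filter.Eventually.of_forall fun z => ?_)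
    beta_reduce; ring
  · intro n j m k l
    refine MeasureTheory.integral_congr_ae (Filter.Eventually.of_forall fun z => ?_)
    beta_reduce; ring
  · intro n j m k l
    refine MeasureTheory.integral_congr_ae (Filter.Eventually.of_forall fun z => ?_)
    beta_reduce; ring
  · -- the currents
    intro j m k l
    have hneg : ∀ (j m : ℤ) (η : ℂ → ℂ), Test U η →
      Tendsto (fun n => ∫ z, η z * (-(E h a φ j n z * E h a φ m n z))) atTop
      (𝓝 (-P j m * ∫ z, η z)) := by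
      intro j m η hη
      have := (htwo j m η hη).neg
      rw [neg_mul]
      refine this.congr fun n => ?_
      rw [← integral_neg]
      refine MeasureTheory.integral_congr_ae (Filter.Eventually.of_forall fun z => ?_)
      beta_reduce; ring
    have hd := div_curl hU (A := fun n z => E h a φ j n z * E h a φ m n z)
      (B := fun n z => -(E h a φ (j + 1) n z * E h a φ (m + 1) n z))
      (A' := fun n z => E h a φ k n z * E h a φ l n z)
      (B' := fun n z => -(E h a φ (k + 1) n z * E h a φ (l + 1) n z))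
      (hsm j m) (hsm (j + 1) (m + 1)).neg (hsm k l) (hsm (k + 1) (l + 1)).neg
      (hbd j m) (hbd (j + 1) (m + 1)).neg (hbd k l) (hbd (k + 1) (l + 1)).neg
      (S.div_bdd j m) (S.div_bdd k l) (htwo j m) (hneg (j + 1) (m + 1)) (htwo k l)
      (hneg (k + 1) (l + 1)) hT
    have e1 : (P (j + 1) (m + 1) * P k l - P j m * P (k + 1) (l + 1)) * ((∫ z, ζ z : ℝ) : ℂ)
        = (P j m * -P (k + 1) (l + 1) - -P (j + 1) (m + 1) * P k l) * ∫ z, ((ζ z : ℝ) : ℂ) := by
      rw [hZ]; ring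
    rw [e1]
    refine hd.congr fun n => ?_
    rw [hX]
    beta_reduce
    rw [← integral_sub (hint n _ _ _ _) (hint n _ _ _ _)]
    refine MeasureTheory.integral_congr_ae (Filter.Eventually.of_forall fun z => ?_)
    beta_reduce; ring
  · -- positivity
    intro M n
    rw [hX]
    beta_reduce
    rw [← integral_finsetSum _ (fun p _ => hint n _ _ _ _)]
    have hre : (∫ z, ∑ p ∈ quads M, (ζ z : ℂ) * (E h a φ (2 * p.1.1) n z * E h a φ (2 * p.1.2) n z
        * (E h a φ (-(2 * p.2.1)) n z * E h a φ (-(2 * p.2.2)) n z))).re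
        = ∫ z, (∑ p ∈ quads M, (ζ z : ℂ) * (E h a φ (2 * p.1.1) n z * E h a φ (2 * p.1.2) n z
        * (E h a φ (-(2 * p.2.1)) n z * E h a φ (-(2 * p.2.2)) n z))).re := by
      have hi : Integrable (fun z => ∑ p ∈ quads M, (ζ z : ℂ) * (E h a φ (2 * p.1.1) n z
        * E h a φ (2 * p.1.2) n z * (E h a φ (-(2 * p.2.1)) n z * E h a φ (-(2 * p.2.2)) n z))) :=
        integrable_finsetSum _ (fun p _ => hint n _ _ _ _)
      exact (integral_re hi).symm
    rw [hre]
    refine integral_nonneg fun z => ?_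
    by_cases hz : z ∈ U
    · have hcj : ∀ c : ℕ, E h a φ (-(2 * (c : ℤ))) n z
          = (starRingEnd ℂ) (E h a φ (2 * (c : ℤ)) n z) := by
        intro c
        have h1 := S.E_neg (2 * c) n z hz
        have h2 : -(((2 * c : ℕ) : ℤ)) = -(2 * (c : ℤ)) := by push_cast; ring
        rw [h2] at h1
        rw [h1, pow_mul, neg_one_sq, one_pow, one_mul]
        rfl
      have e2 : ∑ p ∈ quads M, (ζ z : ℂ) * (E h a φ (2 * p.1.1) n z * E h a φ (2 * p.1.2) n z
        * (E h a φ (-(2 * p.2.1)) n z * E h a φ (-(2 * p.2.2)) n z))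
          = (ζ z : ℂ) * ∑ p ∈ quads M, ((fun q : ℕ × ℕ => E h a φ (2 * q.1) n z
            * E h a φ (2 * q.2) n z) p.1) * (starRingEnd ℂ) ((fun q : ℕ × ℕ => E h a φ (2 * q.1) n z
            * E h a φ (2 * q.2) n z) p.2) := by
        rw [Finset.mul_sum]
        refine Finset.sum_congr rfl fun p _ => ?_
        rw [hcj, hcj, map_mul]
      show 0 ≤ (∑ p ∈ quads M, (ζ z : ℂ) * (E h a φ (2 * p.1.1) n z * E h a φ (2 * p.1.2) n z
        * (E h a φ (-(2 * p.2.1)) n z * E h a φ (-(2 * p.2.2)) n z))).re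
      rw [e2, re_ofReal_mul]
      exact mul_nonneg (hζ0 z) (sum_pairs_nonneg (Finset.range (M + 1) ×ˢ Finset.range (M + 1))
        (fun q : ℕ × ℕ => E h a φ (2 * q.1) n z * E h a φ (2 * q.2) n z)
        (fun q : ℕ × ℕ => q.1 + q.2))
    · have : ζ z = 0 := image_eq_zero_of_notMem_tsupport fun hh => hz (hζU hh)
      simp [this]

end

end QE


end

section

/-!
Reduction of the local theorem to sequences which are bounded in `L⁴` and to smooth test functions
(helper70).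
-/

open Complex MeasureTheory Filter Topology
open scoped ContDiff Manifold

namespace QE

noncomputable section

/-- the local theorem for sequences which are bounded in `L⁴` and smooth test functions -/
def BddIneq (g : ℂ → ℝ) : Prop :=
  ∀ V : Set ℂ, IsOpen V → ContDiffOn ℝ ∞ g V → (∀ z ∈ V, 0 < g z) →
    ∀ (h : ℕ → ℝ) (φ : ℕ → ℂ → ℂ), LocalQE V g h φ → LBdd 4 V φ →
      ∀ ζ : ℂ → ℝ, ContDiff ℝ ∞ ζ → HasCompactSupport ζ → tsupport ζ ⊆ V → (∀ z, 0 ≤ ζ z) →
        ∀ ε > 0, ∀ᶠ n in atTop, 3 * (∫ z, ζ z) - ε ≤ ∫ z, ζ z * (φ n z).re ^ 4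

theorem LocalQE.mono {U V : Set ℂ} {g : ℂ → ℝ} {h : ℕ → ℝ} {φ : ℕ → ℂ → ℂ}
    (H : LocalQE U g h φ) (hVU : V ⊆ U) : LocalQE V g h φ where
  hpos := H.hpos
  hlim := H.hlim
  smooth := fun n => (H.smooth n).mono hVU
  real := fun n z hz => H.real n z (hVU hz)
  eig := fun n z hz => H.eig n z (hVU hz)
  mass := fun ζ hζ => H.mass ζ (hζ.mono hVU)
  mom := fun k hk ζ hζ => H.mom k hk ζ (hζ.mono hVU)

theorem LocalQE.comp {U : Set ℂ} {g : ℂ → ℝ} {h : ℕ → ℝ} {φ : ℕ → ℂ → ℂ}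
    (H : LocalQE U g h φ) {s : ℕ → ℕ} (hs : StrictMono s) :
    LocalQE U g (fun n => h (s n)) (fun n => φ (s n)) where
  hpos := fun n => H.hpos _
  hlim := H.hlim.comp hs.tendsto_atTop
  smooth := fun n => H.smooth _
  real := fun n => H.real _
  eig := fun n => H.eig _
  mass := fun ζ hζ => (H.mass ζ hζ).comp hs.tendsto_atTop
  mom := fun k hk ζ hζ => (H.mom k hk ζ hζ).comp hs.tendsto_atTop

/-- a compactly supported continuous function times a function continuous on a neighbourhood of its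
support is continuous -/
theorem continuous_mul_of_tsupport {U : Set ℂ} (hU : IsOpen U) {ζ f : ℂ → ℝ} (hc : Continuous ζ)
    (hsub : tsupport ζ ⊆ U) (hf : ContinuousOn f U) : Continuous (fun z => ζ z * f z) := by
  rw [continuous_iff_continuousAt]
  intro z
  by_cases hz : z ∈ U
  · exact hc.continuousAt.mul (hf.continuousAt (hU.mem_nhds hz))
  · have hz' : z ∉ tsupport ζ := fun hh => hz (hsub hh)
    have : (fun z => ζ z * f z) =ᶠ[𝓝 z] fun _ => 0 := by
      have := notMem_tsupport_iff_eventuallyEq.mp hz'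
      filter_upwards [this] with w hw
      simp [hw]
    exact (continuousAt_const).congr this.symm

theorem integrable_mul_of_tsupport {U : Set ℂ} (hU : IsOpen U) {ζ f : ℂ → ℝ} (hc : Continuous ζ)
    (hs : HasCompactSupport ζ) (hsub : tsupport ζ ⊆ U) (hf : ContinuousOn f U) :
    Integrable (fun z => ζ z * f z) :=
  (continuous_mul_of_tsupport hU hc hsub hf).integrable_of_hasCompactSupport hs.mul_right

/-- a smooth function between two cut-off translates of a continuous function -/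
theorem exists_smooth_between {ζ : ℂ → ℝ} (hc : Continuous ζ) {δ : ℝ} (hδ : 0 < δ) :
    ∃ ψ : ℂ → ℝ, ContDiff ℝ ∞ ψ ∧ (∀ z, max (ζ z - 3 * δ) 0 ≤ ψ z) ∧
      (∀ z, ψ z ≤ max (ζ z - δ) 0) := by
  obtain ⟨ψ, hψ⟩ := exists_contMDiffMap_forall_mem_convex_of_local_const (n := (⊤ : ℕ∞)) 𝓘(ℝ, ℂ)
    (F := ℝ) (t := fun z => Set.Icc (max (ζ z - 3 * δ) 0) (max (ζ z - δ) 0))
    (fun z => convex_Icc _ _) (fun x => by
      refine ⟨max (ζ x - 2 * δ) 0, ?_⟩
      have h1 : ∀ᶠ y in 𝓝 x, dist (ζ y) (ζ x) < δ :=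
        hc.continuousAt.eventually (Metric.ball_mem_nhds (ζ x) hδ)
      filter_upwards [h1] with y hy
      rw [Real.dist_eq] at hy
      have h2 := abs_lt.mp hy
      constructor
      · exact max_le_max (by linarith [h2.2]) le_rfl
      · exact max_le_max (by linarith [h2.1]) le_rfl)
  exact ⟨ψ, ψ.contMDiff.contDiff, fun z => (hψ z).1, fun z => (hψ z).2⟩

/-- **Localisation** -/
theorem localize {g : ℂ → ℝ} (hB : BddIneq g) {U : Set ℂ} (hU : IsOpen U)
    (hg : ContDiffOn ℝ ∞ g U) (hpos : ∀ z ∈ U, 0 < g z) {h : ℕ → ℝ} {φ : ℕ → ℂ → ℂ}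
    (H : LocalQE U g h φ) {ζ : ℂ → ℝ} (hc : Continuous ζ) (hs : HasCompactSupport ζ)
    (hsub : tsupport ζ ⊆ U) (h0 : ∀ z, 0 ≤ ζ z) {ε : ℝ} (hε : 0 < ε) :
    ∀ᶠ n in atTop, 3 * (∫ z, ζ z) - ε ≤ ∫ z, ζ z * (φ n z).re ^ 4 := by
  by_contra hcon
  rw [Filter.not_eventually] at hcon
  obtain ⟨s, hsm, hsn⟩ := extraction_of_frequently_atTop hcon
  simp only [not_le] at hsn
  have Hs := H.comp hsm
  set V : Set ℂ := U ∩ {z | 0 < ζ z} with hV
  have hVo : IsOpen V := hU.inter (isOpen_lt continuous_const hc)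
  have hVU : V ⊆ U := Set.inter_subset_left
  have HV := Hs.mono hVU
  have hre : ∀ n, ContinuousOn (fun z => (φ (s n) z).re ^ 4) U := fun n =>
    (Complex.continuous_re.comp_continuousOn (Hs.smooth n).continuousOn).pow 4
  have hint : ∀ n, Integrable (fun z => ζ z * (φ (s n) z).re ^ 4) := fun n =>
    integrable_mul_of_tsupport hU hc hs hsub (hre n)
  have hnorm : ∀ n, ∀ z ∈ U, ‖φ (s n) z‖ ^ 4 = (φ (s n) z).re ^ 4 := by
    intro n z hz
    have h1 : φ (s n) z = ((φ (s n) z).re : ℂ) := by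
      have := Hs.real n z hz
      exact (Complex.conj_eq_iff_re.mp this).symm
    conv_lhs => rw [h1]
    rw [Complex.norm_real, Real.norm_eq_abs]
    exact Even.pow_abs (by decide) _
  -- boundedness in `L⁴`
  have hL : LBdd 4 V (fun n => φ (s n)) := by
    intro K hK hKV
    rcases K.eq_empty_or_nonempty with rfl | hne
    · exact ⟨0, Filter.Eventually.of_forall fun n => by simp⟩
    obtain ⟨z0, hz0, hmin⟩ := hK.exists_isMinOn hne hc.continuousOn
    have hc0 : 0 < ζ z0 := (hKV hz0).2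
    refine ⟨(ζ z0)⁻¹ * (3 * ∫ z, ζ z), Filter.Eventually.of_forall fun n => ?_⟩
    have hKU : K ⊆ U := hKV.trans hVU
    have i1 : IntegrableOn (fun z => (φ (s n) z).re ^ 4) K :=
      ((hre n).mono hKU).integrableOn_compact hK
    have e1 : ∫ z in K, ‖φ (s n) z‖ ^ 4 = ∫ z in K, (φ (s n) z).re ^ 4 :=
      setIntegral_congr_fun hK.measurableSet fun z hz => hnorm n z (hKU hz)
    have e2 : ζ z0 * ∫ z in K, (φ (s n) z).re ^ 4 ≤ ∫ z, ζ z * (φ (s n) z).re ^ 4 := by
      rw [← integral_const_mul]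
      calc ∫ z in K, ζ z0 * (φ (s n) z).re ^ 4 ≤ ∫ z in K, ζ z * (φ (s n) z).re ^ 4 := by
            refine setIntegral_mono_on (i1.const_mul _) (hint n).integrableOn hK.measurableSet
              fun z hz => ?_
            exact mul_le_mul_of_nonneg_right (hmin hz) (by positivity)
        _ ≤ ∫ z, ζ z * (φ (s n) z).re ^ 4 :=
            setIntegral_le_integral (hint n)
              (Filter.Eventually.of_forall fun z => mul_nonneg (h0 z) (by positivity))
    have e3 := hsn n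
    have e4 : ζ z0 * ∫ z in K, ‖φ (s n) z‖ ^ 4 ≤ 3 * ∫ z, ζ z := by rw [e1]; linarith
    calc ∫ z in K, ‖φ (s n) z‖ ^ 4 = (ζ z0)⁻¹ * (ζ z0 * ∫ z in K, ‖φ (s n) z‖ ^ 4) := by
          field_simp
      _ ≤ (ζ z0)⁻¹ * (3 * ∫ z, ζ z) := by gcongr
  -- the smooth test function
  have hζi : Integrable ζ := hc.integrable_of_hasCompactSupport hs
  set W : ℝ := (volume : Measure ℂ).real (tsupport ζ) with hW
  have hW0 : 0 ≤ W := measureReal_nonneg
  obtain ⟨δ, hδ, hδW⟩ : ∃ δ : ℝ, 0 < δ ∧ 9 * (δ * W) < ε / 2 := by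
    refine ⟨ε / (36 * (W + 1)), by positivity, ?_⟩
    have e : 9 * (ε / (36 * (W + 1)) * W) = ε / 4 * (W / (W + 1)) := by
      field_simp
      ring
    have h1 : W / (W + 1) ≤ 1 := (div_le_one (by positivity)).mpr (by linarith)
    rw [e]
    nlinarith only [hε, h1]
  obtain ⟨ψ, hψs, hψ1, hψ2⟩ := exists_smooth_between hc hδ
  have hψ0 : ∀ z, 0 ≤ ψ z := fun z => (le_max_right _ _).trans (hψ1 z)
  have hψζ : ∀ z, ψ z ≤ ζ z := fun z => (hψ2 z).trans (max_le (by linarith) (h0 z))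
  have hclosed : IsClosed {z | δ ≤ ζ z} := isClosed_le continuous_const hc
  have hψsupp : tsupport ψ ⊆ {z | δ ≤ ζ z} := by
    refine closure_minimal ?_ hclosed
    intro z hz
    by_contra hlt
    simp only [Set.mem_setOf_eq, not_le] at hlt
    apply hz
    have h1 := hψ2 z
    rw [max_eq_right (by linarith)] at h1
    exact le_antisymm h1 (hψ0 z)
  have hδsub : {z | δ ≤ ζ z} ⊆ tsupport ζ := by
    intro z hz
    apply subset_tsupport
    simp only [Set.mem_setOf_eq] at hz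
    simp only [Function.mem_support]
    linarith
  have hψV : tsupport ψ ⊆ V := fun z hz =>
    ⟨hsub (hδsub (hψsupp hz)), by
      have := hψsupp hz
      simp only [Set.mem_setOf_eq] at this ⊢
      linarith⟩
  have hψc : HasCompactSupport ψ :=
    hs.isCompact.of_isClosed_subset (isClosed_tsupport _) (hψsupp.trans hδsub)
  have hψi : Integrable ψ := hψs.continuous.integrable_of_hasCompactSupport hψc
  have hbig : (∫ z, ζ z) - 3 * (δ * W) ≤ ∫ z, ψ z := by
    have hfin : (volume : Measure ℂ) (tsupport ζ) ≠ ⊤ := hs.isCompact.measure_lt_top.ne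
    have hmeas : MeasurableSet (tsupport ζ) := (isClosed_tsupport ζ).measurableSet
    have hind : Integrable ((tsupport ζ).indicator fun _ => (3 * δ : ℝ)) :=
      (integrable_indicator_iff hmeas).mpr (integrableOn_const hfin)
    have hle : ∀ z, ζ z ≤ ψ z + (tsupport ζ).indicator (fun _ => (3 * δ : ℝ)) z := by
      intro z
      by_cases hz : z ∈ tsupport ζ
      · rw [Set.indicator_of_mem hz]
        have := (le_max_left (ζ z - 3 * δ) 0).trans (hψ1 z)
        linarith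
      · rw [Set.indicator_of_notMem hz, image_eq_zero_of_notMem_tsupport hz]
        linarith [hψ0 z]
    have h1 := integral_mono hζi (hψi.add hind) hle
    have h2 : ∫ z, (ψ z + (tsupport ζ).indicator (fun _ => (3 * δ : ℝ)) z)
        = (∫ z, ψ z) + 3 * (δ * W) := by
      rw [integral_add hψi hind, integral_indicator hmeas, setIntegral_const, smul_eq_mul]
      ring
    have h3 : ∫ z, (ψ + (tsupport ζ).indicator fun _ => (3 * δ : ℝ)) z
        = ∫ z, (ψ z + (tsupport ζ).indicator (fun _ => (3 * δ : ℝ)) z) := rfl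
    linarith
  have hev := hB V hVo (hg.mono hVU) (fun z hz => hpos z (hVU hz)) _ _ HV hL ψ hψs hψc hψV hψ0
    (ε / 4) (by positivity)
  obtain ⟨n, hn⟩ := hev.exists
  have hlast : ∫ z, ψ z * (φ (s n) z).re ^ 4 ≤ ∫ z, ζ z * (φ (s n) z).re ^ 4 := by
    refine integral_mono (integrable_mul_of_tsupport hVo hψs.continuous hψc hψV
      ((hre n).mono hVU)) (hint n) fun z => ?_
    exact mul_le_mul_of_nonneg_right (hψζ z) (by positivity)
  have := hsn n
  linarith

end

end QE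


end

section

/-!
The correlations of four and of three jets, for arbitrary test functions.
-/

open Complex MeasureTheory Filter Topology
open scoped ContDiff

namespace QE

noncomputable section

variable {U : Set ℂ} {h : ℕ → ℝ}

/-- products of two `L²` bounded sequences have bounded integrals against test functions -/
theorem LBdd.test_mul {A B : ℕ → ℂ → ℂ} (hA : LBdd 2 U A) (sA : SmoothSeq U A) (hB : LBdd 2 U B)
    (sB : SmoothSeq U B) {ζ : ℂ → ℂ} (hζ : Test U ζ) :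
    ∃ C : ℝ, ∀ᶠ n in atTop, ‖∫ z, ζ z * (A n z * B n z)‖ ≤ C := by
  have hKc : IsCompact (tsupport ζ) := hζ.supp
  obtain ⟨C, hC⟩ := hA _ hKc hζ.sub
  obtain ⟨D, hD⟩ := hB _ hKc hζ.sub
  obtain ⟨M, hM⟩ := hζ.smooth.continuous.bounded_above_of_compact_support hζ.supp
  have hM0 : 0 ≤ M := (norm_nonneg _).trans (hM 0)
  refine ⟨M * (C + D), ?_⟩
  filter_upwards [hC, hD] with n hn hn'
  have e : ∫ z, ζ z * (A n z * B n z) = ∫ z in tsupport ζ, ζ z * (A n z * B n z) := by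
    rw [setIntegral_eq_integral_of_forall_compl_eq_zero]
    intro z hz
    rw [image_eq_zero_of_notMem_tsupport hz, zero_mul]
  rw [e]
  have hi : IntegrableOn (fun z => ‖A n z‖ ^ 2) (tsupport ζ) := sA.intOn hKc hζ.sub 2 n
  have hj : IntegrableOn (fun z => ‖B n z‖ ^ 2) (tsupport ζ) := sB.intOn hKc hζ.sub 2 n
  calc ‖∫ z in tsupport ζ, ζ z * (A n z * B n z)‖
      ≤ ∫ z in tsupport ζ, ‖ζ z * (A n z * B n z)‖ := norm_integral_le_integral_norm _
    _ ≤ ∫ z in tsupport ζ, M * (‖A n z‖ ^ 2 + ‖B n z‖ ^ 2) := by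
        refine integral_mono_of_nonneg (Filter.Eventually.of_forall fun z => norm_nonneg _)
          ((hi.add hj).const_mul M) (Filter.Eventually.of_forall fun z => ?_)
        simp only [norm_mul]
        refine mul_le_mul (hM z) ?_ (by positivity) hM0
        nlinarith only []
    _ = M * ((∫ z in tsupport ζ, ‖A n z‖ ^ 2) + ∫ z in tsupport ζ, ‖B n z‖ ^ 2) := by
        rw [integral_const_mul, integral_add hi hj]
    _ ≤ _ := by (clear * - hn hn' hM0; gcongr)

theorem tendsto_h_test_mul (hh0 : Tendsto h atTop (𝓝 0)) {A B : ℕ → ℂ → ℂ} (hA : LBdd 2 U A)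
    (sA : SmoothSeq U A) (hB : LBdd 2 U B) (sB : SmoothSeq U B) {ζ : ℂ → ℂ} (hζ : Test U ζ) :
    Tendsto (fun n => (h n : ℂ) * ∫ z, ζ z * (A n z * B n z)) atTop (𝓝 0) := by
  obtain ⟨C, hC⟩ := hA.test_mul sA hB sB hζ
  have h1 : Tendsto (fun n => ‖((h n : ℝ) : ℂ)‖ * C) atTop (𝓝 0) := by
    have := ((continuous_ofReal.tendsto 0).comp hh0).norm.mul_const C
    simpa using this
  refine squeeze_zero_norm' ?_ h1
  filter_upwards [hC] with n hn
  rw [norm_mul]
  gcongr

theorem LBdd.two_of_four {u : ℕ → ℂ → ℂ} (hu : LBdd 4 U u) (su : SmoothSeq U u) : LBdd 2 U u := by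
  have h1 : LBdd 4 U (fun _ _ => (1 : ℂ)) := by
    intro K hK _
    exact ⟨∫ z in K, ‖(1 : ℂ)‖ ^ 4, Filter.Eventually.of_forall fun n => le_rfl⟩
  refine (hu.mul4 su h1 (fun n => contDiffOn_const)).congr fun n z _ => ?_
  rw [mul_one]

theorem integral_add_three' {f₁ f₂ f₃ : ℂ → ℂ} (h₁ : Integrable f₁) (h₂ : Integrable f₂)
    (h₃ : Integrable f₃) : ∫ z, (f₁ z + f₂ z + f₃ z) = (∫ z, f₁ z) + (∫ z, f₂ z) + ∫ z, f₃ z := by
  have e2 : ∫ z, (f₁ z + f₂ z + f₃ z) = (∫ z, (f₁ z + f₂ z)) + ∫ z, f₃ z :=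
    integral_add (h₁.add h₂) h₃
  have e3 : ∫ z, (f₁ z + f₂ z) = (∫ z, f₁ z) + ∫ z, f₂ z := integral_add h₁ h₂
  rw [e2, e3]

/-- integration by parts for `- 2 i h a ∂` -/
theorem ibp_LL {a : ℂ → ℂ} (hU : IsOpen U) (hh0 : Tendsto h atTop (𝓝 0))
    (ha : ContDiffOn ℝ ∞ a U) {u v u' v' r s : ℕ → ℂ → ℂ}
    (su : SmoothSeq U u) (sv : SmoothSeq U v) (su' : SmoothSeq U u') (sv' : SmoothSeq U v')
    (sr : SmoothSeq U r) (ss : SmoothSeq U s)
    (bu : LBdd 2 U u) (bv : LBdd 2 U v) (br : LBdd 2 U r) (bs : LBdd 2 U s)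
    (hu : ∀ n, ∀ z ∈ U, -(2 * I * h n) * a z * dz (u n) z = u' n z + (h n : ℂ) * r n z)
    (hv : ∀ n, ∀ z ∈ U, -(2 * I * h n) * a z * dz (v n) z = v' n z + (h n : ℂ) * s n z)
    {ζ : ℂ → ℂ} (hζ : Test U ζ) :
    Tendsto (fun n => ∫ z, ζ z * (u' n z * v n z + u n z * v' n z)) atTop (𝓝 0) := by
  have hζa : Test U (dz (fun z => ζ z * a z)) := (hζ.mul hU ha).dz
  have t1 := (tendsto_h_test_mul hh0 bu su bv sv hζa).const_mul (2 * I)
  have t2 := tendsto_h_test_mul hh0 br sr bv sv hζ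
  have t3 := tendsto_h_test_mul hh0 bu su bs ss hζ
  have t4 := (t1.sub t2).sub t3
  rw [mul_zero, sub_zero, sub_zero] at t4
  refine t4.congr fun n => ?_
  have i1 : Integrable (fun z => ζ z * (u' n z * v n z + u n z * v' n z)) :=
    hζ.int hU (((su'.mul sv).add (su.mul sv')) n)
  have i3 : Integrable (fun z => ζ z * (r n z * v n z)) := hζ.int hU ((sr.mul sv) n)
  have i4 : Integrable (fun z => ζ z * (u n z * s n z)) := hζ.int hU ((su.mul ss) n)
  have e0 : ∫ z, (ζ z * a z) * dz (fun z => u n z * v n z) z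
      = - ∫ z, dz (fun z => ζ z * a z) z * (u n z * v n z) :=
    integral_mul_dz hU (hζ.mul hU ha) ((su.mul sv) n)
  have e1 : -(2 * I * h n) * ∫ z, (ζ z * a z) * dz (fun z => u n z * v n z) z
      = ∫ z, (ζ z * (u' n z * v n z + u n z * v' n z)
        + (h n : ℂ) * (ζ z * (r n z * v n z)) + (h n : ℂ) * (ζ z * (u n z * s n z))) := by
    have e2 := hζ.integral_congr (f := fun z => -(2 * I * h n) * a z
      * dz (fun z => u n z * v n z) z) (f' := fun z => u' n z * v n z + u n z * v' n z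
        + (h n : ℂ) * (r n z * v n z + u n z * s n z)) (fun z hz => by
          rw [dz_mul (su.dAt hU n hz) (sv.dAt hU n hz)]
          linear_combination v n z * hu n z hz + u n z * hv n z hz)
    rw [← integral_const_mul]
    refine Eq.trans ?_ (e2.trans ?_)
    · refine MeasureTheory.integral_congr_ae (Filter.Eventually.of_forall fun z => ?_)
      beta_reduce; ring
    · refine MeasureTheory.integral_congr_ae (Filter.Eventually.of_forall fun z => ?_)
      beta_reduce; ring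
  have i3' := i3.const_mul (h n : ℂ)
  have i4' := i4.const_mul (h n : ℂ)
  have e5 : ∫ z, (ζ z * (u' n z * v n z + u n z * v' n z)
        + (h n : ℂ) * (ζ z * (r n z * v n z)) + (h n : ℂ) * (ζ z * (u n z * s n z)))
      = (∫ z, ζ z * (u' n z * v n z + u n z * v' n z))
        + (h n : ℂ) * (∫ z, ζ z * (r n z * v n z))
        + (h n : ℂ) * (∫ z, ζ z * (u n z * s n z)) := by
    rw [← integral_const_mul, ← integral_const_mul]
    exact integral_add_three' i1 i3' i4'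
  rw [e5, e0] at e1
  linear_combination e1

/-- integration by parts for `- 2 i h a ∂̄` -/
theorem ibp_LLb {a : ℂ → ℂ} (hU : IsOpen U) (hh0 : Tendsto h atTop (𝓝 0))
    (ha : ContDiffOn ℝ ∞ a U) {u v u' v' r s : ℕ → ℂ → ℂ}
    (su : SmoothSeq U u) (sv : SmoothSeq U v) (su' : SmoothSeq U u') (sv' : SmoothSeq U v')
    (sr : SmoothSeq U r) (ss : SmoothSeq U s)
    (bu : LBdd 2 U u) (bv : LBdd 2 U v) (br : LBdd 2 U r) (bs : LBdd 2 U s)
    (hu : ∀ n, ∀ z ∈ U, -(2 * I * h n) * a z * dzb (u n) z = u' n z + (h n : ℂ) * r n z)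
    (hv : ∀ n, ∀ z ∈ U, -(2 * I * h n) * a z * dzb (v n) z = v' n z + (h n : ℂ) * s n z)
    {ζ : ℂ → ℂ} (hζ : Test U ζ) :
    Tendsto (fun n => ∫ z, ζ z * (u' n z * v n z + u n z * v' n z)) atTop (𝓝 0) := by
  have hζa : Test U (dzb (fun z => ζ z * a z)) := (hζ.mul hU ha).dzb
  have t1 := (tendsto_h_test_mul hh0 bu su bv sv hζa).const_mul (2 * I)
  have t2 := tendsto_h_test_mul hh0 br sr bv sv hζ
  have t3 := tendsto_h_test_mul hh0 bu su bs ss hζ
  have t4 := (t1.sub t2).sub t3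
  rw [mul_zero, sub_zero, sub_zero] at t4
  refine t4.congr fun n => ?_
  have i1 : Integrable (fun z => ζ z * (u' n z * v n z + u n z * v' n z)) :=
    hζ.int hU (((su'.mul sv).add (su.mul sv')) n)
  have i3 : Integrable (fun z => ζ z * (r n z * v n z)) := hζ.int hU ((sr.mul sv) n)
  have i4 : Integrable (fun z => ζ z * (u n z * s n z)) := hζ.int hU ((su.mul ss) n)
  have e0 : ∫ z, (ζ z * a z) * dzb (fun z => u n z * v n z) z
      = - ∫ z, dzb (fun z => ζ z * a z) z * (u n z * v n z) :=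
    integral_mul_dzb hU (hζ.mul hU ha) ((su.mul sv) n)
  have e1 : -(2 * I * h n) * ∫ z, (ζ z * a z) * dzb (fun z => u n z * v n z) z
      = ∫ z, (ζ z * (u' n z * v n z + u n z * v' n z)
        + (h n : ℂ) * (ζ z * (r n z * v n z)) + (h n : ℂ) * (ζ z * (u n z * s n z))) := by
    have e2 := hζ.integral_congr (f := fun z => -(2 * I * h n) * a z
      * dzb (fun z => u n z * v n z) z) (f' := fun z => u' n z * v n z + u n z * v' n z
        + (h n : ℂ) * (r n z * v n z + u n z * s n z)) (fun z hz => by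
          rw [dzb_mul (su.dAt hU n hz) (sv.dAt hU n hz)]
          linear_combination v n z * hu n z hz + u n z * hv n z hz)
    rw [← integral_const_mul]
    refine Eq.trans ?_ (e2.trans ?_)
    · refine MeasureTheory.integral_congr_ae (Filter.Eventually.of_forall fun z => ?_)
      beta_reduce; ring
    · refine MeasureTheory.integral_congr_ae (Filter.Eventually.of_forall fun z => ?_)
      beta_reduce; ring
  have i3' := i3.const_mul (h n : ℂ)
  have i4' := i4.const_mul (h n : ℂ)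
  have e5 : ∫ z, (ζ z * (u' n z * v n z + u n z * v' n z)
        + (h n : ℂ) * (ζ z * (r n z * v n z)) + (h n : ℂ) * (ζ z * (u n z * s n z)))
      = (∫ z, ζ z * (u' n z * v n z + u n z * v' n z))
        + (h n : ℂ) * (∫ z, ζ z * (r n z * v n z))
        + (h n : ℂ) * (∫ z, ζ z * (u n z * s n z)) := by
    rw [← integral_const_mul, ← integral_const_mul]
    exact integral_add_three' i1 i3' i4'
  rw [e5, e0] at e1
  linear_combination e1

namespace Setup

variable {a : ℂ → ℂ} {g : ℂ → ℂ} {φ : ℕ → ℂ → ℂ} (S : Setup U g a h φ)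

include S

theorem sm2 (j m : ℤ) : SmoothSeq U (fun n z => E h a φ j n z * E h a φ m n z) :=
  (S.tame_E j).smooth.mul (S.tame_E m).smooth

theorem bd2 (j m : ℤ) : LBdd 2 U (fun n z => E h a φ j n z * E h a φ m n z) :=
  (S.tame_E j).bdd4.mul4 (S.tame_E j).smooth (S.tame_E m).bdd4 (S.tame_E m).smooth

theorem int4 {ζ : ℂ → ℂ} (hζ : Test U ζ) (n : ℕ) (j m k l : ℤ) : Integrable (fun z => ζ z
    * (E h a φ j n z * E h a φ m n z * (E h a φ k n z * E h a φ l n z))) :=
  hζ.int S.op (((S.sm2 j m).mul (S.sm2 k l)) n)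

theorem int3 {ζ : ℂ → ℂ} (hζ : Test U ζ) (n : ℕ) (j m k : ℤ) : Integrable (fun z => ζ z
    * (E h a φ j n z * E h a φ m n z * E h a φ k n z)) :=
  hζ.int S.op (((S.sm2 j m).mul (S.tame_E k).smooth) n)

/-- integration by parts for four jets -/
theorem ibp4 (j m k l : ℤ) {ζ : ℂ → ℂ} (hζ : Test U ζ) :
    Tendsto (fun n =>
      (∫ z, ζ z * (E h a φ (j + 1) n z * E h a φ m n z * (E h a φ k n z * E h a φ l n z)))
      + (∫ z, ζ z * (E h a φ j n z * E h a φ (m + 1) n z * (E h a φ k n z * E h a φ l n z)))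
      + (∫ z, ζ z * (E h a φ j n z * E h a φ m n z * (E h a φ (k + 1) n z * E h a φ l n z)))
      + (∫ z, ζ z * (E h a φ j n z * E h a φ m n z * (E h a φ k n z * E h a φ (l + 1) n z))))
      atTop (𝓝 0) := by
  obtain ⟨w, v, hw, hv, he⟩ := S.LL_prod j m
  obtain ⟨w', v', hw', hv', he'⟩ := S.LL_prod k l
  have hE := fun j => (S.tame_E j)
  have key := ibp_LL S.op S.hlim S.ha
    (u := fun n z => E h a φ j n z * E h a φ m n z)
    (v := fun n z => E h a φ k n z * E h a φ l n z)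
    (u' := fun n z => E h a φ (j + 1) n z * E h a φ m n z + E h a φ j n z * E h a φ (m + 1) n z)
    (v' := fun n z => E h a φ (k + 1) n z * E h a φ l n z + E h a φ k n z * E h a φ (l + 1) n z)
    (r := fun n z => w n z * E h a φ m n z + E h a φ j n z * v n z)
    (s := fun n z => w' n z * E h a φ l n z + E h a φ k n z * v' n z)
    (S.sm2 j m) (S.sm2 k l) ((S.sm2 (j + 1) m).add (S.sm2 j (m + 1)))
    ((S.sm2 (k + 1) l).add (S.sm2 k (l + 1)))
    ((hw.smooth.mul (hE m).smooth).add ((hE j).smooth.mul hv.smooth))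
    ((hw'.smooth.mul (hE l).smooth).add ((hE k).smooth.mul hv'.smooth))
    (S.bd2 j m) (S.bd2 k l)
    ((hw.bdd4.mul4 hw.smooth (hE m).bdd4 (hE m).smooth).add (hw.smooth.mul (hE m).smooth)
      ((hE j).bdd4.mul4 (hE j).smooth hv.bdd4 hv.smooth) ((hE j).smooth.mul hv.smooth))
    ((hw'.bdd4.mul4 hw'.smooth (hE l).bdd4 (hE l).smooth).add (hw'.smooth.mul (hE l).smooth)
      ((hE k).bdd4.mul4 (hE k).smooth hv'.bdd4 hv'.smooth) ((hE k).smooth.mul hv'.smooth))
    he he' hζ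
  refine key.congr fun n => ?_
  rw [← integral_add_four (S.int4 hζ n _ _ _ _) (S.int4 hζ n _ _ _ _) (S.int4 hζ n _ _ _ _)
    (S.int4 hζ n _ _ _ _)]
  refine MeasureTheory.integral_congr_ae (Filter.Eventually.of_forall fun z => ?_)
  beta_reduce; ring

/-- integration by parts for three jets -/
theorem ibp3 (j m k : ℤ) {ζ : ℂ → ℂ} (hζ : Test U ζ) :
    Tendsto (fun n =>
      (∫ z, ζ z * (E h a φ (j + 1) n z * E h a φ m n z * E h a φ k n z))
      + (∫ z, ζ z * (E h a φ j n z * E h a φ (m + 1) n z * E h a φ k n z))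
      + (∫ z, ζ z * (E h a φ j n z * E h a φ m n z * E h a φ (k + 1) n z))) atTop (𝓝 0) := by
  obtain ⟨w, v, hw, hv, he⟩ := S.LL_prod j m
  obtain ⟨w', hw', he'⟩ := S.LL_E k
  have hE := fun j => (S.tame_E j)
  have key := ibp_LL S.op S.hlim S.ha
    (u := fun n z => E h a φ j n z * E h a φ m n z)
    (v := fun n z => E h a φ k n z)
    (u' := fun n z => E h a φ (j + 1) n z * E h a φ m n z + E h a φ j n z * E h a φ (m + 1) n z)
    (v' := fun n z => E h a φ (k + 1) n z)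
    (r := fun n z => w n z * E h a φ m n z + E h a φ j n z * v n z)
    (s := w')
    (S.sm2 j m) (hE k).smooth ((S.sm2 (j + 1) m).add (S.sm2 j (m + 1)))
    (hE (k + 1)).smooth
    ((hw.smooth.mul (hE m).smooth).add ((hE j).smooth.mul hv.smooth)) hw'.smooth
    (S.bd2 j m) ((hE k).bdd4.two_of_four (hE k).smooth)
    ((hw.bdd4.mul4 hw.smooth (hE m).bdd4 (hE m).smooth).add (hw.smooth.mul (hE m).smooth)
      ((hE j).bdd4.mul4 (hE j).smooth hv.bdd4 hv.smooth) ((hE j).smooth.mul hv.smooth))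
    (hw'.bdd4.two_of_four hw'.smooth) he he' hζ
  refine key.congr fun n => ?_
  rw [← integral_add_three' (S.int3 hζ n _ _ _) (S.int3 hζ n _ _ _) (S.int3 hζ n _ _ _)]
  refine MeasureTheory.integral_congr_ae (Filter.Eventually.of_forall fun z => ?_)
  beta_reduce; ring

/-- integration by parts for three jets -/
theorem ibp3b (j m k : ℤ) {ζ : ℂ → ℂ} (hζ : Test U ζ) :
    Tendsto (fun n =>
      (∫ z, ζ z * (E h a φ (j - 1) n z * E h a φ m n z * E h a φ k n z))
      + (∫ z, ζ z * (E h a φ j n z * E h a φ (m - 1) n z * E h a φ k n z))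
      + (∫ z, ζ z * (E h a φ j n z * E h a φ m n z * E h a φ (k - 1) n z))) atTop (𝓝 0) := by
  obtain ⟨w, v, hw, hv, he⟩ := S.LLb_prod j m
  obtain ⟨w', hw', he'⟩ := S.LLb_E k
  have hE := fun j => (S.tame_E j)
  have key := ibp_LLb S.op S.hlim S.ha
    (u := fun n z => E h a φ j n z * E h a φ m n z)
    (v := fun n z => E h a φ k n z)
    (u' := fun n z => E h a φ (j - 1) n z * E h a φ m n z + E h a φ j n z * E h a φ (m - 1) n z)
    (v' := fun n z => E h a φ (k - 1) n z)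
    (r := fun n z => w n z * E h a φ m n z + E h a φ j n z * v n z)
    (s := w')
    (S.sm2 j m) (hE k).smooth ((S.sm2 (j - 1) m).add (S.sm2 j (m - 1)))
    (hE (k - 1)).smooth
    ((hw.smooth.mul (hE m).smooth).add ((hE j).smooth.mul hv.smooth)) hw'.smooth
    (S.bd2 j m) ((hE k).bdd4.two_of_four (hE k).smooth)
    ((hw.bdd4.mul4 hw.smooth (hE m).bdd4 (hE m).smooth).add (hw.smooth.mul (hE m).smooth)
      ((hE j).bdd4.mul4 (hE j).smooth hv.bdd4 hv.smooth) ((hE j).smooth.mul hv.smooth))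
    (hw'.bdd4.two_of_four hw'.smooth) he he' hζ
  refine key.congr fun n => ?_
  rw [← integral_add_three' (S.int3 hζ n _ _ _) (S.int3 hζ n _ _ _) (S.int3 hζ n _ _ _)]
  refine MeasureTheory.integral_congr_ae (Filter.Eventually.of_forall fun z => ?_)
  beta_reduce; ring

/-- the currents, for complex test functions -/
theorem hmac (htwo : ∀ (j m : ℤ) (η : ℂ → ℂ), Test U η →
      Tendsto (fun n => ∫ z, η z * (E h a φ j n z * E h a φ m n z)) atTop
      (𝓝 (P j m * ∫ z, η z))) (j m k l : ℤ) {ζ : ℂ → ℂ} (hζ : Test U ζ) :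
    Tendsto (fun n =>
      (∫ z, ζ z * (E h a φ (j + 1) n z * E h a φ (m + 1) n z * (E h a φ k n z * E h a φ l n z)))
      - (∫ z, ζ z * (E h a φ j n z * E h a φ m n z
        * (E h a φ (k + 1) n z * E h a φ (l + 1) n z)))) atTop
      (𝓝 ((P (j + 1) (m + 1) * P k l - P j m * P (k + 1) (l + 1)) * ∫ z, ζ z)) := by
  have hneg : ∀ (j m : ℤ) (η : ℂ → ℂ), Test U η →
    Tendsto (fun n => ∫ z, η z * (-(E h a φ j n z * E h a φ m n z))) atTop
    (𝓝 (-P j m * ∫ z, η z)) := by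
    intro j m η hη
    have := (htwo j m η hη).neg
    rw [neg_mul]
    refine this.congr fun n => ?_
    rw [← integral_neg]
    refine MeasureTheory.integral_congr_ae (Filter.Eventually.of_forall fun z => ?_)
    beta_reduce; ring
  have hd := div_curl S.op (A := fun n z => E h a φ j n z * E h a φ m n z)
    (B := fun n z => -(E h a φ (j + 1) n z * E h a φ (m + 1) n z))
    (A' := fun n z => E h a φ k n z * E h a φ l n z)
    (B' := fun n z => -(E h a φ (k + 1) n z * E h a φ (l + 1) n z))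
    (S.sm2 j m) (S.sm2 (j + 1) (m + 1)).neg (S.sm2 k l) (S.sm2 (k + 1) (l + 1)).neg
    (S.bd2 j m) (S.bd2 (j + 1) (m + 1)).neg (S.bd2 k l) (S.bd2 (k + 1) (l + 1)).neg
    (S.div_bdd j m) (S.div_bdd k l) (htwo j m) (hneg (j + 1) (m + 1)) (htwo k l)
    (hneg (k + 1) (l + 1)) hζ
  have e1 : (P (j + 1) (m + 1) * P k l - P j m * P (k + 1) (l + 1)) * (∫ z, ζ z)
      = (P j m * -P (k + 1) (l + 1) - -P (j + 1) (m + 1) * P k l) * ∫ z, ζ z := by
    ring
  rw [e1]
  refine hd.congr fun n => ?_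
  rw [← integral_sub (S.int4 hζ n _ _ _ _) (S.int4 hζ n _ _ _ _)]
  refine MeasureTheory.integral_congr_ae (Filter.Eventually.of_forall fun z => ?_)
  beta_reduce; ring

/-- the two point function of a quantum ergodic sequence -/
theorem two_pt {g₀ : ℂ → ℝ} (H : LocalQE U g₀ h φ) (j m : ℤ) (η : ℂ → ℂ) (hη : Test U η) :
    Tendsto (fun n => ∫ z, η z * (E h a φ j n z * E h a φ m n z)) atTop
      (𝓝 (P j m * ∫ z, η z)) :=
  S.int_two H.mass (fun k hk _ hη => S.mom_jet (H.mom k hk) hη) j m hη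

end Setup

/-- a nonnegative cutoff function -/
theorem exists_cutoff_nonneg {K : Set ℂ} (hU : IsOpen U) (hK : IsCompact K) (hKU : K ⊆ U) :
    ∃ χ : ℂ → ℝ, Test U (fun z => (χ z : ℂ)) ∧ (∀ z, 0 ≤ χ z) ∧ ∀ z ∈ K, χ z = 1 := by
  obtain ⟨χ, h1, h2, -⟩ := exists_cutoff hU hK hKU
  refine ⟨fun z => normSq (χ z), ?_, fun z => normSq_nonneg _, fun z hz => ?_⟩
  · have := h1.mul hU (f := fun z => (starRingEnd ℂ) (χ z))
      (conjCLE.contDiff.comp_contDiffOn h1.smooth.contDiffOn)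
    simpa only [mul_conj] using this
  · have := (h2 z hz).self_of_nhds
    simp [this]

theorem Test.add {ζ ξ : ℂ → ℂ} (hζ : Test U ζ) (hξ : Test U ξ) : Test U (fun z => ζ z + ξ z) := by
  have hs : Function.support (fun z => ζ z + ξ z) ⊆ tsupport ζ ∪ tsupport ξ := by
    intro z hz
    by_contra hcon
    rw [Set.mem_union, not_or] at hcon
    apply hz
    show ζ z + ξ z = 0
    rw [image_eq_zero_of_notMem_tsupport hcon.1, image_eq_zero_of_notMem_tsupport hcon.2, add_zero]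
  have hts : tsupport (fun z => ζ z + ξ z) ⊆ tsupport ζ ∪ tsupport ξ :=
    closure_minimal hs ((isClosed_tsupport _).union (isClosed_tsupport _))
  have hK : IsCompact (tsupport ζ ∪ tsupport ξ) :=
    IsCompact.union hζ.supp hξ.supp
  exact ⟨hζ.smooth.add hξ.smooth, hK.of_isClosed_subset (isClosed_tsupport _) hts,
    hts.trans (Set.union_subset hζ.sub hξ.sub)⟩

theorem Test.smul (c : ℂ) {ζ : ℂ → ℂ} (hζ : Test U ζ) : Test U (fun z => c * ζ z) := by
  refine ⟨contDiff_const.mul hζ.smooth, hζ.supp.mul_left, (closure_mono ?_).trans hζ.sub⟩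
  intro z hz
  simp only [Function.mem_support] at hz ⊢
  intro h0; exact hz (by simp [h0])

theorem Test.re {ζ : ℂ → ℂ} (hζ : Test U ζ) : Test U (fun z => ((ζ z).re : ℂ)) := by
  have h1 : ∀ z, ((ζ z).re : ℂ) = (1 / 2) * (ζ z + (starRingEnd ℂ) (ζ z)) := by
    intro z
    rw [add_conj]; push_cast; ring
  have := (hζ.add hζ.conj).smul (1 / 2)
  simpa only [← h1] using this

theorem Test.im {ζ : ℂ → ℂ} (hζ : Test U ζ) : Test U (fun z => ((ζ z).im : ℂ)) := by
  have h2 := (hζ.smul (-I)).re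
  have h1 : ∀ z, (-I * ζ z).re = (ζ z).im := by intro z; simp
  simpa only [h1] using h2

/-- a linear statement which holds for the nonnegative test functions holds for all -/
theorem Test.induct_nonneg (hU : IsOpen U) {F : ℕ → (ℂ → ℂ) → ℂ}
    (hadd : ∀ n ζ ζ', Test U ζ → Test U ζ' → F n (fun z => ζ z + ζ' z) = F n ζ + F n ζ')
    (hsmul : ∀ n (c : ℂ) ζ, Test U ζ → F n (fun z => c * ζ z) = c * F n ζ)
    (h0 : ∀ ζ : ℂ → ℝ, Test U (fun z => (ζ z : ℂ)) → (∀ z, 0 ≤ ζ z) →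
      Tendsto (fun n => F n (fun z => (ζ z : ℂ))) atTop (𝓝 0)) {ζ : ℂ → ℂ} (hζ : Test U ζ) :
    Tendsto (fun n => F n ζ) atTop (𝓝 0) := by
  have hreal : ∀ ρ : ℂ → ℝ, Test U (fun z => (ρ z : ℂ)) →
      Tendsto (fun n => F n (fun z => (ρ z : ℂ))) atTop (𝓝 0) := by
    intro ρ hρ
    obtain ⟨χ, h1, h2, h3⟩ := exists_cutoff_nonneg hU hρ.supp hρ.sub
    obtain ⟨M, hM⟩ := hρ.smooth.continuous.bounded_above_of_compact_support hρ.supp
    have hM0 : 0 ≤ M := (norm_nonneg _).trans (hM 0)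
    have e : (fun z => ((ρ z + M * χ z : ℝ) : ℂ)) = fun z => (ρ z : ℂ) + (M : ℂ) * (χ z : ℂ) := by
      funext z; push_cast; ring
    have t1 : Test U (fun z => ((ρ z + M * χ z : ℝ) : ℂ)) := by
      rw [e]; exact hρ.add (h1.smul M)
    have p1 := h0 (fun z => ρ z + M * χ z) t1 (fun z => by
      by_cases hz : z ∈ tsupport (fun z => (ρ z : ℂ))
      · rw [h3 z hz]
        have h5 := hM z
        rw [Complex.norm_real] at h5
        have := (abs_le.1 h5).1
        linarith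
      · have h6 := image_eq_zero_of_notMem_tsupport hz
        have h7 : ρ z = 0 := by exact_mod_cast h6
        rw [h7, zero_add]
        exact mul_nonneg hM0 (h2 z))
    have p2 := (h0 χ h1 h2).const_mul (M : ℂ)
    have p3 := p1.sub p2
    rw [mul_zero, sub_zero] at p3
    refine p3.congr fun n => ?_
    rw [e, hadd n _ _ hρ (h1.smul M), hsmul n _ _ h1]
    ring
  have p1 := hreal _ hζ.re
  have p2 := (hreal _ hζ.im).const_mul I
  have p3 := p1.add p2
  rw [mul_zero, zero_add] at p3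
  refine p3.congr fun n => ?_
  rw [← hsmul n _ _ hζ.im, ← hadd n _ _ hζ.re (hζ.im.smul I)]
  congr 1
  funext z
  rw [mul_comm I]
  exact re_add_im _

/-- a linear functional of the form appearing in the correlations -/
theorem Test.int_add {f : ℂ → ℂ} (hU : IsOpen U) (hf : ContDiffOn ℝ ∞ f U) {ζ ξ : ℂ → ℂ}
    (hζ : Test U ζ) (hξ : Test U ξ) : ∫ z, (ζ z + ξ z) * f z = (∫ z, ζ z * f z) + ∫ z, ξ z * f z := by
  rw [← integral_add (hζ.int hU hf) (hξ.int hU hf)]
  refine MeasureTheory.integral_congr_ae (Filter.Eventually.of_forall fun z => ?_)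
  beta_reduce; ring

theorem Test.int_smul {f : ℂ → ℂ} (c : ℂ) (ζ : ℂ → ℂ) :
    ∫ z, (c * ζ z) * f z = c * ∫ z, ζ z * f z := by
  rw [← integral_const_mul]
  refine MeasureTheory.integral_congr_ae (Filter.Eventually.of_forall fun z => ?_)
  beta_reduce; ring

theorem Test.integral_add' {ζ ξ : ℂ → ℂ} (hζ : Test U ζ) (hξ : Test U ξ) :
    ∫ z, (ζ z + ξ z) = (∫ z, ζ z) + ∫ z, ξ z :=
  integral_add (hζ.smooth.continuous.integrable_of_hasCompactSupport hζ.supp)
    (hξ.smooth.continuous.integrable_of_hasCompactSupport hξ.supp)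

variable {a : ℂ → ℂ} {g : ℂ → ℂ} {φ : ℕ → ℂ → ℂ}

/-- **the correlations of four jets of total index zero** -/
theorem Setup.jets_four (S : Setup U g a h φ) (htwo : ∀ (j m : ℤ) (η : ℂ → ℂ), Test U η →
      Tendsto (fun n => ∫ z, η z * (E h a φ j n z * E h a φ m n z)) atTop
      (𝓝 (P j m * ∫ z, η z))) {ζ : ℂ → ℂ} (hζ : Test U ζ) (j m k l : ℤ)
    (hs : j + m + k + l = 0) :
    Tendsto (fun n =>
      (∫ z, ζ z * (E h a φ j n z * E h a φ m n z * (E h a φ k n z * E h a φ l n z)))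
      - G j m k l * (∫ z, ζ z)
      - pat j m k l * ((∫ z, ζ z * (φ n z * φ n z * (φ n z * φ n z))) - 3 * ∫ z, ζ z))
      atTop (𝓝 0) := by
  have s4 := fun n j m k l => ((S.sm2 j m).mul (S.sm2 k l)) n
  refine Test.induct_nonneg S.op (F := fun n ζ =>
      (∫ z, ζ z * (E h a φ j n z * E h a φ m n z * (E h a φ k n z * E h a φ l n z)))
      - G j m k l * (∫ z, ζ z)
      - pat j m k l * ((∫ z, ζ z * (φ n z * φ n z * (φ n z * φ n z))) - 3 * ∫ z, ζ z))
    ?_ ?_ ?_ hζ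
  · intro n ζ ξ hζ hξ
    beta_reduce
    rw [Test.int_add S.op (s4 n j m k l) hζ hξ, Test.integral_add' hζ hξ,
      Test.int_add S.op (f := fun z => φ n z * φ n z * (φ n z * φ n z)) (s4 n 0 0 0 0) hζ hξ]
    ring
  · intro n c ζ _
    beta_reduce
    rw [Test.int_smul, Test.int_smul, integral_const_mul]
    ring
  · intro ρ hρ hρ0
    have hZ : ∫ z, ((ρ z : ℝ) : ℂ) = ((∫ z, ρ z : ℝ) : ℂ) := integral_ofReal
    have key := alg_pattern (Z := ∫ z, ρ z) (X := fun n j m k l => ∫ z, (ρ z : ℂ)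
      * (E h a φ j n z * E h a φ m n z * (E h a φ k n z * E h a φ l n z))) ?_ ?_ ?_ ?_ j m k l hs
    · rw [← hZ] at key
      exact key
    · intro n j m k l
      refine MeasureTheory.integral_congr_ae (Filter.Eventually.of_forall fun z => ?_)
      beta_reduce; ring
    · intro n j m k l
      refine MeasureTheory.integral_congr_ae (Filter.Eventually.of_forall fun z => ?_)
      beta_reduce; ring
    · intro j m k l
      rw [← hZ]
      exact S.hmac htwo j m k l hρ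
    · have h4 := S.ibp4 0 0 0 (-1) hρ
      refine h4.congr fun n => ?_
      simp only [zero_add, neg_add_cancel]

/-- **the correlations of three jets of total index zero vanish** -/
theorem Setup.jets_three (S : Setup U g a h φ) (htwo : ∀ (j m : ℤ) (η : ℂ → ℂ), Test U η →
      Tendsto (fun n => ∫ z, η z * (E h a φ j n z * E h a φ m n z)) atTop
      (𝓝 (P j m * ∫ z, η z))) {ζ : ℂ → ℂ} (hζ : Test U ζ) (j m k : ℤ)
    (hs : j + m + k = 0) :
    Tendsto (fun n => ∫ z, ζ z * (E h a φ j n z * E h a φ m n z * E h a φ k n z))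
      atTop (𝓝 0) := by
  have s3 := fun n j m k => ((S.sm2 j m).mul (S.tame_E k).smooth) n
  refine Test.induct_nonneg S.op (F := fun n ζ =>
      ∫ z, ζ z * (E h a φ j n z * E h a φ m n z * E h a φ k n z)) ?_ ?_ ?_ hζ
  · intro n ζ ξ hζ hξ
    beta_reduce
    rw [Test.int_add S.op (s3 n j m k) hζ hξ]
  · intro n c ζ _
    beta_reduce
    rw [Test.int_smul]
  · intro ρ hρ hρ0
    have hZ : ∫ z, ((ρ z : ℝ) : ℂ) = ((∫ z, ρ z : ℝ) : ℂ) := integral_ofReal
    have hρi : ∀ (f : ℂ → ℝ), ContinuousOn f U → Integrable (fun z => ρ z * f z) := by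
      intro f hf
      have hρc : Continuous ρ := by
        have := Complex.continuous_re.comp hρ.smooth.continuous
        simpa [Function.comp_def] using this
      have hts : tsupport ρ = tsupport (fun z => (ρ z : ℂ)) := by
        unfold tsupport
        congr 1
        ext z
        simp
      exact integrable_mul_of_tsupport S.op hρc (by
        unfold HasCompactSupport; rw [hts]; exact hρ.supp) (by rw [hts]; exact hρ.sub) hf
    obtain ⟨C, hC⟩ := (S.bd2 3 (-3)).test (S.sm2 3 (-3)) hρ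
    have hcjE : ∀ (k : ℤ) (n : ℕ), ∀ z ∈ U, (starRingEnd ℂ) (E h a φ k n z)
        = (-1 : ℂ) ^ k * E h a φ (-k) n z := by
      intro k n z hz
      obtain ⟨q, rfl | rfl⟩ := k.eq_nat_or_neg
      · rw [S.E_neg q n z hz]
        have : E h a φ (q : ℤ) n z = jet h a φ q n z := rfl
        rw [this, zpow_natCast, ← mul_assoc, ← mul_pow]
        norm_num
      · rw [S.E_neg q n z hz, neg_neg, map_mul, map_pow, map_neg, map_one, starRingEnd_self_apply,
          zpow_neg, zpow_natCast, ← inv_pow]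
        norm_num
        rfl
    have key := alg_third (Z := ∫ z, ρ z) (C := |C|) (V := fun n => ∫ z, ρ z * ‖E h a φ 3 n z‖ ^ 2)
      (X := fun n j m k l => ∫ z, (ρ z : ℂ)
      * (E h a φ j n z * E h a φ m n z * (E h a φ k n z * E h a φ l n z)))
      (Y := fun n j m k => ∫ z, (ρ z : ℂ) * (E h a φ j n z * E h a φ m n z * E h a φ k n z))
      (integral_nonneg hρ0) (abs_nonneg C) ?_ ?_ ?_ ?_ ?_ ?_ ?_ ?_ ?_ ?_ j m k hs
    · exact key
    · intro n j m k l
      refine MeasureTheory.integral_congr_ae (Filter.Eventually.of_forall fun z => ?_)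
      beta_reduce; ring
    · intro n j m k l
      refine MeasureTheory.integral_congr_ae (Filter.Eventually.of_forall fun z => ?_)
      beta_reduce; ring
    · intro j m k l
      rw [← hZ]
      exact S.hmac htwo j m k l hρ
    · have h4 := S.ibp4 0 0 0 (-1) hρ
      refine h4.congr fun n => ?_
      simp only [zero_add, neg_add_cancel]
    · intro n j m k
      refine MeasureTheory.integral_congr_ae (Filter.Eventually.of_forall fun z => ?_)
      beta_reduce; ring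
    · intro n j m k
      refine MeasureTheory.integral_congr_ae (Filter.Eventually.of_forall fun z => ?_)
      beta_reduce; ring
    · intro j m k
      exact S.ibp3 j m k hρ
    · intro j m k
      exact S.ibp3b j m k hρ
    · filter_upwards [hC] with n hn
      have e1 : ((∫ z, ρ z * ‖E h a φ 3 n z‖ ^ 2 : ℝ) : ℂ)
          = - ∫ z, (ρ z : ℂ) * (E h a φ 3 n z * E h a φ (-3) n z) := by
        rw [← integral_neg]
        have e0 : ((∫ z, ρ z * ‖E h a φ 3 n z‖ ^ 2 : ℝ) : ℂ)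
            = ∫ z, ((ρ z * ‖E h a φ 3 n z‖ ^ 2 : ℝ) : ℂ) := integral_ofReal.symm
        rw [e0]
        have e2 := hρ.integral_congr (f := fun z => ((‖E h a φ 3 n z‖ ^ 2 : ℝ) : ℂ))
          (f' := fun z => -(E h a φ 3 n z * E h a φ (-3) n z)) (fun z hz => by
            have h1 := hcjE 3 n z hz
            rw [show ((-1 : ℂ) ^ (3 : ℤ)) = -1 by norm_num] at h1
            rw [← Complex.normSq_eq_norm_sq, ← mul_conj, h1]
            ring)
        refine Eq.trans ?_ (e2.trans ?_)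
        · refine MeasureTheory.integral_congr_ae (Filter.Eventually.of_forall fun z => ?_)
          beta_reduce; push_cast; ring
        · refine MeasureTheory.integral_congr_ae (Filter.Eventually.of_forall fun z => ?_)
          beta_reduce; ring
      have e3 : |∫ z, ρ z * ‖E h a φ 3 n z‖ ^ 2| ≤ C := by
        rw [← Real.norm_eq_abs, ← Complex.norm_real, e1, norm_neg]
        exact hn
      exact (le_abs_self _).trans (e3.trans (le_abs_self C))
    · intro N n w l hl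
      set T : ℂ → ℂ := fun z => ∑ t ∈ Finset.range N, (w t : ℂ) * (E h a φ t n z * E h a φ (-3 - t) n z)
        with hT
      have hTs : ContDiffOn ℝ ∞ T U :=
        ContDiffOn.sum fun t _ => contDiffOn_const.mul ((S.sm2 t (-3 - t)) n)
      have e1 : ∑ t ∈ Finset.range N, (w t : ℂ) * ∫ z, (ρ z : ℂ)
          * (E h a φ t n z * E h a φ (-3 - t) n z * E h a φ 3 n z)
          = ∫ z, (ρ z : ℂ) * (T z * E h a φ 3 n z) := by
        simp only [← integral_const_mul]
        rw [← integral_finsetSum _ (fun t _ => (S.int3 hρ n _ _ _).const_mul _)]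
        refine MeasureTheory.integral_congr_ae (Filter.Eventually.of_forall fun z => ?_)
        beta_reduce
        rw [hT]
        beta_reduce
        rw [Finset.sum_mul, Finset.mul_sum]
        refine Finset.sum_congr rfl fun t _ => ?_
        ring
      have e2 : ((∫ z, ρ z * ‖T z‖ ^ 2 : ℝ) : ℂ) = -∑ t ∈ Finset.range N, ∑ u ∈ Finset.range N,
          (w t : ℂ) * (w u : ℂ) * ∫ z, (ρ z : ℂ) * (E h a φ t n z * E h a φ (-3 - t) n z
            * (E h a φ (-u) n z * E h a φ (3 + u) n z)) := by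
        have e0 : ((∫ z, ρ z * ‖T z‖ ^ 2 : ℝ) : ℂ)
            = ∫ z, ((ρ z * ‖T z‖ ^ 2 : ℝ) : ℂ) := integral_ofReal.symm
        rw [e0]
        have e3 := hρ.integral_congr (f := fun z => ((‖T z‖ ^ 2 : ℝ) : ℂ))
          (f' := fun z => -∑ t ∈ Finset.range N, ∑ u ∈ Finset.range N, (w t : ℂ) * (w u : ℂ)
            * (E h a φ t n z * E h a φ (-3 - t) n z * (E h a φ (-u) n z * E h a φ (3 + u) n z)))
          (fun z hz => by
            rw [← Complex.normSq_eq_norm_sq, ← mul_conj, hT]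
            beta_reduce
            rw [map_sum, Finset.sum_mul_sum, ← Finset.sum_neg_distrib]
            refine Finset.sum_congr rfl fun t _ => ?_
            rw [← Finset.sum_neg_distrib]
            refine Finset.sum_congr rfl fun u _ => ?_
            rw [map_mul, map_mul, hcjE _ n z hz, hcjE _ n z hz, conj_ofReal]
            have h1 : (-1 : ℂ) ^ ((u : ℕ) : ℤ) * (-1 : ℂ) ^ (-3 - (u : ℤ)) = -1 := by
              rw [← zpow_add₀ (by norm_num)]
              have : ((u : ℕ) : ℤ) + (-3 - (u : ℤ)) = -3 := by ring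
              rw [this]; norm_num
            have h2 : -(-3 - (u : ℤ)) = 3 + u := by ring
            rw [h2]
            linear_combination ((w t : ℂ) * (w u : ℂ) * (E h a φ t n z * E h a φ (-3 - t) n z)
              * (E h a φ (-u) n z * E h a φ (3 + u) n z)) * h1)
        refine Eq.trans ?_ (e3.trans ?_)
        · refine MeasureTheory.integral_congr_ae (Filter.Eventually.of_forall fun z => ?_)
          beta_reduce; push_cast; ring
        · simp only [← integral_const_mul]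
          rw [← Finset.sum_neg_distrib]
          have e4 : ∀ t ∈ Finset.range N, -∑ u ∈ Finset.range N, ∫ z, (w t : ℂ) * (w u : ℂ)
              * ((ρ z : ℂ) * (E h a φ t n z * E h a φ (-3 - t) n z
            * (E h a φ (-u) n z * E h a φ (3 + u) n z)))
              = ∫ z, -∑ u ∈ Finset.range N, (w t : ℂ) * (w u : ℂ)
              * ((ρ z : ℂ) * (E h a φ t n z * E h a φ (-3 - t) n z
            * (E h a φ (-u) n z * E h a φ (3 + u) n z))) := by
            intro t _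
            rw [integral_neg, integral_finsetSum _ (fun u _ => (S.int4 hρ n _ _ _ _).const_mul _)]
          have i5 : ∀ t ∈ Finset.range N, Integrable (fun z => -∑ u ∈ Finset.range N,
              (w t : ℂ) * (w u : ℂ) * ((ρ z : ℂ) * (E h a φ t n z * E h a φ (-3 - t) n z
            * (E h a φ (-u) n z * E h a φ (3 + u) n z)))) := fun t _ =>
            (integrable_finsetSum _ (fun u _ => (S.int4 hρ n _ _ _ _).const_mul _)).neg
          rw [Finset.sum_congr rfl e4, ← integral_finsetSum _ i5]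
          refine MeasureTheory.integral_congr_ae (Filter.Eventually.of_forall fun z => ?_)
          beta_reduce
          rw [Finset.sum_neg_distrib, mul_neg, Finset.mul_sum]
          congr 1
          refine Finset.sum_congr rfl fun t _ => ?_
          rw [Finset.mul_sum]
          refine Finset.sum_congr rfl fun u _ => ?_
          ring
      have e2' : (-∑ t ∈ Finset.range N, ∑ u ∈ Finset.range N,
          (w t : ℂ) * (w u : ℂ) * ∫ z, (ρ z : ℂ) * (E h a φ t n z * E h a φ (-3 - t) n z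
            * (E h a φ (-u) n z * E h a φ (3 + u) n z))).re = ∫ z, ρ z * ‖T z‖ ^ 2 := by
        rw [← e2, ofReal_re]
      rw [e1, e2']
      have i1 : Integrable (fun z => ρ z * ‖E h a φ 3 n z‖ ^ 2) :=
        hρi _ (((S.tame_E 3).smooth n).continuousOn.norm.pow 2)
      have i2 : Integrable (fun z => ρ z * ‖T z‖ ^ 2) := hρi _ (hTs.continuousOn.norm.pow 2)
      calc ‖∫ z, (ρ z : ℂ) * (T z * E h a φ 3 n z)‖
          ≤ ∫ z, ‖(ρ z : ℂ) * (T z * E h a φ 3 n z)‖ := norm_integral_le_integral_norm _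
        _ ≤ ∫ z, (l * (ρ z * ‖E h a φ 3 n z‖ ^ 2) + l⁻¹ * (ρ z * ‖T z‖ ^ 2)) / 2 := by
            refine integral_mono_of_nonneg (Filter.Eventually.of_forall fun z => norm_nonneg _)
              (((i1.const_mul l).add (i2.const_mul l⁻¹)).div_const 2)
              (Filter.Eventually.of_forall fun z => ?_)
            beta_reduce
            rw [norm_mul, norm_mul, Complex.norm_real, Real.norm_of_nonneg (hρ0 z)]
            have h1 : ‖T z‖ * ‖E h a φ 3 n z‖
                ≤ (l * ‖E h a φ 3 n z‖ ^ 2 + l⁻¹ * ‖T z‖ ^ 2) / 2 := by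
              have h2 : 0 ≤ l⁻¹ * (l * ‖E h a φ 3 n z‖ - ‖T z‖) ^ 2 := by positivity
              have h3 : l⁻¹ * (l * ‖E h a φ 3 n z‖ - ‖T z‖) ^ 2
                  = l * ‖E h a φ 3 n z‖ ^ 2 - 2 * (‖T z‖ * ‖E h a φ 3 n z‖)
                    + l⁻¹ * ‖T z‖ ^ 2 := by
                field_simp
                ring
              rw [h3] at h2
              linarith only [h2]
            have := mul_le_mul_of_nonneg_left h1 (hρ0 z)
            linarith
        _ = (l * (∫ z, ρ z * ‖E h a φ 3 n z‖ ^ 2) + l⁻¹ * ∫ z, ρ z * ‖T z‖ ^ 2) / 2 := by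
            rw [integral_div, integral_add (i1.const_mul l) (i2.const_mul l⁻¹),
              integral_const_mul, integral_const_mul]

/-- **Interface (J), four jets**, for quantum ergodic sequences bounded in `L⁴` -/
theorem LocalQE.jets_four {g : ℂ → ℝ} {φ : ℕ → ℂ → ℂ} (H : LocalQE U g h φ) (hU : IsOpen U)
    (hg : ContDiffOn ℝ ∞ g U) (hgpos : ∀ z ∈ U, 0 < g z) (hb : LBdd 4 U φ) {ζ : ℂ → ℂ}
    (hζ : Test U ζ) (j m k l : ℤ) (hs : j + m + k + l = 0) :
    Tendsto (fun n =>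
      (∫ z, ζ z * (E h (wt g) φ j n z * E h (wt g) φ m n z
        * (E h (wt g) φ k n z * E h (wt g) φ l n z)))
      - G j m k l * (∫ z, ζ z)
      - pat j m k l * ((∫ z, ζ z * (φ n z * φ n z * (φ n z * φ n z))) - 3 * ∫ z, ζ z))
      atTop (𝓝 0) := by
  have S := setup_of_local hU hg hgpos H hb
  exact S.jets_four (S.two_pt H) hζ j m k l hs

/-- **Interface (J), three jets**, for quantum ergodic sequences bounded in `L⁴` -/
theorem LocalQE.jets_three {g : ℂ → ℝ} {φ : ℕ → ℂ → ℂ} (H : LocalQE U g h φ) (hU : IsOpen U)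
    (hg : ContDiffOn ℝ ∞ g U) (hgpos : ∀ z ∈ U, 0 < g z) (hb : LBdd 4 U φ) {ζ : ℂ → ℂ}
    (hζ : Test U ζ) (j m k : ℤ) (hs : j + m + k = 0) :
    Tendsto (fun n =>
      ∫ z, ζ z * (E h (wt g) φ j n z * E h (wt g) φ m n z * E h (wt g) φ k n z))
      atTop (𝓝 0) := by
  have S := setup_of_local hU hg hgpos H hb
  exact S.jets_three (S.two_pt H) hζ j m k hs

/-- **Interface (J), two jets** -/
theorem LocalQE.jets_two {g : ℂ → ℝ} {φ : ℕ → ℂ → ℂ} (H : LocalQE U g h φ) (hU : IsOpen U)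
    (hg : ContDiffOn ℝ ∞ g U) (hgpos : ∀ z ∈ U, 0 < g z) (hb : LBdd 4 U φ) {ζ : ℂ → ℂ}
    (hζ : Test U ζ) (j m : ℤ) :
    Tendsto (fun n => ∫ z, ζ z * (E h (wt g) φ j n z * E h (wt g) φ m n z))
      atTop (𝓝 (P j m * ∫ z, ζ z)) := by
  have S := setup_of_local hU hg hgpos H hb
  exact S.two_pt H j m ζ hζ

end

end QE


end

section

/-!
Weak limits with locally square integrable limit functions, and the div-curl lemma for them
(helper70).
-/

open Complex MeasureTheory Filter Topology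
open scoped ContDiff ENNReal

namespace QE

noncomputable section

variable {U : Set ℂ} {h : ℕ → ℝ}

/-- the sequence `w` converges in `U`, against test functions, to the locally square integrable
function `u` -/
structure TLim (U : Set ℂ) (w : ℕ → ℂ → ℂ) (u : ℂ → ℂ) : Prop where
  loc : LocL2 U u
  lim : ∀ ζ : ℂ → ℂ, Test U ζ → Tendsto (fun n => ∫ z, ζ z * w n z) atTop (𝓝 (∫ z, ζ z * u z))

theorem MemLp.sqInt {μ : Measure ℂ} {f : ℂ → ℂ} (hf : MemLp f 2 μ) :
    Integrable (fun z => ‖f z‖ ^ 2) μ :=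
  (memLp_two_iff_integrable_sq_norm hf.1).1 hf

/-- the elementary form of the Cauchy-Schwarz inequality -/
theorem norm_integral_mul_le {μ : Measure ℂ} {f g : ℂ → ℂ} (hf : MemLp f 2 μ) (hg : MemLp g 2 μ)
    {l : ℝ} (hl : 0 < l) : ‖∫ z, f z * g z ∂μ‖
      ≤ (l⁻¹ * (∫ z, ‖f z‖ ^ 2 ∂μ) + l * ∫ z, ‖g z‖ ^ 2 ∂μ) / 2 := by
  have i1 := MemLp.sqInt hf
  have i2 := MemLp.sqInt hg
  calc ‖∫ z, f z * g z ∂μ‖ ≤ ∫ z, ‖f z * g z‖ ∂μ := norm_integral_le_integral_norm _
    _ ≤ ∫ z, (l⁻¹ * ‖f z‖ ^ 2 + l * ‖g z‖ ^ 2) / 2 ∂μ := by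
        refine integral_mono_of_nonneg (Filter.Eventually.of_forall fun z => norm_nonneg _)
          (((i1.const_mul _).add (i2.const_mul _)).div_const 2)
          (Filter.Eventually.of_forall fun z => ?_)
        simp only [norm_mul]
        have h2 : 0 ≤ l⁻¹ * (‖f z‖ - l * ‖g z‖) ^ 2 := by positivity
        have h3 : l⁻¹ * (‖f z‖ - l * ‖g z‖) ^ 2
            = l⁻¹ * ‖f z‖ ^ 2 - 2 * (‖f z‖ * ‖g z‖) + l * ‖g z‖ ^ 2 := by
          field_simp
          ring
        rw [h3] at h2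
        linarith only [h2]
    _ = _ := by
        rw [integral_div, integral_add (i1.const_mul _) (i2.const_mul _), integral_const_mul,
          integral_const_mul]

theorem LocL2.mono {V : Set ℂ} {u : ℂ → ℂ} (hu : LocL2 U u) (hVU : V ⊆ U) : LocL2 V u :=
  fun K hK hKV => hu K hK (hKV.trans hVU)

theorem LocL2.intOn {u : ℂ → ℂ} (hu : LocL2 U u) {K : Set ℂ} (hK : IsCompact K) (hKU : K ⊆ U) :
    IntegrableOn u K := by
  have : IsFiniteMeasure (volume.restrict K) := ⟨by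
    rw [Measure.restrict_apply_univ]; exact hK.measure_lt_top⟩
  exact (hu K hK hKU).integrable (by norm_num)

theorem LocL2.intOn_mul {u v : ℂ → ℂ} (hu : LocL2 U u) (hv : LocL2 U v) {K : Set ℂ} (hK : IsCompact K)
    (hKU : K ⊆ U) : IntegrableOn (fun z => u z * v z) K :=
  (hu K hK hKU).integrable_mul (hv K hK hKU)

theorem LocL2.locallyIntegrableOn (hU : IsOpen U) {u : ℂ → ℂ} (hu : LocL2 U u) :
    LocallyIntegrableOn u U := by
  rw [locallyIntegrableOn_iff hU.isLocallyClosed]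
  intro K hKU hK
  exact hu.intOn hK hKU

/-- smooth sequences consist of locally square integrable functions -/
theorem LocL2.of_smooth {f : ℂ → ℂ} (hf : ContDiffOn ℝ ∞ f U) : LocL2 U f := by
  intro K hK hKU
  have hc : ContinuousOn f K := hf.continuousOn.mono hKU
  rw [memLp_two_iff_integrable_sq_norm (hc.aestronglyMeasurable hK.measurableSet)]
  exact (hc.norm.pow 2).integrableOn_compact hK

/-- a test function times a function which is integrable on its support -/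
theorem Test.int_of_intOn {ζ f : ℂ → ℂ} (hζ : Test U ζ) (hf : IntegrableOn f (tsupport ζ)) :
    Integrable (fun z => ζ z * f z) := by
  obtain ⟨M, hM⟩ := hζ.smooth.continuous.bounded_above_of_compact_support hζ.supp
  have h1 : IntegrableOn (fun z => ζ z * f z) (tsupport ζ) :=
    Integrable.bdd_mul hf hζ.smooth.continuous.aestronglyMeasurable.restrict
      (Filter.Eventually.of_forall hM)
  rwa [integrableOn_iff_integrable_of_support_subset] at h1
  intro z hz
  by_contra hcon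
  exact hz (by simp [image_eq_zero_of_notMem_tsupport hcon])

theorem Test.int_LocL2 {ζ u : ℂ → ℂ} (hζ : Test U ζ) (hu : LocL2 U u) :
    Integrable (fun z => ζ z * u z) := hζ.int_of_intOn (hu.intOn hζ.supp hζ.sub)

theorem Test.int_LocL2_mul {ζ u v : ℂ → ℂ} (hζ : Test U ζ) (hu : LocL2 U u) (hv : LocL2 U v) :
    Integrable (fun z => ζ z * (u z * v z)) := hζ.int_of_intOn (hu.intOn_mul hv hζ.supp hζ.sub)

/-- uniqueness of weak limits -/
theorem TLim.unique (hU : IsOpen U) {w : ℕ → ℂ → ℂ} {u v : ℂ → ℂ} (hu : TLim U w u)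
    (hv : TLim U w v) : ∀ᵐ z, z ∈ U → u z = v z := by
  have key : ∀ᵐ z, z ∈ U → u z + (-1) * v z = 0 := by
    refine hU.ae_eq_zero_of_integral_contDiff_smul_eq_zero (μ := volume)
      (f := fun z => u z + (-1) * v z) ((hu.loc.add (hv.loc.const_mul (-1))).locallyIntegrableOn hU)
      fun g hg hgc hgU => ?_
    have hts : tsupport (fun z => (g z : ℂ)) ⊆ tsupport g := by
      refine closure_mono fun z hz => ?_
      simp only [Function.mem_support] at hz ⊢
      intro h0; exact hz (by simp [h0])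
    have hT : Test U (fun z => (g z : ℂ)) :=
      ⟨ofRealCLM.contDiff.comp hg, hgc.of_isClosed_subset (isClosed_tsupport _) hts,
        hts.trans hgU⟩
    have e := tendsto_nhds_unique (hu.lim _ hT) (hv.lim _ hT)
    have e2 : ∫ z, g z • (u z + (-1) * v z) = (∫ z, (g z : ℂ) * u z) - ∫ z, (g z : ℂ) * v z := by
      rw [← integral_sub (hT.int_LocL2 hu.loc) (hT.int_LocL2 hv.loc)]
      refine integral_congr_ae (Filter.Eventually.of_forall fun z => ?_)
      simp only [real_smul]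
      ring
    rw [e2, e, sub_self]
  filter_upwards [key] with z hz hzU
  have := hz hzU
  linear_combination this

theorem TLim.congr_ae {w : ℕ → ℂ → ℂ} {u v : ℂ → ℂ} (hu : TLim U w u)
    (hv : LocL2 U v) (he : ∀ᵐ z, z ∈ U → u z = v z) : TLim U w v := by
  refine ⟨hv, fun ζ hζ => ?_⟩
  have : ∫ z, ζ z * v z = ∫ z, ζ z * u z := by
    refine integral_congr_ae ?_
    filter_upwards [he] with z hz
    by_cases hzU : z ∈ U
    · rw [hz hzU]
    · have : ζ z = 0 := image_eq_zero_of_notMem_tsupport fun hh => hzU (hζ.sub hh)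
      rw [this, zero_mul, zero_mul]
  rw [this]
  exact hu.lim ζ hζ

theorem TLim.congr {w w' : ℕ → ℂ → ℂ} {u : ℂ → ℂ} (hu : TLim U w u)
    (he : ∀ n, ∀ z ∈ U, w n z = w' n z) : TLim U w' u :=
  ⟨hu.loc, fun ζ hζ => (hu.lim ζ hζ).congr fun n => hζ.integral_congr (he n)⟩

theorem TLim.add (hU : IsOpen U) {w w' : ℕ → ℂ → ℂ} {u u' : ℂ → ℂ} (sw : SmoothSeq U w)
    (sw' : SmoothSeq U w') (hu : TLim U w u) (hu' : TLim U w' u') :
    TLim U (fun n z => w n z + w' n z) (fun z => u z + u' z) := by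
  refine ⟨hu.loc.add hu'.loc, fun ζ hζ => ?_⟩
  have := (hu.lim ζ hζ).add (hu'.lim ζ hζ)
  rw [← integral_add (hζ.int_LocL2 hu.loc) (hζ.int_LocL2 hu'.loc)] at this
  simp only [← mul_add] at this
  refine this.congr fun n => ?_
  rw [← integral_add (hζ.int hU (sw n)) (hζ.int hU (sw' n))]
  simp only [mul_add]

theorem TLim.const_mul {w : ℕ → ℂ → ℂ} {u : ℂ → ℂ} (hu : TLim U w u) (c : ℂ) :
    TLim U (fun n z => c * w n z) (fun z => c * u z) := by
  refine ⟨hu.loc.const_mul c, fun ζ hζ => ?_⟩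
  have := (hu.lim ζ hζ).const_mul c
  have e : ∀ f : ℂ → ℂ, ∫ z, ζ z * (c * f z) = c * ∫ z, ζ z * f z := by
    intro f
    rw [← integral_const_mul]
    refine integral_congr_ae (Filter.Eventually.of_forall fun z => ?_)
    beta_reduce; ring
  rw [e]
  exact this.congr fun n => (e _).symm

theorem TLim.neg {w : ℕ → ℂ → ℂ} {u : ℂ → ℂ} (hu : TLim U w u) :
    TLim U (fun n z => - w n z) (fun z => - u z) := by
  have := hu.const_mul (-1)
  simpa only [neg_one_mul] using this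

theorem TLim.conj {w : ℕ → ℂ → ℂ} {u : ℂ → ℂ} (hu : TLim U w u) :
    TLim U (fun n z => (starRingEnd ℂ) (w n z)) (fun z => (starRingEnd ℂ) (u z)) := by
  refine ⟨hu.loc.conj, fun ζ hζ => ?_⟩
  have := (continuous_conj.tendsto _).comp (hu.lim _ hζ.conj)
  rw [← integral_conj] at this
  simp only [map_mul, starRingEnd_self_apply] at this
  refine this.congr fun n => ?_
  simp only [Function.comp_apply]
  rw [← integral_conj]
  simp only [map_mul, starRingEnd_self_apply]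

theorem TLim.subseq {w : ℕ → ℂ → ℂ} {u : ℂ → ℂ} (hu : TLim U w u) {s : ℕ → ℕ}
    (hs : Tendsto s atTop atTop) : TLim U (fun n => w (s n)) u :=
  ⟨hu.loc, fun ζ hζ => (hu.lim ζ hζ).comp hs⟩

theorem TLim.zero {w : ℕ → ℂ → ℂ}
    (hw : ∀ ζ, Test U ζ → Tendsto (fun n => ∫ z, ζ z * w n z) atTop (𝓝 0)) :
    TLim U w (fun _ => 0) :=
  ⟨fun _ _ _ => MemLp.zero, fun ζ hζ => by simpa using hw ζ hζ⟩

/-- approximation of a compactly supported square integrable function by test functions -/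
theorem exists_test_approx (hU : IsOpen U) {ψ : ℂ → ℂ} (hψ : MemLp ψ 2 volume) {K : Set ℂ}
    (hK : IsCompact K) (hKU : K ⊆ U) (h0 : ∀ z ∉ K, ψ z = 0) :
    ∃ L : Set ℂ, IsCompact L ∧ L ⊆ U ∧ K ⊆ L ∧ ∀ ε > 0, ∃ η : ℂ → ℂ, Test U η ∧
      (∀ z ∉ L, η z = 0) ∧ (∫ z, ‖ψ z - η z‖ ^ 2) ≤ ε := by
  obtain ⟨χ, hχ, hχ1, hχ2⟩ := exists_cutoff hU hK hKU
  refine ⟨tsupport χ, hχ.supp, hχ.sub, fun z hz => subset_tsupport χ ?_, fun ε hε => ?_⟩
  · have := (hχ1 z hz).self_of_nhds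
    simp [this]
  · obtain ⟨g, hgc, hgs, hg⟩ := hψ.exist_eLpNorm_sub_le (by norm_num) (by norm_num)
      (Real.sqrt_pos.2 hε)
    have hgL : MemLp g 2 volume := hgs.continuous.memLp_of_hasCompactSupport hgc
    have hd : MemLp (ψ - g) 2 volume := hψ.sub hgL
    refine ⟨fun z => χ z * g z, hχ.mul hU hgs.contDiffOn, fun z hz => by
      simp [image_eq_zero_of_notMem_tsupport hz], ?_⟩
    rw [hd.eLpNorm_eq_integral_rpow_norm (by norm_num) (by norm_num)] at hg
    have h1 := (ENNReal.ofReal_le_ofReal_iff (Real.sqrt_nonneg ε)).1 hg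
    have h2 : ∫ z, ‖(ψ - g) z‖ ^ 2 ≤ ε := by
      have h3 : 0 ≤ ∫ z, ‖(ψ - g) z‖ ^ 2 := integral_nonneg fun z => by positivity
      have e2 : (2 : ℝ≥0∞).toReal = (2 : ℝ) := by norm_num
      rw [e2] at h1
      have e3 : (∫ z, ‖(ψ - g) z‖ ^ (2 : ℝ)) = ∫ z, ‖(ψ - g) z‖ ^ 2 := by
        refine integral_congr_ae (Filter.Eventually.of_forall fun z => ?_)
        exact Real.rpow_natCast _ 2
      rw [e3, show (2 : ℝ)⁻¹ = 1 / 2 by norm_num, ← Real.sqrt_eq_rpow] at h1
      exact (Real.sqrt_le_sqrt_iff hε.le).1 h1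
    refine le_trans (integral_mono_of_nonneg (Filter.Eventually.of_forall fun z => by positivity)
      (MemLp.sqInt hd) (Filter.Eventually.of_forall fun z => ?_)) h2
    have e : ψ z - χ z * g z = χ z * (ψ - g) z := by
      by_cases hz : z ∈ K
      · have := (hχ1 z hz).self_of_nhds
        rw [this]; simp
      · rw [h0 z hz, Pi.sub_apply, h0 z hz]; ring
    simp only [e, norm_mul]
    have := hχ2 z
    gcongr
    nlinarith [norm_nonneg (χ z), norm_nonneg ((ψ - g) z)]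

/-- weak limits can be tested against compactly supported square integrable functions -/
theorem TLim.test_L2 (hU : IsOpen U) {w : ℕ → ℂ → ℂ} {u : ℂ → ℂ} (sw : SmoothSeq U w)
    (bw : LBdd 2 U w) (hu : TLim U w u) {ψ : ℂ → ℂ} (hψ : MemLp ψ 2 volume) {K : Set ℂ}
    (hK : IsCompact K) (hKU : K ⊆ U) (h0 : ∀ z ∉ K, ψ z = 0) :
    Tendsto (fun n => ∫ z, ψ z * w n z) atTop (𝓝 (∫ z, ψ z * u z)) := by
  obtain ⟨L, hL, hLU, hKL, hap⟩ := exists_test_approx hU hψ hK hKU h0
  obtain ⟨C, hC⟩ := bw L hL hLU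
  have hC0 : 0 ≤ C := by
    obtain ⟨n, hn⟩ := hC.exists
    exact (integral_nonneg fun z => by positivity).trans hn
  set D := ∫ z in L, ‖u z‖ ^ 2 with hD
  have hD0 : 0 ≤ D := integral_nonneg fun z => by positivity
  rw [Metric.tendsto_atTop]
  intro ε hε
  -- the parameter
  set l : ℝ := ε / (3 * (C + D + 1)) with hl
  have hl0 : 0 < l := by (clear * - hε hC0; positivity)
  obtain ⟨η, hη, hη0, hηε⟩ := hap (l * (ε / 3)) (by (clear * - hε hC0; positivity))
  have hψL : MemLp ψ 2 (volume.restrict L) := hψ.restrict L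
  have hηL : MemLp η 2 (volume.restrict L) :=
    (hη.smooth.continuous.memLp_of_hasCompactSupport hη.supp).restrict L
  have hdL : MemLp (fun z => ψ z - η z) 2 (volume.restrict L) := hψL.sub hηL
  have hdi : ∫ z in L, ‖ψ z - η z‖ ^ 2 ≤ l * (ε / 3) := by
    refine le_trans (setIntegral_le_integral ?_ (Filter.Eventually.of_forall fun z => by
      positivity)) hηε
    exact MemLp.sqInt (hψ.sub (hη.smooth.continuous.memLp_of_hasCompactSupport hη.supp))
  -- the error for one function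
  have herr : ∀ f : ℂ → ℂ, MemLp f 2 (volume.restrict L) → ∀ B, (∫ z in L, ‖f z‖ ^ 2) ≤ B →
      ‖(∫ z, ψ z * f z) - ∫ z, η z * f z‖ ≤ (ε / 3 + l * B) / 2 := by
    intro f hf B hB
    have i1 : IntegrableOn (fun z => ψ z * f z) L := hψL.integrable_mul hf
    have i2 : IntegrableOn (fun z => η z * f z) L := hηL.integrable_mul hf
    have e1 : ∫ z, ψ z * f z = ∫ z in L, ψ z * f z := by
      rw [setIntegral_eq_integral_of_forall_compl_eq_zero]
      intro z hz
      rw [h0 z (fun hh => hz (hKL hh)), zero_mul]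
    have e2 : ∫ z, η z * f z = ∫ z in L, η z * f z := by
      rw [setIntegral_eq_integral_of_forall_compl_eq_zero]
      intro z hz
      rw [hη0 z hz, zero_mul]
    have e3 : (∫ z, ψ z * f z) - ∫ z, η z * f z = ∫ z in L, (ψ z - η z) * f z := by
      rw [e1, e2, ← integral_sub i1 i2]
      refine integral_congr_ae (Filter.Eventually.of_forall fun z => ?_)
      beta_reduce; ring
    rw [e3]
    refine (norm_integral_mul_le hdL hf hl0).trans ?_
    have h1 : l⁻¹ * (∫ z in L, ‖ψ z - η z‖ ^ 2) ≤ ε / 3 := by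
      calc l⁻¹ * (∫ z in L, ‖ψ z - η z‖ ^ 2) ≤ l⁻¹ * (l * (ε / 3)) := by gcongr
        _ = ε / 3 := by field_simp
    have h2 : l * (∫ z in L, ‖f z‖ ^ 2) ≤ l * B := by gcongr
    linarith only [h1, h2]
  have hlC : l * C ≤ ε / 3 := by
    rw [hl, div_mul_eq_mul_div, div_le_div_iff₀ (by positivity) (by norm_num)]
    linarith only [hε, mul_nonneg hε.le hD0]
  have hlD : l * D ≤ ε / 3 := by
    rw [hl, div_mul_eq_mul_div, div_le_div_iff₀ (by positivity) (by norm_num)]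
    linarith only [hε, mul_nonneg hε.le hC0]
  have hlim := (Metric.tendsto_atTop.1 (hu.lim η hη)) (ε / 3) (by positivity)
  obtain ⟨N₁, hN₁⟩ := hlim
  obtain ⟨N₂, hN₂⟩ := eventually_atTop.1 hC
  refine ⟨max N₁ N₂, fun n hn => ?_⟩
  have h1 := hN₁ n (le_trans (le_max_left _ _) hn)
  have h2 := herr (w n) (LocL2.of_smooth (sw n) L hL hLU) C (hN₂ n (le_trans (le_max_right _ _) hn))
  have h3 := herr u (hu.loc L hL hLU) D le_rfl
  rw [dist_eq_norm] at h1 ⊢
  have e : (∫ z, ψ z * w n z) - ∫ z, ψ z * u z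
      = ((∫ z, ψ z * w n z) - ∫ z, η z * w n z) + ((∫ z, η z * w n z) - ∫ z, η z * u z)
        - ((∫ z, ψ z * u z) - ∫ z, η z * u z) := by ring
  rw [e]
  have h4 := norm_sub_le (((∫ z, ψ z * w n z) - ∫ z, η z * w n z)
    + ((∫ z, η z * w n z) - ∫ z, η z * u z)) ((∫ z, ψ z * u z) - ∫ z, η z * u z)
  have h5 := norm_add_le ((∫ z, ψ z * w n z) - ∫ z, η z * w n z)
    ((∫ z, η z * w n z) - ∫ z, η z * u z)
  linarith only [hlC, hlD, h1, h2, h3, h4, h5]

/-- testing against a test function times a locally square integrable function -/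
theorem TLim.test_mul (hU : IsOpen U) {w : ℕ → ℂ → ℂ} {u v : ℂ → ℂ} (sw : SmoothSeq U w)
    (bw : LBdd 2 U w) (hu : TLim U w u) (hv : LocL2 U v) {ζ : ℂ → ℂ} (hζ : Test U ζ) :
    Tendsto (fun n => ∫ z, ζ z * (v z * w n z)) atTop (𝓝 (∫ z, ζ z * (v z * u z))) := by
  obtain ⟨M, hM⟩ := hζ.smooth.continuous.bounded_above_of_compact_support hζ.supp
  have hK : IsCompact (tsupport ζ) := hζ.supp
  have hm : MemLp (fun z => ζ z * v z) 2 volume := by
    have h1 : MemLp (fun z => ζ z * v z) 2 (volume.restrict (tsupport ζ)) := by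
      have := hv _ hK hζ.sub
      refine (this.const_mul (M : ℂ)).mono (hζ.smooth.continuous.aestronglyMeasurable.restrict.mul
        this.1) (Filter.Eventually.of_forall fun z => ?_)
      simp only [norm_mul, Complex.norm_real, Real.norm_eq_abs]
      gcongr
      exact (hM z).trans (le_abs_self M)
    have h2 := (memLp_indicator_iff_restrict (isClosed_tsupport ζ).measurableSet
      (f := fun z => ζ z * v z) (p := 2) (μ := volume)).2 h1
    have e : (tsupport ζ).indicator (fun z => ζ z * v z) = fun z => ζ z * v z := by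
      funext z
      by_cases hz : z ∈ tsupport ζ
      · rw [Set.indicator_of_mem hz]
      · rw [Set.indicator_of_notMem hz, image_eq_zero_of_notMem_tsupport hz, zero_mul]
    rwa [e] at h2
  have := hu.test_L2 hU sw bw hm hK hζ.sub (fun z hz => by
    rw [image_eq_zero_of_notMem_tsupport hz, zero_mul])
  simpa only [mul_assoc] using this

/-- bounded sequences which converge against test functions converge weakly in `L²` -/
theorem TLim.wlim (hU : IsOpen U) {w : ℕ → ℂ → ℂ} {u : ℂ → ℂ} (sw : SmoothSeq U w)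
    (bw : LBdd 2 U w) (hu : TLim U w u) : WLim U w u := by
  intro K hK hKU ζ hζ
  have hm : MemLp (K.indicator ζ) 2 volume :=
    (memLp_indicator_iff_restrict hK.measurableSet).2 hζ
  have key := hu.test_L2 hU sw bw hm hK hKU (fun z hz => Set.indicator_of_notMem hz ζ)
  have e : ∀ f : ℂ → ℂ, ∫ z, K.indicator ζ z * f z = ∫ z in K, ζ z * f z := by
    intro f
    rw [← integral_indicator hK.measurableSet]
    refine integral_congr_ae (Filter.Eventually.of_forall fun z => ?_)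
    by_cases hz : z ∈ K
    · simp [hz]
    · simp [hz]
  simpa only [e] using key

theorem Test.memLp2 {ζ : ℂ → ℂ} (hζ : Test U ζ) (K : Set ℂ) : MemLp ζ 2 (volume.restrict K) :=
  (hζ.smooth.continuous.memLp_of_hasCompactSupport hζ.supp).restrict K

theorem Test.setIntegral {ζ : ℂ → ℂ} (_ : Test U ζ) (f : ℂ → ℂ) :
    ∫ z in tsupport ζ, ζ z * f z = ∫ z, ζ z * f z := by
  rw [setIntegral_eq_integral_of_forall_compl_eq_zero]
  intro z hz
  rw [image_eq_zero_of_notMem_tsupport hz, zero_mul]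

theorem WLim.tlim {w : ℕ → ℂ → ℂ} {u : ℂ → ℂ} (hw : WLim U w u) (hu : LocL2 U u) : TLim U w u := by
  refine ⟨hu, fun ζ hζ => ?_⟩
  have := hw (tsupport ζ) hζ.supp hζ.sub ζ (hζ.memLp2 _)
  simpa only [hζ.setIntegral] using this

theorem WLim.congr_ae {w : ℕ → ℂ → ℂ} {u v : ℂ → ℂ} (hu : WLim U w u)
    (he : ∀ᵐ z ∂(volume.restrict U), u z = v z) : WLim U w v := by
  intro K hK hKU ζ hζ
  have e : ∫ z in K, ζ z * u z = ∫ z in K, ζ z * v z := by
    refine integral_congr_ae ?_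
    have := ae_restrict_of_ae_restrict_of_subset hKU he
    filter_upwards [this] with z hz
    rw [hz]
  rw [← e]
  exact hu K hK hKU ζ hζ

theorem WLim.subseq {w : ℕ → ℂ → ℂ} {u : ℂ → ℂ} (hu : WLim U w u) {s : ℕ → ℕ}
    (hs : Tendsto s atTop atTop) : WLim U (fun n => w (s n)) u :=
  fun K hK hKU ζ hζ => (hu K hK hKU ζ hζ).comp hs

theorem LBdd.subseq {p : ℕ} {w : ℕ → ℂ → ℂ} (hw : LBdd p U w) {s : ℕ → ℕ}
    (hs : Tendsto s atTop atTop) : LBdd p U (fun n => w (s n)) := by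
  intro K hK hKU
  obtain ⟨C, hC⟩ := hw K hK hKU
  exact ⟨C, hs.eventually hC⟩

theorem SmoothSeq.subseq {w : ℕ → ℂ → ℂ} (hw : SmoothSeq U w) (s : ℕ → ℕ) :
    SmoothSeq U (fun n => w (s n)) := fun n => hw (s n)

end

end QE


end

section

/-!
Four jets, when the products of two jets converge weakly to functions (helper70).
-/

open Complex MeasureTheory Filter Topology
open scoped ContDiff

namespace QE

noncomputable section

variable {U : Set ℂ} {h : ℕ → ℝ} {a : ℂ → ℂ} {g : ℂ → ℂ} {φ : ℕ → ℂ → ℂ} {u : ℤ → ℂ → ℂ}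

/-- the weak limit of the product of two jets -/
def WW (u : ℤ → ℂ → ℂ) (j m : ℤ) (z : ℂ) : ℂ := (-1) ^ j * u (j + m) z

/-- the Wick sum -/
def GW (u : ℤ → ℂ → ℂ) (j m k l : ℤ) (z : ℂ) : ℂ :=
  WW u j m z * WW u k l z + WW u j k z * WW u m l z + WW u j l z * WW u m k z

/-- the integral of the Wick sum -/
def Gam (u : ℤ → ℂ → ℂ) (ζ : ℂ → ℂ) (j m k l : ℤ) : ℂ := ∫ z, ζ z * GW u j m k l z

/-- the products of two jets have the weak limits `WW u` -/
structure JetLim (U : Set ℂ) (h : ℕ → ℝ) (a : ℂ → ℂ) (φ : ℕ → ℂ → ℂ) (u : ℤ → ℂ → ℂ) : Prop where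
  loc : ∀ k, LocL2 U (u k)
  lim : ∀ j m : ℤ, WLim U (fun n z => E h a φ j n z * E h a φ m n z)
    (fun z => (-1) ^ j * u (j + m) z)

theorem WW_succ (j k : ℤ) (z : ℂ) : WW u (j + 1) k z = - WW u j (k + 1) z := by
  unfold WW
  have : j + 1 + k = j + (k + 1) := by ring
  rw [this, zpow_add_one₀ (by norm_num)]
  ring

theorem WW_loc (hu : ∀ k, LocL2 U (u k)) (j m : ℤ) : LocL2 U (WW u j m) := (hu (j + m)).const_mul _

theorem Test.int_GW (hu : ∀ k, LocL2 U (u k)) {ζ : ℂ → ℂ} (hζ : Test U ζ) (j m k l : ℤ) :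
    Integrable (fun z => ζ z * GW u j m k l z) := by
  have h1 := hζ.int_LocL2_mul (WW_loc hu j m) (WW_loc hu k l)
  have h2 := hζ.int_LocL2_mul (WW_loc hu j k) (WW_loc hu m l)
  have h3 := hζ.int_LocL2_mul (WW_loc hu j l) (WW_loc hu m k)
  refine ((h1.add h2).add h3).congr (Filter.Eventually.of_forall fun z => ?_)
  simp only [Pi.add_apply]
  unfold GW
  ring

theorem Test.congr_ae {ζ f f' : ℂ → ℂ} (hU : IsOpen U) (hζ : Test U ζ)
    (he : ∀ᵐ z ∂((volume : Measure ℂ).restrict U), f z = f' z) :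
    ∫ z, ζ z * f z = ∫ z, ζ z * f' z := by
  rw [ae_restrict_iff' hU.measurableSet] at he
  refine integral_congr_ae ?_
  filter_upwards [he] with z hz
  by_cases hzU : z ∈ U
  · rw [hz hzU]
  · have : ζ z = 0 := image_eq_zero_of_notMem_tsupport fun hh => hzU (hζ.sub hh)
    rw [this, zero_mul, zero_mul]

theorem GW_step (j m k l : ℤ) (z : ℂ) : GW u (j + 1) (m + 1) k l z - GW u j m (k + 1) (l + 1) z
    = WW u (j + 1) (m + 1) z * WW u k l z - WW u j m z * WW u (k + 1) (l + 1) z := by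
  unfold GW
  rw [WW_succ j k, WW_succ m l, WW_succ j l, WW_succ m k]
  ring

theorem GW_ibp (j m k l : ℤ) (z : ℂ) : GW u (j + 1) m k l z + GW u j (m + 1) k l z
    + GW u j m (k + 1) l z + GW u j m k (l + 1) z = 0 := by
  unfold GW
  rw [WW_succ j m, WW_succ j k, WW_succ j l, WW_succ m l, WW_succ m k, WW_succ k l]
  ring

theorem JetLim.sym (hU : IsOpen U) (S : JetLim U h a φ u) :
    ∀ᵐ z ∂((volume : Measure ℂ).restrict U), ∀ j m : ℤ, WW u j m z = WW u m j z := by
  rw [ae_all_iff]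
  intro j
  rw [ae_all_iff]
  intro m
  refine WLim.unique hU (S.lim j m) ((S.lim m j).congr fun n z _ => mul_comm _ _)
    (WW_loc S.loc j m) (WW_loc S.loc m j)

theorem Gam_12 (hU : IsOpen U) (S : JetLim U h a φ u) {ζ : ℂ → ℂ} (hζ : Test U ζ) (j m k l : ℤ) :
    Gam u ζ j m k l = Gam u ζ m j k l := by
  refine hζ.congr_ae hU ?_
  filter_upwards [S.sym hU] with z hz
  unfold GW
  rw [hz j m]
  ring

theorem Gam_23 (hU : IsOpen U) (S : JetLim U h a φ u) {ζ : ℂ → ℂ} (hζ : Test U ζ) (j m k l : ℤ) :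
    Gam u ζ j m k l = Gam u ζ j k m l := by
  refine hζ.congr_ae hU ?_
  filter_upwards [S.sym hU] with z hz
  unfold GW
  rw [hz m k]
  ring

theorem Gam_34 (hU : IsOpen U) (S : JetLim U h a φ u) {ζ : ℂ → ℂ} (hζ : Test U ζ) (j m k l : ℤ) :
    Gam u ζ j m k l = Gam u ζ j m l k := by
  refine hζ.congr_ae hU ?_
  filter_upwards [S.sym hU] with z hz
  unfold GW
  rw [hz k l]
  ring

namespace Setup

variable (S : Setup U g a h φ)

include S

/-- **the currents** -/
theorem hmac_var (L : JetLim U h a φ u) (j m k l : ℤ) {ζ : ℂ → ℂ} (hζ : Test U ζ) :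
    Tendsto (fun n =>
      (∫ z, ζ z * (E h a φ (j + 1) n z * E h a φ (m + 1) n z * (E h a φ k n z * E h a φ l n z)))
      - (∫ z, ζ z * (E h a φ j n z * E h a φ m n z
        * (E h a φ (k + 1) n z * E h a φ (l + 1) n z)))) atTop
      (𝓝 (Gam u ζ (j + 1) (m + 1) k l - Gam u ζ j m (k + 1) (l + 1))) := by
  have hneg : ∀ j m : ℤ, WLim U (fun n z => -(E h a φ j n z * E h a φ m n z))
      (fun z => -(WW u j m z)) := by
    intro j m
    have := (L.lim j m).const_mul (-1)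
    have h1 := this.congr (v' := fun n z => -(E h a φ j n z * E h a φ m n z))
      (fun n z _ => by ring)
    exact h1.congr_right fun z _ => by unfold WW; ring
  have hd := div_curl_gen S.op (A := fun n z => E h a φ j n z * E h a φ m n z)
    (B := fun n z => -(E h a φ (j + 1) n z * E h a φ (m + 1) n z))
    (A' := fun n z => E h a φ k n z * E h a φ l n z)
    (B' := fun n z => -(E h a φ (k + 1) n z * E h a φ (l + 1) n z))
    (S.sm2 j m) (S.sm2 (j + 1) (m + 1)).neg (S.sm2 k l) (S.sm2 (k + 1) (l + 1)).neg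
    (S.bd2 j m) (S.bd2 (j + 1) (m + 1)).neg (S.bd2 k l) (S.bd2 (k + 1) (l + 1)).neg
    (S.div_bdd j m) (S.div_bdd k l) (a := WW u j m) (b := fun z => -(WW u (j + 1) (m + 1) z))
    (a' := WW u k l) (b' := fun z => -(WW u (k + 1) (l + 1) z))
    (WW_loc L.loc _ _) (fun K hK hKU => (WW_loc L.loc _ _ K hK hKU).neg)
    (WW_loc L.loc _ _) (fun K hK hKU => (WW_loc L.loc _ _ K hK hKU).neg)
    (L.lim j m) (hneg (j + 1) (m + 1)) (L.lim k l) (hneg (k + 1) (l + 1)) hζ
  have e1 : Gam u ζ (j + 1) (m + 1) k l - Gam u ζ j m (k + 1) (l + 1)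
      = ∫ w, ζ w * (WW u j m w * -(WW u (k + 1) (l + 1) w)
        - -(WW u (j + 1) (m + 1) w) * WW u k l w) := by
    unfold Gam
    rw [← integral_sub (hζ.int_GW L.loc _ _ _ _) (hζ.int_GW L.loc _ _ _ _)]
    refine MeasureTheory.integral_congr_ae (Filter.Eventually.of_forall fun z => ?_)
    beta_reduce
    rw [← mul_sub, GW_step]
    ring
  rw [e1]
  refine hd.congr fun n => ?_
  rw [← integral_sub (S.int4 hζ n _ _ _ _) (S.int4 hζ n _ _ _ _)]
  refine MeasureTheory.integral_congr_ae (Filter.Eventually.of_forall fun z => ?_)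
  beta_reduce; ring

end Setup

/-- the fourth order correlations minus the Wick sums -/
def YY (h : ℕ → ℝ) (a : ℂ → ℂ) (φ : ℕ → ℂ → ℂ) (u : ℤ → ℂ → ℂ) (ζ : ℂ → ℂ) (n : ℕ)
    (j m k l : ℤ) : ℂ :=
  (∫ z, ζ z * (E h a φ j n z * E h a φ m n z * (E h a φ k n z * E h a φ l n z)))
    - Gam u ζ j m k l

section

variable (S : Setup U g a h φ) (L : JetLim U h a φ u) {ζ : ℂ → ℂ} (hζ : Test U ζ)

include S L hζ

theorem YY_12 (n : ℕ) (j m k l : ℤ) : YY h a φ u ζ n j m k l = YY h a φ u ζ n m j k l := by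
  unfold YY
  rw [Gam_12 S.op L hζ]
  congr 1
  refine MeasureTheory.integral_congr_ae (Filter.Eventually.of_forall fun z => ?_)
  beta_reduce; ring

theorem YY_23 (n : ℕ) (j m k l : ℤ) : YY h a φ u ζ n j m k l = YY h a φ u ζ n j k m l := by
  unfold YY
  rw [Gam_23 S.op L hζ]
  congr 1
  refine MeasureTheory.integral_congr_ae (Filter.Eventually.of_forall fun z => ?_)
  beta_reduce; ring

theorem YY_34 (n : ℕ) (j m k l : ℤ) : YY h a φ u ζ n j m k l = YY h a φ u ζ n j m l k := by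
  unfold YY
  rw [Gam_34 S.op L hζ]
  congr 1
  refine MeasureTheory.integral_congr_ae (Filter.Eventually.of_forall fun z => ?_)
  beta_reduce; ring

theorem YY_mac (j m k l : ℤ) : Tendsto (fun n => YY h a φ u ζ n (j + 1) (m + 1) k l
    - YY h a φ u ζ n j m (k + 1) (l + 1)) atTop
      (𝓝 ((P (j + 1) (m + 1) * P k l - P j m * P (k + 1) (l + 1)) * ((0 : ℝ) : ℂ))) := by
  have h1 := (S.hmac_var L j m k l hζ).sub_const
    (Gam u ζ (j + 1) (m + 1) k l - Gam u ζ j m (k + 1) (l + 1))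
  rw [sub_self] at h1
  rw [ofReal_zero, mul_zero]
  refine h1.congr fun n => ?_
  unfold YY
  ring

theorem YY_ibp (j m k l : ℤ) : Tendsto (fun n => YY h a φ u ζ n (j + 1) m k l
    + YY h a φ u ζ n j (m + 1) k l + YY h a φ u ζ n j m (k + 1) l
    + YY h a φ u ζ n j m k (l + 1)) atTop (𝓝 0) := by
  refine (S.ibp4 j m k l hζ).congr fun n => ?_
  have e : Gam u ζ (j + 1) m k l + Gam u ζ j (m + 1) k l + Gam u ζ j m (k + 1) l
      + Gam u ζ j m k (l + 1) = 0 := by
    unfold Gam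
    rw [← integral_add_four (hζ.int_GW L.loc _ _ _ _) (hζ.int_GW L.loc _ _ _ _)
      (hζ.int_GW L.loc _ _ _ _) (hζ.int_GW L.loc _ _ _ _)]
    have : ∀ z, ζ z * GW u (j + 1) m k l z + ζ z * GW u j (m + 1) k l z
        + ζ z * GW u j m (k + 1) l z + ζ z * GW u j m k (l + 1) z = 0 := by
      intro z
      rw [← mul_add, ← mul_add, ← mul_add, GW_ibp, mul_zero]
    simp [this]
  unfold YY
  linear_combination e

/-- **the four-jet formula** for variable limits: the correlations of total index zero -/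
theorem jets_four_var (j m k l : ℤ) (hs : j + m + k + l = 0) :
    Tendsto (fun n => YY h a φ u ζ n j m k l - pat j m k l * YY h a φ u ζ n 0 0 0 0) atTop
      (𝓝 0) := by
  have hibp := YY_ibp S L hζ 0 0 0 (-1)
  simp only [zero_add, neg_add_cancel] at hibp
  have key := alg_pattern (X := YY h a φ u ζ) (Z := 0) (YY_12 S L hζ) (YY_23 S L hζ)
    (YY_mac S L hζ) hibp j m k l hs
  simpa using key

end

/-! ### the lower bound for the fourth moment -/

/-- the integral of `|u_k|²` -/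
def UU (u : ℤ → ℂ → ℂ) (ρ : ℂ → ℝ) (k : ℤ) : ℝ := ∫ z, ρ z * ‖u k z‖ ^ 2

theorem UU_nonneg {ρ : ℂ → ℝ} (hρ : ∀ z, 0 ≤ ρ z) (k : ℤ) : 0 ≤ UU u ρ k :=
  integral_nonneg fun z => mul_nonneg (hρ z) (by positivity)

theorem Test.tsupport_eq (ρ : ℂ → ℝ) : tsupport (fun z => (ρ z : ℂ)) = tsupport ρ := by
  unfold tsupport
  congr 1
  ext z
  simp

theorem Test.int_real {ρ : ℂ → ℝ} (hρ : Test U (fun z => (ρ z : ℂ))) {f : ℂ → ℝ}
    (hf : IntegrableOn f (tsupport ρ)) : Integrable (fun z => ρ z * f z) := by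
  have h1 := hρ.int_of_intOn (f := fun z => (f z : ℂ)) (by
    rw [Test.tsupport_eq]; exact hf.ofReal)
  have h2 := h1.re
  refine h2.congr (Filter.Eventually.of_forall fun z => ?_)
  simp

theorem Test.int_sq {ρ : ℂ → ℝ} (hρ : Test U (fun z => (ρ z : ℂ))) {v : ℂ → ℂ}
    (hv : LocL2 U v) : Integrable (fun z => ρ z * ‖v z‖ ^ 2) := by
  refine hρ.int_real ?_
  have hs := hρ.sub
  have hc := hρ.supp
  rw [Test.tsupport_eq] at hs
  have hc' : IsCompact (tsupport ρ) := by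
    have : IsCompact (tsupport (fun z => (ρ z : ℂ))) := hρ.supp
    rwa [Test.tsupport_eq] at this
  exact MemLp.sqInt (hv _ hc' hs)

/-- the Wick sum for the quadruples of the positivity argument -/
theorem GW_quads (hc : ∀ᵐ z ∂((volume : Measure ℂ).restrict U),
      ∀ k, u (-k) z = (starRingEnd ℂ) (u k z)) (p q r s : ℤ) (he : p + q = r + s) :
    ∀ᵐ z ∂((volume : Measure ℂ).restrict U), GW u (2 * p) (2 * q) (-(2 * r)) (-(2 * s)) z
      = ((‖u (2 * (p + q)) z‖ ^ 2 + ‖u (2 * (p - r)) z‖ ^ 2 + ‖u (2 * (p - s)) z‖ ^ 2 : ℝ) : ℂ) := by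
  filter_upwards [hc] with z hz
  have hW : ∀ x y : ℤ, WW u (2 * x) y z = u (2 * x + y) z := by
    intro x y
    unfold WW
    rw [zpow_mul]
    norm_num
  have hW' : ∀ x y : ℤ, WW u (-(2 * x)) y z = u (-(2 * x) + y) z := by
    intro x y
    have := hW (-x) y
    rw [mul_neg] at this
    exact this
  have hn : ∀ k, u k z * u (-k) z = ((‖u k z‖ ^ 2 : ℝ) : ℂ) := by
    intro k
    rw [hz, mul_conj, Complex.normSq_eq_norm_sq]
  unfold GW
  rw [hW, hW', hW, hW, hW, hW]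
  have e1 : 2 * p + 2 * q = 2 * (p + q) := by ring
  have e2 : -(2 * r) + -(2 * s) = -(2 * (p + q)) := by rw [he]; ring
  have e3 : 2 * p + -(2 * r) = 2 * (p - r) := by ring
  have e4 : 2 * q + -(2 * s) = -(2 * (p - r)) := by
    have : q = r + s - p := by linarith
    rw [this]; ring
  have e5 : 2 * p + -(2 * s) = 2 * (p - s) := by ring
  have e6 : 2 * q + -(2 * r) = -(2 * (p - s)) := by
    have : q = r + s - p := by linarith
    rw [this]; ring
  rw [e1, e2, e3, e4, e5, e6, hn, hn, hn]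
  push_cast
  ring

/-- sums over the quadruples are bounded by sums over intervals -/
theorem sum_quads_le {V : ℤ → ℝ} (hV : ∀ k, 0 ≤ V k) (M : ℕ) :
    ∑ p ∈ quads M, (V (2 * ((p.1.1 : ℤ) + p.1.2)) + V (2 * ((p.1.1 : ℤ) - p.2.1))
      + V (2 * ((p.1.1 : ℤ) - p.2.2)))
      ≤ 3 * ((M : ℝ) + 1) ^ 2 * ∑ k ∈ Finset.Ioo (-((4 * M + 1 : ℕ) : ℤ)) ((4 * M + 1 : ℕ) : ℤ), V k := by
  set I := Finset.Ioo (-((4 * M + 1 : ℕ) : ℤ)) ((4 * M + 1 : ℕ) : ℤ) with hI
  set R := Finset.range (M + 1) with hR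
  set Tot := ∑ k ∈ I, V k with hTot
  -- injective sums
  have hinj : ∀ f : ℕ → ℤ, (∀ x ∈ R, f x ∈ I) → Set.InjOn f R → ∑ x ∈ R, V (f x) ≤ Tot := by
    intro f hf hi
    rw [← Finset.sum_image (f := V) hi]
    refine Finset.sum_le_sum_of_subset_of_nonneg ?_ fun k _ _ => hV k
    intro k hk
    obtain ⟨x, hx, rfl⟩ := Finset.mem_image.1 hk
    exact hf x hx
  have hmem : ∀ {x : ℕ}, x ∈ R → x ≤ M := by
    intro x hx
    rw [hR, Finset.mem_range] at hx
    omega
  have hIm : ∀ k : ℤ, -(4 * M : ℤ) ≤ k → k ≤ 4 * M → k ∈ I := by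
    intro k h1 h2
    rw [hI, Finset.mem_Ioo]
    constructor <;> push_cast <;> linarith
  have card : (R.card : ℝ) = (M : ℝ) + 1 := by rw [hR, Finset.card_range]; push_cast; ring
  -- a quadruple is determined by three of its entries
  have hproj : ∀ (F : ℕ → ℕ → ℕ → ℝ), (∀ x y z, 0 ≤ F x y z) →
      (∑ p ∈ quads M, F p.1.1 p.1.2 p.2.1 ≤ ∑ x ∈ R, ∑ y ∈ R, ∑ z ∈ R, F x y z) := by
    intro F hF
    have h1 : ∑ p ∈ quads M, F p.1.1 p.1.2 p.2.1
        = ∑ t ∈ (quads M).image (fun p => (p.1.1, p.1.2, p.2.1)), F t.1 t.2.1 t.2.2 := by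
      rw [Finset.sum_image]
      rintro ⟨⟨a1, b1⟩, c1, d1⟩ h1 ⟨⟨a2, b2⟩, c2, d2⟩ h2 h3
      simp only [Prod.mk.injEq] at h3
      have k1 := (mem_quads.1 h1).2
      have k2 := (mem_quads.1 h2).2
      simp only [Prod.mk.injEq]
      simp only at k1 k2
      omega
    rw [h1]
    have h2 : (quads M).image (fun p => (p.1.1, p.1.2, p.2.1)) ⊆ R ×ˢ (R ×ˢ R) := by
      intro t ht
      obtain ⟨p, hp, rfl⟩ := Finset.mem_image.1 ht
      have := (mem_quads.1 hp).1
      simp only [Finset.mem_product, hR, Finset.mem_range]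
      omega
    refine (Finset.sum_le_sum_of_subset_of_nonneg h2 fun t _ _ => hF _ _ _).trans (le_of_eq ?_)
    rw [Finset.sum_product]
    refine Finset.sum_congr rfl fun x _ => ?_
    rw [Finset.sum_product]
  have hproj' : ∀ (F : ℕ → ℕ → ℕ → ℝ), (∀ x y z, 0 ≤ F x y z) →
      (∑ p ∈ quads M, F p.1.1 p.1.2 p.2.2 ≤ ∑ x ∈ R, ∑ y ∈ R, ∑ z ∈ R, F x y z) := by
    intro F hF
    have h1 : ∑ p ∈ quads M, F p.1.1 p.1.2 p.2.2
        = ∑ t ∈ (quads M).image (fun p => (p.1.1, p.1.2, p.2.2)), F t.1 t.2.1 t.2.2 := by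
      rw [Finset.sum_image]
      rintro ⟨⟨a1, b1⟩, c1, d1⟩ h1 ⟨⟨a2, b2⟩, c2, d2⟩ h2 h3
      simp only [Prod.mk.injEq] at h3
      have k1 := (mem_quads.1 h1).2
      have k2 := (mem_quads.1 h2).2
      simp only [Prod.mk.injEq]
      simp only at k1 k2
      omega
    rw [h1]
    have h2 : (quads M).image (fun p => (p.1.1, p.1.2, p.2.2)) ⊆ R ×ˢ (R ×ˢ R) := by
      intro t ht
      obtain ⟨p, hp, rfl⟩ := Finset.mem_image.1 ht
      have := (mem_quads.1 hp).1
      simp only [Finset.mem_product, hR, Finset.mem_range]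
      omega
    refine (Finset.sum_le_sum_of_subset_of_nonneg h2 fun t _ _ => hF _ _ _).trans (le_of_eq ?_)
    rw [Finset.sum_product]
    refine Finset.sum_congr rfl fun x _ => ?_
    rw [Finset.sum_product]
  have b1 : ∑ p ∈ quads M, V (2 * ((p.1.1 : ℤ) + p.1.2)) ≤ ((M : ℝ) + 1) ^ 2 * Tot := by
    refine (hproj (fun x y _ => V (2 * ((x : ℤ) + y))) fun x y z => hV _).trans ?_
    have : ∀ x ∈ R, ∑ y ∈ R, ∑ _z ∈ R, V (2 * ((x : ℤ) + y)) ≤ ((M : ℝ) + 1) * Tot := by
      intro x hx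
      rw [Finset.sum_comm]
      have h0 : ∀ z ∈ R, ∑ y ∈ R, V (2 * ((x : ℤ) + y)) ≤ Tot := by
        intro z _
        refine hinj (fun y => 2 * ((x : ℤ) + y)) (fun y hy => ?_) ?_
        · have h1 := hmem hx
          have h2 := hmem hy
          refine hIm _ ?_ ?_ <;> push_cast <;> omega
        · intro y _ y' _ he
          simp only at he
          omega
      refine (Finset.sum_le_sum h0).trans (le_of_eq ?_)
      rw [Finset.sum_const, nsmul_eq_mul, card]
    refine (Finset.sum_le_sum this).trans (le_of_eq ?_)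
    rw [Finset.sum_const, nsmul_eq_mul, card]
    ring
  have b2 : ∑ p ∈ quads M, V (2 * ((p.1.1 : ℤ) - p.2.1)) ≤ ((M : ℝ) + 1) ^ 2 * Tot := by
    refine (hproj (fun x _ z => V (2 * ((x : ℤ) - z))) fun x y z => hV _).trans ?_
    have : ∀ x ∈ R, ∑ _y ∈ R, ∑ z ∈ R, V (2 * ((x : ℤ) - z)) ≤ ((M : ℝ) + 1) * Tot := by
      intro x hx
      have h0 : ∀ y ∈ R, ∑ z ∈ R, V (2 * ((x : ℤ) - z)) ≤ Tot := by
        intro y _
        refine hinj (fun z => 2 * ((x : ℤ) - z)) (fun z hz => ?_) ?_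
        · have h1 := hmem hx
          have h2 := hmem hz
          refine hIm _ ?_ ?_ <;> push_cast <;> omega
        · intro y _ y' _ he
          simp only at he
          omega
      refine (Finset.sum_le_sum h0).trans (le_of_eq ?_)
      rw [Finset.sum_const, nsmul_eq_mul, card]
    refine (Finset.sum_le_sum this).trans (le_of_eq ?_)
    rw [Finset.sum_const, nsmul_eq_mul, card]
    ring
  have b3 : ∑ p ∈ quads M, V (2 * ((p.1.1 : ℤ) - p.2.2)) ≤ ((M : ℝ) + 1) ^ 2 * Tot := by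
    refine (hproj' (fun x _ z => V (2 * ((x : ℤ) - z))) fun x y z => hV _).trans ?_
    have : ∀ x ∈ R, ∑ _y ∈ R, ∑ z ∈ R, V (2 * ((x : ℤ) - z)) ≤ ((M : ℝ) + 1) * Tot := by
      intro x hx
      have h0 : ∀ y ∈ R, ∑ z ∈ R, V (2 * ((x : ℤ) - z)) ≤ Tot := by
        intro y _
        refine hinj (fun z => 2 * ((x : ℤ) - z)) (fun z hz => ?_) ?_
        · have h1 := hmem hx
          have h2 := hmem hz
          refine hIm _ ?_ ?_ <;> push_cast <;> omega
        · intro y _ y' _ he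
          simp only at he
          omega
      refine (Finset.sum_le_sum h0).trans (le_of_eq ?_)
      rw [Finset.sum_const, nsmul_eq_mul, card]
    refine (Finset.sum_le_sum this).trans (le_of_eq ?_)
    rw [Finset.sum_const, nsmul_eq_mul, card]
    ring
  rw [Finset.sum_add_distrib, Finset.sum_add_distrib]
  linarith

end

end QE


end
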