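import Mathlib

/-! Parts: LibH11.Berry.Core, LibH11.Berry.Forms, LibH11.Berry.Ladder, LibH11.Berry.Smear, LibH11.Berry.Avg -/

section

/-!
Core algebra for planar monochromatic four-point and three-point functions.

`Q a b c e t₁ t₂ t₃ t₄` is to be thought of as
`E[W^a F(t₁) W^b F(t₂) W^c F(t₃) W^e F(t₄)]`, with `W = ∂_x + i ∂_y` and `W⁻¹ = -(∂_x - i ∂_y)`.
-/

open Complex Filter Topology MeasureTheory

namespace Berry

/-- the derivative rule of a ladder family in one variable -/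
noncomputable def lad (v p m : ℂ) : ℂ := (starRingEnd ℂ v) / 2 * p - v / 2 * m

/-- a function all of whose derivatives vanish takes the same value at `1` and `0` -/
lemma eq_of_hasDerivAt_zero {g : ℝ → ℂ} (h : ∀ s, HasDerivAt g 0 s) : g 1 = g 0 := by
  have h1 : Differentiable ℝ g := fun s => (h s).differentiableAt
  have h2 : ∀ s, deriv g s = 0 := fun s => (h s).deriv
  exact is_const_of_deriv_eq_zero h1 h2 1 0

section four

variable (Q : ℤ → ℤ → ℤ → ℤ → ℂ → ℂ → ℂ → ℂ → ℂ)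

/-- derivative rule in all four variables -/
def Der4 : Prop := ∀ a b c e t₁ t₂ t₃ t₄ v₁ v₂ v₃ v₄,
  HasDerivAt (fun s : ℝ => Q a b c e (t₁ + s * v₁) (t₂ + s * v₂) (t₃ + s * v₃) (t₄ + s * v₄))
    (lad v₁ (Q (a+1) b c e t₁ t₂ t₃ t₄) (Q (a-1) b c e t₁ t₂ t₃ t₄)
     + lad v₂ (Q a (b+1) c e t₁ t₂ t₃ t₄) (Q a (b-1) c e t₁ t₂ t₃ t₄)
     + lad v₃ (Q a b (c+1) e t₁ t₂ t₃ t₄) (Q a b (c-1) e t₁ t₂ t₃ t₄)
     + lad v₄ (Q a b c (e+1) t₁ t₂ t₃ t₄) (Q a b c (e-1) t₁ t₂ t₃ t₄)) 0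

variable {Q}

lemma Der4.at (h : Der4 Q) (a b c e : ℤ) (t₁ t₂ t₃ t₄ v₁ v₂ v₃ v₄ : ℂ) (r : ℝ) :
    HasDerivAt (fun s : ℝ => Q a b c e (t₁ + s * v₁) (t₂ + s * v₂) (t₃ + s * v₃) (t₄ + s * v₄))
    (lad v₁ (Q (a+1) b c e (t₁ + r * v₁) (t₂ + r * v₂) (t₃ + r * v₃) (t₄ + r * v₄))
        (Q (a-1) b c e (t₁ + r * v₁) (t₂ + r * v₂) (t₃ + r * v₃) (t₄ + r * v₄))
     + lad v₂ (Q a (b+1) c e (t₁ + r * v₁) (t₂ + r * v₂) (t₃ + r * v₃) (t₄ + r * v₄))
        (Q a (b-1) c e (t₁ + r * v₁) (t₂ + r * v₂) (t₃ + r * v₃) (t₄ + r * v₄))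
     + lad v₃ (Q a b (c+1) e (t₁ + r * v₁) (t₂ + r * v₂) (t₃ + r * v₃) (t₄ + r * v₄))
        (Q a b (c-1) e (t₁ + r * v₁) (t₂ + r * v₂) (t₃ + r * v₃) (t₄ + r * v₄))
     + lad v₄ (Q a b c (e+1) (t₁ + r * v₁) (t₂ + r * v₂) (t₃ + r * v₃) (t₄ + r * v₄))
        (Q a b c (e-1) (t₁ + r * v₁) (t₂ + r * v₂) (t₃ + r * v₃) (t₄ + r * v₄))) r := by
  have h0 := h a b c e (t₁ + r * v₁) (t₂ + r * v₂) (t₃ + r * v₃) (t₄ + r * v₄) v₁ v₂ v₃ v₄
  have h1 : HasDerivAt (fun s : ℝ => s - r) 1 r := (hasDerivAt_id r).sub_const r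
  have h2 := HasDerivAt.scomp_of_eq (x := r) (y := (0:ℝ)) h0 h1 (by simp)
  simp only [one_smul] at h2
  refine h2.congr_of_eventuallyEq ?_
  filter_upwards with s
  simp only [Function.comp]
  push_cast
  congr 1 <;> ring

/-- joint translation invariance -/
def Inv4 (Q : ℤ → ℤ → ℤ → ℤ → ℂ → ℂ → ℂ → ℂ → ℂ) : Prop := ∀ a b c e t₁ t₂ t₃ t₄ s,
  Q a b c e (t₁ + s) (t₂ + s) (t₃ + s) (t₄ + s) = Q a b c e t₁ t₂ t₃ t₄

lemma lad_zero_imp {p m : Fin 4 → ℂ}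
    (h : ∀ v, lad v (p 0) (m 0) + lad v (p 1) (m 1) + lad v (p 2) (m 2) + lad v (p 3) (m 3) = 0) :
    p 0 + p 1 + p 2 + p 3 = 0 ∧ m 0 + m 1 + m 2 + m 3 = 0 := by
  have h1 := h 1
  have h2 := h I
  simp only [lad, map_one, conj_I] at h1 h2
  have h3 : (p 0 + p 1 + p 2 + p 3) - (m 0 + m 1 + m 2 + m 3) = 0 := by
    linear_combination 2 * h1
  have h4 : (p 0 + p 1 + p 2 + p 3) + (m 0 + m 1 + m 2 + m 3) = 0 := by
    have h5 : I * ((p 0 + p 1 + p 2 + p 3) + (m 0 + m 1 + m 2 + m 3)) = 0 := by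
      linear_combination (-2) * h2
    rcases mul_eq_zero.1 h5 with h6 | h6
    · exact absurd h6 I_ne_zero
    · exact h6
  constructor
  · linear_combination (1/2) * h3 + (1/2) * h4
  · linear_combination (1/2) * h4 - (1/2) * h3

lemma Inv4.sum (hd : Der4 Q) (hi : Inv4 Q) (a b c e : ℤ) (t₁ t₂ t₃ t₄ : ℂ) :
    Q (a+1) b c e t₁ t₂ t₃ t₄ + Q a (b+1) c e t₁ t₂ t₃ t₄ + Q a b (c+1) e t₁ t₂ t₃ t₄
      + Q a b c (e+1) t₁ t₂ t₃ t₄ = 0 ∧
    Q (a-1) b c e t₁ t₂ t₃ t₄ + Q a (b-1) c e t₁ t₂ t₃ t₄ + Q a b (c-1) e t₁ t₂ t₃ t₄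
      + Q a b c (e-1) t₁ t₂ t₃ t₄ = 0 := by
  have key : ∀ v, lad v (Q (a+1) b c e t₁ t₂ t₃ t₄) (Q (a-1) b c e t₁ t₂ t₃ t₄)
     + lad v (Q a (b+1) c e t₁ t₂ t₃ t₄) (Q a (b-1) c e t₁ t₂ t₃ t₄)
     + lad v (Q a b (c+1) e t₁ t₂ t₃ t₄) (Q a b (c-1) e t₁ t₂ t₃ t₄)
     + lad v (Q a b c (e+1) t₁ t₂ t₃ t₄) (Q a b c (e-1) t₁ t₂ t₃ t₄) = 0 := by
    intro v
    have h1 := hd a b c e t₁ t₂ t₃ t₄ v v v v
    have h2 : (fun s : ℝ => Q a b c e (t₁ + s * v) (t₂ + s * v) (t₃ + s * v) (t₄ + s * v))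
        = fun _ => Q a b c e t₁ t₂ t₃ t₄ := by
      funext s
      exact hi _ _ _ _ _ _ _ _ _
    rw [h2] at h1
    exact h1.unique (hasDerivAt_const _ _)
  have := lad_zero_imp (p := ![Q (a+1) b c e t₁ t₂ t₃ t₄, Q a (b+1) c e t₁ t₂ t₃ t₄,
    Q a b (c+1) e t₁ t₂ t₃ t₄, Q a b c (e+1) t₁ t₂ t₃ t₄])
    (m := ![Q (a-1) b c e t₁ t₂ t₃ t₄, Q a (b-1) c e t₁ t₂ t₃ t₄,
    Q a b (c-1) e t₁ t₂ t₃ t₄, Q a b c (e-1) t₁ t₂ t₃ t₄]) (by simpa using key)
  simpa using this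

/-- The identity `(W₁+W₂)(W₂+W₃)(W₃+W₁) Q = 0`. -/
lemma Inv4.cubic (hd : Der4 Q) (hi : Inv4 Q) (a b c e : ℤ) (t₁ t₂ t₃ t₄ : ℂ) :
    Q (a+2) (b+1) c e t₁ t₂ t₃ t₄ + Q (a+2) b (c+1) e t₁ t₂ t₃ t₄
    + Q (a+1) (b+2) c e t₁ t₂ t₃ t₄ + Q a (b+2) (c+1) e t₁ t₂ t₃ t₄
    + Q (a+1) b (c+2) e t₁ t₂ t₃ t₄ + Q a (b+1) (c+2) e t₁ t₂ t₃ t₄
    + 2 * Q (a+1) (b+1) (c+1) e t₁ t₂ t₃ t₄ = 0 := by
  -- at the point (a+1, b+1, c+1, e)
  obtain ⟨-, h1⟩ := Inv4.sum hd hi (a+1) (b+1) (c+1) (e+1) t₁ t₂ t₃ t₄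
  obtain ⟨h2, -⟩ := Inv4.sum hd hi a (b+1) (c+1) e t₁ t₂ t₃ t₄
  obtain ⟨h3, -⟩ := Inv4.sum hd hi (a+1) b (c+1) e t₁ t₂ t₃ t₄
  obtain ⟨h4, -⟩ := Inv4.sum hd hi (a+1) (b+1) c e t₁ t₂ t₃ t₄
  have e1 : a + 1 - 1 = a := by ring
  have e2 : b + 1 - 1 = b := by ring
  have e3 : c + 1 - 1 = c := by ring
  have e4 : e + 1 - 1 = e := by ring
  have e5 : a + 1 + 1 = a + 2 := by ring
  have e6 : b + 1 + 1 = b + 2 := by ring
  have e7 : c + 1 + 1 = c + 2 := by ring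
  rw [e1, e2, e3, e4] at h1
  rw [e6, e7] at h2
  rw [e5, e7] at h3
  rw [e5, e6] at h4
  linear_combination h2 + h3 + h4 - h1

/-- A ladder family annihilated by `W₁ + W₂` is invariant under joint translations of the first
two variables. -/
lemma shift12 (hd : Der4 Q)
    (h : ∀ a b c e t₁ t₂ t₃ t₄, Q (a+1) b c e t₁ t₂ t₃ t₄ + Q a (b+1) c e t₁ t₂ t₃ t₄ = 0)
    (a b c e : ℤ) (t₁ t₂ t₃ t₄ s : ℂ) :
    Q a b c e (t₁ + s) (t₂ + s) t₃ t₄ = Q a b c e t₁ t₂ t₃ t₄ := by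
  have key : ∀ r : ℝ, HasDerivAt
      (fun r : ℝ => Q a b c e (t₁ + r * s) (t₂ + r * s) (t₃ + r * 0) (t₄ + r * 0)) 0 r := by
    intro r
    have h1 := hd.at a b c e t₁ t₂ t₃ t₄ s s 0 0 r
    refine h1.congr_deriv ?_
    have h2 := h a b c e (t₁ + r * s) (t₂ + r * s) (t₃ + r * 0) (t₄ + r * 0)
    have h3 := h (a-1) (b-1) c e (t₁ + r * s) (t₂ + r * s) (t₃ + r * 0) (t₄ + r * 0)
    rw [sub_add_cancel, sub_add_cancel] at h3
    simp only [lad, map_zero]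
    linear_combination (starRingEnd ℂ s / 2) * h2 - (s / 2) * h3
  have := eq_of_hasDerivAt_zero key
  simpa using this

lemma shift23 (hd : Der4 Q)
    (h : ∀ a b c e t₁ t₂ t₃ t₄, Q a (b+1) c e t₁ t₂ t₃ t₄ + Q a b (c+1) e t₁ t₂ t₃ t₄ = 0)
    (a b c e : ℤ) (t₁ t₂ t₃ t₄ s : ℂ) :
    Q a b c e t₁ (t₂ + s) (t₃ + s) t₄ = Q a b c e t₁ t₂ t₃ t₄ := by
  have key : ∀ r : ℝ, HasDerivAt
      (fun r : ℝ => Q a b c e (t₁ + r * 0) (t₂ + r * s) (t₃ + r * s) (t₄ + r * 0)) 0 r := by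
    intro r
    have h1 := hd.at a b c e t₁ t₂ t₃ t₄ 0 s s 0 r
    refine h1.congr_deriv ?_
    have h2 := h a b c e (t₁ + r * 0) (t₂ + r * s) (t₃ + r * s) (t₄ + r * 0)
    have h3 := h a (b-1) (c-1) e (t₁ + r * 0) (t₂ + r * s) (t₃ + r * s) (t₄ + r * 0)
    rw [sub_add_cancel, sub_add_cancel] at h3
    simp only [lad, map_zero]
    linear_combination (starRingEnd ℂ s / 2) * h2 - (s / 2) * h3
  have := eq_of_hasDerivAt_zero key
  simpa using this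

lemma shift13 (hd : Der4 Q)
    (h : ∀ a b c e t₁ t₂ t₃ t₄, Q (a+1) b c e t₁ t₂ t₃ t₄ + Q a b (c+1) e t₁ t₂ t₃ t₄ = 0)
    (a b c e : ℤ) (t₁ t₂ t₃ t₄ s : ℂ) :
    Q a b c e (t₁ + s) t₂ (t₃ + s) t₄ = Q a b c e t₁ t₂ t₃ t₄ := by
  have key : ∀ r : ℝ, HasDerivAt
      (fun r : ℝ => Q a b c e (t₁ + r * s) (t₂ + r * 0) (t₃ + r * s) (t₄ + r * 0)) 0 r := by
    intro r
    have h1 := hd.at a b c e t₁ t₂ t₃ t₄ s 0 s 0 r
    refine h1.congr_deriv ?_
    have h2 := h a b c e (t₁ + r * s) (t₂ + r * 0) (t₃ + r * s) (t₄ + r * 0)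
    have h3 := h (a-1) b (c-1) e (t₁ + r * s) (t₂ + r * 0) (t₃ + r * s) (t₄ + r * 0)
    rw [sub_add_cancel, sub_add_cancel] at h3
    simp only [lad, map_zero]
    linear_combination (starRingEnd ℂ s / 2) * h2 - (s / 2) * h3
  have := eq_of_hasDerivAt_zero key
  simpa using this

/-- averages over discs centred at the origin -/
noncomputable def avg (g : ℂ → ℂ) (R : ℝ) : ℂ := ⨍ s in Metric.ball (0:ℂ) R, g s

/-- the derivative rule is stable under finite linear combinations -/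
lemma Der4.add {Q' : ℤ → ℤ → ℤ → ℤ → ℂ → ℂ → ℂ → ℂ → ℂ} (h : Der4 Q) (h' : Der4 Q') :
    Der4 (fun a b c e t₁ t₂ t₃ t₄ => Q a b c e t₁ t₂ t₃ t₄ + Q' a b c e t₁ t₂ t₃ t₄) := by
  intro a b c e t₁ t₂ t₃ t₄ v₁ v₂ v₃ v₄
  refine ((h a b c e t₁ t₂ t₃ t₄ v₁ v₂ v₃ v₄).add
    (h' a b c e t₁ t₂ t₃ t₄ v₁ v₂ v₃ v₄)).congr_deriv ?_
  simp only [lad]; ring

lemma Der4.const_mul (h : Der4 Q) (k : ℂ) :
    Der4 (fun a b c e t₁ t₂ t₃ t₄ => k * Q a b c e t₁ t₂ t₃ t₄) := by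
  intro a b c e t₁ t₂ t₃ t₄ v₁ v₂ v₃ v₄
  refine ((h a b c e t₁ t₂ t₃ t₄ v₁ v₂ v₃ v₄).const_mul k).congr_deriv ?_
  simp only [lad]; ring

lemma Der4.shift (h : Der4 Q) (i j k l : ℤ) :
    Der4 (fun a b c e t₁ t₂ t₃ t₄ => Q (a+i) (b+j) (c+k) (e+l) t₁ t₂ t₃ t₄) := by
  intro a b c e t₁ t₂ t₃ t₄ v₁ v₂ v₃ v₄
  refine (h (a+i) (b+j) (c+k) (e+l) t₁ t₂ t₃ t₄ v₁ v₂ v₃ v₄).congr_deriv ?_
  have e1 : a + i + 1 = a + 1 + i := by ring
  have e2 : b + j + 1 = b + 1 + j := by ring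
  have e3 : c + k + 1 = c + 1 + k := by ring
  have e4 : e + l + 1 = e + 1 + l := by ring
  have f1 : a + i - 1 = a - 1 + i := by ring
  have f2 : b + j - 1 = b - 1 + j := by ring
  have f3 : c + k - 1 = c - 1 + k := by ring
  have f4 : e + l - 1 = e - 1 + l := by ring
  rw [e1, e2, e3, e4, f1, f2, f3, f4]

/-- **Core lemma.** A jointly translation invariant ladder family in four planar variables whose
means over joint translations of two of the first three variables all vanish is zero. -/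
theorem core4 (hd : Der4 Q) (hi : Inv4 Q) (Z : (ℂ → ℂ) → Prop)
    (hadd : ∀ g h, Z g → Z h → Z (fun s => g s + h s)) (hconst : ∀ k : ℂ, Z (fun _ => k) → k = 0)
    (h12 : ∀ a b c e t₁ t₂ t₃ t₄, Z (fun s => Q a b c e (t₁ + s) (t₂ + s) t₃ t₄))
    (h23 : ∀ a b c e t₁ t₂ t₃ t₄, Z (fun s => Q a b c e t₁ (t₂ + s) (t₃ + s) t₄))
    (h13 : ∀ a b c e t₁ t₂ t₃ t₄, Z (fun s => Q a b c e (t₁ + s) t₂ (t₃ + s) t₄))
    (a b c e : ℤ) (t₁ t₂ t₃ t₄ : ℂ) : Q a b c e t₁ t₂ t₃ t₄ = 0 := by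
  -- step 1 : `u = B C Q` vanishes
  have s1 : ∀ a b c e t₁ t₂ t₃ t₄, Q a (b+1) (c+1) e t₁ t₂ t₃ t₄ + Q (a+1) (b+1) c e t₁ t₂ t₃ t₄
      + (Q a b (c+2) e t₁ t₂ t₃ t₄ + Q (a+1) b (c+1) e t₁ t₂ t₃ t₄) = 0 := by
    set u : ℤ → ℤ → ℤ → ℤ → ℂ → ℂ → ℂ → ℂ → ℂ := fun a b c e t₁ t₂ t₃ t₄ =>
      Q a (b+1) (c+1) e t₁ t₂ t₃ t₄ + Q (a+1) (b+1) c e t₁ t₂ t₃ t₄
      + (Q a b (c+2) e t₁ t₂ t₃ t₄ + Q (a+1) b (c+1) e t₁ t₂ t₃ t₄) with hu
    have hud : Der4 u := by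
      have := (((hd.shift 0 1 1 0).add (hd.shift 1 1 0 0)).add
        ((hd.shift 0 0 2 0).add (hd.shift 1 0 1 0)))
      simpa only [add_zero] using this
    have hA : ∀ a b c e t₁ t₂ t₃ t₄, u (a+1) b c e t₁ t₂ t₃ t₄ + u a (b+1) c e t₁ t₂ t₃ t₄ = 0 := by
      intro a b c e t₁ t₂ t₃ t₄
      have h1 := Inv4.cubic hd hi a b c e t₁ t₂ t₃ t₄
      simp only [hu]
      have e5 : a + 1 + 1 = a + 2 := by ring
      have e6 : b + 1 + 1 = b + 2 := by ring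
      rw [e5, e6]
      linear_combination h1
    intro a b c e t₁ t₂ t₃ t₄
    have hs := shift12 hud hA a b c e t₁ t₂ t₃ t₄
    apply hconst
    have hz : Z (fun s => u a b c e (t₁ + s) (t₂ + s) t₃ t₄) :=
      hadd _ _ (hadd _ _ (h12 _ _ _ _ _ _ _ _) (h12 _ _ _ _ _ _ _ _))
        (hadd _ _ (h12 _ _ _ _ _ _ _ _) (h12 _ _ _ _ _ _ _ _))
    have : (fun s => u a b c e (t₁ + s) (t₂ + s) t₃ t₄) = fun _ => u a b c e t₁ t₂ t₃ t₄ := by
      funext s; exact hs s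
    rw [this] at hz
    exact hz
  -- step 2 : `C Q` vanishes
  have s2 : ∀ a b c e t₁ t₂ t₃ t₄, Q a b (c+1) e t₁ t₂ t₃ t₄ + Q (a+1) b c e t₁ t₂ t₃ t₄ = 0 := by
    set u : ℤ → ℤ → ℤ → ℤ → ℂ → ℂ → ℂ → ℂ → ℂ := fun a b c e t₁ t₂ t₃ t₄ =>
      Q a b (c+1) e t₁ t₂ t₃ t₄ + Q (a+1) b c e t₁ t₂ t₃ t₄ with hu
    have hud : Der4 u := by
      have := ((hd.shift 0 0 1 0).add (hd.shift 1 0 0 0))
      simpa only [add_zero] using this
    have hB : ∀ a b c e t₁ t₂ t₃ t₄, u a (b+1) c e t₁ t₂ t₃ t₄ + u a b (c+1) e t₁ t₂ t₃ t₄ = 0 := by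
      intro a b c e t₁ t₂ t₃ t₄
      have h1 := s1 a b c e t₁ t₂ t₃ t₄
      simp only [hu]
      have e7 : c + 1 + 1 = c + 2 := by ring
      rw [e7]
      linear_combination h1
    intro a b c e t₁ t₂ t₃ t₄
    have hs := shift23 hud hB a b c e t₁ t₂ t₃ t₄
    apply hconst
    have hz : Z (fun s => u a b c e t₁ (t₂ + s) (t₃ + s) t₄) :=
      hadd _ _ (h23 _ _ _ _ _ _ _ _) (h23 _ _ _ _ _ _ _ _)
    have : (fun s => u a b c e t₁ (t₂ + s) (t₃ + s) t₄) = fun _ => u a b c e t₁ t₂ t₃ t₄ := by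
      funext s; exact hs s
    rw [this] at hz
    exact hz
  -- step 3 : `Q` vanishes
  have hs := shift13 hd (fun a b c e t₁ t₂ t₃ t₄ => by
    rw [add_comm]; exact s2 a b c e t₁ t₂ t₃ t₄) a b c e t₁ t₂ t₃ t₄
  apply hconst
  have hz := h13 a b c e t₁ t₂ t₃ t₄
  have : (fun s => Q a b c e (t₁ + s) t₂ (t₃ + s) t₄) = fun _ => Q a b c e t₁ t₂ t₃ t₄ := by
    funext s; exact hs s
  rw [this] at hz
  exact hz

end four

section three

variable (Q : ℤ → ℤ → ℤ → ℂ → ℂ → ℂ → ℂ)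

/-- derivative rule in three variables -/
def Der3 : Prop := ∀ a b c t₁ t₂ t₃ v₁ v₂ v₃,
  HasDerivAt (fun s : ℝ => Q a b c (t₁ + s * v₁) (t₂ + s * v₂) (t₃ + s * v₃))
    (lad v₁ (Q (a+1) b c t₁ t₂ t₃) (Q (a-1) b c t₁ t₂ t₃)
     + lad v₂ (Q a (b+1) c t₁ t₂ t₃) (Q a (b-1) c t₁ t₂ t₃)
     + lad v₃ (Q a b (c+1) t₁ t₂ t₃) (Q a b (c-1) t₁ t₂ t₃)) 0

variable {Q}

lemma Der3.at (h : Der3 Q) (a b c : ℤ) (t₁ t₂ t₃ v₁ v₂ v₃ : ℂ) (r : ℝ) :
    HasDerivAt (fun s : ℝ => Q a b c (t₁ + s * v₁) (t₂ + s * v₂) (t₃ + s * v₃))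
    (lad v₁ (Q (a+1) b c (t₁ + r * v₁) (t₂ + r * v₂) (t₃ + r * v₃))
        (Q (a-1) b c (t₁ + r * v₁) (t₂ + r * v₂) (t₃ + r * v₃))
     + lad v₂ (Q a (b+1) c (t₁ + r * v₁) (t₂ + r * v₂) (t₃ + r * v₃))
        (Q a (b-1) c (t₁ + r * v₁) (t₂ + r * v₂) (t₃ + r * v₃))
     + lad v₃ (Q a b (c+1) (t₁ + r * v₁) (t₂ + r * v₂) (t₃ + r * v₃))
        (Q a b (c-1) (t₁ + r * v₁) (t₂ + r * v₂) (t₃ + r * v₃))) r := by
  have h0 := h a b c (t₁ + r * v₁) (t₂ + r * v₂) (t₃ + r * v₃) v₁ v₂ v₃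
  have h1 : HasDerivAt (fun s : ℝ => s - r) 1 r := (hasDerivAt_id r).sub_const r
  have h2 := HasDerivAt.scomp_of_eq (x := r) (y := (0:ℝ)) h0 h1 (by simp)
  simp only [one_smul] at h2
  refine h2.congr_of_eventuallyEq ?_
  filter_upwards with s
  simp only [Function.comp]
  push_cast
  congr 1 <;> ring

/-- joint translation invariance -/
def Inv3 (Q : ℤ → ℤ → ℤ → ℂ → ℂ → ℂ → ℂ) : Prop := ∀ a b c t₁ t₂ t₃ s,
  Q a b c (t₁ + s) (t₂ + s) (t₃ + s) = Q a b c t₁ t₂ t₃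

lemma Inv3.sum (hd : Der3 Q) (hi : Inv3 Q) (a b c : ℤ) (t₁ t₂ t₃ : ℂ) :
    Q (a+1) b c t₁ t₂ t₃ + Q a (b+1) c t₁ t₂ t₃ + Q a b (c+1) t₁ t₂ t₃ = 0 ∧
    Q (a-1) b c t₁ t₂ t₃ + Q a (b-1) c t₁ t₂ t₃ + Q a b (c-1) t₁ t₂ t₃ = 0 := by
  have key : ∀ v, lad v (Q (a+1) b c t₁ t₂ t₃) (Q (a-1) b c t₁ t₂ t₃)
     + lad v (Q a (b+1) c t₁ t₂ t₃) (Q a (b-1) c t₁ t₂ t₃)
     + lad v (Q a b (c+1) t₁ t₂ t₃) (Q a b (c-1) t₁ t₂ t₃) = 0 := by
    intro v
    have h1 := hd a b c t₁ t₂ t₃ v v v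
    have h2 : (fun s : ℝ => Q a b c (t₁ + s * v) (t₂ + s * v) (t₃ + s * v))
        = fun _ => Q a b c t₁ t₂ t₃ := by
      funext s
      exact hi _ _ _ _ _ _ _
    rw [h2] at h1
    exact h1.unique (hasDerivAt_const _ _)
  have := lad_zero_imp (p := ![Q (a+1) b c t₁ t₂ t₃, Q a (b+1) c t₁ t₂ t₃,
    Q a b (c+1) t₁ t₂ t₃, 0])
    (m := ![Q (a-1) b c t₁ t₂ t₃, Q a (b-1) c t₁ t₂ t₃,
    Q a b (c-1) t₁ t₂ t₃, 0]) (by
      intro v
      have := key v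
      simp only [lad] at this ⊢
      simpa using this)
  simpa using this

/-- `(W₁² + W₁W₂ + W₂²) Q = 0` -/
lemma Inv3.quad (hd : Der3 Q) (hi : Inv3 Q) (a b c : ℤ) (t₁ t₂ t₃ : ℂ) :
    Q (a+2) b c t₁ t₂ t₃ + Q (a+1) (b+1) c t₁ t₂ t₃ + Q a (b+2) c t₁ t₂ t₃ = 0 := by
  obtain ⟨-, h1⟩ := Inv3.sum hd hi (a+1) (b+1) (c+1) t₁ t₂ t₃
  obtain ⟨h2, -⟩ := Inv3.sum hd hi a (b+1) c t₁ t₂ t₃
  obtain ⟨h3, -⟩ := Inv3.sum hd hi (a+1) b c t₁ t₂ t₃
  have e1 : a + 1 - 1 = a := by ring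
  have e2 : b + 1 - 1 = b := by ring
  have e3 : c + 1 - 1 = c := by ring
  have e5 : a + 1 + 1 = a + 2 := by ring
  have e6 : b + 1 + 1 = b + 2 := by ring
  rw [e1, e2, e3] at h1
  rw [e6] at h2
  rw [e5] at h3
  linear_combination h2 + h3 - h1

/-- a primitive cube root of unity -/
def IsZeta (ζ : ℂ) : Prop := ζ + starRingEnd ℂ ζ = -1 ∧ ζ * starRingEnd ℂ ζ = 1

lemma shiftζ {ζ : ℂ} (hζ : IsZeta ζ) (hd : Der3 Q)
    (h : ∀ a b c t₁ t₂ t₃, Q (a+1) b c t₁ t₂ t₃ = ζ * Q a (b+1) c t₁ t₂ t₃)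
    (a b c : ℤ) (t₁ t₂ t₃ s : ℂ) :
    Q a b c (t₁ + s) (t₂ - starRingEnd ℂ ζ * s) t₃ = Q a b c t₁ t₂ t₃ := by
  have key : ∀ r : ℝ, HasDerivAt
      (fun r : ℝ => Q a b c (t₁ + r * s) (t₂ + r * (-(starRingEnd ℂ ζ) * s)) (t₃ + r * 0)) 0 r := by
    intro r
    have h1 := hd.at a b c t₁ t₂ t₃ s (-(starRingEnd ℂ ζ) * s) 0 r
    refine h1.congr_deriv ?_
    have h2 := h a b c (t₁ + r * s) (t₂ + r * (-(starRingEnd ℂ ζ) * s)) (t₃ + r * 0)
    have h3 := h (a-1) (b-1) c (t₁ + r * s) (t₂ + r * (-(starRingEnd ℂ ζ) * s)) (t₃ + r * 0)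
    rw [sub_add_cancel, sub_add_cancel] at h3
    have hz := hζ.2
    simp only [lad, map_zero, map_mul, map_neg, conj_conj]
    rw [h2, h3]
    linear_combination (s / 2) * Q (a - 1) b c (t₁ + r * s) (t₂ + r * (-(starRingEnd ℂ ζ) * s))
      (t₃ + r * 0) * hz
  have := eq_of_hasDerivAt_zero key
  simp only [ofReal_one, one_mul, mul_zero, add_zero, ofReal_zero, zero_mul] at this
  rw [← this]
  congr 1
  ring

/-- the derivative rule is stable under finite linear combinations -/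
lemma Der3.add {Q' : ℤ → ℤ → ℤ → ℂ → ℂ → ℂ → ℂ} (h : Der3 Q) (h' : Der3 Q') :
    Der3 (fun a b c t₁ t₂ t₃ => Q a b c t₁ t₂ t₃ + Q' a b c t₁ t₂ t₃) := by
  intro a b c t₁ t₂ t₃ v₁ v₂ v₃
  refine ((h a b c t₁ t₂ t₃ v₁ v₂ v₃).add
    (h' a b c t₁ t₂ t₃ v₁ v₂ v₃)).congr_deriv ?_
  simp only [lad]; ring

lemma Der3.const_mul (h : Der3 Q) (k : ℂ) :
    Der3 (fun a b c t₁ t₂ t₃ => k * Q a b c t₁ t₂ t₃) := by
  intro a b c t₁ t₂ t₃ v₁ v₂ v₃
  refine ((h a b c t₁ t₂ t₃ v₁ v₂ v₃).const_mul k).congr_deriv ?_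
  simp only [lad]; ring

lemma Der3.shift (h : Der3 Q) (i j k : ℤ) :
    Der3 (fun a b c t₁ t₂ t₃ => Q (a+i) (b+j) (c+k) t₁ t₂ t₃) := by
  intro a b c t₁ t₂ t₃ v₁ v₂ v₃
  refine (h (a+i) (b+j) (c+k) t₁ t₂ t₃ v₁ v₂ v₃).congr_deriv ?_
  have e1 : a + i + 1 = a + 1 + i := by ring
  have e2 : b + j + 1 = b + 1 + j := by ring
  have e3 : c + k + 1 = c + 1 + k := by ring
  have f1 : a + i - 1 = a - 1 + i := by ring
  have f2 : b + j - 1 = b - 1 + j := by ring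
  have f3 : c + k - 1 = c - 1 + k := by ring
  rw [e1, e2, e3, f1, f2, f3]

/-- **Core lemma, three variables.** -/
theorem core3 {ζ : ℂ} (hζ : IsZeta ζ) (hd : Der3 Q) (hi : Inv3 Q) (Z : (ℂ → ℂ) → Prop)
    (hadd : ∀ g h, Z g → Z h → Z (fun s => g s + h s))
    (hmul : ∀ (k : ℂ) g, Z g → Z (fun s => k * g s)) (hconst : ∀ k : ℂ, Z (fun _ => k) → k = 0)
    (h1 : ∀ a b c t₁ t₂ t₃, Z (fun s => Q a b c (t₁ + s) (t₂ - starRingEnd ℂ ζ * s) t₃))
    (h2 : ∀ a b c t₁ t₂ t₃, Z (fun s => Q a b c (t₁ + s) (t₂ - ζ * s) t₃))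
    (a b c : ℤ) (t₁ t₂ t₃ : ℂ) : Q a b c t₁ t₂ t₃ = 0 := by
  have s1 : ∀ a b c t₁ t₂ t₃, Q (a+1) b c t₁ t₂ t₃
      + -(starRingEnd ℂ ζ) * Q a (b+1) c t₁ t₂ t₃ = 0 := by
    set u : ℤ → ℤ → ℤ → ℂ → ℂ → ℂ → ℂ := fun a b c t₁ t₂ t₃ =>
      Q (a+1) b c t₁ t₂ t₃ + -(starRingEnd ℂ ζ) * Q a (b+1) c t₁ t₂ t₃ with hu
    have hud : Der3 u := by
      have := ((hd.shift 1 0 0).add ((hd.shift 0 1 0).const_mul (-(starRingEnd ℂ ζ))))
      simpa only [add_zero] using this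
    have hA : ∀ a b c t₁ t₂ t₃, u (a+1) b c t₁ t₂ t₃ = ζ * u a (b+1) c t₁ t₂ t₃ := by
      intro a b c t₁ t₂ t₃
      have h3 := Inv3.quad hd hi a b c t₁ t₂ t₃
      simp only [hu]
      have e5 : a + 1 + 1 = a + 2 := by ring
      have e6 : b + 1 + 1 = b + 2 := by ring
      rw [e5, e6]
      have z1 := hζ.1
      have z2 := hζ.2
      linear_combination h3 - Q (a+1) (b+1) c t₁ t₂ t₃ * z1 + Q a (b+2) c t₁ t₂ t₃ * z2
    intro a b c t₁ t₂ t₃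
    have hs := shiftζ hζ hud hA a b c t₁ t₂ t₃
    apply hconst
    have hz : Z (fun s => u a b c (t₁ + s) (t₂ - starRingEnd ℂ ζ * s) t₃) :=
      hadd _ _ (h1 _ _ _ _ _ _) (hmul _ _ (h1 _ _ _ _ _ _))
    have : (fun s => u a b c (t₁ + s) (t₂ - starRingEnd ℂ ζ * s) t₃)
        = fun _ => u a b c t₁ t₂ t₃ := by
      funext s; exact hs s
    rw [this] at hz
    exact hz
  have hζ' : IsZeta (starRingEnd ℂ ζ) := by
    refine ⟨?_, ?_⟩
    · rw [conj_conj, add_comm]; exact hζ.1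
    · rw [conj_conj, mul_comm]; exact hζ.2
  have hs := shiftζ hζ' hd (fun a b c t₁ t₂ t₃ => by
    have := s1 a b c t₁ t₂ t₃
    linear_combination this) a b c t₁ t₂ t₃
  rw [conj_conj] at hs
  apply hconst
  have hz := h2 a b c t₁ t₂ t₃
  have : (fun s => Q a b c (t₁ + s) (t₂ - ζ * s) t₃) = fun _ => Q a b c t₁ t₂ t₃ := by
    funext s; exact hs s
  rw [this] at hz
  exact hz

end three

end Berry


end

section

/-!
The four-linear form `∫ a b c d` on `L⁴`.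
-/

open Complex Filter Topology MeasureTheory ContinuousLinearMap
open scoped ENNReal

namespace Berry

noncomputable section

instance fact_one_le_four : Fact ((1:ℝ≥0∞) ≤ 4) := ⟨by norm_num⟩

instance holderTriple442 : ENNReal.HolderTriple 4 4 2 where
  inv_add_inv_eq_inv := by
    have h : (4:ℝ≥0∞)⁻¹ + 4⁻¹ = 2⁻¹ := by
      rw [← two_mul]
      have h4 : (4:ℝ≥0∞) = 2 * 2 := by norm_num
      rw [h4, ENNReal.mul_inv (by simp) (by simp), ← mul_assoc,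
        ENNReal.mul_inv_cancel (by simp) (by simp), one_mul]
    exact h

variable {Ω : Type*} [MeasurableSpace Ω] {P : Measure Ω} [IsProbabilityMeasure P]

/-- product of two `L⁴` functions, as a continuous bilinear map into `L²` -/
def mulX (P : Measure Ω) : Lp ℂ 4 P →L[ℝ] Lp ℂ 4 P →L[ℝ] Lp ℂ 2 P :=
  (ContinuousLinearMap.mul ℝ ℂ).holderL P 4 4 2

/-- the pairing `∫ f g` on `L²` -/
def pairX (P : Measure Ω) : Lp ℂ 2 P →L[ℝ] Lp ℂ 2 P →L[ℝ] ℂ :=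
  (ContinuousLinearMap.mul ℝ ℂ).lpPairing P 2 2

omit [IsProbabilityMeasure P] in
lemma coeFn_mulX (a b : Lp ℂ 4 P) : mulX P a b =ᵐ[P] fun ω => a ω * b ω :=
  ContinuousLinearMap.coeFn_holder _ a b

omit [IsProbabilityMeasure P] in
lemma pairX_eq (a b : Lp ℂ 2 P) : pairX P a b = ∫ ω, a ω * b ω ∂P :=
  ContinuousLinearMap.lpPairing_eq_integral _ a b

/-- the four-linear form `∫ a b c d` -/
def C4 (P : Measure Ω) (a b c d : Lp ℂ 4 P) : ℂ := pairX P (mulX P a b) (mulX P c d)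

omit [IsProbabilityMeasure P] in
lemma C4_eq (a b c d : Lp ℂ 4 P) : C4 P a b c d = ∫ ω, a ω * b ω * c ω * d ω ∂P := by
  rw [C4, pairX_eq]
  apply integral_congr_ae
  filter_upwards [coeFn_mulX a b, coeFn_mulX c d] with ω h1 h2
  rw [h1, h2]; ring

omit [IsProbabilityMeasure P] in
lemma C4_smul1 (z : ℂ) (a b c d : Lp ℂ 4 P) : C4 P (z • a) b c d = z * C4 P a b c d := by
  rw [C4_eq, C4_eq, ← integral_const_mul]
  apply integral_congr_ae
  filter_upwards [Lp.coeFn_smul z a] with ω h1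
  rw [h1]; simp only [Pi.smul_apply, smul_eq_mul]; ring

omit [IsProbabilityMeasure P] in
lemma C4_swap12 (a b c d : Lp ℂ 4 P) : C4 P a b c d = C4 P b a c d := by
  rw [C4_eq, C4_eq]; congr 1; funext ω; ring

omit [IsProbabilityMeasure P] in
lemma C4_swap23 (a b c d : Lp ℂ 4 P) : C4 P a b c d = C4 P a c b d := by
  rw [C4_eq, C4_eq]; congr 1; funext ω; ring

omit [IsProbabilityMeasure P] in
lemma C4_swap34 (a b c d : Lp ℂ 4 P) : C4 P a b c d = C4 P a b d c := by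
  rw [C4_eq, C4_eq]; congr 1; funext ω; ring

omit [IsProbabilityMeasure P] in
lemma C4_smul2 (z : ℂ) (a b c d : Lp ℂ 4 P) : C4 P a (z • b) c d = z * C4 P a b c d := by
  rw [C4_swap12, C4_smul1, C4_swap12]

omit [IsProbabilityMeasure P] in
lemma C4_smul3 (z : ℂ) (a b c d : Lp ℂ 4 P) : C4 P a b (z • c) d = z * C4 P a b c d := by
  rw [C4_swap23, C4_smul2, C4_swap23]

omit [IsProbabilityMeasure P] in
lemma C4_smul4 (z : ℂ) (a b c d : Lp ℂ 4 P) : C4 P a b c (z • d) = z * C4 P a b c d := by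
  rw [C4_swap34, C4_smul3, C4_swap34]

omit [IsProbabilityMeasure P] in
lemma C4_sub1 (a a' b c d : Lp ℂ 4 P) : C4 P (a - a') b c d = C4 P a b c d - C4 P a' b c d := by
  simp [C4]

omit [IsProbabilityMeasure P] in
lemma C4_sub2 (a b b' c d : Lp ℂ 4 P) : C4 P a (b - b') c d = C4 P a b c d - C4 P a b' c d := by
  simp [C4]

omit [IsProbabilityMeasure P] in
lemma C4_sub3 (a b c c' d : Lp ℂ 4 P) : C4 P a b (c - c') d = C4 P a b c d - C4 P a b c' d := by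
  simp [C4]

omit [IsProbabilityMeasure P] in
lemma C4_sub4 (a b c d d' : Lp ℂ 4 P) : C4 P a b c (d - d') = C4 P a b c d - C4 P a b c d' := by
  simp [C4]

omit [IsProbabilityMeasure P] in
lemma C4_hasDerivAt {f₁ f₂ f₃ f₄ : ℝ → Lp ℂ 4 P} {g₁ g₂ g₃ g₄ : Lp ℂ 4 P} {s : ℝ}
    (h₁ : HasDerivAt f₁ g₁ s) (h₂ : HasDerivAt f₂ g₂ s) (h₃ : HasDerivAt f₃ g₃ s)
    (h₄ : HasDerivAt f₄ g₄ s) :
    HasDerivAt (fun s => C4 P (f₁ s) (f₂ s) (f₃ s) (f₄ s))
      (C4 P g₁ (f₂ s) (f₃ s) (f₄ s) + C4 P (f₁ s) g₂ (f₃ s) (f₄ s)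
        + C4 P (f₁ s) (f₂ s) g₃ (f₄ s) + C4 P (f₁ s) (f₂ s) (f₃ s) g₄) s := by
  have m1 : HasDerivAt (fun s => mulX P (f₁ s)) (mulX P g₁) s :=
    (mulX P).hasFDerivAt.comp_hasDerivAt s h₁
  have m2 := m1.clm_apply h₂
  have m3 : HasDerivAt (fun s => mulX P (f₃ s)) (mulX P g₃) s :=
    (mulX P).hasFDerivAt.comp_hasDerivAt s h₃
  have m4 := m3.clm_apply h₄
  have m5 : HasDerivAt (fun s => pairX P (mulX P (f₁ s) (f₂ s)))
      (pairX P (mulX P g₁ (f₂ s) + mulX P (f₁ s) g₂)) s :=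
    (pairX P).hasFDerivAt.comp_hasDerivAt s m2
  have m6 := m5.clm_apply m4
  refine m6.congr_deriv ?_
  simp only [C4, map_add, _root_.add_apply]
  ring

omit [IsProbabilityMeasure P] in
lemma C4_continuous : Continuous (fun p : Lp ℂ 4 P × Lp ℂ 4 P × Lp ℂ 4 P × Lp ℂ 4 P =>
    C4 P p.1 p.2.1 p.2.2.1 p.2.2.2) := by
  unfold C4
  have h1 : Continuous (fun p : Lp ℂ 4 P × Lp ℂ 4 P × Lp ℂ 4 P × Lp ℂ 4 P =>
      mulX P p.1 p.2.1) :=
    ((mulX P).continuous.comp continuous_fst).clm_apply (continuous_fst.comp continuous_snd)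
  have h2 : Continuous (fun p : Lp ℂ 4 P × Lp ℂ 4 P × Lp ℂ 4 P × Lp ℂ 4 P =>
      mulX P p.2.2.1 p.2.2.2) :=
    ((mulX P).continuous.comp (continuous_fst.comp (continuous_snd.comp continuous_snd))).clm_apply
      (continuous_snd.comp (continuous_snd.comp continuous_snd))
  exact ((pairX P).continuous.comp h1).clm_apply h2

/-- the constant function `1` in `L⁴` -/
def one4 (P : Measure Ω) [IsProbabilityMeasure P] : Lp ℂ 4 P := MemLp.toLp (fun _ => (1:ℂ)) (memLp_const 1)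

lemma coeFn_one4 : one4 P =ᵐ[P] fun _ => (1:ℂ) := MemLp.coeFn_toLp _

/-- the bilinear form `∫ a b` on `L⁴` -/
def C2 (P : Measure Ω) [IsProbabilityMeasure P] (a b : Lp ℂ 4 P) : ℂ := C4 P a b (one4 P) (one4 P)

lemma C2_eq (a b : Lp ℂ 4 P) : C2 P a b = ∫ ω, a ω * b ω ∂P := by
  rw [C2, C4_eq]
  apply integral_congr_ae
  filter_upwards [coeFn_one4 (P := P)] with ω h
  rw [h]; ring

/-- the trilinear form `∫ a b c` on `L⁴` -/
def C3 (P : Measure Ω) [IsProbabilityMeasure P] (a b c : Lp ℂ 4 P) : ℂ := C4 P a b c (one4 P)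

lemma C3_eq (a b c : Lp ℂ 4 P) : C3 P a b c = ∫ ω, a ω * b ω * c ω ∂P := by
  rw [C3, C4_eq]
  apply integral_congr_ae
  filter_upwards [coeFn_one4 (P := P)] with ω h
  rw [h]; ring

lemma C2_hasDerivAt {f₁ f₂ : ℝ → Lp ℂ 4 P} {g₁ g₂ : Lp ℂ 4 P} {s : ℝ}
    (h₁ : HasDerivAt f₁ g₁ s) (h₂ : HasDerivAt f₂ g₂ s) :
    HasDerivAt (fun s => C2 P (f₁ s) (f₂ s)) (C2 P g₁ (f₂ s) + C2 P (f₁ s) g₂) s := by
  have h := C4_hasDerivAt h₁ h₂ (hasDerivAt_const s (one4 P)) (hasDerivAt_const s (one4 P))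
  refine h.congr_deriv ?_
  have e1 : C4 P (f₁ s) (f₂ s) 0 (one4 P) = 0 := by simp [C4]
  have e2 : C4 P (f₁ s) (f₂ s) (one4 P) 0 = 0 := by simp [C4]
  rw [e1, e2]; simp [C2]

lemma C3_hasDerivAt {f₁ f₂ f₃ : ℝ → Lp ℂ 4 P} {g₁ g₂ g₃ : Lp ℂ 4 P} {s : ℝ}
    (h₁ : HasDerivAt f₁ g₁ s) (h₂ : HasDerivAt f₂ g₂ s) (h₃ : HasDerivAt f₃ g₃ s) :
    HasDerivAt (fun s => C3 P (f₁ s) (f₂ s) (f₃ s))
      (C3 P g₁ (f₂ s) (f₃ s) + C3 P (f₁ s) g₂ (f₃ s) + C3 P (f₁ s) (f₂ s) g₃) s := by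
  have h := C4_hasDerivAt h₁ h₂ h₃ (hasDerivAt_const s (one4 P))
  refine h.congr_deriv ?_
  have e2 : C4 P (f₁ s) (f₂ s) (f₃ s) 0 = 0 := by simp [C4]
  rw [e2]; simp [C3]

lemma C2_symm (a b : Lp ℂ 4 P) : C2 P a b = C2 P b a := C4_swap12 _ _ _ _

lemma C2_smul1 (z : ℂ) (a b : Lp ℂ 4 P) : C2 P (z • a) b = z * C2 P a b := C4_smul1 _ _ _ _ _
lemma C2_smul2 (z : ℂ) (a b : Lp ℂ 4 P) : C2 P a (z • b) = z * C2 P a b := C4_smul2 _ _ _ _ _
lemma C2_sub1 (a a' b : Lp ℂ 4 P) : C2 P (a - a') b = C2 P a b - C2 P a' b := C4_sub1 _ _ _ _ _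
lemma C2_sub2 (a b b' : Lp ℂ 4 P) : C2 P a (b - b') = C2 P a b - C2 P a b' := C4_sub2 _ _ _ _ _

end

end Berry


end

section

/-!
Ladder families with values in `L⁴` and the derivative rules of the associated forms.
-/

open Complex Filter Topology MeasureTheory
open scoped ENNReal

namespace Berry

noncomputable section

/-- A ladder family: `f (a+1) = W f a`, `f (a-1) = -(W̄ f a)` with `W = ∂_x + i∂_y`. -/
structure Ladder (X : Type*) [NormedAddCommGroup X] [NormedSpace ℂ X] where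
  toFun : ℤ → ℂ → X
  deriv' : ∀ a t v, HasDerivAt (fun s : ℝ => toFun a (t + s * v))
    ((starRingEnd ℂ v / 2) • toFun (a+1) t - (v / 2) • toFun (a-1) t) 0

variable {X : Type*} [NormedAddCommGroup X] [NormedSpace ℂ X]

instance : CoeFun (Ladder X) (fun _ => ℤ → ℂ → X) := ⟨Ladder.toFun⟩

variable {Ω : Type*} [MeasurableSpace Ω] {P : Measure Ω} [IsProbabilityMeasure P]

/-- the four-point ladder function -/
def QC4 (P : Measure Ω) (f₁ f₂ f₃ f₄ : Ladder (Lp ℂ 4 P)) : ℤ → ℤ → ℤ → ℤ → ℂ → ℂ → ℂ → ℂ → ℂ :=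
  fun a b c e t₁ t₂ t₃ t₄ => C4 P (f₁ a t₁) (f₂ b t₂) (f₃ c t₃) (f₄ e t₄)

omit [IsProbabilityMeasure P] in
lemma QC4_der (f₁ f₂ f₃ f₄ : Ladder (Lp ℂ 4 P)) : Der4 (QC4 P f₁ f₂ f₃ f₄) := by
  intro a b c e t₁ t₂ t₃ t₄ v₁ v₂ v₃ v₄
  have h := C4_hasDerivAt (f₁.deriv' a t₁ v₁) (f₂.deriv' b t₂ v₂) (f₃.deriv' c t₃ v₃)
    (f₄.deriv' e t₄ v₄)
  refine h.congr_deriv ?_
  simp only [C4_sub1, C4_sub2, C4_sub3, C4_sub4, C4_smul1, C4_smul2, C4_smul3, C4_smul4,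
    ofReal_zero, zero_mul, add_zero, lad, QC4]

/-- product of two two-point ladder functions, pairing `12|34` -/
def QW12 (P : Measure Ω) [IsProbabilityMeasure P] (f₁ f₂ f₃ f₄ : Ladder (Lp ℂ 4 P)) :
    ℤ → ℤ → ℤ → ℤ → ℂ → ℂ → ℂ → ℂ → ℂ :=
  fun a b c e t₁ t₂ t₃ t₄ => C2 P (f₁ a t₁) (f₂ b t₂) * C2 P (f₃ c t₃) (f₄ e t₄)

lemma QW12_der (f₁ f₂ f₃ f₄ : Ladder (Lp ℂ 4 P)) : Der4 (QW12 P f₁ f₂ f₃ f₄) := by
  intro a b c e t₁ t₂ t₃ t₄ v₁ v₂ v₃ v₄
  have h := (C2_hasDerivAt (f₁.deriv' a t₁ v₁) (f₂.deriv' b t₂ v₂)).mul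
    (C2_hasDerivAt (f₃.deriv' c t₃ v₃) (f₄.deriv' e t₄ v₄))
  refine h.congr_deriv ?_
  simp only [C2_sub1, C2_sub2, C2_smul1, C2_smul2,
    ofReal_zero, zero_mul, add_zero, lad, QW12]
  ring

/-- pairing `13|24` -/
def QW13 (P : Measure Ω) [IsProbabilityMeasure P] (f₁ f₂ f₃ f₄ : Ladder (Lp ℂ 4 P)) :
    ℤ → ℤ → ℤ → ℤ → ℂ → ℂ → ℂ → ℂ → ℂ :=
  fun a b c e t₁ t₂ t₃ t₄ => C2 P (f₁ a t₁) (f₃ c t₃) * C2 P (f₂ b t₂) (f₄ e t₄)

lemma QW13_der (f₁ f₂ f₃ f₄ : Ladder (Lp ℂ 4 P)) : Der4 (QW13 P f₁ f₂ f₃ f₄) := by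
  intro a b c e t₁ t₂ t₃ t₄ v₁ v₂ v₃ v₄
  have h := (C2_hasDerivAt (f₁.deriv' a t₁ v₁) (f₃.deriv' c t₃ v₃)).mul
    (C2_hasDerivAt (f₂.deriv' b t₂ v₂) (f₄.deriv' e t₄ v₄))
  refine h.congr_deriv ?_
  simp only [C2_sub1, C2_sub2, C2_smul1, C2_smul2,
    ofReal_zero, zero_mul, add_zero, lad, QW13]
  ring

/-- pairing `14|23` -/
def QW14 (P : Measure Ω) [IsProbabilityMeasure P] (f₁ f₂ f₃ f₄ : Ladder (Lp ℂ 4 P)) :
    ℤ → ℤ → ℤ → ℤ → ℂ → ℂ → ℂ → ℂ → ℂ :=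
  fun a b c e t₁ t₂ t₃ t₄ => C2 P (f₁ a t₁) (f₄ e t₄) * C2 P (f₂ b t₂) (f₃ c t₃)

lemma QW14_der (f₁ f₂ f₃ f₄ : Ladder (Lp ℂ 4 P)) : Der4 (QW14 P f₁ f₂ f₃ f₄) := by
  intro a b c e t₁ t₂ t₃ t₄ v₁ v₂ v₃ v₄
  have h := (C2_hasDerivAt (f₁.deriv' a t₁ v₁) (f₄.deriv' e t₄ v₄)).mul
    (C2_hasDerivAt (f₂.deriv' b t₂ v₂) (f₃.deriv' c t₃ v₃))
  refine h.congr_deriv ?_
  simp only [C2_sub1, C2_sub2, C2_smul1, C2_smul2,
    ofReal_zero, zero_mul, add_zero, lad, QW14]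
  ring

/-- the fourth cumulant ladder function -/
def QD (P : Measure Ω) [IsProbabilityMeasure P] (f₁ f₂ f₃ f₄ : Ladder (Lp ℂ 4 P)) :
    ℤ → ℤ → ℤ → ℤ → ℂ → ℂ → ℂ → ℂ → ℂ :=
  fun a b c e t₁ t₂ t₃ t₄ => QC4 P f₁ f₂ f₃ f₄ a b c e t₁ t₂ t₃ t₄ +
    ((-1) * QW12 P f₁ f₂ f₃ f₄ a b c e t₁ t₂ t₃ t₄ +
    ((-1) * QW13 P f₁ f₂ f₃ f₄ a b c e t₁ t₂ t₃ t₄ +
      (-1) * QW14 P f₁ f₂ f₃ f₄ a b c e t₁ t₂ t₃ t₄))

lemma QD_der (f₁ f₂ f₃ f₄ : Ladder (Lp ℂ 4 P)) : Der4 (QD P f₁ f₂ f₃ f₄) :=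
  (QC4_der f₁ f₂ f₃ f₄).add (((QW12_der f₁ f₂ f₃ f₄).const_mul (-1)).add
    (((QW13_der f₁ f₂ f₃ f₄).const_mul (-1)).add ((QW14_der f₁ f₂ f₃ f₄).const_mul (-1))))

/-- the three-point ladder function -/
def QC3 (P : Measure Ω) [IsProbabilityMeasure P] (f₁ f₂ f₃ : Ladder (Lp ℂ 4 P)) :
    ℤ → ℤ → ℤ → ℂ → ℂ → ℂ → ℂ :=
  fun a b c t₁ t₂ t₃ => C3 P (f₁ a t₁) (f₂ b t₂) (f₃ c t₃)

lemma QC3_der (f₁ f₂ f₃ : Ladder (Lp ℂ 4 P)) : Der3 (QC3 P f₁ f₂ f₃) := by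
  intro a b c t₁ t₂ t₃ v₁ v₂ v₃
  have h := C3_hasDerivAt (f₁.deriv' a t₁ v₁) (f₂.deriv' b t₂ v₂) (f₃.deriv' c t₃ v₃)
  refine h.congr_deriv ?_
  simp only [C3, C4_sub1, C4_sub2, C4_sub3, C4_smul1, C4_smul2, C4_smul3,
    ofReal_zero, zero_mul, add_zero, lad, QC3]

end

end Berry


end

section

/-!
Test functions, smearing, and ladder families obtained from weak solutions of the Helmholtz
equation.
-/

open Complex Filter Topology MeasureTheory Convolution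
open scoped ENNReal ContDiff

namespace Berry

noncomputable section

/-- `∂_x + i ∂_y` -/
def Wop (φ : ℂ → ℂ) (y : ℂ) : ℂ := fderiv ℝ φ y 1 + I * fderiv ℝ φ y I

/-- `∂_x - i ∂_y` -/
def Vop (φ : ℂ → ℂ) (y : ℂ) : ℂ := fderiv ℝ φ y 1 - I * fderiv ℝ φ y I

/-- smooth compactly supported functions -/
def TestFn (φ : ℂ → ℂ) : Prop := ContDiff ℝ ∞ φ ∧ HasCompactSupport φ

lemma TestFn.continuous {φ : ℂ → ℂ} (h : TestFn φ) : Continuous φ := h.1.continuous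

lemma TestFn.contDiff_one {φ : ℂ → ℂ} (h : TestFn φ) : ContDiff ℝ 1 φ := h.1.of_le (by exact_mod_cast le_top)

lemma TestFn.differentiable {φ : ℂ → ℂ} (h : TestFn φ) : Differentiable ℝ φ :=
  h.contDiff_one.differentiable (by norm_num)

lemma TestFn.fderiv_apply {φ : ℂ → ℂ} (h : TestFn φ) (v : ℂ) :
    TestFn (fun y => fderiv ℝ φ y v) := by
  constructor
  · have h1 : ContDiff ℝ ∞ (fderiv ℝ φ) := h.1.fderiv_right (m := ∞) (by simp)
    exact h1.clm_apply contDiff_const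
  · have h1 : HasCompactSupport (fderiv ℝ φ) := h.2.fderiv ℝ
    refine h1.mono ?_
    intro y hy
    simp only [Function.mem_support, ne_eq] at hy ⊢
    intro h2
    apply hy
    rw [h2]; simp

lemma TestFn.add {φ ψ : ℂ → ℂ} (h : TestFn φ) (h' : TestFn ψ) : TestFn (fun y => φ y + ψ y) :=
  ⟨h.1.add h'.1, h.2.add h'.2⟩

lemma TestFn.const_mul {φ : ℂ → ℂ} (h : TestFn φ) (k : ℂ) : TestFn (fun y => k * φ y) :=
  ⟨contDiff_const.mul h.1, h.2.mul_left⟩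

lemma TestFn.wop {φ : ℂ → ℂ} (h : TestFn φ) : TestFn (Wop φ) :=
  (h.fderiv_apply 1).add ((h.fderiv_apply I).const_mul I)

lemma TestFn.vop {φ : ℂ → ℂ} (h : TestFn φ) : TestFn (Vop φ) := by
  have := (h.fderiv_apply 1).add ((h.fderiv_apply I).const_mul (-I))
  have e : Vop φ = fun y => fderiv ℝ φ y 1 + (-I) * fderiv ℝ φ y I := by
    funext y; simp only [Vop]; ring
  rw [e]; exact this

lemma fderiv_eq_wop_vop (φ : ℂ → ℂ) (y v : ℂ) :
    fderiv ℝ φ y v = (starRingEnd ℂ v / 2) * Wop φ y + (v / 2) * Vop φ y := by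
  have h1 : v = v.re • (1:ℂ) + v.im • I := by
    simp
  have h2 : fderiv ℝ φ y v = v.re • fderiv ℝ φ y 1 + v.im • fderiv ℝ φ y I := by
    conv_lhs => rw [h1]
    rw [map_add, map_smul, map_smul]
  rw [h2]
  simp only [Wop, Vop, real_smul]
  have h3 : (v.re : ℂ) = (v + starRingEnd ℂ v) / 2 := by
    rw [Complex.add_conj]; push_cast; ring
  have h4 : (v.im : ℂ) = (v - starRingEnd ℂ v) / (2 * I) := by
    rw [Complex.sub_conj]; push_cast
    field_simp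
  rw [h3, h4]
  have h5 : (v - starRingEnd ℂ v) / (2 * I) = - I * (v - starRingEnd ℂ v) / 2 := by
    field_simp
    rw [I_sq]; ring
  rw [h5]; ring

/-- the ladder of test functions -/
def tl (φ : ℂ → ℂ) : ℤ → ℂ → ℂ
  | Int.ofNat n => Wop^[n] φ
  | Int.negSucc n => (fun ψ y => -(Vop ψ y))^[n+1] φ

lemma tl_testFn {φ : ℂ → ℂ} (h : TestFn φ) (a : ℤ) : TestFn (tl φ a) := by
  have h1 : ∀ n : ℕ, TestFn (Wop^[n] φ) := by
    intro n
    induction n with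
    | zero => exact h
    | succ n ih => rw [Function.iterate_succ_apply']; exact ih.wop
  have h2 : ∀ n : ℕ, TestFn ((fun ψ y => -(Vop ψ y))^[n] φ) := by
    intro n
    induction n with
    | zero => exact h
    | succ n ih =>
      rw [Function.iterate_succ_apply']
      have := ih.vop.const_mul (-1)
      simpa using this
  cases a with
  | ofNat n => exact h1 n
  | negSucc n => exact h2 (n+1)

lemma tl_zero (φ : ℂ → ℂ) : tl φ 0 = φ := rfl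

variable {X : Type*} [NormedAddCommGroup X] [NormedSpace ℂ X]

/-- smearing `∫ ψ(y) 𝔽(t - y) dy` -/
def smear (ψ : ℂ → ℂ) (F : ℂ → X) (t : ℂ) : X := ∫ y, ψ y • F (t - y)

lemma smear_integrable {ψ : ℂ → ℂ} {F : ℂ → X} (hc : Continuous ψ) (hs : HasCompactSupport ψ)
    (hF : Continuous F) (t : ℂ) : Integrable (fun y => ψ y • F (t - y)) := by
  apply Continuous.integrable_of_hasCompactSupport
  · exact hc.smul (hF.comp (continuous_const.sub continuous_id))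
  · exact hs.smul_right

lemma smear_eq_conv (ψ : ℂ → ℂ) (F : ℂ → X) :
    smear ψ F = (ψ ⋆[ContinuousLinearMap.lsmul ℝ ℂ, volume] F) := by
  funext t
  simp [smear, convolution_def]

lemma smear_hasDerivAt [CompleteSpace X] {ψ : ℂ → ℂ} {F : ℂ → X} (hψ : TestFn ψ)
    (hF : Continuous F) (t v : ℂ) :
    HasDerivAt (fun s : ℝ => smear ψ F (t + s * v))
      (smear (fun y => fderiv ℝ ψ y v) F t) 0 := by
  have h1 := hψ.2.hasFDerivAt_convolution_left (ContinuousLinearMap.lsmul ℝ ℂ)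
    hψ.contDiff_one (hF.locallyIntegrable (μ := volume)) t
  have h2 : HasDerivAt (fun s : ℝ => t + s * v) v 0 := by
    have := ((hasDerivAt_id (0:ℝ)).ofReal_comp.mul_const v).const_add t
    simpa using this
  have h3 := HasFDerivAt.comp_hasDerivAt_of_eq (0:ℝ) h1 h2 (by simp)
  rw [smear_eq_conv]
  refine h3.congr_deriv ?_
  rw [convolution_def, smear, ContinuousLinearMap.integral_apply]
  · rfl
  · have := (hψ.2.fderiv ℝ).convolutionExists_left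
      ((ContinuousLinearMap.lsmul ℝ ℂ).precompL ℂ)
      (hψ.contDiff_one.continuous_fderiv one_ne_zero) (hF.locallyIntegrable (μ := volume)) t
    exact this

lemma smear_add {ψ ψ' : ℂ → ℂ} {F : ℂ → X} (hψ : TestFn ψ) (hψ' : TestFn ψ')
    (hF : Continuous F) (t : ℂ) :
    smear (fun y => ψ y + ψ' y) F t = smear ψ F t + smear ψ' F t := by
  rw [smear, smear, smear, ← integral_add (smear_integrable hψ.continuous hψ.2 hF t)
    (smear_integrable hψ'.continuous hψ'.2 hF t)]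
  congr 1
  funext y
  rw [add_smul]

lemma smear_const_mul (k : ℂ) (ψ : ℂ → ℂ) (F : ℂ → X) (t : ℂ) :
    smear (fun y => k * ψ y) F t = k • smear ψ F t := by
  rw [smear, smear, ← integral_smul]
  congr 1
  funext y
  rw [mul_smul]

/-- weak Helmholtz equation for an `X`-valued function -/
def WeakHelm (F : ℂ → X) : Prop := ∀ ψ, TestFn ψ → ∀ t,
  smear (Wop (Vop ψ)) F t = - smear ψ F t ∧ smear (Vop (Wop ψ)) F t = - smear ψ F t

lemma smear_neg (ψ : ℂ → ℂ) (F : ℂ → X) (t : ℂ) :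
    smear (fun y => -(ψ y)) F t = - smear ψ F t := by
  have := smear_const_mul (-1) ψ F t
  simpa using this

lemma fderiv_neg_fun (ψ : ℂ → ℂ) (y v : ℂ) :
    fderiv ℝ (fun z => -(ψ z)) y v = - fderiv ℝ ψ y v := by
  have : fderiv ℝ (fun z => -(ψ z)) y = - fderiv ℝ ψ y := fderiv_fun_neg
  rw [this]; rfl

lemma Wop_neg (ψ : ℂ → ℂ) : Wop (fun z => -(ψ z)) = fun z => -(Wop ψ z) := by
  funext y
  simp only [Wop, fderiv_neg_fun]; ring

lemma Vop_neg (ψ : ℂ → ℂ) : Vop (fun z => -(ψ z)) = fun z => -(Vop ψ z) := by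
  funext y
  simp only [Vop, fderiv_neg_fun]; ring

lemma smear_wop_tl {F : ℂ → X} (hW : WeakHelm F) {φ : ℂ → ℂ} (hφ : TestFn φ) (a : ℤ) (t : ℂ) :
    smear (Wop (tl φ a)) F t = smear (tl φ (a+1)) F t := by
  match a with
  | Int.ofNat n =>
    have e : (Int.ofNat n + 1) = Int.ofNat (n+1) := rfl
    rw [e]
    simp only [tl, Function.iterate_succ_apply']
  | Int.negSucc n =>
    have e0 : tl φ (Int.negSucc n + 1) = (fun ψ y => -(Vop ψ y))^[n] φ := by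
      cases n with
      | zero => rfl
      | succ m => rfl
    have hψ : TestFn ((fun ψ y => -(Vop ψ y))^[n] φ) := by
      rw [← e0]; exact tl_testFn hφ _
    rw [e0]
    simp only [tl, Function.iterate_succ_apply']
    rw [Wop_neg, smear_neg, (hW _ hψ t).1, neg_neg]

lemma smear_vop_tl {F : ℂ → X} (hW : WeakHelm F) {φ : ℂ → ℂ} (hφ : TestFn φ) (a : ℤ) (t : ℂ) :
    smear (Vop (tl φ a)) F t = - smear (tl φ (a-1)) F t := by
  match a with
  | Int.ofNat 0 =>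
    have e : tl φ (Int.ofNat 0 - 1) = fun y => -(Vop φ y) := rfl
    rw [e, smear_neg, neg_neg]
    rfl
  | Int.ofNat (n+1) =>
    have e : (Int.ofNat (n+1) - 1) = Int.ofNat n := by
      simp
    rw [e]
    have hψ : TestFn (Wop^[n] φ) := tl_testFn hφ (Int.ofNat n)
    simp only [tl, Function.iterate_succ_apply']
    exact (hW _ hψ t).2
  | Int.negSucc n =>
    have e0 : tl φ (Int.negSucc n - 1) = fun y => -(Vop (tl φ (Int.negSucc n)) y) := by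
      have e1 : Int.negSucc n - 1 = Int.negSucc (n+1) := by
        rw [Int.negSucc_eq, Int.negSucc_eq]; push_cast; ring
      rw [e1]
      simp only [tl, Function.iterate_succ_apply']
    rw [e0, smear_neg, neg_neg]

/-- the ladder family of a smeared weak solution of the Helmholtz equation -/
def smearLadder [CompleteSpace X] {F : ℂ → X} (hF : Continuous F) (hW : WeakHelm F) {φ : ℂ → ℂ}
    (hφ : TestFn φ) : Ladder X where
  toFun a t := smear (tl φ a) F t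
  deriv' a t v := by
    have h := smear_hasDerivAt (tl_testFn hφ a) hF t v
    refine h.congr_deriv ?_
    have hψ := tl_testFn hφ a
    have e : (fun y => fderiv ℝ (tl φ a) y v) = fun y =>
        (starRingEnd ℂ v / 2) * Wop (tl φ a) y + (v / 2) * Vop (tl φ a) y := by
      funext y; exact fderiv_eq_wop_vop _ _ _
    rw [e, smear_add (hψ.wop.const_mul _) (hψ.vop.const_mul _) hF, smear_const_mul,
      smear_const_mul, smear_wop_tl hW hφ, smear_vop_tl hW hφ, smul_neg, ← sub_eq_add_neg]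

end

end Berry


end

section

/-!
Averages over large discs.
-/

open Complex Filter Topology MeasureTheory Metric
open scoped ENNReal NNReal

namespace Berry

noncomputable section

variable {E : Type*} [NormedAddCommGroup E] [NormedSpace ℝ E]

lemma vol_ball_real (x : ℂ) {R : ℝ} (hR : 0 ≤ R) :
    (volume : Measure ℂ).real (ball x R) = Real.pi * R ^ 2 := by
  rw [measureReal_def, Complex.volume_ball, ENNReal.toReal_mul, ENNReal.toReal_pow,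
    ENNReal.toReal_ofReal hR, mul_comm]
  rfl

lemma avg_eq (g : ℂ → E) {R : ℝ} (hR : 0 ≤ R) :
    ⨍ s in ball (0:ℂ) R, g s = (Real.pi * R ^ 2)⁻¹ • ∫ s in ball (0:ℂ) R, g s := by
  rw [setAverage_eq, vol_ball_real 0 hR]

lemma avg_const {R : ℝ} (hR : 0 < R) (k : E) [CompleteSpace E] :
    ⨍ _ in ball (0:ℂ) R, k = k := by
  apply setAverage_const
  · exact (measure_ball_pos _ _ hR).ne'
  · exact measure_ball_lt_top.ne

omit [NormedSpace ℝ E] in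
lemma intOn {g : ℂ → E} (hg : Continuous g) (x : ℂ) (R : ℝ) : IntegrableOn g (ball x R) :=
  (hg.continuousOn.integrableOn_compact (isCompact_closedBall x R)).mono_set
    ball_subset_closedBall

lemma avg_add {g h : ℂ → E} (hg : Continuous g) (hh : Continuous h) (R : ℝ) :
    ⨍ s in ball (0:ℂ) R, (g s + h s)
      = (⨍ s in ball (0:ℂ) R, g s) + ⨍ s in ball (0:ℂ) R, h s := by
  rw [setAverage_eq, setAverage_eq, setAverage_eq, integral_add (intOn hg 0 R) (intOn hh 0 R),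
    smul_add]

/-- continuous with vanishing mean over large discs -/
def MZ (g : ℂ → ℂ) : Prop :=
  Continuous g ∧ Tendsto (fun R : ℝ => ⨍ s in ball (0:ℂ) R, g s) atTop (𝓝 0)

lemma MZ.add {g h : ℂ → ℂ} (hg : MZ g) (hh : MZ h) : MZ (fun s => g s + h s) := by
  refine ⟨hg.1.add hh.1, ?_⟩
  have := hg.2.add hh.2
  rw [add_zero] at this
  exact this.congr fun R => (avg_add hg.1 hh.1 R).symm

lemma avg_const_mul (k : ℂ) (g : ℂ → ℂ) (R : ℝ) :
    ⨍ s in ball (0:ℂ) R, k * g s = k * ⨍ s in ball (0:ℂ) R, g s := by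
  rw [setAverage_eq, setAverage_eq, integral_const_mul, real_smul, real_smul]; ring

lemma MZ.const_mul {g : ℂ → ℂ} (k : ℂ) (hg : MZ g) : MZ (fun s => k * g s) := by
  refine ⟨continuous_const.mul hg.1, ?_⟩
  have := hg.2.const_mul k
  rw [mul_zero] at this
  exact this.congr fun R => (avg_const_mul k g R).symm

lemma MZ.const {k : ℂ} (h : MZ (fun _ => k)) : k = 0 := by
  have h1 : Tendsto (fun R : ℝ => ⨍ _ in ball (0:ℂ) R, k) atTop (𝓝 k) := by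
    refine tendsto_const_nhds.congr' ?_
    filter_upwards [eventually_gt_atTop (0:ℝ)] with R hR
    exact (avg_const hR k).symm
  exact tendsto_nhds_unique h1 h.2

lemma avg_norm_le (g : ℂ → E) (R : ℝ) :
    ‖⨍ s in ball (0:ℂ) R, g s‖ ≤ ⨍ s in ball (0:ℂ) R, ‖g s‖ := by
  rw [setAverage_eq, setAverage_eq, norm_smul, Real.norm_of_nonneg (by positivity), smul_eq_mul]
  exact mul_le_mul_of_nonneg_left (norm_integral_le_integral_norm _) (by positivity)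

lemma avg_le_of_le {g : ℂ → ℝ} (hg : Continuous g) {C : ℝ} (h : ∀ s, g s ≤ C) {R : ℝ}
    (hR : 0 < R) : ⨍ s in ball (0:ℂ) R, g s ≤ C := by
  have h1 : ⨍ s in ball (0:ℂ) R, g s ≤ ⨍ _ in ball (0:ℂ) R, C := by
    rw [setAverage_eq, setAverage_eq, smul_eq_mul, smul_eq_mul]
    refine mul_le_mul_of_nonneg_left ?_ (by positivity)
    exact integral_mono (intOn hg 0 R) (intOn continuous_const 0 R) h
  rwa [avg_const hR] at h1

/-- bounded, continuous, vanishing at infinity -/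
def VanInf (g : ℂ → ℂ) : Prop := ∀ ε > 0, ∃ N : ℝ, ∀ s, N ≤ ‖s‖ → ‖g s‖ ≤ ε

/-- averages of a bounded function vanishing at infinity are uniformly small, wherever centred -/
lemma unif_avg {g : ℂ → ℂ} (hg : Continuous g) (hv : VanInf g) {C : ℝ} (hC : ∀ s, ‖g s‖ ≤ C) :
    ∀ ε > 0, ∃ R₀ : ℝ, 0 < R₀ ∧ ∀ R, R₀ ≤ R → ∀ p, ⨍ s in ball (0:ℂ) R, ‖g (p + s)‖ ≤ ε := by
  intro ε hε
  obtain ⟨N, hN⟩ := hv (ε/2) (by positivity)
  have hC0 : 0 ≤ C := (norm_nonneg _).trans (hC 0)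
  set N' := max N 1 with hN'
  have hN'1 : 1 ≤ N' := le_max_right _ _
  refine ⟨N' * (2 * (C + 1) / ε + 1), by positivity, fun R hR p => ?_⟩
  have hRpos : 0 < R := lt_of_lt_of_le (by positivity) hR
  have hgc : Continuous fun s => ‖g (p + s)‖ := (hg.comp (continuous_const.add continuous_id)).norm
  rw [avg_eq _ hRpos.le, smul_eq_mul]
  -- pointwise bound
  have hpt : ∀ s, ‖g (p + s)‖ ≤ ε/2 + (ball (-p) N').indicator (fun _ => C) s := by
    intro s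
    by_cases hs : s ∈ ball (-p) N'
    · rw [Set.indicator_of_mem hs]
      have := hC (p + s)
      linarith
    · rw [Set.indicator_of_notMem hs, add_zero]
      apply hN
      rw [mem_ball, not_lt, dist_eq, sub_neg_eq_add, add_comm] at hs
      exact (le_max_left _ _).trans hs
  have hint : ∫ s in ball (0:ℂ) R, ‖g (p + s)‖ ≤ (ε/2) * (Real.pi * R^2) + C * (Real.pi * N'^2) := by
    have i1 : IntegrableOn (fun _ : ℂ => ε/2) (ball (0:ℂ) R) := intOn continuous_const 0 R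
    have i2 : Integrable ((ball (-p) N').indicator fun _ : ℂ => C) :=
      (intOn continuous_const (-p) N').integrable_indicator measurableSet_ball
    calc ∫ s in ball (0:ℂ) R, ‖g (p + s)‖
        ≤ ∫ s in ball (0:ℂ) R, (ε/2 + (ball (-p) N').indicator (fun _ => C) s) :=
          integral_mono (intOn hgc 0 R) (i1.add i2.integrableOn) hpt
      _ = (∫ s in ball (0:ℂ) R, ε/2) +
          ∫ s in ball (0:ℂ) R, (ball (-p) N').indicator (fun _ => C) s :=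
          integral_add i1 i2.integrableOn
      _ ≤ (ε/2) * (Real.pi * R^2) + C * (Real.pi * N'^2) := by
          refine add_le_add ?_ ?_
          · rw [setIntegral_const, vol_ball_real 0 hRpos.le, smul_eq_mul, mul_comm]
          · calc ∫ s in ball (0:ℂ) R, (ball (-p) N').indicator (fun _ => C) s
                ≤ ∫ s, (ball (-p) N').indicator (fun _ => C) s :=
                  setIntegral_le_integral i2 (Eventually.of_forall fun s =>
                    Set.indicator_nonneg (fun _ _ => hC0) s)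
              _ = C * (Real.pi * N'^2) := by
                  rw [integral_indicator measurableSet_ball, setIntegral_const,
                    vol_ball_real _ (by linarith), smul_eq_mul, mul_comm]
  have hpi := Real.pi_pos
  calc (Real.pi * R ^ 2)⁻¹ * ∫ s in ball (0:ℂ) R, ‖g (p + s)‖
      ≤ (Real.pi * R ^ 2)⁻¹ * ((ε/2) * (Real.pi * R^2) + C * (Real.pi * N'^2)) :=
        mul_le_mul_of_nonneg_left hint (by positivity)
    _ = ε/2 + C * (N'/R)^2 := by field_simp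
    _ ≤ ε/2 + ε/2 := by
        have hq : N' / R ≤ ε / (2 * (C+1)) := by
          rw [div_le_div_iff₀ hRpos (by positivity)]
          have h1 : N' * (2 * (C + 1) / ε) ≤ R := by
            refine le_trans ?_ hR
            exact mul_le_mul_of_nonneg_left (by linarith) (by linarith)
          have h2 : N' * (2 * (C+1)) = (N' * (2 * (C + 1) / ε)) * ε := by field_simp
          rw [h2, mul_comm ε R]
          exact mul_le_mul_of_nonneg_right h1 hε.le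
        have hq1 : N' / R ≤ 1 := by
          rw [div_le_one hRpos]
          refine le_trans ?_ hR
          have : 0 ≤ 2 * (C + 1) / ε := by positivity
          nlinarith only [this, hN'1]
        have hq0 : 0 ≤ N' / R := by positivity
        have h3 : C * (N'/R)^2 ≤ (C+1) * (ε / (2 * (C+1))) := by
          calc C * (N'/R)^2 ≤ (C+1) * (N'/R)^2 := by
                exact mul_le_mul_of_nonneg_right (by linarith) (by positivity)
            _ ≤ (C+1) * (N'/R) := by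
                refine mul_le_mul_of_nonneg_left ?_ (by linarith)
                nlinarith only [hq1, hq0]
            _ ≤ (C+1) * (ε / (2 * (C+1))) := mul_le_mul_of_nonneg_left hq (by linarith)
        have h4 : (C+1) * (ε / (2 * (C+1))) = ε/2 := by field_simp
        linarith only [h3, h4]
    _ = ε := by ring

lemma VanInf.mz {g : ℂ → ℂ} (hg : Continuous g) (hv : VanInf g) {C : ℝ} (hC : ∀ s, ‖g s‖ ≤ C) :
    MZ g := by
  refine ⟨hg, ?_⟩
  rw [Metric.tendsto_atTop]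
  intro ε hε
  obtain ⟨R₀, hR₀, h⟩ := unif_avg hg hv hC (ε/2) (by positivity)
  refine ⟨R₀, fun R hR => ?_⟩
  have h1 := h R hR 0
  simp only [zero_add] at h1
  rw [dist_zero_right]
  exact lt_of_le_of_lt ((avg_norm_le g R).trans h1) (by linarith)

/-- averages over large discs do not see a translation -/
lemma avg_shift {g : ℂ → ℂ} (hg : Continuous g) {C : ℝ} (hC : ∀ s, ‖g s‖ ≤ C) (x : ℂ) :
    Tendsto (fun R : ℝ => (⨍ s in ball (0:ℂ) R, g (x + s)) - ⨍ s in ball (0:ℂ) R, g s)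
      atTop (𝓝 0) := by
  have hC0 : 0 ≤ C := (norm_nonneg _).trans (hC 0)
  have hpi := Real.pi_pos
  have key : ∀ R : ℝ, ‖x‖ < R → ‖(⨍ s in ball (0:ℂ) R, g (x + s)) - ⨍ s in ball (0:ℂ) R, g s‖ ≤
      2 * C * (1 - ((R - ‖x‖) / R)^2) := by
    intro R hR
    have hRpos : 0 < R := lt_of_le_of_lt (norm_nonneg _) hR
    have h1 : ∫ s in ball (0:ℂ) R, g (x + s) = ∫ s in ball x R, g s := by
      have hmp : MeasurePreserving (fun s : ℂ => x + s) volume volume :=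
        measurePreserving_add_left volume x
      have hme : MeasurableEmbedding (fun s : ℂ => x + s) :=
        (MeasurableEquiv.addLeft x).measurableEmbedding
      have := hmp.setIntegral_preimage_emb hme g (ball x R)
      rw [← this]
      congr 2
      ext s
      simp [mem_ball]
    have hsub1 : ball (0:ℂ) (R - ‖x‖) ⊆ ball (0:ℂ) R :=
      ball_subset_ball (by linarith [norm_nonneg x])
    have hsub2 : ball (0:ℂ) (R - ‖x‖) ⊆ ball x R := by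
      apply ball_subset_ball'
      rw [dist_eq, zero_sub, norm_neg]; linarith
    have hm : MeasurableSet (ball (0:ℂ) (R - ‖x‖)) := measurableSet_ball
    have e1 : ∫ s in ball x R, g s = (∫ s in ball (0:ℂ) (R - ‖x‖), g s)
        + ∫ s in ball x R \ ball (0:ℂ) (R - ‖x‖), g s := by
      rw [← setIntegral_union (Set.disjoint_sdiff_right) (measurableSet_ball.diff hm)
        (intOn hg _ _) ((intOn hg x R).mono_set Set.sdiff_subset), Set.union_sdiff_cancel hsub2]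
    have e2 : ∫ s in ball (0:ℂ) R, g s = (∫ s in ball (0:ℂ) (R - ‖x‖), g s)
        + ∫ s in ball (0:ℂ) R \ ball (0:ℂ) (R - ‖x‖), g s := by
      rw [← setIntegral_union (Set.disjoint_sdiff_right) (measurableSet_ball.diff hm)
        (intOn hg _ _) ((intOn hg 0 R).mono_set Set.sdiff_subset), Set.union_sdiff_cancel hsub1]
    have b : ∀ y : ℂ, ball (0:ℂ) (R - ‖x‖) ⊆ ball y R →
        ‖∫ s in ball y R \ ball (0:ℂ) (R - ‖x‖), g s‖ ≤
        C * (Real.pi * R^2 - Real.pi * (R - ‖x‖)^2) := by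
      intro y hy
      have h2 : ‖∫ s in ball y R \ ball (0:ℂ) (R - ‖x‖), g s‖ ≤
          C * (volume : Measure ℂ).real (ball y R \ ball (0:ℂ) (R - ‖x‖)) := by
        apply norm_setIntegral_le_of_norm_le_const
        · exact lt_of_le_of_lt (measure_mono Set.sdiff_subset) measure_ball_lt_top
        · intro s _; exact hC s
      refine h2.trans (le_of_eq ?_)
      rw [measureReal_sdiff hy hm, vol_ball_real _ hRpos.le, vol_ball_real _ (by linarith)]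
    rw [avg_eq _ hRpos.le, avg_eq _ hRpos.le, ← smul_sub, h1, e1, e2, norm_smul,
      Real.norm_of_nonneg (by positivity)]
    have h3 : ‖(∫ s in ball (0:ℂ) (R - ‖x‖), g s)
        + (∫ s in ball x R \ ball (0:ℂ) (R - ‖x‖), g s) - ((∫ s in ball (0:ℂ) (R - ‖x‖), g s)
        + ∫ s in ball (0:ℂ) R \ ball (0:ℂ) (R - ‖x‖), g s)‖ ≤
        2 * (C * (Real.pi * R^2 - Real.pi * (R - ‖x‖)^2)) := by
      rw [add_sub_add_left_eq_sub]
      refine (norm_sub_le _ _).trans ?_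
      have := b x hsub2
      have := b 0 hsub1
      linarith
    refine (mul_le_mul_of_nonneg_left h3 (by positivity)).trans (le_of_eq ?_)
    field_simp
  have hlim : Tendsto (fun R : ℝ => 2 * C * (1 - ((R - ‖x‖) / R)^2)) atTop (𝓝 0) := by
    have h1 : Tendsto (fun R : ℝ => (R - ‖x‖) / R) atTop (𝓝 1) := by
      have h2 : Tendsto (fun R : ℝ => 1 - ‖x‖ / R) atTop (𝓝 (1 - 0)) :=
        tendsto_const_nhds.sub (tendsto_const_nhds.div_atTop tendsto_id)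
      rw [sub_zero] at h2
      refine h2.congr' ?_
      filter_upwards [eventually_gt_atTop (0:ℝ)] with R hR
      field_simp
    have h3 := ((tendsto_const_nhds (x := (1:ℝ))).sub (h1.pow 2)).const_mul (2 * C)
    simpa using h3
  refine squeeze_zero_norm' ?_ hlim
  filter_upwards [eventually_gt_atTop ‖x‖] with R hR
  exact key R hR

/-- smearing preserves vanishing means -/
lemma MZ.smear {A : ℂ → ℂ → ℂ} (hA : Continuous (Function.uncurry A)) {C : ℝ}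
    (hC : ∀ s y, ‖A s y‖ ≤ C) {ψ : ℂ → ℂ} (hψ : TestFn ψ)
    (hc : Continuous fun s => ∫ y, ψ y * A s y)
    (h : ∀ y, Tendsto (fun R : ℝ => ⨍ s in ball (0:ℂ) R, A s y) atTop (𝓝 0)) :
    MZ (fun s => ∫ y, ψ y * A s y) := by
  refine ⟨hc, ?_⟩
  have hC0 : 0 ≤ C := (norm_nonneg _).trans (hC 0 0)
  have hψi : Integrable ψ := hψ.continuous.integrable_of_hasCompactSupport hψ.2
  have swap : ∀ R : ℝ, ⨍ s in ball (0:ℂ) R, ∫ y, ψ y * A s y
      = ∫ y, ψ y * ⨍ s in ball (0:ℂ) R, A s y := by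
    intro R
    rw [setAverage_eq]
    have hint : Integrable (Function.uncurry fun (s y : ℂ) => ψ y * A s y)
        ((volume.restrict (ball (0:ℂ) R)).prod volume) := by
      have h1 : Integrable (fun p : ℂ × ℂ => ψ p.2 * A p.1 p.2)
          ((volume.restrict (ball (0:ℂ) R)).prod volume) := by
        have h2 : Integrable (fun p : ℂ × ℂ => (1:ℂ) * ψ p.2)
            ((volume.restrict (ball (0:ℂ) R)).prod volume) :=
          Integrable.mul_prod (f := fun _ : ℂ => (1:ℂ)) (intOn continuous_const 0 R) hψi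
        simp only [one_mul] at h2
        have h3 := h2.mul_bdd (g := fun p : ℂ × ℂ => A p.1 p.2) (c := C) ?_ ?_
        · exact h3
        · exact hA.aestronglyMeasurable
        · exact Eventually.of_forall fun p => hC _ _
      exact h1
    rw [integral_integral_swap hint, ← integral_smul]
    congr 1
    funext y
    rw [setAverage_eq, integral_const_mul, real_smul, real_smul]; ring
  simp only [swap]
  have hlim : Tendsto (fun R : ℝ => ∫ y, ψ y * ⨍ s in ball (0:ℂ) R, A s y) atTop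
      (𝓝 (∫ y, ψ y * 0)) := by
    apply tendsto_integral_filter_of_dominated_convergence (fun y => ‖ψ y‖ * C)
    · filter_upwards with R
      have h1 : StronglyMeasurable fun y => ∫ s in ball (0:ℂ) R, A s y := by
        have : StronglyMeasurable (Function.uncurry fun y s => A s y) :=
          (hA.comp continuous_swap).stronglyMeasurable
        exact this.integral_prod_right
      have h2 : (fun y => ψ y * ⨍ s in ball (0:ℂ) R, A s y) =
          fun y => ψ y * ((volume.real (ball (0:ℂ) R))⁻¹ • ∫ s in ball (0:ℂ) R, A s y) := by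
        funext y; rw [setAverage_eq]
      rw [h2]
      exact (hψ.continuous.stronglyMeasurable.mul (h1.const_smul ((volume.real (ball (0:ℂ) R))⁻¹ : ℝ))).aestronglyMeasurable
    · filter_upwards [eventually_gt_atTop (0:ℝ)] with R hR
      refine Eventually.of_forall fun y => ?_
      rw [norm_mul]
      refine mul_le_mul_of_nonneg_left ?_ (norm_nonneg _)
      refine (avg_norm_le _ R).trans ?_
      have hcy : Continuous fun s => A s y := hA.comp (continuous_id.prodMk continuous_const)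
      exact avg_le_of_le hcy.norm (fun s => hC s y) hR
    · exact hψi.norm.mul_const C
    · refine Eventually.of_forall fun y => ?_
      have := (h y).const_mul (ψ y)
      exact this
  simpa using hlim

/-- smearing preserves vanishing at infinity -/
lemma VanInf.smear {A : ℂ → ℂ} (hv : VanInf A) {ψ : ℂ → ℂ} (hψ : TestFn ψ)
    (t : ℂ) : VanInf (fun s => ∫ y, ψ y * A (t - y + s)) := by
  intro ε hε
  have hψi : Integrable ψ := hψ.continuous.integrable_of_hasCompactSupport hψ.2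
  set M := ∫ y, ‖ψ y‖ with hM
  have hM0 : 0 ≤ M := integral_nonneg fun _ => norm_nonneg _
  obtain ⟨N, hN⟩ := hv (ε / (M + 1)) (by positivity)
  obtain ⟨r, hr⟩ := hψ.2.isCompact.isBounded.exists_norm_le
  refine ⟨N + ‖t‖ + r, fun s hs => ?_⟩
  have hpt : ∀ y, ‖ψ y * A (t - y + s)‖ ≤ ‖ψ y‖ * (ε / (M+1)) := by
    intro y
    rw [norm_mul]
    by_cases hy : y ∈ tsupport ψ
    · refine mul_le_mul_of_nonneg_left (hN _ ?_) (norm_nonneg _)
      have h1 := hr y hy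
      have h2 : ‖s‖ ≤ ‖t - y + s‖ + (‖t‖ + ‖y‖) := by
        calc ‖s‖ = ‖(t - y + s) - (t - y)‖ := by congr 1; ring
          _ ≤ ‖t - y + s‖ + ‖t - y‖ := norm_sub_le _ _
          _ ≤ _ := by linarith [norm_sub_le t y]
      linarith
    · have : ψ y = 0 := image_eq_zero_of_notMem_tsupport hy
      rw [this]; simp
  calc ‖∫ y, ψ y * A (t - y + s)‖ ≤ ∫ y, ‖ψ y‖ * (ε / (M+1)) :=
        norm_integral_le_of_norm_le (hψi.norm.mul_const _) (Eventually.of_forall hpt)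
    _ = M * (ε / (M+1)) := by rw [integral_mul_const]
    _ ≤ ε := by
        rw [mul_div_assoc', div_le_iff₀ (by positivity)]
        nlinarith

end

end Berry


end
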