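import Mathlib
import Pool.Agent.BWM.C03
import Pool.Agent.BWM.C06
import Pool.Agent.LibH11.Berry.Defs

/-! Parts: LibH11.Berry.Path, LibH11.Berry.Field, LibH11.Berry.Stat, LibH11.Berry.Wick, LibH11.Berry.Unsmear -/

section

/-!
Classical solutions of `Δ g = - g` are weak solutions.
-/

open Complex Filter Topology MeasureTheory Convolution InnerProductSpace Laplacian
open scoped ENNReal ContDiff

namespace Berry

noncomputable section

lemma smear_fderiv {ψ g : ℂ → ℂ} (hψ : TestFn ψ) (hg : ContDiff ℝ 1 g) (t v : ℂ) :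
    smear (fun y => fderiv ℝ ψ y v) g t = smear ψ (fun z => fderiv ℝ g z v) t := by
  have hgd : Differentiable ℝ g := hg.differentiable (by norm_num)
  have hgc : Continuous fun z => fderiv ℝ g z v :=
    (hg.continuous_fderiv one_ne_zero).clm_apply continuous_const
  have hf : ∀ y, fderiv ℝ (fun y => g (t - y)) y v = - fderiv ℝ g (t - y) v := by
    intro y
    have h1 : HasFDerivAt (fun y => t - y) (-ContinuousLinearMap.id ℝ ℂ) y := by
      simpa using (hasFDerivAt_id (𝕜 := ℝ) y).const_sub t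
    have h2 := (hgd (t - y)).hasFDerivAt.comp y h1
    have h3 := h2.fderiv
    have h4 : (g ∘ fun y => t - y) = fun y => g (t - y) := rfl
    rw [h4] at h3
    rw [h3]
    simp
  have hgt : Differentiable ℝ (fun y => g (t - y)) :=
    hgd.comp ((differentiable_const t).sub differentiable_id)
  have i1 : Integrable (fun y => fderiv ℝ ψ y v • g (t - y)) :=
    smear_integrable (hψ.fderiv_apply v).continuous (hψ.fderiv_apply v).2 hg.continuous t
  have i2 : Integrable (fun y => ψ y • fderiv ℝ (fun y => g (t - y)) y v) := by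
    simp only [hf, smul_neg]
    exact (smear_integrable hψ.continuous hψ.2 hgc t).neg
  have i3 : Integrable (fun y => ψ y • g (t - y)) :=
    smear_integrable hψ.continuous hψ.2 hg.continuous t
  have := integral_smul_fderiv_eq_neg_fderiv_smul_of_integrable i1 i2 i3
    (fun x _ => hψ.differentiable x) (fun x _ => hgt x)
  simp only [hf, smul_neg, integral_neg] at this
  rw [smear, smear]
  exact (neg_injective this).symm

lemma smear_const_mul_right (k : ℂ) (ψ g : ℂ → ℂ) (t : ℂ) :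
    smear ψ (fun z => k * g z) t = k * smear ψ g t := by
  rw [smear, smear, ← integral_const_mul]
  congr 1
  funext y
  simp only [smul_eq_mul]; ring

lemma smear_add_right {ψ g g' : ℂ → ℂ} (hψ : TestFn ψ) (hg : Continuous g) (hg' : Continuous g')
    (t : ℂ) : smear ψ (fun z => g z + g' z) t = smear ψ g t + smear ψ g' t := by
  rw [smear, smear, smear, ← integral_add (smear_integrable hψ.continuous hψ.2 hg t)
    (smear_integrable hψ.continuous hψ.2 hg' t)]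
  congr 1
  funext y
  simp only [smul_eq_mul]; ring

lemma smear_Wop {ψ g : ℂ → ℂ} (hψ : TestFn ψ) (hg : ContDiff ℝ 1 g) (t : ℂ) :
    smear (Wop ψ) g t = smear ψ (Wop g) t := by
  have c1 : ∀ v, Continuous fun z => fderiv ℝ g z v := fun v =>
    (hg.continuous_fderiv one_ne_zero).clm_apply continuous_const
  have h1 : smear (Wop ψ) g t = smear (fun y => fderiv ℝ ψ y 1) g t
      + I * smear (fun y => fderiv ℝ ψ y I) g t := by
    have := smear_add (hψ.fderiv_apply 1) ((hψ.fderiv_apply I).const_mul I) hg.continuous t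
    rw [smear_const_mul] at this
    exact this
  have h2 : smear ψ (Wop g) t = smear ψ (fun y => fderiv ℝ g y 1) t
      + I * smear ψ (fun y => fderiv ℝ g y I) t := by
    have := smear_add_right hψ (c1 1) (continuous_const.mul (c1 I)) t (g' := fun z => I * _)
    rw [smear_const_mul_right] at this
    exact this
  rw [h1, h2, smear_fderiv hψ hg, smear_fderiv hψ hg]

lemma smear_Vop {ψ g : ℂ → ℂ} (hψ : TestFn ψ) (hg : ContDiff ℝ 1 g) (t : ℂ) :
    smear (Vop ψ) g t = smear ψ (Vop g) t := by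
  have c1 : ∀ v, Continuous fun z => fderiv ℝ g z v := fun v =>
    (hg.continuous_fderiv one_ne_zero).clm_apply continuous_const
  have e1 : ∀ φ : ℂ → ℂ, Vop φ = fun y => fderiv ℝ φ y 1 + (-I) * fderiv ℝ φ y I := by
    intro φ; funext y; simp only [Vop]; ring
  have h1 : smear (Vop ψ) g t = smear (fun y => fderiv ℝ ψ y 1) g t
      + (-I) * smear (fun y => fderiv ℝ ψ y I) g t := by
    have := smear_add (hψ.fderiv_apply 1) ((hψ.fderiv_apply I).const_mul (-I)) hg.continuous t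
    rw [smear_const_mul] at this
    rw [e1]
    exact this
  have h2 : smear ψ (Vop g) t = smear ψ (fun y => fderiv ℝ g y 1) t
      + (-I) * smear ψ (fun y => fderiv ℝ g y I) t := by
    have := smear_add_right hψ (c1 1) (continuous_const.mul (c1 I)) t (g' := fun z => (-I) * _)
    rw [smear_const_mul_right] at this
    rw [e1]
    exact this
  rw [h1, h2, smear_fderiv hψ hg, smear_fderiv hψ hg]

lemma contDiff_Wop {g : ℂ → ℂ} (hg : ContDiff ℝ 2 g) : ContDiff ℝ 1 (Wop g) := by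
  have h1 : ContDiff ℝ 1 (fderiv ℝ g) := hg.fderiv_right (m := 1) (by norm_num)
  exact (h1.clm_apply contDiff_const).add (contDiff_const.mul (h1.clm_apply contDiff_const))

lemma contDiff_Vop {g : ℂ → ℂ} (hg : ContDiff ℝ 2 g) : ContDiff ℝ 1 (Vop g) := by
  have h1 : ContDiff ℝ 1 (fderiv ℝ g) := hg.fderiv_right (m := 1) (by norm_num)
  exact (h1.clm_apply contDiff_const).sub (contDiff_const.mul (h1.clm_apply contDiff_const))

lemma fderiv_fderiv_apply {g : ℂ → ℂ} (hg : ContDiff ℝ 2 g) (y v w : ℂ) :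
    fderiv ℝ (fun z => fderiv ℝ g z w) y v = fderiv ℝ (fderiv ℝ g) y v w := by
  have h1 : ContDiff ℝ 1 (fderiv ℝ g) := hg.fderiv_right (m := 1) (by norm_num)
  have h2 : DifferentiableAt ℝ (fderiv ℝ g) y := (h1.differentiable (by norm_num)) y
  rw [fderiv_clm_apply h2 (differentiableAt_const w)]
  simp

lemma fderiv_Wop {g : ℂ → ℂ} (hg : ContDiff ℝ 2 g) (y v : ℂ) :
    fderiv ℝ (Wop g) y v = fderiv ℝ (fderiv ℝ g) y v 1 + I * fderiv ℝ (fderiv ℝ g) y v I := by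
  have h1 : ContDiff ℝ 1 (fderiv ℝ g) := hg.fderiv_right (m := 1) (by norm_num)
  have d : ∀ w, DifferentiableAt ℝ (fun z => fderiv ℝ g z w) y := fun w =>
    ((h1.clm_apply contDiff_const).differentiable (by norm_num)) y
  have : Wop g = fun z => fderiv ℝ g z 1 + I * fderiv ℝ g z I := rfl
  rw [this, fderiv_fun_add (d 1) ((d I).const_mul I), fderiv_const_mul (d I)]
  simp [fderiv_fderiv_apply hg]

lemma fderiv_Vop {g : ℂ → ℂ} (hg : ContDiff ℝ 2 g) (y v : ℂ) :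
    fderiv ℝ (Vop g) y v = fderiv ℝ (fderiv ℝ g) y v 1 - I * fderiv ℝ (fderiv ℝ g) y v I := by
  have h1 : ContDiff ℝ 1 (fderiv ℝ g) := hg.fderiv_right (m := 1) (by norm_num)
  have d : ∀ w, DifferentiableAt ℝ (fun z => fderiv ℝ g z w) y := fun w =>
    ((h1.clm_apply contDiff_const).differentiable (by norm_num)) y
  have : Vop g = fun z => fderiv ℝ g z 1 - I * fderiv ℝ g z I := rfl
  rw [this, fderiv_fun_sub (d 1) ((d I).const_mul I), fderiv_const_mul (d I)]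
  simp [fderiv_fderiv_apply hg]

lemma snd_symm {g : ℂ → ℂ} (hg : ContDiff ℝ 2 g) (y : ℂ) :
    fderiv ℝ (fderiv ℝ g) y 1 I = fderiv ℝ (fderiv ℝ g) y I 1 := by
  have := (hg.contDiffAt (x := y)).isSymmSndFDerivAt (by simp)
  exact this 1 I

lemma laplacian_eq_snd (g : ℂ → ℂ) (y : ℂ) :
    (Δ g) y = fderiv ℝ (fderiv ℝ g) y 1 1 + fderiv ℝ (fderiv ℝ g) y I I := by
  rw [laplacian_eq_iteratedFDeriv_complexPlane]
  simp [iteratedFDeriv_two_apply]

lemma Vop_Wop {g : ℂ → ℂ} (hg : ContDiff ℝ 2 g) : Vop (Wop g) = Δ g := by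
  funext y
  rw [laplacian_eq_snd]
  simp only [Vop, fderiv_Wop hg]
  rw [snd_symm hg]
  linear_combination (-(fderiv ℝ (fderiv ℝ g) y I I)) * I_sq

lemma Wop_Vop {g : ℂ → ℂ} (hg : ContDiff ℝ 2 g) : Wop (Vop g) = Δ g := by
  funext y
  rw [laplacian_eq_snd]
  simp only [Wop, fderiv_Vop hg]
  rw [snd_symm hg]
  linear_combination (-(fderiv ℝ (fderiv ℝ g) y I I)) * I_sq

/-- classical solutions are weak solutions -/
lemma weakHelm_of_classical {g : ℂ → ℂ} (hg : ContDiff ℝ 2 g) (hH : ∀ x, (Δ g) x = - g x) :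
    WeakHelm g := by
  intro ψ hψ t
  have hg1 : ContDiff ℝ 1 g := hg.of_le (by norm_num)
  have e : ∀ (h : ℂ → ℂ), (∀ x, h x = - g x) → smear ψ h t = - smear ψ g t := by
    intro h hh
    have : h = fun z => (-1) * g z := by funext z; rw [hh]; ring
    rw [this, smear_const_mul_right]; ring
  constructor
  · rw [smear_Wop hψ.vop hg1, smear_Vop hψ (contDiff_Wop hg), Vop_Wop hg]
    exact e _ hH
  · rw [smear_Vop hψ.wop hg1, smear_Wop hψ (contDiff_Vop hg), Wop_Vop hg]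
    exact e _ hH

end

end Berry


end

section

/-!
Invariant monochromatic waves on the plane and their `L⁴`-valued version.
-/

open Complex Filter Topology MeasureTheory ProbabilityTheory InnerProductSpace Laplacian
open scoped ENNReal

namespace Berry

noncomputable section

variable {Ω : Type*} [MeasurableSpace Ω] {P : Measure Ω} [IsProbabilityMeasure P]
  {F : ℂ → Ω → ℝ}

omit [IsProbabilityMeasure P] in
lemma InvWave.identDistrib (hF : InvWave P F) (x : ℂ) : IdentDistrib (F x) (F 0) P P := by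
  have h1 := (hF.stationary x).comp (u := fun f : ℂ → ℝ => f 0) (measurable_pi_apply 0)
  have e1 : (fun f : ℂ → ℝ => f 0) ∘ (fun ω x' => F (x' + x) ω) = F x := by
    funext ω; simp
  have e2 : (fun f : ℂ → ℝ => f 0) ∘ (fun ω x' => F x' ω) = F 0 := by
    funext ω; simp
  rw [e1, e2] at h1
  exact h1

omit [IsProbabilityMeasure P] in
lemma InvWave.memLp (hF : InvWave P F) (h4 : MemLp (F 0) 4 P) (x : ℂ) : MemLp (F x) 4 P :=
  (hF.identDistrib x).memLp_iff.2 h4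

omit [IsProbabilityMeasure P] in
lemma InvWave.memLpC (hF : InvWave P F) (h4 : MemLp (F 0) 4 P) (x : ℂ) :
    MemLp (fun ω => (F x ω : ℂ)) 4 P := (hF.memLp h4 x).ofReal

omit [IsProbabilityMeasure P] in
lemma InvWave.measurable_uncurry (hF : InvWave P F) : Measurable (Function.uncurry F) :=
  measurable_uncurry_of_continuous_of_measurable (fun ω => (hF.smooth ω).continuous) hF.measurable

/-- the `L⁴`-valued version of the field -/
def InvWave.toL4 (hF : InvWave P F) (h4 : MemLp (F 0) 4 P) (x : ℂ) : Lp ℂ 4 P :=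
  (hF.memLpC h4 x).toLp _

omit [IsProbabilityMeasure P] in
lemma InvWave.coeFn_toL4 (hF : InvWave P F) (h4 : MemLp (F 0) 4 P) (x : ℂ) :
    hF.toL4 h4 x =ᵐ[P] fun ω => (F x ω : ℂ) := (hF.memLpC h4 x).coeFn_toLp

lemma InvWave.continuous_toL4 (hF : InvWave P F) (h4 : MemLp (F 0) 4 P) :
    Continuous (hF.toL4 h4) := by
  rw [continuous_iff_continuousAt]
  intro x
  rw [ContinuousAt, tendsto_nhds_iff_seq_tendsto]
  intro u hu
  have hui : UniformIntegrable F 4 P :=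
    MemLp.uniformIntegrable_of_identDistrib (j := 0) (by norm_num) (by norm_num) h4
      hF.identDistrib
  have hui2 : UnifIntegrable (fun n => F (u n)) 4 P := by
    intro ε hε
    obtain ⟨δ, hδ, h⟩ := hui.2.1 hε
    exact ⟨δ, hδ, fun i s hs hm => h (u i) s hs hm⟩
  have hlim : Tendsto (fun n => eLpNorm (F (u n) - F x) 4 P) atTop (𝓝 0) := by
    refine tendsto_Lp_finite_of_tendsto_ae (by norm_num) (by norm_num)
      (fun n => (hF.measurable _).aestronglyMeasurable) (hF.memLp h4 x) hui2 ?_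
    refine Eventually.of_forall fun ω => ?_
    exact ((hF.smooth ω).continuous.tendsto x).comp hu
  have : Tendsto (fun n => (hF.memLpC h4 (u n)).toLp _) atTop (𝓝 ((hF.memLpC h4 x).toLp _)) := by
    rw [Lp.tendsto_Lp_iff_tendsto_eLpNorm'']
    refine hlim.congr fun n => ?_
    have e : (fun ω => (F (u n) ω : ℂ)) - (fun ω => (F x ω : ℂ)) =
        fun ω => (((F (u n) - F x) ω : ℝ) : ℂ) := by
      funext ω; simp
    rw [e]
    refine (eLpNorm_congr_norm_ae (Eventually.of_forall fun ω => ?_)).symm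
    rw [Complex.norm_real]
  exact this

/-- the `L⁴`-valued field is a weak solution of the Helmholtz equation -/
lemma InvWave.weakHelm (hF : InvWave P F) (h4 : MemLp (F 0) 4 P) : WeakHelm (hF.toL4 h4) := by
  have hcont := hF.continuous_toL4 h4
  -- the pointwise version of smearing
  have key : ∀ ψ, TestFn ψ → ∀ t, (smear ψ (hF.toL4 h4) t : Lp ℂ 4 P) =ᵐ[P]
      fun ω => smear ψ (fun x => (F x ω : ℂ)) t := by
    intro ψ hψ t
    have hm : StronglyMeasurable (Function.uncurry fun (y : ℂ) ω => ψ y * (F (t - y) ω : ℂ)) := by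
      have h1 : Measurable (Function.uncurry fun (y : ℂ) ω => ψ y * (F (t - y) ω : ℂ)) := by
        have h2 : Measurable fun p : ℂ × Ω => (t - p.1, p.2) :=
          (measurable_const.sub measurable_fst).prodMk measurable_snd
        have h3 : Measurable fun p : ℂ × Ω => (F (t - p.1) p.2 : ℂ) :=
          Complex.measurable_ofReal.comp (hF.measurable_uncurry.comp h2)
        exact (hψ.continuous.measurable.comp measurable_fst).mul h3
      exact h1.stronglyMeasurable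
    have hp : ∀ y, MemLp (fun ω => ψ y * (F (t - y) ω : ℂ)) 4 P := fun y =>
      (hF.memLpC h4 (t - y)).const_mul (ψ y)
    have he : (fun y => (hp y).toLp _) = fun y => ψ y • hF.toL4 h4 (t - y) := by
      funext y
      rw [InvWave.toL4, ← MemLp.toLp_const_smul]
      rfl
    have hi : Integrable (fun y => (hp y).toLp _) (volume : Measure ℂ) := by
      rw [he]; exact smear_integrable hψ.continuous hψ.2 hcont t
    have := Lp_integral_coeFn hm hp hi
    rw [he] at this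
    exact this
  intro ψ hψ t
  have hpath : ∀ ω, WeakHelm (fun x => (F x ω : ℂ)) := by
    intro ω
    apply weakHelm_of_classical
    · exact Complex.ofRealCLM.contDiff.comp (hF.smooth ω)
    · intro x
      have := ((hF.smooth ω).contDiffAt (x := x)).laplacian_CLM_comp_left (l := Complex.ofRealCLM)
      have e : (fun x => (F x ω : ℂ)) = Complex.ofRealCLM ∘ (fun x => F x ω) := by
        funext x; simp
      rw [e, this]
      simp [hF.helmholtz ω x]
  constructor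
  · apply Lp.ext
    filter_upwards [key _ hψ.vop.wop t, key _ hψ t, Lp.coeFn_neg (smear ψ (hF.toL4 h4) t)]
      with ω h1 h2 h3
    rw [h1, h3, Pi.neg_apply, h2]
    exact (hpath ω ψ hψ t).1
  · apply Lp.ext
    filter_upwards [key _ hψ.wop.vop t, key _ hψ t, Lp.coeFn_neg (smear ψ (hF.toL4 h4) t)]
      with ω h1 h2 h3
    rw [h1, h3, Pi.neg_apply, h2]
    exact (hpath ω ψ hψ t).2

end

end Berry


end

section

/-!
Stationarity of the forms, and smearing in each slot.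
-/

open Complex Filter Topology MeasureTheory ProbabilityTheory
open scoped ENNReal

namespace Berry

noncomputable section

variable {Ω : Type*} [MeasurableSpace Ω] {P : Measure Ω} [IsProbabilityMeasure P]
  {F : ℂ → Ω → ℝ}

omit [IsProbabilityMeasure P] in
/-- the four-linear form is bounded -/
lemma C4_bound : ∃ M : ℝ, 0 ≤ M ∧ ∀ a b c d : Lp ℂ 4 P,
    ‖C4 P a b c d‖ ≤ M * ‖a‖ * ‖b‖ * ‖c‖ * ‖d‖ := by
  refine ⟨‖pairX P‖ * ‖mulX P‖ * ‖mulX P‖, by positivity, fun a b c d => ?_⟩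
  have h1 : ‖mulX P a b‖ ≤ ‖mulX P‖ * ‖a‖ * ‖b‖ := (mulX P).le_opNorm₂ a b
  have h2 : ‖mulX P c d‖ ≤ ‖mulX P‖ * ‖c‖ * ‖d‖ := (mulX P).le_opNorm₂ c d
  have h3 : ‖C4 P a b c d‖ ≤ ‖pairX P‖ * ‖mulX P a b‖ * ‖mulX P c d‖ :=
    (pairX P).le_opNorm₂ _ _
  calc ‖C4 P a b c d‖ ≤ ‖pairX P‖ * ‖mulX P a b‖ * ‖mulX P c d‖ := h3
    _ ≤ ‖pairX P‖ * (‖mulX P‖ * ‖a‖ * ‖b‖) * (‖mulX P‖ * ‖c‖ * ‖d‖) := by gcongr
    _ = _ := by ring

/-- the form as a continuous linear functional of the first variable -/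
def C4L (P : Measure Ω) (b c d : Lp ℂ 4 P) : Lp ℂ 4 P →L[ℝ] ℂ :=
  ((pairX P).flip (mulX P c d)) ∘L ((mulX P).flip b)

omit [IsProbabilityMeasure P] in
lemma C4L_apply (a b c d : Lp ℂ 4 P) : C4L P b c d a = C4 P a b c d := rfl

omit [IsProbabilityMeasure P] in
lemma C4_smear1 {G : ℂ → Lp ℂ 4 P} (hG : Continuous G) {ψ : ℂ → ℂ} (hψ : TestFn ψ) (t : ℂ)
    (b c d : Lp ℂ 4 P) :
    C4 P (smear ψ G t) b c d = ∫ y, ψ y * C4 P (G (t - y)) b c d := by
  have h := ContinuousLinearMap.integral_comp_comm (C4L P b c d)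
    (smear_integrable hψ.continuous hψ.2 hG t)
  have h2 : C4 P (smear ψ G t) b c d = ∫ y, C4L P b c d (ψ y • G (t - y)) := h.symm
  rw [h2]
  congr 1
  funext y
  rw [C4L_apply, C4_smul1]

omit [IsProbabilityMeasure P] in
lemma C4_smear2 {G : ℂ → Lp ℂ 4 P} (hG : Continuous G) {ψ : ℂ → ℂ} (hψ : TestFn ψ) (t : ℂ)
    (a c d : Lp ℂ 4 P) :
    C4 P a (smear ψ G t) c d = ∫ y, ψ y * C4 P a (G (t - y)) c d := by
  rw [C4_swap12, C4_smear1 hG hψ]
  congr 1; funext y; rw [C4_swap12]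

omit [IsProbabilityMeasure P] in
lemma C4_smear3 {G : ℂ → Lp ℂ 4 P} (hG : Continuous G) {ψ : ℂ → ℂ} (hψ : TestFn ψ) (t : ℂ)
    (a b d : Lp ℂ 4 P) :
    C4 P a b (smear ψ G t) d = ∫ y, ψ y * C4 P a b (G (t - y)) d := by
  rw [C4_swap23, C4_smear2 hG hψ]
  congr 1; funext y; rw [C4_swap23]

omit [IsProbabilityMeasure P] in
lemma C4_smear4 {G : ℂ → Lp ℂ 4 P} (hG : Continuous G) {ψ : ℂ → ℂ} (hψ : TestFn ψ) (t : ℂ)
    (a b c : Lp ℂ 4 P) :
    C4 P a b c (smear ψ G t) = ∫ y, ψ y * C4 P a b c (G (t - y)) := by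
  rw [C4_swap34, C4_smear3 hG hψ]
  congr 1; funext y; rw [C4_swap34]

lemma C2_smear1 {G : ℂ → Lp ℂ 4 P} (hG : Continuous G) {ψ : ℂ → ℂ} (hψ : TestFn ψ) (t : ℂ)
    (b : Lp ℂ 4 P) : C2 P (smear ψ G t) b = ∫ y, ψ y * C2 P (G (t - y)) b :=
  C4_smear1 hG hψ t _ _ _

lemma C2_smear2 {G : ℂ → Lp ℂ 4 P} (hG : Continuous G) {ψ : ℂ → ℂ} (hψ : TestFn ψ) (t : ℂ)
    (a : Lp ℂ 4 P) : C2 P a (smear ψ G t) = ∫ y, ψ y * C2 P a (G (t - y)) :=
  C4_smear2 hG hψ t _ _ _

section shift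

omit [IsProbabilityMeasure P] in
lemma C4_smear_shift {G : ℂ → Lp ℂ 4 P} (hG : Continuous G)
    (hs : ∀ x₁ x₂ x₃ x₄ s, C4 P (G (x₁ + s)) (G (x₂ + s)) (G (x₃ + s)) (G (x₄ + s))
      = C4 P (G x₁) (G x₂) (G x₃) (G x₄))
    {ψ₁ ψ₂ ψ₃ ψ₄ : ℂ → ℂ} (h₁ : TestFn ψ₁) (h₂ : TestFn ψ₂) (h₃ : TestFn ψ₃) (h₄ : TestFn ψ₄)
    (t₁ t₂ t₃ t₄ s : ℂ) :
    C4 P (smear ψ₁ G (t₁ + s)) (smear ψ₂ G (t₂ + s)) (smear ψ₃ G (t₃ + s)) (smear ψ₄ G (t₄ + s))
      = C4 P (smear ψ₁ G t₁) (smear ψ₂ G t₂) (smear ψ₃ G t₃) (smear ψ₄ G t₄) := by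
  rw [C4_smear1 hG h₁, C4_smear1 hG h₁]
  congr 1; funext y₁; congr 1
  rw [C4_smear2 hG h₂, C4_smear2 hG h₂]
  congr 1; funext y₂; congr 1
  rw [C4_smear3 hG h₃, C4_smear3 hG h₃]
  congr 1; funext y₃; congr 1
  rw [C4_smear4 hG h₄, C4_smear4 hG h₄]
  congr 1; funext y₄; congr 1
  rw [← hs (t₁ - y₁) (t₂ - y₂) (t₃ - y₃) (t₄ - y₄) s]
  congr 2 <;> ring

lemma C3_smear_shift {G : ℂ → Lp ℂ 4 P} (hG : Continuous G)
    (hs : ∀ x₁ x₂ x₃ s, C3 P (G (x₁ + s)) (G (x₂ + s)) (G (x₃ + s))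
      = C3 P (G x₁) (G x₂) (G x₃))
    {ψ₁ ψ₂ ψ₃ : ℂ → ℂ} (h₁ : TestFn ψ₁) (h₂ : TestFn ψ₂) (h₃ : TestFn ψ₃)
    (t₁ t₂ t₃ s : ℂ) :
    C3 P (smear ψ₁ G (t₁ + s)) (smear ψ₂ G (t₂ + s)) (smear ψ₃ G (t₃ + s))
      = C3 P (smear ψ₁ G t₁) (smear ψ₂ G t₂) (smear ψ₃ G t₃) := by
  unfold C3 at *
  rw [C4_smear1 hG h₁, C4_smear1 hG h₁]
  congr 1; funext y₁; congr 1
  rw [C4_smear2 hG h₂, C4_smear2 hG h₂]
  congr 1; funext y₂; congr 1
  rw [C4_smear3 hG h₃, C4_smear3 hG h₃]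
  congr 1; funext y₃; congr 1
  rw [← hs (t₁ - y₁) (t₂ - y₂) (t₃ - y₃) s]
  congr 2 <;> ring

lemma C2_smear_shift {G : ℂ → Lp ℂ 4 P} (hG : Continuous G)
    (hs : ∀ x₁ x₂ s, C2 P (G (x₁ + s)) (G (x₂ + s)) = C2 P (G x₁) (G x₂))
    {ψ₁ ψ₂ : ℂ → ℂ} (h₁ : TestFn ψ₁) (h₂ : TestFn ψ₂) (t₁ t₂ s : ℂ) :
    C2 P (smear ψ₁ G (t₁ + s)) (smear ψ₂ G (t₂ + s)) = C2 P (smear ψ₁ G t₁) (smear ψ₂ G t₂) := by
  rw [C2_smear1 hG h₁, C2_smear1 hG h₁]
  congr 1; funext y₁; congr 1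
  rw [C2_smear2 hG h₂, C2_smear2 hG h₂]
  congr 1; funext y₂; congr 1
  rw [← hs (t₁ - y₁) (t₂ - y₂) s]
  congr 2 <;> ring

end shift

omit [IsProbabilityMeasure P] in
lemma InvWave.C4_F (hF : InvWave P F) (h4 : MemLp (F 0) 4 P) (x₁ x₂ x₃ x₄ : ℂ) :
    C4 P (hF.toL4 h4 x₁) (hF.toL4 h4 x₂) (hF.toL4 h4 x₃) (hF.toL4 h4 x₄)
      = ((∫ ω, F x₁ ω * F x₂ ω * F x₃ ω * F x₄ ω ∂P : ℝ) : ℂ) := by
  rw [C4_eq, ← integral_complex_ofReal]
  apply integral_congr_ae
  filter_upwards [hF.coeFn_toL4 h4 x₁, hF.coeFn_toL4 h4 x₂, hF.coeFn_toL4 h4 x₃,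
    hF.coeFn_toL4 h4 x₄] with ω e1 e2 e3 e4
  rw [e1, e2, e3, e4]; push_cast; ring

lemma InvWave.C3_F (hF : InvWave P F) (h4 : MemLp (F 0) 4 P) (x₁ x₂ x₃ : ℂ) :
    C3 P (hF.toL4 h4 x₁) (hF.toL4 h4 x₂) (hF.toL4 h4 x₃)
      = ((∫ ω, F x₁ ω * F x₂ ω * F x₃ ω ∂P : ℝ) : ℂ) := by
  rw [C3_eq, ← integral_complex_ofReal]
  apply integral_congr_ae
  filter_upwards [hF.coeFn_toL4 h4 x₁, hF.coeFn_toL4 h4 x₂, hF.coeFn_toL4 h4 x₃]
    with ω e1 e2 e3
  rw [e1, e2, e3]; push_cast; ring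

lemma InvWave.C2_F (hF : InvWave P F) (h4 : MemLp (F 0) 4 P) (x₁ x₂ : ℂ) :
    C2 P (hF.toL4 h4 x₁) (hF.toL4 h4 x₂) = ((∫ ω, F x₁ ω * F x₂ ω ∂P : ℝ) : ℂ) := by
  rw [C2_eq, ← integral_complex_ofReal]
  apply integral_congr_ae
  filter_upwards [hF.coeFn_toL4 h4 x₁, hF.coeFn_toL4 h4 x₂] with ω e1 e2
  rw [e1, e2]; push_cast; ring

omit [IsProbabilityMeasure P] in
lemma InvWave.int4_shift (hF : InvWave P F) (x₁ x₂ x₃ x₄ s : ℂ) :
    ∫ ω, F (x₁ + s) ω * F (x₂ + s) ω * F (x₃ + s) ω * F (x₄ + s) ω ∂P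
      = ∫ ω, F x₁ ω * F x₂ ω * F x₃ ω * F x₄ ω ∂P := by
  have h := (hF.stationary s).comp (u := fun f : ℂ → ℝ => f x₁ * f x₂ * f x₃ * f x₄)
    ((((measurable_pi_apply x₁).mul (measurable_pi_apply x₂)).mul (measurable_pi_apply x₃)).mul
      (measurable_pi_apply x₄))
  exact h.integral_eq

omit [IsProbabilityMeasure P] in
lemma InvWave.int3_shift (hF : InvWave P F) (x₁ x₂ x₃ s : ℂ) :
    ∫ ω, F (x₁ + s) ω * F (x₂ + s) ω * F (x₃ + s) ω ∂P
      = ∫ ω, F x₁ ω * F x₂ ω * F x₃ ω ∂P := by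
  have h := (hF.stationary s).comp (u := fun f : ℂ → ℝ => f x₁ * f x₂ * f x₃)
    (((measurable_pi_apply x₁).mul (measurable_pi_apply x₂)).mul (measurable_pi_apply x₃))
  exact h.integral_eq

omit [IsProbabilityMeasure P] in
lemma InvWave.int2_shift (hF : InvWave P F) (x₁ x₂ s : ℂ) :
    ∫ ω, F (x₁ + s) ω * F (x₂ + s) ω ∂P = ∫ ω, F x₁ ω * F x₂ ω ∂P := by
  have h := (hF.stationary s).comp (u := fun f : ℂ → ℝ => f x₁ * f x₂)
    ((measurable_pi_apply x₁).mul (measurable_pi_apply x₂))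
  exact h.integral_eq

omit [IsProbabilityMeasure P] in
lemma InvWave.C4_shift (hF : InvWave P F) (h4 : MemLp (F 0) 4 P) (x₁ x₂ x₃ x₄ s : ℂ) :
    C4 P (hF.toL4 h4 (x₁ + s)) (hF.toL4 h4 (x₂ + s)) (hF.toL4 h4 (x₃ + s)) (hF.toL4 h4 (x₄ + s))
      = C4 P (hF.toL4 h4 x₁) (hF.toL4 h4 x₂) (hF.toL4 h4 x₃) (hF.toL4 h4 x₄) := by
  rw [hF.C4_F, hF.C4_F, hF.int4_shift]

lemma InvWave.C3_shift (hF : InvWave P F) (h4 : MemLp (F 0) 4 P) (x₁ x₂ x₃ s : ℂ) :
    C3 P (hF.toL4 h4 (x₁ + s)) (hF.toL4 h4 (x₂ + s)) (hF.toL4 h4 (x₃ + s))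
      = C3 P (hF.toL4 h4 x₁) (hF.toL4 h4 x₂) (hF.toL4 h4 x₃) := by
  rw [hF.C3_F, hF.C3_F, hF.int3_shift]

lemma InvWave.C2_shift (hF : InvWave P F) (h4 : MemLp (F 0) 4 P) (x₁ x₂ s : ℂ) :
    C2 P (hF.toL4 h4 (x₁ + s)) (hF.toL4 h4 (x₂ + s))
      = C2 P (hF.toL4 h4 x₁) (hF.toL4 h4 x₂) := by
  rw [hF.C2_F, hF.C2_F, hF.int2_shift]

omit [IsProbabilityMeasure P] in
lemma InvWave.norm_toL4 (hF : InvWave P F) (h4 : MemLp (F 0) 4 P) (x : ℂ) :
    ‖hF.toL4 h4 x‖ = ‖hF.toL4 h4 0‖ := by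
  rw [InvWave.toL4, InvWave.toL4, Lp.norm_toLp, Lp.norm_toLp]
  congr 1
  have e : ∀ y, eLpNorm (fun ω => (F y ω : ℂ)) 4 P = eLpNorm (F y) 4 P := by
    intro y
    refine eLpNorm_congr_norm_ae (Eventually.of_forall fun ω => ?_)
    rw [Complex.norm_real]
  rw [e, e]
  exact (hF.identDistrib x).eLpNorm_eq (p := 4)

end

end Berry


end

section

/-!
Second-order mixing on average implies the Wick formula for the four-point function.
-/

open Complex Filter Topology MeasureTheory ProbabilityTheory Metric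
open scoped ENNReal

namespace Berry

noncomputable section

variable {Ω : Type*} [MeasurableSpace Ω] {P : Measure Ω} [IsProbabilityMeasure P]

section smearlemmas

variable {X : Type*} [NormedAddCommGroup X] [NormedSpace ℂ X]

lemma smear_continuous {G : ℂ → X} (hG : Continuous G) {ψ : ℂ → ℂ} (hψ : TestFn ψ) :
    Continuous (smear ψ G) := by
  rw [smear_eq_conv]
  exact hψ.2.continuous_convolution_left _ hψ.continuous (hG.locallyIntegrable (μ := volume))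

lemma smear_norm_le {G : ℂ → X} {B : ℝ} (hB : ∀ x, ‖G x‖ ≤ B) {ψ : ℂ → ℂ} (hψ : TestFn ψ)
    (t : ℂ) : ‖smear ψ G t‖ ≤ (∫ y, ‖ψ y‖) * B := by
  have hψi : Integrable ψ := hψ.continuous.integrable_of_hasCompactSupport hψ.2
  calc ‖smear ψ G t‖ ≤ ∫ y, ‖ψ y‖ * B := by
        refine norm_integral_le_of_norm_le (hψi.norm.mul_const _) (Eventually.of_forall fun y => ?_)
        rw [norm_smul]
        exact mul_le_mul_of_nonneg_left (hB _) (norm_nonneg _)
    _ = _ := by rw [integral_mul_const]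

end smearlemmas

variable {G : ℂ → Lp ℂ 4 P}

/-- averaged factorisation for the unsmeared field -/
def MixAvg (P : Measure Ω) [IsProbabilityMeasure P] (G : ℂ → Lp ℂ 4 P) : Prop :=
  ∀ x₁ x₂ c d, Tendsto (fun R : ℝ => ⨍ s in ball (0:ℂ) R,
    (C4 P (G (x₁ + s)) (G (x₂ + s)) c d - C2 P (G x₁) (G x₂) * C2 P c d)) atTop (𝓝 0)

omit [IsProbabilityMeasure P] in
lemma C4_comp_continuous {α : Type*} [TopologicalSpace α] {f₁ f₂ f₃ f₄ : α → Lp ℂ 4 P}
    (h₁ : Continuous f₁) (h₂ : Continuous f₂) (h₃ : Continuous f₃) (h₄ : Continuous f₄) :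
    Continuous fun x => C4 P (f₁ x) (f₂ x) (f₃ x) (f₄ x) := by
  unfold C4
  have k1 : Continuous (fun x => mulX P (f₁ x) (f₂ x)) :=
    ((mulX P).continuous.comp h₁).clm_apply h₂
  have k2 : Continuous (fun x => mulX P (f₃ x) (f₄ x)) :=
    ((mulX P).continuous.comp h₃).clm_apply h₄
  exact ((pairX P).continuous.comp k1).clm_apply k2

lemma C2_comp_continuous {α : Type*} [TopologicalSpace α] {f₁ f₂ : α → Lp ℂ 4 P}
    (h₁ : Continuous f₁) (h₂ : Continuous f₂) :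
    Continuous fun x => C2 P (f₁ x) (f₂ x) :=
  C4_comp_continuous h₁ h₂ continuous_const continuous_const

lemma C2_bound : ∃ M : ℝ, 0 ≤ M ∧ ∀ a b : Lp ℂ 4 P, ‖C2 P a b‖ ≤ M * ‖a‖ * ‖b‖ := by
  obtain ⟨M, hM, h⟩ := C4_bound (P := P)
  refine ⟨M * ‖one4 P‖ * ‖one4 P‖, by positivity, fun a b => ?_⟩
  refine (h a b _ _).trans (le_of_eq ?_)
  ring

/-- Lemma A -/
lemma mixAvg_smear (hG : Continuous G) {B : ℝ} (hB : ∀ x, ‖G x‖ ≤ B) (hm : MixAvg P G)
    {ψ₁ ψ₂ : ℂ → ℂ} (h₁ : TestFn ψ₁) (h₂ : TestFn ψ₂) (t₁ t₂ : ℂ) (c d : Lp ℂ 4 P) :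
    MZ (fun s => C4 P (smear ψ₁ G (t₁ + s)) (smear ψ₂ G (t₂ + s)) c d
      - C2 P (smear ψ₁ G t₁) (smear ψ₂ G t₂) * C2 P c d) := by
  obtain ⟨M, hM0, hM⟩ := C4_bound (P := P)
  obtain ⟨M', hM'0, hM'⟩ := C2_bound (P := P)
  have hB0 : 0 ≤ B := (norm_nonneg _).trans (hB 0)
  have cs2 := smear_continuous hG h₂
  have cs1 := smear_continuous hG h₁
  set B₂ := (∫ y, ‖ψ₂ y‖) * B with hB₂
  have hB₂0 : 0 ≤ B₂ := mul_nonneg (integral_nonneg fun _ => norm_nonneg _) hB0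
  have b2 : ∀ t, ‖smear ψ₂ G t‖ ≤ B₂ := smear_norm_le hB h₂
  -- inner smearing
  have inner : ∀ x₁, MZ (fun s => C4 P (G (x₁ + s)) (smear ψ₂ G (t₂ + s)) c d
      - C2 P (G x₁) (smear ψ₂ G t₂) * C2 P c d) := by
    intro x₁
    set A : ℂ → ℂ → ℂ := fun s y => C4 P (G (x₁ + s)) (G (t₂ - y + s)) c d
      - C2 P (G x₁) (G (t₂ - y)) * C2 P c d with hA
    have e : (fun s => C4 P (G (x₁ + s)) (smear ψ₂ G (t₂ + s)) c d
      - C2 P (G x₁) (smear ψ₂ G t₂) * C2 P c d) = fun s => ∫ y, ψ₂ y * A s y := by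
      funext s
      rw [C4_smear2 hG h₂, C2_smear2 hG h₂, ← integral_mul_const, ← integral_sub]
      · congr 1; funext y
        simp only [hA]
        have : t₂ + s - y = t₂ - y + s := by ring
        rw [this]; ring
      · apply Continuous.integrable_of_hasCompactSupport
        · exact h₂.continuous.mul (C4_comp_continuous continuous_const
            (hG.comp (continuous_const.sub continuous_id)) continuous_const continuous_const)
        · exact h₂.2.mul_right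
      · apply Integrable.mul_const
        apply Continuous.integrable_of_hasCompactSupport
        · exact h₂.continuous.mul (C2_comp_continuous continuous_const
            (hG.comp (continuous_const.sub continuous_id)))
        · exact h₂.2.mul_right
    have hcont : Continuous (fun s => C4 P (G (x₁ + s)) (smear ψ₂ G (t₂ + s)) c d
      - C2 P (G x₁) (smear ψ₂ G t₂) * C2 P c d) :=
      (C4_comp_continuous (hG.comp (continuous_const.add continuous_id))
        (cs2.comp (continuous_const.add continuous_id)) continuous_const continuous_const).sub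
        continuous_const
    rw [e] at hcont ⊢
    have hAc : Continuous (Function.uncurry A) := by
      simp only [hA, Function.uncurry_def]
      refine Continuous.sub ?_ ?_
      · exact C4_comp_continuous (hG.comp (by fun_prop)) (hG.comp (by fun_prop))
          continuous_const continuous_const
      · exact (C2_comp_continuous continuous_const (hG.comp (by fun_prop))).mul continuous_const
    have hAb : ∀ s y, ‖A s y‖ ≤ M * B * B * ‖c‖ * ‖d‖ + M' * B * B * ‖C2 P c d‖ := by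
      intro s y
      refine (norm_sub_le _ _).trans (add_le_add ?_ ?_)
      · refine (hM _ _ _ _).trans ?_
        gcongr <;> exact hB _
      · rw [norm_mul]
        refine mul_le_mul_of_nonneg_right ((hM' _ _).trans ?_) (norm_nonneg _)
        gcongr <;> exact hB _
    exact MZ.smear hAc hAb h₂ hcont (fun y => hm x₁ (t₂ - y) c d)
  -- outer smearing
  set A : ℂ → ℂ → ℂ := fun s y => C4 P (G (t₁ - y + s)) (smear ψ₂ G (t₂ + s)) c d
      - C2 P (G (t₁ - y)) (smear ψ₂ G t₂) * C2 P c d with hA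
  have e : (fun s => C4 P (smear ψ₁ G (t₁ + s)) (smear ψ₂ G (t₂ + s)) c d
      - C2 P (smear ψ₁ G t₁) (smear ψ₂ G t₂) * C2 P c d) = fun s => ∫ y, ψ₁ y * A s y := by
    funext s
    rw [C4_smear1 hG h₁, C2_smear1 hG h₁, ← integral_mul_const, ← integral_sub]
    · congr 1; funext y
      simp only [hA]
      have : t₁ + s - y = t₁ - y + s := by ring
      rw [this]; ring
    · apply Continuous.integrable_of_hasCompactSupport
      · exact h₁.continuous.mul (C4_comp_continuous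
          (hG.comp (continuous_const.sub continuous_id)) continuous_const continuous_const
          continuous_const)
      · exact h₁.2.mul_right
    · apply Integrable.mul_const
      apply Continuous.integrable_of_hasCompactSupport
      · exact h₁.continuous.mul (C2_comp_continuous
          (hG.comp (continuous_const.sub continuous_id)) continuous_const)
      · exact h₁.2.mul_right
  have hcont : Continuous (fun s => C4 P (smear ψ₁ G (t₁ + s)) (smear ψ₂ G (t₂ + s)) c d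
      - C2 P (smear ψ₁ G t₁) (smear ψ₂ G t₂) * C2 P c d) :=
    (C4_comp_continuous (cs1.comp (continuous_const.add continuous_id))
      (cs2.comp (continuous_const.add continuous_id)) continuous_const continuous_const).sub
      continuous_const
  rw [e] at hcont ⊢
  have hAc : Continuous (Function.uncurry A) := by
    simp only [hA, Function.uncurry_def]
    refine Continuous.sub ?_ ?_
    · exact C4_comp_continuous (hG.comp (by fun_prop)) (cs2.comp (by fun_prop))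
        continuous_const continuous_const
    · exact (C2_comp_continuous (hG.comp (by fun_prop)) continuous_const).mul continuous_const
  have hAb : ∀ s y, ‖A s y‖ ≤ M * B * B₂ * ‖c‖ * ‖d‖ + M' * B * B₂ * ‖C2 P c d‖ := by
    intro s y
    refine (norm_sub_le _ _).trans (add_le_add ?_ ?_)
    · refine (hM _ _ _ _).trans ?_
      gcongr
      · exact hB _
      · exact b2 _
    · rw [norm_mul]
      refine mul_le_mul_of_nonneg_right ((hM' _ _).trans ?_) (norm_nonneg _)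
      gcongr
      · exact hB _
      · exact b2 _
  exact MZ.smear hAc hAb h₁ hcont (fun y => (inner (t₁ - y)).2)

/-- the two-point function vanishes at infinity -/
def VanC2 (P : Measure Ω) [IsProbabilityMeasure P] (G : ℂ → Lp ℂ 4 P) : Prop :=
  ∀ x y, VanInf (fun s => C2 P (G (x + s)) (G y))

lemma vanC2_smear (hG : Continuous G)
    (hs2 : ∀ x₁ x₂ s, C2 P (G (x₁ + s)) (G (x₂ + s)) = C2 P (G x₁) (G x₂))
    (hv : VanC2 P G) {ψ₁ ψ₃ : ℂ → ℂ} (h₁ : TestFn ψ₁) (h₃ : TestFn ψ₃)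
    (t₁ t₃ : ℂ) : VanInf (fun s => C2 P (smear ψ₁ G (t₁ + s)) (smear ψ₃ G t₃)) := by
  -- first smear the second slot
  have inner : ∀ x, VanInf (fun s => C2 P (G (x + s)) (smear ψ₃ G t₃)) := by
    intro x
    have h0 := (hv x 0)
    have h2 := VanInf.smear (A := fun u => C2 P (G (x + u)) (G 0)) h0 (ψ := fun y => ψ₃ (-y))
      ⟨h₃.1.comp contDiff_neg, h₃.2.comp_homeomorph (Homeomorph.neg ℂ)⟩ (-t₃)
    have e : (fun s => C2 P (G (x + s)) (smear ψ₃ G t₃)) = fun s =>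
        ∫ y, ψ₃ (-y) * C2 P (G (x + (-t₃ - y + s))) (G 0) := by
      funext s
      rw [C2_smear2 hG h₃, ← integral_neg_eq_self]
      congr 1
      funext y
      congr 1
      rw [← hs2 (x + (-t₃ - y + s)) 0 (t₃ - -y)]
      congr 2 <;> ring
    rw [e]; exact h2
  have h2 := VanInf.smear (A := fun u => C2 P (G u) (smear ψ₃ G t₃))
    (by simpa using inner 0) h₁ t₁
  have e : (fun s => C2 P (smear ψ₁ G (t₁ + s)) (smear ψ₃ G t₃)) = fun s =>
      ∫ y, ψ₁ y * C2 P (G (t₁ - y + s)) (smear ψ₃ G t₃) := by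
    funext s
    rw [C2_smear1 hG h₁]
    congr 1; funext y
    have : t₁ + s - y = t₁ - y + s := by ring
    rw [this]
  rw [e]; exact h2

/-- Lemma B -/
lemma prod_mz (hG : Continuous G) {B : ℝ} (hB : ∀ x, ‖G x‖ ≤ B)
    (hs2 : ∀ x₁ x₂ s, C2 P (G (x₁ + s)) (G (x₂ + s)) = C2 P (G x₁) (G x₂))
    (hv : VanC2 P G) {ψ₁ ψ₂ ψ₃ ψ₄ : ℂ → ℂ} (h₁ : TestFn ψ₁) (h₂ : TestFn ψ₂) (h₃ : TestFn ψ₃)
    (h₄ : TestFn ψ₄) (t₁ t₂ t₃ t₄ : ℂ) :
    MZ (fun s => C2 P (smear ψ₁ G (t₁ + s)) (smear ψ₃ G t₃)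
      * C2 P (smear ψ₂ G (t₂ + s)) (smear ψ₄ G t₄)) := by
  obtain ⟨M', hM'0, hM'⟩ := C2_bound (P := P)
  have hB0 : 0 ≤ B := (norm_nonneg _).trans (hB 0)
  have cs1 := smear_continuous hG h₁
  have cs2 := smear_continuous hG h₂
  have bd : ∀ {ψ χ : ℂ → ℂ}, TestFn ψ → TestFn χ → ∃ C, 0 ≤ C ∧ ∀ t t',
      ‖C2 P (smear ψ G t) (smear χ G t')‖ ≤ C := by
    intro ψ χ hψ hχ
    refine ⟨M' * ((∫ y, ‖ψ y‖) * B) * ((∫ y, ‖χ y‖) * B), ?_, fun t t' => ?_⟩
    · have := integral_nonneg (μ := (volume : Measure ℂ)) (f := fun y => ‖ψ y‖) fun _ => norm_nonneg _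
      have := integral_nonneg (μ := (volume : Measure ℂ)) (f := fun y => ‖χ y‖) fun _ => norm_nonneg _
      (clear * - hM'0 hB0; positivity)
    · refine (hM' _ _).trans ?_
      have h1 := smear_norm_le hB hψ t
      have h2 := smear_norm_le hB hχ t'
      have := (norm_nonneg _).trans h1
      (clear * - h1 hM'0 h2 hB0; gcongr)
  obtain ⟨C, hC0, hC⟩ := bd h₁ h₃
  obtain ⟨C', hC'0, hC'⟩ := bd h₂ h₄
  refine VanInf.mz (C := C * C') ?_ ?_ ?_
  · exact (C2_comp_continuous (cs1.comp (continuous_const.add continuous_id))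
      continuous_const).mul (C2_comp_continuous (cs2.comp (continuous_const.add continuous_id))
      continuous_const)
  · intro ε hε
    obtain ⟨N, hN⟩ := vanC2_smear hG hs2 hv h₁ h₃ t₁ t₃ (ε / (C' + 1)) (by positivity)
    refine ⟨N, fun s hs => ?_⟩
    rw [norm_mul]
    calc _ ≤ (ε / (C' + 1)) * C' := mul_le_mul (hN s hs) (hC' _ _) (norm_nonneg _) (by positivity)
      _ ≤ ε := by
          rw [div_mul_eq_mul_div, div_le_iff₀ (by positivity)]
          nlinarith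
  · intro s
    rw [norm_mul]
    exact mul_le_mul (hC _ _) (hC' _ _) (norm_nonneg _) hC0

lemma QD_perm_231 (f₁ f₂ f₃ f₄ : Ladder (Lp ℂ 4 P)) (a b c e : ℤ) (t₁ t₂ t₃ t₄ : ℂ) :
    QD P f₁ f₂ f₃ f₄ a b c e t₁ t₂ t₃ t₄ = QD P f₂ f₃ f₁ f₄ b c a e t₂ t₃ t₁ t₄ := by
  simp only [QD, QC4, QW12, QW13, QW14]
  rw [C4_swap12 (f₁ a t₁), C4_swap23 (f₂ b t₂), C2_symm (f₁ a t₁) (f₂ b t₂),
    C2_symm (f₁ a t₁) (f₃ c t₃)]
  ring

lemma QD_perm_132 (f₁ f₂ f₃ f₄ : Ladder (Lp ℂ 4 P)) (a b c e : ℤ) (t₁ t₂ t₃ t₄ : ℂ) :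
    QD P f₁ f₂ f₃ f₄ a b c e t₁ t₂ t₃ t₄ = QD P f₁ f₃ f₂ f₄ a c b e t₁ t₃ t₂ t₄ := by
  simp only [QD, QC4, QW12, QW13, QW14]
  rw [C4_swap23 (f₁ a t₁), C2_symm (f₂ b t₂) (f₃ c t₃)]
  ring

/-- the Wick formula for smeared fields -/
theorem wick_smear (hG : Continuous G) {B : ℝ} (hB : ∀ x, ‖G x‖ ≤ B) (hW : WeakHelm G)
    (hs4 : ∀ x₁ x₂ x₃ x₄ s, C4 P (G (x₁ + s)) (G (x₂ + s)) (G (x₃ + s)) (G (x₄ + s))
      = C4 P (G x₁) (G x₂) (G x₃) (G x₄))
    (hs2 : ∀ x₁ x₂ s, C2 P (G (x₁ + s)) (G (x₂ + s)) = C2 P (G x₁) (G x₂))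
    (hm : MixAvg P G) (hv : VanC2 P G)
    {φ₁ φ₂ φ₃ φ₄ : ℂ → ℂ} (h₁ : TestFn φ₁) (h₂ : TestFn φ₂) (h₃ : TestFn φ₃) (h₄ : TestFn φ₄)
    (t₁ t₂ t₃ t₄ : ℂ) :
    C4 P (smear φ₁ G t₁) (smear φ₂ G t₂) (smear φ₃ G t₃) (smear φ₄ G t₄)
      = C2 P (smear φ₁ G t₁) (smear φ₂ G t₂) * C2 P (smear φ₃ G t₃) (smear φ₄ G t₄)
      + C2 P (smear φ₁ G t₁) (smear φ₃ G t₃) * C2 P (smear φ₂ G t₂) (smear φ₄ G t₄)
      + C2 P (smear φ₁ G t₁) (smear φ₄ G t₄) * C2 P (smear φ₂ G t₂) (smear φ₃ G t₃) := by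
  -- the means of the fourth cumulant over joint shifts of two points vanish
  have h12 : ∀ {χ₁ χ₂ χ₃ χ₄ : ℂ → ℂ} (k₁ : TestFn χ₁) (k₂ : TestFn χ₂) (k₃ : TestFn χ₃)
      (k₄ : TestFn χ₄) (a b c e : ℤ) (t₁ t₂ t₃ t₄ : ℂ),
      MZ (fun s => QD P (smearLadder hG hW k₁) (smearLadder hG hW k₂) (smearLadder hG hW k₃)
        (smearLadder hG hW k₄) a b c e (t₁ + s) (t₂ + s) t₃ t₄) := by
    intro χ₁ χ₂ χ₃ χ₄ k₁ k₂ k₃ k₄ a b c e t₁ t₂ t₃ t₄
    have l₁ := tl_testFn k₁ a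
    have l₂ := tl_testFn k₂ b
    have l₃ := tl_testFn k₃ c
    have l₄ := tl_testFn k₄ e
    have z1 := mixAvg_smear hG hB hm l₁ l₂ t₁ t₂ (smear (tl χ₃ c) G t₃) (smear (tl χ₄ e) G t₄)
    have z2 := (prod_mz hG hB hs2 hv l₁ l₂ l₃ l₄ t₁ t₂ t₃ t₄).const_mul (-1)
    have z3 := (prod_mz hG hB hs2 hv l₁ l₂ l₄ l₃ t₁ t₂ t₄ t₃).const_mul (-1)
    have z := z1.add (z2.add z3)
    have e : (fun s => QD P (smearLadder hG hW k₁) (smearLadder hG hW k₂) (smearLadder hG hW k₃)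
        (smearLadder hG hW k₄) a b c e (t₁ + s) (t₂ + s) t₃ t₄) = fun s =>
        (C4 P (smear (tl χ₁ a) G (t₁ + s)) (smear (tl χ₂ b) G (t₂ + s)) (smear (tl χ₃ c) G t₃)
          (smear (tl χ₄ e) G t₄)
        - C2 P (smear (tl χ₁ a) G t₁) (smear (tl χ₂ b) G t₂)
          * C2 P (smear (tl χ₃ c) G t₃) (smear (tl χ₄ e) G t₄))
        + ((-1) * (C2 P (smear (tl χ₁ a) G (t₁ + s)) (smear (tl χ₃ c) G t₃)
            * C2 P (smear (tl χ₂ b) G (t₂ + s)) (smear (tl χ₄ e) G t₄))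
        + (-1) * (C2 P (smear (tl χ₁ a) G (t₁ + s)) (smear (tl χ₄ e) G t₄)
            * C2 P (smear (tl χ₂ b) G (t₂ + s)) (smear (tl χ₃ c) G t₃))) := by
      funext s
      simp only [QD, QC4, QW12, QW13, QW14, smearLadder]
      rw [C2_smear_shift hG hs2 l₁ l₂]
      ring
    rw [e]; exact z
  have hzero := core4 (Q := QD P (smearLadder hG hW h₁) (smearLadder hG hW h₂)
      (smearLadder hG hW h₃) (smearLadder hG hW h₄)) (QD_der _ _ _ _) ?_ MZ
    (fun g h hg hh => hg.add hh) (fun k hk => hk.const)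
    (fun a b c e t₁ t₂ t₃ t₄ => h12 h₁ h₂ h₃ h₄ a b c e t₁ t₂ t₃ t₄)
    (fun a b c e t₁ t₂ t₃ t₄ => by
      have := h12 h₂ h₃ h₁ h₄ b c a e t₂ t₃ t₁ t₄
      refine (by
        have e : (fun s => QD P (smearLadder hG hW h₁) (smearLadder hG hW h₂)
          (smearLadder hG hW h₃) (smearLadder hG hW h₄) a b c e t₁ (t₂ + s) (t₃ + s) t₄) =
          fun s => QD P (smearLadder hG hW h₂) (smearLadder hG hW h₃)
          (smearLadder hG hW h₁) (smearLadder hG hW h₄) b c a e (t₂ + s) (t₃ + s) t₁ t₄ := by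
            funext s; exact QD_perm_231 _ _ _ _ _ _ _ _ _ _ _ _
        rw [e]; exact this))
    (fun a b c e t₁ t₂ t₃ t₄ => by
      have := h12 h₁ h₃ h₂ h₄ a c b e t₁ t₃ t₂ t₄
      have e : (fun s => QD P (smearLadder hG hW h₁) (smearLadder hG hW h₂)
          (smearLadder hG hW h₃) (smearLadder hG hW h₄) a b c e (t₁ + s) t₂ (t₃ + s) t₄) =
          fun s => QD P (smearLadder hG hW h₁) (smearLadder hG hW h₃)
          (smearLadder hG hW h₂) (smearLadder hG hW h₄) a c b e (t₁ + s) (t₃ + s) t₂ t₄ := by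
            funext s; exact QD_perm_132 _ _ _ _ _ _ _ _ _ _ _ _
      rw [e]; exact this)
    0 0 0 0 t₁ t₂ t₃ t₄
  · simp only [QD, QC4, QW12, QW13, QW14, smearLadder, tl_zero] at hzero
    linear_combination hzero
  · intro a b c e t₁ t₂ t₃ t₄ s
    have l₁ := tl_testFn h₁ a
    have l₂ := tl_testFn h₂ b
    have l₃ := tl_testFn h₃ c
    have l₄ := tl_testFn h₄ e
    simp only [QD, QC4, QW12, QW13, QW14, smearLadder]
    rw [C4_smear_shift hG hs4 l₁ l₂ l₃ l₄, C2_smear_shift hG hs2 l₁ l₂,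
      C2_smear_shift hG hs2 l₃ l₄, C2_smear_shift hG hs2 l₁ l₃, C2_smear_shift hG hs2 l₂ l₄,
      C2_smear_shift hG hs2 l₁ l₄, C2_smear_shift hG hs2 l₂ l₃]

end

end Berry


end

section

/-!
Removing the smearing.
-/

open Complex Filter Topology MeasureTheory ProbabilityTheory Metric Convolution
open scoped ENNReal ContDiff

namespace Berry

noncomputable section

/-- a sequence of bumps shrinking to the origin -/
def bumpSeq (n : ℕ) : ContDiffBump (0:ℂ) where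
  rIn := 1 / (2 * (n + 1))
  rOut := 1 / (n + 1)
  rIn_pos := by positivity
  rIn_lt_rOut := by
    have : (0:ℝ) < (n:ℝ) + 1 := by positivity
    rw [div_lt_div_iff₀ (by positivity) this]
    linarith

/-- an approximate identity of test functions -/
def approxId (n : ℕ) (y : ℂ) : ℂ := (((bumpSeq n).normed volume y : ℝ) : ℂ)

lemma approxId_testFn (n : ℕ) : TestFn (approxId n) := by
  constructor
  · exact Complex.ofRealCLM.contDiff.comp ((bumpSeq n).contDiff_normed)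
  · have := (bumpSeq n).hasCompactSupport_normed (μ := (volume : Measure ℂ))
    exact this.comp_left (g := fun r : ℝ => (r : ℂ)) (by simp)

lemma smear_approxId {X : Type*} [NormedAddCommGroup X] [NormedSpace ℂ X] [CompleteSpace X]
    {G : ℂ → X} (hG : Continuous G) (t : ℂ) :
    Tendsto (fun n => smear (approxId n) G t) atTop (𝓝 (G t)) := by
  have h1 : Tendsto (fun n : ℕ => (bumpSeq n).rOut) atTop (𝓝 0) := by
    have := tendsto_one_div_add_atTop_nhds_zero_nat (𝕜 := ℝ)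
    exact this
  have h2 := ContDiffBump.convolution_tendsto_right_of_continuous (μ := (volume : Measure ℂ))
    h1 hG t
  refine h2.congr fun n => ?_
  rw [convolution_def, smear]
  congr 1

lemma tendsto_clm_apply {E F : Type*} [NormedAddCommGroup E] [NormedSpace ℝ E]
    [NormedAddCommGroup F] [NormedSpace ℝ F] {f : ℕ → E →L[ℝ] F} {g : ℕ → E} {f₀ : E →L[ℝ] F}
    {g₀ : E} (hf : Tendsto f atTop (𝓝 f₀)) (hg : Tendsto g atTop (𝓝 g₀)) :
    Tendsto (fun n => f n (g n)) atTop (𝓝 (f₀ g₀)) := by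
  have hc := (isBoundedBilinearMap_apply (𝕜 := ℝ) (E := E) (F := F)).continuous
  exact (hc.tendsto (f₀, g₀)).comp (hf.prodMk_nhds hg)

variable {Ω : Type*} [MeasurableSpace Ω] {P : Measure Ω} [IsProbabilityMeasure P]
variable {G : ℂ → Lp ℂ 4 P}

omit [IsProbabilityMeasure P] in
lemma C4_tendsto {f₁ f₂ f₃ f₄ : ℕ → Lp ℂ 4 P} {a b c d : Lp ℂ 4 P}
    (h₁ : Tendsto f₁ atTop (𝓝 a)) (h₂ : Tendsto f₂ atTop (𝓝 b)) (h₃ : Tendsto f₃ atTop (𝓝 c))
    (h₄ : Tendsto f₄ atTop (𝓝 d)) :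
    Tendsto (fun n => C4 P (f₁ n) (f₂ n) (f₃ n) (f₄ n)) atTop (𝓝 (C4 P a b c d)) := by
  unfold C4
  have m1 : Tendsto (fun n => mulX P (f₁ n)) atTop (𝓝 (mulX P a)) :=
    ((mulX P).continuous.tendsto a).comp h₁
  have k1 : Tendsto (fun n => mulX P (f₁ n) (f₂ n)) atTop (𝓝 (mulX P a b)) :=
    tendsto_clm_apply m1 h₂
  have m2 : Tendsto (fun n => mulX P (f₃ n)) atTop (𝓝 (mulX P c)) :=
    ((mulX P).continuous.tendsto c).comp h₃
  have k2 : Tendsto (fun n => mulX P (f₃ n) (f₄ n)) atTop (𝓝 (mulX P c d)) :=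
    tendsto_clm_apply m2 h₄
  have m3 : Tendsto (fun n => pairX P (mulX P (f₁ n) (f₂ n))) atTop
      (𝓝 (pairX P (mulX P a b))) :=
    ((pairX P).continuous.tendsto (mulX P a b)).comp k1
  exact tendsto_clm_apply m3 k2

lemma C2_tendsto {f₁ f₂ : ℕ → Lp ℂ 4 P} {a b : Lp ℂ 4 P}
    (h₁ : Tendsto f₁ atTop (𝓝 a)) (h₂ : Tendsto f₂ atTop (𝓝 b)) :
    Tendsto (fun n => C2 P (f₁ n) (f₂ n)) atTop (𝓝 (C2 P a b)) :=
  C4_tendsto h₁ h₂ tendsto_const_nhds tendsto_const_nhds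

/-- the Wick formula -/
theorem wick_formula (hG : Continuous G) {B : ℝ} (hB : ∀ x, ‖G x‖ ≤ B) (hW : WeakHelm G)
    (hs4 : ∀ x₁ x₂ x₃ x₄ s, C4 P (G (x₁ + s)) (G (x₂ + s)) (G (x₃ + s)) (G (x₄ + s))
      = C4 P (G x₁) (G x₂) (G x₃) (G x₄))
    (hs2 : ∀ x₁ x₂ s, C2 P (G (x₁ + s)) (G (x₂ + s)) = C2 P (G x₁) (G x₂))
    (hm : MixAvg P G) (hv : VanC2 P G) (t₁ t₂ t₃ t₄ : ℂ) :
    C4 P (G t₁) (G t₂) (G t₃) (G t₄)
      = C2 P (G t₁) (G t₂) * C2 P (G t₃) (G t₄)
      + C2 P (G t₁) (G t₃) * C2 P (G t₂) (G t₄)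
      + C2 P (G t₁) (G t₄) * C2 P (G t₂) (G t₃) := by
  have a1 := smear_approxId hG t₁
  have a2 := smear_approxId hG t₂
  have a3 := smear_approxId hG t₃
  have a4 := smear_approxId hG t₄
  have L := C4_tendsto a1 a2 a3 a4
  have R := (((C2_tendsto a1 a2).mul (C2_tendsto a3 a4)).add
    ((C2_tendsto a1 a3).mul (C2_tendsto a2 a4))).add ((C2_tendsto a1 a4).mul (C2_tendsto a2 a3))
  refine tendsto_nhds_unique L (R.congr fun n => ?_)
  exact (wick_smear hG hB hW hs4 hs2 hm hv (approxId_testFn n) (approxId_testFn n)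
    (approxId_testFn n) (approxId_testFn n) t₁ t₂ t₃ t₄).symm

end

end Berry


end
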