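import Mathlib
import Pool.Agent.BWM.C02
import Pool.Agent.BWM.C07

/-! Parts: LibH11.Berry.Equi3, LibH11.Berry.Hyp, LibH11.Berry.Conv -/

section

/-!
Approximate weak Helmholtz equation for correlations; exchanging ultralimits and integrals.
-/

open Complex Filter Topology MeasureTheory Metric InnerProductSpace Laplacian
open scoped ENNReal

namespace Berry

noncomputable section

variable {Ω : Type*} [MeasurableSpace Ω] {P : Measure Ω} [IsProbabilityMeasure P]

lemma laplacian_ofReal {f : ℂ → ℝ} (hf : ContDiff ℝ 2 f) (x : ℂ) :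
    (Δ (fun x => (f x : ℂ))) x = (((Δ f) x : ℝ) : ℂ) := by
  have := (hf.contDiffAt (x := x)).laplacian_CLM_comp_left (l := Complex.ofRealCLM)
  have e : (fun x => (f x : ℂ)) = Complex.ofRealCLM ∘ f := by
    funext x; simp
  rw [e, this]
  simp

/-- Fubini for smeared correlations -/
lemma smear_corr {F : ℂ → Ω → ℝ} (hF : SingleW P F) {G : Ω → ℝ} (hG : Measurable G)
    (hGb : ∃ K : ℝ, ∀ ω, |G ω| ≤ K) {ψ : ℂ → ℂ} (hψ : TestFn ψ) (t : ℂ) :
    smear ψ (fun y => ((∫ ω, F y ω * G ω ∂P : ℝ) : ℂ)) t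
      = ∫ ω, (smear ψ (fun y => (F y ω : ℂ)) t) * (G ω : ℂ) ∂P := by
  obtain ⟨K, hK⟩ := hF.bdd
  obtain ⟨K', hK'⟩ := hGb
  have hψi : Integrable ψ := hψ.continuous.integrable_of_hasCompactSupport hψ.2
  have hmF := hF.meas_uncurry
  have h1 : ∀ y, ψ y • ((∫ ω, F (t - y) ω * G ω ∂P : ℝ) : ℂ)
      = ∫ ω, ψ y * ((F (t - y) ω * G ω : ℝ) : ℂ) ∂P := by
    intro y
    rw [← integral_complex_ofReal, smul_eq_mul, ← integral_const_mul]
  unfold smear
  simp only [h1]
  rw [integral_integral_swap]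
  · congr 1; funext ω
    rw [← integral_mul_const]
    congr 1; funext y
    simp only [smul_eq_mul]; push_cast; ring
  · have h2 : Integrable (fun p : ℂ × Ω => ψ p.1 * (1:ℂ)) ((volume : Measure ℂ).prod P) :=
      hψi.mul_prod (integrable_const (1:ℂ))
    simp only [mul_one] at h2
    have h3 := h2.mul_bdd (g := fun p : ℂ × Ω => ((F (t - p.1) p.2 * G p.2 : ℝ) : ℂ))
      (c := K * K') ?_ ?_
    · exact h3
    · have h4 : Measurable fun p : ℂ × Ω => (t - p.1, p.2) := by fun_prop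
      have h5 : Measurable fun p : ℂ × Ω => F (t - p.1) p.2 := hmF.comp h4
      exact (Complex.measurable_ofReal.comp (h5.mul (hG.comp measurable_snd))).aestronglyMeasurable
    · refine Eventually.of_forall fun p => ?_
      rw [Complex.norm_real, norm_mul, Real.norm_eq_abs, Real.norm_eq_abs]
      exact mul_le_mul (hK _ _) (hK' _) (abs_nonneg _) ((abs_nonneg _).trans (hK 0 p.2))

/-- the approximate weak Helmholtz equation for correlations -/
lemma approx_helm {F : ℂ → Ω → ℝ} (hF : SingleW P F) {G : Ω → ℝ} (hG : Measurable G)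
    (hGb : ∃ K : ℝ, ∀ ω, |G ω| ≤ K) {M : ℝ} (hM : ∀ y, ∫ ω, |F y ω| * |G ω| ∂P ≤ M)
    {r δ : ℝ} (hδ : 0 ≤ δ)
    (heq : ∀ ω, ∀ x ∈ ball (0:ℂ) r, |(Δ (fun x => F x ω)) x + F x ω| ≤ δ * |F x ω|)
    {ψ : ℂ → ℂ} (hψ : TestFn ψ) {t : ℂ} (ht : ∀ y ∈ tsupport ψ, ‖t - y‖ < r)
    {η : ℂ → ℂ} (hη : η = Wop (Vop ψ) ∨ η = Vop (Wop ψ)) :
    ‖smear η (fun y => ((∫ ω, F y ω * G ω ∂P : ℝ) : ℂ)) t
      + smear ψ (fun y => ((∫ ω, F y ω * G ω ∂P : ℝ) : ℂ)) t‖ ≤ δ * M * ∫ y, ‖ψ y‖ := by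
  obtain ⟨K, hK⟩ := hF.bdd
  obtain ⟨K', hK'⟩ := hGb
  have hψi : Integrable ψ := hψ.continuous.integrable_of_hasCompactSupport hψ.2
  have hηt : TestFn η := by
    rcases hη with h | h
    · rw [h]; exact hψ.vop.wop
    · rw [h]; exact hψ.wop.vop
  have hmF := hF.meas_uncurry
  have hcd : ∀ ω, ContDiff ℝ 2 (fun x => (F x ω : ℂ)) := fun ω =>
    Complex.ofRealCLM.contDiff.comp (hF.smooth ω)
  have key : ∀ ω, smear η (fun y => (F y ω : ℂ)) t = smear ψ (Δ (fun y => (F y ω : ℂ))) t := by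
    intro ω
    have hg1 : ContDiff ℝ 1 (fun x => (F x ω : ℂ)) := (hcd ω).of_le (by norm_num)
    rcases hη with h | h
    · rw [h, smear_Wop hψ.vop hg1, smear_Vop hψ (contDiff_Wop (hcd ω)), Vop_Wop (hcd ω)]
    · rw [h, smear_Vop hψ.wop hg1, smear_Wop hψ (contDiff_Vop (hcd ω)), Wop_Vop (hcd ω)]
  have hpt : ∀ ω, ‖smear η (fun y => (F y ω : ℂ)) t + smear ψ (fun y => (F y ω : ℂ)) t‖
      ≤ ∫ y, ‖ψ y‖ * (δ * |F (t - y) ω|) := by
    intro ω
    have hlc : Continuous (Δ (fun y => (F y ω : ℂ))) := by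
      have e : (Δ (fun y => (F y ω : ℂ))) = fun x => (((Δ (fun y => F y ω)) x : ℝ) : ℂ) := by
        funext x; exact laplacian_ofReal (hF.smooth ω) x
      rw [e]
      exact Complex.continuous_ofReal.comp (laplacian_continuous (hF.smooth ω))
    rw [key ω, smear, smear, ← integral_add (smear_integrable hψ.continuous hψ.2 hlc t)
      (smear_integrable hψ.continuous hψ.2 (hcd ω).continuous t)]
    refine norm_integral_le_of_norm_le ?_ (Eventually.of_forall fun y => ?_)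
    · have hc : Continuous fun y => ‖ψ y‖ * (δ * |F (t - y) ω|) :=
        hψ.continuous.norm.mul (continuous_const.mul
          (((hF.smooth ω).continuous.comp (continuous_const.sub continuous_id)).abs))
      exact hc.integrable_of_hasCompactSupport (hψ.2.norm.mul_right)
    · rw [← smul_add, norm_smul]
      by_cases hy : y ∈ tsupport ψ
      · refine mul_le_mul_of_nonneg_left ?_ (norm_nonneg _)
        have h1 := heq ω (t - y) (by rw [mem_ball, dist_zero_right]; exact ht y hy)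
        rw [laplacian_ofReal (hF.smooth ω), ← Complex.ofReal_add, Complex.norm_real,
          Real.norm_eq_abs]
        exact h1
      · have : ψ y = 0 := image_eq_zero_of_notMem_tsupport hy
        rw [this]; simp
  rw [smear_corr hF hG ⟨K', hK'⟩ hηt, smear_corr hF hG ⟨K', hK'⟩ hψ]
  -- measurability
  have hsm : ∀ {χ : ℂ → ℂ}, TestFn χ → Integrable (fun ω =>
      (smear χ (fun y => (F y ω : ℂ)) t) * (G ω : ℂ)) P := by
    intro χ hχ
    have hχi : Integrable χ := hχ.continuous.integrable_of_hasCompactSupport hχ.2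
    refine Integrable.of_bound (C := ((∫ y, ‖χ y‖) * K) * K') ?_ (Eventually.of_forall fun ω => ?_)
    · have h4 : Measurable fun p : Ω × ℂ => (t - p.2, p.1) := by fun_prop
      have h5 : Measurable fun p : Ω × ℂ => F (t - p.2) p.1 := hmF.comp h4
      have h6 : Measurable fun p : Ω × ℂ => χ p.2 • ((F (t - p.2) p.1 : ℝ) : ℂ) :=
        (hχ.continuous.measurable.comp measurable_snd).smul (Complex.measurable_ofReal.comp h5)
      have h7 := (h6.stronglyMeasurable.integral_prod_right' (ν := (volume : Measure ℂ))).measurable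
      exact (h7.mul (Complex.measurable_ofReal.comp hG)).aestronglyMeasurable
    · rw [norm_mul, Complex.norm_real, Real.norm_eq_abs]
      refine mul_le_mul ?_ (hK' ω) (abs_nonneg _) ?_
      · calc ‖smear χ (fun y => (F y ω : ℂ)) t‖ ≤ ∫ y, ‖χ y‖ * K := by
              refine norm_integral_le_of_norm_le (hχi.norm.mul_const _)
                (Eventually.of_forall fun y => ?_)
              rw [norm_smul, Complex.norm_real, Real.norm_eq_abs]
              exact mul_le_mul_of_nonneg_left (hK _ _) (norm_nonneg _)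
          _ = _ := by rw [integral_mul_const]
      · exact mul_nonneg (integral_nonneg fun _ => norm_nonneg _) ((abs_nonneg _).trans (hK 0 ω))
  rw [← integral_add (hsm hηt) (hsm hψ)]
  have h1 : ‖∫ ω, ((smear η (fun y => (F y ω : ℂ)) t) * (G ω : ℂ)
      + (smear ψ (fun y => (F y ω : ℂ)) t) * (G ω : ℂ)) ∂P‖
      ≤ ∫ ω, (∫ y, ‖ψ y‖ * (δ * |F (t - y) ω|)) * |G ω| ∂P := by
    refine norm_integral_le_of_norm_le ?_ (Eventually.of_forall fun ω => ?_)
    · refine Integrable.of_bound (C := ((∫ y, ‖ψ y‖) * (δ * K)) * K') ?_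
        (Eventually.of_forall fun ω => ?_)
      · have h4 : Measurable fun p : Ω × ℂ => (t - p.2, p.1) := by fun_prop
        have h5 : Measurable fun p : Ω × ℂ => F (t - p.2) p.1 := hmF.comp h4
        have h6 : Measurable fun p : Ω × ℂ => ‖ψ p.2‖ * (δ * |F (t - p.2) p.1|) :=
          ((hψ.continuous.norm.measurable.comp measurable_snd)).mul (measurable_const.mul h5.abs)
        have h7 := (h6.stronglyMeasurable.integral_prod_right' (ν := (volume : Measure ℂ))).measurable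
        exact (h7.mul hG.abs).aestronglyMeasurable
      · rw [norm_mul, Real.norm_eq_abs, Real.norm_eq_abs, abs_abs]
        refine mul_le_mul ?_ (hK' ω) (abs_nonneg _) ?_
        · rw [← Real.norm_eq_abs]
          calc ‖∫ y, ‖ψ y‖ * (δ * |F (t - y) ω|)‖ ≤ ∫ y, ‖ψ y‖ * (δ * K) := by
                refine norm_integral_le_of_norm_le (hψi.norm.mul_const _)
                  (Eventually.of_forall fun y => ?_)
                rw [norm_mul, norm_mul, norm_norm, Real.norm_eq_abs, Real.norm_eq_abs, abs_abs,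
                  abs_of_nonneg hδ]
                exact mul_le_mul_of_nonneg_left (mul_le_mul_of_nonneg_left (hK _ _) hδ)
                  (norm_nonneg _)
            _ = _ := by rw [integral_mul_const]
        · exact mul_nonneg (integral_nonneg fun _ => norm_nonneg _)
            (mul_nonneg hδ ((abs_nonneg _).trans (hK 0 ω)))
    · rw [← add_mul, norm_mul, Complex.norm_real, Real.norm_eq_abs]
      exact mul_le_mul_of_nonneg_right (hpt ω) (abs_nonneg _)
  refine h1.trans ?_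
  -- Fubini
  have h2 : ∫ ω, (∫ y, ‖ψ y‖ * (δ * |F (t - y) ω|)) * |G ω| ∂P
      = ∫ y, ∫ ω, ‖ψ y‖ * (δ * |F (t - y) ω|) * |G ω| ∂P := by
    rw [integral_integral_swap]
    · congr 1; funext ω; rw [integral_mul_const]
    · have h2 : Integrable (fun p : ℂ × Ω => ‖ψ p.1‖ * (1:ℝ)) ((volume : Measure ℂ).prod P) :=
        hψi.norm.mul_prod (integrable_const (1:ℝ))
      simp only [mul_one] at h2
      have h3 := h2.mul_bdd (g := fun p : ℂ × Ω => δ * |F (t - p.1) p.2| * |G p.2|)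
        (c := δ * K * K') ?_ ?_
      · refine h3.congr (Eventually.of_forall fun p => ?_)
        simp only [Function.uncurry]; ring
      · have h4 : Measurable fun p : ℂ × Ω => (t - p.1, p.2) := by fun_prop
        have h5 : Measurable fun p : ℂ × Ω => F (t - p.1) p.2 := hmF.comp h4
        exact ((measurable_const.mul h5.abs).mul (hG.comp measurable_snd).abs).aestronglyMeasurable
      · refine Eventually.of_forall fun p => ?_
        rw [norm_mul, norm_mul, Real.norm_eq_abs, Real.norm_eq_abs, Real.norm_eq_abs, abs_abs,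
          abs_abs, abs_of_nonneg hδ]
        exact mul_le_mul (mul_le_mul_of_nonneg_left (hK _ _) hδ) (hK' _) (abs_nonneg _)
          (mul_nonneg hδ ((abs_nonneg _).trans (hK 0 p.2)))
  rw [h2]
  have h3 : ∀ y, ∫ ω, ‖ψ y‖ * (δ * |F (t - y) ω|) * |G ω| ∂P ≤ ‖ψ y‖ * (δ * M) := by
    intro y
    have e : ∀ ω, ‖ψ y‖ * (δ * |F (t - y) ω|) * |G ω| = (‖ψ y‖ * δ) * (|F (t - y) ω| * |G ω|) :=
      fun ω => by ring
    simp only [e]
    rw [integral_const_mul]
    calc (‖ψ y‖ * δ) * ∫ ω, |F (t - y) ω| * |G ω| ∂P ≤ (‖ψ y‖ * δ) * M :=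
          mul_le_mul_of_nonneg_left (hM _) (mul_nonneg (norm_nonneg _) hδ)
      _ = _ := by ring
  calc ∫ y, ∫ ω, ‖ψ y‖ * (δ * |F (t - y) ω|) * |G ω| ∂P ≤ ∫ y, ‖ψ y‖ * (δ * M) := by
        refine integral_mono_of_nonneg (Eventually.of_forall fun y => ?_) (hψi.norm.mul_const _)
          (Eventually.of_forall h3)
        exact integral_nonneg fun ω => mul_nonneg (mul_nonneg (norm_nonneg _)
          (mul_nonneg hδ (abs_nonneg _))) (abs_nonneg _)
    _ = δ * M * ∫ y, ‖ψ y‖ := by rw [integral_mul_const]; ring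

/-- exchanging an ultralimit with an integral against a test function -/
lemma ultra_smear {U : Filter ℕ} {g : ℕ → ℂ → ℝ} {g₀ : ℂ → ℝ}
    (hgc : ∀ᶠ n in U, Continuous (g n)) (hg₀ : Continuous g₀)
    (hlim : ∀ z, Tendsto (fun n => g n z) U (𝓝 (g₀ z)))
    (hequi : ∀ r η : ℝ, 0 < η → ∃ d > 0, ∀ᶠ n in U, ∀ t t' : ℂ, ‖t‖ < r → ‖t'‖ < r →
      ‖t - t'‖ < d → |g n t - g n t'| ≤ η)
    {ψ : ℂ → ℂ} (hψ : TestFn ψ) (t : ℂ) :
    Tendsto (fun n => smear ψ (fun y => ((g n y : ℝ) : ℂ)) t) U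
      (𝓝 (smear ψ (fun y => ((g₀ y : ℝ) : ℂ)) t)) := by
  have hψi : Integrable ψ := hψ.continuous.integrable_of_hasCompactSupport hψ.2
  set K : Set ℂ := (fun y => t - y) '' tsupport ψ with hK
  have hKc : IsCompact K := hψ.2.isCompact.image (by fun_prop)
  obtain ⟨r, hr⟩ := hKc.isBounded.subset_ball (0:ℂ)
  -- uniform convergence on `K`
  have hunif : ∀ η : ℝ, 0 < η → ∀ᶠ n in U, ∀ z ∈ K, |g n z - g₀ z| ≤ 3 * η := by
    intro η hη
    obtain ⟨d, hd, h1⟩ := hequi r η hη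
    obtain ⟨d', hd', h2⟩ : ∃ d' > 0, ∀ z ∈ K, ∀ z' ∈ K, dist z z' < d' → |g₀ z - g₀ z'| ≤ η := by
      have huc := hKc.uniformContinuousOn_of_continuous hg₀.continuousOn
      obtain ⟨d', hd', h⟩ := Metric.uniformContinuousOn_iff.1 huc η hη
      exact ⟨d', hd', fun z hz z' hz' hzz => (h z hz z' hz' hzz).le⟩
    set e := min d d' with he
    have he0 : 0 < e := lt_min hd hd'
    obtain ⟨S, hSK, hSf, hcov⟩ := hKc.finite_cover_balls he0
    have h3 : ∀ᶠ n in U, ∀ p ∈ S, |g n p - g₀ p| ≤ η := by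
      rw [eventually_all_finite hSf]
      intro p _
      have h4 := Metric.tendsto_nhds.1 (hlim p) η hη
      filter_upwards [h4] with n hn
      rw [Real.dist_eq] at hn
      exact hn.le
    filter_upwards [h1, h3] with n hn1 hn3 z hz
    have hz2 := hcov hz
    simp only [Set.mem_iUnion, exists_prop] at hz2
    obtain ⟨p, hp, hzp⟩ := hz2
    rw [mem_ball] at hzp
    have hpK : p ∈ K := hSK hp
    have a1 := hn1 z p (by simpa [mem_ball, dist_zero_right] using hr hz)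
      (by simpa [mem_ball, dist_zero_right] using hr hpK)
      (by rw [← dist_eq_norm]; exact lt_of_lt_of_le hzp (min_le_left _ _))
    have a2 := hn3 p hp
    have a3 := h2 p hpK z hz (by rw [dist_comm]; exact lt_of_lt_of_le hzp (min_le_right _ _))
    have e1 : g n z - g₀ z = (g n z - g n p) + (g n p - g₀ p) + (g₀ p - g₀ z) := by ring
    rw [e1]
    have b1 := abs_add_le ((g n z - g n p) + (g n p - g₀ p)) (g₀ p - g₀ z)
    have b2 := abs_add_le (g n z - g n p) (g n p - g₀ p)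
    linarith
  set L := ∫ y, ‖ψ y‖ with hL
  have hL0 : 0 ≤ L := integral_nonneg fun _ => norm_nonneg _
  rw [Metric.tendsto_nhds]
  intro ε hε
  filter_upwards [hunif (ε / (6 * (L + 1))) (by positivity), hgc] with n hn hnc
  rw [dist_eq_norm]
  have i1 : Integrable fun y => ψ y • ((g n (t - y) : ℝ) : ℂ) :=
    smear_integrable hψ.continuous hψ.2 (Complex.continuous_ofReal.comp hnc) t
  have i2 : Integrable fun y => ψ y • ((g₀ (t - y) : ℝ) : ℂ) :=
    smear_integrable hψ.continuous hψ.2 (Complex.continuous_ofReal.comp hg₀) t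
  have e1 : smear ψ (fun y => ((g n y : ℝ) : ℂ)) t - smear ψ (fun y => ((g₀ y : ℝ) : ℂ)) t
      = ∫ y, (ψ y • ((g n (t - y) : ℝ) : ℂ) - ψ y • ((g₀ (t - y) : ℝ) : ℂ)) := by
    rw [smear, smear, ← integral_sub i1 i2]
  rw [e1]
  have h5 : ‖∫ y, (ψ y • ((g n (t - y) : ℝ) : ℂ) - ψ y • ((g₀ (t - y) : ℝ) : ℂ))‖
      ≤ ∫ y, ‖ψ y‖ * (3 * (ε / (6 * (L + 1)))) := by
    refine norm_integral_le_of_norm_le (hψi.norm.mul_const _) (Eventually.of_forall fun y => ?_)
    rw [← smul_sub, norm_smul, ← Complex.ofReal_sub, Complex.norm_real, Real.norm_eq_abs]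
    by_cases hy : y ∈ tsupport ψ
    · exact mul_le_mul_of_nonneg_left (hn _ ⟨y, hy, rfl⟩) (norm_nonneg _)
    · have : ψ y = 0 := image_eq_zero_of_notMem_tsupport hy
      rw [this]; simp
  refine lt_of_le_of_lt h5 ?_
  rw [integral_mul_const]
  have : L * (3 * (ε / (6 * (L + 1)))) ≤ ε / 2 := by
    have e2 : L * (3 * (ε / (6 * (L + 1)))) = (L / (L + 1)) * (ε / 2) := by
      field_simp; ring
    rw [e2]
    have h6 : L / (L + 1) ≤ 1 := by rw [div_le_one (by positivity)]; linarith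
    nlinarith
  linarith

end

end Berry


end

section

/-!
From mean-square convergence of spatial averages to averaged factorisation.
-/

open Complex Filter Topology MeasureTheory ProbabilityTheory Metric
open scoped ENNReal

namespace Berry

noncomputable section

variable {Ω : Type*} [MeasurableSpace Ω] {P : Measure Ω} [IsProbabilityMeasure P]
  {F : ℂ → Ω → ℝ}

/-- the `L²`-valued product process -/
def prodL2 (G : ℂ → Lp ℂ 4 P) (a x : ℂ) : Lp ℂ 2 P := mulX P (G x) (G (x + a))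

omit [IsProbabilityMeasure P] in
lemma prodL2_continuous {G : ℂ → Lp ℂ 4 P} (hG : Continuous G) (a : ℂ) :
    Continuous (prodL2 G a) :=
  ((mulX P).continuous.comp hG).clm_apply (hG.comp (continuous_id.add continuous_const))

omit [IsProbabilityMeasure P] in
lemma InvWave.prodL2_coeFn (hF : InvWave P F) (h4 : MemLp (F 0) 4 P) (a x : ℂ) :
    prodL2 (hF.toL4 h4) a x =ᵐ[P] fun ω => ((F x ω * F (x + a) ω : ℝ) : ℂ) := by
  filter_upwards [coeFn_mulX (hF.toL4 h4 x) (hF.toL4 h4 (x + a)), hF.coeFn_toL4 h4 x,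
    hF.coeFn_toL4 h4 (x + a)] with ω h1 h2 h3
  rw [prodL2, h1, h2, h3]; push_cast; ring

/-- the `L²`-valued average is a.e. equal to the pointwise average -/
lemma InvWave.avg_prodL2_coeFn (hF : InvWave P F) (h4 : MemLp (F 0) 4 P) (a : ℂ) (R : ℝ) :
    (⨍ x in ball (0:ℂ) R, prodL2 (hF.toL4 h4) a x : Lp ℂ 2 P) =ᵐ[P]
      fun ω => (spatialAvg F a R ω : ℂ) := by
  have hcont := hF.continuous_toL4 h4
  have hp : ∀ x, MemLp (fun ω => ((F x ω * F (x + a) ω : ℝ) : ℂ)) 2 P := by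
    intro x
    have := (Lp.memLp (prodL2 (hF.toL4 h4) a x))
    exact this.ae_eq (hF.prodL2_coeFn h4 a x)
  have he : (fun x => (hp x).toLp _) = fun x => prodL2 (hF.toL4 h4) a x := by
    funext x
    apply Lp.ext
    filter_upwards [(hp x).coeFn_toLp, hF.prodL2_coeFn h4 a x] with ω h1 h2
    rw [h1, h2]
  have hm : StronglyMeasurable (Function.uncurry fun (x : ℂ) ω => ((F x ω * F (x + a) ω : ℝ) : ℂ)) := by
    have h1 : Measurable fun p : ℂ × Ω => F p.1 p.2 := hF.measurable_uncurry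
    have h2 : Measurable fun p : ℂ × Ω => F (p.1 + a) p.2 :=
      hF.measurable_uncurry.comp ((measurable_fst.add_const a).prodMk measurable_snd)
    exact (Complex.measurable_ofReal.comp (h1.mul h2)).stronglyMeasurable
  have hi : Integrable (fun x => (hp x).toLp _) (volume.restrict (ball (0:ℂ) R)) := by
    rw [he]
    exact intOn (prodL2_continuous hcont a) 0 R
  have key := Lp_integral_coeFn hm hp hi
  rw [he] at key
  rw [setAverage_eq]
  filter_upwards [key, Lp.coeFn_smul ((volume.real (ball (0:ℂ) R))⁻¹ : ℝ)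
    (∫ x in ball (0:ℂ) R, prodL2 (hF.toL4 h4) a x)] with ω h1 h2
  rw [h2, Pi.smul_apply, h1, spatialAvg, setAverage_eq, integral_complex_ofReal]
  simp

/-- the constant function `1` in `L²` -/
def one2 (P : Measure Ω) [IsProbabilityMeasure P] : Lp ℂ 2 P :=
  MemLp.toLp (fun _ => (1:ℂ)) (memLp_const 1)

lemma coeFn_one2 : one2 P =ᵐ[P] fun _ => (1:ℂ) := MemLp.coeFn_toLp _

lemma mulX_one4 : mulX P (one4 P) (one4 P) = one2 P := by
  apply Lp.ext
  filter_upwards [coeFn_mulX (one4 P) (one4 P), coeFn_one4 (P := P), coeFn_one2 (P := P)]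
    with ω h1 h2 h3
  rw [h1, h2, h3]; ring

lemma norm_sq_sub_const (u : Lp ℂ 2 P) (f : Ω → ℝ) (hf : u =ᵐ[P] fun ω => (f ω : ℂ)) (k : ℝ) :
    ‖u - (k : ℂ) • one2 P‖ ^ 2 = ∫ ω, (f ω - k) ^ 2 ∂P := by
  have h1 := L2.inner_def (𝕜 := ℂ) (u - (k : ℂ) • one2 P) (u - (k : ℂ) • one2 P)
  have h2 : (‖u - (k : ℂ) • one2 P‖ ^ 2 : ℝ) =
      RCLike.re (inner ℂ (u - (k : ℂ) • one2 P) (u - (k : ℂ) • one2 P)) := by
    rw [inner_self_eq_norm_sq]
  rw [h2, h1]
  have h3 : ∫ ω, inner ℂ ((u - (k : ℂ) • one2 P) ω) ((u - (k : ℂ) • one2 P) ω) ∂P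
      = ((∫ ω, (f ω - k) ^ 2 ∂P : ℝ) : ℂ) := by
    rw [← integral_complex_ofReal]
    apply integral_congr_ae
    filter_upwards [Lp.coeFn_sub u ((k : ℂ) • one2 P), Lp.coeFn_smul (k : ℂ) (one2 P),
      coeFn_one2 (P := P), hf] with ω e1 e2 e3 e4
    rw [e1, Pi.sub_apply, e2, Pi.smul_apply, e3, e4, smul_eq_mul, mul_one]
    rw [← ofReal_sub]
    simp only [RCLike.inner_apply, conj_ofReal]
    push_cast; ring
  rw [h3]
  simp

variable (hF : InvWave P F) (h4 : MemLp (F 0) 4 P)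

omit [IsProbabilityMeasure P] in
lemma pairX_avg (G : ℂ → Lp ℂ 2 P) (hG : Continuous G) (H : Lp ℂ 2 P) (R : ℝ) :
    pairX P (⨍ x in ball (0:ℂ) R, G x) H = ⨍ x in ball (0:ℂ) R, pairX P (G x) H := by
  rw [setAverage_eq, setAverage_eq, map_smul]
  have h := ContinuousLinearMap.integral_comp_comm ((pairX P).flip H)
    (intOn hG 0 R)
  have h2 : pairX P (∫ x in ball (0:ℂ) R, G x) H = ∫ x in ball (0:ℂ) R, pairX P (G x) H := h.symm
  rw [← h2]
  rfl

/-- mean-square convergence as convergence in `L²` -/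
lemma InvWave.planck_L2 (hq : PlanckQE P F) (a : ℂ) :
    Tendsto (fun R : ℝ => (⨍ x in ball (0:ℂ) R, prodL2 (hF.toL4 h4) a x : Lp ℂ 2 P)) atTop
      (𝓝 ((((∫ ω', F 0 ω' ^ 2 ∂P) * waveK a : ℝ) : ℂ) • one2 P)) := by
  rw [tendsto_iff_norm_sub_tendsto_zero]
  have h1 : ∀ R : ℝ, ‖(⨍ x in ball (0:ℂ) R, prodL2 (hF.toL4 h4) a x : Lp ℂ 2 P)
      - (((∫ ω', F 0 ω' ^ 2 ∂P) * waveK a : ℝ) : ℂ) • one2 P‖ =
      Real.sqrt (∫ ω, (spatialAvg F a R ω - (∫ ω', F 0 ω' ^ 2 ∂P) * waveK a) ^ 2 ∂P) := by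
    intro R
    rw [← norm_sq_sub_const _ _ (hF.avg_prodL2_coeFn h4 a R), Real.sqrt_sq (norm_nonneg _)]
  simp only [h1]
  have := (hq a).sqrt
  simpa using this

include hF h4 in
/-- the two-point function is determined by the spatial averages -/
lemma InvWave.planck_two_point (hq : PlanckQE P F) (x y : ℂ) :
    ∫ ω, F x ω * F y ω ∂P = (∫ ω', F 0 ω' ^ 2 ∂P) * waveK (y - x) := by
  have hcont := hF.continuous_toL4 h4
  set a := y - x with ha
  have h1 := hF.planck_L2 h4 hq a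
  have h2 : Tendsto (fun R : ℝ => pairX P (⨍ x in ball (0:ℂ) R, prodL2 (hF.toL4 h4) a x) (one2 P))
      atTop (𝓝 (pairX P ((((∫ ω', F 0 ω' ^ 2 ∂P) * waveK a : ℝ) : ℂ) • one2 P) (one2 P))) :=
    (((pairX P).flip (one2 P)).continuous.tendsto _).comp h1
  have h3 : pairX P ((((∫ ω', F 0 ω' ^ 2 ∂P) * waveK a : ℝ) : ℂ) • one2 P) (one2 P)
      = (((∫ ω', F 0 ω' ^ 2 ∂P) * waveK a : ℝ) : ℂ) := by
    rw [pairX_eq]
    have : ∫ ω, (((((∫ ω', F 0 ω' ^ 2 ∂P) * waveK a : ℝ) : ℂ) • one2 P : Lp ℂ 2 P) ω)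
        * (one2 P) ω ∂P = ∫ _, (((∫ ω', F 0 ω' ^ 2 ∂P) * waveK a : ℝ) : ℂ) ∂P := by
      apply integral_congr_ae
      filter_upwards [Lp.coeFn_smul (((∫ ω', F 0 ω' ^ 2 ∂P) * waveK a : ℝ) : ℂ) (one2 P),
        coeFn_one2 (P := P)] with ω e1 e2
      rw [e1, Pi.smul_apply, e2]; simp
    rw [this]; simp
  have h4' : ∀ s, pairX P (prodL2 (hF.toL4 h4) a s) (one2 P)
      = ((∫ ω, F x ω * F y ω ∂P : ℝ) : ℂ) := by
    intro s
    have e : pairX P (prodL2 (hF.toL4 h4) a s) (one2 P) = C2 P (hF.toL4 h4 s) (hF.toL4 h4 (s + a)) := by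
      rw [C2, C4, mulX_one4]; rfl
    rw [e, hF.C2_F]
    congr 1
    have := hF.int2_shift x y (s - x)
    have e1 : x + (s - x) = s := by ring
    have e2 : y + (s - x) = s + a := by rw [ha]; ring
    rw [e1, e2] at this
    exact this
  have h5 : Tendsto (fun R : ℝ => pairX P (⨍ x in ball (0:ℂ) R, prodL2 (hF.toL4 h4) a x) (one2 P))
      atTop (𝓝 ((∫ ω, F x ω * F y ω ∂P : ℝ) : ℂ)) := by
    refine tendsto_const_nhds.congr' ?_
    filter_upwards [eventually_gt_atTop (0:ℝ)] with R hR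
    rw [pairX_avg _ (prodL2_continuous hcont a)]
    simp only [h4']
    rw [avg_const hR]
  have h6 := tendsto_nhds_unique h5 h2
  rw [h3] at h6
  exact_mod_cast h6

/-- averaged factorisation -/
lemma InvWave.planck_mixAvg (hq : PlanckQE P F) : MixAvg P (hF.toL4 h4) := by
  have hcont := hF.continuous_toL4 h4
  intro x₁ x₂ c d
  set G := hF.toL4 h4 with hGdef
  set a := x₂ - x₁ with ha
  set H := mulX P c d with hH
  obtain ⟨M, hM0, hM⟩ := C4_bound (P := P)
  set g : ℂ → ℂ := fun s => C4 P (G s) (G (s + a)) c d with hg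
  have hgc : Continuous g := C4_comp_continuous hcont (hcont.comp (continuous_id.add continuous_const))
    continuous_const continuous_const
  have hgb : ∀ s, ‖g s‖ ≤ M * ‖G 0‖ * ‖G 0‖ * ‖c‖ * ‖d‖ := by
    intro s
    refine (hM _ _ _ _).trans (le_of_eq ?_)
    rw [hGdef, hF.norm_toL4 h4 s, hF.norm_toL4 h4 (s + a)]
  have h1 := hF.planck_L2 h4 hq a
  have h2 : Tendsto (fun R : ℝ => pairX P (⨍ x in ball (0:ℂ) R, prodL2 G a x) H)
      atTop (𝓝 (pairX P ((((∫ ω', F 0 ω' ^ 2 ∂P) * waveK a : ℝ) : ℂ) • one2 P) H)) :=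
    (((pairX P).flip H).continuous.tendsto _).comp h1
  have h3 : pairX P ((((∫ ω', F 0 ω' ^ 2 ∂P) * waveK a : ℝ) : ℂ) • one2 P) H
      = C2 P (G x₁) (G x₂) * C2 P c d := by
    have e1 : C2 P (G x₁) (G x₂) = (((∫ ω', F 0 ω' ^ 2 ∂P) * waveK a : ℝ) : ℂ) := by
      rw [hGdef, hF.C2_F, hF.planck_two_point h4 hq]
    rw [e1, pairX_eq, C2_eq, ← integral_const_mul]
    apply integral_congr_ae
    filter_upwards [Lp.coeFn_smul (((∫ ω', F 0 ω' ^ 2 ∂P) * waveK a : ℝ) : ℂ) (one2 P),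
      coeFn_one2 (P := P), coeFn_mulX c d] with ω e1 e2 e3
    rw [e1, Pi.smul_apply, e2, hH, e3, smul_eq_mul, mul_one]
  rw [h3] at h2
  have h4' : Tendsto (fun R : ℝ => ⨍ s in ball (0:ℂ) R, g s) atTop
      (𝓝 (C2 P (G x₁) (G x₂) * C2 P c d)) := by
    refine h2.congr fun R => ?_
    rw [pairX_avg _ (prodL2_continuous hcont a)]
    rfl
  have h5 := avg_shift hgc hgb x₁
  have h6 := h5.add h4'
  simp only [sub_add_cancel, zero_add] at h6
  have h7 : Tendsto (fun R : ℝ => (⨍ s in ball (0:ℂ) R, g (x₁ + s))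
      - C2 P (G x₁) (G x₂) * C2 P c d) atTop (𝓝 0) := by
    have := h6.sub_const (C2 P (G x₁) (G x₂) * C2 P c d)
    simpa using this
  refine h7.congr' ?_
  filter_upwards [eventually_gt_atTop (0:ℝ)] with R hR
  have hc1 : Continuous fun s => g (x₁ + s) := hgc.comp (continuous_const.add continuous_id)
  have := avg_add hc1 (continuous_const (y := -(C2 P (G x₁) (G x₂) * C2 P c d))) R
  rw [avg_const hR, ← sub_eq_add_neg] at this
  rw [← this]
  congr 1
  funext s
  simp only [hg]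
  rw [← sub_eq_add_neg]
  congr 3
  rw [ha]; ring

lemma InvWave.planck_vanC2 (hq : PlanckQE P F) : VanC2 P (hF.toL4 h4) := by
  intro x y ε hε
  set v := ∫ ω', F 0 ω' ^ 2 ∂P with hv
  obtain ⟨N, hN⟩ := waveK_vanishes (ε / (|v| + 1)) (by positivity)
  refine ⟨N + ‖y - x‖, fun s hs => ?_⟩
  simp only
  rw [hF.C2_F, hF.planck_two_point h4 hq, Complex.norm_real, Real.norm_eq_abs, abs_mul]
  have h1 : N ≤ ‖y - (x + s)‖ := by
    have : ‖s‖ ≤ ‖y - (x + s)‖ + ‖y - x‖ := by
      calc ‖s‖ = ‖(y - x) - (y - (x + s))‖ := by congr 1; ring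
        _ ≤ ‖y - x‖ + ‖y - (x + s)‖ := norm_sub_le _ _
        _ = _ := add_comm _ _
    linarith
  have h2 := hN _ h1
  calc |v| * |waveK (y - (x + s))| ≤ |v| * (ε / (|v| + 1)) :=
        mul_le_mul_of_nonneg_left h2 (abs_nonneg _)
    _ ≤ ε := by
        rw [mul_div_assoc', div_le_iff₀ (by positivity)]
        linarith only [hε]

include hF h4 in
/-- Planck-scale quantum ergodicity implies the Gaussian four-point function. -/
theorem InvWave.planck_four_point (hq : PlanckQE P F) (x₁ x₂ x₃ x₄ : ℂ) :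
    ∫ ω, F x₁ ω * F x₂ ω * F x₃ ω * F x₄ ω ∂P = (∫ ω', F 0 ω' ^ 2 ∂P) ^ 2 *
      (waveK (x₁ - x₂) * waveK (x₃ - x₄) + waveK (x₁ - x₃) * waveK (x₂ - x₄)
        + waveK (x₁ - x₄) * waveK (x₂ - x₃)) := by
  have hcont := hF.continuous_toL4 h4
  have h := wick_formula hcont (B := ‖hF.toL4 h4 0‖) (fun x => (hF.norm_toL4 h4 x).le)
    (hF.weakHelm h4) (hF.C4_shift h4) (hF.C2_shift h4) (hF.planck_mixAvg h4 hq)
    (hF.planck_vanC2 h4 hq) x₁ x₂ x₃ x₄
  have e : ∀ x y, ∫ ω, F x ω * F y ω ∂P = (∫ ω', F 0 ω' ^ 2 ∂P) * waveK (x - y) := by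
    intro x y
    rw [hF.planck_two_point h4 hq, ← waveK_neg (x - y), neg_sub]
  simp only [hF.C4_F, hF.C2_F, e] at h
  have h' : (∫ ω, F x₁ ω * F x₂ ω * F x₃ ω * F x₄ ω ∂P) =
      (∫ ω', F 0 ω' ^ 2 ∂P) * waveK (x₁ - x₂) * ((∫ ω', F 0 ω' ^ 2 ∂P) * waveK (x₃ - x₄))
      + (∫ ω', F 0 ω' ^ 2 ∂P) * waveK (x₁ - x₃) * ((∫ ω', F 0 ω' ^ 2 ∂P) * waveK (x₂ - x₄))
      + (∫ ω', F 0 ω' ^ 2 ∂P) * waveK (x₁ - x₄) * ((∫ ω', F 0 ω' ^ 2 ∂P) * waveK (x₂ - x₃)) := by
    exact_mod_cast h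
  rw [h']; ring

end

end Berry


end

section

/-!
The converse: the Gaussian four-point function implies Planck-scale quantum ergodicity; and
averages of products along transversal directions.
-/

open Complex Filter Topology MeasureTheory ProbabilityTheory Metric
open scoped ENNReal

namespace Berry

noncomputable section

variable {Ω : Type*} [MeasurableSpace Ω] {P : Measure Ω} [IsProbabilityMeasure P]
  {F : ℂ → Ω → ℝ}

/-- the `L²`-valued average is a.e. equal to the pointwise average -/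
lemma InvWave.avg_prod_coeFn (hF : InvWave P F) (h4 : MemLp (F 0) 4 P) {α β : ℂ → ℂ}
    (hα : Continuous α) (hβ : Continuous β) (R : ℝ) :
    (⨍ x in ball (0:ℂ) R, mulX P (hF.toL4 h4 (α x)) (hF.toL4 h4 (β x)) : Lp ℂ 2 P) =ᵐ[P]
      fun ω => ((⨍ x in ball (0:ℂ) R, F (α x) ω * F (β x) ω : ℝ) : ℂ) := by
  have hcont := hF.continuous_toL4 h4
  have hco : ∀ x, mulX P (hF.toL4 h4 (α x)) (hF.toL4 h4 (β x)) =ᵐ[P]
      fun ω => ((F (α x) ω * F (β x) ω : ℝ) : ℂ) := by
    intro x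
    filter_upwards [coeFn_mulX (hF.toL4 h4 (α x)) (hF.toL4 h4 (β x)), hF.coeFn_toL4 h4 (α x),
      hF.coeFn_toL4 h4 (β x)] with ω h1 h2 h3
    rw [h1, h2, h3]; push_cast; ring
  have hp : ∀ x, MemLp (fun ω => ((F (α x) ω * F (β x) ω : ℝ) : ℂ)) 2 P := fun x =>
    (Lp.memLp (mulX P (hF.toL4 h4 (α x)) (hF.toL4 h4 (β x)))).ae_eq (hco x)
  have he : (fun x => (hp x).toLp _) = fun x => mulX P (hF.toL4 h4 (α x)) (hF.toL4 h4 (β x)) := by
    funext x
    apply Lp.ext
    filter_upwards [(hp x).coeFn_toLp, hco x] with ω h1 h2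
    rw [h1, h2]
  have hm : StronglyMeasurable (Function.uncurry fun (x : ℂ) ω =>
      ((F (α x) ω * F (β x) ω : ℝ) : ℂ)) := by
    have h1 : Measurable fun p : ℂ × Ω => F (α p.1) p.2 :=
      hF.measurable_uncurry.comp ((hα.measurable.comp measurable_fst).prodMk measurable_snd)
    have h2 : Measurable fun p : ℂ × Ω => F (β p.1) p.2 :=
      hF.measurable_uncurry.comp ((hβ.measurable.comp measurable_fst).prodMk measurable_snd)
    exact (Complex.measurable_ofReal.comp (h1.mul h2)).stronglyMeasurable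
  have hcm : Continuous fun x => mulX P (hF.toL4 h4 (α x)) (hF.toL4 h4 (β x)) :=
    ((mulX P).continuous.comp (hcont.comp hα)).clm_apply (hcont.comp hβ)
  have hi : Integrable (fun x => (hp x).toLp _) (volume.restrict (ball (0:ℂ) R)) := by
    rw [he]
    exact intOn hcm 0 R
  have key := Lp_integral_coeFn hm hp hi
  rw [he] at key
  rw [setAverage_eq]
  filter_upwards [key, Lp.coeFn_smul ((volume.real (ball (0:ℂ) R))⁻¹ : ℝ)
    (∫ x in ball (0:ℂ) R, mulX P (hF.toL4 h4 (α x)) (hF.toL4 h4 (β x)))] with ω h1 h2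
  rw [h2, Pi.smul_apply, h1, setAverage_eq, integral_complex_ofReal]
  simp

lemma pairX_self_sub (u : Lp ℂ 2 P) (f : Ω → ℝ) (hf : u =ᵐ[P] fun ω => (f ω : ℂ)) (k : ℝ) :
    pairX P (u - (k : ℂ) • one2 P) (u - (k : ℂ) • one2 P) = ((∫ ω, (f ω - k) ^ 2 ∂P : ℝ) : ℂ) := by
  rw [pairX_eq, ← integral_complex_ofReal]
  apply integral_congr_ae
  filter_upwards [Lp.coeFn_sub u ((k : ℂ) • one2 P), Lp.coeFn_smul (k : ℂ) (one2 P),
    coeFn_one2 (P := P), hf] with ω e1 e2 e3 e4
  rw [e1, Pi.sub_apply, e2, Pi.smul_apply, e3, e4, smul_eq_mul, mul_one]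
  push_cast; ring

omit [IsProbabilityMeasure P] in
lemma pairX_symm (a b : Lp ℂ 2 P) : pairX P a b = pairX P b a := by
  rw [pairX_eq, pairX_eq]; congr 1; funext ω; ring

omit [IsProbabilityMeasure P] in
lemma pairX_smul1 (z : ℂ) (a b : Lp ℂ 2 P) : pairX P (z • a) b = z * pairX P a b := by
  rw [pairX_eq, pairX_eq, ← integral_const_mul]
  apply integral_congr_ae
  filter_upwards [Lp.coeFn_smul z a] with ω h1
  rw [h1]; simp only [Pi.smul_apply, smul_eq_mul]; ring

omit [IsProbabilityMeasure P] in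
lemma pairX_smul2 (z : ℂ) (a b : Lp ℂ 2 P) : pairX P a (z • b) = z * pairX P a b := by
  rw [pairX_symm, pairX_smul1, pairX_symm]

lemma pairX_one_one : pairX P (one2 P) (one2 P) = 1 := by
  rw [pairX_eq]
  have : ∫ ω, (one2 P) ω * (one2 P) ω ∂P = ∫ _, (1:ℂ) ∂P := by
    apply integral_congr_ae
    filter_upwards [coeFn_one2 (P := P)] with ω h
    rw [h]; ring
  rw [this]; simp

lemma pairX_expand (u : Lp ℂ 2 P) (k : ℂ) :
    pairX P (u - k • one2 P) (u - k • one2 P)
      = pairX P u u - 2 * k * pairX P u (one2 P) + k ^ 2 := by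
  simp only [map_sub, _root_.sub_apply, pairX_smul1, pairX_smul2, pairX_one_one]
  rw [pairX_symm (one2 P) u]; ring

omit [IsProbabilityMeasure P] in
lemma pairX_avg2 (G : ℂ → Lp ℂ 2 P) (hG : Continuous G) (H : Lp ℂ 2 P) (R : ℝ) :
    pairX P H (⨍ x in ball (0:ℂ) R, G x) = ⨍ x in ball (0:ℂ) R, pairX P H (G x) := by
  rw [pairX_symm, pairX_avg G hG H R]
  congr 1
  funext x; rw [pairX_symm]

lemma avg_close {h : ℂ → ℂ} (hh : Continuous h) {L : ℂ} {ε : ℝ} (hb : ∀ s, ‖h s - L‖ ≤ ε)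
    {R : ℝ} (hR : 0 < R) : ‖(⨍ s in ball (0:ℂ) R, h s) - L‖ ≤ ε := by
  have e : (⨍ s in ball (0:ℂ) R, h s) - L = ⨍ s in ball (0:ℂ) R, (h s - L) := by
    have := avg_add hh (continuous_const (y := -L)) R
    rw [avg_const hR, ← sub_eq_add_neg] at this
    rw [← this]
    rfl
  rw [e]
  refine (avg_norm_le _ R).trans ?_
  exact avg_le_of_le (hh.sub continuous_const).norm hb hR

lemma avg_mono {g h : ℂ → ℝ} (hg : Continuous g) (hh : Continuous h) (hle : ∀ s, g s ≤ h s)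
    (R : ℝ) : ⨍ s in ball (0:ℂ) R, g s ≤ ⨍ s in ball (0:ℂ) R, h s := by
  rw [setAverage_eq, setAverage_eq, smul_eq_mul, smul_eq_mul]
  refine mul_le_mul_of_nonneg_left ?_ (by positivity)
  exact integral_mono (intOn hg 0 R) (intOn hh 0 R) hle

omit [IsProbabilityMeasure P] in
/-- two-scale averages: if `pairX (A s) (B s') = L + error`, with errors controlled by functions
vanishing at infinity, then the pairing of the averages tends to `L`. -/
lemma dbl_avg {A B : ℂ → Lp ℂ 2 P} (hA : Continuous A) (hB : Continuous B) {L : ℂ}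
    {g : ℂ → ℂ} (hg : Continuous g) (hv : VanInf g) {C : ℝ} (hC : ∀ s, ‖g s‖ ≤ C)
    {q q₂ q' : ℂ → ℂ} {v : ℝ} (hv0 : 0 ≤ v) {g' : ℂ → ℂ} (hg' : Continuous g') (hv' : VanInf g')
    (hC' : ∀ s, ‖g' s‖ ≤ C)
    (hb : ∀ s s', ‖pairX P (A s) (B s') - L‖ ≤ v * ‖g (q s + s')‖ + v * ‖g (q₂ s + s')‖
      + v * ‖g' (q' s + s')‖) :
    Tendsto (fun R : ℝ => pairX P (⨍ s in ball (0:ℂ) R, A s) (⨍ s in ball (0:ℂ) R, B s)) atTop
      (𝓝 L) := by
  rw [Metric.tendsto_atTop]
  intro ε hε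
  obtain ⟨R₀, hR₀, h1⟩ := unif_avg hg hv hC (ε / (6 * (v + 1))) (by positivity)
  obtain ⟨R₁, hR₁, h2⟩ := unif_avg hg' hv' hC' (ε / (6 * (v + 1))) (by positivity)
  refine ⟨max R₀ R₁, fun R hR => ?_⟩
  have hRpos : 0 < R := lt_of_lt_of_le hR₀ ((le_max_left _ _).trans hR)
  rw [dist_eq_norm, pairX_avg A hA]
  refine lt_of_le_of_lt (avg_close (ε := ε/2) ?_ ?_ hRpos) (by linarith)
  · exact ((pairX P).continuous.comp hA).clm_apply continuous_const
  · intro s
    rw [pairX_avg2 B hB]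
    have hcB : Continuous fun s' => pairX P (A s) (B s') :=
      ((pairX P (A s)).continuous).comp hB
    have e : (⨍ s' in ball (0:ℂ) R, pairX P (A s) (B s')) - L
        = ⨍ s' in ball (0:ℂ) R, (pairX P (A s) (B s') - L) := by
      have := avg_add hcB (continuous_const (y := -L)) R
      rw [avg_const hRpos, ← sub_eq_add_neg] at this
      rw [← this]
      rfl
    rw [e]
    refine (avg_norm_le _ R).trans ?_
    have c1 : Continuous fun s' => v * ‖g (q s + s')‖ :=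
      continuous_const.mul (hg.comp (continuous_const.add continuous_id)).norm
    have c1' : Continuous fun s' => v * ‖g (q₂ s + s')‖ :=
      continuous_const.mul (hg.comp (continuous_const.add continuous_id)).norm
    have c2 : Continuous fun s' => v * ‖g' (q' s + s')‖ :=
      continuous_const.mul (hg'.comp (continuous_const.add continuous_id)).norm
    have c11 : Continuous fun s' => v * ‖g (q s + s')‖ + v * ‖g (q₂ s + s')‖ := c1.add c1'
    have c12 : Continuous fun s' => v * ‖g (q s + s')‖ + v * ‖g (q₂ s + s')‖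
      + v * ‖g' (q' s + s')‖ := c11.add c2
    refine (avg_mono (hcB.sub continuous_const).norm c12 (hb s) R).trans ?_
    rw [avg_add c11 c2 R, avg_add c1 c1' R]
    have hm : ∀ (k : ℂ → ℂ) (p : ℂ), ⨍ s' in ball (0:ℂ) R, v * ‖k (p + s')‖
        = v * ⨍ s' in ball (0:ℂ) R, ‖k (p + s')‖ := by
      intro k p
      rw [setAverage_eq, setAverage_eq, integral_const_mul, smul_eq_mul, smul_eq_mul]; ring
    rw [hm g (q s), hm g (q₂ s), hm g' (q' s)]
    have hsm : ∀ z : ℝ, z ≤ ε / (6 * (v + 1)) → v * z ≤ ε / 6 := by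
      intro z hz
      calc v * z ≤ v * (ε / (6 * (v + 1))) := mul_le_mul_of_nonneg_left hz hv0
        _ ≤ (v + 1) * (ε / (6 * (v + 1))) := mul_le_mul_of_nonneg_right (by linarith)
            (by positivity)
        _ = ε / 6 := by field_simp
    have b1 := hsm _ (h1 R ((le_max_left _ _).trans hR) (q s))
    have b1' := hsm _ (h1 R ((le_max_left _ _).trans hR) (q₂ s))
    have b2 := hsm _ (h2 R ((le_max_right _ _).trans hR) (q' s))
    linarith only [b1, b1', b2]

/-- `K` as a complex-valued function -/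
def Kc (x : ℂ) : ℂ := (waveK x : ℂ)

lemma Kc_continuous : Continuous Kc := Complex.continuous_ofReal.comp waveK_continuous

lemma Kc_norm (x : ℂ) : ‖Kc x‖ = |waveK x| := by rw [Kc, Complex.norm_real, Real.norm_eq_abs]

lemma Kc_le (x : ℂ) : ‖Kc x‖ ≤ 1 := by rw [Kc_norm]; exact waveK_abs_le x

lemma Kc_van : VanInf Kc := by
  intro ε hε
  obtain ⟨N, hN⟩ := waveK_vanishes ε hε
  exact ⟨N, fun s hs => by rw [Kc_norm]; exact hN s hs⟩

lemma Kc_lin_van {κ : ℂ} (hκ : κ ≠ 0) (p : ℂ) : VanInf (fun s => Kc (p + κ * s)) := by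
  intro ε hε
  obtain ⟨N, hN⟩ := Kc_van ε hε
  have hk : 0 < ‖κ‖ := norm_pos_iff.2 hκ
  refine ⟨(N + ‖p‖) / ‖κ‖, fun s hs => hN _ ?_⟩
  rw [div_le_iff₀ hk] at hs
  have : ‖κ * s‖ ≤ ‖p + κ * s‖ + ‖p‖ := by
    calc ‖κ * s‖ = ‖(p + κ * s) - p‖ := by congr 1; ring
      _ ≤ _ := norm_sub_le _ _
  rw [norm_mul] at this
  linarith [mul_comm ‖s‖ ‖κ‖]

variable (hF : InvWave P F) (h4 : MemLp (F 0) 4 P)

include hF h4 in
lemma InvWave.four_pair (h : FourPt P F) (a b : ℂ) :
    Tendsto (fun R : ℝ => pairX P (⨍ s in ball (0:ℂ) R, prodL2 (hF.toL4 h4) a s)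
      (⨍ s in ball (0:ℂ) R, prodL2 (hF.toL4 h4) b s)) atTop
      (𝓝 (((((∫ ω, F 0 ω ^ 2 ∂P) ^ 2 * (waveK a * waveK b) : ℝ)) : ℂ))) := by
  have hcont := hF.continuous_toL4 h4
  set v := ∫ ω, F 0 ω ^ 2 ∂P with hv
  refine dbl_avg (prodL2_continuous hcont a) (prodL2_continuous hcont b) (g := Kc) (g' := Kc)
    (C := 1) (q := fun s => -s) (q₂ := fun s => -s) (q' := fun s => b - s) (v := v ^ 2)
    Kc_continuous Kc_van Kc_le (by positivity) Kc_continuous Kc_van Kc_le ?_
  intro s s'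
  have e1 : pairX P (prodL2 (hF.toL4 h4) a s) (prodL2 (hF.toL4 h4) b s')
      = C4 P (hF.toL4 h4 s) (hF.toL4 h4 (s + a)) (hF.toL4 h4 s') (hF.toL4 h4 (s' + b)) := rfl
  refine le_trans ?_ (add_le_add_left (le_add_of_nonneg_right
    (by positivity : 0 ≤ v ^ 2 * ‖Kc (-s + s')‖)) _)
  rw [e1, hF.C4_F, h s (s + a) s' (s' + b), ← ofReal_sub, Complex.norm_real, Real.norm_eq_abs,
    Kc_norm, Kc_norm]
  have k1 : waveK (s - (s + a)) = waveK a := by
    rw [← waveK_neg]; congr 1; ring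
  have k2 : waveK (s' - (s' + b)) = waveK b := by
    rw [← waveK_neg]; congr 1; ring
  have k3 : waveK (s - s') = waveK (-s + s') := by
    rw [← waveK_neg]; congr 1; ring
  have k4 : waveK (s - (s' + b)) = waveK (b - s + s') := by
    rw [← waveK_neg]; congr 1; ring
  rw [k1, k2, k3, k4]
  have e2 : v ^ 2 * (waveK a * waveK b + waveK (-s + s') * waveK (s + a - (s' + b)) +
      waveK (b - s + s') * waveK (s + a - s')) - v ^ 2 * (waveK a * waveK b)
      = v ^ 2 * (waveK (-s + s') * waveK (s + a - (s' + b)))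
        + v ^ 2 * (waveK (b - s + s') * waveK (s + a - s')) := by ring
  rw [e2]
  refine (abs_add_le _ _).trans (add_le_add ?_ ?_)
  · rw [abs_mul, abs_of_nonneg (by positivity : (0:ℝ) ≤ v^2), abs_mul]
    have := waveK_abs_le (s + a - (s' + b))
    have h0 := abs_nonneg (waveK (-s + s'))
    refine mul_le_mul_of_nonneg_left ?_ (by positivity)
    nlinarith only [this, h0]
  · rw [abs_mul, abs_of_nonneg (by positivity : (0:ℝ) ≤ v^2), abs_mul]
    have := waveK_abs_le (s + a - s')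
    have h0 := abs_nonneg (waveK (b - s + s'))
    refine mul_le_mul_of_nonneg_left ?_ (by positivity)
    nlinarith

include hF h4 in
lemma InvWave.pairX_avg_one (a : ℂ) {R : ℝ} (hR : 0 < R) :
    pairX P (⨍ s in ball (0:ℂ) R, prodL2 (hF.toL4 h4) a s) (one2 P)
      = ((∫ ω, F 0 ω * F a ω ∂P : ℝ) : ℂ) := by
  have hcont := hF.continuous_toL4 h4
  rw [pairX_avg _ (prodL2_continuous hcont a)]
  have h4' : ∀ s, pairX P (prodL2 (hF.toL4 h4) a s) (one2 P)
      = ((∫ ω, F 0 ω * F a ω ∂P : ℝ) : ℂ) := by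
    intro s
    have e : pairX P (prodL2 (hF.toL4 h4) a s) (one2 P)
        = C2 P (hF.toL4 h4 s) (hF.toL4 h4 (s + a)) := by
      rw [C2, C4, mulX_one4]; rfl
    rw [e, hF.C2_F]
    congr 1
    have := hF.int2_shift 0 a s
    rw [zero_add, add_comm a s] at this
    exact this
  simp only [h4']
  exact avg_const hR _

include hF h4 in
/-- the Gaussian four-point function implies Planck-scale quantum ergodicity -/
theorem InvWave.planck_of_fourPt (h : FourPt P F) : PlanckQE P F := by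
  have hcont := hF.continuous_toL4 h4
  set v := ∫ ω, F 0 ω ^ 2 ∂P with hv
  have hv0 : 0 ≤ v := integral_nonneg fun _ => sq_nonneg _
  set c : ℂ → ℝ := fun a => ∫ ω, F 0 ω * F a ω ∂P with hc
  have hc0 : c 0 = v := by
    simp only [hc, hv]; congr 1; funext ω; ring
  -- second moments of the averages
  have key : ∀ a : ℂ, ∀ k : ℝ, Tendsto (fun R : ℝ => ∫ ω, (spatialAvg F a R ω - k) ^ 2 ∂P) atTop
      (𝓝 (v ^ 2 * (waveK a * waveK a) - 2 * k * c a + k ^ 2)) := by
    intro a k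
    have h1 := hF.four_pair h4 h a a
    rw [← hv] at h1
    have h2 : Tendsto (fun R : ℝ => ((∫ ω, (spatialAvg F a R ω - k) ^ 2 ∂P : ℝ) : ℂ)) atTop
        (𝓝 ((v ^ 2 * (waveK a * waveK a) - 2 * k * c a + k ^ 2 : ℝ) : ℂ)) := by
      have h3 : Tendsto (fun R : ℝ =>
          pairX P (⨍ s in ball (0:ℂ) R, prodL2 (hF.toL4 h4) a s)
            (⨍ s in ball (0:ℂ) R, prodL2 (hF.toL4 h4) a s) - 2 * (k:ℂ) * (c a : ℂ) + (k:ℂ) ^ 2)
          atTop (𝓝 ((v ^ 2 * (waveK a * waveK a) - 2 * k * c a + k ^ 2 : ℝ) : ℂ)) := by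
        have := (h1.sub_const (2 * (k:ℂ) * (c a : ℂ))).add_const ((k:ℂ) ^ 2)
        push_cast at this ⊢
        exact this
      refine h3.congr' ?_
      filter_upwards [eventually_gt_atTop (0:ℝ)] with R hR
      rw [← pairX_self_sub _ _ (hF.avg_prodL2_coeFn h4 a R) k, pairX_expand,
        hF.pairX_avg_one h4 a hR]
    have h4' := (Complex.continuous_re.tendsto _).comp h2
    simpa only [Function.comp_def, ofReal_re] using h4'
  -- the energy converges
  have hV : Tendsto (fun R : ℝ => ∫ ω, (spatialAvg F 0 R ω - v) ^ 2 ∂P) atTop (𝓝 0) := by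
    have := key 0 v
    rw [hc0, waveK_zero] at this
    have e : v ^ 2 * (1 * 1) - 2 * v * v + v ^ 2 = 0 := by ring
    rwa [e] at this
  have hVL : Tendsto (fun R : ℝ => (⨍ s in ball (0:ℂ) R, prodL2 (hF.toL4 h4) 0 s)
      - (v : ℂ) • one2 P) atTop (𝓝 0) := by
    rw [tendsto_zero_iff_norm_tendsto_zero]
    have h1 : ∀ R : ℝ, ‖(⨍ s in ball (0:ℂ) R, prodL2 (hF.toL4 h4) 0 s) - (v : ℂ) • one2 P‖
        = Real.sqrt (∫ ω, (spatialAvg F 0 R ω - v) ^ 2 ∂P) := by
      intro R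
      rw [← norm_sq_sub_const _ _ (hF.avg_prodL2_coeFn h4 0 R), Real.sqrt_sq (norm_nonneg _)]
    simp only [h1]
    have := hV.sqrt
    simpa using this
  -- the two-point function
  have hcK : ∀ a, c a = v * waveK a := by
    intro a
    have h1 := hF.four_pair h4 h a 0
    rw [← hv, waveK_zero, mul_one] at h1
    -- bounded
    have hbd : ∀ R : ℝ, 0 < R → ‖(⨍ s in ball (0:ℂ) R, prodL2 (hF.toL4 h4) a s : Lp ℂ 2 P)‖ ≤
        ‖mulX P‖ * ‖hF.toL4 h4 0‖ * ‖hF.toL4 h4 0‖ := by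
      intro R hR
      refine (avg_norm_le _ R).trans ?_
      refine avg_le_of_le (prodL2_continuous hcont a).norm (fun s => ?_) hR
      refine ((mulX P).le_opNorm₂ _ _).trans (le_of_eq ?_)
      rw [hF.norm_toL4 h4 s, hF.norm_toL4 h4 (s + a)]
    have h2 : Tendsto (fun R : ℝ => pairX P (⨍ s in ball (0:ℂ) R, prodL2 (hF.toL4 h4) a s)
        ((⨍ s in ball (0:ℂ) R, prodL2 (hF.toL4 h4) 0 s) - (v : ℂ) • one2 P)) atTop (𝓝 0) := by
      have h3 : Tendsto (fun R : ℝ => ‖pairX P‖ * (‖mulX P‖ * ‖hF.toL4 h4 0‖ * ‖hF.toL4 h4 0‖)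
          * ‖(⨍ s in ball (0:ℂ) R, prodL2 (hF.toL4 h4) 0 s) - (v : ℂ) • one2 P‖) atTop
          (𝓝 0) := by
        have := hVL.norm.const_mul (‖pairX P‖ * (‖mulX P‖ * ‖hF.toL4 h4 0‖ * ‖hF.toL4 h4 0‖))
        simpa using this
      refine squeeze_zero_norm' ?_ h3
      filter_upwards [eventually_gt_atTop (0:ℝ)] with R hR
      refine ((pairX P).le_opNorm₂ _ _).trans ?_
      gcongr
      exact hbd R hR
    have h5 := h1.sub h2
    have h6 : Tendsto (fun _ : ℝ => (v : ℂ) * (c a : ℂ)) atTop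
        (𝓝 (((v ^ 2 * waveK a : ℝ) : ℂ) - 0)) := by
      refine h5.congr' ?_
      filter_upwards [eventually_gt_atTop (0:ℝ)] with R hR
      rw [map_sub, sub_sub_cancel, pairX_smul2, hF.pairX_avg_one h4 a hR]
    have h7 := tendsto_nhds_unique h6 tendsto_const_nhds
    rw [sub_zero] at h7
    have h8 : v ^ 2 * waveK a = v * c a := by exact_mod_cast h7
    rcases hv0.eq_or_lt with h0 | hpos
    · -- v = 0
      rw [← h0, zero_mul]
      have i2 : ∀ x, Integrable (fun ω => F x ω ^ 2) P := fun x =>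
        ((hF.memLp h4 x).mono_exponent (p := 2) (by norm_num)).integrable_sq
      have e1 : ∀ x, ∫ ω, F x ω ^ 2 ∂P = v := by
        intro x
        have := hF.int2_shift 0 0 x
        simp only [zero_add] at this
        rw [hv]
        simp only [sq]
        exact this
      have h9 : ∀ x, (fun ω => F x ω ^ 2) =ᵐ[P] 0 := by
        intro x
        rw [← integral_eq_zero_iff_of_nonneg (fun _ => sq_nonneg _) (i2 x), e1 x, ← h0]
      have h10 : (fun ω => F 0 ω * F a ω) =ᵐ[P] fun _ => 0 := by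
        filter_upwards [h9 0] with ω hω
        have : F 0 ω = 0 := by
          have : F 0 ω ^ 2 = 0 := hω
          exact pow_eq_zero_iff (two_ne_zero) |>.1 this
        rw [this, zero_mul]
      simp only [hc]
      rw [integral_congr_ae h10]; simp
    · have : v * c a = v * (v * waveK a) := by rw [← h8]; ring
      exact mul_left_cancel₀ hpos.ne' this
  intro a
  have := key a (v * waveK a)
  rw [hcK a] at this
  have e : v ^ 2 * (waveK a * waveK a) - 2 * (v * waveK a) * (v * waveK a) + (v * waveK a) ^ 2 = 0 := by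
    ring
  rw [e] at this
  exact this

end

end Berry


end
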