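import Mathlib
import Pool.Agent.BWM.C06

/-! Parts: LibH11.Berry.Met, LibH11.Berry.MetR, LibH11.Berry.Core2, LibH11.Berry.Fn4, LibH11.Berry.Fn4b -/

section

/-!
A mean ergodic theorem for stationary Hilbert space valued processes on the plane.
-/

open Complex Filter Topology MeasureTheory Metric
open scoped ENNReal NNReal

namespace Berry

noncomputable section

section shift

variable {E : Type*} [NormedAddCommGroup E] [NormedSpace ℝ E]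

/-- averages over large discs do not see a translation (vector valued) -/
lemma avg_shiftE {g : ℂ → E} (hg : Continuous g) {C : ℝ} (hC : ∀ s, ‖g s‖ ≤ C) (x : ℂ) :
    Tendsto (fun R : ℝ => (⨍ s in ball (0:ℂ) R, g (x + s)) - ⨍ s in ball (0:ℂ) R, g s)
      atTop (𝓝 0) := by
  have hC0 : 0 ≤ C := (norm_nonneg _).trans (hC 0)
  have hpi := Real.pi_pos
  have key : ∀ R : ℝ, ‖x‖ < R → ‖(⨍ s in ball (0:ℂ) R, g (x + s)) - ⨍ s in ball (0:ℂ) R, g s‖ ≤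
      2 * C * (1 - ((R - ‖x‖) / R)^2) := by
    intro R hR
    have hRpos : 0 < R := lt_of_le_of_lt (norm_nonneg _) hR
    have h1 : ∫ s in ball (0:ℂ) R, g (x + s) = ∫ s in ball x R, g s := by
      have hmp : MeasurePreserving (fun s : ℂ => x + s) volume volume :=
        measurePreserving_add_left volume x
      have hme : MeasurableEmbedding (fun s : ℂ => x + s) :=
        (MeasurableEquiv.addLeft x).measurableEmbedding
      have := hmp.setIntegral_preimage_emb hme g (ball x R)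
      rw [← this]
      congr 2
      ext s
      simp [mem_ball]
    have hsub1 : ball (0:ℂ) (R - ‖x‖) ⊆ ball (0:ℂ) R :=
      ball_subset_ball (by linarith [norm_nonneg x])
    have hsub2 : ball (0:ℂ) (R - ‖x‖) ⊆ ball x R := by
      apply ball_subset_ball'
      rw [dist_eq, zero_sub, norm_neg]; linarith
    have hm : MeasurableSet (ball (0:ℂ) (R - ‖x‖)) := measurableSet_ball
    have e1 : ∫ s in ball x R, g s = (∫ s in ball (0:ℂ) (R - ‖x‖), g s)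
        + ∫ s in ball x R \ ball (0:ℂ) (R - ‖x‖), g s := by
      rw [← setIntegral_union (Set.disjoint_sdiff_right) (measurableSet_ball.diff hm)
        (intOn hg _ _) ((intOn hg x R).mono_set Set.sdiff_subset), Set.union_sdiff_cancel hsub2]
    have e2 : ∫ s in ball (0:ℂ) R, g s = (∫ s in ball (0:ℂ) (R - ‖x‖), g s)
        + ∫ s in ball (0:ℂ) R \ ball (0:ℂ) (R - ‖x‖), g s := by
      rw [← setIntegral_union (Set.disjoint_sdiff_right) (measurableSet_ball.diff hm)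
        (intOn hg _ _) ((intOn hg 0 R).mono_set Set.sdiff_subset), Set.union_sdiff_cancel hsub1]
    have b : ∀ y : ℂ, ball (0:ℂ) (R - ‖x‖) ⊆ ball y R →
        ‖∫ s in ball y R \ ball (0:ℂ) (R - ‖x‖), g s‖ ≤
        C * (Real.pi * R^2 - Real.pi * (R - ‖x‖)^2) := by
      intro y hy
      have h2 : ‖∫ s in ball y R \ ball (0:ℂ) (R - ‖x‖), g s‖ ≤
          C * (volume : Measure ℂ).real (ball y R \ ball (0:ℂ) (R - ‖x‖)) := by
        apply norm_setIntegral_le_of_norm_le_const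
        · exact lt_of_le_of_lt (measure_mono Set.sdiff_subset) measure_ball_lt_top
        · intro s _; exact hC s
      refine h2.trans (le_of_eq ?_)
      rw [measureReal_sdiff hy hm, vol_ball_real _ hRpos.le, vol_ball_real _ (by linarith)]
    rw [avg_eq _ hRpos.le, avg_eq _ hRpos.le, ← smul_sub, h1, e1, e2, norm_smul,
      Real.norm_of_nonneg (by positivity)]
    have h3 : ‖(∫ s in ball (0:ℂ) (R - ‖x‖), g s)
        + (∫ s in ball x R \ ball (0:ℂ) (R - ‖x‖), g s) - ((∫ s in ball (0:ℂ) (R - ‖x‖), g s)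
        + ∫ s in ball (0:ℂ) R \ ball (0:ℂ) (R - ‖x‖), g s)‖ ≤
        2 * (C * (Real.pi * R^2 - Real.pi * (R - ‖x‖)^2)) := by
      rw [add_sub_add_left_eq_sub]
      refine (norm_sub_le _ _).trans ?_
      have := b x hsub2
      have := b 0 hsub1
      linarith
    refine (mul_le_mul_of_nonneg_left h3 (by positivity)).trans (le_of_eq ?_)
    field_simp
  have hlim : Tendsto (fun R : ℝ => 2 * C * (1 - ((R - ‖x‖) / R)^2)) atTop (𝓝 0) := by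
    have h1 : Tendsto (fun R : ℝ => (R - ‖x‖) / R) atTop (𝓝 1) := by
      have h2 : Tendsto (fun R : ℝ => 1 - ‖x‖ / R) atTop (𝓝 (1 - 0)) :=
        tendsto_const_nhds.sub (tendsto_const_nhds.div_atTop tendsto_id)
      rw [sub_zero] at h2
      refine h2.congr' ?_
      filter_upwards [eventually_gt_atTop (0:ℝ)] with R hR
      field_simp
    have h3 := ((tendsto_const_nhds (x := (1:ℝ))).sub (h1.pow 2)).const_mul (2 * C)
    simpa using h3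
  refine squeeze_zero_norm' ?_ hlim
  filter_upwards [eventually_gt_atTop ‖x‖] with R hR
  exact key R hR

lemma avg_smulE (k : ℝ) (g : ℂ → E) (R : ℝ) :
    ⨍ s in ball (0:ℂ) R, k • g s = k • ⨍ s in ball (0:ℂ) R, g s := by
  rw [setAverage_eq, setAverage_eq, integral_smul, smul_comm]

lemma avg_sumE {ι : Type*} (t : Finset ι) {g : ι → ℂ → E} (hg : ∀ i, Continuous (g i)) (R : ℝ) :
    ⨍ s in ball (0:ℂ) R, ∑ i ∈ t, g i s = ∑ i ∈ t, ⨍ s in ball (0:ℂ) R, g i s := by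
  rw [setAverage_eq, integral_finsetSum _ (fun i _ => intOn (hg i) 0 R), Finset.smul_sum]
  simp only [setAverage_eq]

end shift

variable {H : Type*} [NormedAddCommGroup H] [InnerProductSpace ℂ H] [CompleteSpace H]

/-- **Mean ergodic theorem** for a stationary continuous process in a Hilbert space. -/
theorem met {u : ℂ → H} (hu : Continuous u)
    (hst : ∀ s s' r, inner ℂ (u (s + r)) (u (s' + r)) = inner ℂ (u s) (u s')) :
    ∃ m : H, Tendsto (fun R : ℝ => ⨍ s in ball (0:ℂ) R, u s) atTop (𝓝 m) := by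
  have hnorm : ∀ s, ‖u s‖ = ‖u 0‖ := by
    intro s
    have h := hst 0 0 s
    rw [zero_add, inner_self_eq_norm_sq_to_K, inner_self_eq_norm_sq_to_K] at h
    have h2 : ‖u s‖ ^ 2 = ‖u 0‖ ^ 2 := by exact_mod_cast h
    exact (sq_eq_sq₀ (norm_nonneg _) (norm_nonneg _)).1 h2
  set K : Set H := convexHull ℝ (Set.range u) with hK
  set S : Set ℝ := (fun w : H => ‖w‖) '' K with hS
  have hSne : S.Nonempty := ⟨_, ⟨u 0, subset_convexHull ℝ _ ⟨0, rfl⟩, rfl⟩⟩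
  have hSbdd : BddBelow S := ⟨0, by rintro _ ⟨w, -, rfl⟩; exact norm_nonneg w⟩
  set μ := sInf S with hμ
  have hμ0 : 0 ≤ μ := le_csInf hSne (by rintro _ ⟨w, -, rfl⟩; exact norm_nonneg w)
  -- lower bound on the closure
  have hlow : ∀ w ∈ closure K, μ ≤ ‖w‖ := by
    intro w hw
    have hcl : IsClosed {w : H | μ ≤ ‖w‖} := isClosed_le continuous_const continuous_norm
    have hsub : K ⊆ {w : H | μ ≤ ‖w‖} := fun w hw => csInf_le hSbdd ⟨w, hw, rfl⟩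
    exact closure_minimal hsub hcl hw
  -- the averages lie in the closed convex hull
  have hmem : ∀ R : ℝ, 0 < R → (⨍ s in ball (0:ℂ) R, u s) ∈ closure K := by
    intro R hR
    apply Convex.set_average_mem (convex_convexHull ℝ _).closure isClosed_closure
    · exact (measure_ball_pos _ _ hR).ne'
    · exact measure_ball_lt_top.ne
    · exact Eventually.of_forall fun s => subset_closure (subset_convexHull ℝ _ ⟨s, rfl⟩)
    · exact intOn hu 0 R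
  -- upper bound
  have hup : ∀ ε > 0, ∃ R₀ : ℝ, ∀ R ≥ R₀, ‖⨍ s in ball (0:ℂ) R, u s‖ ≤ μ + ε := by
    intro ε hε
    obtain ⟨_, ⟨w, hw, rfl⟩, hwlt⟩ := exists_lt_of_csInf_lt hSne
      (show sInf S < μ + ε / 2 by rw [← hμ]; linarith)
    rw [hK, convexHull_eq] at hw
    obtain ⟨ι, t, c, z, hc0, hc1, hz, hcm⟩ := hw
    have hz' : ∀ i, ∃ p, i ∈ t → u p = z i := by
      intro i
      by_cases hi : i ∈ t
      · obtain ⟨p, hp⟩ := hz i hi
        exact ⟨p, fun _ => hp⟩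
      · exact ⟨0, fun h => absurd h hi⟩
    choose p hp using hz'
    have hwsum : w = ∑ i ∈ t, c i • u (p i) := by
      rw [← hcm, Finset.centerMass_eq_of_sum_1 _ _ hc1]
      exact Finset.sum_congr rfl fun i hi => by rw [hp i hi]
    set v : ℂ → H := fun s => ∑ i ∈ t, c i • u (p i + s) with hv
    have hvnorm : ∀ s, ‖v s‖ = ‖w‖ := by
      intro s
      have h1 : inner ℂ (v s) (v s) = inner ℂ w w := by
        rw [hwsum]
        simp only [hv, sum_inner, inner_sum]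
        refine Finset.sum_congr rfl fun i _ => Finset.sum_congr rfl fun j _ => ?_
        have e : ∀ (r : ℝ) (x : H), r • x = ((r : ℂ) • x) := fun r x => (Complex.coe_smul r x).symm
        simp only [e, inner_smul_left, inner_smul_right, hst]
      rw [inner_self_eq_norm_sq_to_K, inner_self_eq_norm_sq_to_K] at h1
      have h2 : ‖v s‖ ^ 2 = ‖w‖ ^ 2 := by exact_mod_cast h1
      exact (sq_eq_sq₀ (norm_nonneg _) (norm_nonneg _)).1 h2
    have hcu : ∀ i, Continuous fun s => u (p i + s) := fun i =>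
      hu.comp (continuous_const.add continuous_id)
    have hvavg : ∀ R : ℝ, ⨍ s in ball (0:ℂ) R, v s = ∑ i ∈ t, c i • ⨍ s in ball (0:ℂ) R, u (p i + s) := by
      intro R
      have := avg_sumE t (g := fun i s => c i • u (p i + s)) (fun i => (hcu i).const_smul (c i)) R
      rw [this]
      exact Finset.sum_congr rfl fun i _ => avg_smulE _ _ _
    have hlim : Tendsto (fun R : ℝ => (⨍ s in ball (0:ℂ) R, v s) - ⨍ s in ball (0:ℂ) R, u s) atTop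
        (𝓝 0) := by
      have h1 : Tendsto (fun R : ℝ => ∑ i ∈ t, c i • ((⨍ s in ball (0:ℂ) R, u (p i + s))
          - ⨍ s in ball (0:ℂ) R, u s)) atTop (𝓝 (∑ i ∈ t, c i • (0:H))) := by
        refine tendsto_finsetSum _ fun i _ => ?_
        exact (avg_shiftE hu (C := ‖u 0‖) (fun s => (hnorm s).le) (p i)).const_smul (c i)
      simp only [smul_zero, Finset.sum_const_zero] at h1
      refine h1.congr fun R => ?_
      rw [hvavg]
      simp only [smul_sub, Finset.sum_sub_distrib]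
      rw [← Finset.sum_smul, hc1, one_smul]
    have h2 := hlim.norm
    rw [norm_zero] at h2
    have h3 := (h2.eventually (gt_mem_nhds (show (0:ℝ) < ε / 2 by linarith)))
    obtain ⟨R₁, hR₁⟩ := eventually_atTop.1 h3
    refine ⟨max R₁ 1, fun R hR => ?_⟩
    have hRpos : 0 < R := lt_of_lt_of_le one_pos ((le_max_right _ _).trans hR)
    have h4 := hR₁ R ((le_max_left _ _).trans hR)
    have hcv : Continuous v := by
      simp only [hv]
      exact continuous_finsetSum _ fun i _ => (hcu i).const_smul (c i)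
    have h5 : ‖⨍ s in ball (0:ℂ) R, v s‖ ≤ ‖w‖ :=
      (avg_norm_le _ R).trans (avg_le_of_le hcv.norm (fun s => (hvnorm s).le) hRpos)
    have h6 : ‖⨍ s in ball (0:ℂ) R, u s‖ ≤ ‖⨍ s in ball (0:ℂ) R, v s‖
        + ‖(⨍ s in ball (0:ℂ) R, v s) - ⨍ s in ball (0:ℂ) R, u s‖ := by
      have := norm_sub_norm_le (⨍ s in ball (0:ℂ) R, u s) (⨍ s in ball (0:ℂ) R, v s)
      rw [norm_sub_rev] at this
      linarith
    have h7 : ‖w‖ < μ + ε / 2 := hwlt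
    linarith
  -- Cauchy
  have hcau : CauchySeq (fun R : ℝ => ⨍ s in ball (0:ℂ) R, u s) := by
    rw [Metric.cauchySeq_iff]
    intro ε hε
    -- choose δ with 8 μ δ + 4 δ² < ε²
    obtain ⟨δ, hδ0, hδ⟩ : ∃ δ : ℝ, 0 < δ ∧ 4 * ((μ + δ) ^ 2 - μ ^ 2) < ε ^ 2 := by
      refine ⟨min 1 (ε ^ 2 / (8 * (2 * μ + 1))), by positivity, ?_⟩
      set δ := min 1 (ε ^ 2 / (8 * (2 * μ + 1))) with hδ
      have h1 : δ ≤ 1 := min_le_left _ _
      have h2 : δ ≤ ε ^ 2 / (8 * (2 * μ + 1)) := min_le_right _ _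
      have h3 : 0 ≤ δ := by positivity
      rw [le_div_iff₀ (by positivity)] at h2
      have h4 : 0 < ε ^ 2 := by positivity
      nlinarith only [h2, h4, h1, h3]
    obtain ⟨R₀, hR₀⟩ := hup δ hδ0
    refine ⟨max R₀ 1, fun R hR R' hR' => ?_⟩
    have hRp : 0 < R := lt_of_lt_of_le one_pos ((le_max_right _ _).trans hR)
    have hRp' : 0 < R' := lt_of_lt_of_le one_pos ((le_max_right _ _).trans hR')
    set x := ⨍ s in ball (0:ℂ) R, u s with hx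
    set y := ⨍ s in ball (0:ℂ) R', u s with hy
    have hx1 : ‖x‖ ≤ μ + δ := hR₀ R ((le_max_left _ _).trans hR)
    have hy1 : ‖y‖ ≤ μ + δ := hR₀ R' ((le_max_left _ _).trans hR')
    have hmid : μ ≤ ‖(1/2 : ℝ) • x + (1/2 : ℝ) • y‖ := by
      apply hlow
      exact (convex_convexHull ℝ (Set.range u)).closure (hmem R hRp) (hmem R' hRp')
        (by norm_num) (by norm_num) (by norm_num)
    have hpar := parallelogram_law_with_norm ℂ x y
    have hmid2 : ‖x + y‖ = 2 * ‖(1/2 : ℝ) • x + (1/2 : ℝ) • y‖ := by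
      rw [← smul_add, norm_smul, Real.norm_of_nonneg (by norm_num)]; ring
    have hmid3 : 2 * μ ≤ ‖x + y‖ := by rw [hmid2]; linarith
    rw [dist_eq_norm]
    have hx0 := norm_nonneg x
    have hy0 := norm_nonneg y
    have hsq : ‖x - y‖ ^ 2 < ε ^ 2 := by
      have e1 : ‖x - y‖ ^ 2 = 2 * (‖x‖ * ‖x‖ + ‖y‖ * ‖y‖) - ‖x + y‖ * ‖x + y‖ := by
        linarith
      rw [e1]
      have e2 : ‖x‖ * ‖x‖ ≤ (μ + δ) ^ 2 := by nlinarith only [hx1, hx0]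
      have e3 : ‖y‖ * ‖y‖ ≤ (μ + δ) ^ 2 := by nlinarith only [hy1, hy0]
      have e4 : (2 * μ) * (2 * μ) ≤ ‖x + y‖ * ‖x + y‖ := by nlinarith only [hμ0, hmid, hmid2]
      linarith only [hδ, e2, e3, e4]
    exact lt_of_pow_lt_pow_left₀ 2 hε.le hsq
  exact cauchySeq_tendsto_of_complete hcau

end

end Berry


end

section

/-!
A mean ergodic theorem for stationary processes on the plane with values in a real Hilbert space.
-/

open Complex Filter Topology MeasureTheory Metric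
open scoped ENNReal NNReal

namespace Berry

noncomputable section

variable {H : Type*} [NormedAddCommGroup H] [InnerProductSpace ℝ H] [CompleteSpace H]

/-- **Mean ergodic theorem** for a stationary continuous process in a Hilbert space. -/
theorem metR {u : ℂ → H} (hu : Continuous u)
    (hst : ∀ s s' r, inner ℝ (u (s + r)) (u (s' + r)) = inner ℝ (u s) (u s')) :
    ∃ m : H, Tendsto (fun R : ℝ => ⨍ s in ball (0:ℂ) R, u s) atTop (𝓝 m) := by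
  have hnorm : ∀ s, ‖u s‖ = ‖u 0‖ := by
    intro s
    have h := hst 0 0 s
    rw [zero_add, real_inner_self_eq_norm_sq, real_inner_self_eq_norm_sq] at h
    exact (sq_eq_sq₀ (norm_nonneg _) (norm_nonneg _)).1 h
  set K : Set H := convexHull ℝ (Set.range u) with hK
  set S : Set ℝ := (fun w : H => ‖w‖) '' K with hS
  have hSne : S.Nonempty := ⟨_, ⟨u 0, subset_convexHull ℝ _ ⟨0, rfl⟩, rfl⟩⟩
  have hSbdd : BddBelow S := ⟨0, by rintro _ ⟨w, -, rfl⟩; exact norm_nonneg w⟩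
  set μ := sInf S with hμ
  have hμ0 : 0 ≤ μ := le_csInf hSne (by rintro _ ⟨w, -, rfl⟩; exact norm_nonneg w)
  -- lower bound on the closure
  have hlow : ∀ w ∈ closure K, μ ≤ ‖w‖ := by
    intro w hw
    have hcl : IsClosed {w : H | μ ≤ ‖w‖} := isClosed_le continuous_const continuous_norm
    have hsub : K ⊆ {w : H | μ ≤ ‖w‖} := fun w hw => csInf_le hSbdd ⟨w, hw, rfl⟩
    exact closure_minimal hsub hcl hw
  -- the averages lie in the closed convex hull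
  have hmem : ∀ R : ℝ, 0 < R → (⨍ s in ball (0:ℂ) R, u s) ∈ closure K := by
    intro R hR
    apply Convex.set_average_mem (convex_convexHull ℝ _).closure isClosed_closure
    · exact (measure_ball_pos _ _ hR).ne'
    · exact measure_ball_lt_top.ne
    · exact Eventually.of_forall fun s => subset_closure (subset_convexHull ℝ _ ⟨s, rfl⟩)
    · exact intOn hu 0 R
  -- upper bound
  have hup : ∀ ε > 0, ∃ R₀ : ℝ, ∀ R ≥ R₀, ‖⨍ s in ball (0:ℂ) R, u s‖ ≤ μ + ε := by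
    intro ε hε
    obtain ⟨_, ⟨w, hw, rfl⟩, hwlt⟩ := exists_lt_of_csInf_lt hSne
      (show sInf S < μ + ε / 2 by rw [← hμ]; linarith)
    rw [hK, convexHull_eq] at hw
    obtain ⟨ι, t, c, z, hc0, hc1, hz, hcm⟩ := hw
    have hz' : ∀ i, ∃ p, i ∈ t → u p = z i := by
      intro i
      by_cases hi : i ∈ t
      · obtain ⟨p, hp⟩ := hz i hi
        exact ⟨p, fun _ => hp⟩
      · exact ⟨0, fun h => absurd h hi⟩
    choose p hp using hz'
    have hwsum : w = ∑ i ∈ t, c i • u (p i) := by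
      rw [← hcm, Finset.centerMass_eq_of_sum_1 _ _ hc1]
      exact Finset.sum_congr rfl fun i hi => by rw [hp i hi]
    set v : ℂ → H := fun s => ∑ i ∈ t, c i • u (p i + s) with hv
    have hvnorm : ∀ s, ‖v s‖ = ‖w‖ := by
      intro s
      have h1 : inner ℝ (v s) (v s) = inner ℝ w w := by
        rw [hwsum]
        simp only [hv, sum_inner, inner_sum]
        refine Finset.sum_congr rfl fun i _ => Finset.sum_congr rfl fun j _ => ?_
        simp only [inner_smul_left, inner_smul_right, hst]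
      rw [real_inner_self_eq_norm_sq, real_inner_self_eq_norm_sq] at h1
      exact (sq_eq_sq₀ (norm_nonneg _) (norm_nonneg _)).1 h1
    have hcu : ∀ i, Continuous fun s => u (p i + s) := fun i =>
      hu.comp (continuous_const.add continuous_id)
    have hvavg : ∀ R : ℝ, ⨍ s in ball (0:ℂ) R, v s = ∑ i ∈ t, c i • ⨍ s in ball (0:ℂ) R, u (p i + s) := by
      intro R
      have := avg_sumE t (g := fun i s => c i • u (p i + s)) (fun i => (hcu i).const_smul (c i)) R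
      rw [this]
      exact Finset.sum_congr rfl fun i _ => avg_smulE _ _ _
    have hlim : Tendsto (fun R : ℝ => (⨍ s in ball (0:ℂ) R, v s) - ⨍ s in ball (0:ℂ) R, u s) atTop
        (𝓝 0) := by
      have h1 : Tendsto (fun R : ℝ => ∑ i ∈ t, c i • ((⨍ s in ball (0:ℂ) R, u (p i + s))
          - ⨍ s in ball (0:ℂ) R, u s)) atTop (𝓝 (∑ i ∈ t, c i • (0:H))) := by
        refine tendsto_finsetSum _ fun i _ => ?_
        exact (avg_shiftE hu (C := ‖u 0‖) (fun s => (hnorm s).le) (p i)).const_smul (c i)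
      simp only [smul_zero, Finset.sum_const_zero] at h1
      refine h1.congr fun R => ?_
      rw [hvavg]
      simp only [smul_sub, Finset.sum_sub_distrib]
      rw [← Finset.sum_smul, hc1, one_smul]
    have h2 := hlim.norm
    rw [norm_zero] at h2
    have h3 := (h2.eventually (gt_mem_nhds (show (0:ℝ) < ε / 2 by linarith)))
    obtain ⟨R₁, hR₁⟩ := eventually_atTop.1 h3
    refine ⟨max R₁ 1, fun R hR => ?_⟩
    have hRpos : 0 < R := lt_of_lt_of_le one_pos ((le_max_right _ _).trans hR)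
    have h4 := hR₁ R ((le_max_left _ _).trans hR)
    have hcv : Continuous v := by
      simp only [hv]
      exact continuous_finsetSum _ fun i _ => (hcu i).const_smul (c i)
    have h5 : ‖⨍ s in ball (0:ℂ) R, v s‖ ≤ ‖w‖ :=
      (avg_norm_le _ R).trans (avg_le_of_le hcv.norm (fun s => (hvnorm s).le) hRpos)
    have h6 : ‖⨍ s in ball (0:ℂ) R, u s‖ ≤ ‖⨍ s in ball (0:ℂ) R, v s‖
        + ‖(⨍ s in ball (0:ℂ) R, v s) - ⨍ s in ball (0:ℂ) R, u s‖ := by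
      have := norm_sub_norm_le (⨍ s in ball (0:ℂ) R, u s) (⨍ s in ball (0:ℂ) R, v s)
      rw [norm_sub_rev] at this
      linarith
    have h7 : ‖w‖ < μ + ε / 2 := hwlt
    linarith
  -- Cauchy
  have hcau : CauchySeq (fun R : ℝ => ⨍ s in ball (0:ℂ) R, u s) := by
    rw [Metric.cauchySeq_iff]
    intro ε hε
    -- choose δ with 8 μ δ + 4 δ² < ε²
    obtain ⟨δ, hδ0, hδ⟩ : ∃ δ : ℝ, 0 < δ ∧ 4 * ((μ + δ) ^ 2 - μ ^ 2) < ε ^ 2 := by
      refine ⟨min 1 (ε ^ 2 / (8 * (2 * μ + 1))), by positivity, ?_⟩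
      set δ := min 1 (ε ^ 2 / (8 * (2 * μ + 1))) with hδ
      have h1 : δ ≤ 1 := min_le_left _ _
      have h2 : δ ≤ ε ^ 2 / (8 * (2 * μ + 1)) := min_le_right _ _
      have h3 : 0 ≤ δ := by positivity
      rw [le_div_iff₀ (by positivity)] at h2
      have h4 : 0 < ε ^ 2 := by positivity
      nlinarith only [h2, h4, h1, h3]
    obtain ⟨R₀, hR₀⟩ := hup δ hδ0
    refine ⟨max R₀ 1, fun R hR R' hR' => ?_⟩
    have hRp : 0 < R := lt_of_lt_of_le one_pos ((le_max_right _ _).trans hR)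
    have hRp' : 0 < R' := lt_of_lt_of_le one_pos ((le_max_right _ _).trans hR')
    set x := ⨍ s in ball (0:ℂ) R, u s with hx
    set y := ⨍ s in ball (0:ℂ) R', u s with hy
    have hx1 : ‖x‖ ≤ μ + δ := hR₀ R ((le_max_left _ _).trans hR)
    have hy1 : ‖y‖ ≤ μ + δ := hR₀ R' ((le_max_left _ _).trans hR')
    have hmid : μ ≤ ‖(1/2 : ℝ) • x + (1/2 : ℝ) • y‖ := by
      apply hlow
      exact (convex_convexHull ℝ (Set.range u)).closure (hmem R hRp) (hmem R' hRp')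
        (by norm_num) (by norm_num) (by norm_num)
    have hpar := parallelogram_law_with_norm ℝ x y
    have hmid2 : ‖x + y‖ = 2 * ‖(1/2 : ℝ) • x + (1/2 : ℝ) • y‖ := by
      rw [← smul_add, norm_smul, Real.norm_of_nonneg (by norm_num)]; ring
    have hmid3 : 2 * μ ≤ ‖x + y‖ := by rw [hmid2]; linarith
    rw [dist_eq_norm]
    have hx0 := norm_nonneg x
    have hy0 := norm_nonneg y
    have hsq : ‖x - y‖ ^ 2 < ε ^ 2 := by
      have e1 : ‖x - y‖ ^ 2 = 2 * (‖x‖ * ‖x‖ + ‖y‖ * ‖y‖) - ‖x + y‖ * ‖x + y‖ := by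
        linarith
      rw [e1]
      have e2 : ‖x‖ * ‖x‖ ≤ (μ + δ) ^ 2 := by nlinarith only [hx1, hx0]
      have e3 : ‖y‖ * ‖y‖ ≤ (μ + δ) ^ 2 := by nlinarith only [hy1, hy0]
      have e4 : (2 * μ) * (2 * μ) ≤ ‖x + y‖ * ‖x + y‖ := by nlinarith only [hμ0, hmid, hmid2]
      linarith only [hδ, e2, e3, e4]
    exact lt_of_pow_lt_pow_left₀ 2 hε.le hsq
  exact cauchySeq_tendsto_of_complete hcau

end

end Berry


end

section

/-!
Core algebra for the general (non-ergodic) four-point function.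
-/

open Complex Filter Topology MeasureTheory

namespace Berry

variable {Q M : ℤ → ℤ → ℤ → ℤ → ℂ → ℂ → ℂ → ℂ → ℂ}

/-- invariance under joint shifts of the first two variables kills `W₁ + W₂` -/
lemma kill12 (hd : Der4 Q)
    (h : ∀ a b c e t₁ t₂ t₃ t₄ s, Q a b c e (t₁ + s) (t₂ + s) t₃ t₄ = Q a b c e t₁ t₂ t₃ t₄)
    (a b c e : ℤ) (t₁ t₂ t₃ t₄ : ℂ) :
    Q (a+1) b c e t₁ t₂ t₃ t₄ + Q a (b+1) c e t₁ t₂ t₃ t₄ = 0 := by
  have key : ∀ v, lad v (Q (a+1) b c e t₁ t₂ t₃ t₄) (Q (a-1) b c e t₁ t₂ t₃ t₄)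
     + lad v (Q a (b+1) c e t₁ t₂ t₃ t₄) (Q a (b-1) c e t₁ t₂ t₃ t₄) = 0 := by
    intro v
    have h1 := hd a b c e t₁ t₂ t₃ t₄ v v 0 0
    have h2 : (fun s : ℝ => Q a b c e (t₁ + s * v) (t₂ + s * v) (t₃ + s * 0) (t₄ + s * 0))
        = fun _ => Q a b c e t₁ t₂ t₃ t₄ := by
      funext s
      rw [mul_zero, add_zero, add_zero]
      exact h _ _ _ _ _ _ _ _ _
    rw [h2] at h1
    have h3 := h1.unique (hasDerivAt_const _ _)
    simpa [lad] using h3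
  have := lad_zero_imp (p := ![Q (a+1) b c e t₁ t₂ t₃ t₄, Q a (b+1) c e t₁ t₂ t₃ t₄, 0, 0])
    (m := ![Q (a-1) b c e t₁ t₂ t₃ t₄, Q a (b-1) c e t₁ t₂ t₃ t₄, 0, 0]) (by
      intro v
      have := key v
      simp only [lad] at this ⊢
      simpa using this)
  simpa using this.1

lemma kill23 (hd : Der4 Q)
    (h : ∀ a b c e t₁ t₂ t₃ t₄ s, Q a b c e t₁ (t₂ + s) (t₃ + s) t₄ = Q a b c e t₁ t₂ t₃ t₄)
    (a b c e : ℤ) (t₁ t₂ t₃ t₄ : ℂ) :
    Q a (b+1) c e t₁ t₂ t₃ t₄ + Q a b (c+1) e t₁ t₂ t₃ t₄ = 0 := by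
  have key : ∀ v, lad v (Q a (b+1) c e t₁ t₂ t₃ t₄) (Q a (b-1) c e t₁ t₂ t₃ t₄)
     + lad v (Q a b (c+1) e t₁ t₂ t₃ t₄) (Q a b (c-1) e t₁ t₂ t₃ t₄) = 0 := by
    intro v
    have h1 := hd a b c e t₁ t₂ t₃ t₄ 0 v v 0
    have h2 : (fun s : ℝ => Q a b c e (t₁ + s * 0) (t₂ + s * v) (t₃ + s * v) (t₄ + s * 0))
        = fun _ => Q a b c e t₁ t₂ t₃ t₄ := by
      funext s
      rw [mul_zero, add_zero, add_zero]
      exact h _ _ _ _ _ _ _ _ _
    rw [h2] at h1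
    have h3 := h1.unique (hasDerivAt_const _ _)
    simpa [lad] using h3
  have := lad_zero_imp (p := ![Q a (b+1) c e t₁ t₂ t₃ t₄, Q a b (c+1) e t₁ t₂ t₃ t₄, 0, 0])
    (m := ![Q a (b-1) c e t₁ t₂ t₃ t₄, Q a b (c-1) e t₁ t₂ t₃ t₄, 0, 0]) (by
      intro v
      have := key v
      simp only [lad] at this ⊢
      simpa using this)
  simpa using this.1

lemma kill13 (hd : Der4 Q)
    (h : ∀ a b c e t₁ t₂ t₃ t₄ s, Q a b c e (t₁ + s) t₂ (t₃ + s) t₄ = Q a b c e t₁ t₂ t₃ t₄)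
    (a b c e : ℤ) (t₁ t₂ t₃ t₄ : ℂ) :
    Q (a+1) b c e t₁ t₂ t₃ t₄ + Q a b (c+1) e t₁ t₂ t₃ t₄ = 0 := by
  have key : ∀ v, lad v (Q (a+1) b c e t₁ t₂ t₃ t₄) (Q (a-1) b c e t₁ t₂ t₃ t₄)
     + lad v (Q a b (c+1) e t₁ t₂ t₃ t₄) (Q a b (c-1) e t₁ t₂ t₃ t₄) = 0 := by
    intro v
    have h1 := hd a b c e t₁ t₂ t₃ t₄ v 0 v 0
    have h2 : (fun s : ℝ => Q a b c e (t₁ + s * v) (t₂ + s * 0) (t₃ + s * v) (t₄ + s * 0))
        = fun _ => Q a b c e t₁ t₂ t₃ t₄ := by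
      funext s
      rw [mul_zero, add_zero, add_zero]
      exact h _ _ _ _ _ _ _ _ _
    rw [h2] at h1
    have h3 := h1.unique (hasDerivAt_const _ _)
    simpa [lad] using h3
  have := lad_zero_imp (p := ![Q (a+1) b c e t₁ t₂ t₃ t₄, Q a b (c+1) e t₁ t₂ t₃ t₄, 0, 0])
    (m := ![Q (a-1) b c e t₁ t₂ t₃ t₄, Q a b (c-1) e t₁ t₂ t₃ t₄, 0, 0]) (by
      intro v
      have := key v
      simp only [lad] at this ⊢
      simpa using this)
  simpa using this.1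

/-- a zero-mean predicate -/
structure ZeroMean (Z : (ℂ → ℂ) → Prop) : Prop where
  add : ∀ g h, Z g → Z h → Z (fun s => g s + h s)
  mul : ∀ (k : ℂ) g, Z g → Z (fun s => k * g s)
  const : ∀ k : ℂ, Z (fun _ => k) → k = 0

/-- `BC (Q - M) = 0` if `M` is invariant under joint shifts of `t₁, t₂` and `Q - M` has zero mean
along these shifts. -/
lemma quad_bc {Z : (ℂ → ℂ) → Prop} (hZ : ZeroMean Z) (hd : Der4 Q) (hi : Inv4 Q) (hM : Der4 M)
    (hMi : ∀ a b c e t₁ t₂ t₃ t₄ s, M a b c e (t₁ + s) (t₂ + s) t₃ t₄ = M a b c e t₁ t₂ t₃ t₄)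
    (hz : ∀ a b c e t₁ t₂ t₃ t₄, Z (fun s => Q a b c e (t₁ + s) (t₂ + s) t₃ t₄
      + (-1) * M a b c e (t₁ + s) (t₂ + s) t₃ t₄))
    (a b c e : ℤ) (t₁ t₂ t₃ t₄ : ℂ) :
    (Q a (b+1) (c+1) e t₁ t₂ t₃ t₄ + Q (a+1) (b+1) c e t₁ t₂ t₃ t₄
      + (Q a b (c+2) e t₁ t₂ t₃ t₄ + Q (a+1) b (c+1) e t₁ t₂ t₃ t₄))
    - (M a (b+1) (c+1) e t₁ t₂ t₃ t₄ + M (a+1) (b+1) c e t₁ t₂ t₃ t₄
      + (M a b (c+2) e t₁ t₂ t₃ t₄ + M (a+1) b (c+1) e t₁ t₂ t₃ t₄)) = 0 := by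
  set u : ℤ → ℤ → ℤ → ℤ → ℂ → ℂ → ℂ → ℂ → ℂ := fun a b c e t₁ t₂ t₃ t₄ =>
      Q a (b+1) (c+1) e t₁ t₂ t₃ t₄ + Q (a+1) (b+1) c e t₁ t₂ t₃ t₄
      + (Q a b (c+2) e t₁ t₂ t₃ t₄ + Q (a+1) b (c+1) e t₁ t₂ t₃ t₄) with hu
  have hud : Der4 u := by
    have := (((hd.shift 0 1 1 0).add (hd.shift 1 1 0 0)).add
        ((hd.shift 0 0 2 0).add (hd.shift 1 0 1 0)))
    simpa only [add_zero] using this
  have hA : ∀ a b c e t₁ t₂ t₃ t₄, u (a+1) b c e t₁ t₂ t₃ t₄ + u a (b+1) c e t₁ t₂ t₃ t₄ = 0 := by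
    intro a b c e t₁ t₂ t₃ t₄
    have h1 := Inv4.cubic hd hi a b c e t₁ t₂ t₃ t₄
    simp only [hu]
    have e5 : a + 1 + 1 = a + 2 := by ring
    have e6 : b + 1 + 1 = b + 2 := by ring
    rw [e5, e6]
    linear_combination h1
  have hs := shift12 hud hA a b c e t₁ t₂ t₃ t₄
  apply hZ.const
  have z := hZ.add _ _ (hZ.add _ _ (hz a (b+1) (c+1) e t₁ t₂ t₃ t₄)
    (hz (a+1) (b+1) c e t₁ t₂ t₃ t₄)) (hZ.add _ _ (hz a b (c+2) e t₁ t₂ t₃ t₄)
    (hz (a+1) b (c+1) e t₁ t₂ t₃ t₄))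
  have e : (fun s => ((Q a (b+1) (c+1) e (t₁ + s) (t₂ + s) t₃ t₄
        + (-1) * M a (b+1) (c+1) e (t₁ + s) (t₂ + s) t₃ t₄)
      + (Q (a+1) (b+1) c e (t₁ + s) (t₂ + s) t₃ t₄
        + (-1) * M (a+1) (b+1) c e (t₁ + s) (t₂ + s) t₃ t₄))
      + ((Q a b (c+2) e (t₁ + s) (t₂ + s) t₃ t₄ + (-1) * M a b (c+2) e (t₁ + s) (t₂ + s) t₃ t₄)
      + (Q (a+1) b (c+1) e (t₁ + s) (t₂ + s) t₃ t₄
        + (-1) * M (a+1) b (c+1) e (t₁ + s) (t₂ + s) t₃ t₄)))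
      = fun _ => (Q a (b+1) (c+1) e t₁ t₂ t₃ t₄ + Q (a+1) (b+1) c e t₁ t₂ t₃ t₄
      + (Q a b (c+2) e t₁ t₂ t₃ t₄ + Q (a+1) b (c+1) e t₁ t₂ t₃ t₄))
    - (M a (b+1) (c+1) e t₁ t₂ t₃ t₄ + M (a+1) (b+1) c e t₁ t₂ t₃ t₄
      + (M a b (c+2) e t₁ t₂ t₃ t₄ + M (a+1) b (c+1) e t₁ t₂ t₃ t₄)) := by
    funext s
    have h1 := hs s
    simp only [hu] at h1
    rw [hMi, hMi, hMi, hMi]
    linear_combination h1
  rw [e] at z
  exact z

/-- `AC (Q - M) = 0` for shifts of `t₂, t₃` -/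
lemma quad_ac {Z : (ℂ → ℂ) → Prop} (hZ : ZeroMean Z) (hd : Der4 Q) (hi : Inv4 Q) (hM : Der4 M)
    (hMi : ∀ a b c e t₁ t₂ t₃ t₄ s, M a b c e t₁ (t₂ + s) (t₃ + s) t₄ = M a b c e t₁ t₂ t₃ t₄)
    (hz : ∀ a b c e t₁ t₂ t₃ t₄, Z (fun s => Q a b c e t₁ (t₂ + s) (t₃ + s) t₄
      + (-1) * M a b c e t₁ (t₂ + s) (t₃ + s) t₄))
    (a b c e : ℤ) (t₁ t₂ t₃ t₄ : ℂ) :
    (Q (a+1) b (c+1) e t₁ t₂ t₃ t₄ + Q (a+2) b c e t₁ t₂ t₃ t₄
      + (Q a (b+1) (c+1) e t₁ t₂ t₃ t₄ + Q (a+1) (b+1) c e t₁ t₂ t₃ t₄))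
    - (M (a+1) b (c+1) e t₁ t₂ t₃ t₄ + M (a+2) b c e t₁ t₂ t₃ t₄
      + (M a (b+1) (c+1) e t₁ t₂ t₃ t₄ + M (a+1) (b+1) c e t₁ t₂ t₃ t₄)) = 0 := by
  set u : ℤ → ℤ → ℤ → ℤ → ℂ → ℂ → ℂ → ℂ → ℂ := fun a b c e t₁ t₂ t₃ t₄ =>
      Q (a+1) b (c+1) e t₁ t₂ t₃ t₄ + Q (a+2) b c e t₁ t₂ t₃ t₄
      + (Q a (b+1) (c+1) e t₁ t₂ t₃ t₄ + Q (a+1) (b+1) c e t₁ t₂ t₃ t₄) with hu
  have hud : Der4 u := by
    have := (((hd.shift 1 0 1 0).add (hd.shift 2 0 0 0)).add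
        ((hd.shift 0 1 1 0).add (hd.shift 1 1 0 0)))
    simpa only [add_zero] using this
  have hB : ∀ a b c e t₁ t₂ t₃ t₄, u a (b+1) c e t₁ t₂ t₃ t₄ + u a b (c+1) e t₁ t₂ t₃ t₄ = 0 := by
    intro a b c e t₁ t₂ t₃ t₄
    have h1 := Inv4.cubic hd hi a b c e t₁ t₂ t₃ t₄
    simp only [hu]
    have e6 : b + 1 + 1 = b + 2 := by ring
    have e7 : c + 1 + 1 = c + 2 := by ring
    rw [e6, e7]
    linear_combination h1
  have hs := shift23 hud hB a b c e t₁ t₂ t₃ t₄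
  apply hZ.const
  have z := hZ.add _ _ (hZ.add _ _ (hz (a+1) b (c+1) e t₁ t₂ t₃ t₄)
    (hz (a+2) b c e t₁ t₂ t₃ t₄)) (hZ.add _ _ (hz a (b+1) (c+1) e t₁ t₂ t₃ t₄)
    (hz (a+1) (b+1) c e t₁ t₂ t₃ t₄))
  have e : (fun s => ((Q (a+1) b (c+1) e t₁ (t₂ + s) (t₃ + s) t₄
        + (-1) * M (a+1) b (c+1) e t₁ (t₂ + s) (t₃ + s) t₄)
      + (Q (a+2) b c e t₁ (t₂ + s) (t₃ + s) t₄
        + (-1) * M (a+2) b c e t₁ (t₂ + s) (t₃ + s) t₄))
      + ((Q a (b+1) (c+1) e t₁ (t₂ + s) (t₃ + s) t₄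
        + (-1) * M a (b+1) (c+1) e t₁ (t₂ + s) (t₃ + s) t₄)
      + (Q (a+1) (b+1) c e t₁ (t₂ + s) (t₃ + s) t₄
        + (-1) * M (a+1) (b+1) c e t₁ (t₂ + s) (t₃ + s) t₄)))
      = fun _ => (Q (a+1) b (c+1) e t₁ t₂ t₃ t₄ + Q (a+2) b c e t₁ t₂ t₃ t₄
      + (Q a (b+1) (c+1) e t₁ t₂ t₃ t₄ + Q (a+1) (b+1) c e t₁ t₂ t₃ t₄))
    - (M (a+1) b (c+1) e t₁ t₂ t₃ t₄ + M (a+2) b c e t₁ t₂ t₃ t₄
      + (M a (b+1) (c+1) e t₁ t₂ t₃ t₄ + M (a+1) (b+1) c e t₁ t₂ t₃ t₄)) := by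
    funext s
    have h1 := hs s
    simp only [hu] at h1
    rw [hMi, hMi, hMi, hMi]
    linear_combination h1
  rw [e] at z
  exact z

/-- `AB (Q - M) = 0` for shifts of `t₁, t₃` -/
lemma quad_ab {Z : (ℂ → ℂ) → Prop} (hZ : ZeroMean Z) (hd : Der4 Q) (hi : Inv4 Q) (hM : Der4 M)
    (hMi : ∀ a b c e t₁ t₂ t₃ t₄ s, M a b c e (t₁ + s) t₂ (t₃ + s) t₄ = M a b c e t₁ t₂ t₃ t₄)
    (hz : ∀ a b c e t₁ t₂ t₃ t₄, Z (fun s => Q a b c e (t₁ + s) t₂ (t₃ + s) t₄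
      + (-1) * M a b c e (t₁ + s) t₂ (t₃ + s) t₄))
    (a b c e : ℤ) (t₁ t₂ t₃ t₄ : ℂ) :
    (Q (a+1) (b+1) c e t₁ t₂ t₃ t₄ + Q a (b+2) c e t₁ t₂ t₃ t₄
      + (Q (a+1) b (c+1) e t₁ t₂ t₃ t₄ + Q a (b+1) (c+1) e t₁ t₂ t₃ t₄))
    - (M (a+1) (b+1) c e t₁ t₂ t₃ t₄ + M a (b+2) c e t₁ t₂ t₃ t₄
      + (M (a+1) b (c+1) e t₁ t₂ t₃ t₄ + M a (b+1) (c+1) e t₁ t₂ t₃ t₄)) = 0 := by
  set u : ℤ → ℤ → ℤ → ℤ → ℂ → ℂ → ℂ → ℂ → ℂ := fun a b c e t₁ t₂ t₃ t₄ =>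
      Q (a+1) (b+1) c e t₁ t₂ t₃ t₄ + Q a (b+2) c e t₁ t₂ t₃ t₄
      + (Q (a+1) b (c+1) e t₁ t₂ t₃ t₄ + Q a (b+1) (c+1) e t₁ t₂ t₃ t₄) with hu
  have hud : Der4 u := by
    have := (((hd.shift 1 1 0 0).add (hd.shift 0 2 0 0)).add
        ((hd.shift 1 0 1 0).add (hd.shift 0 1 1 0)))
    simpa only [add_zero] using this
  have hC : ∀ a b c e t₁ t₂ t₃ t₄, u (a+1) b c e t₁ t₂ t₃ t₄ + u a b (c+1) e t₁ t₂ t₃ t₄ = 0 := by
    intro a b c e t₁ t₂ t₃ t₄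
    have h1 := Inv4.cubic hd hi a b c e t₁ t₂ t₃ t₄
    simp only [hu]
    have e6 : a + 1 + 1 = a + 2 := by ring
    have e7 : c + 1 + 1 = c + 2 := by ring
    rw [e6, e7]
    linear_combination h1
  have hs := shift13 hud hC a b c e t₁ t₂ t₃ t₄
  apply hZ.const
  have z := hZ.add _ _ (hZ.add _ _ (hz (a+1) (b+1) c e t₁ t₂ t₃ t₄)
    (hz a (b+2) c e t₁ t₂ t₃ t₄)) (hZ.add _ _ (hz (a+1) b (c+1) e t₁ t₂ t₃ t₄)
    (hz a (b+1) (c+1) e t₁ t₂ t₃ t₄))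
  have e : (fun s => ((Q (a+1) (b+1) c e (t₁ + s) t₂ (t₃ + s) t₄
        + (-1) * M (a+1) (b+1) c e (t₁ + s) t₂ (t₃ + s) t₄)
      + (Q a (b+2) c e (t₁ + s) t₂ (t₃ + s) t₄
        + (-1) * M a (b+2) c e (t₁ + s) t₂ (t₃ + s) t₄))
      + ((Q (a+1) b (c+1) e (t₁ + s) t₂ (t₃ + s) t₄
        + (-1) * M (a+1) b (c+1) e (t₁ + s) t₂ (t₃ + s) t₄)
      + (Q a (b+1) (c+1) e (t₁ + s) t₂ (t₃ + s) t₄
        + (-1) * M a (b+1) (c+1) e (t₁ + s) t₂ (t₃ + s) t₄)))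
      = fun _ => (Q (a+1) (b+1) c e t₁ t₂ t₃ t₄ + Q a (b+2) c e t₁ t₂ t₃ t₄
      + (Q (a+1) b (c+1) e t₁ t₂ t₃ t₄ + Q a (b+1) (c+1) e t₁ t₂ t₃ t₄))
    - (M (a+1) (b+1) c e t₁ t₂ t₃ t₄ + M a (b+2) c e t₁ t₂ t₃ t₄
      + (M (a+1) b (c+1) e t₁ t₂ t₃ t₄ + M a (b+1) (c+1) e t₁ t₂ t₃ t₄)) := by
    funext s
    have h1 := hs s
    simp only [hu] at h1
    rw [hMi, hMi, hMi, hMi]
    linear_combination h1
  rw [e] at z
  exact z

/-- **Core lemma II.** If `AB D = BC D = CA D = 0`, and `D` has zero mean along `t₂ ↦ t₂ ± 2s`, then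
the sum of `2 D` over ... : `D` along the three joint shifts sums up to `2D` plus zero mean terms. -/
theorem core2 {D : ℤ → ℤ → ℤ → ℤ → ℂ → ℂ → ℂ → ℂ → ℂ} {Z : (ℂ → ℂ) → Prop} (hZ : ZeroMean Z)
    (hd : Der4 D)
    (hAB : ∀ a b c e t₁ t₂ t₃ t₄, D (a+1) (b+1) c e t₁ t₂ t₃ t₄ + D a (b+2) c e t₁ t₂ t₃ t₄
      + (D (a+1) b (c+1) e t₁ t₂ t₃ t₄ + D a (b+1) (c+1) e t₁ t₂ t₃ t₄) = 0)
    (hBC : ∀ a b c e t₁ t₂ t₃ t₄, D a (b+1) (c+1) e t₁ t₂ t₃ t₄ + D (a+1) (b+1) c e t₁ t₂ t₃ t₄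
      + (D a b (c+2) e t₁ t₂ t₃ t₄ + D (a+1) b (c+1) e t₁ t₂ t₃ t₄) = 0)
    (hCA : ∀ a b c e t₁ t₂ t₃ t₄, D (a+1) b (c+1) e t₁ t₂ t₃ t₄ + D (a+2) b c e t₁ t₂ t₃ t₄
      + (D a (b+1) (c+1) e t₁ t₂ t₃ t₄ + D (a+1) (b+1) c e t₁ t₂ t₃ t₄) = 0)
    (hp : ∀ a b c e t₁ t₂ t₃ t₄, Z (fun s => D a b c e t₁ (t₂ + 2 * s) t₃ t₄))
    (hm : ∀ a b c e t₁ t₂ t₃ t₄, Z (fun s => D a b c e t₁ (t₂ - 2 * s) t₃ t₄))
    (a b c e : ℤ) (t₁ t₂ t₃ t₄ : ℂ) :
    Z (fun s => D a b c e (t₁ + s) (t₂ + s) t₃ t₄ + D a b c e t₁ (t₂ + s) (t₃ + s) t₄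
      + D a b c e (t₁ + s) t₂ (t₃ + s) t₄ - 2 * D a b c e t₁ t₂ t₃ t₄) := by
  set uA : ℤ → ℤ → ℤ → ℤ → ℂ → ℂ → ℂ → ℂ → ℂ := fun a b c e t₁ t₂ t₃ t₄ =>
    D (a+1) b c e t₁ t₂ t₃ t₄ + D a (b+1) c e t₁ t₂ t₃ t₄ with huA
  set uB : ℤ → ℤ → ℤ → ℤ → ℂ → ℂ → ℂ → ℂ → ℂ := fun a b c e t₁ t₂ t₃ t₄ =>
    D a (b+1) c e t₁ t₂ t₃ t₄ + D a b (c+1) e t₁ t₂ t₃ t₄ with huB
  set uC : ℤ → ℤ → ℤ → ℤ → ℂ → ℂ → ℂ → ℂ → ℂ := fun a b c e t₁ t₂ t₃ t₄ =>
    D a b (c+1) e t₁ t₂ t₃ t₄ + D (a+1) b c e t₁ t₂ t₃ t₄ with huC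
  have dA : Der4 uA := by
    have := (hd.shift 1 0 0 0).add (hd.shift 0 1 0 0)
    simpa only [add_zero] using this
  have dB : Der4 uB := by
    have := (hd.shift 0 1 0 0).add (hd.shift 0 0 1 0)
    simpa only [add_zero] using this
  have dC : Der4 uC := by
    have := (hd.shift 0 0 1 0).add (hd.shift 1 0 0 0)
    simpa only [add_zero] using this
  have n2 : ∀ z : ℤ, z + 1 + 1 = z + 2 := fun z => by ring
  -- invariances
  have A23 := shift23 dA (fun a b c e t₁ t₂ t₃ t₄ => by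
    simp only [huA]; rw [n2]; linear_combination hAB a b c e t₁ t₂ t₃ t₄)
  have A13 := shift13 dA (fun a b c e t₁ t₂ t₃ t₄ => by
    simp only [huA]; rw [n2]; linear_combination hCA a b c e t₁ t₂ t₃ t₄)
  have B12 := shift12 dB (fun a b c e t₁ t₂ t₃ t₄ => by
    simp only [huB]; rw [n2]; linear_combination hAB a b c e t₁ t₂ t₃ t₄)
  have B13 := shift13 dB (fun a b c e t₁ t₂ t₃ t₄ => by
    simp only [huB]; rw [n2]; linear_combination hBC a b c e t₁ t₂ t₃ t₄)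
  have C12 := shift12 dC (fun a b c e t₁ t₂ t₃ t₄ => by
    simp only [huC]; rw [n2]; linear_combination hCA a b c e t₁ t₂ t₃ t₄)
  have C23 := shift23 dC (fun a b c e t₁ t₂ t₃ t₄ => by
    simp only [huC]; rw [n2]; linear_combination hBC a b c e t₁ t₂ t₃ t₄)
  -- D in terms of uA, uB, uC
  have hD : ∀ t₁ t₂ t₃ t₄, 2 * D a b c e t₁ t₂ t₃ t₄ = uA a (b-1) c e t₁ t₂ t₃ t₄
      + uB a (b-1) c e t₁ t₂ t₃ t₄ - uC a (b-1) c e t₁ t₂ t₃ t₄ := by
    intro t₁ t₂ t₃ t₄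
    simp only [huA, huB, huC, sub_add_cancel]; ring
  -- the non-invariant directions
  have vA : ∀ s, uA a (b-1) c e (t₁ + s) (t₂ + s) t₃ t₄ = uA a (b-1) c e t₁ (t₂ + 2 * s) t₃ t₄ := by
    intro s
    have h1 := A13 a (b-1) c e t₁ (t₂ + s) (t₃ - s) t₄ s
    rw [sub_add_cancel] at h1
    have h2 := A23 a (b-1) c e t₁ (t₂ + s) (t₃ - s) t₄ s
    rw [sub_add_cancel] at h2
    rw [h1, ← h2]
    congr 1; ring
  have vB : ∀ s, uB a (b-1) c e t₁ (t₂ + s) (t₃ + s) t₄ = uB a (b-1) c e t₁ (t₂ + 2 * s) t₃ t₄ := by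
    intro s
    have h1 := B13 a (b-1) c e (t₁ - s) (t₂ + s) t₃ t₄ s
    rw [sub_add_cancel] at h1
    have h2 := B12 a (b-1) c e (t₁ - s) (t₂ + s) t₃ t₄ s
    rw [sub_add_cancel] at h2
    rw [h1, ← h2]
    congr 1; ring
  have vC : ∀ s, uC a (b-1) c e (t₁ + s) t₂ (t₃ + s) t₄ = uC a (b-1) c e t₁ (t₂ - 2 * s) t₃ t₄ := by
    intro s
    have h1 := C12 a (b-1) c e t₁ (t₂ - s) (t₃ + s) t₄ s
    rw [sub_add_cancel] at h1
    have h2 := C23 a (b-1) c e t₁ (t₂ - 2 * s) t₃ t₄ s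
    rw [h1, ← h2]
    congr 1; ring
  have zA : Z (fun s => uA a (b-1) c e t₁ (t₂ + 2 * s) t₃ t₄) :=
    hZ.add _ _ (hp _ _ _ _ _ _ _ _) (hp _ _ _ _ _ _ _ _)
  have zB : Z (fun s => uB a (b-1) c e t₁ (t₂ + 2 * s) t₃ t₄) :=
    hZ.add _ _ (hp _ _ _ _ _ _ _ _) (hp _ _ _ _ _ _ _ _)
  have zC : Z (fun s => uC a (b-1) c e t₁ (t₂ - 2 * s) t₃ t₄) :=
    hZ.add _ _ (hm _ _ _ _ _ _ _ _) (hm _ _ _ _ _ _ _ _)
  have z := hZ.add _ _ (hZ.add _ _ (hZ.mul (1/2) _ zA) (hZ.mul (1/2) _ zB)) (hZ.mul (-(1/2)) _ zC)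
  have e : (fun s => D a b c e (t₁ + s) (t₂ + s) t₃ t₄ + D a b c e t₁ (t₂ + s) (t₃ + s) t₄
      + D a b c e (t₁ + s) t₂ (t₃ + s) t₄ - 2 * D a b c e t₁ t₂ t₃ t₄)
      = fun s => (1/2 * uA a (b-1) c e t₁ (t₂ + 2 * s) t₃ t₄
        + 1/2 * uB a (b-1) c e t₁ (t₂ + 2 * s) t₃ t₄)
        + -(1/2) * uC a (b-1) c e t₁ (t₂ - 2 * s) t₃ t₄ := by
    funext s
    have h1 := hD (t₁ + s) (t₂ + s) t₃ t₄
    have h2 := hD t₁ (t₂ + s) (t₃ + s) t₄
    have h3 := hD (t₁ + s) t₂ (t₃ + s) t₄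
    have h4 := hD t₁ t₂ t₃ t₄
    rw [vA, B12 a (b-1) c e t₁ t₂ t₃ t₄ s, C12 a (b-1) c e t₁ t₂ t₃ t₄ s] at h1
    rw [vB, A23 a (b-1) c e t₁ t₂ t₃ t₄ s, C23 a (b-1) c e t₁ t₂ t₃ t₄ s] at h2
    rw [vC, A13 a (b-1) c e t₁ t₂ t₃ t₄ s, B13 a (b-1) c e t₁ t₂ t₃ t₄ s] at h3
    linear_combination (1/2) * h1 + (1/2) * h2 + (1/2) * h3 - h4
  rw [e]; exact z

/-- the full set of hypotheses, for the four-point function `Q` and the three pairings -/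
theorem core2' {Q M12 M23 M13 : ℤ → ℤ → ℤ → ℤ → ℂ → ℂ → ℂ → ℂ → ℂ}
    {Z : (ℂ → ℂ) → Prop} (hZ : ZeroMean Z) (hd : Der4 Q) (hi : Inv4 Q)
    (d12 : Der4 M12) (d23 : Der4 M23) (d13 : Der4 M13)
    (i12 : ∀ a b c e t₁ t₂ t₃ t₄ s,
      M12 a b c e (t₁ + s) (t₂ + s) t₃ t₄ = M12 a b c e t₁ t₂ t₃ t₄)
    (i23 : ∀ a b c e t₁ t₂ t₃ t₄ s,
      M23 a b c e t₁ (t₂ + s) (t₃ + s) t₄ = M23 a b c e t₁ t₂ t₃ t₄)
    (i13 : ∀ a b c e t₁ t₂ t₃ t₄ s,
      M13 a b c e (t₁ + s) t₂ (t₃ + s) t₄ = M13 a b c e t₁ t₂ t₃ t₄)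
    (z12 : ∀ a b c e t₁ t₂ t₃ t₄, Z (fun s => Q a b c e (t₁ + s) (t₂ + s) t₃ t₄
      + (-1) * M12 a b c e (t₁ + s) (t₂ + s) t₃ t₄))
    (z23 : ∀ a b c e t₁ t₂ t₃ t₄, Z (fun s => Q a b c e t₁ (t₂ + s) (t₃ + s) t₄
      + (-1) * M23 a b c e t₁ (t₂ + s) (t₃ + s) t₄))
    (z13 : ∀ a b c e t₁ t₂ t₃ t₄, Z (fun s => Q a b c e (t₁ + s) t₂ (t₃ + s) t₄
      + (-1) * M13 a b c e (t₁ + s) t₂ (t₃ + s) t₄))
    (hp : ∀ a b c e t₁ t₂ t₃ t₄, Z (fun s => Q a b c e t₁ (t₂ + 2 * s) t₃ t₄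
      + (-1) * M12 a b c e t₁ (t₂ + 2 * s) t₃ t₄ + (-1) * M23 a b c e t₁ (t₂ + 2 * s) t₃ t₄
      + (-1) * M13 a b c e t₁ (t₂ + 2 * s) t₃ t₄))
    (hm : ∀ a b c e t₁ t₂ t₃ t₄, Z (fun s => Q a b c e t₁ (t₂ - 2 * s) t₃ t₄
      + (-1) * M12 a b c e t₁ (t₂ - 2 * s) t₃ t₄ + (-1) * M23 a b c e t₁ (t₂ - 2 * s) t₃ t₄
      + (-1) * M13 a b c e t₁ (t₂ - 2 * s) t₃ t₄))
    (a b c e : ℤ) (t₁ t₂ t₃ t₄ : ℂ) :
    Z (fun s => -(M23 a b c e (t₁ + s) (t₂ + s) t₃ t₄ + M13 a b c e (t₁ + s) (t₂ + s) t₃ t₄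
      + M12 a b c e t₁ (t₂ + s) (t₃ + s) t₄ + M13 a b c e t₁ (t₂ + s) (t₃ + s) t₄
      + M12 a b c e (t₁ + s) t₂ (t₃ + s) t₄ + M23 a b c e (t₁ + s) t₂ (t₃ + s) t₄)
      - 2 * (Q a b c e t₁ t₂ t₃ t₄ - M12 a b c e t₁ t₂ t₃ t₄ - M23 a b c e t₁ t₂ t₃ t₄
        - M13 a b c e t₁ t₂ t₃ t₄)) := by
  set D : ℤ → ℤ → ℤ → ℤ → ℂ → ℂ → ℂ → ℂ → ℂ := fun a b c e t₁ t₂ t₃ t₄ =>
    Q a b c e t₁ t₂ t₃ t₄ + (-1) * M12 a b c e t₁ t₂ t₃ t₄ + (-1) * M23 a b c e t₁ t₂ t₃ t₄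
      + (-1) * M13 a b c e t₁ t₂ t₃ t₄ with hD
  have hDd : Der4 D := ((hd.add (d12.const_mul (-1))).add (d23.const_mul (-1))).add
    (d13.const_mul (-1))
  have n2 : ∀ z : ℤ, z + 1 + 1 = z + 2 := fun z => by ring
  have k12 := kill12 d12 i12
  have k23 := kill23 d23 i23
  have k13 := kill13 d13 i13
  have hBC : ∀ a b c e t₁ t₂ t₃ t₄, D a (b+1) (c+1) e t₁ t₂ t₃ t₄
      + D (a+1) (b+1) c e t₁ t₂ t₃ t₄
      + (D a b (c+2) e t₁ t₂ t₃ t₄ + D (a+1) b (c+1) e t₁ t₂ t₃ t₄) = 0 := by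
    intro a b c e t₁ t₂ t₃ t₄
    have h1 := quad_bc hZ hd hi d12 i12 z12 a b c e t₁ t₂ t₃ t₄
    have h2 := k23 a b (c+1) e t₁ t₂ t₃ t₄
    have h3 := k23 (a+1) b c e t₁ t₂ t₃ t₄
    have h4 := k13 a (b+1) c e t₁ t₂ t₃ t₄
    have h5 := k13 a b (c+1) e t₁ t₂ t₃ t₄
    rw [n2] at h2 h5
    simp only [hD]
    linear_combination h1 - h2 - h3 - h4 - h5
  have hCA : ∀ a b c e t₁ t₂ t₃ t₄, D (a+1) b (c+1) e t₁ t₂ t₃ t₄ + D (a+2) b c e t₁ t₂ t₃ t₄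
      + (D a (b+1) (c+1) e t₁ t₂ t₃ t₄ + D (a+1) (b+1) c e t₁ t₂ t₃ t₄) = 0 := by
    intro a b c e t₁ t₂ t₃ t₄
    have h1 := quad_ac hZ hd hi d23 i23 z23 a b c e t₁ t₂ t₃ t₄
    have h2 := k12 a b (c+1) e t₁ t₂ t₃ t₄
    have h3 := k12 (a+1) b c e t₁ t₂ t₃ t₄
    have h4 := k13 (a+1) b c e t₁ t₂ t₃ t₄
    have h5 := k13 a (b+1) c e t₁ t₂ t₃ t₄
    rw [n2] at h3 h4
    simp only [hD]
    linear_combination h1 - h2 - h3 - h4 - h5
  have hAB : ∀ a b c e t₁ t₂ t₃ t₄, D (a+1) (b+1) c e t₁ t₂ t₃ t₄ + D a (b+2) c e t₁ t₂ t₃ t₄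
      + (D (a+1) b (c+1) e t₁ t₂ t₃ t₄ + D a (b+1) (c+1) e t₁ t₂ t₃ t₄) = 0 := by
    intro a b c e t₁ t₂ t₃ t₄
    have h1 := quad_ab hZ hd hi d13 i13 z13 a b c e t₁ t₂ t₃ t₄
    have h2 := k12 a (b+1) c e t₁ t₂ t₃ t₄
    have h3 := k12 a b (c+1) e t₁ t₂ t₃ t₄
    have h4 := k23 (a+1) b c e t₁ t₂ t₃ t₄
    have h5 := k23 a (b+1) c e t₁ t₂ t₃ t₄
    rw [n2] at h2 h5
    simp only [hD]
    linear_combination h1 - h2 - h3 - h4 - h5
  have hmain := core2 hZ hDd hAB hBC hCA hp hm a b c e t₁ t₂ t₃ t₄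
  have z := hZ.add _ _ (hZ.add _ _ (hZ.add _ _ hmain
    (hZ.mul (-1) _ (z12 a b c e t₁ t₂ t₃ t₄)))
    (hZ.mul (-1) _ (z23 a b c e t₁ t₂ t₃ t₄))) (hZ.mul (-1) _ (z13 a b c e t₁ t₂ t₃ t₄))
  convert z using 2 with s
  simp only [hD]
  ring

end Berry


end

section

/-!
Smearing functions of four planar variables in each variable.
-/

open Complex Filter Topology MeasureTheory Convolution Metric
open scoped ENNReal ContDiff

namespace Berry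

noncomputable section

/-- tensor product of four test functions -/
def ten (ψ : Fin 4 → ℂ → ℂ) (y : Fin 4 → ℂ) : ℂ := ∏ j, ψ j (y j)

/-- smearing in four variables -/
def sm (ψ : Fin 4 → ℂ → ℂ) (C : (Fin 4 → ℂ) → ℂ) (t : Fin 4 → ℂ) : ℂ := ∫ y, ten ψ y * C (t - y)

lemma ten_contDiff {ψ : Fin 4 → ℂ → ℂ} (h : ∀ j, TestFn (ψ j)) : ContDiff ℝ ∞ (ten ψ) := by
  unfold ten
  apply contDiff_prod
  intro j _
  exact (h j).1.comp (contDiff_apply ℝ ℂ j)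

lemma ten_hasCompactSupport {ψ : Fin 4 → ℂ → ℂ} (h : ∀ j, TestFn (ψ j)) :
    HasCompactSupport (ten ψ) := by
  apply HasCompactSupport.intro (isCompact_univ_pi (fun j => (h j).2.isCompact))
  intro y hy
  simp only [Set.mem_pi, Set.mem_univ, true_implies, not_forall] at hy
  obtain ⟨j, hj⟩ := hy
  exact Finset.prod_eq_zero (Finset.mem_univ j) (image_eq_zero_of_notMem_tsupport hj)

lemma ten_continuous {ψ : Fin 4 → ℂ → ℂ} (h : ∀ j, TestFn (ψ j)) : Continuous (ten ψ) :=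
  (ten_contDiff h).continuous

lemma ten_integrable {ψ : Fin 4 → ℂ → ℂ} (h : ∀ j, TestFn (ψ j)) : Integrable (ten ψ) :=
  (ten_continuous h).integrable_of_hasCompactSupport (ten_hasCompactSupport h)

lemma sm_integrable {C : (Fin 4 → ℂ) → ℂ} (hC : Continuous C) {ψ : Fin 4 → ℂ → ℂ}
    (h : ∀ j, TestFn (ψ j)) (t : Fin 4 → ℂ) : Integrable (fun y => ten ψ y * C (t - y)) :=
  ((ten_continuous h).mul (hC.comp (continuous_const.sub continuous_id))).integrable_of_hasCompactSupport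
    (ten_hasCompactSupport h).mul_right

lemma update_testFn {ψ : Fin 4 → ℂ → ℂ} (h : ∀ j, TestFn (ψ j)) {χ : ℂ → ℂ} (hχ : TestFn χ)
    (j : Fin 4) : ∀ i, TestFn (Function.update ψ j χ i) := by
  intro i
  by_cases hij : i = j
  · subst hij; simpa using hχ
  · rw [Function.update_of_ne hij]; exact h i

lemma ten_update (ψ : Fin 4 → ℂ → ℂ) (χ : ℂ → ℂ) (j : Fin 4) (y : Fin 4 → ℂ) :
    ten (Function.update ψ j χ) y = χ (y j) * ∏ i ∈ Finset.univ.erase j, ψ i (y i) := by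
  unfold ten
  rw [← Finset.mul_prod_erase Finset.univ _ (Finset.mem_univ j), Function.update_self]
  congr 1
  apply Finset.prod_congr rfl
  intro i hi
  rw [Function.update_of_ne (Finset.ne_of_mem_erase hi)]

lemma ten_fderiv {ψ : Fin 4 → ℂ → ℂ} (h : ∀ j, TestFn (ψ j)) (y v : Fin 4 → ℂ) :
    fderiv ℝ (ten ψ) y v
      = ∑ j, ten (Function.update ψ j (fun z => fderiv ℝ (ψ j) z (v j))) y := by
  have h1 : HasFDerivAt (ten ψ) (∑ j, (∏ i ∈ Finset.univ.erase j, ψ i (y i)) •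
      ((fderiv ℝ (ψ j) (y j)).comp (ContinuousLinearMap.proj j : (Fin 4 → ℂ) →L[ℝ] ℂ))) y := by
    unfold ten
    apply HasFDerivAt.finsetProd
    intro j _
    exact ((h j).differentiable (y j)).hasFDerivAt.comp y
      (ContinuousLinearMap.proj j : (Fin 4 → ℂ) →L[ℝ] ℂ).hasFDerivAt
  rw [h1.fderiv]
  rw [_root_.sum_apply]
  refine Finset.sum_congr rfl fun j _ => ?_
  rw [ten_update]
  simp [mul_comm]

/-- the derivative of a smeared function in four variables -/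
lemma sm_hasDerivAt {C : (Fin 4 → ℂ) → ℂ} (hC : Continuous C) {ψ : Fin 4 → ℂ → ℂ}
    (h : ∀ j, TestFn (ψ j)) (t v : Fin 4 → ℂ) :
    HasDerivAt (fun s : ℝ => sm ψ C (t + s • v))
      (∑ j, sm (Function.update ψ j (fun z => fderiv ℝ (ψ j) z (v j))) C t) 0 := by
  have hcd : ContDiff ℝ 1 (ten ψ) := (ten_contDiff h).of_le (by exact_mod_cast le_top)
  have hcs := ten_hasCompactSupport h
  have h1 := hcs.hasFDerivAt_convolution_left (μ := (volume : Measure (Fin 4 → ℂ)))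
    (ContinuousLinearMap.lsmul ℝ ℂ) hcd (hC.locallyIntegrable (μ := volume)) t
  have h2 : HasDerivAt (fun s : ℝ => t + s • v) v 0 := by
    have := ((hasDerivAt_id (0:ℝ)).smul_const v).const_add t
    simpa using this
  have h3 := HasFDerivAt.comp_hasDerivAt_of_eq (0:ℝ) h1 h2 (by simp)
  have e0 : sm ψ C = (ten ψ ⋆[ContinuousLinearMap.lsmul ℝ ℂ, volume] C) := by
    funext t
    simp [sm, convolution_def]
  rw [e0]
  refine h3.congr_deriv ?_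
  rw [convolution_def, ContinuousLinearMap.integral_apply]
  · unfold sm
    rw [← integral_finsetSum]
    · congr 1
      funext y
      have : ((ContinuousLinearMap.precompL (Fin 4 → ℂ) (ContinuousLinearMap.lsmul ℝ ℂ))
        (fderiv ℝ (ten ψ) y) (C (t - y))) v = fderiv ℝ (ten ψ) y v * C (t - y) := rfl
      rw [this, ten_fderiv h, Finset.sum_mul]
    · intro j _
      exact sm_integrable hC (update_testFn h ((h j).fderiv_apply (v j)) j) t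
  · have := (hcs.fderiv ℝ).convolutionExists_left
      ((ContinuousLinearMap.lsmul ℝ ℂ).precompL (Fin 4 → ℂ))
      (hcd.continuous_fderiv one_ne_zero) (hC.locallyIntegrable (μ := volume)) t
    exact this

/-- Fubini: replacing a test function in one slot -/
lemma sm_slot {C : (Fin 4 → ℂ) → ℂ} (hC : Continuous C) {ψ : Fin 4 → ℂ → ℂ}
    (h : ∀ j, TestFn (ψ j)) {χ χ' : ℂ → ℂ} (hχ : TestFn χ) (hχ' : TestFn χ') (j : Fin 4)
    (t : Fin 4 → ℂ) (heq : ∀ x : Fin 4 → ℂ, ∫ z, χ z * C (Function.update x j (t j - z))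
      = ∫ z, χ' z * C (Function.update x j (t j - z))) :
    sm (Function.update ψ j χ) C t = sm (Function.update ψ j χ') C t := by
  have key : ∀ {χ : ℂ → ℂ}, TestFn χ → sm (Function.update ψ j χ) C t
      = ∫ w : Fin 3 → ℂ, (∏ i, ψ (j.succAbove i) (w i)) *
        ∫ z, χ z * C (Function.update (t - (Fin.insertNth (α := fun _ => ℂ) j 0 w)) j (t j - z)) := by
    intro χ hχ
    have hmp := (volume_preserving_piFinSuccAbove (fun _ : Fin 4 => ℂ) j).symm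
    have hint := sm_integrable hC (update_testFn h hχ j) t
    unfold sm
    rw [← hmp.integral_comp (MeasurableEquiv.measurableEmbedding _)]
    have hint2 := (hmp.integrable_comp_emb (MeasurableEquiv.measurableEmbedding _)).2 hint
    rw [Measure.volume_eq_prod] at hint2 ⊢
    simp only [Function.comp_def] at hint2
    rw [integral_prod_symm _ hint2]
    congr 1
    funext w
    rw [← integral_const_mul]
    congr 1
    funext z
    have e1 : (MeasurableEquiv.piFinSuccAbove (fun _ : Fin 4 => ℂ) j).symm (z, w)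
        = Fin.insertNth (α := fun _ => ℂ) j z w := rfl
    simp only [e1]
    have e2 : ten (Function.update ψ j χ) (Fin.insertNth (α := fun _ => ℂ) j z w)
        = (∏ i, ψ (j.succAbove i) (w i)) * χ z := by
      unfold ten
      rw [Fin.prod_univ_succAbove _ j]
      simp [mul_comm]
    have e3 : t - Fin.insertNth (α := fun _ => ℂ) j z w
        = Function.update (t - (Fin.insertNth (α := fun _ => ℂ) j 0 w)) j (t j - z) := by
      funext i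
      refine Fin.succAboveCases j ?_ (fun i => ?_) i
      · simp
      · simp
    rw [e2, e3, mul_assoc]
  rw [key hχ, key hχ']
  congr 1
  funext w
  rw [heq]

end

end Berry


end

section

/-!
Ladder families attached to functions of four planar variables.
-/

open Complex Filter Topology MeasureTheory Convolution Metric
open scoped ENNReal ContDiff

namespace Berry

noncomputable section

/-- continuous bounded functions of four planar variables solving the Helmholtz equation in each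
variable -/
structure Hel4 (C : (Fin 4 → ℂ) → ℂ) : Prop where
  cont : Continuous C
  bdd : ∃ B : ℝ, ∀ x, ‖C x‖ ≤ B
  helm : ∀ j x, WeakHelm (fun z => C (Function.update x j z))

lemma sm_update_lin {C : (Fin 4 → ℂ) → ℂ} (hC : Continuous C) {ψ : Fin 4 → ℂ → ℂ}
    (h : ∀ j, TestFn (ψ j)) {χ χ' : ℂ → ℂ} (hχ : TestFn χ) (hχ' : TestFn χ') (j : Fin 4)
    (t : Fin 4 → ℂ) (k k' : ℂ) :
    sm (Function.update ψ j (fun z => k * χ z + k' * χ' z)) C t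
      = k * sm (Function.update ψ j χ) C t + k' * sm (Function.update ψ j χ') C t := by
  unfold sm
  rw [← integral_const_mul, ← integral_const_mul, ← integral_add
    ((sm_integrable hC (update_testFn h hχ j) t).const_mul k)
    ((sm_integrable hC (update_testFn h hχ' j) t).const_mul k')]
  congr 1
  funext y
  simp only [ten_update]
  ring

lemma sm_lad {C : (Fin 4 → ℂ) → ℂ} (hC : Hel4 C) {ψ : Fin 4 → ℂ → ℂ}
    (h : ∀ j, TestFn (ψ j)) {φ : ℂ → ℂ} (hφ : TestFn φ) (a : ℤ) (j : Fin 4)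
    (t : Fin 4 → ℂ) (v : ℂ) :
    sm (Function.update ψ j (fun z => fderiv ℝ (tl φ a) z v)) C t
      = lad v (sm (Function.update ψ j (tl φ (a+1))) C t)
        (sm (Function.update ψ j (tl φ (a-1))) C t) := by
  have hψ := tl_testFn hφ a
  have e : (fun z => fderiv ℝ (tl φ a) z v) = fun z =>
      (starRingEnd ℂ v / 2) * Wop (tl φ a) z + (v / 2) * Vop (tl φ a) z := by
    funext y; exact fderiv_eq_wop_vop _ _ _
  rw [e, sm_update_lin hC.cont h hψ.wop hψ.vop]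
  have h1 : sm (Function.update ψ j (Wop (tl φ a))) C t
      = sm (Function.update ψ j (tl φ (a+1))) C t := by
    apply sm_slot hC.cont h hψ.wop (tl_testFn hφ (a+1))
    intro x
    exact smear_wop_tl (hC.helm j x) hφ a (t j)
  have h2 : sm (Function.update ψ j (Vop (tl φ a))) C t
      = - sm (Function.update ψ j (tl φ (a-1))) C t := by
    have h3 : sm (Function.update ψ j (Vop (tl φ a))) C t
      = sm (Function.update ψ j (fun z => (-1) * tl φ (a-1) z + 0 * tl φ (a-1) z)) C t := by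
      apply sm_slot hC.cont h hψ.vop
      · exact ((tl_testFn hφ (a-1)).const_mul (-1)).add ((tl_testFn hφ (a-1)).const_mul 0)
      intro x
      have := smear_vop_tl (hC.helm j x) hφ a (t j)
      simp only [smear, smul_eq_mul] at this
      rw [this, ← integral_neg]
      congr 1; funext z; ring
    rw [h3, sm_update_lin hC.cont h (tl_testFn hφ (a-1)) (tl_testFn hφ (a-1))]
    ring
  rw [h1, h2]
  simp only [lad]
  ring

/-- the ladder family attached to a function of four variables -/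
def QS (φ : Fin 4 → ℂ → ℂ) (C : (Fin 4 → ℂ) → ℂ) : ℤ → ℤ → ℤ → ℤ → ℂ → ℂ → ℂ → ℂ → ℂ :=
  fun a b c e t₁ t₂ t₃ t₄ =>
    sm ![tl (φ 0) a, tl (φ 1) b, tl (φ 2) c, tl (φ 3) e] C ![t₁, t₂, t₃, t₄]

lemma vec_testFn {φ : Fin 4 → ℂ → ℂ} (h : ∀ j, TestFn (φ j)) (a b c e : ℤ) :
    ∀ j, TestFn ((![tl (φ 0) a, tl (φ 1) b, tl (φ 2) c, tl (φ 3) e] : Fin 4 → ℂ → ℂ) j) := by
  intro j
  fin_cases j
  · exact tl_testFn (h 0) a
  · exact tl_testFn (h 1) b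
  · exact tl_testFn (h 2) c
  · exact tl_testFn (h 3) e

lemma QS_der {φ : Fin 4 → ℂ → ℂ} (h : ∀ j, TestFn (φ j)) {C : (Fin 4 → ℂ) → ℂ} (hC : Hel4 C) :
    Der4 (QS φ C) := by
  intro a b c e t₁ t₂ t₃ t₄ v₁ v₂ v₃ v₄
  have hv := vec_testFn h a b c e
  have h1 := sm_hasDerivAt hC.cont hv ![t₁, t₂, t₃, t₄] ![v₁, v₂, v₃, v₄]
  have e1 : (fun s : ℝ => sm ![tl (φ 0) a, tl (φ 1) b, tl (φ 2) c, tl (φ 3) e] C
      (![t₁, t₂, t₃, t₄] + s • ![v₁, v₂, v₃, v₄]))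
      = fun s : ℝ => QS φ C a b c e (t₁ + s * v₁) (t₂ + s * v₂) (t₃ + s * v₃) (t₄ + s * v₄) := by
    funext s
    unfold QS
    congr 1
    funext i
    fin_cases i <;> simp
  rw [e1] at h1
  refine h1.congr_deriv ?_
  rw [Fin.sum_univ_four]
  simp only [Matrix.cons_val_zero, Matrix.cons_val_one, Matrix.cons_val]
  rw [sm_lad hC hv (h 0), sm_lad hC hv (h 1), sm_lad hC hv (h 2), sm_lad hC hv (h 3)]
  have u0 : ∀ z : ℂ → ℂ, Function.update (![tl (φ 0) a, tl (φ 1) b, tl (φ 2) c, tl (φ 3) e] : Fin 4 → ℂ → ℂ) 0 z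
    = ![z, tl (φ 1) b, tl (φ 2) c, tl (φ 3) e] := by
    intro z; funext i; fin_cases i <;> simp
  have u1 : ∀ z : ℂ → ℂ, Function.update (![tl (φ 0) a, tl (φ 1) b, tl (φ 2) c, tl (φ 3) e] : Fin 4 → ℂ → ℂ) 1 z
    = ![tl (φ 0) a, z, tl (φ 2) c, tl (φ 3) e] := by
    intro z; funext i; fin_cases i <;> simp
  have u2 : ∀ z : ℂ → ℂ, Function.update (![tl (φ 0) a, tl (φ 1) b, tl (φ 2) c, tl (φ 3) e] : Fin 4 → ℂ → ℂ) 2 z
    = ![tl (φ 0) a, tl (φ 1) b, z, tl (φ 3) e] := by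
    intro z; funext i; fin_cases i <;> simp
  have u3 : ∀ z : ℂ → ℂ, Function.update (![tl (φ 0) a, tl (φ 1) b, tl (φ 2) c, tl (φ 3) e] : Fin 4 → ℂ → ℂ) 3 z
    = ![tl (φ 0) a, tl (φ 1) b, tl (φ 2) c, z] := by
    intro z; funext i; fin_cases i <;> simp
  simp only [u0, u1, u2, u3]
  rfl

end

end Berry


end
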