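import Mathlib
import Pool.Agent.BWM.C07
import Pool.Agent.BWM.C09

/-! Parts: LibH11.Berry.Fn4c, LibH11.Berry.Fn4d, LibH11.Berry.Fn4e, LibH11.Berry.Pair, LibH11.Berry.Pair2, LibH11.Berry.Pair3 -/

section

/-!
Vanishing means: smearing, solutions of the Helmholtz equation, scaling; removing the smearing.
-/

open Complex Filter Topology MeasureTheory Convolution Metric
open scoped ENNReal ContDiff Pointwise

namespace Berry

noncomputable section

/-- smearing in four variables preserves vanishing means -/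
lemma MZ.smearV {A : ℂ → (Fin 4 → ℂ) → ℂ} (hA : Continuous (Function.uncurry A)) {C : ℝ}
    (hC : ∀ s y, ‖A s y‖ ≤ C) {Ψ : (Fin 4 → ℂ) → ℂ} (hΨc : Continuous Ψ)
    (hΨs : HasCompactSupport Ψ)
    (hc : Continuous fun s => ∫ y, Ψ y * A s y)
    (h : ∀ y, Tendsto (fun R : ℝ => ⨍ s in ball (0:ℂ) R, A s y) atTop (𝓝 0)) :
    MZ (fun s => ∫ y, Ψ y * A s y) := by
  refine ⟨hc, ?_⟩
  have hC0 : 0 ≤ C := (norm_nonneg _).trans (hC 0 0)
  have hψi : Integrable Ψ := hΨc.integrable_of_hasCompactSupport hΨs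
  have swap : ∀ R : ℝ, ⨍ s in ball (0:ℂ) R, ∫ y, Ψ y * A s y
      = ∫ y, Ψ y * ⨍ s in ball (0:ℂ) R, A s y := by
    intro R
    rw [setAverage_eq]
    have hint : Integrable (Function.uncurry fun (s : ℂ) (y : Fin 4 → ℂ) => Ψ y * A s y)
        ((volume.restrict (ball (0:ℂ) R)).prod volume) := by
      have h1 : Integrable (fun p : ℂ × (Fin 4 → ℂ) => Ψ p.2 * A p.1 p.2)
          ((volume.restrict (ball (0:ℂ) R)).prod volume) := by
        have h2 : Integrable (fun p : ℂ × (Fin 4 → ℂ) => (1:ℂ) * Ψ p.2)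
            ((volume.restrict (ball (0:ℂ) R)).prod volume) :=
          Integrable.mul_prod (f := fun _ : ℂ => (1:ℂ)) (intOn continuous_const 0 R) hψi
        simp only [one_mul] at h2
        have h3 := h2.mul_bdd (g := fun p : ℂ × (Fin 4 → ℂ) => A p.1 p.2) (c := C) ?_ ?_
        · exact h3
        · exact hA.aestronglyMeasurable
        · exact Eventually.of_forall fun p => hC _ _
      exact h1
    rw [integral_integral_swap hint, ← integral_smul]
    congr 1
    funext y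
    rw [setAverage_eq, integral_const_mul, real_smul, real_smul]; ring
  simp only [swap]
  have hlim : Tendsto (fun R : ℝ => ∫ y, Ψ y * ⨍ s in ball (0:ℂ) R, A s y) atTop
      (𝓝 (∫ y, Ψ y * 0)) := by
    apply tendsto_integral_filter_of_dominated_convergence (fun y => ‖Ψ y‖ * C)
    · filter_upwards with R
      have h1 : StronglyMeasurable fun y => ∫ s in ball (0:ℂ) R, A s y := by
        have : StronglyMeasurable (Function.uncurry fun y s => A s y) :=
          (hA.comp continuous_swap).stronglyMeasurable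
        exact this.integral_prod_right
      have h2 : (fun y => Ψ y * ⨍ s in ball (0:ℂ) R, A s y) =
          fun y => Ψ y * ((volume.real (ball (0:ℂ) R))⁻¹ • ∫ s in ball (0:ℂ) R, A s y) := by
        funext y; rw [setAverage_eq]
      rw [h2]
      exact (hΨc.stronglyMeasurable.mul
        (h1.const_smul ((volume.real (ball (0:ℂ) R))⁻¹ : ℝ))).aestronglyMeasurable
    · filter_upwards [eventually_gt_atTop (0:ℝ)] with R hR
      refine Eventually.of_forall fun y => ?_
      rw [norm_mul]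
      refine mul_le_mul_of_nonneg_left ?_ (norm_nonneg _)
      refine (avg_norm_le _ R).trans ?_
      have hcy : Continuous fun s => A s y := hA.comp (continuous_id.prodMk continuous_const)
      exact avg_le_of_le hcy.norm (fun s => hC s y) hR
    · exact hψi.norm.mul_const C
    · refine Eventually.of_forall fun y => ?_
      have := (h y).const_mul (Ψ y)
      exact this
  simpa using hlim

lemma sm_continuous {C : (Fin 4 → ℂ) → ℂ} (hC : Continuous C) {ψ : Fin 4 → ℂ → ℂ}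
    (h : ∀ j, TestFn (ψ j)) : Continuous (sm ψ C) := by
  have e0 : sm ψ C = (ten ψ ⋆[ContinuousLinearMap.lsmul ℝ ℂ, volume] C) := by
    funext t
    simp [sm, convolution_def]
  rw [e0]
  exact (ten_hasCompactSupport h).continuous_convolution_left _ (ten_continuous h)
    (hC.locallyIntegrable (μ := volume))

/-- vanishing means along a complex line are preserved by smearing -/
lemma sm_mz {D : (Fin 4 → ℂ) → ℂ} (hD : Continuous D) {B : ℝ} (hB : ∀ x, ‖D x‖ ≤ B)
    {ψ : Fin 4 → ℂ → ℂ} (h : ∀ j, TestFn (ψ j)) (d : Fin 4 → ℂ)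
    (hz : ∀ x, Tendsto (fun R : ℝ => ⨍ s in ball (0:ℂ) R, D (x + s • d)) atTop (𝓝 0))
    (t : Fin 4 → ℂ) : MZ (fun s => sm ψ D (t + s • d)) := by
  have hc : Continuous fun s : ℂ => sm ψ D (t + s • d) :=
    (sm_continuous hD h).comp (by fun_prop)
  have e : (fun s : ℂ => sm ψ D (t + s • d)) = fun s =>
      ∫ y, ten ψ y * D ((t - y) + s • d) := by
    funext s
    unfold sm
    congr 1; funext y
    congr 2
    abel
  rw [e] at hc ⊢
  refine MZ.smearV (A := fun s y => D ((t - y) + s • d)) ?_ (C := B) (fun s y => hB _)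
    (ten_continuous h) (ten_hasCompactSupport h) hc (fun y => hz (t - y))
  exact hD.comp (by fun_prop)

lemma sm_sub {C D : (Fin 4 → ℂ) → ℂ} (hC : Continuous C) (hD : Continuous D)
    {ψ : Fin 4 → ℂ → ℂ} (h : ∀ j, TestFn (ψ j)) (t : Fin 4 → ℂ) :
    sm ψ (fun x => C x - D x) t = sm ψ C t - sm ψ D t := by
  unfold sm
  rw [← integral_sub (sm_integrable hC h t) (sm_integrable hD h t)]
  congr 1; funext y; ring

/-- the derivative of a test function has vanishing integral -/
lemma integral_fderiv_testFn {ψ : ℂ → ℂ} (hψ : TestFn ψ) (v : ℂ) :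
    ∫ y, fderiv ℝ ψ y v = 0 := by
  have h1 := smear_hasDerivAt hψ (F := fun _ : ℂ => (1:ℂ)) continuous_const 0 v
  have h2 : (fun s : ℝ => smear ψ (fun _ : ℂ => (1:ℂ)) (0 + s * v)) = fun _ =>
      smear ψ (fun _ : ℂ => (1:ℂ)) 0 := by
    funext s; rfl
  rw [h2] at h1
  have h3 := h1.unique (hasDerivAt_const _ _)
  simpa [smear] using h3

lemma integral_wop {ψ : ℂ → ℂ} (hψ : TestFn ψ) : ∫ y, Wop ψ y = 0 := by
  unfold Wop
  have i1 := (hψ.fderiv_apply 1).continuous.integrable_of_hasCompactSupport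
    (μ := (volume : Measure ℂ)) (hψ.fderiv_apply 1).2
  have i2 := (hψ.fderiv_apply I).continuous.integrable_of_hasCompactSupport
    (μ := (volume : Measure ℂ)) (hψ.fderiv_apply I).2
  rw [integral_add i1 (i2.const_mul I), integral_const_mul, integral_fderiv_testFn hψ,
    integral_fderiv_testFn hψ]
  simp

lemma integral_approxId (n : ℕ) : ∫ y, approxId n y = 1 := by
  unfold approxId
  rw [integral_complex_ofReal, ContDiffBump.integral_normed]
  simp

/-- bounded solutions of the Helmholtz equation have mean zero over the plane -/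
lemma mz_of_weakHelm {g : ℂ → ℂ} (hg : Continuous g) {B : ℝ} (hB : ∀ x, ‖g x‖ ≤ B)
    (hW : WeakHelm g) : MZ g := by
  set ψ := approxId 0 with hψ
  have hψt : TestFn ψ := approxId_testFn 0
  set χ := Wop (Vop ψ) with hχ
  have hχt : TestFn χ := hψt.vop.wop
  have hχ0 : ∫ y, χ y = 0 := integral_wop hψt.vop
  have hψ1 : ∫ y, ψ y = 1 := integral_approxId 0
  -- smearing changes the function by a zero-mean one
  have key : ∀ {η : ℂ → ℂ}, TestFn η → MZ (fun s => smear η g s - (∫ y, η y) * g s) := by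
    intro η hη
    have hηi : Integrable η := hη.continuous.integrable_of_hasCompactSupport hη.2
    have e : (fun s => smear η g s - (∫ y, η y) * g s) = fun s => ∫ y, η y * (g (s - y) - g s) := by
      funext s
      rw [smear, ← integral_mul_const, ← integral_sub (smear_integrable hη.continuous hη.2 hg s)
        (hηi.mul_const _)]
      congr 1; funext y; simp only [smul_eq_mul]; ring
    have hc : Continuous (fun s => smear η g s - (∫ y, η y) * g s) :=
      (smear_continuous hg hη).sub (continuous_const.mul hg)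
    rw [e] at hc ⊢
    refine MZ.smear (A := fun s y => g (s - y) - g s) ?_ (C := 2 * B) ?_ hη hc ?_
    · exact (hg.comp (by fun_prop)).sub (hg.comp (by fun_prop))
    · intro s y
      refine (norm_sub_le _ _).trans ?_
      linarith [hB (s - y), hB s]
    · intro y
      have h1 := avg_shift hg hB (-y)
      refine h1.congr fun R => ?_
      have h2 : (⨍ s in ball (0:ℂ) R, (g (s - y) - g s)) =
          (⨍ s in ball (0:ℂ) R, g (s - y)) + ⨍ s in ball (0:ℂ) R, -(g s) := by
        have h5 := avg_add (g := fun s => g (s - y)) (h := fun s => -(g s))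
          (hg.comp (by fun_prop)) hg.neg R
        rw [← h5]
        congr 1
      have h3 : (⨍ s in ball (0:ℂ) R, -(g s)) = - ⨍ s in ball (0:ℂ) R, g s := by
        have := avg_const_mul (-1) g R
        simp only [neg_mul, one_mul] at this
        exact this
      rw [h2, h3, ← sub_eq_add_neg]
      congr 2
      funext s; congr 1; ring
  have k1 := key hχt
  have k2 := key hψt
  rw [hχ0] at k1
  rw [hψ1] at k2
  have k3 := (k1.const_mul (-1)).add (k2.const_mul (-1))
  have e : (fun s => (-1) * (smear χ g s - 0 * g s) + (-1) * (smear ψ g s - 1 * g s)) = g := by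
    funext s
    rw [hχ, (hW ψ hψt s).1]; ring
  rw [e] at k3
  exact k3

/-- vanishing means and real dilations -/
lemma MZ.dilate {g : ℂ → ℂ} (hg : MZ g) {κ : ℝ} (hκ : κ ≠ 0) : MZ (fun s => g (κ • s)) := by
  refine ⟨hg.1.comp (continuous_const_smul κ), ?_⟩
  have h1 : ∀ R : ℝ, 0 < R → (⨍ s in ball (0:ℂ) R, g (κ • s)) = ⨍ s in ball (0:ℂ) (|κ| * R), g s := by
    intro R hR
    have h2 := Measure.setIntegral_comp_smul (volume : Measure ℂ) g (ball (0:ℂ) R) hκ
    have h3 : κ • ball (0:ℂ) R = ball (0:ℂ) (|κ| * R) := by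
      rw [_root_.smul_ball hκ, smul_zero, Real.norm_eq_abs]
    rw [avg_eq _ hR.le, avg_eq _ (by positivity), h2, h3, smul_smul]
    congr 1
    rw [Complex.finrank_real_complex, abs_inv, abs_pow, mul_pow, sq_abs]
    field_simp
  have h4 : Tendsto (fun R : ℝ => |κ| * R) atTop atTop :=
    tendsto_id.const_mul_atTop (abs_pos.2 hκ)
  refine (hg.2.comp h4).congr' ?_
  filter_upwards [eventually_gt_atTop (0:ℝ)] with R hR
  rw [Function.comp, h1 R hR]

/-- vanishing means and translations -/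
lemma MZ.translate {g : ℂ → ℂ} (hg : MZ g) {B : ℝ} (hB : ∀ x, ‖g x‖ ≤ B) (x : ℂ) :
    MZ (fun s => g (x + s)) := by
  refine ⟨hg.1.comp (continuous_const.add continuous_id), ?_⟩
  have h1 := (avg_shift hg.1 hB x).add hg.2
  simpa using h1

end

end Berry


end

section

/-!
The general four-point identity for functions of four planar variables.
-/

open Complex Filter Topology MeasureTheory Convolution Metric
open scoped ENNReal ContDiff Pointwise

namespace Berry

noncomputable section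

lemma zeroMean_MZ : ZeroMean MZ :=
  ⟨fun _ _ hg hh => hg.add hh, fun k _ hg => hg.const_mul k, fun _ hk => hk.const⟩

lemma sm_inv {C : (Fin 4 → ℂ) → ℂ} {d : Fin 4 → ℂ} (h : ∀ x, C (x + d) = C x)
    (ψ : Fin 4 → ℂ → ℂ) (t : Fin 4 → ℂ) : sm ψ C (t + d) = sm ψ C t := by
  unfold sm
  congr 1; funext y
  have : t + d - y = (t - y) + d := by abel
  rw [this, h]

lemma vec_add_smul (t₁ t₂ t₃ t₄ d₁ d₂ d₃ d₄ s : ℂ) :
    (![t₁, t₂, t₃, t₄] : Fin 4 → ℂ) + s • ![d₁, d₂, d₃, d₄]
      = ![t₁ + s * d₁, t₂ + s * d₂, t₃ + s * d₃, t₄ + s * d₄] := by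
  funext i
  fin_cases i <;> simp

/-- solutions of the Helmholtz equation have mean zero in the second variable -/
lemma Hel4.mean_two {D : (Fin 4 → ℂ) → ℂ} (hD : Hel4 D) {κ : ℝ} (hκ : κ ≠ 0) (x : Fin 4 → ℂ) :
    Tendsto (fun R : ℝ => ⨍ s in ball (0:ℂ) R, D (x + s • ![0, (κ : ℂ), 0, 0])) atTop (𝓝 0) := by
  obtain ⟨B, hB⟩ := hD.bdd
  have hc : Continuous fun z => D (Function.update x 1 z) :=
    hD.cont.comp (continuous_const.update 1 continuous_id)
  have h1 := mz_of_weakHelm hc (fun z => hB _) (hD.helm 1 x)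
  have h2 := h1.translate (fun z => hB _) (x 1)
  have h3 := h2.dilate hκ
  refine h3.2.congr fun R => ?_
  congr 1
  funext s
  have e : Function.update x 1 (x 1 + κ • s) = x + s • ![0, (κ : ℂ), 0, 0] := by
    funext i
    fin_cases i
    · simp [Function.update]
    · simp [mul_comm]
    · simp [Function.update]
    · simp [Function.update]
  show D (Function.update x 1 (x 1 + κ • s)) = _
  rw [e]

lemma QS_mean_two {φ : Fin 4 → ℂ → ℂ} (h : ∀ j, TestFn (φ j)) {D : (Fin 4 → ℂ) → ℂ}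
    (hD : Hel4 D) {κ : ℝ} (hκ : κ ≠ 0) (a b c e : ℤ) (t₁ t₂ t₃ t₄ : ℂ) :
    MZ (fun s => QS φ D a b c e t₁ (t₂ + κ * s) t₃ t₄) := by
  obtain ⟨B, hB⟩ := hD.bdd
  have h1 := sm_mz hD.cont hB (vec_testFn h a b c e) ![0, (κ : ℂ), 0, 0]
    (fun x => hD.mean_two hκ x) ![t₁, t₂, t₃, t₄]
  simp only [vec_add_smul, mul_zero, add_zero] at h1
  simp only [QS, mul_comm (κ : ℂ)]
  exact h1

/-- the smeared form of the general identity -/
theorem four_general_smear {C M12 M23 M13 : (Fin 4 → ℂ) → ℂ} (hC : Hel4 C) (h12 : Hel4 M12)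
    (h23 : Hel4 M23) (h13 : Hel4 M13)
    (iC : ∀ x (s : ℂ), C (x + s • ![1, 1, 1, 1]) = C x)
    (i12 : ∀ x (s : ℂ), M12 (x + s • ![1, 1, 0, 0]) = M12 x)
    (i23 : ∀ x (s : ℂ), M23 (x + s • ![0, 1, 1, 0]) = M23 x)
    (i13 : ∀ x (s : ℂ), M13 (x + s • ![1, 0, 1, 0]) = M13 x)
    (z12 : ∀ x, Tendsto (fun R : ℝ => ⨍ s in ball (0:ℂ) R,
      (C (x + s • ![1, 1, 0, 0]) - M12 (x + s • ![1, 1, 0, 0]))) atTop (𝓝 0))
    (z23 : ∀ x, Tendsto (fun R : ℝ => ⨍ s in ball (0:ℂ) R,
      (C (x + s • ![0, 1, 1, 0]) - M23 (x + s • ![0, 1, 1, 0]))) atTop (𝓝 0))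
    (z13 : ∀ x, Tendsto (fun R : ℝ => ⨍ s in ball (0:ℂ) R,
      (C (x + s • ![1, 0, 1, 0]) - M13 (x + s • ![1, 0, 1, 0]))) atTop (𝓝 0))
    {φ : Fin 4 → ℂ → ℂ} (h : ∀ j, TestFn (φ j)) (t : Fin 4 → ℂ) :
    MZ (fun s => -(sm φ M23 (t + s • ![1, 1, 0, 0]) + sm φ M13 (t + s • ![1, 1, 0, 0])
      + sm φ M12 (t + s • ![0, 1, 1, 0]) + sm φ M13 (t + s • ![0, 1, 1, 0])
      + sm φ M12 (t + s • ![1, 0, 1, 0]) + sm φ M23 (t + s • ![1, 0, 1, 0]))
      - 2 * (sm φ C t - sm φ M12 t - sm φ M23 t - sm φ M13 t)) := by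
  have hφ : φ = ![tl (φ 0) 0, tl (φ 1) 0, tl (φ 2) 0, tl (φ 3) 0] := by
    funext i; fin_cases i <;> rfl
  have ht : t = ![t 0, t 1, t 2, t 3] := by
    funext i; fin_cases i <;> rfl
  obtain ⟨BC, hBC⟩ := hC.bdd
  have zz : ∀ {M : (Fin 4 → ℂ) → ℂ}, Hel4 M → ∀ d : Fin 4 → ℂ,
      (∀ x, Tendsto (fun R : ℝ => ⨍ s in ball (0:ℂ) R, (C (x + s • d) - M (x + s • d))) atTop
        (𝓝 0)) → ∀ (a b c e : ℤ) (t : Fin 4 → ℂ),
      MZ (fun s => sm ![tl (φ 0) a, tl (φ 1) b, tl (φ 2) c, tl (φ 3) e] C (t + s • d)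
        + (-1) * sm ![tl (φ 0) a, tl (φ 1) b, tl (φ 2) c, tl (φ 3) e] M (t + s • d)) := by
    intro M hM d hz a b c e t
    obtain ⟨BM, hBM⟩ := hM.bdd
    have h1 := sm_mz (D := fun x => C x - M x) (hC.cont.sub hM.cont) (B := BC + BM)
      (fun x => (norm_sub_le _ _).trans (add_le_add (hBC x) (hBM x)))
      (vec_testFn h a b c e) d hz t
    have e1 : (fun s : ℂ => sm ![tl (φ 0) a, tl (φ 1) b, tl (φ 2) c, tl (φ 3) e]
        (fun x => C x - M x) (t + s • d)) = fun s =>
        sm ![tl (φ 0) a, tl (φ 1) b, tl (φ 2) c, tl (φ 3) e] C (t + s • d)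
        + (-1) * sm ![tl (φ 0) a, tl (φ 1) b, tl (φ 2) c, tl (φ 3) e] M (t + s • d) := by
      funext s
      rw [sm_sub hC.cont hM.cont (vec_testFn h a b c e)]; ring
    rw [e1] at h1
    exact h1
  have hp : ∀ {κ : ℝ}, κ ≠ 0 → ∀ (a b c e : ℤ) (t₁ t₂ t₃ t₄ : ℂ),
      MZ (fun s => QS φ C a b c e t₁ (t₂ + κ * s) t₃ t₄
      + (-1) * QS φ M12 a b c e t₁ (t₂ + κ * s) t₃ t₄ + (-1) * QS φ M23 a b c e t₁ (t₂ + κ * s) t₃ t₄
      + (-1) * QS φ M13 a b c e t₁ (t₂ + κ * s) t₃ t₄) := by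
    intro κ hκ a b c e t₁ t₂ t₃ t₄
    exact (((QS_mean_two h hC hκ a b c e t₁ t₂ t₃ t₄).add
      ((QS_mean_two h h12 hκ a b c e t₁ t₂ t₃ t₄).const_mul (-1))).add
      ((QS_mean_two h h23 hκ a b c e t₁ t₂ t₃ t₄).const_mul (-1))).add
      ((QS_mean_two h h13 hκ a b c e t₁ t₂ t₃ t₄).const_mul (-1))
  have main := core2' zeroMean_MZ (Q := QS φ C) (M12 := QS φ M12) (M23 := QS φ M23)
    (M13 := QS φ M13) (QS_der h hC) ?_ (QS_der h h12) (QS_der h h23) (QS_der h h13)
    ?_ ?_ ?_ ?_ ?_ ?_ ?_ ?_ 0 0 0 0 (t 0) (t 1) (t 2) (t 3)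
  · have e : ∀ M : (Fin 4 → ℂ) → ℂ, sm φ M = fun x => QS φ M 0 0 0 0 (x 0) (x 1) (x 2) (x 3) := by
      intro M; funext x
      unfold QS
      rw [← hφ]
      congr 1
      funext i; fin_cases i <;> rfl
    simp only [e]
    convert main using 2 with s
    simp [QS]
  · intro a b c e t₁ t₂ t₃ t₄ s
    have := sm_inv (fun x => iC x s) ![tl (φ 0) a, tl (φ 1) b, tl (φ 2) c, tl (φ 3) e]
      ![t₁, t₂, t₃, t₄]
    rw [vec_add_smul] at this
    simp only [mul_one] at this
    exact this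
  · intro a b c e t₁ t₂ t₃ t₄ s
    have := sm_inv (fun x => i12 x s) ![tl (φ 0) a, tl (φ 1) b, tl (φ 2) c, tl (φ 3) e]
      ![t₁, t₂, t₃, t₄]
    rw [vec_add_smul] at this
    simp only [mul_one, mul_zero, add_zero] at this
    exact this
  · intro a b c e t₁ t₂ t₃ t₄ s
    have := sm_inv (fun x => i23 x s) ![tl (φ 0) a, tl (φ 1) b, tl (φ 2) c, tl (φ 3) e]
      ![t₁, t₂, t₃, t₄]
    rw [vec_add_smul] at this
    simp only [mul_one, mul_zero, add_zero] at this
    exact this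
  · intro a b c e t₁ t₂ t₃ t₄ s
    have := sm_inv (fun x => i13 x s) ![tl (φ 0) a, tl (φ 1) b, tl (φ 2) c, tl (φ 3) e]
      ![t₁, t₂, t₃, t₄]
    rw [vec_add_smul] at this
    simp only [mul_one, mul_zero, add_zero] at this
    exact this
  · intro a b c e t₁ t₂ t₃ t₄
    have := zz h12 ![1, 1, 0, 0] z12 a b c e ![t₁, t₂, t₃, t₄]
    simp only [vec_add_smul, mul_one, mul_zero, add_zero] at this
    exact this
  · intro a b c e t₁ t₂ t₃ t₄
    have := zz h23 ![0, 1, 1, 0] z23 a b c e ![t₁, t₂, t₃, t₄]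
    simp only [vec_add_smul, mul_one, mul_zero, add_zero] at this
    exact this
  · intro a b c e t₁ t₂ t₃ t₄
    have := zz h13 ![1, 0, 1, 0] z13 a b c e ![t₁, t₂, t₃, t₄]
    simp only [vec_add_smul, mul_one, mul_zero, add_zero] at this
    exact this
  · intro a b c e t₁ t₂ t₃ t₄
    have := hp (κ := 2) (by norm_num) a b c e t₁ t₂ t₃ t₄
    push_cast at this
    exact this
  · intro a b c e t₁ t₂ t₃ t₄
    have := hp (κ := -2) (by norm_num) a b c e t₁ t₂ t₃ t₄
    have e : ∀ s : ℂ, t₂ + ((-2 : ℝ) : ℂ) * s = t₂ - 2 * s := by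
      intro s; push_cast; ring
    simp only [e] at this
    exact this

end

end Berry


end

section

/-!
Removing the smearing in the general four-point identity.
-/

open Complex Filter Topology MeasureTheory Convolution Metric
open scoped ENNReal ContDiff Pointwise

namespace Berry

noncomputable section

/-- four copies of the approximate identity -/
def aid (n : ℕ) : Fin 4 → ℂ → ℂ := fun _ => approxId n

lemma aid_testFn (n : ℕ) : ∀ j, TestFn (aid n j) := fun _ => approxId_testFn n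

lemma ten_aid (n : ℕ) (y : Fin 4 → ℂ) :
    ten (aid n) y = ((∏ j, (bumpSeq n).normed volume (y j) : ℝ) : ℂ) := by
  unfold ten aid approxId
  push_cast
  rfl

lemma norm_ten_aid (n : ℕ) (y : Fin 4 → ℂ) : ((‖ten (aid n) y‖ : ℝ) : ℂ) = ten (aid n) y := by
  rw [ten_aid, Complex.norm_real, Real.norm_of_nonneg]
  exact Finset.prod_nonneg fun j _ => (bumpSeq n).nonneg_normed _

lemma integral_ten_aid (n : ℕ) : ∫ y, ten (aid n) y = 1 := by
  unfold ten
  rw [integral_fintype_prod_volume_eq_prod]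
  simp [aid, integral_approxId]

lemma integral_norm_ten_aid (n : ℕ) : ∫ y, ‖ten (aid n) y‖ = 1 := by
  have h : ((∫ y, ‖ten (aid n) y‖ : ℝ) : ℂ) = 1 := by
    rw [← integral_complex_ofReal]
    simp only [norm_ten_aid]
    exact integral_ten_aid n
  exact_mod_cast h

lemma ten_aid_support (n : ℕ) {y : Fin 4 → ℂ} (hy : ten (aid n) y ≠ 0) : ‖y‖ < 1 / ((n:ℝ) + 1) := by
  have hpos : (0:ℝ) < 1 / ((n:ℝ) + 1) := by positivity
  rw [pi_norm_lt_iff hpos]
  intro j
  have h1 : aid n j (y j) ≠ 0 := by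
    intro h0
    apply hy
    exact Finset.prod_eq_zero (Finset.mem_univ j) h0
  have h2 : (bumpSeq n).normed volume (y j) ≠ 0 := by
    intro h0
    apply h1
    simp [aid, approxId, h0]
  have h3 : y j ∈ Function.support ((bumpSeq n).normed (volume : Measure ℂ)) := h2
  rw [ContDiffBump.support_normed_eq, mem_ball, dist_zero_right] at h3
  exact h3

lemma sm_aid_close {C : (Fin 4 → ℂ) → ℂ} (hC : Continuous C) (n : ℕ) (t : Fin 4 → ℂ) {δ : ℝ}
    (h : ∀ y : Fin 4 → ℂ, ‖y‖ < 1 / ((n:ℝ) + 1) → ‖C (t - y) - C t‖ ≤ δ) :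
    ‖sm (aid n) C t - C t‖ ≤ δ := by
  have hi := ten_integrable (aid_testFn n)
  have e : sm (aid n) C t - C t = ∫ y, ten (aid n) y * (C (t - y) - C t) := by
    have e1 : C t = ∫ y, ten (aid n) y * C t := by
      rw [integral_mul_const, integral_ten_aid, one_mul]
    conv_lhs => rw [e1]
    unfold sm
    rw [← integral_sub (sm_integrable hC (aid_testFn n) t) (hi.mul_const _)]
    congr 1; funext y; ring
  rw [e]
  calc ‖∫ y, ten (aid n) y * (C (t - y) - C t)‖ ≤ ∫ y, ‖ten (aid n) y‖ * δ := by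
        refine norm_integral_le_of_norm_le (hi.norm.mul_const _) (Eventually.of_forall fun y => ?_)
        rw [norm_mul]
        by_cases hy : ten (aid n) y = 0
        · rw [hy]; simp
        · exact mul_le_mul_of_nonneg_left (h y (ten_aid_support n hy)) (norm_nonneg _)
    _ = δ := by rw [integral_mul_const, integral_norm_ten_aid, one_mul]

lemma sm_aid_tendsto {C : (Fin 4 → ℂ) → ℂ} (hC : Continuous C) (t : Fin 4 → ℂ) :
    Tendsto (fun n => sm (aid n) C t) atTop (𝓝 (C t)) := by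
  rw [Metric.tendsto_atTop]
  intro ε hε
  obtain ⟨δ, hδ, h⟩ := Metric.continuous_iff.1 hC t (ε / 2) (by positivity)
  obtain ⟨N, hN⟩ := exists_nat_one_div_lt hδ
  refine ⟨N, fun n hn => ?_⟩
  rw [dist_eq_norm]
  have h1 : (1:ℝ) / ((n:ℝ) + 1) ≤ 1 / ((N:ℝ) + 1) := by
    apply one_div_le_one_div_of_le (by positivity)
    have : (N:ℝ) ≤ n := by exact_mod_cast hn
    linarith
  refine lt_of_le_of_lt (sm_aid_close hC n t (δ := ε / 2) fun y hy => ?_) (by linarith)
  have := h (t - y) (by rw [dist_eq_norm]; simp; linarith)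
  rw [dist_eq_norm] at this
  exact this.le

lemma sm_aid_unif {C : (Fin 4 → ℂ) → ℂ} (hC : UniformContinuous C) {ε : ℝ} (hε : 0 < ε) :
    ∀ᶠ n : ℕ in atTop, ∀ t, ‖sm (aid n) C t - C t‖ ≤ ε := by
  obtain ⟨δ, hδ, h⟩ := Metric.uniformContinuous_iff.1 hC ε hε
  obtain ⟨N, hN⟩ := exists_nat_one_div_lt hδ
  filter_upwards [eventually_ge_atTop N] with n hn t
  have h1 : (1:ℝ) / ((n:ℝ) + 1) ≤ 1 / ((N:ℝ) + 1) := by
    apply one_div_le_one_div_of_le (by positivity)
    have : (N:ℝ) ≤ n := by exact_mod_cast hn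
    linarith
  refine sm_aid_close hC.continuous n t fun y hy => ?_
  have := @h (t - y) t (by rw [dist_eq_norm]; simp; linarith)
  rw [dist_eq_norm] at this
  exact this.le

/-- uniform limits of functions with vanishing mean -/
lemma MZ.of_unif {g : ℂ → ℂ} (hg : Continuous g)
    (h : ∀ ε > 0, ∃ g' : ℂ → ℂ, MZ g' ∧ ∀ s, ‖g' s - g s‖ ≤ ε) : MZ g := by
  refine ⟨hg, ?_⟩
  rw [Metric.tendsto_atTop]
  intro ε hε
  obtain ⟨g', hg', hc⟩ := h (ε / 3) (by positivity)
  obtain ⟨R₀, hR₀⟩ := Metric.tendsto_atTop.1 hg'.2 (ε / 3) (by positivity)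
  refine ⟨max R₀ 1, fun R hR => ?_⟩
  have hR1 : R₀ ≤ R := (le_max_left _ _).trans hR
  have hRp : 0 < R := lt_of_lt_of_le one_pos ((le_max_right _ _).trans hR)
  have h1 := hR₀ R hR1
  rw [dist_zero_right] at h1 ⊢
  have h2 : (⨍ s in ball (0:ℂ) R, g' s) - (⨍ s in ball (0:ℂ) R, g s)
      = ⨍ s in ball (0:ℂ) R, (g' s - g s) := by
    have h3 := avg_add (g := g') (h := fun s => -(g s)) hg'.1 hg.neg R
    have h4 := avg_const_mul (-1) g R
    simp only [neg_mul, one_mul] at h4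
    rw [h4] at h3
    rw [sub_eq_add_neg, ← h3]
    congr 1
  have h5 : ‖(⨍ s in ball (0:ℂ) R, g' s) - (⨍ s in ball (0:ℂ) R, g s)‖ ≤ ε / 3 := by
    rw [h2]
    exact (avg_norm_le _ R).trans (avg_le_of_le (hg'.1.sub hg).norm hc hRp)
  have h6 := norm_sub_norm_le (⨍ s in ball (0:ℂ) R, g s) (⨍ s in ball (0:ℂ) R, g' s)
  rw [norm_sub_rev] at h6
  linarith

/-- **The general four-point identity.** -/
theorem four_general {C M12 M23 M13 : (Fin 4 → ℂ) → ℂ} (hC : Hel4 C) (h12 : Hel4 M12)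
    (h23 : Hel4 M23) (h13 : Hel4 M13)
    (u12 : UniformContinuous M12) (u23 : UniformContinuous M23) (u13 : UniformContinuous M13)
    (iC : ∀ x (s : ℂ), C (x + s • ![1, 1, 1, 1]) = C x)
    (i12 : ∀ x (s : ℂ), M12 (x + s • ![1, 1, 0, 0]) = M12 x)
    (i23 : ∀ x (s : ℂ), M23 (x + s • ![0, 1, 1, 0]) = M23 x)
    (i13 : ∀ x (s : ℂ), M13 (x + s • ![1, 0, 1, 0]) = M13 x)
    (z12 : ∀ x, Tendsto (fun R : ℝ => ⨍ s in ball (0:ℂ) R,
      (C (x + s • ![1, 1, 0, 0]) - M12 (x + s • ![1, 1, 0, 0]))) atTop (𝓝 0))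
    (z23 : ∀ x, Tendsto (fun R : ℝ => ⨍ s in ball (0:ℂ) R,
      (C (x + s • ![0, 1, 1, 0]) - M23 (x + s • ![0, 1, 1, 0]))) atTop (𝓝 0))
    (z13 : ∀ x, Tendsto (fun R : ℝ => ⨍ s in ball (0:ℂ) R,
      (C (x + s • ![1, 0, 1, 0]) - M13 (x + s • ![1, 0, 1, 0]))) atTop (𝓝 0))
    (t : Fin 4 → ℂ) :
    MZ (fun s => -(M23 (t + s • ![1, 1, 0, 0]) + M13 (t + s • ![1, 1, 0, 0])
      + M12 (t + s • ![0, 1, 1, 0]) + M13 (t + s • ![0, 1, 1, 0])
      + M12 (t + s • ![1, 0, 1, 0]) + M23 (t + s • ![1, 0, 1, 0]))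
      - 2 * (C t - M12 t - M23 t - M13 t)) := by
  apply MZ.of_unif
  · have c1 : ∀ {M : (Fin 4 → ℂ) → ℂ}, Continuous M → ∀ d : Fin 4 → ℂ,
        Continuous fun s : ℂ => M (t + s • d) := fun hM d => hM.comp (by fun_prop)
    exact (((((((c1 h23.cont _).add (c1 h13.cont _)).add (c1 h12.cont _)).add
      (c1 h13.cont _)).add (c1 h12.cont _)).add (c1 h23.cont _)).neg).sub continuous_const
  intro ε hε
  have k12 := sm_aid_unif u12 (ε := ε / 16) (by positivity)
  have k23 := sm_aid_unif u23 (ε := ε / 16) (by positivity)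
  have k13 := sm_aid_unif u13 (ε := ε / 16) (by positivity)
  have kC := (Metric.tendsto_atTop.1 (sm_aid_tendsto hC.cont t)) (ε / 16) (by positivity)
  obtain ⟨N, hN⟩ := kC
  have kC' : ∀ᶠ n : ℕ in atTop, ‖sm (aid n) C t - C t‖ ≤ ε / 16 := by
    filter_upwards [eventually_ge_atTop N] with n hn
    have := hN n hn
    rw [dist_eq_norm] at this
    exact this.le
  obtain ⟨n, ⟨⟨n12, n23⟩, n13⟩, nC⟩ := (((k12.and k23).and k13).and kC').exists
  refine ⟨_, four_general_smear hC h12 h23 h13 iC i12 i23 i13 z12 z23 z13 (aid_testFn n) t, ?_⟩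
  intro s
  have a1 := n23 (t + s • ![1, 1, 0, 0])
  have a2 := n13 (t + s • ![1, 1, 0, 0])
  have a3 := n12 (t + s • ![0, 1, 1, 0])
  have a4 := n13 (t + s • ![0, 1, 1, 0])
  have a5 := n12 (t + s • ![1, 0, 1, 0])
  have a6 := n23 (t + s • ![1, 0, 1, 0])
  have a7 := n12 t
  have a8 := n23 t
  have a9 := n13 t
  have e : -(sm (aid n) M23 (t + s • ![1, 1, 0, 0]) + sm (aid n) M13 (t + s • ![1, 1, 0, 0])
      + sm (aid n) M12 (t + s • ![0, 1, 1, 0]) + sm (aid n) M13 (t + s • ![0, 1, 1, 0])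
      + sm (aid n) M12 (t + s • ![1, 0, 1, 0]) + sm (aid n) M23 (t + s • ![1, 0, 1, 0]))
      - 2 * (sm (aid n) C t - sm (aid n) M12 t - sm (aid n) M23 t - sm (aid n) M13 t)
      - (-(M23 (t + s • ![1, 1, 0, 0]) + M13 (t + s • ![1, 1, 0, 0])
      + M12 (t + s • ![0, 1, 1, 0]) + M13 (t + s • ![0, 1, 1, 0])
      + M12 (t + s • ![1, 0, 1, 0]) + M23 (t + s • ![1, 0, 1, 0]))
      - 2 * (C t - M12 t - M23 t - M13 t))
      = -(sm (aid n) M23 (t + s • ![1, 1, 0, 0]) - M23 (t + s • ![1, 1, 0, 0]))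
      - (sm (aid n) M13 (t + s • ![1, 1, 0, 0]) - M13 (t + s • ![1, 1, 0, 0]))
      - (sm (aid n) M12 (t + s • ![0, 1, 1, 0]) - M12 (t + s • ![0, 1, 1, 0]))
      - (sm (aid n) M13 (t + s • ![0, 1, 1, 0]) - M13 (t + s • ![0, 1, 1, 0]))
      - (sm (aid n) M12 (t + s • ![1, 0, 1, 0]) - M12 (t + s • ![1, 0, 1, 0]))
      - (sm (aid n) M23 (t + s • ![1, 0, 1, 0]) - M23 (t + s • ![1, 0, 1, 0]))
      - (sm (aid n) C t - C t) - (sm (aid n) C t - C t)
      + (sm (aid n) M12 t - M12 t) + (sm (aid n) M12 t - M12 t)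
      + (sm (aid n) M23 t - M23 t) + (sm (aid n) M23 t - M23 t)
      + (sm (aid n) M13 t - M13 t) + (sm (aid n) M13 t - M13 t) := by ring
  rw [e]
  refine (norm_add_le _ _).trans ?_
  have b1 := norm_add_le (-(sm (aid n) M23 (t + s • ![1, 1, 0, 0]) - M23 (t + s • ![1, 1, 0, 0]))
      - (sm (aid n) M13 (t + s • ![1, 1, 0, 0]) - M13 (t + s • ![1, 1, 0, 0]))
      - (sm (aid n) M12 (t + s • ![0, 1, 1, 0]) - M12 (t + s • ![0, 1, 1, 0]))
      - (sm (aid n) M13 (t + s • ![0, 1, 1, 0]) - M13 (t + s • ![0, 1, 1, 0]))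
      - (sm (aid n) M12 (t + s • ![1, 0, 1, 0]) - M12 (t + s • ![1, 0, 1, 0]))
      - (sm (aid n) M23 (t + s • ![1, 0, 1, 0]) - M23 (t + s • ![1, 0, 1, 0]))
      - (sm (aid n) C t - C t) - (sm (aid n) C t - C t)
      + (sm (aid n) M12 t - M12 t) + (sm (aid n) M12 t - M12 t)
      + (sm (aid n) M23 t - M23 t) + (sm (aid n) M23 t - M23 t)) (sm (aid n) M13 t - M13 t)
  have b2 := norm_add_le (-(sm (aid n) M23 (t + s • ![1, 1, 0, 0]) - M23 (t + s • ![1, 1, 0, 0]))
      - (sm (aid n) M13 (t + s • ![1, 1, 0, 0]) - M13 (t + s • ![1, 1, 0, 0]))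
      - (sm (aid n) M12 (t + s • ![0, 1, 1, 0]) - M12 (t + s • ![0, 1, 1, 0]))
      - (sm (aid n) M13 (t + s • ![0, 1, 1, 0]) - M13 (t + s • ![0, 1, 1, 0]))
      - (sm (aid n) M12 (t + s • ![1, 0, 1, 0]) - M12 (t + s • ![1, 0, 1, 0]))
      - (sm (aid n) M23 (t + s • ![1, 0, 1, 0]) - M23 (t + s • ![1, 0, 1, 0]))
      - (sm (aid n) C t - C t) - (sm (aid n) C t - C t)
      + (sm (aid n) M12 t - M12 t) + (sm (aid n) M12 t - M12 t)
      + (sm (aid n) M23 t - M23 t)) (sm (aid n) M23 t - M23 t)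
  have b3 := norm_add_le (-(sm (aid n) M23 (t + s • ![1, 1, 0, 0]) - M23 (t + s • ![1, 1, 0, 0]))
      - (sm (aid n) M13 (t + s • ![1, 1, 0, 0]) - M13 (t + s • ![1, 1, 0, 0]))
      - (sm (aid n) M12 (t + s • ![0, 1, 1, 0]) - M12 (t + s • ![0, 1, 1, 0]))
      - (sm (aid n) M13 (t + s • ![0, 1, 1, 0]) - M13 (t + s • ![0, 1, 1, 0]))
      - (sm (aid n) M12 (t + s • ![1, 0, 1, 0]) - M12 (t + s • ![1, 0, 1, 0]))
      - (sm (aid n) M23 (t + s • ![1, 0, 1, 0]) - M23 (t + s • ![1, 0, 1, 0]))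
      - (sm (aid n) C t - C t) - (sm (aid n) C t - C t)
      + (sm (aid n) M12 t - M12 t) + (sm (aid n) M12 t - M12 t)) (sm (aid n) M23 t - M23 t)
  have b4 := norm_add_le (-(sm (aid n) M23 (t + s • ![1, 1, 0, 0]) - M23 (t + s • ![1, 1, 0, 0]))
      - (sm (aid n) M13 (t + s • ![1, 1, 0, 0]) - M13 (t + s • ![1, 1, 0, 0]))
      - (sm (aid n) M12 (t + s • ![0, 1, 1, 0]) - M12 (t + s • ![0, 1, 1, 0]))
      - (sm (aid n) M13 (t + s • ![0, 1, 1, 0]) - M13 (t + s • ![0, 1, 1, 0]))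
      - (sm (aid n) M12 (t + s • ![1, 0, 1, 0]) - M12 (t + s • ![1, 0, 1, 0]))
      - (sm (aid n) M23 (t + s • ![1, 0, 1, 0]) - M23 (t + s • ![1, 0, 1, 0]))
      - (sm (aid n) C t - C t) - (sm (aid n) C t - C t)
      + (sm (aid n) M12 t - M12 t)) (sm (aid n) M12 t - M12 t)
  have b5 := norm_add_le (-(sm (aid n) M23 (t + s • ![1, 1, 0, 0]) - M23 (t + s • ![1, 1, 0, 0]))
      - (sm (aid n) M13 (t + s • ![1, 1, 0, 0]) - M13 (t + s • ![1, 1, 0, 0]))
      - (sm (aid n) M12 (t + s • ![0, 1, 1, 0]) - M12 (t + s • ![0, 1, 1, 0]))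
      - (sm (aid n) M13 (t + s • ![0, 1, 1, 0]) - M13 (t + s • ![0, 1, 1, 0]))
      - (sm (aid n) M12 (t + s • ![1, 0, 1, 0]) - M12 (t + s • ![1, 0, 1, 0]))
      - (sm (aid n) M23 (t + s • ![1, 0, 1, 0]) - M23 (t + s • ![1, 0, 1, 0]))
      - (sm (aid n) C t - C t) - (sm (aid n) C t - C t)) (sm (aid n) M12 t - M12 t)
  have b6 := norm_sub_le (-(sm (aid n) M23 (t + s • ![1, 1, 0, 0]) - M23 (t + s • ![1, 1, 0, 0]))
      - (sm (aid n) M13 (t + s • ![1, 1, 0, 0]) - M13 (t + s • ![1, 1, 0, 0]))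
      - (sm (aid n) M12 (t + s • ![0, 1, 1, 0]) - M12 (t + s • ![0, 1, 1, 0]))
      - (sm (aid n) M13 (t + s • ![0, 1, 1, 0]) - M13 (t + s • ![0, 1, 1, 0]))
      - (sm (aid n) M12 (t + s • ![1, 0, 1, 0]) - M12 (t + s • ![1, 0, 1, 0]))
      - (sm (aid n) M23 (t + s • ![1, 0, 1, 0]) - M23 (t + s • ![1, 0, 1, 0]))
      - (sm (aid n) C t - C t)) (sm (aid n) C t - C t)
  have b7 := norm_sub_le (-(sm (aid n) M23 (t + s • ![1, 1, 0, 0]) - M23 (t + s • ![1, 1, 0, 0]))
      - (sm (aid n) M13 (t + s • ![1, 1, 0, 0]) - M13 (t + s • ![1, 1, 0, 0]))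
      - (sm (aid n) M12 (t + s • ![0, 1, 1, 0]) - M12 (t + s • ![0, 1, 1, 0]))
      - (sm (aid n) M13 (t + s • ![0, 1, 1, 0]) - M13 (t + s • ![0, 1, 1, 0]))
      - (sm (aid n) M12 (t + s • ![1, 0, 1, 0]) - M12 (t + s • ![1, 0, 1, 0]))
      - (sm (aid n) M23 (t + s • ![1, 0, 1, 0]) - M23 (t + s • ![1, 0, 1, 0])))
      (sm (aid n) C t - C t)
  have b8 := norm_sub_le (-(sm (aid n) M23 (t + s • ![1, 1, 0, 0]) - M23 (t + s • ![1, 1, 0, 0]))
      - (sm (aid n) M13 (t + s • ![1, 1, 0, 0]) - M13 (t + s • ![1, 1, 0, 0]))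
      - (sm (aid n) M12 (t + s • ![0, 1, 1, 0]) - M12 (t + s • ![0, 1, 1, 0]))
      - (sm (aid n) M13 (t + s • ![0, 1, 1, 0]) - M13 (t + s • ![0, 1, 1, 0]))
      - (sm (aid n) M12 (t + s • ![1, 0, 1, 0]) - M12 (t + s • ![1, 0, 1, 0])))
      (sm (aid n) M23 (t + s • ![1, 0, 1, 0]) - M23 (t + s • ![1, 0, 1, 0]))
  have b9 := norm_sub_le (-(sm (aid n) M23 (t + s • ![1, 1, 0, 0]) - M23 (t + s • ![1, 1, 0, 0]))
      - (sm (aid n) M13 (t + s • ![1, 1, 0, 0]) - M13 (t + s • ![1, 1, 0, 0]))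
      - (sm (aid n) M12 (t + s • ![0, 1, 1, 0]) - M12 (t + s • ![0, 1, 1, 0]))
      - (sm (aid n) M13 (t + s • ![0, 1, 1, 0]) - M13 (t + s • ![0, 1, 1, 0])))
      (sm (aid n) M12 (t + s • ![1, 0, 1, 0]) - M12 (t + s • ![1, 0, 1, 0]))
  have b10 := norm_sub_le (-(sm (aid n) M23 (t + s • ![1, 1, 0, 0]) - M23 (t + s • ![1, 1, 0, 0]))
      - (sm (aid n) M13 (t + s • ![1, 1, 0, 0]) - M13 (t + s • ![1, 1, 0, 0]))
      - (sm (aid n) M12 (t + s • ![0, 1, 1, 0]) - M12 (t + s • ![0, 1, 1, 0])))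
      (sm (aid n) M13 (t + s • ![0, 1, 1, 0]) - M13 (t + s • ![0, 1, 1, 0]))
  have b11 := norm_sub_le (-(sm (aid n) M23 (t + s • ![1, 1, 0, 0]) - M23 (t + s • ![1, 1, 0, 0]))
      - (sm (aid n) M13 (t + s • ![1, 1, 0, 0]) - M13 (t + s • ![1, 1, 0, 0])))
      (sm (aid n) M12 (t + s • ![0, 1, 1, 0]) - M12 (t + s • ![0, 1, 1, 0]))
  have b12 := norm_sub_le (-(sm (aid n) M23 (t + s • ![1, 1, 0, 0]) - M23 (t + s • ![1, 1, 0, 0])))
      (sm (aid n) M13 (t + s • ![1, 1, 0, 0]) - M13 (t + s • ![1, 1, 0, 0]))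
  rw [norm_neg] at b12
  linarith

end

end Berry


end

section

/-!
Pair processes: an abstract form of `(x, y) ↦ F(x) F(y)`.
-/

open Complex Filter Topology MeasureTheory Metric
open scoped ENNReal NNReal InnerProductSpace

namespace Berry

noncomputable section

variable {H : Type*} [NormedAddCommGroup H] [InnerProductSpace ℝ H]

/-- an abstract version of the process `(x, y) ↦ F(x) F(y)` of an invariant monochromatic wave -/
structure PairP (u : ℂ → ℂ → H) : Prop where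
  cont : Continuous (fun p : ℂ × ℂ => u p.1 p.2)
  symm : ∀ x y, u x y = u y x
  symm4 : ∀ x₁ x₂ x₃ x₄, inner ℝ (u x₁ x₂) (u x₃ x₄) = inner ℝ (u x₁ x₃) (u x₂ x₄)
  stat : ∀ x₁ x₂ x₃ x₄ s, inner ℝ (u (x₁ + s) (x₂ + s)) (u (x₃ + s) (x₄ + s))
    = inner ℝ (u x₁ x₂) (u x₃ x₄)
  helm : ∀ x₂ x₃ x₄, WeakHelm (fun x => ((inner ℝ (u x x₂) (u x₃ x₄) : ℝ) : ℂ))

variable {u : ℂ → ℂ → H}

namespace PairP

variable (hu : PairP u)
include hu

lemma cont₂ {α : Type*} [TopologicalSpace α] {f g : α → ℂ} (hf : Continuous f) (hg : Continuous g) :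
    Continuous fun a => u (f a) (g a) := hu.cont.comp (hf.prodMk hg)

lemma norm_shift (x y s : ℂ) : ‖u (x + s) (y + s)‖ = ‖u x y‖ := by
  have h := hu.stat x y x y s
  rw [real_inner_self_eq_norm_sq, real_inner_self_eq_norm_sq] at h
  exact (sq_eq_sq₀ (norm_nonneg _) (norm_nonneg _)).1 h

lemma norm_le (x y : ℂ) : ‖u x y‖ ≤ ‖u 0 0‖ := by
  have h1 : ‖u x y‖ ^ 2 = inner ℝ (u x x) (u y y) := by
    rw [← real_inner_self_eq_norm_sq, hu.symm4 x x y y]
  have hx : ‖u x x‖ = ‖u 0 0‖ := by simpa using hu.norm_shift 0 0 x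
  have hy : ‖u y y‖ = ‖u 0 0‖ := by simpa using hu.norm_shift 0 0 y
  have h2 : ‖u x y‖ ^ 2 ≤ ‖u 0 0‖ ^ 2 := by
    rw [h1]
    refine (real_inner_le_norm _ _).trans ?_
    rw [hx, hy]; exact le_of_eq (by ring)
  exact (sq_le_sq₀ (norm_nonneg _) (norm_nonneg _)).1 h2

/-- second difference -/
lemma norm_w_shift (x y s : ℂ) :
    ‖u (x + s) (x + s) - (2:ℝ) • u (x + s) (y + s) + u (y + s) (y + s)‖
      = ‖u x x - (2:ℝ) • u x y + u y y‖ := by
  have h : ∀ a b : ℂ, inner ℝ (u a a - (2:ℝ) • u a b + u b b) (u a a - (2:ℝ) • u a b + u b b)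
      = inner ℝ (u a a) (u a a) - 4 * inner ℝ (u a a) (u a b) + 2 * inner ℝ (u a a) (u b b)
        + 4 * inner ℝ (u a b) (u a b) - 4 * inner ℝ (u a b) (u b b) + inner ℝ (u b b) (u b b) := by
    intro a b
    simp only [inner_add_left, inner_add_right, inner_sub_left, inner_sub_right,
      inner_smul_left, inner_smul_right]
    rw [real_inner_comm (u a a) (u a b), real_inner_comm (u a a) (u b b),
      real_inner_comm (u a b) (u b b)]
    simp
    ring
  have h2 : ‖u (x + s) (x + s) - (2:ℝ) • u (x + s) (y + s) + u (y + s) (y + s)‖ ^ 2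
      = ‖u x x - (2:ℝ) • u x y + u y y‖ ^ 2 := by
    rw [← real_inner_self_eq_norm_sq, ← real_inner_self_eq_norm_sq, h, h]
    simp only [hu.stat]
  exact (sq_eq_sq₀ (norm_nonneg _) (norm_nonneg _)).1 h2

lemma unif {ε : ℝ} (hε : 0 < ε) : ∃ δ > 0, ∀ x y y', dist y y' < δ → ‖u x y - u x y'‖ ≤ ε := by
  have hc : Continuous fun z => ‖u 0 0 - (2:ℝ) • u 0 z + u z z‖ := by
    exact ((continuous_const.sub ((hu.cont₂ continuous_const continuous_id).const_smul _)).add
      (hu.cont₂ continuous_id continuous_id)).norm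
  have h0 : ‖u 0 0 - (2:ℝ) • u 0 0 + u 0 0‖ = 0 := by
    rw [two_smul]; simp
  have hpos : 0 < ε ^ 2 / (‖u 0 0‖ + 1) := by positivity
  obtain ⟨δ, hδ, h⟩ := Metric.continuous_iff.1 hc 0 _ hpos
  refine ⟨δ, hδ, fun x y y' hyy => ?_⟩
  have h1 : ‖u x y - u x y'‖ ^ 2 = inner ℝ (u x x) (u y y - (2:ℝ) • u y y' + u y' y') := by
    rw [← real_inner_self_eq_norm_sq]
    simp only [inner_add_right, inner_sub_left, inner_sub_right, inner_smul_right]
    rw [hu.symm4 x y x y, hu.symm4 x y x y', hu.symm4 x y' x y, hu.symm4 x y' x y',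
      hu.symm y' y]
    ring
  have h2 : ‖u y y - (2:ℝ) • u y y' + u y' y'‖ = ‖u 0 0 - (2:ℝ) • u 0 (y' - y) + u (y' - y) (y' - y)‖ := by
    have := hu.norm_w_shift 0 (y' - y) y
    simpa using this
  have h3 := h (y' - y) (by rw [dist_zero_right, ← dist_eq_norm, dist_comm]; exact hyy)
  rw [h0, dist_zero_right, Real.norm_of_nonneg (norm_nonneg _)] at h3
  have hx : ‖u x x‖ = ‖u 0 0‖ := by simpa using hu.norm_shift 0 0 x
  have h4 : ‖u x y - u x y'‖ ^ 2 ≤ ε ^ 2 := by
    rw [h1]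
    refine (real_inner_le_norm _ _).trans ?_
    rw [hx, h2]
    calc ‖u 0 0‖ * ‖u 0 0 - (2:ℝ) • u 0 (y' - y) + u (y' - y) (y' - y)‖
        ≤ ‖u 0 0‖ * (ε ^ 2 / (‖u 0 0‖ + 1)) := by gcongr
      _ ≤ ε ^ 2 := by
          rw [mul_div_assoc', div_le_iff₀ (by positivity)]
          linarith only [sq_nonneg ε]
  exact (sq_le_sq₀ (norm_nonneg _) hε.le).1 h4

variable [CompleteSpace H]

/-- the random covariance -/
def cov (a : ℂ) : H :=
  (metR (u := fun s => u s (a + s)) (hu.cont₂ continuous_id (continuous_const.add continuous_id))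
    (fun s s' r => by
      have := hu.stat s (a + s) s' (a + s') r
      rw [add_assoc, add_assoc] at this
      exact this)).choose

lemma tendsto_cov (a : ℂ) : Tendsto (fun R : ℝ => ⨍ s in ball (0:ℂ) R, u s (a + s)) atTop
    (𝓝 (hu.cov a)) :=
  (metR (u := fun s => u s (a + s)) (hu.cont₂ continuous_id (continuous_const.add continuous_id))
    (fun s s' r => by
      have := hu.stat s (a + s) s' (a + s') r
      rw [add_assoc, add_assoc] at this
      exact this)).choose_spec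

lemma tendsto_cov_shift (x y : ℂ) : Tendsto (fun R : ℝ => ⨍ s in ball (0:ℂ) R, u (x + s) (y + s))
    atTop (𝓝 (hu.cov (y - x))) := by
  have hc : Continuous fun s => u s (y - x + s) :=
    hu.cont₂ continuous_id (continuous_const.add continuous_id)
  have h1 := (avg_shiftE hc (C := ‖u 0 0‖) (fun s => hu.norm_le _ _) x).add
    (hu.tendsto_cov (y - x))
  simp only [sub_add_cancel, zero_add] at h1
  refine h1.congr fun R => ?_
  congr 1
  funext s
  congr 1; ring

lemma cov_neg (a : ℂ) : hu.cov (-a) = hu.cov a := by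
  have h1 := hu.tendsto_cov_shift a 0
  have h2 := hu.tendsto_cov_shift 0 a
  rw [zero_sub] at h1
  rw [sub_zero] at h2
  refine tendsto_nhds_unique h1 (h2.congr fun R => ?_)
  congr 1
  funext s
  exact hu.symm _ _

lemma cov_sub_comm (a b : ℂ) : hu.cov (a - b) = hu.cov (b - a) := by
  rw [← hu.cov_neg (b - a), neg_sub]

lemma norm_cov_le (a : ℂ) : ‖hu.cov a‖ ≤ ‖u 0 0‖ := by
  refine le_of_tendsto (hu.tendsto_cov a).norm ?_
  filter_upwards [eventually_gt_atTop (0:ℝ)] with R hR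
  exact (avg_norm_le _ R).trans (avg_le_of_le
    (hu.cont₂ continuous_id (continuous_const.add continuous_id)).norm
    (fun s => hu.norm_le _ _) hR)

omit hu in
lemma avg_subE {E : Type*} [NormedAddCommGroup E] [NormedSpace ℝ E] {g h : ℂ → E}
    (hg : Continuous g) (hh : Continuous h) (R : ℝ) :
    (⨍ s in ball (0:ℂ) R, g s) - (⨍ s in ball (0:ℂ) R, h s) = ⨍ s in ball (0:ℂ) R, (g s - h s) := by
  rw [setAverage_eq, setAverage_eq, setAverage_eq, ← smul_sub,
    integral_sub (intOn hg 0 R) (intOn hh 0 R)]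

lemma cov_unif : UniformContinuous hu.cov := by
  rw [Metric.uniformContinuous_iff]
  intro ε hε
  obtain ⟨δ, hδ, h⟩ := hu.unif (ε := ε / 2) (by positivity)
  refine ⟨δ, hδ, fun a b hab => ?_⟩
  rw [dist_eq_norm]
  refine lt_of_le_of_lt ?_ (half_lt_self hε)
  refine le_of_tendsto ((hu.tendsto_cov a).sub (hu.tendsto_cov b)).norm ?_
  filter_upwards [eventually_gt_atTop (0:ℝ)] with R hR
  have hca : Continuous fun s => u s (a + s) :=
    hu.cont₂ continuous_id (continuous_const.add continuous_id)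
  have hcb : Continuous fun s => u s (b + s) :=
    hu.cont₂ continuous_id (continuous_const.add continuous_id)
  rw [avg_subE hca hcb]
  refine (avg_norm_le _ R).trans (avg_le_of_le (hca.sub hcb).norm (fun s => ?_) hR)
  apply h
  simpa using hab

omit hu in
lemma inner_avg {v : ℂ → H} (hv : Continuous v) (w : H) (R : ℝ) :
    inner ℝ (⨍ s in ball (0:ℂ) R, v s) w = ⨍ s in ball (0:ℂ) R, inner ℝ (v s) w := by
  rw [setAverage_eq, setAverage_eq, inner_smul_left, smul_eq_mul]
  congr 1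
  have h1 := integral_inner (𝕜 := ℝ) (intOn hv 0 R) w
  rw [real_inner_comm, ← h1]
  congr 1; funext s; rw [real_inner_comm]

lemma inner_tendsto (x y : ℂ) (w : H) : Tendsto (fun R : ℝ => ⨍ s in ball (0:ℂ) R,
    inner ℝ (u (x + s) (y + s)) w) atTop (𝓝 (inner ℝ (hu.cov (y - x)) w)) := by
  have h1 : Tendsto (fun R : ℝ => inner ℝ (⨍ s in ball (0:ℂ) R, u (x + s) (y + s)) w) atTop
      (𝓝 (inner ℝ (hu.cov (y - x)) w)) := (hu.tendsto_cov_shift x y).inner tendsto_const_nhds
  refine h1.congr fun R => ?_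
  exact inner_avg (v := fun s => u (x + s) (y + s))
    (hu.cont₂ (continuous_const.add continuous_id) (continuous_const.add continuous_id)) w R

/-- `⟨u(x,y), c(b)⟩ = ⟨c(y-x), c(b)⟩` -/
lemma inner_cov (x y b : ℂ) : inner ℝ (u x y) (hu.cov b) = inner ℝ (hu.cov (y - x)) (hu.cov b) := by
  -- the left side does not change under joint shifts
  have h1 : ∀ x y, Tendsto (fun R : ℝ => ⨍ s in ball (0:ℂ) R,
      inner ℝ (u s (b + s)) (u x y)) atTop (𝓝 (inner ℝ (hu.cov b) (u x y))) := by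
    intro x y
    have := hu.inner_tendsto 0 b (u x y)
    simpa using this
  have hshift : ∀ r, inner ℝ (hu.cov b) (u (x + r) (y + r)) = inner ℝ (hu.cov b) (u x y) := by
    intro r
    have hc : Continuous fun s => inner ℝ (u s (b + s)) (u x y) :=
      (hu.cont₂ continuous_id (continuous_const.add continuous_id)).inner continuous_const
    have hb : ∀ s, ‖inner ℝ (u s (b + s)) (u x y)‖ ≤ ‖u 0 0‖ * ‖u 0 0‖ := by
      intro s
      refine (norm_inner_le_norm _ _).trans ?_
      gcongr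
      · exact hu.norm_le _ _
      · exact hu.norm_le _ _
    have h2 := (avg_shiftE hc hb (-r)).add (h1 x y)
    simp only [sub_add_cancel, zero_add] at h2
    refine tendsto_nhds_unique (h1 (x + r) (y + r)) (h2.congr fun R => ?_)
    congr 1
    funext s
    have := hu.stat (-r + s) (b + (-r + s)) x y r
    rw [← this]
    congr 2 <;> ring
  have h2 := hu.inner_tendsto x y (hu.cov b)
  have h3 : Tendsto (fun R : ℝ => ⨍ s in ball (0:ℂ) R,
    inner ℝ (u (x + s) (y + s)) (hu.cov b)) atTop (𝓝 (inner ℝ (u x y) (hu.cov b))) := by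
    refine tendsto_const_nhds.congr' ?_
    filter_upwards [eventually_gt_atTop (0:ℝ)] with R hR
    have : ∀ s, inner ℝ (u (x + s) (y + s)) (hu.cov b) = inner ℝ (u x y) (hu.cov b) := by
      intro s
      rw [real_inner_comm, hshift s, real_inner_comm]
    simp only [this]
    rw [avg_const hR]
  exact tendsto_nhds_unique h3 h2

end PairP

end

end Berry


end

section

/-!
The general four-point formula for pair processes.
-/

open Complex Filter Topology MeasureTheory Metric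
open scoped ENNReal NNReal InnerProductSpace

namespace Berry

noncomputable section

/-- averages of solutions of the Helmholtz equation are solutions -/
lemma WeakHelm.of_avg {A : ℂ → ℂ → ℂ} (hA : Continuous (Function.uncurry A)) {B : ℝ}
    (hB : ∀ s z, ‖A s z‖ ≤ B) (hW : ∀ s, WeakHelm (A s)) {g : ℂ → ℂ} (hg : Continuous g)
    (hlim : ∀ z, Tendsto (fun R : ℝ => ⨍ s in ball (0:ℂ) R, A s z) atTop (𝓝 (g z))) :
    WeakHelm g := by
  have hgB : ∀ z, ‖g z‖ ≤ B := by
    intro z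
    refine le_of_tendsto (hlim z).norm ?_
    filter_upwards [eventually_gt_atTop (0:ℝ)] with R hR
    exact (avg_norm_le _ R).trans (avg_le_of_le
      (hA.comp (continuous_id.prodMk continuous_const)).norm (fun s => hB s z) hR)
  have key : ∀ {η : ℂ → ℂ}, TestFn η → ∀ t, Tendsto (fun R : ℝ => ⨍ s in ball (0:ℂ) R,
      smear η (A s) t) atTop (𝓝 (smear η g t)) ∧ Continuous fun s => smear η (A s) t := by
    intro η hη t
    have hηi : Integrable η := hη.continuous.integrable_of_hasCompactSupport hη.2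
    have hcs : Continuous fun s => smear η (A s) t := by
      unfold smear
      refine continuous_of_dominated (bound := fun y => ‖η y‖ * B) ?_ ?_ (hηi.norm.mul_const B) ?_
      · intro s
        exact (hη.continuous.smul ((hA.comp (continuous_const.prodMk
          (continuous_const.sub continuous_id))))).aestronglyMeasurable
      · intro s
        refine Eventually.of_forall fun y => ?_
        rw [norm_smul]
        exact mul_le_mul_of_nonneg_left (hB _ _) (norm_nonneg _)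
      · refine Eventually.of_forall fun y => ?_
        have h1 : Continuous fun s : ℂ => A s (t - y) :=
          hA.comp (continuous_id.prodMk continuous_const)
        exact h1.const_smul (η y)
    refine ⟨?_, hcs⟩
    have e : (fun s => smear η (A s) t - smear η g t)
        = fun s => ∫ y, η y * (A s (t - y) - g (t - y)) := by
      funext s
      have i1 := smear_integrable (F := A s) hη.continuous hη.2
        (hA.comp (continuous_const.prodMk continuous_id)) t
      have i2 := smear_integrable (F := g) hη.continuous hη.2 hg t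
      rw [smear, smear, ← integral_sub i1 i2]
      congr 1; funext y; simp only [smul_eq_mul]; ring
    have hc : Continuous (fun s => smear η (A s) t - smear η g t) := hcs.sub continuous_const
    have h1 : MZ (fun s => smear η (A s) t - smear η g t) := by
      rw [e] at hc ⊢
      refine MZ.smear (A := fun s y => A s (t - y) - g (t - y)) ?_ (C := 2 * B) ?_ hη hc ?_
      · have h1 : Continuous fun p : ℂ × ℂ => A p.1 (t - p.2) :=
          hA.comp (continuous_fst.prodMk (continuous_const.sub continuous_snd))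
        have h2 : Continuous fun p : ℂ × ℂ => g (t - p.2) :=
          hg.comp (continuous_const.sub continuous_snd)
        exact h1.sub h2
      · intro s y
        refine (norm_sub_le _ _).trans ?_
        linarith [hB s (t - y), hgB (t - y)]
      · intro y
        have h2 := (hlim (t - y)).sub_const (g (t - y))
        rw [sub_self] at h2
        refine h2.congr' ?_
        filter_upwards [eventually_gt_atTop (0:ℝ)] with R hR
        have h3 := avg_add (g := fun s => A s (t - y)) (h := fun _ => -(g (t - y)))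
          (hA.comp (continuous_id.prodMk continuous_const)) continuous_const R
        rw [avg_const hR] at h3
        rw [sub_eq_add_neg, ← h3]
        congr 1
    have h4 := h1.2.add_const (smear η g t)
    rw [zero_add] at h4
    refine h4.congr' ?_
    filter_upwards [eventually_gt_atTop (0:ℝ)] with R hR
    have h5 := avg_add (g := fun s => smear η (A s) t) (h := fun _ => -(smear η g t)) hcs
      continuous_const R
    rw [avg_const hR] at h5
    have h6 : (fun s => smear η (A s) t - smear η g t)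
      = fun s => smear η (A s) t + -(smear η g t) := by funext s; ring
    rw [h6, h5]
    ring
  intro ψ hψ t
  have gen : ∀ {η : ℂ → ℂ}, TestFn η → (∀ s, smear η (A s) t = - smear ψ (A s) t) →
      smear η g t = - smear ψ g t := by
    intro η hη h
    have h1 := (key hη t).1
    have h2 := ((key hψ t).1).neg
    refine tendsto_nhds_unique h1 (h2.congr fun R => ?_)
    have h3 := avg_const_mul (-1) (fun s => smear ψ (A s) t) R
    simp only [neg_mul, one_mul] at h3
    rw [← h3]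
    congr 1; funext s; exact (h s).symm
  exact ⟨gen hψ.vop.wop (fun s => (hW s ψ hψ t).1), gen hψ.wop.vop (fun s => (hW s ψ hψ t).2)⟩

variable {H : Type*} [NormedAddCommGroup H] [InnerProductSpace ℝ H] [CompleteSpace H]
variable {u : ℂ → ℂ → H}

namespace PairP

variable (hu : PairP u)
include hu

/-- covariance of the random covariances -/
def cc (a b : ℂ) : ℂ := ((inner ℝ (hu.cov a) (hu.cov b) : ℝ) : ℂ)

lemma cc_comm (a b : ℂ) : hu.cc a b = hu.cc b a := by
  unfold cc; rw [real_inner_comm]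

lemma cc_sub_left (a b q : ℂ) : hu.cc (a - b) q = hu.cc (b - a) q := by
  unfold cc; rw [hu.cov_sub_comm]

lemma cc_sub_right (a b q : ℂ) : hu.cc q (a - b) = hu.cc q (b - a) := by
  unfold cc; rw [hu.cov_sub_comm]

lemma cc_neg_left (a q : ℂ) : hu.cc (-a) q = hu.cc a q := by
  unfold cc; rw [hu.cov_neg]

lemma cc_neg_right (a q : ℂ) : hu.cc q (-a) = hu.cc q a := by
  unfold cc; rw [hu.cov_neg]

lemma cc_bound (a b : ℂ) : ‖hu.cc a b‖ ≤ ‖u 0 0‖ * ‖u 0 0‖ := by
  unfold cc
  rw [Complex.norm_real]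
  refine (norm_inner_le_norm _ _).trans ?_
  gcongr
  · exact hu.norm_cov_le a
  · exact hu.norm_cov_le b

lemma cc_continuous : Continuous fun p : ℂ × ℂ => hu.cc p.1 p.2 := by
  unfold cc
  exact Complex.continuous_ofReal.comp ((hu.cov_unif.continuous.comp continuous_fst).inner
    (hu.cov_unif.continuous.comp continuous_snd))

lemma cc_unif {ε : ℝ} (hε : 0 < ε) : ∃ δ > 0, ∀ a a' b b', dist a a' < δ → dist b b' < δ →
    ‖hu.cc a b - hu.cc a' b'‖ < ε := by
  set K := ‖u 0 0‖ with hK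
  have hK0 : 0 ≤ K := norm_nonneg _
  obtain ⟨δ, hδ, h⟩ := Metric.uniformContinuous_iff.1 hu.cov_unif (ε / (4 * (K + 1)))
    (by positivity)
  refine ⟨δ, hδ, fun a a' b b' ha hb => ?_⟩
  have h1 := h ha
  have h2 := h hb
  rw [dist_eq_norm] at h1 h2
  have e : hu.cc a b - hu.cc a' b' = ((inner ℝ (hu.cov a - hu.cov a') (hu.cov b)
      + inner ℝ (hu.cov a') (hu.cov b - hu.cov b') : ℝ) : ℂ) := by
    unfold cc
    rw [inner_sub_left, inner_sub_right]; push_cast; ring
  rw [e, Complex.norm_real]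
  refine lt_of_le_of_lt (norm_add_le _ _) ?_
  have h3 : ‖inner ℝ (hu.cov a - hu.cov a') (hu.cov b)‖ ≤ (ε / (4 * (K + 1))) * K :=
    (norm_inner_le_norm _ _).trans (mul_le_mul h1.le (hu.norm_cov_le b) (norm_nonneg _)
      (by positivity))
  have h4 : ‖inner ℝ (hu.cov a') (hu.cov b - hu.cov b')‖ ≤ K * (ε / (4 * (K + 1))) :=
    (norm_inner_le_norm _ _).trans (mul_le_mul (hu.norm_cov_le a') h2.le (norm_nonneg _) hK0)
  have h5 : (ε / (4 * (K + 1))) * K ≤ ε / 4 := by
    rw [div_mul_eq_mul_div, div_le_div_iff₀ (by positivity) (by norm_num)]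
    linarith only [hε]
  linarith

lemma cc_helm (p q : ℂ) : WeakHelm (fun z => hu.cc (p - z) q) := by
  refine WeakHelm.of_avg (A := fun s z => ((inner ℝ (u z p) (u s (q + s)) : ℝ) : ℂ)) ?_
    (B := ‖u 0 0‖ * ‖u 0 0‖) ?_ (fun s => hu.helm p s (q + s)) ?_ ?_
  · exact Complex.continuous_ofReal.comp ((hu.cont₂ continuous_snd continuous_const).inner
      (hu.cont₂ continuous_fst (continuous_const.add continuous_fst)))
  · intro s z
    rw [Complex.norm_real]
    refine (norm_inner_le_norm _ _).trans ?_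
    gcongr
    · exact hu.norm_le _ _
    · exact hu.norm_le _ _
  · have h1 : Continuous fun z : ℂ => ((p - z, q) : ℂ × ℂ) := by fun_prop
    have h2 := hu.cc_continuous.comp h1
    exact h2
  · intro z
    have h1 := hu.inner_tendsto 0 q (u z p)
    simp only [sub_zero, zero_add] at h1
    rw [real_inner_comm, hu.inner_cov z p q] at h1
    have h2 := (Complex.continuous_ofReal.tendsto _).comp h1
    refine h2.congr fun R => ?_
    simp only [Function.comp]
    rw [setAverage_eq, setAverage_eq, real_smul, smul_eq_mul, Complex.ofReal_mul,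
      ← integral_complex_ofReal]
    congr 1
    congr 1
    funext s
    rw [real_inner_comm]

lemma cc_helm' (p q : ℂ) : WeakHelm (fun z => hu.cc (z - p) q) := by
  have := hu.cc_helm p q
  have e : (fun z => hu.cc (z - p) q) = fun z => hu.cc (p - z) q := by
    funext z; exact hu.cc_sub_left _ _ _
  rw [e]; exact this

lemma cc_helm_r (p q : ℂ) : WeakHelm (fun z => hu.cc q (p - z)) := by
  have e : (fun z => hu.cc q (p - z)) = fun z => hu.cc (p - z) q := by
    funext z; exact hu.cc_comm _ _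
  rw [e]; exact hu.cc_helm p q

lemma cc_helm_r' (p q : ℂ) : WeakHelm (fun z => hu.cc q (z - p)) := by
  have e : (fun z => hu.cc q (z - p)) = fun z => hu.cc (z - p) q := by
    funext z; exact hu.cc_comm _ _
  rw [e]; exact hu.cc_helm' p q

/-- the four-point function -/
def C4f (_hu : PairP u) (x : Fin 4 → ℂ) : ℂ := ((inner ℝ (u (x 0) (x 1)) (u (x 2) (x 3)) : ℝ) : ℂ)

/-- the pairings -/
def P12 (x : Fin 4 → ℂ) : ℂ := hu.cc (x 1 - x 0) (x 3 - x 2)
def P23 (x : Fin 4 → ℂ) : ℂ := hu.cc (x 2 - x 1) (x 3 - x 0)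
def P13 (x : Fin 4 → ℂ) : ℂ := hu.cc (x 2 - x 0) (x 3 - x 1)

omit [CompleteSpace H] in
lemma C4f_hel : Hel4 (hu.C4f) where
  cont := Complex.continuous_ofReal.comp
    ((hu.cont₂ (continuous_apply 0) (continuous_apply 1)).inner
      (hu.cont₂ (continuous_apply 2) (continuous_apply 3)))
  bdd := by
    refine ⟨‖u 0 0‖ * ‖u 0 0‖, fun x => ?_⟩
    unfold C4f
    rw [Complex.norm_real]
    refine (norm_inner_le_norm _ _).trans ?_
    gcongr
    · exact hu.norm_le _ _
    · exact hu.norm_le _ _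
  helm := by
    intro j x
    fin_cases j
    · have := hu.helm (x 1) (x 2) (x 3)
      simpa [C4f, Function.update] using this
    · have := hu.helm (x 0) (x 2) (x 3)
      simp only [hu.symm _ (x 0)] at this
      simpa [C4f, Function.update] using this
    · have := hu.helm (x 3) (x 0) (x 1)
      simp only [real_inner_comm (u (x 0) (x 1))] at this
      simpa [C4f, Function.update] using this
    · have := hu.helm (x 2) (x 0) (x 1)
      simp only [real_inner_comm (u (x 0) (x 1)), hu.symm _ (x 2)] at this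
      simpa [C4f, Function.update] using this

lemma P12_hel : Hel4 (hu.P12) where
  cont := by
    have h1 : Continuous fun x : Fin 4 → ℂ => ((x 1 - x 0, x 3 - x 2) : ℂ × ℂ) := by fun_prop
    have h2 := hu.cc_continuous.comp h1
    exact h2
  bdd := ⟨_, fun x => hu.cc_bound _ _⟩
  helm := by
    intro j x
    fin_cases j
    · simpa [P12, Function.update] using hu.cc_helm (x 1) (x 3 - x 2)
    · simpa [P12, Function.update] using hu.cc_helm' (x 0) (x 3 - x 2)
    · simpa [P12, Function.update] using hu.cc_helm_r (x 3) (x 1 - x 0)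
    · simpa [P12, Function.update] using hu.cc_helm_r' (x 2) (x 1 - x 0)

lemma P23_hel : Hel4 (hu.P23) where
  cont := by
    have h1 : Continuous fun x : Fin 4 → ℂ => ((x 2 - x 1, x 3 - x 0) : ℂ × ℂ) := by fun_prop
    have h2 := hu.cc_continuous.comp h1
    exact h2
  bdd := ⟨_, fun x => hu.cc_bound _ _⟩
  helm := by
    intro j x
    fin_cases j
    · simpa [P23, Function.update] using hu.cc_helm_r (x 3) (x 2 - x 1)
    · simpa [P23, Function.update] using hu.cc_helm (x 2) (x 3 - x 0)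
    · simpa [P23, Function.update] using hu.cc_helm' (x 1) (x 3 - x 0)
    · simpa [P23, Function.update] using hu.cc_helm_r' (x 0) (x 2 - x 1)

lemma P13_hel : Hel4 (hu.P13) where
  cont := by
    have h1 : Continuous fun x : Fin 4 → ℂ => ((x 2 - x 0, x 3 - x 1) : ℂ × ℂ) := by fun_prop
    have h2 := hu.cc_continuous.comp h1
    exact h2
  bdd := ⟨_, fun x => hu.cc_bound _ _⟩
  helm := by
    intro j x
    fin_cases j
    · simpa [P13, Function.update] using hu.cc_helm (x 2) (x 3 - x 1)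
    · simpa [P13, Function.update] using hu.cc_helm_r (x 3) (x 2 - x 0)
    · simpa [P13, Function.update] using hu.cc_helm' (x 0) (x 3 - x 1)
    · simpa [P13, Function.update] using hu.cc_helm_r' (x 1) (x 2 - x 0)

omit hu [CompleteSpace H] in
lemma dist_sub_lt {x x' : Fin 4 → ℂ} {δ : ℝ} (h : dist x x' < δ / 2) (i j : Fin 4) :
    dist (x i - x j) (x' i - x' j) < δ := by
  have h1 : dist (x i) (x' i) ≤ dist x x' := dist_le_pi_dist x x' i
  have h2 : dist (x j) (x' j) ≤ dist x x' := dist_le_pi_dist x x' j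
  have h3 := dist_sub_sub_le (x i) (x j) (x' i) (x' j)
  linarith

lemma cc_unif4 (i j k l : Fin 4) :
    UniformContinuous fun x : Fin 4 → ℂ => hu.cc (x i - x j) (x k - x l) := by
  rw [Metric.uniformContinuous_iff]
  intro ε hε
  obtain ⟨δ, hδ, h⟩ := hu.cc_unif hε
  refine ⟨δ / 2, by positivity, fun x x' hx => ?_⟩
  rw [dist_eq_norm]
  exact h _ _ _ _ (dist_sub_lt hx i j) (dist_sub_lt hx k l)

end PairP

end

end Berry


end

section

/-!
The general four-point formula for pair processes: conclusion.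
-/

open Complex Filter Topology MeasureTheory Metric
open scoped ENNReal NNReal InnerProductSpace

namespace Berry

noncomputable section

/-- average of a real function, as a complex number -/
lemma avg_ofReal (f : ℂ → ℝ) (R : ℝ) :
    (⨍ s in ball (0:ℂ) R, ((f s : ℝ) : ℂ)) = ((⨍ s in ball (0:ℂ) R, f s : ℝ) : ℂ) := by
  rw [setAverage_eq, setAverage_eq, real_smul, smul_eq_mul, Complex.ofReal_mul,
      ← integral_complex_ofReal]

/-- convergence of averages of shifted functions minus a constant -/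
lemma avg_sub_const {f : ℂ → ℂ} (hf : Continuous f) {k : ℂ}
    (h : Tendsto (fun R : ℝ => ⨍ s in ball (0:ℂ) R, f s) atTop (𝓝 k)) :
    Tendsto (fun R : ℝ => ⨍ s in ball (0:ℂ) R, (f s - k)) atTop (𝓝 0) := by
  have h1 := h.sub_const k
  rw [sub_self] at h1
  refine h1.congr' ?_
  filter_upwards [eventually_gt_atTop (0:ℝ)] with R hR
  have h3 := avg_add (g := f) (h := fun _ => -k) hf continuous_const R
  rw [avg_const hR] at h3
  rw [sub_eq_add_neg, ← h3]
  congr 1

variable {H : Type*} [NormedAddCommGroup H] [InnerProductSpace ℝ H] [CompleteSpace H]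
variable {u : ℂ → ℂ → H}

namespace PairP

variable (hu : PairP u)
include hu

lemma C4f_shift (x : Fin 4 → ℂ) (s : ℂ) : hu.C4f (x + s • ![1, 1, 1, 1]) = hu.C4f x := by
  have := hu.stat (x 0) (x 1) (x 2) (x 3) s
  simp [C4f, this]

lemma P12_shift (x : Fin 4 → ℂ) (s : ℂ) : hu.P12 (x + s • ![1, 1, 0, 0]) = hu.P12 x := by
  simp [P12]

lemma P23_shift (x : Fin 4 → ℂ) (s : ℂ) : hu.P23 (x + s • ![0, 1, 1, 0]) = hu.P23 x := by
  simp [P23]

lemma P13_shift (x : Fin 4 → ℂ) (s : ℂ) : hu.P13 (x + s • ![1, 0, 1, 0]) = hu.P13 x := by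
  simp [P13]

/-- averages of the four-point function over joint shifts of two points -/
lemma avg_pair (x₁ x₂ x₃ x₄ : ℂ) : Tendsto (fun R : ℝ => ⨍ s in ball (0:ℂ) R,
    (((inner ℝ (u (x₁ + s) (x₂ + s)) (u x₃ x₄) : ℝ) : ℂ) - hu.cc (x₂ - x₁) (x₄ - x₃))) atTop
    (𝓝 0) := by
  apply avg_sub_const
  · exact Complex.continuous_ofReal.comp ((hu.cont₂ (continuous_const.add continuous_id)
      (continuous_const.add continuous_id)).inner continuous_const)
  · have h1 := hu.inner_tendsto x₁ x₂ (u x₃ x₄)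
    rw [real_inner_comm, hu.inner_cov x₃ x₄ (x₂ - x₁), real_inner_comm] at h1
    have h2 := (Complex.continuous_ofReal.tendsto _).comp h1
    refine h2.congr fun R => ?_
    simp only [Function.comp]
    rw [avg_ofReal]

lemma z12 (x : Fin 4 → ℂ) : Tendsto (fun R : ℝ => ⨍ s in ball (0:ℂ) R,
      (hu.C4f (x + s • ![1, 1, 0, 0]) - hu.P12 (x + s • ![1, 1, 0, 0]))) atTop (𝓝 0) := by
  refine (hu.avg_pair (x 0) (x 1) (x 2) (x 3)).congr fun R => ?_
  congr 1; funext s
  rw [hu.P12_shift]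
  simp [C4f, P12]

lemma z23 (x : Fin 4 → ℂ) : Tendsto (fun R : ℝ => ⨍ s in ball (0:ℂ) R,
      (hu.C4f (x + s • ![0, 1, 1, 0]) - hu.P23 (x + s • ![0, 1, 1, 0]))) atTop (𝓝 0) := by
  refine (hu.avg_pair (x 1) (x 2) (x 0) (x 3)).congr fun R => ?_
  congr 1; funext s
  rw [hu.P23_shift]
  have e : inner ℝ (u (x 0) (x 1 + s)) (u (x 2 + s) (x 3))
      = inner ℝ (u (x 1 + s) (x 2 + s)) (u (x 0) (x 3)) := by
    rw [hu.symm (x 0) (x 1 + s), hu.symm4]
  simp [C4f, P23, e]

lemma z13 (x : Fin 4 → ℂ) : Tendsto (fun R : ℝ => ⨍ s in ball (0:ℂ) R,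
      (hu.C4f (x + s • ![1, 0, 1, 0]) - hu.P13 (x + s • ![1, 0, 1, 0]))) atTop (𝓝 0) := by
  refine (hu.avg_pair (x 0) (x 2) (x 1) (x 3)).congr fun R => ?_
  congr 1; funext s
  rw [hu.P13_shift]
  have e : inner ℝ (u (x 0 + s) (x 1)) (u (x 2 + s) (x 3))
      = inner ℝ (u (x 0 + s) (x 2 + s)) (u (x 1) (x 3)) := by
    rw [hu.symm4]
  simp [C4f, P13, e]

theorem identity (t : Fin 4 → ℂ) :
    MZ (fun s => -(hu.P23 (t + s • ![1, 1, 0, 0]) + hu.P13 (t + s • ![1, 1, 0, 0])
      + hu.P12 (t + s • ![0, 1, 1, 0]) + hu.P13 (t + s • ![0, 1, 1, 0])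
      + hu.P12 (t + s • ![1, 0, 1, 0]) + hu.P23 (t + s • ![1, 0, 1, 0]))
      - 2 * (hu.C4f t - hu.P12 t - hu.P23 t - hu.P13 t)) :=
  four_general hu.C4f_hel hu.P12_hel hu.P23_hel hu.P13_hel (hu.cc_unif4 1 0 3 2)
    (hu.cc_unif4 2 1 3 0) (hu.cc_unif4 2 0 3 1) hu.C4f_shift hu.P12_shift hu.P23_shift
    hu.P13_shift hu.z12 hu.z23 hu.z13 t

/-- the function `s ↦ ⟨c(s), c(s+y)⟩` -/
def gg (y s : ℂ) : ℂ := hu.cc s (s + y)

lemma gg_continuous (y : ℂ) : Continuous (hu.gg y) := by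
  have h1 : Continuous fun s : ℂ => ((s, s + y) : ℂ × ℂ) := by fun_prop
  have h2 := hu.cc_continuous.comp h1
  exact h2

lemma gg_bound (y s : ℂ) : ‖hu.gg y s‖ ≤ ‖u 0 0‖ * ‖u 0 0‖ := hu.cc_bound _ _

/-- shifted averages of `gg` -/
lemma gg_shift {y k : ℂ}
    (h : Tendsto (fun R : ℝ => ⨍ s in ball (0:ℂ) R, hu.gg y s) atTop (𝓝 k)) (x : ℂ) :
    Tendsto (fun R : ℝ => ⨍ s in ball (0:ℂ) R, hu.gg y (x + s)) atTop (𝓝 k) := by
  have := (avg_shift (hu.gg_continuous y) (hu.gg_bound y) x).add h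
  simpa using this

lemma gg_mz {y k : ℂ}
    (h : Tendsto (fun R : ℝ => ⨍ s in ball (0:ℂ) R, hu.gg y s) atTop (𝓝 k)) (x : ℂ) :
    MZ (fun s => hu.gg y (x + s) - k) :=
  ⟨((hu.gg_continuous y).comp (continuous_const.add continuous_id)).sub continuous_const,
    avg_sub_const ((hu.gg_continuous y).comp (continuous_const.add continuous_id))
      (hu.gg_shift h x)⟩

/-- the cubic correction `h(y) = lim ⨍ ⟨c(s), c(s+y)⟩ ds` exists -/
lemma exists_h (y : ℂ) : Tendsto (fun R : ℝ => ⨍ s in ball (0:ℂ) R, hu.gg y s) atTop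
    (𝓝 (-(1/3) * (hu.C4f ![y, 0, 0, 0] - 3 * hu.cc y 0))) := by
  set t : Fin 4 → ℂ := ![y, 0, 0, 0] with ht
  set D := hu.C4f t - 3 * hu.cc y 0 with hD
  have h1 := hu.identity t
  have e1 : ∀ s : ℂ, hu.P23 (t + s • ![1, 1, 0, 0]) = hu.gg y s := by
    intro s
    have : hu.P23 (t + s • ![1, 1, 0, 0]) = hu.cc (0 - s) (0 - (y + s)) := by
      simp [P23, ht]
    rw [this, hu.cc_sub_left, hu.cc_sub_right, sub_zero, sub_zero, add_comm y]; rfl
  have e2 : ∀ s : ℂ, hu.P13 (t + s • ![1, 1, 0, 0]) = hu.gg y s := by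
    intro s
    have : hu.P13 (t + s • ![1, 1, 0, 0]) = hu.cc (0 - (y + s)) (0 - s) := by
      simp [P13, ht]
    rw [this, hu.cc_sub_left, hu.cc_sub_right, sub_zero, sub_zero, add_comm y, hu.cc_comm]; rfl
  have e3 : ∀ s : ℂ, hu.P12 (t + s • ![0, 1, 1, 0]) = hu.gg y (-y + s) := by
    intro s
    have : hu.P12 (t + s • ![0, 1, 1, 0]) = hu.cc (s - y) (0 - s) := by
      simp [P12, ht]
    rw [this, hu.cc_sub_right, sub_zero]
    unfold gg
    congr 1 <;> ring
  have e4 : ∀ s : ℂ, hu.P13 (t + s • ![0, 1, 1, 0]) = hu.gg y (-y + s) := by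
    intro s
    have : hu.P13 (t + s • ![0, 1, 1, 0]) = hu.cc (s - y) (0 - s) := by
      simp [P13, ht]
    rw [this, hu.cc_sub_right, sub_zero]
    unfold gg
    congr 1 <;> ring
  have e5 : ∀ s : ℂ, hu.P12 (t + s • ![1, 0, 1, 0]) = hu.gg y s := by
    intro s
    have : hu.P12 (t + s • ![1, 0, 1, 0]) = hu.cc (0 - (y + s)) (0 - s) := by
      simp [P12, ht]
    rw [this, hu.cc_sub_left, hu.cc_sub_right, sub_zero, sub_zero, add_comm y, hu.cc_comm]; rfl
  have e6 : ∀ s : ℂ, hu.P23 (t + s • ![1, 0, 1, 0]) = hu.gg y s := by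
    intro s
    have : hu.P23 (t + s • ![1, 0, 1, 0]) = hu.cc (s - 0) (0 - (y + s)) := by
      simp [P23, ht]
    rw [this, hu.cc_sub_right, sub_zero, sub_zero, add_comm y]; rfl
  have p1 : hu.P12 t = hu.cc y 0 := by
    have : hu.P12 t = hu.cc (0 - y) (0 - 0) := by simp [P12, ht]
    rw [this, hu.cc_sub_left, sub_zero, sub_zero]
  have p2 : hu.P23 t = hu.cc y 0 := by
    have : hu.P23 t = hu.cc (0 - 0) (0 - y) := by simp [P23, ht]
    rw [this, hu.cc_sub_right, sub_zero, sub_zero, hu.cc_comm]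
  have p3 : hu.P13 t = hu.cc y 0 := by
    have : hu.P13 t = hu.cc (0 - y) (0 - 0) := by simp [P13, ht]
    rw [this, hu.cc_sub_left, sub_zero, sub_zero]
  simp only [e1, e2, e3, e4, e5, e6, p1, p2, p3] at h1
  have h2 : (fun s => -(hu.gg y s + hu.gg y s + hu.gg y (-y + s) + hu.gg y (-y + s) + hu.gg y s
      + hu.gg y s) - 2 * (hu.C4f t - hu.cc y 0 - hu.cc y 0 - hu.cc y 0))
      = fun s => (-4) * hu.gg y s + ((-2) * hu.gg y (-y + s) + (-2) * D) := by
    funext s; simp only [hD]; ring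
  rw [h2] at h1
  -- averages
  have hc := hu.gg_continuous y
  have hcs : Continuous fun s => hu.gg y (-y + s) :=
    hc.comp (continuous_const.add continuous_id)
  have h3 : Tendsto (fun R : ℝ => (-6 : ℂ) * (⨍ s in ball (0:ℂ) R, hu.gg y s) + (-2) * D)
      atTop (𝓝 0) := by
    have h4 := (h1.2).sub ((avg_shift hc (hu.gg_bound y) (-y)).const_mul (-2))
    rw [mul_zero, sub_zero] at h4
    refine h4.congr' ?_
    filter_upwards [eventually_gt_atTop (0:ℝ)] with R hR
    have a1 := avg_add (g := fun s => (-4) * hu.gg y s)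
      (h := fun s => (-2) * hu.gg y (-y + s) + (-2) * D) (continuous_const.mul hc)
      ((continuous_const.mul hcs).add continuous_const) R
    have a2 := avg_add (g := fun s => (-2) * hu.gg y (-y + s))
      (h := fun _ => (-2) * D) (continuous_const.mul hcs) continuous_const R
    rw [a2, avg_const hR, avg_const_mul, avg_const_mul] at a1
    rw [a1]; ring
  have h5 := (h3.sub_const ((-2) * D)).const_mul (-(1/6))
  have h6 : (-(1/6) * ((0:ℂ) - (-2) * D)) = -(1/3) * D := by ring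
  rw [h6] at h5
  refine h5.congr fun R => ?_
  ring

/-- **General four-point formula** for pair processes. -/
theorem formula : ∃ h : ℂ → ℂ,
    (∀ y, Tendsto (fun R : ℝ => ⨍ s in ball (0:ℂ) R, hu.gg y s) atTop (𝓝 (h y))) ∧
    ∀ x : Fin 4 → ℂ, hu.C4f x = hu.P12 x + hu.P23 x + hu.P13 x
      - h (x 0 + x 1 - x 2 - x 3) - h (x 0 - x 1 + x 2 - x 3) - h (x 0 - x 1 - x 2 + x 3) := by
  refine ⟨fun y => -(1/3) * (hu.C4f ![y, 0, 0, 0] - 3 * hu.cc y 0), hu.exists_h, fun x => ?_⟩
  set h : ℂ → ℂ := fun y => -(1/3) * (hu.C4f ![y, 0, 0, 0] - 3 * hu.cc y 0) with hh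
  have H1 := hu.identity x
  have neg_h : ∀ y x₀ : ℂ, MZ (fun s => hu.gg y (x₀ - s) - h y) := by
    intro y x₀
    have h1 : Tendsto (fun R : ℝ => ⨍ s in ball (0:ℂ) R, hu.gg y (-s)) atTop (𝓝 (h y)) := by
      refine (hu.exists_h y).congr fun R => ?_
      rw [setAverage_eq, setAverage_eq]
      congr 1
      have := (Measure.measurePreserving_neg (volume : Measure ℂ)).setIntegral_preimage_emb
        (MeasurableEquiv.neg ℂ).measurableEmbedding (hu.gg y) (ball (0:ℂ) R)
      rw [← this]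
      congr 2
      ext s; simp [mem_ball]
    have hc' : Continuous fun s => hu.gg y (-s) := (hu.gg_continuous y).comp continuous_neg
    have h2 := (avg_shift hc' (fun s => hu.gg_bound y (-s)) (-x₀)).add h1
    simp only [sub_add_cancel, zero_add] at h2
    have hc2 : Continuous fun s => hu.gg y (x₀ - s) :=
      (hu.gg_continuous y).comp (continuous_const.sub continuous_id)
    have h3 : (fun s : ℂ => hu.gg y (-(-x₀ + s))) = fun s => hu.gg y (x₀ - s) := by
      funext s; congr 1; ring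
    rw [h3] at h2
    exact ⟨hc2.sub continuous_const, avg_sub_const hc2 h2⟩
  -- the six terms
  set yb := x 0 - x 1 + x 2 - x 3 with hyb
  set yc := x 0 - x 1 - x 2 + x 3 with hyc
  set ya := x 0 + x 1 - x 2 - x 3 with hya
  -- h is even
  have heven : ∀ y, h (-y) = h y := by
    intro y
    have k1 := hu.gg_shift (hu.exists_h (-y)) 0
    have k2 := hu.gg_shift (hu.exists_h y) (-y)
    refine tendsto_nhds_unique k1 (k2.congr fun R => ?_)
    congr 1; funext s
    unfold gg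
    rw [hu.cc_comm]
    congr 1 <;> ring
  have m1 : MZ (fun s => hu.P23 (x + s • ![1, 1, 0, 0]) - h yb) := by
    have := hu.gg_mz (hu.exists_h yb) (x 1 - x 2)
    have e : (fun s => hu.P23 (x + s • ![1, 1, 0, 0]) - h yb)
        = fun s => hu.gg yb (x 1 - x 2 + s) - h yb := by
      funext s
      have e1 : hu.P23 (x + s • ![1, 1, 0, 0]) = hu.cc (x 2 - (x 1 + s)) (x 3 - (x 0 + s)) := by
        simp [P23]
      rw [e1, hu.cc_sub_left, hu.cc_sub_right]
      unfold gg
      rw [hyb]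
      congr 2 <;> ring
    rw [e]; exact this
  have m2 : MZ (fun s => hu.P13 (x + s • ![1, 1, 0, 0]) - h yc) := by
    have := hu.gg_mz (hu.exists_h (-yc)) (x 0 - x 2)
    have e : (fun s => hu.P13 (x + s • ![1, 1, 0, 0]) - h yc)
        = fun s => hu.gg (-yc) (x 0 - x 2 + s) - h (-yc) := by
      funext s
      have e1 : hu.P13 (x + s • ![1, 1, 0, 0]) = hu.cc (x 2 - (x 0 + s)) (x 3 - (x 1 + s)) := by
        simp [P13]
      rw [e1, hu.cc_sub_left, hu.cc_sub_right, heven]
      unfold gg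
      rw [hyc]
      congr 2 <;> ring
    rw [e]; exact this
  have m3 : MZ (fun s => hu.P12 (x + s • ![0, 1, 1, 0]) - h yb) := by
    have := hu.gg_mz (hu.exists_h yb) (x 1 - x 0)
    have e : (fun s => hu.P12 (x + s • ![0, 1, 1, 0]) - h yb)
        = fun s => hu.gg yb (x 1 - x 0 + s) - h yb := by
      funext s
      have e1 : hu.P12 (x + s • ![0, 1, 1, 0]) = hu.cc (x 1 + s - x 0) (x 3 - (x 2 + s)) := by
        simp [P12]
      rw [e1, hu.cc_sub_right]
      unfold gg
      rw [hyb]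
      congr 2 <;> ring
    rw [e]; exact this
  have m4 : MZ (fun s => hu.P13 (x + s • ![0, 1, 1, 0]) - h ya) := by
    have := hu.gg_mz (hu.exists_h ya) (x 2 - x 0)
    have e : (fun s => hu.P13 (x + s • ![0, 1, 1, 0]) - h ya)
        = fun s => hu.gg ya (x 2 - x 0 + s) - h ya := by
      funext s
      have e1 : hu.P13 (x + s • ![0, 1, 1, 0]) = hu.cc (x 2 + s - x 0) (x 3 - (x 1 + s)) := by
        simp [P13]
      rw [e1, hu.cc_sub_right]
      unfold gg
      rw [hya]
      congr 2 <;> ring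
    rw [e]; exact this
  have m5 : MZ (fun s => hu.P12 (x + s • ![1, 0, 1, 0]) - h yc) := by
    have := hu.gg_mz (hu.exists_h (-yc)) (x 0 - x 1)
    have e : (fun s => hu.P12 (x + s • ![1, 0, 1, 0]) - h yc)
        = fun s => hu.gg (-yc) (x 0 - x 1 + s) - h (-yc) := by
      funext s
      have e1 : hu.P12 (x + s • ![1, 0, 1, 0]) = hu.cc (x 1 - (x 0 + s)) (x 3 - (x 2 + s)) := by
        simp [P12]
      rw [e1, hu.cc_sub_left, hu.cc_sub_right, heven]
      unfold gg
      rw [hyc]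
      congr 2 <;> ring
    rw [e]; exact this
  have m6 : MZ (fun s => hu.P23 (x + s • ![1, 0, 1, 0]) - h ya) := by
    have := hu.gg_mz (hu.exists_h ya) (x 2 - x 1)
    have e : (fun s => hu.P23 (x + s • ![1, 0, 1, 0]) - h ya)
        = fun s => hu.gg ya (x 2 - x 1 + s) - h ya := by
      funext s
      have e1 : hu.P23 (x + s • ![1, 0, 1, 0]) = hu.cc (x 2 + s - x 1) (x 3 - (x 0 + s)) := by
        simp [P23]
      rw [e1, hu.cc_sub_right]
      unfold gg
      rw [hya]
      congr 2 <;> ring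
    rw [e]; exact this
  have tot := H1.add (((((m1.add m2).add m3).add m4).add m5).add m6)
  have e : (fun s => (-(hu.P23 (x + s • ![1, 1, 0, 0]) + hu.P13 (x + s • ![1, 1, 0, 0])
      + hu.P12 (x + s • ![0, 1, 1, 0]) + hu.P13 (x + s • ![0, 1, 1, 0])
      + hu.P12 (x + s • ![1, 0, 1, 0]) + hu.P23 (x + s • ![1, 0, 1, 0]))
      - 2 * (hu.C4f x - hu.P12 x - hu.P23 x - hu.P13 x))
      + (hu.P23 (x + s • ![1, 1, 0, 0]) - h yb + (hu.P13 (x + s • ![1, 1, 0, 0]) - h yc)
        + (hu.P12 (x + s • ![0, 1, 1, 0]) - h yb) + (hu.P13 (x + s • ![0, 1, 1, 0]) - h ya)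
        + (hu.P12 (x + s • ![1, 0, 1, 0]) - h yc) + (hu.P23 (x + s • ![1, 0, 1, 0]) - h ya)))
      = fun _ : ℂ => - 2 * (hu.C4f x - hu.P12 x - hu.P23 x - hu.P13 x)
        - 2 * (h ya + h yb + h yc) := by
    funext s; ring
  rw [e] at tot
  have := tot.const
  linear_combination (-1/2) * this

end PairP

end

end Berry


end
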