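import Mathlib
import Pool.Agent.BWM.C02
import Pool.Agent.BWM.C04
import Pool.Agent.BWM.C08
import Pool.Agent.BWM.C10
import Pool.Agent.LibH11.Berry.RDefs

/-! Parts: LibH11.Berry.Pair4, LibH11.Berry.ALim, LibH11.Berry.ANorm, LibH11.Berry.AThm, LibH11.Berry.HWave, LibH11.Berry.HWave2, LibH11.Berry.HWave3, LibH11.Berry.HWave4, LibH11.Berry.RBase, LibH11.Berry.RInv, LibH11.Berry.RInv2, LibH11.Berry.RInv3 -/

section

/-!
Bounds for the correction term in the general four-point formula.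
-/

open Complex Filter Topology MeasureTheory Metric
open scoped ENNReal NNReal InnerProductSpace

namespace Berry

noncomputable section

variable {H : Type*} [NormedAddCommGroup H] [InnerProductSpace ℝ H]

/-- a process is continuous as soon as its kernel is -/
lemma cont_of_kernel {u : ℂ → ℂ → H}
    (hc : Continuous fun x : Fin 4 → ℂ => inner ℝ (u (x 0) (x 1)) (u (x 2) (x 3))) :
    Continuous fun p : ℂ × ℂ => u p.1 p.2 := by
  rw [continuous_iff_continuousAt]
  intro p₀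
  rw [ContinuousAt, tendsto_iff_norm_sub_tendsto_zero]
  have h1 : ∀ p : ℂ × ℂ, ‖u p.1 p.2 - u p₀.1 p₀.2‖ ^ 2 = inner ℝ (u p.1 p.2) (u p.1 p.2)
      - 2 * inner ℝ (u p.1 p.2) (u p₀.1 p₀.2) + inner ℝ (u p₀.1 p₀.2) (u p₀.1 p₀.2) := by
    intro p
    rw [← real_inner_self_eq_norm_sq, real_inner_sub_sub_self]
  have k1 : Continuous fun p : ℂ × ℂ => inner ℝ (u p.1 p.2) (u p.1 p.2) := by
    have e : Continuous fun p : ℂ × ℂ => (![p.1, p.2, p.1, p.2] : Fin 4 → ℂ) := by
      refine continuous_pi fun i => ?_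
      fin_cases i <;> simp <;> fun_prop
    exact hc.comp e
  have k2 : Continuous fun p : ℂ × ℂ => inner ℝ (u p.1 p.2) (u p₀.1 p₀.2) := by
    have e : Continuous fun p : ℂ × ℂ => (![p.1, p.2, p₀.1, p₀.2] : Fin 4 → ℂ) := by
      refine continuous_pi fun i => ?_
      fin_cases i <;> simp <;> fun_prop
    exact hc.comp e
  have h2 : Tendsto (fun p : ℂ × ℂ => ‖u p.1 p.2 - u p₀.1 p₀.2‖ ^ 2) (𝓝 p₀) (𝓝 0) := by
    have h3 := ((k1.sub (k2.const_mul 2)).add (continuous_const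
      (y := inner ℝ (u p₀.1 p₀.2) (u p₀.1 p₀.2)))).tendsto p₀
    have h4 : inner ℝ (u p₀.1 p₀.2) (u p₀.1 p₀.2) - 2 * inner ℝ (u p₀.1 p₀.2) (u p₀.1 p₀.2)
      + inner ℝ (u p₀.1 p₀.2) (u p₀.1 p₀.2) = 0 := by ring
    simp only [Pi.add_apply, Pi.sub_apply] at h3
    rw [h4] at h3
    exact h3.congr fun p => (h1 p).symm
  have h5 := (Real.continuous_sqrt.tendsto 0).comp h2
  rw [Real.sqrt_zero] at h5
  refine h5.congr fun p => ?_
  simp only [Function.comp]
  rw [Real.sqrt_sq (norm_nonneg _)]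

section

variable [CompleteSpace H]

lemma inner_avg_avg {v w : ℂ → H} (hv : Continuous v) (hw : Continuous w) (R : ℝ) :
    inner ℝ (⨍ s in ball (0:ℂ) R, v s) (⨍ s in ball (0:ℂ) R, w s)
      = ⨍ s in ball (0:ℂ) R, ⨍ s' in ball (0:ℂ) R, inner ℝ (v s) (w s') := by
  rw [PairP.inner_avg hv]
  congr 1
  funext s
  rw [real_inner_comm, PairP.inner_avg hw]
  congr 1
  funext s'
  rw [real_inner_comm]

lemma inner_avg_avg' {v w : ℂ → H} (hv : Continuous v) (hw : Continuous w) (R : ℝ) :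
    inner ℝ (⨍ s in ball (0:ℂ) R, v s) (⨍ s in ball (0:ℂ) R, w s)
      = ⨍ s in ball (0:ℂ) R, ⨍ s' in ball (0:ℂ) R, inner ℝ (v s') (w s) := by
  rw [real_inner_comm, inner_avg_avg hw hv]
  congr 1
  funext s
  congr 1
  funext s'
  rw [real_inner_comm]

end

lemma avg_addR {g h : ℂ → ℝ} (hg : Continuous g) (hh : Continuous h) (R : ℝ) :
    (⨍ s in ball (0:ℂ) R, (g s + h s)) = (⨍ s in ball (0:ℂ) R, g s) + ⨍ s in ball (0:ℂ) R, h s :=
  avg_add hg hh R

variable {u : ℂ → ℂ → H}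

namespace PairP

variable (hu : PairP u)
include hu

/-- pointwise Cauchy–Schwarz -/
lemma cs_point (r r' s : ℂ) :
    2 * inner ℝ (u r (r + s) + u r (r - s)) (u r' (r' + s) + u r' (r' - s))
      ≤ inner ℝ (u r r) (u (r' + s) (r' + s) + (2:ℝ) • u (r' + s) (r' - s) + u (r' - s) (r' - s))
      + inner ℝ (u r' r') (u (r + s) (r + s) + (2:ℝ) • u (r + s) (r - s) + u (r - s) (r - s)) := by
  set a := u r (r' + s) + u r (r' - s) with ha
  set b := u r' (r + s) + u r' (r - s) with hb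
  have sw : ∀ p q, inner ℝ (u r p) (u r' q) = inner ℝ (u r q) (u r' p) := by
    intro p q
    calc inner ℝ (u r p) (u r' q) = inner ℝ (u r p) (u q r') := by rw [hu.symm r' q]
      _ = inner ℝ (u r q) (u p r') := hu.symm4 _ _ _ _
      _ = inner ℝ (u r q) (u r' p) := by rw [hu.symm p r']
  have h1 : inner ℝ (u r (r + s) + u r (r - s)) (u r' (r' + s) + u r' (r' - s)) = inner ℝ a b := by
    rw [ha, hb]
    simp only [inner_add_left, inner_add_right]
    rw [sw (r + s) (r' + s), sw (r + s) (r' - s), sw (r - s) (r' + s), sw (r - s) (r' - s)]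
    ring
  have nn : ∀ p q₁ q₂, inner ℝ (u p q₁) (u p q₂) = inner ℝ (u p p) (u q₁ q₂) := by
    intro p q₁ q₂
    rw [hu.symm4 p q₁ p q₂]
  have h2 : inner ℝ a a = inner ℝ (u r r)
      (u (r' + s) (r' + s) + (2:ℝ) • u (r' + s) (r' - s) + u (r' - s) (r' - s)) := by
    rw [ha]
    simp only [inner_add_left, inner_add_right, inner_smul_right, nn]
    rw [hu.symm (r' - s) (r' + s)]; ring
  have h3 : inner ℝ b b = inner ℝ (u r' r')
      (u (r + s) (r + s) + (2:ℝ) • u (r + s) (r - s) + u (r - s) (r - s)) := by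
    rw [hb]
    simp only [inner_add_left, inner_add_right, inner_smul_right, nn]
    rw [hu.symm (r - s) (r + s)]; ring
  rw [h1, ← h2, ← h3]
  have h4 : 0 ≤ inner ℝ (a - b) (a - b) := real_inner_self_nonneg
  rw [real_inner_sub_sub_self] at h4
  linarith

variable [CompleteSpace H]

/-- Krein's inequality for the random covariance -/
lemma krein (s : ℂ) :
    2 * ‖hu.cov s‖ ^ 2 ≤ ‖hu.cov 0‖ ^ 2 + inner ℝ (hu.cov 0) (hu.cov (2 * s)) := by
  have cf : Continuous fun r => u r (r + s) + u r (r - s) :=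
    (hu.cont₂ continuous_id (continuous_id.add continuous_const)).add
      (hu.cont₂ continuous_id (continuous_id.sub continuous_const))
  have cv : Continuous fun r => u r r := hu.cont₂ continuous_id continuous_id
  have c1 : Continuous fun r : ℂ => u (r + s) (r + s) :=
    hu.cont₂ (continuous_id.add continuous_const) (continuous_id.add continuous_const)
  have c2 : Continuous fun r : ℂ => u (r + s) (r - s) :=
    hu.cont₂ (continuous_id.add continuous_const) (continuous_id.sub continuous_const)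
  have c3 : Continuous fun r : ℂ => u (r - s) (r - s) :=
    hu.cont₂ (continuous_id.sub continuous_const) (continuous_id.sub continuous_const)
  have cw : Continuous fun r => u (r + s) (r + s) + (2:ℝ) • u (r + s) (r - s)
      + u (r - s) (r - s) := (c1.add (c2.const_smul _)).add c3
  have key : ∀ R : ℝ, 0 < R →
      inner ℝ (⨍ r in ball (0:ℂ) R, (u r (r + s) + u r (r - s)))
        (⨍ r in ball (0:ℂ) R, (u r (r + s) + u r (r - s)))
      ≤ inner ℝ (⨍ r in ball (0:ℂ) R, u r r) (⨍ r in ball (0:ℂ) R,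
        (u (r + s) (r + s) + (2:ℝ) • u (r + s) (r - s) + u (r - s) (r - s))) := by
    intro R hR
    have hA := inner_avg_avg cf cf R
    have hB := inner_avg_avg cv cw R
    have hC := inner_avg_avg' cv cw R
    have ci : ∀ {f g : ℂ → H}, Continuous f → Continuous g → ∀ r,
        Continuous fun r' => inner ℝ (f r) (g r') := fun hf hg r =>
      continuous_const.inner hg
    have ci' : ∀ {f g : ℂ → H}, Continuous f → Continuous g → ∀ r,
        Continuous fun r' => inner ℝ (f r') (g r) := fun hf hg r =>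
      hf.inner continuous_const
    have co : ∀ {f g : ℂ → H}, Continuous f → Continuous g →
        Continuous fun r => ⨍ r' in ball (0:ℂ) R, inner ℝ (f r) (g r') := by
      intro f g hf hg
      have e : (fun r => ⨍ r' in ball (0:ℂ) R, inner ℝ (f r) (g r'))
          = fun r => inner ℝ (f r) (⨍ r' in ball (0:ℂ) R, g r') := by
        funext r
        rw [real_inner_comm, inner_avg hg]
        congr 1; funext r'; rw [real_inner_comm]
      rw [e]
      exact hf.inner continuous_const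
    have co' : ∀ {f g : ℂ → H}, Continuous f → Continuous g →
        Continuous fun r => ⨍ r' in ball (0:ℂ) R, inner ℝ (f r') (g r) := by
      intro f g hf hg
      have e : (fun r => ⨍ r' in ball (0:ℂ) R, inner ℝ (f r') (g r))
          = fun r => inner ℝ (⨍ r' in ball (0:ℂ) R, f r') (g r) := by
        funext r
        rw [inner_avg hf]
      rw [e]
      exact continuous_const.inner hg
    have h2 : 2 * inner ℝ (⨍ r in ball (0:ℂ) R, (u r (r + s) + u r (r - s)))
        (⨍ r in ball (0:ℂ) R, (u r (r + s) + u r (r - s)))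
        ≤ inner ℝ (⨍ r in ball (0:ℂ) R, u r r) (⨍ r in ball (0:ℂ) R,
        (u (r + s) (r + s) + (2:ℝ) • u (r + s) (r - s) + u (r - s) (r - s)))
        + inner ℝ (⨍ r in ball (0:ℂ) R, u r r) (⨍ r in ball (0:ℂ) R,
        (u (r + s) (r + s) + (2:ℝ) • u (r + s) (r - s) + u (r - s) (r - s))) := by
      conv_rhs => rw [hB]
      conv_rhs => arg 2; rw [← hB, hC]
      rw [hA, ← avg_addR (co cv cw) (co' cv cw)]
      have e1 : 2 * (⨍ r in ball (0:ℂ) R, ⨍ r' in ball (0:ℂ) R,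
          inner ℝ (u r (r + s) + u r (r - s)) (u r' (r' + s) + u r' (r' - s)))
          = ⨍ r in ball (0:ℂ) R, ⨍ r' in ball (0:ℂ) R,
          2 * inner ℝ (u r (r + s) + u r (r - s)) (u r' (r' + s) + u r' (r' - s)) := by
        have e2 : ∀ g : ℂ → ℝ, (⨍ r in ball (0:ℂ) R, 2 * g r) = 2 * ⨍ r in ball (0:ℂ) R, g r := by
          intro g
          have := avg_smulE (2:ℝ) g R
          simpa only [smul_eq_mul] using this
        rw [← e2]
        congr 1; funext r
        rw [← e2]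
      rw [e1]
      have e3 : Continuous fun r => ⨍ r' in ball (0:ℂ) R,
          2 * inner ℝ (u r (r + s) + u r (r - s)) (u r' (r' + s) + u r' (r' - s)) := by
        have := co (f := fun r => (2:ℝ) • (u r (r + s) + u r (r - s))) (cf.const_smul _) cf
        simpa only [inner_smul_left, RCLike.conj_to_real] using this
      refine avg_mono e3 ((co cv cw).add (co' cv cw)) (fun r => ?_) R
      simp only [Pi.add_apply]
      rw [← avg_addR (ci cv cw r) (ci' cv cw r)]
      refine avg_mono ?_ ((ci cv cw r).add (ci' cv cw r)) (fun r' => ?_) R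
      · exact continuous_const.mul (ci cf cf r)
      · exact hu.cs_point r r' s
    linarith
  -- limits
  have l1 : Tendsto (fun R : ℝ => ⨍ r in ball (0:ℂ) R, (u r (r + s) + u r (r - s))) atTop
      (𝓝 (hu.cov s + hu.cov s)) := by
    have a1 := hu.tendsto_cov_shift 0 s
    have a2 := hu.tendsto_cov_shift 0 (-s)
    rw [sub_zero] at a1 a2
    rw [hu.cov_neg] at a2
    refine (a1.add a2).congr fun R => ?_
    have := avg_add (g := fun r => u (0 + r) (s + r)) (h := fun r => u (0 + r) (-s + r))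
      (hu.cont₂ (continuous_const.add continuous_id) (continuous_const.add continuous_id))
      (hu.cont₂ (continuous_const.add continuous_id) (continuous_const.add continuous_id)) R
    rw [← this]
    congr 1; funext r
    rw [zero_add, add_comm s r, sub_eq_add_neg, add_comm r (-s)]
  have l2 : Tendsto (fun R : ℝ => ⨍ r in ball (0:ℂ) R, u r r) atTop (𝓝 (hu.cov 0)) := by
    have a1 := hu.tendsto_cov_shift 0 0
    rw [sub_zero] at a1
    simpa only [zero_add] using a1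
  have l3 : Tendsto (fun R : ℝ => ⨍ r in ball (0:ℂ) R,
        (u (r + s) (r + s) + (2:ℝ) • u (r + s) (r - s) + u (r - s) (r - s))) atTop
      (𝓝 (hu.cov 0 + (2:ℝ) • hu.cov (2 * s) + hu.cov 0)) := by
    have a1 := hu.tendsto_cov_shift s s
    have a2 := (hu.tendsto_cov_shift s (-s)).const_smul (2:ℝ)
    have a3 := hu.tendsto_cov_shift (-s) (-s)
    have e1 : -s - s = -(2 * s) := by ring
    rw [sub_self] at a1 a3
    rw [e1, hu.cov_neg] at a2
    refine ((a1.add a2).add a3).congr fun R => ?_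
    have b1 := avg_add (g := fun r => u (r + s) (r + s)) (h := fun r => (2:ℝ) • u (r + s) (r - s))
      c1 (c2.const_smul _) R
    have b2 := avg_add (g := fun r => u (r + s) (r + s) + (2:ℝ) • u (r + s) (r - s))
      (h := fun r => u (r - s) (r - s)) (c1.add (c2.const_smul _)) c3 R
    rw [b2, b1, avg_smulE]
    have e2 : ∀ r : ℂ, -s + r = r - s := fun r => by ring
    simp only [e2, add_comm s]
  have l4 := le_of_tendsto_of_tendsto (l1.inner l1) (l2.inner l3)
    (by filter_upwards [eventually_gt_atTop (0:ℝ)] with R hR using key R hR)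
  simp only [inner_add_left, inner_add_right, inner_smul_right, real_inner_self_eq_norm_sq] at l4
  linarith

/-- bounds for the correction term at the origin -/
lemma h_zero_bounds {k : ℂ}
    (h : Tendsto (fun R : ℝ => ⨍ s in ball (0:ℂ) R, hu.gg 0 s) atTop (𝓝 k)) :
    0 ≤ k.re ∧ 2 * k.re ≤ ‖hu.cov 0‖ ^ 2 := by
  have e0 : ∀ s, hu.gg 0 s = ((‖hu.cov s‖ ^ 2 : ℝ) : ℂ) := by
    intro s
    unfold gg cc
    rw [add_zero, real_inner_self_eq_norm_sq]
  have h1 : Tendsto (fun R : ℝ => ⨍ s in ball (0:ℂ) R, ‖hu.cov s‖ ^ 2) atTop (𝓝 k.re) := by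
    have h2 := (Complex.continuous_re.tendsto _).comp h
    refine h2.congr fun R => ?_
    simp only [Function.comp, e0]
    rw [avg_ofReal, Complex.ofReal_re]
  have hcn : Continuous fun s => ‖hu.cov s‖ ^ 2 := (hu.cov_unif.continuous.norm).pow 2
  constructor
  · refine ge_of_tendsto h1 ?_
    filter_upwards with R
    rw [setAverage_eq, smul_eq_mul]
    exact mul_nonneg (by positivity) (integral_nonneg fun _ => by positivity)
  · -- average of Krein's inequality
    have hW := hu.cc_helm' 0 0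
    simp only [sub_zero] at hW
    have hcc : Continuous fun z => hu.cc z 0 := by
      have h1 : Continuous fun z : ℂ => ((z, 0) : ℂ × ℂ) := by fun_prop
      have h2 := hu.cc_continuous.comp h1
      exact h2
    have m1 := (mz_of_weakHelm hcc (fun z => hu.cc_bound z 0) hW).dilate (κ := 2) (by norm_num)
    have hin : Continuous fun s : ℂ => inner ℝ (hu.cov 0) (hu.cov (2 * s)) :=
      continuous_const.inner (hu.cov_unif.continuous.comp (by fun_prop))
    have m2 : Tendsto (fun R : ℝ => ⨍ s in ball (0:ℂ) R, inner ℝ (hu.cov 0) (hu.cov (2 * s)))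
        atTop (𝓝 0) := by
      have h2 := (Complex.continuous_re.tendsto _).comp m1.2
      rw [Complex.zero_re] at h2
      refine h2.congr fun R => ?_
      simp only [Function.comp]
      have e : (fun s : ℂ => hu.cc ((2:ℝ) • s) 0)
          = fun s => ((inner ℝ (hu.cov 0) (hu.cov (2 * s)) : ℝ) : ℂ) := by
        funext s
        unfold cc
        rw [real_inner_comm]
        congr 3
      rw [e, avg_ofReal, Complex.ofReal_re]
    have h3 : Tendsto (fun R : ℝ => ‖hu.cov 0‖ ^ 2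
        + ⨍ s in ball (0:ℂ) R, inner ℝ (hu.cov 0) (hu.cov (2 * s))) atTop
        (𝓝 (‖hu.cov 0‖ ^ 2 + 0)) := tendsto_const_nhds.add m2
    rw [add_zero] at h3
    refine le_of_tendsto_of_tendsto (h1.const_mul 2) h3 ?_
    filter_upwards [eventually_gt_atTop (0:ℝ)] with R hR
    have e2 : 2 * (⨍ s in ball (0:ℂ) R, ‖hu.cov s‖ ^ 2) = ⨍ s in ball (0:ℂ) R, 2 * ‖hu.cov s‖ ^ 2 := by
      have := avg_smulE (2:ℝ) (fun s => ‖hu.cov s‖ ^ 2) R
      simpa only [smul_eq_mul] using this.symm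
    have e3 := avg_addR (g := fun _ => ‖hu.cov 0‖ ^ 2)
      (h := fun s => inner ℝ (hu.cov 0) (hu.cov (2 * s))) continuous_const hin R
    rw [avg_const hR] at e3
    rw [e2, ← e3]
    exact avg_mono (continuous_const.mul hcn) (continuous_const.add hin) (fun s => hu.krein s) R

end PairP

end

end Berry


end

section

/-!
Limits of asymptotically invariant, approximately monochromatic waves.
-/

open Complex Filter Topology MeasureTheory Metric InnerProductSpace Laplacian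
open scoped ENNReal

namespace Berry

noncomputable section

variable {Ω : Type*} [MeasurableSpace Ω] {P : Measure Ω} [IsProbabilityMeasure P]

/-- two-point function of the `n`-th wave -/
def c2 (P : Measure Ω) (F : ℕ → ℂ → Ω → ℝ) (n : ℕ) (x y : ℂ) : ℝ := ∫ ω, F n x ω * F n y ω ∂P

/-- four-point function of the `n`-th wave -/
def c4 (P : Measure Ω) (F : ℕ → ℂ → Ω → ℝ) (n : ℕ) (x₁ x₂ x₃ x₄ : ℂ) : ℝ :=
  ∫ ω, F n x₁ ω * F n x₂ ω * F n x₃ ω * F n x₄ ω ∂P

/-- a sequence of approximately monochromatic waves with bounded fourth moments -/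
structure PreWave (P : Measure Ω) (F : ℕ → ℂ → Ω → ℝ) (B : ℝ) : Prop where
  ev : ∀ᶠ n in atTop, SingleW P (F n) ∧ ∀ x, ∫ ω, F n x ω ^ 4 ∂P ≤ B
  eqn : ∀ r δ : ℝ, 0 < δ → ∀ᶠ n in atTop, ∀ ω, ∀ x ∈ ball (0:ℂ) r,
    |(Δ (fun x => F n x ω)) x + F n x ω| ≤ δ * |F n x ω|

/-- a sequence of asymptotically translation invariant, approximately monochromatic waves with
bounded fourth moments -/
structure AWave (P : Measure Ω) (F : ℕ → ℂ → Ω → ℝ) (B : ℝ) : Prop extends PreWave P F B where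
  inv4 : ∀ x₁ x₂ x₃ x₄ s, Tendsto (fun n => c4 P F n (x₁ + s) (x₂ + s) (x₃ + s) (x₄ + s)
    - c4 P F n x₁ x₂ x₃ x₄) atTop (𝓝 0)
  inv2 : ∀ x y s, Tendsto (fun n => c2 P F n (x + s) (y + s) - c2 P F n x y) atTop (𝓝 0)

lemma abs_four_le (a b c d : ℝ) : |a| * |b * c * d| ≤ (a ^ 4 + b ^ 4 + c ^ 4 + d ^ 4) / 4 := by
  rw [← abs_mul]
  have h1 : |a * (b * c * d)| ≤ ((a * b) ^ 2 + (c * d) ^ 2) / 2 := by
    rw [abs_le]
    constructor
    · linarith only [sq_nonneg (a * b + c * d)]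
    · linarith only [sq_nonneg (a * b - c * d)]
  linarith only [h1, sq_nonneg (a ^ 2 - b ^ 2), sq_nonneg (c ^ 2 - d ^ 2)]

lemma SingleW.int4 {F : ℂ → Ω → ℝ} (hF : SingleW P F) (x : ℂ) :
    Integrable (fun ω => F x ω ^ 4) P := by
  obtain ⟨K, hK⟩ := hF.bdd
  refine integrable_bdd (C := K ^ 4) ((hF.meas x).pow_const 4) fun ω => ?_
  rw [abs_pow]
  exact pow_le_pow_left₀ (abs_nonneg _) (hK x ω) 4

lemma SingleW.four_bound {F : ℂ → Ω → ℝ} (hF : SingleW P F) {B : ℝ}
    (hB : ∀ x, ∫ ω, F x ω ^ 4 ∂P ≤ B) (y a b c : ℂ) :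
    ∫ ω, |F y ω| * |F a ω * F b ω * F c ω| ∂P ≤ B := by
  have h1 : ∫ ω, |F y ω| * |F a ω * F b ω * F c ω| ∂P
      ≤ ∫ ω, (F y ω ^ 4 + F a ω ^ 4 + F b ω ^ 4 + F c ω ^ 4) / 4 ∂P := by
    refine integral_mono_of_nonneg (Eventually.of_forall fun ω => by positivity) ?_
      (Eventually.of_forall fun ω => abs_four_le _ _ _ _)
    exact ((((hF.int4 y).add (hF.int4 a)).add (hF.int4 b)).add (hF.int4 c)).div_const 4
  refine h1.trans ?_
  have j1 : Integrable (fun ω => F y ω ^ 4 + F a ω ^ 4) P := (hF.int4 y).add (hF.int4 a)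
  have j2 : Integrable (fun ω => F y ω ^ 4 + F a ω ^ 4 + F b ω ^ 4) P := j1.add (hF.int4 b)
  rw [integral_div, integral_add j2 (hF.int4 c), integral_add j1 (hF.int4 b),
    integral_add (hF.int4 y) (hF.int4 a)]
  have := hB y
  have := hB a
  have := hB b
  have := hB c
  linarith

/-- the vectors entering the Gram matrix -/
def Vn (F : ℕ → ℂ → Ω → ℝ) (n : ℕ) : Option (ℂ × ℂ) → Ω → ℝ
  | none => fun _ => 1
  | some p => fun ω => F n p.1 ω * F n p.2 ω

omit [IsProbabilityMeasure P] in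
lemma Vn_meas {F : ℕ → ℂ → Ω → ℝ} {n : ℕ} (hF : SingleW P (F n)) (i : Option (ℂ × ℂ)) :
    Measurable (Vn F n i) := by
  cases i with
  | none => exact measurable_const
  | some p => exact (hF.meas p.1).mul (hF.meas p.2)

omit [IsProbabilityMeasure P] in
lemma Vn_bdd {F : ℕ → ℂ → Ω → ℝ} {n : ℕ} (hF : SingleW P (F n)) (i : Option (ℂ × ℂ)) :
    ∃ K : ℝ, 0 ≤ K ∧ ∀ ω, |Vn F n i ω| ≤ K := by
  cases i with
  | none => exact ⟨1, zero_le_one, fun ω => by simp [Vn]⟩
  | some p =>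
    obtain ⟨K, hK⟩ := hF.bdd
    refine ⟨K * K, mul_self_nonneg K, fun ω => ?_⟩
    simp only [Vn]
    rw [abs_mul]
    exact mul_le_mul (hK _ _) (hK _ _) (abs_nonneg _) ((abs_nonneg _).trans (hK 0 ω))

lemma Vn_int {F : ℕ → ℂ → Ω → ℝ} {n : ℕ} (hF : SingleW P (F n)) (i j : Option (ℂ × ℂ)) :
    Integrable (fun ω => Vn F n i ω * Vn F n j ω) P := by
  obtain ⟨K, hK0, hK⟩ := Vn_bdd hF i
  obtain ⟨K', hK'0, hK'⟩ := Vn_bdd hF j
  refine integrable_bdd (C := K * K') ((Vn_meas hF i).mul (Vn_meas hF j)) fun ω => ?_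
  rw [abs_mul]
  exact mul_le_mul (hK ω) (hK' ω) (abs_nonneg _) hK0

lemma Vn_sq {F : ℕ → ℂ → Ω → ℝ} {n : ℕ} (hF : SingleW P (F n)) {B : ℝ}
    (hB : ∀ x, ∫ ω, F n x ω ^ 4 ∂P ≤ B) (i : Option (ℂ × ℂ)) :
    ∫ ω, Vn F n i ω * Vn F n i ω ∂P ≤ B + 1 := by
  have hB0 : 0 ≤ B := (integral_nonneg fun ω => by positivity).trans (hB 0)
  cases i with
  | none => simp [Vn]; exact hB0
  | some p =>
    have h1 : ∫ ω, Vn F n (some p) ω * Vn F n (some p) ω ∂P
        ≤ ∫ ω, |F n p.1 ω| * |F n p.1 ω * F n p.2 ω * F n p.2 ω| ∂P := by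
      refine integral_mono (Vn_int hF _ _) ?_ fun ω => ?_
      · obtain ⟨K, hK⟩ := hF.bdd
        refine integrable_bdd (C := K * (K * K * K)) ((hF.meas _).abs.mul
          (((hF.meas _).mul (hF.meas _)).mul (hF.meas _)).abs) fun ω => ?_
        have hK0 : 0 ≤ K := (abs_nonneg _).trans (hK 0 ω)
        rw [abs_mul, abs_abs, abs_abs, abs_mul, abs_mul]
        exact mul_le_mul (hK _ _) (mul_le_mul (mul_le_mul (hK _ _) (hK _ _) (abs_nonneg _) hK0)
          (hK _ _) (abs_nonneg _) (mul_nonneg hK0 hK0)) (by positivity) hK0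
      · simp only [Vn]
        rw [← abs_mul]
        refine le_trans (le_of_eq ?_) (le_abs_self _)
        ring
    have h2 := hF.four_bound hB p.1 p.1 p.2 p.2
    linarith

lemma Vn_bound {F : ℕ → ℂ → Ω → ℝ} {n : ℕ} (hF : SingleW P (F n)) {B : ℝ}
    (hB : ∀ x, ∫ ω, F n x ω ^ 4 ∂P ≤ B) (i j : Option (ℂ × ℂ)) :
    |∫ ω, Vn F n i ω * Vn F n j ω ∂P| ≤ B + 1 := by
  have h1 : |∫ ω, Vn F n i ω * Vn F n j ω ∂P|
      ≤ ∫ ω, (Vn F n i ω * Vn F n i ω + Vn F n j ω * Vn F n j ω) / 2 ∂P := by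
    rw [← Real.norm_eq_abs]
    refine norm_integral_le_of_norm_le (((Vn_int hF i i).add (Vn_int hF j j)).div_const 2)
      (Eventually.of_forall fun ω => ?_)
    rw [Real.norm_eq_abs, abs_le]
    constructor
    · nlinarith [sq_nonneg (Vn F n i ω + Vn F n j ω)]
    · linarith only [sq_nonneg (Vn F n i ω - Vn F n j ω)]
  rw [integral_div, integral_add (Vn_int hF i i) (Vn_int hF j j)] at h1
  have := Vn_sq hF hB i
  have := Vn_sq hF hB j
  linarith

omit [MeasurableSpace Ω] [IsProbabilityMeasure P] in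
lemma ultra_lim {f : ℕ → ℝ} {U : Ultrafilter ℕ} {C : ℝ} (h : ∀ᶠ n in (U : Filter ℕ), |f n| ≤ C) :
    ∃ L, Tendsto f (U : Filter ℕ) (𝓝 L) := by
  have h1 : (U.map f : Filter ℝ) ≤ 𝓟 (Set.Icc (-C) C) := by
    rw [le_principal_iff]
    exact h.mono fun n hn => abs_le.1 hn
  obtain ⟨L, -, hL⟩ := (isCompact_Icc (a := -C) (b := C)).ultrafilter_le_nhds (U.map f) h1
  exact ⟨L, hL⟩

/-- **Limit objects.** -/
theorem AWave.limit {F : ℕ → ℂ → Ω → ℝ} {B : ℝ} (hF : AWave P F B) (U : Ultrafilter ℕ)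
    (hU : (U : Filter ℕ) ≤ atTop) :
    ∃ (H : Type) (_ : NormedAddCommGroup H) (_ : InnerProductSpace ℝ H) (_ : CompleteSpace H)
      (u : ℂ → ℂ → H) (one : H), PairP u ∧ inner ℝ one one = 1 ∧
      (∀ x₁ x₂ x₃ x₄, Tendsto (fun n => c4 P F n x₁ x₂ x₃ x₄) (U : Filter ℕ)
        (𝓝 (inner ℝ (u x₁ x₂) (u x₃ x₄)))) ∧
      (∀ x y, Tendsto (fun n => c2 P F n x y) (U : Filter ℕ) (𝓝 (inner ℝ (u x y) one))) := by
  have hev := hU hF.ev
  -- the limits exist
  have hex : ∀ i j : Option (ℂ × ℂ), ∃ L, Tendsto (fun n => ∫ ω, Vn F n i ω * Vn F n j ω ∂P)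
      (U : Filter ℕ) (𝓝 L) := fun i j => ultra_lim (C := B + 1)
        (Filter.mem_of_superset hev fun n hn => Vn_bound hn.1 hn.2 i j)
  choose k hk using hex
  have hsymm : ∀ i j, k i j = k j i := by
    intro i j
    refine tendsto_nhds_unique (hk i j) ((hk j i).congr fun n => ?_)
    congr 1; funext ω; ring
  have hpsd : ∀ (s : Finset (Option (ℂ × ℂ))) (c : Option (ℂ × ℂ) → ℝ),
      0 ≤ ∑ x ∈ s, ∑ y ∈ s, c x * c y * k x y := by
    intro s c
    have h1 : Tendsto (fun n => ∑ x ∈ s, ∑ y ∈ s, c x * c y * ∫ ω, Vn F n x ω * Vn F n y ω ∂P)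
        (U : Filter ℕ) (𝓝 (∑ x ∈ s, ∑ y ∈ s, c x * c y * k x y)) :=
      tendsto_finsetSum _ fun x _ => tendsto_finsetSum _ fun y _ => (hk x y).const_mul _
    refine ge_of_tendsto h1 (Filter.mem_of_superset hev fun n hn => ?_)
    have h2 : ∑ x ∈ s, ∑ y ∈ s, c x * c y * ∫ ω, Vn F n x ω * Vn F n y ω ∂P
        = ∫ ω, (∑ x ∈ s, c x * Vn F n x ω) ^ 2 ∂P := by
      have h3 : ∀ ω, (∑ x ∈ s, c x * Vn F n x ω) ^ 2
          = ∑ x ∈ s, ∑ y ∈ s, c x * c y * (Vn F n x ω * Vn F n y ω) := by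
        intro ω
        rw [sq, Finset.sum_mul_sum]
        refine Finset.sum_congr rfl fun x _ => Finset.sum_congr rfl fun y _ => ?_
        ring
      simp only [h3]
      rw [integral_finsetSum _ fun x _ => integrable_finsetSum _ fun y _ =>
        (Vn_int hn.1 x y).const_mul _]
      refine Finset.sum_congr rfl fun x _ => ?_
      rw [integral_finsetSum _ fun y _ => (Vn_int hn.1 x y).const_mul _]
      refine Finset.sum_congr rfl fun y _ => ?_
      rw [integral_const_mul]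
    show 0 ≤ ∑ x ∈ s, ∑ y ∈ s, c x * c y * ∫ ω, Vn F n x ω * Vn F n y ω ∂P
    rw [h2]
    exact integral_nonneg fun ω => sq_nonneg _
  obtain ⟨H, i1, i2, i3, e, he⟩ := exists_hilbert k hsymm hpsd
  set u : ℂ → ℂ → H := fun x y => e (some (x, y)) with hu
  have hin : ∀ x₁ x₂ x₃ x₄, Tendsto (fun n => c4 P F n x₁ x₂ x₃ x₄) (U : Filter ℕ)
        (𝓝 (inner ℝ (u x₁ x₂) (u x₃ x₄))) := by
    intro x₁ x₂ x₃ x₄
    rw [hu, he]
    refine (hk (some (x₁, x₂)) (some (x₃, x₄))).congr fun n => ?_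
    unfold c4
    congr 1; funext ω
    simp only [Vn]; ring
  -- equicontinuity in the first variable
  have hslot : ∀ η : ℝ, 0 < η → ∃ d > 0, ∀ r : ℝ, ∀ᶠ n in (U : Filter ℕ), ∀ a b c t t' : ℂ,
      ‖t‖ < r → ‖t'‖ < r → ‖t - t'‖ < d → |c4 P F n t a b c - c4 P F n t' a b c| ≤ η := by
    intro η hη
    have hB0 : 0 ≤ |B| := abs_nonneg _
    obtain ⟨d, hd, h⟩ := equi (P := P) hB0 hη
    refine ⟨d, hd, fun r => ?_⟩
    have h1 := hU (hF.eqn (r + 1) 1 one_pos)
    filter_upwards [hev, h1] with n hn hn1 a b c t t' ht ht' htt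
    obtain ⟨K, hK⟩ := hn.1.bdd
    have h2 := h (F n) hn.1 (fun ω => F n a ω * F n b ω * F n c ω)
      (((hn.1.meas a).mul (hn.1.meas b)).mul (hn.1.meas c))
      ⟨K * K * K, fun ω => by
        have hK0 : 0 ≤ K := (abs_nonneg _).trans (hK 0 ω)
        rw [abs_mul, abs_mul]
        exact mul_le_mul (mul_le_mul (hK _ _) (hK _ _) (abs_nonneg _) hK0) (hK _ _)
          (abs_nonneg _) (mul_nonneg hK0 hK0)⟩
      (fun y => (hn.1.four_bound hn.2 y a b c).trans (le_abs_self B)) (r + 1) 1 zero_le_one le_rfl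
      (fun ω x hx => hn1 ω x hx) t t' (by linarith) (by linarith) htt
    have e1 : ∀ y, c4 P F n y a b c = ∫ ω, F n y ω * (F n a ω * F n b ω * F n c ω) ∂P := by
      intro y
      unfold c4
      congr 1; funext ω; ring
    rw [e1, e1]
    exact h2
  set C : ℂ → ℂ → ℂ → ℂ → ℝ := fun x₁ x₂ x₃ x₄ => inner ℝ (u x₁ x₂) (u x₃ x₄) with hC
  have hslotC : ∀ η : ℝ, 0 < η → ∃ d > 0, ∀ a b c t t' : ℂ, ‖t - t'‖ < d →
      |C t a b c - C t' a b c| ≤ η := by
    intro η hη
    obtain ⟨d, hd, h⟩ := hslot η hη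
    refine ⟨d, hd, fun a b c t t' htt => ?_⟩
    refine le_of_tendsto ((hin t a b c).sub (hin t' a b c)).abs ?_
    have h1 := h (max ‖t‖ ‖t'‖ + 1)
    filter_upwards [h1] with n hn
    exact hn a b c t t' (by linarith [le_max_left ‖t‖ ‖t'‖]) (by linarith [le_max_right ‖t‖ ‖t'‖]) htt
  -- symmetries
  have s12 : ∀ x₁ x₂ x₃ x₄, C x₁ x₂ x₃ x₄ = C x₂ x₁ x₃ x₄ := by
    intro x₁ x₂ x₃ x₄
    refine tendsto_nhds_unique (hin x₁ x₂ x₃ x₄) ((hin x₂ x₁ x₃ x₄).congr fun n => ?_)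
    unfold c4; congr 1; funext ω; ring
  have s13 : ∀ x₁ x₂ x₃ x₄, C x₁ x₂ x₃ x₄ = C x₃ x₂ x₁ x₄ := by
    intro x₁ x₂ x₃ x₄
    refine tendsto_nhds_unique (hin x₁ x₂ x₃ x₄) ((hin x₃ x₂ x₁ x₄).congr fun n => ?_)
    unfold c4; congr 1; funext ω; ring
  have s14 : ∀ x₁ x₂ x₃ x₄, C x₁ x₂ x₃ x₄ = C x₄ x₂ x₃ x₁ := by
    intro x₁ x₂ x₃ x₄
    refine tendsto_nhds_unique (hin x₁ x₂ x₃ x₄) ((hin x₄ x₂ x₃ x₁).congr fun n => ?_)
    unfold c4; congr 1; funext ω; ring
  have hpair : PairP u := by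
    constructor
    · -- continuity
      apply cont_of_kernel
      rw [Metric.continuous_iff]
      intro x ε hε
      obtain ⟨d, hd, h⟩ := hslotC (ε / 5) (by positivity)
      refine ⟨d, hd, fun y hy => ?_⟩
      have hj : ∀ j, ‖y j - x j‖ < d := fun j => by
        rw [← dist_eq_norm]; exact lt_of_le_of_lt (dist_le_pi_dist y x j) hy
      rw [Real.dist_eq]
      have e1 : inner ℝ (u (y 0) (y 1)) (u (y 2) (y 3)) - inner ℝ (u (x 0) (x 1)) (u (x 2) (x 3))
          = (C (y 0) (y 1) (y 2) (y 3) - C (x 0) (y 1) (y 2) (y 3))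
          + (C (y 1) (x 0) (y 2) (y 3) - C (x 1) (x 0) (y 2) (y 3))
          + (C (y 2) (x 1) (x 0) (y 3) - C (x 2) (x 1) (x 0) (y 3))
          + (C (y 3) (x 1) (x 2) (x 0) - C (x 3) (x 1) (x 2) (x 0)) := by
        have k1 : C (x 0) (y 1) (y 2) (y 3) = C (y 1) (x 0) (y 2) (y 3) := s12 _ _ _ _
        have k2 : C (x 1) (x 0) (y 2) (y 3) = C (y 2) (x 1) (x 0) (y 3) := by
          rw [s12, s13]
        have k3 : C (x 2) (x 1) (x 0) (y 3) = C (y 3) (x 1) (x 2) (x 0) := by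
          rw [s13, s14]
        have k4 : C (x 3) (x 1) (x 2) (x 0) = C (x 0) (x 1) (x 2) (x 3) := s14 _ _ _ _
        rw [k1, k2, k3, k4]
        simp only [hC]; ring
      rw [e1]
      have b1 := h (y 1) (y 2) (y 3) (y 0) (x 0) (hj 0)
      have b2 := h (x 0) (y 2) (y 3) (y 1) (x 1) (hj 1)
      have b3 := h (x 1) (x 0) (y 3) (y 2) (x 2) (hj 2)
      have b4 := h (x 1) (x 2) (x 0) (y 3) (x 3) (hj 3)
      refine lt_of_le_of_lt (abs_add_le _ _) ?_
      have a1 := abs_add_le ((C (y 0) (y 1) (y 2) (y 3) - C (x 0) (y 1) (y 2) (y 3))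
          + (C (y 1) (x 0) (y 2) (y 3) - C (x 1) (x 0) (y 2) (y 3)))
          (C (y 2) (x 1) (x 0) (y 3) - C (x 2) (x 1) (x 0) (y 3))
      have a2 := abs_add_le (C (y 0) (y 1) (y 2) (y 3) - C (x 0) (y 1) (y 2) (y 3))
          (C (y 1) (x 0) (y 2) (y 3) - C (x 1) (x 0) (y 2) (y 3))
      linarith
    · -- symmetry
      intro x y
      have h1 : inner ℝ (u x y - u y x) (u x y - u y x) = 0 := by
        rw [real_inner_sub_sub_self]
        have a1 : inner ℝ (u x y) (u y x) = C x y x y := by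
          refine tendsto_nhds_unique (hin x y y x) ((hin x y x y).congr fun n => ?_)
          unfold c4; congr 1; funext ω; ring
        have a2 : inner ℝ (u y x) (u y x) = C x y x y := by
          refine tendsto_nhds_unique (hin y x y x) ((hin x y x y).congr fun n => ?_)
          unfold c4; congr 1; funext ω; ring
        have a3 : inner ℝ (u x y) (u x y) = C x y x y := rfl
        rw [a1, a2, a3]; ring
      rw [real_inner_self_eq_norm_sq] at h1
      have h2 : ‖u x y - u y x‖ = 0 := by simpa using h1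
      exact sub_eq_zero.1 (norm_eq_zero.1 h2)
    · intro x₁ x₂ x₃ x₄
      refine tendsto_nhds_unique (hin x₁ x₂ x₃ x₄) ((hin x₁ x₃ x₂ x₄).congr fun n => ?_)
      unfold c4; congr 1; funext ω; ring
    · intro x₁ x₂ x₃ x₄ s
      have h1 := (hin (x₁ + s) (x₂ + s) (x₃ + s) (x₄ + s)).sub (hin x₁ x₂ x₃ x₄)
      have h2 := (hF.inv4 x₁ x₂ x₃ x₄ s).mono_left hU
      have h3 := tendsto_nhds_unique h1 h2
      linarith
    · -- Helmholtz
      intro x₂ x₃ x₄ ψ hψ t
      have hψi : Integrable ψ := hψ.continuous.integrable_of_hasCompactSupport hψ.2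
      have hgc : ∀ᶠ n in (U : Filter ℕ), Continuous fun y => c4 P F n y x₂ x₃ x₄ := by
        filter_upwards [hev] with n hn
        obtain ⟨K, hK⟩ := hn.1.bdd
        have h2 := corr_continuous hn.1 (G := fun ω => F n x₂ ω * F n x₃ ω * F n x₄ ω)
          (((hn.1.meas x₂).mul (hn.1.meas x₃)).mul (hn.1.meas x₄))
          ⟨K * K * K, fun ω => by
            have hK0 : 0 ≤ K := (abs_nonneg _).trans (hK 0 ω)
            rw [abs_mul, abs_mul]
            exact mul_le_mul (mul_le_mul (hK _ _) (hK _ _) (abs_nonneg _) hK0) (hK _ _)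
              (abs_nonneg _) (mul_nonneg hK0 hK0)⟩
        refine h2.congr fun y => ?_
        unfold c4
        congr 1; funext ω; ring
      have hg₀ : Continuous fun y => C y x₂ x₃ x₄ := by
        rw [Metric.continuous_iff]
        intro x ε hε
        obtain ⟨d, hd, h⟩ := hslotC (ε / 2) (by positivity)
        refine ⟨d, hd, fun y hy => ?_⟩
        rw [Real.dist_eq]
        have := h x₂ x₃ x₄ y x (by rw [← dist_eq_norm]; exact hy)
        linarith
      have hequi : ∀ r η : ℝ, 0 < η → ∃ d > 0, ∀ᶠ n in (U : Filter ℕ), ∀ t t' : ℂ, ‖t‖ < r →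
          ‖t'‖ < r → ‖t - t'‖ < d → |c4 P F n t x₂ x₃ x₄ - c4 P F n t' x₂ x₃ x₄| ≤ η := by
        intro r η hη
        obtain ⟨d, hd, h⟩ := hslot η hη
        refine ⟨d, hd, ?_⟩
        filter_upwards [h r] with n hn t t' ht ht' htt
        exact hn _ _ _ t t' ht ht' htt
      have hconv : ∀ {χ : ℂ → ℂ}, TestFn χ → Tendsto (fun n =>
          smear χ (fun y => ((c4 P F n y x₂ x₃ x₄ : ℝ) : ℂ)) t) (U : Filter ℕ)
          (𝓝 (smear χ (fun y => ((C y x₂ x₃ x₄ : ℝ) : ℂ)) t)) := fun hχ =>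
        ultra_smear (g := fun n y => c4 P F n y x₂ x₃ x₄) hgc hg₀ (fun z => hin z x₂ x₃ x₄) hequi hχ t
      have gen : ∀ {χ : ℂ → ℂ}, (χ = Wop (Vop ψ) ∨ χ = Vop (Wop ψ)) →
          smear χ (fun y => ((C y x₂ x₃ x₄ : ℝ) : ℂ)) t
            = - smear ψ (fun y => ((C y x₂ x₃ x₄ : ℝ) : ℂ)) t := by
        intro χ hχ
        have hχt : TestFn χ := by
          rcases hχ with h | h
          · rw [h]; exact hψ.vop.wop
          · rw [h]; exact hψ.wop.vop
        have h1 := (hconv hχt).add (hconv hψ)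
        have h2 : Tendsto (fun n => smear χ (fun y => ((c4 P F n y x₂ x₃ x₄ : ℝ) : ℂ)) t
            + smear ψ (fun y => ((c4 P F n y x₂ x₃ x₄ : ℝ) : ℂ)) t) (U : Filter ℕ) (𝓝 0) := by
          rw [Metric.tendsto_nhds]
          intro ε hε
          set L := ∫ y, ‖ψ y‖ with hL
          have hL0 : 0 ≤ L := integral_nonneg fun _ => norm_nonneg _
          have hcpt : IsCompact ((fun y => t - y) '' tsupport ψ) :=
            hψ.2.isCompact.image (by fun_prop)
          obtain ⟨r, hr⟩ := hcpt.isBounded.subset_ball (0:ℂ)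
          set δ := ε / (2 * (|B| + 1) * (L + 1)) with hδ
          have hδ0 : 0 < δ := by (clear * - hε; positivity)
          filter_upwards [hev, hU (hF.eqn r δ hδ0)] with n hn hn1
          obtain ⟨K, hK⟩ := hn.1.bdd
          have h3 := approx_helm hn.1 (G := fun ω => F n x₂ ω * F n x₃ ω * F n x₄ ω)
            (((hn.1.meas x₂).mul (hn.1.meas x₃)).mul (hn.1.meas x₄))
            ⟨K * K * K, fun ω => by
              have hK0 : 0 ≤ K := (abs_nonneg _).trans (hK 0 ω)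
              rw [abs_mul, abs_mul]
              exact mul_le_mul (mul_le_mul (hK _ _) (hK _ _) (abs_nonneg _) hK0) (hK _ _)
                (abs_nonneg _) (mul_nonneg hK0 hK0)⟩
            (M := |B|) (fun y => (hn.1.four_bound hn.2 y x₂ x₃ x₄).trans (le_abs_self B)) hδ0.le
            (fun ω x hx => hn1 ω x hx) hψ (t := t) (fun y hy => by
              have := hr ⟨y, hy, rfl⟩
              simpa [mem_ball, dist_zero_right] using this) hχ
          have e1 : (fun y => ((∫ ω, F n y ω * (F n x₂ ω * F n x₃ ω * F n x₄ ω) ∂P : ℝ) : ℂ))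
              = fun y => ((c4 P F n y x₂ x₃ x₄ : ℝ) : ℂ) := by
            funext y
            unfold c4
            congr 2; funext ω; ring
          rw [e1] at h3
          rw [dist_zero_right]
          refine lt_of_le_of_lt h3 ?_
          have h4 : δ * |B| * L ≤ ε / 2 := by
            rw [hδ]
            have h5 : |B| / (|B| + 1) ≤ 1 := by rw [div_le_one (by positivity)]; linarith
            have h6 : L / (L + 1) ≤ 1 := by rw [div_le_one (by positivity)]; linarith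
            have h7 : 0 ≤ |B| / (|B| + 1) := by positivity
            have h8 : 0 ≤ L / (L + 1) := by (clear * -; positivity)
            have e2 : ε / (2 * (|B| + 1) * (L + 1)) * |B| * L
                = (ε / 2) * ((|B| / (|B| + 1)) * (L / (L + 1))) := by
              field_simp
            rw [e2]
            have h9 : (|B| / (|B| + 1)) * (L / (L + 1)) ≤ 1 := mul_le_one₀ h5 h8 h6
            nlinarith only [hε, h9]
          linarith
        have h3 := tendsto_nhds_unique h1 h2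
        linear_combination h3
      exact ⟨gen (Or.inl rfl), gen (Or.inr rfl)⟩
  refine ⟨H, i1, i2, i3, u, e none, hpair, ?_, hin, ?_⟩
  · rw [he]
    have h1 : Tendsto (fun _ : ℕ => (1:ℝ)) (U : Filter ℕ) (𝓝 (k none none)) := by
      refine (hk none none).congr fun n => ?_
      simp [Vn]
    exact tendsto_nhds_unique h1 tendsto_const_nhds
  · intro x y
    rw [hu, he]
    refine (hk (some (x, y)) none).congr fun n => ?_
    unfold c2
    congr 1; funext ω
    simp [Vn]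

end

end Berry


end

section

/-!
Spatial averages of asymptotically invariant waves and of their limit objects.
-/

open Complex Filter Topology MeasureTheory Metric InnerProductSpace Laplacian
open scoped ENNReal

namespace Berry

noncomputable section

variable {Ω : Type*} [MeasurableSpace Ω] {P : Measure Ω} [IsProbabilityMeasure P]

/-- exchanging a limit with a disc average -/
lemma lim_avg {U : Filter ℕ} {g : ℕ → ℂ → ℝ} {g₀ : ℂ → ℝ}
    (hgc : ∀ᶠ n in U, Continuous (g n)) (hg₀ : Continuous g₀)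
    (hlim : ∀ z, Tendsto (fun n => g n z) U (𝓝 (g₀ z)))
    (hequi : ∀ r η : ℝ, 0 < η → ∃ d > 0, ∀ᶠ n in U, ∀ t t' : ℂ, ‖t‖ < r → ‖t'‖ < r →
      ‖t - t'‖ < d → |g n t - g n t'| ≤ η) {R : ℝ} (hR : 0 < R) :
    Tendsto (fun n => ⨍ s in ball (0:ℂ) R, g n s) U (𝓝 (⨍ s in ball (0:ℂ) R, g₀ s)) := by
  set K : Set ℂ := closedBall (0:ℂ) R with hK
  have hKc : IsCompact K := isCompact_closedBall _ _
  set r := R + 1 with hr
  have hunif : ∀ η : ℝ, 0 < η → ∀ᶠ n in U, ∀ z ∈ K, |g n z - g₀ z| ≤ 3 * η := by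
    intro η hη
    obtain ⟨d, hd, h1⟩ := hequi r η hη
    obtain ⟨d', hd', h2⟩ : ∃ d' > 0, ∀ z ∈ K, ∀ z' ∈ K, dist z z' < d' → |g₀ z - g₀ z'| ≤ η := by
      have huc := hKc.uniformContinuousOn_of_continuous hg₀.continuousOn
      obtain ⟨d', hd', h⟩ := Metric.uniformContinuousOn_iff.1 huc η hη
      exact ⟨d', hd', fun z hz z' hz' hzz => (h z hz z' hz' hzz).le⟩
    set e := min d d' with he
    have he0 : 0 < e := lt_min hd hd'
    obtain ⟨S, hSK, hSf, hcov⟩ := hKc.finite_cover_balls he0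
    have h3 : ∀ᶠ n in U, ∀ p ∈ S, |g n p - g₀ p| ≤ η := by
      rw [eventually_all_finite hSf]
      intro p _
      have h4 := Metric.tendsto_nhds.1 (hlim p) η hη
      filter_upwards [h4] with n hn
      rw [Real.dist_eq] at hn
      exact hn.le
    filter_upwards [h1, h3] with n hn1 hn3 z hz
    have hz2 := hcov hz
    simp only [Set.mem_iUnion, exists_prop] at hz2
    obtain ⟨p, hp, hzp⟩ := hz2
    rw [mem_ball] at hzp
    have hpK : p ∈ K := hSK hp
    have hin : ∀ q ∈ K, ‖q‖ < r := by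
      intro q hq
      rw [hK, mem_closedBall, dist_zero_right] at hq
      linarith
    have a1 := hn1 z p (hin z hz) (hin p hpK)
      (by rw [← dist_eq_norm]; exact lt_of_lt_of_le hzp (min_le_left _ _))
    have a2 := hn3 p hp
    have a3 := h2 p hpK z hz (by rw [dist_comm]; exact lt_of_lt_of_le hzp (min_le_right _ _))
    have e1 : g n z - g₀ z = (g n z - g n p) + (g n p - g₀ p) + (g₀ p - g₀ z) := by ring
    rw [e1]
    have b1 := abs_add_le ((g n z - g n p) + (g n p - g₀ p)) (g₀ p - g₀ z)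
    have b2 := abs_add_le (g n z - g n p) (g n p - g₀ p)
    linarith
  rw [Metric.tendsto_nhds]
  intro ε hε
  filter_upwards [hunif (ε / 6) (by positivity), hgc] with n hn hnc
  rw [Real.dist_eq, avg_subR hnc hg₀]
  refine lt_of_le_of_lt (abs_avg_le hR (C := 3 * (ε / 6)) fun s hs => hn s ?_) (by linarith)
  exact ball_subset_closedBall hs
where
  avg_subR {g h : ℂ → ℝ} (hg : Continuous g) (hh : Continuous h) {R : ℝ} :
      (⨍ s in ball (0:ℂ) R, g s) - (⨍ s in ball (0:ℂ) R, h s)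
        = ⨍ s in ball (0:ℂ) R, (g s - h s) := PairP.avg_subE hg hh R
  abs_avg_le {R : ℝ} (hR : 0 < R) {g : ℂ → ℝ} {C : ℝ} (h : ∀ s ∈ ball (0:ℂ) R, |g s| ≤ C) :
      |⨍ s in ball (0:ℂ) R, g s| ≤ C := by
    rw [setAverage_eq, smul_eq_mul, abs_mul, abs_of_nonneg (by positivity)]
    have h1 : |∫ s in ball (0:ℂ) R, g s| ≤ C * (volume : Measure ℂ).real (ball (0:ℂ) R) := by
      rw [← Real.norm_eq_abs]
      refine norm_setIntegral_le_of_norm_le_const measure_ball_lt_top fun s hs => ?_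
      rw [Real.norm_eq_abs]; exact h s hs
    have hv : 0 < (volume : Measure ℂ).real (ball (0:ℂ) R) := by
      rw [vol_ball_real _ hR.le]; positivity
    calc ((volume : Measure ℂ).real (ball (0:ℂ) R))⁻¹ * |∫ s in ball (0:ℂ) R, g s|
        ≤ ((volume : Measure ℂ).real (ball (0:ℂ) R))⁻¹
          * (C * (volume : Measure ℂ).real (ball (0:ℂ) R)) :=
          mul_le_mul_of_nonneg_left h1 (by positivity)
      _ = C := by field_simp

variable {F : ℕ → ℂ → Ω → ℝ} {B : ℝ}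

/-- equicontinuity of the four-point functions in one slot -/
lemma PreWave.slot4 (hF : PreWave P F B) {η : ℝ} (hη : 0 < η) : ∃ d > 0, ∀ r : ℝ, ∀ᶠ n in atTop,
    ∀ a b c t t' : ℂ, ‖t‖ < r → ‖t'‖ < r → ‖t - t'‖ < d →
      |c4 P F n t a b c - c4 P F n t' a b c| ≤ η := by
  have hB0 : 0 ≤ |B| := abs_nonneg _
  obtain ⟨d, hd, h⟩ := equi (P := P) hB0 hη
  refine ⟨d, hd, fun r => ?_⟩
  filter_upwards [hF.ev, hF.eqn (r + 1) 1 one_pos] with n hn hn1 a b c t t' ht ht' htt
  obtain ⟨K, hK⟩ := hn.1.bdd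
  have h2 := h (F n) hn.1 (fun ω => F n a ω * F n b ω * F n c ω)
    (((hn.1.meas a).mul (hn.1.meas b)).mul (hn.1.meas c))
    ⟨K * K * K, fun ω => by
      have hK0 : 0 ≤ K := (abs_nonneg _).trans (hK 0 ω)
      rw [abs_mul, abs_mul]
      exact mul_le_mul (mul_le_mul (hK _ _) (hK _ _) (abs_nonneg _) hK0) (hK _ _)
        (abs_nonneg _) (mul_nonneg hK0 hK0)⟩
    (fun y => (hn.1.four_bound hn.2 y a b c).trans (le_abs_self B)) (r + 1) 1 zero_le_one le_rfl
    (fun ω x hx => hn1 ω x hx) t t' (by linarith) (by linarith) htt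
  have e1 : ∀ y, c4 P F n y a b c = ∫ ω, F n y ω * (F n a ω * F n b ω * F n c ω) ∂P := by
    intro y
    unfold c4
    congr 1; funext ω; ring
  rw [e1, e1]
  exact h2

/-- equicontinuity of the two-point functions in one slot -/
lemma PreWave.slot2 (hF : PreWave P F B) {η : ℝ} (hη : 0 < η) : ∃ d > 0, ∀ r : ℝ, ∀ᶠ n in atTop,
    ∀ a t t' : ℂ, ‖t‖ < r → ‖t'‖ < r → ‖t - t'‖ < d → |c2 P F n t a - c2 P F n t' a| ≤ η := by
  have hB0 : 0 ≤ |B| + 1 := by positivity
  obtain ⟨d, hd, h⟩ := equi (P := P) hB0 hη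
  refine ⟨d, hd, fun r => ?_⟩
  filter_upwards [hF.ev, hF.eqn (r + 1) 1 one_pos] with n hn hn1 a t t' ht ht' htt
  obtain ⟨K, hK⟩ := hn.1.bdd
  have hb : ∀ y, ∫ ω, |F n y ω| * |F n a ω| ∂P ≤ |B| + 1 := by
    intro y
    have h1 : ∫ ω, |F n y ω| * |F n a ω| ∂P
        ≤ ∫ ω, (F n y ω ^ 4 + F n a ω ^ 4) / 4 + 1 / 2 ∂P := by
      refine integral_mono_of_nonneg (Eventually.of_forall fun ω => by (clear * -; positivity)) ?_
        (Eventually.of_forall fun ω => ?_)
      · exact ((((hn.1.int4 y).add (hn.1.int4 a)).div_const 4).add (integrable_const _))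
      · show |F n y ω| * |F n a ω| ≤ (F n y ω ^ 4 + F n a ω ^ 4) / 4 + 1 / 2
        have e1 : F n y ω ^ 4 = |F n y ω| ^ 4 := by
          rw [← abs_pow, abs_of_nonneg (by positivity)]
        have e2 : F n a ω ^ 4 = |F n a ω| ^ 4 := by
          rw [← abs_pow, abs_of_nonneg (by positivity)]
        rw [e1, e2]
        linarith only [sq_nonneg (|F n y ω| - |F n a ω|), sq_nonneg (|F n y ω| ^ 2 - 1), sq_nonneg (|F n a ω| ^ 2 - 1)]
    have j1 : Integrable (fun ω => F n y ω ^ 4 + F n a ω ^ 4) P := (hn.1.int4 y).add (hn.1.int4 a)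
    have j2 : Integrable (fun ω => (F n y ω ^ 4 + F n a ω ^ 4) / 4) P := j1.div_const 4
    rw [integral_add j2 (integrable_const _), integral_div,
      integral_add (hn.1.int4 y) (hn.1.int4 a)] at h1
    have h3 := hn.2 y
    have h4 := hn.2 a
    have h5 := le_abs_self B
    simp only [integral_const, probReal_univ, smul_eq_mul, one_mul] at h1
    linarith [abs_nonneg B]
  exact h (F n) hn.1 (fun ω => F n a ω) (hn.1.meas a) ⟨K, fun ω => hK a ω⟩ hb (r + 1) 1
    zero_le_one le_rfl (fun ω x hx => hn1 ω x hx) t t' (by linarith) (by linarith) htt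

omit [IsProbabilityMeasure P] in
lemma c4_swap12 (n : ℕ) (x₁ x₂ x₃ x₄ : ℂ) : c4 P F n x₁ x₂ x₃ x₄ = c4 P F n x₂ x₁ x₃ x₄ := by
  unfold c4; congr 1; funext ω; ring

omit [IsProbabilityMeasure P] in
lemma c4_swap_pairs (n : ℕ) (x₁ x₂ x₃ x₄ : ℂ) : c4 P F n x₁ x₂ x₃ x₄ = c4 P F n x₃ x₄ x₁ x₂ := by
  unfold c4; congr 1; funext ω; ring

omit [IsProbabilityMeasure P] in
lemma c2_swap (n : ℕ) (x y : ℂ) : c2 P F n x y = c2 P F n y x := by
  unfold c2; congr 1; funext ω; ring

/-- equicontinuity along a pair -/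
lemma PreWave.slot4_pair (hF : PreWave P F B) (a : ℂ) {η : ℝ} (hη : 0 < η) : ∃ d > 0, ∀ r : ℝ,
    ∀ᶠ n in atTop, ∀ b c t t' : ℂ, ‖t‖ < r → ‖t'‖ < r → ‖t - t'‖ < d →
      |c4 P F n t (a + t) b c - c4 P F n t' (a + t') b c| ≤ η := by
  obtain ⟨d, hd, h⟩ := hF.slot4 (η := η / 2) (by positivity)
  refine ⟨d, hd, fun r => ?_⟩
  filter_upwards [h (r + ‖a‖)] with n hn b c t t' ht ht' htt
  have ha := norm_nonneg a
  have h1 := hn (a + t) b c t t' (by linarith) (by linarith) htt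
  have h2 := hn t' b c (a + t) (a + t')
    (lt_of_le_of_lt (norm_add_le _ _) (by linarith))
    (lt_of_le_of_lt (norm_add_le _ _) (by linarith)) (by simpa using htt)
  rw [c4_swap12 n (a + t) t', c4_swap12 n (a + t') t'] at h2
  have e : c4 P F n t (a + t) b c - c4 P F n t' (a + t') b c
      = (c4 P F n t (a + t) b c - c4 P F n t' (a + t) b c)
      + (c4 P F n t' (a + t) b c - c4 P F n t' (a + t') b c) := by ring
  rw [e]
  have := abs_add_le (c4 P F n t (a + t) b c - c4 P F n t' (a + t) b c)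
    (c4 P F n t' (a + t) b c - c4 P F n t' (a + t') b c)
  linarith

lemma PreWave.slot2_pair (hF : PreWave P F B) (a : ℂ) {η : ℝ} (hη : 0 < η) : ∃ d > 0, ∀ r : ℝ,
    ∀ᶠ n in atTop, ∀ t t' : ℂ, ‖t‖ < r → ‖t'‖ < r → ‖t - t'‖ < d →
      |c2 P F n t (a + t) - c2 P F n t' (a + t')| ≤ η := by
  obtain ⟨d, hd, h⟩ := hF.slot2 (η := η / 2) (by positivity)
  refine ⟨d, hd, fun r => ?_⟩
  filter_upwards [h (r + ‖a‖)] with n hn t t' ht ht' htt
  have ha := norm_nonneg a
  have h1 := hn (a + t) t t' (by linarith) (by linarith) htt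
  have h2 := hn t' (a + t) (a + t')
    (lt_of_le_of_lt (norm_add_le _ _) (by linarith))
    (lt_of_le_of_lt (norm_add_le _ _) (by linarith)) (by simpa using htt)
  rw [c2_swap n (a + t) t', c2_swap n (a + t') t'] at h2
  have e : c2 P F n t (a + t) - c2 P F n t' (a + t')
      = (c2 P F n t (a + t) - c2 P F n t' (a + t))
      + (c2 P F n t' (a + t) - c2 P F n t' (a + t')) := by ring
  rw [e]
  have := abs_add_le (c2 P F n t (a + t) - c2 P F n t' (a + t))
    (c2 P F n t' (a + t) - c2 P F n t' (a + t'))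
  linarith

/-- joint continuity of the `n`-th four-point function -/
lemma SingleW.c4_cont {F : ℕ → ℂ → Ω → ℝ} {n : ℕ} (hF : SingleW P (F n)) {α : Type*}
    [TopologicalSpace α] [FirstCountableTopology α] {f₁ f₂ f₃ f₄ : α → ℂ} (h₁ : Continuous f₁)
    (h₂ : Continuous f₂) (h₃ : Continuous f₃) (h₄ : Continuous f₄) :
    Continuous fun x => c4 P F n (f₁ x) (f₂ x) (f₃ x) (f₄ x) := by
  obtain ⟨K, hK⟩ := hF.bdd
  unfold c4
  refine continuous_of_dominated (bound := fun _ => K * K * K * K) ?_ ?_ (integrable_const _) ?_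
  · intro y
    exact ((((hF.meas _).mul (hF.meas _)).mul (hF.meas _)).mul (hF.meas _)).aestronglyMeasurable
  · intro y
    refine Eventually.of_forall fun ω => ?_
    have hK0 : 0 ≤ K := (abs_nonneg _).trans (hK 0 ω)
    simp only [norm_mul, Real.norm_eq_abs]
    exact mul_le_mul (mul_le_mul (mul_le_mul (hK _ _) (hK _ _) (abs_nonneg _) hK0) (hK _ _)
      (abs_nonneg _) (mul_nonneg hK0 hK0)) (hK _ _) (abs_nonneg _)
      (mul_nonneg (mul_nonneg hK0 hK0) hK0)
  · refine Eventually.of_forall fun ω => ?_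
    have hc := (hF.smooth ω).continuous
    exact (((hc.comp h₁).mul (hc.comp h₂)).mul (hc.comp h₃)).mul (hc.comp h₄)

lemma SingleW.c2_cont {F : ℕ → ℂ → Ω → ℝ} {n : ℕ} (hF : SingleW P (F n)) {α : Type*}
    [TopologicalSpace α] [FirstCountableTopology α] {f₁ f₂ : α → ℂ} (h₁ : Continuous f₁)
    (h₂ : Continuous f₂) : Continuous fun x => c2 P F n (f₁ x) (f₂ x) := by
  obtain ⟨K, hK⟩ := hF.bdd
  unfold c2
  refine continuous_of_dominated (bound := fun _ => K * K) ?_ ?_ (integrable_const _) ?_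
  · intro y
    exact ((hF.meas _).mul (hF.meas _)).aestronglyMeasurable
  · intro y
    refine Eventually.of_forall fun ω => ?_
    have hK0 : 0 ≤ K := (abs_nonneg _).trans (hK 0 ω)
    simp only [norm_mul, Real.norm_eq_abs]
    exact mul_le_mul (hK _ _) (hK _ _) (abs_nonneg _) hK0
  · refine Eventually.of_forall fun ω => ?_
    have hc := (hF.smooth ω).continuous
    exact (hc.comp h₁).mul (hc.comp h₂)

/-- **convergence of the variances of the spatial averages** -/
lemma AWave.norm_limit (hF : AWave P F B) {U : Filter ℕ} (hU : U ≤ atTop)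
    {H : Type} [NormedAddCommGroup H] [InnerProductSpace ℝ H] [CompleteSpace H] {u : ℂ → ℂ → H}
    {one : H} (hu : PairP u) (hone : inner ℝ one one = 1)
    (h4 : ∀ x₁ x₂ x₃ x₄, Tendsto (fun n => c4 P F n x₁ x₂ x₃ x₄) U
        (𝓝 (inner ℝ (u x₁ x₂) (u x₃ x₄))))
    (h2 : ∀ x y, Tendsto (fun n => c2 P F n x y) U (𝓝 (inner ℝ (u x y) one)))
    (a : ℂ) (κ : ℝ) {R : ℝ} (hR : 0 < R) :
    Tendsto (fun n => (⨍ s in ball (0:ℂ) R, ⨍ s' in ball (0:ℂ) R, c4 P F n s (a + s) s' (a + s'))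
      - 2 * κ * (⨍ s in ball (0:ℂ) R, c2 P F n s (a + s)) + κ ^ 2) U
      (𝓝 (‖(⨍ s in ball (0:ℂ) R, u s (a + s)) - κ • one‖ ^ 2)) := by
  have hcu : Continuous fun s => u s (a + s) :=
    hu.cont₂ continuous_id (continuous_const.add continuous_id)
  have e0 : ‖(⨍ s in ball (0:ℂ) R, u s (a + s)) - κ • one‖ ^ 2
      = (⨍ s in ball (0:ℂ) R, ⨍ s' in ball (0:ℂ) R, inner ℝ (u s (a + s)) (u s' (a + s')))
        - 2 * κ * (⨍ s in ball (0:ℂ) R, inner ℝ (u s (a + s)) one) + κ ^ 2 := by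
    rw [← inner_avg_avg hcu hcu, ← PairP.inner_avg hcu one, ← real_inner_self_eq_norm_sq,
      real_inner_sub_sub_self, inner_smul_right, inner_smul_left, inner_smul_right, hone]
    simp only [conj_trivial]
    ring
  rw [e0]
  -- the inner average
  have hinner : ∀ s, Tendsto (fun n => ⨍ s' in ball (0:ℂ) R, c4 P F n s (a + s) s' (a + s')) U
      (𝓝 (⨍ s' in ball (0:ℂ) R, inner ℝ (u s (a + s)) (u s' (a + s')))) := by
    intro s
    apply lim_avg (g := fun n s' => c4 P F n s (a + s) s' (a + s')) _ _ _ _ hR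
    · filter_upwards [hU hF.ev] with n hn
      exact hn.1.c4_cont continuous_const continuous_const continuous_id
        (continuous_const.add continuous_id)
    · exact continuous_const.inner hcu
    · intro z; exact h4 _ _ _ _
    · intro r η hη
      obtain ⟨d, hd, h⟩ := hF.slot4_pair a hη
      refine ⟨d, hd, ?_⟩
      filter_upwards [hU (h r)] with n hn t t' ht ht' htt
      rw [c4_swap_pairs n s, c4_swap_pairs n s]
      exact hn s (a + s) t t' ht ht' htt
  have houter : Tendsto (fun n => ⨍ s in ball (0:ℂ) R, ⨍ s' in ball (0:ℂ) R,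
      c4 P F n s (a + s) s' (a + s')) U
      (𝓝 (⨍ s in ball (0:ℂ) R, ⨍ s' in ball (0:ℂ) R, inner ℝ (u s (a + s)) (u s' (a + s')))) := by
    apply lim_avg (g := fun n s => ⨍ s' in ball (0:ℂ) R, c4 P F n s (a + s) s' (a + s')) _ _
      hinner _ hR
    · filter_upwards [hU hF.ev] with n hn
      exact avg_param_cont (f := fun s s' => c4 P F n s (a + s) s' (a + s'))
        (hn.1.c4_cont continuous_fst (continuous_const.add continuous_fst) continuous_snd
        (continuous_const.add continuous_snd)) R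
    · exact avg_param_cont (f := fun s s' => inner ℝ (u s (a + s)) (u s' (a + s')))
        ((hcu.comp continuous_fst).inner (hcu.comp continuous_snd)) R
    · intro r η hη
      obtain ⟨d, hd, h⟩ := hF.slot4_pair a hη
      refine ⟨d, hd, ?_⟩
      filter_upwards [hU (h r), hU hF.ev] with n hn hn1 t t' ht ht' htt
      have hd1 := PairP.avg_subE (g := fun s' => c4 P F n t (a + t) s' (a + s'))
        (h := fun s' => c4 P F n t' (a + t') s' (a + s'))
        (hn1.1.c4_cont continuous_const continuous_const continuous_id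
        (continuous_const.add continuous_id)) (hn1.1.c4_cont continuous_const continuous_const
        continuous_id (continuous_const.add continuous_id)) R
      rw [hd1]
      exact lim_avg.abs_avg_le hR fun s' _ => hn s' (a + s') t t' ht ht' htt
  have h2' : Tendsto (fun n => ⨍ s in ball (0:ℂ) R, c2 P F n s (a + s)) U
      (𝓝 (⨍ s in ball (0:ℂ) R, inner ℝ (u s (a + s)) one)) := by
    apply lim_avg (g := fun n s => c2 P F n s (a + s)) _ _ _ _ hR
    · filter_upwards [hU hF.ev] with n hn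
      exact hn.1.c2_cont continuous_id (continuous_const.add continuous_id)
    · exact hcu.inner continuous_const
    · intro z; exact h2 _ _
    · intro r η hη
      obtain ⟨d, hd, h⟩ := hF.slot2_pair a hη
      refine ⟨d, hd, ?_⟩
      filter_upwards [hU (h r)] with n hn t t' ht ht' htt
      exact hn t t' ht ht' htt
  exact (houter.sub (h2'.const_mul (2 * κ))).add tendsto_const_nhds
where
  avg_param_cont {f : ℂ → ℂ → ℝ} (hf : Continuous fun p : ℂ × ℂ => f p.1 p.2) (R : ℝ) :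
      Continuous fun s => ⨍ s' in ball (0:ℂ) R, f s s' := by
    have h1 : (fun s => ⨍ s' in ball (0:ℂ) R, f s s')
        = fun s => ((volume : Measure ℂ).real (ball (0:ℂ) R))⁻¹ •
          ∫ s' in closedBall (0:ℂ) R, f s s' := by
      funext s
      rw [setAverage_eq]
      congr 1
      by_cases hR : R = 0
      · subst hR; simp
      · apply setIntegral_congr_set
        have h3 : closedBall (0:ℂ) R = ball (0:ℂ) R ∪ sphere (0:ℂ) R := ball_union_sphere.symm
        rw [h3]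
        have h4 : (volume : Measure ℂ) (sphere (0:ℂ) R) = 0 := Measure.addHaar_sphere _ _ _
        exact (union_ae_eq_left_of_ae_eq_empty (ae_eq_empty.2 h4)).symm
    rw [h1]
    have h2 : Continuous fun s => ∫ s' in closedBall (0:ℂ) R, f s s' :=
      continuous_parametric_integral_of_continuous (f := f) hf (isCompact_closedBall (0:ℂ) R)
    exact h2.const_smul ((volume : Measure ℂ).real (ball (0:ℂ) R))⁻¹

end

end Berry


end

section

/-!
Theorems on asymptotically invariant, approximately monochromatic waves.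
-/

open Complex Filter Topology MeasureTheory Metric InnerProductSpace Laplacian
open scoped ENNReal

namespace Berry

noncomputable section

variable {Ω : Type*} [MeasurableSpace Ω] {P : Measure Ω} [IsProbabilityMeasure P]

lemma avg_mul_const_R (g : ℂ → ℝ) (k : ℝ) (R : ℝ) :
    (⨍ s in ball (0:ℂ) R, k * g s) = k * ⨍ s in ball (0:ℂ) R, g s := by
  have := avg_smulE k g R
  simpa only [smul_eq_mul] using this

/-- averages of products of two shifted copies of `K` vanish -/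
lemma Kprod_avg (p q : ℂ) {σ τ : ℂ} (hσ : σ ≠ 0) :
    Tendsto (fun R : ℝ => ⨍ s in ball (0:ℂ) R, waveK (p + σ * s) * waveK (q + τ * s)) atTop
      (𝓝 0) := by
  have hv : VanInf fun s => Kc (p + σ * s) * Kc (q + τ * s) := by
    intro ε hε
    obtain ⟨N, hN⟩ := Kc_lin_van hσ p ε hε
    refine ⟨N, fun s hs => ?_⟩
    rw [norm_mul]
    calc ‖Kc (p + σ * s)‖ * ‖Kc (q + τ * s)‖ ≤ ε * 1 :=
          mul_le_mul (hN s hs) (Kc_le _) (norm_nonneg _) hε.le
      _ = ε := mul_one ε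
  have hc : Continuous fun s => Kc (p + σ * s) * Kc (q + τ * s) :=
    (Kc_continuous.comp (continuous_const.add (continuous_const.mul continuous_id))).mul
      (Kc_continuous.comp (continuous_const.add (continuous_const.mul continuous_id)))
  have h1 := (VanInf.mz hc hv (C := 1) fun s => by
    rw [norm_mul]
    exact mul_le_one₀ (Kc_le _) (norm_nonneg _) (Kc_le _)).2
  have h2 := (Complex.continuous_re.tendsto _).comp h1
  rw [Complex.zero_re] at h2
  refine h2.congr fun R => ?_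
  simp only [Function.comp]
  have e : (fun s : ℂ => Kc (p + σ * s) * Kc (q + τ * s))
      = fun s => ((waveK (p + σ * s) * waveK (q + τ * s) : ℝ) : ℂ) := by
    funext s; unfold Kc; push_cast; rfl
  rw [e, avg_ofReal, Complex.ofReal_re]

section PairOne

variable {H : Type*} [NormedAddCommGroup H] [InnerProductSpace ℝ H] [CompleteSpace H]
  {u : ℂ → ℂ → H}

/-- the covariance against an invariant vector -/
lemma PairP.cov_one (hu : PairP u) {one : H}
    (hinv : ∀ x y s, inner ℝ (u (x + s) (y + s)) one = inner ℝ (u x y) one) (a : ℂ) :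
    inner ℝ (hu.cov a) one = inner ℝ (u 0 a) one := by
  have h := hu.inner_tendsto 0 a one
  rw [sub_zero] at h
  refine tendsto_nhds_unique h (tendsto_const_nhds.congr' ?_)
  filter_upwards [eventually_gt_atTop (0:ℝ)] with R hR
  simp only [hinv]
  rw [avg_const hR]

/-- the fourth moment is at least `3/2` times the square of the second -/
lemma PairP.lower (hu : PairP u) {one : H} (hone : inner ℝ one one = (1:ℝ))
    (hinv : ∀ x y s, inner ℝ (u (x + s) (y + s)) one = inner ℝ (u x y) one) :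
    (3 / 2) * (inner ℝ (u 0 0) one) ^ 2 ≤ inner ℝ (u 0 0) (u 0 0) := by
  obtain ⟨h, hh, hform⟩ := hu.formula
  obtain ⟨h0, h1⟩ := hu.h_zero_bounds (hh 0)
  have h2 := congrArg Complex.re (hform (fun _ => 0))
  have e0 : hu.C4f (fun _ => (0:ℂ)) = ((inner ℝ (u 0 0) (u 0 0) : ℝ) : ℂ) := rfl
  have e1 : hu.P12 (fun _ => (0:ℂ)) = ((‖hu.cov 0‖ ^ 2 : ℝ) : ℂ) := by
    have : hu.P12 (fun _ => (0:ℂ)) = ((inner ℝ (hu.cov (0 - 0)) (hu.cov (0 - 0)) : ℝ) : ℂ) := rfl
    rw [this, sub_zero, real_inner_self_eq_norm_sq]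
  have e2 : hu.P23 (fun _ => (0:ℂ)) = ((‖hu.cov 0‖ ^ 2 : ℝ) : ℂ) := by
    have : hu.P23 (fun _ => (0:ℂ)) = ((inner ℝ (hu.cov (0 - 0)) (hu.cov (0 - 0)) : ℝ) : ℂ) := rfl
    rw [this, sub_zero, real_inner_self_eq_norm_sq]
  have e3 : hu.P13 (fun _ => (0:ℂ)) = ((‖hu.cov 0‖ ^ 2 : ℝ) : ℂ) := by
    have : hu.P13 (fun _ => (0:ℂ)) = ((inner ℝ (hu.cov (0 - 0)) (hu.cov (0 - 0)) : ℝ) : ℂ) := rfl
    rw [this, sub_zero, real_inner_self_eq_norm_sq]
  rw [e0, e1, e2, e3] at h2
  simp only [add_zero, sub_zero, Complex.add_re, Complex.sub_re, Complex.ofReal_re] at h2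
  have h3 : (inner ℝ (u 0 0) one) ^ 2 ≤ ‖hu.cov 0‖ ^ 2 := by
    rw [← hu.cov_one hinv]
    have h4 : |inner ℝ (hu.cov 0) one| ≤ ‖hu.cov 0‖ * ‖one‖ := abs_real_inner_le_norm _ _
    have h5 : ‖one‖ = 1 := by
      have : ‖one‖ ^ 2 = 1 := by rw [← real_inner_self_eq_norm_sq, hone]
      nlinarith only [this, norm_nonneg one]
    rw [h5, mul_one] at h4
    rw [← sq_abs]
    exact pow_le_pow_left₀ (abs_nonneg _) h4 2
  rw [h2]
  linarith only [h1, h3]

/-- the fourth moment is at most `3` times the square of the norm of the local mass -/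
lemma PairP.upper (hu : PairP u) : inner ℝ (u 0 0) (u 0 0) ≤ 3 * ‖hu.cov 0‖ ^ 2 := by
  obtain ⟨h, hh, hform⟩ := hu.formula
  obtain ⟨h0, h1⟩ := hu.h_zero_bounds (hh 0)
  have h2 := congrArg Complex.re (hform (fun _ => 0))
  have e0 : hu.C4f (fun _ => (0:ℂ)) = ((inner ℝ (u 0 0) (u 0 0) : ℝ) : ℂ) := rfl
  have e1 : hu.P12 (fun _ => (0:ℂ)) = ((‖hu.cov 0‖ ^ 2 : ℝ) : ℂ) := by
    have : hu.P12 (fun _ => (0:ℂ)) = ((inner ℝ (hu.cov (0 - 0)) (hu.cov (0 - 0)) : ℝ) : ℂ) := rfl
    rw [this, sub_zero, real_inner_self_eq_norm_sq]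
  have e2 : hu.P23 (fun _ => (0:ℂ)) = ((‖hu.cov 0‖ ^ 2 : ℝ) : ℂ) := by
    have : hu.P23 (fun _ => (0:ℂ)) = ((inner ℝ (hu.cov (0 - 0)) (hu.cov (0 - 0)) : ℝ) : ℂ) := rfl
    rw [this, sub_zero, real_inner_self_eq_norm_sq]
  have e3 : hu.P13 (fun _ => (0:ℂ)) = ((‖hu.cov 0‖ ^ 2 : ℝ) : ℂ) := by
    have : hu.P13 (fun _ => (0:ℂ)) = ((inner ℝ (hu.cov (0 - 0)) (hu.cov (0 - 0)) : ℝ) : ℂ) := rfl
    rw [this, sub_zero, real_inner_self_eq_norm_sq]
  rw [e0, e1, e2, e3] at h2
  simp only [add_zero, sub_zero, Complex.add_re, Complex.sub_re, Complex.ofReal_re] at h2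
  rw [h2]
  linarith only [h0]

/-- if all the covariances are the deterministic ones, the four-point function is Gaussian -/
lemma PairP.wick (hu : PairP u) {one : H} (hone : inner ℝ one one = (1:ℝ)) {v : ℝ}
    (hcov : ∀ a, hu.cov a = (v * waveK a) • one) (x₁ x₂ x₃ x₄ : ℂ) :
    inner ℝ (u x₁ x₂) (u x₃ x₄) = v ^ 2 * (waveK (x₁ - x₂) * waveK (x₃ - x₄)
      + waveK (x₁ - x₃) * waveK (x₂ - x₄) + waveK (x₁ - x₄) * waveK (x₂ - x₃)) := by
  obtain ⟨h, hh, hform⟩ := hu.formula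
  have hcc : ∀ a b, inner ℝ (hu.cov a) (hu.cov b) = v ^ 2 * (waveK a * waveK b) := by
    intro a b
    rw [hcov, hcov, inner_smul_left, inner_smul_right, hone]
    simp only [conj_trivial]; ring
  have hz : ∀ y, h y = 0 := by
    intro y
    refine tendsto_nhds_unique (hh y) ?_
    have e : hu.gg y = fun s => ((inner ℝ (hu.cov s) (hu.cov (s + y)) : ℝ) : ℂ) := rfl
    have h1 : Tendsto (fun R : ℝ => ⨍ s in ball (0:ℂ) R, inner ℝ (hu.cov s) (hu.cov (s + y)))
        atTop (𝓝 (v ^ 2 * 0)) := by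
      refine ((Kprod_avg 0 y (σ := 1) (τ := 1) one_ne_zero).const_mul (v ^ 2)).congr fun R => ?_
      rw [← avg_mul_const_R]
      congr 1; funext s
      rw [hcc]
      congr 2
      · congr 1; ring
      · congr 1; ring
    rw [mul_zero] at h1
    have h2 := (Complex.continuous_ofReal.tendsto _).comp h1
    rw [Complex.ofReal_zero] at h2
    refine h2.congr fun R => ?_
    rw [e, avg_ofReal]; rfl
  have h2 := congrArg Complex.re (hform ![x₁, x₂, x₃, x₄])
  have e0 : hu.C4f ![x₁, x₂, x₃, x₄] = ((inner ℝ (u x₁ x₂) (u x₃ x₄) : ℝ) : ℂ) := rfl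
  have e1 : hu.P12 ![x₁, x₂, x₃, x₄]
      = ((inner ℝ (hu.cov (x₂ - x₁)) (hu.cov (x₄ - x₃)) : ℝ) : ℂ) := rfl
  have e2 : hu.P23 ![x₁, x₂, x₃, x₄]
      = ((inner ℝ (hu.cov (x₃ - x₂)) (hu.cov (x₄ - x₁)) : ℝ) : ℂ) := rfl
  have e3 : hu.P13 ![x₁, x₂, x₃, x₄]
      = ((inner ℝ (hu.cov (x₃ - x₁)) (hu.cov (x₄ - x₂)) : ℝ) : ℂ) := rfl
  rw [e0, e1, e2, e3, hz, hz, hz, hcc, hcc, hcc] at h2
  simp only [sub_zero, Complex.add_re, Complex.ofReal_re] at h2
  rw [h2]
  have k : ∀ a b : ℂ, waveK (a - b) = waveK (b - a) := by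
    intro a b; rw [← waveK_neg, neg_sub]
  rw [k x₂ x₁, k x₄ x₃, k x₃ x₂, k x₄ x₁, k x₃ x₁, k x₄ x₂]
  ring

/-- conversely, a Gaussian four-point function forces the covariances to be deterministic -/
lemma PairP.cov_of_wick (hu : PairP u) {one : H} (hone : inner ℝ one one = (1:ℝ)) {v : ℝ}
    (hinv : ∀ x y s, inner ℝ (u (x + s) (y + s)) one = inner ℝ (u x y) one)
    (hv : inner ℝ (u 0 0) one = v)
    (hw : ∀ x₁ x₂ x₃ x₄, inner ℝ (u x₁ x₂) (u x₃ x₄) = v ^ 2 * (waveK (x₁ - x₂) * waveK (x₃ - x₄)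
      + waveK (x₁ - x₃) * waveK (x₂ - x₄) + waveK (x₁ - x₄) * waveK (x₂ - x₃))) (a : ℂ) :
    hu.cov a = (v * waveK a) • one := by
  have k : ∀ a b : ℂ, waveK (a - b) = waveK (b - a) := by
    intro a b; rw [← waveK_neg, neg_sub]
  have hcc : ∀ a b, inner ℝ (hu.cov a) (hu.cov b) = v ^ 2 * (waveK a * waveK b) := by
    intro a b
    have h1 := hu.inner_cov 0 a b
    rw [sub_zero] at h1
    rw [← h1, real_inner_comm]
    have h2 := hu.inner_tendsto 0 b (u 0 a)
    rw [sub_zero] at h2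
    refine tendsto_nhds_unique h2 ?_
    have t1 := ((Kprod_avg 0 (b - a) (σ := 1) (τ := 1) one_ne_zero).add
      (Kprod_avg (-a) b (σ := 1) (τ := 1) one_ne_zero)).const_mul (v ^ 2)
    have t2 : Tendsto (fun _ : ℝ => v ^ 2 * (waveK a * waveK b)) atTop
        (𝓝 (v ^ 2 * (waveK a * waveK b))) := tendsto_const_nhds
    have t3 := t1.add t2
    rw [add_zero, mul_zero, zero_add] at t3
    refine t3.congr' ?_
    filter_upwards [eventually_gt_atTop (0:ℝ)] with R hR
    have c1 : ∀ p q : ℂ, Continuous fun s : ℂ => waveK (p + 1 * s) * waveK (q + 1 * s) := by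
      intro p q
      have a1 : Continuous fun s : ℂ => p + 1 * s := by fun_prop
      have a2 : Continuous fun s : ℂ => q + 1 * s := by fun_prop
      exact (waveK_continuous.comp a1).mul (waveK_continuous.comp a2)
    rw [← avg_addR (c1 _ _) (c1 _ _), ← avg_mul_const_R]
    have e3 := avg_addR (g := fun s : ℂ => v ^ 2 * (waveK (0 + 1 * s) * waveK (b - a + 1 * s)
      + waveK (-a + 1 * s) * waveK (b + 1 * s))) (h := fun _ => v ^ 2 * (waveK a * waveK b))
      (continuous_const.mul ((c1 _ _).add (c1 _ _))) continuous_const R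
    rw [avg_const hR] at e3
    rw [← e3]
    congr 1; funext s
    rw [hw, k (0 + s) (b + s), k (b + s) (0 + s)]
    have f1 : waveK (0 + s - (b + s)) = waveK b := by
      rw [← waveK_neg]; congr 1; ring
    have f2 : waveK (b + s - (0 + s)) = waveK b := by congr 1; ring
    have f3 : waveK (0 - a) = waveK a := by rw [← waveK_neg]; congr 1; ring
    have f4 : (0 : ℂ) + 1 * s = 0 + s - 0 := by ring
    have f5 : b - a + 1 * s = b + s - a := by ring
    have f6 : -a + 1 * s = 0 + s - a := by ring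
    have f7 : b + 1 * s = b + s - 0 := by ring
    rw [f1, f3, f4, f5, f6, f7]
    ring
  have hone' : ‖one‖ = 1 := by
    have : ‖one‖ ^ 2 = 1 := by rw [← real_inner_self_eq_norm_sq, hone]
    nlinarith [norm_nonneg one]
  have hc0 : inner ℝ (hu.cov 0) one = v := by rw [hu.cov_one hinv]; exact hv
  have h0 : hu.cov 0 = v • one := by
    have h1 : ‖hu.cov 0 - v • one‖ ^ 2 = 0 := by
      rw [← real_inner_self_eq_norm_sq, real_inner_sub_sub_self, hcc, inner_smul_right, hc0,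
        inner_smul_left, inner_smul_right, hone, waveK_zero]
      simp only [conj_trivial]; ring
    have h2 : ‖hu.cov 0 - v • one‖ = 0 := by simpa using h1
    exact sub_eq_zero.1 (norm_eq_zero.1 h2)
  have h1 : inner ℝ (hu.cov a) one * v = v * waveK a * v := by
    have h2 := hcc a 0
    rw [h0, inner_smul_right, waveK_zero] at h2
    linarith
  have h3 : ‖hu.cov a - (v * waveK a) • one‖ ^ 2 = 0 := by
    rw [← real_inner_self_eq_norm_sq, real_inner_sub_sub_self, hcc, inner_smul_right,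
      inner_smul_left, inner_smul_right, hone]
    simp only [conj_trivial]
    have : v * waveK a * inner ℝ (hu.cov a) one = v ^ 2 * (waveK a * waveK a) := by
      have : v * waveK a * inner ℝ (hu.cov a) one = waveK a * (inner ℝ (hu.cov a) one * v) := by
        ring
      rw [this, h1]; ring
    rw [this]; ring
  have h4 : ‖hu.cov a - (v * waveK a) • one‖ = 0 := by simpa using h3
  exact sub_eq_zero.1 (norm_eq_zero.1 h4)

end PairOne


/-- **asymptotic Planck-scale quantum ergodicity**, in mean square: the spatial averages of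
`Fₙ(x) Fₙ(x + a)` over discs of large fixed radius `R` are, for large `n`, mean square close to
`v K(a)`. -/
def AsyPlanck (P : Measure Ω) (F : ℕ → ℂ → Ω → ℝ) (v : ℝ) : Prop :=
  ∀ a : ℂ, ∀ ε > 0, ∃ R₀ : ℝ, ∀ R ≥ R₀, ∀ᶠ n in atTop,
    ∫ ω, (spatialAvg (F n) a R ω - v * waveK a) ^ 2 ∂P ≤ ε

lemma ball_finite (R : ℝ) : IsFiniteMeasure ((volume : Measure ℂ).restrict (ball 0 R)) :=
  ⟨by rw [Measure.restrict_apply_univ]; exact measure_ball_lt_top⟩

/-- the mean square of a spatial average in terms of the correlation functions -/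
lemma SingleW.planck_eq {F : ℕ → ℂ → Ω → ℝ} {n : ℕ} (hF : SingleW P (F n)) (a : ℂ) (κ : ℝ)
    (R : ℝ) :
    ∫ ω, (spatialAvg (F n) a R ω - κ) ^ 2 ∂P
      = (⨍ s in ball (0:ℂ) R, ⨍ s' in ball (0:ℂ) R, c4 P F n s (a + s) s' (a + s'))
      - 2 * κ * (⨍ s in ball (0:ℂ) R, c2 P F n s (a + s)) + κ ^ 2 := by
  have := ball_finite R
  obtain ⟨K, hK⟩ := hF.bdd
  have hm := hF.meas_uncurry
  set w : ℝ := ((volume : Measure ℂ).real (ball (0:ℂ) R))⁻¹ with hw
  set g : ℂ → Ω → ℝ := fun s ω => F n s ω * F n (s + a) ω with hg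
  have hgm : Measurable (Function.uncurry g) := by
    have h1 : Measurable fun p : ℂ × Ω => F n (p.1 + a) p.2 := by
      have h2 : Measurable fun p : ℂ × Ω => (p.1 + a, p.2) := by fun_prop
      exact hm.comp h2
    exact hm.mul h1
  have hgb : ∀ s ω, |g s ω| ≤ K * K := by
    intro s ω
    rw [hg, abs_mul]
    exact mul_le_mul (hK _ _) (hK _ _) (abs_nonneg _) ((abs_nonneg _).trans (hK 0 ω))
  have e1 : ∀ ω, spatialAvg (F n) a R ω = w * ∫ s in ball (0:ℂ) R, g s ω := by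
    intro ω
    unfold spatialAvg
    rw [setAverage_eq, smul_eq_mul]
  set A : Ω → ℝ := fun ω => ∫ s in ball (0:ℂ) R, g s ω with hA
  have hAm : Measurable A := by
    have h1 : Measurable (Function.uncurry fun (ω : Ω) (s : ℂ) => g s ω) :=
      hgm.comp measurable_swap
    exact (h1.stronglyMeasurable.integral_prod_right').measurable
  set V : ℝ := ((volume : Measure ℂ).restrict (ball (0:ℂ) R)).real Set.univ with hV
  have hAb : ∀ ω, |A ω| ≤ K * K * V := by
    intro ω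
    have h1 : ‖∫ s in ball (0:ℂ) R, g s ω‖ ≤ K * K * V :=
      norm_integral_le_of_norm_le_const (Eventually.of_forall fun s => by
        rw [Real.norm_eq_abs]; exact hgb s ω)
    exact h1
  -- first moment
  have hA1 : ∫ ω, A ω ∂P = ∫ s in ball (0:ℂ) R, c2 P F n s (a + s) := by
    rw [hA]
    have h1 : Measurable (Function.uncurry fun (ω : Ω) (s : ℂ) => g s ω) :=
      hgm.comp measurable_swap
    have h2 := swap_bdd (ν := P) (μ := (volume : Measure ℂ).restrict (ball (0:ℂ) R)) h1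
      (C := K * K) (fun ω s => hgb s ω)
    rw [h2]
    congr 1; funext s
    unfold c2
    congr 1; funext ω
    rw [hg]
    simp only
    rw [add_comm s a]
  -- second moment
  have hA2 : ∫ ω, A ω ^ 2 ∂P
      = ∫ s in ball (0:ℂ) R, ∫ s' in ball (0:ℂ) R, c4 P F n s (a + s) s' (a + s') := by
    have e2 : ∀ ω, A ω ^ 2 = ∫ s in ball (0:ℂ) R, g s ω * A ω := by
      intro ω
      rw [integral_mul_const, sq]
    simp only [e2]
    have h1 : Measurable (Function.uncurry fun (ω : Ω) (s : ℂ) => g s ω * A ω) := by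
      have h2 : Measurable fun p : Ω × ℂ => g p.2 p.1 := hgm.comp measurable_swap
      exact h2.mul (hAm.comp measurable_fst)
    have h2 := swap_bdd (ν := P) (μ := (volume : Measure ℂ).restrict (ball (0:ℂ) R)) h1
      (C := K * K * (K * K * V)) (fun ω s => by
        rw [abs_mul]
        exact mul_le_mul (hgb s ω) (hAb ω) (abs_nonneg _) ((abs_nonneg _).trans (hgb s ω)))
    rw [h2]
    congr 1; funext s
    have e3 : ∀ ω, g s ω * A ω = ∫ s' in ball (0:ℂ) R, g s ω * g s' ω := by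
      intro ω
      rw [integral_const_mul]
    simp only [e3]
    have h3 : Measurable (Function.uncurry fun (ω : Ω) (s' : ℂ) => g s ω * g s' ω) := by
      have h4 : Measurable fun p : Ω × ℂ => g p.2 p.1 := hgm.comp measurable_swap
      have h5 : Measurable fun ω => g s ω := hgm.comp (measurable_const.prodMk measurable_id)
      exact (h5.comp measurable_fst).mul h4
    have h6 := swap_bdd (ν := P) (μ := (volume : Measure ℂ).restrict (ball (0:ℂ) R)) h3
      (C := K * K * (K * K)) (fun ω s' => by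
        rw [abs_mul]
        exact mul_le_mul (hgb s ω) (hgb s' ω) (abs_nonneg _) ((abs_nonneg _).trans (hgb s ω)))
    rw [h6]
    congr 1; funext s'
    unfold c4
    congr 1; funext ω
    rw [hg]
    simp only
    rw [add_comm s a, add_comm s' a]; ring
  have hAi : Integrable A P := integrable_bdd hAm hAb
  have hA2i : Integrable (fun ω => A ω ^ 2) P := by
    refine integrable_bdd (C := (K * K * V) ^ 2) (hAm.pow_const 2) fun ω => ?_
    rw [abs_pow]
    exact pow_le_pow_left₀ (abs_nonneg _) (hAb ω) 2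
  have e4 : ∀ ω, (spatialAvg (F n) a R ω - κ) ^ 2
      = w ^ 2 * A ω ^ 2 - 2 * κ * w * A ω + κ ^ 2 := by
    intro ω
    rw [e1]; ring
  simp only [e4]
  have i1 : Integrable (fun ω => w ^ 2 * A ω ^ 2) P := hA2i.const_mul _
  have i2 : Integrable (fun ω => 2 * κ * w * A ω) P := hAi.const_mul _
  have i3 : Integrable (fun ω => w ^ 2 * A ω ^ 2 - 2 * κ * w * A ω) P := i1.sub i2
  rw [integral_add i3 (integrable_const _), integral_sub i1 i2, integral_const_mul,
    integral_const_mul, hA1, hA2]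
  have e5 : (⨍ s in ball (0:ℂ) R, ⨍ s' in ball (0:ℂ) R, c4 P F n s (a + s) s' (a + s'))
      = w ^ 2 * ∫ s in ball (0:ℂ) R, ∫ s' in ball (0:ℂ) R, c4 P F n s (a + s) s' (a + s') := by
    rw [setAverage_eq, smul_eq_mul]
    have : ∀ s, (⨍ s' in ball (0:ℂ) R, c4 P F n s (a + s) s' (a + s'))
        = w * ∫ s' in ball (0:ℂ) R, c4 P F n s (a + s) s' (a + s') := by
      intro s
      rw [setAverage_eq, smul_eq_mul]
    simp only [this]
    rw [integral_const_mul, sq, mul_assoc]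
  have e6 : (⨍ s in ball (0:ℂ) R, c2 P F n s (a + s))
      = w * ∫ s in ball (0:ℂ) R, c2 P F n s (a + s) := by
    rw [setAverage_eq, smul_eq_mul]
  rw [e5, e6]
  simp only [integral_const, probReal_univ, smul_eq_mul, one_mul]
  ring

variable {F : ℕ → ℂ → Ω → ℝ} {B : ℝ}

omit [IsProbabilityMeasure P] in
lemma AWave.inv_one (hF : AWave P F B) {U : Ultrafilter ℕ} (hU : (U : Filter ℕ) ≤ atTop)
    {H : Type} [NormedAddCommGroup H] [InnerProductSpace ℝ H] {u : ℂ → ℂ → H} {one : H}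
    (h2 : ∀ x y, Tendsto (fun n => c2 P F n x y) (U : Filter ℕ) (𝓝 (inner ℝ (u x y) one)))
    (x y s : ℂ) : inner ℝ (u (x + s) (y + s)) one = inner ℝ (u x y) one := by
  have h3 := (h2 (x + s) (y + s)).sub (h2 x y)
  have h4 := (hF.inv2 x y s).mono_left hU
  have := tendsto_nhds_unique h3 h4
  linarith

/-- an ultrafilter on `ℕ` finer than `atTop` -/
lemma exists_ultra : ∃ U : Ultrafilter ℕ, (U : Filter ℕ) ≤ atTop :=
  ⟨Ultrafilter.of atTop, Ultrafilter.of_le _⟩

/-- **lower bound for the fourth moments** -/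
theorem AWave.lower (hF : AWave P F B) {v L : ℝ}
    (hv : Tendsto (fun n => c2 P F n 0 0) atTop (𝓝 v)) (hL : ∀ᶠ n in atTop, c4 P F n 0 0 0 0 ≤ L) :
    (3 / 2) * v ^ 2 ≤ L := by
  obtain ⟨U, hU⟩ := exists_ultra
  obtain ⟨H, i1, i2, i3, u, one, hu, hone, h4, h2⟩ := hF.limit U hU
  have hv' : inner ℝ (u 0 0) one = v := tendsto_nhds_unique (h2 0 0) (hv.mono_left hU)
  have h := hu.lower hone (hF.inv_one hU h2)
  rw [hv'] at h
  exact h.trans (le_of_tendsto (h4 0 0 0 0) (hU hL))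

/-- in the limit the covariances are deterministic under Planck-scale quantum ergodicity -/
lemma AWave.cov_of_planck (hF : AWave P F B) {v : ℝ} (a : ℂ)
    (hq : ∀ ε > 0, ∃ R₀ : ℝ, ∀ R ≥ R₀, ∀ᶠ n in atTop,
      ∫ ω, (spatialAvg (F n) a R ω - v * waveK a) ^ 2 ∂P ≤ ε) {U : Filter ℕ} [U.NeBot]
    (hU : U ≤ atTop) {H : Type} [NormedAddCommGroup H] [InnerProductSpace ℝ H] [CompleteSpace H]
    {u : ℂ → ℂ → H} {one : H} (hu : PairP u) (hone : inner ℝ one one = (1:ℝ))
    (h4 : ∀ x₁ x₂ x₃ x₄, Tendsto (fun n => c4 P F n x₁ x₂ x₃ x₄) U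
        (𝓝 (inner ℝ (u x₁ x₂) (u x₃ x₄))))
    (h2 : ∀ x y, Tendsto (fun n => c2 P F n x y) U (𝓝 (inner ℝ (u x y) one))) :
    hu.cov a = (v * waveK a) • one := by
  have key : ∀ ε > 0, ‖hu.cov a - (v * waveK a) • one‖ ^ 2 ≤ ε := by
    intro ε hε
    obtain ⟨R₀, hR₀⟩ := hq ε hε
    have h1 : Tendsto (fun R : ℝ => ‖(⨍ s in ball (0:ℂ) R, u s (a + s)) - (v * waveK a) • one‖ ^ 2)
        atTop (𝓝 (‖hu.cov a - (v * waveK a) • one‖ ^ 2)) :=
      (((hu.tendsto_cov a).sub tendsto_const_nhds).norm).pow 2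
    refine le_of_tendsto h1 ?_
    filter_upwards [eventually_gt_atTop (0:ℝ), eventually_ge_atTop R₀] with R hR hR1
    have h3 := hF.norm_limit hU hu hone h4 h2 a (v * waveK a) hR
    refine le_of_tendsto h3 ?_
    filter_upwards [hU hF.ev, hU (hR₀ R hR1)] with n hn hn2
    rw [← hn.1.planck_eq]
    exact hn2
  have h0 : ‖hu.cov a - (v * waveK a) • one‖ ^ 2 ≤ 0 :=
    le_of_forall_pos_le_add fun ε hε => by simpa using key ε hε
  have h1 : ‖hu.cov a - (v * waveK a) • one‖ = 0 := by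
    have := sq_nonneg ‖hu.cov a - (v * waveK a) • one‖
    have h2 : ‖hu.cov a - (v * waveK a) • one‖ ^ 2 = 0 := le_antisymm h0 this
    simpa using h2
  exact sub_eq_zero.1 (norm_eq_zero.1 h1)

/-- **upper bound for the fourth moments** under equidistribution of mass at the Planck scale -/
theorem AWave.upper (hF : AWave P F B) {v L : ℝ}
    (hq : ∀ ε > 0, ∃ R₀ : ℝ, ∀ R ≥ R₀, ∀ᶠ n in atTop,
      ∫ ω, (spatialAvg (F n) 0 R ω - v) ^ 2 ∂P ≤ ε) (hL : ∀ᶠ n in atTop, L ≤ c4 P F n 0 0 0 0) :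
    L ≤ 3 * v ^ 2 := by
  obtain ⟨U, hU⟩ := exists_ultra
  obtain ⟨H, i1, i2, i3, u, one, hu, hone, h4, h2⟩ := hF.limit U hU
  have h0 := hF.cov_of_planck (v := v) 0 (by simpa [waveK_zero] using hq) hU hu hone h4 h2
  have h := hu.upper
  rw [h0, waveK_zero, mul_one, norm_smul] at h
  have hone' : ‖one‖ = 1 := by
    have : ‖one‖ ^ 2 = 1 := by rw [← real_inner_self_eq_norm_sq, hone]
    nlinarith only [this, norm_nonneg one]
  rw [hone', mul_one, Real.norm_eq_abs, sq_abs] at h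
  exact (ge_of_tendsto (h4 0 0 0 0) (hU hL)).trans h

/-- **Planck-scale quantum ergodicity implies Gaussian four-point functions.** -/
theorem AWave.gauss_of_planck (hF : AWave P F B) {v : ℝ} (hq : AsyPlanck P F v) :
    (∀ x₁ x₂ x₃ x₄, Tendsto (fun n => c4 P F n x₁ x₂ x₃ x₄) atTop
      (𝓝 (v ^ 2 * (waveK (x₁ - x₂) * waveK (x₃ - x₄) + waveK (x₁ - x₃) * waveK (x₂ - x₄)
        + waveK (x₁ - x₄) * waveK (x₂ - x₃))))) ∧
    ∀ x y, Tendsto (fun n => c2 P F n x y) atTop (𝓝 (v * waveK (x - y))) := by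
  constructor
  · intro x₁ x₂ x₃ x₄
    rw [tendsto_iff_ultrafilter]
    intro U hU
    obtain ⟨H, i1, i2, i3, u, one, hu, hone, h4, h2⟩ := hF.limit U hU
    have hcov := fun a => hF.cov_of_planck (v := v) a (hq a) hU hu hone h4 h2
    have := h4 x₁ x₂ x₃ x₄
    rw [hu.wick hone hcov] at this
    exact this
  · intro x y
    rw [tendsto_iff_ultrafilter]
    intro U hU
    obtain ⟨H, i1, i2, i3, u, one, hu, hone, h4, h2⟩ := hF.limit U hU
    have hcov := fun a => hF.cov_of_planck (v := v) a (hq a) hU hu hone h4 h2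
    have h5 := h2 x y
    have h6 := hF.inv_one hU h2 0 (y - x) x
    rw [zero_add, sub_add_cancel, ← hu.cov_one (hF.inv_one hU h2), hcov, inner_smul_left, hone]
      at h6
    rw [h6] at h5
    simp only [conj_trivial, mul_one] at h5
    rw [← waveK_neg, neg_sub]
    exact h5

/-- **Gaussian four-point functions imply Planck-scale quantum ergodicity.** -/
theorem AWave.planck_of_gauss (hF : AWave P F B) {v : ℝ}
    (hv : Tendsto (fun n => c2 P F n 0 0) atTop (𝓝 v))
    (hw : ∀ x₁ x₂ x₃ x₄, Tendsto (fun n => c4 P F n x₁ x₂ x₃ x₄) atTop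
      (𝓝 (v ^ 2 * (waveK (x₁ - x₂) * waveK (x₃ - x₄) + waveK (x₁ - x₃) * waveK (x₂ - x₄)
        + waveK (x₁ - x₄) * waveK (x₂ - x₃))))) : AsyPlanck P F v := by
  -- the two-point functions converge
  have h2c : ∀ x y, Tendsto (fun n => c2 P F n x y) atTop (𝓝 (v * waveK (x - y))) := by
    intro x y
    rw [tendsto_iff_ultrafilter]
    intro U hU
    obtain ⟨H, i1, i2, i3, u, one, hu, hone, h4, h2⟩ := hF.limit U hU
    have hw' : ∀ x₁ x₂ x₃ x₄, inner ℝ (u x₁ x₂) (u x₃ x₄) = _ := fun x₁ x₂ x₃ x₄ =>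
      tendsto_nhds_unique (h4 x₁ x₂ x₃ x₄) ((hw x₁ x₂ x₃ x₄).mono_left hU)
    have hv' : inner ℝ (u 0 0) one = v := tendsto_nhds_unique (h2 0 0) (hv.mono_left hU)
    have hcov := hu.cov_of_wick hone (hF.inv_one hU h2) hv' hw'
    have h5 := h2 x y
    have h6 := hF.inv_one hU h2 0 (y - x) x
    rw [zero_add, sub_add_cancel, ← hu.cov_one (hF.inv_one hU h2), hcov, inner_smul_left, hone]
      at h6
    rw [h6] at h5
    simp only [conj_trivial, mul_one] at h5
    rw [← waveK_neg, neg_sub]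
    exact h5
  obtain ⟨U, hU⟩ := exists_ultra
  obtain ⟨H, i1, i2, i3, u, one, hu, hone, h4, h2⟩ := hF.limit U hU
  have hw' : ∀ x₁ x₂ x₃ x₄, inner ℝ (u x₁ x₂) (u x₃ x₄) = _ := fun x₁ x₂ x₃ x₄ =>
    tendsto_nhds_unique (h4 x₁ x₂ x₃ x₄) ((hw x₁ x₂ x₃ x₄).mono_left hU)
  have hv' : inner ℝ (u 0 0) one = v := tendsto_nhds_unique (h2 0 0) (hv.mono_left hU)
  have hcov := hu.cov_of_wick hone (hF.inv_one hU h2) hv' hw'
  have h4' : ∀ x₁ x₂ x₃ x₄, Tendsto (fun n => c4 P F n x₁ x₂ x₃ x₄) atTop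
      (𝓝 (inner ℝ (u x₁ x₂) (u x₃ x₄))) := by
    intro x₁ x₂ x₃ x₄
    rw [hw' x₁ x₂ x₃ x₄]
    exact hw x₁ x₂ x₃ x₄
  have h2' : ∀ x y, Tendsto (fun n => c2 P F n x y) atTop (𝓝 (inner ℝ (u x y) one)) := by
    intro x y
    have := tendsto_nhds_unique (h2 x y) ((h2c x y).mono_left hU)
    rw [this]
    exact h2c x y
  intro a ε hε
  have h1 : Tendsto (fun R : ℝ => ‖(⨍ s in ball (0:ℂ) R, u s (a + s)) - (v * waveK a) • one‖ ^ 2)
      atTop (𝓝 0) := by
    have h3 : Tendsto (fun R : ℝ => ‖(⨍ s in ball (0:ℂ) R, u s (a + s))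
        - (v * waveK a) • one‖ ^ 2) atTop (𝓝 (‖hu.cov a - (v * waveK a) • one‖ ^ 2)) :=
      (((hu.tendsto_cov a).sub tendsto_const_nhds).norm).pow 2
    rw [hcov a, sub_self, norm_zero, zero_pow (by norm_num)] at h3
    exact h3
  have h5 : ∀ᶠ R : ℝ in atTop,
      ‖(⨍ s in ball (0:ℂ) R, u s (a + s)) - (v * waveK a) • one‖ ^ 2 < ε :=
    h1.eventually (gt_mem_nhds hε)
  obtain ⟨R₁, hR₁⟩ := Filter.eventually_atTop.1 (h5.and (eventually_gt_atTop (0:ℝ)))
  refine ⟨R₁, fun R hR => ?_⟩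
  obtain ⟨h6, hR0⟩ := hR₁ R hR
  have h3 := hF.norm_limit le_rfl hu hone h4' h2' a (v * waveK a) hR0
  filter_upwards [hF.ev, h3.eventually (gt_mem_nhds h6)] with n hn hn2
  rw [hn.1.planck_eq]
  exact hn2.le

end

end Berry


end

section

/-!
Local waves of eigenfunctions on the hyperbolic plane: smoothness and the equation.
-/

open UpperHalfPlane MeasureTheory ProbabilityTheory MatrixGroups Filter Topology Set
  InnerProductSpace Laplacian
open scoped ENNReal NNReal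

namespace Berry

noncomputable section

/-- one eigenfunction -/
structure Eig (φ : ℍ → ℝ) (m : ℝ) : Prop where
  smooth : ContDiffOn ℝ 2 (fun w : ℂ => φ (ofComplex w)) {w | 0 < w.im}
  eigen : ∀ z : ℍ, z.im ^ 2 * (Δ (fun w : ℂ => φ (ofComplex w))) z = - (m ^ 2 * φ z)

lemma isOpen_uhp : IsOpen {w : ℂ | 0 < w.im} := isOpen_lt continuous_const Complex.continuous_im

lemma Eig.continuous {φ : ℍ → ℝ} {m : ℝ} (h : Eig φ m) : Continuous φ := by
  rw [continuous_iff_continuousAt]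
  intro z
  have h1 : ContinuousAt (fun w : ℂ => φ (ofComplex w)) (z : ℂ) :=
    h.smooth.continuousOn.continuousAt (isOpen_uhp.mem_nhds z.im_pos)
  have h2 : ContinuousAt (fun z : ℍ => φ (ofComplex (z : ℂ))) z :=
    ContinuousAt.comp (g := fun w : ℂ => φ (ofComplex w)) (f := fun z : ℍ => (z : ℂ)) h1
      continuous_coe.continuousAt
  simpa only [ofComplex_apply] using h2

lemma coe_ofComplex {w : ℂ} (hw : 0 < w.im) : ((ofComplex w : ℍ) : ℂ) = w := by
  rw [ofComplex_apply_of_im_pos hw]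

/-- the map `x ↦ g • (i + x / m)` -/
lemma chart_analytic (g : SL(2, ℝ)) {m : ℝ} {x : ℂ} (hx : 0 < (Complex.I + x / m).im) :
    AnalyticAt ℂ (fun x : ℂ => ((g • ofComplex (Complex.I + x / m) : ℍ) : ℂ)) x := by
  set τ : ℍ := ⟨Complex.I + x / m, hx⟩ with hτ
  have h1 : AnalyticAt ℂ (fun z : ℂ => (((g : GL (Fin 2) ℝ) • ofComplex z : ℍ) : ℂ)) (τ : ℂ) :=
    analyticAt_smul (by simp) τ
  have h2 : AnalyticAt ℂ (fun x : ℂ => Complex.I + x / m) x :=
    analyticAt_const.add (analyticAt_id.div_const)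
  exact AnalyticAt.fun_comp (g := fun z : ℂ => (((g : GL (Fin 2) ℝ) • ofComplex z : ℍ) : ℂ))
    (f := fun x : ℂ => Complex.I + x / m) h1 h2

lemma chart_deriv (g : SL(2, ℝ)) {m : ℝ} {x : ℂ} (hx : 0 < (Complex.I + x / m).im) :
    ‖deriv (fun x : ℂ => ((g • ofComplex (Complex.I + x / m) : ℍ) : ℂ)) x‖ ^ 2 * m ^ 2
      * (Complex.I + x / m).im ^ 2
      = (if m = 0 then 0 else 1) * (g • ofComplex (Complex.I + x / m) : ℍ).im ^ 2 := by
  set τ : ℍ := ⟨Complex.I + x / m, hx⟩ with hτ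
  have h1 : HasDerivAt (fun z : ℂ => (((g : GL (Fin 2) ℝ) • ofComplex z : ℍ) : ℂ))
      (((g : GL (Fin 2) ℝ).val.det : ℂ) / denom (g : GL (Fin 2) ℝ) τ ^ 2) (τ : ℂ) :=
    (hasStrictDerivAt_smul (by simp) τ).hasDerivAt
  have h2 : HasDerivAt (fun x : ℂ => Complex.I + x / m) (1 / m) x :=
    ((hasDerivAt_id x).div_const (m : ℂ)).const_add Complex.I
  have h3 := HasDerivAt.comp x (h₂ := fun z : ℂ => (((g : GL (Fin 2) ℝ) • ofComplex z : ℍ) : ℂ))
    (h := fun x : ℂ => Complex.I + x / m) h1 h2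
  have h4 : deriv (fun x : ℂ => ((g • ofComplex (Complex.I + x / m) : ℍ) : ℂ)) x
      = ((g : GL (Fin 2) ℝ).val.det : ℂ) / denom (g : GL (Fin 2) ℝ) τ ^ 2 * (1 / m) := h3.deriv
  have h5 : (g • ofComplex (Complex.I + x / m) : ℍ).im
      = |(g : GL (Fin 2) ℝ).det.val| * τ.im / Complex.normSq (denom (g : GL (Fin 2) ℝ) τ) := by
    rw [ofComplex_apply_of_im_pos hx]
    exact im_smul_eq_div_normSq (g : GL (Fin 2) ℝ) τ
  have h6 : (Complex.I + x / m).im = τ.im := rfl
  have hd : Complex.normSq (denom (g : GL (Fin 2) ℝ) τ) ≠ 0 :=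
    (normSq_denom_pos _ τ.im_ne_zero).ne'
  have hdn : ‖denom (g : GL (Fin 2) ℝ) τ‖ ^ 2 = Complex.normSq (denom (g : GL (Fin 2) ℝ) τ) :=
    (Complex.normSq_eq_norm_sq _).symm
  rw [h4, h5, h6]
  have hdet : (g : GL (Fin 2) ℝ).val.det = 1 := by simp
  have hdet' : (g : GL (Fin 2) ℝ).det.val = 1 := by simp
  rw [hdet, hdet']
  simp only [norm_mul, norm_div, norm_pow, Complex.norm_real, abs_one, one_mul, norm_one,
    Complex.ofReal_one]
  rw [Real.norm_eq_abs]
  split_ifs with hm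
  · simp [hm]
  · have hdn' : ‖denom (g : GL (Fin 2) ℝ) τ‖ ≠ 0 := by
      intro h
      rw [h] at hdn
      apply hd
      rw [← hdn]; ring
    rw [← hdn]
    have : |m| ^ 2 = m ^ 2 := sq_abs m
    have hm' : |m| ≠ 0 := abs_ne_zero.2 hm
    field_simp
    rw [this]

lemma Eig.contDiffAt {φ : ℍ → ℝ} {m : ℝ} (h : Eig φ m) (g : SL(2, ℝ)) {x : ℂ}
    (hx : 0 < (Complex.I + x / m).im) :
    ContDiffAt ℝ 2 (fun x : ℂ => φ (g • ofComplex (Complex.I + x / m))) x := by
  set c : ℂ → ℂ := fun x : ℂ => ((g • ofComplex (Complex.I + x / m) : ℍ) : ℂ) with hc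
  have h1 : ContDiffAt ℝ 2 (fun w : ℂ => φ (ofComplex w)) (c x) :=
    h.smooth.contDiffAt (isOpen_uhp.mem_nhds (UpperHalfPlane.im_pos _))
  have h2 : ContDiffAt ℝ 2 c x := (chart_analytic g hx).contDiffAt.restrict_scalars ℝ
  have h3 := ContDiffAt.comp x h1 h2
  have e : (fun x : ℂ => φ (g • ofComplex (Complex.I + x / m)))
      = (fun w : ℂ => φ (ofComplex w)) ∘ c := by
    funext x
    simp only [Function.comp, hc, ofComplex_apply]
  rw [e]; exact h3

lemma Eig.laplacian {φ : ℍ → ℝ} {m : ℝ} (h : Eig φ m) (hm : m ≠ 0) (g : SL(2, ℝ)) {x : ℂ}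
    (hx : 0 < (Complex.I + x / m).im) :
    (Δ (fun x : ℂ => φ (g • ofComplex (Complex.I + x / m)))) x * (Complex.I + x / m).im ^ 2
      = - φ (g • ofComplex (Complex.I + x / m)) := by
  set c : ℂ → ℂ := fun x : ℂ => ((g • ofComplex (Complex.I + x / m) : ℍ) : ℂ) with hc
  have h1 : ContDiffAt ℝ 2 (fun w : ℂ => φ (ofComplex w)) (c x) :=
    h.smooth.contDiffAt (isOpen_uhp.mem_nhds (UpperHalfPlane.im_pos _))
  have h2 := laplacian_conformal h1 (chart_analytic g hx)
  have e : (fun x : ℂ => φ (g • ofComplex (Complex.I + x / m)))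
      = (fun x : ℂ => (fun w : ℂ => φ (ofComplex w)) (c x)) := by
    funext x
    simp only [hc, ofComplex_apply]
  rw [e, h2]
  have h3 := h.eigen (g • ofComplex (Complex.I + x / m))
  have h4 := chart_deriv g (m := m) hx
  rw [if_neg hm, one_mul] at h4
  have h5 : (fun w : ℂ => φ (ofComplex w)) (c x) = φ (g • ofComplex (Complex.I + x / m)) := by
    simp only [hc, ofComplex_apply]
  have hy : (g • ofComplex (Complex.I + x / m) : ℍ).im ≠ 0 := (UpperHalfPlane.im_pos _).ne'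
  have hm2 : m ^ 2 ≠ 0 := pow_ne_zero 2 hm
  set L := (Δ (fun w : ℂ => φ (ofComplex w))) (c x) with hL
  have h3' : (g • ofComplex (Complex.I + x / m) : ℍ).im ^ 2 * L
      = - (m ^ 2 * φ (g • ofComplex (Complex.I + x / m))) := h3
  rw [← h4] at h3'
  have h6 : m ^ 2 * (‖deriv c x‖ ^ 2 * L * (Complex.I + x / m).im ^ 2)
      = m ^ 2 * (- φ (g • ofComplex (Complex.I + x / m))) := by
    rw [hc]
    linear_combination h3'
  exact mul_left_cancel₀ hm2 h6

end

end Berry


end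

section

/-!
The local waves of bounded eigenfunctions on a quotient of the hyperbolic plane.
-/

open UpperHalfPlane MeasureTheory ProbabilityTheory MatrixGroups Filter Topology Set
  InnerProductSpace Laplacian
open scoped ENNReal NNReal

namespace Berry

noncomputable section

/-- a smooth cutoff function -/
def cut : ContDiffBump (0 : ℂ) := ⟨1 / 4, 1 / 2, by norm_num, by norm_num⟩

/-- the local wave cut off far away -/
def cutWave (φ : ℍ → ℝ) (m : ℝ) (x : ℂ) (p : ℍ × ℝ) : ℝ :=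
  cut (x / m) * localWave φ m x p

lemma cut_one {z : ℂ} (hz : ‖z‖ ≤ 1 / 4) : cut z = 1 := by
  apply cut.one_of_mem_closedBall
  rw [Metric.mem_closedBall, dist_zero_right]
  exact hz

lemma cut_zero {z : ℂ} (hz : 1 / 2 ≤ ‖z‖) : cut z = 0 := by
  apply cut.zero_of_le_dist
  rw [dist_zero_right]
  exact hz

lemma cutWave_eq {φ : ℍ → ℝ} {m : ℝ} {x : ℂ} (hx : ‖x / m‖ ≤ 1 / 4) (p : ℍ × ℝ) :
    cutWave φ m x p = localWave φ m x p := by
  unfold cutWave
  rw [cut_one hx, one_mul]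

lemma im_pos_of_norm {m : ℝ} {x : ℂ} (hx : ‖x / m‖ < 1) : 0 < (Complex.I + x / m).im := by
  have h1 := Complex.abs_im_le_norm (x / m)
  have h2 := neg_abs_le (x / (m : ℂ)).im
  rw [Complex.add_im, Complex.I_im]
  linarith only [hx, h1, h2]

lemma cutWave_meas {φ : ℍ → ℝ} (hφ : Continuous φ) (m : ℝ) (x : ℂ) :
    Measurable (cutWave φ m x) := by
  unfold cutWave localWave
  exact ((hφ.comp (frame_continuous.smul continuous_const)).measurable).const_mul _

lemma cutWave_smooth {φ : ℍ → ℝ} {m : ℝ} (h : Eig φ m) (p : ℍ × ℝ) :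
    ContDiff ℝ 2 (fun x => cutWave φ m x p) := by
  rw [contDiff_iff_contDiffAt]
  intro x
  have hcont : Continuous fun y : ℂ => ‖y / (m : ℂ)‖ := by fun_prop
  rcases lt_or_ge ‖x / (m : ℂ)‖ (3 / 4) with hx | hx
  · unfold cutWave localWave
    refine ContDiffAt.mul ?_ (h.contDiffAt (frame p) (im_pos_of_norm (by linarith)))
    have h1 : ContDiff ℝ 2 (cut : ℂ → ℝ) := cut.contDiff
    have h2 : ContDiff ℝ 2 fun y : ℂ => y / (m : ℂ) := by fun_prop
    exact (h1.comp h2).contDiffAt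
  · have h1 : (fun x => cutWave φ m x p) =ᶠ[𝓝 x] fun _ => (0:ℝ) := by
      have h2 : ∀ᶠ y in 𝓝 x, 1 / 2 < ‖y / (m : ℂ)‖ :=
        (hcont.tendsto x).eventually (lt_mem_nhds (by linarith))
      filter_upwards [h2] with y hy
      unfold cutWave
      rw [cut_zero hy.le, zero_mul]
    exact contDiffAt_const.congr_of_eventuallyEq h1

lemma cutWave_bdd {φ : ℍ → ℝ} {C : ℝ} (hC : ∀ z, |φ z| ≤ C) (m : ℝ) (x : ℂ) (p : ℍ × ℝ) :
    |cutWave φ m x p| ≤ C := by
  unfold cutWave localWave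
  rw [abs_mul, abs_of_nonneg cut.nonneg]
  calc cut (x / m) * |φ (frame p • ofComplex (Complex.I + x / m))| ≤ 1 * C :=
        mul_le_mul cut.le_one (hC _) (abs_nonneg _) zero_le_one
    _ = C := one_mul C

lemma cutWave_single {φ : ℍ → ℝ} {m : ℝ} (h : Eig φ m) {C : ℝ} (hC : ∀ z, |φ z| ≤ C)
    (P : Measure (ℍ × ℝ)) : SingleW P (cutWave φ m) :=
  ⟨cutWave_meas h.continuous m, cutWave_smooth h, C, cutWave_bdd hC m⟩

/-- the approximate Helmholtz equation -/
lemma cutWave_eqn {φ : ℍ → ℝ} {m : ℝ} (h : Eig φ m) (hm : 0 < m) {r δ : ℝ} (hδ : 0 < δ)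
    (hr : r / m ≤ 1 / 4) (hrδ : r / m ≤ δ / 4) (p : ℍ × ℝ) {x : ℂ}
    (hx : x ∈ Metric.ball (0:ℂ) r) :
    |(Δ (fun x => cutWave φ m x p)) x + cutWave φ m x p| ≤ δ * |cutWave φ m x p| := by
  rw [Metric.mem_ball, dist_zero_right] at hx
  have hnorm : ‖x / (m : ℂ)‖ = ‖x‖ / m := by
    rw [norm_div, Complex.norm_real, Real.norm_of_nonneg hm.le]
  have hx1 : ‖x / (m : ℂ)‖ < r / m := by
    rw [hnorm]; exact div_lt_div_of_pos_right hx hm
  have hcont : Continuous fun y : ℂ => ‖y / (m : ℂ)‖ := by fun_prop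
  have h1 : (fun x => cutWave φ m x p)
      =ᶠ[𝓝 x] fun x => φ (frame p • ofComplex (Complex.I + x / m)) := by
    have h2 : ∀ᶠ y in 𝓝 x, ‖y / (m : ℂ)‖ < 1 / 4 :=
      (hcont.tendsto x).eventually (gt_mem_nhds (by linarith))
    filter_upwards [h2] with y hy
    exact cutWave_eq hy.le p
  have h3 : (Δ (fun x => cutWave φ m x p)) x
      = (Δ (fun x : ℂ => φ (frame p • ofComplex (Complex.I + x / m)))) x :=
    (laplacian_congr_nhds h1).self_of_nhds
  have h4 := h.laplacian hm.ne' (frame p) (x := x) (im_pos_of_norm (by linarith only [hr, hx1]))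
  have h1' : cutWave φ m x p = φ (frame p • ofComplex (Complex.I + x / m)) := h1.self_of_nhds
  rw [h3, h1']
  set A := φ (frame p • ofComplex (Complex.I + x / m)) with hA
  set t := (Complex.I + x / (m : ℂ)).im with ht
  set L := (Δ (fun x : ℂ => φ (frame p • ofComplex (Complex.I + x / m)))) x with hL
  set ρ := r / m with hρ
  have ht1 : |t - 1| ≤ ρ := by
    have e : t - 1 = (x / (m : ℂ)).im := by
      rw [ht, Complex.add_im, Complex.I_im]; ring
    rw [e]
    exact (Complex.abs_im_le_norm _).trans hx1.le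
  obtain ⟨ht2, ht3⟩ := abs_le.1 ht1
  have hρ0 : 0 ≤ ρ := (abs_nonneg _).trans ht1
  have htpos : 3 / 4 ≤ t := by linarith only [hr, ht2]
  have ht0 : t ^ 2 ≠ 0 := by positivity
  have h5 : L + A = A * ((t ^ 2 - 1) / t ^ 2) := by
    have h6 : L = - A / t ^ 2 := by
      rw [eq_div_iff ht0]; exact h4
    rw [h6]; field_simp; ring
  rw [h5, abs_mul, mul_comm]
  refine mul_le_mul_of_nonneg_right ?_ (abs_nonneg _)
  rw [abs_div, abs_of_pos (by positivity : 0 < t ^ 2), div_le_iff₀ (by positivity)]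
  have h7 : |t ^ 2 - 1| ≤ ρ * (9 / 4) := by
    have e : t ^ 2 - 1 = (t - 1) * (t + 1) := by ring
    rw [e, abs_mul, abs_of_pos (by linarith only [hr, ht2] : 0 < t + 1)]
    exact mul_le_mul ht1 (by linarith only [hr, ht3]) (by linarith only [hr, ht2]) hρ0
  have h8 : (9:ℝ) / 16 ≤ t ^ 2 := by nlinarith only [hr, ht2]
  nlinarith only [hrδ, h7, hδ, h8]

end

end Berry


end

section

/-!
The local waves of bounded eigenfunctions are asymptotically translation invariant.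
-/

open UpperHalfPlane MeasureTheory ProbabilityTheory MatrixGroups Filter Topology Set
  InnerProductSpace Laplacian
open scoped ENNReal NNReal

namespace Berry

noncomputable section

/-! ### Closeness of correlation functions -/

section Close

variable {Ω : Type*} [MeasurableSpace Ω] {P : Measure Ω} [IsProbabilityMeasure P]
  {F : ℕ → ℂ → Ω → ℝ} {B : ℝ}

lemma PreWave.close4 (hF : PreWave P F B) {η : ℝ} (hη : 0 < η) : ∃ d > 0, ∀ r : ℝ, ∀ᶠ n in atTop,
    ∀ a b c e a' b' c' e' : ℂ, ‖a‖ < r → ‖b‖ < r → ‖c‖ < r → ‖e‖ < r → ‖a'‖ < r → ‖b'‖ < r →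
      ‖c'‖ < r → ‖e'‖ < r → ‖a - a'‖ < d → ‖b - b'‖ < d → ‖c - c'‖ < d → ‖e - e'‖ < d →
      |c4 P F n a b c e - c4 P F n a' b' c' e'| ≤ 4 * η := by
  obtain ⟨d, hd, h⟩ := hF.slot4 hη
  refine ⟨d, hd, fun r => ?_⟩
  filter_upwards [h r] with n hn a b c e a' b' c' e' ha hb hc he ha' hb' hc' he' da db dc de
  have s12 : ∀ x₁ x₂ x₃ x₄, c4 P F n x₁ x₂ x₃ x₄ = c4 P F n x₂ x₁ x₃ x₄ := by
    intro x₁ x₂ x₃ x₄; unfold c4; congr 1; funext ω; ring
  have s13 : ∀ x₁ x₂ x₃ x₄, c4 P F n x₁ x₂ x₃ x₄ = c4 P F n x₃ x₂ x₁ x₄ := by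
    intro x₁ x₂ x₃ x₄; unfold c4; congr 1; funext ω; ring
  have s14 : ∀ x₁ x₂ x₃ x₄, c4 P F n x₁ x₂ x₃ x₄ = c4 P F n x₄ x₂ x₃ x₁ := by
    intro x₁ x₂ x₃ x₄; unfold c4; congr 1; funext ω; ring
  have b1 := hn b c e a a' ha ha' da
  have b2 := hn a' c e b b' hb hb' db
  have b3 := hn b' a' e c c' hc hc' dc
  have b4 := hn b' c' a' e e' he he' de
  have k1 : c4 P F n b a' c e = c4 P F n a' b c e := s12 _ _ _ _
  have k2 : c4 P F n b' a' c e = c4 P F n a' b' c e := s12 _ _ _ _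
  have k3 : c4 P F n c b' a' e = c4 P F n a' b' c e := s13 _ _ _ _
  have k4 : c4 P F n c' b' a' e = c4 P F n a' b' c' e := s13 _ _ _ _
  have k5 : c4 P F n e b' c' a' = c4 P F n a' b' c' e := s14 _ _ _ _
  have k6 : c4 P F n e' b' c' a' = c4 P F n a' b' c' e' := s14 _ _ _ _
  rw [k1, k2] at b2
  rw [k3, k4] at b3
  rw [k5, k6] at b4
  have e1 : c4 P F n a b c e - c4 P F n a' b' c' e'
      = (c4 P F n a b c e - c4 P F n a' b c e) + (c4 P F n a' b c e - c4 P F n a' b' c e)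
        + (c4 P F n a' b' c e - c4 P F n a' b' c' e)
        + (c4 P F n a' b' c' e - c4 P F n a' b' c' e') := by ring
  rw [e1]
  have t1 := abs_add_le ((c4 P F n a b c e - c4 P F n a' b c e)
    + (c4 P F n a' b c e - c4 P F n a' b' c e) + (c4 P F n a' b' c e - c4 P F n a' b' c' e))
    (c4 P F n a' b' c' e - c4 P F n a' b' c' e')
  have t2 := abs_add_le ((c4 P F n a b c e - c4 P F n a' b c e)
    + (c4 P F n a' b c e - c4 P F n a' b' c e)) (c4 P F n a' b' c e - c4 P F n a' b' c' e)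
  have t3 := abs_add_le (c4 P F n a b c e - c4 P F n a' b c e)
    (c4 P F n a' b c e - c4 P F n a' b' c e)
  linarith

lemma PreWave.close2 (hF : PreWave P F B) {η : ℝ} (hη : 0 < η) : ∃ d > 0, ∀ r : ℝ, ∀ᶠ n in atTop,
    ∀ a b a' b' : ℂ, ‖a‖ < r → ‖b‖ < r → ‖a'‖ < r → ‖b'‖ < r → ‖a - a'‖ < d → ‖b - b'‖ < d →
      |c2 P F n a b - c2 P F n a' b'| ≤ 2 * η := by
  obtain ⟨d, hd, h⟩ := hF.slot2 hη
  refine ⟨d, hd, fun r => ?_⟩
  filter_upwards [h r] with n hn a b a' b' ha hb ha' hb' da db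
  have b1 := hn b a a' ha ha' da
  have b2 := hn a' b b' hb hb' db
  rw [c2_swap n b a', c2_swap n b' a'] at b2
  have e1 : c2 P F n a b - c2 P F n a' b'
      = (c2 P F n a b - c2 P F n a' b) + (c2 P F n a' b - c2 P F n a' b') := by ring
  rw [e1]
  have t1 := abs_add_le (c2 P F n a b - c2 P F n a' b) (c2 P F n a' b - c2 P F n a' b')
  linarith

end Close

/-! ### Invariance of averages -/

variable {Γ : Subgroup SL(2, ℝ)} {D : Set ℍ}

lemma frame_avg [Countable Γ] (hD : IsFundamentalDomain Γ D (volume : Measure ℍ))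
    (hDm : MeasurableSet D) (hfin : volume D ≠ ∞) {φ : ℍ → ℝ} (hφ : Continuous φ)
    (hinv : ∀ γ ∈ Γ, ∀ z, φ (γ • z) = φ z) {ι : Type*} [Finite ι] {Φ : (ι → ℝ) → ℝ}
    (hΦ : Continuous Φ) (w : ι → ℍ) (A : SL(2, ℝ)) :
    ∫ p, Φ (fun j => φ (frame p • (A • w j))) ∂(frameProb D)
      = ∫ p, Φ (fun j => φ (frame p • w j)) ∂(frameProb D) := by
  borelize SL(2, ℝ)
  have hc : Continuous fun g : SL(2, ℝ) => Φ (fun j => φ (g • w j)) :=
    hΦ.comp (continuous_pi fun j => hφ.comp (continuous_id.smul continuous_const))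
  have h := frame_invariant hD hDm hfin hc.measurable (fun γ hγ g => by
    simp only [mul_smul, hinv γ hγ]) A
  simp only [mul_smul] at h
  exact h

lemma volume_ne_zero [Countable Γ] (hD : IsFundamentalDomain Γ D (volume : Measure ℍ)) :
    volume D ≠ 0 := by
  refine hD.measure_ne_zero ?_
  intro h0
  have := volume_pos_of_isOpen isOpen_univ ⟨I, mem_univ I⟩
  rw [h0] at this
  simp at this

lemma frameProb_isProb [Countable Γ] (hD : IsFundamentalDomain Γ D (volume : Measure ℍ))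
    (hfin : volume D ≠ ∞) : IsProbabilityMeasure (frameProb D) := by
  have h1 : IsProbabilityMeasure (ProbabilityTheory.cond (volume : Measure ℍ) D) :=
    ProbabilityTheory.cond_isProbabilityMeasure_of_finite (volume_ne_zero hD) hfin
  have h2 : IsProbabilityMeasure
      (ProbabilityTheory.cond (volume : Measure ℝ) (Set.Ioc 0 (2 * Real.pi))) := by
    apply ProbabilityTheory.cond_isProbabilityMeasure_of_finite
    · rw [Real.volume_Ioc, Ne, ENNReal.ofReal_eq_zero, not_le, sub_zero]; positivity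
    · rw [Real.volume_Ioc]; exact ENNReal.ofReal_ne_top
  unfold frameProb
  infer_instance

lemma frame_fst [Countable Γ] (hD : IsFundamentalDomain Γ D (volume : Measure ℍ))
    (hfin : volume D ≠ ∞) {f : ℍ → ℝ} (hf : Measurable f) :
    ∫ p, f p.1 ∂(frameProb D) = ∫ z, f z ∂(ProbabilityTheory.cond (volume : Measure ℍ) D) := by
  have h1 : IsProbabilityMeasure (ProbabilityTheory.cond (volume : Measure ℍ) D) :=
    ProbabilityTheory.cond_isProbabilityMeasure_of_finite (volume_ne_zero hD) hfin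
  have h2 : IsProbabilityMeasure
      (ProbabilityTheory.cond (volume : Measure ℝ) (Set.Ioc 0 (2 * Real.pi))) := by
    apply ProbabilityTheory.cond_isProbabilityMeasure_of_finite
    · rw [Real.volume_Ioc, Ne, ENNReal.ofReal_eq_zero, not_le, sub_zero]; positivity
    · rw [Real.volume_Ioc]; exact ENNReal.ofReal_ne_top
  unfold frameProb
  have h3 := (measurePreserving_fst (μ := ProbabilityTheory.cond (volume : Measure ℍ) D)
    (ν := ProbabilityTheory.cond (volume : Measure ℝ) (Set.Ioc 0 (2 * Real.pi)))).map_eq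
  conv_rhs => rw [← h3]
  rw [integral_map measurable_fst.aemeasurable hf.aestronglyMeasurable]

lemma toSL2R_smul_coe (z w : ℍ) : ((z.toSL2R • w : ℍ) : ℂ) = z.im * w + z.re := by
  rw [coe_specialLinearGroup_apply]
  have h1 : (√z.im : ℝ) ≠ 0 := (Real.sqrt_pos.2 z.im_pos).ne'
  have h2 : (√z.im : ℝ) * √z.im = z.im := Real.mul_self_sqrt z.im_pos.le
  have h1' : ((√z.im : ℝ) : ℂ) ≠ 0 := by exact_mod_cast h1
  have h2' : ((√z.im : ℝ) : ℂ) * ((√z.im : ℝ) : ℂ) = (z.im : ℂ) := by exact_mod_cast h2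
  simp only [coe_toSL2R, Matrix.of_apply, Matrix.cons_val', Matrix.cons_val_zero,
    Matrix.cons_val_one, Algebra.algebraMap_self, RingHom.id_apply]
  simp only [Complex.ofReal_div, Complex.ofReal_one, Complex.ofReal_zero, zero_mul, zero_add]
  rw [← h2']
  field_simp

/-- translations of the local coordinate are, up to a scaling tending to `1`, isometries -/
lemma shift_point {m : ℝ} {s x : ℂ} (hs : 0 < (Complex.I + s / m).im)
    (hx : 0 < (Complex.I + (x + s) / m).im) :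
    (ofComplex (Complex.I + (x + s) / m) : ℍ)
      = (ofComplex (Complex.I + s / m) : ℍ).toSL2R •
        (ofComplex (Complex.I + (x / ((Complex.I + s / m).im : ℂ)) / m) : ℍ) := by
  set a : ℝ := (Complex.I + s / m).im with ha
  have ha0 : (a : ℂ) ≠ 0 := by exact_mod_cast hs.ne'
  have e1 : (a : ℂ) * (Complex.I + (x / (a : ℂ)) / m) + (s / (m : ℂ)).re
      = Complex.I + (x + s) / m := by
    have h1 : (a : ℂ) = 1 + ((s / (m : ℂ)).im : ℂ) := by
      rw [ha, Complex.add_im, Complex.I_im]; push_cast; ring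
    have h2 : (a : ℂ) * (x / (a : ℂ) / m) = x / m := by
      by_cases hm : (m : ℂ) = 0
      · simp [hm]
      · field_simp
    have h3 : (s / (m : ℂ)) = ((s / (m : ℂ)).re : ℂ) + ((s / (m : ℂ)).im : ℂ) * Complex.I :=
      (Complex.re_add_im _).symm
    calc (a : ℂ) * (Complex.I + (x / (a : ℂ)) / m) + (s / (m : ℂ)).re
        = (a : ℂ) * Complex.I + (a : ℂ) * (x / (a : ℂ) / m) + (s / (m : ℂ)).re := by ring
      _ = (1 + ((s / (m : ℂ)).im : ℂ)) * Complex.I + x / m + (s / (m : ℂ)).re := by rw [h2, ← h1]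
      _ = Complex.I + (((s / (m : ℂ)).re : ℂ) + ((s / (m : ℂ)).im : ℂ) * Complex.I) + x / m := by
          ring
      _ = Complex.I + (x + s) / m := by rw [← h3]; ring
  have hw : 0 < (Complex.I + (x / (a : ℂ)) / m).im := by
    have h1 := congrArg Complex.im e1
    rw [Complex.add_im, Complex.ofReal_im, add_zero, Complex.im_ofReal_mul] at h1
    rw [← h1] at hx
    exact (pos_iff_pos_of_mul_pos hx).1 hs
  apply UpperHalfPlane.ext
  rw [toSL2R_smul_coe, coe_ofComplex hx, coe_ofComplex hw, ← e1]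
  have h3 : (ofComplex (Complex.I + s / m) : ℍ).im = a := by
    rw [ofComplex_apply_of_im_pos hs]; rfl
  have h4 : (ofComplex (Complex.I + s / m) : ℍ).re = (s / (m : ℂ)).re := by
    rw [ofComplex_apply_of_im_pos hs]
    show (Complex.I + s / m).re = _
    rw [Complex.add_re, Complex.I_re, zero_add]
  rw [h3, h4]

end

end Berry


end

section

/-!
Bounded eigenfunctions on a quotient of the hyperbolic plane give asymptotically invariant waves.
-/

open UpperHalfPlane MeasureTheory ProbabilityTheory MatrixGroups Filter Topology Set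
  InnerProductSpace Laplacian
open scoped ENNReal NNReal

namespace Berry

noncomputable section

variable {Γ : Subgroup SL(2, ℝ)} {D : Set ℍ} {φ : ℕ → ℍ → ℝ} {m : ℕ → ℝ}

lemma EigenSeq.eig (hφ : EigenSeq Γ φ m) (n : ℕ) : Eig (φ n) (m n) := ⟨hφ.smooth n, hφ.eigen n⟩

/-- moments at one point -/
lemma frame_pow [Countable Γ] (hD : IsFundamentalDomain Γ D (volume : Measure ℍ))
    (hDm : MeasurableSet D) (hfin : volume D ≠ ∞) {ψ : ℍ → ℝ} (hψ : Continuous ψ)
    (hinv : ∀ γ ∈ Γ, ∀ z, ψ (γ • z) = ψ z) (w : ℍ) :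
    ∫ p, ψ (frame p • w) ∂(frameProb D)
      = ∫ z, ψ z ∂(ProbabilityTheory.cond (volume : Measure ℍ) D) := by
  have h1 := frame_avg hD hDm hfin hψ hinv (ι := Fin 1) (Φ := fun v => v 0) (continuous_apply 0)
    (fun _ => I) (w.toSL2R)
  simp only [toSL2R_smul_I, frame_smul_I] at h1
  rw [h1, frame_fst hD hfin hψ.measurable]

theorem EigenSeq.preWave [Countable Γ] (hφ : EigenSeq Γ φ m)
    (hD : IsFundamentalDomain Γ D (volume : Measure ℍ)) (hDm : MeasurableSet D)
    (hfin : volume D ≠ ∞) (hbdd : ∀ n, ∃ C : ℝ, ∀ z, |φ n z| ≤ C) {B : ℝ}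
    (hB : ∀ᶠ n in atTop, ∫ z, φ n z ^ 4 ∂(ProbabilityTheory.cond (volume : Measure ℍ) D) ≤ B) :
    PreWave (frameProb D) (fun n => cutWave (φ n) (m n)) B := by
  have hP := frameProb_isProb hD hfin
  constructor
  · filter_upwards [hB, hφ.tendsto.eventually_gt_atTop 0] with n hn hm
    obtain ⟨C, hC⟩ := hbdd n
    refine ⟨cutWave_single (hφ.eig n) hC _, fun x => ?_⟩
    have hφc : Continuous (φ n) := (hφ.eig n).continuous
    have hint : Integrable (fun p => φ n (frame p • ofComplex (Complex.I + x / (m n))) ^ 4)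
        (frameProb D) := by
      refine integrable_bdd (C := C ^ 4) ?_ fun p => ?_
      · exact (((hφc.comp (frame_continuous.smul continuous_const)).measurable).pow_const 4)
      · rw [abs_pow]
        exact pow_le_pow_left₀ (abs_nonneg _) (hC _) 4
    calc ∫ p, cutWave (φ n) (m n) x p ^ 4 ∂(frameProb D)
        ≤ ∫ p, φ n (frame p • ofComplex (Complex.I + x / (m n))) ^ 4 ∂(frameProb D) := by
          refine integral_mono_of_nonneg (Eventually.of_forall fun p => by positivity) hint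
            (Eventually.of_forall fun p => ?_)
          simp only [cutWave, localWave]
          rw [mul_pow]
          have h1 : cut (x / (m n : ℂ)) ^ 4 ≤ 1 := pow_le_one₀ cut.nonneg cut.le_one
          have h2 : 0 ≤ φ n (frame p • ofComplex (Complex.I + x / (m n))) ^ 4 := by positivity
          nlinarith
      _ = ∫ z, φ n z ^ 4 ∂(ProbabilityTheory.cond (volume : Measure ℍ) D) :=
          frame_pow hD hDm hfin (ψ := fun z => φ n z ^ 4) (hφc.pow 4)
            (fun γ hγ z => by simp only [hφ.invariant n γ hγ]) _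
      _ ≤ B := hn
  · intro r δ hδ
    have h1 : Tendsto (fun n => r / m n) atTop (𝓝 0) := hφ.tendsto.const_div_atTop r
    filter_upwards [hφ.tendsto.eventually_gt_atTop 0,
      h1.eventually (gt_mem_nhds (show (0:ℝ) < 1 / 4 by norm_num)),
      h1.eventually (gt_mem_nhds (show (0:ℝ) < δ / 4 by positivity))] with n hm h2 h3 p x hx
    exact cutWave_eqn (hφ.eig n) hm hδ h2.le h3.le p hx

lemma tendsto_div_m (hφ : EigenSeq Γ φ m) (x : ℂ) :
    Tendsto (fun n => ‖x / (m n : ℂ)‖) atTop (𝓝 0) := by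
  have h1 : Tendsto (fun n => ‖x‖ / m n) atTop (𝓝 0) := hφ.tendsto.const_div_atTop ‖x‖
  refine h1.congr' ?_
  filter_upwards [hφ.tendsto.eventually_gt_atTop 0] with n hm
  rw [norm_div, Complex.norm_real, Real.norm_of_nonneg hm.le]

lemma tendsto_scaled (hφ : EigenSeq Γ φ m) (x s : ℂ) :
    Tendsto (fun n => x / (((Complex.I + s / (m n : ℂ)).im : ℝ) : ℂ)) atTop (𝓝 x) := by
  have h1 : Tendsto (fun n => (Complex.I + s / (m n : ℂ)).im) atTop (𝓝 1) := by
    have h2 : Tendsto (fun n => s / (m n : ℂ)) atTop (𝓝 0) := by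
      rw [tendsto_zero_iff_norm_tendsto_zero]; exact tendsto_div_m hφ s
    have h3 := (Complex.continuous_im.tendsto _).comp (h2.const_add Complex.I)
    rw [add_zero, Complex.I_im] at h3
    exact h3
  have h2 := (Complex.continuous_ofReal.tendsto _).comp h1
  rw [Complex.ofReal_one] at h2
  have h3 := (tendsto_const_nhds (x := x) (f := atTop (α := ℕ))).div h2 one_ne_zero
  rw [div_one] at h3
  exact h3

theorem EigenSeq.aWave [Countable Γ] (hφ : EigenSeq Γ φ m)
    (hD : IsFundamentalDomain Γ D (volume : Measure ℍ)) (hDm : MeasurableSet D)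
    (hfin : volume D ≠ ∞) (hbdd : ∀ n, ∃ C : ℝ, ∀ z, |φ n z| ≤ C) {B : ℝ}
    (hB : ∀ᶠ n in atTop, ∫ z, φ n z ^ 4 ∂(ProbabilityTheory.cond (volume : Measure ℍ) D) ≤ B) :
    AWave (frameProb D) (fun n => cutWave (φ n) (m n)) B := by
  have hP := frameProb_isProb hD hfin
  have hpre := hφ.preWave hD hDm hfin hbdd hB
  set F : ℕ → ℂ → ℍ × ℝ → ℝ := fun n => cutWave (φ n) (m n) with hF
  -- the scaled points
  have hsc := fun x s => tendsto_scaled hφ x s
  -- for large `n`, exact formula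
  have hpt : ∀ x s : ℂ, ∀ᶠ n in atTop, ∀ p,
      F n (x + s) p = φ n (frame p • ((ofComplex (Complex.I + s / (m n : ℂ)) : ℍ).toSL2R •
        (ofComplex (Complex.I + (x / (((Complex.I + s / (m n : ℂ)).im : ℝ) : ℂ)) / (m n : ℂ)) : ℍ)))
      ∧ F n (x / (((Complex.I + s / (m n : ℂ)).im : ℝ) : ℂ)) p
        = φ n (frame p • (ofComplex
          (Complex.I + (x / (((Complex.I + s / (m n : ℂ)).im : ℝ) : ℂ)) / (m n : ℂ)) : ℍ)) := by
    intro x s
    have h1 := (tendsto_div_m hφ (x + s)).eventually (gt_mem_nhds (show (0:ℝ) < 1 / 4 by norm_num))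
    have h2 := (tendsto_div_m hφ s).eventually (gt_mem_nhds (show (0:ℝ) < 1 / 4 by norm_num))
    have h3 : ∀ᶠ n in atTop, ‖x / (((Complex.I + s / (m n : ℂ)).im : ℝ) : ℂ)‖ < ‖x‖ + 1 :=
      (hsc x s).norm.eventually (gt_mem_nhds (by linarith))
    have h4 : ∀ᶠ n in atTop, (‖x‖ + 1) / m n < 1 / 4 :=
      (hφ.tendsto.const_div_atTop (‖x‖ + 1)).eventually
        (gt_mem_nhds (show (0:ℝ) < 1 / 4 by norm_num))
    filter_upwards [h1, h2, h3, h4, hφ.tendsto.eventually_gt_atTop 0] with n k1 k2 k3 k4 hm p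
    constructor
    · show cutWave (φ n) (m n) (x + s) p = _
      rw [cutWave_eq k1.le]
      unfold localWave
      rw [shift_point (im_pos_of_norm (by linarith)) (im_pos_of_norm (by linarith))]
    · show cutWave (φ n) (m n) _ p = _
      rw [cutWave_eq]
      · rfl
      · rw [norm_div, Complex.norm_real (m n), Real.norm_of_nonneg hm.le]
        refine le_trans ?_ k4.le
        exact div_le_div_of_nonneg_right k3.le hm.le
  refine ⟨hpre, ?_, ?_⟩
  · intro x₁ x₂ x₃ x₄ s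
    rw [Metric.tendsto_nhds]
    intro ε hε
    obtain ⟨d, hd, hcl⟩ := hpre.close4 (η := ε / 8) (by positivity)
    set r := max (max ‖x₁‖ ‖x₂‖) (max ‖x₃‖ ‖x₄‖) + 1 with hr
    have hr1 : ‖x₁‖ + 1 ≤ r := by
      have := (le_max_left ‖x₁‖ ‖x₂‖).trans (le_max_left _ (max ‖x₃‖ ‖x₄‖)); linarith
    have hr2 : ‖x₂‖ + 1 ≤ r := by
      have := (le_max_right ‖x₁‖ ‖x₂‖).trans (le_max_left _ (max ‖x₃‖ ‖x₄‖)); linarith
    have hr3 : ‖x₃‖ + 1 ≤ r := by
      have := (le_max_left ‖x₃‖ ‖x₄‖).trans (le_max_right (max ‖x₁‖ ‖x₂‖) _); linarith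
    have hr4 : ‖x₄‖ + 1 ≤ r := by
      have := (le_max_right ‖x₃‖ ‖x₄‖).trans (le_max_right (max ‖x₁‖ ‖x₂‖) _); linarith
    have hnear : ∀ x : ℂ, ∀ᶠ n in atTop,
        ‖x / (((Complex.I + s / (m n : ℂ)).im : ℝ) : ℂ) - x‖ < d
        ∧ ‖x / (((Complex.I + s / (m n : ℂ)).im : ℝ) : ℂ)‖ < ‖x‖ + 1 := by
      intro x
      have h1 := Metric.tendsto_nhds.1 (hsc x s) d hd
      have h3 : ∀ᶠ n in atTop, ‖x / (((Complex.I + s / (m n : ℂ)).im : ℝ) : ℂ)‖ < ‖x‖ + 1 :=
        (hsc x s).norm.eventually (gt_mem_nhds (by linarith))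
      filter_upwards [h1, h3] with n k1 k3
      rw [dist_eq_norm] at k1
      exact ⟨k1, k3⟩
    filter_upwards [hcl r, hnear x₁, hnear x₂, hnear x₃, hnear x₄, hpt x₁ s, hpt x₂ s, hpt x₃ s,
      hpt x₄ s] with n hn n1 n2 n3 n4 p1 p2 p3 p4
    set a : ℂ := (((Complex.I + s / (m n : ℂ)).im : ℝ) : ℂ) with ha
    have e1 : c4 (frameProb D) F n (x₁ + s) (x₂ + s) (x₃ + s) (x₄ + s)
        = c4 (frameProb D) F n (x₁ / a) (x₂ / a) (x₃ / a) (x₄ / a) := by
      unfold c4
      have h1 := frame_avg hD hDm hfin (hφ.eig n).continuous (hφ.invariant n) (ι := Fin 4)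
        (Φ := fun v => v 0 * v 1 * v 2 * v 3) (by fun_prop)
        ![(ofComplex (Complex.I + x₁ / a / (m n : ℂ)) : ℍ), ofComplex (Complex.I + x₂ / a / (m n : ℂ)),
          ofComplex (Complex.I + x₃ / a / (m n : ℂ)), ofComplex (Complex.I + x₄ / a / (m n : ℂ))]
        (ofComplex (Complex.I + s / (m n : ℂ)) : ℍ).toSL2R
      simp only [Matrix.cons_val_zero, Matrix.cons_val_one, Matrix.cons_val] at h1
      have q1 : ∀ p, F n (x₁ + s) p * F n (x₂ + s) p * F n (x₃ + s) p * F n (x₄ + s) p = _ :=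
        fun p => by rw [(p1 p).1, (p2 p).1, (p3 p).1, (p4 p).1]
      have q2 : ∀ p, F n (x₁ / a) p * F n (x₂ / a) p * F n (x₃ / a) p * F n (x₄ / a) p = _ :=
        fun p => by rw [(p1 p).2, (p2 p).2, (p3 p).2, (p4 p).2]
      simp only [q1, q2]
      exact h1
    rw [e1, dist_zero_right, Real.norm_eq_abs]
    have h2 := hn (x₁ / a) (x₂ / a) (x₃ / a) (x₄ / a) x₁ x₂ x₃ x₄ (by linarith [n1.2])
      (by linarith [n2.2]) (by linarith [n3.2]) (by linarith [n4.2]) (by linarith) (by linarith)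
      (by linarith) (by linarith) n1.1 n2.1 n3.1 n4.1
    linarith only [hε, h2]
  · intro x₁ x₂ s
    rw [Metric.tendsto_nhds]
    intro ε hε
    obtain ⟨d, hd, hcl⟩ := hpre.close2 (η := ε / 8) (by positivity)
    set r := max ‖x₁‖ ‖x₂‖ + 1 with hr
    have hr1 : ‖x₁‖ + 1 ≤ r := by
      have := le_max_left ‖x₁‖ ‖x₂‖; linarith
    have hr2 : ‖x₂‖ + 1 ≤ r := by
      have := le_max_right ‖x₁‖ ‖x₂‖; linarith
    have hnear : ∀ x : ℂ, ∀ᶠ n in atTop,
        ‖x / (((Complex.I + s / (m n : ℂ)).im : ℝ) : ℂ) - x‖ < d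
        ∧ ‖x / (((Complex.I + s / (m n : ℂ)).im : ℝ) : ℂ)‖ < ‖x‖ + 1 := by
      intro x
      have h1 := Metric.tendsto_nhds.1 (hsc x s) d hd
      have h3 : ∀ᶠ n in atTop, ‖x / (((Complex.I + s / (m n : ℂ)).im : ℝ) : ℂ)‖ < ‖x‖ + 1 :=
        (hsc x s).norm.eventually (gt_mem_nhds (by linarith))
      filter_upwards [h1, h3] with n k1 k3
      rw [dist_eq_norm] at k1
      exact ⟨k1, k3⟩
    filter_upwards [hcl r, hnear x₁, hnear x₂, hpt x₁ s, hpt x₂ s] with n hn n1 n2 p1 p2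
    set a : ℂ := (((Complex.I + s / (m n : ℂ)).im : ℝ) : ℂ) with ha
    have e1 : c2 (frameProb D) F n (x₁ + s) (x₂ + s)
        = c2 (frameProb D) F n (x₁ / a) (x₂ / a) := by
      unfold c2
      have h1 := frame_avg hD hDm hfin (hφ.eig n).continuous (hφ.invariant n) (ι := Fin 2)
        (Φ := fun v => v 0 * v 1) (by fun_prop)
        ![(ofComplex (Complex.I + x₁ / a / (m n : ℂ)) : ℍ), ofComplex (Complex.I + x₂ / a / (m n : ℂ))]
        (ofComplex (Complex.I + s / (m n : ℂ)) : ℍ).toSL2R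
      simp only [Matrix.cons_val_zero, Matrix.cons_val_one] at h1
      have q1 : ∀ p, F n (x₁ + s) p * F n (x₂ + s) p = _ :=
        fun p => by rw [(p1 p).1, (p2 p).1]
      have q2 : ∀ p, F n (x₁ / a) p * F n (x₂ / a) p = _ :=
        fun p => by rw [(p1 p).2, (p2 p).2]
      simp only [q1, q2]
      exact h1
    rw [e1, dist_zero_right, Real.norm_eq_abs]
    have h2 := hn (x₁ / a) (x₂ / a) x₁ x₂ (by linarith [n1.2])
      (by linarith [n2.2]) (by linarith) (by linarith) n1.1 n2.1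
    linarith

end

end Berry


end

section

/-!
The base wave of an eigenfunction for a conformal metric: smoothness, the equation, and local
estimates.
-/

open UpperHalfPlane MeasureTheory ProbabilityTheory MatrixGroups Filter Topology Set
  InnerProductSpace Laplacian
open scoped ENNReal NNReal

namespace Berry

noncomputable section

/-- one eigenfunction for the metric `e^{2ρ} g` -/
structure REig (ρ : ℍ → ℝ) (φ : ℍ → ℝ) (m : ℝ) : Prop where
  smooth : ContDiffOn ℝ 2 (fun w : ℂ => φ (ofComplex w)) {w | 0 < w.im}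
  eigen : ∀ z : ℍ, z.im ^ 2 * (Δ (fun w : ℂ => φ (ofComplex w))) z
    = - (m ^ 2 * Real.exp (2 * ρ z) * φ z)

variable {ρ φ : ℍ → ℝ} {m : ℝ}

lemma REig.continuous (h : REig ρ φ m) : Continuous φ := by
  rw [continuous_iff_continuousAt]
  intro z
  have h1 : ContinuousAt (fun w : ℂ => φ (ofComplex w)) (z : ℂ) :=
    h.smooth.continuousOn.continuousAt (isOpen_uhp.mem_nhds z.im_pos)
  have h2 : ContinuousAt (fun z : ℍ => φ (ofComplex (z : ℂ))) z :=
    ContinuousAt.comp (g := fun w : ℂ => φ (ofComplex w)) (f := fun z : ℍ => (z : ℂ)) h1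
      continuous_coe.continuousAt
  simpa only [ofComplex_apply] using h2

lemma REig.contDiffAt (h : REig ρ φ m) (k : ℝ) (g : SL(2, ℝ)) {x : ℂ}
    (hx : 0 < (Complex.I + x / k).im) :
    ContDiffAt ℝ 2 (fun x : ℂ => φ (g • ofComplex (Complex.I + x / k))) x := by
  set c : ℂ → ℂ := fun x : ℂ => ((g • ofComplex (Complex.I + x / k) : ℍ) : ℂ) with hc
  have h1 : ContDiffAt ℝ 2 (fun w : ℂ => φ (ofComplex w)) (c x) :=
    h.smooth.contDiffAt (isOpen_uhp.mem_nhds (UpperHalfPlane.im_pos _))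
  have h2 : ContDiffAt ℝ 2 c x := (chart_analytic g hx).contDiffAt.restrict_scalars ℝ
  have h3 := ContDiffAt.comp x h1 h2
  have e : (fun x : ℂ => φ (g • ofComplex (Complex.I + x / k)))
      = (fun w : ℂ => φ (ofComplex w)) ∘ c := by
    funext x
    simp only [Function.comp, hc, ofComplex_apply]
  rw [e]; exact h3

lemma REig.laplacian (h : REig ρ φ m) (hm : m ≠ 0) (g : SL(2, ℝ)) {x : ℂ}
    (hx : 0 < (Complex.I + x / m).im) :
    (Δ (fun x : ℂ => φ (g • ofComplex (Complex.I + x / m)))) x * (Complex.I + x / m).im ^ 2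
      = - (Real.exp (2 * ρ (g • ofComplex (Complex.I + x / m)))
        * φ (g • ofComplex (Complex.I + x / m))) := by
  set c : ℂ → ℂ := fun x : ℂ => ((g • ofComplex (Complex.I + x / m) : ℍ) : ℂ) with hc
  have h1 : ContDiffAt ℝ 2 (fun w : ℂ => φ (ofComplex w)) (c x) :=
    h.smooth.contDiffAt (isOpen_uhp.mem_nhds (UpperHalfPlane.im_pos _))
  have h2 := laplacian_conformal h1 (chart_analytic g hx)
  have e : (fun x : ℂ => φ (g • ofComplex (Complex.I + x / m)))
      = (fun x : ℂ => (fun w : ℂ => φ (ofComplex w)) (c x)) := by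
    funext x
    simp only [hc, ofComplex_apply]
  rw [e, h2]
  have h3 := h.eigen (g • ofComplex (Complex.I + x / m))
  have h4 := chart_deriv g (m := m) hx
  rw [if_neg hm, one_mul] at h4
  have hm2 : m ^ 2 ≠ 0 := pow_ne_zero 2 hm
  set L := (Δ (fun w : ℂ => φ (ofComplex w))) (c x) with hL
  have h3' : (g • ofComplex (Complex.I + x / m) : ℍ).im ^ 2 * L
      = - (m ^ 2 * Real.exp (2 * ρ (g • ofComplex (Complex.I + x / m)))
        * φ (g • ofComplex (Complex.I + x / m))) := h3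
  rw [← h4] at h3'
  have h6 : m ^ 2 * (‖deriv c x‖ ^ 2 * L * (Complex.I + x / m).im ^ 2)
      = m ^ 2 * (- (Real.exp (2 * ρ (g • ofComplex (Complex.I + x / m)))
        * φ (g • ofComplex (Complex.I + x / m)))) := by
    rw [hc]
    linear_combination h3'
  exact mul_left_cancel₀ hm2 h6

lemma REig.cutWave_smooth (h : REig ρ φ m) (p : ℍ × ℝ) :
    ContDiff ℝ 2 (fun x => cutWave φ m x p) := by
  rw [contDiff_iff_contDiffAt]
  intro x
  have hcont : Continuous fun y : ℂ => ‖y / (m : ℂ)‖ := by fun_prop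
  rcases lt_or_ge ‖x / (m : ℂ)‖ (3 / 4) with hx | hx
  · unfold cutWave localWave
    refine ContDiffAt.mul ?_ (h.contDiffAt m (frame p) (im_pos_of_norm (by linarith)))
    have h1 : ContDiff ℝ 2 (cut : ℂ → ℝ) := cut.contDiff
    have h2 : ContDiff ℝ 2 fun y : ℂ => y / (m : ℂ) := by fun_prop
    exact (h1.comp h2).contDiffAt
  · have h1 : (fun x => cutWave φ m x p) =ᶠ[𝓝 x] fun _ => (0:ℝ) := by
      have h2 : ∀ᶠ y in 𝓝 x, 1 / 2 < ‖y / (m : ℂ)‖ :=
        (hcont.tendsto x).eventually (lt_mem_nhds (by linarith))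
      filter_upwards [h2] with y hy
      unfold cutWave
      rw [cut_zero hy.le, zero_mul]
    exact contDiffAt_const.congr_of_eventuallyEq h1

/-- the equation for the base wave -/
lemma REig.cutWave_lap (h : REig ρ φ m) (hm : 0 < m) (p : ℍ × ℝ) {x : ℂ} (hx : ‖x‖ / m < 1 / 4) :
    (Δ (fun x => cutWave φ m x p)) x * (Complex.I + x / m).im ^ 2
      = - (Real.exp (2 * ρ (frame p • ofComplex (Complex.I + x / m))) * cutWave φ m x p) := by
  have hnorm : ‖x / (m : ℂ)‖ = ‖x‖ / m := by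
    rw [norm_div, Complex.norm_real, Real.norm_of_nonneg hm.le]
  have hcont : Continuous fun y : ℂ => ‖y / (m : ℂ)‖ := by fun_prop
  have h1 : (fun x => cutWave φ m x p)
      =ᶠ[𝓝 x] fun x => φ (frame p • ofComplex (Complex.I + x / m)) := by
    have h2 : ∀ᶠ y in 𝓝 x, ‖y / (m : ℂ)‖ < 1 / 4 :=
      (hcont.tendsto x).eventually (gt_mem_nhds (by rw [hnorm]; exact hx))
    filter_upwards [h2] with y hy
    exact cutWave_eq hy.le p
  have h3 : (Δ (fun x => cutWave φ m x p)) x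
      = (Δ (fun x : ℂ => φ (frame p • ofComplex (Complex.I + x / m)))) x :=
    (laplacian_congr_nhds h1).self_of_nhds
  have h1' : cutWave φ m x p = φ (frame p • ofComplex (Complex.I + x / m)) := h1.self_of_nhds
  rw [h3, h1']
  exact h.laplacian hm.ne' (frame p) (im_pos_of_norm (by rw [hnorm]; linarith))

/-- the local bound on the Laplacian -/
lemma REig.cutWave_bound (h : REig ρ φ m) (hm : 0 < m) {K : ℝ} (hK : ∀ z, |ρ z| ≤ K) (p : ℍ × ℝ)
    {x : ℂ} (hx : ‖x‖ / m < 1 / 4) :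
    |(Δ (fun x => cutWave φ m x p)) x| ≤ 2 * Real.exp (2 * K) * |cutWave φ m x p| := by
  have h1 := h.cutWave_lap hm p hx
  have hnorm : ‖x / (m : ℂ)‖ = ‖x‖ / m := by
    rw [norm_div, Complex.norm_real, Real.norm_of_nonneg hm.le]
  set t := (Complex.I + x / (m : ℂ)).im with ht
  have ht1 : 3 / 4 ≤ t := by
    have h2 := Complex.abs_im_le_norm (x / m)
    have h3 := neg_abs_le (x / (m : ℂ)).im
    rw [ht, Complex.add_im, Complex.I_im]
    rw [hnorm] at h2
    linarith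
  have ht2 : 9 / 16 ≤ t ^ 2 := by nlinarith only [ht1]
  have h2 := congrArg abs h1
  rw [abs_mul, abs_neg, abs_mul, abs_of_nonneg (by positivity : 0 ≤ t ^ 2),
    abs_of_pos (Real.exp_pos _)] at h2
  have h3 : Real.exp (2 * ρ (frame p • ofComplex (Complex.I + x / m))) ≤ Real.exp (2 * K) :=
    Real.exp_le_exp.2 (by have := (le_abs_self _).trans (hK (frame p • ofComplex (Complex.I + x / m))); linarith)
  have h4 : |(Δ (fun x => cutWave φ m x p)) x| * t ^ 2 ≤ Real.exp (2 * K) * |cutWave φ m x p| := by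
    rw [h2]
    exact mul_le_mul_of_nonneg_right h3 (abs_nonneg _)
  have h5 : |(Δ (fun x => cutWave φ m x p)) x| * (9 / 16)
      ≤ |(Δ (fun x => cutWave φ m x p)) x| * t ^ 2 := mul_le_mul_of_nonneg_left ht2 (abs_nonneg _)
  have h6 : 0 ≤ Real.exp (2 * K) * |cutWave φ m x p| := by positivity
  linarith only [h4, h5, h6]

end

end Berry


end

section

/-!
Local norms and equicontinuity for the base waves.
-/

open UpperHalfPlane MeasureTheory ProbabilityTheory MatrixGroups Filter Topology Set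
  InnerProductSpace Laplacian
open scoped ENNReal NNReal

namespace Berry

noncomputable section

/-- the geometric data -/
structure Geo (Γ : Subgroup SL(2, ℝ)) (ρ : ℍ → ℝ) (D : Set ℍ) : Prop where
  dom : IsFundamentalDomain Γ D (volume : Measure ℍ)
  meas : MeasurableSet D
  fin : volume D ≠ ∞
  inv : ∀ γ ∈ Γ, ∀ z, ρ (γ • z) = ρ z
  bdd : ∃ K : ℝ, ∀ z, |ρ z| ≤ K
  unif : UniformContinuous ρ

/-- test functions of growth at most four -/
structure Tst (Φ : (Fin 4 → ℝ) → ℝ) (L : ℝ) : Prop where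
  cont : Continuous Φ
  lip : ∀ v v', |Φ v - Φ v'| ≤ L * ‖v - v'‖ * (1 + ‖v‖ + ‖v'‖) ^ 3
  grow : ∀ v, |Φ v| ≤ L * (1 + ‖v‖) ^ 4

lemma Tst.L_nonneg {Φ : (Fin 4 → ℝ) → ℝ} {L : ℝ} (h : Tst Φ L) : 0 ≤ L := by
  have h1 := (abs_nonneg _).trans (h.grow 0)
  rw [norm_zero, add_zero, one_pow, mul_one] at h1
  exact h1

/-- the data of a sequence of eigenfunctions with bounded fourth moments -/
structure Dat (Γ : Subgroup SL(2, ℝ)) (ρ : ℍ → ℝ) (D : Set ℍ) (φ : ℕ → ℍ → ℝ) (m : ℕ → ℝ)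
    (B : ℝ) : Prop where
  geo : Geo Γ ρ D
  eig : REigenSeq Γ ρ φ m
  bdd : ∀ n, ∃ C : ℝ, ∀ z, |φ n z| ≤ C
  four : ∀ᶠ n in atTop, ∫ z, φ n z ^ 4 ∂(ProbabilityTheory.cond (volume : Measure ℍ) D) ≤ B

variable {Γ : Subgroup SL(2, ℝ)} {ρ : ℍ → ℝ} {D : Set ℍ} {φ : ℕ → ℍ → ℝ} {m : ℕ → ℝ} {B : ℝ}

lemma Dat.reig (h : Dat Γ ρ D φ m B) (n : ℕ) : REig ρ (φ n) (m n) :=
  ⟨h.eig.smooth n, h.eig.eigen n⟩

lemma Dat.single (h : Dat Γ ρ D φ m B) (n : ℕ) (P : Measure (ℍ × ℝ)) :
    SingleW P (cutWave (φ n) (m n)) := by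
  obtain ⟨C, hC⟩ := h.bdd n
  exact ⟨cutWave_meas (h.reig n).continuous (m n), (h.reig n).cutWave_smooth, C, cutWave_bdd hC (m n)⟩

lemma Dat.prob [Countable Γ] (h : Dat Γ ρ D φ m B) : IsProbabilityMeasure (frameProb D) :=
  frameProb_isProb h.geo.dom h.geo.fin

lemma Dat.B_nonneg (h : Dat Γ ρ D φ m B) : 0 ≤ B := by
  obtain ⟨n, hn⟩ := h.four.exists
  exact (integral_nonneg fun z => by positivity).trans hn

/-- fourth moments of the base wave at a point -/
lemma Dat.four_point [Countable Γ] (h : Dat Γ ρ D φ m B) : ∀ᶠ n in atTop, ∀ y : ℂ,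
    ∫ p, cutWave (φ n) (m n) y p ^ 4 ∂(frameProb D) ≤ B := by
  have hP := h.prob
  filter_upwards [h.four] with n hn y
  obtain ⟨C, hC⟩ := h.bdd n
  have hφc : Continuous (φ n) := (h.reig n).continuous
  have hint : Integrable (fun p => φ n (frame p • ofComplex (Complex.I + y / (m n))) ^ 4)
      (frameProb D) := by
    refine integrable_bdd (C := C ^ 4) ?_ fun p => ?_
    · exact (((hφc.comp (frame_continuous.smul continuous_const)).measurable).pow_const 4)
    · rw [abs_pow]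
      exact pow_le_pow_left₀ (abs_nonneg _) (hC _) 4
  calc ∫ p, cutWave (φ n) (m n) y p ^ 4 ∂(frameProb D)
      ≤ ∫ p, φ n (frame p • ofComplex (Complex.I + y / (m n))) ^ 4 ∂(frameProb D) := by
        refine integral_mono_of_nonneg (Eventually.of_forall fun p => by positivity) hint
          (Eventually.of_forall fun p => ?_)
        simp only [cutWave, localWave]
        rw [mul_pow]
        have h1 : cut (y / (m n : ℂ)) ^ 4 ≤ 1 := pow_le_one₀ cut.nonneg cut.le_one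
        have h2 : 0 ≤ φ n (frame p • ofComplex (Complex.I + y / (m n))) ^ 4 := by positivity
        nlinarith
    _ = ∫ z, φ n z ^ 4 ∂(ProbabilityTheory.cond (volume : Measure ℍ) D) :=
        frame_pow h.geo.dom h.geo.meas h.geo.fin (ψ := fun z => φ n z ^ 4) (hφc.pow 4)
          (fun γ hγ z => by simp only [h.eig.invariant n γ hγ]) _
    _ ≤ B := hn

/-- the local norm -/
def Nn (φ : ℕ → ℍ → ℝ) (m : ℕ → ℝ) (r : ℝ) (n : ℕ) (p : ℍ × ℝ) : ℝ :=
  N4 (fun y => cutWave (φ n) (m n) y p) 0 r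

lemma Nn_nonneg (r : ℝ) (n : ℕ) (p : ℍ × ℝ) : 0 ≤ Nn φ m r n p := N4_nonneg _ _ _

lemma Dat.Nn_meas (h : Dat Γ ρ D φ m B) (r : ℝ) (n : ℕ) : Measurable (Nn φ m r n) := by
  have h1 : Measurable (Function.uncurry fun (p : ℍ × ℝ) (y : ℂ) => cutWave (φ n) (m n) y p ^ 4) := by
    have h2 := (h.single n (frameProb D)).meas_uncurry.comp measurable_swap
    exact h2.pow_const 4
  exact (h1.stronglyMeasurable.integral_prod_right'
    (ν := (volume : Measure ℂ).restrict (Metric.ball 0 r))).measurable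

lemma Dat.Nn_bdd (h : Dat Γ ρ D φ m B) (r : ℝ) (n : ℕ) : ∃ C : ℝ, ∀ p, |Nn φ m r n p| ≤ C := by
  obtain ⟨C, hC⟩ := h.bdd n
  have hfin := ball_finite r
  refine ⟨C ^ 4 * ((volume : Measure ℂ).restrict (Metric.ball 0 r)).real Set.univ, fun p => ?_⟩
  have h1 : ‖∫ y in Metric.ball (0:ℂ) r, cutWave (φ n) (m n) y p ^ 4‖
      ≤ C ^ 4 * ((volume : Measure ℂ).restrict (Metric.ball 0 r)).real Set.univ := by
    refine norm_integral_le_of_norm_le_const (Eventually.of_forall fun y => ?_)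
    rw [Real.norm_eq_abs, abs_pow]
    exact pow_le_pow_left₀ (abs_nonneg _) (cutWave_bdd hC _ _ _) 4
  exact h1

lemma Dat.Nn_int [Countable Γ] (h : Dat Γ ρ D φ m B) (r : ℝ) (n : ℕ) :
    Integrable (Nn φ m r n) (frameProb D) := by
  have hP := h.prob
  obtain ⟨C, hC⟩ := h.Nn_bdd r n
  exact integrable_bdd (h.Nn_meas r n) hC

/-- the local norms are bounded in mean -/
lemma Dat.Nn_mean [Countable Γ] (h : Dat Γ ρ D φ m B) (r : ℝ) : ∀ᶠ n in atTop,
    ∫ p, Nn φ m r n p ∂(frameProb D) ≤ (volume : Measure ℂ).real (Metric.ball 0 r) * B := by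
  have hP := h.prob
  have hfin := ball_finite r
  filter_upwards [h.four_point] with n hn
  obtain ⟨C, hC⟩ := h.bdd n
  have h1 : Measurable (Function.uncurry fun (p : ℍ × ℝ) (y : ℂ) => cutWave (φ n) (m n) y p ^ 4) := by
    have h2 := (h.single n (frameProb D)).meas_uncurry.comp measurable_swap
    exact h2.pow_const 4
  have h3 := swap_bdd (ν := frameProb D) (μ := (volume : Measure ℂ).restrict (Metric.ball (0:ℂ) r))
    h1 (C := C ^ 4) (fun p y => by
      rw [abs_pow]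
      exact pow_le_pow_left₀ (abs_nonneg _) (cutWave_bdd hC _ _ _) 4)
  have h4 : ∫ p, Nn φ m r n p ∂(frameProb D)
      = ∫ y in Metric.ball (0:ℂ) r, ∫ p, cutWave (φ n) (m n) y p ^ 4 ∂(frameProb D) := h3
  rw [h4]
  have h5 : ‖∫ y in Metric.ball (0:ℂ) r, ∫ p, cutWave (φ n) (m n) y p ^ 4 ∂(frameProb D)‖
      ≤ B * ((volume : Measure ℂ).restrict (Metric.ball 0 r)).real Set.univ := by
    refine norm_integral_le_of_norm_le_const (Eventually.of_forall fun y => ?_)
    rw [Real.norm_of_nonneg (integral_nonneg fun p => by positivity)]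
    exact hn y
  have h6 : ((volume : Measure ℂ).restrict (Metric.ball 0 r)).real Set.univ
      = (volume : Measure ℂ).real (Metric.ball 0 r) := by
    simp [Measure.real]
  rw [h6] at h5
  calc _ ≤ _ := Real.le_norm_self _
    _ ≤ _ := h5
    _ = _ := mul_comm _ _

lemma four_conv {ν : ℝ} (_hν : 0 ≤ ν) : (1 + ν) ^ 4 ≤ 8 * (1 + ν ^ 4) := by
  linarith only [sq_nonneg (ν - 1), mul_nonneg _hν (sq_nonneg (ν - 1)), sq_nonneg (ν ^ 2 - ν)]

/-- **local sup bound for the base wave** -/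
lemma Dat.sup (h : Dat Γ ρ D φ m B) : ∃ C : ℝ, 0 < C ∧ ∀ r : ℝ, ∀ᶠ n in atTop, ∀ p, ∀ t : ℂ,
    ‖t‖ < r → |cutWave (φ n) (m n) t p| ≤ C * rt4 (Nn φ m (r + 1) n p) := by
  obtain ⟨K, hK⟩ := h.geo.bdd
  obtain ⟨C, hC0, hC⟩ := det_sup (L := 2 * Real.exp (2 * K)) (by positivity)
  refine ⟨C, hC0, fun r => ?_⟩
  filter_upwards [(h.eig.tendsto.const_div_atTop (r + 1)).eventually
    (gt_mem_nhds (show (0:ℝ) < 1 / 4 by norm_num)), h.eig.tendsto.eventually_gt_atTop 0]
    with n hn hm p t ht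
  have hsm := (h.reig n).cutWave_smooth p
  have hball : Metric.ball t 1 ⊆ Metric.ball (0:ℂ) (r + 1) := by
    apply Metric.ball_subset_ball'
    rw [dist_zero_right]; linarith
  have h1 := hC _ hsm t (fun x hx => (h.reig n).cutWave_bound hm hK p (by
    have := hball hx
    rw [Metric.mem_ball, dist_zero_right] at this
    exact (div_lt_div_of_pos_right this hm).trans hn)) t (Metric.mem_ball_self (by norm_num))
  refine h1.trans (mul_le_mul_of_nonneg_left (rt4_mono ?_) hC0.le)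
  exact N4_mono hsm.continuous hball

/-- **local modulus of continuity for the base wave** -/
lemma Dat.mod (h : Dat Γ ρ D φ m B) {η : ℝ} (hη : 0 < η) : ∃ d > 0, ∀ r : ℝ, ∀ᶠ n in atTop,
    ∀ p, ∀ t t' : ℂ, ‖t‖ < r → ‖t' - t‖ < d →
      |cutWave (φ n) (m n) t p - cutWave (φ n) (m n) t' p| ≤ η * rt4 (Nn φ m (r + 1) n p) := by
  obtain ⟨K, hK⟩ := h.geo.bdd
  obtain ⟨d, hd, hdm⟩ := det_mod (L := 2 * Real.exp (2 * K)) (by positivity) hη
  refine ⟨min d (1 / 2), by positivity, fun r => ?_⟩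
  filter_upwards [(h.eig.tendsto.const_div_atTop (r + 1)).eventually
    (gt_mem_nhds (show (0:ℝ) < 1 / 4 by norm_num)), h.eig.tendsto.eventually_gt_atTop 0]
    with n hn hm p t t' ht htt
  have hsm := (h.reig n).cutWave_smooth p
  have hball : Metric.ball t 1 ⊆ Metric.ball (0:ℂ) (r + 1) := by
    apply Metric.ball_subset_ball'
    rw [dist_zero_right]; linarith
  have h1 := hdm _ hsm t (fun x hx => (h.reig n).cutWave_bound hm hK p (by
    have := hball hx
    rw [Metric.mem_ball, dist_zero_right] at this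
    exact (div_lt_div_of_pos_right this hm).trans hn)) t (Metric.mem_ball_self (by norm_num)) t'
    (by rw [Metric.mem_ball, dist_eq_norm]; exact lt_of_lt_of_le htt (min_le_right _ _))
    (by rw [norm_sub_rev]; exact lt_of_lt_of_le htt (min_le_left _ _))
  refine h1.trans (mul_le_mul_of_nonneg_left (rt4_mono ?_) hη.le)
  exact N4_mono hsm.continuous hball

/-- growth of test functions of the base wave -/
lemma Dat.grow (h : Dat Γ ρ D φ m B) {Φ : (Fin 4 → ℝ) → ℝ} {L : ℝ} (hΦ : Tst Φ L) :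
    ∃ C : ℝ, 0 ≤ C ∧ ∀ r : ℝ, ∀ᶠ n in atTop, ∀ p, ∀ t : Fin 4 → ℂ, (∀ j, ‖t j‖ < r) →
      |Φ fun j => cutWave (φ n) (m n) (t j) p| ≤ C * (1 + Nn φ m (r + 1) n p) := by
  obtain ⟨C, hC0, hC⟩ := h.sup
  have hL := hΦ.L_nonneg
  refine ⟨8 * L * (1 + C) ^ 4, by positivity, fun r => ?_⟩
  filter_upwards [hC r] with n hn p t ht
  set N := Nn φ m (r + 1) n p with hN
  have hN0 : 0 ≤ N := Nn_nonneg _ _ _
  set ν := rt4 N with hν
  have hν0 : 0 ≤ ν := rt4_nonneg _
  have hν4 : ν ^ 4 = N := rt4_pow hN0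
  set v : Fin 4 → ℝ := fun j => cutWave (φ n) (m n) (t j) p with hv
  have h1 : ‖v‖ ≤ C * ν := by
    rw [pi_norm_le_iff_of_nonneg (by positivity)]
    intro j
    rw [Real.norm_eq_abs]
    exact hn p (t j) (ht j)
  have h2 : (1 + ‖v‖) ^ 4 ≤ ((1 + C) * (1 + ν)) ^ 4 := by
    refine pow_le_pow_left₀ (by positivity) ?_ 4
    nlinarith
  calc |Φ v| ≤ L * (1 + ‖v‖) ^ 4 := hΦ.grow v
    _ ≤ L * ((1 + C) * (1 + ν)) ^ 4 := mul_le_mul_of_nonneg_left h2 hL
    _ = L * (1 + C) ^ 4 * (1 + ν) ^ 4 := by ring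
    _ ≤ L * (1 + C) ^ 4 * (8 * (1 + ν ^ 4)) :=
        mul_le_mul_of_nonneg_left (four_conv hν0) (by positivity)
    _ = 8 * L * (1 + C) ^ 4 * (1 + N) := by rw [hν4]; ring

/-- modulus of continuity of test functions of the base wave -/
lemma Dat.tmod (h : Dat Γ ρ D φ m B) {Φ : (Fin 4 → ℝ) → ℝ} {L : ℝ} (hΦ : Tst Φ L) {η : ℝ}
    (hη : 0 < η) :
    ∃ d > 0, ∀ r : ℝ, ∀ᶠ n in atTop, ∀ p, ∀ t t' : Fin 4 → ℂ, (∀ j, ‖t j‖ < r) →
      (∀ j, ‖t' j‖ < r) → (∀ j, ‖t' j - t j‖ < d) →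
      |Φ (fun j => cutWave (φ n) (m n) (t j) p) - Φ (fun j => cutWave (φ n) (m n) (t' j) p)|
        ≤ η * (1 + Nn φ m (r + 1) n p) := by
  obtain ⟨C, hC0, hC⟩ := h.sup
  have hL := hΦ.L_nonneg
  set η' := η / (8 * (L + 1) * (1 + 2 * C) ^ 3) with hη'
  have hη'0 : 0 < η' := by positivity
  obtain ⟨d, hd, hmod⟩ := h.mod hη'0
  refine ⟨d, hd, fun r => ?_⟩
  filter_upwards [hC r, hmod r] with n hn hn2 p t t' ht ht' htt
  set N := Nn φ m (r + 1) n p with hN
  have hN0 : 0 ≤ N := Nn_nonneg _ _ _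
  set ν := rt4 N with hν
  have hν0 : 0 ≤ ν := rt4_nonneg _
  have hν4 : ν ^ 4 = N := rt4_pow hN0
  set v : Fin 4 → ℝ := fun j => cutWave (φ n) (m n) (t j) p with hv
  set v' : Fin 4 → ℝ := fun j => cutWave (φ n) (m n) (t' j) p with hv'
  have h1 : ‖v‖ ≤ C * ν := by
    rw [pi_norm_le_iff_of_nonneg (by positivity)]
    intro j
    rw [Real.norm_eq_abs]
    exact hn p (t j) (ht j)
  have h1' : ‖v'‖ ≤ C * ν := by
    rw [pi_norm_le_iff_of_nonneg (by positivity)]
    intro j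
    rw [Real.norm_eq_abs]
    exact hn p (t' j) (ht' j)
  have h2 : ‖v - v'‖ ≤ η' * ν := by
    rw [pi_norm_le_iff_of_nonneg (by positivity)]
    intro j
    rw [Real.norm_eq_abs, Pi.sub_apply]
    exact hn2 p (t j) (t' j) (ht j) (htt j)
  have h3 : (1 + ‖v‖ + ‖v'‖) ^ 3 ≤ ((1 + 2 * C) * (1 + ν)) ^ 3 := by
    refine pow_le_pow_left₀ (by positivity) ?_ 3
    linarith only [hC0, hν0, h1, h1']
  calc |Φ v - Φ v'| ≤ L * ‖v - v'‖ * (1 + ‖v‖ + ‖v'‖) ^ 3 := hΦ.lip v v'
    _ ≤ L * (η' * ν) * ((1 + 2 * C) * (1 + ν)) ^ 3 := by gcongr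
    _ = L * η' * (1 + 2 * C) ^ 3 * (ν * (1 + ν) ^ 3) := by ring
    _ ≤ (L + 1) * η' * (1 + 2 * C) ^ 3 * (1 + ν) ^ 4 := by
        have a1 : ν * (1 + ν) ^ 3 ≤ (1 + ν) ^ 4 := by
          have : (1 + ν) ^ 4 = (1 + ν) * (1 + ν) ^ 3 := by ring
          rw [this]
          exact mul_le_mul_of_nonneg_right (by linarith) (by positivity)
        have a2 : L * η' * (1 + 2 * C) ^ 3 ≤ (L + 1) * η' * (1 + 2 * C) ^ 3 := by
          have : 0 ≤ η' * (1 + 2 * C) ^ 3 := by positivity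
          linarith only [this]
        exact mul_le_mul a2 a1 (by positivity) (by positivity)
    _ ≤ (L + 1) * η' * (1 + 2 * C) ^ 3 * (8 * (1 + ν ^ 4)) :=
        mul_le_mul_of_nonneg_left (four_conv hν0) (by positivity)
    _ = η * (1 + N) := by
        rw [hν4, hη']; field_simp

end

end Berry


end

section

/-!
Asymptotic translation invariance of the base wave against weights depending on `ρ`.
-/

open UpperHalfPlane MeasureTheory ProbabilityTheory MatrixGroups Filter Topology Set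
  InnerProductSpace Laplacian
open scoped ENNReal NNReal

namespace Berry

noncomputable section

variable {Γ : Subgroup SL(2, ℝ)} {ρ : ℍ → ℝ} {D : Set ℍ} {φ : ℕ → ℍ → ℝ} {m : ℕ → ℝ} {B : ℝ}

/-- weighted averages of a test function of the base wave -/
def Tw (D : Set ℍ) (ρ : ℍ → ℝ) (φ : ℕ → ℍ → ℝ) (m : ℕ → ℝ) (Φ : (Fin 4 → ℝ) → ℝ) (h : ℝ → ℝ)
    (n : ℕ) (t : Fin 4 → ℂ) : ℝ :=
  ∫ p, h (ρ p.1) * Φ (fun j => cutWave (φ n) (m n) (t j) p) ∂(frameProb D)

lemma Dat.tendsto_div (h : Dat Γ ρ D φ m B) (x : ℂ) :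
    Tendsto (fun n => ‖x / (m n : ℂ)‖) atTop (𝓝 0) := by
  have h1 : Tendsto (fun n => ‖x‖ / m n) atTop (𝓝 0) := h.eig.tendsto.const_div_atTop ‖x‖
  refine h1.congr' ?_
  filter_upwards [h.eig.tendsto.eventually_gt_atTop 0] with n hm
  rw [norm_div, Complex.norm_real, Real.norm_of_nonneg hm.le]

lemma Dat.tendsto_scaled (h : Dat Γ ρ D φ m B) (x s : ℂ) :
    Tendsto (fun n => x / (((Complex.I + s / (m n : ℂ)).im : ℝ) : ℂ)) atTop (𝓝 x) := by
  have h1 : Tendsto (fun n => (Complex.I + s / (m n : ℂ)).im) atTop (𝓝 1) := by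
    have h2 : Tendsto (fun n => s / (m n : ℂ)) atTop (𝓝 0) := by
      rw [tendsto_zero_iff_norm_tendsto_zero]; exact h.tendsto_div s
    have h3 := (Complex.continuous_im.tendsto _).comp (h2.const_add Complex.I)
    rw [add_zero, Complex.I_im] at h3
    exact h3
  have h2 := (Complex.continuous_ofReal.tendsto _).comp h1
  rw [Complex.ofReal_one] at h2
  have h3 := (tendsto_const_nhds (x := x) (f := atTop (α := ℕ))).div h2 one_ne_zero
  rw [div_one] at h3
  exact h3

/-- the base point moves little -/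
lemma Dat.tendsto_point (h : Dat Γ ρ D φ m B) (s : ℂ) :
    Tendsto (fun n => (ofComplex (Complex.I + s / (m n : ℂ)) : ℍ)) atTop (𝓝 I) := by
  have h2 : Tendsto (fun n => s / (m n : ℂ)) atTop (𝓝 0) := by
    rw [tendsto_zero_iff_norm_tendsto_zero]; exact h.tendsto_div s
  have h3 : Tendsto (fun n => Complex.I + s / (m n : ℂ)) atTop (𝓝 (Complex.I + 0)) :=
    h2.const_add Complex.I
  rw [add_zero] at h3
  have h4 : ContinuousAt (ofComplex : ℂ → ℍ) Complex.I := by
    have := (contMDiffAt_ofComplex (n := 0) (z := Complex.I) (by simp)).continuousAt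
    exact this
  have h5 := h4.tendsto.comp h3
  have e : (ofComplex Complex.I : ℍ) = I := by
    have : (Complex.I : ℂ) = ((I : ℍ) : ℂ) := rfl
    rw [this, ofComplex_apply]
  rw [e] at h5
  exact h5

lemma Dat.points (h : Dat Γ ρ D φ m B) (x s : ℂ) : ∀ᶠ n in atTop, ∀ p,
      cutWave (φ n) (m n) (x + s) p
        = φ n (frame p • ((ofComplex (Complex.I + s / (m n : ℂ)) : ℍ).toSL2R •
        (ofComplex (Complex.I + (x / (((Complex.I + s / (m n : ℂ)).im : ℝ) : ℂ)) / (m n : ℂ)) : ℍ)))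
      ∧ cutWave (φ n) (m n) (x / (((Complex.I + s / (m n : ℂ)).im : ℝ) : ℂ)) p
        = φ n (frame p • (ofComplex
          (Complex.I + (x / (((Complex.I + s / (m n : ℂ)).im : ℝ) : ℂ)) / (m n : ℂ)) : ℍ)) := by
  have h1 := (h.tendsto_div (x + s)).eventually (gt_mem_nhds (show (0:ℝ) < 1 / 4 by norm_num))
  have h2 := (h.tendsto_div s).eventually (gt_mem_nhds (show (0:ℝ) < 1 / 4 by norm_num))
  have h3 : ∀ᶠ n in atTop, ‖x / (((Complex.I + s / (m n : ℂ)).im : ℝ) : ℂ)‖ < ‖x‖ + 1 :=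
    (h.tendsto_scaled x s).norm.eventually (gt_mem_nhds (by linarith))
  have h4 : ∀ᶠ n in atTop, (‖x‖ + 1) / m n < 1 / 4 :=
    (h.eig.tendsto.const_div_atTop (‖x‖ + 1)).eventually
      (gt_mem_nhds (show (0:ℝ) < 1 / 4 by norm_num))
  filter_upwards [h1, h2, h3, h4, h.eig.tendsto.eventually_gt_atTop 0] with n k1 k2 k3 k4 hm p
  constructor
  · rw [cutWave_eq k1.le]
    unfold localWave
    rw [shift_point (im_pos_of_norm (by linarith)) (im_pos_of_norm (by linarith))]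
  · rw [cutWave_eq]
    · rfl
    · rw [norm_div, Complex.norm_real (m n), Real.norm_of_nonneg hm.le]
      refine le_trans ?_ k4.le
      exact div_le_div_of_nonneg_right k3.le hm.le

/-- uniform continuity of the weights -/
lemma Geo.weight (hg : Geo Γ ρ D) {w : ℝ → ℝ} (hw : Continuous w) {ε : ℝ} (hε : 0 < ε) :
    ∃ δ > 0, ∀ z z' : ℍ, dist z z' < δ → |w (ρ z) - w (ρ z')| < ε := by
  obtain ⟨K, hK⟩ := hg.bdd
  have h1 := (isCompact_Icc (a := -K) (b := K)).uniformContinuousOn_of_continuous hw.continuousOn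
  obtain ⟨δ₁, hδ₁, h2⟩ := Metric.uniformContinuousOn_iff.1 h1 ε hε
  obtain ⟨δ₂, hδ₂, h3⟩ := Metric.uniformContinuous_iff.1 hg.unif δ₁ hδ₁
  refine ⟨δ₂, hδ₂, fun z z' hz => ?_⟩
  have := h2 (ρ z) (abs_le.1 (hK z)) (ρ z') (abs_le.1 (hK z')) (h3 hz)
  rw [Real.dist_eq] at this
  exact this

lemma Geo.weight_bdd (hg : Geo Γ ρ D) {w : ℝ → ℝ} (hw : Continuous w) :
    ∃ H : ℝ, 0 ≤ H ∧ ∀ z, |w (ρ z)| ≤ H := by
  obtain ⟨K, hK⟩ := hg.bdd
  obtain ⟨H, hH⟩ := (isCompact_Icc (a := -K) (b := K)).exists_bound_of_continuousOn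
    hw.continuousOn
  refine ⟨H, (norm_nonneg _).trans (hH (ρ I) (abs_le.1 (hK I))), fun z => ?_⟩
  exact hH (ρ z) (abs_le.1 (hK z))

lemma Dat.tst_meas (h : Dat Γ ρ D φ m B) {Φ : (Fin 4 → ℝ) → ℝ} (hΦ : Continuous Φ) (n : ℕ)
    (t : Fin 4 → ℂ) : Measurable fun p => Φ (fun j => cutWave (φ n) (m n) (t j) p) :=
  hΦ.measurable.comp (measurable_pi_lambda _ fun j => cutWave_meas (h.reig n).continuous (m n) (t j))

lemma Dat.tst_bdd (h : Dat Γ ρ D φ m B) {Φ : (Fin 4 → ℝ) → ℝ} {L : ℝ} (hΦ : Tst Φ L) (n : ℕ) :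
    ∃ C : ℝ, ∀ (t : Fin 4 → ℂ) p, |Φ (fun j => cutWave (φ n) (m n) (t j) p)| ≤ C := by
  obtain ⟨C, hC⟩ := h.bdd n
  have hL := hΦ.L_nonneg
  have hC0 : 0 ≤ C := (abs_nonneg _).trans (hC I)
  refine ⟨L * (1 + C) ^ 4, fun t p => (hΦ.grow _).trans ?_⟩
  refine mul_le_mul_of_nonneg_left (pow_le_pow_left₀ (by positivity) ?_ 4) hL
  have : ‖fun j => cutWave (φ n) (m n) (t j) p‖ ≤ C := by
    rw [pi_norm_le_iff_of_nonneg hC0]
    intro j
    rw [Real.norm_eq_abs]
    exact cutWave_bdd hC _ _ _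
  linarith

/-- **asymptotic invariance of the weighted averages** -/
lemma Dat.tw_shift [Countable Γ] (h : Dat Γ ρ D φ m B) {Φ : (Fin 4 → ℝ) → ℝ} {L : ℝ}
    (hΦ : Tst Φ L) {w : ℝ → ℝ} (hw : Continuous w) (t : Fin 4 → ℂ) (s : ℂ) :
    Tendsto (fun n => Tw D ρ φ m Φ w n (fun j => t j + s) - Tw D ρ φ m Φ w n t) atTop (𝓝 0) := by
  have hP := h.prob
  have hL := hΦ.L_nonneg
  have hρc : Continuous ρ := h.geo.unif.continuous
  obtain ⟨H, hH0, hH⟩ := h.geo.weight_bdd hw
  obtain ⟨CΦ, hCΦ0, hgrow⟩ := h.grow hΦ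
  set r := ‖t 0‖ + ‖t 1‖ + ‖t 2‖ + ‖t 3‖ + 1 with hr
  have hrj : ∀ j, ‖t j‖ + 1 ≤ r := by
    intro j
    have h0 := norm_nonneg (t 0)
    have h1 := norm_nonneg (t 1)
    have h2 := norm_nonneg (t 2)
    have h3 := norm_nonneg (t 3)
    fin_cases j <;> simp only [Fin.zero_eta, Fin.mk_one, Fin.reduceFinMk] <;> linarith
  set V := (volume : Measure ℂ).real (Metric.ball (0:ℂ) (r + 1)) with hV
  have hV0 : 0 ≤ V := measureReal_nonneg
  have hB0 := h.B_nonneg
  set Q := 1 + V * B with hQ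
  have hQ0 : 0 < Q := by positivity
  rw [Metric.tendsto_nhds]
  intro ε hε
  -- modulus for the test function
  obtain ⟨d, hd, hmod⟩ := h.tmod hΦ (η := ε / (4 * (H + 1) * Q)) (by positivity)
  -- modulus for the weight
  obtain ⟨δ, hδ, hwt⟩ := h.geo.weight hw (ε := ε / (4 * (CΦ + 1) * Q)) (by positivity)
  have hnear : ∀ j, ∀ᶠ n in atTop,
      ‖t j / (((Complex.I + s / (m n : ℂ)).im : ℝ) : ℂ) - t j‖ < d
      ∧ ‖t j / (((Complex.I + s / (m n : ℂ)).im : ℝ) : ℂ)‖ < ‖t j‖ + 1 := by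
    intro j
    have h1 := Metric.tendsto_nhds.1 (h.tendsto_scaled (t j) s) d hd
    have h3 : ∀ᶠ n in atTop, ‖t j / (((Complex.I + s / (m n : ℂ)).im : ℝ) : ℂ)‖ < ‖t j‖ + 1 :=
      (h.tendsto_scaled (t j) s).norm.eventually (gt_mem_nhds (by linarith))
    filter_upwards [h1, h3] with n k1 k3
    rw [dist_eq_norm] at k1
    exact ⟨k1, k3⟩
  have hpt : ∀ᶠ n in atTop, ∀ j, ∀ p, cutWave (φ n) (m n) (t j + s) p
        = φ n (frame p • ((ofComplex (Complex.I + s / (m n : ℂ)) : ℍ).toSL2R •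
        (ofComplex (Complex.I + (t j / (((Complex.I + s / (m n : ℂ)).im : ℝ) : ℂ)) / (m n : ℂ)) : ℍ)))
      ∧ cutWave (φ n) (m n) (t j / (((Complex.I + s / (m n : ℂ)).im : ℝ) : ℂ)) p
        = φ n (frame p • (ofComplex
          (Complex.I + (t j / (((Complex.I + s / (m n : ℂ)).im : ℝ) : ℂ)) / (m n : ℂ)) : ℍ)) :=
    eventually_all.2 fun j => h.points (t j) s
  have hbase := Metric.tendsto_nhds.1 (h.tendsto_point s) δ hδ
  filter_upwards [hmod r, hgrow r, eventually_all.2 hnear, hpt, hbase, h.Nn_mean (r + 1)]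
    with n hn1 hn2 hn3 hn4 hn5 hn6
  set a : ℂ := (((Complex.I + s / (m n : ℂ)).im : ℝ) : ℂ) with ha
  set A : SL(2, ℝ) := (ofComplex (Complex.I + s / (m n : ℂ)) : ℍ).toSL2R with hA
  set W : Fin 4 → ℍ := fun j => ofComplex (Complex.I + (t j / a) / (m n : ℂ)) with hW
  have hφc : Continuous (φ n) := (h.reig n).continuous
  obtain ⟨CN, hCN⟩ := h.tst_bdd hΦ n
  set G : Fin 4 → ℂ → ℍ × ℝ → ℝ := fun j x p => cutWave (φ n) (m n) x p with hG
  -- exact invariance
  have hinvar : Tw D ρ φ m Φ w n (fun j => t j + s)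
      = ∫ p, w (ρ (frame p • (A⁻¹ • I))) * Φ (fun j => cutWave (φ n) (m n) (t j / a) p)
        ∂(frameProb D) := by
    borelize SL(2, ℝ)
    have hc : Continuous fun g : SL(2, ℝ) => w (ρ (g • (A⁻¹ • I))) * Φ (fun j => φ n (g • W j)) :=
      (hw.comp (hρc.comp (continuous_id.smul continuous_const))).mul
        (hΦ.cont.comp (continuous_pi fun j => hφc.comp (continuous_id.smul continuous_const)))
    have h1 := frame_invariant h.geo.dom h.geo.meas h.geo.fin hc.measurable (fun γ hγ g => by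
      simp only [mul_smul, h.eig.invariant n γ hγ, h.geo.inv γ hγ]) A
    have e1 : ∀ p : ℍ × ℝ, (frame p * A) • (A⁻¹ • I) = (p.1 : ℍ) := by
      intro p
      rw [mul_smul, smul_inv_smul, frame_smul_I]
    simp only [e1] at h1
    have e2 : Tw D ρ φ m Φ w n (fun j => t j + s)
        = ∫ p, w (ρ p.1) * Φ (fun j => φ n ((frame p * A) • W j)) ∂(frameProb D) := by
      unfold Tw
      congr 1; funext p
      congr 2; funext j
      rw [(hn4 j p).1, mul_smul]
    rw [e2, h1]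
    congr 1; funext p
    congr 2; funext j
    rw [(hn4 j p).2]
  -- integrability
  have m0 : ∀ z : ℍ, Measurable fun p : ℍ × ℝ => w (ρ (frame p • z)) := fun z =>
    (hw.comp (hρc.comp (frame_continuous.smul continuous_const))).measurable
  have m1 : Measurable fun p : ℍ × ℝ => w (ρ p.1) := (hw.comp (hρc.comp continuous_fst)).measurable
  have hCN0 : 0 ≤ CN := (abs_nonneg _).trans (hCN t (I, 0))
  have i1 : Integrable (fun p => w (ρ (frame p • (A⁻¹ • I)))
      * Φ (fun j => cutWave (φ n) (m n) (t j / a) p)) (frameProb D) :=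
    integrable_bdd (C := H * CN) ((m0 _).mul (h.tst_meas hΦ.cont n _)) fun p => by
      rw [abs_mul]; exact mul_le_mul (hH _) (hCN _ _) (abs_nonneg _) hH0
  have i2 : Integrable (fun p => w (ρ p.1) * Φ (fun j => cutWave (φ n) (m n) (t j) p))
      (frameProb D) :=
    integrable_bdd (C := H * CN) (m1.mul (h.tst_meas hΦ.cont n _)) fun p => by
      rw [abs_mul]; exact mul_le_mul (hH _) (hCN _ _) (abs_nonneg _) hH0
  have iN : Integrable (fun p => 1 + Nn φ m (r + 1) n p) (frameProb D) :=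
    (integrable_const _).add (h.Nn_int (r + 1) n)
  have hEN : ∫ p, (1 + Nn φ m (r + 1) n p) ∂(frameProb D) ≤ Q := by
    rw [integral_add (integrable_const _) (h.Nn_int (r + 1) n)]
    simp only [integral_const, probReal_univ, smul_eq_mul, one_mul]
    rw [hQ]; linarith
  -- pointwise estimate
  have hpw : ∀ p, |w (ρ (frame p • (A⁻¹ • I))) * Φ (fun j => cutWave (φ n) (m n) (t j / a) p)
      - w (ρ p.1) * Φ (fun j => cutWave (φ n) (m n) (t j) p)|
      ≤ (ε / (2 * Q)) * (1 + Nn φ m (r + 1) n p) := by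
    intro p
    have hN0 : 0 ≤ 1 + Nn φ m (r + 1) n p := by
      have := Nn_nonneg (φ := φ) (m := m) (r + 1) n p; linarith
    have g1 := hn1 p t (fun j => t j / a) (fun j => by have := hrj j; linarith)
      (fun j => lt_of_lt_of_le (hn3 j).2 (hrj j)) (fun j => (hn3 j).1)
    have g2 := hn2 p (fun j => t j / a) (fun j => lt_of_lt_of_le (hn3 j).2 (hrj j))
    have hdist : dist (frame p • (A⁻¹ • I)) (p.1 : ℍ) < δ := by
      have q : dist (frame p • (A⁻¹ • I)) (p.1 : ℍ) = dist (frame p • (A⁻¹ • I)) (frame p • I) := by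
        rw [frame_smul_I]
      rw [q, dist_smul, ← dist_smul A, smul_inv_smul, hA, toSL2R_smul_I, dist_comm]
      exact hn5
    have g3 := (hwt _ _ hdist).le
    have e1 : w (ρ (frame p • (A⁻¹ • I))) * Φ (fun j => cutWave (φ n) (m n) (t j / a) p)
      - w (ρ p.1) * Φ (fun j => cutWave (φ n) (m n) (t j) p)
      = (w (ρ (frame p • (A⁻¹ • I))) - w (ρ p.1))
          * Φ (fun j => cutWave (φ n) (m n) (t j / a) p)
        - w (ρ p.1) * (Φ (fun j => cutWave (φ n) (m n) (t j) p)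
          - Φ (fun j => cutWave (φ n) (m n) (t j / a) p)) := by ring
    rw [e1]
    refine (abs_sub _ _).trans ?_
    rw [abs_mul, abs_mul]
    have b1 : |w (ρ (frame p • (A⁻¹ • I))) - w (ρ p.1)|
        * |Φ (fun j => cutWave (φ n) (m n) (t j / a) p)|
        ≤ (ε / (4 * (CΦ + 1) * Q)) * (CΦ * (1 + Nn φ m (r + 1) n p)) :=
      mul_le_mul g3 g2 (abs_nonneg _) (by positivity)
    have b2 : |w (ρ p.1)| * |Φ (fun j => cutWave (φ n) (m n) (t j) p)
          - Φ (fun j => cutWave (φ n) (m n) (t j / a) p)|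
        ≤ H * ((ε / (4 * (H + 1) * Q)) * (1 + Nn φ m (r + 1) n p)) :=
      mul_le_mul (hH _) g1 (abs_nonneg _) hH0
    have c1 : (ε / (4 * (CΦ + 1) * Q)) * (CΦ * (1 + Nn φ m (r + 1) n p))
        ≤ (ε / (4 * Q)) * (1 + Nn φ m (r + 1) n p) := by
      have : (ε / (4 * (CΦ + 1) * Q)) * CΦ ≤ ε / (4 * Q) := by
        rw [div_mul_eq_mul_div, div_le_div_iff₀ (by positivity) (by positivity)]
        linarith only [mul_pos hε hQ0]
      calc _ = ((ε / (4 * (CΦ + 1) * Q)) * CΦ) * (1 + Nn φ m (r + 1) n p) := by ring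
        _ ≤ _ := mul_le_mul_of_nonneg_right this hN0
    have c2 : H * ((ε / (4 * (H + 1) * Q)) * (1 + Nn φ m (r + 1) n p))
        ≤ (ε / (4 * Q)) * (1 + Nn φ m (r + 1) n p) := by
      have : H * (ε / (4 * (H + 1) * Q)) ≤ ε / (4 * Q) := by
        rw [mul_div_assoc', div_le_div_iff₀ (by positivity) (by positivity)]
        linarith only [mul_pos hε hQ0]
      calc _ = (H * (ε / (4 * (H + 1) * Q))) * (1 + Nn φ m (r + 1) n p) := by ring
        _ ≤ _ := mul_le_mul_of_nonneg_right this hN0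
    have c3 : (ε / (2 * Q)) * (1 + Nn φ m (r + 1) n p)
        = (ε / (4 * Q)) * (1 + Nn φ m (r + 1) n p) + (ε / (4 * Q)) * (1 + Nn φ m (r + 1) n p) := by
      field_simp; ring
    linarith only [b1, b2, c1, c2, c3]
  rw [dist_zero_right, hinvar]
  unfold Tw
  rw [← integral_sub i1 i2]
  have hfin : ‖∫ p, (w (ρ (frame p • (A⁻¹ • I))) * Φ (fun j => cutWave (φ n) (m n) (t j / a) p)
      - w (ρ p.1) * Φ (fun j => cutWave (φ n) (m n) (t j) p)) ∂(frameProb D)‖
      ≤ ∫ p, (ε / (2 * Q)) * (1 + Nn φ m (r + 1) n p) ∂(frameProb D) :=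
    norm_integral_le_of_norm_le (iN.const_mul _) (Eventually.of_forall hpw)
  refine lt_of_le_of_lt hfin ?_
  rw [integral_const_mul]
  calc (ε / (2 * Q)) * ∫ p, (1 + Nn φ m (r + 1) n p) ∂(frameProb D) ≤ (ε / (2 * Q)) * Q :=
        mul_le_mul_of_nonneg_left hEN (by positivity)
    _ = ε / 2 := by field_simp
    _ < ε := half_lt_self hε

end

end Berry


end

section

/-!
Asymptotic translation invariance of the local waves for a conformal metric.
-/

open UpperHalfPlane MeasureTheory ProbabilityTheory MatrixGroups Filter Topology Set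
  InnerProductSpace Laplacian
open scoped ENNReal NNReal

namespace Berry

noncomputable section

/-! ### A partition of unity on the line -/

/-- clamping to `[0, 1]` -/
def clamp (u : ℝ) : ℝ := min 1 (max 0 u)

lemma clamp_continuous : Continuous clamp := by unfold clamp; fun_prop

lemma clamp_mono : Monotone clamp := fun a b h => by
  unfold clamp
  exact min_le_min le_rfl (max_le_max le_rfl h)

lemma clamp_one {u : ℝ} (h : 1 ≤ u) : clamp u = 1 := by
  unfold clamp
  rw [max_eq_right (by linarith), min_eq_left h]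

lemma clamp_zero {u : ℝ} (h : u ≤ 0) : clamp u = 0 := by
  unfold clamp
  rw [max_eq_left h, min_eq_right zero_le_one]

/-- one bump of the partition of unity -/
def bmp (δ u₀ : ℝ) (k : ℕ) (u : ℝ) : ℝ :=
  clamp ((u - (u₀ + k * δ)) / δ) - clamp ((u - (u₀ + (k + 1 : ℕ) * δ)) / δ)

lemma bmp_continuous (δ u₀ : ℝ) (k : ℕ) : Continuous (bmp δ u₀ k) := by
  unfold bmp
  exact (clamp_continuous.comp (by fun_prop)).sub (clamp_continuous.comp (by fun_prop))

lemma bmp_nonneg {δ : ℝ} (hδ : 0 < δ) (u₀ : ℝ) (k : ℕ) (u : ℝ) : 0 ≤ bmp δ u₀ k u := by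
  unfold bmp
  rw [sub_nonneg]
  apply clamp_mono
  apply div_le_div_of_nonneg_right _ hδ.le
  push_cast
  nlinarith

lemma bmp_zero {δ : ℝ} (hδ : 0 < δ) (u₀ : ℝ) (k : ℕ) {u : ℝ}
    (h : δ ≤ |u - (u₀ + (k + 1) * δ)|) : bmp δ u₀ k u = 0 := by
  unfold bmp
  rcases le_abs.1 h with h1 | h1
  · rw [clamp_one, clamp_one, sub_self]
    · rw [le_div_iff₀ hδ]; push_cast; linarith
    · rw [le_div_iff₀ hδ]; linarith only [hδ, h1]
  · rw [clamp_zero, clamp_zero, sub_self]
    · apply div_nonpos_of_nonpos_of_nonneg _ hδ.le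
      push_cast; linarith
    · apply div_nonpos_of_nonpos_of_nonneg _ hδ.le
      nlinarith

lemma bmp_sum {δ : ℝ} (hδ : 0 < δ) {K : ℝ} {M : ℕ} (hM : 2 * K + δ ≤ M * δ) {u : ℝ}
    (hu : |u| ≤ K) : ∑ k ∈ Finset.range M, bmp δ (-K - δ) k u = 1 := by
  obtain ⟨h1, h2⟩ := abs_le.1 hu
  unfold bmp
  have := Finset.sum_range_sub' (fun k : ℕ => clamp ((u - (-K - δ + k * δ)) / δ)) M
  rw [this, clamp_one, clamp_zero, sub_zero]
  · apply div_nonpos_of_nonpos_of_nonneg _ hδ.le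
    linarith
  · rw [le_div_iff₀ hδ]; push_cast; linarith

variable {Γ : Subgroup SL(2, ℝ)} {ρ : ℍ → ℝ} {D : Set ℍ} {φ : ℕ → ℍ → ℝ} {m : ℕ → ℝ} {B : ℝ}

/-- averages of a test function of the local wave -/
def TF (D : Set ℍ) (ρ : ℍ → ℝ) (φ : ℕ → ℍ → ℝ) (m : ℕ → ℝ) (Φ : (Fin 4 → ℝ) → ℝ)
    (n : ℕ) (x : Fin 4 → ℂ) : ℝ :=
  ∫ p, Real.exp (2 * ρ p.1) * Φ (fun j => cutWave (φ n) (m n) (x j / (Real.exp (ρ p.1) : ℂ)) p)
    ∂(frameProb D)

lemma Dat.scaled_meas (h : Dat Γ ρ D φ m B) (n : ℕ) (x : ℂ) :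
    Measurable fun p : ℍ × ℝ => cutWave (φ n) (m n) (x / (Real.exp (ρ p.1) : ℂ)) p := by
  have hρc : Continuous ρ := h.geo.unif.continuous
  have h1 : Measurable (Function.uncurry (cutWave (φ n) (m n))) :=
    (h.single n (frameProb D)).meas_uncurry
  have hc1 : Continuous fun p : ℍ × ℝ => ((Real.exp (ρ p.1) : ℝ) : ℂ) :=
    Complex.continuous_ofReal.comp (Real.continuous_exp.comp (hρc.comp continuous_fst))
  have hc : Continuous fun p : ℍ × ℝ => x / ((Real.exp (ρ p.1) : ℝ) : ℂ) := by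
    refine continuous_const.div hc1 fun p => ?_
    rw [Ne, Complex.ofReal_eq_zero]
    exact (Real.exp_pos _).ne'
  have h2 : Measurable fun p : ℍ × ℝ => (x / ((Real.exp (ρ p.1) : ℝ) : ℂ), p) :=
    hc.measurable.prodMk measurable_id
  have h3 := h1.comp h2
  simpa only [Function.comp_def, Function.uncurry_apply_pair] using h3

lemma Dat.tst_meas' (h : Dat Γ ρ D φ m B) {Φ : (Fin 4 → ℝ) → ℝ} (hΦ : Continuous Φ) (n : ℕ)
    (x : Fin 4 → ℂ) : Measurable fun p : ℍ × ℝ =>
      Φ (fun j => cutWave (φ n) (m n) (x j / (Real.exp (ρ p.1) : ℂ)) p) :=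
  hΦ.measurable.comp (measurable_pi_lambda _ fun j => h.scaled_meas n (x j))

lemma exp_diff {ρ₀ c δ K : ℝ} (hρ : |ρ₀| ≤ K) (hδ1 : δ ≤ 1) (h : |ρ₀ - c| < δ) (x : ℂ) :
    ‖(Real.exp (-c) : ℂ) * x - x / (Real.exp ρ₀ : ℂ)‖ ≤ 2 * Real.exp K * δ * ‖x‖ := by
  have e1 : (Real.exp (-c) : ℂ) * x - x / (Real.exp ρ₀ : ℂ)
      = ((Real.exp (-ρ₀) * (Real.exp (ρ₀ - c) - 1) : ℝ) : ℂ) * x := by
    have h1 : Real.exp (-c) = Real.exp (-ρ₀) * Real.exp (ρ₀ - c) := by
      rw [← Real.exp_add]; congr 1; ring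
    rw [h1, div_eq_mul_inv, ← Complex.ofReal_inv, ← Real.exp_neg]
    push_cast
    ring
  rw [e1, norm_mul, Complex.norm_real, norm_mul, Real.norm_of_nonneg (Real.exp_pos _).le,
    Real.norm_eq_abs]
  have h2 : |Real.exp (ρ₀ - c) - 1| ≤ 2 * |ρ₀ - c| :=
    Real.abs_exp_sub_one_le (by linarith)
  have h3 : Real.exp (-ρ₀) ≤ Real.exp K :=
    Real.exp_le_exp.2 (by have := (abs_le.1 hρ).1; linarith)
  have h4 : Real.exp (-ρ₀) * |Real.exp (ρ₀ - c) - 1| ≤ Real.exp K * (2 * δ) :=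
    mul_le_mul h3 (by linarith) (abs_nonneg _) (Real.exp_pos _).le
  calc Real.exp (-ρ₀) * |Real.exp (ρ₀ - c) - 1| * ‖x‖ ≤ Real.exp K * (2 * δ) * ‖x‖ :=
        mul_le_mul_of_nonneg_right h4 (norm_nonneg _)
    _ = 2 * Real.exp K * δ * ‖x‖ := by ring

/-- approximation by averages at finitely many fixed scales -/
lemma Dat.approx [Countable Γ] (h : Dat Γ ρ D φ m B) {Φ : (Fin 4 → ℝ) → ℝ} {L : ℝ}
    (hΦ : Tst Φ L) (X : ℝ) {ε : ℝ} (hε : 0 < ε) :
    ∃ (M : ℕ) (w : ℕ → ℝ → ℝ) (c : ℕ → ℝ), (∀ k, Continuous (w k)) ∧ ∀ᶠ n in atTop,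
      ∀ x : Fin 4 → ℂ, (∀ j, ‖x j‖ ≤ X) →
        |TF D ρ φ m Φ n x - ∑ k ∈ Finset.range M, Tw D ρ φ m Φ (w k) n (fun j => (c k : ℂ) * x j)|
          ≤ ε := by
  have hP := h.prob
  have hL := hΦ.L_nonneg
  have hρc : Continuous ρ := h.geo.unif.continuous
  obtain ⟨K₀, hK₀⟩ := h.geo.bdd
  set K := K₀ with hKdef
  have hK := hK₀
  have hK0 : 0 ≤ K := (abs_nonneg _).trans (hK I)
  set r := Real.exp (K + 1) * (|X| + 1) + 1 with hr
  have hr0 : 0 < r := by positivity
  set V := (volume : Measure ℂ).real (Metric.ball (0:ℂ) (r + 1)) with hV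
  have hV0 : 0 ≤ V := measureReal_nonneg
  have hB0 := h.B_nonneg
  set Q := 1 + V * B with hQ
  have hQ0 : 0 < Q := by positivity
  obtain ⟨d, hd, hmod⟩ := h.tmod hΦ (η := ε / (Real.exp (2 * K) * Q)) (by positivity)
  set δ := min 1 (d / (2 * Real.exp K * (|X| + 1) + 1)) with hδ
  have hδ0 : 0 < δ := by positivity
  have hδ1 : δ ≤ 1 := min_le_left _ _
  have hδd : 2 * Real.exp K * δ * (|X| + 1) < d := by
    have h1 : δ ≤ d / (2 * Real.exp K * (|X| + 1) + 1) := min_le_right _ _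
    rw [le_div_iff₀ (by positivity)] at h1
    have : 2 * Real.exp K * δ * (|X| + 1) = δ * (2 * Real.exp K * (|X| + 1)) := by ring
    rw [this]
    linarith only [hδ0, h1]
  obtain ⟨M, hM⟩ := exists_nat_ge ((2 * K + δ) / δ)
  rw [div_le_iff₀ hδ0] at hM
  set w : ℕ → ℝ → ℝ := fun k u => bmp δ (-K - δ) k u * Real.exp (2 * u) with hw
  set c : ℕ → ℝ := fun k => Real.exp (-(-K - δ + (k + 1) * δ)) with hc
  have hwc : ∀ k, Continuous (w k) := fun k => (bmp_continuous _ _ _).mul (by fun_prop)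
  refine ⟨M, w, c, hwc, ?_⟩
  filter_upwards [hmod r, h.Nn_mean (r + 1)] with n hn hn2 x hx
  obtain ⟨CN, hCN⟩ := h.tst_bdd hΦ n
  have hCN0 : 0 ≤ CN := (abs_nonneg _).trans (hCN 0 (I, 0))
  have hCN' : ∀ p : ℍ × ℝ,
      |Φ (fun j => cutWave (φ n) (m n) (x j / (Real.exp (ρ p.1) : ℂ)) p)| ≤ CN := fun p =>
    hCN (fun j => x j / (Real.exp (ρ p.1) : ℂ)) p
  have mE : Measurable fun p : ℍ × ℝ => Real.exp (2 * ρ p.1) :=
    (Real.continuous_exp.comp (continuous_const.mul (hρc.comp continuous_fst))).measurable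
  have mw : ∀ k, Measurable fun p : ℍ × ℝ => w k (ρ p.1) := fun k =>
    ((hwc k).comp (hρc.comp continuous_fst)).measurable
  have bw : ∀ k, ∃ H, 0 ≤ H ∧ ∀ z, |w k (ρ z)| ≤ H := fun k => h.geo.weight_bdd (hwc k)
  -- integrability
  have i1 : ∀ k, Integrable (fun p : ℍ × ℝ => w k (ρ p.1)
      * Φ (fun j => cutWave (φ n) (m n) (x j / (Real.exp (ρ p.1) : ℂ)) p)) (frameProb D) := by
    intro k
    obtain ⟨H, hH0, hH⟩ := bw k
    exact integrable_bdd (C := H * CN) ((mw k).mul (h.tst_meas' hΦ.cont n x)) fun p => by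
      rw [abs_mul]; exact mul_le_mul (hH _) (hCN' p) (abs_nonneg _) hH0
  have i2 : ∀ k, Integrable (fun p : ℍ × ℝ => w k (ρ p.1)
      * Φ (fun j => cutWave (φ n) (m n) ((c k : ℂ) * x j) p)) (frameProb D) := by
    intro k
    obtain ⟨H, hH0, hH⟩ := bw k
    exact integrable_bdd (C := H * CN) ((mw k).mul (h.tst_meas hΦ.cont n _)) fun p => by
      rw [abs_mul]; exact mul_le_mul (hH _) (hCN _ p) (abs_nonneg _) hH0
  have hsumE : ∀ p : ℍ × ℝ, ∑ k ∈ Finset.range M, w k (ρ p.1) = Real.exp (2 * ρ p.1) := by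
    intro p
    simp only [hw]
    rw [← Finset.sum_mul, bmp_sum hδ0 hM (hK p.1), one_mul]
  have e1 : TF D ρ φ m Φ n x = ∑ k ∈ Finset.range M, ∫ p : ℍ × ℝ, w k (ρ p.1)
      * Φ (fun j => cutWave (φ n) (m n) (x j / (Real.exp (ρ p.1) : ℂ)) p) ∂(frameProb D) := by
    rw [← integral_finsetSum _ fun k _ => i1 k]
    unfold TF
    congr 1; funext p
    rw [← Finset.sum_mul, hsumE]
  have e2 : TF D ρ φ m Φ n x - ∑ k ∈ Finset.range M, Tw D ρ φ m Φ (w k) n (fun j => (c k : ℂ) * x j)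
      = ∫ p : ℍ × ℝ, ∑ k ∈ Finset.range M, (w k (ρ p.1)
        * Φ (fun j => cutWave (φ n) (m n) (x j / (Real.exp (ρ p.1) : ℂ)) p)
        - w k (ρ p.1) * Φ (fun j => cutWave (φ n) (m n) ((c k : ℂ) * x j) p)) ∂(frameProb D) := by
    have i3 : ∀ k, Integrable (fun p : ℍ × ℝ => w k (ρ p.1)
        * Φ (fun j => cutWave (φ n) (m n) (x j / (Real.exp (ρ p.1) : ℂ)) p)
        - w k (ρ p.1) * Φ (fun j => cutWave (φ n) (m n) ((c k : ℂ) * x j) p)) (frameProb D) :=
      fun k => (i1 k).sub (i2 k)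
    rw [e1, ← Finset.sum_sub_distrib, integral_finsetSum _ fun k _ => i3 k]
    refine Finset.sum_congr rfl fun k _ => ?_
    rw [integral_sub (i1 k) (i2 k)]
    rfl
  rw [e2, ← Real.norm_eq_abs]
  have iN : Integrable (fun p => 1 + Nn φ m (r + 1) n p) (frameProb D) :=
    (integrable_const _).add (h.Nn_int (r + 1) n)
  have hEN : ∫ p, (1 + Nn φ m (r + 1) n p) ∂(frameProb D) ≤ Q := by
    rw [integral_add (integrable_const _) (h.Nn_int (r + 1) n)]
    simp only [integral_const, probReal_univ, smul_eq_mul, one_mul]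
    rw [hQ]; linarith
  have hpw : ∀ p : ℍ × ℝ, ‖∑ k ∈ Finset.range M, (w k (ρ p.1)
        * Φ (fun j => cutWave (φ n) (m n) (x j / (Real.exp (ρ p.1) : ℂ)) p)
        - w k (ρ p.1) * Φ (fun j => cutWave (φ n) (m n) ((c k : ℂ) * x j) p))‖
      ≤ (ε / Q) * (1 + Nn φ m (r + 1) n p) := by
    intro p
    set N1 := 1 + Nn φ m (r + 1) n p with hN1
    have hN0 : 0 ≤ N1 := by
      have := Nn_nonneg (φ := φ) (m := m) (r + 1) n p; linarith
    have hterm : ∀ k ∈ Finset.range M, ‖w k (ρ p.1)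
        * Φ (fun j => cutWave (φ n) (m n) (x j / (Real.exp (ρ p.1) : ℂ)) p)
        - w k (ρ p.1) * Φ (fun j => cutWave (φ n) (m n) ((c k : ℂ) * x j) p)‖
        ≤ w k (ρ p.1) * ((ε / (Real.exp (2 * K) * Q)) * N1) := by
      intro k _
      have hwk : 0 ≤ w k (ρ p.1) := mul_nonneg (bmp_nonneg hδ0 _ _ _) (Real.exp_pos _).le
      rw [← mul_sub, norm_mul, Real.norm_of_nonneg hwk, Real.norm_eq_abs]
      by_cases hz : |ρ p.1 - (-K - δ + (k + 1) * δ)| < δ
      · refine mul_le_mul_of_nonneg_left ?_ hwk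
        have hxj : ∀ j, ‖x j‖ ≤ |X| := fun j => (hx j).trans (le_abs_self X)
        have q1 : ∀ j, ‖x j / (Real.exp (ρ p.1) : ℂ)‖ < r := by
          intro j
          rw [norm_div, Complex.norm_real, Real.norm_of_nonneg (Real.exp_pos _).le,
            div_eq_mul_inv, ← Real.exp_neg]
          have a1 : Real.exp (-ρ p.1) ≤ Real.exp (K + 1) :=
            Real.exp_le_exp.2 (by have := (abs_le.1 (hK p.1)).1; linarith)
          have a2 : ‖x j‖ * Real.exp (-ρ p.1) ≤ (|X| + 1) * Real.exp (K + 1) :=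
            mul_le_mul (by have := hxj j; linarith) a1 (Real.exp_pos _).le (by positivity)
          rw [hr]; linarith
        have q2 : ∀ j, ‖(c k : ℂ) * x j - x j / (Real.exp (ρ p.1) : ℂ)‖ < d := by
          intro j
          refine lt_of_le_of_lt (exp_diff (hK p.1) hδ1 hz (x j)) (lt_of_le_of_lt ?_ hδd)
          exact mul_le_mul_of_nonneg_left (by have := hxj j; linarith) (by positivity)
        have q3 : ∀ j, ‖(c k : ℂ) * x j‖ < r := by
          intro j
          rw [norm_mul, Complex.norm_real, hc, Real.norm_of_nonneg (Real.exp_pos _).le]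
          have a1 : Real.exp (-(-K - δ + (k + 1) * δ)) ≤ Real.exp (K + 1) := by
            apply Real.exp_le_exp.2
            have b1 := (abs_lt.1 hz).2
            have b2 := (abs_le.1 (hK p.1)).1
            linarith
          have a2 : Real.exp (-(-K - δ + (k + 1) * δ)) * ‖x j‖ ≤ Real.exp (K + 1) * (|X| + 1) :=
            mul_le_mul a1 (by have := hxj j; linarith) (norm_nonneg _) (Real.exp_pos _).le
          rw [hr]; linarith
        exact hn p (fun j => x j / (Real.exp (ρ p.1) : ℂ)) (fun j => (c k : ℂ) * x j) q1 q3 q2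
      · have hzero : w k (ρ p.1) = 0 := by
          simp only [hw]
          rw [bmp_zero hδ0 _ _ (not_lt.1 hz), zero_mul]
        rw [hzero, zero_mul, zero_mul]
    refine (norm_sum_le_of_le _ hterm).trans ?_
    rw [← Finset.sum_mul, hsumE]
    have a1 : Real.exp (2 * ρ p.1) ≤ Real.exp (2 * K) :=
      Real.exp_le_exp.2 (by have := (le_abs_self _).trans (hK p.1); linarith)
    calc Real.exp (2 * ρ p.1) * ((ε / (Real.exp (2 * K) * Q)) * N1)
        ≤ Real.exp (2 * K) * ((ε / (Real.exp (2 * K) * Q)) * N1) :=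
          mul_le_mul_of_nonneg_right a1 (by (clear * - hε hB0 hN0; positivity))
      _ = (ε / Q) * N1 := by field_simp
  refine (norm_integral_le_of_norm_le (iN.const_mul _) (Eventually.of_forall hpw)).trans ?_
  rw [integral_const_mul]
  calc (ε / Q) * ∫ p, (1 + Nn φ m (r + 1) n p) ∂(frameProb D) ≤ (ε / Q) * Q :=
        mul_le_mul_of_nonneg_left hEN (by positivity)
    _ = ε := by field_simp

/-- **asymptotic translation invariance** -/
theorem Dat.shift [Countable Γ] (h : Dat Γ ρ D φ m B) {Φ : (Fin 4 → ℝ) → ℝ} {L : ℝ}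
    (hΦ : Tst Φ L) (x : Fin 4 → ℂ) (s : ℂ) :
    Tendsto (fun n => TF D ρ φ m Φ n (fun j => x j + s) - TF D ρ φ m Φ n x) atTop (𝓝 0) := by
  rw [Metric.tendsto_nhds]
  intro ε hε
  set X := ‖x 0‖ + ‖x 1‖ + ‖x 2‖ + ‖x 3‖ + ‖s‖ with hX
  have hs0 := norm_nonneg s
  have hxj : ∀ j, ‖x j‖ + ‖s‖ ≤ X := by
    intro j
    have h0 := norm_nonneg (x 0)
    have h1 := norm_nonneg (x 1)
    have h2 := norm_nonneg (x 2)
    have h3 := norm_nonneg (x 3)
    fin_cases j <;> simp only [Fin.zero_eta, Fin.mk_one, Fin.reduceFinMk] <;> linarith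
  obtain ⟨M, w, c, hwc, hap⟩ := h.approx hΦ X (ε := ε / 4) (by positivity)
  have hsum : Tendsto (fun n => ∑ k ∈ Finset.range M,
      (Tw D ρ φ m Φ (w k) n (fun j => (c k : ℂ) * (x j + s))
        - Tw D ρ φ m Φ (w k) n (fun j => (c k : ℂ) * x j))) atTop (𝓝 0) := by
    have : Tendsto (fun n => ∑ k ∈ Finset.range M,
      (Tw D ρ φ m Φ (w k) n (fun j => (c k : ℂ) * (x j + s))
        - Tw D ρ φ m Φ (w k) n (fun j => (c k : ℂ) * x j))) atTop
        (𝓝 (∑ k ∈ Finset.range M, (0:ℝ))) := by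
      refine tendsto_finsetSum _ fun k _ => ?_
      have h1 := h.tw_shift hΦ (hwc k) (fun j => (c k : ℂ) * x j) ((c k : ℂ) * s)
      refine h1.congr fun n => ?_
      congr 2
      funext j; ring
    simpa using this
  filter_upwards [hap, Metric.tendsto_nhds.1 hsum (ε / 4) (by positivity)] with n hn hn2
  have a1 := hn (fun j => x j + s) (fun j => (norm_add_le _ _).trans (hxj j))
  have a2 := hn x (fun j => by have := hxj j; linarith)
  rw [dist_zero_right, Real.norm_eq_abs] at hn2 ⊢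
  rw [Finset.sum_sub_distrib] at hn2
  rw [abs_lt] at hn2 ⊢
  rw [abs_le] at a1 a2
  constructor <;> (first | linarith only [hn2, a1, a2] | linarith [a1.1, a1.2, a2.1, a2.2, hn2.1, hn2.2])

end

end Berry


end
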