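import Mathlib
import Pool.Agent.BWM.Defs

/-! Parts: Lib_helper67.QE.Symbols -/

section

/-!
From quantum ergodicity on a surface to the hypotheses `QE.LocalQE` on the half plane.
-/

open Complex MeasureTheory Filter Topology
open UpperHalfPlane hiding I
open scoped ContDiff

namespace QE

noncomputable section

theorem hD_congr_on {U : Set ℂ} (hU : IsOpen U) (h : ℝ) (v : ℂ) {f g : ℂ → ℂ}
    (e : ∀ z ∈ U, f z = g z) : ∀ z ∈ U, hD h v f z = hD h v g z := by
  intro z hz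
  have : f =ᶠ[𝓝 z] g := Filter.eventuallyEq_of_mem (hU.mem_nhds hz) e
  unfold hD; rw [this.fderiv_eq]

theorem contDiffOn_hD {U : Set ℂ} (hU : IsOpen U) (h : ℝ) (v : ℂ) {f : ℂ → ℂ}
    (hf : ContDiffOn ℝ ∞ f U) : ContDiffOn ℝ ∞ (hD h v f) U := by
  have h1 : ContDiffOn ℝ ∞ (fderiv ℝ f) U := hf.fderiv_of_isOpen hU (by simp)
  unfold hD
  exact contDiffOn_const.mul (h1.clm_apply contDiffOn_const)

theorem contDiffOn_hD_iterate {U : Set ℂ} (hU : IsOpen U) (h : ℝ) (v : ℂ) {f : ℂ → ℂ}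
    (hf : ContDiffOn ℝ ∞ f U) (k : ℕ) : ContDiffOn ℝ ∞ ((hD h v)^[k] f) U := by
  induction k with
  | zero => simpa using hf
  | succ k ih => rw [Function.iterate_succ_apply']; exact contDiffOn_hD hU h v ih

theorem hD_iterate_congr_on {U : Set ℂ} (hU : IsOpen U) (h : ℝ) (v : ℂ) {f g : ℂ → ℂ}
    (e : ∀ z ∈ U, f z = g z) (k : ℕ) : ∀ z ∈ U, (hD h v)^[k] f z = (hD h v)^[k] g z := by
  induction k with
  | zero => simpa using e
  | succ k ih =>
    rw [Function.iterate_succ_apply', Function.iterate_succ_apply']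
    exact hD_congr_on hU h v ih

/-- the semiclassical derivatives in two directions commute -/
theorem hD_comm {U : Set ℂ} (hU : IsOpen U) (h : ℝ) (v w : ℂ) {f : ℂ → ℂ}
    (hf : ContDiffOn ℝ ∞ f U) : ∀ z ∈ U, hD h v (hD h w f) z = hD h w (hD h v f) z := by
  intro z hz
  have hf2 : ContDiffAt ℝ 2 f z := (hf.contDiffAt (hU.mem_nhds hz)).of_le (by
    norm_cast)
  have hd : ContDiffAt ℝ 1 (fderiv ℝ f) z := hf2.fderiv_right (m := 1) (by norm_num)
  have hd' : DifferentiableAt ℝ (fderiv ℝ f) z := hd.differentiableAt (by norm_num)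
  have hsym : ∀ v w : ℂ, fderiv ℝ (fderiv ℝ f) z v w = fderiv ℝ (fderiv ℝ f) z w v :=
    fun v w => (hf2.isSymmSndFDerivAt (by simp)).eq v w
  have key : ∀ v w : ℂ, fderiv ℝ (hD h v f) z w
      = - (Complex.I * h) * fderiv ℝ (fderiv ℝ f) z w v := by
    intro v w
    have e : hD h v f = fun x => (- (Complex.I * h)) * fderiv ℝ f x v := rfl
    rw [e, fderiv_const_mul (hd'.clm_apply (differentiableAt_const v))]
    simp only [smul_apply, smul_eq_mul]
    rw [fderiv_clm_apply hd' (differentiableAt_const v)]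
    simp
  have e1 : hD h v (hD h w f) z = - (Complex.I * h) * fderiv ℝ (hD h w f) z v := rfl
  have e2 : hD h w (hD h v f) z = - (Complex.I * h) * fderiv ℝ (hD h v f) z w := rfl
  rw [e1, e2, key, key, hsym]

theorem hD_comm_iterate {U : Set ℂ} (hU : IsOpen U) (h : ℝ) (v w : ℂ) {f : ℂ → ℂ}
    (hf : ContDiffOn ℝ ∞ f U) (k : ℕ) :
    ∀ z ∈ U, hD h v ((hD h w)^[k] f) z = (hD h w)^[k] (hD h v f) z := by
  induction k with
  | zero => simp
  | succ k ih =>
    intro z hz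
    rw [Function.iterate_succ_apply', Function.iterate_succ_apply',
      hD_comm hU h v w (contDiffOn_hD_iterate hU h w hf k) z hz]
    exact hD_congr_on hU h w ih z hz

/-- `h ∂_z = (1/2) (i h D_x + h D_y)` -/
theorem h_mul_dz (h : ℝ) (f : ℂ → ℂ) (z : ℂ) :
    (h : ℂ) * dz f z = (1 / 2) * (I * hD h 1 f z + hD h I f z) := by
  unfold dz hD
  linear_combination ((1 / 2) * h * fderiv ℝ f z 1) * (I_mul_I)

/-- the monomials `(h D_x)^j (h D_y)^k` -/
def mono (h : ℝ) (f : ℂ → ℂ) (j k : ℕ) : ℂ → ℂ := (hD h 1)^[j] ((hD h I)^[k] f)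

theorem contDiffOn_mono {U : Set ℂ} (hU : IsOpen U) (h : ℝ) {f : ℂ → ℂ}
    (hf : ContDiffOn ℝ ∞ f U) (j k : ℕ) : ContDiffOn ℝ ∞ (mono h f j k) U :=
  contDiffOn_hD_iterate hU h 1 (contDiffOn_hD_iterate hU h I hf k) j

theorem hD_one_mono (h : ℝ) (f : ℂ → ℂ) (j k : ℕ) : hD h 1 (mono h f j k) = mono h f (j + 1) k := by
  unfold mono; rw [Function.iterate_succ_apply']

theorem hD_I_mono {U : Set ℂ} (hU : IsOpen U) (h : ℝ) {f : ℂ → ℂ}
    (hf : ContDiffOn ℝ ∞ f U) (j k : ℕ) : ∀ z ∈ U, hD h I (mono h f j k) z = mono h f j (k + 1) z := by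
  intro z hz
  have := hD_comm_iterate hU h I 1 (contDiffOn_hD_iterate hU h I hf k) j z hz
  unfold mono
  rw [this, ← Function.iterate_succ_apply' (hD h I)]

theorem hD_sum {ι : Type*} {U : Set ℂ} (hU : IsOpen U) (h : ℝ) (v : ℂ) (s : Finset ι) (c : ι → ℂ)
    (F : ι → ℂ → ℂ) (hF : ∀ i ∈ s, ContDiffOn ℝ ∞ (F i) U) :
    ∀ z ∈ U, hD h v (fun w => ∑ i ∈ s, c i * F i w) z = ∑ i ∈ s, c i * hD h v (F i) z := by
  intro z hz
  have hd : ∀ i ∈ s, DifferentiableAt ℝ (F i) z := fun i hi =>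
    ((hF i hi).contDiffAt (hU.mem_nhds hz)).differentiableAt (by simp)
  unfold hD
  rw [fderiv_fun_sum fun i hi => (hd i hi).const_mul (c i)]
  simp only [sum_apply]
  rw [Finset.mul_sum]
  refine Finset.sum_congr rfl fun i hi => ?_
  rw [fderiv_const_mul (hd i hi)]
  simp only [smul_apply, smul_eq_mul]
  ring

/-- the binomial expansion of `(h ∂_z)^k` -/
theorem dz_iterate_eq {U : Set ℂ} (hU : IsOpen U) (h : ℝ) {f : ℂ → ℂ}
    (hf : ContDiffOn ℝ ∞ f U) (k : ℕ) : ContDiffOn ℝ ∞ (dz^[k] f) U ∧ ∀ z ∈ U,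
      (h : ℂ) ^ k * dz^[k] f z = ∑ m ∈ Finset.HasAntidiagonal.antidiagonal k,
        ((1 / 2) ^ k * (k.choose m.1 * I ^ m.1)) * mono h f m.1 m.2 z := by
  induction k with
  | zero => exact ⟨by simpa using hf, fun z _ => by simp [mono]⟩
  | succ k ih =>
    obtain ⟨hs, ih⟩ := ih
    refine ⟨by rw [Function.iterate_succ_apply']; exact contDiffOn_dz hU hs, fun z hz => ?_⟩
    have hdiff : DifferentiableAt ℝ (dz^[k] f) z :=
      (hs.contDiffAt (hU.mem_nhds hz)).differentiableAt (by simp)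
    have e1 : (h : ℂ) ^ (k + 1) * dz^[k + 1] f z
        = (h : ℂ) * dz (fun w => (h : ℂ) ^ k * dz^[k] f w) z := by
      rw [Function.iterate_succ_apply', dz_const_mul _ hdiff]; ring
    rw [e1, dz_congr_on hU ih hz, h_mul_dz,
      hD_sum hU h 1 _ _ _ (fun m _ => contDiffOn_mono hU h hf m.1 m.2) z hz,
      hD_sum hU h I _ _ _ (fun m _ => contDiffOn_mono hU h hf m.1 m.2) z hz]
    have e2 := Finset.sum_antidiagonal_choose_succ_mul
      (fun a b => (I ^ a * mono h f a b z : ℂ)) k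
    have e3 : ∑ m ∈ Finset.HasAntidiagonal.antidiagonal (k + 1),
        ((1 / 2) ^ (k + 1) * (((k + 1).choose m.1 : ℕ) * I ^ m.1)) * mono h f m.1 m.2 z
        = (1 / 2) ^ (k + 1) * ∑ m ∈ Finset.HasAntidiagonal.antidiagonal (k + 1),
          (((k + 1).choose m.1 : ℕ) : ℂ) * (I ^ m.1 * mono h f m.1 m.2 z) := by
      rw [Finset.mul_sum]; exact Finset.sum_congr rfl fun m _ => by ring
    rw [e3, e2, ← Finset.sum_add_distrib, Finset.mul_sum, Finset.mul_sum, ← Finset.sum_add_distrib,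
      Finset.mul_sum]
    refine Finset.sum_congr rfl fun m hm => ?_
    have hm' : m.1 + m.2 = k := Finset.HasAntidiagonal.mem_antidiagonal.mp hm
    have hch : k.choose m.2 = k.choose m.1 := by
      rw [← hm', Nat.choose_symm_add]
    rw [hD_one_mono, hD_I_mono hU h hf m.1 m.2 z hz, hch]
    ring

/-- the average of `cos^j sin^k` -/
def cAvg (j k : ℕ) : ℝ :=
  1 / (2 * Real.pi) * ∫ θ in (0 : ℝ)..(2 * Real.pi), Real.cos θ ^ j * Real.sin θ ^ k

theorem cAvg_zero : cAvg 0 0 = 1 := by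
  unfold cAvg
  simp
  field_simp

theorem symbol_eq (r : ℝ) (j k : ℕ) :
    1 / (2 * Real.pi) * ∫ θ in (0 : ℝ)..(2 * Real.pi), (r * Real.cos θ) ^ j * (r * Real.sin θ) ^ k
      = r ^ (j + k) * cAvg j k := by
  unfold cAvg
  have : ∀ θ : ℝ, (r * Real.cos θ) ^ j * (r * Real.sin θ) ^ k
      = r ^ (j + k) * (Real.cos θ ^ j * Real.sin θ ^ k) := fun θ => by
    rw [mul_pow, mul_pow, pow_add]; ring
  simp only [this]
  rw [intervalIntegral.integral_const_mul]
  ring

/-- the average of `(i cos + sin)^k` vanishes for `k ≥ 1` -/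
theorem sum_cAvg (k : ℕ) (hk : 1 ≤ k) :
    ∑ m ∈ Finset.HasAntidiagonal.antidiagonal k, ((k.choose m.1 : ℂ) * I ^ m.1) * (cAvg m.1 m.2 : ℂ) = 0 := by
  have h1 : ∀ m ∈ Finset.HasAntidiagonal.antidiagonal k, ((k.choose m.1 : ℂ) * I ^ m.1) * (cAvg m.1 m.2 : ℂ)
      = (1 / (2 * Real.pi) : ℂ) * ∫ θ in (0 : ℝ)..(2 * Real.pi),
        (k.choose m.1 : ℂ) * ((I * Real.cos θ) ^ m.1 * (Real.sin θ : ℂ) ^ m.2) := by
    intro m _
    have e0 : (cAvg m.1 m.2 : ℂ) = (1 / (2 * Real.pi) : ℂ) * ∫ θ in (0 : ℝ)..(2 * Real.pi),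
        ((Real.cos θ ^ m.1 * Real.sin θ ^ m.2 : ℝ) : ℂ) := by
      unfold cAvg
      rw [intervalIntegral.integral_ofReal]
      push_cast
      rfl
    have : ∀ θ : ℝ, (k.choose m.1 : ℂ) * ((I * Real.cos θ) ^ m.1 * (Real.sin θ : ℂ) ^ m.2)
        = ((k.choose m.1 : ℂ) * I ^ m.1) * ((Real.cos θ ^ m.1 * Real.sin θ ^ m.2 : ℝ) : ℂ) := by
      intro θ; rw [Complex.ofReal_mul, Complex.ofReal_pow, Complex.ofReal_pow, mul_pow]; ring
    rw [e0]
    simp only [this]
    rw [intervalIntegral.integral_const_mul]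
    ring
  rw [Finset.sum_congr rfl h1, ← Finset.mul_sum, ← intervalIntegral.integral_finsetSum]
  · have h2 : ∀ θ : ℝ, ∑ m ∈ Finset.HasAntidiagonal.antidiagonal k,
        (k.choose m.1 : ℂ) * ((I * Real.cos θ) ^ m.1 * (Real.sin θ : ℂ) ^ m.2)
        = I ^ k * Complex.exp ((-(k : ℂ) * I) * θ) := by
      intro θ
      have h3 : (I * Real.cos θ + Real.sin θ : ℂ) ^ k
          = ∑ m ∈ Finset.HasAntidiagonal.antidiagonal k,
            (k.choose m.1 : ℂ) * ((I * Real.cos θ) ^ m.1 * (Real.sin θ : ℂ) ^ m.2) := by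
        rw [add_pow]
        rw [Finset.Nat.sum_antidiagonal_eq_sum_range_succ_mk]
        refine Finset.sum_congr rfl fun i _ => ?_
        ring
      rw [← h3]
      have h4 : (I * Real.cos θ + Real.sin θ : ℂ) = I * Complex.exp (-(θ : ℂ) * I) := by
        rw [Complex.exp_mul_I, Complex.cos_neg, Complex.sin_neg]
        push_cast
        linear_combination (Complex.sin θ) * (I_mul_I)
      rw [h4, mul_pow, ← Complex.exp_nat_mul]
      congr 2
      ring
    simp only [h2]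
    rw [intervalIntegral.integral_const_mul, integral_exp_mul_complex (by
      simp [Complex.ext_iff]; omega)]
    have h5 : Complex.exp (-(k : ℂ) * I * ((2 * Real.pi : ℝ) : ℂ)) = 1 := by
      rw [Complex.exp_eq_one_iff]
      exact ⟨-(k : ℤ), by push_cast; ring⟩
    rw [h5]
    simp
  · intro m _
    apply Continuous.intervalIntegrable
    fun_prop

/-- `4 ∂_z ∂_z̄` is the Laplacian -/
theorem four_dz_dzb {f : ℂ → ℝ} {z : ℂ} (hf : ContDiffAt ℝ 2 f z) :
    4 * dz (dzb (fun w => (f w : ℂ))) z = ((Laplacian.laplacian f z : ℝ) : ℂ) := by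
  set F : ℂ → ℂ := fun w => (f w : ℂ) with hF
  have hFf : F = (ofRealCLM : ℝ →L[ℝ] ℂ) ∘ f := by funext w; simp [hF]
  have hF2 : ContDiffAt ℝ 2 F z := by rw [hFf]; exact ofRealCLM.contDiff.contDiffAt.comp z hf
  have hlap : ((Laplacian.laplacian f z : ℝ) : ℂ) = Laplacian.laplacian F z := by
    rw [hFf, hf.laplacian_CLM_comp_left]; simp
  rw [hlap, InnerProductSpace.laplacian_eq_iteratedFDeriv_complexPlane]
  simp only [iteratedFDeriv_two_apply]
  have hd : ContDiffAt ℝ 1 (fderiv ℝ F) z := hF2.fderiv_right (m := 1) (by norm_num)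
  have hd' : DifferentiableAt ℝ (fderiv ℝ F) z := hd.differentiableAt (by norm_num)
  have hsym : ∀ v w : ℂ, fderiv ℝ (fderiv ℝ F) z v w = fderiv ℝ (fderiv ℝ F) z w v :=
    fun v w => (hF2.isSymmSndFDerivAt (by simp)).eq v w
  have key : ∀ v w : ℂ, fderiv ℝ (fun x => fderiv ℝ F x v) z w = fderiv ℝ (fderiv ℝ F) z w v := by
    intro v w
    rw [fderiv_clm_apply hd' (differentiableAt_const v)]
    simp
  have hv : ∀ v : ℂ, DifferentiableAt ℝ (fun x => fderiv ℝ F x v) z := fun v =>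
    hd'.clm_apply (differentiableAt_const v)
  have e1 : ∀ w, fderiv ℝ (dzb F) z w
      = (1 / 2) * (fderiv ℝ (fderiv ℝ F) z w 1 + I * fderiv ℝ (fderiv ℝ F) z w I) := by
    intro w
    have : fderiv ℝ (dzb F) z = (1 / 2 : ℂ) • (fderiv ℝ (fun x => fderiv ℝ F x 1) z
        + I • fderiv ℝ (fun x => fderiv ℝ F x I) z) := by
      have hs : DifferentiableAt ℝ (fun x => fderiv ℝ F x 1 + I * fderiv ℝ F x I) z :=
        (hv 1).add ((hv I).const_mul I)
      have e : dzb F = fun x => (1 / 2 : ℂ) * (fderiv ℝ F x 1 + I * fderiv ℝ F x I) := rfl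
      rw [e, fderiv_const_mul hs,
        fderiv_fun_add (hv 1) ((hv I).const_mul I), fderiv_const_mul (hv I)]
    rw [this]
    simp only [smul_apply, add_apply, smul_eq_mul, key]
  have u1 : dz (dzb F) z = (1 / 2) * (fderiv ℝ (dzb F) z 1 - I * fderiv ℝ (dzb F) z I) := rfl
  rw [u1, e1, e1, hsym 1 I]
  simp only [Matrix.cons_val_zero, Matrix.cons_val_one]
  linear_combination (-(fderiv ℝ (fderiv ℝ F) z I I)) * I_mul_I

/-- **From quantum ergodicity on a surface to the local hypotheses.** -/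
theorem localQE_of_surface {Γ : Subgroup (Matrix.SpecialLinearGroup (Fin 2) ℝ)} {ρ : ℍ → ℝ}
    (_hρ : ContDiffOn ℝ ∞ (fun w : ℂ => ρ (ofComplex w)) {w | 0 < w.im})
    {φ : ℕ → ℍ → ℝ} {m : ℕ → ℝ} (hφ : Berry.REigenSeq Γ ρ φ m)
    (hs : ∀ n, ContDiffOn ℝ ∞ (fun w : ℂ => φ n (ofComplex w)) {w | 0 < w.im})
    (hq : QuantumErgodic ρ φ m) :
    ∃ N, LocalQE {z | 0 < z.im} (fun z => Real.exp (2 * ρ (ofComplex z)) / z.im ^ 2)
      (fun n => 1 / m (n + N)) (fun n z => (φ (n + N) (ofComplex z) : ℂ)) := by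
  obtain ⟨N, hN⟩ := (hφ.tendsto.eventually_ge_atTop 1).exists_forall_of_atTop
  have hU : IsOpen {z : ℂ | 0 < z.im} := isOpen_lt continuous_const continuous_im
  have hsm : ∀ n, ContDiffOn ℝ ∞ (fun w : ℂ => (φ n (ofComplex w) : ℂ)) {w | 0 < w.im} := fun n =>
    ofRealCLM.contDiff.comp_contDiffOn (hs n)
  have hm1 : ∀ n, 1 ≤ m (n + N) := fun n => hN _ (Nat.le_add_left _ _)
  have hshift : Tendsto (fun n : ℕ => n + N) atTop atTop := tendsto_add_atTop_nat N
  refine ⟨N, ?_, ?_, fun n => hsm _, ?_, ?_, ?_, ?_⟩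
  · intro n
    have := hm1 n
    positivity
  · have h1 : Tendsto (fun n => m (n + N)) atTop atTop := hφ.tendsto.comp hshift
    simpa [one_div, Function.comp_def] using tendsto_inv_atTop_zero.comp h1
  · intro n z _
    exact conj_ofReal _
  · intro n z hz
    have hz' : 0 < z.im := hz
    have hm := hm1 n
    have hm0 : m (n + N) ≠ 0 := by linarith
    have hcd : ContDiffAt ℝ 2 (fun w : ℂ => φ (n + N) (ofComplex w)) z :=
      (hφ.smooth _).contDiffAt (hU.mem_nhds hz)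
    have h4 := four_dz_dzb hcd
    have he := hφ.eigen (n + N) ⟨z, hz'⟩
    have hoc : ofComplex z = ⟨z, hz'⟩ := ofComplex_apply_of_im_pos hz'
    have hre : (z.im : ℝ) ^ 2 * (Laplacian.laplacian (fun w : ℂ => φ (n + N) (ofComplex w)) z)
        = - (m (n + N) ^ 2 * Real.exp (2 * ρ (ofComplex z)) * φ (n + N) (ofComplex z)) := by
      rw [hoc]; exact he
    have hrc : ((z.im : ℝ) : ℂ) ^ 2 * ((Laplacian.laplacian (fun w : ℂ =>
        φ (n + N) (ofComplex w)) z : ℝ) : ℂ) = - ((m (n + N) : ℂ) ^ 2 *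
          (Real.exp (2 * ρ (ofComplex z)) : ℂ) * (φ (n + N) (ofComplex z) : ℂ)) := by
      exact_mod_cast congrArg (fun x : ℝ => (x : ℂ)) hre
    rw [← h4] at hrc
    have him : ((z.im : ℝ) : ℂ) ≠ 0 := by exact_mod_cast hz'.ne'
    have hmc : (m (n + N) : ℂ) ≠ 0 := by exact_mod_cast hm0
    push_cast
    push_cast at hrc
    field_simp
    linear_combination hrc
  · intro ζ hζ
    have h0 := (hq 0 0 ζ hζ.smooth hζ.supp hζ.sub).comp hshift
    have e1 : ∀ z : ℂ, ζ z * ((1 / (2 * Real.pi) * ∫ θ in (0 : ℝ)..(2 * Real.pi),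
        (Real.exp (ρ (ofComplex z)) / z.im * Real.cos θ) ^ 0
          * (Real.exp (ρ (ofComplex z)) / z.im * Real.sin θ) ^ 0 : ℝ) : ℂ) = ζ z := by
      intro z
      rw [symbol_eq, cAvg_zero]; simp
    simp only [e1] at h0
    exact h0
  · intro k hk ζ hζ
    have hlim := fun j l => (hq j l ζ hζ.smooth hζ.supp hζ.sub).comp hshift
    have e1 : ∀ n, ∫ z, ζ z * ((φ (n + N) (ofComplex z) : ℂ) * (((1 / m (n + N) : ℝ) : ℂ) ^ k
          * dz^[k] (fun w : ℂ => (φ (n + N) (ofComplex w) : ℂ)) z))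
        = ∑ a ∈ Finset.HasAntidiagonal.antidiagonal k, ((1 / 2) ^ k * (k.choose a.1 * I ^ a.1)) *
          ∫ z, ζ z * (mono (1 / m (n + N)) (fun w : ℂ => (φ (n + N) (ofComplex w) : ℂ)) a.1 a.2 z
            * (φ (n + N) (ofComplex z) : ℂ)) := by
      intro n
      have hint : ∀ a : ℕ × ℕ, Integrable (fun z => ζ z * (mono (1 / m (n + N))
          (fun w : ℂ => (φ (n + N) (ofComplex w) : ℂ)) a.1 a.2 z
            * (φ (n + N) (ofComplex z) : ℂ))) := fun a =>
        hζ.integrable_mul hU ((contDiffOn_mono hU _ (hsm _) a.1 a.2).continuousOn.mul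
          (hsm _).continuousOn)
      simp_rw [← integral_const_mul]
      rw [← integral_finsetSum _ fun a _ => (hint a).const_mul _]
      refine integral_congr_ae (Filter.Eventually.of_forall fun z => ?_)
      simp only
      by_cases hz : z ∈ {z : ℂ | 0 < z.im}
      · rw [(dz_iterate_eq hU (1 / m (n + N)) (hsm (n + N)) k).2 z hz, Finset.mul_sum,
          Finset.mul_sum]
        refine Finset.sum_congr rfl fun a _ => ?_
        ring
      · have hz' : z ∉ tsupport ζ := fun hh => hz (hζ.sub hh)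
        rw [image_eq_zero_of_notMem_tsupport hz']
        simp
    simp only [e1]
    have e2 : ∀ j l : ℕ, ∫ z : ℂ, ζ z * ((1 / (2 * Real.pi) * ∫ θ in (0 : ℝ)..(2 * Real.pi),
        (Real.exp (ρ (ofComplex z)) / z.im * Real.cos θ) ^ j
          * (Real.exp (ρ (ofComplex z)) / z.im * Real.sin θ) ^ l : ℝ) : ℂ)
        = (cAvg j l : ℂ) * ∫ z : ℂ, ζ z * (((Real.exp (ρ (ofComplex z)) / z.im) ^ (j + l) : ℝ) : ℂ) := by
      intro j l
      rw [← integral_const_mul]
      refine integral_congr_ae (Filter.Eventually.of_forall fun z => ?_)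
      simp only
      rw [symbol_eq]
      push_cast
      ring
    have hsum : Tendsto (fun n => ∑ a ∈ Finset.HasAntidiagonal.antidiagonal k,
        ((1 / 2) ^ k * (k.choose a.1 * I ^ a.1)) *
          ∫ z, ζ z * (mono (1 / m (n + N)) (fun w : ℂ => (φ (n + N) (ofComplex w) : ℂ)) a.1 a.2 z
            * (φ (n + N) (ofComplex z) : ℂ))) atTop
        (𝓝 (∑ a ∈ Finset.HasAntidiagonal.antidiagonal k, ((1 / 2) ^ k * (k.choose a.1 * I ^ a.1)) *
          ∫ z : ℂ, ζ z * ((1 / (2 * Real.pi) * ∫ θ in (0 : ℝ)..(2 * Real.pi),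
            (Real.exp (ρ (ofComplex z)) / z.im * Real.cos θ) ^ a.1
              * (Real.exp (ρ (ofComplex z)) / z.im * Real.sin θ) ^ a.2 : ℝ) : ℂ))) := by
      refine tendsto_finsetSum _ fun a _ => Tendsto.const_mul _ ?_
      exact hlim a.1 a.2
    convert hsum using 2
    simp only [e2]
    have e3 : ∀ a ∈ Finset.HasAntidiagonal.antidiagonal k,
        ((1 / 2) ^ k * (k.choose a.1 * I ^ a.1)) * ((cAvg a.1 a.2 : ℂ) *
          ∫ z : ℂ, ζ z * (((Real.exp (ρ (ofComplex z)) / z.im) ^ (a.1 + a.2) : ℝ) : ℂ))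
        = ((1 / 2) ^ k * ∫ z : ℂ, ζ z * (((Real.exp (ρ (ofComplex z)) / z.im) ^ k : ℝ) : ℂ))
          * ((k.choose a.1 * I ^ a.1) * (cAvg a.1 a.2 : ℂ)) := by
      intro a ha
      rw [Finset.HasAntidiagonal.mem_antidiagonal.mp ha]
      ring
    rw [Finset.sum_congr rfl e3, ← Finset.mul_sum, sum_cAvg k hk, mul_zero]

end

end QE


end
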