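import Mathlib
import Pool.Agent.BWM.C03
import Pool.Agent.BWM.C05
import Pool.Agent.BWM.C11
import Pool.Agent.BWM.C12

/-! Parts: LibH11.Berry.RFin1, LibH11.QEV.Model, LibH11.QEV.Rot, LibH11.QEV.Local4, LibH11.QEV.Local3, LibH11.Berry.RFin2, LibH11.Berry.RFinal, Lib_helper67.QE.Surf, Lib_helper67.QE.Final, LibH11.QEV.Frame, LibH11.QEV.Frame2, LibH11.QEV.Global, LibH11.QEV.Global2, LibH11.QEV.Wrap -/

section

/-!
The local waves for a conformal metric: test functions, the measure, the equation.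
-/

open UpperHalfPlane MeasureTheory ProbabilityTheory MatrixGroups Filter Topology Set
  InnerProductSpace Laplacian
open scoped ENNReal NNReal

namespace Berry

noncomputable section

/-- the product of four variables -/
def pr4 (v : Fin 4 → ℝ) : ℝ := v 0 * v 1 * v 2 * v 3

/-- the product of two variables -/
def pr2 (v : Fin 4 → ℝ) : ℝ := v 0 * v 1

lemma tst_pr4 : Tst pr4 4 := by
  have hb : ∀ (v : Fin 4 → ℝ) (j : Fin 4), |v j| ≤ ‖v‖ := fun v j => by
    rw [← Real.norm_eq_abs]; exact norm_le_pi_norm v j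
  refine ⟨by unfold pr4; fun_prop, fun v v' => ?_, fun v => ?_⟩
  · unfold pr4
    set a := ‖v‖ with ha
    set a' := ‖v'‖ with ha'
    set e := ‖v - v'‖ with he
    have ha0 : 0 ≤ a := norm_nonneg _
    have ha'0 : 0 ≤ a' := norm_nonneg _
    have he0 : 0 ≤ e := norm_nonneg _
    have hd : ∀ j : Fin 4, |v j - v' j| ≤ e := fun j => by
      have := hb (v - v') j
      rwa [Pi.sub_apply] at this
    have e1 : v 0 * v 1 * v 2 * v 3 - v' 0 * v' 1 * v' 2 * v' 3
        = (v 0 - v' 0) * (v 1 * v 2 * v 3) + (v 1 - v' 1) * (v' 0 * v 2 * v 3)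
          + (v 2 - v' 2) * (v' 0 * v' 1 * v 3) + (v 3 - v' 3) * (v' 0 * v' 1 * v' 2) := by ring
    have hM : ∀ x y z : ℝ, |x| ≤ 1 + a + a' → |y| ≤ 1 + a + a' → |z| ≤ 1 + a + a' →
        |x * y * z| ≤ (1 + a + a') ^ 3 := by
      intro x y z hx hy hz
      rw [abs_mul, abs_mul]
      calc |x| * |y| * |z| ≤ (1 + a + a') * (1 + a + a') * (1 + a + a') := by gcongr
        _ = _ := by ring
    have hv : ∀ j, |v j| ≤ 1 + a + a' := fun j => (hb v j).trans (by linarith)
    have hv' : ∀ j, |v' j| ≤ 1 + a + a' := fun j => (hb v' j).trans (by linarith)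
    rw [e1]
    have t : ∀ x y : ℝ, |x| ≤ e → |y| ≤ (1 + a + a') ^ 3 → |x * y| ≤ e * (1 + a + a') ^ 3 := by
      intro x y hx hy
      rw [abs_mul]; (clear * - hx hy; gcongr)
    have t1 := t _ _ (hd 0) (hM _ _ _ (hv 1) (hv 2) (hv 3))
    have t2 := t _ _ (hd 1) (hM _ _ _ (hv' 0) (hv 2) (hv 3))
    have t3 := t _ _ (hd 2) (hM _ _ _ (hv' 0) (hv' 1) (hv 3))
    have t4 := t _ _ (hd 3) (hM _ _ _ (hv' 0) (hv' 1) (hv' 2))
    refine (abs_add_le _ _).trans ?_
    have s1 := abs_add_le ((v 0 - v' 0) * (v 1 * v 2 * v 3) + (v 1 - v' 1) * (v' 0 * v 2 * v 3))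
      ((v 2 - v' 2) * (v' 0 * v' 1 * v 3))
    have s2 := abs_add_le ((v 0 - v' 0) * (v 1 * v 2 * v 3)) ((v 1 - v' 1) * (v' 0 * v 2 * v 3))
    linarith
  · unfold pr4
    have ha0 : 0 ≤ ‖v‖ := norm_nonneg _
    rw [abs_mul, abs_mul, abs_mul]
    calc |v 0| * |v 1| * |v 2| * |v 3| ≤ ‖v‖ * ‖v‖ * ‖v‖ * ‖v‖ := by
          gcongr <;> exact hb v _
      _ = ‖v‖ ^ 4 := by ring
      _ ≤ (1 + ‖v‖) ^ 4 := pow_le_pow_left₀ ha0 (by linarith) 4
      _ ≤ 4 * (1 + ‖v‖) ^ 4 := by linarith only [pow_nonneg (by linarith : 0 ≤ 1 + ‖v‖) 4]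

lemma tst_pr2 : Tst pr2 4 := by
  have hb : ∀ (v : Fin 4 → ℝ) (j : Fin 4), |v j| ≤ ‖v‖ := fun v j => by
    rw [← Real.norm_eq_abs]; exact norm_le_pi_norm v j
  refine ⟨by unfold pr2; fun_prop, fun v v' => ?_, fun v => ?_⟩
  · unfold pr2
    set a := ‖v‖ with ha
    set a' := ‖v'‖ with ha'
    set e := ‖v - v'‖ with he
    have ha0 : 0 ≤ a := norm_nonneg _
    have ha'0 : 0 ≤ a' := norm_nonneg _
    have he0 : 0 ≤ e := norm_nonneg _
    have hd : ∀ j : Fin 4, |v j - v' j| ≤ e := fun j => by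
      have := hb (v - v') j
      rwa [Pi.sub_apply] at this
    have e1 : v 0 * v 1 - v' 0 * v' 1 = (v 0 - v' 0) * v 1 + (v 1 - v' 1) * v' 0 := by ring
    rw [e1]
    have t1 : |(v 0 - v' 0) * v 1| ≤ e * a := by
      rw [abs_mul]; exact mul_le_mul (hd 0) (hb v 1) (abs_nonneg _) he0
    have t2 : |(v 1 - v' 1) * v' 0| ≤ e * a' := by
      rw [abs_mul]; exact mul_le_mul (hd 1) (hb v' 0) (abs_nonneg _) he0
    refine (abs_add_le _ _).trans ?_
    have s : (1:ℝ) ≤ 1 + a + a' := by linarith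
    have s3 : 1 + a + a' ≤ (1 + a + a') ^ 3 := by
      calc 1 + a + a' = (1 + a + a') ^ 1 := (pow_one _).symm
        _ ≤ (1 + a + a') ^ 3 := pow_le_pow_right₀ s (by norm_num)
    have s4 : e * (a + a') ≤ e * (1 + a + a') ^ 3 := mul_le_mul_of_nonneg_left (by linarith) he0
    have s5 : 0 ≤ e * (1 + a + a') ^ 3 := by (clear * -; positivity)
    linarith only [t1, t2, s4, s5]
  · unfold pr2
    have ha0 : 0 ≤ ‖v‖ := norm_nonneg _
    rw [abs_mul]
    calc |v 0| * |v 1| ≤ ‖v‖ * ‖v‖ := by gcongr <;> exact hb v _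
      _ ≤ (1 + ‖v‖) ^ 2 := by linarith only [ha0]
      _ ≤ (1 + ‖v‖) ^ 4 := pow_le_pow_right₀ (by linarith) (by norm_num)
      _ ≤ 4 * (1 + ‖v‖) ^ 4 := by nlinarith [pow_nonneg (by linarith : 0 ≤ 1 + ‖v‖) 4]

variable {Γ : Subgroup SL(2, ℝ)} {ρ : ℍ → ℝ} {D : Set ℍ} {φ : ℕ → ℍ → ℝ} {m : ℕ → ℝ} {B : ℝ}

/-! ### The measure -/

lemma area_ne_zero [Countable Γ] (hg : Geo Γ ρ D) : area ρ D ≠ 0 := by
  unfold area
  have hm : Measurable fun z => ENNReal.ofReal (Real.exp (2 * ρ z)) :=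
    ENNReal.measurable_ofReal.comp
      (Real.continuous_exp.comp (continuous_const.mul hg.unif.continuous)).measurable
  rw [withDensity_apply _ hg.meas]
  intro h0
  rw [lintegral_eq_zero_iff hm] at h0
  have h1 : ∀ᵐ z ∂((volume : Measure ℍ).restrict D), False := by
    filter_upwards [h0] with z hz
    rw [Pi.zero_apply, ENNReal.ofReal_eq_zero] at hz
    exact absurd hz (not_le.2 (Real.exp_pos _))
  rw [ae_iff] at h1
  simp only [not_false_eq_true, Set.ofPred_true, Measure.restrict_apply_univ] at h1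
  exact volume_ne_zero hg.dom h1

lemma area_ne_top (hg : Geo Γ ρ D) : area ρ D ≠ ∞ := by
  unfold area
  rw [withDensity_apply _ hg.meas]
  obtain ⟨K, hK⟩ := hg.bdd
  refine ne_top_of_le_ne_top (b := ENNReal.ofReal (Real.exp (2 * K)) * volume D)
    (ENNReal.mul_ne_top ENNReal.ofReal_ne_top hg.fin) ?_
  rw [← setLIntegral_const]
  refine lintegral_mono fun z => ENNReal.ofReal_le_ofReal (Real.exp_le_exp.2 ?_)
  have := (le_abs_self _).trans (hK z)
  linarith

lemma angle_prob : IsProbabilityMeasure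
    (ProbabilityTheory.cond (volume : Measure ℝ) (Set.Ioc 0 (2 * Real.pi))) := by
  apply ProbabilityTheory.cond_isProbabilityMeasure_of_finite
  · rw [Real.volume_Ioc, Ne, ENNReal.ofReal_eq_zero, not_le, sub_zero]; positivity
  · rw [Real.volume_Ioc]; exact ENNReal.ofReal_ne_top

lemma rFrameProb_isProb [Countable Γ] (hg : Geo Γ ρ D) : IsProbabilityMeasure (rFrameProb ρ D) := by
  have h1 : IsProbabilityMeasure (ProbabilityTheory.cond (area ρ) D) :=
    ProbabilityTheory.cond_isProbabilityMeasure_of_finite (area_ne_zero hg) (area_ne_top hg)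
  have h2 := angle_prob
  unfold rFrameProb
  infer_instance

/-- the density of the random frames -/
lemma rFrame_int [Countable Γ] (hg : Geo Γ ρ D) : ∃ κ : ℝ, 0 < κ ∧ ∀ H : ℍ × ℝ → ℝ,
    ∫ p, H p ∂(rFrameProb ρ D) = κ * ∫ p, Real.exp (2 * ρ p.1) * H p ∂(frameProb D) := by
  have hv0 := volume_ne_zero hg.dom
  have hvt := hg.fin
  have ha0 := area_ne_zero hg
  have hat := area_ne_top hg
  have hang := angle_prob
  have hcond : IsProbabilityMeasure (ProbabilityTheory.cond (volume : Measure ℍ) D) :=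
    ProbabilityTheory.cond_isProbabilityMeasure_of_finite hv0 hvt
  set f : ℍ → ℝ≥0 := fun z => Real.toNNReal (Real.exp (2 * ρ z)) with hf
  have hfm : Measurable f := measurable_real_toNNReal.comp
    (Real.continuous_exp.comp (continuous_const.mul hg.unif.continuous)).measurable
  have e1 : ProbabilityTheory.cond (area ρ) D
      = ((area ρ D)⁻¹ * volume D) • (ProbabilityTheory.cond (volume : Measure ℍ) D).withDensity
        (fun z => (f z : ℝ≥0∞)) := by
    unfold ProbabilityTheory.cond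
    have e2 : (area ρ).restrict D = ((volume : Measure ℍ).restrict D).withDensity
        (fun z => (f z : ℝ≥0∞)) := by
      unfold area
      rw [restrict_withDensity hg.meas]
      rfl
    rw [e2, withDensity_smul_measure, smul_smul, mul_assoc, ENNReal.mul_inv_cancel hv0 hvt, mul_one]
  refine ⟨((area ρ D)⁻¹ * volume D).toReal, ?_, fun H => ?_⟩
  · apply ENNReal.toReal_pos
    · exact mul_ne_zero (ENNReal.inv_ne_zero.2 hat) hv0
    · exact ENNReal.mul_ne_top (ENNReal.inv_ne_top.2 ha0) hvt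
  · unfold rFrameProb frameProb
    rw [e1, Measure.prod_smul_left, integral_smul_measure, smul_eq_mul]
    congr 1
    rw [prod_withDensity_left hfm.coe_nnreal_ennreal]
    have h3 := integral_withDensity_eq_integral_smul (μ := (ProbabilityTheory.cond (volume : Measure ℍ) D).prod
      (ProbabilityTheory.cond (volume : Measure ℝ) (Set.Ioc 0 (2 * Real.pi))))
      (f := fun p : ℍ × ℝ => f p.1) (hfm.comp measurable_fst) H
    rw [h3]
    congr 1; funext p
    rw [NNReal.smul_def, smul_eq_mul, hf, Real.coe_toNNReal _ (Real.exp_pos _).le]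

lemma rFrame_fst [Countable Γ] (hg : Geo Γ ρ D) {f : ℍ → ℝ} (hf : Measurable f) :
    ∫ p, f p.1 ∂(rFrameProb ρ D) = rAvg ρ D f := by
  have h1 : IsProbabilityMeasure (ProbabilityTheory.cond (area ρ) D) :=
    ProbabilityTheory.cond_isProbabilityMeasure_of_finite (area_ne_zero hg) (area_ne_top hg)
  have h2 := angle_prob
  unfold rFrameProb rAvg
  have h3 := (measurePreserving_fst (μ := ProbabilityTheory.cond (area ρ) D)
    (ν := ProbabilityTheory.cond (volume : Measure ℝ) (Set.Ioc 0 (2 * Real.pi)))).map_eq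
  conv_rhs => rw [← h3]
  rw [integral_map measurable_fst.aemeasurable hf.aestronglyMeasurable]

/-- hyperbolic averages are controlled by averages for the metric -/
lemma hyp_le [Countable Γ] (hg : Geo Γ ρ D) : ∃ c : ℝ, 0 ≤ c ∧ ∀ f : ℍ → ℝ, Continuous f →
    (∀ z, 0 ≤ f z) → (∃ C, ∀ z, |f z| ≤ C) →
    ∫ z, f z ∂(ProbabilityTheory.cond (volume : Measure ℍ) D) ≤ c * rAvg ρ D f := by
  obtain ⟨κ, hκ, hint⟩ := rFrame_int hg
  obtain ⟨K, hK⟩ := hg.bdd
  have hP := frameProb_isProb hg.dom hg.fin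
  refine ⟨Real.exp (2 * K) / κ, by positivity, fun f hf hf0 hfb => ?_⟩
  obtain ⟨C, hC⟩ := hfb
  have h1 := hint fun p => f p.1
  rw [rFrame_fst hg hf.measurable] at h1
  rw [h1, ← frame_fst hg.dom hg.fin hf.measurable]
  have h2 : ∫ p, f p.1 ∂(frameProb D)
      ≤ ∫ p, Real.exp (2 * K) * (Real.exp (2 * ρ p.1) * f p.1) ∂(frameProb D) := by
    refine integral_mono_of_nonneg (Eventually.of_forall fun p => hf0 _) ?_
      (Eventually.of_forall fun p => ?_)
    · apply Integrable.const_mul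
      refine integrable_bdd (C := Real.exp (2 * K) * C) ?_ fun p => ?_
      · exact ((Real.continuous_exp.comp (continuous_const.mul
          (hg.unif.continuous.comp continuous_fst))).mul (hf.comp continuous_fst)).measurable
      · rw [abs_mul, abs_of_pos (Real.exp_pos _)]
        refine mul_le_mul (Real.exp_le_exp.2 ?_) (hC _) (abs_nonneg _) (Real.exp_pos _).le
        have := (le_abs_self _).trans (hK p.1)
        linarith
    · have h3 : 1 ≤ Real.exp (2 * K) * Real.exp (2 * ρ p.1) := by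
        rw [← Real.exp_add]
        apply Real.one_le_exp
        have := (abs_le.1 (hK p.1)).1
        linarith
      have h4 := hf0 p.1
      simp only
      nlinarith only [h3, h4]
  rw [integral_const_mul] at h2
  refine h2.trans (le_of_eq ?_)
  field_simp

/-! ### The scaled wave -/

/-- the local wave, cut off far away -/
def sW (ρ : ℍ → ℝ) (φ : ℍ → ℝ) (m : ℝ) (x : ℂ) (p : ℍ × ℝ) : ℝ :=
  cutWave φ m (x / (Real.exp (ρ p.1) : ℂ)) p

lemma Dat.sW_single (h : Dat Γ ρ D φ m B) (n : ℕ) (P : Measure (ℍ × ℝ)) :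
    SingleW P (sW ρ (φ n) (m n)) := by
  obtain ⟨C, hC⟩ := h.bdd n
  refine ⟨fun x => h.scaled_meas n x, fun p => ?_, C, fun x p => cutWave_bdd hC _ _ _⟩
  have h1 := (h.reig n).cutWave_smooth p
  have h2 : ContDiff ℝ 2 fun x : ℂ => x / (Real.exp (ρ p.1) : ℂ) := by
    simp only [div_eq_mul_inv]
    exact contDiff_id.mul contDiff_const
  exact h1.comp h2

/-- the approximate Helmholtz equation for the local waves -/
lemma Dat.sW_eqn (h : Dat Γ ρ D φ m B) (r : ℝ) {δ : ℝ} (hδ : 0 < δ) :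
    ∀ᶠ n in atTop, ∀ p, ∀ x ∈ Metric.ball (0:ℂ) r,
      |(Δ (fun x => sW ρ (φ n) (m n) x p)) x + sW ρ (φ n) (m n) x p|
        ≤ δ * |sW ρ (φ n) (m n) x p| := by
  obtain ⟨K, hK⟩ := h.geo.bdd
  have hK0 : 0 ≤ K := (abs_nonneg _).trans (hK I)
  obtain ⟨δ₂, hδ₂, hρ⟩ := Metric.uniformContinuous_iff.1 h.geo.unif (min (δ / 16) (1 / 2))
    (by positivity)
  -- continuity of the chart at `i`
  have hcont : ContinuousAt (fun ζ : ℂ => (ofComplex (Complex.I + ζ) : ℍ)) 0 := by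
    have h4 : ContinuousAt (ofComplex : ℂ → ℍ) (Complex.I + 0) := by
      rw [add_zero]
      exact (contMDiffAt_ofComplex (n := 0) (z := Complex.I) (by simp)).continuousAt
    exact ContinuousAt.comp (f := fun ζ : ℂ => Complex.I + ζ) (g := (ofComplex : ℂ → ℍ)) h4
      (by fun_prop)
  have e0 : (ofComplex (Complex.I + 0) : ℍ) = I := by
    rw [add_zero]
    have : (Complex.I : ℂ) = ((I : ℍ) : ℂ) := rfl
    rw [this, ofComplex_apply]
  obtain ⟨κ, hκ, hch⟩ := Metric.continuousAt_iff.1 hcont δ₂ hδ₂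
  set R := |r| * Real.exp K with hR
  have hlim := h.eig.tendsto.const_div_atTop R
  filter_upwards [h.eig.tendsto.eventually_gt_atTop 0,
    hlim.eventually (gt_mem_nhds (show (0:ℝ) < min (1 / 4) (min κ (δ / 8)) by positivity))]
    with n hm hn p x hx
  rw [Metric.mem_ball, dist_zero_right] at hx
  have hn1 : R / m n < 1 / 4 := lt_of_lt_of_le hn (min_le_left _ _)
  have hn2 : R / m n < κ := lt_of_lt_of_le hn ((min_le_right _ _).trans (min_le_left _ _))
  have hn3 : R / m n < δ / 8 := lt_of_lt_of_le hn ((min_le_right _ _).trans (min_le_right _ _))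
  set c : ℝ := Real.exp (ρ p.1) with hc
  have hc0 : 0 < c := Real.exp_pos _
  have hcC : (c : ℂ) ≠ 0 := by
    rw [Ne, Complex.ofReal_eq_zero]; exact hc0.ne'
  set y : ℂ := x / (c : ℂ) with hy
  have hyn : ‖y‖ ≤ R := by
    rw [hy, norm_div, Complex.norm_real, Real.norm_of_nonneg hc0.le, div_eq_mul_inv, hc,
      ← Real.exp_neg, hR]
    have a1 : Real.exp (-ρ p.1) ≤ Real.exp K :=
      Real.exp_le_exp.2 (by have := (abs_le.1 (hK p.1)).1; linarith only [this])
    exact mul_le_mul (hx.le.trans (le_abs_self r)) a1 (Real.exp_pos _).le (abs_nonneg _)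
  have hym : ‖y‖ / m n ≤ R / m n := div_le_div_of_nonneg_right hyn hm.le
  have hnorm : ‖y / (m n : ℂ)‖ = ‖y‖ / m n := by
    rw [norm_div, Complex.norm_real, Real.norm_of_nonneg hm.le]
  -- the Laplacian
  have h1 := (h.reig n).cutWave_smooth p
  have hA : AnalyticAt ℂ (fun x : ℂ => x / (c : ℂ)) x := analyticAt_id.div_const
  have h2 := laplacian_conformal (f := fun y => cutWave (φ n) (m n) y p)
    (h := fun x : ℂ => x / (c : ℂ)) (w := x) h1.contDiffAt hA
  have hder : deriv (fun x : ℂ => x / (c : ℂ)) x = 1 / (c : ℂ) :=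
    ((hasDerivAt_id x).div_const (c : ℂ)).deriv
  rw [hder] at h2
  have h3 : (Δ (fun x => sW ρ (φ n) (m n) x p)) x
      = ‖1 / (c : ℂ)‖ ^ 2 * (Δ (fun y => cutWave (φ n) (m n) y p)) y := h2
  have h4 := (h.reig n).cutWave_lap hm p (x := y) (by linarith only [hn1, hym])
  set t := (Complex.I + y / (m n : ℂ)).im with ht
  set w : ℍ := frame p • ofComplex (Complex.I + y / (m n : ℂ)) with hw
  set A := cutWave (φ n) (m n) y p with hAdef
  have hsA : sW ρ (φ n) (m n) x p = A := rfl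
  have ht1 : |t - 1| ≤ R / m n := by
    have e : t - 1 = (y / (m n : ℂ)).im := by
      rw [ht, Complex.add_im, Complex.I_im]; ring
    rw [e]
    refine (Complex.abs_im_le_norm _).trans ?_
    rw [hnorm]; exact hym
  obtain ⟨ht2, ht3⟩ := abs_le.1 ht1
  have ht4 : 3 / 4 ≤ t := by linarith
  have ht5 : t ^ 2 ≠ 0 := by positivity
  -- the conformal factor
  have hdist : dist w (p.1 : ℍ) < δ₂ := by
    have q : dist w (p.1 : ℍ) = dist w (frame p • I) := by rw [frame_smul_I]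
    rw [q, hw, dist_smul]
    have := hch (x := y / (m n : ℂ)) (by
      rw [dist_zero_right, hnorm]; linarith only [hn2, hym])
    simp only [e0] at this
    exact this
  have hb := hρ hdist
  rw [Real.dist_eq] at hb
  set b := ρ w - ρ p.1 with hbdef
  have hb1 : |b| < δ / 16 := lt_of_lt_of_le hb (min_le_left _ _)
  have hb2 : |b| < 1 / 2 := lt_of_lt_of_le hb (min_le_right _ _)
  have h5 : (Δ (fun x => sW ρ (φ n) (m n) x p)) x = - (Real.exp (2 * b) / t ^ 2) * A := by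
    rw [h3]
    have h6 : (Δ (fun y => cutWave (φ n) (m n) y p)) y = - (Real.exp (2 * ρ w) * A) / t ^ 2 := by
      rw [eq_div_iff ht5]; exact h4
    rw [h6]
    have h7 : ‖1 / (c : ℂ)‖ ^ 2 = Real.exp (-(2 * ρ p.1)) := by
      rw [norm_div, norm_one, Complex.norm_real, Real.norm_of_nonneg hc0.le, hc, one_div,
        ← Real.exp_neg, ← Real.exp_nat_mul]
      congr 1; push_cast; ring
    have h8 : Real.exp (2 * b) = Real.exp (-(2 * ρ p.1)) * Real.exp (2 * ρ w) := by
      rw [← Real.exp_add]; congr 1; rw [hbdef]; ring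
    rw [h7, h8]; ring
  rw [hsA, h5]
  have h9 : - (Real.exp (2 * b) / t ^ 2) * A + A = ((t ^ 2 - Real.exp (2 * b)) / t ^ 2) * A := by
    field_simp; ring
  rw [h9, abs_mul]
  refine mul_le_mul_of_nonneg_right ?_ (abs_nonneg _)
  rw [abs_div, abs_of_pos (by positivity : 0 < t ^ 2), div_le_iff₀ (by positivity)]
  have h10 : |t ^ 2 - 1| ≤ (R / m n) * (9 / 4) := by
    have e : t ^ 2 - 1 = (t - 1) * (t + 1) := by ring
    rw [e, abs_mul, abs_of_pos (by linarith only [hn1, ht2] : 0 < t + 1)]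
    exact mul_le_mul ht1 (by linarith only [hn1, ht3]) (by linarith only [hn1, ht2]) ((abs_nonneg _).trans ht1)
  have h11 : |Real.exp (2 * b) - 1| ≤ 2 * |2 * b| :=
    Real.abs_exp_sub_one_le (by rw [abs_mul, abs_two]; linarith only [hb2])
  rw [abs_mul, abs_two] at h11
  have h12 : |t ^ 2 - Real.exp (2 * b)| ≤ |t ^ 2 - 1| + |Real.exp (2 * b) - 1| := by
    have e : t ^ 2 - Real.exp (2 * b) = (t ^ 2 - 1) - (Real.exp (2 * b) - 1) := by ring
    rw [e]; exact abs_sub _ _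
  have h13 : (9:ℝ) / 16 ≤ t ^ 2 := by nlinarith only [hn1, ht2]
  nlinarith only [hn3, hb1, h10, h11, h12, hδ, h13]

end

end Berry


end

section

/-!
The correlations of the plane waves in terms of the coefficients of the Taylor polynomials.
-/

open Complex MeasureTheory Filter Topology Set
open scoped ContDiff

namespace QE

noncomputable section

/-- the uniform measure on `(0, 2π]` -/
abbrev ang : Measure ℝ := ProbabilityTheory.cond (volume : Measure ℝ) (Set.Ioc 0 (2 * Real.pi))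

instance : IsProbabilityMeasure ang := Berry.angle_prob

lemma ang_int {F : Type*} [NormedAddCommGroup F] [NormedSpace ℝ F] (f : ℝ → F) :
    ∫ t, f t ∂ang = (2 * Real.pi)⁻¹ • ∫ t in (0 : ℝ)..(2 * Real.pi), f t := by
  have hp : (0 : ℝ) < 2 * Real.pi := by positivity
  rw [intervalIntegral.integral_of_le hp.le]
  unfold ang ProbabilityTheory.cond
  rw [integral_smul_measure, Real.volume_Ioc, sub_zero, ENNReal.toReal_inv,
    ENNReal.toReal_ofReal hp.le]

/-- the unimodular function `e^{-it}` -/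
def uu (t : ℝ) : ℂ := Complex.exp (-(t : ℂ) * I)

lemma norm_uu (t : ℝ) : ‖uu t‖ = 1 := by
  unfold uu
  rw [← Complex.ofReal_neg]
  exact Complex.norm_exp_ofReal_mul_I _

lemma uu_ne (t : ℝ) : uu t ≠ 0 := Complex.exp_ne_zero _

lemma continuous_uu : Continuous uu := by unfold uu; fun_prop

lemma uu_zpow (t : ℝ) (k : ℤ) : uu t ^ k = Complex.exp ((-(k : ℂ) * I) * t) := by
  unfold uu
  rw [← Complex.exp_int_mul]
  congr 1; ring

lemma continuous_uu_zpow (k : ℤ) : Continuous fun t => uu t ^ k := by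
  simp only [uu_zpow]; fun_prop

lemma ang_zpow (k : ℤ) : ∫ t, uu t ^ k ∂ang = if k = 0 then 1 else 0 := by
  rw [ang_int]
  by_cases hk : k = 0
  · simp only [hk, zpow_zero, if_true]
    rw [intervalIntegral.integral_const]
    have hp : (Real.pi : ℂ) ≠ 0 := by exact_mod_cast Real.pi_ne_zero
    simp
    field_simp
  · rw [if_neg hk]
    have hc : -(k : ℂ) * I ≠ 0 := by
      simp [hk]
    simp only [uu_zpow]
    rw [integral_exp_mul_complex hc]
    have h1 : Complex.exp ((-(k : ℂ) * I) * ((2 * Real.pi : ℝ) : ℂ)) = 1 := by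
      have := Complex.exp_int_mul_two_pi_mul_I (-k)
      rw [← this]
      congr 1
      push_cast
      ring
    rw [h1]
    simp

lemma ang_zpow_mul {q : ℤ} (hq : q ≠ 0) (k : ℤ) :
    ∫ t, (uu t ^ q) ^ k ∂ang = if k = 0 then 1 else 0 := by
  simp only [← zpow_mul]
  rw [ang_zpow]
  by_cases hk : k = 0
  · simp [hk]
  · simp [hk, hq]

/-- the coefficients of the Taylor polynomial -/
def CN (N : ℕ) (j : ℤ) (y : ℂ) : ℂ := ∑ k ∈ Finset.range (N + 1), ((k.factorial : ℝ)⁻¹ : ℝ) • cc k j y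

lemma CN_rot (N : ℕ) {u : ℂ} (hu : ‖u‖ = 1) (j : ℤ) (y : ℂ) : CN N j (u * y) = u ^ j * CN N j y := by
  unfold CN
  rw [Finset.mul_sum]
  refine Finset.sum_congr rfl fun k _ => ?_
  rw [cc_rot k hu, Complex.real_smul, Complex.real_smul]
  ring

lemma CN_neg (N : ℕ) (j : ℤ) (y : ℂ) : CN N j (-y) = (-1) ^ j * CN N j y := by
  have := CN_rot N (u := -1) (by simp) j y
  rwa [neg_one_mul] at this

lemma Phi_eq {h : ℕ → ℝ} {a : ℂ → ℂ} {φ : ℕ → ℂ → ℂ} (N : ℕ) (x : ℂ) (n : ℕ) (z : ℂ) :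
    Phi h a φ N x n z = ∑ j ∈ Finset.Icc (-(N : ℤ)) N, CN N j x * E h a φ j n z := by
  unfold Phi CN
  simp only [Finset.sum_mul]
  rw [Finset.sum_comm]
  refine Finset.sum_congr rfl fun k hk => ?_
  have hs : Finset.Icc (-(k : ℤ)) k ⊆ Finset.Icc (-(N : ℤ)) N := by
    intro j hj
    rw [Finset.mem_range] at hk
    rw [Finset.mem_Icc] at hj ⊢
    omega
  rw [TT_eq k 0 _ hs, Finset.smul_sum]
  refine Finset.sum_congr rfl fun j _ => ?_
  rw [zero_add, Complex.real_smul, Complex.real_smul]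
  ring

lemma conj_of_norm_one {w : ℂ} (hw : ‖w‖ = 1) : (starRingEnd ℂ) w = w⁻¹ := by
  rw [Complex.inv_def, Complex.normSq_eq_norm_sq, hw]; simp

lemma sum_cc_zpow {w : ℂ} (hw : ‖w‖ = 1) (y : ℂ) (k : ℕ) : ∀ (m : ℤ) (s : Finset ℤ),
    Finset.Icc (-(k : ℤ)) k ⊆ s →
    ∑ j ∈ s, cc k j y * w ^ (m + j) = (I * ((y * w).re : ℂ)) ^ k * w ^ m := by
  have hw0 : w ≠ 0 := by
    intro h0; rw [h0, norm_zero] at hw; exact zero_ne_one hw
  induction k with
  | zero =>
    intro m s hs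
    have h0 : (0 : ℤ) ∈ s := hs (by simp)
    rw [Finset.sum_eq_single_of_mem 0 h0 (fun j _ hj => by simp [cc, hj])]
    simp [cc]
  | succ k ih =>
    intro m s hs
    have m1 : Finset.Icc (-(k : ℤ)) k ⊆ s.map (Equiv.subRight (1 : ℤ)).toEmbedding := by
      intro j hj
      rw [Finset.mem_map]
      rw [Finset.mem_Icc] at hj
      refine ⟨j + 1, hs ?_, by simp⟩
      rw [Finset.mem_Icc]; push_cast; omega
    have m2 : Finset.Icc (-(k : ℤ)) k ⊆ s.map (Equiv.addRight (1 : ℤ)).toEmbedding := by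
      intro j hj
      rw [Finset.mem_map]
      rw [Finset.mem_Icc] at hj
      refine ⟨j - 1, hs ?_, by simp⟩
      rw [Finset.mem_Icc]; push_cast; omega
    have e1 := ih (m + 1) _ m1
    have e2 := ih (m - 1) _ m2
    rw [Finset.sum_map] at e1 e2
    have hre : 2 * ((y * w).re : ℂ) = y * w + (starRingEnd ℂ) y * w⁻¹ := by
      rw [← conj_of_norm_one hw, ← map_mul, add_conj]
      push_cast; ring
    have e3 : (I * ((y * w).re : ℂ)) ^ (k + 1) * w ^ m
        = (I / 2) * (y * ((I * ((y * w).re : ℂ)) ^ k * w ^ (m + 1))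
          + (starRingEnd ℂ) y * ((I * ((y * w).re : ℂ)) ^ k * w ^ (m - 1))) := by
      rw [zpow_add_one₀ hw0, zpow_sub_one₀ hw0, pow_succ]
      linear_combination ((I * ((y * w).re : ℂ)) ^ k * w ^ m * I / 2) * hre
    rw [e3, ← e1, ← e2, Finset.mul_sum, Finset.mul_sum, ← Finset.sum_add_distrib, Finset.mul_sum]
    refine Finset.sum_congr rfl fun j _ => ?_
    have i1 : m + 1 + (Equiv.subRight (1 : ℤ)).toEmbedding j = m + j := by
      show m + 1 + (j - 1) = m + j
      ring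
    have i2 : m - 1 + (Equiv.addRight (1 : ℤ)).toEmbedding j = m + j := by
      show m - 1 + (j + 1) = m + j
      ring
    rw [i1, i2, cc_succ]
    show _ = I / 2 * (y * (cc k (j - 1) y * _) + (starRingEnd ℂ) y * (cc k (j + 1) y * _))
    ring

/-- the plane wave with the frequency `conj w` -/
def ee (y w : ℂ) : ℂ := Complex.exp (I * ((y * w).re : ℂ))

/-- its Taylor polynomial -/
def pp (N : ℕ) (y w : ℂ) : ℂ := ∑ j ∈ Finset.Icc (-(N : ℤ)) N, CN N j y * w ^ j

lemma pp_eq {w : ℂ} (hw : ‖w‖ = 1) (N : ℕ) (y : ℂ) : pp N y w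
    = ∑ k ∈ Finset.range (N + 1), (I * ((y * w).re : ℂ)) ^ k / (k.factorial : ℂ) := by
  unfold pp CN
  simp only [Finset.sum_mul]
  rw [Finset.sum_comm]
  refine Finset.sum_congr rfl fun k hk => ?_
  have hs : Finset.Icc (-(k : ℤ)) k ⊆ Finset.Icc (-(N : ℤ)) N := by
    intro j hj
    rw [Finset.mem_range] at hk
    rw [Finset.mem_Icc] at hj ⊢
    omega
  have h1 := sum_cc_zpow hw y k 0 _ hs
  rw [zpow_zero, mul_one] at h1
  rw [← h1, Finset.sum_div]
  refine Finset.sum_congr rfl fun j _ => ?_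
  rw [zero_add, Complex.real_smul]
  push_cast
  field_simp

lemma tendsto_pp {w : ℂ} (hw : ‖w‖ = 1) (y : ℂ) : Tendsto (fun N => pp N y w) atTop (𝓝 (ee y w)) := by
  have h1 := (NormedSpace.expSeries_div_hasSum_exp (I * ((y * w).re : ℂ))).tendsto_sum_nat
  have h2 := h1.comp (tendsto_add_atTop_nat 1)
  rw [← Complex.exp_eq_exp_ℂ] at h2
  exact h2.congr fun N => (pp_eq hw N y).symm

lemma norm_pp_le {w : ℂ} (hw : ‖w‖ = 1) (N : ℕ) (y : ℂ) : ‖pp N y w‖ ≤ Real.exp ‖y‖ := by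
  rw [pp_eq hw]
  refine (norm_sum_le _ _).trans (le_trans ?_ (Real.sum_le_exp_of_nonneg (norm_nonneg y) (N + 1)))
  refine Finset.sum_le_sum fun k _ => ?_
  rw [norm_div, norm_pow, norm_mul, Complex.norm_I, one_mul, Complex.norm_real, Complex.norm_natCast]
  have h1 : ‖(y * w).re‖ ≤ ‖y‖ := by
    have := Complex.abs_re_le_norm (y * w)
    rwa [norm_mul, hw, mul_one] at this
  gcongr

lemma continuous_pp_uu {X : Type*} [TopologicalSpace X] (N : ℕ) (y : ℂ) {f : X → ℝ}
    (hf : Continuous f) : Continuous fun x => pp N y (uu (f x)) := by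
  unfold pp
  exact continuous_finset_sum _ fun j _ => continuous_const.mul ((continuous_uu_zpow j).comp hf)

/-- **Model correlations.** -/
theorem tendsto_model {Ω : Type*} [MeasurableSpace Ω] [TopologicalSpace Ω] [BorelSpace Ω]
    [SecondCountableTopology Ω]
    (π : Measure Ω) [IsProbabilityMeasure π] {k : ℕ} (l : Fin k → Ω → ℝ) (hl : ∀ i, Continuous (l i))
    (y : Fin k → ℂ) :
    Tendsto (fun N : ℕ => ∑ p ∈ Fintype.piFinset (fun _ : Fin k => Finset.Icc (-(N : ℤ)) N),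
      (∏ i, CN N (p i) (y i)) * ∫ o, ∏ i, uu (l i o) ^ (p i) ∂π) atTop
      (𝓝 (∫ o, ∏ i, ee (y i) (uu (l i o)) ∂π)) := by
  have h1 : ∀ N : ℕ, ∑ p ∈ Fintype.piFinset (fun _ : Fin k => Finset.Icc (-(N : ℤ)) N),
      (∏ i, CN N (p i) (y i)) * ∫ o, ∏ i, uu (l i o) ^ (p i) ∂π
      = ∫ o, ∏ i, pp N (y i) (uu (l i o)) ∂π := by
    intro N
    have hint : ∀ p ∈ Fintype.piFinset (fun _ : Fin k => Finset.Icc (-(N : ℤ)) N),
        Integrable (fun o => (∏ i, CN N (p i) (y i)) * ∏ i, uu (l i o) ^ (p i)) π := by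
      intro p _
      have hc : Continuous (fun o => (∏ i, CN N (p i) (y i)) * ∏ i, uu (l i o) ^ (p i)) :=
        continuous_const.mul (continuous_finset_prod _ fun i _ =>
          (continuous_uu_zpow (p i)).comp (hl i))
      refine Integrable.of_bound hc.aestronglyMeasurable (‖∏ i, CN N (p i) (y i)‖)
        (Eventually.of_forall fun o => ?_)
      rw [norm_mul, norm_prod]
      simp [norm_uu]
    simp only [← integral_const_mul]
    rw [← integral_finset_sum _ hint]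
    refine integral_congr_ae (Eventually.of_forall fun o => ?_)
    unfold pp
    beta_reduce
    rw [Finset.prod_univ_sum]
    refine Finset.sum_congr rfl fun p _ => ?_
    rw [Finset.prod_mul_distrib]
  simp only [h1]
  refine tendsto_integral_of_dominated_convergence (fun _ => ∏ i, Real.exp ‖y i‖) (fun N => ?_)
    (integrable_const _) (fun N => Eventually.of_forall fun o => ?_)
    (Eventually.of_forall fun o => ?_)
  · exact (continuous_finset_prod _ fun i _ => continuous_pp_uu N (y i)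
      (hl i)).aestronglyMeasurable
  · rw [norm_prod]
    exact Finset.prod_le_prod (fun _ _ => norm_nonneg _) fun i _ => norm_pp_le (norm_uu _) N (y i)
  · exact tendsto_finset_prod _ fun i _ => tendsto_pp (norm_uu _) (y i)

lemma ee_add (y y' w : ℂ) : ee y w * ee y' w = ee (y + y') w := by
  unfold ee
  rw [← Complex.exp_add, add_mul, Complex.add_re]
  push_cast
  ring_nf

lemma continuous_ee_uu (y : ℂ) : Continuous fun t => ee y (uu t) := by
  unfold ee
  have := continuous_uu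
  fun_prop

/-- the average of the plane waves is the wave `K` -/
lemma int_ee (y : ℂ) : ∫ t, ee y (uu t) ∂ang = (Berry.waveK y : ℂ) := by
  have hre : ∀ t : ℝ, (y * uu t).re = y.re * Real.cos t + y.im * Real.sin t := by
    intro t
    unfold uu
    rw [← Complex.ofReal_neg, Complex.mul_re, Complex.exp_ofReal_mul_I_re,
      Complex.exp_ofReal_mul_I_im, Real.cos_neg, Real.sin_neg]
    ring
  have he : ∀ t : ℝ, ee y (uu t) = ((Real.cos (y.re * Real.cos t + y.im * Real.sin t) : ℝ) : ℂ)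
      + ((Real.sin (y.re * Real.cos t + y.im * Real.sin t) : ℝ) : ℂ) * I := by
    intro t
    unfold ee
    rw [hre, mul_comm I, Complex.exp_mul_I, Complex.ofReal_cos, Complex.ofReal_sin]
  have hs : ∫ t in (0 : ℝ)..(2 * Real.pi), Real.sin (y.re * Real.cos t + y.im * Real.sin t) = 0 := by
    have hper : Function.Periodic (fun t => Real.sin (y.re * Real.cos t + y.im * Real.sin t))
        (2 * Real.pi) := by
      intro t
      simp only [Real.cos_add_two_pi, Real.sin_add_two_pi]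
    have h1 : ∫ t in (0 : ℝ)..(2 * Real.pi), Real.sin (y.re * Real.cos (t + Real.pi)
        + y.im * Real.sin (t + Real.pi))
        = ∫ t in (0 : ℝ)..(2 * Real.pi), Real.sin (y.re * Real.cos t + y.im * Real.sin t) := by
      rw [intervalIntegral.integral_comp_add_right
        (fun t => Real.sin (y.re * Real.cos t + y.im * Real.sin t)) Real.pi]
      have h4 := hper.intervalIntegral_add_eq (0 + Real.pi) 0
      rw [zero_add (2 * Real.pi)] at h4
      rw [← h4]
      congr 1; ring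
    have h2 : ∀ t : ℝ, Real.sin (y.re * Real.cos (t + Real.pi) + y.im * Real.sin (t + Real.pi))
        = - Real.sin (y.re * Real.cos t + y.im * Real.sin t) := by
      intro t
      rw [Real.cos_add_pi, Real.sin_add_pi]
      have e : y.re * -Real.cos t + y.im * -Real.sin t
          = -(y.re * Real.cos t + y.im * Real.sin t) := by ring
      rw [e, Real.sin_neg]
    simp only [h2] at h1
    rw [intervalIntegral.integral_neg] at h1
    linarith
  simp only [he]
  rw [ang_int]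
  have c1 : Continuous fun t : ℝ => ((Real.cos (y.re * Real.cos t + y.im * Real.sin t) : ℝ) : ℂ) := by
    fun_prop
  have c2 : Continuous fun t : ℝ => ((Real.sin (y.re * Real.cos t + y.im * Real.sin t) : ℝ) : ℂ) * I := by
    fun_prop
  rw [intervalIntegral.integral_add (c1.intervalIntegrable _ _) (c2.intervalIntegrable _ _),
    intervalIntegral.integral_mul_const, intervalIntegral.integral_ofReal,
    intervalIntegral.integral_ofReal, hs]
  unfold Berry.waveK
  rw [Complex.real_smul]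
  push_cast
  ring

end

end QE


end

section

/-!
Rotation averages of products of the values of an eigenfunction at nearby points.
-/

open Complex MeasureTheory Filter Topology Set
open scoped ContDiff

namespace QE

noncomputable section

variable {U : Set ℂ} {h : ℕ → ℝ} {a g : ℂ → ℂ} {φ : ℕ → ℂ → ℂ}

/-- displacements which are asymptotic to the rotations of `y` -/
structure Disp (h : ℕ → ℝ) (a : ℂ → ℂ) (K : Set ℂ) (q : ℤ) (y : ℂ) (ξ : ℕ → ℝ → ℂ → ℂ) : Prop where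
  lim : ∀ ε > 0, ∀ᶠ n in atTop, ∀ θ, ∀ z ∈ K, ‖ξ n θ z - uu θ ^ q * y‖ ≤ ε
  cont : ∀ᶠ n in atTop, ContinuousOn (fun p : ℝ × ℂ => ξ n p.1 p.2) (univ ×ˢ K)
  lip : ∀ᶠ n in atTop, ∀ θ, ∀ z ∈ K, ∀ w ∈ K,
    ‖h n * a z * ξ n θ z - h n * a w * ξ n θ w‖ ≤ (1 / 2) * ‖z - w‖

lemma int_ang {K : Set ℂ} (hK : IsCompact K) {H : ℝ × ℂ → ℂ} (hH : ContinuousOn H (univ ×ˢ K)) :
    Integrable H (ang.prod (volume.restrict K)) := by
  have h1 : ang = (volume (Ioc (0 : ℝ) (2 * Real.pi)))⁻¹ • volume.restrict (Ioc (0 : ℝ) (2 * Real.pi)) :=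
    rfl
  rw [h1, Measure.prod_smul_left]
  have h2 : volume (Ioc (0 : ℝ) (2 * Real.pi)) ≠ 0 := by
    rw [Real.volume_Ioc, Ne, ENNReal.ofReal_eq_zero, not_le, sub_zero]; positivity
  refine Integrable.smul_measure ?_ (ENNReal.inv_ne_top.2 h2)
  rw [Measure.prod_restrict]
  have h3 : IntegrableOn H (Icc (0 : ℝ) (2 * Real.pi) ×ˢ K)
      ((volume : Measure ℝ).prod (volume : Measure ℂ)) :=
    (hH.mono (prod_mono_left (subset_univ _))).integrableOn_compact (isCompact_Icc.prod hK)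
  exact h3.mono_set (prod_mono_left Ioc_subset_Icc_self)

lemma int_ang_left {K : Set ℂ} (hK : IsCompact K) {H : ℝ × ℂ → ℂ}
    (hH : ContinuousOn H (univ ×ˢ K)) : Integrable (fun θ => ∫ z in K, H (θ, z)) ang :=
  (int_ang hK hH).integral_prod_left

lemma continuous_CN (N : ℕ) (j : ℤ) : Continuous (CN N j) := by
  unfold CN
  exact continuous_finset_sum _ fun k _ => (continuous_cc k j).const_smul ((k.factorial : ℝ)⁻¹ : ℝ)

namespace Setup

variable (S : Setup U g a h φ)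

include S

lemma Phi_cont {K : Set ℂ} (hKU : K ⊆ U) (q : ℤ) (y : ℂ) (N n : ℕ) :
    ContinuousOn (fun p : ℝ × ℂ => Phi h a φ N (uu p.1 ^ q * y) n p.2) (univ ×ˢ K) := by
  simp only [Phi_eq]
  refine continuousOn_finset_sum _ fun j _ => ContinuousOn.mul ?_ ?_
  · exact ((continuous_CN N j).comp (((continuous_uu_zpow q).comp continuous_fst).mul
      continuous_const)).continuousOn
  · exact (((S.tame_E j).smooth n).continuousOn.mono hKU).comp continuousOn_snd fun p hp => hp.2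

/-- the displaced points stay close -/
lemma seg_mem {K : Set ℂ} (hK : IsCompact K) {δ : ℝ} (hδ : 0 < δ)
    (hδU : Metric.cthickening (2 * δ) K ⊆ U) {q : ℤ} {y : ℂ} {ξ : ℕ → ℝ → ℂ → ℂ}
    (hξ : Disp h a K q y ξ) : ∀ᶠ n in atTop, ∀ θ, ∀ z ∈ K, ∀ t ∈ Icc (0 : ℝ) 1,
      z + t • ((h n : ℂ) * a z * ξ n θ z) ∈ Metric.cthickening δ K := by
  have hKU : K ⊆ U := (Metric.self_subset_cthickening K).trans hδU
  obtain ⟨A₀, hA₀⟩ := hK.exists_bound_of_continuousOn (S.ha.continuousOn.mono hKU)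
  have hl : Tendsto (fun n => h n * (|A₀| * (‖y‖ + 1))) atTop (𝓝 0) := by
    have := S.hlim.mul_const (|A₀| * (‖y‖ + 1))
    simpa using this
  filter_upwards [hξ.lim 1 one_pos, hl.eventually_lt_const hδ] with n hn1 hn2 s z hz t ht
  refine Metric.mem_cthickening_of_dist_le _ z δ K hz ?_
  rw [dist_eq_norm, add_sub_cancel_left, norm_smul, norm_mul, norm_mul, Complex.norm_real,
    Real.norm_of_nonneg (S.hpos n).le, Real.norm_of_nonneg ht.1]
  have h3 : ‖ξ n s z‖ ≤ ‖y‖ + 1 := by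
    have h4 := norm_add_le (ξ n s z - uu s ^ q * y) (uu s ^ q * y)
    rw [sub_add_cancel, norm_mul, norm_zpow, norm_uu, one_zpow, one_mul] at h4
    have := hn1 s z hz
    linarith
  have hh := (S.hpos n).le
  calc t * (h n * ‖a z‖ * ‖ξ n s z‖) ≤ 1 * (h n * |A₀| * (‖y‖ + 1)) := by
        have := (hA₀ z hz).trans (le_abs_self A₀)
        have := ht.2
        gcongr
    _ ≤ δ := by rw [one_mul, mul_assoc]; exact hn2.le

/-- the value of the wave at the displaced point, or `1` -/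
def fld (h : ℕ → ℝ) (a : ℂ → ℂ) (φ : ℕ → ℂ → ℂ) (b : Bool) (ξ : ℕ → ℝ → ℂ → ℂ) (n : ℕ) (θ : ℝ)
    (z : ℂ) : ℂ := if b then φ n (z + h n * a z * ξ n θ z) else 1

/-- its Taylor polynomial, or `1` -/
def tay (h : ℕ → ℝ) (a : ℂ → ℂ) (φ : ℕ → ℂ → ℂ) (b : Bool) (q : ℤ) (y : ℂ) (N n : ℕ) (θ : ℝ)
    (z : ℂ) : ℂ := if b then Phi h a φ N (uu θ ^ q * y) n z else 1

/-- **Rotation averages of products and of their Taylor polynomials.** -/
theorem rot_close {K : Set ℂ} (hK : IsCompact K) {δ : ℝ} (hδ : 0 < δ)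
    (hδU : Metric.cthickening (2 * δ) K ⊆ U) (q : ℤ) (b : Fin 4 → Bool) (y : Fin 4 → ℂ)
    (ξ : Fin 4 → ℕ → ℝ → ℂ → ℂ) (hξ : ∀ i, Disp h a K q (y i) (ξ i)) {ζ : ℂ → ℂ}
    (hζ : ContinuousOn ζ K) {ε : ℝ} (hε : 0 < ε) :
    ∃ N₀ : ℕ, ∀ N ≥ N₀, ∀ᶠ n in atTop,
      ‖(∫ θ, (∫ z in K, ζ z * (fld h a φ (b 0) (ξ 0) n θ z * fld h a φ (b 1) (ξ 1) n θ z
          * fld h a φ (b 2) (ξ 2) n θ z * fld h a φ (b 3) (ξ 3) n θ z)) ∂ang)
        - ∫ θ, (∫ z in K, ζ z * (tay h a φ (b 0) q (y 0) N n θ z * tay h a φ (b 1) q (y 1) N n θ z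
          * tay h a φ (b 2) q (y 2) N n θ z * tay h a φ (b 3) q (y 3) N n θ z)) ∂ang‖ ≤ ε := by
  have hKU : K ⊆ U := (Metric.self_subset_cthickening K).trans hδU
  set K₁ := Metric.cthickening δ K with hK₁def
  have hK₁ : IsCompact K₁ := hK.cthickening
  have hK₁U : K₁ ⊆ U := (Metric.cthickening_mono (by linarith) K).trans hδU
  obtain ⟨M₀, hM₀⟩ := S.tame.bdd4 K₁ hK₁ hK₁U
  obtain ⟨Z₀, hZ₀⟩ := hK.exists_bound_of_continuousOn hζ
  set B : ℝ := max (4 * |M₀|) ((volume K).toReal) with hB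
  have hB0 : 0 ≤ B := le_trans (by positivity) (le_max_left _ _)
  obtain ⟨ε₁, hε₁, hclose⟩ := prod4_close hK (abs_nonneg Z₀) hB0 hε
  have hT : ∀ i, ∃ N₀ : ℕ, ∀ N ≥ N₀, ∀ᶠ n in atTop, ∀ θ : ℝ, ∫ z in K,
      ‖φ n (z + h n * a z * ξ i n θ z) - Phi h a φ N (uu θ ^ q * y i) n z‖ ^ 4 ≤ ε₁ := by
    intro i
    obtain ⟨N₀, hN₀⟩ := S.taylor hK hδ hδU (norm_nonneg (y i)) hε₁
    refine ⟨N₀, fun N hN => hN₀ N hN ℝ (fun θ => uu θ ^ q * y i) (ξ i) (fun θ => ?_) (hξ i).lim ?_
      (hξ i).lip⟩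
    · rw [norm_mul, norm_zpow, norm_uu, one_zpow, one_mul]
    · filter_upwards [(hξ i).cont] with n hn θ
      exact hn.comp (by fun_prop : ContinuousOn (fun z : ℂ => (θ, z)) K)
        fun z hz => ⟨mem_univ _, hz⟩
  choose N₀ hN₀ using hT
  refine ⟨∑ i, N₀ i, fun N hN => ?_⟩
  have hNi : ∀ i, N₀ i ≤ N := fun i =>
    (Finset.single_le_sum (f := N₀) (fun _ _ => Nat.zero_le _) (Finset.mem_univ i)).trans hN
  have e1 : ∀ᶠ n in atTop, ∀ i : Fin 4, ∀ θ : ℝ, ∫ z in K,
      ‖φ n (z + h n * a z * ξ i n θ z) - Phi h a φ N (uu θ ^ q * y i) n z‖ ^ 4 ≤ ε₁ :=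
    eventually_all.2 fun i => hN₀ i N (hNi i)
  have e2 : ∀ᶠ n in atTop, ∀ i : Fin 4, ContinuousOn (fun p : ℝ × ℂ => ξ i n p.1 p.2) (univ ×ˢ K) :=
    eventually_all.2 fun i => (hξ i).cont
  have e3 : ∀ᶠ n in atTop, ∀ i : Fin 4, ∀ θ, ∀ z ∈ K, ∀ t ∈ Icc (0 : ℝ) 1,
      z + t • ((h n : ℂ) * a z * ξ i n θ z) ∈ K₁ :=
    eventually_all.2 fun i => S.seg_mem hK hδ hδU (hξ i)
  have e4 : ∀ᶠ n in atTop, ∀ i : Fin 4, ∀ θ, ∀ z ∈ K, ∀ w ∈ K,
      ‖h n * a z * ξ i n θ z - h n * a w * ξ i n θ w‖ ≤ (1 / 2) * ‖z - w‖ :=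
    eventually_all.2 fun i => (hξ i).lip
  filter_upwards [e1, e2, e3, e4, hM₀] with n n1 n2 n3 n4 n5
  -- joint continuity of the fields
  have hmem : ∀ i θ, ∀ z ∈ K, z + (h n : ℂ) * a z * ξ i n θ z ∈ K₁ := by
    intro i θ z hz
    have := n3 i θ z hz 1 (by simp)
    rwa [one_smul] at this
  have cdisp : ∀ i, ContinuousOn (fun p : ℝ × ℂ => p.2 + (h n : ℂ) * a p.2 * ξ i n p.1 p.2)
      (univ ×ˢ K) := fun i =>
    continuousOn_snd.add ((continuousOn_const.mul ((S.ha.continuousOn.mono hKU).comp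
      continuousOn_snd fun p hp => hp.2)).mul (n2 i))
  have cF : ∀ i, ContinuousOn (fun p : ℝ × ℂ => fld h a φ (b i) (ξ i) n p.1 p.2) (univ ×ˢ K) := by
    intro i
    unfold fld
    cases b i with
    | false => simpa using continuousOn_const
    | true =>
      simp only [if_true]
      exact ((S.tame.smooth n).continuousOn.mono hK₁U).comp (cdisp i)
        fun p hp => hmem i p.1 p.2 hp.2
  have cG : ∀ i, ContinuousOn (fun p : ℝ × ℂ => tay h a φ (b i) q (y i) N n p.1 p.2)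
      (univ ×ˢ K) := by
    intro i
    unfold tay
    cases b i with
    | false => simpa using continuousOn_const
    | true =>
      simp only [if_true]
      exact S.Phi_cont hKU q (y i) N n
  have cζ : ContinuousOn (fun p : ℝ × ℂ => ζ p.2) (univ ×ˢ K) :=
    hζ.comp continuousOn_snd fun p hp => hp.2
  have sec : ∀ (H : ℝ × ℂ → ℂ), ContinuousOn H (univ ×ˢ K) → ∀ θ : ℝ,
      ContinuousOn (fun z => H (θ, z)) K := fun H hH θ =>
    hH.comp (by fun_prop : ContinuousOn (fun z : ℂ => (θ, z)) K) fun z hz => ⟨mem_univ _, hz⟩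
  have iF : Integrable (fun θ => ∫ z in K, ζ z * (fld h a φ (b 0) (ξ 0) n θ z
      * fld h a φ (b 1) (ξ 1) n θ z * fld h a φ (b 2) (ξ 2) n θ z * fld h a φ (b 3) (ξ 3) n θ z))
      ang := int_ang_left hK (cζ.mul ((((cF 0).mul (cF 1)).mul (cF 2)).mul (cF 3)))
  have iG : Integrable (fun θ => ∫ z in K, ζ z * (tay h a φ (b 0) q (y 0) N n θ z
      * tay h a φ (b 1) q (y 1) N n θ z * tay h a φ (b 2) q (y 2) N n θ z
      * tay h a φ (b 3) q (y 3) N n θ z))
      ang := int_ang_left hK (cζ.mul ((((cG 0).mul (cG 1)).mul (cG 2)).mul (cG 3)))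
  have main : ∀ θ : ℝ, ‖(∫ z in K, ζ z * (fld h a φ (b 0) (ξ 0) n θ z * fld h a φ (b 1) (ξ 1) n θ z
          * fld h a φ (b 2) (ξ 2) n θ z * fld h a φ (b 3) (ξ 3) n θ z))
        - ∫ z in K, ζ z * (tay h a φ (b 0) q (y 0) N n θ z * tay h a φ (b 1) q (y 1) N n θ z
          * tay h a φ (b 2) q (y 2) N n θ z * tay h a φ (b 3) q (y 3) N n θ z)‖ ≤ ε := by
    intro θ
    refine hclose (fun i z => fld h a φ (b i) (ξ i) n θ z)
      (fun i z => tay h a φ (b i) q (y i) N n θ z) (fun i => sec _ (cF i) θ)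
      (fun i => sec _ (cG i) θ) (fun i => ?_) (fun i => ?_) ζ hζ
      (fun z hz => (hZ₀ z hz).trans (le_abs_self Z₀))
    · unfold fld
      cases b i with
      | false =>
        simp only [Bool.false_eq_true, if_false, norm_one, one_pow]
        rw [integral_const, smul_eq_mul, mul_one, measureReal_restrict_apply_univ]
        exact le_max_right _ _
      | true =>
        simp only [if_true]
        refine le_trans ?_ (le_max_left _ _)
        have hexp := expand_of_lip (v := fun z => (h n : ℂ) * a z * ξ i n θ z) (n4 i θ)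
          (t := 1) (by simp)
        simp only [one_smul] at hexp
        have := integral_comp_le hK hK₁ hexp (fun z hz => hmem i θ z hz) (sec _ (cdisp i) θ)
          (f := fun z => ‖φ n z‖ ^ 4)
          (((S.tame.smooth n).continuousOn.mono hK₁U).norm.pow 4) (fun z _ => by positivity)
        refine this.trans ?_
        have := n5.trans (le_abs_self M₀)
        linarith
    · unfold fld tay
      cases b i with
      | false =>
        simp only [Bool.false_eq_true, if_false, sub_self, norm_zero]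
        simpa using hε₁.le
      | true =>
        simp only [if_true]
        exact n1 i θ
  rw [← integral_sub iF iG]
  calc _ ≤ ∫ θ : ℝ, ε ∂ang := norm_integral_le_of_norm_le (integrable_const _)
        (Eventually.of_forall fun θ => main θ)
    _ = ε := by simp

/-- **The rotation average of the products of the Taylor polynomials.** -/
theorem rot_expand {K : Set ℂ} (hK : IsCompact K) (hKU : K ⊆ U) {q : ℤ} (hq : q ≠ 0) {k : ℕ}
    (y : Fin k → ℂ) {ζ : ℂ → ℂ} (hζ : ContinuousOn ζ K) (N n : ℕ) :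
    ∫ θ, (∫ z in K, ζ z * ∏ i, Phi h a φ N (uu θ ^ q * y i) n z) ∂ang
      = ∑ p ∈ Fintype.piFinset (fun _ : Fin k => Finset.Icc (-(N : ℤ)) N),
        (∏ i, CN N (p i) (y i)) * ((if ∑ i, p i = 0 then 1 else 0)
          * ∫ z in K, ζ z * ∏ i, E h a φ (p i) n z) := by
  set s := Fintype.piFinset (fun _ : Fin k => Finset.Icc (-(N : ℤ)) N) with hs
  have hE : ∀ p : Fin k → ℤ, IntegrableOn (fun z => ζ z * ∏ i, E h a φ (p i) n z) K := by
    intro p
    refine ContinuousOn.integrableOn_compact hK ?_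
    exact hζ.mul (continuousOn_finset_prod _ fun i _ =>
      ((S.tame_E (p i)).smooth n).continuousOn.mono hKU)
  have e1 : ∀ θ : ℝ, ∫ z in K, ζ z * ∏ i, Phi h a φ N (uu θ ^ q * y i) n z
      = ∑ p ∈ s, ((uu θ ^ q) ^ (∑ i, p i)) * ((∏ i, CN N (p i) (y i))
          * ∫ z in K, ζ z * ∏ i, E h a φ (p i) n z) := by
    intro θ
    have hu : ‖uu θ ^ q‖ = 1 := by rw [norm_zpow, norm_uu, one_zpow]
    have hu0 : uu θ ^ q ≠ 0 := zpow_ne_zero _ (uu_ne θ)
    have e2 : ∀ z, ζ z * ∏ i, Phi h a φ N (uu θ ^ q * y i) n z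
        = ∑ p ∈ s, ((uu θ ^ q) ^ (∑ i, p i) * ∏ i, CN N (p i) (y i))
          * (ζ z * ∏ i, E h a φ (p i) n z) := by
      intro z
      have e3 : ∏ i, Phi h a φ N (uu θ ^ q * y i) n z = ∑ p ∈ s,
          ∏ i, ((uu θ ^ q) ^ (p i) * CN N (p i) (y i) * E h a φ (p i) n z) := by
        rw [hs, ← Finset.prod_univ_sum (fun _ : Fin k => Finset.Icc (-(N : ℤ)) N)
          (fun i j => (uu θ ^ q) ^ j * CN N j (y i) * E h a φ j n z)]
        refine Finset.prod_congr rfl fun i _ => ?_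
        rw [Phi_eq]
        exact Finset.sum_congr rfl fun j _ => by rw [CN_rot N hu]
      rw [e3, Finset.mul_sum]
      refine Finset.sum_congr rfl fun p _ => ?_
      rw [Finset.prod_mul_distrib, Finset.prod_mul_distrib]
      have e4 : ∏ i, (uu θ ^ q) ^ (p i) = (uu θ ^ q) ^ (∑ i, p i) := by
        induction (Finset.univ : Finset (Fin k)) using Finset.induction_on with
        | empty => simp
        | insert i t hi ih => rw [Finset.prod_insert hi, Finset.sum_insert hi, zpow_add₀ hu0, ih]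
      rw [e4]; ring
    simp only [e2]
    rw [integral_finset_sum _ fun p _ => (hE p).const_mul _]
    refine Finset.sum_congr rfl fun p _ => ?_
    rw [integral_const_mul]; ring
  simp only [e1]
  rw [integral_finset_sum]
  · refine Finset.sum_congr rfl fun p _ => ?_
    rw [integral_mul_const, ang_zpow_mul hq]
    ring
  · intro p _
    refine Integrable.mul_const ?_ _
    simp only [← zpow_mul]
    refine Integrable.of_bound (continuous_uu_zpow _).aestronglyMeasurable 1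
      (Eventually.of_forall fun θ => ?_)
    rw [norm_zpow, norm_uu, one_zpow]

end Setup

/-- the passage to the limit -/
theorem lim_combine {X : ℕ → ℂ} {T : ℕ → ℕ → ℂ} {W₁ W₂ : ℕ → ℂ} {α β : ℕ → ℂ} {V₁ V₂ : ℂ} {C : ℝ}
    (h1 : ∀ ε > 0, ∃ N₀ : ℕ, ∀ N ≥ N₀, ∀ᶠ n in atTop, ‖X n - T N n‖ ≤ ε)
    (h2 : ∀ N, Tendsto (fun n => T N n - (α n * W₁ N + β n * W₂ N)) atTop (𝓝 0))
    (hW₁ : Tendsto W₁ atTop (𝓝 V₁)) (hW₂ : Tendsto W₂ atTop (𝓝 V₂))
    (hα : ∀ᶠ n in atTop, ‖α n‖ ≤ C) (hβ : ∀ᶠ n in atTop, ‖β n‖ ≤ C) :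
    Tendsto (fun n => X n - (α n * V₁ + β n * V₂)) atTop (𝓝 0) := by
  rw [Metric.tendsto_nhds]
  intro ε hε
  obtain ⟨N₀, hN₀⟩ := h1 (ε / 4) (by positivity)
  set C' : ℝ := |C| + 1 with hC'
  have hC'0 : 0 < C' := by (clear * -; positivity)
  have t1 : ∀ᶠ N in atTop, ‖W₁ N - V₁‖ < ε / (8 * C') := by
    have := (tendsto_iff_norm_sub_tendsto_zero.1 hW₁).eventually_lt_const
      (show 0 < ε / (8 * C') by positivity)
    exact this
  have t2 : ∀ᶠ N in atTop, ‖W₂ N - V₂‖ < ε / (8 * C') := by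
    have := (tendsto_iff_norm_sub_tendsto_zero.1 hW₂).eventually_lt_const
      (show 0 < ε / (8 * C') by positivity)
    exact this
  obtain ⟨N, hN1, hN2, hN3⟩ := ((eventually_ge_atTop N₀).and (t1.and t2)).exists
  have t3 := (tendsto_iff_norm_sub_tendsto_zero.1 (h2 N)).eventually_lt_const
    (show 0 < ε / 4 by positivity)
  filter_upwards [hN₀ N hN1, t3, hα, hβ] with n n1 n2 n3 n4
  rw [dist_zero_right]
  rw [sub_zero] at n2
  have e : X n - (α n * V₁ + β n * V₂) = (X n - T N n) + (T N n - (α n * W₁ N + β n * W₂ N))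
      + (α n * (W₁ N - V₁) + β n * (W₂ N - V₂)) := by ring
  rw [e]
  have hc : ∀ x : ℂ, ‖x‖ ≤ C → ‖x‖ ≤ C' := fun x hx => by
    have := le_abs_self C
    linarith only [hx, this]
  have b1 : ‖α n * (W₁ N - V₁)‖ ≤ C' * (ε / (8 * C')) := by
    rw [norm_mul]
    exact mul_le_mul (hc _ n3) hN2.le (norm_nonneg _) hC'0.le
  have b2 : ‖β n * (W₂ N - V₂)‖ ≤ C' * (ε / (8 * C')) := by
    rw [norm_mul]
    exact mul_le_mul (hc _ n4) hN3.le (norm_nonneg _) hC'0.le
  have b3 : C' * (ε / (8 * C')) = ε / 8 := by field_simp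
  rw [b3] at b1 b2
  calc _ ≤ ‖X n - T N n‖ + ‖T N n - (α n * W₁ N + β n * W₂ N)‖
        + (‖α n * (W₁ N - V₁)‖ + ‖β n * (W₂ N - V₂)‖) :=
        (norm_add_le _ _).trans (add_le_add (norm_add_le _ _) (norm_add_le _ _))
    _ < ε := by linarith only [hε, n1, n2, b1, b2]

end

end QE


end

section

/-!
The local form of the four-point formula.
-/

open Complex MeasureTheory Filter Topology Set
open scoped ContDiff

namespace QE

noncomputable section

variable {U : Set ℂ} {h : ℕ → ℝ} {a g : ℂ → ℂ} {φ : ℕ → ℂ → ℂ}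

/-- the Gaussian correlation -/
def wick (y : Fin 4 → ℂ) : ℝ :=
  Berry.waveK (y 0 - y 1) * Berry.waveK (y 2 - y 3) + Berry.waveK (y 0 - y 2) * Berry.waveK (y 1 - y 3)
    + Berry.waveK (y 0 - y 3) * Berry.waveK (y 1 - y 2)

/-- the correlation of the defect -/
def defc (y : Fin 4 → ℂ) : ℝ :=
  (1 / 3) * (Berry.waveK (y 0 + y 1 - y 2 - y 3) + Berry.waveK (y 0 + y 2 - y 1 - y 3)
    + Berry.waveK (y 0 + y 3 - y 1 - y 2))

lemma neg_one_zpow_eq (a b : ℤ) : ((-1 : ℂ)) ^ a * (-1) ^ b = if (a - b) % 2 = 0 then 1 else -1 := by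
  rw [← zpow_add₀ (by norm_num)]
  split_ifs with h
  · exact Even.neg_one_zpow (by rw [Int.even_iff]; omega)
  · exact Odd.neg_one_zpow (by rw [Int.odd_iff]; omega)

lemma pat_eq {a b c d : ℤ} (hs : a + b + c + d = 0) : pat a b c d
    = (1 / 3) * ((-1) ^ a * (-1) ^ b + (-1) ^ a * (-1) ^ c + (-1) ^ a * (-1) ^ d) := by
  rw [neg_one_zpow_eq, neg_one_zpow_eq, neg_one_zpow_eq]
  unfold pat
  split_ifs with h1 h2 h3 h4 h5 h6 <;> first | omega | norm_num

/-- model sum with signs, one angle -/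
lemma model_one (σ y : Fin 4 → ℂ) (hσ : ∀ i, ‖σ i‖ = 1) :
    Tendsto (fun N : ℕ => ∑ p ∈ Fintype.piFinset (fun _ : Fin 4 => Finset.Icc (-(N : ℤ)) N),
      (∏ i, CN N (p i) (y i)) * ((∏ i, σ i ^ p i) * if ∑ i, p i = 0 then 1 else 0)) atTop
      (𝓝 (Berry.waveK (∑ i, σ i * y i) : ℂ)) := by
  have h1 := tendsto_model ang (k := 4) (fun _ t => t) (fun _ => continuous_id)
    (fun i => σ i * y i)
  have e1 : ∀ t : ℝ, ∏ i, ee (σ i * y i) (uu t) = ee (∑ i, σ i * y i) (uu t) := by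
    intro t
    rw [Fin.prod_univ_four, Fin.sum_univ_four, ee_add, ee_add, ee_add]
  simp only [e1] at h1
  rw [int_ee] at h1
  refine h1.congr fun N => Finset.sum_congr rfl fun p _ => ?_
  have e2 : ∀ t : ℝ, ∏ i, uu t ^ p i = uu t ^ (∑ i, p i) := by
    intro t
    rw [Fin.prod_univ_four, Fin.sum_univ_four, zpow_add₀ (uu_ne t), zpow_add₀ (uu_ne t),
      zpow_add₀ (uu_ne t)]
  simp only [e2]
  rw [ang_zpow]
  have e3 : ∏ i, CN N (p i) (σ i * y i) = (∏ i, CN N (p i) (y i)) * ∏ i, σ i ^ p i := by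
    rw [← Finset.prod_mul_distrib]
    exact Finset.prod_congr rfl fun i _ => by rw [CN_rot N (hσ i)]; ring
  rw [e3, mul_assoc]

/-- model sum with signs, two angles -/
lemma model_two (c : Fin 4 → Bool) (σ y : Fin 4 → ℂ) (hσ : ∀ i, ‖σ i‖ = 1) :
    Tendsto (fun N : ℕ => ∑ p ∈ Fintype.piFinset (fun _ : Fin 4 => Finset.Icc (-(N : ℤ)) N),
      (∏ i, CN N (p i) (y i)) * ((∏ i, σ i ^ p i) *
        ((if ∑ i, (if c i then p i else 0) = 0 then 1 else 0)
          * (if ∑ i, (if c i then 0 else p i) = 0 then 1 else 0)))) atTop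
      (𝓝 ((Berry.waveK (∑ i, if c i then σ i * y i else 0) : ℂ)
        * (Berry.waveK (∑ i, if c i then 0 else σ i * y i) : ℂ))) := by
  have h1 := tendsto_model (ang.prod ang) (k := 4)
    (fun i (o : ℝ × ℝ) => if c i then o.1 else o.2) (fun i => by
      cases c i with
      | true => simpa using continuous_fst
      | false => simpa using continuous_snd)
    (fun i => σ i * y i)
  have ee0 : ∀ w, ee 0 w = 1 := by intro w; simp [ee]
  have e1 : ∀ o : ℝ × ℝ, ∏ i, ee (σ i * y i) (uu (if c i then o.1 else o.2))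
      = ee (∑ i, if c i then σ i * y i else 0) (uu o.1)
        * ee (∑ i, if c i then 0 else σ i * y i) (uu o.2) := by
    intro o
    have e0 : ∀ i, ee (σ i * y i) (uu (if c i then o.1 else o.2))
        = ee (if c i then σ i * y i else 0) (uu o.1) * ee (if c i then 0 else σ i * y i) (uu o.2) := by
      intro i
      cases c i with
      | true => simp [ee0]
      | false => simp [ee0]
    simp only [e0]
    rw [Finset.prod_mul_distrib, Fin.prod_univ_four, Fin.prod_univ_four, Fin.sum_univ_four,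
      Fin.sum_univ_four, ee_add, ee_add, ee_add, ee_add, ee_add, ee_add]
  simp only [e1] at h1
  rw [integral_prod_mul (fun t => ee (∑ i, if c i then σ i * y i else 0) (uu t))
    (fun t => ee (∑ i, if c i then 0 else σ i * y i) (uu t)), int_ee, int_ee] at h1
  refine h1.congr fun N => Finset.sum_congr rfl fun p _ => ?_
  have e2 : ∀ o : ℝ × ℝ, ∏ i, uu (if c i then o.1 else o.2) ^ p i
      = uu o.1 ^ (∑ i, if c i then p i else 0) * uu o.2 ^ (∑ i, if c i then 0 else p i) := by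
    intro o
    have e0 : ∀ i, uu (if c i then o.1 else o.2) ^ p i
        = uu o.1 ^ (if c i then p i else 0) * uu o.2 ^ (if c i then 0 else p i) := by
      intro i
      cases c i with
      | true => simp
      | false => simp
    simp only [e0]
    rw [Finset.prod_mul_distrib, Fin.prod_univ_four, Fin.prod_univ_four, Fin.sum_univ_four,
      Fin.sum_univ_four, zpow_add₀ (uu_ne _), zpow_add₀ (uu_ne _), zpow_add₀ (uu_ne _),
      zpow_add₀ (uu_ne _), zpow_add₀ (uu_ne _), zpow_add₀ (uu_ne _)]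
  simp only [e2]
  rw [integral_prod_mul (fun t => uu t ^ (∑ i, if c i then p i else 0))
    (fun t => uu t ^ (∑ i, if c i then 0 else p i)), ang_zpow, ang_zpow]
  have e3 : ∏ i, CN N (p i) (σ i * y i) = (∏ i, CN N (p i) (y i)) * ∏ i, σ i ^ p i := by
    rw [← Finset.prod_mul_distrib]
    exact Finset.prod_congr rfl fun i _ => by rw [CN_rot N (hσ i)]; ring
  rw [e3, mul_assoc]

/-- the Gaussian part of the model -/
lemma model_wick (y : Fin 4 → ℂ) :
    Tendsto (fun N : ℕ => ∑ p ∈ Fintype.piFinset (fun _ : Fin 4 => Finset.Icc (-(N : ℤ)) N),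
      (∏ i, CN N (p i) (y i)) * ((if ∑ i, p i = 0 then 1 else 0) * G (p 0) (p 1) (p 2) (p 3))) atTop
      (𝓝 (wick y : ℂ)) := by
  have n1 : ∀ i : Fin 4, ‖(![-1, 1, -1, 1] : Fin 4 → ℂ) i‖ = 1 := by intro i; fin_cases i <;> simp
  have n2 : ∀ i : Fin 4, ‖(![-1, -1, 1, 1] : Fin 4 → ℂ) i‖ = 1 := by intro i; fin_cases i <;> simp
  have m1 := model_two ![true, true, false, false] ![-1, 1, -1, 1] y n1
  have m2 := model_two ![true, false, true, false] ![-1, -1, 1, 1] y n2
  have m3 := model_two ![true, false, false, true] ![-1, -1, 1, 1] y n2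
  have m := (m1.add m2).add m3
  have ev : (Berry.waveK (∑ i, if (![true, true, false, false] : Fin 4 → Bool) i then
        (![-1, 1, -1, 1] : Fin 4 → ℂ) i * y i else 0) : ℂ)
      * (Berry.waveK (∑ i, if (![true, true, false, false] : Fin 4 → Bool) i then 0 else
        (![-1, 1, -1, 1] : Fin 4 → ℂ) i * y i) : ℂ)
      + (Berry.waveK (∑ i, if (![true, false, true, false] : Fin 4 → Bool) i then
        (![-1, -1, 1, 1] : Fin 4 → ℂ) i * y i else 0) : ℂ)
      * (Berry.waveK (∑ i, if (![true, false, true, false] : Fin 4 → Bool) i then 0 else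
        (![-1, -1, 1, 1] : Fin 4 → ℂ) i * y i) : ℂ)
      + (Berry.waveK (∑ i, if (![true, false, false, true] : Fin 4 → Bool) i then
        (![-1, -1, 1, 1] : Fin 4 → ℂ) i * y i else 0) : ℂ)
      * (Berry.waveK (∑ i, if (![true, false, false, true] : Fin 4 → Bool) i then 0 else
        (![-1, -1, 1, 1] : Fin 4 → ℂ) i * y i) : ℂ) = (wick y : ℂ) := by
    have k1 : ∀ u v : ℂ, Berry.waveK (-1 * u + v) = Berry.waveK (u - v) := by
      intro u v
      rw [← Berry.waveK_neg]; congr 1; ring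
    simp only [Fin.sum_univ_four]
    simp only [Matrix.cons_val_zero, Matrix.cons_val_one, Matrix.cons_val, if_true,
      Bool.false_eq_true, if_false, add_zero, zero_add, one_mul, k1]
    unfold wick
    push_cast
    ring
  rw [ev] at m
  refine m.congr fun N => ?_
  rw [← Finset.sum_add_distrib, ← Finset.sum_add_distrib]
  refine Finset.sum_congr rfl fun p _ => ?_
  simp only [Fin.sum_univ_four, Fin.prod_univ_four]
  simp only [Matrix.cons_val_zero, Matrix.cons_val_one, Matrix.cons_val, if_true,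
    Bool.false_eq_true, if_false, add_zero, zero_add, one_zpow, mul_one, one_mul]
  unfold G P
  have key : ∀ A B : ℤ, ∀ (x : ℂ), p 0 + p 1 + p 2 + p 3 = A + B →
      x * ((if A = 0 then 1 else 0) * (if B = 0 then 1 else 0))
      = (if p 0 + p 1 + p 2 + p 3 = 0 then 1 else 0)
        * (x * ((if A = 0 then 1 else 0) * (if B = 0 then 1 else 0))) := by
    intro A B x hAB
    by_cases hA : A = 0
    · by_cases hB : B = 0
      · rw [if_pos (show p 0 + p 1 + p 2 + p 3 = 0 by omega), one_mul]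
      · simp [hB]
    · simp [hA]
  have r1 : ∀ (A B C D : ℤ) , p 0 + p 1 + p 2 + p 3 = (A + B) + (C + D) →
      (if p 0 + p 1 + p 2 + p 3 = 0 then 1 else 0)
        * ((if A + B = 0 then (-1 : ℂ) ^ A else 0) * (if C + D = 0 then (-1 : ℂ) ^ C else 0))
      = (-1) ^ A * (-1) ^ C * ((if A + B = 0 then 1 else 0) * (if C + D = 0 then 1 else 0)) := by
    intro A B C D h
    rw [key (A + B) (C + D) _ h]
    congr 1
    by_cases hA : A + B = 0
    · by_cases hB : C + D = 0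
      · simp [hA, hB]
      · simp [hB]
    · simp [hA]
  have a1 := r1 (p 0) (p 1) (p 2) (p 3) (by ring)
  have a2 := r1 (p 0) (p 2) (p 1) (p 3) (by ring)
  have a3 := r1 (p 0) (p 3) (p 1) (p 2) (by ring)
  linear_combination (-(CN N (p 0) (y 0) * CN N (p 1) (y 1) * CN N (p 2) (y 2)
    * CN N (p 3) (y 3))) * (a1 + a2 + a3)

/-- the defect part of the model -/
lemma model_defc (y : Fin 4 → ℂ) :
    Tendsto (fun N : ℕ => ∑ p ∈ Fintype.piFinset (fun _ : Fin 4 => Finset.Icc (-(N : ℤ)) N),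
      (∏ i, CN N (p i) (y i)) * ((if ∑ i, p i = 0 then 1 else 0) * pat (p 0) (p 1) (p 2) (p 3))) atTop
      (𝓝 (defc y : ℂ)) := by
  have n1 : ∀ i : Fin 4, ‖(![-1, -1, 1, 1] : Fin 4 → ℂ) i‖ = 1 := by intro i; fin_cases i <;> simp
  have n2 : ∀ i : Fin 4, ‖(![-1, 1, -1, 1] : Fin 4 → ℂ) i‖ = 1 := by intro i; fin_cases i <;> simp
  have n3 : ∀ i : Fin 4, ‖(![-1, 1, 1, -1] : Fin 4 → ℂ) i‖ = 1 := by intro i; fin_cases i <;> simp
  have m := (((model_one _ y n1).add (model_one _ y n2)).add (model_one _ y n3)).const_mul (1 / 3)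
  have ev : (1 / 3 : ℂ) * ((Berry.waveK (∑ i, (![-1, -1, 1, 1] : Fin 4 → ℂ) i * y i) : ℂ)
      + (Berry.waveK (∑ i, (![-1, 1, -1, 1] : Fin 4 → ℂ) i * y i) : ℂ)
      + (Berry.waveK (∑ i, (![-1, 1, 1, -1] : Fin 4 → ℂ) i * y i) : ℂ)) = (defc y : ℂ) := by
    have k1 : Berry.waveK (-1 * y 0 + -1 * y 1 + y 2 + y 3) = Berry.waveK (y 0 + y 1 - y 2 - y 3) := by
      rw [← Berry.waveK_neg]; congr 1; ring
    have k2 : Berry.waveK (-1 * y 0 + y 1 + -1 * y 2 + y 3) = Berry.waveK (y 0 + y 2 - y 1 - y 3) := by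
      rw [← Berry.waveK_neg]; congr 1; ring
    have k3 : Berry.waveK (-1 * y 0 + y 1 + y 2 + -1 * y 3) = Berry.waveK (y 0 + y 3 - y 1 - y 2) := by
      rw [← Berry.waveK_neg]; congr 1; ring
    simp only [Fin.sum_univ_four]
    simp only [Matrix.cons_val_zero, Matrix.cons_val_one, Matrix.cons_val, one_mul, k1, k2, k3]
    unfold defc
    push_cast
    ring
  rw [ev] at m
  refine m.congr fun N => ?_
  rw [← Finset.sum_add_distrib, ← Finset.sum_add_distrib, Finset.mul_sum]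
  refine Finset.sum_congr rfl fun p _ => ?_
  by_cases hp : ∑ i, p i = 0
  · simp only [if_pos hp, mul_one, one_mul]
    rw [Fin.sum_univ_four] at hp
    rw [pat_eq hp]
    simp only [Fin.prod_univ_four]
    simp only [Matrix.cons_val_zero, Matrix.cons_val_one, Matrix.cons_val, one_zpow, mul_one]
    ring
  · simp only [if_neg hp, mul_zero, zero_mul, add_zero]

namespace Setup

variable (S : Setup U g a h φ)

include S

/-- **The local four-point formula.** -/
theorem four_local (htwo : ∀ (j m : ℤ) (η : ℂ → ℂ), Test U η →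
      Tendsto (fun n => ∫ z, η z * (E h a φ j n z * E h a φ m n z)) atTop
      (𝓝 (P j m * ∫ z, η z))) {K : Set ℂ} (hK : IsCompact K) {δ : ℝ} (hδ : 0 < δ)
    (hδU : Metric.cthickening (2 * δ) K ⊆ U) {q : ℤ} (hq : q ≠ 0) (y : Fin 4 → ℂ)
    (ξ : Fin 4 → ℕ → ℝ → ℂ → ℂ) (hξ : ∀ i, Disp h a K q (y i) (ξ i)) {ζ : ℂ → ℂ}
    (hζ : Test U ζ) (hζK : tsupport ζ ⊆ K) :
    Tendsto (fun n => (∫ θ, (∫ z, ζ z * (φ n (z + h n * a z * ξ 0 n θ z)
        * φ n (z + h n * a z * ξ 1 n θ z) * φ n (z + h n * a z * ξ 2 n θ z)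
        * φ n (z + h n * a z * ξ 3 n θ z))) ∂ang)
      - ((∫ z, ζ z) * (wick y : ℂ)
        + ((∫ z, ζ z * (φ n z * φ n z * (φ n z * φ n z))) - 3 * ∫ z, ζ z) * (defc y : ℂ)))
      atTop (𝓝 0) := by
  have hKU : K ⊆ U := (Metric.self_subset_cthickening K).trans hδU
  have hset : ∀ f : ℂ → ℂ, ∫ z, ζ z * f z = ∫ z in K, ζ z * f z := by
    intro f
    rw [setIntegral_eq_integral_of_forall_compl_eq_zero]
    intro z hz
    rw [image_eq_zero_of_notMem_tsupport (fun hz' => hz (hζK hz')), zero_mul]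
  have hζc : ContinuousOn ζ K := hζ.smooth.continuous.continuousOn
  -- boundedness of the defect
  obtain ⟨C₁, hC₁⟩ := (S.bd2 0 0).test_mul (S.sm2 0 0) (S.bd2 0 0) (S.sm2 0 0) hζ
  have hκ : ∀ᶠ n in atTop, ‖(∫ z, ζ z * (φ n z * φ n z * (φ n z * φ n z))) - 3 * ∫ z, ζ z‖
      ≤ C₁ + ‖(3 : ℂ) * ∫ z, ζ z‖ := by
    filter_upwards [hC₁] with n hn
    exact (norm_sub_le _ _).trans (add_le_add hn le_rfl)
  refine lim_combine
    (X := fun n => ∫ θ, (∫ z, ζ z * (φ n (z + h n * a z * ξ 0 n θ z)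
        * φ n (z + h n * a z * ξ 1 n θ z) * φ n (z + h n * a z * ξ 2 n θ z)
        * φ n (z + h n * a z * ξ 3 n θ z))) ∂ang)
    (T := fun N n => ∑ p ∈ Fintype.piFinset (fun _ : Fin 4 => Finset.Icc (-(N : ℤ)) N),
        (∏ i, CN N (p i) (y i)) * ((if ∑ i, p i = 0 then 1 else 0)
          * ∫ z in K, ζ z * ∏ i, E h a φ (p i) n z))
    (α := fun _ => ∫ z, ζ z)
    (β := fun n => (∫ z, ζ z * (φ n z * φ n z * (φ n z * φ n z))) - 3 * ∫ z, ζ z)
    (C := max ‖∫ z, ζ z‖ (C₁ + ‖(3 : ℂ) * ∫ z, ζ z‖)) ?_ ?_ (model_wick y) (model_defc y)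
    (Eventually.of_forall fun n => le_max_left _ _)
    (hκ.mono fun n hn => hn.trans (le_max_right _ _))
  · intro ε hε
    obtain ⟨N₀, hN₀⟩ := S.rot_close hK hδ hδU q (fun _ => true) y ξ hξ hζc hε
    refine ⟨N₀, fun N hN => ?_⟩
    filter_upwards [hN₀ N hN] with n hn
    simp only [fld, tay, if_true] at hn
    have e1 := S.rot_expand hK hKU hq y hζc N n
    simp only [Fin.prod_univ_four] at e1
    rw [e1] at hn
    simp only [hset]
    simp only [Fin.prod_univ_four]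
    exact hn
  · intro N
    have h1 : ∀ p : Fin 4 → ℤ, Tendsto (fun n => (if ∑ i, p i = 0 then 1 else 0)
        * (∫ z in K, ζ z * ∏ i, E h a φ (p i) n z)
        - ((∫ z, ζ z) * ((if ∑ i, p i = 0 then 1 else 0) * G (p 0) (p 1) (p 2) (p 3))
          + ((∫ z, ζ z * (φ n z * φ n z * (φ n z * φ n z))) - 3 * ∫ z, ζ z)
            * ((if ∑ i, p i = 0 then 1 else 0) * pat (p 0) (p 1) (p 2) (p 3)))) atTop (𝓝 0) := by
      intro p
      by_cases hp : ∑ i, p i = 0
      · simp only [if_pos hp, one_mul]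
        rw [Fin.sum_univ_four] at hp
        refine (S.jets_four htwo hζ (p 0) (p 1) (p 2) (p 3) hp).congr fun n => ?_
        rw [hset (fun z => E h a φ (p 0) n z * E h a φ (p 1) n z
          * (E h a φ (p 2) n z * E h a φ (p 3) n z))]
        have e : ∫ z in K, ζ z * ∏ i, E h a φ (p i) n z = ∫ z in K, ζ z
            * (E h a φ (p 0) n z * E h a φ (p 1) n z
              * (E h a φ (p 2) n z * E h a φ (p 3) n z)) := by
          congr 1; funext z
          rw [Fin.prod_univ_four]; ring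
        rw [e]; ring
      · simp only [if_neg hp, zero_mul, mul_zero, add_zero, sub_zero]
        exact tendsto_const_nhds
    have h2 := tendsto_finset_sum (Fintype.piFinset (fun _ : Fin 4 => Finset.Icc (-(N : ℤ)) N))
      fun p _ => (h1 p).const_mul (∏ i, CN N (p i) (y i))
    simp only [mul_zero, Finset.sum_const_zero] at h2
    refine h2.congr fun n => ?_
    rw [Finset.mul_sum, Finset.mul_sum, ← Finset.sum_add_distrib, ← Finset.sum_sub_distrib]
    exact Finset.sum_congr rfl fun p _ => by ring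

end Setup

end

end QE


end

section

/-!
The local form of the formulas for one, two and three points.
-/

open Complex MeasureTheory Filter Topology Set
open scoped ContDiff

namespace QE

noncomputable section

variable {U : Set ℂ} {h : ℕ → ℝ} {a g : ℂ → ℂ} {φ : ℕ → ℂ → ℂ}

/-- the two-point model -/
lemma model_pair (y : Fin 2 → ℂ) :
    Tendsto (fun N : ℕ => ∑ p ∈ Fintype.piFinset (fun _ : Fin 2 => Finset.Icc (-(N : ℤ)) N),
      (∏ i, CN N (p i) (y i)) * ((if ∑ i, p i = 0 then 1 else 0) * P (p 0) (p 1))) atTop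
      (𝓝 (Berry.waveK (y 0 - y 1) : ℂ)) := by
  have hσ : ∀ i : Fin 2, ‖(![-1, 1] : Fin 2 → ℂ) i‖ = 1 := by intro i; fin_cases i <;> simp
  have h1 := tendsto_model ang (k := 2) (fun _ t => t) (fun _ => continuous_id)
    (fun i => (![-1, 1] : Fin 2 → ℂ) i * y i)
  have e1 : ∀ t : ℝ, ∏ i, ee ((![-1, 1] : Fin 2 → ℂ) i * y i) (uu t)
      = ee (∑ i, (![-1, 1] : Fin 2 → ℂ) i * y i) (uu t) := by
    intro t
    rw [Fin.prod_univ_two, Fin.sum_univ_two, ee_add]
  simp only [e1] at h1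
  rw [int_ee] at h1
  have ev : Berry.waveK (∑ i, (![-1, 1] : Fin 2 → ℂ) i * y i) = Berry.waveK (y 0 - y 1) := by
    rw [Fin.sum_univ_two, ← Berry.waveK_neg]
    congr 1
    simp only [Matrix.cons_val_zero, Matrix.cons_val_one]
    ring
  rw [ev] at h1
  refine h1.congr fun N => Finset.sum_congr rfl fun p _ => ?_
  have e2 : ∀ t : ℝ, ∏ i, uu t ^ p i = uu t ^ (∑ i, p i) := by
    intro t
    rw [Fin.prod_univ_two, Fin.sum_univ_two, zpow_add₀ (uu_ne t)]
  simp only [e2]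
  rw [ang_zpow]
  have e3 : ∏ i, CN N (p i) ((![-1, 1] : Fin 2 → ℂ) i * y i)
      = (∏ i, CN N (p i) (y i)) * (-1) ^ (p 0) := by
    rw [Fin.prod_univ_two, Fin.prod_univ_two, CN_rot N (hσ 0), CN_rot N (hσ 1)]
    simp only [Matrix.cons_val_zero, Matrix.cons_val_one, one_zpow]
    ring
  rw [e3, mul_assoc]
  congr 1
  rw [Fin.sum_univ_two]
  unfold P
  by_cases hp : p 0 + p 1 = 0
  · simp [hp]
  · simp [hp]

namespace Setup

variable (S : Setup U g a h φ)

include S

/-- **The local two-point formula.** -/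
theorem two_local (htwo : ∀ (j m : ℤ) (η : ℂ → ℂ), Test U η →
      Tendsto (fun n => ∫ z, η z * (E h a φ j n z * E h a φ m n z)) atTop
      (𝓝 (P j m * ∫ z, η z))) {K : Set ℂ} (hK : IsCompact K) {δ : ℝ} (hδ : 0 < δ)
    (hδU : Metric.cthickening (2 * δ) K ⊆ U) {q : ℤ} (hq : q ≠ 0) (y : Fin 2 → ℂ)
    (ξ : Fin 2 → ℕ → ℝ → ℂ → ℂ) (hξ : ∀ i, Disp h a K q (y i) (ξ i)) {ζ : ℂ → ℂ}
    (hζ : Test U ζ) (hζK : tsupport ζ ⊆ K) :
    Tendsto (fun n => (∫ θ, (∫ z, ζ z * (φ n (z + h n * a z * ξ 0 n θ z)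
        * φ n (z + h n * a z * ξ 1 n θ z))) ∂ang)) atTop
      (𝓝 ((∫ z, ζ z) * (Berry.waveK (y 0 - y 1) : ℂ))) := by
  have hKU : K ⊆ U := (Metric.self_subset_cthickening K).trans hδU
  have hset : ∀ f : ℂ → ℂ, ∫ z, ζ z * f z = ∫ z in K, ζ z * f z := by
    intro f
    rw [setIntegral_eq_integral_of_forall_compl_eq_zero]
    intro z hz
    rw [image_eq_zero_of_notMem_tsupport (fun hz' => hz (hζK hz')), zero_mul]
  have hζc : ContinuousOn ζ K := hζ.smooth.continuous.continuousOn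
  have key := lim_combine
    (X := fun n => ∫ θ, (∫ z, ζ z * (φ n (z + h n * a z * ξ 0 n θ z)
        * φ n (z + h n * a z * ξ 1 n θ z))) ∂ang)
    (T := fun N n => ∑ p ∈ Fintype.piFinset (fun _ : Fin 2 => Finset.Icc (-(N : ℤ)) N),
        (∏ i, CN N (p i) (y i)) * ((if ∑ i, p i = 0 then 1 else 0)
          * ∫ z in K, ζ z * ∏ i, E h a φ (p i) n z))
    (α := fun _ => ∫ z, ζ z) (β := fun _ => 0) (W₂ := fun _ => 0) (V₂ := 0)
    (C := ‖∫ z, ζ z‖) ?_ ?_ (model_pair y) tendsto_const_nhds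
    (Eventually.of_forall fun n => le_rfl) (Eventually.of_forall fun n => by simp)
  · have := key.add_const ((∫ z, ζ z) * (Berry.waveK (y 0 - y 1) : ℂ))
    rw [zero_add] at this
    refine this.congr fun n => ?_
    beta_reduce
    ring
  · intro ε hε
    have hone : Disp h a K q 0 (fun _ _ _ => 0) := by
      refine ⟨fun ε hε => Eventually.of_forall fun n θ z _ => by simpa using hε.le,
        Eventually.of_forall fun n => continuousOn_const,
        Eventually.of_forall fun n θ z _ w _ => by simp⟩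
    obtain ⟨N₀, hN₀⟩ := S.rot_close hK hδ hδU q ![true, true, false, false] ![y 0, y 1, 0, 0]
      ![ξ 0, ξ 1, fun _ _ _ => 0, fun _ _ _ => 0] (fun i => by
        fin_cases i
        · exact hξ 0
        · exact hξ 1
        · exact hone
        · exact hone) hζc hε
    refine ⟨N₀, fun N hN => ?_⟩
    filter_upwards [hN₀ N hN] with n hn
    simp only [Matrix.cons_val_zero, Matrix.cons_val_one, Matrix.cons_val, fld, tay, if_true,
      Bool.false_eq_true, if_false, mul_one] at hn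
    have e1 := S.rot_expand hK hKU hq y hζc N n
    simp only [Fin.prod_univ_two] at e1
    rw [e1] at hn
    simp only [hset]
    simp only [Fin.prod_univ_two]
    exact hn
  · intro N
    have h1 : ∀ p : Fin 2 → ℤ, Tendsto (fun n => (if ∑ i, p i = 0 then 1 else 0)
        * (∫ z in K, ζ z * ∏ i, E h a φ (p i) n z)
        - ((∫ z, ζ z) * ((if ∑ i, p i = 0 then 1 else 0) * P (p 0) (p 1)))) atTop (𝓝 0) := by
      intro p
      have h2 := (htwo (p 0) (p 1) ζ hζ).sub_const (P (p 0) (p 1) * ∫ z, ζ z)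
      rw [sub_self] at h2
      have h3 := h2.const_mul (if ∑ i, p i = 0 then (1 : ℂ) else 0)
      rw [mul_zero] at h3
      refine h3.congr fun n => ?_
      rw [hset (fun z => E h a φ (p 0) n z * E h a φ (p 1) n z)]
      simp only [Fin.prod_univ_two]
      ring
    have h2 := tendsto_finset_sum (Fintype.piFinset (fun _ : Fin 2 => Finset.Icc (-(N : ℤ)) N))
      fun p _ => (h1 p).const_mul (∏ i, CN N (p i) (y i))
    simp only [mul_zero, Finset.sum_const_zero] at h2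
    refine h2.congr fun n => ?_
    rw [zero_mul, add_zero, Finset.mul_sum, ← Finset.sum_sub_distrib]
    exact Finset.sum_congr rfl fun p _ => by ring

/-- **The local three-point formula.** -/
theorem three_local (htwo : ∀ (j m : ℤ) (η : ℂ → ℂ), Test U η →
      Tendsto (fun n => ∫ z, η z * (E h a φ j n z * E h a φ m n z)) atTop
      (𝓝 (P j m * ∫ z, η z))) {K : Set ℂ} (hK : IsCompact K) {δ : ℝ} (hδ : 0 < δ)
    (hδU : Metric.cthickening (2 * δ) K ⊆ U) {q : ℤ} (hq : q ≠ 0) (y : Fin 3 → ℂ)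
    (ξ : Fin 3 → ℕ → ℝ → ℂ → ℂ) (hξ : ∀ i, Disp h a K q (y i) (ξ i)) {ζ : ℂ → ℂ}
    (hζ : Test U ζ) (hζK : tsupport ζ ⊆ K) :
    Tendsto (fun n => (∫ θ, (∫ z, ζ z * (φ n (z + h n * a z * ξ 0 n θ z)
        * φ n (z + h n * a z * ξ 1 n θ z) * φ n (z + h n * a z * ξ 2 n θ z))) ∂ang)) atTop
      (𝓝 0) := by
  have hKU : K ⊆ U := (Metric.self_subset_cthickening K).trans hδU
  have hset : ∀ f : ℂ → ℂ, ∫ z, ζ z * f z = ∫ z in K, ζ z * f z := by
    intro f
    rw [setIntegral_eq_integral_of_forall_compl_eq_zero]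
    intro z hz
    rw [image_eq_zero_of_notMem_tsupport (fun hz' => hz (hζK hz')), zero_mul]
  have hζc : ContinuousOn ζ K := hζ.smooth.continuous.continuousOn
  have key := lim_combine
    (X := fun n => ∫ θ, (∫ z, ζ z * (φ n (z + h n * a z * ξ 0 n θ z)
        * φ n (z + h n * a z * ξ 1 n θ z) * φ n (z + h n * a z * ξ 2 n θ z))) ∂ang)
    (T := fun N n => ∑ p ∈ Fintype.piFinset (fun _ : Fin 3 => Finset.Icc (-(N : ℤ)) N),
        (∏ i, CN N (p i) (y i)) * ((if ∑ i, p i = 0 then 1 else 0)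
          * ∫ z in K, ζ z * ∏ i, E h a φ (p i) n z))
    (α := fun _ => 0) (W₁ := fun _ => 0) (V₁ := 0) (β := fun _ => 0) (W₂ := fun _ => 0) (V₂ := 0)
    (C := 0) ?_ ?_ tendsto_const_nhds tendsto_const_nhds
    (Eventually.of_forall fun n => by simp) (Eventually.of_forall fun n => by simp)
  · refine key.congr fun n => ?_
    beta_reduce
    ring
  · intro ε hε
    have hone : Disp h a K q 0 (fun _ _ _ => 0) := by
      refine ⟨fun ε hε => Eventually.of_forall fun n θ z _ => by simpa using hε.le,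
        Eventually.of_forall fun n => continuousOn_const,
        Eventually.of_forall fun n θ z _ w _ => by simp⟩
    obtain ⟨N₀, hN₀⟩ := S.rot_close hK hδ hδU q ![true, true, true, false] ![y 0, y 1, y 2, 0]
      ![ξ 0, ξ 1, ξ 2, fun _ _ _ => 0] (fun i => by
        fin_cases i
        · exact hξ 0
        · exact hξ 1
        · exact hξ 2
        · exact hone) hζc hε
    refine ⟨N₀, fun N hN => ?_⟩
    filter_upwards [hN₀ N hN] with n hn
    simp only [Matrix.cons_val_zero, Matrix.cons_val_one, Matrix.cons_val, fld, tay, if_true,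
      Bool.false_eq_true, if_false, mul_one] at hn
    have e1 := S.rot_expand hK hKU hq y hζc N n
    simp only [Fin.prod_univ_three] at e1
    rw [e1] at hn
    simp only [hset]
    simp only [Fin.prod_univ_three]
    exact hn
  · intro N
    have h1 : ∀ p : Fin 3 → ℤ, Tendsto (fun n => (if ∑ i, p i = 0 then 1 else 0)
        * (∫ z in K, ζ z * ∏ i, E h a φ (p i) n z)) atTop (𝓝 0) := by
      intro p
      by_cases hp : ∑ i, p i = 0
      · simp only [if_pos hp, one_mul]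
        rw [Fin.sum_univ_three] at hp
        refine (S.jets_three htwo hζ (p 0) (p 1) (p 2) hp).congr fun n => ?_
        rw [hset (fun z => E h a φ (p 0) n z * E h a φ (p 1) n z * E h a φ (p 2) n z)]
        simp only [Fin.prod_univ_three]
      · simp only [if_neg hp, zero_mul]
        exact tendsto_const_nhds
    have h2 := tendsto_finset_sum (Fintype.piFinset (fun _ : Fin 3 => Finset.Icc (-(N : ℤ)) N))
      fun p _ => (h1 p).const_mul (∏ i, CN N (p i) (y i))
    simp only [mul_zero, Finset.sum_const_zero] at h2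
    refine h2.congr fun n => ?_
    rw [zero_mul, add_zero, sub_zero]

/-- the mean of an eigenfunction tends to zero -/
theorem mean_zero {ζ : ℂ → ℂ} (hζ : Test U ζ) :
    Tendsto (fun n => ∫ z, ζ z * φ n z) atTop (𝓝 0) := by
  -- `φ = - 4 h² a² ∂ ∂̄ φ`
  have ha2 : ContDiffOn ℝ ∞ (fun z => a z ^ 2) U := S.ha.pow 2
  have hT : Test U (fun z => ζ z * a z ^ 2) := hζ.mul S.op ha2
  have hT2 : Test U (dz (dzb (fun z => ζ z * a z ^ 2))) := hT.dzb.dz
  have hone : LBdd 2 U (fun _ _ => (1 : ℂ)) := by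
    intro K hK _
    exact ⟨∫ z in K, ‖(1 : ℂ)‖ ^ 2, Filter.Eventually.of_forall fun n => le_rfl⟩
  have h0 : LBdd 2 U φ := S.tame.bdd4.two_of_four S.tame.smooth
  have h1 := tendsto_h_test_mul S.hlim h0 S.tame.smooth hone (fun n => contDiffOn_const) hT2
  have h2 : Tendsto (fun n => (h n : ℂ)) atTop (𝓝 0) := by
    have := (continuous_ofReal.tendsto 0).comp S.hlim
    simpa [Function.comp_def] using this
  have h3 := ((h2.mul h1).const_mul (-4))
  simp only [mul_zero] at h3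
  refine h3.congr fun n => ?_
  have hd1 : ContDiffOn ℝ ∞ (dzb (φ n)) U := contDiffOn_dzb S.op (S.tame.smooth n)
  have e1 : ∫ z, (ζ z * a z ^ 2) * dz (dzb (φ n)) z
      = - ∫ z, dz (fun z => ζ z * a z ^ 2) z * dzb (φ n) z :=
    integral_mul_dz S.op hT hd1
  have e2 : ∫ z, dz (fun z => ζ z * a z ^ 2) z * dzb (φ n) z
      = - ∫ z, dzb (dz (fun z => ζ z * a z ^ 2)) z * φ n z :=
    integral_mul_dzb S.op hT.dz (S.tame.smooth n)
  have e3 : ∫ z, dzb (dz (fun z => ζ z * a z ^ 2)) z * φ n z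
      = ∫ z, dz (dzb (fun z => ζ z * a z ^ 2)) z * (φ n z * 1) := by
    congr 1; funext z
    rw [dz_dzb_comm (hT.smooth.contDiffAt.of_le (WithTop.coe_le_coe.2 le_top)), mul_one]
  have e4 : ∫ z, ζ z * φ n z = ∫ z, ζ z * (-4 * (h n : ℂ) ^ 2 * (a z ^ 2 * dz (dzb (φ n)) z)) := by
    refine hζ.integral_congr fun z hz => ?_
    have h5 := S.eig n z hz
    have h6 := S.ag z hz
    linear_combination (a z ^ 2) * h5 - φ n z * h6
  have e5 : ∫ z, ζ z * (-4 * (h n : ℂ) ^ 2 * (a z ^ 2 * dz (dzb (φ n)) z))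
      = -4 * (h n : ℂ) ^ 2 * ∫ z, (ζ z * a z ^ 2) * dz (dzb (φ n)) z := by
    rw [← integral_const_mul]
    congr 1; funext z; ring
  rw [e4, e5, e1, e2, e3]
  ring

/-- **The local one-point formula.** -/
theorem one_local {K : Set ℂ} (hK : IsCompact K) {δ : ℝ} (hδ : 0 < δ)
    (hδU : Metric.cthickening (2 * δ) K ⊆ U) {q : ℤ} (hq : q ≠ 0) (y : Fin 1 → ℂ)
    (ξ : Fin 1 → ℕ → ℝ → ℂ → ℂ) (hξ : ∀ i, Disp h a K q (y i) (ξ i)) {ζ : ℂ → ℂ}
    (hζ : Test U ζ) (hζK : tsupport ζ ⊆ K) :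
    Tendsto (fun n => (∫ θ, (∫ z, ζ z * φ n (z + h n * a z * ξ 0 n θ z)) ∂ang)) atTop
      (𝓝 0) := by
  have hKU : K ⊆ U := (Metric.self_subset_cthickening K).trans hδU
  have hset : ∀ f : ℂ → ℂ, ∫ z, ζ z * f z = ∫ z in K, ζ z * f z := by
    intro f
    rw [setIntegral_eq_integral_of_forall_compl_eq_zero]
    intro z hz
    rw [image_eq_zero_of_notMem_tsupport (fun hz' => hz (hζK hz')), zero_mul]
  have hζc : ContinuousOn ζ K := hζ.smooth.continuous.continuousOn
  have key := lim_combine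
    (X := fun n => ∫ θ, (∫ z, ζ z * φ n (z + h n * a z * ξ 0 n θ z)) ∂ang)
    (T := fun N n => ∑ p ∈ Fintype.piFinset (fun _ : Fin 1 => Finset.Icc (-(N : ℤ)) N),
        (∏ i, CN N (p i) (y i)) * ((if ∑ i, p i = 0 then 1 else 0)
          * ∫ z in K, ζ z * ∏ i, E h a φ (p i) n z))
    (α := fun _ => 0) (W₁ := fun _ => 0) (V₁ := 0) (β := fun _ => 0) (W₂ := fun _ => 0) (V₂ := 0)
    (C := 0) ?_ ?_ tendsto_const_nhds tendsto_const_nhds
    (Eventually.of_forall fun n => by simp) (Eventually.of_forall fun n => by simp)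
  · refine key.congr fun n => ?_
    beta_reduce
    ring
  · intro ε hε
    have hone : Disp h a K q 0 (fun _ _ _ => 0) := by
      refine ⟨fun ε hε => Eventually.of_forall fun n θ z _ => by simpa using hε.le,
        Eventually.of_forall fun n => continuousOn_const,
        Eventually.of_forall fun n θ z _ w _ => by simp⟩
    obtain ⟨N₀, hN₀⟩ := S.rot_close hK hδ hδU q ![true, false, false, false] ![y 0, 0, 0, 0]
      ![ξ 0, fun _ _ _ => 0, fun _ _ _ => 0, fun _ _ _ => 0] (fun i => by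
        fin_cases i
        · exact hξ 0
        · exact hone
        · exact hone
        · exact hone) hζc hε
    refine ⟨N₀, fun N hN => ?_⟩
    filter_upwards [hN₀ N hN] with n hn
    simp only [Matrix.cons_val_zero, Matrix.cons_val_one, Matrix.cons_val, fld, tay, if_true,
      Bool.false_eq_true, if_false, mul_one] at hn
    have e1 := S.rot_expand hK hKU hq y hζc N n
    simp only [Fin.prod_univ_one] at e1
    rw [e1] at hn
    simp only [hset]
    simp only [Fin.prod_univ_one]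
    exact hn
  · intro N
    have h1 : ∀ p : Fin 1 → ℤ, Tendsto (fun n => (if ∑ i, p i = 0 then 1 else 0)
        * (∫ z in K, ζ z * ∏ i, E h a φ (p i) n z)) atTop (𝓝 0) := by
      intro p
      by_cases hp : ∑ i, p i = 0
      · simp only [if_pos hp, one_mul]
        rw [Fin.sum_univ_one] at hp
        refine (S.mean_zero hζ).congr fun n => ?_
        rw [hset (fun z => φ n z)]
        simp only [Fin.prod_univ_one, hp]
        rfl
      · simp only [if_neg hp, zero_mul]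
        exact tendsto_const_nhds
    have h2 := tendsto_finset_sum (Fintype.piFinset (fun _ : Fin 1 => Finset.Icc (-(N : ℤ)) N))
      fun p _ => (h1 p).const_mul (∏ i, CN N (p i) (y i))
    simp only [mul_zero, Finset.sum_const_zero] at h2
    refine h2.congr fun n => ?_
    rw [zero_mul, add_zero, sub_zero]

end Setup

end

end QE


end

section

/-!
The local waves for a conformal metric are asymptotically translation invariant waves.
-/

open UpperHalfPlane MeasureTheory ProbabilityTheory MatrixGroups Filter Topology Set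
  InnerProductSpace Laplacian
open scoped ENNReal NNReal

namespace Berry

noncomputable section

variable {Γ : Subgroup SL(2, ℝ)} {ρ : ℍ → ℝ} {D : Set ℍ} {φ : ℕ → ℍ → ℝ} {m : ℕ → ℝ} {B : ℝ}

/-- equicontinuity of the averages of the local waves -/
lemma Dat.TF_equi [Countable Γ] (h : Dat Γ ρ D φ m B) {Φ : (Fin 4 → ℝ) → ℝ} {L : ℝ}
    (hΦ : Tst Φ L) (X : ℝ) {ε : ℝ} (hε : 0 < ε) : ∃ d > 0, ∀ᶠ n in atTop, ∀ x x' : Fin 4 → ℂ,
      (∀ j, ‖x j‖ ≤ X) → (∀ j, ‖x' j‖ ≤ X) → (∀ j, ‖x' j - x j‖ < d) →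
        |TF D ρ φ m Φ n x - TF D ρ φ m Φ n x'| ≤ ε := by
  have hP := h.prob
  have hρc : Continuous ρ := h.geo.unif.continuous
  obtain ⟨K, hK⟩ := h.geo.bdd
  have hK0 : 0 ≤ K := (abs_nonneg _).trans (hK I)
  set r := Real.exp K * |X| + 1 with hr
  set V := (volume : Measure ℂ).real (Metric.ball (0:ℂ) (r + 1)) with hV
  have hV0 : 0 ≤ V := measureReal_nonneg
  have hB0 := h.B_nonneg
  set Q := 1 + V * B with hQ
  have hQ0 : 0 < Q := by positivity
  obtain ⟨d, hd, hmod⟩ := h.tmod hΦ (η := ε / (Real.exp (2 * K) * Q)) (by positivity)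
  refine ⟨d / Real.exp K, by positivity, ?_⟩
  filter_upwards [hmod r, h.Nn_mean (r + 1)] with n hn hn2 x x' hx hx' hxx
  obtain ⟨CN, hCN⟩ := h.tst_bdd hΦ n
  have hCN0 : 0 ≤ CN := (abs_nonneg _).trans (hCN 0 (I, 0))
  have hscale : ∀ (p : ℍ × ℝ) (z : ℂ), ‖z / (Real.exp (ρ p.1) : ℂ)‖ ≤ Real.exp K * ‖z‖ := by
    intro p z
    rw [norm_div, Complex.norm_real, Real.norm_of_nonneg (Real.exp_pos _).le, div_eq_mul_inv,
      ← Real.exp_neg, mul_comm]
    exact mul_le_mul_of_nonneg_right (Real.exp_le_exp.2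
      (by have := (abs_le.1 (hK p.1)).1; linarith)) (norm_nonneg _)
  have iE : ∀ y : Fin 4 → ℂ, Integrable (fun p : ℍ × ℝ => Real.exp (2 * ρ p.1)
      * Φ (fun j => cutWave (φ n) (m n) (y j / (Real.exp (ρ p.1) : ℂ)) p)) (frameProb D) := by
    intro y
    have mE : Measurable fun p : ℍ × ℝ => Real.exp (2 * ρ p.1) :=
      (Real.continuous_exp.comp (continuous_const.mul (hρc.comp continuous_fst))).measurable
    refine integrable_bdd (C := Real.exp (2 * K) * CN) (mE.mul (h.tst_meas' hΦ.cont n y)) fun p => ?_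
    rw [abs_mul, abs_of_pos (Real.exp_pos _)]
    refine mul_le_mul (Real.exp_le_exp.2 ?_) (hCN (fun j => y j / (Real.exp (ρ p.1) : ℂ)) p)
      (abs_nonneg _) (Real.exp_pos _).le
    have := (le_abs_self _).trans (hK p.1)
    linarith
  have iN : Integrable (fun p => 1 + Nn φ m (r + 1) n p) (frameProb D) :=
    (integrable_const _).add (h.Nn_int (r + 1) n)
  have hEN : ∫ p, (1 + Nn φ m (r + 1) n p) ∂(frameProb D) ≤ Q := by
    rw [integral_add (integrable_const _) (h.Nn_int (r + 1) n)]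
    simp only [integral_const, probReal_univ, smul_eq_mul, one_mul]
    rw [hQ]; linarith
  have hpw : ∀ p : ℍ × ℝ, ‖Real.exp (2 * ρ p.1)
      * Φ (fun j => cutWave (φ n) (m n) (x j / (Real.exp (ρ p.1) : ℂ)) p)
      - Real.exp (2 * ρ p.1)
      * Φ (fun j => cutWave (φ n) (m n) (x' j / (Real.exp (ρ p.1) : ℂ)) p)‖
      ≤ (ε / Q) * (1 + Nn φ m (r + 1) n p) := by
    intro p
    set N1 := 1 + Nn φ m (r + 1) n p with hN1
    have hN0 : 0 ≤ N1 := by
      have := Nn_nonneg (φ := φ) (m := m) (r + 1) n p; linarith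
    rw [← mul_sub, norm_mul, Real.norm_of_nonneg (Real.exp_pos _).le, Real.norm_eq_abs]
    have hXa : ∀ z : ℂ, ‖z‖ ≤ X → ‖z / (Real.exp (ρ p.1) : ℂ)‖ < r := by
      intro z hz
      have := hscale p z
      have h2 : Real.exp K * ‖z‖ ≤ Real.exp K * |X| :=
        mul_le_mul_of_nonneg_left (hz.trans (le_abs_self X)) (Real.exp_pos _).le
      rw [hr]; linarith
    have h1 := hn p (fun j => x j / (Real.exp (ρ p.1) : ℂ)) (fun j => x' j / (Real.exp (ρ p.1) : ℂ))
      (fun j => hXa _ (hx j)) (fun j => hXa _ (hx' j)) (fun j => by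
        show ‖x' j / (Real.exp (ρ p.1) : ℂ) - x j / (Real.exp (ρ p.1) : ℂ)‖ < d
        rw [← sub_div]
        refine lt_of_le_of_lt (hscale p _) ?_
        have := hxx j
        rw [lt_div_iff₀ (Real.exp_pos _)] at this
        linarith)
    have a1 : Real.exp (2 * ρ p.1) ≤ Real.exp (2 * K) :=
      Real.exp_le_exp.2 (by have := (le_abs_self _).trans (hK p.1); linarith)
    calc _ ≤ Real.exp (2 * K) * ((ε / (Real.exp (2 * K) * Q)) * N1) :=
          mul_le_mul a1 h1 (abs_nonneg _) (Real.exp_pos _).le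
      _ = (ε / Q) * N1 := by field_simp
  unfold TF
  rw [← integral_sub (iE x) (iE x'), ← Real.norm_eq_abs]
  refine (norm_integral_le_of_norm_le (iN.const_mul _) (Eventually.of_forall hpw)).trans ?_
  rw [integral_const_mul]
  calc (ε / Q) * ∫ p, (1 + Nn φ m (r + 1) n p) ∂(frameProb D) ≤ (ε / Q) * Q :=
        mul_le_mul_of_nonneg_left hEN (by positivity)
    _ = ε := by field_simp

/-- the fourth moments are bounded locally uniformly -/
lemma Dat.TF_bound [Countable Γ] (h : Dat Γ ρ D φ m B) (R : ℝ) : ∀ᶠ n in atTop,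
    ∀ x ∈ Metric.ball (0:ℂ) R, TF D ρ φ m pr4 n (fun _ => x) ≤ TF D ρ φ m pr4 n (fun _ => 0) + 1 := by
  obtain ⟨d, hd, heq⟩ := h.TF_equi tst_pr4 |R| (ε := 1 / 2) (by norm_num)
  have hcpt : IsCompact (Metric.closedBall (0:ℂ) |R|) := isCompact_closedBall _ _
  obtain ⟨S, hSK, hSf, hcov⟩ := hcpt.finite_cover_balls hd
  have h1 : ∀ᶠ n in atTop, ∀ s ∈ S, |TF D ρ φ m pr4 n (fun _ => 0 + s)
      - TF D ρ φ m pr4 n (fun _ => 0)| ≤ 1 / 2 := by
    rw [eventually_all_finite hSf]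
    intro s _
    have h2 := Metric.tendsto_nhds.1 (h.shift tst_pr4 (fun _ => 0) s) (1 / 2) (by norm_num)
    filter_upwards [h2] with n hn
    rw [dist_zero_right, Real.norm_eq_abs] at hn
    exact hn.le
  filter_upwards [heq, h1] with n hn hn1 x hx
  have hxR : ‖x‖ ≤ |R| := by
    rw [Metric.mem_ball, dist_zero_right] at hx
    exact hx.le.trans (le_abs_self R)
  have hxc : x ∈ Metric.closedBall (0:ℂ) |R| := by
    rw [Metric.mem_closedBall, dist_zero_right]; exact hxR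
  have h3 := hcov hxc
  simp only [Set.mem_iUnion, exists_prop] at h3
  obtain ⟨s, hs, hxs⟩ := h3
  rw [Metric.mem_ball, dist_eq_norm] at hxs
  have hsR : ‖s‖ ≤ |R| := by
    have := hSK hs
    rwa [Metric.mem_closedBall, dist_zero_right] at this
  have a1 := hn (fun _ => x) (fun _ => s) (fun _ => hxR) (fun _ => hsR)
    (fun _ => by rw [norm_sub_rev]; exact hxs)
  have a2 := hn1 s hs
  simp only [zero_add] at a2
  have b1 := (abs_le.1 a1).2
  have b2 := (abs_le.1 a2).2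
  linarith

/-- a diagonal argument -/
lemma diag_seq {Q : ℕ → ℕ → Prop} (h0 : ∀ n, Q n 0) (h : ∀ k, ∀ᶠ n in atTop, Q n k) :
    ∃ R : ℕ → ℕ, Tendsto R atTop atTop ∧ ∀ n, Q n (R n) := by
  classical
  refine ⟨fun n => Nat.findGreatest (Q n) n, ?_, fun n => ?_⟩
  · rw [tendsto_atTop]
    intro k
    filter_upwards [h k, eventually_ge_atTop k] with n hn hk
    exact Nat.le_findGreatest hk hn
  · exact Nat.findGreatest_spec (Nat.zero_le n) (h0 n)

/-- the local waves cut off at a radius `R n` -/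
def wW (ρ : ℍ → ℝ) (φ : ℕ → ℍ → ℝ) (m : ℕ → ℝ) (R : ℕ → ℕ) (n : ℕ) (x : ℂ) (p : ℍ × ℝ) : ℝ :=
  cut (x / (R n : ℂ)) * sW ρ (φ n) (m n) x p

lemma wW_eq {R : ℕ → ℕ} (hR : Tendsto R atTop atTop) (r : ℝ) : ∀ᶠ n in atTop, ∀ x : ℂ, ‖x‖ ≤ r →
    ∀ p, wW ρ φ m R n x p = sW ρ (φ n) (m n) x p := by
  have hR' : Tendsto (fun n => (R n : ℝ)) atTop atTop := tendsto_natCast_atTop_atTop.comp hR
  filter_upwards [(hR'.const_div_atTop r).eventually
    (gt_mem_nhds (show (0:ℝ) < 1 / 4 by norm_num)), hR'.eventually_gt_atTop 0] with n hn hm x hx p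
  unfold wW
  rw [cut_one, one_mul]
  rw [norm_div, Complex.norm_natCast]
  exact (div_le_div_of_nonneg_right hx hm.le).trans hn.le

lemma sW_zero (φ : ℍ → ℝ) (k : ℝ) (p : ℍ × ℝ) : sW ρ φ k 0 p = φ p.1 := by
  unfold sW
  rw [zero_div, cutWave_eq (by simp)]
  unfold localWave
  have : (ofComplex (Complex.I + (0:ℂ) / (k : ℂ)) : ℍ) = I := by
    rw [zero_div, add_zero]
    have : (Complex.I : ℂ) = ((I : ℍ) : ℂ) := rfl
    rw [this, ofComplex_apply]
  rw [this, frame_smul_I]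

/-- correlation functions in terms of the weighted averages -/
lemma c4_TF {κ : ℝ} (hint : ∀ H : ℍ × ℝ → ℝ,
    ∫ p, H p ∂(rFrameProb ρ D) = κ * ∫ p, Real.exp (2 * ρ p.1) * H p ∂(frameProb D))
    (n : ℕ) (x₁ x₂ x₃ x₄ : ℂ) :
    c4 (rFrameProb ρ D) (fun n => sW ρ (φ n) (m n)) n x₁ x₂ x₃ x₄
      = κ * TF D ρ φ m pr4 n ![x₁, x₂, x₃, x₄] := by
  unfold c4 TF
  rw [hint]
  congr 2

lemma c2_TF {κ : ℝ} (hint : ∀ H : ℍ × ℝ → ℝ,
    ∫ p, H p ∂(rFrameProb ρ D) = κ * ∫ p, Real.exp (2 * ρ p.1) * H p ∂(frameProb D))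
    (n : ℕ) (x₁ x₂ : ℂ) :
    c2 (rFrameProb ρ D) (fun n => sW ρ (φ n) (m n)) n x₁ x₂
      = κ * TF D ρ φ m pr2 n ![x₁, x₂, 0, 0] := by
  unfold c2 TF
  rw [hint]
  congr 2

/-- **the local waves, suitably cut off, are asymptotically invariant waves** -/
theorem Dat.aWave [Countable Γ] (h : Dat Γ ρ D φ m B) {B₁ : ℝ}
    (hB₁ : ∀ n, rAvg ρ D (fun z => φ n z ^ 4) ≤ B₁) : ∃ (R : ℕ → ℕ) (B' : ℝ),
      Tendsto R atTop atTop ∧ AWave (rFrameProb ρ D) (wW ρ φ m R) B' := by
  have hP := h.prob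
  have hPr := rFrameProb_isProb h.geo
  obtain ⟨κ, hκ, hint⟩ := rFrame_int h.geo
  set F : ℕ → ℂ → ℍ × ℝ → ℝ := fun n => sW ρ (φ n) (m n) with hF
  have hTF0 : ∀ n, κ * TF D ρ φ m pr4 n (fun _ => 0) = rAvg ρ D (fun z => φ n z ^ 4) := by
    intro n
    have h1 : Continuous fun z => φ n z ^ 4 := (h.reig n).continuous.pow 4
    rw [← rFrame_fst h.geo h1.measurable, hint]
    unfold TF
    congr 2; funext p
    congr 1
    have e : ∀ p : ℍ × ℝ, cutWave (φ n) (m n) ((0:ℂ) / (Real.exp (ρ p.1) : ℂ)) p = φ n p.1 :=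
      fun p => sW_zero (φ n) (m n) p
    unfold pr4
    simp only [e]
    ring
  have hTFx : ∀ n x, κ * TF D ρ φ m pr4 n (fun _ => x) = ∫ p, F n x p ^ 4 ∂(rFrameProb ρ D) := by
    intro n x
    rw [hint]
    unfold TF
    congr 2; funext p
    congr 1
    unfold pr4
    show _ = sW ρ (φ n) (m n) x p ^ 4
    unfold sW
    ring
  set B' := |B₁| + κ with hB'
  have hB'0 : 0 ≤ B' := by positivity
  set Q : ℕ → ℕ → Prop := fun n k => ∀ x ∈ Metric.ball (0:ℂ) k,
    ∫ p, F n x p ^ 4 ∂(rFrameProb ρ D) ≤ B' with hQ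
  obtain ⟨R, hR, hRQ⟩ := diag_seq (Q := Q) (fun n x hx => by
    simp at hx) (fun k => by
      filter_upwards [h.TF_bound k] with n hn x hx
      rw [← hTFx]
      have h1 := mul_le_mul_of_nonneg_left (hn x hx) hκ.le
      rw [mul_add, hTF0, mul_one] at h1
      have h2 := (hB₁ n).trans (le_abs_self B₁)
      linarith)
  have hR' : Tendsto (fun n => (R n : ℝ)) atTop atTop := tendsto_natCast_atTop_atTop.comp hR
  refine ⟨R, B', hR, ⟨⟨?_, ?_⟩, ?_, ?_⟩⟩
  · filter_upwards [hR'.eventually_gt_atTop 0] with n hRn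
    have hs := h.sW_single n (rFrameProb ρ D)
    obtain ⟨C, hC⟩ := hs.bdd
    refine ⟨⟨fun x => (hs.meas x).const_mul _, fun p => ?_, C, fun x p => ?_⟩, fun x => ?_⟩
    · unfold wW
      refine ContDiff.mul ?_ (hs.smooth p)
      have h1 : ContDiff ℝ 2 (cut : ℂ → ℝ) := cut.contDiff
      have h2 : ContDiff ℝ 2 fun x : ℂ => x / (R n : ℂ) := by
        simp only [div_eq_mul_inv]
        exact contDiff_id.mul contDiff_const
      exact h1.comp h2
    · unfold wW
      rw [abs_mul, abs_of_nonneg cut.nonneg]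
      calc cut (x / (R n : ℂ)) * |sW ρ (φ n) (m n) x p| ≤ 1 * C :=
            mul_le_mul cut.le_one (hC x p) (abs_nonneg _) zero_le_one
        _ = C := one_mul C
    · by_cases hx : x ∈ Metric.ball (0:ℂ) (R n)
      · refine le_trans ?_ (hRQ n x hx)
        refine integral_mono_of_nonneg (Eventually.of_forall fun p => by positivity)
          (hs.int4 x) (Eventually.of_forall fun p => ?_)
        simp only [wW]
        rw [mul_pow]
        have h1 : cut (x / (R n : ℂ)) ^ 4 ≤ 1 := pow_le_one₀ cut.nonneg cut.le_one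
        have h2 : 0 ≤ sW ρ (φ n) (m n) x p ^ 4 := by positivity
        show cut (x / (R n : ℂ)) ^ 4 * sW ρ (φ n) (m n) x p ^ 4 ≤ sW ρ (φ n) (m n) x p ^ 4
        nlinarith only [h1, h2]
      · have h1 : ∀ p, wW ρ φ m R n x p = 0 := by
          intro p
          unfold wW
          rw [cut_zero, zero_mul]
          rw [Metric.mem_ball, dist_zero_right, not_lt] at hx
          rw [norm_div, Complex.norm_natCast, le_div_iff₀ hRn]
          linarith
        simp only [h1]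
        simpa using hB'0
  · intro r δ hδ
    filter_upwards [h.sW_eqn r hδ, wW_eq (ρ := ρ) (φ := φ) (m := m) hR (r + 1)] with n hn hn2 p x hx
    rw [Metric.mem_ball, dist_zero_right] at hx
    have h1 : (fun x => wW ρ φ m R n x p) =ᶠ[𝓝 x] fun x => sW ρ (φ n) (m n) x p := by
      have h2 : ∀ᶠ y in 𝓝 x, ‖y‖ < r + 1 :=
        (continuous_norm.tendsto x).eventually (gt_mem_nhds (by linarith))
      filter_upwards [h2] with y hy
      exact hn2 y hy.le p
    have h3 : (Δ (fun x => wW ρ φ m R n x p)) x = (Δ (fun x => sW ρ (φ n) (m n) x p)) x :=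
      (laplacian_congr_nhds h1).self_of_nhds
    have h4 : wW ρ φ m R n x p = sW ρ (φ n) (m n) x p := h1.self_of_nhds
    rw [h3, h4]
    exact hn p x (by rw [Metric.mem_ball, dist_zero_right]; exact hx)
  · intro x₁ x₂ x₃ x₄ s
    have hc : ∀ y₁ y₂ y₃ y₄ : ℂ, ∀ᶠ n in atTop, c4 (rFrameProb ρ D) (wW ρ φ m R) n y₁ y₂ y₃ y₄
        = κ * TF D ρ φ m pr4 n ![y₁, y₂, y₃, y₄] := by
      intro y₁ y₂ y₃ y₄
      filter_upwards [wW_eq (ρ := ρ) (φ := φ) (m := m) hR ‖y₁‖,
        wW_eq (ρ := ρ) (φ := φ) (m := m) hR ‖y₂‖, wW_eq (ρ := ρ) (φ := φ) (m := m) hR ‖y₃‖,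
        wW_eq (ρ := ρ) (φ := φ) (m := m) hR ‖y₄‖] with n h1 h2 h3 h4
      rw [← c4_TF hint]
      unfold c4
      congr 1; funext p
      rw [h1 y₁ le_rfl, h2 y₂ le_rfl, h3 y₃ le_rfl, h4 y₄ le_rfl]
    have h1 := (h.shift tst_pr4 ![x₁, x₂, x₃, x₄] s).const_mul κ
    rw [mul_zero] at h1
    refine h1.congr' ?_
    filter_upwards [hc (x₁ + s) (x₂ + s) (x₃ + s) (x₄ + s), hc x₁ x₂ x₃ x₄] with n k1 k2
    rw [k1, k2, mul_sub]
    have e : (fun j => (![x₁, x₂, x₃, x₄] : Fin 4 → ℂ) j + s)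
        = ![x₁ + s, x₂ + s, x₃ + s, x₄ + s] := by
      funext j; fin_cases j <;> rfl
    rw [e]
  · intro x₁ x₂ s
    have hc : ∀ y₁ y₂ : ℂ, ∀ᶠ n in atTop, c2 (rFrameProb ρ D) (wW ρ φ m R) n y₁ y₂
        = κ * TF D ρ φ m pr2 n ![y₁, y₂, 0, 0] := by
      intro y₁ y₂
      filter_upwards [wW_eq (ρ := ρ) (φ := φ) (m := m) hR ‖y₁‖,
        wW_eq (ρ := ρ) (φ := φ) (m := m) hR ‖y₂‖] with n h1 h2
      rw [← c2_TF hint]
      unfold c2
      congr 1; funext p
      rw [h1 y₁ le_rfl, h2 y₂ le_rfl]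
    have h1 := (h.shift tst_pr2 ![x₁, x₂, 0, 0] s).const_mul κ
    rw [mul_zero] at h1
    refine h1.congr' ?_
    filter_upwards [hc (x₁ + s) (x₂ + s), hc x₁ x₂] with n k1 k2
    rw [k1, k2, mul_sub]
    have e : TF D ρ φ m pr2 n (fun j => (![x₁, x₂, 0, 0] : Fin 4 → ℂ) j + s)
        = TF D ρ φ m pr2 n ![x₁ + s, x₂ + s, 0, 0] := by
      unfold TF pr2
      rfl
    rw [e]

end

end Berry


end

section

/-!
Fourth moments of Laplace eigenfunctions on closed surfaces.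
-/

open UpperHalfPlane MeasureTheory ProbabilityTheory MatrixGroups Filter Topology Set
  InnerProductSpace Laplacian
open scoped ENNReal NNReal Pointwise

namespace Berry

noncomputable section

variable {Γ : Subgroup SL(2, ℝ)} {ρ : ℍ → ℝ} {D : Set ℍ} {φ : ℕ → ℍ → ℝ} {m : ℕ → ℝ}

/-- a compact quotient has finite area -/
lemma finite_of_cocompact [Countable Γ] (hD : IsFundamentalDomain Γ D (volume : Measure ℍ))
    (hK : ∃ K : Set ℍ, IsCompact K ∧ ∀ z, ∃ γ ∈ Γ, γ • z ∈ K) : volume D ≠ ∞ := by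
  obtain ⟨K, hK, hcov⟩ := hK
  refine ne_top_of_le_ne_top (hK.measure_lt_top (μ := (volume : Measure ℍ))).ne ?_
  rw [hD.measure_eq_tsum K]
  refine le_trans (measure_mono ?_) (measure_iUnion_le _)
  intro z hz
  obtain ⟨γ, hγ, hzK⟩ := hcov z
  refine Set.mem_iUnion.2 ⟨(⟨γ, hγ⟩ : Γ)⁻¹, ?_, hz⟩
  rw [Set.mem_inv_smul_set_iff]
  exact hzK

lemma bdd_of_cocompact {f : ℍ → ℝ} (hf : Continuous f) (hinv : ∀ γ ∈ Γ, ∀ z, f (γ • z) = f z)
    (hK : ∃ K : Set ℍ, IsCompact K ∧ ∀ z, ∃ γ ∈ Γ, γ • z ∈ K) : ∃ C : ℝ, ∀ z, |f z| ≤ C := by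
  obtain ⟨K, hK, hcov⟩ := hK
  obtain ⟨C, hC⟩ := hK.exists_bound_of_continuousOn hf.continuousOn
  refine ⟨C, fun z => ?_⟩
  obtain ⟨γ, hγ, hz⟩ := hcov z
  rw [← hinv γ hγ z]
  exact hC _ hz

lemma unif_of_cocompact {f : ℍ → ℝ} (hf : Continuous f) (hinv : ∀ γ ∈ Γ, ∀ z, f (γ • z) = f z)
    (hK : ∃ K : Set ℍ, IsCompact K ∧ ∀ z, ∃ γ ∈ Γ, γ • z ∈ K) : UniformContinuous f := by
  obtain ⟨K, hK, hcov⟩ := hK
  rw [Metric.uniformContinuous_iff]
  intro ε hε
  have h1 := hK.uniformContinuousAt_of_continuousAt f (fun a _ => hf.continuousAt)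
    (Metric.dist_mem_uniformity hε)
  obtain ⟨δ, hδ, h2⟩ := Metric.mem_uniformity_dist.1 h1
  refine ⟨δ, hδ, fun {z z'} hz => ?_⟩
  obtain ⟨γ, hγ, hzK⟩ := hcov z
  have h3 : dist (γ • z) (γ • z') < δ := by rw [dist_smul]; exact hz
  have h4 := h2 h3 hzK
  simpa only [Set.mem_ofPred_eq, hinv γ hγ] using h4

/-- the data on a closed surface -/
structure Surf (Γ : Subgroup SL(2, ℝ)) (ρ : ℍ → ℝ) (D : Set ℍ) (φ : ℕ → ℍ → ℝ) (m : ℕ → ℝ) :
    Prop where
  geo : Geo Γ ρ D
  eig : REigenSeq Γ ρ φ m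
  bdd : ∀ n, ∃ C : ℝ, ∀ z, |φ n z| ≤ C

lemma Surf.subseq (h : Surf Γ ρ D φ m) {σ : ℕ → ℕ} (hσ : Tendsto σ atTop atTop) :
    Surf Γ ρ D (fun n => φ (σ n)) (fun n => m (σ n)) :=
  ⟨h.geo, ⟨fun n => h.eig.invariant (σ n), fun n => h.eig.smooth (σ n),
    fun n => h.eig.eigen (σ n), h.eig.tendsto.comp hσ⟩, fun n => h.bdd (σ n)⟩

lemma Surf.reig (h : Surf Γ ρ D φ m) (n : ℕ) : REig ρ (φ n) (m n) :=
  ⟨h.eig.smooth n, h.eig.eigen n⟩

lemma Surf.dat [Countable Γ] (h : Surf Γ ρ D φ m) {B₁ : ℝ}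
    (hB₁ : ∀ n, rAvg ρ D (fun z => φ n z ^ 4) ≤ B₁) : ∃ B, Dat Γ ρ D φ m B := by
  obtain ⟨c, hc0, hc⟩ := hyp_le h.geo
  refine ⟨c * B₁, h.geo, h.eig, h.bdd, Eventually.of_forall fun n => ?_⟩
  have hcont : Continuous fun z => φ n z ^ 4 := (h.reig n).continuous.pow 4
  refine (hc (fun z => φ n z ^ 4) hcont (fun z => by positivity) ?_).trans
    (mul_le_mul_of_nonneg_left (hB₁ n) hc0)
  obtain ⟨C, hC⟩ := h.bdd n
  refine ⟨C ^ 4, fun z => ?_⟩
  rw [abs_pow]
  exact pow_le_pow_left₀ (abs_nonneg _) (hC z) 4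

lemma Surf.c2_zero [Countable Γ] (h : Surf Γ ρ D φ m) {R : ℕ → ℕ} (n : ℕ) :
    c2 (rFrameProb ρ D) (wW ρ φ m R) n 0 0 = rAvg ρ D fun z => φ n z ^ 2 := by
  have h1 : Continuous fun z => φ n z ^ 2 := (h.reig n).continuous.pow 2
  rw [← rFrame_fst h.geo h1.measurable]
  unfold c2
  congr 1; funext p
  unfold wW
  rw [sW_zero, cut_one (by simp)]; ring

lemma Surf.c4_zero [Countable Γ] (h : Surf Γ ρ D φ m) {R : ℕ → ℕ} (n : ℕ) :
    c4 (rFrameProb ρ D) (wW ρ φ m R) n 0 0 0 0 = rAvg ρ D fun z => φ n z ^ 4 := by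
  have h1 : Continuous fun z => φ n z ^ 4 := (h.reig n).continuous.pow 4
  rw [← rFrame_fst h.geo h1.measurable]
  unfold c4
  congr 1; funext p
  unfold wW
  rw [sW_zero, cut_one (by simp)]; ring

/-- **lower bound for the fourth moments of eigenfunctions** -/
theorem Surf.lower [Countable Γ] (h : Surf Γ ρ D φ m)
    (hnorm : ∀ n, rAvg ρ D (fun z => φ n z ^ 2) = 1) {ε : ℝ} (hε : 0 < ε) :
    ∀ᶠ n in atTop, 3 / 2 - ε ≤ rAvg ρ D fun z => φ n z ^ 4 := by
  have hP := rFrameProb_isProb h.geo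
  by_contra hcon
  have hfr : ∃ᶠ n in atTop, (rAvg ρ D fun z => φ n z ^ 4) < 3 / 2 - ε := by
    rw [Filter.not_eventually] at hcon
    exact hcon.mono fun n hn => not_le.1 hn
  obtain ⟨σ, hσ, hlt⟩ := extraction_of_frequently_atTop hfr
  have h' := h.subseq hσ.tendsto_atTop
  obtain ⟨B, hdat⟩ := h'.dat (B₁ := 3 / 2 - ε) fun n => (hlt n).le
  obtain ⟨R, B', hR, hA⟩ := hdat.aWave (B₁ := 3 / 2 - ε) fun n => (hlt n).le
  have h1 := hA.lower (v := 1) (L := 3 / 2 - ε) (by
    refine tendsto_const_nhds.congr fun n => ?_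
    rw [h'.c2_zero, hnorm (σ n)]) (Eventually.of_forall fun n => by
      rw [h'.c4_zero]; exact (hlt n).le)
  linarith

/-- for fixed points and large `n`, the cutoffs are invisible -/
lemma Surf.ev_eq (h : Surf Γ ρ D φ m) {R : ℕ → ℕ} (hR : Tendsto R atTop atTop) (r : ℝ) :
    ∀ᶠ n in atTop, ∀ x : ℂ, ‖x‖ ≤ r → ∀ p, wW ρ φ m R n x p = rWave ρ (φ n) (m n) x p := by
  obtain ⟨K, hK⟩ := h.geo.bdd
  filter_upwards [wW_eq (ρ := ρ) (φ := φ) (m := m) hR r,
    (h.eig.tendsto.const_div_atTop (|r| * Real.exp K)).eventually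
    (gt_mem_nhds (show (0:ℝ) < 1 / 4 by norm_num)), h.eig.tendsto.eventually_gt_atTop 0]
    with n h1 h2 hm x hx p
  rw [h1 x hx p]
  unfold sW rWave
  have hc0 : 0 < Real.exp (ρ p.1) := Real.exp_pos _
  rw [cutWave_eq]
  · unfold localWave
    congr 4
    rw [Complex.ofReal_mul, div_div, mul_comm]
  · rw [norm_div, norm_div, Complex.norm_real, Complex.norm_real, Real.norm_of_nonneg hm.le,
      Real.norm_of_nonneg hc0.le]
    refine le_trans ?_ h2.le
    apply div_le_div_of_nonneg_right _ hm.le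
    rw [div_eq_mul_inv, ← Real.exp_neg]
    exact mul_le_mul (hx.trans (le_abs_self r)) (Real.exp_le_exp.2
      (by have := (abs_le.1 (hK p.1)).1; linarith)) (Real.exp_pos _).le (abs_nonneg _)

lemma Surf.c4_ev (h : Surf Γ ρ D φ m) {R : ℕ → ℕ} (hR : Tendsto R atTop atTop)
    (x₁ x₂ x₃ x₄ : ℂ) : ∀ᶠ n in atTop, c4 (rFrameProb ρ D) (wW ρ φ m R) n x₁ x₂ x₃ x₄
      = ∫ p, rWave ρ (φ n) (m n) x₁ p * rWave ρ (φ n) (m n) x₂ p
        * rWave ρ (φ n) (m n) x₃ p * rWave ρ (φ n) (m n) x₄ p ∂(rFrameProb ρ D) := by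
  filter_upwards [h.ev_eq hR ‖x₁‖, h.ev_eq hR ‖x₂‖, h.ev_eq hR ‖x₃‖, h.ev_eq hR ‖x₄‖]
    with n h1 h2 h3 h4
  unfold c4
  congr 1; funext p
  rw [h1 x₁ le_rfl, h2 x₂ le_rfl, h3 x₃ le_rfl, h4 x₄ le_rfl]

lemma Surf.c2_ev (h : Surf Γ ρ D φ m) {R : ℕ → ℕ} (hR : Tendsto R atTop atTop)
    (x₁ x₂ : ℂ) : ∀ᶠ n in atTop, c2 (rFrameProb ρ D) (wW ρ φ m R) n x₁ x₂
      = ∫ p, rWave ρ (φ n) (m n) x₁ p * rWave ρ (φ n) (m n) x₂ p ∂(rFrameProb ρ D) := by
  filter_upwards [h.ev_eq hR ‖x₁‖, h.ev_eq hR ‖x₂‖] with n h1 h2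
  unfold c2
  congr 1; funext p
  rw [h1 x₁ le_rfl, h2 x₂ le_rfl]

lemma Surf.spatial_ev (h : Surf Γ ρ D φ m) {R : ℕ → ℕ} (hR : Tendsto R atTop atTop)
    (a : ℂ) (S : ℝ) : ∀ᶠ n in atTop, ∀ p,
    spatialAvg (wW ρ φ m R n) a S p = spatialAvg (rWave ρ (φ n) (m n)) a S p := by
  filter_upwards [h.ev_eq hR (S + ‖a‖)] with n hn p
  unfold spatialAvg
  rw [setAverage_eq, setAverage_eq]
  congr 1
  apply setIntegral_congr_fun measurableSet_ball
  intro x hx
  rw [Metric.mem_ball, dist_zero_right] at hx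
  simp only
  rw [hn x (by linarith [norm_nonneg a]), hn (x + a) ((norm_add_le x a).trans (by linarith))]

lemma Surf.planck_iff (h : Surf Γ ρ D φ m) {R : ℕ → ℕ} (hR : Tendsto R atTop atTop) (a : ℂ) :
    RPlanckAt ρ D φ m a ↔ ∀ ε > 0, ∃ R₀ : ℝ, ∀ S ≥ R₀, ∀ᶠ n in atTop,
      ∫ p, (spatialAvg (wW ρ φ m R n) a S p - 1 * waveK a) ^ 2 ∂(rFrameProb ρ D) ≤ ε := by
  unfold RPlanckAt
  constructor
  · intro h1 ε hε
    obtain ⟨R₀, hR₀⟩ := h1 ε hε
    refine ⟨R₀, fun S hS => ?_⟩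
    filter_upwards [hR₀ S hS, h.spatial_ev hR a S] with n hn hn2
    simp only [hn2, one_mul]
    exact hn
  · intro h1 ε hε
    obtain ⟨R₀, hR₀⟩ := h1 ε hε
    refine ⟨R₀, fun S hS => ?_⟩
    filter_upwards [hR₀ S hS, h.spatial_ev hR a S] with n hn hn2
    simp only [hn2, one_mul] at hn
    exact hn

lemma RPlanckAt.subseq {a : ℂ} (hq : RPlanckAt ρ D φ m a) {σ : ℕ → ℕ}
    (hσ : Tendsto σ atTop atTop) :
    RPlanckAt ρ D (fun n => φ (σ n)) (fun n => m (σ n)) a := by
  intro ε hε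
  obtain ⟨R₀, hR₀⟩ := hq ε hε
  exact ⟨R₀, fun S hS => hσ.eventually (hR₀ S hS)⟩

/-- **upper bound for the fourth moments under Planck-scale equidistribution of mass** -/
theorem Surf.upper [Countable Γ] (h : Surf Γ ρ D φ m) {B : ℝ}
    (hB : ∀ n, (rAvg ρ D fun z => φ n z ^ 4) ≤ B) (hq : RPlanckAt ρ D φ m 0)
    {ε : ℝ} (hε : 0 < ε) :
    ∀ᶠ n in atTop, (rAvg ρ D fun z => φ n z ^ 4) ≤ 3 + ε := by
  have hP := rFrameProb_isProb h.geo
  by_contra hcon
  have hfr : ∃ᶠ n in atTop, 3 + ε < (rAvg ρ D fun z => φ n z ^ 4) := by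
    rw [Filter.not_eventually] at hcon
    exact hcon.mono fun n hn => not_le.1 hn
  obtain ⟨σ, hσ, hlt⟩ := extraction_of_frequently_atTop hfr
  have h' := h.subseq hσ.tendsto_atTop
  obtain ⟨B₂, hdat⟩ := h'.dat (B₁ := B) fun n => hB (σ n)
  obtain ⟨R, B', hR, hA⟩ := hdat.aWave (B₁ := B) fun n => hB (σ n)
  have hq1 := (h'.planck_iff hR 0).1 (hq.subseq hσ.tendsto_atTop)
  have h1 := hA.upper (v := 1) (L := 3 + ε) (by
    intro ε hε
    obtain ⟨R₀, hR₀⟩ := hq1 ε hε
    refine ⟨R₀, fun R hR => ?_⟩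
    filter_upwards [hR₀ R hR] with n hn
    rw [waveK_zero, mul_one] at hn
    exact hn) (Eventually.of_forall fun n => by
      rw [h'.c4_zero]; exact (hlt n).le)
  linarith

/-- **equivalence of Gaussian four-point correlations and Planck-scale quantum ergodicity** -/
theorem Surf.four_iff [Countable Γ] (h : Surf Γ ρ D φ m)
    (hnorm : ∀ n, rAvg ρ D (fun z => φ n z ^ 2) = 1) :
    RFourPt ρ D φ m ↔
      (∃ B : ℝ, ∀ n, (rAvg ρ D fun z => φ n z ^ 4) ≤ B) ∧ ∀ a, RPlanckAt ρ D φ m a := by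
  have hP := rFrameProb_isProb h.geo
  constructor
  · intro hf
    have h0 : Tendsto (fun n => rAvg ρ D fun z => φ n z ^ 4) atTop
        (𝓝 (waveK (0 - 0) * waveK (0 - 0) + waveK (0 - 0) * waveK (0 - 0)
          + waveK (0 - 0) * waveK (0 - 0))) := by
      refine (hf 0 0 0 0).congr' ?_
      filter_upwards [h.c4_ev tendsto_id 0 0 0 0] with n hn
      rw [← hn, h.c4_zero]
    obtain ⟨B₁, hB₁⟩ := h0.bddAbove_range
    have hB' : ∀ n, (rAvg ρ D fun z => φ n z ^ 4) ≤ B₁ := fun n => hB₁ ⟨n, rfl⟩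
    refine ⟨⟨B₁, hB'⟩, fun a => ?_⟩
    obtain ⟨B₂, hdat⟩ := h.dat hB'
    obtain ⟨R, B', hR, hA⟩ := hdat.aWave hB'
    have h4 : ∀ x₁ x₂ x₃ x₄, Tendsto (fun n => c4 (rFrameProb ρ D) (wW ρ φ m R) n x₁ x₂ x₃ x₄)
        atTop (𝓝 ((1:ℝ) ^ 2 * (waveK (x₁ - x₂) * waveK (x₃ - x₄)
          + waveK (x₁ - x₃) * waveK (x₂ - x₄) + waveK (x₁ - x₄) * waveK (x₂ - x₃)))) := by
      intro x₁ x₂ x₃ x₄
      rw [one_pow, one_mul]
      refine (hf x₁ x₂ x₃ x₄).congr' ?_
      filter_upwards [h.c4_ev hR x₁ x₂ x₃ x₄] with n hn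
      exact hn.symm
    rw [h.planck_iff hR]
    exact hA.planck_of_gauss (v := 1) (by
      refine tendsto_const_nhds.congr fun n => ?_
      rw [h.c2_zero, hnorm n]) h4 a
  · rintro ⟨⟨B, hB⟩, hq⟩ x₁ x₂ x₃ x₄
    obtain ⟨B₂, hdat⟩ := h.dat hB
    obtain ⟨R, B', hR, hA⟩ := hdat.aWave hB
    have h1 := (hA.gauss_of_planck (v := 1) fun a => (h.planck_iff hR a).1 (hq a)).1 x₁ x₂ x₃ x₄
    rw [one_pow, one_mul] at h1
    refine h1.congr' ?_
    filter_upwards [h.c4_ev hR x₁ x₂ x₃ x₄] with n hn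
    exact hn

/-- two-point functions -/
theorem Surf.two_of_planck [Countable Γ] (h : Surf Γ ρ D φ m) {B : ℝ}
    (hB : ∀ n, (rAvg ρ D fun z => φ n z ^ 4) ≤ B) (hq : ∀ a, RPlanckAt ρ D φ m a)
    (x₁ x₂ : ℂ) : Tendsto (fun n => ∫ p, rWave ρ (φ n) (m n) x₁ p
      * rWave ρ (φ n) (m n) x₂ p ∂(rFrameProb ρ D)) atTop (𝓝 (waveK (x₁ - x₂))) := by
  have hP := rFrameProb_isProb h.geo
  obtain ⟨B₂, hdat⟩ := h.dat hB
  obtain ⟨R, B', hR, hA⟩ := hdat.aWave hB
  have h1 := (hA.gauss_of_planck (v := 1) fun a => (h.planck_iff hR a).1 (hq a)).2 x₁ x₂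
  rw [one_mul] at h1
  refine h1.congr' ?_
  filter_upwards [h.c2_ev hR x₁ x₂] with n hn
  exact hn

/-- closed surfaces -/
theorem surf_of_cocompact [Countable Γ] (hD : IsFundamentalDomain Γ D (volume : Measure ℍ))
    (hDm : MeasurableSet D) (hK : ∃ K : Set ℍ, IsCompact K ∧ ∀ z, ∃ γ ∈ Γ, γ • z ∈ K)
    (hρ : Continuous ρ) (hρi : ∀ γ ∈ Γ, ∀ z, ρ (γ • z) = ρ z) (hφ : REigenSeq Γ ρ φ m) :
    Surf Γ ρ D φ m :=
  ⟨⟨hD, hDm, finite_of_cocompact hD hK, hρi, bdd_of_cocompact hρ hρi hK,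
    unif_of_cocompact hρ hρi hK⟩, hφ, fun n => bdd_of_cocompact
      (REig.continuous ⟨hφ.smooth n, hφ.eigen n⟩) (hφ.invariant n) hK⟩

end

end Berry


end

section

/-!
# From the upper half plane to closed surfaces

Let `Γ ⊂ SL(2, ℝ)` be countable with fundamental domain `D` (for the hyperbolic volume) and compact
quotient. Local lower bounds, on the upper half plane, for the integrals of `Γ`-invariant functions
`F n` against test functions give the lower bound for the averages of `F n` over `D` with respect to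
the area of a conformal metric `e^{2ρ} (dx² + dy²) / y²`.
-/

open UpperHalfPlane MeasureTheory ProbabilityTheory MatrixGroups Filter Topology Set Berry
open scoped ENNReal NNReal

namespace QE

noncomputable section

namespace Surf

variable {Γ : Subgroup SL(2, ℝ)} {ρ : ℍ → ℝ} {D : Set ℍ}

/-- some orbit is locally finite -/
lemma exists_finite_orbit [Countable Γ] (hD : IsFundamentalDomain Γ D (volume : Measure ℍ)) :
    ∃ z : ℍ, ∀ R : ℝ, {γ : Γ | dist (γ • z) I ≤ R}.Finite := by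
  have h : ∀ᵐ z ∂((volume : Measure ℍ).restrict D),
      ∀ n : ℕ, {γ : Γ | dist (γ • z) I ≤ (n : ℝ)}.Finite := by
    rw [ae_all_iff]
    intro n
    have hB : MeasurableSet (Metric.closedBall I (n : ℝ) : Set ℍ) :=
      Metric.isClosed_closedBall.measurableSet
    have hf : Measurable (indicator (Metric.closedBall I (n : ℝ)) (1 : ℍ → ℝ≥0∞)) :=
      measurable_one.indicator hB
    have hm : ∀ γ : Γ, Measurable fun z : ℍ =>
        indicator (Metric.closedBall I (n : ℝ)) (1 : ℍ → ℝ≥0∞) (γ • z) := fun γ =>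
      hf.comp (continuous_const_smul γ).measurable
    have e := hD.lintegral_eq_tsum'' (indicator (Metric.closedBall I (n : ℝ)) 1)
    rw [lintegral_indicator_one hB, ← lintegral_tsum fun γ => (hm γ).aemeasurable] at e
    have hfin : ∫⁻ z in D, ∑' γ : Γ,
        indicator (Metric.closedBall I (n : ℝ)) (1 : ℍ → ℝ≥0∞) (γ • z) ≠ ∞ := by
      rw [← e]
      exact (isCompact_closedBall I (n : ℝ)).measure_lt_top.ne
    filter_upwards [ae_lt_top (Measurable.tsum hm) hfin] with z hz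
    refine (ENNReal.finite_const_le_of_tsum_ne_top hz.ne one_ne_zero).subset ?_
    intro γ hγ
    have : γ • z ∈ Metric.closedBall I (n : ℝ) := hγ
    simp only [Set.mem_ofPred_eq, indicator_of_mem this, Pi.one_apply, le_refl]
  have hne : (ae ((volume : Measure ℍ).restrict D)).NeBot := by
    rw [ae_neBot, Ne, Measure.restrict_eq_zero]
    exact volume_ne_zero hD
  obtain ⟨z, hz⟩ := h.exists
  refine ⟨z, fun R => ?_⟩
  obtain ⟨n, hn⟩ := exists_nat_ge R
  exact (hz n).subset fun γ hγ => le_trans hγ hn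

/-- translates of a compactly supported function are locally finite -/
lemma locallyFinite [Countable Γ] (hD : IsFundamentalDomain Γ D (volume : Measure ℍ)) {χ : ℍ → ℝ}
    {R : ℝ} (hχ : ∀ z, χ z ≠ 0 → dist z I ≤ R) :
    LocallyFinite fun γ : Γ => Function.support fun z : ℍ => χ (γ • z) := by
  obtain ⟨z₀, h₀⟩ := exists_finite_orbit hD
  intro x
  refine ⟨Metric.ball x 1, Metric.ball_mem_nhds x one_pos, (h₀ (dist z₀ x + 1 + R)).subset ?_⟩
  rintro γ ⟨z, hz, hzx⟩
  have h1 : dist (γ • z) I ≤ R := hχ _ hz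
  have h2 : dist (γ • z₀) (γ • z) = dist z₀ z := dist_smul (γ : SL(2, ℝ)) z₀ z
  have h3 : dist z x < 1 := hzx
  have h4 := dist_triangle z₀ x z
  have h5 := dist_triangle (γ • z₀) (γ • z) I
  rw [dist_comm x z] at h4
  show dist (γ • z₀) I ≤ _
  linarith

/-- the sum of the translates -/
def NN (Γ : Subgroup SL(2, ℝ)) (χ : ℍ → ℝ) (z : ℍ) : ℝ := ∑' γ : Γ, χ (γ • z)

lemma finite_support [Countable Γ] (hD : IsFundamentalDomain Γ D (volume : Measure ℍ)) {χ : ℍ → ℝ}
    {R : ℝ} (hχ : ∀ z, χ z ≠ 0 → dist z I ≤ R) (z : ℍ) :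
    (Function.support fun γ : Γ => χ (γ • z)).Finite := by
  exact (locallyFinite hD hχ).point_finite z

lemma NN_continuous [Countable Γ] (hD : IsFundamentalDomain Γ D (volume : Measure ℍ)) {χ : ℍ → ℝ}
    {R : ℝ} (hχ : ∀ z, χ z ≠ 0 → dist z I ≤ R) (hc : Continuous χ) : Continuous (NN Γ χ) := by
  have h := continuous_finsum (fun γ : Γ => hc.comp (continuous_const_smul γ))
    (locallyFinite hD hχ)
  refine h.congr fun z => ?_
  exact (tsum_eq_finsum (finite_support hD hχ z)).symm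

lemma NN_summable [Countable Γ] (hD : IsFundamentalDomain Γ D (volume : Measure ℍ)) {χ : ℍ → ℝ}
    {R : ℝ} (hχ : ∀ z, χ z ≠ 0 → dist z I ≤ R) (z : ℍ) : Summable fun γ : Γ => χ (γ • z) :=
  summable_of_hasFiniteSupport (finite_support hD hχ z)

lemma NN_inv {χ : ℍ → ℝ} (γ : Γ) (z : ℍ) : NN Γ χ (γ • z) = NN Γ χ z := by
  unfold NN
  rw [← (Equiv.mulRight γ).tsum_eq (fun δ : Γ => χ (δ • z))]
  refine tsum_congr fun δ => ?_
  rw [Equiv.coe_mulRight, mul_smul]

/-- the unfolding formula -/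
lemma unfold [Countable Γ] (hD : IsFundamentalDomain Γ D (volume : Measure ℍ)) {χ : ℍ → ℝ}
    {R : ℝ} (hχ : ∀ z, χ z ≠ 0 → dist z I ≤ R) (hc : Continuous χ) (h0 : ∀ z, 0 ≤ χ z)
    (hpos : ∀ z, 0 < NN Γ χ z) {f : ℍ → ℝ} (hf : Continuous f)
    (hinv : ∀ γ ∈ Γ, ∀ z, f (γ • z) = f z) :
    ∫⁻ z in D, ENNReal.ofReal (f z) = ∫⁻ z : ℍ, ENNReal.ofReal (χ z / NN Γ χ z * f z) := by
  have hN := NN_continuous hD hχ hc
  rw [hD.lintegral_eq_tsum'', ← lintegral_tsum]
  · refine lintegral_congr fun z => ?_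
    have e : ∀ γ : Γ, ENNReal.ofReal (χ (γ • z) / NN Γ χ (γ • z) * f (γ • z))
        = ENNReal.ofReal (χ (γ • z)) * ENNReal.ofReal (f z / NN Γ χ z) := by
      intro γ
      rw [← ENNReal.ofReal_mul (h0 _), NN_inv, show f (γ • z) = f z from hinv γ γ.2 z]
      congr 1; ring
    simp only [e]
    rw [ENNReal.tsum_mul_right, ← ENNReal.ofReal_tsum_of_nonneg (fun γ => h0 _)
      (NN_summable hD hχ z)]
    rw [← ENNReal.ofReal_mul (tsum_nonneg fun γ => h0 _)]
    congr 1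
    have := (hpos z).ne'
    show f z = NN Γ χ z * (f z / NN Γ χ z)
    field_simp
  · intro γ
    refine Measurable.aemeasurable ?_
    have : Continuous fun z => χ z / NN Γ χ z * f z :=
      (hc.div hN fun z => (hpos z).ne').mul hf
    exact ENNReal.measurable_ofReal.comp (this.measurable.comp (continuous_const_smul γ).measurable)

/-- the volume of the upper half plane in the coordinate of `ℂ` -/
lemma lintegral_uhp {g : ℍ → ℝ≥0∞} (hg : Measurable g) :
    ∫⁻ z, g z = ∫⁻ w : ℂ in {w | 0 < w.im}, ENNReal.ofReal (1 / w.im ^ 2) * g (ofComplex w) := by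
  have hmp : MeasurePreserving UpperHalfPlane.coe
      ((volume : Measure ℂ).comap UpperHalfPlane.coe)
      ((volume : Measure ℂ).restrict (.range UpperHalfPlane.coe)) :=
    ⟨measurable_coe, by rw [measurableEmbedding_coe.map_comap]⟩
  have hr : range UpperHalfPlane.coe = {w : ℂ | 0 < w.im} := range_coe
  have e1 : ∀ z : ℍ, ((1 / NNReal.mk z.im z.im_pos.le : ℝ≥0) ^ 2 : ℝ≥0)
      = Real.toNNReal (1 / z.im ^ 2) := by
    intro z
    have := z.im_pos
    ext
    rw [Real.coe_toNNReal _ (by positivity)]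
    simp
  have hm : Measurable fun z : ℍ => (((1 / NNReal.mk z.im z.im_pos.le : ℝ≥0) ^ 2 : ℝ≥0) : ℝ≥0∞) := by
    simp only [e1]
    refine (measurable_real_toNNReal.comp ?_).coe_nnreal_ennreal
    exact measurable_const.div (continuous_im.measurable.pow_const 2)
  rw [volume_def, lintegral_withDensity_eq_lintegral_mul _ hm hg, ← hr,
    ← hmp.lintegral_comp_emb measurableEmbedding_coe]
  refine lintegral_congr fun z => ?_
  simp only [Pi.mul_apply, e1, ofComplex_apply]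
  rfl

/-- a cut-off function -/
lemma exists_cut {K : Set ℍ} (hK : IsCompact K) : ∃ c : ℂ → ℝ, Continuous c ∧ HasCompactSupport c ∧
    tsupport c ⊆ {w | 0 < w.im} ∧ (∀ w, 0 ≤ c w) ∧ ∀ z ∈ K, c (z : ℂ) = 1 := by
  have hU : IsOpen {w : ℂ | 0 < w.im} := isOpen_lt continuous_const Complex.continuous_im
  have hKc : IsCompact (UpperHalfPlane.coe '' K) := hK.image continuous_coe
  obtain ⟨V, hV, hKV, hVU, hVc⟩ := exists_open_between_and_isCompact_closure hKc hU
    (by rintro _ ⟨z, -, rfl⟩; exact z.im_pos)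
  obtain ⟨f, h1, h2, h3⟩ := exists_tsupport_one_of_isOpen_isClosed hV hVc hKc.isClosed hKV
  exact ⟨f, f.continuous, hVc.of_isClosed_subset (isClosed_tsupport f) (h1.trans subset_closure),
    h1.trans (subset_closure.trans hVU), fun w => (h3 w).1, fun z hz => h2 ⟨z, hz, rfl⟩⟩

lemma continuous_cut_mul {c : ℂ → ℝ} (hc : Continuous c) (hs : tsupport c ⊆ {w | 0 < w.im})
    {g : ℍ → ℝ} (hg : Continuous g) : Continuous fun w => c w * g (ofComplex w) := by
  refine continuous_iff_continuousAt.2 fun w => ?_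
  by_cases hw : w ∈ tsupport c
  · have h1 : ContinuousAt (ofComplex : ℂ → ℍ) w :=
      (contMDiffAt_ofComplex (n := 0) (hs hw)).continuousAt
    exact hc.continuousAt.mul (hg.continuousAt.comp h1)
  · have h1 : c =ᶠ[𝓝 w] 0 := notMem_tsupport_iff_eventuallyEq.1 hw
    refine (continuousAt_const (y := (0 : ℝ))).congr ?_
    filter_upwards [h1] with v hv
    rw [hv, Pi.zero_apply, zero_mul]

/-- one test function on the upper half plane computes the integrals over `D` of all invariant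
functions -/
lemma exists_test [Countable Γ] (hD : IsFundamentalDomain Γ D (volume : Measure ℍ))
    (hDm : MeasurableSet D) (hK : ∃ K : Set ℍ, IsCompact K ∧ ∀ z, ∃ γ ∈ Γ, γ • z ∈ K)
    (hρ : Continuous ρ) (hρΓ : ∀ γ ∈ Γ, ∀ z, ρ (γ • z) = ρ z) :
    ∃ ζ : ℂ → ℝ, Continuous ζ ∧ HasCompactSupport ζ ∧ tsupport ζ ⊆ {w | 0 < w.im} ∧
      (∀ w, 0 ≤ ζ w) ∧ ∀ f : ℍ → ℝ, Continuous f → (∀ z, 0 ≤ f z) →
        (∀ γ ∈ Γ, ∀ z, f (γ • z) = f z) →
        ∫ w, ζ w * f (ofComplex w) = ∫ z in D, f z ∂(area ρ) := by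
  obtain ⟨K, hKc, hcov⟩ := hK
  obtain ⟨c, hc, hcs, hcU, hc0, hc1⟩ := exists_cut hKc
  set χ : ℍ → ℝ := fun z => c z with hχdef
  have hχc : Continuous χ := hc.comp continuous_coe
  have hχ0 : ∀ z, 0 ≤ χ z := fun z => hc0 _
  -- the support of `χ` is bounded
  have hcomp : IsCompact (UpperHalfPlane.coe ⁻¹' tsupport c) := by
    rw [isOpenEmbedding_coe.isInducing.isCompact_preimage_iff]
    · exact hcs
    · rw [range_coe]; exact hcU
  obtain ⟨R, hR⟩ := hcomp.isBounded.subset_closedBall I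
  have hχ : ∀ z, χ z ≠ 0 → dist z I ≤ R := fun z hz =>
    hR (show (z : ℂ) ∈ tsupport c from subset_tsupport c hz)
  have hpos : ∀ z, 0 < NN Γ χ z := by
    intro z
    obtain ⟨γ, hγ, hz⟩ := hcov z
    have h1 : χ ((⟨γ, hγ⟩ : Γ) • z) ≤ NN Γ χ z :=
      (NN_summable hD hχ z).le_tsum _ fun δ _ => hχ0 _
    have h2 : χ ((⟨γ, hγ⟩ : Γ) • z) = 1 := hc1 _ hz
    linarith
  have hN := NN_continuous hD hχ hχc
  set G : ℍ → ℝ := fun z => 1 / z.im ^ 2 * (Real.exp (2 * ρ z) / NN Γ χ z) with hG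
  have hGc : Continuous G := by
    refine (continuous_const.div (continuous_im.pow 2) fun z => (pow_pos z.im_pos 2).ne').mul ?_
    exact (Real.continuous_exp.comp (continuous_const.mul hρ)).div hN fun z => (hpos z).ne'
  have hG0 : ∀ z, 0 ≤ G z := by
    intro z
    have h1 := z.im_pos
    have h2 := hpos z
    simp only [hG]
    positivity
  refine ⟨fun w => c w * G (ofComplex w), continuous_cut_mul hc hcU hGc, hcs.mul_right,
    (closure_mono (Function.support_mul_subset_left _ _)).trans hcU,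
    fun w => mul_nonneg (hc0 w) (hG0 _), ?_⟩
  intro f hf hf0 hinv
  have hU : IsOpen {w : ℂ | 0 < w.im} := isOpen_lt continuous_const Complex.continuous_im
  -- left side
  have hcont : Continuous fun w => c w * G (ofComplex w) * f (ofComplex w) := by
    have := continuous_cut_mul hc hcU (hGc.mul hf)
    refine this.congr fun w => ?_
    simp only [Pi.mul_apply]; ring
  rw [integral_eq_lintegral_of_nonneg_ae
    (Eventually.of_forall fun w => mul_nonneg (mul_nonneg (hc0 w) (hG0 _)) (hf0 _))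
    hcont.aestronglyMeasurable,
    integral_eq_lintegral_of_nonneg_ae (Eventually.of_forall fun z => hf0 z)
      hf.aestronglyMeasurable]
  congr 1
  have hexp : Measurable fun z => ENNReal.ofReal (Real.exp (2 * ρ z)) :=
    ENNReal.measurable_ofReal.comp
      (Real.continuous_exp.comp (continuous_const.mul hρ)).measurable
  have hfm : Measurable fun z => ENNReal.ofReal (f z) := ENNReal.measurable_ofReal.comp hf.measurable
  unfold area
  rw [setLIntegral_withDensity_eq_setLIntegral_mul _ hexp hfm hDm]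
  have e1 : ∫⁻ z in D, ((fun z => ENNReal.ofReal (Real.exp (2 * ρ z))) *
      fun z => ENNReal.ofReal (f z)) z = ∫⁻ z in D, ENNReal.ofReal (Real.exp (2 * ρ z) * f z) := by
    refine lintegral_congr fun z => ?_
    rw [Pi.mul_apply, ENNReal.ofReal_mul (Real.exp_pos _).le]
  have hfe : Continuous fun z => Real.exp (2 * ρ z) * f z :=
    (Real.continuous_exp.comp (continuous_const.mul hρ)).mul hf
  rw [e1, unfold hD hχ hχc hχ0 hpos hfe
    (fun γ hγ z => by simp only [hρΓ γ hγ, hinv γ hγ]), lintegral_uhp]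
  · rw [← lintegral_indicator hU.measurableSet]
    refine lintegral_congr fun w => ?_
    by_cases hw : 0 < w.im
    · rw [indicator_of_mem (show w ∈ {w : ℂ | 0 < w.im} from hw),
        ← ENNReal.ofReal_mul (by positivity)]
      congr 1
      have e2 : ((ofComplex w : ℍ) : ℂ) = w := by rw [ofComplex_apply_of_im_pos hw]
      have e3 : (ofComplex w : ℍ).im = w.im := by rw [ofComplex_apply_of_im_pos hw]; rfl
      simp only [hG, hχdef, e2, e3]
      ring
    · rw [indicator_of_notMem (show w ∉ {w : ℂ | 0 < w.im} from hw)]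
      have : c w = 0 := by
        by_contra h
        exact hw (hcU (subset_tsupport c h))
      rw [this, zero_mul, zero_mul, ENNReal.ofReal_zero]
  · refine ENNReal.measurable_ofReal.comp (Continuous.measurable ?_)
    exact (hχc.div hN fun z => (hpos z).ne').mul hfe

end Surf

open _root_.QE.Surf in
/-- **From the local theorem to closed surfaces**, with a general constant `κ`. -/
theorem surf_lower' {Γ : Subgroup SL(2, ℝ)} [Countable Γ] {D : Set ℍ} (hDm : MeasurableSet D)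
    (hD : IsFundamentalDomain Γ D (volume : Measure ℍ))
    (hK : ∃ K : Set ℍ, IsCompact K ∧ ∀ z, ∃ γ ∈ Γ, γ • z ∈ K)
    {ρ : ℍ → ℝ} (hρ : Continuous ρ) (hρΓ : ∀ γ ∈ Γ, ∀ z, ρ (γ • z) = ρ z)
    {F : ℕ → ℍ → ℝ} (hF0 : ∀ n z, 0 ≤ F n z) (hFc : ∀ n, Continuous (F n))
    (hFΓ : ∀ n, ∀ γ ∈ Γ, ∀ z, F n (γ • z) = F n z) (κ : ℝ)
    (hloc : ∀ ζ : ℂ → ℝ, Continuous ζ → HasCompactSupport ζ → tsupport ζ ⊆ {w | 0 < w.im} →
      (∀ w, 0 ≤ ζ w) → ∀ ε > 0, ∀ᶠ n in atTop,
        κ * (∫ w, ζ w) - ε ≤ ∫ w, ζ w * F n (ofComplex w)) (ε : ℝ) (hε : 0 < ε) :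
    ∀ᶠ n in atTop, κ - ε ≤ rAvg ρ D (F n) := by
  have hg : Geo Γ ρ D := ⟨hD, hDm, finite_of_cocompact hD hK, hρΓ, bdd_of_cocompact hρ hρΓ hK,
    unif_of_cocompact hρ hρΓ hK⟩
  obtain ⟨ζ, h1, h2, h3, h4, h5⟩ := exists_test hD hDm hK hρ hρΓ
  have hA : ∫ w, ζ w = (area ρ D).toReal := by
    have := h5 (fun _ => 1) continuous_const (fun _ => zero_le_one) (fun _ _ _ => rfl)
    simpa [Measure.real] using this
  have hApos : 0 < (area ρ D).toReal := ENNReal.toReal_pos (area_ne_zero hg) (area_ne_top hg)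
  filter_upwards [hloc ζ h1 h2 h3 h4 (ε * (area ρ D).toReal) (by positivity)] with n hn
  rw [h5 (F n) (hFc n) (hF0 n) (hFΓ n), hA] at hn
  unfold rAvg ProbabilityTheory.cond
  rw [integral_smul_measure, smul_eq_mul, ENNReal.toReal_inv]
  rw [inv_mul_eq_div, le_div_iff₀ hApos]
  linarith

/-- **From the local theorem to closed surfaces.** -/
theorem surf_lower {Γ : Subgroup SL(2, ℝ)} [Countable Γ] {D : Set ℍ} (hDm : MeasurableSet D)
    (hD : IsFundamentalDomain Γ D (volume : Measure ℍ))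
    (hK : ∃ K : Set ℍ, IsCompact K ∧ ∀ z, ∃ γ ∈ Γ, γ • z ∈ K)
    {ρ : ℍ → ℝ} (hρ : Continuous ρ) (hρΓ : ∀ γ ∈ Γ, ∀ z, ρ (γ • z) = ρ z)
    {F : ℕ → ℍ → ℝ} (hF0 : ∀ n z, 0 ≤ F n z) (hFc : ∀ n, Continuous (F n))
    (hFΓ : ∀ n, ∀ γ ∈ Γ, ∀ z, F n (γ • z) = F n z)
    (hloc : ∀ ζ : ℂ → ℝ, Continuous ζ → HasCompactSupport ζ → tsupport ζ ⊆ {w | 0 < w.im} →
      (∀ w, 0 ≤ ζ w) → ∀ ε > 0, ∀ᶠ n in atTop,
        3 * (∫ w, ζ w) - ε ≤ ∫ w, ζ w * F n (ofComplex w)) :
    ∀ ε > 0, ∀ᶠ n in atTop, 3 - ε ≤ rAvg ρ D (F n) := fun ε hε =>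
  surf_lower' hDm hD hK hρ hρΓ hF0 hFc hFΓ 3 hloc ε hε

end

end QE


end

section

/-!
Quantum ergodicity on a surface and the fourth moment: the lower bound.
-/

open MeasureTheory UpperHalfPlane MatrixGroups Filter Topology Set
open scoped ContDiff

namespace QE

noncomputable section

theorem bddIneq (g : ℂ → ℝ) : BddIneq g := fun _ hV hg hpos _ _ H hb _ hs hc hsub h0 _ hε =>
  local_bdd hV hg hpos H hb hs hc hsub h0 hε

theorem continuous_of_smooth {f : ℍ → ℝ}
    (h : ContDiffOn ℝ ∞ (fun w : ℂ => f (ofComplex w)) {w | 0 < w.im}) : Continuous f := by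
  have h1 : ContinuousOn (fun w : ℂ => f (ofComplex w)) {w | 0 < w.im} := h.continuousOn
  have h2 : Continuous (fun z : ℍ => (fun w : ℂ => f (ofComplex w)) (z : ℂ)) :=
    h1.comp_continuous UpperHalfPlane.continuous_coe fun z => z.im_pos
  refine h2.congr fun z => ?_
  simp only [ofComplex_apply]

theorem smooth_weight {ρ : ℍ → ℝ}
    (hρ : ContDiffOn ℝ ∞ (fun w : ℂ => ρ (ofComplex w)) {w | 0 < w.im}) :
    ContDiffOn ℝ ∞ (fun z : ℂ => Real.exp (2 * ρ (ofComplex z)) / z.im ^ 2) {w | 0 < w.im} := by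
  have h1 : ContDiffOn ℝ ∞ (fun z : ℂ => z.im) {w : ℂ | 0 < w.im} :=
    Complex.imCLM.contDiff.contDiffOn
  exact ((contDiffOn_const.mul hρ).exp).div (h1.pow 2) fun z hz => by
    have : 0 < z.im := hz
    positivity

/-- **The local lower bound.** -/
theorem lower_local {Γ : Subgroup SL(2, ℝ)} {ρ : ℍ → ℝ}
    (hρ : ContDiffOn ℝ ∞ (fun w : ℂ => ρ (ofComplex w)) {w | 0 < w.im})
    {φ : ℕ → ℍ → ℝ} {m : ℕ → ℝ} (hφ : Berry.REigenSeq Γ ρ φ m)
    (hs : ∀ n, ContDiffOn ℝ ∞ (fun w : ℂ => φ n (ofComplex w)) {w | 0 < w.im})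
    (hq : QuantumErgodic ρ φ m) {ζ : ℂ → ℝ} (hc : Continuous ζ) (hsupp : HasCompactSupport ζ)
    (hsub : tsupport ζ ⊆ {w | 0 < w.im}) (h0 : ∀ w, 0 ≤ ζ w) {ε : ℝ} (hε : 0 < ε) :
    ∀ᶠ n in atTop, 3 * (∫ w, ζ w) - ε ≤ ∫ w, ζ w * φ n (ofComplex w) ^ 4 := by
  obtain ⟨N, H⟩ := localQE_of_surface hρ hφ hs hq
  have hU : IsOpen {z : ℂ | 0 < z.im} := isOpen_lt continuous_const Complex.continuous_im
  have h1 := localize (bddIneq _) hU (smooth_weight hρ) (fun z hz => by
    have : 0 < z.im := hz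
    positivity) H hc hsupp hsub h0 hε
  have h2 : ∀ᶠ n in atTop, 3 * (∫ w, ζ w) - ε ≤ ∫ w, ζ w * φ (n + N) (ofComplex w) ^ 4 := by
    filter_upwards [h1] with n hn
    simpa only [Complex.ofReal_re] using hn
  obtain ⟨M, hM⟩ := eventually_atTop.1 h2
  refine eventually_atTop.2 ⟨M + N, fun n hn => ?_⟩
  have := hM (n - N) (by omega)
  rwa [Nat.sub_add_cancel (by omega)] at this

/-- **The lower bound on closed surfaces.** -/
theorem lower_surface {Γ : Subgroup SL(2, ℝ)} [Countable Γ] {D : Set ℍ} (hDm : MeasurableSet D)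
    (hD : IsFundamentalDomain Γ D (volume : Measure ℍ))
    (hK : ∃ K : Set ℍ, IsCompact K ∧ ∀ z, ∃ γ ∈ Γ, γ • z ∈ K) {ρ : ℍ → ℝ}
    (hρ : ContDiffOn ℝ ∞ (fun w : ℂ => ρ (ofComplex w)) {w | 0 < w.im})
    (hρΓ : ∀ γ ∈ Γ, ∀ z, ρ (γ • z) = ρ z)
    {φ : ℕ → ℍ → ℝ} {m : ℕ → ℝ} (hφ : Berry.REigenSeq Γ ρ φ m)
    (hs : ∀ n, ContDiffOn ℝ ∞ (fun w : ℂ => φ n (ofComplex w)) {w | 0 < w.im})
    (hq : QuantumErgodic ρ φ m) {ε : ℝ} (hε : 0 < ε) :
    ∀ᶠ n in atTop, 3 - ε ≤ Berry.rAvg ρ D (fun z => φ n z ^ 4) :=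
  surf_lower hDm hD hK (continuous_of_smooth hρ) hρΓ (F := fun n z => φ n z ^ 4)
    (fun n z => by positivity) (fun n => (continuous_of_smooth (hs n)).pow 4)
    (fun n γ hγ z => by rw [hφ.invariant n γ hγ z])
    (fun ζ hc hsupp hsub h0 ε hε => lower_local hρ hφ hs hq hc hsupp hsub h0 hε) ε hε

end

end QE


end

section

/-!
The local coordinates at a frame as displacements.
-/

open Complex MeasureTheory Filter Topology Set MatrixGroups
open UpperHalfPlane hiding I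
open scoped ContDiff

namespace QE

noncomputable section

/-- the upper half plane in `ℂ` -/
abbrev HH : Set ℂ := {z : ℂ | 0 < z.im}

lemma isOpen_HH : IsOpen HH := isOpen_lt continuous_const Complex.continuous_im

lemma one_add_ne {c : ℂ} (hc : ‖c‖ < 1) : 1 + c ≠ 0 := by
  intro h0
  have : c = -1 := by linear_combination h0
  rw [this, norm_neg, norm_one] at hc
  exact lt_irrefl _ hc

lemma rot_coe (θ : ℝ) {t : ℂ} (ht : ‖t‖ < 1) (hi : 0 < (I + t).im) :
    ((Berry.rot θ • (ofComplex (I + t) : ℍ) : ℍ) : ℂ)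
      = I + t * uu θ ^ 2 / (1 + t * uu θ * Real.sin θ) := by
  rw [coe_specialLinearGroup_apply, Berry.coe_ofComplex hi]
  have hcs : (Real.cos θ : ℂ) ^ 2 + (Real.sin θ : ℂ) ^ 2 = 1 := by
    exact_mod_cast Real.cos_sq_add_sin_sq θ
  have hu : uu θ = Real.cos θ - Real.sin θ * I := by
    unfold uu
    rw [← Complex.ofReal_neg, Complex.exp_mul_I, ← Complex.ofReal_cos, ← Complex.ofReal_sin,
      Real.cos_neg, Real.sin_neg]
    push_cast; ring
  have hc : ‖t * uu θ * Real.sin θ‖ < 1 := by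
    rw [norm_mul, norm_mul, norm_uu, mul_one, Complex.norm_real, Real.norm_eq_abs]
    have := Real.abs_sin_le_one θ
    have h0 := norm_nonneg t
    nlinarith
  have h1 := one_add_ne hc
  have hI : I ^ 2 = -1 := I_sq
  set D : ℂ := (Real.sin θ : ℂ) * (I + t) + Real.cos θ with hD
  have e : uu θ * D = 1 + t * uu θ * Real.sin θ := by
    rw [hu, hD]
    linear_combination hcs - (Real.sin θ : ℂ) ^ 2 * hI
  have hne : D ≠ 0 := by
    intro h0
    rw [h0, mul_zero] at e
    exact h1 e.symm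
  have e2 : t * uu θ ^ 2 / (1 + t * uu θ * Real.sin θ) = t * uu θ / D := by
    rw [← e]
    have := uu_ne θ
    field_simp
  rw [e2]
  simp only [Berry.rot, Matrix.of_apply, Matrix.cons_val',
    Matrix.cons_val_zero, Matrix.cons_val_one, Algebra.algebraMap_self, RingHom.id_apply]
  show ((Real.cos θ : ℂ) * (I + t) + ((-Real.sin θ : ℝ) : ℂ)) / D = I + t * uu θ / D
  rw [div_eq_iff hne, add_mul, div_mul_cancel₀ _ hne, hu, hD]
  push_cast
  linear_combination (-(Complex.sin θ : ℂ)) * hI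

lemma frame_coe (z : ℍ) (θ : ℝ) {t : ℂ} (ht : ‖t‖ < 1) :
    ((Berry.frame (z, θ) • (ofComplex (I + t) : ℍ) : ℍ) : ℂ)
      = z + z.im * (t * uu θ ^ 2 / (1 + t * uu θ * Real.sin θ)) := by
  have hi : 0 < (I + t).im := by
    have h1 := Complex.abs_im_le_norm t
    have h2 := neg_abs_le t.im
    rw [Complex.add_im, Complex.I_im]
    linarith
  unfold Berry.frame
  rw [mul_smul, Berry.toSL2R_smul_coe, rot_coe θ ht hi]
  have h3 : (z : ℂ) = z.re + z.im * I := (Complex.re_add_im (z : ℂ)).symm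
  show (z.im : ℂ) * (I + t * uu θ ^ 2 / (1 + t * uu θ * Real.sin θ)) + z.re = _
  rw [h3]; ring

end

end QE


end

section

/-!
The displacements of the local coordinates at a frame.
-/

open Complex MeasureTheory Filter Topology Set MatrixGroups
open UpperHalfPlane hiding I
open scoped ContDiff

namespace QE

noncomputable section

/-- the rescaled displacement -/
def frXi (h : ℕ → ℝ) (e : ℂ → ℝ) (x : ℂ) (n : ℕ) (θ : ℝ) (z : ℂ) : ℂ :=
  x * uu θ ^ 2 / (1 + h n * x * uu θ * Real.sin θ * e z)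

lemma norm_c_le {h : ℝ} (hh : 0 ≤ h) (x : ℂ) (θ : ℝ) : ‖(h : ℂ) * x * uu θ * Real.sin θ‖ ≤ h * ‖x‖ := by
  rw [norm_mul, norm_mul, norm_mul, norm_uu, mul_one, Complex.norm_real, Complex.norm_real,
    Real.norm_of_nonneg hh, Real.norm_eq_abs]
  have := Real.abs_sin_le_one θ
  have h0 : 0 ≤ h * ‖x‖ := by positivity
  nlinarith

/-- the frames give displacements -/
theorem disp_frame {h : ℕ → ℝ} (hpos : ∀ n, 0 < h n) (hlim : Tendsto h atTop (𝓝 0)) {K : Set ℂ}
    {a : ℂ → ℂ} {b e : ℂ → ℝ} {L M : ℝ} (hL : ∀ z ∈ K, ∀ w ∈ K, ‖a z - a w‖ ≤ L * ‖z - w‖)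
    (hb : ∀ z ∈ K, ∀ w ∈ K, |b z - b w| ≤ ‖z - w‖) (hab : ∀ z ∈ K, a z = b z * e z)
    (hec : ContinuousOn e K) (hM : ∀ z ∈ K, |e z| ≤ M) (x : ℂ) :
    Disp h a K 2 x (frXi h e x) := by
  rcases K.eq_empty_or_nonempty with rfl | ⟨z₀, hz₀⟩
  · exact ⟨fun ε _ => Eventually.of_forall fun n θ z hz => absurd hz (notMem_empty z),
      Eventually.of_forall fun n => by rw [prod_empty]; exact continuousOn_empty _,
      Eventually.of_forall fun n θ z hz => absurd hz (notMem_empty z)⟩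
  have hM0 : 0 ≤ M := (abs_nonneg _).trans (hM z₀ hz₀)
  -- the denominators
  have hsmall : ∀ᶠ n in atTop, h n * (‖x‖ * M) < 1 / 2 := by
    have := hlim.mul_const (‖x‖ * M)
    rw [zero_mul] at this
    exact this.eventually_lt_const (by norm_num)
  have hden : ∀ n, h n * (‖x‖ * M) < 1 / 2 → ∀ θ, ∀ z ∈ K,
      ‖(h n : ℂ) * x * uu θ * Real.sin θ * e z‖ ≤ h n * (‖x‖ * M) := by
    intro n hn θ z hz
    have h1 := norm_c_le (hpos n).le x θ
    rw [norm_mul _ ((e z : ℝ) : ℂ), Complex.norm_real, Real.norm_eq_abs, ← mul_assoc]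
    exact mul_le_mul h1 (hM z hz) (abs_nonneg _) (by have := (hpos n).le; positivity)
  have hden2 : ∀ n, h n * (‖x‖ * M) < 1 / 2 → ∀ θ, ∀ z ∈ K,
      1 / 2 ≤ ‖1 + (h n : ℂ) * x * uu θ * Real.sin θ * e z‖ := by
    intro n hn θ z hz
    have h1 := hden n hn θ z hz
    have h2 := norm_sub_norm_le (1 : ℂ) (-((h n : ℂ) * x * uu θ * Real.sin θ * e z))
    rw [norm_one, norm_neg, sub_neg_eq_add] at h2
    linarith
  refine ⟨fun ε hε => ?_, ?_, ?_⟩
  · -- the limit
    have ht : Tendsto (fun n => 2 * ‖x‖ * (h n * (‖x‖ * M))) atTop (𝓝 0) := by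
      have := (hlim.mul_const (‖x‖ * M)).const_mul (2 * ‖x‖)
      simpa using this
    filter_upwards [hsmall, ht.eventually_lt_const hε] with n hn hn2 θ z hz
    have h1 := hden n hn θ z hz
    have h2 := hden2 n hn θ z hz
    set c := (h n : ℂ) * x * uu θ * Real.sin θ * e z with hc
    have hne : (1 + c) ≠ 0 := by
      intro h0; rw [h0, norm_zero] at h2; linarith
    have e1 : frXi h e x n θ z - uu θ ^ (2 : ℤ) * x = -(x * uu θ ^ 2 * c / (1 + c)) := by
      have e0 : frXi h e x n θ z = x * uu θ ^ 2 / (1 + c) := rfl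
      rw [e0]
      have : uu θ ^ (2 : ℤ) = uu θ ^ 2 := by norm_cast
      rw [this]
      field_simp
      ring
    rw [e1, norm_neg, norm_div, norm_mul, norm_mul, norm_pow, norm_uu, one_pow, mul_one,
      div_le_iff₀ (by linarith)]
    have hx := norm_nonneg x
    calc ‖x‖ * ‖c‖ ≤ ‖x‖ * (h n * (‖x‖ * M)) := by gcongr
      _ = (2 * ‖x‖ * (h n * (‖x‖ * M))) * (1 / 2) := by ring
      _ ≤ ε * ‖1 + c‖ := by
          have := hpos n
          exact mul_le_mul hn2.le h2 (by norm_num) hε.le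
  · filter_upwards [hsmall] with n hn
    unfold frXi
    have c1 : ContinuousOn (fun p : ℝ × ℂ => e p.2) (univ ×ˢ K) :=
      hec.comp continuousOn_snd fun p hp => hp.2
    have c2 : Continuous (fun p : ℝ × ℂ => uu p.1) := continuous_uu.comp continuous_fst
    refine ContinuousOn.div ?_ ?_ fun p hp => ?_
    · exact (continuous_const.mul (c2.pow 2)).continuousOn
    · refine continuousOn_const.add (ContinuousOn.mul ?_ ?_)
      · exact (((continuous_const.mul c2).mul (Complex.continuous_ofReal.comp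
          (Real.continuous_sin.comp continuous_fst)))).continuousOn
      · exact Complex.continuous_ofReal.comp_continuousOn c1
    · have h2 := hden2 n hn p.1 p.2 hp.2
      intro h0
      rw [h0, norm_zero] at h2; linarith
  · have ht : Tendsto (fun n => h n * (‖x‖ * 4 * (|L| + h n * ‖x‖ * M ^ 2))) atTop (𝓝 0) := by
      have h1 : Tendsto (fun n => ‖x‖ * 4 * (|L| + h n * ‖x‖ * M ^ 2)) atTop
          (𝓝 (‖x‖ * 4 * (|L| + 0 * ‖x‖ * M ^ 2))) :=
        (((hlim.mul_const ‖x‖).mul_const (M ^ 2)).const_add |L|).const_mul _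
      have := hlim.mul h1
      simpa using this
    filter_upwards [hsmall, ht.eventually_lt_const (show (0 : ℝ) < 1 / 2 by norm_num)]
      with n hn hn2 θ z hz w hw
    have hz2 := hden2 n hn θ z hz
    have hw2 := hden2 n hn θ w hw
    have hcn := norm_c_le (hpos n).le x θ
    set c := (h n : ℂ) * x * uu θ * Real.sin θ with hc
    set E1 : ℂ := ((e z : ℝ) : ℂ) with hE1
    set E2 : ℂ := ((e w : ℝ) : ℂ) with hE2
    have nz : (1 + c * E1) ≠ 0 := by
      intro h0; rw [h0, norm_zero] at hz2; linarith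
    have nw : (1 + c * E2) ≠ 0 := by
      intro h0; rw [h0, norm_zero] at hw2; linarith
    have e1 : (h n : ℂ) * a z * frXi h e x n θ z - (h n : ℂ) * a w * frXi h e x n θ w
        = (h n : ℂ) * x * uu θ ^ 2 * ((a z - a w) + c * E1 * E2 * (b z - b w))
          / ((1 + c * E1) * (1 + c * E2)) := by
      have e0 : frXi h e x n θ z = x * uu θ ^ 2 / (1 + c * E1) := rfl
      have e0' : frXi h e x n θ w = x * uu θ ^ 2 / (1 + c * E2) := rfl
      rw [e0, e0', hab z hz, hab w hw]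
      field_simp
      ring
    rw [e1, norm_div, norm_mul, norm_mul, norm_mul, norm_pow, norm_uu, one_pow, mul_one, norm_mul,
      Complex.norm_real, Real.norm_of_nonneg (hpos n).le]
    have hE1n : ‖E1‖ ≤ M := by rw [hE1, Complex.norm_real]; exact hM z hz
    have hE2n : ‖E2‖ ≤ M := by rw [hE2, Complex.norm_real]; exact hM w hw
    have hbn : ‖(b z : ℂ) - b w‖ ≤ ‖z - w‖ := by
      rw [← Complex.ofReal_sub, Complex.norm_real]; exact hb z hz w hw
    have hpn := (hpos n).le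
    have hnum : ‖(a z - a w) + c * E1 * E2 * (b z - b w)‖
        ≤ (|L| + h n * ‖x‖ * M ^ 2) * ‖z - w‖ := by
      refine (norm_add_le _ _).trans ?_
      rw [norm_mul, norm_mul, norm_mul]
      have h3 : ‖a z - a w‖ ≤ |L| * ‖z - w‖ := (hL z hz w hw).trans (by
        have := le_abs_self L; gcongr)
      have h4 : ‖c‖ * ‖E1‖ * ‖E2‖ * ‖(b z : ℂ) - b w‖ ≤ (h n * ‖x‖) * M * M * ‖z - w‖ := by
        gcongr
      calc _ ≤ |L| * ‖z - w‖ + (h n * ‖x‖) * M * M * ‖z - w‖ := add_le_add h3 h4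
        _ = _ := by ring
    have hd : 1 / 4 ≤ ‖1 + c * E1‖ * ‖1 + c * E2‖ := by nlinarith
    rw [div_le_iff₀ (by linarith)]
    have hzw := norm_nonneg (z - w)
    calc h n * ‖x‖ * ‖(a z - a w) + c * E1 * E2 * (b z - b w)‖
        ≤ h n * ‖x‖ * ((|L| + h n * ‖x‖ * M ^ 2) * ‖z - w‖) := by gcongr
      _ = (h n * (‖x‖ * 4 * (|L| + h n * ‖x‖ * M ^ 2))) * ‖z - w‖ * (1 / 4) := by ring
      _ ≤ 1 / 2 * ‖z - w‖ * (‖1 + c * E1‖ * ‖1 + c * E2‖) := by
          have h5 : (h n * (‖x‖ * 4 * (|L| + h n * ‖x‖ * M ^ 2))) * ‖z - w‖ ≤ 1 / 2 * ‖z - w‖ := by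
            gcongr
          exact mul_le_mul h5 hd (by norm_num) (by positivity)

end

end QE


end

section

/-!
From local limits to limits of averages over closed surfaces.
-/

open MeasureTheory Filter Topology Set MatrixGroups UpperHalfPlane
open scoped ContDiff

namespace QE

noncomputable section

variable {Γ : Subgroup SL(2, ℝ)} {ρ : ℍ → ℝ} {D : Set ℍ}

open Surf in
/-- one test function on the upper half plane, positive on a given compact set, computes the
integrals over `D` of all invariant functions -/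
lemma exists_test' [Countable Γ] (hD : IsFundamentalDomain Γ D (volume : Measure ℍ))
    (hDm : MeasurableSet D) (hK : ∃ K : Set ℍ, IsCompact K ∧ ∀ z, ∃ γ ∈ Γ, γ • z ∈ K)
    (hρ : Continuous ρ) (hρΓ : ∀ γ ∈ Γ, ∀ z, ρ (γ • z) = ρ z) {K' : Set ℂ} (hK' : IsCompact K')
    (hK'U : K' ⊆ HH) :
    ∃ ζ : ℂ → ℝ, Continuous ζ ∧ HasCompactSupport ζ ∧ tsupport ζ ⊆ {w | 0 < w.im} ∧
      (∀ w, 0 ≤ ζ w) ∧ (∃ c₀ > 0, ∀ w ∈ K', c₀ ≤ ζ w) ∧
      ∀ f : ℍ → ℝ, Continuous f → (∀ z, 0 ≤ f z) →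
        (∀ γ ∈ Γ, ∀ z, f (γ • z) = f z) →
        ∫ w, ζ w * f (ofComplex w) = ∫ z in D, f z ∂(Berry.area ρ) := by
  obtain ⟨K₀, hK₀c, hcov₀⟩ := hK
  have hK'c : IsCompact (UpperHalfPlane.coe ⁻¹' K') := by
    rw [isOpenEmbedding_coe.isInducing.isCompact_preimage_iff]
    · exact hK'
    · rw [range_coe]; exact hK'U
  set K : Set ℍ := K₀ ∪ UpperHalfPlane.coe ⁻¹' K' with hKdef
  have hKc : IsCompact K := hK₀c.union hK'c
  have hcov : ∀ z, ∃ γ ∈ Γ, γ • z ∈ K := fun z => by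
    obtain ⟨γ, hγ, hz⟩ := hcov₀ z
    exact ⟨γ, hγ, Or.inl hz⟩
  obtain ⟨c, hc, hcs, hcU, hc0, hc1⟩ := exists_cut hKc
  set χ : ℍ → ℝ := fun z => c z with hχdef
  have hχc : Continuous χ := hc.comp continuous_coe
  have hχ0 : ∀ z, 0 ≤ χ z := fun z => hc0 _
  -- the support of `χ` is bounded
  have hcomp : IsCompact (UpperHalfPlane.coe ⁻¹' tsupport c) := by
    rw [isOpenEmbedding_coe.isInducing.isCompact_preimage_iff]
    · exact hcs
    · rw [range_coe]; exact hcU
  obtain ⟨R, hR⟩ := hcomp.isBounded.subset_closedBall I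
  have hχ : ∀ z, χ z ≠ 0 → dist z I ≤ R := fun z hz =>
    hR (show (z : ℂ) ∈ tsupport c from subset_tsupport c hz)
  have hpos : ∀ z, 0 < NN Γ χ z := by
    intro z
    obtain ⟨γ, hγ, hz⟩ := hcov z
    have h1 : χ ((⟨γ, hγ⟩ : Γ) • z) ≤ NN Γ χ z :=
      (NN_summable hD hχ z).le_tsum _ fun δ _ => hχ0 _
    have h2 : χ ((⟨γ, hγ⟩ : Γ) • z) = 1 := hc1 _ hz
    linarith
  have hN := NN_continuous hD hχ hχc
  set G : ℍ → ℝ := fun z => 1 / z.im ^ 2 * (Real.exp (2 * ρ z) / NN Γ χ z) with hG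
  have hGc : Continuous G := by
    refine (continuous_const.div (continuous_im.pow 2) fun z => (pow_pos z.im_pos 2).ne').mul ?_
    exact (Real.continuous_exp.comp (continuous_const.mul hρ)).div hN fun z => (hpos z).ne'
  have hGpos : ∀ z, 0 < G z := by
    intro z
    have h1 := z.im_pos
    have h2 := hpos z
    simp only [hG]
    positivity
  have hG0 : ∀ z, 0 ≤ G z := fun z => (hGpos z).le
  have hlow : ∃ c₀ > 0, ∀ w ∈ K', c₀ ≤ c w * G (ofComplex w) := by
    have h1 : ∃ c₀ > 0, ∀ z ∈ UpperHalfPlane.coe ⁻¹' K', c₀ ≤ G z := by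
      rcases (UpperHalfPlane.coe ⁻¹' K').eq_empty_or_nonempty with he | hne
      · exact ⟨1, one_pos, fun z hz => by rw [he] at hz; exact absurd hz (notMem_empty z)⟩
      · obtain ⟨z₁, hz₁, hmin⟩ := hK'c.exists_isMinOn hne hGc.continuousOn
        exact ⟨G z₁, hGpos z₁, fun z hz => hmin hz⟩
    obtain ⟨c₀, hc₀, h1⟩ := h1
    refine ⟨c₀, hc₀, fun w hw => ?_⟩
    have hwU := hK'U hw
    have e2 : ((ofComplex w : ℍ) : ℂ) = w := by rw [ofComplex_apply_of_im_pos hwU]
    have hz : (ofComplex w : ℍ) ∈ UpperHalfPlane.coe ⁻¹' K' := by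
      show ((ofComplex w : ℍ) : ℂ) ∈ K'
      rw [e2]; exact hw
    have h2 := hc1 _ (Or.inr hz : (ofComplex w : ℍ) ∈ K)
    rw [e2] at h2
    rw [h2, one_mul]
    exact h1 _ hz
  refine ⟨fun w => c w * G (ofComplex w), continuous_cut_mul hc hcU hGc, hcs.mul_right,
    (closure_mono (Function.support_mul_subset_left _ _)).trans hcU,
    fun w => mul_nonneg (hc0 w) (hG0 _), hlow, ?_⟩
  intro f hf hf0 hinv
  have hU : IsOpen {w : ℂ | 0 < w.im} := isOpen_lt continuous_const Complex.continuous_im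
  -- left side
  have hcont : Continuous fun w => c w * G (ofComplex w) * f (ofComplex w) := by
    have := continuous_cut_mul hc hcU (hGc.mul hf)
    refine this.congr fun w => ?_
    simp only [Pi.mul_apply]; ring
  rw [integral_eq_lintegral_of_nonneg_ae
    (Eventually.of_forall fun w => mul_nonneg (mul_nonneg (hc0 w) (hG0 _)) (hf0 _))
    hcont.aestronglyMeasurable,
    integral_eq_lintegral_of_nonneg_ae (Eventually.of_forall fun z => hf0 z)
      hf.aestronglyMeasurable]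
  congr 1
  have hexp : Measurable fun z => ENNReal.ofReal (Real.exp (2 * ρ z)) :=
    ENNReal.measurable_ofReal.comp
      (Real.continuous_exp.comp (continuous_const.mul hρ)).measurable
  have hfm : Measurable fun z => ENNReal.ofReal (f z) := ENNReal.measurable_ofReal.comp hf.measurable
  unfold Berry.area
  rw [setLIntegral_withDensity_eq_setLIntegral_mul _ hexp hfm hDm]
  have e1 : ∫⁻ z in D, ((fun z => ENNReal.ofReal (Real.exp (2 * ρ z))) *
      fun z => ENNReal.ofReal (f z)) z = ∫⁻ z in D, ENNReal.ofReal (Real.exp (2 * ρ z) * f z) := by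
    refine lintegral_congr fun z => ?_
    rw [Pi.mul_apply, ENNReal.ofReal_mul (Real.exp_pos _).le]
  have hfe : Continuous fun z => Real.exp (2 * ρ z) * f z :=
    (Real.continuous_exp.comp (continuous_const.mul hρ)).mul hf
  rw [e1, Surf.unfold hD hχ hχc hχ0 hpos hfe
    (fun γ hγ z => by simp only [hρΓ γ hγ, hinv γ hγ]), lintegral_uhp]
  · rw [← lintegral_indicator hU.measurableSet]
    refine lintegral_congr fun w => ?_
    by_cases hw : 0 < w.im
    · rw [indicator_of_mem (show w ∈ {w : ℂ | 0 < w.im} from hw),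
        ← ENNReal.ofReal_mul (by positivity)]
      congr 1
      have e2 : ((ofComplex w : ℍ) : ℂ) = w := by rw [ofComplex_apply_of_im_pos hw]
      have e3 : (ofComplex w : ℍ).im = w.im := by rw [ofComplex_apply_of_im_pos hw]; rfl
      simp only [hG, hχdef, e2, e3]
      ring
    · rw [indicator_of_notMem (show w ∉ {w : ℂ | 0 < w.im} from hw)]
      have : c w = 0 := by
        by_contra h
        exact hw (hcU (subset_tsupport c h))
      rw [this, zero_mul, zero_mul, ENNReal.ofReal_zero]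
  · refine ENNReal.measurable_ofReal.comp (Continuous.measurable ?_)
    exact (hχc.div hN fun z => (hpos z).ne').mul hfe

/-- the averages of the invariant functions are their integrals against a test function -/
lemma rAvg_eq [Countable Γ] (hg : Berry.Geo Γ ρ D)
    (hK : ∃ K : Set ℍ, IsCompact K ∧ ∀ z, ∃ γ ∈ Γ, γ • z ∈ K) {ζ : ℂ → ℝ}
    (hζc : Continuous ζ) (hζs : HasCompactSupport ζ) (hζU : tsupport ζ ⊆ HH)
    (h5 : ∀ f : ℍ → ℝ, Continuous f → (∀ z, 0 ≤ f z) →
        (∀ γ ∈ Γ, ∀ z, f (γ • z) = f z) →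
        ∫ w, ζ w * f (ofComplex w) = ∫ z in D, f z ∂(Berry.area ρ))
    {f : ℍ → ℝ} (hf : Continuous f) (hinv : ∀ γ ∈ Γ, ∀ z, f (γ • z) = f z) :
    Berry.rAvg ρ D f = ((Berry.area ρ D).toReal)⁻¹ * ∫ w, ζ w * f (ofComplex w) := by
  obtain ⟨C, hC⟩ := Berry.bdd_of_cocompact hf hinv hK
  have hA : ∫ w, ζ w = (Berry.area ρ D).toReal := by
    have := h5 (fun _ => 1) continuous_const (fun _ => zero_le_one) (fun _ _ _ => rfl)
    simpa [Measure.real] using this
  have h1 := h5 (fun z => f z + C) (hf.add continuous_const)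
    (fun z => by have := (abs_le.1 (hC z)).1; linarith) (fun γ hγ z => by
      beta_reduce; rw [hinv γ hγ z])
  have i1 : Integrable (fun w => ζ w * f (ofComplex w)) :=
    (Surf.continuous_cut_mul hζc hζU hf).integrable_of_hasCompactSupport hζs.mul_right
  have i2 : Integrable ζ := hζc.integrable_of_hasCompactSupport hζs
  have e1 : ∫ w, ζ w * (f (ofComplex w) + C) = (∫ w, ζ w * f (ofComplex w)) + C * ∫ w, ζ w := by
    rw [← integral_const_mul, ← integral_add i1 (i2.const_mul C)]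
    congr 1; funext w; ring
  have hfin : IsFiniteMeasure ((Berry.area ρ).restrict D) :=
    ⟨by rw [Measure.restrict_apply_univ]; exact (Berry.area_ne_top hg).lt_top⟩
  have i3 : Integrable f ((Berry.area ρ).restrict D) :=
    Integrable.of_bound hf.aestronglyMeasurable C (Eventually.of_forall fun z => by
      rw [Real.norm_eq_abs]; exact hC z)
  have e2 : ∫ z in D, (f z + C) ∂(Berry.area ρ) = (∫ z in D, f z ∂(Berry.area ρ))
      + C * (Berry.area ρ D).toReal := by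
    rw [integral_add i3 (integrable_const C), integral_const, smul_eq_mul,
      measureReal_restrict_apply_univ]
    unfold Measure.real
    ring
  rw [e1, e2, hA] at h1
  have h2 : ∫ w, ζ w * f (ofComplex w) = ∫ z in D, f z ∂(Berry.area ρ) := by linarith
  rw [h2]
  unfold Berry.rAvg ProbabilityTheory.cond
  rw [integral_smul_measure, smul_eq_mul, ENNReal.toReal_inv]

/-- **From local limits to limits of averages.** -/
theorem global_lim [Countable Γ] (hg : Berry.Geo Γ ρ D) (hρ : Continuous ρ)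
    (hK : ∃ K : Set ℍ, IsCompact K ∧ ∀ z, ∃ γ ∈ Γ, γ • z ∈ K) {F : ℕ → ℍ → ℝ}
    (hF : ∀ᶠ n in atTop, Continuous (F n)) (hinv : ∀ n, ∀ γ ∈ Γ, ∀ z, F n (γ • z) = F n z)
    (hbd : ∀ K : Set ℂ, IsCompact K → K ⊆ HH → ∃ C : ℝ, ∀ᶠ n in atTop,
      ∫ z in K, |F n (ofComplex z)| ≤ C)
    (hloc : ∀ ψ : ℂ → ℝ, ContDiff ℝ ∞ ψ → HasCompactSupport ψ → tsupport ψ ⊆ HH →
      Tendsto (fun n => ∫ z, ψ z * F n (ofComplex z)) atTop (𝓝 0)) :
    Tendsto (fun n => Berry.rAvg ρ D (F n)) atTop (𝓝 0) := by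
  obtain ⟨ζ, hζc, hζs, hζU, hζ0, -, h5⟩ := exists_test' (K' := ∅) hg.dom hg.meas hK hρ hg.inv
    isCompact_empty (empty_subset _)
  have hKc : IsCompact (tsupport ζ) := hζs
  obtain ⟨C, hC⟩ := hbd _ hKc hζU
  set A := (Berry.area ρ D).toReal with hA
  have hA0 : 0 < A := ENNReal.toReal_pos (Berry.area_ne_zero hg) (Berry.area_ne_top hg)
  have hlim : Tendsto (fun n => ∫ w, ζ w * F n (ofComplex w)) atTop (𝓝 0) := by
    rw [Metric.tendsto_nhds]
    intro ε hε
    set δ : ℝ := ε / (12 * (|C| + 1)) with hδ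
    have hδ0 : 0 < δ := by positivity
    obtain ⟨ψ, hψ, hψ1, hψ2⟩ := exists_smooth_between hζc hδ0
    have hψ0 : ∀ z, 0 ≤ ψ z := fun z => (le_max_right _ _).trans (hψ1 z)
    have hsupp : Function.support ψ ⊆ Function.support ζ := by
      intro z hz hz0
      apply hz
      have h1 := hψ2 z
      rw [hz0, max_eq_right (by linarith)] at h1
      exact le_antisymm h1 (hψ0 z)
    have hts : tsupport ψ ⊆ tsupport ζ := closure_mono hsupp
    have hψs : HasCompactSupport ψ := hKc.of_isClosed_subset (isClosed_tsupport _) hts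
    have hclose : ∀ z, |ζ z - ψ z| ≤ 3 * δ := by
      intro z
      have h1 := hψ1 z
      have h2 := hψ2 z
      have h3 := hζ0 z
      have h4 := le_max_left (ζ z - 3 * δ) 0
      have h5 : max (ζ z - δ) 0 ≤ ζ z := max_le (by linarith) h3
      rw [abs_le]
      constructor <;> linarith
    have hl := hloc ψ hψ hψs (hts.trans hζU)
    filter_upwards [hC, hF, (Metric.tendsto_nhds.1 hl) (ε / 2) (by positivity)] with n h1 h2 h3
    rw [dist_zero_right, Real.norm_eq_abs] at h3 ⊢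
    have iζ : Integrable (fun w => ζ w * F n (ofComplex w)) :=
      (Surf.continuous_cut_mul hζc hζU h2).integrable_of_hasCompactSupport hζs.mul_right
    have iψ : Integrable (fun w => ψ w * F n (ofComplex w)) :=
      (Surf.continuous_cut_mul hψ.continuous (hts.trans hζU) h2).integrable_of_hasCompactSupport
        hψs.mul_right
    have hFc : ContinuousOn (fun z : ℂ => F n (ofComplex z)) HH := by
      intro z hz
      exact (h2.continuousAt.comp (contMDiffAt_ofComplex (n := 0) hz).continuousAt).continuousWithinAt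
    have hdiff : |(∫ w, ζ w * F n (ofComplex w)) - ∫ w, ψ w * F n (ofComplex w)| ≤ 3 * δ * |C| := by
      rw [← integral_sub iζ iψ]
      have e1 : ∫ w, (ζ w * F n (ofComplex w) - ψ w * F n (ofComplex w))
          = ∫ w in tsupport ζ, (ζ w - ψ w) * F n (ofComplex w) := by
        rw [setIntegral_eq_integral_of_forall_compl_eq_zero]
        · congr 1; funext w; ring
        · intro z hz
          rw [image_eq_zero_of_notMem_tsupport hz,
            image_eq_zero_of_notMem_tsupport (fun hz' => hz (hts hz')), sub_zero, zero_mul]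
      rw [e1, ← Real.norm_eq_abs]
      calc ‖∫ w in tsupport ζ, (ζ w - ψ w) * F n (ofComplex w)‖
          ≤ ∫ w in tsupport ζ, 3 * δ * |F n (ofComplex w)| := by
            refine norm_integral_le_of_norm_le ?_ (Eventually.of_forall fun w => ?_)
            · exact ((hFc.mono hζU).abs.integrableOn_compact hKc).const_mul _
            · rw [norm_mul, Real.norm_eq_abs, Real.norm_eq_abs]
              exact mul_le_mul_of_nonneg_right (hclose w) (abs_nonneg _)
        _ ≤ 3 * δ * |C| := by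
            rw [integral_const_mul]
            have := h1.trans (le_abs_self C)
            gcongr
    have h6 : 3 * δ * |C| ≤ ε / 4 := by
      have h7 : 0 ≤ |C| := abs_nonneg C
      calc 3 * δ * |C| ≤ 3 * δ * (|C| + 1) := by gcongr; linarith
        _ = ε / 4 := by rw [hδ]; field_simp; norm_num
    have h8 := abs_sub_abs_le_abs_sub (∫ w, ζ w * F n (ofComplex w)) (∫ w, ψ w * F n (ofComplex w))
    linarith
  have h9 := hlim.const_mul A⁻¹
  rw [mul_zero] at h9
  refine h9.congr' ?_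
  filter_upwards [hF] with n hn
  exact (rAvg_eq hg hK hζc hζs hζU h5 hn (hinv n)).symm

end

end QE


end

section

/-!
The local waves on closed surfaces: continuity, invariance, and the relation with displacements.
-/

open MeasureTheory Filter Topology Set MatrixGroups UpperHalfPlane
open scoped ContDiff

namespace QE

noncomputable section

variable {Γ : Subgroup SL(2, ℝ)} {ρ : ℍ → ℝ} {D : Set ℍ}

/-- local integrals are controlled by averages -/
theorem loc_le [Countable Γ] (hg : Berry.Geo Γ ρ D) (hρ : Continuous ρ)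
    (hK : ∃ K : Set ℍ, IsCompact K ∧ ∀ z, ∃ γ ∈ Γ, γ • z ∈ K) {K' : Set ℂ} (hK' : IsCompact K')
    (hK'U : K' ⊆ HH) : ∃ C : ℝ, 0 ≤ C ∧ ∀ f : ℍ → ℝ, Continuous f → (∀ z, 0 ≤ f z) →
      (∀ γ ∈ Γ, ∀ z, f (γ • z) = f z) →
      ∫ z in K', f (ofComplex z) ≤ C * Berry.rAvg ρ D f := by
  obtain ⟨ζ, hζc, hζs, hζU, hζ0, ⟨c₀, hc₀, hlow⟩, h5⟩ := exists_test' hg.dom hg.meas hK hρ hg.inv
    hK' hK'U
  set A := (Berry.area ρ D).toReal with hA
  have hA0 : 0 < A := ENNReal.toReal_pos (Berry.area_ne_zero hg) (Berry.area_ne_top hg)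
  refine ⟨c₀⁻¹ * A, by positivity, fun f hf hf0 hinv => ?_⟩
  have e := rAvg_eq hg hK hζc hζs hζU h5 hf hinv
  have iζ : Integrable (fun w => ζ w * f (ofComplex w)) :=
    (Surf.continuous_cut_mul hζc hζU hf).integrable_of_hasCompactSupport hζs.mul_right
  have h1 : ∫ z in K', f (ofComplex z) ≤ ∫ z in K', c₀⁻¹ * (ζ z * f (ofComplex z)) := by
    refine integral_mono_of_nonneg (Eventually.of_forall fun z => hf0 _)
      (iζ.integrableOn.const_mul _) ?_
    refine (ae_restrict_iff' hK'.measurableSet).2 (Eventually.of_forall fun z hz => ?_)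
    have h2 := hlow z hz
    have h3 := hf0 (ofComplex z)
    calc f (ofComplex z) = c₀⁻¹ * (c₀ * f (ofComplex z)) := by field_simp
      _ ≤ c₀⁻¹ * (ζ z * f (ofComplex z)) := by gcongr
  refine h1.trans ?_
  rw [integral_const_mul, e]
  have h4 : ∫ z in K', ζ z * f (ofComplex z) ≤ ∫ z, ζ z * f (ofComplex z) :=
    setIntegral_le_integral iζ (Eventually.of_forall fun z => mul_nonneg (hζ0 z) (hf0 _))
  calc c₀⁻¹ * ∫ z in K', ζ z * f (ofComplex z) ≤ c₀⁻¹ * ∫ z, ζ z * f (ofComplex z) := by (clear * - h4 hc₀; gcongr)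
    _ = c₀⁻¹ * A * (A⁻¹ * ∫ w, ζ w * f (ofComplex w)) := by field_simp

/-- the periodicity of the integral over the angle -/
lemma ang_shift {f : ℝ → ℝ} (hf : Function.Periodic f (2 * Real.pi)) (α : ℝ) :
    ∫ t, f (α + t) ∂ang = ∫ t, f t ∂ang := by
  rw [ang_int, ang_int]
  congr 1
  rw [intervalIntegral.integral_comp_add_left f α]
  have h4 := hf.intervalIntegral_add_eq (α + 0) 0
  rw [zero_add] at h4
  rw [← h4]
  congr 1; ring

/-- the average over the angle of a product of values of the local wave -/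
def angProd (ρ : ℍ → ℝ) (φ : ℍ → ℝ) (m : ℝ) {k : ℕ} (x : Fin k → ℂ) (z : ℍ) : ℝ :=
  ∫ θ, ∏ i, Berry.rWave ρ φ m (x i) (z, θ) ∂ang

lemma angProd_inv {φ : ℍ → ℝ} (hφ : ∀ γ ∈ Γ, ∀ z, φ (γ • z) = φ z)
    (hρ : ∀ γ ∈ Γ, ∀ z, ρ (γ • z) = ρ z) (m : ℝ) {k : ℕ} (x : Fin k → ℂ) :
    ∀ γ ∈ Γ, ∀ z, angProd ρ φ m x (γ • z) = angProd ρ φ m x z := by
  intro γ hγ z
  unfold angProd
  obtain ⟨α, hα⟩ := Berry.mul_frame γ z
  have hper : Function.Periodic (fun θ => ∏ i, Berry.rWave ρ φ m (x i) (γ • z, θ))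
      (2 * Real.pi) := by
    intro θ
    unfold Berry.rWave
    simp only [Berry.frame_periodic]
  rw [← ang_shift hper α]
  congr 1; funext θ
  refine Finset.prod_congr rfl fun i _ => ?_
  unfold Berry.rWave
  simp only
  rw [← hα θ, mul_smul, hφ γ hγ, hρ γ hγ]

/-- the local wave is continuous as soon as the points stay in the upper half plane -/
lemma rWave_continuous {φ : ℍ → ℝ} (hφ : Continuous φ) (hρ : Continuous ρ) {m : ℝ} {x : ℂ}
    (hx : ∀ z : ℍ, ‖x / ((m * Real.exp (ρ z) : ℝ) : ℂ)‖ < 1) (hm : m ≠ 0) :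
    Continuous (Berry.rWave ρ φ m x) := by
  unfold Berry.rWave
  have h1 : Continuous fun p : ℍ × ℝ =>
      (ofComplex (Complex.I + x / ((m * Real.exp (ρ p.1) : ℝ) : ℂ)) : ℍ) := by
    rw [continuous_iff_continuousAt]
    intro p
    have hi : 0 < (Complex.I + x / ((m * Real.exp (ρ p.1) : ℝ) : ℂ)).im := Berry.im_pos_of_norm (hx p.1)
    have h2 : ContinuousAt (ofComplex : ℂ → ℍ) (Complex.I + x / ((m * Real.exp (ρ p.1) : ℝ) : ℂ)) :=
      (contMDiffAt_ofComplex (n := 0) hi).continuousAt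
    refine ContinuousAt.comp (g := (ofComplex : ℂ → ℍ))
      (f := fun p : ℍ × ℝ => Complex.I + x / ((m * Real.exp (ρ p.1) : ℝ) : ℂ)) h2 ?_
    refine continuousAt_const.add (continuousAt_const.div ?_ ?_)
    · exact (Complex.continuous_ofReal.comp (continuous_const.mul
        (Real.continuous_exp.comp (hρ.comp continuous_fst)))).continuousAt
    · have := Real.exp_ne_zero (ρ p.1)
      exact_mod_cast mul_ne_zero hm this
  exact hφ.comp (Berry.frame_continuous.smul h1)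

lemma angProd_continuous {φ : ℍ → ℝ} (hφ : Continuous φ) (hρ : Continuous ρ) {m : ℝ} {k : ℕ}
    {x : Fin k → ℂ} (hx : ∀ i, ∀ z : ℍ, ‖x i / ((m * Real.exp (ρ z) : ℝ) : ℂ)‖ < 1) (hm : m ≠ 0) :
    Continuous (angProd ρ φ m x) := by
  unfold angProd
  simp only [ang_int, smul_eq_mul]
  refine continuous_const.mul ?_
  refine intervalIntegral.continuous_parametric_intervalIntegral_of_continuous' ?_ _ _
  exact continuous_finset_prod _ fun i _ => rWave_continuous hφ hρ (hx i) hm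

/-- the points of the local coordinates as displacements -/
lemma rWave_eq_disp {φ : ℍ → ℝ} {m : ℝ} (hm : 0 < m) (x : ℂ) (θ : ℝ) {z : ℂ} (hz : 0 < z.im)
    (hx : ‖x / ((m * Real.exp (ρ (ofComplex z)) : ℝ) : ℂ)‖ < 1) {n : ℕ} {h : ℕ → ℝ}
    (hh : h n = 1 / m) {a : ℂ → ℂ} (ha : a z = (z.im : ℂ) * (Real.exp (-ρ (ofComplex z)) : ℂ)) :
    Berry.rWave ρ φ m x (ofComplex z, θ) = φ (ofComplex (z + h n * a z
      * frXi h (fun w => Real.exp (-ρ (ofComplex w))) x n θ z)) := by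
  unfold Berry.rWave
  simp only
  set t : ℂ := x / ((m * Real.exp (ρ (ofComplex z)) : ℝ) : ℂ) with ht
  have e1 := frame_coe (ofComplex z) θ hx
  have e2 : ((ofComplex z : ℍ) : ℂ) = z := by rw [ofComplex_apply_of_im_pos hz]
  have e3 : (ofComplex z : ℍ).im = z.im := by rw [ofComplex_apply_of_im_pos hz]; rfl
  have e4 : ((Berry.frame (ofComplex z, θ) • (ofComplex (Complex.I + t) : ℍ) : ℍ) : ℂ)
      = z + h n * a z * frXi h (fun w => Real.exp (-ρ (ofComplex w))) x n θ z := by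
    rw [e1, e2, e3, ha]
    unfold frXi
    rw [hh, ht]
    set E : ℂ := ((Real.exp (ρ (ofComplex z)) : ℝ) : ℂ) with hE
    have hE0 : E ≠ 0 := by rw [hE]; exact_mod_cast Real.exp_ne_zero _
    have hEi : ((Real.exp (-ρ (ofComplex z)) : ℝ) : ℂ) = E⁻¹ := by
      rw [Real.exp_neg, Complex.ofReal_inv]
    have hm0 : (m : ℂ) ≠ 0 := by exact_mod_cast hm.ne'
    have e5 : (((1 / m : ℝ)) : ℂ) * x * uu θ * (Real.sin θ : ℂ) * ((Real.exp (-ρ (ofComplex z)) : ℝ) : ℂ)
        = x / ((m * Real.exp (ρ (ofComplex z)) : ℝ) : ℂ) * uu θ * (Real.sin θ : ℂ) := by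
      rw [hEi]
      push_cast
      rw [← Complex.ofReal_exp, ← hE]
      field_simp
    rw [e5, hEi]
    push_cast
    rw [← Complex.ofReal_exp, ← hE]
    field_simp
  rw [← e4, ofComplex_apply]

end

end QE


end

section

/-!
Correlations of the local waves on closed surfaces from the local formulas.
-/

open MeasureTheory Filter Topology Set MatrixGroups UpperHalfPlane
open scoped ContDiff

namespace QE

noncomputable section

variable {Γ : Subgroup SL(2, ℝ)} {ρ : ℍ → ℝ} {D : Set ℍ}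

/-- the weight of the metric -/
abbrev gw (ρ : ℍ → ℝ) : ℂ → ℝ := fun z => Real.exp (2 * ρ (ofComplex z)) / z.im ^ 2

lemma wt_gw {z : ℂ} (hz : 0 < z.im) :
    wt (gw ρ) z = (z.im : ℂ) * (Real.exp (-ρ (ofComplex z)) : ℂ) := by
  unfold wt gw
  have h1 : Real.sqrt (Real.exp (2 * ρ (ofComplex z)) / z.im ^ 2)
      = Real.exp (ρ (ofComplex z)) / z.im := by
    rw [Real.sqrt_div (Real.exp_pos _).le, Real.sqrt_sq hz.le]
    congr 1
    rw [two_mul, Real.exp_add, Real.sqrt_mul_self (Real.exp_pos _).le]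
  rw [h1, inv_div, Real.exp_neg]
  push_cast
  rw [div_eq_mul_inv]

lemma lip_of_smooth {f : ℂ → ℂ} {U K : Set ℂ} (hU : IsOpen U) (hf : ContDiffOn ℝ ∞ f U)
    (hK : IsCompact K) (hKU : K ⊆ U) : ∃ L : ℝ, ∀ z ∈ K, ∀ w ∈ K, ‖f z - f w‖ ≤ L * ‖z - w‖ := by
  have h1 : LocallyLipschitzOn K f := by
    intro z hz
    have h2 : ContDiffAt ℝ 1 f z := (hf.contDiffAt (hU.mem_nhds (hKU hz))).of_le (by
      exact_mod_cast le_top)
    obtain ⟨C, t, ht, hC⟩ := h2.exists_lipschitzOnWith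
    exact ⟨C, t, mem_nhdsWithin_of_mem_nhds ht, hC⟩
  obtain ⟨C, hC⟩ := h1.exists_lipschitzOnWith_of_compact hK
  refine ⟨C, fun z hz w hw => ?_⟩
  have := hC.dist_le_mul z hz w hw
  rwa [dist_eq_norm, dist_eq_norm] at this

lemma cont_ofComplex {f : ℍ → ℝ} (hf : Continuous f) :
    ContinuousOn (fun z : ℂ => f (ofComplex z)) HH := fun z hz =>
  (hf.continuousAt.comp (contMDiffAt_ofComplex (n := 0) hz).continuousAt).continuousWithinAt

lemma sec_cont {E : Type*} [TopologicalSpace E] {H : ℝ × ℂ → E} {K : Set ℂ}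
    (hH : ContinuousOn H (univ ×ˢ K)) (θ : ℝ) : ContinuousOn (fun z => H (θ, z)) K := by
  refine ContinuousOn.comp hH (Continuous.continuousOn ?_) fun z hz => ?_
  · exact Continuous.prodMk_right θ
  · exact ⟨mem_univ _, hz⟩

lemma disp_cont {H : ℝ × ℂ → ℂ} {K : Set ℂ} (hH : ContinuousOn H (univ ×ˢ K)) {a : ℂ → ℂ}
    (ha : ContinuousOn a K) (c : ℂ) (θ : ℝ) : ContinuousOn (fun z => z + c * a z * H (θ, z)) K :=
  continuousOn_id.add ((continuousOn_const.mul ha).mul (sec_cont hH θ))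

/-- the hypothesis of the reduction: the local formula -/
def LocLim (ρ : ℍ → ℝ) (h : ℕ → ℝ) (φ : ℕ → ℍ → ℝ) {k : ℕ} (x : Fin k → ℂ) (α β : ℝ) : Prop :=
  ∀ (K : Set ℂ) (δ : ℝ), IsCompact K → 0 < δ → Metric.cthickening (2 * δ) K ⊆ HH →
    ∀ ξ : Fin k → ℕ → ℝ → ℂ → ℂ, (∀ i, Disp h (wt (gw ρ)) K 2 (x i) (ξ i)) →
    ∀ ψ : ℂ → ℝ, ContDiff ℝ ∞ ψ → HasCompactSupport ψ → tsupport ψ ⊆ K →
    Tendsto (fun n => (∫ θ, (∫ z, (ψ z : ℂ) * ∏ i, (φ n (ofComplex (z + h n * wt (gw ρ) z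
        * ξ i n θ z)) : ℂ)) ∂ang)
      - ((α : ℂ) * (∫ z, (ψ z : ℂ)) + (β : ℂ) * ∫ z, (ψ z : ℂ) * (φ n (ofComplex z) : ℂ) ^ 4))
      atTop (𝓝 0)

/-- the setting -/
structure WS (Γ : Subgroup SL(2, ℝ)) (ρ : ℍ → ℝ) (D : Set ℍ) (φ : ℕ → ℍ → ℝ) (m h : ℕ → ℝ)
    (g' : ℂ → ℂ) : Prop where
  geo : Berry.Geo Γ ρ D
  coc : ∃ K : Set ℍ, IsCompact K ∧ ∀ z, ∃ γ ∈ Γ, γ • z ∈ K
  rc : Continuous ρ
  pc : ∀ n, Continuous (φ n)
  pinv : ∀ n, ∀ γ ∈ Γ, ∀ z, φ n (γ • z) = φ n z
  mpos : ∀ n, 0 < m n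
  mlim : Tendsto m atTop atTop
  hm : ∀ n, h n = 1 / m n
  set : Setup HH g' (wt (gw ρ)) h (fun n z => (φ n (ofComplex z) : ℂ))

/-- the weight of the frames -/
def em (ρ : ℍ → ℝ) : ℂ → ℝ := fun w => Real.exp (-ρ (ofComplex w))

variable {φ : ℕ → ℍ → ℝ} {m h : ℕ → ℝ} {g' : ℂ → ℂ}

namespace WS

variable {k : ℕ}

/-- the points stay in the upper half plane -/
lemma pt (W : WS Γ ρ D φ m h g') (x : Fin k → ℂ) : ∀ᶠ n in atTop, ∀ i, ∀ z : ℍ,
    ‖x i / ((m n * Real.exp (ρ z) : ℝ) : ℂ)‖ < 1 := by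
  obtain ⟨R, hR⟩ := W.geo.bdd
  rw [eventually_all]
  intro i
  filter_upwards [W.mlim.eventually_gt_atTop (‖x i‖ * Real.exp R)] with n hn z
  rw [norm_div, Complex.norm_real, Real.norm_of_nonneg (by have := (W.mpos n).le; positivity),
    div_lt_one (mul_pos (W.mpos n) (Real.exp_pos _))]
  have h1 : Real.exp (-R) ≤ Real.exp (ρ z) := Real.exp_le_exp.2 (abs_le.1 (hR z)).1
  calc ‖x i‖ = ‖x i‖ * Real.exp R * Real.exp (-R) := by
        rw [mul_assoc, ← Real.exp_add, add_neg_cancel, Real.exp_zero, mul_one]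
    _ < m n * Real.exp (-R) := by gcongr
    _ ≤ m n * Real.exp (ρ z) := by have := (W.mpos n).le; gcongr

lemma wc (W : WS Γ ρ D φ m h g') (x : Fin k → ℂ) :
    ∀ᶠ n in atTop, ∀ i, Continuous (Berry.rWave ρ (φ n) (m n) (x i)) := by
  filter_upwards [W.pt x] with n hn i
  exact rWave_continuous (W.pc n) W.rc (hn i) (W.mpos n).ne'

lemma ac (W : WS Γ ρ D φ m h g') (x : Fin k → ℂ) :
    ∀ᶠ n in atTop, Continuous (angProd ρ (φ n) (m n) x) := by
  filter_upwards [W.pt x] with n hn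
  exact angProd_continuous (W.pc n) W.rc hn (W.mpos n).ne'

/-- displacements on compact sets -/
lemma disp (W : WS Γ ρ D φ m h g') {K : Set ℂ} (hKc : IsCompact K) (hKU : K ⊆ HH) (y : ℂ) :
    Disp h (wt (gw ρ)) K 2 y (frXi h (em ρ) y) := by
  obtain ⟨L, hL⟩ := lip_of_smooth isOpen_HH W.set.ha hKc hKU
  have hec : ContinuousOn (em ρ) K :=
    Real.continuous_exp.comp_continuousOn ((cont_ofComplex W.rc).mono hKU).neg
  obtain ⟨M, hM⟩ := hKc.exists_bound_of_continuousOn hec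
  refine disp_frame W.set.hpos W.set.hlim hL (b := fun z => z.im) (fun z _ w _ => ?_)
    (fun z hz => wt_gw (hKU hz)) hec (fun z hz => hM z hz) y
  have := Complex.abs_im_le_norm (z - w)
  rwa [Complex.sub_im] at this

lemma val (W : WS Γ ρ D φ m h g') (x : Fin k → ℂ) {K : Set ℂ} (hKU : K ⊆ HH) :
    ∀ᶠ n in atTop, ∀ i, ∀ θ, ∀ z ∈ K,
      Berry.rWave ρ (φ n) (m n) (x i) (ofComplex z, θ)
        = φ n (ofComplex (z + h n * wt (gw ρ) z * frXi h (em ρ) (x i) n θ z)) := by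
  filter_upwards [W.pt x] with n hn i θ z hz
  exact rWave_eq_disp (W.mpos n) (x i) θ (hKU hz) (hn i _) (W.hm n) (wt_gw (hKU hz))

/-- joint continuity -/
lemma jc (W : WS Γ ρ D φ m h g') (x : Fin k → ℂ) {K : Set ℂ} (hKU : K ⊆ HH) :
    ∀ᶠ n in atTop, ∀ i, ContinuousOn
      (fun p : ℝ × ℂ => Berry.rWave ρ (φ n) (m n) (x i) (ofComplex p.2, p.1)) (univ ×ˢ K) := by
  filter_upwards [W.wc x] with n hn i p hp
  have h1 : ContinuousAt (ofComplex : ℂ → ℍ) p.2 :=
    (contMDiffAt_ofComplex (n := 0) (hKU hp.2)).continuousAt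
  have h2 : ContinuousAt (fun p : ℝ × ℂ => ((ofComplex p.2, p.1) : ℍ × ℝ)) p :=
    (h1.comp continuousAt_snd).prodMk continuousAt_fst
  exact ((hn i).continuousAt.comp h2).continuousWithinAt

lemma bdd4 (W : WS Γ ρ D φ m h g') {K : Set ℂ} (hKc : IsCompact K) (hKU : K ⊆ HH) :
    ∃ M : ℝ, ∀ᶠ n in atTop, ∫ z in K, φ n (ofComplex z) ^ 4 ≤ M := by
  obtain ⟨M, hM⟩ := W.set.tame.bdd4 K hKc hKU
  refine ⟨M, hM.mono fun n hn => ?_⟩
  have hn4 : ∀ z : ℂ, ‖(φ n (ofComplex z) : ℂ)‖ ^ 4 = φ n (ofComplex z) ^ 4 := fun z => by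
    rw [Complex.norm_real, Real.norm_eq_abs]
    exact Even.pow_abs ⟨2, rfl⟩ _
  simpa only [hn4] using hn

/-- fourth moments of the displaced values -/
lemma four (W : WS Γ ρ D φ m h g') (x : Fin k → ℂ) {K : Set ℂ} (hKc : IsCompact K) (hKU : K ⊆ HH) :
    ∃ M : ℝ, 0 ≤ M ∧ ∀ᶠ n in atTop, ∀ i, ∀ θ,
      ∫ z in K, Berry.rWave ρ (φ n) (m n) (x i) (ofComplex z, θ) ^ 4 ≤ M := by
  obtain ⟨δ, hδ, hδU⟩ := hKc.exists_cthickening_subset_open isOpen_HH hKU
  set K₁ := Metric.cthickening (δ / 2) K with hK₁def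
  have hK₁ : IsCompact K₁ := hKc.cthickening
  have hK₁U : K₁ ⊆ HH := (Metric.cthickening_mono (by linarith) K).trans hδU
  have hδU' : Metric.cthickening (2 * (δ / 2)) K ⊆ HH := by
    rw [mul_div_cancel₀ _ (two_ne_zero)]; exact hδU
  obtain ⟨M, hM⟩ := W.bdd4 hK₁ hK₁U
  refine ⟨4 * |M|, by positivity, ?_⟩
  have hseg : ∀ᶠ n in atTop, ∀ i, ∀ θ, ∀ z ∈ K, ∀ t ∈ Icc (0 : ℝ) 1,
      z + t • ((h n : ℂ) * wt (gw ρ) z * frXi h (em ρ) (x i) n θ z) ∈ K₁ :=
    eventually_all.2 fun i => W.set.seg_mem hKc (half_pos hδ) hδU' (W.disp hKc hKU (x i))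
  have hdc : ∀ᶠ n in atTop, ∀ i, ContinuousOn (fun p : ℝ × ℂ => frXi h (em ρ) (x i) n p.1 p.2)
      (univ ×ˢ K) := eventually_all.2 fun i => (W.disp hKc hKU (x i)).cont
  have hdl : ∀ᶠ n in atTop, ∀ i, ∀ θ, ∀ z ∈ K, ∀ w ∈ K,
      ‖(h n : ℂ) * wt (gw ρ) z * frXi h (em ρ) (x i) n θ z - (h n : ℂ) * wt (gw ρ) w
        * frXi h (em ρ) (x i) n θ w‖ ≤ (1 / 2) * ‖z - w‖ :=
    eventually_all.2 fun i => (W.disp hKc hKU (x i)).lip
  filter_upwards [hM, W.val x hKU, hseg, hdc, hdl] with n n1 n3 n5 n6 n7 i θ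
  have cφ : ContinuousOn (fun z : ℂ => φ n (ofComplex z)) HH := cont_ofComplex (W.pc n)
  have hexp := expand_of_lip (v := fun z => (h n : ℂ) * wt (gw ρ) z * frXi h (em ρ) (x i) n θ z)
    (n7 i θ) (t := 1) ⟨zero_le_one, le_rfl⟩
  simp only [one_smul] at hexp
  have hcT : ContinuousOn (fun z => z + (h n : ℂ) * wt (gw ρ) z * frXi h (em ρ) (x i) n θ z) K :=
    disp_cont (n6 i) (W.set.ha.continuousOn.mono hKU) (h n : ℂ) θ
  have hmem : MapsTo (fun z => z + (h n : ℂ) * wt (gw ρ) z * frXi h (em ρ) (x i) n θ z) K K₁ := by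
    intro z hz
    have := n5 i θ z hz 1 ⟨zero_le_one, le_rfl⟩
    rwa [one_smul] at this
  have h1 := integral_comp_le hKc hK₁ hexp hmem hcT
    (f := fun z => φ n (ofComplex z) ^ 4) ((cφ.mono hK₁U).pow 4) (fun z _ => by positivity)
  calc ∫ z in K, Berry.rWave ρ (φ n) (m n) (x i) (ofComplex z, θ) ^ 4
      = ∫ z in K, φ n (ofComplex (z + (h n : ℂ) * wt (gw ρ) z * frXi h (em ρ) (x i) n θ z)) ^ 4 := by
        refine setIntegral_congr_fun hKc.measurableSet fun z hz => ?_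
        beta_reduce
        rw [n3 i θ z hz]
    _ ≤ 4 * ∫ z in K₁, φ n (ofComplex z) ^ 4 := h1
    _ ≤ 4 * |M| := by
        have := n1.trans (le_abs_self M)
        linarith

lemma real_int_ang {K : Set ℂ} (hK : IsCompact K) {H : ℝ × ℂ → ℝ}
    (hH : ContinuousOn H (univ ×ˢ K)) : Integrable H (ang.prod (volume.restrict K)) := by
  have := (int_ang hK (Complex.continuous_ofReal.comp_continuousOn hH)).re
  simpa using this

lemma int_ang_cont {f : ℝ → ℝ} (hf : Continuous f) : Integrable f ang := by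
  have h2 : Integrable f (volume.restrict (Ioc (0 : ℝ) (2 * Real.pi))) :=
    (hf.continuousOn.integrableOn_compact isCompact_Icc).mono_set Ioc_subset_Icc_self
  have h3 : volume (Ioc (0 : ℝ) (2 * Real.pi)) ≠ 0 := by
    rw [Real.volume_Ioc, Ne, ENNReal.ofReal_eq_zero, not_le, sub_zero]; positivity
  exact h2.smul_measure (ENNReal.inv_ne_top.2 h3)

/-- the bound for the products -/
lemma angProd_bdd (W : WS Γ ρ D φ m h g') (x : Fin k → ℂ)
    (hk : ∀ a : Fin k → ℝ, |∏ i, a i| ≤ 1 + ∑ i, a i ^ 4) {K : Set ℂ} (hKc : IsCompact K)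
    (hKU : K ⊆ HH) : ∃ C : ℝ, ∀ᶠ n in atTop,
      ∫ z in K, |angProd ρ (φ n) (m n) x (ofComplex z)| ≤ C := by
  obtain ⟨M, hM0, hM⟩ := W.four x hKc hKU
  refine ⟨(volume K).toReal + ∑ _i : Fin k, M, ?_⟩
  filter_upwards [hM, W.jc x hKU, W.wc x] with n n1 n4 n9
  have cH : ContinuousOn (fun p : ℝ × ℂ => 1 + ∑ i, Berry.rWave ρ (φ n) (m n) (x i)
      (ofComplex p.2, p.1) ^ 4) (univ ×ˢ K) :=
    continuousOn_const.add (continuousOn_finset_sum _ fun i _ => (n4 i).pow 4)
  have iH := real_int_ang hKc cH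
  calc ∫ z in K, |angProd ρ (φ n) (m n) x (ofComplex z)|
      ≤ ∫ z in K, ∫ θ, (1 + ∑ i, Berry.rWave ρ (φ n) (m n) (x i) (ofComplex z, θ) ^ 4) ∂ang := by
        refine integral_mono_of_nonneg (Eventually.of_forall fun z => abs_nonneg _)
          iH.integral_prod_right (Eventually.of_forall fun z => ?_)
        unfold angProd
        beta_reduce
        rw [← Real.norm_eq_abs]
        refine norm_integral_le_of_norm_le (int_ang_cont ?_) (Eventually.of_forall fun θ => ?_)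
        · exact continuous_const.add (continuous_finset_sum _ fun i _ =>
            ((n9 i).comp (Continuous.prodMk_right (ofComplex z))).pow 4)
        · rw [Real.norm_eq_abs]; exact hk _
    _ = ∫ θ, (∫ z in K, (1 + ∑ i, Berry.rWave ρ (φ n) (m n) (x i) (ofComplex z, θ) ^ 4)) ∂ang :=
        (integral_integral_swap iH).symm
    _ ≤ ∫ _θ : ℝ, ((volume K).toReal + ∑ _i : Fin k, M) ∂ang := by
        refine integral_mono_of_nonneg (Eventually.of_forall fun θ =>
          integral_nonneg fun z => by positivity) (integrable_const _)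
          (Eventually.of_forall fun θ => ?_)
        beta_reduce
        have hci : ∀ i, IntegrableOn (fun z => Berry.rWave ρ (φ n) (m n) (x i)
            (ofComplex z, θ) ^ 4) K := fun i => by
          exact ContinuousOn.integrableOn_compact hKc (ContinuousOn.pow (sec_cont (n4 i) θ) 4)
        have i1 : IntegrableOn (fun _ : ℂ => (1 : ℝ)) K :=
          continuousOn_const.integrableOn_compact hKc
        rw [integral_add i1 (integrable_finset_sum _ fun i _ => hci i),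
          integral_finset_sum _ fun i _ => hci i, integral_const, smul_eq_mul, mul_one,
          measureReal_restrict_apply_univ]
        exact add_le_add le_rfl (Finset.sum_le_sum fun i _ => n1 i θ)
    _ = _ := by simp

/-- the bound for the defects -/
lemma defect_bdd (W : WS Γ ρ D φ m h g') (x : Fin k → ℂ)
    (hk : ∀ a : Fin k → ℝ, |∏ i, a i| ≤ 1 + ∑ i, a i ^ 4) (α β : ℝ) {K : Set ℂ}
    (hKc : IsCompact K) (hKU : K ⊆ HH) : ∃ C : ℝ, ∀ᶠ n in atTop,
      ∫ z in K, |angProd ρ (φ n) (m n) x (ofComplex z) - (α + β * φ n (ofComplex z) ^ 4)| ≤ C := by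
  obtain ⟨C, hC⟩ := W.angProd_bdd x hk hKc hKU
  obtain ⟨M, hM⟩ := W.bdd4 hKc hKU
  refine ⟨C + (|α| * (volume K).toReal + |β| * M), ?_⟩
  filter_upwards [hC, hM, W.ac x] with n n1 n2 n8
  have cφ : ContinuousOn (fun z : ℂ => φ n (ofComplex z)) HH := cont_ofComplex (W.pc n)
  have iA : IntegrableOn (fun z => |angProd ρ (φ n) (m n) x (ofComplex z)|) K :=
    ((cont_ofComplex n8).mono hKU).abs.integrableOn_compact hKc
  have i4 : IntegrableOn (fun z : ℂ => |β| * φ n (ofComplex z) ^ 4) K :=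
    (continuousOn_const.mul ((cφ.mono hKU).pow 4)).integrableOn_compact hKc
  have i0 : IntegrableOn (fun _ : ℂ => |α|) K := continuousOn_const.integrableOn_compact hKc
  have iC : IntegrableOn (fun z : ℂ => |α| + |β| * φ n (ofComplex z) ^ 4) K := i0.add i4
  calc ∫ z in K, |angProd ρ (φ n) (m n) x (ofComplex z) - (α + β * φ n (ofComplex z) ^ 4)|
      ≤ ∫ z in K, (|angProd ρ (φ n) (m n) x (ofComplex z)|
          + (|α| + |β| * φ n (ofComplex z) ^ 4)) := by
        refine integral_mono_of_nonneg (Eventually.of_forall fun z => abs_nonneg _)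
          (iA.add iC) (Eventually.of_forall fun z => ?_)
        beta_reduce
        refine (abs_sub _ _).trans (add_le_add le_rfl ((abs_add_le _ _).trans ?_))
        rw [abs_mul, abs_of_nonneg (by positivity : 0 ≤ φ n (ofComplex z) ^ 4)]
    _ = (∫ z in K, |angProd ρ (φ n) (m n) x (ofComplex z)|)
          + (|α| * (volume K).toReal + |β| * ∫ z in K, φ n (ofComplex z) ^ 4) := by
        rw [integral_add iA iC, integral_add i0 i4, integral_const_mul, integral_const,
          smul_eq_mul, measureReal_restrict_apply_univ]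
        unfold Measure.real
        ring
    _ ≤ _ := by (clear * - n1 n2; gcongr)

/-- the local limit -/
lemma defect_loc (W : WS Γ ρ D φ m h g') (x : Fin k → ℂ) {α β : ℝ} (hloc : LocLim ρ h φ x α β)
    {ψ : ℂ → ℝ} (hψ : ContDiff ℝ ∞ ψ) (hψs : HasCompactSupport ψ) (hψU : tsupport ψ ⊆ HH) :
    Tendsto (fun n => ∫ z, ψ z * (angProd ρ (φ n) (m n) x (ofComplex z)
      - (α + β * φ n (ofComplex z) ^ 4))) atTop (𝓝 0) := by
  set K := tsupport ψ with hKdef
  have hKc : IsCompact K := hψs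
  obtain ⟨δ, hδ, hδU⟩ := hKc.exists_cthickening_subset_open isOpen_HH hψU
  have hδU' : Metric.cthickening (2 * (δ / 2)) K ⊆ HH := by
    rw [mul_div_cancel₀ _ (two_ne_zero)]; exact hδU
  have h1 := hloc K (δ / 2) hKc (half_pos hδ) hδU' (fun i => frXi h (em ρ) (x i))
    (fun i => W.disp hKc hψU (x i)) ψ hψ hψs le_rfl
  have h2 : Tendsto (fun n => ((∫ z, ψ z * (angProd ρ (φ n) (m n) x (ofComplex z)
      - (α + β * φ n (ofComplex z) ^ 4)) : ℝ) : ℂ)) atTop (𝓝 0) := by
    refine h1.congr' ?_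
    filter_upwards [W.val x hψU, W.jc x hψU, W.ac x] with n n1 n2 n3
    have hset : ∀ f : ℂ → ℝ, ∫ z, ψ z * f z = ∫ z in K, ψ z * f z := by
      intro f
      rw [setIntegral_eq_integral_of_forall_compl_eq_zero]
      intro z hz
      rw [image_eq_zero_of_notMem_tsupport hz, zero_mul]
    have cψ : ContinuousOn (fun p : ℝ × ℂ => ψ p.2) (univ ×ˢ K) :=
      (hψ.continuous.comp continuous_snd).continuousOn
    have cH : ContinuousOn (fun p : ℝ × ℂ => ψ p.2 * ∏ i, Berry.rWave ρ (φ n) (m n) (x i)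
        (ofComplex p.2, p.1)) (univ ×ˢ K) :=
      cψ.mul (continuousOn_finset_prod _ fun i _ => n2 i)
    have iH := real_int_ang hKc cH
    have e1 : ∀ θ : ℝ, ∫ z, (ψ z : ℂ) * ∏ i, (φ n (ofComplex (z + h n * wt (gw ρ) z
        * frXi h (em ρ) (x i) n θ z)) : ℂ)
        = ((∫ z in K, ψ z * ∏ i, Berry.rWave ρ (φ n) (m n) (x i) (ofComplex z, θ) : ℝ) : ℂ) := by
      intro θ
      rw [← hset]
      refine Eq.trans ?_ (integral_ofReal (𝕜 := ℂ) (μ := volume) (f := fun z : ℂ => ψ z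
        * ∏ i, Berry.rWave ρ (φ n) (m n) (x i) (ofComplex z, θ)))
      refine integral_congr_ae (Eventually.of_forall fun z => ?_)
      change _ = ((ψ z * ∏ i, Berry.rWave ρ (φ n) (m n) (x i) (ofComplex z, θ) : ℝ) : ℂ)
      beta_reduce
      by_cases hz : z ∈ K
      · rw [Complex.ofReal_mul, Complex.ofReal_prod]
        congr 1
        refine Finset.prod_congr rfl fun i _ => ?_
        rw [n1 i θ z hz]
      · rw [image_eq_zero_of_notMem_tsupport hz]; simp
    have e2 : ∫ θ, (∫ z, (ψ z : ℂ) * ∏ i, (φ n (ofComplex (z + h n * wt (gw ρ) z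
        * frXi h (em ρ) (x i) n θ z)) : ℂ)) ∂ang
        = ((∫ z, ψ z * angProd ρ (φ n) (m n) x (ofComplex z) : ℝ) : ℂ) := by
      simp only [e1]
      refine (integral_ofReal (𝕜 := ℂ) (μ := ang) (f := fun θ : ℝ => ∫ z in K, ψ z
        * ∏ i, Berry.rWave ρ (φ n) (m n) (x i) (ofComplex z, θ))).trans ?_
      rw [integral_integral_swap iH, hset]
      congr 1
      refine integral_congr_ae (Eventually.of_forall fun z => ?_)
      unfold angProd
      beta_reduce
      rw [integral_const_mul]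
    have j1 : Integrable (fun z => ψ z * angProd ρ (φ n) (m n) x (ofComplex z)) :=
      (Surf.continuous_cut_mul hψ.continuous hψU n3).integrable_of_hasCompactSupport
        hψs.mul_right
    have j2 : Integrable ψ := hψ.continuous.integrable_of_hasCompactSupport hψs
    have j3 : Integrable (fun z => ψ z * φ n (ofComplex z) ^ 4) :=
      (Surf.continuous_cut_mul hψ.continuous hψU ((W.pc n).pow 4)).integrable_of_hasCompactSupport
        hψs.mul_right
    have j4 : Integrable (fun z => α * ψ z + β * (ψ z * φ n (ofComplex z) ^ 4)) :=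
      (j2.const_mul α).add (j3.const_mul β)
    have e3 : ∫ z, ψ z * (angProd ρ (φ n) (m n) x (ofComplex z) - (α + β * φ n (ofComplex z) ^ 4))
        = (∫ z, ψ z * angProd ρ (φ n) (m n) x (ofComplex z))
          - (α * (∫ z, ψ z) + β * ∫ z, ψ z * φ n (ofComplex z) ^ 4) := by
      rw [← integral_const_mul, ← integral_const_mul, ← integral_add (j2.const_mul α)
        (j3.const_mul β), ← integral_sub j1 j4]
      congr 1; funext z; ring
    have e4 : ∫ z, (ψ z : ℂ) = ((∫ z, ψ z : ℝ) : ℂ) := integral_ofReal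
    have e5 : ∫ z, (ψ z : ℂ) * (φ n (ofComplex z) : ℂ) ^ 4
        = ((∫ z, ψ z * φ n (ofComplex z) ^ 4 : ℝ) : ℂ) := by
      refine Eq.trans ?_ (integral_ofReal (𝕜 := ℂ) (μ := volume) (f := fun z : ℂ => ψ z
        * φ n (ofComplex z) ^ 4))
      refine integral_congr_ae (Eventually.of_forall fun z => ?_)
      change _ = ((ψ z * φ n (ofComplex z) ^ 4 : ℝ) : ℂ)
      push_cast; rfl
    rw [e2, e3, e4, e5]
    push_cast
    ring
  have h3 := (Complex.continuous_re.tendsto 0).comp h2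
  simpa [Function.comp_def] using h3

/-- **Correlations of the local waves from the local formulas.** -/
theorem wrap [Countable Γ] (W : WS Γ ρ D φ m h g') (x : Fin k → ℂ)
    (hk : ∀ a : Fin k → ℝ, |∏ i, a i| ≤ 1 + ∑ i, a i ^ 4) {α β : ℝ} (hloc : LocLim ρ h φ x α β) :
    Tendsto (fun n => (∫ p, ∏ i, Berry.rWave ρ (φ n) (m n) (x i) p ∂(Berry.rFrameProb ρ D))
      - (α + β * Berry.rAvg ρ D fun z => φ n z ^ 4)) atTop (𝓝 0) := by
  have main := global_lim (F := fun n z => angProd ρ (φ n) (m n) x z - (α + β * φ n z ^ 4))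
    W.geo W.rc W.coc
    ((W.ac x).mono fun n hn => hn.sub (continuous_const.add (continuous_const.mul ((W.pc n).pow 4))))
    (fun n γ hγ z => by
      beta_reduce
      rw [angProd_inv (W.pinv n) W.geo.inv (m n) x γ hγ z, W.pinv n γ hγ z])
    (fun K hKc hKU => W.defect_bdd x hk α β hKc hKU)
    (fun ψ hψ hψs hψU => W.defect_loc x hloc hψ hψs hψU)
  refine main.congr' ?_
  filter_upwards [W.wc x, W.ac x] with n hn1 hn2
  obtain ⟨C₁, hC₁⟩ := Berry.bdd_of_cocompact hn2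
    (angProd_inv (W.pinv n) W.geo.inv (m n) x) W.coc
  obtain ⟨C₂, hC₂⟩ := Berry.bdd_of_cocompact (W.pc n) (W.pinv n) W.coc
  have hcond : IsProbabilityMeasure (ProbabilityTheory.cond (Berry.area ρ) D) :=
    ProbabilityTheory.cond_isProbabilityMeasure_of_finite (Berry.area_ne_zero W.geo)
      (Berry.area_ne_top W.geo)
  have i1 : Integrable (angProd ρ (φ n) (m n) x) (ProbabilityTheory.cond (Berry.area ρ) D) :=
    Integrable.of_bound hn2.aestronglyMeasurable C₁ (Eventually.of_forall fun z => by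
      rw [Real.norm_eq_abs]; exact hC₁ z)
  have i2 : Integrable (fun z => φ n z ^ 4) (ProbabilityTheory.cond (Berry.area ρ) D) :=
    Integrable.of_bound ((W.pc n).pow 4).aestronglyMeasurable (C₂ ^ 4)
      (Eventually.of_forall fun z => by
        rw [Real.norm_eq_abs, abs_pow]
        exact pow_le_pow_left₀ (abs_nonneg _) (hC₂ z) 4)
  have i3 : Integrable (fun p => ∏ i, Berry.rWave ρ (φ n) (m n) (x i) p)
      ((ProbabilityTheory.cond (Berry.area ρ) D).prod ang) := by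
    refine Integrable.of_bound (continuous_finset_prod _ fun i _ => hn1 i).aestronglyMeasurable
      (∏ _i : Fin k, |C₂|) (Eventually.of_forall fun p => ?_)
    rw [norm_prod]
    refine Finset.prod_le_prod (fun _ _ => norm_nonneg _) fun i _ => ?_
    rw [Real.norm_eq_abs]
    exact (hC₂ _).trans (le_abs_self _)
  have i4 : Integrable (fun z => α + β * φ n z ^ 4) (ProbabilityTheory.cond (Berry.area ρ) D) :=
    (integrable_const α).add (i2.const_mul β)
  have e1 : ∫ p, ∏ i, Berry.rWave ρ (φ n) (m n) (x i) p ∂(Berry.rFrameProb ρ D)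
      = ∫ z, angProd ρ (φ n) (m n) x z ∂(ProbabilityTheory.cond (Berry.area ρ) D) := by
    unfold Berry.rFrameProb
    rw [integral_prod _ i3]
    rfl
  have e2 : Berry.rAvg ρ D (fun z => angProd ρ (φ n) (m n) x z - (α + β * φ n z ^ 4))
      = (∫ z, angProd ρ (φ n) (m n) x z ∂(ProbabilityTheory.cond (Berry.area ρ) D))
        - ∫ z, (α + β * φ n z ^ 4) ∂(ProbabilityTheory.cond (Berry.area ρ) D) := integral_sub i1 i4
  have e3 : ∫ z, (α + β * φ n z ^ 4) ∂(ProbabilityTheory.cond (Berry.area ρ) D)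
      = α + β * Berry.rAvg ρ D (fun z => φ n z ^ 4) := by
    rw [integral_add (integrable_const α) (i2.const_mul β), integral_const, integral_const_mul]
    simp [Berry.rAvg]
  rw [e1, e2, e3]

end WS

end

end QE


end
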