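import Mathlib
import Pool.Agent.BWM.C11
import Pool.Agent.BWM.C13

/-! Parts: LibH11.QEV.Corr, LibH11.Berry.AUp, LibH11.Berry.AMono, LibH11.Berry.AMono2, LibH11.Berry.RUp, LibH11.Berry.RTwo -/

section

/-!
Correlations of the local waves of quantum ergodic sequences bounded in `L⁴` on closed surfaces.
-/

open MeasureTheory Filter Topology Set MatrixGroups UpperHalfPlane
open scoped ContDiff

namespace QE

noncomputable section

variable {Γ : Subgroup SL(2, ℝ)} {ρ : ℍ → ℝ} {D : Set ℍ}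

lemma prod_le_four {k : ℕ} (hk : k ≤ 4) (a : Fin k → ℝ) : |∏ i, a i| ≤ 1 + ∑ i, a i ^ 4 := by
  set S : ℝ := 1 + ∑ i, a i ^ 4 with hS
  have hS1 : 1 ≤ S := by
    have : 0 ≤ ∑ i, a i ^ 4 := Finset.sum_nonneg fun i _ => by positivity
    linarith
  set c : ℝ := Real.sqrt (Real.sqrt S) with hc
  have hc4 : c ^ 4 = S := by
    have h1 : c ^ 2 = Real.sqrt S := Real.sq_sqrt (Real.sqrt_nonneg _)
    have h2 : Real.sqrt S ^ 2 = S := Real.sq_sqrt (by linarith)
    calc c ^ 4 = (c ^ 2) ^ 2 := by ring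
      _ = S := by rw [h1, h2]
  have hc0 : 0 ≤ c := Real.sqrt_nonneg _
  have hc1 : 1 ≤ c := by
    by_contra h
    push Not at h
    have : c ^ 4 < 1 := pow_lt_one₀ hc0 h (by norm_num)
    linarith
  have hi : ∀ i, |a i| ≤ c := by
    intro i
    have h1 : a i ^ 4 ≤ S := by
      have : a i ^ 4 ≤ ∑ j, a j ^ 4 := Finset.single_le_sum (f := fun j => a j ^ 4)
        (fun j _ => by positivity) (Finset.mem_univ i)
      linarith
    have h2 : |a i| ^ 4 ≤ c ^ 4 := by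
      rw [hc4, Even.pow_abs ⟨2, rfl⟩]; exact h1
    exact (pow_le_pow_iff_left₀ (abs_nonneg _) hc0 (by norm_num)).1 h2
  rw [Finset.abs_prod]
  calc ∏ i, |a i| ≤ ∏ _i : Fin k, c := Finset.prod_le_prod (fun i _ => abs_nonneg _) (fun i _ => hi i)
    _ = c ^ k := by simp
    _ ≤ c ^ 4 := pow_le_pow_right₀ hc1 hk
    _ = S := hc4

/-- the two point functions of the jets -/
def TwoPt (ρ : ℍ → ℝ) (φ : ℕ → ℍ → ℝ) (h : ℕ → ℝ) : Prop :=
  ∀ (j k : ℤ) (η : ℂ → ℂ), Test HH η →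
    Tendsto (fun n => ∫ z, η z * (E h (wt (gw ρ)) (fun n z => (φ n (ofComplex z) : ℂ)) j n z
      * E h (wt (gw ρ)) (fun n z => (φ n (ofComplex z) : ℂ)) k n z)) atTop
      (𝓝 (P j k * ∫ z, η z))

/-- the setting for quantum ergodic sequences -/
theorem ws_of_surface [Countable Γ] (hDm : MeasurableSet D)
    (hD : IsFundamentalDomain Γ D (volume : Measure ℍ))
    (hK : ∃ K : Set ℍ, IsCompact K ∧ ∀ z, ∃ γ ∈ Γ, γ • z ∈ K)
    (hρ : ContDiffOn ℝ ∞ (fun w : ℂ => ρ (ofComplex w)) {w | 0 < w.im})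
    (hρΓ : ∀ γ ∈ Γ, ∀ z, ρ (γ • z) = ρ z)
    {φ : ℕ → ℍ → ℝ} {m : ℕ → ℝ} (hφ : Berry.REigenSeq Γ ρ φ m)
    (hs : ∀ n, ContDiffOn ℝ ∞ (fun w : ℂ => φ n (ofComplex w)) {w | 0 < w.im})
    (hq : QuantumErgodic ρ φ m) {C : ℝ}
    (hb : ∀ᶠ n in atTop, Berry.rAvg ρ D (fun z => φ n z ^ 4) ≤ C) :
    ∃ N, WS Γ ρ D (fun n => φ (n + N)) (fun n => m (n + N)) (fun n => 1 / m (n + N))
        (fun z => ((gw ρ z : ℝ) : ℂ)) ∧
      TwoPt ρ (fun n => φ (n + N)) (fun n => 1 / m (n + N)) := by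
  obtain ⟨N, H⟩ := localQE_of_surface hρ hφ hs hq
  have hρc := continuous_of_smooth hρ
  have hgeo : Berry.Geo Γ ρ D := ⟨hD, hDm, Berry.finite_of_cocompact hD hK, hρΓ,
    Berry.bdd_of_cocompact hρc hρΓ hK, Berry.unif_of_cocompact hρc hρΓ hK⟩
  have hpc : ∀ n, Continuous (φ n) := fun n => continuous_of_smooth (hs n)
  have hL : LBdd 4 HH (fun n z => (φ (n + N) (ofComplex z) : ℂ)) := by
    intro K' hK' hK'U
    obtain ⟨c, hc0, hc⟩ := loc_le hgeo hρc hK hK' hK'U
    refine ⟨c * C, ?_⟩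
    filter_upwards [(tendsto_add_atTop_nat N).eventually hb] with n hn
    have h4 : ∀ z : ℂ, ‖(φ (n + N) (ofComplex z) : ℂ)‖ ^ 4 = φ (n + N) (ofComplex z) ^ 4 :=
      fun z => by
        rw [Complex.norm_real, Real.norm_eq_abs]
        exact Even.pow_abs ⟨2, rfl⟩ _
    simp only [h4]
    exact (hc (fun z => φ (n + N) z ^ 4) ((hpc _).pow 4) (fun z => by positivity)
      (fun γ hγ z => by rw [hφ.invariant _ γ hγ z])).trans (by gcongr)
  have S := setup_of_local isOpen_HH (smooth_weight hρ) (fun z hz => by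
    have : 0 < z.im := hz
    positivity) H hL
  have hpos : ∀ n, 0 < m (n + N) := fun n => one_div_pos.1 (H.hpos n)
  exact ⟨N, ⟨hgeo, hK, hρc, fun n => hpc _, fun n => hφ.invariant _, hpos,
    hφ.tendsto.comp (tendsto_add_atTop_nat N), fun n => rfl, S⟩, fun j k η hη => S.two_pt H j k η hη⟩

section
variable {φ : ℕ → ℍ → ℝ} {m h : ℕ → ℝ} {g' : ℂ → ℂ}

lemma test_real {ψ : ℂ → ℝ} (hψ : ContDiff ℝ ∞ ψ) (hψs : HasCompactSupport ψ) {K : Set ℂ}
    (hψK : tsupport ψ ⊆ K) (hKU : K ⊆ HH) :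
    Test HH (fun z => (ψ z : ℂ)) ∧ tsupport (fun z => (ψ z : ℂ)) ⊆ K := by
  have h1 : tsupport (fun z => (ψ z : ℂ)) ⊆ tsupport ψ := by
    refine closure_mono fun z hz => ?_
    simpa using hz
  exact ⟨⟨Complex.ofRealCLM.contDiff.comp hψ, hψs.comp_left (g := fun r : ℝ => (r : ℂ)) rfl,
    (h1.trans hψK).trans hKU⟩, h1.trans hψK⟩

lemma WS.locLim_four (W : WS Γ ρ D φ m h g') (htwo : TwoPt ρ φ h) (x : Fin 4 → ℂ) :
    LocLim ρ h φ x (wick x - 3 * defc x) (defc x) := by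
  intro K δ hK hδ hδU ξ hξ ψ hψ hψs hψK
  have hKU : K ⊆ HH := (Metric.self_subset_cthickening K).trans hδU
  obtain ⟨hT, hsub⟩ := test_real hψ hψs hψK hKU
  refine (W.set.four_local htwo hK hδ hδU (q := 2) (by norm_num) x ξ hξ hT hsub).congr fun n => ?_
  have e1 : ∀ θ z, (ψ z : ℂ) * ∏ i, (φ n (ofComplex (z + h n * wt (gw ρ) z * ξ i n θ z)) : ℂ)
      = (ψ z : ℂ) * ((φ n (ofComplex (z + h n * wt (gw ρ) z * ξ 0 n θ z)) : ℂ)
        * (φ n (ofComplex (z + h n * wt (gw ρ) z * ξ 1 n θ z)) : ℂ)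
        * (φ n (ofComplex (z + h n * wt (gw ρ) z * ξ 2 n θ z)) : ℂ)
        * (φ n (ofComplex (z + h n * wt (gw ρ) z * ξ 3 n θ z)) : ℂ)) := fun θ z => by
    rw [Fin.prod_univ_four]
  have e2 : ∀ z : ℂ, (φ n (ofComplex z) : ℂ) ^ 4 = (φ n (ofComplex z) : ℂ) * φ n (ofComplex z)
      * ((φ n (ofComplex z) : ℂ) * φ n (ofComplex z)) := fun z => by ring
  simp only [e1, e2]
  push_cast
  ring

lemma WS.locLim_two (W : WS Γ ρ D φ m h g') (htwo : TwoPt ρ φ h) (x : Fin 2 → ℂ) :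
    LocLim ρ h φ x (Berry.waveK (x 0 - x 1)) 0 := by
  intro K δ hK hδ hδU ξ hξ ψ hψ hψs hψK
  have hKU : K ⊆ HH := (Metric.self_subset_cthickening K).trans hδU
  obtain ⟨hT, hsub⟩ := test_real hψ hψs hψK hKU
  have h1 := W.set.two_local htwo hK hδ hδU (q := 2) (by norm_num) x ξ hξ hT hsub
  have h2 := h1.sub (tendsto_const_nhds
    (x := (∫ z, (ψ z : ℂ)) * ((Berry.waveK (x 0 - x 1) : ℝ) : ℂ)))
  rw [sub_self] at h2
  refine h2.congr fun n => ?_
  have e1 : ∀ θ z, (ψ z : ℂ) * ∏ i, (φ n (ofComplex (z + h n * wt (gw ρ) z * ξ i n θ z)) : ℂ)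
      = (ψ z : ℂ) * ((φ n (ofComplex (z + h n * wt (gw ρ) z * ξ 0 n θ z)) : ℂ)
        * (φ n (ofComplex (z + h n * wt (gw ρ) z * ξ 1 n θ z)) : ℂ)) := fun θ z => by
    rw [Fin.prod_univ_two]
  simp only [e1]
  push_cast
  ring

lemma WS.locLim_three (W : WS Γ ρ D φ m h g') (htwo : TwoPt ρ φ h) (x : Fin 3 → ℂ) :
    LocLim ρ h φ x 0 0 := by
  intro K δ hK hδ hδU ξ hξ ψ hψ hψs hψK
  have hKU : K ⊆ HH := (Metric.self_subset_cthickening K).trans hδU
  obtain ⟨hT, hsub⟩ := test_real hψ hψs hψK hKU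
  refine (W.set.three_local htwo hK hδ hδU (q := 2) (by norm_num) x ξ hξ hT hsub).congr fun n => ?_
  have e1 : ∀ θ z, (ψ z : ℂ) * ∏ i, (φ n (ofComplex (z + h n * wt (gw ρ) z * ξ i n θ z)) : ℂ)
      = (ψ z : ℂ) * ((φ n (ofComplex (z + h n * wt (gw ρ) z * ξ 0 n θ z)) : ℂ)
        * (φ n (ofComplex (z + h n * wt (gw ρ) z * ξ 1 n θ z)) : ℂ)
        * (φ n (ofComplex (z + h n * wt (gw ρ) z * ξ 2 n θ z)) : ℂ)) := fun θ z => by
    rw [Fin.prod_univ_three]
  simp only [e1]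
  push_cast
  ring

lemma WS.locLim_one (W : WS Γ ρ D φ m h g') (x : Fin 1 → ℂ) :
    LocLim ρ h φ x 0 0 := by
  intro K δ hK hδ hδU ξ hξ ψ hψ hψs hψK
  have hKU : K ⊆ HH := (Metric.self_subset_cthickening K).trans hδU
  obtain ⟨hT, hsub⟩ := test_real hψ hψs hψK hKU
  refine (W.set.one_local hK hδ hδU (q := 2) (by norm_num) x ξ hξ hT hsub).congr fun n => ?_
  have e1 : ∀ θ z, (ψ z : ℂ) * ∏ i, (φ n (ofComplex (z + h n * wt (gw ρ) z * ξ i n θ z)) : ℂ)
      = (ψ z : ℂ) * (φ n (ofComplex (z + h n * wt (gw ρ) z * ξ 0 n θ z)) : ℂ) := fun θ z => by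
    rw [Fin.prod_univ_one]
  simp only [e1]
  push_cast
  ring

end

/-- the correlations of order at most four of the local waves of quantum ergodic sequences -/
theorem corr_surface [Countable Γ] (hDm : MeasurableSet D)
    (hD : IsFundamentalDomain Γ D (volume : Measure ℍ))
    (hK : ∃ K : Set ℍ, IsCompact K ∧ ∀ z, ∃ γ ∈ Γ, γ • z ∈ K)
    (hρ : ContDiffOn ℝ ∞ (fun w : ℂ => ρ (ofComplex w)) {w | 0 < w.im})
    (hρΓ : ∀ γ ∈ Γ, ∀ z, ρ (γ • z) = ρ z)
    {φ : ℕ → ℍ → ℝ} {m : ℕ → ℝ} (hφ : Berry.REigenSeq Γ ρ φ m)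
    (hs : ∀ n, ContDiffOn ℝ ∞ (fun w : ℂ => φ n (ofComplex w)) {w | 0 < w.im})
    (hq : QuantumErgodic ρ φ m) {C : ℝ}
    (hb : ∀ᶠ n in atTop, Berry.rAvg ρ D (fun z => φ n z ^ 4) ≤ C) :
    (∀ x : Fin 4 → ℂ, Tendsto (fun n =>
      (∫ p, ∏ i, Berry.rWave ρ (φ n) (m n) (x i) p ∂(Berry.rFrameProb ρ D))
        - (wick x + (Berry.rAvg ρ D (fun z => φ n z ^ 4) - 3) * defc x)) atTop (𝓝 0)) ∧
    (∀ x : Fin 3 → ℂ, Tendsto (fun n =>
      ∫ p, ∏ i, Berry.rWave ρ (φ n) (m n) (x i) p ∂(Berry.rFrameProb ρ D)) atTop (𝓝 0)) ∧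
    (∀ x : Fin 2 → ℂ, Tendsto (fun n =>
      ∫ p, ∏ i, Berry.rWave ρ (φ n) (m n) (x i) p ∂(Berry.rFrameProb ρ D)) atTop
      (𝓝 (Berry.waveK (x 0 - x 1)))) ∧
    (∀ x : Fin 1 → ℂ, Tendsto (fun n =>
      ∫ p, ∏ i, Berry.rWave ρ (φ n) (m n) (x i) p ∂(Berry.rFrameProb ρ D)) atTop (𝓝 0)) := by
  obtain ⟨N, W, htwo⟩ := ws_of_surface hDm hD hK hρ hρΓ hφ hs hq hb
  refine ⟨fun x => ?_, fun x => ?_, fun x => ?_, fun x => ?_⟩
  · have h1 := W.wrap x (prod_le_four le_rfl) (W.locLim_four htwo x)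
    rw [← tendsto_add_atTop_iff_nat N]
    refine h1.congr fun n => ?_
    ring
  · have h1 := W.wrap x (prod_le_four (by norm_num)) (W.locLim_three htwo x)
    rw [← tendsto_add_atTop_iff_nat N]
    refine h1.congr fun n => ?_
    ring
  · have h1 := W.wrap x (prod_le_four (by norm_num)) (W.locLim_two htwo x)
    rw [← tendsto_add_atTop_iff_nat N]
    have h2 := h1.add (tendsto_const_nhds (x := Berry.waveK (x 0 - x 1)))
    rw [zero_add] at h2
    refine h2.congr fun n => ?_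
    ring
  · have h1 := W.wrap x (prod_le_four (by norm_num)) (W.locLim_one x)
    rw [← tendsto_add_atTop_iff_nat N]
    refine h1.congr fun n => ?_
    ring

end

end QE


end

section

/-!
The fourth moment is at most three times the second moment of the local mass, at any scale.
-/

open Complex Filter Topology MeasureTheory Metric InnerProductSpace Laplacian
open scoped ENNReal

namespace Berry

noncomputable section

section PairUp

variable {H : Type*} [NormedAddCommGroup H] [InnerProductSpace ℝ H] [CompleteSpace H]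
  {u : ℂ → ℂ → H}

/-- the random covariance is a contraction of every spatial average -/
lemma PairP.cov_le_avg (hu : PairP u) (a : ℂ) {R : ℝ} (hR : 0 < R) :
    ‖hu.cov a‖ ≤ ‖⨍ s in ball (0:ℂ) R, u s (a + s)‖ := by
  have hc : Continuous fun s => u s (a + s) :=
    hu.cont₂ continuous_id (continuous_const.add continuous_id)
  have h1 : inner ℝ (⨍ s in ball (0:ℂ) R, u s (a + s)) (hu.cov a) = ‖hu.cov a‖ ^ 2 := by
    rw [PairP.inner_avg hc]
    have e : ∀ s : ℂ, inner ℝ (u s (a + s)) (hu.cov a) = ‖hu.cov a‖ ^ 2 := by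
      intro s
      rw [hu.inner_cov, add_sub_cancel_right, real_inner_self_eq_norm_sq]
    simp only [e]
    rw [avg_const hR]
  have h2 := real_inner_le_norm (⨍ s in ball (0:ℂ) R, u s (a + s)) (hu.cov a)
  rw [h1] at h2
  rcases (norm_nonneg (hu.cov a)).eq_or_lt with h0 | hpos
  · rw [← h0]; exact norm_nonneg _
  · have h3 : ‖hu.cov a‖ * ‖hu.cov a‖
        ≤ ‖⨍ s in ball (0:ℂ) R, u s (a + s)‖ * ‖hu.cov a‖ := by rw [← sq]; exact h2
    exact le_of_mul_le_mul_right h3 hpos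

end PairUp

variable {Ω : Type*} [MeasurableSpace Ω] {P : Measure Ω} [IsProbabilityMeasure P]
  {F : ℕ → ℂ → Ω → ℝ} {B : ℝ}

/-- **fourth moments against local masses at a fixed scale** -/
theorem AWave.upper_loc (hF : AWave P F B) {R : ℝ} (hR : 0 < R) {L M : ℝ}
    (hL : ∀ᶠ n in atTop, L ≤ c4 P F n 0 0 0 0)
    (hM : ∀ᶠ n in atTop, ∫ ω, spatialAvg (F n) 0 R ω ^ 2 ∂P ≤ M) : L ≤ 3 * M := by
  obtain ⟨U, hU⟩ := exists_ultra
  obtain ⟨H, i1, i2, i3, u, one, hu, hone, h4, h2⟩ := hF.limit U hU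
  have h1 := hF.norm_limit hU hu hone h4 h2 0 0 hR
  have h3 : ‖(⨍ s in ball (0:ℂ) R, u s (0 + s)) - (0:ℝ) • one‖ ^ 2 ≤ M := by
    refine le_of_tendsto h1 ?_
    filter_upwards [hU hF.ev, hU hM] with n hn hn2
    rw [← hn.1.planck_eq]
    simpa only [sub_zero] using hn2
  rw [zero_smul, sub_zero] at h3
  have h5 := hu.cov_le_avg 0 hR
  have h6 : ‖hu.cov 0‖ ^ 2 ≤ M :=
    (pow_le_pow_left₀ (norm_nonneg _) h5 2).trans h3
  have h7 := hu.upper
  have h8 := ge_of_tendsto (h4 0 0 0 0) (hU hL)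
  linarith

end

end Berry


end

section

/-!
Local masses at large scales are controlled by those at smaller scales; a lower bound for the fourth
moments in terms of local masses.
-/

open Complex Filter Topology MeasureTheory Metric InnerProductSpace Laplacian
open scoped ENNReal

namespace Berry

noncomputable section

section E

variable {E : Type*} [NormedAddCommGroup E] [NormedSpace ℝ E]

/-- quantitative translation invariance of averages over large discs -/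
lemma avg_shift_bound {g : ℂ → E} (hg : Continuous g) {C : ℝ} (hC : ∀ s, ‖g s‖ ≤ C) {x : ℂ}
    {r R : ℝ} (hx : ‖x‖ ≤ r) (hR : r < R) :
    ‖(⨍ s in ball (0:ℂ) R, g (x + s)) - ⨍ s in ball (0:ℂ) R, g s‖ ≤ 4 * C * (r / R) := by
  have hC0 : 0 ≤ C := (norm_nonneg _).trans (hC 0)
  have hpi := Real.pi_pos
  have hxR : ‖x‖ < R := lt_of_le_of_lt hx hR
  have hRpos : 0 < R := lt_of_le_of_lt (norm_nonneg _) hxR
  have h1 : ∫ s in ball (0:ℂ) R, g (x + s) = ∫ s in ball x R, g s := by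
    have hmp : MeasurePreserving (fun s : ℂ => x + s) volume volume :=
      measurePreserving_add_left volume x
    have hme : MeasurableEmbedding (fun s : ℂ => x + s) :=
      (MeasurableEquiv.addLeft x).measurableEmbedding
    have := hmp.setIntegral_preimage_emb hme g (ball x R)
    rw [← this]
    congr 2
    ext s
    simp [mem_ball]
  have hsub1 : ball (0:ℂ) (R - ‖x‖) ⊆ ball (0:ℂ) R :=
    ball_subset_ball (by linarith [norm_nonneg x])
  have hsub2 : ball (0:ℂ) (R - ‖x‖) ⊆ ball x R := by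
    apply ball_subset_ball'
    rw [dist_eq, zero_sub, norm_neg]; linarith
  have hm : MeasurableSet (ball (0:ℂ) (R - ‖x‖)) := measurableSet_ball
  have e1 : ∫ s in ball x R, g s = (∫ s in ball (0:ℂ) (R - ‖x‖), g s)
      + ∫ s in ball x R \ ball (0:ℂ) (R - ‖x‖), g s := by
    rw [← setIntegral_union (Set.disjoint_sdiff_right) (measurableSet_ball.diff hm)
      (intOn hg _ _) ((intOn hg x R).mono_set Set.sdiff_subset), Set.union_sdiff_cancel hsub2]
  have e2 : ∫ s in ball (0:ℂ) R, g s = (∫ s in ball (0:ℂ) (R - ‖x‖), g s)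
      + ∫ s in ball (0:ℂ) R \ ball (0:ℂ) (R - ‖x‖), g s := by
    rw [← setIntegral_union (Set.disjoint_sdiff_right) (measurableSet_ball.diff hm)
      (intOn hg _ _) ((intOn hg 0 R).mono_set Set.sdiff_subset), Set.union_sdiff_cancel hsub1]
  have b : ∀ y : ℂ, ball (0:ℂ) (R - ‖x‖) ⊆ ball y R →
      ‖∫ s in ball y R \ ball (0:ℂ) (R - ‖x‖), g s‖ ≤
      C * (Real.pi * R^2 - Real.pi * (R - ‖x‖)^2) := by
    intro y hy
    have h2 : ‖∫ s in ball y R \ ball (0:ℂ) (R - ‖x‖), g s‖ ≤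
        C * (volume : Measure ℂ).real (ball y R \ ball (0:ℂ) (R - ‖x‖)) := by
      apply norm_setIntegral_le_of_norm_le_const
      · exact lt_of_le_of_lt (measure_mono Set.sdiff_subset) measure_ball_lt_top
      · intro s _; exact hC s
    refine h2.trans (le_of_eq ?_)
    rw [measureReal_sdiff hy hm, vol_ball_real _ hRpos.le, vol_ball_real _ (by linarith)]
  rw [avg_eq _ hRpos.le, avg_eq _ hRpos.le, ← smul_sub, h1, e1, e2, norm_smul,
    Real.norm_of_nonneg (by positivity)]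
  have h3 : ‖(∫ s in ball (0:ℂ) (R - ‖x‖), g s)
      + (∫ s in ball x R \ ball (0:ℂ) (R - ‖x‖), g s) - ((∫ s in ball (0:ℂ) (R - ‖x‖), g s)
      + ∫ s in ball (0:ℂ) R \ ball (0:ℂ) (R - ‖x‖), g s)‖ ≤
      2 * (C * (Real.pi * R^2 - Real.pi * (R - ‖x‖)^2)) := by
    rw [add_sub_add_left_eq_sub]
    refine (norm_sub_le _ _).trans ?_
    have := b x hsub2
    have := b 0 hsub1
    linarith
  have h4 : 2 * (C * (Real.pi * R^2 - Real.pi * (R - ‖x‖)^2)) ≤ 4 * C * Real.pi * R * r := by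
    have e : Real.pi * R^2 - Real.pi * (R - ‖x‖)^2 = Real.pi * (2 * R * ‖x‖ - ‖x‖ ^ 2) := by ring
    rw [e]
    have h5 : 2 * R * ‖x‖ - ‖x‖ ^ 2 ≤ 2 * R * r := by
      nlinarith only [hx, hRpos]
    have h6 : Real.pi * (2 * R * ‖x‖ - ‖x‖ ^ 2) ≤ Real.pi * (2 * R * r) :=
      mul_le_mul_of_nonneg_left h5 hpi.le
    have h7 := mul_le_mul_of_nonneg_left h6 hC0
    linarith only [h7]
  refine (mul_le_mul_of_nonneg_left (h3.trans h4) (by positivity)).trans (le_of_eq ?_)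
  field_simp

/-- exchanging two averages -/
lemma avg_swap {f : ℂ → ℂ → E} (hf : Continuous fun p : ℂ × ℂ => f p.1 p.2) (R r : ℝ) :
    (⨍ s in ball (0:ℂ) R, ⨍ t in ball (0:ℂ) r, f s t)
      = ⨍ t in ball (0:ℂ) r, ⨍ s in ball (0:ℂ) R, f s t := by
  have hint : Integrable (Function.uncurry f)
      ((volume.restrict (ball (0:ℂ) R)).prod (volume.restrict (ball (0:ℂ) r))) := by
    rw [Measure.prod_restrict, ← Measure.volume_eq_prod]
    have h1 : IntegrableOn (Function.uncurry f) (closedBall (0:ℂ) R ×ˢ closedBall (0:ℂ) r)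
        (volume : Measure (ℂ × ℂ)) :=
      ContinuousOn.integrableOn_compact
        ((isCompact_closedBall (0:ℂ) R).prod (isCompact_closedBall (0:ℂ) r)) hf.continuousOn
    exact h1.mono_set (Set.prod_mono ball_subset_closedBall ball_subset_closedBall)
  simp only [setAverage_eq]
  rw [integral_smul, integral_smul, integral_integral_swap hint, smul_comm]

end E

section PairMono

variable {H : Type*} [NormedAddCommGroup H] [InnerProductSpace ℝ H] [CompleteSpace H]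
  {u : ℂ → ℂ → H}

/-- the averages over translated discs have the same norm -/
lemma PairP.norm_avg_shift (hu : PairP u) (a t : ℂ) (r : ℝ) :
    ‖⨍ s in ball (0:ℂ) r, u (t + s) (a + (t + s))‖ = ‖⨍ s in ball (0:ℂ) r, u s (a + s)‖ := by
  have hc1 : Continuous fun s => u (t + s) (a + (t + s)) :=
    hu.cont₂ (by fun_prop) (by fun_prop)
  have hc2 : Continuous fun s => u s (a + s) := hu.cont₂ (by fun_prop) (by fun_prop)
  have h1 : ‖⨍ s in ball (0:ℂ) r, u (t + s) (a + (t + s))‖ ^ 2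
      = ‖⨍ s in ball (0:ℂ) r, u s (a + s)‖ ^ 2 := by
    rw [← real_inner_self_eq_norm_sq, ← real_inner_self_eq_norm_sq, inner_avg_avg hc1 hc1,
      inner_avg_avg hc2 hc2]
    congr 1; funext s
    congr 1; funext s'
    have h := hu.stat s (a + s) s' (a + s') t
    rw [← h]
    congr 2 <;> ring
  exact (sq_eq_sq₀ (norm_nonneg _) (norm_nonneg _)).1 h1

/-- averages over large discs are almost contractions of averages over smaller discs -/
lemma PairP.avg_mono (hu : PairP u) (a : ℂ) {r R : ℝ} (hr : 0 < r) (hR : r < R) :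
    ‖⨍ s in ball (0:ℂ) R, u s (a + s)‖
      ≤ ‖⨍ s in ball (0:ℂ) r, u s (a + s)‖ + 4 * ‖u 0 0‖ * (r / R) := by
  have hR0 : 0 < R := hr.trans hR
  set w : ℂ → H := fun s => u s (a + s) with hw
  have hwc : Continuous w := hu.cont₂ (by fun_prop) (by fun_prop)
  have hwb : ∀ s, ‖w s‖ ≤ ‖u 0 0‖ := fun s => hu.norm_le _ _
  have hf : Continuous fun p : ℂ × ℂ => w (p.1 + p.2) :=
    hwc.comp (continuous_fst.add continuous_snd)
  -- the double average
  have h1 : ‖⨍ t in ball (0:ℂ) R, ⨍ s in ball (0:ℂ) r, w (t + s)‖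
      ≤ ‖⨍ s in ball (0:ℂ) r, w s‖ := by
    have hcont : Continuous fun t => ⨍ s in ball (0:ℂ) r, w (t + s) := by
      have e : (fun t => ⨍ s in ball (0:ℂ) r, w (t + s))
          = fun t => ((volume : Measure ℂ).real (ball (0:ℂ) r))⁻¹ •
            ∫ s in closedBall (0:ℂ) r, w (t + s) := by
        funext t
        rw [setAverage_eq]
        congr 1
        apply setIntegral_congr_set
        have h3 : closedBall (0:ℂ) r = ball (0:ℂ) r ∪ sphere (0:ℂ) r := ball_union_sphere.symm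
        rw [h3]
        have h4 : (volume : Measure ℂ) (sphere (0:ℂ) r) = 0 := Measure.addHaar_sphere _ _ _
        exact (union_ae_eq_left_of_ae_eq_empty (ae_eq_empty.2 h4)).symm
      rw [e]
      have h2 : Continuous fun t => ∫ s in closedBall (0:ℂ) r, w (t + s) :=
        continuous_parametric_integral_of_continuous (f := fun t s => w (t + s)) hf
          (isCompact_closedBall (0:ℂ) r)
      exact h2.const_smul ((volume : Measure ℂ).real (ball (0:ℂ) r))⁻¹
    refine (avg_norm_le _ R).trans (avg_le_of_le hcont.norm (fun t => ?_) hR0)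
    exact (hu.norm_avg_shift a t r).le
  have h2 : (⨍ t in ball (0:ℂ) R, ⨍ s in ball (0:ℂ) r, w (t + s))
      = ⨍ s in ball (0:ℂ) r, ⨍ t in ball (0:ℂ) R, w (s + t) := by
    rw [avg_swap hf R r]
    congr 1; funext s; congr 1; funext t; rw [add_comm]
  have hcont2 : Continuous fun s => ⨍ t in ball (0:ℂ) R, w (s + t) := by
    have e : (fun s => ⨍ t in ball (0:ℂ) R, w (s + t))
        = fun s => ((volume : Measure ℂ).real (ball (0:ℂ) R))⁻¹ •
          ∫ t in closedBall (0:ℂ) R, w (s + t) := by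
      funext t
      rw [setAverage_eq]
      congr 1
      apply setIntegral_congr_set
      have h3 : closedBall (0:ℂ) R = ball (0:ℂ) R ∪ sphere (0:ℂ) R := ball_union_sphere.symm
      rw [h3]
      have h4 : (volume : Measure ℂ) (sphere (0:ℂ) R) = 0 := Measure.addHaar_sphere _ _ _
      exact (union_ae_eq_left_of_ae_eq_empty (ae_eq_empty.2 h4)).symm
    rw [e]
    have h2 : Continuous fun s => ∫ t in closedBall (0:ℂ) R, w (s + t) :=
      continuous_parametric_integral_of_continuous (f := fun t s => w (t + s)) hf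
        (isCompact_closedBall (0:ℂ) R)
    exact h2.const_smul ((volume : Measure ℂ).real (ball (0:ℂ) R))⁻¹
  have h3 : ‖(⨍ s in ball (0:ℂ) r, ⨍ t in ball (0:ℂ) R, w (s + t))
      - ⨍ t in ball (0:ℂ) R, w t‖ ≤ 4 * ‖u 0 0‖ * (r / R) := by
    have e : (⨍ t in ball (0:ℂ) R, w t) = ⨍ _ in ball (0:ℂ) r, ⨍ t in ball (0:ℂ) R, w t :=
      (avg_const hr _).symm
    have e2 := PairP.avg_subE (g := fun s => ⨍ t in ball (0:ℂ) R, w (s + t))
      (h := fun _ => ⨍ t in ball (0:ℂ) R, w t) hcont2 continuous_const r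
    rw [e, e2, setAverage_eq]
    have hk : ‖∫ s in ball (0:ℂ) r, ((⨍ t in ball (0:ℂ) R, w (s + t)) - ⨍ t in ball (0:ℂ) R, w t)‖
        ≤ (4 * ‖u 0 0‖ * (r / R)) * (volume : Measure ℂ).real (ball (0:ℂ) r) := by
      apply norm_setIntegral_le_of_norm_le_const measure_ball_lt_top
      intro s hs
      rw [mem_ball, dist_zero_right] at hs
      exact avg_shift_bound hwc hwb hs.le hR
    have hv : 0 < (volume : Measure ℂ).real (ball (0:ℂ) r) := by
      rw [vol_ball_real _ hr.le]; have := Real.pi_pos; positivity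
    rw [norm_smul, norm_inv, Real.norm_of_nonneg hv.le, inv_mul_le_iff₀ hv, mul_comm]
    exact hk
  rw [h2] at h1
  have h4 := norm_sub_norm_le (⨍ t in ball (0:ℂ) R, w t)
    (⨍ s in ball (0:ℂ) r, ⨍ t in ball (0:ℂ) R, w (s + t))
  rw [norm_sub_rev] at h4
  linarith

/-- the fourth moment is at least `3/2` times the square of the norm of the local mass -/
lemma PairP.lower' (hu : PairP u) : (3 / 2) * ‖hu.cov 0‖ ^ 2 ≤ inner ℝ (u 0 0) (u 0 0) := by
  obtain ⟨h, hh, hform⟩ := hu.formula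
  obtain ⟨h0, h1⟩ := hu.h_zero_bounds (hh 0)
  have h2 := congrArg Complex.re (hform (fun _ => 0))
  have e0 : hu.C4f (fun _ => (0:ℂ)) = ((inner ℝ (u 0 0) (u 0 0) : ℝ) : ℂ) := rfl
  have e1 : hu.P12 (fun _ => (0:ℂ)) = ((‖hu.cov 0‖ ^ 2 : ℝ) : ℂ) := by
    have : hu.P12 (fun _ => (0:ℂ)) = ((inner ℝ (hu.cov (0 - 0)) (hu.cov (0 - 0)) : ℝ) : ℂ) := rfl
    rw [this, sub_zero, real_inner_self_eq_norm_sq]
  have e2 : hu.P23 (fun _ => (0:ℂ)) = ((‖hu.cov 0‖ ^ 2 : ℝ) : ℂ) := by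
    have : hu.P23 (fun _ => (0:ℂ)) = ((inner ℝ (hu.cov (0 - 0)) (hu.cov (0 - 0)) : ℝ) : ℂ) := rfl
    rw [this, sub_zero, real_inner_self_eq_norm_sq]
  have e3 : hu.P13 (fun _ => (0:ℂ)) = ((‖hu.cov 0‖ ^ 2 : ℝ) : ℂ) := by
    have : hu.P13 (fun _ => (0:ℂ)) = ((inner ℝ (hu.cov (0 - 0)) (hu.cov (0 - 0)) : ℝ) : ℂ) := rfl
    rw [this, sub_zero, real_inner_self_eq_norm_sq]
  rw [e0, e1, e2, e3] at h2
  simp only [add_zero, sub_zero, Complex.add_re, Complex.sub_re, Complex.ofReal_re] at h2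
  rw [h2]
  linarith

end PairMono

end

end Berry


end

section

/-!
A uniform lower bound for the fourth moments in terms of local masses at large scales.
-/

open Complex Filter Topology MeasureTheory Metric InnerProductSpace Laplacian
open scoped ENNReal

namespace Berry

noncomputable section

variable {Ω : Type*} [MeasurableSpace Ω] {P : Measure Ω} [IsProbabilityMeasure P]
  {F : ℕ → ℂ → Ω → ℝ} {B : ℝ}

omit [IsProbabilityMeasure P] in
lemma AWave.subseq (hF : AWave P F B) {σ : ℕ → ℕ} (hσ : Tendsto σ atTop atTop) :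
    AWave P (fun n => F (σ n)) B where
  ev := hσ.eventually hF.ev
  eqn := fun r δ hδ => hσ.eventually (hF.eqn r δ hδ)
  inv4 := fun x₁ x₂ x₃ x₄ s => (hF.inv4 x₁ x₂ x₃ x₄ s).comp hσ
  inv2 := fun x y s => (hF.inv2 x y s).comp hσ

/-- the mean square of the local mass at scale `R` -/
def mSq (P : Measure Ω) (F : ℕ → ℂ → Ω → ℝ) (R : ℝ) (n : ℕ) : ℝ :=
  ∫ ω, spatialAvg (F n) 0 R ω ^ 2 ∂P

/-- in the limit along an ultrafilter, the local masses converge to those of the limit object -/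
lemma AWave.mSq_lim (hF : AWave P F B) {U : Filter ℕ} (hU : U ≤ atTop)
    {H : Type} [NormedAddCommGroup H] [InnerProductSpace ℝ H] [CompleteSpace H] {u : ℂ → ℂ → H}
    {one : H} (hu : PairP u) (hone : inner ℝ one one = 1)
    (h4 : ∀ x₁ x₂ x₃ x₄, Tendsto (fun n => c4 P F n x₁ x₂ x₃ x₄) U
        (𝓝 (inner ℝ (u x₁ x₂) (u x₃ x₄))))
    (h2 : ∀ x y, Tendsto (fun n => c2 P F n x y) U (𝓝 (inner ℝ (u x y) one)))
    {R : ℝ} (hR : 0 < R) :
    Tendsto (mSq P F R) U (𝓝 (‖⨍ s in ball (0:ℂ) R, u s (0 + s)‖ ^ 2)) := by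
  have h := hF.norm_limit hU hu hone h4 h2 0 0 hR
  rw [zero_smul, sub_zero] at h
  refine h.congr' ?_
  filter_upwards [hU hF.ev] with n hn
  rw [← hn.1.planck_eq]
  unfold mSq
  simp only [sub_zero]

/-- local masses at a large scale are controlled by those at a smaller scale -/
lemma AWave.mSq_mono (hF : AWave P F B) {r R : ℝ} (hr : 0 < r) (hR : r < R) {η : ℝ} (hη : 0 < η) :
    ∀ᶠ n in atTop, Real.sqrt (mSq P F R n)
      ≤ Real.sqrt (mSq P F r n) + 4 * Real.sqrt |B| * (r / R) + η := by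
  by_contra hcon
  rw [Filter.not_eventually] at hcon
  have hne : (atTop ⊓ 𝓟 {n | ¬ (Real.sqrt (mSq P F R n)
      ≤ Real.sqrt (mSq P F r n) + 4 * Real.sqrt |B| * (r / R) + η)}).NeBot :=
    Filter.frequently_mem_iff_neBot.1 hcon
  set U := Ultrafilter.of (atTop ⊓ 𝓟 {n | ¬ (Real.sqrt (mSq P F R n)
      ≤ Real.sqrt (mSq P F r n) + 4 * Real.sqrt |B| * (r / R) + η)}) with hUdef
  have hU' : (U : Filter ℕ) ≤ atTop ⊓ 𝓟 {n | ¬ (Real.sqrt (mSq P F R n)
      ≤ Real.sqrt (mSq P F r n) + 4 * Real.sqrt |B| * (r / R) + η)} := Ultrafilter.of_le _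
  have hU : (U : Filter ℕ) ≤ atTop := hU'.trans inf_le_left
  have hbad : ∀ᶠ n in (U : Filter ℕ), ¬ (Real.sqrt (mSq P F R n)
      ≤ Real.sqrt (mSq P F r n) + 4 * Real.sqrt |B| * (r / R) + η) :=
    (hU'.trans inf_le_right) (mem_principal_self _)
  obtain ⟨H, i1, i2, i3, u, one, hu, hone, h4, h2⟩ := hF.limit U hU
  have hRpos : 0 < R := hr.trans hR
  have l1 := (hF.mSq_lim hU hu hone h4 h2 hRpos).sqrt
  have l2 := (hF.mSq_lim hU hu hone h4 h2 hr).sqrt
  rw [Real.sqrt_sq (norm_nonneg _)] at l1 l2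
  have hb : ‖u 0 0‖ ≤ Real.sqrt |B| := by
    apply Real.le_sqrt_of_sq_le
    rw [← real_inner_self_eq_norm_sq]
    refine le_of_tendsto (h4 0 0 0 0) ?_
    filter_upwards [hU hF.ev] with n hn
    have h5 := hn.2 0
    have e : c4 P F n 0 0 0 0 = ∫ ω, F n 0 ω ^ 4 ∂P := by
      unfold c4; congr 1; funext ω; ring
    rw [e]
    exact h5.trans (le_abs_self B)
  have hm := hu.avg_mono 0 hr hR
  have hrR : 0 ≤ r / R := by positivity
  have hm2 : ‖⨍ s in ball (0:ℂ) R, u s (0 + s)‖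
      ≤ ‖⨍ s in ball (0:ℂ) r, u s (0 + s)‖ + 4 * Real.sqrt |B| * (r / R) := by
    have : 4 * ‖u 0 0‖ * (r / R) ≤ 4 * Real.sqrt |B| * (r / R) :=
      mul_le_mul_of_nonneg_right (by linarith) hrR
    linarith
  have hlow : ‖⨍ s in ball (0:ℂ) r, u s (0 + s)‖ + 4 * Real.sqrt |B| * (r / R) + η
      ≤ ‖⨍ s in ball (0:ℂ) R, u s (0 + s)‖ := by
    refine le_of_tendsto_of_tendsto ((l2.add_const _).add_const η) l1 ?_
    filter_upwards [hbad] with n hn
    exact (not_le.1 hn).le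
  linarith

/-- **lower bound for the fourth moments in terms of local masses at large scales** -/
theorem AWave.lower_loc (hF : AWave P F B) {ε : ℝ} (hε : 0 < ε) :
    ∃ R₀ : ℝ, ∀ R ≥ R₀, ∀ᶠ n in atTop, (3 / 2) * mSq P F R n ≤ c4 P F n 0 0 0 0 + ε := by
  by_contra hcon
  push Not at hcon
  -- bad scales
  have h1 : ∀ k : ℕ, ∃ R : ℝ, ((k:ℝ) + 2) ^ 2 ≤ R ∧
      ∃ᶠ n in atTop, c4 P F n 0 0 0 0 + ε < (3 / 2) * mSq P F R n := by
    intro k
    obtain ⟨R, hR, hn⟩ := hcon (((k:ℝ) + 2) ^ 2)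
    refine ⟨R, hR, ?_⟩
    exact hn
  choose Rk hRk hfr using h1
  -- good indices
  have h2 : ∀ k : ℕ, ∃ n : ℕ, k ≤ n ∧ c4 P F n 0 0 0 0 + ε < (3 / 2) * mSq P F (Rk k) n ∧
      ∀ j ∈ Finset.range (k + 1), Real.sqrt (mSq P F (Rk k) n)
        ≤ Real.sqrt (mSq P F ((j:ℝ) + 1) n) + 4 * Real.sqrt |B| * (((j:ℝ) + 1) / Rk k)
          + 1 / ((k:ℝ) + 1) := by
    intro k
    have hk0 : (0:ℝ) ≤ k := Nat.cast_nonneg k
    have hev : ∀ᶠ n in atTop, ∀ j ∈ Finset.range (k + 1), Real.sqrt (mSq P F (Rk k) n)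
        ≤ Real.sqrt (mSq P F ((j:ℝ) + 1) n) + 4 * Real.sqrt |B| * (((j:ℝ) + 1) / Rk k)
          + 1 / ((k:ℝ) + 1) := by
      rw [Filter.eventually_all_finset]
      intro j hj
      have hjk : (j:ℝ) ≤ k := by exact_mod_cast Nat.lt_succ_iff.1 (Finset.mem_range.1 hj)
      apply hF.mSq_mono (by positivity) _ (by positivity)
      have := hRk k
      nlinarith
    obtain ⟨n, hn, hnn⟩ := (((hfr k).and_eventually hev).and_eventually
      (eventually_ge_atTop k)).exists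
    exact ⟨n, hnn, hn.1, hn.2⟩
  choose σ hσk hσb hσg using h2
  have hσ : Tendsto σ atTop atTop := tendsto_atTop_mono hσk tendsto_id
  have hF' := hF.subseq hσ
  obtain ⟨U, hU⟩ := exists_ultra
  obtain ⟨H, i1, i2, i3, u, one, hu, hone, h4, h2⟩ := hF'.limit U hU
  -- the limit of the bad local masses
  have key : ∀ j : ℕ, Real.sqrt ((2 / 3) * (inner ℝ (u 0 0) (u 0 0) + ε))
      ≤ ‖⨍ s in ball (0:ℂ) ((j:ℝ) + 1), u s (0 + s)‖ := by
    intro j
    have l1 := (hF'.mSq_lim hU hu hone h4 h2 (R := (j:ℝ) + 1) (by positivity)).sqrt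
    rw [Real.sqrt_sq (norm_nonneg _)] at l1
    have l2 : Tendsto (fun k : ℕ => 4 * Real.sqrt |B| * (((j:ℝ) + 1) / Rk k) + 1 / ((k:ℝ) + 1))
        (U : Filter ℕ) (𝓝 (4 * Real.sqrt |B| * 0 + 0)) := by
      have a1 : Tendsto (fun k : ℕ => Rk k) atTop atTop := by
        refine tendsto_atTop_mono (f := fun k : ℕ => (k:ℝ)) (fun k => ?_)
          tendsto_natCast_atTop_atTop
        have := hRk k
        have hk0 : (0:ℝ) ≤ k := Nat.cast_nonneg k
        nlinarith
      have a2 : Tendsto (fun k : ℕ => ((j:ℝ) + 1) / Rk k) atTop (𝓝 0) :=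
        tendsto_const_nhds.div_atTop a1
      exact ((a2.const_mul _).add tendsto_one_div_add_atTop_nhds_zero_nat).mono_left hU
    have l3 : Tendsto (fun k => Real.sqrt ((2 / 3) * (c4 P F (σ k) 0 0 0 0 + ε))) (U : Filter ℕ)
        (𝓝 (Real.sqrt ((2 / 3) * (inner ℝ (u 0 0) (u 0 0) + ε)))) :=
      (((h4 0 0 0 0).add_const ε).const_mul (2 / 3)).sqrt
    have l4 := l1.add l2
    rw [mul_zero, add_zero, add_zero] at l4
    refine le_of_tendsto_of_tendsto l3 l4 ?_
    have hj : ∀ᶠ k : ℕ in (U : Filter ℕ), j ≤ k := hU (eventually_ge_atTop j)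
    filter_upwards [hj] with k hk
    have b1 := hσg k j (Finset.mem_range.2 (Nat.lt_succ_of_le hk))
    have b2 : Real.sqrt ((2 / 3) * (c4 P F (σ k) 0 0 0 0 + ε)) ≤ Real.sqrt (mSq P F (Rk k) (σ k)) := by
      apply Real.sqrt_le_sqrt
      have := hσb k
      linarith
    have b3 : mSq P (fun n => F (σ n)) ((j:ℝ) + 1) k = mSq P F ((j:ℝ) + 1) (σ k) := rfl
    rw [b3]
    linarith
  have hlim : Tendsto (fun j : ℕ => ‖⨍ s in ball (0:ℂ) ((j:ℝ) + 1), u s (0 + s)‖) atTop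
      (𝓝 ‖hu.cov 0‖) := by
    have a1 : Tendsto (fun j : ℕ => (j:ℝ) + 1) atTop atTop :=
      tendsto_atTop_add_const_right _ _ tendsto_natCast_atTop_atTop
    exact ((hu.tendsto_cov 0).norm).comp a1
  have hfin := ge_of_tendsto' hlim key
  have h5 := hu.lower'
  have h6 : (2 / 3) * (inner ℝ (u 0 0) (u 0 0) + ε) ≤ ‖hu.cov 0‖ ^ 2 := by
    have h7 : (0:ℝ) ≤ inner ℝ (u 0 0) (u 0 0) := real_inner_self_nonneg
    have h8 : 0 ≤ (2 / 3) * (inner ℝ (u 0 0) (u 0 0) + ε) := by positivity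
    calc (2 / 3) * (inner ℝ (u 0 0) (u 0 0) + ε)
        = Real.sqrt ((2 / 3) * (inner ℝ (u 0 0) (u 0 0) + ε)) ^ 2 := (Real.sq_sqrt h8).symm
      _ ≤ ‖hu.cov 0‖ ^ 2 := pow_le_pow_left₀ (Real.sqrt_nonneg _) hfin 2
  linarith

end

end Berry


end

section

/-!
Fourth moments of Laplace eigenfunctions on closed surfaces against local masses at the scale of the
wavelength, and the equivalence of Gaussian four-point correlations with Planck-scale quantum
ergodicity.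
-/

open UpperHalfPlane MeasureTheory ProbabilityTheory MatrixGroups Filter Topology Set
  InnerProductSpace Laplacian
open scoped ENNReal NNReal Pointwise

namespace Berry

noncomputable section

section Spatial

variable {Ω : Type*} [MeasurableSpace Ω] {P : Measure Ω} [IsProbabilityMeasure P]

omit [IsProbabilityMeasure P] in
lemma SingleW.spatial_meas {F : ℂ → Ω → ℝ} (hF : SingleW P F) (a : ℂ) (R : ℝ) :
    Measurable (spatialAvg F a R) ∧ ∃ C : ℝ, ∀ ω, |spatialAvg F a R ω| ≤ C := by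
  have := ball_finite R
  obtain ⟨K, hK⟩ := hF.bdd
  have hm := hF.meas_uncurry
  have hgm : Measurable (Function.uncurry fun (ω : Ω) (s : ℂ) => F s ω * F (s + a) ω) := by
    have h1 : Measurable fun p : Ω × ℂ => F p.2 p.1 := hm.comp measurable_swap
    have h2 : Measurable fun p : Ω × ℂ => F (p.2 + a) p.1 := by
      have h3 : Measurable fun p : Ω × ℂ => (p.2 + a, p.1) := by fun_prop
      exact hm.comp h3
    exact h1.mul h2
  have hI : Measurable fun ω => ∫ s in Metric.ball (0:ℂ) R, F s ω * F (s + a) ω :=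
    (hgm.stronglyMeasurable.integral_prod_right'
      (ν := (volume : Measure ℂ).restrict (Metric.ball 0 R))).measurable
  set w : ℝ := ((volume : Measure ℂ).real (Metric.ball (0:ℂ) R))⁻¹ with hw
  have e1 : ∀ ω, spatialAvg F a R ω = w * ∫ s in Metric.ball (0:ℂ) R, F s ω * F (s + a) ω := by
    intro ω
    unfold spatialAvg
    rw [setAverage_eq, smul_eq_mul]
  have e2 : spatialAvg F a R = fun ω => w * ∫ s in Metric.ball (0:ℂ) R, F s ω * F (s + a) ω :=
    funext e1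
  refine ⟨by rw [e2]; exact hI.const_mul w,
    |w| * (K * K * ((volume : Measure ℂ).restrict (Metric.ball (0:ℂ) R)).real Set.univ), fun ω => ?_⟩
  rw [e1, abs_mul]
  refine mul_le_mul_of_nonneg_left ?_ (abs_nonneg _)
  have h1 : ‖∫ s in Metric.ball (0:ℂ) R, F s ω * F (s + a) ω‖
      ≤ K * K * ((volume : Measure ℂ).restrict (Metric.ball (0:ℂ) R)).real Set.univ := by
    refine norm_integral_le_of_norm_le_const (Eventually.of_forall fun s => ?_)
    rw [norm_mul, Real.norm_eq_abs, Real.norm_eq_abs]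
    exact mul_le_mul (hK _ _) (hK _ _) (abs_nonneg _) ((abs_nonneg _).trans (hK 0 ω))
  exact h1

lemma SingleW.sq_le {F : ℂ → Ω → ℝ} (hF : SingleW P F) (a : ℂ) (R : ℝ) (k : ℝ) :
    ∫ ω, spatialAvg F a R ω ^ 2 ∂P ≤ 2 * (∫ ω, (spatialAvg F a R ω - k) ^ 2 ∂P) + 2 * k ^ 2 := by
  obtain ⟨hm, C, hC⟩ := hF.spatial_meas a R
  have i1 : Integrable (fun ω => (spatialAvg F a R ω - k) ^ 2) P := by
    refine integrable_bdd (C := (C + |k|) ^ 2) ((hm.sub_const k).pow_const 2) fun ω => ?_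
    rw [abs_pow]
    exact pow_le_pow_left₀ (abs_nonneg _) ((abs_sub _ _).trans (by linarith [hC ω])) 2
  have h1 : ∫ ω, spatialAvg F a R ω ^ 2 ∂P
      ≤ ∫ ω, (2 * (spatialAvg F a R ω - k) ^ 2 + 2 * k ^ 2) ∂P := by
    refine integral_mono_of_nonneg (Eventually.of_forall fun ω => sq_nonneg _)
      ((i1.const_mul 2).add (integrable_const _)) (Eventually.of_forall fun ω => ?_)
    simp only
    nlinarith [sq_nonneg (spatialAvg F a R ω - 2 * k)]
  rw [integral_add (i1.const_mul 2) (integrable_const _), integral_const_mul] at h1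
  simpa using h1

end Spatial

variable {Γ : Subgroup SL(2, ℝ)} {ρ : ℍ → ℝ} {D : Set ℍ} {φ : ℕ → ℍ → ℝ} {m : ℕ → ℝ}

lemma Surf.scale (h : Surf Γ ρ D φ m) (c : ℕ → ℝ) : Surf Γ ρ D (fun n z => c n * φ n z) m := by
  refine ⟨h.geo, ⟨fun n γ hγ z => by simp only [h.eig.invariant n γ hγ],
    fun n => contDiffOn_const.mul (h.eig.smooth n), fun n z => ?_, h.eig.tendsto⟩, fun n => ?_⟩
  · have h1 : ContDiffAt ℝ 2 (fun w : ℂ => φ n (ofComplex w)) (z : ℂ) :=
      (h.eig.smooth n).contDiffAt (isOpen_uhp.mem_nhds z.im_pos)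
    have h2 : (Δ (fun w : ℂ => c n * φ n (ofComplex w))) (z : ℂ)
        = c n * (Δ (fun w : ℂ => φ n (ofComplex w))) (z : ℂ) := by
      have := laplacian_smul (c n) h1
      exact this
    rw [h2]
    have := h.eig.eigen n z
    linear_combination (c n) * this
  · obtain ⟨C, hC⟩ := h.bdd n
    exact ⟨|c n| * C, fun z => by rw [abs_mul]; exact mul_le_mul_of_nonneg_left (hC z) (abs_nonneg _)⟩

lemma Surf.sW_single (h : Surf Γ ρ D φ m) (n : ℕ) (P : Measure (ℍ × ℝ)) :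
    SingleW P (sW ρ (φ n) (m n)) := by
  obtain ⟨C, hC⟩ := h.bdd n
  refine ⟨fun x => ?_, fun p => ?_, C, fun x p => cutWave_bdd hC _ _ _⟩
  · have hρc : Continuous ρ := h.geo.unif.continuous
    have k1 : Measurable (Function.uncurry (cutWave (φ n) (m n))) :=
      measurable_uncurry_of_continuous_of_measurable
        (fun p => ((h.reig n).cutWave_smooth p).continuous)
        (fun y => cutWave_meas (h.reig n).continuous (m n) y)
    have hc1 : Continuous fun p : ℍ × ℝ => ((Real.exp (ρ p.1) : ℝ) : ℂ) :=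
      Complex.continuous_ofReal.comp (Real.continuous_exp.comp (hρc.comp continuous_fst))
    have hc : Continuous fun p : ℍ × ℝ => x / ((Real.exp (ρ p.1) : ℝ) : ℂ) := by
      refine continuous_const.div hc1 fun p => ?_
      rw [Ne, Complex.ofReal_eq_zero]
      exact (Real.exp_pos _).ne'
    have h2 : Measurable fun p : ℍ × ℝ => (x / ((Real.exp (ρ p.1) : ℝ) : ℂ), p) :=
      hc.measurable.prodMk measurable_id
    have h3 : Measurable fun p : ℍ × ℝ =>
        cutWave (φ n) (m n) (x / ((Real.exp (ρ p.1) : ℝ) : ℂ)) p := by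
      have h4 := k1.comp h2
      simpa only [Function.comp_def, Function.uncurry_apply_pair] using h4
    exact h3
  · have k1 := (h.reig n).cutWave_smooth p
    have k2 : ContDiff ℝ 2 fun x : ℂ => x / (Real.exp (ρ p.1) : ℂ) := by
      simp only [div_eq_mul_inv]
      exact contDiff_id.mul contDiff_const
    exact k1.comp k2

lemma Surf.wW_single (h : Surf Γ ρ D φ m) (R : ℕ → ℕ) (n : ℕ) (P : Measure (ℍ × ℝ)) :
    SingleW P (wW ρ φ m R n) := by
  have hsm := h.sW_single n P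
  obtain ⟨C, hC⟩ := hsm.bdd
  refine ⟨fun x => (hsm.meas x).const_mul _, fun p => ?_, C, fun x p => ?_⟩
  · unfold wW
    refine ContDiff.mul ?_ (hsm.smooth p)
    have k1 : ContDiff ℝ 2 (cut : ℂ → ℝ) := cut.contDiff
    have k2 : ContDiff ℝ 2 fun x : ℂ => x / (R n : ℂ) := by
      simp only [div_eq_mul_inv]
      exact contDiff_id.mul contDiff_const
    exact k1.comp k2
  · unfold wW
    rw [abs_mul, abs_of_nonneg cut.nonneg]
    calc cut (x / (R n : ℂ)) * |sW ρ (φ n) (m n) x p| ≤ 1 * C :=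
          mul_le_mul cut.le_one (hC x p) (abs_nonneg _) zero_le_one
      _ = C := one_mul C

/-- **fourth moments are at most three times the mean square of the local mass** -/
theorem Surf.upper_loc [Countable Γ] (h : Surf Γ ρ D φ m) {R : ℝ} (hR : 0 < R) {ε : ℝ}
    (hε : 0 < ε) : ∀ᶠ n in atTop,
    (rAvg ρ D fun z => φ n z ^ 4) ≤ (3 + ε) * massSq ρ D (φ n) (m n) R := by
  have hP := rFrameProb_isProb h.geo
  by_contra hcon
  have hfr : ∃ᶠ n in atTop, (3 + ε) * massSq ρ D (φ n) (m n) R < (rAvg ρ D fun z => φ n z ^ 4) := by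
    rw [Filter.not_eventually] at hcon
    exact hcon.mono fun n hn => not_le.1 hn
  obtain ⟨σ, hσ, hlt⟩ := extraction_of_frequently_atTop hfr
  have h' := h.subseq hσ.tendsto_atTop
  set N : ℕ → ℝ := fun n => rAvg ρ D fun z => φ (σ n) z ^ 4 with hN
  have hms : ∀ n, 0 ≤ massSq ρ D (φ (σ n)) (m (σ n)) R := fun n =>
    integral_nonneg fun p => sq_nonneg _
  have hNpos : ∀ n, 0 < N n := fun n =>
    lt_of_le_of_lt (mul_nonneg (by linarith) (hms n)) (hlt n)
  set c : ℕ → ℝ := fun n => (rt4 (N n))⁻¹ with hc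
  have hrt : ∀ n, rt4 (N n) ^ 4 = N n := fun n => rt4_pow (hNpos n).le
  have hc4 : ∀ n, c n ^ 4 * N n = 1 := by
    intro n
    rw [hc]
    simp only
    rw [inv_pow, hrt, inv_mul_cancel₀ (hNpos n).ne']
  have h'' := h'.scale c
  have hfour : ∀ n, (rAvg ρ D fun z => (c n * φ (σ n) z) ^ 4) = 1 := by
    intro n
    unfold rAvg
    simp only [mul_pow]
    rw [integral_const_mul]
    exact hc4 n
  have hmass : ∀ n, massSq ρ D (fun z => c n * φ (σ n) z) (m (σ n)) R ≤ 1 / (3 + ε) := by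
    intro n
    have e1 : ∀ p, spatialAvg (rWave ρ (fun z => c n * φ (σ n) z) (m (σ n))) 0 R p
        = c n ^ 2 * spatialAvg (rWave ρ (φ (σ n)) (m (σ n))) 0 R p := by
      intro p
      unfold spatialAvg rWave
      rw [setAverage_eq, setAverage_eq, smul_eq_mul, smul_eq_mul, mul_left_comm (c n ^ 2)]
      congr 1
      rw [← integral_const_mul]
      congr 1; funext x; ring
    unfold massSq
    simp only [e1]
    have e2 : ∀ p, (c n ^ 2 * spatialAvg (rWave ρ (φ (σ n)) (m (σ n))) 0 R p) ^ 2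
        = c n ^ 4 * spatialAvg (rWave ρ (φ (σ n)) (m (σ n))) 0 R p ^ 2 := fun p => by ring
    simp only [e2]
    rw [integral_const_mul, le_div_iff₀ (by linarith)]
    have h1 := (hlt n).le
    have h2 : 0 ≤ c n ^ 4 := by positivity
    calc c n ^ 4 * (∫ p, spatialAvg (rWave ρ (φ (σ n)) (m (σ n))) 0 R p ^ 2
          ∂(rFrameProb ρ D)) * (3 + ε)
        = c n ^ 4 * ((3 + ε) * massSq ρ D (φ (σ n)) (m (σ n)) R) := by unfold massSq; ring
      _ ≤ c n ^ 4 * N n := mul_le_mul_of_nonneg_left h1 h2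
      _ = 1 := hc4 n
  obtain ⟨B₂, hdat⟩ := h''.dat (B₁ := 1) fun n => (hfour n).le
  obtain ⟨R', B', hR', hA⟩ := hdat.aWave (B₁ := 1) fun n => (hfour n).le
  have h1 := hA.upper_loc hR (L := 1) (M := 1 / (3 + ε)) (Eventually.of_forall fun n => by
    rw [h''.c4_zero, hfour n]) (by
      filter_upwards [h''.spatial_ev hR' 0 R] with n hn
      simp only [hn]
      exact hmass n)
  have h2 : 3 * (1 / (3 + ε)) < 1 := by
    rw [mul_one_div, div_lt_one (by linarith)]; linarith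
  linarith

/-- Planck-scale equidistribution of mass bounds the fourth moments -/
theorem Surf.four_bounded [Countable Γ] (h : Surf Γ ρ D φ m) (hq : RPlanckAt ρ D φ m 0) :
    ∃ B : ℝ, ∀ n, (rAvg ρ D fun z => φ n z ^ 4) ≤ B := by
  have hP := rFrameProb_isProb h.geo
  obtain ⟨R₀, hR₀⟩ := hq 1 one_pos
  set R := max R₀ 1 with hR
  have hR0 : 0 < R := lt_of_lt_of_le one_pos (le_max_right _ _)
  have hev : ∀ᶠ n in atTop, (rAvg ρ D fun z => φ n z ^ 4) ≤ 16 := by
    filter_upwards [hR₀ R (le_max_left _ _), h.upper_loc hR0 (ε := 1) one_pos,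
      h.spatial_ev tendsto_id 0 R, h.eig.tendsto.eventually_gt_atTop 0] with n h1 h2 h3 hm
    have hsw := h.wW_single id n (rFrameProb ρ D)
    have h4 := hsw.sq_le 0 R 1
    simp only [h3] at h4
    rw [waveK_zero] at h1
    have h5 : massSq ρ D (φ n) (m n) R ≤ 4 := by
      unfold massSq
      linarith
    linarith
  have hb : IsBoundedUnder (· ≤ ·) atTop fun n => (rAvg ρ D fun z => φ n z ^ 4) :=
    ⟨16, by simpa using hev⟩
  obtain ⟨B, hB⟩ := hb.bddAbove_range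
  exact ⟨B, fun n => hB ⟨n, rfl⟩⟩

/-- **Gaussian four-point correlations are equivalent to Planck-scale quantum ergodicity.** -/
theorem Surf.four_iff' [Countable Γ] (h : Surf Γ ρ D φ m)
    (hnorm : ∀ n, rAvg ρ D (fun z => φ n z ^ 2) = 1) :
    RFourPt ρ D φ m ↔ ∀ a, RPlanckAt ρ D φ m a := by
  rw [h.four_iff hnorm]
  exact ⟨fun hh => hh.2, fun hh => ⟨h.four_bounded (hh 0), hh⟩⟩

/-- **mass equidistribution at the Planck scale bounds the fourth moments by `3`** -/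
theorem Surf.upper' [Countable Γ] (h : Surf Γ ρ D φ m) (hq : RPlanckAt ρ D φ m 0)
    {ε : ℝ} (hε : 0 < ε) : ∀ᶠ n in atTop, (rAvg ρ D fun z => φ n z ^ 4) ≤ 3 + ε := by
  obtain ⟨B, hB⟩ := h.four_bounded hq
  exact h.upper hB hq hε

end

end Berry


end

section

/-!
Two-sided bounds for the fourth moments of Laplace eigenfunctions on closed surfaces.
-/

open UpperHalfPlane MeasureTheory ProbabilityTheory MatrixGroups Filter Topology Set
  InnerProductSpace Laplacian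
open scoped ENNReal NNReal Pointwise

namespace Berry

noncomputable section

variable {Γ : Subgroup SL(2, ℝ)} {ρ : ℍ → ℝ} {D : Set ℍ} {φ : ℕ → ℍ → ℝ} {m : ℕ → ℝ}

lemma massSq_scale (c : ℝ) (f : ℍ → ℝ) (k R : ℝ) :
    massSq ρ D (fun z => c * f z) k R = c ^ 4 * massSq ρ D f k R := by
  have e1 : ∀ p, spatialAvg (rWave ρ (fun z => c * f z) k) 0 R p
      = c ^ 2 * spatialAvg (rWave ρ f k) 0 R p := by
    intro p
    unfold spatialAvg rWave
    rw [setAverage_eq, setAverage_eq, smul_eq_mul, smul_eq_mul, mul_left_comm (c ^ 2)]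
    congr 1
    rw [← integral_const_mul]
    congr 1; funext x; ring
  unfold massSq
  simp only [e1]
  rw [← integral_const_mul]
  congr 1; funext p; ring

/-- **fourth moments against local masses at large scales** -/
theorem Surf.lower_loc [Countable Γ] (h : Surf Γ ρ D φ m)
    (hpos : ∀ᶠ n in atTop, 0 < rAvg ρ D fun z => φ n z ^ 4) {ε : ℝ} (hε : 0 < ε) :
    ∃ R₀ : ℝ, ∀ R ≥ R₀, ∀ᶠ n in atTop,
      (3 / 2) * massSq ρ D (φ n) (m n) R ≤ (1 + ε) * rAvg ρ D fun z => φ n z ^ 4 := by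
  have hP := rFrameProb_isProb h.geo
  set N : ℕ → ℝ := fun n => rAvg ρ D fun z => φ n z ^ 4 with hN
  have hN0 : ∀ n, 0 ≤ N n := fun n => integral_nonneg fun z => by positivity
  set c : ℕ → ℝ := fun n => (rt4 (N n))⁻¹ with hc
  have hrt : ∀ n, rt4 (N n) ^ 4 = N n := fun n => rt4_pow (hN0 n)
  have hc4 : ∀ n, 0 < N n → c n ^ 4 * N n = 1 := by
    intro n hn
    rw [hc]
    simp only
    rw [inv_pow, hrt, inv_mul_cancel₀ hn.ne']
  have h'' := h.scale c
  have hfour : ∀ n, (rAvg ρ D fun z => (c n * φ n z) ^ 4) = c n ^ 4 * N n := by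
    intro n
    unfold rAvg
    simp only [mul_pow]
    rw [integral_const_mul]
    rfl
  have hle : ∀ n, (rAvg ρ D fun z => (c n * φ n z) ^ 4) ≤ 1 := by
    intro n
    rw [hfour]
    rcases (hN0 n).eq_or_lt with h0 | h0
    · rw [← h0, mul_zero]; exact zero_le_one
    · rw [hc4 n h0]
  obtain ⟨B₂, hdat⟩ := h''.dat (B₁ := 1) hle
  obtain ⟨R', B', hR', hA⟩ := hdat.aWave (B₁ := 1) hle
  obtain ⟨R₀, hR₀⟩ := hA.lower_loc hε
  refine ⟨R₀, fun R hR => ?_⟩
  filter_upwards [hR₀ R hR, h''.spatial_ev hR' 0 R, hpos] with n h1 h2 h3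
  rw [h''.c4_zero] at h1
  have e1 : mSq (rFrameProb ρ D) (wW ρ (fun n z => c n * φ n z) m R') R n
      = c n ^ 4 * massSq ρ D (φ n) (m n) R := by
    rw [← massSq_scale]
    unfold mSq massSq
    simp only [h2]
  rw [e1, hfour, hc4 n h3] at h1
  have h4 : (3 / 2) * (c n ^ 4 * massSq ρ D (φ n) (m n) R) * N n ≤ (1 + ε) * N n :=
    mul_le_mul_of_nonneg_right h1 h3.le
  have h5 : (3 / 2) * (c n ^ 4 * massSq ρ D (φ n) (m n) R) * N n
      = (3 / 2) * massSq ρ D (φ n) (m n) R * (c n ^ 4 * N n) := by ring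
  rw [h5, hc4 n h3, mul_one] at h4
  exact h4

/-- **two-sided bound for the fourth moments of eigenfunctions** -/
theorem Surf.two_sided [Countable Γ] (h : Surf Γ ρ D φ m)
    (hnorm : ∀ n, rAvg ρ D (fun z => φ n z ^ 2) = 1) {ε : ℝ} (hε : 0 < ε) :
    ∃ R₀ > 0, ∀ R ≥ R₀, ∀ᶠ n in atTop,
      (3 / 2 - ε) * max 1 (massSq ρ D (φ n) (m n) R) ≤ (rAvg ρ D fun z => φ n z ^ 4) ∧
      (rAvg ρ D fun z => φ n z ^ 4) ≤ (3 + ε) * massSq ρ D (φ n) (m n) R := by
  have hpos : ∀ᶠ n in atTop, 0 < rAvg ρ D fun z => φ n z ^ 4 := by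
    filter_upwards [h.lower hnorm (ε := 1) one_pos] with n hn
    linarith
  obtain ⟨R₀, hR₀⟩ := h.lower_loc hpos (ε := (2 / 3) * ε) (by positivity)
  refine ⟨max R₀ 1, lt_of_lt_of_le one_pos (le_max_right _ _), fun R hR => ?_⟩
  have hR1 : R₀ ≤ R := (le_max_left _ _).trans hR
  have hR2 : 0 < R := lt_of_lt_of_le one_pos ((le_max_right _ _).trans hR)
  filter_upwards [hR₀ R hR1, h.lower hnorm hε, h.upper_loc hR2 hε, hpos] with n h1 h2 h3 h4
  refine ⟨?_, h3⟩
  set M := massSq ρ D (φ n) (m n) R with hM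
  set N := rAvg ρ D fun z => φ n z ^ 4 with hN
  have hM0 : 0 ≤ M := integral_nonneg fun p => sq_nonneg _
  rcases le_total (3 / 2 - ε) 0 with h5 | h5
  · have : (3 / 2 - ε) * max 1 M ≤ 0 :=
      mul_nonpos_of_nonpos_of_nonneg h5 (le_max_of_le_left zero_le_one)
    linarith
  · rw [mul_max_of_nonneg _ _ h5, mul_one]
    refine max_le h2 ?_
    -- (3/2 - ε) M ≤ N
    have h6 : (3 / 2 - ε) * ((3 / 2) * M) ≤ (3 / 2 - ε) * ((1 + (2 / 3) * ε) * N) :=
      mul_le_mul_of_nonneg_left h1 h5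
    have h7 : (3 / 2 - ε) * (1 + (2 / 3) * ε) ≤ 3 / 2 := by nlinarith [sq_nonneg ε]
    have h8 : (3 / 2 - ε) * (1 + (2 / 3) * ε) * N ≤ 3 / 2 * N :=
      mul_le_mul_of_nonneg_right h7 h4.le
    nlinarith

end

end Berry


end
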