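import Mathlib
import Pool.Agent.BWM.C04
import Pool.Agent.BWM.C05

/-! Parts: Lib_helper67.QE.LimPos, Lib_helper67.QE.DirG, Lib_helper67.QE.HypTransport, Lib_helper67.QE.HypLimits, Lib_helper67.QE.VarStep2, Lib_helper67.QE.Var3, Lib_helper67.QE.FlowParam, Lib_helper67.QE.FlowIota, Lib_helper67.QE.FlowMeasExt, Lib_helper67.QE.FlowRot, Lib_helper67.QE.FlowInv -/

section

/-!
Positivity properties of the weak limits of the products of two jets.
-/

open MeasureTheory Filter Topology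
open scoped ContDiff

namespace QE

noncomputable section

variable {U : Set ℂ} {h : ℕ → ℝ} {g a : ℂ → ℂ} {φ : ℕ → ℂ → ℂ}

/-- the family `u` consists of the weak limits of the products of two jets -/
def JLim (U : Set ℂ) (h : ℕ → ℝ) (a : ℂ → ℂ) (φ : ℕ → ℂ → ℂ) (u : ℤ → ℂ → ℂ) : Prop :=
  ∀ j m : ℤ, WLim U (fun n z => E h a φ j n z * E h a φ m n z) (fun z => (-1) ^ j * u (j + m) z)

namespace Setup

variable (S : Setup U g a h φ)

include S

theorem smooth_EE (j m : ℤ) : SmoothSeq U (fun n z => E h a φ j n z * E h a φ m n z) :=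
  (S.tame_E j).smooth.mul (S.tame_E m).smooth

theorem conj_E' (j : ℤ) (n : ℕ) (z : ℂ) (hz : z ∈ U) :
    (starRingEnd ℂ) (E h a φ j n z) = (-1) ^ j * E h a φ (-j) n z := by
  cases j with
  | ofNat m =>
    have h1 := S.E_neg m n z hz
    have h2 : -(Int.ofNat m) = -(m : ℤ) := rfl
    rw [h2, h1]
    show _ = (-1) ^ (m : ℤ) * _
    rw [zpow_natCast, ← mul_assoc, ← mul_pow]
    have : ((-1 : ℂ) * -1) ^ m = 1 := by norm_num
    rw [this, one_mul]
    rfl
  | negSucc m =>
    have h2 : -(Int.negSucc m) = Int.ofNat (m + 1) := by simp [Int.neg_negSucc]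
    rw [h2]
    show (starRingEnd ℂ) ((-1) ^ (m + 1) * (starRingEnd ℂ) (jet h a φ (m + 1) n z))
      = (-1) ^ (Int.negSucc m) * jet h a φ (m + 1) n z
    rw [map_mul, starRingEnd_self_apply, zpow_negSucc, map_pow]
    congr 1
    rw [← inv_pow]
    norm_num

variable {u : ℤ → ℂ → ℂ} (hl : ∀ k, LocL2 U (u k)) (hw : JLim U h a φ u)

include hl hw

theorem lim_zero (k : ℤ) : WLim U (fun n z => E h a φ 0 n z * E h a φ k n z) (u k) :=
  (hw 0 k).congr_right fun z _ => by rw [zpow_zero, one_mul, zero_add]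

theorem lim_odd (k : ℤ) (hk : Odd k) : ∀ᵐ z ∂((volume : Measure ℂ).restrict U), u k z = 0 := by
  have h1 := S.lim_zero hl hw k
  have h2 : WLim U (fun n z => E h a φ 0 n z * E h a φ k n z) (fun z => (-1) ^ k * u k z) :=
    ((hw k 0).congr fun n z _ => mul_comm _ _).congr_right fun z _ => by rw [add_zero]
  have h3 := h1.unique S.op h2 (hl k) ((hl k).const_mul _)
  filter_upwards [h3] with z hz
  rw [hk.neg_one_zpow] at hz
  have : 2 * u k z = 0 := by linear_combination hz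
  exact (mul_eq_zero.1 this).resolve_left two_ne_zero

theorem lim_conj (k : ℤ) : ∀ᵐ z ∂((volume : Measure ℂ).restrict U),
    u (-k) z = (starRingEnd ℂ) (u k z) := by
  rcases Int.even_or_odd k with hk | hk
  · have h1 := (S.lim_zero hl hw k).conj
    have h2 : WLim U (fun n z => (starRingEnd ℂ) (E h a φ 0 n z * E h a φ k n z)) (u (-k)) := by
      refine (S.lim_zero hl hw (-k)).congr fun n z hz => ?_
      rw [map_mul, S.conj_E' 0 n z hz, S.conj_E' k n z hz, hk.neg_one_zpow]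
      simp
    exact h2.unique S.op h1 (hl (-k)) ((hl k).conj)
  · filter_upwards [S.lim_odd hl hw k hk, S.lim_odd hl hw (-k) hk.neg] with z h1 h2
    rw [h1, h2, map_zero]

theorem lim_real : ∀ᵐ z ∂((volume : Measure ℂ).restrict U), 0 ≤ (u 0 z).re ∧ (u 0 z).im = 0 := by
  have h1 := (S.lim_zero hl hw 0).nonneg S.op (hl 0) (fun n z hz => by
    have hr : (starRingEnd ℂ) (E h a φ 0 n z) = E h a φ 0 n z := S.real n z hz
    have h2 : E h a φ 0 n z * E h a φ 0 n z = ((Complex.normSq (E h a φ 0 n z) : ℝ) : ℂ) := by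
      rw [← Complex.mul_conj, hr]
    rw [h2, Complex.ofReal_re]
    exact Complex.normSq_nonneg _) (S.smooth_EE 0 0)
  filter_upwards [h1, S.lim_conj hl hw 0] with z h2 h3
  refine ⟨h2, ?_⟩
  rw [neg_zero] at h3
  exact Complex.conj_eq_iff_im.1 h3.symm

/-- `E_j conj(E_l)` has the weak limit `(-1)^{j+l} u_{j-l}` -/
theorem lim_mul_conj (j l : ℤ) : WLim U (fun n z => E h a φ j n z * (starRingEnd ℂ) (E h a φ l n z))
    (fun z => (-1) ^ (j + l) * u (j - l) z) := by
  have h1 := (hw j (-l)).const_mul ((-1) ^ l)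
  refine (h1.congr fun n z hz => ?_).congr_right fun z _ => ?_
  · rw [S.conj_E' l n z hz]; ring
  · rw [zpow_add₀ (by norm_num), sub_eq_add_neg]; ring

theorem lim_pos (N : ℕ) (w : ℂ) (hw1 : ‖w‖ = 1) : ∀ᵐ z ∂((volume : Measure ℂ).restrict U),
    0 ≤ (∑ j ∈ Finset.range N, ∑ l ∈ Finset.range N, u ((j : ℤ) - l) z * w ^ ((j : ℤ) - l)).re := by
  have hw0 : w ≠ 0 := by
    intro h0; rw [h0, norm_zero] at hw1; exact one_ne_zero hw1.symm
  have hcw : (starRingEnd ℂ) w = w⁻¹ := by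
    rw [Complex.inv_def, Complex.normSq_eq_norm_sq, hw1]; simp
  set c : ℤ → ℤ → ℂ := fun j l => ((-1) ^ j * w ^ j) * (starRingEnd ℂ) ((-1) ^ l * w ^ l) with hc
  have hce : ∀ j l : ℤ, c j l = (-1) ^ (j + l) * w ^ (j - l) := by
    intro j l
    rw [hc]
    simp only [map_mul, map_zpow₀, hcw, map_neg, map_one]
    rw [zpow_add₀ (by norm_num), zpow_sub₀ hw0, inv_zpow]
    ring
  have h1 : ∀ j ∈ Finset.range N, ∀ l ∈ Finset.range N,
      WLim U (fun n z => c j l * (E h a φ j n z * (starRingEnd ℂ) (E h a φ l n z)))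
        (fun z => u ((j : ℤ) - l) z * w ^ ((j : ℤ) - l)) := by
    intro j _ l _
    refine ((S.lim_mul_conj hl hw j l).const_mul (c j l)).congr_right fun z _ => ?_
    rw [hce, ← mul_assoc, mul_comm ((-1 : ℂ) ^ ((j : ℤ) + l) * w ^ ((j : ℤ) - l)), ← mul_assoc,
      ← zpow_add₀ (by norm_num : (-1 : ℂ) ≠ 0)]
    rw [(Even.neg_one_zpow ⟨(j : ℤ) + l, rfl⟩ : (-1 : ℂ) ^ ((j : ℤ) + l + ((j : ℤ) + l)) = 1)]
    ring
  have s1 : ∀ j ∈ Finset.range N, ∀ l ∈ Finset.range N,
      SmoothSeq U (fun n z => c j l * (E h a φ j n z * (starRingEnd ℂ) (E h a φ l n z))) :=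
    fun j _ l _ => ((S.tame_E j).smooth.mul (S.tame_E l).smooth.conj).const_mul _
  have l1 : ∀ j ∈ Finset.range N, ∀ l ∈ Finset.range N,
      LocL2 U (fun z => u ((j : ℤ) - l) z * w ^ ((j : ℤ) - l)) := by
    intro j _ l _ K hK hKU
    exact ((hl ((j : ℤ) - l)).const_mul (w ^ ((j : ℤ) - l)) K hK hKU).ae_eq
      (Filter.Eventually.of_forall fun z => mul_comm _ _)
  have h2 : WLim U (fun n z => ∑ j ∈ Finset.range N, ∑ l ∈ Finset.range N,
      c j l * (E h a φ j n z * (starRingEnd ℂ) (E h a φ l n z)))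
      (fun z => ∑ j ∈ Finset.range N, ∑ l ∈ Finset.range N,
        u ((j : ℤ) - l) z * w ^ ((j : ℤ) - l)) := by
    refine WLim.sum _ (fun j hj => WLim.sum _ (fun l hl' => h1 j hj l hl') (fun l hl' => s1 j hj l hl')
      (fun l hl' => l1 j hj l hl')) (fun j hj n => ContDiffOn.sum fun l hl' => s1 j hj l hl' n)
      (fun j hj => LocL2.sum _ fun l hl' => l1 j hj l hl')
  refine h2.nonneg S.op (LocL2.sum _ fun j hj => LocL2.sum _ fun l hl' => l1 j hj l hl')
    (fun n z _ => ?_) (fun n => ContDiffOn.sum fun j hj => ContDiffOn.sum fun l hl' => s1 j hj l hl' n)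
  have e : ∑ j ∈ Finset.range N, ∑ l ∈ Finset.range N,
      c j l * (E h a φ j n z * (starRingEnd ℂ) (E h a φ l n z))
      = ((Complex.normSq (∑ j ∈ Finset.range N, (-1) ^ (j : ℤ) * w ^ (j : ℤ) * E h a φ j n z) : ℝ)
        : ℂ) := by
    rw [← Complex.mul_conj, map_sum, Finset.sum_mul_sum]
    refine Finset.sum_congr rfl fun j _ => Finset.sum_congr rfl fun l _ => ?_
    rw [hc]
    simp only [map_mul]
    ring
  rw [e, Complex.ofReal_re]
  exact Complex.normSq_nonneg _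

theorem lim_bound (k : ℤ) : ∀ᵐ z ∂((volume : Measure ℂ).restrict U), ‖u k z‖ ≤ (u 0 z).re := by
  -- for each unimodular `c`, `re (c u_k) ≤ re u_0`
  have key : ∀ c : ℂ, ‖c‖ = 1 → ∀ᵐ z ∂((volume : Measure ℂ).restrict U),
      (c * u k z).re ≤ (u 0 z).re := by
    intro c hc
    have t1 := S.lim_mul_conj hl hw 0 0
    have t2 := S.lim_mul_conj hl hw k k
    have t3 := (S.lim_zero hl hw k).const_mul (-2 * c)
    have s1 : SmoothSeq U (fun n z => E h a φ 0 n z * (starRingEnd ℂ) (E h a φ 0 n z)) :=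
      (S.tame_E 0).smooth.mul (S.tame_E 0).smooth.conj
    have s2 : SmoothSeq U (fun n z => E h a φ k n z * (starRingEnd ℂ) (E h a φ k n z)) :=
      (S.tame_E k).smooth.mul (S.tame_E k).smooth.conj
    have s3 : SmoothSeq U (fun n z => -2 * c * (E h a φ 0 n z * E h a φ k n z)) :=
      (S.smooth_EE 0 k).const_mul _
    have l1 : LocL2 U (fun z => (-1) ^ ((0 : ℤ) + 0) * u (0 - 0) z) := (hl _).const_mul _
    have l2 : LocL2 U (fun z => (-1) ^ (k + k) * u (k - k) z) := (hl _).const_mul _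
    have l3 : LocL2 U (fun z => -2 * c * u k z) := (hl k).const_mul _
    have t4 := (t1.add t2 s1 s2 l1 l2).add t3 (s1.add s2) s3 (l1.add l2) l3
    have h1 := t4.nonneg S.op ((l1.add l2).add l3) (fun n z hz => by
      have hr : (starRingEnd ℂ) (E h a φ 0 n z) = E h a φ 0 n z := S.real n z hz
      have e1 : (E h a φ 0 n z * (starRingEnd ℂ) (E h a φ 0 n z)).re = ‖E h a φ 0 n z‖ ^ 2 := by
        rw [Complex.mul_conj, Complex.ofReal_re, Complex.normSq_eq_norm_sq]
      have e2 : (E h a φ k n z * (starRingEnd ℂ) (E h a φ k n z)).re = ‖E h a φ k n z‖ ^ 2 := by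
        rw [Complex.mul_conj, Complex.ofReal_re, Complex.normSq_eq_norm_sq]
      have e3 : (-2 * c * (E h a φ 0 n z * E h a φ k n z)).re
          ≥ -(2 * (‖E h a φ 0 n z‖ * ‖E h a φ k n z‖)) := by
        have h5 := Complex.abs_re_le_norm (-2 * c * (E h a φ 0 n z * E h a φ k n z))
        rw [norm_mul, norm_mul, norm_mul, hc] at h5
        have h6 := (abs_le.1 h5).1
        have : ‖(-2 : ℂ)‖ = 2 := by rw [norm_neg]; norm_num
        rw [this] at h6
        linarith
      rw [Complex.add_re, Complex.add_re, e1, e2]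
      nlinarith [sq_nonneg (‖E h a φ 0 n z‖ - ‖E h a φ k n z‖)]) ((s1.add s2).add s3)
    filter_upwards [h1] with z hz
    rw [add_zero, sub_zero, zpow_zero, one_mul, sub_self,
      (Even.neg_one_zpow ⟨k, rfl⟩ : (-1 : ℂ) ^ (k + k) = 1), one_mul, Complex.add_re,
      Complex.add_re] at hz
    have e : (-2 * c * u k z).re = -2 * (c * u k z).re := by
      rw [mul_assoc, show (-2 : ℂ) = ((-2 : ℝ) : ℂ) by norm_num, Complex.re_ofReal_mul]
    rw [e] at hz
    linarith
  -- countable dense set of unimodular numbers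
  obtain ⟨s, hsc, hsd⟩ := TopologicalSpace.exists_countable_dense (Metric.sphere (0 : ℂ) 1)
  have h2 : ∀ᵐ z ∂((volume : Measure ℂ).restrict U), ∀ c ∈ s,
      ((c : ℂ) * u k z).re ≤ (u 0 z).re := by
    rw [ae_ball_iff hsc]
    intro c _
    exact key c (by simpa using c.2)
  filter_upwards [h2] with z hz
  have h3 : ∀ c : Metric.sphere (0 : ℂ) 1, ((c : ℂ) * u k z).re ≤ (u 0 z).re := by
    intro c
    have hcl : IsClosed {c : Metric.sphere (0 : ℂ) 1 | ((c : ℂ) * u k z).re ≤ (u 0 z).re} :=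
      isClosed_le (Complex.continuous_re.comp (continuous_subtype_val.mul continuous_const))
        continuous_const
    exact (hcl.closure_subset_iff.2 (fun c hc => hz c hc)) (hsd c)
  by_cases h0 : u k z = 0
  · have h4 := h3 ⟨1, by simp⟩
    rw [h0] at h4 ⊢
    simpa using h4
  · have hn : (‖u k z‖ : ℂ) ≠ 0 := by
      rw [Complex.ofReal_ne_zero]; exact norm_ne_zero_iff.2 h0
    have h4 := h3 ⟨(starRingEnd ℂ) (u k z) / (‖u k z‖ : ℂ), by
      rw [mem_sphere_zero_iff_norm, norm_div, RCLike.norm_conj, Complex.norm_real, norm_norm,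
        div_self (norm_ne_zero_iff.2 h0)]⟩
    have e : (starRingEnd ℂ) (u k z) / (‖u k z‖ : ℂ) * u k z = (‖u k z‖ : ℂ) := by
      rw [div_mul_eq_mul_div, mul_comm, Complex.mul_conj, Complex.normSq_eq_norm_sq]
      push_cast
      field_simp
    rw [e, Complex.ofReal_re] at h4
    exact h4

end Setup

end

end QE


end

section

/-!
Möbius transformations of the upper half plane, their phases, and directions: the function `dirG` on
`SL(2, ℝ)`, in terms of points and frames, and along the geodesic flow.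
-/

open MeasureTheory Filter Topology
open UpperHalfPlane hiding I
open scoped ContDiff MatrixGroups

namespace QE

noncomputable section

/-! ### Möbius transformations -/

theorem isOpen_UH : IsOpen UH := isOpen_lt continuous_const Complex.continuous_im

theorem coe_mem_UH (z : ℍ) : (z : ℂ) ∈ UH := z.im_pos

theorem ofComplex_coe_eq {z : ℂ} (hz : z ∈ UH) : ((ofComplex z : ℍ) : ℂ) = z := by
  rw [ofComplex_apply_of_im_pos hz]

theorem den_ne_zero (γ : SL(2, ℝ)) {z : ℂ} (hz : z ∈ UH) : den γ z ≠ 0 := by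
  intro h
  have hz' : 0 < z.im := hz
  unfold den at h
  have h1 := congrArg Complex.re h
  have h2 := congrArg Complex.im h
  simp at h1 h2
  have hd := γ.det_coe
  rw [Matrix.det_fin_two] at hd
  rcases h2 with h2 | h2
  · rw [h2] at h1 hd
    have h3 : γ 1 1 = 0 := by linarith
    rw [h3] at hd
    norm_num at hd
  · exact hz'.ne' h2

theorem mob_coe (γ : SL(2, ℝ)) (z : ℍ) : mob γ (z : ℂ) = ((γ • z : ℍ) : ℂ) := by
  unfold mob; rw [ofComplex_apply]

theorem mob_mem (γ : SL(2, ℝ)) (z : ℂ) : mob γ z ∈ UH := coe_mem_UH _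

theorem mob_eq (γ : SL(2, ℝ)) {z : ℂ} (hz : z ∈ UH) :
    mob γ z = (((γ 0 0 : ℝ) : ℂ) * z + ((γ 0 1 : ℝ) : ℂ)) / den γ z := by
  unfold mob den
  rw [coe_specialLinearGroup_apply, ofComplex_coe_eq hz]
  simp

theorem ofComplex_mob (γ : SL(2, ℝ)) (z : ℂ) : ofComplex (mob γ z) = γ • ofComplex z := by
  unfold mob; rw [ofComplex_apply]

theorem mob_mul (γ γ' : SL(2, ℝ)) (z : ℂ) : mob (γ * γ') z = mob γ (mob γ' z) := by
  show (((γ * γ') • ofComplex z : ℍ) : ℂ) = ((γ • ofComplex (mob γ' z) : ℍ) : ℂ)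
  rw [ofComplex_mob, mul_smul]

theorem mob_one {z : ℂ} (hz : z ∈ UH) : mob 1 z = z := by
  unfold mob; rw [one_smul, ofComplex_coe_eq hz]

theorem mob_inv_mob (γ : SL(2, ℝ)) {z : ℂ} (hz : z ∈ UH) : mob γ⁻¹ (mob γ z) = z := by
  rw [← mob_mul, inv_mul_cancel, mob_one hz]

theorem mob_mob_inv (γ : SL(2, ℝ)) {z : ℂ} (hz : z ∈ UH) : mob γ (mob γ⁻¹ z) = z := by
  rw [← mob_mul, mul_inv_cancel, mob_one hz]

theorem mob_injOn (γ : SL(2, ℝ)) : Set.InjOn (mob γ) UH := fun z hz w hw h => by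
  rw [← mob_inv_mob γ hz, h, mob_inv_mob γ hw]

theorem mob_image (γ : SL(2, ℝ)) : mob γ '' UH = UH := by
  ext z
  constructor
  · rintro ⟨w, -, rfl⟩; exact mob_mem γ w
  · intro hz; exact ⟨mob γ⁻¹ z, mob_mem _ _, mob_mob_inv γ hz⟩

theorem den_mul (γ γ' : SL(2, ℝ)) {z : ℂ} (hz : z ∈ UH) :
    den (γ * γ') z = den γ (mob γ' z) * den γ' z := by
  have h0 := den_ne_zero γ' hz
  have h1 : mob γ' z * den γ' z = ((γ' 0 0 : ℝ) : ℂ) * z + ((γ' 0 1 : ℝ) : ℂ) := by
    rw [mob_eq γ' hz, div_mul_cancel₀ _ h0]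
  have h2 : den γ (mob γ' z) * den γ' z
      = ((γ 1 0 : ℝ) : ℂ) * (mob γ' z * den γ' z) + ((γ 1 1 : ℝ) : ℂ) * den γ' z := by
    unfold den; ring
  rw [h2, h1]
  unfold den
  have e0 : (γ * γ') 1 0 = γ 1 0 * γ' 0 0 + γ 1 1 * γ' 1 0 := by
    show ((γ * γ' : SL(2, ℝ)) : Matrix (Fin 2) (Fin 2) ℝ) 1 0 = _
    rw [Matrix.SpecialLinearGroup.coe_mul, Matrix.mul_apply, Fin.sum_univ_two]
  have e1 : (γ * γ') 1 1 = γ 1 0 * γ' 0 1 + γ 1 1 * γ' 1 1 := by
    show ((γ * γ' : SL(2, ℝ)) : Matrix (Fin 2) (Fin 2) ℝ) 1 1 = _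
    rw [Matrix.SpecialLinearGroup.coe_mul, Matrix.mul_apply, Fin.sum_univ_two]
  rw [e0, e1]
  push_cast
  ring

theorem den_one (z : ℂ) : den 1 z = 1 := by
  unfold den; simp

theorem den_neg (γ : SL(2, ℝ)) (z : ℂ) : den (-γ) z = -den γ z := by
  unfold den
  have e0 : (-γ) 1 0 = -(γ 1 0) := by simp
  have e1 : (-γ) 1 1 = -(γ 1 1) := by simp
  rw [e0, e1]; push_cast; ring

theorem neg_smul_eq (γ : SL(2, ℝ)) (z : ℍ) : (-γ) • z = γ • z := by
  apply UpperHalfPlane.ext
  rw [coe_specialLinearGroup_apply, coe_specialLinearGroup_apply]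
  have h : ∀ i j, (-γ) i j = -(γ i j) := fun i j => by simp
  simp only [h, map_neg, Complex.ofReal_neg]
  rw [← neg_div_neg_eq]
  congr 1 <;> ring

theorem mob_neg (γ : SL(2, ℝ)) (z : ℂ) : mob (-γ) z = mob γ z := by
  unfold mob; rw [neg_smul_eq]

theorem mob_im (γ : SL(2, ℝ)) {z : ℂ} (hz : z ∈ UH) : (mob γ z).im = z.im / ‖den γ z‖ ^ 2 := by
  have h0 := den_ne_zero γ hz
  rw [mob_eq γ hz, ← Complex.normSq_eq_norm_sq, Complex.div_im]
  have hn : Complex.normSq (den γ z) ≠ 0 := by rwa [Ne, Complex.normSq_eq_zero]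
  have hd := γ.det_coe
  rw [Matrix.det_fin_two] at hd
  rw [← sub_div]
  congr 1
  unfold den
  simp
  linear_combination z.im * hd

theorem hasDerivAt_mob (γ : SL(2, ℝ)) {z : ℂ} (hz : z ∈ UH) :
    HasDerivAt (mob γ) (1 / (den γ z) ^ 2) z := by
  have h0 := den_ne_zero γ hz
  have hn : HasDerivAt (fun w : ℂ => ((γ 0 0 : ℝ) : ℂ) * w + ((γ 0 1 : ℝ) : ℂ)) ((γ 0 0 : ℝ) : ℂ) z := by
    simpa using ((hasDerivAt_id z).const_mul ((γ 0 0 : ℝ) : ℂ)).add_const ((γ 0 1 : ℝ) : ℂ)
  have hde : HasDerivAt (den γ) ((γ 1 0 : ℝ) : ℂ) z := by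
    have : den γ = fun w : ℂ => ((γ 1 0 : ℝ) : ℂ) * w + ((γ 1 1 : ℝ) : ℂ) := rfl
    rw [this]
    simpa using ((hasDerivAt_id z).const_mul ((γ 1 0 : ℝ) : ℂ)).add_const ((γ 1 1 : ℝ) : ℂ)
  have hq := hn.div hde h0
  have he : mob γ =ᶠ[𝓝 z] (fun w : ℂ => ((γ 0 0 : ℝ) : ℂ) * w + ((γ 0 1 : ℝ) : ℂ)) / den γ :=
    Filter.eventuallyEq_of_mem (isOpen_UH.mem_nhds hz) fun w hw => mob_eq γ hw
  refine (hq.congr_of_eventuallyEq he).congr_deriv ?_
  have hd := γ.det_coe
  rw [Matrix.det_fin_two] at hd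
  have hd' : ((γ 0 0 : ℝ) : ℂ) * ((γ 1 1 : ℝ) : ℂ) - ((γ 0 1 : ℝ) : ℂ) * ((γ 1 0 : ℝ) : ℂ) = 1 := by
    exact_mod_cast congrArg (fun x : ℝ => (x : ℂ)) hd
  congr 1
  unfold den
  linear_combination hd'

theorem contDiff_den (γ : SL(2, ℝ)) : ContDiff ℝ ∞ (den γ) := by
  unfold den; fun_prop

theorem contDiffOn_mob (γ : SL(2, ℝ)) : ContDiffOn ℝ ∞ (mob γ) UH := by
  have h : ContDiffOn ℝ ∞
      (fun z : ℂ => (((γ 0 0 : ℝ) : ℂ) * z + ((γ 0 1 : ℝ) : ℂ)) * (den γ z)⁻¹) UH := by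
    refine ContDiffOn.mul ?_ ((contDiff_den γ).contDiffOn.inv fun z hz => den_ne_zero γ hz)
    fun_prop
  exact h.congr fun z hz => by rw [mob_eq γ hz, div_eq_mul_inv]

theorem continuousOn_mob (γ : SL(2, ℝ)) : ContinuousOn (mob γ) UH := (contDiffOn_mob γ).continuousOn

theorem fderiv_mob (γ : SL(2, ℝ)) {z : ℂ} (hz : z ∈ UH) (v : ℂ) :
    fderiv ℝ (mob γ) z v = 1 / (den γ z) ^ 2 * v := by
  have h := ((hasDerivAt_mob γ hz).hasFDerivAt.restrictScalars ℝ).fderiv
  rw [h]
  simp [mul_comm]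

theorem differentiableAt_mob (γ : SL(2, ℝ)) {z : ℂ} (hz : z ∈ UH) :
    DifferentiableAt ℝ (mob γ) z :=
  ((hasDerivAt_mob γ hz).hasFDerivAt.restrictScalars ℝ).differentiableAt

theorem fderiv_real_apply (f : ℂ → ℂ) (z v : ℂ) :
    fderiv ℝ f z v = v * dz f z + (starRingEnd ℂ) v * dzb f z := by
  have h1 : v = (v.re : ℝ) • (1 : ℂ) + (v.im : ℝ) • Complex.I := by
    simp
  have h2 : fderiv ℝ f z v = (v.re : ℝ) • fderiv ℝ f z 1 + (v.im : ℝ) • fderiv ℝ f z Complex.I := by
    conv_lhs => rw [h1]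
    rw [map_add, map_smul, map_smul]
  rw [h2]
  unfold dz dzb
  have hv : v = (v.re : ℂ) + (v.im : ℂ) * Complex.I := (Complex.re_add_im v).symm
  have hv' : (starRingEnd ℂ) v = (v.re : ℂ) - (v.im : ℂ) * Complex.I := by
    apply Complex.ext <;> simp
  rw [hv']
  conv_rhs => rw [show v = (v.re : ℂ) + (v.im : ℂ) * Complex.I from hv]
  simp only [Complex.add_re, Complex.add_im, Complex.mul_re, Complex.mul_im, Complex.ofReal_re,
    Complex.ofReal_im, Complex.I_re, Complex.I_im, mul_zero, mul_one, sub_zero, add_zero, zero_add,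
    Complex.real_smul]
  have hI := Complex.I_mul_I
  linear_combination ((v.im : ℂ) * fderiv ℝ f z Complex.I) * hI

/-- the chain rule for `∂` -/
theorem dz_comp_mob (γ : SL(2, ℝ)) {f : ℂ → ℂ} {z : ℂ} (hz : z ∈ UH)
    (hf : DifferentiableAt ℝ f (mob γ z)) :
    dz (fun w => f (mob γ w)) z = 1 / (den γ z) ^ 2 * dz f (mob γ z) := by
  have hc : ∀ v, fderiv ℝ (fun w => f (mob γ w)) z v
      = fderiv ℝ f (mob γ z) (1 / (den γ z) ^ 2 * v) := by
    intro v
    have := fderiv_comp z hf (differentiableAt_mob γ hz)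
    have e : (fun w => f (mob γ w)) = f ∘ mob γ := rfl
    rw [e, this, ContinuousLinearMap.comp_apply, fderiv_mob γ hz]
  unfold dz
  rw [hc, hc, fderiv_real_apply, fderiv_real_apply]
  simp only [map_mul, Complex.conj_I, mul_one]
  have hI := Complex.I_mul_I
  unfold dz dzb
  linear_combination (-(1 / 2) * (1 / den γ z ^ 2)
    * ((1 / 2) * (fderiv ℝ f (mob γ z) 1 - Complex.I * fderiv ℝ f (mob γ z) Complex.I))
    + (1 / 2) * (starRingEnd ℂ) (1 / den γ z ^ 2)
    * ((1 / 2) * (fderiv ℝ f (mob γ z) 1 + Complex.I * fderiv ℝ f (mob γ z) Complex.I))) * hI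

/-- the chain rule for `∂̄` -/
theorem dzb_comp_mob (γ : SL(2, ℝ)) {f : ℂ → ℂ} {z : ℂ} (hz : z ∈ UH)
    (hf : DifferentiableAt ℝ f (mob γ z)) :
    dzb (fun w => f (mob γ w)) z = (starRingEnd ℂ) (1 / (den γ z) ^ 2) * dzb f (mob γ z) := by
  have hc : ∀ v, fderiv ℝ (fun w => f (mob γ w)) z v
      = fderiv ℝ f (mob γ z) (1 / (den γ z) ^ 2 * v) := by
    intro v
    have := fderiv_comp z hf (differentiableAt_mob γ hz)
    have e : (fun w => f (mob γ w)) = f ∘ mob γ := rfl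
    rw [e, this, ContinuousLinearMap.comp_apply, fderiv_mob γ hz]
  unfold dzb
  rw [hc, hc, fderiv_real_apply, fderiv_real_apply]
  simp only [map_mul, Complex.conj_I, mul_one]
  have hI := Complex.I_mul_I
  unfold dz dzb
  linear_combination ((1 / 2) * (1 / den γ z ^ 2)
    * ((1 / 2) * (fderiv ℝ f (mob γ z) 1 - Complex.I * fderiv ℝ f (mob γ z) Complex.I))
    - (1 / 2) * (starRingEnd ℂ) (1 / den γ z ^ 2)
    * ((1 / 2) * (fderiv ℝ f (mob γ z) 1 + Complex.I * fderiv ℝ f (mob γ z) Complex.I))) * hI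

/-! ### Phases -/

theorem phase_eq_div (γ : SL(2, ℝ)) {z : ℂ} (hz : z ∈ UH) :
    phase γ z = (starRingEnd ℂ) (den γ z) / den γ z := by
  have h0 := den_ne_zero γ hz
  unfold phase
  rw [div_pow, ← Complex.mul_conj']
  have h1 : (starRingEnd ℂ) (den γ z) ≠ 0 := by rwa [Ne, map_eq_zero]
  field_simp

/-- the derivative is the phase times its absolute value -/
theorem deriv_eq_phase (γ : SL(2, ℝ)) {z : ℂ} (hz : z ∈ UH) :
    1 / (den γ z) ^ 2 = phase γ z / (‖den γ z‖ : ℂ) ^ 2 := by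
  have h0 := den_ne_zero γ hz
  have h1 : (starRingEnd ℂ) (den γ z) ≠ 0 := by rwa [Ne, map_eq_zero]
  rw [phase_eq_div γ hz, ← Complex.mul_conj']
  field_simp

/-- `y` at the image is `y` times the absolute value of the derivative -/
theorem mob_im_coe (γ : SL(2, ℝ)) {z : ℂ} (hz : z ∈ UH) :
    ((mob γ z).im : ℂ) = (z.im : ℂ) / (‖den γ z‖ : ℂ) ^ 2 := by
  rw [mob_im γ hz]; push_cast; rfl

theorem norm_phase (γ : SL(2, ℝ)) {z : ℂ} (hz : z ∈ UH) : ‖phase γ z‖ = 1 := by
  have h0 : ‖den γ z‖ ≠ 0 := norm_ne_zero_iff.2 (den_ne_zero γ hz)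
  rw [phase_eq_div γ hz, norm_div, Complex.norm_conj, div_self h0]

theorem phase_ne_zero (γ : SL(2, ℝ)) {z : ℂ} (hz : z ∈ UH) : phase γ z ≠ 0 := by
  intro h
  have := norm_phase γ hz
  rw [h, norm_zero] at this
  exact zero_ne_one this

/-- the cocycle relation -/
theorem phase_mul (γ γ' : SL(2, ℝ)) {z : ℂ} (hz : z ∈ UH) :
    phase (γ * γ') z = phase γ (mob γ' z) * phase γ' z := by
  rw [phase_eq_div _ hz, phase_eq_div _ hz, phase_eq_div _ (mob_mem _ _), den_mul γ γ' hz, map_mul,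
    mul_div_mul_comm]

theorem phase_one (z : ℂ) : phase 1 z = 1 := by
  unfold phase; rw [den_one]; simp

theorem phase_neg (γ : SL(2, ℝ)) (z : ℂ) : phase (-γ) z = phase γ z := by
  unfold phase; rw [den_neg, map_neg, norm_neg, neg_div, neg_sq]

theorem phase_inv (γ : SL(2, ℝ)) {z : ℂ} (hz : z ∈ UH) :
    phase γ⁻¹ (mob γ z) = (phase γ z)⁻¹ := by
  have h := phase_mul γ⁻¹ γ hz
  rw [inv_mul_cancel, phase_one] at h
  exact eq_inv_of_mul_eq_one_left h.symm

theorem conj_phase (γ : SL(2, ℝ)) {z : ℂ} (hz : z ∈ UH) :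
    (starRingEnd ℂ) (phase γ z) = (phase γ z)⁻¹ := by
  rw [phase_eq_div γ hz, map_div₀, Complex.conj_conj, inv_div]

theorem contDiffOn_phase (γ : SL(2, ℝ)) : ContDiffOn ℝ ∞ (phase γ) UH := by
  have h : ContDiffOn ℝ ∞ (fun z : ℂ => (starRingEnd ℂ) (den γ z) * (den γ z)⁻¹) UH := by
    refine ContDiffOn.mul ?_ ((contDiff_den γ).contDiffOn.inv fun z hz => den_ne_zero γ hz)
    exact (Complex.conjCLE.contDiff.comp (contDiff_den γ)).contDiffOn
  exact h.congr fun z hz => by rw [phase_eq_div γ hz, div_eq_mul_inv]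

theorem continuousOn_phase (γ : SL(2, ℝ)) : ContinuousOn (phase γ) UH :=
  (contDiffOn_phase γ).continuousOn

/-- if the lower row is `(0, d)` with `d ≠ 0`, the phase is one -/
theorem phase_of_row {γ : SL(2, ℝ)} (h : γ 1 0 = 0) {z : ℂ} (hz : z ∈ UH) : phase γ z = 1 := by
  have h0 := den_ne_zero γ hz
  rw [phase_eq_div γ hz]
  have e : den γ z = ((γ 1 1 : ℝ) : ℂ) := by unfold den; rw [h]; simp
  rw [e] at h0 ⊢
  rw [Complex.conj_ofReal, div_self h0]

/-! ### Directions -/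

theorem I_mem_UH : Complex.I ∈ UH := by
  show (0 : ℝ) < Complex.I.im
  simp

theorem mob_I (g : SL(2, ℝ)) : mob g Complex.I = ((g • (UpperHalfPlane.I : ℍ) : ℍ) : ℂ) := by
  rw [← UpperHalfPlane.coe_I, mob_coe]

theorem norm_dirG (g : SL(2, ℝ)) : ‖dirG g‖ = 1 := by
  unfold dirG; rw [norm_mul, Complex.norm_I, one_mul, norm_phase g I_mem_UH]

theorem dirG_ne_zero (g : SL(2, ℝ)) : dirG g ≠ 0 := by
  intro h
  have := norm_dirG g
  rw [h, norm_zero] at this
  exact zero_ne_one this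

theorem conj_dirG (g : SL(2, ℝ)) : (starRingEnd ℂ) (dirG g) = (dirG g)⁻¹ := by
  rw [Complex.inv_def, Complex.normSq_eq_norm_sq, norm_dirG]; simp

theorem continuous_den_I : Continuous fun g : SL(2, ℝ) => den g Complex.I := by
  unfold den
  have h : ∀ i j, Continuous fun g : SL(2, ℝ) => (g i j : ℝ) := fun i j =>
    (continuous_apply_apply i j).comp (Matrix.SpecialLinearGroup.isClosedEmbedding_val.continuous)
  exact ((Complex.continuous_ofReal.comp (h 1 0)).mul continuous_const).add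
    (Complex.continuous_ofReal.comp (h 1 1))

theorem continuous_dirG : Continuous dirG := by
  have h : dirG = fun g => Complex.I * ((starRingEnd ℂ) (den g Complex.I) / den g Complex.I) := by
    funext g; unfold dirG; rw [phase_eq_div g I_mem_UH]
  rw [h]
  refine continuous_const.mul ((Complex.continuous_conj.comp continuous_den_I).div
    continuous_den_I fun g => den_ne_zero g I_mem_UH)

/-- left multiplication -/
theorem dirG_mul (γ g : SL(2, ℝ)) :
    dirG (γ * g) = phase γ ((g • (UpperHalfPlane.I : ℍ) : ℍ) : ℂ) * dirG g := by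
  unfold dirG; rw [phase_mul γ g I_mem_UH, mob_I]; ring

theorem dirG_neg (g : SL(2, ℝ)) : dirG (-g) = dirG g := by
  unfold dirG; rw [phase_neg]

theorem den_rot (θ : ℝ) : den (Berry.rot θ) Complex.I = Complex.exp (Complex.I * θ) := by
  unfold den Berry.rot
  rw [mul_comm Complex.I (θ : ℂ), Complex.exp_mul_I, ← Complex.ofReal_cos, ← Complex.ofReal_sin]
  simp
  ring

theorem phase_rot (θ : ℝ) : phase (Berry.rot θ) Complex.I = Complex.exp (-2 * Complex.I * θ) := by
  rw [phase_eq_div _ I_mem_UH, den_rot, ← Complex.exp_conj, ← Complex.exp_sub]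
  congr 1
  simp
  ring

/-- right multiplication by a rotation -/
theorem dirG_mul_rot (g : SL(2, ℝ)) (θ : ℝ) :
    dirG (g * Berry.rot θ) = dirG g * Complex.exp (-2 * Complex.I * θ) := by
  rw [dirG_mul, Berry.rot_smul_I, coe_I]
  unfold dirG; rw [phase_rot]; ring

theorem dirG_one : dirG 1 = Complex.I := by
  unfold dirG; rw [phase_one, mul_one]

theorem dirG_rot (θ : ℝ) : dirG (Berry.rot θ) = Complex.I * Complex.exp (-2 * Complex.I * θ) := by
  unfold dirG; rw [phase_rot]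

theorem toSL2R_row (z : ℍ) : (z.toSL2R : SL(2, ℝ)) 1 0 = 0 := by
  show ((z.toSL2R : SL(2, ℝ)) : Matrix (Fin 2) (Fin 2) ℝ) 1 0 = 0
  rw [coe_toSL2R]; simp

theorem phase_toSL2R (z : ℍ) {w : ℂ} (hw : w ∈ UH) : phase z.toSL2R w = 1 :=
  phase_of_row (toSL2R_row z) hw

theorem dirG_frame (p : ℍ × ℝ) :
    dirG (Berry.frame p) = Complex.I * Complex.exp (-2 * Complex.I * p.2) := by
  unfold Berry.frame
  rw [dirG_mul, phase_toSL2R _ (coe_mem_UH _), one_mul, dirG_rot]

/-- every element is given by its point and an angle -/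
theorem exists_frame (g : SL(2, ℝ)) : ∃ θ, g = Berry.frame (g • (UpperHalfPlane.I : ℍ), θ) := by
  have h : ((g • (UpperHalfPlane.I : ℍ)).toSL2R⁻¹ * g) • (UpperHalfPlane.I : ℍ)
      = UpperHalfPlane.I := by
    rw [mul_smul, inv_smul_eq_iff, toSL2R_smul_I]
  obtain ⟨θ, hθ⟩ := Berry.stab_I h
  refine ⟨θ, ?_⟩
  unfold Berry.frame
  rw [← hθ]; group

theorem rot_int_pi (n : ℤ) : Berry.rot (n * Real.pi) = 1 ∨ Berry.rot (n * Real.pi) = -1 := by
  rcases Int.even_or_odd' n with ⟨k, hk | hk⟩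
  · left
    apply Subtype.ext
    have h1 : Real.cos (n * Real.pi) = 1 := by
      rw [hk]; push_cast
      rw [show (2 * (k : ℝ)) * Real.pi = k * (2 * Real.pi) by ring, Real.cos_int_mul_two_pi]
    have h2 : Real.sin (n * Real.pi) = 0 := Real.sin_int_mul_pi n
    simp only [Berry.rot]
    rw [h1, h2]
    ext i j
    fin_cases i <;> fin_cases j <;> simp
  · right
    apply Subtype.ext
    have h1 : Real.cos (n * Real.pi) = -1 := by
      rw [hk]; push_cast
      rw [show (2 * (k : ℝ) + 1) * Real.pi = k * (2 * Real.pi) + Real.pi by ring,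
        Real.cos_add_pi, Real.cos_int_mul_two_pi]
    have h2 : Real.sin (n * Real.pi) = 0 := Real.sin_int_mul_pi n
    simp only [Berry.rot]
    rw [h1, h2]
    ext i j
    fin_cases i <;> fin_cases j <;> simp

/-- the point and the direction determine the element up to its sign -/
theorem eq_or_eq_neg {g g' : SL(2, ℝ)}
    (h1 : g • (UpperHalfPlane.I : ℍ) = g' • (UpperHalfPlane.I : ℍ)) (h2 : dirG g = dirG g') :
    g' = g ∨ g' = -g := by
  have h : (g⁻¹ * g') • (UpperHalfPlane.I : ℍ) = UpperHalfPlane.I := by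
    rw [mul_smul, ← h1, inv_smul_smul]
  obtain ⟨α, hα⟩ := Berry.stab_I h
  have hg : g' = g * Berry.rot α := by rw [← hα]; group
  rw [hg, dirG_mul_rot] at h2
  have h3 : Complex.exp (-2 * Complex.I * α) = 1 :=
    mul_left_cancel₀ (dirG_ne_zero g) (by rw [mul_one]; exact h2.symm)
  rw [Complex.exp_eq_one_iff] at h3
  obtain ⟨n, hn⟩ := h3
  have h4 : (α : ℂ) = ((-n : ℤ) : ℂ) * (Real.pi : ℂ) := by
    have hI : Complex.I ≠ 0 := Complex.I_ne_zero
    have : (-2 * Complex.I) * (α : ℂ) = (-2 * Complex.I) * (((-n : ℤ) : ℂ) * (Real.pi : ℂ)) := by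
      rw [hn]; push_cast; ring
    exact mul_left_cancel₀ (by simp) this
  have h5 : α = ((-n : ℤ) : ℝ) * Real.pi := by exact_mod_cast h4
  rw [h5] at hg
  rcases rot_int_pi (-n) with h | h
  · left; rw [hg, h, mul_one]
  · right; rw [hg, h]; simp

/-! ### The geodesic flow -/

theorem aS_zero : aS 0 = 1 := by
  apply Subtype.ext
  simp only [aS]
  ext i j
  fin_cases i <;> fin_cases j <;> simp

theorem aS_add (s t : ℝ) : aS (s + t) = aS s * aS t := by
  apply Subtype.ext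
  show _ = (aS s).1 * (aS t).1
  simp only [aS, Matrix.mul_fin_two]
  have e1 : Real.exp ((s + t) / 2) = Real.exp (s / 2) * Real.exp (t / 2) := by
    rw [← Real.exp_add]; congr 1; ring
  have e2 : Real.exp (-((s + t) / 2)) = Real.exp (-(s / 2)) * Real.exp (-(t / 2)) := by
    rw [← Real.exp_add]; congr 1; ring
  rw [e1, e2]
  simp

theorem aS_inv (s : ℝ) : (aS s)⁻¹ = aS (-s) := by
  rw [inv_eq_iff_mul_eq_one, ← aS_add, add_neg_cancel, aS_zero]

theorem continuous_aS : Continuous aS := by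
  apply continuous_induced_rng.mpr
  simp only [Function.comp_def]
  show Continuous fun s : ℝ => !![Real.exp (s / 2), 0; 0, Real.exp (-(s / 2))]
  fun_prop

theorem aS_row (s : ℝ) : (aS s) 1 0 = 0 := by
  show ((aS s : SL(2, ℝ)) : Matrix (Fin 2) (Fin 2) ℝ) 1 0 = 0
  simp [aS]

theorem phase_aS (s : ℝ) {z : ℂ} (hz : z ∈ UH) : phase (aS s) z = 1 := phase_of_row (aS_row s) hz

theorem mob_aS (s : ℝ) {z : ℂ} (hz : z ∈ UH) : mob (aS s) z = (Real.exp s : ℂ) * z := by
  rw [mob_eq _ hz]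
  have e1 : den (aS s) z = (Real.exp (-(s / 2)) : ℂ) := by
    unfold den
    have e : (aS s) 1 1 = Real.exp (-(s / 2)) := by
      show ((aS s : SL(2, ℝ)) : Matrix (Fin 2) (Fin 2) ℝ) 1 1 = _
      simp [aS]
    rw [aS_row, e]; simp
  have e2 : (aS s) 0 0 = Real.exp (s / 2) := by
    show ((aS s : SL(2, ℝ)) : Matrix (Fin 2) (Fin 2) ℝ) 0 0 = _
    simp [aS]
  have e3 : (aS s) 0 1 = 0 := by
    show ((aS s : SL(2, ℝ)) : Matrix (Fin 2) (Fin 2) ℝ) 0 1 = _
    simp [aS]
  have e4 : (Real.exp s : ℂ) * (Real.exp (-(s / 2)) : ℂ) = (Real.exp (s / 2) : ℂ) := by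
    rw [← Complex.ofReal_mul, ← Real.exp_add]; congr 2; ring
  have e5 : (Real.exp (-(s / 2)) : ℂ) ≠ 0 := by
    exact_mod_cast (Real.exp_pos _).ne'
  rw [e1, e2, e3, div_eq_iff e5, ← e4]
  push_cast; ring

theorem dirG_aS (s : ℝ) : dirG (aS s) = Complex.I := by
  unfold dirG; rw [phase_aS s I_mem_UH, mul_one]

theorem aS_smul_I (s : ℝ) :
    ((aS s • (UpperHalfPlane.I : ℍ) : ℍ) : ℂ) = (Real.exp s : ℂ) * Complex.I := by
  rw [← mob_I, mob_aS s I_mem_UH]

/-- the point of `rot θ * a_s` -/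
def wS (s θ : ℝ) : ℂ := (((Berry.rot θ * aS s) • (UpperHalfPlane.I : ℍ) : ℍ) : ℂ)

theorem wS_mem (s θ : ℝ) : wS s θ ∈ UH := coe_mem_UH _

theorem wS_aux (s θ : ℝ) :
    (Real.sin θ : ℂ) * ((Real.exp s : ℂ) * Complex.I) + (Real.cos θ : ℂ) ≠ 0 := by
  have h := den_ne_zero (Berry.rot θ) (coe_mem_UH (aS s • (UpperHalfPlane.I : ℍ)))
  rw [aS_smul_I] at h
  have e2 : (Berry.rot θ) 1 0 = Real.sin θ := by
    show ((Berry.rot θ : SL(2, ℝ)) : Matrix (Fin 2) (Fin 2) ℝ) 1 0 = _
    simp [Berry.rot]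
  have e3 : (Berry.rot θ) 1 1 = Real.cos θ := by
    show ((Berry.rot θ : SL(2, ℝ)) : Matrix (Fin 2) (Fin 2) ℝ) 1 1 = _
    simp [Berry.rot]
  unfold den at h
  rwa [e2, e3] at h

/-- the explicit formula -/
theorem wS_eq (s θ : ℝ) : wS s θ
    = ((Real.cos θ : ℂ) * ((Real.exp s : ℂ) * Complex.I) - (Real.sin θ : ℂ))
      / ((Real.sin θ : ℂ) * ((Real.exp s : ℂ) * Complex.I) + (Real.cos θ : ℂ)) := by
  unfold wS
  rw [mul_smul, ← mob_coe, mob_eq _ (coe_mem_UH _), aS_smul_I]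
  have e0 : (Berry.rot θ) 0 0 = Real.cos θ := by
    show ((Berry.rot θ : SL(2, ℝ)) : Matrix (Fin 2) (Fin 2) ℝ) 0 0 = _
    simp [Berry.rot]
  have e1 : (Berry.rot θ) 0 1 = -Real.sin θ := by
    show ((Berry.rot θ : SL(2, ℝ)) : Matrix (Fin 2) (Fin 2) ℝ) 0 1 = _
    simp [Berry.rot]
  have e2 : (Berry.rot θ) 1 0 = Real.sin θ := by
    show ((Berry.rot θ : SL(2, ℝ)) : Matrix (Fin 2) (Fin 2) ℝ) 1 0 = _
    simp [Berry.rot]
  have e3 : (Berry.rot θ) 1 1 = Real.cos θ := by
    show ((Berry.rot θ : SL(2, ℝ)) : Matrix (Fin 2) (Fin 2) ℝ) 1 1 = _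
    simp [Berry.rot]
  unfold den
  rw [e0, e1, e2, e3]
  push_cast
  ring

/-- the direction of `rot θ * a_s` -/
def dS (s θ : ℝ) : ℂ := dirG (Berry.rot θ * aS s)

theorem dS_eq (s θ : ℝ) : dS s θ
    = Complex.I * ((Real.cos θ : ℂ) - (Real.sin θ : ℂ) * ((Real.exp s : ℂ) * Complex.I))
      / ((Real.sin θ : ℂ) * ((Real.exp s : ℂ) * Complex.I) + (Real.cos θ : ℂ)) := by
  unfold dS
  rw [dirG_mul, dirG_aS, phase_eq_div _ (coe_mem_UH _), aS_smul_I]
  have e2 : (Berry.rot θ) 1 0 = Real.sin θ := by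
    show ((Berry.rot θ : SL(2, ℝ)) : Matrix (Fin 2) (Fin 2) ℝ) 1 0 = _
    simp [Berry.rot]
  have e3 : (Berry.rot θ) 1 1 = Real.cos θ := by
    show ((Berry.rot θ : SL(2, ℝ)) : Matrix (Fin 2) (Fin 2) ℝ) 1 1 = _
    simp [Berry.rot]
  unfold den
  rw [e2, e3]
  simp only [map_add, map_mul, Complex.conj_ofReal, Complex.conj_I]
  ring

theorem norm_dS (s θ : ℝ) : ‖dS s θ‖ = 1 := norm_dirG _

theorem contDiff_wS : ContDiff ℝ ∞ fun p : ℝ × ℝ => wS p.1 p.2 := by
  have h : (fun p : ℝ × ℝ => wS p.1 p.2) = fun p : ℝ × ℝ =>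
      ((Real.cos p.2 : ℂ) * ((Real.exp p.1 : ℂ) * Complex.I) - (Real.sin p.2 : ℂ))
      * ((Real.sin p.2 : ℂ) * ((Real.exp p.1 : ℂ) * Complex.I) + (Real.cos p.2 : ℂ))⁻¹ := by
    funext p; rw [wS_eq p.1 p.2, div_eq_mul_inv]
  rw [h]
  have hc : ContDiff ℝ ∞ fun p : ℝ × ℝ => (Real.cos p.2 : ℂ) :=
    Complex.ofRealCLM.contDiff.comp (Real.contDiff_cos.comp contDiff_snd)
  have hs : ContDiff ℝ ∞ fun p : ℝ × ℝ => (Real.sin p.2 : ℂ) :=
    Complex.ofRealCLM.contDiff.comp (Real.contDiff_sin.comp contDiff_snd)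
  have he : ContDiff ℝ ∞ fun p : ℝ × ℝ => (Real.exp p.1 : ℂ) :=
    Complex.ofRealCLM.contDiff.comp (Real.contDiff_exp.comp contDiff_fst)
  exact ((hc.mul (he.mul contDiff_const)).sub hs).mul
    (((hs.mul (he.mul contDiff_const)).add hc).inv fun p => wS_aux p.1 p.2)

theorem contDiff_dS : ContDiff ℝ ∞ fun p : ℝ × ℝ => dS p.1 p.2 := by
  have h : (fun p : ℝ × ℝ => dS p.1 p.2) = fun p : ℝ × ℝ =>
      Complex.I * ((Real.cos p.2 : ℂ) - (Real.sin p.2 : ℂ) * ((Real.exp p.1 : ℂ) * Complex.I))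
      * ((Real.sin p.2 : ℂ) * ((Real.exp p.1 : ℂ) * Complex.I) + (Real.cos p.2 : ℂ))⁻¹ := by
    funext p; rw [dS_eq p.1 p.2, div_eq_mul_inv]
  rw [h]
  have hc : ContDiff ℝ ∞ fun p : ℝ × ℝ => (Real.cos p.2 : ℂ) :=
    Complex.ofRealCLM.contDiff.comp (Real.contDiff_cos.comp contDiff_snd)
  have hs : ContDiff ℝ ∞ fun p : ℝ × ℝ => (Real.sin p.2 : ℂ) :=
    Complex.ofRealCLM.contDiff.comp (Real.contDiff_sin.comp contDiff_snd)
  have he : ContDiff ℝ ∞ fun p : ℝ × ℝ => (Real.exp p.1 : ℂ) :=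
    Complex.ofRealCLM.contDiff.comp (Real.contDiff_exp.comp contDiff_fst)
  exact (contDiff_const.mul (hc.sub (hs.mul (he.mul contDiff_const)))).mul
    (((hs.mul (he.mul contDiff_const)).add hc).inv fun p => wS_aux p.1 p.2)

theorem toSL2R_smul_coe (z w : ℍ) : ((z.toSL2R • w : ℍ) : ℂ) = (z.re : ℂ) + (z.im : ℂ) * (w : ℂ) := by
  have hs : (Real.sqrt z.im : ℂ) ≠ 0 := by
    exact_mod_cast (Real.sqrt_pos.2 z.im_pos).ne'
  have hsq : (Real.sqrt z.im : ℂ) * (Real.sqrt z.im : ℂ) = (z.im : ℂ) := by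
    rw [← Complex.ofReal_mul, Real.mul_self_sqrt z.im_pos.le]
  rw [← mob_coe, mob_eq _ (coe_mem_UH _)]
  have e0 : (z.toSL2R : SL(2, ℝ)) 0 0 = Real.sqrt z.im := by
    show ((z.toSL2R : SL(2, ℝ)) : Matrix (Fin 2) (Fin 2) ℝ) 0 0 = _
    rw [coe_toSL2R]; simp
  have e1 : (z.toSL2R : SL(2, ℝ)) 0 1 = z.re / Real.sqrt z.im := by
    show ((z.toSL2R : SL(2, ℝ)) : Matrix (Fin 2) (Fin 2) ℝ) 0 1 = _
    rw [coe_toSL2R]; simp
  have e3 : (z.toSL2R : SL(2, ℝ)) 1 1 = 1 / Real.sqrt z.im := by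
    show ((z.toSL2R : SL(2, ℝ)) : Matrix (Fin 2) (Fin 2) ℝ) 1 1 = _
    rw [coe_toSL2R]; simp
  unfold den
  rw [toSL2R_row, e0, e1, e3]
  push_cast
  rw [zero_mul, zero_add, ← hsq]
  field_simp
  ring

/-- the flow in coordinates: the point -/
theorem frame_aS_smul_I (p : ℍ × ℝ) (s : ℝ) :
    (((Berry.frame p * aS s) • (UpperHalfPlane.I : ℍ) : ℍ) : ℂ)
      = (p.1.re : ℂ) + (p.1.im : ℂ) * wS s p.2 := by
  unfold Berry.frame wS
  rw [mul_assoc, mul_smul, toSL2R_smul_coe]

/-- the flow in coordinates: the direction -/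
theorem dirG_frame_aS (p : ℍ × ℝ) (s : ℝ) : dirG (Berry.frame p * aS s) = dS s p.2 := by
  unfold Berry.frame dS
  rw [mul_assoc, dirG_mul, phase_toSL2R _ (coe_mem_UH _), one_mul]

theorem wS_zero (θ : ℝ) : wS 0 θ = Complex.I := by
  unfold wS; rw [aS_zero, mul_one, Berry.rot_smul_I, coe_I]

theorem dS_zero (θ : ℝ) : dS 0 θ = Complex.I * Complex.exp (-2 * Complex.I * θ) := by
  unfold dS; rw [aS_zero, mul_one, dirG_rot]

theorem dS_ne_zero (s θ : ℝ) : dS s θ ≠ 0 := dirG_ne_zero _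

/-- the speed of the flow at time zero, in the coordinates of `rot θ` -/
theorem hasDerivAt_wS (s θ : ℝ) :
    HasDerivAt (fun s => wS s θ) (((wS s θ).im : ℂ) * dS s θ) s := by
  set N : ℂ := (Real.sin θ : ℂ) * ((Real.exp s : ℂ) * Complex.I) + (Real.cos θ : ℂ) with hN
  have hN0 : N ≠ 0 := wS_aux s θ
  have he : HasDerivAt (fun s : ℝ => ((Real.exp s : ℝ) : ℂ)) (Real.exp s : ℂ) s :=
    (Real.hasDerivAt_exp s).ofReal_comp
  have h1 : HasDerivAt (fun s : ℝ => (Real.cos θ : ℂ) * ((Real.exp s : ℂ) * Complex.I)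
      - (Real.sin θ : ℂ)) ((Real.cos θ : ℂ) * ((Real.exp s : ℂ) * Complex.I)) s :=
    ((he.mul_const Complex.I).const_mul _).sub_const _
  have h2 : HasDerivAt (fun s : ℝ => (Real.sin θ : ℂ) * ((Real.exp s : ℂ) * Complex.I)
      + (Real.cos θ : ℂ)) ((Real.sin θ : ℂ) * ((Real.exp s : ℂ) * Complex.I)) s :=
    ((he.mul_const Complex.I).const_mul _).add_const _
  have h3 := h1.div h2 hN0
  have e : (fun s => wS s θ) = (fun s : ℝ => (Real.cos θ : ℂ) * ((Real.exp s : ℂ) * Complex.I)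
      - (Real.sin θ : ℂ)) / (fun s : ℝ => (Real.sin θ : ℂ) * ((Real.exp s : ℂ) * Complex.I)
      + (Real.cos θ : ℂ)) := by
    funext t; rw [wS_eq]; rfl
  rw [e]
  refine h3.congr_deriv ?_
  have hcs : (Real.cos θ : ℂ) ^ 2 + (Real.sin θ : ℂ) ^ 2 = 1 := by
    rw [← Complex.ofReal_pow, ← Complex.ofReal_pow, ← Complex.ofReal_add, Real.cos_sq_add_sin_sq]
    simp
  set Nb : ℂ := (Real.cos θ : ℂ) - (Real.sin θ : ℂ) * ((Real.exp s : ℂ) * Complex.I) with hNb
  have hconj : (starRingEnd ℂ) N = Nb := by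
    rw [hN, hNb]
    simp only [map_add, map_mul, Complex.conj_ofReal, Complex.conj_I]
    ring
  have hNb0 : Nb ≠ 0 := by rw [← hconj]; rwa [Ne, map_eq_zero]
  have him : ((wS s θ).im : ℂ) = (Real.exp s : ℂ) / (N * Nb) := by
    have hm : wS s θ = mob (Berry.rot θ) ((aS s • (UpperHalfPlane.I : ℍ) : ℍ) : ℂ) := by
      unfold wS; rw [mul_smul, mob_coe]
    have hd : den (Berry.rot θ) ((aS s • (UpperHalfPlane.I : ℍ) : ℍ) : ℂ) = N := by
      rw [aS_smul_I]
      have e2 : (Berry.rot θ) 1 0 = Real.sin θ := by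
        show ((Berry.rot θ : SL(2, ℝ)) : Matrix (Fin 2) (Fin 2) ℝ) 1 0 = _
        simp [Berry.rot]
      have e3 : (Berry.rot θ) 1 1 = Real.cos θ := by
        show ((Berry.rot θ : SL(2, ℝ)) : Matrix (Fin 2) (Fin 2) ℝ) 1 1 = _
        simp [Berry.rot]
      unfold den
      rw [e2, e3]
    rw [hm, mob_im_coe _ (coe_mem_UH _), hd, ← Complex.mul_conj', hconj, aS_smul_I]
    congr 1
    simp [-Complex.ofReal_exp]
  rw [him, dS_eq, ← hN, ← hNb]
  have hI := Complex.I_mul_I
  field_simp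
  rw [hN]
  linear_combination hcs

/-- the change of the direction along the flow -/
theorem hasDerivAt_dS (s θ : ℝ) :
    HasDerivAt (fun s => dS s θ) (-Complex.I * ((dS s θ).re : ℂ) * dS s θ) s := by
  set N : ℂ := (Real.sin θ : ℂ) * ((Real.exp s : ℂ) * Complex.I) + (Real.cos θ : ℂ) with hN
  have hN0 : N ≠ 0 := wS_aux s θ
  have he : HasDerivAt (fun s : ℝ => ((Real.exp s : ℝ) : ℂ)) (Real.exp s : ℂ) s :=
    (Real.hasDerivAt_exp s).ofReal_comp
  have h1 : HasDerivAt (fun s : ℝ => Complex.I * ((Real.cos θ : ℂ)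
      - (Real.sin θ : ℂ) * ((Real.exp s : ℂ) * Complex.I)))
      (Complex.I * (-((Real.sin θ : ℂ) * ((Real.exp s : ℂ) * Complex.I)))) s :=
    (((he.mul_const Complex.I).const_mul _).const_sub _).const_mul _
  have h2 : HasDerivAt (fun s : ℝ => (Real.sin θ : ℂ) * ((Real.exp s : ℂ) * Complex.I)
      + (Real.cos θ : ℂ)) ((Real.sin θ : ℂ) * ((Real.exp s : ℂ) * Complex.I)) s :=
    ((he.mul_const Complex.I).const_mul _).add_const _
  have h3 := h1.div h2 hN0
  have e : (fun s => dS s θ) = (fun s : ℝ => Complex.I * ((Real.cos θ : ℂ)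
      - (Real.sin θ : ℂ) * ((Real.exp s : ℂ) * Complex.I)))
      / (fun s : ℝ => (Real.sin θ : ℂ) * ((Real.exp s : ℂ) * Complex.I)
      + (Real.cos θ : ℂ)) := by
    funext t; rw [dS_eq]; rfl
  rw [e]
  refine h3.congr_deriv ?_
  set Nb : ℂ := (Real.cos θ : ℂ) - (Real.sin θ : ℂ) * ((Real.exp s : ℂ) * Complex.I) with hNb
  have hconj : (starRingEnd ℂ) N = Nb := by
    rw [hN, hNb]
    simp only [map_add, map_mul, Complex.conj_ofReal, Complex.conj_I]
    ring
  have hNb0 : Nb ≠ 0 := by rw [← hconj]; rwa [Ne, map_eq_zero]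
  have hd : dS s θ = Complex.I * Nb / N := dS_eq s θ
  have hre : ((dS s θ).re : ℂ) = (Complex.I * Nb / N + -(Complex.I * N / Nb)) / 2 := by
    rw [Complex.re_eq_add_conj, hd, map_div₀, map_mul, Complex.conj_I, ← hconj, Complex.conj_conj]
    ring
  rw [hre, hd, ← hN]
  have hI := Complex.I_mul_I
  have hdif : N - Nb = 2 * ((Real.sin θ : ℂ) * ((Real.exp s : ℂ) * Complex.I)) := by
    rw [hN, hNb]; ring
  have hs1 : (Real.sin θ : ℂ) * ((Real.exp s : ℂ) * Complex.I) = (N - Nb) / 2 := by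
    rw [hdif]; ring
  rw [hs1]
  clear_value N Nb
  field_simp
  linear_combination (Nb ^ 2 - N ^ 2) * hI

theorem rot_add_pi (θ : ℝ) : Berry.rot (θ + Real.pi) = -Berry.rot θ := by
  apply Subtype.ext
  simp only [Berry.rot]
  rw [Real.cos_add_pi, Real.sin_add_pi]
  ext i j
  fin_cases i <;> fin_cases j <;> simp

theorem wS_add_pi (s θ : ℝ) : wS s (θ + Real.pi) = wS s θ := by
  unfold wS
  rw [rot_add_pi, show -Berry.rot θ * aS s = -(Berry.rot θ * aS s) from neg_mul _ _, neg_smul_eq]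

theorem dS_add_pi (s θ : ℝ) : dS s (θ + Real.pi) = dS s θ := by
  unfold dS
  rw [rot_add_pi, show -Berry.rot θ * aS s = -(Berry.rot θ * aS s) from neg_mul _ _, dirG_neg]

/-- the velocity of a geodesic -/
theorem hasDerivAt_point (g : SL(2, ℝ)) (s : ℝ) :
    HasDerivAt (fun s => (((g * aS s) • (UpperHalfPlane.I : ℍ) : ℍ) : ℂ))
      ((((g * aS s) • (UpperHalfPlane.I : ℍ) : ℍ).im : ℂ) * dirG (g * aS s)) s := by
  obtain ⟨θ, hθ⟩ := exists_frame g
  set z : ℍ := g • (UpperHalfPlane.I : ℍ) with hz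
  rw [hθ]
  have e : (fun s => (((Berry.frame (z, θ) * aS s) • (UpperHalfPlane.I : ℍ) : ℍ) : ℂ))
      = fun s => (z.re : ℂ) + (z.im : ℂ) * wS s θ := by
    funext t; exact frame_aS_smul_I (z, θ) t
  rw [e]
  have h := ((hasDerivAt_wS s θ).const_mul (z.im : ℂ)).const_add (z.re : ℂ)
  refine h.congr_deriv ?_
  rw [dirG_frame_aS]
  have e2 : ((((Berry.frame (z, θ) * aS s) • (UpperHalfPlane.I : ℍ) : ℍ).im : ℝ) : ℂ)
      = (z.im : ℂ) * ((wS s θ).im : ℂ) := by
    have e3 : (((Berry.frame (z, θ) * aS s) • (UpperHalfPlane.I : ℍ) : ℍ)).im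
        = ((z.re : ℂ) + (z.im : ℂ) * wS s θ).im := by
      rw [← frame_aS_smul_I (z, θ) s]; rfl
    rw [e3]
    simp
  rw [e2]
  ring

/-- the change of the direction along a geodesic -/
theorem hasDerivAt_dir (g : SL(2, ℝ)) (s : ℝ) :
    HasDerivAt (fun s => dirG (g * aS s))
      (-Complex.I * ((dirG (g * aS s)).re : ℂ) * dirG (g * aS s)) s := by
  obtain ⟨θ, hθ⟩ := exists_frame g
  rw [hθ]
  have e : (fun s => dirG (Berry.frame (g • (UpperHalfPlane.I : ℍ), θ) * aS s))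
      = fun s => dS s θ := by
    funext t; exact dirG_frame_aS _ t
  rw [e, dirG_frame_aS]
  exact hasDerivAt_dS s θ

end

end QE


end

section

/-!
The transport equation (invariance under the geodesic flow) for the weak limits of the products of two
jets, on the hyperbolic plane.
-/

open MeasureTheory Filter Topology
open scoped ContDiff

namespace QE

noncomputable section



theorem fderiv_im (z v : ℂ) : fderiv ℝ aH z v = (v.im : ℂ) := by
  have h : aH = fun z => Complex.ofRealCLM (Complex.imCLM z) := by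
    funext z; rfl
  have h2 : HasFDerivAt aH (Complex.ofRealCLM.comp Complex.imCLM) z := by
    rw [h]
    exact (Complex.ofRealCLM.comp Complex.imCLM).hasFDerivAt
  rw [h2.fderiv]
  rfl

theorem dz_aH (z : ℂ) : dz aH z = -(Complex.I / 2) := by
  unfold dz
  rw [fderiv_im, fderiv_im]
  simp
  ring

theorem dzb_aH (z : ℂ) : dzb aH z = Complex.I / 2 := by
  unfold dzb
  rw [fderiv_im, fderiv_im]
  simp
  ring

theorem contDiff_aH : ContDiff ℝ ∞ aH :=
  (Complex.ofRealCLM.comp Complex.imCLM).contDiff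

variable {h : ℕ → ℝ} {φ : ℕ → ℂ → ℂ}

/-- `f = g + h p + h² (tame)` -/
def Near2 (U : Set ℂ) (h : ℕ → ℝ) (u v p : ℕ → ℂ → ℂ) : Prop :=
  ∃ w, Tame U h w ∧ ∀ n, ∀ z ∈ U, u n z = v n z + (h n : ℂ) * p n z + (h n : ℂ) ^ 2 * w n z

namespace Setup

variable (S : Setup UH gH aH h φ)

/-- the commutator of the two operators -/
theorem comm_exact {u : ℕ → ℂ → ℂ} (hu : SmoothSeq UH u) (n : ℕ) (z : ℂ) (hz : z ∈ UH) :
    LLb h aH (LL h aH u) n z = LL h aH (LLb h aH u) n z
      + (h n : ℂ) * (LL h aH u n z + LLb h aH u n z) := by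
  have hda : DifferentiableAt ℝ aH z := contDiff_aH.differentiable (by simp) z
  have s1 : DifferentiableAt ℝ (dz (u n)) z := (SmoothSeq.dz isOpen_UH hu).dAt isOpen_UH n hz
  have s2 : DifferentiableAt ℝ (dzb (u n)) z := (SmoothSeq.dzb isOpen_UH hu).dAt isOpen_UH n hz
  have hI : Complex.I ^ 2 = -1 := Complex.I_sq
  have e1 : dzb (LL h aH u n) z
      = -(2 * Complex.I * h n) * (dzb aH z * dz (u n) z + aH z * dzb (dz (u n)) z) := by
    unfold LL
    have : (fun z => -(2 * Complex.I * (h n : ℂ)) * aH z * dz (u n) z)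
        = fun z => -(2 * Complex.I * (h n : ℂ)) * (aH z * dz (u n) z) := by funext w; ring
    rw [this, dzb_const_mul _ (hda.fun_mul s1), dzb_mul hda s1]
  have e2 : dz (LLb h aH u n) z
      = -(2 * Complex.I * h n) * (dz aH z * dzb (u n) z + aH z * dz (dzb (u n)) z) := by
    unfold LLb
    have : (fun z => -(2 * Complex.I * (h n : ℂ)) * aH z * dzb (u n) z)
        = fun z => -(2 * Complex.I * (h n : ℂ)) * (aH z * dzb (u n) z) := by funext w; ring
    rw [this, dz_const_mul _ (hda.fun_mul s2), dz_mul hda s2]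
  have e3 : LLb h aH (LL h aH u) n z = -(2 * Complex.I * h n) * aH z * dzb (LL h aH u n) z := rfl
  have e4 : LL h aH (LLb h aH u) n z = -(2 * Complex.I * h n) * aH z * dz (LLb h aH u n) z := rfl
  have e5 : LL h aH u n z = -(2 * Complex.I * h n) * aH z * dz (u n) z := rfl
  have e6 : LLb h aH u n z = -(2 * Complex.I * h n) * aH z * dzb (u n) z := rfl
  rw [e3, e4, e1, e2, e5, e6, dz_aH, dzb_aH, dz_dzb_comm (((hu n).contDiffAt
    (isOpen_UH.mem_nhds hz)).of_le (WithTop.coe_le_coe.2 le_top))]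
  linear_combination (2 * (h n : ℂ) ^ 2 * aH z * Complex.I * (dz (u n) z + dzb (u n) z)) * hI

include S

/-- `L̄ E_1 = φ + h E_1` -/
theorem LLb_one_exact (n : ℕ) (z : ℂ) (hz : z ∈ UH) :
    LLb h aH (jet h aH φ 1) n z = jet h aH φ 0 n z + (h n : ℂ) * jet h aH φ 1 n z := by
  have hda : DifferentiableAt ℝ aH z := contDiff_aH.differentiable (by simp) z
  have s1 : DifferentiableAt ℝ (dz (φ n)) z :=
    (SmoothSeq.dz isOpen_UH S.tame.smooth).dAt isOpen_UH n hz
  have e1 : dzb (LL h aH φ n) z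
      = -(2 * Complex.I * h n) * (dzb aH z * dz (φ n) z + aH z * dzb (dz (φ n)) z) := by
    unfold LL
    have : (fun z => -(2 * Complex.I * (h n : ℂ)) * aH z * dz (φ n) z)
        = fun z => -(2 * Complex.I * (h n : ℂ)) * (aH z * dz (φ n) z) := by funext w; ring
    rw [this, dzb_const_mul _ (hda.fun_mul s1), dzb_mul hda s1]
  have e3 : LLb h aH (jet h aH φ 1) n z
      = -(2 * Complex.I * h n) * aH z * dzb (LL h aH φ n) z := rfl
  have e5 : jet h aH φ 1 n z = -(2 * Complex.I * h n) * aH z * dz (φ n) z := rfl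
  have e6 : jet h aH φ 0 n z = φ n z := rfl
  have hI : Complex.I ^ 2 = -1 := Complex.I_sq
  have hc : dz (dzb (φ n)) z = dzb (dz (φ n)) z := dz_dzb_comm (((S.tame.smooth n).contDiffAt
    (isOpen_UH.mem_nhds hz)).of_le (WithTop.coe_le_coe.2 le_top))
  have hag := S.ag z hz
  have heig := S.eig n z hz
  rw [hc] at heig
  rw [e3, e1, e5, e6, dzb_aH]
  linear_combination (4 * (h n : ℂ) ^ 2 * aH z ^ 2 * dzb (dz (φ n)) z
    + 2 * (h n : ℂ) ^ 2 * aH z * Complex.I * dz (φ n) z) * hI - aH z ^ 2 * heig + φ n z * hag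

/-- the second order expansion of `L̄ E_{m+1}` -/
theorem LLb_exp (m : ℕ) : Near2 UH h (LLb h aH (jet h aH φ (m + 1))) (jet h aH φ m)
    (fun n z => ((m : ℂ) + 1) * jet h aH φ (m + 1) n z + (m : ℂ) * jet h aH φ (m - 1) n z) := by
  induction m with
  | zero =>
    refine ⟨_, Tame.zero isOpen_UH, fun n z hz => ?_⟩
    rw [S.LLb_one_exact n z hz]
    simp
  | succ m ih =>
    obtain ⟨w, hw, hw'⟩ := ih
    have t1 := (hw.LL isOpen_UH S.hlim S.ha)
    -- the error of `L̄ e_{m+1}` in the second term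
    have t2 := ((S.tame_jet (m + 1)).smul isOpen_UH ((m : ℂ) + 1)).add isOpen_UH
      ((S.tame_jet (m - 1)).smul isOpen_UH (m : ℂ))
    have hbdh : ∀ᶠ n in atTop, ‖((h n : ℝ) : ℂ)‖ ≤ 1 := hbd S.hlim
    have t3 := hw.const_mul isOpen_UH hbdh
    refine ⟨_, (t1.add isOpen_UH t2).add isOpen_UH t3, fun n z hz => ?_⟩
    have s0 : SmoothSeq UH (jet h aH φ (m + 1)) := (S.tame_jet (m + 1)).smooth
    have e0 := comm_exact (h := h) s0 n z hz
    have e1 : jet h aH φ (m + 1 + 1) = LL h aH (jet h aH φ (m + 1)) := rfl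
    have d1 : DifferentiableAt ℝ (jet h aH φ m n) z := (S.tame_jet m).smooth.dAt isOpen_UH n hz
    have d2 : DifferentiableAt ℝ (jet h aH φ (m + 1) n) z := s0.dAt isOpen_UH n hz
    have d3 : DifferentiableAt ℝ (jet h aH φ (m - 1) n) z :=
      (S.tame_jet (m - 1)).smooth.dAt isOpen_UH n hz
    have d4 : DifferentiableAt ℝ (w n) z := hw.smooth.dAt isOpen_UH n hz
    have e2 : dz (LLb h aH (jet h aH φ (m + 1)) n) z = dz (jet h aH φ m n) z
        + (h n : ℂ) * (((m : ℂ) + 1) * dz (jet h aH φ (m + 1) n) z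
          + (m : ℂ) * dz (jet h aH φ (m - 1) n) z) + (h n : ℂ) ^ 2 * dz (w n) z := by
      rw [dz_congr_on isOpen_UH (hw' n) hz]
      rw [dz_add (d1.fun_add (((d2.const_mul _).fun_add (d3.const_mul _)).const_mul _))
        (d4.const_mul _), dz_add d1 (((d2.const_mul _).fun_add (d3.const_mul _)).const_mul _),
        dz_const_mul _ ((d2.const_mul _).fun_add (d3.const_mul _)), dz_const_mul _ d4,
        dz_add (d2.const_mul _) (d3.const_mul _), dz_const_mul _ d2, dz_const_mul _ d3]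
    have e3 : LL h aH (LLb h aH (jet h aH φ (m + 1))) n z
        = -(2 * Complex.I * h n) * aH z * dz (LLb h aH (jet h aH φ (m + 1)) n) z := rfl
    have e4 : ∀ k, jet h aH φ (k + 1) n z
        = -(2 * Complex.I * h n) * aH z * dz (jet h aH φ k n) z := fun k => rfl
    have e5 : LL h aH w n z = -(2 * Complex.I * h n) * aH z * dz (w n) z := rfl
    have e6 : (m : ℂ) * (-(2 * Complex.I * h n) * aH z * dz (jet h aH φ (m - 1) n) z)
        = (m : ℂ) * jet h aH φ m n z := by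
      rcases Nat.eq_zero_or_pos m with h0 | h0
      · rw [h0]; simp
      · obtain ⟨k, rfl⟩ : ∃ k, m = k + 1 := ⟨m - 1, by omega⟩
        rw [Nat.add_sub_cancel, e4 k]
    have e7 := hw' n z hz
    have e8 : (m + 1 - 1 : ℕ) = m := by omega
    rw [e1, e0, e3, e2, e8]
    have e9 := e4 m
    have e10 := e4 (m + 1)
    have e11 : LL h aH (jet h aH φ (m + 1)) n z = jet h aH φ (m + 1 + 1) n z := rfl
    rw [e5]
    push_cast
    linear_combination (-1 : ℂ) * e9 - (h n : ℂ) * ((m : ℂ) + 1) * e10 + (h n : ℂ) * e6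
      + (h n : ℂ) * e7 - (h n : ℂ) * ((m : ℂ) + 1) * e11

/-- the derivative of a product of two jets, exactly -/
theorem LL_prod_exact (j m : ℕ) (n : ℕ) (z : ℂ) (hz : z ∈ UH) :
    -(2 * Complex.I * h n) * aH z * dz (fun z => jet h aH φ j n z * jet h aH φ m n z) z
      = jet h aH φ (j + 1) n z * jet h aH φ m n z + jet h aH φ j n z * jet h aH φ (m + 1) n z := by
  have d1 : DifferentiableAt ℝ (jet h aH φ j n) z := (S.tame_jet j).smooth.dAt isOpen_UH n hz
  have d2 : DifferentiableAt ℝ (jet h aH φ m n) z := (S.tame_jet m).smooth.dAt isOpen_UH n hz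
  have e4 : ∀ k, jet h aH φ (k + 1) n z
      = -(2 * Complex.I * h n) * aH z * dz (jet h aH φ k n) z := fun k => rfl
  rw [dz_mul d1 d2, e4 j, e4 m]
  ring

theorem LLb_prod_exact (j m : ℕ) (n : ℕ) (z : ℂ) (hz : z ∈ UH) :
    -(2 * Complex.I * h n) * aH z * dzb (fun z => jet h aH φ j n z * jet h aH φ m n z) z
      = LLb h aH (jet h aH φ j) n z * jet h aH φ m n z
        + jet h aH φ j n z * LLb h aH (jet h aH φ m) n z := by
  have d1 : DifferentiableAt ℝ (jet h aH φ j n) z := (S.tame_jet j).smooth.dAt isOpen_UH n hz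
  have d2 : DifferentiableAt ℝ (jet h aH φ m n) z := (S.tame_jet m).smooth.dAt isOpen_UH n hz
  have e4 : ∀ k, LLb h aH (jet h aH φ k) n z
      = -(2 * Complex.I * h n) * aH z * dzb (jet h aH φ k n) z := fun k => rfl
  rw [dzb_mul d1 d2, e4 j, e4 m]
  ring

end Setup

theorem contDiffOn_inv_aH : ContDiffOn ℝ ∞ (fun z => (aH z)⁻¹) UH := by
  refine contDiff_aH.contDiffOn.inv fun z hz => ?_
  have : (0 : ℝ) < z.im := hz
  show ((z.im : ℝ) : ℂ) ≠ 0
  exact_mod_cast this.ne'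

theorem aH_ne {z : ℂ} (hz : z ∈ UH) : aH z ≠ 0 := by
  have : (0 : ℝ) < z.im := hz
  show ((z.im : ℝ) : ℂ) ≠ 0
  exact_mod_cast this.ne'

/-- the derivatives of `ζ / y` -/
theorem dz_div_aH {ζ : ℂ → ℂ} (hζ : Test UH ζ) {z : ℂ} (hz : z ∈ UH) :
    dz (fun z => ζ z * (aH z)⁻¹) z
      = dz ζ z * (aH z)⁻¹ + Complex.I / 2 * (ζ z * ((aH z)⁻¹) ^ 2) := by
  have hζ1 : Test UH (fun z => ζ z * (aH z)⁻¹) := hζ.mul isOpen_UH contDiffOn_inv_aH
  have hd := hζ1.smooth.differentiable (by simp) z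
  have h2 : dz ζ z = dz (fun z => (ζ z * (aH z)⁻¹) * aH z) z := by
    refine dz_congr_on isOpen_UH (fun w hw => ?_) hz
    rw [mul_assoc, inv_mul_cancel₀ (aH_ne hw), mul_one]
  have h3 : dz (fun z => (ζ z * (aH z)⁻¹) * aH z) z
      = dz (fun z => ζ z * (aH z)⁻¹) z * aH z + (ζ z * (aH z)⁻¹) * dz aH z :=
    dz_mul hd (contDiff_aH.differentiable (by simp) z)
  rw [h3, dz_aH] at h2
  have ha := aH_ne hz
  rw [h2]
  field_simp
  ring

theorem dzb_div_aH {ζ : ℂ → ℂ} (hζ : Test UH ζ) {z : ℂ} (hz : z ∈ UH) :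
    dzb (fun z => ζ z * (aH z)⁻¹) z
      = dzb ζ z * (aH z)⁻¹ - Complex.I / 2 * (ζ z * ((aH z)⁻¹) ^ 2) := by
  have hζ1 : Test UH (fun z => ζ z * (aH z)⁻¹) := hζ.mul isOpen_UH contDiffOn_inv_aH
  have hd := hζ1.smooth.differentiable (by simp) z
  have h2 : dzb ζ z = dzb (fun z => (ζ z * (aH z)⁻¹) * aH z) z := by
    refine dzb_congr_on isOpen_UH (fun w hw => ?_) hz
    rw [mul_assoc, inv_mul_cancel₀ (aH_ne hw), mul_one]
  have h3 : dzb (fun z => (ζ z * (aH z)⁻¹) * aH z) z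
      = dzb (fun z => ζ z * (aH z)⁻¹) z * aH z + (ζ z * (aH z)⁻¹) * dzb aH z :=
    dzb_mul hd (contDiff_aH.differentiable (by simp) z)
  rw [h3, dzb_aH] at h2
  have ha := aH_ne hz
  rw [h2]
  field_simp
  ring

namespace Setup

variable (S : Setup UH gH aH h φ)

include S

/-- the integrated identity behind the transport equation -/
theorem transport_id (m : ℕ) : ∃ w, Tame UH h w ∧ ∀ n, ∀ ζ, Test UH ζ →
    2 * Complex.I * (∫ z, dz (fun z => ζ z * (aH z)⁻¹) z * (jet h aH φ 0 n z * jet h aH φ m n z))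
      - 2 * Complex.I * (∫ z, dzb (fun z => ζ z * (aH z)⁻¹) z
          * (jet h aH φ 1 n z * jet h aH φ (m + 1) n z))
      = -((m : ℂ) + 2) * (∫ z, (ζ z * ((aH z)⁻¹) ^ 2) * (jet h aH φ 1 n z * jet h aH φ (m + 1) n z))
        - (m : ℂ) * (∫ z, (ζ z * ((aH z)⁻¹) ^ 2) * (jet h aH φ 1 n z * jet h aH φ (m - 1) n z))
        - (h n : ℂ) * (∫ z, (ζ z * ((aH z)⁻¹) ^ 2) * (jet h aH φ 1 n z * w n z)) := by
  obtain ⟨w, hw, hw'⟩ := S.LLb_exp m
  refine ⟨w, hw, fun n ζ hζ => ?_⟩
  have hζ1 : Test UH (fun z => ζ z * (aH z)⁻¹) := hζ.mul isOpen_UH contDiffOn_inv_aH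
  have hζ2 : Test UH (fun z => ζ z * ((aH z)⁻¹) ^ 2) :=
    hζ.mul isOpen_UH (contDiffOn_inv_aH.pow 2)
  have sA : ContDiffOn ℝ ∞ (fun z => jet h aH φ 0 n z * jet h aH φ m n z) UH :=
    ((S.tame_jet 0).smooth n).mul ((S.tame_jet m).smooth n)
  have sB : ContDiffOn ℝ ∞ (fun z => jet h aH φ 1 n z * jet h aH φ (m + 1) n z) UH :=
    ((S.tame_jet 1).smooth n).mul ((S.tame_jet (m + 1)).smooth n)
  have sD : ContDiffOn ℝ ∞ (fun z => jet h aH φ 1 n z * jet h aH φ (m - 1) n z) UH :=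
    ((S.tame_jet 1).smooth n).mul ((S.tame_jet (m - 1)).smooth n)
  have sE : ContDiffOn ℝ ∞ (fun z => jet h aH φ 1 n z * w n z) UH :=
    ((S.tame_jet 1).smooth n).mul (hw.smooth n)
  have i1 := integral_mul_dz isOpen_UH hζ1 sA
  have i2 := integral_mul_dzb isOpen_UH hζ1 sB
  have g1 := hζ2.int isOpen_UH sB
  have g2 := hζ2.int isOpen_UH sD
  have g3 := hζ2.int isOpen_UH sE
  have g4 := hζ1.int isOpen_UH (contDiffOn_dz isOpen_UH sA)
  have g5 := hζ1.int isOpen_UH (contDiffOn_dzb isOpen_UH sB)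
  have hn : (h n : ℂ) ≠ 0 := by exact_mod_cast (S.hpos n).ne'
  -- pointwise identity
  have pw : ∀ z, -(2 * Complex.I) * ((ζ z * (aH z)⁻¹)
        * dz (fun z => jet h aH φ 0 n z * jet h aH φ m n z) z)
      + 2 * Complex.I * ((ζ z * (aH z)⁻¹)
        * dzb (fun z => jet h aH φ 1 n z * jet h aH φ (m + 1) n z) z)
      = -((m : ℂ) + 2) * ((ζ z * ((aH z)⁻¹) ^ 2) * (jet h aH φ 1 n z * jet h aH φ (m + 1) n z))
        + -(m : ℂ) * ((ζ z * ((aH z)⁻¹) ^ 2) * (jet h aH φ 1 n z * jet h aH φ (m - 1) n z))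
        + -(h n : ℂ) * ((ζ z * ((aH z)⁻¹) ^ 2) * (jet h aH φ 1 n z * w n z)) := by
    intro z
    by_cases hz : z ∈ UH
    · have p1 := S.LL_prod_exact 0 m n z hz
      have p2 := S.LLb_prod_exact 1 (m + 1) n z hz
      rw [S.LLb_one_exact n z hz, hw' n z hz] at p2
      have ha := aH_ne hz
      set A' := dz (fun z => jet h aH φ 0 n z * jet h aH φ m n z) z
      set B' := dzb (fun z => jet h aH φ 1 n z * jet h aH φ (m + 1) n z) z
      have q1 : -(2 * Complex.I) * A' = (jet h aH φ (0 + 1) n z * jet h aH φ m n z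
          + jet h aH φ 0 n z * jet h aH φ (m + 1) n z) * ((h n : ℂ)⁻¹ * (aH z)⁻¹) := by
        rw [← p1]; field_simp
      have q2 : 2 * Complex.I * B' = -(((jet h aH φ 0 n z + (h n : ℂ) * jet h aH φ 1 n z)
          * jet h aH φ (m + 1) n z + jet h aH φ 1 n z * (jet h aH φ m n z + (h n : ℂ)
            * (((m : ℂ) + 1) * jet h aH φ (m + 1) n z + (m : ℂ) * jet h aH φ (m - 1) n z)
            + (h n : ℂ) ^ 2 * w n z)) * ((h n : ℂ)⁻¹ * (aH z)⁻¹)) := by
        rw [← p2]; field_simp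
      have e : -(2 * Complex.I) * ((ζ z * (aH z)⁻¹) * A')
          + 2 * Complex.I * ((ζ z * (aH z)⁻¹) * B')
          = (ζ z * (aH z)⁻¹) * (-(2 * Complex.I) * A' + 2 * Complex.I * B') := by ring
      rw [e, q1, q2]
      field_simp
      ring
    · have h0 := (hζ.zero_of_notMem hz).1
      rw [h0]; ring
  have t1 : ∫ z, (-(2 * Complex.I) * ((ζ z * (aH z)⁻¹)
        * dz (fun z => jet h aH φ 0 n z * jet h aH φ m n z) z)
      + 2 * Complex.I * ((ζ z * (aH z)⁻¹)
        * dzb (fun z => jet h aH φ 1 n z * jet h aH φ (m + 1) n z) z))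
      = ∫ z, (-((m : ℂ) + 2) * ((ζ z * ((aH z)⁻¹) ^ 2)
            * (jet h aH φ 1 n z * jet h aH φ (m + 1) n z))
        + -(m : ℂ) * ((ζ z * ((aH z)⁻¹) ^ 2) * (jet h aH φ 1 n z * jet h aH φ (m - 1) n z))
        + -(h n : ℂ) * ((ζ z * ((aH z)⁻¹) ^ 2) * (jet h aH φ 1 n z * w n z))) :=
    integral_congr_ae (Filter.Eventually.of_forall pw)
  have t2 : ∫ z, (-(2 * Complex.I) * ((ζ z * (aH z)⁻¹)
        * dz (fun z => jet h aH φ 0 n z * jet h aH φ m n z) z)
      + 2 * Complex.I * ((ζ z * (aH z)⁻¹)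
        * dzb (fun z => jet h aH φ 1 n z * jet h aH φ (m + 1) n z) z))
      = -(2 * Complex.I) * (∫ z, (ζ z * (aH z)⁻¹)
        * dz (fun z => jet h aH φ 0 n z * jet h aH φ m n z) z)
      + 2 * Complex.I * (∫ z, (ζ z * (aH z)⁻¹)
        * dzb (fun z => jet h aH φ 1 n z * jet h aH φ (m + 1) n z) z) := by
    rw [integral_add (g4.const_mul _) (g5.const_mul _), integral_const_mul, integral_const_mul]
  have t3 : ∫ z, (-((m : ℂ) + 2) * ((ζ z * ((aH z)⁻¹) ^ 2)
            * (jet h aH φ 1 n z * jet h aH φ (m + 1) n z))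
        + -(m : ℂ) * ((ζ z * ((aH z)⁻¹) ^ 2) * (jet h aH φ 1 n z * jet h aH φ (m - 1) n z))
        + -(h n : ℂ) * ((ζ z * ((aH z)⁻¹) ^ 2) * (jet h aH φ 1 n z * w n z)))
      = -((m : ℂ) + 2) * (∫ z, (ζ z * ((aH z)⁻¹) ^ 2)
            * (jet h aH φ 1 n z * jet h aH φ (m + 1) n z))
        + -(m : ℂ) * (∫ z, (ζ z * ((aH z)⁻¹) ^ 2) * (jet h aH φ 1 n z * jet h aH φ (m - 1) n z))
        + -(h n : ℂ) * (∫ z, (ζ z * ((aH z)⁻¹) ^ 2) * (jet h aH φ 1 n z * w n z)) := by
    have g12 : Integrable (fun z => -((m : ℂ) + 2) * ((ζ z * ((aH z)⁻¹) ^ 2)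
            * (jet h aH φ 1 n z * jet h aH φ (m + 1) n z))
        + -(m : ℂ) * ((ζ z * ((aH z)⁻¹) ^ 2) * (jet h aH φ 1 n z * jet h aH φ (m - 1) n z))) :=
      (g1.const_mul _).add (g2.const_mul _)
    rw [integral_add g12 (g3.const_mul _),
      integral_add (g1.const_mul _) (g2.const_mul _), integral_const_mul, integral_const_mul,
      integral_const_mul]
  rw [t2, t3] at t1
  rw [i1, i2] at t1
  linear_combination t1

variable {u : ℤ → ℂ → ℂ} (hl : ∀ k, LocL2 UH (u k)) (hw : JLim UH h aH φ u)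

include hl hw

/-- the transport equation for positive `k` -/
theorem transport_pos (m : ℕ) {ζ : ℂ → ℂ} (hζ : Test UH ζ) :
    ∫ z, (((z.im : ℂ) * dz ζ z + Complex.I * ((m + 1 : ℤ) : ℂ) / 2 * ζ z) * u ((m + 1 : ℤ) - 1) z
      + ((z.im : ℂ) * dzb ζ z + Complex.I * ((m + 1 : ℤ) : ℂ) / 2 * ζ z) * u ((m + 1 : ℤ) + 1) z)
        / (z.im : ℂ) ^ 2 = 0 := by
  obtain ⟨w, hwt, hid⟩ := S.transport_id m
  have hζ1 : Test UH (fun z => ζ z * (aH z)⁻¹) := hζ.mul isOpen_UH contDiffOn_inv_aH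
  have hζ2 : Test UH (fun z => ζ z * ((aH z)⁻¹) ^ 2) :=
    hζ.mul isOpen_UH (contDiffOn_inv_aH.pow 2)
  have hE0 : ∀ n z, E h aH φ 0 n z = jet h aH φ 0 n z := fun _ _ => rfl
  have hEm : ∀ (m : ℕ) n z, E h aH φ (m : ℤ) n z = jet h aH φ m n z := fun _ _ _ => rfl
  have hE1 : ∀ n z, E h aH φ 1 n z = jet h aH φ 1 n z := fun _ _ => rfl
  -- the limits
  have tA : Tendsto (fun n => ∫ z, dz (fun z => ζ z * (aH z)⁻¹) z
      * (jet h aH φ 0 n z * jet h aH φ m n z)) atTop
      (𝓝 (∫ z, dz (fun z => ζ z * (aH z)⁻¹) z * u (m : ℤ) z)) :=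
    (S.lim_zero hl hw (m : ℤ)).test hζ1.dz
  have wB : WLim UH (fun n z => jet h aH φ 1 n z * jet h aH φ (m + 1) n z)
      (fun z => -u ((m : ℤ) + 2) z) := by
    have := hw 1 ((m + 1 : ℕ) : ℤ)
    refine this.congr_right fun z _ => ?_
    have e : (1 : ℤ) + ((m + 1 : ℕ) : ℤ) = (m : ℤ) + 2 := by push_cast; ring
    rw [e]; simp
  have tB := wB.test hζ1.dzb
  have tC := wB.test hζ2
  have tD : Tendsto (fun n => (m : ℂ) * ∫ z, (ζ z * ((aH z)⁻¹) ^ 2)
      * (jet h aH φ 1 n z * jet h aH φ (m - 1) n z)) atTop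
      (𝓝 ((m : ℂ) * ∫ z, (ζ z * ((aH z)⁻¹) ^ 2) * -u (m : ℤ) z)) := by
    rcases Nat.eq_zero_or_pos m with h0 | h0
    · rw [h0]; simp
    · have wD : WLim UH (fun n z => jet h aH φ 1 n z * jet h aH φ (m - 1) n z)
          (fun z => -u (m : ℤ) z) := by
        have := hw 1 ((m - 1 : ℕ) : ℤ)
        refine this.congr_right fun z _ => ?_
        have e : (1 : ℤ) + ((m - 1 : ℕ) : ℤ) = (m : ℤ) := by omega
        rw [e]; simp
      exact (wD.test hζ2).const_mul _
  have tE := tendsto_h_int S.hlim (S.tame_jet 1) hwt hζ2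
  have lim1 := (tA.const_mul (2 * Complex.I)).sub (tB.const_mul (2 * Complex.I))
  have lim2 := ((tC.const_mul (-((m : ℂ) + 2))).sub tD).sub tE
  have heq := tendsto_nhds_unique (lim1.congr fun n => hid n ζ hζ) lim2
  -- integrability
  have j1 := hζ1.dz.int_LocL2 (hl (m : ℤ))
  have j2 := hζ1.dzb.int_LocL2 (hl ((m : ℤ) + 2))
  have j3 := hζ2.int_LocL2 (hl ((m : ℤ) + 2))
  have j4 := hζ2.int_LocL2 (hl (m : ℤ))
  have n1 : ∀ f g : ℂ → ℂ, ∫ z, f z * -g z = -∫ z, f z * g z := by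
    intro f g
    rw [← integral_neg]
    exact integral_congr_ae (Filter.Eventually.of_forall fun z => by beta_reduce; ring)
  rw [n1, n1, n1] at heq
  have e1 : ((m + 1 : ℤ) - 1) = (m : ℤ) := by ring
  have e2 : ((m + 1 : ℤ) + 1) = (m : ℤ) + 2 := by ring
  rw [e1, e2]
  have pw : ∀ z : ℂ, (((z.im : ℂ) * dz ζ z + Complex.I * ((m + 1 : ℤ) : ℂ) / 2 * ζ z) * u (m : ℤ) z
      + ((z.im : ℂ) * dzb ζ z + Complex.I * ((m + 1 : ℤ) : ℂ) / 2 * ζ z) * u ((m : ℤ) + 2) z)
        / (z.im : ℂ) ^ 2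
      = (dz (fun z => ζ z * (aH z)⁻¹) z * u (m : ℤ) z
        + dzb (fun z => ζ z * (aH z)⁻¹) z * u ((m : ℤ) + 2) z)
        + (Complex.I / 2 * (m : ℂ) * ((ζ z * ((aH z)⁻¹) ^ 2) * u (m : ℤ) z)
        + Complex.I / 2 * ((m : ℂ) + 2) * ((ζ z * ((aH z)⁻¹) ^ 2) * u ((m : ℤ) + 2) z)) := by
    intro z
    by_cases hz : z ∈ UH
    · rw [dz_div_aH hζ hz, dzb_div_aH hζ hz]
      have ha := aH_ne hz
      have e : ((z.im : ℝ) : ℂ) = aH z := rfl
      rw [e]
      push_cast
      field_simp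
      ring
    · obtain ⟨h0, h1, h2⟩ := hζ.zero_of_notMem hz
      obtain ⟨_, h3, h4⟩ := hζ1.zero_of_notMem hz
      rw [h0, h1, h2, h3, h4]; ring
  have t1 : ∫ z : ℂ, (((z.im : ℂ) * dz ζ z + Complex.I * ((m + 1 : ℤ) : ℂ) / 2 * ζ z) * u (m : ℤ) z
      + ((z.im : ℂ) * dzb ζ z + Complex.I * ((m + 1 : ℤ) : ℂ) / 2 * ζ z) * u ((m : ℤ) + 2) z)
        / (z.im : ℂ) ^ 2
      = ((∫ z, dz (fun z => ζ z * (aH z)⁻¹) z * u (m : ℤ) z)
        + ∫ z, dzb (fun z => ζ z * (aH z)⁻¹) z * u ((m : ℤ) + 2) z)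
        + (Complex.I / 2 * (m : ℂ) * (∫ z, (ζ z * ((aH z)⁻¹) ^ 2) * u (m : ℤ) z)
        + Complex.I / 2 * ((m : ℂ) + 2) * (∫ z, (ζ z * ((aH z)⁻¹) ^ 2) * u ((m : ℤ) + 2) z)) := by
    have j12 : Integrable (fun z => dz (fun z => ζ z * (aH z)⁻¹) z * u (m : ℤ) z
        + dzb (fun z => ζ z * (aH z)⁻¹) z * u ((m : ℤ) + 2) z) := j1.add j2
    have j34 : Integrable (fun z => Complex.I / 2 * (m : ℂ) * ((ζ z * ((aH z)⁻¹) ^ 2)
          * u (m : ℤ) z)
        + Complex.I / 2 * ((m : ℂ) + 2) * ((ζ z * ((aH z)⁻¹) ^ 2) * u ((m : ℤ) + 2) z)) :=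
      (j4.const_mul _).add (j3.const_mul _)
    rw [integral_congr_ae (Filter.Eventually.of_forall pw),
      integral_add j12 j34, integral_add j1 j2,
      integral_add (j4.const_mul _) (j3.const_mul _), integral_const_mul, integral_const_mul]
  rw [t1]
  have hI : Complex.I ^ 2 = -1 := Complex.I_sq
  linear_combination (-(Complex.I / 2)) * heq
    + ((∫ z, dz (fun z => ζ z * (aH z)⁻¹) z * u (m : ℤ) z)
      + ∫ z, dzb (fun z => ζ z * (aH z)⁻¹) z * u ((m : ℤ) + 2) z) * hI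

/-- the transport equation: the limit measure is invariant under the geodesic flow -/
theorem limit_transport (k : ℤ) {ζ : ℂ → ℂ} (hζ : Test UH ζ) :
    ∫ z, (((z.im : ℂ) * dz ζ z + Complex.I * (k : ℂ) / 2 * ζ z) * u (k - 1) z
      + ((z.im : ℂ) * dzb ζ z + Complex.I * (k : ℂ) / 2 * ζ z) * u (k + 1) z)
        / (z.im : ℂ) ^ 2 = 0 := by
  rcases Int.even_or_odd k with hk | hk
  · -- the functions `u (k - 1)` and `u (k + 1)` vanish
    have h1 : Odd (k - 1) := by
      obtain ⟨r, rfl⟩ := hk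
      exact ⟨r - 1, by ring⟩
    have h2 : Odd (k + 1) := by
      obtain ⟨r, rfl⟩ := hk
      exact ⟨r, by ring⟩
    have h3 := (ae_restrict_iff' isOpen_UH.measurableSet).1 (S.lim_odd hl hw (k - 1) h1)
    have h4 := (ae_restrict_iff' isOpen_UH.measurableSet).1 (S.lim_odd hl hw (k + 1) h2)
    rw [← integral_zero ℂ ℂ (μ := volume)]
    refine integral_congr_ae ?_
    filter_upwards [h3, h4] with z h3 h4
    by_cases hz : z ∈ UH
    · rw [h3 hz, h4 hz]; simp
    · obtain ⟨h0, h1, h2⟩ := hζ.zero_of_notMem hz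
      rw [h0, h1, h2]; simp
  · rcases le_or_gt 1 k with h1 | h1
    · obtain ⟨m, rfl⟩ : ∃ m : ℕ, k = (m : ℤ) + 1 := ⟨(k - 1).toNat, by omega⟩
      exact S.transport_pos hl hw m hζ
    · have hk0 : k ≤ -1 := by
        obtain ⟨r, rfl⟩ := hk
        omega
      obtain ⟨m, hm⟩ : ∃ m : ℕ, -k = (m : ℤ) + 1 := ⟨(-k - 1).toNat, by omega⟩
      have hp := S.transport_pos hl hw m hζ.conj
      rw [← hm] at hp
      have hc := congrArg (starRingEnd ℂ) hp
      rw [map_zero, ← integral_conj] at hc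
      rw [← hc]
      refine integral_congr_ae ?_
      have h3 := (ae_restrict_iff' isOpen_UH.measurableSet).1 (S.lim_conj hl hw (k - 1))
      have h4 := (ae_restrict_iff' isOpen_UH.measurableSet).1 (S.lim_conj hl hw (k + 1))
      filter_upwards [h3, h4] with z h3 h4
      by_cases hz : z ∈ UH
      · have hd := hζ.smooth.differentiable (by simp) z
        have e1 : -k + 1 = -(k - 1) := by ring
        have e2 : -k - 1 = -(k + 1) := by ring
        rw [dz_conj hd, dzb_conj hd, e1, e2, h3 hz, h4 hz]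
        simp only [map_div₀, map_add, map_mul, map_pow, Complex.conj_I, Complex.conj_conj,
          Complex.conj_ofReal, map_ofNat, map_intCast]
        push_cast
        ring
      · obtain ⟨h0, h1, h2⟩ := hζ.zero_of_notMem hz
        obtain ⟨h0', h1', h2'⟩ := hζ.conj.zero_of_notMem hz
        rw [h0, h1, h2, h1', h2']; simp

end Setup

end

end QE


end

section

/-!
Equivariance of the weak limits of the products of jets on the hyperbolic plane under Möbius
transformations which leave the eigenfunctions invariant, and the family of all the limits.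
-/

open MeasureTheory Filter Topology Complex
open UpperHalfPlane hiding I
open scoped ContDiff MatrixGroups

namespace QE

noncomputable section

namespace Mob

variable (γ : SL(2, ℝ))

/-- `y γ' = (y ∘ γ) γ' / |γ'|` -/
theorem aH_mob {z : ℂ} (hz : z ∈ UH) : aH z * (1 / den γ z ^ 2) = aH (mob γ z) * phase γ z := by
  unfold aH
  rw [mob_im_coe γ hz, deriv_eq_phase γ hz]
  ring

/-- the Jacobian determinant -/
theorem det_fderiv (d : ℂ) :
    ((ContinuousLinearMap.toSpanSingleton ℂ d).restrictScalars ℝ : ℂ →L[ℝ] ℂ).det = ‖d‖ ^ 2 := by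
  simp [ContinuousLinearMap.det, LinearMap.det_restrictScalars, Algebra.norm_complex_eq,
    Complex.normSq_eq_norm_sq]

theorem hasFDerivWithinAt {K : Set ℂ} (hKU : K ⊆ UH) : ∀ z ∈ K, HasFDerivWithinAt (mob γ)
    ((ContinuousLinearMap.toSpanSingleton ℂ (1 / den γ z ^ 2)).restrictScalars ℝ) K z :=
  fun _ hz => ((hasDerivAt_mob γ (hKU hz)).hasFDerivAt.restrictScalars ℝ).hasFDerivWithinAt

/-- change of variables on compact sets -/
theorem int_image {K : Set ℂ} (hK : IsCompact K) (hKU : K ⊆ UH) (f : ℂ → ℂ) :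
    ∫ w in mob γ '' K, f w = ∫ z in K, ((1 / ‖den γ z‖ ^ 4 : ℝ) : ℂ) * f (mob γ z) := by
  rw [integral_image_eq_integral_abs_det_fderiv_smul volume hK.measurableSet
    (hasFDerivWithinAt γ hKU) ((mob_injOn γ).mono hKU)]
  refine setIntegral_congr_fun hK.measurableSet fun z hz => ?_
  rw [det_fderiv, norm_div, norm_one, norm_pow, Complex.real_smul, abs_of_nonneg (by positivity)]
  congr 2
  rw [div_pow, one_pow, ← pow_mul]

theorem integrable_comp {v : ℂ → ℂ} (hv : LocL2 UH v) {K : Set ℂ} (hK : IsCompact K)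
    (hKU : K ⊆ UH) : IntegrableOn (fun z => v (mob γ z)) K := by
  have hK' : IsCompact (mob γ '' K) := hK.image_of_continuousOn ((continuousOn_mob γ).mono hKU)
  have hi : IntegrableOn v (mob γ '' K) := hv.intOn hK' (by
    rintro _ ⟨z, _, rfl⟩; exact mob_mem γ z)
  rw [integrableOn_image_iff_integrableOn_abs_det_fderiv_smul volume hK.measurableSet
    (hasFDerivWithinAt γ hKU) ((mob_injOn γ).mono hKU)] at hi
  have hc : ContinuousOn (fun z => (‖den γ z‖ ^ 4 : ℝ)) K :=
    ((contDiff_den γ).continuous.norm.pow 4).continuousOn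
  have h2 := hi.continuousOn_smul hc hK
  refine h2.congr_fun (fun z hz => ?_) hK.measurableSet
  have hd := den_ne_zero γ (hKU hz)
  beta_reduce
  rw [det_fderiv, norm_div, norm_one, norm_pow, abs_of_nonneg (by positivity), smul_smul]
  have h3 : ‖den γ z‖ ^ 4 * (1 / ‖den γ z‖ ^ 2) ^ 2 = 1 := by
    have : ‖den γ z‖ ≠ 0 := norm_ne_zero_iff.2 hd
    field_simp
  rw [h3, one_smul]

/-- transposition of the composition with a Möbius transformation -/
theorem transpose {θ : ℂ → ℂ} (hθ : Test UH θ) : ∃ K' : Set ℂ, IsCompact K' ∧ K' ⊆ UH ∧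
    ∃ ρ : ℂ → ℂ, MemLp ρ 2 ((volume : Measure ℂ).restrict K') ∧
      ∀ F : ℂ → ℂ, ∫ z, θ z * F (mob γ z) = ∫ z in K', ρ z * F z := by
  have hK : IsCompact (tsupport θ) := hθ.supp
  have hK' : IsCompact (mob γ '' tsupport θ) :=
    hK.image_of_continuousOn ((continuousOn_mob γ).mono hθ.sub)
  have hKU' : mob γ '' tsupport θ ⊆ UH := by
    rintro _ ⟨z, _, rfl⟩; exact mob_mem γ z
  refine ⟨mob γ '' tsupport θ, hK', hKU',
    fun w => θ (mob γ⁻¹ w) * ((‖den γ (mob γ⁻¹ w)‖ ^ 4 : ℝ) : ℂ), ?_, fun F => ?_⟩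
  · have hc : ContinuousOn (fun w => θ (mob γ⁻¹ w) * ((‖den γ (mob γ⁻¹ w)‖ ^ 4 : ℝ) : ℂ))
        (mob γ '' tsupport θ) := by
      have h1 : ContinuousOn (mob γ⁻¹) UH := continuousOn_mob γ⁻¹
      have h2 : Continuous (fun z => θ z * ((‖den γ z‖ ^ 4 : ℝ) : ℂ)) :=
        hθ.smooth.continuous.mul (continuous_ofReal.comp ((contDiff_den γ).continuous.norm.pow 4))
      exact (h2.comp_continuousOn h1).mono hKU'
    have hf : IsFiniteMeasure ((volume : Measure ℂ).restrict (mob γ '' tsupport θ)) :=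
      ⟨by rw [Measure.restrict_apply_univ]; exact hK'.measure_lt_top⟩
    obtain ⟨B, hB⟩ := hK'.exists_bound_of_continuousOn hc
    refine MemLp.of_bound (hc.aestronglyMeasurable hK'.measurableSet) B ?_
    rw [ae_restrict_iff' hK'.measurableSet]
    exact Eventually.of_forall hB
  · rw [int_image γ hK hθ.sub, ← hθ.setIntegral]
    refine setIntegral_congr_fun hK.measurableSet fun z hz => ?_
    have hd := den_ne_zero γ (hθ.sub hz)
    beta_reduce
    rw [mob_inv_mob γ (hθ.sub hz)]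
    have h3 : ((1 / ‖den γ z‖ ^ 4 : ℝ) : ℂ) * ((‖den γ z‖ ^ 4 : ℝ) : ℂ) = 1 := by
      rw [← ofReal_mul]
      have : ‖den γ z‖ ≠ 0 := norm_ne_zero_iff.2 hd
      have h4 : 1 / ‖den γ z‖ ^ 4 * ‖den γ z‖ ^ 4 = 1 := by field_simp
      rw [h4, ofReal_one]
    linear_combination (-(θ z * F (mob γ z))) * h3

end Mob

/-! ### equivariance of the jets -/

variable {h : ℕ → ℝ} {φ : ℕ → ℂ → ℂ}

theorem jet_equiv (S : Setup UH gH aH h φ) (γ : SL(2, ℝ))
    (hg : ∀ n, ∀ z ∈ UH, φ n (mob γ z) = φ n z) (m : ℕ) :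
    ∃ w : ℕ → ℂ → ℂ, Tame UH h w ∧ ∀ n, ∀ z ∈ UH,
      jet h aH φ m n z = phase γ z ^ m * jet h aH φ m n (mob γ z) + (h n : ℂ) * w n z := by
  have hU := isOpen_UH
  have hh := S.hlim
  induction m with
  | zero =>
    refine ⟨_, Tame.zero hU, fun n z hz => ?_⟩
    show φ n z = _ * φ n (mob γ z) + _
    rw [hg n z hz]; ring
  | succ m ih =>
    obtain ⟨w, hw, he⟩ := ih
    have hj := fun m => S.tame_jet m
    have hph := contDiffOn_phase γ
    have hphi : ContDiffOn ℝ ∞ (fun z => (phase γ z)⁻¹ ^ m) UH :=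
      (hph.inv fun z hz => phase_ne_zero γ hz).pow m
    -- the composition is tame
    have hG : Tame UH h (fun n z => jet h aH φ m n (mob γ z)) := by
      have t1 := (((hw.const_mul hU (c := fun n => (h n : ℂ)) (B := 1) (hbd hh)).smul hU (-1)))
      refine (((hj m).add hU t1).fn_mul hU hh hphi).congr hU fun n z hz => ?_
      rw [he n z hz]
      have h1 : (phase γ z)⁻¹ ^ m * phase γ z ^ m = 1 := by
        rw [← mul_pow, inv_mul_cancel₀ (phase_ne_zero γ hz), one_pow]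
      linear_combination (jet h aH φ m n (mob γ z)) * h1
    have hpm : ContDiffOn ℝ ∞ (fun z => phase γ z ^ m) UH := hph.pow m
    have hb : ContDiffOn ℝ ∞ (fun z => aH z * dz (fun z => phase γ z ^ m) z) UH :=
      contDiff_aH.contDiffOn.mul (contDiffOn_dz hU hpm)
    refine ⟨_, ((hG.fn_mul hU hh hb).smul hU (-(2 * I))).add hU (hw.LL hU hh S.ha),
      fun n z hz => ?_⟩
    have e0 : jet h aH φ (m + 1) n z = -(2 * I * h n) * aH z * dz (jet h aH φ m n) z := rfl
    have e0' : jet h aH φ (m + 1) n (mob γ z)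
        = -(2 * I * h n) * aH (mob γ z) * dz (jet h aH φ m n) (mob γ z) := rfl
    have e1 : LL h aH w n z = -(2 * I * h n) * aH z * dz (w n) z := rfl
    have d1 : DifferentiableAt ℝ (fun z => phase γ z ^ m) z :=
      (hpm.contDiffAt (hU.mem_nhds hz)).differentiableAt (by simp)
    have d2 := hG.smooth.dAt hU n hz
    have d3 := hw.smooth.dAt hU n hz
    have d4 := (hj m).smooth.dAt hU n (mob_mem γ z)
    rw [e0, e0', e1, dz_congr_on hU (he n) hz, dz_add (d1.fun_mul d2) (d3.const_mul _),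
      dz_mul d1 d2, dz_const_mul _ d3, dz_comp_mob γ hz d4]
    have h2 := Mob.aH_mob γ hz
    linear_combination (-(2 * I * h n) * phase γ z ^ m * dz (jet h aH φ m n) (mob γ z)) * h2

theorem E_equiv (S : Setup UH gH aH h φ) (γ : SL(2, ℝ))
    (hg : ∀ n, ∀ z ∈ UH, φ n (mob γ z) = φ n z) (k : ℤ) :
    ∃ w : ℕ → ℂ → ℂ, Tame UH h w ∧ ∀ n, ∀ z ∈ UH,
      E h aH φ k n z = phase γ z ^ k * E h aH φ k n (mob γ z) + (h n : ℂ) * w n z := by
  have hU := isOpen_UH
  cases k with
  | ofNat m =>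
    obtain ⟨w, hw, he⟩ := jet_equiv S γ hg m
    refine ⟨w, hw, fun n z hz => ?_⟩
    have := he n z hz
    rw [Int.ofNat_eq_natCast, zpow_natCast]
    exact this
  | negSucc m =>
    obtain ⟨w, hw, he⟩ := jet_equiv S γ hg (m + 1)
    refine ⟨_, (hw.conj hU).smul hU ((-1) ^ (m + 1)), fun n z hz => ?_⟩
    show (-1) ^ (m + 1) * (starRingEnd ℂ) (jet h aH φ (m + 1) n z)
      = phase γ z ^ (Int.negSucc m) * ((-1) ^ (m + 1)
        * (starRingEnd ℂ) (jet h aH φ (m + 1) n (mob γ z))) + _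
    rw [he n z hz, map_add, map_mul, map_mul, map_pow, conj_phase γ hz, conj_ofReal,
      zpow_negSucc, inv_pow]
    ring

/-- **Equivariance of the weak limits.** -/
theorem limit_equiv (S : Setup UH gH aH h φ) {k : ℤ} {v : ℂ → ℂ} (hv : LocL2 UH v)
    (hw : WLim UH (fun n z => E h aH φ 0 n z * E h aH φ k n z) v) (γ : SL(2, ℝ))
    (hg : ∀ n, ∀ z ∈ UH, φ n (mob γ z) = φ n z) :
    ∀ᵐ z ∂((volume : Measure ℂ).restrict UH), v z = phase γ z ^ k * v (mob γ z) := by
  have hU := isOpen_UH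
  obtain ⟨w, hwt, he⟩ := E_equiv S γ hg k
  have hph : ContDiffOn ℝ ∞ (fun z => phase γ z ^ k) UH := by
    cases k with
    | ofNat m =>
      have := (contDiffOn_phase γ).pow m
      simpa only [Int.ofNat_eq_natCast, zpow_natCast] using this
    | negSucc m =>
      have h1 : ContDiffOn ℝ ∞ (fun z => (phase γ z ^ (m + 1))⁻¹) UH :=
        ((contDiffOn_phase γ).pow (m + 1)).inv fun z hz =>
        pow_ne_zero _ (phase_ne_zero γ hz)
      exact h1.congr fun z _ => zpow_negSucc _ _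
  have hint : ∀ {θ : ℂ → ℂ}, Test UH θ → Integrable (fun z => θ z * v (mob γ z)) := by
    intro θ hθ
    exact hθ.int_of_intOn (Mob.integrable_comp γ hv hθ.supp hθ.sub)
  -- the integrals against test functions
  have key : ∀ {ζ : ℂ → ℂ}, Test UH ζ →
      ∫ z, ζ z * v z = ∫ z, ζ z * phase γ z ^ k * v (mob γ z) := by
    intro ζ hζ
    have hθ : Test UH (fun z => ζ z * phase γ z ^ k) := hζ.mul hU hph
    obtain ⟨K', hK', hKU', ρ, hρ, hT⟩ := Mob.transpose γ hθ
    have L1 := hw.test hζ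
    have L2 := hw K' hK' hKU' ρ hρ
    have L3 := tendsto_h_int S.hlim (S.tame_E 0) hwt hζ
    have L4 := L2.add L3
    rw [← hT, add_zero] at L4
    refine tendsto_nhds_unique L1 (L4.congr fun n => ?_)
    rw [← hT (fun z => E h aH φ 0 n z * E h aH φ k n z), ← integral_const_mul]
    have i1 : Integrable (fun z => ζ z * phase γ z ^ k
        * (E h aH φ 0 n (mob γ z) * E h aH φ k n (mob γ z))) := by
      have hc : ContinuousOn (fun z => E h aH φ 0 n (mob γ z) * E h aH φ k n (mob γ z)) UH :=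
        (S.smooth_EE 0 k n).continuousOn.comp (continuousOn_mob γ) fun z _ => mob_mem γ z
      exact hθ.integrable_mul hU hc
    have i2 : Integrable (fun z => (h n : ℂ) * (ζ z * (E h aH φ 0 n z * w n z))) :=
      (hζ.int hU (((S.tame_E 0).smooth.mul hwt.smooth) n)).const_mul _
    rw [← integral_add i1 i2]
    refine integral_congr_ae (Eventually.of_forall fun z => ?_)
    beta_reduce
    by_cases hz : z ∈ UH
    · have e0 : E h aH φ 0 n (mob γ z) = E h aH φ 0 n z := hg n z hz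
      rw [e0, he n z hz]
      ring
    · have h0 : ζ z = 0 := image_eq_zero_of_notMem_tsupport fun hh => hz (hζ.sub hh)
      rw [h0]; ring
  have hloc : LocallyIntegrableOn (fun z => v z - phase γ z ^ k * v (mob γ z)) UH := by
    rw [locallyIntegrableOn_iff hU.isLocallyClosed]
    intro K hKU hK
    have h1 : IntegrableOn v K := hv.intOn hK hKU
    have h2 := (Mob.integrable_comp γ hv hK hKU).continuousOn_mul
      (hph.continuousOn.mono hKU) hK
    exact h1.sub h2
  have hae := hU.ae_eq_zero_of_integral_contDiff_smul_eq_zero (μ := volume) hloc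
    fun g hg1 hg2 hg3 => by
      have hζ : Test UH (fun z => (g z : ℂ)) := by
        refine ⟨ofRealCLM.contDiff.comp hg1, hg2.comp_left ofReal_zero, ?_⟩
        refine (closure_mono ?_).trans hg3
        intro z hz
        simp only [Function.mem_support] at hz ⊢
        intro h0; exact hz (by rw [h0, ofReal_zero])
      have h1 := key hζ
      have h2 : Integrable (fun z => (g z : ℂ) * v z) := hζ.int_LocL2 hv
      have h3 : Integrable (fun z => (g z : ℂ) * phase γ z ^ k * v (mob γ z)) :=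
        hint (hζ.mul hU hph)
      have h4 := integral_sub h2 h3
      rw [h1, sub_self] at h4
      rw [← h4]
      refine integral_congr_ae (Eventually.of_forall fun z => ?_)
      beta_reduce
      rw [Complex.real_smul]
      ring
  rw [ae_restrict_iff' hU.measurableSet]
  filter_upwards [hae] with z hz hzU
  exact sub_eq_zero.1 (hz hzU)

/-- The weak limits of the products of two jets of `Γ`-invariant eigenfunctions satisfy all the
properties of `LimFam`. -/
theorem limFam_of_limits {Γ : Subgroup SL(2, ℝ)} (S : Setup UH gH aH h φ) {u : ℤ → ℂ → ℂ}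
    (hum : ∀ k, Measurable (u k)) (hu : ∀ k, LocL2 UH (u k)) (hw : JLim UH h aH φ u)
    (hg : ∀ γ ∈ Γ, ∀ n, ∀ z ∈ UH, φ n (mob γ z) = φ n z) : LimFam Γ u where
  meas := hum
  loc := hu
  real := S.lim_real hu hw
  bound := S.lim_bound hu hw
  conj := S.lim_conj hu hw
  odd := S.lim_odd hu hw
  pos := fun N w hw1 => S.lim_pos hu hw N w hw1
  equiv := fun γ hγ k => limit_equiv S (hu k) (S.lim_zero hu hw k) γ (hg γ hγ)
  transport := fun k _ hζ => S.limit_transport hu hw k hζ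

end

end QE


end

section

/-!
The lower bound for the fourth moment, when the microlocal measure has no directional atoms
(helper70).
-/

open Complex MeasureTheory Filter Topology
open scoped ContDiff

namespace QE

noncomputable section

variable {U : Set ℂ} {h : ℕ → ℝ} {a : ℂ → ℂ} {g : ℂ → ℂ} {φ : ℕ → ℂ → ℂ} {u : ℤ → ℂ → ℂ}

/-- positivity over the quadruples -/
theorem Setup.quads_nonneg (S : Setup U g a h φ) {ζ : ℂ → ℝ} (hT : Test U (fun z => (ζ z : ℂ)))
    (hζ0 : ∀ z, 0 ≤ ζ z) (M n : ℕ) :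
    0 ≤ (∑ p ∈ quads M, ∫ z, (ζ z : ℂ) * (E h a φ (2 * p.1.1) n z * E h a φ (2 * p.1.2) n z
        * (E h a φ (-(2 * p.2.1)) n z * E h a φ (-(2 * p.2.2)) n z))).re := by
  rw [← integral_finsetSum _ (fun p _ => S.int4 hT n _ _ _ _)]
  have hre : (∫ z, ∑ p ∈ quads M, (ζ z : ℂ) * (E h a φ (2 * p.1.1) n z * E h a φ (2 * p.1.2) n z
      * (E h a φ (-(2 * p.2.1)) n z * E h a φ (-(2 * p.2.2)) n z))).re
      = ∫ z, (∑ p ∈ quads M, (ζ z : ℂ) * (E h a φ (2 * p.1.1) n z * E h a φ (2 * p.1.2) n z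
      * (E h a φ (-(2 * p.2.1)) n z * E h a φ (-(2 * p.2.2)) n z))).re := by
    have hi : Integrable (fun z => ∑ p ∈ quads M, (ζ z : ℂ) * (E h a φ (2 * p.1.1) n z
      * E h a φ (2 * p.1.2) n z * (E h a φ (-(2 * p.2.1)) n z * E h a φ (-(2 * p.2.2)) n z))) :=
      integrable_finsetSum _ (fun p _ => S.int4 hT n _ _ _ _)
    exact (integral_re hi).symm
  rw [hre]
  refine integral_nonneg fun z => ?_
  by_cases hz : z ∈ U
  · have hcj : ∀ c : ℕ, E h a φ (-(2 * (c : ℤ))) n z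
        = (starRingEnd ℂ) (E h a φ (2 * (c : ℤ)) n z) := by
      intro c
      have h1 := S.E_neg (2 * c) n z hz
      have h2 : -(((2 * c : ℕ) : ℤ)) = -(2 * (c : ℤ)) := by push_cast; ring
      rw [h2] at h1
      rw [h1, pow_mul, neg_one_sq, one_pow, one_mul]
      rfl
    have e2 : ∑ p ∈ quads M, (ζ z : ℂ) * (E h a φ (2 * p.1.1) n z * E h a φ (2 * p.1.2) n z
      * (E h a φ (-(2 * p.2.1)) n z * E h a φ (-(2 * p.2.2)) n z))
        = (ζ z : ℂ) * ∑ p ∈ quads M, ((fun q : ℕ × ℕ => E h a φ (2 * q.1) n z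
          * E h a φ (2 * q.2) n z) p.1) * (starRingEnd ℂ) ((fun q : ℕ × ℕ => E h a φ (2 * q.1) n z
          * E h a φ (2 * q.2) n z) p.2) := by
      rw [Finset.mul_sum]
      refine Finset.sum_congr rfl fun p _ => ?_
      rw [hcj, hcj, map_mul]
    show 0 ≤ (∑ p ∈ quads M, (ζ z : ℂ) * (E h a φ (2 * p.1.1) n z * E h a φ (2 * p.1.2) n z
      * (E h a φ (-(2 * p.2.1)) n z * E h a φ (-(2 * p.2.2)) n z))).re
    rw [e2, re_ofReal_mul]
    exact mul_nonneg (hζ0 z) (sum_pairs_nonneg (Finset.range (M + 1) ×ˢ Finset.range (M + 1))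
      (fun q : ℕ × ℕ => E h a φ (2 * q.1) n z * E h a φ (2 * q.2) n z)
      (fun q : ℕ × ℕ => q.1 + q.2))
  · have : (ζ z : ℂ) = 0 := image_eq_zero_of_notMem_tsupport (f := fun z => (ζ z : ℂ))
      fun hh => hz (hT.sub hh)
    simp [this]

theorem Gam_quads (hU : IsOpen U) (hu : ∀ k, LocL2 U (u k))
    (hc : ∀ᵐ z ∂((volume : Measure ℂ).restrict U), ∀ k, u (-k) z = (starRingEnd ℂ) (u k z))
    {ρ : ℂ → ℝ} (hρ : Test U (fun z => (ρ z : ℂ))) (p q r s : ℤ) (he : p + q = r + s) :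
    Gam u (fun z => (ρ z : ℂ)) (2 * p) (2 * q) (-(2 * r)) (-(2 * s))
      = ((UU u ρ (2 * (p + q)) + UU u ρ (2 * (p - r)) + UU u ρ (2 * (p - s)) : ℝ) : ℂ) := by
  unfold Gam UU
  rw [hρ.congr_ae hU (GW_quads hc p q r s he)]
  have i1 := hρ.int_sq (hu (2 * (p + q)))
  have i2 := hρ.int_sq (hu (2 * (p - r)))
  have i3 := hρ.int_sq (hu (2 * (p - s)))
  have e : ∫ z, (ρ z : ℂ) * ((‖u (2 * (p + q)) z‖ ^ 2 + ‖u (2 * (p - r)) z‖ ^ 2
      + ‖u (2 * (p - s)) z‖ ^ 2 : ℝ) : ℂ)
      = ∫ z, ((ρ z * ‖u (2 * (p + q)) z‖ ^ 2 + ρ z * ‖u (2 * (p - r)) z‖ ^ 2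
      + ρ z * ‖u (2 * (p - s)) z‖ ^ 2 : ℝ) : ℂ) := by
    refine integral_congr_ae (Filter.Eventually.of_forall fun z => ?_)
    beta_reduce
    push_cast
    ring
  have e2 : ∫ z, ((ρ z * ‖u (2 * (p + q)) z‖ ^ 2 + ρ z * ‖u (2 * (p - r)) z‖ ^ 2
      + ρ z * ‖u (2 * (p - s)) z‖ ^ 2 : ℝ) : ℂ)
      = ((∫ z, (ρ z * ‖u (2 * (p + q)) z‖ ^ 2 + ρ z * ‖u (2 * (p - r)) z‖ ^ 2
      + ρ z * ‖u (2 * (p - s)) z‖ ^ 2) : ℝ) : ℂ) := integral_ofReal
  have e3 : ∫ z, (ρ z * ‖u (2 * (p + q)) z‖ ^ 2 + ρ z * ‖u (2 * (p - r)) z‖ ^ 2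
      + ρ z * ‖u (2 * (p - s)) z‖ ^ 2)
      = (∫ z, (ρ z * ‖u (2 * (p + q)) z‖ ^ 2 + ρ z * ‖u (2 * (p - r)) z‖ ^ 2))
      + ∫ z, ρ z * ‖u (2 * (p - s)) z‖ ^ 2 := integral_add (i1.add i2) i3
  have e4 : ∫ z, (ρ z * ‖u (2 * (p + q)) z‖ ^ 2 + ρ z * ‖u (2 * (p - r)) z‖ ^ 2)
      = (∫ z, ρ z * ‖u (2 * (p + q)) z‖ ^ 2) + ∫ z, ρ z * ‖u (2 * (p - r)) z‖ ^ 2 :=
    integral_add i1 i2
  rw [e, e2, e3, e4]

theorem Gam_zero (hU : IsOpen U) (hu : ∀ k, LocL2 U (u k))
    (hc : ∀ᵐ z ∂((volume : Measure ℂ).restrict U), ∀ k, u (-k) z = (starRingEnd ℂ) (u k z))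
    {ρ : ℂ → ℝ} (hρ : Test U (fun z => (ρ z : ℂ))) :
    Gam u (fun z => (ρ z : ℂ)) 0 0 0 0 = ((3 * UU u ρ 0 : ℝ) : ℂ) := by
  have := Gam_quads hU hu hc hρ 0 0 0 0 rfl
  simp only [mul_zero, neg_zero, add_zero, sub_zero] at this
  rw [this]
  push_cast
  ring

theorem Setup.fourth_eq (S : Setup U g a h φ) {ζ : ℂ → ℝ} (hT : Test U (fun z => (ζ z : ℂ)))
    (n : ℕ) : ∫ z, (ζ z : ℂ) * (E h a φ 0 n z * E h a φ 0 n z * (E h a φ 0 n z * E h a φ 0 n z))
      = ((∫ z, ζ z * (φ n z).re ^ 4 : ℝ) : ℂ) := by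
  have e0 : ((∫ z, ζ z * (φ n z).re ^ 4 : ℝ) : ℂ)
      = ∫ z, ((ζ z * (φ n z).re ^ 4 : ℝ) : ℂ) := integral_ofReal.symm
  rw [e0]
  have := hT.integral_congr (f := fun z => E h a φ 0 n z * E h a φ 0 n z
    * (E h a φ 0 n z * E h a φ 0 n z)) (f' := fun z => (((φ n z).re : ℝ) : ℂ) ^ 4)
    (fun z hz => by
      have h1 : (((φ n z).re : ℝ) : ℂ) = φ n z := conj_eq_iff_re.1 (S.real n z hz)
      rw [h1]
      show φ n z * φ n z * (φ n z * φ n z) = φ n z ^ 4
      ring)
  refine Eq.trans this ?_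
  refine MeasureTheory.integral_congr_ae (Filter.Eventually.of_forall fun z => ?_)
  push_cast
  ring

/-- **the local lower bound for the fourth moment**, for microlocal measures without directional
atoms -/
theorem local_atomless' (S : Setup U g a h φ)
    (hu : ∀ k, LocL2 U (u k)) (hw : ∀ j m : ℤ, WLim U
      (fun n z => E h a φ j n z * E h a φ m n z) (fun z => (-1) ^ j * u (j + m) z))
    (hc : ∀ k, ∀ᵐ z ∂((volume : Measure ℂ).restrict U), u (-k) z = (starRingEnd ℂ) (u k z))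
    {ζ : ℂ → ℝ} (hζs : ContDiff ℝ ∞ ζ) (hζc : HasCompactSupport ζ) (hζU : tsupport ζ ⊆ U)
    (hζ0 : ∀ z, 0 ≤ ζ z)
    (hN : Tendsto (fun N : ℕ => (1 / (N : ℝ)) * ∑ k ∈ Finset.Ioo (-(N : ℤ)) (N : ℤ),
      ∫ z, ζ z * ‖u k z‖ ^ 2) atTop (𝓝 0)) {ε : ℝ} (hε : 0 < ε) :
    ∀ᶠ n in atTop, 3 * (∫ z, ζ z * ‖u 0 z‖ ^ 2) - ε ≤ ∫ z, ζ z * (φ n z).re ^ 4 := by
  have L : JetLim U h a φ u := ⟨hu, hw⟩
  have hc' : ∀ᵐ z ∂((volume : Measure ℂ).restrict U), ∀ k, u (-k) z
      = (starRingEnd ℂ) (u k z) := ae_all_iff.2 hc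
  have hT : Test U (fun z => (ζ z : ℂ)) := by
    refine ⟨ofRealCLM.contDiff.comp hζs, ?_, ?_⟩
    · unfold HasCompactSupport
      rw [Test.tsupport_eq]
      exact hζc
    · rw [Test.tsupport_eq]; exact hζU
  -- the number of jets
  obtain ⟨N₀, hN₀⟩ := (Metric.tendsto_atTop.1 hN) (ε / 192) (by positivity)
  set K : ℕ := N₀ with hK
  set M : ℕ := 2 * K with hM
  set Tot : ℝ := ∑ k ∈ Finset.Ioo (-((4 * M + 1 : ℕ) : ℤ)) ((4 * M + 1 : ℕ) : ℤ), UU u ζ k with hTot
  have hTot0 : 0 ≤ Tot := Finset.sum_nonneg fun k _ => UU_nonneg hζ0 k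
  have hTotle : Tot ≤ ε / 192 * (8 * ((K : ℝ) + 1)) := by
    have h1 := hN₀ (4 * M + 1) (by omega)
    rw [dist_zero_right, Real.norm_eq_abs] at h1
    have h2 := (le_abs_self _).trans h1.le
    have hpos : (0 : ℝ) < ((4 * M + 1 : ℕ) : ℝ) := by positivity
    have h3 : Tot ≤ ε / 192 * ((4 * M + 1 : ℕ) : ℝ) := by
      have h4 : (1 / ((4 * M + 1 : ℕ) : ℝ)) * Tot ≤ ε / 192 := h2
      rw [one_div, inv_mul_le_iff₀ hpos] at h4
      linarith only [h4]
    refine h3.trans ?_
    have h5 : ((4 * M + 1 : ℕ) : ℝ) ≤ 8 * ((K : ℝ) + 1) := by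
      rw [hM]; push_cast; linarith only []
    gcongr
  set T : ℝ := ((quads M).card : ℝ) with hTdef
  have hTK : ((K : ℝ) + 1) ^ 3 ≤ T := by
    have := card_quads K
    rw [← hM] at this
    rw [hTdef]
    exact_mod_cast this
  have hT1 : 1 ≤ T := by
    have : (1 : ℝ) ≤ ((K : ℝ) + 1) ^ 3 := by
      apply one_le_pow₀
      have : (0 : ℝ) ≤ K := by (clear * -; positivity)
      linarith
    linarith
  -- the Wick sums
  have hGsum : ∑ p ∈ quads M, Gam u (fun z => (ζ z : ℂ)) (2 * p.1.1) (2 * p.1.2) (-(2 * p.2.1))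
      (-(2 * p.2.2)) = ((∑ p ∈ quads M, (UU u ζ (2 * ((p.1.1 : ℤ) + p.1.2))
        + UU u ζ (2 * ((p.1.1 : ℤ) - p.2.1)) + UU u ζ (2 * ((p.1.1 : ℤ) - p.2.2))) : ℝ) : ℂ) := by
    rw [ofReal_sum]
    refine Finset.sum_congr rfl fun p hp => ?_
    exact Gam_quads S.op hu hc' hT _ _ _ _ (by exact_mod_cast (mem_quads.1 hp).2)
  have hGle : (∑ p ∈ quads M, Gam u (fun z => (ζ z : ℂ)) (2 * p.1.1) (2 * p.1.2) (-(2 * p.2.1))
      (-(2 * p.2.2))).re ≤ ε / 2 * T := by
    rw [hGsum, ofReal_re]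
    refine (sum_quads_le (V := fun k => UU u ζ k) (fun k => UU_nonneg hζ0 k) M).trans ?_
    have hMc : (M : ℝ) = 2 * K := by rw [hM]; push_cast; ring
    have hK0 : (0 : ℝ) ≤ K := by positivity
    calc 3 * ((M : ℝ) + 1) ^ 2 * Tot ≤ 3 * ((M : ℝ) + 1) ^ 2 * (ε / 192 * (8 * ((K : ℝ) + 1))) := by
          gcongr
      _ ≤ 3 * (4 * ((K : ℝ) + 1) ^ 2) * (ε / 192 * (8 * ((K : ℝ) + 1))) := by
          gcongr
          rw [hMc]
          nlinarith
      _ = ε / 2 * ((K : ℝ) + 1) ^ 3 := by ring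
      _ ≤ ε / 2 * T := by gcongr
  -- the errors
  have hlim : Tendsto (fun n => ∑ p ∈ quads M, (YY h a φ u (fun z => (ζ z : ℂ)) n
      (2 * p.1.1) (2 * p.1.2) (-(2 * p.2.1)) (-(2 * p.2.2))
      - YY h a φ u (fun z => (ζ z : ℂ)) n 0 0 0 0)) atTop (𝓝 0) := by
    have h0 : (0 : ℂ) = ∑ p ∈ quads M, (0 : ℂ) := by simp
    rw [h0]
    apply tendsto_finsetSum
    intro p hp
    have h1 := Err_zero (Z := 0) (YY_12 S L hT) (YY_23 S L hT) (YY_34 S L hT) (YY_mac S L hT)
      p.1.1 p.1.2 p.2.1 p.2.2 (mem_quads.mp hp).2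
    unfold Asy Err at h1
    simpa using h1
  have hev := (Metric.tendsto_nhds.mp hlim) (ε / 2) (by positivity)
  filter_upwards [hev] with n hn
  rw [dist_zero_right] at hn
  have hre := (Complex.abs_re_le_norm _).trans hn.le
  rw [Finset.sum_sub_distrib, Finset.sum_const, nsmul_eq_mul, Complex.sub_re] at hre
  have hcast : (((quads M).card : ℂ) * YY h a φ u (fun z => (ζ z : ℂ)) n 0 0 0 0).re
      = T * (YY h a φ u (fun z => (ζ z : ℂ)) n 0 0 0 0).re := by
    rw [hTdef]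
    have : ((quads M).card : ℂ) = (((quads M).card : ℝ) : ℂ) := by push_cast; rfl
    rw [this, Complex.re_ofReal_mul]
  rw [hcast] at hre
  have h0 := (abs_le.mp hre).2
  have h1 := S.quads_nonneg hT hζ0 M n
  have h2 : (∑ p ∈ quads M, YY h a φ u (fun z => (ζ z : ℂ)) n (2 * p.1.1) (2 * p.1.2)
      (-(2 * p.2.1)) (-(2 * p.2.2))).re
      = (∑ p ∈ quads M, ∫ z, (ζ z : ℂ) * (E h a φ (2 * p.1.1) n z * E h a φ (2 * p.1.2) n z
        * (E h a φ (-(2 * p.2.1)) n z * E h a φ (-(2 * p.2.2)) n z))).re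
        - (∑ p ∈ quads M, Gam u (fun z => (ζ z : ℂ)) (2 * p.1.1) (2 * p.1.2) (-(2 * p.2.1))
      (-(2 * p.2.2))).re := by
    rw [← Complex.sub_re, ← Finset.sum_sub_distrib]
    rfl
  have h3 : T * (-ε) ≤ T * (YY h a φ u (fun z => (ζ z : ℂ)) n 0 0 0 0).re := by
    have : ε / 2 ≤ ε / 2 * T := by nlinarith only [hε, hT1]
    linarith only [hGle, h0, h1, h2, this]
  have h4 : -ε ≤ (YY h a φ u (fun z => (ζ z : ℂ)) n 0 0 0 0).re :=
    le_of_mul_le_mul_left h3 (by linarith only [hT1])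
  have h5 : YY h a φ u (fun z => (ζ z : ℂ)) n 0 0 0 0
      = ((((∫ z, ζ z * (φ n z).re ^ 4) - 3 * UU u ζ 0 : ℝ)) : ℂ) := by
    unfold YY
    rw [S.fourth_eq hT, Gam_zero S.op hu hc' hT, ofReal_sub]
  rw [h5, ofReal_re] at h4
  unfold UU at h4
  linarith only [h4]

/-- **the local lower bound for the fourth moment**, for microlocal measures without directional
atoms -/
theorem local_atomless (S : Setup U g a h φ) {u : ℤ → ℂ → ℂ} (_ : ∀ k, Measurable (u k))
    (hu : ∀ k, LocL2 U (u k)) (hw : ∀ j m : ℤ, WLim U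
      (fun n z => E h a φ j n z * E h a φ m n z) (fun z => (-1) ^ j * u (j + m) z))
    (hc : ∀ k, ∀ᵐ z ∂((volume : Measure ℂ).restrict U), u (-k) z = (starRingEnd ℂ) (u k z))
    {ζ : ℂ → ℝ} (hζs : ContDiff ℝ ∞ ζ) (hζc : HasCompactSupport ζ) (hζU : tsupport ζ ⊆ U)
    (hζ0 : ∀ z, 0 ≤ ζ z)
    (hN : Tendsto (fun N : ℕ => (1 / (N : ℝ)) * ∑ k ∈ Finset.Ioo (-(N : ℤ)) (N : ℤ),
      ∫ z, ζ z * ‖u k z‖ ^ 2) atTop (𝓝 0)) {ε : ℝ} (hε : 0 < ε) :
    ∀ᶠ n in atTop, 3 * (∫ z, ζ z * ‖u 0 z‖ ^ 2) - ε ≤ ∫ z, ζ z * (φ n z).re ^ 4 :=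
  local_atomless' S hu hw hc hζs hζc hζU hζ0 hN hε

end

end QE


end

section

/-!
The third order correlations vanish, when the microlocal measure has no directional atoms (helper70).
-/

open Complex MeasureTheory Filter Topology
open scoped ContDiff

namespace QE

noncomputable section

/-- **the third order correlations vanish** (algebraic part): `W` stands for the fourth order
correlations minus the Wick sums `Γ` -/
theorem alg_third_var (X W : ℕ → ℤ → ℤ → ℤ → ℤ → ℂ) (Γ : ℤ → ℤ → ℤ → ℤ → ℂ)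
    (Y : ℕ → ℤ → ℤ → ℤ → ℂ) (V : ℕ → ℝ) (C : ℝ) (hC : 0 ≤ C)
    (hW : ∀ n a b c d, X n a b c d = W n a b c d + Γ a b c d)
    (s1 : ∀ n a b c d, W n a b c d = W n b a c d)
    (s2 : ∀ n a b c d, W n a b c d = W n a c b d)
    (hmac : ∀ j m k l : ℤ,
      Tendsto (fun n => W n (j + 1) (m + 1) k l - W n j m (k + 1) (l + 1)) atTop
        (𝓝 ((P (j + 1) (m + 1) * P k l - P j m * P (k + 1) (l + 1)) * ((0 : ℝ) : ℂ))))
    (hibp : Tendsto (fun n => W n 1 0 0 (-1) + W n 0 1 0 (-1) + W n 0 0 1 (-1) + W n 0 0 0 0)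
      atTop (𝓝 0))
    (t1 : ∀ n a b c, Y n a b c = Y n b a c)
    (t2 : ∀ n a b c, Y n a b c = Y n a c b)
    (hD : ∀ a b c : ℤ, Tendsto (fun n => Y n (a + 1) b c + Y n a (b + 1) c
      + Y n a b (c + 1)) atTop (𝓝 0))
    (hDb : ∀ a b c : ℤ, Tendsto (fun n => Y n (a - 1) b c + Y n a (b - 1) c
      + Y n a b (c - 1)) atTop (𝓝 0))
    (hV : ∀ᶠ n in atTop, V n ≤ C)
    (hcs : ∀ (N n : ℕ) (w : ℕ → ℝ) (l : ℝ), 0 < l →
      ‖∑ t ∈ Finset.range N, (w t : ℂ) * Y n t (-3 - t) 3‖ ≤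
        (l * V n + l⁻¹ * (-∑ t ∈ Finset.range N, ∑ u ∈ Finset.range N,
          (w t : ℂ) * (w u : ℂ) * X n t (-3 - t) (-u) (3 + u)).re) / 2)
    (hΓ : ∀ η > 0, ∃ N₀ : ℕ, ∀ N ≥ N₀, ∀ w : ℕ → ℝ, (∀ t, |w t| ≤ 1) →
      ‖∑ t ∈ Finset.range N, ∑ u ∈ Finset.range N,
        (w t : ℂ) * (w u : ℂ) * Γ t (-3 - t) (-u) (3 + u)‖ ≤ η * (N : ℝ) ^ 2)
    (a b c : ℤ) (hs : a + b + c = 0) : Tendsto (fun n => Y n a b c) atTop (𝓝 0) := by
  have hpat := T_pattern t1 t2 hD hDb
  suffices h0 : Tendsto (fun n => Y n 0 0 0) atTop (𝓝 0) by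
    refine (hpat a b c hs).tendsto_zero ?_
    have := h0.const_mul (pat3 a b)
    rw [mul_zero] at this
    exact this
  -- the weights
  set w : ℕ → ℝ := fun t => if t % 3 = 0 then 1 else -1 / 2 with hw
  have hw1 : ∀ t, |w t| ≤ 1 := by
    intro t
    simp only [hw]
    split_ifs
    · simp
    · rw [abs_le]; constructor <;> norm_num
  have hwsum : ∀ K : ℕ, ∑ t ∈ Finset.range (3 * K), (w t : ℂ) = 0 := by
    intro K
    induction K with
    | zero => simp
    | succ K ih =>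
      rw [show 3 * (K + 1) = 3 * K + 1 + 1 + 1 by ring, Finset.sum_range_succ,
        Finset.sum_range_succ, Finset.sum_range_succ, ih]
      simp only [hw]
      rw [if_pos (by omega), if_neg (by omega), if_neg (by omega)]
      push_cast
      norm_num
  have hwY : ∀ K : ℕ, ∑ t ∈ Finset.range (3 * K), (w t : ℂ) * pat3 t (-3 - t) = (3 / 2) * K := by
    intro K
    induction K with
    | zero => simp
    | succ K ih =>
      rw [show 3 * (K + 1) = 3 * K + 1 + 1 + 1 by ring, Finset.sum_range_succ,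
        Finset.sum_range_succ, Finset.sum_range_succ, ih]
      simp only [hw, pat3]
      rw [if_pos (by omega), if_pos (by omega), if_neg (by omega), if_neg (by omega),
        if_neg (by omega), if_neg (by omega)]
      push_cast
      ring
  rw [tendsto_zero_iff_norm_tendsto_zero, Metric.tendsto_atTop]
  intro ε hε
  -- the parameters
  set θ : ℝ := ε / (C + 1) with hθ
  have hθ0 : 0 < θ := by positivity
  have hθC : θ * C ≤ ε := by
    rw [hθ, div_mul_eq_mul_div, div_le_iff₀ (by positivity)]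
    nlinarith
  set η : ℝ := θ * ε / 12 with hη
  have hη0 : 0 < η := by positivity
  obtain ⟨N₀, hN₀⟩ := hΓ η hη0
  obtain ⟨K₁, hK₁⟩ := exists_nat_gt ((θ⁻¹ + 2) / (ε * (3 / 4)))
  set K : ℕ := N₀ + K₁ + 1 with hK
  have hK1 : (1 : ℝ) ≤ K := by
    rw [hK]; push_cast
    have : (0 : ℝ) ≤ N₀ := by positivity
    have : (0 : ℝ) ≤ K₁ := by positivity
    linarith only []
  have hKp : (0 : ℝ) < K := by linarith
  have hK2 : θ⁻¹ + 2 ≤ K * (ε * (3 / 4)) := by
    have h1 : (K₁ : ℝ) ≤ K := by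
      rw [hK]; push_cast
      have : (0 : ℝ) ≤ N₀ := by positivity
      linarith only []
    rw [div_lt_iff₀ (by positivity)] at hK₁
    have h2 : (K₁ : ℝ) * (ε * (3 / 4)) ≤ K * (ε * (3 / 4)) := by (clear * - h1 hε; gcongr)
    linarith only [hK₁, h2]
  set N : ℕ := 3 * K with hN
  have hNN : N₀ ≤ N := by omega
  have hY : Asy (fun n => ∑ t ∈ Finset.range N, (w t : ℂ) * Y n t (-3 - t) 3)
      (fun n => ((3 / 2) * K) * Y n 0 0 0) := by
    have h1 : Asy (fun n => ∑ t ∈ Finset.range N, (w t : ℂ) * Y n t (-3 - t) 3)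
        (fun n => ∑ t ∈ Finset.range N, (w t : ℂ) * (pat3 t (-3 - t) * Y n 0 0 0)) := by
      refine Asy.sum (Finset.range N) (f := fun (t : ℕ) n => (w t : ℂ) * Y n t (-3 - t) 3)
        (g := fun (t : ℕ) n => (w t : ℂ) * (pat3 t (-3 - t) * Y n 0 0 0)) fun t _ => ?_
      exact (hpat _ _ _ (by ring)).const_mul _
    refine h1.trans (Asy.of_eq ?_)
    funext n
    rw [← hwY K, Finset.sum_mul]
    refine Finset.sum_congr rfl fun t _ => ?_
    ring
  have hX : Tendsto (fun n => ∑ t ∈ Finset.range N, ∑ u ∈ Finset.range N,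
      (w t : ℂ) * (w u : ℂ) * W n t (-3 - t) (-u) (3 + u)) atTop (𝓝 0) := by
    have h1 : Asy (fun n => ∑ t ∈ Finset.range N, ∑ u ∈ Finset.range N,
        (w t : ℂ) * (w u : ℂ) * W n t (-3 - t) (-u) (3 + u))
        (fun n => ∑ t ∈ Finset.range N, ∑ u ∈ Finset.range N,
        (w t : ℂ) * (w u : ℂ) * ((-1 / 3) * W n 0 0 0 0)) := by
      refine Asy.sum (Finset.range N) (f := fun (t : ℕ) n => ∑ u ∈ Finset.range N,
        (w t : ℂ) * (w u : ℂ) * W n t (-3 - t) (-u) (3 + u))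
        (g := fun (t : ℕ) n => ∑ u ∈ Finset.range N,
        (w t : ℂ) * (w u : ℂ) * ((-1 / 3) * W n 0 0 0 0)) fun t _ => ?_
      refine Asy.sum (Finset.range N) (f := fun (u : ℕ) n =>
        (w t : ℂ) * (w u : ℂ) * W n t (-3 - t) (-u) (3 + u))
        (g := fun (u : ℕ) n =>
        (w t : ℂ) * (w u : ℂ) * ((-1 / 3) * W n 0 0 0 0)) fun u _ => ?_
      have h2 := Err_pattern (Z := 0) s1 s2 hmac hibp t (-3 - t) (-u) (3 + u) (by ring)
      have h3 : pat (t : ℤ) (-3 - t) (-u) (3 + u) = -1 / 3 := by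
        unfold pat
        rw [if_neg]
        omega
      rw [h3] at h2
      have h4 : Asy (fun n => W n t (-3 - t) (-u) (3 + u)) (fun n => (-1 / 3) * W n 0 0 0 0) := by
        unfold Asy Err at h2
        unfold Asy
        simpa using h2
      exact h4.const_mul _
    refine h1.tendsto_zero ?_
    have e : ∀ n, ∑ t ∈ Finset.range N, ∑ u ∈ Finset.range N,
        (w t : ℂ) * (w u : ℂ) * ((-1 / 3) * W n 0 0 0 0) = 0 := by
      intro n
      have : ∀ t ∈ Finset.range N, ∑ u ∈ Finset.range N,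
          (w t : ℂ) * (w u : ℂ) * ((-1 / 3) * W n 0 0 0 0) = 0 := by
        intro t _
        have e2 : ∑ u ∈ Finset.range N,
            (w t : ℂ) * (w u : ℂ) * ((-1 / 3) * W n 0 0 0 0)
            = (w t : ℂ) * ((-1 / 3) * W n 0 0 0 0) * ∑ u ∈ Finset.range N, (w u : ℂ) := by
          rw [Finset.mul_sum]
          refine Finset.sum_congr rfl fun u _ => ?_
          ring
        rw [e2, hN, hwsum, mul_zero]
      exact Finset.sum_eq_zero this
    simp only [e]
    exact tendsto_const_nhds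
  have hG := hN₀ N hNN w hw1
  have ev1 := (Metric.tendsto_nhds.mp hX) 1 one_pos
  have ev2 := (Metric.tendsto_nhds.mp hY) 1 one_pos
  have hev : ∀ᶠ n in atTop, ‖Y n 0 0 0‖ < ε := by
    filter_upwards [ev1, ev2, hV] with n h1 h2 h3
    rw [dist_zero_right] at h1 h2
    have hl0 : 0 < θ * K := by (clear * - hε hC; positivity)
    have k1 := hcs N n w (θ * K) hl0
    have k2 : (-∑ t ∈ Finset.range N, ∑ u ∈ Finset.range N,
        (w t : ℂ) * (w u : ℂ) * X n t (-3 - t) (-u) (3 + u)).re ≤ 1 + η * (N : ℝ) ^ 2 := by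
      have e : -∑ t ∈ Finset.range N, ∑ u ∈ Finset.range N,
          (w t : ℂ) * (w u : ℂ) * X n t (-3 - t) (-u) (3 + u)
          = -((∑ t ∈ Finset.range N, ∑ u ∈ Finset.range N,
          (w t : ℂ) * (w u : ℂ) * W n t (-3 - t) (-u) (3 + u))
          + ∑ t ∈ Finset.range N, ∑ u ∈ Finset.range N,
          (w t : ℂ) * (w u : ℂ) * Γ t (-3 - t) (-u) (3 + u)) := by
        rw [← Finset.sum_add_distrib]
        congr 1
        refine Finset.sum_congr rfl fun t _ => ?_
        rw [← Finset.sum_add_distrib]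
        refine Finset.sum_congr rfl fun u _ => ?_
        rw [hW]
        ring
      rw [e]
      refine (Complex.re_le_norm _).trans ?_
      rw [norm_neg]
      exact (norm_add_le _ _).trans (add_le_add h1.le hG)
    have k3 : ‖((3 / 2 : ℂ) * K) * Y n 0 0 0‖
        ≤ ‖∑ t ∈ Finset.range N, (w t : ℂ) * Y n t (-3 - t) 3‖ + 1 := by
      have e : ((3 / 2 : ℂ) * K) * Y n 0 0 0
          = (∑ t ∈ Finset.range N, (w t : ℂ) * Y n t (-3 - t) 3)
            - ((∑ t ∈ Finset.range N, (w t : ℂ) * Y n t (-3 - t) 3)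
              - ((3 / 2 : ℂ) * K) * Y n 0 0 0) := by ring
      rw [e]
      exact (norm_sub_le _ _).trans (add_le_add le_rfl h2.le)
    have k4 : ‖((3 / 2 : ℂ) * K) * Y n 0 0 0‖ = (3 / 2) * (K : ℝ) * ‖Y n 0 0 0‖ := by
      rw [norm_mul, norm_mul]
      simp
    rw [k4] at k3
    have hNr : (N : ℝ) = 3 * (K : ℝ) := by rw [hN]; push_cast; ring
    rw [hNr] at k2
    have k5 : (θ * K) * V n ≤ K * ε := by
      calc (θ * K) * V n ≤ (θ * K) * C := by gcongr
        _ = K * (θ * C) := by ring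
        _ ≤ K * ε := by (clear * - hθC; gcongr)
    have k6 : (θ * K)⁻¹ * (-∑ t ∈ Finset.range N, ∑ u ∈ Finset.range N,
        (w t : ℂ) * (w u : ℂ) * X n t (-3 - t) (-u) (3 + u)).re ≤ θ⁻¹ + K * (ε * (3 / 4)) := by
      calc (θ * K)⁻¹ * (-∑ t ∈ Finset.range N, ∑ u ∈ Finset.range N,
            (w t : ℂ) * (w u : ℂ) * X n t (-3 - t) (-u) (3 + u)).re
          ≤ (θ * K)⁻¹ * (1 + η * (3 * (K : ℝ)) ^ 2) := by gcongr
        _ = θ⁻¹ * (K : ℝ)⁻¹ + K * (ε * (3 / 4)) := by
            rw [hη]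
            field_simp
            ring
        _ ≤ θ⁻¹ + K * (ε * (3 / 4)) := by
            have h5 : (K : ℝ)⁻¹ ≤ 1 := inv_le_one_of_one_le₀ hK1
            have h6 : θ⁻¹ * (K : ℝ)⁻¹ ≤ θ⁻¹ * 1 := by gcongr
            linarith only [h6]
    have k7 : (3 / 2) * (K : ℝ) * ‖Y n 0 0 0‖ ≤ (K * ε + (θ⁻¹ + K * (ε * (3 / 4)))) / 2 + 1 := by
      linarith only [k1, k3, k5, k6]
    have k8 : (K : ℝ) * (‖Y n 0 0 0‖ * (3 / 2)) ≤ K * (ε * (5 / 4)) := by
      linarith only [hK2, k1, k3, k5, k6]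
    have k9 := le_of_mul_le_mul_left k8 hKp
    linarith only [hε, k9]
  obtain ⟨n0, hn0⟩ := eventually_atTop.mp hev
  refine ⟨n0, fun n hn => ?_⟩
  rw [dist_zero_right, norm_norm]
  exact hn0 n hn


variable {U : Set ℂ} {h : ℕ → ℝ} {a : ℂ → ℂ} {g : ℂ → ℂ} {φ : ℕ → ℂ → ℂ} {u : ℤ → ℂ → ℂ}

/-- the odd coefficients vanish -/
theorem JetLim.odd (hU : IsOpen U) (L : JetLim U h a φ u) (k : ℤ) (hk : Odd k) :
    ∀ᵐ z ∂((volume : Measure ℂ).restrict U), u k z = 0 := by
  filter_upwards [L.sym hU] with z hz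
  have h1 := hz 0 k
  unfold WW at h1
  rw [zpow_zero, one_mul, zero_add, add_zero, hk.neg_one_zpow] at h1
  linear_combination (1 / 2) * h1

theorem Setup.conj_jet (S : Setup U g a h φ) (k : ℤ) (n : ℕ) {z : ℂ} (hz : z ∈ U) :
    (starRingEnd ℂ) (E h a φ k n z) = (-1 : ℂ) ^ k * E h a φ (-k) n z := by
  obtain ⟨q, rfl | rfl⟩ := k.eq_nat_or_neg
  · rw [S.E_neg q n z hz]
    have : E h a φ (q : ℤ) n z = jet h a φ q n z := rfl
    rw [this, zpow_natCast, ← mul_assoc, ← mul_pow]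
    norm_num
  · rw [S.E_neg q n z hz, neg_neg, map_mul, map_pow, map_neg, map_one, starRingEnd_self_apply,
      zpow_neg, zpow_natCast, ← inv_pow]
    norm_num
    rfl

/-- the coefficients of a real measure -/
theorem JetLim.conj (S : Setup U g a h φ) (L : JetLim U h a φ u) (k : ℤ) :
    ∀ᵐ z ∂((volume : Measure ℂ).restrict U), u (-k) z = (starRingEnd ℂ) (u k z) := by
  rcases Int.even_or_odd k with hk | hk
  · have h1 := (L.lim 0 k).conj
    have h2 : WLim U (fun n z => E h a φ 0 n z * E h a φ (-k) n z)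
        (fun z => (starRingEnd ℂ) ((-1) ^ (0 : ℤ) * u (0 + k) z)) := by
      refine h1.congr fun n z hz => ?_
      rw [map_mul, S.conj_jet 0 n hz, S.conj_jet k n hz, hk.neg_one_zpow]
      simp
    have h3 := WLim.unique S.op (L.lim 0 (-k)) h2 ((L.loc _).const_mul _)
      ((L.loc _).const_mul _).conj
    filter_upwards [h3] with z hz
    simpa using hz
  · filter_upwards [L.odd S.op k hk, L.odd S.op (-k) hk.neg] with z h1 h2
    rw [h1, h2, map_zero]

/-- sums of differences -/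
theorem sum_diff_le {V : ℤ → ℝ} (hV : ∀ k, 0 ≤ V k) (N : ℕ) :
    ∑ t ∈ Finset.range N, ∑ s ∈ Finset.range N, (V ((t : ℤ) - s) + V ((t : ℤ) + s + 3))
      ≤ 2 * N * ∑ k ∈ Finset.Ioo (-((2 * N + 2 : ℕ) : ℤ)) ((2 * N + 2 : ℕ) : ℤ), V k := by
  set I := Finset.Ioo (-((2 * N + 2 : ℕ) : ℤ)) ((2 * N + 2 : ℕ) : ℤ) with hI
  set Tot := ∑ k ∈ I, V k with hTot
  have hinj : ∀ f : ℕ → ℤ, (∀ x ∈ Finset.range N, f x ∈ I) → Set.InjOn f (Finset.range N) →
      ∑ x ∈ Finset.range N, V (f x) ≤ Tot := by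
    intro f hf hi
    rw [← Finset.sum_image (f := V) hi]
    refine Finset.sum_le_sum_of_subset_of_nonneg ?_ fun k _ _ => hV k
    intro k hk
    obtain ⟨x, hx, rfl⟩ := Finset.mem_image.1 hk
    exact hf x hx
  have hone : ∀ t ∈ Finset.range N, ∑ s ∈ Finset.range N, (V ((t : ℤ) - s) + V ((t : ℤ) + s + 3))
      ≤ 2 * Tot := by
    intro t ht
    rw [Finset.mem_range] at ht
    rw [Finset.sum_add_distrib]
    have h1 := hinj (fun s => (t : ℤ) - s) (fun s hs => by
      rw [Finset.mem_range] at hs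
      rw [hI, Finset.mem_Ioo]
      push_cast
      omega) (fun s _ s' _ he => by
      simp only at he
      omega)
    have h2 := hinj (fun s => (t : ℤ) + s + 3) (fun s hs => by
      rw [Finset.mem_range] at hs
      rw [hI, Finset.mem_Ioo]
      push_cast
      omega) (fun s _ s' _ he => by
      simp only at he
      omega)
    linarith
  refine (Finset.sum_le_sum hone).trans (le_of_eq ?_)
  rw [Finset.sum_const, Finset.card_range, nsmul_eq_mul]
  ring

/-- the Wick sums in the third order argument -/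
theorem norm_Gam_third (S : Setup U g a h φ) (L : JetLim U h a φ u) {ρ : ℂ → ℝ}
    (hρ : Test U (fun z => (ρ z : ℂ))) (hρ0 : ∀ z, 0 ≤ ρ z) (t s : ℤ) :
    ‖Gam u (fun z => (ρ z : ℂ)) t (-3 - t) (-s) (3 + s)‖ ≤ UU u ρ (t - s) + UU u ρ (t + s + 3) := by
  have hc : ∀ᵐ z ∂((volume : Measure ℂ).restrict U), ∀ k, u (-k) z = (starRingEnd ℂ) (u k z) :=
    ae_all_iff.2 fun k => L.conj S k
  have h3 := L.odd S.op (-3) (by decide)
  have hb : ∀ᵐ z ∂((volume : Measure ℂ).restrict U), ‖GW u t (-3 - t) (-s) (3 + s) z‖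
      ≤ ‖u (t - s) z‖ ^ 2 + ‖u (t + s + 3) z‖ ^ 2 := by
    filter_upwards [hc, h3] with z hz h3z
    unfold GW WW
    have e1 : t + (-3 - t) = -3 := by ring
    have e2 : t + -s = t - s := by ring
    have e3 : -3 - t + (3 + s) = -(t - s) := by ring
    have e4 : t + (3 + s) = t + s + 3 := by ring
    have e5 : -3 - t + -s = -(t + s + 3) := by ring
    rw [e1, e2, e3, e4, e5, h3z, hz, hz]
    have hn : ∀ k : ℤ, ‖(-1 : ℂ) ^ k‖ = 1 := fun k => by rw [norm_zpow, norm_neg, norm_one, one_zpow]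
    refine (norm_add_le _ _).trans ?_
    rw [mul_zero, zero_mul, zero_add]
    simp only [norm_mul, hn, RCLike.norm_conj, one_mul]
    rw [← pow_two, ← pow_two]
  have i1 := hρ.int_sq (L.loc (t - s))
  have i2 := hρ.int_sq (L.loc (t + s + 3))
  unfold Gam UU
  rw [← integral_add i1 i2]
  refine norm_integral_le_of_norm_le (i1.add i2) ?_
  rw [ae_restrict_iff' S.op.measurableSet] at hb
  filter_upwards [hb] with z hz
  rw [norm_mul, Complex.norm_real, Real.norm_of_nonneg (hρ0 z)]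
  by_cases hzU : z ∈ U
  · have := mul_le_mul_of_nonneg_left (hz hzU) (hρ0 z)
    linarith
  · have h0 : (ρ z : ℂ) = 0 := image_eq_zero_of_notMem_tsupport (f := fun z => (ρ z : ℂ))
      fun hh => hzU (hρ.sub hh)
    have h1 : ρ z = 0 := by exact_mod_cast h0
    simp [h1]


/-- **the correlations of three jets of total index zero vanish**, when the microlocal measure has
no directional atoms -/
theorem Setup.jets_three_var (S : Setup U g a h φ) (L : JetLim U h a φ u)
    (hN : ∀ ρ : ℂ → ℝ, Test U (fun z => (ρ z : ℂ)) → (∀ z, 0 ≤ ρ z) →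
      Tendsto (fun N : ℕ => (1 / (N : ℝ)) * ∑ k ∈ Finset.Ioo (-(N : ℤ)) (N : ℤ),
      ∫ z, ρ z * ‖u k z‖ ^ 2) atTop (𝓝 0))
    {ζ : ℂ → ℂ} (hζ : Test U ζ) (j m k : ℤ) (hs : j + m + k = 0) :
    Tendsto (fun n => ∫ z, ζ z * (E h a φ j n z * E h a φ m n z * E h a φ k n z))
      atTop (𝓝 0) := by
  have s3 := fun n j m k => ((S.sm2 j m).mul (S.tame_E k).smooth) n
  refine Test.induct_nonneg S.op (F := fun n ζ =>
      ∫ z, ζ z * (E h a φ j n z * E h a φ m n z * E h a φ k n z)) ?_ ?_ ?_ hζ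
  · intro n ζ ξ hζ hξ
    beta_reduce
    rw [Test.int_add S.op (s3 n j m k) hζ hξ]
  · intro n c ζ _
    beta_reduce
    rw [Test.int_smul]
  · intro ρ hρ hρ0
    have hρi : ∀ (f : ℂ → ℝ), ContinuousOn f U → Integrable (fun z => ρ z * f z) := by
      intro f hf
      have hρc : Continuous ρ := by
        have := Complex.continuous_re.comp hρ.smooth.continuous
        simpa [Function.comp_def] using this
      exact integrable_mul_of_tsupport S.op hρc (by
        unfold HasCompactSupport; rw [← Test.tsupport_eq]; exact hρ.supp) (by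
          rw [← Test.tsupport_eq]; exact hρ.sub) hf
    obtain ⟨C, hC⟩ := (S.bd2 3 (-3)).test (S.sm2 3 (-3)) hρ
    have hcjE : ∀ (k : ℤ) (n : ℕ), ∀ z ∈ U, (starRingEnd ℂ) (E h a φ k n z)
        = (-1 : ℂ) ^ k * E h a φ (-k) n z := fun k n z hz => S.conj_jet k n hz
    have key := alg_third_var (C := |C|) (V := fun n => ∫ z, ρ z * ‖E h a φ 3 n z‖ ^ 2)
      (X := fun n j m k l => ∫ z, (ρ z : ℂ)
      * (E h a φ j n z * E h a φ m n z * (E h a φ k n z * E h a φ l n z)))
      (W := YY h a φ u (fun z => (ρ z : ℂ))) (Γ := Gam u (fun z => (ρ z : ℂ)))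
      (Y := fun n j m k => ∫ z, (ρ z : ℂ) * (E h a φ j n z * E h a φ m n z * E h a φ k n z))
      (abs_nonneg C) ?_ (YY_12 S L hρ) (YY_23 S L hρ) (YY_mac S L hρ) ?_ ?_ ?_ ?_ ?_ ?_ ?_ ?_
      j m k hs
    · exact key
    · intro n j m k l
      unfold YY
      ring
    · have h4 := YY_ibp S L hρ 0 0 0 (-1)
      refine h4.congr fun n => ?_
      simp only [zero_add, neg_add_cancel]
    · intro n j m k
      refine MeasureTheory.integral_congr_ae (Filter.Eventually.of_forall fun z => ?_)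
      beta_reduce; ring
    · intro n j m k
      refine MeasureTheory.integral_congr_ae (Filter.Eventually.of_forall fun z => ?_)
      beta_reduce; ring
    · intro j m k
      exact S.ibp3 j m k hρ
    · intro j m k
      exact S.ibp3b j m k hρ
    · filter_upwards [hC] with n hn
      have e1 : ((∫ z, ρ z * ‖E h a φ 3 n z‖ ^ 2 : ℝ) : ℂ)
          = - ∫ z, (ρ z : ℂ) * (E h a φ 3 n z * E h a φ (-3) n z) := by
        rw [← integral_neg]
        have e0 : ((∫ z, ρ z * ‖E h a φ 3 n z‖ ^ 2 : ℝ) : ℂ)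
            = ∫ z, ((ρ z * ‖E h a φ 3 n z‖ ^ 2 : ℝ) : ℂ) := integral_ofReal.symm
        rw [e0]
        have e2 := hρ.integral_congr (f := fun z => ((‖E h a φ 3 n z‖ ^ 2 : ℝ) : ℂ))
          (f' := fun z => -(E h a φ 3 n z * E h a φ (-3) n z)) (fun z hz => by
            have h1 := hcjE 3 n z hz
            rw [show ((-1 : ℂ) ^ (3 : ℤ)) = -1 by norm_num] at h1
            rw [← Complex.normSq_eq_norm_sq, ← mul_conj, h1]
            ring)
        refine Eq.trans ?_ (e2.trans ?_)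
        · refine MeasureTheory.integral_congr_ae (Filter.Eventually.of_forall fun z => ?_)
          beta_reduce; push_cast; ring
        · refine MeasureTheory.integral_congr_ae (Filter.Eventually.of_forall fun z => ?_)
          beta_reduce; ring
      have e3 : |∫ z, ρ z * ‖E h a φ 3 n z‖ ^ 2| ≤ C := by
        rw [← Real.norm_eq_abs, ← Complex.norm_real, e1, norm_neg]
        exact hn
      exact (le_abs_self _).trans (e3.trans (le_abs_self C))
    · intro N n w l hl
      set T : ℂ → ℂ := fun z => ∑ t ∈ Finset.range N, (w t : ℂ) * (E h a φ t n z * E h a φ (-3 - t) n z)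
        with hT
      have hTs : ContDiffOn ℝ ∞ T U :=
        ContDiffOn.sum fun t _ => contDiffOn_const.mul ((S.sm2 t (-3 - t)) n)
      have e1 : ∑ t ∈ Finset.range N, (w t : ℂ) * ∫ z, (ρ z : ℂ)
          * (E h a φ t n z * E h a φ (-3 - t) n z * E h a φ 3 n z)
          = ∫ z, (ρ z : ℂ) * (T z * E h a φ 3 n z) := by
        simp only [← integral_const_mul]
        rw [← integral_finsetSum _ (fun t _ => (S.int3 hρ n _ _ _).const_mul _)]
        refine MeasureTheory.integral_congr_ae (Filter.Eventually.of_forall fun z => ?_)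
        beta_reduce
        rw [hT]
        beta_reduce
        rw [Finset.sum_mul, Finset.mul_sum]
        refine Finset.sum_congr rfl fun t _ => ?_
        ring
      have e2 : ((∫ z, ρ z * ‖T z‖ ^ 2 : ℝ) : ℂ) = -∑ t ∈ Finset.range N, ∑ u ∈ Finset.range N,
          (w t : ℂ) * (w u : ℂ) * ∫ z, (ρ z : ℂ) * (E h a φ t n z * E h a φ (-3 - t) n z
            * (E h a φ (-u) n z * E h a φ (3 + u) n z)) := by
        have e0 : ((∫ z, ρ z * ‖T z‖ ^ 2 : ℝ) : ℂ)
            = ∫ z, ((ρ z * ‖T z‖ ^ 2 : ℝ) : ℂ) := integral_ofReal.symm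
        rw [e0]
        have e3 := hρ.integral_congr (f := fun z => ((‖T z‖ ^ 2 : ℝ) : ℂ))
          (f' := fun z => -∑ t ∈ Finset.range N, ∑ u ∈ Finset.range N, (w t : ℂ) * (w u : ℂ)
            * (E h a φ t n z * E h a φ (-3 - t) n z * (E h a φ (-u) n z * E h a φ (3 + u) n z)))
          (fun z hz => by
            rw [← Complex.normSq_eq_norm_sq, ← mul_conj, hT]
            beta_reduce
            rw [map_sum, Finset.sum_mul_sum, ← Finset.sum_neg_distrib]
            refine Finset.sum_congr rfl fun t _ => ?_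
            rw [← Finset.sum_neg_distrib]
            refine Finset.sum_congr rfl fun u _ => ?_
            rw [map_mul, map_mul, hcjE _ n z hz, hcjE _ n z hz, conj_ofReal]
            have h1 : (-1 : ℂ) ^ ((u : ℕ) : ℤ) * (-1 : ℂ) ^ (-3 - (u : ℤ)) = -1 := by
              rw [← zpow_add₀ (by norm_num)]
              have : ((u : ℕ) : ℤ) + (-3 - (u : ℤ)) = -3 := by ring
              rw [this]; norm_num
            have h2 : -(-3 - (u : ℤ)) = 3 + u := by ring
            rw [h2]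
            linear_combination ((w t : ℂ) * (w u : ℂ) * (E h a φ t n z * E h a φ (-3 - t) n z)
              * (E h a φ (-u) n z * E h a φ (3 + u) n z)) * h1)
        refine Eq.trans ?_ (e3.trans ?_)
        · refine MeasureTheory.integral_congr_ae (Filter.Eventually.of_forall fun z => ?_)
          beta_reduce; push_cast; ring
        · simp only [← integral_const_mul]
          rw [← Finset.sum_neg_distrib]
          have e4 : ∀ t ∈ Finset.range N, -∑ u ∈ Finset.range N, ∫ z, (w t : ℂ) * (w u : ℂ)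
              * ((ρ z : ℂ) * (E h a φ t n z * E h a φ (-3 - t) n z
            * (E h a φ (-u) n z * E h a φ (3 + u) n z)))
              = ∫ z, -∑ u ∈ Finset.range N, (w t : ℂ) * (w u : ℂ)
              * ((ρ z : ℂ) * (E h a φ t n z * E h a φ (-3 - t) n z
            * (E h a φ (-u) n z * E h a φ (3 + u) n z))) := by
            intro t _
            rw [integral_neg, integral_finsetSum _ (fun u _ => (S.int4 hρ n _ _ _ _).const_mul _)]
          have i5 : ∀ t ∈ Finset.range N, Integrable (fun z => -∑ u ∈ Finset.range N,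
              (w t : ℂ) * (w u : ℂ) * ((ρ z : ℂ) * (E h a φ t n z * E h a φ (-3 - t) n z
            * (E h a φ (-u) n z * E h a φ (3 + u) n z)))) := fun t _ =>
            (integrable_finsetSum _ (fun u _ => (S.int4 hρ n _ _ _ _).const_mul _)).neg
          rw [Finset.sum_congr rfl e4, ← integral_finsetSum _ i5]
          refine MeasureTheory.integral_congr_ae (Filter.Eventually.of_forall fun z => ?_)
          beta_reduce
          rw [Finset.sum_neg_distrib, mul_neg, Finset.mul_sum]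
          congr 1
          refine Finset.sum_congr rfl fun t _ => ?_
          rw [Finset.mul_sum]
          refine Finset.sum_congr rfl fun u _ => ?_
          ring
      have e2' : (-∑ t ∈ Finset.range N, ∑ u ∈ Finset.range N,
          (w t : ℂ) * (w u : ℂ) * ∫ z, (ρ z : ℂ) * (E h a φ t n z * E h a φ (-3 - t) n z
            * (E h a φ (-u) n z * E h a φ (3 + u) n z))).re = ∫ z, ρ z * ‖T z‖ ^ 2 := by
        rw [← e2, ofReal_re]
      rw [e1, e2']
      have i1 : Integrable (fun z => ρ z * ‖E h a φ 3 n z‖ ^ 2) :=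
        hρi _ (((S.tame_E 3).smooth n).continuousOn.norm.pow 2)
      have i2 : Integrable (fun z => ρ z * ‖T z‖ ^ 2) := hρi _ (hTs.continuousOn.norm.pow 2)
      calc ‖∫ z, (ρ z : ℂ) * (T z * E h a φ 3 n z)‖
          ≤ ∫ z, ‖(ρ z : ℂ) * (T z * E h a φ 3 n z)‖ := norm_integral_le_integral_norm _
        _ ≤ ∫ z, (l * (ρ z * ‖E h a φ 3 n z‖ ^ 2) + l⁻¹ * (ρ z * ‖T z‖ ^ 2)) / 2 := by
            refine integral_mono_of_nonneg (Filter.Eventually.of_forall fun z => norm_nonneg _)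
              (((i1.const_mul l).add (i2.const_mul l⁻¹)).div_const 2)
              (Filter.Eventually.of_forall fun z => ?_)
            beta_reduce
            rw [norm_mul, norm_mul, Complex.norm_real, Real.norm_of_nonneg (hρ0 z)]
            have h1 : ‖T z‖ * ‖E h a φ 3 n z‖
                ≤ (l * ‖E h a φ 3 n z‖ ^ 2 + l⁻¹ * ‖T z‖ ^ 2) / 2 := by
              have h2 : 0 ≤ l⁻¹ * (l * ‖E h a φ 3 n z‖ - ‖T z‖) ^ 2 := by positivity
              have h3 : l⁻¹ * (l * ‖E h a φ 3 n z‖ - ‖T z‖) ^ 2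
                  = l * ‖E h a φ 3 n z‖ ^ 2 - 2 * (‖T z‖ * ‖E h a φ 3 n z‖)
                    + l⁻¹ * ‖T z‖ ^ 2 := by
                field_simp
                ring
              rw [h3] at h2
              linarith
            have := mul_le_mul_of_nonneg_left h1 (hρ0 z)
            linarith
        _ = (l * (∫ z, ρ z * ‖E h a φ 3 n z‖ ^ 2) + l⁻¹ * ∫ z, ρ z * ‖T z‖ ^ 2) / 2 := by
            rw [integral_div, integral_add (i1.const_mul l) (i2.const_mul l⁻¹),
              integral_const_mul, integral_const_mul]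
    · -- the Wick sums
      intro η hη
      obtain ⟨N₀, hN₀⟩ := (Metric.tendsto_atTop.1 (hN ρ hρ hρ0)) (η / 8) (by positivity)
      refine ⟨N₀ + 1, fun N hNN w hw => ?_⟩
      have hN1 : (1 : ℝ) ≤ N := by exact_mod_cast (by omega : 1 ≤ N)
      have hwn : ∀ t, ‖(w t : ℂ)‖ ≤ 1 := fun t => by
        rw [Complex.norm_real, Real.norm_eq_abs]; exact hw t
      have b1 : ‖∑ t ∈ Finset.range N, ∑ s ∈ Finset.range N,
          (w t : ℂ) * (w s : ℂ) * Gam u (fun z => (ρ z : ℂ)) t (-3 - t) (-s) (3 + s)‖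
          ≤ ∑ t ∈ Finset.range N, ∑ s ∈ Finset.range N, (UU u ρ ((t : ℤ) - s)
            + UU u ρ ((t : ℤ) + s + 3)) := by
        refine (norm_sum_le _ _).trans (Finset.sum_le_sum fun t _ => ?_)
        refine (norm_sum_le _ _).trans (Finset.sum_le_sum fun s _ => ?_)
        rw [norm_mul, norm_mul]
        calc ‖(w t : ℂ)‖ * ‖(w s : ℂ)‖ * ‖Gam u (fun z => (ρ z : ℂ)) t (-3 - t) (-s) (3 + s)‖
            ≤ 1 * 1 * (UU u ρ ((t : ℤ) - s) + UU u ρ ((t : ℤ) + s + 3)) := by
              gcongr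
              · exact hwn t
              · exact hwn s
              · exact norm_Gam_third S L hρ hρ0 t s
          _ = _ := by ring
      refine b1.trans ((sum_diff_le (fun k => UU_nonneg hρ0 k) N).trans ?_)
      set Tot := ∑ k ∈ Finset.Ioo (-((2 * N + 2 : ℕ) : ℤ)) ((2 * N + 2 : ℕ) : ℤ), UU u ρ k with hTot
      have h1 := hN₀ (2 * N + 2) (by omega)
      rw [dist_zero_right, Real.norm_eq_abs] at h1
      have h2 := (le_abs_self _).trans h1.le
      have hpos : (0 : ℝ) < ((2 * N + 2 : ℕ) : ℝ) := by positivity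
      have h3 : Tot ≤ η / 8 * ((2 * N + 2 : ℕ) : ℝ) := by
        have h4 : (1 / ((2 * N + 2 : ℕ) : ℝ)) * Tot ≤ η / 8 := h2
        rw [one_div, inv_mul_le_iff₀ hpos] at h4
        linarith
      calc 2 * (N : ℝ) * Tot ≤ 2 * N * (η / 8 * ((2 * N + 2 : ℕ) : ℝ)) := by gcongr
        _ ≤ 2 * N * (η / 8 * (4 * N)) := by
            gcongr
            push_cast
            linarith only [hN1]
        _ = η * (N : ℝ) ^ 2 := by ring

end

end QE


end

section

/-!
Parametric integrals over intervals: smoothness, Fubini for compactly supported functions, and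
uniqueness for Fourier coefficients (helper40, module QH_D3).
-/

open MeasureTheory Filter Topology Set
open scoped ContDiff

namespace QE

noncomputable section

section Param

variable {E : Type} [NormedAddCommGroup E] [NormedSpace ℝ E] [ProperSpace E]

/-- derivative of a parametric integral over an interval -/
theorem hasFDerivAt_param {F : Type} [NormedAddCommGroup F] [NormedSpace ℝ F]
    {f : ℝ × E → F} (hf : ContDiff ℝ 1 f) (a b : ℝ) (q₀ : E) :
    HasFDerivAt (fun q => ∫ t in a..b, f (t, q))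
      (∫ t in a..b, (fderiv ℝ f (t, q₀)).comp (ContinuousLinearMap.inr ℝ ℝ E)) q₀ := by
  have hc : Continuous f := hf.continuous
  have hd : Continuous (fderiv ℝ f) := hf.continuous_fderiv one_ne_zero
  have hd2 : Continuous fun p : ℝ × E =>
      (fderiv ℝ f p).comp (ContinuousLinearMap.inr ℝ ℝ E) := hd.clm_comp_const _
  obtain ⟨C, hC⟩ := (isCompact_uIcc (a := a) (b := b) |>.prod
    (isCompact_closedBall q₀ 1)).exists_bound_of_continuousOn hd2.continuousOn
  refine intervalIntegral.hasFDerivAt_integral_of_dominated_of_fderiv_le (s := Metric.ball q₀ 1)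
    (bound := fun _ => C)
    (F' := fun q t => (fderiv ℝ f (t, q)).comp (ContinuousLinearMap.inr ℝ ℝ E))
    (Metric.ball_mem_nhds q₀ one_pos) (Eventually.of_forall fun q => ?_) ?_ ?_ ?_ ?_ ?_
  · exact (hc.comp (continuous_id.prodMk continuous_const)).aestronglyMeasurable
  · exact (hc.comp (continuous_id.prodMk continuous_const)).intervalIntegrable _ _
  · exact (hd2.comp (continuous_id.prodMk continuous_const)).aestronglyMeasurable
  · refine ae_of_all _ fun t ht q hq => ?_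
    exact hC (t, q) ⟨uIoc_subset_uIcc ht, Metric.ball_subset_closedBall hq⟩
  · exact intervalIntegrable_const
  · refine ae_of_all _ fun t _ q _ => ?_
    have h1 : HasFDerivAt f (fderiv ℝ f (t, q)) (t, q) :=
      (hf.differentiable one_ne_zero (t, q)).hasFDerivAt
    exact h1.comp q (hasFDerivAt_prodMk_right t q)

theorem contDiff_param_nat (n : ℕ) : ∀ {F : Type} [NormedAddCommGroup F] [NormedSpace ℝ F]
    {f : ℝ × E → F}, ContDiff ℝ n f → ∀ a b : ℝ, ContDiff ℝ n (fun q => ∫ t in a..b, f (t, q)) := by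
  induction n with
  | zero =>
    intro F _ _ f hf a b
    have hc : Continuous f := hf.continuous
    refine contDiff_zero.2 ?_
    refine intervalIntegral.continuous_parametric_intervalIntegral_of_continuous' ?_ a b
    exact hc.comp (continuous_snd.prodMk continuous_fst)
  | succ n ih =>
    intro F _ _ f hf a b
    have hf1 : ContDiff ℝ 1 f := hf.of_le (by exact_mod_cast Nat.le_add_left 1 n)
    have hcast : ((n + 1 : ℕ) : WithTop ℕ∞) = (n : WithTop ℕ∞) + 1 := by push_cast; rfl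
    rw [hcast] at hf ⊢
    rw [contDiff_succ_iff_fderiv]
    refine ⟨fun q => (hasFDerivAt_param hf1 a b q).differentiableAt, ?_, ?_⟩
    · intro h
      exact absurd h (by simp)
    · have e : fderiv ℝ (fun q => ∫ t in a..b, f (t, q)) = fun q =>
          ∫ t in a..b, (fderiv ℝ f (t, q)).comp (ContinuousLinearMap.inr ℝ ℝ E) := by
        funext q
        exact (hasFDerivAt_param hf1 a b q).fderiv
      rw [e]
      have h2 : ContDiff ℝ n (fderiv ℝ f) := (contDiff_succ_iff_fderiv.1 hf).2.2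
      exact ih (f := fun p => (fderiv ℝ f p).comp (ContinuousLinearMap.inr ℝ ℝ E))
        (h2.clm_comp contDiff_const) a b

theorem contDiff_param {F : Type} [NormedAddCommGroup F] [NormedSpace ℝ F]
    {f : ℝ × E → F} (hf : ContDiff ℝ ∞ f) (a b : ℝ) :
    ContDiff ℝ ∞ (fun q => ∫ t in a..b, f (t, q)) :=
  contDiff_infty.2 fun n => contDiff_param_nat n (contDiff_infty.1 hf n) a b

end Param

section Fubini

variable {G : Type} [TopologicalSpace G] [MeasurableSpace G] [BorelSpace G]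
  [SecondCountableTopology G] [T2Space G] [LocallyCompactSpace G]

/-- Fubini for functions which vanish outside of a compact set -/
theorem integral_swap {μ : Measure G} [IsFiniteMeasureOnCompacts μ] {C : Set G} (hC : IsCompact C)
    {f : ℝ → G → ℂ} (hf : Continuous (Function.uncurry f)) {a b : ℝ}
    (h0 : ∀ r ∈ uIcc a b, ∀ g ∉ C, f r g = 0) :
    ∫ g, (∫ r in a..b, f r g) ∂μ = ∫ r in a..b, (∫ g, f r g ∂μ) := by
  have hμC : μ C < ⊤ := hC.measure_lt_top
  have h1 : ∀ r ∈ uIcc a b, ∫ g, f r g ∂μ = ∫ g in C, f r g ∂μ := fun r hr =>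
    (setIntegral_eq_integral_of_forall_compl_eq_zero fun g hg => h0 r hr g hg).symm
  have h2 : ∫ g, (∫ r in a..b, f r g) ∂μ = ∫ g in C, (∫ r in a..b, f r g) ∂μ := by
    refine (setIntegral_eq_integral_of_forall_compl_eq_zero fun g hg => ?_).symm
    rw [intervalIntegral.integral_congr (g := fun _ => (0 : ℂ)) fun r hr => h0 r hr g hg]
    simp
  have h3 : ∫ r in a..b, (∫ g, f r g ∂μ) = ∫ r in a..b, (∫ g in C, f r g ∂μ) :=
    intervalIntegral.integral_congr h1
  rw [h2, h3]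
  have : IsFiniteMeasure (μ.restrict C) := ⟨by simpa using hμC⟩
  obtain ⟨B, hB⟩ := (isCompact_uIcc (a := a) (b := b) |>.prod hC).exists_bound_of_continuousOn
    hf.continuousOn
  have hint : Integrable (Function.uncurry fun g r => f r g)
      ((μ.restrict C).prod (volume.restrict (uIoc a b))) := by
    have : IsFiniteMeasure ((volume : Measure ℝ).restrict (uIoc a b)) :=
      ⟨by simp [uIoc]⟩
    have hm : AEStronglyMeasurable (Function.uncurry fun g r => f r g)
        ((μ.restrict C).prod (volume.restrict (uIoc a b))) :=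
      (hf.comp (continuous_snd.prodMk continuous_fst)).aestronglyMeasurable
    refine Integrable.of_bound hm B ?_
    rw [Measure.prod_restrict]
    refine (ae_restrict_iff' (hC.measurableSet.prod measurableSet_uIoc)).2
      (Eventually.of_forall fun p hp => ?_)
    exact hB (p.2, p.1) ⟨uIoc_subset_uIcc hp.2, hp.1⟩
  simp only [intervalIntegral.intervalIntegral_eq_integral_uIoc]
  rw [integral_smul]
  congr 1
  exact integral_integral_swap hint

end Fubini

/-- a continuous periodic function with vanishing Fourier coefficients is zero -/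
theorem fourier_unique {τ : ℝ → ℂ} (hc : Continuous τ) (hp : Function.Periodic τ (2 * Real.pi))
    (h : ∀ k : ℤ, ∫ t in (0 : ℝ)..(2 * Real.pi), Complex.exp (-(k : ℂ) * t * Complex.I) * τ t = 0)
    (t : ℝ) : τ t = 0 := by
  have : Fact (0 < 2 * Real.pi) := ⟨by positivity⟩
  set T : AddCircle (2 * Real.pi) → ℂ := hp.lift with hT
  have hTc : Continuous T := by
    exact continuous_coinduced_dom.mpr hc
  set F : C(AddCircle (2 * Real.pi), ℂ) := ⟨T, hTc⟩ with hF
  have h0 : ∀ k : ℤ, fourierCoeff F k = 0 := by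
    intro k
    rw [fourierCoeff_eq_intervalIntegral _ k 0, zero_add]
    have e : ∀ x : ℝ, fourier (-k) (x : AddCircle (2 * Real.pi)) • F x =
        Complex.exp (-(k : ℂ) * x * Complex.I) * τ x := by
      intro x
      rw [fourier_coe_apply, smul_eq_mul]
      congr 2
      push_cast
      have : (Real.pi : ℂ) ≠ 0 := by exact_mod_cast Real.pi_ne_zero
      field_simp
    simp only [e, h k, smul_zero]
  have hs : Summable (fourierCoeff F) := by
    have : fourierCoeff F = fun _ => 0 := funext h0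
    rw [this]; exact summable_zero
  have h1 := hasSum_fourier_series_of_summable hs
  have h2 : HasSum (fun i => fourierCoeff F i • (fourier i : C(AddCircle (2 * Real.pi), ℂ)))
      0 := by
    have : (fun i => fourierCoeff F i • (fourier i : C(AddCircle (2 * Real.pi), ℂ))) =
        fun _ => 0 := by
      funext i; rw [h0 i, zero_smul]
    rw [this]; exact hasSum_zero
  have h3 : F = 0 := h1.unique h2
  have h4 : F (t : AddCircle (2 * Real.pi)) = 0 := by rw [h3]; rfl
  exact h4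

end

end QE


end

section

/-!
Linear coordinates on `SL(2, ℝ)` and the geodesic flow in these coordinates (helper40, QH_D3).
-/

open MeasureTheory Filter Topology Set
open UpperHalfPlane hiding I
open scoped ContDiff MatrixGroups

namespace QE

noncomputable section

/-- the two rows of a matrix, as complex numbers -/
def iota (g : SL(2, ℝ)) : ℂ × ℂ := (⟨g 0 1, g 0 0⟩, ⟨g 1 1, g 1 0⟩)

/-- the flow on rows -/
def fl (s : ℝ) (w : ℂ) : ℂ :=
  (Real.cosh (s / 2) : ℂ) * w - (Real.sinh (s / 2) : ℂ) * (starRingEnd ℂ) w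

/-- the flow on pairs of rows -/
def flq (s : ℝ) (q : ℂ × ℂ) : ℂ × ℂ := (fl s q.1, fl s q.2)

/-- generator of the flow -/
def Vq (q : ℂ × ℂ) : ℂ × ℂ := (-((starRingEnd ℂ) q.1) / 2, -((starRingEnd ℂ) q.2) / 2)

lemma iota_snd (g : SL(2, ℝ)) : (iota g).2 = den g Complex.I := by
  unfold iota den
  apply Complex.ext <;> simp

lemma iota_det (g : SL(2, ℝ)) :
    (iota g).1 * (starRingEnd ℂ) (iota g).2 - (starRingEnd ℂ) (iota g).1 * (iota g).2 =
      2 * Complex.I := by
  have h := g.det_coe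
  rw [Matrix.det_fin_two] at h
  unfold iota
  apply Complex.ext
  · simp
    try ring
  · simp
    linear_combination 2 * h

lemma iota_snd_ne (g : SL(2, ℝ)) : (iota g).2 ≠ 0 := by
  intro h
  have := iota_det g
  rw [h] at this
  simp at this

lemma smul_I_eq (g : SL(2, ℝ)) : ((g • UpperHalfPlane.I : ℍ) : ℂ) = (iota g).1 / (iota g).2 := by
  rw [coe_specialLinearGroup_apply, iota_snd]
  unfold iota den
  congr 1
  · apply Complex.ext <;> simp
  

lemma dirG_eq (g : SL(2, ℝ)) :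
    dirG g = Complex.I * ((starRingEnd ℂ) (iota g).2 / (iota g).2) := by
  unfold dirG phase
  rw [← iota_snd]
  have h := iota_snd_ne g
  have h2 : ((‖(iota g).2‖ : ℝ) : ℂ) ≠ 0 := by
    exact_mod_cast (norm_pos_iff.2 h).ne'
  have h3 : ((‖(iota g).2‖ : ℝ) : ℂ) ^ 2 = (iota g).2 * (starRingEnd ℂ) (iota g).2 := by
    rw [Complex.mul_conj, Complex.normSq_eq_norm_sq]; push_cast; rfl
  have h4 : (starRingEnd ℂ) (iota g).2 ≠ 0 := by
    rwa [Ne, map_eq_zero]
  rw [div_pow, h3]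
  congr 1
  field_simp

lemma norm_dirG_FI (g : SL(2, ℝ)) : ‖dirG g‖ = 1 := by
  rw [dirG_eq, norm_mul, norm_div, RCLike.norm_conj, Complex.norm_I,
    div_self (norm_pos_iff.2 (iota_snd_ne g)).ne', one_mul]

/-- the quotient `j / conj j` -/
lemma omega_eq (g : SL(2, ℝ)) :
    (iota g).2 / (starRingEnd ℂ) (iota g).2 = Complex.I * (starRingEnd ℂ) (dirG g) := by
  have h := iota_snd_ne g
  have h4 : (starRingEnd ℂ) (iota g).2 ≠ 0 := by
    rwa [Ne, map_eq_zero]
  rw [dirG_eq]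
  simp only [map_mul, map_div₀, Complex.conj_I, Complex.conj_conj]
  field_simp
  rw [Complex.I_sq]; ring

lemma im_smul_I (g : SL(2, ℝ)) :
    (((g • UpperHalfPlane.I : ℍ) : ℂ).im : ℂ) * ((iota g).2 * (starRingEnd ℂ) (iota g).2) = 1 := by
  have h := iota_snd_ne g
  have h4 : (starRingEnd ℂ) (iota g).2 ≠ 0 := by
    rwa [Ne, map_eq_zero]
  have hd := iota_det g
  rw [smul_I_eq, Complex.im_eq_sub_conj, map_div₀]
  field_simp
  linear_combination hd

lemma iota_neg (g : SL(2, ℝ)) : iota (-g) = -iota g := by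
  unfold iota
  refine Prod.ext (Complex.ext ?_ ?_) (Complex.ext ?_ ?_) <;> simp

lemma iota_mul_aS (g : SL(2, ℝ)) (s : ℝ) : iota (g * aS s) = flq s (iota g) := by
  have h1 := Real.cosh_add_sinh (s / 2)
  have h2 := Real.cosh_sub_sinh (s / 2)
  have e0 : ∀ i : Fin 2, (g * aS s) i 0 = g i 0 * Real.exp (s / 2) := fun i => by
    have : (g * aS s) i 0 = (g.1 * (aS s).1) i 0 := rfl
    rw [this]
    simp [aS, Matrix.mul_apply, Fin.sum_univ_two]
  have e1 : ∀ i : Fin 2, (g * aS s) i 1 = g i 1 * Real.exp (-(s / 2)) := fun i => by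
    have : (g * aS s) i 1 = (g.1 * (aS s).1) i 1 := rfl
    rw [this]
    simp [aS, Matrix.mul_apply, Fin.sum_univ_two]
  unfold iota flq fl
  rw [e0, e1, e0, e1]
  refine Prod.ext (Complex.ext ?_ ?_) (Complex.ext ?_ ?_)
  · simp only [Complex.sub_re, Complex.re_ofReal_mul, Complex.conj_re]
    linear_combination (-(g 0 1)) * h2
  · simp only [Complex.sub_im, Complex.im_ofReal_mul, Complex.conj_im]
    linear_combination (-(g 0 0)) * h1
  · simp only [Complex.sub_re, Complex.re_ofReal_mul, Complex.conj_re]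
    linear_combination (-(g 1 1)) * h2
  · simp only [Complex.sub_im, Complex.im_ofReal_mul, Complex.conj_im]
    linear_combination (-(g 1 0)) * h1

/-! ## topology -/

lemma iota_continuous : Continuous iota := by
  have h : ∀ i j : Fin 2, Continuous fun g : SL(2, ℝ) => g i j := fun i j =>
    (continuous_apply_apply i j).comp Matrix.SpecialLinearGroup.isClosedEmbedding_val.continuous
  unfold iota
  have h2 : ∀ f g : SL(2, ℝ) → ℝ, Continuous f → Continuous g →
      Continuous fun x => (⟨f x, g x⟩ : ℂ) := by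
    intro f g hf hg
    exact (Complex.equivRealProdCLM.symm.continuous.comp (hf.prodMk hg))
  exact (h2 _ _ (h 0 1) (h 0 0)).prodMk (h2 _ _ (h 1 1) (h 1 0))

/-- matrices as pairs of complex numbers -/
def matC (M : Matrix (Fin 2) (Fin 2) ℝ) : ℂ × ℂ := (⟨M 0 1, M 0 0⟩, ⟨M 1 1, M 1 0⟩)

def matCinv (q : ℂ × ℂ) : Matrix (Fin 2) (Fin 2) ℝ := !![q.1.im, q.1.re; q.2.im, q.2.re]

lemma matC_continuous : Continuous matC := by
  have h : ∀ i j : Fin 2, Continuous fun g : Matrix (Fin 2) (Fin 2) ℝ => g i j := fun i j =>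
    continuous_apply_apply i j
  have h2 : ∀ f g : Matrix (Fin 2) (Fin 2) ℝ → ℝ, Continuous f → Continuous g →
      Continuous fun x => (⟨f x, g x⟩ : ℂ) := by
    intro f g hf hg
    exact (Complex.equivRealProdCLM.symm.continuous.comp (hf.prodMk hg))
  exact (h2 _ _ (h 0 1) (h 0 0)).prodMk (h2 _ _ (h 1 1) (h 1 0))

lemma matCinv_continuous : Continuous matCinv := by
  refine continuous_matrix fun i j => ?_
  fin_cases i <;> fin_cases j <;> simp [matCinv] <;> fun_prop

/-- the linear homeomorphism between matrices and pairs of complex numbers -/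
def matCH : Matrix (Fin 2) (Fin 2) ℝ ≃ₜ ℂ × ℂ where
  toFun := matC
  invFun := matCinv
  left_inv M := by
    ext i j
    fin_cases i <;> fin_cases j <;> simp [matC, matCinv]
  right_inv q := by
    refine Prod.ext (Complex.ext ?_ ?_) (Complex.ext ?_ ?_) <;> simp [matC, matCinv]
  continuous_toFun := matC_continuous
  continuous_invFun := matCinv_continuous

lemma iota_closedEmbedding : IsClosedEmbedding iota :=
  matCH.isClosedEmbedding.comp Matrix.SpecialLinearGroup.isClosedEmbedding_val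

lemma iota_compact {C : Set (ℂ × ℂ)} (hC : IsCompact C) : IsCompact (iota ⁻¹' C) :=
  iota_closedEmbedding.isCompact_preimage hC

/-! ## the flow -/

/-- the flow on rows, as a real linear map -/
def flL (s : ℝ) : ℂ →L[ℝ] ℂ :=
  Real.cosh (s / 2) • ContinuousLinearMap.id ℝ ℂ - Real.sinh (s / 2) • (Complex.conjCLE : ℂ →L[ℝ] ℂ)

lemma flL_apply (s : ℝ) (w : ℂ) : flL s w = fl s w := by
  simp [flL, fl]

def flqL (s : ℝ) : ℂ × ℂ →L[ℝ] ℂ × ℂ := (flL s).prodMap (flL s)

lemma flqL_apply (s : ℝ) (q : ℂ × ℂ) : flqL s q = flq s q := by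
  show (flL s q.1, flL s q.2) = (fl s q.1, fl s q.2)
  rw [flL_apply, flL_apply]

lemma flq_add (s t : ℝ) (q : ℂ × ℂ) : flq s (flq t q) = flq (s + t) q := by
  have h1 : Real.cosh ((s + t) / 2) = Real.cosh (s / 2) * Real.cosh (t / 2) +
      Real.sinh (s / 2) * Real.sinh (t / 2) := by rw [add_div, Real.cosh_add]
  have h2 : Real.sinh ((s + t) / 2) = Real.sinh (s / 2) * Real.cosh (t / 2) +
      Real.cosh (s / 2) * Real.sinh (t / 2) := by rw [add_div, Real.sinh_add]
  have h : ∀ w : ℂ, fl s (fl t w) = fl (s + t) w := by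
    intro w
    unfold fl
    rw [h1, h2]
    simp only [map_sub, map_mul, Complex.conj_ofReal, Complex.conj_conj]
    push_cast
    ring
  exact Prod.ext (h q.1) (h q.2)

lemma flq_zero (q : ℂ × ℂ) : flq 0 q = q := by
  simp [flq, fl]

lemma flq_neg (s : ℝ) (q : ℂ × ℂ) : flq s (-q) = -flq s q := by
  rw [← flqL_apply, ← flqL_apply, map_neg]

lemma contDiff_flq : ContDiff ℝ ∞ fun p : ℝ × (ℂ × ℂ) => flq p.1 p.2 := by
  have h1 : ContDiff ℝ ∞ fun p : ℝ × (ℂ × ℂ) => ((Real.cosh (p.1 / 2) : ℝ) : ℂ) :=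
    Complex.ofRealCLM.contDiff.comp (Real.contDiff_cosh.comp (contDiff_fst.div_const 2))
  have h2 : ContDiff ℝ ∞ fun p : ℝ × (ℂ × ℂ) => ((Real.sinh (p.1 / 2) : ℝ) : ℂ) :=
    Complex.ofRealCLM.contDiff.comp (Real.contDiff_sinh.comp (contDiff_fst.div_const 2))
  have h3 : ContDiff ℝ ∞ fun p : ℝ × (ℂ × ℂ) => p.2.1 := contDiff_fst.comp contDiff_snd
  have h4 : ContDiff ℝ ∞ fun p : ℝ × (ℂ × ℂ) => p.2.2 := contDiff_snd.comp contDiff_snd
  have h5 : ContDiff ℝ ∞ fun w : ℂ => (starRingEnd ℂ) w := Complex.conjCLE.contDiff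
  unfold flq fl
  exact ((h1.mul h3).sub (h2.mul (h5.comp h3))).prodMk ((h1.mul h4).sub (h2.mul (h5.comp h4)))

lemma hasDerivAt_fl (s : ℝ) (w : ℂ) :
    HasDerivAt (fun s => fl s w) (-((starRingEnd ℂ) (fl s w)) / 2) s := by
  have h0 : HasDerivAt (fun s : ℝ => s / 2) (1 / 2) s := (hasDerivAt_id s).div_const 2
  have h1 : HasDerivAt (fun s : ℝ => ((Real.cosh (s / 2) : ℝ) : ℂ))
      ((Real.sinh (s / 2) * (1 / 2) : ℝ) : ℂ) s := (h0.cosh).ofReal_comp
  have h2 : HasDerivAt (fun s : ℝ => ((Real.sinh (s / 2) : ℝ) : ℂ))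
      ((Real.cosh (s / 2) * (1 / 2) : ℝ) : ℂ) s := (h0.sinh).ofReal_comp
  have h3 := (h1.mul_const w).sub (h2.mul_const ((starRingEnd ℂ) w))
  refine h3.congr_deriv ?_
  unfold fl
  simp only [map_sub, map_mul, Complex.conj_ofReal, Complex.conj_conj]
  push_cast
  ring

lemma hasDerivAt_flq (s : ℝ) (q : ℂ × ℂ) : HasDerivAt (fun s => flq s q) (Vq (flq s q)) s :=
  (hasDerivAt_fl s q.1).prodMk (hasDerivAt_fl s q.2)

lemma flq_Vq (s : ℝ) (q : ℂ × ℂ) : flq s (Vq q) = Vq (flq s q) := by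
  have h : ∀ w : ℂ, fl s (-((starRingEnd ℂ) w) / 2) = -((starRingEnd ℂ) (fl s w)) / 2 := by
    intro w
    unfold fl
    simp only [map_sub, map_mul, map_div₀, map_neg, Complex.conj_ofReal, Complex.conj_conj,
      map_ofNat]
    ring
  exact Prod.ext (h q.1) (h q.2)

lemma continuous_Vq : Continuous Vq := by
  unfold Vq
  have : Continuous fun w : ℂ => (starRingEnd ℂ) w := Complex.continuous_conj
  fun_prop

/-- the geodesic vector field applied to a function -/
def XX (H : ℂ × ℂ → ℂ) (q : ℂ × ℂ) : ℂ := fderiv ℝ H q (Vq q)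

lemma XX_flq {H : ℂ × ℂ → ℂ} (hH : Differentiable ℝ H) (s : ℝ) (q : ℂ × ℂ) :
    XX (fun q => H (flq s q)) q = fderiv ℝ H (flq s q) (Vq (flq s q)) := by
  unfold XX
  have h1 : HasFDerivAt (fun q => flq s q) (flqL s) q := by
    have := (flqL s).hasFDerivAt (x := q)
    exact this.congr_of_eventuallyEq (Eventually.of_forall fun q => (flqL_apply s q).symm)
  have h2 := ((hH (flq s q)).hasFDerivAt.comp q h1).fderiv
  have h3 : fderiv ℝ (fun q => H (flq s q)) q = (fderiv ℝ H (flq s q)).comp (flqL s) := h2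
  rw [h3, ContinuousLinearMap.comp_apply, flqL_apply, flq_Vq]

lemma hasDerivAt_H {H : ℂ × ℂ → ℂ} (hH : Differentiable ℝ H) (s : ℝ) (q : ℂ × ℂ) :
    HasDerivAt (fun s => H (flq s q)) (XX (fun q => H (flq s q)) q) s := by
  rw [XX_flq hH]
  exact (hH (flq s q)).hasFDerivAt.comp_hasDerivAt s (hasDerivAt_flq s q)

end

end QE


end

section

/-!
Measures on `SL(2, ℝ)` are determined by the integrals of smooth functions of the matrix entries; a
measure which is killed by the geodesic vector field is flow invariant (helper40, QH_D3).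
-/

open MeasureTheory Filter Topology Set
open UpperHalfPlane hiding I
open scoped ContDiff MatrixGroups

namespace QE

noncomputable section

lemma _root_.ContDiff.ofReal_comp' {f : ℂ × ℂ → ℝ} (hf : ContDiff ℝ ∞ f) :
    ContDiff ℝ ∞ fun q => (f q : ℂ) := Complex.ofRealCLM.contDiff.comp hf

/-- a measure on `ℂ × ℂ` is determined by the integrals of smooth compactly supported functions -/
theorem measure_ext_smooth {μ ν : Measure (ℂ × ℂ)} [IsFiniteMeasureOnCompacts μ]
    [IsFiniteMeasureOnCompacts ν]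
    (h : ∀ H : ℂ × ℂ → ℂ, ContDiff ℝ ∞ H → HasCompactSupport H → ∫ q, H q ∂μ = ∫ q, H q ∂ν) :
    μ = ν := by
  -- bounded open sets
  have key : ∀ (μ : Measure (ℂ × ℂ)) [IsFiniteMeasureOnCompacts μ] (U : Set (ℂ × ℂ)),
      IsOpen U → Bornology.IsBounded U → ∀ f : ℂ × ℂ → ℝ, Function.support f = U →
      Continuous f → (∀ q, 0 ≤ f q) →
      Tendsto (fun n : ℕ => ∫ q, ((1 - Real.exp (-(n * f q)) : ℝ) : ℂ) ∂μ) atTop
        (𝓝 ((μ.real U : ℝ) : ℂ)) := by
    intro μ _ U hU hb f hf hfc hf0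
    have hμU : μ U < ⊤ := (measure_mono subset_closure).trans_lt
      (hb.isCompact_closure.measure_lt_top)
    have e : ((μ.real U : ℝ) : ℂ) = ∫ q, U.indicator (fun _ => (1 : ℂ)) q ∂μ := by
      rw [integral_indicator hU.measurableSet]
      simp [Measure.real]
    rw [e]
    refine tendsto_integral_of_dominated_convergence (U.indicator fun _ => (1 : ℝ)) ?_ ?_ ?_ ?_
    · intro n
      exact (Complex.continuous_ofReal.comp (by fun_prop)).aestronglyMeasurable
    · exact (integrable_indicator_iff hU.measurableSet).2 (integrableOn_const hμU.ne)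
    · intro n
      refine ae_of_all _ fun q => ?_
      by_cases hq : q ∈ U
      · rw [indicator_of_mem hq, Complex.norm_real, Real.norm_eq_abs, abs_le]
        have h1 : Real.exp (-(n * f q)) ≤ 1 := by
          rw [Real.exp_le_one_iff]
          have := mul_nonneg (Nat.cast_nonneg (α := ℝ) n) (hf0 q)
          linarith
        have h2 := (Real.exp_pos (-(n * f q))).le
        constructor <;> linarith
      · have : f q = 0 := by
          rw [← hf] at hq
          simpa using hq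
        rw [indicator_of_notMem hq, this]
        simp
    · refine ae_of_all _ fun q => ?_
      by_cases hq : q ∈ U
      · have hpos : 0 < f q := by
          rw [← hf] at hq
          exact lt_of_le_of_ne (hf0 q) (Ne.symm hq)
        rw [indicator_of_mem hq]
        have h1 : Tendsto (fun n : ℕ => (1 - Real.exp (-(n * f q)) : ℝ)) atTop (𝓝 (1 - 0)) := by
          refine tendsto_const_nhds.sub (Real.tendsto_exp_neg_atTop_nhds_zero.comp ?_)
          exact tendsto_natCast_atTop_atTop.atTop_mul_const hpos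
        rw [sub_zero] at h1
        have h2 := (Complex.continuous_ofReal.tendsto 1).comp h1
        rw [Complex.ofReal_one] at h2
        exact h2
      · have : f q = 0 := by
          rw [← hf] at hq
          simpa using hq
        rw [indicator_of_notMem hq, this]
        simp
  have hopen : ∀ U : Set (ℂ × ℂ), IsOpen U → Bornology.IsBounded U → μ U = ν U := by
    intro U hU hb
    obtain ⟨f, hf, hfs, hfr⟩ := hU.exists_contDiff_support_eq (n := ⊤)
    have hf0 : ∀ q, 0 ≤ f q := fun q => (hfr (mem_range_self q)).1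
    have h1 := key μ U hU hb f hf hfs.continuous hf0
    have h2 := key ν U hU hb f hf hfs.continuous hf0
    have h3 : ∀ n : ℕ, ∫ q, ((1 - Real.exp (-(n * f q)) : ℝ) : ℂ) ∂μ =
        ∫ q, ((1 - Real.exp (-(n * f q)) : ℝ) : ℂ) ∂ν := by
      intro n
      refine h (fun q => ((1 - Real.exp (-(n * f q)) : ℝ) : ℂ)) ?_ ?_
      · have hr : ContDiff ℝ ∞ (fun q : ℂ × ℂ => -((n : ℝ) * f q)) := (contDiff_const.mul hfs).neg
        have hr2 : ContDiff ℝ ∞ (fun q : ℂ × ℂ => 1 - Real.exp (-((n : ℝ) * f q))) :=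
          contDiff_const.sub hr.exp
        exact hr2.ofReal_comp'
      · refine HasCompactSupport.intro hb.isCompact_closure fun q hq => ?_
        have hq' : q ∉ U := fun h => hq (subset_closure h)
        have : f q = 0 := by
          rw [← hf] at hq'
          simpa using hq'
        simp [this]
    have h4 := tendsto_nhds_unique h1 (h2.congr fun n => (h3 n).symm)
    have h5 : μ.real U = ν.real U := by exact_mod_cast h4
    have hμU : μ U ≠ ⊤ := ((measure_mono subset_closure).trans_lt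
      (hb.isCompact_closure.measure_lt_top)).ne
    have hνU : ν U ≠ ⊤ := ((measure_mono subset_closure).trans_lt
      (hb.isCompact_closure.measure_lt_top)).ne
    exact (ENNReal.toReal_eq_toReal_iff' hμU hνU).1 h5
  have hbasis : TopologicalSpace.IsTopologicalBasis
      {U : Set (ℂ × ℂ) | IsOpen U ∧ Bornology.IsBounded U} := by
    refine TopologicalSpace.isTopologicalBasis_of_isOpen_of_nhds (fun U hU => hU.1) ?_
    intro a U ha hU
    refine ⟨U ∩ Metric.ball a 1, ⟨hU.inter Metric.isOpen_ball,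
      Metric.isBounded_ball.subset inter_subset_right⟩, ⟨ha, Metric.mem_ball_self one_pos⟩,
      inter_subset_left⟩
  refine Measure.ext_of_generateFrom_of_iUnion {U : Set (ℂ × ℂ) | IsOpen U ∧ Bornology.IsBounded U}
    (fun n : ℕ => Metric.ball 0 n) ?_ ?_ ?_ ?_ ?_ ?_
  · rw [← hbasis.borel_eq_generateFrom]
    exact BorelSpace.measurable_eq
  · rintro U ⟨hU, hUb⟩ V ⟨hV, -⟩ -
    exact ⟨hU.inter hV, hUb.subset inter_subset_left⟩
  · exact Metric.iUnion_ball_nat 0
  · exact fun n => ⟨Metric.isOpen_ball, Metric.isBounded_ball⟩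
  · exact fun n => ((measure_mono subset_closure).trans_lt
      (Metric.isBounded_ball.isCompact_closure.measure_lt_top)).ne
  · exact fun U hU => hopen U hU.1 hU.2

variable [MeasurableSpace SL(2, ℝ)] [BorelSpace SL(2, ℝ)]

lemma iota_measurableEmbedding : MeasurableEmbedding iota :=
  iota_closedEmbedding.measurableEmbedding

lemma map_iota_finite (μ : Measure SL(2, ℝ)) [IsFiniteMeasureOnCompacts μ] :
    IsFiniteMeasureOnCompacts (μ.map iota) := by
  refine ⟨fun K hK => ?_⟩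
  rw [iota_measurableEmbedding.map_apply]
  exact (iota_compact hK).measure_lt_top

/-- a measure on `SL(2, ℝ)` is determined by smooth functions of the matrix -/
theorem measure_ext_iota {μ ν : Measure SL(2, ℝ)} [IsFiniteMeasureOnCompacts μ]
    [IsFiniteMeasureOnCompacts ν]
    (h : ∀ H : ℂ × ℂ → ℂ, ContDiff ℝ ∞ H → HasCompactSupport H →
      ∫ g, H (iota g) ∂μ = ∫ g, H (iota g) ∂ν) : μ = ν := by
  have := map_iota_finite μ
  have := map_iota_finite ν
  have h1 : μ.map iota = ν.map iota := by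
    refine measure_ext_smooth fun H hH hc => ?_
    rw [iota_measurableEmbedding.integral_map, iota_measurableEmbedding.integral_map]
    exact h H hH hc
  have h2 := congrArg (Measure.comap iota) h1
  rwa [iota_measurableEmbedding.comap_map, iota_measurableEmbedding.comap_map] at h2

omit [MeasurableSpace SL(2, ℝ)] [BorelSpace SL(2, ℝ)] in
lemma iota_hasCompactSupport {H : ℂ × ℂ → ℂ} (hc : HasCompactSupport H) :
    HasCompactSupport fun g => H (iota g) := by
  refine HasCompactSupport.intro (iota_compact hc) fun g hg => ?_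
  exact image_eq_zero_of_notMem_tsupport hg

lemma integrable_iota {μ : Measure SL(2, ℝ)} [IsFiniteMeasureOnCompacts μ] {H : ℂ × ℂ → ℂ}
    (hH : Continuous H) (hc : HasCompactSupport H) : Integrable (fun g => H (iota g)) μ :=
  (hH.comp iota_continuous).integrable_of_hasCompactSupport (iota_hasCompactSupport hc)

omit [MeasurableSpace SL(2, ℝ)] [BorelSpace SL(2, ℝ)] in
lemma flq_continuous (s : ℝ) : Continuous (flq s) := by
  have := (flqL s).continuous
  exact this.congr fun q => flqL_apply s q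

omit [MeasurableSpace SL(2, ℝ)] [BorelSpace SL(2, ℝ)] in
lemma contDiff_flq_right (s : ℝ) : ContDiff ℝ ∞ (flq s) := by
  have e : flq s = flqL s := funext fun q => (flqL_apply s q).symm
  rw [e]
  exact (flqL s).contDiff

omit [MeasurableSpace SL(2, ℝ)] [BorelSpace SL(2, ℝ)] in
lemma flq_hasCompactSupport {H : ℂ × ℂ → ℂ} (hc : HasCompactSupport H) (s : ℝ) :
    HasCompactSupport fun q => H (flq s q) := by
  refine HasCompactSupport.intro (K := (flq (-s)) '' tsupport H)
    (IsCompact.image hc (flq_continuous _)) fun q hq => ?_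
  by_contra h
  refine hq ⟨flq s q, subset_tsupport _ h, ?_⟩
  rw [flq_add, neg_add_cancel, flq_zero]

omit [MeasurableSpace SL(2, ℝ)] [BorelSpace SL(2, ℝ)] in
lemma continuous_flq_comp {X : Type} [TopologicalSpace X] {a : X → ℝ} {b : X → ℂ × ℂ}
    (ha : Continuous a) (hb : Continuous b) : Continuous fun x => flq (a x) (b x) := by
  unfold flq fl
  fun_prop

/-- if the vector field integrates to zero, the measure is invariant -/
theorem flow_const {μ : Measure SL(2, ℝ)} [IsFiniteMeasureOnCompacts μ]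
    (hT : ∀ H : ℂ × ℂ → ℂ, ContDiff ℝ ∞ H → HasCompactSupport H →
      ∫ g, XX H (iota g) ∂μ = 0) {H : ℂ × ℂ → ℂ} (hH : ContDiff ℝ ∞ H)
    (hc : HasCompactSupport H) (s : ℝ) :
    ∫ g, H (flq s (iota g)) ∂μ = ∫ g, H (iota g) ∂μ := by
  have hd : Differentiable ℝ H := hH.differentiable (by simp)
  have hfc : Continuous (fderiv ℝ H) := hH.continuous_fderiv (by simp)
  -- the integrand
  have hcont : Continuous (Function.uncurry fun (r : ℝ) (g : SL(2, ℝ)) =>
      XX (fun q => H (flq r q)) (iota g)) := by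
    have e : (Function.uncurry fun (r : ℝ) (g : SL(2, ℝ)) => XX (fun q => H (flq r q)) (iota g)) =
        fun p : ℝ × SL(2, ℝ) => fderiv ℝ H (flq p.1 (iota p.2)) (Vq (flq p.1 (iota p.2))) := by
      funext p
      exact XX_flq hd p.1 (iota p.2)
    rw [e]
    have h1 : Continuous fun p : ℝ × SL(2, ℝ) => flq p.1 (iota p.2) :=
      continuous_flq_comp continuous_fst (iota_continuous.comp continuous_snd)
    exact (hfc.comp h1).clm_apply (continuous_Vq.comp h1)
  set K : Set (ℂ × ℂ) := (fun p : ℝ × (ℂ × ℂ) => flq (-p.1) p.2) '' (uIcc 0 s ×ˢ tsupport H)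
    with hK
  have hKc : IsCompact K := by
    have k1 : IsCompact (tsupport H) := hc
    have k2 : IsCompact (uIcc 0 s ×ˢ tsupport H) := isCompact_uIcc.prod k1
    have k4 : Continuous fun p : ℝ × (ℂ × ℂ) => flq (-p.1) p.2 :=
      continuous_flq_comp continuous_fst.neg continuous_snd
    exact k2.image k4
  have hzero : ∀ r ∈ uIcc 0 s, ∀ g ∉ iota ⁻¹' K, XX (fun q => H (flq r q)) (iota g) = 0 := by
    intro r hr g hg
    have h1 : flq r (iota g) ∉ tsupport H := by
      intro h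
      refine hg ⟨(r, flq r (iota g)), ⟨hr, h⟩, ?_⟩
      simp only [flq_add, neg_add_cancel, flq_zero]
    rw [XX_flq hd]
    have h2 : fderiv ℝ H (flq r (iota g)) = 0 := by
      by_contra h
      exact h1 (support_fderiv_subset ℝ h)
    rw [h2]; rfl
  have hswap := integral_swap (μ := μ) (iota_compact hKc) hcont hzero
  have h0 : ∀ r : ℝ, ∫ g, XX (fun q => H (flq r q)) (iota g) ∂μ = 0 := fun r =>
    hT _ (hH.comp (contDiff_flq_right r)) (flq_hasCompactSupport hc r)
  simp only [h0, intervalIntegral.integral_zero] at hswap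
  have hftc : ∀ g : SL(2, ℝ), ∫ r in (0 : ℝ)..s, XX (fun q => H (flq r q)) (iota g) =
      H (flq s (iota g)) - H (iota g) := by
    intro g
    have h1 := intervalIntegral.integral_eq_sub_of_hasDerivAt (a := 0) (b := s)
      (f := fun r => H (flq r (iota g)))
      (f' := fun r => XX (fun q => H (flq r q)) (iota g))
      (fun r _ => hasDerivAt_H hd r (iota g))
      ((hcont.comp (continuous_id.prodMk continuous_const)).intervalIntegrable _ _)
    rw [h1, flq_zero]
  simp only [hftc] at hswap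
  have i1 : Integrable (fun g => H (flq s (iota g))) μ :=
    integrable_iota (H := fun q => H (flq s q)) (hH.continuous.comp (flq_continuous s))
      (flq_hasCompactSupport hc s)
  have i2 : Integrable (fun g => H (iota g)) μ := integrable_iota hH.continuous hc
  have e := integral_sub i1 i2
  rw [hswap] at e
  exact sub_eq_zero.1 e.symm

theorem right_of_XX {μ : Measure SL(2, ℝ)} [IsFiniteMeasureOnCompacts μ]
    (hT : ∀ H : ℂ × ℂ → ℂ, ContDiff ℝ ∞ H → HasCompactSupport H →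
      ∫ g, XX H (iota g) ∂μ = 0) (s : ℝ) : Measure.map (fun g => g * aS s) μ = μ := by
  have hme : MeasurableEmbedding fun g : SL(2, ℝ) => g * aS s :=
    (Homeomorph.mulRight (aS s)).measurableEmbedding
  have : IsFiniteMeasureOnCompacts (Measure.map (fun g => g * aS s) μ) := by
    refine ⟨fun K hK => ?_⟩
    rw [hme.map_apply]
    exact ((Homeomorph.mulRight (aS s)).isCompact_preimage.2 hK).measure_lt_top
  refine measure_ext_iota fun H hH hc => ?_
  rw [hme.integral_map]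
  simp only [iota_mul_aS]
  exact flow_const hT hH hc s

end

end QE


end

section

/-!
Fourier components under right rotations (helper40, QH_D3).
-/

open MeasureTheory Filter Topology Set
open UpperHalfPlane hiding I
open scoped ContDiff MatrixGroups

namespace QE

noncomputable section

/-- right rotation, in linear coordinates -/
def rq (φ : ℝ) (q : ℂ × ℂ) : ℂ × ℂ :=
  (Complex.exp (φ * Complex.I) * q.1, Complex.exp (φ * Complex.I) * q.2)

/-- the Fourier component of a function -/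
def Hk (k : ℤ) (H : ℂ × ℂ → ℂ) (q : ℂ × ℂ) : ℂ :=
  ∫ φ in (0 : ℝ)..(2 * Real.pi), Complex.exp (-(k : ℂ) * φ * Complex.I) * H (rq φ q)

lemma norm_e (φ : ℝ) : ‖Complex.exp (φ * Complex.I)‖ = 1 := Complex.norm_exp_ofReal_mul_I φ

lemma norm_rq (φ : ℝ) (q : ℂ × ℂ) : ‖rq φ q‖ = ‖q‖ := by
  unfold rq
  rw [Prod.norm_def, Prod.norm_def]
  simp only [norm_mul, norm_e, one_mul]

lemma rq_add (φ ψ : ℝ) (q : ℂ × ℂ) : rq φ (rq ψ q) = rq (φ + ψ) q := by
  have h : Complex.exp (((φ + ψ : ℝ) : ℂ) * Complex.I) =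
      Complex.exp (φ * Complex.I) * Complex.exp (ψ * Complex.I) := by
    rw [← Complex.exp_add]; push_cast; ring_nf
  unfold rq
  rw [h]
  refine Prod.ext ?_ ?_ <;> simp only [mul_assoc]

lemma rq_two_pi (φ : ℝ) (q : ℂ × ℂ) : rq (φ + 2 * Real.pi) q = rq φ q := by
  have h : Complex.exp (((φ + 2 * Real.pi : ℝ) : ℂ) * Complex.I) = Complex.exp (φ * Complex.I) := by
    push_cast
    rw [add_mul, Complex.exp_add, Complex.exp_two_pi_mul_I, mul_one]
  unfold rq
  rw [h]

lemma rq_pi (φ : ℝ) (q : ℂ × ℂ) : rq (φ + Real.pi) q = rq φ (-q) := by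
  have h : Complex.exp (((φ + Real.pi : ℝ) : ℂ) * Complex.I) = -Complex.exp (φ * Complex.I) := by
    push_cast
    rw [add_mul, Complex.exp_add, Complex.exp_pi_mul_I]; ring
  unfold rq
  rw [h]
  refine Prod.ext ?_ ?_ <;> simp

lemma contDiff_exp_mul (c : ℂ) : ContDiff ℝ ∞ fun p : ℝ × (ℂ × ℂ) =>
    Complex.exp (c * (p.1 : ℂ) * Complex.I) := by
  have h0 : ContDiff ℝ ∞ fun p : ℝ × (ℂ × ℂ) => ((p.1 : ℝ) : ℂ) :=
    Complex.ofRealCLM.contDiff.comp contDiff_fst
  exact ((contDiff_const.mul h0).mul contDiff_const).cexp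

lemma contDiff_rq : ContDiff ℝ ∞ fun p : ℝ × (ℂ × ℂ) => rq p.1 p.2 := by
  have h0 : ContDiff ℝ ∞ fun p : ℝ × (ℂ × ℂ) => ((p.1 : ℝ) : ℂ) :=
    Complex.ofRealCLM.contDiff.comp contDiff_fst
  have h1 : ContDiff ℝ ∞ fun p : ℝ × (ℂ × ℂ) => Complex.exp ((p.1 : ℂ) * Complex.I) :=
    (h0.mul contDiff_const).cexp
  have h3 : ContDiff ℝ ∞ fun p : ℝ × (ℂ × ℂ) => p.2.1 := contDiff_fst.comp contDiff_snd
  have h4 : ContDiff ℝ ∞ fun p : ℝ × (ℂ × ℂ) => p.2.2 := contDiff_snd.comp contDiff_snd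
  unfold rq
  exact (h1.mul h3).prodMk (h1.mul h4)

lemma contDiff_fk (k : ℤ) {H : ℂ × ℂ → ℂ} (hH : ContDiff ℝ ∞ H) :
    ContDiff ℝ ∞ fun p : ℝ × (ℂ × ℂ) =>
      Complex.exp (-(k : ℂ) * p.1 * Complex.I) * H (rq p.1 p.2) :=
  (contDiff_exp_mul (-(k : ℂ))).mul (hH.comp contDiff_rq)

lemma Hk_smooth (k : ℤ) {H : ℂ × ℂ → ℂ} (hH : ContDiff ℝ ∞ H) : ContDiff ℝ ∞ (Hk k H) :=
  contDiff_param (contDiff_fk k hH) 0 (2 * Real.pi)

/-- rotation, linear -/
def rqL (φ : ℝ) : ℂ × ℂ →L[ℝ] ℂ × ℂ :=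
  (Complex.exp (φ * Complex.I)) • ContinuousLinearMap.id ℝ (ℂ × ℂ)

lemma rqL_apply (φ : ℝ) (q : ℂ × ℂ) : rqL φ q = rq φ q := by
  simp [rqL, rq, Prod.smul_def]

lemma XX_rq {H : ℂ × ℂ → ℂ} (hH : Differentiable ℝ H) (φ : ℝ) (q : ℂ × ℂ) :
    XX (fun q => H (rq φ q)) q = fderiv ℝ H (rq φ q) (rq φ (Vq q)) := by
  unfold XX
  have h1 : HasFDerivAt (fun q => rq φ q) (rqL φ) q := by
    have := (rqL φ).hasFDerivAt (x := q)
    exact this.congr_of_eventuallyEq (Eventually.of_forall fun q => (rqL_apply φ q).symm)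
  have h2 := ((hH (rq φ q)).hasFDerivAt.comp q h1).fderiv
  have h3 : fderiv ℝ (fun q => H (rq φ q)) q = (fderiv ℝ H (rq φ q)).comp (rqL φ) := h2
  rw [h3, ContinuousLinearMap.comp_apply, rqL_apply]

lemma continuous_rq_comp {X : Type} [TopologicalSpace X] {a : X → ℝ} {b : X → ℂ × ℂ}
    (ha : Continuous a) (hb : Continuous b) : Continuous fun x => rq (a x) (b x) := by
  unfold rq
  fun_prop

lemma continuous_XX_rq {H : ℂ × ℂ → ℂ} (hH : ContDiff ℝ ∞ H) {X : Type} [TopologicalSpace X]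
    {a : X → ℝ} {b : X → ℂ × ℂ} (ha : Continuous a) (hb : Continuous b) :
    Continuous fun x => XX (fun q => H (rq (a x) q)) (b x) := by
  have hd : Differentiable ℝ H := hH.differentiable (by simp)
  have hfc : Continuous (fderiv ℝ H) := hH.continuous_fderiv (by simp)
  simp only [XX_rq hd]
  exact (hfc.comp (continuous_rq_comp ha hb)).clm_apply
    (continuous_rq_comp ha (continuous_Vq.comp hb))

/-- the vector field and the Fourier components -/
lemma XX_Hk (k : ℤ) {H : ℂ × ℂ → ℂ} (hH : ContDiff ℝ ∞ H) (q : ℂ × ℂ) :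
    XX (Hk k H) q = ∫ φ in (0 : ℝ)..(2 * Real.pi), Complex.exp (-(k : ℂ) * φ * Complex.I) *
      XX (fun q => H (rq φ q)) q := by
  have hf := contDiff_fk k hH
  have hd : Differentiable ℝ H := hH.differentiable (by simp)
  have h1 := (hasFDerivAt_param (hf.of_le (by simp)) 0 (2 * Real.pi) q).fderiv
  have h2 : XX (Hk k H) q = (∫ t in (0:ℝ)..(2 * Real.pi), (fderiv ℝ (fun p : ℝ × (ℂ × ℂ) =>
      Complex.exp (-(k : ℂ) * p.1 * Complex.I) * H (rq p.1 p.2)) (t, q)).comp
        (ContinuousLinearMap.inr ℝ ℝ (ℂ × ℂ))) (Vq q) := by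
    unfold XX
    rw [← h1]
    rfl
  rw [h2]
  have hint : IntervalIntegrable (fun t : ℝ => (fderiv ℝ (fun p : ℝ × (ℂ × ℂ) =>
      Complex.exp (-(k : ℂ) * p.1 * Complex.I) * H (rq p.1 p.2)) (t, q)).comp
        (ContinuousLinearMap.inr ℝ ℝ (ℂ × ℂ))) volume 0 (2 * Real.pi) := by
    refine Continuous.intervalIntegrable ?_ _ _
    have hc := hf.continuous_fderiv (by simp)
    exact (hc.comp (continuous_id.prodMk continuous_const)).clm_comp_const _
  rw [ContinuousLinearMap.intervalIntegral_apply hint]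
  refine intervalIntegral.integral_congr fun t _ => ?_
  simp only [ContinuousLinearMap.comp_apply]
  have h3 : HasFDerivAt (fun q' : ℂ × ℂ => (t, q')) (ContinuousLinearMap.inr ℝ ℝ (ℂ × ℂ)) q :=
    hasFDerivAt_prodMk_right t q
  have h4 := ((hf.differentiable (by simp)) (t, q)).hasFDerivAt.comp q h3
  have h5 : HasFDerivAt (fun q' : ℂ × ℂ => Complex.exp (-(k : ℂ) * t * Complex.I) * H (rq t q'))
      ((fderiv ℝ (fun p : ℝ × (ℂ × ℂ) =>
      Complex.exp (-(k : ℂ) * p.1 * Complex.I) * H (rq p.1 p.2)) (t, q)).comp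
        (ContinuousLinearMap.inr ℝ ℝ (ℂ × ℂ))) q := h4
  have h6 : DifferentiableAt ℝ (fun q' : ℂ × ℂ => H (rq t q')) q := by
    have e : (fun q' => rq t q') = rqL t := funext fun q' => (rqL_apply t q').symm
    have : DifferentiableAt ℝ (fun q' => rq t q') q := by
      rw [e]; exact (rqL t).differentiableAt
    exact (hd _).comp q this
  have h7 := h5.fderiv
  rw [fderiv_const_mul h6] at h7
  have h8 := congrArg (fun L : ℂ × ℂ →L[ℝ] ℂ => L (Vq q)) h7
  simp only [ContinuousLinearMap.smul_apply, smul_eq_mul, ContinuousLinearMap.comp_apply] at h8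
  exact h8.symm

/-- equivariance of the Fourier components -/
lemma Hk_rq (k : ℤ) (H : ℂ × ℂ → ℂ) (ψ : ℝ) (q : ℂ × ℂ) :
    Hk k H (rq ψ q) = Complex.exp ((k : ℂ) * ψ * Complex.I) * Hk k H q := by
  unfold Hk
  set F : ℝ → ℂ := fun φ => Complex.exp (-(k : ℂ) * φ * Complex.I) * H (rq φ q) with hF
  have hper : Function.Periodic F (2 * Real.pi) := by
    intro φ
    simp only [hF, rq_two_pi]
    congr 1
    have : -(k : ℂ) * ((φ + 2 * Real.pi : ℝ) : ℂ) * Complex.I =
        -(k : ℂ) * φ * Complex.I + ((-k : ℤ) : ℂ) * (2 * Real.pi * Complex.I) := by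
      push_cast; ring
    rw [this, Complex.exp_add, Complex.exp_int_mul_two_pi_mul_I, mul_one]
  have h1 : ∀ φ : ℝ, Complex.exp (-(k : ℂ) * φ * Complex.I) * H (rq φ (rq ψ q)) =
      Complex.exp ((k : ℂ) * ψ * Complex.I) * F (φ + ψ) := by
    intro φ
    simp only [hF, rq_add]
    rw [← mul_assoc, ← Complex.exp_add]
    congr 2
    push_cast; ring
  simp only [h1]
  rw [intervalIntegral.integral_const_mul, intervalIntegral.integral_comp_add_right, zero_add]
  congr 1
  have h2 := hper.intervalIntegral_add_eq ψ 0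
  rw [zero_add] at h2
  rw [add_comm (2 * Real.pi) ψ]
  exact h2

lemma Hk_neg {k : ℤ} (hk : Odd k) (H : ℂ × ℂ → ℂ) (q : ℂ × ℂ) : Hk k H (-q) = -Hk k H q := by
  have h1 := Hk_rq k H Real.pi q
  have h2 : rq Real.pi q = -q := by
    have := rq_pi 0 q
    rw [zero_add] at this
    rw [this]
    unfold rq
    refine Prod.ext ?_ ?_ <;> simp
  rw [h2] at h1
  rw [h1]
  obtain ⟨m, rfl⟩ := hk
  have : (((2 * m + 1 : ℤ) : ℂ)) * Real.pi * Complex.I =
      (m : ℂ) * (2 * Real.pi * Complex.I) + Real.pi * Complex.I := by push_cast; ring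
  rw [this, Complex.exp_add, Complex.exp_int_mul_two_pi_mul_I, Complex.exp_pi_mul_I]
  ring

lemma Hk_zero_of {H : ℂ × ℂ → ℂ} {R : ℝ} (hR : ∀ q, R < ‖q‖ → H q = 0) (k : ℤ) {q : ℂ × ℂ}
    (hq : R < ‖q‖) : Hk k H q = 0 := by
  unfold Hk
  have : ∀ φ : ℝ, H (rq φ q) = 0 := fun φ => hR _ (by rwa [norm_rq])
  simp [this]

variable [MeasurableSpace SL(2, ℝ)] [BorelSpace SL(2, ℝ)]

/-- reduction to the Fourier components -/
theorem XX_of_Hk {μ : Measure SL(2, ℝ)} [IsFiniteMeasureOnCompacts μ] {H : ℂ × ℂ → ℂ}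
    (hH : ContDiff ℝ ∞ H) (hc : HasCompactSupport H)
    (hk : ∀ k : ℤ, ∫ g, XX (Hk k H) (iota g) ∂μ = 0) : ∫ g, XX H (iota g) ∂μ = 0 := by
  have hd : Differentiable ℝ H := hH.differentiable (by simp)
  obtain ⟨R, hR⟩ : ∃ R : ℝ, ∀ q, q ∈ tsupport H → ‖q‖ ≤ R := by
    obtain ⟨R, hR⟩ := (IsCompact.isBounded hc).exists_norm_le
    exact ⟨R, hR⟩
  set C : Set SL(2, ℝ) := iota ⁻¹' Metric.closedBall 0 R with hC
  have hCc : IsCompact C := iota_compact (isCompact_closedBall 0 R)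
  have hout : ∀ (φ : ℝ) (g : SL(2, ℝ)), g ∉ C → XX (fun q => H (rq φ q)) (iota g) = 0 := by
    intro φ g hg
    have h1 : rq φ (iota g) ∉ tsupport H := by
      intro h
      apply hg
      have := hR _ h
      rw [norm_rq] at this
      simpa [hC] using this
    rw [XX_rq hd]
    have h2 : fderiv ℝ H (rq φ (iota g)) = 0 := by
      by_contra h
      exact h1 (support_fderiv_subset ℝ h)
    rw [h2]; rfl
  set τ : ℝ → ℂ := fun φ => ∫ g, XX (fun q => H (rq φ q)) (iota g) ∂μ with hτ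
  have hcont : Continuous (Function.uncurry fun (φ : ℝ) (g : SL(2, ℝ)) =>
      XX (fun q => H (rq φ q)) (iota g)) := by
    have := continuous_XX_rq hH (X := ℝ × SL(2, ℝ)) continuous_fst
      (iota_continuous.comp continuous_snd)
    exact this
  have hτc : Continuous τ := by
    have h1 := continuous_parametric_integral_of_continuous (μ := μ) hcont hCc
    refine h1.congr fun φ => ?_
    exact setIntegral_eq_integral_of_forall_compl_eq_zero fun g hg => hout φ g hg
  have hτp : Function.Periodic τ (2 * Real.pi) := by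
    intro φ
    simp only [hτ, rq_two_pi]
  have hz : ∀ k : ℤ, ∫ φ in (0 : ℝ)..(2 * Real.pi),
      Complex.exp (-(k : ℂ) * φ * Complex.I) * τ φ = 0 := by
    intro k
    have hsw := integral_swap (μ := μ) hCc (a := 0) (b := 2 * Real.pi)
      (f := fun (φ : ℝ) (g : SL(2, ℝ)) => Complex.exp (-(k : ℂ) * φ * Complex.I) *
        XX (fun q => H (rq φ q)) (iota g)) ?_ ?_
    · have e1 : ∀ g : SL(2, ℝ), ∫ φ in (0 : ℝ)..(2 * Real.pi),
          Complex.exp (-(k : ℂ) * φ * Complex.I) * XX (fun q => H (rq φ q)) (iota g) =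
          XX (Hk k H) (iota g) := fun g => (XX_Hk k hH (iota g)).symm
      simp only [e1, hk k, integral_const_mul] at hsw
      exact hsw.symm
    · have h1 : Continuous fun p : ℝ × SL(2, ℝ) =>
          Complex.exp (-(k : ℂ) * (p.1 : ℂ) * Complex.I) := by fun_prop
      exact h1.mul hcont
    · intro φ _ g hg
      rw [hout φ g hg, mul_zero]
  have h0 := fourier_unique hτc hτp hz 0
  simp only [hτ] at h0
  have e : ∀ q, rq 0 q = q := by
    intro q
    unfold rq
    refine Prod.ext ?_ ?_ <;> simp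
  simpa only [e] using h0

end

end QE


end

section

/-!
Right invariance of the measure under the geodesic flow, from the transport identity for its Fourier
coefficients (helper40, module QH_D3).
-/

open MeasureTheory Filter Topology Set
open UpperHalfPlane hiding I
open scoped ContDiff MatrixGroups NNReal

namespace QE

noncomputable section

/-! ## the hyperbolic measure -/

lemma range_coe_eq : Set.range UpperHalfPlane.coe = UH := by
  ext z
  constructor
  · rintro ⟨w, rfl⟩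
    exact w.im_pos
  · intro hz
    exact ⟨⟨z, hz⟩, rfl⟩

lemma isOpen_UH_FI : IsOpen UH := isOpen_lt continuous_const Complex.continuous_im

lemma integral_uhp (f : ℂ → ℂ) : ∫ z : ℍ, f z = ∫ z in UH, f z / (z.im : ℂ) ^ 2 := by
  have hm : Measurable fun z : ℍ => ((1 / NNReal.mk z.im z.im_pos.le : ℝ≥0) ^ 2) := by
    have h1 : Measurable fun z : ℍ => (NNReal.mk z.im z.im_pos.le : ℝ≥0) :=
      (continuous_im.subtype_mk _).measurable
    exact (measurable_const.div h1).pow_const 2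
  have hp : MeasurePreserving UpperHalfPlane.coe (volume.comap UpperHalfPlane.coe)
      (volume.restrict (.range UpperHalfPlane.coe)) :=
    ⟨measurable_coe, by rw [measurableEmbedding_coe.map_comap]⟩
  rw [volume_def, integral_withDensity_eq_integral_smul hm, ← range_coe_eq,
    ← hp.integral_comp measurableEmbedding_coe]
  refine integral_congr_ae (ae_of_all _ fun z => ?_)
  simp only [NNReal.smul_def, NNReal.coe_pow, NNReal.coe_div, NNReal.coe_one, NNReal.coe_mk,
    Complex.real_smul]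
  push_cast
  rw [one_div, inv_pow, inv_mul_eq_div]
  rfl

/-! ## Wirtinger derivatives -/

lemma fderiv_eq_dz (f : ℂ → ℂ) (z v : ℂ) :
    fderiv ℝ f z v = dz f z * v + dzb f z * (starRingEnd ℂ) v := by
  have h : v = (v.re : ℝ) • (1 : ℂ) + (v.im : ℝ) • Complex.I := by
    simp
  have h2 : fderiv ℝ f z v = (v.re : ℂ) * fderiv ℝ f z 1 + (v.im : ℂ) * fderiv ℝ f z Complex.I := by
    conv_lhs => rw [h]
    rw [map_add, map_smul, map_smul, Complex.real_smul, Complex.real_smul]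
  have h3 : v = (v.re : ℂ) + (v.im : ℂ) * Complex.I := (Complex.re_add_im v).symm
  have h4 : (starRingEnd ℂ) v = (v.re : ℂ) - (v.im : ℂ) * Complex.I := by
    apply Complex.ext <;> simp
  rw [h2, h4]
  unfold dz dzb
  linear_combination (-(1 / 2) * (fderiv ℝ f z 1 - Complex.I * fderiv ℝ f z Complex.I)) * h3 +
    ((v.im : ℂ) * fderiv ℝ f z Complex.I) * Complex.I_sq

/-! ## functions on the half plane from even Fourier components -/

/-- the function on the half plane -/
def zet (K : ℂ × ℂ → ℂ) (z : ℂ) : ℂ :=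
  if 0 < z.im then K (z / ((√z.im : ℝ) : ℂ), 1 / ((√z.im : ℝ) : ℂ)) else 0

/-- a compact subset of the half plane -/
def SR (R : ℝ) : Set ℂ := Metric.closedBall 0 (R ^ 2) ∩ {z | 1 / R ^ 2 ≤ z.im}

lemma SR_compact (R : ℝ) : IsCompact (SR R) :=
  (isCompact_closedBall 0 _).inter_right (isClosed_le continuous_const Complex.continuous_im)

lemma SR_sub {R : ℝ} (hR : 0 < R) : SR R ⊆ UH := by
  intro z hz
  have h1 : 1 / R ^ 2 ≤ z.im := hz.2
  have h2 : 0 < 1 / R ^ 2 := by positivity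
  exact lt_of_lt_of_le h2 h1

lemma zet_zero {K : ℂ × ℂ → ℂ} {R : ℝ} (hR0 : 0 < R) (hR : ∀ q, R < ‖q‖ → K q = 0) {z : ℂ}
    (hz : z ∉ SR R) : zet K z = 0 := by
  unfold zet
  split_ifs with h
  · apply hR
    by_contra hcon
    push Not at hcon
    apply hz
    have hs : 0 < √z.im := Real.sqrt_pos.2 h
    have hsq : √z.im * √z.im = z.im := Real.mul_self_sqrt h.le
    have h1 : ‖z / ((√z.im : ℝ) : ℂ)‖ ≤ R := (norm_fst_le _).trans hcon
    have h2 : ‖1 / ((√z.im : ℝ) : ℂ)‖ ≤ R := (norm_snd_le _).trans hcon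
    rw [norm_div, Complex.norm_real, Real.norm_of_nonneg hs.le, div_le_iff₀ hs] at h1
    rw [norm_div, norm_one, Complex.norm_real, Real.norm_of_nonneg hs.le, div_le_iff₀ hs] at h2
    have h3 : z.im ≤ ‖z‖ := (le_abs_self _).trans (Complex.abs_im_le_norm z)
    have h4 : √z.im ≤ R := by nlinarith only [hsq, hs, h1, h3]
    refine ⟨?_, ?_⟩
    · rw [mem_closedBall_zero_iff]
      nlinarith only [h1, hR0, h4]
    · show 1 / R ^ 2 ≤ z.im
      rw [div_le_iff₀ (by positivity)]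
      nlinarith only [h2, hsq]
  · rfl

lemma zet_test {K : ℂ × ℂ → ℂ} (hK : ContDiff ℝ ∞ K) {R : ℝ} (hR0 : 0 < R)
    (hR : ∀ q, R < ‖q‖ → K q = 0) : Test UH (zet K) := by
  have hsupp : tsupport (zet K) ⊆ SR R := by
    refine closure_minimal ?_ (SR_compact R).isClosed
    intro z hz
    by_contra h
    exact hz (zet_zero hR0 hR h)
  refine ⟨?_, (SR_compact R).of_isClosed_subset (isClosed_tsupport _) hsupp,
    hsupp.trans (SR_sub hR0)⟩
  rw [contDiff_iff_contDiffAt]
  intro z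
  by_cases hz : 0 < z.im
  · have e : zet K =ᶠ[𝓝 z] fun z => K (z / ((√z.im : ℝ) : ℂ), 1 / ((√z.im : ℝ) : ℂ)) := by
      filter_upwards [isOpen_UH_FI.mem_nhds hz] with w hw
      have hw' : 0 < w.im := hw
      unfold zet
      rw [if_pos hw']
    have h1 : ContDiffAt ℝ ∞ (fun z : ℂ => z.im) z := Complex.imCLM.contDiff.contDiffAt
    have h2 : ContDiffAt ℝ ∞ (fun z : ℂ => √z.im) z := h1.sqrt hz.ne'
    have h3 : ContDiffAt ℝ ∞ (fun z : ℂ => ((√z.im : ℝ) : ℂ)) z :=
      Complex.ofRealCLM.contDiff.contDiffAt.comp z h2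
    have hne : ((√z.im : ℝ) : ℂ) ≠ 0 := by
      exact_mod_cast (Real.sqrt_pos.2 hz).ne'
    have hid : ContDiffAt ℝ ∞ (fun z : ℂ => z) z := contDiffAt_id
    have h3i : ContDiffAt ℝ ∞ (fun z : ℂ => (((√z.im : ℝ) : ℂ))⁻¹) z := h3.inv hne
    have h4 : ContDiffAt ℝ ∞ (fun z : ℂ => z / ((√z.im : ℝ) : ℂ)) z := by
      simp only [div_eq_mul_inv]
      exact hid.mul h3i
    have h5 : ContDiffAt ℝ ∞ (fun z : ℂ => 1 / ((√z.im : ℝ) : ℂ)) z := by
      simp only [one_div]
      exact h3i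
    exact (hK.contDiffAt.comp z (h4.prodMk h5)).congr_of_eventuallyEq e
  · have hz' : z ∉ SR R := fun h => hz (SR_sub hR0 h)
    have e : zet K =ᶠ[𝓝 z] fun _ => 0 := by
      filter_upwards [(SR_compact R).isClosed.isOpen_compl.mem_nhds hz'] with w hw
      exact zet_zero hR0 hR hw
    exact contDiffAt_const.congr_of_eventuallyEq e

/-- the quotient `j / conj j` -/
def om (g : SL(2, ℝ)) : ℂ := (iota g).2 / (starRingEnd ℂ) (iota g).2

lemma om_ne (g : SL(2, ℝ)) : om g ≠ 0 := by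
  have h := iota_snd_ne g
  unfold om
  exact div_ne_zero h (by rwa [Ne, map_eq_zero])

lemma Hk_even (m : ℤ) (H : ℂ × ℂ → ℂ) (g : SL(2, ℝ)) :
    Hk (2 * m) H (iota g) = om g ^ m * zet (Hk (2 * m) H) ((g • UpperHalfPlane.I : ℍ) : ℂ) := by
  set z : ℂ := ((g • UpperHalfPlane.I : ℍ) : ℂ) with hz
  have hpos : 0 < z.im := (g • UpperHalfPlane.I : ℍ).im_pos
  set j := (iota g).2 with hj
  have hj0 : j ≠ 0 := iota_snd_ne g
  have hr : 0 < ‖j‖ := norm_pos_iff.2 hj0
  have hrc : ((‖j‖ : ℝ) : ℂ) ≠ 0 := by exact_mod_cast hr.ne'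
  have hjc : (starRingEnd ℂ) j ≠ 0 := by rwa [Ne, map_eq_zero]
  have him := im_smul_I g
  rw [← hj, ← hz] at him
  have hjj : j * (starRingEnd ℂ) j = ((‖j‖ ^ 2 : ℝ) : ℂ) := by
    rw [Complex.mul_conj, Complex.normSq_eq_norm_sq]
  have hy : z.im * ‖j‖ ^ 2 = 1 := by
    rw [hjj] at him
    exact_mod_cast him
  have hsqrt : √z.im = 1 / ‖j‖ := by
    have : z.im = (1 / ‖j‖) ^ 2 := by
      field_simp
      linarith
    rw [this, Real.sqrt_sq (by positivity)]
  have hn : (iota g).1 = z * j := by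
    rw [hz, smul_I_eq, ← hj]
    field_simp
  have hpolar := Complex.norm_mul_exp_arg_mul_I j
  have e1 : iota g = rq (Complex.arg j) (z / ((√z.im : ℝ) : ℂ), 1 / ((√z.im : ℝ) : ℂ)) := by
    rw [hsqrt]
    unfold rq
    refine Prod.ext ?_ ?_
    · simp only
      rw [hn]
      conv_lhs => rw [← hpolar]
      push_cast
      field_simp
    · simp only
      rw [← hj]
      conv_lhs => rw [← hpolar]
      push_cast
      field_simp
  have e2 : om g ^ m = Complex.exp (((2 * m : ℤ) : ℂ) * (Complex.arg j) * Complex.I) := by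
    have h1 : om g = Complex.exp (2 * (Complex.arg j) * Complex.I) := by
      have hc : (starRingEnd ℂ) j = ((‖j‖ : ℝ) : ℂ) * Complex.exp ((Complex.arg j) * -Complex.I) := by
        have h := congrArg (starRingEnd ℂ) hpolar
        rw [map_mul, Complex.conj_ofReal, ← Complex.exp_conj, map_mul, Complex.conj_ofReal,
          Complex.conj_I] at h
        exact h.symm
      unfold om
      rw [← hj, div_eq_iff hjc, hc]
      have h5 : Complex.exp (2 * (Complex.arg j) * Complex.I) *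
          (((‖j‖ : ℝ) : ℂ) * Complex.exp ((Complex.arg j) * -Complex.I)) =
          ((‖j‖ : ℝ) : ℂ) * (Complex.exp (2 * (Complex.arg j) * Complex.I) *
            Complex.exp ((Complex.arg j) * -Complex.I)) := by ring
      rw [h5, ← Complex.exp_add]
      have h6 : 2 * (Complex.arg j : ℂ) * Complex.I + (Complex.arg j : ℂ) * -Complex.I =
          (Complex.arg j : ℂ) * Complex.I := by ring
      rw [h6]
      exact hpolar.symm
    rw [h1, ← Complex.exp_int_mul]
    congr 1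
    push_cast; ring
  have e3 : zet (Hk (2 * m) H) z =
      Hk (2 * m) H (z / ((√z.im : ℝ) : ℂ), 1 / ((√z.im : ℝ) : ℂ)) := by
    unfold zet
    rw [if_pos hpos]
  rw [e3, e2]
  conv_lhs => rw [e1]
  exact Hk_rq (2 * m) H _ _

/-- the coefficient of `om ^ (m + 1)` -/
def cA (m : ℤ) (ζ : ℂ → ℂ) (z : ℂ) : ℂ := (m : ℂ) / 2 * ζ z - Complex.I * (z.im : ℂ) * dzb ζ z

/-- the coefficient of `om ^ (m - 1)` -/
def cB (m : ℤ) (ζ : ℂ → ℂ) (z : ℂ) : ℂ := -((m : ℂ) / 2 * ζ z) + Complex.I * (z.im : ℂ) * dz ζ z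

lemma hasDerivAt_conj {f : ℝ → ℂ} {f' : ℂ} {s : ℝ} (h : HasDerivAt f f' s) :
    HasDerivAt (fun s => (starRingEnd ℂ) (f s)) ((starRingEnd ℂ) f') s :=
  Complex.conjCLE.hasFDerivAt.comp_hasDerivAt s h

lemma XX_even (m : ℤ) {H : ℂ × ℂ → ℂ} (hH : ContDiff ℝ ∞ H)
    (ht : Test UH (zet (Hk (2 * m) H))) (g : SL(2, ℝ)) :
    XX (Hk (2 * m) H) (iota g) =
      om g ^ (m + 1) * cA m (zet (Hk (2 * m) H)) ((g • UpperHalfPlane.I : ℍ) : ℂ) +
      om g ^ (m - 1) * cB m (zet (Hk (2 * m) H)) ((g • UpperHalfPlane.I : ℍ) : ℂ) := by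
  set K := Hk (2 * m) H with hK
  set ζ := zet K with hζ
  set z : ℂ := ((g • UpperHalfPlane.I : ℍ) : ℂ) with hz
  set n := (iota g).1 with hn
  set j := (iota g).2 with hj
  have hj0 : j ≠ 0 := iota_snd_ne g
  have hjc : (starRingEnd ℂ) j ≠ 0 := by rwa [Ne, map_eq_zero]
  have hKd : Differentiable ℝ K := (Hk_smooth _ hH).differentiable (by simp)
  -- the derivative from the left side
  have d1 : HasDerivAt (fun s => K (flq s (iota g))) (XX K (iota g)) 0 := by
    have := hasDerivAt_H hKd 0 (iota g)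
    simpa only [flq_zero] using this
  -- the explicit formula
  have e1 : ∀ s : ℝ, K (flq s (iota g)) =
      (fl s j / (starRingEnd ℂ) (fl s j)) ^ m * ζ (fl s n / fl s j) := by
    intro s
    have h1 := Hk_even m H (g * aS s)
    rw [iota_mul_aS] at h1
    rw [hK, h1]
    unfold om
    rw [iota_mul_aS, smul_I_eq, iota_mul_aS]
    rfl
  have f0j : fl 0 j = j := by simp [fl]
  have f0n : fl 0 n = n := by simp [fl]
  have dj : HasDerivAt (fun s => fl s j) (-((starRingEnd ℂ) j) / 2) 0 := by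
    have := hasDerivAt_fl 0 j
    rwa [f0j] at this
  have dn : HasDerivAt (fun s => fl s n) (-((starRingEnd ℂ) n) / 2) 0 := by
    have := hasDerivAt_fl 0 n
    rwa [f0n] at this
  have djc := hasDerivAt_conj dj
  have dω : HasDerivAt (fun s => fl s j / (starRingEnd ℂ) (fl s j)) ((om g ^ 2 - 1) / 2) 0 := by
    have := dj.div djc (by rwa [f0j])
    refine this.congr_deriv ?_
    rw [f0j]
    unfold om
    rw [← hj]
    simp only [map_div₀, map_neg, Complex.conj_conj, map_ofNat]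
    field_simp
    ring
  have hzj : z = n / j := by rw [hz, smul_I_eq]
  have hdet := iota_det g
  rw [← hn, ← hj] at hdet
  have dz' : HasDerivAt (fun s => fl s n / fl s j) (Complex.I / j ^ 2) 0 := by
    have := dn.div dj (by rwa [f0j])
    refine this.congr_deriv ?_
    rw [f0j, f0n]
    field_simp
    linear_combination (1 : ℂ) * hdet
  have hζd : HasFDerivAt ζ (fderiv ℝ ζ z) z :=
    (ht.smooth.differentiable (by simp) z).hasFDerivAt
  have dζ : HasDerivAt (fun s => ζ (fl s n / fl s j)) (fderiv ℝ ζ z (Complex.I / j ^ 2)) 0 := by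
    have e : (fun s => fl s n / fl s j) 0 = z := by
      simp only [f0j, f0n, hzj]
    have h1 : HasFDerivAt ζ (fderiv ℝ ζ z) ((fun s => fl s n / fl s j) 0) := by rwa [e]
    exact h1.comp_hasDerivAt 0 dz'
  have dωm : HasDerivAt (fun s => (fl s j / (starRingEnd ℂ) (fl s j)) ^ m)
      ((m : ℂ) * om g ^ (m - 1) * ((om g ^ 2 - 1) / 2)) 0 := by
    have e : (fun s => fl s j / (starRingEnd ℂ) (fl s j)) 0 = om g := by
      simp only [f0j]; rfl
    have h1 : HasDerivAt (fun w : ℂ => w ^ m) ((m : ℂ) * om g ^ (m - 1))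
        ((fun s => fl s j / (starRingEnd ℂ) (fl s j)) 0) := by
      rw [e]
      exact hasDerivAt_zpow m (om g) (Or.inl (om_ne g))
    exact HasDerivAt.comp (h₂ := fun w : ℂ => w ^ m) 0 h1 dω
  have d2 := dωm.mul dζ
  have d3 : HasDerivAt (fun s => K (flq s (iota g))) _ 0 :=
    d2.congr_of_eventuallyEq (Eventually.of_forall fun s => e1 s)
  rw [d1.unique d3, fderiv_eq_dz]
  simp only [f0j, f0n, ← hzj]
  -- algebra
  have him := im_smul_I g
  rw [← hj, ← hz] at him
  have ho : om g = j / (starRingEnd ℂ) j := rfl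
  have ho0 := om_ne g
  have hi1 : Complex.I / j ^ 2 = Complex.I * (z.im : ℂ) * (om g)⁻¹ := by
    rw [ho]
    field_simp
    linear_combination -(1 : ℂ) * him
  have hi2 : (starRingEnd ℂ) (Complex.I / j ^ 2) = -Complex.I * (z.im : ℂ) * om g := by
    rw [hi1, map_mul, map_mul, Complex.conj_I, Complex.conj_ofReal]
    congr 1
    rw [ho, map_inv₀, map_div₀, Complex.conj_conj, inv_div]
  have hq : j / (starRingEnd ℂ) j = om g := rfl
  rw [hi2, hi1, hq]
  unfold cA cB
  rw [zpow_add_one₀ ho0, zpow_sub_one₀ ho0]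
  field_simp
  ring

/-! ## integration against the measure -/

lemma Test.compact_H {ζ : ℂ → ℂ} (h : Test UH ζ) :
    HasCompactSupport fun z : ℍ => ζ (z : ℂ) := by
  have hK : IsCompact (UpperHalfPlane.coe ⁻¹' tsupport ζ) := by
    rw [isOpenEmbedding_coe.isEmbedding.isInducing.isCompact_preimage_iff]
    · exact h.supp
    · rw [range_coe_eq]; exact h.sub
  refine HasCompactSupport.intro hK fun z hz => ?_
  exact image_eq_zero_of_notMem_tsupport hz

lemma cA_test {ζ : ℂ → ℂ} (m : ℤ) (h : Test UH ζ) : Test UH (cA m ζ) := by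
  have h1 : ContDiff ℝ ∞ fun z : ℂ => (z.im : ℂ) :=
    Complex.ofRealCLM.contDiff.comp Complex.imCLM.contDiff
  have hz : ∀ z ∉ tsupport ζ, cA m ζ z = 0 := by
    intro z hz
    have e1 : ζ z = 0 := image_eq_zero_of_notMem_tsupport hz
    have e2 : dzb ζ z = 0 := image_eq_zero_of_notMem_tsupport fun h => hz (tsupport_dzb_subset ζ h)
    unfold cA
    rw [e1, e2]; ring
  have hs : tsupport (cA m ζ) ⊆ tsupport ζ := by
    refine closure_minimal (fun z hz' => ?_) (isClosed_tsupport _)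
    by_contra hc
    exact hz' (hz z hc)
  refine ⟨?_, HasCompactSupport.intro h.supp hz, hs.trans h.sub⟩
  exact (contDiff_const.mul h.smooth).sub ((contDiff_const.mul h1).mul (contDiff_dzb h.smooth))

lemma cB_test {ζ : ℂ → ℂ} (m : ℤ) (h : Test UH ζ) : Test UH (cB m ζ) := by
  have h1 : ContDiff ℝ ∞ fun z : ℂ => (z.im : ℂ) :=
    Complex.ofRealCLM.contDiff.comp Complex.imCLM.contDiff
  have hz : ∀ z ∉ tsupport ζ, cB m ζ z = 0 := by
    intro z hz
    have e1 : ζ z = 0 := image_eq_zero_of_notMem_tsupport hz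
    have e2 : dz ζ z = 0 := image_eq_zero_of_notMem_tsupport fun h => hz (tsupport_dz_subset ζ h)
    unfold cB
    rw [e1, e2]; ring
  have hs : tsupport (cB m ζ) ⊆ tsupport ζ := by
    refine closure_minimal (fun z hz' => ?_) (isClosed_tsupport _)
    by_contra hc
    exact hz' (hz z hc)
  refine ⟨?_, HasCompactSupport.intro h.supp hz, hs.trans h.sub⟩
  exact (contDiff_const.mul h.smooth).neg.add ((contDiff_const.mul h1).mul (contDiff_dz h.smooth))

/-- a test function times a locally square integrable function is integrable for the hyperbolic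
measure -/
lemma integrable_test {ζ v : ℂ → ℂ} (h : Test UH ζ) (hv : LocL2 UH v) :
    Integrable (fun z => ζ z * v z / (z.im : ℂ) ^ 2) (volume.restrict UH) := by
  set K := tsupport ζ with hK
  have hKc : IsCompact K := h.supp
  have h1 : MemLp v 2 (volume.restrict K) := hv K hKc h.sub
  have hfin : IsFiniteMeasure (volume.restrict K) := ⟨by simpa using hKc.measure_lt_top⟩
  have h2 : Integrable v (volume.restrict K) := h1.integrable (by norm_num)
  have hcont : ContinuousOn (fun z : ℂ => ζ z / (z.im : ℂ) ^ 2) K := by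
    refine h.smooth.continuous.continuousOn.div (by fun_prop) fun z hz => ?_
    have : 0 < z.im := h.sub hz
    exact pow_ne_zero 2 (by exact_mod_cast this.ne')
  obtain ⟨B, hB⟩ := hKc.exists_bound_of_continuousOn hcont
  have h3 : Integrable (fun z => ζ z / (z.im : ℂ) ^ 2 * v z) (volume.restrict K) := by
    refine h2.bdd_mul (c := B) (hcont.aestronglyMeasurable hKc.measurableSet) ?_
    exact (ae_restrict_iff' hKc.measurableSet).2 (ae_of_all _ fun z hz => hB z hz)
  have h4 : IntegrableOn (fun z => ζ z * v z / (z.im : ℂ) ^ 2) K := by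
    refine h3.congr (ae_of_all _ fun z => ?_)
    ring
  have h5 : Integrable (fun z => ζ z * v z / (z.im : ℂ) ^ 2) := by
    refine h4.integrable_of_forall_notMem_eq_zero fun z hz => ?_
    rw [image_eq_zero_of_notMem_tsupport hz]; ring
  exact h5.restrict

lemma neg_continuous : Continuous fun g : SL(2, ℝ) => -g := by
  rw [iota_closedEmbedding.isEmbedding.continuous_iff]
  have : iota ∘ (fun g : SL(2, ℝ) => -g) = fun g => -iota g := funext fun g => iota_neg g
  rw [this]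
  exact iota_continuous.neg

/-- negation, as a homeomorphism -/
def negH : SL(2, ℝ) ≃ₜ SL(2, ℝ) where
  toFun g := -g
  invFun g := -g
  left_inv g := neg_neg g
  right_inv g := neg_neg g
  continuous_toFun := neg_continuous
  continuous_invFun := neg_continuous

lemma om_pow (g : SL(2, ℝ)) (k : ℤ) :
    om g ^ k = Complex.I ^ k * (starRingEnd ℂ) (dirG g ^ k) := by
  have h := omega_eq g
  unfold om
  rw [h, mul_zpow, map_zpow₀]

variable [MeasurableSpace SL(2, ℝ)] [BorelSpace SL(2, ℝ)]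

/-- **right invariance under the geodesic flow** -/
theorem flow_right {Γ : Subgroup SL(2, ℝ)} {u : ℤ → ℂ → ℂ} (hu : LimFam Γ u)
    {μ : Measure SL(2, ℝ)} [IsFiniteMeasureOnCompacts μ]
    (hneg : Measure.map (fun g => -g) μ = μ)
    (hcoef : ∀ (k : ℤ) (ζ : ℍ → ℂ), Continuous ζ → HasCompactSupport ζ →
      ∫ g : SL(2, ℝ), ζ (g • UpperHalfPlane.I) * (starRingEnd ℂ) (dirG g ^ k) ∂μ =
        ∫ z : ℍ, ζ z * u k z)
    (s : ℝ) : Measure.map (fun g => g * aS s) μ = μ := by
  refine right_of_XX (fun H hH hc => XX_of_Hk hH hc fun k => ?_) s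
  obtain ⟨R, hR0, hR⟩ : ∃ R : ℝ, 0 < R ∧ ∀ q, R < ‖q‖ → H q = 0 := by
    obtain ⟨R, hR⟩ := (IsCompact.isBounded hc).exists_norm_le
    refine ⟨max R 1, lt_max_of_lt_right one_pos, fun q hq => ?_⟩
    apply image_eq_zero_of_notMem_tsupport
    intro h
    exact absurd (hR q h) (not_le.2 (lt_of_le_of_lt (le_max_left _ _) hq))
  rcases Int.even_or_odd' k with ⟨m, rfl | rfl⟩
  · -- even components
    have ht : Test UH (zet (Hk (2 * m) H)) :=
      zet_test (Hk_smooth _ hH) hR0 fun q hq => Hk_zero_of hR _ hq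
    set ζ := zet (Hk (2 * m) H) with hζ
    have hA := cA_test m ht
    have hB := cB_test m ht
    have cont : ∀ {f : ℂ → ℂ}, Test UH f → Continuous fun z : ℍ => f z := fun h =>
      h.smooth.continuous.comp UpperHalfPlane.continuous_coe
    have hdirc : Continuous fun g : SL(2, ℝ) => dirG g := by
      have h1 : Continuous fun g : SL(2, ℝ) => (iota g).2 := continuous_snd.comp iota_continuous
      simp only [dirG_eq]
      exact continuous_const.mul ((Complex.continuous_conj.comp h1).div h1 iota_snd_ne)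
    have hproj : Continuous fun g : SL(2, ℝ) => g • UpperHalfPlane.I :=
      continuous_id.smul continuous_const
    have integ : ∀ {f : ℂ → ℂ}, Test UH f → ∀ k : ℤ, Integrable (fun g : SL(2, ℝ) =>
        f ((g • UpperHalfPlane.I : ℍ) : ℂ) * (starRingEnd ℂ) (dirG g ^ k)) μ := by
      intro f hf k
      refine Continuous.integrable_of_hasCompactSupport ?_ ?_
      · refine ((cont hf).comp hproj).mul (Complex.continuous_conj.comp ?_)
        refine hdirc.zpow₀ k fun g => Or.inl ?_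
        intro h
        have := norm_dirG_FI g
        rw [h, norm_zero] at this
        exact zero_ne_one this
      · have hK : IsCompact ((fun g : SL(2, ℝ) => g • UpperHalfPlane.I) ⁻¹'
            tsupport fun z : ℍ => f z) :=
          isProperMap_smul_I.isCompact_preimage hf.compact_H
        refine HasCompactSupport.intro hK fun g hg => ?_
        have : f ((g • UpperHalfPlane.I : ℍ) : ℂ) = 0 :=
          image_eq_zero_of_notMem_tsupport (f := fun z : ℍ => f z) hg
        rw [this, zero_mul]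
    have e1 : ∀ g : SL(2, ℝ), XX (Hk (2 * m) H) (iota g) =
        Complex.I ^ (m + 1) * (cA m ζ ((g • UpperHalfPlane.I : ℍ) : ℂ) *
          (starRingEnd ℂ) (dirG g ^ (m + 1))) + Complex.I ^ (m - 1) *
          (cB m ζ ((g • UpperHalfPlane.I : ℍ) : ℂ) * (starRingEnd ℂ) (dirG g ^ (m - 1))) := by
      intro g
      rw [XX_even m hH ht, om_pow, om_pow]
      ring
    simp only [e1]
    rw [integral_add ((integ hA _).const_mul _) ((integ hB _).const_mul _), integral_const_mul,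
      integral_const_mul, hcoef (m + 1) (fun z => cA m ζ z) (cont hA) hA.compact_H,
      hcoef (m - 1) (fun z => cB m ζ z) (cont hB) hB.compact_H,
      integral_uhp (fun z => cA m ζ z * u (m + 1) z), integral_uhp (fun z => cB m ζ z * u (m - 1) z)]
    have hI : Complex.I ^ (m + 1) = Complex.I ^ m * Complex.I := zpow_add_one₀ Complex.I_ne_zero m
    have hI' : Complex.I ^ (m - 1) = Complex.I ^ m * (-Complex.I) := by
      rw [zpow_sub_one₀ Complex.I_ne_zero, Complex.inv_I]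
    rw [hI, hI', mul_assoc, mul_assoc, ← mul_add, ← integral_const_mul, ← integral_const_mul,
      ← integral_add ((integrable_test hA (hu.loc _)).const_mul _)
        ((integrable_test hB (hu.loc _)).const_mul _)]
    have htr := hu.transport m ζ ht
    have e2 : ∫ z in UH, (Complex.I * (cA m ζ z * u (m + 1) z / (z.im : ℂ) ^ 2) +
        -Complex.I * (cB m ζ z * u (m - 1) z / (z.im : ℂ) ^ 2)) =
        ∫ z, (((z.im : ℂ) * dz ζ z + Complex.I * m / 2 * ζ z) * u (m - 1) z
      + ((z.im : ℂ) * dzb ζ z + Complex.I * m / 2 * ζ z) * u (m + 1) z) / (z.im : ℂ) ^ 2 := by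
      have e3 : ∫ z in UH, (((z.im : ℂ) * dz ζ z + Complex.I * m / 2 * ζ z) * u (m - 1) z
          + ((z.im : ℂ) * dzb ζ z + Complex.I * m / 2 * ζ z) * u (m + 1) z) / (z.im : ℂ) ^ 2 =
          ∫ z, (((z.im : ℂ) * dz ζ z + Complex.I * m / 2 * ζ z) * u (m - 1) z
          + ((z.im : ℂ) * dzb ζ z + Complex.I * m / 2 * ζ z) * u (m + 1) z) / (z.im : ℂ) ^ 2 := by
        refine setIntegral_eq_integral_of_forall_compl_eq_zero fun z hz => ?_
        have hz' : z ∉ tsupport ζ := fun h => hz (ht.sub h)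
        have f1 : ζ z = 0 := image_eq_zero_of_notMem_tsupport hz'
        have f2 : dz ζ z = 0 :=
          image_eq_zero_of_notMem_tsupport fun h => hz' (tsupport_dz_subset ζ h)
        have f3 : dzb ζ z = 0 :=
          image_eq_zero_of_notMem_tsupport fun h => hz' (tsupport_dzb_subset ζ h)
        rw [f1, f2, f3]; ring
      rw [← e3]
      refine setIntegral_congr_fun isOpen_UH_FI.measurableSet fun z _ => ?_
      unfold cA cB
      linear_combination (-(z.im : ℂ) * dzb ζ z * u (m + 1) z / (z.im : ℂ) ^ 2 -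
        (z.im : ℂ) * dz ζ z * u (m - 1) z / (z.im : ℂ) ^ 2) * Complex.I_sq
    rw [e2, htr, mul_zero]
  · -- odd components
    set K := Hk (2 * m + 1) H with hK
    have hodd : ∀ q, K (-q) = -K q := Hk_neg ⟨m, rfl⟩ H
    have hKd : Differentiable ℝ K := (Hk_smooth _ hH).differentiable (by simp)
    have hXX : ∀ q, XX K (-q) = -XX K q := by
      intro q
      have h1 : HasFDerivAt (fun q => K (-q)) (-(fderiv ℝ K (-q))) q := by
        have := (hKd (-q)).hasFDerivAt.comp q (hasFDerivAt_id q).neg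
        refine this.congr_fderiv ?_
        ext v <;> simp
      have h2 : HasFDerivAt (fun q => K (-q)) (-(fderiv ℝ K q)) q := by
        have := (hKd q).hasFDerivAt.neg
        exact this.congr_of_eventuallyEq (Eventually.of_forall fun q => hodd q)
      have h3 := h1.unique h2
      have h4 : fderiv ℝ K (-q) = fderiv ℝ K q := neg_injective h3
      have h5 : Vq (-q) = -Vq q := by
        unfold Vq
        refine Prod.ext ?_ ?_ <;> simp [neg_div]
      unfold XX
      rw [h4, h5, map_neg]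
    have hme : MeasurableEmbedding fun g : SL(2, ℝ) => -g := negH.measurableEmbedding
    have h1 : ∫ g, XX K (iota g) ∂μ = -∫ g, XX K (iota g) ∂μ := by
      conv_lhs => rw [← hneg]
      rw [hme.integral_map]
      simp only [iota_neg, hXX]
      exact integral_neg _
    have h2 : (2 : ℂ) * ∫ g, XX K (iota g) ∂μ = 0 := by
      linear_combination h1
    exact (mul_eq_zero.1 h2).resolve_left two_ne_zero

end

end QE


end
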