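import Mathlib
import Pool.Agent.BWM.C04

/-! Parts: Lib_helper67.QE.FejerAlg, Lib_helper67.QE.FejerMult, Lib_helper67.QE.FejerKer, Lib_helper67.QE.FejerN, NCV.FlowGen -/

section

/-!
Module QH_E5, part A (helper27): directions of nearby frames.

If `v⁻¹ w` moves `i` by a small distance but is not close to `±1`, then the directions of `v` and `w`
are separated.
-/

open MeasureTheory Filter Topology
open UpperHalfPlane hiding I
open scoped ContDiff MatrixGroups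

namespace QE

namespace FejerN

noncomputable section

/-- the square of (twice the sinh of half) the distance from `i` to `h • i` -/
def dsq (h : SL(2, ℝ)) : ℝ := (h 0 0 - h 1 1) ^ 2 + (h 0 1 + h 1 0) ^ 2

lemma det_eq (g : SL(2, ℝ)) : g 0 0 * g 1 1 - g 0 1 * g 1 0 = 1 := by
  have h := g.det_coe
  rw [Matrix.det_fin_two] at h
  exact h

lemma den_I (g : SL(2, ℝ)) : den g Complex.I = ⟨g 1 1, g 1 0⟩ := by
  unfold den
  apply Complex.ext <;> simp

lemma q_pos (g : SL(2, ℝ)) : 0 < g 1 0 ^ 2 + g 1 1 ^ 2 := by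
  have h := det_eq g
  by_contra hc
  have h1 : g 1 0 = 0 := by nlinarith only [hc]
  have h2 : g 1 1 = 0 := by nlinarith only [hc]
  rw [h1, h2] at h
  norm_num at h

lemma norm_den_I_sq (g : SL(2, ℝ)) : ‖den g Complex.I‖ ^ 2 = g 1 0 ^ 2 + g 1 1 ^ 2 := by
  rw [den_I, ← Complex.normSq_eq_norm_sq, Complex.normSq_mk]
  ring

lemma norm_den_I_pos (g : SL(2, ℝ)) : 0 < ‖den g Complex.I‖ := by
  have := norm_den_I_sq g
  have h2 := q_pos g
  have h3 := norm_nonneg (den g Complex.I)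
  rcases h3.eq_or_lt with h | h
  · rw [← h] at this
    norm_num at this
    linarith
  · exact h

/-- coordinates of `g • i` -/
lemma smul_I_coe (g : SL(2, ℝ)) : ((g • UpperHalfPlane.I : ℍ) : ℂ) =
    ⟨(g 0 0 * g 1 0 + g 0 1 * g 1 1) / (g 1 0 ^ 2 + g 1 1 ^ 2),
      1 / (g 1 0 ^ 2 + g 1 1 ^ 2)⟩ := by
  have hq := q_pos g
  have hd := det_eq g
  rw [coe_specialLinearGroup_apply]
  have hne : ((algebraMap ℝ ℝ) (g 1 0) : ℂ) * (UpperHalfPlane.I : ℂ)
      + ((algebraMap ℝ ℝ) (g 1 1) : ℂ) ≠ 0 := by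
    intro h
    have h1 := congrArg Complex.re h
    have h2 := congrArg Complex.im h
    simp at h1 h2
    rw [h1, h2] at hq
    norm_num at hq
  rw [div_eq_iff hne]
  apply Complex.ext
  · simp
    field_simp
    linear_combination (- g 1 0) * hd
  · simp
    field_simp
    linear_combination (g 1 1) * hd

lemma im_smul_I (g : SL(2, ℝ)) : (g • UpperHalfPlane.I : ℍ).im = 1 / (g 1 0 ^ 2 + g 1 1 ^ 2) := by
  have := congrArg Complex.im (smul_I_coe g)
  exact this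

/-- `dsq (h)` is `|h•i - i|² / im (h•i)` -/
lemma dsq_eq (h : SL(2, ℝ)) :
    dsq h = ‖((h • UpperHalfPlane.I : ℍ) : ℂ) - Complex.I‖ ^ 2 * (h 1 0 ^ 2 + h 1 1 ^ 2) := by
  have hq := q_pos h
  have hd := det_eq h
  rw [smul_I_coe, ← Complex.normSq_eq_norm_sq, Complex.normSq_apply]
  simp only [Complex.sub_re, Complex.sub_im, Complex.I_re, Complex.I_im, sub_zero]
  unfold dsq
  field_simp
  have e : (h 0 0 * h 1 0 + h 0 1 * h 1 1) ^ 2 =
      (h 0 0 ^ 2 + h 0 1 ^ 2) * (h 1 0 ^ 2 + h 1 1 ^ 2) - 1 := by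
    have : (h 0 0 * h 1 0 + h 0 1 * h 1 1) ^ 2 =
      (h 0 0 ^ 2 + h 0 1 ^ 2) * (h 1 0 ^ 2 + h 1 1 ^ 2) - (h 0 0 * h 1 1 - h 0 1 * h 1 0) ^ 2 := by
      ring
    rw [this, hd]
    ring
  have e2 : (h 0 0 - h 1 1) ^ 2 + (h 0 1 + h 1 0) ^ 2 =
      h 0 0 ^ 2 + h 0 1 ^ 2 + h 1 0 ^ 2 + h 1 1 ^ 2 - 2 := by
    linear_combination (-2 : ℝ) * hd
  rw [e2]
  linear_combination (-1 : ℝ) * e

/-- the distance of two points in terms of the group element between the frames -/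
lemma dsq_inv_mul (g g' : SL(2, ℝ)) :
    dsq (g⁻¹ * g') * ((g • UpperHalfPlane.I : ℍ).im * (g' • UpperHalfPlane.I : ℍ).im) =
      ‖((g • UpperHalfPlane.I : ℍ) : ℂ) - ((g' • UpperHalfPlane.I : ℍ) : ℂ)‖ ^ 2 := by
  have h1 : dist (g • UpperHalfPlane.I : ℍ) (g' • UpperHalfPlane.I) =
      dist (UpperHalfPlane.I : ℍ) ((g⁻¹ * g') • UpperHalfPlane.I) := by
    rw [mul_smul, ← dist_smul g (UpperHalfPlane.I : ℍ), smul_inv_smul]
  have h2 := cosh_dist (g • UpperHalfPlane.I : ℍ) (g' • UpperHalfPlane.I)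
  have h3 := cosh_dist (UpperHalfPlane.I : ℍ) ((g⁻¹ * g') • UpperHalfPlane.I)
  rw [h1, h3] at h2
  have h4 := dsq_eq (g⁻¹ * g')
  have h5 : ((g⁻¹ * g') • UpperHalfPlane.I : ℍ).im *
      ((g⁻¹ * g') 1 0 ^ 2 + (g⁻¹ * g') 1 1 ^ 2) = 1 := by
    rw [im_smul_I]
    have := q_pos (g⁻¹ * g')
    field_simp
  have p1 := (g • UpperHalfPlane.I : ℍ).im_pos
  have p2 := (g' • UpperHalfPlane.I : ℍ).im_pos
  have p3 := ((g⁻¹ * g') • UpperHalfPlane.I : ℍ).im_pos
  rw [dist_comm (UpperHalfPlane.I : ℂ), Complex.dist_eq, Complex.dist_eq, I_im, coe_I] at h2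
  rw [h4]
  have h6 : ‖(((g⁻¹ * g') • UpperHalfPlane.I : ℍ) : ℂ) - Complex.I‖ ^ 2 *
      ((g • UpperHalfPlane.I : ℍ).im * (g' • UpperHalfPlane.I : ℍ).im) =
      ‖((g • UpperHalfPlane.I : ℍ) : ℂ) - ((g' • UpperHalfPlane.I : ℍ) : ℂ)‖ ^ 2 *
      ((g⁻¹ * g') • UpperHalfPlane.I : ℍ).im := by
    have h7 := add_left_cancel h2
    rw [div_eq_div_iff (by positivity) (by positivity)] at h7
    linear_combination (1 / 2 : ℝ) * h7
  linear_combination ((g⁻¹ * g') 1 0 ^ 2 + (g⁻¹ * g') 1 1 ^ 2) * h6 +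
    ‖((g • UpperHalfPlane.I : ℍ) : ℂ) - ((g' • UpperHalfPlane.I : ℍ) : ℂ)‖ ^ 2 * h5

/-- the point `h • i` as a quotient -/
lemma smul_I_mul_den (h : SL(2, ℝ)) : ((h • UpperHalfPlane.I : ℍ) : ℂ) * den h Complex.I =
    ((h 0 0 : ℝ) : ℂ) * Complex.I + ((h 0 1 : ℝ) : ℂ) := by
  have hq := q_pos h
  have hd := det_eq h
  rw [smul_I_coe, den_I]
  apply Complex.ext
  · simp
    field_simp
    linear_combination (h 1 0) * hd
  · simp
    field_simp
    linear_combination (- h 1 1) * hd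

lemma den_mul_I (g h : SL(2, ℝ)) :
    den (g * h) Complex.I = den g ((h • UpperHalfPlane.I : ℍ) : ℂ) * den h Complex.I := by
  have e1 := smul_I_mul_den h
  have e2 : den h Complex.I = ((h 1 0 : ℝ) : ℂ) * Complex.I + ((h 1 1 : ℝ) : ℂ) := rfl
  have e3 : (g * h) 1 0 = g 1 0 * h 0 0 + g 1 1 * h 1 0 := by
    simp [Matrix.mul_apply, Fin.sum_univ_two]
  have e4 : (g * h) 1 1 = g 1 0 * h 0 1 + g 1 1 * h 1 1 := by
    simp [Matrix.mul_apply, Fin.sum_univ_two]
  have e5 : den (g * h) Complex.I = (((g * h) 1 0 : ℝ) : ℂ) * Complex.I + (((g * h) 1 1 : ℝ) : ℂ) :=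
    rfl
  have e6 : den g ((h • UpperHalfPlane.I : ℍ) : ℂ) =
    ((g 1 0 : ℝ) : ℂ) * ((h • UpperHalfPlane.I : ℍ) : ℂ) + ((g 1 1 : ℝ) : ℂ) := rfl
  rw [e5, e3, e4, e6, add_mul, mul_assoc, e1, e2]
  push_cast
  ring

lemma phase_mul_I (g h : SL(2, ℝ)) : phase (g * h) Complex.I =
    phase g ((h • UpperHalfPlane.I : ℍ) : ℂ) * phase h Complex.I := by
  unfold phase
  rw [den_mul_I, map_mul, norm_mul]
  push_cast
  rw [mul_div_mul_comm, mul_pow]

lemma norm_phase {g : SL(2, ℝ)} {z : ℂ} (h : den g z ≠ 0) : ‖phase g z‖ = 1 := by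
  unfold phase
  rw [norm_pow, norm_div, RCLike.norm_conj, Complex.norm_real, norm_norm,
    div_self (norm_ne_zero_iff.2 h), one_pow]

lemma norm_phase_I (g : SL(2, ℝ)) : ‖phase g Complex.I‖ = 1 :=
  norm_phase (norm_pos_iff.1 (norm_den_I_pos g))

lemma norm_dirG' (g : SL(2, ℝ)) : ‖dirG g‖ = 1 := by
  unfold dirG
  rw [norm_mul, Complex.norm_I, one_mul, norm_phase_I]

/-- unit vectors of nearby vectors -/
lemma unit_sub_le (a b : ℂ) (hb : b ≠ 0) : ‖a / (‖a‖ : ℂ) - b / (‖b‖ : ℂ)‖ ≤ 2 * ‖a - b‖ / ‖b‖ := by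
  have hb' : 0 < ‖b‖ := norm_pos_iff.2 hb
  by_cases ha : a = 0
  · subst ha
    simp only [zero_div, zero_sub, norm_neg, norm_div, Complex.norm_real, norm_norm]
    rw [div_self hb'.ne', mul_div_assoc, div_self hb'.ne']
    norm_num
  · have ha' : 0 < ‖a‖ := norm_pos_iff.2 ha
    have e : a / (‖a‖ : ℂ) - b / (‖b‖ : ℂ) =
        (a - b) / (‖b‖ : ℂ) + a / (‖a‖ : ℂ) * (((‖b‖ - ‖a‖ : ℝ) : ℂ) / (‖b‖ : ℂ)) := by
      have h1 : (‖a‖ : ℂ) ≠ 0 := by exact_mod_cast ha'.ne'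
      have h2 : (‖b‖ : ℂ) ≠ 0 := by exact_mod_cast hb'.ne'
      push_cast
      field_simp
      ring
    rw [e]
    refine (norm_add_le _ _).trans ?_
    rw [norm_div, norm_mul, norm_div, norm_div, Complex.norm_real, Complex.norm_real,
      Complex.norm_real, norm_norm, norm_norm, div_self ha'.ne', one_mul, Real.norm_eq_abs]
    have h3 : |‖b‖ - ‖a‖| ≤ ‖a - b‖ := by
      rw [norm_sub_rev]
      exact abs_norm_sub_norm_le b a
    rw [← add_div]
    gcongr
    linarith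

/-- the phase of `g` varies slowly -/
lemma phase_sub_le (g : SL(2, ℝ)) (z : ℂ) (hz : den g z ≠ 0) :
    ‖phase g z - phase g Complex.I‖ ≤ 4 * ‖z - Complex.I‖ := by
  have hb := norm_den_I_pos g
  have hbne : den g Complex.I ≠ 0 := norm_pos_iff.1 hb
  have h1 : ‖den g z - den g Complex.I‖ ≤ ‖den g Complex.I‖ * ‖z - Complex.I‖ := by
    have e : den g z - den g Complex.I = ((g 1 0 : ℝ) : ℂ) * (z - Complex.I) := by
      unfold den
      ring
    rw [e, norm_mul, Complex.norm_real, Real.norm_eq_abs]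
    gcongr
    have := norm_den_I_sq g
    refine abs_le_of_sq_le_sq ?_ hb.le
    nlinarith [sq_nonneg (g 1 1)]
  set u : ℂ := (starRingEnd ℂ) (den g z) / (‖den g z‖ : ℂ) with hu
  set v : ℂ := (starRingEnd ℂ) (den g Complex.I) / (‖den g Complex.I‖ : ℂ) with hv
  have hu1 : ‖u‖ = 1 := by
    rw [hu, norm_div, RCLike.norm_conj, Complex.norm_real, norm_norm,
      div_self (norm_ne_zero_iff.2 hz)]
  have hv1 : ‖v‖ = 1 := by
    rw [hv, norm_div, RCLike.norm_conj, Complex.norm_real, norm_norm,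
      div_self hb.ne']
  have huv : ‖u - v‖ ≤ 2 * ‖z - Complex.I‖ := by
    have e : u - v = (starRingEnd ℂ) (den g z / (‖den g z‖ : ℂ)
        - den g Complex.I / (‖den g Complex.I‖ : ℂ)) := by
      rw [hu, hv, map_sub, map_div₀, map_div₀, Complex.conj_ofReal, Complex.conj_ofReal]
    rw [e, RCLike.norm_conj]
    refine (unit_sub_le _ _ hbne).trans ?_
    rw [div_le_iff₀ hb]
    linarith only [h1]
  have e2 : phase g z - phase g Complex.I = (u + v) * (u - v) := by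
    unfold phase
    ring
  rw [e2, norm_mul]
  have h4 : ‖u + v‖ ≤ 2 := (norm_add_le _ _).trans (by rw [hu1, hv1]; norm_num)
  nlinarith [norm_nonneg (u - v), norm_nonneg (u + v)]

/-- the phase of `h` at `i` is far from one if `h 1 0` is not small -/
lemma phase_I_sub_one (h : SL(2, ℝ)) :
    2 * |h 1 0| = ‖phase h Complex.I - 1‖ * ‖den h Complex.I‖ := by
  have hb := norm_den_I_pos h
  set w : ℂ := (starRingEnd ℂ) (den h Complex.I) / (‖den h Complex.I‖ : ℂ) with hw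
  have hw1 : ‖w‖ = 1 := by
    rw [hw, norm_div, RCLike.norm_conj, Complex.norm_real, norm_norm, div_self hb.ne']
  have h1 : w * (starRingEnd ℂ) w = 1 := by
    rw [Complex.mul_conj, Complex.normSq_eq_norm_sq, hw1]
    norm_num
  have h2 : phase h Complex.I - 1 = w * (w - (starRingEnd ℂ) w) := by
    unfold phase
    rw [mul_sub, h1]
    ring
  have h3 : w - (starRingEnd ℂ) w = ((2 * w.im : ℝ) : ℂ) * Complex.I := by
    rw [Complex.sub_conj]
  have h4 : w.im = - h 1 0 / ‖den h Complex.I‖ := by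
    rw [hw, den_I, Complex.div_ofReal_im]
    simp
  rw [h2, norm_mul, hw1, one_mul, h3, norm_mul, Complex.norm_I, mul_one, Complex.norm_real,
    Real.norm_eq_abs, h4, abs_mul, abs_div, abs_neg, abs_of_pos hb]
  simp only [Nat.abs_ofNat]
  field_simp

/-- **separation of directions**: if `g⁻¹ g'` moves `i` a little but is not in `Kset`, the directions
of `g` and `g'` differ by at least `ε / 8` -/
lemma dir_sep (g g' : SL(2, ℝ)) (d ε : ℝ) (hd : 0 < d) (hdε : d ≤ ε / 64) (hε : ε ≤ 1)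
    (h1 : dsq (g⁻¹ * g') < d ^ 2) (h2 : g⁻¹ * g' ∉ Kset d ε) :
    ε / 8 ≤ ‖dirG g' - dirG g‖ := by
  set h : SL(2, ℝ) := g⁻¹ * g' with hh
  have hg' : g' = g * h := by rw [hh, mul_inv_cancel_left]
  have h3 : ε ≤ |h 0 1 - h 1 0| := by
    by_contra hc
    exact h2 ⟨h1, not_le.1 hc⟩
  have hq := q_pos h
  have hdet := det_eq h
  have hdd : dsq h = h 0 0 ^ 2 + h 0 1 ^ 2 + h 1 0 ^ 2 + h 1 1 ^ 2 - 2 := by
    unfold dsq
    linear_combination (-2 : ℝ) * hdet
  have hd1 : d ≤ 1 / 64 := by linarith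
  have hd2 : d ^ 2 ≤ 1 := by nlinarith only [hd, hdε, hε]
  have hsum : |h 0 1 + h 1 0| < d := by
    apply abs_lt_of_sq_lt_sq _ hd.le
    unfold dsq at h1
    linarith only [h1, sq_nonneg (h 0 0 - h 1 1)]
  have h10 : ε / 4 ≤ |h 1 0| := by
    have e : h 0 1 - h 1 0 = (h 0 1 + h 1 0) - 2 * h 1 0 := by ring
    have := abs_sub (h 0 1 + h 1 0) (2 * h 1 0)
    rw [← e, abs_mul] at this
    have h2' : |(2 : ℝ)| = 2 := by norm_num
    rw [h2'] at this
    linarith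
  -- bounds for the size of the denominator
  have hq3 : h 1 0 ^ 2 + h 1 1 ^ 2 ≤ 3 := by
    linarith only [h1, hdd, hd2, sq_nonneg (h 0 0), sq_nonneg (h 0 1)]
  have hP3 : h 0 0 ^ 2 + h 0 1 ^ 2 ≤ 3 := by
    linarith only [h1, hq, hdd, hd2]
  have hq13 : 1 / 3 ≤ h 1 0 ^ 2 + h 1 1 ^ 2 := by
    have e : (h 0 0 ^ 2 + h 0 1 ^ 2) * (h 1 0 ^ 2 + h 1 1 ^ 2) =
        (h 0 0 * h 1 0 + h 0 1 * h 1 1) ^ 2 + (h 0 0 * h 1 1 - h 0 1 * h 1 0) ^ 2 := by ring
    rw [hdet] at e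
    nlinarith only [h1, hdd, hd2, e]
  have hρ : ‖den h Complex.I‖ ≤ 2 := by
    have := norm_den_I_sq h
    nlinarith only [hdε, hε, hdd, this, hd, h1]
  have hb := norm_den_I_pos h
  have hA : ε / 4 ≤ ‖phase h Complex.I - 1‖ := by
    have e := phase_I_sub_one h
    have : 2 * |h 1 0| ≤ ‖phase h Complex.I - 1‖ * 2 := by
      rw [e]
      exact mul_le_mul_of_nonneg_left hρ (norm_nonneg _)
    linarith only [h10, this]
  -- the point `h • i` is close to `i`
  have hz : ‖((h • UpperHalfPlane.I : ℍ) : ℂ) - Complex.I‖ ≤ 2 * d := by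
    have e := dsq_eq h
    have h5 : ‖((h • UpperHalfPlane.I : ℍ) : ℂ) - Complex.I‖ ^ 2 ≤ (2 * d) ^ 2 := by
      have h6 : ‖((h • UpperHalfPlane.I : ℍ) : ℂ) - Complex.I‖ ^ 2 * (1 / 3) ≤ dsq h := by
        rw [e]
        exact mul_le_mul_of_nonneg_left hq13 (sq_nonneg _)
      nlinarith only [h1, h6]
    exact le_of_sq_le_sq h5 (by positivity)
  have hden : den g ((h • UpperHalfPlane.I : ℍ) : ℂ) ≠ 0 := by
    intro h0
    have := den_mul_I g h
    rw [h0, zero_mul] at this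
    exact (norm_pos_iff.1 (norm_den_I_pos (g * h))) this
  have hB := phase_sub_le g ((h • UpperHalfPlane.I : ℍ) : ℂ) hden
  have e3 : dirG g' - dirG g = Complex.I *
      (phase g ((h • UpperHalfPlane.I : ℍ) : ℂ) * (phase h Complex.I - 1) +
        (phase g ((h • UpperHalfPlane.I : ℍ) : ℂ) - phase g Complex.I)) := by
    unfold dirG
    rw [hg', phase_mul_I]
    ring
  rw [e3, norm_mul, Complex.norm_I, one_mul]
  have h7 : ‖phase g ((h • UpperHalfPlane.I : ℍ) : ℂ) * (phase h Complex.I - 1)‖ -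
      ‖phase g ((h • UpperHalfPlane.I : ℍ) : ℂ) - phase g Complex.I‖ ≤
      ‖phase g ((h • UpperHalfPlane.I : ℍ) : ℂ) * (phase h Complex.I - 1) +
        (phase g ((h • UpperHalfPlane.I : ℍ) : ℂ) - phase g Complex.I)‖ := by
    have := norm_sub_norm_le (phase g ((h • UpperHalfPlane.I : ℍ) : ℂ) * (phase h Complex.I - 1))
      (-(phase g ((h • UpperHalfPlane.I : ℍ) : ℂ) - phase g Complex.I))
    rw [norm_neg, sub_neg_eq_add] at this
    exact this
  rw [norm_mul, norm_phase hden, one_mul] at h7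
  linarith

end

end FejerN

end QE


end

section

/-!
Module QH_E5, part B (helper27): a group with a fundamental domain for the hyperbolic area is
discrete; integrals over compact sets are bounded by integrals over the fundamental domain.
-/

open MeasureTheory Filter Topology Set Pointwise
open UpperHalfPlane hiding I
open scoped ContDiff MatrixGroups ENNReal

namespace QE

namespace FejerN

noncomputable section

variable [MeasurableSpace SL(2, ℝ)] [BorelSpace SL(2, ℝ)]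
variable {Γ : Subgroup SL(2, ℝ)} {D : Set ℍ}

/-- a countable group with a fundamental domain is discrete -/
lemma discrete_of_fund [Countable Γ] (hDm : MeasurableSet D)
    (hD : IsFundamentalDomain Γ D (volume : Measure ℍ)) :
    ∃ V ∈ 𝓝 (1 : SL(2, ℝ)), ∀ γ ∈ Γ, γ ∈ V → γ = 1 := by
  classical
  have hF := Berry.fd_isFund hD
  have hFm : MeasurableSet (Berry.Fd D) := Berry.proj_measurable hDm
  have hne : (Berry.nuF : Measure SL(2, ℝ)) (Berry.Fd D) ≠ 0 := by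
    rw [Berry.nuF_fd hDm]
    refine mul_ne_zero ?_ ?_
    · refine hD.measure_ne_zero ?_
      intro h0
      have := Berry.volume_pos_of_isOpen isOpen_univ ⟨UpperHalfPlane.I, mem_univ UpperHalfPlane.I⟩
      rw [h0] at this
      simp at this
    · rw [Ne, ENNReal.ofReal_eq_zero, not_le]
      positivity
  set B : Set SL(2, ℝ) := ⋃ γ : {γ : Γ // γ ≠ 1}, (Berry.Fd D ∩ (γ.1 • Berry.Fd D)) with hB
  have hBm : MeasurableSet B := by
    refine MeasurableSet.iUnion fun γ => hFm.inter ?_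
    exact hFm.const_smul γ.1
  have hB0 : (Berry.nuF : Measure SL(2, ℝ)) B = 0 := by
    rw [hB, measure_iUnion_null_iff]
    intro γ
    have h := hF.aedisjoint (show (1 : Γ) ≠ γ.1 from fun h => γ.2 h.symm)
    have h2 : (Berry.nuF : Measure SL(2, ℝ)) ((1 : Γ) • Berry.Fd D ∩ γ.1 • Berry.Fd D) = 0 := h
    rwa [one_smul] at h2
  set E : Set SL(2, ℝ) := Berry.Fd D \ B with hE
  have hEm : MeasurableSet E := hFm.diff hBm
  have hEpos : 0 < (Berry.nuF : Measure SL(2, ℝ)) E := by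
    rw [hE, measure_sdiff_null hB0]
    exact pos_iff_ne_zero.2 hne
  have hst := Measure.div_mem_nhds_one_of_haar_pos (Berry.nuF : Measure SL(2, ℝ)) E hEm hEpos
  refine ⟨E / E, hst, ?_⟩
  intro γ hγ hm
  obtain ⟨a, ha, b, hb, hab⟩ := hm
  by_contra hne1
  have h1 : a = γ * b := by
    rw [← hab]
    simp
  apply ha.2
  rw [hB, mem_iUnion]
  refine ⟨⟨⟨γ, hγ⟩, fun h => hne1 (congrArg Subtype.val h)⟩, ha.1, ?_⟩
  rw [h1]
  exact ⟨b, hb.1, rfl⟩

/-- the number of `γ` with `γ g i ∈ S` is bounded, for a compact set `S` -/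
lemma mult_bound [Countable Γ] (hDm : MeasurableSet D)
    (hD : IsFundamentalDomain Γ D (volume : Measure ℍ)) {S : Set ℍ} (hS : IsCompact S) :
    ∃ M : ℕ, ∀ g : SL(2, ℝ), ∀ t : Finset Γ,
      (∀ γ ∈ t, ((γ : SL(2, ℝ)) * g) ∈ Berry.Fd S) → t.card ≤ M := by
  classical
  obtain ⟨V, hV, hVd⟩ := discrete_of_fund hDm hD
  obtain ⟨W, hW, hWV⟩ := exists_nhds_split_inv hV
  have hc : IsCompact (Berry.Fd S) := isProperMap_smul_I.isCompact_preimage hS
  obtain ⟨t₀, ht₀, hcov⟩ := hc.elim_nhds_subcover (fun x => (fun y => y * x⁻¹) ⁻¹' W) (by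
    intro x _
    apply ContinuousAt.preimage_mem_nhds (continuous_mul_const x⁻¹).continuousAt
    rw [mul_inv_cancel]
    exact hW)
  refine ⟨t₀.card, ?_⟩
  intro g t ht
  have hch : ∀ γ : Γ, ∃ x : SL(2, ℝ), γ ∈ t → x ∈ t₀ ∧ ((γ : SL(2, ℝ)) * g) * x⁻¹ ∈ W := by
    intro γ
    by_cases h : γ ∈ t
    · have h1 := hcov (ht γ h)
      rw [mem_iUnion₂] at h1
      obtain ⟨x, hx, hx2⟩ := h1
      exact ⟨x, fun _ => ⟨hx, hx2⟩⟩
    · exact ⟨1, fun h' => absurd h' h⟩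
  choose c hcc using hch
  apply Finset.card_le_card_of_injOn c
  · intro γ hγ
    exact (hcc γ hγ).1
  · intro γ hγ γ' hγ' he
    have h1 := (hcc γ hγ).2
    have h2 := (hcc γ' hγ').2
    rw [← he] at h2
    have h3 := hWV _ h1 _ h2
    have h4 : (γ : SL(2, ℝ)) * g * (c γ)⁻¹ / ((γ' : SL(2, ℝ)) * g * (c γ)⁻¹) =
        ((γ * γ'⁻¹ : Γ) : SL(2, ℝ)) := by
      simp [div_eq_mul_inv, mul_assoc]
    rw [h4] at h3
    have h5 := hVd _ (γ * γ'⁻¹).2 h3
    have h6 : γ * γ'⁻¹ = 1 := Subtype.ext h5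
    exact mul_inv_eq_one.1 h6

variable {μ : Measure SL(2, ℝ)} {p : ℍ → ℝ}

lemma proj_ac (hμ : FlowMeas0 Γ D μ p) :
    Measure.QuasiMeasurePreserving (fun g : SL(2, ℝ) => g • UpperHalfPlane.I) μ
      (volume : Measure ℍ) := by
  refine ⟨Berry.proj_measurable, ?_⟩
  refine Measure.AbsolutelyContinuous.mk fun s hs h0 => ?_
  rw [Measure.map_apply Berry.proj_measurable hs, hμ.proj s hs]
  exact setLIntegral_measure_zero s _ h0

lemma fd_isFund_mu (hD : IsFundamentalDomain Γ D (volume : Measure ℍ)) (hμ : FlowMeas0 Γ D μ p) :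
    IsFundamentalDomain Γ (Berry.Fd D) μ :=
  hD.preimage_of_equiv (proj_ac hμ) (e := id) Function.bijective_id fun γ g => by
    show (γ • g) • UpperHalfPlane.I = γ • (g • UpperHalfPlane.I)
    exact mul_smul (γ : SL(2, ℝ)) g UpperHalfPlane.I

/-- integrals of invariant functions over compact sets are bounded by integrals over the fundamental
domain -/
lemma lintegral_compact_le [Countable Γ] (hDm : MeasurableSet D)
    (hD : IsFundamentalDomain Γ D (volume : Measure ℍ)) (hμ : FlowMeas0 Γ D μ p)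
    {S : Set ℍ} (hS : IsCompact S) :
    ∃ M : ℕ, ∀ f : SL(2, ℝ) → ℝ≥0∞, Measurable f → (∀ γ ∈ Γ, ∀ g, f (γ * g) = f g) →
      ∫⁻ g in Berry.Fd S, f g ∂μ ≤ M * ∫⁻ g in Berry.Fd D, f g ∂μ := by
  classical
  obtain ⟨M, hM⟩ := mult_bound hDm hD hS
  refine ⟨M, ?_⟩
  intro f hf hinv
  have hinvm : SMulInvariantMeasure Γ SL(2, ℝ) μ := by
    constructor
    intro γ s hs
    have h1 := hμ.left γ γ.2
    have hm : Measurable fun g : SL(2, ℝ) => (γ : SL(2, ℝ)) * g :=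
      (continuous_const_mul _).measurable
    conv_rhs => rw [← h1]
    rw [Measure.map_apply hm hs]
    rfl
  have hF := fd_isFund_mu hD hμ
  have hFm : MeasurableSet (Berry.Fd D) := Berry.proj_measurable hDm
  have hSm : MeasurableSet (Berry.Fd S) := Berry.proj_measurable hS.isClosed.measurableSet
  rw [hF.setLIntegral_eq_tsum' f (Berry.Fd S)]
  have h1 : ∀ γ : Γ, ∫⁻ x in γ • Berry.Fd S ∩ Berry.Fd D, f (γ⁻¹ • x) ∂μ =
      ∫⁻ x in Berry.Fd D, (γ • Berry.Fd S).indicator f x ∂μ := by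
    intro γ
    have hm : MeasurableSet (γ • Berry.Fd S) := hSm.const_smul γ
    rw [lintegral_indicator hm, Measure.restrict_restrict hm]
    apply lintegral_congr
    intro x
    exact hinv _ (γ⁻¹).2 x
  simp only [h1]
  rw [← lintegral_tsum (fun γ => (hf.indicator (hSm.const_smul γ)).aemeasurable)]
  rw [← lintegral_const_mul _ hf]
  apply lintegral_mono
  intro x
  show ∑' γ : Γ, (γ • Berry.Fd S).indicator f x ≤ (M : ℝ≥0∞) * f x
  rw [ENNReal.tsum_eq_iSup_sum]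
  apply iSup_le
  intro t
  have h2 : ∀ γ ∈ t, (γ • Berry.Fd S).indicator f x =
      if x ∈ γ • Berry.Fd S then f x else 0 := fun γ _ => by
    simp [indicator]
  rw [Finset.sum_congr rfl h2, ← Finset.sum_filter, Finset.sum_const, nsmul_eq_mul]
  gcongr
  have h3 := hM x ((t.filter fun γ => x ∈ γ • Berry.Fd S).image fun γ => γ⁻¹) (by
    intro γ hγ
    rw [Finset.mem_image] at hγ
    obtain ⟨γ', hγ', rfl⟩ := hγ
    rw [Finset.mem_filter] at hγ'
    have := hγ'.2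
    rw [mem_smul_set_iff_inv_smul_mem] at this
    exact this)
  rw [Finset.card_image_of_injective _ inv_injective] at h3
  exact_mod_cast h3

end

end FejerN

end QE


end

section

/-!
Module QH_E5, part C (helper27): the Dirichlet kernel, and the sum of the squares of the Fourier
coefficients of a measure.
-/

open MeasureTheory Filter Topology Set
open scoped ENNReal

namespace QE

namespace FejerN

noncomputable section

/-- symmetric sums of powers -/
def dsum (N : ℕ) (w : ℂ) : ℂ := ∑ k ∈ Finset.Ioo (-(N : ℤ)) N, w ^ k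

lemma card_Ioo_le (N : ℕ) : (Finset.Ioo (-(N : ℤ)) N).card ≤ 2 * N := by
  rw [Int.card_Ioo]
  omega

lemma norm_dsum_le (N : ℕ) (w : ℂ) (hw : ‖w‖ = 1) : ‖dsum N w‖ ≤ 2 * N := by
  unfold dsum
  refine (norm_sum_le _ _).trans ?_
  have h1 : ∀ k ∈ Finset.Ioo (-(N : ℤ)) N, ‖w ^ k‖ = 1 := fun k _ => by
    rw [norm_zpow, hw, one_zpow]
  rw [Finset.sum_congr rfl h1, Finset.sum_const, nsmul_eq_mul, mul_one]
  exact_mod_cast card_Ioo_le N

lemma dsum_mul (w : ℂ) (hw0 : w ≠ 0) (N : ℕ) :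
    (w - 1) * dsum (N + 1) w = w ^ ((N : ℤ) + 1) - w ^ (-(N : ℤ)) := by
  induction N with
  | zero =>
    have : Finset.Ioo (-((0 + 1 : ℕ) : ℤ)) ((0 + 1 : ℕ) : ℤ) = {0} := by decide
    unfold dsum
    rw [this, Finset.sum_singleton]
    simp
  | succ N ih =>
    have hset : Finset.Ioo (-((N + 1 + 1 : ℕ) : ℤ)) ((N + 1 + 1 : ℕ) : ℤ) =
        insert ((N : ℤ) + 1) (insert (-((N : ℤ) + 1))
          (Finset.Ioo (-((N + 1 : ℕ) : ℤ)) ((N + 1 : ℕ) : ℤ))) := by
      ext x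
      simp only [Finset.mem_Ioo, Finset.mem_insert]
      push_cast
      omega
    have hn1 : ((N : ℤ) + 1) ∉ insert (-((N : ℤ) + 1))
          (Finset.Ioo (-((N + 1 : ℕ) : ℤ)) ((N + 1 : ℕ) : ℤ)) := by
      simp only [Finset.mem_Ioo, Finset.mem_insert]
      push_cast
      omega
    have hn2 : -((N : ℤ) + 1) ∉ (Finset.Ioo (-((N + 1 : ℕ) : ℤ)) ((N + 1 : ℕ) : ℤ)) := by
      simp only [Finset.mem_Ioo]
      push_cast
      omega
    have h1 : dsum (N + 1 + 1) w = w ^ ((N : ℤ) + 1) + (w ^ (-((N : ℤ) + 1)) + dsum (N + 1) w) := by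
      unfold dsum
      rw [hset, Finset.sum_insert hn1, Finset.sum_insert hn2]
    rw [h1, mul_add, mul_add, ih]
    have e1 : w ^ ((N : ℤ) + 1 + 1) = w * w ^ ((N : ℤ) + 1) := by
      rw [zpow_add₀ hw0 ((N : ℤ) + 1) 1, zpow_one, mul_comm]
    have e2 : w ^ (-(N : ℤ)) = w * w ^ (-((N : ℤ) + 1)) := by
      rw [← zpow_one_add₀ hw0]
      congr 1
      ring
    push_cast
    rw [e1, e2]
    ring

lemma norm_dsum_mul_le (N : ℕ) (w : ℂ) (hw : ‖w‖ = 1) : ‖w - 1‖ * ‖dsum N w‖ ≤ 2 := by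
  have hw0 : w ≠ 0 := by
    intro h
    rw [h, norm_zero] at hw
    exact zero_ne_one hw
  cases N with
  | zero =>
    have : dsum 0 w = 0 := by
      unfold dsum
      simp
    rw [this, norm_zero, mul_zero]
    norm_num
  | succ N =>
    rw [← norm_mul, dsum_mul w hw0]
    refine (norm_sub_le _ _).trans ?_
    rw [norm_zpow, norm_zpow, hw, one_zpow, one_zpow]
    norm_num

variable {X : Type*} [MeasurableSpace X]

/-- sum of squares of Fourier coefficients, as a double integral -/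
lemma sum_sq_le (μ : Measure X) [SFinite μ] (φ : X → ℝ) (hφ0 : ∀ x, 0 ≤ φ x)
    (hφ : Integrable φ μ) (hφm : Measurable φ) (a : X → ℂ) (ha : Measurable a)
    (ha1 : ∀ x, ‖a x‖ = 1) (N : ℕ) :
    ENNReal.ofReal (∑ k ∈ Finset.Ioo (-(N : ℤ)) N,
      ‖∫ x, (φ x : ℂ) * (starRingEnd ℂ) (a x ^ k) ∂μ‖ ^ 2) ≤
    ∫⁻ x, ∫⁻ y, ENNReal.ofReal (φ x) * ENNReal.ofReal (φ y) *
      ENNReal.ofReal ‖dsum N ((starRingEnd ℂ) (a x) * a y)‖ ∂μ ∂μ := by
  have hint : ∀ k : ℤ, Integrable (fun x => (φ x : ℂ) * (starRingEnd ℂ) (a x ^ k)) μ := by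
    intro k
    refine (hφ.ofReal (𝕜 := ℂ)).mul_bdd (c := 1) ?_ ?_
    · exact (Complex.continuous_conj.measurable.comp (ha.pow_const k)).aestronglyMeasurable
    · refine Eventually.of_forall fun x => ?_
      rw [RCLike.norm_conj, norm_zpow, ha1, one_zpow]
  have hint' : ∀ k : ℤ, Integrable (fun x => (φ x : ℂ) * (a x ^ k)) μ := by
    intro k
    refine (hφ.ofReal (𝕜 := ℂ)).mul_bdd (c := 1) ?_ ?_
    · exact (ha.pow_const k).aestronglyMeasurable
    · refine Eventually.of_forall fun x => ?_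
      rw [norm_zpow, ha1, one_zpow]
  have h1 : ∀ k : ℤ, ((‖∫ x, (φ x : ℂ) * (starRingEnd ℂ) (a x ^ k) ∂μ‖ ^ 2 : ℝ) : ℂ) =
      ∫ z : X × X, ((φ z.1 : ℂ) * (starRingEnd ℂ) (a z.1 ^ k)) * ((φ z.2 : ℂ) * (a z.2 ^ k))
        ∂(μ.prod μ) := by
    intro k
    rw [integral_prod_mul (fun x => (φ x : ℂ) * (starRingEnd ℂ) (a x ^ k))
      (fun x => (φ x : ℂ) * (a x ^ k))]
    have h2 : ∫ x, (φ x : ℂ) * (a x ^ k) ∂μ =
        (starRingEnd ℂ) (∫ x, (φ x : ℂ) * (starRingEnd ℂ) (a x ^ k) ∂μ) := by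
      rw [← integral_conj]
      apply integral_congr_ae
      refine Eventually.of_forall fun x => ?_
      simp
    rw [h2, Complex.mul_conj, Complex.normSq_eq_norm_sq]
  have hprod : ∀ k : ℤ, Integrable (fun z : X × X =>
      ((φ z.1 : ℂ) * (starRingEnd ℂ) (a z.1 ^ k)) * ((φ z.2 : ℂ) * (a z.2 ^ k))) (μ.prod μ) :=
    fun k => (hint k).mul_prod (hint' k)
  have h3 : ((∑ k ∈ Finset.Ioo (-(N : ℤ)) N,
      ‖∫ x, (φ x : ℂ) * (starRingEnd ℂ) (a x ^ k) ∂μ‖ ^ 2 : ℝ) : ℂ) =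
      ∫ z : X × X, ((φ z.1 : ℂ) * (φ z.2 : ℂ)) * dsum N ((starRingEnd ℂ) (a z.1) * a z.2)
        ∂(μ.prod μ) := by
    push_cast
    have h4 : ∀ k ∈ Finset.Ioo (-(N : ℤ)) N,
        ((‖∫ x, (φ x : ℂ) * (starRingEnd ℂ) (a x ^ k) ∂μ‖ : ℂ)) ^ 2 =
        ∫ z : X × X, ((φ z.1 : ℂ) * (starRingEnd ℂ) (a z.1 ^ k)) * ((φ z.2 : ℂ) * (a z.2 ^ k))
        ∂(μ.prod μ) := by
      intro k _
      rw [← h1 k]
      push_cast
      rfl
    rw [Finset.sum_congr rfl h4, ← integral_finsetSum _ (fun k _ => hprod k)]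
    apply integral_congr_ae
    refine Eventually.of_forall fun z => ?_
    simp only [dsum, Finset.mul_sum]
    refine Finset.sum_congr rfl fun k _ => ?_
    rw [map_zpow₀, mul_zpow]
    ring
  have h5 : 0 ≤ ∑ k ∈ Finset.Ioo (-(N : ℤ)) N,
      ‖∫ x, (φ x : ℂ) * (starRingEnd ℂ) (a x ^ k) ∂μ‖ ^ 2 :=
    Finset.sum_nonneg fun k _ => sq_nonneg _
  have h6 : ENNReal.ofReal (∑ k ∈ Finset.Ioo (-(N : ℤ)) N,
      ‖∫ x, (φ x : ℂ) * (starRingEnd ℂ) (a x ^ k) ∂μ‖ ^ 2) =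
      ‖∫ z : X × X, ((φ z.1 : ℂ) * (φ z.2 : ℂ)) * dsum N ((starRingEnd ℂ) (a z.1) * a z.2)
        ∂(μ.prod μ)‖ₑ := by
    rw [← h3, ← ofReal_norm, Complex.norm_real, Real.norm_eq_abs, abs_of_nonneg h5]
  rw [h6]
  refine (enorm_integral_le_lintegral_enorm _).trans ?_
  have hdm : Measurable fun z : X × X => dsum N ((starRingEnd ℂ) (a z.1) * a z.2) := by
    unfold dsum
    refine Finset.measurable_sum _ fun k _ => ?_
    refine Measurable.pow_const ?_ k
    exact (Complex.continuous_conj.measurable.comp (ha.comp measurable_fst)).mul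
      (ha.comp measurable_snd)
  rw [lintegral_prod]
  · apply lintegral_mono
    intro x
    apply lintegral_mono
    intro y
    simp only
    rw [← ofReal_norm, norm_mul, norm_mul, Complex.norm_real, Complex.norm_real,
      Real.norm_eq_abs, Real.norm_eq_abs, abs_of_nonneg (hφ0 x), abs_of_nonneg (hφ0 y),
      ENNReal.ofReal_mul (mul_nonneg (hφ0 x) (hφ0 y)), ENNReal.ofReal_mul (hφ0 x)]
  · apply Measurable.aemeasurable
    apply Measurable.enorm
    exact ((Complex.measurable_ofReal.comp (hφm.comp measurable_fst)).mul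
      (Complex.measurable_ofReal.comp (hφm.comp measurable_snd))).mul hdm

end

end FejerN

end QE


end

section

/-!
Module QH_E5 (helper27): from the small mass of the nearly parallel pairs to the Fourier
coefficients: `N⁻¹ ∑_{|k|<N} ∫ ζ |u_k|² → 0`.
-/

open MeasureTheory Filter Topology Set
open UpperHalfPlane hiding I
open scoped ContDiff MatrixGroups ENNReal Convolution

namespace QE

namespace FejerN

noncomputable section

/-- integrals over the hyperbolic plane as integrals in the plane -/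
lemma integral_H (F : ℂ → ℂ) :
    ∫ w : ℍ, ((w.im : ℂ) ^ 2) * F (w : ℂ) = ∫ z in UH, F z := by
  have hr : Set.range UpperHalfPlane.coe = UH := by
    ext z
    constructor
    · rintro ⟨w, rfl⟩
      exact w.im_pos
    · intro hz
      exact ⟨⟨z, hz⟩, rfl⟩
  have h1 : ∫ z in UH, F z = ∫ w : ℍ, F (w : ℂ) ∂((volume : Measure ℂ).comap UpperHalfPlane.coe) := by
    rw [← measurableEmbedding_coe.integral_map, measurableEmbedding_coe.map_comap, hr]
  rw [h1, UpperHalfPlane.volume_def]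
  rw [integral_withDensity_eq_integral_smul]
  · apply integral_congr_ae
    refine Eventually.of_forall fun w => ?_
    have hw : (w.im : ℂ) ≠ 0 := by exact_mod_cast w.im_ne_zero
    simp only [NNReal.smul_def, NNReal.coe_pow, NNReal.coe_div, NNReal.coe_one, NNReal.coe_mk,
      Complex.real_smul]
    push_cast
    field_simp
  · apply Measurable.pow_const
    apply Measurable.div measurable_const
    exact (UpperHalfPlane.continuous_im.subtype_mk _).measurable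

lemma UH_meas : MeasurableSet UH :=
  (isOpen_lt continuous_const Complex.continuous_im).measurableSet

/-- the weight `ψ(z - g i) (im (g i))²` -/
def wt (ψ : ℂ → ℝ) (z : ℂ) (g : SL(2, ℝ)) : ℝ :=
  ψ (z - ((g • UpperHalfPlane.I : ℍ) : ℂ)) * (g • UpperHalfPlane.I : ℍ).im ^ 2

lemma coe_smul_I_continuous : Continuous fun g : SL(2, ℝ) => ((g • UpperHalfPlane.I : ℍ) : ℂ) :=
  UpperHalfPlane.continuous_coe.comp (continuous_id.smul continuous_const)

lemma wt_continuous {ψ : ℂ → ℝ} (hψ : Continuous ψ) (z : ℂ) : Continuous (wt ψ z) := by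
  unfold wt
  refine (hψ.comp (continuous_const.sub coe_smul_I_continuous)).mul ?_
  exact (UpperHalfPlane.continuous_im.comp (continuous_id.smul continuous_const)).pow 2

lemma entry_continuous (i j : Fin 2) : Continuous fun g : SL(2, ℝ) => g i j :=
  (continuous_apply_apply i j).comp Matrix.SpecialLinearGroup.isClosedEmbedding_val.continuous

lemma dirG_continuous : Continuous (dirG : SL(2, ℝ) → ℂ) := by
  have hc := entry_continuous
  unfold dirG phase
  refine continuous_const.mul (Continuous.pow ?_ 2)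
  have hd : Continuous fun g : SL(2, ℝ) => den g Complex.I := by
    unfold den
    exact ((Complex.continuous_ofReal.comp (hc 1 0)).mul continuous_const).add
      (Complex.continuous_ofReal.comp (hc 1 1))
  refine (Complex.continuous_conj.comp hd).div (Complex.continuous_ofReal.comp hd.norm) ?_
  intro g h
  have := norm_den_I_pos g
  have h2 : ‖den g Complex.I‖ = 0 := by exact_mod_cast h
  linarith

lemma dsq_continuous : Continuous (dsq : SL(2, ℝ) → ℝ) := by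
  have hc := entry_continuous
  unfold dsq
  exact (((hc 0 0).sub (hc 1 1)).pow 2).add (((hc 0 1).add (hc 1 0)).pow 2)

lemma Kset_open (d ε : ℝ) : IsOpen (Kset d ε) := by
  have hc := entry_continuous
  have e : Kset d ε = {g | dsq g < d ^ 2} ∩ {g | |g 0 1 - g 1 0| < ε} := rfl
  rw [e]
  exact (isOpen_lt dsq_continuous continuous_const).inter
    (isOpen_lt ((hc 0 1).sub (hc 1 0)).abs continuous_const)

lemma Bset_open (d : ℝ) : IsOpen {g : SL(2, ℝ) | dsq g < d ^ 2} :=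
  isOpen_lt dsq_continuous continuous_const

/-- preimage in the group of a subset of the plane -/
def FdC (T : Set ℂ) : Set SL(2, ℝ) := Berry.Fd (UpperHalfPlane.coe ⁻¹' T)

variable [MeasurableSpace SL(2, ℝ)] [BorelSpace SL(2, ℝ)]
variable {Γ : Subgroup SL(2, ℝ)} {D : Set ℍ} {μ : Measure SL(2, ℝ)} {p : ℍ → ℝ}
  {u : ℤ → ℂ → ℂ}

omit [MeasurableSpace SL(2, ℝ)] [BorelSpace SL(2, ℝ)] in
lemma compact_pre {T : Set ℂ} (hT : IsCompact T) (hTU : T ⊆ UH) :
    IsCompact (UpperHalfPlane.coe ⁻¹' T) := by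
  apply isOpenEmbedding_coe.isEmbedding.isInducing.isCompact_preimage_iff ?_ |>.2 hT
  intro t ht
  exact ⟨⟨t, hTU ht⟩, rfl⟩

omit [BorelSpace SL(2, ℝ)] in
/-- mollified Fourier coefficients as integrals over the group -/
lemma conv_eq
    (hcoef : ∀ k : ℤ, ∀ ζ : ℍ → ℂ, Continuous ζ → HasCompactSupport ζ →
      ∫ g, ζ (g • UpperHalfPlane.I) * (starRingEnd ℂ) (dirG g ^ k) ∂μ = ∫ z : ℍ, ζ z * u k z)
    {T : Set ℂ} (hT : IsCompact T) (hTU : T ⊆ UH) {ψ : ℂ → ℝ} (hψ : Continuous ψ)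
    {z : ℂ} (hz : ∀ t, ψ (z - t) ≠ 0 → t ∈ T) (k : ℤ) :
    (ψ ⋆[ContinuousLinearMap.lsmul ℝ ℝ, volume] T.indicator (u k)) z =
      ∫ g, ((wt ψ z g : ℝ) : ℂ) * (starRingEnd ℂ) (dirG g ^ k) ∂μ := by
  have h1 : (ψ ⋆[ContinuousLinearMap.lsmul ℝ ℝ, volume] T.indicator (u k)) z =
      ∫ t in UH, (ψ (z - t) : ℂ) * u k t := by
    rw [convolution_lsmul_swap, ← integral_indicator UH_meas]
    apply integral_congr_ae
    refine Eventually.of_forall fun t => ?_
    simp only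
    by_cases h : ψ (z - t) = 0
    · rw [h, zero_smul]
      by_cases ht : t ∈ UH
      · rw [indicator_of_mem ht, h]
        simp
      · rw [indicator_of_notMem ht]
    · have ht := hz t h
      rw [indicator_of_mem ht, indicator_of_mem (hTU ht), Complex.real_smul]
  rw [h1, ← integral_H]
  have h2 := hcoef k (fun w : ℍ => ((ψ (z - (w : ℂ)) * w.im ^ 2 : ℝ) : ℂ)) ?_ ?_
  · rw [show (∫ g, ((wt ψ z g : ℝ) : ℂ) * (starRingEnd ℂ) (dirG g ^ k) ∂μ) =
      ∫ w : ℍ, ((ψ (z - (w : ℂ)) * w.im ^ 2 : ℝ) : ℂ) * u k w from h2]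
    apply integral_congr_ae
    refine Eventually.of_forall fun w => ?_
    simp only
    push_cast
    ring
  · apply Complex.continuous_ofReal.comp
    exact (hψ.comp (continuous_const.sub UpperHalfPlane.continuous_coe)).mul
      (UpperHalfPlane.continuous_im.pow 2)
  · apply HasCompactSupport.of_support_subset_isCompact (compact_pre hT hTU)
    intro w hw
    apply hz
    intro h0
    apply hw
    simp only [h0, zero_mul, Complex.ofReal_zero]

/-- integrability of the weight -/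
lemma wt_integrable [IsFiniteMeasureOnCompacts μ] {T : Set ℂ} (hT : IsCompact T) (hTU : T ⊆ UH)
    {ψ : ℂ → ℝ} (hψ : Continuous ψ) {z : ℂ} (hz : ∀ t, ψ (z - t) ≠ 0 → t ∈ T) :
    Integrable (wt ψ z) μ := by
  apply (wt_continuous hψ z).integrable_of_hasCompactSupport
  have hc : IsCompact (FdC T) := isProperMap_smul_I.isCompact_preimage (compact_pre hT hTU)
  apply HasCompactSupport.of_support_subset_isCompact hc
  intro g hg
  apply hz
  intro h0
  apply hg
  unfold wt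
  rw [h0, zero_mul]

omit [MeasurableSpace SL(2, ℝ)] [BorelSpace SL(2, ℝ)] in
/-- pointwise bound of the kernel -/
lemma kernel_bound {T : Set ℂ} {m Y δ ε B : ℝ} (hm : 0 < m) (hδ : 0 < δ)
    (hTm : ∀ t ∈ T, m ≤ t.im ∧ t.im ≤ Y) {ψ : ℂ → ℝ} (hψ0 : ∀ t, 0 ≤ ψ t)
    (hψB : ∀ t, ψ t ≤ B) (hψs : ∀ t, ψ t ≠ 0 → ‖t‖ < δ)
    {z : ℂ} (hz : ∀ t, ψ (z - t) ≠ 0 → t ∈ T) (hε : 0 < ε) (hε1 : ε ≤ 1)
    (hd : 3 * δ / m ≤ ε / 64) (N : ℕ) (g g' : SL(2, ℝ)) :
    ENNReal.ofReal (wt ψ z g) * ENNReal.ofReal (wt ψ z g') *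
      ENNReal.ofReal ‖dsum N ((starRingEnd ℂ) (dirG g) * dirG g')‖ ≤
    ENNReal.ofReal (ψ (z - ((g • UpperHalfPlane.I : ℍ) : ℂ))) * (ENNReal.ofReal (B * Y ^ 4) *
      ((FdC T).indicator 1 g * (ENNReal.ofReal (2 * N) * (Kset (3 * δ / m) ε).indicator 1 (g⁻¹ * g')
        + ENNReal.ofReal (16 / ε) *
          {h : SL(2, ℝ) | dsq h < (3 * δ / m) ^ 2}.indicator 1 (g⁻¹ * g')))) := by
  by_cases h1 : ψ (z - ((g • UpperHalfPlane.I : ℍ) : ℂ)) = 0
  · have : wt ψ z g = 0 := by unfold wt; rw [h1, zero_mul]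
    rw [this, ENNReal.ofReal_zero, zero_mul, zero_mul]
    exact zero_le
  by_cases h2 : ψ (z - ((g' • UpperHalfPlane.I : ℍ) : ℂ)) = 0
  · have : wt ψ z g' = 0 := by unfold wt; rw [h2, zero_mul]
    rw [this, ENNReal.ofReal_zero, mul_zero, zero_mul]
    exact zero_le
  have t1 := hz _ h1
  have t2 := hz _ h2
  have b1 := hTm _ t1
  have b2 := hTm _ t2
  have n1 := hψs _ h1
  have n2 := hψs _ h2
  set w1 : ℂ := ((g • UpperHalfPlane.I : ℍ) : ℂ) with hw1
  set w2 : ℂ := ((g' • UpperHalfPlane.I : ℍ) : ℂ) with hw2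
  have hdist : ‖w1 - w2‖ < 2 * δ := by
    have : w1 - w2 = (z - w2) - (z - w1) := by ring
    rw [this]
    exact (norm_sub_le _ _).trans_lt (by linarith)
  have hdpos : 0 < 3 * δ / m := by positivity
  have hdsq : dsq (g⁻¹ * g') < (3 * δ / m) ^ 2 := by
    have e := dsq_inv_mul g g'
    have i1 : m ≤ (g • UpperHalfPlane.I : ℍ).im := b1.1
    have i2 : m ≤ (g' • UpperHalfPlane.I : ℍ).im := b2.1
    have hmm : m * m ≤ (g • UpperHalfPlane.I : ℍ).im * (g' • UpperHalfPlane.I : ℍ).im :=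
      mul_le_mul i1 i2 hm.le (hm.le.trans i1)
    have h0 : 0 ≤ dsq (g⁻¹ * g') := by unfold dsq; positivity
    have h3 : dsq (g⁻¹ * g') * (m * m) < (2 * δ) ^ 2 := by
      calc dsq (g⁻¹ * g') * (m * m) ≤ dsq (g⁻¹ * g') * ((g • UpperHalfPlane.I : ℍ).im *
            (g' • UpperHalfPlane.I : ℍ).im) := mul_le_mul_of_nonneg_left hmm h0
        _ = ‖w1 - w2‖ ^ 2 := e
        _ < (2 * δ) ^ 2 := by
            have := norm_nonneg (w1 - w2)
            nlinarith only [hdist, this]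
    rw [div_pow, lt_div_iff₀ (by positivity)]
    nlinarith only [h3]
  have hF : (FdC T).indicator (1 : SL(2, ℝ) → ℝ≥0∞) g = 1 := by
    rw [indicator_of_mem (show g ∈ FdC T from t1)]
    rfl
  have hB' : {h : SL(2, ℝ) | dsq h < (3 * δ / m) ^ 2}.indicator (1 : SL(2, ℝ) → ℝ≥0∞)
      (g⁻¹ * g') = 1 := by
    rw [indicator_of_mem (show g⁻¹ * g' ∈ {h : SL(2, ℝ) | dsq h < (3 * δ / m) ^ 2} from hdsq)]
    rfl
  rw [hF, hB', one_mul, mul_one]
  -- the Dirichlet kernel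
  have hu : ‖(starRingEnd ℂ) (dirG g) * dirG g'‖ = 1 := by
    rw [norm_mul, RCLike.norm_conj, norm_dirG', norm_dirG', mul_one]
  have hker : ENNReal.ofReal ‖dsum N ((starRingEnd ℂ) (dirG g) * dirG g')‖ ≤
      ENNReal.ofReal (2 * N) * (Kset (3 * δ / m) ε).indicator 1 (g⁻¹ * g')
        + ENNReal.ofReal (16 / ε) := by
    by_cases hK : g⁻¹ * g' ∈ Kset (3 * δ / m) ε
    · rw [indicator_of_mem hK]
      simp only [Pi.one_apply, mul_one]
      exact (ENNReal.ofReal_le_ofReal (norm_dsum_le N _ hu)).trans le_self_add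
    · rw [indicator_of_notMem hK, mul_zero, zero_add]
      apply ENNReal.ofReal_le_ofReal
      have hs := dir_sep g g' (3 * δ / m) ε hdpos hd hε1 hdsq hK
      have hm2 := norm_dsum_mul_le N _ hu
      have e : ‖(starRingEnd ℂ) (dirG g) * dirG g' - 1‖ = ‖dirG g' - dirG g‖ := by
        have h3 : (starRingEnd ℂ) (dirG g) * dirG g = 1 := by
          rw [mul_comm, Complex.mul_conj, Complex.normSq_eq_norm_sq, norm_dirG']
          norm_num
        have h4 : (starRingEnd ℂ) (dirG g) * dirG g' - 1 =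
            (starRingEnd ℂ) (dirG g) * (dirG g' - dirG g) := by
          rw [mul_sub, h3]
        rw [h4, norm_mul, RCLike.norm_conj, norm_dirG', one_mul]
      rw [e] at hm2
      rw [le_div_iff₀ hε]
      have h5 : ε / 8 * ‖dsum N ((starRingEnd ℂ) (dirG g) * dirG g')‖ ≤ 2 :=
        (mul_le_mul_of_nonneg_right hs (norm_nonneg _)).trans hm2
      linarith only [h5]
  -- the weights
  have hY : 0 ≤ Y := hm.le.trans (b1.1.trans b1.2)
  have hwt1 : wt ψ z g ≤ ψ (z - w1) * Y ^ 2 := by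
    unfold wt
    apply mul_le_mul_of_nonneg_left _ (hψ0 _)
    exact pow_le_pow_left₀ (g • UpperHalfPlane.I : ℍ).im_pos.le b1.2 2
  have hwt2 : wt ψ z g' ≤ B * Y ^ 2 := by
    unfold wt
    apply mul_le_mul (hψB _) _ (by positivity) ((hψ0 _).trans (hψB (z - w2)))
    exact pow_le_pow_left₀ (g' • UpperHalfPlane.I : ℍ).im_pos.le b2.2 2
  have hB0 : 0 ≤ B := (hψ0 0).trans (hψB 0)
  calc ENNReal.ofReal (wt ψ z g) * ENNReal.ofReal (wt ψ z g') *
      ENNReal.ofReal ‖dsum N ((starRingEnd ℂ) (dirG g) * dirG g')‖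
      ≤ ENNReal.ofReal (ψ (z - w1) * Y ^ 2) * ENNReal.ofReal (B * Y ^ 2) *
        (ENNReal.ofReal (2 * N) * (Kset (3 * δ / m) ε).indicator 1 (g⁻¹ * g')
        + ENNReal.ofReal (16 / ε)) := by
        gcongr
    _ = _ := by
        have e : ENNReal.ofReal (ψ (z - w1) * Y ^ 2) * ENNReal.ofReal (B * Y ^ 2) =
            ENNReal.ofReal (ψ (z - w1)) * ENNReal.ofReal (B * Y ^ 4) := by
          rw [← ENNReal.ofReal_mul (mul_nonneg (hψ0 _) (by positivity)),
            ← ENNReal.ofReal_mul (hψ0 _)]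
          congr 1
          ring
        rw [e, mul_assoc]

/-- the mass of the pairs in a set, as a function of the first frame -/
def fS (μ : Measure SL(2, ℝ)) (Q : Set SL(2, ℝ)) (g : SL(2, ℝ)) : ℝ≥0∞ :=
  ∫⁻ g', Q.indicator 1 (g⁻¹ * g') ∂μ

lemma fS_eq {Q : Set SL(2, ℝ)} (hQ : IsOpen Q) (g : SL(2, ℝ)) :
    fS μ Q g = μ ((fun w => g⁻¹ * w) ⁻¹' Q) := by
  unfold fS
  have hm : MeasurableSet ((fun w : SL(2, ℝ) => g⁻¹ * w) ⁻¹' Q) :=
    (hQ.preimage (continuous_const_mul _)).measurableSet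
  rw [← lintegral_indicator_one hm]
  rfl

lemma fS_meas [SFinite μ] {Q : Set SL(2, ℝ)} (hQ : IsOpen Q) : Measurable (fS μ Q) := by
  unfold fS
  apply Measurable.lintegral_prod_right'
    (f := fun z : SL(2, ℝ) × SL(2, ℝ) => Q.indicator (1 : SL(2, ℝ) → ℝ≥0∞) (z.1⁻¹ * z.2))
  have : Measurable (Q.indicator (1 : SL(2, ℝ) → ℝ≥0∞)) :=
    measurable_one.indicator hQ.measurableSet
  exact this.comp (continuous_fst.inv.mul continuous_snd).measurable

lemma fS_inv (hμ : FlowMeas0 Γ D μ p) {Q : Set SL(2, ℝ)} (hQ : IsOpen Q) (γ : SL(2, ℝ))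
    (hγ : γ ∈ Γ) (g : SL(2, ℝ)) : fS μ Q (γ * g) = fS μ Q g := by
  rw [fS_eq hQ, fS_eq hQ]
  have h1 := hμ.left γ hγ
  have hm : MeasurableSet ((fun w : SL(2, ℝ) => (γ * g)⁻¹ * w) ⁻¹' Q) :=
    (hQ.preimage (continuous_const_mul _)).measurableSet
  conv_lhs => rw [← h1]
  rw [Measure.map_apply (continuous_const_mul γ).measurable hm]
  congr 1
  ext w
  simp [mul_assoc]

lemma pairMass_eq {Q : Set SL(2, ℝ)} (hQ : IsOpen Q) :
    pairMass D μ Q = ∫⁻ g in Berry.Fd D, fS μ Q g ∂μ := by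
  unfold pairMass
  simp only [fS_eq hQ]

/-- the integrated estimate -/
lemma main_est [Countable Γ] [IsFiniteMeasureOnCompacts μ] (hDm : MeasurableSet D)
    (hD : IsFundamentalDomain Γ D (volume : Measure ℍ)) (hμ : FlowMeas0 Γ D μ p)
    (hcoef : ∀ k : ℤ, ∀ ζ : ℍ → ℂ, Continuous ζ → HasCompactSupport ζ →
      ∫ g, ζ (g • UpperHalfPlane.I) * (starRingEnd ℂ) (dirG g ^ k) ∂μ = ∫ z : ℍ, ζ z * u k z)
    {T : Set ℂ} (hT : IsCompact T) (hTU : T ⊆ UH) {m Y : ℝ} (hm : 0 < m)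
    (hTm : ∀ t ∈ T, m ≤ t.im ∧ t.im ≤ Y) :
    ∃ M : ℕ, ∀ (S : Set ℂ) (ζ : ℂ → ℝ) (Z : ℝ), (∀ z, 0 ≤ ζ z) → (∀ z, ζ z ≤ Z) →
      (∀ z, z ∉ S → ζ z = 0) → ∀ (ψ : ℂ → ℝ) (δ B ε : ℝ), Continuous ψ → 0 < δ →
      (∀ z ∈ S, ∀ t, ‖z - t‖ < δ → t ∈ T) →
      (∀ t, 0 ≤ ψ t) → (∀ t, ψ t ≤ B) → (∀ t, ψ t ≠ 0 → ‖t‖ < δ) →
      ∫⁻ t, ENNReal.ofReal (ψ t) ≤ 1 → 0 < ε → ε ≤ 1 → 3 * δ / m ≤ ε / 64 → ∀ N : ℕ,
      ∫⁻ z, ENNReal.ofReal (ζ z) * ENNReal.ofReal (∑ k ∈ Finset.Ioo (-(N : ℤ)) N,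
        ‖(ψ ⋆[ContinuousLinearMap.lsmul ℝ ℝ, volume] T.indicator (u k)) z‖ ^ 2) ≤
      ENNReal.ofReal Z * (ENNReal.ofReal (B * Y ^ 4) * (M * (ENNReal.ofReal (2 * N) *
        pairMass D μ (Kset (3 * δ / m) ε) + ENNReal.ofReal (16 / ε) *
        pairMass D μ {h : SL(2, ℝ) | dsq h < (3 * δ / m) ^ 2}))) := by
  classical
  obtain ⟨M, hM⟩ := lintegral_compact_le hDm hD hμ (compact_pre hT hTU)
  refine ⟨M, ?_⟩
  intro S ζ Z hζ0 hζZ hζS ψ δ B ε hψ hδ hST hψ0 hψB hψs hψ1 hε hε1 hdε N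
  set K := Kset (3 * δ / m) ε with hK
  set Bs := {h : SL(2, ℝ) | dsq h < (3 * δ / m) ^ 2} with hBs
  have hKo : IsOpen K := Kset_open _ _
  have hBo : IsOpen Bs := Bset_open _
  have hFm : MeasurableSet (FdC T) :=
    Berry.proj_measurable (compact_pre hT hTU).isClosed.measurableSet
  set a : ℝ≥0∞ := ENNReal.ofReal (2 * N) with ha
  set b : ℝ≥0∞ := ENNReal.ofReal (16 / ε) with hb
  set C : ℝ≥0∞ := ENNReal.ofReal (B * Y ^ 4) with hC
  set H : SL(2, ℝ) → ℝ≥0∞ := fun g =>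
    C * ((FdC T).indicator 1 g * (a * fS μ K g + b * fS μ Bs g)) with hH
  have hsum : Measurable fun g => a * fS μ K g + b * fS μ Bs g :=
    ((fS_meas hKo).const_mul a).add ((fS_meas hBo).const_mul b)
  have hHm : Measurable H := by
    apply Measurable.const_mul
    exact (measurable_one.indicator hFm).mul hsum
  have hpt : ∀ z, ENNReal.ofReal (ζ z) * ENNReal.ofReal (∑ k ∈ Finset.Ioo (-(N : ℤ)) N,
        ‖(ψ ⋆[ContinuousLinearMap.lsmul ℝ ℝ, volume] T.indicator (u k)) z‖ ^ 2) ≤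
      ENNReal.ofReal Z * ∫⁻ g, ENNReal.ofReal (ψ (z - ((g • UpperHalfPlane.I : ℍ) : ℂ))) * H g ∂μ
      := by
    intro z
    by_cases hz : z ∈ S
    · have hzT : ∀ t, ψ (z - t) ≠ 0 → t ∈ T := fun t ht => hST z hz t (hψs _ ht)
      refine mul_le_mul' (ENNReal.ofReal_le_ofReal (hζZ z)) ?_
      have e1 : ∀ k ∈ Finset.Ioo (-(N : ℤ)) N,
          ‖(ψ ⋆[ContinuousLinearMap.lsmul ℝ ℝ, volume] T.indicator (u k)) z‖ ^ 2 =
          ‖∫ g, ((wt ψ z g : ℝ) : ℂ) * (starRingEnd ℂ) (dirG g ^ k) ∂μ‖ ^ 2 := fun k _ => by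
        rw [conv_eq hcoef hT hTU hψ hzT k]
      rw [Finset.sum_congr rfl e1]
      have hwt0 : ∀ g, 0 ≤ wt ψ z g := fun g => mul_nonneg (hψ0 _) (sq_nonneg _)
      refine (sum_sq_le μ (wt ψ z) hwt0 (wt_integrable hT hTU hψ hzT)
        (wt_continuous hψ z).measurable dirG dirG_continuous.measurable norm_dirG' N).trans ?_
      apply lintegral_mono
      intro g
      have e2 : ENNReal.ofReal (ψ (z - ((g • UpperHalfPlane.I : ℍ) : ℂ))) * H g =
          ∫⁻ g', ENNReal.ofReal (ψ (z - ((g • UpperHalfPlane.I : ℍ) : ℂ))) * (C *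
            ((FdC T).indicator 1 g * (a * K.indicator 1 (g⁻¹ * g')
            + b * Bs.indicator 1 (g⁻¹ * g')))) ∂μ := by
        have mK : Measurable fun g' : SL(2, ℝ) => K.indicator (1 : SL(2, ℝ) → ℝ≥0∞) (g⁻¹ * g') :=
          (measurable_one.indicator hKo.measurableSet).comp (continuous_const_mul _).measurable
        have mB : Measurable fun g' : SL(2, ℝ) => Bs.indicator (1 : SL(2, ℝ) → ℝ≥0∞) (g⁻¹ * g') :=
          (measurable_one.indicator hBo.measurableSet).comp (continuous_const_mul _).measurable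
        have m1 := mK.const_mul a
        have m2 := mB.const_mul b
        have m12 : Measurable fun g' : SL(2, ℝ) =>
            a * K.indicator (1 : SL(2, ℝ) → ℝ≥0∞) (g⁻¹ * g') +
              b * Bs.indicator (1 : SL(2, ℝ) → ℝ≥0∞) (g⁻¹ * g') := m1.add m2
        rw [lintegral_const_mul _ ((m12.const_mul _).const_mul _),
          lintegral_const_mul _ (m12.const_mul _),
          lintegral_const_mul _ m12, lintegral_add_left m1, lintegral_const_mul _ mK,
          lintegral_const_mul _ mB]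
        rfl
      refine le_of_le_of_eq ?_ e2.symm
      apply lintegral_mono
      intro g'
      exact kernel_bound hm hδ hTm hψ0 hψB hψs hzT hε hε1 hdε N g g'
    · rw [hζS z hz, ENNReal.ofReal_zero, zero_mul]
      exact zero_le
  refine (lintegral_mono hpt).trans ?_
  have hjoint : Measurable fun q : ℂ × SL(2, ℝ) =>
      ENNReal.ofReal (ψ (q.1 - ((q.2 • UpperHalfPlane.I : ℍ) : ℂ))) * H q.2 := by
    refine Measurable.mul ?_ (hHm.comp measurable_snd)
    exact (hψ.comp (continuous_fst.sub (coe_smul_I_continuous.comp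
      continuous_snd))).measurable.ennreal_ofReal
  rw [lintegral_const_mul _ hjoint.lintegral_prod_right']
  gcongr
  rw [lintegral_lintegral_swap hjoint.aemeasurable]
  have e3 : ∀ g : SL(2, ℝ), ∫⁻ z, ENNReal.ofReal (ψ (z - ((g • UpperHalfPlane.I : ℍ) : ℂ))) * H g
      ≤ H g := by
    intro g
    have m3 : Measurable fun z : ℂ => ENNReal.ofReal (ψ (z - ((g • UpperHalfPlane.I : ℍ) : ℂ))) :=
      (hψ.comp (continuous_id.sub continuous_const)).measurable.ennreal_ofReal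
    rw [lintegral_mul_const _ m3,
      lintegral_sub_right_eq_self (fun t => ENNReal.ofReal (ψ t))]
    calc (∫⁻ t, ENNReal.ofReal (ψ t)) * H g ≤ 1 * H g := by gcongr
      _ = H g := one_mul _
  refine (lintegral_mono e3).trans ?_
  have m5 : Measurable fun g => (FdC T).indicator (1 : SL(2, ℝ) → ℝ≥0∞) g *
      (a * fS μ K g + b * fS μ Bs g) := (measurable_one.indicator hFm).mul hsum
  rw [hH, lintegral_const_mul _ m5]
  gcongr
  have e4 : ∫⁻ g, (FdC T).indicator 1 g * (a * fS μ K g + b * fS μ Bs g) ∂μ =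
      ∫⁻ g in FdC T, (a * fS μ K g + b * fS μ Bs g) ∂μ := by
    rw [← lintegral_indicator hFm]
    apply lintegral_congr
    intro g
    by_cases hg : g ∈ FdC T
    · rw [indicator_of_mem hg, indicator_of_mem hg]
      simp
    · rw [indicator_of_notMem hg, indicator_of_notMem hg, zero_mul]
  rw [e4]
  refine (hM _ hsum ?_).trans ?_
  · intro γ hγ g
    rw [fS_inv hμ hKo γ hγ, fS_inv hμ hBo γ hγ]
  · rw [pairMass_eq hKo, pairMass_eq hBo, lintegral_add_left ((fS_meas hKo).const_mul a),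
      lintegral_const_mul _ (fS_meas hKo), lintegral_const_mul _ (fS_meas hBo)]

omit [MeasurableSpace SL(2, ℝ)] [BorelSpace SL(2, ℝ)] in
/-- the bump functions used for the mollification -/
lemma exists_bump (δ : ℝ) (hδ : 0 < δ) : ∃ φ : ContDiffBump (0 : ℂ), φ.rOut = δ ∧
    φ.rOut ≤ 2 * φ.rIn ∧ (∀ t, φ.normed volume t ≤ 4 / (Real.pi * δ ^ 2)) ∧
    (∀ t, φ.normed volume t ≠ 0 → ‖t‖ < δ) ∧
    ∫⁻ t, ENNReal.ofReal (φ.normed volume t) ≤ 1 := by
  let φ : ContDiffBump (0 : ℂ) :=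
    { rIn := δ / 2, rOut := δ, rIn_pos := by positivity, rIn_lt_rOut := by linarith }
  have hout : φ.rOut = δ := rfl
  have hin : φ.rIn = δ / 2 := rfl
  refine ⟨φ, hout, by rw [hout, hin]; linarith, ?_, ?_, ?_⟩
  · intro t
    refine (φ.normed_le_div_measure_closedBall_rIn volume t).trans (le_of_eq ?_)
    rw [hin, measureReal_def, Complex.volume_closedBall, ENNReal.toReal_mul, ENNReal.toReal_pow,
      ENNReal.toReal_ofReal (by positivity)]
    have : ((NNReal.pi : ℝ≥0∞)).toReal = Real.pi := by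
      rw [ENNReal.coe_toReal]
      rfl
    rw [this]
    have := Real.pi_pos
    field_simp
    norm_num
  · intro t ht
    have h1 : t ∈ Function.support (φ.normed volume) := ht
    rw [φ.support_normed_eq, mem_ball_zero_iff] at h1
    exact h1
  · rw [← ofReal_integral_eq_lintegral_ofReal φ.integrable_normed
      (Eventually.of_forall fun t => φ.nonneg_normed t), φ.integral_normed]
    simp

/-- **QH_E5**: from the small mass of nearly parallel pairs to the Fourier coefficients -/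
theorem fejer_bound [Countable Γ] [IsFiniteMeasureOnCompacts μ] (hDm : MeasurableSet D)
    (hD : IsFundamentalDomain Γ D (volume : Measure ℍ)) (hμ : FlowMeas0 Γ D μ p)
    (hum : ∀ k, Measurable (u k)) (hul : ∀ k, LocL2 UH (u k))
    (hcoef : ∀ k : ℤ, ∀ ζ : ℍ → ℂ, Continuous ζ → HasCompactSupport ζ →
      ∫ g, ζ (g • UpperHalfPlane.I) * (starRingEnd ℂ) (dirG g ^ k) ∂μ = ∫ z : ℍ, ζ z * u k z)
    {C : ℝ} (hC0 : 0 ≤ C)
    (hB : ∀ d : ℝ, 0 < d → d < 1 → pairMass D μ {g : SL(2, ℝ) |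
      (g 0 0 - g 1 1) ^ 2 + (g 0 1 + g 1 0) ^ 2 < d ^ 2} ≤ ENNReal.ofReal (C * d ^ 2))
    {ζ : ℂ → ℝ} (hζ : Continuous ζ) (hζc : HasCompactSupport ζ) (hζU : tsupport ζ ⊆ UH)
    (hζ0 : ∀ z, 0 ≤ ζ z) :
    ∃ Q : ℝ, 0 ≤ Q ∧ ∀ η ε : ℝ, 0 < η → 0 < ε → ε ≤ 1 → (∃ d₀ : ℝ, 0 < d₀ ∧ ∀ d : ℝ, 0 < d →
      d < d₀ → pairMass D μ (Kset d ε) ≤ ENNReal.ofReal (η * d ^ 2)) → ∀ N : ℕ,
      ∑ k ∈ Finset.Ioo (-(N : ℤ)) N, ∫ z, ζ z * ‖u k z‖ ^ 2 ≤
        Q * (2 * N * η + 16 / ε * C) := by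
  classical
  set S := tsupport ζ with hS
  have hSc : IsCompact S := hζc
  obtain ⟨ρ, hρ, hTU⟩ := hSc.exists_cthickening_subset_open
    (isOpen_lt continuous_const Complex.continuous_im) hζU
  set T := Metric.cthickening ρ S with hT
  have hTc : IsCompact T := hSc.cthickening
  have hTU' : T ⊆ UH := hTU
  obtain ⟨m, hm, hm2⟩ := hTc.exists_forall_le' (f := fun z : ℂ => z.im)
    Complex.continuous_im.continuousOn (a := 0) (fun z hz => hTU' hz)
  obtain ⟨Y, hY⟩ := hTc.exists_bound_of_continuousOn (f := fun z : ℂ => z.im)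
    Complex.continuous_im.continuousOn
  have hTm : ∀ t ∈ T, m ≤ t.im ∧ t.im ≤ Y := fun t ht => ⟨hm2 t ht, (le_abs_self _).trans (hY t ht)⟩
  obtain ⟨Z, hZ⟩ := hζ.bounded_above_of_compact_support hζc
  have hZ' : ∀ z, ζ z ≤ Z := fun z => (le_abs_self _).trans (hZ z)
  have hZ0 : 0 ≤ Z := (hζ0 0).trans (hZ' 0)
  obtain ⟨M, hM⟩ := main_est hDm hD hμ hcoef hTc hTU' hm hTm
  have hpi := Real.pi_pos
  refine ⟨Z * (36 / (Real.pi * m ^ 2) * Y ^ 4 * M), by (clear * - hZ0 hm; positivity), ?_⟩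
  intro η ε hη hε hε1 hN N
  obtain ⟨d₀, hd₀, hN⟩ := hN
  -- the mollification
  set δs : ℕ → ℝ := fun n => ρ / ((n : ℝ) + 1) with hδs
  have hδpos : ∀ n, 0 < δs n := fun n => by positivity
  have hδle : ∀ n, δs n ≤ ρ := fun n => by
    simp only [hδs]
    rw [div_le_iff₀ (by positivity)]
    have : (0 : ℝ) ≤ n := Nat.cast_nonneg n
    nlinarith only [hρ]
  have hδlim : Tendsto δs atTop (𝓝 0) := by
    have h := (tendsto_const_nhds (x := ρ)).mul tendsto_one_div_add_atTop_nhds_zero_nat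
    rw [mul_zero] at h
    refine h.congr fun n => ?_
    simp only [hδs]
    ring
  choose φ hφo hφi hφB hφs hφ1 using fun n => exists_bump (δs n) (hδpos n)
  set v : ℤ → ℂ → ℂ := fun k => T.indicator (u k) with hv
  have hvint : ∀ k, Integrable (v k) := by
    intro k
    rw [hv, integrable_indicator_iff hTc.isClosed.measurableSet]
    have : IsFiniteMeasure (volume.restrict T) := ⟨by
      rw [Measure.restrict_apply_univ]
      exact hTc.measure_lt_top⟩
    exact (hul k T hTc hTU').integrable one_le_two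
  have hae : ∀ᵐ z : ℂ, ∀ k : ℤ, Tendsto (fun n => ((φ n).normed volume
      ⋆[ContinuousLinearMap.lsmul ℝ ℝ, volume] v k) z) atTop (𝓝 (v k z)) := by
    rw [ae_all_iff]
    intro k
    apply ContDiffBump.ae_convolution_tendsto_right_of_locallyIntegrable (K := 2)
    · simp only [hφo]
      exact hδlim
    · exact Eventually.of_forall hφi
    · exact (hvint k).locallyIntegrable
  set f : ℕ → ℂ → ℝ≥0∞ := fun n z => ENNReal.ofReal (ζ z) *
    ENNReal.ofReal (∑ k ∈ Finset.Ioo (-(N : ℤ)) N,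
      ‖((φ n).normed volume ⋆[ContinuousLinearMap.lsmul ℝ ℝ, volume] v k) z‖ ^ 2) with hf
  have hcc : ∀ n k, Continuous ((φ n).normed volume
      ⋆[ContinuousLinearMap.lsmul ℝ ℝ, volume] v k) := by
    intro n k
    exact HasCompactSupport.continuous_convolution_left _ (φ n).hasCompactSupport_normed
      (φ n).continuous_normed (hvint k).locallyIntegrable
  have hfm : ∀ n, Measurable (f n) := by
    intro n
    refine hζ.measurable.ennreal_ofReal.mul (Continuous.measurable ?_).ennreal_ofReal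
    exact continuous_finsetSum _ fun k _ => (hcc n k).norm.pow 2
  have hlim : ∀ᵐ z : ℂ, liminf (fun n => f n z) atTop = ENNReal.ofReal (ζ z) *
      ENNReal.ofReal (∑ k ∈ Finset.Ioo (-(N : ℤ)) N, ‖v k z‖ ^ 2) := by
    filter_upwards [hae] with z hz
    apply Tendsto.liminf_eq
    apply ENNReal.Tendsto.const_mul _ (Or.inr ENNReal.ofReal_ne_top)
    apply ENNReal.tendsto_ofReal
    apply tendsto_finsetSum
    intro k _
    exact ((hz k).norm).pow 2
  have hbd : ∀ᶠ n in atTop, ∫⁻ z, f n z ≤ ENNReal.ofReal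
      (Z * (36 / (Real.pi * m ^ 2) * Y ^ 4 * M) * (2 * N * η + 16 / ε * C)) := by
    have hlim2 : Tendsto (fun n => 3 * δs n / m) atTop (𝓝 0) := by
      have h := (hδlim.const_mul 3).div_const m
      simpa using h
    have hpos : 0 < min (ε / 64) (min d₀ 1) := by positivity
    filter_upwards [hlim2.eventually (gt_mem_nhds hpos)] with n hn
    have hn1 : 3 * δs n / m < ε / 64 := hn.trans_le (min_le_left _ _)
    have hn2 : 3 * δs n / m < d₀ := hn.trans_le ((min_le_right _ _).trans (min_le_left _ _))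
    have hn3 : 3 * δs n / m < 1 := hn.trans_le ((min_le_right _ _).trans (min_le_right _ _))
    have hdp : 0 < 3 * δs n / m := div_pos (mul_pos (by norm_num) (hδpos n)) hm
    refine (hM S ζ Z hζ0 hZ' (fun z hz => image_eq_zero_of_notMem_tsupport hz)
      ((φ n).normed volume) (δs n) (4 / (Real.pi * δs n ^ 2)) ε (φ n).continuous_normed (hδpos n)
      ?_ (φ n).nonneg_normed (hφB n) (hφs n) (hφ1 n) hε hε1 hn1.le N).trans ?_
    · intro z hz t ht
      apply Metric.mem_cthickening_of_dist_le t z ρ S hz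
      rw [dist_comm, Complex.dist_eq]
      exact ht.le.trans (hδle n)
    · have k1 := hN _ hdp hn2
      have k2 := hB _ hdp hn3
      have hδn := hδpos n
      calc ENNReal.ofReal Z * (ENNReal.ofReal (4 / (Real.pi * δs n ^ 2) * Y ^ 4) *
            (M * (ENNReal.ofReal (2 * N) * pairMass D μ (Kset (3 * δs n / m) ε) +
              ENNReal.ofReal (16 / ε) * pairMass D μ {h | dsq h < (3 * δs n / m) ^ 2})))
          ≤ ENNReal.ofReal Z * (ENNReal.ofReal (4 / (Real.pi * δs n ^ 2) * Y ^ 4) *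
            (ENNReal.ofReal M * (ENNReal.ofReal (2 * N) *
              ENNReal.ofReal (η * (3 * δs n / m) ^ 2) +
              ENNReal.ofReal (16 / ε) * ENNReal.ofReal (C * (3 * δs n / m) ^ 2)))) := by
            rw [ENNReal.ofReal_natCast]
            gcongr
            exact k2
        _ = ENNReal.ofReal (Z * (36 / (Real.pi * m ^ 2) * Y ^ 4 * M) *
              (2 * N * η + 16 / ε * C)) := by
            rw [← ENNReal.ofReal_mul (by positivity), ← ENNReal.ofReal_mul (by positivity),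
              ← ENNReal.ofReal_add (by positivity) (by positivity),
              ← ENNReal.ofReal_mul (by positivity), ← ENNReal.ofReal_mul (by positivity),
              ← ENNReal.ofReal_mul (by positivity)]
            congr 1
            field_simp
            ring
  have hfatou : ∫⁻ z, ENNReal.ofReal (ζ z) *
      ENNReal.ofReal (∑ k ∈ Finset.Ioo (-(N : ℤ)) N, ‖v k z‖ ^ 2) ≤ ENNReal.ofReal
      (Z * (36 / (Real.pi * m ^ 2) * Y ^ 4 * M) * (2 * N * η + 16 / ε * C)) := by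
    rw [← lintegral_congr_ae hlim]
    refine (lintegral_liminf_le hfm).trans ?_
    exact liminf_le_of_le (by isBoundedDefault) fun b hb => by
      obtain ⟨n, h1, h2⟩ := (hb.and hbd).exists
      exact h1.trans h2
  -- back to the integrals
  rw [← ENNReal.ofReal_le_ofReal_iff (by (clear * - hZ0 hm hη hε hC0; positivity))]
  refine le_trans ?_ hfatou
  have hnn : ∀ k, 0 ≤ ∫ z, ζ z * ‖u k z‖ ^ 2 := fun k =>
    integral_nonneg fun z => mul_nonneg (hζ0 z) (sq_nonneg _)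
  rw [ENNReal.ofReal_sum_of_nonneg fun k _ => hnn k]
  have h1 : ∀ k ∈ Finset.Ioo (-(N : ℤ)) N, ENNReal.ofReal (∫ z, ζ z * ‖u k z‖ ^ 2) ≤
      ∫⁻ z, ENNReal.ofReal (ζ z * ‖u k z‖ ^ 2) := by
    intro k _
    have h2 := enorm_integral_le_lintegral_enorm (μ := (volume : Measure ℂ))
      fun z => ζ z * ‖u k z‖ ^ 2
    rw [← ofReal_norm, Real.norm_eq_abs, abs_of_nonneg (hnn k)] at h2
    refine h2.trans (le_of_eq ?_)
    apply lintegral_congr
    intro z
    rw [← ofReal_norm, Real.norm_eq_abs, abs_of_nonneg (mul_nonneg (hζ0 z) (sq_nonneg _))]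
  refine (Finset.sum_le_sum h1).trans ?_
  rw [← lintegral_finsetSum]
  · apply lintegral_mono
    intro z
    show ∑ k ∈ Finset.Ioo (-(N : ℤ)) N, ENNReal.ofReal (ζ z * ‖u k z‖ ^ 2) ≤
      ENNReal.ofReal (ζ z) * ENNReal.ofReal (∑ k ∈ Finset.Ioo (-(N : ℤ)) N, ‖v k z‖ ^ 2)
    by_cases hz : z ∈ S
    · have hzT : z ∈ T := Metric.self_subset_cthickening S hz
      rw [ENNReal.ofReal_sum_of_nonneg fun k _ => sq_nonneg _, Finset.mul_sum]
      apply Finset.sum_le_sum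
      intro k _
      rw [hv]
      simp only [indicator_of_mem hzT]
      rw [ENNReal.ofReal_mul (hζ0 z)]
    · have h0 : ζ z = 0 := image_eq_zero_of_notMem_tsupport hz
      simp [h0]
  · intro k _
    exact (hζ.measurable.mul ((hum k).norm.pow_const 2)).ennreal_ofReal

/-- **QH_E5**: if the mass of nearly parallel pairs at small distance is small, then the Fourier
coefficients along the fibres tend to zero in the quadratic mean. -/
theorem fejer_tendsto [Countable Γ] [IsFiniteMeasureOnCompacts μ] (hDm : MeasurableSet D)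
    (hD : IsFundamentalDomain Γ D (volume : Measure ℍ)) (hμ : FlowMeas0 Γ D μ p)
    (hu : LimFam0 Γ u)
    (hcoef : ∀ k : ℤ, ∀ ζ : ℍ → ℂ, Continuous ζ → HasCompactSupport ζ →
      ∫ g, ζ (g • UpperHalfPlane.I) * (starRingEnd ℂ) (dirG g ^ k) ∂μ = ∫ z : ℍ, ζ z * u k z)
    (hB : ∃ C : ℝ, ∀ d : ℝ, 0 < d → d < 1 → pairMass D μ {g : SL(2, ℝ) |
      (g 0 0 - g 1 1) ^ 2 + (g 0 1 + g 1 0) ^ 2 < d ^ 2} ≤ ENNReal.ofReal (C * d ^ 2))
    (hN : ∀ η : ℝ, 0 < η → ∃ ε : ℝ, 0 < ε ∧ ∃ d₀ : ℝ, 0 < d₀ ∧ ∀ d : ℝ, 0 < d → d < d₀ →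
      pairMass D μ (Kset d ε) ≤ ENNReal.ofReal (η * d ^ 2))
    {ζ : ℂ → ℝ} (hζ : Continuous ζ) (hζc : HasCompactSupport ζ) (hζU : tsupport ζ ⊆ UH)
    (hζ0 : ∀ z, 0 ≤ ζ z) :
    Tendsto (fun N : ℕ => (1 / (N : ℝ)) * ∑ k ∈ Finset.Ioo (-(N : ℤ)) N,
      ∫ z, ζ z * ‖u k z‖ ^ 2) atTop (𝓝 0) := by
  obtain ⟨C, hC⟩ := hB
  have hC' : ∀ d : ℝ, 0 < d → d < 1 → pairMass D μ {g : SL(2, ℝ) |
      (g 0 0 - g 1 1) ^ 2 + (g 0 1 + g 1 0) ^ 2 < d ^ 2} ≤ ENNReal.ofReal (max C 0 * d ^ 2) := by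
    intro d hd hd1
    refine (hC d hd hd1).trans (ENNReal.ofReal_le_ofReal ?_)
    gcongr
    exact le_max_left _ _
  obtain ⟨Q, hQ, hb⟩ := fejer_bound hDm hD hμ hu.meas hu.loc hcoef (le_max_right C 0) hC' hζ hζc
    hζU hζ0
  have hnn : ∀ N : ℕ, 0 ≤ (1 / (N : ℝ)) * ∑ k ∈ Finset.Ioo (-(N : ℤ)) N,
      ∫ z, ζ z * ‖u k z‖ ^ 2 := fun N => mul_nonneg (by positivity)
    (Finset.sum_nonneg fun k _ => integral_nonneg fun z => mul_nonneg (hζ0 z) (sq_nonneg _))
  rw [tendsto_order]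
  refine ⟨fun a ha => Eventually.of_forall fun N => ha.trans_le (hnn N), ?_⟩
  intro a ha
  set η : ℝ := a / (4 * (Q + 1)) with hη
  have hη0 : 0 < η := by positivity
  obtain ⟨ε₀, hε₀, d₀, hd₀, hK⟩ := hN η hη0
  set ε : ℝ := min ε₀ 1 with hε
  have hεpos : 0 < ε := lt_min hε₀ one_pos
  have hbb := hb η ε hη0 hεpos (min_le_right _ _) ⟨d₀, hd₀, fun d hd1 hd2 => by
    refine (lintegral_mono fun v => ?_).trans (hK d hd1 hd2)
    apply measure_mono
    apply preimage_mono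
    intro g hg
    exact ⟨hg.1, hg.2.trans_le (min_le_left _ _)⟩⟩
  have hlim : Tendsto (fun N : ℕ => Q * (16 / ε * max C 0) * (1 / (N : ℝ))) atTop (𝓝 0) := by
    have h := (tendsto_one_div_atTop_nhds_zero_nat (𝕜 := ℝ)).const_mul (Q * (16 / ε * max C 0))
    rw [mul_zero] at h
    exact h
  filter_upwards [hlim.eventually (gt_mem_nhds (half_pos ha)), eventually_gt_atTop 0] with N h1 h2
  have hN0 : (0 : ℝ) < N := by exact_mod_cast h2
  have h3 : (1 / (N : ℝ)) * ∑ k ∈ Finset.Ioo (-(N : ℤ)) N, ∫ z, ζ z * ‖u k z‖ ^ 2 ≤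
      (1 / (N : ℝ)) * (Q * (2 * N * η + 16 / ε * max C 0)) :=
    mul_le_mul_of_nonneg_left (hbb N) (by positivity)
  have h4 : (1 / (N : ℝ)) * (Q * (2 * N * η + 16 / ε * max C 0)) =
      Q * (2 * η) + Q * (16 / ε * max C 0) * (1 / (N : ℝ)) := by
    field_simp
  have h5 : Q * (2 * η) ≤ a / 2 := by
    rw [hη]
    rw [show Q * (2 * (a / (4 * (Q + 1)))) = (Q / (Q + 1)) * (a / 2) by field_simp; ring]
    have : Q / (Q + 1) ≤ 1 := by
      rw [div_le_one (by positivity)]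
      linarith
    nlinarith
  linarith

end

end FejerN

end QE


end

section

/-!
# Global flow of a locally Lipschitz vector field of linear growth  (helper53)
-/

open Metric Set Filter Topology
open scoped NNReal

namespace QE

namespace NC

namespace FG

variable {E : Type*} [NormedAddCommGroup E] [NormedSpace ℝ E]

/-- solutions of differential inequalities with linear growth -/
lemma bound_right {B T : ℝ} {γ g : ℝ → E} (hg : ∀ t ∈ Ioo (-T) T, HasDerivAt γ (g t) t)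
    (hb : ∀ t ∈ Ioo (-T) T, ‖g t‖ ≤ B * ‖γ t‖) {t : ℝ} (h0 : 0 ≤ t) (ht : t < T) :
    ‖γ t‖ ≤ ‖γ 0‖ * Real.exp (B * t) := by
  have h1 : ∀ s ∈ Icc 0 t, s ∈ Ioo (-T) T := fun s hs => ⟨by linarith [hs.1], by linarith [hs.2]⟩
  have h := norm_le_gronwallBound_of_norm_deriv_right_le (f := γ) (f' := g) (δ := ‖γ 0‖) (K := B)
    (ε := 0) (a := 0) (b := t)
    (fun s hs => (hg s (h1 s hs)).continuousAt.continuousWithinAt)
    (fun s hs => (hg s (h1 s ⟨hs.1, hs.2.le⟩)).hasDerivWithinAt) le_rfl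
    (fun s hs => by rw [add_zero]; exact hb s (h1 s ⟨hs.1, hs.2.le⟩)) t ⟨h0, le_rfl⟩
  rwa [gronwallBound_ε0, sub_zero] at h

lemma bound {B T : ℝ} {γ g : ℝ → E} (hg : ∀ t ∈ Ioo (-T) T, HasDerivAt γ (g t) t)
    (hb : ∀ t ∈ Ioo (-T) T, ‖g t‖ ≤ B * ‖γ t‖) {t : ℝ} (ht : t ∈ Ioo (-T) T) :
    ‖γ t‖ ≤ ‖γ 0‖ * Real.exp (B * |t|) := by
  rcases le_total 0 t with h0 | h0
  · rw [abs_of_nonneg h0]
    exact bound_right hg hb h0 ht.2
  · rw [abs_of_nonpos h0]
    have h1 := bound_right (B := B) (T := T) (γ := fun s => γ (-s)) (g := fun s => -g (-s))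
      (fun s hs => by
        have h2 := hg (-s) ⟨by linarith [hs.2], by linarith [hs.1]⟩
        have h3 := HasDerivAt.scomp s h2 (hasDerivAt_neg s)
        rw [neg_one_smul] at h3
        exact h3)
      (fun s hs => by
        rw [norm_neg]
        exact hb (-s) ⟨by linarith [hs.2], by linarith [hs.1]⟩) (t := -t) (by linarith)
      (by linarith [ht.1])
    simpa using h1

/-- the hypotheses on the field -/
structure Fld (f : E → E) (B : ℝ) (P : ℝ → E → E) : Prop where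
  nn : 0 ≤ B
  lin : ∀ x, ‖f x‖ ≤ B * ‖x‖
  lip : ∀ R : ℝ, 0 ≤ R → ∃ K : ℝ≥0, LipschitzOnWith K f (closedBall 0 R)
  Pl : ∀ R : ℝ, 0 ≤ R → LipschitzWith 1 (P R)
  Pid : ∀ R x, ‖x‖ ≤ R → P R x = x
  Pb : ∀ R x, 0 ≤ R → ‖P R x‖ ≤ R
  Ple : ∀ R x, 0 ≤ R → ‖P R x‖ ≤ ‖x‖

variable {f : E → E} {B : ℝ} {P : ℝ → E → E}

/-- uniqueness -/
lemma uniq (h : Fld f B P) {T : ℝ} (hT : 0 < T) {γ δ : ℝ → E}
    (hγ : ∀ t ∈ Ioo (-T) T, HasDerivAt γ (f (γ t)) t)
    (hδ : ∀ t ∈ Ioo (-T) T, HasDerivAt δ (f (δ t)) t) (h0 : γ 0 = δ 0) :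
    EqOn γ δ (Ioo (-T) T) := by
  set R := ‖γ 0‖ * Real.exp (B * T) with hR
  have hR0 : 0 ≤ R := by positivity
  obtain ⟨K, hK⟩ := h.lip R hR0
  have hb : ∀ {β : ℝ → E}, (∀ t ∈ Ioo (-T) T, HasDerivAt β (f (β t)) t) → β 0 = γ 0 →
      ∀ t ∈ Ioo (-T) T, β t ∈ closedBall (0 : E) R := by
    intro β hβ h1 t ht
    rw [mem_closedBall_zero_iff]
    refine (bound hβ (fun s _ => h.lin _) ht).trans ?_
    rw [h1, hR]
    refine mul_le_mul_of_nonneg_left (Real.exp_le_exp.2 ?_) (norm_nonneg _)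
    refine mul_le_mul_of_nonneg_left ?_ h.nn
    rw [abs_le]
    exact ⟨ht.1.le, ht.2.le⟩
  exact ODE_solution_unique_of_mem_Ioo (v := fun _ => f) (s := fun _ => closedBall 0 R) (K := K)
    (t₀ := 0) (fun _ _ => hK) ⟨by linarith, hT⟩ (fun t ht => ⟨hγ t ht, hb hγ rfl t ht⟩)
    (fun t ht => ⟨hδ t ht, hb hδ h0.symm t ht⟩) h0

variable [CompleteSpace E]

/-- local flow on long intervals of time -/
lemma loc (h : Fld f B P) (x0 : E) {T : ℝ} (hT : 0 < T) :
    ∃ α : E × ℝ → E, (∀ x ∈ closedBall x0 1, α (x, 0) = x ∧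
      ∀ t ∈ Ioo (-T) T, HasDerivAt (fun s => α (x, s)) (f (α (x, t))) t) ∧
      ContinuousOn α (closedBall x0 1 ×ˢ Icc (-T) T) := by
  set R := (‖x0‖ + 1) * Real.exp (B * T) with hR
  have hR0 : 0 ≤ R := by positivity
  obtain ⟨K, hK⟩ := h.lip R hR0
  have hlip : LipschitzWith K (fun x => f (P R x)) := by
    rw [← lipschitzOnWith_univ]
    have h1 := hK.comp ((h.Pl R hR0).lipschitzOnWith (s := univ)) (fun x _ => by
      rw [mem_closedBall_zero_iff]
      exact h.Pb R x hR0)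
    rwa [mul_one] at h1
  have hBR : 0 ≤ B * R := mul_nonneg h.nn hR0
  set t0 : Icc (-T) T := ⟨0, by linarith, hT.le⟩ with ht0
  have e2 : ((B * R * T + 1).toNNReal : ℝ) = B * R * T + 1 :=
    Real.coe_toNNReal _ (by positivity)
  have e3 : ((B * R).toNNReal : ℝ) = B * R := Real.coe_toNNReal _ hBR
  have hpl : IsPicardLindelof (fun _ x => f (P R x)) t0 x0 (B * R * T + 1).toNNReal
      1 (B * R).toNNReal K := by
    refine ⟨fun t _ => hlip.lipschitzOnWith, fun x _ => continuousOn_const, fun t _ x _ => ?_, ?_⟩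
    · refine (h.lin _).trans ?_
      rw [e3]
      exact mul_le_mul_of_nonneg_left (h.Pb R x hR0) h.nn
    · have e1 : ((t0 : Icc (-T) T) : ℝ) = 0 := rfl
      rw [e1, e2, e3, NNReal.coe_one, sub_zero, zero_sub, neg_neg, max_self]
      linarith
  obtain ⟨α, hα, hc⟩ := hpl.exists_forall_mem_closedBall_eq_hasDerivWithinAt_continuousOn
  refine ⟨α, fun x hx => ?_, hc⟩
  obtain ⟨h1, h2⟩ := hα x hx
  refine ⟨h1, ?_⟩
  have h3 : ∀ t ∈ Ioo (-T) T, HasDerivAt (fun s => α (x, s)) (f (P R (α (x, t)))) t :=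
    fun t ht => (h2 t ⟨ht.1.le, ht.2.le⟩).hasDerivAt (Icc_mem_nhds ht.1 ht.2)
  intro t ht
  have h4 : ‖α (x, t)‖ ≤ R := by
    have h5 := bound (B := B) h3 (fun s _ => (h.lin _).trans
      (mul_le_mul_of_nonneg_left (h.Ple R _ hR0) h.nn)) ht
    refine h5.trans ?_
    rw [hR]
    have h6 : α (x, 0) = x := h1
    simp only [h6]
    refine mul_le_mul ?_ (Real.exp_le_exp.2 ?_) (Real.exp_pos _).le (by positivity)
    · rw [mem_closedBall, dist_eq_norm] at hx
      have := norm_sub_norm_le x x0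
      linarith
    · refine mul_le_mul_of_nonneg_left ?_ h.nn
      rw [abs_le]
      exact ⟨ht.1.le, ht.2.le⟩
  have h5 := h3 t ht
  rwa [h.Pid R _ h4] at h5

/-- global solutions -/
lemma glob (h : Fld f B P) (x : E) :
    ∃ γ : ℝ → E, γ 0 = x ∧ ∀ t, HasDerivAt γ (f (γ t)) t := by
  have h1 : ∀ n : ℕ, ∃ γ : ℝ → E, γ 0 = x ∧
      ∀ t ∈ Ioo (-((n : ℝ) + 1)) (n + 1), HasDerivAt γ (f (γ t)) t := by
    intro n
    obtain ⟨α, hα, -⟩ := loc h x (T := (n : ℝ) + 1) (by positivity)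
    exact ⟨fun s => α (x, s), (hα x (mem_closedBall_self zero_le_one))⟩
  choose γ hγ0 hγ using h1
  have h2 : ∀ m n : ℕ, m ≤ n → EqOn (γ m) (γ n) (Ioo (-((m : ℝ) + 1)) (m + 1)) := by
    intro m n hmn
    have hmn' : (m : ℝ) ≤ n := by exact_mod_cast hmn
    refine uniq h (by positivity) (hγ m) (fun t ht => hγ n t ⟨by linarith [ht.1], by
      linarith [ht.2]⟩) (by rw [hγ0, hγ0])
  refine ⟨fun t => γ ⌈|t|⌉₊ t, by simp [hγ0], fun t => ?_⟩
  set N := ⌈|t|⌉₊ + 1 with hN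
  have h3 : ∀ s ∈ Ioo (-(N : ℝ)) N, γ ⌈|s|⌉₊ s = γ N s := by
    intro s hs
    have h4 : |s| < N := by rw [abs_lt]; exact hs
    refine h2 _ _ ?_ ?_
    · exact Nat.ceil_le.2 h4.le
    · have h5 := Nat.le_ceil |s|
      have h6 := abs_le.1 h5
      exact ⟨by linarith [h6.1], by linarith [h6.2]⟩
  have ht : t ∈ Ioo (-(N : ℝ)) N := by
    have h5 := Nat.le_ceil |t|
    have h6 := abs_le.1 h5
    rw [hN]
    push_cast
    exact ⟨by linarith [h6.1], by linarith [h6.2]⟩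
  have h7 : (fun t => γ ⌈|t|⌉₊ t) =ᶠ[𝓝 t] γ N :=
    Filter.eventuallyEq_of_mem (Ioo_mem_nhds ht.1 ht.2) h3
  simp only
  rw [h3 t ht]
  exact (hγ N t ⟨by linarith [ht.1], by linarith [ht.2]⟩).congr_of_eventuallyEq h7

/-- **the flow** -/
theorem exists_flow (h : Fld f B P) : ∃ φ : ℝ → E → E, (∀ x, φ 0 x = x) ∧
    (∀ x t, HasDerivAt (fun s => φ s x) (f (φ t x)) t) ∧
    (Continuous fun p : ℝ × E => φ p.1 p.2) ∧
    ∀ γ : ℝ → E, (∀ t, HasDerivAt γ (f (γ t)) t) → ∀ t, γ t = φ t (γ 0) := by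
  choose φ h0 h1 using glob h
  refine ⟨fun t x => φ x t, h0, h1, ?_, ?_⟩
  · rw [continuous_iff_continuousAt]
    rintro ⟨t, x⟩
    obtain ⟨α, hα, hc⟩ := loc h x (T := |t| + 1) (by positivity)
    have hab := abs_le.1 (le_refl |t|)
    have h2 : ∀ p ∈ Ioo (-(|t| + 1)) (|t| + 1) ×ˢ closedBall x 1, φ p.2 p.1 = α (p.2, p.1) := by
      rintro ⟨s, y⟩ ⟨hs, hy⟩
      exact uniq h (by positivity) (fun r _ => h1 y r) (hα y hy).2
        (by rw [h0, (hα y hy).1]) hs
    have h3 : Ioo (-(|t| + 1)) (|t| + 1) ×ˢ closedBall x 1 ∈ 𝓝 (t, x) :=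
      prod_mem_nhds (Ioo_mem_nhds (by linarith [hab.1]) (by linarith [hab.2]))
        (closedBall_mem_nhds x one_pos)
    have h4 : ContinuousAt (fun p : ℝ × E => α (p.2, p.1)) (t, x) := by
      refine ContinuousOn.continuousAt (s := Ioo (-(|t| + 1)) (|t| + 1) ×ˢ closedBall x 1) ?_ h3
      refine hc.comp (by fun_prop) ?_
      rintro ⟨s, y⟩ ⟨hs, hy⟩
      exact ⟨hy, ⟨hs.1.le, hs.2.le⟩⟩
    exact h4.congr (Filter.eventuallyEq_of_mem h3 (fun p hp => (h2 p hp).symm))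
  · intro γ hγ t
    have hab := abs_le.1 (le_refl |t|)
    exact uniq h (T := |t| + 1) (by positivity) (fun r _ => hγ r) (fun r _ => h1 (γ 0) r)
      (by rw [h0]) ⟨by linarith [hab.1], by linarith [hab.2]⟩

end FG

end NC

end QE


end
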