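import Mathlib
import Pool.Agent.BWM.C04

/-! Parts: Lib_helper67.QE.PairMass, Lib_helper67.QE.PairBase, Lib_helper67.QE.PairL2, Lib_helper67.QE.TLGeom, Lib_helper67.QE.TLBall, Lib_helper67.QE.TLMass, Lib_helper67.QE.PiLemma, Lib_helper67.QE.Timelike, Lib_helper67.QE.FlowMeasure, NCV.InvA -/

section

/-!
# The pair measure of a flow invariant measure (module QH_E2 of MP_4fa179_mp)

Let `μ` be a measure on `SL(2, ℝ)` which is left invariant under `Γ` and right invariant under the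
diagonal flow, with a square integrable projection (`FlowMeas`).  The pair measure `pairM D μ` is the
image of `μ|_{Fd D} × μ` under `(v, w) ↦ v⁻¹ w`.
-/

open UpperHalfPlane MeasureTheory MatrixGroups Filter Topology Set Berry
open scoped ENNReal NNReal

namespace QE

noncomputable section

/-! ### Change of the base point -/

/-- **Change of the base point.** -/
theorem base_change_gen {G X Y : Type*} [Group G] [Countable G] [MulAction G X] [MulAction G Y]
    [MeasurableSpace X] [MeasurableSpace Y] {μ : Measure X} {ν : Measure Y} [SFinite μ] [SFinite ν]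
    [SMulInvariantMeasure G X μ] [SMulInvariantMeasure G Y ν] [MeasurableConstSMul G X]
    [MeasurableConstSMul G Y] {s : Set X} {t : Set Y} (hs : IsFundamentalDomain G s μ)
    (ht : IsFundamentalDomain G t ν) {F : X → Y → ℝ≥0∞} (hF : Measurable (Function.uncurry F))
    (hinv : ∀ (g : G) x y, F (g • x) (g • y) = F x y) :
    ∫⁻ x in s, ∫⁻ y, F x y ∂ν ∂μ = ∫⁻ y in t, ∫⁻ x, F x y ∂μ ∂ν := by
  have hm : ∀ g : G, Measurable (Function.uncurry fun (x : X) (y : Y) => F x (g • y)) := by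
    intro g
    exact hF.comp (measurable_fst.prodMk ((measurable_const_smul g).comp measurable_snd))
  have hm' : ∀ g : G, Measurable (Function.uncurry fun (y : Y) (x : X) => F (g⁻¹ • x) y) := by
    intro g
    exact hF.comp (((measurable_const_smul g⁻¹).comp measurable_snd).prodMk measurable_fst)
  calc ∫⁻ x in s, ∫⁻ y, F x y ∂ν ∂μ
      = ∫⁻ x in s, ∑' g : G, ∫⁻ y in t, F x (g • y) ∂ν ∂μ := by
        refine lintegral_congr fun x => ?_
        exact ht.lintegral_eq_tsum'' _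
    _ = ∑' g : G, ∫⁻ x in s, ∫⁻ y in t, F x (g • y) ∂ν ∂μ := by
        rw [lintegral_tsum]
        intro g
        exact (Measurable.lintegral_prod_right' (hm g)).aemeasurable
    _ = ∑' g : G, ∫⁻ y in t, ∫⁻ x in s, F (g⁻¹ • x) y ∂μ ∂ν := by
        refine tsum_congr fun g => ?_
        rw [lintegral_lintegral_swap (hm g).aemeasurable]
        refine lintegral_congr fun y => lintegral_congr fun x => ?_
        rw [← hinv g⁻¹ x (g • y), inv_smul_smul]
    _ = ∫⁻ y in t, ∑' g : G, ∫⁻ x in s, F (g⁻¹ • x) y ∂μ ∂ν := by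
        rw [lintegral_tsum]
        intro g
        exact (Measurable.lintegral_prod_right' (hm' g)).aemeasurable
    _ = ∫⁻ y in t, ∫⁻ x, F x y ∂μ ∂ν := by
        refine lintegral_congr fun y => ?_
        exact (hs.lintegral_eq_tsum' fun x => F x y).symm

/-! ### Volumes of balls -/

theorem sinh_le_mul_exp {d : ℝ} : Real.sinh d ≤ d * Real.exp d := by
  rw [Real.sinh_eq]
  have h1 : 1 - 2 * d ≤ Real.exp (-(2 * d)) := by
    have := Real.add_one_le_exp (-(2 * d))
    linarith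
  have h2 : Real.exp d * Real.exp (-(2 * d)) = Real.exp (-d) := by
    rw [← Real.exp_add]
    congr 1
    ring
  have h3 := mul_le_mul_of_nonneg_left h1 (Real.exp_pos d).le
  rw [h2] at h3
  linarith

theorem vol_ball_I {d : ℝ} (hd : 0 < d) (hd4 : d < 4) :
    (volume : Measure ℍ) (Metric.ball I d) ≤ ENNReal.ofReal (Real.pi * Real.exp 16 * d ^ 2) := by
  rw [volume_eq_lintegral, image_coe_ball]
  have hsin : 0 ≤ Real.sinh d := Real.sinh_nonneg_iff.2 hd.le
  have hbd : ∀ z ∈ Metric.ball (↑(I.center d) : ℂ) (I.im * Real.sinh d),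
      (((1 / ‖z.im‖₊) ^ 2 : ℝ≥0) : ℝ≥0∞) ≤ ENNReal.ofReal (Real.exp d ^ 2) := by
    intro z hz
    rw [Metric.mem_ball, Complex.dist_eq] at hz
    have h1 : |z.im - Real.cosh d| < Real.sinh d := by
      have h2 := Complex.abs_im_le_norm (z - ↑(I.center d))
      rw [Complex.sub_im] at h2
      have h3 : ((I.center d : ℍ) : ℂ).im = Real.cosh d := by
        show (I.center d).im = _
        rw [center_im, I_im, one_mul]
      rw [h3] at h2
      rw [I_im, one_mul] at hz
      linarith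
    have h4 : Real.exp (-d) < z.im := by
      rw [← Real.cosh_sub_sinh]
      have := (abs_lt.1 h1).1
      linarith
    have h5 : 0 < z.im := (Real.exp_pos _).trans h4
    rw [ENNReal.ofReal, ENNReal.coe_le_coe]
    rw [← NNReal.coe_le_coe, Real.coe_toNNReal _ (by positivity)]
    push_cast
    rw [Real.norm_of_nonneg h5.le]
    have h6 : 1 / z.im ≤ Real.exp d := by
      rw [div_le_iff₀ h5]
      have : Real.exp d * Real.exp (-d) = 1 := by
        rw [← Real.exp_add, add_neg_cancel, Real.exp_zero]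
      have h7 := mul_lt_mul_of_pos_left h4 (Real.exp_pos d)
      linarith
    exact pow_le_pow_left₀ (by positivity) h6 2
  refine (setLIntegral_mono' Metric.isOpen_ball.measurableSet hbd).trans ?_
  rw [setLIntegral_const, Complex.volume_ball, I_im, one_mul]
  have epi : ((NNReal.pi : ℝ≥0) : ℝ≥0∞) = ENNReal.ofReal Real.pi := by
    rw [← NNReal.coe_real_pi, ENNReal.ofReal_coe_nnreal]
  rw [← ENNReal.ofReal_pow hsin, epi, ← ENNReal.ofReal_mul (by positivity),
    ← ENNReal.ofReal_mul (by positivity)]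
  refine ENNReal.ofReal_le_ofReal ?_
  have h1 : Real.sinh d ^ 2 ≤ (d * Real.exp d) ^ 2 := pow_le_pow_left₀ hsin sinh_le_mul_exp 2
  have h2 : Real.exp d ^ 2 * Real.exp d ^ 2 ≤ Real.exp 16 := by
    rw [← Real.exp_nat_mul, ← Real.exp_add]
    refine Real.exp_le_exp.2 ?_
    push_cast
    linarith
  have hpi := Real.pi_pos
  calc Real.exp d ^ 2 * (Real.sinh d ^ 2 * Real.pi)
      ≤ Real.exp d ^ 2 * ((d * Real.exp d) ^ 2 * Real.pi) := by gcongr
    _ = Real.pi * (Real.exp d ^ 2 * Real.exp d ^ 2) * d ^ 2 := by ring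
    _ ≤ _ := by gcongr

theorem vol_ball_eq (x : ℍ) (d : ℝ) :
    (volume : Measure ℍ) (Metric.ball x d) = volume (Metric.ball I d) := by
  have h := measure_preimage_smul (volume : Measure ℍ) ((x.toSL2R)⁻¹ : SL(2, ℝ)) (Metric.ball I d)
  rw [← h]
  congr 1
  ext z
  rw [Set.mem_preimage, Metric.mem_ball, Metric.mem_ball]
  have e : dist ((x.toSL2R)⁻¹ • z) I = dist z x := by
    rw [← dist_smul (x.toSL2R : SL(2, ℝ)) ((x.toSL2R)⁻¹ • z) I, smul_inv_smul, toSL2R_smul_I]
  rw [e]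

/-! ### The distance to `i` -/

theorem smul_I_coe (g : SL(2, ℝ)) : ((g • I : ℍ) : ℂ) =
    ⟨(g 0 0 * g 1 0 + g 0 1 * g 1 1) / (g 1 0 ^ 2 + g 1 1 ^ 2), 1 / (g 1 0 ^ 2 + g 1 1 ^ 2)⟩ := by
  have hdet := g.det_coe
  rw [Matrix.det_fin_two] at hdet
  have hpos : 0 < g 1 0 ^ 2 + g 1 1 ^ 2 := by
    by_contra h
    have h1 : g 1 0 = 0 := by nlinarith only [h]
    have h2 : g 1 1 = 0 := by nlinarith only [h]
    rw [h1, h2] at hdet
    norm_num at hdet
  rw [coe_specialLinearGroup_apply]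
  have hne : ((algebraMap ℝ ℝ) (g 1 0) : ℂ) * (I : ℂ) + ((algebraMap ℝ ℝ) (g 1 1) : ℂ) ≠ 0 := by
    intro h
    have h2 := congrArg Complex.re h
    have h3 := congrArg Complex.im h
    simp at h2 h3
    rw [h2, h3] at hpos
    norm_num at hpos
  rw [div_eq_iff hne]
  apply Complex.ext
  · simp
    field_simp
    linear_combination (-(g 1 0)) * hdet
  · simp
    field_simp
    linear_combination (g 1 1) * hdet

theorem two_cosh (g : SL(2, ℝ)) : 2 * Real.cosh (dist (g • I) I) - 2 =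
    (g 0 0 - g 1 1) ^ 2 + (g 0 1 + g 1 0) ^ 2 := by
  have hdet := g.det_coe
  rw [Matrix.det_fin_two] at hdet
  have hpos : 0 < g 1 0 ^ 2 + g 1 1 ^ 2 := by
    by_contra h
    have h1 : g 1 0 = 0 := by nlinarith only [h]
    have h2 : g 1 1 = 0 := by nlinarith only [h]
    rw [h1, h2] at hdet
    norm_num at hdet
  have hc := smul_I_coe g
  have him : (g • I : ℍ).im = 1 / (g 1 0 ^ 2 + g 1 1 ^ 2) := by
    have := congrArg Complex.im hc
    exact this
  rw [cosh_dist, him, I_im, hc, Complex.dist_eq, ← Complex.normSq_eq_norm_sq, Complex.normSq_apply]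
  simp only [Complex.sub_re, Complex.sub_im, coe_I, Complex.I_re, Complex.I_im]
  set a := g 0 0
  set b := g 0 1
  set c := g 1 0
  set d := g 1 1
  have hne : c ^ 2 + d ^ 2 ≠ 0 := hpos.ne'
  have e : (a * c + b * d) ^ 2 = (a ^ 2 + b ^ 2) * (c ^ 2 + d ^ 2) - 1 := by
    have : (a * d - b * c) ^ 2 = 1 := by rw [hdet]; norm_num
    nlinarith
  field_simp
  linear_combination e + 2 * (c ^ 2 + d ^ 2) * hdet


theorem sq_le_two_cosh (r : ℝ) : r ^ 2 ≤ 2 * Real.cosh r - 2 := by
  have h1 : Real.cosh r = 2 * Real.sinh (r / 2) ^ 2 + 1 := by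
    have := Real.cosh_two_mul (r / 2)
    rw [mul_div_cancel₀ _ two_ne_zero] at this
    rw [this, Real.cosh_sq]
    ring
  have h2 : (r / 2) ^ 2 ≤ Real.sinh (r / 2) ^ 2 := by
    rw [sq_le_sq]
    rcases le_total 0 (r / 2) with h | h
    · rw [abs_of_nonneg h, abs_of_nonneg (Real.sinh_nonneg_iff.2 h)]
      exact Real.self_le_sinh_iff.2 h
    · rw [abs_of_nonpos h, abs_of_nonpos (Real.sinh_nonpos_iff.2 h)]
      have := Real.sinh_le_self_iff.2 h
      linarith
  linarith only [h1, h2]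


section

variable {Γ : Subgroup SL(2, ℝ)} {D : Set ℍ}

theorem ball_eq (f : ℍ → ℝ≥0∞) (x : ℍ) (d : ℝ) :
    ∫⁻ z in Metric.ball x d, f z = ∫⁻ z, (if dist x z < d then f z else 0) := by
  rw [← lintegral_indicator Metric.isOpen_ball.measurableSet]
  refine lintegral_congr fun z => ?_
  by_cases hz : dist x z < d
  · rw [Set.indicator_of_mem (show z ∈ Metric.ball x d by
      rw [Metric.mem_ball, dist_comm]; exact hz), if_pos hz]
  · rw [Set.indicator_of_notMem (show z ∉ Metric.ball x d by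
      rw [Metric.mem_ball, dist_comm]; exact hz), if_neg hz]

theorem ball_kernel_meas {f : ℍ → ℝ≥0∞} (hf : Measurable f) (d : ℝ) :
    Measurable (Function.uncurry fun (x z : ℍ) => if dist x z < d then f z else 0) :=
  Measurable.ite (measurableSet_lt measurable_dist measurable_const)
    (hf.comp measurable_snd) measurable_const

theorem ball_meas {f : ℍ → ℝ≥0∞} (hf : Measurable f) (d : ℝ) :
    Measurable fun x => ∫⁻ z in Metric.ball x d, f z := by
  have h := Measurable.lintegral_prod_right' (ν := (volume : Measure ℍ)) (ball_kernel_meas hf d)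
  have e : (fun x => ∫⁻ z in Metric.ball x d, f z) = fun x : ℍ =>
      ∫⁻ z, Function.uncurry (fun (x z : ℍ) => if dist x z < d then f z else 0) (x, z) := by
    funext x
    exact ball_eq f x d
  rw [e]
  exact h

/-- Averages over balls of invariant functions. -/
theorem lintegral_ball [Countable Γ] (hD : IsFundamentalDomain Γ D (volume : Measure ℍ))
    {f : ℍ → ℝ≥0∞} (hf : Measurable f) (hinv : ∀ γ ∈ Γ, ∀ z, f (γ • z) = f z) (d : ℝ) :
    ∫⁻ x in D, ∫⁻ z in Metric.ball x d, f z = volume (Metric.ball I d) * ∫⁻ z in D, f z := by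
  have h := base_change_gen hD hD (ball_kernel_meas hf d) (fun g x y => by
    have e1 : dist (g • x) (g • y) = dist x y := dist_smul (g : SL(2, ℝ)) x y
    have e2 : f (g • y) = f y := hinv g g.2 y
    simp only [e1, e2])
  have e2 : ∀ z : ℍ, ∫⁻ x : ℍ, (if dist x z < d then f z else 0) =
      volume (Metric.ball I d) * f z := by
    intro z
    have : ∀ x, (if dist x z < d then f z else 0) =
        (Metric.ball z d).indicator (fun _ => f z) x := by
      intro x
      by_cases hz : dist x z < d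
      · rw [Set.indicator_of_mem (show x ∈ Metric.ball z d from hz), if_pos hz]
      · rw [Set.indicator_of_notMem (show x ∉ Metric.ball z d from hz), if_neg hz]
    simp only [this]
    rw [lintegral_indicator_const Metric.isOpen_ball.measurableSet, vol_ball_eq, mul_comm]
  simp only [← ball_eq, e2] at h
  rw [h, lintegral_const_mul _ hf]

theorem vol_D_pos [Countable Γ] (hD : IsFundamentalDomain Γ D (volume : Measure ℍ)) :
    (volume : Measure ℍ) D ≠ 0 := by
  refine hD.measure_ne_zero ?_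
  intro h0
  have := volume_pos_of_isOpen isOpen_univ ⟨I, mem_univ I⟩
  rw [h0] at this
  simp at this

/-- Invariant functions which are integrable over `D` are locally integrable. -/
theorem local_lt_top [Countable Γ] (hD : IsFundamentalDomain Γ D (volume : Measure ℍ))
    {f : ℍ → ℝ≥0∞} (hf : Measurable f) (hinv : ∀ γ ∈ Γ, ∀ z, f (γ • z) = f z)
    (hfin : ∫⁻ z in D, f z ≠ ⊤) (R : ℝ) : ∫⁻ z in Metric.ball I R, f z < ⊤ := by
  have h1 : ∀ n : ℕ, ∀ᵐ x ∂((volume : Measure ℍ).restrict D),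
      ∫⁻ z in Metric.ball x (n : ℝ), f z < ⊤ := by
    intro n
    have h2 : ∫⁻ x in D, ∫⁻ z in Metric.ball x (n : ℝ), f z ≠ ⊤ := by
      rw [lintegral_ball hD hf hinv]
      refine ENNReal.mul_ne_top ?_ hfin
      exact (measure_mono Metric.ball_subset_closedBall).trans_lt
        (isCompact_closedBall I (n : ℝ)).measure_lt_top |>.ne
    exact ae_lt_top (ball_meas hf _) h2
  have h3 := ae_all_iff.2 h1
  have hne : (ae ((volume : Measure ℍ).restrict D)).NeBot := by
    rw [ae_neBot, Ne, Measure.restrict_eq_zero]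
    exact vol_D_pos hD
  obtain ⟨x, hx⟩ := h3.exists
  obtain ⟨n, hn⟩ := exists_nat_ge (R + dist I x)
  refine lt_of_le_of_lt (lintegral_mono_set ?_) (hx n)
  intro z hz
  rw [Metric.mem_ball] at hz ⊢
  linarith [dist_triangle z I x]

/-! ### Basic facts on `FlowMeas` -/

variable [MeasurableSpace SL(2, ℝ)] [BorelSpace SL(2, ℝ)] {μ : Measure SL(2, ℝ)} {p : ℍ → ℝ}

namespace FlowMeas0

omit [BorelSpace SL(2, ℝ)] in
theorem pm (hμ : FlowMeas0 Γ D μ p) : Measurable fun z => ENNReal.ofReal (p z) :=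
  ENNReal.measurable_ofReal.comp hμ.pmeas

theorem map_proj (hμ : FlowMeas0 Γ D μ p) : Measure.map (fun g : SL(2, ℝ) => g • I) μ =
    (volume : Measure ℍ).withDensity fun z => ENNReal.ofReal (p z) := by
  ext S hS
  rw [Measure.map_apply proj_measurable hS, hμ.proj S hS, withDensity_apply _ hS]

theorem lintegral_proj (hμ : FlowMeas0 Γ D μ p) {f : ℍ → ℝ≥0∞} (hf : Measurable f) {S : Set ℍ}
    (hS : MeasurableSet S) : ∫⁻ g in Fd S, f (g • I) ∂μ = ∫⁻ z in S, ENNReal.ofReal (p z) * f z := by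
  have h1 : ∫⁻ g in Fd S, f (g • I) ∂μ =
      ∫⁻ z in S, f z ∂(Measure.map (fun g : SL(2, ℝ) => g • I) μ) := by
    rw [setLIntegral_map hS hf proj_measurable]
    rfl
  rw [h1, hμ.map_proj, restrict_withDensity hS, lintegral_withDensity_eq_lintegral_mul _ hμ.pm hf]
  rfl

omit [BorelSpace SL(2, ℝ)] in
theorem le_one_add (hμ : FlowMeas0 Γ D μ p) (z : ℍ) :
    ENNReal.ofReal (p z) ≤ 1 + ENNReal.ofReal (p z ^ 2) := by
  rw [← ENNReal.ofReal_one, ← ENNReal.ofReal_add zero_le_one (sq_nonneg _)]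
  have h := hμ.pnonneg z
  refine ENNReal.ofReal_le_ofReal ?_
  nlinarith [sq_nonneg (p z - 1)]

omit [BorelSpace SL(2, ℝ)] in
theorem p2m (hμ : FlowMeas0 Γ D μ p) : Measurable fun z => ENNReal.ofReal (p z ^ 2) :=
  ENNReal.measurable_ofReal.comp (hμ.pmeas.pow_const 2)

omit [BorelSpace SL(2, ℝ)] in
theorem psq_ne_top (hμ : FlowMeas0 Γ D μ p) : ∫⁻ z in D, ENNReal.ofReal (p z ^ 2) ≠ ⊤ := by
  have := hμ.psq.2
  rw [hasFiniteIntegral_iff_ofReal (Eventually.of_forall fun z => sq_nonneg _)] at this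
  exact this.ne

omit [BorelSpace SL(2, ℝ)] in
theorem p_ne_top (hμ : FlowMeas0 Γ D μ p) {S : Set ℍ} (hS : (volume : Measure ℍ) S ≠ ⊤)
    (h2 : ∫⁻ z in S, ENNReal.ofReal (p z ^ 2) ≠ ⊤) : ∫⁻ z in S, ENNReal.ofReal (p z) ≠ ⊤ := by
  have h1 : ∫⁻ z in S, ENNReal.ofReal (p z) ≤ ∫⁻ z in S, (1 + ENNReal.ofReal (p z ^ 2)) :=
    lintegral_mono fun z => hμ.le_one_add z
  rw [lintegral_add_left measurable_const, setLIntegral_const, one_mul] at h1
  exact ne_top_of_le_ne_top (ENNReal.add_ne_top.2 ⟨hS, h2⟩) h1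

omit [BorelSpace SL(2, ℝ)] in
theorem p2inv (hμ : FlowMeas0 Γ D μ p) : ∀ γ ∈ Γ, ∀ z,
    ENNReal.ofReal (p (γ • z) ^ 2) = ENNReal.ofReal (p z ^ 2) := by
  intro γ hγ z
  rw [hμ.pinv γ hγ z]

theorem fd_ne_top (hμ : FlowMeas0 Γ D μ p) (hDm : MeasurableSet D)
    (hfin : (volume : Measure ℍ) D ≠ ⊤) : μ (Fd D) ≠ ⊤ := by
  have h := hμ.proj D hDm
  have h2 : μ (Fd D) = ∫⁻ z in D, ENNReal.ofReal (p z) := h
  rw [h2]
  exact hμ.p_ne_top hfin hμ.psq_ne_top

theorem ball_ne_top [Countable Γ] (hμ : FlowMeas0 Γ D μ p)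
    (hD : IsFundamentalDomain Γ D (volume : Measure ℍ)) (R : ℝ) :
    μ (Fd (Metric.ball I R)) ≠ ⊤ := by
  have h := hμ.proj (Metric.ball I R) Metric.isOpen_ball.measurableSet
  have h2 : μ (Fd (Metric.ball I R)) = ∫⁻ z in Metric.ball I R, ENNReal.ofReal (p z) := h
  rw [h2]
  refine hμ.p_ne_top ?_ (local_lt_top hD hμ.p2m hμ.p2inv hμ.psq_ne_top R).ne
  exact ((measure_mono Metric.ball_subset_closedBall).trans_lt
    (isCompact_closedBall I R).measure_lt_top).ne

theorem finiteOnCompacts [Countable Γ] (hμ : FlowMeas0 Γ D μ p)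
    (hD : IsFundamentalDomain Γ D (volume : Measure ℍ)) : IsFiniteMeasureOnCompacts μ := by
  refine ⟨fun K hK => ?_⟩
  have hc : IsCompact ((fun g : SL(2, ℝ) => g • I) '' K) :=
    hK.image (continuous_id.smul continuous_const)
  obtain ⟨R, hR⟩ := hc.isBounded.subset_ball I
  refine lt_of_le_of_lt (measure_mono ?_) (hμ.ball_ne_top hD R).lt_top
  intro g hg
  exact hR ⟨g, hg, rfl⟩

theorem sigmaFinite [Countable Γ] (hμ : FlowMeas0 Γ D μ p)
    (hD : IsFundamentalDomain Γ D (volume : Measure ℍ)) : SigmaFinite μ := by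
  have := hμ.finiteOnCompacts hD
  infer_instance

theorem smulInv (hμ : FlowMeas0 Γ D μ p) : SMulInvariantMeasure Γ SL(2, ℝ) μ where
  measure_preimage_smul g s hs := by
    have h := hμ.left g g.2
    have hm : Measurable fun x : SL(2, ℝ) => (g : SL(2, ℝ)) * x :=
      (continuous_const_mul (g : SL(2, ℝ))).measurable
    conv_rhs => rw [← h, Measure.map_apply hm hs]
    rfl

theorem qmp (hμ : FlowMeas0 Γ D μ p) :
    Measure.QuasiMeasurePreserving (fun g : SL(2, ℝ) => g • I) μ volume := by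
  refine ⟨proj_measurable, ?_⟩
  rw [hμ.map_proj]
  exact withDensity_absolutelyContinuous _ _

theorem isFund (hμ : FlowMeas0 Γ D μ p) (hD : IsFundamentalDomain Γ D (volume : Measure ℍ)) :
    IsFundamentalDomain Γ (Fd D) μ :=
  hD.preimage_of_equiv hμ.qmp (e := id) Function.bijective_id fun γ g => by
    show (γ • g) • I = γ • (g • I)
    exact mul_smul (γ : SL(2, ℝ)) g I

end FlowMeas0

namespace FlowMeas

theorem mul_aS_meas (s : ℝ) : Measurable fun g : SL(2, ℝ) => g * aS s :=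
  (continuous_mul_const (aS s)).measurable

theorem mp (hμ : FlowMeas Γ D μ p) (s : ℝ) :
    MeasurePreserving (fun g : SL(2, ℝ) => g * aS s) μ μ :=
  ⟨mul_aS_meas s, hμ.right s⟩

theorem isFund_right (hμ : FlowMeas Γ D μ p)
    (hD : IsFundamentalDomain Γ D (volume : Measure ℍ)) (s : ℝ) :
    IsFundamentalDomain Γ ((fun g : SL(2, ℝ) => g * aS s) ⁻¹' (Fd D)) μ :=
  (hμ.isFund hD).preimage_of_equiv (hμ.mp s).quasiMeasurePreserving (e := id)
    Function.bijective_id fun γ g => by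
    show ((γ : SL(2, ℝ)) * g) * aS s = (γ : SL(2, ℝ)) * (g * aS s)
    rw [mul_assoc]

end FlowMeas

omit [MeasurableSpace SL(2, ℝ)] [BorelSpace SL(2, ℝ)] in
theorem aS_neg_mul (s : ℝ) : aS (-s) * aS s = 1 := by
  apply Subtype.ext
  show (aS (-s)).1 * (aS s).1 = 1
  simp only [aS, Matrix.mul_fin_two]
  have h1 : Real.exp (-s / 2) * Real.exp (s / 2) = 1 := by
    rw [← Real.exp_add]
    simp [neg_div]
  have h2 : Real.exp (-(-s / 2)) * Real.exp (-(s / 2)) = 1 := by
    rw [← Real.exp_add]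
    simp [neg_div]
  rw [Matrix.one_fin_two]
  simp [h1, h2]

omit [MeasurableSpace SL(2, ℝ)] [BorelSpace SL(2, ℝ)] in
theorem aS_mul_neg (s : ℝ) : aS s * aS (-s) = 1 := by
  have := aS_neg_mul (-s)
  rwa [neg_neg] at this

/-- **Right invariance of the integrals over the fundamental domain.** -/
theorem FlowMeas.setLIntegral_right [Countable Γ] (hμ : FlowMeas Γ D μ p)
    (hD : IsFundamentalDomain Γ D (volume : Measure ℍ)) {f : SL(2, ℝ) → ℝ≥0∞}
    (hinv : ∀ γ ∈ Γ, ∀ g, f (γ * g) = f g) (s : ℝ) :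
    ∫⁻ v in Fd D, f (v * aS s) ∂μ = ∫⁻ v in Fd D, f v ∂μ := by
  have := hμ.smulInv
  have hemb : MeasurableEmbedding fun g : SL(2, ℝ) => g * aS s :=
    (Homeomorph.mulRight (aS s)).measurableEmbedding
  have h1 := (hμ.mp s).setLIntegral_comp_preimage_emb hemb f
    ((fun g : SL(2, ℝ) => g * aS (-s)) ⁻¹' (Fd D))
  have e2 : (fun g : SL(2, ℝ) => g * aS s) ⁻¹' ((fun g : SL(2, ℝ) => g * aS (-s)) ⁻¹' (Fd D))
      = Fd D := by
    ext g
    simp only [Set.mem_preimage, mul_assoc, aS_mul_neg, mul_one]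
  rw [e2] at h1
  rw [h1]
  exact (hμ.isFund_right hD (-s)).setLIntegral_eq (hμ.isFund hD) f fun γ g => hinv γ γ.2 g

/-! ### The pair measure -/

/-- **The pair measure** -/
def pairM (D : Set ℍ) (μ : Measure SL(2, ℝ)) : Measure SL(2, ℝ) :=
  Measure.map (fun z : SL(2, ℝ) × SL(2, ℝ) => z.1⁻¹ * z.2) ((μ.restrict (Fd D)).prod μ)

theorem divm : Measurable fun z : SL(2, ℝ) × SL(2, ℝ) => z.1⁻¹ * z.2 :=
  (continuous_fst.inv.mul continuous_snd).measurable

theorem lintegral_pairM [SFinite μ] {f : SL(2, ℝ) → ℝ≥0∞} (hf : Measurable f) :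
    ∫⁻ g, f g ∂(pairM D μ) = ∫⁻ v in Fd D, ∫⁻ w, f (v⁻¹ * w) ∂μ ∂μ := by
  unfold pairM
  rw [lintegral_map hf divm, lintegral_prod]
  exact (hf.comp divm).aemeasurable

theorem pairM_apply [SFinite μ] {S : Set SL(2, ℝ)} (hS : MeasurableSet S) :
    pairM D μ S = pairMass D μ S := by
  unfold pairM pairMass
  rw [Measure.map_apply divm hS, Measure.prod_apply (divm hS)]
  rfl

theorem mass_meas [SFinite μ] {S : Set SL(2, ℝ)} (hS : MeasurableSet S) :
    Measurable fun v : SL(2, ℝ) => μ ((fun w => v⁻¹ * w) ⁻¹' S) :=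
  measurable_measure_prodMk_left (divm hS)

theorem FlowMeas0.mass_inv (hμ : FlowMeas0 Γ D μ p) {S : Set SL(2, ℝ)} (hS : MeasurableSet S)
    {γ : SL(2, ℝ)} (hγ : γ ∈ Γ) (v : SL(2, ℝ)) :
    μ ((fun w => (γ * v)⁻¹ * w) ⁻¹' S) = μ ((fun w => v⁻¹ * w) ⁻¹' S) := by
  have h := hμ.left γ hγ
  have hm : Measurable fun x : SL(2, ℝ) => γ * x := (continuous_const_mul γ).measurable
  have hm2 : Measurable fun w : SL(2, ℝ) => (γ * v)⁻¹ * w :=
    (continuous_const_mul (γ * v)⁻¹).measurable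
  conv_lhs => rw [← h, Measure.map_apply hm (hm2 hS)]
  congr 1
  ext w
  simp only [Set.mem_preimage, mul_inv_rev]
  rw [show v⁻¹ * γ⁻¹ * (γ * w) = v⁻¹ * w by group]

/-- change of the base point -/
theorem FlowMeas0.base_change [Countable Γ] [SFinite μ] (hμ : FlowMeas0 Γ D μ p)
    (hD : IsFundamentalDomain Γ D (volume : Measure ℍ)) {F : SL(2, ℝ) → SL(2, ℝ) → ℝ≥0∞}
    (hF : Measurable (Function.uncurry F)) (hinv : ∀ γ ∈ Γ, ∀ v w, F (γ * v) (γ * w) = F v w) :
    ∫⁻ v in Fd D, ∫⁻ w, F v w ∂μ ∂μ = ∫⁻ w in Fd D, ∫⁻ v, F v w ∂μ ∂μ := by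
  have := hμ.smulInv
  exact base_change_gen (hμ.isFund hD) (hμ.isFund hD) hF fun γ v w => hinv γ γ.2 v w

/-- bi-invariance under the diagonal flow, for integrals -/
theorem FlowMeas.lintegral_pairM_conj [Countable Γ] [SFinite μ] (hμ : FlowMeas Γ D μ p)
    (hD : IsFundamentalDomain Γ D (volume : Measure ℍ)) {f : SL(2, ℝ) → ℝ≥0∞}
    (hf : Measurable f) (s t : ℝ) :
    ∫⁻ g, f (aS s * g * aS t) ∂(pairM D μ) = ∫⁻ g, f g ∂(pairM D μ) := by
  have hc : Measurable fun g : SL(2, ℝ) => aS s * g * aS t :=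
    ((continuous_const_mul (aS s)).mul continuous_const).measurable
  rw [lintegral_pairM (f := fun g => f (aS s * g * aS t)) (hf.comp hc), lintegral_pairM hf]
  have e1 : ∀ v : SL(2, ℝ), ∫⁻ w, f (aS s * (v⁻¹ * w) * aS t) ∂μ =
      ∫⁻ w, f ((v * aS (-s))⁻¹ * w) ∂μ := by
    intro v
    have hemb : MeasurableEmbedding fun g : SL(2, ℝ) => g * aS t :=
      (Homeomorph.mulRight (aS t)).measurableEmbedding
    rw [← (hμ.mp t).lintegral_comp_emb hemb fun w => f ((v * aS (-s))⁻¹ * w)]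
    refine lintegral_congr fun w => ?_
    congr 1
    rw [mul_inv_rev, inv_eq_of_mul_eq_one_left (aS_mul_neg s)]
    simp only [mul_assoc]
  simp only [e1]
  refine hμ.setLIntegral_right hD (f := fun v => ∫⁻ w, f (v⁻¹ * w) ∂μ) ?_ (-s)
  intro γ hγ g
  have h := hμ.left γ hγ
  have hemb : MeasurableEmbedding fun x : SL(2, ℝ) => γ * x :=
    (Homeomorph.mulLeft γ).measurableEmbedding
  have hmp : MeasurePreserving (fun x : SL(2, ℝ) => γ * x) μ μ :=
    ⟨(continuous_const_mul γ).measurable, h⟩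
  rw [← hmp.lintegral_comp_emb hemb fun w => f ((γ * g)⁻¹ * w)]
  refine lintegral_congr fun w => ?_
  congr 1
  group

theorem FlowMeas.pairM_conj [Countable Γ] [SFinite μ] (hμ : FlowMeas Γ D μ p)
    (hD : IsFundamentalDomain Γ D (volume : Measure ℍ)) (s t : ℝ) :
    Measure.map (fun g => aS s * g * aS t) (pairM D μ) = pairM D μ := by
  refine Measure.ext_of_lintegral _ fun f hf => ?_
  have hc : Measurable fun g : SL(2, ℝ) => aS s * g * aS t :=
    ((continuous_const_mul (aS s)).mul continuous_const).measurable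
  rw [lintegral_map hf hc, hμ.lintegral_pairM_conj hD hf]

/-- invariance under inversion, for integrals -/
theorem FlowMeas0.lintegral_pairM_inv [Countable Γ] [SFinite μ] (hμ : FlowMeas0 Γ D μ p)
    (hD : IsFundamentalDomain Γ D (volume : Measure ℍ)) {f : SL(2, ℝ) → ℝ≥0∞}
    (hf : Measurable f) : ∫⁻ g, f g⁻¹ ∂(pairM D μ) = ∫⁻ g, f g ∂(pairM D μ) := by
  rw [lintegral_pairM (f := fun g => f g⁻¹) (hf.comp measurable_inv), lintegral_pairM hf]
  have hF : Measurable (Function.uncurry fun v w : SL(2, ℝ) => f (v⁻¹ * w)) := hf.comp divm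
  rw [hμ.base_change hD hF]
  · refine lintegral_congr fun v => lintegral_congr fun w => ?_
    congr 1
    group
  · intro γ _ v w
    congr 1
    group

theorem FlowMeas0.pairM_inv [Countable Γ] [SFinite μ] (hμ : FlowMeas0 Γ D μ p)
    (hD : IsFundamentalDomain Γ D (volume : Measure ℍ)) :
    Measure.map (fun g => g⁻¹) (pairM D μ) = pairM D μ := by
  refine Measure.ext_of_lintegral _ fun f hf => ?_
  rw [lintegral_map hf measurable_inv, hμ.lintegral_pairM_inv hD hf]

omit [MeasurableSpace SL(2, ℝ)] [BorelSpace SL(2, ℝ)] in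
theorem neg_cont : Continuous fun g : SL(2, ℝ) => -g := by
  refine continuous_induced_rng.2 ?_
  have : Continuous fun g : SL(2, ℝ) => -(g : Matrix (Fin 2) (Fin 2) ℝ) :=
    continuous_induced_dom.neg
  exact this

theorem FlowMeas0.pairM_neg [SFinite μ] (hμ : FlowMeas0 Γ D μ p) :
    Measure.map (fun g => -g) (pairM D μ) = pairM D μ := by
  refine Measure.ext_of_lintegral _ fun f hf => ?_
  have hn : Measurable fun g : SL(2, ℝ) => -g := neg_cont.measurable
  rw [lintegral_map hf hn, lintegral_pairM (f := fun g => f (-g)) (hf.comp hn),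
    lintegral_pairM hf]
  refine lintegral_congr fun v => ?_
  have hc : Measurable fun w : SL(2, ℝ) => f (v⁻¹ * w) :=
    hf.comp (continuous_const_mul v⁻¹).measurable
  conv_rhs => rw [← hμ.neg, lintegral_map hc hn]
  refine lintegral_congr fun w => ?_
  rw [mul_neg]

/-! ### The quadratic bound -/

omit [BorelSpace SL(2, ℝ)] in
theorem FlowMeas0.mass_le (hμ : FlowMeas0 Γ D μ p) (v : SL(2, ℝ)) {d : ℝ} (hd : 0 < d) :
    μ ((fun w => v⁻¹ * w) ⁻¹' {g | (g 0 0 - g 1 1) ^ 2 + (g 0 1 + g 1 0) ^ 2 < d ^ 2}) ≤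
      ∫⁻ z in Metric.ball (v • I) d, ENNReal.ofReal (p z) := by
  rw [← hμ.proj _ Metric.isOpen_ball.measurableSet]
  refine measure_mono fun w hw => ?_
  rw [Set.mem_preimage, Set.mem_ofPred_eq, ← two_cosh] at hw
  have h1 := sq_le_two_cosh (dist ((v⁻¹ * w) • I) I)
  have h2 : dist ((v⁻¹ * w) • I) I < d := by
    nlinarith only [hw, h1, hd]
  have h3 : dist ((v⁻¹ * w) • I) I = dist (w • I) (v • I) := by
    rw [← dist_smul v ((v⁻¹ * w) • I) I, ← mul_smul, mul_inv_cancel_left]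
  rw [h3] at h2
  exact h2

/-- **The quadratic bound (B).** -/
theorem FlowMeas0.pair_bound [Countable Γ] (hμ : FlowMeas0 Γ D μ p)
    (hD : IsFundamentalDomain Γ D (volume : Measure ℍ)) (hDm : MeasurableSet D) :
    ∃ C : ℝ, 0 ≤ C ∧ ∀ d : ℝ, 0 < d → d < 4 →
      pairMass D μ {g | (g 0 0 - g 1 1) ^ 2 + (g 0 1 + g 1 0) ^ 2 < d ^ 2} ≤
        ENNReal.ofReal (C * d ^ 2) := by
  set A : ℝ≥0∞ := ∫⁻ z in D, ENNReal.ofReal (p z ^ 2) with hA
  have hAt : A ≠ ⊤ := hμ.psq_ne_top
  refine ⟨2 * (Real.pi * Real.exp 16) * A.toReal, by positivity, fun d hd hd4 => ?_⟩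
  set Φ : ℍ → ℝ≥0∞ := fun x => ∫⁻ z in Metric.ball x d, ENNReal.ofReal (p z) with hΦ
  have hΦm : Measurable Φ := ball_meas hμ.pm d
  calc pairMass D μ {g | (g 0 0 - g 1 1) ^ 2 + (g 0 1 + g 1 0) ^ 2 < d ^ 2}
      ≤ ∫⁻ v in Fd D, Φ (v • I) ∂μ := lintegral_mono fun v => hμ.mass_le v hd
    _ = ∫⁻ x in D, ENNReal.ofReal (p x) * Φ x := hμ.lintegral_proj hΦm hDm
    _ ≤ ∫⁻ x in D, (volume (Metric.ball I d) * ENNReal.ofReal (p x ^ 2) +
          ∫⁻ z in Metric.ball x d, ENNReal.ofReal (p z ^ 2)) := by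
        refine lintegral_mono fun x => ?_
        simp only [hΦ]
        rw [← lintegral_const_mul' _ _ ENNReal.ofReal_ne_top, ← vol_ball_eq x d, mul_comm,
          ← setLIntegral_const, ← lintegral_add_left measurable_const]
        refine lintegral_mono fun z => ?_
        simp only
        rw [← ENNReal.ofReal_mul (hμ.pnonneg x), ← ENNReal.ofReal_add (sq_nonneg _) (sq_nonneg _)]
        refine ENNReal.ofReal_le_ofReal ?_
        linarith only [sq_nonneg (p x - p z), sq_nonneg (p x), sq_nonneg (p z)]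
    _ = volume (Metric.ball I d) * A + volume (Metric.ball I d) * A := by
        rw [lintegral_add_left (hμ.p2m.const_mul _), lintegral_const_mul _ hμ.p2m,
          lintegral_ball hD hμ.p2m hμ.p2inv]
    _ ≤ ENNReal.ofReal (Real.pi * Real.exp 16 * d ^ 2) * A +
          ENNReal.ofReal (Real.pi * Real.exp 16 * d ^ 2) * A := by
        gcongr <;> exact vol_ball_I hd hd4
    _ = ENNReal.ofReal (2 * (Real.pi * Real.exp 16) * A.toReal * d ^ 2) := by
        rw [← two_mul, ← ENNReal.ofReal_toReal hAt, ← ENNReal.ofReal_mul (by positivity)]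
        rw [show (2 : ℝ≥0∞) = ENNReal.ofReal 2 by simp, ← ENNReal.ofReal_mul (by positivity),
          ENNReal.toReal_ofReal ENNReal.toReal_nonneg]
        congr 1
        ring

/-! ### Coordinates -/

/-- the elements near the diagonal group: `t = log (g₀₀ / g₁₁) ∈ [a, b)`, `(g₀₁, g₁₀) ∈ E` -/
def Win (a b : ℝ) (E : Set (ℝ × ℝ)) : Set SL(2, ℝ) :=
  {g | 0 < g 0 0 ∧ 0 < g 1 1 ∧ a ≤ Real.log (g 0 0 / g 1 1) ∧ Real.log (g 0 0 / g 1 1) < b ∧
    (g 0 1, g 1 0) ∈ E}

omit [MeasurableSpace SL(2, ℝ)] [BorelSpace SL(2, ℝ)] in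
theorem entry_cont (i j : Fin 2) : Continuous fun g : SL(2, ℝ) => g i j := by
  have h : Continuous fun g : SL(2, ℝ) => (g : Matrix (Fin 2) (Fin 2) ℝ) :=
    continuous_induced_dom
  exact (continuous_apply j).comp ((continuous_apply i).comp h)

theorem entry_meas (i j : Fin 2) : Measurable fun g : SL(2, ℝ) => g i j :=
  (entry_cont i j).measurable

theorem log_meas : Measurable fun g : SL(2, ℝ) => Real.log (g 0 0 / g 1 1) :=
  Real.measurable_log.comp ((entry_meas 0 0).div (entry_meas 1 1))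

theorem bc_meas : Measurable fun g : SL(2, ℝ) => (g 0 1, g 1 0) :=
  (entry_meas 0 1).prodMk (entry_meas 1 0)

theorem Win_meas (a b : ℝ) {E : Set (ℝ × ℝ)} (hE : MeasurableSet E) :
    MeasurableSet (Win a b E) := by
  have h1 : MeasurableSet {g : SL(2, ℝ) | 0 < g 0 0} :=
    measurableSet_lt measurable_const (entry_meas 0 0)
  have h2 : MeasurableSet {g : SL(2, ℝ) | 0 < g 1 1} :=
    measurableSet_lt measurable_const (entry_meas 1 1)
  have h3 : MeasurableSet {g : SL(2, ℝ) | a ≤ Real.log (g 0 0 / g 1 1)} :=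
    measurableSet_le measurable_const log_meas
  have h4 : MeasurableSet {g : SL(2, ℝ) | Real.log (g 0 0 / g 1 1) < b} :=
    measurableSet_lt log_meas measurable_const
  exact h1.inter (h2.inter (h3.inter (h4.inter (bc_meas hE))))

omit [MeasurableSpace SL(2, ℝ)] [BorelSpace SL(2, ℝ)] in
theorem conj_entries (s t : ℝ) (g : SL(2, ℝ)) :
    (aS s * g * aS t) 0 0 = Real.exp ((s + t) / 2) * g 0 0 ∧
    (aS s * g * aS t) 0 1 = Real.exp ((s - t) / 2) * g 0 1 ∧
    (aS s * g * aS t) 1 0 = Real.exp (-((s - t) / 2)) * g 1 0 ∧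
    (aS s * g * aS t) 1 1 = Real.exp (-((s + t) / 2)) * g 1 1 := by
  have h : ((aS s * g * aS t : SL(2, ℝ)) : Matrix (Fin 2) (Fin 2) ℝ) =
      (aS s : Matrix (Fin 2) (Fin 2) ℝ) * (g : Matrix (Fin 2) (Fin 2) ℝ) *
        (aS t : Matrix (Fin 2) (Fin 2) ℝ) := rfl
  have e1 : Real.exp ((s + t) / 2) = Real.exp (s / 2) * Real.exp (t / 2) := by
    rw [← Real.exp_add]; congr 1; ring
  have e2 : Real.exp ((s - t) / 2) = Real.exp (s / 2) * Real.exp (-(t / 2)) := by
    rw [← Real.exp_add]; congr 1; ring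
  have e3 : Real.exp (-((s - t) / 2)) = Real.exp (-(s / 2)) * Real.exp (t / 2) := by
    rw [← Real.exp_add]; congr 1; ring
  have e4 : Real.exp (-((s + t) / 2)) = Real.exp (-(s / 2)) * Real.exp (-(t / 2)) := by
    rw [← Real.exp_add]; congr 1; ring
  rw [e1, e2, e3, e4, h]
  simp only [aS, Matrix.mul_apply, Fin.sum_univ_two, Matrix.of_apply, Matrix.cons_val_zero,
    Matrix.cons_val_one, Matrix.cons_val', Matrix.cons_val_fin_one]
  refine ⟨?_, ?_, ?_, ?_⟩ <;> ring

omit [MeasurableSpace SL(2, ℝ)] [BorelSpace SL(2, ℝ)] in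
theorem Win_preimage (s t a b : ℝ) (E : Set (ℝ × ℝ)) :
    (fun g => aS s * g * aS t) ⁻¹' (Win a b E) = Win (a - (s + t)) (b - (s + t))
      {q | (Real.exp ((s - t) / 2) * q.1, Real.exp (-((s - t) / 2)) * q.2) ∈ E} := by
  ext g
  obtain ⟨h1, h2, h3, h4⟩ := conj_entries s t g
  simp only [Win, Set.mem_preimage, Set.mem_ofPred_eq, h1, h2, h3, h4]
  have e1 : 0 < Real.exp ((s + t) / 2) * g 0 0 ↔ 0 < g 0 0 :=
    ⟨fun h => by
      have := Real.exp_pos ((s + t) / 2)
      by_contra hc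
      nlinarith only [h, this, hc], fun h => by positivity⟩
  have e2 : 0 < Real.exp (-((s + t) / 2)) * g 1 1 ↔ 0 < g 1 1 :=
    ⟨fun h => by
      have := Real.exp_pos (-((s + t) / 2))
      by_contra hc
      nlinarith only [h, this, hc], fun h => by positivity⟩
  rw [e1, e2]
  refine and_congr_right fun p0 => and_congr_right fun p1 => ?_
  have e3 : Real.log (Real.exp ((s + t) / 2) * g 0 0 / (Real.exp (-((s + t) / 2)) * g 1 1)) =
      (s + t) + Real.log (g 0 0 / g 1 1) := by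
    have : Real.exp ((s + t) / 2) * g 0 0 / (Real.exp (-((s + t) / 2)) * g 1 1) =
        Real.exp (s + t) * (g 0 0 / g 1 1) := by
      have h5 : Real.exp (s + t) * Real.exp (-((s + t) / 2)) = Real.exp ((s + t) / 2) := by
        rw [← Real.exp_add]; congr 1; ring
      have h6 := (Real.exp_pos (-((s + t) / 2))).ne'
      rw [← h5]
      field_simp
    rw [this, Real.log_mul (Real.exp_pos _).ne' (div_pos p0 p1).ne', Real.log_exp]
  rw [e3]
  constructor
  · rintro ⟨q1, q2, q3⟩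
    exact ⟨by linarith only [q1], by linarith only [q2], q3⟩
  · rintro ⟨q1, q2, q3⟩
    exact ⟨by linarith only [q1], by linarith only [q2], q3⟩

theorem FlowMeas.pairM_preimage [Countable Γ] [SFinite μ] (hμ : FlowMeas Γ D μ p)
    (hD : IsFundamentalDomain Γ D (volume : Measure ℍ)) (s t : ℝ) {S : Set SL(2, ℝ)}
    (hS : MeasurableSet S) :
    pairM D μ ((fun g => aS s * g * aS t) ⁻¹' S) = pairM D μ S := by
  have hc : Measurable fun g : SL(2, ℝ) => aS s * g * aS t :=
    ((continuous_const_mul (aS s)).mul continuous_const).measurable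
  conv_rhs => rw [← hμ.pairM_conj hD s t, Measure.map_apply hc hS]

/-- translation of the time window -/
theorem FlowMeas.Win_shift [Countable Γ] [SFinite μ] (hμ : FlowMeas Γ D μ p)
    (hD : IsFundamentalDomain Γ D (volume : Measure ℍ)) (a b τ : ℝ) {E : Set (ℝ × ℝ)}
    (hE : MeasurableSet E) : pairM D μ (Win (a + τ) (b + τ) E) = pairM D μ (Win a b E) := by
  rw [← hμ.pairM_preimage hD (τ / 2) (τ / 2) (Win_meas _ _ hE), Win_preimage]
  congr 1
  simp

/-- the time window may be divided into equal parts -/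
theorem FlowMeas.Win_mul [Countable Γ] [SFinite μ] (hμ : FlowMeas Γ D μ p)
    (hD : IsFundamentalDomain Γ D (volume : Measure ℍ)) {E : Set (ℝ × ℝ)}
    (hE : MeasurableSet E) {τ : ℝ} (hτ : 0 ≤ τ) (k : ℕ) :
    pairM D μ (Win 0 (k * τ) E) = k * pairM D μ (Win 0 τ E) := by
  induction k with
  | zero =>
    have : Win 0 (((0 : ℕ) : ℝ) * τ) E = ∅ := by
      ext g
      simp only [Win, Set.mem_ofPred_eq, Set.mem_empty_iff_false, iff_false]
      rintro ⟨_, _, h1, h2, _⟩
      rw [Nat.cast_zero, zero_mul] at h2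
      linarith
    rw [this]
    simp
  | succ k ih =>
    have hk : (0 : ℝ) ≤ k * τ := by positivity
    have hu : Win 0 (((k + 1 : ℕ) : ℝ) * τ) E =
        Win 0 (k * τ) E ∪ Win (0 + k * τ) (τ + k * τ) E := by
      ext g
      simp only [Win, Set.mem_ofPred_eq, Set.mem_union]
      push_cast
      constructor
      · rintro ⟨h1, h2, h3, h4, h5⟩
        rcases lt_or_ge (Real.log (g 0 0 / g 1 1)) (k * τ) with h | h
        · exact Or.inl ⟨h1, h2, h3, h, h5⟩
        · exact Or.inr ⟨h1, h2, by linarith, by linarith, h5⟩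
      · rintro (⟨h1, h2, h3, h4, h5⟩ | ⟨h1, h2, h3, h4, h5⟩)
        · exact ⟨h1, h2, h3, by linarith, h5⟩
        · exact ⟨h1, h2, by linarith, by linarith, h5⟩
    have hd : Disjoint (Win 0 (k * τ) E) (Win (0 + k * τ) (τ + k * τ) E) := by
      rw [Set.disjoint_left]
      rintro g ⟨_, _, _, h4, _⟩ ⟨_, _, h3, _, _⟩
      linarith
    rw [hu, measure_union hd (Win_meas _ _ hE), ih, hμ.Win_shift hD 0 τ (k * τ) hE]
    push_cast
    ring

/-- the measure of the coordinates `(g₀₁, g₁₀)` of the pairs with time difference in `[0, 1)` -/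
def nuP (D : Set ℍ) (μ : Measure SL(2, ℝ)) : Measure (ℝ × ℝ) :=
  Measure.map (fun g : SL(2, ℝ) => (g 0 1, g 1 0)) ((pairM D μ).restrict (Win 0 1 univ))

theorem nuP_apply {E : Set (ℝ × ℝ)} (hE : MeasurableSet E) :
    nuP D μ E = pairM D μ (Win 0 1 E) := by
  unfold nuP
  rw [Measure.map_apply bc_meas hE, Measure.restrict_apply (bc_meas hE)]
  congr 1
  ext g
  simp only [Win, Set.mem_inter_iff, Set.mem_preimage, Set.mem_ofPred_eq, Set.mem_univ, and_true]
  tauto

/-- invariance of `nuP` under the hyperbolic rotations -/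
theorem FlowMeas.nuP_inv [Countable Γ] [SFinite μ] (hμ : FlowMeas Γ D μ p)
    (hD : IsFundamentalDomain Γ D (volume : Measure ℍ)) {l : ℝ} (hl : 0 < l) :
    Measure.map (fun q : ℝ × ℝ => (l * q.1, q.2 / l)) (nuP D μ) = nuP D μ := by
  have hm : Measurable fun q : ℝ × ℝ => (l * q.1, q.2 / l) := by fun_prop
  ext E hE
  rw [Measure.map_apply hm hE, nuP_apply (hm hE), nuP_apply hE,
    ← hμ.pairM_preimage hD (Real.log l) (-Real.log l) (Win_meas 0 1 hE), Win_preimage]
  have e1 : (Real.log l - -Real.log l) / 2 = Real.log l := by ring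
  rw [e1, Real.exp_log hl, Real.exp_neg, Real.exp_log hl]
  congr 1
  simp only [add_neg_cancel, sub_zero]
  congr 1
  ext q
  simp only [Set.mem_preimage, Set.mem_ofPred_eq]
  rw [div_eq_inv_mul]

omit [MeasurableSpace SL(2, ℝ)] [BorelSpace SL(2, ℝ)] in
theorem strip_meas (d ε : ℝ) :
    MeasurableSet {q : ℝ × ℝ | |q.1 + q.2| < d ∧ |q.1 - q.2| < ε} := by
  have h1 : MeasurableSet {q : ℝ × ℝ | |q.1 + q.2| < d} :=
    measurableSet_lt (by fun_prop) measurable_const
  have h2 : MeasurableSet {q : ℝ × ℝ | |q.1 - q.2| < ε} :=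
    measurableSet_lt (by fun_prop) measurable_const
  exact h1.inter h2

theorem ball_meas' (d : ℝ) :
    MeasurableSet {g : SL(2, ℝ) | (g 0 0 - g 1 1) ^ 2 + (g 0 1 + g 1 0) ^ 2 < d ^ 2} := by
  refine measurableSet_lt ?_ measurable_const
  exact (((entry_meas 0 0).sub (entry_meas 1 1)).pow_const 2).add
    (((entry_meas 0 1).add (entry_meas 1 0)).pow_const 2)

omit [MeasurableSpace SL(2, ℝ)] [BorelSpace SL(2, ℝ)] in
theorem det_eq (g : SL(2, ℝ)) : g 0 0 * g 1 1 - g 0 1 * g 1 0 = 1 := by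
  have hdet := g.det_coe
  rwa [Matrix.det_fin_two] at hdet

omit [MeasurableSpace SL(2, ℝ)] [BorelSpace SL(2, ℝ)] in
theorem four_bc {b c d ε : ℝ} (h1 : |b + c| < d) (h2 : |b - c| < ε) :
    4 * (b * c) < d ^ 2 ∧ -ε ^ 2 < 4 * (b * c) := by
  have e1 : (b + c) ^ 2 < d ^ 2 := by
    rw [← sq_abs]
    exact pow_lt_pow_left₀ h1 (abs_nonneg _) two_ne_zero
  have e2 : (b - c) ^ 2 < ε ^ 2 := by
    rw [← sq_abs]
    exact pow_lt_pow_left₀ h2 (abs_nonneg _) two_ne_zero
  constructor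
  · linarith only [e1, sq_nonneg (b - c)]
  · linarith only [e2, sq_nonneg (b + c)]

omit [MeasurableSpace SL(2, ℝ)] [BorelSpace SL(2, ℝ)] in
/-- short time windows are contained in small balls -/
theorem Win_subset {d τ : ℝ} (hd : 0 < d) (hd1 : d < 1) (hτ : τ ≤ d) :
    Win 0 τ {q | |q.1 + q.2| < d ∧ |q.1 - q.2| < 1} ⊆
      {g | (g 0 0 - g 1 1) ^ 2 + (g 0 1 + g 1 0) ^ 2 < (3 * d) ^ 2} := by
  rintro g ⟨h1, h2, h3, h4, h5, h6⟩
  simp only at h5 h6
  have hdet := det_eq g
  obtain ⟨h7, -⟩ := four_bc h5 h6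
  simp only [Set.mem_ofPred_eq]
  generalize g 0 0 = x at *
  generalize g 1 1 = y at *
  generalize g 0 1 = b at *
  generalize g 1 0 = c at *
  set L := Real.log (x / y) with hL
  have hxy : y * Real.exp L = x := by
    rw [hL, Real.exp_log (div_pos h1 h2)]
    field_simp
  have hy : x * Real.exp (-L) = y := by
    rw [← hxy, mul_assoc, ← Real.exp_add, add_neg_cancel, Real.exp_zero, mul_one]
  have hL1 : L < 1 := by linarith
  have e1 : 1 - L ≤ Real.exp (-L) := by
    have := Real.add_one_le_exp (-L)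
    linarith
  have e2 : x - y ≤ x * L := by
    have := mul_le_mul_of_nonneg_left e1 h1.le
    rw [hy] at this
    linarith
  have e3 : 0 ≤ x - y := by
    have : 1 ≤ Real.exp L := Real.one_le_exp h3
    nlinarith
  have e4 : x ^ 2 ≤ 4 := by
    have h8 : Real.exp L ≤ 3 := by
      have h9 : Real.exp L ≤ Real.exp 1 := Real.exp_le_exp.2 hL1.le
      have := Real.exp_one_lt_d9
      linarith
    have h10 : x ^ 2 = (x * y) * Real.exp L := by
      rw [mul_assoc, hxy]
      ring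
    have h11 : x * y ≤ 5 / 4 := by nlinarith
    have h12 : 0 < x * y := mul_pos h1 h2
    rw [h10]
    nlinarith only [hxy, h2, h1, h11, h8]
  have e5 : (x - y) ^ 2 ≤ 4 * d ^ 2 := by
    have h8 : (x - y) ^ 2 ≤ (x * L) ^ 2 := pow_le_pow_left₀ e3 e2 2
    have h9 : L ^ 2 ≤ d ^ 2 := pow_le_pow_left₀ h3 (by linarith) 2
    rw [mul_pow] at h8
    nlinarith only [h8, h9, e4]
  have e6 : (b + c) ^ 2 < d ^ 2 := by
    rw [← sq_abs]
    exact pow_lt_pow_left₀ h5 (abs_nonneg _) two_ne_zero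
  nlinarith only [e5, e6]

/-- **The linear bound for `nuP`.** -/
theorem FlowMeas.nuP_bound [Countable Γ] [SFinite μ] (hμ : FlowMeas Γ D μ p)
    (hD : IsFundamentalDomain Γ D (volume : Measure ℍ)) (hDm : MeasurableSet D) :
    ∃ C : ℝ, 0 ≤ C ∧ ∀ d : ℝ, 0 < d → d < 1 →
      nuP D μ {q | |q.1 + q.2| < d ∧ |q.1 - q.2| < 1} ≤ ENNReal.ofReal (C * d) := by
  obtain ⟨C, hC, hB⟩ := hμ.pair_bound hD hDm
  refine ⟨18 * C, by positivity, fun d hd hd1 => ?_⟩
  set E : Set (ℝ × ℝ) := {q | |q.1 + q.2| < d ∧ |q.1 - q.2| < 1} with hE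
  have hEm : MeasurableSet E := strip_meas d 1
  set n : ℕ := ⌈1 / d⌉₊ with hn
  have hn1 : 1 / d ≤ n := Nat.le_ceil _
  have hn2 : (n : ℝ) < 1 / d + 1 := Nat.ceil_lt_add_one (by positivity)
  have hn0 : (0 : ℝ) < n := lt_of_lt_of_le (by positivity) hn1
  have hτ : 1 / (n : ℝ) ≤ d := by
    rw [div_le_iff₀ hn0]
    rw [div_le_iff₀ hd] at hn1
    linarith
  have h1 := hμ.Win_mul hD hEm (τ := 1 / (n : ℝ)) (by positivity) n
  rw [mul_one_div_cancel hn0.ne'] at h1
  rw [nuP_apply hEm, h1]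
  have h2 : pairM D μ (Win 0 (1 / (n : ℝ)) E) ≤ ENNReal.ofReal (C * (3 * d) ^ 2) := by
    refine (measure_mono (Win_subset hd hd1 hτ)).trans ?_
    rw [pairM_apply (ball_meas' _)]
    exact hB (3 * d) (by linarith only [hd]) (by linarith)
  have h3 : (n : ℝ) ≤ 2 / d := by
    have : 1 ≤ 1 / d := by
      rw [le_div_iff₀ hd]
      linarith
    have e : 2 / d = 1 / d + 1 / d := by ring
    linarith
  calc (n : ℝ≥0∞) * pairM D μ (Win 0 (1 / (n : ℝ)) E)
      ≤ ENNReal.ofReal (2 / d) * ENNReal.ofReal (C * (3 * d) ^ 2) := by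
        gcongr
        rw [← ENNReal.ofReal_natCast]
        exact ENNReal.ofReal_le_ofReal h3
    _ = ENNReal.ofReal (18 * C * d) := by
        rw [← ENNReal.ofReal_mul (by positivity)]
        congr 1
        field_simp
        ring

omit [MeasurableSpace SL(2, ℝ)] [BorelSpace SL(2, ℝ)] in
/-- `Kset` is contained in two copies of a time window -/
theorem Kset_subset {d ε : ℝ} (hd : 0 < d) (hd1 : d ≤ 1 / 8) (hε1 : ε ≤ 1 / 8) :
    Kset d ε ⊆ Win (-(2 * d)) (2 * d) {q | |q.1 + q.2| < d ∧ |q.1 - q.2| < ε} ∪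
      (fun g => -g) ⁻¹' Win (-(2 * d)) (2 * d) {q | |q.1 + q.2| < d ∧ |q.1 - q.2| < ε} := by
  have key : ∀ g ∈ Kset d ε, 0 < g 0 0 → 0 < g 1 1 →
      g ∈ Win (-(2 * d)) (2 * d) {q | |q.1 + q.2| < d ∧ |q.1 - q.2| < ε} := by
    rintro g ⟨h1, h2⟩ hx hy
    have hdet := det_eq g
    have e1 : |g 0 1 + g 1 0| < d := by
      refine abs_lt_of_sq_lt_sq ?_ hd.le
      linarith only [h1, sq_nonneg (g 0 0 - g 1 1)]
    have e2 : |g 0 0 - g 1 1| < d := by
      refine abs_lt_of_sq_lt_sq ?_ hd.le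
      linarith only [h1, sq_nonneg (g 0 1 + g 1 0)]
    obtain ⟨-, h4⟩ := four_bc e1 h2
    have hε0 : 0 < ε := (abs_nonneg _).trans_lt h2
    refine ⟨hx, hy, ?_, ?_, e1, h2⟩
    · have h5 := Real.one_sub_inv_le_log_of_pos (div_pos hx hy)
      rw [inv_div] at h5
      refine le_trans ?_ h5
      have h6 := (abs_lt.1 e2).1
      have h7 : 1 / 2 ≤ g 0 0 := by nlinarith
      have h8 : g 1 1 / g 0 0 ≤ 1 + 2 * d := by
        rw [div_le_iff₀ hx]
        nlinarith only [h6, hd, h7]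
      linarith only [h8]
    · have h5 := Real.log_le_sub_one_of_pos (div_pos hx hy)
      refine lt_of_le_of_lt h5 ?_
      have h6 := (abs_lt.1 e2).2
      have h7 : 1 / 2 ≤ g 1 1 := by nlinarith only [hd1, hε1, hdet, h6, h4, hε0, hx]
      have h8 : g 0 0 / g 1 1 < 1 + 2 * d := by
        rw [div_lt_iff₀ hy]
        nlinarith only [h6, hd, h7]
      linarith
  intro g hg
  have hdet := det_eq g
  obtain ⟨h1, h2⟩ := hg
  have e1 : |g 0 1 + g 1 0| < d := by
    refine abs_lt_of_sq_lt_sq ?_ hd.le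
    linarith only [h1, sq_nonneg (g 0 0 - g 1 1)]
  obtain ⟨-, h4⟩ := four_bc e1 h2
  have hε0 : 0 < ε := (abs_nonneg _).trans_lt h2
  have hpos : 0 < g 0 0 * g 1 1 := by nlinarith only [hε1, hdet, h4, hε0]
  rcases lt_trichotomy (g 0 0) 0 with h | h | h
  · have h' : g 1 1 < 0 := by
      by_contra hc
      nlinarith only [hpos, h, hc]
    refine Or.inr (key (-g) ⟨?_, ?_⟩ ?_ ?_)
    · simp only [Matrix.SpecialLinearGroup.coe_neg, Matrix.neg_apply]
      linarith only [h1]
    · simp only [Matrix.SpecialLinearGroup.coe_neg, Matrix.neg_apply]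
      rw [neg_sub_neg, abs_sub_comm]
      exact h2
    · simp only [Matrix.SpecialLinearGroup.coe_neg, Matrix.neg_apply]
      linarith
    · simp only [Matrix.SpecialLinearGroup.coe_neg, Matrix.neg_apply]
      linarith
  · rw [h, zero_mul] at hpos
    exact absurd hpos (lt_irrefl _)
  · have h' : 0 < g 1 1 := by
      by_contra hc
      nlinarith only [hpos, h, hc]
    exact Or.inl (key g ⟨h1, h2⟩ h h')

/-- **From `nuP` back to the pairs.** -/
theorem FlowMeas.Kset_le [Countable Γ] [SFinite μ] (hμ : FlowMeas Γ D μ p)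
    (hD : IsFundamentalDomain Γ D (volume : Measure ℍ)) {d ε : ℝ} (hd : 0 < d)
    (hd1 : d ≤ 1 / 8) (hε1 : ε ≤ 1 / 8) :
    pairMass D μ (Kset d ε) ≤
      ENNReal.ofReal (16 * d) * nuP D μ {q | |q.1 + q.2| < d ∧ |q.1 - q.2| < ε} := by
  set E : Set (ℝ × ℝ) := {q | |q.1 + q.2| < d ∧ |q.1 - q.2| < ε} with hE
  have hEm : MeasurableSet E := strip_meas d ε
  have hKm : MeasurableSet (Kset d ε) :=
    (ball_meas' d).inter (measurableSet_lt
      (((entry_meas 0 1).sub (entry_meas 1 0)).abs) measurable_const)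
  have hWm := Win_meas (-(2 * d)) (2 * d) hEm
  have hn : Measurable fun g : SL(2, ℝ) => -g := neg_cont.measurable
  have e1 : pairM D μ ((fun g => -g) ⁻¹' Win (-(2 * d)) (2 * d) E) =
      pairM D μ (Win (-(2 * d)) (2 * d) E) := by
    conv_rhs => rw [← hμ.pairM_neg, Measure.map_apply hn hWm]
  have e2 : pairM D μ (Win (-(2 * d)) (2 * d) E) = pairM D μ (Win 0 (4 * d) E) := by
    rw [← hμ.Win_shift hD (-(2 * d)) (2 * d) (2 * d) hEm]
    congr 2
    · ring
    · ring
  set n : ℕ := ⌊1 / (4 * d)⌋₊ with hn'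
  have h4d : 0 < 4 * d := by positivity
  have hn1 : (n : ℝ) ≤ 1 / (4 * d) := Nat.floor_le (by positivity)
  have hn2 : 1 / (4 * d) < n + 1 := Nat.lt_floor_add_one _
  have h2 : 2 ≤ 1 / (4 * d) := by
    rw [le_div_iff₀ h4d]
    linarith
  have hn0 : (0 : ℝ) < n := by linarith only [hn2, h2]
  have hτ : 4 * d ≤ 1 / (n : ℝ) := by
    rw [le_div_iff₀ hn0]
    rw [le_div_iff₀ h4d] at hn1
    linarith only [hn1]
  have e3 : pairM D μ (Win 0 (4 * d) E) ≤ pairM D μ (Win 0 (1 / (n : ℝ)) E) := by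
    refine measure_mono ?_
    rintro g ⟨q1, q2, q3, q4, q5⟩
    exact ⟨q1, q2, q3, q4.trans_le hτ, q5⟩
  have e4 := hμ.Win_mul hD hEm (τ := 1 / (n : ℝ)) (by positivity) n
  rw [mul_one_div_cancel hn0.ne', ← nuP_apply hEm] at e4
  have e5 : 1 / (n : ℝ) ≤ 8 * d := by
    have h3 : 1 / (8 * d) ≤ n := by
      have e : 1 / (4 * d) = 1 / (8 * d) + 1 / (8 * d) := by
        field_simp
        norm_num
      have h1 : 1 ≤ 1 / (8 * d) := by
        rw [le_div_iff₀ (by positivity)]
        linarith only [hd1]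
      linarith only [hn2, h2, e]
    rw [div_le_iff₀ hn0]
    rw [div_le_iff₀ (by positivity)] at h3
    linarith only [h3]
  have e6 : pairM D μ (Win 0 (1 / (n : ℝ)) E) ≤ ENNReal.ofReal (8 * d) * nuP D μ E := by
    rw [e4]
    have hone : (1 : ℝ≥0∞) ≤ ENNReal.ofReal (8 * d) * n := by
      rw [← ENNReal.ofReal_natCast, ← ENNReal.ofReal_mul (by positivity), ← ENNReal.ofReal_one]
      refine ENNReal.ofReal_le_ofReal ?_
      rw [div_le_iff₀ hn0] at e5
      exact e5
    rw [← mul_assoc]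
    calc pairM D μ (Win 0 (1 / (n : ℝ)) E) = 1 * pairM D μ (Win 0 (1 / (n : ℝ)) E) :=
          (one_mul _).symm
      _ ≤ _ := by gcongr
  rw [← pairM_apply hKm]
  calc pairM D μ (Kset d ε)
      ≤ pairM D μ (Win (-(2 * d)) (2 * d) E ∪ (fun g => -g) ⁻¹' Win (-(2 * d)) (2 * d) E) :=
        measure_mono (Kset_subset hd hd1 hε1)
    _ ≤ pairM D μ (Win (-(2 * d)) (2 * d) E) +
          pairM D μ ((fun g => -g) ⁻¹' Win (-(2 * d)) (2 * d) E) := measure_union_le _ _
    _ = 2 * pairM D μ (Win 0 (4 * d) E) := by rw [e1, e2, two_mul]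
    _ ≤ 2 * (ENNReal.ofReal (8 * d) * nuP D μ E) := by gcongr; exact e3.trans e6
    _ = ENNReal.ofReal (16 * d) * nuP D μ E := by
        rw [← mul_assoc, show (2 : ℝ≥0∞) = ENNReal.ofReal 2 by simp,
          ← ENNReal.ofReal_mul (by positivity)]
        congr 2
        ring

end

end

end QE


end

section

/-!
Additions to `PairMass.lean`: the diagonal group, right translations of sets.
-/

open MeasureTheory Filter Topology Set
open UpperHalfPlane hiding I
open scoped ContDiff MatrixGroups ENNReal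

namespace QE

noncomputable section

theorem PB_aS_mul (s t : ℝ) : aS s * aS t = aS (s + t) := by
  apply Subtype.ext
  show (aS s).1 * (aS t).1 = (aS (s + t)).1
  simp only [aS, Matrix.mul_fin_two]
  rw [mul_zero, zero_mul, mul_zero, zero_mul, ← Real.exp_add, ← Real.exp_add]
  ext i j
  fin_cases i <;> fin_cases j
  · simp
    ring
  · simp
  · simp
  · simp
    ring

theorem PB_aS_zero : aS 0 = 1 := by
  apply Subtype.ext
  show (aS 0).1 = 1
  simp only [aS]
  ext i j
  fin_cases i <;> fin_cases j <;> simp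

theorem PB_aS_inv (s : ℝ) : (aS s)⁻¹ = aS (-s) := by
  rw [inv_eq_iff_mul_eq_one, PB_aS_mul, add_neg_cancel, PB_aS_zero]

variable [MeasurableSpace SL(2, ℝ)] [BorelSpace SL(2, ℝ)]
variable {Γ : Subgroup SL(2, ℝ)} {D : Set ℍ} {μ : Measure SL(2, ℝ)} {p : ℍ → ℝ}

/-- `μ (v S a_{-s}) = μ (v S)` -/
theorem FlowMeas.shift_right (hμ : FlowMeas Γ D μ p) {S : Set SL(2, ℝ)} (hS : MeasurableSet S)
    (v : SL(2, ℝ)) (s : ℝ) :
    μ ((fun w => v⁻¹ * w) ⁻¹' ((fun g => g * aS s) ⁻¹' S)) = μ ((fun w => v⁻¹ * w) ⁻¹' S) := by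
  have h := hμ.right s
  have hm : MeasurableSet ((fun w => v⁻¹ * w) ⁻¹' S) := by
    have : Measurable fun w : SL(2, ℝ) => v⁻¹ * w := by fun_prop
    exact this hS
  conv_rhs => rw [← h]
  rw [Measure.map_apply (by fun_prop) hm]
  congr 1
  ext w
  simp [mul_assoc]

/-- `μ (v a_s S) = μ (v (a_s S a_{-s}))` -/
theorem FlowMeas.shift_conj (hμ : FlowMeas Γ D μ p) {S : Set SL(2, ℝ)} (hS : MeasurableSet S)
    (v : SL(2, ℝ)) (s : ℝ) :
    μ ((fun w => (v * aS s)⁻¹ * w) ⁻¹' S) =
      μ ((fun w => v⁻¹ * w) ⁻¹' ((fun g => aS (-s) * g * aS s) ⁻¹' S)) := by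
  have hm : MeasurableSet ((fun g => aS (-s) * g) ⁻¹' S) := by
    have : Measurable fun g : SL(2, ℝ) => aS (-s) * g := by fun_prop
    exact this hS
  have h1 := hμ.shift_right hm v s
  have e1 : (fun w => (v * aS s)⁻¹ * w) ⁻¹' S =
      (fun w => v⁻¹ * w) ⁻¹' ((fun g => aS (-s) * g) ⁻¹' S) := by
    ext w
    simp only [mem_preimage, mul_inv_rev, PB_aS_inv, mul_assoc]
  rw [e1, ← h1]
  congr 1
  ext w
  simp only [mem_preimage, mul_assoc]

end

end QE


end

section

/-!
Volume of small balls, mass transport in general, and the bilinear estimate for functions which are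
square integrable over a fundamental domain.
-/

open MeasureTheory Filter Topology Set
open UpperHalfPlane hiding I
open scoped ContDiff MatrixGroups ENNReal

namespace QE

noncomputable section

/-- volume of small balls -/
theorem vol_ball_le (z : ℍ) {r : ℝ} (h0 : 0 ≤ r) (h1 : r ≤ 1) :
    (volume : Measure ℍ) (Metric.ball z r) ≤ ENNReal.ofReal (100 * r ^ 2) := by
  have e0 : Metric.ball z r = (fun w => z.toSL2R⁻¹ • w) ⁻¹' Metric.ball UpperHalfPlane.I r := by
    ext w
    have h : z = z.toSL2R • UpperHalfPlane.I := by rw [toSL2R_smul_I]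
    simp only [Metric.mem_ball, mem_preimage]
    conv_lhs => rw [h]
    rw [← dist_smul z.toSL2R⁻¹ w, inv_smul_smul]
  rw [e0, measure_preimage_smul, volume_eq_lintegral, image_coe_ball]
  have hc : (UpperHalfPlane.center UpperHalfPlane.I r : ℂ) = ⟨0, Real.cosh r⟩ := by
    apply Complex.ext <;> simp
  have hI : UpperHalfPlane.I.im = 1 := by simp
  rw [hc, hI, one_mul]
  have hs : Real.sinh r ≤ 3 / 2 * r := by
    have h2 := Real.abs_exp_sub_one_le (x := r) (by rw [abs_of_nonneg h0]; exact h1)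
    rw [abs_of_nonneg (by linarith [Real.add_one_le_exp r]), abs_of_nonneg h0] at h2
    have h3 := Real.add_one_le_exp (-r)
    rw [Real.sinh_eq]
    linarith
  have hs0 : 0 ≤ Real.sinh r := Real.sinh_nonneg_iff.2 h0
  calc ∫⁻ w in Metric.ball (⟨0, Real.cosh r⟩ : ℂ) (Real.sinh r),
        (((1 / ‖w.im‖₊) ^ 2 : NNReal) : ℝ≥0∞)
      ≤ ∫⁻ w in Metric.ball (⟨0, Real.cosh r⟩ : ℂ) (Real.sinh r), ENNReal.ofReal 7.4 := by
        apply lintegral_mono_ae
        rw [ae_restrict_iff' measurableSet_ball]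
        refine ae_of_all _ fun w hw => ?_
        have h2 : |w.im - Real.cosh r| < Real.sinh r := by
          have := Complex.abs_im_le_norm (w - ⟨0, Real.cosh r⟩)
          rw [Metric.mem_ball, Complex.dist_eq] at hw
          simp only [Complex.sub_im] at this
          linarith
        have h3 : Real.exp (-1) < w.im := by
          have h4 := (abs_lt.1 h2).1
          have h5 : Real.cosh r - Real.sinh r = Real.exp (-r) := Real.cosh_sub_sinh r
          have h6 : Real.exp (-1) ≤ Real.exp (-r) := Real.exp_le_exp.2 (by linarith)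
          linarith
        have h7 : 0 < Real.exp (-1) := Real.exp_pos _
        have h8 : 0 < w.im := h7.trans h3
        have h9 : ((1 / ‖w.im‖₊) ^ 2 : NNReal) ≤ Real.toNNReal 7.4 := by
          rw [← NNReal.coe_le_coe]
          push_cast
          rw [Real.coe_toNNReal _ (by norm_num), Real.norm_of_nonneg h8.le, one_div, inv_pow,
            inv_le_comm₀ (by positivity) (by norm_num)]
          have h10 : Real.exp (-1) * Real.exp 1 = 1 := by
            rw [← Real.exp_add, neg_add_cancel, Real.exp_zero]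
          have h11 := Real.exp_one_lt_d9
          have h12 : 1 / 2.7182818286 ≤ w.im := by
            rw [div_le_iff₀ (by norm_num)]
            nlinarith
          calc (7.4 : ℝ)⁻¹ ≤ (1 / 2.7182818286) ^ 2 := by norm_num
            _ ≤ w.im ^ 2 := by gcongr
        exact ENNReal.coe_le_coe.2 h9
    _ = ENNReal.ofReal 7.4 * (ENNReal.ofReal (Real.sinh r) ^ 2 * NNReal.pi) := by
        rw [setLIntegral_const, Complex.volume_ball]
    _ ≤ ENNReal.ofReal 7.4 * (ENNReal.ofReal (3 / 2 * r) ^ 2 * ENNReal.ofReal 4) := by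
        gcongr
        rw [← ENNReal.ofReal_coe_nnreal]
        apply ENNReal.ofReal_le_ofReal
        rw [NNReal.coe_real_pi]
        exact Real.pi_le_four
    _ ≤ ENNReal.ofReal (100 * r ^ 2) := by
        rw [← ENNReal.ofReal_pow (by positivity), ← ENNReal.ofReal_mul (by positivity),
          ← ENNReal.ofReal_mul (by norm_num)]
        apply ENNReal.ofReal_le_ofReal
        nlinarith [sq_nonneg r]

/-- mass transport -/
theorem transport_gen {G α : Type*} [Group G] [Countable G] [MeasurableSpace α] [MulAction G α]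
    [MeasurableConstSMul G α] {ν : Measure α} [SFinite ν] [SMulInvariantMeasure G α ν]
    {F : Set α} (hF : IsFundamentalDomain G F ν)
    {H : α → α → ℝ≥0∞} (hH : Measurable fun z : α × α => H z.1 z.2)
    (hinv : ∀ g : G, ∀ v w, H (g • v) (g • w) = H v w) :
    ∫⁻ v in F, ∫⁻ w, H v w ∂ν ∂ν = ∫⁻ w in F, ∫⁻ v, H v w ∂ν ∂ν := by
  have e1 : ∀ v, ∫⁻ w, H v w ∂ν = ∑' g : G, ∫⁻ w in F, H v (g • w) ∂ν :=
    fun v => hF.lintegral_eq_tsum'' _
  have e2 : ∀ w, ∫⁻ v, H v w ∂ν = ∑' g : G, ∫⁻ v in F, H (g⁻¹ • v) w ∂ν :=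
    fun w => hF.lintegral_eq_tsum' _
  simp only [e1, e2]
  have hm : ∀ g g' : G, Measurable fun z : α × α => H (g • z.1) (g' • z.2) := by
    intro g g'
    have h1 : Measurable fun z : α × α => ((g • z.1, g' • z.2) : α × α) :=
      (measurable_fst.const_smul g).prodMk (measurable_snd.const_smul g')
    exact hH.comp h1
  rw [lintegral_tsum, lintegral_tsum]
  · apply tsum_congr
    intro g
    rw [lintegral_lintegral_swap]
    · apply lintegral_congr
      intro w
      apply lintegral_congr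
      intro v
      have h := hinv g⁻¹ v (g • w)
      rw [inv_smul_smul] at h
      exact h.symm
    · have := hm 1 g
      simp only [one_smul] at this
      exact this.aemeasurable
  · intro g
    have h1 := hm g⁻¹ 1
    simp only [one_smul] at h1
    have h2 : Measurable fun w => ∫⁻ v in F, H (g⁻¹ • v) w ∂ν := by
      apply Measurable.lintegral_prod_left' (f := fun z : α × α => H (g⁻¹ • z.1) z.2)
      exact h1
    exact h2.aemeasurable
  · intro g
    have h1 := hm 1 g
    simp only [one_smul] at h1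
    have h2 : Measurable fun v => ∫⁻ w in F, H v (g • w) ∂ν := by
      apply Measurable.lintegral_prod_right' (f := fun z : α × α => H z.1 (g • z.2))
      exact h1
    exact h2.aemeasurable

theorem mul_le_amgm (a b l : ℝ≥0∞) (hl : l ≠ 0) (hl' : l ≠ ⊤) :
    a * b ≤ l * a ^ 2 + l⁻¹ * b ^ 2 := by
  rcases le_total b (l * a) with h | h
  · calc a * b ≤ a * (l * a) := by gcongr
      _ = l * a ^ 2 := by ring
      _ ≤ _ := le_self_add
  · have h2 : a ≤ l⁻¹ * b := by
      calc a = l⁻¹ * (l * a) := by rw [← mul_assoc, ENNReal.inv_mul_cancel hl hl', one_mul]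
        _ ≤ l⁻¹ * b := by gcongr
    calc a * b ≤ l⁻¹ * b * b := by gcongr
      _ = l⁻¹ * b ^ 2 := by ring
      _ ≤ _ := le_add_self

/-- the bilinear estimate -/
theorem bilin {Γ : Subgroup SL(2, ℝ)} [Countable Γ] {D : Set ℍ}
    (hD : IsFundamentalDomain Γ D (volume : Measure ℍ)) {p q : ℍ → ℝ≥0∞} (hp : Measurable p)
    (hq : Measurable q) (hqi : ∀ γ ∈ Γ, ∀ z, q (γ • z) = q z) {r : ℝ} (h0 : 0 ≤ r) (h1 : r ≤ 1)
    (l : ℝ≥0∞) (hl : l ≠ 0) (hl' : l ≠ ⊤) :
    ∫⁻ z in D, p z * ∫⁻ w in Metric.ball z r, q w ≤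
      ENNReal.ofReal (100 * r ^ 2) * (l * ∫⁻ z in D, p z ^ 2) +
      ENNReal.ofReal (100 * r ^ 2) * (l⁻¹ * ∫⁻ z in D, q z ^ 2) := by
  have hm : Measurable fun z : ℍ × ℍ => if dist z.2 z.1 < r then q z.2 ^ 2 else 0 := by
    apply Measurable.ite
    · exact measurableSet_lt (by fun_prop) measurable_const
    · exact (hq.comp measurable_snd).pow_const 2
    · exact measurable_const
  have hsec : ∀ z : ℍ, ∫⁻ w in Metric.ball z r, q w ^ 2 =
      ∫⁻ w, (if dist w z < r then q w ^ 2 else 0) := by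
    intro z
    rw [← lintegral_indicator measurableSet_ball]
    apply lintegral_congr
    intro w
    rfl
  calc ∫⁻ z in D, p z * ∫⁻ w in Metric.ball z r, q w
      = ∫⁻ z in D, ∫⁻ w in Metric.ball z r, p z * q w := by
        apply lintegral_congr
        intro z
        rw [lintegral_const_mul _ hq]
    _ ≤ ∫⁻ z in D, ∫⁻ w in Metric.ball z r, (l * p z ^ 2 + l⁻¹ * q w ^ 2) := by
        apply lintegral_mono
        intro z
        apply lintegral_mono
        intro w
        exact mul_le_amgm _ _ _ hl hl'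
    _ = (∫⁻ z in D, l * p z ^ 2 * volume (Metric.ball z r)) +
          ∫⁻ z in D, l⁻¹ * ∫⁻ w in Metric.ball z r, q w ^ 2 := by
        rw [← lintegral_add_right]
        · apply lintegral_congr
          intro z
          rw [lintegral_add_left measurable_const, setLIntegral_const,
            lintegral_const_mul _ (hq.pow_const 2)]
        · apply Measurable.const_mul
          simp only [hsec]
          exact Measurable.lintegral_prod_right' hm
    _ ≤ ENNReal.ofReal (100 * r ^ 2) * (l * ∫⁻ z in D, p z ^ 2) +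
          ENNReal.ofReal (100 * r ^ 2) * (l⁻¹ * ∫⁻ z in D, q z ^ 2) := by
        gcongr
        · rw [← lintegral_const_mul _ (hp.pow_const 2),
            ← lintegral_const_mul _ ((hp.pow_const 2).const_mul l)]
          apply lintegral_mono
          intro z
          exact (mul_le_mul' le_rfl (vol_ball_le z h0 h1)).trans_eq (mul_comm _ _)
        · rw [lintegral_const_mul']
          swap
          · exact ENNReal.inv_ne_top.2 hl
          rw [← mul_assoc, mul_comm (ENNReal.ofReal _), mul_assoc]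
          refine mul_le_mul' le_rfl ?_
          simp only [hsec]
          have ht := transport_gen (ν := (volume : Measure ℍ)) (G := Γ) hD
            (H := fun z w => if dist w z < r then q w ^ 2 else 0) hm (by
              intro g v w
              have h2 : dist (g • w) (g • v) = dist w v := dist_smul (g : SL(2, ℝ)) w v
              have h3 : q (g • w) = q w := hqi g g.2 w
              simp only [h2, h3])
          rw [ht, ← lintegral_const_mul _ (hq.pow_const 2)]
          apply lintegral_mono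
          intro w
          calc ∫⁻ z : ℍ, (if dist w z < r then q w ^ 2 else 0)
              = ∫⁻ z in Metric.ball w r, q w ^ 2 := by
                rw [← lintegral_indicator measurableSet_ball]
                apply lintegral_congr
                intro z
                simp only [indicator, Metric.mem_ball, dist_comm z w]
            _ = q w ^ 2 * volume (Metric.ball w r) := by rw [setLIntegral_const]
            _ ≤ q w ^ 2 * ENNReal.ofReal (100 * r ^ 2) :=
                mul_le_mul' le_rfl (vol_ball_le w h0 h1)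
            _ = ENNReal.ofReal (100 * r ^ 2) * q w ^ 2 := mul_comm _ _

end

end QE


end

section

/-!
Elementary geometry of small subsets of `SL(2, ℝ)`.
-/

open MeasureTheory Filter Topology Set
open UpperHalfPlane hiding I
open scoped ContDiff MatrixGroups ENNReal

namespace QE

noncomputable section

theorem mul_00 (g h : SL(2, ℝ)) : (g * h) 0 0 = g 0 0 * h 0 0 + g 0 1 * h 1 0 := by
  show (g.1 * h.1) 0 0 = _
  rw [Matrix.mul_apply, Fin.sum_univ_two]

theorem mul_01 (g h : SL(2, ℝ)) : (g * h) 0 1 = g 0 0 * h 0 1 + g 0 1 * h 1 1 := by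
  show (g.1 * h.1) 0 1 = _
  rw [Matrix.mul_apply, Fin.sum_univ_two]

theorem mul_10 (g h : SL(2, ℝ)) : (g * h) 1 0 = g 1 0 * h 0 0 + g 1 1 * h 1 0 := by
  show (g.1 * h.1) 1 0 = _
  rw [Matrix.mul_apply, Fin.sum_univ_two]

theorem mul_11 (g h : SL(2, ℝ)) : (g * h) 1 1 = g 1 0 * h 0 1 + g 1 1 * h 1 1 := by
  show (g.1 * h.1) 1 1 = _
  rw [Matrix.mul_apply, Fin.sum_univ_two]

theorem inv_00 (g : SL(2, ℝ)) : g⁻¹ 0 0 = g 1 1 := by
  rw [Matrix.SpecialLinearGroup.SL2_inv_expl]; rfl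

theorem inv_01 (g : SL(2, ℝ)) : g⁻¹ 0 1 = -g 0 1 := by
  rw [Matrix.SpecialLinearGroup.SL2_inv_expl]; rfl

theorem inv_10 (g : SL(2, ℝ)) : g⁻¹ 1 0 = -g 1 0 := by
  rw [Matrix.SpecialLinearGroup.SL2_inv_expl]; rfl

theorem inv_11 (g : SL(2, ℝ)) : g⁻¹ 1 1 = g 0 0 := by
  rw [Matrix.SpecialLinearGroup.SL2_inv_expl]; rfl

theorem aS_00 (s : ℝ) : aS s 0 0 = Real.exp (s / 2) := rfl

theorem aS_01 (s : ℝ) : aS s 0 1 = 0 := rfl

theorem aS_10 (s : ℝ) : aS s 1 0 = 0 := rfl

theorem aS_11 (s : ℝ) : aS s 1 1 = Real.exp (-(s / 2)) := rfl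

/-- distance from `g • i` to `i` -/
theorem cosh_dist_I (g : SL(2, ℝ)) : Real.cosh (dist (g • UpperHalfPlane.I) UpperHalfPlane.I) =
    1 + ((g 0 0 - g 1 1) ^ 2 + (g 0 1 + g 1 0) ^ 2) / 2 := by
  have hd := det_eq g
  have hq : 0 < g 1 0 ^ 2 + g 1 1 ^ 2 := by
    rcases eq_or_ne (g 1 0) 0 with h | h
    · have : g 1 1 ≠ 0 := by
        intro h2
        rw [h, h2] at hd
        norm_num at hd
      positivity
    · positivity
  have hcoe : ((g • UpperHalfPlane.I : ℍ) : ℂ) = ((g 0 0 : ℂ) * Complex.I + g 0 1) /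
      ((g 1 0 : ℂ) * Complex.I + g 1 1) := by
    rw [coe_specialLinearGroup_apply]
    simp
  have hne : (g 1 0 : ℂ) * Complex.I + g 1 1 ≠ 0 := by
    intro h
    have h1 := congrArg Complex.re h
    have h2 := congrArg Complex.im h
    simp at h1 h2
    rw [h1, h2] at hq
    norm_num at hq
  have hnorm : ‖(g 1 0 : ℂ) * Complex.I + g 1 1‖ ^ 2 = g 1 0 ^ 2 + g 1 1 ^ 2 := by
    rw [← Complex.normSq_eq_norm_sq, Complex.normSq_apply]
    simp
    ring
  have him : (g • UpperHalfPlane.I).im = 1 / (g 1 0 ^ 2 + g 1 1 ^ 2) := by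
    have h1 : (g • UpperHalfPlane.I).im = ((g • UpperHalfPlane.I : ℍ) : ℂ).im := rfl
    rw [h1, hcoe, Complex.div_im, Complex.normSq_eq_norm_sq, hnorm]
    simp
    field_simp
    linarith
  rw [cosh_dist, him]
  have hdist : dist ((g • UpperHalfPlane.I : ℍ) : ℂ) (UpperHalfPlane.I : ℂ) ^ 2 =
      ((g 0 0 - g 1 1) ^ 2 + (g 0 1 + g 1 0) ^ 2) / (g 1 0 ^ 2 + g 1 1 ^ 2) := by
    rw [hcoe, Complex.dist_eq]
    have h2 : ((g 0 0 : ℂ) * Complex.I + g 0 1) / ((g 1 0 : ℂ) * Complex.I + g 1 1) -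
        (UpperHalfPlane.I : ℂ) = ((g 0 0 - g 1 1 : ℝ) * Complex.I + ((g 0 1 + g 1 0 : ℝ) : ℂ)) /
          ((g 1 0 : ℂ) * Complex.I + g 1 1) := by
      have hI : ((UpperHalfPlane.I : ℍ) : ℂ) = Complex.I := rfl
      rw [hI, div_sub' hne]
      congr 1
      push_cast
      have : Complex.I * Complex.I = -1 := Complex.I_mul_I
      linear_combination (-(g 1 0 : ℂ)) * this
    rw [h2, norm_div, div_pow, hnorm]
    congr 1
    rw [← Complex.normSq_eq_norm_sq, Complex.normSq_apply]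
    simp
    ring
  rw [hdist]
  have : UpperHalfPlane.I.im = 1 := by simp
  rw [this]
  field_simp

/-- upper bound for the distance -/
theorem dist_I_lt (g : SL(2, ℝ)) {r : ℝ} (hr : 0 < r)
    (h : (g 0 0 - g 1 1) ^ 2 + (g 0 1 + g 1 0) ^ 2 < r ^ 2) :
    dist (g • UpperHalfPlane.I) UpperHalfPlane.I < r := by
  have h1 := cosh_dist_I g
  set x := dist (g • UpperHalfPlane.I) UpperHalfPlane.I with hx
  have hx0 : 0 ≤ x := dist_nonneg
  have h2 : 1 + x ^ 2 / 2 ≤ Real.cosh x := by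
    have h4 := Real.cosh_two_mul (x / 2)
    have h5 := Real.cosh_sq (x / 2)
    have h6 : x / 2 ≤ Real.sinh (x / 2) := Real.self_le_sinh_iff.2 (by linarith only [hx0])
    rw [show 2 * (x / 2) = x by ring] at h4
    have h7 : (x / 2) ^ 2 ≤ Real.sinh (x / 2) ^ 2 := by gcongr
    linarith only [h4, h5, h7]
  have h3 : x ^ 2 < r ^ 2 := by linarith
  exact lt_of_pow_lt_pow_left₀ 2 hr.le h3

/-- the timelike box; `σ = 1` or `σ = -1` -/
def BoxT (σ d : ℝ) : Set SL(2, ℝ) :=
  {g | 0 < g 0 0 ∧ 0 < g 1 1 ∧ 0 ≤ Real.log (g 0 0 / g 1 1) ∧ Real.log (g 0 0 / g 1 1) < 1 ∧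
    d / 2 ≤ σ * g 0 1 ∧ σ * g 0 1 < d ∧ d / 2 ≤ σ * g 1 0 ∧ σ * g 1 0 < d}

/-- a neighbourhood of a piece of the diagonal group -/
def BallZ (d : ℝ) : Set SL(2, ℝ) :=
  {g | 0 < g 0 0 ∧ 0 < g 1 1 ∧ g 0 0 ≤ 4 * g 1 1 ∧ g 1 1 ≤ 4 * g 0 0 ∧
    |g 0 1| ≤ 2 * d ∧ |g 1 0| ≤ 2 * d}

/-- a spacelike set -/
def SpaceW (σ c : ℝ) : Set SL(2, ℝ) :=
  {g | 0 < g 0 0 ∧ 0 < g 1 1 ∧ g 0 0 ≤ 4 * g 1 1 ∧ g 1 1 ≤ 4 * g 0 0 ∧
    0 < σ * g 0 1 ∧ σ * g 0 1 < c ∧ -c < σ * g 1 0 ∧ σ * g 1 0 < 0}

theorem cont_entry (i j : Fin 2) : Continuous fun g : SL(2, ℝ) => g i j := by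
  have h : Continuous fun g : SL(2, ℝ) => (g : Matrix (Fin 2) (Fin 2) ℝ) :=
    continuous_subtype_val
  exact h.matrix_elem i j

section Meas

variable [MeasurableSpace SL(2, ℝ)] [BorelSpace SL(2, ℝ)]

theorem meas_entry (i j : Fin 2) : Measurable fun g : SL(2, ℝ) => g i j :=
  (cont_entry i j).measurable

theorem BoxT_meas (σ d : ℝ) : MeasurableSet (BoxT σ d) := by
  have h00 := meas_entry 0 0
  have h01 := meas_entry 0 1
  have h10 := meas_entry 1 0
  have h11 := meas_entry 1 1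
  have hl : Measurable fun g : SL(2, ℝ) => Real.log (g 0 0 / g 1 1) :=
    Real.measurable_log.comp (h00.div h11)
  unfold BoxT
  refine ((measurableSet_lt measurable_const h00).inter
    ((measurableSet_lt measurable_const h11).inter
    ((measurableSet_le measurable_const hl).inter
    ((measurableSet_lt hl measurable_const).inter
    ((measurableSet_le measurable_const (h01.const_mul σ)).inter
    ((measurableSet_lt (h01.const_mul σ) measurable_const).inter
    ((measurableSet_le measurable_const (h10.const_mul σ)).inter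
    (measurableSet_lt (h10.const_mul σ) measurable_const))))))))

theorem BallZ_meas (d : ℝ) : MeasurableSet (BallZ d) := by
  have h00 := meas_entry 0 0
  have h01 := meas_entry 0 1
  have h10 := meas_entry 1 0
  have h11 := meas_entry 1 1
  unfold BallZ
  refine ((measurableSet_lt measurable_const h00).inter
    ((measurableSet_lt measurable_const h11).inter
    ((measurableSet_le h00 (h11.const_mul 4)).inter
    ((measurableSet_le h11 (h00.const_mul 4)).inter
    ((measurableSet_le (measurable_norm.comp h01) measurable_const).inter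
    (measurableSet_le (measurable_norm.comp h10) measurable_const))))))

theorem SpaceW_meas (σ c : ℝ) : MeasurableSet (SpaceW σ c) := by
  have h00 := meas_entry 0 0
  have h01 := meas_entry 0 1
  have h10 := meas_entry 1 0
  have h11 := meas_entry 1 1
  unfold SpaceW
  refine ((measurableSet_lt measurable_const h00).inter
    ((measurableSet_lt measurable_const h11).inter
    ((measurableSet_le h00 (h11.const_mul 4)).inter
    ((measurableSet_le h11 (h00.const_mul 4)).inter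
    ((measurableSet_lt measurable_const (h01.const_mul σ)).inter
    ((measurableSet_lt (h01.const_mul σ) measurable_const).inter
    ((measurableSet_lt measurable_const (h10.const_mul σ)).inter
    (measurableSet_lt (h10.const_mul σ) measurable_const))))))))

end Meas

/-- bounds for the entries of the elements of the box -/
theorem box_bd {σ d : ℝ} (hσ : σ ^ 2 = 1) (hd : 0 < d) (hd1 : d ≤ 1 / 10) {g : SL(2, ℝ)}
    (hg : g ∈ BoxT σ d) : 1 ≤ g 0 0 ∧ g 0 0 ≤ 1.66 ∧ 0.606 ≤ g 1 1 ∧ g 1 1 ≤ 1.005 := by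
  obtain ⟨h0, h1, h2, h3, h4, h5, h6, h7⟩ := hg
  have hdet := det_eq g
  have hlt : g 0 0 / g 1 1 < 2.72 := by
    have : g 0 0 / g 1 1 < Real.exp 1 := by
      rw [← Real.log_lt_iff_lt_exp (by positivity)]
      exact h3
    linarith [Real.exp_one_lt_d9]
  have hle : g 1 1 ≤ g 0 0 := by
    have : 1 ≤ g 0 0 / g 1 1 := by
      by_contra h
      push Not at h
      have := Real.log_neg (by positivity) h
      linarith only [h2, this]
    rwa [one_le_div h1] at this
  rw [div_lt_iff₀ h1] at hlt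
  have e : g 0 1 * g 1 0 = (σ * g 0 1) * (σ * g 1 0) := by
    calc g 0 1 * g 1 0 = σ ^ 2 * (g 0 1 * g 1 0) := by rw [hσ, one_mul]
      _ = _ := by ring
  have p0 : 0 ≤ (σ * g 0 1) * (σ * g 1 0) := by
    apply mul_nonneg <;> (first | linarith only [h4, h5] | linarith only [h4, h5, h6] | linarith)
  have p1 : (σ * g 0 1) * (σ * g 1 0) ≤ 1 / 100 := by
    calc (σ * g 0 1) * (σ * g 1 0) ≤ (1 / 10) * (1 / 10) := by
          apply mul_le_mul <;> linarith
      _ = 1 / 100 := by norm_num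
  have q0 : 1 ≤ g 0 0 * g 1 1 := by linarith only [hdet, e, p0]
  have q1 : g 0 0 * g 1 1 ≤ 1.01 := by linarith
  refine ⟨?_, ?_, ?_, ?_⟩
  · nlinarith only [hdet, e, p0, h0, hle]
  · nlinarith only [hdet, e, p1, hlt]
  · nlinarith only [hdet, hlt, e, p0, h0]
  · nlinarith only [hdet, hle, e, p1]

theorem box_abs {σ d : ℝ} (hσ : σ = 1 ∨ σ = -1) {g : SL(2, ℝ)}
    (hg : g ∈ BoxT σ d) : |g 0 1| < d ∧ |g 1 0| < d := by
  obtain ⟨h0, h1, h2, h3, h4, h5, h6, h7⟩ := hg
  rcases hσ with rfl | rfl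
  · constructor <;> rw [abs_lt] <;> constructor <;> linarith
  · constructor <;> rw [abs_lt] <;> constructor <;> linarith

/-- `X X⁻¹ ⊆ Z` -/
theorem box_mul_inv {σ d : ℝ} (hσ : σ = 1 ∨ σ = -1) (hd : 0 < d) (hd1 : d ≤ 1 / 10)
    {g h : SL(2, ℝ)} (hg : g ∈ BoxT σ d) (hh : h ∈ BoxT σ d) : g * h⁻¹ ∈ BallZ d := by
  have hσ2 : σ ^ 2 = 1 := by rcases hσ with rfl | rfl <;> norm_num
  obtain ⟨a1, a2, e1, e2⟩ := box_bd hσ2 hd hd1 hg
  obtain ⟨a1', a2', e1', e2'⟩ := box_bd hσ2 hd hd1 hh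
  obtain ⟨-, -, -, -, b1, b2, c1, c2⟩ := hg
  obtain ⟨-, -, -, -, b1', b2', c1', c2'⟩ := hh
  have key : ∀ x y : ℝ, x * y = (σ * x) * (σ * y) := by
    intro x y
    calc x * y = σ ^ 2 * (x * y) := by rw [hσ2, one_mul]
      _ = _ := by ring
  have habs : ∀ x : ℝ, |x| = |σ * x| := by
    intro x
    rcases hσ with rfl | rfl <;> simp
  have m00 : (g * h⁻¹) 0 0 = g 0 0 * h 1 1 - (σ * g 0 1) * (σ * h 1 0) := by
    rw [mul_00, inv_00, inv_10, ← key]
    ring
  have m11 : (g * h⁻¹) 1 1 = g 1 1 * h 0 0 - (σ * g 1 0) * (σ * h 0 1) := by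
    rw [mul_11, inv_01, inv_11, ← key]
    ring
  have m01 : σ * (g * h⁻¹) 0 1 = h 0 0 * (σ * g 0 1) - g 0 0 * (σ * h 0 1) := by
    rw [mul_01, inv_01, inv_11]
    ring
  have m10 : σ * (g * h⁻¹) 1 0 = h 1 1 * (σ * g 1 0) - g 1 1 * (σ * h 1 0) := by
    rw [mul_10, inv_00, inv_10]
    ring
  generalize σ * g 0 1 = b at *
  generalize σ * g 1 0 = c at *
  generalize σ * h 0 1 = b' at *
  generalize σ * h 1 0 = c' at *
  generalize g 0 0 = a at *
  generalize g 1 1 = e at *
  generalize h 0 0 = a' at *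
  generalize h 1 1 = e' at *
  have hb : 0 ≤ b := by linarith
  have hc : 0 ≤ c := by linarith
  have hb' : 0 ≤ b' := by linarith only [b1, b2, b1']
  have hc' : 0 ≤ c' := by linarith only [b1, b2, c1']
  have p1 : b * c' ≤ 1 / 100 := by
    calc b * c' ≤ (1 / 10) * (1 / 10) := by apply mul_le_mul <;> (first | linarith only [hd1, b2] | linarith only [hd1, c2'] | linarith only [b1, b2, c1'] | linarith only [] | linarith)
      _ = 1 / 100 := by norm_num
  have p2 : c * b' ≤ 1 / 100 := by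
    calc c * b' ≤ (1 / 10) * (1 / 10) := by apply mul_le_mul <;> (first | linarith only [hd1, c2] | linarith only [hd1, b2'] | linarith only [b1, b2, b1'] | linarith only [] | linarith)
      _ = 1 / 100 := by norm_num
  have p1' : 0 ≤ b * c' := mul_nonneg hb hc'
  have p2' : 0 ≤ c * b' := mul_nonneg hc hb'
  have q1 : 0.606 ≤ a * e' := by
    calc (0.606 : ℝ) = 1 * 0.606 := by norm_num
      _ ≤ a * e' := by apply mul_le_mul <;> (first | linarith only [a1] | linarith only [e1'] | linarith only [] | linarith)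
  have q2 : a * e' ≤ 1.6683 := by
    calc a * e' ≤ 1.66 * 1.005 := by apply mul_le_mul <;> (first | linarith only [a2] | linarith only [e2'] | linarith only [e1'] | linarith only [] | linarith)
      _ = 1.6683 := by norm_num
  have q3 : 0.606 ≤ e * a' := by
    calc (0.606 : ℝ) = 0.606 * 1 := by norm_num
      _ ≤ e * a' := by apply mul_le_mul <;> (first | linarith only [e1] | linarith only [a1'] | linarith only [] | linarith)
  have q4 : e * a' ≤ 1.6683 := by
    calc e * a' ≤ 1.005 * 1.66 := by apply mul_le_mul <;> (first | linarith only [e2] | linarith only [a2'] | linarith only [a1'] | linarith only [] | linarith)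
      _ = 1.6683 := by norm_num
  refine ⟨?_, ?_, ?_, ?_, ?_, ?_⟩
  · rw [m00]; linarith only [p1, q1]
  · rw [m11]; linarith only [p2, q3]
  · rw [m00, m11]; linarith only [p2, p1', q2, q3]
  · rw [m00, m11]; linarith only [p1, p2', q1, q4]
  · rw [habs, m01, abs_le]
    have r1 : a' * b ≤ 1.66 * d := by apply mul_le_mul <;> (first | linarith only [a2'] | linarith only [b2] | linarith only [b1, b2] | linarith only [] | linarith)
    have r2 : a * b' ≤ 1.66 * d := by apply mul_le_mul <;> (first | linarith only [a2] | linarith only [b2'] | linarith only [b1, b2, b1'] | linarith only [] | linarith)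
    have r3 : 0 ≤ a' * b := by apply mul_nonneg <;> (first | linarith only [a1'] | linarith only [b1, b2] | linarith)
    have r4 : 0 ≤ a * b' := by apply mul_nonneg <;> (first | linarith only [a1] | linarith only [b1, b2, b1'] | linarith)
    constructor <;> (first | linarith only [b1, b2, r2, r3] | linarith only [b1, b2, r1, r4] | linarith)
  · rw [habs, m10, abs_le]
    have r1 : e' * c ≤ 1.005 * d := by apply mul_le_mul <;> (first | linarith only [e2'] | linarith only [c2] | linarith only [b1, b2, c1] | linarith only [] | linarith)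
    have r2 : e * c' ≤ 1.005 * d := by apply mul_le_mul <;> (first | linarith only [e2] | linarith only [c2'] | linarith only [b1, b2, c1'] | linarith only [] | linarith)
    have r3 : 0 ≤ e' * c := by apply mul_nonneg <;> (first | linarith only [e1'] | linarith only [b1, b2, c1] | linarith)
    have r4 : 0 ≤ e * c' := by apply mul_nonneg <;> (first | linarith only [e1] | linarith only [b1, b2, c1'] | linarith)
    constructor <;> (first | linarith only [b1, b2, r2, r3] | linarith only [b1, b2, r1, r4] | linarith)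

/-- `X⁻¹ (a_s X a_{-s})` is spacelike -/
theorem box_inv_mul {σ d s : ℝ} (hσ : σ = 1 ∨ σ = -1) (hd : 0 < d) (hd1 : d ≤ 1 / 10)
    (hs : 2 ≤ s) (hsd : Real.exp s * d ^ 2 ≤ 1 / 10) {g y : SL(2, ℝ)} (hg : g ∈ BoxT σ d)
    (hy : aS (-s) * y * aS s ∈ BoxT σ d) : g⁻¹ * y ∈ SpaceW σ (2 * Real.exp s * d) := by
  have hσ2 : σ ^ 2 = 1 := by rcases hσ with rfl | rfl <;> norm_num
  have key : ∀ x y : ℝ, x * y = (σ * x) * (σ * y) := by
    intro x y
    calc x * y = σ ^ 2 * (x * y) := by rw [hσ2, one_mul]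
      _ = _ := by ring
  obtain ⟨x, hx⟩ : ∃ x, x = aS (-s) * y * aS s := ⟨_, rfl⟩
  rw [← hx] at hy
  have hyx : y = aS s * x * aS (-s) := by
    rw [hx]
    have h1 := PB_aS_inv s
    rw [← h1]
    group
  obtain ⟨a1, a2, e1, e2⟩ := box_bd hσ2 hd hd1 hg
  obtain ⟨a1', a2', e1', e2'⟩ := box_bd hσ2 hd hd1 hy
  obtain ⟨-, -, -, -, b1, b2, c1, c2⟩ := hg
  obtain ⟨-, -, -, -, b1', b2', c1', c2'⟩ := hy
  have hE : Real.exp (s / 2) * Real.exp (-(s / 2)) = 1 := by
    rw [← Real.exp_add, add_neg_cancel, Real.exp_zero]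
  have hE2 : Real.exp (s / 2) * Real.exp (s / 2) = Real.exp s := by
    rw [← Real.exp_add, add_halves]
  have hE3 : Real.exp (-(s / 2)) * Real.exp (-(s / 2)) = Real.exp (-s) := by
    rw [← Real.exp_add]
    congr 1
    ring
  have y00 : y 0 0 = x 0 0 := by
    rw [hyx, mul_00, mul_00, mul_01, aS_00, aS_00, aS_01, aS_10]
    have : -s / 2 = -(s / 2) := by ring
    rw [this]
    linear_combination (x 0 0) * hE
  have y11 : y 1 1 = x 1 1 := by
    rw [hyx, mul_11, mul_10, mul_11, aS_11, aS_11, aS_01, aS_10]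
    have : -(-s / 2) = s / 2 := by ring
    rw [this]
    linear_combination (x 1 1) * hE
  have y01 : y 0 1 = Real.exp s * x 0 1 := by
    rw [hyx, mul_01, mul_00, mul_01, aS_00, aS_11, aS_01, aS_01]
    have : -(-s / 2) = s / 2 := by ring
    rw [this]
    linear_combination (x 0 1) * hE2
  have y10 : y 1 0 = Real.exp (-s) * x 1 0 := by
    rw [hyx, mul_10, mul_10, mul_11, aS_11, aS_00, aS_10, aS_10]
    have : -s / 2 = -(s / 2) := by ring
    rw [this]
    linear_combination (x 1 0) * hE3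
  have m00 : (g⁻¹ * y) 0 0 = g 1 1 * x 0 0 - Real.exp (-s) * ((σ * g 0 1) * (σ * x 1 0)) := by
    rw [mul_00, inv_00, inv_01, y00, y10, ← key]
    ring
  have m11 : (g⁻¹ * y) 1 1 = g 0 0 * x 1 1 - Real.exp s * ((σ * g 1 0) * (σ * x 0 1)) := by
    rw [mul_11, inv_10, inv_11, y01, y11, ← key]
    ring
  have m01 : σ * (g⁻¹ * y) 0 1 = g 1 1 * (Real.exp s * (σ * x 0 1)) - x 1 1 * (σ * g 0 1) := by
    rw [mul_01, inv_00, inv_01, y01, y11]
    ring
  have m10 : σ * (g⁻¹ * y) 1 0 = g 0 0 * (Real.exp (-s) * (σ * x 1 0)) -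
      x 0 0 * (σ * g 1 0) := by
    rw [mul_10, inv_10, inv_11, y00, y10]
    ring
  have hEs : 7 ≤ Real.exp s := by
    have h1 : Real.exp 2 ≤ Real.exp s := Real.exp_le_exp.2 hs
    have h2 : Real.exp 2 = Real.exp 1 * Real.exp 1 := by
      rw [← Real.exp_add]
      norm_num
    have h3 := Real.exp_one_gt_d9
    nlinarith only [h1, h2, h3]
  have hEi : Real.exp s * Real.exp (-s) = 1 := by
    rw [← Real.exp_add, add_neg_cancel, Real.exp_zero]
  have hEn : 0 < Real.exp (-s) := Real.exp_pos _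
  have hE7 : Real.exp (-s) ≤ 1 / 7 := by
    rw [le_div_iff₀ (by norm_num)]
    nlinarith only [hEi, hEs, hEn]
  generalize Real.exp s = E at *
  generalize Real.exp (-s) = E' at *
  generalize σ * g 0 1 = b at *
  generalize σ * g 1 0 = c at *
  generalize σ * x 0 1 = b' at *
  generalize σ * x 1 0 = c' at *
  generalize g 0 0 = a at *
  generalize g 1 1 = e at *
  generalize x 0 0 = a' at *
  generalize x 1 1 = e' at *
  clear hyx hx y00 y11 y01 y10 hE hE2 hE3 key
  have hd2 : 0 ≤ d / 2 := by positivity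
  have hb : 0 ≤ b := hd2.trans b1
  have hc : 0 ≤ c := hd2.trans c1
  have hb' : 0 ≤ b' := hd2.trans b1'
  have hc' : 0 ≤ c' := hd2.trans c1'
  have ha0 : 0 ≤ a := zero_le_one.trans a1
  have ha0' : 0 ≤ a' := zero_le_one.trans a1'
  have he0 : 0 ≤ e := le_trans (by norm_num) e1
  have he0' : 0 ≤ e' := le_trans (by norm_num) e1'
  have hE0 : 0 ≤ E := le_trans (by norm_num) hEs
  have p1 : b * c' ≤ 1 / 100 := by
    calc b * c' ≤ (1 / 10) * (1 / 10) :=
          mul_le_mul (b2.le.trans hd1) (c2'.le.trans hd1) hc' (by norm_num)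
      _ = 1 / 100 := by norm_num
  have p1' : 0 ≤ b * c' := mul_nonneg hb hc'
  have p3 : 0 ≤ E' * (b * c') := mul_nonneg hEn.le p1'
  have p4 : E' * (b * c') ≤ 1 / 100 := by
    calc E' * (b * c') ≤ 1 * (1 / 100) :=
          mul_le_mul (hE7.trans (by norm_num)) p1 p1' (by norm_num)
      _ = 1 / 100 := by norm_num
  have p5 : E * (c * b') ≤ 1 / 10 := by
    refine le_trans ?_ hsd
    have : c * b' ≤ d ^ 2 := by
      rw [sq]
      exact mul_le_mul c2.le b2'.le hb' hd.le
    exact mul_le_mul_of_nonneg_left this hE0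
  have p6 : 0 ≤ E * (c * b') := mul_nonneg hE0 (mul_nonneg hc hb')
  have q1 : 0.606 ≤ a * e' := by
    calc (0.606 : ℝ) = 1 * 0.606 := by norm_num
      _ ≤ a * e' := mul_le_mul a1 e1' (by norm_num) ha0
  have q2 : a * e' ≤ 1.6683 := by
    calc a * e' ≤ 1.66 * 1.005 := mul_le_mul a2 e2' he0' (by norm_num)
      _ = 1.6683 := by norm_num
  have q3 : 0.606 ≤ e * a' := by
    calc (0.606 : ℝ) = 0.606 * 1 := by norm_num
      _ ≤ e * a' := mul_le_mul e1 a1' (by norm_num) he0
  have q4 : e * a' ≤ 1.6683 := by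
    calc e * a' ≤ 1.005 * 1.66 := mul_le_mul e2 a2' ha0' (by norm_num)
      _ = 1.6683 := by norm_num
  have r1 : 7 * (d / 2) ≤ E * b' := mul_le_mul hEs b1' hd2 hE0
  have r2 : E * b' ≤ E * d := mul_le_mul_of_nonneg_left b2'.le hE0
  have r0 : 0 ≤ E * b' := mul_nonneg hE0 hb'
  have r3 : 0.606 * (7 * (d / 2)) ≤ e * (E * b') :=
    mul_le_mul e1 r1 (by positivity) he0
  have r4 : e * (E * b') ≤ 1.005 * (E * d) := mul_le_mul e2 r2 r0 (by norm_num)
  have r5 : e' * b ≤ 1.005 * d := mul_le_mul e2' b2.le hb (by norm_num)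
  have r6 : 0 ≤ e' * b := mul_nonneg he0' hb
  have r7 : E' * c' ≤ 1 / 7 * d := mul_le_mul hE7 c2'.le hc' (by norm_num)
  have r8 : 0 ≤ E' * c' := mul_nonneg hEn.le hc'
  have r9 : a * (E' * c') ≤ 1.66 * (1 / 7 * d) := mul_le_mul a2 r7 r8 (by norm_num)
  have r10 : 0 ≤ a * (E' * c') := mul_nonneg ha0 r8
  have r11 : 1 * (d / 2) ≤ a' * c := mul_le_mul a1' c1 hd2 ha0'
  have r12 : a' * c ≤ 1.66 * d := mul_le_mul a2' c2.le hc (by norm_num)
  have r13 : 7 * d ≤ E * d := mul_le_mul_of_nonneg_right hEs hd.le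
  clear a1 a2 a1' a2' e1 e2 e1' e2' b1 b2 b1' b2' c1 c2 c1' c2' hEi hE7 hEs hsd hs hd1
  clear p1 p1' r0 r1 r2 r7 r8 ha0 ha0' he0 he0' hb hc hb' hc' hE0 hEn hd2
  refine ⟨?_, ?_, ?_, ?_, ?_, ?_, ?_, ?_⟩
  · rw [m00]; linarith only [p4, q3]
  · rw [m11]; linarith only [p5, q1]
  · rw [m00, m11]; linarith only [p3, p5, q1, q4]
  · rw [m00, m11]; linarith only [p4, p6, q2, q3]
  · rw [m01]; linarith only [hd, r3, r5]
  · rw [m01]; linarith only [hd, r4, r6, r13]
  · rw [m10]; linarith only [hd, r10, r12, r13]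
  · rw [m10]; linarith only [hd, r9, r11]

end

end QE


end

section

/-!
The measure of a neighbourhood of a piece of a flow line, in terms of the density of the projection.
-/

open MeasureTheory Filter Topology Set
open UpperHalfPlane hiding I
open scoped ContDiff MatrixGroups ENNReal

namespace QE

noncomputable section

/-- a piece of a neighbourhood of a flow line is a translate of a small set -/
theorem ball_piece {d : ℝ} (hd : 0 < d) (hd1 : d ≤ 1 / 10) {g : SL(2, ℝ)} (hg : g ∈ BallZ d) :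
    ∃ k : ℤ, |(k : ℝ)| * d ≤ 2 ∧
      dist ((g * aS (-(k * d))) • UpperHalfPlane.I) UpperHalfPlane.I < 10 * d := by
  obtain ⟨ha, he, hae, hea, hb, hc⟩ := hg
  have hdet := det_eq g
  set t := Real.log (g 0 0 / g 1 1) with ht
  have het : Real.exp t = g 0 0 / g 1 1 := Real.exp_log (by positivity)
  have ht1 : Real.exp t ≤ 4 := by
    rw [het, div_le_iff₀ he]
    exact hae
  have ht2 : 1 / 4 ≤ Real.exp t := by
    rw [het, le_div_iff₀ he]
    linarith
  have hk1 := Int.floor_le (t / d)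
  have hk2 := Int.lt_floor_add_one (t / d)
  set k := ⌊t / d⌋ with hk
  have hu1 : k * d ≤ t := by rwa [le_div_iff₀ hd] at hk1
  have hu2 : t < k * d + d := by
    rw [div_lt_iff₀ hd] at hk2
    linarith
  set u := (k : ℝ) * d with hu
  -- size of `u`
  have hexp1 := Real.exp_one_gt_d9
  have hu3 : u ≤ 3 / 2 := by
    by_contra h
    push Not at h
    have h1 : Real.exp (3 / 2) < Real.exp t := Real.exp_lt_exp.2 (by linarith only [hu1, h])
    have h2 : Real.exp (3 / 2) ^ 2 = Real.exp 1 ^ 3 := by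
      rw [← Real.exp_nat_mul, ← Real.exp_nat_mul]
      norm_num
    have h3 : (19 : ℝ) ≤ Real.exp 1 ^ 3 := by
      calc (19 : ℝ) ≤ 2.7 ^ 3 := by norm_num
        _ ≤ Real.exp 1 ^ 3 := by gcongr; linarith only [hexp1]
    have h4 : Real.exp (3 / 2) ^ 2 ≤ 16 := by
      calc Real.exp (3 / 2) ^ 2 ≤ 4 ^ 2 := by gcongr; linarith only [ht1, h1]
        _ = 16 := by norm_num
    linarith only [h2, h3, h4]
  have hu4 : -2 ≤ u := by
    by_contra h
    push Not at h
    have h1 : Real.exp t < Real.exp (-(3 / 2)) := Real.exp_lt_exp.2 (by linarith only [hd1, hu2, h])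
    have h2 : Real.exp (-(3 / 2)) * Real.exp (3 / 2) = 1 := by
      rw [← Real.exp_add, neg_add_cancel, Real.exp_zero]
    have h3 : (19 : ℝ) ≤ Real.exp 1 ^ 3 := by
      calc (19 : ℝ) ≤ 2.7 ^ 3 := by norm_num
        _ ≤ Real.exp 1 ^ 3 := by gcongr; linarith only [hexp1]
    have h5 : Real.exp (3 / 2) ^ 2 = Real.exp 1 ^ 3 := by
      rw [← Real.exp_nat_mul, ← Real.exp_nat_mul]
      norm_num
    have h6 : 0 < Real.exp (3 / 2) := Real.exp_pos _
    have h7 : Real.exp (3 / 2) < 4 := by nlinarith only [h2, ht2, h1]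
    have h8 : Real.exp (3 / 2) ^ 2 ≤ 16 := by
      calc Real.exp (3 / 2) ^ 2 ≤ 4 ^ 2 := by gcongr
        _ = 16 := by norm_num
    linarith only [h3, h5, h8]
  refine ⟨k, ?_, ?_⟩
  · have h1 : |(k : ℝ)| * d = |u| := by rw [hu, abs_mul, abs_of_pos hd]
    rw [h1, abs_le]
    constructor <;> linarith
  · apply dist_I_lt _ (by positivity)
    set E := Real.exp (u / 2) with hE
    set E' := Real.exp (-(u / 2)) with hE'
    have hEE : E * E' = 1 := by rw [hE, hE', ← Real.exp_add, add_neg_cancel, Real.exp_zero]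
    have hE0 : 0 < E := Real.exp_pos _
    have hE0' : 0 < E' := Real.exp_pos _
    have hEsq : E ^ 2 = Real.exp u := by
      rw [hE, ← Real.exp_nat_mul]
      congr 1
      push_cast
      ring
    have hEsq' : E' ^ 2 = Real.exp (-u) := by
      rw [hE', ← Real.exp_nat_mul]
      congr 1
      push_cast
      ring
    have hEle : E ≤ 2 := by
      have h1 : Real.exp u ≤ 4 := (Real.exp_le_exp.2 hu1).trans ht1
      nlinarith only [hEsq, h1]
    have hed : Real.exp (t - u) ≤ 1 + 2 * d := by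
      have h1 : Real.exp (t - u) ≤ Real.exp d := Real.exp_le_exp.2 (by linarith)
      have h2 := Real.abs_exp_sub_one_le (x := d) (by rw [abs_of_pos hd]; linarith only [hd1])
      rw [abs_of_pos hd] at h2
      have h3 := le_abs_self (Real.exp d - 1)
      linarith only [h1, h2, h3]
    have hed0 : 1 ≤ Real.exp (t - u) := Real.one_le_exp (by linarith only [hu1])
    have hEle' : E' ≤ 2.2 := by
      have h1 : Real.exp (-u) = Real.exp (t - u) * Real.exp (-t) := by
        rw [← Real.exp_add]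
        congr 1
        ring
      have h2 : Real.exp (-t) ≤ 4 := by
        have h3 : Real.exp t * Real.exp (-t) = 1 := by
          rw [← Real.exp_add, add_neg_cancel, Real.exp_zero]
        have h4 : 0 < Real.exp (-t) := Real.exp_pos _
        nlinarith only [h3, ht2]
      have h3 : Real.exp (-u) ≤ 1.2 * 4 := by
        rw [h1]
        apply mul_le_mul _ h2 (Real.exp_pos _).le (by norm_num)
        linarith only [hd1, hed]
      nlinarith only [hEsq', h3]
    have h00 : (g * aS (-u)) 0 0 = g 0 0 * E' := by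
      rw [mul_00, aS_00, aS_10, mul_zero, add_zero, hE', neg_div]
    have h01 : (g * aS (-u)) 0 1 = g 0 1 * E := by
      rw [mul_01, aS_01, aS_11, mul_zero, zero_add, hE, neg_div, neg_neg]
    have h10 : (g * aS (-u)) 1 0 = g 1 0 * E' := by
      rw [mul_10, aS_00, aS_10, mul_zero, add_zero, hE', neg_div]
    have h11 : (g * aS (-u)) 1 1 = g 1 1 * E := by
      rw [mul_11, aS_01, aS_11, mul_zero, zero_add, hE, neg_div, neg_neg]
    rw [h00, h01, h10, h11]
    have hbb : |g 0 1 * E| ≤ 4 * d := by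
      rw [abs_mul, abs_of_pos hE0]
      calc |g 0 1| * E ≤ 2 * d * 2 := mul_le_mul hb hEle hE0.le (by positivity)
        _ = 4 * d := by ring
    have hcc : |g 1 0 * E'| ≤ 4.4 * d := by
      rw [abs_mul, abs_of_pos hE0']
      calc |g 1 0| * E' ≤ 2 * d * 2.2 := mul_le_mul hc hEle' hE0'.le (by positivity)
        _ = 4.4 * d := by ring
    have hrat : g 0 0 * E' = g 1 1 * E * Real.exp (t - u) := by
      have h1 : Real.exp (t - u) = Real.exp t * Real.exp (-u) := by
        rw [← Real.exp_add]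
        congr 1
      rw [h1, het, ← hEsq']
      field_simp
      linear_combination (-1 : ℝ) * hEE
    have hprod : (g 0 0 * E') * (g 1 1 * E) = 1 + (g 0 1 * E) * (g 1 0 * E') := by
      linear_combination (E * E') * hdet + hEE
    have hbc : (g 0 1 * E) * (g 1 0 * E') ≤ 0.176 := by
      calc (g 0 1 * E) * (g 1 0 * E') ≤ |(g 0 1 * E) * (g 1 0 * E')| := le_abs_self _
        _ = |g 0 1 * E| * |g 1 0 * E'| := abs_mul _ _
        _ ≤ (4 * d) * (4.4 * d) := mul_le_mul hbb hcc (abs_nonneg _) (by positivity)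
        _ ≤ (4 * (1 / 10)) * (4.4 * (1 / 10)) := by (clear * - hd1 hd; gcongr)
        _ = 0.176 := by norm_num
    have hsum : |g 0 1 * E + g 1 0 * E'| ≤ 8.4 * d := by
      refine (abs_add_le _ _).trans ?_
      linarith only [hbb, hcc]
    have he11 : 0 < g 1 1 * E := by positivity
    rw [hrat] at hprod ⊢
    generalize g 1 1 * E = y at *
    generalize Real.exp (t - u) = w at *
    generalize g 0 1 * E + g 1 0 * E' = z at *
    have hyy : y * y ≤ 1.176 := by
      have h1 : y * y ≤ (y * w) * y :=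
        mul_le_mul_of_nonneg_right (le_mul_of_one_le_right he11.le hed0) he11.le
      linarith only [hbc, hprod, h1]
    have hy : y ≤ 1.085 := by
      by_contra h
      push Not at h
      have : (1.085 : ℝ) * 1.085 ≤ y * y := mul_le_mul h.le h.le (by norm_num) he11.le
      norm_num at this
      linarith only [hyy, this]
    have h1 : y * w - y = y * (w - 1) := by ring
    have h2 : 0 ≤ y * (w - 1) := mul_nonneg he11.le (by linarith only [hed0])
    have h3 : y * (w - 1) ≤ 1.085 * (2 * d) := by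
      apply mul_le_mul hy _ (by linarith only [hed0]) (by norm_num)
      linarith only [hed]
    have h4 : (y * w - y) ^ 2 ≤ (1.085 * (2 * d)) ^ 2 := by
      rw [h1]
      (clear * - he11 hed0 h3; gcongr)
    have h5 : z ^ 2 ≤ (8.4 * d) ^ 2 := by
      rw [← sq_abs]
      (clear * - hsum; gcongr)
    have h6 : 0 < d ^ 2 := by positivity
    calc (y * w - y) ^ 2 + z ^ 2 ≤ (1.085 * (2 * d)) ^ 2 + (8.4 * d) ^ 2 := add_le_add h4 h5
      _ = 75.2689 * d ^ 2 := by ring
      _ < 100 * d ^ 2 := by linarith only [h6]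
      _ = (10 * d) ^ 2 := by ring

end

end QE


end

section

/-!
Measure estimates for the timelike part: the mass of a neighbourhood of a flow line, the triple
estimate (almost orthogonality), the averaging argument.
-/

open MeasureTheory Filter Topology Set
open UpperHalfPlane hiding I
open scoped ContDiff MatrixGroups ENNReal

namespace QE

noncomputable section

variable [MeasurableSpace SL(2, ℝ)] [BorelSpace SL(2, ℝ)]
variable {Γ : Subgroup SL(2, ℝ)} {D : Set ℍ} {μ : Measure SL(2, ℝ)} {p : ℍ → ℝ}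

theorem nball_meas (r : ℝ) :
    MeasurableSet {g : SL(2, ℝ) | dist (g • UpperHalfPlane.I) UpperHalfPlane.I < r} := by
  have h : Continuous fun g : SL(2, ℝ) => g • UpperHalfPlane.I :=
    continuous_id.smul continuous_const
  exact measurableSet_lt (h.dist continuous_const).measurable measurable_const

theorem FlowMeas0.mass_nball (hμ : FlowMeas0 Γ D μ p) (v : SL(2, ℝ)) (r : ℝ) :
    μ ((fun w => v⁻¹ * w) ⁻¹' {g | dist (g • UpperHalfPlane.I) UpperHalfPlane.I < r}) =
      ∫⁻ z in Metric.ball (v • UpperHalfPlane.I) r, ENNReal.ofReal (p z) := by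
  rw [← hμ.proj _ Metric.isOpen_ball.measurableSet]
  congr 1
  ext w
  have h3 : dist ((v⁻¹ * w) • UpperHalfPlane.I) UpperHalfPlane.I =
      dist (w • UpperHalfPlane.I) (v • UpperHalfPlane.I) := by
    rw [← dist_smul v ((v⁻¹ * w) • UpperHalfPlane.I) UpperHalfPlane.I, ← mul_smul,
      mul_inv_cancel_left]
  show dist ((v⁻¹ * w) • UpperHalfPlane.I) UpperHalfPlane.I < r ↔ _
  rw [h3]
  rfl

/-- the mass of a neighbourhood of a piece of flow line -/
theorem FlowMeas.mass_ballZ (hμ : FlowMeas Γ D μ p) (v : SL(2, ℝ)) {d : ℝ} (hd : 0 < d)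
    (hd1 : d ≤ 1 / 10) : μ ((fun w => v⁻¹ * w) ⁻¹' BallZ d) ≤
      ENNReal.ofReal (5 / d) *
        ∫⁻ z in Metric.ball (v • UpperHalfPlane.I) (10 * d), ENNReal.ofReal (p z) := by
  set N : Set SL(2, ℝ) := {g | dist (g • UpperHalfPlane.I) UpperHalfPlane.I < 10 * d} with hN
  have hNm : MeasurableSet N := nball_meas _
  set K : ℕ := ⌊2 / d⌋₊ with hK
  have hKle : (K : ℝ) ≤ 2 / d := Nat.floor_le (by positivity)
  have hcov : (fun w => v⁻¹ * w) ⁻¹' BallZ d ⊆ ⋃ k ∈ Finset.Icc (-(K : ℤ)) K,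
      (fun w => v⁻¹ * w) ⁻¹' ((fun g => g * aS (-(k * d))) ⁻¹' N) := by
    intro w hw
    obtain ⟨k, hk1, hk2⟩ := ball_piece hd hd1 hw
    rw [mem_iUnion₂]
    refine ⟨k, ?_, hk2⟩
    rw [Finset.mem_Icc, ← abs_le]
    have h1 : |(k : ℝ)| ≤ 2 / d := by rwa [le_div_iff₀ hd]
    have h2 : (k.natAbs : ℝ) ≤ 2 / d := by
      rw [Nat.cast_natAbs]
      push_cast
      exact h1
    have h3 : k.natAbs ≤ K := Nat.le_floor h2
    rw [Int.abs_eq_natAbs]
    exact_mod_cast h3
  calc μ ((fun w => v⁻¹ * w) ⁻¹' BallZ d)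
      ≤ μ (⋃ k ∈ Finset.Icc (-(K : ℤ)) K,
          (fun w => v⁻¹ * w) ⁻¹' ((fun g => g * aS (-(k * d))) ⁻¹' N)) := measure_mono hcov
    _ ≤ ∑ k ∈ Finset.Icc (-(K : ℤ)) K,
          μ ((fun w => v⁻¹ * w) ⁻¹' ((fun g => g * aS (-(k * d))) ⁻¹' N)) :=
        measure_biUnion_finset_le _ _
    _ = ∑ k ∈ Finset.Icc (-(K : ℤ)) K, μ ((fun w => v⁻¹ * w) ⁻¹' N) := by
        apply Finset.sum_congr rfl
        intro k _
        exact hμ.shift_right hNm v _
    _ = (Finset.Icc (-(K : ℤ)) K).card * μ ((fun w => v⁻¹ * w) ⁻¹' N) := by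
        rw [Finset.sum_const, nsmul_eq_mul]
    _ ≤ ENNReal.ofReal (5 / d) * μ ((fun w => v⁻¹ * w) ⁻¹' N) := by
        refine mul_le_mul' ?_ le_rfl
        have hc : (Finset.Icc (-(K : ℤ)) K).card = 2 * K + 1 := by
          rw [Int.card_Icc]
          omega
        rw [hc, ← ENNReal.ofReal_natCast]
        apply ENNReal.ofReal_le_ofReal
        push_cast
        have h1 : 1 ≤ 1 / d := by
          rw [le_div_iff₀ hd]
          linarith only [hd1]
        have h2 : 5 / d = 2 * (2 / d) + 1 / d := by ring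
        linarith
    _ = _ := by rw [hμ.mass_nball]

/-- the triple estimate -/
theorem FlowMeas0.triple [Countable Γ] [SFinite μ] (hμ : FlowMeas0 Γ D μ p)
    (hD : IsFundamentalDomain Γ D (volume : Measure ℍ)) {X Y Z W : Set SL(2, ℝ)}
    (hX : MeasurableSet X) (hY : MeasurableSet Y) (hZ : MeasurableSet Z) (hW : MeasurableSet W)
    (hXZ : ∀ g ∈ X, ∀ h ∈ X, g * h⁻¹ ∈ Z) (hXY : ∀ g ∈ X, ∀ y ∈ Y, g⁻¹ * y ∈ W) (l : ℝ≥0∞) :
    ∫⁻ v in Berry.Fd D, (if μ ((fun w => v⁻¹ * w) ⁻¹' Z) ≤ l then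
      μ ((fun w => v⁻¹ * w) ⁻¹' X) * μ ((fun w => v⁻¹ * w) ⁻¹' Y) else 0) ∂μ ≤
      l * pairM D μ W := by
  classical
  have mX := mass_meas (μ := μ) hX
  have mY := mass_meas (μ := μ) hY
  have mZ := mass_meas (μ := μ) hZ
  have mW := mass_meas (μ := μ) hW
  set F : SL(2, ℝ) → SL(2, ℝ) → ℝ≥0∞ := fun v w =>
    if μ ((fun w => v⁻¹ * w) ⁻¹' Z) ≤ l ∧ v⁻¹ * w ∈ X then μ ((fun w => v⁻¹ * w) ⁻¹' Y) else 0
    with hF
  have hS : MeasurableSet {z : SL(2, ℝ) × SL(2, ℝ) |
      μ ((fun w => z.1⁻¹ * w) ⁻¹' Z) ≤ l ∧ z.1⁻¹ * z.2 ∈ X} :=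
    (measurableSet_le (mZ.comp measurable_fst) measurable_const).inter (divm hX)
  have hFm : Measurable (Function.uncurry F) :=
    Measurable.ite hS (mY.comp measurable_fst) measurable_const
  have e1 : ∀ v, (if μ ((fun w => v⁻¹ * w) ⁻¹' Z) ≤ l then
      μ ((fun w => v⁻¹ * w) ⁻¹' X) * μ ((fun w => v⁻¹ * w) ⁻¹' Y) else 0) = ∫⁻ w, F v w ∂μ := by
    intro v
    by_cases h : μ ((fun w => v⁻¹ * w) ⁻¹' Z) ≤ l
    · rw [if_pos h]
      have hXv : MeasurableSet ((fun w => v⁻¹ * w) ⁻¹' X) := by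
        have : Measurable fun w : SL(2, ℝ) => v⁻¹ * w := by fun_prop
        exact this hX
      have : ∀ w, F v w = ((fun w => v⁻¹ * w) ⁻¹' X).indicator
          (fun _ => μ ((fun w => v⁻¹ * w) ⁻¹' Y)) w := by
        intro w
        simp only [hF, h, true_and, indicator, mem_preimage]
      simp only [this]
      rw [lintegral_indicator hXv, setLIntegral_const, mul_comm]
    · rw [if_neg h]
      have : ∀ w, F v w = 0 := by
        intro w
        simp only [hF, h, false_and, if_false]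
      simp [this]
  simp only [e1]
  rw [hμ.base_change hD hFm]
  · rw [pairM_apply hW]
    unfold pairMass
    rw [← lintegral_const_mul _ mW]
    apply lintegral_mono
    intro w
    -- the set of admissible `v`
    set V : Set SL(2, ℝ) := {v | μ ((fun w => v⁻¹ * w) ⁻¹' Z) ≤ l ∧ v⁻¹ * w ∈ X} with hV
    have hVm : MeasurableSet V := by
      have h2 : Measurable fun v : SL(2, ℝ) => v⁻¹ * w := by fun_prop
      exact (measurableSet_le mZ measurable_const).inter (h2 hX)
    have hb : ∀ v, F v w ≤ V.indicator (fun _ => μ ((fun w' => w⁻¹ * w') ⁻¹' W)) v := by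
      intro v
      by_cases h : v ∈ V
      · rw [indicator_of_mem h]
        have h' : μ ((fun w => v⁻¹ * w) ⁻¹' Z) ≤ l ∧ v⁻¹ * w ∈ X := h
        simp only [hF, if_pos h']
        apply measure_mono
        intro w' hw'
        have := hXY _ h'.2 _ hw'
        simp only [mem_preimage]
        have e : w⁻¹ * w' = (v⁻¹ * w)⁻¹ * (v⁻¹ * w') := by group
        rw [e]
        exact this
      · have h' : ¬ (μ ((fun w => v⁻¹ * w) ⁻¹' Z) ≤ l ∧ v⁻¹ * w ∈ X) := h
        simp only [hF, if_neg h']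
        exact zero_le
    have hVl : μ V ≤ l := by
      rcases V.eq_empty_or_nonempty with h | ⟨v₀, hv₀⟩
      · rw [h]
        simp
      · refine le_trans (measure_mono ?_) hv₀.1
        intro v hv
        have := hXZ _ hv₀.2 _ hv.2
        simp only [mem_preimage]
        have e : v₀⁻¹ * v = (v₀⁻¹ * w) * (v⁻¹ * w)⁻¹ := by group
        rw [e]
        exact this
    calc ∫⁻ v, F v w ∂μ ≤ ∫⁻ v, V.indicator (fun _ => μ ((fun w' => w⁻¹ * w') ⁻¹' W)) v ∂μ :=
          lintegral_mono hb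
      _ = μ ((fun w' => w⁻¹ * w') ⁻¹' W) * μ V := by
          rw [lintegral_indicator hVm, setLIntegral_const]
      _ ≤ μ ((fun w' => w⁻¹ * w') ⁻¹' W) * l := by gcongr
      _ = l * μ ((fun w' => w⁻¹ * w') ⁻¹' W) := mul_comm _ _
  · intro γ hγ v w
    have h1 := hμ.mass_inv hZ hγ v
    have h2 := hμ.mass_inv hY hγ v
    have h3 : (γ * v)⁻¹ * (γ * w) = v⁻¹ * w := by group
    simp only [hF, h1, h2, h3]

/-- the averaging argument -/
theorem FlowMeas.averaging [Countable Γ] (hμ : FlowMeas Γ D μ p)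
    (hD : IsFundamentalDomain Γ D (volume : Measure ℍ)) {f : SL(2, ℝ) → ℝ≥0∞}
    (hf : Measurable f) (hinv : ∀ γ ∈ Γ, ∀ g, f (γ * g) = f g) {L : ℝ≥0∞} (hL : L ≠ ⊤)
    (hfL : ∀ g, f g ≤ L) {ρ : ℝ≥0∞} (n : ℕ) (τ : ℝ)
    (ho : ∀ k : ℕ, 0 < k → k < n → ∫⁻ g in Berry.Fd D, f g * f (g * aS (k * τ)) ∂μ ≤ ρ)
    (hfin : ∫⁻ g in Berry.Fd D, f g ∂μ ≠ ⊤) :
    n * L * ∫⁻ g in Berry.Fd D, f g ∂μ ≤ n ^ 2 * ρ + L ^ 2 * μ (Berry.Fd D) := by
  set I := ∫⁻ g in Berry.Fd D, f g ∂μ with hI
  have hfs : ∀ s : ℝ, Measurable fun g => f (g * aS s) := by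
    intro s
    exact hf.comp (by fun_prop : Measurable fun g : SL(2, ℝ) => g * aS s)
  have hsh : ∀ s : ℝ, ∫⁻ g in Berry.Fd D, f (g * aS s) ∂μ = I :=
    fun s => hμ.setLIntegral_right hD hinv s
  -- correlations
  have hcorr : ∀ i j : ℕ, i < n → j < n → i < j →
      ∫⁻ g in Berry.Fd D, f (g * aS (i * τ)) * f (g * aS (j * τ)) ∂μ ≤ ρ := by
    intro i j _ hj hij
    have h1 := hμ.setLIntegral_right hD (f := fun g => f g * f (g * aS ((j - i : ℕ) * τ)))
      (fun γ hγ g => by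
        simp only [mul_assoc, hinv γ hγ]) (i * τ)
    have h2 : ∀ g : SL(2, ℝ), g * aS (i * τ) * aS ((j - i : ℕ) * τ) = g * aS (j * τ) := by
      intro g
      rw [mul_assoc, PB_aS_mul]
      congr 2
      rw [Nat.cast_sub hij.le]
      ring
    simp only [h2] at h1
    rw [h1]
    exact ho (j - i) (by omega) (by omega)
  have hall : ∀ i ∈ Finset.range n, ∀ j ∈ Finset.range n,
      ∫⁻ g in Berry.Fd D, f (g * aS (i * τ)) * f (g * aS (j * τ)) ∂μ ≤
        ρ + if i = j then L * I else 0 := by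
    intro i hi j hj
    rw [Finset.mem_range] at hi hj
    rcases lt_trichotomy i j with h | h | h
    · exact (hcorr i j hi hj h).trans le_self_add
    · subst h
      rw [if_pos rfl]
      calc ∫⁻ g in Berry.Fd D, f (g * aS (i * τ)) * f (g * aS (i * τ)) ∂μ
          ≤ ∫⁻ g in Berry.Fd D, L * f (g * aS (i * τ)) ∂μ := by
            apply lintegral_mono
            intro g
            exact mul_le_mul' (hfL _) le_rfl
        _ = L * I := by rw [lintegral_const_mul _ (hfs _), hsh]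
        _ ≤ _ := le_add_self
    · have h2 := hcorr j i hj hi h
      refine le_trans (le_of_eq ?_) (h2.trans le_self_add)
      apply lintegral_congr
      intro g
      exact mul_comm _ _
  set G : SL(2, ℝ) → ℝ≥0∞ := fun g => ∑ i ∈ Finset.range n, f (g * aS (i * τ)) with hG
  have hGm : Measurable G := Finset.measurable_fun_sum _ fun i _ => hfs _
  have hG1 : ∫⁻ g in Berry.Fd D, G g ∂μ = n * I := by
    rw [lintegral_finsetSum _ fun i _ => hfs _]
    simp only [hsh, Finset.sum_const, Finset.card_range, nsmul_eq_mul]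
  have hG2 : ∫⁻ g in Berry.Fd D, G g ^ 2 ∂μ ≤ n ^ 2 * ρ + n * (L * I) := by
    have e : ∀ g, G g ^ 2 = ∑ i ∈ Finset.range n, ∑ j ∈ Finset.range n,
        f (g * aS (i * τ)) * f (g * aS (j * τ)) := by
      intro g
      rw [sq, hG, Finset.sum_mul_sum]
    simp only [e]
    rw [lintegral_finsetSum]
    swap
    · intro i _
      exact Finset.measurable_fun_sum _ fun j _ => (hfs _).mul (hfs _)
    calc ∑ i ∈ Finset.range n, ∫⁻ g in Berry.Fd D, ∑ j ∈ Finset.range n,
          f (g * aS (i * τ)) * f (g * aS (j * τ)) ∂μ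
        = ∑ i ∈ Finset.range n, ∑ j ∈ Finset.range n, ∫⁻ g in Berry.Fd D,
          f (g * aS (i * τ)) * f (g * aS (j * τ)) ∂μ := by
          apply Finset.sum_congr rfl
          intro i _
          exact lintegral_finsetSum _ fun j _ => (hfs _).mul (hfs _)
      _ ≤ ∑ i ∈ Finset.range n, ∑ j ∈ Finset.range n, (ρ + if i = j then L * I else 0) :=
          Finset.sum_le_sum fun i hi => Finset.sum_le_sum fun j hj => hall i hi j hj
      _ = n ^ 2 * ρ + n * (L * I) := by
          simp only [Finset.sum_add_distrib, Finset.sum_const, Finset.card_range, nsmul_eq_mul,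
            Finset.sum_ite_eq, Finset.mem_range]
          rw [Finset.sum_ite, Finset.sum_const_zero, add_zero, Finset.sum_const, nsmul_eq_mul]
          have : (Finset.filter (fun i => i < n) (Finset.range n)).card = n := by
            rw [Finset.filter_true_of_mem fun i hi => Finset.mem_range.1 hi, Finset.card_range]
          rw [this]
          ring
  have hpt : ∀ g, 2 * L * G g ≤ G g ^ 2 + L ^ 2 := by
    intro g
    generalize G g = x
    rcases eq_or_ne x ⊤ with h | h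
    · rw [h]
      simp
    · lift x to NNReal using h
      lift L to NNReal using hL
      norm_cast
      have := two_mul_le_add_sq (x : ℝ) (L : ℝ)
      rw [← NNReal.coe_le_coe]
      push_cast
      nlinarith
  have h1 : 2 * L * (n * I) ≤ n ^ 2 * ρ + n * (L * I) + L ^ 2 * μ (Berry.Fd D) := by
    calc 2 * L * (n * I) = ∫⁻ g in Berry.Fd D, 2 * L * G g ∂μ := by
          rw [lintegral_const_mul _ hGm, hG1]
      _ ≤ ∫⁻ g in Berry.Fd D, (G g ^ 2 + L ^ 2) ∂μ := lintegral_mono hpt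
      _ = ∫⁻ g in Berry.Fd D, G g ^ 2 ∂μ + L ^ 2 * μ (Berry.Fd D) := by
          rw [lintegral_add_right _ measurable_const, setLIntegral_const]
      _ ≤ _ := by gcongr
  have h2 : (n * L * I) + (n * L * I) ≤
      (n * L * I) + (n ^ 2 * ρ + L ^ 2 * μ (Berry.Fd D)) := by
    calc (n * L * I) + (n * L * I) = 2 * L * (n * I) := by ring
      _ ≤ _ := h1
      _ = _ := by ring
  have hne : n * L * I ≠ ⊤ :=
    ENNReal.mul_ne_top (ENNReal.mul_ne_top (ENNReal.natCast_ne_top n) hL) hfin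
  exact (ENNReal.add_le_add_iff_left hne).1 h2

end

end QE


end

section

/-!
# Measures on the plane invariant under hyperbolic dilations   (helper25, module QH_E1)

`ν` is a measure on `ℝ × ℝ` (coordinates `(b, c)`), invariant under `(b, c) ↦ (l b, c / l)`, with
`ν {|b + c| < d, |b - c| < 1} ≤ C d` for `0 < d < 1`.

* `pi_spacelike` : `ν {0 < b < d, -d < c < 0} = o(d)` (and the same for the opposite quadrant);
* `pi_main` : if in addition `ν {b, c ∈ [d/2, d)} = o(d)` and `ν {-b, -c ∈ [d/2, d)} = o(d)` then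
  `ν {|b + c| < d, |b - c| < ε} ≤ η d` for small `ε` and all small `d`.

The part of `ν` in a spacelike quadrant and in a shell of `s = √(-bc)` is pushed forward to the
hyperbolic angle; it is translation invariant, hence a multiple of the Lebesgue measure.
-/

set_option autoImplicit false

open MeasureTheory Set Filter
open scoped Real Topology ENNReal NNReal

namespace QE

/-- the hypotheses of the two theorems of this file -/
structure PiHyp (ν : Measure (ℝ × ℝ)) (C : ℝ) : Prop where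
  inv : ∀ l : ℝ, 0 < l → Measure.map (fun q : ℝ × ℝ => (l * q.1, q.2 / l)) ν = ν
  bd : ∀ d : ℝ, 0 < d → d < 1 →
    ν {q : ℝ × ℝ | |q.1 + q.2| < d ∧ |q.1 - q.2| < 1} ≤ ENNReal.ofReal (C * d)

namespace PiAux

noncomputable section

/-- `s = √(-bc)` -/
def ss (q : ℝ × ℝ) : ℝ := √(-(q.1 * q.2))

/-- hyperbolic angle -/
def ww (q : ℝ × ℝ) : ℝ := (Real.log q.1 - Real.log (-q.2)) / 2

lemma dil_meas (l : ℝ) : Measurable (fun q : ℝ × ℝ => (l * q.1, q.2 / l)) := by fun_prop

lemma ss_meas : Measurable ss := by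
  unfold ss
  fun_prop

lemma ww_meas : Measurable ww := by
  unfold ww
  fun_prop

lemma ss_pos {q : ℝ × ℝ} (h1 : 0 < q.1) (h2 : q.2 < 0) : 0 < ss q :=
  Real.sqrt_pos.2 (by nlinarith)

lemma exp1 {q : ℝ × ℝ} (h1 : 0 < q.1) (h2 : q.2 < 0) : q.1 = ss q * Real.exp (ww q) := by
  have hs := ss_pos h1 h2
  have h3 : Real.log (ss q) = (Real.log q.1 + Real.log (-q.2)) / 2 := by
    unfold ss
    rw [Real.log_sqrt (by nlinarith only [h1, h2]), ← mul_neg, Real.log_mul h1.ne' (by linarith)]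
  have h4 : Real.log q.1 = Real.log (ss q * Real.exp (ww q)) := by
    rw [Real.log_mul hs.ne' (Real.exp_ne_zero _), Real.log_exp, h3]
    unfold ww
    ring
  exact Real.log_injOn_pos (mem_Ioi.2 h1) (mem_Ioi.2 (by positivity)) h4

lemma exp2 {q : ℝ × ℝ} (h1 : 0 < q.1) (h2 : q.2 < 0) : -q.2 = ss q * Real.exp (-ww q) := by
  have hs := ss_pos h1 h2
  have h3 : Real.log (ss q) = (Real.log q.1 + Real.log (-q.2)) / 2 := by
    unfold ss
    rw [Real.log_sqrt (by nlinarith), ← mul_neg, Real.log_mul h1.ne' (by linarith)]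
  have h4 : Real.log (-q.2) = Real.log (ss q * Real.exp (-ww q)) := by
    rw [Real.log_mul hs.ne' (Real.exp_ne_zero _), Real.log_exp, h3]
    unfold ww
    ring
  exact Real.log_injOn_pos (mem_Ioi.2 (by linarith)) (mem_Ioi.2 (by positivity)) h4

lemma ss_dil {l : ℝ} (hl : 0 < l) (q : ℝ × ℝ) : ss (l * q.1, q.2 / l) = ss q := by
  unfold ss
  congr 2
  simp only
  field_simp

lemma ww_dil {l : ℝ} (hl : 0 < l) {q : ℝ × ℝ} (h1 : 0 < q.1) (h2 : q.2 < 0) :
    ww (l * q.1, q.2 / l) = Real.log l + ww q := by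
  unfold ww
  simp only
  rw [Real.log_mul hl.ne' h1.ne', ← neg_div, Real.log_div (by linarith) hl.ne']
  ring

/-- shell -/
def Sh (m : ℕ) : Set (ℝ × ℝ) :=
  {q | 0 < q.1 ∧ q.2 < 0 ∧ (1 / 2 : ℝ) ^ (m + 1) < ss q ∧ ss q ≤ (1 / 2 : ℝ) ^ m}

lemma Sh_meas (m : ℕ) : MeasurableSet (Sh m) := by
  have h1 : MeasurableSet {q : ℝ × ℝ | 0 < q.1} := measurableSet_lt measurable_const measurable_fst
  have h2 : MeasurableSet {q : ℝ × ℝ | q.2 < 0} := measurableSet_lt measurable_snd measurable_const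
  have h3 : MeasurableSet {q : ℝ × ℝ | (1 / 2 : ℝ) ^ (m + 1) < ss q} :=
    measurableSet_lt measurable_const ss_meas
  have h4 : MeasurableSet {q : ℝ × ℝ | ss q ≤ (1 / 2 : ℝ) ^ m} :=
    measurableSet_le ss_meas measurable_const
  exact h1.inter (h2.inter (h3.inter h4))

lemma Sh_dil {l : ℝ} (hl : 0 < l) (m : ℕ) :
    (fun q : ℝ × ℝ => (l * q.1, q.2 / l)) ⁻¹' Sh m = Sh m := by
  ext q
  have h1 : 0 < l * q.1 ↔ 0 < q.1 := mul_pos_iff_of_pos_left hl
  have h2 : q.2 / l < 0 ↔ q.2 < 0 := by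
    rw [div_lt_iff₀ hl, zero_mul]
  show (0 < l * q.1 ∧ q.2 / l < 0 ∧ (1 / 2 : ℝ) ^ (m + 1) < ss (l * q.1, q.2 / l) ∧
    ss (l * q.1, q.2 / l) ≤ (1 / 2 : ℝ) ^ m) ↔ _
  rw [h1, h2, ss_dil hl]
  rfl

lemma Sh_disj {m n : ℕ} (h : m ≠ n) : Disjoint (Sh m) (Sh n) := by
  wlog hmn : m < n generalizing m n
  · exact (this h.symm (lt_of_le_of_ne (not_lt.1 hmn) h.symm)).symm
  rw [Set.disjoint_left]
  intro q hq hq'
  have h1 : (1 / 2 : ℝ) ^ n ≤ (1 / 2 : ℝ) ^ (m + 1) :=
    pow_le_pow_of_le_one (by norm_num) (by norm_num) hmn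
  exact absurd (hq.2.2.1.trans_le (hq'.2.2.2.trans h1)) (lt_irrefl _)

variable {ν : Measure (ℝ × ℝ)} {C : ℝ}

lemma tau_inv (h : PiHyp ν C) (m : ℕ) :
    (Measure.map ww (ν.restrict (Sh m))).IsAddLeftInvariant := by
  constructor
  intro t
  have hl : 0 < Real.exp t := Real.exp_pos t
  have hd := dil_meas (Real.exp t)
  have e1 : Measure.map ww (ν.restrict (Sh m)) =
      Measure.map (ww ∘ (fun q : ℝ × ℝ => (Real.exp t * q.1, q.2 / Real.exp t)))
        (ν.restrict (Sh m)) := by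
    conv_lhs => rw [← h.inv _ hl]
    rw [Measure.restrict_map hd (Sh_meas m), Sh_dil hl, Measure.map_map ww_meas hd]
  have e2 : Measure.map (ww ∘ (fun q : ℝ × ℝ => (Real.exp t * q.1, q.2 / Real.exp t)))
        (ν.restrict (Sh m)) = Measure.map ((t + ·) ∘ ww) (ν.restrict (Sh m)) := by
    refine Measure.map_congr ?_
    filter_upwards [ae_restrict_mem (Sh_meas m)] with q hq
    simp only [Function.comp]
    rw [ww_dil hl hq.1 hq.2.1, Real.log_exp]
  rw [Measure.map_map (measurable_const_add t) ww_meas, ← e2, ← e1]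

/-- a small window of a shell is in the set which is controlled -/
lemma window {m : ℕ} (hm : 3 ≤ m) {q : ℝ × ℝ} (hq : q ∈ Sh m) {h d : ℝ} (hh : h ≤ 1)
    (hw : |ww q| < h) (hd : 4 * (1 / 2 : ℝ) ^ m * h ≤ d) :
    |q.1 + q.2| < d ∧ |q.1 - q.2| < 1 := by
  obtain ⟨h1, h2, -, h3⟩ := hq
  have hs := ss_pos h1 h2
  have e1 := exp1 h1 h2
  have e2 := exp2 h1 h2
  have hw1 : |ww q| ≤ 1 := hw.le.trans hh
  have hh0 : 0 < h := lt_of_le_of_lt (abs_nonneg _) hw
  have a1 := Real.abs_exp_sub_one_le hw1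
  have a2 := Real.abs_exp_sub_one_le (x := -ww q) (by rwa [abs_neg])
  rw [abs_neg] at a2
  have hpow : (1 / 2 : ℝ) ^ m ≤ (1 / 2 : ℝ) ^ 3 :=
    pow_le_pow_of_le_one (by norm_num) (by norm_num) hm
  constructor
  · have e3 : q.1 + q.2 = ss q * ((Real.exp (ww q) - 1) - (Real.exp (-ww q) - 1)) := by
      linear_combination e1 - e2
    rw [e3, abs_mul, abs_of_pos hs]
    calc ss q * |(Real.exp (ww q) - 1) - (Real.exp (-ww q) - 1)|
        ≤ ss q * (|Real.exp (ww q) - 1| + |Real.exp (-ww q) - 1|) := by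
          gcongr
          exact abs_sub _ _
      _ ≤ ss q * (2 * |ww q| + 2 * |ww q|) := by gcongr
      _ = 4 * ss q * |ww q| := by ring
      _ < 4 * ss q * h := by gcongr
      _ ≤ 4 * (1 / 2 : ℝ) ^ m * h := by (clear * - h3 hh0; gcongr)
      _ ≤ d := hd
  · have e4 : q.1 - q.2 = ss q * (Real.exp (ww q) + Real.exp (-ww q)) := by
      linear_combination e1 + e2
    have b1 : Real.exp (ww q) ≤ Real.exp 1 := Real.exp_le_exp.2 ((le_abs_self _).trans hw1)
    have b2 : Real.exp (-ww q) ≤ Real.exp 1 := Real.exp_le_exp.2 ((neg_le_abs _).trans hw1)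
    have b3 := Real.exp_one_lt_d9
    have b4 : ss q ≤ 1 / 8 := by
      refine h3.trans (hpow.trans ?_)
      norm_num
    rw [e4, abs_of_pos (by positivity)]
    calc ss q * (Real.exp (ww q) + Real.exp (-ww q)) ≤ 1 / 8 * (Real.exp 1 + Real.exp 1) := by gcongr
      _ < 1 := by linarith

/-- the angular measure of a shell is a multiple of the Lebesgue measure -/
lemma exists_const (h : PiHyp ν C) {m : ℕ} (hm : 3 ≤ m) :
    ∃ c : ℝ≥0, ∀ r : ℝ, 0 < r → ν (Sh m ∩ {q | |ww q| < r}) = c * ENNReal.ofReal (2 * r) := by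
  have hinv := tau_inv h m
  set τ : Measure ℝ := Measure.map ww (ν.restrict (Sh m)) with hτ
  have hval : ∀ r : ℝ, τ (Ioo (-r) r) = ν (Sh m ∩ {q | |ww q| < r}) := by
    intro r
    rw [hτ, Measure.map_apply ww_meas measurableSet_Ioo,
      Measure.restrict_apply (ww_meas measurableSet_Ioo), inter_comm]
    congr 1
    ext q
    simp [abs_lt]
  have hfin : τ (Ioo (-(1 / 2 : ℝ)) (1 / 2)) ≠ ⊤ := by
    rw [hval]
    have hsub : Sh m ∩ {q | |ww q| < 1 / 2} ⊆ {q : ℝ × ℝ | |q.1 + q.2| < 1 / 2 ∧ |q.1 - q.2| < 1} := by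
      intro q hq
      refine window hm hq.1 (h := 1 / 2) (by norm_num) hq.2 ?_
      have hpow : (1 / 2 : ℝ) ^ m ≤ (1 / 2 : ℝ) ^ 3 :=
        pow_le_pow_of_le_one (by norm_num) (by norm_num) hm
      linarith
    exact ((measure_mono hsub).trans (h.bd (1 / 2) (by norm_num) (by norm_num))).trans_lt
      ENNReal.ofReal_lt_top |>.ne
  have hK : IsFiniteMeasureOnCompacts τ := ⟨fun K hK =>
    measure_lt_top_of_isCompact_of_isAddLeftInvariant (Ioo (-(1 / 2 : ℝ)) (1 / 2)) isOpen_Ioo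
      ⟨0, by norm_num⟩ hfin hK⟩
  obtain ⟨c, hc⟩ : ∃ c : ℝ≥0, τ = c • (volume : Measure ℝ) :=
    ⟨_, Measure.isAddLeftInvariant_eq_smul τ (volume : Measure ℝ)⟩
  refine ⟨c, fun r _ => ?_⟩
  rw [← hval, hc, Measure.smul_apply, Real.volume_Ioo, ENNReal.smul_def, smul_eq_mul]
  congr 2
  ring

/-- the estimate in the spacelike quadrant `b > 0 > c` -/
lemma core (h : PiHyp ν C) (η : ℝ) (hη : 0 < η) : ∃ σ : ℝ, 0 < σ ∧ ∀ d : ℝ, 0 < d →
    ν {q : ℝ × ℝ | 0 < q.1 ∧ q.2 < 0 ∧ ss q ≤ σ ∧ |ww q| * ss q < d} ≤ ENNReal.ofReal (η * d) := by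
  choose c hc using fun j : ℕ => exists_const h (m := j + 3) (by omega)
  set f : ℕ → ℝ := fun j => (c j : ℝ) * 2 ^ j with hf
  have hf0 : ∀ j, 0 ≤ f j := fun j => by positivity
  have hJ : ∀ J : ℕ, ∑ j ∈ Finset.range J, f j ≤ |C| / 2 := by
    intro J
    set e : ℝ := (1 / 2 : ℝ) ^ (J + 1) with he
    have he0 : 0 < e := by positivity
    have he1 : e < 1 := pow_lt_one₀ (by norm_num) (by norm_num) (by omega)
    have hmem : ∀ j ∈ Finset.range J,
        Sh (j + 3) ∩ {q | |ww q| < e * 2 ^ j} ⊆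
          {q : ℝ × ℝ | |q.1 + q.2| < e ∧ |q.1 - q.2| < 1} := by
      intro j hj q hq
      have hjJ : j < J := Finset.mem_range.1 hj
      refine window (by omega) hq.1 (h := e * 2 ^ j) ?_ hq.2 ?_
      · have h1 : e ≤ (1 / 2 : ℝ) ^ j :=
          pow_le_pow_of_le_one (by norm_num) (by norm_num) (by omega)
        calc e * 2 ^ j ≤ (1 / 2 : ℝ) ^ j * 2 ^ j := by gcongr
          _ = 1 := by rw [← mul_pow]; norm_num
      · have h2 : (1 / 2 : ℝ) ^ j * 2 ^ j = 1 := by rw [← mul_pow]; norm_num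
        calc 4 * (1 / 2 : ℝ) ^ (j + 3) * (e * 2 ^ j)
            = 1 / 2 * e * ((1 / 2 : ℝ) ^ j * 2 ^ j) := by ring
          _ = 1 / 2 * e := by rw [h2, mul_one]
          _ ≤ e := by linarith only [he0]
    have hsum : ∑ j ∈ Finset.range J, ν (Sh (j + 3) ∩ {q | |ww q| < e * 2 ^ j}) ≤
        ENNReal.ofReal (|C| * e) := by
      rw [← measure_biUnion_finset]
      · refine (measure_mono (iUnion₂_subset hmem)).trans ((h.bd e he0 he1).trans ?_)
        apply ENNReal.ofReal_le_ofReal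
        gcongr
        exact le_abs_self C
      · intro i _ j _ hij
        exact (Sh_disj (by omega)).mono inter_subset_left inter_subset_left
      · intro j _
        exact (Sh_meas _).inter (measurableSet_lt (ww_meas.abs) measurable_const)
    have hval : ∀ j ∈ Finset.range J, ν (Sh (j + 3) ∩ {q | |ww q| < e * 2 ^ j}) =
        ENNReal.ofReal (2 * e * f j) := by
      intro j _
      rw [hc j (e * 2 ^ j) (by positivity), ← ENNReal.ofReal_coe_nnreal,
        ← ENNReal.ofReal_mul (by positivity)]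
      congr 1
      simp only [hf]
      ring
    rw [Finset.sum_congr rfl hval, ← ENNReal.ofReal_sum_of_nonneg
      (fun j _ => mul_nonneg (by positivity) (hf0 j)),
      ENNReal.ofReal_le_ofReal_iff (by positivity), ← Finset.mul_sum] at hsum
    have : e * (2 * ∑ j ∈ Finset.range J, f j) ≤ e * |C| := by linarith
    have := le_of_mul_le_mul_left this he0
    linarith
  have hs : Summable f := summable_of_sum_range_le hf0 hJ
  have ht := tendsto_sum_nat_add f
  obtain ⟨j0, hj0⟩ := ((tendsto_order.1 ht).2 (η / 32) (by positivity)).exists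
  refine ⟨(1 / 2 : ℝ) ^ (j0 + 3), by positivity, fun d hd => ?_⟩
  have hsub : {q : ℝ × ℝ | 0 < q.1 ∧ q.2 < 0 ∧ ss q ≤ (1 / 2 : ℝ) ^ (j0 + 3) ∧
      |ww q| * ss q < d} ⊆
      ⋃ n : ℕ, Sh (n + j0 + 3) ∩ {q | |ww q| < d * 2 ^ (n + j0 + 4)} := by
    rintro q ⟨h1, h2, h3, h4⟩
    have hsq := ss_pos h1 h2
    have hσ : (0 : ℝ) < (1 / 2 : ℝ) ^ (j0 + 3) := by positivity
    obtain ⟨n, hn1, hn2⟩ := exists_nat_pow_near_of_lt_one (x := ss q / (1 / 2 : ℝ) ^ (j0 + 3))
      (y := (1 / 2 : ℝ)) (by positivity) ((div_le_one hσ).2 h3) (by norm_num) (by norm_num)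
    rw [lt_div_iff₀ hσ, ← pow_add, show n + 1 + (j0 + 3) = n + j0 + 3 + 1 by omega] at hn1
    rw [div_le_iff₀ hσ, ← pow_add, show n + (j0 + 3) = n + j0 + 3 by omega] at hn2
    refine mem_iUnion.2 ⟨n, ⟨h1, h2, hn1, hn2⟩, ?_⟩
    · show |ww q| < d * 2 ^ (n + j0 + 4)
      have h5 : (1 : ℝ) < ss q * 2 ^ (n + j0 + 4) := by
        calc (1 : ℝ) = (1 / 2 : ℝ) ^ (n + j0 + 3 + 1) * 2 ^ (n + j0 + 4) := by
              rw [show n + j0 + 3 + 1 = n + j0 + 4 by omega, ← mul_pow]
              norm_num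
          _ < _ := by gcongr
      by_contra hcon
      rw [not_lt] at hcon
      have h6 : d * 1 ≤ d * (ss q * 2 ^ (n + j0 + 4)) := by gcongr
      have h7 : d * 2 ^ (n + j0 + 4) * ss q ≤ |ww q| * ss q := by (clear * - hcon hsq; gcongr)
      have h8 : d * (ss q * 2 ^ (n + j0 + 4)) = d * 2 ^ (n + j0 + 4) * ss q := by ring
      linarith only [h4, h6, h7]
  refine (measure_mono hsub).trans ((measure_iUnion_le _).trans ?_)
  have hval : ∀ n : ℕ, ν (Sh (n + j0 + 3) ∩ {q | |ww q| < d * 2 ^ (n + j0 + 4)}) =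
      ENNReal.ofReal (32 * d * f (n + j0)) := by
    intro n
    rw [hc (n + j0) (d * 2 ^ (n + j0 + 4)) (by positivity), ← ENNReal.ofReal_coe_nnreal,
      ← ENNReal.ofReal_mul (by positivity)]
    congr 1
    simp only [hf]
    ring
  rw [tsum_congr hval, ← ENNReal.ofReal_tsum_of_nonneg (fun n => mul_nonneg (by positivity) (hf0 _))
    (((summable_nat_add_iff j0).2 hs).mul_left _), tsum_mul_left]
  apply ENNReal.ofReal_le_ofReal
  have : 32 * d * ∑' k : ℕ, f (k + j0) ≤ 32 * d * (η / 32) := by gcongr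
  linarith

lemma two_ss_le {q : ℝ × ℝ} (h1 : 0 < q.1) (h2 : q.2 < 0) : 2 * ss q ≤ |q.1 - q.2| := by
  rw [abs_of_pos (by linarith)]
  have h3 : ss q ≤ (q.1 - q.2) / 2 := by
    unfold ss
    rw [Real.sqrt_le_left (by linarith)]
    linarith only [sq_nonneg (q.1 + q.2)]
  linarith

lemma ww_mul_le {q : ℝ × ℝ} (h1 : 0 < q.1) (h2 : q.2 < 0) :
    |ww q| * ss q ≤ |q.1 + q.2| / 2 := by
  have hs := ss_pos h1 h2
  have e1 := exp1 h1 h2
  have e2 := exp2 h1 h2
  have e3 : q.1 + q.2 = ss q * (2 * Real.sinh (ww q)) := by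
    rw [Real.sinh_eq]
    linear_combination e1 - e2
  rw [e3, abs_mul, abs_of_pos hs, abs_mul, abs_two, Real.abs_sinh]
  have h3 : |ww q| ≤ Real.sinh |ww q| := Real.self_le_sinh_iff.2 (abs_nonneg _)
  nlinarith only [hs, h3]

lemma small_quad {q : ℝ × ℝ} {d : ℝ} (h1 : 0 < q.1) (h2 : q.2 < 0) (h3 : q.1 < d) (h4 : -d < q.2) :
    ss q < d ∧ |ww q| * ss q < d := by
  have hs := ss_pos h1 h2
  have hd : 0 < d := h1.trans h3
  have e1 := exp1 h1 h2
  have e2 := exp2 h1 h2
  constructor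
  · unfold ss
    rw [Real.sqrt_lt' hd]
    nlinarith
  · have h5 := Real.add_one_le_exp |ww q|
    have h6 : ss q * Real.exp |ww q| < d := by
      rcases abs_cases (ww q) with ⟨h, -⟩ | ⟨h, -⟩
      · rw [h, ← e1]
        exact h3
      · rw [h, ← e2]
        linarith
    nlinarith

/-! ### symmetries -/

lemma neg_meas : Measurable (fun q : ℝ × ℝ => ((-q.1, -q.2) : ℝ × ℝ)) := by fun_prop

lemma swap_meas : Measurable (fun q : ℝ × ℝ => ((q.2, q.1) : ℝ × ℝ)) := by fun_prop

lemma meas_set (d : ℝ) : MeasurableSet {q : ℝ × ℝ | |q.1 + q.2| < d ∧ |q.1 - q.2| < 1} := by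
  have h1 : MeasurableSet {q : ℝ × ℝ | |q.1 + q.2| < d} :=
    measurableSet_lt ((measurable_fst.add measurable_snd).abs) measurable_const
  have h2 : MeasurableSet {q : ℝ × ℝ | |q.1 - q.2| < 1} :=
    measurableSet_lt ((measurable_fst.sub measurable_snd).abs) measurable_const
  exact h1.inter h2

lemma hyp_neg (h : PiHyp ν C) :
    PiHyp (Measure.map (fun q : ℝ × ℝ => ((-q.1, -q.2) : ℝ × ℝ)) ν) C := by
  constructor
  · intro l hl
    rw [Measure.map_map (dil_meas l) neg_meas]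
    conv_rhs => rw [← h.inv l hl]
    rw [Measure.map_map neg_meas (dil_meas l)]
    congr 1
    ext q
    · simp
    · simp [neg_div]
  · intro d hd0 hd1
    rw [Measure.map_apply neg_meas (meas_set d)]
    refine le_trans (le_of_eq ?_) (h.bd d hd0 hd1)
    congr 1
    ext q
    simp only [mem_preimage, mem_ofPred_eq]
    rw [show -q.1 + -q.2 = -(q.1 + q.2) by ring, show -q.1 - -q.2 = -(q.1 - q.2) by ring,
      abs_neg, abs_neg]

lemma hyp_swap (h : PiHyp ν C) :
    PiHyp (Measure.map (fun q : ℝ × ℝ => ((q.2, q.1) : ℝ × ℝ)) ν) C := by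
  constructor
  · intro l hl
    rw [Measure.map_map (dil_meas l) swap_meas]
    conv_rhs => rw [← h.inv l⁻¹ (inv_pos.2 hl)]
    rw [Measure.map_map swap_meas (dil_meas l⁻¹)]
    congr 1
    ext q
    · simp [mul_comm]
    · simp [div_eq_mul_inv, mul_comm]
  · intro d hd0 hd1
    rw [Measure.map_apply swap_meas (meas_set d)]
    refine le_trans (le_of_eq ?_) (h.bd d hd0 hd1)
    congr 1
    ext q
    simp only [mem_preimage, mem_ofPred_eq]
    rw [add_comm, abs_sub_comm]

/-! ### axes -/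

lemma axis_meas (r : ℝ) : MeasurableSet {q : ℝ × ℝ | q.2 = 0 ∧ 0 ≤ q.1 ∧ q.1 < r} :=
  (measurableSet_eq_fun measurable_snd measurable_const).inter
    ((measurableSet_le measurable_const measurable_fst).inter
      (measurableSet_lt measurable_fst measurable_const))

lemma axis (h : PiHyp ν C) : ν {q : ℝ × ℝ | q.2 = 0 ∧ 0 ≤ q.1} = 0 := by
  have key : ∀ r : ℝ, 0 < r → ν {q : ℝ × ℝ | q.2 = 0 ∧ 0 ≤ q.1 ∧ q.1 < r} = 0 := by
    intro r hr
    have h1 : ∀ d : ℝ, 0 < d → d < 1 →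
        ν {q : ℝ × ℝ | q.2 = 0 ∧ 0 ≤ q.1 ∧ q.1 < r} ≤ ENNReal.ofReal (|C| * d) := by
      intro d hd0 hd1
      have hl : 0 < r / d := by positivity
      have e : ν {q : ℝ × ℝ | q.2 = 0 ∧ 0 ≤ q.1 ∧ q.1 < r} =
          ν {q : ℝ × ℝ | q.2 = 0 ∧ 0 ≤ q.1 ∧ q.1 < d} := by
        conv_lhs => rw [← h.inv _ hl]
        rw [Measure.map_apply (dil_meas _) (axis_meas r)]
        congr 1
        ext q
        simp only [mem_preimage, mem_ofPred_eq]
        have a1 : q.2 / (r / d) = 0 ↔ q.2 = 0 := by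
          rw [div_eq_zero_iff]
          exact ⟨fun h => h.resolve_right hl.ne', Or.inl⟩
        have a2 : 0 ≤ r / d * q.1 ↔ 0 ≤ q.1 := mul_nonneg_iff_of_pos_left hl
        have a3 : r / d * q.1 < r ↔ q.1 < d := by
          rw [div_mul_eq_mul_div, div_lt_iff₀ hd0]
          exact mul_lt_mul_iff_right₀ hr
        rw [a1, a2, a3]
      rw [e]
      refine (measure_mono ?_).trans ((h.bd d hd0 hd1).trans ?_)
      · rintro q ⟨b1, b2, b3⟩
        show |q.1 + q.2| < d ∧ |q.1 - q.2| < 1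
        rw [b1, add_zero, sub_zero, abs_of_nonneg b2]
        exact ⟨b3, b3.trans hd1⟩
      · apply ENNReal.ofReal_le_ofReal
        gcongr
        exact le_abs_self C
    have h2 : Tendsto (fun d : ℝ => ENNReal.ofReal (|C| * d)) (𝓝[>] 0) (𝓝 0) := by
      have : Tendsto (fun d : ℝ => ENNReal.ofReal (|C| * d)) (𝓝 0)
          (𝓝 (ENNReal.ofReal (|C| * 0))) :=
        (ENNReal.continuous_ofReal.comp (continuous_const.mul continuous_id)).tendsto 0
      rw [mul_zero, ENNReal.ofReal_zero] at this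
      exact this.mono_left nhdsWithin_le_nhds
    refine le_antisymm (ge_of_tendsto h2 ?_) zero_le
    filter_upwards [Ioo_mem_nhdsGT (show (0 : ℝ) < 1 by norm_num)] with d hd
    exact h1 d hd.1 hd.2
  have hsub : {q : ℝ × ℝ | q.2 = 0 ∧ 0 ≤ q.1} ⊆
      ⋃ n : ℕ, {q : ℝ × ℝ | q.2 = 0 ∧ 0 ≤ q.1 ∧ q.1 < n + 1} := by
    rintro q ⟨a1, a2⟩
    obtain ⟨n, hn⟩ := exists_nat_gt q.1
    exact mem_iUnion.2 ⟨n, a1, a2, by linarith⟩
  refine measure_mono_null hsub (measure_iUnion_null fun n => key _ (by positivity))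

lemma axes (h : PiHyp ν C) : ν {q : ℝ × ℝ | q.1 = 0 ∨ q.2 = 0} = 0 := by
  have hax : MeasurableSet {q : ℝ × ℝ | q.2 = 0 ∧ 0 ≤ q.1} :=
    (measurableSet_eq_fun measurable_snd measurable_const).inter
      (measurableSet_le measurable_const measurable_fst)
  have h1 := axis h
  have h2 := axis (hyp_neg h)
  rw [Measure.map_apply neg_meas hax] at h2
  have h3 := axis (hyp_swap h)
  rw [Measure.map_apply swap_meas hax] at h3
  have h4 := axis (hyp_neg (hyp_swap h))
  rw [Measure.map_apply neg_meas hax, Measure.map_apply swap_meas (neg_meas hax)] at h4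
  refine measure_mono_null ?_ (measure_union_null (measure_union_null h1 h2)
    (measure_union_null h3 h4))
  rintro q (hq | hq)
  · rcases le_total 0 q.2 with h | h
    · exact Or.inr (Or.inl ⟨hq, h⟩)
    · exact Or.inr (Or.inr ⟨by simp [hq], by simpa using h⟩)
  · rcases le_total 0 q.1 with h | h
    · exact Or.inl (Or.inl ⟨hq, h⟩)
    · exact Or.inl (Or.inr ⟨by simp [hq], by simpa using h⟩)

/-! ### timelike quadrant -/

lemma ico_pow {x : ℝ} (h0 : 0 < x) (h1 : x < 1) :
    ∃ i : ℕ, (1 / 2 : ℝ) ^ (i + 1) ≤ x ∧ x < (1 / 2 : ℝ) ^ i := by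
  classical
  have hex : ∃ n : ℕ, (1 / 2 : ℝ) ^ (n + 1) ≤ x := by
    obtain ⟨n, hn⟩ := exists_pow_lt_of_lt_one h0 (show (1 / 2 : ℝ) < 1 by norm_num)
    exact ⟨n, (pow_le_pow_of_le_one (by norm_num) (by norm_num) (Nat.le_succ n)).trans hn.le⟩
  refine ⟨Nat.find hex, Nat.find_spec hex, ?_⟩
  rcases Nat.eq_zero_or_pos (Nat.find hex) with h | h
  · rw [h, pow_zero]
    exact h1
  · have := Nat.find_min hex (m := Nat.find hex - 1) (by omega)
    rw [not_le, Nat.sub_add_cancel h] at this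
    exact this

lemma timelike (h : PiHyp ν C)
    (ht : ∀ η : ℝ, 0 < η → ∃ d₀ : ℝ, 0 < d₀ ∧ ∀ d : ℝ, 0 < d → d < d₀ →
      ν {q : ℝ × ℝ | (d / 2 ≤ q.1 ∧ q.1 < d) ∧ d / 2 ≤ q.2 ∧ q.2 < d} ≤ ENNReal.ofReal (η * d))
    (η : ℝ) (hη : 0 < η) : ∃ d₀ : ℝ, 0 < d₀ ∧ ∀ d : ℝ, 0 < d → d < d₀ →
      ν {q : ℝ × ℝ | (0 < q.1 ∧ q.1 < d) ∧ 0 < q.2 ∧ q.2 < d} ≤ ENNReal.ofReal (η * d) := by
  set r : ℝ := √(1 / 2) with hr
  have hr0 : 0 < r := by positivity
  have hr2 : r * r = 1 / 2 := Real.mul_self_sqrt (by norm_num)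
  have hr1 : r < 1 := by
    rw [hr, Real.sqrt_lt' one_pos]
    norm_num
  have hg : Summable (fun n : ℕ => r ^ n) := summable_geometric_of_lt_one hr0.le hr1
  have hS : Summable (fun p : ℕ × ℕ => r ^ p.1 * r ^ p.2) :=
    hg.mul_of_nonneg hg (fun n => by positivity) (fun n => by positivity)
  set K : ℝ := ∑' p : ℕ × ℕ, r ^ p.1 * r ^ p.2 with hK
  have hK0 : 0 ≤ K := tsum_nonneg fun p => by positivity
  obtain ⟨d₀, hd₀, hd⟩ := ht (η / (K + 1)) (by positivity)
  refine ⟨d₀, hd₀, fun d hd0 hd1 => ?_⟩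
  have hsub : {q : ℝ × ℝ | (0 < q.1 ∧ q.1 < d) ∧ 0 < q.2 ∧ q.2 < d} ⊆
      ⋃ p : ℕ × ℕ, {q : ℝ × ℝ | ((1 / 2 : ℝ) ^ (p.1 + 1) * d ≤ q.1 ∧ q.1 < (1 / 2 : ℝ) ^ p.1 * d) ∧
        (1 / 2 : ℝ) ^ (p.2 + 1) * d ≤ q.2 ∧ q.2 < (1 / 2 : ℝ) ^ p.2 * d} := by
    rintro q ⟨⟨a1, a2⟩, a3, a4⟩
    obtain ⟨i, i1, i2⟩ := ico_pow (x := q.1 / d) (by positivity) ((div_lt_one hd0).2 a2)
    obtain ⟨j, j1, j2⟩ := ico_pow (x := q.2 / d) (by positivity) ((div_lt_one hd0).2 a4)
    refine mem_iUnion.2 ⟨(i, j), ⟨?_, ?_⟩, ?_, ?_⟩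
    · exact (le_div_iff₀ hd0).1 i1
    · exact (div_lt_iff₀ hd0).1 i2
    · exact (le_div_iff₀ hd0).1 j1
    · exact (div_lt_iff₀ hd0).1 j2
  have hbox : ∀ p : ℕ × ℕ,
      ν {q : ℝ × ℝ | ((1 / 2 : ℝ) ^ (p.1 + 1) * d ≤ q.1 ∧ q.1 < (1 / 2 : ℝ) ^ p.1 * d) ∧
        (1 / 2 : ℝ) ^ (p.2 + 1) * d ≤ q.2 ∧ q.2 < (1 / 2 : ℝ) ^ p.2 * d} ≤
      ENNReal.ofReal (η / (K + 1) * d * (r ^ p.1 * r ^ p.2)) := by
    rintro ⟨i, j⟩
    simp only
    set e : ℝ := r ^ i * r ^ j * d with he
    have he0 : 0 < e := by positivity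
    have hed : e ≤ d := by
      have h1 : r ^ i ≤ 1 := pow_le_one₀ hr0.le hr1.le
      have h2 : r ^ j ≤ 1 := pow_le_one₀ hr0.le hr1.le
      calc e ≤ 1 * 1 * d := by
            rw [he]
            (clear * - h1 h2 hd0; gcongr)
        _ = d := by ring
    have hl : 0 < r ^ j / r ^ i := by positivity
    have hi2 : r ^ i * r ^ i = (1 / 2 : ℝ) ^ i := by rw [← mul_pow, hr2]
    have hj2 : r ^ j * r ^ j = (1 / 2 : ℝ) ^ j := by rw [← mul_pow, hr2]
    have hri : 0 < r ^ i := by positivity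
    have hrj : 0 < r ^ j := by positivity
    have hmeas : MeasurableSet {q : ℝ × ℝ | (e / 2 ≤ q.1 ∧ q.1 < e) ∧ e / 2 ≤ q.2 ∧ q.2 < e} :=
      ((measurableSet_le measurable_const measurable_fst).inter
        (measurableSet_lt measurable_fst measurable_const)).inter
        ((measurableSet_le measurable_const measurable_snd).inter
        (measurableSet_lt measurable_snd measurable_const))
    have heq : ν {q : ℝ × ℝ | ((1 / 2 : ℝ) ^ (i + 1) * d ≤ q.1 ∧ q.1 < (1 / 2 : ℝ) ^ i * d) ∧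
        (1 / 2 : ℝ) ^ (j + 1) * d ≤ q.2 ∧ q.2 < (1 / 2 : ℝ) ^ j * d} =
        ν {q : ℝ × ℝ | (e / 2 ≤ q.1 ∧ q.1 < e) ∧ e / 2 ≤ q.2 ∧ q.2 < e} := by
      conv_rhs => rw [← h.inv _ hl]
      rw [Measure.map_apply (dil_meas _) hmeas]
      congr 1
      ext q
      simp only [mem_preimage, mem_ofPred_eq]
      have c1 : e / 2 ≤ r ^ j / r ^ i * q.1 ↔ (1 / 2 : ℝ) ^ (i + 1) * d ≤ q.1 := by
        rw [div_mul_eq_mul_div, le_div_iff₀ hri, pow_succ, ← hi2, he]
        rw [show r ^ i * r ^ j * d / 2 * r ^ i = r ^ j * (r ^ i * r ^ i * (1 / 2) * d) by ring]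
        exact mul_le_mul_iff_right₀ hrj
      have c2 : r ^ j / r ^ i * q.1 < e ↔ q.1 < (1 / 2 : ℝ) ^ i * d := by
        rw [div_mul_eq_mul_div, div_lt_iff₀ hri, ← hi2, he]
        rw [show r ^ i * r ^ j * d * r ^ i = r ^ j * (r ^ i * r ^ i * d) by ring]
        exact mul_lt_mul_iff_right₀ hrj
      have c3 : e / 2 ≤ q.2 / (r ^ j / r ^ i) ↔ (1 / 2 : ℝ) ^ (j + 1) * d ≤ q.2 := by
        rw [div_div_eq_mul_div, le_div_iff₀ hrj, pow_succ, ← hj2, he]
        rw [show r ^ i * r ^ j * d / 2 * r ^ j = r ^ j * r ^ j * (1 / 2) * d * r ^ i by ring]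
        exact mul_le_mul_iff_left₀ hri
      have c4 : q.2 / (r ^ j / r ^ i) < e ↔ q.2 < (1 / 2 : ℝ) ^ j * d := by
        rw [div_div_eq_mul_div, div_lt_iff₀ hrj, ← hj2, he]
        rw [show r ^ i * r ^ j * d * r ^ j = r ^ j * r ^ j * d * r ^ i by ring]
        exact mul_lt_mul_iff_left₀ hri
      rw [c1, c2, c3, c4]
    rw [heq]
    refine (hd e he0 (hed.trans_lt hd1)).trans (le_of_eq ?_)
    congr 1
    rw [he]
    ring
  refine (measure_mono hsub).trans ((measure_iUnion_le _).trans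
    ((ENNReal.tsum_le_tsum hbox).trans ?_))
  rw [← ENNReal.ofReal_tsum_of_nonneg (fun p => by positivity) (hS.mul_left _), tsum_mul_left]
  apply ENNReal.ofReal_le_ofReal
  rw [← hK]
  calc η / (K + 1) * d * K = η * d * (K / (K + 1)) := by ring
    _ ≤ η * d * 1 := by
        gcongr
        rw [div_le_one (by positivity)]
        linarith
    _ = η * d := mul_one _

end

end PiAux

open _root_.QE.PiAux

/-- the measure of the spacelike corners is `o(d)` -/
theorem pi_spacelike {ν : Measure (ℝ × ℝ)} {C : ℝ} (h : PiHyp ν C) (η : ℝ) (hη : 0 < η) :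
    ∃ d₀ : ℝ, 0 < d₀ ∧ ∀ d : ℝ, 0 < d → d < d₀ →
      ν {q : ℝ × ℝ | (0 < q.1 ∧ q.1 < d) ∧ -d < q.2 ∧ q.2 < 0} ≤ ENNReal.ofReal (η * d) ∧
      ν {q : ℝ × ℝ | (-d < q.1 ∧ q.1 < 0) ∧ 0 < q.2 ∧ q.2 < d} ≤ ENNReal.ofReal (η * d) := by
  have key : ∀ μ : Measure (ℝ × ℝ), PiHyp μ C → ∃ d₀ : ℝ, 0 < d₀ ∧ ∀ d : ℝ, 0 < d → d < d₀ →
      μ {q : ℝ × ℝ | (0 < q.1 ∧ q.1 < d) ∧ -d < q.2 ∧ q.2 < 0} ≤ ENNReal.ofReal (η * d) := by
    intro μ hμ
    obtain ⟨σ, hσ, hb⟩ := core hμ η hη
    refine ⟨σ, hσ, fun d hd0 hd1 => (measure_mono ?_).trans (hb d hd0)⟩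
    rintro q ⟨⟨a1, a2⟩, a3, a4⟩
    obtain ⟨b1, b2⟩ := small_quad a1 a4 a2 a3
    exact ⟨a1, a4, (b1.trans hd1).le, b2⟩
  obtain ⟨d₁, h1, h1'⟩ := key ν h
  obtain ⟨d₂, h2, h2'⟩ := key _ (hyp_neg h)
  refine ⟨min d₁ d₂, lt_min h1 h2, fun d hd0 hd => ⟨h1' d hd0 (hd.trans_le (min_le_left _ _)), ?_⟩⟩
  have h3 := h2' d hd0 (hd.trans_le (min_le_right _ _))
  have hm : MeasurableSet {q : ℝ × ℝ | (0 < q.1 ∧ q.1 < d) ∧ -d < q.2 ∧ q.2 < 0} :=
    ((measurableSet_lt measurable_const measurable_fst).inter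
      (measurableSet_lt measurable_fst measurable_const)).inter
      ((measurableSet_lt measurable_const measurable_snd).inter
      (measurableSet_lt measurable_snd measurable_const))
  rw [Measure.map_apply neg_meas hm] at h3
  refine (measure_mono ?_).trans h3
  rintro q ⟨⟨a1, a2⟩, a3, a4⟩
  show (0 < -q.1 ∧ -q.1 < d) ∧ -d < -q.2 ∧ -q.2 < 0
  exact ⟨⟨by linarith, by linarith⟩, by linarith, by linarith⟩

/-- if the timelike boxes have measure `o(d)`, then the measure of `{|b + c| < d, |b - c| < ε}` is at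
most `η d` for a suitable `ε` and all small `d` -/
theorem pi_main {ν : Measure (ℝ × ℝ)} {C : ℝ} (h : PiHyp ν C)
    (ht : ∀ η : ℝ, 0 < η → ∃ d₀ : ℝ, 0 < d₀ ∧ ∀ d : ℝ, 0 < d → d < d₀ →
      ν {q : ℝ × ℝ | (d / 2 ≤ q.1 ∧ q.1 < d) ∧ d / 2 ≤ q.2 ∧ q.2 < d} ≤ ENNReal.ofReal (η * d) ∧
      ν {q : ℝ × ℝ | (d / 2 ≤ -q.1 ∧ -q.1 < d) ∧ d / 2 ≤ -q.2 ∧ -q.2 < d} ≤
        ENNReal.ofReal (η * d))
    (η : ℝ) (hη : 0 < η) : ∃ ε : ℝ, 0 < ε ∧ ∃ d₀ : ℝ, 0 < d₀ ∧ ∀ d : ℝ, 0 < d → d < d₀ →
      ν {q : ℝ × ℝ | |q.1 + q.2| < d ∧ |q.1 - q.2| < ε} ≤ ENNReal.ofReal (η * d) := by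
  have hn := hyp_neg h
  obtain ⟨σ₁, hσ₁, s1⟩ := core h (η / 4) (by positivity)
  obtain ⟨σ₂, hσ₂, s2⟩ := core hn (η / 4) (by positivity)
  obtain ⟨d₁, hd₁, t1⟩ := timelike h (fun η hη => by
    obtain ⟨d₀, a, b⟩ := ht η hη
    exact ⟨d₀, a, fun d hd0 hd => (b d hd0 hd).1⟩) (η / 4) (by positivity)
  obtain ⟨d₂, hd₂, t2⟩ := timelike hn (fun η hη => by
    obtain ⟨d₀, a, b⟩ := ht η hη
    refine ⟨d₀, a, fun d hd0 hd => ?_⟩
    have hm : MeasurableSet {q : ℝ × ℝ | (d / 2 ≤ q.1 ∧ q.1 < d) ∧ d / 2 ≤ q.2 ∧ q.2 < d} :=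
      ((measurableSet_le measurable_const measurable_fst).inter
        (measurableSet_lt measurable_fst measurable_const)).inter
        ((measurableSet_le measurable_const measurable_snd).inter
        (measurableSet_lt measurable_snd measurable_const))
    rw [Measure.map_apply neg_meas hm]
    exact (b d hd0 hd).2) (η / 4) (by positivity)
  refine ⟨min σ₁ σ₂, lt_min hσ₁ hσ₂, min d₁ d₂, lt_min hd₁ hd₂, fun d hd0 hd => ?_⟩
  have s1' := s1 d hd0
  have s2' := s2 d hd0
  have t1' := t1 d hd0 (hd.trans_le (min_le_left _ _))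
  have t2' := t2 d hd0 (hd.trans_le (min_le_right _ _))
  have hm1 : MeasurableSet {q : ℝ × ℝ | 0 < q.1 ∧ q.2 < 0 ∧ ss q ≤ σ₂ ∧ |ww q| * ss q < d} :=
    (measurableSet_lt measurable_const measurable_fst).inter
      ((measurableSet_lt measurable_snd measurable_const).inter
      ((measurableSet_le ss_meas measurable_const).inter
      (measurableSet_lt (ww_meas.abs.mul ss_meas) measurable_const)))
  have hm2 : MeasurableSet {q : ℝ × ℝ | (0 < q.1 ∧ q.1 < d) ∧ 0 < q.2 ∧ q.2 < d} :=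
    ((measurableSet_lt measurable_const measurable_fst).inter
      (measurableSet_lt measurable_fst measurable_const)).inter
      ((measurableSet_lt measurable_const measurable_snd).inter
      (measurableSet_lt measurable_snd measurable_const))
  rw [Measure.map_apply neg_meas hm1] at s2'
  rw [Measure.map_apply neg_meas hm2] at t2'
  have hax := axes h
  have hsub : {q : ℝ × ℝ | |q.1 + q.2| < d ∧ |q.1 - q.2| < min σ₁ σ₂} ⊆
      (({q : ℝ × ℝ | 0 < q.1 ∧ q.2 < 0 ∧ ss q ≤ σ₁ ∧ |ww q| * ss q < d} ∪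
      (fun q : ℝ × ℝ => ((-q.1, -q.2) : ℝ × ℝ)) ⁻¹'
        {q : ℝ × ℝ | 0 < q.1 ∧ q.2 < 0 ∧ ss q ≤ σ₂ ∧ |ww q| * ss q < d}) ∪
      ({q : ℝ × ℝ | (0 < q.1 ∧ q.1 < d) ∧ 0 < q.2 ∧ q.2 < d} ∪
      (fun q : ℝ × ℝ => ((-q.1, -q.2) : ℝ × ℝ)) ⁻¹'
        {q : ℝ × ℝ | (0 < q.1 ∧ q.1 < d) ∧ 0 < q.2 ∧ q.2 < d})) ∪
      {q : ℝ × ℝ | q.1 = 0 ∨ q.2 = 0} := by
    rintro q ⟨a1, a2⟩
    have a1' := abs_lt.1 a1
    rcases lt_trichotomy q.1 0 with x | x | x
    · rcases lt_trichotomy q.2 0 with y | y | y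
      · refine Or.inl (Or.inr (Or.inr ?_))
        show (0 < -q.1 ∧ -q.1 < d) ∧ 0 < -q.2 ∧ -q.2 < d
        exact ⟨⟨by linarith, by linarith⟩, by linarith, by linarith⟩
      · exact Or.inr (Or.inr y)
      · refine Or.inl (Or.inl (Or.inr ?_))
        have x' : 0 < ((-q.1, -q.2) : ℝ × ℝ).1 := by
          show 0 < -q.1
          linarith
        have y' : ((-q.1, -q.2) : ℝ × ℝ).2 < 0 := by
          show -q.2 < 0
          linarith
        have b1 := two_ss_le x' y'
        have b2 := ww_mul_le x' y'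
        have b3 := ss_pos x' y'
        refine ⟨x', y', ?_, ?_⟩
        · have : |(-q.1) - (-q.2)| = |q.1 - q.2| := by
            rw [show (-q.1) - (-q.2) = -(q.1 - q.2) by ring, abs_neg]
          simp only [this] at b1
          have := a2.trans_le (min_le_right σ₁ σ₂)
          linarith
        · have : |(-q.1) + (-q.2)| = |q.1 + q.2| := by
            rw [show (-q.1) + (-q.2) = -(q.1 + q.2) by ring, abs_neg]
          simp only [this] at b2
          have := abs_nonneg (q.1 + q.2)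
          linarith
    · exact Or.inr (Or.inl x)
    · rcases lt_trichotomy q.2 0 with y | y | y
      · refine Or.inl (Or.inl (Or.inl ?_))
        have b1 := two_ss_le x y
        have b2 := ww_mul_le x y
        have b3 := ss_pos x y
        have := a2.trans_le (min_le_left σ₁ σ₂)
        have := abs_nonneg (q.1 + q.2)
        exact ⟨x, y, by linarith, by linarith⟩
      · exact Or.inr (Or.inr y)
      · refine Or.inl (Or.inr (Or.inl ?_))
        exact ⟨⟨x, by linarith⟩, y, by linarith⟩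
  refine (measure_mono hsub).trans ((measure_union_le _ _).trans ?_)
  rw [hax, add_zero]
  refine (measure_union_le _ _).trans ((add_le_add (measure_union_le _ _)
    (measure_union_le _ _)).trans ((add_le_add (add_le_add s1' s2') (add_le_add t1' t2')).trans
    (le_of_eq ?_)))
  rw [← ENNReal.ofReal_add (by positivity) (by positivity),
    ← ENNReal.ofReal_add (by positivity) (by positivity)]
  congr 1
  ring

end QE


end

section

/-!
# The timelike part vanishes (module QH_E3 of MP_4fa179_mp), and Theorem N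
-/

open MeasureTheory Filter Topology Set
open UpperHalfPlane hiding I
open scoped ContDiff MatrixGroups ENNReal

namespace QE

noncomputable section

variable [MeasurableSpace SL(2, ℝ)] [BorelSpace SL(2, ℝ)]
variable {Γ : Subgroup SL(2, ℝ)} {D : Set ℍ} {μ : Measure SL(2, ℝ)} {p : ℍ → ℝ}

theorem FlowMeas.piHyp [Countable Γ] [SFinite μ] (hμ : FlowMeas Γ D μ p)
    (hD : IsFundamentalDomain Γ D (volume : Measure ℍ)) (hDm : MeasurableSet D) :
    ∃ C : ℝ, PiHyp (nuP D μ) C := by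
  obtain ⟨C, _, hC⟩ := hμ.nuP_bound hD hDm
  exact ⟨C, fun l hl => hμ.nuP_inv hD hl, hC⟩

/-- the spacelike part -/
theorem FlowMeas.spaceW [Countable Γ] [SFinite μ] (hμ : FlowMeas Γ D μ p)
    (hD : IsFundamentalDomain Γ D (volume : Measure ℍ)) (hDm : MeasurableSet D) {σ : ℝ}
    (hσ : σ = 1 ∨ σ = -1) (η : ℝ) (hη : 0 < η) :
    ∃ c₀ : ℝ, 0 < c₀ ∧ ∀ c : ℝ, 0 < c → c < c₀ →
      pairM D μ (SpaceW σ c) ≤ ENNReal.ofReal (η * c) := by
  obtain ⟨C, hC⟩ := hμ.piHyp hD hDm
  obtain ⟨c₀, hc₀, h⟩ := pi_spacelike hC (η / 4) (by positivity)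
  refine ⟨c₀, hc₀, fun c hc hcc => ?_⟩
  set E : Set (ℝ × ℝ) := {q | (0 < σ * q.1 ∧ σ * q.1 < c) ∧ -c < σ * q.2 ∧ σ * q.2 < 0} with hE
  have m1 : Measurable fun q : ℝ × ℝ => σ * q.1 := by fun_prop
  have m2 : Measurable fun q : ℝ × ℝ => σ * q.2 := by fun_prop
  have hEm : MeasurableSet E :=
    ((measurableSet_lt measurable_const m1).inter (measurableSet_lt m1 measurable_const)).inter
    ((measurableSet_lt measurable_const m2).inter (measurableSet_lt m2 measurable_const))
  have hEb : nuP D μ E ≤ ENNReal.ofReal (η / 4 * c) := by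
    rcases hσ with rfl | rfl
    · refine le_trans (measure_mono ?_) (h c hc hcc).1
      rintro q ⟨⟨h1, h2⟩, h3, h4⟩
      exact ⟨⟨by linarith, by linarith⟩, by linarith, by linarith⟩
    · refine le_trans (measure_mono ?_) (h c hc hcc).2
      rintro q ⟨⟨h1, h2⟩, h3, h4⟩
      exact ⟨⟨by linarith, by linarith⟩, by linarith, by linarith⟩
  have hsub : SpaceW σ c ⊆ Win (0 + -2) (4 * 1 + -2) E := by
    rintro g ⟨h0, h1, h2, h3, h4, h5, h6, h7⟩
    have hlog4 : Real.log 4 < 2 := by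
      rw [Real.log_lt_iff_lt_exp (by norm_num)]
      have h8 : Real.exp 2 = Real.exp 1 * Real.exp 1 := by
        rw [← Real.exp_add]
        norm_num
      have := Real.exp_one_gt_d9
      nlinarith
    have hr : g 0 0 / g 1 1 ≤ 4 := by rwa [div_le_iff₀ h1]
    have hr' : 1 / 4 ≤ g 0 0 / g 1 1 := by
      rw [le_div_iff₀ h1]
      linarith
    refine ⟨h0, h1, ?_, ?_, ⟨h4, h5⟩, h6, h7⟩
    · have h8 := Real.log_le_log (by norm_num) hr'
      rw [one_div, Real.log_inv] at h8
      linarith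
    · have h8 := Real.log_le_log (div_pos h0 h1) hr
      linarith
  calc pairM D μ (SpaceW σ c) ≤ pairM D μ (Win (0 + -2) (4 * 1 + -2) E) := measure_mono hsub
    _ = pairM D μ (Win 0 (((4 : ℕ) : ℝ) * 1) E) := by
        rw [hμ.Win_shift hD 0 (4 * 1) (-2) hEm]
        norm_num
    _ = (4 : ℕ) * pairM D μ (Win 0 1 E) := hμ.Win_mul hD hEm zero_le_one 4
    _ = ENNReal.ofReal 4 * nuP D μ E := by
        rw [nuP_apply hEm]
        norm_num
    _ ≤ ENNReal.ofReal 4 * ENNReal.ofReal (η / 4 * c) := by gcongr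
    _ = ENNReal.ofReal (η * c) := by
        rw [← ENNReal.ofReal_mul (by norm_num)]
        congr 1
        ring

omit [MeasurableSpace SL(2, ℝ)] [BorelSpace SL(2, ℝ)] in
theorem BoxT_subset {σ d : ℝ} (hσ : σ = 1 ∨ σ = -1) (hd : 0 < d) (hd1 : d ≤ 1 / 10) :
    BoxT σ d ⊆ BallZ d := by
  intro g hg
  have hσ2 : σ ^ 2 = 1 := by rcases hσ with rfl | rfl <;> norm_num
  obtain ⟨a1, a2, e1, e2⟩ := box_bd hσ2 hd hd1 hg
  obtain ⟨hb, hc⟩ := box_abs hσ hg
  exact ⟨by linarith only [a1], by linarith only [e1], by linarith, by linarith only [a1, e2], by linarith only [hd, hb], by linarith⟩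

omit [BorelSpace SL(2, ℝ)] in
/-- tails of the density -/
theorem FlowMeas0.tail (hμ : FlowMeas0 Γ D μ p) {ε : ℝ} (hε : 0 < ε) :
    ∃ R : ℕ, 0 < R ∧ ∫⁻ z in D, ENNReal.ofReal (p z - R) ^ 2 ≤ ENNReal.ofReal ε := by
  have hlim : Tendsto (fun n : ℕ => ∫⁻ z in D, ENNReal.ofReal (p z - n) ^ 2) atTop
      (𝓝 (∫⁻ z in D, 0)) := by
    refine tendsto_lintegral_of_dominated_convergence (fun z => ENNReal.ofReal (p z) ^ 2)
      (fun n => ?_) (fun n => ?_) ?_ ?_
    · exact ((hμ.pmeas.sub_const _).ennreal_ofReal).pow_const 2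
    · refine ae_of_all _ fun z => ?_
      simp only
      gcongr
      have : (0 : ℝ) ≤ n := Nat.cast_nonneg n
      linarith
    · have h := hμ.psq_ne_top
      have e : ∀ z, ENNReal.ofReal (p z) ^ 2 = ENNReal.ofReal (p z ^ 2) :=
        fun z => (ENNReal.ofReal_pow (hμ.pnonneg z) 2).symm
      simp only [e]
      exact h
    · refine ae_of_all _ fun z => ?_
      refine tendsto_const_nhds.congr' ?_
      obtain ⟨N, hN⟩ := exists_nat_ge (p z)
      filter_upwards [eventually_ge_atTop N] with n hn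
      have : (N : ℝ) ≤ n := by exact_mod_cast hn
      rw [ENNReal.ofReal_of_nonpos (by linarith)]
      simp
  rw [lintegral_zero] at hlim
  have h2 : ∀ᶠ n : ℕ in atTop, ∫⁻ z in D, ENNReal.ofReal (p z - n) ^ 2 < ENNReal.ofReal ε :=
    hlim.eventually_lt_const (ENNReal.ofReal_pos.2 hε)
  obtain ⟨n, hn, hn1⟩ := (h2.and (eventually_ge_atTop 1)).exists
  exact ⟨n, hn1, hn.le⟩

/-- the bound for the exceptional points -/
theorem FlowMeas.exceptional [Countable Γ] [SFinite μ] (hμ : FlowMeas Γ D μ p)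
    (hD : IsFundamentalDomain Γ D (volume : Measure ℍ)) (hDm : MeasurableSet D) (R : ℕ)
    {d : ℝ} (hd : 0 < d) (hd1 : d ≤ 1 / 10) (l : ℝ≥0∞) (hl : l ≠ 0) (hl' : l ≠ ⊤) :
    ∫⁻ v in Berry.Fd D, (if μ ((fun w => v⁻¹ * w) ⁻¹' BallZ d) ≤
        ENNReal.ofReal (2 * (50000 * R) * d) then 0 else μ ((fun w => v⁻¹ * w) ⁻¹' BallZ d)) ∂μ ≤
      ENNReal.ofReal (100000 * d) * (l * ∫⁻ z in D, ENNReal.ofReal (p z) ^ 2) +
      ENNReal.ofReal (100000 * d) * (l⁻¹ * ∫⁻ z in D, ENNReal.ofReal (p z - R) ^ 2) := by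
  set q : ℍ → ℝ≥0∞ := fun z => ENNReal.ofReal (p z - R) with hq
  have hqm : Measurable q := (hμ.pmeas.sub_const _).ennreal_ofReal
  have hqi : ∀ γ ∈ Γ, ∀ z, q (γ • z) = q z := by
    intro γ hγ z
    simp only [hq, hμ.pinv γ hγ z]
  have h10 : 10 * d ≤ 1 := by linarith
  have h10' : 0 ≤ 10 * d := by positivity
  set Φ : ℍ → ℝ≥0∞ := fun z => ∫⁻ w in Metric.ball z (10 * d), q w with hΦ
  have hΦm : Measurable Φ := ball_meas hqm _
  have hmass : ∀ v : SL(2, ℝ), μ ((fun w => v⁻¹ * w) ⁻¹' BallZ d) ≤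
      ENNReal.ofReal (50000 * R * d) + ENNReal.ofReal (5 / d) * Φ (v • UpperHalfPlane.I) := by
    intro v
    refine (hμ.mass_ballZ v hd hd1).trans ?_
    have h1 : ∫⁻ z in Metric.ball (v • UpperHalfPlane.I) (10 * d), ENNReal.ofReal (p z) ≤
        ENNReal.ofReal R * ENNReal.ofReal (100 * (10 * d) ^ 2) + Φ (v • UpperHalfPlane.I) := by
      calc ∫⁻ z in Metric.ball (v • UpperHalfPlane.I) (10 * d), ENNReal.ofReal (p z)
          ≤ ∫⁻ z in Metric.ball (v • UpperHalfPlane.I) (10 * d), (ENNReal.ofReal R + q z) := by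
            apply lintegral_mono
            intro z
            simp only [hq]
            calc ENNReal.ofReal (p z) = ENNReal.ofReal (R + (p z - R)) := by
                  congr 1
                  ring
              _ ≤ _ := ENNReal.ofReal_add_le
        _ = ENNReal.ofReal R * volume (Metric.ball (v • UpperHalfPlane.I) (10 * d)) +
              Φ (v • UpperHalfPlane.I) := by
            rw [lintegral_add_left measurable_const, setLIntegral_const]
        _ ≤ _ := by
            gcongr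
            exact vol_ball_le _ h10' h10
    calc ENNReal.ofReal (5 / d) *
          ∫⁻ z in Metric.ball (v • UpperHalfPlane.I) (10 * d), ENNReal.ofReal (p z)
        ≤ ENNReal.ofReal (5 / d) * (ENNReal.ofReal R * ENNReal.ofReal (100 * (10 * d) ^ 2) +
            Φ (v • UpperHalfPlane.I)) := by gcongr
      _ = _ := by
          rw [mul_add, ← ENNReal.ofReal_mul (by positivity), ← ENNReal.ofReal_mul (by positivity)]
          congr 2
          field_simp
          ring
  have hpt : ∀ v : SL(2, ℝ), (if μ ((fun w => v⁻¹ * w) ⁻¹' BallZ d) ≤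
      ENNReal.ofReal (2 * (50000 * R) * d) then 0 else μ ((fun w => v⁻¹ * w) ⁻¹' BallZ d)) ≤
      ENNReal.ofReal (10 / d) * Φ (v • UpperHalfPlane.I) := by
    intro v
    have hm := hmass v
    generalize μ ((fun w => v⁻¹ * w) ⁻¹' BallZ d) = m at *
    have e2 : ENNReal.ofReal (2 * (50000 * R) * d) =
        ENNReal.ofReal (50000 * R * d) + ENNReal.ofReal (50000 * R * d) := by
      rw [← ENNReal.ofReal_add (by positivity) (by positivity)]
      congr 1
      ring
    have e3 : ENNReal.ofReal (10 / d) * Φ (v • UpperHalfPlane.I) =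
        ENNReal.ofReal (5 / d) * Φ (v • UpperHalfPlane.I) +
          ENNReal.ofReal (5 / d) * Φ (v • UpperHalfPlane.I) := by
      rw [← add_mul, ← ENNReal.ofReal_add (by positivity) (by positivity)]
      congr 2
      ring
    rw [e2, e3]
    generalize ENNReal.ofReal (5 / d) * Φ (v • UpperHalfPlane.I) = φ at *
    generalize ENNReal.ofReal (50000 * R * d) = b₀ at *
    split_ifs with h
    · exact zero_le
    · push Not at h
      rcases le_total b₀ φ with h1 | h1
      · exact hm.trans (by gcongr)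
      · exact absurd (lt_of_lt_of_le h (hm.trans (by gcongr))) (lt_irrefl _)
  calc _ ≤ ∫⁻ v in Berry.Fd D, ENNReal.ofReal (10 / d) * Φ (v • UpperHalfPlane.I) ∂μ :=
        lintegral_mono hpt
    _ = ENNReal.ofReal (10 / d) * ∫⁻ z in D, ENNReal.ofReal (p z) * Φ z := by
        rw [lintegral_const_mul' _ _ ENNReal.ofReal_ne_top]
        congr 1
        exact hμ.lintegral_proj hΦm hDm
    _ ≤ ENNReal.ofReal (10 / d) * (ENNReal.ofReal (100 * (10 * d) ^ 2) *
          (l * ∫⁻ z in D, ENNReal.ofReal (p z) ^ 2) +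
          ENNReal.ofReal (100 * (10 * d) ^ 2) * (l⁻¹ * ∫⁻ z in D, q z ^ 2)) := by
        gcongr
        exact bilin hD hμ.pm hqm hqi h10' h10 l hl hl'
    _ = _ := by
        rw [mul_add, ← mul_assoc, ← mul_assoc (ENNReal.ofReal (10 / d)),
          ← ENNReal.ofReal_mul (by positivity)]
        have : 10 / d * (100 * (10 * d) ^ 2) = 100000 * d := by
          field_simp
          ring
        rw [this]

/-- **The timelike part vanishes.** -/
theorem FlowMeas.boxT [Countable Γ] [SFinite μ] (hμ : FlowMeas Γ D μ p)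
    (hD : IsFundamentalDomain Γ D (volume : Measure ℍ)) (hDm : MeasurableSet D)
    (hfin : (volume : Measure ℍ) D ≠ ⊤) {σ : ℝ}
    (hσ : σ = 1 ∨ σ = -1) (η : ℝ) (hη : 0 < η) :
    ∃ d₀ : ℝ, 0 < d₀ ∧ ∀ d : ℝ, 0 < d → d < d₀ →
      pairM D μ (BoxT σ d) ≤ ENNReal.ofReal (η * d) := by
  -- the constants
  set A : ℝ≥0∞ := ∫⁻ z in D, ENNReal.ofReal (p z) ^ 2 with hA
  have hAt : A ≠ ⊤ := by
    have h := hμ.psq_ne_top
    have e : ∀ z, ENNReal.ofReal (p z) ^ 2 = ENNReal.ofReal (p z ^ 2) :=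
      fun z => (ENNReal.ofReal_pow (hμ.pnonneg z) 2).symm
    rw [hA]
    simp only [e]
    exact h
  set m : ℝ≥0∞ := μ (Berry.Fd D) with hm
  have hmt : m ≠ ⊤ := hμ.fd_ne_top hDm hfin
  set l : ℝ := η / (400000 * (A.toReal + 1)) with hl
  have hA0 : 0 ≤ A.toReal := ENNReal.toReal_nonneg
  have hl0 : 0 < l := by positivity
  obtain ⟨R, hR, hRt⟩ := hμ.tail (ε := η * l / 400000) (by positivity)
  set n : ℕ := ⌈4 * (2 * (50000 * (R : ℝ))) * m.toReal / η⌉₊ + 1 with hn
  have hn0 : (0 : ℝ) < n := by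
    rw [hn]
    positivity
  have hm0 : 0 ≤ m.toReal := ENNReal.toReal_nonneg
  have hnm : 2 * (50000 * (R : ℝ)) * m.toReal / n ≤ η / 4 := by
    rw [div_le_iff₀ hn0]
    have h1 : 4 * (2 * (50000 * (R : ℝ))) * m.toReal / η ≤ n := by
      rw [hn]
      push_cast
      linarith [Nat.le_ceil (4 * (2 * (50000 * (R : ℝ))) * m.toReal / η)]
    rw [div_le_iff₀ hη] at h1
    linarith only [h1]
  set κ : ℝ := 2 * Real.exp (n * 2) with hκ
  have hκ0 : 0 < κ := by positivity
  obtain ⟨c₀, hc₀, hsp⟩ := hμ.spaceW hD hDm hσ (η / (4 * n * κ)) (by (clear * - hη; positivity))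
  refine ⟨min (1 / 10) (min (c₀ / κ) (1 / (10 * Real.exp (n * 2)))), by positivity, ?_⟩
  intro d hd hdd
  have hd1 : d ≤ 1 / 10 := (hdd.trans_le (min_le_left _ _)).le
  have hd2 : κ * d < c₀ := by
    have := hdd.trans_le ((min_le_right _ _).trans (min_le_left _ _))
    rw [lt_div_iff₀ hκ0] at this
    linarith only [this]
  have hd3 : Real.exp (n * 2) * d ^ 2 ≤ 1 / 10 := by
    have h1 := (hdd.trans_le ((min_le_right _ _).trans (min_le_right _ _))).le
    rw [le_div_iff₀ (by positivity)] at h1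
    have h2 : 0 < Real.exp (n * 2) := Real.exp_pos _
    have h3 : Real.exp (n * 2) * d ^ 2 = (d * (10 * Real.exp (n * 2))) * (d / 10) := by ring
    rw [h3]
    calc (d * (10 * Real.exp (n * 2))) * (d / 10) ≤ 1 * (1 / 10) := by
          apply mul_le_mul h1 _ (by positivity) (by norm_num)
          linarith only [hd1]
      _ = 1 / 10 := by norm_num
  -- the functions
  set L : ℝ≥0∞ := ENNReal.ofReal (2 * (50000 * R) * d) with hLdef
  have hR' : (0 : ℝ) < R := by exact_mod_cast hR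
  have hL0 : L ≠ 0 := by
    rw [hLdef]
    exact (ENNReal.ofReal_pos.2 (by positivity)).ne'
  have hLt : L ≠ ⊤ := ENNReal.ofReal_ne_top
  have hXm := BoxT_meas σ d
  have hZm := BallZ_meas d
  set f : SL(2, ℝ) → ℝ≥0∞ := fun v =>
    if μ ((fun w => v⁻¹ * w) ⁻¹' BallZ d) ≤ L then μ ((fun w => v⁻¹ * w) ⁻¹' BoxT σ d) else 0
    with hf
  have hfm : Measurable f :=
    Measurable.ite (measurableSet_le (mass_meas hZm) measurable_const) (mass_meas hXm)
      measurable_const
  have hXZ : ∀ v : SL(2, ℝ), μ ((fun w => v⁻¹ * w) ⁻¹' BoxT σ d) ≤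
      μ ((fun w => v⁻¹ * w) ⁻¹' BallZ d) := fun v =>
    measure_mono (preimage_mono (BoxT_subset hσ hd hd1))
  have hfL : ∀ g, f g ≤ L := by
    intro g
    simp only [hf]
    split_ifs with h
    · exact (hXZ g).trans h
    · exact zero_le
  have hfinv : ∀ γ ∈ Γ, ∀ g, f (γ * g) = f g := by
    intro γ hγ g
    simp only [hf, hμ.mass_inv hZm hγ g, hμ.mass_inv hXm hγ g]
  set I₁ := ∫⁻ g in Berry.Fd D, f g ∂μ with hI₁
  have hI₁t : I₁ ≠ ⊤ := by
    refine ne_top_of_le_ne_top (ENNReal.mul_ne_top hLt hmt) ?_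
    calc I₁ ≤ ∫⁻ g in Berry.Fd D, L ∂μ := lintegral_mono hfL
      _ = L * m := by rw [setLIntegral_const]
  -- correlations
  set P : ℝ≥0∞ := pairM D μ (SpaceW σ (κ * d)) with hP
  have hPb : P ≤ ENNReal.ofReal (η / (4 * n * κ) * (κ * d)) := hsp _ (by positivity) hd2
  have hcor : ∀ k : ℕ, 0 < k → k < n →
      ∫⁻ g in Berry.Fd D, f g * f (g * aS (k * 2)) ∂μ ≤ L * P := by
    intro k hk hkn
    have hk1 : (1 : ℝ) ≤ k := by exact_mod_cast hk
    have hkn' : (k : ℝ) ≤ n := by exact_mod_cast hkn.le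
    have hek : Real.exp (k * 2) ≤ Real.exp (n * 2) := Real.exp_le_exp.2 (by linarith only [hkn'])
    set Y : Set SL(2, ℝ) := (fun g => aS (-(k * 2)) * g * aS (k * 2)) ⁻¹' BoxT σ d with hY
    have hYm : MeasurableSet Y := by
      have : Measurable fun g : SL(2, ℝ) => aS (-(k * 2)) * g * aS (k * 2) :=
        ((continuous_const_mul _).mul continuous_const).measurable
      exact this hXm
    have h1 := hμ.triple hD hXm hYm hZm (SpaceW_meas σ (κ * d))
      (fun g hg h hh => box_mul_inv hσ hd hd1 hg hh)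
      (fun g hg y hy => by
        have h2 := box_inv_mul hσ hd hd1 (s := k * 2) (by linarith only [hk1])
          ((mul_le_mul_of_nonneg_right hek (sq_nonneg d)).trans hd3) hg hy
        obtain ⟨a0, a1, a2, a3, a4, a5, a6, a7⟩ := h2
        have h3 : 2 * Real.exp (k * 2) * d ≤ κ * d := by
          rw [hκ]
          (clear * - hek hd; gcongr)
        exact ⟨a0, a1, a2, a3, a4, by linarith only [a5, h3], by linarith only [a6, h3], a7⟩) L
    refine le_trans (lintegral_mono fun v => ?_) h1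
    have h2 := hμ.shift_conj hXm v (k * 2)
    simp only [hf]
    split_ifs with h3 h4
    · rw [h2]
    · rw [mul_zero]
      exact zero_le
    · rw [zero_mul]
    · rw [zero_mul]
  have hav := hμ.averaging hD hfm hfinv hLt hfL n 2 hcor hI₁t
  -- the main part
  have hmain : I₁ ≤ ENNReal.ofReal (η / 4 * d + η / 4 * d) := by
    have h1 : (n * L) * I₁ ≤ (n * L) * ENNReal.ofReal (η / 4 * d + η / 4 * d) := by
      refine hav.trans ?_
      have h2 : (n : ℝ≥0∞) ^ 2 * (L * P) ≤ n * L * ENNReal.ofReal (η / 4 * d) := by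
        have h3 : (n : ℝ≥0∞) * P ≤ ENNReal.ofReal (η / 4 * d) := by
          calc (n : ℝ≥0∞) * P ≤ ENNReal.ofReal n * ENNReal.ofReal (η / (4 * n * κ) * (κ * d)) := by
                rw [ENNReal.ofReal_natCast]
                gcongr
            _ = ENNReal.ofReal (η / 4 * d) := by
                rw [← ENNReal.ofReal_mul hn0.le]
                congr 1
                field_simp
        calc (n : ℝ≥0∞) ^ 2 * (L * P) = n * L * (n * P) := by ring
          _ ≤ _ := by gcongr
      have h4 : L ^ 2 * m ≤ n * L * ENNReal.ofReal (η / 4 * d) := by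
        have h5 : L * m ≤ n * ENNReal.ofReal (η / 4 * d) := by
          rw [← ENNReal.ofReal_toReal hmt, hLdef, ← ENNReal.ofReal_mul (by positivity),
            ← ENNReal.ofReal_natCast, ← ENNReal.ofReal_mul hn0.le]
          apply ENNReal.ofReal_le_ofReal
          rw [div_le_iff₀ hn0] at hnm
          linarith only [mul_le_mul_of_nonneg_right hnm hd.le]
        calc L ^ 2 * m = L * (L * m) := by ring
          _ ≤ L * (n * ENNReal.ofReal (η / 4 * d)) := by gcongr
          _ = _ := by ring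
      calc (n : ℝ≥0∞) ^ 2 * (L * P) + L ^ 2 * m
          ≤ n * L * ENNReal.ofReal (η / 4 * d) + n * L * ENNReal.ofReal (η / 4 * d) :=
            add_le_add h2 h4
        _ = _ := by rw [← mul_add, ENNReal.ofReal_add (by positivity) (by positivity)]
    have hne : (n : ℝ≥0∞) * L ≠ 0 := mul_ne_zero (by
      intro h
      have : (n : ℝ) = 0 := by exact_mod_cast h
      linarith only [hn0, this]) hL0
    have hnt : (n : ℝ≥0∞) * L ≠ ⊤ := ENNReal.mul_ne_top (ENNReal.natCast_ne_top n) hLt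
    exact (ENNReal.mul_le_mul_iff_right hne hnt).1 h1
  -- the exceptional part
  have hexc := hμ.exceptional hD hDm R hd hd1 (ENNReal.ofReal l)
    (ENNReal.ofReal_pos.2 hl0).ne' ENNReal.ofReal_ne_top
  have hexc2 : ENNReal.ofReal (100000 * d) * (ENNReal.ofReal l * A) +
      ENNReal.ofReal (100000 * d) * ((ENNReal.ofReal l)⁻¹ *
        ∫⁻ z in D, ENNReal.ofReal (p z - R) ^ 2) ≤ ENNReal.ofReal (η / 4 * d + η / 4 * d) := by
    rw [ENNReal.ofReal_add (by positivity) (by positivity)]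
    apply add_le_add
    · rw [← ENNReal.ofReal_toReal hAt, ← ENNReal.ofReal_mul hl0.le,
        ← ENNReal.ofReal_mul (by positivity)]
      apply ENNReal.ofReal_le_ofReal
      have h1 : l * A.toReal ≤ η / 400000 := by
        rw [hl, div_mul_eq_mul_div, div_le_div_iff₀ (by positivity) (by positivity)]
        linarith only [hη]
      linarith only [mul_le_mul_of_nonneg_right h1 hd.le]
    · calc ENNReal.ofReal (100000 * d) * ((ENNReal.ofReal l)⁻¹ *
          ∫⁻ z in D, ENNReal.ofReal (p z - R) ^ 2)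
          ≤ ENNReal.ofReal (100000 * d) * (ENNReal.ofReal l⁻¹ *
            ENNReal.ofReal (η * l / 400000)) := by
            rw [ENNReal.ofReal_inv_of_pos hl0]
            gcongr
        _ = ENNReal.ofReal (η / 4 * d) := by
            rw [← ENNReal.ofReal_mul (by positivity), ← ENNReal.ofReal_mul (by positivity)]
            congr 1
            field_simp
            ring
  -- conclusion
  rw [pairM_apply hXm]
  unfold pairMass
  have hsplit : ∀ v : SL(2, ℝ), μ ((fun w => v⁻¹ * w) ⁻¹' BoxT σ d) ≤ f v +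
      (if μ ((fun w => v⁻¹ * w) ⁻¹' BallZ d) ≤ ENNReal.ofReal (2 * (50000 * R) * d) then 0
        else μ ((fun w => v⁻¹ * w) ⁻¹' BallZ d)) := by
    intro v
    simp only [hf]
    split_ifs with h
    · rw [add_zero]
    · rw [zero_add]
      exact hXZ v
  calc ∫⁻ v in Berry.Fd D, μ ((fun w => v⁻¹ * w) ⁻¹' BoxT σ d) ∂μ
      ≤ ∫⁻ v in Berry.Fd D, (f v +
        (if μ ((fun w => v⁻¹ * w) ⁻¹' BallZ d) ≤ ENNReal.ofReal (2 * (50000 * R) * d) then 0
          else μ ((fun w => v⁻¹ * w) ⁻¹' BallZ d))) ∂μ := lintegral_mono hsplit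
    _ = I₁ + _ := lintegral_add_left hfm _
    _ ≤ ENNReal.ofReal (η / 4 * d + η / 4 * d) + ENNReal.ofReal (η / 4 * d + η / 4 * d) :=
        add_le_add hmain (hexc.trans hexc2)
    _ = ENNReal.ofReal (η * d) := by
        rw [← ENNReal.ofReal_add (by positivity) (by positivity)]
        congr 1
        ring

/-- the timelike boxes, in the form needed by `pi_main` -/
theorem FlowMeas.timelike [Countable Γ] [SFinite μ] (hμ : FlowMeas Γ D μ p)
    (hD : IsFundamentalDomain Γ D (volume : Measure ℍ)) (hDm : MeasurableSet D)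
    (hfin : (volume : Measure ℍ) D ≠ ⊤) (η : ℝ) (hη : 0 < η) :
    ∃ d₀ : ℝ, 0 < d₀ ∧ ∀ d : ℝ, 0 < d → d < d₀ →
      nuP D μ {q : ℝ × ℝ | (d / 2 ≤ q.1 ∧ q.1 < d) ∧ d / 2 ≤ q.2 ∧ q.2 < d} ≤
        ENNReal.ofReal (η * d) ∧
      nuP D μ {q : ℝ × ℝ | (d / 2 ≤ -q.1 ∧ -q.1 < d) ∧ d / 2 ≤ -q.2 ∧ -q.2 < d} ≤
        ENNReal.ofReal (η * d) := by
  obtain ⟨d₁, hd₁, h1⟩ := hμ.boxT hD hDm hfin (σ := 1) (Or.inl rfl) η hη
  obtain ⟨d₂, hd₂, h2⟩ := hμ.boxT hD hDm hfin (σ := -1) (Or.inr rfl) η hη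
  refine ⟨min d₁ d₂, lt_min hd₁ hd₂, fun d hd hdd => ⟨?_, ?_⟩⟩
  · have hm : MeasurableSet {q : ℝ × ℝ | (d / 2 ≤ q.1 ∧ q.1 < d) ∧ d / 2 ≤ q.2 ∧ q.2 < d} :=
      ((measurableSet_le measurable_const measurable_fst).inter
        (measurableSet_lt measurable_fst measurable_const)).inter
      ((measurableSet_le measurable_const measurable_snd).inter
        (measurableSet_lt measurable_snd measurable_const))
    rw [nuP_apply hm]
    refine le_trans (measure_mono ?_) (h1 d hd (hdd.trans_le (min_le_left _ _)))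
    rintro g ⟨g1, g2, g3, g4, ⟨g5, g6⟩, g7, g8⟩
    simp only at g5 g6 g7 g8
    exact ⟨g1, g2, g3, g4, by linarith, by linarith, by linarith, by linarith⟩
  · have hm : MeasurableSet {q : ℝ × ℝ | (d / 2 ≤ -q.1 ∧ -q.1 < d) ∧ d / 2 ≤ -q.2 ∧ -q.2 < d} :=
      ((measurableSet_le measurable_const measurable_fst.neg).inter
        (measurableSet_lt measurable_fst.neg measurable_const)).inter
      ((measurableSet_le measurable_const measurable_snd.neg).inter
        (measurableSet_lt measurable_snd.neg measurable_const))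
    rw [nuP_apply hm]
    refine le_trans (measure_mono ?_) (h2 d hd (hdd.trans_le (min_le_right _ _)))
    rintro g ⟨g1, g2, g3, g4, ⟨g5, g6⟩, g7, g8⟩
    simp only at g5 g6 g7 g8
    exact ⟨g1, g2, g3, g4, by linarith, by linarith, by linarith, by linarith⟩

/-- **Theorem N.** -/
theorem FlowMeas.theoremN [Countable Γ] [SFinite μ] (hμ : FlowMeas Γ D μ p)
    (hD : IsFundamentalDomain Γ D (volume : Measure ℍ)) (hDm : MeasurableSet D)
    (hfin : (volume : Measure ℍ) D ≠ ⊤) (η : ℝ) (hη : 0 < η) :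
    ∃ ε : ℝ, 0 < ε ∧ ∃ d₀ : ℝ, 0 < d₀ ∧ ∀ d : ℝ, 0 < d → d < d₀ →
      pairMass D μ (Kset d ε) ≤ ENNReal.ofReal (η * d ^ 2) := by
  obtain ⟨C, hC⟩ := hμ.piHyp hD hDm
  obtain ⟨ε, hε, d₀, hd₀, h⟩ := pi_main hC (fun η hη => hμ.timelike hD hDm hfin η hη) (η / 16)
    (by positivity)
  refine ⟨min ε (1 / 8), by positivity, min d₀ (1 / 8), by positivity, fun d hd hdd => ?_⟩
  have hd8 : d ≤ 1 / 8 := (hdd.trans_le (min_le_right _ _)).le
  have h1 := hμ.Kset_le hD hd hd8 (ε := min ε (1 / 8)) (min_le_right _ _)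
  refine h1.trans ?_
  calc ENNReal.ofReal (16 * d) *
        nuP D μ {q : ℝ × ℝ | |q.1 + q.2| < d ∧ |q.1 - q.2| < min ε (1 / 8)}
      ≤ ENNReal.ofReal (16 * d) * ENNReal.ofReal (η / 16 * d) := by
        refine mul_le_mul' le_rfl (le_trans (measure_mono ?_)
          (h d hd (hdd.trans_le (min_le_left _ _))))
        rintro q ⟨q1, q2⟩
        exact ⟨q1, q2.trans_le (min_le_left _ _)⟩
    _ = ENNReal.ofReal (η * d ^ 2) := by
        rw [← ENNReal.ofReal_mul (by positivity)]
        congr 1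
        ring

end

end QE


end

section

/-!
# The measure on `SL(2, ℝ)` with given Fourier coefficients (module QH_D2)
-/

open MeasureTheory Filter Topology Set
open UpperHalfPlane hiding I
open scoped ContDiff MatrixGroups ENNReal NNReal Pointwise

namespace QE

noncomputable section

namespace FM

/-! ### Directions -/

lemma den_ne (g : SL(2, ℝ)) (z : ℍ) : den g (z : ℂ) ≠ 0 := by
  intro h
  have h1 := congrArg Complex.im h
  have h2 := congrArg Complex.re h
  simp only [den, Complex.add_im, Complex.mul_im, Complex.ofReal_re, Complex.ofReal_im, zero_mul,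
    add_zero, Complex.zero_im, Complex.add_re, Complex.mul_re, sub_zero, Complex.zero_re] at h1 h2
  have h3 : g 1 0 = 0 := by
    rcases mul_eq_zero.1 h1 with h | h
    · exact h
    · exact absurd h z.im_ne_zero
  rw [h3, zero_mul, zero_add] at h2
  have hdet := g.det_coe
  rw [Matrix.det_fin_two, h2, h3] at hdet
  norm_num at hdet

lemma smul_den (g : SL(2, ℝ)) (z : ℍ) :
    ((g • z : ℍ) : ℂ) * den g z = ((g 0 0 : ℝ) : ℂ) * z + ((g 0 1 : ℝ) : ℂ) := by
  rw [coe_specialLinearGroup_apply]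
  exact div_mul_cancel₀ _ (den_ne g z)

lemma den_mul (γ g : SL(2, ℝ)) (z : ℍ) :
    den (γ * g) z = den γ ((g • z : ℍ) : ℂ) * den g z := by
  have h := smul_den g z
  have e0 : (γ * g) 1 0 = γ 1 0 * g 0 0 + γ 1 1 * g 1 0 := by
    simp [Matrix.mul_apply, Fin.sum_univ_two]
  have e1 : (γ * g) 1 1 = γ 1 0 * g 0 1 + γ 1 1 * g 1 1 := by
    simp [Matrix.mul_apply, Fin.sum_univ_two]
  have e2 : den γ ((g • z : ℍ) : ℂ) * den g z
      = ((γ 1 0 : ℝ) : ℂ) * (((g • z : ℍ) : ℂ) * den g z) + ((γ 1 1 : ℝ) : ℂ) * den g z := by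
    rw [den]; ring
  rw [e2, h]
  simp only [den, e0, e1]
  push_cast
  ring

lemma norm_phase (g : SL(2, ℝ)) (z : ℍ) : ‖phase g z‖ = 1 := by
  have h := norm_pos_iff.2 (den_ne g z)
  simp only [phase, norm_pow, norm_div, RCLike.norm_conj, Complex.norm_real, norm_norm]
  rw [div_self h.ne', one_pow]

lemma phase_mul (γ g : SL(2, ℝ)) (z : ℍ) :
    phase (γ * g) z = phase γ ((g • z : ℍ) : ℂ) * phase g z := by
  simp only [phase, den_mul, map_mul, norm_mul, Complex.ofReal_mul]
  rw [← mul_pow, div_mul_div_comm]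

lemma norm_dirG (g : SL(2, ℝ)) : ‖dirG g‖ = 1 := by
  have h := norm_phase g UpperHalfPlane.I
  rw [UpperHalfPlane.coe_I] at h
  simp [dirG, h]

lemma dirG_ne (g : SL(2, ℝ)) : dirG g ≠ 0 := by
  intro h
  have := norm_dirG g
  rw [h] at this
  simp at this

lemma dirG_mul (γ g : SL(2, ℝ)) :
    dirG (γ * g) = phase γ ((g • UpperHalfPlane.I : ℍ) : ℂ) * dirG g := by
  have h := phase_mul γ g UpperHalfPlane.I
  rw [UpperHalfPlane.coe_I] at h
  simp only [dirG, h]
  ring

lemma dirG_neg (g : SL(2, ℝ)) : dirG (-g) = dirG g := by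
  have e : den (-g) Complex.I = - den g Complex.I := by
    simp only [den]
    have e0 : (-g) 1 0 = - g 1 0 := by simp
    have e1 : (-g) 1 1 = - g 1 1 := by simp
    rw [e0, e1]
    push_cast
    ring
  simp only [dirG, phase, e, map_neg, norm_neg, neg_div, neg_sq]

lemma continuous_dirG : Continuous dirG := by
  have h1 : Continuous fun g : SL(2, ℝ) => (g 1 0 : ℝ) := by fun_prop
  have h2 : Continuous fun g : SL(2, ℝ) => (g 1 1 : ℝ) := by fun_prop
  have h3 : Continuous fun g : SL(2, ℝ) => den g Complex.I := by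
    unfold den
    exact ((Complex.continuous_ofReal.comp h1).mul continuous_const).add
      (Complex.continuous_ofReal.comp h2)
  unfold dirG phase
  refine continuous_const.mul (Continuous.pow ?_ 2)
  refine (Complex.continuous_conj.comp h3).div (Complex.continuous_ofReal.comp h3.norm) ?_
  intro g
  have := den_ne g UpperHalfPlane.I
  rw [UpperHalfPlane.coe_I] at this
  simpa using this

lemma dirG_frame (z : ℍ) (θ : ℝ) :
    dirG (Berry.frame (z, θ)) = Complex.I * Complex.exp (-(2 * θ * Complex.I)) := by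
  have hy : 0 < Real.sqrt z.im := Real.sqrt_pos.2 z.im_pos
  have e : den (Berry.frame (z, θ)) Complex.I
      = Complex.exp (θ * Complex.I) / ((Real.sqrt z.im : ℝ) : ℂ) := by
    have e0 : (Berry.frame (z, θ)) 1 0 = Real.sin θ / Real.sqrt z.im := by
      simp [Berry.frame, Berry.rot, Matrix.mul_apply, Fin.sum_univ_two]
      ring
    have e1 : (Berry.frame (z, θ)) 1 1 = Real.cos θ / Real.sqrt z.im := by
      simp [Berry.frame, Berry.rot, Matrix.mul_apply, Fin.sum_univ_two]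
      ring
    simp only [den, e0, e1]
    rw [Complex.exp_mul_I]
    push_cast
    ring
  have hn : ‖den (Berry.frame (z, θ)) Complex.I‖ = 1 / Real.sqrt z.im := by
    rw [e, norm_div, Complex.norm_exp_ofReal_mul_I, Complex.norm_real, Real.norm_eq_abs,
      abs_of_pos hy]
  have hc : (starRingEnd ℂ) (den (Berry.frame (z, θ)) Complex.I)
      = Complex.exp (-(θ * Complex.I)) / ((Real.sqrt z.im : ℝ) : ℂ) := by
    rw [e, map_div₀, Complex.conj_ofReal, ← Complex.exp_conj, map_mul, Complex.conj_ofReal,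
      Complex.conj_I]
    congr 2
    ring
  simp only [dirG, phase]
  rw [hn, hc]
  have hy' : ((Real.sqrt z.im : ℝ) : ℂ) ≠ 0 := by exact_mod_cast hy.ne'
  congr 1
  rw [show Complex.exp (-(θ * Complex.I)) / ((Real.sqrt z.im : ℝ) : ℂ)
    / ((1 / Real.sqrt z.im : ℝ) : ℂ) = Complex.exp (-(θ * Complex.I)) by
      push_cast; field_simp]
  rw [← Complex.exp_nat_mul]
  congr 1
  push_cast
  ring

/-! ### Integrals over the circle -/

lemma conj_zpow {w : ℂ} (hw : ‖w‖ = 1) (k : ℤ) : (starRingEnd ℂ) (w ^ k) = w ^ (-k) := by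
  have h0 : w ≠ 0 := by intro h; rw [h] at hw; simp at hw
  rw [map_zpow₀, zpow_neg, ← inv_zpow]
  congr 1
  rw [Complex.inv_def, Complex.normSq_eq_norm_sq, hw]
  simp

lemma integral_dirG (z : ℍ) (k : ℤ) :
    ∫ θ in Ioc 0 (2 * Real.pi), dirG (Berry.frame (z, θ)) ^ k
      = if k = 0 then 2 * (Real.pi : ℂ) else 0 := by
  split_ifs with h
  · subst h
    simp only [zpow_zero]
    rw [integral_const]
    simp only [measureReal_restrict_apply_univ, Real.volume_real_Ioc, sub_zero]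
    rw [max_eq_left (by positivity)]
    simp
  · have e : ∀ θ : ℝ, dirG (Berry.frame (z, θ)) ^ k
        = Complex.I ^ k * Complex.exp ((-(2 * k * Complex.I)) * θ) := by
      intro θ
      rw [dirG_frame, mul_zpow, ← Complex.exp_int_mul]
      congr 2
      ring
    simp only [e]
    rw [integral_const_mul, ← intervalIntegral.integral_of_le (by positivity)]
    have hk : (-(2 * k * Complex.I) : ℂ) ≠ 0 := by
      simp only [ne_eq, neg_eq_zero, mul_eq_zero, OfNat.ofNat_ne_zero, Int.cast_eq_zero,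
        Complex.I_ne_zero, or_false, false_or]
      exact h
    rw [integral_exp_mul_complex hk]
    have e2 : Complex.exp (-(2 * k * Complex.I) * ((2 * Real.pi : ℝ) : ℂ)) = 1 := by
      rw [Complex.exp_eq_one_iff]
      exact ⟨-(2 * k), by push_cast; ring⟩
    rw [e2]
    simp

/-! ### From the plane to the upper half plane -/

lemma measurableSet_UH : MeasurableSet UH :=
  (isOpen_lt continuous_const Complex.continuous_im).measurableSet

lemma ae_H {P : ℂ → Prop} (h : ∀ᵐ z ∂((volume : Measure ℂ).restrict UH), P z) :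
    ∀ᵐ z : ℍ, P (z : ℂ) := by
  rw [ae_iff, volume_eq_lintegral]
  refine setLIntegral_measure_zero _ _ ?_
  rw [ae_iff, Measure.restrict_apply' measurableSet_UH] at h
  refine measure_mono_null ?_ h
  rintro _ ⟨z, hz, rfl⟩
  exact ⟨hz, z.im_pos⟩

lemma memLp_H {w : ℂ → ℂ} (hw : LocL2 UH w) {K : Set ℍ} (hK : IsCompact K) :
    MemLp (fun z : ℍ => w z) 2 ((volume : Measure ℍ).restrict K) := by
  have hKi : IsCompact (UpperHalfPlane.coe '' K) := hK.image continuous_coe
  have hKs : UpperHalfPlane.coe '' K ⊆ UH := by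
    rintro _ ⟨z, -, rfl⟩
    exact z.im_pos
  have h1 := hw _ hKi hKs
  have h2 : MemLp (fun z : ℍ => w z) 2 (((volume : Measure ℂ).comap UpperHalfPlane.coe).restrict
      K) := by
    have e : Measure.map UpperHalfPlane.coe (((volume : Measure ℂ).comap
        UpperHalfPlane.coe).restrict K) = volume.restrict (UpperHalfPlane.coe '' K) := by
      rw [measurableEmbedding_coe.restrict_comap, measurableEmbedding_coe.map_comap,
        Measure.restrict_restrict measurableEmbedding_coe.measurableSet_range]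
      congr 1
      rw [inter_eq_right]
      exact image_subset_range _ _
    rw [← e] at h1
    exact (measurableEmbedding_coe.memLp_map_measure_iff).1 h1
  set ρ : ℍ → ℝ≥0 := fun z => (1 / NNReal.mk z.im z.im_pos.le : ℝ≥0) ^ 2 with hρ
  have hρc : Continuous ρ := by
    refine .pow (.div₀ continuous_const ?_ ?_) _
    · exact continuous_im.subtype_mk _
    · exact fun x ↦ NNReal.ne_iff.mp x.im_ne_zero
  obtain ⟨C, hC⟩ := (hK.image hρc).bddAbove
  have h3 : (volume : Measure ℍ).restrict K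
      ≤ (C : ℝ≥0∞) • (((volume : Measure ℂ).comap UpperHalfPlane.coe).restrict K) := by
    rw [volume_def, restrict_withDensity hK.measurableSet, ← withDensity_const]
    refine withDensity_mono ?_
    rw [EventuallyLE, ae_restrict_iff' hK.measurableSet]
    refine Eventually.of_forall fun z hz => ?_
    exact_mod_cast hC (mem_image_of_mem _ hz)
  exact (h2.smul_measure ENNReal.coe_ne_top).mono_measure h3

lemma mob_coe (γ : SL(2, ℝ)) (z : ℍ) : mob γ (z : ℂ) = ((γ • z : ℍ) : ℂ) := by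
  rw [mob, ofComplex_apply]

/-! ### The approximating densities -/

/-- The (unnormalised) Fejer sum. -/
def FN (u : ℤ → ℂ → ℂ) (N : ℕ) (g : SL(2, ℝ)) : ℂ :=
  ∑ j ∈ Finset.range N, ∑ l ∈ Finset.range N,
    u ((j : ℤ) - l) ((g • UpperHalfPlane.I : ℍ) : ℂ) * dirG g ^ ((j : ℤ) - l)

lemma continuous_dirG_zpow (k : ℤ) : Continuous fun g => dirG g ^ k :=
  continuous_dirG.zpow₀ k fun g => Or.inl (dirG_ne g)

lemma norm_dirG_zpow (g : SL(2, ℝ)) (k : ℤ) : ‖dirG g ^ k‖ = 1 := by
  rw [norm_zpow, norm_dirG, one_zpow]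

lemma count (N : ℕ) (k : ℤ) (a : ℂ) : ∑ j ∈ Finset.range N, ∑ l ∈ Finset.range N,
    (if (j : ℤ) - l = k then a else 0) = ((N - k.natAbs : ℕ) : ℂ) * a := by
  rcases le_total 0 k with hk | hk
  · rw [Finset.sum_comm]
    have e : ∀ l ∈ Finset.range N, ∑ j ∈ Finset.range N, (if (j : ℤ) - l = k then a else 0)
        = if l < N - k.natAbs then a else 0 := by
      intro l hl
      rw [Finset.mem_range] at hl
      have e1 : ∀ j : ℕ, ((j : ℤ) - l = k) = (j = l + k.natAbs) := by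
        intro j
        apply propext
        omega
      simp only [e1]
      rw [Finset.sum_ite_eq']
      congr 1
      rw [Finset.mem_range]
      apply propext
      omega
    rw [Finset.sum_congr rfl e, ← Finset.sum_filter, Finset.sum_const, nsmul_eq_mul]
    congr 2
    have : (Finset.range N).filter (fun l => l < N - k.natAbs) = Finset.range (N - k.natAbs) := by
      ext l
      simp only [Finset.mem_filter, Finset.mem_range]
      omega
    rw [this, Finset.card_range]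
  · have e : ∀ l ∈ Finset.range N, ∑ j ∈ Finset.range N, (if (l : ℤ) - j = k then a else 0)
        = if l < N - k.natAbs then a else 0 := by
      intro l hl
      rw [Finset.mem_range] at hl
      have e1 : ∀ j : ℕ, ((l : ℤ) - j = k) = (j = l + k.natAbs) := by
        intro j
        apply propext
        omega
      simp only [e1]
      rw [Finset.sum_ite_eq']
      congr 1
      rw [Finset.mem_range]
      apply propext
      omega
    rw [Finset.sum_congr rfl e, ← Finset.sum_filter, Finset.sum_const, nsmul_eq_mul]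
    congr 2
    have : (Finset.range N).filter (fun l => l < N - k.natAbs) = Finset.range (N - k.natAbs) := by
      ext l
      simp only [Finset.mem_filter, Finset.mem_range]
      omega
    rw [this, Finset.card_range]

variable [MeasurableSpace SL(2, ℝ)] [BorelSpace SL(2, ℝ)]

lemma integral_nuF {G : SL(2, ℝ) → ℂ} (hG : Integrable G Berry.nuF) :
    ∫ g, G g ∂Berry.nuF = ∫ z : ℍ, ∫ θ in Ioc 0 (2 * Real.pi), G (Berry.frame (z, θ)) := by
  unfold Berry.nuF at hG ⊢
  rw [integral_map Berry.frame_measurable.aemeasurable hG.1]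
  have h2 : Integrable (fun q => G (Berry.frame q)) Berry.pf :=
    (integrable_map_measure hG.1 Berry.frame_measurable.aemeasurable).1 hG
  unfold Berry.pf at h2 ⊢
  rw [integral_prod _ h2]

section fam

variable {Γ : Subgroup SL(2, ℝ)} {u : ℤ → ℂ → ℂ}

lemma measurable_u (hu : LimFam0 Γ u) (k : ℤ) :
    Measurable fun g : SL(2, ℝ) => u k ((g • UpperHalfPlane.I : ℍ) : ℂ) :=
  (hu.meas k).comp (measurable_coe.comp Berry.proj_measurable)

lemma measurable_FN (hu : LimFam0 Γ u) (N : ℕ) : Measurable (FN u N) := by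
  unfold FN
  refine Finset.measurable_fun_sum _ fun j _ => Finset.measurable_fun_sum _ fun l _ => ?_
  exact (measurable_u hu _).mul (continuous_dirG_zpow _).measurable

omit [MeasurableSpace SL(2, ℝ)] [BorelSpace SL(2, ℝ)] in
lemma integrableOn_u (hu : LimFam0 Γ u) (k : ℤ) {K : Set ℍ} (hK : IsCompact K) :
    IntegrableOn (fun z : ℍ => u k z) K volume := by
  have : IsFiniteMeasure ((volume : Measure ℍ).restrict K) :=
    ⟨by rw [Measure.restrict_apply_univ]; exact hK.measure_lt_top⟩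
  exact (memLp_H (hu.loc k) hK).integrable one_le_two

lemma integrable_u (hu : LimFam0 Γ u) (k : ℤ) {h : SL(2, ℝ) → ℂ} (hm : Measurable h) {C : ℝ}
    (hC : ∀ g, ‖h g‖ ≤ C) {K : Set ℍ} (hK : IsCompact K)
    (hs : ∀ g : SL(2, ℝ), g • UpperHalfPlane.I ∉ K → h g = 0) :
    Integrable (fun g => h g * u k ((g • UpperHalfPlane.I : ℍ) : ℂ)) Berry.nuF := by
  have h2 : Integrable (K.indicator fun z : ℍ => u k z) volume :=
    (integrable_indicator_iff hK.measurableSet).2 (integrableOn_u hu k hK)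
  have h3 : Integrable (fun g : SL(2, ℝ) => K.indicator (fun z : ℍ => u k z)
      (g • UpperHalfPlane.I)) Berry.nuF := by
    have h4 : Integrable (K.indicator fun z : ℍ => u k z)
        (Measure.map (fun g : SL(2, ℝ) => g • UpperHalfPlane.I) Berry.nuF) := by
      rw [Berry.map_proj]
      exact h2.smul_measure ENNReal.ofReal_ne_top
    exact (integrable_map_measure h4.1 Berry.proj_measurable.aemeasurable).1 h4
  refine (h3.bdd_mul (c := C) hm.aestronglyMeasurable (Eventually.of_forall hC)).congr ?_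
  refine Eventually.of_forall fun g => ?_
  by_cases hg : g • UpperHalfPlane.I ∈ K
  · simp only [indicator_of_mem hg]
  · simp only [indicator_of_notMem hg, hs g hg, zero_mul, mul_zero]

lemma integrable_FN (hu : LimFam0 Γ u) (N : ℕ) {h : SL(2, ℝ) → ℂ} (hm : Measurable h) {C : ℝ}
    (hC : ∀ g, ‖h g‖ ≤ C) {K : Set ℍ} (hK : IsCompact K)
    (hs : ∀ g : SL(2, ℝ), g • UpperHalfPlane.I ∉ K → h g = 0) :
    Integrable (fun g => h g * FN u N g) Berry.nuF := by
  simp only [FN, Finset.mul_sum]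
  refine integrable_finsetSum _ fun j _ => integrable_finsetSum _ fun l _ => ?_
  refine (integrable_u hu ((j : ℤ) - l) (h := fun g => h g * dirG g ^ ((j : ℤ) - l))
    (hm.mul (continuous_dirG_zpow _).measurable) (C := C) (fun g => ?_) hK
    fun g hg => by rw [hs g hg, zero_mul]).congr (Eventually.of_forall fun g => ?_)
  · rw [norm_mul, norm_dirG_zpow, mul_one]
    exact hC g
  · beta_reduce; ring

lemma coeff_term (hu : LimFam0 Γ u) (k m : ℤ) {ζ : ℍ → ℂ} (hζ : Measurable ζ) {C : ℝ}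
    (hC : ∀ z, ‖ζ z‖ ≤ C) {K : Set ℍ} (hK : IsCompact K) (hs : ∀ z ∉ K, ζ z = 0) :
    ∫ g, ζ (g • UpperHalfPlane.I) * (starRingEnd ℂ) (dirG g ^ k) *
      (u m ((g • UpperHalfPlane.I : ℍ) : ℂ) * dirG g ^ m) ∂Berry.nuF
      = if m = k then 2 * Real.pi * ∫ z : ℍ, ζ z * u k z else 0 := by
  have hc : Continuous fun g => (starRingEnd ℂ) (dirG g ^ k) * dirG g ^ m :=
    (Complex.continuous_conj.comp (continuous_dirG_zpow k)).mul (continuous_dirG_zpow m)
  have hint := integrable_u hu m (h := fun g => ζ (g • UpperHalfPlane.I) *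
    ((starRingEnd ℂ) (dirG g ^ k) * dirG g ^ m))
    ((hζ.comp Berry.proj_measurable).mul hc.measurable) (C := C) (fun g => ?_) hK
    fun g hg => by rw [hs _ hg, zero_mul]
  swap
  · rw [norm_mul, norm_mul, RCLike.norm_conj, norm_dirG_zpow, norm_dirG_zpow, mul_one, mul_one]
    exact hC _
  have e : ∀ g : SL(2, ℝ), ζ (g • UpperHalfPlane.I) * (starRingEnd ℂ) (dirG g ^ k) *
      (u m ((g • UpperHalfPlane.I : ℍ) : ℂ) * dirG g ^ m)
      = ζ (g • UpperHalfPlane.I) * ((starRingEnd ℂ) (dirG g ^ k) * dirG g ^ m) *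
        u m ((g • UpperHalfPlane.I : ℍ) : ℂ) := fun g => by ring
  simp only [e]
  rw [integral_nuF hint]
  have e2 : ∀ z : ℍ, ∫ θ in Ioc 0 (2 * Real.pi), ζ (Berry.frame (z, θ) • UpperHalfPlane.I) *
      ((starRingEnd ℂ) (dirG (Berry.frame (z, θ)) ^ k) * dirG (Berry.frame (z, θ)) ^ m) *
        u m ((Berry.frame (z, θ) • UpperHalfPlane.I : ℍ) : ℂ)
      = (if m - k = 0 then 2 * (Real.pi : ℂ) else 0) * (ζ z * u m z) := by
    intro z
    rw [← integral_dirG z (m - k), ← integral_mul_const]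
    refine integral_congr_ae (Eventually.of_forall fun θ => ?_)
    simp only
    rw [Berry.frame_smul_I, conj_zpow (norm_dirG _), sub_eq_add_neg,
      zpow_add₀ (dirG_ne _)]
    ring
  simp only [e2]
  rw [integral_const_mul]
  by_cases h : m = k
  · subst h
    simp
  · rw [if_neg (sub_ne_zero.2 h), if_neg h, zero_mul]

/-- The approximating functionals. -/
def J (u : ℤ → ℂ → ℂ) (N : ℕ) (f : SL(2, ℝ) → ℂ) : ℂ :=
  (2 * Real.pi * N : ℂ)⁻¹ * ∫ g, f g * FN u N g ∂Berry.nuF

lemma J_coeff (hu : LimFam0 Γ u) (N : ℕ) (k : ℤ) {ζ : ℍ → ℂ} (hζ : Measurable ζ) {C : ℝ}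
    (hC : ∀ z, ‖ζ z‖ ≤ C) {K : Set ℍ} (hK : IsCompact K) (hs : ∀ z ∉ K, ζ z = 0) :
    J u N (fun g => ζ (g • UpperHalfPlane.I) * (starRingEnd ℂ) (dirG g ^ k))
      = ((N - k.natAbs : ℕ) : ℂ) / N * ∫ z : ℍ, ζ z * u k z := by
  have hc : Continuous fun g => (starRingEnd ℂ) (dirG g ^ k) :=
    Complex.continuous_conj.comp (continuous_dirG_zpow k)
  have hint : ∀ m : ℤ, Integrable (fun g : SL(2, ℝ) => ζ (g • UpperHalfPlane.I) *
      (starRingEnd ℂ) (dirG g ^ k) * (u m ((g • UpperHalfPlane.I : ℍ) : ℂ) * dirG g ^ m))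
      Berry.nuF := by
    intro m
    have h1 := integrable_u hu m (h := fun g => ζ (g • UpperHalfPlane.I) *
      (starRingEnd ℂ) (dirG g ^ k) * dirG g ^ m)
      (((hζ.comp Berry.proj_measurable).mul hc.measurable).mul
        (continuous_dirG_zpow m).measurable) (C := C) (fun g => ?_) hK
      fun g hg => by rw [hs _ hg, zero_mul, zero_mul]
    · refine h1.congr (Eventually.of_forall fun g => ?_)
      beta_reduce
      ring
    · rw [norm_mul, norm_mul, RCLike.norm_conj, norm_dirG_zpow, norm_dirG_zpow, mul_one, mul_one]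
      exact hC _
  unfold J
  simp only [FN, Finset.mul_sum]
  rw [integral_finsetSum _ fun j _ => integrable_finsetSum _ fun l _ => hint _]
  have e : ∀ j ∈ Finset.range N, ∫ g, ∑ l ∈ Finset.range N, ζ (g • UpperHalfPlane.I) *
      (starRingEnd ℂ) (dirG g ^ k) * (u ((j : ℤ) - l) ((g • UpperHalfPlane.I : ℍ) : ℂ) *
        dirG g ^ ((j : ℤ) - l)) ∂Berry.nuF
      = ∑ l ∈ Finset.range N, if (j : ℤ) - l = k then 2 * Real.pi * ∫ z : ℍ, ζ z * u k z
        else 0 := by
    intro j _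
    rw [integral_finsetSum _ fun l _ => hint _]
    exact Finset.sum_congr rfl fun l _ => coeff_term hu k _ hζ hC hK hs
  rw [Finset.sum_congr rfl e, count]
  rcases eq_or_ne N 0 with hN | hN
  · subst hN
    simp
  · have h1 : (N : ℂ) ≠ 0 := by exact_mod_cast hN
    have h2 : (Real.pi : ℂ) ≠ 0 := by exact_mod_cast Real.pi_ne_zero
    field_simp

lemma ae_frame {P : SL(2, ℝ) → Prop} (hP : MeasurableSet {g | P g})
    (h : ∀ θ : ℝ, ∀ᵐ z : ℍ, P (Berry.frame (z, θ))) : ∀ᵐ g ∂Berry.nuF, P g := by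
  unfold Berry.nuF
  rw [ae_map_iff Berry.frame_measurable.aemeasurable hP, ae_iff]
  have hm : MeasurableSet {q : ℍ × ℝ | ¬ P (Berry.frame q)} :=
    (Berry.frame_measurable hP).compl
  unfold Berry.pf
  rw [Measure.prod_apply_symm hm, lintegral_eq_zero_iff (measurable_measure_prodMk_right hm)]
  exact Eventually.of_forall fun θ => ae_iff.1 (h θ)

lemma ae_proj {P : ℍ → Prop} (h : ∀ᵐ z : ℍ, P z) :
    ∀ᵐ g : SL(2, ℝ) ∂Berry.nuF, P (g • UpperHalfPlane.I) :=
  Berry.proj_qmp.ae h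

/-- The Fejer sums are nonnegative. -/
lemma FN_nonneg (hu : LimFam0 Γ u) (N : ℕ) : ∀ᵐ g ∂Berry.nuF, 0 ≤ (FN u N g).re := by
  refine ae_frame (measurableSet_le measurable_const
    (Complex.measurable_re.comp (measurable_FN hu N))) fun θ => ?_
  have hw : ‖Complex.I * Complex.exp (-(2 * θ * Complex.I))‖ = 1 := by
    rw [← dirG_frame UpperHalfPlane.I θ]
    exact norm_dirG _
  filter_upwards [ae_H (hu.pos N _ hw)] with z hz
  unfold FN
  simp only [Berry.frame_smul_I, dirG_frame]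
  exact hz

/-- The Fejer sums are real. -/
lemma FN_im (hu : LimFam0 Γ u) (N : ℕ) : ∀ᵐ g ∂Berry.nuF, (FN u N g).im = 0 := by
  have h : ∀ᵐ z : ℍ, ∀ k, u (-k) z = (starRingEnd ℂ) (u k z) :=
    ae_all_iff.2 fun k => by
      have h0 := ae_H (hu.conj k)
      exact h0
  filter_upwards [ae_proj h] with g hg
  rw [← Complex.conj_eq_iff_im]
  unfold FN
  rw [map_sum, Finset.sum_congr rfl fun j _ => map_sum _ _ _, Finset.sum_comm]
  refine Finset.sum_congr rfl fun j _ => Finset.sum_congr rfl fun l _ => ?_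
  rw [map_mul, conj_zpow (norm_dirG g), ← hg, neg_sub]

/-- The Fejer sums are invariant. -/
lemma FN_inv (hu : LimFam0 Γ u) (N : ℕ) {γ : SL(2, ℝ)} (hγ : γ ∈ Γ) :
    ∀ᵐ g ∂Berry.nuF, FN u N (γ * g) = FN u N g := by
  have h : ∀ᵐ z : ℍ, ∀ k, u k z = phase γ z ^ k * u k (mob γ z) :=
    ae_all_iff.2 fun k => by
      have h0 := ae_H (hu.equiv γ hγ k)
      exact h0
  filter_upwards [ae_proj h] with g hg
  unfold FN
  refine Finset.sum_congr rfl fun j _ => Finset.sum_congr rfl fun l _ => ?_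
  rw [hg, dirG_mul, mob_coe, mul_smul, mul_zpow]
  ring

omit [MeasurableSpace SL(2, ℝ)] [BorelSpace SL(2, ℝ)] in
lemma FN_neg (N : ℕ) (g : SL(2, ℝ)) : FN u N (-g) = FN u N g := by
  have h : (-g) • UpperHalfPlane.I = g • UpperHalfPlane.I := by
    apply UpperHalfPlane.ext
    have h1 := smul_den (-g) UpperHalfPlane.I
    have h2 := smul_den g UpperHalfPlane.I
    have e : den (-g) (UpperHalfPlane.I : ℍ) = - den g (UpperHalfPlane.I : ℍ) := by
      simp only [den]
      have e0 : (-g) 1 0 = - g 1 0 := by simp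
      have e1 : (-g) 1 1 = - g 1 1 := by simp
      rw [e0, e1]
      push_cast
      ring
    have e0 : (-g) 0 0 = - g 0 0 := by simp
    have e1 : (-g) 0 1 = - g 0 1 := by simp
    rw [e, e0, e1] at h1
    simp only [Complex.ofReal_neg] at h1
    have h3 : (((-g) • UpperHalfPlane.I : ℍ) : ℂ) * den g (UpperHalfPlane.I : ℍ)
        = ((g • UpperHalfPlane.I : ℍ) : ℂ) * den g (UpperHalfPlane.I : ℍ) := by
      linear_combination (-1 : ℂ) * h1 - h2
    exact mul_right_cancel₀ (den_ne g _) h3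
  unfold FN
  simp only [h, dirG_neg]

/-! ### Properties of the approximating functionals -/

lemma J_inv (hu : LimFam0 Γ u) (N : ℕ) {γ : SL(2, ℝ)} (hγ : γ ∈ Γ) (f : SL(2, ℝ) → ℂ) :
    J u N (fun g => f (γ * g)) = J u N f := by
  unfold J
  congr 1
  rw [← integral_mul_left_eq_self (fun g => f g * FN u N g) γ]
  refine integral_congr_ae ?_
  filter_upwards [FN_inv hu N hγ] with g hg
  rw [hg]

lemma J_neg (N : ℕ) (f : SL(2, ℝ) → ℂ) : J u N (fun g => f (-g)) = J u N f := by
  unfold J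
  congr 1
  rw [← integral_mul_left_eq_self (fun g => f g * FN u N g) (-1)]
  refine integral_congr_ae (Eventually.of_forall fun g => ?_)
  simp only [neg_mul, one_mul, FN_neg]

lemma J_real (hu : LimFam0 Γ u) (N : ℕ) (f : SL(2, ℝ) → ℝ) : J u N (fun g => (f g : ℂ))
    = (((2 * Real.pi * N)⁻¹ * ∫ g, f g * (FN u N g).re ∂Berry.nuF : ℝ) : ℂ) := by
  have e : ∫ g, (f g : ℂ) * FN u N g ∂Berry.nuF
      = ((∫ g, f g * (FN u N g).re ∂Berry.nuF : ℝ) : ℂ) := by
    rw [← integral_complex_ofReal]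
    refine integral_congr_ae ?_
    filter_upwards [FN_im hu N] with g hg
    apply Complex.ext
    · simp
    · simp [hg]
  unfold J
  rw [e]
  push_cast
  rfl

lemma J_re (hu : LimFam0 Γ u) (N : ℕ) {f : SL(2, ℝ) → ℝ} (h0 : ∀ g, 0 ≤ f g) :
    0 ≤ (J u N (fun g => (f g : ℂ))).re := by
  rw [J_real hu, Complex.ofReal_re]
  refine mul_nonneg (by positivity) (integral_nonneg_of_ae ?_)
  filter_upwards [FN_nonneg hu N] with g hg
  exact mul_nonneg (h0 g) hg

lemma J_im (hu : LimFam0 Γ u) (N : ℕ) (f : SL(2, ℝ) → ℝ) :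
    (J u N (fun g => (f g : ℂ))).im = 0 := by
  rw [J_real hu, Complex.ofReal_im]

lemma J_norm (hu : LimFam0 Γ u) (N : ℕ) {f : SL(2, ℝ) → ℂ} {C : ℝ}
    (hC : ∀ g, ‖f g‖ ≤ C) {K : Set ℍ} (hK : IsCompact K)
    (hs : ∀ g : SL(2, ℝ), g • UpperHalfPlane.I ∉ K → f g = 0) :
    ‖J u N f‖ ≤ C * ‖∫ z in K, u 0 z‖ := by
  have hC0 : 0 ≤ C := (norm_nonneg _).trans (hC 1)
  have h1 := J_coeff hu N 0 (ζ := K.indicator 1) (measurable_one.indicator hK.measurableSet)
    (C := 1) (fun z => by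
      by_cases hz : z ∈ K
      · simp [indicator_of_mem hz]
      · simp [indicator_of_notMem hz]) hK (fun z hz => indicator_of_notMem hz _)
  have e1 : ∫ z : ℍ, K.indicator (1 : ℍ → ℂ) z * u 0 z = ∫ z in K, u 0 z := by
    rw [← integral_indicator hK.measurableSet]
    refine integral_congr_ae (Eventually.of_forall fun z => ?_)
    by_cases hz : z ∈ K
    · simp [indicator_of_mem hz]
    · simp [indicator_of_notMem hz]
  have e2 : ∀ g : SL(2, ℝ), K.indicator (1 : ℍ → ℂ) (g • UpperHalfPlane.I) *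
      (starRingEnd ℂ) (dirG g ^ (0 : ℤ)) = K.indicator (1 : ℍ → ℂ) (g • UpperHalfPlane.I) := by
    intro g; simp
  rw [e1] at h1
  simp only [e2] at h1
  have h2 : ‖J u N f‖ ≤ C * ‖J u N fun g => K.indicator (1 : ℍ → ℂ) (g • UpperHalfPlane.I)‖ := by
    unfold J
    rw [norm_mul, norm_mul, mul_left_comm]
    refine mul_le_mul_of_nonneg_left ?_ (norm_nonneg _)
    have h3 : ∫ g : SL(2, ℝ), K.indicator (1 : ℍ → ℂ) (g • UpperHalfPlane.I) * FN u N g
        ∂Berry.nuF = ((∫ g : SL(2, ℝ), ‖K.indicator (1 : ℍ → ℂ) (g • UpperHalfPlane.I) *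
          FN u N g‖ ∂Berry.nuF : ℝ) : ℂ) := by
      rw [← integral_complex_ofReal]
      refine integral_congr_ae ?_
      filter_upwards [FN_im hu N, FN_nonneg hu N] with g hg hg'
      have e3 : FN u N g = (((FN u N g).re : ℝ) : ℂ) := Complex.ext (by simp) (by simp [hg])
      by_cases hz : g • UpperHalfPlane.I ∈ K
      · rw [indicator_of_mem hz, Pi.one_apply, one_mul, e3, Complex.norm_real,
          Real.norm_eq_abs, abs_of_nonneg (by simpa using hg')]
      · rw [indicator_of_notMem hz, zero_mul]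
        simp
    rw [h3, Complex.norm_real, Real.norm_eq_abs,
      abs_of_nonneg (integral_nonneg fun g => norm_nonneg _), ← integral_const_mul]
    refine (norm_integral_le_integral_norm _).trans ?_
    have h4 := integrable_FN hu N (h := fun g : SL(2, ℝ) =>
      K.indicator (1 : ℍ → ℂ) (g • UpperHalfPlane.I))
      ((measurable_one.indicator hK.measurableSet).comp Berry.proj_measurable) (C := 1)
      (fun g => by
        by_cases hz : g • UpperHalfPlane.I ∈ K
        · simp [indicator_of_mem hz]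
        · simp [indicator_of_notMem hz]) hK (fun g hg => indicator_of_notMem hg _)
    refine integral_mono_of_nonneg (Eventually.of_forall fun g => norm_nonneg _)
      (h4.norm.const_mul C) (Eventually.of_forall fun g => ?_)
    beta_reduce
    by_cases hz : g • UpperHalfPlane.I ∈ K
    · rw [indicator_of_mem hz, Pi.one_apply, one_mul, norm_mul]
      exact mul_le_mul_of_nonneg_right (hC g) (norm_nonneg _)
    · rw [hs g hz]
      simp only [zero_mul, norm_zero]
      positivity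
  refine h2.trans (mul_le_mul_of_nonneg_left ?_ hC0)
  rw [h1, norm_mul]
  refine mul_le_of_le_one_left (norm_nonneg _) ?_
  simp only [Int.natAbs_zero, tsub_zero]
  rw [norm_div]
  exact div_self_le_one _

omit [MeasurableSpace SL(2, ℝ)] [BorelSpace SL(2, ℝ)] in
lemma exists_K {f : SL(2, ℝ) → ℂ} (hc : Continuous f) (hs : HasCompactSupport f) :
    ∃ (C : ℝ) (K : Set ℍ), IsCompact K ∧ (∀ g, ‖f g‖ ≤ C) ∧
      ∀ g : SL(2, ℝ), g • UpperHalfPlane.I ∉ K → f g = 0 := by
  obtain ⟨C, hC⟩ := hc.bounded_above_of_compact_support hs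
  refine ⟨C, (fun g : SL(2, ℝ) => g • UpperHalfPlane.I) '' tsupport f,
    hs.isCompact.image (continuous_id.smul continuous_const), hC, fun g hg => ?_⟩
  by_contra h
  exact hg ⟨g, subset_tsupport _ h, rfl⟩

lemma J_add (hu : LimFam0 Γ u) (N : ℕ) {f f' : SL(2, ℝ) → ℂ} (hc : Continuous f)
    (hs : HasCompactSupport f) (hc' : Continuous f') (hs' : HasCompactSupport f') :
    J u N (fun g => f g + f' g) = J u N f + J u N f' := by
  obtain ⟨C, K, hK, h1, h2⟩ := exists_K hc hs
  obtain ⟨C', K', hK', h1', h2'⟩ := exists_K hc' hs'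
  unfold J
  rw [← mul_add, ← integral_add (integrable_FN hu N hc.measurable h1 hK h2)
    (integrable_FN hu N hc'.measurable h1' hK' h2')]
  simp only [add_mul]

omit [BorelSpace SL(2, ℝ)] in
lemma J_smul (N : ℕ) (c : ℂ) (f : SL(2, ℝ) → ℂ) :
    J u N (fun g => c * f g) = c * J u N f := by
  unfold J
  simp only [mul_assoc]
  rw [integral_const_mul]
  ring

/-! ### The limit -/

lemma exists_lim (hu : LimFam0 Γ u) {f : SL(2, ℝ) → ℂ} (hc : Continuous f)
    (hs : HasCompactSupport f) :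
    ∃ L : ℂ, Tendsto (fun N => J u N f) (hyperfilter ℕ : Filter ℕ) (𝓝 L) := by
  obtain ⟨C, K, hK, h1, h2⟩ := exists_K hc hs
  obtain ⟨L, -, hL⟩ := (isCompact_closedBall (0 : ℂ) (C * ‖∫ z in K, u 0 z‖)).ultrafilter_le_nhds
    ((hyperfilter ℕ).map fun N => J u N f) (by
      rw [Ultrafilter.coe_map]
      exact tendsto_principal.2 (Eventually.of_forall fun N =>
        mem_closedBall_zero_iff.2 (J_norm hu N h1 hK h2)))
  exact ⟨L, hL⟩

/-- The limit along an ultrafilter. -/
def Lim (u : ℤ → ℂ → ℂ) (f : SL(2, ℝ) → ℂ) : ℂ :=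
  limUnder (hyperfilter ℕ : Filter ℕ) (fun N => J u N f)

lemma tendsto_Lim (hu : LimFam0 Γ u) {f : SL(2, ℝ) → ℂ} (hc : Continuous f)
    (hs : HasCompactSupport f) :
    Tendsto (fun N => J u N f) (hyperfilter ℕ : Filter ℕ) (𝓝 (Lim u f)) :=
  tendsto_nhds_limUnder (exists_lim hu hc hs)

lemma Lim_eq (hu : LimFam0 Γ u) {f : SL(2, ℝ) → ℂ} (hc : Continuous f)
    (hs : HasCompactSupport f) {L : ℂ}
    (h : Tendsto (fun N => J u N f) (hyperfilter ℕ : Filter ℕ) (𝓝 L)) : Lim u f = L :=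
  tendsto_nhds_unique (tendsto_Lim hu hc hs) h

lemma Lim_add (hu : LimFam0 Γ u) {f f' : SL(2, ℝ) → ℂ} (hc : Continuous f)
    (hs : HasCompactSupport f) (hc' : Continuous f') (hs' : HasCompactSupport f') :
    Lim u (fun g => f g + f' g) = Lim u f + Lim u f' := by
  refine Lim_eq hu (hc.add hc') (hs.add hs') ?_
  exact ((tendsto_Lim hu hc hs).add (tendsto_Lim hu hc' hs')).congr fun N =>
    (J_add hu N hc hs hc' hs').symm

lemma Lim_smul (hu : LimFam0 Γ u) (c : ℂ) {f : SL(2, ℝ) → ℂ} (hc : Continuous f)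
    (hs : HasCompactSupport f) : Lim u (fun g => c * f g) = c * Lim u f := by
  refine Lim_eq hu (continuous_const.mul hc) hs.mul_left ?_
  exact ((tendsto_Lim hu hc hs).const_mul c).congr fun N => (J_smul N c f).symm

lemma Lim_re (hu : LimFam0 Γ u) {f : SL(2, ℝ) → ℝ} (hc : Continuous fun g => (f g : ℂ))
    (hs : HasCompactSupport fun g => (f g : ℂ)) (h0 : ∀ g, 0 ≤ f g) :
    0 ≤ (Lim u (fun g => (f g : ℂ))).re :=
  ge_of_tendsto' ((Complex.continuous_re.tendsto _).comp (tendsto_Lim hu hc hs))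
    fun N => J_re hu N h0

lemma Lim_im (hu : LimFam0 Γ u) {f : SL(2, ℝ) → ℝ} (hc : Continuous fun g => (f g : ℂ))
    (hs : HasCompactSupport fun g => (f g : ℂ)) : (Lim u (fun g => (f g : ℂ))).im = 0 := by
  refine tendsto_nhds_unique ((Complex.continuous_im.tendsto _).comp (tendsto_Lim hu hc hs)) ?_
  refine tendsto_const_nhds.congr fun N => ?_
  exact (J_im hu N f).symm

omit [MeasurableSpace SL(2, ℝ)] [BorelSpace SL(2, ℝ)] in
lemma cc_ofReal (f : CompactlySupportedContinuousMap SL(2, ℝ) ℝ) :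
    Continuous (fun g => (f g : ℂ)) ∧ HasCompactSupport (fun g => (f g : ℂ)) :=
  ⟨Complex.continuous_ofReal.comp f.continuous,
    f.hasCompactSupport.comp_left (g := fun x : ℝ => (x : ℂ)) Complex.ofReal_zero⟩

open CompactlySupported in
/-- The limit functional. -/
def Lam (hu : LimFam0 Γ u) : C_c(SL(2, ℝ), ℝ) →ₚ[ℝ] ℝ where
  toFun f := (Lim u (fun g => (f g : ℂ))).re
  map_add' f f' := by
    have := Lim_add hu (cc_ofReal f).1 (cc_ofReal f).2 (cc_ofReal f').1 (cc_ofReal f').2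
    rw [← Complex.add_re, ← this]
    congr 3
    ext g
    simp
  map_smul' c f := by
    have := Lim_smul hu (c : ℂ) (cc_ofReal f).1 (cc_ofReal f).2
    rw [RingHom.id_apply, smul_eq_mul, ← Complex.re_ofReal_mul, ← this]
    congr 3
    ext g
    simp
  monotone' f f' h := by
    have h1 := Lim_re hu (cc_ofReal (f' - f)).1 (cc_ofReal (f' - f)).2 fun g => by
      simpa using h g
    have h2 := Lim_add hu (cc_ofReal (f' - f)).1 (cc_ofReal (f' - f)).2 (cc_ofReal f).1
      (cc_ofReal f).2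
    have h3 : (fun g => (((f' - f) g : ℝ) : ℂ) + ((f g : ℝ) : ℂ)) = fun g => ((f' g : ℝ) : ℂ) := by
      ext g
      simp
    rw [h3] at h2
    show (Lim u (fun g => (f g : ℂ))).re ≤ (Lim u (fun g => (f' g : ℂ))).re
    rw [h2, Complex.add_re]
    linarith

/-- The measure. -/
def mu (hu : LimFam0 Γ u) : Measure SL(2, ℝ) := RealRMK.rieszMeasure (Lam hu)

instance regular_mu (hu : LimFam0 Γ u) : (mu hu).Regular := RealRMK.regular_rieszMeasure _

open CompactlySupported in
lemma integral_mu_real (hu : LimFam0 Γ u) (f : C_c(SL(2, ℝ), ℝ)) :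
    ((∫ g, f g ∂(mu hu) : ℝ) : ℂ) = Lim u (fun g => (f g : ℂ)) := by
  have h := RealRMK.integral_rieszMeasure (Lam hu) f
  unfold mu
  rw [h]
  refine Complex.ext ?_ ?_
  · rfl
  · rw [Complex.ofReal_im, Lim_im hu (cc_ofReal f).1 (cc_ofReal f).2]

lemma integral_mu (hu : LimFam0 Γ u) {f : SL(2, ℝ) → ℂ} (hc : Continuous f)
    (hs : HasCompactSupport f) : ∫ g, f g ∂(mu hu) = Lim u f := by
  set f1 : CompactlySupportedContinuousMap SL(2, ℝ) ℝ :=
    ⟨⟨fun g => (f g).re, Complex.continuous_re.comp hc⟩,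
      hs.comp_left (g := Complex.re) Complex.zero_re⟩ with hf1
  set f2 : CompactlySupportedContinuousMap SL(2, ℝ) ℝ :=
    ⟨⟨fun g => (f g).im, Complex.continuous_im.comp hc⟩,
      hs.comp_left (g := Complex.im) Complex.zero_im⟩ with hf2
  have e : ∀ g, f g = (f1 g : ℂ) + Complex.I * (f2 g : ℂ) := by
    intro g
    show f g = ((f g).re : ℂ) + Complex.I * ((f g).im : ℂ)
    rw [mul_comm]
    exact (Complex.re_add_im _).symm
  have e' : f = fun g => (f1 g : ℂ) + Complex.I * (f2 g : ℂ) := funext e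
  have hc2 : Continuous fun g => Complex.I * (f2 g : ℂ) :=
    continuous_const.mul (cc_ofReal f2).1
  have hs2 : HasCompactSupport fun g => Complex.I * (f2 g : ℂ) := (cc_ofReal f2).2.mul_left
  rw [e', Lim_add hu (cc_ofReal f1).1 (cc_ofReal f1).2 hc2 hs2,
    Lim_smul hu Complex.I (cc_ofReal f2).1 (cc_ofReal f2).2, ← integral_mu_real,
    ← integral_mu_real, integral_add ((cc_ofReal f1).1.integrable_of_hasCompactSupport
      (cc_ofReal f1).2) (hc2.integrable_of_hasCompactSupport hs2), integral_const_mul,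
    integral_complex_ofReal, integral_complex_ofReal]

/-! ### Invariance -/

open CompactlySupported in
lemma map_mul_left (hu : LimFam0 Γ u) {γ : SL(2, ℝ)}
    (h : ∀ N (f : SL(2, ℝ) → ℂ), J u N (fun g => f (γ * g)) = J u N f) :
    Measure.map (fun g => γ * g) (mu hu) = mu hu := by
  have hreg : (Measure.map (fun g => γ * g) (mu hu)).Regular :=
    Measure.Regular.map (Homeomorph.mulLeft γ)
  refine Measure.ext_of_integral_eq_on_compactlySupported fun f => ?_
  have hm : Measurable fun g : SL(2, ℝ) => γ * g := (continuous_const_mul γ).measurable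
  have hfc : Continuous fun g => f g := f.continuous
  rw [integral_map hm.aemeasurable hfc.aestronglyMeasurable]
  have hc : Continuous fun g => (f (γ * g) : ℂ) :=
    (cc_ofReal f).1.comp (continuous_const_mul γ)
  have hs : HasCompactSupport fun g => (f (γ * g) : ℂ) :=
    (cc_ofReal f).2.comp_homeomorph (Homeomorph.mulLeft γ)
  have e : ((∫ g, f (γ * g) ∂(mu hu) : ℝ) : ℂ) = ((∫ g, f g ∂(mu hu) : ℝ) : ℂ) := by
    rw [← integral_complex_ofReal, ← integral_complex_ofReal, integral_mu hu hc hs,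
      integral_mu hu (cc_ofReal f).1 (cc_ofReal f).2]
    refine Lim_eq hu hc hs ?_
    refine (tendsto_Lim hu (cc_ofReal f).1 (cc_ofReal f).2).congr fun N => ?_
    exact (h N fun g => (f g : ℂ)).symm
  exact_mod_cast e

lemma mu_left (hu : LimFam0 Γ u) {γ : SL(2, ℝ)} (hγ : γ ∈ Γ) :
    Measure.map (fun g => γ * g) (mu hu) = mu hu :=
  map_mul_left hu fun N f => J_inv hu N hγ f

lemma mu_neg (hu : LimFam0 Γ u) : Measure.map (fun g => -g) (mu hu) = mu hu := by
  have h := map_mul_left hu (γ := -1) fun N f => by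
    simp only [neg_mul, one_mul]
    exact J_neg N f
  simpa only [neg_mul, one_mul] using h

/-! ### The coefficients -/

omit [MeasurableSpace SL(2, ℝ)] [BorelSpace SL(2, ℝ)] in
lemma tendsto_count (k : ℤ) (a : ℂ) :
    Tendsto (fun N : ℕ => ((N - k.natAbs : ℕ) : ℂ) / N * a) atTop (𝓝 a) := by
  have h1 : Tendsto (fun N : ℕ => ((1 : ℂ) - (k.natAbs : ℂ) / N) * a) atTop (𝓝 a) := by
    have := ((tendsto_const_nhds (x := (1 : ℂ))).sub
      (tendsto_const_div_atTop_nhds_zero_nat (k.natAbs : ℂ))).mul_const a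
    simpa using this
  refine h1.congr' ?_
  filter_upwards [eventually_ge_atTop (k.natAbs + 1)] with N hN
  have h2 : (N : ℂ) ≠ 0 := by
    have : N ≠ 0 := by omega
    exact_mod_cast this
  rw [Nat.cast_sub (by omega)]
  field_simp

omit [MeasurableSpace SL(2, ℝ)] [BorelSpace SL(2, ℝ)] in
lemma cs_proj {ζ : ℍ → ℂ} (hc : Continuous ζ) (hs : HasCompactSupport ζ) (k : ℤ) :
    Continuous (fun g : SL(2, ℝ) => ζ (g • UpperHalfPlane.I) *
      (starRingEnd ℂ) (dirG g ^ k)) ∧
    HasCompactSupport (fun g : SL(2, ℝ) => ζ (g • UpperHalfPlane.I) *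
      (starRingEnd ℂ) (dirG g ^ k)) := by
  refine ⟨(hc.comp (continuous_id.smul continuous_const)).mul
    (Complex.continuous_conj.comp (continuous_dirG_zpow k)), ?_⟩
  refine HasCompactSupport.intro (isProperMap_smul_I.isCompact_preimage hs.isCompact)
    fun g hg => ?_
  rw [image_eq_zero_of_notMem_tsupport hg, zero_mul]

/-- The Fourier coefficients of the measure. -/
lemma mu_coeff (hu : LimFam0 Γ u) (k : ℤ) {ζ : ℍ → ℂ} (hc : Continuous ζ)
    (hs : HasCompactSupport ζ) :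
    ∫ g, ζ (g • UpperHalfPlane.I) * (starRingEnd ℂ) (dirG g ^ k) ∂(mu hu)
      = ∫ z : ℍ, ζ z * u k z := by
  obtain ⟨h1, h2⟩ := cs_proj hc hs k
  obtain ⟨C, hC⟩ := hc.bounded_above_of_compact_support hs
  rw [integral_mu hu h1 h2]
  refine Lim_eq hu h1 h2 ?_
  have h3 := (tendsto_count k (∫ z : ℍ, ζ z * u k z)).mono_left Nat.hyperfilter_le_atTop
  refine h3.congr fun N => ?_
  exact (J_coeff hu N k hc.measurable hC hs.isCompact
    fun z hz => image_eq_zero_of_notMem_tsupport hz).symm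

/-! ### The density -/

/-- The good points. -/
def good (Γ : Subgroup SL(2, ℝ)) (u : ℤ → ℂ → ℂ) : Set ℍ :=
  {z | (∀ γ : Γ, (u 0 (((γ : SL(2, ℝ)) • z : ℍ) : ℂ)).re = (u 0 z).re) ∧ 0 ≤ (u 0 z).re}

/-- The density. -/
def dens (Γ : Subgroup SL(2, ℝ)) (u : ℤ → ℂ → ℂ) : ℍ → ℝ :=
  (good Γ u).indicator fun z => (u 0 z).re

omit [MeasurableSpace SL(2, ℝ)] [BorelSpace SL(2, ℝ)] in
lemma good_ae [Countable Γ] (hu : LimFam0 Γ u) : ∀ᵐ z : ℍ, z ∈ good Γ u := by
  have h1 : ∀ᵐ z : ℍ, ∀ γ : Γ, u 0 z = phase γ z ^ (0 : ℤ) * u 0 (mob γ z) :=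
    ae_all_iff.2 fun γ => by
      have h0 := ae_H (hu.equiv γ γ.2 0)
      exact h0
  filter_upwards [h1, ae_H hu.real] with z h h'
  refine ⟨fun γ => ?_, h'.1⟩
  rw [h γ, zpow_zero, one_mul, mob_coe]

omit [MeasurableSpace SL(2, ℝ)] [BorelSpace SL(2, ℝ)] in
lemma good_meas [Countable Γ] (hu : LimFam0 Γ u) : MeasurableSet (good Γ u) := by
  have hm : Measurable fun z : ℍ => (u 0 z).re :=
    Complex.measurable_re.comp ((hu.meas 0).comp measurable_coe)
  have e : good Γ u = (⋂ γ : Γ, {z : ℍ | (u 0 (((γ : SL(2, ℝ)) • z : ℍ) : ℂ)).re = (u 0 z).re})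
      ∩ {z : ℍ | 0 ≤ (u 0 z).re} := by
    ext z
    simp only [good, mem_ofPred_eq, mem_inter_iff, mem_iInter]
  rw [e]
  refine (MeasurableSet.iInter fun γ => measurableSet_eq_fun ?_ hm).inter
    (measurableSet_le measurable_const hm)
  exact hm.comp (continuous_const_smul (γ : SL(2, ℝ))).measurable

omit [MeasurableSpace SL(2, ℝ)] [BorelSpace SL(2, ℝ)] in
lemma good_smul {γ : SL(2, ℝ)} (hγ : γ ∈ Γ) {z : ℍ} (hz : z ∈ good Γ u) : γ • z ∈ good Γ u := by
  refine ⟨fun δ => ?_, ?_⟩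
  · rw [← mul_smul]
    have h1 := hz.1 ⟨δ * γ, Γ.mul_mem δ.2 hγ⟩
    have h2 := hz.1 ⟨γ, hγ⟩
    exact h1.trans h2.symm
  · have h2 := hz.1 ⟨γ, hγ⟩
    simp only at h2
    rw [h2]
    exact hz.2

omit [MeasurableSpace SL(2, ℝ)] [BorelSpace SL(2, ℝ)] in
lemma dens_inv {γ : SL(2, ℝ)} (hγ : γ ∈ Γ) (z : ℍ) : dens Γ u (γ • z) = dens Γ u z := by
  unfold dens
  by_cases hz : z ∈ good Γ u
  · rw [indicator_of_mem hz, indicator_of_mem (good_smul hγ hz)]
    exact hz.1 ⟨γ, hγ⟩
  · rw [indicator_of_notMem hz, indicator_of_notMem fun h => hz ?_]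
    have := good_smul (Γ.inv_mem hγ) h
    rwa [inv_smul_smul] at this

omit [MeasurableSpace SL(2, ℝ)] [BorelSpace SL(2, ℝ)] in
lemma dens_nonneg (z : ℍ) : 0 ≤ dens Γ u z := by
  unfold dens
  exact indicator_nonneg (fun z hz => hz.2) z

omit [MeasurableSpace SL(2, ℝ)] [BorelSpace SL(2, ℝ)] in
lemma dens_meas [Countable Γ] (hu : LimFam0 Γ u) : Measurable (dens Γ u) :=
  (Complex.measurable_re.comp ((hu.meas 0).comp measurable_coe)).indicator (good_meas hu)

omit [MeasurableSpace SL(2, ℝ)] [BorelSpace SL(2, ℝ)] in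
lemma dens_ae [Countable Γ] (hu : LimFam0 Γ u) : ∀ᵐ z : ℍ, dens Γ u z = (u 0 z).re := by
  filter_upwards [good_ae hu] with z hz
  exact indicator_of_mem hz _

omit [MeasurableSpace SL(2, ℝ)] [BorelSpace SL(2, ℝ)] in
lemma dens_u [Countable Γ] (hu : LimFam0 Γ u) : ∀ᵐ z : ℍ, u 0 z = (dens Γ u z : ℂ) := by
  filter_upwards [dens_ae hu, ae_H hu.real] with z hz h
  rw [hz]
  exact Complex.ext (by simp) (by simp [h.2])

omit [MeasurableSpace SL(2, ℝ)] [BorelSpace SL(2, ℝ)] in
lemma dens_memLp [Countable Γ] (hu : LimFam0 Γ u) {K : Set ℍ} (hK : IsCompact K) :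
    MemLp (dens Γ u) 2 (volume.restrict K) := by
  refine (memLp_H (hu.loc 0) hK).re.ae_eq ?_
  filter_upwards [ae_restrict_of_ae (dens_ae hu)] with z hz
  exact hz.symm

omit [MeasurableSpace SL(2, ℝ)] [BorelSpace SL(2, ℝ)] in
lemma dens_int [Countable Γ] (hu : LimFam0 Γ u) {K : Set ℍ} (hK : IsCompact K) :
    IntegrableOn (dens Γ u) K volume := by
  have : IsFiniteMeasure ((volume : Measure ℍ).restrict K) :=
    ⟨by rw [Measure.restrict_apply_univ]; exact hK.measure_lt_top⟩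
  exact (dens_memLp hu hK).integrable one_le_two

omit [MeasurableSpace SL(2, ℝ)] [BorelSpace SL(2, ℝ)] in
lemma dens_psq [Countable Γ] (hu : LimFam0 Γ u) {D : Set ℍ}
    (hD : IsFundamentalDomain Γ D (volume : Measure ℍ))
    (hK : ∃ K : Set ℍ, IsCompact K ∧ ∀ z : ℍ, ∃ γ ∈ Γ, γ • z ∈ K) :
    IntegrableOn (fun z => dens Γ u z ^ 2) D volume := by
  obtain ⟨K, hK, hcov⟩ := hK
  have h1 : IntegrableOn (fun z => dens Γ u z ^ 2) K volume := (dens_memLp hu hK).integrable_sq
  have hm : Measurable fun z => dens Γ u z ^ 2 := (dens_meas hu).pow_const 2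
  refine ⟨hm.aestronglyMeasurable, ?_⟩
  rw [hasFiniteIntegral_iff_ofReal (Eventually.of_forall fun z => sq_nonneg _)]
  have h2 : ∫⁻ z in K, ENNReal.ofReal (dens Γ u z ^ 2) < ⊤ :=
    (hasFiniteIntegral_iff_ofReal (Eventually.of_forall fun z => sq_nonneg _)).1 h1.2
  refine lt_of_le_of_lt ?_ h2
  rw [hD.setLIntegral_eq_tsum' _ K]
  have e : ∀ γ : Γ, ∫⁻ z in γ • K ∩ D, ENNReal.ofReal (dens Γ u (γ⁻¹ • z) ^ 2)
      = ∫⁻ z in γ • K ∩ D, ENNReal.ofReal (dens Γ u z ^ 2) := by
    intro γ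
    refine lintegral_congr fun z => ?_
    rw [show dens Γ u (γ⁻¹ • z) = dens Γ u z from dens_inv (Γ.inv_mem γ.2) z]
  simp only [e]
  have h3 : ∫⁻ z in D, ENNReal.ofReal (dens Γ u z ^ 2)
      = ∫⁻ z in ⋃ γ : Γ, γ • K ∩ D, ENNReal.ofReal (dens Γ u z ^ 2) := by
    congr 2
    rw [← iUnion_inter]
    refine (inter_eq_right.2 fun z _ => ?_).symm
    obtain ⟨γ, hγ, hz⟩ := hcov z
    rw [mem_iUnion]
    exact ⟨⟨γ, hγ⟩⁻¹, mem_smul_set_iff_inv_smul_mem.2 (by rw [inv_inv]; exact hz)⟩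
  rw [h3]
  exact lintegral_iUnion_le _ _

/-! ### The projection -/

open CompactlySupported in
lemma mu_proj [Countable Γ] (hu : LimFam0 Γ u) :
    Measure.map (fun g : SL(2, ℝ) => g • UpperHalfPlane.I) (mu hu)
      = (volume : Measure ℍ).withDensity fun z => ENNReal.ofReal (dens Γ u z) := by
  have f1 : IsFiniteMeasureOnCompacts
      (Measure.map (fun g : SL(2, ℝ) => g • UpperHalfPlane.I) (mu hu)) := by
    refine ⟨fun K hK => ?_⟩
    rw [Measure.map_apply Berry.proj_measurable hK.measurableSet]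
    exact (isProperMap_smul_I.isCompact_preimage hK).measure_lt_top
  have f2 : IsFiniteMeasureOnCompacts
      ((volume : Measure ℍ).withDensity fun z => ENNReal.ofReal (dens Γ u z)) := by
    refine ⟨fun K hK => ?_⟩
    rw [withDensity_apply _ hK.measurableSet]
    exact (hasFiniteIntegral_iff_ofReal (Eventually.of_forall fun z => dens_nonneg z)).1
      (dens_int hu hK).2
  refine Measure.ext_of_integral_eq_on_compactlySupported fun f => ?_
  have hfc : Continuous fun z => f z := f.continuous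
  rw [integral_map Berry.proj_measurable.aemeasurable hfc.aestronglyMeasurable,
    integral_withDensity_eq_integral_toReal_smul
      (show Measurable fun z => ENNReal.ofReal (dens Γ u z) from
        ENNReal.measurable_ofReal.comp (dens_meas hu))
      (Eventually.of_forall fun z => ENNReal.ofReal_lt_top)]
  have hc : Continuous fun z => (f z : ℂ) := Complex.continuous_ofReal.comp f.continuous
  have hs : HasCompactSupport fun z => (f z : ℂ) :=
    f.hasCompactSupport.comp_left (g := fun x : ℝ => (x : ℂ)) Complex.ofReal_zero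
  have h := mu_coeff hu 0 hc hs
  have e : ((∫ g : SL(2, ℝ), f (g • UpperHalfPlane.I) ∂(mu hu) : ℝ) : ℂ)
      = ((∫ z, (ENNReal.ofReal (dens Γ u z)).toReal • f z : ℝ) : ℂ) := by
    rw [← integral_complex_ofReal, ← integral_complex_ofReal]
    have h2 : ∫ g : SL(2, ℝ), (f (g • UpperHalfPlane.I) : ℂ) ∂(mu hu)
        = ∫ g : SL(2, ℝ), (f (g • UpperHalfPlane.I) : ℂ) * (starRingEnd ℂ) (dirG g ^ (0 : ℤ))
          ∂(mu hu) := by
      simp
    rw [h2, h]
    refine integral_congr_ae ?_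
    filter_upwards [dens_u hu] with z hz
    rw [hz, ENNReal.toReal_ofReal (dens_nonneg z), smul_eq_mul]
    push_cast
    ring
  exact_mod_cast e

end fam

end FM

/-- **Existence of the measure** with the Fourier coefficients `u k`. -/
theorem exists_measure [MeasurableSpace SL(2, ℝ)] [BorelSpace SL(2, ℝ)]
    {Γ : Subgroup SL(2, ℝ)} [Countable Γ] {D : Set ℍ} (_ : MeasurableSet D)
    (hD : IsFundamentalDomain Γ D (volume : Measure ℍ))
    (hK : ∃ K : Set ℍ, IsCompact K ∧ ∀ z : ℍ, ∃ γ ∈ Γ, γ • z ∈ K)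
    {u : ℤ → ℂ → ℂ} (hu : LimFam0 Γ u) :
    ∃ (μ : Measure SL(2, ℝ)) (p : ℍ → ℝ), μ.Regular ∧ IsFiniteMeasureOnCompacts μ ∧
      (∀ γ ∈ Γ, Measure.map (fun g => γ * g) μ = μ) ∧
      Measure.map (fun g => -g) μ = μ ∧
      Measurable p ∧ (∀ z, 0 ≤ p z) ∧ (∀ γ ∈ Γ, ∀ z, p (γ • z) = p z) ∧
      (∀ᵐ z : ℍ, p z = (u 0 z).re) ∧
      IntegrableOn (fun z => p z ^ 2) D (volume : Measure ℍ) ∧
      (∀ S : Set ℍ, MeasurableSet S →
        μ ((fun g : SL(2, ℝ) => g • UpperHalfPlane.I) ⁻¹' S) = ∫⁻ z in S, ENNReal.ofReal (p z)) ∧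
      ∀ (k : ℤ) (ζ : ℍ → ℂ), Continuous ζ → HasCompactSupport ζ →
        ∫ g : SL(2, ℝ), ζ (g • UpperHalfPlane.I) * (starRingEnd ℂ) (dirG g ^ k) ∂μ
          = ∫ z : ℍ, ζ z * u k z := by
  refine ⟨FM.mu hu, FM.dens Γ u, inferInstance, inferInstance, fun γ hγ => FM.mu_left hu hγ,
    FM.mu_neg hu, FM.dens_meas hu, FM.dens_nonneg, fun γ hγ z => FM.dens_inv hγ z,
    FM.dens_ae hu, FM.dens_psq hu hD hK, fun S hS => ?_, fun k ζ hc hs => FM.mu_coeff hu k hc hs⟩
  rw [← Measure.map_apply Berry.proj_measurable hS, FM.mu_proj hu, withDensity_apply _ hS]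

end

end QE


end

section

/-!
# Friedrichs' lemma for Lipschitz functions (module NC_INV, helper38)
-/

open MeasureTheory Filter Topology Set Metric
open scoped ContDiff NNReal Convolution

namespace QE

namespace NC

namespace Fried

noncomputable section

variable {E : Type} [NormedAddCommGroup E] [NormedSpace ℝ E] [FiniteDimensional ℝ E]
  [MeasurableSpace E] [BorelSpace E]

/-- the bump of radius `1 / (n + 1)` -/
def bmp (n : ℕ) : ContDiffBump (0 : E) :=
  ⟨1 / (n + 1) / 2, 1 / (n + 1), by positivity, by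
    have : (0 : ℝ) < 1 / (n + 1) := by positivity
    linarith⟩

/-- the mollified function -/
def mol (μ : Measure E) (F : E → ℂ) (n : ℕ) : E → ℂ :=
  (bmp n).normed μ ⋆[ContinuousLinearMap.lsmul ℝ ℝ, μ] F

variable {μ : Measure E} [μ.IsAddHaarMeasure] {F : E → ℂ}

theorem mol_apply (F : E → ℂ) (n : ℕ) (x : E) :
    mol μ F n x = ∫ t, (bmp n).normed μ t • F (x - t) ∂μ := rfl

theorem mol_smooth (hF : Continuous F) (n : ℕ) : ContDiff ℝ ∞ (mol μ F n) :=
  (bmp n).hasCompactSupport_normed.contDiff_convolution_left _ (bmp n).contDiff_normed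
    hF.locallyIntegrable

theorem mol_supp (hc : HasCompactSupport F) (n : ℕ) : HasCompactSupport (mol μ F n) :=
  (bmp n).hasCompactSupport_normed.convolution _ hc

theorem mol_int (hF : Continuous F) (n : ℕ) (x : E) :
    Integrable (fun t => (bmp n).normed μ t • F (x - t)) μ := by
  refine Continuous.integrable_of_hasCompactSupport ?_ ?_
  · exact (bmp n).continuous_normed.smul (hF.comp (continuous_const.sub continuous_id))
  · exact (bmp n).hasCompactSupport_normed.smul_right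

theorem mol_lip {K : ℝ≥0} (hF : LipschitzWith K F) (n : ℕ) : LipschitzWith K (mol μ F n) := by
  refine LipschitzWith.of_dist_le_mul fun x y => ?_
  rw [dist_eq_norm, dist_eq_norm, mol_apply, mol_apply, ← integral_sub (mol_int hF.continuous n x)
    (mol_int hF.continuous n y)]
  have h1 : ∀ t, ‖(bmp n).normed μ t • F (x - t) - (bmp n).normed μ t • F (y - t)‖ ≤
      (bmp n).normed μ t * (K * ‖x - y‖) := by
    intro t
    rw [← smul_sub, norm_smul, Real.norm_of_nonneg ((bmp n).nonneg_normed t)]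
    refine mul_le_mul_of_nonneg_left ?_ ((bmp n).nonneg_normed t)
    have := hF.dist_le_mul (x - t) (y - t)
    rwa [dist_eq_norm, dist_eq_norm, sub_sub_sub_cancel_right] at this
  refine (norm_integral_le_of_norm_le ((bmp n).integrable_normed.mul_const _)
    (ae_of_all _ h1)).trans ?_
  rw [integral_mul_const, (bmp n).integral_normed, one_mul]

theorem mol_fderiv {K : ℝ≥0} (hF : LipschitzWith K F) (n : ℕ) (x : E) :
    ‖fderiv ℝ (mol μ F n) x‖ ≤ K :=
  norm_fderiv_le_of_lipschitz ℝ (mol_lip hF n)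

/-- the main estimate -/
theorem mol_est {K : ℝ≥0} (hF : LipschitzWith K F) {W : E → E} {Y : E → ℂ} (hW : Continuous W)
    (hY : Continuous Y) (hd : ∀ q, HasLineDerivAt ℝ F (Y q) q (W q)) (n : ℕ) (x : E) {δ : ℝ}
    (h1 : ∀ t, ‖t‖ < 1 / (n + 1) → ‖W x - W (x - t)‖ ≤ δ)
    (h2 : ∀ t, ‖t‖ < 1 / (n + 1) → ‖Y (x - t) - Y x‖ ≤ δ) :
    ‖fderiv ℝ (mol μ F n) x (W x) - Y x‖ ≤ (K + 1) * δ := by
  set φ : E → ℝ := (bmp n).normed μ with hφ
  have hφ0 : ∀ t, 0 ≤ φ t := fun t => (bmp n).nonneg_normed t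
  have hφc : Continuous φ := (bmp n).continuous_normed
  have hφs : HasCompactSupport φ := (bmp n).hasCompactSupport_normed
  have hφi : Integrable φ μ := (bmp n).integrable_normed
  have hφ1 : ∫ t, φ t ∂μ = 1 := (bmp n).integral_normed
  have hφz : ∀ t, ¬ ‖t‖ < 1 / (n + 1) → φ t = 0 := by
    intro t ht
    by_contra h
    have h3 : t ∈ Function.support ((bmp n).normed μ) := h
    rw [(bmp n).support_normed_eq, mem_ball_zero_iff] at h3
    exact ht h3
  -- the difference quotients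
  set g : ℝ → E → ℂ := fun s t => φ t • (s⁻¹ • (F (x - t + s • W x) - F (x - t))) with hg
  set h : ℝ → E → ℂ := fun s t => φ t • (s⁻¹ • (F (x - t + s • W (x - t)) - F (x - t))) with hh
  have hgc : ∀ s, Continuous (g s) := by
    intro s
    have := hF.continuous
    simp only [hg]
    fun_prop
  have hhc : ∀ s, Continuous (h s) := by
    intro s
    have := hF.continuous
    simp only [hh]
    fun_prop
  have hgi : ∀ s, Integrable (g s) μ := fun s =>
    (hgc s).integrable_of_hasCompactSupport hφs.smul_right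
  have hhi : ∀ s, Integrable (h s) μ := fun s =>
    (hhc s).integrable_of_hasCompactSupport hφs.smul_right
  -- first limit
  have l1 : Tendsto (fun s => ∫ t, g s t ∂μ) (𝓝[≠] 0) (𝓝 (fderiv ℝ (mol μ F n) x (W x))) := by
    have hdiff : DifferentiableAt ℝ (mol μ F n) x :=
      ((mol_smooth hF.continuous n).differentiable (by simp)) x
    have e := hdiff.hasFDerivAt.hasLineDerivAt (W x)
    have e2 := (hasDerivAt_iff_tendsto_slope_zero (𝕜 := ℝ)).1 e
    refine e2.congr fun s => ?_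
    simp only [zero_add, zero_smul, add_zero]
    rw [mol_apply, mol_apply, ← integral_sub (mol_int hF.continuous n _)
      (mol_int hF.continuous n _), ← integral_smul]
    refine integral_congr_ae (ae_of_all _ fun t => ?_)
    simp only [hg, hφ]
    rw [← smul_sub, smul_comm]
    congr 4
    abel_nf
  -- second limit
  have l2 : Tendsto (fun s => ∫ t, h s t ∂μ) (𝓝[≠] 0) (𝓝 (∫ t, φ t • Y (x - t) ∂μ)) := by
    refine tendsto_integral_filter_of_dominated_convergence
      (fun t => φ t * (K * ‖W (x - t)‖)) ?_ ?_ ?_ ?_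
    · exact Eventually.of_forall fun s => (hhc s).aestronglyMeasurable
    · filter_upwards [self_mem_nhdsWithin] with s hs
      have hs' : s ≠ 0 := hs
      refine ae_of_all _ fun t => ?_
      simp only [hh]
      rw [norm_smul, Real.norm_of_nonneg (hφ0 t)]
      refine mul_le_mul_of_nonneg_left ?_ (hφ0 t)
      rw [norm_smul, norm_inv]
      have e1 := hF.dist_le_mul (x - t + s • W (x - t)) (x - t)
      rw [dist_eq_norm, dist_eq_norm, add_sub_cancel_left, norm_smul] at e1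
      have hs0 : 0 < ‖s‖ := norm_pos_iff.2 hs'
      rw [inv_mul_le_iff₀ hs0]
      linarith
    · refine Continuous.integrable_of_hasCompactSupport ?_ ?_
      · fun_prop
      · exact hφs.mul_right
    · refine ae_of_all _ fun t => ?_
      have e2 := (hasDerivAt_iff_tendsto_slope_zero (𝕜 := ℝ)).1 (hd (x - t))
      simp only [zero_add, zero_smul, add_zero] at e2
      exact e2.const_smul (φ t)
  -- comparison
  have l3 : ∀ s : ℝ, s ≠ 0 → ‖(∫ t, g s t ∂μ) - ∫ t, h s t ∂μ‖ ≤ K * δ := by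
    intro s hs
    rw [← integral_sub (hgi s) (hhi s)]
    have e0 : ∀ t, ‖g s t - h s t‖ ≤ φ t * (K * δ) := by
      intro t
      simp only [hg, hh]
      rw [← smul_sub, ← smul_sub, sub_sub_sub_cancel_right, norm_smul,
        Real.norm_of_nonneg (hφ0 t)]
      by_cases ht : ‖t‖ < 1 / (n + 1)
      · refine mul_le_mul_of_nonneg_left ?_ (hφ0 t)
        rw [norm_smul, norm_inv]
        have e1 := hF.dist_le_mul (x - t + s • W x) (x - t + s • W (x - t))
        rw [dist_eq_norm, dist_eq_norm, add_sub_add_left_eq_sub, ← smul_sub, norm_smul] at e1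
        have hs0 : 0 < ‖s‖ := norm_pos_iff.2 hs
        rw [inv_mul_le_iff₀ hs0]
        refine e1.trans ?_
        have e3 := h1 t ht
        have : (K : ℝ) * (‖s‖ * ‖W x - W (x - t)‖) = ‖s‖ * (K * ‖W x - W (x - t)‖) := by ring
        rw [this]
        exact mul_le_mul_of_nonneg_left (mul_le_mul_of_nonneg_left e3 K.coe_nonneg) hs0.le
      · rw [hφz t ht]; simp
    refine (norm_integral_le_of_norm_le (hφi.mul_const _) (ae_of_all _ e0)).trans ?_
    rw [integral_mul_const, hφ1, one_mul]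
  have l4 : ‖fderiv ℝ (mol μ F n) x (W x) - ∫ t, φ t • Y (x - t) ∂μ‖ ≤ K * δ := by
    refine le_of_tendsto (l1.sub l2).norm ?_
    filter_upwards [self_mem_nhdsWithin] with s hs
    exact l3 s hs
  have l5 : ‖(∫ t, φ t • Y (x - t) ∂μ) - Y x‖ ≤ δ := by
    have e1 : Y x = ∫ t, φ t • Y x ∂μ := by rw [integral_smul_const, hφ1, one_smul]
    have i1 : Integrable (fun t => φ t • Y (x - t)) μ :=
      Continuous.integrable_of_hasCompactSupport (by fun_prop) hφs.smul_right
    have i2 : Integrable (fun t => φ t • Y x) μ := hφi.smul_const _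
    conv_lhs => rw [e1]
    rw [← integral_sub i1 i2]
    have e0 : ∀ t, ‖φ t • Y (x - t) - φ t • Y x‖ ≤ φ t * δ := by
      intro t
      rw [← smul_sub, norm_smul, Real.norm_of_nonneg (hφ0 t)]
      by_cases ht : ‖t‖ < 1 / (n + 1)
      · exact mul_le_mul_of_nonneg_left (h2 t ht) (hφ0 t)
      · rw [hφz t ht]; simp
    refine (norm_integral_le_of_norm_le (hφi.mul_const _) (ae_of_all _ e0)).trans ?_
    rw [integral_mul_const, hφ1, one_mul]
  calc ‖fderiv ℝ (mol μ F n) x (W x) - Y x‖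
      = ‖(fderiv ℝ (mol μ F n) x (W x) - ∫ t, φ t • Y (x - t) ∂μ) +
          ((∫ t, φ t • Y (x - t) ∂μ) - Y x)‖ := by congr 1; abel
    _ ≤ K * δ + δ := (norm_add_le _ _).trans (add_le_add l4 l5)
    _ = (K + 1) * δ := by ring

theorem mol_tendsto {K : ℝ≥0} (hF : LipschitzWith K F) {W : E → E} {Y : E → ℂ}
    (hW : Continuous W) (hY : Continuous Y) (hd : ∀ q, HasLineDerivAt ℝ F (Y q) q (W q)) (x : E) :
    Tendsto (fun n => fderiv ℝ (mol μ F n) x (W x)) atTop (𝓝 (Y x)) := by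
  rw [Metric.tendsto_atTop]
  intro ε hε
  set δ : ℝ := ε / (2 * (K + 1)) with hδ
  have hK : (0 : ℝ) < K + 1 := by positivity
  have hδ0 : 0 < δ := by positivity
  have cW : ContinuousAt (fun t => W (x - t)) 0 := by fun_prop
  have cY : ContinuousAt (fun t => Y (x - t)) 0 := by fun_prop
  obtain ⟨r1, hr1, k1⟩ := Metric.continuousAt_iff.1 cW δ hδ0
  obtain ⟨r2, hr2, k2⟩ := Metric.continuousAt_iff.1 cY δ hδ0
  obtain ⟨N, hN⟩ := exists_nat_one_div_lt (lt_min hr1 hr2)
  refine ⟨N, fun n hn => ?_⟩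
  have hn' : 1 / ((n : ℝ) + 1) < min r1 r2 := by
    refine lt_of_le_of_lt ?_ hN
    have : (N : ℝ) ≤ n := by exact_mod_cast hn
    exact one_div_le_one_div_of_le (by positivity) (by linarith)
  rw [dist_eq_norm]
  refine lt_of_le_of_lt (mol_est hF hW hY hd n x (δ := δ) ?_ ?_) ?_
  · intro t ht
    have := k1 (x := t) (by
      rw [dist_zero_right]
      exact ht.trans (hn'.trans_le (min_le_left _ _)))
    rw [sub_zero, dist_comm, dist_eq_norm] at this
    exact this.le
  · intro t ht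
    have := k2 (x := t) (by
      rw [dist_zero_right]
      exact ht.trans (hn'.trans_le (min_le_right _ _)))
    rw [sub_zero, dist_eq_norm] at this
    exact this.le
  · rw [hδ]
    have : ((K : ℝ) + 1) * (ε / (2 * (K + 1))) = ε / 2 := by field_simp
    rw [this]
    linarith

/-- outside of the `1`-neighbourhood of the support the derivative vanishes -/
theorem mol_zero {R : ℝ} (hR : ∀ x, R < ‖x‖ → F x = 0) (n : ℕ) {x : E} (hx : R + 1 < ‖x‖) :
    fderiv ℝ (mol μ F n) x = 0 := by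
  have h : mol μ F n =ᶠ[𝓝 x] fun _ => 0 := by
    have : {y : E | R + 1 < ‖y‖} ∈ 𝓝 x :=
      (isOpen_lt continuous_const continuous_norm).mem_nhds hx
    filter_upwards [this] with y hy
    have hy' : R + 1 < ‖y‖ := hy
    rw [mol_apply]
    refine integral_eq_zero_of_ae (ae_of_all _ fun t => ?_)
    by_cases ht : ‖t‖ < 1 / (n + 1)
    · have h1 : (1 : ℝ) / (n + 1) ≤ 1 := by
        rw [div_le_one (by positivity)]
        linarith [Nat.cast_nonneg (α := ℝ) n]
      have h2 : ‖y‖ - ‖t‖ ≤ ‖y - t‖ := norm_sub_norm_le y t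
      have : F (y - t) = 0 := hR _ (by linarith)
      simp [this]
    · have h3 : (bmp n).normed μ t = 0 := by
        by_contra h
        have h3 : t ∈ Function.support ((bmp n).normed μ) := h
        rw [(bmp n).support_normed_eq, mem_ball_zero_iff] at h3
        exact ht h3
      simp [h3]
  rw [h.fderiv_eq]
  simp

end

end Fried

end NC

end QE


end
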