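import Mathlib
import Pool.Agent.BWM.C05
import Pool.Agent.BWM.C12
import Pool.Agent.BWM.C13
import Pool.Agent.BWM.C18
import Pool.Agent.BWM.C19
import Pool.Agent.BWM.C20

/-! Parts: Lib_helper67.QE.HypSurf, Lib_helper67.QE.HypTest, Lib_helper67.QE.SurfThird, Lib_helper67.QE.HypKey, NCV.Defs, NCV.Stmts, NCV.Tools -/

section

/-!
Invariant functions on the upper half plane: unfolding of integrals, boundedness on compact sets, and
the local hypotheses for sequences of eigenfunctions with bounded fourth moments.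
-/

open UpperHalfPlane MeasureTheory ProbabilityTheory MatrixGroups Filter Topology Set Berry
open scoped ENNReal NNReal ContDiff

namespace QE

noncomputable section

namespace Surf

variable {Γ : Subgroup SL(2, ℝ)} {D : Set ℍ}

/-- the map to the upper half plane is measurable -/
lemma measurable_ofComplex : Measurable (ofComplex : ℂ → ℍ) := by
  have hU : IsOpen {w : ℂ | 0 < w.im} := isOpen_lt continuous_const Complex.continuous_im
  refine measurable_of_isOpen fun O hO => ?_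
  have e : (ofComplex : ℂ → ℍ) ⁻¹' O = UpperHalfPlane.coe '' O ∪
      ({w : ℂ | 0 < w.im}ᶜ ∩ {_w : ℂ | ofComplex (0 : ℂ) ∈ O}) := by
    ext w
    by_cases hw : 0 < w.im
    · have e1 : ofComplex w = ⟨w, hw⟩ := ofComplex_apply_of_im_pos hw
      constructor
      · intro h
        exact Or.inl ⟨ofComplex w, h, by rw [e1]⟩
      · rintro (⟨z, hz, rfl⟩ | ⟨h, -⟩)
        · show ofComplex (z : ℂ) ∈ O
          rwa [ofComplex_apply]
        · exact absurd hw h
    · have e1 : ofComplex w = ofComplex (0 : ℂ) := by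
        rw [ofComplex_apply_of_im_nonpos (not_lt.1 hw), ofComplex_apply_of_im_nonpos (by simp)]
      constructor
      · intro h
        exact Or.inr ⟨hw, by rw [← e1]; exact h⟩
      · rintro (⟨z, hz, rfl⟩ | ⟨-, h⟩)
        · exact absurd z.im_pos hw
        · show ofComplex w ∈ O
          rw [e1]; exact h
  rw [e]
  refine (isOpenEmbedding_coe.isOpenMap O hO).measurableSet.union
    (hU.measurableSet.compl.inter ?_)
  exact MeasurableSet.const _

/-- the unfolding formula for measurable invariant functions -/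
lemma unfold_gen [Countable Γ] (hD : IsFundamentalDomain Γ D (volume : Measure ℍ)) {χ : ℍ → ℝ}
    {R : ℝ} (hχ : ∀ z, χ z ≠ 0 → dist z I ≤ R) (hc : Continuous χ) (h0 : ∀ z, 0 ≤ χ z)
    {F : ℍ → ℝ≥0∞} (hF : Measurable F) (hinv : ∀ γ ∈ Γ, ∀ z, F (γ • z) = F z) :
    ∫⁻ z : ℍ, ENNReal.ofReal (χ z) * F z = ∫⁻ z in D, ENNReal.ofReal (NN Γ χ z) * F z := by
  rw [hD.lintegral_eq_tsum'', ← lintegral_tsum]
  · refine lintegral_congr fun z => ?_
    have e : ∀ γ : Γ, ENNReal.ofReal (χ (γ • z)) * F (γ • z) = ENNReal.ofReal (χ (γ • z)) * F z := by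
      intro γ
      rw [show F (γ • z) = F z from hinv γ γ.2 z]
    simp only [e]
    rw [ENNReal.tsum_mul_right, ← ENNReal.ofReal_tsum_of_nonneg (fun γ => h0 _)
      (NN_summable hD hχ z)]
    rfl
  · intro γ
    have hm : Measurable fun z => ENNReal.ofReal (χ z) * F z :=
      (ENNReal.measurable_ofReal.comp hc.measurable).mul hF
    exact (hm.comp (continuous_const_smul γ).measurable).aemeasurable

/-- the support of a function with compact support in the upper half plane is bounded -/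
lemma bounded_of_tsupport {c : ℂ → ℝ} (hs : HasCompactSupport c)
    (hcU : tsupport c ⊆ {w | 0 < w.im}) : ∃ R : ℝ, ∀ z : ℍ, c z ≠ 0 → dist z I ≤ R := by
  have hcomp : IsCompact (UpperHalfPlane.coe ⁻¹' tsupport c) := by
    rw [isOpenEmbedding_coe.isInducing.isCompact_preimage_iff]
    · exact hs
    · rw [range_coe]; exact hcU
  obtain ⟨R, hR⟩ := hcomp.isBounded.subset_closedBall I
  exact ⟨R, fun z hz => hR (show (z : ℂ) ∈ tsupport c from subset_tsupport c hz)⟩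

lemma NN_nonneg {χ : ℍ → ℝ} (h0 : ∀ z, 0 ≤ χ z) (z : ℍ) : 0 ≤ NN Γ χ z :=
  tsum_nonneg fun _ => h0 _

/-- one test function on the upper half plane computes the integrals over `D` of all measurable
invariant functions -/
lemma exists_test_gen [Countable Γ] (hD : IsFundamentalDomain Γ D (volume : Measure ℍ))
    (hK : ∃ K : Set ℍ, IsCompact K ∧ ∀ z, ∃ γ ∈ Γ, γ • z ∈ K) :
    ∃ ζ : ℂ → ℝ, Continuous ζ ∧ HasCompactSupport ζ ∧ tsupport ζ ⊆ {w | 0 < w.im} ∧
      (∀ w, 0 ≤ ζ w) ∧ ∀ F : ℍ → ℝ≥0∞, Measurable F → (∀ γ ∈ Γ, ∀ z, F (γ • z) = F z) →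
        ∫⁻ w, ENNReal.ofReal (ζ w) * F (ofComplex w) = ∫⁻ z in D, F z := by
  obtain ⟨K, hKc, hcov⟩ := hK
  obtain ⟨c, hc, hcs, hcU, hc0, hc1⟩ := exists_cut hKc
  set χ : ℍ → ℝ := fun z => c z with hχdef
  have hχc : Continuous χ := hc.comp continuous_coe
  have hχ0 : ∀ z, 0 ≤ χ z := fun z => hc0 _
  obtain ⟨R, hχ⟩ := bounded_of_tsupport hcs hcU
  have hpos : ∀ z, 0 < NN Γ χ z := by
    intro z
    obtain ⟨γ, hγ, hz⟩ := hcov z
    have h1 : χ ((⟨γ, hγ⟩ : Γ) • z) ≤ NN Γ χ z :=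
      (NN_summable hD hχ z).le_tsum _ fun δ _ => hχ0 _
    have h2 : χ ((⟨γ, hγ⟩ : Γ) • z) = 1 := hc1 _ hz
    linarith
  have hN := NN_continuous hD hχ hχc
  set G : ℍ → ℝ := fun z => 1 / z.im ^ 2 * (1 / NN Γ χ z) with hG
  have hGc : Continuous G := by
    refine (continuous_const.div (continuous_im.pow 2) fun z => (pow_pos z.im_pos 2).ne').mul ?_
    exact continuous_const.div hN fun z => (hpos z).ne'
  have hG0 : ∀ z, 0 ≤ G z := by
    intro z
    have h1 := z.im_pos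
    have h2 := hpos z
    simp only [hG]
    positivity
  refine ⟨fun w => c w * G (ofComplex w), continuous_cut_mul hc hcU hGc, hcs.mul_right,
    (closure_mono (Function.support_mul_subset_left _ _)).trans hcU,
    fun w => mul_nonneg (hc0 w) (hG0 _), ?_⟩
  intro F hF hinv
  have hU : IsOpen {w : ℂ | 0 < w.im} := isOpen_lt continuous_const Complex.continuous_im
  -- the quotient `χ / N` unfolds
  have hχN : Continuous fun z => χ z / NN Γ χ z := hχc.div hN fun z => (hpos z).ne'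
  have hu := unfold_gen hD (χ := fun z => χ z / NN Γ χ z) (R := R) (fun z hz => hχ z (by
    intro h0; apply hz
    show χ z / NN Γ χ z = 0
    rw [show χ z = 0 from h0, zero_div])) hχN
    (fun z => div_nonneg (hχ0 z) (hpos z).le) hF hinv
  have e0 : ∀ z, NN Γ (fun z => χ z / NN Γ χ z) z = 1 := by
    intro z
    have e1 : NN Γ (fun z => χ z / NN Γ χ z) z = ∑' γ : Γ, χ (γ • z) / NN Γ χ z := by
      refine tsum_congr fun γ => ?_
      show χ (γ • z) / NN Γ χ (γ • z) = χ (γ • z) / NN Γ χ z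
      rw [NN_inv]
    rw [e1, tsum_div_const]
    exact div_self (hpos z).ne'
  have e1 : ∫⁻ z in D, ENNReal.ofReal (NN Γ (fun z => χ z / NN Γ χ z) z) * F z = ∫⁻ z in D, F z := by
    refine lintegral_congr fun z => ?_
    rw [e0, ENNReal.ofReal_one, one_mul]
  rw [← e1, ← hu, lintegral_uhp]
  · rw [← lintegral_indicator hU.measurableSet]
    refine lintegral_congr fun w => ?_
    by_cases hw : 0 < w.im
    · rw [indicator_of_mem (show w ∈ {w : ℂ | 0 < w.im} from hw), ← mul_assoc,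
        ← ENNReal.ofReal_mul (by positivity)]
      congr 2
      have e2 : ((ofComplex w : ℍ) : ℂ) = w := by rw [ofComplex_apply_of_im_pos hw]
      have e3 : (ofComplex w : ℍ).im = w.im := by rw [ofComplex_apply_of_im_pos hw]; rfl
      simp only [hG, hχdef, e2, e3]
      ring
    · rw [indicator_of_notMem (show w ∉ {w : ℂ | 0 < w.im} from hw)]
      have : c w = 0 := by
        by_contra h
        exact hw (hcU (subset_tsupport c h))
      show ENNReal.ofReal (c w * G (ofComplex w)) * F (ofComplex w) = 0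
      rw [this, zero_mul, ENNReal.ofReal_zero, zero_mul]
  · exact (ENNReal.measurable_ofReal.comp hχN.measurable).mul hF

/-- the same for real functions -/
lemma exists_test_real [Countable Γ] (hD : IsFundamentalDomain Γ D (volume : Measure ℍ))
    (hK : ∃ K : Set ℍ, IsCompact K ∧ ∀ z, ∃ γ ∈ Γ, γ • z ∈ K) :
    ∃ ζ : ℂ → ℝ, Continuous ζ ∧ HasCompactSupport ζ ∧ tsupport ζ ⊆ {w | 0 < w.im} ∧
      (∀ w, 0 ≤ ζ w) ∧ ∀ f : ℍ → ℝ, Measurable f → (∀ z, 0 ≤ f z) →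
        (∀ γ ∈ Γ, ∀ z, f (γ • z) = f z) →
        ∫ w, ζ w * f (ofComplex w) = ∫ z in D, f z := by
  obtain ⟨ζ, h1, h2, h3, h4, h5⟩ := exists_test_gen hD hK
  refine ⟨ζ, h1, h2, h3, h4, fun f hf hf0 hinv => ?_⟩
  have hoc : Measurable (ofComplex : ℂ → ℍ) := measurable_ofComplex
  rw [integral_eq_lintegral_of_nonneg_ae
    (Eventually.of_forall fun w => mul_nonneg (h4 w) (hf0 _))
    (h1.measurable.mul (hf.comp hoc)).aestronglyMeasurable,
    integral_eq_lintegral_of_nonneg_ae (Eventually.of_forall fun z => hf0 z)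
      hf.aestronglyMeasurable]
  congr 1
  rw [← h5 (fun z => ENNReal.ofReal (f z)) (ENNReal.measurable_ofReal.comp hf)
    (fun γ hγ z => by rw [hinv γ hγ z])]
  refine lintegral_congr fun w => ?_
  rw [ENNReal.ofReal_mul (h4 w)]

/-- integrals over compact sets of invariant functions -/
lemma compact_le [Countable Γ] (hD : IsFundamentalDomain Γ D (volume : Measure ℍ))
    (hK : ∃ K : Set ℍ, IsCompact K ∧ ∀ z, ∃ γ ∈ Γ, γ • z ∈ K) {K : Set ℂ} (hKc : IsCompact K)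
    (hKU : K ⊆ {w | 0 < w.im}) : ∃ M : ℝ, 0 ≤ M ∧ ∀ F : ℍ → ℝ≥0∞, Measurable F →
      (∀ γ ∈ Γ, ∀ z, F (γ • z) = F z) →
        ∫⁻ w in K, F (ofComplex w) ≤ ENNReal.ofReal M * ∫⁻ z in D, F z := by
  have hU : IsOpen {w : ℂ | 0 < w.im} := isOpen_lt continuous_const Complex.continuous_im
  have hK' : IsCompact (UpperHalfPlane.coe ⁻¹' K) := by
    rw [isOpenEmbedding_coe.isInducing.isCompact_preimage_iff]
    · exact hKc
    · rw [range_coe]; exact hKU
  obtain ⟨c, hc, hcs, hcU, hc0, hc1⟩ := exists_cut hK'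
  obtain ⟨R, hχ⟩ := bounded_of_tsupport hcs hcU
  set χ : ℍ → ℝ := fun z => c z * z.im ^ 2 with hχdef
  have hχc : Continuous χ := (hc.comp continuous_coe).mul (continuous_im.pow 2)
  have hχ0 : ∀ z, 0 ≤ χ z := fun z => mul_nonneg (hc0 _) (sq_nonneg _)
  have hχR : ∀ z, χ z ≠ 0 → dist z I ≤ R := fun z hz => hχ z (by
    intro h0; apply hz; simp only [hχdef, h0, zero_mul])
  have hN := NN_continuous hD hχR hχc
  obtain ⟨M, hM⟩ := bdd_of_cocompact hN (fun γ hγ z => NN_inv (χ := χ) ⟨γ, hγ⟩ z) hK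
  have hM0 : 0 ≤ M := (abs_nonneg _).trans (hM I)
  refine ⟨M, hM0, fun F hF hinv => ?_⟩
  have hoc : Measurable (ofComplex : ℂ → ℍ) := measurable_ofComplex
  calc ∫⁻ w in K, F (ofComplex w) ≤ ∫⁻ w : ℂ in {w | 0 < w.im},
        ENNReal.ofReal (1 / w.im ^ 2) * (ENNReal.ofReal (χ (ofComplex w)) * F (ofComplex w)) := by
        rw [← lintegral_indicator hKc.measurableSet, ← lintegral_indicator hU.measurableSet]
        refine lintegral_mono fun w => ?_
        by_cases hw : w ∈ K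
        · have hw' : 0 < w.im := hKU hw
          rw [indicator_of_mem hw, indicator_of_mem (show w ∈ {w : ℂ | 0 < w.im} from hw'),
            ← mul_assoc, ← ENNReal.ofReal_mul (by positivity)]
          have e2 : ((ofComplex w : ℍ) : ℂ) = w := by rw [ofComplex_apply_of_im_pos hw']
          have e3 : (ofComplex w : ℍ).im = w.im := by rw [ofComplex_apply_of_im_pos hw']; rfl
          have e4 : c ((ofComplex w : ℍ) : ℂ) = 1 := hc1 _ (by
            show ((ofComplex w : ℍ) : ℂ) ∈ K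
            rw [e2]; exact hw)
          have e5 : 1 / w.im ^ 2 * χ (ofComplex w) = 1 := by
            simp only [hχdef, e3, e4]
            field_simp
          rw [e5, ENNReal.ofReal_one, one_mul]
        · rw [indicator_of_notMem hw]; exact zero_le
    _ = ∫⁻ z : ℍ, ENNReal.ofReal (χ z) * F z := by
        rw [lintegral_uhp]
        exact (ENNReal.measurable_ofReal.comp hχc.measurable).mul hF
    _ = ∫⁻ z in D, ENNReal.ofReal (NN Γ χ z) * F z := unfold_gen hD hχR hχc hχ0 hF hinv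
    _ ≤ ∫⁻ z in D, ENNReal.ofReal M * F z := by
        refine lintegral_mono fun z => ?_
        gcongr
        exact (le_abs_self _).trans (hM z)
    _ = ENNReal.ofReal M * ∫⁻ z in D, F z := lintegral_const_mul _ hF

/-- continuous invariant functions are integrable over the fundamental domain -/
lemma integrableOn_of_invariant [Countable Γ] (hD : IsFundamentalDomain Γ D (volume : Measure ℍ))
    (hK : ∃ K : Set ℍ, IsCompact K ∧ ∀ z, ∃ γ ∈ Γ, γ • z ∈ K) {f : ℍ → ℝ} (hf : Continuous f)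
    (hinv : ∀ γ ∈ Γ, ∀ z, f (γ • z) = f z) : IntegrableOn f D (volume : Measure ℍ) := by
  obtain ⟨C, hC⟩ := bdd_of_cocompact hf hinv hK
  have hfin : (volume : Measure ℍ) D < ⊤ := (finite_of_cocompact hD hK).lt_top
  exact Measure.integrableOn_of_bounded hfin.ne hf.aestronglyMeasurable
    (Eventually.of_forall fun z => by rw [Real.norm_eq_abs]; exact hC z)

lemma surfAvg_eq (f : ℍ → ℝ) : surfAvg D f
    = ((volume : Measure ℍ) D).toReal⁻¹ * ∫ z in D, f z := by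
  unfold surfAvg ProbabilityTheory.cond
  rw [integral_smul_measure, smul_eq_mul, ENNReal.toReal_inv]

lemma vol_pos [Countable Γ] (hD : IsFundamentalDomain Γ D (volume : Measure ℍ))
    (hK : ∃ K : Set ℍ, IsCompact K ∧ ∀ z, ∃ γ ∈ Γ, γ • z ∈ K) :
    0 < ((volume : Measure ℍ) D).toReal :=
  ENNReal.toReal_pos (volume_ne_zero hD) (finite_of_cocompact hD hK)

/-- boundedness on compact sets, from bounded averages -/
lemma bdd_of_avg [Countable Γ] (hD : IsFundamentalDomain Γ D (volume : Measure ℍ))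
    (hK : ∃ K : Set ℍ, IsCompact K ∧ ∀ z, ∃ γ ∈ Γ, γ • z ∈ K) {K : Set ℂ} (hKc : IsCompact K)
    (hKU : K ⊆ {w | 0 < w.im}) : ∃ M : ℝ, 0 ≤ M ∧ ∀ f : ℍ → ℝ, Continuous f → (∀ z, 0 ≤ f z) →
      (∀ γ ∈ Γ, ∀ z, f (γ • z) = f z) → ∫ w in K, f (ofComplex w) ≤ M * surfAvg D f := by
  obtain ⟨M, hM0, hM⟩ := compact_le hD hK hKc hKU
  have hv := vol_pos hD hK
  refine ⟨M * ((volume : Measure ℍ) D).toReal, by positivity, fun f hf hf0 hinv => ?_⟩
  have h1 := hM (fun z => ENNReal.ofReal (f z)) (ENNReal.measurable_ofReal.comp hf.measurable)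
    (fun γ hγ z => by rw [hinv γ hγ z])
  have hi := integrableOn_of_invariant hD hK hf hinv
  have e1 : ∫⁻ z in D, ENNReal.ofReal (f z) = ENNReal.ofReal (∫ z in D, f z) :=
    (ofReal_integral_eq_lintegral_ofReal hi (Eventually.of_forall hf0)).symm
  rw [e1, ← ENNReal.ofReal_mul hM0] at h1
  have h0 : 0 ≤ ∫ z in D, f z := integral_nonneg hf0
  rw [surfAvg_eq, integral_eq_lintegral_of_nonneg_ae (Eventually.of_forall fun w => hf0 _)
    ((hf.measurable.comp measurable_ofComplex).aestronglyMeasurable)]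
  refine le_trans (ENNReal.toReal_mono ENNReal.ofReal_ne_top h1) (le_of_eq ?_)
  rw [ENNReal.toReal_ofReal (by positivity)]
  field_simp

end Surf

variable {Γ : Subgroup SL(2, ℝ)} {D : Set ℍ} {φ : ℕ → ℍ → ℝ} {m : ℕ → ℝ}

/-- fourth powers of the functions -/
theorem bdd4_of_avg [Countable Γ] (hD : IsFundamentalDomain Γ D (volume : Measure ℍ))
    (hK : ∃ K : Set ℍ, IsCompact K ∧ ∀ z, ∃ γ ∈ Γ, γ • z ∈ K)
    (hc : ∀ n, Continuous (φ n)) (hinv : ∀ n, ∀ γ ∈ Γ, ∀ z, φ n (γ • z) = φ n z) {C : ℝ}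
    (hC : ∀ n, surfAvg D (fun z => φ n z ^ 4) ≤ C) :
    LBdd 4 UH (fun n z => (φ n (ofComplex z) : ℂ)) := by
  intro K hKc hKU
  obtain ⟨M, hM0, hM⟩ := Surf.bdd_of_avg hD hK hKc hKU
  refine ⟨M * C, Eventually.of_forall fun n => ?_⟩
  have h1 := hM (fun z => φ n z ^ 4) ((hc n).pow 4) (fun z => by positivity)
    (fun γ hγ z => by simp only [hinv n γ hγ z])
  have e : ∀ w : ℂ, ‖((φ n (ofComplex w) : ℝ) : ℂ)‖ ^ 4 = φ n (ofComplex w) ^ 4 := by
    intro w
    rw [Complex.norm_real, Real.norm_eq_abs]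
    exact Even.pow_abs (by decide) _
  simp only [e]
  exact h1.trans (mul_le_mul_of_nonneg_left (hC n) hM0)

theorem contDiffOn_gH : ContDiffOn ℝ ∞ gH UH := by
  have e : gH = fun z => (((aH z)⁻¹) ^ 2) := by
    funext z
    show 1 / ((z.im : ℝ) : ℂ) ^ 2 = (((z.im : ℝ) : ℂ)⁻¹) ^ 2
    rw [one_div, inv_pow]
  rw [e]
  have h1 : ContDiff ℝ ∞ aH := (Complex.ofRealCLM.comp Complex.imCLM).contDiff
  refine (h1.contDiffOn.inv fun z hz => ?_).pow 2
  have : (0 : ℝ) < z.im := hz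
  show ((z.im : ℝ) : ℂ) ≠ 0
  exact_mod_cast this.ne'

/-- the local hypotheses for a sequence of eigenfunctions which is bounded in `L⁴` -/
theorem setup_of_eigen (hφ : Berry.EigenSeq Γ φ m)
    (hs : ∀ n, ContDiffOn ℝ ∞ (fun w : ℂ => φ n (ofComplex w)) {w | 0 < w.im})
    (hm : ∀ n, 1 ≤ m n) (hb : LBdd 4 UH (fun n z => (φ n (ofComplex z) : ℂ))) :
    Setup UH gH aH (fun n => 1 / m n) (fun n z => (φ n (ofComplex z) : ℂ)) := by
  have hU : IsOpen UH := isOpen_UH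
  have hsm : SmoothSeq UH (fun n z => (φ n (ofComplex z) : ℂ)) := fun n =>
    Complex.ofRealCLM.contDiff.comp_contDiffOn (hs n)
  have hpos : ∀ n, 0 < 1 / m n := fun n => by
    have := hm n
    positivity
  have hlim : Tendsto (fun n => 1 / m n) atTop (𝓝 0) := by
    simpa [one_div, Function.comp_def] using tendsto_inv_atTop_zero.comp hφ.tendsto
  have haC : ContDiff ℝ ∞ aH := (Complex.ofRealCLM.comp Complex.imCLM).contDiff
  have heig : ∀ n, ∀ z ∈ UH, 4 * (((1 / m n : ℝ)) : ℂ) ^ 2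
      * dz (dzb (fun z => (φ n (ofComplex z) : ℂ))) z = - gH z * (φ n (ofComplex z) : ℂ) := by
    intro n z hz
    have hz' : 0 < z.im := hz
    have hm0 : m n ≠ 0 := by have := hm n; linarith
    have hcd : ContDiffAt ℝ 2 (fun w : ℂ => φ n (ofComplex w)) z :=
      (hφ.smooth _).contDiffAt (hU.mem_nhds hz)
    have h4 := four_dz_dzb hcd
    have he := hφ.eigen n ⟨z, hz'⟩
    have hoc : ofComplex z = ⟨z, hz'⟩ := ofComplex_apply_of_im_pos hz'
    have hre : (z.im : ℝ) ^ 2 * (Laplacian.laplacian (fun w : ℂ => φ n (ofComplex w)) z)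
        = - (m n ^ 2 * φ n (ofComplex z)) := by
      rw [hoc]; exact he
    have hrc : ((z.im : ℝ) : ℂ) ^ 2 * ((Laplacian.laplacian (fun w : ℂ =>
        φ n (ofComplex w)) z : ℝ) : ℂ) = - ((m n : ℂ) ^ 2 * (φ n (ofComplex z) : ℂ)) := by
      exact_mod_cast congrArg (fun x : ℝ => (x : ℂ)) hre
    rw [← h4] at hrc
    have him : ((z.im : ℝ) : ℂ) ≠ 0 := by exact_mod_cast hz'.ne'
    have hmc : (m n : ℂ) ≠ 0 := by exact_mod_cast hm0
    unfold gH
    push_cast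
    field_simp
    linear_combination hrc
  refine ⟨hU, hpos, hlim, haC.contDiffOn, contDiffOn_gH, fun z _ => Complex.conj_ofReal _, ?_, ?_,
    fun n z _ => Complex.conj_ofReal _, heig⟩
  · intro z hz
    have hz' : 0 < z.im := hz
    have him : ((z.im : ℝ) : ℂ) ≠ 0 := by exact_mod_cast hz'.ne'
    show ((z.im : ℝ) : ℂ) ^ 2 * (1 / ((z.im : ℝ) : ℂ) ^ 2) = 1
    field_simp
  · refine tame_of_eigen hU hlim (ellProp hU hpos hlim) hsm hb
      (b := fun z => -(1 / 4) * gH z) (contDiffOn_const.mul contDiffOn_gH) fun n z hz => ?_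
    have := heig n z hz
    unfold hLap
    linear_combination (1 / 4) * this

end

end QE


end

section

/-!
One test function computes the integrals over the fundamental domain of all integrable invariant
functions; averages and their linearity.
-/

open UpperHalfPlane MeasureTheory ProbabilityTheory MatrixGroups Filter Topology Set Berry
open scoped ENNReal NNReal ContDiff

namespace QE

noncomputable section

/-- almost everywhere on the hyperbolic plane, and on the upper half plane -/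
lemma ae_UH {P : ℂ → Prop} (h : ∀ᵐ z : ℍ, P (z : ℂ)) :
    ∀ᵐ z ∂((volume : Measure ℂ).restrict UH), P z := by
  obtain ⟨N, hN, hNm, hN0⟩ := exists_measurable_superset_of_null (ae_iff.1 h)
  rw [volume_eq_lintegral] at hN0
  have hm : MeasurableSet (UpperHalfPlane.coe '' N) :=
    measurableEmbedding_coe.measurableSet_image.2 hNm
  have hc : Measurable fun z : ℂ => (((1 / ‖z.im‖₊) ^ 2 : ℝ≥0) : ℝ≥0∞) := by
    refine Measurable.coe_nnreal_ennreal ?_
    exact (measurable_const.div (Complex.measurable_im.nnnorm)).pow_const 2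
  rw [lintegral_eq_zero_iff hc] at hN0
  have h1 : (volume : Measure ℂ) (UpperHalfPlane.coe '' N) = 0 := by
    have h2 := (ae_restrict_iff' hm).1 hN0
    rw [← nonpos_iff_eq_zero, ← ae_iff.1 h2]
    refine measure_mono ?_
    rintro _ ⟨z, hz, rfl⟩ hcon
    have h3 := hcon ⟨z, hz, rfl⟩
    have him : (0 : ℝ) < (z : ℂ).im := z.im_pos
    simp only [Pi.zero_apply, ENNReal.coe_eq_zero] at h3
    have h4 : (‖(z : ℂ).im‖₊ : ℝ≥0) ≠ 0 := by
      rw [nnnorm_ne_zero_iff]; exact him.ne'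
    have h5 : ((1 / ‖(z : ℂ).im‖₊) ^ 2 : ℝ≥0) ≠ 0 := by positivity
    exact h5 h3
  rw [ae_iff, Measure.restrict_apply' isOpen_UH.measurableSet]
  refine measure_mono_null ?_ h1
  rintro z ⟨hz, hzU⟩
  refine ⟨⟨z, hzU⟩, hN ?_, rfl⟩
  exact hz
namespace Surf

variable {Γ : Subgroup SL(2, ℝ)} {D : Set ℍ}

/-- one test function on the upper half plane computes the integrals over `D` of all integrable
invariant functions -/
lemma exists_test_int [Countable Γ] (hD : IsFundamentalDomain Γ D (volume : Measure ℍ))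
    (hK : ∃ K : Set ℍ, IsCompact K ∧ ∀ z, ∃ γ ∈ Γ, γ • z ∈ K) :
    ∃ ζ : ℂ → ℝ, Continuous ζ ∧ HasCompactSupport ζ ∧ tsupport ζ ⊆ {w | 0 < w.im} ∧
      (∀ w, 0 ≤ ζ w) ∧ ∀ f : ℍ → ℝ, Measurable f → IntegrableOn f D (volume : Measure ℍ) →
        (∀ γ ∈ Γ, ∀ z, f (γ • z) = f z) →
        Integrable (fun w => ζ w * f (ofComplex w)) ∧
        ∫ w, ζ w * f (ofComplex w) = ∫ z in D, f z := by
  obtain ⟨ζ, h1, h2, h3, h4, h5⟩ := exists_test_gen hD hK
  refine ⟨ζ, h1, h2, h3, h4, fun f hf hfi hinv => ?_⟩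
  have hoc : Measurable (ofComplex : ℂ → ℍ) := measurable_ofComplex
  -- nonnegative functions
  have key : ∀ g : ℍ → ℝ, Measurable g → IntegrableOn g D (volume : Measure ℍ) → (∀ z, 0 ≤ g z) →
      (∀ γ ∈ Γ, ∀ z, g (γ • z) = g z) → Integrable (fun w => ζ w * g (ofComplex w)) ∧
        ∫ w, ζ w * g (ofComplex w) = ∫ z in D, g z := by
    intro g hg hgi hg0 hginv
    have e0 : ∫⁻ w, ENNReal.ofReal (ζ w * g (ofComplex w)) = ∫⁻ z in D, ENNReal.ofReal (g z) := by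
      rw [← h5 (fun z => ENNReal.ofReal (g z)) (ENNReal.measurable_ofReal.comp hg)
        (fun γ hγ z => by rw [hginv γ hγ z])]
      refine lintegral_congr fun w => ?_
      rw [ENNReal.ofReal_mul (h4 w)]
    have hm : AEStronglyMeasurable (fun w => ζ w * g (ofComplex w)) (volume : Measure ℂ) :=
      (h1.measurable.mul (hg.comp hoc)).aestronglyMeasurable
    have hnn : ∀ w, 0 ≤ ζ w * g (ofComplex w) := fun w => mul_nonneg (h4 w) (hg0 _)
    constructor
    · refine ⟨hm, ?_⟩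
      rw [hasFiniteIntegral_iff_ofReal (Eventually.of_forall hnn), e0]
      have := hgi.2
      rwa [hasFiniteIntegral_iff_ofReal (Eventually.of_forall hg0)] at this
    · rw [integral_eq_lintegral_of_nonneg_ae (Eventually.of_forall hnn) hm,
        integral_eq_lintegral_of_nonneg_ae (Eventually.of_forall fun z => hg0 z)
          hg.aestronglyMeasurable, e0]
  obtain ⟨a1, a2⟩ := key (fun z => max (f z) 0) (hf.max measurable_const) hfi.pos_part
    (fun z => le_max_right _ _) (fun γ hγ z => by simp only [hinv γ hγ z])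
  obtain ⟨b1, b2⟩ := key (fun z => max (-f z) 0) (hf.neg.max measurable_const) hfi.neg_part
    (fun z => le_max_right _ _) (fun γ hγ z => by simp only [hinv γ hγ z])
  have e : ∀ z, f z = max (f z) 0 - max (-f z) 0 := by
    intro z
    rcases le_total 0 (f z) with h | h
    · rw [max_eq_left h, max_eq_right (by linarith)]; ring
    · rw [max_eq_right h, max_eq_left (by linarith)]; ring
  have e1 : (fun w => ζ w * f (ofComplex w)) = fun w => ζ w * max (f (ofComplex w)) 0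
      - ζ w * max (-f (ofComplex w)) 0 := by
    funext w
    conv_lhs => rw [e (ofComplex w)]
    ring
  refine ⟨by rw [e1]; exact a1.sub b1, ?_⟩
  rw [e1, integral_sub a1 b1, a2, b2, ← integral_sub hfi.pos_part hfi.neg_part]
  exact integral_congr_ae (Eventually.of_forall fun z => (e z).symm)

/-- averages -/
lemma surfAvg_add {f g : ℍ → ℝ} (hf : IntegrableOn f D (volume : Measure ℍ))
    (hg : IntegrableOn g D (volume : Measure ℍ)) :
    surfAvg D (fun z => f z + g z) = surfAvg D f + surfAvg D g := by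
  rw [surfAvg_eq, surfAvg_eq, surfAvg_eq, integral_add hf hg, mul_add]

lemma surfAvg_sub {f g : ℍ → ℝ} (hf : IntegrableOn f D (volume : Measure ℍ))
    (hg : IntegrableOn g D (volume : Measure ℍ)) :
    surfAvg D (fun z => f z - g z) = surfAvg D f - surfAvg D g := by
  rw [surfAvg_eq, surfAvg_eq, surfAvg_eq, integral_sub hf hg, mul_sub]

lemma surfAvg_const_mul (c : ℝ) (f : ℍ → ℝ) :
    surfAvg D (fun z => c * f z) = c * surfAvg D f := by
  rw [surfAvg_eq, surfAvg_eq, integral_const_mul]; ring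

lemma surfAvg_nonneg {f : ℍ → ℝ} (hf : ∀ z, 0 ≤ f z) : 0 ≤ surfAvg D f :=
  integral_nonneg hf

lemma surfAvg_one [Countable Γ] (hD : IsFundamentalDomain Γ D (volume : Measure ℍ))
    (hK : ∃ K : Set ℍ, IsCompact K ∧ ∀ z, ∃ γ ∈ Γ, γ • z ∈ K) :
    surfAvg D (fun _ => 1) = 1 := by
  have := vol_pos hD hK
  rw [surfAvg_eq, setIntegral_const, smul_eq_mul, mul_one]
  exact inv_mul_cancel₀ this.ne'

end Surf

end

end QE


end

section

/-!
From local statements, for smooth test functions, to continuous test functions and to the surface: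
third moments and lower bounds (helper70).
-/

open UpperHalfPlane MeasureTheory ProbabilityTheory MatrixGroups Filter Topology Set Berry
open scoped ENNReal NNReal ContDiff

namespace QE

noncomputable section

/-- smooth approximation from below, with support in the support -/
theorem exists_smooth_below {ξ : ℂ → ℝ} (hc : Continuous ξ) (hs : HasCompactSupport ξ)
    (h0 : ∀ z, 0 ≤ ξ z) {δ : ℝ} (hδ : 0 < δ) :
    ∃ ψ : ℂ → ℝ, ContDiff ℝ ∞ ψ ∧ HasCompactSupport ψ ∧ tsupport ψ ⊆ tsupport ξ ∧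
      (∀ z, 0 ≤ ψ z) ∧ (∀ z, ψ z ≤ ξ z) ∧ ∀ z, ξ z ≤ ψ z + 3 * δ := by
  obtain ⟨ψ, hψs, hψ1, hψ2⟩ := exists_smooth_between hc hδ
  have hψ0 : ∀ z, 0 ≤ ψ z := fun z => (le_max_right _ _).trans (hψ1 z)
  have hψξ : ∀ z, ψ z ≤ ξ z := fun z => (hψ2 z).trans (max_le (by linarith) (h0 z))
  have hts : tsupport ψ ⊆ tsupport ξ := by
    refine closure_mono fun z hz => ?_
    rw [Function.mem_support] at hz ⊢
    intro h1
    apply hz
    have h2 := hψξ z
    rw [h1] at h2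
    exact le_antisymm h2 (hψ0 z)
  refine ⟨ψ, hψs, hs.of_isClosed_subset (isClosed_tsupport _) hts, hts, hψ0, hψξ, fun z => ?_⟩
  have := (le_max_left (ξ z - 3 * δ) 0).trans (hψ1 z)
  linarith

/-- **lower bounds for continuous test functions** -/
theorem cont_lower {U : Set ℂ} (hU : IsOpen U) {F : ℕ → ℂ → ℝ} (hFc : ∀ n, ContinuousOn (F n) U)
    (hF0 : ∀ n z, 0 ≤ F n z) {p2 : ℂ → ℝ} (hp0 : ∀ z, 0 ≤ p2 z)
    (hpi : ∀ K : Set ℂ, IsCompact K → K ⊆ U → IntegrableOn p2 K)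
    (H : ∀ ζ : ℂ → ℝ, ContDiff ℝ ∞ ζ → HasCompactSupport ζ → tsupport ζ ⊆ U → (∀ z, 0 ≤ ζ z) →
      ∀ ε > 0, ∀ᶠ n in atTop, 3 * (∫ z, ζ z * p2 z) - ε ≤ ∫ z, ζ z * F n z)
    {ζ : ℂ → ℝ} (hc : Continuous ζ) (hs : HasCompactSupport ζ) (hsub : tsupport ζ ⊆ U)
    (h0 : ∀ z, 0 ≤ ζ z) {ε : ℝ} (hε : 0 < ε) :
    ∀ᶠ n in atTop, 3 * (∫ z, ζ z * p2 z) - ε ≤ ∫ z, ζ z * F n z := by
  have hK : IsCompact (tsupport ζ) := hs
  have hmeas : MeasurableSet (tsupport ζ) := (isClosed_tsupport ζ).measurableSet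
  set B : ℝ := ∫ z in tsupport ζ, p2 z with hB
  have hB0 : 0 ≤ B := integral_nonneg hp0
  set δ : ℝ := ε / (18 * (B + 1)) with hδdef
  have hδ : 0 < δ := by positivity
  have hδB : 9 * (δ * B) ≤ ε / 2 := by
    have e : 9 * (δ * B) = ε / 2 * (B / (B + 1)) := by
      rw [hδdef]; field_simp; ring
    have h1 : B / (B + 1) ≤ 1 := (div_le_one (by positivity)).mpr (by linarith)
    rw [e]
    nlinarith only [hε, h1]
  obtain ⟨ψ, hψs, hψc, hts, hψ0, hψ1, hψ2⟩ := exists_smooth_below hc hs h0 hδ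
  -- products with `p2`
  have hip : ∀ χ : ℂ → ℝ, Continuous χ → tsupport χ ⊆ tsupport ζ →
      Integrable (fun z => χ z * p2 z) := by
    intro χ hχ hχs
    have hcomp : HasCompactSupport χ := hs.of_isClosed_subset (isClosed_tsupport _) hχs
    obtain ⟨M, hM⟩ := hχ.bounded_above_of_compact_support hcomp
    have h1 : IntegrableOn (fun z => χ z * p2 z) (tsupport ζ) :=
      Integrable.bdd_mul (hpi _ hK hsub) hχ.aestronglyMeasurable.restrict
        (Filter.Eventually.of_forall hM)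
    rwa [integrableOn_iff_integrable_of_support_subset] at h1
    intro z hz
    by_contra hcon
    exact hz (by
      show χ z * p2 z = 0
      rw [image_eq_zero_of_notMem_tsupport fun hh => hcon (hχs hh), zero_mul])
  have hle : 3 * (∫ z, ζ z * p2 z) - ε / 2 ≤ 3 * ∫ z, ψ z * p2 z := by
    have hind : Integrable ((tsupport ζ).indicator fun z => 3 * δ * p2 z) :=
      (integrable_indicator_iff hmeas).mpr ((hpi _ hK hsub).const_mul _)
    have h1 : ∫ z, ζ z * p2 z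
        ≤ ∫ z, (ψ z * p2 z + (tsupport ζ).indicator (fun z => 3 * δ * p2 z) z) := by
      refine integral_mono (hip ζ hc subset_rfl) ((hip ψ hψs.continuous hts).add hind) fun z => ?_
      show ζ z * p2 z ≤ ψ z * p2 z + (tsupport ζ).indicator (fun z => 3 * δ * p2 z) z
      by_cases hz : z ∈ tsupport ζ
      · rw [Set.indicator_of_mem hz]
        nlinarith only [hψ2 z, hp0 z]
      · rw [Set.indicator_of_notMem hz, image_eq_zero_of_notMem_tsupport hz]
        linarith only [mul_nonneg (hψ0 z) (hp0 z)]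
    rw [integral_add (hip ψ hψs.continuous hts) hind, integral_indicator hmeas,
      integral_const_mul] at h1
    linarith only [hδB, h1]
  filter_upwards [H ψ hψs hψc (hts.trans hsub) hψ0 (ε / 2) (by positivity)] with n hn
  have h3 : ∫ z, ψ z * F n z ≤ ∫ z, ζ z * F n z := by
    refine integral_mono (integrable_mul_of_tsupport hU hψs.continuous hψc (hts.trans hsub)
      (hFc n)) (integrable_mul_of_tsupport hU hc hs hsub (hFc n)) fun z => ?_
    exact mul_le_mul_of_nonneg_right (hψ1 z) (hF0 n z)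
  linarith

/-- **third moments for continuous test functions** -/
theorem cont_third {U : Set ℂ} (hU : IsOpen U) {φ : ℕ → ℂ → ℝ} (hφc : ∀ n, ContinuousOn (φ n) U)
    (hb : LBdd 4 U (fun n z => (φ n z : ℂ)))
    (h3 : ∀ ζ, Test U ζ → Tendsto (fun n => ∫ z, ζ z * (φ n z : ℂ) ^ 3) atTop (𝓝 0))
    {ξ : ℂ → ℝ} (hc : Continuous ξ) (hs : HasCompactSupport ξ) (hsub : tsupport ξ ⊆ U)
    (h0 : ∀ z, 0 ≤ ξ z) : Tendsto (fun n => ∫ z, ξ z * φ n z ^ 3) atTop (𝓝 0) := by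
  have hK : IsCompact (tsupport ξ) := hs
  have hmeas : MeasurableSet (tsupport ξ) := (isClosed_tsupport ξ).measurableSet
  obtain ⟨C, hC⟩ := hb _ hK hsub
  have hC0 : 0 ≤ C := by
    obtain ⟨n, hn⟩ := hC.exists
    exact (integral_nonneg fun z => by positivity).trans hn
  set W : ℝ := (volume : Measure ℂ).real (tsupport ξ) with hW
  have hW0 : 0 ≤ W := measureReal_nonneg
  rw [Metric.tendsto_atTop]
  intro ε hε
  set δ : ℝ := ε / (6 * (W + C + 1)) with hδdef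
  have hδ : 0 < δ := by positivity
  have hδB : 3 * δ * (W + C) ≤ ε / 2 := by
    have e : 3 * δ * (W + C) = ε / 2 * ((W + C) / (W + C + 1)) := by
      rw [hδdef]; field_simp; ring
    have h1 : (W + C) / (W + C + 1) ≤ 1 := (div_le_one (by positivity)).mpr (by linarith)
    rw [e]
    nlinarith
  obtain ⟨ψ, hψs, hψc, hts, hψ0, hψ1, hψ2⟩ := exists_smooth_below hc hs h0 hδ
  have hT : Test U (fun z => (ψ z : ℂ)) := by
    have hts' : tsupport (fun z => (ψ z : ℂ)) = tsupport ψ := by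
      unfold tsupport
      congr 1
      ext z
      simp
    exact ⟨Complex.ofRealCLM.contDiff.comp hψs, by unfold HasCompactSupport; rw [hts']; exact hψc,
      by rw [hts']; exact hts.trans hsub⟩
  have hlim := (Metric.tendsto_atTop.1 (h3 _ hT)) (ε / 2) (by positivity)
  obtain ⟨N₁, hN₁⟩ := hlim
  obtain ⟨N₂, hN₂⟩ := eventually_atTop.1 hC
  refine ⟨max N₁ N₂, fun n hn => ?_⟩
  have k1 := hN₁ n ((le_max_left _ _).trans hn)
  have k2 := hN₂ n ((le_max_right _ _).trans hn)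
  rw [dist_zero_right] at k1 ⊢
  have e1 : ∫ z, (ψ z : ℂ) * (φ n z : ℂ) ^ 3 = ((∫ z, ψ z * φ n z ^ 3 : ℝ) : ℂ) := by
    have e0 : ((∫ z, ψ z * φ n z ^ 3 : ℝ) : ℂ) = ∫ z, ((ψ z * φ n z ^ 3 : ℝ) : ℂ) :=
      integral_ofReal.symm
    rw [e0]
    refine integral_congr_ae (Filter.Eventually.of_forall fun z => ?_)
    push_cast
    ring
  rw [e1, Complex.norm_real] at k1
  have i1 : Integrable (fun z => ξ z * φ n z ^ 3) :=
    integrable_mul_of_tsupport hU hc hs hsub ((hφc n).pow 3)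
  have i2 : Integrable (fun z => ψ z * φ n z ^ 3) :=
    integrable_mul_of_tsupport hU hψs.continuous hψc (hts.trans hsub) ((hφc n).pow 3)
  have k3 : ‖(∫ z, ξ z * φ n z ^ 3) - ∫ z, ψ z * φ n z ^ 3‖ ≤ 3 * δ * (W + C) := by
    rw [← integral_sub i1 i2]
    have i4 : IntegrableOn (fun z => φ n z ^ 4) (tsupport ξ) :=
      (((hφc n).pow 4).mono hsub).integrableOn_compact hK
    have ic : IntegrableOn (fun _ : ℂ => (1 : ℝ)) (tsupport ξ) :=
      integrableOn_const hK.measure_lt_top.ne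
    have i3 : IntegrableOn (fun z => 3 * δ * (1 + φ n z ^ 4)) (tsupport ξ) :=
      (ic.add i4).const_mul _
    have hind : Integrable ((tsupport ξ).indicator fun z => 3 * δ * (1 + φ n z ^ 4)) :=
      (integrable_indicator_iff hmeas).mpr i3
    refine (norm_integral_le_of_norm_le hind (Filter.Eventually.of_forall fun z => ?_)).trans ?_
    · beta_reduce
      rw [← sub_mul, norm_mul, Real.norm_eq_abs, Real.norm_eq_abs]
      by_cases hz : z ∈ tsupport ξ
      · rw [Set.indicator_of_mem hz]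
        have h5 : |ξ z - ψ z| ≤ 3 * δ := by
          rw [abs_of_nonneg (by linarith only [hψ1 z])]
          linarith only [hψ2 z]
        have h6 : |φ n z ^ 3| ≤ 1 + φ n z ^ 4 := by
          rw [abs_le]
          have := sq_nonneg (φ n z ^ 2 - φ n z)
          have := sq_nonneg (φ n z ^ 2 + φ n z)
          have := sq_nonneg (φ n z ^ 2)
          constructor <;> (first | nlinarith only [sq_nonneg (φ n z ^ 2 - 1)] | nlinarith [sq_nonneg (φ n z ^ 2 - 1), sq_nonneg (φ n z)])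
        exact mul_le_mul h5 h6 (abs_nonneg _) (by positivity)
      · rw [Set.indicator_of_notMem hz, image_eq_zero_of_notMem_tsupport hz,
          image_eq_zero_of_notMem_tsupport (f := ψ) fun hh => hz (hts hh)]
        simp
    · rw [integral_indicator hmeas, integral_const_mul]
      have e2 : ∫ z in tsupport ξ, (1 + φ n z ^ 4) = W + ∫ z in tsupport ξ, φ n z ^ 4 := by
        rw [integral_add ic i4]
        simp [hW]
      rw [e2]
      have e3 : ∫ z in tsupport ξ, ‖(φ n z : ℂ)‖ ^ 4 = ∫ z in tsupport ξ, φ n z ^ 4 := by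
        refine integral_congr_ae (Filter.Eventually.of_forall fun z => ?_)
        beta_reduce
        rw [Complex.norm_real, Real.norm_eq_abs]
        exact Even.pow_abs (by decide) _
      rw [e3] at k2
      (clear * - k2 hε hC0; gcongr)
  have k4 : ‖∫ z, ξ z * φ n z ^ 3‖ ≤ ‖(∫ z, ξ z * φ n z ^ 3) - ∫ z, ψ z * φ n z ^ 3‖
      + ‖∫ z, ψ z * φ n z ^ 3‖ := by
    have := norm_add_le ((∫ z, ξ z * φ n z ^ 3) - ∫ z, ψ z * φ n z ^ 3) (∫ z, ψ z * φ n z ^ 3)
    rwa [sub_add_cancel] at this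
  linarith

variable {Γ : Subgroup SL(2, ℝ)} {D : Set ℍ} {φ : ℕ → ℍ → ℝ}

open Surf in
/-- **third moments on the surface** -/
theorem surf_third [Countable Γ] (hD : IsFundamentalDomain Γ D (volume : Measure ℍ))
    (hK : ∃ K : Set ℍ, IsCompact K ∧ ∀ z, ∃ γ ∈ Γ, γ • z ∈ K)
    (hc : ∀ n, Continuous (φ n)) (hinv : ∀ n, ∀ γ ∈ Γ, ∀ z, φ n (γ • z) = φ n z) {C : ℝ}
    (hC : ∀ n, surfAvg D (fun z => φ n z ^ 4) ≤ C)
    (h3 : ∀ ζ, Test UH ζ → Tendsto (fun n => ∫ z, ζ z * (φ n (ofComplex z) : ℂ) ^ 3) atTop (𝓝 0))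
    {f : ℍ → ℝ} (hf : Continuous f) (hfi : ∀ γ ∈ Γ, ∀ z, f (γ • z) = f z) :
    Tendsto (fun n => surfAvg D (fun z => f z * φ n z ^ 3)) atTop (𝓝 0) := by
  have hU : IsOpen UH := isOpen_UH
  obtain ⟨ζ, z1, z2, z3, z4, z5⟩ := exists_test_real hD hK
  have hb := bdd4_of_avg hD hK hc hinv hC
  have hco : ∀ n, ContinuousOn (fun z => φ n (ofComplex z)) UH := fun n w hw =>
    ((hc n).continuousAt.comp
      (contMDiffAt_ofComplex (n := 0) (show 0 < w.im from hw)).continuousAt).continuousWithinAt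
  -- the integrals over the fundamental domain
  have hint : ∀ (n : ℕ) (g : ℍ → ℝ), Continuous g → (∀ z, 0 ≤ g z) →
      (∀ γ ∈ Γ, ∀ z, g (γ • z) = g z) →
      ∫ w, (ζ w * g (ofComplex w)) * φ n (ofComplex w) ^ 3 = ∫ z in D, g z * φ n z ^ 3 := by
    intro n g hg hg0 hgi
    have h3c : Continuous fun z => φ n z ^ 3 := (hc n).pow 3
    have c1 : Continuous fun z => g z * max (φ n z ^ 3) 0 := hg.mul (h3c.max continuous_const)
    have c2 : Continuous fun z => g z * max (-(φ n z ^ 3)) 0 :=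
      hg.mul (h3c.neg.max continuous_const)
    have v1 : ∀ γ ∈ Γ, ∀ z, g (γ • z) * max (φ n (γ • z) ^ 3) 0 = g z * max (φ n z ^ 3) 0 :=
      fun γ hγ z => by rw [hgi γ hγ, hinv n γ hγ]
    have v2 : ∀ γ ∈ Γ, ∀ z, g (γ • z) * max (-(φ n (γ • z) ^ 3)) 0
        = g z * max (-(φ n z ^ 3)) 0 := fun γ hγ z => by rw [hgi γ hγ, hinv n γ hγ]
    have e1 := z5 (fun z => g z * max (φ n z ^ 3) 0) c1.measurable
      (fun z => mul_nonneg (hg0 z) (le_max_right _ _)) v1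
    have e2 := z5 (fun z => g z * max (-(φ n z ^ 3)) 0) c2.measurable
      (fun z => mul_nonneg (hg0 z) (le_max_right _ _)) v2
    have hmm : ∀ x : ℝ, max x 0 - max (-x) 0 = x := by
      intro x
      rcases le_total x 0 with h | h
      · rw [max_eq_right h, max_eq_left (by linarith)]; ring
      · rw [max_eq_left h, max_eq_right (by linarith)]; ring
    have e3 : ∫ z in D, g z * φ n z ^ 3
        = (∫ z in D, g z * max (φ n z ^ 3) 0) - ∫ z in D, g z * max (-(φ n z ^ 3)) 0 := by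
      rw [← integral_sub (integrableOn_of_invariant hD hK c1 v1)
        (integrableOn_of_invariant hD hK c2 v2)]
      refine integral_congr_ae (Filter.Eventually.of_forall fun z => ?_)
      beta_reduce
      rw [← mul_sub, hmm]
    have hcc : ∀ k : ℍ → ℝ, Continuous k → Integrable (fun w => ζ w * k (ofComplex w)) := by
      intro k hk
      exact (continuous_cut_mul z1 z3 hk).integrable_of_hasCompactSupport z2.mul_right
    rw [e3, ← e1, ← e2, ← integral_sub (hcc _ c1) (hcc _ c2)]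
    refine integral_congr_ae (Filter.Eventually.of_forall fun w => ?_)
    beta_reduce
    rw [← mul_sub, ← mul_sub, hmm]
    ring
  -- nonnegative functions
  have hpos : ∀ g : ℍ → ℝ, Continuous g → (∀ z, 0 ≤ g z) → (∀ γ ∈ Γ, ∀ z, g (γ • z) = g z) →
      Tendsto (fun n => surfAvg D (fun z => g z * φ n z ^ 3)) atTop (𝓝 0) := by
    intro g hg hg0 hgi
    have k := cont_third hU hco hb h3 (ξ := fun w => ζ w * g (ofComplex w))
      (continuous_cut_mul z1 z3 hg) z2.mul_right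
      ((closure_mono (Function.support_mul_subset_left _ _)).trans z3)
      (fun w => mul_nonneg (z4 w) (hg0 _))
    have k2 := k.const_mul (((volume : Measure ℍ) D).toReal⁻¹)
    rw [mul_zero] at k2
    refine k2.congr fun n => ?_
    rw [hint n g hg hg0 hgi, surfAvg_eq]
  -- general functions
  have p1 := hpos (fun z => max (f z) 0) (hf.max continuous_const) (fun z => le_max_right _ _)
    (fun γ hγ z => by rw [hfi γ hγ])
  have p2 := hpos (fun z => max (-(f z)) 0) (hf.neg.max continuous_const)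
    (fun z => le_max_right _ _) (fun γ hγ z => by rw [hfi γ hγ])
  have p3 := p1.sub p2
  rw [sub_zero] at p3
  refine p3.congr fun n => ?_
  have hmm : ∀ x : ℝ, max x 0 - max (-x) 0 = x := by
    intro x
    rcases le_total x 0 with h | h
    · rw [max_eq_right h, max_eq_left (by linarith)]; ring
    · rw [max_eq_left h, max_eq_right (by linarith)]; ring
  rw [surfAvg_eq, surfAvg_eq, surfAvg_eq, ← mul_sub]
  congr 1
  rw [← integral_sub]
  · refine integral_congr_ae (Filter.Eventually.of_forall fun z => ?_)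
    beta_reduce
    rw [← sub_mul, hmm]
  · exact integrableOn_of_invariant hD hK ((hf.max continuous_const).mul ((hc n).pow 3))
      (fun γ hγ z => by rw [hfi γ hγ, hinv n γ hγ])
  · exact integrableOn_of_invariant hD hK ((hf.neg.max continuous_const).mul ((hc n).pow 3))
      (fun γ hγ z => by rw [hfi γ hγ, hinv n γ hγ])

end

end QE


end

section

/-!
The microlocal measures of eigenfunctions with bounded fourth moments have no directional atoms, and
the consequences for the fourth and the third moments along a sequence with microlocal limits.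
-/

open UpperHalfPlane MeasureTheory MatrixGroups Filter Topology Set Berry
open scoped ENNReal ContDiff

namespace QE

noncomputable section

/-- **No directional atoms** -/
theorem no_dir_atoms [MeasurableSpace SL(2, ℝ)] [BorelSpace SL(2, ℝ)] {Γ : Subgroup SL(2, ℝ)}
    [Countable Γ] {D : Set ℍ} (hDm : MeasurableSet D)
    (hD : IsFundamentalDomain Γ D (volume : Measure ℍ))
    (hK : ∃ K : Set ℍ, IsCompact K ∧ ∀ z, ∃ γ ∈ Γ, γ • z ∈ K) {u : ℤ → ℂ → ℂ}
    (hu : LimFam Γ u) :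
    ∃ p : ℍ → ℝ, Measurable p ∧ (∀ z, 0 ≤ p z) ∧ (∀ γ ∈ Γ, ∀ z, p (γ • z) = p z) ∧
      (∀ᵐ z : ℍ, p z = (u 0 z).re) ∧ IntegrableOn (fun z => p z ^ 2) D (volume : Measure ℍ) ∧
      ∀ ζ : ℂ → ℝ, Continuous ζ → HasCompactSupport ζ → tsupport ζ ⊆ UH → (∀ z, 0 ≤ ζ z) →
        Tendsto (fun N : ℕ => (1 / (N : ℝ)) * ∑ k ∈ Finset.Ioo (-(N : ℤ)) N,
          ∫ z, ζ z * ‖u k z‖ ^ 2) atTop (𝓝 0) := by
  obtain ⟨μ, p, -, hfc, hleft, hneg, hpm, hp0, hpi, hpae, hpsq, hproj, hcoef⟩ :=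
    exists_measure hDm hD hK hu.toLimFam0
  have hr := fun s => flow_right hu hneg hcoef s
  have hμ : FlowMeas Γ D μ p := ⟨⟨hleft, hneg, hpm, hp0, hpi, hpsq, hproj⟩, hr⟩
  have hsf : SigmaFinite μ := hμ.sigmaFinite hD
  obtain ⟨C, -, hC⟩ := hμ.pair_bound hD hDm
  refine ⟨p, hpm, hp0, hpi, hpae, hpsq, fun ζ hζ hζc hζU hζ0 => ?_⟩
  exact FejerN.fejer_tendsto hDm hD hμ.toFlowMeas0 hu.toLimFam0 hcoef
    ⟨C, fun d hd hd1 => hC d hd (by linarith)⟩
    (hμ.theoremN hD hDm (finite_of_cocompact hD hK)) hζ hζc hζU hζ0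

/-- weak convergence of the squares -/
theorem mass_limit {Γ : Subgroup SL(2, ℝ)} [Countable Γ] {D : Set ℍ}
    (hD : IsFundamentalDomain Γ D (volume : Measure ℍ))
    (hK : ∃ K : Set ℍ, IsCompact K ∧ ∀ z, ∃ γ ∈ Γ, γ • z ∈ K) {φ : ℕ → ℍ → ℝ}
    (hc : ∀ n, Continuous (φ n)) (hinv : ∀ n, ∀ γ ∈ Γ, ∀ z, φ n (γ • z) = φ n z)
    {w : ℂ → ℂ} (hw : WLim UH (fun n z => (φ n (ofComplex z) : ℂ) * (φ n (ofComplex z) : ℂ)) w)
    {p : ℍ → ℝ} (hpm : Measurable p) (hpi : ∀ γ ∈ Γ, ∀ z, p (γ • z) = p z)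
    (hpI : IntegrableOn p D (volume : Measure ℍ))
    (hpw : ∀ᵐ z ∂((volume : Measure ℂ).restrict UH), w z = (p (ofComplex z) : ℂ))
    {f : ℍ → ℝ} (hf : Continuous f) (hfi : ∀ γ ∈ Γ, ∀ z, f (γ • z) = f z) :
    Tendsto (fun n => surfAvg D (fun z => f z * φ n z ^ 2)) atTop
      (𝓝 (surfAvg D (fun z => f z * p z))) := by
  obtain ⟨ζ, h1, h2, h3, h4, h5⟩ := Surf.exists_test_int hD hK
  obtain ⟨B, hB⟩ := bdd_of_cocompact hf hfi hK
  -- the test function
  have hζf : Continuous fun w => ζ w * f (ofComplex w) := Surf.continuous_cut_mul h1 h3 hf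
  set η : ℂ → ℂ := fun w => ((ζ w * f (ofComplex w) : ℝ) : ℂ) with hη
  have hηc : Continuous η := Complex.continuous_ofReal.comp hζf
  have hηs : HasCompactSupport η := by
    refine h2.of_isClosed_subset (isClosed_tsupport _) (closure_mono fun w hw => ?_)
    simp only [hη, Function.mem_support] at hw ⊢
    intro h0
    apply hw
    rw [h0]; simp
  have hη0 : ∀ w, w ∉ tsupport ζ → η w = 0 := by
    intro w hw
    simp only [hη, image_eq_zero_of_notMem_tsupport hw, zero_mul, Complex.ofReal_zero]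
  have hm : MemLp η 2 ((volume : Measure ℂ).restrict (tsupport ζ)) :=
    (hηc.memLp_of_hasCompactSupport hηs).restrict _
  have hlim := hw (tsupport ζ) h2 h3 η hm
  have e : ∀ F : ℂ → ℂ, ∫ z in tsupport ζ, η z * F z = ∫ z, η z * F z := by
    intro F
    refine setIntegral_eq_integral_of_forall_compl_eq_zero fun z hz => ?_
    rw [hη0 z hz, zero_mul]
  simp only [e] at hlim
  -- identification of the two sides
  have hr := (Complex.continuous_re.tendsto _).comp hlim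
  have s1 : ∀ n, (∫ z, η z * ((φ n (ofComplex z) : ℂ) * (φ n (ofComplex z) : ℂ))).re
      = ∫ z in D, f z * φ n z ^ 2 := by
    intro n
    have hcn : Continuous fun z => f z * φ n z ^ 2 := hf.mul ((hc n).pow 2)
    have hin : ∀ γ ∈ Γ, ∀ z, f (γ • z) * φ n (γ • z) ^ 2 = f z * φ n z ^ 2 := fun γ hγ z => by
      rw [hfi γ hγ, hinv n γ hγ]
    have h6 := (h5 _ hcn.measurable (Surf.integrableOn_of_invariant hD hK hcn hin) hin).2
    rw [← h6]
    have e1 : ∫ z, η z * ((φ n (ofComplex z) : ℂ) * (φ n (ofComplex z) : ℂ))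
        = ∫ z, ((ζ z * (f (ofComplex z) * φ n (ofComplex z) ^ 2) : ℝ) : ℂ) := by
      refine integral_congr_ae (Eventually.of_forall fun z => ?_)
      simp only [hη]
      push_cast
      ring
    have e2 : ∫ z : ℂ, ((ζ z * (f (ofComplex z) * φ n (ofComplex z) ^ 2) : ℝ) : ℂ)
        = ((∫ z, ζ z * (f (ofComplex z) * φ n (ofComplex z) ^ 2) : ℝ) : ℂ) := integral_ofReal
    rw [e1, e2, Complex.ofReal_re]
  have s2 : (∫ z, η z * w z).re = ∫ z in D, f z * p z := by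
    have hpf : IntegrableOn (fun z => f z * p z) D (volume : Measure ℍ) := by
      refine Integrable.bdd_mul hpI hf.aestronglyMeasurable.restrict
        (Eventually.of_forall fun z => ?_) (c := B)
      rw [Real.norm_eq_abs]; exact hB z
    have hin : ∀ γ ∈ Γ, ∀ z, f (γ • z) * p (γ • z) = f z * p z := fun γ hγ z => by
      rw [hfi γ hγ, hpi γ hγ]
    have h6 := (h5 _ (hf.measurable.mul hpm) hpf hin).2
    have h6' : ∫ w, ζ w * (f (ofComplex w) * p (ofComplex w)) = ∫ z in D, f z * p z := h6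
    rw [← h6']
    have e1 : ∫ z, η z * w z = ∫ z, ((ζ z * (f (ofComplex z) * p (ofComplex z)) : ℝ) : ℂ) := by
      refine integral_congr_ae ?_
      have hpw' := (ae_restrict_iff' isOpen_UH.measurableSet).1 hpw
      filter_upwards [hpw'] with z hz
      by_cases hzU : z ∈ UH
      · rw [hz hzU]
        simp only [hη]
        push_cast
        ring
      · have h0 : ζ z = 0 := image_eq_zero_of_notMem_tsupport fun hh => hzU (h3 hh)
        simp only [hη, h0, zero_mul, Complex.ofReal_zero]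
    have e2 : ∫ z : ℂ, ((ζ z * (f (ofComplex z) * p (ofComplex z)) : ℝ) : ℂ)
        = ((∫ z, ζ z * (f (ofComplex z) * p (ofComplex z)) : ℝ) : ℂ) := integral_ofReal
    rw [e1, e2, Complex.ofReal_re]
  have hr' : Tendsto (fun n => ∫ z in D, f z * φ n z ^ 2) atTop (𝓝 (∫ z in D, f z * p z)) := by
    rw [← s2]
    refine hr.congr fun n => ?_
    exact s1 n
  simp only [Surf.surfAvg_eq]
  exact hr'.const_mul _

/-- **The moments of order two, three and four** along a sequence with microlocal limits. -/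
theorem key_of_limits [MeasurableSpace SL(2, ℝ)] [BorelSpace SL(2, ℝ)] {Γ : Subgroup SL(2, ℝ)}
    [Countable Γ] {D : Set ℍ} (hDm : MeasurableSet D)
    (hD : IsFundamentalDomain Γ D (volume : Measure ℍ))
    (hK : ∃ K : Set ℍ, IsCompact K ∧ ∀ z, ∃ γ ∈ Γ, γ • z ∈ K) {φ : ℕ → ℍ → ℝ} {h : ℕ → ℝ}
    (S : Setup UH gH aH h (fun n z => (φ n (ofComplex z) : ℂ)))
    (hc : ∀ n, Continuous (φ n)) (hinv : ∀ n, ∀ γ ∈ Γ, ∀ z, φ n (γ • z) = φ n z) {C : ℝ}
    (hC : ∀ n, surfAvg D (fun z => φ n z ^ 4) ≤ C)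
    {u : ℤ → ℂ → ℂ} (hum : ∀ k, Measurable (u k)) (hu : ∀ k, LocL2 UH (u k))
    (hw : JLim UH h aH (fun n z => (φ n (ofComplex z) : ℂ)) u) :
    ∃ p : ℍ → ℝ, Measurable p ∧ (∀ z, 0 ≤ p z) ∧ (∀ γ ∈ Γ, ∀ z, p (γ • z) = p z) ∧
      IntegrableOn p D (volume : Measure ℍ) ∧
      IntegrableOn (fun z => p z ^ 2) D (volume : Measure ℍ) ∧
      (∀ f : ℍ → ℝ, Continuous f → (∀ γ ∈ Γ, ∀ z, f (γ • z) = f z) →
        Tendsto (fun n => surfAvg D (fun z => f z * φ n z ^ 2)) atTop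
          (𝓝 (surfAvg D (fun z => f z * p z)))) ∧
      (∀ f : ℍ → ℝ, Continuous f → (∀ z, 0 ≤ f z) → (∀ γ ∈ Γ, ∀ z, f (γ • z) = f z) → ∀ ε > 0,
        ∀ᶠ n in atTop, 3 * surfAvg D (fun z => f z * p z ^ 2) - ε
          ≤ surfAvg D (fun z => f z * φ n z ^ 4)) ∧
      (∀ f : ℍ → ℝ, Continuous f → (∀ γ ∈ Γ, ∀ z, f (γ • z) = f z) →
        Tendsto (fun n => surfAvg D (fun z => f z * φ n z ^ 3)) atTop (𝓝 0)) := by
  have hF : LimFam Γ u := limFam_of_limits S hum hu hw (fun γ hγ n z hz => by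
    have e : ofComplex (mob γ z) = γ • ofComplex z := by
      unfold mob
      rw [ofComplex_apply]
    simp only [e, hinv n γ hγ])
  obtain ⟨p, hpm, hp0, hpi, hpae, hpsq, hN⟩ := no_dir_atoms hDm hD hK hF
  have hfin : (volume : Measure ℍ) D ≠ ⊤ := finite_of_cocompact hD hK
  have hpI : IntegrableOn p D (volume : Measure ℍ) := by
    have : IsFiniteMeasure ((volume : Measure ℍ).restrict D) := ⟨by
      rw [Measure.restrict_apply_univ]; exact hfin.lt_top⟩
    have h2 : MemLp p 2 ((volume : Measure ℍ).restrict D) :=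
      (memLp_two_iff_integrable_sq hpm.aestronglyMeasurable).2 hpsq
    exact h2.integrable (by norm_num)
  have hpw : ∀ᵐ z ∂((volume : Measure ℂ).restrict UH), u 0 z = (p (ofComplex z) : ℂ) := by
    have h1 : ∀ᵐ z ∂((volume : Measure ℂ).restrict UH), p (ofComplex z) = (u 0 z).re := by
      refine ae_UH ?_
      filter_upwards [hpae] with z hz
      rw [ofComplex_apply]; exact hz
    filter_upwards [h1, hF.real] with z h1 h2
    rw [h1]
    exact Complex.ext rfl (by rw [h2.2, Complex.ofReal_im])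
  have hw0 : WLim UH (fun n z => (φ n (ofComplex z) : ℂ) * (φ n (ofComplex z) : ℂ)) (u 0) :=
    S.lim_zero hu hw 0
  refine ⟨p, hpm, hp0, hpi, hpI, hpsq, fun f hf hfi =>
    mass_limit hD hK hc hinv hw0 hpm hpi hpI hpw hf hfi, ?_, ?_⟩
  · -- fourth moments
    intro f hf hf0 hfi ε hε
    obtain ⟨ζ, h1, h2, h3, h4, h5⟩ := Surf.exists_test_int hD hK
    obtain ⟨B, hB⟩ := bdd_of_cocompact hf hfi hK
    have hco : ∀ n, ContinuousOn (fun z => φ n (ofComplex z)) UH := fun n w hw =>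
      ((hc n).continuousAt.comp
        (contMDiffAt_ofComplex (n := 0) (show 0 < w.im from hw)).continuousAt).continuousWithinAt
    have hζf : Continuous fun w => ζ w * f (ofComplex w) := Surf.continuous_cut_mul h1 h3 hf
    have hζs : HasCompactSupport fun w => ζ w * f (ofComplex w) := h2.mul_right
    have hζsub : tsupport (fun w => ζ w * f (ofComplex w)) ⊆ UH :=
      (closure_mono (Function.support_mul_subset_left _ _)).trans h3
    have hv := Surf.vol_pos hD hK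
    have hlow := cont_lower isOpen_UH (F := fun n z => φ n (ofComplex z) ^ 4)
      (fun n => (hco n).pow 4) (fun n z => by positivity) (p2 := fun z => ‖u 0 z‖ ^ 2)
      (fun z => by positivity) (fun K hKc hKU => by
        have := hu 0 K hKc hKU
        exact (memLp_two_iff_integrable_sq_norm this.1).1 this)
      (fun η hηs hηc hηU hη0 ε hε => by
        have h6 := local_atomless S hum hu hw (S.lim_conj hu hw) hηs hηc hηU hη0
          (hN η hηs.continuous hηc hηU hη0) hε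
        simpa only [Complex.ofReal_re] using h6) hζf hζs hζsub
      (fun w => mul_nonneg (h4 w) (hf0 _)) (ε := ε * ((volume : Measure ℍ) D).toReal)
      (by positivity)
    filter_upwards [hlow] with n hn
    have s1 : ∫ z, ζ z * f (ofComplex z) * φ n (ofComplex z) ^ 4 = ∫ z in D, f z * φ n z ^ 4 := by
      have hcn : Continuous fun z => f z * φ n z ^ 4 := hf.mul ((hc n).pow 4)
      have hin : ∀ γ ∈ Γ, ∀ z, f (γ • z) * φ n (γ • z) ^ 4 = f z * φ n z ^ 4 := fun γ hγ z => by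
        rw [hfi γ hγ, hinv n γ hγ]
      have h6 := (h5 _ hcn.measurable (Surf.integrableOn_of_invariant hD hK hcn hin) hin).2
      rw [← h6]
      refine integral_congr_ae (Eventually.of_forall fun z => ?_)
      beta_reduce; ring
    have s2 : ∫ z, ζ z * f (ofComplex z) * ‖u 0 z‖ ^ 2 = ∫ z in D, f z * p z ^ 2 := by
      have hpf : IntegrableOn (fun z => f z * p z ^ 2) D (volume : Measure ℍ) := by
        refine Integrable.bdd_mul hpsq hf.aestronglyMeasurable.restrict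
          (Eventually.of_forall fun z => ?_) (c := B)
        rw [Real.norm_eq_abs]; exact hB z
      have hin : ∀ γ ∈ Γ, ∀ z, f (γ • z) * p (γ • z) ^ 2 = f z * p z ^ 2 := fun γ hγ z => by
        rw [hfi γ hγ, hpi γ hγ]
      have h6 := (h5 (fun z => f z * p z ^ 2) (hf.measurable.mul (hpm.pow_const 2)) hpf hin).2
      rw [← h6]
      refine integral_congr_ae ?_
      have hpw' := (ae_restrict_iff' isOpen_UH.measurableSet).1 hpw
      filter_upwards [hpw'] with z hz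
      by_cases hzU : z ∈ UH
      · rw [hz hzU, Complex.norm_real, Real.norm_eq_abs, sq_abs]
        ring
      · have h0 : ζ z = 0 := image_eq_zero_of_notMem_tsupport fun hh => hzU (h3 hh)
        rw [h0]; ring
    rw [s1, s2] at hn
    rw [Surf.surfAvg_eq, Surf.surfAvg_eq]
    have e1 : 3 * (((volume : Measure ℍ) D).toReal⁻¹ * ∫ z in D, f z * p z ^ 2) - ε
        = ((volume : Measure ℍ) D).toReal⁻¹ * (3 * (∫ z in D, f z * p z ^ 2)
          - ε * ((volume : Measure ℍ) D).toReal) := by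
      field_simp
    rw [e1]
    exact mul_le_mul_of_nonneg_left hn (by positivity)
  · -- third moments
    intro f hf hfi
    refine surf_third hD hK hc hinv hC (fun ζ hζ => ?_) hf hfi
    have L : JetLim UH h aH (fun n z => (φ n (ofComplex z) : ℂ)) u := ⟨hu, hw⟩
    have h6 := S.jets_three_var L (fun ρ hρ hρ0 => by
      have hρr : Continuous ρ := by
        have := Complex.continuous_re.comp hρ.smooth.continuous
        exact this
      have hρt : tsupport (fun z => (ρ z : ℂ)) = tsupport ρ := by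
        unfold tsupport
        congr 1
        ext z
        simp
      exact hN ρ hρr (by
        have := hρ.supp
        unfold HasCompactSupport at this ⊢
        rwa [hρt] at this) (by rw [← hρt]; exact hρ.sub) hρ0) hζ 0 0 0 (by norm_num)
    refine h6.congr fun n => ?_
    refine integral_congr_ae (Eventually.of_forall fun z => ?_)
    show ζ z * ((φ n (ofComplex z) : ℂ) * (φ n (ofComplex z) : ℂ) * (φ n (ofComplex z) : ℂ))
      = ζ z * (φ n (ofComplex z) : ℂ) ^ 3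
    ring

end

end QE


end

section

/-!
# Closed surfaces of negative curvature: definitions

`Γ ⊂ SL(2, ℝ)` countable with compact quotient, `ρ : ℍ → ℝ` smooth and `Γ`-invariant; the metric is
`e^{2ρ} (dx² + dy²) / y²`. Its unit tangent bundle is identified with `Γ \ SL(2, ℝ) / ±1` (the frame `g`
is based at `g • i`).
-/

open MeasureTheory Filter Topology Set
open UpperHalfPlane hiding I
open scoped ContDiff MatrixGroups ENNReal

namespace QE

namespace NC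

noncomputable section

/-- `ρ` as a function on the plane -/
def ro (ρ : ℍ → ℝ) (z : ℂ) : ℝ := ρ (ofComplex z)

/-- the weight `e^{-ρ} y` -/
def aR (ρ : ℍ → ℝ) (z : ℂ) : ℂ := ((z.im * Real.exp (-(ro ρ z)) : ℝ) : ℂ)

/-- the conformal factor `e^{2ρ} / y²` -/
def gR (ρ : ℍ → ℝ) (z : ℂ) : ℂ := ((Real.exp (2 * ro ρ z) / z.im ^ 2 : ℝ) : ℂ)

/-- the standing hypotheses on `ρ` -/
structure Fac (Γ : Subgroup SL(2, ℝ)) (ρ : ℍ → ℝ) : Prop where
  smooth : ContDiffOn ℝ ∞ (ro ρ) UH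
  inv : ∀ γ ∈ Γ, ∀ z, ρ (γ • z) = ρ z
  cpt : ∃ K : Set ℍ, IsCompact K ∧ ∀ z, ∃ γ ∈ Γ, γ • z ∈ K

/-- `-K e^{2ρ} = 1 + y² (ρ_xx + ρ_yy)` for the Gaussian curvature `K` -/
def lapR (ρ : ℍ → ℝ) (z : ℍ) : ℝ := 1 + z.im ^ 2 * Laplacian.laplacian (ro ρ) z

/-- the Fourier coefficients (along the fibres of the circle bundle) of a measure which is, after
multiplication by `e^{2ρ}`, invariant under the geodesic flow of `e^{2ρ} (dx² + dy²) / y²` -/
structure LimFamR (Γ : Subgroup SL(2, ℝ)) (ρ : ℍ → ℝ) (u : ℤ → ℂ → ℂ) : Prop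
    extends LimFam0 Γ u where
  transport : ∀ k : ℤ, ∀ ζ : ℂ → ℂ, Test UH ζ →
    ∫ z, ((aR ρ z * dz ζ z - k * dz (aR ρ) z * ζ z) * u (k - 1) z
      + (aR ρ z * dzb ζ z + k * dzb (aR ρ) z * ζ z) * u (k + 1) z) * gR ρ z = 0

/-! ### the geodesic flow -/

/-- the derivative of `ρ` along `s ↦ g exp (s P) • i`, `P = (0 1/2; 1/2 0)` -/
def Pr (ρ : ℍ → ℝ) (g : SL(2, ℝ)) : ℝ :=
  fderiv ℝ (ro ρ) ((g • UpperHalfPlane.I : ℍ) : ℂ) (1 / den g Complex.I ^ 2)

/-- the derivative of `ρ` along `s ↦ g exp (s H) • i`, `H = diag (1/2, -1/2)` -/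
def Hr (ρ : ℍ → ℝ) (g : SL(2, ℝ)) : ℝ :=
  fderiv ℝ (ro ρ) ((g • UpperHalfPlane.I : ℍ) : ℂ) (Complex.I / den g Complex.I ^ 2)

/-- `A g = e^{-ρ} (H + (P ρ) R)`, `R = (0 -1/2; 1/2 0)`: the geodesic vector field at `g` is `g A(g)` -/
def AA (ρ : ℍ → ℝ) (g : SL(2, ℝ)) : Matrix (Fin 2) (Fin 2) ℝ :=
  Real.exp (-ρ (g • UpperHalfPlane.I)) • !![1 / 2, -(Pr ρ g / 2); Pr ρ g / 2, -(1 / 2)]

/-- the geodesic vector field in the linear coordinates of `iota` -/
def XV (ρ : ℍ → ℝ) (g : SL(2, ℝ)) : ℂ × ℂ :=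
  Real.exp (-ρ (g • UpperHalfPlane.I)) • (Vq (iota g) + (Pr ρ g / 2) • (Complex.I • iota g))

/-- the geodesic flow -/
structure GFlow (ρ : ℍ → ℝ) (Φ : ℝ → SL(2, ℝ) → SL(2, ℝ)) : Prop where
  zero : ∀ g, Φ 0 g = g
  add : ∀ s t g, Φ (s + t) g = Φ s (Φ t g)
  cont : Continuous fun p : ℝ × SL(2, ℝ) => Φ p.1 p.2
  deriv : ∀ g t (i j : Fin 2), HasDerivAt (fun s => Φ s g i j)
    (((Φ t g : Matrix (Fin 2) (Fin 2) ℝ) * AA ρ (Φ t g)) i j) t
  left : ∀ γ : SL(2, ℝ), (∀ z, ρ (γ • z) = ρ z) → ∀ t g, Φ t (γ * g) = γ * Φ t g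
  neg : ∀ t g, Φ t (-g) = -Φ t g

/-! ### coordinates of pairs -/

/-- distance of `g` to `1` -/
def nn (g : SL(2, ℝ)) : ℝ := |g 0 0 - 1| + |g 0 1| + |g 1 0| + |g 1 1 - 1|

/-- distance of `v` and `w` -/
def dd (v w : SL(2, ℝ)) : ℝ := nn (v⁻¹ * w)

/-- the coordinate of `w - v` along the direction perpendicular to `v` -/
def xx (ρ : ℍ → ℝ) (v w : SL(2, ℝ)) : ℝ :=
  Real.exp (ρ (v • UpperHalfPlane.I)) * ((v⁻¹ * w) 0 1 + (v⁻¹ * w) 1 0)

/-- the coordinate of `w - v` along `v` -/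
def tt (ρ : ℍ → ℝ) (v w : SL(2, ℝ)) : ℝ :=
  Real.exp (ρ (v • UpperHalfPlane.I)) * ((v⁻¹ * w) 0 0 - (v⁻¹ * w) 1 1)

/-- the coordinate of `w - v` along the fibre -/
def yy (ρ : ℍ → ℝ) (v w : SL(2, ℝ)) : ℝ :=
  ((v⁻¹ * w) 1 0 - (v⁻¹ * w) 0 1) - ((v⁻¹ * w) 0 0 - (v⁻¹ * w) 1 1) * Pr ρ v
    + ((v⁻¹ * w) 0 1 + (v⁻¹ * w) 1 0) * Hr ρ v

/-- the negative of the Gaussian curvature at `g • i` -/
def kap (ρ : ℍ → ℝ) (g : SL(2, ℝ)) : ℝ :=
  Real.exp (-(2 * ρ (g • UpperHalfPlane.I))) * lapR ρ (g • UpperHalfPlane.I)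

/-- the algebraic part: what is needed of the coordinates `x`, `y`, `τ` of pairs, with constants
`c ≥ 1`, `0 < r ≤ 1` -/
structure PairAlg (Γ : Subgroup SL(2, ℝ)) (x y τ : SL(2, ℝ) → SL(2, ℝ) → ℝ) (c r : ℝ) : Prop where
  one_le : 1 ≤ c
  rpos : 0 < r
  rle : r ≤ 1
  -- the coordinates
  xc : Continuous fun p : SL(2, ℝ) × SL(2, ℝ) => x p.1 p.2
  yc : Continuous fun p : SL(2, ℝ) × SL(2, ℝ) => y p.1 p.2
  tc : Continuous fun p : SL(2, ℝ) × SL(2, ℝ) => τ p.1 p.2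
  xi : ∀ γ ∈ Γ, ∀ v w, x (γ * v) (γ * w) = x v w
  yi : ∀ γ ∈ Γ, ∀ v w, y (γ * v) (γ * w) = y v w
  ti : ∀ γ ∈ Γ, ∀ v w, τ (γ * v) (γ * w) = τ v w
  -- the distance
  dsymm : ∀ v w, dd w v = dd v w
  dtri : ∀ v w u, dd v w ≤ r → dd w u ≤ r → dd v u ≤ c * (dd v w + dd w u)
  dle : ∀ v w, dd v w ≤ r → dd v w ≤ c * (|x v w| + |y v w| + |τ v w|)
  xle : ∀ v w, dd v w ≤ r → |x v w| ≤ c * dd v w
  yle : ∀ v w, dd v w ≤ r → |y v w| ≤ c * dd v w
  tle : ∀ v w, dd v w ≤ r → |τ v w| ≤ c * dd v w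
  -- change of the base point
  xcc : ∀ v w u, dd v w ≤ r → dd v u ≤ r → |x v u - x v w - x w u| ≤ c * (dd v w + dd v u) ^ 2
  ycc : ∀ v w u, dd v w ≤ r → dd v u ≤ r → |y v u - y v w - y w u| ≤ c * (dd v w + dd v u) ^ 2
  tcc : ∀ v w u, dd v w ≤ r → dd v u ≤ r → |τ v u - τ v w - τ w u| ≤ c * (dd v w + dd v u) ^ 2

/-- the flow and the distance -/
structure PairFl (Φ : ℝ → SL(2, ℝ) → SL(2, ℝ)) (c L : ℝ) : Prop where
  dflow : ∀ v w t, dd (Φ t v) (Φ t w) ≤ c * Real.exp (L * |t|) * dd v w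
  dmove : ∀ v t, |t| ≤ 1 → dd v (Φ t v) ≤ c * |t|

/-- the derivatives of the coordinates along the flow, and when the second point is moved -/
structure PairDer (Φ : ℝ → SL(2, ℝ) → SL(2, ℝ)) (x y τ : SL(2, ℝ) → SL(2, ℝ) → ℝ)
    (κ : SL(2, ℝ) → ℝ) (c r : ℝ) : Prop where
  xd : ∀ v w, dd v w ≤ r → ∃ x' : ℝ, HasDerivAt (fun s => x (Φ s v) (Φ s w)) x' 0 ∧
    |x' - y v w| ≤ c * dd v w ^ 2
  yd : ∀ v w, dd v w ≤ r → ∃ y' : ℝ, HasDerivAt (fun s => y (Φ s v) (Φ s w)) y' 0 ∧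
    |y' - κ v * x v w| ≤ c * dd v w ^ 2
  td : ∀ v w, dd v w ≤ r → ∃ t' : ℝ, HasDerivAt (fun s => τ (Φ s v) (Φ s w)) t' 0 ∧
    |t'| ≤ c * dd v w ^ 2
  xm : ∀ v w, dd v w ≤ r → ∃ x' : ℝ, HasDerivAt (fun s => x v (Φ s w)) x' 0 ∧
    |x'| ≤ c * dd v w
  ym : ∀ v w, dd v w ≤ r → ∃ y' : ℝ, HasDerivAt (fun s => y v (Φ s w)) y' 0 ∧
    |y'| ≤ c * dd v w
  tm : ∀ v w, dd v w ≤ r → ∃ t' : ℝ, HasDerivAt (fun s => τ v (Φ s w)) t' 0 ∧
    |t' - 1| ≤ c * dd v w

/-- all that is needed of the coordinates `x`, `y`, `τ` of pairs, the flow `Φ` and the function `κ`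
(the negative of the curvature) -/
structure PairSys (Γ : Subgroup SL(2, ℝ)) (Φ : ℝ → SL(2, ℝ) → SL(2, ℝ))
    (x y τ : SL(2, ℝ) → SL(2, ℝ) → ℝ) (κ : SL(2, ℝ) → ℝ) (c r L k₀ k₁ : ℝ) : Prop
    extends PairAlg Γ x y τ c r, PairFl Φ c L, PairDer Φ x y τ κ c r where
  Lnn : 0 ≤ L
  kpos : 0 < k₀
  zero : ∀ g, Φ 0 g = g
  add : ∀ s t g, Φ (s + t) g = Φ s (Φ t g)
  cont : Continuous fun p : ℝ × SL(2, ℝ) => Φ p.1 p.2
  left : ∀ γ ∈ Γ, ∀ t g, Φ t (γ * g) = γ * Φ t g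
  klo : ∀ v, k₀ ≤ κ v
  khi : ∀ v, κ v ≤ k₁

/-- the set of the `w` in the box of size `δ` around `v` -/
def Bx (x τ : SL(2, ℝ) → SL(2, ℝ) → ℝ) (r δ : ℝ) (v : SL(2, ℝ)) : Set SL(2, ℝ) :=
  {w | dd v w ≤ r ∧ |x v w| ≤ δ ∧ |τ v w| ≤ δ}

variable [MeasurableSpace SL(2, ℝ)] [BorelSpace SL(2, ℝ)]

/-- the measure `e^{2ρ} μ` -/
def nuR (ρ : ℍ → ℝ) (μ : Measure SL(2, ℝ)) : Measure SL(2, ℝ) :=
  μ.withDensity fun g => ENNReal.ofReal (Real.exp (2 * ρ (g • UpperHalfPlane.I)))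

/-- what is needed of the measure -/
structure MassSys (Γ : Subgroup SL(2, ℝ)) (D : Set ℍ) (Φ : ℝ → SL(2, ℝ) → SL(2, ℝ))
    (x τ : SL(2, ℝ) → SL(2, ℝ) → ℝ) (r : ℝ) (ν : Measure SL(2, ℝ)) : Prop where
  sf : SigmaFinite ν
  left : ∀ γ ∈ Γ, Measure.map (fun g => γ * g) ν = ν
  flow : ∀ t, Measure.map (Φ t) ν = ν
  fund : IsFundamentalDomain Γ (Berry.Fd D) ν
  fin : ν (Berry.Fd D) ≠ ⊤
  -- the quadratic bound for boxes
  box : ∃ C : ℝ, 0 ≤ C ∧ ∀ δ : ℝ, 0 < δ → δ ≤ 1 →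
    ∫⁻ v in Berry.Fd D, ν (Bx x τ r δ v) ∂ν ≤ ENNReal.ofReal (C * δ ^ 2)
  -- uniform integrability
  ui : ∀ η : ℝ, 0 < η → ∃ M : ℝ, 0 < M ∧ ∀ δ : ℝ, 0 < δ → δ ≤ 1 →
    ∫⁻ v in Berry.Fd D, (if ν (Bx x τ r δ v) ≤ ENNReal.ofReal (M * δ ^ 2) then 0
      else ν (Bx x τ r δ v)) ∂ν ≤ ENNReal.ofReal (η * δ ^ 2)

end

end NC

end QE


end

section

/-!
# Closed surfaces of negative curvature: the statements of the modules
-/

open MeasureTheory Filter Topology Set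
open UpperHalfPlane hiding I
open scoped ContDiff MatrixGroups ENNReal

namespace QE

namespace NC

noncomputable section

/-! ### waves -/

/-- the local hypotheses for a sequence of eigenfunctions bounded in `L⁴` -/
def StmtSetup : Prop :=
  ∀ (Γ : Subgroup SL(2, ℝ)) (ρ : ℍ → ℝ) (φ : ℕ → ℍ → ℝ) (m : ℕ → ℝ), Fac Γ ρ →
    Berry.REigenSeq Γ ρ φ m →
    (∀ n, ContDiffOn ℝ ∞ (fun w : ℂ => φ n (ofComplex w)) UH) → (∀ n, 1 ≤ m n) →
    LBdd 4 UH (fun n z => (φ n (ofComplex z) : ℂ)) →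
    Setup UH (gR ρ) (aR ρ) (fun n => 1 / m n) (fun n z => (φ n (ofComplex z) : ℂ))

/-- the weak limits of the products of jets -/
def StmtLim : Prop :=
  ∀ (Γ : Subgroup SL(2, ℝ)) (ρ : ℍ → ℝ) (h : ℕ → ℝ) (φ : ℕ → ℂ → ℂ) (u : ℤ → ℂ → ℂ), Fac Γ ρ →
    Setup UH (gR ρ) (aR ρ) h φ → (∀ k, Measurable (u k)) → (∀ k, LocL2 UH (u k)) →
    JLim UH h (aR ρ) φ u → (∀ γ ∈ Γ, ∀ n, ∀ z ∈ UH, φ n (mob γ z) = φ n z) →
    LimFamR Γ ρ u

/-- infinitesimal invariance -/
def StmtInf : Prop :=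
  ∀ [MeasurableSpace SL(2, ℝ)] [BorelSpace SL(2, ℝ)] (Γ : Subgroup SL(2, ℝ)) (ρ : ℍ → ℝ)
    (u : ℤ → ℂ → ℂ) (μ : Measure SL(2, ℝ)) [IsFiniteMeasureOnCompacts μ], Fac Γ ρ →
    LimFamR Γ ρ u → Measure.map (fun g => -g) μ = μ →
    (∀ (k : ℤ) (ζ : ℍ → ℂ), Continuous ζ → HasCompactSupport ζ →
      ∫ g : SL(2, ℝ), ζ (g • UpperHalfPlane.I) * (starRingEnd ℂ) (dirG g ^ k) ∂μ =
        ∫ z : ℍ, ζ z * u k z) →
    ∀ H : ℂ × ℂ → ℂ, ContDiff ℝ ∞ H → HasCompactSupport H →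
      ∫ g, fderiv ℝ H (iota g) (XV ρ g) ∂(nuR ρ μ) = 0

/-! ### the functions `ρ`, `P ρ`, `H ρ` on the frames -/

/-- bounds, invariance, continuity and Lipschitz estimates -/
def StmtLip : Prop :=
  ∀ (Γ : Subgroup SL(2, ℝ)) (ρ : ℍ → ℝ), Fac Γ ρ →
    (∀ γ : SL(2, ℝ), (∀ z, ρ (γ • z) = ρ z) → ∀ g, Pr ρ (γ * g) = Pr ρ g ∧ Hr ρ (γ * g) = Hr ρ g) ∧
    (∀ g, Pr ρ (-g) = Pr ρ g ∧ Hr ρ (-g) = Hr ρ g) ∧
    Continuous ρ ∧ Continuous (Pr ρ) ∧ Continuous (Hr ρ) ∧
    ∃ B L : ℝ, 0 ≤ B ∧ 0 ≤ L ∧ (∀ z, |ρ z| ≤ B) ∧ (∀ g, |Pr ρ g| ≤ B) ∧ (∀ g, |Hr ρ g| ≤ B) ∧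
      (∀ v w : SL(2, ℝ), |ρ (w • UpperHalfPlane.I) - ρ (v • UpperHalfPlane.I)| ≤ L * dd v w) ∧
      (∀ v w : SL(2, ℝ), |Pr ρ w - Pr ρ v| ≤ L * dd v w) ∧
      (∀ v w : SL(2, ℝ), |Hr ρ w - Hr ρ v| ≤ L * dd v w)

/-! ### the flow -/

/-- existence of the geodesic flow -/
def StmtFlow : Prop :=
  ∀ (Γ : Subgroup SL(2, ℝ)) (ρ : ℍ → ℝ), Fac Γ ρ → ∃ Φ : ℝ → SL(2, ℝ) → SL(2, ℝ), GFlow ρ Φ

/-- the flow and the distance -/
def StmtFl : Prop :=
  ∀ (Γ : Subgroup SL(2, ℝ)) (ρ : ℍ → ℝ) (Φ : ℝ → SL(2, ℝ) → SL(2, ℝ)), Fac Γ ρ → GFlow ρ Φ →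
    ∃ c L : ℝ, 1 ≤ c ∧ 0 ≤ L ∧ PairFl Φ c L

/-- infinitesimal invariance implies invariance -/
def StmtInv : Prop :=
  ∀ [MeasurableSpace SL(2, ℝ)] [BorelSpace SL(2, ℝ)] (Γ : Subgroup SL(2, ℝ)) (ρ : ℍ → ℝ)
    (Φ : ℝ → SL(2, ℝ) → SL(2, ℝ)) (ν : Measure SL(2, ℝ)) [IsFiniteMeasureOnCompacts ν],
    Fac Γ ρ → GFlow ρ Φ →
    (∀ H : ℂ × ℂ → ℂ, ContDiff ℝ ∞ H → HasCompactSupport H →
      ∫ g, fderiv ℝ H (iota g) (XV ρ g) ∂ν = 0) →
    ∀ t, Measure.map (Φ t) ν = ν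

/-! ### the coordinates of pairs -/

/-- the algebraic part -/
def StmtAlg : Prop :=
  ∀ (Γ : Subgroup SL(2, ℝ)) (ρ : ℍ → ℝ), Fac Γ ρ →
    ∃ c r : ℝ, PairAlg Γ (xx ρ) (yy ρ) (tt ρ) c r

/-- the derivatives -/
def StmtDer : Prop :=
  ∀ (Γ : Subgroup SL(2, ℝ)) (ρ : ℍ → ℝ) (Φ : ℝ → SL(2, ℝ) → SL(2, ℝ)), Fac Γ ρ → GFlow ρ Φ →
    ∃ c r : ℝ, 1 ≤ c ∧ 0 < r ∧ PairDer Φ (xx ρ) (yy ρ) (tt ρ) (kap ρ) c r

/-- the measure -/
def StmtMass : Prop :=
  ∀ [MeasurableSpace SL(2, ℝ)] [BorelSpace SL(2, ℝ)] (Γ : Subgroup SL(2, ℝ)) [Countable Γ]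
    (D : Set ℍ) (ρ : ℍ → ℝ) (Φ : ℝ → SL(2, ℝ) → SL(2, ℝ)) (μ : Measure SL(2, ℝ)) (p : ℍ → ℝ),
    MeasurableSet D → IsFundamentalDomain Γ D (volume : Measure ℍ) → Fac Γ ρ →
    FlowMeas0 Γ D μ p → (∀ t, Measure.map (Φ t) (nuR ρ μ) = nuR ρ μ) →
    ∀ r : ℝ, 0 < r → r ≤ 1 → MassSys Γ D Φ (xx ρ) (tt ρ) r (nuR ρ μ)

/-! ### dynamics -/

section dyn

variable [MeasurableSpace SL(2, ℝ)]

/-- the mass, modulo `Γ`, of a set of pairs -/
def PM (D : Set ℍ) (ν : Measure SL(2, ℝ)) (P : SL(2, ℝ) → SL(2, ℝ) → Prop) : ℝ≥0∞ :=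
  ∫⁻ v in Berry.Fd D, ν {w | P v w} ∂ν

end dyn

/-- the dyadic bound for the mass of the pairs of crossing geodesics -/
def StmtSum : Prop :=
  ∀ [MeasurableSpace SL(2, ℝ)] [BorelSpace SL(2, ℝ)] (Γ : Subgroup SL(2, ℝ)) [Countable Γ]
    (D : Set ℍ) (Φ : ℝ → SL(2, ℝ) → SL(2, ℝ)) (x y τ : SL(2, ℝ) → SL(2, ℝ) → ℝ)
    (κ : SL(2, ℝ) → ℝ) (c r L k₀ k₁ : ℝ) (ν : Measure SL(2, ℝ)),
    PairSys Γ Φ x y τ κ c r L k₀ k₁ → MassSys Γ D Φ x τ r ν →
    ∃ c₀ : ℝ, 0 < c₀ ∧ ∃ l₀ : ℕ, ∃ a : ℕ → ℝ≥0∞, (∑' l, a l ≠ ⊤) ∧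
      ∀ l : ℕ, l₀ ≤ l → ∀ δ : ℝ, 0 < δ → δ ≤ c₀ / 2 ^ l →
        PM D ν (fun v w => dd v w ≤ r ∧ |x v w| ≤ δ ∧ |τ v w| ≤ δ ∧ 1 / 2 ^ l ≤ |y v w| ∧
          |y v w| ≤ 2 / 2 ^ l) ≤ a l * ENNReal.ofReal (δ ^ 2)

/-- pairs of geodesics which are close to each other at a comparable scale and cross in a bounded time
have small mass -/
def StmtCross : Prop :=
  ∀ [MeasurableSpace SL(2, ℝ)] [BorelSpace SL(2, ℝ)] (Γ : Subgroup SL(2, ℝ)) [Countable Γ]
    (D : Set ℍ) (Φ : ℝ → SL(2, ℝ) → SL(2, ℝ)) (x y τ : SL(2, ℝ) → SL(2, ℝ) → ℝ)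
    (κ : SL(2, ℝ) → ℝ) (c r L k₀ k₁ : ℝ) (ν : Measure SL(2, ℝ)),
    PairSys Γ Φ x y τ κ c r L k₀ k₁ → MassSys Γ D Φ x τ r ν →
    ∀ T A η : ℝ, 0 < T → 1 ≤ A → 0 < η → ∃ δ₀ : ℝ, 0 < δ₀ ∧ ∀ δ : ℝ, 0 < δ → δ < δ₀ →
      PM D ν (fun v w => dd v w ≤ r ∧ |τ v w| ≤ A * δ ∧ δ / A ≤ |x v w| + |y v w| ∧
        |x v w| + |y v w| ≤ A * δ ∧ ∃ t : ℝ, |t| ≤ T ∧ x (Φ t v) (Φ t w) = 0)
        ≤ ENNReal.ofReal (η * δ ^ 2)

/-- the mass of the pairs at distance about `δ` in all directions is small -/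
def StmtDiag : Prop :=
  ∀ [MeasurableSpace SL(2, ℝ)] [BorelSpace SL(2, ℝ)] (Γ : Subgroup SL(2, ℝ)) [Countable Γ]
    (D : Set ℍ) (Φ : ℝ → SL(2, ℝ) → SL(2, ℝ)) (x y τ : SL(2, ℝ) → SL(2, ℝ) → ℝ)
    (κ : SL(2, ℝ) → ℝ) (c r L k₀ k₁ : ℝ) (ν : Measure SL(2, ℝ)),
    PairSys Γ Φ x y τ κ c r L k₀ k₁ → MassSys Γ D Φ x τ r ν →
    ∀ A η : ℝ, 1 ≤ A → 0 < η → ∃ δ₀ : ℝ, 0 < δ₀ ∧ ∀ δ : ℝ, 0 < δ → δ < δ₀ →
      PM D ν (fun v w => dd v w ≤ r ∧ |x v w| ≤ δ ∧ |τ v w| ≤ δ ∧ |y v w| ≤ A * δ)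
        ≤ ENNReal.ofReal (η * δ ^ 2)

/-- **Theorem N** -/
def StmtN : Prop :=
  ∀ [MeasurableSpace SL(2, ℝ)] [BorelSpace SL(2, ℝ)] (Γ : Subgroup SL(2, ℝ)) [Countable Γ]
    (D : Set ℍ) (Φ : ℝ → SL(2, ℝ) → SL(2, ℝ)) (x y τ : SL(2, ℝ) → SL(2, ℝ) → ℝ)
    (κ : SL(2, ℝ) → ℝ) (c r L k₀ k₁ : ℝ) (ν : Measure SL(2, ℝ)),
    PairSys Γ Φ x y τ κ c r L k₀ k₁ → MassSys Γ D Φ x τ r ν →
    ∀ η : ℝ, 0 < η → ∃ ε : ℝ, 0 < ε ∧ ∃ δ₀ : ℝ, 0 < δ₀ ∧ ∀ δ : ℝ, 0 < δ → δ < δ₀ →
      PM D ν (fun v w => dd v w ≤ r ∧ |x v w| ≤ δ ∧ |τ v w| ≤ δ ∧ |y v w| ≤ ε)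
        ≤ ENNReal.ofReal (η * δ ^ 2)

/-! ### assembly -/

/-- no directional atoms -/
def StmtAtoms : Prop :=
  ∀ (Γ : Subgroup SL(2, ℝ)) [Countable Γ] (D : Set ℍ) (ρ : ℍ → ℝ) (u : ℤ → ℂ → ℂ),
    MeasurableSet D → IsFundamentalDomain Γ D (volume : Measure ℍ) → Fac Γ ρ →
    (∀ z, 0 < lapR ρ z) → LimFamR Γ ρ u →
    ∃ p : ℍ → ℝ, Measurable p ∧ (∀ z, 0 ≤ p z) ∧ (∀ γ ∈ Γ, ∀ z, p (γ • z) = p z) ∧
      (∀ᵐ z : ℍ, p z = (u 0 z).re) ∧ IntegrableOn (fun z => p z ^ 2) D (volume : Measure ℍ) ∧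
      ∀ ζ : ℂ → ℝ, Continuous ζ → HasCompactSupport ζ → tsupport ζ ⊆ UH → (∀ z, 0 ≤ ζ z) →
        Tendsto (fun N : ℕ => (1 / (N : ℝ)) * ∑ k ∈ Finset.Ioo (-(N : ℤ)) N,
          ∫ z, ζ z * ‖u k z‖ ^ 2) atTop (𝓝 0)

/-- **the final result** -/
def StmtFinal : Prop :=
  ∀ (Γ : Subgroup SL(2, ℝ)) [Countable Γ] (ρ : ℍ → ℝ),
    ContDiffOn ℝ ∞ (fun w : ℂ => ρ (ofComplex w)) {w | 0 < w.im} →
    (∀ γ ∈ Γ, ∀ z, ρ (γ • z) = ρ z) →
    (∀ z : ℍ, 0 < 1 + z.im ^ 2 * Laplacian.laplacian (fun w : ℂ => ρ (ofComplex w)) z) →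
    ∀ D : Set ℍ, MeasurableSet D → IsFundamentalDomain Γ D (volume : Measure ℍ) →
    (∃ K : Set ℍ, IsCompact K ∧ ∀ z, ∃ γ ∈ Γ, γ • z ∈ K) →
    ∀ (φ : ℕ → ℍ → ℝ) (m : ℕ → ℝ), Berry.REigenSeq Γ ρ φ m →
    (∀ n, ContDiffOn ℝ ∞ (fun w : ℂ => φ n (ofComplex w)) {w | 0 < w.im}) →
    (∀ n, Berry.rAvg ρ D (fun z => φ n z ^ 2) = 1) →
    ∀ w g : ℍ → ℝ, Continuous w → (∀ z, 0 < w z) → (∀ γ ∈ Γ, ∀ z, w (γ • z) = w z) →
    Continuous g → (∀ γ ∈ Γ, ∀ z, g (γ • z) = g z) →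
    ∀ (r : ℕ) (c : Fin r → ℝ) (x : Fin r → ℂ), ∀ ε > 0, ∀ᶠ n in atTop,
      3 * (∑ i, ∑ j, c i * c j * Berry.waveK (x i - x j)) ^ 2
          * Berry.rAvg ρ D (fun z => w z * g z * φ n z ^ 2) ^ 2 - ε
        ≤ Berry.rAvg ρ D (fun z => w z * g z ^ 2)
          * ∫ p, w p.1 * (∑ i, c i * Berry.rWave ρ (φ n) (m n) (x i) p) ^ 4
            ∂(Berry.rFrameProb ρ D)

end

end NC

end QE


end

section

/-!
# Closed surfaces of negative curvature: tools for the mass of pairs (module NC_TOOLS, helper88)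

For `G = SL(2, ℝ)`, a flow `Φ` and a measure `ν` as in `PairSys`, `MassSys`: the flow invariance of
the integrals over pairs modulo `Γ`, the change of the base point, the triple estimate, the averaging
argument, and measurability lemmas.
-/

open MeasureTheory Filter Topology Set
open UpperHalfPlane hiding I
open scoped ContDiff MatrixGroups ENNReal

namespace QE

namespace NC

noncomputable section

/-! ### continuity of the distance -/

theorem continuous_entry (i j : Fin 2) : Continuous fun g : SL(2, ℝ) => g i j :=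
  (continuous_apply_apply i j).comp continuous_subtype_val

theorem continuous_nn : Continuous nn := by
  unfold nn
  exact ((((continuous_entry 0 0).sub continuous_const).abs.add (continuous_entry 0 1).abs).add
    (continuous_entry 1 0).abs).add ((continuous_entry 1 1).sub continuous_const).abs

theorem continuous_dd : Continuous fun p : SL(2, ℝ) × SL(2, ℝ) => dd p.1 p.2 := by
  unfold dd
  exact continuous_nn.comp (continuous_fst.inv.mul continuous_snd)

theorem dd_left (γ v w : SL(2, ℝ)) : dd (γ * v) (γ * w) = dd v w := by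
  unfold dd
  rw [show (γ * v)⁻¹ * (γ * w) = v⁻¹ * w by group]

theorem dd_self (v : SL(2, ℝ)) : dd v v = 0 := by
  simp [dd, nn]

theorem dd_nonneg (v w : SL(2, ℝ)) : 0 ≤ dd v w := by
  unfold dd nn
  positivity

/-! ### the flow as a homeomorphism -/

section flow

variable {Γ : Subgroup SL(2, ℝ)} {Φ : ℝ → SL(2, ℝ) → SL(2, ℝ)}
  {x y τ : SL(2, ℝ) → SL(2, ℝ) → ℝ} {κ : SL(2, ℝ) → ℝ} {c r L k₀ k₁ : ℝ}

theorem PairSys.cont_flow (hP : PairSys Γ Φ x y τ κ c r L k₀ k₁) (s : ℝ) : Continuous (Φ s) :=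
  hP.cont.comp (continuous_const.prodMk continuous_id)

theorem PairSys.neg_flow (hP : PairSys Γ Φ x y τ κ c r L k₀ k₁) (s : ℝ) (g : SL(2, ℝ)) :
    Φ (-s) (Φ s g) = g := by
  rw [← hP.add, neg_add_cancel, hP.zero]

theorem PairSys.flow_neg (hP : PairSys Γ Φ x y τ κ c r L k₀ k₁) (s : ℝ) (g : SL(2, ℝ)) :
    Φ s (Φ (-s) g) = g := by
  rw [← hP.add, add_neg_cancel, hP.zero]

/-- the time `s` map as a homeomorphism -/
def PairSys.homeo (hP : PairSys Γ Φ x y τ κ c r L k₀ k₁) (s : ℝ) : SL(2, ℝ) ≃ₜ SL(2, ℝ) where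
  toFun := Φ s
  invFun := Φ (-s)
  left_inv := hP.neg_flow s
  right_inv := hP.flow_neg s
  continuous_toFun := hP.cont_flow s
  continuous_invFun := hP.cont_flow (-s)

end flow

variable [MeasurableSpace SL(2, ℝ)] [BorelSpace SL(2, ℝ)]
variable {Γ : Subgroup SL(2, ℝ)} {D : Set ℍ} {Φ : ℝ → SL(2, ℝ) → SL(2, ℝ)}
  {x y τ : SL(2, ℝ) → SL(2, ℝ) → ℝ} {κ : SL(2, ℝ) → ℝ} {c r L k₀ k₁ : ℝ}
  {ν : Measure SL(2, ℝ)}

/-! ### measurability -/

/-- continuous functions of pairs are measurable -/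
theorem meas_pair {f : SL(2, ℝ) × SL(2, ℝ) → ℝ} (hf : Continuous f) : Measurable f :=
  hf.measurable

theorem meas_dd : Measurable fun p : SL(2, ℝ) × SL(2, ℝ) => dd p.1 p.2 :=
  continuous_dd.measurable

theorem measSet_dd_le (a : ℝ) : MeasurableSet {p : SL(2, ℝ) × SL(2, ℝ) | dd p.1 p.2 ≤ a} :=
  measurableSet_le meas_dd measurable_const

theorem measSet_abs_le {f : SL(2, ℝ) × SL(2, ℝ) → ℝ} (hf : Continuous f) (a : ℝ) :
    MeasurableSet {p : SL(2, ℝ) × SL(2, ℝ) | |f p| ≤ a} :=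
  measurableSet_le hf.abs.measurable measurable_const

theorem measSet_le_abs {f : SL(2, ℝ) × SL(2, ℝ) → ℝ} (hf : Continuous f) (a : ℝ) :
    MeasurableSet {p : SL(2, ℝ) × SL(2, ℝ) | a ≤ |f p|} :=
  measurableSet_le measurable_const hf.abs.measurable

omit [BorelSpace SL(2, ℝ)] in
/-- the mass of the second points of a measurable set of pairs is measurable -/
theorem meas_mass [SFinite ν] {P : SL(2, ℝ) → SL(2, ℝ) → Prop}
    (hP : MeasurableSet {p : SL(2, ℝ) × SL(2, ℝ) | P p.1 p.2}) :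
    Measurable fun v : SL(2, ℝ) => ν {w | P v w} :=
  measurable_measure_prodMk_left hP

omit [BorelSpace SL(2, ℝ)] in
theorem measSet_snd {P : SL(2, ℝ) → SL(2, ℝ) → Prop}
    (hP : MeasurableSet {p : SL(2, ℝ) × SL(2, ℝ) | P p.1 p.2}) (v : SL(2, ℝ)) :
    MeasurableSet {w | P v w} :=
  (measurable_const.prodMk measurable_id) hP

omit [BorelSpace SL(2, ℝ)] in
theorem measSet_fst {P : SL(2, ℝ) → SL(2, ℝ) → Prop}
    (hP : MeasurableSet {p : SL(2, ℝ) × SL(2, ℝ) | P p.1 p.2}) (w : SL(2, ℝ)) :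
    MeasurableSet {v | P v w} :=
  (measurable_id.prodMk measurable_const) hP

theorem measSet_Bx_pair (hx : Continuous fun p : SL(2, ℝ) × SL(2, ℝ) => x p.1 p.2)
    (hτ : Continuous fun p : SL(2, ℝ) × SL(2, ℝ) => τ p.1 p.2) (r δ : ℝ) :
    MeasurableSet {p : SL(2, ℝ) × SL(2, ℝ) | p.2 ∈ Bx x τ r δ p.1} :=
  (measSet_dd_le r).inter ((measSet_abs_le hx δ).inter (measSet_abs_le hτ δ))

/-! ### invariance -/

namespace MassSys

variable {xx' tt' : SL(2, ℝ) → SL(2, ℝ) → ℝ}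

theorem smulInv (hM : MassSys Γ D Φ x τ r ν) : SMulInvariantMeasure Γ SL(2, ℝ) ν where
  measure_preimage_smul g s hs := by
    have h := hM.left g g.2
    have hm : Measurable fun x : SL(2, ℝ) => (g : SL(2, ℝ)) * x :=
      (continuous_const_mul (g : SL(2, ℝ))).measurable
    conv_rhs => rw [← h, Measure.map_apply hm hs]
    rfl

/-- the mass of an invariant family of sets is invariant -/
theorem mass_inv (hM : MassSys Γ D Φ x τ r ν) {P : SL(2, ℝ) → SL(2, ℝ) → Prop}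
    (hP : MeasurableSet {p : SL(2, ℝ) × SL(2, ℝ) | P p.1 p.2})
    (hinv : ∀ γ ∈ Γ, ∀ v w, P (γ * v) (γ * w) ↔ P v w) {γ : SL(2, ℝ)} (hγ : γ ∈ Γ)
    (v : SL(2, ℝ)) : ν {w | P (γ * v) w} = ν {w | P v w} := by
  have h := hM.left γ hγ
  have hm : Measurable fun x : SL(2, ℝ) => γ * x := (continuous_const_mul γ).measurable
  conv_lhs => rw [← h, Measure.map_apply hm (measSet_snd hP _)]
  congr 1
  ext w
  exact hinv γ hγ v w

/-- the integral over the second point of an invariant function is invariant -/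
theorem lint_inv (hM : MassSys Γ D Φ x τ r ν) {F : SL(2, ℝ) → SL(2, ℝ) → ℝ≥0∞}
    (hinv : ∀ γ ∈ Γ, ∀ v w, F (γ * v) (γ * w) = F v w) {γ : SL(2, ℝ)} (hγ : γ ∈ Γ)
    (v : SL(2, ℝ)) : ∫⁻ w, F (γ * v) w ∂ν = ∫⁻ w, F v w ∂ν := by
  have hemb : MeasurableEmbedding fun x : SL(2, ℝ) => γ * x :=
    (Homeomorph.mulLeft γ).measurableEmbedding
  have hmp : MeasurePreserving (fun x : SL(2, ℝ) => γ * x) ν ν :=
    ⟨(continuous_const_mul γ).measurable, hM.left γ hγ⟩
  rw [← hmp.lintegral_comp_emb hemb fun w => F (γ * v) w]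
  exact lintegral_congr fun w => hinv γ hγ v w

/-- change of the base point -/
theorem base_change [Countable Γ] (hM : MassSys Γ D Φ x τ r ν)
    {F : SL(2, ℝ) → SL(2, ℝ) → ℝ≥0∞} (hF : Measurable (Function.uncurry F))
    (hinv : ∀ γ ∈ Γ, ∀ v w, F (γ * v) (γ * w) = F v w) :
    ∫⁻ v in Berry.Fd D, ∫⁻ w, F v w ∂ν ∂ν = ∫⁻ w in Berry.Fd D, ∫⁻ v, F v w ∂ν ∂ν := by
  have := hM.smulInv
  have := hM.sf
  exact base_change_gen hM.fund hM.fund hF fun γ v w => hinv γ γ.2 v w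

end MassSys

/-- the mass of pairs is symmetric -/
theorem PM_symm [Countable Γ] (hM : MassSys Γ D Φ x τ r ν) {P : SL(2, ℝ) → SL(2, ℝ) → Prop}
    (hP : MeasurableSet {p : SL(2, ℝ) × SL(2, ℝ) | P p.1 p.2})
    (hinv : ∀ γ ∈ Γ, ∀ v w, P (γ * v) (γ * w) ↔ P v w) :
    PM D ν P = PM D ν fun v w => P w v := by
  classical
  have := hM.sf
  have e1 : ∀ v, ν {w | P v w} = ∫⁻ w, (if P v w then 1 else 0) ∂ν := by
    intro v
    rw [← lintegral_indicator_one (measSet_snd hP v)]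
    rfl
  have e2 : ∀ w, ν {v | P v w} = ∫⁻ v, (if P v w then 1 else 0) ∂ν := by
    intro w
    rw [← lintegral_indicator_one (measSet_fst hP w)]
    rfl
  unfold PM
  simp only [e1, e2]
  refine hM.base_change (F := fun v w => if P v w then 1 else 0) ?_ ?_
  · exact Measurable.ite hP measurable_const measurable_const
  · intro γ hγ v w
    simp only [hinv γ hγ v w]

omit [BorelSpace SL(2, ℝ)] in
theorem PM_mono {P Q : SL(2, ℝ) → SL(2, ℝ) → Prop} (h : ∀ v w, P v w → Q v w) :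
    PM D ν P ≤ PM D ν Q :=
  lintegral_mono fun v => measure_mono fun w hw => h v w hw

theorem mp_flow (hP : PairSys Γ Φ x y τ κ c r L k₀ k₁) (hM : MassSys Γ D Φ x τ r ν) (s : ℝ) :
    MeasurePreserving (Φ s) ν ν :=
  ⟨(hP.cont_flow s).measurable, hM.flow s⟩

theorem emb_flow (hP : PairSys Γ Φ x y τ κ c r L k₀ k₁) (s : ℝ) :
    MeasurableEmbedding (Φ s) :=
  (hP.homeo s).measurableEmbedding

/-- **Flow invariance of the integrals over the fundamental domain.** -/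
theorem setLIntegral_flow [Countable Γ] (hP : PairSys Γ Φ x y τ κ c r L k₀ k₁)
    (hM : MassSys Γ D Φ x τ r ν) {f : SL(2, ℝ) → ℝ≥0∞}
    (hinv : ∀ γ ∈ Γ, ∀ g, f (γ * g) = f g) (s : ℝ) :
    ∫⁻ v in Berry.Fd D, f (Φ s v) ∂ν = ∫⁻ v in Berry.Fd D, f v ∂ν := by
  have := hM.smulInv
  have hfund : IsFundamentalDomain Γ ((Φ (-s)) ⁻¹' (Berry.Fd D)) ν :=
    hM.fund.preimage_of_equiv (mp_flow hP hM (-s)).quasiMeasurePreserving (e := id)
      Function.bijective_id fun γ g => by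
      show Φ (-s) ((γ : SL(2, ℝ)) * g) = (γ : SL(2, ℝ)) * Φ (-s) g
      exact hP.left γ γ.2 (-s) g
  have h1 := (mp_flow hP hM s).setLIntegral_comp_preimage_emb (emb_flow hP s) f
    ((Φ (-s)) ⁻¹' (Berry.Fd D))
  have e2 : (Φ s) ⁻¹' ((Φ (-s)) ⁻¹' (Berry.Fd D)) = Berry.Fd D := by
    ext g
    simp only [Set.mem_preimage, hP.neg_flow]
  rw [e2] at h1
  rw [h1]
  exact hfund.setLIntegral_eq hM.fund f fun γ g => hinv γ γ.2 g

/-- **Flow invariance of the integrals over pairs.** -/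
theorem PM_flow [Countable Γ] (hP : PairSys Γ Φ x y τ κ c r L k₀ k₁)
    (hM : MassSys Γ D Φ x τ r ν) {F : SL(2, ℝ) → SL(2, ℝ) → ℝ≥0∞}
    (hinv : ∀ γ ∈ Γ, ∀ v w, F (γ * v) (γ * w) = F v w) (s t : ℝ) :
    ∫⁻ v in Berry.Fd D, ∫⁻ w, F (Φ s v) (Φ t w) ∂ν ∂ν =
      ∫⁻ v in Berry.Fd D, ∫⁻ w, F v w ∂ν ∂ν := by
  have e1 : ∀ v, ∫⁻ w, F (Φ s v) (Φ t w) ∂ν = ∫⁻ w, F (Φ s v) w ∂ν := fun v =>
    (mp_flow hP hM t).lintegral_comp_emb (emb_flow hP t) fun w => F (Φ s v) w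
  simp only [e1]
  exact setLIntegral_flow hP hM (f := fun v => ∫⁻ w, F v w ∂ν)
    (fun γ hγ v => hM.lint_inv hinv hγ v) s

/-- flow invariance of the mass of a set of pairs -/
theorem PM_flow_set [Countable Γ] (hP : PairSys Γ Φ x y τ κ c r L k₀ k₁)
    (hM : MassSys Γ D Φ x τ r ν) {P : SL(2, ℝ) → SL(2, ℝ) → Prop}
    (hPm : MeasurableSet {p : SL(2, ℝ) × SL(2, ℝ) | P p.1 p.2})
    (hinv : ∀ γ ∈ Γ, ∀ v w, P (γ * v) (γ * w) ↔ P v w) (s t : ℝ) :
    PM D ν (fun v w => P (Φ s v) (Φ t w)) = PM D ν P := by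
  classical
  have hPm' : MeasurableSet {p : SL(2, ℝ) × SL(2, ℝ) | P (Φ s p.1) (Φ t p.2)} :=
    (((hP.cont_flow s).measurable.comp measurable_fst).prodMk
      ((hP.cont_flow t).measurable.comp measurable_snd)) hPm
  have e1 : ∀ v, ν {w | P v w} = ∫⁻ w, (if P v w then 1 else 0) ∂ν := by
    intro v
    rw [← lintegral_indicator_one (measSet_snd hPm v)]
    rfl
  have e2 : ∀ v, ν {w | P (Φ s v) (Φ t w)} = ∫⁻ w, (if P (Φ s v) (Φ t w) then 1 else 0) ∂ν := by
    intro v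
    rw [← lintegral_indicator_one
      (measSet_snd (P := fun v w => P (Φ s v) (Φ t w)) hPm' v)]
    rfl
  unfold PM
  simp only [e1, e2]
  refine PM_flow hP hM (F := fun v w => if P v w then 1 else 0) ?_ s t
  intro γ hγ v w
  simp only [hinv γ hγ v w]

/-- **the triple estimate** -/
theorem triple [Countable Γ] (hM : MassSys Γ D Φ x τ r ν)
    {X Y Z W : SL(2, ℝ) → SL(2, ℝ) → Prop}
    (hX : MeasurableSet {p : SL(2, ℝ) × SL(2, ℝ) | X p.1 p.2})
    (hY : MeasurableSet {p : SL(2, ℝ) × SL(2, ℝ) | Y p.1 p.2})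
    (hZ : MeasurableSet {p : SL(2, ℝ) × SL(2, ℝ) | Z p.1 p.2})
    (hW : MeasurableSet {p : SL(2, ℝ) × SL(2, ℝ) | W p.1 p.2})
    (iX : ∀ γ ∈ Γ, ∀ v w, X (γ * v) (γ * w) ↔ X v w)
    (iY : ∀ γ ∈ Γ, ∀ v w, Y (γ * v) (γ * w) ↔ Y v w)
    (iZ : ∀ γ ∈ Γ, ∀ v w, Z (γ * v) (γ * w) ↔ Z v w)
    (hXZ : ∀ v v₀ w, X v w → X v₀ w → Z v₀ v)
    (hXY : ∀ v w w', X v w → Y v w' → W w w') (l : ℝ≥0∞) :
    ∫⁻ v in Berry.Fd D, (if ν {w | Z v w} ≤ l then ν {w | X v w} * ν {w | Y v w} else 0) ∂ν ≤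
      l * PM D ν W := by
  classical
  have := hM.sf
  have mX := meas_mass (ν := ν) hX
  have mY := meas_mass (ν := ν) hY
  have mZ := meas_mass (ν := ν) hZ
  have mW := meas_mass (ν := ν) hW
  set F : SL(2, ℝ) → SL(2, ℝ) → ℝ≥0∞ := fun v w =>
    if ν {w | Z v w} ≤ l ∧ X v w then ν {w | Y v w} else 0 with hF
  have hS : MeasurableSet {z : SL(2, ℝ) × SL(2, ℝ) | ν {w | Z z.1 w} ≤ l ∧ X z.1 z.2} :=
    (measurableSet_le (mZ.comp measurable_fst) measurable_const).inter hX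
  have hFm : Measurable (Function.uncurry F) :=
    Measurable.ite hS (mY.comp measurable_fst) measurable_const
  have e1 : ∀ v, (if ν {w | Z v w} ≤ l then ν {w | X v w} * ν {w | Y v w} else 0) =
      ∫⁻ w, F v w ∂ν := by
    intro v
    by_cases h : ν {w | Z v w} ≤ l
    · rw [if_pos h]
      have : ∀ w, F v w = ({w | X v w}).indicator (fun _ => ν {w | Y v w}) w := by
        intro w
        simp only [hF, h, true_and, indicator, mem_ofPred_eq]
      simp only [this]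
      rw [lintegral_indicator (measSet_snd hX v), setLIntegral_const, mul_comm]
    · rw [if_neg h]
      have : ∀ w, F v w = 0 := by
        intro w
        simp only [hF, h, false_and, if_false]
      simp [this]
  simp only [e1]
  rw [hM.base_change hFm]
  · unfold PM
    rw [← lintegral_const_mul _ mW]
    apply lintegral_mono
    intro w
    -- the set of admissible `v`
    set V : Set SL(2, ℝ) := {v | ν {w | Z v w} ≤ l ∧ X v w} with hV
    have hVm : MeasurableSet V :=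
      (measurableSet_le mZ measurable_const).inter (measSet_fst hX w)
    have hb : ∀ v, F v w ≤ V.indicator (fun _ => ν {w' | W w w'}) v := by
      intro v
      by_cases h : v ∈ V
      · rw [indicator_of_mem h]
        have h' : ν {w | Z v w} ≤ l ∧ X v w := h
        simp only [hF, if_pos h']
        apply measure_mono
        intro w' hw'
        exact hXY v w w' h'.2 hw'
      · have h' : ¬ (ν {w | Z v w} ≤ l ∧ X v w) := h
        simp only [hF, if_neg h']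
        exact zero_le
    have hVl : ν V ≤ l := by
      rcases V.eq_empty_or_nonempty with h | ⟨v₀, hv₀⟩
      · rw [h]
        simp
      · refine le_trans (measure_mono ?_) hv₀.1
        intro v hv
        exact hXZ v v₀ w hv.2 hv₀.2
    calc ∫⁻ v, F v w ∂ν ≤ ∫⁻ v, V.indicator (fun _ => ν {w' | W w w'}) v ∂ν :=
          lintegral_mono hb
      _ = ν {w' | W w w'} * ν V := by
          rw [lintegral_indicator hVm, setLIntegral_const]
      _ ≤ ν {w' | W w w'} * l := by gcongr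
      _ = l * ν {w' | W w w'} := mul_comm _ _
  · intro γ hγ v w
    have h1 := hM.mass_inv hZ iZ hγ v
    have h2 := hM.mass_inv hY iY hγ v
    simp only [hF, h1, h2, iX γ hγ v w]

/-- **the averaging argument** -/
theorem averaging [Countable Γ] (hP : PairSys Γ Φ x y τ κ c r L k₀ k₁)
    (hM : MassSys Γ D Φ x τ r ν) {f : SL(2, ℝ) → ℝ≥0∞}
    (hf : Measurable f) (hinv : ∀ γ ∈ Γ, ∀ g, f (γ * g) = f g) {B : ℝ≥0∞} (hB : B ≠ ⊤)
    (hfB : ∀ g, f g ≤ B) {ρ : ℝ≥0∞} (n : ℕ) (σ : ℝ)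
    (ho : ∀ k : ℕ, 0 < k → k < n → ∫⁻ g in Berry.Fd D, f g * f (Φ (k * σ) g) ∂ν ≤ ρ)
    (hfin : ∫⁻ g in Berry.Fd D, f g ∂ν ≠ ⊤) :
    n * B * ∫⁻ g in Berry.Fd D, f g ∂ν ≤ n ^ 2 * ρ + B ^ 2 * ν (Berry.Fd D) := by
  set I := ∫⁻ g in Berry.Fd D, f g ∂ν with hI
  have hfs : ∀ s : ℝ, Measurable fun g => f (Φ s g) := by
    intro s
    exact hf.comp (hP.cont_flow s).measurable
  have hsh : ∀ s : ℝ, ∫⁻ g in Berry.Fd D, f (Φ s g) ∂ν = I :=
    fun s => setLIntegral_flow hP hM hinv s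
  -- correlations
  have hcorr : ∀ i j : ℕ, i < n → j < n → i < j →
      ∫⁻ g in Berry.Fd D, f (Φ (i * σ) g) * f (Φ (j * σ) g) ∂ν ≤ ρ := by
    intro i j _ hj hij
    have h1 := setLIntegral_flow hP hM (f := fun g => f g * f (Φ ((j - i : ℕ) * σ) g))
      (fun γ hγ g => by
        simp only [hP.left γ hγ, hinv γ hγ]) (i * σ)
    have h2 : ∀ g : SL(2, ℝ), Φ ((j - i : ℕ) * σ) (Φ (i * σ) g) = Φ (j * σ) g := by
      intro g
      rw [← hP.add]
      congr 1
      rw [Nat.cast_sub hij.le]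
      ring
    simp only [h2] at h1
    rw [h1]
    exact ho (j - i) (by omega) (by omega)
  have hall : ∀ i ∈ Finset.range n, ∀ j ∈ Finset.range n,
      ∫⁻ g in Berry.Fd D, f (Φ (i * σ) g) * f (Φ (j * σ) g) ∂ν ≤
        ρ + if i = j then B * I else 0 := by
    intro i hi j hj
    rw [Finset.mem_range] at hi hj
    rcases lt_trichotomy i j with h | h | h
    · exact (hcorr i j hi hj h).trans le_self_add
    · subst h
      rw [if_pos rfl]
      calc ∫⁻ g in Berry.Fd D, f (Φ (i * σ) g) * f (Φ (i * σ) g) ∂ν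
          ≤ ∫⁻ g in Berry.Fd D, B * f (Φ (i * σ) g) ∂ν := by
            apply lintegral_mono
            intro g
            exact mul_le_mul' (hfB _) le_rfl
        _ = B * I := by rw [lintegral_const_mul _ (hfs _), hsh]
        _ ≤ _ := le_add_self
    · have h2 := hcorr j i hj hi h
      refine le_trans (le_of_eq ?_) (h2.trans le_self_add)
      apply lintegral_congr
      intro g
      exact mul_comm _ _
  set G : SL(2, ℝ) → ℝ≥0∞ := fun g => ∑ i ∈ Finset.range n, f (Φ (i * σ) g) with hG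
  have hGm : Measurable G := Finset.measurable_fun_sum _ fun i _ => hfs _
  have hG1 : ∫⁻ g in Berry.Fd D, G g ∂ν = n * I := by
    rw [lintegral_finsetSum _ fun i _ => hfs _]
    simp only [hsh, Finset.sum_const, Finset.card_range, nsmul_eq_mul]
  have hG2 : ∫⁻ g in Berry.Fd D, G g ^ 2 ∂ν ≤ n ^ 2 * ρ + n * (B * I) := by
    have e : ∀ g, G g ^ 2 = ∑ i ∈ Finset.range n, ∑ j ∈ Finset.range n,
        f (Φ (i * σ) g) * f (Φ (j * σ) g) := by
      intro g
      rw [sq, hG, Finset.sum_mul_sum]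
    simp only [e]
    rw [lintegral_finsetSum]
    swap
    · intro i _
      exact Finset.measurable_fun_sum _ fun j _ => (hfs _).mul (hfs _)
    calc ∑ i ∈ Finset.range n, ∫⁻ g in Berry.Fd D, ∑ j ∈ Finset.range n,
          f (Φ (i * σ) g) * f (Φ (j * σ) g) ∂ν
        = ∑ i ∈ Finset.range n, ∑ j ∈ Finset.range n, ∫⁻ g in Berry.Fd D,
          f (Φ (i * σ) g) * f (Φ (j * σ) g) ∂ν := by
          apply Finset.sum_congr rfl
          intro i _
          exact lintegral_finsetSum _ fun j _ => (hfs _).mul (hfs _)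
      _ ≤ ∑ i ∈ Finset.range n, ∑ j ∈ Finset.range n, (ρ + if i = j then B * I else 0) :=
          Finset.sum_le_sum fun i hi => Finset.sum_le_sum fun j hj => hall i hi j hj
      _ = n ^ 2 * ρ + n * (B * I) := by
          simp only [Finset.sum_add_distrib, Finset.sum_const, Finset.card_range, nsmul_eq_mul,
            Finset.sum_ite_eq, Finset.mem_range]
          rw [Finset.sum_ite, Finset.sum_const_zero, add_zero, Finset.sum_const, nsmul_eq_mul]
          have : (Finset.filter (fun i => i < n) (Finset.range n)).card = n := by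
            rw [Finset.filter_true_of_mem fun i hi => Finset.mem_range.1 hi, Finset.card_range]
          rw [this]
          ring
  have hpt : ∀ g, 2 * B * G g ≤ G g ^ 2 + B ^ 2 := by
    intro g
    generalize G g = x
    rcases eq_or_ne x ⊤ with h | h
    · rw [h]
      simp
    · lift x to NNReal using h
      lift B to NNReal using hB
      norm_cast
      have := two_mul_le_add_sq (x : ℝ) (B : ℝ)
      rw [← NNReal.coe_le_coe]
      push_cast
      nlinarith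
  have h1 : 2 * B * (n * I) ≤ n ^ 2 * ρ + n * (B * I) + B ^ 2 * ν (Berry.Fd D) := by
    calc 2 * B * (n * I) = ∫⁻ g in Berry.Fd D, 2 * B * G g ∂ν := by
          rw [lintegral_const_mul _ hGm, hG1]
      _ ≤ ∫⁻ g in Berry.Fd D, (G g ^ 2 + B ^ 2) ∂ν := lintegral_mono hpt
      _ = ∫⁻ g in Berry.Fd D, G g ^ 2 ∂ν + B ^ 2 * ν (Berry.Fd D) := by
          rw [lintegral_add_right _ measurable_const, setLIntegral_const]
      _ ≤ _ := by gcongr
  have h2 : (n * B * I) + (n * B * I) ≤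
      (n * B * I) + (n ^ 2 * ρ + B ^ 2 * ν (Berry.Fd D)) := by
    calc (n * B * I) + (n * B * I) = 2 * B * (n * I) := by ring
      _ ≤ _ := h1
      _ = _ := by ring
  have hne : n * B * I ≠ ⊤ :=
    ENNReal.mul_ne_top (ENNReal.mul_ne_top (ENNReal.natCast_ne_top n) hB) hfin
  exact (ENNReal.add_le_add_iff_left hne).1 h2

end

end NC

end QE


end
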