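import Mathlib
import Pool.Agent.BWM.C04
import Pool.Agent.BWM.C13
import Pool.Agent.BWM.C14
import Pool.Agent.BWM.C18
import Pool.Agent.BWM.C21

/-! Parts: Lib_helper67.QE.HypConseq, Lib_helper67.QE.VarLim, Lib_helper67.QE.HypFinal, Lib_helper67.QE.LinAlg, Lib_helper67.QE.LinLoc, Lib_helper67.QE.LinModel, Lib_helper67.QE.LinLocal, Lib_helper67.QE.LinGlobal, Lib_helper67.QE.HypLin, Lib_helper67.QE.TwoThree, Lib_helper67.QE.HypTwo, Lib_helper67.QE.HypStat, Lib_helper67.QE.HypStatW, NCV.Final, Lib_helper67.QE.HypPts, NCV.Three, NCV.N -/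

section

/-!
Consequences of the existence of good subsequences: the lower bound for the fourth moments, and the
equidistribution in the case of equality.
-/

open UpperHalfPlane MeasureTheory MatrixGroups Filter Topology Set Berry
open scoped ENNReal ContDiff

namespace QE

noncomputable section

variable {Γ : Subgroup SL(2, ℝ)} {D : Set ℍ}

/-- the conclusions along a subsequence with microlocal limits: `p` is the weak limit of the
squares, the fourth moments are at least `3 p²` and the third moments vanish -/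
structure Good (Γ : Subgroup SL(2, ℝ)) (D : Set ℍ) (φ : ℕ → ℍ → ℝ) (p : ℍ → ℝ) : Prop where
  pm : Measurable p
  p0 : ∀ z, 0 ≤ p z
  pinv : ∀ γ ∈ Γ, ∀ z, p (γ • z) = p z
  pI : IntegrableOn p D (volume : Measure ℍ)
  psq : IntegrableOn (fun z => p z ^ 2) D (volume : Measure ℍ)
  mass : ∀ f : ℍ → ℝ, Continuous f → (∀ γ ∈ Γ, ∀ z, f (γ • z) = f z) →
    Tendsto (fun n => surfAvg D (fun z => f z * φ n z ^ 2)) atTop
      (𝓝 (surfAvg D (fun z => f z * p z)))
  four : ∀ f : ℍ → ℝ, Continuous f → (∀ z, 0 ≤ f z) → (∀ γ ∈ Γ, ∀ z, f (γ • z) = f z) → ∀ ε > 0,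
    ∀ᶠ n in atTop, 3 * surfAvg D (fun z => f z * p z ^ 2) - ε
      ≤ surfAvg D (fun z => f z * φ n z ^ 4)
  three : ∀ f : ℍ → ℝ, Continuous f → (∀ γ ∈ Γ, ∀ z, f (γ • z) = f z) →
    Tendsto (fun n => surfAvg D (fun z => f z * φ n z ^ 3)) atTop (𝓝 0)

/-- every sequence of eigenfunctions with bounded fourth moments has a good subsequence -/
def HasGood (Γ : Subgroup SL(2, ℝ)) (D : Set ℍ) : Prop :=
  ∀ (φ : ℕ → ℍ → ℝ) (m : ℕ → ℝ), EigenSeq Γ φ m →
    (∀ n, ContDiffOn ℝ ∞ (fun w : ℂ => φ n (ofComplex w)) {w | 0 < w.im}) →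
    (∃ C, ∀ n, surfAvg D (fun z => φ n z ^ 4) ≤ C) →
    ∃ s : ℕ → ℕ, StrictMono s ∧ ∃ p, Good Γ D (fun n => φ (s n)) p

theorem eigenSeq_comp {φ : ℕ → ℍ → ℝ} {m : ℕ → ℝ} (h : EigenSeq Γ φ m) {s : ℕ → ℕ}
    (hs : Tendsto s atTop atTop) : EigenSeq Γ (fun n => φ (s n)) (fun n => m (s n)) :=
  ⟨fun _ => h.invariant _, fun _ => h.smooth _, fun _ => h.eigen _, h.tendsto.comp hs⟩

/-- the mean square deviation of `p` from its mean -/
theorem avg_sq [Countable Γ] (hD : IsFundamentalDomain Γ D (volume : Measure ℍ))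
    (hK : ∃ K : Set ℍ, IsCompact K ∧ ∀ z, ∃ γ ∈ Γ, γ • z ∈ K) {p : ℍ → ℝ}
    (pI : IntegrableOn p D (volume : Measure ℍ))
    (psq : IntegrableOn (fun z => p z ^ 2) D (volume : Measure ℍ)) (h1 : surfAvg D p = 1) :
    surfAvg D (fun z => (p z - 1) ^ 2) = surfAvg D (fun z => p z ^ 2) - 1 := by
  have hfin : (volume : Measure ℍ) D ≠ ⊤ := finite_of_cocompact hD hK
  have e : (fun z => (p z - 1) ^ 2) = fun z => p z ^ 2 - (2 * p z - 1) := by
    funext z; ring
  have i1 : IntegrableOn (fun _ : ℍ => (1 : ℝ)) D (volume : Measure ℍ) := integrableOn_const hfin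
  have i2 : IntegrableOn (fun z => 2 * p z) D (volume : Measure ℍ) := pI.const_mul 2
  have i3 : IntegrableOn (fun z => 2 * p z - 1) D (volume : Measure ℍ) := i2.sub i1
  rw [e, Surf.surfAvg_sub psq i3, Surf.surfAvg_sub i2 i1, Surf.surfAvg_const_mul, h1,
    Surf.surfAvg_one hD hK]
  ring

theorem Good.avg_p {φ : ℕ → ℍ → ℝ} {p : ℍ → ℝ}
    (h : Good Γ D φ p) (hn : ∀ n, surfAvg D (fun z => φ n z ^ 2) = 1) : surfAvg D p = 1 := by
  have h1 := h.mass (fun _ => 1) continuous_const (fun _ _ _ => rfl)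
  simp only [one_mul, hn] at h1
  exact (tendsto_nhds_unique h1 tendsto_const_nhds)

/-- **The lower bound for the fourth moments.** -/
theorem fourth_lower [Countable Γ] (hD : IsFundamentalDomain Γ D (volume : Measure ℍ))
    (hK : ∃ K : Set ℍ, IsCompact K ∧ ∀ z, ∃ γ ∈ Γ, γ • z ∈ K) (H : HasGood Γ D)
    {φ : ℕ → ℍ → ℝ} {m : ℕ → ℝ} (hφ : EigenSeq Γ φ m)
    (hs : ∀ n, ContDiffOn ℝ ∞ (fun w : ℂ => φ n (ofComplex w)) {w | 0 < w.im})
    (hn : ∀ n, surfAvg D (fun z => φ n z ^ 2) = 1) {ε : ℝ} (hε : 0 < ε) :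
    ∀ᶠ n in atTop, 3 - ε ≤ surfAvg D (fun z => φ n z ^ 4) := by
  by_contra hcon
  rw [Filter.not_eventually] at hcon
  obtain ⟨s, hsm, hsn⟩ := extraction_of_frequently_atTop hcon
  simp only [not_le] at hsn
  obtain ⟨t, ht, p, hg⟩ := H _ _ (eigenSeq_comp hφ hsm.tendsto_atTop) (fun n => hs _)
    ⟨3 - ε, fun n => (hsn n).le⟩
  have hp1 := hg.avg_p (fun n => hn _)
  have h1 := hg.four (fun _ => 1) continuous_const (fun _ => zero_le_one) (fun _ _ _ => rfl)
    (ε / 2) (by positivity)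
  obtain ⟨n, hn1⟩ := h1.exists
  simp only [one_mul] at hn1
  have h2 := avg_sq hD hK hg.pI hg.psq hp1
  have h3 : 0 ≤ surfAvg D (fun z => (p z - 1) ^ 2) := Surf.surfAvg_nonneg fun z => sq_nonneg _
  have h4 := hsn (t n)
  linarith

/-- **Equality implies equidistribution.** -/
theorem equi_of_three [Countable Γ] (hD : IsFundamentalDomain Γ D (volume : Measure ℍ))
    (hK : ∃ K : Set ℍ, IsCompact K ∧ ∀ z, ∃ γ ∈ Γ, γ • z ∈ K) (H : HasGood Γ D)
    {φ : ℕ → ℍ → ℝ} {m : ℕ → ℝ} (hφ : EigenSeq Γ φ m)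
    (hs : ∀ n, ContDiffOn ℝ ∞ (fun w : ℂ => φ n (ofComplex w)) {w | 0 < w.im})
    (hn : ∀ n, surfAvg D (fun z => φ n z ^ 2) = 1)
    (h4 : Tendsto (fun n => surfAvg D (fun z => φ n z ^ 4)) atTop (𝓝 3))
    {f : ℍ → ℝ} (hf : Continuous f) (hfi : ∀ γ ∈ Γ, ∀ z, f (γ • z) = f z) :
    Tendsto (fun n => surfAvg D (fun z => f z * φ n z ^ 2)) atTop (𝓝 (surfAvg D f)) := by
  refine tendsto_of_subseq_tendsto fun ns hns => ?_
  have hb : ∃ C, ∀ n, surfAvg D (fun z => φ (ns n) z ^ 4) ≤ C := by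
    obtain ⟨C, hC⟩ := (h4.comp hns).bddAbove_range
    exact ⟨C, fun n => hC ⟨n, rfl⟩⟩
  obtain ⟨t, ht, p, hg⟩ := H _ _ (eigenSeq_comp hφ hns) (fun n => hs _) hb
  refine ⟨t, ?_⟩
  have hp1 := hg.avg_p (fun n => hn _)
  have h2 := avg_sq hD hK hg.pI hg.psq hp1
  -- the mean square of `p` is at most one
  have h5 : surfAvg D (fun z => p z ^ 2) ≤ 1 := by
    refine le_of_forall_pos_le_add fun ε hε => ?_
    have h6 := hg.four (fun _ => 1) continuous_const (fun _ => zero_le_one) (fun _ _ _ => rfl)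
      ε hε
    have h7 : ∀ᶠ n in atTop, surfAvg D (fun z => φ (ns (t n)) z ^ 4) < 3 + ε :=
      ((h4.comp hns).comp ht.tendsto_atTop).eventually_lt_const (by linarith)
    obtain ⟨n, hn1, hn2⟩ := (h6.and h7).exists
    simp only [one_mul] at hn1
    linarith
  have h6 : surfAvg D (fun z => (p z - 1) ^ 2) = 0 :=
    le_antisymm (by rw [h2]; linarith) (Surf.surfAvg_nonneg fun z => sq_nonneg _)
  have hv := Surf.vol_pos hD hK
  have hfin : (volume : Measure ℍ) D ≠ ⊤ := finite_of_cocompact hD hK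
  have hsq : IntegrableOn (fun z => (p z - 1) ^ 2) D (volume : Measure ℍ) := by
    have e : (fun z => (p z - 1) ^ 2) = fun z => p z ^ 2 - (2 * p z - 1) := by
      funext z; ring
    rw [e]
    exact hg.psq.sub ((hg.pI.const_mul 2).sub (integrableOn_const hfin))
  have h7 : ∫ z in D, (p z - 1) ^ 2 = 0 := by
    rw [Surf.surfAvg_eq] at h6
    rcases mul_eq_zero.1 h6 with h | h
    · exact absurd h (inv_pos.2 hv).ne'
    · exact h
  have h8 : ∀ᵐ z ∂((volume : Measure ℍ).restrict D), (p z - 1) ^ 2 = 0 :=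
    (integral_eq_zero_iff_of_nonneg (fun z => sq_nonneg _) hsq).1 h7
  have h9 : surfAvg D (fun z => f z * p z) = surfAvg D f := by
    rw [Surf.surfAvg_eq, Surf.surfAvg_eq]
    congr 1
    refine integral_congr_ae ?_
    filter_upwards [h8] with z hz
    have : p z - 1 = 0 := by simpa using hz
    have : p z = 1 := by linarith
    rw [this, mul_one]
  have h10 := hg.mass f hf hfi
  rw [h9] at h10
  exact h10

/-- **Third moments.** -/
theorem third_zero (H : HasGood Γ D)
    {φ : ℕ → ℍ → ℝ} {m : ℕ → ℝ} (hφ : EigenSeq Γ φ m)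
    (hs : ∀ n, ContDiffOn ℝ ∞ (fun w : ℂ => φ n (ofComplex w)) {w | 0 < w.im})
    {C : ℝ} (hC : ∀ n, surfAvg D (fun z => φ n z ^ 4) ≤ C)
    {f : ℍ → ℝ} (hf : Continuous f) (hfi : ∀ γ ∈ Γ, ∀ z, f (γ • z) = f z) :
    Tendsto (fun n => surfAvg D (fun z => f z * φ n z ^ 3)) atTop (𝓝 0) := by
  refine tendsto_of_subseq_tendsto fun ns hns => ?_
  obtain ⟨t, ht, p, hg⟩ := H _ _ (eigenSeq_comp hφ hns) (fun n => hs _) ⟨C, fun n => hC _⟩
  exact ⟨t, hg.three f hf hfi⟩

/-- **The local form of the lower bound.** -/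
theorem local_kurtosis [Countable Γ] (hD : IsFundamentalDomain Γ D (volume : Measure ℍ))
    (hK : ∃ K : Set ℍ, IsCompact K ∧ ∀ z, ∃ γ ∈ Γ, γ • z ∈ K) (H : HasGood Γ D)
    {φ : ℕ → ℍ → ℝ} {m : ℕ → ℝ} (hφ : EigenSeq Γ φ m)
    (hs : ∀ n, ContDiffOn ℝ ∞ (fun w : ℂ => φ n (ofComplex w)) {w | 0 < w.im})
    {C : ℝ} (hC : ∀ n, surfAvg D (fun z => φ n z ^ 4) ≤ C)
    {f : ℍ → ℝ} (hf : Continuous f) (hf0 : ∀ z, 0 ≤ f z) (hfi : ∀ γ ∈ Γ, ∀ z, f (γ • z) = f z)
    {ε : ℝ} (hε : 0 < ε) :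
    ∀ᶠ n in atTop, 3 * surfAvg D (fun z => f z * φ n z ^ 2) ^ 2 - ε
      ≤ surfAvg D f * surfAvg D (fun z => f z * φ n z ^ 4) := by
  by_contra hcon
  rw [Filter.not_eventually] at hcon
  obtain ⟨s, hsm, hsn⟩ := extraction_of_frequently_atTop hcon
  simp only [not_le] at hsn
  obtain ⟨t, ht, p, hg⟩ := H _ _ (eigenSeq_comp hφ hsm.tendsto_atTop) (fun n => hs _)
    ⟨C, fun n => hC _⟩
  have hfI : IntegrableOn f D (volume : Measure ℍ) := Surf.integrableOn_of_invariant hD hK hf hfi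
  obtain ⟨B, hB⟩ := bdd_of_cocompact hf hfi hK
  have hfB : ∀ᵐ z ∂((volume : Measure ℍ).restrict D), ‖f z‖ ≤ B :=
    Eventually.of_forall fun z => by rw [Real.norm_eq_abs]; exact hB z
  have i1 : IntegrableOn (fun z => f z * p z) D (volume : Measure ℍ) :=
    Integrable.bdd_mul hg.pI hf.aestronglyMeasurable.restrict hfB
  have i2 : IntegrableOn (fun z => f z * p z ^ 2) D (volume : Measure ℍ) :=
    Integrable.bdd_mul hg.psq hf.aestronglyMeasurable.restrict hfB
  -- Cauchy-Schwarz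
  have hcs : surfAvg D (fun z => f z * p z) ^ 2
      ≤ surfAvg D f * surfAvg D (fun z => f z * p z ^ 2) := by
    set a := surfAvg D f with ha
    set b := surfAvg D (fun z => f z * p z) with hb
    set c := surfAvg D (fun z => f z * p z ^ 2) with hc
    have ha0 : 0 ≤ a := Surf.surfAvg_nonneg hf0
    have hq : ∀ x : ℝ, 0 ≤ c - 2 * x * b + x ^ 2 * a := by
      intro x
      have h1 : 0 ≤ surfAvg D (fun z => f z * (p z - x) ^ 2) :=
        Surf.surfAvg_nonneg fun z => mul_nonneg (hf0 z) (sq_nonneg _)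
      have e : (fun z => f z * (p z - x) ^ 2)
          = fun z => (f z * p z ^ 2 - (2 * x) * (f z * p z)) + x ^ 2 * f z := by
        funext z; ring
      have j1 : IntegrableOn (fun z => (2 * x) * (f z * p z)) D (volume : Measure ℍ) :=
        i1.const_mul _
      have j2 : IntegrableOn (fun z => f z * p z ^ 2 - (2 * x) * (f z * p z)) D
        (volume : Measure ℍ) := i2.sub j1
      have j3 : IntegrableOn (fun z => x ^ 2 * f z) D (volume : Measure ℍ) := hfI.const_mul _
      rw [e, Surf.surfAvg_add j2 j3,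
        Surf.surfAvg_sub i2 j1, Surf.surfAvg_const_mul, Surf.surfAvg_const_mul] at h1
      exact h1
    rcases ha0.eq_or_lt with h0 | h0
    · have h1 := hq b
      have h2 := hq (-b)
      rw [← h0] at h1 h2 ⊢
      -- `0 ≤ c - 2 x b` for all `x`
      by_contra hlt
      have hb2 : 0 < b ^ 2 := by
        rw [zero_mul] at hlt
        exact not_le.1 hlt
      have h3 := hq ((c + 1) / (2 * b))
      have hb0 : b ≠ 0 := fun h => by rw [h] at hb2; simp at hb2
      rw [← h0] at h3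
      have e : c - 2 * ((c + 1) / (2 * b)) * b + ((c + 1) / (2 * b)) ^ 2 * 0 = -1 := by
        field_simp; ring
      rw [e] at h3
      linarith
    · have h1 := hq (b / a)
      have e : c - 2 * (b / a) * b + (b / a) ^ 2 * a = (a * c - b ^ 2) / a := by
        field_simp; ring
      rw [e] at h1
      have h2 := (div_nonneg_iff.1 h1)
      rcases h2 with h2 | h2
      · linarith [h2.1]
      · linarith [h2.2]
  have ha0 : 0 ≤ surfAvg D f := Surf.surfAvg_nonneg hf0
  have h1 := hg.four f hf hf0 hfi (ε / (3 * (surfAvg D f + 1))) (by positivity)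
  have h2 := (((hg.mass f hf hfi).pow 2).const_mul 3).eventually_lt_const
    (show 3 * surfAvg D (fun z => f z * p z) ^ 2 < 3 * surfAvg D (fun z => f z * p z) ^ 2 + ε / 3 by
      linarith)
  obtain ⟨n, hn1, hn2⟩ := (h1.and h2).exists
  have hn3 := hsn (t n)
  have e1 : surfAvg D f * (ε / (3 * (surfAvg D f + 1))) ≤ ε / 3 := by
    have : surfAvg D f * (ε / (3 * (surfAvg D f + 1)))
        = ε / 3 * (surfAvg D f / (surfAvg D f + 1)) := by
      field_simp
    rw [this]
    have h5 : surfAvg D f / (surfAvg D f + 1) ≤ 1 :=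
      (div_le_one (by positivity)).2 (by linarith only [])
    calc ε / 3 * (surfAvg D f / (surfAvg D f + 1)) ≤ ε / 3 * 1 := by (clear * - h5 hε; gcongr)
      _ = ε / 3 := mul_one _
  have e2 := mul_le_mul_of_nonneg_left hn1 ha0
  nlinarith

/-- the Cauchy-Schwarz inequality for weighted averages -/
theorem avg_cs {w g q : ℍ → ℝ} (hw0 : ∀ z, 0 ≤ w z)
    (i1 : IntegrableOn (fun z => w z * g z ^ 2) D (volume : Measure ℍ))
    (i2 : IntegrableOn (fun z => w z * g z * q z) D (volume : Measure ℍ))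
    (i3 : IntegrableOn (fun z => w z * q z ^ 2) D (volume : Measure ℍ)) :
    surfAvg D (fun z => w z * g z * q z) ^ 2
      ≤ surfAvg D (fun z => w z * g z ^ 2) * surfAvg D (fun z => w z * q z ^ 2) := by
  have hq : ∀ x : ℝ, 0 ≤ surfAvg D (fun z => w z * g z ^ 2) * (x * x)
      + (-2 * surfAvg D (fun z => w z * g z * q z)) * x
      + surfAvg D (fun z => w z * q z ^ 2) := by
    intro x
    have h1 : 0 ≤ surfAvg D (fun z => w z * (x * g z - q z) ^ 2) :=
      Surf.surfAvg_nonneg fun z => mul_nonneg (hw0 z) (sq_nonneg _)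
    have e : (fun z => w z * (x * g z - q z) ^ 2)
        = fun z => ((x ^ 2) * (w z * g z ^ 2) - (2 * x) * (w z * g z * q z)) + w z * q z ^ 2 := by
      funext z; ring
    have j1 : IntegrableOn (fun z => (x ^ 2) * (w z * g z ^ 2)) D (volume : Measure ℍ) :=
      i1.const_mul _
    have j2 : IntegrableOn (fun z => (2 * x) * (w z * g z * q z)) D (volume : Measure ℍ) :=
      i2.const_mul _
    have j3 : IntegrableOn (fun z => (x ^ 2) * (w z * g z ^ 2) - (2 * x) * (w z * g z * q z)) D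
      (volume : Measure ℍ) := j1.sub j2
    rw [e, Surf.surfAvg_add j3 i3, Surf.surfAvg_sub j1 j2, Surf.surfAvg_const_mul,
      Surf.surfAvg_const_mul] at h1
    linarith
  have h2 := discrim_le_zero hq
  unfold discrim at h2
  linarith only [h2]

/-- **The weighted form of the lower bound for the fourth moments.** -/
theorem weighted_fourth [Countable Γ] (hD : IsFundamentalDomain Γ D (volume : Measure ℍ))
    (hK : ∃ K : Set ℍ, IsCompact K ∧ ∀ z, ∃ γ ∈ Γ, γ • z ∈ K) (H : HasGood Γ D)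
    {φ : ℕ → ℍ → ℝ} {m : ℕ → ℝ} (hφ : EigenSeq Γ φ m)
    (hs : ∀ n, ContDiffOn ℝ ∞ (fun w : ℂ => φ n (ofComplex w)) {w | 0 < w.im})
    (hn : ∀ n, surfAvg D (fun z => φ n z ^ 2) = 1)
    {w g : ℍ → ℝ} (hw : Continuous w) (hw0 : ∀ z, 0 < w z) (hwi : ∀ γ ∈ Γ, ∀ z, w (γ • z) = w z)
    (hg : Continuous g) (hgi : ∀ γ ∈ Γ, ∀ z, g (γ • z) = g z) {ε : ℝ} (hε : 0 < ε) :
    ∀ᶠ n in atTop, 3 * surfAvg D (fun z => w z * g z * φ n z ^ 2) ^ 2 - ε
      ≤ surfAvg D (fun z => w z * g z ^ 2) * surfAvg D (fun z => w z * φ n z ^ 4) := by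
  by_contra hcon
  rw [Filter.not_eventually] at hcon
  obtain ⟨s, hsm, hsn⟩ := extraction_of_frequently_atTop hcon
  simp only [not_le] at hsn
  have hc : ∀ n, Continuous (φ n) := fun n => by
    have h1 : Continuous (fun z : ℍ => (fun w : ℂ => φ n (ofComplex w)) (z : ℂ)) :=
      (hs n).continuousOn.comp_continuous UpperHalfPlane.continuous_coe fun z => z.im_pos
    refine h1.congr fun z => ?_
    simp only [ofComplex_apply]
  set a := surfAvg D (fun z => w z * g z ^ 2) with ha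
  -- integrability
  have hInt : ∀ f : ℍ → ℝ, Continuous f → (∀ γ ∈ Γ, ∀ z, f (γ • z) = f z) →
      IntegrableOn f D (volume : Measure ℍ) := fun f hf hfi =>
    Surf.integrableOn_of_invariant hD hK hf hfi
  have iwg : IntegrableOn (fun z => w z * g z ^ 2) D (volume : Measure ℍ) :=
    hInt _ (hw.mul (hg.pow 2)) fun γ hγ z => by rw [hwi γ hγ, hgi γ hγ]
  have i2 : ∀ n, IntegrableOn (fun z => w z * g z * φ n z ^ 2) D (volume : Measure ℍ) := fun n =>
    hInt _ ((hw.mul hg).mul ((hc n).pow 2)) fun γ hγ z => by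
      rw [hwi γ hγ, hgi γ hγ, hφ.invariant n γ hγ]
  have i4 : ∀ n, IntegrableOn (fun z => w z * φ n z ^ 4) D (volume : Measure ℍ) := fun n =>
    hInt _ (hw.mul ((hc n).pow 4)) fun γ hγ z => by rw [hwi γ hγ, hφ.invariant n γ hγ]
  -- the Cauchy-Schwarz inequality for `φ n`
  have hcs : ∀ n, surfAvg D (fun z => w z * g z * φ n z ^ 2) ^ 2
      ≤ a * surfAvg D (fun z => w z * φ n z ^ 4) := by
    intro n
    have e : (fun z => w z * (φ n z ^ 2) ^ 2) = fun z => w z * φ n z ^ 4 := by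
      funext z; ring
    have h1 := avg_cs (D := D) (w := w) (g := g) (q := fun z => φ n z ^ 2) (fun z => (hw0 z).le) iwg
      (i2 n) (by rw [e]; exact i4 n)
    rw [e] at h1
    exact h1
  have ha0 : 0 ≤ a := Surf.surfAvg_nonneg fun z => mul_nonneg (hw0 z).le (sq_nonneg _)
  -- boundedness of the second moments
  obtain ⟨B, hB⟩ := bdd_of_cocompact (hw.mul hg) (fun γ hγ z => by
    show w (γ • z) * g (γ • z) = w z * g z
    rw [hwi γ hγ, hgi γ hγ]) hK
  have hB0 : 0 ≤ B := (abs_nonneg _).trans (hB I)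
  have i2' : ∀ n, IntegrableOn (fun z => φ n z ^ 2) D (volume : Measure ℍ) := fun n =>
    hInt _ ((hc n).pow 2) fun γ hγ z => by rw [hφ.invariant n γ hγ]
  have hv := Surf.vol_pos hD hK
  have hmono : ∀ f f' : ℍ → ℝ, IntegrableOn f D (volume : Measure ℍ) →
      IntegrableOn f' D (volume : Measure ℍ) → (∀ z, f z ≤ f' z) → surfAvg D f ≤ surfAvg D f' := by
    intro f f' hf hf' hle
    rw [Surf.surfAvg_eq, Surf.surfAvg_eq]
    exact mul_le_mul_of_nonneg_left (integral_mono hf hf' hle) (by (clear * - hv; positivity))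
  have hcB : ∀ n, surfAvg D (fun z => w z * g z * φ n z ^ 2) ^ 2 ≤ B ^ 2 := by
    intro n
    have h1 : surfAvg D (fun z => w z * g z * φ n z ^ 2) ≤ B := by
      have := hmono _ (fun z => B * φ n z ^ 2) (i2 n) ((i2' n).const_mul B) fun z =>
        mul_le_mul_of_nonneg_right ((le_abs_self _).trans (hB z)) (sq_nonneg _)
      rwa [Surf.surfAvg_const_mul, hn, mul_one] at this
    have h2 : -B ≤ surfAvg D (fun z => w z * g z * φ n z ^ 2) := by
      have := hmono (fun z => (-B) * φ n z ^ 2) _ ((i2' n).const_mul (-B)) (i2 n) fun z =>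
        mul_le_mul_of_nonneg_right ((neg_le_neg (hB z)).trans (neg_abs_le _)) (sq_nonneg _)
      rwa [Surf.surfAvg_const_mul, hn, mul_one] at this
    exact sq_le_sq' h2 h1
  rcases ha0.eq_or_lt with h0 | h0
  · have h1 := hcs (s 0)
    have h2 := hsn 0
    rw [← h0, zero_mul] at h1 h2
    linarith [sq_nonneg (surfAvg D (fun z => w z * g z * φ (s 0) z ^ 2))]
  -- the fourth moments are bounded
  obtain ⟨B', hB'⟩ := bdd_of_cocompact (f := fun z => 1 / w z)
    (continuous_const.div hw fun z => (hw0 z).ne') (fun γ hγ z => by rw [hwi γ hγ]) hK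
  have hb4 : ∀ n, surfAvg D (fun z => φ (s n) z ^ 4) ≤ B' * (3 * B ^ 2 / a) := by
    intro n
    have h1 : surfAvg D (fun z => w z * φ (s n) z ^ 4) ≤ 3 * B ^ 2 / a := by
      rw [le_div_iff₀ h0]
      have h2 := hsn n
      have h3 := hcB (s n)
      linarith only [hε, h2, h3]
    have hB'0 : 0 ≤ B' := (abs_nonneg _).trans (hB' I)
    have i4' : IntegrableOn (fun z => φ (s n) z ^ 4) D (volume : Measure ℍ) :=
      hInt _ ((hc _).pow 4) fun γ hγ z => by rw [hφ.invariant _ γ hγ]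
    have h2 := hmono _ (fun z => B' * (w z * φ (s n) z ^ 4)) i4' ((i4 _).const_mul _) fun z => by
      have h3 : 1 / w z ≤ B' := (le_abs_self _).trans (hB' z)
      have h4 : 1 ≤ B' * w z := by
        rw [div_le_iff₀ (hw0 z)] at h3
        exact h3
      have h5 : 0 ≤ φ (s n) z ^ 4 := by (clear * -; positivity)
      nlinarith only [h4, h5]
    rw [Surf.surfAvg_const_mul] at h2
    exact h2.trans (mul_le_mul_of_nonneg_left h1 hB'0)
  obtain ⟨t, ht, p, hgd⟩ := H _ _ (eigenSeq_comp hφ hsm.tendsto_atTop) (fun n => hs _)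
    ⟨_, hb4⟩
  obtain ⟨Bw, hBw⟩ := bdd_of_cocompact hw hwi hK
  have j2 : IntegrableOn (fun z => w z * g z * p z) D (volume : Measure ℍ) :=
    Integrable.bdd_mul hgd.pI (hw.mul hg).aestronglyMeasurable.restrict
      (Eventually.of_forall fun z => by rw [Real.norm_eq_abs]; exact hB z)
  have j3 : IntegrableOn (fun z => w z * p z ^ 2) D (volume : Measure ℍ) :=
    Integrable.bdd_mul hgd.psq hw.aestronglyMeasurable.restrict
      (Eventually.of_forall fun z => by rw [Real.norm_eq_abs]; exact hBw z)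
  have hcsp := avg_cs (D := D) (w := w) (g := g) (q := p) (fun z => (hw0 z).le) iwg j2 j3
  have hm := hgd.mass (fun z => w z * g z) (hw.mul hg) (fun γ hγ z => by rw [hwi γ hγ, hgi γ hγ])
  have h1 := hgd.four w hw (fun z => (hw0 z).le) hwi (ε / (3 * a)) (by positivity)
  have h2 := ((hm.pow 2).const_mul 3).eventually_lt_const
    (show 3 * surfAvg D (fun z => w z * g z * p z) ^ 2
      < 3 * surfAvg D (fun z => w z * g z * p z) ^ 2 + ε / 3 by linarith only [hε])
  obtain ⟨n, hn1, hn2⟩ := (h1.and h2).exists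
  have hn3 := hsn (t n)
  have e1 : a * (ε / (3 * a)) = ε / 3 := by field_simp
  have e2 := mul_le_mul_of_nonneg_left hn1 ha0
  rw [mul_sub, e1] at e2
  linarith only [hε, hcsp, hn2, hn3, e2]

end

end QE


end

section

/-!
Extraction of weak limits of the products of two jets.
-/

open Complex MeasureTheory Filter Topology
open scoped ContDiff InnerProductSpace ENNReal

namespace QE

noncomputable section

/-- sequential weak compactness for a countable family of bounded sequences of a separable Hilbert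
space -/
theorem weak_extract {ι : Type*} [Countable ι] {H : Type*} [NormedAddCommGroup H]
    [InnerProductSpace ℂ H] [CompleteSpace H] [TopologicalSpace.SeparableSpace H]
    (x : ι → ℕ → H) (C : ι → ℝ) (hb : ∀ i n, ‖x i n‖ ≤ C i) :
    ∃ s : ℕ → ℕ, StrictMono s ∧ ∃ w : ι → H, ∀ i y,
      Tendsto (fun n => ⟪y, x i (s n)⟫_ℂ) atTop (𝓝 ⟪y, w i⟫_ℂ) := by
  set B : ι → Set (WeakDual ℂ H) := fun i =>
    WeakDual.toStrongDual ⁻¹' Metric.closedBall (0 : StrongDual ℂ H) (C i) with hB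
  have hBc : ∀ i, IsCompact (B i) := fun i => WeakDual.isCompact_closedBall _ _
  have i1 : ∀ i, CompactSpace (B i) := fun i => isCompact_iff_compactSpace.mp (hBc i)
  have i2 : ∀ i, TopologicalSpace.MetrizableSpace (B i) := fun i =>
    WeakDual.metrizable_of_isCompact ℂ H _ (hBc i)
  have i3 : ∀ i, FirstCountableTopology (B i) := fun i => by
    let := TopologicalSpace.metrizableSpaceMetric (B i)
    infer_instance
  let F : ι → ℕ → WeakDual ℂ H := fun i n =>
    StrongDual.toWeakDual (InnerProductSpace.toDual ℂ H (x i n))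
  have hF : ∀ i n, F i n ∈ B i := by
    intro i n
    show WeakDual.toStrongDual (F i n) ∈ Metric.closedBall (0 : StrongDual ℂ H) (C i)
    rw [mem_closedBall_zero_iff]
    have : WeakDual.toStrongDual (F i n) = InnerProductSpace.toDual ℂ H (x i n) := rfl
    rw [this, LinearIsometryEquiv.norm_map]
    exact hb i n
  obtain ⟨A, s, hs, hA⟩ := CompactSpace.tendsto_subseq
    (fun n : ℕ => (fun i => (⟨F i n, hF i n⟩ : B i)))
  refine ⟨s, hs, fun i => (InnerProductSpace.toDual ℂ H).symm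
    (WeakDual.toStrongDual (A i : WeakDual ℂ H)), fun i y => ?_⟩
  have h1 : Tendsto (fun n => F i (s n)) atTop (𝓝 (A i : WeakDual ℂ H)) := by
    have h2 := (tendsto_pi_nhds.1 hA) i
    exact (continuous_subtype_val.tendsto _).comp h2
  have h3 : Tendsto (fun n => F i (s n) y) atTop (𝓝 ((A i : WeakDual ℂ H) y)) :=
    ((WeakDual.eval_continuous y).tendsto _).comp h1
  have h4 : ∀ n, F i (s n) y = ⟪x i (s n), y⟫_ℂ := fun n => rfl
  have h5 : (A i : WeakDual ℂ H) y = ⟪(InnerProductSpace.toDual ℂ H).symm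
    (WeakDual.toStrongDual (A i : WeakDual ℂ H)), y⟫_ℂ := by
    rw [InnerProductSpace.toDual_symm_apply]; rfl
  simp only [h4, h5] at h3
  have h6 := (continuous_conj.tendsto _).comp h3
  refine (h6.congr fun n => ?_).trans (le_of_eq ?_)
  · simp only [Function.comp_apply]
    exact inner_conj_symm _ _
  · rw [inner_conj_symm]

/-- an exhaustion of an open subset of the plane by compact sets -/
theorem exists_exhaustion_VL {U : Set ℂ} (hU : IsOpen U) : ∃ K : ℕ → Set ℂ, (∀ r, IsCompact (K r)) ∧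
    (∀ r, K r ⊆ U) ∧ ∀ L, IsCompact L → L ⊆ U → ∃ r, L ⊆ K r := by
  have : LocallyCompactSpace U := hU.locallyCompactSpace
  refine ⟨fun r => Subtype.val '' (CompactExhaustion.choice U r), fun r => ?_, fun r => ?_, ?_⟩
  · exact ((CompactExhaustion.choice U).isCompact r).image continuous_subtype_val
  · rintro _ ⟨z, _, rfl⟩; exact z.2
  · intro L hL hLU
    have h1 : IsCompact ((Subtype.val : U → ℂ) ⁻¹' L) := by
      rw [Subtype.isCompact_iff, Subtype.image_preimage_coe, Set.inter_eq_right.2 hLU]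
      exact hL
    obtain ⟨r, hr⟩ := (CompactExhaustion.choice U).exists_superset_of_isCompact h1
    exact ⟨r, fun z hz => ⟨⟨z, hLU hz⟩, hr hz, rfl⟩⟩

theorem memLp_of_cont {K : Set ℂ} (hK : IsCompact K) {f : ℂ → ℂ} (hf : ContinuousOn f K) :
    MemLp f 2 (volume.restrict K) := by
  obtain ⟨C, hC⟩ := hK.exists_bound_of_continuousOn hf
  have : IsFiniteMeasure (volume.restrict K) := ⟨by simpa using hK.measure_lt_top⟩
  exact MemLp.of_bound (hf.aestronglyMeasurable hK.measurableSet) C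
    (ae_restrict_of_forall_mem hK.measurableSet hC)

theorem inner_toLp {f g : ℂ → ℂ} (hf : MemLp f 2 (volume : Measure ℂ))
    (hg : MemLp g 2 (volume : Measure ℂ)) :
    ⟪hf.toLp f, hg.toLp g⟫_ℂ = ∫ z, (starRingEnd ℂ) (f z) * g z := by
  rw [L2.inner_def]
  refine integral_congr_ae ?_
  filter_upwards [hf.coeFn_toLp, hg.coeFn_toLp] with z h1 h2
  rw [h1, h2, RCLike.inner_apply]
  ring

theorem inner_toLp' {f : ℂ → ℂ} (hf : MemLp f 2 (volume : Measure ℂ))
    (g : Lp ℂ 2 (volume : Measure ℂ)) :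
    ⟪hf.toLp f, g⟫_ℂ = ∫ z, (starRingEnd ℂ) (f z) * g z := by
  rw [L2.inner_def]
  refine integral_congr_ae ?_
  filter_upwards [hf.coeFn_toLp] with z h1
  rw [h1, RCLike.inner_apply]
  ring

theorem norm_toLp_sq {f : ℂ → ℂ} (hf : MemLp f 2 (volume : Measure ℂ)) :
    ‖hf.toLp f‖ ^ 2 = ∫ z, ‖f z‖ ^ 2 := by
  have h1 : ((‖hf.toLp f‖ ^ 2 : ℝ) : ℂ) = ⟪hf.toLp f, hf.toLp f⟫_ℂ := by
    rw [inner_self_eq_norm_sq_to_K]; push_cast; rfl
  rw [inner_toLp] at h1
  have h2 : ∫ z, (starRingEnd ℂ) (f z) * f z = ((∫ z, ‖f z‖ ^ 2 : ℝ) : ℂ) := by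
    have e0 : ((∫ z, ‖f z‖ ^ 2 : ℝ) : ℂ) = ∫ z, ((‖f z‖ ^ 2 : ℝ) : ℂ) := integral_ofReal.symm
    rw [e0]
    refine integral_congr_ae (Filter.Eventually.of_forall fun z => ?_)
    simp only []
    rw [mul_comm, mul_conj, normSq_eq_norm_sq]
  rw [h2] at h1
  exact_mod_cast h1

/-- extraction of weak limits for a countable family of sequences -/
theorem wlim_extract {ι : Type*} [Countable ι] {U : Set ℂ} (hU : IsOpen U)
    (v : ι → ℕ → ℂ → ℂ) (sv : ∀ i, SmoothSeq U (v i)) (bv : ∀ i, LBdd 2 U (v i)) :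
    ∃ s : ℕ → ℕ, StrictMono s ∧ ∃ w : ι → ℂ → ℂ, (∀ i, Measurable (w i)) ∧
      (∀ i, LocL2 U (w i)) ∧ ∀ i, WLim U (fun n => v i (s n)) (w i) := by
  obtain ⟨K, hKc, hKU, hKe⟩ := exists_exhaustion_VL hU
  set A : ℕ → Set ℂ := disjointed K with hA
  have hAK : ∀ r, A r ⊆ K r := fun r => disjointed_subset K r
  have hAm : ∀ r, MeasurableSet (A r) := fun r =>
    MeasurableSet.disjointed (fun r => (hKc r).measurableSet) r
  have hAd : Pairwise (Function.onFun Disjoint A) := disjoint_disjointed K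
  have hm : ∀ i r n, MemLp ((A r).indicator (v i n)) 2 (volume : Measure ℂ) := by
    intro i r n
    rw [memLp_indicator_iff_restrict (hAm r)]
    exact (memLp_of_cont (hKc r) ((sv i n).continuousOn.mono (hKU r))).mono_measure
      (Measure.restrict_mono (hAK r) le_rfl)
  -- bounds
  have hbd : ∀ p : ι × ℕ, ∃ C : ℝ, ∀ n, ‖(hm p.1 p.2 n).toLp _‖ ≤ C := by
    rintro ⟨i, r⟩
    obtain ⟨C, hC⟩ := bv i (K r) (hKc r) (hKU r)
    obtain ⟨N, hN⟩ := eventually_atTop.1 hC
    have h1 : ∀ n, N ≤ n → ‖(hm i r n).toLp _‖ ^ 2 ≤ C := by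
      intro n hn
      rw [norm_toLp_sq]
      refine le_trans ?_ (hN n hn)
      have e1 : ∀ z, ‖(A r).indicator (v i n) z‖ ^ 2
          = (A r).indicator (fun z => ‖v i n z‖ ^ 2) z := by
        intro z
        by_cases hz : z ∈ A r
        · rw [Set.indicator_of_mem hz, Set.indicator_of_mem hz]
        · rw [Set.indicator_of_notMem hz, Set.indicator_of_notMem hz]; simp
      simp only [e1]
      rw [integral_indicator (hAm r)]
      exact setIntegral_mono_set ((sv i).intOn (hKc r) (hKU r) 2 n)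
        (Filter.Eventually.of_forall fun z => by positivity)
        (LE.le.eventuallyLE (hAK r))
    have hC0 : 0 ≤ C := (sq_nonneg _).trans (h1 N le_rfl)
    refine ⟨Real.sqrt C + ∑ n ∈ Finset.range N, ‖(hm i r n).toLp _‖, fun n => ?_⟩
    have hs0 : 0 ≤ ∑ n ∈ Finset.range N, ‖(hm i r n).toLp _‖ :=
      Finset.sum_nonneg fun _ _ => norm_nonneg _
    by_cases hn : N ≤ n
    · have := Real.le_sqrt_of_sq_le (h1 n hn)
      exact this.trans (le_add_of_nonneg_right hs0)
    · have h2 : ‖(hm i r n).toLp _‖ ≤ ∑ n ∈ Finset.range N, ‖(hm i r n).toLp _‖ :=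
        Finset.single_le_sum (f := fun n => ‖(hm i r n).toLp _‖) (fun _ _ => norm_nonneg _)
          (Finset.mem_range.2 (not_le.1 hn))
      exact h2.trans (le_add_of_nonneg_left (Real.sqrt_nonneg _))
  choose C hC using hbd
  have : Fact ((2 : ℝ≥0∞) ≠ ⊤) := ⟨by norm_num⟩
  obtain ⟨s, hs, W, hW⟩ := weak_extract (H := Lp ℂ 2 (volume : Measure ℂ))
    (fun (p : ι × ℕ) n => (hm p.1 p.2 n).toLp _) C hC
  -- the limits
  have hpw : ∀ i, ∃ f : ℂ → ℂ, Measurable f ∧ ∀ r, Set.EqOn f (W (i, r)) (A r) := by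
    intro i
    refine exists_measurable_piecewise A hAm (fun r => (W (i, r) : ℂ → ℂ))
      (fun r => (Lp.stronglyMeasurable _).measurable) fun r q hrq => ?_
    have h1 : A r ∩ A q = ∅ := Set.disjoint_iff_inter_eq_empty.1 (hAd hrq)
    beta_reduce
    rw [h1]
    exact Set.eqOn_empty _ _
  choose w hwm hw using hpw
  -- covering of compact sets
  have hcov : ∀ L, IsCompact L → L ⊆ U → ∃ R, ∀ z ∈ L, ∃ r ∈ Finset.range R, z ∈ A r := by
    intro L hL hLU
    obtain ⟨r, hr⟩ := hKe L hL hLU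
    refine ⟨r + 1, fun z hz => ?_⟩
    have hex : ∃ q, z ∈ K q := ⟨r, hr hz⟩
    classical
    refine ⟨Nat.find hex, Finset.mem_range.2 (Nat.lt_succ_of_le (Nat.find_min' hex (hr hz))), ?_⟩
    rw [hA, disjointed_apply]
    refine ⟨Nat.find_spec hex, fun hz' => ?_⟩
    rw [Finset.sup_set_eq_biUnion, Set.mem_iUnion₂] at hz'
    obtain ⟨q, hq, hzq⟩ := hz'
    exact Nat.find_min hex (Finset.mem_Iio.1 hq) hzq
  -- splitting of the functions supported in compact sets
  have hsplit : ∀ (L : Set ℂ) (R : ℕ), (∀ z ∈ L, ∃ r ∈ Finset.range R, z ∈ A r) → ∀ f : ℂ → ℂ,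
      L.indicator f = fun z => ∑ r ∈ Finset.range R, (L ∩ A r).indicator f z := by
    intro L R hR f
    funext z
    by_cases hz : z ∈ L
    · obtain ⟨r, hr, hzr⟩ := hR z hz
      rw [Set.indicator_of_mem hz, Finset.sum_eq_single r]
      · have hm' : z ∈ L ∩ A r := ⟨hz, hzr⟩
        rw [Set.indicator_of_mem hm']
      · intro q _ hq
        rw [Set.indicator_of_notMem]
        rintro ⟨_, hzq⟩
        exact Set.disjoint_left.1 (hAd hq) hzq hzr
      · intro h; exact absurd hr h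
    · rw [Set.indicator_of_notMem hz]
      symm
      refine Finset.sum_eq_zero fun r _ => ?_
      rw [Set.indicator_of_notMem]
      rintro ⟨h, _⟩
      exact hz h
  have hLm : ∀ L, IsCompact L → ∀ r, MeasurableSet (L ∩ A r) := fun L hL r =>
    hL.measurableSet.inter (hAm r)
  have hWi : ∀ i r L, (L ∩ A r).indicator (w i) = (L ∩ A r).indicator (W (i, r) : ℂ → ℂ) := by
    intro i r L
    funext z
    by_cases hz : z ∈ L ∩ A r
    · rw [Set.indicator_of_mem hz, Set.indicator_of_mem hz, hw i r hz.2]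
    · rw [Set.indicator_of_notMem hz, Set.indicator_of_notMem hz]
  have hloc : ∀ i, LocL2 U (w i) := by
    intro i L hL hLU
    obtain ⟨R, hR⟩ := hcov L hL hLU
    rw [← memLp_indicator_iff_restrict hL.measurableSet, hsplit L R hR]
    refine memLp_finsetSum _ fun r _ => ?_
    rw [hWi]
    exact (Lp.memLp (W (i, r))).indicator (hLm L hL r)
  refine ⟨s, hs, w, hwm, hloc, fun i L hL hLU ζ hζ => ?_⟩
  obtain ⟨R, hR⟩ := hcov L hL hLU
  have hζi : MemLp (L.indicator ζ) 2 (volume : Measure ℂ) :=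
    (memLp_indicator_iff_restrict hL.measurableSet).2 hζ
  have hζr : ∀ r, MemLp (fun z => (starRingEnd ℂ) ((L ∩ A r).indicator ζ z)) 2
      (volume : Measure ℂ) := by
    intro r
    have h1 : MemLp ((L ∩ A r).indicator ζ) 2 (volume : Measure ℂ) := by
      have := hζi.indicator (hAm r)
      rwa [Set.indicator_indicator, Set.inter_comm] at this
    exact h1.star
  have key : ∀ f : ℂ → ℂ, MemLp f 2 (volume.restrict L) → ∫ z in L, ζ z * f z
      = ∑ r ∈ Finset.range R, ∫ z, (L ∩ A r).indicator ζ z * f z := by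
    intro f hf
    have hi : Integrable (fun z => ζ z * f z) (volume.restrict L) := by
      have := hf.integrable_mul hζ
      refine this.congr (Filter.Eventually.of_forall fun z => ?_)
      simp only [Pi.mul_apply]; ring
    have hiL : Integrable (L.indicator (fun z => ζ z * f z)) (volume : Measure ℂ) :=
      (integrable_indicator_iff hL.measurableSet).2 hi
    rw [← integral_indicator hL.measurableSet, hsplit L R hR, integral_finsetSum]
    · refine Finset.sum_congr rfl fun r _ => ?_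
      refine integral_congr_ae (Filter.Eventually.of_forall fun z => ?_)
      simp only []
      by_cases hz : z ∈ L ∩ A r
      · rw [Set.indicator_of_mem hz, Set.indicator_of_mem hz]
      · rw [Set.indicator_of_notMem hz, Set.indicator_of_notMem hz, zero_mul]
    · intro r _
      have := hiL.indicator (hAm r)
      rwa [Set.indicator_indicator, Set.inter_comm] at this
  have hlim : Tendsto (fun n => ∑ r ∈ Finset.range R,
      ⟪(hζr r).toLp _, (hm i r (s n)).toLp _⟫_ℂ) atTop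
      (𝓝 (∑ r ∈ Finset.range R, ⟪(hζr r).toLp _, W (i, r)⟫_ℂ)) :=
    tendsto_finsetSum _ fun r _ => hW (i, r) _
  have e1 : ∀ n, ∑ r ∈ Finset.range R, ⟪(hζr r).toLp _, (hm i r (s n)).toLp _⟫_ℂ
      = ∫ z in L, ζ z * v i (s n) z := by
    intro n
    rw [key _ (memLp_of_cont hL ((sv i (s n)).continuousOn.mono hLU))]
    refine Finset.sum_congr rfl fun r _ => ?_
    rw [inner_toLp]
    refine integral_congr_ae (Filter.Eventually.of_forall fun z => ?_)
    simp only [starRingEnd_self_apply]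
    by_cases hz : z ∈ L ∩ A r
    · rw [Set.indicator_of_mem hz.2]
    · rw [Set.indicator_of_notMem hz, zero_mul, zero_mul]
  have e2 : ∑ r ∈ Finset.range R, ⟪(hζr r).toLp _, W (i, r)⟫_ℂ = ∫ z in L, ζ z * w i z := by
    rw [key _ (hloc i L hL hLU)]
    refine Finset.sum_congr rfl fun r _ => ?_
    rw [inner_toLp']
    refine integral_congr_ae (Filter.Eventually.of_forall fun z => ?_)
    simp only [starRingEnd_self_apply]
    by_cases hz : z ∈ L ∩ A r
    · rw [hw i r hz.2]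
    · rw [Set.indicator_of_notMem hz, zero_mul, zero_mul]
  rw [← e2]
  exact hlim.congr e1

variable {U : Set ℂ}

/-! ### subsequences -/

theorem LBdd.compVL {p : ℕ} {u : ℕ → ℂ → ℂ} (hu : LBdd p U u) {s : ℕ → ℕ} (hs : StrictMono s) :
    LBdd p U (fun n => u (s n)) := by
  intro K hK hKU
  obtain ⟨C, hC⟩ := hu K hK hKU
  exact ⟨C, hs.tendsto_atTop.eventually hC⟩

theorem SmoothSeq.compVL {u : ℕ → ℂ → ℂ} (hu : SmoothSeq U u) (s : ℕ → ℕ) :
    SmoothSeq U (fun n => u (s n)) := fun n => hu (s n)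

theorem TameK.comp {h : ℕ → ℝ} {s : ℕ → ℕ} (hs : StrictMono s) : ∀ {k : ℕ} {u : ℕ → ℂ → ℂ},
    TameK U h k u → TameK U (fun n => h (s n)) k (fun n => u (s n)) := by
  intro k
  induction k with
  | zero => intro u hu; exact LBdd.compVL hu hs
  | succ k ih => intro u hu; exact ⟨LBdd.compVL hu.1 hs, ih hu.2.1, ih hu.2.2⟩

theorem Tame.comp {h : ℕ → ℝ} {u : ℕ → ℂ → ℂ} (hu : Tame U h u) {s : ℕ → ℕ}
    (hs : StrictMono s) : Tame U (fun n => h (s n)) (fun n => u (s n)) :=
  ⟨hu.smooth.compVL s, fun k => (hu.bdd k).comp hs⟩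

theorem Setup.comp {g a : ℂ → ℂ} {h : ℕ → ℝ} {φ : ℕ → ℂ → ℂ} (S : Setup U g a h φ) {s : ℕ → ℕ}
    (hs : StrictMono s) : Setup U g a (fun n => h (s n)) (fun n => φ (s n)) :=
  ⟨S.op, fun _ => S.hpos _, S.hlim.comp hs.tendsto_atTop, S.ha, S.hg, S.areal, S.ag,
    S.tame.comp hs, fun _ => S.real _, fun _ => S.eig _⟩

theorem jet_comp (h : ℕ → ℝ) (a : ℂ → ℂ) (φ : ℕ → ℂ → ℂ) (s : ℕ → ℕ) (m n : ℕ) :
    jet (fun n => h (s n)) a (fun n => φ (s n)) m n = jet h a φ m (s n) := by
  induction m generalizing n with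
  | zero => rfl
  | succ m ih =>
    funext z
    show -(2 * I * (h (s n) : ℂ)) * a z * dz (jet (fun n => h (s n)) a (fun n => φ (s n)) m n) z
      = -(2 * I * (h (s n) : ℂ)) * a z * dz (jet h a φ m (s n)) z
    rw [ih]

theorem E_comp (h : ℕ → ℝ) (a : ℂ → ℂ) (φ : ℕ → ℂ → ℂ) (s : ℕ → ℕ) (j : ℤ) (n : ℕ) :
    E (fun n => h (s n)) a (fun n => φ (s n)) j n = E h a φ j (s n) := by
  cases j with
  | ofNat m => exact jet_comp h a φ s m n
  | negSucc m =>
    funext z
    show (-1) ^ (m + 1) * (starRingEnd ℂ) (jet (fun n => h (s n)) a (fun n => φ (s n)) (m + 1) n z)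
      = (-1) ^ (m + 1) * (starRingEnd ℂ) (jet h a φ (m + 1) (s n) z)
    rw [jet_comp]

/-! ### weak limits -/

theorem WLim.compVL {v : ℕ → ℂ → ℂ} {w : ℂ → ℂ} (hv : WLim U v w) {s : ℕ → ℕ} (hs : StrictMono s) :
    WLim U (fun n => v (s n)) w := fun K hK hKU ζ hζ =>
  (hv K hK hKU ζ hζ).comp hs.tendsto_atTop

theorem WLim.congr_aeVL {v : ℕ → ℂ → ℂ} {w w' : ℂ → ℂ} (hv : WLim U v w)
    (he : ∀ᵐ z ∂((volume : Measure ℂ).restrict U), w z = w' z) : WLim U v w' := by
  intro K hK hKU ζ hζ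
  have h1 : ∀ᵐ z ∂((volume : Measure ℂ).restrict K), w z = w' z :=
    ae_restrict_of_ae_restrict_of_subset hKU he
  have h2 : ∫ z in K, ζ z * w z = ∫ z in K, ζ z * w' z := by
    refine integral_congr_ae ?_
    filter_upwards [h1] with z hz
    rw [hz]
  rw [← h2]
  exact hv K hK hKU ζ hζ

theorem WLim.neg {v : ℕ → ℂ → ℂ} {w : ℂ → ℂ} (hv : WLim U v w) :
    WLim U (fun n z => - v n z) (fun z => - w z) := by
  intro K hK hKU ζ hζ
  have := (hv K hK hKU ζ hζ).neg
  rw [← integral_neg] at this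
  refine (this.congr fun n => ?_).trans (le_of_eq ?_)
  · rw [← integral_neg]
    exact integral_congr_ae (Filter.Eventually.of_forall fun z => by simp only []; ring)
  · congr 1
    exact integral_congr_ae (Filter.Eventually.of_forall fun z => by simp only []; ring)

theorem Test.memLpVL {ζ : ℂ → ℂ} (hζ : Test U ζ) {K : Set ℂ} (hK : IsCompact K) :
    MemLp ζ 2 (volume.restrict K) := memLp_of_cont hK hζ.smooth.continuous.continuousOn

theorem setIntegral_tsupport (ζ f : ℂ → ℂ) :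
    ∫ z in tsupport ζ, ζ z * f z = ∫ z, ζ z * f z := by
  rw [setIntegral_eq_integral_of_forall_compl_eq_zero]
  intro z hz
  rw [image_eq_zero_of_notMem_tsupport hz, zero_mul]

/-- weak limits against test functions -/
theorem WLim.testVL {v : ℕ → ℂ → ℂ} {w : ℂ → ℂ} (hv : WLim U v w) {ζ : ℂ → ℂ} (hζ : Test U ζ) :
    Tendsto (fun n => ∫ z, ζ z * v n z) atTop (𝓝 (∫ z, ζ z * w z)) := by
  have := hv (tsupport ζ) hζ.supp hζ.sub ζ (hζ.memLpVL hζ.supp)
  rw [setIntegral_tsupport] at this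
  exact this.congr fun n => setIntegral_tsupport _ _

theorem Test.integrable_loc {ζ : ℂ → ℂ} (hζ : Test U ζ) {w : ℂ → ℂ} (hw : LocL2 U w) :
    Integrable (fun z => ζ z * w z) := by
  have h1 : IntegrableOn (fun z => ζ z * w z) (tsupport ζ) := by
    have := (hw (tsupport ζ) hζ.supp hζ.sub).integrable_mul (hζ.memLpVL hζ.supp)
    refine this.congr (Filter.Eventually.of_forall fun z => ?_)
    simp only [Pi.mul_apply]; ring
  refine (integrableOn_iff_integrable_of_support_subset ?_).1 h1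
  intro z hz
  refine subset_tsupport _ fun h0 => hz ?_
  simp only [h0, zero_mul]

/-- a weak limit which vanishes against all test functions is zero -/
theorem ae_zero_of_test (hU : IsOpen U) {w : ℂ → ℂ} (hw : LocL2 U w)
    (h0 : ∀ ζ : ℂ → ℂ, Test U ζ → ∫ z, ζ z * w z = 0) :
    ∀ᵐ z ∂((volume : Measure ℂ).restrict U), w z = 0 := by
  rw [ae_restrict_iff' hU.measurableSet]
  refine hU.ae_eq_zero_of_integral_contDiff_smul_eq_zero (f := w) ?_ fun η h1 h2 h3 => ?_
  · rw [locallyIntegrableOn_iff hU.isLocallyClosed]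
    intro K hKU hK
    have : IsFiniteMeasure (volume.restrict K) := ⟨by simpa using hK.measure_lt_top⟩
    exact (hw K hK hKU).integrable (by norm_num)
  · have hts : tsupport (fun z => (η z : ℂ)) ⊆ tsupport η := by
      refine closure_mono fun z hz => ?_
      simp only [Function.mem_support] at hz ⊢
      intro h0; exact hz (by simp [h0])
    have := h0 (fun z => (η z : ℂ)) ⟨ofRealCLM.contDiff.comp h1,
      h2.of_isClosed_subset (isClosed_tsupport _) hts, hts.trans h3⟩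
    refine Eq.trans ?_ this
    exact integral_congr_ae (Filter.Eventually.of_forall fun z => by simp)

theorem LocL2.addVL {w w' : ℂ → ℂ} (hw : LocL2 U w) (hw' : LocL2 U w') :
    LocL2 U (fun z => w z + w' z) := fun K hK hKU => (hw K hK hKU).add (hw' K hK hKU)

theorem LocL2.const_mulVL {w : ℂ → ℂ} (hw : LocL2 U w) (c : ℂ) :
    LocL2 U (fun z => c * w z) := fun K hK hKU => (hw K hK hKU).const_mul c

theorem LocL2.neg {w : ℂ → ℂ} (hw : LocL2 U w) :
    LocL2 U (fun z => - w z) := fun K hK hKU => (hw K hK hKU).neg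

/-- **The weak limits of the products of two jets**: after passing to a subsequence, the products
`E_j E_m` tend weakly to `(-1)^j u_{j+m}` for a family of locally square integrable functions. -/
theorem exists_limits {g a : ℂ → ℂ} {h : ℕ → ℝ} {φ : ℕ → ℂ → ℂ} (S : Setup U g a h φ) :
    ∃ s : ℕ → ℕ, StrictMono s ∧ ∃ u : ℤ → ℂ → ℂ, (∀ k, Measurable (u k)) ∧
      (∀ k, LocL2 U (u k)) ∧
      ∀ j m : ℤ, WLim U (fun n z => E h a φ j (s n) z * E h a φ m (s n) z)
        (fun z => (-1) ^ j * u (j + m) z) := by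
  have hsm : ∀ j m, SmoothSeq U (fun n z => E h a φ j n z * E h a φ m n z) := fun j m =>
    (S.tame_E j).smooth.mul (S.tame_E m).smooth
  have hbd : ∀ j m, LBdd 2 U (fun n z => E h a φ j n z * E h a φ m n z) := fun j m =>
    (S.tame_E j).bdd4.mul4 (S.tame_E j).smooth (S.tame_E m).bdd4 (S.tame_E m).smooth
  obtain ⟨s, hs, w, hwm, hwl, hww⟩ := wlim_extract (ι := ℤ × ℤ) S.op
    (fun p n z => E h a φ p.1 n z * E h a φ p.2 n z) (fun p => hsm p.1 p.2)
    (fun p => hbd p.1 p.2)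
  have hstep : ∀ j m : ℤ, ∀ᵐ z ∂((volume : Measure ℂ).restrict U),
      w (j + 1, m) z = - w (j, m + 1) z := by
    intro j m
    have h1 := ae_zero_of_test S.op ((hwl (j + 1, m)).addVL (hwl (j, m + 1))) fun ζ hζ => ?_
    · filter_upwards [h1] with z hz
      exact eq_neg_of_add_eq_zero_left hz
    · have t1 := (S.int_add j m hζ).comp hs.tendsto_atTop
      have t2 := ((hww (j + 1, m)).testVL hζ).add ((hww (j, m + 1)).testVL hζ)
      have e := tendsto_nhds_unique t2 t1
      rw [← integral_add (hζ.integrable_loc (hwl _)) (hζ.integrable_loc (hwl _))] at e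
      rw [← e]
      exact integral_congr_ae (Filter.Eventually.of_forall fun z => by simp only []; ring)
  have hmain : ∀ j m : ℤ, ∀ᵐ z ∂((volume : Measure ℂ).restrict U),
      w (j, m) z = (-1) ^ j * w (0, j + m) z := by
    intro j
    induction j using Int.induction_on with
    | zero => intro m; exact Filter.Eventually.of_forall fun z => by simp
    | succ i ih =>
      intro m
      filter_upwards [hstep i m, ih (m + 1)] with z h1 h2
      have e : (i : ℤ) + 1 + m = i + (m + 1) := by ring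
      rw [h1, h2, e, zpow_add_one₀ (by norm_num)]
      ring
    | pred i ih =>
      intro m
      filter_upwards [hstep (-(i : ℤ) - 1) (m - 1), ih (m - 1)] with z h1 h2
      have e1 : -(i : ℤ) - 1 + 1 = -i := by ring
      have e2 : m - 1 + 1 = m := by ring
      have e3 : -(i : ℤ) - 1 + m = -i + (m - 1) := by ring
      rw [e1, e2, h2] at h1
      rw [e3, zpow_sub_one₀ (by norm_num)]
      have h3 : w (-(i : ℤ) - 1, m) z = - ((-1) ^ (-(i : ℤ)) * w (0, -(i : ℤ) + (m - 1)) z) := by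
        rw [h1, neg_neg]
      rw [h3]
      ring
  exact ⟨s, hs, fun k => w (0, k), fun k => hwm _, fun k => hwl _, fun j m =>
    (hww (j, m)).congr_aeVL (hmain j m)⟩

end

end QE


end

section

/-!
The moments of order three and four of Laplace eigenfunctions on compact hyperbolic surfaces.
-/

open UpperHalfPlane MeasureTheory MatrixGroups Filter Topology Set Berry
open scoped ENNReal ContDiff

namespace QE

noncomputable section

theorem jet_sub (h : ℕ → ℝ) (a : ℂ → ℂ) (φ : ℕ → ℂ → ℂ) (s : ℕ → ℕ) (m n : ℕ) :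
    jet (fun n => h (s n)) a (fun n => φ (s n)) m n = jet h a φ m (s n) := by
  induction m with
  | zero => rfl
  | succ m ih =>
    funext z
    show -(2 * Complex.I * (h (s n) : ℂ)) * a z
      * dz (jet (fun n => h (s n)) a (fun n => φ (s n)) m n) z = _
    rw [ih]
    rfl

theorem E_sub (h : ℕ → ℝ) (a : ℂ → ℂ) (φ : ℕ → ℂ → ℂ) (s : ℕ → ℕ) (j : ℤ) (n : ℕ) (z : ℂ) :
    E (fun n => h (s n)) a (fun n => φ (s n)) j n z = E h a φ j (s n) z := by
  cases j with
  | ofNat m => exact congrFun (jet_sub h a φ s m n) z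
  | negSucc m =>
    show (-1) ^ (m + 1) * (starRingEnd ℂ)
      (jet (fun n => h (s n)) a (fun n => φ (s n)) (m + 1) n z) = _
    rw [jet_sub]
    rfl

variable {Γ : Subgroup SL(2, ℝ)} {D : Set ℍ}

/-- **Good subsequences exist.** -/
theorem hasGood [Countable Γ]
    (hDm : MeasurableSet D) (hD : IsFundamentalDomain Γ D (volume : Measure ℍ))
    (hK : ∃ K : Set ℍ, IsCompact K ∧ ∀ z, ∃ γ ∈ Γ, γ • z ∈ K) : HasGood Γ D := by
  letI : MeasurableSpace SL(2, ℝ) := borel _
  haveI : BorelSpace SL(2, ℝ) := ⟨rfl⟩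
  rintro φ m hφ hs ⟨C, hC⟩
  obtain ⟨N, hN⟩ := (hφ.tendsto.eventually_ge_atTop 1).exists_forall_of_atTop
  have hshift : Tendsto (fun n : ℕ => n + N) atTop atTop := tendsto_add_atTop_nat N
  have hc : ∀ n, Continuous (φ n) := fun n => continuous_of_smooth (hs n)
  have S := setup_of_eigen (eigenSeq_comp hφ hshift) (fun n => hs _)
    (fun n => hN _ (Nat.le_add_left _ _))
    (bdd4_of_avg hD hK (fun n => hc (n + N)) (fun n => hφ.invariant _) (fun n => hC _))
  obtain ⟨s, hsm, u, hum, hu, hw⟩ := exists_limits S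
  -- the subsequence
  set φ' : ℕ → ℍ → ℝ := fun n => φ (s n + N) with hφ'
  have hφs := eigenSeq_comp (eigenSeq_comp hφ hshift) hsm.tendsto_atTop
  have S' := setup_of_eigen (φ := φ') (m := fun n => m (s n + N)) hφs (fun n => hs _)
    (fun n => hN _ (Nat.le_add_left _ _))
    (bdd4_of_avg hD hK (fun n => hc (s n + N)) (fun n => hφ.invariant _) (fun n => hC _))
  have hw' : JLim UH (fun n => 1 / m (s n + N)) aH (fun n z => (φ' n (ofComplex z) : ℂ)) u := by
    intro j k
    refine (hw j k).congr fun n z _ => ?_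
    rw [← E_sub (fun n => 1 / m (n + N)) aH (fun n z => (φ (n + N) (ofComplex z) : ℂ)) s j n z,
      ← E_sub (fun n => 1 / m (n + N)) aH (fun n z => (φ (n + N) (ofComplex z) : ℂ)) s k n z]
  obtain ⟨p, h1, h2, h3, h4, h5, h6, h7, h8⟩ := key_of_limits hDm hD hK S'
    (fun n => hc _) (fun n => hφ.invariant _) (fun n => hC _) hum hu hw'
  exact ⟨fun n => s n + N, fun a b hab => Nat.add_lt_add_right (hsm hab) N, p,
    ⟨h1, h2, h3, h4, h5, h6, h7, h8⟩⟩

end

end QE


end

section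

/-!
Algebra for the fourth moments of linear statistics of the local waves (helper70).
-/

open Complex MeasureTheory Filter Topology Set
open scoped ContDiff

namespace QE

noncomputable section

/-! ### the coefficients of the Taylor polynomials -/

lemma cc_conj (k : ℕ) : ∀ (j : ℤ) (ξ : ℂ), cc k (-j) ξ = (-1) ^ j * (starRingEnd ℂ) (cc k j ξ) := by
  induction k with
  | zero =>
    intro j ξ
    by_cases hj : j = 0
    · simp [cc, hj]
    · simp [cc, hj]
  | succ k ih =>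
    intro j ξ
    have e1 : -j - 1 = -(j + 1) := by ring
    have e2 : -j + 1 = -(j - 1) := by ring
    rw [cc_succ, cc_succ, e1, e2, ih, ih, zpow_add_one₀ (by norm_num), zpow_sub_one₀ (by norm_num)]
    simp only [map_mul, map_add, map_div₀, conj_I, starRingEnd_self_apply, map_ofNat]
    have : ((-1 : ℂ))⁻¹ = -1 := by norm_num
    rw [this]
    ring

lemma CN_conj (N : ℕ) (j : ℤ) (y : ℂ) : CN N (-j) y = (-1) ^ j * (starRingEnd ℂ) (CN N j y) := by
  unfold CN
  rw [map_sum, Finset.mul_sum]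
  refine Finset.sum_congr rfl fun k _ => ?_
  rw [cc_conj, Complex.real_smul, Complex.real_smul, map_mul, conj_ofReal]
  ring

/-! ### sums over four indices -/

lemma sum_pi4 {α : Type*} (I : Finset α) (F : α → α → α → α → ℂ) :
    ∑ p ∈ Fintype.piFinset (fun _ : Fin 4 => I), F (p 0) (p 1) (p 2) (p 3)
      = ∑ a ∈ I, ∑ b ∈ I, ∑ c ∈ I, ∑ d ∈ I, F a b c d := by
  have e : ∑ a ∈ I, ∑ b ∈ I, ∑ c ∈ I, ∑ d ∈ I, F a b c d
      = ∑ q ∈ I ×ˢ (I ×ˢ (I ×ˢ I)), F q.1 q.2.1 q.2.2.1 q.2.2.2 := by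
    rw [Finset.sum_product]
    refine Finset.sum_congr rfl fun a _ => ?_
    rw [Finset.sum_product]
    refine Finset.sum_congr rfl fun b _ => ?_
    rw [Finset.sum_product]
  rw [e]
  refine Finset.sum_nbij' (fun p => (p 0, (p 1, (p 2, p 3)))) (fun q => ![q.1, q.2.1, q.2.2.1, q.2.2.2])
    ?_ ?_ ?_ ?_ ?_
  · intro p hp
    rw [Fintype.mem_piFinset] at hp
    simp only [Finset.mem_product]
    exact ⟨hp 0, hp 1, hp 2, hp 3⟩
  · intro q hq
    simp only [Finset.mem_product] at hq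
    rw [Fintype.mem_piFinset]
    intro i
    fin_cases i
    · exact hq.1
    · exact hq.2.1
    · exact hq.2.2.1
    · exact hq.2.2.2
  · intro p _
    funext i
    fin_cases i <;> rfl
  · intro q _
    rfl
  · intro p _
    rfl

lemma sum_pi2 {α : Type*} (I : Finset α) (F : α → α → ℂ) :
    ∑ p ∈ Fintype.piFinset (fun _ : Fin 2 => I), F (p 0) (p 1) = ∑ a ∈ I, ∑ b ∈ I, F a b := by
  have e : ∑ a ∈ I, ∑ b ∈ I, F a b = ∑ q ∈ I ×ˢ I, F q.1 q.2 := by
    rw [Finset.sum_product]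
  rw [e]
  refine Finset.sum_nbij' (fun p => (p 0, p 1)) (fun q => ![q.1, q.2]) ?_ ?_ ?_ ?_ ?_
  · intro p hp
    rw [Fintype.mem_piFinset] at hp
    simp only [Finset.mem_product]
    exact ⟨hp 0, hp 1⟩
  · intro q hq
    simp only [Finset.mem_product] at hq
    rw [Fintype.mem_piFinset]
    intro i
    fin_cases i
    · exact hq.1
    · exact hq.2
  · intro p _
    funext i
    fin_cases i <;> rfl
  · intro q _
    rfl
  · intro p _
    rfl

/-- exchange of the second and the third index -/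
lemma sum4_23 (I : Finset ℤ) (F : ℤ → ℤ → ℤ → ℤ → ℂ) :
    ∑ a ∈ I, ∑ b ∈ I, ∑ c ∈ I, ∑ d ∈ I, F a c b d = ∑ a ∈ I, ∑ b ∈ I, ∑ c ∈ I, ∑ d ∈ I, F a b c d :=
  Finset.sum_congr rfl fun _ _ => Finset.sum_comm

/-- exchange of the third and the fourth index -/
lemma sum4_34 (I : Finset ℤ) (F : ℤ → ℤ → ℤ → ℤ → ℂ) :
    ∑ a ∈ I, ∑ b ∈ I, ∑ c ∈ I, ∑ d ∈ I, F a b d c = ∑ a ∈ I, ∑ b ∈ I, ∑ c ∈ I, ∑ d ∈ I, F a b c d :=
  Finset.sum_congr rfl fun _ _ => Finset.sum_congr rfl fun _ _ => Finset.sum_comm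

/-- the coefficients of the square -/
def cS (I : Finset ℤ) (t : ℤ → ℂ) (s : ℤ) : ℂ :=
  ∑ a ∈ I, ∑ b ∈ I, if a + b = s then (-1) ^ a * (t a * t b) else 0

/-- the paired sums -/
lemma pairing (I J : Finset ℤ) (hJ : ∀ a ∈ I, ∀ b ∈ I, a + b ∈ J) (t w : ℤ → ℂ) :
    ∑ a ∈ I, ∑ b ∈ I, ∑ c ∈ I, ∑ d ∈ I, (if a + b + c + d = 0 then
      (t a * t b * t c * t d) * ((-1) ^ a * (-1) ^ c * w (a + b)) else 0)
      = ∑ s ∈ J, cS I t s * cS I t (-s) * w s := by
  have e1 : ∀ s, cS I t s * cS I t (-s) * w s = ∑ a ∈ I, ∑ b ∈ I, ∑ c ∈ I, ∑ d ∈ I,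
      (if a + b = s then (-1) ^ a * (t a * t b) else 0)
        * (if c + d = -s then (-1) ^ c * (t c * t d) else 0) * w s := by
    intro s
    unfold cS
    rw [mul_assoc, Finset.sum_mul]
    refine Finset.sum_congr rfl fun a _ => ?_
    rw [Finset.sum_mul]
    refine Finset.sum_congr rfl fun b _ => ?_
    rw [← mul_assoc, Finset.mul_sum, Finset.sum_mul]
    refine Finset.sum_congr rfl fun c _ => ?_
    rw [Finset.mul_sum, Finset.sum_mul]
  have e2 : ∀ G : ℤ → ℤ → ℤ → ℤ → ℤ → ℂ,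
      ∑ s ∈ J, ∑ a ∈ I, ∑ b ∈ I, ∑ c ∈ I, ∑ d ∈ I, G s a b c d
        = ∑ a ∈ I, ∑ b ∈ I, ∑ c ∈ I, ∑ d ∈ I, ∑ s ∈ J, G s a b c d := by
    intro G
    rw [Finset.sum_comm]
    refine Finset.sum_congr rfl fun a _ => ?_
    rw [Finset.sum_comm]
    refine Finset.sum_congr rfl fun b _ => ?_
    rw [Finset.sum_comm]
    refine Finset.sum_congr rfl fun c _ => ?_
    rw [Finset.sum_comm]
  simp only [e1]
  rw [e2]
  refine Finset.sum_congr rfl fun a ha => Finset.sum_congr rfl fun b hb =>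
    Finset.sum_congr rfl fun c _ => Finset.sum_congr rfl fun d _ => ?_
  rw [Finset.sum_eq_single (a + b)]
  · rw [if_pos rfl]
    by_cases h : a + b + c + d = 0
    · rw [if_pos h, if_pos (by omega)]
      ring
    · rw [if_neg h, if_neg (by omega)]
      ring
  · intro s _ hs
    rw [if_neg (fun h => hs h.symm)]
    ring
  · intro h
    exact absurd (hJ a ha b hb) h

/-- the coefficients of the square of a real function -/
lemma cS_neg {I : Finset ℤ} (hI : ∀ a, a ∈ I ↔ -a ∈ I) {t : ℤ → ℂ}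
    (ht : ∀ j, t (-j) = (-1) ^ j * (starRingEnd ℂ) (t j)) (s : ℤ) :
    cS I t (-s) = (starRingEnd ℂ) (cS I t s) := by
  unfold cS
  have hneg : ∀ F : ℤ → ℂ, ∑ a ∈ I, F a = ∑ a ∈ I, F (-a) := by
    intro F
    refine Finset.sum_nbij' (fun a => -a) (fun a => -a) (fun a ha => (hI a).1 ha)
      (fun a ha => (hI a).1 ha) (fun a _ => neg_neg a) (fun a _ => neg_neg a) (fun a _ => ?_)
    rw [neg_neg]
  rw [hneg]
  simp only [map_sum]
  have e1 : ∀ a, ∑ b ∈ I, (if -a + b = -s then (-1 : ℂ) ^ (-a) * (t (-a) * t b) else 0)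
      = ∑ b ∈ I, (if -a + -b = -s then (-1) ^ (-a) * (t (-a) * t (-b)) else 0) := fun a =>
    hneg _
  simp only [e1]
  rw [Finset.sum_comm]
  refine Finset.sum_congr rfl fun b _ => Finset.sum_congr rfl fun a _ => ?_
  by_cases h : b + a = s
  · rw [if_pos (show -a + -b = -s by omega), if_pos h, ht, ht, map_mul, map_mul, map_zpow₀, map_neg,
      map_one]
    have h1 : (-1 : ℂ) ^ (-a) * (-1) ^ a = 1 := by
      rw [← zpow_add₀ (by norm_num)]; simp
    linear_combination ((starRingEnd ℂ) (t a) * ((-1) ^ b * (starRingEnd ℂ) (t b))) * h1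
  · rw [if_neg (show ¬ (-a + -b = -s) by omega), if_neg h, map_zero]

end

end QE


end

section

/-!
The fourth moments of linear statistics of the local waves: the local formula (helper70).
-/

open Complex MeasureTheory Filter Topology Set
open scoped ContDiff

namespace QE

noncomputable section

variable {U : Set ℂ} {h : ℕ → ℝ} {a : ℂ → ℂ} {g : ℂ → ℂ} {φ : ℕ → ℂ → ℂ} {u : ℤ → ℂ → ℂ}

/-- the integrals of the Wick sums of total index zero -/
theorem Gam_total (S : Setup U g a h φ) (L : JetLim U h a φ u) {ρ : ℂ → ℝ}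
    (hρ : Test U (fun z => (ρ z : ℂ))) (j m k l : ℤ) (hs : j + m + k + l = 0) :
    Gam u (fun z => (ρ z : ℂ)) j m k l
      = (-1) ^ j * (-1) ^ k * (UU u ρ (j + m) : ℂ) + (-1) ^ j * (-1) ^ m * (UU u ρ (j + k) : ℂ)
        + (-1) ^ j * (-1) ^ m * (UU u ρ (j + l) : ℂ) := by
  have hc : ∀ᵐ z ∂((volume : Measure ℂ).restrict U), ∀ k, u (-k) z = (starRingEnd ℂ) (u k z) :=
    ae_all_iff.2 fun k => L.conj S k
  have hG : ∀ᵐ z ∂((volume : Measure ℂ).restrict U), GW u j m k l z
      = (-1) ^ j * (-1) ^ k * ((‖u (j + m) z‖ ^ 2 : ℝ) : ℂ)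
        + (-1) ^ j * (-1) ^ m * ((‖u (j + k) z‖ ^ 2 : ℝ) : ℂ)
        + (-1) ^ j * (-1) ^ m * ((‖u (j + l) z‖ ^ 2 : ℝ) : ℂ) := by
    filter_upwards [hc] with z hz
    have hn : ∀ k, u k z * u (-k) z = ((‖u k z‖ ^ 2 : ℝ) : ℂ) := by
      intro k
      rw [hz, mul_conj, Complex.normSq_eq_norm_sq]
    rw [← hn, ← hn, ← hn]
    unfold GW WW
    have e1 : k + l = -(j + m) := by omega
    have e2 : m + l = -(j + k) := by omega
    have e3 : m + k = -(j + l) := by omega
    rw [e1, e2, e3]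
    ring
  unfold Gam
  rw [hρ.congr_ae S.op hG]
  have i1 : Integrable (fun z => ((ρ z * ‖u (j + m) z‖ ^ 2 : ℝ) : ℂ)) volume :=
    (hρ.int_sq (L.loc (j + m))).ofReal
  have i2 : Integrable (fun z => ((ρ z * ‖u (j + k) z‖ ^ 2 : ℝ) : ℂ)) volume :=
    (hρ.int_sq (L.loc (j + k))).ofReal
  have i3 : Integrable (fun z => ((ρ z * ‖u (j + l) z‖ ^ 2 : ℝ) : ℂ)) volume :=
    (hρ.int_sq (L.loc (j + l))).ofReal
  have eU : ∀ s : ℤ, (UU u ρ s : ℂ) = ∫ z, ((ρ z * ‖u s z‖ ^ 2 : ℝ) : ℂ) := fun s =>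
    integral_ofReal.symm
  rw [eU, eU, eU, ← integral_const_mul, ← integral_const_mul, ← integral_const_mul,
    ← integral_add_three' (i1.const_mul _) (i2.const_mul _) (i3.const_mul _)]
  refine integral_congr_ae (Filter.Eventually.of_forall fun z => ?_)
  beta_reduce
  push_cast
  ring

/-- the sum over the paired indices -/
lemma sum_three (I : Finset ℤ) (t w : ℤ → ℂ) :
    ∑ a ∈ I, ∑ b ∈ I, ∑ c ∈ I, ∑ d ∈ I, (if a + b + c + d = 0 then
      (t a * t b * t c * t d) * ((-1) ^ a * (-1) ^ c * w (a + b) + (-1) ^ a * (-1) ^ b * w (a + c)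
        + (-1) ^ a * (-1) ^ b * w (a + d)) else 0)
      = 3 * ∑ a ∈ I, ∑ b ∈ I, ∑ c ∈ I, ∑ d ∈ I, (if a + b + c + d = 0 then
      (t a * t b * t c * t d) * ((-1) ^ a * (-1) ^ c * w (a + b)) else 0) := by
  set H : ℤ → ℤ → ℤ → ℤ → ℂ := fun a b c d => if a + b + c + d = 0 then
      (t a * t b * t c * t d) * ((-1) ^ a * (-1) ^ c * w (a + b)) else 0 with hH
  have e1 := sum4_23 I H
  have e2 := sum4_34 I (fun a b c d => H a c b d)
  rw [e1] at e2
  have e3 : ∀ a b c d : ℤ, (if a + b + c + d = 0 then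
      (t a * t b * t c * t d) * ((-1) ^ a * (-1) ^ c * w (a + b) + (-1) ^ a * (-1) ^ b * w (a + c)
        + (-1) ^ a * (-1) ^ b * w (a + d)) else 0) = H a b c d + H a c b d + H a d b c := by
    intro a b c d
    simp only [hH]
    by_cases h : a + b + c + d = 0
    · rw [if_pos h, if_pos h, if_pos (by omega), if_pos (by omega)]
      ring
    · rw [if_neg h, if_neg h, if_neg (by omega), if_neg (by omega)]
      ring
  simp only [e3, Finset.sum_add_distrib]
  rw [e1, e2]
  ring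

lemma sum_pat (I : Finset ℤ) (t : ℤ → ℂ) :
    ∑ a ∈ I, ∑ b ∈ I, ∑ c ∈ I, ∑ d ∈ I, (if a + b + c + d = 0 then
      (t a * t b * t c * t d) * pat a b c d else 0)
      = ∑ a ∈ I, ∑ b ∈ I, ∑ c ∈ I, ∑ d ∈ I, (if a + b + c + d = 0 then
      (t a * t b * t c * t d) * ((-1) ^ a * (-1) ^ c * 1) else 0) := by
  set H : ℤ → ℤ → ℤ → ℤ → ℂ := fun a b c d => if a + b + c + d = 0 then
      (t a * t b * t c * t d) * ((-1) ^ a * (-1) ^ c * 1) else 0 with hH
  have e1 := sum4_23 I H
  have e2 := sum4_34 I H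
  have e3 : ∀ a b c d : ℤ, (if a + b + c + d = 0 then
      (t a * t b * t c * t d) * pat a b c d else 0)
      = (1 / 3) * H a c b d + (1 / 3) * H a b c d + (1 / 3) * H a b d c := by
    intro a b c d
    simp only [hH]
    by_cases h : a + b + c + d = 0
    · rw [if_pos h, if_pos h, if_pos (by omega), if_pos (by omega), pat_eq h]
      ring
    · rw [if_neg h, if_neg h, if_neg (by omega), if_neg (by omega)]
      ring
  simp only [e3, Finset.sum_add_distrib, ← Finset.mul_sum]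
  rw [e1, e2]
  ring

/-- **the fourth moments of linear combinations of jets** -/
theorem lin_jets (S : Setup U g a h φ) (L : JetLim U h a φ u) {ρ : ℂ → ℝ}
    (hρ : Test U (fun z => (ρ z : ℂ))) (I J : Finset ℤ) (hJ : ∀ a ∈ I, ∀ b ∈ I, a + b ∈ J)
    (t : ℤ → ℂ) :
    Tendsto (fun n => (∑ j ∈ I, ∑ m ∈ I, ∑ k ∈ I, ∑ l ∈ I, (if j + m + k + l = 0 then
        (t j * t m * t k * t l) * ∫ z, (ρ z : ℂ) * (E h a φ j n z * E h a φ m n z
          * (E h a φ k n z * E h a φ l n z)) else 0))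
      - ∑ s ∈ J, cS I t s * cS I t (-s) * ((3 * UU u ρ s
        + ((∫ z, ρ z * (φ n z).re ^ 4) - 3 * UU u ρ 0) : ℝ) : ℂ)) atTop (𝓝 0) := by
  have hc : ∀ᵐ z ∂((volume : Measure ℂ).restrict U), ∀ k, u (-k) z = (starRingEnd ℂ) (u k z) :=
    ae_all_iff.2 fun k => L.conj S k
  have h1 : ∀ j m k l : ℤ, Tendsto (fun n => if j + m + k + l = 0 then
      (t j * t m * t k * t l) * (YY h a φ u (fun z => (ρ z : ℂ)) n j m k l
        - pat j m k l * YY h a φ u (fun z => (ρ z : ℂ)) n 0 0 0 0) else 0) atTop (𝓝 0) := by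
    intro j m k l
    by_cases hs : j + m + k + l = 0
    · simp only [if_pos hs]
      have := (jets_four_var S L hρ j m k l hs).const_mul (t j * t m * t k * t l)
      rwa [mul_zero] at this
    · simp only [if_neg hs]
      exact tendsto_const_nhds
  have h2 : Tendsto (fun n => ∑ j ∈ I, ∑ m ∈ I, ∑ k ∈ I, ∑ l ∈ I, if j + m + k + l = 0 then
      (t j * t m * t k * t l) * (YY h a φ u (fun z => (ρ z : ℂ)) n j m k l
        - pat j m k l * YY h a φ u (fun z => (ρ z : ℂ)) n 0 0 0 0) else 0) atTop (𝓝 0) := by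
    have h3 := tendsto_finsetSum I fun j (_ : j ∈ I) => tendsto_finsetSum I fun m (_ : m ∈ I) =>
      tendsto_finsetSum I fun k (_ : k ∈ I) => tendsto_finsetSum I fun l (_ : l ∈ I) => h1 j m k l
    have e0 : ∑ j ∈ I, ∑ m ∈ I, ∑ k ∈ I, ∑ l ∈ I, (0 : ℂ) = 0 := by simp
    rw [e0] at h3
    exact h3
  refine h2.congr fun n => ?_
  set e : ℝ := (∫ z, ρ z * (φ n z).re ^ 4) - 3 * UU u ρ 0 with he
  have hY0 : YY h a φ u (fun z => (ρ z : ℂ)) n 0 0 0 0 = (e : ℂ) := by
    unfold YY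
    rw [S.fourth_eq hρ, Gam_zero S.op L.loc hc hρ, he, ofReal_sub]
  -- the Wick part
  have p1 := sum_three I t (fun s => (UU u ρ s : ℂ))
  rw [pairing I J hJ t (fun s => (UU u ρ s : ℂ))] at p1
  have p2 := sum_pat I t
  rw [pairing I J hJ t (fun _ => 1)] at p2
  have e1 : ∀ j m k l : ℤ, (if j + m + k + l = 0 then
      (t j * t m * t k * t l) * (YY h a φ u (fun z => (ρ z : ℂ)) n j m k l
        - pat j m k l * YY h a φ u (fun z => (ρ z : ℂ)) n 0 0 0 0) else 0)
      = (if j + m + k + l = 0 then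
        (t j * t m * t k * t l) * ∫ z, (ρ z : ℂ) * (E h a φ j n z * E h a φ m n z
          * (E h a φ k n z * E h a φ l n z)) else 0)
        - (if j + m + k + l = 0 then
      (t j * t m * t k * t l) * ((-1) ^ j * (-1) ^ k * (UU u ρ (j + m) : ℂ)
        + (-1) ^ j * (-1) ^ m * (UU u ρ (j + k) : ℂ)
        + (-1) ^ j * (-1) ^ m * (UU u ρ (j + l) : ℂ)) else 0)
        - (if j + m + k + l = 0 then (t j * t m * t k * t l) * pat j m k l else 0) * (e : ℂ) := by
    intro j m k l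
    by_cases hs : j + m + k + l = 0
    · simp only [if_pos hs]
      rw [hY0]
      unfold YY
      rw [Gam_total S L hρ j m k l hs]
      ring
    · simp only [if_neg hs]
      ring
  simp only [e1, Finset.sum_sub_distrib, ← Finset.sum_mul]
  rw [p1, p2, sub_sub]
  congr 1
  rw [Finset.mul_sum, Finset.sum_mul, ← Finset.sum_add_distrib]
  refine Finset.sum_congr rfl fun s _ => ?_
  push_cast
  ring

/-- **the lower bound for linear combinations of jets** -/
theorem lin_jets_lower (S : Setup U g a h φ) (L : JetLim U h a φ u) {ρ : ℂ → ℝ}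
    (hρs : ContDiff ℝ ∞ ρ) (hρc : HasCompactSupport ρ) (hρU : tsupport ρ ⊆ U) (hρ0 : ∀ z, 0 ≤ ρ z)
    (hN : Tendsto (fun N : ℕ => (1 / (N : ℝ)) * ∑ k ∈ Finset.Ioo (-(N : ℤ)) (N : ℤ),
      ∫ z, ρ z * ‖u k z‖ ^ 2) atTop (𝓝 0)) (N : ℕ) {t : ℤ → ℂ}
    (ht : ∀ j, t (-j) = (-1) ^ j * (starRingEnd ℂ) (t j)) {ε : ℝ} (hε : 0 < ε) :
    ∀ᶠ n in atTop, ‖cS (Finset.Icc (-(N : ℤ)) N) t 0‖ ^ 2 * (∫ z, ρ z * (φ n z).re ^ 4) - ε
      ≤ (∑ j ∈ Finset.Icc (-(N : ℤ)) N, ∑ m ∈ Finset.Icc (-(N : ℤ)) N,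
        ∑ k ∈ Finset.Icc (-(N : ℤ)) N, ∑ l ∈ Finset.Icc (-(N : ℤ)) N,
        (if j + m + k + l = 0 then
        (t j * t m * t k * t l) * ∫ z, (ρ z : ℂ) * (E h a φ j n z * E h a φ m n z
          * (E h a φ k n z * E h a φ l n z)) else 0)).re := by
  have hT : Test U (fun z => (ρ z : ℂ)) := by
    refine ⟨ofRealCLM.contDiff.comp hρs, ?_, ?_⟩
    · unfold HasCompactSupport
      rw [Test.tsupport_eq]
      exact hρc
    · rw [Test.tsupport_eq]; exact hρU
  set I := Finset.Icc (-(N : ℤ)) (N : ℤ) with hI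
  set J := Finset.Icc (-(2 * N : ℤ)) (2 * N : ℤ) with hJdef
  have hJ : ∀ a ∈ I, ∀ b ∈ I, a + b ∈ J := by
    intro a ha b hb
    rw [hI, Finset.mem_Icc] at ha hb
    rw [hJdef, Finset.mem_Icc]
    constructor <;> omega
  have h0J : (0 : ℤ) ∈ J := by
    rw [hJdef, Finset.mem_Icc]
    constructor <;> omega
  have hIneg : ∀ a, a ∈ I ↔ -a ∈ I := by
    intro a
    rw [hI, Finset.mem_Icc, Finset.mem_Icc]
    constructor <;> intro h <;> constructor <;> omega
  have hcc : ∀ s, cS I t s * cS I t (-s) = ((‖cS I t s‖ ^ 2 : ℝ) : ℂ) := by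
    intro s
    rw [cS_neg hIneg ht, mul_conj, Complex.normSq_eq_norm_sq]
  set F : ℝ := ∑ s ∈ J, ‖cS I t s‖ ^ 2 with hF
  have hF0 : 0 ≤ F := Finset.sum_nonneg fun s _ => by positivity
  set η : ℝ := ε / (2 * (F + 1)) with hη
  have hη0 : 0 < η := by (clear * - hε; positivity)
  have hηF : η * F ≤ ε / 2 := by
    have e : η * F = ε / 2 * (F / (F + 1)) := by rw [hη]; field_simp
    have h1 : F / (F + 1) ≤ 1 := (div_le_one (by (clear * -; positivity))).mpr (by linarith)
    rw [e]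
    nlinarith only [hε, h1]
  have h1 := local_atomless' S L.loc L.lim (fun k => L.conj S k) hρs hρc hρU hρ0 hN (ε := η) hη0
  have h2 := (Metric.tendsto_nhds.mp (lin_jets S L hT I J hJ t)) (ε / 2) (by positivity)
  filter_upwards [h1, h2] with n h3 h4
  set e : ℝ := (∫ z, ρ z * (φ n z).re ^ 4) - 3 * UU u ρ 0 with he
  have he0 : -η ≤ e := by
    rw [he]; unfold UU; linarith only [h3]
  rw [dist_zero_right] at h4
  set Z : ℂ := ∑ j ∈ I, ∑ m ∈ I, ∑ k ∈ I, ∑ l ∈ I, (if j + m + k + l = 0 then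
        (t j * t m * t k * t l) * ∫ z, (ρ z : ℂ) * (E h a φ j n z * E h a φ m n z
          * (E h a φ k n z * E h a φ l n z)) else 0) with hZ
  have hre : ∑ s ∈ J, cS I t s * cS I t (-s) * ((3 * UU u ρ s + e : ℝ) : ℂ)
      = ((∑ s ∈ J, ‖cS I t s‖ ^ 2 * (3 * UU u ρ s + e) : ℝ) : ℂ) := by
    rw [ofReal_sum]
    refine Finset.sum_congr rfl fun s _ => ?_
    rw [hcc, ofReal_mul]
  rw [hre] at h4
  have h5 := (abs_le.1 ((Complex.abs_re_le_norm _).trans h4.le)).1
  rw [Complex.sub_re, ofReal_re] at h5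
  -- the lower bound for the limit
  have h6 : ‖cS I t 0‖ ^ 2 * (∫ z, ρ z * (φ n z).re ^ 4) - η * F
      ≤ ∑ s ∈ J, ‖cS I t s‖ ^ 2 * (3 * UU u ρ s + e) := by
    have h7 : ∑ s ∈ J, ‖cS I t s‖ ^ 2 * (3 * UU u ρ s + e) + η * F
        = ∑ s ∈ J, ‖cS I t s‖ ^ 2 * (3 * UU u ρ s + e + η) := by
      rw [hF, Finset.mul_sum, ← Finset.sum_add_distrib]
      refine Finset.sum_congr rfl fun s _ => ?_
      ring
    have h8 : ‖cS I t 0‖ ^ 2 * (3 * UU u ρ 0 + e + η)
        ≤ ∑ s ∈ J, ‖cS I t s‖ ^ 2 * (3 * UU u ρ s + e + η) := by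
      refine Finset.single_le_sum (f := fun s => ‖cS I t s‖ ^ 2 * (3 * UU u ρ s + e + η))
        (fun s _ => ?_) h0J
      have := UU_nonneg (u := u) hρ0 s
      exact mul_nonneg (by (clear * -; positivity)) (by linarith)
    have h9 : 3 * UU u ρ 0 + e = ∫ z, ρ z * (φ n z).re ^ 4 := by rw [he]; ring
    rw [h9] at h8
    have h10 : 0 ≤ ‖cS I t 0‖ ^ 2 * η := by (clear * - hε; positivity)
    linarith only [h7, h8, h10]
  linarith only [hηF, h5, h6]

end

end QE


end

section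

/-!
The coefficients of linear statistics of the local waves and their limits (helper70).
-/

open Complex MeasureTheory Filter Topology Set
open scoped ContDiff

namespace QE

noncomputable section

variable {r : ℕ}

/-- the Taylor coefficients of the statistic `∑ cᵢ F(xᵢ)` -/
def tN (c : Fin r → ℝ) (x : Fin r → ℂ) (N : ℕ) (j : ℤ) : ℂ := ∑ i, (c i : ℂ) * CN N j (x i)

lemma tN_conj (c : Fin r → ℝ) (x : Fin r → ℂ) (N : ℕ) (j : ℤ) :
    tN c x N (-j) = (-1) ^ j * (starRingEnd ℂ) (tN c x N j) := by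
  unfold tN
  rw [map_sum, Finset.mul_sum]
  refine Finset.sum_congr rfl fun i _ => ?_
  rw [CN_conj, map_mul, conj_ofReal]
  ring

/-- the expansion of products of sums -/
lemma lin_expand (s : ℕ) (I : Finset ℤ) (c : Fin r → ℂ) (C : ℤ → Fin r → ℂ)
    (G : (Fin s → ℤ) → ℂ) :
    ∑ p ∈ Fintype.piFinset (fun _ : Fin s => I), (∏ j, ∑ i, c i * C (p j) i) * G p
      = ∑ q : Fin s → Fin r, (∏ j, c (q j))
        * ∑ p ∈ Fintype.piFinset (fun _ : Fin s => I), (∏ j, C (p j) (q j)) * G p := by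
  have e : ∀ p : Fin s → ℤ, ∏ j, ∑ i, c i * C (p j) i
      = ∑ q : Fin s → Fin r, (∏ j, c (q j)) * ∏ j, C (p j) (q j) := by
    intro p
    rw [Finset.prod_univ_sum, Fintype.piFinset_univ]
    exact Finset.sum_congr rfl fun q _ => Finset.prod_mul_distrib
  simp only [e, Finset.sum_mul, Finset.mul_sum]
  rw [Finset.sum_comm]
  refine Finset.sum_congr rfl fun q _ => Finset.sum_congr rfl fun p _ => ?_
  ring

/-- the variance of the statistic under the monochromatic wave -/
def statVar (c : Fin r → ℝ) (x : Fin r → ℂ) : ℝ :=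
  ∑ q : Fin 2 → Fin r, (∏ j, c (q j)) * Berry.waveK (x (q 0) - x (q 1))

/-- the mean of the fourth power of the modulus of the symbol of the statistic -/
def statFour (c : Fin r → ℝ) (x : Fin r → ℂ) : ℝ :=
  ∑ q : Fin 4 → Fin r, (∏ j, c (q j)) * Berry.waveK (x (q 0) - x (q 1) + x (q 2) - x (q 3))

lemma tendsto_cS0 (c : Fin r → ℝ) (x : Fin r → ℂ) :
    Tendsto (fun N : ℕ => cS (Finset.Icc (-(N : ℤ)) N) (tN c x N) 0) atTop
      (𝓝 (statVar c x : ℂ)) := by
  have h1 : ∀ N : ℕ, cS (Finset.Icc (-(N : ℤ)) N) (tN c x N) 0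
      = ∑ q : Fin 2 → Fin r, (∏ j, (c (q j) : ℂ))
        * ∑ p ∈ Fintype.piFinset (fun _ : Fin 2 => Finset.Icc (-(N : ℤ)) N),
          (∏ j, CN N (p j) (x (q j))) * ((if ∑ i, p i = 0 then 1 else 0) * P (p 0) (p 1)) := by
    intro N
    rw [← lin_expand 2 (Finset.Icc (-(N : ℤ)) N) (fun i => (c i : ℂ)) (fun j i => CN N j (x i))
      (fun p => (if ∑ i, p i = 0 then 1 else 0) * P (p 0) (p 1))]
    unfold cS
    rw [← sum_pi2 (Finset.Icc (-(N : ℤ)) N)
      (fun a b => if a + b = 0 then (-1) ^ a * (tN c x N a * tN c x N b) else 0)]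
    refine Finset.sum_congr rfl fun p _ => ?_
    rw [Fin.prod_univ_two, Fin.sum_univ_two]
    unfold P tN
    by_cases hp : p 0 + p 1 = 0
    · simp only [if_pos hp]; ring
    · simp only [if_neg hp]; ring
  simp only [h1]
  have h2 := tendsto_finsetSum (Finset.univ : Finset (Fin 2 → Fin r)) fun q _ =>
    (model_pair (fun i => x (q i))).const_mul (∏ j, (c (q j) : ℂ))
  have e : (statVar c x : ℂ)
      = ∑ q : Fin 2 → Fin r, (∏ j, (c (q j) : ℂ)) * (Berry.waveK (x (q 0) - x (q 1)) : ℂ) := by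
    unfold statVar
    push_cast
    rfl
  rw [e]
  exact h2

lemma tendsto_cSS (c : Fin r → ℝ) (x : Fin r → ℂ) :
    Tendsto (fun N : ℕ => ∑ s ∈ Finset.Icc (-(2 * N : ℤ)) (2 * N),
        cS (Finset.Icc (-(N : ℤ)) N) (tN c x N) s * cS (Finset.Icc (-(N : ℤ)) N) (tN c x N) (-s))
      atTop (𝓝 (statFour c x : ℂ)) := by
  have n1 : ∀ i : Fin 4, ‖(![-1, 1, -1, 1] : Fin 4 → ℂ) i‖ = 1 := by intro i; fin_cases i <;> simp
  have h1 : ∀ N : ℕ, ∑ s ∈ Finset.Icc (-(2 * N : ℤ)) (2 * N),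
      cS (Finset.Icc (-(N : ℤ)) N) (tN c x N) s * cS (Finset.Icc (-(N : ℤ)) N) (tN c x N) (-s)
      = ∑ q : Fin 4 → Fin r, (∏ j, (c (q j) : ℂ))
        * ∑ p ∈ Fintype.piFinset (fun _ : Fin 4 => Finset.Icc (-(N : ℤ)) N),
          (∏ j, CN N (p j) (x (q j))) * ((∏ i, (![-1, 1, -1, 1] : Fin 4 → ℂ) i ^ p i)
            * if ∑ i, p i = 0 then 1 else 0) := by
    intro N
    rw [← lin_expand 4 (Finset.Icc (-(N : ℤ)) N) (fun i => (c i : ℂ)) (fun j i => CN N j (x i))
      (fun p => (∏ i, (![-1, 1, -1, 1] : Fin 4 → ℂ) i ^ p i) * if ∑ i, p i = 0 then 1 else 0)]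
    have e1 := pairing (Finset.Icc (-(N : ℤ)) N) (Finset.Icc (-(2 * N : ℤ)) (2 * N))
      (fun a ha b hb => by
        rw [Finset.mem_Icc] at ha hb ⊢
        constructor <;> omega) (tN c x N) (fun _ => 1)
    simp only [mul_one] at e1
    rw [← e1, ← sum_pi4 (Finset.Icc (-(N : ℤ)) N)
      (fun a b c' d => if a + b + c' + d = 0 then
        (tN c x N a * tN c x N b * tN c x N c' * tN c x N d) * ((-1) ^ a * (-1) ^ c') else 0)]
    refine Finset.sum_congr rfl fun p _ => ?_
    rw [Fin.prod_univ_four, Fin.prod_univ_four, Fin.sum_univ_four]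
    unfold tN
    simp only [Matrix.cons_val_zero, Matrix.cons_val_one, Matrix.cons_val, one_zpow, mul_one]
    by_cases hp : p 0 + p 1 + p 2 + p 3 = 0
    · simp only [if_pos hp, mul_one]
    · simp only [if_neg hp, mul_zero]
  simp only [h1]
  have h2 := tendsto_finsetSum (Finset.univ : Finset (Fin 4 → Fin r)) fun q _ =>
    (model_one (![-1, 1, -1, 1] : Fin 4 → ℂ) (fun i => x (q i)) n1).const_mul
      (∏ j, (c (q j) : ℂ))
  have e : (statFour c x : ℂ) = ∑ q : Fin 4 → Fin r, (∏ j, (c (q j) : ℂ))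
      * (Berry.waveK (∑ i, (![-1, 1, -1, 1] : Fin 4 → ℂ) i * x (q i)) : ℂ) := by
    unfold statFour
    push_cast
    refine Finset.sum_congr rfl fun q _ => ?_
    congr 2
    rw [Fin.sum_univ_four, ← Berry.waveK_neg]
    congr 1
    simp only [Matrix.cons_val_zero, Matrix.cons_val_one, Matrix.cons_val]
    ring
  rw [e]
  exact h2

end

end QE


end

section

/-!
The local inequalities for the fourth moments of linear statistics (helper70).
-/

open Complex MeasureTheory Filter Topology Set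
open scoped ContDiff

namespace QE

noncomputable section

variable {U : Set ℂ} {h : ℕ → ℝ} {a : ℂ → ℂ} {g : ℂ → ℂ} {φ : ℕ → ℂ → ℂ} {u : ℤ → ℂ → ℂ}

/-- **the upper bound for linear combinations of jets** -/
theorem lin_jets_upper (S : Setup U g a h φ) (L : JetLim U h a φ u) {ρ : ℂ → ℝ}
    (hρs : ContDiff ℝ ∞ ρ) (hρc : HasCompactSupport ρ) (hρU : tsupport ρ ⊆ U) (hρ0 : ∀ z, 0 ≤ ρ z)
    (hb : ∀ k, ∀ᵐ z ∂((volume : Measure ℂ).restrict U), ‖u k z‖ ≤ ‖u 0 z‖) (N : ℕ) {t : ℤ → ℂ}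
    (ht : ∀ j, t (-j) = (-1) ^ j * (starRingEnd ℂ) (t j)) {ε : ℝ} (hε : 0 < ε) :
    ∀ᶠ n in atTop, (∑ j ∈ Finset.Icc (-(N : ℤ)) N, ∑ m ∈ Finset.Icc (-(N : ℤ)) N,
        ∑ k ∈ Finset.Icc (-(N : ℤ)) N, ∑ l ∈ Finset.Icc (-(N : ℤ)) N,
        (if j + m + k + l = 0 then
        (t j * t m * t k * t l) * ∫ z, (ρ z : ℂ) * (E h a φ j n z * E h a φ m n z
          * (E h a φ k n z * E h a φ l n z)) else 0)).re
      ≤ (∑ s ∈ Finset.Icc (-(2 * N : ℤ)) (2 * N), cS (Finset.Icc (-(N : ℤ)) N) t s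
          * cS (Finset.Icc (-(N : ℤ)) N) t (-s)).re * (∫ z, ρ z * (φ n z).re ^ 4) + ε := by
  have hT : Test U (fun z => (ρ z : ℂ)) := by
    refine ⟨ofRealCLM.contDiff.comp hρs, ?_, ?_⟩
    · unfold HasCompactSupport
      rw [Test.tsupport_eq]
      exact hρc
    · rw [Test.tsupport_eq]; exact hρU
  set I := Finset.Icc (-(N : ℤ)) (N : ℤ) with hI
  set J := Finset.Icc (-(2 * N : ℤ)) (2 * N : ℤ) with hJdef
  have hJ : ∀ a ∈ I, ∀ b ∈ I, a + b ∈ J := by
    intro a ha b hb
    rw [hI, Finset.mem_Icc] at ha hb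
    rw [hJdef, Finset.mem_Icc]
    constructor <;> omega
  have hIneg : ∀ a, a ∈ I ↔ -a ∈ I := by
    intro a
    rw [hI, Finset.mem_Icc, Finset.mem_Icc]
    constructor <;> intro h <;> constructor <;> omega
  have hcc : ∀ s, cS I t s * cS I t (-s) = ((‖cS I t s‖ ^ 2 : ℝ) : ℂ) := by
    intro s
    rw [cS_neg hIneg ht, mul_conj, Complex.normSq_eq_norm_sq]
  have h2 := (Metric.tendsto_nhds.mp (lin_jets S L hT I J hJ t)) ε hε
  -- the coefficients are bounded by the density
  have hUU : ∀ s, UU u ρ s ≤ UU u ρ 0 := by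
    intro s
    unfold UU
    refine integral_mono_ae (hT.int_sq (L.loc s)) (hT.int_sq (L.loc 0)) ?_
    have h3 := (ae_restrict_iff' S.op.measurableSet).1 (hb s)
    filter_upwards [h3] with z hz
    by_cases hzU : z ∈ U
    · have := hz hzU
      have h4 := hρ0 z
      (clear * - this h4; gcongr)
    · have h0 : ρ z = 0 := image_eq_zero_of_notMem_tsupport fun hh => hzU (hρU hh)
      rw [h0]; simp
  filter_upwards [h2] with n h4
  set e : ℝ := (∫ z, ρ z * (φ n z).re ^ 4) - 3 * UU u ρ 0 with he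
  rw [dist_zero_right] at h4
  set Z : ℂ := ∑ j ∈ I, ∑ m ∈ I, ∑ k ∈ I, ∑ l ∈ I, (if j + m + k + l = 0 then
        (t j * t m * t k * t l) * ∫ z, (ρ z : ℂ) * (E h a φ j n z * E h a φ m n z
          * (E h a φ k n z * E h a φ l n z)) else 0) with hZ
  have hre : ∑ s ∈ J, cS I t s * cS I t (-s) * ((3 * UU u ρ s + e : ℝ) : ℂ)
      = ((∑ s ∈ J, ‖cS I t s‖ ^ 2 * (3 * UU u ρ s + e) : ℝ) : ℂ) := by
    rw [ofReal_sum]
    refine Finset.sum_congr rfl fun s _ => ?_
    rw [hcc, ofReal_mul]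
  have hre2 : (∑ s ∈ J, cS I t s * cS I t (-s)).re = ∑ s ∈ J, ‖cS I t s‖ ^ 2 := by
    simp only [hcc]
    rw [← ofReal_sum, ofReal_re]
  rw [hre] at h4
  have h5 := (abs_le.1 ((Complex.abs_re_le_norm _).trans h4.le)).2
  rw [Complex.sub_re, ofReal_re] at h5
  have h6 : ∑ s ∈ J, ‖cS I t s‖ ^ 2 * (3 * UU u ρ s + e)
      ≤ (∑ s ∈ J, ‖cS I t s‖ ^ 2) * ∫ z, ρ z * (φ n z).re ^ 4 := by
    rw [Finset.sum_mul]
    refine Finset.sum_le_sum fun s _ => ?_
    have h7 : 3 * UU u ρ s + e ≤ ∫ z, ρ z * (φ n z).re ^ 4 := by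
      have := hUU s
      rw [he]; linarith
    exact mul_le_mul_of_nonneg_left h7 (by (clear * -; positivity))
  rw [hre2]
  linarith only [h5, h6]

namespace Setup

variable {r : ℕ}

/-- the rotation average of a product of four values of the wave -/
def rotP (h : ℕ → ℝ) (a : ℂ → ℂ) (φ : ℕ → ℂ → ℂ) (ζ : ℂ → ℂ) (ξ : Fin r → ℕ → ℝ → ℂ → ℂ)
    (q : Fin 4 → Fin r) (n : ℕ) : ℂ :=
  ∫ θ, (∫ z, ζ z * ∏ j, φ n (z + h n * a z * ξ (q j) n θ z)) ∂ang

/-- **The rotation averages and the jets** -/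
theorem rot_jets (S : Setup U g a h φ) {K : Set ℂ} (hK : IsCompact K) {δ : ℝ} (hδ : 0 < δ)
    (hδU : Metric.cthickening (2 * δ) K ⊆ U) {κ : ℤ} (hκ : κ ≠ 0) (c : Fin r → ℝ) (x : Fin r → ℂ)
    (ξ : Fin r → ℕ → ℝ → ℂ → ℂ) (hξ : ∀ i, Disp h a K κ (x i) (ξ i)) {ζ : ℂ → ℂ}
    (hζ : Test U ζ) (hζK : tsupport ζ ⊆ K) {ε : ℝ} (hε : 0 < ε) :
    ∃ N₀ : ℕ, ∀ N ≥ N₀, ∀ᶠ n in atTop,
      ‖(∑ q : Fin 4 → Fin r, (∏ j, (c (q j) : ℂ)) * rotP h a φ ζ ξ q n)
        - ∑ j ∈ Finset.Icc (-(N : ℤ)) N, ∑ m ∈ Finset.Icc (-(N : ℤ)) N,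
          ∑ k ∈ Finset.Icc (-(N : ℤ)) N, ∑ l ∈ Finset.Icc (-(N : ℤ)) N,
          (if j + m + k + l = 0 then (tN c x N j * tN c x N m * tN c x N k * tN c x N l)
            * ∫ z, ζ z * (E h a φ j n z * E h a φ m n z * (E h a φ k n z * E h a φ l n z))
            else 0)‖ ≤ ε := by
  have hKU : K ⊆ U := (Metric.self_subset_cthickening K).trans hδU
  have hset : ∀ f : ℂ → ℂ, ∫ z, ζ z * f z = ∫ z in K, ζ z * f z := by
    intro f
    rw [setIntegral_eq_integral_of_forall_compl_eq_zero]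
    intro z hz
    rw [image_eq_zero_of_notMem_tsupport (fun hz' => hz (hζK hz')), zero_mul]
  have hζc : ContinuousOn ζ K := hζ.smooth.continuous.continuousOn
  set A : ℝ := ∑ q : Fin 4 → Fin r, ‖∏ j, (c (q j) : ℂ)‖ with hA
  have hA0 : 0 ≤ A := Finset.sum_nonneg fun q _ => norm_nonneg _
  have hε' : 0 < ε / (A + 1) := by (clear * - hε; positivity)
  have h1 : ∀ q : Fin 4 → Fin r, ∃ N₀ : ℕ, ∀ N ≥ N₀, ∀ᶠ n in atTop,
      ‖rotP h a φ ζ ξ q n
        - ∑ p ∈ Fintype.piFinset (fun _ : Fin 4 => Finset.Icc (-(N : ℤ)) N),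
          (∏ i, CN N (p i) (x (q i))) * ((if ∑ i, p i = 0 then 1 else 0)
            * ∫ z, ζ z * ∏ i, E h a φ (p i) n z)‖ ≤ ε / (A + 1) := by
    intro q
    obtain ⟨N₀, hN₀⟩ := S.rot_close hK hδ hδU κ (fun _ => true) (fun i => x (q i))
      (fun i => ξ (q i)) (fun i => hξ (q i)) hζc hε'
    refine ⟨N₀, fun N hN => ?_⟩
    filter_upwards [hN₀ N hN] with n hn
    simp only [fld, tay, if_true] at hn
    have e1 := S.rot_expand hK hKU hκ (fun i => x (q i)) hζc N n
    simp only [Fin.prod_univ_four] at e1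
    rw [e1] at hn
    unfold rotP
    simp only [hset]
    simp only [Fin.prod_univ_four]
    exact hn
  choose N₀ hN₀ using h1
  refine ⟨∑ q, N₀ q, fun N hN => ?_⟩
  have hNq : ∀ q, N₀ q ≤ N := fun q =>
    (Finset.single_le_sum (f := N₀) (fun _ _ => Nat.zero_le _) (Finset.mem_univ q)).trans hN
  filter_upwards [eventually_all.2 fun q => hN₀ q N (hNq q)] with n hn
  have e1 : ∑ j ∈ Finset.Icc (-(N : ℤ)) N, ∑ m ∈ Finset.Icc (-(N : ℤ)) N,
      ∑ k ∈ Finset.Icc (-(N : ℤ)) N, ∑ l ∈ Finset.Icc (-(N : ℤ)) N,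
      (if j + m + k + l = 0 then (tN c x N j * tN c x N m * tN c x N k * tN c x N l)
        * ∫ z, ζ z * (E h a φ j n z * E h a φ m n z * (E h a φ k n z * E h a φ l n z))
        else 0)
      = ∑ q : Fin 4 → Fin r, (∏ j, (c (q j) : ℂ))
        * ∑ p ∈ Fintype.piFinset (fun _ : Fin 4 => Finset.Icc (-(N : ℤ)) N),
          (∏ i, CN N (p i) (x (q i))) * ((if ∑ i, p i = 0 then 1 else 0)
            * ∫ z, ζ z * ∏ i, E h a φ (p i) n z) := by
    rw [← lin_expand 4 (Finset.Icc (-(N : ℤ)) N) (fun i => (c i : ℂ)) (fun j i => CN N j (x i))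
      (fun p => (if ∑ i, p i = 0 then 1 else 0) * ∫ z, ζ z * ∏ i, E h a φ (p i) n z),
      ← sum_pi4 (Finset.Icc (-(N : ℤ)) N) (fun j m k l => if j + m + k + l = 0 then
        (tN c x N j * tN c x N m * tN c x N k * tN c x N l)
        * ∫ z, ζ z * (E h a φ j n z * E h a φ m n z * (E h a φ k n z * E h a φ l n z)) else 0)]
    refine Finset.sum_congr rfl fun p _ => ?_
    rw [Fin.prod_univ_four, Fin.sum_univ_four]
    have e2 : ∫ z, ζ z * ∏ i, E h a φ (p i) n z = ∫ z, ζ z * (E h a φ (p 0) n z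
        * E h a φ (p 1) n z * (E h a φ (p 2) n z * E h a φ (p 3) n z)) := by
      congr 1; funext z
      rw [Fin.prod_univ_four]; ring
    rw [e2]
    unfold tN
    by_cases hp : p 0 + p 1 + p 2 + p 3 = 0
    · simp only [if_pos hp, one_mul]
    · simp only [if_neg hp, mul_zero, zero_mul]
  rw [e1, ← Finset.sum_sub_distrib]
  calc _ ≤ ∑ q : Fin 4 → Fin r, ‖∏ j, (c (q j) : ℂ)‖ * (ε / (A + 1)) := by
        refine (norm_sum_le _ _).trans (Finset.sum_le_sum fun q _ => ?_)
        rw [← mul_sub, norm_mul]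
        exact mul_le_mul_of_nonneg_left (hn q) (norm_nonneg _)
    _ = A / (A + 1) * ε := by rw [← Finset.sum_mul, ← hA]; ring
    _ ≤ 1 * ε := by
        gcongr
        exact (div_le_one (by positivity)).2 (by linarith)
    _ = ε := one_mul ε

/-- the fourth moments against test functions are bounded -/
theorem fourth_bdd (S : Setup U g a h φ) {ρ : ℂ → ℝ} (hρ : Test U (fun z => (ρ z : ℂ))) :
    ∃ B : ℝ, 0 ≤ B ∧ ∀ᶠ n in atTop, |∫ z, ρ z * (φ n z).re ^ 4| ≤ B := by
  obtain ⟨C₁, hC₁⟩ := (S.bd2 0 0).test_mul (S.sm2 0 0) (S.bd2 0 0) (S.sm2 0 0) hρ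
  refine ⟨|C₁|, abs_nonneg _, ?_⟩
  filter_upwards [hC₁] with n hn
  have h1 := S.fourth_eq hρ n
  rw [h1, Complex.norm_real, Real.norm_eq_abs] at hn
  exact hn.trans (le_abs_self _)

/-- **The local lower bound for linear statistics.** -/
theorem lin_local_lower (S : Setup U g a h φ) (L : JetLim U h a φ u) {K : Set ℂ}
    (hK : IsCompact K) {δ : ℝ} (hδ : 0 < δ) (hδU : Metric.cthickening (2 * δ) K ⊆ U) {κ : ℤ}
    (hκ : κ ≠ 0) (c : Fin r → ℝ) (x : Fin r → ℂ) (ξ : Fin r → ℕ → ℝ → ℂ → ℂ)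
    (hξ : ∀ i, Disp h a K κ (x i) (ξ i)) {ρ : ℂ → ℝ} (hρs : ContDiff ℝ ∞ ρ)
    (hρc : HasCompactSupport ρ) (hρK : tsupport ρ ⊆ K) (hρ0 : ∀ z, 0 ≤ ρ z)
    (hN : Tendsto (fun N : ℕ => (1 / (N : ℝ)) * ∑ k ∈ Finset.Ioo (-(N : ℤ)) (N : ℤ),
      ∫ z, ρ z * ‖u k z‖ ^ 2) atTop (𝓝 0)) {ε : ℝ} (hε : 0 < ε) :
    ∀ᶠ n in atTop, statVar c x ^ 2 * (∫ z, ρ z * (φ n z).re ^ 4) - ε
      ≤ (∑ q : Fin 4 → Fin r, (∏ j, (c (q j) : ℂ))
        * rotP h a φ (fun z => (ρ z : ℂ)) ξ q n).re := by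
  have hKU : K ⊆ U := (Metric.self_subset_cthickening K).trans hδU
  have hρU : tsupport ρ ⊆ U := hρK.trans hKU
  have hT : Test U (fun z => (ρ z : ℂ)) := by
    refine ⟨ofRealCLM.contDiff.comp hρs, ?_, ?_⟩
    · unfold HasCompactSupport
      rw [Test.tsupport_eq]
      exact hρc
    · rw [Test.tsupport_eq]; exact hρU
  obtain ⟨B, hB0, hB⟩ := S.fourth_bdd hT
  obtain ⟨N₀, hN₀⟩ := S.rot_jets hK hδ hδU hκ c x ξ hξ hT
    (by rw [Test.tsupport_eq]; exact hρK) (show 0 < ε / 3 by positivity)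
  have h1 : Tendsto (fun N : ℕ => ‖cS (Finset.Icc (-(N : ℤ)) N) (tN c x N) 0‖ ^ 2) atTop
      (𝓝 (statVar c x ^ 2)) := by
    have := ((tendsto_cS0 c x).norm).pow 2
    rwa [Complex.norm_real, Real.norm_eq_abs, sq_abs] at this
  have h2 := (Metric.tendsto_nhds.1 h1) (ε / (3 * (B + 1))) (by positivity)
  obtain ⟨N, hN1, hN2⟩ := ((eventually_ge_atTop N₀).and h2).exists
  have h3 := lin_jets_lower S L hρs hρc hρU hρ0 hN N (tN_conj c x N)
    (show 0 < ε / 3 by positivity)
  filter_upwards [hN₀ N hN1, h3, hB] with n n1 n2 n3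
  have n4 := (abs_le.1 ((Complex.abs_re_le_norm _).trans n1)).1
  rw [Complex.sub_re] at n4
  rw [Real.dist_eq] at hN2
  have n5 : |(‖cS (Finset.Icc (-(N : ℤ)) N) (tN c x N) 0‖ ^ 2 - statVar c x ^ 2)
      * ∫ z, ρ z * (φ n z).re ^ 4| ≤ ε / 3 := by
    rw [abs_mul]
    calc _ ≤ ε / (3 * (B + 1)) * B := mul_le_mul hN2.le n3 (abs_nonneg _) (by positivity)
      _ = ε / 3 * (B / (B + 1)) := by field_simp
      _ ≤ ε / 3 * 1 := by
          gcongr
          exact (div_le_one (by positivity)).2 (by linarith)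
      _ = ε / 3 := mul_one _
  have n6 := (abs_le.1 n5).1
  linarith only [n2, n4, n6]

/-- **The local upper bound for linear statistics.** -/
theorem lin_local_upper (S : Setup U g a h φ) (L : JetLim U h a φ u) {K : Set ℂ}
    (hK : IsCompact K) {δ : ℝ} (hδ : 0 < δ) (hδU : Metric.cthickening (2 * δ) K ⊆ U) {κ : ℤ}
    (hκ : κ ≠ 0) (c : Fin r → ℝ) (x : Fin r → ℂ) (ξ : Fin r → ℕ → ℝ → ℂ → ℂ)
    (hξ : ∀ i, Disp h a K κ (x i) (ξ i)) {ρ : ℂ → ℝ} (hρs : ContDiff ℝ ∞ ρ)
    (hρc : HasCompactSupport ρ) (hρK : tsupport ρ ⊆ K) (hρ0 : ∀ z, 0 ≤ ρ z)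
    (hb : ∀ k, ∀ᵐ z ∂((volume : Measure ℂ).restrict U), ‖u k z‖ ≤ ‖u 0 z‖) {ε : ℝ}
    (hε : 0 < ε) :
    ∀ᶠ n in atTop, (∑ q : Fin 4 → Fin r, (∏ j, (c (q j) : ℂ))
        * rotP h a φ (fun z => (ρ z : ℂ)) ξ q n).re
      ≤ statFour c x * (∫ z, ρ z * (φ n z).re ^ 4) + ε := by
  have hKU : K ⊆ U := (Metric.self_subset_cthickening K).trans hδU
  have hρU : tsupport ρ ⊆ U := hρK.trans hKU
  have hT : Test U (fun z => (ρ z : ℂ)) := by
    refine ⟨ofRealCLM.contDiff.comp hρs, ?_, ?_⟩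
    · unfold HasCompactSupport
      rw [Test.tsupport_eq]
      exact hρc
    · rw [Test.tsupport_eq]; exact hρU
  obtain ⟨B, hB0, hB⟩ := S.fourth_bdd hT
  obtain ⟨N₀, hN₀⟩ := S.rot_jets hK hδ hδU hκ c x ξ hξ hT
    (by rw [Test.tsupport_eq]; exact hρK) (show 0 < ε / 3 by positivity)
  have h1 : Tendsto (fun N : ℕ => (∑ s ∈ Finset.Icc (-(2 * N : ℤ)) (2 * N),
      cS (Finset.Icc (-(N : ℤ)) N) (tN c x N) s
        * cS (Finset.Icc (-(N : ℤ)) N) (tN c x N) (-s)).re) atTop (𝓝 (statFour c x)) := by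
    have := (Complex.continuous_re.tendsto _).comp (tendsto_cSS c x)
    rwa [ofReal_re] at this
  have h2 := (Metric.tendsto_nhds.1 h1) (ε / (3 * (B + 1))) (by positivity)
  obtain ⟨N, hN1, hN2⟩ := ((eventually_ge_atTop N₀).and h2).exists
  have h3 := lin_jets_upper S L hρs hρc hρU hρ0 hb N (tN_conj c x N)
    (show 0 < ε / 3 by positivity)
  filter_upwards [hN₀ N hN1, h3, hB] with n n1 n2 n3
  have n4 := (abs_le.1 ((Complex.abs_re_le_norm _).trans n1)).2
  rw [Complex.sub_re] at n4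
  rw [Real.dist_eq] at hN2
  have n5 : |((∑ s ∈ Finset.Icc (-(2 * N : ℤ)) (2 * N),
      cS (Finset.Icc (-(N : ℤ)) N) (tN c x N) s
        * cS (Finset.Icc (-(N : ℤ)) N) (tN c x N) (-s)).re - statFour c x)
      * ∫ z, ρ z * (φ n z).re ^ 4| ≤ ε / 3 := by
    rw [abs_mul]
    calc _ ≤ ε / (3 * (B + 1)) * B := mul_le_mul hN2.le n3 (abs_nonneg _) (by positivity)
      _ = ε / 3 * (B / (B + 1)) := by field_simp
      _ ≤ ε / 3 * 1 := by
          gcongr
          exact (div_le_one (by positivity)).2 (by linarith only [])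
      _ = ε / 3 := mul_one _
  have n6 := (abs_le.1 n5).2
  linarith only [n2, n4, n6]

end Setup

end

end QE


end

section

/-!
From local inequalities to inequalities for averages over closed surfaces (helper70).
-/

open MeasureTheory Filter Topology Set MatrixGroups UpperHalfPlane
open scoped ContDiff

namespace QE

noncomputable section

variable {Γ : Subgroup SL(2, ℝ)} {ρ : ℍ → ℝ} {D : Set ℍ}

/-- **From local lower bounds to lower bounds for averages.** -/
theorem global_ge [Countable Γ] (hg : Berry.Geo Γ ρ D) (hρ : Continuous ρ)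
    (hK : ∃ K : Set ℍ, IsCompact K ∧ ∀ z, ∃ γ ∈ Γ, γ • z ∈ K) {w : ℍ → ℝ} (hw : Continuous w)
    (hw0 : ∀ z, 0 ≤ w z) (hwi : ∀ γ ∈ Γ, ∀ z, w (γ • z) = w z) {F : ℕ → ℍ → ℝ}
    (hF : ∀ᶠ n in atTop, Continuous (F n)) (hinv : ∀ n, ∀ γ ∈ Γ, ∀ z, F n (γ • z) = F n z)
    (hbd : ∀ K : Set ℂ, IsCompact K → K ⊆ HH → ∃ C : ℝ, ∀ᶠ n in atTop,
      ∫ z in K, |F n (ofComplex z)| ≤ C)
    (hloc : ∀ ψ : ℂ → ℝ, ContDiff ℝ ∞ ψ → HasCompactSupport ψ → tsupport ψ ⊆ HH →
      (∀ z, 0 ≤ ψ z) → ∀ ε > 0, ∀ᶠ n in atTop, -ε ≤ ∫ z, ψ z * F n (ofComplex z)) {ε : ℝ}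
    (hε : 0 < ε) : ∀ᶠ n in atTop, -ε ≤ Berry.rAvg ρ D (fun z => w z * F n z) := by
  obtain ⟨ξ, hξc, hξs, hξU, hξ0, -, h5⟩ := exists_test' (K' := ∅) hg.dom hg.meas hK hρ hg.inv
    isCompact_empty (empty_subset _)
  set ζ : ℂ → ℝ := fun z => ξ z * w (ofComplex z) with hζdef
  have hζc : Continuous ζ := Surf.continuous_cut_mul hξc hξU hw
  have hζs : HasCompactSupport ζ := hξs.mul_right
  have hζU : tsupport ζ ⊆ HH := (closure_mono (Function.support_mul_subset_left _ _)).trans hξU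
  have hζ0 : ∀ z, 0 ≤ ζ z := fun z => mul_nonneg (hξ0 z) (hw0 _)
  have hKc : IsCompact (tsupport ζ) := hζs
  obtain ⟨C, hC⟩ := hbd _ hKc hζU
  set A := (Berry.area ρ D).toReal with hA
  have hA0 : 0 < A := ENNReal.toReal_pos (Berry.area_ne_zero hg) (Berry.area_ne_top hg)
  have hlim : ∀ ε > 0, ∀ᶠ n in atTop, -ε ≤ ∫ w, ζ w * F n (ofComplex w) := by
    intro ε hε
    set δ : ℝ := ε / (12 * (|C| + 1)) with hδ
    have hδ0 : 0 < δ := by (clear * - hε; positivity)
    obtain ⟨ψ, hψ, hψ1, hψ2⟩ := exists_smooth_between hζc hδ0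
    have hψ0 : ∀ z, 0 ≤ ψ z := fun z => (le_max_right _ _).trans (hψ1 z)
    have hsupp : Function.support ψ ⊆ Function.support ζ := by
      intro z hz hz0
      apply hz
      have h1 := hψ2 z
      rw [hz0, max_eq_right (by linarith)] at h1
      exact le_antisymm h1 (hψ0 z)
    have hts : tsupport ψ ⊆ tsupport ζ := closure_mono hsupp
    have hψs : HasCompactSupport ψ := hKc.of_isClosed_subset (isClosed_tsupport _) hts
    have hclose : ∀ z, |ζ z - ψ z| ≤ 3 * δ := by
      intro z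
      have h1 := hψ1 z
      have h2 := hψ2 z
      have h3 := hζ0 z
      have h4 := le_max_left (ζ z - 3 * δ) 0
      have h5 : max (ζ z - δ) 0 ≤ ζ z := max_le (by linarith) h3
      rw [abs_le]
      constructor <;> linarith
    have hl := hloc ψ hψ hψs (hts.trans hζU) hψ0 (ε / 2) (by positivity)
    filter_upwards [hC, hF, hl] with n h1 h2 h3
    have iζ : Integrable (fun w => ζ w * F n (ofComplex w)) :=
      (Surf.continuous_cut_mul hζc hζU h2).integrable_of_hasCompactSupport hζs.mul_right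
    have iψ : Integrable (fun w => ψ w * F n (ofComplex w)) :=
      (Surf.continuous_cut_mul hψ.continuous (hts.trans hζU) h2).integrable_of_hasCompactSupport
        hψs.mul_right
    have hFc : ContinuousOn (fun z : ℂ => F n (ofComplex z)) HH := by
      intro z hz
      exact (h2.continuousAt.comp (contMDiffAt_ofComplex (n := 0) hz).continuousAt).continuousWithinAt
    have hdiff : |(∫ w, ζ w * F n (ofComplex w)) - ∫ w, ψ w * F n (ofComplex w)| ≤ 3 * δ * |C| := by
      rw [← integral_sub iζ iψ]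
      have e1 : ∫ w, (ζ w * F n (ofComplex w) - ψ w * F n (ofComplex w))
          = ∫ w in tsupport ζ, (ζ w - ψ w) * F n (ofComplex w) := by
        rw [setIntegral_eq_integral_of_forall_compl_eq_zero]
        · congr 1; funext w; ring
        · intro z hz
          rw [image_eq_zero_of_notMem_tsupport hz,
            image_eq_zero_of_notMem_tsupport (fun hz' => hz (hts hz')), sub_zero, zero_mul]
      rw [e1, ← Real.norm_eq_abs]
      calc ‖∫ w in tsupport ζ, (ζ w - ψ w) * F n (ofComplex w)‖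
          ≤ ∫ w in tsupport ζ, 3 * δ * |F n (ofComplex w)| := by
            refine norm_integral_le_of_norm_le ?_ (Eventually.of_forall fun w => ?_)
            · exact ((hFc.mono hζU).abs.integrableOn_compact hKc).const_mul _
            · rw [norm_mul, Real.norm_eq_abs, Real.norm_eq_abs]
              exact mul_le_mul_of_nonneg_right (hclose w) (abs_nonneg _)
        _ ≤ 3 * δ * |C| := by
            rw [integral_const_mul]
            have := h1.trans (le_abs_self C)
            gcongr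
    have h6 : 3 * δ * |C| ≤ ε / 4 := by
      have h7 : 0 ≤ |C| := abs_nonneg C
      calc 3 * δ * |C| ≤ 3 * δ * (|C| + 1) := by gcongr; linarith
        _ = ε / 4 := by rw [hδ]; field_simp; norm_num
    have h8 := (abs_le.1 hdiff).1
    linarith only [hε, h3, h6, h8]
  filter_upwards [hF, hlim (A * ε) (by positivity)] with n hn h9
  rw [rAvg_eq hg hK hξc hξs hξU h5 (f := fun z => w z * F n z) (hw.mul hn)
    (fun γ hγ z => by rw [hwi γ hγ, hinv n γ hγ]), ← hA]
  have e : ∫ z, ξ z * (w (ofComplex z) * F n (ofComplex z)) = ∫ z, ζ z * F n (ofComplex z) := by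
    congr 1; funext z; rw [hζdef]; ring
  rw [e]
  calc -ε = A⁻¹ * (-(A * ε)) := by field_simp
    _ ≤ A⁻¹ * ∫ w, ζ w * F n (ofComplex w) := by gcongr

namespace WS

variable {φ : ℕ → ℍ → ℝ} {m h : ℕ → ℝ} {g' : ℂ → ℂ} {k r : ℕ}

/-- the rotation averages of the displaced products are the integrals of the products of the local
waves -/
lemma ang_eq (W : WS Γ ρ D φ m h g') (x : Fin k → ℂ) {ψ : ℂ → ℝ} (hψ : ContDiff ℝ ∞ ψ)
    (hψs : HasCompactSupport ψ) (hψU : tsupport ψ ⊆ HH) :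
    ∀ᶠ n in atTop, ∫ θ, (∫ z, (ψ z : ℂ) * ∏ i, (φ n (ofComplex (z + h n * wt (gw ρ) z
        * frXi h (em ρ) (x i) n θ z)) : ℂ)) ∂ang
      = ((∫ z, ψ z * angProd ρ (φ n) (m n) x (ofComplex z) : ℝ) : ℂ) := by
  set K := tsupport ψ with hKdef
  have hKc : IsCompact K := hψs
  filter_upwards [W.val x hψU, W.jc x hψU] with n n1 n2
  have hset : ∀ f : ℂ → ℝ, ∫ z, ψ z * f z = ∫ z in K, ψ z * f z := by
    intro f
    rw [setIntegral_eq_integral_of_forall_compl_eq_zero]
    intro z hz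
    rw [image_eq_zero_of_notMem_tsupport hz, zero_mul]
  have cψ : ContinuousOn (fun p : ℝ × ℂ => ψ p.2) (univ ×ˢ K) :=
    (hψ.continuous.comp continuous_snd).continuousOn
  have cH : ContinuousOn (fun p : ℝ × ℂ => ψ p.2 * ∏ i, Berry.rWave ρ (φ n) (m n) (x i)
      (ofComplex p.2, p.1)) (univ ×ˢ K) :=
    cψ.mul (continuousOn_finsetProd _ fun i _ => n2 i)
  have iH := real_int_ang hKc cH
  have e1 : ∀ θ : ℝ, ∫ z, (ψ z : ℂ) * ∏ i, (φ n (ofComplex (z + h n * wt (gw ρ) z
      * frXi h (em ρ) (x i) n θ z)) : ℂ)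
      = ((∫ z in K, ψ z * ∏ i, Berry.rWave ρ (φ n) (m n) (x i) (ofComplex z, θ) : ℝ) : ℂ) := by
    intro θ
    rw [← hset]
    refine Eq.trans ?_ (integral_ofReal (𝕜 := ℂ) (μ := volume) (f := fun z : ℂ => ψ z
      * ∏ i, Berry.rWave ρ (φ n) (m n) (x i) (ofComplex z, θ)))
    refine integral_congr_ae (Eventually.of_forall fun z => ?_)
    change _ = ((ψ z * ∏ i, Berry.rWave ρ (φ n) (m n) (x i) (ofComplex z, θ) : ℝ) : ℂ)
    beta_reduce
    by_cases hz : z ∈ K
    · rw [Complex.ofReal_mul, Complex.ofReal_prod]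
      congr 1
      refine Finset.prod_congr rfl fun i _ => ?_
      rw [n1 i θ z hz]
    · rw [image_eq_zero_of_notMem_tsupport hz]; simp
  simp only [e1]
  refine (integral_ofReal (𝕜 := ℂ) (μ := ang) (f := fun θ : ℝ => ∫ z in K, ψ z
    * ∏ i, Berry.rWave ρ (φ n) (m n) (x i) (ofComplex z, θ))).trans ?_
  rw [integral_integral_swap iH, hset]
  congr 1
  refine integral_congr_ae (Eventually.of_forall fun z => ?_)
  unfold angProd
  beta_reduce
  rw [integral_const_mul]

/-- the mean over the angle of the fourth power of the statistic, minus a multiple of the fourth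
power of the wave -/
def statF (ρ : ℍ → ℝ) (φ : ℕ → ℍ → ℝ) (m : ℕ → ℝ) (σ β : ℝ) (c : Fin r → ℝ) (x : Fin r → ℂ)
    (n : ℕ) (z : ℍ) : ℝ :=
  σ * ((∑ q : Fin 4 → Fin r, (∏ j, c (q j)) * angProd ρ (φ n) (m n) (fun j => x (q j)) z)
    - β * φ n z ^ 4)

lemma statF_cont (W : WS Γ ρ D φ m h g') (σ β : ℝ) (c : Fin r → ℝ) (x : Fin r → ℂ) :
    ∀ᶠ n in atTop, Continuous (statF ρ φ m σ β c x n) := by
  have h1 : ∀ᶠ n in atTop, ∀ q : Fin 4 → Fin r,
      Continuous (angProd ρ (φ n) (m n) (fun j => x (q j))) :=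
    eventually_all.2 fun q => W.ac _
  filter_upwards [h1] with n hn
  exact continuous_const.mul ((continuous_finsetSum _ fun q _ => continuous_const.mul (hn q)).sub
    (continuous_const.mul ((W.pc n).pow 4)))

lemma prod_four_le (a : Fin 4 → ℝ) : |∏ i, a i| ≤ 1 + ∑ i, a i ^ 4 := by
  rw [Fin.prod_univ_four, Fin.sum_univ_four]
  have h1 : |a 0 * a 1 * a 2 * a 3| ≤ a 0 ^ 4 + a 1 ^ 4 + a 2 ^ 4 + a 3 ^ 4 := by
    rw [abs_le]
    constructor <;>
    nlinarith [sq_nonneg (a 0 * a 1 + a 2 * a 3), sq_nonneg (a 0 * a 1 - a 2 * a 3),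
      sq_nonneg (a 0 ^ 2 - a 1 ^ 2), sq_nonneg (a 2 ^ 2 - a 3 ^ 2), sq_nonneg (a 0 ^ 2 + a 1 ^ 2),
      sq_nonneg (a 0 ^ 2), sq_nonneg (a 1 ^ 2), sq_nonneg (a 2 ^ 2), sq_nonneg (a 3 ^ 2)]
  linarith

lemma statF_bdd (W : WS Γ ρ D φ m h g') (σ β : ℝ) (c : Fin r → ℝ) (x : Fin r → ℂ) {K : Set ℂ}
    (hKc : IsCompact K) (hKU : K ⊆ HH) : ∃ C : ℝ, ∀ᶠ n in atTop,
      ∫ z in K, |statF ρ φ m σ β c x n (ofComplex z)| ≤ C := by
  have h1 : ∀ q : Fin 4 → Fin r, ∃ C : ℝ, ∀ᶠ n in atTop,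
      ∫ z in K, |angProd ρ (φ n) (m n) (fun j => x (q j)) (ofComplex z)| ≤ C := fun q =>
    W.angProd_bdd _ prod_four_le hKc hKU
  choose C hC using h1
  obtain ⟨M, hM⟩ := W.bdd4 hKc hKU
  refine ⟨|σ| * ((∑ q : Fin 4 → Fin r, |∏ j, c (q j)| * C q) + |β| * M), ?_⟩
  have h2 : ∀ᶠ n in atTop, ∀ q : Fin 4 → Fin r,
      Continuous (angProd ρ (φ n) (m n) (fun j => x (q j))) :=
    eventually_all.2 fun q => W.ac _
  filter_upwards [eventually_all.2 hC, hM, h2] with n n1 n2 n3
  have cφ : ContinuousOn (fun z : ℂ => φ n (ofComplex z)) HH := cont_ofComplex (W.pc n)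
  have iA : ∀ q : Fin 4 → Fin r, IntegrableOn
      (fun z => |∏ j, c (q j)| * |angProd ρ (φ n) (m n) (fun j => x (q j)) (ofComplex z)|) K :=
    fun q => (((cont_ofComplex (n3 q)).mono hKU).abs.integrableOn_compact hKc).const_mul _
  have i4 : IntegrableOn (fun z : ℂ => |β| * φ n (ofComplex z) ^ 4) K :=
    (continuousOn_const.mul ((cφ.mono hKU).pow 4)).integrableOn_compact hKc
  have iS : IntegrableOn (fun z => ∑ q : Fin 4 → Fin r,
      |∏ j, c (q j)| * |angProd ρ (φ n) (m n) (fun j => x (q j)) (ofComplex z)|) K :=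
    integrable_finsetSum _ fun q _ => iA q
  calc ∫ z in K, |statF ρ φ m σ β c x n (ofComplex z)|
      ≤ ∫ z in K, |σ| * ((∑ q : Fin 4 → Fin r,
        |∏ j, c (q j)| * |angProd ρ (φ n) (m n) (fun j => x (q j)) (ofComplex z)|)
        + |β| * φ n (ofComplex z) ^ 4) := by
        refine integral_mono_of_nonneg (Eventually.of_forall fun z => abs_nonneg _)
          ((iS.add i4).const_mul _) (Eventually.of_forall fun z => ?_)
        beta_reduce
        unfold statF
        rw [abs_mul]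
        refine mul_le_mul_of_nonneg_left ?_ (abs_nonneg _)
        refine (abs_sub _ _).trans (add_le_add ?_ ?_)
        · refine (Finset.abs_sum_le_sum_abs _ _).trans (le_of_eq ?_)
          exact Finset.sum_congr rfl fun q _ => abs_mul _ _
        · rw [abs_mul, abs_of_nonneg (by positivity : 0 ≤ φ n (ofComplex z) ^ 4)]
    _ = |σ| * ((∑ q : Fin 4 → Fin r, |∏ j, c (q j)|
          * ∫ z in K, |angProd ρ (φ n) (m n) (fun j => x (q j)) (ofComplex z)|)
          + |β| * ∫ z in K, φ n (ofComplex z) ^ 4) := by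
        rw [integral_const_mul, integral_add iS i4, integral_const_mul,
          integral_finsetSum _ fun q _ => iA q]
        congr 2
        exact Finset.sum_congr rfl fun q _ => integral_const_mul _ _
    _ ≤ _ := by
        refine mul_le_mul_of_nonneg_left (add_le_add (Finset.sum_le_sum fun q _ => ?_) ?_)
          (abs_nonneg _)
        · exact mul_le_mul_of_nonneg_left (n1 q) (abs_nonneg _)
        · exact mul_le_mul_of_nonneg_left n2 (abs_nonneg _)

/-- **Inequalities for the fourth moments of linear statistics** from the local inequalities -/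
theorem stat_ge [Countable Γ] (W : WS Γ ρ D φ m h g') {w : ℍ → ℝ} (hw : Continuous w)
    (hw0 : ∀ z, 0 ≤ w z) (hwi : ∀ γ ∈ Γ, ∀ z, w (γ • z) = w z) (σ β : ℝ) (c : Fin r → ℝ)
    (x : Fin r → ℂ)
    (hloc : ∀ ψ : ℂ → ℝ, ContDiff ℝ ∞ ψ → HasCompactSupport ψ → tsupport ψ ⊆ HH →
      (∀ z, 0 ≤ ψ z) → ∀ ε > 0, ∀ᶠ n in atTop, -ε ≤ σ * ((∑ q : Fin 4 → Fin r, (∏ j, c (q j))
        * ∫ z, ψ z * angProd ρ (φ n) (m n) (fun j => x (q j)) (ofComplex z))
        - β * ∫ z, ψ z * φ n (ofComplex z) ^ 4)) {ε : ℝ} (hε : 0 < ε) :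
    ∀ᶠ n in atTop, -ε ≤ σ * ((∫ p, w p.1 * (∑ i, c i * Berry.rWave ρ (φ n) (m n) (x i) p) ^ 4
      ∂(Berry.rFrameProb ρ D)) - β * Berry.rAvg ρ D fun z => w z * φ n z ^ 4) := by
  have main := global_ge (F := statF ρ φ m σ β c x) W.geo W.rc W.coc hw hw0 hwi
    (W.statF_cont σ β c x)
    (fun n γ hγ z => by
      unfold statF
      rw [W.pinv n γ hγ z]
      refine congrArg (fun t => σ * (t - β * φ n z ^ 4)) ?_
      refine Finset.sum_congr rfl fun q _ => ?_
      rw [angProd_inv (W.pinv n) W.geo.inv (m n) _ γ hγ z])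
    (fun K hKc hKU => W.statF_bdd σ β c x hKc hKU)
    (fun ψ hψ hψs hψU hψ0 ε hε => by
      have h2 : ∀ᶠ n in atTop, ∀ q : Fin 4 → Fin r,
          Continuous (angProd ρ (φ n) (m n) (fun j => x (q j))) :=
        eventually_all.2 fun q => W.ac _
      filter_upwards [hloc ψ hψ hψs hψU hψ0 ε hε, h2] with n n1 n2
      have j1 : ∀ q : Fin 4 → Fin r, Integrable (fun z => (∏ j, c (q j))
          * (ψ z * angProd ρ (φ n) (m n) (fun j => x (q j)) (ofComplex z))) := fun q =>
        ((Surf.continuous_cut_mul hψ.continuous hψU (n2 q)).integrable_of_hasCompactSupport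
          hψs.mul_right).const_mul _
      have j3 : Integrable (fun z => β * (ψ z * φ n (ofComplex z) ^ 4)) :=
        ((Surf.continuous_cut_mul hψ.continuous hψU
          ((W.pc n).pow 4)).integrable_of_hasCompactSupport hψs.mul_right).const_mul _
      have e : ∫ z, ψ z * statF ρ φ m σ β c x n (ofComplex z)
          = σ * ((∑ q : Fin 4 → Fin r, (∏ j, c (q j))
            * ∫ z, ψ z * angProd ρ (φ n) (m n) (fun j => x (q j)) (ofComplex z))
            - β * ∫ z, ψ z * φ n (ofComplex z) ^ 4) := by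
        have e1 : ∀ z, ψ z * statF ρ φ m σ β c x n (ofComplex z)
            = σ * ((∑ q : Fin 4 → Fin r, (∏ j, c (q j))
              * (ψ z * angProd ρ (φ n) (m n) (fun j => x (q j)) (ofComplex z)))
              - β * (ψ z * φ n (ofComplex z) ^ 4)) := by
          intro z
          unfold statF
          have e2 : ∑ q : Fin 4 → Fin r, (∏ j, c (q j))
              * (ψ z * angProd ρ (φ n) (m n) (fun j => x (q j)) (ofComplex z))
              = ψ z * ∑ q : Fin 4 → Fin r, (∏ j, c (q j))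
              * angProd ρ (φ n) (m n) (fun j => x (q j)) (ofComplex z) := by
            rw [Finset.mul_sum]
            exact Finset.sum_congr rfl fun q _ => by ring
          rw [e2]; ring
        simp only [e1]
        rw [integral_const_mul, integral_sub (integrable_finsetSum _ fun q _ => j1 q) j3,
          integral_const_mul, integral_finsetSum _ fun q _ => j1 q]
        congr 2
        exact Finset.sum_congr rfl fun q _ => integral_const_mul _ _
      rw [e]
      exact n1) hε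
  have h2 : ∀ᶠ n in atTop, ∀ q : Fin 4 → Fin r,
      Continuous (angProd ρ (φ n) (m n) (fun j => x (q j))) :=
    eventually_all.2 fun q => W.ac _
  filter_upwards [main, W.wc x, h2] with n n0 hn1 hn2
  have hcond : IsProbabilityMeasure (ProbabilityTheory.cond (Berry.area ρ) D) :=
    ProbabilityTheory.cond_isProbabilityMeasure_of_finite (Berry.area_ne_zero W.geo)
      (Berry.area_ne_top W.geo)
  obtain ⟨C₂, hC₂⟩ := Berry.bdd_of_cocompact (W.pc n) (W.pinv n) W.coc
  obtain ⟨Cw, hCw⟩ := Berry.bdd_of_cocompact hw hwi W.coc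
  have i1 : ∀ q : Fin 4 → Fin r, Integrable (fun z => (∏ j, c (q j))
      * (w z * angProd ρ (φ n) (m n) (fun j => x (q j)) z))
      (ProbabilityTheory.cond (Berry.area ρ) D) := by
    intro q
    obtain ⟨C₁, hC₁⟩ := Berry.bdd_of_cocompact (hw.mul (hn2 q))
      (fun γ hγ z => by
        show w (γ • z) * angProd ρ (φ n) (m n) _ (γ • z) = w z * angProd ρ (φ n) (m n) _ z
        rw [hwi γ hγ, angProd_inv (W.pinv n) W.geo.inv (m n) _ γ hγ z]) W.coc
    refine Integrable.const_mul ?_ _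
    exact Integrable.of_bound (hw.mul (hn2 q)).aestronglyMeasurable C₁
      (Eventually.of_forall fun z => by rw [Real.norm_eq_abs]; exact hC₁ z)
  have i2' : Integrable (fun z => w z * φ n z ^ 4) (ProbabilityTheory.cond (Berry.area ρ) D) := by
    obtain ⟨C₃, hC₃⟩ := Berry.bdd_of_cocompact (f := fun z => w z * φ n z ^ 4)
      (hw.mul ((W.pc n).pow 4)) (fun γ hγ z => by rw [hwi γ hγ, W.pinv n γ hγ]) W.coc
    exact Integrable.of_bound (hw.mul ((W.pc n).pow 4)).aestronglyMeasurable C₃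
      (Eventually.of_forall fun z => by rw [Real.norm_eq_abs]; exact hC₃ z)
  have i2 : Integrable (fun z => β * (w z * φ n z ^ 4))
      (ProbabilityTheory.cond (Berry.area ρ) D) := i2'.const_mul _
  have i3' : ∀ q : Fin 4 → Fin r, Integrable
      (fun p : ℍ × ℝ => w p.1 * ∏ j, Berry.rWave ρ (φ n) (m n) (x (q j)) p)
      ((ProbabilityTheory.cond (Berry.area ρ) D).prod ang) := by
    intro q
    refine Integrable.of_bound ((hw.comp continuous_fst).mul (continuous_finsetProd _ fun i _ =>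
      hn1 (q i))).aestronglyMeasurable (Cw * ∏ _i : Fin 4, |C₂|)
      (Eventually.of_forall fun p => ?_)
    rw [norm_mul, norm_prod]
    have h1 : ‖w p.1‖ ≤ Cw := by rw [Real.norm_eq_abs]; exact hCw _
    refine mul_le_mul h1 ?_ (by positivity) ((norm_nonneg _).trans h1)
    refine Finset.prod_le_prod (fun _ _ => norm_nonneg _) fun i _ => ?_
    rw [Real.norm_eq_abs]
    exact (hC₂ _).trans (le_abs_self _)
  have i3 : ∀ q : Fin 4 → Fin r, Integrable (fun p : ℍ × ℝ => (∏ j, c (q j))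
      * (w p.1 * ∏ j, Berry.rWave ρ (φ n) (m n) (x (q j)) p))
      ((ProbabilityTheory.cond (Berry.area ρ) D).prod ang) := fun q => (i3' q).const_mul _
  have e1 : ∫ p, w p.1 * (∑ i, c i * Berry.rWave ρ (φ n) (m n) (x i) p) ^ 4
        ∂(Berry.rFrameProb ρ D)
      = ∑ q : Fin 4 → Fin r, (∏ j, c (q j))
        * ∫ z, w z * angProd ρ (φ n) (m n) (fun j => x (q j)) z
          ∂(ProbabilityTheory.cond (Berry.area ρ) D) := by
    have e2 : ∀ p : ℍ × ℝ, w p.1 * (∑ i, c i * Berry.rWave ρ (φ n) (m n) (x i) p) ^ 4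
        = ∑ q : Fin 4 → Fin r, (∏ j, c (q j))
          * (w p.1 * ∏ j, Berry.rWave ρ (φ n) (m n) (x (q j)) p) := by
      intro p
      rw [Fintype.sum_pow, Finset.mul_sum]
      refine Finset.sum_congr rfl fun q _ => ?_
      rw [Finset.prod_mul_distrib]; ring
    simp only [e2]
    unfold Berry.rFrameProb
    rw [integral_finsetSum _ fun q _ => i3 q]
    refine Finset.sum_congr rfl fun q _ => ?_
    rw [integral_const_mul]
    congr 1
    rw [integral_prod _ (i3' q)]
    refine integral_congr_ae (Eventually.of_forall fun z => ?_)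
    unfold angProd
    beta_reduce
    rw [← integral_const_mul]
  have e3 : Berry.rAvg ρ D (fun z => w z * statF ρ φ m σ β c x n z)
      = σ * ((∫ p, w p.1 * (∑ i, c i * Berry.rWave ρ (φ n) (m n) (x i) p) ^ 4
      ∂(Berry.rFrameProb ρ D)) - β * Berry.rAvg ρ D fun z => w z * φ n z ^ 4) := by
    rw [e1]
    have e4 : ∀ z, w z * statF ρ φ m σ β c x n z = σ * ((∑ q : Fin 4 → Fin r, (∏ j, c (q j))
        * (w z * angProd ρ (φ n) (m n) (fun j => x (q j)) z)) - β * (w z * φ n z ^ 4)) := by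
      intro z
      unfold statF
      have e5 : ∑ q : Fin 4 → Fin r, (∏ j, c (q j))
          * (w z * angProd ρ (φ n) (m n) (fun j => x (q j)) z)
          = w z * ∑ q : Fin 4 → Fin r, (∏ j, c (q j))
          * angProd ρ (φ n) (m n) (fun j => x (q j)) z := by
        rw [Finset.mul_sum]
        exact Finset.sum_congr rfl fun q _ => by ring
      rw [e5]; ring
    simp only [e4]
    unfold Berry.rAvg
    rw [integral_const_mul, integral_sub (integrable_finsetSum _ fun q _ => i1 q) i2,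
      integral_const_mul, integral_finsetSum _ fun q _ => i1 q]
    congr 2
    exact Finset.sum_congr rfl fun q _ => integral_const_mul _ _
  rw [← e3]
  exact n0

end WS

end

end QE


end

section

/-!
The fourth moments of linear statistics of the local waves along sequences of eigenfunctions with
microlocal limits on compact hyperbolic surfaces (helper70).
-/

open UpperHalfPlane MeasureTheory MatrixGroups Filter Topology Set Berry
open scoped ENNReal ContDiff

namespace QE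

noncomputable section

/-- a sequence of eigenfunctions with microlocal limits -/
structure LimSeq (Γ : Subgroup SL(2, ℝ)) (φ : ℕ → ℍ → ℝ) (m : ℕ → ℝ) (u : ℤ → ℂ → ℂ) : Prop where
  set : Setup UH gH aH (fun n => 1 / m n) (fun n z => (φ n (ofComplex z) : ℂ))
  cont : ∀ n, Continuous (φ n)
  inv : ∀ n, ∀ γ ∈ Γ, ∀ z, φ n (γ • z) = φ n z
  one : ∀ n, 1 ≤ m n
  tend : Tendsto m atTop atTop
  loc : ∀ k, LocL2 UH (u k)
  lim : JLim UH (fun n => 1 / m n) aH (fun n z => (φ n (ofComplex z) : ℂ)) u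
  bnd : ∀ k, ∀ᵐ z ∂((volume : Measure ℂ).restrict UH), ‖u k z‖ ≤ ‖u 0 z‖
  fej : ∀ ζ : ℂ → ℝ, Continuous ζ → HasCompactSupport ζ → tsupport ζ ⊆ UH → (∀ z, 0 ≤ ζ z) →
    Tendsto (fun N : ℕ => (1 / (N : ℝ)) * ∑ k ∈ Finset.Ioo (-(N : ℤ)) N,
      ∫ z, ζ z * ‖u k z‖ ^ 2) atTop (𝓝 0)

variable {Γ : Subgroup SL(2, ℝ)} {D : Set ℍ}

/-- **Sequences with bounded fourth moments have subsequences with microlocal limits.** -/
theorem exists_limSeq [Countable Γ]
    (hDm : MeasurableSet D) (hD : IsFundamentalDomain Γ D (volume : Measure ℍ))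
    (hK : ∃ K : Set ℍ, IsCompact K ∧ ∀ z, ∃ γ ∈ Γ, γ • z ∈ K) {φ : ℕ → ℍ → ℝ} {m : ℕ → ℝ}
    (hφ : EigenSeq Γ φ m)
    (hs : ∀ n, ContDiffOn ℝ ∞ (fun w : ℂ => φ n (ofComplex w)) {w | 0 < w.im}) {C : ℝ}
    (hC : ∀ n, surfAvg D (fun z => φ n z ^ 4) ≤ C) :
    ∃ s : ℕ → ℕ, StrictMono s ∧ ∃ u, LimSeq Γ (fun n => φ (s n)) (fun n => m (s n)) u := by
  letI : MeasurableSpace SL(2, ℝ) := borel _
  haveI : BorelSpace SL(2, ℝ) := ⟨rfl⟩
  obtain ⟨N, hN⟩ := (hφ.tendsto.eventually_ge_atTop 1).exists_forall_of_atTop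
  have hshift : Tendsto (fun n : ℕ => n + N) atTop atTop := tendsto_add_atTop_nat N
  have hc : ∀ n, Continuous (φ n) := fun n => continuous_of_smooth (hs n)
  have S := setup_of_eigen (eigenSeq_comp hφ hshift) (fun n => hs _)
    (fun n => hN _ (Nat.le_add_left _ _))
    (bdd4_of_avg hD hK (fun n => hc (n + N)) (fun n => hφ.invariant _) (fun n => hC _))
  obtain ⟨s, hsm, u, hum, hu, hw⟩ := exists_limits S
  -- the subsequence
  set φ' : ℕ → ℍ → ℝ := fun n => φ (s n + N) with hφ'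
  have hφs := eigenSeq_comp (eigenSeq_comp hφ hshift) hsm.tendsto_atTop
  have S' := setup_of_eigen (φ := φ') (m := fun n => m (s n + N)) hφs (fun n => hs _)
    (fun n => hN _ (Nat.le_add_left _ _))
    (bdd4_of_avg hD hK (fun n => hc (s n + N)) (fun n => hφ.invariant _) (fun n => hC _))
  have hw' : JLim UH (fun n => 1 / m (s n + N)) aH (fun n z => (φ' n (ofComplex z) : ℂ)) u := by
    intro j k
    refine (hw j k).congr fun n z _ => ?_
    rw [← E_sub (fun n => 1 / m (n + N)) aH (fun n z => (φ (n + N) (ofComplex z) : ℂ)) s j n z,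
      ← E_sub (fun n => 1 / m (n + N)) aH (fun n z => (φ (n + N) (ofComplex z) : ℂ)) s k n z]
  have hF : LimFam Γ u := limFam_of_limits S' hum hu hw' (fun γ hγ n z hz => by
    have e : ofComplex (mob γ z) = γ • ofComplex z := by
      unfold mob
      rw [ofComplex_apply]
    simp only [e, hφ', hφ.invariant _ γ hγ])
  obtain ⟨p, -, -, -, -, -, hN'⟩ := no_dir_atoms hDm hD hK hF
  refine ⟨fun n => s n + N, fun a b hab => Nat.add_lt_add_right (hsm hab) N, u, S',
    fun n => hc _, fun n => hφ.invariant _, fun n => hN _ (Nat.le_add_left _ _),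
    hφ.tendsto.comp (hshift.comp hsm.tendsto_atTop), hu, hw', fun k => ?_, hN'⟩
  filter_upwards [hF.bound k] with z hz
  exact hz.trans ((le_abs_self _).trans (Complex.abs_re_le_norm _))

theorem Setup.congr_a {U : Set ℂ} {g a a' : ℂ → ℂ} {h : ℕ → ℝ} {φ : ℕ → ℂ → ℂ}
    (S : Setup U g a h φ) (ha : ∀ z ∈ U, a' z = a z) : Setup U g a' h φ :=
  ⟨S.op, S.hpos, S.hlim, S.ha.congr ha, S.hg, fun z hz => by rw [ha z hz]; exact S.areal z hz,
    fun z hz => by rw [ha z hz]; exact S.ag z hz, S.tame, S.real, S.eig⟩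

theorem Disp.congr_a {K : Set ℂ} {a a' : ℂ → ℂ} {h : ℕ → ℝ} {q : ℤ} {y : ℂ} {ξ : ℕ → ℝ → ℂ → ℂ}
    (d : Disp h a K q y ξ) (ha : ∀ z ∈ K, a' z = a z) : Disp h a' K q y ξ := by
  refine ⟨d.lim, d.cont, d.lip.mono fun n hn θ z hz w hw => ?_⟩
  rw [ha z hz, ha w hw]
  exact hn θ z hz w hw

theorem wt_zero {z : ℂ} (hz : z ∈ UH) : wt (gw fun _ => 0) z = aH z := by
  have h1 : wt (gw fun _ => 0) z = (z.im : ℂ) * ((Real.exp (-0) : ℝ) : ℂ) :=
    wt_gw (ρ := fun _ => 0) (show 0 < z.im from hz)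
  rw [h1, neg_zero, Real.exp_zero, Complex.ofReal_one, mul_one]
  rfl

/-- the setting of the correlations of the local waves -/
theorem LimSeq.ws [Countable Γ] (hDm : MeasurableSet D)
    (hD : IsFundamentalDomain Γ D (volume : Measure ℍ))
    (hK : ∃ K : Set ℍ, IsCompact K ∧ ∀ z, ∃ γ ∈ Γ, γ • z ∈ K) {φ : ℕ → ℍ → ℝ} {m : ℕ → ℝ}
    {u : ℤ → ℂ → ℂ} (L : LimSeq Γ φ m u) :
    WS Γ (fun _ => 0) D φ m (fun n => 1 / m n) gH where
  geo := ⟨hD, hDm, finite_of_cocompact hD hK, fun _ _ _ => rfl, ⟨0, fun _ => by simp⟩,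
    uniformContinuous_const⟩
  coc := hK
  rc := continuous_const
  pc := L.cont
  pinv := L.inv
  mpos := fun n => by have := L.one n; linarith
  mlim := L.tend
  hm := fun _ => rfl
  set := L.set.congr_a fun z hz => wt_zero hz

theorem area_zero : Berry.area (fun _ => 0) = (volume : Measure ℍ) := by
  unfold Berry.area
  simp

theorem rAvg_zero (f : ℍ → ℝ) : Berry.rAvg (fun _ => 0) D f = surfAvg D f := by
  unfold Berry.rAvg surfAvg
  rw [area_zero]

theorem rFrameProb_zero : Berry.rFrameProb (fun _ => 0) D = frameProb D := by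
  unfold Berry.rFrameProb frameProb
  rw [area_zero]

theorem rWave_zero (φ : ℍ → ℝ) (m : ℝ) (x : ℂ) (p : ℍ × ℝ) :
    Berry.rWave (fun _ => 0) φ m x p = localWave φ m x p := by
  unfold Berry.rWave localWave
  simp

variable {φ : ℕ → ℍ → ℝ} {m : ℕ → ℝ} {u : ℤ → ℂ → ℂ} {r : ℕ}

/-- the rotation averages in the two settings -/
theorem LimSeq.rot_eq [Countable Γ] (hDm : MeasurableSet D)
    (hD : IsFundamentalDomain Γ D (volume : Measure ℍ))
    (hK : ∃ K : Set ℍ, IsCompact K ∧ ∀ z, ∃ γ ∈ Γ, γ • z ∈ K) (L : LimSeq Γ φ m u)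
    (c : Fin r → ℝ) (x : Fin r → ℂ) {ψ : ℂ → ℝ} (hψ : ContDiff ℝ ∞ ψ)
    (hψs : HasCompactSupport ψ) (hψU : tsupport ψ ⊆ HH) :
    ∀ᶠ n in atTop, (∑ q : Fin 4 → Fin r, (∏ j, (c (q j) : ℂ))
        * Setup.rotP (fun n => 1 / m n) aH (fun n z => (φ n (ofComplex z) : ℂ))
          (fun z => (ψ z : ℂ)) (fun i => frXi (fun n => 1 / m n) (em fun _ => 0) (x i)) q n).re
      = ∑ q : Fin 4 → Fin r, (∏ j, c (q j))
        * ∫ z, ψ z * angProd (fun _ => 0) (φ n) (m n) (fun j => x (q j)) (ofComplex z) := by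
  have W := L.ws hDm hD hK
  have h1 : ∀ᶠ n in atTop, ∀ q : Fin 4 → Fin r, _ :=
    eventually_all.2 fun q => W.ang_eq (fun j => x (q j)) hψ hψs hψU
  filter_upwards [h1] with n hn
  rw [Complex.re_sum]
  refine Finset.sum_congr rfl fun q _ => ?_
  have e1 : Setup.rotP (fun n => 1 / m n) aH (fun n z => (φ n (ofComplex z) : ℂ))
          (fun z => (ψ z : ℂ)) (fun i => frXi (fun n => 1 / m n) (em fun _ => 0) (x i)) q n
      = ∫ θ, (∫ z, (ψ z : ℂ) * ∏ i, (φ n (ofComplex (z + ((1 / m n : ℝ) : ℂ) * wt (gw fun _ => 0) z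
        * frXi (fun n => 1 / m n) (em fun _ => 0) (x (q i)) n θ z)) : ℂ)) ∂ang := by
    unfold Setup.rotP
    refine integral_congr_ae (Eventually.of_forall fun θ => ?_)
    refine integral_congr_ae (Eventually.of_forall fun z => ?_)
    beta_reduce
    by_cases hz : z ∈ UH
    · rw [wt_zero hz]
    · have : ψ z = 0 := image_eq_zero_of_notMem_tsupport fun hh => hz (hψU hh)
      rw [this]; simp
  rw [e1, hn q, ← Complex.ofReal_prod, ← Complex.ofReal_mul, Complex.ofReal_re]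

theorem int_re_four {ψ : ℂ → ℝ} (f : ℂ → ℝ) :
    ∫ z, ψ z * ((f z : ℂ)).re ^ 4 = ∫ z, ψ z * f z ^ 4 := by
  simp only [Complex.ofReal_re]

/-- the setting on a compact set -/
theorem exists_thick {K : Set ℂ} (hKc : IsCompact K) (hKU : K ⊆ HH) :
    ∃ δ > 0, Metric.cthickening (2 * δ) K ⊆ HH := by
  obtain ⟨δ, hδ, hδU⟩ := hKc.exists_cthickening_subset_open isOpen_HH hKU
  refine ⟨δ / 2, half_pos hδ, ?_⟩
  rw [mul_div_cancel₀ _ (two_ne_zero)]
  exact hδU

/-- **The lower bound for linear statistics.** -/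
theorem LimSeq.lin_lower [Countable Γ] (hDm : MeasurableSet D)
    (hD : IsFundamentalDomain Γ D (volume : Measure ℍ))
    (hK : ∃ K : Set ℍ, IsCompact K ∧ ∀ z, ∃ γ ∈ Γ, γ • z ∈ K) (L : LimSeq Γ φ m u)
    {w : ℍ → ℝ} (hw : Continuous w) (hw0 : ∀ z, 0 ≤ w z) (hwi : ∀ γ ∈ Γ, ∀ z, w (γ • z) = w z)
    (c : Fin r → ℝ) (x : Fin r → ℂ) {ε : ℝ} (hε : 0 < ε) :
    ∀ᶠ n in atTop, statVar c x ^ 2 * surfAvg D (fun z => w z * φ n z ^ 4) - ε
      ≤ ∫ p, w p.1 * (∑ i, c i * localWave (φ n) (m n) (x i) p) ^ 4 ∂(frameProb D) := by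
  have W := L.ws hDm hD hK
  have key := W.stat_ge hw hw0 hwi 1 (statVar c x ^ 2) c x (fun ψ hψ hψs hψU hψ0 ε hε => by
    obtain ⟨δ, hδ, hδU⟩ := exists_thick hψs hψU
    have h1 := Setup.lin_local_lower L.set ⟨L.loc, L.lim⟩ hψs hδ hδU (κ := 2) two_ne_zero c x
      (fun i => frXi (fun n => 1 / m n) (em fun _ => 0) (x i))
      (fun i => (W.disp hψs hψU (x i)).congr_a fun z hz => (wt_zero (hψU hz)).symm)
      hψ hψs le_rfl hψ0 (L.fej ψ hψ.continuous hψs hψU hψ0) hε
    filter_upwards [h1, L.rot_eq hDm hD hK c x hψ hψs hψU] with n n1 n2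
    rw [n2, int_re_four (fun z => φ n (ofComplex z))] at n1
    linarith) hε
  filter_upwards [key] with n hn
  rw [rAvg_zero, rFrameProb_zero] at hn
  simp only [rWave_zero] at hn
  linarith

/-- **The upper bound for linear statistics.** -/
theorem LimSeq.lin_upper [Countable Γ] (hDm : MeasurableSet D)
    (hD : IsFundamentalDomain Γ D (volume : Measure ℍ))
    (hK : ∃ K : Set ℍ, IsCompact K ∧ ∀ z, ∃ γ ∈ Γ, γ • z ∈ K) (L : LimSeq Γ φ m u)
    {w : ℍ → ℝ} (hw : Continuous w) (hw0 : ∀ z, 0 ≤ w z) (hwi : ∀ γ ∈ Γ, ∀ z, w (γ • z) = w z)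
    (c : Fin r → ℝ) (x : Fin r → ℂ) {ε : ℝ} (hε : 0 < ε) :
    ∀ᶠ n in atTop, ∫ p, w p.1 * (∑ i, c i * localWave (φ n) (m n) (x i) p) ^ 4 ∂(frameProb D)
      ≤ statFour c x * surfAvg D (fun z => w z * φ n z ^ 4) + ε := by
  have W := L.ws hDm hD hK
  have key := W.stat_ge hw hw0 hwi (-1) (statFour c x) c x (fun ψ hψ hψs hψU hψ0 ε hε => by
    obtain ⟨δ, hδ, hδU⟩ := exists_thick hψs hψU
    have h1 := Setup.lin_local_upper L.set ⟨L.loc, L.lim⟩ hψs hδ hδU (κ := 2) two_ne_zero c x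
      (fun i => frXi (fun n => 1 / m n) (em fun _ => 0) (x i))
      (fun i => (W.disp hψs hψU (x i)).congr_a fun z hz => (wt_zero (hψU hz)).symm)
      hψ hψs le_rfl hψ0 L.bnd hε
    filter_upwards [h1, L.rot_eq hDm hD hK c x hψ hψs hψU] with n n1 n2
    rw [n2, int_re_four (fun z => φ n (ofComplex z))] at n1
    linarith) hε
  filter_upwards [key] with n hn
  rw [rAvg_zero, rFrameProb_zero] at hn
  simp only [rWave_zero] at hn
  linarith

end

end QE


end

section

/-!
The local form of the formulas for two and three points, for all sequences of eigenfunctions with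
bounded fourth moments (helper70).
-/

open Complex MeasureTheory Filter Topology Set
open scoped ContDiff

namespace QE

noncomputable section

variable {U : Set ℂ} {h : ℕ → ℝ} {a g : ℂ → ℂ} {φ : ℕ → ℂ → ℂ} {u : ℤ → ℂ → ℂ}

namespace Setup

variable (S : Setup U g a h φ)

include S

/-- **The local two-point formula**, for sequences with microlocal limits. -/
theorem two_local_var (L : JetLim U h a φ u) {K : Set ℂ} (hK : IsCompact K) {δ : ℝ} (hδ : 0 < δ)
    (hδU : Metric.cthickening (2 * δ) K ⊆ U) {q : ℤ} (hq : q ≠ 0) (y : Fin 2 → ℂ)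
    (ξ : Fin 2 → ℕ → ℝ → ℂ → ℂ) (hξ : ∀ i, Disp h a K q (y i) (ξ i)) {ζ : ℂ → ℂ}
    (hζ : Test U ζ) (hζK : tsupport ζ ⊆ K) :
    Tendsto (fun n => (∫ θ, (∫ z, ζ z * (φ n (z + h n * a z * ξ 0 n θ z)
        * φ n (z + h n * a z * ξ 1 n θ z))) ∂ang)
        - (∫ z, ζ z * (φ n z * φ n z)) * (Berry.waveK (y 0 - y 1) : ℂ)) atTop (𝓝 0) := by
  have hKU : K ⊆ U := (Metric.self_subset_cthickening K).trans hδU
  have hset : ∀ f : ℂ → ℂ, ∫ z, ζ z * f z = ∫ z in K, ζ z * f z := by
    intro f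
    rw [setIntegral_eq_integral_of_forall_compl_eq_zero]
    intro z hz
    rw [image_eq_zero_of_notMem_tsupport (fun hz' => hz (hζK hz')), zero_mul]
  have hζc : ContinuousOn ζ K := hζ.smooth.continuous.continuousOn
  have hlim : ∀ j m : ℤ, Tendsto (fun n => ∫ z, ζ z * (E h a φ j n z * E h a φ m n z)) atTop
      (𝓝 ((-1) ^ j * ∫ z, ζ z * u (j + m) z)) := by
    intro j m
    have h1 := (L.lim j m).test hζ
    have e : ∫ z, ζ z * ((-1) ^ j * u (j + m) z) = (-1) ^ j * ∫ z, ζ z * u (j + m) z := by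
      rw [← integral_const_mul]
      congr 1; funext z; ring
    rwa [e] at h1
  have hα : Tendsto (fun n => ∫ z, ζ z * (φ n z * φ n z)) atTop (𝓝 (∫ z, ζ z * u 0 z)) := by
    have := hlim 0 0
    rw [zpow_zero, one_mul, add_zero] at this
    exact this
  have key := lim_combine
    (X := fun n => ∫ θ, (∫ z, ζ z * (φ n (z + h n * a z * ξ 0 n θ z)
        * φ n (z + h n * a z * ξ 1 n θ z))) ∂ang)
    (T := fun N n => ∑ p ∈ Fintype.piFinset (fun _ : Fin 2 => Finset.Icc (-(N : ℤ)) N),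
        (∏ i, CN N (p i) (y i)) * ((if ∑ i, p i = 0 then 1 else 0)
          * ∫ z in K, ζ z * ∏ i, E h a φ (p i) n z))
    (α := fun n => ∫ z, ζ z * (φ n z * φ n z)) (β := fun _ => 0) (W₂ := fun _ => 0) (V₂ := 0)
    (C := ‖∫ z, ζ z * u 0 z‖ + 1) ?_ ?_ (model_pair y) tendsto_const_nhds
    ((hα.norm.eventually_lt_const (lt_add_one _)).mono fun n hn => hn.le)
    (Eventually.of_forall fun n => by simp; positivity)
  · refine key.congr fun n => ?_
    ring
  · intro ε hε
    have hone : Disp h a K q 0 (fun _ _ _ => 0) := by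
      refine ⟨fun ε hε => Eventually.of_forall fun n θ z _ => by simpa using hε.le,
        Eventually.of_forall fun n => continuousOn_const,
        Eventually.of_forall fun n θ z _ w _ => by simp⟩
    obtain ⟨N₀, hN₀⟩ := S.rot_close hK hδ hδU q ![true, true, false, false] ![y 0, y 1, 0, 0]
      ![ξ 0, ξ 1, fun _ _ _ => 0, fun _ _ _ => 0] (fun i => by
        fin_cases i
        · exact hξ 0
        · exact hξ 1
        · exact hone
        · exact hone) hζc hε
    refine ⟨N₀, fun N hN => ?_⟩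
    filter_upwards [hN₀ N hN] with n hn
    simp only [Matrix.cons_val_zero, Matrix.cons_val_one, Matrix.cons_val, fld, tay, if_true,
      Bool.false_eq_true, if_false, mul_one] at hn
    have e1 := S.rot_expand hK hKU hq y hζc N n
    simp only [Fin.prod_univ_two] at e1
    rw [e1] at hn
    simp only [hset]
    simp only [Fin.prod_univ_two]
    exact hn
  · intro N
    have h1 : ∀ p : Fin 2 → ℤ, Tendsto (fun n => (if ∑ i, p i = 0 then 1 else 0)
        * (∫ z in K, ζ z * ∏ i, E h a φ (p i) n z)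
        - ((∫ z, ζ z * (φ n z * φ n z)) * ((if ∑ i, p i = 0 then 1 else 0) * P (p 0) (p 1))))
        atTop (𝓝 0) := by
      intro p
      by_cases hp : ∑ i, p i = 0
      · simp only [if_pos hp, one_mul]
        rw [Fin.sum_univ_two] at hp
        have h2 := (hlim (p 0) (p 1)).sub (hα.mul_const (P (p 0) (p 1)))
        have e : (-1) ^ (p 0) * ∫ z, ζ z * u (p 0 + p 1) z
            = (∫ z, ζ z * u 0 z) * P (p 0) (p 1) := by
          unfold P
          rw [if_pos hp, hp]; ring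
        rw [e, sub_self] at h2
        refine h2.congr fun n => ?_
        rw [hset (fun z => E h a φ (p 0) n z * E h a φ (p 1) n z)]
        simp only [Fin.prod_univ_two]
      · simp only [if_neg hp, zero_mul, mul_zero, sub_zero]
        exact tendsto_const_nhds
    have h2 := tendsto_finsetSum (Fintype.piFinset (fun _ : Fin 2 => Finset.Icc (-(N : ℤ)) N))
      fun p _ => (h1 p).const_mul (∏ i, CN N (p i) (y i))
    simp only [mul_zero, Finset.sum_const_zero] at h2
    refine h2.congr fun n => ?_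
    rw [zero_mul, add_zero, Finset.mul_sum, ← Finset.sum_sub_distrib]
    exact Finset.sum_congr rfl fun p _ => by ring

/-- **The local three-point formula**, for sequences with microlocal limits without directional
atoms. -/
theorem three_local_var (L : JetLim U h a φ u)
    (hN : ∀ ρ : ℂ → ℝ, Test U (fun z => (ρ z : ℂ)) → (∀ z, 0 ≤ ρ z) →
      Tendsto (fun N : ℕ => (1 / (N : ℝ)) * ∑ k ∈ Finset.Ioo (-(N : ℤ)) (N : ℤ),
      ∫ z, ρ z * ‖u k z‖ ^ 2) atTop (𝓝 0)) {K : Set ℂ} (hK : IsCompact K) {δ : ℝ} (hδ : 0 < δ)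
    (hδU : Metric.cthickening (2 * δ) K ⊆ U) {q : ℤ} (hq : q ≠ 0) (y : Fin 3 → ℂ)
    (ξ : Fin 3 → ℕ → ℝ → ℂ → ℂ) (hξ : ∀ i, Disp h a K q (y i) (ξ i)) {ζ : ℂ → ℂ}
    (hζ : Test U ζ) (hζK : tsupport ζ ⊆ K) :
    Tendsto (fun n => (∫ θ, (∫ z, ζ z * (φ n (z + h n * a z * ξ 0 n θ z)
        * φ n (z + h n * a z * ξ 1 n θ z) * φ n (z + h n * a z * ξ 2 n θ z))) ∂ang)) atTop
      (𝓝 0) := by
  have hKU : K ⊆ U := (Metric.self_subset_cthickening K).trans hδU
  have hset : ∀ f : ℂ → ℂ, ∫ z, ζ z * f z = ∫ z in K, ζ z * f z := by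
    intro f
    rw [setIntegral_eq_integral_of_forall_compl_eq_zero]
    intro z hz
    rw [image_eq_zero_of_notMem_tsupport (fun hz' => hz (hζK hz')), zero_mul]
  have hζc : ContinuousOn ζ K := hζ.smooth.continuous.continuousOn
  have key := lim_combine
    (X := fun n => ∫ θ, (∫ z, ζ z * (φ n (z + h n * a z * ξ 0 n θ z)
        * φ n (z + h n * a z * ξ 1 n θ z) * φ n (z + h n * a z * ξ 2 n θ z))) ∂ang)
    (T := fun N n => ∑ p ∈ Fintype.piFinset (fun _ : Fin 3 => Finset.Icc (-(N : ℤ)) N),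
        (∏ i, CN N (p i) (y i)) * ((if ∑ i, p i = 0 then 1 else 0)
          * ∫ z in K, ζ z * ∏ i, E h a φ (p i) n z))
    (α := fun _ => 0) (W₁ := fun _ => 0) (V₁ := 0) (β := fun _ => 0) (W₂ := fun _ => 0) (V₂ := 0)
    (C := 0) ?_ ?_ tendsto_const_nhds tendsto_const_nhds
    (Eventually.of_forall fun n => by simp) (Eventually.of_forall fun n => by simp)
  · refine key.congr fun n => ?_
    ring
  · intro ε hε
    have hone : Disp h a K q 0 (fun _ _ _ => 0) := by
      refine ⟨fun ε hε => Eventually.of_forall fun n θ z _ => by simpa using hε.le,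
        Eventually.of_forall fun n => continuousOn_const,
        Eventually.of_forall fun n θ z _ w _ => by simp⟩
    obtain ⟨N₀, hN₀⟩ := S.rot_close hK hδ hδU q ![true, true, true, false] ![y 0, y 1, y 2, 0]
      ![ξ 0, ξ 1, ξ 2, fun _ _ _ => 0] (fun i => by
        fin_cases i
        · exact hξ 0
        · exact hξ 1
        · exact hξ 2
        · exact hone) hζc hε
    refine ⟨N₀, fun N hN => ?_⟩
    filter_upwards [hN₀ N hN] with n hn
    simp only [Matrix.cons_val_zero, Matrix.cons_val_one, Matrix.cons_val, fld, tay, if_true,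
      Bool.false_eq_true, if_false, mul_one] at hn
    have e1 := S.rot_expand hK hKU hq y hζc N n
    simp only [Fin.prod_univ_three] at e1
    rw [e1] at hn
    simp only [hset]
    simp only [Fin.prod_univ_three]
    exact hn
  · intro N
    have h1 : ∀ p : Fin 3 → ℤ, Tendsto (fun n => (if ∑ i, p i = 0 then 1 else 0)
        * (∫ z in K, ζ z * ∏ i, E h a φ (p i) n z)) atTop (𝓝 0) := by
      intro p
      by_cases hp : ∑ i, p i = 0
      · simp only [if_pos hp, one_mul]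
        rw [Fin.sum_univ_three] at hp
        refine (S.jets_three_var L hN hζ (p 0) (p 1) (p 2) hp).congr fun n => ?_
        rw [hset (fun z => E h a φ (p 0) n z * E h a φ (p 1) n z * E h a φ (p 2) n z)]
        simp only [Fin.prod_univ_three]
      · simp only [if_neg hp, zero_mul]
        exact tendsto_const_nhds
    have h2 := tendsto_finsetSum (Fintype.piFinset (fun _ : Fin 3 => Finset.Icc (-(N : ℤ)) N))
      fun p _ => (h1 p).const_mul (∏ i, CN N (p i) (y i))
    simp only [mul_zero, Finset.sum_const_zero] at h2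
    refine h2.congr fun n => ?_
    rw [zero_mul, add_zero, sub_zero]

end Setup

end

end QE


end

section

/-!
The two and three point functions of the local waves along sequences of eigenfunctions with
microlocal limits on compact hyperbolic surfaces (helper70).
-/

open UpperHalfPlane MeasureTheory MatrixGroups Filter Topology Set Berry
open scoped ENNReal ContDiff

namespace QE

noncomputable section

variable {Γ : Subgroup SL(2, ℝ)} {ρ : ℍ → ℝ} {D : Set ℍ} {φ : ℕ → ℍ → ℝ} {m h : ℕ → ℝ}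
  {g' : ℂ → ℂ} {k : ℕ} {u : ℤ → ℂ → ℂ}

/-- **Correlations of the local waves from the local formulas.** -/
theorem WS.wrap_gen [Countable Γ] (W : WS Γ ρ D φ m h g') (x : Fin k → ℂ)
    (hk : ∀ a : Fin k → ℝ, |∏ i, a i| ≤ 1 + ∑ i, a i ^ 4) {G : ℕ → ℍ → ℝ}
    (hG : ∀ n, Continuous (G n)) (hGi : ∀ n, ∀ γ ∈ Γ, ∀ z, G n (γ • z) = G n z)
    (hGb : ∀ K : Set ℂ, IsCompact K → K ⊆ HH → ∃ C : ℝ, ∀ᶠ n in atTop,
      ∫ z in K, |G n (ofComplex z)| ≤ C)
    (hloc : ∀ ψ : ℂ → ℝ, ContDiff ℝ ∞ ψ → HasCompactSupport ψ → tsupport ψ ⊆ HH →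
      Tendsto (fun n => (∫ z, ψ z * angProd ρ (φ n) (m n) x (ofComplex z))
        - ∫ z, ψ z * G n (ofComplex z)) atTop (𝓝 0)) :
    Tendsto (fun n => (∫ p, ∏ i, Berry.rWave ρ (φ n) (m n) (x i) p ∂(Berry.rFrameProb ρ D))
      - Berry.rAvg ρ D (G n)) atTop (𝓝 0) := by
  have main := global_lim (F := fun n z => angProd ρ (φ n) (m n) x z - G n z)
    W.geo W.rc W.coc
    ((W.ac x).mono fun n hn => hn.sub (hG n))
    (fun n γ hγ z => by
      rw [angProd_inv (W.pinv n) W.geo.inv (m n) x γ hγ z, hGi n γ hγ z])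
    (fun K hKc hKU => by
      obtain ⟨C, hC⟩ := W.angProd_bdd x hk hKc hKU
      obtain ⟨M, hM⟩ := hGb K hKc hKU
      refine ⟨C + M, ?_⟩
      filter_upwards [hC, hM, W.ac x] with n n1 n2 n8
      have iA : IntegrableOn (fun z => |angProd ρ (φ n) (m n) x (ofComplex z)|) K :=
        ((cont_ofComplex n8).mono hKU).abs.integrableOn_compact hKc
      have iG : IntegrableOn (fun z => |G n (ofComplex z)|) K :=
        ((cont_ofComplex (hG n)).mono hKU).abs.integrableOn_compact hKc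
      calc ∫ z in K, |angProd ρ (φ n) (m n) x (ofComplex z) - G n (ofComplex z)|
          ≤ ∫ z in K, (|angProd ρ (φ n) (m n) x (ofComplex z)| + |G n (ofComplex z)|) := by
            refine integral_mono_of_nonneg (Eventually.of_forall fun z => abs_nonneg _)
              (iA.add iG) (Eventually.of_forall fun z => ?_)
            exact abs_sub _ _
        _ ≤ _ := by
            rw [integral_add iA iG]
            exact add_le_add n1 n2)
    (fun ψ hψ hψs hψU => by
      refine (hloc ψ hψ hψs hψU).congr' ?_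
      filter_upwards [W.ac x] with n n8
      have j1 : Integrable (fun z => ψ z * angProd ρ (φ n) (m n) x (ofComplex z)) :=
        (Surf.continuous_cut_mul hψ.continuous hψU n8).integrable_of_hasCompactSupport
          hψs.mul_right
      have j2 : Integrable (fun z => ψ z * G n (ofComplex z)) :=
        (Surf.continuous_cut_mul hψ.continuous hψU (hG n)).integrable_of_hasCompactSupport
          hψs.mul_right
      rw [← integral_sub j1 j2]
      congr 1; funext z; ring)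
  refine main.congr' ?_
  filter_upwards [W.wc x, W.ac x] with n hn1 hn2
  obtain ⟨C₁, hC₁⟩ := Berry.bdd_of_cocompact hn2
    (angProd_inv (W.pinv n) W.geo.inv (m n) x) W.coc
  obtain ⟨C₂, hC₂⟩ := Berry.bdd_of_cocompact (W.pc n) (W.pinv n) W.coc
  obtain ⟨C₃, hC₃⟩ := Berry.bdd_of_cocompact (hG n) (hGi n) W.coc
  have hcond : IsProbabilityMeasure (ProbabilityTheory.cond (Berry.area ρ) D) :=
    ProbabilityTheory.cond_isProbabilityMeasure_of_finite (Berry.area_ne_zero W.geo)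
      (Berry.area_ne_top W.geo)
  have i1 : Integrable (angProd ρ (φ n) (m n) x) (ProbabilityTheory.cond (Berry.area ρ) D) :=
    Integrable.of_bound hn2.aestronglyMeasurable C₁ (Eventually.of_forall fun z => by
      rw [Real.norm_eq_abs]; exact hC₁ z)
  have i2 : Integrable (G n) (ProbabilityTheory.cond (Berry.area ρ) D) :=
    Integrable.of_bound (hG n).aestronglyMeasurable C₃ (Eventually.of_forall fun z => by
      rw [Real.norm_eq_abs]; exact hC₃ z)
  have i3 : Integrable (fun p => ∏ i, Berry.rWave ρ (φ n) (m n) (x i) p)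
      ((ProbabilityTheory.cond (Berry.area ρ) D).prod ang) := by
    refine Integrable.of_bound (continuous_finsetProd _ fun i _ => hn1 i).aestronglyMeasurable
      (∏ _i : Fin k, |C₂|) (Eventually.of_forall fun p => ?_)
    rw [norm_prod]
    refine Finset.prod_le_prod (fun _ _ => norm_nonneg _) fun i _ => ?_
    rw [Real.norm_eq_abs]
    exact (hC₂ _).trans (le_abs_self _)
  have e1 : ∫ p, ∏ i, Berry.rWave ρ (φ n) (m n) (x i) p ∂(Berry.rFrameProb ρ D)
      = ∫ z, angProd ρ (φ n) (m n) x z ∂(ProbabilityTheory.cond (Berry.area ρ) D) := by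
    unfold Berry.rFrameProb
    rw [integral_prod _ i3]
    rfl
  have e2 : Berry.rAvg ρ D (fun z => angProd ρ (φ n) (m n) x z - G n z)
      = (∫ z, angProd ρ (φ n) (m n) x z ∂(ProbabilityTheory.cond (Berry.area ρ) D))
        - ∫ z, G n z ∂(ProbabilityTheory.cond (Berry.area ρ) D) := integral_sub i1 i2
  rw [e1, e2]
  rfl

/-- the rotation averages in the two settings -/
theorem LimSeq.ang_eq [Countable Γ] (hDm : MeasurableSet D)
    (hD : IsFundamentalDomain Γ D (volume : Measure ℍ))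
    (hK : ∃ K : Set ℍ, IsCompact K ∧ ∀ z, ∃ γ ∈ Γ, γ • z ∈ K) (L : LimSeq Γ φ m u)
    (x : Fin k → ℂ) {ψ : ℂ → ℝ} (hψ : ContDiff ℝ ∞ ψ)
    (hψs : HasCompactSupport ψ) (hψU : tsupport ψ ⊆ HH) :
    ∀ᶠ n in atTop, ∫ θ, (∫ z, (ψ z : ℂ) * ∏ i, (φ n (ofComplex (z + ((1 / m n : ℝ) : ℂ) * aH z
        * frXi (fun n => 1 / m n) (em fun _ => 0) (x i) n θ z)) : ℂ)) ∂ang
      = ((∫ z, ψ z * angProd (fun _ => 0) (φ n) (m n) x (ofComplex z) : ℝ) : ℂ) := by
  have W := L.ws hDm hD hK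
  filter_upwards [W.ang_eq x hψ hψs hψU] with n hn
  rw [← hn]
  refine integral_congr_ae (Eventually.of_forall fun θ => ?_)
  refine integral_congr_ae (Eventually.of_forall fun z => ?_)
  beta_reduce
  by_cases hz : z ∈ UH
  · rw [wt_zero hz]
  · have : ψ z = 0 := image_eq_zero_of_notMem_tsupport fun hh => hz (hψU hh)
    rw [this]; simp

theorem test_of_smooth {U : Set ℂ} {ψ : ℂ → ℝ} (hψ : ContDiff ℝ ∞ ψ) (hψs : HasCompactSupport ψ)
    (hψU : tsupport ψ ⊆ U) : Test U (fun z => (ψ z : ℂ)) := by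
  refine ⟨Complex.ofRealCLM.contDiff.comp hψ, ?_, ?_⟩
  · unfold HasCompactSupport
    rw [Test.tsupport_eq]
    exact hψs
  · rw [Test.tsupport_eq]; exact hψU

/-- **The two-point functions.** -/
theorem LimSeq.two [Countable Γ] (hDm : MeasurableSet D)
    (hD : IsFundamentalDomain Γ D (volume : Measure ℍ))
    (hK : ∃ K : Set ℍ, IsCompact K ∧ ∀ z, ∃ γ ∈ Γ, γ • z ∈ K) (L : LimSeq Γ φ m u) (x y : ℂ) :
    Tendsto (fun n => (∫ p, localWave (φ n) (m n) x p * localWave (φ n) (m n) y p ∂(frameProb D))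
      - waveK (x - y) * surfAvg D (fun z => φ n z ^ 2)) atTop (𝓝 0) := by
  have W := L.ws hDm hD hK
  have key := W.wrap_gen ![x, y] (prod_le_four (by norm_num))
    (G := fun n z => waveK (x - y) * φ n z ^ 2)
    (fun n => continuous_const.mul ((L.cont n).pow 2))
    (fun n γ hγ z => by rw [L.inv n γ hγ z])
    (fun K hKc hKU => by
      obtain ⟨M, hM⟩ := W.bdd4 hKc hKU
      refine ⟨|waveK (x - y)| * ((volume K).toReal + M), ?_⟩
      filter_upwards [hM] with n hn
      have cφ : ContinuousOn (fun z : ℂ => φ n (ofComplex z)) HH := cont_ofComplex (W.pc n)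
      have i1 : IntegrableOn (fun _ : ℂ => (1 : ℝ)) K := continuousOn_const.integrableOn_compact hKc
      have i4 : IntegrableOn (fun z : ℂ => φ n (ofComplex z) ^ 4) K :=
        ((cφ.mono hKU).pow 4).integrableOn_compact hKc
      calc ∫ z in K, |waveK (x - y) * φ n (ofComplex z) ^ 2|
          ≤ ∫ z in K, |waveK (x - y)| * (1 + φ n (ofComplex z) ^ 4) := by
            refine integral_mono_of_nonneg (Eventually.of_forall fun z => abs_nonneg _)
              ((i1.add i4).const_mul _) (Eventually.of_forall fun z => ?_)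
            beta_reduce
            rw [abs_mul, abs_of_nonneg (sq_nonneg (φ n (ofComplex z)))]
            refine mul_le_mul_of_nonneg_left ?_ (abs_nonneg _)
            nlinarith [sq_nonneg (φ n (ofComplex z) ^ 2 - 1), sq_nonneg (φ n (ofComplex z))]
        _ = |waveK (x - y)| * ((volume K).toReal + ∫ z in K, φ n (ofComplex z) ^ 4) := by
            rw [integral_const_mul, integral_add i1 i4, integral_const, smul_eq_mul, mul_one,
              measureReal_restrict_apply_univ]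
            rfl
        _ ≤ _ := mul_le_mul_of_nonneg_left (by linarith) (abs_nonneg _))
    (fun ψ hψ hψs hψU => by
      obtain ⟨δ, hδ, hδU⟩ := exists_thick hψs hψU
      have h1 := L.set.two_local_var ⟨L.loc, L.lim⟩ hψs hδ hδU (q := 2) two_ne_zero ![x, y]
        (fun i => frXi (fun n => 1 / m n) (em fun _ => 0) (![x, y] i))
        (fun i => (W.disp hψs hψU (![x, y] i)).congr_a fun z hz => (wt_zero (hψU hz)).symm)
        (test_of_smooth hψ hψs hψU) (by rw [Test.tsupport_eq])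
      have h2 : Tendsto (fun n => (((∫ z, ψ z * angProd (fun _ => 0) (φ n) (m n) ![x, y]
          (ofComplex z)) - ∫ z, ψ z * (waveK (x - y) * φ n (ofComplex z) ^ 2) : ℝ) : ℂ)) atTop
          (𝓝 0) := by
        refine h1.congr' ?_
        filter_upwards [L.ang_eq hDm hD hK ![x, y] hψ hψs hψU] with n n1
        rw [Complex.ofReal_sub, ← n1]
        congr 1
        · refine integral_congr_ae (Eventually.of_forall fun θ => ?_)
          refine integral_congr_ae (Eventually.of_forall fun z => ?_)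
          beta_reduce
          rw [Fin.prod_univ_two]
        · have e : ((∫ z, ψ z * (waveK (x - y) * φ n (ofComplex z) ^ 2) : ℝ) : ℂ)
              = ∫ z, ((ψ z * (waveK (x - y) * φ n (ofComplex z) ^ 2) : ℝ) : ℂ) :=
            integral_ofReal.symm
          rw [e, ← integral_mul_const]
          refine integral_congr_ae (Eventually.of_forall fun z => ?_)
          simp only [Matrix.cons_val_zero, Matrix.cons_val_one]
          push_cast
          ring
      have h3 := (Complex.continuous_re.tendsto _).comp h2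
      simpa only [Function.comp_def, Complex.ofReal_re, Complex.zero_re] using h3)
  refine key.congr fun n => ?_
  rw [rAvg_zero, rFrameProb_zero]
  simp only [rWave_zero, Fin.prod_univ_two, Matrix.cons_val_zero, Matrix.cons_val_one]
  congr 1
  unfold surfAvg
  rw [integral_const_mul]

/-- **The three-point functions vanish in the limit.** -/
theorem LimSeq.three [Countable Γ] (hDm : MeasurableSet D)
    (hD : IsFundamentalDomain Γ D (volume : Measure ℍ))
    (hK : ∃ K : Set ℍ, IsCompact K ∧ ∀ z, ∃ γ ∈ Γ, γ • z ∈ K) (L : LimSeq Γ φ m u) (x y w : ℂ) :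
    Tendsto (fun n => ∫ p, localWave (φ n) (m n) x p * localWave (φ n) (m n) y p
      * localWave (φ n) (m n) w p ∂(frameProb D)) atTop (𝓝 0) := by
  have W := L.ws hDm hD hK
  have key := W.wrap_gen ![x, y, w] (prod_le_four (by norm_num)) (G := fun _ _ => 0)
    (fun _ => continuous_const) (fun _ _ _ _ => rfl) (fun K _ _ => ⟨0, by simp⟩)
    (fun ψ hψ hψs hψU => by
      obtain ⟨δ, hδ, hδU⟩ := exists_thick hψs hψU
      have h1 := L.set.three_local_var ⟨L.loc, L.lim⟩ (fun ρ hρ hρ0 => by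
          have hρr : Continuous ρ := Complex.continuous_re.comp hρ.smooth.continuous
          have hρt : tsupport (fun z => (ρ z : ℂ)) = tsupport ρ := Test.tsupport_eq ρ
          exact L.fej ρ hρr (by
            have := hρ.supp
            unfold HasCompactSupport at this ⊢
            rwa [hρt] at this) (by rw [← hρt]; exact hρ.sub) hρ0) hψs hδ hδU (q := 2) two_ne_zero
        ![x, y, w] (fun i => frXi (fun n => 1 / m n) (em fun _ => 0) (![x, y, w] i))
        (fun i => (W.disp hψs hψU (![x, y, w] i)).congr_a fun z hz => (wt_zero (hψU hz)).symm)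
        (test_of_smooth hψ hψs hψU) (by rw [Test.tsupport_eq])
      have h2 : Tendsto (fun n => (((∫ z, ψ z * angProd (fun _ => 0) (φ n) (m n) ![x, y, w]
          (ofComplex z)) - ∫ z, ψ z * 0 : ℝ) : ℂ)) atTop (𝓝 0) := by
        refine h1.congr' ?_
        filter_upwards [L.ang_eq hDm hD hK ![x, y, w] hψ hψs hψU] with n n1
        simp only [mul_zero, integral_zero, sub_zero]
        rw [← n1]
        refine integral_congr_ae (Eventually.of_forall fun θ => ?_)
        refine integral_congr_ae (Eventually.of_forall fun z => ?_)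
        beta_reduce
        rw [Fin.prod_univ_three]
      have h3 := (Complex.continuous_re.tendsto _).comp h2
      simpa only [Function.comp_def, Complex.ofReal_re, Complex.zero_re] using h3)
  refine key.congr fun n => ?_
  rw [rAvg_zero, rFrameProb_zero]
  simp only [rWave_zero, Fin.prod_univ_three, Matrix.cons_val_zero, Matrix.cons_val_one,
    Matrix.cons_val]
  unfold surfAvg
  simp

end

end QE


end

section

/-!
The fourth moments of linear statistics of the local waves for every sequence of eigenfunctions on a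
compact hyperbolic surface (helper70).
-/

open UpperHalfPlane MeasureTheory MatrixGroups Filter Topology Set Berry
open scoped ENNReal ContDiff

namespace QE

noncomputable section

variable {Γ : Subgroup SL(2, ℝ)} {D : Set ℍ} {r : ℕ}

/-- continuous invariant functions with vanishing fourth moment vanish -/
theorem eq_zero_of_avg [Countable Γ] (hD : IsFundamentalDomain Γ D (volume : Measure ℍ))
    (hK : ∃ K : Set ℍ, IsCompact K ∧ ∀ z, ∃ γ ∈ Γ, γ • z ∈ K) {f : ℍ → ℝ} (hf : Continuous f)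
    (hinv : ∀ γ ∈ Γ, ∀ z, f (γ • z) = f z) (h0 : surfAvg D (fun z => f z ^ 4) = 0) (z : ℍ) :
    f z = 0 := by
  have hz := z.im_pos
  set K := Metric.closedBall (z : ℂ) (z.im / 2) with hKdef
  have hKc : IsCompact K := isCompact_closedBall _ _
  have hKU : K ⊆ {w : ℂ | 0 < w.im} := by
    intro w hw
    rw [hKdef, Metric.mem_closedBall, dist_eq_norm] at hw
    have h1 := Complex.abs_im_le_norm (w - z)
    rw [Complex.sub_im] at h1
    have h2 := (abs_le.1 (h1.trans hw)).1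
    show 0 < w.im
    have h3 : (z : ℂ).im = z.im := rfl
    rw [h3] at h2
    linarith
  obtain ⟨M, -, hM⟩ := Surf.bdd_of_avg hD hK hKc hKU
  have h1 := hM (fun z => f z ^ 4) (hf.pow 4) (fun z => by positivity)
    (fun γ hγ z => by rw [hinv γ hγ])
  rw [h0, mul_zero] at h1
  have hc : ContinuousOn (fun w : ℂ => f (ofComplex w)) {w : ℂ | 0 < w.im} := fun w hw =>
    (hf.continuousAt.comp (contMDiffAt_ofComplex (n := 0) hw).continuousAt).continuousWithinAt
  have hi : IntegrableOn (fun w : ℂ => f (ofComplex w) ^ 4) K :=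
    ((hc.mono hKU).pow 4).integrableOn_compact hKc
  have h2 : ∫ w in K, f (ofComplex w) ^ 4 = 0 :=
    le_antisymm h1 (integral_nonneg fun w => by positivity)
  have h3 : (fun w : ℂ => f (ofComplex w) ^ 4) =ᵐ[volume.restrict K] 0 :=
    (integral_eq_zero_iff_of_nonneg (fun w => by positivity) hi).1 h2
  have h4 : (fun w : ℂ => f (ofComplex w) ^ 4)
      =ᵐ[volume.restrict (Metric.ball (z : ℂ) (z.im / 2))] fun _ => 0 :=
    ae_restrict_of_ae_restrict_of_subset Metric.ball_subset_closedBall h3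
  have h5 := Measure.eqOn_open_of_ae_eq h4 Metric.isOpen_ball
    ((hc.mono (Metric.ball_subset_closedBall.trans hKU)).pow 4) continuousOn_const
  have h6 := h5 (Metric.mem_ball_self (half_pos hz))
  simp only [ofComplex_apply] at h6
  exact pow_eq_zero_iff (by norm_num) |>.1 h6

/-- **From sequences with microlocal limits to all sequences**, for properties which do not change
under scaling. -/
theorem every_seq [Countable Γ]
    (hDm : MeasurableSet D) (hD : IsFundamentalDomain Γ D (volume : Measure ℍ))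
    (hK : ∃ K : Set ℍ, IsCompact K ∧ ∀ z, ∃ γ ∈ Γ, γ • z ∈ K) {φ : ℕ → ℍ → ℝ} {m : ℕ → ℝ}
    (hφ : EigenSeq Γ φ m)
    (hs : ∀ n, ContDiffOn ℝ ∞ (fun w : ℂ => φ n (ofComplex w)) {w | 0 < w.im})
    {Q : (ℍ → ℝ) → ℝ → Prop}
    (hscale : ∀ (f : ℍ → ℝ) (k c : ℝ), 0 < c → Q (fun z => c * f z) k → Q f k)
    (hzero : ∀ k, Q (fun _ => 0) k)
    (hlim : ∀ (φ' : ℕ → ℍ → ℝ) (m' : ℕ → ℝ) (u : ℤ → ℂ → ℂ), LimSeq Γ φ' m' u →
      (∀ n, surfAvg D (fun z => φ' n z ^ 4) = 1) → ∀ᶠ n in atTop, Q (φ' n) (m' n)) :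
    ∀ᶠ n in atTop, Q (φ n) (m n) := by
  by_contra hcon
  rw [Filter.not_eventually] at hcon
  obtain ⟨s, hsm, hsn⟩ := extraction_of_frequently_atTop hcon
  have hc : ∀ n, Continuous (φ n) := fun n => continuous_of_smooth (hs n)
  set A : ℕ → ℝ := fun n => surfAvg D (fun z => φ (s n) z ^ 4) with hA
  have hA0 : ∀ n, 0 ≤ A n := fun n => integral_nonneg fun z => by positivity
  have hA1 : ∀ n, 0 < A n := by
    intro n
    rcases (hA0 n).eq_or_lt with h0 | h0
    · exfalso
      have h1 := eq_zero_of_avg hD hK (hc (s n)) (hφ.invariant _) h0.symm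
      have h2 : φ (s n) = fun _ => 0 := funext h1
      apply hsn n
      rw [h2]
      exact hzero _
    · exact h0
  set c : ℕ → ℝ := fun n => (rt4 (A n))⁻¹ with hcdef
  have hrt : ∀ n, rt4 (A n) ^ 4 = A n := fun n => rt4_pow (hA0 n)
  have hrt0 : ∀ n, 0 < rt4 (A n) := by
    intro n
    have h1 : 0 ≤ rt4 (A n) := by unfold rt4; positivity
    rcases h1.eq_or_lt with h2 | h2
    · exfalso
      have h3 := hrt n
      rw [← h2] at h3
      have := hA1 n
      norm_num at h3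
      linarith
    · exact h2
  have hc0 : ∀ n, 0 < c n := fun n => inv_pos.2 (hrt0 n)
  have hc4 : ∀ n, c n ^ 4 * A n = 1 := by
    intro n
    rw [hcdef]
    simp only
    rw [inv_pow, hrt, inv_mul_cancel₀ (hA1 n).ne']
  -- the normalised sequence
  set ψ : ℕ → ℍ → ℝ := fun n z => c n * φ (s n) z with hψ
  have hψs : ∀ n, ContDiffOn ℝ ∞ (fun w : ℂ => ψ n (ofComplex w)) {w | 0 < w.im} := fun n =>
    contDiffOn_const.mul (hs (s n))
  have hE := eigenSeq_comp hφ hsm.tendsto_atTop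
  have hψE : EigenSeq Γ ψ (fun n => m (s n)) := by
    refine ⟨fun n γ hγ z => ?_, fun n => contDiffOn_const.mul (hE.smooth n), fun n z => ?_,
      hE.tendsto⟩
    · rw [hψ]
      simp only
      rw [hφ.invariant _ γ hγ]
    · have h1 := hE.eigen n z
      have hcd : ContDiffAt ℝ 2 (fun w : ℂ => φ (s n) (ofComplex w)) (z : ℂ) :=
        (hE.smooth n).contDiffAt ((isOpen_lt continuous_const Complex.continuous_im).mem_nhds
          z.im_pos)
      have h2 : (Laplacian.laplacian (fun w : ℂ => ψ n (ofComplex w))) (z : ℂ)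
          = c n * (Laplacian.laplacian (fun w : ℂ => φ (s n) (ofComplex w))) (z : ℂ) := by
        have := InnerProductSpace.laplacian_smul (c n) hcd
        simpa [hψ, Pi.smul_def, smul_eq_mul] using this
      rw [h2]
      simp only [hψ]
      linear_combination (c n) * h1
  have h4 : ∀ n, surfAvg D (fun z => ψ n z ^ 4) = 1 := by
    intro n
    have e : (fun z => ψ n z ^ 4) = fun z => c n ^ 4 * φ (s n) z ^ 4 := by
      funext z; simp only [hψ]; ring
    rw [e]
    unfold surfAvg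
    rw [integral_const_mul]
    exact hc4 n
  obtain ⟨t, ht, u, L⟩ := exists_limSeq hDm hD hK hψE hψs (fun n => (h4 n).le)
  obtain ⟨n, hn⟩ := (hlim _ _ u L (fun n => h4 _)).exists
  exact hsn (t n) (hscale _ _ _ (hc0 _) hn)

/-- **The lower bound for the fourth moments of linear statistics.** -/
theorem lin_lower [Countable Γ]
    (hDm : MeasurableSet D) (hD : IsFundamentalDomain Γ D (volume : Measure ℍ))
    (hK : ∃ K : Set ℍ, IsCompact K ∧ ∀ z, ∃ γ ∈ Γ, γ • z ∈ K) {φ : ℕ → ℍ → ℝ} {m : ℕ → ℝ}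
    (hφ : EigenSeq Γ φ m)
    (hs : ∀ n, ContDiffOn ℝ ∞ (fun w : ℂ => φ n (ofComplex w)) {w | 0 < w.im})
    {w : ℍ → ℝ} (hw : Continuous w) (hw0 : ∀ z, 0 ≤ w z) (hwi : ∀ γ ∈ Γ, ∀ z, w (γ • z) = w z)
    (c : Fin r → ℝ) (x : Fin r → ℂ) {ε : ℝ} (hε : 0 < ε) :
    ∀ᶠ n in atTop, statVar c x ^ 2 * surfAvg D (fun z => w z * φ n z ^ 4)
        - ε * surfAvg D (fun z => φ n z ^ 4)
      ≤ ∫ p, w p.1 * (∑ i, c i * localWave (φ n) (m n) (x i) p) ^ 4 ∂(frameProb D) := by
  refine every_seq hDm hD hK hφ hs (Q := fun f k =>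
    statVar c x ^ 2 * surfAvg D (fun z => w z * f z ^ 4) - ε * surfAvg D (fun z => f z ^ 4)
      ≤ ∫ p, w p.1 * (∑ i, c i * localWave f k (x i) p) ^ 4 ∂(frameProb D)) ?_ ?_ ?_
  · intro f k b hb h
    have e1 : surfAvg D (fun z => w z * (b * f z) ^ 4) = b ^ 4 * surfAvg D (fun z => w z * f z ^ 4) := by
      unfold surfAvg
      rw [← integral_const_mul]
      congr 1; funext z; ring
    have e2 : surfAvg D (fun z => (b * f z) ^ 4) = b ^ 4 * surfAvg D (fun z => f z ^ 4) := by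
      unfold surfAvg
      rw [← integral_const_mul]
      congr 1; funext z; ring
    have e3 : ∫ p, w p.1 * (∑ i, c i * localWave (fun z => b * f z) k (x i) p) ^ 4 ∂(frameProb D)
        = b ^ 4 * ∫ p, w p.1 * (∑ i, c i * localWave f k (x i) p) ^ 4 ∂(frameProb D) := by
      rw [← integral_const_mul]
      congr 1; funext p
      have : ∑ i, c i * localWave (fun z => b * f z) k (x i) p
          = b * ∑ i, c i * localWave f k (x i) p := by
        rw [Finset.mul_sum]
        refine Finset.sum_congr rfl fun i _ => ?_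
        unfold localWave; ring
      rw [this]; ring
    rw [e1, e2, e3] at h
    have hb4 : 0 < b ^ 4 := by positivity
    have h' : b ^ 4 * (statVar c x ^ 2 * surfAvg D (fun z => w z * f z ^ 4)
        - ε * surfAvg D (fun z => f z ^ 4))
        ≤ b ^ 4 * ∫ p, w p.1 * (∑ i, c i * localWave f k (x i) p) ^ 4 ∂(frameProb D) := by
      linarith
    exact le_of_mul_le_mul_left h' hb4
  · intro k
    unfold surfAvg localWave
    simp
  · intro φ' m' u L h4
    filter_upwards [L.lin_lower hDm hD hK hw hw0 hwi c x hε] with n hn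
    rw [h4, mul_one]
    exact hn

/-- **The upper bound for the fourth moments of linear statistics.** -/
theorem lin_upper [Countable Γ]
    (hDm : MeasurableSet D) (hD : IsFundamentalDomain Γ D (volume : Measure ℍ))
    (hK : ∃ K : Set ℍ, IsCompact K ∧ ∀ z, ∃ γ ∈ Γ, γ • z ∈ K) {φ : ℕ → ℍ → ℝ} {m : ℕ → ℝ}
    (hφ : EigenSeq Γ φ m)
    (hs : ∀ n, ContDiffOn ℝ ∞ (fun w : ℂ => φ n (ofComplex w)) {w | 0 < w.im})
    {w : ℍ → ℝ} (hw : Continuous w) (hw0 : ∀ z, 0 ≤ w z) (hwi : ∀ γ ∈ Γ, ∀ z, w (γ • z) = w z)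
    (c : Fin r → ℝ) (x : Fin r → ℂ) {ε : ℝ} (hε : 0 < ε) :
    ∀ᶠ n in atTop, ∫ p, w p.1 * (∑ i, c i * localWave (φ n) (m n) (x i) p) ^ 4 ∂(frameProb D)
      ≤ statFour c x * surfAvg D (fun z => w z * φ n z ^ 4)
        + ε * surfAvg D (fun z => φ n z ^ 4) := by
  refine every_seq hDm hD hK hφ hs (Q := fun f k =>
    ∫ p, w p.1 * (∑ i, c i * localWave f k (x i) p) ^ 4 ∂(frameProb D)
      ≤ statFour c x * surfAvg D (fun z => w z * f z ^ 4)
        + ε * surfAvg D (fun z => f z ^ 4)) ?_ ?_ ?_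
  · intro f k b hb h
    have e1 : surfAvg D (fun z => w z * (b * f z) ^ 4) = b ^ 4 * surfAvg D (fun z => w z * f z ^ 4) := by
      unfold surfAvg
      rw [← integral_const_mul]
      congr 1; funext z; ring
    have e2 : surfAvg D (fun z => (b * f z) ^ 4) = b ^ 4 * surfAvg D (fun z => f z ^ 4) := by
      unfold surfAvg
      rw [← integral_const_mul]
      congr 1; funext z; ring
    have e3 : ∫ p, w p.1 * (∑ i, c i * localWave (fun z => b * f z) k (x i) p) ^ 4 ∂(frameProb D)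
        = b ^ 4 * ∫ p, w p.1 * (∑ i, c i * localWave f k (x i) p) ^ 4 ∂(frameProb D) := by
      rw [← integral_const_mul]
      congr 1; funext p
      have : ∑ i, c i * localWave (fun z => b * f z) k (x i) p
          = b * ∑ i, c i * localWave f k (x i) p := by
        rw [Finset.mul_sum]
        refine Finset.sum_congr rfl fun i _ => ?_
        unfold localWave; ring
      rw [this]; ring
    rw [e1, e2, e3] at h
    have hb4 : 0 < b ^ 4 := by positivity
    have h' : b ^ 4 * (∫ p, w p.1 * (∑ i, c i * localWave f k (x i) p) ^ 4 ∂(frameProb D))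
        ≤ b ^ 4 * (statFour c x * surfAvg D (fun z => w z * f z ^ 4)
        + ε * surfAvg D (fun z => f z ^ 4)) := by
      linarith
    exact le_of_mul_le_mul_left h' hb4
  · intro k
    unfold surfAvg localWave
    simp
  · intro φ' m' u L h4
    filter_upwards [L.lin_upper hDm hD hK hw hw0 hwi c x hε] with n hn
    rw [h4, mul_one]
    exact hn

end

end QE


end

section

/-!
The weighted lower bound for the fourth moments of the linear statistics of the local waves of the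
normalised eigenfunctions of a compact hyperbolic surface.
-/

open UpperHalfPlane MeasureTheory MatrixGroups Filter Topology Set Berry
open scoped ENNReal ContDiff

namespace QE

noncomputable section

variable {Γ : Subgroup SL(2, ℝ)} {D : Set ℍ} {r : ℕ}

theorem weighted_stat [Countable Γ]
    (hDm : MeasurableSet D) (hD : IsFundamentalDomain Γ D (volume : Measure ℍ))
    (hK : ∃ K : Set ℍ, IsCompact K ∧ ∀ z, ∃ γ ∈ Γ, γ • z ∈ K)
    {φ : ℕ → ℍ → ℝ} {m : ℕ → ℝ} (hφ : EigenSeq Γ φ m)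
    (hs : ∀ n, ContDiffOn ℝ ∞ (fun w : ℂ => φ n (ofComplex w)) {w | 0 < w.im})
    (hn : ∀ n, surfAvg D (fun z => φ n z ^ 2) = 1)
    {w g : ℍ → ℝ} (hw : Continuous w) (hw0 : ∀ z, 0 < w z) (hwi : ∀ γ ∈ Γ, ∀ z, w (γ • z) = w z)
    (hg : Continuous g) (hgi : ∀ γ ∈ Γ, ∀ z, g (γ • z) = g z)
    (c : Fin r → ℝ) (x : Fin r → ℂ) {ε : ℝ} (hε : 0 < ε) :
    ∀ᶠ n in atTop,
      3 * statVar c x ^ 2 * surfAvg D (fun z => w z * g z * φ n z ^ 2) ^ 2 - ε
        ≤ surfAvg D (fun z => w z * g z ^ 2)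
          * ∫ p, w p.1 * (∑ i, c i * localWave (φ n) (m n) (x i) p) ^ 4 ∂(frameProb D) := by
  have hc : ∀ n, Continuous (φ n) := fun n => continuous_of_smooth (hs n)
  set a := surfAvg D (fun z => w z * g z ^ 2) with ha
  have ha0 : 0 ≤ a := Surf.surfAvg_nonneg fun z => mul_nonneg (hw0 z).le (sq_nonneg _)
  have hInt : ∀ f : ℍ → ℝ, Continuous f → (∀ γ ∈ Γ, ∀ z, f (γ • z) = f z) →
      IntegrableOn f D (volume : Measure ℍ) := fun f hf hfi =>
    Surf.integrableOn_of_invariant hD hK hf hfi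
  have hmono : ∀ f f' : ℍ → ℝ, IntegrableOn f D (volume : Measure ℍ) →
      IntegrableOn f' D (volume : Measure ℍ) → (∀ z, f z ≤ f' z) → surfAvg D f ≤ surfAvg D f' := by
    intro f f' hf hf' hle
    rw [Surf.surfAvg_eq, Surf.surfAvg_eq]
    exact mul_le_mul_of_nonneg_left (integral_mono hf hf' hle) (by positivity)
  have i2 : ∀ n, IntegrableOn (fun z => w z * g z * φ n z ^ 2) D (volume : Measure ℍ) := fun n =>
    hInt _ ((hw.mul hg).mul ((hc n).pow 2)) fun γ hγ z => by
      rw [hwi γ hγ, hgi γ hγ, hφ.invariant n γ hγ]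
  have i2' : ∀ n, IntegrableOn (fun z => φ n z ^ 2) D (volume : Measure ℍ) := fun n =>
    hInt _ ((hc n).pow 2) fun γ hγ z => by rw [hφ.invariant n γ hγ]
  have i4 : ∀ n, IntegrableOn (fun z => w z * φ n z ^ 4) D (volume : Measure ℍ) := fun n =>
    hInt _ (hw.mul ((hc n).pow 4)) fun γ hγ z => by rw [hwi γ hγ, hφ.invariant n γ hγ]
  have i4' : ∀ n, IntegrableOn (fun z => φ n z ^ 4) D (volume : Measure ℍ) := fun n =>
    hInt _ ((hc n).pow 4) fun γ hγ z => by rw [hφ.invariant n γ hγ]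
  -- the second moments are bounded
  obtain ⟨B, hB⟩ := bdd_of_cocompact (hw.mul hg) (fun γ hγ z => by
    show w (γ • z) * g (γ • z) = w z * g z
    rw [hwi γ hγ, hgi γ hγ]) hK
  have hB0 : 0 ≤ B := (abs_nonneg _).trans (hB I)
  have hcB : ∀ n, surfAvg D (fun z => w z * g z * φ n z ^ 2) ^ 2 ≤ B ^ 2 := by
    intro n
    have h1 : surfAvg D (fun z => w z * g z * φ n z ^ 2) ≤ B := by
      have := hmono _ (fun z => B * φ n z ^ 2) (i2 n) ((i2' n).const_mul B) fun z =>
        mul_le_mul_of_nonneg_right ((le_abs_self _).trans (hB z)) (sq_nonneg _)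
      rwa [Surf.surfAvg_const_mul, hn, mul_one] at this
    have h2 : -B ≤ surfAvg D (fun z => w z * g z * φ n z ^ 2) := by
      have := hmono (fun z => (-B) * φ n z ^ 2) _ ((i2' n).const_mul (-B)) (i2 n) fun z =>
        mul_le_mul_of_nonneg_right ((neg_le_neg (hB z)).trans (neg_abs_le _)) (sq_nonneg _)
      rwa [Surf.surfAvg_const_mul, hn, mul_one] at this
    exact sq_le_sq' h2 h1
  -- fourth moments with and without the weight
  obtain ⟨B', hB'⟩ := bdd_of_cocompact (f := fun z => 1 / w z)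
    (continuous_const.div hw fun z => (hw0 z).ne') (fun γ hγ z => by rw [hwi γ hγ]) hK
  have hB'0 : 0 ≤ B' := (abs_nonneg _).trans (hB' I)
  have h4le : ∀ n, surfAvg D (fun z => φ n z ^ 4) ≤ B' * surfAvg D (fun z => w z * φ n z ^ 4) := by
    intro n
    have h2 := hmono _ (fun z => B' * (w z * φ n z ^ 4)) (i4' n) ((i4 n).const_mul _) fun z => by
      have h3 : 1 / w z ≤ B' := (le_abs_self _).trans (hB' z)
      have h4 : 1 ≤ B' * w z := by
        rw [div_le_iff₀ (hw0 z)] at h3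
        exact h3
      have h5 : 0 ≤ φ n z ^ 4 := by positivity
      nlinarith
    rwa [Surf.surfAvg_const_mul] at h2
  set τ := statVar c x ^ 2 with hτ
  have hτ0 : 0 ≤ τ := sq_nonneg _
  -- nonnegativity of the right side
  have hE0 : ∀ n, 0 ≤ ∫ p, w p.1 * (∑ i, c i * localWave (φ n) (m n) (x i) p) ^ 4
      ∂(frameProb D) := fun n =>
    integral_nonneg fun p => mul_nonneg (hw0 _).le (by positivity)
  rcases hτ0.eq_or_lt with h0 | h0
  · refine Eventually.of_forall fun n => ?_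
    rw [← h0, mul_zero, zero_mul]
    have := mul_nonneg ha0 (hE0 n)
    linarith
  -- the parameters
  set δ : ℝ := min τ (ε / (6 * (B ^ 2 + 1))) with hδ
  have hδ0 : 0 < δ := lt_min h0 (by positivity)
  have hδτ : δ ≤ τ := min_le_left _ _
  have hδε : 3 * B ^ 2 * δ ≤ ε / 2 := by
    have h1 : δ ≤ ε / (6 * (B ^ 2 + 1)) := min_le_right _ _
    have h2 : 3 * B ^ 2 * δ ≤ 3 * B ^ 2 * (ε / (6 * (B ^ 2 + 1))) :=
      mul_le_mul_of_nonneg_left h1 (by positivity)
    refine h2.trans ?_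
    rw [mul_div_assoc', div_le_div_iff₀ (by positivity) (by norm_num)]
    linarith only [hε]
  have h1 := weighted_fourth hD hK (hasGood hDm hD hK) hφ hs hn hw hw0 hwi hg hgi
    (ε := ε / (2 * τ)) (by (clear * - hε h0; positivity))
  have h2 := lin_lower hDm hD hK hφ hs hw (fun z => (hw0 z).le) hwi c x
    (ε := δ / (B' + 1)) (by (clear * - h0 hε hB'0; positivity))
  filter_upwards [h1, h2] with n hn1 hn2
  set A4 := surfAvg D (fun z => w z * φ n z ^ 4) with hA4
  set b := surfAvg D (fun z => w z * g z * φ n z ^ 2) with hb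
  set E4 := ∫ p, w p.1 * (∑ i, c i * localWave (φ n) (m n) (x i) p) ^ 4 ∂(frameProb D) with hE4
  have hA40 : 0 ≤ A4 := Surf.surfAvg_nonneg fun z => mul_nonneg (hw0 z).le (by (clear * -; positivity))
  have h3 : (τ - δ) * A4 ≤ E4 := by
    have h4 : δ / (B' + 1) * surfAvg D (fun z => φ n z ^ 4) ≤ δ * A4 := by
      calc δ / (B' + 1) * surfAvg D (fun z => φ n z ^ 4) ≤ δ / (B' + 1) * (B' * A4) :=
            mul_le_mul_of_nonneg_left (h4le n) (by (clear * - h0 hε hB'0; positivity))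
        _ = δ * A4 * (B' / (B' + 1)) := by field_simp
        _ ≤ δ * A4 * 1 := by
            refine mul_le_mul_of_nonneg_left ?_ (by (clear * - h0 hε hA40; positivity))
            exact (div_le_one (by positivity)).2 (by linarith)
        _ = δ * A4 := mul_one _
    linarith
  have h5 : (τ - δ) * (a * A4) ≤ a * E4 := by
    calc (τ - δ) * (a * A4) = a * ((τ - δ) * A4) := by ring
      _ ≤ a * E4 := mul_le_mul_of_nonneg_left h3 ha0
  have h6 : (τ - δ) * (3 * b ^ 2 - ε / (2 * τ)) ≤ (τ - δ) * (a * A4) :=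
    mul_le_mul_of_nonneg_left hn1 (by linarith)
  have h7 : τ * (ε / (2 * τ)) = ε / 2 := by field_simp
  have h8 : 0 ≤ δ * (ε / (2 * τ)) := by (clear * - h0 hε; positivity)
  have h9 : 3 * b ^ 2 * δ ≤ ε / 2 := by
    refine le_trans ?_ hδε
    have := hcB n
    nlinarith only [hδ0, this]
  linarith only [h5, h6, h7, h8, h9]

end

end QE


end

section

/-!
# Closed surfaces of negative curvature: the final assembly

Sequences of eigenfunctions with bounded fourth moments have subsequences with microlocal limits; along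
these the mass and the fourth moments are controlled; the linear statistics of the local waves.
-/

open UpperHalfPlane MeasureTheory MatrixGroups Filter Topology Set Berry
open scoped ENNReal ContDiff

namespace QE

namespace NC

noncomputable section

variable {Γ : Subgroup SL(2, ℝ)} {ρ : ℍ → ℝ} {D : Set ℍ}

/-! ### eigenfunctions -/

theorem reig_comp {φ : ℕ → ℍ → ℝ} {m : ℕ → ℝ} (h : REigenSeq Γ ρ φ m) {s : ℕ → ℕ}
    (hs : Tendsto s atTop atTop) : REigenSeq Γ ρ (fun n => φ (s n)) (fun n => m (s n)) :=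
  ⟨fun _ => h.invariant _, fun _ => h.smooth _, fun _ => h.eigen _, h.tendsto.comp hs⟩

theorem reig_scale {φ : ℕ → ℍ → ℝ} {m : ℕ → ℝ} (h : REigenSeq Γ ρ φ m) (c : ℕ → ℝ) :
    REigenSeq Γ ρ (fun n z => c n * φ n z) m := by
  refine ⟨fun n γ hγ z => ?_, fun n => contDiffOn_const.mul (h.smooth n), fun n z => ?_,
    h.tendsto⟩
  · show c n * φ n (γ • z) = c n * φ n z
    rw [h.invariant _ γ hγ]
  · have h1 := h.eigen n z
    have hcd : ContDiffAt ℝ 2 (fun w : ℂ => φ n (ofComplex w)) (z : ℂ) :=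
      (h.smooth n).contDiffAt ((isOpen_lt continuous_const Complex.continuous_im).mem_nhds
        z.im_pos)
    have h2 : (Laplacian.laplacian (fun w : ℂ => c n * φ n (ofComplex w))) (z : ℂ)
        = c n * (Laplacian.laplacian (fun w : ℂ => φ n (ofComplex w))) (z : ℂ) := by
      have := InnerProductSpace.laplacian_smul (c n) hcd
      simpa [Pi.smul_def, smul_eq_mul] using this
    show z.im ^ 2 * (Laplacian.laplacian (fun w : ℂ => c n * φ n (ofComplex w))) (z : ℂ)
      = -(m n ^ 2 * Real.exp (2 * ρ z) * (c n * φ n z))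
    rw [h2]
    linear_combination (c n) * h1

/-! ### averages -/

/-- the average with respect to the area of the metric -/
theorem rAvg_eq_int (hDm : MeasurableSet D) (hρ : Continuous ρ) (f : ℍ → ℝ) :
    rAvg ρ D f = ((area ρ D).toReal)⁻¹ * ∫ z in D, Real.exp (2 * ρ z) * f z := by
  unfold rAvg ProbabilityTheory.cond
  rw [integral_smul_measure, smul_eq_mul, ENNReal.toReal_inv]
  congr 1
  unfold area
  have hm : Measurable fun z : ℍ => ENNReal.ofReal (Real.exp (2 * ρ z)) :=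
    ENNReal.measurable_ofReal.comp
      (Real.continuous_exp.comp (continuous_const.mul hρ)).measurable
  rw [restrict_withDensity hDm, integral_withDensity_eq_integral_toReal_smul hm
    (Eventually.of_forall fun z => ENNReal.ofReal_lt_top)]
  refine integral_congr_ae (Eventually.of_forall fun z => ?_)
  beta_reduce
  rw [ENNReal.toReal_ofReal (Real.exp_pos _).le, smul_eq_mul]

theorem geo_of [Countable Γ] (hDm : MeasurableSet D)
    (hD : IsFundamentalDomain Γ D (volume : Measure ℍ))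
    (hK : ∃ K : Set ℍ, IsCompact K ∧ ∀ z, ∃ γ ∈ Γ, γ • z ∈ K)
    (hρ : Continuous ρ) (hρΓ : ∀ γ ∈ Γ, ∀ z, ρ (γ • z) = ρ z) : Geo Γ ρ D :=
  ⟨hD, hDm, finite_of_cocompact hD hK, hρΓ, bdd_of_cocompact hρ hρΓ hK,
    unif_of_cocompact hρ hρΓ hK⟩

/-- averages with respect to the area of the metric and with respect to the hyperbolic area -/
theorem exists_rAvg_eq [Countable Γ] (hDm : MeasurableSet D)
    (hD : IsFundamentalDomain Γ D (volume : Measure ℍ))
    (hK : ∃ K : Set ℍ, IsCompact K ∧ ∀ z, ∃ γ ∈ Γ, γ • z ∈ K)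
    (hρ : Continuous ρ) (hρΓ : ∀ γ ∈ Γ, ∀ z, ρ (γ • z) = ρ z) :
    ∃ A : ℝ, 0 < A ∧ ∀ f : ℍ → ℝ, rAvg ρ D f = A * surfAvg D (fun z => Real.exp (2 * ρ z) * f z) := by
  have hg := geo_of hDm hD hK hρ hρΓ
  have hApos : 0 < (area ρ D).toReal := ENNReal.toReal_pos (area_ne_zero hg) (area_ne_top hg)
  have hv := Surf.vol_pos hD hK
  refine ⟨((area ρ D).toReal)⁻¹ * ((volume : Measure ℍ) D).toReal, by positivity, fun f => ?_⟩
  rw [rAvg_eq_int hDm hρ, Surf.surfAvg_eq]
  field_simp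

/-! ### sequences with microlocal limits -/

/-- a sequence of eigenfunctions with microlocal limits -/
structure LimSeqR (Γ : Subgroup SL(2, ℝ)) (ρ : ℍ → ℝ) (D : Set ℍ) (φ : ℕ → ℍ → ℝ) (m : ℕ → ℝ)
    (u : ℤ → ℂ → ℂ) (p : ℍ → ℝ) : Prop where
  set : Setup UH (gR ρ) (aR ρ) (fun n => 1 / m n) (fun n z => (φ n (ofComplex z) : ℂ))
  cont : ∀ n, Continuous (φ n)
  inv : ∀ n, ∀ γ ∈ Γ, ∀ z, φ n (γ • z) = φ n z
  one : ∀ n, 1 ≤ m n
  tend : Tendsto m atTop atTop
  meas : ∀ k, Measurable (u k)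
  loc : ∀ k, LocL2 UH (u k)
  lim : JLim UH (fun n => 1 / m n) (aR ρ) (fun n z => (φ n (ofComplex z) : ℂ)) u
  real : ∀ᵐ z ∂((volume : Measure ℂ).restrict UH), 0 ≤ (u 0 z).re ∧ (u 0 z).im = 0
  pm : Measurable p
  p0 : ∀ z, 0 ≤ p z
  pinv : ∀ γ ∈ Γ, ∀ z, p (γ • z) = p z
  pae : ∀ᵐ z : ℍ, p z = (u 0 z).re
  psq : IntegrableOn (fun z => p z ^ 2) D (volume : Measure ℍ)
  fej : ∀ ζ : ℂ → ℝ, Continuous ζ → HasCompactSupport ζ → tsupport ζ ⊆ UH → (∀ z, 0 ≤ ζ z) →
    Tendsto (fun N : ℕ => (1 / (N : ℝ)) * ∑ k ∈ Finset.Ioo (-(N : ℤ)) N,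
      ∫ z, ζ z * ‖u k z‖ ^ 2) atTop (𝓝 0)

/-- **Sequences with bounded fourth moments have subsequences with microlocal limits.** -/
theorem exists_limSeqR (hSet : StmtSetup) (hLim : StmtLim) (hA : StmtAtoms) [Countable Γ]
    (hDm : MeasurableSet D) (hD : IsFundamentalDomain Γ D (volume : Measure ℍ))
    (hF : Fac Γ ρ) (hpos : ∀ z, 0 < lapR ρ z) {φ : ℕ → ℍ → ℝ} {m : ℕ → ℝ}
    (hφ : REigenSeq Γ ρ φ m)
    (hs : ∀ n, ContDiffOn ℝ ∞ (fun w : ℂ => φ n (ofComplex w)) {w | 0 < w.im}) {C : ℝ}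
    (hC : ∀ n, surfAvg D (fun z => φ n z ^ 4) ≤ C) :
    ∃ s : ℕ → ℕ, StrictMono s ∧ ∃ u p,
      LimSeqR Γ ρ D (fun n => φ (s n)) (fun n => m (s n)) u p := by
  have hK := hF.cpt
  obtain ⟨N, hN⟩ := (hφ.tendsto.eventually_ge_atTop 1).exists_forall_of_atTop
  have hshift : Tendsto (fun n : ℕ => n + N) atTop atTop := tendsto_add_atTop_nat N
  have hc : ∀ n, Continuous (φ n) := fun n => continuous_of_smooth (hs n)
  have S := hSet Γ ρ (fun n => φ (n + N)) (fun n => m (n + N)) hF (reig_comp hφ hshift)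
    (fun n => hs _) (fun n => hN _ (Nat.le_add_left _ _))
    (bdd4_of_avg hD hK (fun n => hc (n + N)) (fun n => hφ.invariant _) (fun n => hC _))
  obtain ⟨s, hsm, u, hum, hu, hw⟩ := exists_limits S
  -- the subsequence
  set φ' : ℕ → ℍ → ℝ := fun n => φ (s n + N) with hφ'
  have hφs := reig_comp (reig_comp hφ hshift) hsm.tendsto_atTop
  have S' := hSet Γ ρ φ' (fun n => m (s n + N)) hF hφs (fun n => hs _)
    (fun n => hN _ (Nat.le_add_left _ _))
    (bdd4_of_avg hD hK (fun n => hc (s n + N)) (fun n => hφ.invariant _) (fun n => hC _))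
  have hw' : JLim UH (fun n => 1 / m (s n + N)) (aR ρ) (fun n z => (φ' n (ofComplex z) : ℂ)) u := by
    intro j k
    refine (hw j k).congr fun n z _ => ?_
    rw [← E_sub (fun n => 1 / m (n + N)) (aR ρ) (fun n z => (φ (n + N) (ofComplex z) : ℂ)) s j n z,
      ← E_sub (fun n => 1 / m (n + N)) (aR ρ) (fun n z => (φ (n + N) (ofComplex z) : ℂ)) s k n z]
  have hFam : LimFamR Γ ρ u := hLim Γ ρ _ _ u hF S' hum hu hw' (fun γ hγ n z hz => by
    have e : ofComplex (mob γ z) = γ • ofComplex z := by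
      unfold mob
      rw [ofComplex_apply]
    simp only [e, hφ', hφ.invariant _ γ hγ])
  obtain ⟨p, hpm, hp0, hpi, hpae, hpsq, hN'⟩ := hA Γ D ρ u hDm hD hF hpos hFam
  exact ⟨fun n => s n + N, fun a b hab => Nat.add_lt_add_right (hsm hab) N, u, p, S',
    fun n => hc _, fun n => hφ.invariant _, fun n => hN _ (Nat.le_add_left _ _),
    hφ.tendsto.comp (hshift.comp hsm.tendsto_atTop), hum, hu, hw', hFam.real, hpm, hp0, hpi, hpae,
    hpsq, hN'⟩

/-- the conclusions along a subsequence with microlocal limits: `p` is the weak limit of the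
squares, the fourth moments are at least `3 p²` -/
structure GoodR (Γ : Subgroup SL(2, ℝ)) (D : Set ℍ) (φ : ℕ → ℍ → ℝ) (p : ℍ → ℝ) : Prop where
  pI : IntegrableOn p D (volume : Measure ℍ)
  psq : IntegrableOn (fun z => p z ^ 2) D (volume : Measure ℍ)
  mass : ∀ f : ℍ → ℝ, Continuous f → (∀ γ ∈ Γ, ∀ z, f (γ • z) = f z) →
    Tendsto (fun n => surfAvg D (fun z => f z * φ n z ^ 2)) atTop
      (𝓝 (surfAvg D (fun z => f z * p z)))
  four : ∀ f : ℍ → ℝ, Continuous f → (∀ z, 0 ≤ f z) → (∀ γ ∈ Γ, ∀ z, f (γ • z) = f z) → ∀ ε > 0,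
    ∀ᶠ n in atTop, 3 * surfAvg D (fun z => f z * p z ^ 2) - ε
      ≤ surfAvg D (fun z => f z * φ n z ^ 4)

/-- **The moments of order two and four** along a sequence with microlocal limits. -/
theorem LimSeqR.good [Countable Γ] (hD : IsFundamentalDomain Γ D (volume : Measure ℍ))
    (hK : ∃ K : Set ℍ, IsCompact K ∧ ∀ z, ∃ γ ∈ Γ, γ • z ∈ K) {φ : ℕ → ℍ → ℝ} {m : ℕ → ℝ}
    {u : ℤ → ℂ → ℂ} {p : ℍ → ℝ} (L : LimSeqR Γ ρ D φ m u p) : GoodR Γ D φ p := by
  have S := L.set
  have hc := L.cont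
  have hinv := L.inv
  have hum := L.meas
  have hu := L.loc
  have hw := L.lim
  have hpm := L.pm
  have hpi := L.pinv
  have hpsq := L.psq
  have hN := L.fej
  have hfin : (volume : Measure ℍ) D ≠ ⊤ := finite_of_cocompact hD hK
  have hpI : IntegrableOn p D (volume : Measure ℍ) := by
    have : IsFiniteMeasure ((volume : Measure ℍ).restrict D) := ⟨by
      rw [Measure.restrict_apply_univ]; exact hfin.lt_top⟩
    have h2 : MemLp p 2 ((volume : Measure ℍ).restrict D) :=
      (memLp_two_iff_integrable_sq hpm.aestronglyMeasurable).2 hpsq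
    exact h2.integrable (by norm_num)
  have hpw : ∀ᵐ z ∂((volume : Measure ℂ).restrict UH), u 0 z = (p (ofComplex z) : ℂ) := by
    have h1 : ∀ᵐ z ∂((volume : Measure ℂ).restrict UH), p (ofComplex z) = (u 0 z).re := by
      refine ae_UH ?_
      filter_upwards [L.pae] with z hz
      rw [ofComplex_apply]; exact hz
    filter_upwards [h1, L.real] with z h1 h2
    rw [h1]
    exact Complex.ext rfl (by rw [h2.2, Complex.ofReal_im])
  have hw0 : WLim UH (fun n z => (φ n (ofComplex z) : ℂ) * (φ n (ofComplex z) : ℂ)) (u 0) :=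
    S.lim_zero hu hw 0
  refine ⟨hpI, hpsq, fun f hf hfi =>
    mass_limit hD hK hc hinv hw0 hpm hpi hpI hpw hf hfi, ?_⟩
  -- fourth moments
  intro f hf hf0 hfi ε hε
  obtain ⟨ζ, h1, h2, h3, h4, h5⟩ := Surf.exists_test_int hD hK
  obtain ⟨B, hB⟩ := bdd_of_cocompact hf hfi hK
  have hco : ∀ n, ContinuousOn (fun z => φ n (ofComplex z)) UH := fun n w hw =>
    ((hc n).continuousAt.comp
      (contMDiffAt_ofComplex (n := 0) (show 0 < w.im from hw)).continuousAt).continuousWithinAt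
  have hζf : Continuous fun w => ζ w * f (ofComplex w) := Surf.continuous_cut_mul h1 h3 hf
  have hζs : HasCompactSupport fun w => ζ w * f (ofComplex w) := h2.mul_right
  have hζsub : tsupport (fun w => ζ w * f (ofComplex w)) ⊆ UH :=
    (closure_mono (Function.support_mul_subset_left _ _)).trans h3
  have hv := Surf.vol_pos hD hK
  have hlow := cont_lower isOpen_UH (F := fun n z => φ n (ofComplex z) ^ 4)
    (fun n => (hco n).pow 4) (fun n z => by positivity) (p2 := fun z => ‖u 0 z‖ ^ 2)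
    (fun z => by positivity) (fun K hKc hKU => by
      have := hu 0 K hKc hKU
      exact (memLp_two_iff_integrable_sq_norm this.1).1 this)
    (fun η hηs hηc hηU hη0 ε hε => by
      have h6 := local_atomless S hum hu hw (S.lim_conj hu hw) hηs hηc hηU hη0
        (hN η hηs.continuous hηc hηU hη0) hε
      simpa only [Complex.ofReal_re] using h6) hζf hζs hζsub
    (fun w => mul_nonneg (h4 w) (hf0 _)) (ε := ε * ((volume : Measure ℍ) D).toReal)
    (by positivity)
  filter_upwards [hlow] with n hn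
  have s1 : ∫ z, ζ z * f (ofComplex z) * φ n (ofComplex z) ^ 4 = ∫ z in D, f z * φ n z ^ 4 := by
    have hcn : Continuous fun z => f z * φ n z ^ 4 := hf.mul ((hc n).pow 4)
    have hin : ∀ γ ∈ Γ, ∀ z, f (γ • z) * φ n (γ • z) ^ 4 = f z * φ n z ^ 4 := fun γ hγ z => by
      rw [hfi γ hγ, hinv n γ hγ]
    have h6 := (h5 _ hcn.measurable (Surf.integrableOn_of_invariant hD hK hcn hin) hin).2
    rw [← h6]
    refine integral_congr_ae (Eventually.of_forall fun z => ?_)
    beta_reduce; ring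
  have s2 : ∫ z, ζ z * f (ofComplex z) * ‖u 0 z‖ ^ 2 = ∫ z in D, f z * p z ^ 2 := by
    have hpf : IntegrableOn (fun z => f z * p z ^ 2) D (volume : Measure ℍ) := by
      refine Integrable.bdd_mul hpsq hf.aestronglyMeasurable.restrict
        (Eventually.of_forall fun z => ?_) (c := B)
      rw [Real.norm_eq_abs]; exact hB z
    have hin : ∀ γ ∈ Γ, ∀ z, f (γ • z) * p (γ • z) ^ 2 = f z * p z ^ 2 := fun γ hγ z => by
      rw [hfi γ hγ, hpi γ hγ]
    have h6 := (h5 (fun z => f z * p z ^ 2) (hf.measurable.mul (hpm.pow_const 2)) hpf hin).2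
    rw [← h6]
    refine integral_congr_ae ?_
    have hpw' := (ae_restrict_iff' isOpen_UH.measurableSet).1 hpw
    filter_upwards [hpw'] with z hz
    by_cases hzU : z ∈ UH
    · rw [hz hzU, Complex.norm_real, Real.norm_eq_abs, sq_abs]
      ring
    · have h0 : ζ z = 0 := image_eq_zero_of_notMem_tsupport fun hh => hzU (h3 hh)
      rw [h0]; ring
  rw [s1, s2] at hn
  rw [Surf.surfAvg_eq, Surf.surfAvg_eq]
  have e1 : 3 * (((volume : Measure ℍ) D).toReal⁻¹ * ∫ z in D, f z * p z ^ 2) - ε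
      = ((volume : Measure ℍ) D).toReal⁻¹ * (3 * (∫ z in D, f z * p z ^ 2)
        - ε * ((volume : Measure ℍ) D).toReal) := by
    field_simp
  rw [e1]
  exact mul_le_mul_of_nonneg_left hn (by positivity)

/-- **The weighted form of the lower bound for the fourth moments**, with respect to the hyperbolic
area. -/
theorem weighted_fourthR [Countable Γ] (hD : IsFundamentalDomain Γ D (volume : Measure ℍ))
    (hK : ∃ K : Set ℍ, IsCompact K ∧ ∀ z, ∃ γ ∈ Γ, γ • z ∈ K)
    {φ : ℕ → ℍ → ℝ} (hc : ∀ n, Continuous (φ n)) (hinv : ∀ n, ∀ γ ∈ Γ, ∀ z, φ n (γ • z) = φ n z)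
    (H : ∀ s : ℕ → ℕ, StrictMono s → (∃ C, ∀ n, surfAvg D (fun z => φ (s n) z ^ 4) ≤ C) →
      ∃ t : ℕ → ℕ, StrictMono t ∧ ∃ p, GoodR Γ D (fun n => φ (s (t n))) p)
    {B₂ : ℝ} (hn : ∀ n, surfAvg D (fun z => φ n z ^ 2) ≤ B₂)
    {w g : ℍ → ℝ} (hw : Continuous w) (hw0 : ∀ z, 0 < w z) (hwi : ∀ γ ∈ Γ, ∀ z, w (γ • z) = w z)
    (hg : Continuous g) (hgi : ∀ γ ∈ Γ, ∀ z, g (γ • z) = g z) {ε : ℝ} (hε : 0 < ε) :
    ∀ᶠ n in atTop, 3 * surfAvg D (fun z => w z * g z * φ n z ^ 2) ^ 2 - ε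
      ≤ surfAvg D (fun z => w z * g z ^ 2) * surfAvg D (fun z => w z * φ n z ^ 4) := by
  by_contra hcon
  rw [Filter.not_eventually] at hcon
  obtain ⟨s, hsm, hsn⟩ := extraction_of_frequently_atTop hcon
  simp only [not_le] at hsn
  set a := surfAvg D (fun z => w z * g z ^ 2) with ha
  -- integrability
  have hInt : ∀ f : ℍ → ℝ, Continuous f → (∀ γ ∈ Γ, ∀ z, f (γ • z) = f z) →
      IntegrableOn f D (volume : Measure ℍ) := fun f hf hfi =>
    Surf.integrableOn_of_invariant hD hK hf hfi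
  have iwg : IntegrableOn (fun z => w z * g z ^ 2) D (volume : Measure ℍ) :=
    hInt _ (hw.mul (hg.pow 2)) fun γ hγ z => by rw [hwi γ hγ, hgi γ hγ]
  have i2 : ∀ n, IntegrableOn (fun z => w z * g z * φ n z ^ 2) D (volume : Measure ℍ) := fun n =>
    hInt _ ((hw.mul hg).mul ((hc n).pow 2)) fun γ hγ z => by
      rw [hwi γ hγ, hgi γ hγ, hinv n γ hγ]
  have i4 : ∀ n, IntegrableOn (fun z => w z * φ n z ^ 4) D (volume : Measure ℍ) := fun n =>
    hInt _ (hw.mul ((hc n).pow 4)) fun γ hγ z => by rw [hwi γ hγ, hinv n γ hγ]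
  -- the Cauchy-Schwarz inequality for `φ n`
  have hcs : ∀ n, surfAvg D (fun z => w z * g z * φ n z ^ 2) ^ 2
      ≤ a * surfAvg D (fun z => w z * φ n z ^ 4) := by
    intro n
    have e : (fun z => w z * (φ n z ^ 2) ^ 2) = fun z => w z * φ n z ^ 4 := by
      funext z; ring
    have h1 := avg_cs (D := D) (w := w) (g := g) (q := fun z => φ n z ^ 2) (fun z => (hw0 z).le) iwg
      (i2 n) (by rw [e]; exact i4 n)
    rw [e] at h1
    exact h1
  have ha0 : 0 ≤ a := Surf.surfAvg_nonneg fun z => mul_nonneg (hw0 z).le (sq_nonneg _)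
  -- boundedness of the second moments
  obtain ⟨B, hB⟩ := bdd_of_cocompact (hw.mul hg) (fun γ hγ z => by
    show w (γ • z) * g (γ • z) = w z * g z
    rw [hwi γ hγ, hgi γ hγ]) hK
  have hB0 : 0 ≤ B := (abs_nonneg _).trans (hB I)
  have i2' : ∀ n, IntegrableOn (fun z => φ n z ^ 2) D (volume : Measure ℍ) := fun n =>
    hInt _ ((hc n).pow 2) fun γ hγ z => by rw [hinv n γ hγ]
  have hv := Surf.vol_pos hD hK
  have hmono : ∀ f f' : ℍ → ℝ, IntegrableOn f D (volume : Measure ℍ) →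
      IntegrableOn f' D (volume : Measure ℍ) → (∀ z, f z ≤ f' z) → surfAvg D f ≤ surfAvg D f' := by
    intro f f' hf hf' hle
    rw [Surf.surfAvg_eq, Surf.surfAvg_eq]
    exact mul_le_mul_of_nonneg_left (integral_mono hf hf' hle) (by positivity)
  have hcB : ∀ n, surfAvg D (fun z => w z * g z * φ n z ^ 2) ^ 2 ≤ (B * B₂) ^ 2 := by
    intro n
    have h1 : surfAvg D (fun z => w z * g z * φ n z ^ 2) ≤ B * B₂ := by
      have := hmono _ (fun z => B * φ n z ^ 2) (i2 n) ((i2' n).const_mul B) fun z =>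
        mul_le_mul_of_nonneg_right ((le_abs_self _).trans (hB z)) (sq_nonneg _)
      rw [Surf.surfAvg_const_mul] at this
      exact this.trans (mul_le_mul_of_nonneg_left (hn n) hB0)
    have h2 : -(B * B₂) ≤ surfAvg D (fun z => w z * g z * φ n z ^ 2) := by
      have := hmono (fun z => (-B) * φ n z ^ 2) _ ((i2' n).const_mul (-B)) (i2 n) fun z =>
        mul_le_mul_of_nonneg_right ((neg_le_neg (hB z)).trans (neg_abs_le _)) (sq_nonneg _)
      rw [Surf.surfAvg_const_mul] at this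
      have h3 := mul_le_mul_of_nonneg_left (hn n) hB0
      linarith
    exact sq_le_sq' h2 h1
  rcases ha0.eq_or_lt with h0 | h0
  · have h1 := hcs (s 0)
    have h2 := hsn 0
    rw [← h0, zero_mul] at h1 h2
    linarith [sq_nonneg (surfAvg D (fun z => w z * g z * φ (s 0) z ^ 2))]
  -- the fourth moments are bounded
  obtain ⟨B', hB'⟩ := bdd_of_cocompact (f := fun z => 1 / w z)
    (continuous_const.div hw fun z => (hw0 z).ne') (fun γ hγ z => by rw [hwi γ hγ]) hK
  have hb4 : ∀ n, surfAvg D (fun z => φ (s n) z ^ 4) ≤ B' * (3 * (B * B₂) ^ 2 / a) := by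
    intro n
    have h1 : surfAvg D (fun z => w z * φ (s n) z ^ 4) ≤ 3 * (B * B₂) ^ 2 / a := by
      rw [le_div_iff₀ h0]
      have h2 := hsn n
      have h3 := hcB (s n)
      linarith only [hε, h2, h3]
    have hB'0 : 0 ≤ B' := (abs_nonneg _).trans (hB' I)
    have i4' : IntegrableOn (fun z => φ (s n) z ^ 4) D (volume : Measure ℍ) :=
      hInt _ ((hc _).pow 4) fun γ hγ z => by rw [hinv _ γ hγ]
    have h2 := hmono _ (fun z => B' * (w z * φ (s n) z ^ 4)) i4' ((i4 _).const_mul _) fun z => by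
      have h3 : 1 / w z ≤ B' := (le_abs_self _).trans (hB' z)
      have h4 : 1 ≤ B' * w z := by
        rw [div_le_iff₀ (hw0 z)] at h3
        exact h3
      have h5 : 0 ≤ φ (s n) z ^ 4 := by positivity
      nlinarith only [h4, h5]
    rw [Surf.surfAvg_const_mul] at h2
    exact h2.trans (mul_le_mul_of_nonneg_left h1 hB'0)
  obtain ⟨t, ht, p, hgd⟩ := H s hsm ⟨_, hb4⟩
  obtain ⟨Bw, hBw⟩ := bdd_of_cocompact hw hwi hK
  have j2 : IntegrableOn (fun z => w z * g z * p z) D (volume : Measure ℍ) :=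
    Integrable.bdd_mul hgd.pI (hw.mul hg).aestronglyMeasurable.restrict
      (Eventually.of_forall fun z => by rw [Real.norm_eq_abs]; exact hB z)
  have j3 : IntegrableOn (fun z => w z * p z ^ 2) D (volume : Measure ℍ) :=
    Integrable.bdd_mul hgd.psq hw.aestronglyMeasurable.restrict
      (Eventually.of_forall fun z => by rw [Real.norm_eq_abs]; exact hBw z)
  have hcsp := avg_cs (D := D) (w := w) (g := g) (q := p) (fun z => (hw0 z).le) iwg j2 j3
  have hm := hgd.mass (fun z => w z * g z) (hw.mul hg) (fun γ hγ z => by rw [hwi γ hγ, hgi γ hγ])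
  have h1 := hgd.four w hw (fun z => (hw0 z).le) hwi (ε / (3 * a)) (by positivity)
  have h2 := ((hm.pow 2).const_mul 3).eventually_lt_const
    (show 3 * surfAvg D (fun z => w z * g z * p z) ^ 2
      < 3 * surfAvg D (fun z => w z * g z * p z) ^ 2 + ε / 3 by linarith)
  obtain ⟨n, hn1, hn2⟩ := (h1.and h2).exists
  have hn3 := hsn (t n)
  have e1 : a * (ε / (3 * a)) = ε / 3 := by field_simp
  have e2 := mul_le_mul_of_nonneg_left hn1 ha0
  rw [mul_sub, e1] at e2
  linarith only [hε, hcsp, hn2, hn3, e2]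

/-! ### linear statistics -/

theorem wt_aR {z : ℂ} (hz : z ∈ UH) : wt (gw ρ) z = aR ρ z := by
  have h1 : wt (gw ρ) z = (z.im : ℂ) * (Real.exp (-ρ (ofComplex z)) : ℂ) :=
    wt_gw (show 0 < z.im from hz)
  rw [h1]
  unfold aR ro
  push_cast
  rfl

/-- the setting of the correlations of the local waves -/
theorem LimSeqR.ws [Countable Γ] (hDm : MeasurableSet D)
    (hD : IsFundamentalDomain Γ D (volume : Measure ℍ)) (hF : Fac Γ ρ) {φ : ℕ → ℍ → ℝ} {m : ℕ → ℝ}
    {u : ℤ → ℂ → ℂ} {p : ℍ → ℝ} (L : LimSeqR Γ ρ D φ m u p) :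
    WS Γ ρ D φ m (fun n => 1 / m n) (gR ρ) where
  geo := geo_of hDm hD hF.cpt (continuous_of_smooth hF.smooth) hF.inv
  coc := hF.cpt
  rc := continuous_of_smooth hF.smooth
  pc := L.cont
  pinv := L.inv
  mpos := fun n => by have := L.one n; linarith
  mlim := L.tend
  hm := fun _ => rfl
  set := L.set.congr_a fun z hz => wt_aR hz

variable {φ : ℕ → ℍ → ℝ} {m : ℕ → ℝ} {u : ℤ → ℂ → ℂ} {p : ℍ → ℝ} {r : ℕ}

/-- the rotation averages in the two settings -/
theorem LimSeqR.rot_eq [Countable Γ] (hDm : MeasurableSet D)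
    (hD : IsFundamentalDomain Γ D (volume : Measure ℍ)) (hF : Fac Γ ρ)
    (L : LimSeqR Γ ρ D φ m u p)
    (c : Fin r → ℝ) (x : Fin r → ℂ) {ψ : ℂ → ℝ} (hψ : ContDiff ℝ ∞ ψ)
    (hψs : HasCompactSupport ψ) (hψU : tsupport ψ ⊆ HH) :
    ∀ᶠ n in atTop, (∑ q : Fin 4 → Fin r, (∏ j, (c (q j) : ℂ))
        * Setup.rotP (fun n => 1 / m n) (aR ρ) (fun n z => (φ n (ofComplex z) : ℂ))
          (fun z => (ψ z : ℂ)) (fun i => frXi (fun n => 1 / m n) (em ρ) (x i)) q n).re
      = ∑ q : Fin 4 → Fin r, (∏ j, c (q j))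
        * ∫ z, ψ z * angProd ρ (φ n) (m n) (fun j => x (q j)) (ofComplex z) := by
  have W := L.ws hDm hD hF
  have h1 : ∀ᶠ n in atTop, ∀ q : Fin 4 → Fin r, _ :=
    eventually_all.2 fun q => W.ang_eq (fun j => x (q j)) hψ hψs hψU
  filter_upwards [h1] with n hn
  rw [Complex.re_sum]
  refine Finset.sum_congr rfl fun q _ => ?_
  have e1 : Setup.rotP (fun n => 1 / m n) (aR ρ) (fun n z => (φ n (ofComplex z) : ℂ))
          (fun z => (ψ z : ℂ)) (fun i => frXi (fun n => 1 / m n) (em ρ) (x i)) q n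
      = ∫ θ, (∫ z, (ψ z : ℂ) * ∏ i, (φ n (ofComplex (z + ((1 / m n : ℝ) : ℂ) * wt (gw ρ) z
        * frXi (fun n => 1 / m n) (em ρ) (x (q i)) n θ z)) : ℂ)) ∂ang := by
    unfold Setup.rotP
    refine integral_congr_ae (Eventually.of_forall fun θ => ?_)
    refine integral_congr_ae (Eventually.of_forall fun z => ?_)
    beta_reduce
    by_cases hz : z ∈ UH
    · rw [wt_aR hz]
    · have : ψ z = 0 := image_eq_zero_of_notMem_tsupport fun hh => hz (hψU hh)
      rw [this]; simp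
  rw [e1, hn q, ← Complex.ofReal_prod, ← Complex.ofReal_mul, Complex.ofReal_re]

/-- **The lower bound for linear statistics.** -/
theorem LimSeqR.lin_lower [Countable Γ] (hDm : MeasurableSet D)
    (hD : IsFundamentalDomain Γ D (volume : Measure ℍ)) (hF : Fac Γ ρ)
    (L : LimSeqR Γ ρ D φ m u p)
    {w : ℍ → ℝ} (hw : Continuous w) (hw0 : ∀ z, 0 ≤ w z) (hwi : ∀ γ ∈ Γ, ∀ z, w (γ • z) = w z)
    (c : Fin r → ℝ) (x : Fin r → ℂ) {ε : ℝ} (hε : 0 < ε) :
    ∀ᶠ n in atTop, statVar c x ^ 2 * rAvg ρ D (fun z => w z * φ n z ^ 4) - ε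
      ≤ ∫ p, w p.1 * (∑ i, c i * rWave ρ (φ n) (m n) (x i) p) ^ 4 ∂(rFrameProb ρ D) := by
  have W := L.ws hDm hD hF
  have key := W.stat_ge hw hw0 hwi 1 (statVar c x ^ 2) c x (fun ψ hψ hψs hψU hψ0 ε hε => by
    obtain ⟨δ, hδ, hδU⟩ := exists_thick hψs hψU
    have h1 := Setup.lin_local_lower L.set ⟨L.loc, L.lim⟩ hψs hδ hδU (κ := 2) two_ne_zero c x
      (fun i => frXi (fun n => 1 / m n) (em ρ) (x i))
      (fun i => (W.disp hψs hψU (x i)).congr_a fun z hz => (wt_aR (hψU hz)).symm)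
      hψ hψs le_rfl hψ0 (L.fej ψ hψ.continuous hψs hψU hψ0) hε
    filter_upwards [h1, L.rot_eq hDm hD hF c x hψ hψs hψU] with n n1 n2
    rw [n2, int_re_four (fun z => φ n (ofComplex z))] at n1
    linarith only [n1]) hε
  filter_upwards [key] with n hn
  linarith

/-- **The lower bound for the fourth moments of linear statistics**, for all sequences. -/
theorem lin_lowerR (hSet : StmtSetup) (hLim : StmtLim) (hA : StmtAtoms) [Countable Γ]
    (hDm : MeasurableSet D) (hD : IsFundamentalDomain Γ D (volume : Measure ℍ))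
    (hF : Fac Γ ρ) (hpos : ∀ z, 0 < lapR ρ z)
    (hφ : REigenSeq Γ ρ φ m)
    (hs : ∀ n, ContDiffOn ℝ ∞ (fun w : ℂ => φ n (ofComplex w)) {w | 0 < w.im})
    {w : ℍ → ℝ} (hw : Continuous w) (hw0 : ∀ z, 0 ≤ w z) (hwi : ∀ γ ∈ Γ, ∀ z, w (γ • z) = w z)
    (c : Fin r → ℝ) (x : Fin r → ℂ) {ε : ℝ} (hε : 0 < ε) :
    ∀ᶠ n in atTop, statVar c x ^ 2 * rAvg ρ D (fun z => w z * φ n z ^ 4)
        - ε * surfAvg D (fun z => φ n z ^ 4)
      ≤ ∫ p, w p.1 * (∑ i, c i * rWave ρ (φ n) (m n) (x i) p) ^ 4 ∂(rFrameProb ρ D) := by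
  have hK := hF.cpt
  by_contra hcon
  rw [Filter.not_eventually] at hcon
  obtain ⟨s, hsm, hsn⟩ := extraction_of_frequently_atTop hcon
  simp only [not_le] at hsn
  have hc : ∀ n, Continuous (φ n) := fun n => continuous_of_smooth (hs n)
  set A : ℕ → ℝ := fun n => surfAvg D (fun z => φ (s n) z ^ 4) with hA'
  have hA0 : ∀ n, 0 ≤ A n := fun n => integral_nonneg fun z => by positivity
  have hA1 : ∀ n, 0 < A n := by
    intro n
    rcases (hA0 n).eq_or_lt with h0 | h0
    · exfalso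
      have h1 := eq_zero_of_avg hD hK (hc (s n)) (hφ.invariant _) h0.symm
      have h2 : φ (s n) = fun _ => 0 := funext h1
      have h3 := hsn n
      rw [h2] at h3
      unfold rAvg surfAvg rWave at h3
      simp at h3
    · exact h0
  set b : ℕ → ℝ := fun n => (rt4 (A n))⁻¹ with hbdef
  have hrt : ∀ n, rt4 (A n) ^ 4 = A n := fun n => rt4_pow (hA0 n)
  have hrt0 : ∀ n, 0 < rt4 (A n) := by
    intro n
    rcases (rt4_nonneg (A n)).eq_or_lt with h2 | h2
    · exfalso
      have h3 := hrt n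
      rw [← h2] at h3
      have := hA1 n
      norm_num at h3
      linarith
    · exact h2
  have hb0 : ∀ n, 0 < b n := fun n => inv_pos.2 (hrt0 n)
  have hb4 : ∀ n, b n ^ 4 * A n = 1 := by
    intro n
    rw [hbdef]
    simp only
    rw [inv_pow, hrt, inv_mul_cancel₀ (hA1 n).ne']
  -- the normalised sequence
  have hE := reig_comp hφ hsm.tendsto_atTop
  have hψE := reig_scale hE b
  have hψs : ∀ n, ContDiffOn ℝ ∞ (fun w : ℂ => b n * φ (s n) (ofComplex w)) {w | 0 < w.im} :=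
    fun n => contDiffOn_const.mul (hs (s n))
  have e2 : ∀ n, surfAvg D (fun z => (b n * φ (s n) z) ^ 4) = b n ^ 4 * A n := by
    intro n
    rw [hA']
    unfold surfAvg
    rw [← integral_const_mul]
    congr 1; funext z; ring
  have h4 : ∀ n, surfAvg D (fun z => (b n * φ (s n) z) ^ 4) = 1 := fun n => by rw [e2, hb4]
  obtain ⟨t, ht, u, p, L⟩ := exists_limSeqR hSet hLim hA hDm hD hF hpos hψE hψs
    (fun n => (h4 n).le)
  obtain ⟨n, hn⟩ := (L.lin_lower hDm hD hF hw hw0 hwi c x hε).exists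
  have h5 := hsn (t n)
  set k := t n with hk
  have e1 : rAvg ρ D (fun z => w z * (b k * φ (s k) z) ^ 4)
      = b k ^ 4 * rAvg ρ D (fun z => w z * φ (s k) z ^ 4) := by
    unfold rAvg
    rw [← integral_const_mul]
    congr 1; funext z; ring
  have e3 : ∫ p, w p.1 * (∑ i, c i * rWave ρ (fun z => b k * φ (s k) z) (m (s k)) (x i) p) ^ 4
        ∂(rFrameProb ρ D)
      = b k ^ 4 * ∫ p, w p.1 * (∑ i, c i * rWave ρ (φ (s k)) (m (s k)) (x i) p) ^ 4
        ∂(rFrameProb ρ D) := by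
    rw [← integral_const_mul]
    congr 1; funext p
    have : ∑ i, c i * rWave ρ (fun z => b k * φ (s k) z) (m (s k)) (x i) p
        = b k * ∑ i, c i * rWave ρ (φ (s k)) (m (s k)) (x i) p := by
      rw [Finset.mul_sum]
      refine Finset.sum_congr rfl fun i _ => ?_
      unfold rWave; ring
    rw [this]; ring
  rw [e1, e3] at hn
  have hb4' : 0 < b k ^ 4 := by have := hb0 k; (clear * - this; positivity)
  have h6 := mul_lt_mul_of_pos_left h5 hb4'
  have h7 := hb4 k
  have h8 : b k ^ 4 * (statVar c x ^ 2 * rAvg ρ D (fun z => w z * φ (s k) z ^ 4) - ε * A k)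
      = statVar c x ^ 2 * (b k ^ 4 * rAvg ρ D (fun z => w z * φ (s k) z ^ 4))
        - ε * (b k ^ 4 * A k) := by ring
  rw [h7] at h8
  have h9 : surfAvg D (fun z => φ (s k) z ^ 4) = A k := rfl
  rw [h9] at h6
  linarith only [hn, h6, h8]

/-- **The final result.** -/
theorem stmtFinal (hSet : StmtSetup) (hLim : StmtLim) (hA : StmtAtoms) : StmtFinal := by
  intro Γ _ ρ hρs hρΓ hpos D hDm hD hK φ m hφ hs hn w g hw hw0 hwi hg hgi r c x ε hε
  have hF : Fac Γ ρ := ⟨hρs, hρΓ, hK⟩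
  have hρc : Continuous ρ := continuous_of_smooth hρs
  have hc : ∀ n, Continuous (φ n) := fun n => continuous_of_smooth (hs n)
  have e : statVar c x = ∑ i, ∑ j, c i * c j * waveK (x i - x j) := by
    unfold statVar
    rw [← Fintype.sum_prod_type (f := fun q : Fin r × Fin r => c q.1 * c q.2 * waveK (x q.1 - x q.2))]
    refine Fintype.sum_equiv (finTwoArrowEquiv (Fin r)) _ _ fun q => ?_
    simp [Fin.prod_univ_two, finTwoArrowEquiv]
  rw [← e]
  obtain ⟨A, hA0, hAv⟩ := exists_rAvg_eq hDm hD hK hρc hρΓ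
  -- the weight of the area
  set v : ℍ → ℝ := fun z => Real.exp (2 * ρ z) with hv
  have hvc : Continuous v := Real.continuous_exp.comp (continuous_const.mul hρc)
  have hv0 : ∀ z, 0 < v z := fun z => Real.exp_pos _
  have hvi : ∀ γ ∈ Γ, ∀ z, v (γ • z) = v z := fun γ hγ z => by simp only [hv, hρΓ γ hγ]
  set w' : ℍ → ℝ := fun z => v z * w z with hw'
  have hw'c : Continuous w' := hvc.mul hw
  have hw'0 : ∀ z, 0 < w' z := fun z => mul_pos (hv0 z) (hw0 z)
  have hw'i : ∀ γ ∈ Γ, ∀ z, w' (γ • z) = w' z := fun γ hγ z => by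
    simp only [hw', hvi γ hγ, hwi γ hγ]
  have a1 : rAvg ρ D (fun z => w z * g z ^ 2) = A * surfAvg D (fun z => w' z * g z ^ 2) := by
    rw [hAv]; congr 2; funext z; simp only [hw', hv]; ring
  have a2 : ∀ n, rAvg ρ D (fun z => w z * g z * φ n z ^ 2)
      = A * surfAvg D (fun z => w' z * g z * φ n z ^ 2) := fun n => by
    rw [hAv]; congr 2; funext z; simp only [hw', hv]; ring
  have a4 : ∀ n, rAvg ρ D (fun z => w z * φ n z ^ 4)
      = A * surfAvg D (fun z => w' z * φ n z ^ 4) := fun n => by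
    rw [hAv]; congr 2; funext z; simp only [hw', hv]; ring
  have hInt : ∀ f : ℍ → ℝ, Continuous f → (∀ γ ∈ Γ, ∀ z, f (γ • z) = f z) →
      IntegrableOn f D (volume : Measure ℍ) := fun f hf hfi =>
    Surf.integrableOn_of_invariant hD hK hf hfi
  have hmono : ∀ f f' : ℍ → ℝ, IntegrableOn f D (volume : Measure ℍ) →
      IntegrableOn f' D (volume : Measure ℍ) → (∀ z, f z ≤ f' z) → surfAvg D f ≤ surfAvg D f' := by
    intro f f' hf hf' hle
    rw [Surf.surfAvg_eq, Surf.surfAvg_eq]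
    exact mul_le_mul_of_nonneg_left (integral_mono hf hf' hle) (by positivity)
  have i2 : ∀ n, IntegrableOn (fun z => w' z * g z * φ n z ^ 2) D (volume : Measure ℍ) := fun n =>
    hInt _ ((hw'c.mul hg).mul ((hc n).pow 2)) fun γ hγ z => by
      rw [hw'i γ hγ, hgi γ hγ, hφ.invariant n γ hγ]
  have i2' : ∀ n, IntegrableOn (fun z => φ n z ^ 2) D (volume : Measure ℍ) := fun n =>
    hInt _ ((hc n).pow 2) fun γ hγ z => by rw [hφ.invariant n γ hγ]
  have iv2 : ∀ n, IntegrableOn (fun z => v z * φ n z ^ 2) D (volume : Measure ℍ) := fun n =>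
    hInt _ (hvc.mul ((hc n).pow 2)) fun γ hγ z => by rw [hvi γ hγ, hφ.invariant n γ hγ]
  have i4 : ∀ n, IntegrableOn (fun z => w' z * φ n z ^ 4) D (volume : Measure ℍ) := fun n =>
    hInt _ (hw'c.mul ((hc n).pow 4)) fun γ hγ z => by rw [hw'i γ hγ, hφ.invariant n γ hγ]
  have i4' : ∀ n, IntegrableOn (fun z => φ n z ^ 4) D (volume : Measure ℍ) := fun n =>
    hInt _ ((hc n).pow 4) fun γ hγ z => by rw [hφ.invariant n γ hγ]
  -- the second moments are bounded
  obtain ⟨Bv, hBv⟩ := bdd_of_cocompact (f := fun z => 1 / v z)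
    (continuous_const.div hvc fun z => (hv0 z).ne') (fun γ hγ z => by rw [hvi γ hγ]) hK
  have hBv0 : 0 ≤ Bv := (abs_nonneg _).trans (hBv I)
  have hn2 : ∀ n, surfAvg D (fun z => φ n z ^ 2) ≤ Bv * A⁻¹ := by
    intro n
    have h1 : A * surfAvg D (fun z => v z * φ n z ^ 2) = 1 := by
      rw [← hn n, hAv]
    have h2 : surfAvg D (fun z => v z * φ n z ^ 2) = A⁻¹ := by
      field_simp
      linarith
    have h3 := hmono _ (fun z => Bv * (v z * φ n z ^ 2)) (i2' n) ((iv2 n).const_mul _) fun z => by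
      have h3 : 1 / v z ≤ Bv := (le_abs_self _).trans (hBv z)
      have h4 : 1 ≤ Bv * v z := by
        rw [div_le_iff₀ (hv0 z)] at h3
        exact h3
      have h5 : 0 ≤ φ n z ^ 2 := by positivity
      nlinarith
    rw [Surf.surfAvg_const_mul, h2] at h3
    exact h3
  obtain ⟨B, hB⟩ := bdd_of_cocompact (hw'c.mul hg) (fun γ hγ z => by
    show w' (γ • z) * g (γ • z) = w' z * g z
    rw [hw'i γ hγ, hgi γ hγ]) hK
  have hB0 : 0 ≤ B := (abs_nonneg _).trans (hB I)
  set B₃ : ℝ := A * (B * (Bv * A⁻¹)) with hB₃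
  have hcB : ∀ n, rAvg ρ D (fun z => w z * g z * φ n z ^ 2) ^ 2 ≤ B₃ ^ 2 := by
    intro n
    rw [a2]
    have h1 : surfAvg D (fun z => w' z * g z * φ n z ^ 2) ≤ B * (Bv * A⁻¹) := by
      have := hmono _ (fun z => B * φ n z ^ 2) (i2 n) ((i2' n).const_mul B) fun z =>
        mul_le_mul_of_nonneg_right ((le_abs_self _).trans (hB z)) (sq_nonneg _)
      rw [Surf.surfAvg_const_mul] at this
      exact this.trans (mul_le_mul_of_nonneg_left (hn2 n) hB0)
    have h2 : -(B * (Bv * A⁻¹)) ≤ surfAvg D (fun z => w' z * g z * φ n z ^ 2) := by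
      have := hmono (fun z => (-B) * φ n z ^ 2) _ ((i2' n).const_mul (-B)) (i2 n) fun z =>
        mul_le_mul_of_nonneg_right ((neg_le_neg (hB z)).trans (neg_abs_le _)) (sq_nonneg _)
      rw [Surf.surfAvg_const_mul] at this
      have h3 := mul_le_mul_of_nonneg_left (hn2 n) hB0
      linarith
    have h3 := mul_le_mul_of_nonneg_left h1 hA0.le
    have h4 := mul_le_mul_of_nonneg_left h2 hA0.le
    refine sq_le_sq' ?_ h3
    rw [hB₃]; linarith only [h4]
  -- fourth moments with and without the weight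
  obtain ⟨B', hB'⟩ := bdd_of_cocompact (f := fun z => 1 / w' z)
    (continuous_const.div hw'c fun z => (hw'0 z).ne') (fun γ hγ z => by rw [hw'i γ hγ]) hK
  have hB'0 : 0 ≤ B' := (abs_nonneg _).trans (hB' I)
  have h4le : ∀ n, surfAvg D (fun z => φ n z ^ 4)
      ≤ B' * A⁻¹ * rAvg ρ D (fun z => w z * φ n z ^ 4) := by
    intro n
    have h2 := hmono _ (fun z => B' * (w' z * φ n z ^ 4)) (i4' n) ((i4 n).const_mul _) fun z => by
      have h3 : 1 / w' z ≤ B' := (le_abs_self _).trans (hB' z)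
      have h4 : 1 ≤ B' * w' z := by
        rw [div_le_iff₀ (hw'0 z)] at h3
        exact h3
      have h5 : 0 ≤ φ n z ^ 4 := by (clear * -; positivity)
      nlinarith only [h4, h5]
    rw [Surf.surfAvg_const_mul] at h2
    refine h2.trans (le_of_eq ?_)
    rw [a4]
    field_simp
  -- nonnegativity
  set a := rAvg ρ D (fun z => w z * g z ^ 2) with ha
  have ha0 : 0 ≤ a := integral_nonneg fun z => mul_nonneg (hw0 z).le (sq_nonneg _)
  set τ := statVar c x ^ 2 with hτ
  have hτ0 : 0 ≤ τ := sq_nonneg _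
  have hE0 : ∀ n, 0 ≤ ∫ p, w p.1 * (∑ i, c i * rWave ρ (φ n) (m n) (x i) p) ^ 4
      ∂(rFrameProb ρ D) := fun n =>
    integral_nonneg fun p => mul_nonneg (hw0 _).le (by (clear * -; positivity))
  rcases hτ0.eq_or_lt with h0 | h0
  · refine Eventually.of_forall fun n => ?_
    rw [← h0, mul_zero, zero_mul]
    have := mul_nonneg ha0 (hE0 n)
    linarith
  -- the parameters
  set δ : ℝ := min τ (ε / (6 * (B₃ ^ 2 + 1))) with hδ
  have hδ0 : 0 < δ := lt_min h0 (by (clear * - hε; positivity))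
  have hδτ : δ ≤ τ := min_le_left _ _
  have hδε : 3 * B₃ ^ 2 * δ ≤ ε / 2 := by
    have h1 : δ ≤ ε / (6 * (B₃ ^ 2 + 1)) := min_le_right _ _
    have h2 : 3 * B₃ ^ 2 * δ ≤ 3 * B₃ ^ 2 * (ε / (6 * (B₃ ^ 2 + 1))) :=
      mul_le_mul_of_nonneg_left h1 (by (clear * -; positivity))
    refine h2.trans ?_
    rw [mul_div_assoc', div_le_div_iff₀ (by (clear * -; positivity)) (by norm_num)]
    linarith only [hε]
  have hG : ∀ s : ℕ → ℕ, StrictMono s → (∃ C, ∀ n, surfAvg D (fun z => φ (s n) z ^ 4) ≤ C) →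
      ∃ t : ℕ → ℕ, StrictMono t ∧ ∃ p, GoodR Γ D (fun n => φ (s (t n))) p := by
    rintro s hsm ⟨C, hC⟩
    obtain ⟨t, ht, u, p, L⟩ := exists_limSeqR hSet hLim hA hDm hD hF hpos
      (reig_comp hφ hsm.tendsto_atTop) (fun n => hs _) hC
    exact ⟨t, ht, p, L.good hD hK⟩
  have h1 := weighted_fourthR hD hK hc hφ.invariant hG hn2 hw'c hw'0 hw'i hg hgi
    (ε := ε / (2 * τ) / A ^ 2) (by (clear * - hε h0 hA0; positivity))
  have h2 := lin_lowerR hSet hLim hA hDm hD hF hpos hφ hs hw (fun z => (hw0 z).le) hwi c x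
    (ε := δ / (B' * A⁻¹ + 1)) (by (clear * - h0 hε hB'0 hA0; positivity))
  filter_upwards [h1, h2] with n hn1 hn2'
  -- the inequality for the averages with respect to the area of the metric
  have hn1' : 3 * rAvg ρ D (fun z => w z * g z * φ n z ^ 2) ^ 2 - ε / (2 * τ)
      ≤ a * rAvg ρ D (fun z => w z * φ n z ^ 4) := by
    rw [a1, a2, a4]
    have h3 := mul_le_mul_of_nonneg_left hn1 (sq_nonneg A)
    have h4 : A ^ 2 * (3 * surfAvg D (fun z => w' z * g z * φ n z ^ 2) ^ 2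
        - ε / (2 * τ) / A ^ 2)
        = 3 * (A * surfAvg D (fun z => w' z * g z * φ n z ^ 2)) ^ 2 - ε / (2 * τ) := by
      field_simp
    rw [h4] at h3
    linarith only [h3]
  set A4 := rAvg ρ D (fun z => w z * φ n z ^ 4) with hA4
  set b := rAvg ρ D (fun z => w z * g z * φ n z ^ 2) with hb
  set E4 := ∫ p, w p.1 * (∑ i, c i * rWave ρ (φ n) (m n) (x i) p) ^ 4 ∂(rFrameProb ρ D) with hE4
  have hA40 : 0 ≤ A4 := integral_nonneg fun z => mul_nonneg (hw0 z).le (by positivity)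
  have hBA0 : 0 ≤ B' * A⁻¹ := by positivity
  have h3 : (τ - δ) * A4 ≤ E4 := by
    have h4 : δ / (B' * A⁻¹ + 1) * surfAvg D (fun z => φ n z ^ 4) ≤ δ * A4 := by
      calc δ / (B' * A⁻¹ + 1) * surfAvg D (fun z => φ n z ^ 4)
          ≤ δ / (B' * A⁻¹ + 1) * (B' * A⁻¹ * A4) :=
            mul_le_mul_of_nonneg_left (h4le n) (by (clear * - h0 hε hB'0 hA0; positivity))
        _ = δ * A4 * (B' * A⁻¹ / (B' * A⁻¹ + 1)) := by ring
        _ ≤ δ * A4 * 1 := by
            refine mul_le_mul_of_nonneg_left ?_ (by (clear * - h0 hε hA40; positivity))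
            exact (div_le_one (by positivity)).2 (by linarith)
        _ = δ * A4 := mul_one _
    linarith only [hn2', h4]
  have h5 : (τ - δ) * (a * A4) ≤ a * E4 := by
    calc (τ - δ) * (a * A4) = a * ((τ - δ) * A4) := by ring
      _ ≤ a * E4 := mul_le_mul_of_nonneg_left h3 ha0
  have h6 : (τ - δ) * (3 * b ^ 2 - ε / (2 * τ)) ≤ (τ - δ) * (a * A4) :=
    mul_le_mul_of_nonneg_left hn1' (by linarith)
  have h7 : τ * (ε / (2 * τ)) = ε / 2 := by field_simp
  have h8 : 0 ≤ δ * (ε / (2 * τ)) := by (clear * - h0 hε; positivity)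
  have h9 : 3 * b ^ 2 * δ ≤ ε / 2 := by
    refine le_trans ?_ hδε
    have := hcB n
    nlinarith only [hδ0, this]
  linarith only [h5, h6, h7, h8, h9]

end

end NC

end QE


end

section

/-!
The two and three point functions of the local waves, for every sequence of eigenfunctions on a
compact hyperbolic surface (helper70).
-/

open UpperHalfPlane MeasureTheory MatrixGroups Filter Topology Set Berry
open scoped ENNReal ContDiff

namespace QE

noncomputable section

variable {Γ : Subgroup SL(2, ℝ)} {D : Set ℍ}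

theorem four_rpow {A b : ℝ} (hA : 0 ≤ A) (hb : 0 ≤ b) (k : ℕ) :
    (b ^ 4 * A) ^ ((k : ℝ) / 4) = b ^ k * A ^ ((k : ℝ) / 4) := by
  rw [Real.mul_rpow (by positivity) hA, ← Real.rpow_natCast b 4, ← Real.rpow_mul hb]
  congr 1
  rw [← Real.rpow_natCast b k]
  congr 1
  push_cast
  ring

/-- **Two-point functions**, for every sequence of eigenfunctions. -/
theorem two_all [Countable Γ]
    (hDm : MeasurableSet D) (hD : IsFundamentalDomain Γ D (volume : Measure ℍ))
    (hK : ∃ K : Set ℍ, IsCompact K ∧ ∀ z, ∃ γ ∈ Γ, γ • z ∈ K) {φ : ℕ → ℍ → ℝ} {m : ℕ → ℝ}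
    (hφ : EigenSeq Γ φ m)
    (hs : ∀ n, ContDiffOn ℝ ∞ (fun w : ℂ => φ n (ofComplex w)) {w | 0 < w.im})
    (x y : ℂ) {ε : ℝ} (hε : 0 < ε) :
    ∀ᶠ n in atTop, |(∫ p, localWave (φ n) (m n) x p * localWave (φ n) (m n) y p ∂(frameProb D))
        - waveK (x - y) * surfAvg D (fun z => φ n z ^ 2)|
      ≤ ε * surfAvg D (fun z => φ n z ^ 4) ^ (((2 : ℕ) : ℝ) / 4) := by
  refine every_seq hDm hD hK hφ hs (Q := fun f k =>
    |(∫ p, localWave f k x p * localWave f k y p ∂(frameProb D))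
        - waveK (x - y) * surfAvg D (fun z => f z ^ 2)|
      ≤ ε * surfAvg D (fun z => f z ^ 4) ^ (((2 : ℕ) : ℝ) / 4)) ?_ ?_ ?_
  · intro f k b hb h
    have hA : 0 ≤ surfAvg D fun z => f z ^ 4 := integral_nonneg fun z => by positivity
    have e1 : surfAvg D (fun z => (b * f z) ^ 4) = b ^ 4 * surfAvg D (fun z => f z ^ 4) := by
      unfold surfAvg
      rw [← integral_const_mul]
      congr 1; funext z; ring
    have e2 : surfAvg D (fun z => (b * f z) ^ 2) = b ^ 2 * surfAvg D (fun z => f z ^ 2) := by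
      unfold surfAvg
      rw [← integral_const_mul]
      congr 1; funext z; ring
    have e3 : ∫ p, localWave (fun z => b * f z) k x p * localWave (fun z => b * f z) k y p
        ∂(frameProb D) = b ^ 2 * ∫ p, localWave f k x p * localWave f k y p ∂(frameProb D) := by
      rw [← integral_const_mul]
      congr 1; funext p
      unfold localWave; ring
    beta_reduce at h
    rw [e1, e2, e3, four_rpow hA hb.le] at h
    have e4 : b ^ 2 * (∫ p, localWave f k x p * localWave f k y p ∂(frameProb D))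
        - waveK (x - y) * (b ^ 2 * surfAvg D fun z => f z ^ 2)
        = b ^ 2 * ((∫ p, localWave f k x p * localWave f k y p ∂(frameProb D))
          - waveK (x - y) * surfAvg D fun z => f z ^ 2) := by ring
    have hb2 : 0 < b ^ 2 := by positivity
    rw [e4, abs_mul, abs_of_pos hb2, mul_left_comm] at h
    exact le_of_mul_le_mul_left h hb2
  · intro k
    unfold surfAvg localWave
    simp
  · intro φ' m' u L h4
    have h1 := (Metric.tendsto_nhds.1 (L.two hDm hD hK x y)) ε hε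
    filter_upwards [h1] with n hn
    rw [dist_zero_right, Real.norm_eq_abs] at hn
    rw [h4, Real.one_rpow, mul_one]
    exact hn.le

/-- **Three-point functions**, for every sequence of eigenfunctions. -/
theorem three_all [Countable Γ]
    (hDm : MeasurableSet D) (hD : IsFundamentalDomain Γ D (volume : Measure ℍ))
    (hK : ∃ K : Set ℍ, IsCompact K ∧ ∀ z, ∃ γ ∈ Γ, γ • z ∈ K) {φ : ℕ → ℍ → ℝ} {m : ℕ → ℝ}
    (hφ : EigenSeq Γ φ m)
    (hs : ∀ n, ContDiffOn ℝ ∞ (fun w : ℂ => φ n (ofComplex w)) {w | 0 < w.im})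
    (x y w : ℂ) {ε : ℝ} (hε : 0 < ε) :
    ∀ᶠ n in atTop, |∫ p, localWave (φ n) (m n) x p * localWave (φ n) (m n) y p
        * localWave (φ n) (m n) w p ∂(frameProb D)|
      ≤ ε * surfAvg D (fun z => φ n z ^ 4) ^ (((3 : ℕ) : ℝ) / 4) := by
  refine every_seq hDm hD hK hφ hs (Q := fun f k =>
    |∫ p, localWave f k x p * localWave f k y p * localWave f k w p ∂(frameProb D)|
      ≤ ε * surfAvg D (fun z => f z ^ 4) ^ (((3 : ℕ) : ℝ) / 4)) ?_ ?_ ?_
  · intro f k b hb h
    have hA : 0 ≤ surfAvg D fun z => f z ^ 4 := integral_nonneg fun z => by positivity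
    have e1 : surfAvg D (fun z => (b * f z) ^ 4) = b ^ 4 * surfAvg D (fun z => f z ^ 4) := by
      unfold surfAvg
      rw [← integral_const_mul]
      congr 1; funext z; ring
    have e3 : ∫ p, localWave (fun z => b * f z) k x p * localWave (fun z => b * f z) k y p
          * localWave (fun z => b * f z) k w p ∂(frameProb D)
        = b ^ 3 * ∫ p, localWave f k x p * localWave f k y p * localWave f k w p
          ∂(frameProb D) := by
      rw [← integral_const_mul]
      congr 1; funext p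
      unfold localWave; ring
    have hb3 : 0 < b ^ 3 := by positivity
    beta_reduce at h
    rw [e1, e3, four_rpow hA hb.le, abs_mul, abs_of_pos hb3, mul_left_comm] at h
    exact le_of_mul_le_mul_left h hb3
  · intro k
    unfold surfAvg localWave
    simp
  · intro φ' m' u L h4
    have h1 := (Metric.tendsto_nhds.1 (L.three hDm hD hK x y w)) ε hε
    filter_upwards [h1] with n hn
    rw [dist_zero_right, Real.norm_eq_abs] at hn
    rw [h4, Real.one_rpow, mul_one]
    exact hn.le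

end

end QE


end

section

/-!
# Closed surfaces of negative curvature: three-point functions

The three-point functions of the local waves, for every sequence of eigenfunctions.
-/

open UpperHalfPlane MeasureTheory MatrixGroups Filter Topology Set Berry
open scoped ENNReal ContDiff

namespace QE

namespace NC

noncomputable section

variable {Γ : Subgroup SL(2, ℝ)} {ρ : ℍ → ℝ} {D : Set ℍ}
variable {φ : ℕ → ℍ → ℝ} {m : ℕ → ℝ} {u : ℤ → ℂ → ℂ} {p : ℍ → ℝ} {k : ℕ}

/-- the rotation averages in the two settings -/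
theorem LimSeqR.ang_eq [Countable Γ] (hDm : MeasurableSet D)
    (hD : IsFundamentalDomain Γ D (volume : Measure ℍ)) (hF : Fac Γ ρ)
    (L : LimSeqR Γ ρ D φ m u p)
    (x : Fin k → ℂ) {ψ : ℂ → ℝ} (hψ : ContDiff ℝ ∞ ψ)
    (hψs : HasCompactSupport ψ) (hψU : tsupport ψ ⊆ HH) :
    ∀ᶠ n in atTop, ∫ θ, (∫ z, (ψ z : ℂ) * ∏ i, (φ n (ofComplex (z + ((1 / m n : ℝ) : ℂ) * aR ρ z
        * frXi (fun n => 1 / m n) (em ρ) (x i) n θ z)) : ℂ)) ∂ang
      = ((∫ z, ψ z * angProd ρ (φ n) (m n) x (ofComplex z) : ℝ) : ℂ) := by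
  have W := L.ws hDm hD hF
  filter_upwards [W.ang_eq x hψ hψs hψU] with n hn
  rw [← hn]
  refine integral_congr_ae (Eventually.of_forall fun θ => ?_)
  refine integral_congr_ae (Eventually.of_forall fun z => ?_)
  beta_reduce
  by_cases hz : z ∈ UH
  · rw [wt_aR hz]
  · have : ψ z = 0 := image_eq_zero_of_notMem_tsupport fun hh => hz (hψU hh)
    rw [this]; simp

/-- **The three-point functions vanish in the limit.** -/
theorem LimSeqR.three [Countable Γ] (hDm : MeasurableSet D)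
    (hD : IsFundamentalDomain Γ D (volume : Measure ℍ)) (hF : Fac Γ ρ)
    (L : LimSeqR Γ ρ D φ m u p) (x y w : ℂ) :
    Tendsto (fun n => ∫ p, rWave ρ (φ n) (m n) x p * rWave ρ (φ n) (m n) y p
      * rWave ρ (φ n) (m n) w p ∂(rFrameProb ρ D)) atTop (𝓝 0) := by
  have W := L.ws hDm hD hF
  have key := W.wrap_gen ![x, y, w] (prod_le_four (by norm_num)) (G := fun _ _ => 0)
    (fun _ => continuous_const) (fun _ _ _ _ => rfl) (fun K _ _ => ⟨0, by simp⟩)
    (fun ψ hψ hψs hψU => by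
      obtain ⟨δ, hδ, hδU⟩ := exists_thick hψs hψU
      have h1 := L.set.three_local_var ⟨L.loc, L.lim⟩ (fun ρ hρ hρ0 => by
          have hρr : Continuous ρ := Complex.continuous_re.comp hρ.smooth.continuous
          have hρt : tsupport (fun z => (ρ z : ℂ)) = tsupport ρ := Test.tsupport_eq ρ
          exact L.fej ρ hρr (by
            have := hρ.supp
            unfold HasCompactSupport at this ⊢
            rwa [hρt] at this) (by rw [← hρt]; exact hρ.sub) hρ0) hψs hδ hδU (q := 2) two_ne_zero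
        ![x, y, w] (fun i => frXi (fun n => 1 / m n) (em ρ) (![x, y, w] i))
        (fun i => (W.disp hψs hψU (![x, y, w] i)).congr_a fun z hz => (wt_aR (hψU hz)).symm)
        (test_of_smooth hψ hψs hψU) (by rw [Test.tsupport_eq])
      have h2 : Tendsto (fun n => (((∫ z, ψ z * angProd ρ (φ n) (m n) ![x, y, w]
          (ofComplex z)) - ∫ z, ψ z * 0 : ℝ) : ℂ)) atTop (𝓝 0) := by
        refine h1.congr' ?_
        filter_upwards [L.ang_eq hDm hD hF ![x, y, w] hψ hψs hψU] with n n1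
        simp only [mul_zero, integral_zero, sub_zero]
        rw [← n1]
        refine integral_congr_ae (Eventually.of_forall fun θ => ?_)
        refine integral_congr_ae (Eventually.of_forall fun z => ?_)
        beta_reduce
        rw [Fin.prod_univ_three]
      have h3 := (Complex.continuous_re.tendsto _).comp h2
      simpa only [Function.comp_def, Complex.ofReal_re, Complex.zero_re] using h3)
  refine key.congr fun n => ?_
  simp only [Fin.prod_univ_three, Matrix.cons_val_zero, Matrix.cons_val_one,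
    Matrix.cons_val]
  unfold rAvg
  simp

/-- **Three-point functions**, for every sequence of eigenfunctions. -/
theorem three_allR (hSet : StmtSetup) (hLim : StmtLim) (hA : StmtAtoms) [Countable Γ]
    (hDm : MeasurableSet D) (hD : IsFundamentalDomain Γ D (volume : Measure ℍ))
    (hF : Fac Γ ρ) (hpos : ∀ z, 0 < lapR ρ z)
    (hφ : REigenSeq Γ ρ φ m)
    (hs : ∀ n, ContDiffOn ℝ ∞ (fun w : ℂ => φ n (ofComplex w)) {w | 0 < w.im})
    (x y w : ℂ) {ε : ℝ} (hε : 0 < ε) :
    ∀ᶠ n in atTop, |∫ p, rWave ρ (φ n) (m n) x p * rWave ρ (φ n) (m n) y p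
        * rWave ρ (φ n) (m n) w p ∂(rFrameProb ρ D)|
      ≤ ε * rAvg ρ D (fun z => φ n z ^ 4) ^ ((3 : ℝ) / 4) := by
  have hK := hF.cpt
  have hρc : Continuous ρ := continuous_of_smooth hF.smooth
  -- comparison of the averages
  obtain ⟨A₀, hA₀, hAv⟩ := exists_rAvg_eq hDm hD hK hρc hF.inv
  have hvc : Continuous fun z => Real.exp (2 * ρ z) :=
    Real.continuous_exp.comp (continuous_const.mul hρc)
  obtain ⟨Bv, hBv⟩ := bdd_of_cocompact (f := fun z => 1 / Real.exp (2 * ρ z))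
    (continuous_const.div hvc fun z => (Real.exp_pos _).ne')
    (fun γ hγ z => by rw [hF.inv γ hγ]) hK
  have hBv0 : 0 ≤ Bv := (abs_nonneg _).trans (hBv I)
  have hc : ∀ n, Continuous (φ n) := fun n => continuous_of_smooth (hs n)
  have hcomp : ∀ n, surfAvg D (fun z => φ n z ^ 4)
      ≤ Bv * A₀⁻¹ * rAvg ρ D (fun z => φ n z ^ 4) := by
    intro n
    have i1 : IntegrableOn (fun z => φ n z ^ 4) D (volume : Measure ℍ) :=
      Surf.integrableOn_of_invariant hD hK ((hc n).pow 4) fun γ hγ z => by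
        rw [hφ.invariant n γ hγ]
    have i2 : IntegrableOn (fun z => Bv * (Real.exp (2 * ρ z) * φ n z ^ 4)) D
        (volume : Measure ℍ) :=
      (Surf.integrableOn_of_invariant hD hK (hvc.mul ((hc n).pow 4)) fun γ hγ z => by
        show Real.exp (2 * ρ (γ • z)) * φ n (γ • z) ^ 4 = Real.exp (2 * ρ z) * φ n z ^ 4
        rw [hφ.invariant n γ hγ, hF.inv γ hγ]).const_mul _
    have h1 : surfAvg D (fun z => φ n z ^ 4)
        ≤ surfAvg D (fun z => Bv * (Real.exp (2 * ρ z) * φ n z ^ 4)) := by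
      rw [Surf.surfAvg_eq, Surf.surfAvg_eq]
      refine mul_le_mul_of_nonneg_left (integral_mono i1 i2 fun z => ?_) (by positivity)
      have h3 : 1 / Real.exp (2 * ρ z) ≤ Bv := (le_abs_self _).trans (hBv z)
      have h4 : 1 ≤ Bv * Real.exp (2 * ρ z) := by
        rw [div_le_iff₀ (Real.exp_pos _)] at h3
        exact h3
      have h5 : 0 ≤ φ n z ^ 4 := by positivity
      beta_reduce
      nlinarith
    rw [Surf.surfAvg_const_mul] at h1
    rw [hAv]
    refine h1.trans (le_of_eq ?_)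
    field_simp
  by_contra hcon
  rw [Filter.not_eventually] at hcon
  obtain ⟨s, hsm, hsn⟩ := extraction_of_frequently_atTop hcon
  simp only [not_le] at hsn
  set A : ℕ → ℝ := fun n => surfAvg D (fun z => φ (s n) z ^ 4) with hA'
  have hA0 : ∀ n, 0 ≤ A n := fun n => integral_nonneg fun z => by positivity
  have hA1 : ∀ n, 0 < A n := by
    intro n
    rcases (hA0 n).eq_or_lt with h0 | h0
    · exfalso
      have h1 := eq_zero_of_avg hD hK (hc (s n)) (hφ.invariant _) h0.symm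
      have h2 : φ (s n) = fun _ => 0 := funext h1
      have h3 := hsn n
      rw [h2] at h3
      unfold rAvg rWave at h3
      simp at h3
    · exact h0
  set b : ℕ → ℝ := fun n => (rt4 (A n))⁻¹ with hbdef
  have hrt : ∀ n, rt4 (A n) ^ 4 = A n := fun n => rt4_pow (hA0 n)
  have hrt0 : ∀ n, 0 < rt4 (A n) := by
    intro n
    rcases (rt4_nonneg (A n)).eq_or_lt with h2 | h2
    · exfalso
      have h3 := hrt n
      rw [← h2] at h3
      have := hA1 n
      norm_num at h3
      linarith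
    · exact h2
  have hb0 : ∀ n, 0 < b n := fun n => inv_pos.2 (hrt0 n)
  have hb4 : ∀ n, b n ^ 4 * A n = 1 := by
    intro n
    rw [hbdef]
    simp only
    rw [inv_pow, hrt, inv_mul_cancel₀ (hA1 n).ne']
  -- the normalised sequence
  have hE := reig_comp hφ hsm.tendsto_atTop
  have hψE := reig_scale hE b
  have hψs : ∀ n, ContDiffOn ℝ ∞ (fun w : ℂ => b n * φ (s n) (ofComplex w)) {w | 0 < w.im} :=
    fun n => contDiffOn_const.mul (hs (s n))
  have e2 : ∀ n, surfAvg D (fun z => (b n * φ (s n) z) ^ 4) = b n ^ 4 * A n := by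
    intro n
    rw [hA']
    unfold surfAvg
    rw [← integral_const_mul]
    congr 1; funext z; ring
  have h4 : ∀ n, surfAvg D (fun z => (b n * φ (s n) z) ^ 4) = 1 := fun n => by rw [e2, hb4]
  obtain ⟨t, ht, u, p, L⟩ := exists_limSeqR hSet hLim hA hDm hD hF hpos hψE hψs
    (fun n => (h4 n).le)
  set M : ℝ := (Bv * A₀⁻¹ + 1) ^ ((3 : ℝ) / 4) with hM
  have hM0 : 0 < M := Real.rpow_pos_of_pos (by positivity) _
  have h1 := (Metric.tendsto_nhds.1 (L.three hDm hD hF x y w)) (ε / M) (by positivity)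
  obtain ⟨n, hn⟩ := h1.exists
  rw [dist_zero_right, Real.norm_eq_abs] at hn
  have h5 := hsn (t n)
  set k := t n with hk
  set I3 : ℝ := ∫ p, rWave ρ (φ (s k)) (m (s k)) x p * rWave ρ (φ (s k)) (m (s k)) y p
    * rWave ρ (φ (s k)) (m (s k)) w p ∂(rFrameProb ρ D) with hI3
  set R : ℝ := rAvg ρ D (fun z => φ (s k) z ^ 4) with hR
  have hR0 : 0 ≤ R := integral_nonneg fun z => by positivity
  have e3 : ∫ p, rWave ρ (fun z => b k * φ (s k) z) (m (s k)) x p
        * rWave ρ (fun z => b k * φ (s k) z) (m (s k)) y p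
        * rWave ρ (fun z => b k * φ (s k) z) (m (s k)) w p ∂(rFrameProb ρ D) = b k ^ 3 * I3 := by
    rw [hI3, ← integral_const_mul]
    congr 1; funext p
    unfold rWave; ring
  rw [e3] at hn
  have hb3 : 0 < b k ^ 3 := by have := hb0 k; positivity
  rw [abs_mul, abs_of_pos hb3] at hn
  -- the comparison
  have h6 : (1 : ℝ) ≤ (Bv * A₀⁻¹ + 1) * (b k ^ 4 * R) := by
    have h7 := hb4 k
    have h8 : A k ≤ Bv * A₀⁻¹ * R := hcomp (s k)
    have hb4' : 0 < b k ^ 4 := by have := hb0 k; positivity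
    calc (1 : ℝ) = b k ^ 4 * A k := h7.symm
      _ ≤ b k ^ 4 * (Bv * A₀⁻¹ * R) := mul_le_mul_of_nonneg_left h8 hb4'.le
      _ ≤ b k ^ 4 * ((Bv * A₀⁻¹ + 1) * R) :=
          mul_le_mul_of_nonneg_left (mul_le_mul_of_nonneg_right (by linarith only []) hR0) hb4'.le
      _ = _ := by ring
  have h9 : (1 : ℝ) ≤ M * (b k ^ 3 * R ^ ((3 : ℝ) / 4)) := by
    have h10 : (1 : ℝ) ≤ ((Bv * A₀⁻¹ + 1) * (b k ^ 4 * R)) ^ ((3 : ℝ) / 4) :=
      Real.one_le_rpow h6 (by norm_num)
    rw [Real.mul_rpow (by positivity) (by have := hb0 k; (clear * - this hR0; positivity))] at h10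
    have h11 := four_rpow hR0 (hb0 k).le 3
    rw [show (((3 : ℕ) : ℝ) / 4) = (3 : ℝ) / 4 by norm_num] at h11
    rw [h11] at h10
    exact h10
  have h12 : b k ^ 3 * (ε * R ^ ((3 : ℝ) / 4)) < ε / M :=
    (mul_lt_mul_of_pos_left h5 hb3).trans hn
  rw [lt_div_iff₀ hM0] at h12
  nlinarith only [h12, hε, h9]

end

end NC

end QE


end

section

/-!
# Theorem N from the dyadic bound and the diagonal bound (module NC_N)
-/

open MeasureTheory Filter Topology Set
open UpperHalfPlane hiding I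
open scoped ContDiff MatrixGroups ENNReal

namespace QE

namespace NC

noncomputable section

namespace TN

theorem dd_cont : Continuous fun p : SL(2, ℝ) × SL(2, ℝ) => dd p.1 p.2 := by
  have h : Continuous fun p : SL(2, ℝ) × SL(2, ℝ) => p.1⁻¹ * p.2 :=
    continuous_fst.inv.mul continuous_snd
  have he : ∀ i j : Fin 2, Continuous fun p : SL(2, ℝ) × SL(2, ℝ) => (p.1⁻¹ * p.2) i j :=
    fun i j => (continuous_subtype_val.comp h).matrix_elem i j
  unfold dd nn
  exact ((((he 0 0).sub continuous_const).abs.add (he 0 1).abs).add (he 1 0).abs).add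
    ((he 1 1).sub continuous_const).abs

variable [MeasurableSpace SL(2, ℝ)]

theorem PM_mono {D : Set ℍ} {ν : Measure SL(2, ℝ)} {P Q : SL(2, ℝ) → SL(2, ℝ) → Prop}
    (h : ∀ v w, P v w → Q v w) : PM D ν P ≤ PM D ν Q :=
  lintegral_mono fun v => measure_mono fun w hw => h v w hw

theorem PM_false {D : Set ℍ} {ν : Measure SL(2, ℝ)} {P : SL(2, ℝ) → SL(2, ℝ) → Prop}
    (h : ∀ v w, ¬ P v w) : PM D ν P = 0 := by
  unfold PM
  have e : ∀ v, {w | P v w} = ∅ := fun v => by
    ext w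
    simp [h v w]
  simp [e]

theorem PM_cover {D : Set ℍ} {ν : Measure SL(2, ℝ)} [SFinite ν]
    {Q P₀ : SL(2, ℝ) → SL(2, ℝ) → Prop} {P : ℕ → SL(2, ℝ) → SL(2, ℝ) → Prop}
    (hm₀ : MeasurableSet {q : SL(2, ℝ) × SL(2, ℝ) | P₀ q.1 q.2})
    (hm : ∀ l, MeasurableSet {q : SL(2, ℝ) × SL(2, ℝ) | P l q.1 q.2})
    (h : ∀ v w, Q v w → P₀ v w ∨ ∃ l, P l v w) :
    PM D ν Q ≤ PM D ν P₀ + ∑' l, PM D ν (P l) := by
  have m₀ : Measurable fun v => ν {w | P₀ v w} := measurable_measure_prodMk_left hm₀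
  have m : ∀ l, Measurable fun v => ν {w | P l v w} := fun l =>
    measurable_measure_prodMk_left (hm l)
  calc PM D ν Q ≤ ∫⁻ v in Berry.Fd D, (ν {w | P₀ v w} + ∑' l, ν {w | P l v w}) ∂ν := by
        refine lintegral_mono fun v => ?_
        calc ν {w | Q v w} ≤ ν ({w | P₀ v w} ∪ ⋃ l, {w | P l v w}) := by
              refine measure_mono fun w hw => ?_
              rcases h v w hw with h1 | ⟨l, h1⟩
              · exact Or.inl h1
              · exact Or.inr (mem_iUnion.2 ⟨l, h1⟩)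
          _ ≤ ν {w | P₀ v w} + ν (⋃ l, {w | P l v w}) := measure_union_le _ _
          _ ≤ _ := add_le_add le_rfl (measure_iUnion_le _)
    _ = _ := by
        rw [lintegral_add_left m₀, lintegral_tsum fun l => (m l).aemeasurable]
        rfl

omit [MeasurableSpace SL(2, ℝ)] in
theorem dyadic {t : ℝ} (ht : 0 < t) (l₁ : ℕ) (h : t ≤ 2 / 2 ^ l₁) :
    ∃ n : ℕ, 1 / 2 ^ (n + l₁) ≤ t ∧ t ≤ 2 / 2 ^ (n + l₁) := by
  have hex : ∃ n : ℕ, 1 / (2 : ℝ) ^ (n + l₁) < t := by
    obtain ⟨n, hn⟩ := exists_pow_lt_of_lt_one ht (by norm_num : (1 / 2 : ℝ) < 1)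
    refine ⟨n, lt_of_le_of_lt ?_ hn⟩
    rw [one_div_pow]
    exact one_div_le_one_div_of_le (by positivity)
      (pow_le_pow_right₀ (by norm_num) (Nat.le_add_right _ _))
  classical
  refine ⟨Nat.find hex, (Nat.find_spec hex).le, ?_⟩
  rcases Nat.eq_zero_or_pos (Nat.find hex) with h0 | h0
  · rw [h0, zero_add]
    exact h
  · obtain ⟨k, hk⟩ := Nat.exists_eq_succ_of_ne_zero h0.ne'
    have h1 := Nat.find_min hex (m := k) (by omega)
    rw [not_lt] at h1
    rw [hk]
    refine h1.trans (le_of_eq ?_)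
    rw [show k.succ + l₁ = (k + l₁) + 1 by omega, pow_succ]
    field_simp

end TN

open _root_.QE.NC.TN in
/-- **Theorem N** from the dyadic bound and the diagonal bound -/
theorem stmtN (hS : StmtSum) (hD : StmtDiag) : StmtN := by
  intro _ _ Γ _ D Φ x y τ κ c r L k₀ k₁ ν hP hM η hη
  obtain ⟨c₀, hc₀, l₀, a, ha, hS⟩ := hS Γ D Φ x y τ κ c r L k₀ k₁ ν hP hM
  have := hM.sf
  have hη2 : 0 < η / 2 := by positivity
  obtain ⟨l₁, hl₁, hsum⟩ : ∃ l₁, l₀ ≤ l₁ ∧ ∑' k, a (k + l₁) ≤ ENNReal.ofReal (η / 2) := by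
    have h1 := ENNReal.tendsto_sum_nat_add a ha
    have h2 := h1.eventually (ge_mem_nhds (ENNReal.ofReal_pos.2 hη2))
    obtain ⟨l₁, h3, h4⟩ := (h2.and (eventually_ge_atTop l₀)).exists
    exact ⟨l₁, h4, h3⟩
  obtain ⟨δ₁, hδ₁, hD⟩ := hD Γ D Φ x y τ κ c r L k₀ k₁ ν hP hM (max 1 (2 / c₀)) (η / 2)
    (le_max_left _ _) hη2
  refine ⟨2 / 2 ^ l₁, by positivity, δ₁, hδ₁, fun δ hδ hδ1 => ?_⟩
  have hx := hP.xc
  have hy := hP.yc
  have ht := hP.tc
  have hm₀ : MeasurableSet {q : SL(2, ℝ) × SL(2, ℝ) | dd q.1 q.2 ≤ r ∧ |x q.1 q.2| ≤ δ ∧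
      |τ q.1 q.2| ≤ δ ∧ |y q.1 q.2| ≤ max 1 (2 / c₀) * δ} := by
    refine IsClosed.measurableSet ?_
    exact (isClosed_le dd_cont continuous_const).inter
      ((isClosed_le hx.abs continuous_const).inter
        ((isClosed_le ht.abs continuous_const).inter (isClosed_le hy.abs continuous_const)))
  have hm : ∀ l : ℕ, MeasurableSet {q : SL(2, ℝ) × SL(2, ℝ) | dd q.1 q.2 ≤ r ∧ |x q.1 q.2| ≤ δ ∧
      |τ q.1 q.2| ≤ δ ∧ 1 / 2 ^ (l + l₁) ≤ |y q.1 q.2| ∧ |y q.1 q.2| ≤ 2 / 2 ^ (l + l₁) ∧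
      δ ≤ c₀ / 2 ^ (l + l₁)} := by
    intro l
    refine IsClosed.measurableSet ?_
    exact (isClosed_le dd_cont continuous_const).inter
      ((isClosed_le hx.abs continuous_const).inter
        ((isClosed_le ht.abs continuous_const).inter
          ((isClosed_le continuous_const hy.abs).inter
            ((isClosed_le hy.abs continuous_const).inter isClosed_const))))
  have hcov := PM_cover (D := D) (ν := ν)
    (Q := fun v w => dd v w ≤ r ∧ |x v w| ≤ δ ∧ |τ v w| ≤ δ ∧ |y v w| ≤ 2 / 2 ^ l₁)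
    (P₀ := fun v w => dd v w ≤ r ∧ |x v w| ≤ δ ∧ |τ v w| ≤ δ ∧ |y v w| ≤ max 1 (2 / c₀) * δ)
    (P := fun l v w => dd v w ≤ r ∧ |x v w| ≤ δ ∧ |τ v w| ≤ δ ∧ 1 / 2 ^ (l + l₁) ≤ |y v w| ∧
      |y v w| ≤ 2 / 2 ^ (l + l₁) ∧ δ ≤ c₀ / 2 ^ (l + l₁)) hm₀ hm (by
      rintro v w ⟨h1, h2, h3, h4⟩
      rcases le_or_gt (|y v w|) (max 1 (2 / c₀) * δ) with h5 | h5
      · exact Or.inl ⟨h1, h2, h3, h5⟩
      · right
        have hA : 0 < max 1 (2 / c₀) := lt_of_lt_of_le one_pos (le_max_left _ _)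
        have hy0 : 0 < |y v w| := lt_trans (mul_pos hA hδ) h5
        obtain ⟨n, hn1, hn2⟩ := dyadic hy0 l₁ h4
        refine ⟨n, h1, h2, h3, hn1, hn2, ?_⟩
        have h6 : 2 / c₀ * δ ≤ max 1 (2 / c₀) * δ :=
          mul_le_mul_of_nonneg_right (le_max_right _ _) hδ.le
        have h7 : 2 / c₀ * δ ≤ 2 / 2 ^ (n + l₁) := h6.trans (h5.le.trans hn2)
        have h8 : δ = c₀ / 2 * (2 / c₀ * δ) := by field_simp
        rw [h8]
        calc c₀ / 2 * (2 / c₀ * δ) ≤ c₀ / 2 * (2 / 2 ^ (n + l₁)) :=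
              mul_le_mul_of_nonneg_left h7 (by positivity)
          _ = c₀ / 2 ^ (n + l₁) := by field_simp)
  refine hcov.trans ?_
  have hP0 := hD δ hδ hδ1
  have hPl : ∀ l : ℕ, PM D ν (fun v w => dd v w ≤ r ∧ |x v w| ≤ δ ∧ |τ v w| ≤ δ ∧
      1 / 2 ^ (l + l₁) ≤ |y v w| ∧ |y v w| ≤ 2 / 2 ^ (l + l₁) ∧ δ ≤ c₀ / 2 ^ (l + l₁))
      ≤ a (l + l₁) * ENNReal.ofReal (δ ^ 2) := by
    intro l
    by_cases h : δ ≤ c₀ / 2 ^ (l + l₁)
    · refine le_trans (PM_mono ?_) (hS (l + l₁) (by omega) δ hδ h)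
      rintro v w ⟨h1, h2, h3, h4, h5, -⟩
      exact ⟨h1, h2, h3, h4, h5⟩
    · rw [PM_false fun v w hvw => h hvw.2.2.2.2.2]
      exact zero_le
  calc _ ≤ ENNReal.ofReal (η / 2 * δ ^ 2) + ∑' l, a (l + l₁) * ENNReal.ofReal (δ ^ 2) :=
        add_le_add hP0 (ENNReal.tsum_le_tsum hPl)
    _ ≤ ENNReal.ofReal (η / 2 * δ ^ 2) + ENNReal.ofReal (η / 2) * ENNReal.ofReal (δ ^ 2) := by
        rw [ENNReal.tsum_mul_right]
        exact add_le_add le_rfl (mul_le_mul_left hsum _)
    _ = ENNReal.ofReal (η * δ ^ 2) := by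
        rw [← ENNReal.ofReal_mul hη2.le, ← ENNReal.ofReal_add (by positivity) (by positivity)]
        congr 1
        ring

end

end NC

end QE


end
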