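import Mathlib
import Pool.Agent.BWM.C01
import Pool.Agent.BWM.C12

/-! Parts: QJ.Defs, QJ.Stmts, QJ.Ops, QJ.IBP, QJ.Dom, QJ.JETA, QJ.POT, QJ.SEC, QJ.ALT, QJ.LW, QJ.LWE, U3.Defs, U3.Stmts, U3.JETC, U3.JETW, U3.IBPA, U3.KEM, U3.PES, U3.TRID, U3.FOUB, U3.FIR, U3.JBD, U3.E3Z -/

section

/-!
Cubic and quartic statistics of quantum ergodic eigenfunctions: definitions.
-/

open Complex MeasureTheory Filter Topology Set
open scoped ContDiff

namespace QJ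

open QE

noncomputable section

/-- the function `e^{k σ}` -/
def ex (σ : ℂ → ℝ) (k : ℤ) (z : ℂ) : ℂ := ((Real.exp (k * σ z) : ℝ) : ℂ)

/-- the operator which raises the spin `k` to `k + 1` for the metric `e^{2σ} |dz|²` -/
def D (σ : ℂ → ℝ) (k : ℤ) (f : ℂ → ℂ) (z : ℂ) : ℂ :=
  2 * ex σ (k - 1) z * dz (fun w => ex σ (-k) w * f w) z

/-- the operator which lowers the spin `k` to `k - 1` for the metric `e^{2σ} |dz|²` -/
def Db (σ : ℂ → ℝ) (k : ℤ) (f : ℂ → ℂ) (z : ℂ) : ℂ :=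
  2 * ex σ (-k - 1) z * dzb (fun w => ex σ k w * f w) z

/-- the Gauss curvature -/
def curv (σ : ℂ → ℝ) (z : ℂ) : ℂ := -(4 * ex σ (-2) z * dz (dzb (fun w => (σ w : ℂ))) z)

/-- the standing hypotheses: `φₙ` are real functions, smooth on the plane, which solve
`h² Δ φ = - e^{2σ} φ` on the open set `V`, with `φₙ² → 1` and `φₙ hᵏ ∂ᵏ φₙ → 0` weakly on `V` -/
structure Loc (V : Set ℂ) (σ : ℂ → ℝ) (h : ℕ → ℝ) (φ : ℕ → ℂ → ℂ) : Prop where
  op : IsOpen V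
  hpos : ∀ n, 0 < h n
  hlim : Tendsto h atTop (𝓝 0)
  sm : ContDiff ℝ ∞ σ
  smφ : ∀ n, ContDiff ℝ ∞ (φ n)
  real : ∀ n z, (starRingEnd ℂ) (φ n z) = φ n z
  eig : ∀ n, ∀ z ∈ V, 4 * (h n : ℂ) ^ 2 * dz (dzb (φ n)) z = - ex σ 2 z * φ n z
  mass : ∀ ζ : ℂ → ℂ, Test V ζ →
    Tendsto (fun n => ∫ z, ζ z * (φ n z * φ n z)) atTop (𝓝 (∫ z, ζ z))
  mom : ∀ k : ℕ, 1 ≤ k → ∀ ζ : ℂ → ℂ, Test V ζ →
    Tendsto (fun n => ∫ z, ζ z * (φ n z * ((h n : ℂ) ^ k * dz^[k] (φ n) z))) atTop (𝓝 0)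

/-- the rescaled mixed Wirtinger derivatives -/
def W (h : ℕ → ℝ) (φ : ℕ → ℂ → ℂ) (a b n : ℕ) (z : ℂ) : ℂ :=
  (h n : ℂ) ^ (a + b) * dz^[a] (dzb^[b] (φ n)) z

/-- one plus the sum of the squares of the rescaled derivatives with `a, b ≤ N` -/
def RR (h : ℕ → ℝ) (φ : ℕ → ℂ → ℂ) (N n : ℕ) (z : ℂ) : ℝ :=
  1 + ∑ a ∈ Finset.range (N + 1), ∑ b ∈ Finset.range (N + 1), ‖W h φ a b n z‖ ^ 2

/-- `‖uₙ‖² ≤ C · RR^q` on the compact subsets of `V`, for large `n` -/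
def Bq (V : Set ℂ) (h : ℕ → ℝ) (φ : ℕ → ℂ → ℂ) (q : ℕ) (u : ℕ → ℂ → ℂ) : Prop :=
  ∀ K, IsCompact K → K ⊆ V → ∃ (N : ℕ) (C : ℝ), ∀ᶠ n in atTop, ∀ z ∈ K,
    ‖u n z‖ ^ 2 ≤ C * RR h φ N n z ^ q

/-- all the rescaled derivatives of order at most `k` satisfy `Bq` -/
def BqK (V : Set ℂ) (h : ℕ → ℝ) (φ : ℕ → ℂ → ℂ) (q : ℕ) : ℕ → (ℕ → ℂ → ℂ) → Prop
  | 0, u => Bq V h φ q u
  | k + 1, u => Bq V h φ q u ∧ BqK V h φ q k (fun n z => (h n : ℂ) * dz (u n) z)
      ∧ BqK V h φ q k (fun n z => (h n : ℂ) * dzb (u n) z)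

/-- dominated sequences: smooth on the plane, and all the rescaled derivatives are bounded by the jets
of `φₙ` (`q = 1`), or by products of `q` jets -/
structure Dom (V : Set ℂ) (h : ℕ → ℝ) (φ : ℕ → ℂ → ℂ) (q : ℕ) (u : ℕ → ℂ → ℂ) : Prop where
  smooth : ∀ n, ContDiff ℝ ∞ (u n)
  bd : ∀ k, BqK V h φ q k u

/-- the growth of the jets: linear growth of the mass, and `h · RR → 0` locally uniformly -/
structure Grow (V : Set ℂ) (h : ℕ → ℝ) (φ : ℕ → ℂ → ℂ) : Prop where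
  grow : ∀ K, IsCompact K → K ⊆ V → ∀ N : ℕ, ∃ C : ℝ, ∀ᶠ n in atTop, ∀ z ∈ K, ∀ s > 0,
    ∫ w in K ∩ Metric.closedBall z s, RR h φ N n w ≤ C * s
  small : ∀ K, IsCompact K → K ⊆ V → ∀ N : ℕ, ∀ ε > 0, ∀ᶠ n in atTop, ∀ z ∈ K,
    h n * RR h φ N n z ≤ ε

/-- the covariant jets `E_0 = φ`, `E_{j+1} = h D E_j` -/
def jet (σ : ℂ → ℝ) (h : ℕ → ℝ) (φ : ℕ → ℂ → ℂ) : ℕ → ℕ → ℂ → ℂ
  | 0 => φ
  | m + 1 => fun n z => (h n : ℂ) * D σ m (jet σ h φ m n) z

/-- the covariant jets for all integers, `E_{-m} = (-1)^m conj E_m` -/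
def E (σ : ℂ → ℝ) (h : ℕ → ℝ) (φ : ℕ → ℂ → ℂ) : ℤ → ℕ → ℂ → ℂ
  | Int.ofNat m => jet σ h φ m
  | Int.negSucc m => fun n z => (-1) ^ (m + 1) * (starRingEnd ℂ) (jet σ h φ (m + 1) n z)

/-- the weak limit of `E_j E_m` -/
def P (j m : ℤ) : ℂ := if j + m = 0 then (-1) ^ j else 0

/-- a sequence dominated by products of two jets which tends weakly to zero -/
structure Nul (V : Set ℂ) (h : ℕ → ℝ) (φ : ℕ → ℂ → ℂ) (B : ℕ → ℂ → ℂ) : Prop where
  smooth : ∀ n, ContDiff ℝ ∞ (B n)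
  bd : Bq V h φ 2 B
  weak : ∀ ζ : ℂ → ℂ, Test V ζ → Tendsto (fun n => ∫ z, ζ z * B n z) atTop (𝓝 0)

/-- the square of the `L²` norm tends to zero on compact subsets of `V` -/
def L2z (V : Set ℂ) (u : ℕ → ℂ → ℂ) : Prop :=
  ∀ K, IsCompact K → K ⊆ V → Tendsto (fun n => ∫ z in K, ‖u n z‖ ^ 2) atTop (𝓝 0)

/-- a triple `(A, B, C)` of spins `N + 2`, `N`, `N - 2` with `Db A = - D B` and `D C = - Db B` up to
errors which tend to zero in `L²` -/
structure Trip (V : Set ℂ) (σ : ℂ → ℝ) (h : ℕ → ℝ) (φ : ℕ → ℂ → ℂ) (N : ℤ)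
    (A B C : ℕ → ℂ → ℂ) : Prop where
  nA : Nul V h φ A
  nB : Nul V h φ B
  nC : Nul V h φ C
  eA : L2z V (fun n z => Db σ (N + 2) (A n) z + D σ N (B n) z)
  eC : L2z V (fun n z => D σ (N - 2) (C n) z + Db σ N (B n) z)

/-- potentials of a triple on `V`: `Db x = - B = D y`, with `x`, `y`, `α = A - D x`, `γ = C - Db y`,
`Db α` and `D γ` tending to zero in `L²` -/
structure Pot (V : Set ℂ) (σ : ℂ → ℝ) (N : ℤ) (A B C x y : ℕ → ℂ → ℂ) : Prop where
  sx : ∀ n, ContDiff ℝ ∞ (x n)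
  sy : ∀ n, ContDiff ℝ ∞ (y n)
  hx : ∀ n, ∀ z ∈ V, Db σ (N + 1) (x n) z = - B n z
  hy : ∀ n, ∀ z ∈ V, D σ (N - 1) (y n) z = - B n z
  lx : L2z V x
  ly : L2z V y
  la : L2z V (fun n z => A n z - D σ (N + 1) (x n) z)
  lc : L2z V (fun n z => C n z - Db σ (N - 1) (y n) z)
  lda : L2z V (fun n z => Db σ (N + 2) (fun w => A n w - D σ (N + 1) (x n) w) z)
  ldc : L2z V (fun n z => D σ (N - 2) (fun w => C n w - Db σ (N - 1) (y n) w) z)

/-- the four-jet integrals -/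
def E4 (σ : ℂ → ℝ) (h : ℕ → ℝ) (φ : ℕ → ℂ → ℂ) (ζ : ℂ → ℂ) (a b c d : ℤ) (n : ℕ) : ℂ :=
  ∫ z, ζ z * (E σ h φ a n z * E σ h φ b n z * E σ h φ c n z * E σ h φ d n z)

/-- the three-jet integrals -/
def E3 (σ : ℂ → ℝ) (h : ℕ → ℝ) (φ : ℕ → ℂ → ℂ) (ζ : ℂ → ℂ) (a b c : ℤ) (n : ℕ) : ℂ :=
  ∫ z, ζ z * (E σ h φ a n z * E σ h φ b n z * E σ h φ c n z)

/-- the Wick sum -/
def wk (a b c d : ℤ) : ℂ := P a b * P c d + P a c * P b d + P a d * P b c

/-- the class function of order four: `1` if all the indices have the same parity, otherwise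
`-1/3` (for indices with sum zero) -/
def cl4 (a b c d : ℤ) : ℂ := if (a - b) % 2 = 0 ∧ (a - c) % 2 = 0 ∧ (a - d) % 2 = 0 then 1 else -1 / 3

/-- the class function of order three -/
def cl3 (b c : ℤ) : ℂ := if (b - c) % 3 = 0 then 1 else -1 / 2

/-- first derivatives of a real function -/
def d1 (u : ℂ → ℝ) (z : ℂ) : ℝ := fderiv ℝ u z 1

/-- first derivatives of a real function -/
def d2 (u : ℂ → ℝ) (z : ℂ) : ℝ := fderiv ℝ u z Complex.I

/-- the Laplacian of a real function -/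
def lap (u : ℂ → ℝ) (z : ℂ) : ℝ := d1 (d1 u) z + d2 (d2 u) z

end

end QJ


end

section

/-!
Cubic and quartic statistics of quantum ergodic eigenfunctions: statements of the steps (local part).
Each step is a `Prop`; a module proves one of them, possibly from others taken as hypotheses.
-/

open Complex MeasureTheory Filter Topology Set
open scoped ContDiff

namespace QJ

open QE

noncomputable section

/-! ### Real analysis: growth of solutions of `h² Δ u = - g u` -/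

/-- VIR: the virial identity for a compactly supported vector field `(Z₁, Z₂)` and weight `c` -/
def StmtVir : Prop :=
  ∀ (u g Z₁ Z₂ c : ℂ → ℝ) (h : ℝ), ContDiff ℝ ∞ u → ContDiff ℝ ∞ g → ContDiff ℝ ∞ Z₁ →
    ContDiff ℝ ∞ Z₂ → ContDiff ℝ ∞ c → HasCompactSupport Z₁ → HasCompactSupport Z₂ →
    HasCompactSupport c →
    (∀ z, (Z₁ z ≠ 0 ∨ Z₂ z ≠ 0 ∨ c z ≠ 0) → h ^ 2 * lap u z = - (g z * u z)) →
    ∫ z, (h ^ 2 * (d1 Z₁ z * d1 u z ^ 2 + (d1 Z₂ z + d2 Z₁ z) * (d1 u z * d2 u z)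
        + d2 Z₂ z * d2 u z ^ 2)
      + (c z - (d1 Z₁ z + d2 Z₂ z) / 2) * (h ^ 2 * (d1 u z ^ 2 + d2 u z ^ 2))
      + ((d1 Z₁ z + d2 Z₂ z) / 2 - c z) * (g z * u z ^ 2)
      + (Z₁ z * d1 g z + Z₂ z * d2 g z) / 2 * u z ^ 2
      - h ^ 2 / 2 * lap c z * u z ^ 2) = 0

/-- CAC: Caccioppoli inequality on balls of radius at least `h` -/
def StmtCac : Prop :=
  ∀ G : ℝ, ∃ C : ℝ, 0 < C ∧ ∀ (u g : ℂ → ℝ) (z₀ : ℂ) (h r : ℝ), ContDiff ℝ ∞ u → 0 < h → h ≤ r →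
    (∀ z ∈ Metric.closedBall z₀ (3 * r), |g z| ≤ G) →
    (∀ z ∈ Metric.closedBall z₀ (3 * r), h ^ 2 * lap u z = - (g z * u z)) →
    ∫ z in Metric.closedBall z₀ (2 * r), h ^ 2 * (d1 u z ^ 2 + d2 u z ^ 2)
      ≤ C * ∫ z in Metric.closedBall z₀ (3 * r), u z ^ 2

/-- MOR: linear growth of the mass (Morawetz) -/
def StmtMor : Prop :=
  ∀ m G : ℝ, 0 < m → ∃ C : ℝ, 0 < C ∧ ∀ (u g : ℂ → ℝ) (z₀ : ℂ) (h r r₀ : ℝ), ContDiff ℝ ∞ u →
    ContDiff ℝ ∞ g → 0 < h → h ≤ r → r ≤ r₀ → r₀ ≤ 1 →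
    (∀ z ∈ Metric.closedBall z₀ (3 * r₀), m ≤ g z ∧ g z ≤ G ∧ |d1 g z| ≤ G ∧ |d2 g z| ≤ G) →
    (∀ z ∈ Metric.closedBall z₀ (3 * r₀), h ^ 2 * lap u z = - (g z * u z)) →
    ∫ z in Metric.closedBall z₀ r, u z ^ 2
      ≤ C * (r / r₀) * ∫ z in Metric.closedBall z₀ (3 * r₀), u z ^ 2

/-- SUP: a pointwise bound at scale `h` -/
def StmtSup : Prop :=
  ∃ C : ℝ, 0 < C ∧ ∀ (v : ℂ → ℂ) (z : ℂ) (h : ℝ), ContDiff ℝ ∞ v → 0 < h →
    ‖v z‖ ^ 2 ≤ C / h ^ 2 * ∫ w in Metric.closedBall z (3 * h),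
      (‖v w‖ ^ 2 + ‖(h : ℂ) ^ 2 * dz (dzb v) w‖ ^ 2)

/-- PTW: the jets are bounded by the local `L²` norm of `φ` at scale `h` -/
def StmtPtw : Prop :=
  ∀ (V : Set ℂ) (σ : ℂ → ℝ) (h : ℕ → ℝ) (φ : ℕ → ℂ → ℂ), Loc V σ h φ →
    ∀ K, IsCompact K → K ⊆ V → ∀ N : ℕ, ∃ c C : ℝ, 0 < c ∧ ∀ᶠ n in atTop, ∀ z ∈ K,
      RR h φ N n z ≤ C * (1 + 1 / h n ^ 2 * ∫ w in Metric.closedBall z (c * h n), ‖φ n w‖ ^ 2)

/-- GRO: growth of the jets of quantum ergodic sequences -/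
def StmtGro : Prop :=
  ∀ (V : Set ℂ) (σ : ℂ → ℝ) (h : ℕ → ℝ) (φ : ℕ → ℂ → ℂ), Loc V σ h φ → Grow V h φ

/-! ### Cauchy transforms -/

/-- CAU: Cauchy transforms of sequences which tend weakly to zero and are dominated by densities with
linear growth tend to zero in `L²_loc` -/
def StmtCau : Prop :=
  ∀ (K K' : Set ℂ) (R : ℕ → ℂ → ℝ) (f : ℕ → ℂ → ℂ) (C : ℝ), IsCompact K → IsCompact K' →
    (∀ n z, 0 ≤ R n z) → (∀ n, Continuous (R n)) →
    (∀ᶠ n in atTop, ∀ z ∈ K', ∀ s > 0, ∫ w in K ∩ Metric.closedBall z s, R n w ≤ C * s) →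
    (∀ n, ContDiff ℝ ∞ (f n)) → (∀ n, tsupport (f n) ⊆ K) →
    (∀ᶠ n in atTop, ∀ z ∈ K, ‖f n z‖ ≤ R n z) →
    (∀ ψ : ℂ → ℂ, ContDiff ℝ ∞ ψ → Tendsto (fun n => ∫ z, ψ z * f n z) atTop (𝓝 0)) →
    Tendsto (fun n => ∫ z in K', ‖cauchy (f n) z‖ ^ 2) atTop (𝓝 0)

/-- HOL: `∂̄ α → 0` in `L²` and `α → 0` weakly imply `α → 0` in `L²` -/
def StmtHol : Prop :=
  ∀ (V : Set ℂ) (α a b : ℕ → ℂ → ℂ), IsOpen V → (∀ n, ContDiff ℝ ∞ (α n)) →
    (∀ n, ContDiff ℝ ∞ (a n)) → (∀ n, ContDiff ℝ ∞ (b n)) →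
    (∀ n, ∀ z ∈ V, α n z = a n z + dz (b n) z) →
    (∀ K, IsCompact K → K ⊆ V → ∃ C : ℝ, ∀ᶠ n in atTop,
      (∫ z in K, ‖a n z‖) ≤ C ∧ (∫ z in K, ‖b n z‖) ≤ C) →
    L2z V (fun n z => dzb (α n) z) →
    (∀ ζ : ℂ → ℂ, Test V ζ → Tendsto (fun n => ∫ z, ζ z * α n z) atTop (𝓝 0)) →
    L2z V α

/-! ### Consequences of the growth -/

/-- INT: integrals of dominated functions -/
def StmtInt : Prop :=
  ∀ (V : Set ℂ) (h : ℕ → ℝ) (φ u : ℕ → ℂ → ℂ), (∀ n, 0 < h n) → Tendsto h atTop (𝓝 0) →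
    (∀ n, ContDiff ℝ ∞ (φ n)) → Grow V h φ → (∀ n, ContDiff ℝ ∞ (u n)) →
    (Bq V h φ 2 u → ∀ K, IsCompact K → K ⊆ V → ∃ C : ℝ, ∀ᶠ n in atTop, (∫ z in K, ‖u n z‖) ≤ C) ∧
    (Bq V h φ 2 u → L2z V (fun n z => (h n : ℂ) * u n z)) ∧
    (Bq V h φ 4 u → ∀ K, IsCompact K → K ⊆ V →
      Tendsto (fun n => h n * ∫ z in K, ‖u n z‖) atTop (𝓝 0))

/-- IBP: derivatives of dominated functions tend to zero weakly after multiplication by `h` -/
def StmtIbp : Prop :=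
  ∀ (V : Set ℂ) (σ : ℂ → ℝ) (h : ℕ → ℝ) (φ u : ℕ → ℂ → ℂ) (k : ℤ), IsOpen V → ContDiff ℝ ∞ σ →
    (∀ n, 0 < h n) → Tendsto h atTop (𝓝 0) → (∀ n, ContDiff ℝ ∞ (φ n)) → Grow V h φ →
    (∀ n, ContDiff ℝ ∞ (u n)) → Bq V h φ 4 u → ∀ ζ : ℂ → ℂ, Test V ζ →
      Tendsto (fun n => ∫ z, ζ z * ((h n : ℂ) * D σ k (u n) z)) atTop (𝓝 0) ∧
      Tendsto (fun n => ∫ z, ζ z * ((h n : ℂ) * Db σ k (u n) z)) atTop (𝓝 0)

/-! ### The jets -/

/-- JETA: the covariant jets and their derivatives -/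
def StmtJetA : Prop :=
  ∀ (V : Set ℂ) (σ : ℂ → ℝ) (h : ℕ → ℝ) (φ : ℕ → ℂ → ℂ), Loc V σ h φ → ∀ j : ℤ,
    Dom V h φ 1 (E σ h φ j) ∧
    (∃ A, Dom V h φ 1 A ∧ ∀ n, ∀ z ∈ V,
      (h n : ℂ) * D σ j (E σ h φ j n) z = E σ h φ (j + 1) n z + (h n : ℂ) ^ 2 * A n z) ∧
    (∃ A, Dom V h φ 1 A ∧ ∀ n, ∀ z ∈ V,
      (h n : ℂ) * Db σ j (E σ h φ j n) z = - E σ h φ (j - 1) n z + (h n : ℂ) ^ 2 * A n z)

/-- JETB: the rescaled mixed derivatives are covariant jets up to `O(h)` -/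
def StmtJetB : Prop :=
  ∀ (V : Set ℂ) (σ : ℂ → ℝ) (h : ℕ → ℝ) (φ : ℕ → ℂ → ℂ), Loc V σ h φ → ∀ a b : ℕ,
    ∃ A, Dom V h φ 1 A ∧ ∀ n, ∀ z ∈ V,
      ex σ (-(a + b)) z * W h φ a b n z
        = (2 : ℂ)⁻¹ ^ (a + b) * (-1) ^ b * E σ h φ ((a : ℤ) - b) n z + (h n : ℂ) * A n z

/-- TWO: the two-jet limits -/
def StmtTwo : Prop :=
  ∀ (V : Set ℂ) (σ : ℂ → ℝ) (h : ℕ → ℝ) (φ : ℕ → ℂ → ℂ), Loc V σ h φ → ∀ (j m : ℤ) (ζ : ℂ → ℂ),
    Test V ζ → Tendsto (fun n => ∫ z, ζ z * (E σ h φ j n z * E σ h φ m n z)) atTop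
      (𝓝 (P j m * ∫ z, ζ z))

/-- ONE: the one-jet limits -/
def StmtOne : Prop :=
  ∀ (V : Set ℂ) (σ : ℂ → ℝ) (h : ℕ → ℝ) (φ : ℕ → ℂ → ℂ), Loc V σ h φ → ∀ (j : ℤ) (ζ : ℂ → ℂ),
    Test V ζ → Tendsto (fun n => ∫ z, ζ z * E σ h φ j n z) atTop (𝓝 0)

/-! ### Compensated compactness without `L²` bounds -/

/-- POT: potentials of a triple -/
def StmtPot : Prop :=
  ∀ (V : Set ℂ) (σ : ℂ → ℝ) (h : ℕ → ℝ) (φ : ℕ → ℂ → ℂ) (N : ℤ) (A B C : ℕ → ℂ → ℂ), IsOpen V →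
    ContDiff ℝ ∞ σ → (∀ n, 0 < h n) → Tendsto h atTop (𝓝 0) → (∀ n, ContDiff ℝ ∞ (φ n)) →
    Grow V h φ → Trip V σ h φ N A B C → ∀ K, IsCompact K → K ⊆ V →
      ∃ (V' : Set ℂ) (x y : ℕ → ℂ → ℂ), IsOpen V' ∧ K ⊆ V' ∧ V' ⊆ V ∧ Pot V' σ N A B C x y

/-- NID: the null form identity (exact) -/
def StmtNid : Prop :=
  ∀ (V : Set ℂ) (σ : ℂ → ℝ) (N : ℤ) (x y x' y' ζ : ℂ → ℂ), IsOpen V → ContDiff ℝ ∞ σ →
    ContDiff ℝ ∞ x → ContDiff ℝ ∞ y → ContDiff ℝ ∞ x' → ContDiff ℝ ∞ y' → Test V ζ →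
    (∀ z ∈ V, Db σ (N + 1) x z = D σ (N - 1) y z) →
    (∀ z ∈ V, Db σ (-N + 1) x' z = D σ (-N - 1) y' z) →
    ∫ z, ex σ 2 z * (ζ z * (D σ (N + 1) x z * Db σ (-N - 1) y' z
        + Db σ (N - 1) y z * D σ (-N + 1) x' z
        - Db σ (N + 1) x z * D σ (-N - 1) y' z - D σ (N - 1) y z * Db σ (-N + 1) x' z))
      = ∫ z, ex σ 2 z * (Db σ 1 (D σ 0 ζ) z * (x z * y' z + x' z * y z)
          - D σ 1 (D σ 0 ζ) z * (y z * y' z) - Db σ (-1) (Db σ 0 ζ) z * (x z * x' z)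
          + 2 * ζ z * curv σ z * ((N - 1) * (x' z * y z) - (N + 1) * (x z * y' z)))

/-- NUL: the quadratic form `A C' + C A' - 2 B B'` of two triples tends weakly to zero -/
def StmtNul : Prop :=
  ∀ (V : Set ℂ) (σ : ℂ → ℝ) (N : ℤ) (A B C x y A' B' C' x' y' : ℕ → ℂ → ℂ), IsOpen V →
    ContDiff ℝ ∞ σ → (∀ n, ContDiff ℝ ∞ (A n)) → (∀ n, ContDiff ℝ ∞ (B n)) →
    (∀ n, ContDiff ℝ ∞ (C n)) → (∀ n, ContDiff ℝ ∞ (A' n)) → (∀ n, ContDiff ℝ ∞ (B' n)) →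
    (∀ n, ContDiff ℝ ∞ (C' n)) → Pot V σ N A B C x y → Pot V σ (-N) A' B' C' x' y' →
    ∀ ζ : ℂ → ℂ, Test V ζ → Tendsto (fun n => ∫ z, ζ z *
      (A n z * C' n z + C n z * A' n z - 2 * (B n z * B' n z))) atTop (𝓝 0)

/-- TRI: products of jets form triples -/
def StmtTri : Prop :=
  ∀ (V : Set ℂ) (σ : ℂ → ℝ) (h : ℕ → ℝ) (φ : ℕ → ℂ → ℂ), Loc V σ h φ → ∀ j m : ℤ,
    Trip V σ h φ (j + m)
      (fun n z => E σ h φ (j + 1) n z * E σ h φ (m + 1) n z - P (j + 1) (m + 1))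
      (fun n z => E σ h φ j n z * E σ h φ m n z - P j m)
      (fun n z => E σ h φ (j - 1) n z * E σ h φ (m - 1) n z - P (j - 1) (m - 1))

/-- SEC: the second differences of the four-jet integrals -/
def StmtSec : Prop :=
  ∀ (V : Set ℂ) (σ : ℂ → ℝ) (h : ℕ → ℝ) (φ : ℕ → ℂ → ℂ), Loc V σ h φ → ∀ (ζ : ℂ → ℂ), Test V ζ →
    ∀ a b c d : ℤ, a + b + c + d = 0 → Tendsto (fun n =>
      E4 σ h φ ζ (a + 1) (b + 1) (c - 1) (d - 1) n + E4 σ h φ ζ (a - 1) (b - 1) (c + 1) (d + 1) n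
        - 2 * E4 σ h φ ζ a b c d n) atTop
      (𝓝 ((P (a + 1) (b + 1) * P (c - 1) (d - 1) + P (a - 1) (b - 1) * P (c + 1) (d + 1)
        - 2 * (P a b * P c d)) * ∫ z, ζ z))

/-- IFO: integration by parts for four and three jets -/
def StmtIfo : Prop :=
  ∀ (V : Set ℂ) (σ : ℂ → ℝ) (h : ℕ → ℝ) (φ : ℕ → ℂ → ℂ), Loc V σ h φ → ∀ (ζ : ℂ → ℂ), Test V ζ →
    (∀ a b c d : ℤ, Tendsto (fun n =>
      E4 σ h φ ζ (a + 1) b c d n + E4 σ h φ ζ a (b + 1) c d n + E4 σ h φ ζ a b (c + 1) d n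
        + E4 σ h φ ζ a b c (d + 1) n) atTop (𝓝 0)) ∧
    (∀ a b c : ℤ, Tendsto (fun n => E3 σ h φ ζ (a + 1) b c n + E3 σ h φ ζ a (b + 1) c n
        + E3 σ h φ ζ a b (c + 1) n) atTop (𝓝 0)) ∧
    (∀ a b c : ℤ, Tendsto (fun n => E3 σ h φ ζ (a - 1) b c n + E3 σ h φ ζ a (b - 1) c n
        + E3 σ h φ ζ a b (c - 1) n) atTop (𝓝 0))

/-! ### Algebra -/

/-- ALF: symmetric functions on `{a + b + c + d = 0}` with the two recursions -/
def StmtAlf : Prop :=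
  ∀ (X : Type) [AddCommGroup X] [Module ℂ X] (e : ℤ → ℤ → ℤ → ℤ → X),
    (∀ a b c d, e b a c d = e a b c d) → (∀ a b c d, e a c b d = e a b c d) →
    (∀ a b c d, e a b d c = e a b c d) →
    (∀ a b c d, a + b + c + d = 0 → e (a + 1) (b + 1) (c - 1) (d - 1)
      + e (a - 1) (b - 1) (c + 1) (d + 1) = (2 : ℂ) • e a b c d) →
    (∀ a b c d, a + b + c + d = -1 →
      e (a + 1) b c d + e a (b + 1) c d + e a b (c + 1) d + e a b c (d + 1) = 0) →
    ∀ a b c d, a + b + c + d = 0 → e a b c d = cl4 a b c d • e 0 0 0 0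

/-- ALT: symmetric functions on `{a + b + c = 0}` with the two recursions -/
def StmtAlt : Prop :=
  ∀ (X : Type) [AddCommGroup X] [Module ℂ X] (e : ℤ → ℤ → ℤ → X),
    (∀ a b c, e b a c = e a b c) → (∀ a b c, e a c b = e a b c) →
    (∀ a b c, a + b + c = -1 → e (a + 1) b c + e a (b + 1) c + e a b (c + 1) = 0) →
    (∀ a b c, a + b + c = 1 → e (a - 1) b c + e a (b - 1) c + e a b (c - 1) = 0) →
    ∀ a b c, a + b + c = 0 → e a b c = cl3 b c • e 0 0 0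

/-! ### The local theorems for the covariant jets -/

/-- FOU: the four-jet integrals -/
def StmtFou : Prop :=
  ∀ (V : Set ℂ) (σ : ℂ → ℝ) (h : ℕ → ℝ) (φ : ℕ → ℂ → ℂ), Loc V σ h φ → ∀ (ζ : ℂ → ℂ), Test V ζ →
    ∀ a b c d : ℤ, a + b + c + d = 0 → Tendsto (fun n => E4 σ h φ ζ a b c d n
      - (wk a b c d * (∫ z, ζ z)
        + cl4 a b c d * (E4 σ h φ ζ 0 0 0 0 n - 3 * ∫ z, ζ z))) atTop (𝓝 0)

/-- SUM: the finite sums of the cubic argument: `6 ∣ N`, `w = exp (2 π i / 3)` -/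
def StmtSum : Prop :=
  ∀ (w : ℂ) (N : ℕ), w = Complex.exp (2 * Real.pi * Complex.I / 3) → 6 ∣ N → 0 < N →
    (∑ b ∈ Finset.range N, ∑ c ∈ Finset.range N,
      w ^ ((b : ℤ) - c) * cl3 (b : ℤ) c = (N : ℂ) ^ 2 / 2) ∧
    (∑ c ∈ Finset.range N, ∑ b ∈ Finset.range N, ∑ b' ∈ Finset.range N,
      w ^ ((b : ℤ) - b') * (-1) ^ c * cl4 (-(b : ℤ) - c) b ((b' : ℤ) + c) (-(b' : ℤ)) = 0) ∧
    (∑ c ∈ Finset.range N, ∑ b ∈ Finset.range N, ∑ b' ∈ Finset.range N,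
      w ^ ((b : ℤ) - b') * (-1) ^ c * wk (-(b : ℤ) - c) b ((b' : ℤ) + c) (-(b' : ℤ))
        = (N : ℂ) ^ 2 + 1)

/-- CUB: the three-jet integrals tend to zero -/
def StmtCub : Prop :=
  ∀ (V : Set ℂ) (σ : ℂ → ℝ) (h : ℕ → ℝ) (φ : ℕ → ℂ → ℂ), Loc V σ h φ → ∀ (ζ : ℂ → ℂ), Test V ζ →
    ∀ a b c : ℤ, a + b + c = 0 → Tendsto (E3 σ h φ ζ a b c) atTop (𝓝 0)

/-! ### The local theorems for the mixed derivatives -/

/-- the constant relating the mixed derivatives and the jets -/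
def cW (a b : ℕ) : ℂ := (2 : ℂ)⁻¹ ^ (a + b) * (-1) ^ b

/-- the mixed derivatives in isothermal coordinates, `g = e^{2σ}` -/
def Wg (g : ℂ → ℝ) (h : ℕ → ℝ) (φ : ℕ → ℂ → ℂ) (a b n : ℕ) (z : ℂ) : ℂ :=
  (((Real.sqrt (g z))⁻¹ ^ (a + b) : ℝ) : ℂ) * W h φ a b n z

/-- LW: the local theorem for mixed derivatives on an open set, orders one to four, and the
vanishing of the error terms -/
def StmtLW : Prop :=
  ∀ (U : Set ℂ) (g : ℂ → ℝ) (h : ℕ → ℝ) (φ : ℕ → ℂ → ℂ), IsOpen U → ContDiffOn ℝ ∞ g U →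
    (∀ z ∈ U, 0 < g z) → LocalQE U g h φ → ∀ (ζ : ℂ → ℂ), Test U ζ →
    (∀ a b : ℕ, a = b → Tendsto (fun n => ∫ z, ζ z * Wg g h φ a b n z) atTop (𝓝 0)) ∧
    (∀ a b : Fin 2 → ℕ, ∑ i, ((a i : ℤ) - b i) = 0 → Tendsto (fun n => ∫ z, ζ z *
      ∏ i, Wg g h φ (a i) (b i) n z) atTop
      (𝓝 ((∏ i, cW (a i) (b i)) * P ((a 0 : ℤ) - b 0) ((a 1 : ℤ) - b 1) * ∫ z, ζ z))) ∧
    (∀ a b : Fin 3 → ℕ, ∑ i, ((a i : ℤ) - b i) = 0 → Tendsto (fun n => ∫ z, ζ z *
      ∏ i, Wg g h φ (a i) (b i) n z) atTop (𝓝 0)) ∧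
    (∀ a b : Fin 4 → ℕ, ∑ i, ((a i : ℤ) - b i) = 0 → Tendsto (fun n => (∫ z, ζ z *
      ∏ i, Wg g h φ (a i) (b i) n z) - (∏ i, cW (a i) (b i)) *
        (wk ((a 0 : ℤ) - b 0) ((a 1 : ℤ) - b 1) ((a 2 : ℤ) - b 2) ((a 3 : ℤ) - b 3) * (∫ z, ζ z)
          + cl4 ((a 0 : ℤ) - b 0) ((a 1 : ℤ) - b 1) ((a 2 : ℤ) - b 2) ((a 3 : ℤ) - b 3)
            * ((∫ z, ζ z * φ n z ^ 4) - 3 * ∫ z, ζ z))) atTop (𝓝 0))

/-- LWE: error terms: products of at most four mixed derivatives, multiplied by `h`, are small in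
`L¹_loc` -/
def StmtLWE : Prop :=
  ∀ (U : Set ℂ) (g : ℂ → ℝ) (h : ℕ → ℝ) (φ : ℕ → ℂ → ℂ), IsOpen U → ContDiffOn ℝ ∞ g U →
    (∀ z ∈ U, 0 < g z) → LocalQE U g h φ → ∀ K, IsCompact K → K ⊆ U →
    ∀ (r : ℕ) (a b : Fin r → ℕ), r ≤ 4 →
      Tendsto (fun n => h n * ∫ z in K, ‖∏ i, W h φ (a i) (b i) n z‖) atTop (𝓝 0)

end

end QJ


end

section

/-!
Basic calculus of the operators `D` and `Db` which raise and lower the spin.
-/

open Complex MeasureTheory Filter Topology Set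
open scoped ContDiff

namespace QJ

open QE

noncomputable section

variable {σ : ℂ → ℝ}

lemma ex_ofReal (σ : ℂ → ℝ) (k : ℤ) (z : ℂ) : ex σ k z = Complex.exp ((k : ℂ) * σ z) := by
  unfold ex; push_cast; rfl

lemma ex_zero (σ : ℂ → ℝ) (z : ℂ) : ex σ 0 z = 1 := by simp [ex]

lemma ex_ne (σ : ℂ → ℝ) (k : ℤ) (z : ℂ) : ex σ k z ≠ 0 := by
  unfold ex; exact_mod_cast (Real.exp_pos _).ne'

lemma ex_mul (σ : ℂ → ℝ) (k l : ℤ) (z : ℂ) : ex σ k z * ex σ l z = ex σ (k + l) z := by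
  rw [ex_ofReal, ex_ofReal, ex_ofReal, ← Complex.exp_add]; congr 1; push_cast; ring

lemma conj_ex (σ : ℂ → ℝ) (k : ℤ) (z : ℂ) : (starRingEnd ℂ) (ex σ k z) = ex σ k z := by
  unfold ex; exact conj_ofReal _

lemma norm_ex (σ : ℂ → ℝ) (k : ℤ) (z : ℂ) : ‖ex σ k z‖ = Real.exp (k * σ z) := by
  unfold ex; rw [Complex.norm_real, Real.norm_of_nonneg (Real.exp_pos _).le]

lemma contDiff_ex (hσ : ContDiff ℝ ∞ σ) (k : ℤ) : ContDiff ℝ ∞ (ex σ k) := by
  unfold ex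
  exact ofRealCLM.contDiff.comp (Real.contDiff_exp.comp (contDiff_const.mul hσ))

lemma contDiff_sig (hσ : ContDiff ℝ ∞ σ) : ContDiff ℝ ∞ (fun w => (σ w : ℂ)) :=
  ofRealCLM.contDiff.comp hσ

lemma cd_at {f : ℂ → ℂ} (hf : ContDiff ℝ ∞ f) (z : ℂ) : DifferentiableAt ℝ f z :=
  (hf.differentiable (by simp)) z

lemma cd_at2 {f : ℂ → ℂ} (hf : ContDiff ℝ ∞ f) (z : ℂ) : ContDiffAt ℝ 2 f z :=
  hf.contDiffAt.of_le (WithTop.coe_le_coe.2 le_top)

lemma fderiv_ex (hσ : ContDiff ℝ ∞ σ) (k : ℤ) (z v : ℂ) :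
    fderiv ℝ (ex σ k) z v = (k : ℂ) * fderiv ℝ (fun w => (σ w : ℂ)) z v * ex σ k z := by
  have e : ex σ k = fun w => Complex.exp ((k : ℂ) * σ w) := by funext w; exact ex_ofReal σ k w
  have hd : DifferentiableAt ℝ (fun w => (k : ℂ) * (σ w : ℂ)) z := (cd_at (contDiff_sig hσ) z).const_mul _
  rw [e]
  have h1 : HasFDerivAt (fun w => Complex.exp ((k : ℂ) * σ w))
      (Complex.exp ((k : ℂ) * σ z) • fderiv ℝ (fun w => (k : ℂ) * (σ w : ℂ)) z) z := hd.hasFDerivAt.cexp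
  rw [h1.fderiv, fderiv_const_mul (cd_at (contDiff_sig hσ) z)]
  simp only [smul_apply, smul_eq_mul]
  ring

lemma dz_ex (hσ : ContDiff ℝ ∞ σ) (k : ℤ) (z : ℂ) :
    dz (ex σ k) z = (k : ℂ) * dz (fun w => (σ w : ℂ)) z * ex σ k z := by
  unfold dz; rw [fderiv_ex hσ, fderiv_ex hσ]; ring

lemma dzb_ex (hσ : ContDiff ℝ ∞ σ) (k : ℤ) (z : ℂ) :
    dzb (ex σ k) z = (k : ℂ) * dzb (fun w => (σ w : ℂ)) z * ex σ k z := by
  unfold dzb; rw [fderiv_ex hσ, fderiv_ex hσ]; ring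

/-- the explicit form of `D` -/
lemma D_eq (hσ : ContDiff ℝ ∞ σ) (k : ℤ) {f : ℂ → ℂ} {z : ℂ} (hf : DifferentiableAt ℝ f z) :
    D σ k f z = 2 * ex σ (-1) z * (dz f z - k * dz (fun w => (σ w : ℂ)) z * f z) := by
  unfold D
  rw [dz_mul (cd_at (contDiff_ex hσ _) z) hf, dz_ex hσ]
  have e : ex σ (k - 1) z * ex σ (-k) z = ex σ (-1) z := by rw [ex_mul]; congr 1; ring
  rw [← e]; push_cast; ring

/-- the explicit form of `Db` -/
lemma Db_eq (hσ : ContDiff ℝ ∞ σ) (k : ℤ) {f : ℂ → ℂ} {z : ℂ} (hf : DifferentiableAt ℝ f z) :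
    Db σ k f z = 2 * ex σ (-1) z * (dzb f z + k * dzb (fun w => (σ w : ℂ)) z * f z) := by
  unfold Db
  rw [dzb_mul (cd_at (contDiff_ex hσ _) z) hf, dzb_ex hσ]
  have e : ex σ (-k - 1) z * ex σ k z = ex σ (-1) z := by rw [ex_mul]; congr 1; ring
  rw [← e]; ring

lemma contDiff_D (hσ : ContDiff ℝ ∞ σ) (k : ℤ) {f : ℂ → ℂ} (hf : ContDiff ℝ ∞ f) :
    ContDiff ℝ ∞ (D σ k f) :=
  (contDiff_const.mul (contDiff_ex hσ _)).mul (contDiff_dz ((contDiff_ex hσ _).mul hf))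

lemma contDiff_Db (hσ : ContDiff ℝ ∞ σ) (k : ℤ) {f : ℂ → ℂ} (hf : ContDiff ℝ ∞ f) :
    ContDiff ℝ ∞ (Db σ k f) :=
  (contDiff_const.mul (contDiff_ex hσ _)).mul (contDiff_dzb ((contDiff_ex hσ _).mul hf))

/-- Leibniz rule -/
lemma D_mul (hσ : ContDiff ℝ ∞ σ) (k l : ℤ) {f g : ℂ → ℂ} {z : ℂ} (hf : DifferentiableAt ℝ f z)
    (hg : DifferentiableAt ℝ g z) :
    D σ (k + l) (fun w => f w * g w) z = D σ k f z * g z + f z * D σ l g z := by
  rw [D_eq hσ _ (hf.fun_mul hg), D_eq hσ k hf, D_eq hσ l hg, dz_mul hf hg]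
  push_cast; ring

/-- Leibniz rule -/
lemma Db_mul (hσ : ContDiff ℝ ∞ σ) (k l : ℤ) {f g : ℂ → ℂ} {z : ℂ} (hf : DifferentiableAt ℝ f z)
    (hg : DifferentiableAt ℝ g z) :
    Db σ (k + l) (fun w => f w * g w) z = Db σ k f z * g z + f z * Db σ l g z := by
  rw [Db_eq hσ _ (hf.fun_mul hg), Db_eq hσ k hf, Db_eq hσ l hg, dzb_mul hf hg]
  push_cast; ring

lemma D_add (hσ : ContDiff ℝ ∞ σ) (k : ℤ) {f g : ℂ → ℂ} {z : ℂ} (hf : DifferentiableAt ℝ f z)
    (hg : DifferentiableAt ℝ g z) :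
    D σ k (fun w => f w + g w) z = D σ k f z + D σ k g z := by
  rw [D_eq hσ _ (hf.fun_add hg), D_eq hσ k hf, D_eq hσ k hg, dz_add hf hg]; ring

lemma Db_add (hσ : ContDiff ℝ ∞ σ) (k : ℤ) {f g : ℂ → ℂ} {z : ℂ} (hf : DifferentiableAt ℝ f z)
    (hg : DifferentiableAt ℝ g z) :
    Db σ k (fun w => f w + g w) z = Db σ k f z + Db σ k g z := by
  rw [Db_eq hσ _ (hf.fun_add hg), Db_eq hσ k hf, Db_eq hσ k hg, dzb_add hf hg]; ring

lemma D_sub (hσ : ContDiff ℝ ∞ σ) (k : ℤ) {f g : ℂ → ℂ} {z : ℂ} (hf : DifferentiableAt ℝ f z)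
    (hg : DifferentiableAt ℝ g z) :
    D σ k (fun w => f w - g w) z = D σ k f z - D σ k g z := by
  rw [D_eq hσ _ (hf.fun_sub hg), D_eq hσ k hf, D_eq hσ k hg, dz_sub hf hg]; ring

lemma Db_sub (hσ : ContDiff ℝ ∞ σ) (k : ℤ) {f g : ℂ → ℂ} {z : ℂ} (hf : DifferentiableAt ℝ f z)
    (hg : DifferentiableAt ℝ g z) :
    Db σ k (fun w => f w - g w) z = Db σ k f z - Db σ k g z := by
  rw [Db_eq hσ _ (hf.fun_sub hg), Db_eq hσ k hf, Db_eq hσ k hg, dzb_sub hf hg]; ring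

lemma D_const_mul (hσ : ContDiff ℝ ∞ σ) (k : ℤ) (c : ℂ) {f : ℂ → ℂ} {z : ℂ}
    (hf : DifferentiableAt ℝ f z) : D σ k (fun w => c * f w) z = c * D σ k f z := by
  rw [D_eq hσ _ (hf.const_mul c), D_eq hσ k hf, dz_const_mul c hf]; ring

lemma Db_const_mul (hσ : ContDiff ℝ ∞ σ) (k : ℤ) (c : ℂ) {f : ℂ → ℂ} {z : ℂ}
    (hf : DifferentiableAt ℝ f z) : Db σ k (fun w => c * f w) z = c * Db σ k f z := by
  rw [Db_eq hσ _ (hf.const_mul c), Db_eq hσ k hf, dzb_const_mul c hf]; ring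

/-- constants of spin zero -/
lemma D_zero_const (hσ : ContDiff ℝ ∞ σ) (c z : ℂ) : D σ 0 (fun _ => c) z = 0 := by
  rw [D_eq hσ 0 (differentiableAt_const c), dz_const]; simp

lemma Db_zero_const (hσ : ContDiff ℝ ∞ σ) (c z : ℂ) : Db σ 0 (fun _ => c) z = 0 := by
  rw [Db_eq hσ 0 (differentiableAt_const c), dzb_const]; simp

lemma D_congr_on {V : Set ℂ} (hV : IsOpen V) (k : ℤ) {f g : ℂ → ℂ} (h : ∀ z ∈ V, f z = g z) {z : ℂ}
    (hz : z ∈ V) : D σ k f z = D σ k g z := by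
  unfold D
  rw [dz_congr_on hV (f := fun w => ex σ (-k) w * f w) (g := fun w => ex σ (-k) w * g w)
    (fun w hw => by rw [h w hw]) hz]

lemma Db_congr_on {V : Set ℂ} (hV : IsOpen V) (k : ℤ) {f g : ℂ → ℂ} (h : ∀ z ∈ V, f z = g z) {z : ℂ}
    (hz : z ∈ V) : Db σ k f z = Db σ k g z := by
  unfold Db
  rw [dzb_congr_on hV (f := fun w => ex σ k w * f w) (g := fun w => ex σ k w * g w)
    (fun w hw => by rw [h w hw]) hz]

/-- conjugation exchanges `D` and `Db` -/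
lemma D_conj (k : ℤ) {f : ℂ → ℂ} {z : ℂ} (hσ : ContDiff ℝ ∞ σ) (hf : DifferentiableAt ℝ f z) :
    D σ k (fun w => (starRingEnd ℂ) (f w)) z = (starRingEnd ℂ) (Db σ (-k) f z) := by
  have e : (fun w => ex σ (-k) w * (starRingEnd ℂ) (f w))
      = fun w => (starRingEnd ℂ) (ex σ (-k) w * f w) := by
    funext w; rw [map_mul, conj_ex]
  unfold D Db
  rw [e, dz_conj ((cd_at (contDiff_ex hσ _) z).fun_mul hf)]
  simp only [map_mul, map_ofNat, conj_ex, neg_neg]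

lemma Db_conj (k : ℤ) {f : ℂ → ℂ} {z : ℂ} (hσ : ContDiff ℝ ∞ σ) (hf : DifferentiableAt ℝ f z) :
    Db σ k (fun w => (starRingEnd ℂ) (f w)) z = (starRingEnd ℂ) (D σ (-k) f z) := by
  have e : (fun w => ex σ k w * (starRingEnd ℂ) (f w))
      = fun w => (starRingEnd ℂ) (ex σ k w * f w) := by
    funext w; rw [map_mul, conj_ex]
  unfold D Db
  rw [e, dzb_conj ((cd_at (contDiff_ex hσ _) z).fun_mul hf)]
  simp only [map_mul, map_ofNat, conj_ex, neg_neg]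

/-- the commutator -/
lemma comm (hσ : ContDiff ℝ ∞ σ) (k : ℤ) {f : ℂ → ℂ} (hf : ContDiff ℝ ∞ f) (z : ℂ) :
    Db σ (k + 1) (D σ k f) z = D σ (k - 1) (Db σ k f) z + 2 * k * curv σ z * f z := by
  set s : ℂ → ℂ := fun w => (σ w : ℂ) with hs
  have hsc : ContDiff ℝ ∞ s := contDiff_sig hσ
  have d1 : ∀ w, DifferentiableAt ℝ f w := cd_at hf
  have d2 : ∀ w, DifferentiableAt ℝ (dz f) w := cd_at (contDiff_dz hf)
  have d3 : ∀ w, DifferentiableAt ℝ (dzb f) w := cd_at (contDiff_dzb hf)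
  have d4 : ∀ w, DifferentiableAt ℝ (dz s) w := cd_at (contDiff_dz hsc)
  have d5 : ∀ w, DifferentiableAt ℝ (dzb s) w := cd_at (contDiff_dzb hsc)
  have de : ∀ w, DifferentiableAt ℝ (ex σ (-1)) w := cd_at (contDiff_ex hσ _)
  have e1 : D σ k f = fun w => 2 * (ex σ (-1) w * (dz f w - k * (dz s w * f w))) := by
    funext w; rw [D_eq hσ k (d1 w)]; ring
  have e2 : Db σ k f = fun w => 2 * (ex σ (-1) w * (dzb f w + k * (dzb s w * f w))) := by
    funext w; rw [Db_eq hσ k (d1 w)]; ring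
  have i1 : ∀ w, DifferentiableAt ℝ (fun w => dz f w - k * (dz s w * f w)) w := fun w =>
    (d2 w).fun_sub (((d4 w).fun_mul (d1 w)).const_mul _)
  have i2 : ∀ w, DifferentiableAt ℝ (fun w => dzb f w + k * (dzb s w * f w)) w := fun w =>
    (d3 w).fun_add (((d5 w).fun_mul (d1 w)).const_mul _)
  rw [Db_eq hσ (k + 1) (cd_at (contDiff_D hσ k hf) z), D_eq hσ (k - 1) (cd_at (contDiff_Db hσ k hf) z),
    e1, e2, dzb_const_mul _ ((de z).fun_mul (i1 z)), dz_const_mul _ ((de z).fun_mul (i2 z)),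
    dzb_mul (de z) (i1 z), dz_mul (de z) (i2 z), dz_ex hσ, dzb_ex hσ,
    dzb_sub (d2 z) (((d4 z).fun_mul (d1 z)).const_mul _), dz_add (d3 z) (((d5 z).fun_mul (d1 z)).const_mul _),
    dzb_const_mul _ ((d4 z).fun_mul (d1 z)), dz_const_mul _ ((d5 z).fun_mul (d1 z)),
    dzb_mul (d4 z) (d1 z), dz_mul (d5 z) (d1 z)]
  have c1 : dzb (dz f) z = dz (dzb f) z := (dz_dzb_comm (cd_at2 hf z)).symm
  have c2 : dzb (dz s) z = dz (dzb s) z := (dz_dzb_comm (cd_at2 hsc z)).symm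
  have e3 : ex σ (-2) z = ex σ (-1) z * ex σ (-1) z := by rw [ex_mul]; congr 1
  unfold curv
  rw [c1, c2, e3]
  push_cast
  ring

/-- integration by parts: a total derivative -/
lemma int_D (hσ : ContDiff ℝ ∞ σ) {F : ℂ → ℂ} (hF : ContDiff ℝ ∞ F) (hc : HasCompactSupport F) :
    ∫ z, ex σ 2 z * D σ (-1) F z = 0 := by
  have h := integral_dz_eq_zero (f := fun z => ex σ 1 z * F z) ((contDiff_ex hσ _).mul hF) hc.mul_left
  have e : ∀ z, ex σ 2 z * D σ (-1) F z = 2 * dz (fun z => ex σ 1 z * F z) z := by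
    intro z
    unfold D
    have e2 : ex σ 2 z * ex σ (-1 - 1) z = 1 := by
      rw [ex_mul, show (2 : ℤ) + (-1 - 1) = 0 by norm_num, ex_zero]
    rw [show (-(-1) : ℤ) = 1 by norm_num]
    linear_combination (2 * dz (fun w => ex σ 1 w * F w) z) * e2
  simp only [e]
  rw [integral_const_mul, h, mul_zero]

lemma int_Db (hσ : ContDiff ℝ ∞ σ) {F : ℂ → ℂ} (hF : ContDiff ℝ ∞ F) (hc : HasCompactSupport F) :
    ∫ z, ex σ 2 z * Db σ 1 F z = 0 := by
  have h := integral_dzb_eq_zero (f := fun z => ex σ 1 z * F z) ((contDiff_ex hσ _).mul hF) hc.mul_left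
  have e : ∀ z, ex σ 2 z * Db σ 1 F z = 2 * dzb (fun z => ex σ 1 z * F z) z := by
    intro z
    unfold Db
    have e2 : ex σ 2 z * ex σ (-1 - 1) z = 1 := by
      rw [ex_mul, show (2 : ℤ) + (-1 - 1) = 0 by norm_num, ex_zero]
    linear_combination (2 * dzb (fun w => ex σ 1 w * F w) z) * e2
  simp only [e]
  rw [integral_const_mul, h, mul_zero]

lemma test_D {V : Set ℂ} (hσ : ContDiff ℝ ∞ σ) (k : ℤ) {ζ : ℂ → ℂ} (hζ : Test V ζ) :
    Test V (D σ k ζ) := by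
  have h1 : Test V (fun z => ex σ (-k) z * ζ z) := by
    refine ⟨(contDiff_ex hσ _).mul hζ.smooth, hζ.supp.mul_left, ?_⟩
    exact (closure_mono fun z hz => right_ne_zero_of_mul hz).trans hζ.sub
  refine ⟨contDiff_D hσ k hζ.smooth, h1.dz.supp.mul_left, ?_⟩
  exact (closure_mono fun z hz => right_ne_zero_of_mul hz).trans h1.dz.sub

lemma test_Db {V : Set ℂ} (hσ : ContDiff ℝ ∞ σ) (k : ℤ) {ζ : ℂ → ℂ} (hζ : Test V ζ) :
    Test V (Db σ k ζ) := by
  have h1 : Test V (fun z => ex σ k z * ζ z) := by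
    refine ⟨(contDiff_ex hσ _).mul hζ.smooth, hζ.supp.mul_left, ?_⟩
    exact (closure_mono fun z hz => right_ne_zero_of_mul hz).trans hζ.sub
  refine ⟨contDiff_Db hσ k hζ.smooth, h1.dzb.supp.mul_left, ?_⟩
  exact (closure_mono fun z hz => right_ne_zero_of_mul hz).trans h1.dzb.sub

lemma test_mul {V : Set ℂ} {ζ f : ℂ → ℂ} (hζ : Test V ζ) (hf : ContDiff ℝ ∞ f) :
    Test V (fun z => ζ z * f z) := by
  refine ⟨hζ.smooth.mul hf, hζ.supp.mul_right, ?_⟩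
  exact (closure_mono fun z hz => left_ne_zero_of_mul hz).trans hζ.sub

lemma test_int {V : Set ℂ} {ζ f : ℂ → ℂ} (hζ : Test V ζ) (hf : Continuous f) :
    Integrable (fun z => ζ z * f z) :=
  (hζ.smooth.continuous.mul hf).integrable_of_hasCompactSupport hζ.supp.mul_right

/-- integration by parts for `D`: total spin `-1` -/
lemma ibp_D {V : Set ℂ} (hσ : ContDiff ℝ ∞ σ) (k : ℤ) {ζ f g : ℂ → ℂ} (hζ : Test V ζ)
    (hf : ContDiff ℝ ∞ f) (hg : ContDiff ℝ ∞ g) :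
    ∫ z, ex σ 2 z * (ζ z * (D σ k f z * g z))
      = - (∫ z, ex σ 2 z * (D σ 0 ζ z * (f z * g z)))
        - ∫ z, ex σ 2 z * (ζ z * (f z * D σ (-k - 1) g z)) := by
  have h1 := int_D hσ (F := fun z => ζ z * (f z * g z)) (hζ.smooth.mul (hf.mul hg)) hζ.supp.mul_right
  have e : ∀ z, ex σ 2 z * D σ (-1) (fun z => ζ z * (f z * g z)) z
      = ex σ 2 z * (D σ 0 ζ z * (f z * g z)) + (ex σ 2 z * (ζ z * (D σ k f z * g z))
        + ex σ 2 z * (ζ z * (f z * D σ (-k - 1) g z))) := by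
    intro z
    have a1 := D_mul hσ 0 (-1) (cd_at hζ.smooth z) ((cd_at hf z).fun_mul (cd_at hg z))
    have a2 := D_mul hσ k (-k - 1) (cd_at hf z) (cd_at hg z)
    rw [show k + (-k - 1) = -1 by ring] at a2
    rw [zero_add] at a1
    rw [a1, a2]; ring
  have i1 : Integrable fun z => ex σ 2 z * (D σ 0 ζ z * (f z * g z)) := by
    have := test_int (test_D hσ 0 hζ) ((contDiff_ex hσ 2).mul (hf.mul hg)).continuous
    refine this.congr (Filter.Eventually.of_forall fun z => ?_)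
    simp only []; ring
  have i2 : Integrable fun z => ex σ 2 z * (ζ z * (D σ k f z * g z)) := by
    have := test_int hζ ((contDiff_ex hσ 2).mul ((contDiff_D hσ k hf).mul hg)).continuous
    refine this.congr (Filter.Eventually.of_forall fun z => ?_)
    simp only []; ring
  have i3 : Integrable fun z => ex σ 2 z * (ζ z * (f z * D σ (-k - 1) g z)) := by
    have := test_int hζ ((contDiff_ex hσ 2).mul (hf.mul (contDiff_D hσ (-k - 1) hg))).continuous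
    refine this.congr (Filter.Eventually.of_forall fun z => ?_)
    simp only []; ring
  have i4 : Integrable fun z => ex σ 2 z * (ζ z * (D σ k f z * g z))
      + ex σ 2 z * (ζ z * (f z * D σ (-k - 1) g z)) := i2.add i3
  simp only [e] at h1
  rw [integral_add i1 i4, integral_add i2 i3] at h1
  linear_combination h1

/-- integration by parts for `Db`: total spin `1` -/
lemma ibp_Db {V : Set ℂ} (hσ : ContDiff ℝ ∞ σ) (k : ℤ) {ζ f g : ℂ → ℂ} (hζ : Test V ζ)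
    (hf : ContDiff ℝ ∞ f) (hg : ContDiff ℝ ∞ g) :
    ∫ z, ex σ 2 z * (ζ z * (Db σ k f z * g z))
      = - (∫ z, ex σ 2 z * (Db σ 0 ζ z * (f z * g z)))
        - ∫ z, ex σ 2 z * (ζ z * (f z * Db σ (-k + 1) g z)) := by
  have h1 := int_Db hσ (F := fun z => ζ z * (f z * g z)) (hζ.smooth.mul (hf.mul hg)) hζ.supp.mul_right
  have e : ∀ z, ex σ 2 z * Db σ 1 (fun z => ζ z * (f z * g z)) z
      = ex σ 2 z * (Db σ 0 ζ z * (f z * g z)) + (ex σ 2 z * (ζ z * (Db σ k f z * g z))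
        + ex σ 2 z * (ζ z * (f z * Db σ (-k + 1) g z))) := by
    intro z
    have a1 := Db_mul hσ 0 1 (cd_at hζ.smooth z) ((cd_at hf z).fun_mul (cd_at hg z))
    have a2 := Db_mul hσ k (-k + 1) (cd_at hf z) (cd_at hg z)
    rw [show k + (-k + 1) = 1 by ring] at a2
    rw [zero_add] at a1
    rw [a1, a2]; ring
  have i1 : Integrable fun z => ex σ 2 z * (Db σ 0 ζ z * (f z * g z)) := by
    have := test_int (test_Db hσ 0 hζ) ((contDiff_ex hσ 2).mul (hf.mul hg)).continuous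
    refine this.congr (Filter.Eventually.of_forall fun z => ?_)
    simp only []; ring
  have i2 : Integrable fun z => ex σ 2 z * (ζ z * (Db σ k f z * g z)) := by
    have := test_int hζ ((contDiff_ex hσ 2).mul ((contDiff_Db hσ k hf).mul hg)).continuous
    refine this.congr (Filter.Eventually.of_forall fun z => ?_)
    simp only []; ring
  have i3 : Integrable fun z => ex σ 2 z * (ζ z * (f z * Db σ (-k + 1) g z)) := by
    have := test_int hζ ((contDiff_ex hσ 2).mul (hf.mul (contDiff_Db hσ (-k + 1) hg))).continuous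
    refine this.congr (Filter.Eventually.of_forall fun z => ?_)
    simp only []; ring
  have i4 : Integrable fun z => ex σ 2 z * (ζ z * (Db σ k f z * g z))
      + ex σ 2 z * (ζ z * (f z * Db σ (-k + 1) g z)) := i2.add i3
  simp only [e] at h1
  rw [integral_add i1 i4, integral_add i2 i3] at h1
  linear_combination h1

end

end QJ


end

section

/-!
Derivatives of dominated functions tend weakly to zero after multiplication by `h`.
-/

open Complex MeasureTheory Filter Topology Set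
open scoped ContDiff

namespace QJ

open QE

noncomputable section

namespace IBP

/-- the integral of a test function against a smooth function is bounded by the `L¹` norm on the
support -/
lemma norm_int_le {V : Set ℂ} {η : ℂ → ℂ} (hη : Test V η) :
    ∃ M : ℝ, ∀ f : ℂ → ℂ, Continuous f →
      ‖∫ z, η z * f z‖ ≤ M * ∫ z in tsupport η, ‖f z‖ := by
  obtain ⟨M, hM⟩ := hη.smooth.continuous.bounded_above_of_compact_support hη.supp
  refine ⟨M, fun f hf => ?_⟩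
  have hK : IsCompact (tsupport η) := hη.supp
  have e : ∫ z, η z * f z = ∫ z in tsupport η, η z * f z := by
    symm
    apply setIntegral_eq_integral_of_forall_compl_eq_zero
    intro z hz
    rw [image_eq_zero_of_notMem_tsupport hz, zero_mul]
  rw [e]
  have hi : IntegrableOn f (tsupport η) := hf.continuousOn.integrableOn_compact hK
  calc ‖∫ z in tsupport η, η z * f z‖ ≤ ∫ z in tsupport η, ‖η z * f z‖ :=
        norm_integral_le_integral_norm _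
    _ ≤ ∫ z in tsupport η, M * ‖f z‖ := by
        refine integral_mono ?_ (hi.norm.const_mul M) fun z => ?_
        · exact ((hη.smooth.continuous.mul hf).continuousOn.integrableOn_compact hK).norm
        · show ‖η z * f z‖ ≤ M * ‖f z‖
          rw [norm_mul]
          exact mul_le_mul_of_nonneg_right (hM z) (norm_nonneg _)
    _ = M * ∫ z in tsupport η, ‖f z‖ := integral_const_mul _ _

/-- the limit against a fixed test function -/
lemma lim_test {V : Set ℂ} {h : ℕ → ℝ} {u : ℕ → ℂ → ℂ} (hh : ∀ n, 0 < h n)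
    (hu : ∀ n, ContDiff ℝ ∞ (u n))
    (hK : ∀ K, IsCompact K → K ⊆ V → Tendsto (fun n => h n * ∫ z in K, ‖u n z‖) atTop (𝓝 0))
    {η : ℂ → ℂ} (hη : Test V η) :
    Tendsto (fun n => (h n : ℂ) * ∫ z, η z * u n z) atTop (𝓝 0) := by
  obtain ⟨M, hM⟩ := norm_int_le hη
  have h1 := (hK (tsupport η) hη.supp hη.sub).const_mul M
  rw [mul_zero] at h1
  refine squeeze_zero_norm (fun n => ?_) h1
  rw [norm_mul, Complex.norm_real, Real.norm_of_nonneg (hh n).le]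
  calc h n * ‖∫ z, η z * u n z‖ ≤ h n * (M * ∫ z in tsupport η, ‖u n z‖) :=
        mul_le_mul_of_nonneg_left (hM (u n) (hu n).continuous) (hh n).le
    _ = M * (h n * ∫ z in tsupport η, ‖u n z‖) := by ring

end IBP

open _root_.QJ.IBP in
theorem stmtIbp (hInt : StmtInt) : StmtIbp := by
  intro V σ h φ u k hV hσ hh hh0 hφ hG hu hB ζ hζ
  have hK := (hInt V h φ u hh hh0 hφ hG hu).2.2 hB
  constructor
  · have tA : Test V (fun z => ζ z * (2 * ex σ (k - 1) z)) :=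
      test_mul hζ (contDiff_const.mul (contDiff_ex hσ _))
    have tη : Test V (fun z => dz (fun z => ζ z * (2 * ex σ (k - 1) z)) z * ex σ (-k) z) :=
      test_mul tA.dz (contDiff_ex hσ _)
    have h1 := (lim_test hh hu hK tη).neg
    rw [neg_zero] at h1
    refine h1.congr fun n => ?_
    have i1 := integral_mul_dz hV tA (f := fun w => ex σ (-k) w * u n w)
      ((contDiff_ex hσ _).mul (hu n)).contDiffOn
    have e1 : ∫ z, ζ z * ((h n : ℂ) * D σ k (u n) z)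
        = (h n : ℂ) * ∫ z, (ζ z * (2 * ex σ (k - 1) z)) * dz (fun w => ex σ (-k) w * u n w) z := by
      rw [← integral_const_mul]
      refine integral_congr_ae (Filter.Eventually.of_forall fun z => ?_)
      show ζ z * ((h n : ℂ) * D σ k (u n) z) = _
      unfold D
      ring
    rw [e1, i1, mul_neg]
    congr 2
    refine integral_congr_ae (Filter.Eventually.of_forall fun z => ?_)
    show dz (fun z => ζ z * (2 * ex σ (k - 1) z)) z * ex σ (-k) z * u n z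
      = dz (fun z => ζ z * (2 * ex σ (k - 1) z)) z * (ex σ (-k) z * u n z)
    ring
  · have tA : Test V (fun z => ζ z * (2 * ex σ (-k - 1) z)) :=
      test_mul hζ (contDiff_const.mul (contDiff_ex hσ _))
    have tη : Test V (fun z => dzb (fun z => ζ z * (2 * ex σ (-k - 1) z)) z * ex σ k z) :=
      test_mul tA.dzb (contDiff_ex hσ _)
    have h1 := (lim_test hh hu hK tη).neg
    rw [neg_zero] at h1
    refine h1.congr fun n => ?_
    have i1 := integral_mul_dzb hV tA (f := fun w => ex σ k w * u n w)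
      ((contDiff_ex hσ _).mul (hu n)).contDiffOn
    have e1 : ∫ z, ζ z * ((h n : ℂ) * Db σ k (u n) z)
        = (h n : ℂ) * ∫ z, (ζ z * (2 * ex σ (-k - 1) z)) * dzb (fun w => ex σ k w * u n w) z := by
      rw [← integral_const_mul]
      refine integral_congr_ae (Filter.Eventually.of_forall fun z => ?_)
      show ζ z * ((h n : ℂ) * Db σ k (u n) z) = _
      unfold Db
      ring
    rw [e1, i1, mul_neg]
    congr 2
    refine integral_congr_ae (Filter.Eventually.of_forall fun z => ?_)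
    show dzb (fun z => ζ z * (2 * ex σ (-k - 1) z)) z * ex σ k z * u n z
      = dzb (fun z => ζ z * (2 * ex σ (-k - 1) z)) z * (ex σ k z * u n z)
    ring

end

end QJ


end

section

/-!
Dominated sequences: closure properties.
-/

open Complex MeasureTheory Filter Topology Set
open scoped ContDiff

namespace QJ

open QE

noncomputable section

variable {V : Set ℂ} {σ : ℂ → ℝ} {h : ℕ → ℝ} {φ : ℕ → ℂ → ℂ}

lemma one_le_RR (h : ℕ → ℝ) (φ : ℕ → ℂ → ℂ) (N n : ℕ) (z : ℂ) : 1 ≤ RR h φ N n z := by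
  unfold RR
  have : 0 ≤ ∑ a ∈ Finset.range (N + 1), ∑ b ∈ Finset.range (N + 1), ‖W h φ a b n z‖ ^ 2 :=
    Finset.sum_nonneg fun a _ => Finset.sum_nonneg fun b _ => by positivity
  linarith

lemma RR_pos (h : ℕ → ℝ) (φ : ℕ → ℂ → ℂ) (N n : ℕ) (z : ℂ) : 0 < RR h φ N n z :=
  lt_of_lt_of_le one_pos (one_le_RR h φ N n z)

lemma RR_mono {N N' : ℕ} (hN : N ≤ N') (n : ℕ) (z : ℂ) : RR h φ N n z ≤ RR h φ N' n z := by
  unfold RR
  have hs : Finset.range (N + 1) ⊆ Finset.range (N' + 1) := Finset.range_mono (by omega)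
  gcongr 1 + ?_
  calc ∑ a ∈ Finset.range (N + 1), ∑ b ∈ Finset.range (N + 1), ‖W h φ a b n z‖ ^ 2
      ≤ ∑ a ∈ Finset.range (N + 1), ∑ b ∈ Finset.range (N' + 1), ‖W h φ a b n z‖ ^ 2 :=
        Finset.sum_le_sum fun a _ => Finset.sum_le_sum_of_subset_of_nonneg hs
          fun b _ _ => by positivity
    _ ≤ ∑ a ∈ Finset.range (N' + 1), ∑ b ∈ Finset.range (N' + 1), ‖W h φ a b n z‖ ^ 2 :=
        Finset.sum_le_sum_of_subset_of_nonneg hs fun a _ _ =>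
          Finset.sum_nonneg fun b _ => by positivity

lemma W_sq_le {a b N : ℕ} (ha : a ≤ N) (hb : b ≤ N) (n : ℕ) (z : ℂ) :
    ‖W h φ a b n z‖ ^ 2 ≤ RR h φ N n z := by
  unfold RR
  have h1 : ‖W h φ a b n z‖ ^ 2 ≤ ∑ b' ∈ Finset.range (N + 1), ‖W h φ a b' n z‖ ^ 2 :=
    Finset.single_le_sum (f := fun b' => ‖W h φ a b' n z‖ ^ 2) (fun b' _ => by positivity)
      (Finset.mem_range.2 (by omega))
  have h2 : ∑ b' ∈ Finset.range (N + 1), ‖W h φ a b' n z‖ ^ 2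
      ≤ ∑ a' ∈ Finset.range (N + 1), ∑ b' ∈ Finset.range (N + 1), ‖W h φ a' b' n z‖ ^ 2 :=
    Finset.single_le_sum (f := fun a' => ∑ b' ∈ Finset.range (N + 1), ‖W h φ a' b' n z‖ ^ 2)
      (fun a' _ => Finset.sum_nonneg fun b' _ => by positivity) (Finset.mem_range.2 (by omega))
  linarith

lemma contDiff_iter_dz {f : ℂ → ℂ} (hf : ContDiff ℝ ∞ f) (a : ℕ) : ContDiff ℝ ∞ (dz^[a] f) := by
  induction a with
  | zero => exact hf
  | succ a ih => rw [Function.iterate_succ_apply']; exact contDiff_dz ih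

lemma contDiff_iter_dzb {f : ℂ → ℂ} (hf : ContDiff ℝ ∞ f) (a : ℕ) : ContDiff ℝ ∞ (dzb^[a] f) := by
  induction a with
  | zero => exact hf
  | succ a ih => rw [Function.iterate_succ_apply']; exact contDiff_dzb ih

lemma dzb_iter_dz {f : ℂ → ℂ} (hf : ContDiff ℝ ∞ f) (a : ℕ) (z : ℂ) :
    dzb (dz^[a] f) z = dz^[a] (dzb f) z := by
  induction a generalizing f with
  | zero => rfl
  | succ a ih =>
    rw [Function.iterate_succ_apply, ih (contDiff_dz hf), Function.iterate_succ_apply]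
    have : dzb (dz f) = dz (dzb f) := by funext w; exact (dz_dzb_comm (cd_at2 hf w)).symm
    rw [this]

lemma contDiff_W (hφ : ∀ n, ContDiff ℝ ∞ (φ n)) (a b n : ℕ) : ContDiff ℝ ∞ (W h φ a b n) := by
  unfold W
  exact contDiff_const.mul (contDiff_iter_dz (contDiff_iter_dzb (hφ n) b) a)

lemma continuous_RR (hφ : ∀ n, ContDiff ℝ ∞ (φ n)) (N n : ℕ) : Continuous (RR h φ N n) := by
  unfold RR
  refine continuous_const.add (continuous_finsetSum _ fun a _ => continuous_finsetSum _ fun b _ =>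
    ((contDiff_W hφ a b n).continuous.norm.pow 2))

lemma W_zero : W h φ 0 0 = φ := by
  funext n z; simp [W]

lemma hdz_W (hφ : ∀ n, ContDiff ℝ ∞ (φ n)) (a b n : ℕ) (z : ℂ) :
    (h n : ℂ) * dz (W h φ a b n) z = W h φ (a + 1) b n z := by
  unfold W
  rw [dz_const_mul _ (cd_at (contDiff_iter_dz (contDiff_iter_dzb (hφ n) b) a) z),
    Function.iterate_succ_apply']
  ring

lemma hdzb_W (hφ : ∀ n, ContDiff ℝ ∞ (φ n)) (a b n : ℕ) (z : ℂ) :
    (h n : ℂ) * dzb (W h φ a b n) z = W h φ a (b + 1) n z := by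
  unfold W
  rw [dzb_const_mul _ (cd_at (contDiff_iter_dz (contDiff_iter_dzb (hφ n) b) a) z),
    dzb_iter_dz (contDiff_iter_dzb (hφ n) b), Function.iterate_succ_apply']
  ring

/-! ### `Bq` -/

lemma Bq.congr {q : ℕ} {u v : ℕ → ℂ → ℂ} (hu : Bq V h φ q u) (he : ∀ n, ∀ z ∈ V, u n z = v n z) :
    Bq V h φ q v := by
  intro K hK hKV
  obtain ⟨N, C, hC⟩ := hu K hK hKV
  refine ⟨N, C, ?_⟩
  filter_upwards [hC] with n hn z hz
  rw [← he n z (hKV hz)]; exact hn z hz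

/-- the constant may be taken positive, and the order as large as one likes -/
lemma Bq.pos {q : ℕ} {u : ℕ → ℂ → ℂ} (hu : Bq V h φ q u) {K : Set ℂ} (hK : IsCompact K)
    (hKV : K ⊆ V) : ∃ (N : ℕ) (C : ℝ), 0 < C ∧ ∀ N' ≥ N, ∀ᶠ n in atTop, ∀ z ∈ K,
      ‖u n z‖ ^ 2 ≤ C * RR h φ N' n z ^ q := by
  obtain ⟨N, C, hC⟩ := hu K hK hKV
  refine ⟨N, max C 1, by positivity, fun N' hN' => ?_⟩
  filter_upwards [hC] with n hn z hz
  have h1 := RR_pos h φ N n z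
  calc ‖u n z‖ ^ 2 ≤ C * RR h φ N n z ^ q := hn z hz
    _ ≤ max C 1 * RR h φ N n z ^ q := by gcongr; exact le_max_left _ _
    _ ≤ max C 1 * RR h φ N' n z ^ q := by gcongr; exact RR_mono hN' n z

lemma Bq.mono {q q' : ℕ} (hq : q ≤ q') {u : ℕ → ℂ → ℂ} (hu : Bq V h φ q u) : Bq V h φ q' u := by
  intro K hK hKV
  obtain ⟨N, C, hC0, hC⟩ := hu.pos hK hKV
  refine ⟨N, C, ?_⟩
  filter_upwards [hC N le_rfl] with n hn z hz
  refine (hn z hz).trans ?_
  gcongr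
  exact one_le_RR h φ N n z

lemma Bq.add {q : ℕ} {u v : ℕ → ℂ → ℂ} (hu : Bq V h φ q u) (hv : Bq V h φ q v) :
    Bq V h φ q (fun n z => u n z + v n z) := by
  intro K hK hKV
  obtain ⟨N, C, hC0, hC⟩ := hu.pos hK hKV
  obtain ⟨N', C', hC0', hC'⟩ := hv.pos hK hKV
  refine ⟨max N N', 2 * (C + C'), ?_⟩
  filter_upwards [hC _ (le_max_left N N'), hC' _ (le_max_right N N')] with n h1 h2 z hz
  have a1 := h1 z hz
  have a2 := h2 z hz
  have a3 : ‖u n z + v n z‖ ^ 2 ≤ (‖u n z‖ + ‖v n z‖) ^ 2 := by gcongr; exact norm_add_le _ _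
  linarith only [a1, a2, a3, sq_nonneg (‖u n z‖ - ‖v n z‖)]

lemma Bq.mul {q q' : ℕ} {u v : ℕ → ℂ → ℂ} (hu : Bq V h φ q u) (hv : Bq V h φ q' v) :
    Bq V h φ (q + q') (fun n z => u n z * v n z) := by
  intro K hK hKV
  obtain ⟨N, C, hC0, hC⟩ := hu.pos hK hKV
  obtain ⟨N', C', hC0', hC'⟩ := hv.pos hK hKV
  refine ⟨max N N', C * C', ?_⟩
  filter_upwards [hC _ (le_max_left N N'), hC' _ (le_max_right N N')] with n h1 h2 z hz
  have a1 := h1 z hz
  have a2 := h2 z hz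
  have h3 := RR_pos h φ (max N N') n z
  rw [norm_mul, mul_pow, pow_add]
  calc ‖u n z‖ ^ 2 * ‖v n z‖ ^ 2 ≤ (C * RR h φ (max N N') n z ^ q) * (C' * RR h φ (max N N') n z ^ q') := by
        (clear * - a1 a2 hC0 h3; gcongr)
    _ = C * C' * (RR h φ (max N N') n z ^ q * RR h φ (max N N') n z ^ q') := by ring

lemma Bq.const_mul {q : ℕ} {c : ℕ → ℂ} {B : ℝ} (hc : ∀ᶠ n in atTop, ‖c n‖ ≤ B) {u : ℕ → ℂ → ℂ}
    (hu : Bq V h φ q u) : Bq V h φ q (fun n z => c n * u n z) := by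
  intro K hK hKV
  obtain ⟨N, C, hC0, hC⟩ := hu.pos hK hKV
  refine ⟨N, B ^ 2 * C, ?_⟩
  filter_upwards [hC N le_rfl, hc] with n h1 h2 z hz
  have h3 := RR_pos h φ N n z
  rw [norm_mul, mul_pow, mul_assoc]
  have h4 := h1 z hz
  gcongr

lemma Bq.conj {q : ℕ} {u : ℕ → ℂ → ℂ} (hu : Bq V h φ q u) :
    Bq V h φ q (fun n z => (starRingEnd ℂ) (u n z)) := by
  intro K hK hKV
  obtain ⟨N, C, hC⟩ := hu K hK hKV
  refine ⟨N, C, ?_⟩
  filter_upwards [hC] with n hn z hz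
  rw [RCLike.norm_conj]; exact hn z hz

lemma Bq.of_fn (q : ℕ) {b : ℂ → ℂ} (hb : ContinuousOn b V) : Bq V h φ q (fun _ z => b z) := by
  intro K hK hKV
  obtain ⟨c, hc⟩ := hK.exists_bound_of_continuousOn (hb.mono hKV)
  refine ⟨0, c ^ 2, Filter.Eventually.of_forall fun n z hz => ?_⟩
  have h1 := hc z hz
  have h2 : (1 : ℝ) ≤ RR h φ 0 n z ^ q := one_le_pow₀ (one_le_RR h φ 0 n z)
  calc ‖b z‖ ^ 2 ≤ c ^ 2 := by gcongr
    _ = c ^ 2 * 1 := (mul_one _).symm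
    _ ≤ c ^ 2 * RR h φ 0 n z ^ q := by gcongr

lemma Bq.fn_mul {q : ℕ} {b : ℂ → ℂ} (hb : ContinuousOn b V) {u : ℕ → ℂ → ℂ} (hu : Bq V h φ q u) :
    Bq V h φ q (fun n z => b z * u n z) := by
  have := (Bq.of_fn (V := V) (h := h) (φ := φ) 0 hb).mul hu
  rwa [zero_add] at this

/-! ### `BqK` -/

lemma BqK.base {q k : ℕ} {u : ℕ → ℂ → ℂ} (hu : BqK V h φ q k u) : Bq V h φ q u := by
  cases k with
  | zero => exact hu
  | succ k => exact hu.1

lemma BqK.pred {q k : ℕ} : ∀ {u : ℕ → ℂ → ℂ}, BqK V h φ q (k + 1) u → BqK V h φ q k u := by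
  induction k with
  | zero => intro u hu; exact hu.1
  | succ k ih => intro u hu; exact ⟨hu.1, ih hu.2.1, ih hu.2.2⟩

lemma BqK.congr (hV : IsOpen V) {q k : ℕ} : ∀ {u v : ℕ → ℂ → ℂ}, BqK V h φ q k u →
    (∀ n, ∀ z ∈ V, u n z = v n z) → BqK V h φ q k v := by
  induction k with
  | zero => intro u v hu he; exact Bq.congr hu he
  | succ k ih =>
    intro u v hu he
    refine ⟨hu.1.congr he, ih hu.2.1 fun n z hz => ?_, ih hu.2.2 fun n z hz => ?_⟩
    · rw [dz_congr_on hV (he n) hz]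
    · rw [dzb_congr_on hV (he n) hz]

lemma BqK.mono {q q' : ℕ} (hq : q ≤ q') {k : ℕ} : ∀ {u : ℕ → ℂ → ℂ}, BqK V h φ q k u →
    BqK V h φ q' k u := by
  induction k with
  | zero => intro u hu; exact Bq.mono hq hu
  | succ k ih => intro u hu; exact ⟨hu.1.mono hq, ih hu.2.1, ih hu.2.2⟩

lemma BqK.add (hV : IsOpen V) {q k : ℕ} : ∀ {u v : ℕ → ℂ → ℂ}, BqK V h φ q k u →
    (∀ n, ContDiff ℝ ∞ (u n)) → BqK V h φ q k v → (∀ n, ContDiff ℝ ∞ (v n)) →
    BqK V h φ q k (fun n z => u n z + v n z) := by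
  induction k with
  | zero => intro u v hu _ hv _; exact Bq.add hu hv
  | succ k ih =>
    intro u v hu su hv sv
    refine ⟨hu.1.add hv.1, ?_, ?_⟩
    · refine (ih hu.2.1 (fun n => contDiff_const.mul (contDiff_dz (su n))) hv.2.1
        (fun n => contDiff_const.mul (contDiff_dz (sv n)))).congr hV fun n z _ => ?_
      rw [dz_add (cd_at (su n) z) (cd_at (sv n) z)]; ring
    · refine (ih hu.2.2 (fun n => contDiff_const.mul (contDiff_dzb (su n))) hv.2.2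
        (fun n => contDiff_const.mul (contDiff_dzb (sv n)))).congr hV fun n z _ => ?_
      rw [dzb_add (cd_at (su n) z) (cd_at (sv n) z)]; ring

lemma BqK.const_mul (hV : IsOpen V) {q : ℕ} {c : ℕ → ℂ} {B : ℝ} (hc : ∀ᶠ n in atTop, ‖c n‖ ≤ B)
    {k : ℕ} : ∀ {u : ℕ → ℂ → ℂ}, BqK V h φ q k u → (∀ n, ContDiff ℝ ∞ (u n)) →
    BqK V h φ q k (fun n z => c n * u n z) := by
  induction k with
  | zero => intro u hu _; exact Bq.const_mul hc hu
  | succ k ih =>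
    intro u hu su
    refine ⟨hu.1.const_mul hc, ?_, ?_⟩
    · refine (ih hu.2.1 (fun n => contDiff_const.mul (contDiff_dz (su n)))).congr hV fun n z _ => ?_
      rw [dz_const_mul _ (cd_at (su n) z)]; ring
    · refine (ih hu.2.2 (fun n => contDiff_const.mul (contDiff_dzb (su n)))).congr hV fun n z _ => ?_
      rw [dzb_const_mul _ (cd_at (su n) z)]; ring

lemma BqK.conj (hV : IsOpen V) {q k : ℕ} : ∀ {u : ℕ → ℂ → ℂ}, BqK V h φ q k u →
    (∀ n, ContDiff ℝ ∞ (u n)) → BqK V h φ q k (fun n z => (starRingEnd ℂ) (u n z)) := by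
  induction k with
  | zero => intro u hu _; exact Bq.conj hu
  | succ k ih =>
    intro u hu su
    refine ⟨hu.1.conj, ?_, ?_⟩
    · refine (ih hu.2.2 (fun n => contDiff_const.mul (contDiff_dzb (su n)))).congr hV fun n z _ => ?_
      rw [dz_conj (cd_at (su n) z)]; simp
    · refine (ih hu.2.1 (fun n => contDiff_const.mul (contDiff_dz (su n)))).congr hV fun n z _ => ?_
      rw [dzb_conj (cd_at (su n) z)]; simp

lemma BqK.mul (hV : IsOpen V) {k : ℕ} : ∀ {q q' : ℕ} {u v : ℕ → ℂ → ℂ}, BqK V h φ q k u →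
    (∀ n, ContDiff ℝ ∞ (u n)) → BqK V h φ q' k v → (∀ n, ContDiff ℝ ∞ (v n)) →
    BqK V h φ (q + q') k (fun n z => u n z * v n z) := by
  induction k with
  | zero => intro q q' u v hu _ hv _; exact Bq.mul hu hv
  | succ k ih =>
    intro q q' u v hu su hv sv
    have su1 : ∀ n, ContDiff ℝ ∞ (fun z => (h n : ℂ) * dz (u n) z) := fun n =>
      contDiff_const.mul (contDiff_dz (su n))
    have su2 : ∀ n, ContDiff ℝ ∞ (fun z => (h n : ℂ) * dzb (u n) z) := fun n =>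
      contDiff_const.mul (contDiff_dzb (su n))
    have sv1 : ∀ n, ContDiff ℝ ∞ (fun z => (h n : ℂ) * dz (v n) z) := fun n =>
      contDiff_const.mul (contDiff_dz (sv n))
    have sv2 : ∀ n, ContDiff ℝ ∞ (fun z => (h n : ℂ) * dzb (v n) z) := fun n =>
      contDiff_const.mul (contDiff_dzb (sv n))
    refine ⟨hu.1.mul hv.1, ?_, ?_⟩
    · refine ((ih hu.2.1 su1 hv.pred sv).add hV (fun n => (su1 n).mul (sv n)) (ih hu.pred su hv.2.1 sv1)
        (fun n => (su n).mul (sv1 n))).congr hV fun n z _ => ?_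
      rw [dz_mul (cd_at (su n) z) (cd_at (sv n) z)]; ring
    · refine ((ih hu.2.2 su2 hv.pred sv).add hV (fun n => (su2 n).mul (sv n)) (ih hu.pred su hv.2.2 sv2)
        (fun n => (su n).mul (sv2 n))).congr hV fun n z _ => ?_
      rw [dzb_mul (cd_at (su n) z) (cd_at (sv n) z)]; ring

lemma BqK.of_fn (hV : IsOpen V) (hh0 : Tendsto h atTop (𝓝 0)) (q : ℕ) {k : ℕ} : ∀ {b : ℂ → ℂ},
    ContDiff ℝ ∞ b → BqK V h φ q k (fun _ z => b z) := by
  induction k with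
  | zero => intro b hb; exact Bq.of_fn q hb.continuous.continuousOn
  | succ k ih =>
    intro b hb
    exact ⟨Bq.of_fn q hb.continuous.continuousOn,
      (ih (contDiff_dz hb)).const_mul hV (hbd hh0) fun _ => contDiff_dz hb,
      (ih (contDiff_dzb hb)).const_mul hV (hbd hh0) fun _ => contDiff_dzb hb⟩

lemma BqK.W (hφ : ∀ n, ContDiff ℝ ∞ (φ n)) (hV : IsOpen V) {k : ℕ} : ∀ a b : ℕ,
    BqK V h φ 1 k (QJ.W h φ a b) := by
  have h0 : ∀ a b : ℕ, Bq V h φ 1 (QJ.W h φ a b) := fun a b K _ _ =>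
    ⟨max a b, 1, Filter.Eventually.of_forall fun n z _ => by
      rw [one_mul, pow_one]; exact W_sq_le (le_max_left _ _) (le_max_right _ _) n z⟩
  induction k with
  | zero => exact h0
  | succ k ih =>
    intro a b
    exact ⟨h0 a b, (ih (a + 1) b).congr hV fun n z _ => (hdz_W hφ a b n z).symm,
      (ih a (b + 1)).congr hV fun n z _ => (hdzb_W hφ a b n z).symm⟩

/-! ### `Dom` -/

lemma Dom.bq {q : ℕ} {u : ℕ → ℂ → ℂ} (hu : Dom V h φ q u) : Bq V h φ q u := hu.bd 0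

lemma Dom.congr (hV : IsOpen V) {q : ℕ} {u v : ℕ → ℂ → ℂ} (hu : Dom V h φ q u)
    (hv : ∀ n, ContDiff ℝ ∞ (v n)) (he : ∀ n, ∀ z ∈ V, u n z = v n z) : Dom V h φ q v :=
  ⟨hv, fun k => (hu.bd k).congr hV he⟩

lemma Dom.mono {q q' : ℕ} (hq : q ≤ q') {u : ℕ → ℂ → ℂ} (hu : Dom V h φ q u) : Dom V h φ q' u :=
  ⟨hu.smooth, fun k => (hu.bd k).mono hq⟩

lemma Dom.add (hV : IsOpen V) {q : ℕ} {u v : ℕ → ℂ → ℂ} (hu : Dom V h φ q u) (hv : Dom V h φ q v) :
    Dom V h φ q (fun n z => u n z + v n z) :=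
  ⟨fun n => (hu.smooth n).add (hv.smooth n), fun k => (hu.bd k).add hV hu.smooth (hv.bd k) hv.smooth⟩

lemma Dom.const_mul (hV : IsOpen V) {q : ℕ} {c : ℕ → ℂ} {B : ℝ} (hc : ∀ᶠ n in atTop, ‖c n‖ ≤ B)
    {u : ℕ → ℂ → ℂ} (hu : Dom V h φ q u) : Dom V h φ q (fun n z => c n * u n z) :=
  ⟨fun n => contDiff_const.mul (hu.smooth n), fun k => (hu.bd k).const_mul hV hc hu.smooth⟩

lemma Dom.smul (hV : IsOpen V) {q : ℕ} (c : ℂ) {u : ℕ → ℂ → ℂ} (hu : Dom V h φ q u) :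
    Dom V h φ q (fun n z => c * u n z) :=
  hu.const_mul hV (c := fun _ => c) (B := ‖c‖) (Filter.Eventually.of_forall fun _ => le_rfl)

lemma Dom.neg (hV : IsOpen V) {q : ℕ} {u : ℕ → ℂ → ℂ} (hu : Dom V h φ q u) :
    Dom V h φ q (fun n z => - u n z) := by
  have := hu.smul hV (-1)
  simpa using this

lemma Dom.sub (hV : IsOpen V) {q : ℕ} {u v : ℕ → ℂ → ℂ} (hu : Dom V h φ q u) (hv : Dom V h φ q v) :
    Dom V h φ q (fun n z => u n z - v n z) := by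
  have := hu.add hV (hv.neg hV)
  simpa [sub_eq_add_neg] using this

lemma Dom.hmul (hV : IsOpen V) (hh0 : Tendsto h atTop (𝓝 0)) {q : ℕ} {u : ℕ → ℂ → ℂ}
    (hu : Dom V h φ q u) : Dom V h φ q (fun n z => (h n : ℂ) * u n z) :=
  hu.const_mul hV (hbd hh0)

lemma Dom.conj (hV : IsOpen V) {q : ℕ} {u : ℕ → ℂ → ℂ} (hu : Dom V h φ q u) :
    Dom V h φ q (fun n z => (starRingEnd ℂ) (u n z)) :=
  ⟨fun n => conjCLE.contDiff.comp (hu.smooth n), fun k => (hu.bd k).conj hV hu.smooth⟩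

lemma Dom.mul (hV : IsOpen V) {q q' : ℕ} {u v : ℕ → ℂ → ℂ} (hu : Dom V h φ q u)
    (hv : Dom V h φ q' v) : Dom V h φ (q + q') (fun n z => u n z * v n z) :=
  ⟨fun n => (hu.smooth n).mul (hv.smooth n), fun k => (hu.bd k).mul hV hu.smooth (hv.bd k) hv.smooth⟩

lemma Dom.of_fn (hV : IsOpen V) (hh0 : Tendsto h atTop (𝓝 0)) (q : ℕ) {b : ℂ → ℂ}
    (hb : ContDiff ℝ ∞ b) : Dom V h φ q (fun _ z => b z) :=
  ⟨fun _ => hb, fun _ => BqK.of_fn hV hh0 q hb⟩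

lemma Dom.fn_mul (hV : IsOpen V) (hh0 : Tendsto h atTop (𝓝 0)) {q : ℕ} {b : ℂ → ℂ}
    (hb : ContDiff ℝ ∞ b) {u : ℕ → ℂ → ℂ} (hu : Dom V h φ q u) :
    Dom V h φ q (fun n z => b z * u n z) := by
  have := (Dom.of_fn (V := V) (h := h) (φ := φ) hV hh0 0 hb).mul hV hu
  rwa [zero_add] at this

lemma Dom.hdz {q : ℕ} {u : ℕ → ℂ → ℂ} (hu : Dom V h φ q u) :
    Dom V h φ q (fun n z => (h n : ℂ) * QE.dz (u n) z) :=
  ⟨fun n => contDiff_const.mul (contDiff_dz (hu.smooth n)), fun k => (hu.bd (k + 1)).2.1⟩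

lemma Dom.hdzb {q : ℕ} {u : ℕ → ℂ → ℂ} (hu : Dom V h φ q u) :
    Dom V h φ q (fun n z => (h n : ℂ) * QE.dzb (u n) z) :=
  ⟨fun n => contDiff_const.mul (contDiff_dzb (hu.smooth n)), fun k => (hu.bd (k + 1)).2.2⟩

lemma Dom.W (hφ : ∀ n, ContDiff ℝ ∞ (φ n)) (hV : IsOpen V) (a b : ℕ) : Dom V h φ 1 (QJ.W h φ a b) :=
  ⟨fun n => contDiff_W hφ a b n, fun _ => BqK.W hφ hV a b⟩

lemma Dom.phi (hφ : ∀ n, ContDiff ℝ ∞ (φ n)) (hV : IsOpen V) : Dom V h φ 1 φ := by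
  have := Dom.W (h := h) hφ hV 0 0
  rwa [W_zero] at this

/-- `h D` of a dominated sequence -/
lemma Dom.hD (hV : IsOpen V) (hh0 : Tendsto h atTop (𝓝 0)) (hσ : ContDiff ℝ ∞ σ) {q : ℕ} (k : ℤ)
    {u : ℕ → ℂ → ℂ} (hu : Dom V h φ q u) : Dom V h φ q (fun n z => (h n : ℂ) * D σ k (u n) z) := by
  have hs := contDiff_sig hσ
  have t1 := (hu.hdz.fn_mul hV hh0 (contDiff_const (c := (2 : ℂ)).mul (contDiff_ex hσ (-1))))
  have t2 := (hu.hmul hV hh0).fn_mul hV hh0 (b := fun z => -(2 * ex σ (-1) z * (k * QE.dz (fun w => (σ w : ℂ)) z)))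
    ((contDiff_const.mul (contDiff_ex hσ (-1))).mul (contDiff_const.mul (contDiff_dz hs))).neg
  refine (t1.add hV t2).congr hV (fun n => contDiff_const.mul (contDiff_D hσ k (hu.smooth n))) fun n z _ => ?_
  rw [D_eq hσ k (cd_at (hu.smooth n) z)]
  ring

lemma Dom.hDb (hV : IsOpen V) (hh0 : Tendsto h atTop (𝓝 0)) (hσ : ContDiff ℝ ∞ σ) {q : ℕ} (k : ℤ)
    {u : ℕ → ℂ → ℂ} (hu : Dom V h φ q u) : Dom V h φ q (fun n z => (h n : ℂ) * Db σ k (u n) z) := by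
  have hs := contDiff_sig hσ
  have t1 := (hu.hdzb.fn_mul hV hh0 (contDiff_const (c := (2 : ℂ)).mul (contDiff_ex hσ (-1))))
  have t2 := (hu.hmul hV hh0).fn_mul hV hh0 (b := fun z => 2 * ex σ (-1) z * (k * QE.dzb (fun w => (σ w : ℂ)) z))
    ((contDiff_const.mul (contDiff_ex hσ (-1))).mul (contDiff_const.mul (contDiff_dzb hs)))
  refine (t1.add hV t2).congr hV (fun n => contDiff_const.mul (contDiff_Db hσ k (hu.smooth n))) fun n z _ => ?_
  rw [Db_eq hσ k (cd_at (hu.smooth n) z)]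
  ring

end

end QJ


end

section

/-!
The covariant jets and their derivatives.
-/

open Complex MeasureTheory Filter Topology Set
open scoped ContDiff

namespace QJ

open QE

noncomputable section

namespace JETA

variable {V : Set ℂ} {σ : ℂ → ℝ} {h : ℕ → ℝ} {φ : ℕ → ℂ → ℂ}

lemma dom_jet (L : Loc V σ h φ) (m : ℕ) : Dom V h φ 1 (jet σ h φ m) := by
  induction m with
  | zero => exact Dom.phi L.smφ L.op
  | succ m ih => exact Dom.hD L.op L.hlim L.sm m ih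

lemma contDiff_curv (hσ : ContDiff ℝ ∞ σ) : ContDiff ℝ ∞ (curv σ) := by
  unfold curv
  exact ((contDiff_const.mul (contDiff_ex hσ _)).mul
    (contDiff_dz (contDiff_dzb (contDiff_sig hσ)))).neg

lemma zero_dom (L : Loc V σ h φ) : Dom V h φ 1 (fun _ _ => 0) :=
  Dom.of_fn L.op L.hlim 1 contDiff_const

lemma base (L : Loc V σ h φ) (n : ℕ) (z : ℂ) (hz : z ∈ V) :
    (h n : ℂ) * Db σ 1 (jet σ h φ 1 n) z = - φ n z := by
  have hσ := L.sm
  have hφ := L.smφ n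
  have e0 : jet σ h φ 1 n = fun w => (h n : ℂ) * D σ 0 (φ n) w := rfl
  have e : Db σ 1 (D σ 0 (φ n)) z = 4 * ex σ (-2) z * dz (dzb (φ n)) z := by
    have e1 : (fun w => ex σ 1 w * D σ 0 (φ n) w) = fun w => 2 * dz (φ n) w := by
      funext w
      rw [D_eq hσ 0 (cd_at hφ w)]
      have e2 : ex σ 1 w * ex σ (-1) w = 1 := by
        rw [ex_mul, show (1 : ℤ) + (-1) = 0 by norm_num, ex_zero]
      push_cast
      linear_combination (2 * dz (φ n) w) * e2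
    unfold Db
    rw [e1, dzb_const_mul _ (cd_at (contDiff_dz hφ) z), ← dz_dzb_comm (cd_at2 hφ z),
      show (-1 - 1 : ℤ) = -2 by norm_num]
    ring
  rw [e0, Db_const_mul hσ 1 _ (cd_at (contDiff_D hσ 0 hφ) z), e]
  have h1 := L.eig n z hz
  have h2 : ex σ (-2) z * ex σ 2 z = 1 := by
    rw [ex_mul, show (-2 : ℤ) + 2 = 0 by norm_num, ex_zero]
  linear_combination ex σ (-2) z * h1 - φ n z * h2

lemma low (L : Loc V σ h φ) (m : ℕ) : ∃ A, Dom V h φ 1 A ∧ ∀ n, ∀ z ∈ V,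
    (h n : ℂ) * Db σ (m + 1) (jet σ h φ (m + 1) n) z
      = - jet σ h φ m n z + (h n : ℂ) ^ 2 * A n z := by
  have hσ := L.sm
  induction m with
  | zero =>
    refine ⟨fun _ _ => 0, zero_dom L, fun n z hz => ?_⟩
    have h1 := base L n z hz
    rw [mul_zero, add_zero]
    exact h1
  | succ m ih =>
    obtain ⟨A, hA, hE⟩ := ih
    refine ⟨fun n z => (h n : ℂ) * D σ m (A n) z + (2 * ((m : ℂ) + 1) * curv σ z)
      * jet σ h φ (m + 1) n z, (Dom.hD L.op L.hlim hσ m hA).add L.op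
        (Dom.fn_mul L.op L.hlim (contDiff_const.mul (contDiff_curv hσ)) (dom_jet L (m + 1))),
      fun n z hz => ?_⟩
    have s0 := (dom_jet L m).smooth n
    have s1 := (dom_jet L (m + 1)).smooth n
    have sA := hA.smooth n
    have e0 : jet σ h φ (m + 1 + 1) n
        = fun w => (h n : ℂ) * D σ ((m : ℤ) + 1) (jet σ h φ (m + 1) n) w := rfl
    have c := comm hσ ((m : ℤ) + 1) s1 z
    have e1 : (((m + 1 : ℕ) : ℤ) + 1) = (m : ℤ) + 1 + 1 := by push_cast; ring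
    rw [e0, e1, Db_const_mul hσ _ _ (cd_at (contDiff_D hσ _ s1) z), c,
      show (m : ℤ) + 1 - 1 = m by ring]
    have e2 : (h n : ℂ) * D σ m (Db σ ((m : ℤ) + 1) (jet σ h φ (m + 1) n)) z
        = - D σ m (jet σ h φ m n) z + (h n : ℂ) ^ 2 * D σ m (A n) z := by
      rw [← D_const_mul hσ m _ (cd_at (contDiff_Db hσ _ s1) z),
        D_congr_on L.op m (hE n) hz]
      have e3 : (fun w => - jet σ h φ m n w + (h n : ℂ) ^ 2 * A n w)
          = fun w => (-1 : ℂ) * jet σ h φ m n w + (h n : ℂ) ^ 2 * A n w := by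
        funext w; ring
      rw [e3, D_add hσ m ((cd_at s0 z).const_mul _) ((cd_at sA z).const_mul _),
        D_const_mul hσ m _ (cd_at s0 z), D_const_mul hσ m _ (cd_at sA z)]
      ring
    have e4 : jet σ h φ (m + 1) n z = (h n : ℂ) * D σ m (jet σ h φ m n) z := rfl
    push_cast
    linear_combination (h n : ℂ) * e2 + e4

lemma E_nat (m : ℕ) : E σ h φ (m : ℤ) = jet σ h φ m := rfl

lemma E_neg (L : Loc V σ h φ) (m : ℕ) :
    E σ h φ (-(m : ℤ)) = fun n z => (-1) ^ m * (starRingEnd ℂ) (jet σ h φ m n z) := by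
  cases m with
  | zero =>
    funext n z
    show φ n z = (-1) ^ 0 * (starRingEnd ℂ) (φ n z)
    rw [L.real n z]; ring
  | succ m =>
    rw [show (-((m + 1 : ℕ) : ℤ)) = Int.negSucc m from rfl]
    rfl

lemma dom_neg (L : Loc V σ h φ) (m : ℕ) : Dom V h φ 1 (E σ h φ (-(m : ℤ))) := by
  rw [E_neg L m]
  exact ((dom_jet L m).conj L.op).smul L.op _

end JETA

open _root_.QJ.JETA in
theorem stmtJetA : StmtJetA := by
  intro V σ h φ L j
  have hσ := L.sm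
  refine ⟨?_, ?_, ?_⟩
  · obtain ⟨m, rfl | rfl⟩ := j.eq_nat_or_neg
    · rw [E_nat]; exact dom_jet L m
    · exact dom_neg L m
  · rcases j with m | m
    · refine ⟨fun _ _ => 0, zero_dom L, fun n z _ => ?_⟩
      rw [mul_zero, add_zero]
      rfl
    · obtain ⟨A, hA, hE⟩ := low L m
      refine ⟨fun n z => (-1) ^ (m + 1) * (starRingEnd ℂ) (A n z), (hA.conj L.op).smul L.op _,
        fun n z hz => ?_⟩
      have e1 : (Int.negSucc m : ℤ) = -((m : ℤ) + 1) := Int.negSucc_eq m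
      have e2 : (Int.negSucc m : ℤ) + 1 = -(m : ℤ) := by rw [e1]; ring
      have s1 := (dom_jet L (m + 1)).smooth n
      have e3 : E σ h φ (Int.negSucc m) n
          = fun w => (-1) ^ (m + 1) * (starRingEnd ℂ) (jet σ h φ (m + 1) n w) := rfl
      have sc : DifferentiableAt ℝ (fun w => (starRingEnd ℂ) (jet σ h φ (m + 1) n w)) z :=
        cd_at (conjCLE.contDiff.comp s1) z
      rw [e2, E_neg L m, e3, D_const_mul hσ _ _ sc, D_conj _ hσ (cd_at s1 z), e1, neg_neg]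
      have h1 := congrArg (starRingEnd ℂ) (hE n z hz)
      simp only [map_mul, map_add, map_neg, map_pow, Complex.conj_ofReal] at h1
      show (h n : ℂ) * ((-1) ^ (m + 1) * _) = (-1) ^ m * _ + (h n : ℂ) ^ 2 * ((-1) ^ (m + 1) * _)
      rw [pow_succ]
      linear_combination (-(-1) ^ m) * h1
  · rcases Int.lt_or_le 0 j with hj | hj
    · obtain ⟨m, rfl⟩ : ∃ m : ℕ, j = (m : ℤ) + 1 := ⟨(j - 1).toNat, by omega⟩
      obtain ⟨A, hA, hE⟩ := low L m
      refine ⟨A, hA, fun n z hz => ?_⟩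
      rw [show (m : ℤ) + 1 - 1 = m by ring]
      exact hE n z hz
    · obtain ⟨m, rfl⟩ : ∃ m : ℕ, j = -(m : ℤ) := ⟨(-j).toNat, by omega⟩
      refine ⟨fun _ _ => 0, zero_dom L, fun n z _ => ?_⟩
      have s1 := (dom_jet L m).smooth n
      have sc : DifferentiableAt ℝ (fun w => (starRingEnd ℂ) (jet σ h φ m n w)) z :=
        cd_at (conjCLE.contDiff.comp s1) z
      have e1 : -(m : ℤ) - 1 = -((m + 1 : ℕ) : ℤ) := by push_cast; ring
      rw [e1, E_neg L m, E_neg L (m + 1), mul_zero, add_zero]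
      show (h n : ℂ) * Db σ (-(m : ℤ)) (fun w => (-1) ^ m * (starRingEnd ℂ) (jet σ h φ m n w)) z
        = -((-1) ^ (m + 1) * (starRingEnd ℂ) (jet σ h φ (m + 1) n z))
      rw [Db_const_mul hσ _ _ sc, Db_conj _ hσ (cd_at s1 z), neg_neg]
      have e4 : jet σ h φ (m + 1) n z = (h n : ℂ) * D σ m (jet σ h φ m n) z := rfl
      rw [e4, map_mul, Complex.conj_ofReal, pow_succ]
      ring

end

end QJ


end

section

/-!
POT: potentials of a triple.
-/

open Complex MeasureTheory Filter Topology Set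
open scoped ContDiff

namespace QJ

open QE

noncomputable section

namespace POT

variable {V : Set ℂ} {σ : ℂ → ℝ} {h : ℕ → ℝ} {φ : ℕ → ℂ → ℂ}

/-! ### `L2z` -/

lemma l2z_mono {V V' : Set ℂ} (hVV : V' ⊆ V) {u : ℕ → ℂ → ℂ} (hu : L2z V u) : L2z V' u :=
  fun K hK hKV => hu K hK (hKV.trans hVV)

lemma intOn {u : ℂ → ℂ} (cu : Continuous u) {K : Set ℂ} (hK : IsCompact K) (p : ℕ) :
    IntegrableOn (fun z => ‖u z‖ ^ p) K :=
  (cu.norm.pow p).continuousOn.integrableOn_compact hK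

lemma l2z_congr {u v : ℕ → ℂ → ℂ} (hu : L2z V u) (he : ∀ n, ∀ z ∈ V, u n z = v n z) :
    L2z V v := by
  intro K hK hKV
  refine (hu K hK hKV).congr fun n => ?_
  refine setIntegral_congr_fun hK.measurableSet fun z hz => ?_
  rw [he n z (hKV hz)]

lemma l2z_fn_mul {u : ℕ → ℂ → ℂ} (hu : L2z V u) (cu : ∀ n, Continuous (u n)) {b : ℂ → ℂ}
    (hb : Continuous b) : L2z V (fun n z => b z * u n z) := by
  intro K hK hKV
  obtain ⟨M, hM⟩ := hK.exists_bound_of_continuousOn hb.continuousOn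
  have h1 := (hu K hK hKV).const_mul (M ^ 2)
  rw [mul_zero] at h1
  refine squeeze_zero (fun n => integral_nonneg fun z => by positivity) (fun n => ?_) h1
  rw [← integral_const_mul]
  refine setIntegral_mono_on (intOn (hb.mul (cu n)) hK 2) ((intOn (cu n) hK 2).const_mul _)
    hK.measurableSet fun z hz => ?_
  rw [norm_mul, mul_pow]
  have := hM z hz
  gcongr

lemma l2z_add {u v : ℕ → ℂ → ℂ} (hu : L2z V u) (cu : ∀ n, Continuous (u n)) (hv : L2z V v)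
    (cv : ∀ n, Continuous (v n)) : L2z V (fun n z => u n z + v n z) := by
  intro K hK hKV
  have h1 := ((hu K hK hKV).const_mul 2).add ((hv K hK hKV).const_mul 2)
  rw [mul_zero, add_zero] at h1
  refine squeeze_zero (fun n => integral_nonneg fun z => by positivity) (fun n => ?_) h1
  rw [← integral_const_mul, ← integral_const_mul, ← integral_add
    ((intOn (cu n) hK 2).const_mul _) ((intOn (cv n) hK 2).const_mul _)]
  refine setIntegral_mono_on (intOn ((cu n).add (cv n)) hK 2)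
    (((intOn (cu n) hK 2).const_mul _).add ((intOn (cv n) hK 2).const_mul _))
    hK.measurableSet fun z _ => ?_
  have a3 : ‖u n z + v n z‖ ^ 2 ≤ (‖u n z‖ + ‖v n z‖) ^ 2 := by gcongr; exact norm_add_le _ _
  change ‖u n z + v n z‖ ^ 2 ≤ 2 * ‖u n z‖ ^ 2 + 2 * ‖v n z‖ ^ 2
  linarith only [a3, sq_nonneg (‖u n z‖ - ‖v n z‖)]

lemma l2z_conj {u : ℕ → ℂ → ℂ} (hu : L2z V u) :
    L2z V (fun n z => (starRingEnd ℂ) (u n z)) := by
  intro K hK hKV
  refine (hu K hK hKV).congr fun n => ?_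
  simp only [RCLike.norm_conj]

lemma l2z_int {u : ℕ → ℂ → ℂ} (hu : L2z V u) (cu : ∀ n, Continuous (u n)) {K : Set ℂ}
    (hK : IsCompact K) (hKV : K ⊆ V) : Tendsto (fun n => ∫ z in K, ‖u n z‖) atTop (𝓝 0) := by
  have hvol : 0 ≤ (volume : Measure ℂ).real K := measureReal_nonneg
  have key : ∀ n, ∀ δ : ℝ, 0 < δ → ∫ z in K, ‖u n z‖ ≤
      δ * (volume : Measure ℂ).real K + (1 / (4 * δ)) * ∫ z in K, ‖u n z‖ ^ 2 := by
    intro n δ hδ
    have h1 : ∫ z in K, (δ + (1 / (4 * δ)) * ‖u n z‖ ^ 2) =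
        δ * (volume : Measure ℂ).real K + (1 / (4 * δ)) * ∫ z in K, ‖u n z‖ ^ 2 := by
      rw [integral_add (continuous_const.continuousOn.integrableOn_compact hK)
        ((intOn (cu n) hK 2).const_mul _), integral_const_mul, setIntegral_const, smul_eq_mul,
        mul_comm δ]
    rw [← h1]
    have h2 := intOn (cu n) hK 1
    simp only [pow_one] at h2
    refine setIntegral_mono_on h2 ((continuous_const.continuousOn.integrableOn_compact hK).add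
      ((intOn (cu n) hK 2).const_mul _)) hK.measurableSet fun z _ => ?_
    have h3 : 0 ≤ (2 * δ - ‖u n z‖) ^ 2 := sq_nonneg _
    have h4 : δ + (1 / (4 * δ)) * ‖u n z‖ ^ 2 - ‖u n z‖ = (1 / (4 * δ)) * (2 * δ - ‖u n z‖) ^ 2 := by
      field_simp
      ring
    have h5 : 0 ≤ (1 / (4 * δ)) * (2 * δ - ‖u n z‖) ^ 2 := by positivity
    linarith only [h4, h5]
  rw [Metric.tendsto_nhds]
  intro ε hε
  set δ : ℝ := ε / (2 * ((volume : Measure ℂ).real K + 1)) with hδ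
  have hδ0 : 0 < δ := by positivity
  have hev := (Metric.tendsto_nhds.mp (hu K hK hKV)) (δ * ε) (by positivity)
  filter_upwards [hev] with n hn
  rw [Real.dist_eq, sub_zero] at hn ⊢
  have h1 : 0 ≤ ∫ z in K, ‖u n z‖ := integral_nonneg fun z => norm_nonneg _
  rw [abs_of_nonneg h1]
  have h2 : ∫ z in K, ‖u n z‖ ^ 2 < δ * ε := (le_abs_self _).trans_lt hn
  have h3 := key n δ hδ0
  have h4 : (1 / (4 * δ)) * ∫ z in K, ‖u n z‖ ^ 2 ≤ (1 / (4 * δ)) * (δ * ε) := by gcongr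
  have h5 : (1 / (4 * δ)) * (δ * ε) = ε / 4 := by
    field_simp
  have h6 : δ * (volume : Measure ℂ).real K ≤ ε / 2 := by
    rw [hδ, div_mul_eq_mul_div, div_le_div_iff₀ (by positivity) (by positivity)]
    linarith only [hε]
  linarith

lemma l2z_test {u : ℕ → ℂ → ℂ} (hu : L2z V u) (cu : ∀ n, Continuous (u n)) {η : ℂ → ℂ}
    (hη : Test V η) : Tendsto (fun n => ∫ z, η z * u n z) atTop (𝓝 0) := by
  have hKc : IsCompact (tsupport η) := hη.supp
  obtain ⟨M, hM⟩ := hη.smooth.continuous.bounded_above_of_compact_support hη.supp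
  have h1 := (l2z_int hu cu hKc hη.sub).const_mul M
  rw [mul_zero] at h1
  refine squeeze_zero_norm (fun n => ?_) h1
  have h2 : ∫ z, η z * u n z = ∫ z in tsupport η, η z * u n z := by
    symm
    refine setIntegral_eq_integral_of_forall_compl_eq_zero fun z hz => ?_
    rw [image_eq_zero_of_notMem_tsupport hz, zero_mul]
  rw [h2, ← integral_const_mul]
  have h3 := intOn (cu n) hKc 1
  simp only [pow_one] at h3
  refine (norm_integral_le_integral_norm _).trans (setIntegral_mono_on ?_ (h3.const_mul M)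
    hKc.measurableSet fun z _ => ?_)
  · exact ((hη.smooth.continuous.mul (cu n)).norm).continuousOn.integrableOn_compact hKc
  · rw [norm_mul]
    have := hM z
    gcongr

/-! ### Weak limits -/

lemma nul_conj {B : ℕ → ℂ → ℂ} (hB : Nul V h φ B) :
    Nul V h φ (fun n z => (starRingEnd ℂ) (B n z)) where
  smooth := fun n => conjCLE.contDiff.comp (hB.smooth n)
  bd := hB.bd.conj
  weak := by
    intro ζ hζ
    have h1 := hB.weak _ hζ.conj
    have h2 := (Complex.continuous_conj.tendsto 0).comp h1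
    rw [map_zero] at h2
    refine h2.congr fun n => ?_
    change (starRingEnd ℂ) (∫ z, (starRingEnd ℂ) (ζ z) * B n z) = _
    rw [← integral_conj]
    refine integral_congr_ae (Filter.Eventually.of_forall fun z => ?_)
    simp

/-- the Cauchy transform of a localized sequence -/
lemma cauchy_small (hCau : StmtCau) (hφ : ∀ n, ContDiff ℝ ∞ (φ n)) (hG : Grow V h φ)
    {χ β : ℂ → ℂ} (hχ : Test V χ) (hβ : ContDiff ℝ ∞ β) {B : ℕ → ℂ → ℂ} (hB : Nul V h φ B) :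
    L2z V (fun n => cauchy (fun w => χ w * β w * B n w)) := by
  intro K1 hK1 hK1V
  have hL : IsCompact (tsupport χ) := hχ.supp
  have hcs : HasCompactSupport (fun z => χ z * β z) := hχ.supp.mul_right
  obtain ⟨M, hM⟩ := (hχ.smooth.mul hβ).continuous.bounded_above_of_compact_support hcs
  have hM0 : 0 ≤ M := (norm_nonneg _).trans (hM 0)
  obtain ⟨N', C', hC'0, hC'⟩ := hB.bd.pos hL hχ.sub
  obtain ⟨G, hG'⟩ := hG.grow (tsupport χ ∪ K1) (hL.union hK1) (union_subset hχ.sub hK1V) N'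
  have hc0 : 0 ≤ M * Real.sqrt C' := by positivity
  refine hCau (tsupport χ) K1 (fun n z => M * Real.sqrt C' * RR h φ N' n z)
    (fun n w => χ w * β w * B n w) (M * Real.sqrt C' * G) hL hK1
    (fun n z => mul_nonneg hc0 (RR_pos h φ N' n z).le)
    (fun n => continuous_const.mul (continuous_RR hφ N' n)) ?_
    (fun n => (hχ.smooth.mul hβ).mul (hB.smooth n)) (fun n => ?_) ?_ (fun ψ hψ => ?_)
  · filter_upwards [hG'] with n hn z hz s hs
    rw [integral_const_mul, mul_assoc _ G s]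
    refine mul_le_mul_of_nonneg_left (le_trans ?_ (hn z (Or.inr hz) s hs)) hc0
    refine setIntegral_mono_set ?_ ?_ ?_
    · exact (continuous_RR hφ N' n).continuousOn.integrableOn_compact
        ((hL.union hK1).inter_right Metric.isClosed_closedBall)
    · exact Filter.Eventually.of_forall fun w => (RR_pos h φ N' n w).le
    · exact (inter_subset_inter_left _ subset_union_left).eventuallyLE
  · exact closure_mono fun z hz => left_ne_zero_of_mul (left_ne_zero_of_mul hz)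
  · filter_upwards [hC' N' le_rfl] with n hn z hz
    have h1 := hn z hz
    have h2 : ‖B n z‖ ≤ Real.sqrt C' * RR h φ N' n z := by
      have h3 := Real.sqrt_le_sqrt h1
      rwa [Real.sqrt_sq (norm_nonneg _), Real.sqrt_mul hC'0.le,
        Real.sqrt_sq (RR_pos h φ N' n z).le] at h3
    rw [norm_mul, mul_assoc]
    exact mul_le_mul (hM z) h2 (norm_nonneg _) hM0
  · have h1 : Test V (fun z => χ z * (β z * ψ z)) := test_mul hχ (hβ.mul hψ)
    refine (hB.weak _ h1).congr fun n => ?_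
    refine integral_congr_ae (Filter.Eventually.of_forall fun z => ?_)
    change χ z * (β z * ψ z) * B n z = ψ z * (χ z * β z * B n z)
    ring

/-! ### One half of the potentials -/

lemma half (hCau : StmtCau) (hHol : StmtHol) (hInt : StmtInt) (N : ℤ) (A B : ℕ → ℂ → ℂ)
    (hσ : ContDiff ℝ ∞ σ) (hpos : ∀ n, 0 < h n)
    (hlim : Tendsto h atTop (𝓝 0)) (hφ : ∀ n, ContDiff ℝ ∞ (φ n)) (hG : Grow V h φ)
    (nA : Nul V h φ A) (nB : Nul V h φ B)
    (eA : L2z V (fun n z => Db σ (N + 2) (A n) z + D σ N (B n) z)) {χ : ℂ → ℂ} (hχ : Test V χ)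
    {V' : Set ℂ} (hV' : IsOpen V') (hVV : V' ⊆ V) (h1 : ∀ z ∈ V', χ z = 1) :
    ∃ x : ℕ → ℂ → ℂ, (∀ n, ContDiff ℝ ∞ (x n)) ∧
      (∀ n, ∀ z ∈ V', Db σ (N + 1) (x n) z = - B n z) ∧ L2z V' x ∧
      L2z V' (fun n z => A n z - D σ (N + 1) (x n) z) ∧
      L2z V' (fun n z => Db σ (N + 2) (fun w => A n w - D σ (N + 1) (x n) w) z) := by
  set β : ℂ → ℂ := fun z => -(1 / 2) * ex σ (N + 2) z with hβdef
  have hβ : ContDiff ℝ ∞ β := contDiff_const.mul (contDiff_ex hσ _)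
  set f : ℕ → ℂ → ℂ := fun n w => χ w * β w * B n w with hf
  have sf : ∀ n, ContDiff ℝ ∞ (f n) := fun n => (hχ.smooth.mul hβ).mul (nB.smooth n)
  have cf : ∀ n, HasCompactSupport (f n) := fun n => (hχ.supp.mul_right).mul_right
  have sxh : ∀ n, ContDiff ℝ ∞ (cauchy (f n)) := fun n => contDiff_cauchy (sf n) (cf n)
  have lxh : L2z V (fun n => cauchy (f n)) := cauchy_small hCau hφ hG hχ hβ nB
  set x : ℕ → ℂ → ℂ := fun n z => ex σ (-(N + 1)) z * cauchy (f n) z with hx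
  have sx : ∀ n, ContDiff ℝ ∞ (x n) := fun n => (contDiff_ex hσ _).mul (sxh n)
  have hDb : ∀ n z, Db σ (N + 1) (x n) z = - (χ z * B n z) := by
    intro n z
    have e1 : (fun w => ex σ (N + 1) w * x n w) = cauchy (f n) := by
      funext w
      change ex σ (N + 1) w * (ex σ (-(N + 1)) w * cauchy (f n) w) = _
      rw [← mul_assoc, ex_mul, show N + 1 + -(N + 1) = 0 by ring, ex_zero, one_mul]
    unfold Db
    rw [e1, dzb_cauchy (sf n) (cf n)]
    have e2 : ex σ (-(N + 1) - 1) z * ex σ (N + 2) z = 1 := by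
      rw [ex_mul, show -(N + 1) - 1 + (N + 2) = 0 by ring, ex_zero]
    change 2 * ex σ (-(N + 1) - 1) z * (χ z * (-(1 / 2) * ex σ (N + 2) z) * B n z) = _
    linear_combination (-(χ z * B n z)) * e2
  have hxV : ∀ n, ∀ z ∈ V', Db σ (N + 1) (x n) z = - B n z := by
    intro n z hz
    rw [hDb, h1 z hz, one_mul]
  have lx : L2z V' x :=
    l2z_mono hVV (l2z_fn_mul lxh (fun n => (sxh n).continuous) (contDiff_ex hσ _).continuous)
  have cx : ∀ n, Continuous (x n) := fun n => (sx n).continuous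
  -- the derivative of `α`
  have hcurv : Continuous (curv σ) := by
    unfold curv
    exact ((continuous_const.mul (contDiff_ex hσ _).continuous).mul
      (contDiff_dz (contDiff_dzb (contDiff_sig hσ))).continuous).neg
  have sα : ∀ n, ContDiff ℝ ∞ (fun w => A n w - D σ (N + 1) (x n) w) := fun n =>
    (nA.smooth n).sub (contDiff_D hσ _ (sx n))
  have hlda : ∀ n, ∀ z ∈ V', (Db σ (N + 2) (A n) z + D σ N (B n) z)
      + (-(2 * (N + 1 : ℤ)) * curv σ z) * x n z =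
      Db σ (N + 2) (fun w => A n w - D σ (N + 1) (x n) w) z := by
    intro n z hz
    rw [Db_sub hσ _ (cd_at (nA.smooth n) z) (cd_at (contDiff_D hσ _ (sx n)) z)]
    have e1 := comm hσ (N + 1) (sx n) z
    rw [show N + 1 + 1 = N + 2 by ring, show N + 1 - 1 = N by ring] at e1
    have e2 : D σ N (Db σ (N + 1) (x n)) z = - D σ N (B n) z := by
      rw [D_congr_on hV' N (g := fun w => (-1) * B n w) (fun w hw => by
        rw [hxV n w hw, neg_one_mul]) hz, D_const_mul hσ N (-1) (cd_at (nB.smooth n) z),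
        neg_one_mul]
    rw [e1, e2]
    ring
  have hlda' : L2z V' (fun n z => Db σ (N + 2) (fun w => A n w - D σ (N + 1) (x n) w) z) := by
    refine l2z_congr (l2z_add (l2z_mono hVV eA) (fun n =>
      ((contDiff_Db hσ _ (nA.smooth n)).add (contDiff_D hσ _ (nB.smooth n))).continuous)
      (l2z_fn_mul lx cx (b := fun z => -(2 * (N + 1 : ℤ)) * curv σ z)
        (continuous_const.mul hcurv)) (fun n => (continuous_const.mul hcurv).mul (cx n))) hlda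
  -- `α` itself
  set g : ℕ → ℂ → ℂ := fun n z => ex σ (-(N + 1)) z * x n z with hg
  have sg : ∀ n, ContDiff ℝ ∞ (g n) := fun n => (contDiff_ex hσ _).mul (sx n)
  have cg : ∀ n, Continuous (g n) := fun n => (sg n).continuous
  have lg : L2z V' g := l2z_fn_mul lx cx (contDiff_ex hσ _).continuous
  have hDx : ∀ n z, ex σ (N + 2) z * D σ (N + 1) (x n) z =
      2 * ex σ (2 * N + 2) z * dz (g n) z := by
    intro n z
    have e2 : ex σ (N + 2) z * ex σ (N + 1 - 1) z = ex σ (2 * N + 2) z := by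
      rw [ex_mul]
      congr 1
      ring
    unfold D
    change ex σ (N + 2) z * (2 * ex σ (N + 1 - 1) z * dz (g n) z) = _
    rw [← e2]
    ring
  set E2 : ℂ → ℂ := ex σ (2 * N + 2) with hE2
  have sE2 : ContDiff ℝ ∞ E2 := contDiff_ex hσ _
  set a : ℕ → ℂ → ℂ := fun n z => ex σ (N + 2) z * A n z + 2 * dz E2 z * g n z with ha
  set b : ℕ → ℂ → ℂ := fun n z => (-2) * (E2 z * g n z) with hb
  have sb' : ∀ n, ContDiff ℝ ∞ (fun z => E2 z * g n z) := fun n => sE2.mul (sg n)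
  have sb : ∀ n, ContDiff ℝ ∞ (b n) := fun n => contDiff_const.mul (sb' n)
  have sa1 : ∀ n, ContDiff ℝ ∞ (fun z => ex σ (N + 2) z * A n z) := fun n =>
    (contDiff_ex hσ _).mul (nA.smooth n)
  have hc2 : ContDiff ℝ ∞ (fun z => 2 * dz E2 z) := contDiff_const.mul (contDiff_dz sE2)
  have sa2 : ∀ n, ContDiff ℝ ∞ (fun z => 2 * dz E2 z * g n z) := fun n => hc2.mul (sg n)
  have sa : ∀ n, ContDiff ℝ ∞ (a n) := fun n => (sa1 n).add (sa2 n)
  set αh : ℕ → ℂ → ℂ := fun n z => ex σ (N + 2) z * (A n z - D σ (N + 1) (x n) z) with hαh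
  have sαh : ∀ n, ContDiff ℝ ∞ (αh n) := fun n => (contDiff_ex hσ _).mul (sα n)
  have hαh' : L2z V' αh := by
    refine hHol V' αh a b hV' sαh sa sb (fun n z _ => ?_) (fun K hK hKV => ?_) ?_ (fun ζ hζ => ?_)
    · have e1 : dz (b n) z = (-2) * (dz E2 z * g n z + E2 z * dz (g n) z) := by
        change dz (fun z => (-2) * (E2 z * g n z)) z = _
        rw [dz_const_mul _ (cd_at (sb' n) z), dz_mul (cd_at sE2 z) (cd_at (sg n) z)]
      change ex σ (N + 2) z * (A n z - D σ (N + 1) (x n) z) =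
        ex σ (N + 2) z * A n z + 2 * dz E2 z * g n z + dz (b n) z
      rw [e1]
      linear_combination -hDx n z
    · obtain ⟨C1, hC1⟩ := (hInt V h φ (fun n z => ex σ (N + 2) z * A n z) hpos hlim hφ hG sa1).1
        (nA.bd.fn_mul (contDiff_ex hσ _).continuous.continuousOn) K hK (hKV.trans hVV)
      have t1 := l2z_int (l2z_fn_mul lg cg hc2.continuous) (fun n => (sa2 n).continuous) hK hKV
      have t2 := l2z_int (l2z_fn_mul lg cg (b := fun z => (-2) * E2 z)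
        (continuous_const.mul sE2.continuous))
        (fun n => (continuous_const.mul sE2.continuous).mul (cg n)) hK hKV
      refine ⟨C1 + 1 + 1, ?_⟩
      have u1 := (tendsto_order.1 t1).2 1 one_pos
      have u2 := (tendsto_order.1 t2).2 1 one_pos
      filter_upwards [hC1, u1, u2] with n k1 k2 k3
      have i1 : IntegrableOn (fun z => ‖ex σ (N + 2) z * A n z‖) K :=
        ((sa1 n).continuous.norm).continuousOn.integrableOn_compact hK
      have i2 : IntegrableOn (fun z => ‖2 * dz E2 z * g n z‖) K :=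
        ((sa2 n).continuous.norm).continuousOn.integrableOn_compact hK
      have k0 : 0 ≤ ∫ z in K, ‖ex σ (N + 2) z * A n z‖ := integral_nonneg fun z => norm_nonneg _
      constructor
      · have j1 : ∫ z in K, ‖a n z‖ ≤ ∫ z in K, (‖ex σ (N + 2) z * A n z‖
            + ‖2 * dz E2 z * g n z‖) :=
          setIntegral_mono_on (((sa n).continuous.norm).continuousOn.integrableOn_compact hK)
            (i1.add i2) hK.measurableSet fun z _ => norm_add_le _ _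
        rw [integral_add i1 i2] at j1
        linarith
      · have j2 : ∫ z in K, ‖b n z‖ = ∫ z in K, ‖(-2) * E2 z * g n z‖ := by
          refine setIntegral_congr_fun hK.measurableSet fun z _ => ?_
          change ‖(-2) * (E2 z * g n z)‖ = ‖(-2) * E2 z * g n z‖
          rw [mul_assoc]
        rw [j2]
        linarith
    · refine l2z_congr (l2z_fn_mul hlda' (fun n => (contDiff_Db hσ _ (sα n)).continuous)
        (b := fun z => (1 / 2) * ex σ (N + 3) z)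
        (continuous_const.mul (contDiff_ex hσ _).continuous)) fun n z _ => ?_
      have e2 : ex σ (N + 3) z * ex σ (-(N + 2) - 1) z = 1 := by
        rw [ex_mul, show N + 3 + (-(N + 2) - 1) = 0 by ring, ex_zero]
      change (1 / 2) * ex σ (N + 3) z * (2 * ex σ (-(N + 2) - 1) z * dzb (αh n) z) = dzb (αh n) z
      linear_combination (dzb (αh n) z) * e2
    · have w1 := nA.weak _ (test_mul (hζ.mono hVV) (contDiff_ex hσ (N + 2)))
      have tζ : Test V' (fun z => ζ z * (2 * E2 z)) := test_mul hζ (contDiff_const.mul sE2)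
      have w2 := l2z_test lg cg tζ.dz
      have w3 := w1.add w2
      rw [add_zero] at w3
      refine w3.congr fun n => ?_
      have p1 := integral_mul_dz hV' tζ (sg n).contDiffOn
      have i1 : Integrable (fun z => ζ z * ex σ (N + 2) z * A n z) :=
        test_int (test_mul (hζ.mono hVV) (contDiff_ex hσ (N + 2))) (nA.smooth n).continuous
      have i2 : Integrable (fun z => ζ z * (2 * E2 z) * dz (g n) z) :=
        test_int tζ (contDiff_dz (sg n)).continuous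
      have e3 : ∫ z, ζ z * αh n z = (∫ z, ζ z * ex σ (N + 2) z * A n z)
          - ∫ z, ζ z * (2 * E2 z) * dz (g n) z := by
        rw [← integral_sub i1 i2]
        refine integral_congr_ae (Filter.Eventually.of_forall fun z => ?_)
        change ζ z * (ex σ (N + 2) z * (A n z - D σ (N + 1) (x n) z)) =
          ζ z * ex σ (N + 2) z * A n z - ζ z * (2 * E2 z) * dz (g n) z
        linear_combination (-ζ z) * hDx n z
      rw [e3, p1]
      ring
  refine ⟨x, sx, hxV, lx, ?_, hlda'⟩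
  refine l2z_congr (l2z_fn_mul hαh' (fun n => (sαh n).continuous)
    (contDiff_ex hσ (-(N + 2))).continuous) fun n z _ => ?_
  change ex σ (-(N + 2)) z * (ex σ (N + 2) z * (A n z - D σ (N + 1) (x n) z)) = _
  rw [← mul_assoc, ex_mul, show -(N + 2) + (N + 2) = 0 by ring, ex_zero, one_mul]

end POT

open _root_.QJ.POT in
theorem stmtPot (hCau : StmtCau) (hHol : StmtHol) (hInt : StmtInt) : StmtPot := by
  intro V σ h φ N A B C hV hσ hpos hlim hφ hG hT K hK hKV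
  obtain ⟨χ, hχ, hχ1, -⟩ := exists_cutoff hV hK hKV
  set V' : Set ℂ := interior {z | χ z = 1} with hV'
  have oV' : IsOpen V' := isOpen_interior
  have hKV' : K ⊆ V' := fun z hz => mem_interior_iff_mem_nhds.mpr (hχ1 z hz)
  have h1 : ∀ z ∈ V', χ z = 1 := by
    intro z hz
    have : z ∈ {z | χ z = 1} := interior_subset hz
    exact this
  have hVV : V' ⊆ V := by
    intro z hz
    apply hχ.sub
    apply subset_tsupport
    rw [Function.mem_support, h1 z hz]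
    exact one_ne_zero
  obtain ⟨x, sx, hx, lx, la, lda⟩ := half hCau hHol hInt N A B hσ hpos hlim hφ hG hT.nA hT.nB
    hT.eA hχ oV' hVV h1
  have eC' : L2z V (fun n z => Db σ (-N + 2) (fun w => (starRingEnd ℂ) (C n w)) z
      + D σ (-N) (fun w => (starRingEnd ℂ) (B n w)) z) := by
    refine l2z_congr (l2z_conj hT.eC) fun n z _ => ?_
    rw [Db_conj _ hσ (cd_at (hT.nC.smooth n) z), D_conj _ hσ (cd_at (hT.nB.smooth n) z),
      show -(-N + 2) = N - 2 by ring, neg_neg, map_add]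
  obtain ⟨y, sy, hy, ly, lc, ldc⟩ := half hCau hHol hInt (-N) _ _ hσ hpos hlim hφ hG
    (nul_conj hT.nC) (nul_conj hT.nB) eC' hχ oV' hVV h1
  refine ⟨V', x, fun n z => (starRingEnd ℂ) (y n z), oV', hKV', hVV, ?_⟩
  have hDby : ∀ n z, Db σ (N - 1) (fun w => (starRingEnd ℂ) (y n w)) z =
      (starRingEnd ℂ) (D σ (-N + 1) (y n) z) := by
    intro n z
    rw [Db_conj _ hσ (cd_at (sy n) z), show -(N - 1) = -N + 1 by ring]
  have hγ : ∀ n z, (starRingEnd ℂ) ((starRingEnd ℂ) (C n z) - D σ (-N + 1) (y n) z) =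
      C n z - Db σ (N - 1) (fun w => (starRingEnd ℂ) (y n w)) z := by
    intro n z
    rw [hDby, map_sub, starRingEnd_self_apply]
  exact
    { sx := sx
      sy := fun n => conjCLE.contDiff.comp (sy n)
      hx := hx
      hy := fun n z hz => by
        rw [D_conj _ hσ (cd_at (sy n) z), show -(N - 1) = -N + 1 by ring, hy n z hz, map_neg,
          starRingEnd_self_apply]
      lx := lx
      ly := l2z_conj ly
      la := la
      lc := l2z_congr (l2z_conj lc) fun n z _ => hγ n z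
      lda := lda
      ldc := by
        refine l2z_congr (l2z_conj ldc) fun n z _ => ?_
        have e1 : (fun w => C n w - Db σ (N - 1) (fun w => (starRingEnd ℂ) (y n w)) w) =
            fun w => (starRingEnd ℂ) ((starRingEnd ℂ) (C n w) - D σ (-N + 1) (y n) w) := by
          funext w
          exact (hγ n w).symm
        have sy' : ContDiff ℝ ∞ (fun w => (starRingEnd ℂ) (C n w) - D σ (-N + 1) (y n) w) :=
          (conjCLE.contDiff.comp (hT.nC.smooth n)).sub (contDiff_D hσ _ (sy n))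
        rw [e1, D_conj (N - 2) hσ (cd_at sy' z), show -(N - 2) = -N + 2 by ring] }

end

end QJ


end

section

/-!
SEC: the second differences of the four-jet integrals.
-/

open Complex MeasureTheory Filter Topology Set
open scoped ContDiff

namespace QJ

open QE

namespace SEC

theorem l2z_mono {V V' : Set ℂ} (hV : V' ⊆ V) {u : ℕ → ℂ → ℂ} (hu : L2z V u) : L2z V' u :=
  fun K hK hKV => hu K hK (hKV.trans hV)

theorem pot_mono {V V' : Set ℂ} (hV : V' ⊆ V) {σ : ℂ → ℝ} {N : ℤ} {A B C x y : ℕ → ℂ → ℂ}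
    (hP : Pot V σ N A B C x y) : Pot V' σ N A B C x y where
  sx := hP.sx
  sy := hP.sy
  hx := fun n z hz => hP.hx n z (hV hz)
  hy := fun n z hz => hP.hy n z (hV hz)
  lx := l2z_mono hV hP.lx
  ly := l2z_mono hV hP.ly
  la := l2z_mono hV hP.la
  lc := l2z_mono hV hP.lc
  lda := l2z_mono hV hP.lda
  ldc := l2z_mono hV hP.ldc

theorem expand {V : Set ℂ} {ζ : ℂ → ℂ} (hζ : Test V ζ) (Q Q' : ℂ → ℂ) (hQ : Continuous Q)
    (hQ' : Continuous Q') (p p' : ℂ) :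
    ∫ z, ζ z * ((Q z - p) * (Q' z - p')) = (∫ z, ζ z * (Q z * Q' z)) - p * (∫ z, ζ z * Q' z)
      - p' * (∫ z, ζ z * Q z) + p * p' * ∫ z, ζ z := by
  have i1 : Integrable fun z => ζ z * (Q z * Q' z) := test_int hζ (hQ.mul hQ')
  have i2 : Integrable fun z => p * (ζ z * Q' z) := (test_int hζ hQ').const_mul p
  have i3 : Integrable fun z => p' * (ζ z * Q z) := (test_int hζ hQ).const_mul p'
  have i4 : Integrable fun z => p * p' * ζ z := by
    have := (test_int hζ (continuous_const (y := (1 : ℂ)))).const_mul (p * p')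
    simpa using this
  have e : (fun z => ζ z * ((Q z - p) * (Q' z - p')))
      = fun z => (ζ z * (Q z * Q' z) - p * (ζ z * Q' z) - p' * (ζ z * Q z)) + p * p' * ζ z := by
    funext z
    ring
  have e1 : ∫ z, ((ζ z * (Q z * Q' z) - p * (ζ z * Q' z) - p' * (ζ z * Q z)) + p * p' * ζ z)
      = ((∫ z, ζ z * (Q z * Q' z)) - (∫ z, p * (ζ z * Q' z)) - ∫ z, p' * (ζ z * Q z))
        + ∫ z, p * p' * ζ z := by
    have k1 := integral_sub i1 i2
    have k2 := integral_sub (i1.sub i2) i3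
    have k3 := integral_add ((i1.sub i2).sub i3) i4
    simp only [Pi.sub_apply] at k1 k2 k3
    rw [k3, k2, k1]
  rw [e, e1, integral_const_mul, integral_const_mul, integral_const_mul]

theorem cont_of_sub {u : ℂ → ℂ} {p : ℂ} (hu : ContDiff ℝ ∞ fun z => u z - p) : Continuous u := by
  have h := hu.continuous.add (continuous_const (y := p))
  have e : ((fun z => u z - p) + fun _ => p) = u := by
    funext z
    simp
  rwa [e] at h

theorem int3 (f g k : ℂ → ℂ) (hf : Integrable f) (hg : Integrable g) (hk : Integrable k) :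
    ∫ z, (f z + g z - k z) = (∫ z, f z) + (∫ z, g z) - ∫ z, k z := by
  rw [← integral_add hf hg]
  exact integral_sub (hf.add hg) hk

end SEC

open _root_.QJ.SEC in
theorem stmtSec (hGro : StmtGro) (hTri : StmtTri) (hPot : StmtPot) (hNul : StmtNul)
    (hTwo : StmtTwo) : StmtSec := by
  intro V σ h φ hL ζ hζ a b c d habcd
  have hG := hGro V σ h φ hL
  have T1 := hTri V σ h φ hL a b
  have T2 := hTri V σ h φ hL c d
  have hcd : c + d = -(a + b) := by omega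
  obtain ⟨V1, x, y, hV1o, hK1, hV1, P1⟩ := hPot V σ h φ (a + b) _ _ _ hL.op hL.sm hL.hpos hL.hlim
    hL.smφ hG T1 (tsupport ζ) hζ.supp hζ.sub
  obtain ⟨V2, x', y', hV2o, hK2, hV2, P2⟩ := hPot V σ h φ (c + d) _ _ _ hL.op hL.sm hL.hpos hL.hlim
    hL.smφ hG T2 (tsupport ζ) hζ.supp hζ.sub
  rw [hcd] at P2
  have hT : Test (V1 ∩ V2) ζ := ⟨hζ.smooth, hζ.supp, subset_inter hK1 hK2⟩
  have key := hNul (V1 ∩ V2) σ (a + b) _ _ _ x y _ _ _ x' y' (hV1o.inter hV2o) hL.sm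
    T1.nA.smooth T1.nB.smooth T1.nC.smooth T2.nA.smooth T2.nB.smooth T2.nC.smooth
    (pot_mono inter_subset_left P1) (pot_mono inter_subset_right P2) ζ hT
  -- continuity of the products
  have cA : ∀ n, Continuous fun z => E σ h φ (a + 1) n z * E σ h φ (b + 1) n z :=
    fun n => cont_of_sub (T1.nA.smooth n)
  have cB : ∀ n, Continuous fun z => E σ h φ a n z * E σ h φ b n z :=
    fun n => cont_of_sub (T1.nB.smooth n)
  have cC : ∀ n, Continuous fun z => E σ h φ (a - 1) n z * E σ h φ (b - 1) n z :=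
    fun n => cont_of_sub (T1.nC.smooth n)
  have cA' : ∀ n, Continuous fun z => E σ h φ (c + 1) n z * E σ h φ (d + 1) n z :=
    fun n => cont_of_sub (T2.nA.smooth n)
  have cB' : ∀ n, Continuous fun z => E σ h φ c n z * E σ h φ d n z :=
    fun n => cont_of_sub (T2.nB.smooth n)
  have cC' : ∀ n, Continuous fun z => E σ h φ (c - 1) n z * E σ h φ (d - 1) n z :=
    fun n => cont_of_sub (T2.nC.smooth n)
  -- the linear terms
  have lA := hTwo V σ h φ hL (a + 1) (b + 1) ζ hζ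
  have lB := hTwo V σ h φ hL a b ζ hζ
  have lC := hTwo V σ h φ hL (a - 1) (b - 1) ζ hζ
  have lA' := hTwo V σ h φ hL (c + 1) (d + 1) ζ hζ
  have lB' := hTwo V σ h φ hL c d ζ hζ
  have lC' := hTwo V σ h φ hL (c - 1) (d - 1) ζ hζ
  set pA := P (a + 1) (b + 1)
  set pB := P a b
  set pC := P (a - 1) (b - 1)
  set pA' := P (c + 1) (d + 1)
  set pB' := P c d
  set pC' := P (c - 1) (d - 1)
  set I := ∫ z, ζ z
  have main : ∀ n, E4 σ h φ ζ (a + 1) (b + 1) (c - 1) (d - 1) n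
      + E4 σ h φ ζ (a - 1) (b - 1) (c + 1) (d + 1) n - 2 * E4 σ h φ ζ a b c d n
      = (∫ z, ζ z *
        ((E σ h φ (a + 1) n z * E σ h φ (b + 1) n z - pA)
            * (E σ h φ (c - 1) n z * E σ h φ (d - 1) n z - pC')
          + (E σ h φ (a - 1) n z * E σ h φ (b - 1) n z - pC)
            * (E σ h φ (c + 1) n z * E σ h φ (d + 1) n z - pA')
          - 2 * ((E σ h φ a n z * E σ h φ b n z - pB) * (E σ h φ c n z * E σ h φ d n z - pB'))))
        + (pA * (∫ z, ζ z * (E σ h φ (c - 1) n z * E σ h φ (d - 1) n z))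
          + pC' * (∫ z, ζ z * (E σ h φ (a + 1) n z * E σ h φ (b + 1) n z)) - pA * pC' * I)
        + (pC * (∫ z, ζ z * (E σ h φ (c + 1) n z * E σ h φ (d + 1) n z))
          + pA' * (∫ z, ζ z * (E σ h φ (a - 1) n z * E σ h φ (b - 1) n z)) - pC * pA' * I)
        - 2 * (pB * (∫ z, ζ z * (E σ h φ c n z * E σ h φ d n z))
          + pB' * (∫ z, ζ z * (E σ h φ a n z * E σ h φ b n z)) - pB * pB' * I) := by
    intro n
    have e1 := expand hζ _ _ (cA n) (cC' n) pA pC'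
    have e2 := expand hζ _ _ (cC n) (cA' n) pC pA'
    have e3 := expand hζ _ _ (cB n) (cB' n) pB pB'
    have j1 : Integrable fun z => ζ z * ((E σ h φ (a + 1) n z * E σ h φ (b + 1) n z - pA)
            * (E σ h φ (c - 1) n z * E σ h φ (d - 1) n z - pC')) :=
      test_int hζ (((cA n).sub continuous_const).mul ((cC' n).sub continuous_const))
    have j2 : Integrable fun z => ζ z * ((E σ h φ (a - 1) n z * E σ h φ (b - 1) n z - pC)
            * (E σ h φ (c + 1) n z * E σ h φ (d + 1) n z - pA')) :=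
      test_int hζ (((cC n).sub continuous_const).mul ((cA' n).sub continuous_const))
    have j3 : Integrable fun z => 2 * (ζ z * ((E σ h φ a n z * E σ h φ b n z - pB)
            * (E σ h φ c n z * E σ h φ d n z - pB'))) :=
      (test_int hζ (((cB n).sub continuous_const).mul ((cB' n).sub continuous_const))).const_mul 2
    have e0 : (∫ z, ζ z *
        ((E σ h φ (a + 1) n z * E σ h φ (b + 1) n z - pA)
            * (E σ h φ (c - 1) n z * E σ h φ (d - 1) n z - pC')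
          + (E σ h φ (a - 1) n z * E σ h φ (b - 1) n z - pC)
            * (E σ h φ (c + 1) n z * E σ h φ (d + 1) n z - pA')
          - 2 * ((E σ h φ a n z * E σ h φ b n z - pB) * (E σ h φ c n z * E σ h φ d n z - pB'))))
        = (∫ z, ζ z * ((E σ h φ (a + 1) n z * E σ h φ (b + 1) n z - pA)
            * (E σ h φ (c - 1) n z * E σ h φ (d - 1) n z - pC')))
          + (∫ z, ζ z * ((E σ h φ (a - 1) n z * E σ h φ (b - 1) n z - pC)
            * (E σ h φ (c + 1) n z * E σ h φ (d + 1) n z - pA')))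
          - 2 * ∫ z, ζ z * ((E σ h φ a n z * E σ h φ b n z - pB)
            * (E σ h φ c n z * E σ h φ d n z - pB')) := by
      rw [← integral_const_mul, ← int3 _ _ _ j1 j2 j3]
      refine integral_congr_ae (Eventually.of_forall fun z => ?_)
      ring
    rw [e0, e1, e2, e3]
    have f1 : E4 σ h φ ζ (a + 1) (b + 1) (c - 1) (d - 1) n
        = ∫ z, ζ z * (E σ h φ (a + 1) n z * E σ h φ (b + 1) n z
          * (E σ h φ (c - 1) n z * E σ h φ (d - 1) n z)) :=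
      integral_congr_ae (Eventually.of_forall fun z => by ring)
    have f2 : E4 σ h φ ζ (a - 1) (b - 1) (c + 1) (d + 1) n
        = ∫ z, ζ z * (E σ h φ (a - 1) n z * E σ h φ (b - 1) n z
          * (E σ h φ (c + 1) n z * E σ h φ (d + 1) n z)) :=
      integral_congr_ae (Eventually.of_forall fun z => by ring)
    have f3 : E4 σ h φ ζ a b c d n
        = ∫ z, ζ z * (E σ h φ a n z * E σ h φ b n z
          * (E σ h φ c n z * E σ h φ d n z)) :=
      integral_congr_ae (Eventually.of_forall fun z => by ring)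
    rw [f1, f2, f3]
    ring
  have lim := ((key.add (((lC'.const_mul pA).add (lA.const_mul pC')).sub
    (tendsto_const_nhds (x := pA * pC' * I)))).add (((lA'.const_mul pC).add (lC.const_mul pA')).sub
    (tendsto_const_nhds (x := pC * pA' * I)))).sub ((((lB'.const_mul pB).add
      (lB.const_mul pB')).sub (tendsto_const_nhds (x := pB * pB' * I))).const_mul 2)
  have hval : 0 + (pA * (pC' * I) + pC' * (pA * I) - pA * pC' * I)
      + (pC * (pA' * I) + pA' * (pC * I) - pC * pA' * I)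
      - 2 * (pB * (pB' * I) + pB' * (pB * I) - pB * pB' * I)
      = (pA * pC' + pC * pA' - 2 * (pB * pB')) * I := by ring
  rw [hval] at lim
  refine lim.congr fun n => ?_
  rw [main n]

end QJ


end

section

/-!
ALT: symmetric functions on the triples with sum zero (module QJ_ALT).
-/

namespace QJ

namespace ALT

section

variable {X : Type} [AddCommGroup X] {e : ℤ → ℤ → ℤ → X}

theorem t3 (hu : ∀ a b c, a + b + c = -1 → e (a + 1) b c + e a (b + 1) c + e a b (c + 1) = 0)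
    (hd : ∀ a b c, a + b + c = 1 → e (a - 1) b c + e a (b - 1) c + e a b (c - 1) = 0)
    (a b c : ℤ) (h : a + b + c = 0) : e (a + 1) (b + 1) (c - 2) = e a b c := by
  have h1 := hu a b (c - 1) (by omega)
  have h2 := hd (a + 1) (b + 1) (c - 1) (by omega)
  have e1 : c - 1 + 1 = c := by omega
  have e2 : a + 1 - 1 = a := by omega
  have e3 : b + 1 - 1 = b := by omega
  have e4 : c - 1 - 1 = c - 2 := by omega
  rw [e1] at h1
  rw [e2, e3, e4, add_comm (e a (b + 1) (c - 1))] at h2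
  exact add_left_cancel (h2.trans h1.symm)

omit [AddCommGroup X] in
theorem rot (h12 : ∀ a b c, e b a c = e a b c) (h23 : ∀ a b c, e a c b = e a b c)
    (a b c : ℤ) : e b c a = e a b c := by
  rw [h23 b a c, h12 a b c]

theorem t1 (h12 : ∀ a b c, e b a c = e a b c) (h23 : ∀ a b c, e a c b = e a b c)
    (hu : ∀ a b c, a + b + c = -1 → e (a + 1) b c + e a (b + 1) c + e a b (c + 1) = 0)
    (hd : ∀ a b c, a + b + c = 1 → e (a - 1) b c + e a (b - 1) c + e a b (c - 1) = 0)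
    (a b c : ℤ) (h : a + b + c = 0) : e (a - 2) (b + 1) (c + 1) = e a b c := by
  rw [← rot h12 h23 (a - 2) (b + 1) (c + 1), t3 hu hd b c a (by omega), rot h12 h23 a b c]

theorem red (h12 : ∀ a b c, e b a c = e a b c) (h23 : ∀ a b c, e a c b = e a b c)
    (hu : ∀ a b c, a + b + c = -1 → e (a + 1) b c + e a (b + 1) c + e a b (c + 1) = 0)
    (hd : ∀ a b c, a + b + c = 1 → e (a - 1) b c + e a (b - 1) c + e a b (c - 1) = 0)
    (t c : ℤ) : e (-t - 2 * c) (t + c) c = e (-t) t 0 := by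
  induction c using Int.induction_on with
  | zero =>
    have e1 : -t - 2 * (0 : ℤ) = -t := by omega
    have e2 : t + (0 : ℤ) = t := by omega
    rw [e1, e2]
  | succ c ih =>
    have h := t1 h12 h23 hu hd (-t - 2 * (c : ℤ)) (t + c) c (by omega)
    have e1 : -t - 2 * ((c : ℤ) + 1) = -t - 2 * (c : ℤ) - 2 := by omega
    have e2 : t + ((c : ℤ) + 1) = t + c + 1 := by omega
    rw [e1, e2, h, ih]
  | pred c ih =>
    have h := t1 h12 h23 hu hd (-t - 2 * (-(c : ℤ) - 1)) (t + (-(c : ℤ) - 1)) (-(c : ℤ) - 1)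
      (by omega)
    have e1 : -t - 2 * (-(c : ℤ) - 1) - 2 = -t - 2 * (-(c : ℤ)) := by omega
    have e2 : t + (-(c : ℤ) - 1) + 1 = t + (-(c : ℤ)) := by omega
    have e3 : -(c : ℤ) - 1 + 1 = -(c : ℤ) := by omega
    rw [e1, e2, e3] at h
    rw [← h, ih]

end

end ALT

open _root_.QJ.ALT in
/-- ALT: symmetric functions on the triples with sum zero and the two recursions. -/
theorem stmtAlt : StmtAlt := by
  intro X _ _ e h12 h23 hu hd a b c habc
  have hr := red h12 h23 hu hd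
  -- the reduced function
  set F : ℤ → X := fun t => e (-t) t 0 with hF
  have h0 : ∀ a b c : ℤ, a + b + c = 0 → e a b c = F (b - c) := by
    intro a b c h
    have h1 := hr (b - c) c
    have e1 : -(b - c) - 2 * c = a := by omega
    have e2 : b - c + c = b := by omega
    rw [e1, e2] at h1
    exact h1
  have h3 : ∀ t, F (t + 3) = F t := by
    intro t
    have h1 := t3 hu hd (-t) t 0 (by omega)
    rw [h0 (-t + 1) (t + 1) (0 - 2) (by omega)] at h1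
    have e1 : t + 1 - (0 - 2) = t + 3 := by omega
    rw [e1] at h1
    exact h1
  have h4 : ∀ (t k : ℤ), F (t + 3 * k) = F t := by
    intro t k
    induction k using Int.induction_on with
    | zero => simp
    | succ k ih =>
      have e1 : t + 3 * ((k : ℤ) + 1) = t + 3 * k + 3 := by omega
      rw [e1, h3, ih]
    | pred k ih =>
      have e1 : t + 3 * (-(k : ℤ)) = t + 3 * (-(k : ℤ) - 1) + 3 := by omega
      rw [e1, h3] at ih
      exact ih
  have h5 : F (-1) = F 1 := by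
    have h6 := h12 (-1) 1 0
    have h7 : F 1 = e (-1) 1 0 := rfl
    have h8 : F (-1) = e 1 (-1) 0 := by
      show e (- -1) (-1) 0 = e 1 (-1) 0
      norm_num
    rw [h7, h8, h6]
  have h2 : F 2 = F 1 := by
    rw [← h5]
    have h6 := h3 (-1)
    have e1 : (-1 : ℤ) + 3 = 2 := by omega
    rw [e1] at h6
    exact h6
  have h00 : F 0 = e 0 0 0 := by
    show e (-0) 0 0 = e 0 0 0
    rw [neg_zero]
  have h6 : F 1 + F 1 + F 0 = 0 := by
    have h7 := hu 0 0 (-1) (by omega)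
    rw [h0 (0 + 1) 0 (-1) (by omega), h0 0 (0 + 1) (-1) (by omega),
      h0 0 0 (-1 + 1) (by omega)] at h7
    have e1 : (0 : ℤ) - -1 = 1 := by omega
    have e2 : (0 : ℤ) + 1 - -1 = 2 := by omega
    have e3 : (0 : ℤ) - (-1 + 1) = 0 := by omega
    rw [e1, e2, e3, h2] at h7
    exact h7
  have h7 : F 1 = (-1 / 2 : ℂ) • F 0 := by
    have h8 : F 0 = -(F 1 + F 1) := by
      rw [eq_neg_iff_add_eq_zero, add_comm]
      exact h6
    rw [h8, ← two_smul ℂ (F 1), smul_neg, smul_smul, ← neg_smul]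
    norm_num
  rw [h0 a b c habc, ← h00]
  unfold cl3
  have h8 := h4 ((b - c) % 3) ((b - c) / 3)
  have e1 : (b - c) % 3 + 3 * ((b - c) / 3) = b - c := by omega
  rw [e1] at h8
  split_ifs with h9
  · rw [h9] at h8
    rw [h8, one_smul]
  · have h10 : (b - c) % 3 = 1 ∨ (b - c) % 3 = 2 := by omega
    rcases h10 with h10 | h10
    · rw [h10] at h8
      rw [h8, h7]
    · rw [h10] at h8
      rw [h8, h2, h7]

end QJ


end

section

/-!
LW: the local theorem for mixed derivatives.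
-/

open Complex MeasureTheory Filter Topology Set
open scoped ContDiff

namespace QJ

open QE

noncomputable section

namespace LW

/-! ### Localisation -/

lemma iter_dz_congr {V : Set ℂ} (hV : IsOpen V) (a : ℕ) : ∀ {f g : ℂ → ℂ},
    (∀ z ∈ V, f z = g z) → ∀ z ∈ V, dz^[a] f z = dz^[a] g z := by
  induction a with
  | zero => intro f g h z hz; exact h z hz
  | succ a ih =>
    intro f g h z hz
    rw [Function.iterate_succ_apply, Function.iterate_succ_apply]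
    exact ih (fun w hw => dz_congr_on hV h hw) z hz

lemma iter_dzb_congr {V : Set ℂ} (hV : IsOpen V) (a : ℕ) : ∀ {f g : ℂ → ℂ},
    (∀ z ∈ V, f z = g z) → ∀ z ∈ V, dzb^[a] f z = dzb^[a] g z := by
  induction a with
  | zero => intro f g h z hz; exact h z hz
  | succ a ih =>
    intro f g h z hz
    rw [Function.iterate_succ_apply, Function.iterate_succ_apply]
    exact ih (fun w hw => dzb_congr_on hV h hw) z hz

/-- mixed derivatives of functions which agree on an open set -/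
lemma W_congr {V : Set ℂ} (hV : IsOpen V) {h : ℕ → ℝ} {φ ψ : ℕ → ℂ → ℂ}
    (he : ∀ n, ∀ z ∈ V, φ n z = ψ n z) (a b n : ℕ) {z : ℂ} (hz : z ∈ V) :
    W h φ a b n z = W h ψ a b n z := by
  unfold W
  rw [iter_dz_congr hV a (iter_dzb_congr hV b (he n)) z hz]

/-- integrals against test functions only see the open set -/
lemma int_congr {V : Set ℂ} {ζ f g : ℂ → ℂ} (hζ : Test V ζ) (h : ∀ z ∈ V, f z = g z) :
    ∫ z, ζ z * f z = ∫ z, ζ z * g z := by
  congr 1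
  funext z
  by_cases hz : z ∈ V
  · rw [h z hz]
  · have : ζ z = 0 := image_eq_zero_of_notMem_tsupport fun hh => hz (hζ.sub hh)
    rw [this, zero_mul, zero_mul]

/-- **localisation**: near a compact set a `LocalQE` sequence is a `Loc` sequence -/
theorem exists_loc {U : Set ℂ} {g : ℂ → ℝ} {h : ℕ → ℝ} {φ : ℕ → ℂ → ℂ} (hU : IsOpen U)
    (hg : ContDiffOn ℝ ∞ g U) (hgp : ∀ z ∈ U, 0 < g z) (H : LocalQE U g h φ) {K : Set ℂ}
    (hK : IsCompact K) (hKU : K ⊆ U) :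
    ∃ (V : Set ℂ) (σ : ℂ → ℝ) (ψ : ℕ → ℂ → ℂ), K ⊆ V ∧ V ⊆ U ∧ Loc V σ h ψ ∧
      (∀ n, ∀ z ∈ V, ψ n z = φ n z) ∧ ∀ z ∈ V, g z = Real.exp (σ z) ^ 2 := by
  obtain ⟨χ₀, hχ₀, hχ1, -⟩ := exists_cutoff hU hK hKU
  -- the real part of the cutoff
  obtain ⟨χ, hχ⟩ : ∃ χ : ℂ → ℝ, ∀ z, χ z = (χ₀ z).re := ⟨_, fun _ => rfl⟩
  have hχT : Test U (fun z => (χ z : ℂ)) := by
    have hs : ContDiff ℝ ∞ χ := by
      have : χ = fun z => reCLM (χ₀ z) := by
        funext z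
        rw [hχ]
        rfl
      rw [this]
      exact reCLM.contDiff.comp hχ₀.smooth
    have hsub : Function.support (fun z => (χ z : ℂ)) ⊆ Function.support χ₀ := by
      intro z hz h0
      apply hz
      simp [hχ, h0]
    refine ⟨ofRealCLM.contDiff.comp hs, ?_, (closure_mono hsub).trans hχ₀.sub⟩
    exact hχ₀.supp.of_isClosed_subset (isClosed_tsupport _) (closure_mono hsub)
  obtain ⟨V, hVdef⟩ : ∃ V, V = interior {z | χ₀ z = 1} := ⟨_, rfl⟩
  have hVo : IsOpen V := by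
    rw [hVdef]
    exact isOpen_interior
  have hV1 : ∀ z ∈ V, χ z = 1 := by
    intro z hz
    rw [hVdef] at hz
    have h1 : z ∈ {z | χ₀ z = 1} := interior_subset hz
    have h2 : χ₀ z = 1 := h1
    rw [hχ, h2, one_re]
  have hKV : K ⊆ V := by
    intro z hz
    rw [hVdef, mem_interior_iff_mem_nhds]
    exact hχ1 z hz
  have hVU : V ⊆ U := by
    intro z hz
    apply hχT.sub
    apply subset_tsupport
    simp [hV1 z hz]
  have hχ0 : ∀ z, z ∉ U → χ z = 0 := by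
    intro z hz
    have h1 : (χ z : ℂ) = 0 :=
      image_eq_zero_of_notMem_tsupport (f := fun z => (χ z : ℂ)) fun hh => hz (hχT.sub hh)
    exact_mod_cast h1
  -- the functions
  obtain ⟨ψ, hψ⟩ : ∃ ψ : ℕ → ℂ → ℂ, ∀ n, ψ n = fun z => (χ z : ℂ) * φ n z := ⟨_, fun _ => rfl⟩
  have hψV : ∀ n, ∀ z ∈ V, ψ n z = φ n z := by
    intro n z hz
    rw [hψ]
    simp [hV1 z hz]
  obtain ⟨S, hS⟩ : ∃ S : ℂ → ℂ, S = fun z => (χ z : ℂ) * ((1 / 2 * Real.log (g z) : ℝ) : ℂ) :=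
    ⟨_, rfl⟩
  have hST : Test U S := by
    rw [hS]
    apply hχT.mul hU
    apply ofRealCLM.contDiff.comp_contDiffOn
    exact contDiffOn_const.mul (hg.log fun z hz => (hgp z hz).ne')
  obtain ⟨σ, hσ⟩ : ∃ σ : ℂ → ℝ, ∀ z, σ z = (S z).re := ⟨_, fun _ => rfl⟩
  have hσs : ContDiff ℝ ∞ σ := by
    have : σ = fun z => reCLM (S z) := by
      funext z
      rw [hσ]
      rfl
    rw [this]
    exact reCLM.contDiff.comp hST.smooth
  have hgV : ∀ z ∈ V, g z = Real.exp (σ z) ^ 2 := by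
    intro z hz
    have e1 : σ z = 1 / 2 * Real.log (g z) := by
      rw [hσ, hS]
      simp only [hV1 z hz, ofReal_one, one_mul, ofReal_re]
    rw [e1, ← Real.exp_nat_mul]
    have e2 : ((2 : ℕ) : ℝ) * (1 / 2 * Real.log (g z)) = Real.log (g z) := by
      push_cast
      ring
    rw [e2, Real.exp_log (hgp z (hVU hz))]
  refine ⟨V, σ, ψ, hKV, hVU, ?_, hψV, hgV⟩
  refine ⟨hVo, H.hpos, H.hlim, hσs, ?_, ?_, ?_, ?_, ?_⟩
  · intro n
    rw [hψ]
    exact (hχT.mul hU (H.smooth n)).smooth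
  · intro n z
    rw [hψ]
    simp only [map_mul, conj_ofReal]
    by_cases hz : z ∈ U
    · rw [H.real n z hz]
    · rw [hχ0 z hz]
      simp
  · intro n z hz
    have e1 : dz (dzb (ψ n)) z = dz (dzb (φ n)) z :=
      dz_congr_on hVo (fun w hw => dzb_congr_on hVo (hψV n) hw) hz
    rw [e1, H.eig n z (hVU hz), hψV n z hz, hgV z hz]
    congr 2
    unfold ex
    rw [← Real.exp_nat_mul]
    norm_num
  · intro ζ hζ
    have := H.mass ζ (hζ.mono hVU)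
    refine this.congr fun n => ?_
    exact (int_congr hζ fun z hz => by rw [hψV n z hz]).symm
  · intro k hk ζ hζ
    have := H.mom k hk ζ (hζ.mono hVU)
    refine this.congr fun n => ?_
    exact (int_congr hζ fun z hz => by
      rw [hψV n z hz, iter_dz_congr hVo k (hψV n) z hz]).symm

/-- the rescaled mixed derivatives in terms of the exponential weights -/
lemma Wg_eq {V : Set ℂ} (hV : IsOpen V) {g : ℂ → ℝ} {σ : ℂ → ℝ} {h : ℕ → ℝ} {φ ψ : ℕ → ℂ → ℂ}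
    (he : ∀ n, ∀ z ∈ V, ψ n z = φ n z) (hg : ∀ z ∈ V, g z = Real.exp (σ z) ^ 2)
    (a b n : ℕ) {z : ℂ} (hz : z ∈ V) :
    Wg g h φ a b n z = ex σ (-(a + b)) z * W h ψ a b n z := by
  unfold Wg
  rw [W_congr hV he a b n hz, hg z hz, Real.sqrt_sq (Real.exp_pos _).le]
  congr 1
  unfold ex
  rw [← Real.exp_neg, ← Real.exp_nat_mul]
  congr 2
  push_cast
  ring

/-! ### Products -/

lemma Dom.one {V : Set ℂ} {h : ℕ → ℝ} {φ : ℕ → ℂ → ℂ} (hV : IsOpen V)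
    (hh0 : Tendsto h atTop (𝓝 0)) (q : ℕ) (c : ℂ) : Dom V h φ q (fun _ _ => c) :=
  Dom.of_fn hV hh0 q contDiff_const

/-- products of sequences which are known up to `O(h)` -/
lemma prod_expand {V : Set ℂ} {h : ℕ → ℝ} {φ : ℕ → ℂ → ℂ} (hV : IsOpen V)
    (hh0 : Tendsto h atTop (𝓝 0)) (r : ℕ) : ∀ (u v A : Fin r → ℕ → ℂ → ℂ),
    (∀ i, Dom V h φ 1 (v i)) → (∀ i, Dom V h φ 1 (A i)) →
    (∀ i n, ∀ z ∈ V, u i n z = v i n z + (h n : ℂ) * A i n z) →
    Dom V h φ r (fun n z => ∏ i, v i n z) ∧ ∃ R, Dom V h φ r R ∧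
      ∀ n, ∀ z ∈ V, ∏ i, u i n z = ∏ i, v i n z + (h n : ℂ) * R n z := by
  induction r with
  | zero =>
    intro u v A _ _ _
    constructor
    · simpa using Dom.one hV hh0 0 1
    · refine ⟨fun _ _ => 0, Dom.one hV hh0 0 0, fun n z _ => ?_⟩
      simp
  | succ r ih =>
    intro u v A hv hA hu
    obtain ⟨h1, R, hR, hR2⟩ := ih (fun i => u i.succ) (fun i => v i.succ) (fun i => A i.succ)
      (fun i => hv _) (fun i => hA _) (fun i => hu _)
    constructor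
    · have := (hv 0).mul hV h1
      rw [add_comm] at this
      simpa only [Fin.prod_univ_succ] using this
    · refine ⟨fun n z => A 0 n z * ∏ i : Fin r, v i.succ n z + v 0 n z * R n z +
        (h n : ℂ) * (A 0 n z * R n z), ?_, ?_⟩
      · have t1 := (hA 0).mul hV h1
        have t2 := (hv 0).mul hV hR
        have t3 := ((hA 0).mul hV hR).hmul hV hh0
        rw [add_comm] at t1 t2 t3
        exact (t1.add hV t2).add hV t3
      · intro n z hz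
        rw [Fin.prod_univ_succ, Fin.prod_univ_succ, hR2 n z hz, hu 0 n z hz]
        ring

/-- the error terms vanish -/
lemma err {V : Set ℂ} {σ : ℂ → ℝ} {h : ℕ → ℝ} {φ : ℕ → ℂ → ℂ} (hL : Loc V σ h φ)
    (hG : Grow V h φ) (hInt : StmtInt) {r : ℕ} (hr : r ≤ 4) {R : ℕ → ℂ → ℂ} (hR : Dom V h φ r R)
    {ζ : ℂ → ℂ} (hζ : Test V ζ) :
    Tendsto (fun n => ∫ z, ζ z * ((h n : ℂ) * R n z)) atTop (𝓝 0) := by
  have h3 := (hInt V h φ R hL.hpos hL.hlim hL.smφ hG hR.smooth).2.2 (hR.bq.mono hr)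
    (tsupport ζ) hζ.supp hζ.sub
  obtain ⟨M, hM⟩ := hζ.smooth.continuous.bounded_above_of_compact_support hζ.supp
  rw [tendsto_zero_iff_norm_tendsto_zero]
  refine squeeze_zero (fun n => norm_nonneg _) (fun n => ?_) (by simpa using h3.const_mul M)
  have hn := (hL.hpos n).le
  have e1 : ∫ z, ζ z * ((h n : ℂ) * R n z) = ∫ z in tsupport ζ, ζ z * ((h n : ℂ) * R n z) := by
    rw [setIntegral_eq_integral_of_forall_compl_eq_zero]
    intro z hz
    rw [image_eq_zero_of_notMem_tsupport hz, zero_mul]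
  rw [e1]
  have e2 : IntegrableOn (fun z => M * (h n * ‖R n z‖)) (tsupport ζ) := by
    apply ContinuousOn.integrableOn_compact hζ.supp
    exact (continuous_const.mul (continuous_const.mul (hR.smooth n).continuous.norm)).continuousOn
  calc ‖∫ z in tsupport ζ, ζ z * ((h n : ℂ) * R n z)‖
      ≤ ∫ z in tsupport ζ, M * (h n * ‖R n z‖) := by
        refine norm_integral_le_of_norm_le e2 (Filter.Eventually.of_forall fun z => ?_)
        rw [norm_mul, norm_mul, Complex.norm_real, Real.norm_of_nonneg hn]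
        exact mul_le_mul_of_nonneg_right (hM z) (mul_nonneg hn (norm_nonneg _))
    _ = M * (h n * ∫ z in tsupport ζ, ‖R n z‖) := by
        rw [integral_const_mul, integral_const_mul]

/-- the products of the mixed derivatives and of the covariant jets -/
theorem main {V : Set ℂ} {g : ℂ → ℝ} {σ : ℂ → ℝ} {h : ℕ → ℝ} {φ ψ : ℕ → ℂ → ℂ}
    (hInt : StmtInt) (hJetA : StmtJetA) (hJetB : StmtJetB)
    (hL : Loc V σ h ψ) (hG : Grow V h ψ) (he : ∀ n, ∀ z ∈ V, ψ n z = φ n z)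
    (hg : ∀ z ∈ V, g z = Real.exp (σ z) ^ 2) {ζ : ℂ → ℂ} (hζ : Test V ζ) {r : ℕ} (hr : r ≤ 4)
    (a b : Fin r → ℕ) :
    Tendsto (fun n => (∫ z, ζ z * ∏ i, Wg g h φ (a i) (b i) n z) -
      (∏ i, cW (a i) (b i)) * ∫ z, ζ z * ∏ i, E σ h ψ ((a i : ℤ) - b i) n z) atTop (𝓝 0) := by
  choose A hA hA2 using fun i => hJetB V σ h ψ hL (a i) (b i)
  obtain ⟨h1, R, hR, hR2⟩ := prod_expand (φ := ψ) hL.op hL.hlim r
    (fun i n z => Wg g h φ (a i) (b i) n z)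
    (fun i n z => cW (a i) (b i) * E σ h ψ ((a i : ℤ) - b i) n z) A
    (fun i => ((hJetA V σ h ψ hL _).1).smul hL.op _) hA
    (fun i n z hz => by
      rw [Wg_eq hL.op he hg _ _ n hz, hA2 i n z hz]
      rfl)
  refine (err hL hG hInt hr hR hζ).congr fun n => ?_
  have e1 : ∫ z, ζ z * ∏ i, Wg g h φ (a i) (b i) n z =
      ∫ z, ζ z * (∏ i, (cW (a i) (b i) * E σ h ψ ((a i : ℤ) - b i) n z) + (h n : ℂ) * R n z) :=
    int_congr hζ fun z hz => hR2 n z hz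
  have e2 : (∏ i, cW (a i) (b i)) * ∫ z, ζ z * ∏ i, E σ h ψ ((a i : ℤ) - b i) n z =
      ∫ z, ζ z * ∏ i, (cW (a i) (b i) * E σ h ψ ((a i : ℤ) - b i) n z) := by
    rw [← integral_const_mul]
    congr 1
    funext z
    rw [Finset.prod_mul_distrib]
    ring
  rw [e1, e2, ← integral_sub]
  · congr 1
    funext z
    ring
  · exact test_int hζ ((h1.smooth n).continuous.add
      (continuous_const.mul (hR.smooth n).continuous))
  · exact test_int hζ (h1.smooth n).continuous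

end LW

open _root_.QJ.LW in
theorem stmtLW (hGro : StmtGro) (hInt : StmtInt) (hJetA : StmtJetA) (hJetB : StmtJetB)
    (hTwo : StmtTwo) (hOne : StmtOne) (hCub : StmtCub) (hFou : StmtFou) : StmtLW := by
  intro U g h φ hU hg hgp H ζ hζ
  obtain ⟨V, σ, ψ, hKV, hVU, hL, he, hgV⟩ := exists_loc hU hg hgp H hζ.supp hζ.sub
  have hζV : Test V ζ := ⟨hζ.smooth, hζ.supp, hKV⟩
  have hG := hGro V σ h ψ hL
  have key : ∀ {r : ℕ} (_ : r ≤ 4) (a b : Fin r → ℕ), Tendsto (fun n =>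
      (∫ z, ζ z * ∏ i, Wg g h φ (a i) (b i) n z) -
      (∏ i, cW (a i) (b i)) * ∫ z, ζ z * ∏ i, E σ h ψ ((a i : ℤ) - b i) n z) atTop (𝓝 0) :=
    fun hr a b => main hInt hJetA hJetB hL hG he hgV hζV hr a b
  refine ⟨?_, ?_, ?_, ?_⟩
  · intro a b _
    have k1 := key (r := 1) (by norm_num) (fun _ => a) (fun _ => b)
    have k2 := hOne V σ h ψ hL ((a : ℤ) - b) ζ hζV
    have k3 := k1.add (k2.const_mul (cW a b))
    simp only [Fin.prod_univ_one, mul_zero, add_zero] at k3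
    refine k3.congr fun n => ?_
    ring
  · intro a b _
    have k1 := key (r := 2) (by norm_num) a b
    have k2 := hTwo V σ h ψ hL ((a 0 : ℤ) - b 0) ((a 1 : ℤ) - b 1) ζ hζV
    have k3 := k1.add (k2.const_mul (∏ i, cW (a i) (b i)))
    rw [zero_add, ← mul_assoc] at k3
    refine k3.congr fun n => ?_
    simp only [Fin.prod_univ_two]
    ring
  · intro a b hab
    have k1 := key (r := 3) (by norm_num) a b
    have hab' : ((a 0 : ℤ) - b 0) + ((a 1 : ℤ) - b 1) + ((a 2 : ℤ) - b 2) = 0 := by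
      rw [← hab, Fin.sum_univ_three]
    have k2 := hCub V σ h ψ hL ζ hζV _ _ _ hab'
    have k3 := k1.add (k2.const_mul (∏ i, cW (a i) (b i)))
    rw [mul_zero, add_zero] at k3
    refine k3.congr fun n => ?_
    have e1 : E3 σ h ψ ζ ((a 0 : ℤ) - b 0) ((a 1 : ℤ) - b 1) ((a 2 : ℤ) - b 2) n =
        ∫ z, ζ z * ∏ i, E σ h ψ ((a i : ℤ) - b i) n z := by
      unfold E3
      simp only [Fin.prod_univ_three]
    rw [e1]
    ring
  · intro a b hab
    have k1 := key (r := 4) (le_refl 4) a b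
    have hab' : ((a 0 : ℤ) - b 0) + ((a 1 : ℤ) - b 1) + ((a 2 : ℤ) - b 2) + ((a 3 : ℤ) - b 3)
        = 0 := by
      rw [← hab, Fin.sum_univ_four]
    have k2 := hFou V σ h ψ hL ζ hζV _ _ _ _ hab'
    have k3 := k1.add (k2.const_mul (∏ i, cW (a i) (b i)))
    rw [mul_zero, add_zero] at k3
    refine k3.congr fun n => ?_
    have e1 : E4 σ h ψ ζ ((a 0 : ℤ) - b 0) ((a 1 : ℤ) - b 1) ((a 2 : ℤ) - b 2)
        ((a 3 : ℤ) - b 3) n = ∫ z, ζ z * ∏ i, E σ h ψ ((a i : ℤ) - b i) n z := by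
      unfold E4
      simp only [Fin.prod_univ_four]
    have e2 : E4 σ h ψ ζ 0 0 0 0 n = ∫ z, ζ z * φ n z ^ 4 := by
      unfold E4
      refine int_congr hζV fun z hz => ?_
      have e3 : E σ h ψ 0 n z = ψ n z := rfl
      rw [e3, he n z hz]
      ring
    rw [e1, e2]
    ring

end

end QJ


end

section

/-!
Module LWE: the error terms of the local theorem, and the transfer from `LocalQE` to `Loc`.
-/

open Complex MeasureTheory Filter Topology Set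
open scoped ContDiff

namespace QJ

open QE

noncomputable section

namespace LWE

lemma iter_dz_congr {V : Set ℂ} (hV : IsOpen V) {f g : ℂ → ℂ} (h : ∀ z ∈ V, f z = g z) (a : ℕ) :
    ∀ z ∈ V, dz^[a] f z = dz^[a] g z := by
  induction a with
  | zero => exact h
  | succ a ih =>
    intro z hz
    rw [Function.iterate_succ_apply', Function.iterate_succ_apply']
    exact dz_congr_on hV ih hz

lemma iter_dzb_congr {V : Set ℂ} (hV : IsOpen V) {f g : ℂ → ℂ} (h : ∀ z ∈ V, f z = g z) (a : ℕ) :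
    ∀ z ∈ V, dzb^[a] f z = dzb^[a] g z := by
  induction a with
  | zero => exact h
  | succ a ih =>
    intro z hz
    rw [Function.iterate_succ_apply', Function.iterate_succ_apply']
    exact dzb_congr_on hV ih hz

/-- the mixed derivatives depend on the functions near the point only -/
lemma W_congr {V : Set ℂ} (hV : IsOpen V) {h : ℕ → ℝ} {φ φ' : ℕ → ℂ → ℂ}
    (he : ∀ n, ∀ z ∈ V, φ' n z = φ n z) (a b n : ℕ) {z : ℂ} (hz : z ∈ V) :
    W h φ' a b n z = W h φ a b n z := by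
  unfold W
  rw [iter_dz_congr hV (iter_dzb_congr hV (he n) b) a z hz]

lemma test_re {U : Set ℂ} {χ : ℂ → ℂ} (hχ : Test U χ) : Test U (fun z => ((χ z).re : ℂ)) := by
  have hs : Function.support (fun z => ((χ z).re : ℂ)) ⊆ Function.support χ := by
    intro z hz h0
    apply hz
    show ((χ z).re : ℂ) = 0
    rw [h0]; simp
  exact ⟨Complex.ofRealCLM.contDiff.comp (Complex.reCLM.contDiff.comp hχ.smooth),
    hχ.supp.mono hs, (closure_mono hs).trans hχ.sub⟩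

/-- integrals against test functions depend on the values on the set only -/
lemma int_congr {V : Set ℂ} {ζ u v : ℂ → ℂ} (hζ : Test V ζ) (h : ∀ z ∈ V, u z = v z) :
    ∫ z, ζ z * u z = ∫ z, ζ z * v z := by
  congr 1
  funext z
  by_cases hz : z ∈ V
  · rw [h z hz]
  · rw [image_eq_zero_of_notMem_tsupport fun hh => hz (hζ.sub hh), zero_mul, zero_mul]

/-- transfer from `LocalQE` to `Loc` near a compact set -/
theorem transfer {U : Set ℂ} {g : ℂ → ℝ} {h : ℕ → ℝ} {φ : ℕ → ℂ → ℂ} (hU : IsOpen U)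
    (hg : ContDiffOn ℝ ∞ g U) (hpos : ∀ z ∈ U, 0 < g z) (H : LocalQE U g h φ) {K : Set ℂ}
    (hK : IsCompact K) (hKU : K ⊆ U) :
    ∃ (V : Set ℂ) (σ : ℂ → ℝ) (φ' : ℕ → ℂ → ℂ), IsOpen V ∧ K ⊆ V ∧ V ⊆ U ∧ Loc V σ h φ' ∧
      (∀ n, ∀ z ∈ V, φ' n z = φ n z) ∧ ∀ z ∈ V, Real.exp (2 * σ z) = g z := by
  obtain ⟨χ, hχ, hχ1, -⟩ := exists_cutoff hU hK hKU
  have hr := test_re hχ
  obtain ⟨V, hV⟩ : ∃ V : Set ℂ, V = interior {w | χ w = 1} := ⟨_, rfl⟩
  have hVo : IsOpen V := by rw [hV]; exact isOpen_interior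
  have hV1 : ∀ z ∈ V, χ z = 1 := fun z hz => by
    rw [hV] at hz
    have h1 : z ∈ {w | χ w = 1} := interior_subset hz
    exact h1
  have hKV : K ⊆ V := fun z hz => by
    rw [hV, mem_interior_iff_mem_nhds]
    exact hχ1 z hz
  have hVU : V ⊆ U := fun z hz => hχ.sub (subset_tsupport χ (by
    rw [Function.mem_support, hV1 z hz]
    exact one_ne_zero))
  have hlog : ContDiffOn ℝ ∞ (fun z => ((Real.log (g z) / 2 : ℝ) : ℂ)) U :=
    Complex.ofRealCLM.contDiff.comp_contDiffOn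
      ((hg.log fun z hz => (hpos z hz).ne').div_const 2)
  have hσ : ContDiff ℝ ∞ (fun z => (χ z).re * (Real.log (g z) / 2)) := by
    have h1 := Complex.reCLM.contDiff.comp (hr.mul hU hlog).smooth
    have h2 : (fun z => (χ z).re * (Real.log (g z) / 2)) =
        (Complex.reCLM ∘ fun z => ((χ z).re : ℂ) * ((Real.log (g z) / 2 : ℝ) : ℂ)) := by
      funext z
      show _ = (((χ z).re : ℂ) * ((Real.log (g z) / 2 : ℝ) : ℂ)).re
      rw [← Complex.ofReal_mul, Complex.ofReal_re]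
    rw [h2]
    exact h1
  have hφV : ∀ n, ∀ z ∈ V, ((χ z).re : ℂ) * φ n z = φ n z := fun n z hz => by
    rw [hV1 z hz]; simp
  have hσV : ∀ z ∈ V, Real.exp (2 * ((χ z).re * (Real.log (g z) / 2))) = g z := fun z hz => by
    rw [hV1 z hz, Complex.one_re, one_mul, mul_div_cancel₀ _ (two_ne_zero)]
    exact Real.exp_log (hpos z (hVU hz))
  refine ⟨V, fun z => (χ z).re * (Real.log (g z) / 2), fun n z => ((χ z).re : ℂ) * φ n z, hVo,
    hKV, hVU, ?_, hφV, hσV⟩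
  exact
    { op := hVo
      hpos := H.hpos
      hlim := H.hlim
      sm := hσ
      smφ := fun n => (hr.mul hU (H.smooth n)).smooth
      real := by
        intro n z
        by_cases hz : z ∈ U
        · rw [map_mul, Complex.conj_ofReal, H.real n z hz]
        · have h0 : χ z = 0 := image_eq_zero_of_notMem_tsupport fun hh => hz (hχ.sub hh)
          rw [h0]
          simp
      eig := by
        intro n z hz
        have h1 : dz (dzb (fun z => ((χ z).re : ℂ) * φ n z)) z = dz (dzb (φ n)) z :=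
          dz_congr_on hVo (fun w hw => dzb_congr_on hVo (hφV n) hw) hz
        rw [h1, H.eig n z (hVU hz), hφV n z hz]
        unfold ex
        have h2 : Real.exp (((2 : ℤ) : ℝ) * ((χ z).re * (Real.log (g z) / 2))) = g z := by
          have := hσV z hz
          push_cast
          exact this
        rw [h2]
      mass := by
        intro ζ hζ
        have h1 := H.mass ζ (hζ.mono hVU)
        refine h1.congr fun n => ?_
        exact (int_congr hζ fun z hz => by rw [hφV n z hz]).symm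
      mom := by
        intro k hk ζ hζ
        have h1 := H.mom k hk ζ (hζ.mono hVU)
        refine h1.congr fun n => ?_
        exact (int_congr hζ fun z hz => by
          rw [hφV n z hz, iter_dz_congr hVo (hφV n) k z hz]).symm }

/-- products of mixed derivatives are dominated -/
lemma bq_prod {V : Set ℂ} {h : ℕ → ℝ} {φ : ℕ → ℂ → ℂ} (r : ℕ) : ∀ (a b : Fin r → ℕ),
    Bq V h φ r (fun n z => ∏ i, W h φ (a i) (b i) n z) := by
  induction r with
  | zero =>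
    intro a b
    have := Bq.of_fn (V := V) (h := h) (φ := φ) 0 (b := fun _ => (1 : ℂ)) continuousOn_const
    simpa using this
  | succ r ih =>
    intro a b
    have h0 : Bq V h φ 1 (W h φ (a 0) (b 0)) := fun K _ _ =>
      ⟨max (a 0) (b 0), 1, Filter.Eventually.of_forall fun n z _ => by
        rw [one_mul, pow_one]; exact W_sq_le (le_max_left _ _) (le_max_right _ _) n z⟩
    have h1 := h0.mul (ih (fun i => a i.succ) (fun i => b i.succ))
    rw [add_comm] at h1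
    refine h1.congr fun n z _ => ?_
    rw [Fin.prod_univ_succ]

end LWE

open _root_.QJ.LWE in
/-- LWE: the error terms -/
theorem stmtLWE (hGro : StmtGro) (hInt : StmtInt) : StmtLWE := by
  intro U g h φ hU hg hpos H K hK hKU r a b hr
  obtain ⟨V, σ, φ', hVo, hKV, hVU, hL, he, -⟩ := transfer hU hg hpos H hK hKU
  have hG := hGro V σ h φ' hL
  have hsm : ∀ n, ContDiff ℝ ∞ (fun z => ∏ i, W h φ' (a i) (b i) n z) := fun n =>
    contDiff_prod fun i _ => contDiff_W hL.smφ (a i) (b i) n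
  have h1 := (hInt V h φ' (fun n z => ∏ i, W h φ' (a i) (b i) n z) hL.hpos hL.hlim hL.smφ hG
    hsm).2.2 ((bq_prod r a b).mono hr) K hK hKV
  refine h1.congr fun n => ?_
  congr 1
  apply setIntegral_congr_fun hK.measurableSet
  intro z hz
  simp only
  congr 1
  exact Finset.prod_congr rfl fun i _ => W_congr hVo he (a i) (b i) n (hKV hz)

end

end QJ


end

section

/-!
Third order statistics of all eigenfunctions on surfaces of negative curvature: definitions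
(local part). No equidistribution is assumed.
-/

open Complex MeasureTheory Filter Topology Set
open scoped ContDiff

namespace U3

open QE QJ

noncomputable section

/-- the standing hypotheses: `φₙ` are real functions, smooth on the plane, which solve
`h² Δ φ = - e^{2σ} φ` on the open set `V`, with bounded mass on the compact subsets of `V` -/
structure LocB (V : Set ℂ) (σ : ℂ → ℝ) (h : ℕ → ℝ) (φ : ℕ → ℂ → ℂ) : Prop where
  op : IsOpen V
  hpos : ∀ n, 0 < h n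
  hlim : Tendsto h atTop (𝓝 0)
  sm : ContDiff ℝ ∞ σ
  smφ : ∀ n, ContDiff ℝ ∞ (φ n)
  real : ∀ n z, (starRingEnd ℂ) (φ n z) = φ n z
  eig : ∀ n, ∀ z ∈ V, 4 * (h n : ℂ) ^ 2 * dz (dzb (φ n)) z = - ex σ 2 z * φ n z
  bdd : ∀ K, IsCompact K → K ⊆ V → ∃ C : ℝ, ∀ᶠ n in atTop, ∫ z in K, ‖φ n z‖ ^ 2 ≤ C

/-- the growth of the jets: linear growth of the mass, and `h · RR` is locally bounded -/
structure GrowA (V : Set ℂ) (h : ℕ → ℝ) (φ : ℕ → ℂ → ℂ) : Prop where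
  grow : ∀ K, IsCompact K → K ⊆ V → ∀ N : ℕ, ∃ C : ℝ, ∀ᶠ n in atTop, ∀ z ∈ K, ∀ s > 0,
    ∫ w in K ∩ Metric.closedBall z s, RR h φ N n w ≤ C * s
  bdd : ∀ K, IsCompact K → K ⊆ V → ∀ N : ℕ, ∃ C : ℝ, ∀ᶠ n in atTop, ∀ z ∈ K,
    h n * RR h φ N n z ≤ C

/-- the jets of order at most `N` are small in `L⁴` after multiplication by `h` -/
def Small (V : Set ℂ) (h : ℕ → ℝ) (φ : ℕ → ℂ → ℂ) : Prop :=
  ∀ K, IsCompact K → K ⊆ V → ∀ N : ℕ,
    Tendsto (fun n => h n * ∫ z in K, RR h φ N n z ^ 2) atTop (𝓝 0)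

/-- `h ∫_K ‖u‖ → 0` on the compact subsets of `V` -/
def HZ (V : Set ℂ) (h : ℕ → ℝ) (u : ℕ → ℂ → ℂ) : Prop :=
  ∀ K, IsCompact K → K ⊆ V → Tendsto (fun n => h n * ∫ z in K, ‖u n z‖) atTop (𝓝 0)

/-- linear growth of the integrals of `‖uₙ‖` over balls -/
def LG (V : Set ℂ) (u : ℕ → ℂ → ℂ) : Prop :=
  ∀ K, IsCompact K → K ⊆ V → ∃ C : ℝ, ∀ᶠ n in atTop, ∀ z ∈ K, ∀ s > 0,
    ∫ w in K ∩ Metric.closedBall z s, ‖u n w‖ ≤ C * s

/-- weak convergence to zero on `V` -/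
def WZ (V : Set ℂ) (u : ℕ → ℂ → ℂ) : Prop :=
  ∀ ζ : ℂ → ℂ, Test V ζ → Tendsto (fun n => ∫ z, ζ z * u n z) atTop (𝓝 0)

/-- bounded in `L²` on the compact subsets of `V` -/
def L2b (V : Set ℂ) (u : ℕ → ℂ → ℂ) : Prop :=
  ∀ K, IsCompact K → K ⊆ V → ∃ C : ℝ, ∀ᶠ n in atTop, ∫ z in K, ‖u n z‖ ^ 2 ≤ C

/-- a triple `(A, B, C)` of spins `N + 2`, `N`, `N - 2`, smooth, with linear growth, and with
`Db A = - D B` and `D C = - Db B` up to errors which tend to zero in `L²` -/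
structure TripB (V : Set ℂ) (σ : ℂ → ℝ) (N : ℤ) (A B C : ℕ → ℂ → ℂ) : Prop where
  sA : ∀ n, ContDiff ℝ ∞ (A n)
  sB : ∀ n, ContDiff ℝ ∞ (B n)
  sC : ∀ n, ContDiff ℝ ∞ (C n)
  gA : LG V A
  gB : LG V B
  gC : LG V C
  eA : L2z V (fun n z => Db σ (N + 2) (A n) z + D σ N (B n) z)
  eC : L2z V (fun n z => D σ (N - 2) (C n) z + Db σ N (B n) z)

/-- a triple which tends weakly to zero -/
structure TripZ (V : Set ℂ) (σ : ℂ → ℝ) (N : ℤ) (A B C : ℕ → ℂ → ℂ) : Prop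
    extends TripB V σ N A B C where
  wA : WZ V A
  wB : WZ V B
  wC : WZ V C

/-- bounded potentials of a triple on `V` (compare `QJ.Pot`) -/
structure PotB (V : Set ℂ) (σ : ℂ → ℝ) (N : ℤ) (A B C x y : ℕ → ℂ → ℂ) : Prop where
  sx : ∀ n, ContDiff ℝ ∞ (x n)
  sy : ∀ n, ContDiff ℝ ∞ (y n)
  hx : ∀ n, ∀ z ∈ V, Db σ (N + 1) (x n) z = - B n z
  hy : ∀ n, ∀ z ∈ V, D σ (N - 1) (y n) z = - B n z
  lx : L2b V x
  ly : L2b V y
  la : L2b V (fun n z => A n z - D σ (N + 1) (x n) z)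
  lc : L2b V (fun n z => C n z - Db σ (N - 1) (y n) z)
  lda : L2b V (fun n z => Db σ (N + 2) (fun w => A n w - D σ (N + 1) (x n) w) z)
  ldc : L2b V (fun n z => D σ (N - 2) (fun w => C n w - Db σ (N - 1) (y n) w) z)

/-! ### Measures -/

/-- a finite measure on a space `Ω` with two functions `p` (the base point) and `u` (the direction,
a complex number of modulus one), such that the products of jets converge to its moments -/
structure LimM (V : Set ℂ) (σ : ℂ → ℝ) (h : ℕ → ℝ) (φ : ℕ → ℂ → ℂ) {Ω : Type} [MeasurableSpace Ω]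
    (μ : Measure Ω) (p u : Ω → ℂ) : Prop where
  fin : μ Set.univ ≠ ⊤
  mp : Measurable p
  mu : Measurable u
  unit : ∀ o, ‖u o‖ = 1
  cpt : ∃ K, IsCompact K ∧ ∀ᵐ o ∂μ, p o ∈ K
  lim : ∀ (j m : ℤ) (ζ : ℂ → ℂ), Test V ζ →
    Tendsto (fun n => ∫ z, ζ z * (E σ h φ j n z * E σ h φ m n z)) atTop
      (𝓝 ((-1) ^ m * ∫ o, ζ (p o) * u o ^ (j + m) ∂μ))

/-- what is needed of the limit measure: linear growth, no odd moments, and transport -/
structure DirM (V : Set ℂ) (σ : ℂ → ℝ) {Ω : Type} [MeasurableSpace Ω] (μ : Measure Ω)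
    (p u : Ω → ℂ) : Prop where
  fin : μ Set.univ ≠ ⊤
  mp : Measurable p
  mu : Measurable u
  unit : ∀ o, ‖u o‖ = 1
  cpt : ∃ K, IsCompact K ∧ ∀ᵐ o ∂μ, p o ∈ K
  grow : ∀ K, IsCompact K → K ⊆ V → ∃ C : ℝ, ∀ z ∈ K, ∀ s > 0,
    (μ (p ⁻¹' (K ∩ Metric.closedBall z s))).toReal ≤ C * s
  odd : ∀ k : ℤ, Odd k → ∀ ζ : ℂ → ℂ, Test V ζ → ∫ o, ζ (p o) * u o ^ k ∂μ = 0
  transport : ∀ k : ℤ, ∀ ψ : ℂ → ℂ, Test V ψ →
    ∫ o, ex σ 2 (p o) * (Db σ (-k) ψ (p o) * u o ^ (k + 1) - D σ (-k) ψ (p o) * u o ^ (k - 1)) ∂μ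
      = 0

/-! ### The mollifier -/

/-- the bump function of the mollifier, as a function of the square of the distance -/
structure Bump (β : ℝ → ℝ) : Prop where
  smooth : ContDiff ℝ ∞ β
  nonneg : ∀ t, 0 ≤ β t
  supp : ∀ t, 1 ≤ t → β t = 0
  mass : ∫ z : ℂ, β (‖z‖ ^ 2) = 1

/-- the derivative `∂σ` -/
def sg (σ : ℂ → ℝ) (z : ℂ) : ℂ := dz (fun w => (σ w : ℂ)) z

/-- the square of the approximate distance -/
def r2 (σ : ℂ → ℝ) (z w : ℂ) : ℝ := Real.exp (σ z + σ w) * ‖w - z‖ ^ 2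

/-- the phase of the approximate parallel transport from `w` to `z` (to be divided by) -/
def ta (σ : ℂ → ℝ) (z w : ℂ) : ℂ :=
  Complex.exp ((((sg σ z + sg σ w) * (w - z)).im : ℝ) * Complex.I)

/-- the scalar kernel without the density -/
def gb (β : ℝ → ℝ) (σ : ℂ → ℝ) (ε : ℝ) (z w : ℂ) : ℝ := β (r2 σ z w / ε ^ 2) / ε ^ 2

/-- the scalar kernel -/
def ke (β : ℝ → ℝ) (σ : ℂ → ℝ) (ε : ℝ) (z w : ℂ) : ℝ := Real.exp (2 * σ w) * gb β σ ε z w

/-- the mollified moments -/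
def pe (β : ℝ → ℝ) (σ : ℂ → ℝ) (ε : ℝ) {Ω : Type} [MeasurableSpace Ω] (μ : Measure Ω)
    (p u : Ω → ℂ) (k : ℤ) (z : ℂ) : ℂ :=
  ∫ o, (ke β σ ε z (p o) : ℂ) * ((ta σ z (p o))⁻¹ * u o) ^ k ∂μ

/-- the Wick sum of the mollified moments -/
def wkp (P : ℤ → ℂ → ℂ) (a b c d : ℤ) (z : ℂ) : ℂ :=
  (-1) ^ (b + d) * (P (a + b) z * P (c + d) z) + (-1) ^ (c + d) * (P (a + c) z * P (b + d) z)
    + (-1) ^ (c + d) * (P (a + d) z * P (b + c) z)

/-- the sum of three-jet integrals of total spins `j ∈ J` divisible by `3` -/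
def TT (σ : ℂ → ℝ) (h : ℕ → ℝ) (φ : ℕ → ℂ → ℂ) (J : Finset ℤ) (f : ℤ → ℂ → ℂ) (n : ℕ) : ℂ :=
  ∑ j ∈ J, if 3 ∣ j then E3 σ h φ (f j) (j / 3) (j / 3) (j / 3) n else 0

/-- the primitive third root of unity `exp (2 π i / 3)` -/
def w3 : ℂ := Complex.exp (2 * Real.pi * Complex.I / 3)

/-- the geometric input of the last step: closed sets `G N` (finite unions of geodesic arcs), a set `B`
of base points and directions (the tangent vectors of these arcs), such that the measure over `G N` is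
carried by `B`, that `B` and its rotation by 120 degrees have null intersection, and bounds for the
mass of the pairs of close points with directions at about 120 degrees -/
structure GeoM (V : Set ℂ) {Ω : Type} [MeasurableSpace Ω] (μ : Measure Ω) (p u : Ω → ℂ)
    (G : ℕ → Set ℂ) (B : Set (ℂ × ℂ)) : Prop where
  clG : ∀ N, IsClosed (G N)
  mB : MeasurableSet B
  conc : ∀ N, μ {o | p o ∈ G N ∧ (p o, u o) ∉ B} = 0
  rot : μ {o | (p o, u o) ∈ B ∧ (p o, w3 * u o) ∈ B} = 0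
  bdd : ∀ K, IsCompact K → K ⊆ V → ∃ b η : ℝ, 0 < η ∧ ∀ᶠ ε in 𝓝[>] (0 : ℝ),
    ((μ.prod μ) {x | p x.1 ∈ K ∧ ‖p x.1 - p x.2‖ ≤ ε ∧ ‖w3 * u x.1 - u x.2‖ ≤ η}).toReal
      ≤ b * ε ^ 2
  small : ∀ K, IsCompact K → K ⊆ V → ∀ δ > 0, ∃ N, ∀ K', IsCompact K' → K' ⊆ K →
    Disjoint K' (G N) → ∃ η : ℝ, 0 < η ∧ ∀ᶠ ε in 𝓝[>] (0 : ℝ),
    ((μ.prod μ) {x | p x.1 ∈ K' ∧ ‖p x.1 - p x.2‖ ≤ ε ∧ ‖w3 * u x.1 - u x.2‖ ≤ η}).toReal
      ≤ δ * ε ^ 2

/-- `G(z) = 1 + z + ... + z^{M-1}` -/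
def GM (M : ℕ) (z : ℂ) : ℂ := ∑ b ∈ Finset.range M, z ^ b

/-- the kernel of the cubic argument, `K = G²` -/
def FM (M : ℕ) (t : ℂ) : ℂ :=
  M * (GM M (w3 * t) ^ 2 * (starRingEnd ℂ) (GM M (w3 * t) ^ 2))
    + GM M (w3 * t) ^ 2 * GM M ((starRingEnd ℂ) w3 * t) ^ 2 * GM M t

end

end U3


end

section

/-!
Third order statistics of all eigenfunctions on surfaces of negative curvature: statements of the
steps (local part). Each step is a `Prop`; a module proves one of them, possibly from others taken as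
hypotheses.
-/

open Complex MeasureTheory Filter Topology Set
open scoped ContDiff

namespace U3

open QE QJ

noncomputable section

/-! ### A. Growth and jets, without equidistribution -/

/-- PTWB -/
def StmtPtwB : Prop :=
  ∀ (V : Set ℂ) (σ : ℂ → ℝ) (h : ℕ → ℝ) (φ : ℕ → ℂ → ℂ), LocB V σ h φ →
    ∀ K, IsCompact K → K ⊆ V → ∀ N : ℕ, ∃ c C : ℝ, 0 < c ∧ ∀ᶠ n in atTop, ∀ z ∈ K,
      RR h φ N n z ≤ C * (1 + 1 / h n ^ 2 * ∫ w in Metric.closedBall z (c * h n), ‖φ n w‖ ^ 2)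

/-- GROA -/
def StmtGroA : Prop :=
  ∀ (V : Set ℂ) (σ : ℂ → ℝ) (h : ℕ → ℝ) (φ : ℕ → ℂ → ℂ), LocB V σ h φ → GrowA V h φ

/-- INTA: integrals of dominated functions -/
def StmtIntA : Prop :=
  ∀ (V : Set ℂ) (h : ℕ → ℝ) (φ u : ℕ → ℂ → ℂ), (∀ n, 0 < h n) → Tendsto h atTop (𝓝 0) →
    (∀ n, ContDiff ℝ ∞ (φ n)) → GrowA V h φ → (∀ n, ContDiff ℝ ∞ (u n)) →
    (Bq V h φ 2 u → LG V u) ∧
    (Bq V h φ 2 u → L2z V (fun n z => (h n : ℂ) * u n z)) ∧
    (Bq V h φ 3 u → HZ V h u) ∧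
    (Bq V h φ 4 u → HZ V h (fun n z => (h n : ℂ) * u n z)) ∧
    (Bq V h φ 4 u → Small V h φ → HZ V h u)

/-- IBPA: integration by parts -/
def StmtIbpA : Prop :=
  ∀ (V : Set ℂ) (σ : ℂ → ℝ) (h : ℕ → ℝ) (u : ℕ → ℂ → ℂ) (k : ℤ), IsOpen V → ContDiff ℝ ∞ σ →
    (∀ n, 0 < h n) → (∀ n, ContDiff ℝ ∞ (u n)) → HZ V h u → ∀ ζ : ℂ → ℂ, Test V ζ →
      Tendsto (fun n => ∫ z, ζ z * ((h n : ℂ) * D σ k (u n) z)) atTop (𝓝 0) ∧
      Tendsto (fun n => ∫ z, ζ z * ((h n : ℂ) * Db σ k (u n) z)) atTop (𝓝 0)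

/-- JETC: the covariant jets and their derivatives -/
def StmtJetC : Prop :=
  ∀ (V : Set ℂ) (σ : ℂ → ℝ) (h : ℕ → ℝ) (φ : ℕ → ℂ → ℂ), LocB V σ h φ → ∀ j : ℤ,
    Dom V h φ 1 (E σ h φ j) ∧
    (∃ A, Dom V h φ 1 A ∧ ∀ n, ∀ z ∈ V,
      (h n : ℂ) * D σ j (E σ h φ j n) z = E σ h φ (j + 1) n z + (h n : ℂ) ^ 2 * A n z) ∧
    (∃ A, Dom V h φ 1 A ∧ ∀ n, ∀ z ∈ V,
      (h n : ℂ) * Db σ j (E σ h φ j n) z = - E σ h φ (j - 1) n z + (h n : ℂ) ^ 2 * A n z)

/-- JETW: the rescaled mixed derivatives are covariant jets up to `O(h)` -/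
def StmtJetW : Prop :=
  ∀ (V : Set ℂ) (σ : ℂ → ℝ) (h : ℕ → ℝ) (φ : ℕ → ℂ → ℂ), LocB V σ h φ → ∀ a b : ℕ,
    ∃ A, Dom V h φ 1 A ∧ ∀ n, ∀ z ∈ V,
      ex σ (-(a + b)) z * W h φ a b n z
        = (2 : ℂ)⁻¹ ^ (a + b) * (-1) ^ b * E σ h φ ((a : ℤ) - b) n z + (h n : ℂ) * A n z

/-! ### Potentials and the null form -/

/-- CAUB: Cauchy transforms of sequences with linear growth are bounded in `L²_loc` -/
def StmtCauB : Prop :=
  ∀ (K K' : Set ℂ) (f : ℕ → ℂ → ℂ) (C : ℝ), IsCompact K → IsCompact K' →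
    (∀ n, ContDiff ℝ ∞ (f n)) → (∀ n, tsupport (f n) ⊆ K) →
    (∀ᶠ n in atTop, ∀ z ∈ K', ∀ s > 0, ∫ w in K ∩ Metric.closedBall z s, ‖f n w‖ ≤ C * s) →
    ∃ C' : ℝ, ∀ᶠ n in atTop, ∫ z in K', ‖cauchy (f n) z‖ ^ 2 ≤ C'

/-- HOLB -/
def StmtHolB : Prop :=
  ∀ (V : Set ℂ) (α a b : ℕ → ℂ → ℂ), IsOpen V → (∀ n, ContDiff ℝ ∞ (α n)) →
    (∀ n, ContDiff ℝ ∞ (a n)) → (∀ n, ContDiff ℝ ∞ (b n)) →
    (∀ n, ∀ z ∈ V, α n z = a n z + dz (b n) z) →
    (∀ K, IsCompact K → K ⊆ V → ∃ C : ℝ, ∀ᶠ n in atTop,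
      (∫ z in K, ‖a n z‖) ≤ C ∧ (∫ z in K, ‖b n z‖) ≤ C) →
    L2b V (fun n z => dzb (α n) z) → L2b V α

/-- POTZ: potentials of a null triple -/
def StmtPotZ : Prop :=
  ∀ (V : Set ℂ) (σ : ℂ → ℝ) (N : ℤ) (A B C : ℕ → ℂ → ℂ), IsOpen V → ContDiff ℝ ∞ σ →
    TripZ V σ N A B C → ∀ K, IsCompact K → K ⊆ V →
      ∃ (V' : Set ℂ) (x y : ℕ → ℂ → ℂ), IsOpen V' ∧ K ⊆ V' ∧ V' ⊆ V ∧ Pot V' σ N A B C x y

/-- POTB: potentials of a bounded triple -/
def StmtPotB : Prop :=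
  ∀ (V : Set ℂ) (σ : ℂ → ℝ) (N : ℤ) (A B C : ℕ → ℂ → ℂ), IsOpen V → ContDiff ℝ ∞ σ →
    TripB V σ N A B C → ∀ K, IsCompact K → K ⊆ V →
      ∃ (V' : Set ℂ) (x y : ℕ → ℂ → ℂ), IsOpen V' ∧ K ⊆ V' ∧ V' ⊆ V ∧ PotB V' σ N A B C x y

/-- NULZ: the quadratic form of a null and a bounded potential -/
def StmtNulZ : Prop :=
  ∀ (V : Set ℂ) (σ : ℂ → ℝ) (N : ℤ) (A B C x y A' B' C' x' y' : ℕ → ℂ → ℂ), IsOpen V →
    ContDiff ℝ ∞ σ → (∀ n, ContDiff ℝ ∞ (A n)) → (∀ n, ContDiff ℝ ∞ (B n)) →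
    (∀ n, ContDiff ℝ ∞ (C n)) → (∀ n, ContDiff ℝ ∞ (A' n)) → (∀ n, ContDiff ℝ ∞ (B' n)) →
    (∀ n, ContDiff ℝ ∞ (C' n)) → Pot V σ N A B C x y → PotB V σ (-N) A' B' C' x' y' →
    ∀ ζ : ℂ → ℂ, Test V ζ → Tendsto (fun n => ∫ z, ζ z *
      (A n z * C' n z + C n z * A' n z - 2 * (B n z * B' n z))) atTop (𝓝 0)

/-- NULB: the quadratic form of two bounded potentials -/
def StmtNulB : Prop :=
  ∀ (V : Set ℂ) (σ : ℂ → ℝ) (N : ℤ) (A B C x y A' B' C' x' y' : ℕ → ℂ → ℂ), IsOpen V →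
    ContDiff ℝ ∞ σ → (∀ n, ContDiff ℝ ∞ (A n)) → (∀ n, ContDiff ℝ ∞ (B n)) →
    (∀ n, ContDiff ℝ ∞ (C n)) → (∀ n, ContDiff ℝ ∞ (A' n)) → (∀ n, ContDiff ℝ ∞ (B' n)) →
    (∀ n, ContDiff ℝ ∞ (C' n)) → PotB V σ N A B C x y → PotB V σ (-N) A' B' C' x' y' →
    ∀ ζ : ℂ → ℂ, Test V ζ → ∃ c : ℝ, ∀ᶠ n in atTop, ‖∫ z, ζ z *
      (A n z * C' n z + C n z * A' n z - 2 * (B n z * B' n z))‖ ≤ c

/-- NF: the null form of two triples: it tends to zero if one of them is null, and is bounded -/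
def StmtNf : Prop :=
  ∀ (V : Set ℂ) (σ : ℂ → ℝ) (N : ℤ) (A B C A' B' C' : ℕ → ℂ → ℂ), IsOpen V → ContDiff ℝ ∞ σ →
    TripB V σ N A B C → TripB V σ (-N) A' B' C' → ∀ ζ : ℂ → ℂ, Test V ζ →
    (TripZ V σ N A B C ∨ TripZ V σ (-N) A' B' C' → Tendsto (fun n => ∫ z, ζ z *
      (A n z * C' n z + C n z * A' n z - 2 * (B n z * B' n z))) atTop (𝓝 0)) ∧
    ∃ c : ℝ, ∀ᶠ n in atTop, ‖∫ z, ζ z *
      (A n z * C' n z + C n z * A' n z - 2 * (B n z * B' n z))‖ ≤ c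

/-- TRIQ: products of jets form triples -/
def StmtTriQ : Prop :=
  ∀ (V : Set ℂ) (σ : ℂ → ℝ) (h : ℕ → ℝ) (φ : ℕ → ℂ → ℂ), LocB V σ h φ → ∀ j m : ℤ,
    TripB V σ (j + m)
      (fun n z => E σ h φ (j + 1) n z * E σ h φ (m + 1) n z)
      (fun n z => E σ h φ j n z * E σ h φ m n z)
      (fun n z => E σ h φ (j - 1) n z * E σ h φ (m - 1) n z)

/-! ### The fourth moments after multiplication by `h` -/

/-- HCL: the four-jet integrals multiplied by `h` are given by the class function -/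
def StmtHcl : Prop :=
  ∀ (V : Set ℂ) (σ : ℂ → ℝ) (h : ℕ → ℝ) (φ : ℕ → ℂ → ℂ), LocB V σ h φ → ∀ (ζ : ℂ → ℂ), Test V ζ →
    ∀ a b c d : ℤ, a + b + c + d = 0 → Tendsto (fun n =>
      (h n : ℂ) * (E4 σ h φ ζ a b c d n - cl4 a b c d * E4 σ h φ ζ 0 0 0 0 n)) atTop (𝓝 0)

/-- POI: slowly varying densities with linear growth are small -/
def StmtPoi : Prop :=
  ∀ (V : Set ℂ) (h : ℕ → ℝ) (U : ℕ → ℂ → ℝ), IsOpen V → (∀ n, 0 < h n) →
    Tendsto h atTop (𝓝 0) → (∀ n, ContDiff ℝ ∞ (U n)) → (∀ n z, 0 ≤ U n z) →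
    (∀ K, IsCompact K → K ⊆ V → ∃ C : ℝ, ∀ᶠ n in atTop, ∀ z ∈ K, ∀ s > 0,
      ∫ w in K ∩ Metric.closedBall z s, U n w ≤ C * s) →
    (∀ K, IsCompact K → K ⊆ V → Tendsto (fun n => h n * ∫ z in K,
      h n ^ 2 * (d1 (U n) z ^ 2 + d2 (U n) z ^ 2)) atTop (𝓝 0)) →
    ∀ K, IsCompact K → K ⊆ V → Tendsto (fun n => h n * ∫ z in K, U n z ^ 2) atTop (𝓝 0)

/-- SML: `h ∫ RR² → 0` -/
def StmtSml : Prop :=
  ∀ (V : Set ℂ) (σ : ℂ → ℝ) (h : ℕ → ℝ) (φ : ℕ → ℂ → ℂ), LocB V σ h φ → Small V h φ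

/-- IFOB: integration by parts for four and three jets -/
def StmtIfoB : Prop :=
  ∀ (V : Set ℂ) (σ : ℂ → ℝ) (h : ℕ → ℝ) (φ : ℕ → ℂ → ℂ), LocB V σ h φ → ∀ (ζ : ℂ → ℂ), Test V ζ →
    (∀ a b c d : ℤ, Tendsto (fun n =>
      E4 σ h φ ζ (a + 1) b c d n + E4 σ h φ ζ a (b + 1) c d n + E4 σ h φ ζ a b (c + 1) d n
        + E4 σ h φ ζ a b c (d + 1) n) atTop (𝓝 0)) ∧
    (∀ a b c : ℤ, Tendsto (fun n => E3 σ h φ ζ (a + 1) b c n + E3 σ h φ ζ a (b + 1) c n
        + E3 σ h φ ζ a b (c + 1) n) atTop (𝓝 0)) ∧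
    (∀ a b c : ℤ, Tendsto (fun n => E3 σ h φ ζ (a - 1) b c n + E3 σ h φ ζ a (b - 1) c n
        + E3 σ h φ ζ a b (c - 1) n) atTop (𝓝 0))

/-- ALTS: symmetric functions on `{a + b + c = s}` with the two recursions -/
def StmtAltS : Prop :=
  ∀ (X : Type) [AddCommGroup X] [Module ℂ X] (e : ℤ → ℤ → ℤ → X) (s : ℤ),
    (∀ a b c, e b a c = e a b c) → (∀ a b c, e a c b = e a b c) →
    (∀ a b c, a + b + c = s - 1 → e (a + 1) b c + e a (b + 1) c + e a b (c + 1) = 0) →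
    (∀ a b c, a + b + c = s + 1 → e (a - 1) b c + e a (b - 1) c + e a b (c - 1) = 0) →
    ∀ a b c, a + b + c = s →
      e a b c = if 3 ∣ s then cl3 b c • e (s / 3) (s / 3) (s / 3) else 0

/-- E3S: the three-jet integrals in terms of those with equal spins -/
def StmtE3s : Prop :=
  ∀ (V : Set ℂ) (σ : ℂ → ℝ) (h : ℕ → ℝ) (φ : ℕ → ℂ → ℂ), LocB V σ h φ → ∀ (ζ : ℂ → ℂ), Test V ζ →
    ∀ a b c s : ℤ, a + b + c = s → Tendsto (fun n => E3 σ h φ ζ a b c n -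
      (if 3 ∣ s then cl3 b c * E3 σ h φ ζ (s / 3) (s / 3) (s / 3) n else 0)) atTop (𝓝 0)

/-! ### B. The limit measure and its mollification -/

/-- DIR: the properties of the limit measure -/
def StmtDir : Prop :=
  ∀ (V : Set ℂ) (σ : ℂ → ℝ) (h : ℕ → ℝ) (φ : ℕ → ℂ → ℂ) (Ω : Type) [MeasurableSpace Ω]
    (μ : Measure Ω) (p u : Ω → ℂ), LocB V σ h φ → LimM V σ h φ μ p u → DirM V σ μ p u

/-- KER: the transport of the kernel -/
def StmtKer : Prop :=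
  ∀ (β : ℝ → ℝ) (σ : ℂ → ℝ) (k : ℤ) (K : Set ℂ), Bump β → ContDiff ℝ ∞ σ → IsCompact K →
    ∃ C ε₀ : ℝ, 0 < C ∧ 0 < ε₀ ∧ ∀ ε, 0 < ε → ε < ε₀ → ∀ z ∈ K, ∀ w ∈ K,
      ‖Db σ (k + 1) (fun x => (ke β σ ε x w : ℂ) * (ta σ x w)⁻¹ ^ (k + 1)) z
        + ex σ 2 w * Db σ (-k) (fun y => (gb β σ ε z y : ℂ) * (ta σ z y)⁻¹ ^ k) w‖ ≤ C / ε ∧
      (C * ε < ‖w - z‖ →
        Db σ (k + 1) (fun x => (ke β σ ε x w : ℂ) * (ta σ x w)⁻¹ ^ (k + 1)) z
          + ex σ 2 w * Db σ (-k) (fun y => (gb β σ ε z y : ℂ) * (ta σ z y)⁻¹ ^ k) w = 0)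

/-- KEM: the same for the other operator -/
def StmtKem : Prop :=
  ∀ (β : ℝ → ℝ) (σ : ℂ → ℝ) (k : ℤ) (K : Set ℂ), Bump β → ContDiff ℝ ∞ σ → IsCompact K →
    ∃ C ε₀ : ℝ, 0 < C ∧ 0 < ε₀ ∧ ∀ ε, 0 < ε → ε < ε₀ → ∀ z ∈ K, ∀ w ∈ K,
      ‖D σ (k - 1) (fun x => (ke β σ ε x w : ℂ) * (ta σ x w)⁻¹ ^ (k - 1)) z
        + ex σ 2 w * D σ (-k) (fun y => (gb β σ ε z y : ℂ) * (ta σ z y)⁻¹ ^ k) w‖ ≤ C / ε ∧
      (C * ε < ‖w - z‖ →
        D σ (k - 1) (fun x => (ke β σ ε x w : ℂ) * (ta σ x w)⁻¹ ^ (k - 1)) z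
          + ex σ 2 w * D σ (-k) (fun y => (gb β σ ε z y : ℂ) * (ta σ z y)⁻¹ ^ k) w = 0)

/-- KSZ: the size of the kernel -/
def StmtKsz : Prop :=
  ∀ (β : ℝ → ℝ) (σ : ℂ → ℝ) (K : Set ℂ), Bump β → ContDiff ℝ ∞ σ → IsCompact K →
    ∃ C : ℝ, 0 < C ∧ ∀ ε, 0 < ε → ∀ z ∈ K, ∀ w ∈ K,
      0 ≤ ke β σ ε z w ∧ ke β σ ε z w ≤ C / ε ^ 2 ∧ (C * ε < ‖w - z‖ → ke β σ ε z w = 0) ∧
      ‖ta σ z w - 1‖ ≤ C * ‖w - z‖ ∧ ‖(ta σ z w)⁻¹ - 1‖ ≤ C * ‖w - z‖

/-- PAR: integrals depending on a parameter -/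
def StmtPar : Prop :=
  ∀ (Ω : Type) [MeasurableSpace Ω] (μ : Measure Ω) (p v : Ω → ℂ) (F : ℂ × ℂ → ℂ),
    μ Set.univ ≠ ⊤ → Measurable p → Measurable v → (∀ o, ‖v o‖ ≤ 1) →
    (∃ K, IsCompact K ∧ ∀ᵐ o ∂μ, p o ∈ K) → ContDiff ℝ ∞ F →
    ContDiff ℝ ∞ (fun z => ∫ o, F (z, p o) * v o ∂μ) ∧
    (∀ z, dz (fun z => ∫ o, F (z, p o) * v o ∂μ) z = ∫ o, dz (fun x => F (x, p o)) z * v o ∂μ) ∧
    (∀ z, dzb (fun z => ∫ o, F (z, p o) * v o ∂μ) z = ∫ o, dzb (fun x => F (x, p o)) z * v o ∂μ)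

/-- PES: the mollified moments are smooth, and their derivatives -/
def StmtPeS : Prop :=
  ∀ (β : ℝ → ℝ) (V : Set ℂ) (σ : ℂ → ℝ) (Ω : Type) [MeasurableSpace Ω] (μ : Measure Ω)
    (p u : Ω → ℂ), Bump β → ContDiff ℝ ∞ σ → DirM V σ μ p u → ∀ ε : ℝ, 0 < ε → ∀ k : ℤ,
    ContDiff ℝ ∞ (pe β σ ε μ p u k) ∧
    (∀ (k' : ℤ) (z : ℂ), D σ k' (pe β σ ε μ p u k) z
      = ∫ o, D σ k' (fun x => (ke β σ ε x (p o) : ℂ) * (ta σ x (p o))⁻¹ ^ k) z * u o ^ k ∂μ) ∧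
    (∀ (k' : ℤ) (z : ℂ), Db σ k' (pe β σ ε μ p u k) z
      = ∫ o, Db σ k' (fun x => (ke β σ ε x (p o) : ℂ) * (ta σ x (p o))⁻¹ ^ k) z * u o ^ k ∂μ)

/-- APX: the kernel is an approximation of the identity in the first variable -/
def StmtApx : Prop :=
  ∀ (β : ℝ → ℝ) (σ : ℂ → ℝ) (k : ℤ) (ζ : ℂ → ℂ), Bump β → ContDiff ℝ ∞ σ → Continuous ζ →
    HasCompactSupport ζ →
    (∀ w, Tendsto (fun ε : ℝ => ∫ z, ζ z * ((ke β σ ε z w : ℂ) * (ta σ z w)⁻¹ ^ k)) (𝓝[>] 0)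
      (𝓝 (ζ w))) ∧
    ∀ K, IsCompact K → ∃ C ε₀ : ℝ, 0 < ε₀ ∧ ∀ ε, 0 < ε → ε < ε₀ → ∀ w ∈ K,
      ∫ z, ‖ζ z‖ * ke β σ ε z w ≤ C

/-- PEG: linear growth of the mollified moments -/
def StmtPeG : Prop :=
  ∀ (β : ℝ → ℝ) (V : Set ℂ) (σ : ℂ → ℝ) (Ω : Type) [MeasurableSpace Ω] (μ : Measure Ω)
    (p u : Ω → ℂ) (ε : ℕ → ℝ) (k : ℤ), Bump β → IsOpen V → ContDiff ℝ ∞ σ → DirM V σ μ p u →
    (∀ n, 0 < ε n) → Tendsto ε atTop (𝓝 0) → LG V (fun n => pe β σ (ε n) μ p u k)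

/-- PET: transport of the mollified moments -/
def StmtPeT : Prop :=
  ∀ (β : ℝ → ℝ) (V : Set ℂ) (σ : ℂ → ℝ) (Ω : Type) [MeasurableSpace Ω] (μ : Measure Ω)
    (p u : Ω → ℂ) (ε : ℕ → ℝ) (k : ℤ), Bump β → IsOpen V → ContDiff ℝ ∞ σ → DirM V σ μ p u →
    (∀ n, 0 < ε n) → Tendsto ε atTop (𝓝 0) →
    L2z V (fun n z => Db σ (k + 1) (pe β σ (ε n) μ p u (k + 1)) z
      - D σ (k - 1) (pe β σ (ε n) μ p u (k - 1)) z)

/-- PEW: weak convergence of the mollified moments -/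
def StmtPeW : Prop :=
  ∀ (β : ℝ → ℝ) (V : Set ℂ) (σ : ℂ → ℝ) (Ω : Type) [MeasurableSpace Ω] (μ : Measure Ω)
    (p u : Ω → ℂ) (ε : ℕ → ℝ) (k : ℤ), Bump β → ContDiff ℝ ∞ σ → DirM V σ μ p u →
    (∀ n, 0 < ε n) → Tendsto ε atTop (𝓝 0) → ∀ ζ : ℂ → ℂ, Continuous ζ → HasCompactSupport ζ →
    Tendsto (fun n => ∫ z, ζ z * pe β σ (ε n) μ p u k z) atTop (𝓝 (∫ o, ζ (p o) * u o ^ k ∂μ))

/-- PEO: the odd mollified moments vanish -/
def StmtPeO : Prop :=
  ∀ (β : ℝ → ℝ) (V : Set ℂ) (σ : ℂ → ℝ) (Ω : Type) [MeasurableSpace Ω] (μ : Measure Ω)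
    (p u : Ω → ℂ) (k : ℤ), Bump β → IsOpen V → ContDiff ℝ ∞ σ → DirM V σ μ p u → Odd k →
    ∀ K, IsCompact K → K ⊆ V → ∀ᶠ ε in 𝓝[>] (0 : ℝ), ∀ z ∈ K, pe β σ ε μ p u k z = 0

/-- TRIP: the triples of mollified moments -/
def StmtTriP : Prop :=
  ∀ (β : ℝ → ℝ) (V : Set ℂ) (σ : ℂ → ℝ) (Ω : Type) [MeasurableSpace Ω] (μ : Measure Ω)
    (p u : Ω → ℂ) (ε : ℕ → ℝ) (j m : ℤ), Bump β → IsOpen V → ContDiff ℝ ∞ σ → DirM V σ μ p u →
    (∀ n, 0 < ε n) → Tendsto ε atTop (𝓝 0) →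
    TripB V σ (j + m)
      (fun n z => (-1) ^ (m + 1) * pe β σ (ε n) μ p u (j + m + 2) z)
      (fun n z => (-1) ^ m * pe β σ (ε n) μ p u (j + m) z)
      (fun n z => (-1) ^ (m - 1) * pe β σ (ε n) μ p u (j + m - 2) z)

/-- TRID: the differences are null triples -/
def StmtTriD : Prop :=
  ∀ (β : ℝ → ℝ) (V : Set ℂ) (σ : ℂ → ℝ) (h : ℕ → ℝ) (φ : ℕ → ℂ → ℂ) (Ω : Type)
    [MeasurableSpace Ω] (μ : Measure Ω) (p u : Ω → ℂ) (ε : ℕ → ℝ) (j m : ℤ), Bump β →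
    LocB V σ h φ → LimM V σ h φ μ p u → (∀ n, 0 < ε n) → Tendsto ε atTop (𝓝 0) →
    TripZ V σ (j + m)
      (fun n z => E σ h φ (j + 1) n z * E σ h φ (m + 1) n z
        - (-1) ^ (m + 1) * pe β σ (ε n) μ p u (j + m + 2) z)
      (fun n z => E σ h φ j n z * E σ h φ m n z - (-1) ^ m * pe β σ (ε n) μ p u (j + m) z)
      (fun n z => E σ h φ (j - 1) n z * E σ h φ (m - 1) n z
        - (-1) ^ (m - 1) * pe β σ (ε n) μ p u (j + m - 2) z)

/-! ### C. The four-jet integrals and the cubic inequality -/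

/-- FOUB: the four-jet integrals -/
def StmtFouB : Prop :=
  ∀ (β : ℝ → ℝ) (V : Set ℂ) (σ : ℂ → ℝ) (h : ℕ → ℝ) (φ : ℕ → ℂ → ℂ) (Ω : Type)
    [MeasurableSpace Ω] (μ : Measure Ω) (p u : Ω → ℂ) (ε : ℕ → ℝ), Bump β →
    LocB V σ h φ → LimM V σ h φ μ p u → (∀ n, 0 < ε n) → Tendsto ε atTop (𝓝 0) →
    ∀ ζ : ℂ → ℂ, Test V ζ → ∀ a b c d : ℤ, a + b + c + d = 0 →
    Tendsto (fun n => E4 σ h φ ζ a b c d n
      - ((∫ z, ζ z * wkp (pe β σ (ε n) μ p u) a b c d z)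
        + cl4 a b c d * (E4 σ h φ ζ 0 0 0 0 n
          - ∫ z, ζ z * wkp (pe β σ (ε n) μ p u) 0 0 0 0 z))) atTop (𝓝 0)

/-- FIR: the bound of the kernel of the cubic argument -/
def StmtFir : Prop :=
  ∀ η : ℝ, 0 < η → η ≤ 1 / 10 → ∃ C : ℝ, 0 < C ∧ ∀ M : ℕ, 6 ∣ M → 0 < M → ∀ t : ℂ, ‖t‖ = 1 →
    ‖FM M t‖ ≤ ‖t ^ 2 - 1‖ ^ 2 *
      (C * (M : ℝ) ^ 3 + (if ‖w3 * t - 1‖ < η then (M : ℝ) ^ 5 else 0))

/-- WKS: the sum of the Wick terms of the cubic argument -/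
def StmtWks : Prop :=
  ∀ (Ω : Type) [MeasurableSpace Ω] (μ : Measure Ω) (κ : Ω → ℝ) (U : Ω → ℂ) (M : ℕ)
    (P : ℤ → ℂ → ℂ) (z : ℂ), μ Set.univ ≠ ⊤ → Integrable κ μ → Measurable U → (∀ o, ‖U o‖ = 1) →
    (∀ k : ℤ, P k z = ∫ o, (κ o : ℂ) * U o ^ k ∂μ) → (∀ k : ℤ, Odd k → P k z = 0) → 6 ∣ M → 0 < M →
    ∑ c ∈ Finset.range M, ∑ b ∈ Finset.range M ×ˢ Finset.range M,
      ∑ b' ∈ Finset.range M ×ˢ Finset.range M,
        w3 ^ (((b.1 : ℤ) + b.2) - (b'.1 + b'.2)) * (-1) ^ c *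
          wkp P (-((b.1 : ℤ) + b.2) - c) (b.1 + b.2) (b'.1 + b'.2 + c) (-((b'.1 : ℤ) + b'.2)) z
      = ∫ x : Ω × Ω, (κ x.1 * κ x.2 : ℝ) * FM M (U x.1 / U x.2) ∂(μ.prod μ)

/-- CLS: the sums of the class functions of the cubic argument -/
def StmtCls : Prop :=
  ∀ M : ℕ, 6 ∣ M → 0 < M →
    (∑ c ∈ Finset.range M, ∑ b ∈ Finset.range M ×ˢ Finset.range M,
      ∑ b' ∈ Finset.range M ×ˢ Finset.range M,
        w3 ^ (((b.1 : ℤ) + b.2) - (b'.1 + b'.2)) * (-1) ^ c *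
          cl4 (-((b.1 : ℤ) + b.2) - c) (b.1 + b.2) (b'.1 + b'.2 + c) (-((b'.1 : ℤ) + b'.2)) = 0) ∧
    (∑ c ∈ Finset.range M, ∑ b ∈ Finset.range M ×ˢ Finset.range M,
        w3 ^ (((b.1 : ℤ) + b.2) - c) * cl3 (-((b.1 : ℤ) + b.2) - c) (b.1 + b.2)
      = (M : ℂ) ^ 3 / 2)

/-- JBD: the transversal part of the pairs is bounded -/
def StmtJbd : Prop :=
  ∀ (β : ℝ → ℝ) (V : Set ℂ) (σ : ℂ → ℝ) (Ω : Type) [MeasurableSpace Ω] (μ : Measure Ω)
    (p u : Ω → ℂ) (ε : ℕ → ℝ), Bump β → IsOpen V → ContDiff ℝ ∞ σ → DirM V σ μ p u →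
    (∀ n, 0 < ε n) → Tendsto ε atTop (𝓝 0) → ∀ ζ : ℂ → ℂ, Test V ζ → ∃ c : ℝ, ∀ᶠ n in atTop,
      ‖∫ z, ζ z * (2 * (pe β σ (ε n) μ p u 0 z * pe β σ (ε n) μ p u 0 z)
        - 2 * (pe β σ (ε n) μ p u 2 z * pe β σ (ε n) μ p u (-2) z))‖ ≤ c

/-- XBD: the pairs at about 120 degrees -/
def StmtXbd : Prop :=
  ∀ (β : ℝ → ℝ) (V : Set ℂ) (σ : ℂ → ℝ) (Ω : Type) [MeasurableSpace Ω] (μ : Measure Ω)
    (p u : Ω → ℂ) (K : Set ℂ), Bump β → ContDiff ℝ ∞ σ → DirM V σ μ p u → IsCompact K →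
    ∃ C : ℝ, 0 < C ∧ ∀ ζ : ℂ → ℝ, Continuous ζ → (∀ z, 0 ≤ ζ z ∧ ζ z ≤ 1) → tsupport ζ ⊆ K →
    ∀ O : Set ℂ, IsOpen O → tsupport ζ ⊆ O → ∀ η : ℝ, 0 < η → ∀ b : ℝ, 0 ≤ b →
    (∀ᶠ ε in 𝓝[>] (0 : ℝ),
      ((μ.prod μ) {x | p x.1 ∈ O ∧ ‖p x.1 - p x.2‖ ≤ ε ∧ ‖w3 * u x.1 - u x.2‖ ≤ 2 * η}).toReal
        ≤ b * ε ^ 2) →
    ∀ᶠ ε in 𝓝[>] (0 : ℝ),
      ∫ z, ζ z * ∫ x : Ω × Ω, ke β σ ε z (p x.1) * ke β σ ε z (p x.2) *
        (if ‖w3 * (((ta σ z (p x.1))⁻¹ * u x.1) / ((ta σ z (p x.2))⁻¹ * u x.2)) - 1‖ < η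
          then 1 else 0) ∂(μ.prod μ) ≤ C * b

/-- CUBI: the cubic inequality -/
def StmtCubI : Prop :=
  ∀ (V : Set ℂ) (σ : ℂ → ℝ) (h : ℕ → ℝ) (φ : ℕ → ℂ → ℂ) (Ω : Type) [MeasurableSpace Ω]
    (μ : Measure Ω) (p u : Ω → ℂ), LocB V σ h φ → LimM V σ h φ μ p u →
    ∀ K, IsCompact K → K ⊆ V → ∃ C : ℝ, 0 < C ∧
    ∀ ζ : ℂ → ℝ, Test V (fun z => (ζ z : ℂ)) → (∀ z, 0 ≤ ζ z ∧ ζ z ≤ 1) → tsupport ζ ⊆ K →
    ∀ O : Set ℂ, IsOpen O → tsupport ζ ⊆ O → ∀ (J : Finset ℤ) (f : ℤ → ℂ → ℂ),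
    (∀ j, ContDiff ℝ ∞ (f j)) → ∀ η : ℝ, 0 < η → ∀ b : ℝ, 0 ≤ b →
    (∀ᶠ ε in 𝓝[>] (0 : ℝ),
      ((μ.prod μ) {x | p x.1 ∈ O ∧ ‖p x.1 - p x.2‖ ≤ ε ∧ ‖w3 * u x.1 - u x.2‖ ≤ η}).toReal
        ≤ b * ε ^ 2) →
    ∀ δ > 0, ∀ᶠ n in atTop, ‖TT σ h φ J (fun j z => (ζ z : ℂ) * f j z) n‖ ^ 2
      ≤ C * b * (∫ o, ζ (p o) * ‖∑ j ∈ J, f j (p o) * u o ^ j‖ ^ 2 ∂μ) + δ

/-! ### E. The last step -/

/-- DENS: density of the trigonometric polynomials with test functions as coefficients -/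
def StmtDens : Prop :=
  ∀ (O : Set ℂ) (θ : Measure (ℂ × ℂ)), IsOpen O → θ Set.univ ≠ ⊤ → θ {x | ‖x.2‖ ≠ 1} = 0 →
    ∀ F : ℂ × ℂ → ℂ, Measurable F → (∃ C : ℝ, ∀ x, ‖F x‖ ≤ C) → (∀ x, x.1 ∉ O → F x = 0) →
    ∀ ε > 0, ∃ (J : Finset ℤ) (f : ℤ → ℂ → ℂ), (∀ j, Test O (f j)) ∧
      ∫ x, ‖F x - ∑ j ∈ J, f j x.1 * x.2 ^ j‖ ^ 2 ∂θ ≤ ε

/-- ENDL: an invariant functional carried by geodesic arcs vanishes -/
def StmtEnd : Prop :=
  ∀ (V : Set ℂ) (Ω : Type) [MeasurableSpace Ω] (μ : Measure Ω) (p u : Ω → ℂ)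
    (t : ℤ → (ℂ → ℂ) → ℂ) (G : ℕ → Set ℂ) (B : Set (ℂ × ℂ)),
    IsOpen V → μ Set.univ ≠ ⊤ → Measurable p → Measurable u → (∀ o, ‖u o‖ = 1) →
    (∀ j ζ ζ', Test V ζ → Test V ζ' → t j (fun z => ζ z + ζ' z) = t j ζ + t j ζ') →
    (∀ j (c : ℂ) ζ, Test V ζ → t j (fun z => c * ζ z) = c * t j ζ) →
    (∀ j ζ, Test V ζ → ¬ (3 : ℤ) ∣ j → t j ζ = 0) →
    (∀ K, IsCompact K → K ⊆ V → ∃ C : ℝ, ∀ ζ : ℂ → ℝ, Test V (fun z => (ζ z : ℂ)) →
      (∀ z, 0 ≤ ζ z ∧ ζ z ≤ 1) → tsupport ζ ⊆ K → ∀ (J : Finset ℤ) (f : ℤ → ℂ → ℂ),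
      (∀ j, ContDiff ℝ ∞ (f j)) → ‖∑ j ∈ J, t j (fun z => (ζ z : ℂ) * f j z)‖ ^ 2
        ≤ C * ∫ o, ζ (p o) * ‖∑ j ∈ J, f j (p o) * u o ^ j‖ ^ 2 ∂μ) →
    (∀ K, IsCompact K → K ⊆ V → ∀ δ > 0, ∃ N, ∀ ζ : ℂ → ℝ, Test V (fun z => (ζ z : ℂ)) →
      (∀ z, 0 ≤ ζ z ∧ ζ z ≤ 1) → tsupport ζ ⊆ K → Disjoint (tsupport ζ) (G N) →
      ∀ (J : Finset ℤ) (f : ℤ → ℂ → ℂ), (∀ j, ContDiff ℝ ∞ (f j)) →
      ‖∑ j ∈ J, t j (fun z => (ζ z : ℂ) * f j z)‖ ^ 2
        ≤ δ * ∫ o, ζ (p o) * ‖∑ j ∈ J, f j (p o) * u o ^ j‖ ^ 2 ∂μ) →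
    (∀ N, IsClosed (G N)) → MeasurableSet B →
    (∀ N, μ {o | p o ∈ G N ∧ (p o, u o) ∉ B} = 0) →
    μ {o | (p o, u o) ∈ B ∧ (p o, w3 * u o) ∈ B} = 0 →
    ∀ j ζ, Test V ζ → t j ζ = 0

/-- E3Z: the local theorem -/
def StmtE3z : Prop :=
  ∀ (V : Set ℂ) (σ : ℂ → ℝ) (h : ℕ → ℝ) (φ : ℕ → ℂ → ℂ) (Ω : Type) [MeasurableSpace Ω]
    (μ : Measure Ω) (p u : Ω → ℂ) (G : ℕ → Set ℂ) (B : Set (ℂ × ℂ)), LocB V σ h φ →
    LimM V σ h φ μ p u → GeoM V μ p u G B → ∀ (ζ : ℂ → ℂ), Test V ζ → ∀ a b c : ℤ,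
      Tendsto (E3 σ h φ ζ a b c) atTop (𝓝 0)

end

end U3


end

section

/-!
The covariant jets and their derivatives.
-/

open Complex MeasureTheory Filter Topology Set
open scoped ContDiff

namespace U3

open QJ QE

noncomputable section

namespace JETA

variable {V : Set ℂ} {σ : ℂ → ℝ} {h : ℕ → ℝ} {φ : ℕ → ℂ → ℂ}

lemma dom_jet (L : LocB V σ h φ) (m : ℕ) : Dom V h φ 1 (jet σ h φ m) := by
  induction m with
  | zero => exact Dom.phi L.smφ L.op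
  | succ m ih => exact Dom.hD L.op L.hlim L.sm m ih

lemma contDiff_curv (hσ : ContDiff ℝ ∞ σ) : ContDiff ℝ ∞ (curv σ) := by
  unfold curv
  exact ((contDiff_const.mul (contDiff_ex hσ _)).mul
    (contDiff_dz (contDiff_dzb (contDiff_sig hσ)))).neg

lemma zero_dom (L : LocB V σ h φ) : Dom V h φ 1 (fun _ _ => 0) :=
  Dom.of_fn L.op L.hlim 1 contDiff_const

lemma base (L : LocB V σ h φ) (n : ℕ) (z : ℂ) (hz : z ∈ V) :
    (h n : ℂ) * Db σ 1 (jet σ h φ 1 n) z = - φ n z := by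
  have hσ := L.sm
  have hφ := L.smφ n
  have e0 : jet σ h φ 1 n = fun w => (h n : ℂ) * D σ 0 (φ n) w := rfl
  have e : Db σ 1 (D σ 0 (φ n)) z = 4 * ex σ (-2) z * dz (dzb (φ n)) z := by
    have e1 : (fun w => ex σ 1 w * D σ 0 (φ n) w) = fun w => 2 * dz (φ n) w := by
      funext w
      rw [D_eq hσ 0 (cd_at hφ w)]
      have e2 : ex σ 1 w * ex σ (-1) w = 1 := by
        rw [ex_mul, show (1 : ℤ) + (-1) = 0 by norm_num, ex_zero]
      push_cast
      linear_combination (2 * dz (φ n) w) * e2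
    unfold Db
    rw [e1, dzb_const_mul _ (cd_at (contDiff_dz hφ) z), ← dz_dzb_comm (cd_at2 hφ z),
      show (-1 - 1 : ℤ) = -2 by norm_num]
    ring
  rw [e0, Db_const_mul hσ 1 _ (cd_at (contDiff_D hσ 0 hφ) z), e]
  have h1 := L.eig n z hz
  have h2 : ex σ (-2) z * ex σ 2 z = 1 := by
    rw [ex_mul, show (-2 : ℤ) + 2 = 0 by norm_num, ex_zero]
  linear_combination ex σ (-2) z * h1 - φ n z * h2

lemma low (L : LocB V σ h φ) (m : ℕ) : ∃ A, Dom V h φ 1 A ∧ ∀ n, ∀ z ∈ V,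
    (h n : ℂ) * Db σ (m + 1) (jet σ h φ (m + 1) n) z
      = - jet σ h φ m n z + (h n : ℂ) ^ 2 * A n z := by
  have hσ := L.sm
  induction m with
  | zero =>
    refine ⟨fun _ _ => 0, zero_dom L, fun n z hz => ?_⟩
    have h1 := base L n z hz
    rw [mul_zero, add_zero]
    exact h1
  | succ m ih =>
    obtain ⟨A, hA, hE⟩ := ih
    refine ⟨fun n z => (h n : ℂ) * D σ m (A n) z + (2 * ((m : ℂ) + 1) * curv σ z)
      * jet σ h φ (m + 1) n z, (Dom.hD L.op L.hlim hσ m hA).add L.op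
        (Dom.fn_mul L.op L.hlim (contDiff_const.mul (contDiff_curv hσ)) (dom_jet L (m + 1))),
      fun n z hz => ?_⟩
    have s0 := (dom_jet L m).smooth n
    have s1 := (dom_jet L (m + 1)).smooth n
    have sA := hA.smooth n
    have e0 : jet σ h φ (m + 1 + 1) n
        = fun w => (h n : ℂ) * D σ ((m : ℤ) + 1) (jet σ h φ (m + 1) n) w := rfl
    have c := comm hσ ((m : ℤ) + 1) s1 z
    have e1 : (((m + 1 : ℕ) : ℤ) + 1) = (m : ℤ) + 1 + 1 := by push_cast; ring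
    rw [e0, e1, Db_const_mul hσ _ _ (cd_at (contDiff_D hσ _ s1) z), c,
      show (m : ℤ) + 1 - 1 = m by ring]
    have e2 : (h n : ℂ) * D σ m (Db σ ((m : ℤ) + 1) (jet σ h φ (m + 1) n)) z
        = - D σ m (jet σ h φ m n) z + (h n : ℂ) ^ 2 * D σ m (A n) z := by
      rw [← D_const_mul hσ m _ (cd_at (contDiff_Db hσ _ s1) z),
        D_congr_on L.op m (hE n) hz]
      have e3 : (fun w => - jet σ h φ m n w + (h n : ℂ) ^ 2 * A n w)
          = fun w => (-1 : ℂ) * jet σ h φ m n w + (h n : ℂ) ^ 2 * A n w := by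
        funext w; ring
      rw [e3, D_add hσ m ((cd_at s0 z).const_mul _) ((cd_at sA z).const_mul _),
        D_const_mul hσ m _ (cd_at s0 z), D_const_mul hσ m _ (cd_at sA z)]
      ring
    have e4 : jet σ h φ (m + 1) n z = (h n : ℂ) * D σ m (jet σ h φ m n) z := rfl
    push_cast
    linear_combination (h n : ℂ) * e2 + e4

lemma E_nat (m : ℕ) : E σ h φ (m : ℤ) = jet σ h φ m := rfl

lemma E_neg (L : LocB V σ h φ) (m : ℕ) :
    E σ h φ (-(m : ℤ)) = fun n z => (-1) ^ m * (starRingEnd ℂ) (jet σ h φ m n z) := by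
  cases m with
  | zero =>
    funext n z
    show φ n z = (-1) ^ 0 * (starRingEnd ℂ) (φ n z)
    rw [L.real n z]; ring
  | succ m =>
    rw [show (-((m + 1 : ℕ) : ℤ)) = Int.negSucc m from rfl]
    rfl

lemma dom_neg (L : LocB V σ h φ) (m : ℕ) : Dom V h φ 1 (E σ h φ (-(m : ℤ))) := by
  rw [E_neg L m]
  exact ((dom_jet L m).conj L.op).smul L.op _

end JETA

open _root_.U3.JETA in
theorem stmtJetC : StmtJetC := by
  intro V σ h φ L j
  have hσ := L.sm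
  refine ⟨?_, ?_, ?_⟩
  · obtain ⟨m, rfl | rfl⟩ := j.eq_nat_or_neg
    · rw [E_nat]; exact dom_jet L m
    · exact dom_neg L m
  · rcases j with m | m
    · refine ⟨fun _ _ => 0, zero_dom L, fun n z _ => ?_⟩
      rw [mul_zero, add_zero]
      rfl
    · obtain ⟨A, hA, hE⟩ := low L m
      refine ⟨fun n z => (-1) ^ (m + 1) * (starRingEnd ℂ) (A n z), (hA.conj L.op).smul L.op _,
        fun n z hz => ?_⟩
      have e1 : (Int.negSucc m : ℤ) = -((m : ℤ) + 1) := Int.negSucc_eq m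
      have e2 : (Int.negSucc m : ℤ) + 1 = -(m : ℤ) := by rw [e1]; ring
      have s1 := (dom_jet L (m + 1)).smooth n
      have e3 : E σ h φ (Int.negSucc m) n
          = fun w => (-1) ^ (m + 1) * (starRingEnd ℂ) (jet σ h φ (m + 1) n w) := rfl
      have sc : DifferentiableAt ℝ (fun w => (starRingEnd ℂ) (jet σ h φ (m + 1) n w)) z :=
        cd_at (conjCLE.contDiff.comp s1) z
      rw [e2, E_neg L m, e3, D_const_mul hσ _ _ sc, D_conj _ hσ (cd_at s1 z), e1, neg_neg]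
      have h1 := congrArg (starRingEnd ℂ) (hE n z hz)
      simp only [map_mul, map_add, map_neg, map_pow, Complex.conj_ofReal] at h1
      show (h n : ℂ) * ((-1) ^ (m + 1) * _) = (-1) ^ m * _ + (h n : ℂ) ^ 2 * ((-1) ^ (m + 1) * _)
      rw [pow_succ]
      linear_combination (-(-1) ^ m) * h1
  · rcases Int.lt_or_le 0 j with hj | hj
    · obtain ⟨m, rfl⟩ : ∃ m : ℕ, j = (m : ℤ) + 1 := ⟨(j - 1).toNat, by omega⟩
      obtain ⟨A, hA, hE⟩ := low L m
      refine ⟨A, hA, fun n z hz => ?_⟩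
      rw [show (m : ℤ) + 1 - 1 = m by ring]
      exact hE n z hz
    · obtain ⟨m, rfl⟩ : ∃ m : ℕ, j = -(m : ℤ) := ⟨(-j).toNat, by omega⟩
      refine ⟨fun _ _ => 0, zero_dom L, fun n z _ => ?_⟩
      have s1 := (dom_jet L m).smooth n
      have sc : DifferentiableAt ℝ (fun w => (starRingEnd ℂ) (jet σ h φ m n w)) z :=
        cd_at (conjCLE.contDiff.comp s1) z
      have e1 : -(m : ℤ) - 1 = -((m + 1 : ℕ) : ℤ) := by push_cast; ring
      rw [e1, E_neg L m, E_neg L (m + 1), mul_zero, add_zero]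
      show (h n : ℂ) * Db σ (-(m : ℤ)) (fun w => (-1) ^ m * (starRingEnd ℂ) (jet σ h φ m n w)) z
        = -((-1) ^ (m + 1) * (starRingEnd ℂ) (jet σ h φ (m + 1) n z))
      rw [Db_const_mul hσ _ _ sc, Db_conj _ hσ (cd_at s1 z), neg_neg]
      have e4 : jet σ h φ (m + 1) n z = (h n : ℂ) * D σ m (jet σ h φ m n) z := rfl
      rw [e4, map_mul, Complex.conj_ofReal, pow_succ]
      ring

end

end U3


end

section

/-!
The rescaled mixed derivatives are covariant jets up to `O(h)`.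
-/

open Complex MeasureTheory Filter Topology Set
open scoped ContDiff

namespace U3

open QJ QE

noncomputable section

namespace JETB

variable {V : Set ℂ} {σ : ℂ → ℝ} {h : ℕ → ℝ} {φ : ℕ → ℂ → ℂ}

/-- the conclusion for given `a`, `b` -/
def Cl (V : Set ℂ) (σ : ℂ → ℝ) (h : ℕ → ℝ) (φ : ℕ → ℂ → ℂ) (a b : ℕ) : Prop :=
  ∃ A, Dom V h φ 1 A ∧ ∀ n, ∀ z ∈ V,
    ex σ (-(a + b)) z * W h φ a b n z
      = (2 : ℂ)⁻¹ ^ (a + b) * (-1) ^ b * E σ h φ ((a : ℤ) - b) n z + (h n : ℂ) * A n z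

lemma cl_zero (L : LocB V σ h φ) : Cl V σ h φ 0 0 := by
  refine ⟨fun _ _ => 0, Dom.of_fn L.op L.hlim 1 contDiff_const, fun n z _ => ?_⟩
  have e0 : E σ h φ (((0 : ℕ) : ℤ) - ((0 : ℕ) : ℤ)) = φ := rfl
  have e1 : (-(((0 : ℕ) : ℤ) + ((0 : ℕ) : ℤ))) = 0 := by norm_num
  rw [e0, e1, W_zero, ex_zero]
  simp

lemma step_b (hJ : StmtJetC) (L : LocB V σ h φ) {a b : ℕ} (hc : Cl V σ h φ a b) :
    Cl V σ h φ a (b + 1) := by
  obtain ⟨A, hA, hE⟩ := hc
  obtain ⟨dE, -, A1, hA1, hD⟩ := hJ V σ h φ L ((a : ℤ) - b)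
  have hσ := L.sm
  have hs := contDiff_dzb (contDiff_sig hσ)
  set c : ℂ := (2 : ℂ)⁻¹ ^ (a + b) * (-1) ^ b with hcdef
  have t1 := (hA1.hmul L.op L.hlim).smul L.op (2⁻¹ * c)
  have t2 := dE.fn_mul L.op L.hlim (b := fun z => -(c * (((a : ℤ) - b : ℤ) : ℂ)
    * (ex σ (-1) z * dzb (fun w => (σ w : ℂ)) z)))
    (contDiff_const.mul ((contDiff_ex hσ (-1)).mul hs)).neg
  have t3 := hA.hdzb.fn_mul L.op L.hlim (contDiff_ex hσ (-1))
  have t4 := (Dom.W (h := h) L.smφ L.op a b).fn_mul L.op L.hlim (b := fun z => ((a : ℂ) + b)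
    * (ex σ (-1) z * dzb (fun w => (σ w : ℂ)) z * ex σ (-(a + b)) z))
    (contDiff_const.mul (((contDiff_ex hσ (-1)).mul hs).mul (contDiff_ex hσ _)))
  refine ⟨_, ((t1.add L.op t2).add L.op t3).add L.op t4, fun n z hz => ?_⟩
  have sE := dE.smooth n
  have sA := hA.smooth n
  have sW := contDiff_W (h := h) L.smφ a b n
  have hEn := hE n
  have h1 := dzb_congr_on L.op hEn hz
  rw [dzb_mul (cd_at (contDiff_ex hσ _) z) (cd_at sW z), dzb_ex hσ,
    dzb_add ((cd_at sE z).const_mul _) ((cd_at sA z).const_mul _), dzb_const_mul _ (cd_at sE z),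
    dzb_const_mul _ (cd_at sA z)] at h1
  have h2 := hD n z hz
  rw [Db_eq hσ _ (cd_at sE z)] at h2
  have e1 : ((a : ℤ) - ((b + 1 : ℕ) : ℤ)) = (a : ℤ) - b - 1 := by push_cast; ring
  have e2 : (-((a : ℤ) + ((b + 1 : ℕ) : ℤ))) = -1 + (-((a : ℤ) + b)) := by push_cast; ring
  rw [e1, e2, ← ex_mul, ← hdzb_W L.smφ, ← add_assoc, pow_succ, pow_succ]
  have e3 : (2 : ℂ)⁻¹ ^ (a + b) * (2 : ℂ)⁻¹ * ((-1) ^ b * -1) = -(2⁻¹ * c) := by
    rw [hcdef]; ring
  rw [e3]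
  push_cast at h1 h2 ⊢
  linear_combination (h n : ℂ) * ex σ (-1) z * h1 + (2⁻¹ * c) * h2

lemma step_a (hJ : StmtJetC) (L : LocB V σ h φ) {a b : ℕ} (hc : Cl V σ h φ a b) :
    Cl V σ h φ (a + 1) b := by
  obtain ⟨A, hA, hE⟩ := hc
  obtain ⟨dE, ⟨A1, hA1, hD⟩, -⟩ := hJ V σ h φ L ((a : ℤ) - b)
  have hσ := L.sm
  have hs := contDiff_dz (contDiff_sig hσ)
  set c : ℂ := (2 : ℂ)⁻¹ ^ (a + b) * (-1) ^ b with hcdef
  have t1 := (hA1.hmul L.op L.hlim).smul L.op (2⁻¹ * c)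
  have t2 := dE.fn_mul L.op L.hlim (b := fun z => (c * (((a : ℤ) - b : ℤ) : ℂ)
    * (ex σ (-1) z * dz (fun w => (σ w : ℂ)) z)))
    (contDiff_const.mul ((contDiff_ex hσ (-1)).mul hs))
  have t3 := hA.hdz.fn_mul L.op L.hlim (contDiff_ex hσ (-1))
  have t4 := (Dom.W (h := h) L.smφ L.op a b).fn_mul L.op L.hlim (b := fun z => ((a : ℂ) + b)
    * (ex σ (-1) z * dz (fun w => (σ w : ℂ)) z * ex σ (-(a + b)) z))
    (contDiff_const.mul (((contDiff_ex hσ (-1)).mul hs).mul (contDiff_ex hσ _)))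
  refine ⟨_, ((t1.add L.op t2).add L.op t3).add L.op t4, fun n z hz => ?_⟩
  have sE := dE.smooth n
  have sA := hA.smooth n
  have sW := contDiff_W (h := h) L.smφ a b n
  have hEn := hE n
  have h1 := dz_congr_on L.op hEn hz
  rw [dz_mul (cd_at (contDiff_ex hσ _) z) (cd_at sW z), dz_ex hσ,
    dz_add ((cd_at sE z).const_mul _) ((cd_at sA z).const_mul _), dz_const_mul _ (cd_at sE z),
    dz_const_mul _ (cd_at sA z)] at h1
  have h2 := hD n z hz
  rw [D_eq hσ _ (cd_at sE z)] at h2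
  have e1 : (((a + 1 : ℕ) : ℤ) - (b : ℤ)) = (a : ℤ) - b + 1 := by push_cast; ring
  have e2 : (-(((a + 1 : ℕ) : ℤ) + (b : ℤ))) = -1 + (-((a : ℤ) + b)) := by push_cast; ring
  have e4 : a + 1 + b = a + b + 1 := by ring
  rw [e1, e2, ← ex_mul, ← hdz_W L.smφ, e4, pow_succ]
  have e3 : (2 : ℂ)⁻¹ ^ (a + b) * (2 : ℂ)⁻¹ * (-1) ^ b = 2⁻¹ * c := by
    rw [hcdef]; ring
  rw [e3]
  push_cast at h1 h2 ⊢
  linear_combination (h n : ℂ) * ex σ (-1) z * h1 + (2⁻¹ * c) * h2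

end JETB

open _root_.U3.JETB in
theorem stmtJetW (hJetA : StmtJetC) : StmtJetW := by
  intro V σ h φ L a b
  have h0 : ∀ b : ℕ, Cl V σ h φ 0 b := by
    intro b
    induction b with
    | zero => exact cl_zero L
    | succ b ih => exact step_b hJetA L ih
  have h1 : ∀ a : ℕ, Cl V σ h φ a b := by
    intro a
    induction a with
    | zero => exact h0 b
    | succ a ih => exact step_a hJetA L ih
  exact h1 a

end

end U3


end

section

/-!
Derivatives of sequences whose `L¹` norms are `o(1/h)` tend weakly to zero after multiplication by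
`h`.
-/

open Complex MeasureTheory Filter Topology Set
open scoped ContDiff

namespace U3

open QE QJ

noncomputable section

namespace IBPA

/-- the integral of a test function against a smooth function is bounded by the `L¹` norm on the
support -/
lemma norm_int_le {V : Set ℂ} {η : ℂ → ℂ} (hη : Test V η) :
    ∃ M : ℝ, ∀ f : ℂ → ℂ, Continuous f →
      ‖∫ z, η z * f z‖ ≤ M * ∫ z in tsupport η, ‖f z‖ := by
  obtain ⟨M, hM⟩ := hη.smooth.continuous.bounded_above_of_compact_support hη.supp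
  refine ⟨M, fun f hf => ?_⟩
  have hK : IsCompact (tsupport η) := hη.supp
  have e : ∫ z, η z * f z = ∫ z in tsupport η, η z * f z := by
    symm
    apply setIntegral_eq_integral_of_forall_compl_eq_zero
    intro z hz
    rw [image_eq_zero_of_notMem_tsupport hz, zero_mul]
  rw [e]
  have hi : IntegrableOn f (tsupport η) := hf.continuousOn.integrableOn_compact hK
  calc ‖∫ z in tsupport η, η z * f z‖ ≤ ∫ z in tsupport η, ‖η z * f z‖ :=
        norm_integral_le_integral_norm _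
    _ ≤ ∫ z in tsupport η, M * ‖f z‖ := by
        refine integral_mono ?_ (hi.norm.const_mul M) fun z => ?_
        · exact ((hη.smooth.continuous.mul hf).continuousOn.integrableOn_compact hK).norm
        · show ‖η z * f z‖ ≤ M * ‖f z‖
          rw [norm_mul]
          exact mul_le_mul_of_nonneg_right (hM z) (norm_nonneg _)
    _ = M * ∫ z in tsupport η, ‖f z‖ := integral_const_mul _ _

/-- the limit against a fixed test function -/
lemma lim_test {V : Set ℂ} {h : ℕ → ℝ} {u : ℕ → ℂ → ℂ} (hh : ∀ n, 0 < h n)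
    (hu : ∀ n, ContDiff ℝ ∞ (u n))
    (hK : ∀ K, IsCompact K → K ⊆ V → Tendsto (fun n => h n * ∫ z in K, ‖u n z‖) atTop (𝓝 0))
    {η : ℂ → ℂ} (hη : Test V η) :
    Tendsto (fun n => (h n : ℂ) * ∫ z, η z * u n z) atTop (𝓝 0) := by
  obtain ⟨M, hM⟩ := norm_int_le hη
  have h1 := (hK (tsupport η) hη.supp hη.sub).const_mul M
  rw [mul_zero] at h1
  refine squeeze_zero_norm (fun n => ?_) h1
  rw [norm_mul, Complex.norm_real, Real.norm_of_nonneg (hh n).le]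
  calc h n * ‖∫ z, η z * u n z‖ ≤ h n * (M * ∫ z in tsupport η, ‖u n z‖) :=
        mul_le_mul_of_nonneg_left (hM (u n) (hu n).continuous) (hh n).le
    _ = M * (h n * ∫ z in tsupport η, ‖u n z‖) := by ring

end IBPA

open _root_.U3.IBPA in
/-- IBPA: integration by parts -/
theorem stmtIbpA : StmtIbpA := by
  intro V σ h u k hV hσ hh hu hZ ζ hζ
  have hK : ∀ K, IsCompact K → K ⊆ V →
      Tendsto (fun n => h n * ∫ z in K, ‖u n z‖) atTop (𝓝 0) := hZ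
  constructor
  · have tA : Test V (fun z => ζ z * (2 * ex σ (k - 1) z)) :=
      test_mul hζ (contDiff_const.mul (contDiff_ex hσ _))
    have tη : Test V (fun z => dz (fun z => ζ z * (2 * ex σ (k - 1) z)) z * ex σ (-k) z) :=
      test_mul tA.dz (contDiff_ex hσ _)
    have h1 := (lim_test hh hu hK tη).neg
    rw [neg_zero] at h1
    refine h1.congr fun n => ?_
    have i1 := integral_mul_dz hV tA (f := fun w => ex σ (-k) w * u n w)
      ((contDiff_ex hσ _).mul (hu n)).contDiffOn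
    have e1 : ∫ z, ζ z * ((h n : ℂ) * D σ k (u n) z)
        = (h n : ℂ) * ∫ z, (ζ z * (2 * ex σ (k - 1) z)) * dz (fun w => ex σ (-k) w * u n w) z := by
      rw [← integral_const_mul]
      refine integral_congr_ae (Filter.Eventually.of_forall fun z => ?_)
      show ζ z * ((h n : ℂ) * D σ k (u n) z) = _
      unfold D
      ring
    rw [e1, i1, mul_neg]
    congr 2
    refine integral_congr_ae (Filter.Eventually.of_forall fun z => ?_)
    show dz (fun z => ζ z * (2 * ex σ (k - 1) z)) z * ex σ (-k) z * u n z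
      = dz (fun z => ζ z * (2 * ex σ (k - 1) z)) z * (ex σ (-k) z * u n z)
    ring
  · have tA : Test V (fun z => ζ z * (2 * ex σ (-k - 1) z)) :=
      test_mul hζ (contDiff_const.mul (contDiff_ex hσ _))
    have tη : Test V (fun z => dzb (fun z => ζ z * (2 * ex σ (-k - 1) z)) z * ex σ k z) :=
      test_mul tA.dzb (contDiff_ex hσ _)
    have h1 := (lim_test hh hu hK tη).neg
    rw [neg_zero] at h1
    refine h1.congr fun n => ?_
    have i1 := integral_mul_dzb hV tA (f := fun w => ex σ k w * u n w)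
      ((contDiff_ex hσ _).mul (hu n)).contDiffOn
    have e1 : ∫ z, ζ z * ((h n : ℂ) * Db σ k (u n) z)
        = (h n : ℂ) * ∫ z, (ζ z * (2 * ex σ (-k - 1) z)) * dzb (fun w => ex σ k w * u n w) z := by
      rw [← integral_const_mul]
      refine integral_congr_ae (Filter.Eventually.of_forall fun z => ?_)
      show ζ z * ((h n : ℂ) * Db σ k (u n) z) = _
      unfold Db
      ring
    rw [e1, i1, mul_neg]
    congr 2
    refine integral_congr_ae (Filter.Eventually.of_forall fun z => ?_)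
    show dzb (fun z => ζ z * (2 * ex σ (-k - 1) z)) z * ex σ k z * u n z
      = dzb (fun z => ζ z * (2 * ex σ (-k - 1) z)) z * (ex σ k z * u n z)
    ring

end

end U3


end

section

/-!
The transport of the kernel for the other operator.
-/

open Complex MeasureTheory Filter Topology Set
open scoped ContDiff

namespace U3

open QE QJ

noncomputable section

namespace KEM

variable {β : ℝ → ℝ} {σ : ℂ → ℝ}

lemma contDiff_sg (hσ : ContDiff ℝ ∞ σ) : ContDiff ℝ ∞ (sg σ) := by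
  unfold sg; exact contDiff_dz (contDiff_sig hσ)

lemma contDiff_r2l (hσ : ContDiff ℝ ∞ σ) (w : ℂ) : ContDiff ℝ ∞ (fun x => r2 σ x w) := by
  unfold r2
  exact (Real.contDiff_exp.comp (hσ.add contDiff_const)).mul
    ((contDiff_const.sub contDiff_id).norm_sq ℝ)

lemma contDiff_r2r (hσ : ContDiff ℝ ∞ σ) (z : ℂ) : ContDiff ℝ ∞ (fun y => r2 σ z y) := by
  unfold r2
  exact (Real.contDiff_exp.comp (contDiff_const.add hσ)).mul
    ((contDiff_id.sub contDiff_const).norm_sq ℝ)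

lemma contDiff_gbl (hβ : ContDiff ℝ ∞ β) (hσ : ContDiff ℝ ∞ σ) (ε : ℝ) (w : ℂ) :
    ContDiff ℝ ∞ (fun x => gb β σ ε x w) := by
  unfold gb
  exact (hβ.comp ((contDiff_r2l hσ w).div_const _)).div_const _

lemma contDiff_gbr (hβ : ContDiff ℝ ∞ β) (hσ : ContDiff ℝ ∞ σ) (ε : ℝ) (z : ℂ) :
    ContDiff ℝ ∞ (fun y => gb β σ ε z y) := by
  unfold gb
  exact (hβ.comp ((contDiff_r2r hσ z).div_const _)).div_const _

lemma contDiff_kel (hβ : ContDiff ℝ ∞ β) (hσ : ContDiff ℝ ∞ σ) (ε : ℝ) (w : ℂ) :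
    ContDiff ℝ ∞ (fun x => ke β σ ε x w) := by
  unfold ke
  exact contDiff_const.mul (contDiff_gbl hβ hσ ε w)

lemma ta_ne (z w : ℂ) : ta σ z w ≠ 0 := by unfold ta; exact Complex.exp_ne_zero _

lemma ta_zpow (z w : ℂ) (m : ℤ) : (ta σ z w)⁻¹ ^ m
    = Complex.exp (-(m : ℂ) * ((((sg σ z + sg σ w) * (w - z)).im : ℝ) * Complex.I)) := by
  unfold ta
  rw [← Complex.exp_neg, ← Complex.exp_int_mul]
  congr 1; ring

lemma conj_ta (z w : ℂ) (m : ℤ) : (starRingEnd ℂ) ((ta σ z w)⁻¹ ^ (-m)) = (ta σ z w)⁻¹ ^ m := by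
  rw [ta_zpow, ta_zpow, ← Complex.exp_conj]
  congr 1
  have h1 : (starRingEnd ℂ) (m : ℂ) = m := by
    have h2 := conj_ofReal ((m : ℤ) : ℝ)
    rwa [ofReal_intCast] at h2
  simp only [map_mul, conj_ofReal, conj_I, Int.cast_neg, neg_neg, h1]
  ring

lemma contDiff_tal (hσ : ContDiff ℝ ∞ σ) (w : ℂ) (m : ℤ) :
    ContDiff ℝ ∞ (fun x => (ta σ x w)⁻¹ ^ m) := by
  have e : (fun x => (ta σ x w)⁻¹ ^ m) = fun x => Complex.exp (-(m : ℂ) *
      ((((sg σ x + sg σ w) * (w - x)).im : ℝ) * Complex.I)) := by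
    funext x; exact ta_zpow x w m
  rw [e]
  refine ContDiff.cexp (contDiff_const.mul (ContDiff.mul ?_ contDiff_const))
  exact ofRealCLM.contDiff.comp (imCLM.contDiff.comp
    (((contDiff_sg hσ).add contDiff_const).mul (contDiff_const.sub contDiff_id)))

lemma contDiff_tar (hσ : ContDiff ℝ ∞ σ) (z : ℂ) (m : ℤ) :
    ContDiff ℝ ∞ (fun y => (ta σ z y)⁻¹ ^ m) := by
  have e : (fun y => (ta σ z y)⁻¹ ^ m) = fun y => Complex.exp (-(m : ℂ) *
      ((((sg σ z + sg σ y) * (y - z)).im : ℝ) * Complex.I)) := by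
    funext y; exact ta_zpow z y m
  rw [e]
  refine ContDiff.cexp (contDiff_const.mul (ContDiff.mul ?_ contDiff_const))
  exact ofRealCLM.contDiff.comp (imCLM.contDiff.comp
    ((contDiff_const.add (contDiff_sg hσ)).mul (contDiff_id.sub contDiff_const)))

lemma diff1 (hβ : ContDiff ℝ ∞ β) (hσ : ContDiff ℝ ∞ σ) (ε : ℝ) (w : ℂ) (m : ℤ) (z : ℂ) :
    DifferentiableAt ℝ (fun x => (ke β σ ε x w : ℂ) * (ta σ x w)⁻¹ ^ m) z :=
  cd_at ((ofRealCLM.contDiff.comp (contDiff_kel hβ hσ ε w)).mul (contDiff_tal hσ w m)) z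

lemma diff2 (hβ : ContDiff ℝ ∞ β) (hσ : ContDiff ℝ ∞ σ) (ε : ℝ) (z : ℂ) (m : ℤ) (w : ℂ) :
    DifferentiableAt ℝ (fun y => (gb β σ ε z y : ℂ) * (ta σ z y)⁻¹ ^ m) w :=
  cd_at ((ofRealCLM.contDiff.comp (contDiff_gbr hβ hσ ε z)).mul (contDiff_tar hσ z m)) w

lemma key (hβ : ContDiff ℝ ∞ β) (hσ : ContDiff ℝ ∞ σ) (ε : ℝ) (k : ℤ) (z w : ℂ) :
    D σ (k - 1) (fun x => (ke β σ ε x w : ℂ) * (ta σ x w)⁻¹ ^ (k - 1)) z
        + ex σ 2 w * D σ (-k) (fun y => (gb β σ ε z y : ℂ) * (ta σ z y)⁻¹ ^ k) w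
      = (starRingEnd ℂ) (Db σ (-k + 1) (fun x => (ke β σ ε x w : ℂ) * (ta σ x w)⁻¹ ^ (-k + 1)) z
        + ex σ 2 w * Db σ (- -k) (fun y => (gb β σ ε z y : ℂ) * (ta σ z y)⁻¹ ^ (-k)) w) := by
  have h1 := D_conj (σ := σ) (k - 1) hσ (diff1 hβ hσ ε w (-k + 1) z)
  have h2 := D_conj (σ := σ) (-k) hσ (diff2 hβ hσ ε z (-k) w)
  have e1 : (fun x => (starRingEnd ℂ) ((ke β σ ε x w : ℂ) * (ta σ x w)⁻¹ ^ (-k + 1)))
      = fun x => (ke β σ ε x w : ℂ) * (ta σ x w)⁻¹ ^ (k - 1) := by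
    funext x
    rw [map_mul, conj_ofReal, show (-k + 1 : ℤ) = -(k - 1) by ring, conj_ta]
  have e2 : (fun y => (starRingEnd ℂ) ((gb β σ ε z y : ℂ) * (ta σ z y)⁻¹ ^ (-k)))
      = fun y => (gb β σ ε z y : ℂ) * (ta σ z y)⁻¹ ^ k := by
    funext y
    rw [map_mul, conj_ofReal, conj_ta]
  rw [e1, show (-(k - 1) : ℤ) = -k + 1 by ring] at h1
  rw [e2] at h2
  rw [h1, h2, map_add, map_mul, conj_ex]

end KEM

open _root_.U3.KEM in
theorem stmtKem (hKer : StmtKer) : StmtKem := by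
  intro β σ k K hβ hσ hK
  obtain ⟨C, ε₀, hC, hε₀, h⟩ := hKer β σ (-k) K hβ hσ hK
  refine ⟨C, ε₀, hC, hε₀, fun ε h1 h2 z hz w hw => ?_⟩
  have h3 := h ε h1 h2 z hz w hw
  rw [key hβ.smooth hσ ε k z w]
  refine ⟨?_, fun h4 => ?_⟩
  · rw [RCLike.norm_conj]; exact h3.1
  · rw [h3.2 h4, map_zero]

end

end U3


end

section

/-!
PES: the mollified moments are smooth, and their derivatives
-/

open Complex MeasureTheory Filter Topology Set
open scoped ContDiff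

namespace U3

open QE QJ

noncomputable section

namespace PES

/-- the kernel of the mollified moments as a function of two variables -/
def FK (β : ℝ → ℝ) (σ : ℂ → ℝ) (ε : ℝ) (k : ℤ) (x : ℂ × ℂ) : ℂ :=
  (ke β σ ε x.1 x.2 : ℂ) * (ta σ x.1 x.2)⁻¹ ^ k

lemma ta_zpow (σ : ℂ → ℝ) (k : ℤ) (z w : ℂ) :
    (ta σ z w)⁻¹ ^ k =
      Complex.exp ((k : ℂ) * -((((sg σ z + sg σ w) * (w - z)).im : ℝ) * Complex.I)) := by
  unfold ta
  rw [← Complex.exp_neg, ← Complex.exp_int_mul]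

lemma contDiff_sg {σ : ℂ → ℝ} (hσ : ContDiff ℝ ∞ σ) : ContDiff ℝ ∞ (sg σ) :=
  contDiff_dz (contDiff_sig hσ)

lemma contDiff_FK {β : ℝ → ℝ} {σ : ℂ → ℝ} (hβ : ContDiff ℝ ∞ β) (hσ : ContDiff ℝ ∞ σ) (ε : ℝ)
    (k : ℤ) : ContDiff ℝ ∞ (FK β σ ε k) := by
  have h1 : ContDiff ℝ ∞ fun x : ℂ × ℂ => σ x.1 := hσ.comp contDiff_fst
  have h2 : ContDiff ℝ ∞ fun x : ℂ × ℂ => σ x.2 := hσ.comp contDiff_snd
  have h3 : ContDiff ℝ ∞ fun x : ℂ × ℂ => sg σ x.1 := (contDiff_sg hσ).comp contDiff_fst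
  have h4 : ContDiff ℝ ∞ fun x : ℂ × ℂ => sg σ x.2 := (contDiff_sg hσ).comp contDiff_snd
  have h5 : ContDiff ℝ ∞ fun x : ℂ × ℂ => x.2 - x.1 := contDiff_snd.sub contDiff_fst
  have h6 : ContDiff ℝ ∞ fun x : ℂ × ℂ => r2 σ x.1 x.2 := by
    unfold r2
    exact ((h1.add h2).exp).mul (h5.norm_sq ℝ)
  have h7 : ContDiff ℝ ∞ fun x : ℂ × ℂ => ke β σ ε x.1 x.2 := by
    unfold ke gb
    exact ((contDiff_const.mul h2).exp).mul ((hβ.comp (h6.div_const _)).div_const _)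
  have h8 : ContDiff ℝ ∞ fun x : ℂ × ℂ => (((sg σ x.1 + sg σ x.2) * (x.2 - x.1)).im : ℝ) :=
    Complex.imCLM.contDiff.comp ((h3.add h4).mul h5)
  have h9 : ContDiff ℝ ∞ fun x : ℂ × ℂ =>
      ((((sg σ x.1 + sg σ x.2) * (x.2 - x.1)).im : ℝ) : ℂ) := ofRealCLM.contDiff.comp h8
  unfold FK
  simp only [ta_zpow]
  exact (ofRealCLM.contDiff.comp h7).mul ((contDiff_const.mul (h9.mul contDiff_const).neg).cexp)

lemma norm_zpow_one {u : ℂ} (hu : ‖u‖ = 1) (k : ℤ) : ‖u ^ k‖ = 1 := by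
  rw [norm_zpow, hu, one_zpow]

end PES

/-- PES -/
theorem stmtPeS (hPar : StmtPar) : StmtPeS := by
  intro β V σ Ω _ μ p u hβ hσ hD ε hε k
  have hF := PES.contDiff_FK hβ.smooth hσ ε k
  have hv : Measurable fun o => u o ^ k := hD.mu.pow_const k
  have hv1 : ∀ o, ‖u o ^ k‖ ≤ 1 := fun o => (PES.norm_zpow_one (hD.unit o) k).le
  have e : ∀ z, pe β σ ε μ p u k z = ∫ o, PES.FK β σ ε k (z, p o) * u o ^ k ∂μ := by
    intro z
    unfold pe PES.FK
    refine integral_congr_ae (Filter.Eventually.of_forall fun o => ?_)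
    simp only [mul_zpow]
    ring
  have e' : pe β σ ε μ p u k = fun z => ∫ o, PES.FK β σ ε k (z, p o) * u o ^ k ∂μ := funext e
  refine ⟨?_, ?_, ?_⟩
  · rw [e']
    exact (hPar Ω μ p (fun o => u o ^ k) (PES.FK β σ ε k) hD.fin hD.mp hv hv1 hD.cpt hF).1
  · intro k' z
    have hF1 : ContDiff ℝ ∞ fun x : ℂ × ℂ => ex σ (-k') x.1 * PES.FK β σ ε k x :=
      ((contDiff_ex hσ (-k')).comp contDiff_fst).mul hF
    have h1 := (hPar Ω μ p (fun o => u o ^ k) _ hD.fin hD.mp hv hv1 hD.cpt hF1).2.1 z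
    have h2 : (fun w => ex σ (-k') w * pe β σ ε μ p u k w) =
        fun z => ∫ o, ex σ (-k') z * PES.FK β σ ε k (z, p o) * u o ^ k ∂μ := by
      funext w
      rw [e w, ← integral_const_mul]
      simp only [mul_assoc]
    unfold D
    rw [h2, h1, ← integral_const_mul]
    simp only [mul_assoc]
    rfl
  · intro k' z
    have hF1 : ContDiff ℝ ∞ fun x : ℂ × ℂ => ex σ k' x.1 * PES.FK β σ ε k x :=
      ((contDiff_ex hσ k').comp contDiff_fst).mul hF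
    have h1 := (hPar Ω μ p (fun o => u o ^ k) _ hD.fin hD.mp hv hv1 hD.cpt hF1).2.2 z
    have h2 : (fun w => ex σ k' w * pe β σ ε μ p u k w) =
        fun z => ∫ o, ex σ k' z * PES.FK β σ ε k (z, p o) * u o ^ k ∂μ := by
      funext w
      rw [e w, ← integral_const_mul]
      simp only [mul_assoc]
    unfold Db
    rw [h2, h1, ← integral_const_mul]
    simp only [mul_assoc]
    rfl

end

end U3


end

section

/-!
TRID: the differences of the products of jets and of the mollified moments are null triples.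
-/

open Complex MeasureTheory Filter Topology Set
open scoped ContDiff

namespace U3

open QE QJ

namespace TRID

variable {V : Set ℂ}

theorem intOn {u : ℂ → ℂ} (cu : Continuous u) {K : Set ℂ} (hK : IsCompact K) (p : ℕ) :
    IntegrableOn (fun z => ‖u z‖ ^ p) K :=
  (cu.norm.pow p).continuousOn.integrableOn_compact hK

theorem l2z_sub {u v : ℕ → ℂ → ℂ} (hu : L2z V u) (cu : ∀ n, Continuous (u n)) (hv : L2z V v)
    (cv : ∀ n, Continuous (v n)) : L2z V (fun n z => u n z - v n z) := by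
  intro K hK hKV
  have h1 := ((hu K hK hKV).const_mul 2).add ((hv K hK hKV).const_mul 2)
  rw [mul_zero, add_zero] at h1
  refine squeeze_zero (fun n => integral_nonneg fun z => by positivity) (fun n => ?_) h1
  rw [← integral_const_mul, ← integral_const_mul, ← integral_add
    ((intOn (cu n) hK 2).const_mul _) ((intOn (cv n) hK 2).const_mul _)]
  refine setIntegral_mono_on (intOn ((cu n).sub (cv n)) hK 2)
    (((intOn (cu n) hK 2).const_mul _).add ((intOn (cv n) hK 2).const_mul _))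
    hK.measurableSet fun z _ => ?_
  have a3 : ‖u n z - v n z‖ ^ 2 ≤ (‖u n z‖ + ‖v n z‖) ^ 2 := by gcongr; exact norm_sub_le _ _
  change ‖u n z - v n z‖ ^ 2 ≤ 2 * ‖u n z‖ ^ 2 + 2 * ‖v n z‖ ^ 2
  nlinarith [sq_nonneg (‖u n z‖ - ‖v n z‖)]

theorem l2z_congr {u v : ℕ → ℂ → ℂ} (hu : L2z V u) (he : ∀ n z, v n z = u n z) : L2z V v := by
  have h1 : v = u := by
    funext n z
    exact he n z
  rw [h1]
  exact hu

theorem lg_sub {u v : ℕ → ℂ → ℂ} (hu : LG V u) (cu : ∀ n, Continuous (u n)) (hv : LG V v)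
    (cv : ∀ n, Continuous (v n)) : LG V (fun n z => u n z - v n z) := by
  intro K hK hKV
  obtain ⟨C1, h1⟩ := hu K hK hKV
  obtain ⟨C2, h2⟩ := hv K hK hKV
  refine ⟨C1 + C2, ?_⟩
  filter_upwards [h1, h2] with n h1 h2 z hz s hs
  have hc : IsCompact (K ∩ Metric.closedBall z s) := hK.inter_right Metric.isClosed_closedBall
  have i1 : IntegrableOn (fun w => ‖u n w‖) (K ∩ Metric.closedBall z s) :=
    (cu n).norm.continuousOn.integrableOn_compact hc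
  have i2 : IntegrableOn (fun w => ‖v n w‖) (K ∩ Metric.closedBall z s) :=
    (cv n).norm.continuousOn.integrableOn_compact hc
  have i3 : IntegrableOn (fun w => ‖u n w - v n w‖) (K ∩ Metric.closedBall z s) :=
    ((cu n).sub (cv n)).norm.continuousOn.integrableOn_compact hc
  have h3 : ∫ w in K ∩ Metric.closedBall z s, ‖u n w - v n w‖
      ≤ ∫ w in K ∩ Metric.closedBall z s, (‖u n w‖ + ‖v n w‖) :=
    setIntegral_mono_on i3 (i1.add i2) hc.measurableSet fun w _ => norm_sub_le _ _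
  rw [integral_add i1 i2] at h3
  have h4 := h1 z hz s hs
  have h5 := h2 z hz s hs
  calc ∫ w in K ∩ Metric.closedBall z s, ‖u n w - v n w‖
      ≤ (∫ w in K ∩ Metric.closedBall z s, ‖u n w‖)
        + ∫ w in K ∩ Metric.closedBall z s, ‖v n w‖ := h3
    _ ≤ C1 * s + C2 * s := add_le_add h4 h5
    _ = (C1 + C2) * s := by ring

theorem wz_sub (hV : IsOpen V) {F G : ℕ → ℂ → ℂ} {c : ℂ} {l : (ℂ → ℂ) → ℂ}
    (cF : ∀ n, Continuous (F n)) (cG : ∀ n, Continuous (fun z => c * G n z))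
    (h1 : ∀ ζ, Test V ζ → Tendsto (fun n => ∫ z, ζ z * F n z) atTop (𝓝 (c * l ζ)))
    (h2 : ∀ ζ, Test V ζ → Tendsto (fun n => ∫ z, ζ z * G n z) atTop (𝓝 (l ζ))) :
    WZ V (fun n z => F n z - c * G n z) := by
  intro ζ hζ
  have h3 := (h1 ζ hζ).sub ((h2 ζ hζ).const_mul c)
  rw [sub_self] at h3
  refine h3.congr fun n => ?_
  have i1 : Integrable (fun z => ζ z * F n z) := hζ.integrable_mul hV (cF n).continuousOn
  have i2 : Integrable (fun z => ζ z * (c * G n z)) := hζ.integrable_mul hV (cG n).continuousOn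
  have e1 : c * ∫ z, ζ z * G n z = ∫ z, ζ z * (c * G n z) := by
    rw [← integral_const_mul]
    refine integral_congr_ae (Filter.Eventually.of_forall fun z => ?_)
    change c * (ζ z * G n z) = ζ z * (c * G n z)
    ring
  rw [e1, ← integral_sub i1 i2]
  refine integral_congr_ae (Filter.Eventually.of_forall fun z => ?_)
  change ζ z * F n z - ζ z * (c * G n z) = ζ z * (F n z - c * G n z)
  ring

theorem tripB_sub {σ : ℂ → ℝ} (hσ : ContDiff ℝ ∞ σ) {N : ℤ} {A B C A' B' C' : ℕ → ℂ → ℂ}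
    (h1 : TripB V σ N A B C) (h2 : TripB V σ N A' B' C') :
    TripB V σ N (fun n z => A n z - A' n z) (fun n z => B n z - B' n z)
      (fun n z => C n z - C' n z) where
  sA := fun n => (h1.sA n).sub (h2.sA n)
  sB := fun n => (h1.sB n).sub (h2.sB n)
  sC := fun n => (h1.sC n).sub (h2.sC n)
  gA := lg_sub h1.gA (fun n => (h1.sA n).continuous) h2.gA (fun n => (h2.sA n).continuous)
  gB := lg_sub h1.gB (fun n => (h1.sB n).continuous) h2.gB (fun n => (h2.sB n).continuous)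
  gC := lg_sub h1.gC (fun n => (h1.sC n).continuous) h2.gC (fun n => (h2.sC n).continuous)
  eA := by
    refine l2z_congr (l2z_sub h1.eA (fun n => ((contDiff_Db hσ _ (h1.sA n)).add
      (contDiff_D hσ _ (h1.sB n))).continuous) h2.eA (fun n => ((contDiff_Db hσ _ (h2.sA n)).add
      (contDiff_D hσ _ (h2.sB n))).continuous)) fun n z => ?_
    change Db σ (N + 2) (fun w => A n w - A' n w) z + D σ N (fun w => B n w - B' n w) z
      = Db σ (N + 2) (A n) z + D σ N (B n) z - (Db σ (N + 2) (A' n) z + D σ N (B' n) z)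
    rw [Db_sub hσ _ (cd_at (h1.sA n) z) (cd_at (h2.sA n) z),
      D_sub hσ _ (cd_at (h1.sB n) z) (cd_at (h2.sB n) z)]
    ring
  eC := by
    refine l2z_congr (l2z_sub h1.eC (fun n => ((contDiff_D hσ _ (h1.sC n)).add
      (contDiff_Db hσ _ (h1.sB n))).continuous) h2.eC (fun n => ((contDiff_D hσ _ (h2.sC n)).add
      (contDiff_Db hσ _ (h2.sB n))).continuous)) fun n z => ?_
    change D σ (N - 2) (fun w => C n w - C' n w) z + Db σ N (fun w => B n w - B' n w) z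
      = D σ (N - 2) (C n) z + Db σ N (B n) z - (D σ (N - 2) (C' n) z + Db σ N (B' n) z)
    rw [D_sub hσ _ (cd_at (h1.sC n) z) (cd_at (h2.sC n) z),
      Db_sub hσ _ (cd_at (h1.sB n) z) (cd_at (h2.sB n) z)]
    ring

end TRID

open _root_.U3.TRID in
theorem stmtTriD (hDir : StmtDir) (hTriQ : StmtTriQ) (hTriP : StmtTriP) (hPeW : StmtPeW) :
    StmtTriD := by
  intro β V σ h φ Ω _ μ p u ε j m hβ hL hM hε hε0
  have hD : DirM V σ μ p u := hDir V σ h φ Ω μ p u hL hM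
  have hV : IsOpen V := hL.op
  have hσ : ContDiff ℝ ∞ σ := hL.sm
  have T1 := hTriQ V σ h φ hL j m
  have T2 := hTriP β V σ Ω μ p u ε j m hβ hV hσ hD hε hε0
  have T := tripB_sub hσ T1 T2
  have hw : ∀ k : ℤ, ∀ ζ, Test V ζ → Tendsto (fun n => ∫ z, ζ z * pe β σ (ε n) μ p u k z) atTop
      (𝓝 (∫ o, ζ (p o) * u o ^ k ∂μ)) := fun k ζ hζ =>
    hPeW β V σ Ω μ p u ε k hβ hσ hD hε hε0 ζ hζ.smooth.continuous hζ.supp
  refine ⟨T, ?_, ?_, ?_⟩
  · refine wz_sub (l := fun ζ => ∫ o, ζ (p o) * u o ^ (j + m + 2) ∂μ) hV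
      (fun n => (T1.sA n).continuous) (fun n => (T2.sA n).continuous) (fun ζ hζ => ?_)
      (hw (j + m + 2))
    have h1 := hM.lim (j + 1) (m + 1) ζ hζ
    have e : j + 1 + (m + 1) = j + m + 2 := by ring
    rw [e] at h1
    exact h1
  · exact wz_sub (l := fun ζ => ∫ o, ζ (p o) * u o ^ (j + m) ∂μ) hV
      (fun n => (T1.sB n).continuous) (fun n => (T2.sB n).continuous)
      (fun ζ hζ => hM.lim j m ζ hζ) (hw (j + m))
  · refine wz_sub (l := fun ζ => ∫ o, ζ (p o) * u o ^ (j + m - 2) ∂μ) hV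
      (fun n => (T1.sC n).continuous) (fun n => (T2.sC n).continuous) (fun ζ hζ => ?_)
      (hw (j + m - 2))
    have h1 := hM.lim (j - 1) (m - 1) ζ hζ
    have e : j - 1 + (m - 1) = j + m - 2 := by ring
    rw [e] at h1
    exact h1

end U3


end

section

/-!
FOUB: the four-jet integrals without equidistribution.
-/

open Complex MeasureTheory Filter Topology Set
open scoped ContDiff

namespace U3

open QE QJ

namespace FOUB

/-- the null sequences -/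
def nul : Submodule ℂ (ℕ → ℂ) where
  carrier := {f | Tendsto f atTop (𝓝 0)}
  add_mem' := by
    intro f g hf hg
    have h1 := Tendsto.add hf hg
    rw [add_zero] at h1
    exact h1
  zero_mem' := by
    exact tendsto_const_nhds
  smul_mem' := by
    intro c f hf
    have h1 := Tendsto.const_mul c hf
    rw [mul_zero] at h1
    exact h1

theorem mem_nul (f : ℕ → ℂ) : f ∈ nul ↔ Tendsto f atTop (𝓝 0) := Iff.rfl

theorem E4_ab (σ : ℂ → ℝ) (h : ℕ → ℝ) (φ : ℕ → ℂ → ℂ) (ζ : ℂ → ℂ) (a b c d : ℤ) (n : ℕ) :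
    E4 σ h φ ζ b a c d n = E4 σ h φ ζ a b c d n := by
  unfold E4
  congr 1
  funext z
  ring

theorem E4_bc (σ : ℂ → ℝ) (h : ℕ → ℝ) (φ : ℕ → ℂ → ℂ) (ζ : ℂ → ℂ) (a b c d : ℤ) (n : ℕ) :
    E4 σ h φ ζ a c b d n = E4 σ h φ ζ a b c d n := by
  unfold E4
  congr 1
  funext z
  ring

theorem E4_cd (σ : ℂ → ℝ) (h : ℕ → ℝ) (φ : ℕ → ℂ → ℂ) (ζ : ℂ → ℂ) (a b c d : ℤ) (n : ℕ) :
    E4 σ h φ ζ a b d c n = E4 σ h φ ζ a b c d n := by
  unfold E4
  congr 1
  funext z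
  ring

/-- the sign `(-1)^k` -/
theorem sg_add (j k : ℤ) : (-1 : ℂ) ^ (j + k) = (-1) ^ j * (-1) ^ k :=
  zpow_add₀ (by norm_num) j k

theorem sg_add_one (j : ℤ) : (-1 : ℂ) ^ (j + 1) = - (-1) ^ j := by
  rw [sg_add, zpow_one]
  ring

theorem sg_sub_one (j : ℤ) : (-1 : ℂ) ^ (j - 1) = - (-1) ^ j := by
  have h := sg_add_one (j - 1)
  rw [sub_add_cancel] at h
  rw [h, neg_neg]

/-- signs of integers with even difference agree -/
theorem sg_even (j k : ℤ) (h : Even (j + k)) : (-1 : ℂ) ^ j = (-1) ^ k := by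
  rcases Int.even_or_odd j with hj | hj
  · have hk : Even k := by
      have := Int.even_add.1 h
      exact this.1 hj
    rw [hj.neg_one_zpow, hk.neg_one_zpow]
  · have hk : Odd k := by
      have h1 := Int.even_add.1 h
      rcases Int.even_or_odd k with he | ho
      · exact absurd (h1.2 he) (Int.not_even_iff_odd.2 hj)
      · exact ho
    rw [hj.neg_one_zpow, hk.neg_one_zpow]

theorem wkp_ab (P : ℤ → ℂ → ℂ) (a b c d : ℤ) (z : ℂ) (h : Odd (a + b) → P (a + b) z = 0) :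
    wkp P b a c d z = wkp P a b c d z := by
  unfold wkp
  rw [add_comm b a]
  rcases Int.even_or_odd (a + b) with he | ho
  · have h1 : (-1 : ℂ) ^ (a + d) = (-1) ^ (b + d) := by
      rw [sg_add, sg_add, sg_even a b he]
    rw [h1]
    ring
  · rw [h ho]
    ring

theorem wkp_bc (P : ℤ → ℂ → ℂ) (a b c d : ℤ) (z : ℂ) (h : Odd (b + c) → P (b + c) z = 0) :
    wkp P a c b d z = wkp P a b c d z := by
  unfold wkp
  rw [add_comm c b]
  rcases Int.even_or_odd (b + c) with he | ho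
  · have h1 : (-1 : ℂ) ^ (b + d) = (-1) ^ (c + d) := by
      rw [sg_add, sg_add, sg_even b c he]
    rw [h1]
    ring
  · rw [h ho]
    ring

theorem wkp_cd (P : ℤ → ℂ → ℂ) (a b c d : ℤ) (z : ℂ) (h : Odd (c + d) → P (c + d) z = 0) :
    wkp P a b d c z = wkp P a b c d z := by
  unfold wkp
  rw [add_comm d c]
  rcases Int.even_or_odd (c + d) with he | ho
  · have h1 : (-1 : ℂ) ^ (b + c) = (-1) ^ (b + d) := by
      rw [sg_add, sg_add, sg_even c d he]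
    rw [h1]
    ring
  · rw [h ho]
    ring

theorem wkp_second (P : ℤ → ℂ → ℂ) (a b c d : ℤ) (z : ℂ) :
    wkp P (a + 1) (b + 1) (c - 1) (d - 1) z + wkp P (a - 1) (b - 1) (c + 1) (d + 1) z
        - 2 * wkp P a b c d z
      = ((-1) ^ (b + 1) * P (a + b + 2) z) * ((-1) ^ (d - 1) * P (c + d - 2) z)
        + ((-1) ^ (b - 1) * P (a + b - 2) z) * ((-1) ^ (d + 1) * P (c + d + 2) z)
        - 2 * (((-1) ^ b * P (a + b) z) * ((-1) ^ d * P (c + d) z)) := by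
  unfold wkp
  have e1 : (a + 1) + (b + 1) = a + b + 2 := by ring
  have e2 : (c - 1) + (d - 1) = c + d - 2 := by ring
  have e3 : (a - 1) + (b - 1) = a + b - 2 := by ring
  have e4 : (c + 1) + (d + 1) = c + d + 2 := by ring
  have e5 : (a + 1) + (c - 1) = a + c := by ring
  have e6 : (b + 1) + (d - 1) = b + d := by ring
  have e7 : (a + 1) + (d - 1) = a + d := by ring
  have e8 : (b + 1) + (c - 1) = b + c := by ring
  have e9 : (a - 1) + (c + 1) = a + c := by ring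
  have e10 : (b - 1) + (d + 1) = b + d := by ring
  have e11 : (a - 1) + (d + 1) = a + d := by ring
  have e12 : (b - 1) + (c + 1) = b + c := by ring
  have s1 : (-1 : ℂ) ^ (c + d - 2) = (-1) ^ (c + d) := by
    have h : c + d - 2 = (c + d - 1) - 1 := by ring
    rw [h, sg_sub_one, sg_sub_one, neg_neg]
  have s2 : (-1 : ℂ) ^ (c + d + 2) = (-1) ^ (c + d) := by
    have h : c + d + 2 = (c + d + 1) + 1 := by ring
    rw [h, sg_add_one, sg_add_one, neg_neg]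
  rw [e1, e2, e3, e4, e5, e6, e7, e8, e9, e10, e11, e12, s1, s2, sg_add_one b, sg_sub_one b,
    sg_add_one d, sg_sub_one d, sg_add b d]
  ring

theorem wkp_first (P : ℤ → ℂ → ℂ) (a b c d : ℤ) (z : ℂ) :
    wkp P (a + 1) b c d z + wkp P a (b + 1) c d z + wkp P a b (c + 1) d z
      + wkp P a b c (d + 1) z = 0 := by
  unfold wkp
  have e1 : (a + 1) + b = a + b + 1 := by ring
  have e2 : a + (b + 1) = a + b + 1 := by ring
  have e3 : (c + 1) + d = c + d + 1 := by ring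
  have e4 : c + (d + 1) = c + d + 1 := by ring
  have e5 : (a + 1) + c = a + c + 1 := by ring
  have e6 : a + (c + 1) = a + c + 1 := by ring
  have e7 : (b + 1) + d = b + d + 1 := by ring
  have e8 : b + (d + 1) = b + d + 1 := by ring
  have e9 : (a + 1) + d = a + d + 1 := by ring
  have e10 : a + (d + 1) = a + d + 1 := by ring
  have e11 : (b + 1) + c = b + c + 1 := by ring
  have e12 : b + (c + 1) = b + c + 1 := by ring
  rw [e1, e2, e3, e4, e5, e6, e7, e8, e9, e10, e11, e12, sg_add_one (b + d), sg_add_one (c + d)]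
  ring

theorem int2 {f g : ℂ → ℂ} (hf : Integrable f) (hg : Integrable g) :
    ∫ z, (f z + g z) = (∫ z, f z) + ∫ z, g z := integral_add hf hg

theorem int2s {f g : ℂ → ℂ} (hf : Integrable f) (hg : Integrable g) :
    ∫ z, (f z - g z) = (∫ z, f z) - ∫ z, g z := integral_sub hf hg

theorem cont_wkp {P : ℤ → ℂ → ℂ} (hP : ∀ k, Continuous (P k)) (a b c d : ℤ) :
    Continuous (wkp P a b c d) := by
  unfold wkp
  have h : ∀ j k : ℤ, Continuous fun z => P j z * P k z := fun j k => (hP j).mul (hP k)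
  exact ((continuous_const.mul (h _ _)).add (continuous_const.mul (h _ _))).add
    (continuous_const.mul (h _ _))

theorem int4 {f₁ f₂ f₃ f₄ : ℂ → ℂ} (h₁ : Integrable f₁) (h₂ : Integrable f₂) (h₃ : Integrable f₃)
    (h₄ : Integrable f₄) :
    (∫ z, f₁ z) + (∫ z, f₂ z) + (∫ z, f₃ z) + (∫ z, f₄ z)
      = ∫ z, (f₁ z + f₂ z + f₃ z + f₄ z) := by
  have k1 := integral_add h₁ h₂
  have k2 := integral_add (h₁.add h₂) h₃
  have k3 := integral_add ((h₁.add h₂).add h₃) h₄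
  simp only [Pi.add_apply] at k1 k2 k3
  rw [k3, k2, k1]

theorem int3 {f₁ f₂ f₃ : ℂ → ℂ} (h₁ : Integrable f₁) (h₂ : Integrable f₂) (h₃ : Integrable f₃) :
    (∫ z, f₁ z) + (∫ z, f₂ z) - 2 * (∫ z, f₃ z) = ∫ z, (f₁ z + f₂ z - 2 * f₃ z) := by
  have k1 := integral_add h₁ h₂
  have k2 := integral_sub (h₁.add h₂) (h₃.const_mul 2)
  have k3 := integral_const_mul (μ := volume) (2 : ℂ) f₃
  simp only [Pi.add_apply] at k1 k2
  rw [k2, k1, k3]

theorem tmul {V : Set ℂ} {ζ : ℂ → ℂ} (hζ : Test V ζ) {f g : ℂ → ℂ} (hf : Continuous f)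
    (hg : Continuous g) : Integrable fun z => ζ z * (f z * g z) :=
  test_int hζ (hf.mul hg)

/-- the bilinear form of the triples -/
theorem split {V : Set ℂ} {ζ : ℂ → ℂ} (hζ : Test V ζ) {QA QB QC QA' QB' QC' PA PB PC PA' PB' PC' :
    ℂ → ℂ} (h1 : Continuous QA) (h2 : Continuous QB) (h3 : Continuous QC) (h4 : Continuous QA')
    (h5 : Continuous QB') (h6 : Continuous QC') (k1 : Continuous PA) (k2 : Continuous PB)
    (k3 : Continuous PC) (k4 : Continuous PA') (k5 : Continuous PB') (k6 : Continuous PC') :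
    (∫ z, ζ z * ((QA z - PA z) * QC' z + (QC z - PC z) * QA' z - 2 * ((QB z - PB z) * QB' z)))
      + (∫ z, ζ z * (PA z * (QC' z - PC' z) + PC z * (QA' z - PA' z)
        - 2 * (PB z * (QB' z - PB' z))))
      = ((∫ z, ζ z * (QA z * QC' z)) + (∫ z, ζ z * (QC z * QA' z))
          - 2 * (∫ z, ζ z * (QB z * QB' z)))
        - ((∫ z, ζ z * (PA z * PC' z)) + (∫ z, ζ z * (PC z * PA' z))
          - 2 * (∫ z, ζ z * (PB z * PB' z))) := by
  have i1 := tmul hζ h1 h6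
  have i2 := tmul hζ h3 h4
  have i3 := tmul hζ h2 h5
  have j1 := tmul hζ k1 k6
  have j2 := tmul hζ k3 k4
  have j3 := tmul hζ k2 k5
  have m1 : Integrable fun z => ζ z * ((QA z - PA z) * QC' z + (QC z - PC z) * QA' z
      - 2 * ((QB z - PB z) * QB' z)) :=
    test_int hζ ((((h1.sub k1).mul h6).add ((h3.sub k3).mul h4)).sub
      (continuous_const.mul ((h2.sub k2).mul h5)))
  have m2 : Integrable fun z => ζ z * (PA z * (QC' z - PC' z) + PC z * (QA' z - PA' z)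
        - 2 * (PB z * (QB' z - PB' z))) :=
    test_int hζ (((k1.mul (h6.sub k6)).add (k3.mul (h4.sub k4))).sub
      (continuous_const.mul (k2.mul (h5.sub k5))))
  have m3 : Integrable fun z => ζ z * (QA z * QC' z) + ζ z * (QC z * QA' z)
      - 2 * (ζ z * (QB z * QB' z)) := (i1.add i2).sub (i3.const_mul 2)
  have m4 : Integrable fun z => ζ z * (PA z * PC' z) + ζ z * (PC z * PA' z)
      - 2 * (ζ z * (PB z * PB' z)) := (j1.add j2).sub (j3.const_mul 2)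
  rw [int3 i1 i2 i3, int3 j1 j2 j3, ← int2 m1 m2, ← int2s m3 m4]
  refine integral_congr_ae (Eventually.of_forall fun z => ?_)
  ring

theorem castB {V : Set ℂ} {σ : ℂ → ℝ} {N N' : ℤ} {A B C : ℕ → ℂ → ℂ} (h : N = N')
    (t : TripB V σ N A B C) : TripB V σ N' A B C := by
  subst h
  exact t

theorem castZ {V : Set ℂ} {σ : ℂ → ℝ} {N N' : ℤ} {A B C : ℕ → ℂ → ℂ} (h : N = N')
    (t : TripZ V σ N A B C) : TripZ V σ N' A B C := by
  subst h
  exact t

end FOUB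

open _root_.U3.FOUB in
/-- FOUB: the four-jet integrals -/
theorem stmtFouB (hIfoB : StmtIfoB) (hNf : StmtNf) (hTriQ : StmtTriQ) (hTriP : StmtTriP)
    (hTriD : StmtTriD) (hDir : StmtDir) (hPeO : StmtPeO) (hAlf : QJ.StmtAlf) : StmtFouB := by
  intro β V σ h φ Ω _ μ p u ε hβ hL hM hε hε0 ζ hζ a b c d habcd
  have hD := hDir V σ h φ Ω μ p u hL hM
  have hεr : Tendsto ε atTop (𝓝[>] (0 : ℝ)) :=
    tendsto_nhdsWithin_iff.2 ⟨hε0, Eventually.of_forall hε⟩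
  -- smoothness of the mollified moments
  have hPc : ∀ n k, Continuous (pe β σ (ε n) μ p u k) := by
    intro n k
    have h1 := (hTriP β V σ Ω μ p u ε k 0 hβ hL.op hL.sm hD hε hε0).sB n
    have h2 : (fun z => (-1 : ℂ) ^ (0 : ℤ) * pe β σ (ε n) μ p u (k + 0) z)
        = pe β σ (ε n) μ p u k := by
      funext z
      rw [zpow_zero, one_mul, add_zero]
    rw [h2] at h1
    exact h1.continuous
  have hodd : ∀ k : ℤ, ∀ᶠ n in atTop, ∀ z ∈ tsupport ζ, Odd k → pe β σ (ε n) μ p u k z = 0 := by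
    intro k
    by_cases hk : Odd k
    · have h1 := hεr.eventually (hPeO β V σ Ω μ p u k hβ hL.op hL.sm hD hk (tsupport ζ) hζ.supp hζ.sub)
      filter_upwards [h1] with n hn z hz _
      exact hn z hz
    · exact Eventually.of_forall fun n z _ hk' => absurd hk' hk
  let g : ℤ → ℤ → ℤ → ℤ → ℕ → ℂ := fun a b c d n => E4 σ h φ ζ a b c d n
    - ∫ z, ζ z * wkp (pe β σ (ε n) μ p u) a b c d z
  let e : ℤ → ℤ → ℤ → ℤ → (ℕ → ℂ) ⧸ nul := fun a b c d => Submodule.Quotient.mk (g a b c d)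
  -- integrals of functions which agree on the support
  have hcongr : ∀ f₁ f₂ : ℕ → ℂ → ℂ, (∀ᶠ n in atTop, ∀ z ∈ tsupport ζ, f₁ n z = f₂ n z) →
      ∀ᶠ n in atTop, ∫ z, ζ z * f₁ n z = ∫ z, ζ z * f₂ n z := by
    intro f₁ f₂ hf
    filter_upwards [hf] with n hn
    refine integral_congr_ae (Eventually.of_forall fun z => ?_)
    by_cases hz : z ∈ tsupport ζ
    · simp only [hn z hz]
    · simp only [image_eq_zero_of_notMem_tsupport hz, zero_mul]
  have key := hAlf ((ℕ → ℂ) ⧸ nul) e ?_ ?_ ?_ ?_ ?_ a b c d habcd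
  · have h1 : e a b c d = Submodule.Quotient.mk (cl4 a b c d • g 0 0 0 0) := by
      rw [key]; rfl
    have h2 : g a b c d - cl4 a b c d • g 0 0 0 0 ∈ nul := (Submodule.Quotient.eq nul).1 h1
    rw [mem_nul] at h2
    refine h2.congr (fun n => ?_)
    simp only [g, Pi.sub_apply, Pi.smul_apply, smul_eq_mul]
    ring
  · intro a b c d
    refine (Submodule.Quotient.eq nul).2 ?_
    rw [mem_nul]
    refine (tendsto_congr' ?_).2 tendsto_const_nhds
    filter_upwards [hcongr (fun n => wkp (pe β σ (ε n) μ p u) b a c d)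
      (fun n => wkp (pe β σ (ε n) μ p u) a b c d) (by
        filter_upwards [hodd (a + b)] with n hn z hz
        exact wkp_ab _ a b c d z (hn z hz))] with n hn
    simp only [g, Pi.sub_apply, E4_ab σ h φ ζ a b c d, hn, sub_self]
  · intro a b c d
    refine (Submodule.Quotient.eq nul).2 ?_
    rw [mem_nul]
    refine (tendsto_congr' ?_).2 tendsto_const_nhds
    filter_upwards [hcongr (fun n => wkp (pe β σ (ε n) μ p u) a c b d)
      (fun n => wkp (pe β σ (ε n) μ p u) a b c d) (by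
        filter_upwards [hodd (b + c)] with n hn z hz
        exact wkp_bc _ a b c d z (hn z hz))] with n hn
    simp only [g, Pi.sub_apply, E4_bc σ h φ ζ a b c d, hn, sub_self]
  · intro a b c d
    refine (Submodule.Quotient.eq nul).2 ?_
    rw [mem_nul]
    refine (tendsto_congr' ?_).2 tendsto_const_nhds
    filter_upwards [hcongr (fun n => wkp (pe β σ (ε n) μ p u) a b d c)
      (fun n => wkp (pe β σ (ε n) μ p u) a b c d) (by
        filter_upwards [hodd (c + d)] with n hn z hz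
        exact wkp_cd _ a b c d z (hn z hz))] with n hn
    simp only [g, Pi.sub_apply, E4_cd σ h φ ζ a b c d, hn, sub_self]
  · intro a b c d hs
    have h1 : e (a + 1) (b + 1) (c - 1) (d - 1) + e (a - 1) (b - 1) (c + 1) (d + 1)
        = Submodule.Quotient.mk (g (a + 1) (b + 1) (c - 1) (d - 1)
          + g (a - 1) (b - 1) (c + 1) (d + 1)) := rfl
    have h2 : (2 : ℂ) • e a b c d = Submodule.Quotient.mk ((2 : ℂ) • g a b c d) := rfl
    rw [h1, h2]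
    refine (Submodule.Quotient.eq nul).2 ?_
    rw [mem_nul]
    have hcd : c + d = -(a + b) := by omega
    have TQ := hTriQ V σ h φ hL a b
    have TQ' := hTriQ V σ h φ hL c d
    have TP := hTriP β V σ Ω μ p u ε a b hβ hL.op hL.sm hD hε hε0
    have TP' := hTriP β V σ Ω μ p u ε c d hβ hL.op hL.sm hD hε hε0
    have TD := hTriD β V σ h φ Ω μ p u ε a b hβ hL hM hε hε0
    have TD' := hTriD β V σ h φ Ω μ p u ε c d hβ hL hM hε hε0
    have n1 := (hNf V σ (a + b) _ _ _ _ _ _ hL.op hL.sm TD.toTripB (castB hcd TQ') ζ hζ).1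
      (Or.inl TD)
    have n2 := (hNf V σ (a + b) _ _ _ _ _ _ hL.op hL.sm TP (castZ hcd TD').toTripB ζ hζ).1
      (Or.inr (castZ hcd TD'))
    have n3 := n1.add n2
    rw [add_zero] at n3
    refine n3.congr (fun n => ?_)
    rw [split hζ (TQ.sA n).continuous (TQ.sB n).continuous (TQ.sC n).continuous
      (TQ'.sA n).continuous (TQ'.sB n).continuous (TQ'.sC n).continuous
      (TP.sA n).continuous (TP.sB n).continuous (TP.sC n).continuous
      (TP'.sA n).continuous (TP'.sB n).continuous (TP'.sC n).continuous]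
    have f1 : E4 σ h φ ζ (a + 1) (b + 1) (c - 1) (d - 1) n
        = ∫ z, ζ z * (E σ h φ (a + 1) n z * E σ h φ (b + 1) n z
          * (E σ h φ (c - 1) n z * E σ h φ (d - 1) n z)) :=
      integral_congr_ae (Eventually.of_forall fun z => by ring)
    have f2 : E4 σ h φ ζ (a - 1) (b - 1) (c + 1) (d + 1) n
        = ∫ z, ζ z * (E σ h φ (a - 1) n z * E σ h φ (b - 1) n z
          * (E σ h φ (c + 1) n z * E σ h φ (d + 1) n z)) :=
      integral_congr_ae (Eventually.of_forall fun z => by ring)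
    have f3 : E4 σ h φ ζ a b c d n
        = ∫ z, ζ z * (E σ h φ a n z * E σ h φ b n z
          * (E σ h φ c n z * E σ h φ d n z)) :=
      integral_congr_ae (Eventually.of_forall fun z => by ring)
    have i1 : ∀ a b c d : ℤ, Integrable fun z => ζ z * wkp (pe β σ (ε n) μ p u) a b c d z :=
      fun a b c d => test_int hζ (cont_wkp (hPc n) a b c d)
    have f4 : (∫ z, ζ z * (((-1) ^ (b + 1) * pe β σ (ε n) μ p u (a + b + 2) z)
            * ((-1) ^ (d - 1) * pe β σ (ε n) μ p u (c + d - 2) z)))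
        + (∫ z, ζ z * (((-1) ^ (b - 1) * pe β σ (ε n) μ p u (a + b - 2) z)
            * ((-1) ^ (d + 1) * pe β σ (ε n) μ p u (c + d + 2) z)))
        - 2 * (∫ z, ζ z * (((-1) ^ b * pe β σ (ε n) μ p u (a + b) z)
            * ((-1) ^ d * pe β σ (ε n) μ p u (c + d) z)))
        = (∫ z, ζ z * wkp (pe β σ (ε n) μ p u) (a + 1) (b + 1) (c - 1) (d - 1) z)
          + (∫ z, ζ z * wkp (pe β σ (ε n) μ p u) (a - 1) (b - 1) (c + 1) (d + 1) z)
          - 2 * (∫ z, ζ z * wkp (pe β σ (ε n) μ p u) a b c d z) := by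
      rw [int3 (i1 _ _ _ _) (i1 _ _ _ _) (i1 _ _ _ _),
        int3 (tmul hζ (TP.sA n).continuous (TP'.sC n).continuous)
          (tmul hζ (TP.sC n).continuous (TP'.sA n).continuous)
          (tmul hζ (TP.sB n).continuous (TP'.sB n).continuous)]
      refine integral_congr_ae (Eventually.of_forall fun z => ?_)
      have h6 := wkp_second (pe β σ (ε n) μ p u) a b c d z
      simp only
      linear_combination (- ζ z) * h6
    rw [f4, ← f1, ← f2, ← f3]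
    simp only [g, Pi.add_apply, Pi.sub_apply, Pi.smul_apply, smul_eq_mul]
    ring
  · intro a b c d hs
    have h1 : e (a + 1) b c d + e a (b + 1) c d + e a b (c + 1) d + e a b c (d + 1)
        = Submodule.Quotient.mk (g (a + 1) b c d + g a (b + 1) c d + g a b (c + 1) d
          + g a b c (d + 1)) := rfl
    rw [h1]
    refine (Submodule.Quotient.mk_eq_zero nul).2 ?_
    rw [mem_nul]
    refine ((hIfoB V σ h φ hL ζ hζ).1 a b c d).congr (fun n => ?_)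
    simp only [g, Pi.add_apply]
    have i1 : ∀ a b c d : ℤ, Integrable fun z => ζ z * wkp (pe β σ (ε n) μ p u) a b c d z :=
      fun a b c d => test_int hζ (cont_wkp (hPc n) a b c d)
    have h5 : (∫ z, ζ z * wkp (pe β σ (ε n) μ p u) (a + 1) b c d z)
        + (∫ z, ζ z * wkp (pe β σ (ε n) μ p u) a (b + 1) c d z)
        + (∫ z, ζ z * wkp (pe β σ (ε n) μ p u) a b (c + 1) d z)
        + (∫ z, ζ z * wkp (pe β σ (ε n) μ p u) a b c (d + 1) z) = 0 := by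
      rw [int4 (i1 _ _ _ _) (i1 _ _ _ _) (i1 _ _ _ _) (i1 _ _ _ _)]
      rw [← integral_zero ℂ ℂ (μ := volume)]
      refine integral_congr_ae (Eventually.of_forall fun z => ?_)
      have h6 := wkp_first (pe β σ (ε n) μ p u) a b c d z
      simp only
      linear_combination ζ z * h6
    linear_combination h5

end U3


end

section

/-!
The bound of the kernel of the cubic argument (StmtFir).
-/

open Complex MeasureTheory Filter Topology Set
open scoped ContDiff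

namespace U3

open QE QJ

noncomputable section

namespace FIR

lemma w3_eq : w3 = Complex.exp (((2 * Real.pi / 3 : ℝ) : ℂ) * Complex.I) := by
  unfold w3
  congr 1
  push_cast
  ring

lemma w3_norm : ‖w3‖ = 1 := by
  rw [w3_eq]; exact Complex.norm_exp_ofReal_mul_I _

lemma w3_re : w3.re = -(1 / 2) := by
  rw [w3_eq, Complex.exp_ofReal_mul_I_re]
  have : (2 * Real.pi / 3 : ℝ) = Real.pi - Real.pi / 3 := by ring
  rw [this, Real.cos_pi_sub, Real.cos_pi_div_three]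

lemma w3_cube : w3 ^ 3 = 1 := by
  unfold w3
  rw [← Complex.exp_nat_mul]
  have : ((3 : ℕ) : ℂ) * (2 * Real.pi * Complex.I / 3) = 2 * Real.pi * Complex.I := by
    push_cast
    ring
  rw [this, Complex.exp_two_pi_mul_I]

lemma cw3_norm : ‖(starRingEnd ℂ) w3‖ = 1 := by
  rw [Complex.norm_conj, w3_norm]

lemma cw3_re : ((starRingEnd ℂ) w3).re = -(1 / 2) := by
  rw [Complex.conj_re, w3_re]

lemma cw3_mul : (starRingEnd ℂ) w3 * w3 = 1 := by
  rw [Complex.conj_mul', w3_norm]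
  simp

lemma cw3_cube : ((starRingEnd ℂ) w3) ^ 3 = 1 := by
  rw [← map_pow, w3_cube, map_one]

lemma cw3_eq : (starRingEnd ℂ) w3 = w3 ^ 2 := by
  have h := cw3_mul
  have h3 := w3_cube
  calc (starRingEnd ℂ) w3 = (starRingEnd ℂ) w3 * w3 ^ 3 := by rw [h3, mul_one]
    _ = ((starRingEnd ℂ) w3 * w3) * w3 ^ 2 := by ring
    _ = w3 ^ 2 := by rw [h, one_mul]

lemma far {x : ℂ} (hx : x.re = -(1 / 2)) : 3 / 2 ≤ ‖x - 1‖ := by
  have h := Complex.abs_re_le_norm (x - 1)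
  rw [Complex.sub_re, Complex.one_re, hx] at h
  have : |(-(1 / 2) : ℝ) - 1| = 3 / 2 := by
    rw [abs_of_neg (by norm_num)]; norm_num
  rw [this] at h
  exact h

/-- a point close to one, rotated by a far rotation, is far from one -/
lemma far_mul {x a : ℂ} {η : ℝ} (hx : x.re = -(1 / 2)) (hn : ‖x‖ = 1) (ha : ‖a - 1‖ < η)
    (hη : η ≤ 1 / 10) : 1 ≤ ‖x * a - 1‖ := by
  have h1 := far hx
  have h2 : ‖x - 1‖ ≤ ‖x * a - 1‖ + ‖x * (a - 1)‖ := by
    have : x - 1 = (x * a - 1) - x * (a - 1) := by ring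
    calc ‖x - 1‖ = ‖(x * a - 1) - x * (a - 1)‖ := by rw [← this]
      _ ≤ _ := norm_sub_le _ _
  rw [norm_mul, hn, one_mul] at h2
  linarith only [ha, hη, h1, h2]

lemma far_mul2 {x a : ℂ} {η : ℝ} (hx : x.re = -(1 / 2)) (hn : ‖x‖ = 1) (ha : ‖a - 1‖ < η)
    (ha1 : ‖a‖ = 1) (hη : η ≤ 1 / 10) : 1 ≤ ‖x * a ^ 2 - 1‖ := by
  have h1 := far hx
  have h2 : ‖x - 1‖ ≤ ‖x * a ^ 2 - 1‖ + ‖x * ((a - 1) * (a + 1))‖ := by
    have : x - 1 = (x * a ^ 2 - 1) - x * ((a - 1) * (a + 1)) := by ring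
    calc ‖x - 1‖ = ‖(x * a ^ 2 - 1) - x * ((a - 1) * (a + 1))‖ := by rw [← this]
      _ ≤ _ := norm_sub_le _ _
  have h3 : ‖a + 1‖ ≤ 2 := by
    calc ‖a + 1‖ ≤ ‖a‖ + ‖(1 : ℂ)‖ := norm_add_le _ _
      _ = 2 := by rw [ha1, norm_one]; norm_num
  rw [norm_mul, hn, one_mul, norm_mul] at h2
  have h4 : ‖a - 1‖ * ‖a + 1‖ ≤ (1 / 10) * 2 :=
    mul_le_mul (by linarith only [ha, hη]) h3 (norm_nonneg _) (by norm_num)
  linarith

lemma GM_le (M : ℕ) {x : ℂ} (hx : ‖x‖ = 1) : ‖GM M x‖ ≤ M := by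
  unfold GM
  calc ‖∑ b ∈ Finset.range M, x ^ b‖ ≤ ∑ b ∈ Finset.range M, ‖x ^ b‖ := norm_sum_le _ _
    _ = ∑ b ∈ Finset.range M, (1 : ℝ) := by
        refine Finset.sum_congr rfl fun b _ => ?_
        rw [norm_pow, hx, one_pow]
    _ = M := by simp

lemma GM_mul (M : ℕ) (x : ℂ) : GM M x * (x - 1) = x ^ M - 1 := geom_sum_mul x M

lemma GM_le_div (M : ℕ) {x : ℂ} {c L : ℝ} (hc : 0 < c) (hx : c ≤ ‖x - 1‖)
    (hL : ‖x ^ M - 1‖ ≤ L) : ‖GM M x‖ ≤ L / c := by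
  have h := GM_mul M x
  have h1 : ‖GM M x‖ * ‖x - 1‖ = ‖x ^ M - 1‖ := by rw [← norm_mul, h]
  rw [le_div_iff₀ hc]
  calc ‖GM M x‖ * c ≤ ‖GM M x‖ * ‖x - 1‖ := mul_le_mul_of_nonneg_left hx (norm_nonneg _)
    _ = ‖x ^ M - 1‖ := h1
    _ ≤ L := hL

lemma pow_sub_le_two {x : ℂ} (hx : ‖x‖ = 1) (M : ℕ) : ‖x ^ M - 1‖ ≤ 2 := by
  calc ‖x ^ M - 1‖ ≤ ‖x ^ M‖ + ‖(1 : ℂ)‖ := norm_sub_le _ _
    _ = 2 := by rw [norm_pow, hx, one_pow, norm_one]; norm_num

lemma pow_sub_le {t : ℂ} (ht : ‖t‖ = 1) {M : ℕ} (hM : 2 ∣ M) :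
    ‖t ^ M - 1‖ ≤ (M : ℝ) / 2 * ‖t ^ 2 - 1‖ := by
  obtain ⟨m, rfl⟩ := hM
  have h : t ^ (2 * m) - 1 = GM m (t ^ 2) * (t ^ 2 - 1) := by
    rw [GM_mul, pow_mul]
  have h2 : ‖t ^ 2‖ = 1 := by rw [norm_pow, ht, one_pow]
  rw [h, norm_mul]
  have h3 := GM_le m h2
  push_cast
  have : (2 * (m : ℝ)) / 2 = m := by ring
  rw [this]
  exact mul_le_mul_of_nonneg_right h3 (norm_nonneg _)

lemma pow_eq {x t : ℂ} (hx : x ^ 3 = 1) {M : ℕ} (hM : 3 ∣ M) : (x * t) ^ M = t ^ M := by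
  obtain ⟨m, rfl⟩ := hM
  rw [mul_pow, pow_mul x 3 m, hx, one_pow, one_mul]

end FIR

open _root_.U3.FIR in
theorem stmtFir : StmtFir := by
  intro η hη hη1
  refine ⟨2 / η ^ 4 + 8, by positivity, ?_⟩
  intro M h6 hM0 t ht
  have h2 : 2 ∣ M := dvd_trans (by norm_num) h6
  have h3 : 3 ∣ M := dvd_trans (by norm_num) h6
  set a : ℂ := w3 * t with ha
  set b : ℂ := (starRingEnd ℂ) w3 * t with hb
  have hna : ‖a‖ = 1 := by rw [ha, norm_mul, w3_norm, ht, one_mul]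
  have hnb : ‖b‖ = 1 := by rw [hb, norm_mul, cw3_norm, ht, one_mul]
  have hpa : a ^ M = t ^ M := pow_eq w3_cube h3
  have hpb : b ^ M = t ^ M := pow_eq cw3_cube h3
  set L : ℝ := ‖t ^ M - 1‖ with hL
  set s : ℝ := ‖t ^ 2 - 1‖ with hs
  have hL0 : 0 ≤ L := norm_nonneg _
  have hs0 : 0 ≤ s := norm_nonneg _
  have hL2 : L ≤ 2 := pow_sub_le_two ht M
  have hLs : L ≤ (M : ℝ) / 2 * s := pow_sub_le ht h2
  have hM1 : (1 : ℝ) ≤ M := by exact_mod_cast hM0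
  have hL4 : L ^ 4 ≤ (M : ℝ) ^ 2 * s ^ 2 := by
    have h1 : L ^ 2 ≤ 4 := by nlinarith
    have h4 : L ^ 2 ≤ ((M : ℝ) / 2 * s) ^ 2 := pow_le_pow_left₀ hL0 hLs 2
    calc L ^ 4 = L ^ 2 * L ^ 2 := by ring
      _ ≤ 4 * ((M : ℝ) / 2 * s) ^ 2 := mul_le_mul h1 h4 (by positivity) (by norm_num)
      _ = (M : ℝ) ^ 2 * s ^ 2 := by ring
  have hLa : ‖a ^ M - 1‖ ≤ L := by rw [hpa]
  have hLb : ‖b ^ M - 1‖ ≤ L := by rw [hpb]
  have hGa := GM_le M hna
  have hGb := GM_le M hnb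
  have hGt := GM_le M ht
  -- the two terms
  have hFM : ‖FM M t‖ ≤ M * ‖GM M a‖ ^ 4 + ‖GM M a‖ ^ 2 * ‖GM M b‖ ^ 2 * ‖GM M t‖ := by
    unfold FM
    refine (norm_add_le _ _).trans ?_
    apply le_of_eq
    rw [norm_mul, norm_mul, Complex.norm_conj, norm_mul, norm_mul, norm_pow, norm_pow,
      Complex.norm_natCast]
    ring
  -- first term
  have hT1 : (M : ℝ) * ‖GM M a‖ ^ 4 ≤ s ^ 2 * ((1 / η ^ 4) * (M : ℝ) ^ 3 +
      (if ‖a - 1‖ < η then (M : ℝ) ^ 5 else 0)) := by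
    split_ifs with hc
    · have h1 : ‖GM M a‖ ^ 4 ≤ (M : ℝ) ^ 4 := pow_le_pow_left₀ (norm_nonneg _) hGa 4
      have h4 : 1 ≤ s := by
        have hta : t ^ 2 = w3 * a ^ 2 := by
          rw [ha]
          have := w3_cube
          calc t ^ 2 = w3 ^ 3 * t ^ 2 := by rw [this, one_mul]
            _ = w3 * (w3 * t) ^ 2 := by ring
        rw [hs, hta]
        exact far_mul2 w3_re w3_norm hc hna hη1
      have h5 : (1 : ℝ) ≤ s ^ 2 := by nlinarith only [h4]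
      have h6 : (M : ℝ) * ‖GM M a‖ ^ 4 ≤ (M : ℝ) ^ 5 := by
        calc (M : ℝ) * ‖GM M a‖ ^ 4 ≤ M * (M : ℝ) ^ 4 :=
              mul_le_mul_of_nonneg_left h1 (by positivity)
          _ = (M : ℝ) ^ 5 := by ring
      have h7 : (0 : ℝ) ≤ 1 / η ^ 4 * (M : ℝ) ^ 3 := by positivity
      have h8 : (0 : ℝ) ≤ (M : ℝ) ^ 5 := by positivity
      nlinarith only [h6, h7, h5, h8]
    · have hc' : η ≤ ‖a - 1‖ := not_lt.mp hc
      have h1 : ‖GM M a‖ ≤ L / η := GM_le_div M hη hc' hLa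
      have h4 : ‖GM M a‖ ^ 4 ≤ (L / η) ^ 4 := pow_le_pow_left₀ (norm_nonneg _) h1 4
      have h5 : (L / η) ^ 4 = L ^ 4 * (1 / η ^ 4) := by
        rw [div_pow]; ring
      have h6 : (0 : ℝ) ≤ 1 / η ^ 4 := by positivity
      calc (M : ℝ) * ‖GM M a‖ ^ 4 ≤ M * (L ^ 4 * (1 / η ^ 4)) := by
            rw [← h5]; exact mul_le_mul_of_nonneg_left h4 (by positivity)
        _ ≤ M * (((M : ℝ) ^ 2 * s ^ 2) * (1 / η ^ 4)) :=
            mul_le_mul_of_nonneg_left (mul_le_mul_of_nonneg_right hL4 h6) (by positivity)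
        _ = s ^ 2 * (1 / η ^ 4 * (M : ℝ) ^ 3 + 0) := by ring
  -- second term
  have hT2 : ‖GM M a‖ ^ 2 * ‖GM M b‖ ^ 2 * ‖GM M t‖
      ≤ s ^ 2 * ((1 / η ^ 4 + 8) * (M : ℝ) ^ 3) := by
    have hM3 : (M : ℝ) ^ 2 ≤ (M : ℝ) ^ 3 := pow_le_pow_right₀ hM1 (by norm_num)
    by_cases hc : ‖a - 1‖ < η
    · have h4 : 1 ≤ s := by
        have hta : t ^ 2 = w3 * a ^ 2 := by
          rw [ha]
          have := w3_cube
          calc t ^ 2 = w3 ^ 3 * t ^ 2 := by rw [this, one_mul]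
            _ = w3 * (w3 * t) ^ 2 := by ring
        rw [hs, hta]
        exact far_mul2 w3_re w3_norm hc hna hη1
      have hb1 : 1 ≤ ‖b - 1‖ := by
        have hba : b = w3 * a := by
          rw [hb, ha, cw3_eq]; ring
        rw [hba]
        exact far_mul w3_re w3_norm hc hη1
      have ht1 : 1 ≤ ‖t - 1‖ := by
        have hta : t = (starRingEnd ℂ) w3 * a := by
          rw [ha, ← mul_assoc, cw3_mul, one_mul]
        rw [hta]
        exact far_mul cw3_re cw3_norm hc hη1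
      have hGb2 : ‖GM M b‖ ≤ 2 := by
        have := GM_le_div M one_pos hb1 (hLb.trans hL2)
        simpa using this
      have hGt2 : ‖GM M t‖ ≤ 2 := by
        have := GM_le_div M one_pos ht1 hL2
        simpa using this
      have h5 : (1 : ℝ) ≤ s ^ 2 := by nlinarith only [h4]
      have h6 : ‖GM M a‖ ^ 2 ≤ (M : ℝ) ^ 2 := pow_le_pow_left₀ (norm_nonneg _) hGa 2
      have h7 : ‖GM M b‖ ^ 2 ≤ (2 : ℝ) ^ 2 := pow_le_pow_left₀ (norm_nonneg _) hGb2 2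
      have h8 : ‖GM M a‖ ^ 2 * ‖GM M b‖ ^ 2 * ‖GM M t‖ ≤ (M : ℝ) ^ 2 * 2 ^ 2 * 2 :=
        mul_le_mul (mul_le_mul h6 h7 (by positivity) (by positivity)) hGt2 (norm_nonneg _)
          (by positivity)
      have h9 : (0 : ℝ) ≤ 1 / η ^ 4 * (M : ℝ) ^ 3 := by positivity
      have h10 : (0 : ℝ) ≤ (M : ℝ) ^ 3 := by positivity
      have h11 : 8 * (M : ℝ) ^ 3 ≤ (1 / η ^ 4 + 8) * (M : ℝ) ^ 3 := by linarith only [h9]
      have h12 : (1 / η ^ 4 + 8) * (M : ℝ) ^ 3 ≤ s ^ 2 * ((1 / η ^ 4 + 8) * (M : ℝ) ^ 3) := by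
        have : (0 : ℝ) ≤ (1 / η ^ 4 + 8) * (M : ℝ) ^ 3 := by positivity
        nlinarith only [h5, hM3, h9]
      linarith only [hM3, h8, h9, h12]
    · by_cases hd : ‖b - 1‖ < η
      · have h4 : 1 ≤ s := by
          have hta : t ^ 2 = (starRingEnd ℂ) w3 * b ^ 2 := by
            rw [hb]
            have := cw3_cube
            calc t ^ 2 = ((starRingEnd ℂ) w3) ^ 3 * t ^ 2 := by rw [this, one_mul]
              _ = (starRingEnd ℂ) w3 * ((starRingEnd ℂ) w3 * t) ^ 2 := by ring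
          rw [hs, hta]
          exact far_mul2 cw3_re cw3_norm hd hnb hη1
        have ha1 : 1 ≤ ‖a - 1‖ := by
          have hab : a = (starRingEnd ℂ) w3 * b := by
            rw [hb, ha, cw3_eq]
            have := w3_cube
            calc w3 * t = w3 ^ 3 * w3 * t := by rw [this, one_mul]
              _ = w3 ^ 2 * (w3 ^ 2 * t) := by ring
          rw [hab]
          exact far_mul cw3_re cw3_norm hd hη1
        have ht1 : 1 ≤ ‖t - 1‖ := by
          have hta : t = w3 * b := by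
            rw [hb, ← mul_assoc, mul_comm w3, cw3_mul, one_mul]
          rw [hta]
          exact far_mul w3_re w3_norm hd hη1
        have hGa2 : ‖GM M a‖ ≤ 2 := by
          have := GM_le_div M one_pos ha1 (hLa.trans hL2)
          simpa using this
        have hGt2 : ‖GM M t‖ ≤ 2 := by
          have := GM_le_div M one_pos ht1 hL2
          simpa using this
        have h5 : (1 : ℝ) ≤ s ^ 2 := by nlinarith only [h4]
        have h6 : ‖GM M b‖ ^ 2 ≤ (M : ℝ) ^ 2 := pow_le_pow_left₀ (norm_nonneg _) hGb 2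
        have h7 : ‖GM M a‖ ^ 2 ≤ (2 : ℝ) ^ 2 := pow_le_pow_left₀ (norm_nonneg _) hGa2 2
        have h8 : ‖GM M a‖ ^ 2 * ‖GM M b‖ ^ 2 * ‖GM M t‖ ≤ (2 : ℝ) ^ 2 * (M : ℝ) ^ 2 * 2 :=
          mul_le_mul (mul_le_mul h7 h6 (by (clear * -; positivity)) (by positivity)) hGt2 (norm_nonneg _)
            (by positivity)
        have h9 : (0 : ℝ) ≤ 1 / η ^ 4 * (M : ℝ) ^ 3 := by positivity
        have h11 : 8 * (M : ℝ) ^ 3 ≤ (1 / η ^ 4 + 8) * (M : ℝ) ^ 3 := by linarith only [h9]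
        have h12 : (1 / η ^ 4 + 8) * (M : ℝ) ^ 3 ≤ s ^ 2 * ((1 / η ^ 4 + 8) * (M : ℝ) ^ 3) := by
          have : (0 : ℝ) ≤ (1 / η ^ 4 + 8) * (M : ℝ) ^ 3 := by positivity
          nlinarith only [h5, hM3, h9]
        linarith only [hM3, h8, h9, h12]
      · have hca : η ≤ ‖a - 1‖ := not_lt.mp hc
        have hcb : η ≤ ‖b - 1‖ := not_lt.mp hd
        have h1 : ‖GM M a‖ ^ 2 ≤ (L / η) ^ 2 :=
          pow_le_pow_left₀ (norm_nonneg _) (GM_le_div M hη hca hLa) 2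
        have h4 : ‖GM M b‖ ^ 2 ≤ (L / η) ^ 2 :=
          pow_le_pow_left₀ (norm_nonneg _) (GM_le_div M hη hcb hLb) 2
        have h5 : (L / η) ^ 2 * (L / η) ^ 2 * M = L ^ 4 * (1 / η ^ 4) * M := by
          rw [div_pow]
          field_simp
        have h6 : (0 : ℝ) ≤ 1 / η ^ 4 := by positivity
        have h7 : (0 : ℝ) ≤ s ^ 2 * (8 * (M : ℝ) ^ 3) := by positivity
        calc ‖GM M a‖ ^ 2 * ‖GM M b‖ ^ 2 * ‖GM M t‖ ≤ (L / η) ^ 2 * (L / η) ^ 2 * M :=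
              mul_le_mul (mul_le_mul h1 h4 (by positivity) (by positivity)) hGt (norm_nonneg _)
                (by (clear * -; positivity))
          _ = L ^ 4 * (1 / η ^ 4) * M := h5
          _ ≤ ((M : ℝ) ^ 2 * s ^ 2) * (1 / η ^ 4) * M :=
              mul_le_mul_of_nonneg_right (mul_le_mul_of_nonneg_right hL4 h6) (by positivity)
          _ = s ^ 2 * (1 / η ^ 4 * (M : ℝ) ^ 3) := by ring
          _ ≤ s ^ 2 * (1 / η ^ 4 * (M : ℝ) ^ 3) + s ^ 2 * (8 * (M : ℝ) ^ 3) := by linarith only [h7]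
          _ = s ^ 2 * ((1 / η ^ 4 + 8) * (M : ℝ) ^ 3) := by ring
  calc ‖FM M t‖ ≤ M * ‖GM M a‖ ^ 4 + ‖GM M a‖ ^ 2 * ‖GM M b‖ ^ 2 * ‖GM M t‖ := hFM
    _ ≤ s ^ 2 * ((1 / η ^ 4) * (M : ℝ) ^ 3 + (if ‖a - 1‖ < η then (M : ℝ) ^ 5 else 0))
        + s ^ 2 * ((1 / η ^ 4 + 8) * (M : ℝ) ^ 3) := add_le_add hT1 hT2
    _ = s ^ 2 * ((2 / η ^ 4 + 8) * (M : ℝ) ^ 3 + (if ‖a - 1‖ < η then (M : ℝ) ^ 5 else 0)) := by
        ring

end

end U3


end

section

/-!
Third order statistics of all eigenfunctions on surfaces of negative curvature: the transversal part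
of the pairs is bounded.
-/

open Complex MeasureTheory Filter Topology Set
open scoped ContDiff

namespace U3

open QE QJ

theorem stmtJbd (hNf : StmtNf) (hTriP : StmtTriP) : StmtJbd := by
  intro β V σ Ω _ μ p u ε hβ hV hσ hD hε hε0 ζ hζ
  have h0 := hTriP β V σ Ω μ p u ε 0 0 hβ hV hσ hD hε hε0
  have h1 : TripB V σ (-((0 : ℤ) + 0))
      (fun n z => (-1) ^ ((0 : ℤ) + 1) * pe β σ (ε n) μ p u (0 + 0 + 2) z)
      (fun n z => (-1) ^ (0 : ℤ) * pe β σ (ε n) μ p u (0 + 0) z)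
      (fun n z => (-1) ^ ((0 : ℤ) - 1) * pe β σ (ε n) μ p u (0 + 0 - 2) z) := by
    have he : (-((0 : ℤ) + 0)) = 0 + 0 := by norm_num
    rw [he]
    exact h0
  obtain ⟨c, hc⟩ := (hNf V σ (0 + 0) _ _ _ _ _ _ hV hσ h0 h1 ζ hζ).2
  refine ⟨c, ?_⟩
  filter_upwards [hc] with n hn
  have he : (fun z => ζ z * (2 * (pe β σ (ε n) μ p u 0 z * pe β σ (ε n) μ p u 0 z)
        - 2 * (pe β σ (ε n) μ p u 2 z * pe β σ (ε n) μ p u (-2) z)))
      = fun z => -(ζ z * ((-1) ^ ((0 : ℤ) + 1) * pe β σ (ε n) μ p u (0 + 0 + 2) z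
          * ((-1) ^ ((0 : ℤ) - 1) * pe β σ (ε n) μ p u (0 + 0 - 2) z)
        + (-1) ^ ((0 : ℤ) - 1) * pe β σ (ε n) μ p u (0 + 0 - 2) z
          * ((-1) ^ ((0 : ℤ) + 1) * pe β σ (ε n) μ p u (0 + 0 + 2) z)
        - 2 * ((-1) ^ (0 : ℤ) * pe β σ (ε n) μ p u (0 + 0) z
          * ((-1) ^ (0 : ℤ) * pe β σ (ε n) μ p u (0 + 0) z)))) := by
    funext z
    have e1 : ((-1 : ℂ)) ^ ((0 : ℤ) + 1) = -1 := by norm_num
    have e2 : ((-1 : ℂ)) ^ ((0 : ℤ) - 1) = -1 := by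
      rw [zero_sub, zpow_neg_one]
      norm_num
    have e3 : ((-1 : ℂ)) ^ (0 : ℤ) = 1 := by norm_num
    have e4 : ((0 : ℤ) + 0 + 2) = 2 := by norm_num
    have e5 : ((0 : ℤ) + 0 - 2) = -2 := by norm_num
    have e6 : ((0 : ℤ) + 0) = 0 := by norm_num
    rw [e1, e2, e3, e4, e5, e6]
    ring
  rw [he, integral_neg, norm_neg]
  exact hn

end U3


end

section

/-!
E3Z: the local theorem, all three-jet integrals tend to zero.
-/

open Complex MeasureTheory Filter Topology Set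
open scoped ContDiff Manifold

namespace U3

open QE QJ

noncomputable section

namespace E3Z

/-! ### Smoothness -/

lemma contDiff_jet {σ : ℂ → ℝ} (hσ : ContDiff ℝ ∞ σ) {h : ℕ → ℝ} {φ : ℕ → ℂ → ℂ}
    (hφ : ∀ n, ContDiff ℝ ∞ (φ n)) (m n : ℕ) : ContDiff ℝ ∞ (jet σ h φ m n) := by
  induction m with
  | zero => exact hφ n
  | succ m ih => exact contDiff_const.mul (contDiff_D hσ m ih)

lemma contDiff_E {σ : ℂ → ℝ} (hσ : ContDiff ℝ ∞ σ) {h : ℕ → ℝ} {φ : ℕ → ℂ → ℂ}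
    (hφ : ∀ n, ContDiff ℝ ∞ (φ n)) (j : ℤ) (n : ℕ) : ContDiff ℝ ∞ (E σ h φ j n) := by
  rcases j with m | m
  · exact contDiff_jet hσ hφ m n
  · exact contDiff_const.mul (Complex.conjCLE.contDiff.comp (contDiff_jet hσ hφ (m + 1) n))

/-! ### Cutoffs -/

lemma tsupport_real (χ : ℂ → ℝ) : tsupport (fun z => (χ z : ℂ)) = tsupport χ := by
  unfold tsupport
  congr 1
  ext z
  simp [Function.mem_support]

lemma real_cutoff {U K : Set ℂ} (hU : IsOpen U) (hK : IsCompact K) (hKU : K ⊆ U) :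
    ∃ χ : ℂ → ℝ, Test U (fun z => (χ z : ℂ)) ∧ (∀ z ∈ K, χ z = 1) ∧
      ∀ z, 0 ≤ χ z ∧ χ z ≤ 1 := by
  obtain ⟨K', hK', hKK', hK'U⟩ := exists_compact_between hK hU hKU
  obtain ⟨f, hf1, hf2, hf3⟩ :=
    exists_contMDiffMap_one_nhds_of_subset_interior (n := (⊤ : ℕ∞)) 𝓘(ℝ, ℂ) hK.isClosed hKK'
  have hfs : ContDiff ℝ ∞ (f : ℂ → ℝ) := f.contMDiff.contDiff
  have hsupp : Function.support (fun z => (f z : ℂ)) ⊆ K' := by
    intro z hz
    by_contra h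
    exact hz (by simp [hf2 z h])
  have hts : tsupport (fun z => (f z : ℂ)) ⊆ K' :=
    closure_minimal hsupp hK'.isClosed
  refine ⟨f, ⟨ofRealCLM.contDiff.comp hfs,
    hK'.of_isClosed_subset (isClosed_tsupport _) hts, hts.trans hK'U⟩, ?_, ?_⟩
  · intro z hz
    exact (hf1.filter_mono (nhds_le_nhdsSet hz)).self_of_nhds
  · intro z
    exact hf3 z

/-! ### The functionals -/

/-- the three-jet integral of total spin `j` -/
def qq (σ : ℂ → ℝ) (h : ℕ → ℝ) (φ : ℕ → ℂ → ℂ) (j : ℤ) (ζ : ℂ → ℂ) (n : ℕ) : ℂ :=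
  if 3 ∣ j then E3 σ h φ ζ (j / 3) (j / 3) (j / 3) n else 0

variable {V : Set ℂ} {σ : ℂ → ℝ} {h : ℕ → ℝ} {φ : ℕ → ℂ → ℂ}

lemma TT_eq (J : Finset ℤ) (f : ℤ → ℂ → ℂ) (n : ℕ) :
    TT σ h φ J f n = ∑ j ∈ J, qq σ h φ j (f j) n := rfl

lemma qq_add (L : LocB V σ h φ) (j : ℤ) {ζ ζ' : ℂ → ℂ} (hζ : Test V ζ) (hζ' : Test V ζ') (n : ℕ) :
    qq σ h φ j (fun z => ζ z + ζ' z) n = qq σ h φ j ζ n + qq σ h φ j ζ' n := by
  unfold qq
  split_ifs with h3
  · have hc : Continuous (fun z => E σ h φ (j / 3) n z * E σ h φ (j / 3) n z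
        * E σ h φ (j / 3) n z) := by
      have := (contDiff_E (h := h) L.sm L.smφ (j / 3) n).continuous
      exact (this.mul this).mul this
    unfold E3
    rw [← integral_add (test_int hζ hc) (test_int hζ' hc)]
    congr 1
    funext z
    ring
  · simp

lemma qq_smul (j : ℤ) (c : ℂ) (ζ : ℂ → ℂ) (n : ℕ) :
    qq σ h φ j (fun z => c * ζ z) n = c * qq σ h φ j ζ n := by
  unfold qq
  split_ifs with h3
  · unfold E3
    rw [← integral_const_mul]
    congr 1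
    funext z
    ring
  · simp

lemma qq_congr (j : ℤ) {ζ ζ' : ℂ → ℂ} (he : ∀ z, ζ z = ζ' z) (n : ℕ) :
    qq σ h φ j ζ n = qq σ h φ j ζ' n := by
  have : ζ = ζ' := funext he
  rw [this]

variable {Ω : Type} [MeasurableSpace Ω] {μ : Measure Ω} {p u : Ω → ℂ}

/-- monotonicity of the mass of the close pairs -/
lemma pairs_mono (hfin : μ Set.univ ≠ ⊤) {O K' : Set ℂ} (hO : O ⊆ K') (η b b' : ℝ) (hb : b ≤ b')
    (H : ∀ᶠ ε in 𝓝[>] (0 : ℝ),
      ((μ.prod μ) {x | p x.1 ∈ K' ∧ ‖p x.1 - p x.2‖ ≤ ε ∧ ‖w3 * u x.1 - u x.2‖ ≤ η}).toReal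
        ≤ b * ε ^ 2) :
    ∀ᶠ ε in 𝓝[>] (0 : ℝ),
      ((μ.prod μ) {x | p x.1 ∈ O ∧ ‖p x.1 - p x.2‖ ≤ ε ∧ ‖w3 * u x.1 - u x.2‖ ≤ η}).toReal
        ≤ b' * ε ^ 2 := by
  have : IsFiniteMeasure μ := ⟨lt_top_iff_ne_top.2 hfin⟩
  filter_upwards [H] with ε hε
  have h1 : ((μ.prod μ) {x | p x.1 ∈ O ∧ ‖p x.1 - p x.2‖ ≤ ε ∧ ‖w3 * u x.1 - u x.2‖ ≤ η}).toReal
      ≤ ((μ.prod μ) {x | p x.1 ∈ K' ∧ ‖p x.1 - p x.2‖ ≤ ε ∧ ‖w3 * u x.1 - u x.2‖ ≤ η}).toReal := by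
    apply ENNReal.toReal_mono (measure_ne_top _ _)
    apply measure_mono
    rintro x ⟨h1, h2, h3⟩
    exact ⟨hO h1, h2, h3⟩
  have h2 : b * ε ^ 2 ≤ b' * ε ^ 2 := mul_le_mul_of_nonneg_right hb (sq_nonneg ε)
  linarith

/-- the uniform bound -/
lemma bound (hCubI : StmtCubI) {G : ℕ → Set ℂ} {B : Set (ℂ × ℂ)} (L : LocB V σ h φ)
    (M : LimM V σ h φ μ p u) (Ge : GeoM V μ p u G B) {K : Set ℂ} (hK : IsCompact K)
    (hKV : K ⊆ V) : ∃ C : ℝ, 0 ≤ C ∧ ∀ ζ : ℂ → ℝ, Test V (fun z => (ζ z : ℂ)) →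
      (∀ z, 0 ≤ ζ z ∧ ζ z ≤ 1) → tsupport ζ ⊆ K → ∀ (J : Finset ℤ) (f : ℤ → ℂ → ℂ),
      (∀ j, ContDiff ℝ ∞ (f j)) → ∀ δ > 0, ∀ᶠ n in atTop,
      ‖∑ j ∈ J, qq σ h φ j (fun z => (ζ z : ℂ) * f j z) n‖ ^ 2
        ≤ C * (∫ o, ζ (p o) * ‖∑ j ∈ J, f j (p o) * u o ^ j‖ ^ 2 ∂μ) + δ := by
  obtain ⟨C, hC, H⟩ := hCubI V σ h φ Ω μ p u L M K hK hKV
  obtain ⟨K', hK', hKK', hK'V⟩ := exists_compact_between hK L.op hKV
  obtain ⟨b, η, hη, hb⟩ := Ge.bdd K' hK' hK'V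
  refine ⟨C * max b 0, mul_nonneg hC.le (le_max_right _ _), ?_⟩
  intro ζ hζ h01 hts J f hf δ hδ
  exact H ζ hζ h01 hts (interior K') isOpen_interior (hts.trans hKK') J f hf η hη (max b 0)
    (le_max_right _ _) (pairs_mono M.fin interior_subset η b _ (le_max_left _ _) hb) δ hδ

/-- the small bound -/
lemma small (hCubI : StmtCubI) {G : ℕ → Set ℂ} {B : Set (ℂ × ℂ)} (L : LocB V σ h φ)
    (M : LimM V σ h φ μ p u) (Ge : GeoM V μ p u G B) {K : Set ℂ} (hK : IsCompact K)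
    (hKV : K ⊆ V) (δ : ℝ) (hδ : 0 < δ) : ∃ N, ∀ ζ : ℂ → ℝ, Test V (fun z => (ζ z : ℂ)) →
      (∀ z, 0 ≤ ζ z ∧ ζ z ≤ 1) → tsupport ζ ⊆ K → Disjoint (tsupport ζ) (G N) →
      ∀ (J : Finset ℤ) (f : ℤ → ℂ → ℂ),
      (∀ j, ContDiff ℝ ∞ (f j)) → ∀ δ' > 0, ∀ᶠ n in atTop,
      ‖∑ j ∈ J, qq σ h φ j (fun z => (ζ z : ℂ) * f j z) n‖ ^ 2
        ≤ δ * (∫ o, ζ (p o) * ‖∑ j ∈ J, f j (p o) * u o ^ j‖ ^ 2 ∂μ) + δ' := by
  obtain ⟨C, hC, H⟩ := hCubI V σ h φ Ω μ p u L M K hK hKV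
  obtain ⟨K₁, hK₁, hKK₁, hK₁V⟩ := exists_compact_between hK L.op hKV
  obtain ⟨N, hN⟩ := Ge.small K₁ hK₁ hK₁V (δ / C) (by positivity)
  refine ⟨N, ?_⟩
  intro ζ hζ h01 hts hdis J f hf δ' hδ'
  have hcomp : IsCompact (tsupport ζ) := hK.of_isClosed_subset (isClosed_tsupport _) hts
  have hop : IsOpen (interior K₁ ∩ (G N)ᶜ) := isOpen_interior.inter (Ge.clG N).isOpen_compl
  have hsub : tsupport ζ ⊆ interior K₁ ∩ (G N)ᶜ := fun z hz =>
    ⟨hKK₁ (hts hz), fun hz' => Set.disjoint_left.1 hdis hz hz'⟩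
  obtain ⟨K', hK', hKK', hK'V⟩ := exists_compact_between hcomp hop hsub
  obtain ⟨η, hη, hb⟩ := hN K' hK' (fun z hz => interior_subset (hK'V hz).1)
    (Set.disjoint_left.2 fun z hz hz' => (hK'V hz).2 hz')
  have key := H ζ hζ h01 hts (interior K') isOpen_interior hKK' J f hf η hη (δ / C)
    (by positivity) (pairs_mono M.fin interior_subset η _ _ le_rfl hb) δ' hδ'
  have e : C * (δ / C) = δ := by field_simp
  rw [e] at key
  exact key

/-- every functional is bounded -/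
lemma qq_bdd (hCubI : StmtCubI) {G : ℕ → Set ℂ} {B : Set (ℂ × ℂ)} (L : LocB V σ h φ)
    (M : LimM V σ h φ μ p u) (Ge : GeoM V μ p u G B) (j : ℤ) {ζ : ℂ → ℂ} (hζ : Test V ζ) :
    ∃ C : ℝ, ∀ᶠ n in atTop, ‖qq σ h φ j ζ n‖ ≤ C := by
  obtain ⟨χ, hχ, hχ1, h01⟩ := real_cutoff L.op (hζ.supp : IsCompact (tsupport ζ)) hζ.sub
  have hcomp : IsCompact (tsupport χ) := by
    rw [← tsupport_real]
    exact hχ.supp
  have hsub : tsupport χ ⊆ V := by
    rw [← tsupport_real]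
    exact hχ.sub
  obtain ⟨C, hC, H⟩ := bound hCubI L M Ge hcomp hsub
  have key := H χ hχ h01 le_rfl {j} (fun _ => ζ) (fun _ => hζ.smooth) 1 one_pos
  obtain ⟨I, hI⟩ : ∃ I : ℝ, I = C * (∫ o, χ (p o) * ‖∑ j ∈ ({j} : Finset ℤ),
    ζ (p o) * u o ^ j‖ ^ 2 ∂μ) + 1 := ⟨_, rfl⟩
  refine ⟨I + 1, ?_⟩
  filter_upwards [key] with n hn
  rw [← hI, Finset.sum_singleton] at hn
  have e : qq σ h φ j (fun z => (χ z : ℂ) * ζ z) n = qq σ h φ j ζ n := by
    apply qq_congr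
    intro z
    by_cases hz : z ∈ tsupport ζ
    · rw [hχ1 z hz]
      simp
    · have : ζ z = 0 := image_eq_zero_of_notMem_tsupport hz
      rw [this, mul_zero]
  rw [e] at hn
  nlinarith [sq_nonneg (‖qq σ h φ j ζ n‖ - 1), norm_nonneg (qq σ h φ j ζ n)]

/-- the functionals tend to zero -/
lemma qq_zero (hCubI : StmtCubI) (hEnd : StmtEnd) {G : ℕ → Set ℂ} {B : Set (ℂ × ℂ)}
    (L : LocB V σ h φ) (M : LimM V σ h φ μ p u) (Ge : GeoM V μ p u G B) (j₀ : ℤ) {ζ₀ : ℂ → ℂ}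
    (hζ₀ : Test V ζ₀) : Tendsto (qq σ h φ j₀ ζ₀) atTop (𝓝 0) := by
  by_contra hcon
  -- a positive lower bound along infinitely many indices
  obtain ⟨δ₀, hδ₀, hfr⟩ : ∃ δ₀ : ℝ, 0 < δ₀ ∧ ∃ᶠ n in atTop, δ₀ ≤ ‖qq σ h φ j₀ ζ₀ n‖ := by
    by_contra hno
    push Not at hno
    apply hcon
    rw [Metric.tendsto_nhds]
    intro ε hε
    filter_upwards [hno ε hε] with n hn
    rw [dist_zero_right]
    exact hn
  have hne : (atTop ⊓ 𝓟 {n | δ₀ ≤ ‖qq σ h φ j₀ ζ₀ n‖} : Filter ℕ).NeBot := by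
    rw [← Filter.frequently_mem_iff_neBot]
    exact hfr
  obtain ⟨F, hF⟩ : ∃ F : Ultrafilter ℕ, (F : Filter ℕ) ≤
      atTop ⊓ 𝓟 {n | δ₀ ≤ ‖qq σ h φ j₀ ζ₀ n‖} := Ultrafilter.exists_le _
  have hFtop : (F : Filter ℕ) ≤ atTop := hF.trans inf_le_left
  have hFset : ∀ᶠ n in (F : Filter ℕ), δ₀ ≤ ‖qq σ h φ j₀ ζ₀ n‖ :=
    (hF.trans inf_le_right) (mem_principal_self _)
  -- the limits
  have hex : ∀ (j : ℤ) (ζ : ℂ → ℂ), Test V ζ → ∃ l : ℂ,
      Tendsto (qq σ h φ j ζ) (F : Filter ℕ) (𝓝 l) := by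
    intro j ζ hζ
    obtain ⟨C, hC⟩ := qq_bdd hCubI L M Ge j hζ
    obtain ⟨l, -, hl⟩ := (isCompact_closedBall (0 : ℂ) C).ultrafilter_le_nhds
      (F.map (qq σ h φ j ζ)) (by
        rw [Ultrafilter.coe_map]
        refine tendsto_principal.2 ?_
        filter_upwards [hFtop hC] with n hn
        exact mem_closedBall_zero_iff.2 hn)
    exact ⟨l, hl⟩
  let t : ℤ → (ℂ → ℂ) → ℂ := fun j ζ => limUnder (F : Filter ℕ) (qq σ h φ j ζ)
  have ht : ∀ (j : ℤ) (ζ : ℂ → ℂ), Test V ζ →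
      Tendsto (qq σ h φ j ζ) (F : Filter ℕ) (𝓝 (t j ζ)) := fun j ζ hζ =>
    tendsto_nhds_limUnder (hex j ζ hζ)
  have huniq : ∀ (j : ℤ) (ζ : ℂ → ℂ), Test V ζ → ∀ l : ℂ,
      Tendsto (qq σ h φ j ζ) (F : Filter ℕ) (𝓝 l) → t j ζ = l := fun j ζ hζ l hl =>
    tendsto_nhds_unique (ht j ζ hζ) hl
  -- passing to the limit in the bounds
  have hpass : ∀ (ζ : ℂ → ℝ), Test V (fun z => (ζ z : ℂ)) → ∀ (J : Finset ℤ) (f : ℤ → ℂ → ℂ),
      (∀ j, ContDiff ℝ ∞ (f j)) → ∀ R : ℝ, (∀ δ > 0, ∀ᶠ n in atTop,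
        ‖∑ j ∈ J, qq σ h φ j (fun z => (ζ z : ℂ) * f j z) n‖ ^ 2 ≤ R + δ) →
      ‖∑ j ∈ J, t j (fun z => (ζ z : ℂ) * f j z)‖ ^ 2 ≤ R := by
    intro ζ hζ J f hf R hR
    have h1 : Tendsto (fun n => ‖∑ j ∈ J, qq σ h φ j (fun z => (ζ z : ℂ) * f j z) n‖ ^ 2)
        (F : Filter ℕ) (𝓝 (‖∑ j ∈ J, t j (fun z => (ζ z : ℂ) * f j z)‖ ^ 2)) :=
      ((tendsto_finsetSum J fun j _ => ht j _ (test_mul hζ (hf j))).norm).pow 2
    refine le_of_forall_pos_le_add fun δ hδ => ?_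
    exact le_of_tendsto h1 (hFtop (hR δ hδ))
  have hzero := hEnd V Ω μ p u t G B L.op M.fin M.mp M.mu M.unit ?_ ?_ ?_ ?_ ?_ Ge.clG Ge.mB
    Ge.conc Ge.rot j₀ ζ₀ hζ₀
  · -- contradiction
    have h1 := (ht j₀ ζ₀ hζ₀).norm
    have h2 : δ₀ ≤ ‖t j₀ ζ₀‖ := ge_of_tendsto h1 hFset
    rw [hzero, norm_zero] at h2
    linarith
  · -- additivity
    intro j ζ ζ' hζ hζ'
    apply huniq j _ ⟨hζ.smooth.add hζ'.smooth, hζ.supp.add hζ'.supp,
      (closure_mono (Function.support_add _ _)).trans (by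
        rw [closure_union]
        exact union_subset hζ.sub hζ'.sub)⟩
    have := (ht j ζ hζ).add (ht j ζ' hζ')
    refine this.congr fun n => ?_
    exact (qq_add L j hζ hζ' n).symm
  · -- homogeneity
    intro j c ζ hζ
    apply huniq j _ ⟨contDiff_const.mul hζ.smooth, hζ.supp.mul_left,
      (closure_mono fun z hz => right_ne_zero_of_mul hz).trans hζ.sub⟩
    have := (ht j ζ hζ).const_mul c
    refine this.congr fun n => ?_
    exact (qq_smul j c ζ n).symm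
  · -- spins not divisible by three
    intro j ζ hζ h3
    apply huniq j ζ hζ
    have : qq σ h φ j ζ = fun _ => 0 := by
      funext n
      unfold qq
      rw [if_neg h3]
    rw [this]
    exact tendsto_const_nhds
  · -- the bound
    intro K hK hKV
    obtain ⟨C, -, H⟩ := bound hCubI L M Ge hK hKV
    exact ⟨C, fun ζ hζ h01 hts J f hf => hpass ζ hζ J f hf _ (H ζ hζ h01 hts J f hf)⟩
  · -- the small bound
    intro K hK hKV δ hδ
    obtain ⟨N, H⟩ := small hCubI L M Ge hK hKV δ hδ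
    exact ⟨N, fun ζ hζ h01 hts hdis J f hf =>
      hpass ζ hζ J f hf _ (H ζ hζ h01 hts hdis J f hf)⟩

end E3Z

open _root_.U3.E3Z in
/-- E3Z -/
theorem stmtE3z (hE3s : StmtE3s) (hCubI : StmtCubI) (hEnd : StmtEnd) : StmtE3z := by
  intro V σ h φ Ω _ μ p u G B L M Ge ζ hζ a b c
  have h1 := hE3s V σ h φ L ζ hζ a b c (a + b + c) rfl
  have h2 := qq_zero hCubI hEnd L M Ge (a + b + c) hζ
  have h3 := h1.add (h2.const_mul (cl3 b c))
  rw [mul_zero, add_zero] at h3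
  refine h3.congr fun n => ?_
  unfold qq
  split_ifs with h4
  · ring
  · ring

end

end U3


end
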