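import Mathlib
import Pool.Agent.BWM.C13
import Pool.Agent.BWM.C17
import Pool.Agent.BWM.C18

/-! Parts: QJ.Defs2, QJ.Stmts2, QJ.COMP, QJ.ITER, QJ.PWL, QJ.PWT, QJ.WEXP, QJ.TEST, QJ.Defs3, QJ.Stmts3, QJ.TL, QJ.FUB, QJ.FIN -/

section

/-!
Cubic and quartic statistics of quantum ergodic eigenfunctions: the objects of the final theorem.
-/

open MeasureTheory Filter Topology Set UpperHalfPlane MatrixGroups
open scoped ContDiff

namespace QJ

noncomputable section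

/-- the uniform probability measure on the angles `(0, 2π]` -/
abbrev angle : Measure ℝ :=
  ProbabilityTheory.cond (volume : Measure ℝ) (Set.Ioc 0 (2 * Real.pi))

/-- the plane wave `√2 cos (⟨x, e^{iθ}⟩ + s)` -/
def planeWave (θ s : ℝ) (x : ℂ) : ℝ :=
  Real.sqrt 2 * Real.cos ((x * Complex.exp (-(θ * Complex.I))).re + s)

/-- the product of the iterated derivatives, of orders `k i` and in the directions `v i`, of the
function `F` at the origin -/
def jetProd {r : ℕ} (k : Fin r → ℕ) (v : ∀ i, Fin (k i) → ℂ) (F : ℂ → ℝ) : ℝ :=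
  ∏ i, iteratedFDeriv ℝ (k i) F 0 (v i)

/-- the mean of a product of derivatives at the origin for the random plane wave: uniform direction
`θ` and uniform phase `s` in `(0, 2π]` -/
def planeMean {r : ℕ} (k : Fin r → ℕ) (v : ∀ i, Fin (k i) → ℂ) : ℝ :=
  ∫ θ, ∫ s, jetProd k v (planeWave θ s) ∂angle ∂angle

/-- the covariance of two derivatives at the origin, for the random plane wave (equivalently, for the
isotropic Gaussian wave, which has the same covariance function) -/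
def covar {k l : ℕ} (v : Fin k → ℂ) (w : Fin l → ℂ) : ℝ :=
  ∫ θ, ∫ s, iteratedFDeriv ℝ k (planeWave θ s) 0 v * iteratedFDeriv ℝ l (planeWave θ s) 0 w
    ∂angle ∂angle

/-- the mean over the angle of the product of the derivatives of the local wave at the point `z` -/
def angJet (ρ : ℍ → ℝ) (φ : ℍ → ℝ) (m : ℝ) {r : ℕ} (k : Fin r → ℕ) (v : ∀ i, Fin (k i) → ℂ)
    (z : ℍ) : ℝ :=
  ∫ θ, jetProd k v (fun x => Berry.rWave ρ φ m x (z, θ)) ∂angle

/-- the coefficients of the iterated derivative in terms of the Wirtinger derivatives -/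
def sc {k : ℕ} (v : Fin k → ℂ) (a : ℕ) : ℂ :=
  ∑ S ∈ Finset.powersetCard a Finset.univ, (∏ i ∈ S, v i) * ∏ i ∈ Sᶜ, (starRingEnd ℂ) (v i)

/-- signed Lah numbers -/
def lah : ℕ → ℕ → ℝ
  | 0, 0 => 1
  | 0, _ + 1 => 0
  | a + 1, 0 => -(a : ℝ) * lah a 0
  | a + 1, i + 1 => -((a : ℝ) + (i + 1)) * lah a (i + 1) + lah a i

end

end QJ


end

section

/-!
Cubic and quartic statistics of quantum ergodic eigenfunctions: statements of the steps (global part).
-/

open MeasureTheory Filter Topology Set UpperHalfPlane MatrixGroups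
open scoped ContDiff

namespace QJ

open QE

noncomputable section

/-- TEST: a smooth test function computes the averages of the invariant functions -/
def StmtTest : Prop :=
  ∀ (Γ : Subgroup SL(2, ℝ)) [Countable Γ] (ρ : ℍ → ℝ) (D : Set ℍ), Berry.Geo Γ ρ D →
    ContDiffOn ℝ ∞ (fun w : ℂ => ρ (ofComplex w)) {w | 0 < w.im} →
    (∃ K : Set ℍ, IsCompact K ∧ ∀ z, ∃ γ ∈ Γ, γ • z ∈ K) →
    ∃ ζ : ℂ → ℝ, ContDiff ℝ ∞ ζ ∧ HasCompactSupport ζ ∧ tsupport ζ ⊆ {w | 0 < w.im} ∧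
      (∀ w, 0 ≤ ζ w) ∧ ∀ f : ℍ → ℝ, Continuous f → (∀ γ ∈ Γ, ∀ z, f (γ • z) = f z) →
        Berry.rAvg ρ D f = ∫ w, ζ w * f (ofComplex w)

/-- COMP: mixed derivatives of the composition with a Moebius map -/
def StmtComp : Prop :=
  ∀ (U : Set ℂ) (f : ℂ → ℂ) (z c d : ℂ), IsOpen U → z ∈ U → ContDiffOn ℝ ∞ f U → ∀ a b : ℕ,
    dz^[a] (dzb^[b] (fun x => f (z + c * x / (1 + d * x)))) 0
      = ∑ i ∈ Finset.range (a + 1), ∑ j ∈ Finset.range (b + 1),
        ((lah a i * lah b j : ℝ) : ℂ) * (c ^ i * d ^ (a - i))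
          * ((starRingEnd ℂ) c ^ j * (starRingEnd ℂ) d ^ (b - j)) * dz^[i] (dzb^[j] f) z

/-- ITER: iterated derivatives in terms of the Wirtinger derivatives -/
def StmtIter : Prop :=
  ∀ (U : Set ℂ) (F : ℂ → ℝ), IsOpen U → (0 : ℂ) ∈ U → ContDiffOn ℝ ∞ F U → ∀ (k : ℕ)
    (v : Fin k → ℂ), ((iteratedFDeriv ℝ k F 0 v : ℝ) : ℂ)
      = ∑ a ∈ Finset.range (k + 1), sc v a * dz^[a] (dzb^[k - a] (fun w => (F w : ℂ))) 0

/-- PWT: covariances of the random plane wave -/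
def StmtPwt : Prop :=
  ∀ (k l : ℕ) (v : Fin k → ℂ) (w : Fin l → ℂ), ((covar v w : ℝ) : ℂ)
    = ∑ a ∈ Finset.range (k + 1), ∑ b ∈ Finset.range (l + 1),
      (sc v a * cW a (k - a)) * (sc w b * cW b (l - b))
        * P ((a : ℤ) - (k - a : ℕ)) ((b : ℤ) - (l - b : ℕ))

/-- PWF: fourth moments of the random plane wave -/
def StmtPwf : Prop :=
  ∀ (k : Fin 4 → ℕ) (v : ∀ i, Fin (k i) → ℂ), ((planeMean k v : ℝ) : ℂ)
    = ∑ a ∈ Fintype.piFinset fun i => Finset.range (k i + 1),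
      if ∑ i, ((a i : ℤ) - (k i - a i : ℕ)) = 0 then
        (∏ i, sc (v i) (a i) * cW (a i) (k i - a i)) * (3 / 2 * cl4 ((a 0 : ℤ) - (k 0 - a 0 : ℕ))
          ((a 1 : ℤ) - (k 1 - a 1 : ℕ)) ((a 2 : ℤ) - (k 2 - a 2 : ℕ))
          ((a 3 : ℤ) - (k 3 - a 3 : ℕ)))
      else 0

/-- WEXP: the derivatives of the local wave at the origin -/
def StmtWexp : Prop :=
  ∀ (ρ φ : ℍ → ℝ) (m : ℝ), 0 < m →
    ContDiffOn ℝ ∞ (fun w : ℂ => φ (ofComplex w)) {w | 0 < w.im} →
    ∀ (z : ℂ), 0 < z.im → ∀ (θ : ℝ) (k : ℕ) (v : Fin k → ℂ) (c d : ℂ),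
      c = z.im * ((1 / m : ℝ) * (Real.exp (-ρ (ofComplex z)) : ℝ)) * uu θ ^ 2 →
      d = ((1 / m : ℝ) * (Real.exp (-ρ (ofComplex z)) : ℝ)) * uu θ * Real.sin θ →
      ((iteratedFDeriv ℝ k (fun x => Berry.rWave ρ φ m x (ofComplex z, θ)) 0 v : ℝ) : ℂ)
        = ∑ a ∈ Finset.range (k + 1), sc v a *
          ∑ i ∈ Finset.range (a + 1), ∑ j ∈ Finset.range (k - a + 1),
            ((lah a i * lah (k - a) j : ℝ) : ℂ) * (c ^ i * d ^ (a - i))
              * ((starRingEnd ℂ) c ^ j * (starRingEnd ℂ) d ^ (k - a - j))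
              * dz^[i] (dzb^[j] (fun w : ℂ => (φ (ofComplex w) : ℂ))) z

/-- MAIN: the mean over the angle of a product of at most four derivatives of the local wave is its
leading part up to an error which is small in `L¹_loc` -/
def StmtMain : Prop :=
  ∀ (ρ : ℍ → ℝ) (φ : ℕ → ℍ → ℝ) (m : ℕ → ℝ),
    ContDiffOn ℝ ∞ (fun w : ℂ => ρ (ofComplex w)) {w | 0 < w.im} → (∀ n, 0 < m n) →
    (∀ n, ContDiffOn ℝ ∞ (fun w : ℂ => φ n (ofComplex w)) {w | 0 < w.im}) →
    LocalQE {z | 0 < z.im} (fun z => Real.exp (2 * ρ (ofComplex z)) / z.im ^ 2)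
      (fun n => 1 / m n) (fun n z => (φ n (ofComplex z) : ℂ)) →
    ∀ (r : ℕ) (k : Fin r → ℕ) (v : ∀ i, Fin (k i) → ℂ), r ≤ 4 →
      ∀ ψ : ℂ → ℝ, ContDiff ℝ ∞ ψ → HasCompactSupport ψ → tsupport ψ ⊆ {w | 0 < w.im} →
      Tendsto (fun n => ((∫ z, ψ z * angJet ρ (φ n) (m n) k v (ofComplex z) : ℝ) : ℂ)
        - ∑ a ∈ Fintype.piFinset fun i => Finset.range (k i + 1),
          if ∑ i, ((a i : ℤ) - (k i - a i : ℕ)) = 0 then
            (∏ i, sc (v i) (a i)) * ∫ z, (ψ z : ℂ) * ∏ i,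
              Wg (fun z => Real.exp (2 * ρ (ofComplex z)) / z.im ^ 2) (fun n => 1 / m n)
                (fun n z => (φ n (ofComplex z) : ℂ)) (a i) (k i - a i) n z
          else 0) atTop (𝓝 0)

/-- LOCG: the local theorem for the local waves -/
def StmtLocG : Prop :=
  ∀ (Γ : Subgroup SL(2, ℝ)) (ρ : ℍ → ℝ) (φ : ℕ → ℍ → ℝ) (m : ℕ → ℝ),
    ContDiffOn ℝ ∞ (fun w : ℂ => ρ (ofComplex w)) {w | 0 < w.im} → Berry.REigenSeq Γ ρ φ m →
    (∀ n, ContDiffOn ℝ ∞ (fun w : ℂ => φ n (ofComplex w)) {w | 0 < w.im}) →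
    QuantumErgodic ρ φ m →
    ∀ ψ : ℂ → ℝ, ContDiff ℝ ∞ ψ → HasCompactSupport ψ → tsupport ψ ⊆ {w | 0 < w.im} →
    (∀ (k : Fin 1 → ℕ) (v : ∀ i, Fin (k i) → ℂ),
      Tendsto (fun n => ∫ z, ψ z * angJet ρ (φ n) (m n) k v (ofComplex z)) atTop (𝓝 0)) ∧
    (∀ (k : Fin 2 → ℕ) (v : ∀ i, Fin (k i) → ℂ),
      Tendsto (fun n => ∫ z, ψ z * angJet ρ (φ n) (m n) k v (ofComplex z)) atTop
        (𝓝 (covar (v 0) (v 1) * ∫ z, ψ z))) ∧
    (∀ (k : Fin 3 → ℕ) (v : ∀ i, Fin (k i) → ℂ),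
      Tendsto (fun n => ∫ z, ψ z * angJet ρ (φ n) (m n) k v (ofComplex z)) atTop (𝓝 0)) ∧
    (∀ (k : Fin 4 → ℕ) (v : ∀ i, Fin (k i) → ℂ),
      Tendsto (fun n => (∫ z, ψ z * angJet ρ (φ n) (m n) k v (ofComplex z))
        - ((covar (v 0) (v 1) * covar (v 2) (v 3) + covar (v 0) (v 2) * covar (v 1) (v 3)
            + covar (v 0) (v 3) * covar (v 1) (v 2)) * (∫ z, ψ z)
          + 2 / 3 * planeMean k v * ((∫ z, ψ z * φ n (ofComplex z) ^ 4) - 3 * ∫ z, ψ z)))
        atTop (𝓝 0))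

/-- INVG: the angular means are continuous and invariant -/
def StmtInvg : Prop :=
  ∀ (Γ : Subgroup SL(2, ℝ)) (ρ φ : ℍ → ℝ) (m : ℝ), 0 < m → Continuous ρ →
    (∀ γ ∈ Γ, ∀ z, ρ (γ • z) = ρ z) → (∀ γ ∈ Γ, ∀ z, φ (γ • z) = φ z) →
    ContDiffOn ℝ ∞ (fun w : ℂ => φ (ofComplex w)) {w | 0 < w.im} →
    ∀ (r : ℕ) (k : Fin r → ℕ) (v : ∀ i, Fin (k i) → ℂ),
      Continuous (fun p : ℍ × ℝ => jetProd k v (fun x => Berry.rWave ρ φ m x p)) ∧
      Continuous (angJet ρ φ m k v) ∧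
      ∀ γ ∈ Γ, ∀ z, angJet ρ φ m k v (γ • z) = angJet ρ φ m k v z

/-- FUB: the mean over points and frames is the mean over the points of the angular mean -/
def StmtFub : Prop :=
  ∀ (Γ : Subgroup SL(2, ℝ)) [Countable Γ] (ρ φ : ℍ → ℝ) (D : Set ℍ) (m : ℝ), 0 < m →
    Continuous ρ → Berry.Geo Γ ρ D → (∃ K : Set ℍ, IsCompact K ∧ ∀ z, ∃ γ ∈ Γ, γ • z ∈ K) →
    (∀ γ ∈ Γ, ∀ z, φ (γ • z) = φ z) →
    ContDiffOn ℝ ∞ (fun w : ℂ => φ (ofComplex w)) {w | 0 < w.im} →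
    ∀ (r : ℕ) (k : Fin r → ℕ) (v : ∀ i, Fin (k i) → ℂ),
      ∫ p, jetProd k v (fun x => Berry.rWave ρ φ m x p) ∂(Berry.rFrameProb ρ D)
        = Berry.rAvg ρ D (angJet ρ φ m k v)

/-- FIN: the final theorem -/
def StmtFin : Prop :=
  ∀ (Γ : Subgroup SL(2, ℝ)) [Countable Γ] (D : Set ℍ), MeasurableSet D →
    IsFundamentalDomain Γ D (volume : Measure ℍ) →
    (∃ K : Set ℍ, IsCompact K ∧ ∀ z, ∃ γ ∈ Γ, γ • z ∈ K) →
    ∀ ρ : ℍ → ℝ, ContDiffOn ℝ ∞ (fun w : ℂ => ρ (ofComplex w)) {w | 0 < w.im} →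
    (∀ γ ∈ Γ, ∀ z, ρ (γ • z) = ρ z) → ∀ (φ : ℕ → ℍ → ℝ) (m : ℕ → ℝ),
    Berry.REigenSeq Γ ρ φ m →
    (∀ n, ContDiffOn ℝ ∞ (fun w : ℂ => φ n (ofComplex w)) {w | 0 < w.im}) →
    QuantumErgodic ρ φ m →
    (∀ (k : Fin 1 → ℕ) (v : ∀ i, Fin (k i) → ℂ), Tendsto (fun n =>
      ∫ p, jetProd k v (fun x => Berry.rWave ρ (φ n) (m n) x p) ∂(Berry.rFrameProb ρ D))
        atTop (𝓝 0)) ∧
    (∀ (k : Fin 2 → ℕ) (v : ∀ i, Fin (k i) → ℂ), Tendsto (fun n =>
      ∫ p, jetProd k v (fun x => Berry.rWave ρ (φ n) (m n) x p) ∂(Berry.rFrameProb ρ D))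
        atTop (𝓝 (covar (v 0) (v 1)))) ∧
    (∀ (k : Fin 3 → ℕ) (v : ∀ i, Fin (k i) → ℂ), Tendsto (fun n =>
      ∫ p, jetProd k v (fun x => Berry.rWave ρ (φ n) (m n) x p) ∂(Berry.rFrameProb ρ D))
        atTop (𝓝 0)) ∧
    (∀ (k : Fin 4 → ℕ) (v : ∀ i, Fin (k i) → ℂ), Tendsto (fun n =>
      (∫ p, jetProd k v (fun x => Berry.rWave ρ (φ n) (m n) x p) ∂(Berry.rFrameProb ρ D))
        - (covar (v 0) (v 1) * covar (v 2) (v 3) + covar (v 0) (v 2) * covar (v 1) (v 3)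
            + covar (v 0) (v 3) * covar (v 1) (v 2)
          + 2 / 3 * (Berry.rAvg ρ D (fun z => φ n z ^ 4) - 3) * planeMean k v))
        atTop (𝓝 0))

end

end QJ


end

section

/-!
COMP: mixed Wirtinger derivatives of the composition with a Moebius map.
-/

open Filter Topology Set
open scoped ContDiff

namespace QJ

open QE

namespace COMP

/-- the properties of a derivation on the smooth functions on an open set -/
structure Der (O : Set ℂ) (L : (ℂ → ℂ) → ℂ → ℂ) : Prop where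
  congr : ∀ f g : ℂ → ℂ, (∀ x ∈ O, f x = g x) → ∀ x ∈ O, L f x = L g x
  add : ∀ f g : ℂ → ℂ, ContDiffOn ℝ ∞ f O → ContDiffOn ℝ ∞ g O →
    ∀ x ∈ O, L (fun y => f y + g y) x = L f x + L g x
  mul : ∀ f g : ℂ → ℂ, ContDiffOn ℝ ∞ f O → ContDiffOn ℝ ∞ g O →
    ∀ x ∈ O, L (fun y => f y * g y) x = L f x * g x + f x * L g x
  const : ∀ c : ℂ, ∀ x ∈ O, L (fun _ => c) x = 0

theorem diffAt {O : Set ℂ} (hO : IsOpen O) {f : ℂ → ℂ} (hf : ContDiffOn ℝ ∞ f O) {x : ℂ}
    (hx : x ∈ O) : DifferentiableAt ℝ f x :=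
  (hf.contDiffAt (hO.mem_nhds hx)).differentiableAt (by simp)

theorem der_dz {O : Set ℂ} (hO : IsOpen O) : Der O dz where
  congr f g h x hx := dz_congr_on hO h hx
  add f g hf hg x hx := dz_add (diffAt hO hf hx) (diffAt hO hg hx)
  mul f g hf hg x hx := dz_mul (diffAt hO hf hx) (diffAt hO hg hx)
  const c x _ := dz_const c x

theorem der_dzb {O : Set ℂ} (hO : IsOpen O) : Der O dzb where
  congr f g h x hx := dzb_congr_on hO h hx
  add f g hf hg x hx := dzb_add (diffAt hO hf hx) (diffAt hO hg hx)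
  mul f g hf hg x hx := dzb_mul (diffAt hO hf hx) (diffAt hO hg hx)
  const c x _ := dzb_const c x

theorem Der.sum {O : Set ℂ} {L : (ℂ → ℂ) → ℂ → ℂ} (h : Der O L) {ι : Type*} (s : Finset ι)
    (f : ι → ℂ → ℂ) (hf : ∀ i, ContDiffOn ℝ ∞ (f i) O) {x : ℂ} (hx : x ∈ O) :
    L (fun y => ∑ i ∈ s, f i y) x = ∑ i ∈ s, L (f i) x := by
  classical
  induction s using Finset.induction_on with
  | empty => simp only [Finset.sum_empty]; exact h.const 0 x hx
  | insert a s ha ih =>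
    rw [Finset.sum_insert ha, ← ih]
    have e : (fun y => ∑ i ∈ insert a s, f i y) = fun y => f a y + ∑ i ∈ s, f i y := by
      funext y; rw [Finset.sum_insert ha]
    rw [e]
    exact h.add _ _ (hf a) (ContDiffOn.sum fun i _ => hf i) x hx

theorem Der.cmul {O : Set ℂ} {L : (ℂ → ℂ) → ℂ → ℂ} (h : Der O L) (c : ℂ)
    (f : ℂ → ℂ) (hf : ContDiffOn ℝ ∞ f O) {x : ℂ} (hx : x ∈ O) :
    L (fun y => c * f y) x = c * L f x := by
  rw [h.mul (fun _ => c) f contDiffOn_const hf x hx, h.const c x hx]; ring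

theorem Der.pow {O : Set ℂ} {L : (ℂ → ℂ) → ℂ → ℂ} (h : Der O L) (q : ℂ → ℂ)
    (hq : ContDiffOn ℝ ∞ q O) (e : ℂ → ℂ) (hqe : ∀ x ∈ O, L q x = e x * q x) (n : ℕ) {x : ℂ}
    (hx : x ∈ O) : L (fun y => q y ^ n) x = n * e x * q x ^ n := by
  induction n with
  | zero => simp only [pow_zero]; rw [h.const 1 x hx]; simp
  | succ n ih =>
    have e1 : (fun y => q y ^ (n + 1)) = fun y => q y ^ n * q y := by
      funext y; rw [pow_succ]
    rw [e1, h.mul _ _ (hq.pow n) hq x hx, ih, hqe x hx]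
    push_cast
    ring

theorem Der.iter_congr {O : Set ℂ} {L : (ℂ → ℂ) → ℂ → ℂ} (h : Der O L) (f g : ℂ → ℂ)
    (hfg : ∀ x ∈ O, f x = g x) (n : ℕ) : ∀ x ∈ O, L^[n] f x = L^[n] g x := by
  induction n with
  | zero => simpa using hfg
  | succ n ih =>
    intro x hx
    rw [Function.iterate_succ_apply', Function.iterate_succ_apply']
    exact h.congr _ _ ih x hx

theorem lah_eq_zero : ∀ (a i : ℕ), a < i → lah a i = 0
  | 0, 0, h => absurd h (lt_irrefl _)
  | 0, i + 1, _ => rfl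
  | a + 1, 0, h => absurd h (Nat.not_lt_zero _)
  | a + 1, i + 1, h => by
    have h1 : lah a (i + 1) = 0 := lah_eq_zero a (i + 1) (by omega)
    have h2 : lah a i = 0 := lah_eq_zero a i (by omega)
    show -((a : ℝ) + (i + 1)) * lah a (i + 1) + lah a i = 0
    rw [h1, h2]; ring

/-- the combinatorial identity behind the induction -/
theorem lah_step (c d q : ℂ) (a : ℕ) (G : ℕ → ℂ) :
    ∑ i ∈ Finset.range (a + 1), ((lah a i : ℝ) : ℂ) * (c ^ i * d ^ (a - i)) *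
        ((((a + i : ℕ) : ℂ) * (-d * q) * q ^ (a + i)) * G i + q ^ (a + i) * (c * q ^ 2 * G (i + 1)))
      = ∑ i ∈ Finset.range (a + 1 + 1), ((lah (a + 1) i : ℝ) : ℂ) * (c ^ i * d ^ (a + 1 - i)) *
        (q ^ (a + 1 + i) * G i) := by
  rw [Finset.sum_range_succ' _ (a + 1)]
  have hA : ∑ i ∈ Finset.range (a + 1), ((lah a i : ℝ) : ℂ) * (c ^ i * d ^ (a - i)) *
        ((((a + i : ℕ) : ℂ) * (-d * q) * q ^ (a + i)) * G i + q ^ (a + i) * (c * q ^ 2 * G (i + 1)))
      = ∑ i ∈ Finset.range (a + 1), ((lah a i : ℝ) : ℂ) * (c ^ i * d ^ (a + 1 - i)) *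
        (-(((a + i : ℕ) : ℂ)) * q ^ (a + 1 + i) * G i)
        + ∑ i ∈ Finset.range (a + 1), ((lah a i : ℝ) : ℂ) * (c ^ (i + 1) * d ^ (a - i)) *
          (q ^ (a + 1 + (i + 1)) * G (i + 1)) := by
    rw [← Finset.sum_add_distrib]
    refine Finset.sum_congr rfl fun i hi => ?_
    have hi' : i ≤ a := Nat.lt_succ_iff.1 (Finset.mem_range.1 hi)
    rw [Nat.succ_sub hi', pow_succ d (a - i)]
    ring
  have hB : ∑ i ∈ Finset.range (a + 1), ((lah a i : ℝ) : ℂ) * (c ^ i * d ^ (a + 1 - i)) *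
        (-(((a + i : ℕ) : ℂ)) * q ^ (a + 1 + i) * G i)
      = ∑ i ∈ Finset.range (a + 1 + 1), ((lah a i : ℝ) : ℂ) * (c ^ i * d ^ (a + 1 - i)) *
        (-(((a + i : ℕ) : ℂ)) * q ^ (a + 1 + i) * G i) := by
    rw [Finset.sum_range_succ _ (a + 1), lah_eq_zero a (a + 1) (Nat.lt_succ_self a)]
    simp
  rw [hA, hB, Finset.sum_range_succ' _ (a + 1)]
  have hC : ∑ i ∈ Finset.range (a + 1), ((lah (a + 1) (i + 1) : ℝ) : ℂ) *
        (c ^ (i + 1) * d ^ (a + 1 - (i + 1))) * (q ^ (a + 1 + (i + 1)) * G (i + 1))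
      = ∑ i ∈ Finset.range (a + 1), ((lah a (i + 1) : ℝ) : ℂ) *
        (c ^ (i + 1) * d ^ (a + 1 - (i + 1))) * (-(((a + (i + 1) : ℕ) : ℂ)) *
          q ^ (a + 1 + (i + 1)) * G (i + 1))
        + ∑ i ∈ Finset.range (a + 1), ((lah a i : ℝ) : ℂ) * (c ^ (i + 1) * d ^ (a - i)) *
          (q ^ (a + 1 + (i + 1)) * G (i + 1)) := by
    rw [← Finset.sum_add_distrib]
    refine Finset.sum_congr rfl fun i hi => ?_
    have e : lah (a + 1) (i + 1) = -((a : ℝ) + (i + 1)) * lah a (i + 1) + lah a i := rfl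
    rw [e, Nat.succ_sub_succ_eq_sub]
    push_cast
    ring
  have hD : lah (a + 1) 0 = -(a : ℝ) * lah a 0 := rfl
  rw [hC, hD]
  push_cast
  ring

/-- the iterates of a derivation on a family with `L (G i) = c q² G (i + 1)` -/
theorem Der.main {O : Set ℂ} {L : (ℂ → ℂ) → ℂ → ℂ} (h : Der O L) (q : ℂ → ℂ)
    (hq : ContDiffOn ℝ ∞ q O) (c d : ℂ) (hLq : ∀ x ∈ O, L q x = -d * q x ^ 2)
    (G : ℕ → ℂ → ℂ) (hG : ∀ i, ContDiffOn ℝ ∞ (G i) O)
    (hLG : ∀ i, ∀ x ∈ O, L (G i) x = c * q x ^ 2 * G (i + 1) x) (a : ℕ) :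
    ∀ x ∈ O, L^[a] (G 0) x = ∑ i ∈ Finset.range (a + 1),
      ((lah a i : ℝ) : ℂ) * (c ^ i * d ^ (a - i)) * (q x ^ (a + i) * G i x) := by
  induction a with
  | zero =>
    intro x _
    have e : lah 0 0 = 1 := rfl
    simp [e]
  | succ a ih =>
    intro x hx
    rw [Function.iterate_succ_apply', h.congr _ _ ih x hx, ← lah_step]
    rw [h.sum (Finset.range (a + 1)) (fun i y => ((lah a i : ℝ) : ℂ) * (c ^ i * d ^ (a - i)) *
      (q y ^ (a + i) * G i y)) (fun i => contDiffOn_const.mul ((hq.pow _).mul (hG i))) hx]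
    refine Finset.sum_congr rfl fun i _ => ?_
    rw [h.cmul _ _ ((hq.pow _).mul (hG i)) hx, h.mul _ _ (hq.pow _) (hG i) x hx,
      h.pow q hq (fun y => -d * q y) (fun y hy => by rw [hLq y hy]; ring) (a + i) hx, hLG i x hx]

/-- the chain rules -/
theorem chain {g p : ℂ → ℂ} {x p' : ℂ} (hp : HasDerivAt p p' x)
    (hg : DifferentiableAt ℝ g (p x)) :
    dz (fun w => g (p w)) x = p' * dz g (p x) ∧
      dzb (fun w => g (p w)) x = (starRingEnd ℂ) p' * dzb g (p x) := by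
  have hpR : HasFDerivAt p _ x := hp.hasFDerivAt.restrictScalars ℝ
  have hpv : ∀ v, fderiv ℝ p x v = p' * v := by
    intro v
    rw [hpR.fderiv]
    simp [mul_comm]
  have hc : ∀ v, fderiv ℝ (fun w => g (p w)) x v = fderiv ℝ g (p x) (p' * v) := by
    intro v
    have := fderiv_comp x hg hpR.differentiableAt
    have e : (fun w => g (p w)) = g ∘ p := rfl
    rw [e, this, ContinuousLinearMap.comp_apply, hpv]
  have hI := Complex.I_mul_I
  constructor
  · unfold dz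
    rw [hc, hc, fderiv_real_apply, fderiv_real_apply]
    simp only [map_mul, Complex.conj_I, mul_one]
    unfold dz dzb
    linear_combination (-(1 / 2) * p'
      * ((1 / 2) * (fderiv ℝ g (p x) 1 - Complex.I * fderiv ℝ g (p x) Complex.I))
      + (1 / 2) * (starRingEnd ℂ) p'
      * ((1 / 2) * (fderiv ℝ g (p x) 1 + Complex.I * fderiv ℝ g (p x) Complex.I))) * hI
  · unfold dzb
    rw [hc, hc, fderiv_real_apply, fderiv_real_apply]
    simp only [map_mul, Complex.conj_I, mul_one]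
    unfold dz dzb
    linear_combination ((1 / 2) * p'
      * ((1 / 2) * (fderiv ℝ g (p x) 1 - Complex.I * fderiv ℝ g (p x) Complex.I))
      - (1 / 2) * (starRingEnd ℂ) p'
      * ((1 / 2) * (fderiv ℝ g (p x) 1 + Complex.I * fderiv ℝ g (p x) Complex.I))) * hI

/-- the Wirtinger derivatives of a holomorphic function -/
theorem holo {p : ℂ → ℂ} {x p' : ℂ} (hp : HasDerivAt p p' x) : dz p x = p' ∧ dzb p x = 0 := by
  have hpR : HasFDerivAt p _ x := hp.hasFDerivAt.restrictScalars ℝ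
  have hpv : ∀ v, fderiv ℝ p x v = p' * v := by
    intro v
    rw [hpR.fderiv]
    simp [mul_comm]
  have hI := Complex.I_mul_I
  constructor
  · unfold dz
    rw [hpv, hpv]
    linear_combination (-(1 / 2) * p') * hI
  · unfold dzb
    rw [hpv, hpv]
    linear_combination ((1 / 2) * p') * hI

theorem smooth_dzb_iter {U : Set ℂ} (hU : IsOpen U) {f : ℂ → ℂ} (hf : ContDiffOn ℝ ∞ f U)
    (n : ℕ) : ContDiffOn ℝ ∞ (dzb^[n] f) U := by
  induction n with
  | zero => simpa using hf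
  | succ n ih => rw [Function.iterate_succ_apply']; exact contDiffOn_dzb hU ih

theorem smooth_dz_iter {U : Set ℂ} (hU : IsOpen U) {f : ℂ → ℂ} (hf : ContDiffOn ℝ ∞ f U)
    (n : ℕ) : ContDiffOn ℝ ∞ (dz^[n] f) U := by
  induction n with
  | zero => simpa using hf
  | succ n ih => rw [Function.iterate_succ_apply']; exact contDiffOn_dz hU ih

end COMP

open _root_.QJ.COMP in
/-- COMP -/
theorem stmtComp : StmtComp := by
  intro U f z c d hU hz hf a b
  set p : ℂ → ℂ := fun x => z + c * x / (1 + d * x) with hp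
  set q : ℂ → ℂ := fun x => (1 + d * x)⁻¹ with hq
  have hcont1 : Continuous fun x : ℂ => 1 + d * x := by fun_prop
  have hO1 : IsOpen {x : ℂ | 1 + d * x ≠ 0} := isOpen_ne_fun hcont1 continuous_const
  have hpc : ContinuousOn p {x : ℂ | 1 + d * x ≠ 0} := by
    refine continuousOn_const.add (ContinuousOn.div (by fun_prop) (by fun_prop) fun x hx => hx)
  set O : Set ℂ := {x : ℂ | 1 + d * x ≠ 0} ∩ p ⁻¹' U with hOdef
  have hO : IsOpen O := hpc.isOpen_inter_preimage hO1 hU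
  have h0 : (0 : ℂ) ∈ O := by
    refine ⟨by simp, ?_⟩
    show p 0 ∈ U
    simpa [hp] using hz
  have hne : ∀ x ∈ O, 1 + d * x ≠ 0 := fun x hx => hx.1
  have hpU : ∀ x ∈ O, p x ∈ U := fun x hx => hx.2
  have hd1 : ∀ x : ℂ, HasDerivAt (fun y : ℂ => 1 + d * y) d x := by
    intro x
    simpa using ((hasDerivAt_id x).const_mul d).const_add 1
  have hdq : ∀ x ∈ O, HasDerivAt q (-d * q x ^ 2) x := by
    intro x hx
    refine ((hd1 x).inv (hne x hx)).congr_deriv ?_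
    simp only [hq]
    rw [inv_pow, div_eq_mul_inv]
  have hdp : ∀ x ∈ O, HasDerivAt p (c * q x ^ 2) x := by
    intro x hx
    have h1 : HasDerivAt (fun y : ℂ => c * y) c x := by
      simpa using (hasDerivAt_id x).const_mul c
    have h2 := (h1.div (hd1 x) (hne x hx)).const_add z
    refine h2.congr_deriv ?_
    simp only [hq]
    have := hne x hx
    field_simp
    ring
  have hqs : ContDiffOn ℝ ∞ q O := by
    refine ContDiffOn.inv ?_ hne
    exact (contDiff_const.add (contDiff_const.mul contDiff_id)).contDiffOn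
  have hps : ContDiffOn ℝ ∞ p O := by
    have : ContDiffOn ℝ ∞ (fun x => z + c * x * q x) O :=
      contDiffOn_const.add (((contDiff_const.mul contDiff_id).contDiffOn).mul hqs)
    exact this.congr fun x _ => by simp only [hp, hq, div_eq_mul_inv]
  have hqcs : ContDiffOn ℝ ∞ (fun x => (starRingEnd ℂ) (q x)) O :=
    Complex.conjCLE.contDiff.comp_contDiffOn hqs
  have hcomp : ∀ g : ℂ → ℂ, ContDiffOn ℝ ∞ g U → ContDiffOn ℝ ∞ (fun x => g (p x)) O :=
    fun g hg => hg.comp hps hpU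
  -- the antiholomorphic direction
  have hB : ∀ x ∈ O, dzb^[b] (fun x => f (p x)) x = ∑ j ∈ Finset.range (b + 1),
      ((lah b j : ℝ) : ℂ) * ((starRingEnd ℂ) c ^ j * (starRingEnd ℂ) d ^ (b - j)) *
        ((starRingEnd ℂ) (q x) ^ (b + j) * (dzb^[j] f) (p x)) := by
    refine (der_dzb hO).main (fun x => (starRingEnd ℂ) (q x)) hqcs ((starRingEnd ℂ) c)
      ((starRingEnd ℂ) d) ?_ (fun j x => (dzb^[j] f) (p x))
      (fun j => hcomp _ (smooth_dzb_iter hU hf j)) ?_ b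
    · intro x hx
      rw [dzb_conj (diffAt hO hqs hx), (holo (hdq x hx)).1]
      simp
    · intro j x hx
      rw [(chain (hdp x hx) (diffAt hU (smooth_dzb_iter hU hf j) (hpU x hx))).2,
        Function.iterate_succ_apply']
      simp
  -- the holomorphic direction
  set G : ℕ → ℂ → ℂ := fun i x => ∑ j ∈ Finset.range (b + 1),
      ((lah b j : ℝ) : ℂ) * ((starRingEnd ℂ) c ^ j * (starRingEnd ℂ) d ^ (b - j)) *
        ((starRingEnd ℂ) (q x) ^ (b + j) * (dz^[i] (dzb^[j] f)) (p x)) with hGdef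
  have hsm : ∀ i j, ContDiffOn ℝ ∞ (dz^[i] (dzb^[j] f)) U := fun i j =>
    smooth_dz_iter hU (smooth_dzb_iter hU hf j) i
  have hterm : ∀ i j, ContDiffOn ℝ ∞ (fun x => (starRingEnd ℂ) (q x) ^ (b + j) *
      (dz^[i] (dzb^[j] f)) (p x)) O := fun i j => (hqcs.pow _).mul (hcomp _ (hsm i j))
  have hGs : ∀ i, ContDiffOn ℝ ∞ (G i) O := fun i =>
    ContDiffOn.sum fun j _ => contDiffOn_const.mul (hterm i j)
  have hdzq : ∀ x ∈ O, dz (fun x => (starRingEnd ℂ) (q x)) x = 0 := by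
    intro x hx
    rw [dz_conj (diffAt hO hqs hx), (holo (hdq x hx)).2]
    simp
  have hLG : ∀ i, ∀ x ∈ O, dz (G i) x = c * q x ^ 2 * G (i + 1) x := by
    intro i x hx
    have h := der_dz hO
    rw [hGdef]
    simp only
    rw [h.sum (Finset.range (b + 1)) (fun j x => ((lah b j : ℝ) : ℂ) *
      ((starRingEnd ℂ) c ^ j * (starRingEnd ℂ) d ^ (b - j)) *
        ((starRingEnd ℂ) (q x) ^ (b + j) * (dz^[i] (dzb^[j] f)) (p x)))
      (fun j => contDiffOn_const.mul (hterm i j)) hx, Finset.mul_sum]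
    refine Finset.sum_congr rfl fun j _ => ?_
    rw [h.cmul _ _ (hterm i j) hx, h.mul _ _ (hqcs.pow _) (hcomp _ (hsm i j)) x hx,
      h.pow _ hqcs (fun _ => 0) (fun y hy => by rw [hdzq y hy]; ring) (b + j) hx,
      (chain (hdp x hx) (diffAt hU (hsm i j) (hpU x hx))).1, Function.iterate_succ_apply']
    ring
  have hA := (der_dz hO).main q hqs c d (fun x hx => (holo (hdq x hx)).1) G hGs hLG a 0 h0
  have hq0 : q 0 = 1 := by simp [hq]
  have hp0 : p 0 = z := by simp [hp]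
  have hcg : dz^[a] (dzb^[b] (fun x => f (p x))) 0 = dz^[a] (G 0) 0 :=
    (der_dz hO).iter_congr _ _ hB a 0 h0
  rw [hcg, hA]
  refine Finset.sum_congr rfl fun i _ => ?_
  rw [hGdef]
  simp only [hq0, hp0, one_pow, one_mul, map_one]
  rw [Finset.mul_sum]
  refine Finset.sum_congr rfl fun j _ => ?_
  push_cast
  ring

end QJ


end

section

/-!
Iterated derivatives in terms of the Wirtinger derivatives.
-/

open MeasureTheory Filter Topology Set
open scoped ContDiff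

namespace QJ

open QE

noncomputable section

namespace ITER

/-! ### The coefficients -/

open Polynomial in
/-- the generating polynomial of the coefficients -/
def gen {k : ℕ} (v : Fin k → ℂ) : Polynomial ℂ := ∏ i, (C (v i) * X + C ((starRingEnd ℂ) (v i)))

open Polynomial in
theorem gen_coeff {k : ℕ} (v : Fin k → ℂ) (a : ℕ) : (gen v).coeff a = sc v a := by
  unfold gen sc
  rw [Finset.prod_add, finsetSum_coeff, Finset.powersetCard_eq_filter, Finset.sum_filter]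
  apply Finset.sum_congr rfl
  intro t _
  have h1 : (∏ i ∈ t, C (v i) * X) * ∏ i ∈ Finset.univ \ t, C ((starRingEnd ℂ) (v i)) =
      C ((∏ i ∈ t, v i) * ∏ i ∈ tᶜ, (starRingEnd ℂ) (v i)) * X ^ t.card := by
    rw [Finset.prod_mul_distrib, Finset.prod_const, C_mul, map_prod, map_prod,
      Finset.compl_eq_univ_sdiff]
    ring
  rw [h1, coeff_C_mul, coeff_X_pow]
  by_cases h : t.card = a
  · rw [if_pos h, if_pos h.symm, mul_one]
  · rw [if_neg h, if_neg (fun h' => h h'.symm), mul_zero]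

open Polynomial in
theorem gen_succ {k : ℕ} (v : Fin (k + 1) → ℂ) :
    gen v = (C (v 0) * X + C ((starRingEnd ℂ) (v 0))) * gen (Fin.tail v) := by
  unfold gen
  rw [Fin.prod_univ_succ]
  rfl

open Polynomial in
theorem sc_zero {k : ℕ} (v : Fin (k + 1) → ℂ) :
    sc v 0 = (starRingEnd ℂ) (v 0) * sc (Fin.tail v) 0 := by
  rw [← gen_coeff, ← gen_coeff, gen_succ]
  simp [Polynomial.mul_coeff_zero]

open Polynomial in
theorem sc_succ {k : ℕ} (v : Fin (k + 1) → ℂ) (a : ℕ) :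
    sc v (a + 1) = v 0 * sc (Fin.tail v) a + (starRingEnd ℂ) (v 0) * sc (Fin.tail v) (a + 1) := by
  rw [← gen_coeff, ← gen_coeff, ← gen_coeff, gen_succ, add_mul, coeff_add, mul_assoc, coeff_C_mul,
    coeff_C_mul, coeff_X_mul]

theorem sc_top {k : ℕ} (v : Fin k → ℂ) {a : ℕ} (h : k < a) : sc v a = 0 := by
  unfold sc
  have : Finset.powersetCard a (Finset.univ : Finset (Fin k)) = ∅ := by
    rw [Finset.powersetCard_eq_empty]
    simpa using h
  rw [this, Finset.sum_empty]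

theorem sc_nil (v : Fin 0 → ℂ) : sc v 0 = 1 := by
  unfold sc
  simp

/-! ### The derivatives -/

theorem smooth_dz {U : Set ℂ} (hU : IsOpen U) {f : ℂ → ℂ} (hf : ContDiffOn ℝ ∞ f U) (a : ℕ) :
    ContDiffOn ℝ ∞ (dz^[a] f) U := by
  induction a with
  | zero => exact hf
  | succ a ih =>
    rw [Function.iterate_succ_apply']
    exact contDiffOn_dz hU ih

theorem smooth_dzb {U : Set ℂ} (hU : IsOpen U) {f : ℂ → ℂ} (hf : ContDiffOn ℝ ∞ f U) (a : ℕ) :
    ContDiffOn ℝ ∞ (dzb^[a] f) U := by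
  induction a with
  | zero => exact hf
  | succ a ih =>
    rw [Function.iterate_succ_apply']
    exact contDiffOn_dzb hU ih

theorem comm_iter {U : Set ℂ} (hU : IsOpen U) {f : ℂ → ℂ} (hf : ContDiffOn ℝ ∞ f U) (a : ℕ) :
    ∀ x ∈ U, dzb (dz^[a] f) x = dz^[a] (dzb f) x := by
  induction a with
  | zero =>
    intro x _
    rfl
  | succ a ih =>
    intro x hx
    rw [Function.iterate_succ_apply', Function.iterate_succ_apply']
    have h1 : ContDiffAt ℝ 2 (dz^[a] f) x :=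
      ((smooth_dz hU hf a).contDiffAt (hU.mem_nhds hx)).of_le
        (show ((2 : ℕ∞) : WithTop ℕ∞) ≤ ((⊤ : ℕ∞) : WithTop ℕ∞) from WithTop.coe_le_coe.2 le_top)
    rw [← dz_dzb_comm h1]
    exact dz_congr_on hU ih hx

theorem fderiv_eq {f : ℂ → ℂ} (z v : ℂ) :
    fderiv ℝ f z v = v * dz f z + (starRingEnd ℂ) v * dzb f z := by
  unfold dz dzb
  have h1 : v = (v.re : ℝ) • (1 : ℂ) + (v.im : ℝ) • Complex.I := by
    apply Complex.ext <;> simp
  have h2 : fderiv ℝ f z v = (v.re : ℂ) * fderiv ℝ f z 1 + (v.im : ℂ) * fderiv ℝ f z Complex.I := by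
    conv_lhs => rw [h1]
    rw [map_add, map_smul, map_smul]
    simp only [Complex.real_smul]
  have h3 : (starRingEnd ℂ) v = (v.re : ℂ) - v.im * Complex.I := by
    apply Complex.ext <;> simp
  have h4 : v = (v.re : ℂ) + v.im * Complex.I := (Complex.re_add_im v).symm
  rw [h2, h3]
  conv_rhs => rw [h4]
  have hI := Complex.I_mul_I
  simp only [Complex.add_re, Complex.ofReal_re, Complex.mul_re, Complex.I_re, mul_zero,
    Complex.ofReal_im, Complex.I_im, mul_one, sub_self, add_zero, Complex.add_im, Complex.mul_im,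
    zero_add]
  linear_combination ((v.im : ℂ) * fderiv ℝ f z Complex.I) * hI

/-- one term -/
def tm (F : ℂ → ℝ) (a b : ℕ) (x : ℂ) : ℂ := dz^[a] (dzb^[b] (fun w => (F w : ℂ))) x

theorem fderiv_tm {U : Set ℂ} (hU : IsOpen U) {F : ℂ → ℝ} (hF : ContDiffOn ℝ ∞ F U) {x : ℂ}
    (hx : x ∈ U) (a b : ℕ) (w : ℂ) :
    fderiv ℝ (tm F a b) x w = w * tm F (a + 1) b x + (starRingEnd ℂ) w * tm F a (b + 1) x := by
  have hFc : ContDiffOn ℝ ∞ (fun w => (F w : ℂ)) U := Complex.ofRealCLM.contDiff.comp_contDiffOn hF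
  rw [fderiv_eq]
  have h1 : dz (tm F a b) x = tm F (a + 1) b x := by
    unfold tm
    rw [Function.iterate_succ_apply']
  have h2 : dzb (tm F a b) x = tm F a (b + 1) x := by
    have h3 := comm_iter hU (smooth_dzb hU hFc b) a x hx
    unfold tm
    rw [Function.iterate_succ_apply' dzb]
    exact h3
  rw [h1, h2]

theorem smooth_tm {U : Set ℂ} (hU : IsOpen U) {F : ℂ → ℝ} (hF : ContDiffOn ℝ ∞ F U) (a b : ℕ) :
    ContDiffOn ℝ ∞ (tm F a b) U := by
  have hFc : ContDiffOn ℝ ∞ (fun w => (F w : ℂ)) U := Complex.ofRealCLM.contDiff.comp_contDiffOn hF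
  exact smooth_dz hU (smooth_dzb hU hFc b) a

theorem main {U : Set ℂ} (hU : IsOpen U) {F : ℂ → ℝ} (hF : ContDiffOn ℝ ∞ F U) (k : ℕ) :
    ∀ (v : Fin k → ℂ), ∀ x ∈ U, ((iteratedFDeriv ℝ k F x v : ℝ) : ℂ)
      = ∑ a ∈ Finset.range (k + 1), sc v a * tm F a (k - a) x := by
  induction k with
  | zero =>
    intro v x _
    simp only [zero_add, Finset.range_one, Finset.sum_singleton, sc_nil, one_mul]
    simp [tm]
  | succ k ih =>
    intro v x hx
    have hFx : ContDiffAt ℝ ∞ F x := hF.contDiffAt (hU.mem_nhds hx)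
    have hd : DifferentiableAt ℝ (iteratedFDeriv ℝ k F) x :=
      hFx.differentiableAt_iteratedFDeriv (by exact_mod_cast WithTop.coe_lt_top _)
    rw [iteratedFDeriv_succ_apply_left,
      ← fderiv_continuousMultilinear_apply_const_apply hd (Fin.tail v) (v 0)]
    have hdr : DifferentiableAt ℝ (fun y => iteratedFDeriv ℝ k F y (Fin.tail v)) x :=
      hd.continuousMultilinear_apply_const _
    have h1 : ((fderiv ℝ (fun y => iteratedFDeriv ℝ k F y (Fin.tail v)) x (v 0) : ℝ) : ℂ) =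
        fderiv ℝ (fun y => ((iteratedFDeriv ℝ k F y (Fin.tail v) : ℝ) : ℂ)) x (v 0) := by
      have h2 : HasFDerivAt (fun y => ((iteratedFDeriv ℝ k F y (Fin.tail v) : ℝ) : ℂ))
          (Complex.ofRealCLM.comp (fderiv ℝ (fun y => iteratedFDeriv ℝ k F y (Fin.tail v)) x)) x :=
        (Complex.ofRealCLM.hasFDerivAt).comp x hdr.hasFDerivAt
      rw [h2.fderiv]
      rfl
    rw [h1]
    have h3 : (fun y => ((iteratedFDeriv ℝ k F y (Fin.tail v) : ℝ) : ℂ)) =ᶠ[𝓝 x]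
        fun y => ∑ a ∈ Finset.range (k + 1), sc (Fin.tail v) a * tm F a (k - a) y := by
      filter_upwards [hU.mem_nhds hx] with y hy
      exact ih (Fin.tail v) y hy
    rw [h3.fderiv_eq]
    have hdt : ∀ a b, DifferentiableAt ℝ (tm F a b) x := fun a b =>
      ((smooth_tm hU hF a b).contDiffAt (hU.mem_nhds hx)).differentiableAt (by simp)
    have h4 : fderiv ℝ (fun y => ∑ a ∈ Finset.range (k + 1),
        sc (Fin.tail v) a * tm F a (k - a) y) x (v 0) =
        ∑ a ∈ Finset.range (k + 1), sc (Fin.tail v) a *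
          (v 0 * tm F (a + 1) (k - a) x + (starRingEnd ℂ) (v 0) * tm F a (k - a + 1) x) := by
      rw [fderiv_fun_sum fun a _ => (hdt a (k - a)).const_mul _]
      rw [_root_.sum_apply]
      apply Finset.sum_congr rfl
      intro a _
      rw [fderiv_const_mul (hdt a (k - a)), smul_apply, smul_eq_mul,
        fderiv_tm hU hF hx]
    rw [h4]
    -- the sums
    rw [Finset.sum_range_succ' _ (k + 1)]
    have h5 : ∑ a ∈ Finset.range (k + 1), sc v (a + 1) * tm F (a + 1) (k + 1 - (a + 1)) x =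
        ∑ a ∈ Finset.range (k + 1), v 0 * sc (Fin.tail v) a * tm F (a + 1) (k - a) x
          + ∑ a ∈ Finset.range (k + 1), (starRingEnd ℂ) (v 0) * sc (Fin.tail v) (a + 1)
            * tm F (a + 1) (k - a) x := by
      rw [← Finset.sum_add_distrib]
      apply Finset.sum_congr rfl
      intro a _
      rw [sc_succ, Nat.add_sub_add_right]
      ring
    rw [h5, Finset.sum_range_succ (fun a => (starRingEnd ℂ) (v 0) * sc (Fin.tail v) (a + 1)
      * tm F (a + 1) (k - a) x) k, sc_top (Fin.tail v) (Nat.lt_succ_self k)]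
    have h6 : ∑ a ∈ Finset.range (k + 1), sc (Fin.tail v) a *
          (v 0 * tm F (a + 1) (k - a) x + (starRingEnd ℂ) (v 0) * tm F a (k - a + 1) x) =
        ∑ a ∈ Finset.range (k + 1), v 0 * sc (Fin.tail v) a * tm F (a + 1) (k - a) x
          + ∑ a ∈ Finset.range (k + 1), (starRingEnd ℂ) (v 0) * sc (Fin.tail v) a
            * tm F a (k - a + 1) x := by
      rw [← Finset.sum_add_distrib]
      apply Finset.sum_congr rfl
      intro a _
      ring
    rw [h6, Finset.sum_range_succ' (fun a => (starRingEnd ℂ) (v 0) * sc (Fin.tail v) a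
      * tm F a (k - a + 1) x) k, sc_zero v]
    have h7 : ∑ a ∈ Finset.range k, (starRingEnd ℂ) (v 0) * sc (Fin.tail v) (a + 1)
          * tm F (a + 1) (k - (a + 1) + 1) x =
        ∑ a ∈ Finset.range k, (starRingEnd ℂ) (v 0) * sc (Fin.tail v) (a + 1)
          * tm F (a + 1) (k - a) x := by
      apply Finset.sum_congr rfl
      intro a ha
      rw [Finset.mem_range] at ha
      have : k - (a + 1) + 1 = k - a := by omega
      rw [this]
    rw [h7]
    simp only [Nat.sub_zero, mul_zero, zero_mul, add_zero]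
    ring

end ITER

/-- ITER: iterated derivatives in terms of the Wirtinger derivatives -/
theorem stmtIter : StmtIter := by
  intro U F hU h0 hF k v
  exact ITER.main hU hF k v 0 h0

end

end QJ


end

section

/-!
Derivatives of the plane waves (lemmas for PWT and PWF).
-/

open Complex MeasureTheory Filter Topology Set
open scoped ContDiff

namespace QJ

open QE

noncomputable section

namespace PWL

/-- the wave with complex values -/
def wv (u : ℂ) (c : ℝ) (x : ℂ) : ℂ := ((Real.sqrt 2 * Real.cos ((x * u).re + c) : ℝ) : ℂ)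

/-- the wave at the origin, shifted by `n` quarters of a period -/
def cs (n : ℤ) (s : ℝ) : ℝ := Real.sqrt 2 * Real.cos (s + n * (Real.pi / 2))

/-- the linear map `v ↦ Re (v u)` -/
def rl (u : ℂ) : ℂ →L[ℝ] ℝ := Complex.reCLM.comp ((ContinuousLinearMap.mul ℝ ℂ).flip u)

lemma rl_apply (u v : ℂ) : rl u v = (v * u).re := rfl

lemma hasFDerivAt_wv (u : ℂ) (c : ℝ) (x : ℂ) :
    HasFDerivAt (wv u c) (Complex.ofRealCLM.comp
      (Real.sqrt 2 • (-Real.sin ((x * u).re + c)) • rl u)) x := by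
  have h1 : HasFDerivAt (fun y : ℂ => (y * u).re + c) (rl u) x :=
    (rl u).hasFDerivAt.add_const c
  have h2 := (Real.hasDerivAt_cos ((x * u).re + c)).comp_hasFDerivAt x h1
  have h3 := h2.const_smul (Real.sqrt 2)
  exact Complex.ofRealCLM.hasFDerivAt.comp x h3

lemma fderiv_wv (u : ℂ) (c : ℝ) (x v : ℂ) :
    fderiv ℝ (wv u c) x v =
      ((Real.sqrt 2 * (-Real.sin ((x * u).re + c) * (v * u).re) : ℝ) : ℂ) := by
  rw [(hasFDerivAt_wv u c x).fderiv]
  rfl

lemma diff_wv (u : ℂ) (c : ℝ) (x : ℂ) : DifferentiableAt ℝ (wv u c) x :=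
  (hasFDerivAt_wv u c x).differentiableAt

lemma cos_shift (y c : ℝ) : Real.cos (y + (c + Real.pi / 2)) = -Real.sin (y + c) := by
  rw [← add_assoc, Real.cos_add_pi_div_two]

lemma dz_wv (u : ℂ) (c : ℝ) : dz (wv u c) = fun x => u / 2 * wv u (c + Real.pi / 2) x := by
  funext x
  unfold dz
  rw [fderiv_wv, fderiv_wv]
  unfold wv
  rw [cos_shift, one_mul]
  have h1 : (I * u).re = -u.im := by simp
  rw [h1]
  apply Complex.ext <;> simp <;> ring

lemma dzb_wv (u : ℂ) (c : ℝ) :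
    dzb (wv u c) = fun x => (starRingEnd ℂ) u / 2 * wv u (c + Real.pi / 2) x := by
  funext x
  unfold dzb
  rw [fderiv_wv, fderiv_wv]
  unfold wv
  rw [cos_shift, one_mul]
  have h1 : (I * u).re = -u.im := by simp
  rw [h1]
  apply Complex.ext <;> simp <;> ring

lemma dzb_iter (u : ℂ) (c : ℝ) (b : ℕ) : dzb^[b] (wv u c) =
    fun x => ((starRingEnd ℂ) u / 2) ^ b * wv u (c + b * (Real.pi / 2)) x := by
  induction b with
  | zero =>
    funext x
    simp
  | succ b ih =>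
    rw [Function.iterate_succ_apply', ih]
    funext x
    rw [dzb_const_mul _ (diff_wv _ _ _), dzb_wv]
    have h1 : c + ((b + 1 : ℕ) : ℝ) * (Real.pi / 2) = c + b * (Real.pi / 2) + Real.pi / 2 := by
      push_cast
      ring
    rw [h1, pow_succ]
    ring

lemma dz_iter (u C : ℂ) (c : ℝ) (a : ℕ) : dz^[a] (fun x => C * wv u c x) =
    fun x => C * (u / 2) ^ a * wv u (c + a * (Real.pi / 2)) x := by
  induction a with
  | zero =>
    funext x
    simp
  | succ a ih =>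
    rw [Function.iterate_succ_apply', ih]
    funext x
    rw [dz_const_mul _ (diff_wv _ _ _), dz_wv]
    have h1 : c + ((a + 1 : ℕ) : ℝ) * (Real.pi / 2) = c + a * (Real.pi / 2) + Real.pi / 2 := by
      push_cast
      ring
    rw [h1, pow_succ]
    ring

lemma conj_uu (θ : ℝ) : (starRingEnd ℂ) (uu θ) = (uu θ)⁻¹ := conj_of_norm_one (norm_uu θ)

lemma mixed (θ s : ℝ) (a b : ℕ) : dz^[a] (dzb^[b] (wv (uu θ) s)) 0 =
    cW a b * uu θ ^ ((a : ℤ) - b) * ((cs ((a : ℤ) - b) s : ℝ) : ℂ) := by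
  rw [dzb_iter, dz_iter]
  change ((starRingEnd ℂ) (uu θ) / 2) ^ b * (uu θ / 2) ^ a *
    wv (uu θ) (s + b * (Real.pi / 2) + a * (Real.pi / 2)) 0 = _
  have h1 : wv (uu θ) (s + b * (Real.pi / 2) + a * (Real.pi / 2)) 0 =
      (-1) ^ b * ((cs ((a : ℤ) - b) s : ℝ) : ℂ) := by
    unfold wv cs
    have h2 : ((0 : ℂ) * uu θ).re + (s + b * (Real.pi / 2) + a * (Real.pi / 2)) =
        s + (((a : ℤ) - b : ℤ) : ℝ) * (Real.pi / 2) + b * Real.pi := by
      push_cast
      simp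
      ring
    rw [h2, Real.cos_add_nat_mul_pi]
    push_cast
    ring
  rw [h1, conj_uu, zpow_sub₀ (uu_ne θ), zpow_natCast, zpow_natCast]
  unfold cW
  rw [div_pow, div_pow, inv_pow, inv_pow, pow_add]
  ring

lemma planeWave_eq (θ s : ℝ) : (fun x => ((planeWave θ s x : ℝ) : ℂ)) = wv (uu θ) s := by
  funext x
  unfold planeWave wv uu
  rw [neg_mul]

lemma smooth_planeWave (θ s : ℝ) : ContDiff ℝ ∞ (planeWave θ s) := by
  unfold planeWave
  have h1 : ContDiff ℝ ∞ (fun x : ℂ => (x * Complex.exp (-(θ * Complex.I))).re) :=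
    (rl (Complex.exp (-(θ * Complex.I)))).contDiff
  exact contDiff_const.mul (Real.contDiff_cos.comp (h1.add contDiff_const))

/-- the derivatives of the plane wave at the origin -/
theorem jet_wave (hIter : StmtIter) (θ s : ℝ) (k : ℕ) (v : Fin k → ℂ) :
    ((iteratedFDeriv ℝ k (planeWave θ s) 0 v : ℝ) : ℂ) =
      ∑ a ∈ Finset.range (k + 1), (sc v a * cW a (k - a)) *
        uu θ ^ ((a : ℤ) - (k - a : ℕ)) * ((cs ((a : ℤ) - (k - a : ℕ)) s : ℝ) : ℂ) := by
  rw [hIter Set.univ (planeWave θ s) isOpen_univ (Set.mem_univ _)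
    (smooth_planeWave θ s).contDiffOn k v]
  refine Finset.sum_congr rfl fun a _ => ?_
  rw [planeWave_eq, mixed]
  ring

lemma continuous_cs (n : ℤ) : Continuous (cs n) := by
  unfold cs
  fun_prop

/-- continuous functions are integrable over the angles -/
theorem integrable_angle {F : Type*} [NormedAddCommGroup F] {f : ℝ → F} (hf : Continuous f) :
    Integrable f angle := by
  have h1 : IntegrableOn f (Set.Ioc 0 (2 * Real.pi)) := hf.integrableOn_Ioc
  refine Integrable.smul_measure h1 ?_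
  rw [Real.volume_Ioc, sub_zero]
  exact ENNReal.inv_ne_top.mpr (ENNReal.ofReal_pos.mpr (by positivity)).ne'

lemma angle_int {F : Type*} [NormedAddCommGroup F] [NormedSpace ℝ F] (f : ℝ → F) :
    ∫ t, f t ∂angle = (2 * Real.pi)⁻¹ • ∫ t in (0 : ℝ)..(2 * Real.pi), f t := ang_int f

lemma angle_zpow (k : ℤ) : ∫ t, uu t ^ k ∂angle = if k = 0 then 1 else 0 := ang_zpow k

/-- the mean of a trigonometric function of nonzero frequency vanishes -/
lemma int_cos (k : ℕ) (hk : k ≠ 0) (c : ℝ) :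
    ∫ s in (0 : ℝ)..(2 * Real.pi), Real.cos (k * s + c) = 0 := by
  have hk' : (k : ℝ) ≠ 0 := Nat.cast_ne_zero.mpr hk
  rw [intervalIntegral.integral_comp_mul_add (fun x => Real.cos x) hk', integral_cos]
  have h1 : (k : ℝ) * (2 * Real.pi) + c = c + k * (2 * Real.pi) := by ring
  rw [h1, Real.sin_add_nat_mul_two_pi, mul_zero, zero_add, sub_self, smul_zero]

/-- the mean of a product of two waves at the origin -/
theorem mean_two (n m : ℤ) :
    ∫ s, cs n s * cs m s ∂angle = Real.cos (((n : ℝ) - m) * (Real.pi / 2)) := by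
  have h1 : ∀ s, cs n s * cs m s = Real.cos (((2 : ℕ) : ℝ) * s + ((n : ℝ) + m) * (Real.pi / 2))
      + Real.cos (((n : ℝ) - m) * (Real.pi / 2)) := by
    intro s
    unfold cs
    have h2 : Real.sqrt 2 * Real.sqrt 2 = 2 := Real.mul_self_sqrt (by norm_num)
    have h3 : ((2 : ℕ) : ℝ) * s + ((n : ℝ) + m) * (Real.pi / 2) =
        (s + n * (Real.pi / 2)) + (s + m * (Real.pi / 2)) := by
      push_cast
      ring
    have h4 : ((n : ℝ) - m) * (Real.pi / 2) =
        (s + n * (Real.pi / 2)) - (s + m * (Real.pi / 2)) := by ring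
    rw [h3, h4, Real.cos_add (s + n * (Real.pi / 2)) (s + m * (Real.pi / 2)),
      Real.cos_sub (s + n * (Real.pi / 2)) (s + m * (Real.pi / 2))]
    linear_combination (Real.cos (s + n * (Real.pi / 2)) * Real.cos (s + m * (Real.pi / 2))) * h2
  simp only [h1]
  rw [angle_int, intervalIntegral.integral_add, int_cos 2 (by norm_num),
    intervalIntegral.integral_const, zero_add, sub_zero, smul_eq_mul, smul_eq_mul, ← mul_assoc,
    inv_mul_cancel₀ (by positivity), one_mul]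
  · exact (by fun_prop : Continuous fun s : ℝ => Real.cos (((2 : ℕ) : ℝ) * s +
      ((n : ℝ) + m) * (Real.pi / 2))).intervalIntegrable _ _
  · exact continuous_const.intervalIntegrable _ _

end PWL

end

end QJ


end

section

/-!
Covariances of the random plane wave.
-/

open Complex MeasureTheory Filter Topology Set
open scoped ContDiff

namespace QJ

open QE

noncomputable section

namespace PWT

open PWL

lemma P_eq (n m : ℤ) : (if n + m = 0 then
    ((Real.cos (((n : ℝ) - m) * (Real.pi / 2)) : ℝ) : ℂ) else 0) = P n m := by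
  unfold P
  by_cases h : n + m = 0
  · rw [if_pos h, if_pos h]
    have h1 : (m : ℝ) = -n := by
      have h2 : m = -n := by omega
      rw [h2]
      push_cast
      ring
    have h2 : ((n : ℝ) - m) * (Real.pi / 2) = n * Real.pi := by
      rw [h1]
      ring
    rw [h2, Real.cos_int_mul_pi]
    push_cast
    rfl
  · rw [if_neg h, if_neg h]

end PWT

open PWL _root_.QJ.PWT in
theorem stmtPwt (hIter : StmtIter) : StmtPwt := by
  intro k l v w
  unfold covar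
  rw [← integral_complex_ofReal]
  have h1 : ∀ θ : ℝ, ((∫ s, iteratedFDeriv ℝ k (planeWave θ s) 0 v
      * iteratedFDeriv ℝ l (planeWave θ s) 0 w ∂angle : ℝ) : ℂ) =
      ∑ a ∈ Finset.range (k + 1), ∑ b ∈ Finset.range (l + 1),
        ((sc v a * cW a (k - a)) * (sc w b * cW b (l - b)) *
          ((Real.cos (((((a : ℤ) - (k - a : ℕ) : ℤ) : ℝ) - ((b : ℤ) - (l - b : ℕ) : ℤ))
            * (Real.pi / 2)) : ℝ) : ℂ)) *
          uu θ ^ (((a : ℤ) - (k - a : ℕ)) + ((b : ℤ) - (l - b : ℕ))) := by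
    intro θ
    rw [← integral_complex_ofReal]
    have h2 : ∀ s : ℝ, ((iteratedFDeriv ℝ k (planeWave θ s) 0 v
        * iteratedFDeriv ℝ l (planeWave θ s) 0 w : ℝ) : ℂ) =
        ∑ a ∈ Finset.range (k + 1), ∑ b ∈ Finset.range (l + 1),
          ((sc v a * cW a (k - a)) * (sc w b * cW b (l - b)) *
            uu θ ^ (((a : ℤ) - (k - a : ℕ)) + ((b : ℤ) - (l - b : ℕ)))) *
            ((cs ((a : ℤ) - (k - a : ℕ)) s * cs ((b : ℤ) - (l - b : ℕ)) s : ℝ) : ℂ) := by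
      intro s
      rw [Complex.ofReal_mul, jet_wave hIter, jet_wave hIter, Finset.sum_mul_sum]
      refine Finset.sum_congr rfl fun a _ => Finset.sum_congr rfl fun b _ => ?_
      rw [zpow_add₀ (uu_ne θ)]
      push_cast
      ring
    simp only [h2]
    have hi : ∀ (C : ℂ) (n m : ℤ), Integrable (fun s => C * ((cs n s * cs m s : ℝ) : ℂ)) angle :=
      fun C n m => integrable_angle (continuous_const.mul
        (Complex.continuous_ofReal.comp ((continuous_cs n).mul (continuous_cs m))))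
    rw [integral_finsetSum _ fun a _ => integrable_finsetSum _ fun b _ => hi _ _ _]
    refine Finset.sum_congr rfl fun a _ => ?_
    rw [integral_finsetSum _ fun b _ => hi _ _ _]
    refine Finset.sum_congr rfl fun b _ => ?_
    rw [integral_const_mul, integral_complex_ofReal, mean_two]
    ring
  simp only [h1]
  have hi : ∀ (C : ℂ) (n : ℤ), Integrable (fun θ => C * uu θ ^ n) angle := fun C n =>
    integrable_angle (continuous_const.mul (continuous_uu_zpow n))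
  rw [integral_finsetSum _ fun a _ => integrable_finsetSum _ fun b _ => hi _ _]
  refine Finset.sum_congr rfl fun a _ => ?_
  rw [integral_finsetSum _ fun b _ => hi _ _]
  refine Finset.sum_congr rfl fun b _ => ?_
  rw [integral_const_mul, angle_zpow, ← P_eq]
  by_cases h : ((a : ℤ) - (k - a : ℕ)) + ((b : ℤ) - (l - b : ℕ)) = 0
  · rw [if_pos h, if_pos h, mul_one]
  · rw [if_neg h, if_neg h, mul_zero, mul_zero]

end

end QJ


end

section

/-!
Cubic and quartic statistics of quantum ergodic eigenfunctions: the derivatives of the local wave at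
the origin.
-/

open MeasureTheory Filter Topology Set UpperHalfPlane MatrixGroups
open scoped ContDiff

namespace QJ

open QE

noncomputable section

namespace WEXP

/-- iterated Wirtinger derivatives of functions which agree on an open set -/
theorem iter_congr_on {f g : ℂ → ℂ} {U : Set ℂ} (hU : IsOpen U) (h : ∀ z ∈ U, f z = g z) (a b : ℕ) :
    ∀ z ∈ U, dz^[a] (dzb^[b] f) z = dz^[a] (dzb^[b] g) z := by
  have hb : ∀ b : ℕ, ∀ z ∈ U, dzb^[b] f z = dzb^[b] g z := by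
    intro b
    induction b with
    | zero => exact h
    | succ b ih =>
      intro z hz
      rw [Function.iterate_succ_apply', Function.iterate_succ_apply']
      exact dzb_congr_on hU ih hz
  induction a with
  | zero => exact hb b
  | succ a ih =>
    intro z hz
    rw [Function.iterate_succ_apply', Function.iterate_succ_apply']
    exact dz_congr_on hU ih hz

theorem wave_eq {ρ φ : ℍ → ℝ} {m : ℝ} (hm : 0 < m) (x : ℂ) (θ : ℝ) {z : ℂ} (hz : 0 < z.im)
    (hx : ‖x / ((m * Real.exp (ρ (ofComplex z)) : ℝ) : ℂ)‖ < 1) {c d : ℂ}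
    (hc : c = z.im * ((1 / m : ℝ) * (Real.exp (-ρ (ofComplex z)) : ℝ)) * uu θ ^ 2)
    (hd : d = ((1 / m : ℝ) * (Real.exp (-ρ (ofComplex z)) : ℝ)) * uu θ * Real.sin θ) :
    Berry.rWave ρ φ m x (ofComplex z, θ) = φ (ofComplex (z + c * x / (1 + d * x))) ∧
      0 < (z + c * x / (1 + d * x)).im := by
  unfold Berry.rWave
  simp only
  set t : ℂ := x / ((m * Real.exp (ρ (ofComplex z)) : ℝ) : ℂ) with ht
  have e1 := frame_coe (ofComplex z) θ hx
  have e2 : ((ofComplex z : ℍ) : ℂ) = z := by rw [ofComplex_apply_of_im_pos hz]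
  have e3 : (ofComplex z : ℍ).im = z.im := by rw [ofComplex_apply_of_im_pos hz]; rfl
  have e4 : ((Berry.frame (ofComplex z, θ) • (ofComplex (Complex.I + t) : ℍ) : ℍ) : ℂ)
      = z + c * x / (1 + d * x) := by
    rw [e1, e2, e3, hc, hd, ht]
    set E : ℂ := ((Real.exp (ρ (ofComplex z)) : ℝ) : ℂ) with hE
    have hE0 : E ≠ 0 := by rw [hE]; exact_mod_cast Real.exp_ne_zero _
    have hEi : ((Real.exp (-ρ (ofComplex z)) : ℝ) : ℂ) = E⁻¹ := by
      rw [Real.exp_neg, Complex.ofReal_inv]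
    have hm0 : (m : ℂ) ≠ 0 := by exact_mod_cast hm.ne'
    have e5 : ((m * Real.exp (ρ (ofComplex z)) : ℝ) : ℂ) = (m : ℂ) * E := by
      rw [Complex.ofReal_mul]
    have e6 : ((1 / m : ℝ) : ℂ) = (m : ℂ)⁻¹ := by
      rw [one_div, Complex.ofReal_inv]
    rw [e5, e6, hEi]
    have e7 : x / ((m : ℂ) * E) = (m : ℂ)⁻¹ * E⁻¹ * x := by
      rw [div_eq_mul_inv, mul_inv]; ring
    rw [e7]
    have e8 : (m : ℂ)⁻¹ * E⁻¹ * x * uu θ * (Real.sin θ : ℂ)
        = (m : ℂ)⁻¹ * E⁻¹ * uu θ * (Real.sin θ : ℂ) * x := by ring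
    rw [e8]
    ring
  constructor
  · rw [← e4, ofComplex_apply]
  · rw [← e4]
    exact (Berry.frame (ofComplex z, θ) • (ofComplex (Complex.I + t) : ℍ)).im_pos

end WEXP

open _root_.QJ.WEXP in
theorem stmtWexp (hComp : StmtComp) (hIter : StmtIter) : StmtWexp := by
  intro ρ φ m hm hφ z hz θ k v c d hc hd
  set R : ℝ := m * Real.exp (ρ (ofComplex z)) with hR
  have hR0 : 0 < R := by positivity
  set f : ℂ → ℝ := fun w => φ (ofComplex w) with hf
  set H : Set ℂ := {w : ℂ | 0 < w.im} with hH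
  have hHo : IsOpen H := isOpen_lt continuous_const Complex.continuous_im
  set F : ℂ → ℝ := fun x => Berry.rWave ρ φ m x (ofComplex z, θ) with hF
  set B : Set ℂ := Metric.ball 0 R with hB
  have hBo : IsOpen B := Metric.isOpen_ball
  have h0B : (0 : ℂ) ∈ B := Metric.mem_ball_self hR0
  have hnorm : ∀ x ∈ B, ‖x / ((R : ℝ) : ℂ)‖ < 1 := by
    intro x hx
    rw [norm_div, Complex.norm_real, Real.norm_eq_abs, abs_of_pos hR0, div_lt_one hR0]
    exact mem_ball_zero_iff.mp hx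
  have heq : ∀ x ∈ B, F x = f (z + c * x / (1 + d * x)) := fun x hx =>
    (wave_eq hm x θ hz (hnorm x hx) hc hd).1
  have hmaps : ∀ x ∈ B, z + c * x / (1 + d * x) ∈ H := fun x hx =>
    (wave_eq (φ := φ) hm x θ hz (hnorm x hx) hc hd).2
  have hden : ∀ x ∈ B, 1 + d * x ≠ 0 := by
    intro x hx h0
    have h1 : ‖d * x‖ < 1 := by
      have h2 : d * x = x / ((R : ℝ) : ℂ) * uu θ * Real.sin θ := by
        rw [hd, hR, Real.exp_neg]
        push_cast
        have : (m : ℂ) ≠ 0 := by exact_mod_cast hm.ne'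
        have := Complex.exp_ne_zero (ρ (ofComplex z) : ℂ)
        field_simp
      rw [h2, norm_mul, norm_mul, norm_uu, mul_one]
      have h3 := hnorm x hx
      have h4 : ‖((Real.sin θ : ℝ) : ℂ)‖ ≤ 1 := by
        rw [Complex.norm_real, Real.norm_eq_abs]
        exact Real.abs_sin_le_one θ
      calc ‖x / ((R : ℝ) : ℂ)‖ * ‖((Real.sin θ : ℝ) : ℂ)‖ ≤ ‖x / ((R : ℝ) : ℂ)‖ * 1 :=
            mul_le_mul_of_nonneg_left h4 (norm_nonneg _)
        _ < 1 := by rw [mul_one]; exact h3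
    have h5 : d * x = -1 := by linear_combination h0
    rw [h5] at h1
    simp at h1
  have hp : ContDiffOn ℝ ∞ (fun x : ℂ => z + c * x / (1 + d * x)) B := by
    have h1 : ContDiffOn ℝ ∞ (fun x : ℂ => c * x) B := contDiffOn_const.mul contDiffOn_id
    have h2 : ContDiffOn ℝ ∞ (fun x : ℂ => (1 + d * x)⁻¹) B :=
      (contDiffOn_const.add (contDiffOn_const.mul contDiffOn_id)).inv hden
    have h3 := (contDiffOn_const (c := z)).add (h1.mul h2)
    refine h3.congr fun x _ => ?_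
    rw [div_eq_mul_inv]
  have hFs : ContDiffOn ℝ ∞ F B := (hφ.comp hp hmaps).congr heq
  have h1 := hIter B F hBo h0B hFs k v
  rw [h1]
  refine Finset.sum_congr rfl fun a _ => ?_
  congr 1
  have h2 := iter_congr_on hBo (f := fun w => (F w : ℂ))
    (g := fun x => (fun w : ℂ => ((f w : ℝ) : ℂ)) (z + c * x / (1 + d * x)))
    (fun x hx => by
      change ((F x : ℝ) : ℂ) = _
      rw [heq x hx]) a (k - a) 0 h0B
  rw [h2]
  have hfC : ContDiffOn ℝ ∞ (fun w : ℂ => ((f w : ℝ) : ℂ)) H :=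
    Complex.ofRealCLM.contDiff.comp_contDiffOn hφ
  exact hComp H (fun w : ℂ => ((f w : ℝ) : ℂ)) z c d hHo hz hfC a (k - a)

end

end QJ


end

section

/-!
Cubic and quartic statistics of quantum ergodic eigenfunctions: a smooth test function computes the
averages of the invariant functions (TEST).
-/

open MeasureTheory Filter Topology Set UpperHalfPlane MatrixGroups
open scoped ContDiff

namespace QJ

open QE

noncomputable section

namespace TEST

variable {Γ : Subgroup SL(2, ℝ)} {ρ : ℍ → ℝ} {D : Set ℍ}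

lemma isOpen_HH : IsOpen {w : ℂ | 0 < w.im} := isOpen_lt continuous_const Complex.continuous_im

/-- a smooth cut-off function -/
lemma exists_cut_smooth {K : Set ℍ} (hK : IsCompact K) : ∃ c : ℂ → ℝ, ContDiff ℝ ∞ c ∧
    HasCompactSupport c ∧ tsupport c ⊆ {w | 0 < w.im} ∧ (∀ w, 0 ≤ c w) ∧
    ∀ z ∈ K, c (z : ℂ) = 1 := by
  have hKc : IsCompact (UpperHalfPlane.coe '' K) := hK.image continuous_coe
  obtain ⟨χ, h1, h2, h3⟩ := exists_cutoff_nonneg (U := {w : ℂ | 0 < w.im}) isOpen_HH hKc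
    (by rintro _ ⟨z, -, rfl⟩; exact z.im_pos)
  have e : χ = fun z => Complex.re ((χ z : ℂ)) := by
    funext z
    simp
  have hsup : Function.support χ = Function.support fun z => (χ z : ℂ) := by
    ext z
    simp
  have hts : tsupport χ = tsupport fun z => (χ z : ℂ) := by
    unfold tsupport
    rw [hsup]
  refine ⟨χ, ?_, ?_, ?_, h2, fun z hz => h3 _ ⟨z, hz, rfl⟩⟩
  · rw [e]
    exact Complex.reCLM.contDiff.comp h1.smooth
  · unfold HasCompactSupport
    rw [hts]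
    exact h1.supp
  · rw [hts]
    exact h1.sub

/-- the Moebius action is smooth -/
lemma smooth_act (g : SL(2, ℝ)) {w : ℂ} (hw : 0 < w.im) :
    ContDiffAt ℝ ∞ (fun v : ℂ => ((g • ofComplex v : ℍ) : ℂ)) w := by
  have e : (fun v : ℂ => ((g • ofComplex v : ℍ) : ℂ)) =ᶠ[𝓝 w] fun v =>
      (((g 0 0 : ℝ) : ℂ) * v + ((g 0 1 : ℝ) : ℂ)) / (((g 1 0 : ℝ) : ℂ) * v + ((g 1 1 : ℝ) : ℂ)) := by
    filter_upwards [isOpen_HH.mem_nhds hw] with v hv
    rw [coe_specialLinearGroup_apply, ofComplex_apply_of_im_pos hv]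
    rfl
  have hne : ((g 1 0 : ℝ) : ℂ) * w + ((g 1 1 : ℝ) : ℂ) ≠ 0 := by
    have h := denom_ne_zero (g : GL (Fin 2) ℝ) (⟨w, hw⟩ : ℍ)
    simpa [denom] using h
  refine ContDiffAt.congr_of_eventuallyEq ?_ e
  have h1 : ContDiffAt ℝ ∞ (fun v : ℂ => ((g 0 0 : ℝ) : ℂ) * v + ((g 0 1 : ℝ) : ℂ)) w :=
    (contDiffAt_const.mul contDiffAt_id).add contDiffAt_const
  have h2 : ContDiffAt ℝ ∞ (fun v : ℂ => ((g 1 0 : ℝ) : ℂ) * v + ((g 1 1 : ℝ) : ℂ)) w :=
    (contDiffAt_const.mul contDiffAt_id).add contDiffAt_const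
  simp only [div_eq_mul_inv]
  exact h1.mul (h2.inv hne)

open Surf in
/-- the sum of the translates is smooth -/
lemma smooth_NN [Countable Γ] (hD : IsFundamentalDomain Γ D (volume : Measure ℍ)) {c : ℂ → ℝ}
    (hc : ContDiff ℝ ∞ c) {R : ℝ} (hχ : ∀ z : ℍ, c z ≠ 0 → dist z I ≤ R) {w : ℂ} (hw : 0 < w.im) :
    ContDiffAt ℝ ∞ (fun v : ℂ => NN Γ (fun z : ℍ => c z) (ofComplex v)) w := by
  obtain ⟨t, ht, hfin⟩ := locallyFinite (χ := fun z : ℍ => c z) hD hχ (ofComplex w)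
  have hcont : ContinuousAt (ofComplex : ℂ → ℍ) w :=
    (contMDiffAt_ofComplex (n := 0) hw).continuousAt
  have e : (fun v : ℂ => NN Γ (fun z : ℍ => c z) (ofComplex v)) =ᶠ[𝓝 w] fun v =>
      ∑ γ ∈ hfin.toFinset, c ((γ • ofComplex v : ℍ) : ℂ) := by
    filter_upwards [hcont.eventually_mem ht] with v hv
    unfold NN
    refine tsum_eq_sum fun γ hγ => ?_
    by_contra hne
    apply hγ
    rw [Set.Finite.mem_toFinset]
    exact ⟨ofComplex v, hne, hv⟩
  refine ContDiffAt.congr_of_eventuallyEq ?_ e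
  refine ContDiffAt.sum fun γ _ => ?_
  exact hc.contDiffAt.comp w (smooth_act (γ : SL(2, ℝ)) hw)

open Surf in
/-- a smooth test function computes the integrals over `D` of all invariant functions -/
lemma exists_test_smooth [Countable Γ] (hD : IsFundamentalDomain Γ D (volume : Measure ℍ))
    (hDm : MeasurableSet D) (hK : ∃ K : Set ℍ, IsCompact K ∧ ∀ z, ∃ γ ∈ Γ, γ • z ∈ K)
    (hρ : Continuous ρ) (hρs : ContDiffOn ℝ ∞ (fun w : ℂ => ρ (ofComplex w)) {w | 0 < w.im})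
    (hρΓ : ∀ γ ∈ Γ, ∀ z, ρ (γ • z) = ρ z) :
    ∃ ζ : ℂ → ℝ, ContDiff ℝ ∞ ζ ∧ HasCompactSupport ζ ∧ tsupport ζ ⊆ {w | 0 < w.im} ∧
      (∀ w, 0 ≤ ζ w) ∧ ∀ f : ℍ → ℝ, Continuous f → (∀ z, 0 ≤ f z) →
        (∀ γ ∈ Γ, ∀ z, f (γ • z) = f z) →
        ∫ w, ζ w * f (ofComplex w) = ∫ z in D, f z ∂(Berry.area ρ) := by
  obtain ⟨K, hKc, hcov⟩ := hK
  obtain ⟨c, hcsm, hcs, hcU, hc0, hc1⟩ := exists_cut_smooth hKc
  have hc := hcsm.continuous
  set χ : ℍ → ℝ := fun z => c z with hχdef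
  have hχc : Continuous χ := hc.comp continuous_coe
  have hχ0 : ∀ z, 0 ≤ χ z := fun z => hc0 _
  -- the support of `χ` is bounded
  have hcomp : IsCompact (UpperHalfPlane.coe ⁻¹' tsupport c) := by
    rw [isOpenEmbedding_coe.isInducing.isCompact_preimage_iff]
    · exact hcs
    · rw [range_coe]; exact hcU
  obtain ⟨R, hR⟩ := hcomp.isBounded.subset_closedBall I
  have hχ : ∀ z, χ z ≠ 0 → dist z I ≤ R := fun z hz =>
    hR (show (z : ℂ) ∈ tsupport c from subset_tsupport c hz)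
  have hpos : ∀ z, 0 < NN Γ χ z := by
    intro z
    obtain ⟨γ, hγ, hz⟩ := hcov z
    have h1 : χ ((⟨γ, hγ⟩ : Γ) • z) ≤ NN Γ χ z :=
      (NN_summable hD hχ z).le_tsum _ fun δ _ => hχ0 _
    have h2 : χ ((⟨γ, hγ⟩ : Γ) • z) = 1 := hc1 _ hz
    linarith
  have hN := NN_continuous hD hχ hχc
  set G : ℍ → ℝ := fun z => 1 / z.im ^ 2 * (Real.exp (2 * ρ z) / NN Γ χ z) with hG
  have hGc : Continuous G := by
    refine (continuous_const.div (continuous_im.pow 2) fun z => (pow_pos z.im_pos 2).ne').mul ?_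
    exact (Real.continuous_exp.comp (continuous_const.mul hρ)).div hN fun z => (hpos z).ne'
  have hG0 : ∀ z, 0 ≤ G z := by
    intro z
    have h1 := z.im_pos
    have h2 := hpos z
    simp only [hG]
    positivity
  have hsm : ContDiff ℝ ∞ fun w => c w * G (ofComplex w) := by
    rw [contDiff_iff_contDiffAt]
    intro w
    by_cases hw : w ∈ tsupport c
    · have hw' : 0 < w.im := hcU hw
      refine hcsm.contDiffAt.mul ?_
      have e : (fun v : ℂ => G (ofComplex v)) =ᶠ[𝓝 w] fun v : ℂ =>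
          1 / v.im ^ 2 * (Real.exp (2 * ρ (ofComplex v)) / NN Γ χ (ofComplex v)) := by
        filter_upwards [isOpen_HH.mem_nhds hw'] with v hv
        have e3 : (ofComplex v : ℍ).im = v.im := by rw [ofComplex_apply_of_im_pos hv]; rfl
        simp only [hG, e3]
      refine ContDiffAt.congr_of_eventuallyEq ?_ e
      have him : ContDiffAt ℝ ∞ (fun v : ℂ => v.im) w := Complex.imCLM.contDiff.contDiffAt
      have hρw : ContDiffAt ℝ ∞ (fun v : ℂ => ρ (ofComplex v)) w :=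
        (hρs w hw').contDiffAt (isOpen_HH.mem_nhds hw')
      refine (contDiffAt_const.div (him.pow 2) (pow_pos hw' 2).ne').mul ?_
      exact ((contDiffAt_const.mul hρw).exp).div (smooth_NN hD hcsm hχ hw') (hpos _).ne'
    · have h1 : c =ᶠ[𝓝 w] 0 := notMem_tsupport_iff_eventuallyEq.1 hw
      refine (contDiffAt_const (c := (0 : ℝ))).congr_of_eventuallyEq ?_
      filter_upwards [h1] with v hv
      rw [hv, Pi.zero_apply, zero_mul]
  refine ⟨fun w => c w * G (ofComplex w), hsm, hcs.mul_right,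
    (closure_mono (Function.support_mul_subset_left _ _)).trans hcU,
    fun w => mul_nonneg (hc0 w) (hG0 _), ?_⟩
  intro f hf hf0 hinv
  have hU : IsOpen {w : ℂ | 0 < w.im} := isOpen_lt continuous_const Complex.continuous_im
  -- left side
  have hcont : Continuous fun w => c w * G (ofComplex w) * f (ofComplex w) := by
    have := continuous_cut_mul hc hcU (hGc.mul hf)
    refine this.congr fun w => ?_
    simp only [Pi.mul_apply]; ring
  rw [integral_eq_lintegral_of_nonneg_ae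
    (Eventually.of_forall fun w => mul_nonneg (mul_nonneg (hc0 w) (hG0 _)) (hf0 _))
    hcont.aestronglyMeasurable,
    integral_eq_lintegral_of_nonneg_ae (Eventually.of_forall fun z => hf0 z)
      hf.aestronglyMeasurable]
  congr 1
  have hexp : Measurable fun z => ENNReal.ofReal (Real.exp (2 * ρ z)) :=
    ENNReal.measurable_ofReal.comp
      (Real.continuous_exp.comp (continuous_const.mul hρ)).measurable
  have hfm : Measurable fun z => ENNReal.ofReal (f z) := ENNReal.measurable_ofReal.comp hf.measurable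
  unfold Berry.area
  rw [setLIntegral_withDensity_eq_setLIntegral_mul _ hexp hfm hDm]
  have e1 : ∫⁻ z in D, ((fun z => ENNReal.ofReal (Real.exp (2 * ρ z))) *
      fun z => ENNReal.ofReal (f z)) z = ∫⁻ z in D, ENNReal.ofReal (Real.exp (2 * ρ z) * f z) := by
    refine lintegral_congr fun z => ?_
    rw [Pi.mul_apply, ENNReal.ofReal_mul (Real.exp_pos _).le]
  have hfe : Continuous fun z => Real.exp (2 * ρ z) * f z :=
    (Real.continuous_exp.comp (continuous_const.mul hρ)).mul hf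
  rw [e1, Surf.unfold hD hχ hχc hχ0 hpos hfe
    (fun γ hγ z => by simp only [hρΓ γ hγ, hinv γ hγ]), lintegral_uhp]
  · rw [← lintegral_indicator hU.measurableSet]
    refine lintegral_congr fun w => ?_
    by_cases hw : 0 < w.im
    · rw [indicator_of_mem (show w ∈ {w : ℂ | 0 < w.im} from hw),
        ← ENNReal.ofReal_mul (by positivity)]
      congr 1
      have e2 : ((ofComplex w : ℍ) : ℂ) = w := by rw [ofComplex_apply_of_im_pos hw]
      have e3 : (ofComplex w : ℍ).im = w.im := by rw [ofComplex_apply_of_im_pos hw]; rfl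
      simp only [hG, hχdef, e2, e3]
      ring
    · rw [indicator_of_notMem (show w ∉ {w : ℂ | 0 < w.im} from hw)]
      have : c w = 0 := by
        by_contra h
        exact hw (hcU (subset_tsupport c h))
      rw [this, zero_mul, zero_mul, ENNReal.ofReal_zero]
  · refine ENNReal.measurable_ofReal.comp (Continuous.measurable ?_)
    exact (hχc.div hN fun z => (hpos z).ne').mul hfe

end TEST

/-- TEST: a smooth test function computes the averages of the invariant functions -/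
theorem stmtTest : StmtTest := by
  intro Γ _ ρ D hg hρs hK
  obtain ⟨ζ, h1, h2, h3, h4, h5⟩ := TEST.exists_test_smooth hg.dom hg.meas hK hg.unif.continuous
    hρs hg.inv
  set A := (Berry.area ρ D).toReal with hA
  have hA0 : 0 < A := ENNReal.toReal_pos (Berry.area_ne_zero hg) (Berry.area_ne_top hg)
  refine ⟨fun w => A⁻¹ * ζ w, contDiff_const.mul h1, h2.mul_left, ?_, ?_, ?_⟩
  · exact (closure_mono (Function.support_mul_subset_right _ _)).trans h3
  · exact fun w => mul_nonneg (inv_nonneg.mpr hA0.le) (h4 w)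
  · intro f hf hinv
    rw [rAvg_eq hg hK h1.continuous h2 h3 h5 hf hinv, ← integral_const_mul]
    refine integral_congr_ae (Eventually.of_forall fun w => ?_)
    simp only
    ring

end

end QJ


end

section

/-!
Cubic statistics at distinct points: definitions.
-/

open MeasureTheory Filter Topology Set
open scoped ContDiff

namespace QJ

open QE

noncomputable section

/-- the integrals of products of covariant jets at the displaced points `z + h e^{-σ(z)} l xᵢ` -/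
def Aj (σ : ℂ → ℝ) (h : ℕ → ℝ) (φ : ℕ → ℂ → ℂ) (ζ : ℂ → ℂ) {r : ℕ} (x : Fin r → ℂ) (j : Fin r → ℤ)
    (n : ℕ) (l : ℂ) : ℂ :=
  ∫ z, ζ z * ∏ i, E σ h φ (j i) n (z + ((h n * Real.exp (-σ z) : ℝ) : ℂ) * (l * x i))

/-- the product of the values at the displaced points `z + h g^{-1/2} e^{-2iθ} xᵢ` -/
def PD (g : ℂ → ℝ) (h : ℕ → ℝ) (φ : ℕ → ℂ → ℂ) {r : ℕ} (x : Fin r → ℂ) (n : ℕ) (θ : ℝ) (z : ℂ) : ℂ :=
  ∏ i, φ n (z + ((h n * (Real.sqrt (g z))⁻¹ : ℝ) : ℂ) * (uu θ ^ 2 * x i))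

end

end QJ


end

section

/-!
Cubic statistics at distinct points: statements of the steps.
-/

open MeasureTheory Filter Topology Set UpperHalfPlane MatrixGroups
open scoped ContDiff

namespace QJ

open QE

noncomputable section

/-- DSP: the jets at displaced points are dominated -/
def StmtDsp : Prop :=
  ∀ (V : Set ℂ) (σ : ℂ → ℝ) (h : ℕ → ℝ) (φ : ℕ → ℂ → ℂ), Loc V σ h φ → ∀ K, IsCompact K → K ⊆ V →
    ∀ (N : ℕ) (R : ℝ), ∃ S : ℕ → ℂ → ℝ, (∀ n z, 1 ≤ S n z) ∧ (∀ n, Continuous (S n)) ∧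
      (∀ᶠ n in atTop, ∀ z ∈ K, ∀ y : ℂ, ‖y‖ ≤ R → z + h n * y ∈ V ∧ RR h φ N n (z + h n * y) ≤ S n z) ∧
      Tendsto (fun n => h n * ∫ z in K, S n z ^ 2) atTop (𝓝 0)

/-- DER: the derivatives of the displaced integrals with respect to the displacement -/
def StmtDer : Prop :=
  ∀ (V : Set ℂ) (σ : ℂ → ℝ) (h : ℕ → ℝ) (φ : ℕ → ℂ → ℂ), Loc V σ h φ → ∀ (ζ : ℂ → ℂ), Test V ζ →
    ∀ (r : ℕ) (x : Fin r → ℂ) (j : Fin r → ℤ), r ≤ 4 →
      (∀ n, ContDiff ℝ 1 (Aj σ h φ ζ x j n)) ∧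
      ∀ ε > 0, ∀ᶠ n in atTop, ∀ l : ℂ, ‖l‖ ≤ 1 →
        ‖2 * dz (Aj σ h φ ζ x j n) l - ∑ i, x i * Aj σ h φ ζ x (j + Pi.single i 1) n l‖ ≤ ε ∧
        ‖2 * dzb (Aj σ h φ ζ x j n) l
          + ∑ i, (starRingEnd ℂ) (x i) * Aj σ h φ ζ x (j - Pi.single i 1) n l‖ ≤ ε

/-- REL: the translation relations at displaced points -/
def StmtRel : Prop :=
  ∀ (V : Set ℂ) (σ : ℂ → ℝ) (h : ℕ → ℝ) (φ : ℕ → ℂ → ℂ), Loc V σ h φ → ∀ (ζ : ℂ → ℂ), Test V ζ →
    ∀ (r : ℕ) (x : Fin r → ℂ) (j : Fin r → ℤ), r ≤ 4 → ∀ ε > 0, ∀ᶠ n in atTop, ∀ l : ℂ, ‖l‖ ≤ 1 →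
      ‖∑ i, Aj σ h φ ζ x (j + Pi.single i 1) n l‖ ≤ ε ∧
      ‖∑ i, Aj σ h φ ζ x (j - Pi.single i 1) n l‖ ≤ ε

/-- RAD: rotation averages of approximate solutions of the Helmholtz equation -/
def StmtRad : Prop :=
  ∀ (q₀ q₁ : ℂ → ℂ) (X : ℂ) (ε : ℝ), ContDiff ℝ 1 q₀ → ContDiff ℝ 1 q₁ → 0 ≤ ε →
    (∀ l : ℂ, ‖l‖ ≤ 1 → ‖2 * dz q₀ l - X * q₁ l‖ ≤ ε ∧
      ‖2 * dzb q₁ l + (starRingEnd ℂ) X * q₀ l‖ ≤ ε) →
    ‖∫ θ, q₀ (uu θ ^ 2) ∂angle‖ ≤ ‖q₀ 0‖ + 2 * ε

/-- TPA: one and two points -/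
def StmtTpa : Prop :=
  ∀ (V : Set ℂ) (σ : ℂ → ℝ) (h : ℕ → ℝ) (φ : ℕ → ℂ → ℂ), Loc V σ h φ → ∀ (ζ : ℂ → ℂ), Test V ζ →
    (∀ x : Fin 1 → ℂ, Tendsto (fun n => ∫ θ, Aj σ h φ ζ x 0 n (uu θ ^ 2) ∂angle) atTop (𝓝 0)) ∧
    (∀ x : Fin 2 → ℂ, Tendsto (fun n => ∫ θ, Aj σ h φ ζ x 0 n (uu θ ^ 2) ∂angle) atTop
      (𝓝 ((Berry.waveK (x 0 - x 1) : ℂ) * ∫ z, ζ z)))

/-- TPB: three points -/
def StmtTpb : Prop :=
  ∀ (V : Set ℂ) (σ : ℂ → ℝ) (h : ℕ → ℝ) (φ : ℕ → ℂ → ℂ), Loc V σ h φ → ∀ (ζ : ℂ → ℂ), Test V ζ →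
    ∀ x : Fin 3 → ℂ, Tendsto (fun n => ∫ θ, Aj σ h φ ζ x 0 n (uu θ ^ 2) ∂angle) atTop (𝓝 0)

/-- TL: the local theorem at distinct points, for the hypotheses `QE.LocalQE` -/
def StmtTL : Prop :=
  ∀ (U : Set ℂ) (g : ℂ → ℝ) (h : ℕ → ℝ) (φ : ℕ → ℂ → ℂ), IsOpen U → ContDiffOn ℝ ∞ g U →
    (∀ z ∈ U, 0 < g z) → LocalQE U g h φ → ∀ (ζ : ℂ → ℂ), Test U ζ →
    (∀ x : Fin 1 → ℂ, Tendsto (fun n => ∫ θ, (∫ z, ζ z * PD g h φ x n θ z) ∂angle) atTop (𝓝 0)) ∧
    (∀ x : Fin 2 → ℂ, Tendsto (fun n => ∫ θ, (∫ z, ζ z * PD g h φ x n θ z) ∂angle) atTop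
      (𝓝 ((Berry.waveK (x 0 - x 1) : ℂ) * ∫ z, ζ z))) ∧
    (∀ x : Fin 3 → ℂ, Tendsto (fun n => ∫ θ, (∫ z, ζ z * PD g h φ x n θ z) ∂angle) atTop (𝓝 0))

/-- DSU: the functions and their first derivatives at displaced points are dominated, for the
hypotheses `QE.LocalQE` -/
def StmtDsu : Prop :=
  ∀ (U : Set ℂ) (g : ℂ → ℝ) (h : ℕ → ℝ) (φ : ℕ → ℂ → ℂ), IsOpen U → ContDiffOn ℝ ∞ g U →
    (∀ z ∈ U, 0 < g z) → LocalQE U g h φ → ∀ K, IsCompact K → K ⊆ U → ∀ R : ℝ,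
    ∃ S : ℕ → ℂ → ℝ, (∀ n z, 1 ≤ S n z) ∧ (∀ n, Continuous (S n)) ∧
      (∀ᶠ n in atTop, ∀ z ∈ K, ∀ y : ℂ, ‖y‖ ≤ R → z + h n * y ∈ U ∧
        ‖φ n (z + h n * y)‖ ^ 2 ≤ S n z ∧ ‖(h n : ℂ) * dz (φ n) (z + h n * y)‖ ^ 2 ≤ S n z ∧
        ‖(h n : ℂ) * dzb (φ n) (z + h n * y)‖ ^ 2 ≤ S n z) ∧
      Tendsto (fun n => h n * ∫ z in K, S n z ^ 2) atTop (𝓝 0)

/-- PTS: the local theorem for the local waves at distinct points -/
def StmtPts : Prop :=
  ∀ (Γ : Subgroup SL(2, ℝ)) (ρ : ℍ → ℝ) (φ : ℕ → ℍ → ℝ) (m : ℕ → ℝ),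
    ContDiffOn ℝ ∞ (fun w : ℂ => ρ (ofComplex w)) {w | 0 < w.im} → Berry.REigenSeq Γ ρ φ m →
    (∀ n, ContDiffOn ℝ ∞ (fun w : ℂ => φ n (ofComplex w)) {w | 0 < w.im}) →
    QuantumErgodic ρ φ m →
    ∀ ψ : ℂ → ℝ, ContDiff ℝ ∞ ψ → HasCompactSupport ψ → tsupport ψ ⊆ {w | 0 < w.im} →
    (∀ x : Fin 1 → ℂ,
      Tendsto (fun n => ∫ z, ψ z * angProd ρ (φ n) (m n) x (ofComplex z)) atTop (𝓝 0)) ∧
    (∀ x : Fin 2 → ℂ,
      Tendsto (fun n => ∫ z, ψ z * angProd ρ (φ n) (m n) x (ofComplex z)) atTop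
        (𝓝 (Berry.waveK (x 0 - x 1) * ∫ z, ψ z))) ∧
    (∀ x : Fin 3 → ℂ,
      Tendsto (fun n => ∫ z, ψ z * angProd ρ (φ n) (m n) x (ofComplex z)) atTop (𝓝 0))

/-- FINP: all the moments of order at most three -/
def StmtFinP : Prop :=
  ∀ (Γ : Subgroup SL(2, ℝ)) [Countable Γ] (D : Set ℍ), MeasurableSet D →
    IsFundamentalDomain Γ D (volume : Measure ℍ) →
    (∃ K : Set ℍ, IsCompact K ∧ ∀ z, ∃ γ ∈ Γ, γ • z ∈ K) →
    ∀ ρ : ℍ → ℝ, ContDiffOn ℝ ∞ (fun w : ℂ => ρ (ofComplex w)) {w | 0 < w.im} →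
    (∀ γ ∈ Γ, ∀ z, ρ (γ • z) = ρ z) → ∀ (φ : ℕ → ℍ → ℝ) (m : ℕ → ℝ),
    Berry.REigenSeq Γ ρ φ m →
    (∀ n, ContDiffOn ℝ ∞ (fun w : ℂ => φ n (ofComplex w)) {w | 0 < w.im}) →
    QuantumErgodic ρ φ m →
    (∀ x : ℂ, Tendsto (fun n => ∫ p, Berry.rWave ρ (φ n) (m n) x p ∂(Berry.rFrameProb ρ D))
      atTop (𝓝 0)) ∧
    (∀ x y : ℂ, Tendsto (fun n => ∫ p, Berry.rWave ρ (φ n) (m n) x p
        * Berry.rWave ρ (φ n) (m n) y p ∂(Berry.rFrameProb ρ D)) atTop
      (𝓝 (Berry.waveK (x - y)))) ∧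
    (∀ x y z : ℂ, Tendsto (fun n => ∫ p, Berry.rWave ρ (φ n) (m n) x p
        * Berry.rWave ρ (φ n) (m n) y p * Berry.rWave ρ (φ n) (m n) z p ∂(Berry.rFrameProb ρ D))
      atTop (𝓝 0))

end

end QJ


end

section

/-!
TL: the local theorem at distinct points, transferred to the hypotheses `QE.LocalQE`.
-/

open Complex MeasureTheory Filter Topology Set
open scoped ContDiff

namespace QJ

open QE

noncomputable section

namespace TL

/-- for large `n` the displaced points lie in `V` -/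
lemma eventually_mem {V : Set ℂ} (hV : IsOpen V) {σ : ℂ → ℝ} (hσ : Continuous σ) {h : ℕ → ℝ}
    (hpos : ∀ n, 0 < h n) (hlim : Tendsto h atTop (𝓝 0)) {K : Set ℂ} (hK : IsCompact K)
    (hKV : K ⊆ V) {r : ℕ} (x : Fin r → ℂ) :
    ∀ᶠ n in atTop, ∀ z ∈ K, ∀ l : ℂ, ‖l‖ ≤ 1 → ∀ i,
      z + ((h n * Real.exp (-σ z) : ℝ) : ℂ) * (l * x i) ∈ V := by
  obtain ⟨δ, hδ, hδV⟩ := hK.exists_cthickening_subset_open hV hKV
  obtain ⟨M, hM⟩ : ∃ M : ℝ, ∀ z ∈ K, Real.exp (-σ z) ≤ M := by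
    obtain ⟨M, hM⟩ := (hK.image (Real.continuous_exp.comp hσ.neg)).bddAbove
    exact ⟨M, fun z hz => hM ⟨z, hz, rfl⟩⟩
  obtain ⟨B, hB0, hB⟩ : ∃ B : ℝ, 0 ≤ B ∧ ∀ i, ‖x i‖ ≤ B :=
    ⟨∑ i, ‖x i‖, Finset.sum_nonneg fun i _ => norm_nonneg _,
      fun i => Finset.single_le_sum (f := fun i => ‖x i‖) (fun i _ => norm_nonneg _)
        (Finset.mem_univ i)⟩
  have h1 : Tendsto (fun n => h n * (|M| * B)) atTop (𝓝 0) := by
    have := hlim.mul_const (|M| * B)
    rwa [zero_mul] at this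
  filter_upwards [h1.eventually (gt_mem_nhds hδ)] with n hn z hz l hl i
  apply hδV
  apply Metric.closedBall_subset_cthickening hz δ
  rw [Metric.mem_closedBall, dist_eq_norm, add_sub_cancel_left, norm_mul, norm_mul,
    Complex.norm_real, Real.norm_of_nonneg (mul_nonneg (hpos n).le (Real.exp_pos _).le)]
  calc h n * Real.exp (-σ z) * (‖l‖ * ‖x i‖) ≤ h n * |M| * (1 * B) := by
        apply mul_le_mul
        · exact mul_le_mul_of_nonneg_left ((hM z hz).trans (le_abs_self M)) (hpos n).le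
        · exact mul_le_mul hl (hB i) (norm_nonneg _) zero_le_one
        · positivity
        · exact mul_nonneg (hpos n).le (abs_nonneg _)
    _ = h n * (|M| * B) := by ring
    _ ≤ δ := hn.le

/-- for large `n` the two integrals agree -/
lemma eventually_eq {V : Set ℂ} {g : ℂ → ℝ} {σ : ℂ → ℝ} {h : ℕ → ℝ} {φ ψ : ℕ → ℂ → ℂ}
    (hL : Loc V σ h ψ) (he : ∀ n, ∀ z ∈ V, ψ n z = φ n z)
    (hg : ∀ z ∈ V, g z = Real.exp (σ z) ^ 2) {ζ : ℂ → ℂ} (hζ : Test V ζ) {r : ℕ}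
    (x : Fin r → ℂ) :
    (fun n => ∫ θ, Aj σ h ψ ζ x 0 n (uu θ ^ 2) ∂angle) =ᶠ[atTop]
      fun n => ∫ θ, (∫ z, ζ z * PD g h φ x n θ z) ∂angle := by
  filter_upwards [eventually_mem hL.op hL.sm.continuous hL.hpos hL.hlim hζ.supp hζ.sub x]
    with n hn
  congr 1
  funext θ
  unfold Aj
  congr 1
  funext z
  by_cases hz : z ∈ tsupport ζ
  · congr 1
    unfold PD
    refine Finset.prod_congr rfl fun i _ => ?_
    have h1 := hn z hz (uu θ ^ 2) (by rw [norm_pow, norm_uu, one_pow]) i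
    have e1 : (Real.sqrt (g z))⁻¹ = Real.exp (-σ z) := by
      rw [hg z (hζ.sub hz), Real.sqrt_sq (Real.exp_pos _).le, Real.exp_neg]
    rw [e1, ← he n _ h1]
    rfl
  · rw [image_eq_zero_of_notMem_tsupport hz, zero_mul, zero_mul]

end TL

open _root_.QJ.TL in
theorem stmtTL (hTpa : StmtTpa) (hTpb : StmtTpb) : StmtTL := by
  intro U g h φ hU hg hgp H ζ hζ
  obtain ⟨V, σ, ψ, hKV, hVU, hL, he, hgV⟩ := LW.exists_loc hU hg hgp H hζ.supp hζ.sub
  have hζV : Test V ζ := ⟨hζ.smooth, hζ.supp, hKV⟩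
  obtain ⟨t1, t2⟩ := hTpa V σ h ψ hL ζ hζV
  have t3 := hTpb V σ h ψ hL ζ hζV
  exact ⟨fun x => (t1 x).congr' (eventually_eq hL he hgV hζV x),
    fun x => (t2 x).congr' (eventually_eq hL he hgV hζV x),
    fun x => (t3 x).congr' (eventually_eq hL he hgV hζV x)⟩

end

end QJ


end

section

/-!
QJ, step FUB: the mean over points and frames is the mean over the points of the angular mean.
-/

open MeasureTheory Filter Topology Set UpperHalfPlane MatrixGroups
open scoped ContDiff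

namespace QJ

open QE

noncomputable section

namespace FUB

variable {Γ : Subgroup SL(2, ℝ)} {ρ φ : ℍ → ℝ}

/-- the local wave at `γ z` -/
theorem wave_shift (hφ : ∀ γ ∈ Γ, ∀ z, φ (γ • z) = φ z) (hρ : ∀ γ ∈ Γ, ∀ z, ρ (γ • z) = ρ z)
    (m : ℝ) {γ : SL(2, ℝ)} (hγ : γ ∈ Γ) (z : ℍ) : ∃ α : ℝ, ∀ θ : ℝ,
    (fun x => Berry.rWave ρ φ m x (γ • z, α + θ)) = fun x => Berry.rWave ρ φ m x (z, θ) := by
  obtain ⟨α, hα⟩ := Berry.mul_frame γ z
  refine ⟨α, fun θ => ?_⟩
  funext x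
  unfold Berry.rWave
  simp only
  rw [← hα θ, mul_smul, hφ γ hγ, hρ γ hγ]

theorem wave_periodic (m : ℝ) (z : ℍ) (θ : ℝ) :
    (fun x => Berry.rWave ρ φ m x (z, θ + 2 * Real.pi)) =
      fun x => Berry.rWave ρ φ m x (z, θ) := by
  funext x
  unfold Berry.rWave
  simp only [Berry.frame_periodic]

/-- boundedness -/
theorem bounded (hφ : ∀ γ ∈ Γ, ∀ z, φ (γ • z) = φ z) (hρ : ∀ γ ∈ Γ, ∀ z, ρ (γ • z) = ρ z)
    (hK : ∃ K : Set ℍ, IsCompact K ∧ ∀ z, ∃ γ ∈ Γ, γ • z ∈ K) (m : ℝ) {r : ℕ} (k : Fin r → ℕ)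
    (v : ∀ i, Fin (k i) → ℂ)
    (hc : Continuous (fun p : ℍ × ℝ => jetProd k v (fun x => Berry.rWave ρ φ m x p))) :
    ∃ C : ℝ, ∀ p : ℍ × ℝ, ‖jetProd k v (fun x => Berry.rWave ρ φ m x p)‖ ≤ C := by
  obtain ⟨K, hK, hcov⟩ := hK
  obtain ⟨C, hC⟩ := (hK.prod (isCompact_Icc (a := (0 : ℝ)) (b := 2 * Real.pi))).exists_bound_of_continuousOn
    hc.continuousOn
  refine ⟨C, fun ⟨z, θ⟩ => ?_⟩
  obtain ⟨γ, hγ, hz⟩ := hcov z
  obtain ⟨α, hα⟩ := wave_shift hφ hρ m hγ z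
  have hper : Function.Periodic
      (fun t : ℝ => jetProd k v (fun x => Berry.rWave ρ φ m x (γ • z, t))) (2 * Real.pi) := by
    intro t
    simp only [wave_periodic]
  obtain ⟨t, ht, he⟩ := hper.exists_mem_Ico₀ Real.two_pi_pos (α + θ)
  rw [← hα θ, he]
  exact hC (γ • z, t) ⟨hz, ht.1, ht.2.le⟩

end FUB

open _root_.QJ.FUB in
/-- FUB -/
theorem stmtFub (hInvg : StmtInvg) : StmtFub := by
  intro Γ _ ρ φ D m hm hρc hg hK hφ hφs r k v
  obtain ⟨hc, _, _⟩ := hInvg Γ ρ φ m hm hρc hg.inv hφ hφs r k v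
  obtain ⟨C, hC⟩ := bounded hφ hg.inv hK m k v hc
  have hprob : IsProbabilityMeasure (Berry.rFrameProb ρ D) := Berry.rFrameProb_isProb hg
  have hint : Integrable (fun p : ℍ × ℝ => jetProd k v (fun x => Berry.rWave ρ φ m x p))
      (Berry.rFrameProb ρ D) :=
    Integrable.of_bound hc.aestronglyMeasurable C (Eventually.of_forall hC)
  have h1 : IsProbabilityMeasure (ProbabilityTheory.cond (Berry.area ρ) D) :=
    ProbabilityTheory.cond_isProbabilityMeasure_of_finite (Berry.area_ne_zero hg)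
      (Berry.area_ne_top hg)
  have h2 := Berry.angle_prob
  unfold Berry.rFrameProb at hint ⊢
  rw [integral_prod _ hint]
  rfl

end

end QJ


end

section

/-!
Cubic and quartic statistics of quantum ergodic eigenfunctions: the final theorem.
-/

open MeasureTheory Filter Topology Set UpperHalfPlane MatrixGroups
open scoped ContDiff

namespace QJ

open QE

noncomputable section

/-- the final theorem -/
theorem stmtFin (hTest : StmtTest) (hLocG : StmtLocG) (hInvg : StmtInvg) (hFub : StmtFub) :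
    StmtFin := by
  intro Γ _ D hDm hD hK ρ hρ hρΓ φ m hφ hs hq
  have hρc : Continuous ρ := QE.continuous_of_smooth hρ
  have geo : Berry.Geo Γ ρ D := (Berry.surf_of_cocompact hD hDm hK hρc hρΓ hφ).geo
  obtain ⟨ζ, hζ1, hζ2, hζ3, _, hζ5⟩ := hTest Γ ρ D geo hρ hK
  have h1 : ∫ w, ζ w = 1 := by
    have h2 := hζ5 (fun _ => 1) continuous_const (fun _ _ _ => rfl)
    have : IsProbabilityMeasure (ProbabilityTheory.cond (Berry.area ρ) D) :=
      ProbabilityTheory.cond_isProbabilityMeasure_of_finite (Berry.area_ne_zero geo) (Berry.area_ne_top geo)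
    simp only [mul_one] at h2
    rw [← h2]
    simp [Berry.rAvg]
  obtain ⟨A1, A2, A3, A4⟩ := hLocG Γ ρ φ m hρ hφ hs hq ζ hζ1 hζ2 hζ3
  have hpos : ∀ᶠ n in atTop, 0 < m n := hφ.tendsto.eventually_gt_atTop 0
  have key : ∀ (r : ℕ) (k : Fin r → ℕ) (v : ∀ i, Fin (k i) → ℂ), ∀ᶠ n in atTop,
      ∫ z, ζ z * angJet ρ (φ n) (m n) k v (ofComplex z) =
        ∫ p, jetProd k v (fun x => Berry.rWave ρ (φ n) (m n) x p) ∂(Berry.rFrameProb ρ D) := by
    intro r k v
    filter_upwards [hpos] with n hn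
    obtain ⟨_, hc, hi⟩ := hInvg Γ ρ (φ n) (m n) hn hρc hρΓ (hφ.invariant n) (hs n) r k v
    rw [hFub Γ ρ (φ n) D (m n) hn hρc geo hK (hφ.invariant n) (hs n) r k v, hζ5 _ hc hi]
  refine ⟨fun k v => (A1 k v).congr' (key 1 k v), fun k v => ?_,
    fun k v => (A3 k v).congr' (key 3 k v), fun k v => ?_⟩
  · have h3 := (A2 k v).congr' (key 2 k v)
    rwa [h1, mul_one] at h3
  · refine (A4 k v).congr' ?_
    filter_upwards [key 4 k v] with n hn
    have h4 : Berry.rAvg ρ D (fun z => φ n z ^ 4) = ∫ z, ζ z * φ n (ofComplex z) ^ 4 :=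
      hζ5 (fun z => φ n z ^ 4) ((QE.continuous_of_smooth (hs n)).pow 4)
        (fun γ hγ z => by
          show φ n (γ • z) ^ 4 = φ n z ^ 4
          rw [hφ.invariant n γ hγ z])
    rw [hn, h4, h1]
    ring

end

end QJ


end
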