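import Mathlib
import Pool.Agent.BWM.C13
import Pool.Agent.BWM.C17
import Pool.Agent.BWM.C22

/-! Parts: QJ.CAU, U3.CAUB, QJ.DSP, QJ.PTS -/

section

/-!
QJ, step CAU: Cauchy transforms of sequences which tend weakly to zero and are dominated by densities
with linear growth.
-/

open Complex MeasureTheory Filter Topology Set
open scoped ContDiff ENNReal

namespace QJ

open QE

noncomputable section

namespace CAU

/-- the norm of the near part of the kernel -/
def qr (δ : ℝ) (w : ℂ) : ℝ := δ ^ 2 / (Real.pi * ‖w‖ * (‖w‖ ^ 2 + δ ^ 2))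

/-- the weighted square of the kernel -/
def kr (δ : ℝ) (w : ℂ) : ℝ := √‖w‖ * qr δ w ^ 2

theorem qr_nonneg (δ : ℝ) (w : ℂ) : 0 ≤ qr δ w := by
  unfold qr; positivity

theorem kr_nonneg (δ : ℝ) (w : ℂ) : 0 ≤ kr δ w := by
  unfold kr; positivity

theorem measurable_qr (δ : ℝ) : Measurable (qr δ) := by
  unfold qr; fun_prop

theorem measurable_kr (δ : ℝ) : Measurable (kr δ) := by
  unfold kr
  exact (measurable_norm.sqrt).mul ((measurable_qr δ).pow_const 2)

theorem integrable_kr_one : Integrable (kr 1) := by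
  have e : kr 1 = fun w : ℂ => (fun y : ℝ => √y * (1 ^ 2 / (Real.pi * y * (y ^ 2 + 1 ^ 2))) ^ 2) ‖w‖ := by
    funext w; rfl
  rw [e, integrable_fun_norm_addHaar (volume : Measure ℂ)
    (f := fun y : ℝ => √y * (1 ^ 2 / (Real.pi * y * (y ^ 2 + 1 ^ 2))) ^ 2)]
  have h1 : IntegrableOn (fun y : ℝ => y ^ (-(1 / 2) : ℝ)) (Ioc 0 1) :=
    (intervalIntegrable_iff_integrableOn_Ioc_of_le zero_le_one).mp
      (intervalIntegral.intervalIntegrable_rpow' (by norm_num))
  have h2 : Integrable (fun y : ℝ => (Ioc (0 : ℝ) 1).indicator (fun y => y ^ (-(1 / 2) : ℝ)) y +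
      (1 + y ^ 2)⁻¹) :=
    ((integrable_indicator_iff measurableSet_Ioc).mpr h1).add integrable_inv_one_add_sq
  refine (h2.integrableOn (s := Ioi 0)).mono' ?_ ?_
  · exact (Measurable.aestronglyMeasurable (by fun_prop))
  · refine (ae_restrict_iff' measurableSet_Ioi).mpr (Eventually.of_forall fun y hy => ?_)
    have hy : 0 < y := hy
    have hs : 0 < √y := Real.sqrt_pos.mpr hy
    have hss : √y * √y = y := Real.mul_self_sqrt hy.le
    have hpi : 1 ≤ Real.pi := by linarith [Real.pi_gt_three]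
    have hval : y ^ (Module.finrank ℝ ℂ - 1) • (√y * (1 ^ 2 / (Real.pi * y * (y ^ 2 + 1 ^ 2))) ^ 2) =
        (√y)⁻¹ * ((Real.pi ^ 2)⁻¹ * ((y ^ 2 + 1) ^ 2)⁻¹) := by
      simp only [Complex.finrank_real_complex, smul_eq_mul]
      norm_num
      field_simp
      linarith only [hss]
    rw [hval, Real.norm_of_nonneg (by positivity)]
    have hp2 : (Real.pi ^ 2)⁻¹ ≤ 1 := inv_le_one_of_one_le₀ (by nlinarith only [hpi])
    have hb1 : ((y ^ 2 + 1) ^ 2)⁻¹ ≤ 1 := inv_le_one_of_one_le₀ (by nlinarith only [])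
    have hb2 : ((y ^ 2 + 1) ^ 2)⁻¹ ≤ (1 + y ^ 2)⁻¹ :=
      inv_anti₀ (by positivity) (by nlinarith only [])
    have hnn : 0 ≤ (1 + y ^ 2)⁻¹ := by positivity
    have hnn2 : 0 ≤ ((y ^ 2 + 1) ^ 2)⁻¹ := by positivity
    by_cases h : y ≤ 1
    · have hi : (Ioc (0 : ℝ) 1).indicator (fun y => y ^ (-(1 / 2) : ℝ)) y = (√y)⁻¹ := by
        rw [indicator_of_mem (show y ∈ Ioc (0 : ℝ) 1 from ⟨hy, h⟩), Real.rpow_neg hy.le,
          Real.sqrt_eq_rpow]
      rw [hi]
      have : (√y)⁻¹ * ((Real.pi ^ 2)⁻¹ * ((y ^ 2 + 1) ^ 2)⁻¹) ≤ (√y)⁻¹ * (1 * 1) := by gcongr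
      linarith only [hnn, this]
    · have hi : (Ioc (0 : ℝ) 1).indicator (fun y => y ^ (-(1 / 2) : ℝ)) y = 0 :=
        indicator_of_notMem (fun h' => h h'.2) _
      rw [hi, zero_add]
      have hs1 : (√y)⁻¹ ≤ 1 := inv_le_one_of_one_le₀ (Real.one_le_sqrt.mpr (not_le.mp h).le)
      calc (√y)⁻¹ * ((Real.pi ^ 2)⁻¹ * ((y ^ 2 + 1) ^ 2)⁻¹) ≤ 1 * (1 * (1 + y ^ 2)⁻¹) := by gcongr
        _ = (1 + y ^ 2)⁻¹ := by ring

theorem kr_smul {δ : ℝ} (hδ : 0 < δ) (u : ℂ) : kr δ (δ • u) = √δ * (δ ^ 2)⁻¹ * kr 1 u := by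
  by_cases hu : u = 0
  · subst hu; simp [kr]
  have hu' : 0 < ‖u‖ := norm_pos_iff.mpr hu
  unfold kr qr
  rw [norm_smul, Real.norm_of_nonneg hδ.le, Real.sqrt_mul hδ.le]
  have hpi := Real.pi_pos
  field_simp

theorem integrable_kr {δ : ℝ} (hδ : 0 < δ) : Integrable (kr δ) := by
  rw [← integrable_comp_smul_iff (volume : Measure ℂ) (kr δ) hδ.ne']
  have e : (fun u : ℂ => kr δ (δ • u)) = fun u => √δ * (δ ^ 2)⁻¹ * kr 1 u := by
    funext u; exact kr_smul hδ u
  rw [e]
  exact integrable_kr_one.const_mul _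

theorem integral_kr {δ : ℝ} (hδ : 0 < δ) : ∫ w, kr δ w = √δ * ∫ w, kr 1 w := by
  have h := Measure.integral_comp_smul (volume : Measure ℂ) (kr δ) δ
  simp only [kr_smul hδ, Complex.finrank_real_complex, smul_eq_mul] at h
  rw [integral_const_mul, abs_of_nonneg (by positivity)] at h
  have hd : (δ ^ 2) ≠ 0 := by positivity
  field_simp at h
  linarith

/-- linear growth bounds the potential with kernel `|w|^{-1/2}` -/
theorem lintegral_theta (μ : Measure ℂ) (z : ℂ) (C : ℝ)
    (h : ∀ s > 0, μ (Metric.closedBall z s) ≤ ENNReal.ofReal (C * s)) :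
    ∫⁻ w, ENNReal.ofReal ((√‖z - w‖)⁻¹) ∂μ ≤ μ univ + ENNReal.ofReal C := by
  have hm : Measurable fun w : ℂ => (√‖z - w‖)⁻¹ := by fun_prop
  rw [lintegral_eq_lintegral_meas_le μ (Eventually.of_forall fun w => by positivity) hm.aemeasurable]
  have hpt : ∀ t ∈ Ioi (0 : ℝ), μ {w | t ≤ (√‖z - w‖)⁻¹} ≤
      (Ioc (0 : ℝ) 1).indicator (fun _ => μ univ) t +
      (Ioi (1 : ℝ)).indicator (fun t => ENNReal.ofReal (C * t ^ (-2 : ℝ))) t := by
    intro t ht
    have ht : 0 < t := ht
    by_cases h1 : t ≤ 1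
    · rw [indicator_of_mem (show t ∈ Ioc (0 : ℝ) 1 from ⟨ht, h1⟩)]
      exact le_add_right (measure_mono (subset_univ _))
    · rw [indicator_of_mem (show t ∈ Ioi (1 : ℝ) from not_le.mp h1)]
      refine le_add_left (le_trans (measure_mono ?_) (h _ (by positivity)))
      intro w hw
      have hw : t ≤ (√‖z - w‖)⁻¹ := hw
      rw [Metric.mem_closedBall, dist_comm, dist_eq_norm]
      have hpos : 0 < √‖z - w‖ := by
        by_contra hneg
        have : √‖z - w‖ = 0 := le_antisymm (not_lt.mp hneg) (Real.sqrt_nonneg _)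
        rw [this, inv_zero] at hw
        linarith
      have h2 : √‖z - w‖ ≤ t⁻¹ := by
        rw [le_inv_comm₀ hpos ht]; exact hw
      have h3 : ‖z - w‖ = √‖z - w‖ ^ 2 := (Real.sq_sqrt (norm_nonneg _)).symm
      rw [h3, Real.rpow_neg ht.le]
      have : t ^ (2 : ℝ) = t ^ 2 := Real.rpow_two t
      rw [this, ← inv_pow]
      gcongr
  calc ∫⁻ t in Ioi (0 : ℝ), μ {w | t ≤ (√‖z - w‖)⁻¹}
      ≤ ∫⁻ t in Ioi (0 : ℝ), ((Ioc (0 : ℝ) 1).indicator (fun _ => μ univ) t +
      (Ioi (1 : ℝ)).indicator (fun t => ENNReal.ofReal (C * t ^ (-2 : ℝ))) t) :=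
        setLIntegral_mono' measurableSet_Ioi hpt
    _ ≤ ∫⁻ t, ((Ioc (0 : ℝ) 1).indicator (fun _ => μ univ) t +
      (Ioi (1 : ℝ)).indicator (fun t => ENNReal.ofReal (C * t ^ (-2 : ℝ))) t) :=
        setLIntegral_le_lintegral _ _
    _ = μ univ + ENNReal.ofReal C := by
        rw [lintegral_add_left (measurable_const.indicator measurableSet_Ioc),
          lintegral_indicator measurableSet_Ioc, lintegral_indicator measurableSet_Ioi]
        congr 1
        · simp
        · have hi : IntegrableOn (fun t : ℝ => t ^ (-2 : ℝ)) (Ioi 1) :=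
            integrableOn_Ioi_rpow_of_lt (by norm_num) zero_lt_one
          have hnn : 0 ≤ᵐ[volume.restrict (Ioi (1 : ℝ))] fun t : ℝ => t ^ (-2 : ℝ) :=
            (ae_restrict_iff' measurableSet_Ioi).mpr (Eventually.of_forall fun t ht =>
              Real.rpow_nonneg (zero_lt_one.trans ht).le _)
          have hval : ∫ t in Ioi (1 : ℝ), t ^ (-2 : ℝ) = 1 := by
            rw [integral_Ioi_rpow_of_lt (by norm_num) zero_lt_one]
            norm_num
          have h2 : ∫⁻ t in Ioi (1 : ℝ), ENNReal.ofReal (t ^ (-2 : ℝ)) = 1 := by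
            rw [← ofReal_integral_eq_lintegral_ofReal hi hnn, hval, ENNReal.ofReal_one]
          have h3 : ∀ t ∈ Ioi (1 : ℝ), ENNReal.ofReal (C * t ^ (-2 : ℝ)) =
              ENNReal.ofReal C * ENNReal.ofReal (t ^ (-2 : ℝ)) := by
            intro t ht
            rw [ENNReal.ofReal_mul' (Real.rpow_nonneg (zero_lt_one.trans ht).le _)]
          rw [setLIntegral_congr_fun measurableSet_Ioi h3, lintegral_const_mul _ (by fun_prop), h2,
            mul_one]

/-- Cauchy-Schwarz -/
theorem holder (μ : Measure ℂ) (z : ℂ) (δ : ℝ) :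
    (∫⁻ w, ENNReal.ofReal (qr δ (z - w)) ∂μ) ^ 2 ≤
      (∫⁻ w, ENNReal.ofReal ((√‖z - w‖)⁻¹) ∂μ) * ∫⁻ w, ENNReal.ofReal (kr δ (z - w)) ∂μ := by
  let F : ℂ → ℝ≥0∞ := fun w => ENNReal.ofReal ((√√‖z - w‖)⁻¹)
  let G : ℂ → ℝ≥0∞ := fun w => ENNReal.ofReal (√√‖z - w‖ * qr δ (z - w))
  have hF : Measurable F := by
    refine Measurable.ennreal_ofReal ?_
    fun_prop
  have hG : Measurable G := by
    refine Measurable.ennreal_ofReal ?_
    have h1 : Measurable fun w : ℂ => qr δ (z - w) := (measurable_qr δ).comp (by fun_prop)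
    have h2 : Measurable fun w : ℂ => √√‖z - w‖ := by fun_prop
    exact h2.mul h1
  have h := ENNReal.lintegral_mul_le_Lp_mul_Lq μ Real.HolderConjugate.two_two hF.aemeasurable
    hG.aemeasurable
  have e1 : ∀ w, (F * G) w = ENNReal.ofReal (qr δ (z - w)) := by
    intro w
    show ENNReal.ofReal ((√√‖z - w‖)⁻¹) * ENNReal.ofReal (√√‖z - w‖ * qr δ (z - w)) = _
    rw [← ENNReal.ofReal_mul (by positivity)]
    congr 1
    by_cases hw : ‖z - w‖ = 0
    · simp [qr, hw]
    · have hw' : 0 < ‖z - w‖ := lt_of_le_of_ne (norm_nonneg _) (Ne.symm hw)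
      have : 0 < √√‖z - w‖ := Real.sqrt_pos.mpr (Real.sqrt_pos.mpr hw')
      field_simp
  have e2 : ∀ w, F w ^ (2 : ℝ) = ENNReal.ofReal ((√‖z - w‖)⁻¹) := by
    intro w
    show ENNReal.ofReal ((√√‖z - w‖)⁻¹) ^ (2 : ℝ) = _
    rw [ENNReal.ofReal_rpow_of_nonneg (by positivity) (by norm_num), Real.rpow_two, inv_pow,
      Real.sq_sqrt (Real.sqrt_nonneg _)]
  have e3 : ∀ w, G w ^ (2 : ℝ) = ENNReal.ofReal (kr δ (z - w)) := by
    intro w
    have hq := qr_nonneg δ (z - w)
    show ENNReal.ofReal (√√‖z - w‖ * qr δ (z - w)) ^ (2 : ℝ) = _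
    rw [ENNReal.ofReal_rpow_of_nonneg (by positivity) (by norm_num), Real.rpow_two, mul_pow,
      Real.sq_sqrt (Real.sqrt_nonneg _)]
    rfl
  simp only [e1, e2, e3] at h
  calc (∫⁻ w, ENNReal.ofReal (qr δ (z - w)) ∂μ) ^ 2
      ≤ ((∫⁻ w, ENNReal.ofReal ((√‖z - w‖)⁻¹) ∂μ) ^ (1 / 2 : ℝ) *
        (∫⁻ w, ENNReal.ofReal (kr δ (z - w)) ∂μ) ^ (1 / 2 : ℝ)) ^ 2 := by gcongr
    _ = _ := by
        rw [mul_pow, ← ENNReal.rpow_natCast, ← ENNReal.rpow_natCast, ← ENNReal.rpow_mul,
          ← ENNReal.rpow_mul]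
        norm_num

/-- Tonelli -/
theorem tonelli (μ : Measure ℂ) [SFinite μ] {δ : ℝ} :
    ∫⁻ z, ∫⁻ w, ENNReal.ofReal (kr δ (z - w)) ∂μ = (∫⁻ u, ENNReal.ofReal (kr δ u)) * μ univ := by
  have hm : Measurable (Function.uncurry fun z w : ℂ => ENNReal.ofReal (kr δ (z - w))) := by
    refine Measurable.ennreal_ofReal ?_
    exact (measurable_kr δ).comp (by fun_prop : Measurable fun p : ℂ × ℂ => p.1 - p.2)
  rw [lintegral_lintegral_swap hm.aemeasurable]
  have e : ∀ w : ℂ, ∫⁻ z, ENNReal.ofReal (kr δ (z - w)) = ∫⁻ u, ENNReal.ofReal (kr δ u) := fun w =>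
    lintegral_sub_right_eq_self (fun u => ENNReal.ofReal (kr δ u)) w
  simp only [e, lintegral_const]

/-- the near part -/
theorem near_bound (K K' : Set ℂ) (R : ℂ → ℝ) (f : ℂ → ℂ) (C s₀ δ : ℝ) (z₀ : ℂ) (hK : IsCompact K)
    (hz₀ : z₀ ∈ K') (hs₀ : 0 < s₀) (hsub : K ⊆ Metric.closedBall z₀ s₀)
    (hK' : IsCompact K') (hR0 : ∀ z, 0 ≤ R z) (hRc : Continuous R)
    (hgr : ∀ z ∈ K', ∀ s > 0, ∫ w in K ∩ Metric.closedBall z s, R w ≤ C * s)
    (hs : tsupport f ⊆ K) (hfR : ∀ z ∈ K, ‖f z‖ ≤ R z) (hδ : 0 < δ) :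
    ∫⁻ z in K', ‖∫ w, (ck w - kd δ w) * f (z - w)‖ₑ ^ 2 ≤
      ENNReal.ofReal ((C * s₀ + C) * (√δ * ∫ w, kr 1 w) * (C * s₀)) := by
  set μ : Measure ℂ := (volume.restrict K).withDensity (fun w => ENNReal.ofReal (R w)) with hμ
  have hRm : Measurable fun w => ENNReal.ofReal (R w) := hRc.measurable.ennreal_ofReal
  have hball : ∀ z ∈ K', ∀ s > 0, μ (Metric.closedBall z s) ≤ ENNReal.ofReal (C * s) := by
    intro z hz s hs
    have hmb : MeasurableSet (Metric.closedBall z s) := measurableSet_closedBall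
    rw [hμ, withDensity_apply _ hmb, Measure.restrict_restrict hmb, inter_comm]
    have hi : IntegrableOn R (K ∩ Metric.closedBall z s) :=
      (hRc.continuousOn.integrableOn_compact hK).mono_set inter_subset_left
    rw [← ofReal_integral_eq_lintegral_ofReal hi (Eventually.of_forall fun w => hR0 w)]
    exact ENNReal.ofReal_le_ofReal (hgr z hz s hs)
  have huniv : μ univ ≤ ENNReal.ofReal (C * s₀) := by
    have h1 := hball z₀ hz₀ s₀ hs₀
    refine le_trans (le_of_eq ?_) h1
    have hmb : MeasurableSet (Metric.closedBall z₀ s₀) := measurableSet_closedBall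
    rw [hμ, withDensity_apply _ hmb, withDensity_apply _ MeasurableSet.univ,
      Measure.restrict_restrict hmb, Measure.restrict_univ, inter_eq_self_of_subset_right hsub]
  have hC : 0 ≤ C := by
    have h1 := hgr z₀ hz₀ 1 one_pos
    have h2 : 0 ≤ ∫ w in K ∩ Metric.closedBall z₀ 1, R w := integral_nonneg fun w => hR0 w
    linarith
  have hkr : 0 ≤ ∫ w, kr 1 w := integral_nonneg fun w => kr_nonneg 1 w
  have hpt : ∀ z, ‖∫ w, (ck w - kd δ w) * f (z - w)‖ₑ ≤
      ∫⁻ w, ENNReal.ofReal (qr δ (z - w)) ∂μ := by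
    intro z
    have hqm : Measurable fun w : ℂ => ENNReal.ofReal (qr δ (z - w)) :=
      ((measurable_qr δ).comp (by fun_prop : Measurable fun w : ℂ => z - w)).ennreal_ofReal
    have e1 : ∫⁻ w, ENNReal.ofReal (qr δ (z - w)) ∂μ =
        ∫⁻ w in K, ENNReal.ofReal (R w) * ENNReal.ofReal (qr δ (z - w)) := by
      rw [hμ, lintegral_withDensity_eq_lintegral_mul _ hRm hqm]
      rfl
    have e2 : ∫⁻ w, ‖(ck w - kd δ w) * f (z - w)‖ₑ =
        ∫⁻ w, ‖f w‖ₑ * ENNReal.ofReal (qr δ (z - w)) := by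
      rw [← lintegral_sub_left_eq_self (fun w => ‖f w‖ₑ * ENNReal.ofReal (qr δ (z - w))) z]
      refine lintegral_congr fun w => ?_
      rw [sub_sub_cancel, enorm_mul, mul_comm]
      congr 1
      rw [← ofReal_norm, ck_sub_kd hδ]
      rfl
    calc ‖∫ w, (ck w - kd δ w) * f (z - w)‖ₑ ≤ ∫⁻ w, ‖(ck w - kd δ w) * f (z - w)‖ₑ :=
          enorm_integral_le_lintegral_enorm _
      _ = ∫⁻ w, ‖f w‖ₑ * ENNReal.ofReal (qr δ (z - w)) := e2
      _ = ∫⁻ w in K, ‖f w‖ₑ * ENNReal.ofReal (qr δ (z - w)) := by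
          rw [← lintegral_indicator hK.measurableSet]
          refine lintegral_congr fun w => ?_
          by_cases hw : w ∈ K
          · rw [indicator_of_mem hw]
          · have : f w = 0 := image_eq_zero_of_notMem_tsupport fun h => hw (hs h)
            rw [indicator_of_notMem hw, this]; simp
      _ ≤ ∫⁻ w in K, ENNReal.ofReal (R w) * ENNReal.ofReal (qr δ (z - w)) := by
          refine setLIntegral_mono' hK.measurableSet fun w hw => ?_
          gcongr
          rw [← ofReal_norm]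
          exact ENNReal.ofReal_le_ofReal (hfR w hw)
      _ = _ := e1.symm
  have hA : ∀ z ∈ K', ∫⁻ w, ENNReal.ofReal ((√‖z - w‖)⁻¹) ∂μ ≤ ENNReal.ofReal (C * s₀ + C) := by
    intro z hz
    refine (lintegral_theta μ z C (hball z hz)).trans ?_
    rw [ENNReal.ofReal_add (by positivity) hC]
    gcongr
  have hsf : SFinite μ := by rw [hμ]; infer_instance
  calc ∫⁻ z in K', ‖∫ w, (ck w - kd δ w) * f (z - w)‖ₑ ^ 2
      ≤ ∫⁻ z in K', ENNReal.ofReal (C * s₀ + C) * ∫⁻ w, ENNReal.ofReal (kr δ (z - w)) ∂μ := by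
        refine setLIntegral_mono' hK'.measurableSet fun z hz => ?_
        calc ‖∫ w, (ck w - kd δ w) * f (z - w)‖ₑ ^ 2
            ≤ (∫⁻ w, ENNReal.ofReal (qr δ (z - w)) ∂μ) ^ 2 := by gcongr; exact hpt z
          _ ≤ _ := holder μ z δ
          _ ≤ _ := by gcongr; exact hA z hz
    _ ≤ ∫⁻ z, ENNReal.ofReal (C * s₀ + C) * ∫⁻ w, ENNReal.ofReal (kr δ (z - w)) ∂μ :=
        setLIntegral_le_lintegral _ _
    _ = ENNReal.ofReal (C * s₀ + C) * ((∫⁻ u, ENNReal.ofReal (kr δ u)) * μ univ) := by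
        rw [← tonelli μ, lintegral_const_mul' _ _ ENNReal.ofReal_ne_top]
    _ = ENNReal.ofReal (C * s₀ + C) * (ENNReal.ofReal (√δ * ∫ w, kr 1 w) * μ univ) := by
        rw [← ofReal_integral_eq_lintegral_ofReal (integrable_kr hδ)
          (Eventually.of_forall fun w => kr_nonneg δ w), integral_kr hδ]
    _ ≤ ENNReal.ofReal (C * s₀ + C) * (ENNReal.ofReal (√δ * ∫ w, kr 1 w) *
          ENNReal.ofReal (C * s₀)) := by gcongr
    _ = _ := by
        rw [← ENNReal.ofReal_mul (by positivity), ← ENNReal.ofReal_mul (by positivity)]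
        congr 1
        ring

end CAU

open _root_.QJ.CAU in
/-- CAU -/
theorem stmtCau : StmtCau := by
  intro K K' R f C hK hK' hR0 hRc hgr hf hs hfR hw
  rcases K'.eq_empty_or_nonempty with rfl | ⟨z₀, hz₀⟩
  · simp
  have hc : ∀ n, HasCompactSupport (f n) := fun n => hK.of_isClosed_subset (isClosed_tsupport _) (hs n)
  obtain ⟨s₀, hs₀, hsub⟩ : ∃ s₀ : ℝ, 0 < s₀ ∧ K ⊆ Metric.closedBall z₀ s₀ := by
    obtain ⟨r, hr⟩ := hK.isBounded.subset_closedBall z₀
    exact ⟨max r 1, by positivity, hr.trans (Metric.closedBall_subset_closedBall (le_max_left _ _))⟩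
  have hC : 0 ≤ C := by
    obtain ⟨n, hn⟩ := hgr.exists
    have h1 := hn z₀ hz₀ 1 one_pos
    have h2 : 0 ≤ ∫ w in K ∩ Metric.closedBall z₀ 1, R n w := integral_nonneg fun w => hR0 n w
    linarith
  -- `L¹` norms
  have hL1 : ∀ᶠ n in atTop, ∫ z, ‖f n z‖ ≤ C * s₀ := by
    filter_upwards [hgr, hfR] with n hn hn2
    have h1 := hn z₀ hz₀ s₀ hs₀
    rw [inter_eq_self_of_subset_left hsub] at h1
    have h2 : ∫ z, ‖f n z‖ = ∫ z in K, ‖f n z‖ := by
      rw [← integral_indicator hK.measurableSet]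
      refine integral_congr_ae (Eventually.of_forall fun w => ?_)
      by_cases hw : w ∈ K
      · simp only [indicator_of_mem hw]
      · have : f n w = 0 := image_eq_zero_of_notMem_tsupport fun h => hw (hs n h)
        simp only [indicator_of_notMem hw, this, norm_zero]
    rw [h2]
    refine le_trans (setIntegral_mono_on ?_ ?_ hK.measurableSet fun w hw => hn2 w hw) h1
    · exact (hf n).continuous.norm.continuousOn.integrableOn_compact hK
    · exact (hRc n).continuousOn.integrableOn_compact hK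
  -- the smoothed part tends to zero
  have hcont : ∀ δ : ℝ, 0 < δ → ∀ n, Continuous (fun z => ∫ w, kd δ w * f n (z - w)) := by
    intro δ hδ n
    have h1 := (hc n).continuous_convolution_right (ContinuousLinearMap.mul ℝ ℂ)
      ((continuous_kd hδ).locallyIntegrable (μ := volume)) (hf n).continuous
    have h2 : (fun z => ∫ w, kd δ w * f n (z - w))
      = convolution (kd δ) (f n) (ContinuousLinearMap.mul ℝ ℂ) volume := by
      funext z; rw [convolution_def]; rfl
    rw [h2]; exact h1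
  have hsm : ∀ δ : ℝ, 0 < δ → Tendsto (fun n => ∫ z in K', ‖∫ w, kd δ w * f n (z - w)‖ ^ 2) atTop
      (𝓝 0) := by
    intro δ hδ
    have hz : Tendsto (fun n => ∫ z in K', ‖∫ w, kd δ w * f n (z - w)‖ ^ 2) atTop
        (𝓝 (∫ _ in K', (0 : ℝ))) := by
      refine tendsto_integral_filter_of_dominated_convergence
        (fun _ => (1 / (2 * Real.pi * δ) * (C * s₀)) ^ 2) ?_ ?_ ?_ ?_
      · exact Filter.Eventually.of_forall fun n =>
          (by have := hcont δ hδ n; fun_prop : Continuous _).aestronglyMeasurable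
      · filter_upwards [hL1] with n hn
        refine Filter.Eventually.of_forall fun z => ?_
        rw [Real.norm_of_nonneg (by positivity)]
        gcongr
        have hi : Integrable (fun w => ‖f n (z - w)‖) :=
          (((hf n).continuous.integrable_of_hasCompactSupport (hc n)).norm).comp_sub_left z
        calc ‖∫ w, kd δ w * f n (z - w)‖ ≤ ∫ w, ‖kd δ w * f n (z - w)‖ :=
              norm_integral_le_integral_norm _
          _ ≤ ∫ w, 1 / (2 * Real.pi * δ) * ‖f n (z - w)‖ := by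
              refine integral_mono_of_nonneg (Filter.Eventually.of_forall fun w => norm_nonneg _)
                (hi.const_mul _) (Filter.Eventually.of_forall fun w => ?_)
              simp only [norm_mul]
              gcongr
              exact norm_kd_le hδ w
          _ = 1 / (2 * Real.pi * δ) * ∫ w, ‖f n w‖ := by
              rw [integral_const_mul, integral_sub_left_eq_self (fun w => ‖f n w‖) volume z]
          _ ≤ _ := by gcongr
      · exact integrableOn_const hK'.measure_lt_top.ne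
      · refine Filter.Eventually.of_forall fun z => ?_
        have h1 : ∀ n, ∫ w, kd δ w * f n (z - w) = ∫ w, kd δ (z - w) * f n w := by
          intro n
          rw [← integral_sub_left_eq_self (fun w => kd δ (z - w) * f n w) volume z]
          refine integral_congr_ae (Filter.Eventually.of_forall fun w => ?_)
          simp only [sub_sub_cancel]
        have h2 := hw (fun w => kd δ (z - w)) ((contDiff_kd hδ).comp (contDiff_const.sub contDiff_id))
        have h3 : Tendsto (fun n => ∫ w, kd δ w * f n (z - w)) atTop (𝓝 0) :=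
          h2.congr fun n => (h1 n).symm
        have h4 := (h3.norm).pow 2
        simpa using h4
    simpa using hz
  -- conclusion
  set M : ℝ := (C * s₀ + C) * (∫ w, kr 1 w) * (C * s₀) with hM
  rw [Metric.tendsto_atTop]
  intro ε hε
  obtain ⟨δ, hδ, hδ2⟩ : ∃ δ : ℝ, 0 < δ ∧ 2 * (√δ * M) < ε / 2 := by
    have h1 : Tendsto (fun δ : ℝ => 2 * (√δ * M)) (𝓝[>] 0) (𝓝 0) := by
      have : Tendsto (fun δ : ℝ => 2 * (√δ * M)) (𝓝 0) (𝓝 (2 * (√0 * M))) :=
        (by fun_prop : Continuous fun δ : ℝ => 2 * (√δ * M)).tendsto 0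
      simpa using this.mono_left nhdsWithin_le_nhds
    have h2 := (h1.eventually_lt_const (half_pos hε)).and self_mem_nhdsWithin
    obtain ⟨δ, h3, h4⟩ := h2.exists
    exact ⟨δ, h4, h3⟩
  have h5 := (hsm δ hδ).const_mul 2
  rw [mul_zero] at h5
  have h6 := h5.eventually_lt_const (half_pos hε)
  obtain ⟨N, hN⟩ := (h6.and (hgr.and hfR)).exists_forall_of_atTop
  refine ⟨N, fun n hn => ?_⟩
  obtain ⟨h7, h8, h9⟩ := hN n hn
  have hsplit : ∀ z, cauchy (f n) z = (∫ w, (ck w - kd δ w) * f n (z - w))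
      + ∫ w, kd δ w * f n (z - w) := by
    intro z
    have hi1 : Integrable (fun w => ck w * f n (z - w)) := convExists (hf n).continuous (hc n) z
    have hi3 : Integrable (fun w => f n (z - w)) :=
      ((hf n).continuous.integrable_of_hasCompactSupport (hc n)).comp_sub_left z
    have hi2 : Integrable (fun w => kd δ w * f n (z - w)) :=
      hi3.bdd_mul (continuous_kd hδ).aestronglyMeasurable
        (Filter.Eventually.of_forall fun w => norm_kd_le hδ w)
    have hi4 : Integrable (fun w => (ck w - kd δ w) * f n (z - w)) := by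
      refine (hi1.sub hi2).congr (Filter.Eventually.of_forall fun w => ?_)
      simp only [Pi.sub_apply]; ring
    rw [← integral_add hi4 hi2]
    unfold cauchy
    refine integral_congr_ae (Filter.Eventually.of_forall fun w => ?_)
    simp only []; ring
  have hck := (contDiff_cauchy (hf n) (hc n)).continuous
  have hcontk := hcont δ hδ n
  have hcontn : Continuous (fun z => ∫ w, (ck w - kd δ w) * f n (z - w)) := by
    have : (fun z => ∫ w, (ck w - kd δ w) * f n (z - w)) =
        fun z => cauchy (f n) z - ∫ w, kd δ w * f n (z - w) := by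
      funext z; rw [hsplit z]; ring
    rw [this]
    exact hck.sub hcontk
  have hik : IntegrableOn (fun z => ‖∫ w, kd δ w * f n (z - w)‖ ^ 2) K' :=
    (by fun_prop : Continuous (fun z => ‖∫ w, kd δ w * f n (z - w)‖ ^ 2)).continuousOn.integrableOn_compact hK'
  have hin : IntegrableOn (fun z => ‖∫ w, (ck w - kd δ w) * f n (z - w)‖ ^ 2) K' :=
    (hcontn.norm.pow 2).continuousOn.integrableOn_compact hK'
  have hic : IntegrableOn (fun z => ‖cauchy (f n) z‖ ^ 2) K' :=
    (hck.norm.pow 2).continuousOn.integrableOn_compact hK'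
  have hnear : ∫ z in K', ‖∫ w, (ck w - kd δ w) * f n (z - w)‖ ^ 2 ≤ √δ * M := by
    have hnn : 0 ≤ √δ * M := by
      have hkr : 0 ≤ ∫ w, kr 1 w := integral_nonneg fun w => kr_nonneg 1 w
      (clear * - hδ hC hs₀ hkr; positivity)
    have h10 := near_bound K K' (R n) (f n) C s₀ δ z₀ hK hz₀ hs₀ hsub hK' (hR0 n) (hRc n) h8 (hs n)
      h9 hδ
    rw [← ENNReal.ofReal_le_ofReal_iff hnn, ofReal_integral_eq_lintegral_ofReal hin
      (Eventually.of_forall fun z => by positivity)]
    refine le_trans (le_of_eq ?_) (h10.trans (le_of_eq ?_))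
    · refine lintegral_congr fun z => ?_
      rw [ENNReal.ofReal_pow (norm_nonneg _), ofReal_norm]
    · congr 1
      rw [hM]; ring
  rw [Real.dist_eq, sub_zero, abs_of_nonneg (integral_nonneg fun z => by positivity)]
  calc ∫ z in K', ‖cauchy (f n) z‖ ^ 2
      ≤ ∫ z in K', (2 * ‖∫ w, (ck w - kd δ w) * f n (z - w)‖ ^ 2
        + 2 * ‖∫ w, kd δ w * f n (z - w)‖ ^ 2) := by
        refine integral_mono hic ((hin.const_mul 2).add (hik.const_mul 2)) fun z => ?_
        simp only []
        rw [hsplit z]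
        have h1 := norm_add_le (∫ w, (ck w - kd δ w) * f n (z - w)) (∫ w, kd δ w * f n (z - w))
        nlinarith only [h1, norm_nonneg ((∫ w, (ck w - kd δ w) * f n (z - w)) + ∫ w, kd δ w * f n (z - w)), sq_nonneg (‖∫ w, (ck w - kd δ w) * f n (z - w)‖ - ‖∫ w, kd δ w * f n (z - w)‖)]
    _ = 2 * (∫ z in K', ‖∫ w, (ck w - kd δ w) * f n (z - w)‖ ^ 2)
        + 2 * ∫ z in K', ‖∫ w, kd δ w * f n (z - w)‖ ^ 2 := by
        rw [integral_add (hin.const_mul 2) (hik.const_mul 2), integral_const_mul,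
          integral_const_mul]
    _ ≤ 2 * (√δ * M) + 2 * ∫ z in K', ‖∫ w, kd δ w * f n (z - w)‖ ^ 2 := by gcongr
    _ < ε / 2 + ε / 2 := by linarith only [hδ2, h7]
    _ = ε := by ring

end

end QJ


end

section

/-!
U3, step CAUB: Cauchy transforms of sequences dominated by densities with linear growth are bounded
in `L²` on compact sets.
-/

open Complex MeasureTheory Filter Topology Set
open scoped ContDiff ENNReal

namespace U3

open QE QJ

noncomputable section

open QJ.CAU in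
/-- CAUB -/
theorem stmtCauB : StmtCauB := by
  intro K K' f C hK hK' hf hs hgr
  rcases K'.eq_empty_or_nonempty with rfl | ⟨z₀, hz₀⟩
  · exact ⟨0, by simp⟩
  have hc : ∀ n, HasCompactSupport (f n) := fun n => hK.of_isClosed_subset (isClosed_tsupport _) (hs n)
  obtain ⟨s₀, hs₀, hsub⟩ : ∃ s₀ : ℝ, 0 < s₀ ∧ K ⊆ Metric.closedBall z₀ s₀ := by
    obtain ⟨r, hr⟩ := hK.isBounded.subset_closedBall z₀
    exact ⟨max r 1, by positivity, hr.trans (Metric.closedBall_subset_closedBall (le_max_left _ _))⟩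
  have hC : 0 ≤ C := by
    obtain ⟨n, hn⟩ := hgr.exists
    have h1 := hn z₀ hz₀ 1 one_pos
    have h2 : 0 ≤ ∫ w in K ∩ Metric.closedBall z₀ 1, ‖f n w‖ := integral_nonneg fun w => norm_nonneg _
    linarith
  have hδ : (0 : ℝ) < 1 := one_pos
  set B : ℝ := 1 / (2 * Real.pi * 1) * (C * s₀) with hB
  have hB0 : 0 ≤ B := by positivity
  set M : ℝ := (C * s₀ + C) * (∫ w, kr 1 w) * (C * s₀) with hM
  refine ⟨2 * M + 2 * (volume.real K' * B ^ 2), ?_⟩
  filter_upwards [hgr] with n hn
  -- `L¹` norm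
  have hL1 : ∫ z, ‖f n z‖ ≤ C * s₀ := by
    have h1 := hn z₀ hz₀ s₀ hs₀
    rw [inter_eq_self_of_subset_left hsub] at h1
    have h2 : ∫ z, ‖f n z‖ = ∫ z in K, ‖f n z‖ := by
      rw [← integral_indicator hK.measurableSet]
      refine integral_congr_ae (Eventually.of_forall fun w => ?_)
      by_cases hw : w ∈ K
      · simp only [indicator_of_mem hw]
      · have : f n w = 0 := image_eq_zero_of_notMem_tsupport fun h => hw (hs n h)
        simp only [indicator_of_notMem hw, this, norm_zero]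
    rw [h2]
    exact h1
  have hcontk : Continuous (fun z => ∫ w, kd 1 w * f n (z - w)) := by
    have h1 := (hc n).continuous_convolution_right (ContinuousLinearMap.mul ℝ ℂ)
      ((continuous_kd hδ).locallyIntegrable (μ := volume)) (hf n).continuous
    have h2 : (fun z => ∫ w, kd 1 w * f n (z - w))
      = convolution (kd 1) (f n) (ContinuousLinearMap.mul ℝ ℂ) volume := by
      funext z; rw [convolution_def]; rfl
    rw [h2]; exact h1
  have hkb : ∀ z, ‖∫ w, kd 1 w * f n (z - w)‖ ≤ B := by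
    intro z
    have hi : Integrable (fun w => ‖f n (z - w)‖) :=
      (((hf n).continuous.integrable_of_hasCompactSupport (hc n)).norm).comp_sub_left z
    calc ‖∫ w, kd 1 w * f n (z - w)‖ ≤ ∫ w, ‖kd 1 w * f n (z - w)‖ :=
          norm_integral_le_integral_norm _
      _ ≤ ∫ w, 1 / (2 * Real.pi * 1) * ‖f n (z - w)‖ := by
          refine integral_mono_of_nonneg (Filter.Eventually.of_forall fun w => norm_nonneg _)
            (hi.const_mul _) (Filter.Eventually.of_forall fun w => ?_)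
          simp only [norm_mul]
          gcongr
          exact norm_kd_le hδ w
      _ = 1 / (2 * Real.pi * 1) * ∫ w, ‖f n w‖ := by
          rw [integral_const_mul, integral_sub_left_eq_self (fun w => ‖f n w‖) volume z]
      _ ≤ _ := by rw [hB]; gcongr
  have hsplit : ∀ z, cauchy (f n) z = (∫ w, (ck w - kd 1 w) * f n (z - w))
      + ∫ w, kd 1 w * f n (z - w) := by
    intro z
    have hi1 : Integrable (fun w => ck w * f n (z - w)) := convExists (hf n).continuous (hc n) z
    have hi3 : Integrable (fun w => f n (z - w)) :=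
      ((hf n).continuous.integrable_of_hasCompactSupport (hc n)).comp_sub_left z
    have hi2 : Integrable (fun w => kd 1 w * f n (z - w)) :=
      hi3.bdd_mul (continuous_kd hδ).aestronglyMeasurable
        (Filter.Eventually.of_forall fun w => norm_kd_le hδ w)
    have hi4 : Integrable (fun w => (ck w - kd 1 w) * f n (z - w)) := by
      refine (hi1.sub hi2).congr (Filter.Eventually.of_forall fun w => ?_)
      simp only [Pi.sub_apply]; ring
    rw [← integral_add hi4 hi2]
    unfold cauchy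
    refine integral_congr_ae (Filter.Eventually.of_forall fun w => ?_)
    simp only []; ring
  have hck := (contDiff_cauchy (hf n) (hc n)).continuous
  have hcontn : Continuous (fun z => ∫ w, (ck w - kd 1 w) * f n (z - w)) := by
    have : (fun z => ∫ w, (ck w - kd 1 w) * f n (z - w)) =
        fun z => cauchy (f n) z - ∫ w, kd 1 w * f n (z - w) := by
      funext z; rw [hsplit z]; ring
    rw [this]
    exact hck.sub hcontk
  have hik : IntegrableOn (fun z => ‖∫ w, kd 1 w * f n (z - w)‖ ^ 2) K' :=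
    (by fun_prop : Continuous (fun z => ‖∫ w, kd 1 w * f n (z - w)‖ ^ 2)).continuousOn.integrableOn_compact hK'
  have hin : IntegrableOn (fun z => ‖∫ w, (ck w - kd 1 w) * f n (z - w)‖ ^ 2) K' :=
    (hcontn.norm.pow 2).continuousOn.integrableOn_compact hK'
  have hic : IntegrableOn (fun z => ‖cauchy (f n) z‖ ^ 2) K' :=
    (hck.norm.pow 2).continuousOn.integrableOn_compact hK'
  have hkr : 0 ≤ ∫ w, kr 1 w := integral_nonneg fun w => kr_nonneg 1 w
  have hnear : ∫ z in K', ‖∫ w, (ck w - kd 1 w) * f n (z - w)‖ ^ 2 ≤ M := by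
    have hnn : 0 ≤ M := by positivity
    have h10 := near_bound K K' (fun w => ‖f n w‖) (f n) C s₀ 1 z₀ hK hz₀ hs₀ hsub hK'
      (fun w => norm_nonneg _) (hf n).continuous.norm hn (hs n) (fun z _ => le_rfl) hδ
    rw [← ENNReal.ofReal_le_ofReal_iff hnn, ofReal_integral_eq_lintegral_ofReal hin
      (Eventually.of_forall fun z => by positivity)]
    refine le_trans (le_of_eq ?_) (h10.trans (le_of_eq ?_))
    · refine lintegral_congr fun z => ?_
      rw [ENNReal.ofReal_pow (norm_nonneg _), ofReal_norm]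
    · congr 1
      rw [hM, Real.sqrt_one]; ring
  have hfar : ∫ z in K', ‖∫ w, kd 1 w * f n (z - w)‖ ^ 2 ≤ volume.real K' * B ^ 2 := by
    have h1 : ∫ z in K', ‖∫ w, kd 1 w * f n (z - w)‖ ^ 2 ≤ ∫ _ in K', B ^ 2 := by
      refine integral_mono hik (integrableOn_const hK'.measure_lt_top.ne) fun z => ?_
      simp only []
      gcongr
      exact hkb z
    refine h1.trans (le_of_eq ?_)
    rw [setIntegral_const, smul_eq_mul]
  calc ∫ z in K', ‖cauchy (f n) z‖ ^ 2
      ≤ ∫ z in K', (2 * ‖∫ w, (ck w - kd 1 w) * f n (z - w)‖ ^ 2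
        + 2 * ‖∫ w, kd 1 w * f n (z - w)‖ ^ 2) := by
        refine integral_mono hic ((hin.const_mul 2).add (hik.const_mul 2)) fun z => ?_
        simp only []
        rw [hsplit z]
        have h1 := norm_add_le (∫ w, (ck w - kd 1 w) * f n (z - w)) (∫ w, kd 1 w * f n (z - w))
        nlinarith [norm_nonneg (∫ w, (ck w - kd 1 w) * f n (z - w)),
          norm_nonneg (∫ w, kd 1 w * f n (z - w)),
          norm_nonneg ((∫ w, (ck w - kd 1 w) * f n (z - w)) + ∫ w, kd 1 w * f n (z - w)),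
          sq_nonneg (‖∫ w, (ck w - kd 1 w) * f n (z - w)‖ - ‖∫ w, kd 1 w * f n (z - w)‖)]
    _ = 2 * (∫ z in K', ‖∫ w, (ck w - kd 1 w) * f n (z - w)‖ ^ 2)
        + 2 * ∫ z in K', ‖∫ w, kd 1 w * f n (z - w)‖ ^ 2 := by
        rw [integral_add (hin.const_mul 2) (hik.const_mul 2), integral_const_mul,
          integral_const_mul]
    _ ≤ 2 * M + 2 * (volume.real K' * B ^ 2) := by gcongr

end

end U3


end

section

/-!
DSP: the jets at displaced points are dominated.
-/

open MeasureTheory Filter Topology Set Metric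
open scoped ContDiff

namespace QJ

open QE

noncomputable section

namespace DSP

/-- integrals over moving balls -/
lemma ball_shift (f : ℂ → ℝ) (z : ℂ) (ρ : ℝ) :
    ∫ w in closedBall z ρ, f w = ∫ v in closedBall (0 : ℂ) ρ, f (z + v) := by
  rw [← integral_indicator measurableSet_closedBall, ← integral_indicator measurableSet_closedBall,
    ← integral_add_left_eq_self (fun w => (closedBall z ρ).indicator f w) z]
  refine integral_congr_ae (Eventually.of_forall fun v => ?_)
  have he : z + v ∈ closedBall z ρ ↔ v ∈ closedBall (0 : ℂ) ρ := by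
    simp [mem_closedBall, dist_eq_norm]
  by_cases hv : v ∈ closedBall (0 : ℂ) ρ
  · simp only [indicator_of_mem hv, indicator_of_mem (he.2 hv)]
  · simp only [indicator_of_notMem hv, indicator_of_notMem (fun h => hv (he.1 h))]

lemma continuous_ball {f : ℂ → ℝ} (hf : Continuous f) (ρ : ℝ) :
    Continuous (fun z => ∫ w in closedBall z ρ, f w) := by
  have he : (fun z => ∫ w in closedBall z ρ, f w)
      = fun z => ∫ v in closedBall (0 : ℂ) ρ, f (z + v) := funext fun z => ball_shift f z ρ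
  rw [he]
  exact continuous_parametric_integral_of_continuous (f := fun z v => f (z + v))
    (hf.comp (continuous_fst.add continuous_snd)) (isCompact_closedBall _ _)

lemma vol_ball (z : ℂ) {ρ : ℝ} (hρ : 0 ≤ ρ) :
    (volume (closedBall z ρ)).toReal = Real.pi * ρ ^ 2 := by
  rw [Complex.volume_closedBall, ENNReal.toReal_mul, ENNReal.toReal_pow, ENNReal.toReal_ofReal hρ]
  simp [mul_comm]

lemma ball_le {f : ℂ → ℝ} (hf : Continuous f) {z : ℂ} {ρ M : ℝ} (hρ : 0 ≤ ρ)
    (hM : ∀ w ∈ closedBall z ρ, f w ≤ M) :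
    ∫ w in closedBall z ρ, f w ≤ Real.pi * ρ ^ 2 * M := by
  have h1 : ∫ w in closedBall z ρ, f w ≤ ∫ _ in closedBall z ρ, M :=
    setIntegral_mono_on (hf.continuousOn.integrableOn_compact (isCompact_closedBall _ _))
      (integrableOn_const (isCompact_closedBall z ρ).measure_lt_top.ne) measurableSet_closedBall hM
  refine h1.trans (le_of_eq ?_)
  rw [setIntegral_const, smul_eq_mul, Measure.real, vol_ball z hρ]

lemma shift_le {f : ℂ → ℝ} (hf : Continuous f) (hf0 : ∀ z, 0 ≤ f z) {K K' : Set ℂ}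
    (hK : IsCompact K) (hK' : IsCompact K') {v : ℂ} (hv : ∀ z ∈ K, z + v ∈ K') :
    ∫ z in K, f (z + v) ≤ ∫ w in K', f w := by
  rw [← integral_indicator hK.measurableSet, ← integral_indicator hK'.measurableSet,
    ← integral_sub_right_eq_self (K.indicator fun z => f (z + v)) v]
  refine integral_mono_of_nonneg (Eventually.of_forall fun w => ?_) ?_
    (Eventually.of_forall fun w => ?_)
  · exact indicator_nonneg (fun z _ => hf0 _) _
  · exact (hf.continuousOn.integrableOn_compact hK').integrable_indicator hK'.measurableSet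
  · show K.indicator (fun z => f (z + v)) (w - v) ≤ K'.indicator f w
    by_cases hw : w - v ∈ K
    · have h1 := hv _ hw
      rw [sub_add_cancel] at h1
      rw [indicator_of_mem hw, indicator_of_mem h1, sub_add_cancel]
    · rw [indicator_of_notMem hw]
      exact indicator_nonneg (fun z _ => hf0 _) _

lemma fub {f : ℂ → ℝ} (hf : Continuous f) (hf0 : ∀ z, 0 ≤ f z) {K K' : Set ℂ} (hK : IsCompact K)
    (hK' : IsCompact K') {ρ : ℝ} (hρ : 0 ≤ ρ) (hsub : ∀ z ∈ K, ∀ v : ℂ, ‖v‖ ≤ ρ → z + v ∈ K') :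
    ∫ z in K, ∫ w in closedBall z ρ, f w ≤ Real.pi * ρ ^ 2 * ∫ w in K', f w := by
  have he : (fun z => ∫ w in closedBall z ρ, f w)
      = fun z => ∫ v in closedBall (0 : ℂ) ρ, f (z + v) := funext fun z => ball_shift f z ρ
  rw [he]
  have hB : IsCompact (closedBall (0 : ℂ) ρ) := isCompact_closedBall _ _
  have hint : Integrable (Function.uncurry fun z v : ℂ => f (z + v))
      ((volume.restrict K).prod (volume.restrict (closedBall (0 : ℂ) ρ))) := by
    rw [Measure.prod_restrict]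
    exact (hf.comp (continuous_fst.add continuous_snd)).continuousOn.integrableOn_compact
      (hK.prod hB)
  rw [integral_integral_swap hint]
  have hc : Continuous fun v : ℂ => ∫ z in K, f (z + v) :=
    continuous_parametric_integral_of_continuous (f := fun v z => f (z + v))
      (hf.comp (continuous_snd.add continuous_fst)) hK
  have h1 : ∫ v in closedBall (0 : ℂ) ρ, ∫ z in K, f (z + v)
      ≤ ∫ _ in closedBall (0 : ℂ) ρ, ∫ w in K', f w := by
    refine setIntegral_mono_on (hc.continuousOn.integrableOn_compact hB)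
      (integrableOn_const hB.measure_lt_top.ne) measurableSet_closedBall fun v hv => ?_
    exact shift_le hf hf0 hK hK' fun z hz => hsub z hz v (by simpa using hv)
  refine h1.trans (le_of_eq ?_)
  rw [setIntegral_const, smul_eq_mul, Measure.real, vol_ball 0 hρ]

end DSP

open _root_.QJ.DSP

/-- DSP: the jets at displaced points are dominated -/
theorem stmtDsp (hGro : StmtGro) (hPtw : StmtPtw) : StmtDsp := by
  intro V σ h φ hL K hK hKV N R
  have hG := hGro V σ h φ hL
  obtain ⟨δ, hδ, hδV⟩ := hK.exists_cthickening_subset_open hL.op hKV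
  have hK' : IsCompact (cthickening δ K) := hK.cthickening
  obtain ⟨c, C, hc, hC⟩ := hPtw V σ h φ hL (cthickening δ K) hK' hδV N
  have hR0 : 0 ≤ max R 0 := le_max_right _ _
  have hr : 0 < c + max R 0 := by linarith
  have hC1 : (1 : ℝ) ≤ max C 1 := le_max_right _ _
  have hC0 : (0 : ℝ) < max C 1 := by linarith
  have hfc : ∀ n, Continuous fun w => ‖φ n w‖ ^ 2 := fun n => (hL.smφ n).continuous.norm.pow 2
  have hf0 : ∀ n w, 0 ≤ ‖φ n w‖ ^ 2 := fun n w => by positivity
  have hh0 : ∀ r : ℝ, ∀ ε > 0, ∀ᶠ n in atTop, r * h n ≤ ε := by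
    intro r ε hε
    have h1 : Tendsto (fun n => r * h n) atTop (𝓝 (r * 0)) := hL.hlim.const_mul r
    rw [mul_zero] at h1
    filter_upwards [h1.eventually (gt_mem_nhds hε)] with n hn
    exact hn.le
  have hI0 : ∀ n z, 0 ≤ 1 / h n ^ 2 * ∫ w in closedBall z ((c + max R 0) * h n), ‖φ n w‖ ^ 2 :=
    fun n z => mul_nonneg (by positivity) (integral_nonneg fun w => hf0 n w)
  refine ⟨fun n z => max C 1 * (1 + 1 / h n ^ 2 *
    ∫ w in closedBall z ((c + max R 0) * h n), ‖φ n w‖ ^ 2), ?_, ?_, ?_, ?_⟩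
  · intro n z
    have := hI0 n z
    nlinarith
  · intro n
    exact continuous_const.mul (continuous_const.add
      (continuous_const.mul (continuous_ball (hfc n) _)))
  · filter_upwards [hC, hh0 (max R 0) δ hδ] with n hn hn2 z hz y hy
    have hhn := hL.hpos n
    have hd : dist (z + h n * y) z ≤ max R 0 * h n := by
      rw [dist_eq_norm, add_sub_cancel_left, norm_mul, Complex.norm_real, Real.norm_of_nonneg hhn.le,
        mul_comm]
      exact mul_le_mul_of_nonneg_right (hy.trans (le_max_left _ _)) hhn.le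
    have hm : z + h n * y ∈ cthickening δ K :=
      mem_cthickening_of_dist_le _ z δ K hz (hd.trans hn2)
    refine ⟨hδV hm, (hn _ hm).trans ?_⟩
    have hs : closedBall (z + h n * y) (c * h n) ⊆ closedBall z ((c + max R 0) * h n) := by
      refine closedBall_subset_closedBall' ?_
      rw [add_mul]
      linarith
    have h1 : ∫ w in closedBall (z + h n * y) (c * h n), ‖φ n w‖ ^ 2
        ≤ ∫ w in closedBall z ((c + max R 0) * h n), ‖φ n w‖ ^ 2 :=
      setIntegral_mono_set ((hfc n).continuousOn.integrableOn_compact (isCompact_closedBall _ _))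
        (Eventually.of_forall fun w => hf0 n w) (Eventually.of_forall fun w hw => hs hw)
    have h2 : 0 ≤ 1 / h n ^ 2 * ∫ w in closedBall (z + h n * y) (c * h n), ‖φ n w‖ ^ 2 :=
      mul_nonneg (by positivity) (integral_nonneg fun w => hf0 n w)
    have h3 : 1 / h n ^ 2 * (∫ w in closedBall (z + h n * y) (c * h n), ‖φ n w‖ ^ 2)
        ≤ 1 / h n ^ 2 * ∫ w in closedBall z ((c + max R 0) * h n), ‖φ n w‖ ^ 2 :=
      mul_le_mul_of_nonneg_left h1 (by positivity)
    calc C * (1 + 1 / h n ^ 2 * ∫ w in closedBall (z + h n * y) (c * h n), ‖φ n w‖ ^ 2)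
        ≤ max C 1 * (1 + 1 / h n ^ 2 *
            ∫ w in closedBall (z + h n * y) (c * h n), ‖φ n w‖ ^ 2) :=
          mul_le_mul_of_nonneg_right (le_max_left _ _) (by linarith)
      _ ≤ _ := mul_le_mul_of_nonneg_left (by linarith) hC0.le
  · rcases K.eq_empty_or_nonempty with hKe | ⟨z0, hz0⟩
    · subst hKe
      simp
    have hz0' : z0 ∈ cthickening δ K := self_subset_cthickening K hz0
    obtain ⟨M0, hM0⟩ := hG.grow _ hK' hδV 0
    obtain ⟨s, hs0, hs⟩ : ∃ s > 0, cthickening δ K ⊆ closedBall z0 s := by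
      obtain ⟨s, hs⟩ := hK'.isBounded.subset_closedBall z0
      exact ⟨max s 1, by positivity, hs.trans (closedBall_subset_closedBall (le_max_left _ _))⟩
    have hφR : ∀ n w, ‖φ n w‖ ^ 2 ≤ RR h φ 0 n w := by
      intro n w
      have := W_sq_le (h := h) (φ := φ) (le_refl 0) (le_refl 0) n w
      rwa [W_zero] at this
    -- the mass on the thickened set
    have hmass : ∀ᶠ n in atTop, ∫ w in cthickening δ K, ‖φ n w‖ ^ 2 ≤ max (M0 * s) 0 := by
      filter_upwards [hM0] with n hn
      have h1 := hn z0 hz0' s hs0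
      rw [inter_eq_self_of_subset_left hs] at h1
      refine le_trans ?_ (h1.trans (le_max_left _ _))
      exact setIntegral_mono_on ((hfc n).continuousOn.integrableOn_compact hK')
        ((continuous_RR hL.smφ 0 n).continuousOn.integrableOn_compact hK') hK'.measurableSet
        fun w _ => hφR n w
    set r := c + max R 0 with hrdef
    set M := max (M0 * s) 0 with hMdef
    have hMn : 0 ≤ M := le_max_right _ _
    set vK := (volume K).toReal with hvK
    have hvK0 : 0 ≤ vK := ENNReal.toReal_nonneg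
    set S : ℕ → ℂ → ℝ := fun n z => max C 1 * (1 + 1 / h n ^ 2 *
      ∫ w in closedBall z (r * h n), ‖φ n w‖ ^ 2) with hS
    have hSc : ∀ n, Continuous (S n) := fun n => continuous_const.mul (continuous_const.add
      (continuous_const.mul (continuous_ball (hfc n) _)))
    have hS0 : ∀ n z, 0 ≤ S n z := fun n z => mul_nonneg hC0.le (by linarith [hI0 n z])
    set A := max C 1 * (1 + Real.pi * r ^ 2) with hA
    set Bd := max C 1 * (vK + Real.pi * r ^ 2 * M) with hBd
    have hA0 : 0 ≤ A := by positivity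
    have hB0 : 0 ≤ Bd := by (clear * - hc; positivity)
    have key : ∀ ε > 0, ∀ᶠ n in atTop, h n * ∫ z in K, S n z ^ 2 ≤ ε * (A * Bd) := by
      intro ε hε
      filter_upwards [hmass, hh0 r δ hδ, hh0 1 ε hε, hG.small _ hK' hδV 0 ε hε]
        with n h1 h2 h3 h4
      have hhn := hL.hpos n
      have hrn : 0 ≤ r * h n := by positivity
      rw [one_mul] at h3
      have hsub : ∀ z ∈ K, ∀ v : ℂ, ‖v‖ ≤ r * h n → z + v ∈ cthickening δ K := by
        intro z hz v hv
        refine mem_cthickening_of_dist_le _ z δ K hz ?_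
        rw [dist_eq_norm, add_sub_cancel_left]
        exact hv.trans h2
      -- pointwise bound
      have hpt : ∀ z ∈ K, h n * S n z ≤ ε * A := by
        intro z hz
        have h5 : ∫ w in closedBall z (r * h n), ‖φ n w‖ ^ 2
            ≤ Real.pi * (r * h n) ^ 2 * (ε / h n) := by
          refine ball_le (hfc n) hrn fun w hw => ?_
          have h6 : w ∈ cthickening δ K := by
            have := hsub z hz (w - z) (by rwa [← dist_eq_norm])
            simpa using this
          have h7 := h4 w h6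
          rw [le_div_iff₀ hhn, mul_comm]
          exact (mul_le_mul_of_nonneg_left (hφR n w) hhn.le).trans h7
        have h8 : h n * S n z = max C 1 * (h n + 1 / h n *
            ∫ w in closedBall z (r * h n), ‖φ n w‖ ^ 2) := by
          rw [hS]
          field_simp
        have h9 : 1 / h n * ∫ w in closedBall z (r * h n), ‖φ n w‖ ^ 2
            ≤ Real.pi * r ^ 2 * ε := by
          have h10 : 1 / h n * (∫ w in closedBall z (r * h n), ‖φ n w‖ ^ 2)
              ≤ 1 / h n * (Real.pi * (r * h n) ^ 2 * (ε / h n)) :=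
            mul_le_mul_of_nonneg_left h5 (by positivity)
          refine h10.trans (le_of_eq ?_)
          field_simp
        rw [h8, hA]
        calc max C 1 * (h n + 1 / h n * ∫ w in closedBall z (r * h n), ‖φ n w‖ ^ 2)
            ≤ max C 1 * (ε + Real.pi * r ^ 2 * ε) :=
              mul_le_mul_of_nonneg_left (add_le_add h3 h9) hC0.le
          _ = ε * (max C 1 * (1 + Real.pi * r ^ 2)) := by ring
      -- the integral of S
      have hintS : ∫ z in K, S n z ≤ Bd := by
        have h5 := fub (hfc n) (hf0 n) hK hK' hrn hsub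
        have h6 : IntegrableOn (fun z => ∫ w in closedBall z (r * h n), ‖φ n w‖ ^ 2) K :=
          (continuous_ball (hfc n) _).continuousOn.integrableOn_compact hK
        have h7 : ∫ z in K, S n z = max C 1 * (vK + 1 / h n ^ 2 *
            ∫ z in K, ∫ w in closedBall z (r * h n), ‖φ n w‖ ^ 2) := by
          rw [hS]
          show ∫ z in K, max C 1 * (1 + 1 / h n ^ 2 *
            ∫ w in closedBall z (r * h n), ‖φ n w‖ ^ 2) = _
          have i1 : IntegrableOn (fun _ : ℂ => (1 : ℝ)) K := integrableOn_const hK.measure_lt_top.ne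
          rw [integral_const_mul, integral_add i1 (h6.const_mul _), integral_const_mul,
            setIntegral_const]
          simp [Measure.real, hvK]
        rw [h7, hBd]
        refine mul_le_mul_of_nonneg_left ?_ hC0.le
        have h8 : 1 / h n ^ 2 * (∫ z in K, ∫ w in closedBall z (r * h n), ‖φ n w‖ ^ 2)
            ≤ 1 / h n ^ 2 * (Real.pi * (r * h n) ^ 2 * M) := by
          refine mul_le_mul_of_nonneg_left (h5.trans ?_) (by positivity)
          exact mul_le_mul_of_nonneg_left h1 (by positivity)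
        have h9 : 1 / h n ^ 2 * (Real.pi * (r * h n) ^ 2 * M) = Real.pi * r ^ 2 * M := by
          field_simp
        linarith only [h8, h9]
      calc h n * ∫ z in K, S n z ^ 2 = ∫ z in K, h n * S n z ^ 2 := (integral_const_mul _ _).symm
        _ ≤ ∫ z in K, (ε * A) * S n z := by
            refine setIntegral_mono_on
              ((continuous_const.mul ((hSc n).pow 2)).continuousOn.integrableOn_compact hK)
              ((continuous_const.mul (hSc n)).continuousOn.integrableOn_compact hK)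
              hK.measurableSet fun z hz => ?_
            calc h n * S n z ^ 2 = (h n * S n z) * S n z := by ring
              _ ≤ (ε * A) * S n z := mul_le_mul_of_nonneg_right (hpt z hz) (hS0 n z)
        _ = (ε * A) * ∫ z in K, S n z := integral_const_mul _ _
        _ ≤ (ε * A) * Bd := mul_le_mul_of_nonneg_left hintS (by positivity)
        _ = ε * (A * Bd) := by ring
    rw [Metric.tendsto_atTop]
    intro ε hε
    have h1 := key (ε / (2 * (A * Bd + 1))) (by (clear * - hε hc; positivity))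
    obtain ⟨n0, hn0⟩ := eventually_atTop.1 h1
    refine ⟨n0, fun n hn => ?_⟩
    have h2 := hn0 n hn
    have h3 : 0 ≤ h n * ∫ z in K, S n z ^ 2 :=
      mul_nonneg (hL.hpos n).le (integral_nonneg fun z => by (clear * -; positivity))
    rw [Real.dist_eq, sub_zero, abs_of_nonneg h3]
    have h4 : ε / (2 * (A * Bd + 1)) * (A * Bd) < ε := by
      have h5 : 0 ≤ A * Bd := by (clear * - hc; positivity)
      rw [div_mul_eq_mul_div, div_lt_iff₀ (by (clear * - hc; positivity))]
      nlinarith only [hε, h5]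
    exact lt_of_le_of_lt h2 h4

end

end QJ


end

section

/-!
PTS: the local theorem for the local waves at distinct points.
-/

open MeasureTheory Filter Topology Set UpperHalfPlane MatrixGroups
open scoped ContDiff

namespace QJ

open QE

noncomputable section

namespace PTS

/-- the derivative in terms of the Wirtinger derivatives -/
lemma fderiv_eq (f : ℂ → ℂ) (w v : ℂ) :
    fderiv ℝ f w v = dz f w * v + dzb f w * (starRingEnd ℂ) v := by
  have h1 : v = v.re • (1 : ℂ) + v.im • Complex.I := by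
    apply Complex.ext <;> simp
  have h2 : fderiv ℝ f w v = (v.re : ℂ) * fderiv ℝ f w 1 + (v.im : ℂ) * fderiv ℝ f w Complex.I := by
    conv_lhs => rw [h1]
    rw [map_add, map_smul, map_smul, Complex.real_smul, Complex.real_smul]
  rw [h2]
  have h3 : (v : ℂ) = (v.re : ℂ) + (v.im : ℂ) * Complex.I := (Complex.re_add_im v).symm
  have h4 : (starRingEnd ℂ) v = (v.re : ℂ) - (v.im : ℂ) * Complex.I := by
    apply Complex.ext <;> simp
  unfold dz dzb
  rw [h4]
  conv_rhs => rw [h3]
  simp only [Complex.add_re, Complex.ofReal_re, Complex.mul_re, Complex.I_re, mul_zero,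
    Complex.ofReal_im, Complex.I_im, mul_one, sub_self, add_zero, Complex.add_im, Complex.mul_im,
    zero_add]
  linear_combination ((v.im : ℂ) * fderiv ℝ f w Complex.I) * Complex.I_mul_I

/-- the mean value inequality at the scale `h` -/
lemma diff_le {Φ : ℂ → ℂ} {U : Set ℂ} (hU : IsOpen U) (hΦ : ContDiffOn ℝ ∞ Φ U) {h R M : ℝ} {z : ℂ}
    (hb : ∀ y : ℂ, ‖y‖ ≤ R → z + h * y ∈ U ∧ ‖(h : ℂ) * dz Φ (z + h * y)‖ ≤ M ∧
      ‖(h : ℂ) * dzb Φ (z + h * y)‖ ≤ M) {y₁ y₂ : ℂ} (h1 : ‖y₁‖ ≤ R) (h2 : ‖y₂‖ ≤ R) :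
    ‖Φ (z + h * y₁) - Φ (z + h * y₂)‖ ≤ 2 * M * ‖y₁ - y₂‖ := by
  have hder : ∀ y : ℂ, ‖y‖ ≤ R → HasFDerivAt (fun y : ℂ => Φ (z + h * y))
      ((fderiv ℝ Φ (z + h * y)).comp ((h : ℂ) • ContinuousLinearMap.id ℝ ℂ)) y := by
    intro y hy
    have e1 : HasFDerivAt Φ (fderiv ℝ Φ (z + h * y)) (z + h * y) :=
      (((hΦ _ (hb y hy).1).contDiffAt (hU.mem_nhds (hb y hy).1)).differentiableAt
        (by simp)).hasFDerivAt
    have e2 : HasFDerivAt (fun y : ℂ => z + (h : ℂ) * y)
        ((h : ℂ) • ContinuousLinearMap.id ℝ ℂ) y :=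
      ((hasFDerivAt_id (𝕜 := ℝ) y).const_mul (h : ℂ)).const_add z
    exact e1.comp y e2
  have hM : 0 ≤ M := (norm_nonneg _).trans (hb y₁ h1).2.1
  have key := (convex_closedBall (0 : ℂ) R).norm_image_sub_le_of_norm_hasFDerivWithin_le
    (𝕜 := ℝ) (f := fun y : ℂ => Φ (z + h * y)) (C := 2 * M)
    (f' := fun y => (fderiv ℝ Φ (z + h * y)).comp ((h : ℂ) • ContinuousLinearMap.id ℝ ℂ))
    (fun y hy => (hder y (by simpa using hy)).hasFDerivWithinAt) ?_
    (x := y₂) (y := y₁) (by simpa using h2) (by simpa using h1)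
  · exact key
  · intro y hy
    have hy' : ‖y‖ ≤ R := by simpa using hy
    obtain ⟨-, b1, b2⟩ := hb y hy'
    refine ContinuousLinearMap.opNorm_le_bound _ (by positivity) fun v => ?_
    have e3 : ((fderiv ℝ Φ (z + h * y)).comp ((h : ℂ) • ContinuousLinearMap.id ℝ ℂ)) v
        = ((h : ℂ) * dz Φ (z + h * y)) * v + ((h : ℂ) * dzb Φ (z + h * y)) * (starRingEnd ℂ) v := by
      change fderiv ℝ Φ (z + h * y) ((h : ℂ) * v) = _
      rw [fderiv_eq, map_mul, Complex.conj_ofReal]
      ring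
    rw [e3]
    refine (norm_add_le _ _).trans ?_
    rw [norm_mul _ v, norm_mul _ ((starRingEnd ℂ) v), RCLike.norm_conj]
    have := norm_nonneg v
    nlinarith

/-- the difference of two products -/
lemma prod_diff {ι : Type*} (s : Finset ι) (a b : ι → ℂ) {M δ : ℝ} (hM : 1 ≤ M) (hδ : 0 ≤ δ)
    (ha : ∀ i, ‖a i‖ ≤ M) (hb : ∀ i, ‖b i‖ ≤ M) (hd : ∀ i, ‖a i - b i‖ ≤ δ) :
    ‖∏ i ∈ s, a i - ∏ i ∈ s, b i‖ ≤ s.card * (δ * M ^ s.card) ∧ ‖∏ i ∈ s, a i‖ ≤ M ^ s.card := by
  classical
  have hM0 : 0 ≤ M := by linarith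
  induction s using Finset.induction_on with
  | empty => simp
  | insert i s hi ih =>
    obtain ⟨ih1, ih2⟩ := ih
    rw [Finset.prod_insert hi, Finset.prod_insert hi, Finset.card_insert_of_notMem hi]
    constructor
    · have e1 : a i * ∏ j ∈ s, a j - b i * ∏ j ∈ s, b j
          = (a i - b i) * ∏ j ∈ s, a j + b i * (∏ j ∈ s, a j - ∏ j ∈ s, b j) := by ring
      rw [e1]
      refine (norm_add_le _ _).trans ?_
      rw [norm_mul, norm_mul]
      have hp : 0 ≤ M ^ s.card := by positivity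
      have h1 : ‖a i - b i‖ * ‖∏ j ∈ s, a j‖ ≤ δ * M ^ s.card :=
        mul_le_mul (hd i) ih2 (norm_nonneg _) hδ
      have h2 : ‖b i‖ * ‖∏ j ∈ s, a j - ∏ j ∈ s, b j‖ ≤ M * (s.card * (δ * M ^ s.card)) :=
        mul_le_mul (hb i) ih1 (norm_nonneg _) hM0
      have h3 : δ * M ^ s.card ≤ δ * M ^ (s.card + 1) := by
        rw [pow_succ]
        have : 0 ≤ δ * M ^ s.card := by positivity
        nlinarith only [hM, this]
      push_cast
      calc _ ≤ δ * M ^ s.card + M * (s.card * (δ * M ^ s.card)) := add_le_add h1 h2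
        _ ≤ δ * M ^ (s.card + 1) + M * (s.card * (δ * M ^ s.card)) := by linarith
        _ = _ := by ring
    · rw [norm_mul, pow_succ, mul_comm]
      exact mul_le_mul ih2 (ha i) (norm_nonneg _) (by positivity)

/-- the frames up to `O(h)` -/
lemma frXi_sub {h : ℕ → ℝ} {e : ℂ → ℝ} {M : ℝ} {x : ℂ} {n : ℕ} (hpos : 0 < h n) (θ : ℝ) {z : ℂ}
    (hM : |e z| ≤ M) (hn : h n * (‖x‖ * M) < 1 / 2) :
    ‖frXi h e x n θ z - uu θ ^ 2 * x‖ ≤ 2 * ‖x‖ * (h n * (‖x‖ * M)) := by
  have hM0 : 0 ≤ M := (abs_nonneg _).trans hM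
  have h1 : ‖(h n : ℂ) * x * uu θ * Real.sin θ * e z‖ ≤ h n * (‖x‖ * M) := by
    have h1 := norm_c_le hpos.le x θ
    rw [norm_mul _ ((e z : ℝ) : ℂ), Complex.norm_real, Real.norm_eq_abs, ← mul_assoc]
    exact mul_le_mul h1 hM (abs_nonneg _) (by have := hpos.le; positivity)
  set c := (h n : ℂ) * x * uu θ * Real.sin θ * e z with hc
  have h2 : 1 / 2 ≤ ‖1 + c‖ := by
    have h2 := norm_sub_norm_le (1 : ℂ) (-c)
    rw [norm_one, norm_neg, sub_neg_eq_add] at h2
    linarith
  have hne : (1 + c) ≠ 0 := by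
    intro h0; rw [h0, norm_zero] at h2; linarith only [h2]
  have e1 : frXi h e x n θ z - uu θ ^ 2 * x = -(x * uu θ ^ 2 * c / (1 + c)) := by
    have e0 : frXi h e x n θ z = x * uu θ ^ 2 / (1 + c) := rfl
    rw [e0]
    field_simp
    ring
  rw [e1, norm_neg, norm_div, norm_mul, norm_mul, norm_pow, norm_uu, one_pow, mul_one,
    div_le_iff₀ (by linarith)]
  have hx := norm_nonneg x
  calc ‖x‖ * ‖c‖ ≤ ‖x‖ * (h n * (‖x‖ * M)) := by gcongr
    _ = (2 * ‖x‖ * (h n * (‖x‖ * M))) * (1 / 2) := by ring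
    _ ≤ (2 * ‖x‖ * (h n * (‖x‖ * M))) * ‖1 + c‖ := by
        have := hpos.le
        exact mul_le_mul_of_nonneg_left h2 (by positivity)

/-- the local waves and the products at displaced points -/
lemma compare (hDsu : StmtDsu) {ρ : ℍ → ℝ} {φ : ℕ → ℍ → ℝ} {m : ℕ → ℝ}
    (hρ : ContDiffOn ℝ ∞ (fun w : ℂ => ρ (ofComplex w)) {w | 0 < w.im})
    (hL : LocalQE HH (gw ρ) (fun n => 1 / m n) (fun n z => (φ n (ofComplex z) : ℂ)))
    {ψ : ℂ → ℝ} (hψ : ContDiff ℝ ∞ ψ) (hψs : HasCompactSupport ψ) (hψU : tsupport ψ ⊆ HH)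
    {r : ℕ} (hr : r ≤ 3) (x : Fin r → ℂ) :
    Tendsto (fun n => ((∫ z, ψ z * angProd ρ (φ n) (m n) x (ofComplex z) : ℝ) : ℂ)
      - ∫ θ, (∫ z, (ψ z : ℂ) * PD (gw ρ) (fun n => 1 / m n) (fun n z => (φ n (ofComplex z) : ℂ))
          x n θ z) ∂angle) atTop (𝓝 0) := by
  set h : ℕ → ℝ := fun n => 1 / m n with hh
  set Φ : ℕ → ℂ → ℂ := fun n z => (φ n (ofComplex z) : ℂ) with hΦ
  set K := tsupport ψ with hKdef
  have hKc : IsCompact K := hψs
  have hpos : ∀ n, 0 < h n := hL.hpos
  have hlim : Tendsto h atTop (𝓝 0) := hL.hlim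
  have hmpos : ∀ n, 0 < m n := fun n => one_div_pos.1 (hpos n)
  -- the coefficients
  have heS : ContDiffOn ℝ ∞ (em ρ) HH := Real.contDiff_exp.comp_contDiffOn hρ.neg
  have haS : ContDiffOn ℝ ∞ (wt (gw ρ)) HH := by
    have h1 : ContDiffOn ℝ ∞ (fun z : ℂ => (z.im : ℂ) * (em ρ z : ℂ)) HH :=
      (Complex.ofRealCLM.contDiff.comp Complex.imCLM.contDiff).contDiffOn.mul
        (Complex.ofRealCLM.contDiff.comp_contDiffOn heS)
    exact h1.congr fun z hz => wt_gw hz
  have hgS : ContDiffOn ℝ ∞ (gw ρ) HH := by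
    refine ContDiffOn.div (Real.contDiff_exp.comp_contDiffOn (contDiffOn_const.mul hρ))
      (Complex.imCLM.contDiff.contDiffOn.pow 2) fun z hz => ?_
    have : (0 : ℝ) < z.im := hz
    exact (pow_pos this 2).ne'
  have hgpos : ∀ z ∈ HH, 0 < gw ρ z := fun z hz => by
    have : (0 : ℝ) < z.im := hz
    exact div_pos (Real.exp_pos _) (pow_pos this 2)
  obtain ⟨A, hA⟩ := hKc.exists_bound_of_continuousOn (haS.continuousOn.mono hψU)
  obtain ⟨M, hM⟩ := hKc.exists_bound_of_continuousOn (heS.continuousOn.mono hψU)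
  obtain ⟨B, hB⟩ := hKc.exists_bound_of_continuousOn (f := ψ) hψ.continuous.continuousOn
  obtain ⟨L, hLip⟩ := lip_of_smooth isOpen_HH haS hKc hψU
  -- enlarge the constants
  set A' := |A| with hA'
  set M' := |M| with hM'
  set B' := |B| with hB'
  have hA2 : ∀ z ∈ K, ‖wt (gw ρ) z‖ ≤ A' := fun z hz => (hA z hz).trans (le_abs_self A)
  have hM2 : ∀ z ∈ K, |em ρ z| ≤ M' := fun z hz => (hM z hz).trans (le_abs_self M)
  have hB2 : ∀ z ∈ K, ‖ψ z‖ ≤ B' := fun z hz => (hB z hz).trans (le_abs_self B)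
  have hA0 : 0 ≤ A' := abs_nonneg _
  have hM0 : 0 ≤ M' := abs_nonneg _
  have hB0 : 0 ≤ B' := abs_nonneg _
  set X : ℝ := ∑ i, ‖x i‖ with hX
  have hX0 : 0 ≤ X := Finset.sum_nonneg fun _ _ => norm_nonneg _
  have hxX : ∀ i, ‖x i‖ ≤ X := fun i =>
    Finset.single_le_sum (f := fun i => ‖x i‖) (fun _ _ => norm_nonneg _) (Finset.mem_univ i)
  set R : ℝ := 2 * A' * X with hR
  obtain ⟨S, hS1, hSc, hSb, hSl⟩ := hDsu HH (gw ρ) h Φ isOpen_HH hgS hgpos hL K hKc hψU R
  have hdisp : ∀ i, Disp h (wt (gw ρ)) K 2 (x i) (frXi h (em ρ) (x i)) := fun i =>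
    disp_frame hpos hlim hLip (b := fun z => z.im) (fun z _ w _ => by
      have := Complex.abs_im_le_norm (z - w)
      rwa [Complex.sub_im] at this) (fun z hz => wt_gw (hψU hz))
      (heS.continuousOn.mono hψU) hM2 (x i)
  have hcont : ∀ᶠ n in atTop, ∀ i, ContinuousOn (fun p : ℝ × ℂ => frXi h (em ρ) (x i) n p.1 p.2)
      (univ ×ˢ K) := eventually_all.2 fun i => (hdisp i).cont
  have hsmall : ∀ᶠ n in atTop, h n * (X * M') < 1 / 2 := by
    have := hlim.mul_const (X * M')
    rw [zero_mul] at this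
    exact this.eventually_lt_const (by norm_num)
  set C : ℝ := 2 * A' * X * (X * M') with hC
  have hC0 : 0 ≤ C := by positivity
  -- the bound
  have hbound : ∀ᶠ n in atTop, ‖((∫ z, ψ z * angProd ρ (φ n) (m n) x (ofComplex z) : ℝ) : ℂ)
      - ∫ θ, (∫ z, (ψ z : ℂ) * PD (gw ρ) h Φ x n θ z) ∂angle‖
      ≤ B' * (6 * C) * (h n * ∫ z in K, S n z ^ 2) := by
    filter_upwards [hSb, hcont, hsmall] with n n1 n2 n3
    set y₁ : Fin r → ℝ → ℂ → ℂ := fun i θ z => wt (gw ρ) z * frXi h (em ρ) (x i) n θ z with hy₁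
    set y₂ : Fin r → ℝ → ℂ → ℂ := fun i θ z => wt (gw ρ) z * (uu θ ^ 2 * x i) with hy₂
    have hn := (hpos n).le
    have hxs : ∀ i, h n * (‖x i‖ * M') < 1 / 2 := fun i => by
      refine lt_of_le_of_lt ?_ n3
      have := hxX i
      gcongr
    have hsub : ∀ i θ, ∀ z ∈ K, ‖frXi h (em ρ) (x i) n θ z - uu θ ^ 2 * x i‖
        ≤ 2 * X * (h n * (X * M')) := fun i θ z hz => by
      refine (frXi_sub (hpos n) θ (hM2 z hz) (hxs i)).trans ?_
      have := hxX i
      gcongr
    have hu2 : ∀ i θ, ‖uu θ ^ 2 * x i‖ ≤ X := fun i θ => by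
      rw [norm_mul, norm_pow, norm_uu, one_pow, one_mul]; exact hxX i
    have hy2R : ∀ i θ, ∀ z ∈ K, ‖y₂ i θ z‖ ≤ R := fun i θ z hz => by
      simp only [hy₂, norm_mul]
      rw [← norm_mul (uu θ ^ 2) (x i)]
      calc ‖wt (gw ρ) z‖ * ‖uu θ ^ 2 * x i‖ ≤ A' * X :=
            mul_le_mul (hA2 z hz) (hu2 i θ) (norm_nonneg _) hA0
        _ ≤ R := by rw [hR]; nlinarith [mul_nonneg hA0 hX0]
    have hy12 : ∀ i θ, ∀ z ∈ K, ‖y₁ i θ z - y₂ i θ z‖ ≤ C * h n := fun i θ z hz => by
      simp only [hy₁, hy₂, ← mul_sub, norm_mul]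
      calc ‖wt (gw ρ) z‖ * ‖frXi h (em ρ) (x i) n θ z - uu θ ^ 2 * x i‖
          ≤ A' * (2 * X * (h n * (X * M'))) :=
            mul_le_mul (hA2 z hz) (hsub i θ z hz) (norm_nonneg _) hA0
        _ = C * h n := by rw [hC]; ring
    have hy1R : ∀ i θ, ∀ z ∈ K, ‖y₁ i θ z‖ ≤ R := fun i θ z hz => by
      simp only [hy₁, norm_mul]
      have e1 : ‖frXi h (em ρ) (x i) n θ z‖ ≤ 2 * X := by
        have e2 : frXi h (em ρ) (x i) n θ z
            = (frXi h (em ρ) (x i) n θ z - uu θ ^ 2 * x i) + uu θ ^ 2 * x i := by ring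
        rw [e2]
        refine (norm_add_le _ _).trans ?_
        have e3 := hsub i θ z hz
        have e4 := hu2 i θ
        nlinarith
      calc ‖wt (gw ρ) z‖ * ‖frXi h (em ρ) (x i) n θ z‖ ≤ A' * (2 * X) :=
            mul_le_mul (hA2 z hz) e1 (norm_nonneg _) hA0
        _ = R := by rw [hR]; ring
    -- the two functions
    set H₁ : ℝ × ℂ → ℂ := fun p => (ψ p.2 : ℂ) * ∏ i, Φ n (p.2 + h n * y₁ i p.1 p.2) with hH₁
    set H₂ : ℝ × ℂ → ℂ := fun p => (ψ p.2 : ℂ) * ∏ i, Φ n (p.2 + h n * y₂ i p.1 p.2) with hH₂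
    have cΦ : ContinuousOn (Φ n) HH := (hL.smooth n).continuousOn
    have ca : ContinuousOn (fun p : ℝ × ℂ => wt (gw ρ) p.2) (univ ×ˢ K) :=
      (haS.continuousOn.mono hψU).comp continuousOn_snd fun p hp => hp.2
    have cψ : ContinuousOn (fun p : ℝ × ℂ => (ψ p.2 : ℂ)) (univ ×ˢ K) :=
      (Complex.continuous_ofReal.comp (hψ.continuous.comp continuous_snd)).continuousOn
    have cu : Continuous fun p : ℝ × ℂ => uu p.1 := continuous_uu.comp continuous_fst
    have cH₁ : ContinuousOn H₁ (univ ×ˢ K) := by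
      refine cψ.mul (continuousOn_finsetProd _ fun i _ => ?_)
      refine cΦ.comp (continuousOn_snd.add (continuousOn_const.mul (ca.mul (n2 i))))
        fun p hp => ?_
      exact (n1 p.2 hp.2 _ (hy1R i p.1 p.2 hp.2)).1
    have cH₂ : ContinuousOn H₂ (univ ×ˢ K) := by
      refine cψ.mul (continuousOn_finsetProd _ fun i _ => ?_)
      refine cΦ.comp (continuousOn_snd.add (continuousOn_const.mul
        (ca.mul ((cu.pow 2).mul continuous_const).continuousOn))) fun p hp => ?_
      exact (n1 p.2 hp.2 _ (hy2R i p.1 p.2 hp.2)).1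
    -- the first integral
    have hset : ∀ f : ℂ → ℝ, ∫ z, ψ z * f z = ∫ z in K, ψ z * f z := by
      intro f
      rw [setIntegral_eq_integral_of_forall_compl_eq_zero]
      intro z hz
      rw [image_eq_zero_of_notMem_tsupport hz, zero_mul]
    have hset' : ∀ f : ℂ → ℂ, ∫ z, (ψ z : ℂ) * f z = ∫ z in K, (ψ z : ℂ) * f z := by
      intro f
      rw [setIntegral_eq_integral_of_forall_compl_eq_zero]
      intro z hz
      rw [image_eq_zero_of_notMem_tsupport hz]; simp
    have hval : ∀ i θ, ∀ z ∈ K, Berry.rWave ρ (φ n) (m n) (x i) (ofComplex z, θ)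
        = φ n (ofComplex (z + h n * y₁ i θ z)) := fun i θ z hz => by
      have hx1 : ‖x i / ((m n * Real.exp (ρ (ofComplex z)) : ℝ) : ℂ)‖ < 1 := by
        have e1 : x i / ((m n * Real.exp (ρ (ofComplex z)) : ℝ) : ℂ)
            = x i * ((h n * em ρ z : ℝ) : ℂ) := by
          have e2 : (h n * em ρ z : ℝ) = (m n * Real.exp (ρ (ofComplex z)))⁻¹ := by
            simp only [hh, QE.em]
            rw [Real.exp_neg, mul_inv, one_div]
          rw [e2, Complex.ofReal_inv, div_eq_mul_inv]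
        rw [e1, norm_mul, Complex.norm_real, Real.norm_eq_abs, abs_mul, abs_of_pos (hpos n)]
        have e3 := hM2 z hz
        have e4 := hxX i
        calc ‖x i‖ * (h n * |em ρ z|) ≤ X * (h n * M') := by gcongr
          _ = h n * (X * M') := by ring
          _ < 1 := by linarith
      have := rWave_eq_disp (hmpos n) (x i) θ (hψU hz) hx1 (n := n) (h := h) rfl
        (a := wt (gw ρ)) (wt_gw (hψU hz)) (φ := φ n)
      rw [this]
      simp only [hy₁]
      rw [mul_assoc]
      rfl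
    have e1 : ((∫ z, ψ z * angProd ρ (φ n) (m n) x (ofComplex z) : ℝ) : ℂ)
        = ∫ θ, (∫ z in K, H₁ (θ, z)) ∂ang := by
      have e0 := integral_integral_swap (f := fun θ z => H₁ (θ, z)) (int_ang hKc cH₁)
      rw [e0, hset]
      refine (integral_ofReal (𝕜 := ℂ) (μ := volume.restrict K) (f := fun z : ℂ => ψ z
        * angProd ρ (φ n) (m n) x (ofComplex z))).symm.trans ?_
      refine setIntegral_congr_fun hKc.measurableSet fun z hz => ?_
      change ((ψ z * angProd ρ (φ n) (m n) x (ofComplex z) : ℝ) : ℂ) = ∫ θ, H₁ (θ, z) ∂ang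
      rw [Complex.ofReal_mul]
      have e2 : ((angProd ρ (φ n) (m n) x (ofComplex z) : ℝ) : ℂ)
          = ∫ θ, ∏ i, Φ n (z + h n * y₁ i θ z) ∂ang := by
        unfold angProd
        refine (integral_ofReal (𝕜 := ℂ) (μ := ang) (f := fun θ : ℝ => ∏ i,
          Berry.rWave ρ (φ n) (m n) (x i) (ofComplex z, θ))).symm.trans ?_
        congr 1
        funext θ
        change ((∏ i, Berry.rWave ρ (φ n) (m n) (x i) (ofComplex z, θ) : ℝ) : ℂ) = _
        rw [Complex.ofReal_prod]
        refine Finset.prod_congr rfl fun i _ => ?_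
        rw [hval i θ z hz]
      rw [e2, ← integral_const_mul]
    have e3 : ∫ θ, (∫ z, (ψ z : ℂ) * PD (gw ρ) h Φ x n θ z) ∂angle
        = ∫ θ, (∫ z in K, H₂ (θ, z)) ∂ang := by
      congr 1
      funext θ
      rw [hset']
      congr 1
      funext z
      simp only [hH₂, PD, hy₂]
      congr 1
      refine Finset.prod_congr rfl fun i _ => ?_
      congr 1
      unfold wt
      push_cast
      ring
    have iθ₁ := int_ang_left hKc cH₁
    have iθ₂ := int_ang_left hKc cH₂
    rw [e1, e3, ← integral_sub iθ₁ iθ₂]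
    have hSint : IntegrableOn (fun z => S n z ^ 2) K :=
      ((hSc n).pow 2).continuousOn.integrableOn_compact hKc
    have hin : ∀ θ, ‖(∫ z in K, H₁ (θ, z)) - ∫ z in K, H₂ (θ, z)‖
        ≤ B' * (6 * C) * (h n * ∫ z in K, S n z ^ 2) := by
      intro θ
      rw [← integral_sub ((sec_cont cH₁ θ).integrableOn_compact hKc)
        ((sec_cont cH₂ θ).integrableOn_compact hKc)]
      have e5 : B' * (6 * C) * (h n * ∫ z in K, S n z ^ 2)
          = ∫ z in K, (B' * (6 * C) * h n) * S n z ^ 2 := by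
        rw [integral_const_mul]; ring
      rw [e5]
      refine norm_integral_le_of_norm_le (hSint.const_mul _) ?_
      refine (ae_restrict_iff' hKc.measurableSet).2 (Eventually.of_forall fun z hz => ?_)
      have hs1 := hS1 n z
      have hs0 : 0 ≤ S n z := by linarith
      set Q := Real.sqrt (S n z) with hQ
      have hQ1 : 1 ≤ Q := Real.one_le_sqrt.2 hs1
      have hQ2 : Q ^ 2 = S n z := Real.sq_sqrt hs0
      have hQ0 : 0 ≤ Q := by linarith
      have hle : ∀ w : ℂ, ‖w‖ ^ 2 ≤ S n z → ‖w‖ ≤ Q := fun w hw => Real.le_sqrt_of_sq_le hw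
      have hd := fun i => diff_le isOpen_HH (hL.smooth n) (h := h n) (R := R) (M := Q) (z := z)
        (fun y hy => ⟨(n1 z hz y hy).1, hle _ (n1 z hz y hy).2.2.1, hle _ (n1 z hz y hy).2.2.2⟩)
        (hy1R i θ z hz) (hy2R i θ z hz)
      have hd' : ∀ i, ‖Φ n (z + h n * y₁ i θ z) - Φ n (z + h n * y₂ i θ z)‖
          ≤ 2 * Q * (C * h n) := fun i => (hd i).trans (by
        have := hy12 i θ z hz
        gcongr)
      obtain ⟨hp, -⟩ := prod_diff Finset.univ (fun i => Φ n (z + h n * y₁ i θ z))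
        (fun i => Φ n (z + h n * y₂ i θ z)) hQ1 (δ := 2 * Q * (C * h n)) (by positivity)
        (fun i => hle _ (n1 z hz _ (hy1R i θ z hz)).2.1)
        (fun i => hle _ (n1 z hz _ (hy2R i θ z hz)).2.1) hd'
      rw [Finset.card_univ, Fintype.card_fin] at hp
      have e6 : H₁ (θ, z) - H₂ (θ, z) = (ψ z : ℂ) * (∏ i, Φ n (z + h n * y₁ i θ z)
          - ∏ i, Φ n (z + h n * y₂ i θ z)) := by
        simp only [hH₁, hH₂]; ring
      rw [e6, norm_mul, Complex.norm_real]
      have hpow : Q ^ r ≤ Q ^ 3 := pow_le_pow_right₀ hQ1 hr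
      have hr3 : (r : ℝ) ≤ 3 := by exact_mod_cast hr
      have hCh : 0 ≤ C * h n := mul_nonneg hC0 hn
      have hp2 : (r : ℝ) * (2 * Q * (C * h n) * Q ^ r) ≤ 6 * C * h n * S n z ^ 2 := by
        calc (r : ℝ) * (2 * Q * (C * h n) * Q ^ r) ≤ 3 * (2 * Q * (C * h n) * Q ^ 3) := by
              gcongr
          _ = 6 * C * h n * (Q ^ 2) ^ 2 := by ring
          _ = 6 * C * h n * S n z ^ 2 := by rw [hQ2]
      calc ‖ψ z‖ * ‖∏ i, Φ n (z + h n * y₁ i θ z) - ∏ i, Φ n (z + h n * y₂ i θ z)‖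
          ≤ B' * (6 * C * h n * S n z ^ 2) :=
            mul_le_mul (hB2 z hz) (hp.trans hp2) (norm_nonneg _) hB0
        _ = B' * (6 * C) * h n * S n z ^ 2 := by ring
    have hfin := norm_integral_le_of_norm_le_const (μ := ang) (Eventually.of_forall hin)
    simpa using hfin
  refine squeeze_zero_norm' hbound ?_
  have := hSl.const_mul (B' * (6 * C))
  simpa using this

end PTS

/-- PTS: the local theorem for the local waves at distinct points -/
theorem stmtPts (hTL : StmtTL) (hDsu : StmtDsu) : StmtPts := by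
  intro Γ ρ φ m hρ hφ hs hq ψ hψ hψs hψU
  obtain ⟨N, hL⟩ := localQE_of_surface hρ hφ hs hq
  have hL' : LocalQE HH (gw ρ) (fun n => 1 / m (n + N))
      (fun n z => (φ (n + N) (ofComplex z) : ℂ)) := hL
  have hgS : ContDiffOn ℝ ∞ (gw ρ) HH := by
    refine ContDiffOn.div (Real.contDiff_exp.comp_contDiffOn (contDiffOn_const.mul hρ))
      (Complex.imCLM.contDiff.contDiffOn.pow 2) fun z hz => ?_
    have : (0 : ℝ) < z.im := hz
    exact (pow_pos this 2).ne'
  have hgpos : ∀ z ∈ HH, 0 < gw ρ z := fun z hz => by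
    have : (0 : ℝ) < z.im := hz
    exact div_pos (Real.exp_pos _) (pow_pos this 2)
  have hT : Test HH (fun z => (ψ z : ℂ)) := by
    refine ⟨Complex.ofRealCLM.contDiff.comp hψ, ?_, ?_⟩
    · exact hψs.comp_left (g := fun t : ℝ => (t : ℂ)) (by simp)
    · refine (closure_mono ?_ : _ ⊆ tsupport ψ).trans hψU
      intro z hz hz0
      apply hz
      simp [hz0]
  obtain ⟨t1, t2, t3⟩ := hTL HH (gw ρ) _ _ isOpen_HH hgS hgpos hL' _ hT
  have key : ∀ {r : ℕ} (_ : r ≤ 3) (x : Fin r → ℂ) (c : ℝ),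
      Tendsto (fun n => ∫ θ, (∫ z, (ψ z : ℂ) * PD (gw ρ) (fun n => 1 / m (n + N))
        (fun n z => (φ (n + N) (ofComplex z) : ℂ)) x n θ z) ∂angle) atTop (𝓝 (c : ℂ)) →
      Tendsto (fun n => ∫ z, ψ z * angProd ρ (φ n) (m n) x (ofComplex z)) atTop (𝓝 c) := by
    intro r hr x c hc
    have h1 := PTS.compare hDsu (φ := fun n => φ (n + N)) (m := fun n => m (n + N)) hρ hL' hψ hψs
      hψU hr x
    have h2 := h1.add hc
    simp only [sub_add_cancel, zero_add] at h2
    have h3 := (Complex.continuous_re.tendsto _).comp h2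
    rw [← tendsto_add_atTop_iff_nat N]
    simpa [Function.comp_def] using h3
  have hint : ∫ z, (ψ z : ℂ) = ((∫ z, ψ z : ℝ) : ℂ) := integral_ofReal
  refine ⟨fun x => key (by norm_num) x 0 (by simpa using t1 x), fun x => ?_,
    fun x => key le_rfl x 0 (by simpa using t3 x)⟩
  refine key (by norm_num) x _ ?_
  have := t2 x
  rw [hint] at this
  push_cast
  exact this

end

end QJ


end
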