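import Mathlib
import Pool.Agent.BWM.C17

/-! Parts: QJ.SUP, QJ.HOL, QJ.NULF, QJ.ALF, U3.HOLB, U3.POTZ, U3.POTB, U3.NULZ, U3.IFOB, U3.KER -/

section

/-!
SUP: a pointwise bound at scale `h`, by the regularized fundamental solution of the Laplacian.
-/

open Complex MeasureTheory Filter Topology Set
open scoped ContDiff

namespace QJ

open QE

noncomputable section

namespace SUP

open EllAux

/-- the regularized fundamental solution -/
def Lg (δ : ℝ) (w : ℂ) : ℂ := ((Real.pi⁻¹ * Real.log (‖w‖ ^ 2 + δ ^ 2) : ℝ) : ℂ)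

lemma den_pos {δ : ℝ} (hδ : 0 < δ) (w : ℂ) : 0 < ‖w‖ ^ 2 + δ ^ 2 := by positivity

lemma contDiff_Lg {δ : ℝ} (hδ : 0 < δ) : ContDiff ℝ ∞ (Lg δ) := by
  have h1 : ContDiff ℝ ∞ (fun w : ℂ => ‖w‖ ^ 2 + δ ^ 2) := (contDiff_norm_sq ℝ).add contDiff_const
  have h2 : ContDiff ℝ ∞ (fun w : ℂ => Real.log (‖w‖ ^ 2 + δ ^ 2)) :=
    h1.log fun w => (den_pos hδ w).ne'
  have h3 : ContDiff ℝ ∞ (fun w : ℂ => Real.pi⁻¹ * Real.log (‖w‖ ^ 2 + δ ^ 2)) :=
    contDiff_const.mul h2
  exact Complex.ofRealCLM.contDiff.comp h3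

lemma fderiv_Lg {δ : ℝ} (hδ : 0 < δ) (w v : ℂ) :
    fderiv ℝ (Lg δ) w v =
      ((Real.pi⁻¹ * ((‖w‖ ^ 2 + δ ^ 2)⁻¹ * (2 * ((starRingEnd ℂ) w * v).re)) : ℝ) : ℂ) := by
  have h1 : HasFDerivAt (fun w : ℂ => ‖w‖ ^ 2 + δ ^ 2) (2 • innerSL ℝ w) w :=
    (hasStrictFDerivAt_norm_sq w).hasFDerivAt.add_const _
  have h2 := h1.log (den_pos hδ w).ne'
  have h3 := h2.const_mul Real.pi⁻¹
  have h4 : HasFDerivAt (Lg δ) _ w := (Complex.ofRealCLM.hasFDerivAt).comp w h3
  rw [h4.fderiv]
  simp only [ContinuousLinearMap.comp_apply, smul_apply, innerSL_apply_apply, Complex.inner,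
    Complex.ofRealCLM_apply, smul_eq_mul, nsmul_eq_mul]
  push_cast
  ring_nf

lemma dz_Lg {δ : ℝ} (hδ : 0 < δ) (w : ℂ) : dz (Lg δ) w = kd δ w := by
  unfold dz kd
  rw [fderiv_Lg hδ, fderiv_Lg hδ, kd_den_eq]
  have hp : (Real.pi : ℂ) ≠ 0 := by exact_mod_cast Real.pi_ne_zero
  have hd : ((‖w‖ ^ 2 + δ ^ 2 : ℝ) : ℂ) ≠ 0 := by exact_mod_cast (den_pos hδ w).ne'
  have h1 : ((starRingEnd ℂ) w * 1).re = w.re := by simp
  have h2 : ((starRingEnd ℂ) w * I).re = w.im := by simp
  have h3 : (starRingEnd ℂ) w = (w.re : ℂ) - I * w.im := by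
    apply Complex.ext <;> simp
  rw [h1, h2, h3]
  push_cast at hd ⊢
  field_simp

lemma dzb_Lg {δ : ℝ} (hδ : 0 < δ) (w : ℂ) : dzb (Lg δ) w = (starRingEnd ℂ) (kd δ w) := by
  have h : (fun w => (starRingEnd ℂ) (Lg δ w)) = Lg δ := by
    funext w
    unfold Lg
    rw [Complex.conj_ofReal]
  have h1 := dzb_conj ((contDiff_Lg hδ).differentiable (by simp) w)
  rw [h, dz_Lg hδ] at h1
  exact h1

lemma norm_ck (w : ℂ) : ‖ck w‖ = (Real.pi * ‖w‖)⁻¹ := by
  unfold ck
  rw [norm_inv, norm_mul, Complex.norm_real, Real.norm_of_nonneg Real.pi_pos.le]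

lemma Lg_sq_le {δ : ℝ} (hδ : 0 < δ) (hδ1 : δ ≤ 1) {w : ℂ} (hw0 : w ≠ 0) (hw : ‖w‖ ≤ 1) :
    ‖Lg δ w‖ ^ 2 ≤ 1 + 16 * (Real.pi * ‖ck w‖) := by
  have hr : 0 < ‖w‖ := norm_pos_iff.mpr hw0
  have hpi : 0 < Real.pi := Real.pi_pos
  have e1 : Real.pi * ‖ck w‖ = ‖w‖⁻¹ := by
    rw [norm_ck, mul_inv]
    field_simp
  rw [e1]
  have hpos : 0 < ‖w‖⁻¹ := inv_pos.mpr hr
  have hp1 : Real.pi⁻¹ ≤ 1 := inv_le_one_of_one_le₀ (by linarith [Real.pi_gt_three])
  have hp0 : 0 < Real.pi⁻¹ := inv_pos.mpr hpi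
  have e2 : ‖Lg δ w‖ = Real.pi⁻¹ * |Real.log (‖w‖ ^ 2 + δ ^ 2)| := by
    unfold Lg
    rw [Complex.norm_real, norm_mul, Real.norm_of_nonneg hp0.le, Real.norm_eq_abs]
  have hle : ‖Lg δ w‖ ≤ |Real.log (‖w‖ ^ 2 + δ ^ 2)| := by
    rw [e2]
    have := abs_nonneg (Real.log (‖w‖ ^ 2 + δ ^ 2))
    nlinarith only [hp1, this]
  have hd := den_pos hδ w
  by_cases h1 : 1 ≤ ‖w‖ ^ 2 + δ ^ 2
  · have h2 : |Real.log (‖w‖ ^ 2 + δ ^ 2)| ≤ 1 := by
      rw [abs_of_nonneg (Real.log_nonneg h1)]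
      have h3 := Real.log_le_sub_one_of_pos hd
      nlinarith only [hδ1, hw, h3, hδ, hr]
    have h3 : ‖Lg δ w‖ ^ 2 ≤ 1 := by
      have := norm_nonneg (Lg δ w)
      nlinarith only [hle, h2, this]
    linarith
  · push Not at h1
    set s := Real.sqrt ‖w‖ with hs
    have hs0 : 0 < s := Real.sqrt_pos.mpr hr
    have hss : s * s = ‖w‖ := Real.mul_self_sqrt hr.le
    have h2 : |Real.log (‖w‖ ^ 2 + δ ^ 2)| ≤ 4 * s⁻¹ := by
      rw [abs_of_nonpos (Real.log_nonpos hd.le h1.le)]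
      have h3 : Real.log (‖w‖ ^ 2) ≤ Real.log (‖w‖ ^ 2 + δ ^ 2) :=
        Real.log_le_log (by positivity) (by nlinarith)
      have h4 : Real.log (‖w‖ ^ 2) = 4 * Real.log s := by
        rw [← hss]
        have : (s * s) ^ 2 = s ^ 4 := by ring
        rw [this, Real.log_pow]
        norm_num
      have h5 := Real.log_le_sub_one_of_pos (inv_pos.mpr hs0)
      rw [Real.log_inv] at h5
      linarith
    have h6 : ‖Lg δ w‖ ≤ 4 * s⁻¹ := hle.trans h2
    have h7 : ‖Lg δ w‖ ^ 2 ≤ (4 * s⁻¹) ^ 2 := pow_le_pow_left₀ (norm_nonneg _) h6 2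
    have h8 : (4 * s⁻¹) ^ 2 = 16 * ‖w‖⁻¹ := by
      rw [← hss]
      field_simp
      norm_num
    linarith

/-- the kernel coming from the cut-off -/
def Kn (δ : ℝ) (u : ℂ) : ℂ := dzb (fun w => dz ze w * Lg δ w) u

lemma Kn_eq {δ : ℝ} (hδ : 0 < δ) (u : ℂ) :
    Kn δ u = dzb (dz ze) u * Lg δ u + dz ze u * dzb (Lg δ) u :=
  dzb_mul ((contDiff_dz ze_smooth).differentiable (by simp) u)
    ((contDiff_Lg hδ).differentiable (by simp) u)

lemma ze_test' : Test Set.univ ze := ze_test (Set.subset_univ _)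

lemma dz_ze_near {u : ℂ} (hu : ‖u‖ < 1 / 2) : dz ze =ᶠ[𝓝 u] fun _ => 0 := by
  have h1 : ∀ w ∈ Metric.ball (0 : ℂ) (1 / 2), ze w = (fun _ => (1 : ℂ)) w := by
    intro w hw
    unfold ze
    rw [bump.one_of_mem_closedBall (Metric.ball_subset_closedBall hw)]
    simp
  have h2 : u ∈ Metric.ball (0 : ℂ) (1 / 2) := by rwa [mem_ball_zero_iff]
  filter_upwards [Metric.isOpen_ball.mem_nhds h2] with w hw
  rw [dz_congr_on Metric.isOpen_ball h1 hw, dz_const]

lemma norm_ze_le (u : ℂ) : ‖ze u‖ ≤ 1 := by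
  unfold ze
  rw [Complex.norm_real, Real.norm_of_nonneg bump.nonneg]
  exact bump.le_one

lemma ze_out {u : ℂ} (hu : 1 < ‖u‖) : u ∉ tsupport ze := by
  intro h
  have := ze_tsupport h
  rw [mem_closedBall_zero_iff] at this
  linarith

lemma Kn_out {δ : ℝ} (hδ : 0 < δ) {u : ℂ} (hu : 1 < ‖u‖) : Kn δ u = 0 := by
  rw [Kn_eq hδ]
  have h1 : dz ze u = 0 :=
    image_eq_zero_of_notMem_tsupport fun h => ze_out hu (tsupport_dz_subset _ h)
  have h2 : dzb (dz ze) u = 0 :=
    image_eq_zero_of_notMem_tsupport fun h =>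
      ze_out hu (tsupport_dz_subset _ (tsupport_dzb_subset _ h))
  rw [h1, h2]
  simp

lemma Kn_bound : ∃ A : ℝ, 0 ≤ A ∧ ∀ δ : ℝ, 0 < δ → δ ≤ 1 → ∀ u, ‖Kn δ u‖ ≤ A := by
  obtain ⟨C1, hC1⟩ := (contDiff_dz ze_smooth).continuous.bounded_above_of_compact_support
    ze_compact.dz
  obtain ⟨C2, hC2⟩ := (contDiff_dzb (contDiff_dz ze_smooth)).continuous.bounded_above_of_compact_support
    ze_compact.dz.dzb
  have hC1' : 0 ≤ C1 := (norm_nonneg _).trans (hC1 0)
  have hC2' : 0 ≤ C2 := (norm_nonneg _).trans (hC2 0)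
  refine ⟨C2 * 6 + C1 * 1, by positivity, ?_⟩
  intro δ hδ hδ1 u
  rcases lt_or_ge ‖u‖ (1 / 2) with h | h
  · have h1 := dz_ze_near h
    have h2 : dz ze u = 0 := h1.self_of_nhds
    have h3 : dzb (dz ze) u = 0 := by
      rw [dzb_congr h1, dzb_const]
    rw [Kn_eq hδ, h2, h3]
    simp only [zero_mul, add_zero, norm_zero]
    positivity
  rcases lt_or_ge 1 ‖u‖ with h' | h'
  · rw [Kn_out hδ h', norm_zero]
    positivity
  have hu0 : u ≠ 0 := by
    intro h0
    rw [h0, norm_zero] at h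
    linarith
  have hr : 0 < ‖u‖ := norm_pos_iff.mpr hu0
  have hinv : ‖u‖⁻¹ ≤ 2 := by
    have := inv_anti₀ (by norm_num : (0 : ℝ) < 1 / 2) h
    norm_num at this ⊢
    exact this
  have h4 : ‖Lg δ u‖ ≤ 6 := by
    have h5 := Lg_sq_le hδ hδ1 hu0 h'
    have e1 : Real.pi * ‖ck u‖ = ‖u‖⁻¹ := by
      rw [norm_ck, mul_inv]
      have := Real.pi_pos
      field_simp
    rw [e1] at h5
    nlinarith [norm_nonneg (Lg δ u)]
  have h6 : ‖dzb (Lg δ) u‖ ≤ 1 := by
    rw [dzb_Lg hδ, RCLike.norm_conj, norm_kd, div_le_one (by positivity)]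
    nlinarith only [h, Real.pi_gt_three]
  rw [Kn_eq hδ]
  refine (norm_add_le _ _).trans ?_
  rw [norm_mul, norm_mul]
  have := hC1 u
  have := hC2 u
  gcongr

lemma dz_supp_test {V : ℂ → ℂ} (hV : ContDiff ℝ ∞ V) : Test Set.univ (fun u => ze u * dzb V u) :=
  ze_test'.mul isOpen_univ (contDiff_dzb hV).contDiffOn

lemma ident {V : ℂ → ℂ} (hV : ContDiff ℝ ∞ V) {δ : ℝ} (hδ : 0 < δ) :
    V 0 = ((∫ u, ka u * V u) - (∫ u, Kn δ u * V u)
      + ∫ u, (ze u * Lg δ u) * dz (dzb V) u) - ∫ u, (ck u - kd δ u) * (ze u * dzb V u) := by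
  have hdV := contDiff_dzb hV
  have hf : Test Set.univ (fun w => ze w * V w) := ze_test'.mul isOpen_univ hV.contDiffOn
  have h0 := cauchy_dzb hf.smooth hf.supp 0
  rw [ze_zero, one_mul] at h0
  have hφ := dz_supp_test hV
  have hprod : ∀ u, dzb (fun w => ze w * V w) u = dzb ze u * V u + ze u * dzb V u := fun u =>
    dzb_mul (ze_smooth.differentiable (by simp) u) (hV.differentiable (by simp) u)
  have hI1 : Integrable (fun u => ka u * V u) :=
    (ka_test (Set.subset_univ _)).integrable_mul isOpen_univ hV.continuous.continuousOn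
  have hI2 : Integrable (fun u => ck (-u) * (ze u * dzb V u)) := by
    have h1 := convExists hφ.smooth.continuous hφ.supp 0
    have h2 := h1.comp_neg
    refine h2.congr (Filter.Eventually.of_forall fun u => ?_)
    simp only [sub_neg_eq_add, zero_add]
  have h1 : V 0 = (∫ u, ka u * V u) + ∫ u, ck (-u) * (ze u * dzb V u) := by
    rw [← h0, ← integral_add hI1 hI2]
    unfold cauchy
    rw [← integral_neg_eq_self]
    refine integral_congr_ae (Filter.Eventually.of_forall fun u => ?_)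
    simp only [zero_sub, neg_neg]
    rw [hprod]
    unfold ka
    ring
  have hck : ∀ u, ck (-u) = - ck u := by
    intro u
    unfold ck
    rw [mul_neg, inv_neg]
  have hI3 : Integrable (fun u => ck u * (ze u * dzb V u)) := by
    refine hI2.neg.congr (Filter.Eventually.of_forall fun u => ?_)
    simp only [Pi.neg_apply]
    rw [hck]
    ring
  have hI4 : Integrable (fun u => kd δ u * (ze u * dzb V u)) := by
    have h : Integrable (fun u => ze u * dzb V u) :=
      hφ.smooth.continuous.integrable_of_hasCompactSupport hφ.supp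
    exact h.bdd_mul (continuous_kd hδ).aestronglyMeasurable
      (Filter.Eventually.of_forall fun w => norm_kd_le hδ w)
  have h2 : ∫ u, ck (-u) * (ze u * dzb V u) = - (∫ u, kd δ u * (ze u * dzb V u))
      - ∫ u, (ck u - kd δ u) * (ze u * dzb V u) := by
    have e1 : ∫ u, (ck u - kd δ u) * (ze u * dzb V u)
        = (∫ u, ck u * (ze u * dzb V u)) - ∫ u, kd δ u * (ze u * dzb V u) := by
      rw [← integral_sub hI3 hI4]
      refine integral_congr_ae (Filter.Eventually.of_forall fun u => ?_)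
      simp only []
      ring
    have e2 : ∫ u, ck (-u) * (ze u * dzb V u) = - ∫ u, ck u * (ze u * dzb V u) := by
      rw [← integral_neg]
      refine integral_congr_ae (Filter.Eventually.of_forall fun u => ?_)
      simp only []
      rw [hck]
      ring
    rw [e1, e2]
    ring
  -- integration by parts
  have h3 : ∫ u, (ze u * dzb V u) * dz (Lg δ) u = - ∫ u, dz (fun u => ze u * dzb V u) u * Lg δ u :=
    integral_mul_dz isOpen_univ hφ (contDiff_Lg hδ).contDiffOn
  have h4 : ∫ u, kd δ u * (ze u * dzb V u) = ∫ u, (ze u * dzb V u) * dz (Lg δ) u := by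
    refine integral_congr_ae (Filter.Eventually.of_forall fun u => ?_)
    simp only []
    rw [dz_Lg hδ]
    ring
  have hLt : Test Set.univ (fun w => dz ze w * Lg δ w) :=
    ze_test'.dz.mul isOpen_univ (contDiff_Lg hδ).contDiffOn
  have hLt2 : Test Set.univ (fun w => ze w * Lg δ w) :=
    ze_test'.mul isOpen_univ (contDiff_Lg hδ).contDiffOn
  have h5 : ∫ u, (dz ze u * Lg δ u) * dzb V u = - ∫ u, Kn δ u * V u :=
    integral_mul_dzb isOpen_univ hLt hV.contDiffOn
  have hI5 : Integrable (fun u => (dz ze u * Lg δ u) * dzb V u) :=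
    hLt.integrable_mul isOpen_univ hdV.continuous.continuousOn
  have hI6 : Integrable (fun u => (ze u * Lg δ u) * dz (dzb V) u) :=
    hLt2.integrable_mul isOpen_univ (contDiff_dz hdV).continuous.continuousOn
  have h6 : ∫ u, dz (fun u => ze u * dzb V u) u * Lg δ u
      = (∫ u, (dz ze u * Lg δ u) * dzb V u) + ∫ u, (ze u * Lg δ u) * dz (dzb V) u := by
    rw [← integral_add hI5 hI6]
    refine integral_congr_ae (Filter.Eventually.of_forall fun u => ?_)
    simp only []
    rw [dz_mul (ze_smooth.differentiable (by simp) u) (hdV.differentiable (by simp) u)]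
    ring
  rw [h1, h2, h4, h3, h6, h5]
  ring

/-- the weight -/
def Mw (A : ℝ) (u : ℂ) : ℝ := A ^ 2 + (1 + 16 * (Real.pi * ‖ck u‖))

lemma Mw_nonneg (A : ℝ) (u : ℂ) : 0 ≤ Mw A u := by
  unfold Mw
  have := Real.pi_pos
  positivity

lemma Mw_int (A : ℝ) : IntegrableOn (Mw A) (Metric.closedBall 0 1) := by
  have h1 : IntegrableOn (fun u => ‖ck u‖) (Metric.closedBall (0 : ℂ) 1) :=
    (locInt_ck.integrableOn_isCompact (isCompact_closedBall 0 1)).norm
  have h2 : IntegrableOn (fun _ : ℂ => (1 : ℝ)) (Metric.closedBall (0 : ℂ) 1) volume :=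
    continuousOn_const.integrableOn_compact (isCompact_closedBall 0 1)
  have h3 : IntegrableOn (fun _ : ℂ => A ^ 2) (Metric.closedBall (0 : ℂ) 1) volume :=
    continuousOn_const.integrableOn_compact (isCompact_closedBall 0 1)
  exact h3.add (h2.add ((h1.const_mul Real.pi).const_mul 16))

lemma quad {a c S : ℝ} (ha : 0 ≤ a) (hc : 0 ≤ c) (hS : 0 ≤ S)
    (h : ∀ t : ℝ, 0 < t → a ≤ t / 2 * c + 1 / (2 * t) * S) : a ^ 2 ≤ c * S := by
  rcases hS.eq_or_lt with h0 | hS'
  · have h1 : a ≤ 0 := by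
      by_contra hne
      push Not at hne
      have h2 := h (a / (c + 1)) (by positivity)
      rw [← h0, mul_zero, add_zero] at h2
      have h3 : a / (c + 1) / 2 * c = a * (c / (c + 1)) / 2 := by
        field_simp
      rw [h3] at h2
      have h4 : c / (c + 1) ≤ 1 := by
        rw [div_le_one (by positivity)]
        linarith
      nlinarith
    have h2 : a = 0 := le_antisymm h1 ha
    rw [h2, ← h0]
    simp
  · rcases hc.eq_or_lt with h0 | hc'
    · have h1 : a ≤ 0 := by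
        by_contra hne
        push Not at hne
        have h2 := h (S / a) (by positivity)
        rw [← h0, mul_zero, zero_add] at h2
        have h3 : 1 / (2 * (S / a)) * S = a / 2 := by
          field_simp
        rw [h3] at h2
        linarith
      have h2 : a = 0 := le_antisymm h1 ha
      rw [h2, ← h0]
      simp
    · have h1 := h (Real.sqrt (S / c)) (Real.sqrt_pos.mpr (by positivity))
      set t := Real.sqrt (S / c) with ht
      have ht0 : 0 < t := Real.sqrt_pos.mpr (by positivity)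
      have htt : t * t = S / c := Real.mul_self_sqrt (by positivity)
      have hS2 : S = t * t * c := by
        rw [htt]
        field_simp
      have h2 : 1 / (2 * t) * S = t * c / 2 := by
        rw [hS2]
        field_simp
      rw [h2] at h1
      have h3 : a ≤ t * c := by linarith only [h1]
      calc a ^ 2 ≤ (t * c) ^ 2 := pow_le_pow_left₀ ha h3 2
        _ = c * (t * t * c) := by ring
        _ = c * S := by rw [← hS2]

lemma unit_sup : ∃ C : ℝ, 0 < C ∧ ∀ V : ℂ → ℂ, ContDiff ℝ ∞ V →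
    ‖V 0‖ ^ 2 ≤ C * ∫ u in Metric.closedBall (0 : ℂ) 1, (‖V u‖ ^ 2 + ‖dz (dzb V) u‖ ^ 2) := by
  obtain ⟨A1, hA1, hK⟩ := Kn_bound
  obtain ⟨A2, hA2⟩ := ka_smooth.continuous.bounded_above_of_compact_support
    (ka_test (Set.subset_univ _)).supp
  have hA2' : 0 ≤ A2 := (norm_nonneg _).trans (hA2 0)
  set A := A1 + A2 with hA
  have hA0 : 0 ≤ A := by positivity
  set c := ∫ u in Metric.closedBall (0 : ℂ) 1, Mw A u with hc
  have hc0 : 0 ≤ c := integral_nonneg fun u => Mw_nonneg A u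
  refine ⟨c + 1, by positivity, ?_⟩
  intro V hV
  have hddV : Continuous (dz (dzb V)) := (contDiff_dz (contDiff_dzb hV)).continuous
  have hVc := hV.continuous
  set S := ∫ u in Metric.closedBall (0 : ℂ) 1, (‖V u‖ ^ 2 + ‖dz (dzb V) u‖ ^ 2) with hS
  have hSi : IntegrableOn (fun u => ‖V u‖ ^ 2 + ‖dz (dzb V) u‖ ^ 2)
      (Metric.closedBall (0 : ℂ) 1) :=
    (by fun_prop : Continuous fun u => ‖V u‖ ^ 2 + ‖dz (dzb V) u‖ ^ 2).continuousOn.integrableOn_compact
      (isCompact_closedBall 0 1)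
  have hS0 : 0 ≤ S := integral_nonneg fun u => by positivity
  have hφ := dz_supp_test hV
  obtain ⟨B, hB⟩ := hφ.smooth.continuous.bounded_above_of_compact_support hφ.supp
  have hB0 : 0 ≤ B := (norm_nonneg _).trans (hB 0)
  have key : ∀ t : ℝ, 0 < t → ‖V 0‖ ≤ t / 2 * c + 1 / (2 * t) * S := by
    intro t ht
    have main : ∀ δ : ℝ, 0 < δ → δ ≤ 1 →
        ‖V 0‖ ≤ t / 2 * c + 1 / (2 * t) * S + (Real.pi * B) * δ := by
      intro δ hδ hδ1
      have hI1 : Integrable (fun u => ka u * V u) :=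
        (ka_test (Set.subset_univ _)).integrable_mul isOpen_univ hV.continuous.continuousOn
      have hLt : Test Set.univ (fun w => dz ze w * Lg δ w) :=
        ze_test'.dz.mul isOpen_univ (contDiff_Lg hδ).contDiffOn
      have hLt2 : Test Set.univ (fun w => ze w * Lg δ w) :=
        ze_test'.mul isOpen_univ (contDiff_Lg hδ).contDiffOn
      have hI2 : Integrable (fun u => Kn δ u * V u) :=
        hLt.dzb.integrable_mul isOpen_univ hV.continuous.continuousOn
      have hI3 : Integrable (fun u => (ze u * Lg δ u) * dz (dzb V) u) :=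
        hLt2.integrable_mul isOpen_univ hddV.continuousOn
      have hid := ident hV hδ
      have e1 : (∫ u, ka u * V u) - (∫ u, Kn δ u * V u) + ∫ u, (ze u * Lg δ u) * dz (dzb V) u
          = ∫ u, (ka u * V u - Kn δ u * V u + (ze u * Lg δ u) * dz (dzb V) u) := by
        rw [integral_add (f := fun u => ka u * V u - Kn δ u * V u) (hI1.sub hI2) hI3,
          integral_sub hI1 hI2]
      rw [e1] at hid
      have herr : ‖∫ u, (ck u - kd δ u) * (ze u * dzb V u)‖ ≤ (Real.pi * B) * δ := by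
        calc ‖∫ u, (ck u - kd δ u) * (ze u * dzb V u)‖
            ≤ ∫ u, ‖(ck u - kd δ u) * (ze u * dzb V u)‖ := norm_integral_le_integral_norm _
          _ ≤ ∫ u, ‖ck u - kd δ u‖ * B := by
              refine integral_mono_of_nonneg (Filter.Eventually.of_forall fun u => norm_nonneg _)
                ((integrable_ck_sub_kd hδ).mul_const B) (Filter.Eventually.of_forall fun u => ?_)
              simp only []
              rw [norm_mul]
              exact mul_le_mul_of_nonneg_left (hB u) (norm_nonneg _)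
          _ = (∫ u, ‖ck u - kd δ u‖) * B := integral_mul_const _ _
          _ ≤ (Real.pi * δ) * B := mul_le_mul_of_nonneg_right (integral_ck_sub_kd hδ) hB0
          _ = (Real.pi * B) * δ := by ring
      have hmain : ‖∫ u, (ka u * V u - Kn δ u * V u + (ze u * Lg δ u) * dz (dzb V) u)‖
          ≤ t / 2 * c + 1 / (2 * t) * S := by
        have hG : IntegrableOn (fun u => t / 2 * Mw A u
            + 1 / (2 * t) * (‖V u‖ ^ 2 + ‖dz (dzb V) u‖ ^ 2)) (Metric.closedBall (0 : ℂ) 1) :=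
          ((Mw_int A).const_mul _).add (hSi.const_mul _)
        have hGe : ∫ u in Metric.closedBall (0 : ℂ) 1, (t / 2 * Mw A u
            + 1 / (2 * t) * (‖V u‖ ^ 2 + ‖dz (dzb V) u‖ ^ 2)) = t / 2 * c + 1 / (2 * t) * S := by
          rw [integral_add ((Mw_int A).const_mul _) (hSi.const_mul _), integral_const_mul,
            integral_const_mul]
        rw [← hGe, ← integral_indicator measurableSet_closedBall]
        refine (norm_integral_le_integral_norm _).trans ?_
        refine integral_mono_of_nonneg (Filter.Eventually.of_forall fun u => norm_nonneg _)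
          ((integrable_indicator_iff measurableSet_closedBall).mpr hG) ?_
        have hne : ∀ᵐ u : ℂ, u ≠ 0 := by
          rw [ae_iff]
          simp
        filter_upwards [hne] with u hu0
        by_cases hu : u ∈ Metric.closedBall (0 : ℂ) 1
        · rw [Set.indicator_of_mem hu]
          rw [mem_closedBall_zero_iff] at hu
          have k1 := hA2 u
          have k2 := hK δ hδ hδ1 u
          have k3 := Lg_sq_le hδ hδ1 hu0 hu
          have k4 := norm_ze_le u
          have n1 := norm_nonneg (V u)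
          have n2 := norm_nonneg (dz (dzb V) u)
          have n3 := norm_nonneg (Lg δ u)
          have n4 := norm_nonneg (ze u)
          have step : ‖ka u * V u - Kn δ u * V u + (ze u * Lg δ u) * dz (dzb V) u‖
              ≤ A * ‖V u‖ + ‖Lg δ u‖ * ‖dz (dzb V) u‖ := by
            calc ‖ka u * V u - Kn δ u * V u + (ze u * Lg δ u) * dz (dzb V) u‖
                ≤ ‖ka u * V u - Kn δ u * V u‖ + ‖(ze u * Lg δ u) * dz (dzb V) u‖ := norm_add_le _ _
              _ ≤ (‖ka u * V u‖ + ‖Kn δ u * V u‖) + ‖(ze u * Lg δ u) * dz (dzb V) u‖ := by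
                  gcongr
                  exact norm_sub_le _ _
              _ = (‖ka u‖ * ‖V u‖ + ‖Kn δ u‖ * ‖V u‖)
                  + ‖ze u‖ * ‖Lg δ u‖ * ‖dz (dzb V) u‖ := by
                  rw [norm_mul, norm_mul, norm_mul, norm_mul]
              _ ≤ (A2 * ‖V u‖ + A1 * ‖V u‖) + 1 * ‖Lg δ u‖ * ‖dz (dzb V) u‖ := by
                  gcongr
              _ = A * ‖V u‖ + ‖Lg δ u‖ * ‖dz (dzb V) u‖ := by
                  rw [hA]
                  ring
          refine step.trans ?_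
          have am : ∀ x y : ℝ, x * y ≤ t / 2 * x ^ 2 + 1 / (2 * t) * y ^ 2 := by
            intro x y
            have : t / 2 * x ^ 2 + 1 / (2 * t) * y ^ 2 - x * y = 1 / (2 * t) * (t * x - y) ^ 2 := by
              field_simp
              ring
            have h2 : 0 ≤ 1 / (2 * t) * (t * x - y) ^ 2 := by (clear * - ht; positivity)
            linarith only [this, h2]
          have a1 := am A ‖V u‖
          have a2 := am ‖Lg δ u‖ ‖dz (dzb V) u‖
          have a3 : t / 2 * ‖Lg δ u‖ ^ 2 ≤ t / 2 * (1 + 16 * (Real.pi * ‖ck u‖)) :=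
            mul_le_mul_of_nonneg_left k3 (by positivity)
          unfold Mw
          linarith
        · rw [Set.indicator_of_notMem hu]
          rw [mem_closedBall_zero_iff, not_le] at hu
          have z1 : ze u = 0 := image_eq_zero_of_notMem_tsupport (ze_out hu)
          have z2 : dzb ze u = 0 := image_eq_zero_of_notMem_tsupport fun h =>
            ze_out hu (tsupport_dzb_subset _ h)
          rw [Kn_out hδ hu, z1]
          unfold ka
          rw [z2]
          simp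
      calc ‖V 0‖ ≤ ‖∫ u, (ka u * V u - Kn δ u * V u + (ze u * Lg δ u) * dz (dzb V) u)‖
            + ‖∫ u, (ck u - kd δ u) * (ze u * dzb V u)‖ := by
            conv_lhs => rw [hid]
            exact norm_sub_le _ _
        _ ≤ _ := add_le_add hmain herr
    refine le_of_forall_pos_le_add fun ε hε => ?_
    have hδ : 0 < min 1 (ε / (Real.pi * B + 1)) := by
      have := Real.pi_pos
      positivity
    refine (main _ hδ (min_le_left _ _)).trans ?_
    have h1 : min 1 (ε / (Real.pi * B + 1)) ≤ ε / (Real.pi * B + 1) := min_le_right _ _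
    have hpb : 0 ≤ Real.pi * B := mul_nonneg Real.pi_pos.le hB0
    have h2 : (Real.pi * B) * min 1 (ε / (Real.pi * B + 1)) ≤ ε := by
      calc (Real.pi * B) * min 1 (ε / (Real.pi * B + 1))
          ≤ (Real.pi * B + 1) * (ε / (Real.pi * B + 1)) := by
            apply mul_le_mul (by linarith) h1 hδ.le (by linarith)
        _ = ε := by
            field_simp
    linarith
  have h1 := quad (norm_nonneg (V 0)) hc0 hS0 key
  linarith only [hS0, h1]

end SUP

open _root_.QJ.SUP EllAux in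
/-- SUP: a pointwise bound at scale `h` -/
theorem stmtSup : StmtSup := by
  obtain ⟨C, hC, hb⟩ := unit_sup
  refine ⟨C, hC, ?_⟩
  intro v z h hv hh
  have hV : ContDiff ℝ ∞ (fun w => v (z + (h : ℂ) * w)) :=
    hv.comp (contDiff_const.add (contDiff_const.mul contDiff_id))
  have h1 := hb _ hV
  simp only [mul_zero, add_zero] at h1
  have hdd : ∀ u, dz (dzb fun w => v (z + (h : ℂ) * w)) u
      = (h : ℂ) ^ 2 * dz (dzb v) (z + (h : ℂ) * u) := by
    intro u
    have e1 : (dzb fun w => v (z + (h : ℂ) * w)) = fun w => (h : ℂ) * dzb v (z + (h : ℂ) * w) := by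
      funext w
      exact (dz_scale isOpen_univ hv.contDiffOn z h (Set.mem_univ _)).2
    have hdv := contDiff_dzb hv
    have e2 : DifferentiableAt ℝ (fun w => dzb v (z + (h : ℂ) * w)) u := by
      have : ContDiff ℝ ∞ (fun w => dzb v (z + (h : ℂ) * w)) :=
        hdv.comp (contDiff_const.add (contDiff_const.mul contDiff_id))
      exact this.differentiable (by simp) u
    rw [e1, dz_const_mul _ e2, (dz_scale isOpen_univ hdv.contDiffOn z h (Set.mem_univ _)).1]
    ring
  set G : ℂ → ℝ := fun w => ‖v w‖ ^ 2 + ‖(h : ℂ) ^ 2 * dz (dzb v) w‖ ^ 2 with hG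
  have hGc : Continuous G := by
    have h1 : Continuous v := hv.continuous
    have h2 : Continuous (dz (dzb v)) := (contDiff_dz (contDiff_dzb hv)).continuous
    fun_prop
  have hG0 : ∀ w, 0 ≤ G w := fun w => by positivity
  have h2 : ∫ u in Metric.closedBall (0 : ℂ) 1, (‖v (z + (h : ℂ) * u)‖ ^ 2
      + ‖dz (dzb fun w => v (z + (h : ℂ) * w)) u‖ ^ 2)
      = 1 / h ^ 2 * ∫ w in Metric.closedBall z h, G w := by
    rw [← integral_indicator measurableSet_closedBall, ← integral_indicator measurableSet_closedBall]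
    have e3 : ∀ u : ℂ, (Metric.closedBall (0 : ℂ) 1).indicator (fun u => ‖v (z + (h : ℂ) * u)‖ ^ 2
        + ‖dz (dzb fun w => v (z + (h : ℂ) * w)) u‖ ^ 2) u
        = (fun w => (Metric.closedBall z h).indicator G (z + w)) (h • u) := by
      intro u
      simp only [Complex.real_smul]
      by_cases hu : u ∈ Metric.closedBall (0 : ℂ) 1
      · rw [Set.indicator_of_mem hu]
        have hm : z + (h : ℂ) * u ∈ Metric.closedBall z h := by
          rw [Metric.mem_closedBall, dist_eq_norm, add_sub_cancel_left, norm_mul,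
            Complex.norm_real, Real.norm_of_nonneg hh.le]
          rw [mem_closedBall_zero_iff] at hu
          nlinarith
        rw [Set.indicator_of_mem hm, hdd]
      · rw [Set.indicator_of_notMem hu]
        have hm : z + (h : ℂ) * u ∉ Metric.closedBall z h := by
          rw [Metric.mem_closedBall, dist_eq_norm, add_sub_cancel_left, norm_mul,
            Complex.norm_real, Real.norm_of_nonneg hh.le]
          rw [mem_closedBall_zero_iff] at hu
          push Not at hu ⊢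
          nlinarith only [hh, hu]
        rw [Set.indicator_of_notMem hm]
    simp only [e3]
    rw [Measure.integral_comp_smul (volume : Measure ℂ)
      (fun w => (Metric.closedBall z h).indicator G (z + w)) h]
    rw [integral_add_left_eq_self (μ := (volume : Measure ℂ)) (Metric.closedBall z h |>.indicator G) z]
    rw [Complex.finrank_real_complex, abs_of_nonneg (by positivity), smul_eq_mul, one_div]
  rw [h2] at h1
  refine h1.trans ?_
  have h3 : ∫ w in Metric.closedBall z h, G w ≤ ∫ w in Metric.closedBall z (3 * h), G w := by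
    refine setIntegral_mono_set ?_ (Filter.Eventually.of_forall fun w => hG0 w) ?_
    · exact hGc.continuousOn.integrableOn_compact (isCompact_closedBall _ _)
    · exact (Metric.closedBall_subset_closedBall (by linarith)).eventuallyLE
  have h4 : C * (1 / h ^ 2 * ∫ w in Metric.closedBall z h, G w)
      = C / h ^ 2 * ∫ w in Metric.closedBall z h, G w := by ring
  rw [h4]
  exact mul_le_mul_of_nonneg_left h3 (by positivity)

end

end QJ


end

section

/-!
Cubic and quartic statistics: `∂̄ α → 0` in `L²` and `α → 0` weakly imply `α → 0` in `L²`.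
-/

open Complex MeasureTheory Filter Topology Set
open scoped ContDiff

namespace QJ

open QE

noncomputable section

namespace HOL

theorem hasFDerivAt_ck_sub {z w : ℂ} (h : w ≠ z) :
    HasDerivAt (fun w => ck (z - w)) (((Real.pi : ℂ) * (z - w) ^ 2)⁻¹) w := by
  have hne : z - w ≠ 0 := sub_ne_zero.mpr (Ne.symm h)
  have hp : (Real.pi : ℂ) ≠ 0 := by exact_mod_cast Real.pi_ne_zero
  have h1 : HasDerivAt (fun w : ℂ => (Real.pi : ℂ) * (z - w)) ((Real.pi : ℂ) * (-1)) w :=
    ((hasDerivAt_id w).const_sub z).const_mul _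
  have h2 := h1.inv (mul_ne_zero hp hne)
  refine (h2.congr_deriv ?_)
  field_simp

theorem contDiffOn_ck_sub (z : ℂ) : ContDiffOn ℝ ∞ (fun w => ck (z - w)) {z}ᶜ := by
  unfold ck
  refine ContDiffOn.inv (by fun_prop) ?_
  intro w hw
  have hne : z - w ≠ 0 := sub_ne_zero.mpr (fun h => hw (by rw [h]; rfl))
  exact mul_ne_zero (by exact_mod_cast Real.pi_ne_zero) hne

theorem dz_ck_sub {z w : ℂ} (h : w ≠ z) :
    dz (fun w => ck (z - w)) w = ((Real.pi : ℂ) * (z - w) ^ 2)⁻¹ := by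
  have h1 := (hasFDerivAt_ck_sub h).complexToReal_fderiv
  unfold dz
  rw [h1.fderiv]
  simp only [smul_apply, smul_eq_mul, one_apply_eq_self, mul_one]
  linear_combination (-(1 / 2) * ((Real.pi : ℂ) * (z - w) ^ 2)⁻¹) * I_mul_I

theorem norm_ck_sub_le {r : ℝ} (hr : 0 < r) {z w : ℂ} (h : r ≤ ‖z - w‖) :
    ‖ck (z - w)‖ ≤ r⁻¹ := by
  unfold ck
  rw [norm_inv, norm_mul, Complex.norm_real, Real.norm_of_nonneg Real.pi_pos.le]
  refine inv_anti₀ hr ?_
  have := Real.pi_gt_three
  nlinarith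

theorem norm_dz_ck_sub_le {r : ℝ} (hr : 0 < r) {z w : ℂ} (h : r ≤ ‖z - w‖) :
    ‖dz (fun w => ck (z - w)) w‖ ≤ (r ^ 2)⁻¹ := by
  have hne : w ≠ z := by
    rintro rfl
    rw [sub_self, norm_zero] at h
    linarith
  rw [dz_ck_sub hne, norm_inv, norm_mul, norm_pow, Complex.norm_real,
    Real.norm_of_nonneg Real.pi_pos.le]
  refine inv_anti₀ (by positivity) ?_
  have := Real.pi_gt_three
  have h2 : r ^ 2 ≤ ‖z - w‖ ^ 2 := by gcongr
  nlinarith

/-- the Cauchy transform of `η α`, for `z` off the support of `η`, is an integral against a test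
function -/
theorem cauchy_eq (η f : ℂ → ℂ) (z : ℂ) :
    cauchy (fun w => η w * f w) z = ∫ w, η w * ck (z - w) * f w := by
  unfold cauchy
  rw [← integral_sub_left_eq_self (fun w => η w * ck (z - w) * f w) volume z]
  refine integral_congr_ae (Filter.Eventually.of_forall fun w => ?_)
  simp only [sub_sub_cancel]
  ring

/-- the test function `ck (z - ·) η` -/
theorem test_ck {V : Set ℂ} (hV : IsOpen V) {η : ℂ → ℂ} (hη : Test V η) {z : ℂ}
    (hz : z ∉ tsupport η) : Test V (fun w => η w * ck (z - w)) := by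
  have hU : IsOpen (V ∩ {z}ᶜ) := hV.inter isOpen_compl_singleton
  have h1 : Test (V ∩ {z}ᶜ) η := ⟨hη.smooth, hη.supp, fun w hw => ⟨hη.sub hw, fun h => hz (by
    rw [← mem_singleton_iff.mp h]; exact hw)⟩⟩
  exact (h1.mul hU ((contDiffOn_ck_sub z).mono inter_subset_right)).mono inter_subset_left

theorem norm_integral_mul_le {L : Set ℂ} (hL : IsCompact L) {ψ a : ℂ → ℂ} {M : ℝ}
    (ha : Continuous a) (hs : ∀ w, w ∉ L → ψ w = 0) (hM : ∀ w ∈ L, ‖ψ w‖ ≤ M) :
    ‖∫ w, ψ w * a w‖ ≤ M * ∫ w in L, ‖a w‖ := by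
  have e : ∫ w, ψ w * a w = ∫ w in L, ψ w * a w := by
    rw [setIntegral_eq_integral_of_forall_compl_eq_zero]
    intro w hw
    rw [hs w hw, zero_mul]
  rw [e, ← integral_const_mul]
  refine norm_integral_le_of_norm_le ?_ ?_
  · exact ((continuous_const.mul ha.norm).continuousOn).integrableOn_compact hL
  · refine (ae_restrict_iff' hL.measurableSet).2 (Eventually.of_forall fun w hw => ?_)
    rw [norm_mul]
    gcongr
    exact hM w hw

end HOL

open _root_.QJ.HOL in
theorem stmtHol : StmtHol := by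
  intro V α a b hV hα ha hb hab hbd hL2 hw K hK hKV
  obtain ⟨χ, hχ, hχ1, hχn⟩ := exists_cutoff hV hK hKV
  set L : Set ℂ := tsupport χ with hLdef
  have hLc : IsCompact L := hχ.supp
  have hLV : L ⊆ V := hχ.sub
  set η : ℂ → ℂ := dzb χ with hη
  have hηT : Test V η := hχ.dzb
  have hηL : tsupport η ⊆ L := tsupport_dzb_subset χ
  -- the support of `η` is disjoint from `K`
  have hdisj : ∀ z ∈ K, z ∉ tsupport η := by
    intro z hz
    rw [notMem_tsupport_iff_eventuallyEq]
    have h1 : ∀ᶠ w in 𝓝 z, ∀ᶠ u in 𝓝 w, χ u = 1 := (hχ1 z hz).eventually_nhds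
    filter_upwards [h1] with w hw1
    have h2 : χ =ᶠ[𝓝 w] fun _ => 1 := hw1
    rw [hη, dzb_congr h2, dzb_const]
    rfl
  obtain ⟨r, hr, hrd⟩ : ∃ r > 0, ∀ z ∈ K, ∀ w ∈ tsupport η, r ≤ ‖z - w‖ := by
    have hd : Disjoint K (tsupport η) := Set.disjoint_left.2 hdisj
    obtain ⟨r, hr, h1⟩ := hd.exists_thickenings hK (isClosed_tsupport η)
    refine ⟨r, hr, fun z hz w hw1 => ?_⟩
    by_contra hlt
    push Not at hlt
    have h2 : w ∈ Metric.thickening r K := by
      rw [Metric.mem_thickening_iff]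
      exact ⟨z, hz, by rw [dist_comm, dist_eq_norm]; exact hlt⟩
    exact Set.disjoint_left.1 h1 h2 (Metric.self_subset_thickening hr _ hw1)
  -- the decomposition
  have hdec : ∀ n, ∀ z ∈ K, α n z =
      cauchy (fun w => χ w * dzb (α n) w) z + cauchy (fun w => η w * α n w) z := by
    intro n z hz
    have h1 : ContDiff ℝ ∞ (fun w => χ w * α n w) := hχ.smooth.mul (hα n)
    have h2 : HasCompactSupport (fun w => χ w * α n w) := hχ.supp.mul_right
    have h3 := cauchy_dzb h1 h2 z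
    have h4 : dzb (fun w => χ w * α n w) = fun w => χ w * dzb (α n) w + η w * α n w := by
      funext w
      rw [dzb_mul (hχ.smooth.differentiable (by simp) w) ((hα n).differentiable (by simp) w)]
      ring
    have h5 := cauchy_add (f := fun w => χ w * dzb (α n) w) (g := fun w => η w * α n w)
      (hχ.smooth.continuous.mul (contDiff_dzb (hα n)).continuous)
      hχ.supp.mul_right (hηT.smooth.continuous.mul (hα n).continuous) hηT.supp.mul_right z
    rw [h4] at h3
    rw [← h5, h3, (hχ1 z hz).self_of_nhds, one_mul]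
  -- the first term
  have hfirst : Tendsto (fun n => ∫ z in K, ‖cauchy (fun w => χ w * dzb (α n) w) z‖ ^ 2) atTop
      (𝓝 0) := by
    refine cauchy_compact (L := L) (B := 1) hLc hK (fun n => hχ.smooth.mul (contDiff_dzb (hα n)))
      (fun n => closure_mono ?_) ?_ ?_
    · intro w hw1
      rw [Function.mem_support] at hw1 ⊢
      intro h0
      exact hw1 (by rw [h0, zero_mul])
    · have h1 := (hL2 L hLc hLV).eventually_lt_const (u := 1) one_pos
      filter_upwards [h1] with n hn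
      refine le_trans ?_ hn.le
      have e : ∫ z, ‖χ z * dzb (α n) z‖ ^ 2 = ∫ z in L, ‖χ z * dzb (α n) z‖ ^ 2 := by
        rw [setIntegral_eq_integral_of_forall_compl_eq_zero]
        intro w hw1
        rw [image_eq_zero_of_notMem_tsupport hw1, zero_mul, norm_zero]
        simp
      rw [e]
      have hc1 : Continuous (fun z => ‖χ z * dzb (α n) z‖ ^ 2) :=
        ((hχ.smooth.continuous.mul (contDiff_dzb (hα n)).continuous).norm).pow 2
      have hc2 : Continuous (fun z => ‖dzb (α n) z‖ ^ 2) :=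
        ((contDiff_dzb (hα n)).continuous.norm).pow 2
      refine integral_mono (hc1.continuousOn.integrableOn_compact hLc)
        (hc2.continuousOn.integrableOn_compact hLc) fun z => ?_
      simp only [norm_mul]
      have h2 : ‖χ z‖ * ‖dzb (α n) z‖ ≤ ‖dzb (α n) z‖ :=
        mul_le_of_le_one_left (norm_nonneg _) (hχn z)
      gcongr
    · intro ξ hξ
      have hT : Test V (fun z => χ z * ξ z) := hχ.mul hV hξ.contDiffOn
      have h1 := hw _ hT.dzb
      have h2 : ∀ n, ∫ z, χ z * dzb (α n) z * ξ z = - ∫ z, dzb (fun z => χ z * ξ z) z * α n z := by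
        intro n
        rw [← integral_mul_dzb hV hT (hα n).contDiffOn]
        refine integral_congr_ae (Filter.Eventually.of_forall fun w => ?_)
        simp only []
        ring
      simp only [h2]
      simpa using h1.neg
  -- the second term
  obtain ⟨C, hC⟩ := hbd L hLc hLV
  obtain ⟨M1, hM1⟩ : ∃ M, ∀ w, ‖η w‖ ≤ M :=
    hηT.smooth.continuous.bounded_above_of_compact_support hηT.supp
  obtain ⟨M2, hM2⟩ : ∃ M, ∀ w, ‖dz η w‖ ≤ M :=
    hηT.dz.smooth.continuous.bounded_above_of_compact_support hηT.dz.supp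
  have hM10 : 0 ≤ M1 := (norm_nonneg _).trans (hM1 0)
  have hM20 : 0 ≤ M2 := (norm_nonneg _).trans (hM2 0)
  set M : ℝ := M1 * r⁻¹ + (M2 * r⁻¹ + M1 * (r ^ 2)⁻¹) with hM
  have hsecond : Tendsto (fun n => ∫ z in K, ‖cauchy (fun w => η w * α n w) z‖ ^ 2) atTop
      (𝓝 0) := by
    have hz : Tendsto (fun n => ∫ z in K, ‖cauchy (fun w => η w * α n w) z‖ ^ 2) atTop
        (𝓝 (∫ _ in K, (0 : ℝ))) := by
      refine tendsto_integral_filter_of_dominated_convergence
        (fun _ => (M1 * r⁻¹ * C + (M2 * r⁻¹ + M1 * (r ^ 2)⁻¹) * C) ^ 2) ?_ ?_ ?_ ?_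
      · refine Filter.Eventually.of_forall fun n => ?_
        have h1 : Continuous (cauchy (fun w => η w * α n w)) :=
          (contDiff_cauchy (hηT.smooth.mul (hα n)) hηT.supp.mul_right).continuous
        exact ((h1.norm).pow 2).aestronglyMeasurable
      · filter_upwards [hC] with n hn
        refine (ae_restrict_iff' hK.measurableSet).2 (Eventually.of_forall fun z hz => ?_)
        rw [Real.norm_of_nonneg (by positivity)]
        have hT := test_ck hV hηT (hdisj z hz)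
        have hoff : ∀ w, w ∉ L → η w = 0 := fun w hw1 =>
          image_eq_zero_of_notMem_tsupport fun h => hw1 (hηL h)
        have hb1 : ∀ w, ‖η w * ck (z - w)‖ ≤ M1 * r⁻¹ := by
          intro w
          by_cases hw1 : w ∈ tsupport η
          · rw [norm_mul]
            gcongr
            · exact hM1 w
            · exact norm_ck_sub_le hr (hrd z hz w hw1)
          · rw [image_eq_zero_of_notMem_tsupport hw1, zero_mul, norm_zero]
            positivity
        have hb2 : ∀ w, ‖dz (fun w => η w * ck (z - w)) w‖ ≤ M2 * r⁻¹ + M1 * (r ^ 2)⁻¹ := by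
          intro w
          by_cases hw1 : w ∈ tsupport η
          · have hne : w ≠ z := fun h => hdisj z hz (h ▸ hw1)
            have hd : DifferentiableAt ℝ (fun w => ck (z - w)) w :=
              ((contDiffOn_ck_sub z).contDiffAt (isOpen_compl_singleton.mem_nhds hne)
                ).differentiableAt (by simp)
            rw [dz_mul (hηT.smooth.differentiable (by simp) w) hd]
            refine (norm_add_le _ _).trans ?_
            rw [norm_mul, norm_mul]
            gcongr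
            · exact hM2 w
            · exact norm_ck_sub_le hr (hrd z hz w hw1)
            · exact hM1 w
            · exact norm_dz_ck_sub_le hr (hrd z hz w hw1)
          · have h1 : (fun w => η w * ck (z - w)) =ᶠ[𝓝 w] fun _ => 0 := by
              filter_upwards [notMem_tsupport_iff_eventuallyEq.mp hw1] with u hu
              rw [hu, Pi.zero_apply, zero_mul]
            rw [dz_congr h1, dz_const, norm_zero]
            positivity
        have hoff2 : ∀ w, w ∉ L → dz (fun w => η w * ck (z - w)) w = 0 := by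
          intro w hw1
          have hw2 : w ∉ tsupport η := fun h => hw1 (hηL h)
          have h1 : (fun w => η w * ck (z - w)) =ᶠ[𝓝 w] fun _ => 0 := by
            filter_upwards [notMem_tsupport_iff_eventuallyEq.mp hw2] with u hu
            rw [hu, Pi.zero_apply, zero_mul]
          rw [dz_congr h1, dz_const]
        have e1 : cauchy (fun w => η w * α n w) z = (∫ w, (η w * ck (z - w)) * a n w) -
            ∫ w, dz (fun w => η w * ck (z - w)) w * b n w := by
          rw [cauchy_eq, sub_eq_add_neg, ← integral_mul_dz hV hT (hb n).contDiffOn,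
            ← integral_add (hT.integrable_mul hV (ha n).continuous.continuousOn)
              (hT.integrable_mul hV (contDiff_dz (hb n)).continuous.continuousOn)]
          refine integral_congr_ae (Filter.Eventually.of_forall fun w => ?_)
          by_cases hw1 : w ∈ V
          · simp only [hab n w hw1]
            ring
          · have : η w = 0 := hoff w fun h => hw1 (hLV h)
            simp only [this, zero_mul, add_zero]
        rw [e1]
        have h3 := norm_integral_mul_le hLc (M := M1 * r⁻¹) (ha n).continuous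
          (ψ := fun w => η w * ck (z - w)) (fun w hw1 => by rw [hoff w hw1, zero_mul])
          (fun w _ => hb1 w)
        have h4 := norm_integral_mul_le hLc (M := M2 * r⁻¹ + M1 * (r ^ 2)⁻¹) (hb n).continuous
          (ψ := dz (fun w => η w * ck (z - w))) hoff2 (fun w _ => hb2 w)
        have h5 : M1 * r⁻¹ * ∫ w in L, ‖a n w‖ ≤ M1 * r⁻¹ * C := by
          gcongr
          exact hn.1
        have h6 : (M2 * r⁻¹ + M1 * (r ^ 2)⁻¹) * ∫ w in L, ‖b n w‖ ≤
            (M2 * r⁻¹ + M1 * (r ^ 2)⁻¹) * C := by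
          gcongr
          exact hn.2
        gcongr
        exact (norm_sub_le _ _).trans (add_le_add (h3.trans h5) (h4.trans h6))
      · exact integrableOn_const hK.measure_lt_top.ne
      · refine (ae_restrict_iff' hK.measurableSet).2 (Eventually.of_forall fun z hz => ?_)
        have hT := test_ck hV hηT (hdisj z hz)
        have h1 := hw _ hT
        have h2 : Tendsto (fun n => cauchy (fun w => η w * α n w) z) atTop (𝓝 0) := by
          simp only [cauchy_eq]
          exact h1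
        simpa using (h2.norm).pow 2
    simpa using hz
  -- conclusion
  have hsum : Tendsto (fun n => 2 * (∫ z in K, ‖cauchy (fun w => χ w * dzb (α n) w) z‖ ^ 2) +
      2 * ∫ z in K, ‖cauchy (fun w => η w * α n w) z‖ ^ 2) atTop (𝓝 0) := by
    simpa using (hfirst.const_mul 2).add (hsecond.const_mul 2)
  refine squeeze_zero (fun n => integral_nonneg fun z => by positivity) (fun n => ?_) hsum
  have hc1 : Continuous (cauchy (fun w => χ w * dzb (α n) w)) :=
    (contDiff_cauchy (hχ.smooth.mul (contDiff_dzb (hα n))) hχ.supp.mul_right).continuous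
  have hc2 : Continuous (cauchy (fun w => η w * α n w)) :=
    (contDiff_cauchy (hηT.smooth.mul (hα n)) hηT.supp.mul_right).continuous
  have hi1 : IntegrableOn (fun z => ‖cauchy (fun w => χ w * dzb (α n) w) z‖ ^ 2) K :=
    ((hc1.norm).pow 2).continuousOn.integrableOn_compact hK
  have hi2 : IntegrableOn (fun z => ‖cauchy (fun w => η w * α n w) z‖ ^ 2) K :=
    ((hc2.norm).pow 2).continuousOn.integrableOn_compact hK
  rw [← integral_const_mul, ← integral_const_mul, ← integral_add (hi1.const_mul 2)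
    (hi2.const_mul 2)]
  refine setIntegral_mono_on ((((hα n).continuous.norm).pow 2).continuousOn.integrableOn_compact hK)
    ((hi1.const_mul 2).add (hi2.const_mul 2)) hK.measurableSet fun z hz => ?_
  rw [hdec n z hz]
  have h1 := norm_add_le (cauchy (fun w => χ w * dzb (α n) w) z) (cauchy (fun w => η w * α n w) z)
  nlinarith only [h1, norm_nonneg (cauchy (fun w => χ w * dzb (α n) w) z + cauchy (fun w => η w * α n w) z), sq_nonneg (‖cauchy (fun w => χ w * dzb (α n) w) z‖ - ‖cauchy (fun w => η w * α n w) z‖)]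

end

end QJ


end

section

/-!
NUL: the quadratic form `A C' + C A' - 2 B B'` of two triples tends weakly to zero.
-/

open Complex MeasureTheory Filter Topology Set
open scoped ContDiff

namespace QJ

open QE

noncomputable section

namespace NUL

variable {V : Set ℂ} {σ : ℂ → ℝ}

/-- products of sequences which tend to zero in `L²` tend weakly to zero -/
lemma cs {η : ℂ → ℂ} (hη : Test V η) {u v : ℕ → ℂ → ℂ} (hu : L2z V u) (hv : L2z V v)
    (su : ∀ n, ContDiff ℝ ∞ (u n)) (sv : ∀ n, ContDiff ℝ ∞ (v n)) :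
    Tendsto (fun n => ∫ z, η z * (u n z * v n z)) atTop (𝓝 0) := by
  have hK : IsCompact (tsupport η) := hη.supp
  obtain ⟨M, hM⟩ := hK.exists_bound_of_continuousOn hη.smooth.continuous.continuousOn
  have hM0 : 0 ≤ max M 0 := le_max_right _ _
  have h1 := hu _ hK hη.sub
  have h2 := hv _ hK hη.sub
  have h3 : Tendsto (fun n => max M 0 * ((∫ z in tsupport η, ‖u n z‖ ^ 2)
      + ∫ z in tsupport η, ‖v n z‖ ^ 2)) atTop (𝓝 0) := by
    have := (h1.add h2).const_mul (max M 0)
    simpa using this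
  refine squeeze_zero_norm (fun n => ?_) h3
  have c1 : IntegrableOn (fun z => ‖u n z‖ ^ 2) (tsupport η) :=
    ((su n).continuous.norm.pow 2).continuousOn.integrableOn_compact hK
  have c2 : IntegrableOn (fun z => ‖v n z‖ ^ 2) (tsupport η) :=
    ((sv n).continuous.norm.pow 2).continuousOn.integrableOn_compact hK
  have c3 : IntegrableOn (fun z => ‖η z * (u n z * v n z)‖) (tsupport η) :=
    ((hη.smooth.continuous.mul ((su n).continuous.mul (sv n).continuous)).norm).continuousOn.integrableOn_compact hK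
  have e1 : ∫ z, η z * (u n z * v n z) = ∫ z in tsupport η, η z * (u n z * v n z) := by
    symm
    apply setIntegral_eq_integral_of_forall_compl_eq_zero
    intro z hz
    rw [image_eq_zero_of_notMem_tsupport hz, zero_mul]
  rw [e1]
  refine (norm_integral_le_integral_norm _).trans ?_
  rw [← integral_add c1 c2, ← integral_const_mul]
  refine setIntegral_mono_on c3 ((c1.add c2).const_mul _) hK.measurableSet fun z hz => ?_
  rw [norm_mul, norm_mul]
  have a1 : ‖η z‖ ≤ max M 0 := (hM z hz).trans (le_max_left _ _)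
  have a2 : ‖u n z‖ * ‖v n z‖ ≤ ‖u n z‖ ^ 2 + ‖v n z‖ ^ 2 := by
    nlinarith [sq_nonneg (‖u n z‖ - ‖v n z‖), norm_nonneg (u n z), norm_nonneg (v n z),
      sq_nonneg (‖u n z‖), sq_nonneg (‖v n z‖)]
  exact mul_le_mul a1 a2 (by positivity) hM0

lemma int1 {η f g : ℂ → ℂ} (hη : Test V η) (hf : ContDiff ℝ ∞ f) (hg : ContDiff ℝ ∞ g) :
    Integrable (fun z => η z * (f z * g z)) :=
  test_int hη (hf.mul hg).continuous

lemma ex_cancel (z : ℂ) : ex σ 2 z * ex σ (-2) z = 1 := by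
  rw [ex_mul, show (2 : ℤ) + -2 = 0 by norm_num, ex_zero]

/-- integration by parts in a term with a derivative `D` -/
lemma limD {ζ : ℂ → ℂ} (hσ : ContDiff ℝ ∞ σ) (hζ : Test V ζ) (k l : ℤ) (hl : l = -k - 1)
    {x g : ℕ → ℂ → ℂ} (hx : L2z V x) (hg : L2z V g) (hDg : L2z V (fun n z => D σ l (g n) z))
    (sx : ∀ n, ContDiff ℝ ∞ (x n)) (sg : ∀ n, ContDiff ℝ ∞ (g n)) :
    Tendsto (fun n => ∫ z, ζ z * (D σ k (x n) z * g n z)) atTop (𝓝 0) := by
  subst hl
  have hζ' : Test V (fun z => ζ z * ex σ (-2) z) := test_mul hζ (contDiff_ex hσ _)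
  have t1 : Test V (fun z => D σ 0 (fun z => ζ z * ex σ (-2) z) z * ex σ 2 z) :=
    test_mul (test_D hσ 0 hζ') (contDiff_ex hσ _)
  have l1 := cs t1 hx hg sx sg
  have l2 := cs hζ hx hDg sx (fun n => contDiff_D hσ _ (sg n))
  have l3 := (l1.neg).sub l2
  rw [neg_zero, sub_zero] at l3
  refine l3.congr fun n => ?_
  have h := ibp_D hσ k hζ' (sx n) (sg n)
  have e0 : ∀ z, ex σ 2 z * (ζ z * ex σ (-2) z * (D σ k (x n) z * g n z))
      = ζ z * (D σ k (x n) z * g n z) := fun z => by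
    linear_combination (ζ z * (D σ k (x n) z * g n z)) * ex_cancel (σ := σ) z
  have e1 : ∀ z, ex σ 2 z * (ζ z * ex σ (-2) z * (x n z * D σ (-k - 1) (g n) z))
      = ζ z * (x n z * D σ (-k - 1) (g n) z) := fun z => by
    linear_combination (ζ z * (x n z * D σ (-k - 1) (g n) z)) * ex_cancel (σ := σ) z
  have e2 : ∀ z, ex σ 2 z * (D σ 0 (fun z => ζ z * ex σ (-2) z) z * (x n z * g n z))
      = D σ 0 (fun z => ζ z * ex σ (-2) z) z * ex σ 2 z * (x n z * g n z) := fun z => by ring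
  simp only [e0, e1, e2] at h
  exact h.symm

/-- integration by parts in a term with a derivative `Db` -/
lemma limDb {ζ : ℂ → ℂ} (hσ : ContDiff ℝ ∞ σ) (hζ : Test V ζ) (k l : ℤ) (hl : l = -k + 1)
    {x g : ℕ → ℂ → ℂ} (hx : L2z V x) (hg : L2z V g) (hDg : L2z V (fun n z => Db σ l (g n) z))
    (sx : ∀ n, ContDiff ℝ ∞ (x n)) (sg : ∀ n, ContDiff ℝ ∞ (g n)) :
    Tendsto (fun n => ∫ z, ζ z * (Db σ k (x n) z * g n z)) atTop (𝓝 0) := by
  subst hl
  have hζ' : Test V (fun z => ζ z * ex σ (-2) z) := test_mul hζ (contDiff_ex hσ _)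
  have t1 : Test V (fun z => Db σ 0 (fun z => ζ z * ex σ (-2) z) z * ex σ 2 z) :=
    test_mul (test_Db hσ 0 hζ') (contDiff_ex hσ _)
  have l1 := cs t1 hx hg sx sg
  have l2 := cs hζ hx hDg sx (fun n => contDiff_Db hσ _ (sg n))
  have l3 := (l1.neg).sub l2
  rw [neg_zero, sub_zero] at l3
  refine l3.congr fun n => ?_
  have h := ibp_Db hσ k hζ' (sx n) (sg n)
  have e0 : ∀ z, ex σ 2 z * (ζ z * ex σ (-2) z * (Db σ k (x n) z * g n z))
      = ζ z * (Db σ k (x n) z * g n z) := fun z => by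
    linear_combination (ζ z * (Db σ k (x n) z * g n z)) * ex_cancel (σ := σ) z
  have e1 : ∀ z, ex σ 2 z * (ζ z * ex σ (-2) z * (x n z * Db σ (-k + 1) (g n) z))
      = ζ z * (x n z * Db σ (-k + 1) (g n) z) := fun z => by
    linear_combination (ζ z * (x n z * Db σ (-k + 1) (g n) z)) * ex_cancel (σ := σ) z
  have e2 : ∀ z, ex σ 2 z * (Db σ 0 (fun z => ζ z * ex σ (-2) z) z * (x n z * g n z))
      = Db σ 0 (fun z => ζ z * ex σ (-2) z) z * ex σ 2 z * (x n z * g n z) := fun z => by ring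
  simp only [e0, e1, e2] at h
  exact h.symm

lemma contDiff_curv (hσ : ContDiff ℝ ∞ σ) : ContDiff ℝ ∞ (curv σ) := by
  unfold curv
  exact ((contDiff_const.mul (contDiff_ex hσ _)).mul
    (contDiff_dz (contDiff_dzb (contDiff_sig hσ)))).neg

lemma sum6 {f0 f1 f2 f3 f4 f5 : ℂ → ℂ} (h0 : Integrable f0) (h1 : Integrable f1)
    (h2 : Integrable f2) (h3 : Integrable f3) (h4 : Integrable f4) (h5 : Integrable f5) :
    ((((((∫ z, f0 z) + ∫ z, f1 z) - ∫ z, f2 z) - ∫ z, f3 z) + ∫ z, f4 z) - ∫ z, f5 z)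
      = ∫ z, (f0 z + f1 z - f2 z - f3 z + f4 z - f5 z) := by
  have s1 : Integrable (fun z => f0 z + f1 z) := h0.add h1
  have s2 : Integrable (fun z => f0 z + f1 z - f2 z) := s1.sub h2
  have s3 : Integrable (fun z => f0 z + f1 z - f2 z - f3 z) := s2.sub h3
  have s4 : Integrable (fun z => f0 z + f1 z - f2 z - f3 z + f4 z) := s3.add h4
  rw [integral_sub s4 h5, integral_add s3 h4, integral_sub s2 h3, integral_sub s1 h2,
    integral_add h0 h1]

lemma sum7 {f0 f1 f2 f3 f4 f5 f6 : ℂ → ℂ} (h0 : Integrable f0) (h1 : Integrable f1)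
    (h2 : Integrable f2) (h3 : Integrable f3) (h4 : Integrable f4) (h5 : Integrable f5)
    (h6 : Integrable f6) :
    (((((((∫ z, f0 z) + ∫ z, f1 z) + ∫ z, f2 z) + ∫ z, f3 z) + ∫ z, f4 z) + ∫ z, f5 z)
      + ∫ z, f6 z) = ∫ z, (f0 z + f1 z + f2 z + f3 z + f4 z + f5 z + f6 z) := by
  have s1 : Integrable (fun z => f0 z + f1 z) := h0.add h1
  have s2 : Integrable (fun z => f0 z + f1 z + f2 z) := s1.add h2
  have s3 : Integrable (fun z => f0 z + f1 z + f2 z + f3 z) := s2.add h3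
  have s4 : Integrable (fun z => f0 z + f1 z + f2 z + f3 z + f4 z) := s3.add h4
  have s5 : Integrable (fun z => f0 z + f1 z + f2 z + f3 z + f4 z + f5 z) := s4.add h5
  rw [integral_add s5 h6, integral_add s4 h5, integral_add s3 h4, integral_add s2 h3,
    integral_add s1 h2, integral_add h0 h1]

end NUL

open _root_.QJ.NUL

theorem stmtNul (hNid : StmtNid) : StmtNul := by
  intro V σ N A B C x y A' B' C' x' y' hV hσ sA sB sC sA' sB' sC' P P' ζ hζ
  have hζ' : Test V (fun z => ζ z * ex σ (-2) z) := test_mul hζ (contDiff_ex hσ _)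
  set ζ' : ℂ → ℂ := fun z => ζ z * ex σ (-2) z with hζ'def
  -- smoothness
  have sDx : ∀ n, ContDiff ℝ ∞ (D σ (N + 1) (x n)) := fun n => contDiff_D hσ _ (P.sx n)
  have sDby : ∀ n, ContDiff ℝ ∞ (Db σ (N - 1) (y n)) := fun n => contDiff_Db hσ _ (P.sy n)
  have sDx' : ∀ n, ContDiff ℝ ∞ (D σ (-N + 1) (x' n)) := fun n => contDiff_D hσ _ (P'.sx n)
  have sDby' : ∀ n, ContDiff ℝ ∞ (Db σ (-N - 1) (y' n)) := fun n => contDiff_Db hσ _ (P'.sy n)
  have sa : ∀ n, ContDiff ℝ ∞ (fun z => A n z - D σ (N + 1) (x n) z) := fun n => (sA n).sub (sDx n)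
  have sc : ∀ n, ContDiff ℝ ∞ (fun z => C n z - Db σ (N - 1) (y n) z) := fun n =>
    (sC n).sub (sDby n)
  have sa' : ∀ n, ContDiff ℝ ∞ (fun z => A' n z - D σ (-N + 1) (x' n) z) := fun n =>
    (sA' n).sub (sDx' n)
  have sc' : ∀ n, ContDiff ℝ ∞ (fun z => C' n z - Db σ (-N - 1) (y' n) z) := fun n =>
    (sC' n).sub (sDby' n)
  -- the six error terms
  have T1 := limD hσ hζ (N + 1) (-N - 2) (by ring) P.lx P'.lc P'.ldc P.sx sc'
  have T2 := limDb hσ hζ (-N - 1) (N + 2) (by ring) P'.ly P.la P.lda P'.sy sa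
  have T3 := cs hζ P.la P'.lc sa sc'
  have T4 := limDb hσ hζ (N - 1) (-N + 2) (by ring) P.ly P'.la P'.lda P.sy sa'
  have T5 := limD hσ hζ (-N + 1) (N - 2) (by ring) P'.lx P.lc P.ldc P'.sx sc
  have T6 := cs hζ P.lc P'.la sc sa'
  -- the main term
  have u1 : Test V (fun z => Db σ 1 (D σ 0 ζ') z * ex σ 2 z) :=
    test_mul (test_Db hσ 1 (test_D hσ 0 hζ')) (contDiff_ex hσ _)
  have u2 : Test V (fun z => D σ 1 (D σ 0 ζ') z * ex σ 2 z) :=
    test_mul (test_D hσ 1 (test_D hσ 0 hζ')) (contDiff_ex hσ _)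
  have u3 : Test V (fun z => Db σ (-1) (Db σ 0 ζ') z * ex σ 2 z) :=
    test_mul (test_Db hσ (-1) (test_Db hσ 0 hζ')) (contDiff_ex hσ _)
  have u4 : Test V (fun z => ζ' z * (ex σ 2 z * (2 * curv σ z * (N - 1)))) :=
    test_mul hζ' ((contDiff_ex hσ _).mul ((contDiff_const.mul (contDiff_curv hσ)).mul contDiff_const))
  have u5 : Test V (fun z => ζ' z * (ex σ 2 z * (2 * curv σ z * (N + 1)))) :=
    test_mul hζ' ((contDiff_ex hσ _).mul ((contDiff_const.mul (contDiff_curv hσ)).mul contDiff_const))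
  have M1 := cs u1 P.lx P'.ly P.sx P'.sy
  have M2 := cs u1 P'.lx P.ly P'.sx P.sy
  have M3 := cs u2 P.ly P'.ly P.sy P'.sy
  have M4 := cs u3 P.lx P'.lx P.sx P'.sx
  have M5 := cs u4 P'.lx P.ly P'.sx P.sy
  have M6 := cs u5 P.lx P'.ly P.sx P'.sy
  have M : Tendsto (fun n => ∫ z, ζ z * (D σ (N + 1) (x n) z * Db σ (-N - 1) (y' n) z
        + Db σ (N - 1) (y n) z * D σ (-N + 1) (x' n) z
        - Db σ (N + 1) (x n) z * D σ (-N - 1) (y' n) z
        - D σ (N - 1) (y n) z * Db σ (-N + 1) (x' n) z)) atTop (𝓝 0) := by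
    have l := ((((M1.add M2).sub M3).sub M4).add M5).sub M6
    simp only [add_zero, sub_zero] at l
    refine l.congr fun n => ?_
    have h := hNid V σ N (x n) (y n) (x' n) (y' n) ζ' hV hσ (P.sx n) (P.sy n) (P'.sx n) (P'.sy n)
      hζ' (fun z hz => by rw [P.hx n z hz, P.hy n z hz])
      (fun z hz => by rw [P'.hx n z hz, P'.hy n z hz])
    have e0 : ∀ z, ex σ 2 z * (ζ' z * (D σ (N + 1) (x n) z * Db σ (-N - 1) (y' n) z
        + Db σ (N - 1) (y n) z * D σ (-N + 1) (x' n) z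
        - Db σ (N + 1) (x n) z * D σ (-N - 1) (y' n) z
        - D σ (N - 1) (y n) z * Db σ (-N + 1) (x' n) z))
        = ζ z * (D σ (N + 1) (x n) z * Db σ (-N - 1) (y' n) z
        + Db σ (N - 1) (y n) z * D σ (-N + 1) (x' n) z
        - Db σ (N + 1) (x n) z * D σ (-N - 1) (y' n) z
        - D σ (N - 1) (y n) z * Db σ (-N + 1) (x' n) z) := fun z => by
      simp only [hζ'def]
      linear_combination (ζ z * (D σ (N + 1) (x n) z * Db σ (-N - 1) (y' n) z
        + Db σ (N - 1) (y n) z * D σ (-N + 1) (x' n) z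
        - Db σ (N + 1) (x n) z * D σ (-N - 1) (y' n) z
        - D σ (N - 1) (y n) z * Db σ (-N + 1) (x' n) z)) * ex_cancel (σ := σ) z
    simp only [e0] at h
    rw [h]
    have i1 := int1 u1 (P.sx n) (P'.sy n)
    have i2 := int1 u1 (P'.sx n) (P.sy n)
    have i3 := int1 u2 (P.sy n) (P'.sy n)
    have i4 := int1 u3 (P.sx n) (P'.sx n)
    have i5 := int1 u4 (P'.sx n) (P.sy n)
    have i6 := int1 u5 (P.sx n) (P'.sy n)
    refine (sum6 i1 i2 i3 i4 i5 i6).trans (integral_congr_ae (Filter.Eventually.of_forall fun z => ?_))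
    simp only []
    ring
  have l := (((((M.add T1).add T2).add T3).add T4).add T5).add T6
  simp only [add_zero] at l
  refine l.congr fun n => ?_
  have j0 : Integrable (fun z => ζ z * (D σ (N + 1) (x n) z * Db σ (-N - 1) (y' n) z
        + Db σ (N - 1) (y n) z * D σ (-N + 1) (x' n) z
        - Db σ (N + 1) (x n) z * D σ (-N - 1) (y' n) z
        - D σ (N - 1) (y n) z * Db σ (-N + 1) (x' n) z)) :=
    test_int hζ (((((sDx n).mul (sDby' n)).add ((sDby n).mul (sDx' n))).sub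
      ((contDiff_Db hσ _ (P.sx n)).mul (contDiff_D hσ _ (P'.sy n)))).sub
      ((contDiff_D hσ _ (P.sy n)).mul (contDiff_Db hσ _ (P'.sx n)))).continuous
  have j1 := int1 hζ (sDx n) (sc' n)
  have j2 := int1 hζ (sDby' n) (sa n)
  have j3 := int1 hζ (sa n) (sc' n)
  have j4 := int1 hζ (sDby n) (sa' n)
  have j5 := int1 hζ (sDx' n) (sc n)
  have j6 := int1 hζ (sc n) (sa' n)
  refine (sum7 j0 j1 j2 j3 j4 j5 j6).trans (integral_congr_ae (Filter.Eventually.of_forall fun z => ?_))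
  simp only []
  by_cases hz : ζ z = 0
  · simp only [hz, zero_mul, add_zero]
  have hzV : z ∈ V := hζ.sub (subset_tsupport _ hz)
  have b1 := P.hx n z hzV
  have b2 := P.hy n z hzV
  have b3 := P'.hx n z hzV
  have b4 := P'.hy n z hzV
  rw [b1, b2, b3, b4]
  ring

end

end QJ


end

section

/-!
Module ALF: symmetric functions on `{a + b + c + d = 0}` with the two recursions.
-/

namespace QJ

open QE

namespace ALF

variable {X : Type} [AddCommGroup X] [Module ℂ X]

theorem two_cancel {x y : X} (h : (2 : ℂ) • x = (2 : ℂ) • y) : x = y := by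
  have h2 : ((2 : ℂ)⁻¹) • ((2 : ℂ) • x) = ((2 : ℂ)⁻¹) • ((2 : ℂ) • y) := by rw [h]
  rwa [smul_smul, smul_smul, inv_mul_cancel₀ (two_ne_zero), one_smul, one_smul] at h2

theorem const1 (φ : ℤ → X) (c : X) (h : ∀ t, φ (t + 1) + φ (t - 1) = (2 : ℂ) • φ t)
    (h0 : φ 0 = c) (h1 : φ 1 = c) : ∀ t, φ t = c := by
  have key : ∀ n : ℕ, φ n = c ∧ φ ((n : ℤ) + 1) = c ∧ φ (-(n : ℤ)) = c ∧ φ (-(n : ℤ) + 1) = c := by
    intro n
    induction n with
    | zero => simp [h0, h1]
    | succ n ih =>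
      obtain ⟨a1, a2, a3, a4⟩ := ih
      have b1 := h ((n : ℤ) + 1)
      have e1 : (n : ℤ) + 1 - 1 = n := by ring
      rw [e1, a1, a2] at b1
      have b2 := h (-(n : ℤ))
      rw [a3, a4] at b2
      have e2 : (2 : ℂ) • c = c + c := two_smul ℂ c
      rw [e2] at b1 b2
      refine ⟨?_, ?_, ?_, ?_⟩
      · push_cast
        exact a2
      · push_cast
        exact add_right_cancel b1
      · have e3 : -((n + 1 : ℕ) : ℤ) = -(n : ℤ) - 1 := by push_cast; ring
        rw [e3]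
        exact add_left_cancel b2
      · have e3 : -((n + 1 : ℕ) : ℤ) + 1 = -(n : ℤ) := by push_cast; ring
        rw [e3]
        exact a3
  intro t
  rcases le_total 0 t with ht | ht
  · obtain ⟨n, rfl⟩ := Int.eq_ofNat_of_zero_le ht
    exact (key n).1
  · obtain ⟨n, hn⟩ := Int.eq_ofNat_of_zero_le (by omega : (0 : ℤ) ≤ -t)
    have : t = -(n : ℤ) := by omega
    rw [this]
    exact (key n).2.2.1

theorem const3 (F : ℤ → ℤ → ℤ → X) (c : X)
    (h1 : ∀ x y z, F (x + 1) y z + F (x - 1) y z = (2 : ℂ) • F x y z)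
    (h2 : ∀ x y z, F x (y + 1) z + F x (y - 1) z = (2 : ℂ) • F x y z)
    (h3 : ∀ x y z, F x y (z + 1) + F x y (z - 1) = (2 : ℂ) • F x y z)
    (e0 : F 0 0 0 = c) (e1 : F 1 0 0 = c) (e2 : F 0 1 0 = c) (e3 : F 0 0 1 = c)
    (e4 : F 1 1 0 = c) (e5 : F 1 0 1 = c) (e6 : F 0 1 1 = c) (e7 : F 1 1 1 = c) :
    ∀ x y z, F x y z = c := by
  have a1 : ∀ x, F x 0 0 = c := const1 (fun x => F x 0 0) c (fun x => h1 x 0 0) e0 e1
  have a2 : ∀ x, F x 1 0 = c := const1 (fun x => F x 1 0) c (fun x => h1 x 1 0) e2 e4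
  have a3 : ∀ x, F x 0 1 = c := const1 (fun x => F x 0 1) c (fun x => h1 x 0 1) e3 e5
  have a4 : ∀ x, F x 1 1 = c := const1 (fun x => F x 1 1) c (fun x => h1 x 1 1) e6 e7
  have b1 : ∀ x y, F x y 0 = c := fun x =>
    const1 (fun y => F x y 0) c (fun y => h2 x y 0) (a1 x) (a2 x)
  have b2 : ∀ x y, F x y 1 = c := fun x =>
    const1 (fun y => F x y 1) c (fun y => h2 x y 1) (a3 x) (a4 x)
  intro x y
  exact const1 (fun z => F x y z) c (fun z => h3 x y z) (b1 x y) (b2 x y)

end ALF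

open _root_.QJ.ALF in
theorem stmtAlf : StmtAlf := by
  intro X _ _ e h12 h23 h34 hS hI
  -- the relation in the three directions
  have hS2 : ∀ a b c d, a + b + c + d = 0 → e (a + 1) (b - 1) (c + 1) (d - 1)
      + e (a - 1) (b + 1) (c - 1) (d + 1) = (2 : ℂ) • e a b c d := by
    intro a b c d h
    have := hS a c b d (by omega)
    rw [h23 (a + 1) (b - 1) (c + 1) (d - 1), h23 (a - 1) (b + 1) (c - 1) (d + 1), h23 a b c d]
      at this
    exact this
  have hS3 : ∀ a b c d, a + b + c + d = 0 → e (a + 1) (b - 1) (c - 1) (d + 1)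
      + e (a - 1) (b + 1) (c + 1) (d - 1) = (2 : ℂ) • e a b c d := by
    intro a b c d h
    have := hS a d b c (by omega)
    rw [h23 (a + 1) (b - 1) (d + 1) (c - 1), h34 (a + 1) (b - 1) (c - 1) (d + 1),
      h23 (a - 1) (b + 1) (d - 1) (c + 1), h34 (a - 1) (b + 1) (c + 1) (d - 1),
      h23 a b d c, h34 a b c d] at this
    exact this
  set α := e 0 0 0 0 with hα
  set g := e 0 0 1 (-1) with hg
  -- values
  have hS0 := hS 0 0 0 0 (by norm_num)
  norm_num at hS0
  have p1 : e (-1) (-1) 1 1 = e 1 1 (-1) (-1) := by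
    rw [← h23 (-1) (-1) 1 1, ← h12 (-1) 1 (-1) 1, ← h34 1 (-1) (-1) 1, ← h23 1 (-1) 1 (-1)]
  have v1 : e 1 1 (-1) (-1) = α := by
    rw [p1, ← two_smul ℂ] at hS0
    exact two_cancel hS0
  have v1' : e 1 (-1) 1 (-1) = α := by rw [← h23 1 (-1) 1 (-1), v1]
  have v1'' : e 1 (-1) (-1) 1 = α := by rw [← h34 1 (-1) (-1) 1, v1']
  have hS1 := hS2 1 1 (-1) (-1) (by norm_num)
  norm_num at hS1
  -- e 2 0 0 (-2) + e 0 2 (-2) 0 = 2 • e 1 1 (-1) (-1)
  have p2 : e 0 2 (-2) 0 = e 2 0 0 (-2) := by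
    rw [← h12 0 2 (-2) 0, ← h34 2 0 (-2) 0]
  have v2 : e 2 0 0 (-2) = α := by
    rw [p2, ← two_smul ℂ, v1] at hS1
    exact two_cancel hS1
  have v2' : e 2 0 (-2) 0 = α := by rw [← h34 2 0 (-2) 0, v2]
  have v2'' : e 2 (-2) 0 0 = α := by rw [← h23 2 (-2) 0 0, v2']
  -- the second coset
  have g1 : e 1 (-1) 0 0 = g := by
    rw [← h23 1 (-1) 0 0, ← h34 1 0 (-1) 0, ← h12 1 0 0 (-1), ← h23 0 1 0 (-1)]
  have g2 : e (-1) 1 0 0 = g := by rw [← h12 (-1) 1 0 0, g1]
  have hS4 := hS2 0 0 1 (-1) (by norm_num)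
  norm_num at hS4
  have g3 : e 1 (-1) 2 (-2) = g := by
    have : e (-1) 1 0 0 = g := g2
    rw [this, ← hg, two_smul ℂ] at hS4
    exact add_right_cancel hS4
  have g4 : e 2 (-2) 1 (-1) = g := by
    rw [← g3, ← h23 1 (-1) 2 (-2), ← h12 1 2 (-1) (-2), ← h34 2 1 (-1) (-2),
      ← h23 2 1 (-2) (-1)]
  have i1 := hI 0 0 0 (-1) (by norm_num)
  norm_num at i1
  have g5 : e 1 0 0 (-1) = g := by rw [← h12 1 0 0 (-1), ← h23 0 1 0 (-1)]
  have g6 : e 0 1 0 (-1) = g := by rw [← h23 0 1 0 (-1)]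
  rw [g5, g6, ← hg, ← hα] at i1
  have i2 := hI 1 0 0 (-2) (by norm_num)
  norm_num at i2
  have g7 : e 1 0 1 (-2) = e 1 1 0 (-2) := h23 1 1 0 (-2)
  rw [g7, v2, g5] at i2
  have x1 : e 1 1 0 (-2) = g := by
    apply two_cancel
    have e1 : α = -(g + g + g) := by
      rw [eq_neg_iff_add_eq_zero, add_comm]
      exact i1
    rw [e1] at i2
    rw [two_smul ℂ, two_smul ℂ]
    have : e 1 1 0 (-2) + e 1 1 0 (-2) - (g + g) =
      -(g + g + g) + e 1 1 0 (-2) + e 1 1 0 (-2) + g := by abel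
    rw [← sub_eq_zero, this]
    exact i2
  have hS5 := hS 0 0 1 (-1) (by norm_num)
  norm_num at hS5
  have p3 : e (-1) (-1) 2 0 = e 2 0 (-1) (-1) := by
    rw [← h23 (-1) (-1) 2 0, ← h12 (-1) 2 (-1) 0, ← h34 2 (-1) (-1) 0, ← h23 2 (-1) 0 (-1)]
  have y1 : e 2 0 (-1) (-1) = g := by
    rw [p3, x1, ← hg, two_smul ℂ] at hS5
    exact add_left_cancel hS5
  have i3 := hI 2 (-1) (-1) (-1) (by norm_num)
  norm_num at i3
  have g8 : e 2 (-1) 0 (-1) = g := by rw [h23 2 0 (-1) (-1), y1]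
  have g9 : e 2 (-1) (-1) 0 = g := by rw [h34 2 (-1) 0 (-1), g8]
  rw [y1, g8, g9] at i3
  have v3 : e 3 (-1) (-1) (-1) = α := by
    have e1 : α = -(g + g + g) := by
      rw [eq_neg_iff_add_eq_zero, add_comm]
      exact i1
    rw [e1, eq_neg_iff_add_eq_zero, ← i3]
    abel
  -- more values in the second coset
  have z1 : e 0 2 (-1) (-1) = g := by rw [← h12 0 2 (-1) (-1), y1]
  have z2 : e 1 1 (-2) 0 = g := by rw [h34 1 1 0 (-2), x1]
  have hS6 := hS2 1 1 0 (-2) (by norm_num)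
  norm_num at hS6
  -- e 2 0 1 (-3) + e 0 2 (-1) (-1) = 2 • e 1 1 0 (-2)
  have z3 : e 2 0 1 (-3) = g := by
    rw [z1, x1, two_smul ℂ] at hS6
    exact add_right_cancel hS6
  have hS7 := hS2 2 0 (-1) (-1) (by norm_num)
  norm_num at hS7
  have z4 : e 3 (-1) 0 (-2) = g := by
    rw [z2, y1, two_smul ℂ] at hS7
    exact add_right_cancel hS7
  -- the first coset
  have A : ∀ x y z, e (x + y + z) (x - y - z) (-x + y - z) (-x - y + z) = α := by
    apply const3 (fun x y z => e (x + y + z) (x - y - z) (-x + y - z) (-x - y + z))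
    · intro x y z
      have := hS (x + y + z) (x - y - z) (-x + y - z) (-x - y + z) (by ring)
      rw [← this]
      congr 2 <;> ring
    · intro x y z
      have := hS2 (x + y + z) (x - y - z) (-x + y - z) (-x - y + z) (by ring)
      rw [← this]
      congr 2 <;> ring
    · intro x y z
      have := hS3 (x + y + z) (x - y - z) (-x + y - z) (-x - y + z) (by ring)
      rw [← this]
      congr 2 <;> ring
    · norm_num
      exact hα.symm
    · norm_num
      exact v1
    · norm_num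
      exact v1'
    · norm_num
      exact v1''
    · norm_num
      exact v2
    · norm_num
      exact v2'
    · norm_num
      exact v2''
    · norm_num
      exact v3
  have B : ∀ x y z, e (x + y + z) (x - y - z) (1 - x + y - z) (-1 - x - y + z) = g := by
    apply const3 (fun x y z => e (x + y + z) (x - y - z) (1 - x + y - z) (-1 - x - y + z))
    · intro x y z
      have := hS (x + y + z) (x - y - z) (1 - x + y - z) (-1 - x - y + z) (by ring)
      rw [← this]
      congr 2 <;> ring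
    · intro x y z
      have := hS2 (x + y + z) (x - y - z) (1 - x + y - z) (-1 - x - y + z) (by ring)
      rw [← this]
      congr 2 <;> ring
    · intro x y z
      have := hS3 (x + y + z) (x - y - z) (1 - x + y - z) (-1 - x - y + z) (by ring)
      rw [← this]
      congr 2 <;> ring
    · norm_num
      exact hg.symm
    · norm_num
      exact x1
    · norm_num
      exact g3
    · norm_num
      exact g1
    · norm_num
      exact z3
    · norm_num
      exact y1
    · norm_num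
      exact g4
    · norm_num
      exact z4
  have hgα : g = (-1 / 3 : ℂ) • α := by
    have e1 : α = -(g + g + g) := by
      rw [eq_neg_iff_add_eq_zero, add_comm]
      exact i1
    rw [e1]
    module
  have B' : ∀ a b c d : ℤ, a + b + c + d = 0 → (a - b) % 2 = 0 → (a - c) % 2 ≠ 0 →
      e a b c d = g := by
    intro a b c d h hab hac
    have h1 : ∃ x : ℤ, a + b = 2 * x := ⟨(a + b) / 2, by omega⟩
    have h2 : ∃ y : ℤ, a + c - 1 = 2 * y := ⟨(a + c - 1) / 2, by omega⟩
    have h3 : ∃ z : ℤ, 1 - b - c = 2 * z := ⟨(1 - b - c) / 2, by omega⟩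
    obtain ⟨x, hx⟩ := h1
    obtain ⟨y, hy⟩ := h2
    obtain ⟨z, hz⟩ := h3
    have := B x y z
    have e1 : x + y + z = a := by omega
    have e2 : x - y - z = b := by omega
    have e3 : 1 - x + y - z = c := by omega
    have e4 : -1 - x - y + z = d := by omega
    rw [e1, e2, e3, e4] at this
    exact this
  intro a b c d h
  unfold cl4
  split_ifs with hc
  · obtain ⟨c1, c2, c3⟩ := hc
    have h1 : ∃ x : ℤ, a + b = 2 * x := ⟨(a + b) / 2, by omega⟩
    have h2 : ∃ y : ℤ, a + c = 2 * y := ⟨(a + c) / 2, by omega⟩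
    have h3 : ∃ z : ℤ, a + d = 2 * z := ⟨(a + d) / 2, by omega⟩
    obtain ⟨x, hx⟩ := h1
    obtain ⟨y, hy⟩ := h2
    obtain ⟨z, hz⟩ := h3
    have := A x y z
    have e1 : x + y + z = a := by omega
    have e2 : x - y - z = b := by omega
    have e3 : -x + y - z = c := by omega
    have e4 : -x - y + z = d := by omega
    rw [e1, e2, e3, e4] at this
    rw [this, one_smul]
  · rw [← hgα]
    by_cases k1 : (a - b) % 2 = 0
    · have k2 : (a - c) % 2 ≠ 0 := by
        intro k2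
        apply hc
        refine ⟨k1, k2, ?_⟩
        omega
      exact B' a b c d h k1 k2
    · by_cases k2 : (a - c) % 2 = 0
      · rw [← h23 a b c d]
        exact B' a c b d (by omega) k2 k1
      · have k3 : (a - d) % 2 = 0 := by omega
        rw [← h34 a b c d, ← h23 a b d c]
        exact B' a d b c (by omega) k3 k1

end QJ


end

section

/-!
Third order statistics of all eigenfunctions: `∂̄ α` bounded in `L²` and `α = a + ∂ b` with `a`, `b`
bounded in `L¹` imply that `α` is bounded in `L²`.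
-/

open Complex MeasureTheory Filter Topology Set
open scoped ContDiff

namespace U3

open QE QJ

noncomputable section

namespace HOLB

/-- the Cauchy transform is bounded in `L²` on compact sets -/
theorem cauchy_bdd {L K : Set ℂ} (hL : IsCompact L) (hK : IsCompact K) (B : ℝ) :
    ∃ C : ℝ, ∀ f : ℂ → ℂ, ContDiff ℝ ∞ f → tsupport f ⊆ L → ∫ z, ‖f z‖ ^ 2 ≤ B →
      ∫ z in K, ‖cauchy f z‖ ^ 2 ≤ C := by
  set V : ℝ := (volume : Measure ℂ).real L with hV
  have hLfin : (volume : Measure ℂ) L ≠ ⊤ := hL.measure_lt_top.ne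
  refine ⟨2 * ((Real.pi * 1) ^ 2 * B) +
    2 * ((1 / (2 * Real.pi * 1) * (V + B)) ^ 2 * (volume : Measure ℂ).real K), ?_⟩
  intro f hf hs hB
  have hc : HasCompactSupport f := hL.of_isClosed_subset (isClosed_tsupport _) hs
  have hcf : Continuous f := hf.continuous
  have hi2 : Integrable (fun z => ‖f z‖ ^ 2) := by
    have : Continuous (fun z => ‖f z‖ ^ 2) := by fun_prop
    exact this.integrable_of_hasCompactSupport (hc.comp_left (g := fun w => ‖w‖ ^ 2) (by simp))
  have hi1 : Integrable (fun z => ‖f z‖) := (hcf.integrable_of_hasCompactSupport hc).norm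
  have hL1 : ∫ z, ‖f z‖ ≤ V + B := by
    have hind : Integrable (L.indicator fun _ => (1 : ℝ)) :=
      (integrable_indicator_iff hL.measurableSet).mpr (integrableOn_const hLfin)
    have hpt : ∀ z, ‖f z‖ ≤ L.indicator (fun _ => (1 : ℝ)) z + ‖f z‖ ^ 2 := by
      intro z
      by_cases hz : z ∈ L
      · rw [Set.indicator_of_mem hz]; nlinarith [sq_nonneg (‖f z‖ - 1), norm_nonneg (f z)]
      · have : f z = 0 := image_eq_zero_of_notMem_tsupport fun h => hz (hs h)
        rw [Set.indicator_of_notMem hz, this]; simp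
    calc ∫ z, ‖f z‖ ≤ ∫ z, (L.indicator (fun _ => (1 : ℝ)) z + ‖f z‖ ^ 2) :=
          integral_mono hi1 (hind.add hi2) hpt
      _ = V + ∫ z, ‖f z‖ ^ 2 := by
          rw [integral_add hind hi2, integral_indicator hL.measurableSet]; simp [hV]
      _ ≤ V + B := by linarith
  have hδ : (0 : ℝ) < 1 := one_pos
  have hkk : Integrable (fun w => ck w - kd 1 w) :=
    (integrable_norm_iff (measurable_ck.sub (continuous_kd hδ).measurable).aestronglyMeasurable).mp
      (integrable_ck_sub_kd hδ)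
  obtain ⟨hy1, hy2⟩ := young_sq hkk hcf hc
  have hsplit : ∀ z, cauchy f z = (∫ w, (ck w - kd 1 w) * f (z - w))
      + ∫ w, kd 1 w * f (z - w) := by
    intro z
    have hi1 : Integrable (fun w => ck w * f (z - w)) := convExists hcf hc z
    have hi3 : Integrable (fun w => f (z - w)) :=
      (hcf.integrable_of_hasCompactSupport hc).comp_sub_left z
    have hi2 : Integrable (fun w => kd 1 w * f (z - w)) :=
      hi3.bdd_mul (continuous_kd hδ).aestronglyMeasurable
        (Filter.Eventually.of_forall fun w => norm_kd_le hδ w)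
    have hi4 : Integrable (fun w => (ck w - kd 1 w) * f (z - w)) := by
      refine (hi1.sub hi2).congr (Filter.Eventually.of_forall fun w => ?_)
      simp only [Pi.sub_apply]; ring
    rw [← integral_add hi4 hi2]
    unfold cauchy
    refine integral_congr_ae (Filter.Eventually.of_forall fun w => ?_)
    simp only []; ring
  have hcontk : Continuous (fun z => ∫ w, kd 1 w * f (z - w)) := by
    have h1 := hc.continuous_convolution_right (ContinuousLinearMap.mul ℝ ℂ)
      ((continuous_kd hδ).locallyIntegrable (μ := volume)) hcf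
    have h2 : (fun z => ∫ w, kd 1 w * f (z - w))
        = convolution (kd 1) f (ContinuousLinearMap.mul ℝ ℂ) volume := by
      funext z; rw [convolution_def]; rfl
    rw [h2]; exact h1
  have hik : IntegrableOn (fun z => ‖∫ w, kd 1 w * f (z - w)‖ ^ 2) K :=
    (by fun_prop : Continuous (fun z => ‖∫ w, kd 1 w * f (z - w)‖ ^ 2)).continuousOn.integrableOn_compact
      hK
  have hic : IntegrableOn (fun z => ‖cauchy f z‖ ^ 2) K := by
    have := (contDiff_cauchy hf hc).continuous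
    exact (by fun_prop : Continuous (fun z => ‖cauchy f z‖ ^ 2)).continuousOn.integrableOn_compact hK
  have hkb : ∀ z, ‖∫ w, kd 1 w * f (z - w)‖ ^ 2 ≤ (1 / (2 * Real.pi * 1) * (V + B)) ^ 2 := by
    intro z
    have hi : Integrable (fun w => ‖f (z - w)‖) := hi1.comp_sub_left z
    gcongr
    calc ‖∫ w, kd 1 w * f (z - w)‖ ≤ ∫ w, ‖kd 1 w * f (z - w)‖ :=
          norm_integral_le_integral_norm _
      _ ≤ ∫ w, 1 / (2 * Real.pi * 1) * ‖f (z - w)‖ := by
          refine integral_mono_of_nonneg (Filter.Eventually.of_forall fun w => norm_nonneg _)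
            (hi.const_mul _) (Filter.Eventually.of_forall fun w => ?_)
          simp only [norm_mul]
          gcongr
          exact norm_kd_le hδ w
      _ = 1 / (2 * Real.pi * 1) * ∫ w, ‖f w‖ := by
          rw [integral_const_mul, integral_sub_left_eq_self (fun w => ‖f w‖) volume z]
      _ ≤ _ := by gcongr
  calc ∫ z in K, ‖cauchy f z‖ ^ 2
      ≤ ∫ z in K, (2 * ‖∫ w, (ck w - kd 1 w) * f (z - w)‖ ^ 2
        + 2 * ‖∫ w, kd 1 w * f (z - w)‖ ^ 2) := by
        refine integral_mono hic ((hy1.integrableOn.const_mul 2).add (hik.const_mul 2)) fun z => ?_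
        simp only []
        rw [hsplit z]
        have h1 := norm_add_le (∫ w, (ck w - kd 1 w) * f (z - w)) (∫ w, kd 1 w * f (z - w))
        nlinarith only [h1, norm_nonneg ((∫ w, (ck w - kd 1 w) * f (z - w)) + ∫ w, kd 1 w * f (z - w)), sq_nonneg (‖∫ w, (ck w - kd 1 w) * f (z - w)‖ - ‖∫ w, kd 1 w * f (z - w)‖)]
    _ = 2 * (∫ z in K, ‖∫ w, (ck w - kd 1 w) * f (z - w)‖ ^ 2)
        + 2 * ∫ z in K, ‖∫ w, kd 1 w * f (z - w)‖ ^ 2 := by
        rw [integral_add (hy1.integrableOn.const_mul 2) (hik.const_mul 2), integral_const_mul,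
          integral_const_mul]
    _ ≤ _ := by
        gcongr
        · calc ∫ z in K, ‖∫ w, (ck w - kd 1 w) * f (z - w)‖ ^ 2
              ≤ ∫ z, ‖∫ w, (ck w - kd 1 w) * f (z - w)‖ ^ 2 :=
                setIntegral_le_integral hy1 (Filter.Eventually.of_forall fun z => by positivity)
            _ ≤ (∫ w, ‖ck w - kd 1 w‖) ^ 2 * ∫ z, ‖f z‖ ^ 2 := hy2
            _ ≤ (Real.pi * 1) ^ 2 * B := by
                gcongr
                exact integral_ck_sub_kd hδ
        · calc ∫ z in K, ‖∫ w, kd 1 w * f (z - w)‖ ^ 2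
              ≤ ∫ _ in K, (1 / (2 * Real.pi * 1) * (V + B)) ^ 2 :=
                integral_mono hik (integrableOn_const hK.measure_lt_top.ne) hkb
            _ = _ := by rw [setIntegral_const, smul_eq_mul, mul_comm]

end HOLB

open _root_.U3.HOLB QJ.HOL in
theorem stmtHolB : StmtHolB := by
  intro V α a b hV hα ha hb hab hbd hL2 K hK hKV
  obtain ⟨χ, hχ, hχ1, hχn⟩ := exists_cutoff hV hK hKV
  set L : Set ℂ := tsupport χ with hLdef
  have hLc : IsCompact L := hχ.supp
  have hLV : L ⊆ V := hχ.sub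
  set η : ℂ → ℂ := QE.dzb χ with hη
  have hηT : Test V η := hχ.dzb
  have hηL : tsupport η ⊆ L := tsupport_dzb_subset χ
  have hdisj : ∀ z ∈ K, z ∉ tsupport η := by
    intro z hz
    rw [notMem_tsupport_iff_eventuallyEq]
    have h1 : ∀ᶠ w in 𝓝 z, ∀ᶠ u in 𝓝 w, χ u = 1 := (hχ1 z hz).eventually_nhds
    filter_upwards [h1] with w hw1
    have h2 : χ =ᶠ[𝓝 w] fun _ => 1 := hw1
    rw [hη, dzb_congr h2, dzb_const]
    rfl
  obtain ⟨r, hr, hrd⟩ : ∃ r > 0, ∀ z ∈ K, ∀ w ∈ tsupport η, r ≤ ‖z - w‖ := by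
    have hd : Disjoint K (tsupport η) := Set.disjoint_left.2 hdisj
    obtain ⟨r, hr, h1⟩ := hd.exists_thickenings hK (isClosed_tsupport η)
    refine ⟨r, hr, fun z hz w hw1 => ?_⟩
    by_contra hlt
    push Not at hlt
    have h2 : w ∈ Metric.thickening r K := by
      rw [Metric.mem_thickening_iff]
      exact ⟨z, hz, by rw [dist_comm, dist_eq_norm]; exact hlt⟩
    exact Set.disjoint_left.1 h1 h2 (Metric.self_subset_thickening hr _ hw1)
  -- the decomposition
  have hdec : ∀ n, ∀ z ∈ K, α n z =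
      cauchy (fun w => χ w * QE.dzb (α n) w) z + cauchy (fun w => η w * α n w) z := by
    intro n z hz
    have h1 : ContDiff ℝ ∞ (fun w => χ w * α n w) := hχ.smooth.mul (hα n)
    have h2 : HasCompactSupport (fun w => χ w * α n w) := hχ.supp.mul_right
    have h3 := cauchy_dzb h1 h2 z
    have h4 : QE.dzb (fun w => χ w * α n w) = fun w => χ w * QE.dzb (α n) w + η w * α n w := by
      funext w
      rw [dzb_mul (hχ.smooth.differentiable (by simp) w) ((hα n).differentiable (by simp) w)]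
      ring
    have h5 := cauchy_add (f := fun w => χ w * QE.dzb (α n) w) (g := fun w => η w * α n w)
      (hχ.smooth.continuous.mul (contDiff_dzb (hα n)).continuous)
      hχ.supp.mul_right (hηT.smooth.continuous.mul (hα n).continuous) hηT.supp.mul_right z
    rw [h4] at h3
    rw [← h5, h3, (hχ1 z hz).self_of_nhds, one_mul]
  -- the first term
  obtain ⟨B, hB⟩ := hL2 L hLc hLV
  obtain ⟨C1, hC1⟩ := cauchy_bdd hLc hK B
  have hfirst : ∀ᶠ n in atTop, ∫ z in K, ‖cauchy (fun w => χ w * QE.dzb (α n) w) z‖ ^ 2 ≤ C1 := by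
    filter_upwards [hB] with n hn
    refine hC1 _ (hχ.smooth.mul (contDiff_dzb (hα n))) (closure_mono ?_) ?_
    · intro w hw1
      rw [Function.mem_support] at hw1 ⊢
      intro h0
      exact hw1 (by rw [h0, zero_mul])
    · refine le_trans ?_ hn
      have e : ∫ z, ‖χ z * QE.dzb (α n) z‖ ^ 2 = ∫ z in L, ‖χ z * QE.dzb (α n) z‖ ^ 2 := by
        rw [setIntegral_eq_integral_of_forall_compl_eq_zero]
        intro w hw1
        rw [image_eq_zero_of_notMem_tsupport hw1, zero_mul, norm_zero]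
        simp
      rw [e]
      have hc1 : Continuous (fun z => ‖χ z * QE.dzb (α n) z‖ ^ 2) :=
        ((hχ.smooth.continuous.mul (contDiff_dzb (hα n)).continuous).norm).pow 2
      have hc2 : Continuous (fun z => ‖QE.dzb (α n) z‖ ^ 2) :=
        ((contDiff_dzb (hα n)).continuous.norm).pow 2
      refine integral_mono (hc1.continuousOn.integrableOn_compact hLc)
        (hc2.continuousOn.integrableOn_compact hLc) fun z => ?_
      simp only [norm_mul]
      have h2 : ‖χ z‖ * ‖QE.dzb (α n) z‖ ≤ ‖QE.dzb (α n) z‖ :=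
        mul_le_of_le_one_left (norm_nonneg _) (hχn z)
      (clear * - h2; gcongr)
  -- the second term
  obtain ⟨C, hC⟩ := hbd L hLc hLV
  obtain ⟨M1, hM1⟩ : ∃ M, ∀ w, ‖η w‖ ≤ M :=
    hηT.smooth.continuous.bounded_above_of_compact_support hηT.supp
  obtain ⟨M2, hM2⟩ : ∃ M, ∀ w, ‖QE.dz η w‖ ≤ M :=
    hηT.dz.smooth.continuous.bounded_above_of_compact_support hηT.dz.supp
  have hM10 : 0 ≤ M1 := (norm_nonneg _).trans (hM1 0)
  have hM20 : 0 ≤ M2 := (norm_nonneg _).trans (hM2 0)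
  have hsecond : ∀ᶠ n in atTop, ∀ z ∈ K, ‖cauchy (fun w => η w * α n w) z‖ ^ 2 ≤
      (M1 * r⁻¹ * C + (M2 * r⁻¹ + M1 * (r ^ 2)⁻¹) * C) ^ 2 := by
    filter_upwards [hC] with n hn z hz
    have hT := test_ck hV hηT (hdisj z hz)
    have hoff : ∀ w, w ∉ L → η w = 0 := fun w hw1 =>
      image_eq_zero_of_notMem_tsupport fun h => hw1 (hηL h)
    have hb1 : ∀ w, ‖η w * ck (z - w)‖ ≤ M1 * r⁻¹ := by
      intro w
      by_cases hw1 : w ∈ tsupport η
      · rw [norm_mul]
        gcongr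
        · exact hM1 w
        · exact norm_ck_sub_le hr (hrd z hz w hw1)
      · rw [image_eq_zero_of_notMem_tsupport hw1, zero_mul, norm_zero]
        positivity
    have hb2 : ∀ w, ‖QE.dz (fun w => η w * ck (z - w)) w‖ ≤ M2 * r⁻¹ + M1 * (r ^ 2)⁻¹ := by
      intro w
      by_cases hw1 : w ∈ tsupport η
      · have hne : w ≠ z := fun h => hdisj z hz (h ▸ hw1)
        have hd : DifferentiableAt ℝ (fun w => ck (z - w)) w :=
          ((contDiffOn_ck_sub z).contDiffAt (isOpen_compl_singleton.mem_nhds hne)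
            ).differentiableAt (by simp)
        rw [dz_mul (hηT.smooth.differentiable (by simp) w) hd]
        refine (norm_add_le _ _).trans ?_
        rw [norm_mul, norm_mul]
        gcongr
        · exact hM2 w
        · exact norm_ck_sub_le hr (hrd z hz w hw1)
        · exact hM1 w
        · exact norm_dz_ck_sub_le hr (hrd z hz w hw1)
      · have h1 : (fun w => η w * ck (z - w)) =ᶠ[𝓝 w] fun _ => 0 := by
          filter_upwards [notMem_tsupport_iff_eventuallyEq.mp hw1] with u hu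
          rw [hu, Pi.zero_apply, zero_mul]
        rw [dz_congr h1, dz_const, norm_zero]
        (clear * - hM20 hr hM10; positivity)
    have hoff2 : ∀ w, w ∉ L → QE.dz (fun w => η w * ck (z - w)) w = 0 := by
      intro w hw1
      have hw2 : w ∉ tsupport η := fun h => hw1 (hηL h)
      have h1 : (fun w => η w * ck (z - w)) =ᶠ[𝓝 w] fun _ => 0 := by
        filter_upwards [notMem_tsupport_iff_eventuallyEq.mp hw2] with u hu
        rw [hu, Pi.zero_apply, zero_mul]
      rw [dz_congr h1, dz_const]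
    have e1 : cauchy (fun w => η w * α n w) z = (∫ w, (η w * ck (z - w)) * a n w) -
        ∫ w, QE.dz (fun w => η w * ck (z - w)) w * b n w := by
      rw [QJ.HOL.cauchy_eq, sub_eq_add_neg, ← integral_mul_dz hV hT (hb n).contDiffOn,
        ← integral_add (hT.integrable_mul hV (ha n).continuous.continuousOn)
          (hT.integrable_mul hV (contDiff_dz (hb n)).continuous.continuousOn)]
      refine integral_congr_ae (Filter.Eventually.of_forall fun w => ?_)
      by_cases hw1 : w ∈ V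
      · simp only [hab n w hw1]
        ring
      · have : η w = 0 := hoff w fun h => hw1 (hLV h)
        simp only [this, zero_mul, add_zero]
    rw [e1]
    have h3 := norm_integral_mul_le hLc (M := M1 * r⁻¹) (ha n).continuous
      (ψ := fun w => η w * ck (z - w)) (fun w hw1 => by rw [hoff w hw1, zero_mul])
      (fun w _ => hb1 w)
    have h4 := norm_integral_mul_le hLc (M := M2 * r⁻¹ + M1 * (r ^ 2)⁻¹) (hb n).continuous
      (ψ := QE.dz (fun w => η w * ck (z - w))) hoff2 (fun w _ => hb2 w)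
    have h5 : M1 * r⁻¹ * ∫ w in L, ‖a n w‖ ≤ M1 * r⁻¹ * C := by
      gcongr
      exact hn.1
    have h6 : (M2 * r⁻¹ + M1 * (r ^ 2)⁻¹) * ∫ w in L, ‖b n w‖ ≤
        (M2 * r⁻¹ + M1 * (r ^ 2)⁻¹) * C := by
      gcongr
      exact hn.2
    gcongr
    exact (norm_sub_le _ _).trans (add_le_add (h3.trans h5) (h4.trans h6))
  -- conclusion
  set C2 : ℝ := (M1 * r⁻¹ * C + (M2 * r⁻¹ + M1 * (r ^ 2)⁻¹) * C) ^ 2 with hC2
  refine ⟨2 * C1 + 2 * (C2 * (volume : Measure ℂ).real K), ?_⟩
  filter_upwards [hfirst, hsecond] with n hn1 hn2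
  have hc1 : Continuous (cauchy (fun w => χ w * QE.dzb (α n) w)) :=
    (contDiff_cauchy (hχ.smooth.mul (contDiff_dzb (hα n))) hχ.supp.mul_right).continuous
  have hc2 : Continuous (cauchy (fun w => η w * α n w)) :=
    (contDiff_cauchy (hηT.smooth.mul (hα n)) hηT.supp.mul_right).continuous
  have hi1 : IntegrableOn (fun z => ‖cauchy (fun w => χ w * QE.dzb (α n) w) z‖ ^ 2) K :=
    ((hc1.norm).pow 2).continuousOn.integrableOn_compact hK
  have hi2 : IntegrableOn (fun z => ‖cauchy (fun w => η w * α n w) z‖ ^ 2) K :=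
    ((hc2.norm).pow 2).continuousOn.integrableOn_compact hK
  have hsec : ∫ z in K, ‖cauchy (fun w => η w * α n w) z‖ ^ 2 ≤
      C2 * (volume : Measure ℂ).real K := by
    calc ∫ z in K, ‖cauchy (fun w => η w * α n w) z‖ ^ 2 ≤ ∫ _ in K, C2 :=
          setIntegral_mono_on hi2 (integrableOn_const hK.measure_lt_top.ne) hK.measurableSet hn2
      _ = _ := by rw [setIntegral_const, smul_eq_mul, mul_comm]
  calc ∫ z in K, ‖α n z‖ ^ 2
      ≤ ∫ z in K, (2 * ‖cauchy (fun w => χ w * QE.dzb (α n) w) z‖ ^ 2 +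
        2 * ‖cauchy (fun w => η w * α n w) z‖ ^ 2) := by
        refine setIntegral_mono_on
          ((((hα n).continuous.norm).pow 2).continuousOn.integrableOn_compact hK)
          ((hi1.const_mul 2).add (hi2.const_mul 2)) hK.measurableSet fun z hz => ?_
        rw [hdec n z hz]
        have h1 := norm_add_le (cauchy (fun w => χ w * QE.dzb (α n) w) z)
          (cauchy (fun w => η w * α n w) z)
        nlinarith only [h1, norm_nonneg (cauchy (fun w => χ w * QE.dzb (α n) w) z + cauchy (fun w => η w * α n w) z), sq_nonneg (‖cauchy (fun w => χ w * QE.dzb (α n) w) z‖ -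
            ‖cauchy (fun w => η w * α n w) z‖)]
    _ = 2 * (∫ z in K, ‖cauchy (fun w => χ w * QE.dzb (α n) w) z‖ ^ 2) +
        2 * ∫ z in K, ‖cauchy (fun w => η w * α n w) z‖ ^ 2 := by
        rw [integral_add (hi1.const_mul 2) (hi2.const_mul 2), integral_const_mul,
          integral_const_mul]
    _ ≤ _ := by (clear * - hn1 hsec; gcongr)

end

end U3


end

section

/-!
POTZ: potentials of a null triple with linear growth.
-/

open Complex MeasureTheory Filter Topology Set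
open scoped ContDiff

namespace U3

open QE QJ

noncomputable section

namespace POTZ

open QJ.POT

variable {V : Set ℂ} {σ : ℂ → ℝ}

/-! ### Linear growth -/

lemma lg_fn_mul {u : ℕ → ℂ → ℂ} (hu : LG V u) (cu : ∀ n, Continuous (u n)) {b : ℂ → ℂ}
    (hb : Continuous b) : LG V (fun n z => b z * u n z) := by
  intro K hK hKV
  obtain ⟨M, hM⟩ := hK.exists_bound_of_continuousOn hb.continuousOn
  obtain ⟨C, hC⟩ := hu K hK hKV
  refine ⟨max M 0 * C, ?_⟩
  filter_upwards [hC] with n hn z hz s hs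
  have hKs : IsCompact (K ∩ Metric.closedBall z s) := hK.inter_right Metric.isClosed_closedBall
  rw [mul_assoc]
  refine le_trans ?_ (mul_le_mul_of_nonneg_left (hn z hz s hs) (le_max_right M 0))
  rw [← integral_const_mul]
  refine setIntegral_mono_on ?_ ?_ hKs.measurableSet fun w hw => ?_
  · exact ((hb.mul (cu n)).norm).continuousOn.integrableOn_compact hKs
  · exact ((continuous_const.mul (cu n).norm)).continuousOn.integrableOn_compact hKs
  · rw [norm_mul]
    exact mul_le_mul_of_nonneg_right ((hM w hw.1).trans (le_max_left M 0)) (norm_nonneg _)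

lemma lg_conj {u : ℕ → ℂ → ℂ} (hu : LG V u) : LG V (fun n z => (starRingEnd ℂ) (u n z)) := by
  intro K hK hKV
  obtain ⟨C, hC⟩ := hu K hK hKV
  refine ⟨C, ?_⟩
  filter_upwards [hC] with n hn z hz s hs
  simpa only [RCLike.norm_conj] using hn z hz s hs

lemma lg_int {u : ℕ → ℂ → ℂ} (hu : LG V u) {K : Set ℂ} (hK : IsCompact K) (hKV : K ⊆ V) :
    ∃ C : ℝ, ∀ᶠ n in atTop, (∫ z in K, ‖u n z‖) ≤ C := by
  rcases K.eq_empty_or_nonempty with h0 | ⟨z0, hz0⟩
  · subst h0
    exact ⟨0, Filter.Eventually.of_forall fun n => by simp⟩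
  · obtain ⟨C, hC⟩ := hu K hK hKV
    obtain ⟨r, hr⟩ := hK.isBounded.subset_closedBall z0
    refine ⟨C * (max r 0 + 1), ?_⟩
    filter_upwards [hC] with n hn
    have h1 := hn z0 hz0 (max r 0 + 1) (by positivity)
    have h2 : K ∩ Metric.closedBall z0 (max r 0 + 1) = K := by
      refine inter_eq_left.mpr (hr.trans (Metric.closedBall_subset_closedBall ?_))
      have := le_max_left r 0
      linarith
    rwa [h2] at h1

lemma wz_conj {u : ℕ → ℂ → ℂ} (hu : WZ V u) : WZ V (fun n z => (starRingEnd ℂ) (u n z)) := by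
  intro ζ hζ
  have h1 := hu _ hζ.conj
  have h2 := (Complex.continuous_conj.tendsto 0).comp h1
  rw [map_zero] at h2
  refine h2.congr fun n => ?_
  change (starRingEnd ℂ) (∫ z, (starRingEnd ℂ) (ζ z) * u n z) = _
  rw [← integral_conj]
  refine integral_congr_ae (Filter.Eventually.of_forall fun z => ?_)
  simp

/-- the Cauchy transform of a localized sequence -/
lemma cauchy_small (hCau : QJ.StmtCau) {χ β : ℂ → ℂ} (hχ : Test V χ) (hβ : ContDiff ℝ ∞ β)
    {B : ℕ → ℂ → ℂ} (hsB : ∀ n, ContDiff ℝ ∞ (B n)) (gB : LG V B) (wB : WZ V B) :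
    L2z V (fun n => cauchy (fun w => χ w * β w * B n w)) := by
  intro K1 hK1 hK1V
  have hL : IsCompact (tsupport χ) := hχ.supp
  have hcs : HasCompactSupport (fun z => χ z * β z) := hχ.supp.mul_right
  obtain ⟨M, hM⟩ := (hχ.smooth.mul hβ).continuous.bounded_above_of_compact_support hcs
  have hM0 : 0 ≤ M := (norm_nonneg _).trans (hM 0)
  obtain ⟨G, hG⟩ := gB (tsupport χ ∪ K1) (hL.union hK1) (union_subset hχ.sub hK1V)
  have sf : ∀ n, ContDiff ℝ ∞ (fun w => χ w * β w * B n w) := fun n =>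
    (hχ.smooth.mul hβ).mul (hsB n)
  refine hCau (tsupport χ) K1 (fun n z => ‖χ z * β z * B n z‖)
    (fun n w => χ w * β w * B n w) (M * G) hL hK1 (fun n z => norm_nonneg _)
    (fun n => (sf n).continuous.norm) ?_ sf (fun n => ?_) ?_ (fun ψ hψ => ?_)
  · filter_upwards [hG] with n hn z hz s hs
    have hKs : IsCompact (tsupport χ ∩ Metric.closedBall z s) :=
      hL.inter_right Metric.isClosed_closedBall
    have hKs' : IsCompact ((tsupport χ ∪ K1) ∩ Metric.closedBall z s) :=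
      (hL.union hK1).inter_right Metric.isClosed_closedBall
    have cB : Continuous (fun w => ‖B n w‖) := (hsB n).continuous.norm
    calc ∫ w in tsupport χ ∩ Metric.closedBall z s, ‖χ w * β w * B n w‖
        ≤ ∫ w in tsupport χ ∩ Metric.closedBall z s, M * ‖B n w‖ := by
          refine setIntegral_mono_on ?_ ?_ hKs.measurableSet fun w _ => ?_
          · exact ((sf n).continuous.norm).continuousOn.integrableOn_compact hKs
          · exact (continuous_const.mul cB).continuousOn.integrableOn_compact hKs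
          · rw [norm_mul]
            exact mul_le_mul_of_nonneg_right (hM w) (norm_nonneg _)
      _ = M * ∫ w in tsupport χ ∩ Metric.closedBall z s, ‖B n w‖ := integral_const_mul _ _
      _ ≤ M * ∫ w in (tsupport χ ∪ K1) ∩ Metric.closedBall z s, ‖B n w‖ := by
          refine mul_le_mul_of_nonneg_left ?_ hM0
          refine setIntegral_mono_set ?_ ?_ ?_
          · exact cB.continuousOn.integrableOn_compact hKs'
          · exact Filter.Eventually.of_forall fun w => norm_nonneg _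
          · exact (inter_subset_inter_left _ subset_union_left).eventuallyLE
      _ ≤ M * (G * s) := mul_le_mul_of_nonneg_left (hn z (Or.inr hz) s hs) hM0
      _ = M * G * s := by ring
  · exact closure_mono fun z hz => left_ne_zero_of_mul (left_ne_zero_of_mul hz)
  · exact Filter.Eventually.of_forall fun n z _ => le_rfl
  · have h1 : Test V (fun z => χ z * (β z * ψ z)) := test_mul hχ (hβ.mul hψ)
    refine (wB _ h1).congr fun n => ?_
    refine integral_congr_ae (Filter.Eventually.of_forall fun z => ?_)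
    change χ z * (β z * ψ z) * B n z = ψ z * (χ z * β z * B n z)
    ring

/-! ### One half of the potentials -/

lemma half (hCau : QJ.StmtCau) (hHol : QJ.StmtHol) (N : ℤ) (A B : ℕ → ℂ → ℂ)
    (hσ : ContDiff ℝ ∞ σ) (hsA : ∀ n, ContDiff ℝ ∞ (A n)) (hsB : ∀ n, ContDiff ℝ ∞ (B n))
    (gA : LG V A) (gB : LG V B) (wA : WZ V A) (wB : WZ V B)
    (eA : L2z V (fun n z => Db σ (N + 2) (A n) z + D σ N (B n) z)) {χ : ℂ → ℂ} (hχ : Test V χ)
    {V' : Set ℂ} (hV' : IsOpen V') (hVV : V' ⊆ V) (h1 : ∀ z ∈ V', χ z = 1) :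
    ∃ x : ℕ → ℂ → ℂ, (∀ n, ContDiff ℝ ∞ (x n)) ∧
      (∀ n, ∀ z ∈ V', Db σ (N + 1) (x n) z = - B n z) ∧ L2z V' x ∧
      L2z V' (fun n z => A n z - D σ (N + 1) (x n) z) ∧
      L2z V' (fun n z => Db σ (N + 2) (fun w => A n w - D σ (N + 1) (x n) w) z) := by
  set β : ℂ → ℂ := fun z => -(1 / 2) * ex σ (N + 2) z with hβdef
  have hβ : ContDiff ℝ ∞ β := contDiff_const.mul (contDiff_ex hσ _)
  set f : ℕ → ℂ → ℂ := fun n w => χ w * β w * B n w with hf
  have sf : ∀ n, ContDiff ℝ ∞ (f n) := fun n => (hχ.smooth.mul hβ).mul (hsB n)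
  have cf : ∀ n, HasCompactSupport (f n) := fun n => (hχ.supp.mul_right).mul_right
  have sxh : ∀ n, ContDiff ℝ ∞ (cauchy (f n)) := fun n => contDiff_cauchy (sf n) (cf n)
  have lxh : L2z V (fun n => cauchy (f n)) := cauchy_small hCau hχ hβ hsB gB wB
  set x : ℕ → ℂ → ℂ := fun n z => ex σ (-(N + 1)) z * cauchy (f n) z with hx
  have sx : ∀ n, ContDiff ℝ ∞ (x n) := fun n => (contDiff_ex hσ _).mul (sxh n)
  have hDb : ∀ n z, Db σ (N + 1) (x n) z = - (χ z * B n z) := by
    intro n z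
    have e1 : (fun w => ex σ (N + 1) w * x n w) = cauchy (f n) := by
      funext w
      change ex σ (N + 1) w * (ex σ (-(N + 1)) w * cauchy (f n) w) = _
      rw [← mul_assoc, ex_mul, show N + 1 + -(N + 1) = 0 by ring, ex_zero, one_mul]
    unfold Db
    rw [e1, dzb_cauchy (sf n) (cf n)]
    have e2 : ex σ (-(N + 1) - 1) z * ex σ (N + 2) z = 1 := by
      rw [ex_mul, show -(N + 1) - 1 + (N + 2) = 0 by ring, ex_zero]
    change 2 * ex σ (-(N + 1) - 1) z * (χ z * (-(1 / 2) * ex σ (N + 2) z) * B n z) = _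
    linear_combination (-(χ z * B n z)) * e2
  have hxV : ∀ n, ∀ z ∈ V', Db σ (N + 1) (x n) z = - B n z := by
    intro n z hz
    rw [hDb, h1 z hz, one_mul]
  have lx : L2z V' x :=
    l2z_mono hVV (l2z_fn_mul lxh (fun n => (sxh n).continuous) (contDiff_ex hσ _).continuous)
  have cx : ∀ n, Continuous (x n) := fun n => (sx n).continuous
  -- the derivative of `α`
  have hcurv : Continuous (curv σ) := by
    unfold curv
    exact ((continuous_const.mul (contDiff_ex hσ _).continuous).mul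
      (contDiff_dz (contDiff_dzb (contDiff_sig hσ))).continuous).neg
  have sα : ∀ n, ContDiff ℝ ∞ (fun w => A n w - D σ (N + 1) (x n) w) := fun n =>
    (hsA n).sub (contDiff_D hσ _ (sx n))
  have hlda : ∀ n, ∀ z ∈ V', (Db σ (N + 2) (A n) z + D σ N (B n) z)
      + (-(2 * (N + 1 : ℤ)) * curv σ z) * x n z =
      Db σ (N + 2) (fun w => A n w - D σ (N + 1) (x n) w) z := by
    intro n z hz
    rw [Db_sub hσ _ (cd_at (hsA n) z) (cd_at (contDiff_D hσ _ (sx n)) z)]
    have e1 := comm hσ (N + 1) (sx n) z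
    rw [show N + 1 + 1 = N + 2 by ring, show N + 1 - 1 = N by ring] at e1
    have e2 : D σ N (Db σ (N + 1) (x n)) z = - D σ N (B n) z := by
      rw [D_congr_on hV' N (g := fun w => (-1) * B n w) (fun w hw => by
        rw [hxV n w hw, neg_one_mul]) hz, D_const_mul hσ N (-1) (cd_at (hsB n) z),
        neg_one_mul]
    rw [e1, e2]
    ring
  have hlda' : L2z V' (fun n z => Db σ (N + 2) (fun w => A n w - D σ (N + 1) (x n) w) z) := by
    refine l2z_congr (l2z_add (l2z_mono hVV eA) (fun n =>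
      ((contDiff_Db hσ _ (hsA n)).add (contDiff_D hσ _ (hsB n))).continuous)
      (l2z_fn_mul lx cx (b := fun z => -(2 * (N + 1 : ℤ)) * curv σ z)
        (continuous_const.mul hcurv)) (fun n => (continuous_const.mul hcurv).mul (cx n))) hlda
  -- `α` itself
  set g : ℕ → ℂ → ℂ := fun n z => ex σ (-(N + 1)) z * x n z with hg
  have sg : ∀ n, ContDiff ℝ ∞ (g n) := fun n => (contDiff_ex hσ _).mul (sx n)
  have cg : ∀ n, Continuous (g n) := fun n => (sg n).continuous
  have lg : L2z V' g := l2z_fn_mul lx cx (contDiff_ex hσ _).continuous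
  have hDx : ∀ n z, ex σ (N + 2) z * D σ (N + 1) (x n) z =
      2 * ex σ (2 * N + 2) z * dz (g n) z := by
    intro n z
    have e2 : ex σ (N + 2) z * ex σ (N + 1 - 1) z = ex σ (2 * N + 2) z := by
      rw [ex_mul]
      congr 1
      ring
    unfold D
    change ex σ (N + 2) z * (2 * ex σ (N + 1 - 1) z * dz (g n) z) = _
    rw [← e2]
    ring
  set E2 : ℂ → ℂ := ex σ (2 * N + 2) with hE2
  have sE2 : ContDiff ℝ ∞ E2 := contDiff_ex hσ _
  set a : ℕ → ℂ → ℂ := fun n z => ex σ (N + 2) z * A n z + 2 * dz E2 z * g n z with ha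
  set b : ℕ → ℂ → ℂ := fun n z => (-2) * (E2 z * g n z) with hb
  have sb' : ∀ n, ContDiff ℝ ∞ (fun z => E2 z * g n z) := fun n => sE2.mul (sg n)
  have sb : ∀ n, ContDiff ℝ ∞ (b n) := fun n => contDiff_const.mul (sb' n)
  have sa1 : ∀ n, ContDiff ℝ ∞ (fun z => ex σ (N + 2) z * A n z) := fun n =>
    (contDiff_ex hσ _).mul (hsA n)
  have hc2 : ContDiff ℝ ∞ (fun z => 2 * dz E2 z) := contDiff_const.mul (contDiff_dz sE2)
  have sa2 : ∀ n, ContDiff ℝ ∞ (fun z => 2 * dz E2 z * g n z) := fun n => hc2.mul (sg n)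
  have sa : ∀ n, ContDiff ℝ ∞ (a n) := fun n => (sa1 n).add (sa2 n)
  set αh : ℕ → ℂ → ℂ := fun n z => ex σ (N + 2) z * (A n z - D σ (N + 1) (x n) z) with hαh
  have sαh : ∀ n, ContDiff ℝ ∞ (αh n) := fun n => (contDiff_ex hσ _).mul (sα n)
  have hαh' : L2z V' αh := by
    refine hHol V' αh a b hV' sαh sa sb (fun n z _ => ?_) (fun K hK hKV => ?_) ?_ (fun ζ hζ => ?_)
    · have e1 : dz (b n) z = (-2) * (dz E2 z * g n z + E2 z * dz (g n) z) := by
        change dz (fun z => (-2) * (E2 z * g n z)) z = _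
        rw [dz_const_mul _ (cd_at (sb' n) z), dz_mul (cd_at sE2 z) (cd_at (sg n) z)]
      change ex σ (N + 2) z * (A n z - D σ (N + 1) (x n) z) =
        ex σ (N + 2) z * A n z + 2 * dz E2 z * g n z + dz (b n) z
      rw [e1]
      linear_combination -hDx n z
    · obtain ⟨C1, hC1⟩ := lg_int (lg_fn_mul gA (fun n => (hsA n).continuous)
        (contDiff_ex hσ (N + 2)).continuous) hK (hKV.trans hVV)
      have t1 := l2z_int (l2z_fn_mul lg cg hc2.continuous) (fun n => (sa2 n).continuous) hK hKV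
      have t2 := l2z_int (l2z_fn_mul lg cg (b := fun z => (-2) * E2 z)
        (continuous_const.mul sE2.continuous))
        (fun n => (continuous_const.mul sE2.continuous).mul (cg n)) hK hKV
      refine ⟨C1 + 1 + 1, ?_⟩
      have u1 := (tendsto_order.1 t1).2 1 one_pos
      have u2 := (tendsto_order.1 t2).2 1 one_pos
      filter_upwards [hC1, u1, u2] with n k1 k2 k3
      have i1 : IntegrableOn (fun z => ‖ex σ (N + 2) z * A n z‖) K :=
        ((sa1 n).continuous.norm).continuousOn.integrableOn_compact hK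
      have i2 : IntegrableOn (fun z => ‖2 * dz E2 z * g n z‖) K :=
        ((sa2 n).continuous.norm).continuousOn.integrableOn_compact hK
      have k0 : 0 ≤ ∫ z in K, ‖ex σ (N + 2) z * A n z‖ := integral_nonneg fun z => norm_nonneg _
      constructor
      · have j1 : ∫ z in K, ‖a n z‖ ≤ ∫ z in K, (‖ex σ (N + 2) z * A n z‖
            + ‖2 * dz E2 z * g n z‖) :=
          setIntegral_mono_on (((sa n).continuous.norm).continuousOn.integrableOn_compact hK)
            (i1.add i2) hK.measurableSet fun z _ => norm_add_le _ _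
        rw [integral_add i1 i2] at j1
        linarith
      · have j2 : ∫ z in K, ‖b n z‖ = ∫ z in K, ‖(-2) * E2 z * g n z‖ := by
          refine setIntegral_congr_fun hK.measurableSet fun z _ => ?_
          change ‖(-2) * (E2 z * g n z)‖ = ‖(-2) * E2 z * g n z‖
          rw [mul_assoc]
        rw [j2]
        linarith
    · refine l2z_congr (l2z_fn_mul hlda' (fun n => (contDiff_Db hσ _ (sα n)).continuous)
        (b := fun z => (1 / 2) * ex σ (N + 3) z)
        (continuous_const.mul (contDiff_ex hσ _).continuous)) fun n z _ => ?_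
      have e2 : ex σ (N + 3) z * ex σ (-(N + 2) - 1) z = 1 := by
        rw [ex_mul, show N + 3 + (-(N + 2) - 1) = 0 by ring, ex_zero]
      change (1 / 2) * ex σ (N + 3) z * (2 * ex σ (-(N + 2) - 1) z * dzb (αh n) z) = dzb (αh n) z
      linear_combination (dzb (αh n) z) * e2
    · have w1 := wA _ (test_mul (hζ.mono hVV) (contDiff_ex hσ (N + 2)))
      have tζ : Test V' (fun z => ζ z * (2 * E2 z)) := test_mul hζ (contDiff_const.mul sE2)
      have w2 := l2z_test lg cg tζ.dz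
      have w3 := w1.add w2
      rw [add_zero] at w3
      refine w3.congr fun n => ?_
      have p1 := integral_mul_dz hV' tζ (sg n).contDiffOn
      have i1 : Integrable (fun z => ζ z * ex σ (N + 2) z * A n z) :=
        test_int (test_mul (hζ.mono hVV) (contDiff_ex hσ (N + 2))) (hsA n).continuous
      have i2 : Integrable (fun z => ζ z * (2 * E2 z) * dz (g n) z) :=
        test_int tζ (contDiff_dz (sg n)).continuous
      have e3 : ∫ z, ζ z * αh n z = (∫ z, ζ z * ex σ (N + 2) z * A n z)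
          - ∫ z, ζ z * (2 * E2 z) * dz (g n) z := by
        rw [← integral_sub i1 i2]
        refine integral_congr_ae (Filter.Eventually.of_forall fun z => ?_)
        change ζ z * (ex σ (N + 2) z * (A n z - D σ (N + 1) (x n) z)) =
          ζ z * ex σ (N + 2) z * A n z - ζ z * (2 * E2 z) * dz (g n) z
        linear_combination (-ζ z) * hDx n z
      rw [e3, p1]
      ring
  refine ⟨x, sx, hxV, lx, ?_, hlda'⟩
  refine l2z_congr (l2z_fn_mul hαh' (fun n => (sαh n).continuous)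
    (contDiff_ex hσ (-(N + 2))).continuous) fun n z _ => ?_
  change ex σ (-(N + 2)) z * (ex σ (N + 2) z * (A n z - D σ (N + 1) (x n) z)) = _
  rw [← mul_assoc, ex_mul, show -(N + 2) + (N + 2) = 0 by ring, ex_zero, one_mul]

end POTZ

open _root_.U3.POTZ QJ.POT in
theorem stmtPotZ (hCau : QJ.StmtCau) (hHol : QJ.StmtHol) : StmtPotZ := by
  intro V σ N A B C hV hσ hT K hK hKV
  obtain ⟨χ, hχ, hχ1, -⟩ := exists_cutoff hV hK hKV
  set V' : Set ℂ := interior {z | χ z = 1} with hV'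
  have oV' : IsOpen V' := isOpen_interior
  have hKV' : K ⊆ V' := fun z hz => mem_interior_iff_mem_nhds.mpr (hχ1 z hz)
  have h1 : ∀ z ∈ V', χ z = 1 := by
    intro z hz
    have : z ∈ {z | χ z = 1} := interior_subset hz
    exact this
  have hVV : V' ⊆ V := by
    intro z hz
    apply hχ.sub
    apply subset_tsupport
    rw [Function.mem_support, h1 z hz]
    exact one_ne_zero
  obtain ⟨x, sx, hx, lx, la, lda⟩ := half hCau hHol N A B hσ hT.sA hT.sB hT.gA hT.gB
    hT.wA hT.wB hT.eA hχ oV' hVV h1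
  have eC' : L2z V (fun n z => Db σ (-N + 2) (fun w => (starRingEnd ℂ) (C n w)) z
      + D σ (-N) (fun w => (starRingEnd ℂ) (B n w)) z) := by
    refine l2z_congr (l2z_conj hT.eC) fun n z _ => ?_
    rw [Db_conj _ hσ (cd_at (hT.sC n) z), D_conj _ hσ (cd_at (hT.sB n) z),
      show -(-N + 2) = N - 2 by ring, neg_neg, map_add]
  obtain ⟨y, sy, hy, ly, lc, ldc⟩ := half hCau hHol (-N)
    (fun n w => (starRingEnd ℂ) (C n w)) (fun n w => (starRingEnd ℂ) (B n w)) hσ
    (fun n => conjCLE.contDiff.comp (hT.sC n)) (fun n => conjCLE.contDiff.comp (hT.sB n))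
    (lg_conj hT.gC) (lg_conj hT.gB) (wz_conj hT.wC) (wz_conj hT.wB) eC' hχ oV' hVV h1
  refine ⟨V', x, fun n z => (starRingEnd ℂ) (y n z), oV', hKV', hVV, ?_⟩
  have hDby : ∀ n z, Db σ (N - 1) (fun w => (starRingEnd ℂ) (y n w)) z =
      (starRingEnd ℂ) (D σ (-N + 1) (y n) z) := by
    intro n z
    rw [Db_conj _ hσ (cd_at (sy n) z), show -(N - 1) = -N + 1 by ring]
  have hγ : ∀ n z, (starRingEnd ℂ) ((starRingEnd ℂ) (C n z) - D σ (-N + 1) (y n) z) =
      C n z - Db σ (N - 1) (fun w => (starRingEnd ℂ) (y n w)) z := by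
    intro n z
    rw [hDby, map_sub, starRingEnd_self_apply]
  exact
    { sx := sx
      sy := fun n => conjCLE.contDiff.comp (sy n)
      hx := hx
      hy := fun n z hz => by
        rw [D_conj _ hσ (cd_at (sy n) z), show -(N - 1) = -N + 1 by ring, hy n z hz, map_neg,
          starRingEnd_self_apply]
      lx := lx
      ly := l2z_conj ly
      la := la
      lc := l2z_congr (l2z_conj lc) fun n z _ => hγ n z
      lda := lda
      ldc := by
        refine l2z_congr (l2z_conj ldc) fun n z _ => ?_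
        have e1 : (fun w => C n w - Db σ (N - 1) (fun w => (starRingEnd ℂ) (y n w)) w) =
            fun w => (starRingEnd ℂ) ((starRingEnd ℂ) (C n w) - D σ (-N + 1) (y n) w) := by
          funext w
          exact (hγ n w).symm
        have sy' : ContDiff ℝ ∞ (fun w => (starRingEnd ℂ) (C n w) - D σ (-N + 1) (y n) w) :=
          (conjCLE.contDiff.comp (hT.sC n)).sub (contDiff_D hσ _ (sy n))
        rw [e1, D_conj (N - 2) hσ (cd_at sy' z), show -(N - 2) = -N + 2 by ring] }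

end

end U3


end

section

/-!
POTB: potentials of a triple with linear growth, bounded in `L²`.
-/

open Complex MeasureTheory Filter Topology Set
open scoped ContDiff

namespace U3

open QE QJ

noncomputable section

namespace POTB

open QJ.POT U3.POTZ

variable {V : Set ℂ} {σ : ℂ → ℝ}

/-! ### Bounded sequences in `L²` -/

lemma l2b_of_l2z {u : ℕ → ℂ → ℂ} (hu : L2z V u) : L2b V u := by
  intro K hK hKV
  refine ⟨1, ?_⟩
  filter_upwards [(tendsto_order.1 (hu K hK hKV)).2 1 one_pos] with n hn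
  exact hn.le

lemma l2b_mono {V V' : Set ℂ} (hVV : V' ⊆ V) {u : ℕ → ℂ → ℂ} (hu : L2b V u) : L2b V' u :=
  fun K hK hKV => hu K hK (hKV.trans hVV)

lemma l2b_congr {u v : ℕ → ℂ → ℂ} (hu : L2b V u) (he : ∀ n, ∀ z ∈ V, u n z = v n z) :
    L2b V v := by
  intro K hK hKV
  obtain ⟨C, hC⟩ := hu K hK hKV
  refine ⟨C, ?_⟩
  filter_upwards [hC] with n hn
  refine le_trans (le_of_eq ?_) hn
  refine setIntegral_congr_fun hK.measurableSet fun z hz => ?_
  change ‖v n z‖ ^ 2 = ‖u n z‖ ^ 2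
  rw [he n z (hKV hz)]

lemma l2b_fn_mul {u : ℕ → ℂ → ℂ} (hu : L2b V u) (cu : ∀ n, Continuous (u n)) {b : ℂ → ℂ}
    (hb : Continuous b) : L2b V (fun n z => b z * u n z) := by
  intro K hK hKV
  obtain ⟨M, hM⟩ := hK.exists_bound_of_continuousOn hb.continuousOn
  obtain ⟨C, hC⟩ := hu K hK hKV
  refine ⟨M ^ 2 * C, ?_⟩
  filter_upwards [hC] with n hn
  refine le_trans ?_ (mul_le_mul_of_nonneg_left hn (sq_nonneg M))
  rw [← integral_const_mul]
  refine setIntegral_mono_on (intOn (hb.mul (cu n)) hK 2) ((intOn (cu n) hK 2).const_mul _)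
    hK.measurableSet fun z hz => ?_
  rw [norm_mul, mul_pow]
  have := hM z hz
  gcongr

lemma l2b_add {u v : ℕ → ℂ → ℂ} (hu : L2b V u) (cu : ∀ n, Continuous (u n)) (hv : L2b V v)
    (cv : ∀ n, Continuous (v n)) : L2b V (fun n z => u n z + v n z) := by
  intro K hK hKV
  obtain ⟨C1, hC1⟩ := hu K hK hKV
  obtain ⟨C2, hC2⟩ := hv K hK hKV
  refine ⟨2 * C1 + 2 * C2, ?_⟩
  filter_upwards [hC1, hC2] with n h1 h2
  have h3 : ∫ z in K, ‖u n z + v n z‖ ^ 2 ≤
      2 * (∫ z in K, ‖u n z‖ ^ 2) + 2 * ∫ z in K, ‖v n z‖ ^ 2 := by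
    rw [← integral_const_mul, ← integral_const_mul, ← integral_add
      ((intOn (cu n) hK 2).const_mul _) ((intOn (cv n) hK 2).const_mul _)]
    refine setIntegral_mono_on (intOn ((cu n).add (cv n)) hK 2)
      (((intOn (cu n) hK 2).const_mul _).add ((intOn (cv n) hK 2).const_mul _))
      hK.measurableSet fun z _ => ?_
    have a3 : ‖u n z + v n z‖ ^ 2 ≤ (‖u n z‖ + ‖v n z‖) ^ 2 := by gcongr; exact norm_add_le _ _
    change ‖u n z + v n z‖ ^ 2 ≤ 2 * ‖u n z‖ ^ 2 + 2 * ‖v n z‖ ^ 2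
    nlinarith [sq_nonneg (‖u n z‖ - ‖v n z‖)]
  linarith

lemma l2b_conj {u : ℕ → ℂ → ℂ} (hu : L2b V u) :
    L2b V (fun n z => (starRingEnd ℂ) (u n z)) := by
  intro K hK hKV
  obtain ⟨C, hC⟩ := hu K hK hKV
  refine ⟨C, ?_⟩
  filter_upwards [hC] with n hn
  simpa only [RCLike.norm_conj] using hn

lemma l2b_int {u : ℕ → ℂ → ℂ} (hu : L2b V u) (cu : ∀ n, Continuous (u n)) {K : Set ℂ}
    (hK : IsCompact K) (hKV : K ⊆ V) : ∃ C : ℝ, ∀ᶠ n in atTop, (∫ z in K, ‖u n z‖) ≤ C := by
  obtain ⟨C, hC⟩ := hu K hK hKV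
  refine ⟨(volume : Measure ℂ).real K + C, ?_⟩
  filter_upwards [hC] with n hn
  have h1 : ∫ z in K, (1 + ‖u n z‖ ^ 2) =
      (volume : Measure ℂ).real K + ∫ z in K, ‖u n z‖ ^ 2 := by
    rw [integral_add (continuous_const.continuousOn.integrableOn_compact hK) (intOn (cu n) hK 2),
      setIntegral_const, smul_eq_mul, mul_one]
  have h2 := intOn (cu n) hK 1
  simp only [pow_one] at h2
  have h3 : ∫ z in K, ‖u n z‖ ≤ ∫ z in K, (1 + ‖u n z‖ ^ 2) :=
    setIntegral_mono_on h2 ((continuous_const.continuousOn.integrableOn_compact hK).add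
      (intOn (cu n) hK 2)) hK.measurableSet fun z _ => by
        linarith only [sq_nonneg (‖u n z‖ - 1), norm_nonneg (u n z)]
  linarith

/-- the Cauchy transform of a localized sequence -/
lemma cauchy_bdd (hCau : StmtCauB) {χ β : ℂ → ℂ} (hχ : Test V χ) (hβ : ContDiff ℝ ∞ β)
    {B : ℕ → ℂ → ℂ} (hsB : ∀ n, ContDiff ℝ ∞ (B n)) (gB : LG V B) :
    L2b V (fun n => cauchy (fun w => χ w * β w * B n w)) := by
  intro K1 hK1 hK1V
  have hL : IsCompact (tsupport χ) := hχ.supp
  have hcs : HasCompactSupport (fun z => χ z * β z) := hχ.supp.mul_right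
  obtain ⟨M, hM⟩ := (hχ.smooth.mul hβ).continuous.bounded_above_of_compact_support hcs
  have hM0 : 0 ≤ M := (norm_nonneg _).trans (hM 0)
  obtain ⟨G, hG⟩ := gB (tsupport χ ∪ K1) (hL.union hK1) (union_subset hχ.sub hK1V)
  have sf : ∀ n, ContDiff ℝ ∞ (fun w => χ w * β w * B n w) := fun n =>
    (hχ.smooth.mul hβ).mul (hsB n)
  refine hCau (tsupport χ) K1 (fun n w => χ w * β w * B n w) (M * G) hL hK1 sf (fun n => ?_) ?_
  · exact closure_mono fun z hz => left_ne_zero_of_mul (left_ne_zero_of_mul hz)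
  · filter_upwards [hG] with n hn z hz s hs
    have hKs : IsCompact (tsupport χ ∩ Metric.closedBall z s) :=
      hL.inter_right Metric.isClosed_closedBall
    have hKs' : IsCompact ((tsupport χ ∪ K1) ∩ Metric.closedBall z s) :=
      (hL.union hK1).inter_right Metric.isClosed_closedBall
    have cB : Continuous (fun w => ‖B n w‖) := (hsB n).continuous.norm
    calc ∫ w in tsupport χ ∩ Metric.closedBall z s, ‖χ w * β w * B n w‖
        ≤ ∫ w in tsupport χ ∩ Metric.closedBall z s, M * ‖B n w‖ := by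
          refine setIntegral_mono_on ?_ ?_ hKs.measurableSet fun w _ => ?_
          · exact ((sf n).continuous.norm).continuousOn.integrableOn_compact hKs
          · exact (continuous_const.mul cB).continuousOn.integrableOn_compact hKs
          · rw [norm_mul]
            exact mul_le_mul_of_nonneg_right (hM w) (norm_nonneg _)
      _ = M * ∫ w in tsupport χ ∩ Metric.closedBall z s, ‖B n w‖ := integral_const_mul _ _
      _ ≤ M * ∫ w in (tsupport χ ∪ K1) ∩ Metric.closedBall z s, ‖B n w‖ := by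
          refine mul_le_mul_of_nonneg_left ?_ hM0
          refine setIntegral_mono_set ?_ ?_ ?_
          · exact cB.continuousOn.integrableOn_compact hKs'
          · exact Filter.Eventually.of_forall fun w => norm_nonneg _
          · exact (inter_subset_inter_left _ subset_union_left).eventuallyLE
      _ ≤ M * (G * s) := mul_le_mul_of_nonneg_left (hn z (Or.inr hz) s hs) hM0
      _ = M * G * s := by ring

/-! ### One half of the potentials -/

lemma half (hCau : StmtCauB) (hHol : StmtHolB) (N : ℤ) (A B : ℕ → ℂ → ℂ)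
    (hσ : ContDiff ℝ ∞ σ) (hsA : ∀ n, ContDiff ℝ ∞ (A n)) (hsB : ∀ n, ContDiff ℝ ∞ (B n))
    (gA : LG V A) (gB : LG V B)
    (eA : L2b V (fun n z => Db σ (N + 2) (A n) z + D σ N (B n) z)) {χ : ℂ → ℂ} (hχ : Test V χ)
    {V' : Set ℂ} (hV' : IsOpen V') (hVV : V' ⊆ V) (h1 : ∀ z ∈ V', χ z = 1) :
    ∃ x : ℕ → ℂ → ℂ, (∀ n, ContDiff ℝ ∞ (x n)) ∧
      (∀ n, ∀ z ∈ V', Db σ (N + 1) (x n) z = - B n z) ∧ L2b V' x ∧
      L2b V' (fun n z => A n z - D σ (N + 1) (x n) z) ∧
      L2b V' (fun n z => Db σ (N + 2) (fun w => A n w - D σ (N + 1) (x n) w) z) := by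
  set β : ℂ → ℂ := fun z => -(1 / 2) * ex σ (N + 2) z with hβdef
  have hβ : ContDiff ℝ ∞ β := contDiff_const.mul (contDiff_ex hσ _)
  set f : ℕ → ℂ → ℂ := fun n w => χ w * β w * B n w with hf
  have sf : ∀ n, ContDiff ℝ ∞ (f n) := fun n => (hχ.smooth.mul hβ).mul (hsB n)
  have cf : ∀ n, HasCompactSupport (f n) := fun n => (hχ.supp.mul_right).mul_right
  have sxh : ∀ n, ContDiff ℝ ∞ (cauchy (f n)) := fun n => contDiff_cauchy (sf n) (cf n)
  have lxh : L2b V (fun n => cauchy (f n)) := cauchy_bdd hCau hχ hβ hsB gB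
  set x : ℕ → ℂ → ℂ := fun n z => ex σ (-(N + 1)) z * cauchy (f n) z with hx
  have sx : ∀ n, ContDiff ℝ ∞ (x n) := fun n => (contDiff_ex hσ _).mul (sxh n)
  have hDb : ∀ n z, Db σ (N + 1) (x n) z = - (χ z * B n z) := by
    intro n z
    have e1 : (fun w => ex σ (N + 1) w * x n w) = cauchy (f n) := by
      funext w
      change ex σ (N + 1) w * (ex σ (-(N + 1)) w * cauchy (f n) w) = _
      rw [← mul_assoc, ex_mul, show N + 1 + -(N + 1) = 0 by ring, ex_zero, one_mul]
    unfold Db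
    rw [e1, dzb_cauchy (sf n) (cf n)]
    have e2 : ex σ (-(N + 1) - 1) z * ex σ (N + 2) z = 1 := by
      rw [ex_mul, show -(N + 1) - 1 + (N + 2) = 0 by ring, ex_zero]
    change 2 * ex σ (-(N + 1) - 1) z * (χ z * (-(1 / 2) * ex σ (N + 2) z) * B n z) = _
    linear_combination (-(χ z * B n z)) * e2
  have hxV : ∀ n, ∀ z ∈ V', Db σ (N + 1) (x n) z = - B n z := by
    intro n z hz
    rw [hDb, h1 z hz, one_mul]
  have lx : L2b V' x :=
    l2b_mono hVV (l2b_fn_mul lxh (fun n => (sxh n).continuous) (contDiff_ex hσ _).continuous)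
  have cx : ∀ n, Continuous (x n) := fun n => (sx n).continuous
  -- the derivative of `α`
  have hcurv : Continuous (curv σ) := by
    unfold curv
    exact ((continuous_const.mul (contDiff_ex hσ _).continuous).mul
      (contDiff_dz (contDiff_dzb (contDiff_sig hσ))).continuous).neg
  have sα : ∀ n, ContDiff ℝ ∞ (fun w => A n w - D σ (N + 1) (x n) w) := fun n =>
    (hsA n).sub (contDiff_D hσ _ (sx n))
  have hlda : ∀ n, ∀ z ∈ V', (Db σ (N + 2) (A n) z + D σ N (B n) z)
      + (-(2 * (N + 1 : ℤ)) * curv σ z) * x n z =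
      Db σ (N + 2) (fun w => A n w - D σ (N + 1) (x n) w) z := by
    intro n z hz
    rw [Db_sub hσ _ (cd_at (hsA n) z) (cd_at (contDiff_D hσ _ (sx n)) z)]
    have e1 := comm hσ (N + 1) (sx n) z
    rw [show N + 1 + 1 = N + 2 by ring, show N + 1 - 1 = N by ring] at e1
    have e2 : D σ N (Db σ (N + 1) (x n)) z = - D σ N (B n) z := by
      rw [D_congr_on hV' N (g := fun w => (-1) * B n w) (fun w hw => by
        rw [hxV n w hw, neg_one_mul]) hz, D_const_mul hσ N (-1) (cd_at (hsB n) z),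
        neg_one_mul]
    rw [e1, e2]
    ring
  have hlda' : L2b V' (fun n z => Db σ (N + 2) (fun w => A n w - D σ (N + 1) (x n) w) z) := by
    refine l2b_congr (l2b_add (l2b_mono hVV eA) (fun n =>
      ((contDiff_Db hσ _ (hsA n)).add (contDiff_D hσ _ (hsB n))).continuous)
      (l2b_fn_mul lx cx (b := fun z => -(2 * (N + 1 : ℤ)) * curv σ z)
        (continuous_const.mul hcurv)) (fun n => (continuous_const.mul hcurv).mul (cx n))) hlda
  -- `α` itself
  set g : ℕ → ℂ → ℂ := fun n z => ex σ (-(N + 1)) z * x n z with hg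
  have sg : ∀ n, ContDiff ℝ ∞ (g n) := fun n => (contDiff_ex hσ _).mul (sx n)
  have cg : ∀ n, Continuous (g n) := fun n => (sg n).continuous
  have lg : L2b V' g := l2b_fn_mul lx cx (contDiff_ex hσ _).continuous
  have hDx : ∀ n z, ex σ (N + 2) z * D σ (N + 1) (x n) z =
      2 * ex σ (2 * N + 2) z * dz (g n) z := by
    intro n z
    have e2 : ex σ (N + 2) z * ex σ (N + 1 - 1) z = ex σ (2 * N + 2) z := by
      rw [ex_mul]
      congr 1
      ring
    unfold D
    change ex σ (N + 2) z * (2 * ex σ (N + 1 - 1) z * dz (g n) z) = _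
    rw [← e2]
    ring
  set E2 : ℂ → ℂ := ex σ (2 * N + 2) with hE2
  have sE2 : ContDiff ℝ ∞ E2 := contDiff_ex hσ _
  set a : ℕ → ℂ → ℂ := fun n z => ex σ (N + 2) z * A n z + 2 * dz E2 z * g n z with ha
  set b : ℕ → ℂ → ℂ := fun n z => (-2) * (E2 z * g n z) with hb
  have sb' : ∀ n, ContDiff ℝ ∞ (fun z => E2 z * g n z) := fun n => sE2.mul (sg n)
  have sb : ∀ n, ContDiff ℝ ∞ (b n) := fun n => contDiff_const.mul (sb' n)
  have sa1 : ∀ n, ContDiff ℝ ∞ (fun z => ex σ (N + 2) z * A n z) := fun n =>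
    (contDiff_ex hσ _).mul (hsA n)
  have hc2 : ContDiff ℝ ∞ (fun z => 2 * dz E2 z) := contDiff_const.mul (contDiff_dz sE2)
  have sa2 : ∀ n, ContDiff ℝ ∞ (fun z => 2 * dz E2 z * g n z) := fun n => hc2.mul (sg n)
  have sa : ∀ n, ContDiff ℝ ∞ (a n) := fun n => (sa1 n).add (sa2 n)
  set αh : ℕ → ℂ → ℂ := fun n z => ex σ (N + 2) z * (A n z - D σ (N + 1) (x n) z) with hαh
  have sαh : ∀ n, ContDiff ℝ ∞ (αh n) := fun n => (contDiff_ex hσ _).mul (sα n)
  have hαh' : L2b V' αh := by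
    refine hHol V' αh a b hV' sαh sa sb (fun n z _ => ?_) (fun K hK hKV => ?_) ?_
    · have e1 : dz (b n) z = (-2) * (dz E2 z * g n z + E2 z * dz (g n) z) := by
        change dz (fun z => (-2) * (E2 z * g n z)) z = _
        rw [dz_const_mul _ (cd_at (sb' n) z), dz_mul (cd_at sE2 z) (cd_at (sg n) z)]
      change ex σ (N + 2) z * (A n z - D σ (N + 1) (x n) z) =
        ex σ (N + 2) z * A n z + 2 * dz E2 z * g n z + dz (b n) z
      rw [e1]
      linear_combination -hDx n z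
    · obtain ⟨C1, hC1⟩ := lg_int (lg_fn_mul gA (fun n => (hsA n).continuous)
        (contDiff_ex hσ (N + 2)).continuous) hK (hKV.trans hVV)
      obtain ⟨C2, hC2⟩ := l2b_int (l2b_fn_mul lg cg hc2.continuous)
        (fun n => (sa2 n).continuous) hK hKV
      obtain ⟨C3, hC3⟩ := l2b_int (l2b_fn_mul lg cg (b := fun z => (-2) * E2 z)
        (continuous_const.mul sE2.continuous))
        (fun n => (continuous_const.mul sE2.continuous).mul (cg n)) hK hKV
      refine ⟨C1 + |C2| + |C3|, ?_⟩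
      filter_upwards [hC1, hC2, hC3] with n k1 k2 k3
      have a2 := le_abs_self C2
      have a3 := le_abs_self C3
      have a4 := abs_nonneg C2
      have a5 := abs_nonneg C3
      have i1 : IntegrableOn (fun z => ‖ex σ (N + 2) z * A n z‖) K :=
        ((sa1 n).continuous.norm).continuousOn.integrableOn_compact hK
      have i2 : IntegrableOn (fun z => ‖2 * dz E2 z * g n z‖) K :=
        ((sa2 n).continuous.norm).continuousOn.integrableOn_compact hK
      have k0 : 0 ≤ ∫ z in K, ‖ex σ (N + 2) z * A n z‖ := integral_nonneg fun z => norm_nonneg _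
      constructor
      · have j1 : ∫ z in K, ‖a n z‖ ≤ ∫ z in K, (‖ex σ (N + 2) z * A n z‖
            + ‖2 * dz E2 z * g n z‖) :=
          setIntegral_mono_on (((sa n).continuous.norm).continuousOn.integrableOn_compact hK)
            (i1.add i2) hK.measurableSet fun z _ => norm_add_le _ _
        rw [integral_add i1 i2] at j1
        linarith
      · have j2 : ∫ z in K, ‖b n z‖ = ∫ z in K, ‖(-2) * E2 z * g n z‖ := by
          refine setIntegral_congr_fun hK.measurableSet fun z _ => ?_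
          change ‖(-2) * (E2 z * g n z)‖ = ‖(-2) * E2 z * g n z‖
          rw [mul_assoc]
        rw [j2]
        linarith
    · refine l2b_congr (l2b_fn_mul hlda' (fun n => (contDiff_Db hσ _ (sα n)).continuous)
        (b := fun z => (1 / 2) * ex σ (N + 3) z)
        (continuous_const.mul (contDiff_ex hσ _).continuous)) fun n z _ => ?_
      have e2 : ex σ (N + 3) z * ex σ (-(N + 2) - 1) z = 1 := by
        rw [ex_mul, show N + 3 + (-(N + 2) - 1) = 0 by ring, ex_zero]
      change (1 / 2) * ex σ (N + 3) z * (2 * ex σ (-(N + 2) - 1) z * dzb (αh n) z) = dzb (αh n) z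
      linear_combination (dzb (αh n) z) * e2
  refine ⟨x, sx, hxV, lx, ?_, hlda'⟩
  refine l2b_congr (l2b_fn_mul hαh' (fun n => (sαh n).continuous)
    (contDiff_ex hσ (-(N + 2))).continuous) fun n z _ => ?_
  change ex σ (-(N + 2)) z * (ex σ (N + 2) z * (A n z - D σ (N + 1) (x n) z)) = _
  rw [← mul_assoc, ex_mul, show -(N + 2) + (N + 2) = 0 by ring, ex_zero, one_mul]

end POTB

open POTZ QJ.POT _root_.U3.POTB in
theorem stmtPotB (hCau : StmtCauB) (hHol : StmtHolB) : StmtPotB := by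
  intro V σ N A B C hV hσ hT K hK hKV
  obtain ⟨χ, hχ, hχ1, -⟩ := exists_cutoff hV hK hKV
  set V' : Set ℂ := interior {z | χ z = 1} with hV'
  have oV' : IsOpen V' := isOpen_interior
  have hKV' : K ⊆ V' := fun z hz => mem_interior_iff_mem_nhds.mpr (hχ1 z hz)
  have h1 : ∀ z ∈ V', χ z = 1 := by
    intro z hz
    have : z ∈ {z | χ z = 1} := interior_subset hz
    exact this
  have hVV : V' ⊆ V := by
    intro z hz
    apply hχ.sub
    apply subset_tsupport
    rw [Function.mem_support, h1 z hz]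
    exact one_ne_zero
  obtain ⟨x, sx, hx, lx, la, lda⟩ := POTB.half hCau hHol N A B hσ hT.sA hT.sB hT.gA hT.gB
    (l2b_of_l2z hT.eA) hχ oV' hVV h1
  have eC' : L2b V (fun n z => Db σ (-N + 2) (fun w => (starRingEnd ℂ) (C n w)) z
      + D σ (-N) (fun w => (starRingEnd ℂ) (B n w)) z) := by
    refine l2b_congr (l2b_conj (l2b_of_l2z hT.eC)) fun n z _ => ?_
    rw [Db_conj _ hσ (cd_at (hT.sC n) z), D_conj _ hσ (cd_at (hT.sB n) z),
      show -(-N + 2) = N - 2 by ring, neg_neg, map_add]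
  obtain ⟨y, sy, hy, ly, lc, ldc⟩ := POTB.half hCau hHol (-N)
    (fun n w => (starRingEnd ℂ) (C n w)) (fun n w => (starRingEnd ℂ) (B n w)) hσ
    (fun n => conjCLE.contDiff.comp (hT.sC n)) (fun n => conjCLE.contDiff.comp (hT.sB n))
    (lg_conj hT.gC) (lg_conj hT.gB) eC' hχ oV' hVV h1
  refine ⟨V', x, fun n z => (starRingEnd ℂ) (y n z), oV', hKV', hVV, ?_⟩
  have hDby : ∀ n z, Db σ (N - 1) (fun w => (starRingEnd ℂ) (y n w)) z =
      (starRingEnd ℂ) (D σ (-N + 1) (y n) z) := by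
    intro n z
    rw [Db_conj _ hσ (cd_at (sy n) z), show -(N - 1) = -N + 1 by ring]
  have hγ : ∀ n z, (starRingEnd ℂ) ((starRingEnd ℂ) (C n z) - D σ (-N + 1) (y n) z) =
      C n z - Db σ (N - 1) (fun w => (starRingEnd ℂ) (y n w)) z := by
    intro n z
    rw [hDby, map_sub, starRingEnd_self_apply]
  exact
    { sx := sx
      sy := fun n => conjCLE.contDiff.comp (sy n)
      hx := hx
      hy := fun n z hz => by
        rw [D_conj _ hσ (cd_at (sy n) z), show -(N - 1) = -N + 1 by ring, hy n z hz, map_neg,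
          starRingEnd_self_apply]
      lx := lx
      ly := l2b_conj ly
      la := la
      lc := l2b_congr (l2b_conj lc) fun n z _ => hγ n z
      lda := lda
      ldc := by
        refine l2b_congr (l2b_conj ldc) fun n z _ => ?_
        have e1 : (fun w => C n w - Db σ (N - 1) (fun w => (starRingEnd ℂ) (y n w)) w) =
            fun w => (starRingEnd ℂ) ((starRingEnd ℂ) (C n w) - D σ (-N + 1) (y n) w) := by
          funext w
          exact (hγ n w).symm
        have sy' : ContDiff ℝ ∞ (fun w => (starRingEnd ℂ) (C n w) - D σ (-N + 1) (y n) w) :=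
          (conjCLE.contDiff.comp (hT.sC n)).sub (contDiff_D hσ _ (sy n))
        rw [e1, D_conj (N - 2) hσ (cd_at sy' z), show -(N - 2) = -N + 2 by ring] }

end

end U3


end

section

/-!
NULZ: the quadratic form `A C' + C A' - 2 B B'` of a null triple and a bounded triple tends weakly
to zero. Compare `QJ/NULF.lean`.
-/

open Complex MeasureTheory Filter Topology Set
open scoped ContDiff

namespace U3

open QE QJ

noncomputable section

namespace NULZ

variable {V : Set ℂ} {σ : ℂ → ℝ}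

/-- one of the two sequences tends to zero in `L²`, the other one is bounded -/
def LL (V : Set ℂ) (u v : ℕ → ℂ → ℂ) : Prop := (L2z V u ∧ L2b V v) ∨ (L2b V u ∧ L2z V v)

/-- the first sequence tends to zero -/
lemma cs1 {η : ℂ → ℂ} (hη : Test V η) {u v : ℕ → ℂ → ℂ} (hu : L2z V u) (hv : L2b V v)
    (su : ∀ n, ContDiff ℝ ∞ (u n)) (sv : ∀ n, ContDiff ℝ ∞ (v n)) :
    Tendsto (fun n => ∫ z, η z * (u n z * v n z)) atTop (𝓝 0) := by
  have hK : IsCompact (tsupport η) := hη.supp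
  obtain ⟨M, hM⟩ := hK.exists_bound_of_continuousOn hη.smooth.continuous.continuousOn
  have hM0 : 0 ≤ max M 0 := le_max_right _ _
  have h1 := hu _ hK hη.sub
  obtain ⟨C, hC⟩ := hv _ hK hη.sub
  have h10 : ∀ n, 0 ≤ ∫ z in tsupport η, ‖u n z‖ ^ 2 := fun n =>
    integral_nonneg fun z => by positivity
  set δ : ℕ → ℝ := fun n => Real.sqrt ((∫ z in tsupport η, ‖u n z‖ ^ 2) + 1 / ((n : ℝ) + 1))
    with hδ
  have hδ0 : Tendsto δ atTop (𝓝 0) := by
    have := (h1.add (tendsto_one_div_add_atTop_nhds_zero_nat (𝕜 := ℝ))).sqrt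
    rw [add_zero, Real.sqrt_zero] at this
    exact this
  have hδp : ∀ n, 0 < δ n := fun n => Real.sqrt_pos.2 (by
    have := h10 n
    positivity)
  have h3 : Tendsto (fun n => max M 0 * (δ n + δ n * C)) atTop (𝓝 0) := by
    have := (hδ0.add (hδ0.mul_const C)).const_mul (max M 0)
    simpa using this
  refine squeeze_zero_norm' ?_ h3
  filter_upwards [hC] with n hn
  have c1 : IntegrableOn (fun z => ‖u n z‖ ^ 2) (tsupport η) :=
    ((su n).continuous.norm.pow 2).continuousOn.integrableOn_compact hK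
  have c2 : IntegrableOn (fun z => ‖v n z‖ ^ 2) (tsupport η) :=
    ((sv n).continuous.norm.pow 2).continuousOn.integrableOn_compact hK
  have c3 : IntegrableOn (fun z => ‖η z * (u n z * v n z)‖) (tsupport η) :=
    ((hη.smooth.continuous.mul ((su n).continuous.mul (sv n).continuous)).norm).continuousOn.integrableOn_compact hK
  have e1 : ∫ z, η z * (u n z * v n z) = ∫ z in tsupport η, η z * (u n z * v n z) := by
    symm
    apply setIntegral_eq_integral_of_forall_compl_eq_zero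
    intro z hz
    rw [image_eq_zero_of_notMem_tsupport hz, zero_mul]
  rw [e1]
  refine (norm_integral_le_integral_norm _).trans ?_
  have hd := hδp n
  have c1' : IntegrableOn (fun z => (δ n)⁻¹ * ‖u n z‖ ^ 2) (tsupport η) := c1.const_mul _
  have c2' : IntegrableOn (fun z => δ n * ‖v n z‖ ^ 2) (tsupport η) := c2.const_mul _
  have hle : ∫ z in tsupport η, ‖η z * (u n z * v n z)‖
      ≤ ∫ z in tsupport η, max M 0 * ((δ n)⁻¹ * ‖u n z‖ ^ 2 + δ n * ‖v n z‖ ^ 2) := by
    refine setIntegral_mono_on c3 ((c1'.add c2').const_mul _) hK.measurableSet fun z hz => ?_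
    rw [norm_mul, norm_mul]
    have a1 : ‖η z‖ ≤ max M 0 := (hM z hz).trans (le_max_left _ _)
    have a2 : ‖u n z‖ * ‖v n z‖ ≤ (δ n)⁻¹ * ‖u n z‖ ^ 2 + δ n * ‖v n z‖ ^ 2 := by
      have a3 : 0 ≤ ‖u n z‖ * ‖v n z‖ := by positivity
      have a4 : 0 ≤ (δ n)⁻¹ * (‖u n z‖ - δ n * ‖v n z‖) ^ 2 := by positivity
      have a5 : (δ n)⁻¹ * (‖u n z‖ - δ n * ‖v n z‖) ^ 2
          = (δ n)⁻¹ * ‖u n z‖ ^ 2 + δ n * ‖v n z‖ ^ 2 - 2 * (‖u n z‖ * ‖v n z‖) := by
        field_simp
        ring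
      linarith
    exact mul_le_mul a1 a2 (by positivity) hM0
  refine hle.trans ?_
  rw [integral_const_mul]
  refine mul_le_mul_of_nonneg_left ?_ hM0
  rw [integral_add c1' c2', integral_const_mul, integral_const_mul]
  have b1 : (δ n)⁻¹ * ∫ z in tsupport η, ‖u n z‖ ^ 2 ≤ δ n := by
    rw [inv_mul_le_iff₀ hd]
    have b2 : δ n * δ n = (∫ z in tsupport η, ‖u n z‖ ^ 2) + 1 / ((n : ℝ) + 1) :=
      Real.mul_self_sqrt (by have := h10 n; positivity)
    have b3 : (0 : ℝ) ≤ 1 / ((n : ℝ) + 1) := by positivity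
    linarith
  exact add_le_add b1 (mul_le_mul_of_nonneg_left hn hd.le)

/-- products of a null sequence and a bounded sequence tend weakly to zero -/
lemma cs {η : ℂ → ℂ} (hη : Test V η) {u v : ℕ → ℂ → ℂ} (huv : LL V u v)
    (su : ∀ n, ContDiff ℝ ∞ (u n)) (sv : ∀ n, ContDiff ℝ ∞ (v n)) :
    Tendsto (fun n => ∫ z, η z * (u n z * v n z)) atTop (𝓝 0) := by
  rcases huv with ⟨hu, hv⟩ | ⟨hu, hv⟩
  · exact cs1 hη hu hv su sv
  · refine (cs1 hη hv hu sv su).congr fun n => ?_
    refine integral_congr_ae (Filter.Eventually.of_forall fun z => ?_)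
    simp only []
    ring

/-- integration by parts in a term with a derivative `D` -/
lemma limD {ζ : ℂ → ℂ} (hσ : ContDiff ℝ ∞ σ) (hζ : Test V ζ) (k l : ℤ) (hl : l = -k - 1)
    {x g : ℕ → ℂ → ℂ} (hg : LL V x g) (hDg : LL V x (fun n z => D σ l (g n) z))
    (sx : ∀ n, ContDiff ℝ ∞ (x n)) (sg : ∀ n, ContDiff ℝ ∞ (g n)) :
    Tendsto (fun n => ∫ z, ζ z * (D σ k (x n) z * g n z)) atTop (𝓝 0) := by
  subst hl
  have hζ' : Test V (fun z => ζ z * ex σ (-2) z) := test_mul hζ (contDiff_ex hσ _)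
  have t1 : Test V (fun z => D σ 0 (fun z => ζ z * ex σ (-2) z) z * ex σ 2 z) :=
    test_mul (test_D hσ 0 hζ') (contDiff_ex hσ _)
  have l1 := cs t1 hg sx sg
  have l2 := cs hζ hDg sx (fun n => contDiff_D hσ _ (sg n))
  have l3 := (l1.neg).sub l2
  rw [neg_zero, sub_zero] at l3
  refine l3.congr fun n => ?_
  have h := ibp_D hσ k hζ' (sx n) (sg n)
  have e0 : ∀ z, ex σ 2 z * (ζ z * ex σ (-2) z * (D σ k (x n) z * g n z))
      = ζ z * (D σ k (x n) z * g n z) := fun z => by
    linear_combination (ζ z * (D σ k (x n) z * g n z)) * NUL.ex_cancel (σ := σ) z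
  have e1 : ∀ z, ex σ 2 z * (ζ z * ex σ (-2) z * (x n z * D σ (-k - 1) (g n) z))
      = ζ z * (x n z * D σ (-k - 1) (g n) z) := fun z => by
    linear_combination (ζ z * (x n z * D σ (-k - 1) (g n) z)) * NUL.ex_cancel (σ := σ) z
  have e2 : ∀ z, ex σ 2 z * (D σ 0 (fun z => ζ z * ex σ (-2) z) z * (x n z * g n z))
      = D σ 0 (fun z => ζ z * ex σ (-2) z) z * ex σ 2 z * (x n z * g n z) := fun z => by ring
  simp only [e0, e1, e2] at h
  exact h.symm

/-- integration by parts in a term with a derivative `Db` -/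
lemma limDb {ζ : ℂ → ℂ} (hσ : ContDiff ℝ ∞ σ) (hζ : Test V ζ) (k l : ℤ) (hl : l = -k + 1)
    {x g : ℕ → ℂ → ℂ} (hg : LL V x g) (hDg : LL V x (fun n z => Db σ l (g n) z))
    (sx : ∀ n, ContDiff ℝ ∞ (x n)) (sg : ∀ n, ContDiff ℝ ∞ (g n)) :
    Tendsto (fun n => ∫ z, ζ z * (Db σ k (x n) z * g n z)) atTop (𝓝 0) := by
  subst hl
  have hζ' : Test V (fun z => ζ z * ex σ (-2) z) := test_mul hζ (contDiff_ex hσ _)
  have t1 : Test V (fun z => Db σ 0 (fun z => ζ z * ex σ (-2) z) z * ex σ 2 z) :=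
    test_mul (test_Db hσ 0 hζ') (contDiff_ex hσ _)
  have l1 := cs t1 hg sx sg
  have l2 := cs hζ hDg sx (fun n => contDiff_Db hσ _ (sg n))
  have l3 := (l1.neg).sub l2
  rw [neg_zero, sub_zero] at l3
  refine l3.congr fun n => ?_
  have h := ibp_Db hσ k hζ' (sx n) (sg n)
  have e0 : ∀ z, ex σ 2 z * (ζ z * ex σ (-2) z * (Db σ k (x n) z * g n z))
      = ζ z * (Db σ k (x n) z * g n z) := fun z => by
    linear_combination (ζ z * (Db σ k (x n) z * g n z)) * NUL.ex_cancel (σ := σ) z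
  have e1 : ∀ z, ex σ 2 z * (ζ z * ex σ (-2) z * (x n z * Db σ (-k + 1) (g n) z))
      = ζ z * (x n z * Db σ (-k + 1) (g n) z) := fun z => by
    linear_combination (ζ z * (x n z * Db σ (-k + 1) (g n) z)) * NUL.ex_cancel (σ := σ) z
  have e2 : ∀ z, ex σ 2 z * (Db σ 0 (fun z => ζ z * ex σ (-2) z) z * (x n z * g n z))
      = Db σ 0 (fun z => ζ z * ex σ (-2) z) z * ex σ 2 z * (x n z * g n z) := fun z => by ring
  simp only [e0, e1, e2] at h
  exact h.symm

end NULZ

open _root_.U3.NULZ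

theorem stmtNulZ (hNid : QJ.StmtNid) : StmtNulZ := by
  intro V σ N A B C x y A' B' C' x' y' hV hσ sA sB sC sA' sB' sC' P P' ζ hζ
  have hζ' : Test V (fun z => ζ z * ex σ (-2) z) := test_mul hζ (contDiff_ex hσ _)
  set ζ' : ℂ → ℂ := fun z => ζ z * ex σ (-2) z with hζ'def
  -- smoothness
  have sDx : ∀ n, ContDiff ℝ ∞ (D σ (N + 1) (x n)) := fun n => contDiff_D hσ _ (P.sx n)
  have sDby : ∀ n, ContDiff ℝ ∞ (Db σ (N - 1) (y n)) := fun n => contDiff_Db hσ _ (P.sy n)
  have sDx' : ∀ n, ContDiff ℝ ∞ (D σ (-N + 1) (x' n)) := fun n => contDiff_D hσ _ (P'.sx n)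
  have sDby' : ∀ n, ContDiff ℝ ∞ (Db σ (-N - 1) (y' n)) := fun n => contDiff_Db hσ _ (P'.sy n)
  have sa : ∀ n, ContDiff ℝ ∞ (fun z => A n z - D σ (N + 1) (x n) z) := fun n => (sA n).sub (sDx n)
  have sc : ∀ n, ContDiff ℝ ∞ (fun z => C n z - Db σ (N - 1) (y n) z) := fun n =>
    (sC n).sub (sDby n)
  have sa' : ∀ n, ContDiff ℝ ∞ (fun z => A' n z - D σ (-N + 1) (x' n) z) := fun n =>
    (sA' n).sub (sDx' n)
  have sc' : ∀ n, ContDiff ℝ ∞ (fun z => C' n z - Db σ (-N - 1) (y' n) z) := fun n =>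
    (sC' n).sub (sDby' n)
  -- the six error terms
  have T1 := limD hσ hζ (N + 1) (-N - 2) (by ring) (Or.inl ⟨P.lx, P'.lc⟩) (Or.inl ⟨P.lx, P'.ldc⟩) P.sx sc'
  have T2 := limDb hσ hζ (-N - 1) (N + 2) (by ring) (Or.inr ⟨P'.ly, P.la⟩) (Or.inr ⟨P'.ly, P.lda⟩) P'.sy sa
  have T3 := cs hζ (Or.inl ⟨P.la, P'.lc⟩) sa sc'
  have T4 := limDb hσ hζ (N - 1) (-N + 2) (by ring) (Or.inl ⟨P.ly, P'.la⟩) (Or.inl ⟨P.ly, P'.lda⟩) P.sy sa'
  have T5 := limD hσ hζ (-N + 1) (N - 2) (by ring) (Or.inr ⟨P'.lx, P.lc⟩) (Or.inr ⟨P'.lx, P.ldc⟩) P'.sx sc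
  have T6 := cs hζ (Or.inl ⟨P.lc, P'.la⟩) sc sa'
  -- the main term
  have u1 : Test V (fun z => Db σ 1 (D σ 0 ζ') z * ex σ 2 z) :=
    test_mul (test_Db hσ 1 (test_D hσ 0 hζ')) (contDiff_ex hσ _)
  have u2 : Test V (fun z => D σ 1 (D σ 0 ζ') z * ex σ 2 z) :=
    test_mul (test_D hσ 1 (test_D hσ 0 hζ')) (contDiff_ex hσ _)
  have u3 : Test V (fun z => Db σ (-1) (Db σ 0 ζ') z * ex σ 2 z) :=
    test_mul (test_Db hσ (-1) (test_Db hσ 0 hζ')) (contDiff_ex hσ _)
  have u4 : Test V (fun z => ζ' z * (ex σ 2 z * (2 * curv σ z * (N - 1)))) :=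
    test_mul hζ' ((contDiff_ex hσ _).mul ((contDiff_const.mul (NUL.contDiff_curv hσ)).mul contDiff_const))
  have u5 : Test V (fun z => ζ' z * (ex σ 2 z * (2 * curv σ z * (N + 1)))) :=
    test_mul hζ' ((contDiff_ex hσ _).mul ((contDiff_const.mul (NUL.contDiff_curv hσ)).mul contDiff_const))
  have M1 := cs u1 (Or.inl ⟨P.lx, P'.ly⟩) P.sx P'.sy
  have M2 := cs u1 (Or.inr ⟨P'.lx, P.ly⟩) P'.sx P.sy
  have M3 := cs u2 (Or.inl ⟨P.ly, P'.ly⟩) P.sy P'.sy
  have M4 := cs u3 (Or.inl ⟨P.lx, P'.lx⟩) P.sx P'.sx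
  have M5 := cs u4 (Or.inr ⟨P'.lx, P.ly⟩) P'.sx P.sy
  have M6 := cs u5 (Or.inl ⟨P.lx, P'.ly⟩) P.sx P'.sy
  have M : Tendsto (fun n => ∫ z, ζ z * (D σ (N + 1) (x n) z * Db σ (-N - 1) (y' n) z
        + Db σ (N - 1) (y n) z * D σ (-N + 1) (x' n) z
        - Db σ (N + 1) (x n) z * D σ (-N - 1) (y' n) z
        - D σ (N - 1) (y n) z * Db σ (-N + 1) (x' n) z)) atTop (𝓝 0) := by
    have l := ((((M1.add M2).sub M3).sub M4).add M5).sub M6
    simp only [add_zero, sub_zero] at l
    refine l.congr fun n => ?_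
    have h := hNid V σ N (x n) (y n) (x' n) (y' n) ζ' hV hσ (P.sx n) (P.sy n) (P'.sx n) (P'.sy n)
      hζ' (fun z hz => by rw [P.hx n z hz, P.hy n z hz])
      (fun z hz => by rw [P'.hx n z hz, P'.hy n z hz])
    have e0 : ∀ z, ex σ 2 z * (ζ' z * (D σ (N + 1) (x n) z * Db σ (-N - 1) (y' n) z
        + Db σ (N - 1) (y n) z * D σ (-N + 1) (x' n) z
        - Db σ (N + 1) (x n) z * D σ (-N - 1) (y' n) z
        - D σ (N - 1) (y n) z * Db σ (-N + 1) (x' n) z))
        = ζ z * (D σ (N + 1) (x n) z * Db σ (-N - 1) (y' n) z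
        + Db σ (N - 1) (y n) z * D σ (-N + 1) (x' n) z
        - Db σ (N + 1) (x n) z * D σ (-N - 1) (y' n) z
        - D σ (N - 1) (y n) z * Db σ (-N + 1) (x' n) z) := fun z => by
      simp only [hζ'def]
      linear_combination (ζ z * (D σ (N + 1) (x n) z * Db σ (-N - 1) (y' n) z
        + Db σ (N - 1) (y n) z * D σ (-N + 1) (x' n) z
        - Db σ (N + 1) (x n) z * D σ (-N - 1) (y' n) z
        - D σ (N - 1) (y n) z * Db σ (-N + 1) (x' n) z)) * NUL.ex_cancel (σ := σ) z
    simp only [e0] at h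
    rw [h]
    have i1 := NUL.int1 u1 (P.sx n) (P'.sy n)
    have i2 := NUL.int1 u1 (P'.sx n) (P.sy n)
    have i3 := NUL.int1 u2 (P.sy n) (P'.sy n)
    have i4 := NUL.int1 u3 (P.sx n) (P'.sx n)
    have i5 := NUL.int1 u4 (P'.sx n) (P.sy n)
    have i6 := NUL.int1 u5 (P.sx n) (P'.sy n)
    refine (NUL.sum6 i1 i2 i3 i4 i5 i6).trans (integral_congr_ae (Filter.Eventually.of_forall fun z => ?_))
    simp only []
    ring
  have l := (((((M.add T1).add T2).add T3).add T4).add T5).add T6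
  simp only [add_zero] at l
  refine l.congr fun n => ?_
  have j0 : Integrable (fun z => ζ z * (D σ (N + 1) (x n) z * Db σ (-N - 1) (y' n) z
        + Db σ (N - 1) (y n) z * D σ (-N + 1) (x' n) z
        - Db σ (N + 1) (x n) z * D σ (-N - 1) (y' n) z
        - D σ (N - 1) (y n) z * Db σ (-N + 1) (x' n) z)) :=
    test_int hζ (((((sDx n).mul (sDby' n)).add ((sDby n).mul (sDx' n))).sub
      ((contDiff_Db hσ _ (P.sx n)).mul (contDiff_D hσ _ (P'.sy n)))).sub
      ((contDiff_D hσ _ (P.sy n)).mul (contDiff_Db hσ _ (P'.sx n)))).continuous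
  have j1 := NUL.int1 hζ (sDx n) (sc' n)
  have j2 := NUL.int1 hζ (sDby' n) (sa n)
  have j3 := NUL.int1 hζ (sa n) (sc' n)
  have j4 := NUL.int1 hζ (sDby n) (sa' n)
  have j5 := NUL.int1 hζ (sDx' n) (sc n)
  have j6 := NUL.int1 hζ (sc n) (sa' n)
  refine (NUL.sum7 j0 j1 j2 j3 j4 j5 j6).trans (integral_congr_ae (Filter.Eventually.of_forall fun z => ?_))
  simp only []
  by_cases hz : ζ z = 0
  · simp only [hz, zero_mul, add_zero]
  have hzV : z ∈ V := hζ.sub (subset_tsupport _ hz)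
  have b1 := P.hx n z hzV
  have b2 := P.hy n z hzV
  have b3 := P'.hx n z hzV
  have b4 := P'.hy n z hzV
  rw [b1, b2, b3, b4]
  ring

end

end U3


end

section

/-!
Integration by parts for products of four and of three jets, without equidistribution.
-/

open Complex MeasureTheory Filter Topology Set
open scoped ContDiff

namespace U3

open QE QJ

noncomputable section

namespace IFOB

variable {V : Set ℂ} {σ : ℂ → ℝ} {h : ℕ → ℝ} {φ : ℕ → ℂ → ℂ}

lemma zero_off {ζ : ℂ → ℂ} (hζ : Test V ζ) {z : ℂ} (hz : z ∉ V) : ζ z = 0 :=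
  image_eq_zero_of_notMem_tsupport fun hh => hz (hζ.sub hh)

lemma hlimC (L : LocB V σ h φ) : Tendsto (fun n => (h n : ℂ)) atTop (𝓝 0) := by
  have h1 := (Complex.continuous_ofReal.tendsto 0).comp L.hlim
  rw [Complex.ofReal_zero] at h1
  exact h1

/-- `h ∫ ζ u → 0` if `h ∫_K ‖u‖ → 0` -/
lemma lim_test (hpos : ∀ n, 0 < h n) {u : ℕ → ℂ → ℂ} (hu : ∀ n, ContDiff ℝ ∞ (u n))
    (hz : HZ V h u) {ζ : ℂ → ℂ} (hζ : Test V ζ) :
    Tendsto (fun n => (h n : ℂ) * ∫ z, ζ z * u n z) atTop (𝓝 0) := by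
  obtain ⟨C, hC⟩ := hζ.smooth.continuous.bounded_above_of_compact_support hζ.supp
  have hK : IsCompact (tsupport ζ) := hζ.supp
  have h1 := (hz (tsupport ζ) hK hζ.sub).const_mul C
  rw [mul_zero] at h1
  refine squeeze_zero_norm (fun n => ?_) h1
  have e1 : ∫ z, ζ z * u n z = ∫ z in tsupport ζ, ζ z * u n z := by
    refine (setIntegral_eq_integral_of_forall_compl_eq_zero fun z hz => ?_).symm
    rw [image_eq_zero_of_notMem_tsupport hz, zero_mul]
  have e2 : ‖∫ z in tsupport ζ, ζ z * u n z‖ ≤ ∫ z in tsupport ζ, C * ‖u n z‖ := by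
    refine norm_integral_le_of_norm_le ?_ ?_
    · exact ((hu n).continuous.norm.const_smul C).continuousOn.integrableOn_compact hK
    · refine Filter.Eventually.of_forall fun z => ?_
      rw [norm_mul]
      exact mul_le_mul_of_nonneg_right (hC z) (norm_nonneg _)
  rw [norm_mul, Complex.norm_real, Real.norm_of_nonneg (hpos n).le, e1]
  rw [integral_const_mul] at e2
  calc h n * ‖∫ z in tsupport ζ, ζ z * u n z‖ ≤ h n * (C * ∫ z in tsupport ζ, ‖u n z‖) :=
        mul_le_mul_of_nonneg_left e2 (hpos n).le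
    _ = C * (h n * ∫ z in tsupport ζ, ‖u n z‖) := by ring

lemma hlim4 (hInt : StmtIntA) (L : LocB V σ h φ) (hG : GrowA V h φ) (hS : Small V h φ)
    {u : ℕ → ℂ → ℂ} (hu : Dom V h φ 4 u) : HZ V h u :=
  (hInt V h φ u L.hpos L.hlim L.smφ hG hu.smooth).2.2.2.2 hu.bq hS

/-- the raising step: a sequence `S` with `h D u = S + h² B` tends weakly to zero -/
lemma up_of (hInt : StmtIntA) (hIbp : StmtIbpA) (L : LocB V σ h φ) (hG : GrowA V h φ) (hSm : Small V h φ) {ζ : ℂ → ℂ}
    (hζ : Test V ζ) (k : ℤ) {u B S : ℕ → ℂ → ℂ} (hu : Dom V h φ 4 u) (hB : Dom V h φ 4 B)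
    (hS : ∀ n, ContDiff ℝ ∞ (S n))
    (he : ∀ n, ∀ z ∈ V, (h n : ℂ) * D σ k (u n) z = S n z + (h n : ℂ) ^ 2 * B n z) :
    Tendsto (fun n => ∫ z, ζ z * S n z) atTop (𝓝 0) := by
  have i1 := (hIbp V σ h u k L.op L.sm L.hpos hu.smooth (hlim4 hInt L hG hSm hu) ζ hζ).1
  have i2 := (hlimC L).mul (lim_test L.hpos hB.smooth (hlim4 hInt L hG hSm hB) hζ)
  have i3 := i1.sub i2
  rw [mul_zero, sub_zero] at i3
  refine i3.congr fun n => ?_
  have e : ∀ z, ζ z * ((h n : ℂ) * D σ k (u n) z)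
      = ζ z * S n z + (h n : ℂ) ^ 2 * (ζ z * B n z) := by
    intro z
    by_cases hz : z ∈ V
    · rw [he n z hz]; ring
    · rw [zero_off hζ hz]; ring
  have k1 : Integrable (fun z => ζ z * S n z) :=
    hζ.integrable_mul L.op (hS n).continuous.continuousOn
  have k2 : Integrable (fun z => ζ z * B n z) :=
    hζ.integrable_mul L.op (hB.smooth n).continuous.continuousOn
  simp only [e]
  rw [integral_add k1 (k2.const_mul _), integral_const_mul]
  ring

/-- the lowering step -/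
lemma down_of (hInt : StmtIntA) (hIbp : StmtIbpA) (L : LocB V σ h φ) (hG : GrowA V h φ) (hSm : Small V h φ) {ζ : ℂ → ℂ}
    (hζ : Test V ζ) (k : ℤ) {u B S : ℕ → ℂ → ℂ} (hu : Dom V h φ 4 u) (hB : Dom V h φ 4 B)
    (hS : ∀ n, ContDiff ℝ ∞ (S n))
    (he : ∀ n, ∀ z ∈ V, (h n : ℂ) * Db σ k (u n) z = - S n z + (h n : ℂ) ^ 2 * B n z) :
    Tendsto (fun n => ∫ z, ζ z * S n z) atTop (𝓝 0) := by
  have i1 := (hIbp V σ h u k L.op L.sm L.hpos hu.smooth (hlim4 hInt L hG hSm hu) ζ hζ).2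
  have i2 := (hlimC L).mul (lim_test L.hpos hB.smooth (hlim4 hInt L hG hSm hB) hζ)
  have i3 := i2.sub i1
  rw [mul_zero, sub_zero] at i3
  refine i3.congr fun n => ?_
  have e : ∀ z, ζ z * ((h n : ℂ) * Db σ k (u n) z)
      = (h n : ℂ) ^ 2 * (ζ z * B n z) - ζ z * S n z := by
    intro z
    by_cases hz : z ∈ V
    · rw [he n z hz]; ring
    · rw [zero_off hζ hz]; ring
  have k1 : Integrable (fun z => ζ z * S n z) :=
    hζ.integrable_mul L.op (hS n).continuous.continuousOn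
  have k2 : Integrable (fun z => ζ z * B n z) :=
    hζ.integrable_mul L.op (hB.smooth n).continuous.continuousOn
  simp only [e]
  rw [integral_sub (k2.const_mul _) k1, integral_const_mul]
  ring

lemma add_three {S f g k : ℂ → ℂ} (hf : Integrable f) (hg : Integrable g) (hk : Integrable k)
    (he : ∀ z, S z = f z + g z + k z) :
    ∫ z, S z = (∫ z, f z) + (∫ z, g z) + ∫ z, k z := by
  have h1 : Integrable (fun z => f z + g z) := hf.add hg
  simp only [he]
  rw [integral_add h1 hk, integral_add hf hg]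

lemma add_four {S f g k l : ℂ → ℂ} (hf : Integrable f) (hg : Integrable g) (hk : Integrable k)
    (hl : Integrable l) (he : ∀ z, S z = f z + g z + k z + l z) :
    ∫ z, S z = (∫ z, f z) + (∫ z, g z) + (∫ z, k z) + ∫ z, l z := by
  have h1 : Integrable (fun z => f z + g z) := hf.add hg
  have h2 : Integrable (fun z => f z + g z + k z) := h1.add hk
  simp only [he]
  rw [integral_add h2 hl, integral_add h1 hk, integral_add hf hg]

lemma four (hInt : StmtIntA) (hIbp : StmtIbpA) (hJ : StmtJetC) (L : LocB V σ h φ)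
    (hG : GrowA V h φ) (hSm : Small V h φ) {ζ : ℂ → ℂ} (hζ : Test V ζ) (a b c d : ℤ) :
    Tendsto (fun n => E4 σ h φ ζ (a + 1) b c d n + E4 σ h φ ζ a (b + 1) c d n
      + E4 σ h φ ζ a b (c + 1) d n + E4 σ h φ ζ a b c (d + 1) n) atTop (𝓝 0) := by
  have hσ := L.sm
  obtain ⟨da, ⟨A1, hA1, h1⟩, -⟩ := hJ V σ h φ L a
  obtain ⟨db, ⟨A2, hA2, h2⟩, -⟩ := hJ V σ h φ L b
  obtain ⟨dc, ⟨A3, hA3, h3⟩, -⟩ := hJ V σ h φ L c
  obtain ⟨dd, ⟨A4, hA4, h4⟩, -⟩ := hJ V σ h φ L d
  have da1 := (hJ V σ h φ L (a + 1)).1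
  have db1 := (hJ V σ h φ L (b + 1)).1
  have dc1 := (hJ V σ h φ L (c + 1)).1
  have dd1 := (hJ V σ h φ L (d + 1)).1
  have hV := L.op
  have pr : ∀ {u v w x : ℕ → ℂ → ℂ}, Dom V h φ 1 u → Dom V h φ 1 v → Dom V h φ 1 w →
      Dom V h φ 1 x → Dom V h φ 4 (fun n z => u n z * v n z * w n z * x n z) := by
    intro u v w x hu hv hw hx
    exact ((hu.mul hV hv).mul hV hw).mul hV hx
  have du := pr da db dc dd
  have q1 := pr da1 db dc dd
  have q2 := pr da db1 dc dd
  have q3 := pr da db dc1 dd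
  have q4 := pr da db dc dd1
  have hB := (((pr hA1 db dc dd).add hV (pr da hA2 dc dd)).add hV (pr da db hA3 dd)).add hV
    (pr da db dc hA4)
  have hS := ((q1.add hV q2).add hV q3).add hV q4
  have key := up_of hInt hIbp L hG hSm hζ (a + b + c + d) du hB hS.smooth ?_
  · refine key.congr fun n => ?_
    have k1 := hζ.integrable_mul hV (q1.smooth n).continuous.continuousOn
    have k2 := hζ.integrable_mul hV (q2.smooth n).continuous.continuousOn
    have k3 := hζ.integrable_mul hV (q3.smooth n).continuous.continuousOn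
    have k4 := hζ.integrable_mul hV (q4.smooth n).continuous.continuousOn
    unfold E4
    exact add_four k1 k2 k3 k4 fun z => by ring
  · intro n z hz
    have sa := cd_at (da.smooth n) z
    have sb := cd_at (db.smooth n) z
    have sc := cd_at (dc.smooth n) z
    have sd := cd_at (dd.smooth n) z
    have m1 := D_mul hσ a b sa sb
    have m2 := D_mul hσ (a + b) c (sa.fun_mul sb) sc
    have m3 := D_mul hσ (a + b + c) d ((sa.fun_mul sb).fun_mul sc) sd
    rw [m3, m2, m1]
    linear_combination (E σ h φ b n z * E σ h φ c n z * E σ h φ d n z) * h1 n z hz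
      + (E σ h φ a n z * E σ h φ c n z * E σ h φ d n z) * h2 n z hz
      + (E σ h φ a n z * E σ h φ b n z * E σ h φ d n z) * h3 n z hz
      + (E σ h φ a n z * E σ h φ b n z * E σ h φ c n z) * h4 n z hz

lemma three_up (hInt : StmtIntA) (hIbp : StmtIbpA) (hJ : StmtJetC) (L : LocB V σ h φ)
    (hG : GrowA V h φ) (hSm : Small V h φ) {ζ : ℂ → ℂ} (hζ : Test V ζ) (a b c : ℤ) :
    Tendsto (fun n => E3 σ h φ ζ (a + 1) b c n + E3 σ h φ ζ a (b + 1) c n
      + E3 σ h φ ζ a b (c + 1) n) atTop (𝓝 0) := by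
  have hσ := L.sm
  obtain ⟨da, ⟨A1, hA1, h1⟩, -⟩ := hJ V σ h φ L a
  obtain ⟨db, ⟨A2, hA2, h2⟩, -⟩ := hJ V σ h φ L b
  obtain ⟨dc, ⟨A3, hA3, h3⟩, -⟩ := hJ V σ h φ L c
  have da1 := (hJ V σ h φ L (a + 1)).1
  have db1 := (hJ V σ h φ L (b + 1)).1
  have dc1 := (hJ V σ h φ L (c + 1)).1
  have hV := L.op
  have pr : ∀ {u v w : ℕ → ℂ → ℂ}, Dom V h φ 1 u → Dom V h φ 1 v → Dom V h φ 1 w →
      Dom V h φ 4 (fun n z => u n z * v n z * w n z) := by
    intro u v w hu hv hw
    exact ((hu.mul hV hv).mul hV hw).mono (by norm_num)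
  have du := pr da db dc
  have q1 := pr da1 db dc
  have q2 := pr da db1 dc
  have q3 := pr da db dc1
  have hB := ((pr hA1 db dc).add hV (pr da hA2 dc)).add hV (pr da db hA3)
  have hS := (q1.add hV q2).add hV q3
  have key := up_of hInt hIbp L hG hSm hζ (a + b + c) du hB hS.smooth ?_
  · refine key.congr fun n => ?_
    have k1 := hζ.integrable_mul hV (q1.smooth n).continuous.continuousOn
    have k2 := hζ.integrable_mul hV (q2.smooth n).continuous.continuousOn
    have k3 := hζ.integrable_mul hV (q3.smooth n).continuous.continuousOn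
    unfold E3
    exact add_three k1 k2 k3 fun z => by ring
  · intro n z hz
    have sa := cd_at (da.smooth n) z
    have sb := cd_at (db.smooth n) z
    have sc := cd_at (dc.smooth n) z
    have m1 := D_mul hσ a b sa sb
    have m2 := D_mul hσ (a + b) c (sa.fun_mul sb) sc
    rw [m2, m1]
    linear_combination (E σ h φ b n z * E σ h φ c n z) * h1 n z hz
      + (E σ h φ a n z * E σ h φ c n z) * h2 n z hz
      + (E σ h φ a n z * E σ h φ b n z) * h3 n z hz

lemma three_down (hInt : StmtIntA) (hIbp : StmtIbpA) (hJ : StmtJetC) (L : LocB V σ h φ)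
    (hG : GrowA V h φ) (hSm : Small V h φ) {ζ : ℂ → ℂ} (hζ : Test V ζ) (a b c : ℤ) :
    Tendsto (fun n => E3 σ h φ ζ (a - 1) b c n + E3 σ h φ ζ a (b - 1) c n
      + E3 σ h φ ζ a b (c - 1) n) atTop (𝓝 0) := by
  have hσ := L.sm
  obtain ⟨da, -, ⟨A1, hA1, h1⟩⟩ := hJ V σ h φ L a
  obtain ⟨db, -, ⟨A2, hA2, h2⟩⟩ := hJ V σ h φ L b
  obtain ⟨dc, -, ⟨A3, hA3, h3⟩⟩ := hJ V σ h φ L c
  have da1 := (hJ V σ h φ L (a - 1)).1
  have db1 := (hJ V σ h φ L (b - 1)).1
  have dc1 := (hJ V σ h φ L (c - 1)).1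
  have hV := L.op
  have pr : ∀ {u v w : ℕ → ℂ → ℂ}, Dom V h φ 1 u → Dom V h φ 1 v → Dom V h φ 1 w →
      Dom V h φ 4 (fun n z => u n z * v n z * w n z) := by
    intro u v w hu hv hw
    exact ((hu.mul hV hv).mul hV hw).mono (by norm_num)
  have du := pr da db dc
  have q1 := pr da1 db dc
  have q2 := pr da db1 dc
  have q3 := pr da db dc1
  have hB := ((pr hA1 db dc).add hV (pr da hA2 dc)).add hV (pr da db hA3)
  have hS := (q1.add hV q2).add hV q3
  have key := down_of hInt hIbp L hG hSm hζ (a + b + c) du hB hS.smooth ?_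
  · refine key.congr fun n => ?_
    have k1 := hζ.integrable_mul hV (q1.smooth n).continuous.continuousOn
    have k2 := hζ.integrable_mul hV (q2.smooth n).continuous.continuousOn
    have k3 := hζ.integrable_mul hV (q3.smooth n).continuous.continuousOn
    unfold E3
    exact add_three k1 k2 k3 fun z => by ring
  · intro n z hz
    have sa := cd_at (da.smooth n) z
    have sb := cd_at (db.smooth n) z
    have sc := cd_at (dc.smooth n) z
    have m1 := Db_mul hσ a b sa sb
    have m2 := Db_mul hσ (a + b) c (sa.fun_mul sb) sc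
    rw [m2, m1]
    linear_combination (E σ h φ b n z * E σ h φ c n z) * h1 n z hz
      + (E σ h φ a n z * E σ h φ c n z) * h2 n z hz
      + (E σ h φ a n z * E σ h φ b n z) * h3 n z hz

end IFOB

open _root_.U3.IFOB in
theorem stmtIfoB (hGroA : StmtGroA) (hIntA : StmtIntA) (hIbpA : StmtIbpA) (hJetC : StmtJetC)
    (hSml : StmtSml) : StmtIfoB := by
  intro V σ h φ L ζ hζ
  have hG := hGroA V σ h φ L
  have hS := hSml V σ h φ L
  exact ⟨four hIntA hIbpA hJetC L hG hS hζ, three_up hIntA hIbpA hJetC L hG hS hζ,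
    three_down hIntA hIbpA hJetC L hG hS hζ⟩

end

end U3


end

section

/-!
KER: the transport of the kernel.
-/

open Complex MeasureTheory Filter Topology Set
open scoped ContDiff

namespace U3

open QE QJ

noncomputable section

namespace KER

variable {σ : ℂ → ℝ}

/-! ### Calculus -/

lemma dzb_cexp {f : ℂ → ℂ} {z : ℂ} (hf : DifferentiableAt ℝ f z) :
    dzb (fun x => Complex.exp (f x)) z = Complex.exp (f z) * dzb f z := by
  have h := (hf.hasFDerivAt.cexp).fderiv
  unfold dzb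
  rw [h]
  simp only [smul_apply, smul_eq_mul]
  ring

lemma fderiv_eq (f : ℂ → ℂ) (z v : ℂ) :
    fderiv ℝ f z v = dz f z * v + dzb f z * (starRingEnd ℂ) v := by
  have h : v = (v.re : ℝ) • (1 : ℂ) + (v.im : ℝ) • Complex.I := by
    simp
  have h2 : fderiv ℝ f z v = (v.re : ℂ) * fderiv ℝ f z 1 + (v.im : ℂ) * fderiv ℝ f z Complex.I := by
    conv_lhs => rw [h]
    rw [map_add, map_smul, map_smul, Complex.real_smul, Complex.real_smul]
  have h3 : v = (v.re : ℂ) + (v.im : ℂ) * Complex.I := (Complex.re_add_im v).symm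
  have h4 : (starRingEnd ℂ) v = (v.re : ℂ) - (v.im : ℂ) * Complex.I := by
    apply Complex.ext <;> simp
  rw [h2, h4]
  unfold dz dzb
  linear_combination (-(1 / 2) * (fderiv ℝ f z 1 - Complex.I * fderiv ℝ f z Complex.I)) * h3 +
    ((v.im : ℂ) * fderiv ℝ f z Complex.I) * Complex.I_sq

lemma dz_id (z : ℂ) : dz (fun x => x) z = 1 := by
  unfold dz
  rw [fderiv_fun_id]
  simp only [ContinuousLinearMap.id_apply]
  linear_combination (-1 / 2 : ℂ) * I_mul_I

lemma dzb_id (z : ℂ) : dzb (fun x => x) z = 0 := by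
  unfold dzb
  rw [fderiv_fun_id]
  simp only [ContinuousLinearMap.id_apply]
  linear_combination (1 / 2 : ℂ) * I_mul_I

lemma dzb_comp_real {β : ℝ → ℝ} {r : ℂ → ℝ} {z : ℂ} (hβ : DifferentiableAt ℝ β (r z))
    (hr : DifferentiableAt ℝ r z) :
    dzb (fun x => (β (r x) : ℂ)) z = ((deriv β (r z) : ℝ) : ℂ) * dzb (fun x => (r x : ℂ)) z := by
  have h1 : HasFDerivAt (fun x => β (r x)) (deriv β (r z) • fderiv ℝ r z) z :=
    hβ.hasDerivAt.comp_hasFDerivAt z hr.hasFDerivAt
  have h2 : HasFDerivAt (fun x => (β (r x) : ℂ)) (ofRealCLM.comp (deriv β (r z) • fderiv ℝ r z)) z :=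
    ofRealCLM.hasFDerivAt.comp z h1
  have h3 : HasFDerivAt (fun x => (r x : ℂ)) (ofRealCLM.comp (fderiv ℝ r z)) z :=
    ofRealCLM.hasFDerivAt.comp z hr.hasFDerivAt
  unfold dzb
  rw [h2.fderiv, h3.fderiv]
  simp only [ContinuousLinearMap.comp_apply, smul_apply, smul_eq_mul, ofRealCLM_apply]
  push_cast
  ring

/-- the exponent of the phase -/
def LL (σ : ℂ → ℝ) (z w : ℂ) : ℂ :=
  (1 / 2) * ((sg σ z + sg σ w) * (w - z) - (starRingEnd ℂ) ((sg σ z + sg σ w) * (w - z)))

lemma ta_eq (σ : ℂ → ℝ) (z w : ℂ) : ta σ z w = Complex.exp (LL σ z w) := by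
  unfold ta LL
  congr 1
  rw [im_eq_sub_conj]
  field_simp

lemma ta_zpow (σ : ℂ → ℝ) (z w : ℂ) (m : ℤ) :
    (ta σ z w)⁻¹ ^ m = Complex.exp (-(m : ℂ) * LL σ z w) := by
  rw [ta_eq, ← Complex.exp_neg, ← Complex.exp_int_mul]
  congr 1
  ring

lemma norm_ta (σ : ℂ → ℝ) (z w : ℂ) : ‖ta σ z w‖ = 1 := by
  unfold ta
  exact Complex.norm_exp_ofReal_mul_I _

lemma norm_ta_zpow (σ : ℂ → ℝ) (z w : ℂ) (m : ℤ) : ‖(ta σ z w)⁻¹ ^ m‖ = 1 := by
  rw [norm_zpow, norm_inv, norm_ta, inv_one, one_zpow]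

lemma contDiff_sg (hσ : ContDiff ℝ ∞ σ) : ContDiff ℝ ∞ (sg σ) := contDiff_dz (contDiff_sig hσ)

lemma conj_sg (hσ : ContDiff ℝ ∞ σ) (z : ℂ) :
    dzb (fun w => (σ w : ℂ)) z = (starRingEnd ℂ) (sg σ z) := by
  have h := dzb_conj (cd_at (contDiff_sig hσ) z)
  simp only [conj_ofReal] at h
  exact h

lemma dzb_LL_left (hσ : ContDiff ℝ ∞ σ) (z w : ℂ) :
    dzb (fun x => LL σ x w) z = (1 / 2) * (dzb (sg σ) z * (w - z)
      - (starRingEnd ℂ) (dz (sg σ) z) * (starRingEnd ℂ) (w - z)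
      + (starRingEnd ℂ) (sg σ z + sg σ w)) := by
  have d1 : DifferentiableAt ℝ (sg σ) z := cd_at (contDiff_sg hσ) z
  have d2 : DifferentiableAt ℝ (fun x => sg σ x + sg σ w) z := d1.add_const _
  have d3 : DifferentiableAt ℝ (fun x : ℂ => w - x) z := (differentiableAt_const w).sub differentiableAt_id
  have d4 : DifferentiableAt ℝ (fun x => (sg σ x + sg σ w) * (w - x)) z := d2.fun_mul d3
  have d5 : DifferentiableAt ℝ (fun x => (starRingEnd ℂ) ((sg σ x + sg σ w) * (w - x))) z :=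
    conjCLE.differentiableAt.comp z d4
  have e1 : dzb (fun x => (sg σ x + sg σ w) * (w - x)) z = dzb (sg σ) z * (w - z) := by
    rw [dzb_mul d2 d3, dzb_add d1 (differentiableAt_const _), dzb_const,
      dzb_sub (differentiableAt_const w) differentiableAt_fun_id, dzb_const, dzb_id]
    ring
  have e2 : dz (fun x => (sg σ x + sg σ w) * (w - x)) z
      = dz (sg σ) z * (w - z) - (sg σ z + sg σ w) := by
    rw [dz_mul d2 d3, dz_add d1 (differentiableAt_const _), dz_const,
      dz_sub (differentiableAt_const w) differentiableAt_fun_id, dz_const, dz_id]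
    ring
  unfold LL
  rw [dzb_const_mul _ (d4.fun_sub d5), dzb_sub d4 d5, dzb_conj d4, e1, e2]
  simp only [map_sub, map_mul, map_add]
  ring

lemma dzb_LL_right (hσ : ContDiff ℝ ∞ σ) (z w : ℂ) :
    dzb (fun y => LL σ z y) w = (1 / 2) * (dzb (sg σ) w * (w - z)
      - (starRingEnd ℂ) (dz (sg σ) w) * (starRingEnd ℂ) (w - z)
      - (starRingEnd ℂ) (sg σ z + sg σ w)) := by
  have d1 : DifferentiableAt ℝ (sg σ) w := cd_at (contDiff_sg hσ) w
  have d2 : DifferentiableAt ℝ (fun y => sg σ z + sg σ y) w := (differentiableAt_const _).fun_add d1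
  have d3 : DifferentiableAt ℝ (fun y : ℂ => y - z) w := differentiableAt_fun_id.fun_sub (differentiableAt_const z)
  have d4 : DifferentiableAt ℝ (fun y => (sg σ z + sg σ y) * (y - z)) w := d2.fun_mul d3
  have d5 : DifferentiableAt ℝ (fun y => (starRingEnd ℂ) ((sg σ z + sg σ y) * (y - z))) w :=
    conjCLE.differentiableAt.comp w d4
  have e1 : dzb (fun y => (sg σ z + sg σ y) * (y - z)) w = dzb (sg σ) w * (w - z) := by
    rw [dzb_mul d2 d3, dzb_add (differentiableAt_const _) d1, dzb_const,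
      dzb_sub differentiableAt_fun_id (differentiableAt_const z), dzb_const, dzb_id]
    ring
  have e2 : dz (fun y => (sg σ z + sg σ y) * (y - z)) w
      = dz (sg σ) w * (w - z) + (sg σ z + sg σ w) := by
    rw [dz_mul d2 d3, dz_add (differentiableAt_const _) d1, dz_const,
      dz_sub differentiableAt_fun_id (differentiableAt_const z), dz_const, dz_id]
    ring
  unfold LL
  rw [dzb_const_mul _ (d4.fun_sub d5), dzb_sub d4 d5, dzb_conj d4, e1, e2]
  simp only [map_sub, map_mul, map_add]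
  ring

lemma r2_cast (σ : ℂ → ℝ) (z w : ℂ) :
    (r2 σ z w : ℂ) = ex σ 1 z * (ex σ 1 w * ((w - z) * (starRingEnd ℂ) (w - z))) := by
  unfold r2 ex
  rw [Complex.mul_conj, normSq_eq_norm_sq, Real.exp_add]
  push_cast
  ring_nf

lemma dzb_r2_left (hσ : ContDiff ℝ ∞ σ) (z w : ℂ) :
    dzb (fun x => (r2 σ x w : ℂ)) z
      = (starRingEnd ℂ) (sg σ z) * r2 σ z w - ex σ 1 z * ex σ 1 w * (w - z) := by
  have e0 : (fun x => (r2 σ x w : ℂ))
      = fun x => ex σ 1 x * (ex σ 1 w * ((w - x) * (starRingEnd ℂ) (w - x))) := by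
    funext x; exact r2_cast σ x w
  have d1 : DifferentiableAt ℝ (ex σ 1) z := cd_at (contDiff_ex hσ _) z
  have d3 : DifferentiableAt ℝ (fun x : ℂ => w - x) z := (differentiableAt_const w).sub differentiableAt_id
  have d4 : DifferentiableAt ℝ (fun x : ℂ => (starRingEnd ℂ) (w - x)) z :=
    conjCLE.differentiableAt.comp z d3
  have e1 : dzb (fun x : ℂ => w - x) z = 0 := by
    rw [dzb_sub (differentiableAt_const w) differentiableAt_fun_id, dzb_const, dzb_id, sub_zero]
  have e2 : dzb (fun x : ℂ => (starRingEnd ℂ) (w - x)) z = -1 := by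
    rw [dzb_conj d3, dz_sub (differentiableAt_const w) differentiableAt_fun_id, dz_const, dz_id]
    simp
  rw [e0, dzb_mul d1 ((d3.fun_mul d4).const_mul _), dzb_const_mul _ (d3.fun_mul d4),
    dzb_mul d3 d4, e1, e2, dzb_ex hσ, conj_sg hσ, r2_cast]
  push_cast
  ring

lemma dzb_r2_right (hσ : ContDiff ℝ ∞ σ) (z w : ℂ) :
    dzb (fun y => (r2 σ z y : ℂ)) w
      = (starRingEnd ℂ) (sg σ w) * r2 σ z w + ex σ 1 z * ex σ 1 w * (w - z) := by
  have e0 : (fun y => (r2 σ z y : ℂ))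
      = fun y => ex σ 1 z * (ex σ 1 y * ((y - z) * (starRingEnd ℂ) (y - z))) := by
    funext y; exact r2_cast σ z y
  have d1 : DifferentiableAt ℝ (ex σ 1) w := cd_at (contDiff_ex hσ _) w
  have d3 : DifferentiableAt ℝ (fun y : ℂ => y - z) w :=
    differentiableAt_fun_id.fun_sub (differentiableAt_const z)
  have d4 : DifferentiableAt ℝ (fun y : ℂ => (starRingEnd ℂ) (y - z)) w :=
    conjCLE.differentiableAt.comp w d3
  have e1 : dzb (fun y : ℂ => y - z) w = 0 := by
    rw [dzb_sub differentiableAt_fun_id (differentiableAt_const z), dzb_const, dzb_id, sub_zero]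
  have e2 : dzb (fun y : ℂ => (starRingEnd ℂ) (y - z)) w = 1 := by
    rw [dzb_conj d3, dz_sub differentiableAt_fun_id (differentiableAt_const z), dz_const, dz_id]
    simp
  rw [e0, dzb_const_mul _ (d1.fun_mul (d3.fun_mul d4)), dzb_mul d1 (d3.fun_mul d4),
    dzb_mul d3 d4, e1, e2, dzb_ex hσ, conj_sg hσ, r2_cast]
  push_cast
  ring

/-! ### The formula -/

lemma contDiff_r2_left (hσ : ContDiff ℝ ∞ σ) (w : ℂ) : ContDiff ℝ ∞ (fun x => r2 σ x w) := by
  unfold r2
  exact (Real.contDiff_exp.comp (hσ.add contDiff_const)).mul ((contDiff_const.sub contDiff_id).norm_sq ℝ)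

lemma contDiff_r2_right (hσ : ContDiff ℝ ∞ σ) (z : ℂ) : ContDiff ℝ ∞ (fun y => r2 σ z y) := by
  unfold r2
  exact (Real.contDiff_exp.comp (contDiff_const.add hσ)).mul ((contDiff_id.sub contDiff_const).norm_sq ℝ)

/-- the derivative of the profile -/
def b1 (β : ℝ → ℝ) (σ : ℂ → ℝ) (ε : ℝ) (z w : ℂ) : ℂ :=
  ((deriv β (r2 σ z w / ε ^ 2) : ℝ) : ℂ) / ε ^ 4

lemma dzb_gb {β : ℝ → ℝ} (hβ : ContDiff ℝ ∞ β) (ε : ℝ) {r : ℂ → ℝ} {z : ℂ}
    (hr : DifferentiableAt ℝ r z) :
    DifferentiableAt ℝ (fun x => ((β (r x / ε ^ 2) / ε ^ 2 : ℝ) : ℂ)) z ∧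
    dzb (fun x => ((β (r x / ε ^ 2) / ε ^ 2 : ℝ) : ℂ)) z
      = ((deriv β (r z / ε ^ 2) : ℝ) : ℂ) / ε ^ 4 * dzb (fun x => (r x : ℂ)) z := by
  have h1 : DifferentiableAt ℝ (fun x => r x / ε ^ 2) z := by
    simpa only [div_eq_mul_inv] using hr.mul_const (ε ^ 2)⁻¹
  have h2 : DifferentiableAt ℝ β (r z / ε ^ 2) := (hβ.differentiable (by simp)) _
  have h3 : DifferentiableAt ℝ (fun x => (β (r x / ε ^ 2) : ℂ)) z := by
    have : DifferentiableAt ℝ (fun x => β (r x / ε ^ 2)) z :=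
      DifferentiableAt.comp z (f := fun x => r x / ε ^ 2) h2 h1
    exact ofRealCLM.differentiableAt.comp z this
  have h4 : DifferentiableAt ℝ (fun x => (r x : ℂ)) z := ofRealCLM.differentiableAt.comp z hr
  have e0 : (fun x => ((β (r x / ε ^ 2) / ε ^ 2 : ℝ) : ℂ))
      = fun x => ((ε : ℂ) ^ 2)⁻¹ * (β (r x / ε ^ 2) : ℂ) := by
    funext x; push_cast; ring
  have e1 : (fun x => ((r x / ε ^ 2 : ℝ) : ℂ)) = fun x => ((ε : ℂ) ^ 2)⁻¹ * (r x : ℂ) := by
    funext x; push_cast; ring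
  have e2 : dzb (fun x => (β (r x / ε ^ 2) : ℂ)) z
      = ((deriv β (r z / ε ^ 2) : ℝ) : ℂ) * (((ε : ℂ) ^ 2)⁻¹ * dzb (fun x => (r x : ℂ)) z) := by
    rw [dzb_comp_real (r := fun x => r x / ε ^ 2) h2 h1, e1, dzb_const_mul _ h4]
  rw [e0]
  refine ⟨h3.const_mul _, ?_⟩
  rw [dzb_const_mul _ h3, e2]
  ring

/-- the exponent -/
def AA (σ : ℂ → ℝ) (z w : ℂ) : ℂ := σ z - σ w + LL σ z w

/-- the bracket -/
def BB (σ : ℂ → ℝ) (z w : ℂ) : ℂ :=
  (starRingEnd ℂ) (sg σ z) * (starRingEnd ℂ) (w - z) - 1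
    + Complex.exp (AA σ z w) * (1 + (starRingEnd ℂ) (sg σ w) * (starRingEnd ℂ) (w - z))

/-- the first remainder -/
def R1 (σ : ℂ → ℝ) (z w : ℂ) : ℂ :=
  (starRingEnd ℂ) (sg σ z) - (1 / 2) * (dzb (sg σ) z * (w - z)
      - (starRingEnd ℂ) (dz (sg σ) z) * (starRingEnd ℂ) (w - z)
      + (starRingEnd ℂ) (sg σ z + sg σ w))

/-- the second remainder -/
def R2 (σ : ℂ → ℝ) (z w : ℂ) : ℂ :=
  (starRingEnd ℂ) (sg σ w) + (1 / 2) * (dzb (sg σ) w * (w - z)
      - (starRingEnd ℂ) (dz (sg σ) w) * (starRingEnd ℂ) (w - z)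
      - (starRingEnd ℂ) (sg σ z + sg σ w))

lemma differentiableAt_LL_left (hσ : ContDiff ℝ ∞ σ) (z w : ℂ) :
    DifferentiableAt ℝ (fun x => LL σ x w) z := by
  have d1 : DifferentiableAt ℝ (sg σ) z := cd_at (contDiff_sg hσ) z
  have d3 : DifferentiableAt ℝ (fun x : ℂ => w - x) z := (differentiableAt_const w).sub differentiableAt_id
  have d4 : DifferentiableAt ℝ (fun x => (sg σ x + sg σ w) * (w - x)) z := (d1.add_const _).fun_mul d3
  have d5 : DifferentiableAt ℝ (fun x => (starRingEnd ℂ) ((sg σ x + sg σ w) * (w - x))) z :=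
    conjCLE.differentiableAt.comp z d4
  exact (d4.fun_sub d5).const_mul _

lemma differentiableAt_LL_right (hσ : ContDiff ℝ ∞ σ) (z w : ℂ) :
    DifferentiableAt ℝ (fun y => LL σ z y) w := by
  have d1 : DifferentiableAt ℝ (sg σ) w := cd_at (contDiff_sg hσ) w
  have d3 : DifferentiableAt ℝ (fun y : ℂ => y - z) w := differentiableAt_fun_id.fun_sub (differentiableAt_const z)
  have d4 : DifferentiableAt ℝ (fun y => (sg σ z + sg σ y) * (y - z)) w :=
    ((differentiableAt_const _).fun_add d1).fun_mul d3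
  have d5 : DifferentiableAt ℝ (fun y => (starRingEnd ℂ) ((sg σ z + sg σ y) * (y - z))) w :=
    conjCLE.differentiableAt.comp w d4
  exact (d4.fun_sub d5).const_mul _

lemma formula {β : ℝ → ℝ} (hβ : ContDiff ℝ ∞ β) (hσ : ContDiff ℝ ∞ σ) (k : ℤ) (ε : ℝ) (z w : ℂ) :
    Db σ (k + 1) (fun x => (ke β σ ε x w : ℂ) * (ta σ x w)⁻¹ ^ (k + 1)) z
        + ex σ 2 w * Db σ (-k) (fun y => (gb β σ ε z y : ℂ) * (ta σ z y)⁻¹ ^ k) w
      = 2 * ex σ (-1) z * ex σ 2 w * (ta σ z w)⁻¹ ^ (k + 1)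
          * (b1 β σ ε z w * (ex σ 1 z * ex σ 1 w * (w - z)) * BB σ z w
            + (k + 1) * (gb β σ ε z w : ℂ) * R1 σ z w)
        + 2 * ex σ 2 w * ex σ (-1) w * (ta σ z w)⁻¹ ^ k * ((-k) * (gb β σ ε z w : ℂ) * R2 σ z w) := by
  -- the functions
  have g1 := dzb_gb hβ ε (r := fun x => r2 σ x w) (z := z)
    ((contDiff_r2_left hσ w).differentiable (by simp) z)
  have g2 := dzb_gb hβ ε (r := fun y => r2 σ z y) (z := w)
    ((contDiff_r2_right hσ z).differentiable (by simp) w)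
  have l1 := differentiableAt_LL_left hσ z w
  have l2 := differentiableAt_LL_right hσ z w
  have f1 : (fun x => (ke β σ ε x w : ℂ) * (ta σ x w)⁻¹ ^ (k + 1))
      = fun x => ex σ 2 w * (((β (r2 σ x w / ε ^ 2) / ε ^ 2 : ℝ) : ℂ)
        * Complex.exp (-((k + 1 : ℤ) : ℂ) * LL σ x w)) := by
    funext x
    rw [ta_zpow]
    unfold ke gb ex
    push_cast
    ring
  have f2 : (fun y => (gb β σ ε z y : ℂ) * (ta σ z y)⁻¹ ^ k)
      = fun y => ((β (r2 σ z y / ε ^ 2) / ε ^ 2 : ℝ) : ℂ) * Complex.exp (-(k : ℂ) * LL σ z y) := by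
    funext y
    rw [ta_zpow]
    rfl
  have x1 : DifferentiableAt ℝ (fun x => Complex.exp (-((k + 1 : ℤ) : ℂ) * LL σ x w)) z :=
    (l1.const_mul _).cexp
  have x2 : DifferentiableAt ℝ (fun y => Complex.exp (-(k : ℂ) * LL σ z y)) w :=
    (l2.const_mul _).cexp
  have y1 : dzb (fun x => Complex.exp (-((k + 1 : ℤ) : ℂ) * LL σ x w)) z
      = Complex.exp (-((k + 1 : ℤ) : ℂ) * LL σ z w) * (-((k + 1 : ℤ) : ℂ) * dzb (fun x => LL σ x w) z) := by
    rw [dzb_cexp (l1.const_mul _), dzb_const_mul _ l1]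
  have y2 : dzb (fun y => Complex.exp (-(k : ℂ) * LL σ z y)) w
      = Complex.exp (-(k : ℂ) * LL σ z w) * (-(k : ℂ) * dzb (fun y => LL σ z y) w) := by
    rw [dzb_cexp (l2.const_mul _), dzb_const_mul _ l2]
  rw [f1, f2, Db_eq hσ _ ((g1.1.fun_mul x1).const_mul _), Db_eq hσ _ (g2.1.fun_mul x2),
    dzb_const_mul _ (g1.1.fun_mul x1), dzb_mul g1.1 x1, dzb_mul g2.1 x2, g1.2, g2.2, y1, y2,
    dzb_LL_left hσ, dzb_LL_right hσ, dzb_r2_left hσ, dzb_r2_right hσ, conj_sg hσ, conj_sg hσ,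
    ta_zpow, ta_zpow]
  have h1 : Complex.exp (-((k + 1 : ℤ) : ℂ) * LL σ z w) * Complex.exp (AA σ z w)
      = ex σ 1 z * ex σ (-1) w * Complex.exp (-(k : ℂ) * LL σ z w) := by
    rw [ex_ofReal, ex_ofReal, ← Complex.exp_add, ← Complex.exp_add, ← Complex.exp_add]
    congr 1
    unfold AA
    push_cast
    ring
  have h2 : ex σ (-1) z * ex σ 1 z = 1 := by
    rw [ex_mul, show (-1 : ℤ) + 1 = 0 by norm_num, ex_zero]
  have h3 := r2_cast σ z w
  have hg : (gb β σ ε z w : ℂ) = ((β (r2 σ z w / ε ^ 2) / ε ^ 2 : ℝ) : ℂ) := rfl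
  rw [hg]
  unfold BB b1 R1 R2
  generalize Complex.exp (AA σ z w) = EA at h1 ⊢
  generalize Complex.exp (-((k + 1 : ℤ) : ℂ) * LL σ z w) = T1 at h1 ⊢
  generalize Complex.exp (-(k : ℂ) * LL σ z w) = T0 at h1 ⊢
  generalize ex σ (-1) w = ew at h1 ⊢
  generalize ex σ (-1) z = ez at h1 h2 ⊢
  rw [h3]
  generalize ex σ 1 z = fz at h1 h2 ⊢
  generalize ex σ 1 w = fw
  generalize ((deriv β (r2 σ z w / ε ^ 2) : ℝ) : ℂ) / (ε : ℂ) ^ 4 = bb
  generalize ((β (r2 σ z w / ε ^ 2) / ε ^ 2 : ℝ) : ℂ) = gg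
  generalize (starRingEnd ℂ) (w - z) = db
  generalize w - z = d
  simp only [map_add]
  generalize (starRingEnd ℂ) (sg σ z) = sz
  generalize (starRingEnd ℂ) (sg σ w) = sw
  push_cast
  linear_combination (-2 * ez * ex σ 2 w * bb * (fz * fw * d) * (1 + sw * db)) * h1
    + (-2 * ex σ 2 w * bb * (fz * fw * d) * (1 + sw * db) * ew * T0) * h2

/-! ### Bounds -/

lemma bnd {G : Type*} [NormedAddCommGroup G] {F : ℂ → G} (hF : Continuous F) (R : ℝ) :
    ∃ M, 0 ≤ M ∧ ∀ x ∈ Metric.closedBall (0 : ℂ) R, ‖F x‖ ≤ M := by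
  obtain ⟨M, hM⟩ := (isCompact_closedBall (0 : ℂ) R).exists_bound_of_continuousOn hF.continuousOn
  exact ⟨max M 0, le_max_right _ _, fun x hx => (hM x hx).trans (le_max_left _ _)⟩

lemma lip {G : Type*} [NormedAddCommGroup G] [NormedSpace ℝ G] {F : ℂ → G}
    (hF : ContDiff ℝ ∞ F) (R : ℝ) : ∃ L, 0 ≤ L ∧ ∀ x ∈ Metric.closedBall (0 : ℂ) R,
      ∀ y ∈ Metric.closedBall (0 : ℂ) R, ‖F y - F x‖ ≤ L * ‖y - x‖ := by
  obtain ⟨L, hL0, hL⟩ := bnd (hF.continuous_fderiv (by simp)) R
  refine ⟨L, hL0, fun x hx y hy => ?_⟩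
  exact (convex_closedBall (0 : ℂ) R).norm_image_sub_le_of_norm_fderiv_le
    (fun u _ => hF.differentiable (by simp) u) hL hx hy

lemma taylor (hσ : ContDiff ℝ ∞ σ) (R : ℝ) : ∃ C, 0 ≤ C ∧ ∀ z ∈ Metric.closedBall (0 : ℂ) R,
    ∀ w ∈ Metric.closedBall (0 : ℂ) R, ‖(σ w : ℂ) - σ z - (sg σ z * (w - z)
      + (starRingEnd ℂ) (sg σ z) * (starRingEnd ℂ) (w - z))‖ ≤ C * ‖w - z‖ ^ 2 := by
  have hc := contDiff_sig hσ
  have hd : ContDiff ℝ ∞ (fderiv ℝ (fun w => (σ w : ℂ))) := hc.fderiv_right (m := ∞) (by simp)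
  obtain ⟨L, hL0, hL⟩ := lip hd R
  refine ⟨L, hL0, fun z hz w hw => ?_⟩
  have h1 : ∀ x ∈ segment ℝ z w,
      ‖fderiv ℝ (fun w => (σ w : ℂ)) x - fderiv ℝ (fun w => (σ w : ℂ)) z‖ ≤ L * ‖w - z‖ := by
    intro x hx
    have hx' := (convex_closedBall (0 : ℂ) R).segment_subset hz hw hx
    refine (hL z hz x hx').trans ?_
    have := norm_sub_le_of_mem_segment hx
    gcongr
  have h2 := (convex_segment z w).norm_image_sub_le_of_norm_fderiv_le'
    (fun x _ => hc.differentiable (by simp) x) h1 (left_mem_segment ℝ z w) (right_mem_segment ℝ z w)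
  rw [fderiv_eq, conj_sg hσ] at h2
  calc _ ≤ L * ‖w - z‖ * ‖w - z‖ := h2
    _ = L * ‖w - z‖ ^ 2 := by ring

lemma norm_dist_le {R : ℝ} {z w : ℂ} (hz : z ∈ Metric.closedBall (0 : ℂ) R)
    (hw : w ∈ Metric.closedBall (0 : ℂ) R) : ‖w - z‖ ≤ 2 * R := by
  rw [mem_closedBall_zero_iff] at hz hw
  have := norm_sub_le w z
  linarith

lemma AA_bound (hσ : ContDiff ℝ ∞ σ) (R : ℝ) : ∃ C, 0 ≤ C ∧ ∀ z ∈ Metric.closedBall (0 : ℂ) R,
    ∀ w ∈ Metric.closedBall (0 : ℂ) R,
    ‖AA σ z w + 2 * ((starRingEnd ℂ) (sg σ z) * (starRingEnd ℂ) (w - z))‖ ≤ C * ‖w - z‖ ^ 2 := by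
  obtain ⟨C, hC0, hC⟩ := taylor hσ R
  obtain ⟨L, hL0, hL⟩ := lip (contDiff_sg hσ) R
  refine ⟨C + L, by positivity, fun z hz w hw => ?_⟩
  have e : AA σ z w + 2 * ((starRingEnd ℂ) (sg σ z) * (starRingEnd ℂ) (w - z))
      = -((σ w : ℂ) - σ z - (sg σ z * (w - z)
      + (starRingEnd ℂ) (sg σ z) * (starRingEnd ℂ) (w - z)))
        + (1 / 2) * ((sg σ w - sg σ z) * (w - z)
          - (starRingEnd ℂ) ((sg σ w - sg σ z) * (w - z))) := by
    unfold AA LL
    simp only [map_mul, map_add, map_sub]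
    ring
  rw [e]
  have h1 := hC z hz w hw
  have h2 := hL z hz w hw
  have h3 : ‖(1 / 2 : ℂ) * ((sg σ w - sg σ z) * (w - z)
      - (starRingEnd ℂ) ((sg σ w - sg σ z) * (w - z)))‖ ≤ L * ‖w - z‖ ^ 2 := by
    rw [norm_mul]
    have h4 := norm_sub_le ((sg σ w - sg σ z) * (w - z)) ((starRingEnd ℂ) ((sg σ w - sg σ z) * (w - z)))
    rw [RCLike.norm_conj, norm_mul] at h4
    have h5 : ‖sg σ w - sg σ z‖ * ‖w - z‖ ≤ L * ‖w - z‖ * ‖w - z‖ := by gcongr
    have h6 : ‖(1 / 2 : ℂ)‖ = 1 / 2 := by norm_num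
    rw [h6]
    linarith only [h4, h5]
  calc _ ≤ _ := norm_add_le _ _
    _ ≤ C * ‖w - z‖ ^ 2 + L * ‖w - z‖ ^ 2 := by
        rw [norm_neg]
        exact add_le_add h1 h3
    _ = (C + L) * ‖w - z‖ ^ 2 := by ring

lemma BB_bound (hσ : ContDiff ℝ ∞ σ) {R : ℝ} (hR : 0 ≤ R) :
    ∃ C, 0 ≤ C ∧ ∀ z ∈ Metric.closedBall (0 : ℂ) R,
    ∀ w ∈ Metric.closedBall (0 : ℂ) R, ‖BB σ z w‖ ≤ C * ‖w - z‖ ^ 2 := by
  obtain ⟨C, hC0, hC⟩ := AA_bound hσ R
  obtain ⟨L, hL0, hL⟩ := lip (contDiff_sg hσ) R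
  obtain ⟨M, hM0, hM⟩ := bnd (contDiff_sg hσ).continuous R
  set a : ℝ := C * (2 * R) + 2 * M with ha
  have ha0 : 0 ≤ a := by (clear * - hC0 hR hM0; positivity)
  refine ⟨C + L + a * M + a ^ 2 * Real.exp (a * (2 * R)) * (1 + M * (2 * R)), by (clear * - hC0 hL0 hR hM0; positivity),
    fun z hz w hw => ?_⟩
  have hd := norm_dist_le hz hw
  have h1 := hC z hz w hw
  have h2 := hL z hz w hw
  have hMz := hM z hz
  have hMw := hM w hw
  have hd0 : 0 ≤ ‖w - z‖ := norm_nonneg _
  have hA : ‖AA σ z w‖ ≤ a * ‖w - z‖ := by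
    have e : AA σ z w = (AA σ z w + 2 * ((starRingEnd ℂ) (sg σ z) * (starRingEnd ℂ) (w - z)))
        - 2 * ((starRingEnd ℂ) (sg σ z) * (starRingEnd ℂ) (w - z)) := by ring
    rw [e]
    refine (norm_sub_le _ _).trans ?_
    have h3 : ‖2 * ((starRingEnd ℂ) (sg σ z) * (starRingEnd ℂ) (w - z))‖ ≤ 2 * (M * ‖w - z‖) := by
      rw [norm_mul, norm_mul, RCLike.norm_conj, RCLike.norm_conj, Complex.norm_ofNat]
      (clear * - hMz; gcongr)
    have h4 : C * ‖w - z‖ ^ 2 ≤ C * (2 * R) * ‖w - z‖ := by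
      have : ‖w - z‖ * ‖w - z‖ ≤ (2 * R) * ‖w - z‖ := by (clear * - hd; gcongr)
      nlinarith only [hC0, this]
    rw [ha]
    linarith
  have hE : ‖Complex.exp (AA σ z w) - 1 - AA σ z w‖
      ≤ a ^ 2 * Real.exp (a * (2 * R)) * ‖w - z‖ ^ 2 := by
    have h3 := Complex.norm_exp_sub_sum_le_norm_mul_exp (AA σ z w) 2
    have e : Complex.exp (AA σ z w) - ∑ m ∈ Finset.range 2, AA σ z w ^ m / (m.factorial : ℂ)
        = Complex.exp (AA σ z w) - 1 - AA σ z w := by
      simp [Finset.sum_range_succ]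
      ring
    rw [e] at h3
    have h4 : ‖AA σ z w‖ ≤ a * (2 * R) := hA.trans (by gcongr)
    calc _ ≤ ‖AA σ z w‖ ^ 2 * Real.exp ‖AA σ z w‖ := h3
      _ ≤ (a * ‖w - z‖) ^ 2 * Real.exp (a * (2 * R)) := by gcongr
      _ = _ := by ring
  have e : BB σ z w = (AA σ z w + 2 * ((starRingEnd ℂ) (sg σ z) * (starRingEnd ℂ) (w - z)))
      + (starRingEnd ℂ) (sg σ w - sg σ z) * (starRingEnd ℂ) (w - z)
      + AA σ z w * ((starRingEnd ℂ) (sg σ w) * (starRingEnd ℂ) (w - z))
      + (Complex.exp (AA σ z w) - 1 - AA σ z w)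
        * (1 + (starRingEnd ℂ) (sg σ w) * (starRingEnd ℂ) (w - z)) := by
    unfold BB
    rw [map_sub (starRingEnd ℂ) (sg σ w) (sg σ z)]
    ring
  rw [e]
  have h5 : ‖(starRingEnd ℂ) (sg σ w - sg σ z) * (starRingEnd ℂ) (w - z)‖ ≤ L * ‖w - z‖ ^ 2 := by
    rw [norm_mul, RCLike.norm_conj, RCLike.norm_conj]
    calc _ ≤ L * ‖w - z‖ * ‖w - z‖ := by gcongr
      _ = _ := by ring
  have h6 : ‖AA σ z w * ((starRingEnd ℂ) (sg σ w) * (starRingEnd ℂ) (w - z))‖
      ≤ a * M * ‖w - z‖ ^ 2 := by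
    rw [norm_mul, norm_mul, RCLike.norm_conj, RCLike.norm_conj]
    calc _ ≤ (a * ‖w - z‖) * (M * ‖w - z‖) := by gcongr
      _ = _ := by ring
  have h7 : ‖1 + (starRingEnd ℂ) (sg σ w) * (starRingEnd ℂ) (w - z)‖ ≤ 1 + M * (2 * R) := by
    refine (norm_add_le _ _).trans ?_
    rw [norm_mul, RCLike.norm_conj, RCLike.norm_conj, norm_one]
    (clear * - hMw hd hM0; gcongr)
  have h8 : ‖(Complex.exp (AA σ z w) - 1 - AA σ z w)
        * (1 + (starRingEnd ℂ) (sg σ w) * (starRingEnd ℂ) (w - z))‖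
      ≤ a ^ 2 * Real.exp (a * (2 * R)) * (1 + M * (2 * R)) * ‖w - z‖ ^ 2 := by
    rw [norm_mul]
    calc _ ≤ (a ^ 2 * Real.exp (a * (2 * R)) * ‖w - z‖ ^ 2) * (1 + M * (2 * R)) := by gcongr
      _ = _ := by ring
  calc _ ≤ C * ‖w - z‖ ^ 2 + L * ‖w - z‖ ^ 2 + a * M * ‖w - z‖ ^ 2
        + a ^ 2 * Real.exp (a * (2 * R)) * (1 + M * (2 * R)) * ‖w - z‖ ^ 2 := by
        refine (norm_add_le _ _).trans (add_le_add ((norm_add_le _ _).trans
          (add_le_add ((norm_add_le _ _).trans (add_le_add h1 h5)) h6)) h8)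
    _ = _ := by ring

lemma R_bound (hσ : ContDiff ℝ ∞ σ) (R : ℝ) :
    ∃ C, 0 ≤ C ∧ ∀ z ∈ Metric.closedBall (0 : ℂ) R, ∀ w ∈ Metric.closedBall (0 : ℂ) R,
      ‖R1 σ z w‖ ≤ C * ‖w - z‖ ∧ ‖R2 σ z w‖ ≤ C * ‖w - z‖ := by
  obtain ⟨L, hL0, hL⟩ := lip (contDiff_sg hσ) R
  obtain ⟨M, hM0, hM⟩ := bnd (contDiff_dzb (contDiff_sg hσ)).continuous R
  obtain ⟨N, hN0, hN⟩ := bnd (contDiff_dz (contDiff_sg hσ)).continuous R
  have key : ∀ u ∈ Metric.closedBall (0 : ℂ) R, ∀ d s : ℂ, ∀ t : ℝ, ‖s‖ ≤ L * t → ‖d‖ ≤ t →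
      ‖(1 / 2 : ℂ) * ((starRingEnd ℂ) s - (dzb (sg σ) u * d
        - (starRingEnd ℂ) (dz (sg σ) u) * (starRingEnd ℂ) d))‖ ≤ (L + M + N) * t := by
    intro u hu d s t hs hd
    have ht : 0 ≤ t := (norm_nonneg _).trans hd
    have h1 : ‖dzb (sg σ) u * d‖ ≤ M * t := by
      rw [norm_mul]
      have := hM u hu
      gcongr
    have h2 : ‖(starRingEnd ℂ) (dz (sg σ) u) * (starRingEnd ℂ) d‖ ≤ N * t := by
      rw [norm_mul, RCLike.norm_conj, RCLike.norm_conj]
      have := hN u hu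
      (clear * - this hd hN0; gcongr)
    have h3 := norm_sub_le (dzb (sg σ) u * d) ((starRingEnd ℂ) (dz (sg σ) u) * (starRingEnd ℂ) d)
    have h4 := norm_sub_le ((starRingEnd ℂ) s) (dzb (sg σ) u * d
        - (starRingEnd ℂ) (dz (sg σ) u) * (starRingEnd ℂ) d)
    rw [RCLike.norm_conj] at h4
    rw [norm_mul, show ‖(1 / 2 : ℂ)‖ = 1 / 2 by norm_num]
    have h5 : 0 ≤ (L + M + N) * t := by positivity
    linarith only [hs, h1, h2, h3, h4, h5]
  refine ⟨L + M + N, by positivity, fun z hz w hw => ⟨?_, ?_⟩⟩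
  · have e : R1 σ z w = (1 / 2 : ℂ) * ((starRingEnd ℂ) (sg σ z - sg σ w) - (dzb (sg σ) z * (w - z)
        - (starRingEnd ℂ) (dz (sg σ) z) * (starRingEnd ℂ) (w - z))) := by
      unfold R1
      simp only [map_add, map_sub]
      ring
    rw [e]
    refine key z hz _ _ _ ?_ le_rfl
    rw [norm_sub_rev]
    exact hL z hz w hw
  · have e : R2 σ z w = -((1 / 2 : ℂ) * ((starRingEnd ℂ) (sg σ z - sg σ w) - (dzb (sg σ) w * (w - z)
        - (starRingEnd ℂ) (dz (sg σ) w) * (starRingEnd ℂ) (w - z)))) := by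
      unfold R2
      simp only [map_add, map_sub]
      ring
    rw [e, norm_neg]
    refine key w hw _ _ _ ?_ le_rfl
    rw [norm_sub_rev]
    exact hL z hz w hw

lemma vanish {β : ℝ → ℝ} (hβ : Bump β) {t : ℝ} (ht : 1 < t) : β t = 0 ∧ deriv β t = 0 := by
  refine ⟨hβ.supp t ht.le, ?_⟩
  have h : β =ᶠ[𝓝 t] fun _ => 0 := by
    filter_upwards [Ioi_mem_nhds ht] with s hs
    exact hβ.supp s (le_of_lt hs)
  rw [h.deriv_eq, deriv_const]

lemma r2_ge {m : ℝ} (hm : 0 < m) {z w : ℂ} (hz : ‖ex σ (-1) z‖ ≤ m) (hw : ‖ex σ (-1) w‖ ≤ m) :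
    ‖w - z‖ ^ 2 ≤ m ^ 2 * r2 σ z w := by
  rw [norm_ex] at hz hw
  have h1 : Real.exp (((-1 : ℤ) : ℝ) * σ z) * Real.exp (((-1 : ℤ) : ℝ) * σ w)
      * Real.exp (σ z + σ w) = 1 := by
    rw [← Real.exp_add, ← Real.exp_add, ← Real.exp_zero]
    congr 1
    push_cast
    ring
  have h2 : Real.exp (((-1 : ℤ) : ℝ) * σ z) * Real.exp (((-1 : ℤ) : ℝ) * σ w) ≤ m * m :=
    mul_le_mul hz hw (Real.exp_pos _).le hm.le
  have h3 : 1 ≤ m ^ 2 * Real.exp (σ z + σ w) := by
    have := mul_le_mul_of_nonneg_right h2 (Real.exp_pos (σ z + σ w)).le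
    rw [h1] at this
    linarith only [this]
  unfold r2
  calc ‖w - z‖ ^ 2 = 1 * ‖w - z‖ ^ 2 := (one_mul _).symm
    _ ≤ (m ^ 2 * Real.exp (σ z + σ w)) * ‖w - z‖ ^ 2 := by gcongr
    _ = _ := by ring

end KER

open _root_.U3.KER in
/-- KER: the transport of the kernel -/
theorem stmtKer : StmtKer := by
  intro β σ k K hβ hσ hK
  obtain ⟨R₀, hR₀⟩ := hK.isBounded.subset_closedBall (0 : ℂ)
  set R : ℝ := max R₀ 0 with hRdef
  have hR : 0 ≤ R := le_max_right _ _
  have hKR : ∀ z ∈ K, z ∈ Metric.closedBall (0 : ℂ) R := fun z hz =>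
    Metric.closedBall_subset_closedBall (le_max_left _ _) (hR₀ hz)
  obtain ⟨CB, hCB0, hCB⟩ := BB_bound hσ hR
  obtain ⟨CR, hCR0, hCR⟩ := R_bound hσ R
  obtain ⟨m₀, hm₀, hm⟩ := bnd (F := ex σ (-1)) (contDiff_ex hσ _).continuous R
  obtain ⟨p₁, hp₁0, hp₁⟩ := bnd (F := ex σ 1) (contDiff_ex hσ _).continuous R
  obtain ⟨p₂, hp₂0, hp₂⟩ := bnd (F := ex σ 2) (contDiff_ex hσ _).continuous R
  obtain ⟨u₀, hu₀⟩ := (isCompact_Icc (a := (0 : ℝ)) (b := 1)).exists_bound_of_continuousOn
    hβ.smooth.continuous.continuousOn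
  obtain ⟨v₀, hv₀⟩ := (isCompact_Icc (a := (0 : ℝ)) (b := 1)).exists_bound_of_continuousOn
    (hβ.smooth.continuous_deriv (by simp)).continuousOn
  set u : ℝ := max u₀ 0 with hu
  set v : ℝ := max v₀ 0 with hv
  have hu0 : 0 ≤ u := le_max_right _ _
  have hv0 : 0 ≤ v := le_max_right _ _
  set m : ℝ := m₀ + 1 with hmdef
  have hmpos : 0 < m := by positivity
  set κ : ℝ := |(k : ℝ)| + 1 with hκ
  have hκ0 : 0 ≤ κ := by positivity
  set C₀ : ℝ := 2 * m * p₂ * (v * (p₁ * p₁) * CB * m ^ 3 + κ * u * CR * m)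
    + 2 * p₂ * m * (κ * u * CR * m) with hC₀
  have hC₀0 : 0 ≤ C₀ := by positivity
  refine ⟨C₀ + m, 1, by positivity, one_pos, fun ε hε _ z hz w hw => ?_⟩
  have hzR := hKR z hz
  have hwR := hKR w hw
  have hez : ‖ex σ (-1) z‖ ≤ m := (hm z hzR).trans (by rw [hmdef]; linarith)
  have hew : ‖ex σ (-1) w‖ ≤ m := (hm w hwR).trans (by rw [hmdef]; linarith)
  have hge := r2_ge hmpos hez hew
  rw [formula hβ.smooth hσ k ε z w]
  have hr0 : 0 ≤ r2 σ z w := by unfold r2; positivity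
  have hε2 : 0 < ε ^ 2 := by positivity
  -- the case of distant points
  have far : 1 < r2 σ z w / ε ^ 2 →
      2 * ex σ (-1) z * ex σ 2 w * (ta σ z w)⁻¹ ^ (k + 1)
          * (b1 β σ ε z w * (ex σ 1 z * ex σ 1 w * (w - z)) * BB σ z w
            + (k + 1) * (gb β σ ε z w : ℂ) * R1 σ z w)
        + 2 * ex σ 2 w * ex σ (-1) w * (ta σ z w)⁻¹ ^ k
          * ((-k) * (gb β σ ε z w : ℂ) * R2 σ z w) = 0 := by
    intro h
    obtain ⟨h1, h2⟩ := vanish hβ h
    unfold b1 gb
    rw [h1, h2]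
    simp
  constructor
  · by_cases hc : 1 < r2 σ z w / ε ^ 2
    · rw [far hc, norm_zero]
      positivity
    · rw [not_lt] at hc
      have ht : r2 σ z w / ε ^ 2 ∈ Icc (0 : ℝ) 1 := ⟨by positivity, hc⟩
      have hr : r2 σ z w ≤ ε ^ 2 := by rwa [div_le_one hε2] at hc
      have hd : ‖w - z‖ ≤ m * ε := by
        have : ‖w - z‖ ^ 2 ≤ (m * ε) ^ 2 := by
          calc _ ≤ m ^ 2 * r2 σ z w := hge
            _ ≤ m ^ 2 * ε ^ 2 := by gcongr
            _ = _ := by ring
        exact (pow_le_pow_iff_left₀ (norm_nonneg _) (by positivity) two_ne_zero).1 this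
      have hb1 : ‖b1 β σ ε z w‖ ≤ v / ε ^ 4 := by
        unfold b1
        rw [norm_div, Complex.norm_real, norm_pow, Complex.norm_real, Real.norm_of_nonneg hε.le]
        have := (hv₀ _ ht).trans (le_max_left v₀ 0)
        gcongr
      have hgb : ‖(gb β σ ε z w : ℂ)‖ ≤ u / ε ^ 2 := by
        unfold gb
        rw [Complex.norm_real, norm_div, norm_pow, Real.norm_of_nonneg hε.le]
        have := (hu₀ _ ht).trans (le_max_left u₀ 0)
        gcongr
      have hB := hCB z hzR w hwR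
      obtain ⟨hR1, hR2⟩ := hCR z hzR w hwR
      have hd0 : 0 ≤ ‖w - z‖ := norm_nonneg _
      have hk1 : ‖((k : ℂ) + 1)‖ ≤ κ := by
        refine (norm_add_le _ _).trans ?_
        rw [norm_one, hκ]
        simp
      have hk2 : ‖(-(k : ℂ))‖ ≤ κ := by
        rw [norm_neg, hκ]
        simp
      have t1 : ‖b1 β σ ε z w * (ex σ 1 z * ex σ 1 w * (w - z)) * BB σ z w‖
          ≤ v * (p₁ * p₁) * CB * m ^ 3 / ε := by
        rw [norm_mul, norm_mul, norm_mul, norm_mul]
        calc _ ≤ v / ε ^ 4 * (p₁ * p₁ * (m * ε)) * (CB * (m * ε) ^ 2) := by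
              have a1 := hp₁ z hzR
              have a2 := hp₁ w hwR
              have a3 : ‖BB σ z w‖ ≤ CB * (m * ε) ^ 2 := hB.trans (by gcongr)
              gcongr
          _ = _ := by
              field_simp
      have t2 : ‖((k : ℂ) + 1) * (gb β σ ε z w : ℂ) * R1 σ z w‖ ≤ κ * u * CR * m / ε := by
        rw [norm_mul, norm_mul]
        calc _ ≤ κ * (u / ε ^ 2) * (CR * (m * ε)) := by
              have a3 : ‖R1 σ z w‖ ≤ CR * (m * ε) := hR1.trans (by gcongr)
              gcongr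
          _ = _ := by
              field_simp
      have t3 : ‖(-(k : ℂ)) * (gb β σ ε z w : ℂ) * R2 σ z w‖ ≤ κ * u * CR * m / ε := by
        rw [norm_mul, norm_mul]
        calc _ ≤ κ * (u / ε ^ 2) * (CR * (m * ε)) := by
              have a3 : ‖R2 σ z w‖ ≤ CR * (m * ε) := hR2.trans (by gcongr)
              gcongr
          _ = _ := by
              field_simp
      have s1 : ‖2 * ex σ (-1) z * ex σ 2 w * (ta σ z w)⁻¹ ^ (k + 1)
          * (b1 β σ ε z w * (ex σ 1 z * ex σ 1 w * (w - z)) * BB σ z w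
            + (k + 1) * (gb β σ ε z w : ℂ) * R1 σ z w)‖
          ≤ 2 * m * p₂ * (v * (p₁ * p₁) * CB * m ^ 3 / ε + κ * u * CR * m / ε) := by
        rw [norm_mul, norm_mul, norm_ta_zpow, mul_one, norm_mul, norm_mul, Complex.norm_ofNat]
        have a1 := hp₂ w hwR
        have a2 := (norm_add_le (b1 β σ ε z w * (ex σ 1 z * ex σ 1 w * (w - z)) * BB σ z w)
          (((k : ℂ) + 1) * (gb β σ ε z w : ℂ) * R1 σ z w)).trans (add_le_add t1 t2)
        gcongr
      have s2 : ‖2 * ex σ 2 w * ex σ (-1) w * (ta σ z w)⁻¹ ^ k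
          * ((-k) * (gb β σ ε z w : ℂ) * R2 σ z w)‖
          ≤ 2 * p₂ * m * (κ * u * CR * m / ε) := by
        rw [norm_mul, norm_mul, norm_ta_zpow, mul_one, norm_mul, norm_mul, Complex.norm_ofNat]
        have a1 := hp₂ w hwR
        gcongr
      calc _ ≤ _ := norm_add_le _ _
        _ ≤ _ := add_le_add s1 s2
        _ = C₀ / ε := by rw [hC₀]; field_simp
        _ ≤ (C₀ + m) / ε := by
            gcongr
            linarith
  · intro h
    apply far
    rw [one_lt_div hε2]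
    have h1 : m * ε < ‖w - z‖ := lt_of_le_of_lt (by nlinarith) h
    have h2 : (m * ε) ^ 2 < ‖w - z‖ ^ 2 := pow_lt_pow_left₀ h1 (by positivity) two_ne_zero
    have h3 : m ^ 2 * ε ^ 2 < m ^ 2 * r2 σ z w := by nlinarith
    exact lt_of_mul_lt_mul_left h3 (by positivity)

end

end U3


end
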