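import Mathlib
import Pool.Agent.BWM.C17
import Pool.Agent.BWM.C20
import Pool.Agent.BWM.C21
import Pool.Agent.BWM.C22
import Pool.Agent.BWM.Defs

/-! Parts: U3.DefsG, U3.StmtsG, U3.ROT, U3.ARE, U3.NCR, U3.TRV, U3.CONU, U3.GEO, U3.GEV, U3.LCZ, U3.WGA, U3.WGB, U3.StmtsT, U3.TLU, U3.FND -/

section

/-!
Third order statistics of all eigenfunctions on surfaces of negative curvature: definitions for the
geodesic flow and for the global part.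
-/

open MeasureTheory Filter Topology Set
open UpperHalfPlane hiding I
open scoped ContDiff MatrixGroups

namespace U3

open QE QE.NC QJ

noncomputable section

/-- the base point of a frame -/
def pG (g : SL(2, ℝ)) : ℂ := ((g • UpperHalfPlane.I : ℍ) : ℂ)

/-- the direction of a frame (`i e^{-iθ}` for the geodesic in the direction `e^{iθ}`) -/
def uG (g : SL(2, ℝ)) : ℂ := Complex.I * (starRingEnd ℂ) (dirG g)

/-- the velocity of the geodesic -/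
def vG (ρ : ℍ → ℝ) (g : SL(2, ℝ)) : ℂ :=
  ((Real.exp (-ρ (g • UpperHalfPlane.I)) * (pG g).im : ℝ) : ℂ) * dirG g

/-- the rotation of frames which multiplies `uG` by `w3` -/
def rot3 : SL(2, ℝ) :=
  ⟨!![1 / 2, -(Real.sqrt 3 / 2); Real.sqrt 3 / 2, 1 / 2], by
    rw [Matrix.det_fin_two_of]
    have h : Real.sqrt 3 ^ 2 = 3 := Real.sq_sqrt (by norm_num)
    nlinarith [h]⟩

/-- the orbit segment of `v`, with both signs -/
def Sg (Φ : ℝ → SL(2, ℝ) → SL(2, ℝ)) (S : ℝ) (v : SL(2, ℝ)) : Set SL(2, ℝ) :=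
  {w | ∃ s ∈ Icc (-S) S, w = Φ s v ∨ w = -Φ s v}

/-- the pairs of `ε`-close points over `F` whose directions make an angle of about 120 degrees -/
def Nn (ε η : ℝ) (F : Set ℂ) : Set (SL(2, ℝ) × SL(2, ℝ)) :=
  {x | pG x.1 ∈ F ∧ ‖pG x.1 - pG x.2‖ ≤ ε ∧ ‖w3 * uG x.1 - uG x.2‖ ≤ η}

/-- the pairs whose geodesics cross, within time `T` and over `F`, at an angle of about 120 degrees -/
def Cc (Φ : ℝ → SL(2, ℝ) → SL(2, ℝ)) (T η : ℝ) (F : Set ℂ) : Set (SL(2, ℝ) × SL(2, ℝ)) :=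
  {x | ∃ s ∈ Icc 0 T, ∃ t ∈ Icc 0 T, pG (Φ s x.1) ∈ F ∧ pG (Φ s x.1) = pG (Φ t x.2) ∧
    ‖w3 * uG (Φ s x.1) - uG (Φ t x.2)‖ ≤ η}

/-- the hypotheses on an open set `U`: `φₙ` are smooth real functions with `h² Δ φ = - g φ` and with
bounded mass on the compact subsets -/
structure LocU (U : Set ℂ) (g : ℂ → ℝ) (h : ℕ → ℝ) (φ : ℕ → ℂ → ℂ) : Prop where
  hpos : ∀ n, 0 < h n
  hlim : Tendsto h atTop (𝓝 0)
  smooth : SmoothSeq U φ
  real : ∀ n, ∀ z ∈ U, (starRingEnd ℂ) (φ n z) = φ n z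
  eig : ∀ n, ∀ z ∈ U, 4 * (h n : ℂ) ^ 2 * dz (dzb (φ n)) z = - ((g z : ℝ) : ℂ) * φ n z
  bdd : ∀ K, IsCompact K → K ⊆ U → ∃ C : ℝ, ∀ᶠ n in atTop, ∫ z in K, ‖φ n z‖ ^ 2 ≤ C

/-- local data on `V` which agree with `g`, `φ` -/
structure Agree (V U : Set ℂ) (g : ℂ → ℝ) (h : ℕ → ℝ) (φ : ℕ → ℂ → ℂ) (σ : ℂ → ℝ)
    (φ' : ℕ → ℂ → ℂ) : Prop where
  op : IsOpen V
  sub : V ⊆ U
  eg : ∀ z ∈ V, Real.exp (2 * σ z) = g z
  eφ : ∀ n, ∀ z ∈ V, φ' n z = φ n z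
  loc : LocB V σ h φ'

/-- the three-jet integrals tend to zero -/
def E3V (U : Set ℂ) (g : ℂ → ℝ) (h : ℕ → ℝ) (φ : ℕ → ℂ → ℂ) : Prop :=
  ∀ (V : Set ℂ) (σ : ℂ → ℝ) (φ' : ℕ → ℂ → ℂ), Agree V U g h φ σ φ' → ∀ ζ : ℂ → ℂ, Test V ζ →
    ∀ a b c : ℤ, Tendsto (E3 σ h φ' ζ a b c) atTop (𝓝 0)

/-- the conformal factor `e^{2ρ} / y²`, real valued -/
def gr (ρ : ℍ → ℝ) (z : ℂ) : ℝ := Real.exp (2 * ρ (ofComplex z)) / z.im ^ 2

end

end U3


end

section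

/-!
Third order statistics of all eigenfunctions on surfaces of negative curvature: statements of the
geometric steps and of the global construction of the limit measure.
-/

open MeasureTheory Filter Topology Set
open UpperHalfPlane hiding I
open scoped ContDiff MatrixGroups

namespace U3

open QE QE.NC QJ

noncomputable section

/-! ### D. Geometry -/

/-- ROT: the base point and the direction of a frame -/
def StmtRot : Prop :=
  Continuous pG ∧ Continuous uG ∧ (∀ g, ‖uG g‖ = 1) ∧ (∀ g, pG g ∈ UH) ∧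
  (∀ g, pG (-g) = pG g ∧ uG (-g) = uG g) ∧
  (∀ g, pG (g * rot3) = pG g ∧ uG (g * rot3) = w3 * uG g) ∧
  (∀ g g', pG g = pG g' → uG g = uG g' → g' = g ∨ g' = -g) ∧
  (∀ K : Set ℂ, IsCompact K → K ⊆ UH → IsCompact (pG ⁻¹' K))

/-- VEL: the velocity of the geodesics -/
def StmtVel : Prop :=
  ∀ (Γ : Subgroup SL(2, ℝ)) (ρ : ℍ → ℝ) (Φ : ℝ → SL(2, ℝ) → SL(2, ℝ)), Fac Γ ρ → GFlow ρ Φ →
    Continuous (vG ρ) ∧ (∀ g, vG ρ g ≠ 0) ∧
    ∀ g t, HasDerivAt (fun s => pG (Φ s g)) (vG ρ (Φ t g)) t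

/-- ARE: the area of the set of times at which two transversal geodesics are `ε`-close -/
def StmtAre : Prop :=
  ∀ (Γ : Subgroup SL(2, ℝ)) (ρ : ℍ → ℝ) (Φ : ℝ → SL(2, ℝ) → SL(2, ℝ)), Fac Γ ρ → GFlow ρ Φ →
    ∀ K : Set SL(2, ℝ), IsCompact K → ∃ T C : ℝ, 0 < T ∧ 0 < C ∧ ∀ v ∈ K, ∀ v' ∈ K, ∀ ε > 0,
      (volume : Measure (ℝ × ℝ)) {x | x.1 ∈ Icc 0 T ∧ x.2 ∈ Icc 0 T ∧
        ‖pG (Φ x.1 v) - pG (Φ x.2 v')‖ ≤ ε ∧ ‖w3 * uG (Φ x.1 v) - uG (Φ x.2 v')‖ ≤ 1 / 10}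
        ≤ ENNReal.ofReal (C * ε ^ 2)

/-- NCR: the mass of the pairs of close points with directions at about 120 degrees is bounded by the
mass of the pairs of geodesics which cross at 120 degrees -/
def StmtNcr : Prop :=
  ∀ [MeasurableSpace SL(2, ℝ)] [BorelSpace SL(2, ℝ)] (Γ : Subgroup SL(2, ℝ)) (ρ : ℍ → ℝ)
    (Φ : ℝ → SL(2, ℝ) → SL(2, ℝ)) (ν : Measure SL(2, ℝ)) [IsFiniteMeasureOnCompacts ν]
    [SigmaFinite ν], Fac Γ ρ → GFlow ρ Φ → (∀ t, Measure.map (Φ t) ν = ν) →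
    ∀ F : Set ℂ, IsCompact F → F ⊆ UH → ∃ T C : ℝ, 0 < T ∧ 0 < C ∧
    ∀ F' : Set ℂ, IsCompact F' → F' ⊆ F → ∀ b : ℝ, (ν.prod ν) (Cc Φ T 0 F') < ENNReal.ofReal b →
      ∃ η : ℝ, 0 < η ∧ ∀ᶠ ε in 𝓝[>] (0 : ℝ),
        (ν.prod ν) (Nn ε η F') ≤ ENNReal.ofReal (C * b * ε ^ 2)

/-- JCA: the coordinates of two nearby points of a rotated orbit -/
def StmtJca : Prop :=
  ∀ (Γ : Subgroup SL(2, ℝ)) (ρ : ℍ → ℝ) (Φ : ℝ → SL(2, ℝ) → SL(2, ℝ)), Fac Γ ρ → GFlow ρ Φ →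
    ∀ v : SL(2, ℝ), ∃ C r : ℝ, 0 < C ∧ 0 < r ∧ ∀ a ∈ Icc (-r) r,
      |xx ρ (v * rot3) (Φ a v * rot3) + Real.sqrt 3 / 2 * a| ≤ C * a ^ 2 ∧
      |yy ρ (v * rot3) (Φ a v * rot3)| ≤ C * a ^ 2 ∧
      |tt ρ (v * rot3) (Φ a v * rot3) + a / 2| ≤ C * a ^ 2

/-- JAC: geodesics which cross two given geodesics at 120 degrees are isolated (negative curvature) -/
def StmtJac : Prop :=
  ∀ (Γ : Subgroup SL(2, ℝ)) (ρ : ℍ → ℝ) (Φ : ℝ → SL(2, ℝ) → SL(2, ℝ)), Fac Γ ρ →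
    (∀ z, 0 < lapR ρ z) → GFlow ρ Φ → ∀ (v₁ v₂ : SL(2, ℝ)) (T : ℝ), 0 < T →
    v₂ ∉ Sg Φ (2 * T) v₁ →
    Set.Countable {s | s ∈ Icc 0 T ∧ ∃ τ ∈ Icc (-T) T, ∃ s' ∈ Icc 0 T,
      Φ τ (Φ s v₁ * rot3) = Φ s' v₂ * rot3 ∨ Φ τ (Φ s v₁ * rot3) = -(Φ s' v₂ * rot3)}

/-- NUC: apart from countably many geodesics, the pairs which cross at 120 degrees are negligible -/
def StmtNuc : Prop :=
  ∀ [MeasurableSpace SL(2, ℝ)] [BorelSpace SL(2, ℝ)] (Γ : Subgroup SL(2, ℝ)) (ρ : ℍ → ℝ)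
    (Φ : ℝ → SL(2, ℝ) → SL(2, ℝ)) (ν : Measure SL(2, ℝ)) [IsFiniteMeasureOnCompacts ν]
    [SigmaFinite ν], Fac Γ ρ → (∀ z, 0 < lapR ρ z) → GFlow ρ Φ →
    ∀ F : Set ℂ, IsCompact F → F ⊆ UH → ∀ T : ℝ, 0 < T →
    ∃ (v : ℕ → SL(2, ℝ)) (S : ℝ), 0 ≤ S ∧ (ν.prod ν) (Cc Φ T 0 F ∩
      {x | (∀ i, x.1 ∉ Sg Φ S (v i)) ∧ ∀ i, x.2 ∉ Sg Φ S (v i)}) = 0

/-- TRV: transversal crossings are isolated -/
def StmtTrv : Prop :=
  ∀ (Γ : Subgroup SL(2, ℝ)) (ρ : ℍ → ℝ) (Φ : ℝ → SL(2, ℝ) → SL(2, ℝ)), Fac Γ ρ → GFlow ρ Φ →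
    ∀ (v w : SL(2, ℝ)) (S : ℝ), Set.Countable {t | t ∈ Icc (-S) S ∧ ∃ s ∈ Icc (-S) S,
      pG (Φ t w) = pG (Φ s v) ∧ uG (Φ t w) ≠ uG (Φ s v) ∧ uG (Φ t w) ≠ -uG (Φ s v)}

/-- CON: over a geodesic arc, an invariant measure is carried by the tangent vectors of the arc; and
points have measure zero -/
def StmtCon : Prop :=
  ∀ [MeasurableSpace SL(2, ℝ)] [BorelSpace SL(2, ℝ)] (Γ : Subgroup SL(2, ℝ)) (ρ : ℍ → ℝ)
    (Φ : ℝ → SL(2, ℝ) → SL(2, ℝ)) (ν : Measure SL(2, ℝ)) [IsFiniteMeasureOnCompacts ν]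
    [SigmaFinite ν], Fac Γ ρ → GFlow ρ Φ → (∀ t, Measure.map (Φ t) ν = ν) →
    (∀ (v : SL(2, ℝ)) (S : ℝ), ν {w | (∃ s ∈ Icc (-S) S, pG w = pG (Φ s v)) ∧
      ¬ ∃ s ∈ Icc (-S) S, pG w = pG (Φ s v) ∧ (uG w = uG (Φ s v) ∨ uG w = -uG (Φ s v))} = 0) ∧
    ∀ w, ν {w} = 0

/-- GEO: the geometric input for the invariant measure -/
def StmtGeo : Prop :=
  ∀ [MeasurableSpace SL(2, ℝ)] [BorelSpace SL(2, ℝ)] (Γ : Subgroup SL(2, ℝ)) (ρ : ℍ → ℝ)
    (Φ : ℝ → SL(2, ℝ) → SL(2, ℝ)) (ν : Measure SL(2, ℝ)) [IsFiniteMeasureOnCompacts ν]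
    [SigmaFinite ν], Fac Γ ρ → (∀ z, 0 < lapR ρ z) → GFlow ρ Φ →
    (∀ t, Measure.map (Φ t) ν = ν) → ∀ F : Set ℂ, IsCompact F → F ⊆ UH →
    ∃ (G : ℕ → Set ℂ) (B : Set (ℂ × ℂ)), (∀ N, IsClosed (G N)) ∧ MeasurableSet B ∧
      (∀ N, ν {g | pG g ∈ G N ∧ (pG g, uG g) ∉ B} = 0) ∧
      ν {g | (pG g, uG g) ∈ B ∧ (pG g, w3 * uG g) ∈ B} = 0 ∧
      (∃ b η : ℝ, 0 < η ∧ ∀ᶠ ε in 𝓝[>] (0 : ℝ),
        (ν.prod ν) (Nn ε η F) ≤ ENNReal.ofReal (b * ε ^ 2)) ∧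
      ∀ δ > 0, ∃ N, ∀ F' : Set ℂ, IsCompact F' → F' ⊆ F → Disjoint F' (G N) →
        ∃ η : ℝ, 0 < η ∧ ∀ᶠ ε in 𝓝[>] (0 : ℝ),
          (ν.prod ν) (Nn ε η F') ≤ ENNReal.ofReal (δ * ε ^ 2)

/-- the measure `f(pG) ν` restricted to `pG ⁻¹' F` -/
def muV [MeasurableSpace SL(2, ℝ)] (ν : Measure SL(2, ℝ)) (F : Set ℂ) (f : ℂ → ℝ) :
    Measure SL(2, ℝ) :=
  (ν.restrict (pG ⁻¹' F)).withDensity fun g => ENNReal.ofReal (f (pG g))

/-- GEV: the geometric input for the local measure -/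
def StmtGev : Prop :=
  ∀ [MeasurableSpace SL(2, ℝ)] [BorelSpace SL(2, ℝ)] (Γ : Subgroup SL(2, ℝ)) (ρ : ℍ → ℝ)
    (Φ : ℝ → SL(2, ℝ) → SL(2, ℝ)) (ν : Measure SL(2, ℝ)) [IsFiniteMeasureOnCompacts ν]
    [SigmaFinite ν], Fac Γ ρ → (∀ z, 0 < lapR ρ z) → GFlow ρ Φ →
    (∀ t, Measure.map (Φ t) ν = ν) → ∀ (F V : Set ℂ) (f : ℂ → ℝ), IsCompact F → F ⊆ UH → V ⊆ F →
    Continuous f → (∀ z, 0 ≤ f z) →
    ∃ (G : ℕ → Set ℂ) (B : Set (ℂ × ℂ)), GeoM V (muV ν F f) pG uG G B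

/-! ### F. The global limit measure -/

/-- SUB: a subsequence along which countably many sequences converge weakly -/
def StmtSub : Prop :=
  ∀ (U : Set ℂ) (f : ℕ → ℕ → ℂ → ℂ), IsOpen U → (∀ i n, ContinuousOn (f i n) U) →
    (∀ i, ∀ K, IsCompact K → K ⊆ U → ∃ C : ℝ, ∀ᶠ n in atTop, ∫ z in K, ‖f i n z‖ ≤ C) →
    ∃ s : ℕ → ℕ, StrictMono s ∧ ∀ (i : ℕ) (ζ : ℂ → ℂ), Test U ζ →
      ∃ L : ℂ, Tendsto (fun n => ∫ z, ζ z * f i (s n) z) atTop (𝓝 L)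

/-- RMK: existence of the limit measure on the frames -/
def StmtRmk : Prop :=
  ∀ [MeasurableSpace SL(2, ℝ)] [BorelSpace SL(2, ℝ)] (e : ℤ → ℕ → ℂ → ℂ)
    (P : ℤ → (ℂ → ℂ) → ℂ), (∀ j n, ContinuousOn (e j n) UH) →
    (∀ j n, ∀ z ∈ UH, (starRingEnd ℂ) (e j n z) = (-1) ^ j * e (-j) n z) →
    (∀ (j m : ℤ) (ζ : ℂ → ℂ), Test UH ζ →
      Tendsto (fun n => ∫ z, ζ z * (e j n z * e m n z)) atTop (𝓝 ((-1) ^ m * P (j + m) ζ))) →
    ∃ μ : Measure SL(2, ℝ), IsFiniteMeasureOnCompacts μ ∧ SigmaFinite μ ∧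
      Measure.map (fun g => -g) μ = μ ∧
      ∀ (k : ℤ) (ζ : ℂ → ℂ), Test UH ζ → ∫ g, ζ (pG g) * uG g ^ k ∂μ = P k ζ

/-- INF: infinitesimal invariance from the transport identities -/
def StmtInfU : Prop :=
  ∀ [MeasurableSpace SL(2, ℝ)] [BorelSpace SL(2, ℝ)] (Γ : Subgroup SL(2, ℝ)) (ρ : ℍ → ℝ)
    (ν : Measure SL(2, ℝ)) [IsFiniteMeasureOnCompacts ν], Fac Γ ρ →
    Measure.map (fun g => -g) ν = ν →
    (∀ k : ℤ, ∀ ζ : ℂ → ℂ, Test UH ζ → ∫ g,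
      ((aR ρ (pG g) * dz ζ (pG g) - k * dz (aR ρ) (pG g) * ζ (pG g))
          * (starRingEnd ℂ) (dirG g) ^ (k - 1)
        + (aR ρ (pG g) * dzb ζ (pG g) + k * dzb (aR ρ) (pG g) * ζ (pG g))
          * (starRingEnd ℂ) (dirG g) ^ (k + 1)) ∂ν = 0) →
    ∀ H : ℂ × ℂ → ℂ, ContDiff ℝ ∞ H → HasCompactSupport H →
      ∫ g, fderiv ℝ H (iota g) (XV ρ g) ∂ν = 0

/-- LCZ: localisation -/
def StmtLcz : Prop :=
  ∀ (U : Set ℂ) (g : ℂ → ℝ) (h : ℕ → ℝ) (φ : ℕ → ℂ → ℂ), IsOpen U → ContDiffOn ℝ ∞ g U →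
    (∀ z ∈ U, 0 < g z) → LocU U g h φ → ∀ K, IsCompact K → K ⊆ U →
    ∃ (V F : Set ℂ) (σ : ℂ → ℝ) (φ' : ℕ → ℂ → ℂ), K ⊆ V ∧ V ⊆ F ∧ F ⊆ U ∧ IsCompact F ∧
      Agree V U g h φ σ φ'

/-- ECG: the jets depend only on the local data -/
def StmtEcg : Prop :=
  ∀ (V : Set ℂ) (σ σ' : ℂ → ℝ) (h : ℕ → ℝ) (φ φ' : ℕ → ℂ → ℂ), IsOpen V →
    (∀ z ∈ V, σ z = σ' z) → (∀ n, ∀ z ∈ V, φ n z = φ' n z) →
    (∀ j n, ∀ z ∈ V, E σ h φ j n z = E σ' h φ' j n z) ∧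
    (∀ (s : ℕ → ℕ) j n z, E σ (fun k => h (s k)) (fun k => φ (s k)) j n z = E σ h φ j (s n) z)

/-- WGA: a subsequence along which all the products of jets converge weakly -/
def StmtWga : Prop :=
  ∀ (Γ : Subgroup SL(2, ℝ)) (ρ : ℍ → ℝ) (h : ℕ → ℝ) (φ : ℕ → ℂ → ℂ), Fac Γ ρ →
    LocU UH (gr ρ) h φ → ∃ (s : ℕ → ℕ) (P : ℤ → (ℂ → ℂ) → ℂ) (e : ℤ → ℕ → ℂ → ℂ), StrictMono s ∧
      (∀ (V : Set ℂ) (σ : ℂ → ℝ) (φ' : ℕ → ℂ → ℂ), Agree V UH (gr ρ) h φ σ φ' →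
        ∀ j n, ∀ z ∈ V, E σ h φ' j (s n) z = e j n z) ∧
      (∀ j n, ContinuousOn (e j n) UH) ∧
      (∀ j n, ∀ z ∈ UH, (starRingEnd ℂ) (e j n z) = (-1) ^ j * e (-j) n z) ∧
      ∀ (j m : ℤ) (ζ : ℂ → ℂ), Test UH ζ →
        Tendsto (fun n => ∫ z, ζ z * (e j n z * e m n z)) atTop (𝓝 ((-1) ^ m * P (j + m) ζ))

/-- WGB: the transport identities of the limit measure -/
def StmtWgb : Prop :=
  ∀ [MeasurableSpace SL(2, ℝ)] [BorelSpace SL(2, ℝ)] (Γ : Subgroup SL(2, ℝ)) (ρ : ℍ → ℝ)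
    (h : ℕ → ℝ) (φ : ℕ → ℂ → ℂ) (s : ℕ → ℕ) (P : ℤ → (ℂ → ℂ) → ℂ) (μ : Measure SL(2, ℝ))
    [IsFiniteMeasureOnCompacts μ], Fac Γ ρ → LocU UH (gr ρ) h φ → StrictMono s →
    (∀ (V : Set ℂ) (σ : ℂ → ℝ) (φ' : ℕ → ℂ → ℂ), Agree V UH (gr ρ) h φ σ φ' →
      ∀ (j m : ℤ) (ζ : ℂ → ℂ), Test V ζ →
        Tendsto (fun n => ∫ z, ζ z * (E σ h φ' j (s n) z * E σ h φ' m (s n) z)) atTop
          (𝓝 ((-1) ^ m * P (j + m) ζ))) →
    (∀ (k : ℤ) (ζ : ℂ → ℂ), Test UH ζ → ∫ g, ζ (pG g) * uG g ^ k ∂μ = P k ζ) →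
    ∀ k : ℤ, ∀ ζ : ℂ → ℂ, Test UH ζ → ∫ g,
      ((aR ρ (pG g) * dz ζ (pG g) - k * dz (aR ρ) (pG g) * ζ (pG g))
          * (starRingEnd ℂ) (dirG g) ^ (k - 1)
        + (aR ρ (pG g) * dzb ζ (pG g) + k * dzb (aR ρ) (pG g) * ζ (pG g))
          * (starRingEnd ℂ) (dirG g) ^ (k + 1))
        ∂(μ.withDensity fun g => ENNReal.ofReal (gr ρ (pG g))) = 0

/-- WGL: the global limit measure: along a subsequence of any given subsequence, the products of jets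
converge to the moments of a measure `e^{-2σ} ν`, where `ν` is invariant under the geodesic flow -/
def StmtWgl : Prop :=
  ∀ [MeasurableSpace SL(2, ℝ)] [BorelSpace SL(2, ℝ)] (Γ : Subgroup SL(2, ℝ)) (ρ : ℍ → ℝ)
    (Φ : ℝ → SL(2, ℝ) → SL(2, ℝ)) (h : ℕ → ℝ) (φ : ℕ → ℂ → ℂ), Fac Γ ρ → GFlow ρ Φ →
    LocU UH (gr ρ) h φ → ∃ (s : ℕ → ℕ) (ν : Measure SL(2, ℝ)), StrictMono s ∧
      IsFiniteMeasureOnCompacts ν ∧ SigmaFinite ν ∧ (∀ t, Measure.map (Φ t) ν = ν) ∧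
      ∀ (V : Set ℂ) (σ : ℂ → ℝ) (φ' : ℕ → ℂ → ℂ), Agree V UH (gr ρ) h φ σ φ' →
        ∀ (j m : ℤ) (ζ : ℂ → ℂ), Test V ζ →
          Tendsto (fun n => ∫ z, ζ z * (E σ h φ' j (s n) z * E σ h φ' m (s n) z)) atTop
            (𝓝 ((-1) ^ m * ∫ g, ζ (pG g) * ((Real.exp (-(2 * σ (pG g))) : ℝ) : ℂ)
              * uG g ^ (j + m) ∂ν))

/-- E3G: the three-jet integrals tend to zero -/
def StmtE3g : Prop :=
  ∀ (Γ : Subgroup SL(2, ℝ)) (ρ : ℍ → ℝ) (h : ℕ → ℝ) (φ : ℕ → ℂ → ℂ), Fac Γ ρ →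
    (∀ z, 0 < lapR ρ z) → LocU UH (gr ρ) h φ → E3V UH (gr ρ) h φ

end

end U3


end

section

/-!
# Frames: base points, directions and the rotation by 120 degrees (module U3_ROT)
-/

open MeasureTheory Filter Topology Set
open UpperHalfPlane hiding I
open scoped ContDiff MatrixGroups

namespace U3

open QE QE.NC QJ

noncomputable section

namespace ROT

set_option maxHeartbeats 200000

lemma continuous_smul_I : Continuous fun g : SL(2, ℝ) => g • UpperHalfPlane.I :=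
  continuous_id.smul continuous_const

lemma continuous_pG : Continuous pG :=
  UpperHalfPlane.continuous_coe.comp continuous_smul_I

lemma continuous_uG : Continuous uG :=
  continuous_const.mul (Complex.continuous_conj.comp QE.FM.continuous_dirG)

lemma norm_uG (g : SL(2, ℝ)) : ‖uG g‖ = 1 := by
  simp only [uG, norm_mul, Complex.norm_I, RCLike.norm_conj, QE.FM.norm_dirG, mul_one]

lemma pG_mem (g : SL(2, ℝ)) : pG g ∈ UH := (g • UpperHalfPlane.I).im_pos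

lemma pG_neg (g : SL(2, ℝ)) : pG (-g) = pG g := by
  have e : ∀ i j, (-g) i j = - g i j := fun i j => by simp
  have h1 := QE.FM.smul_den (-g) UpperHalfPlane.I
  have h2 := QE.FM.smul_den g UpperHalfPlane.I
  have h3 : den (-g) (UpperHalfPlane.I : ℂ) = - den g (UpperHalfPlane.I : ℂ) := by
    rw [den, den, e, e]
    push_cast
    ring
  rw [h3, e, e] at h1
  refine mul_right_cancel₀ (QE.FM.den_ne g UpperHalfPlane.I) ?_
  unfold pG
  rw [h2]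
  rw [UpperHalfPlane.coe_I] at h1 ⊢
  push_cast at h1
  linear_combination - h1

lemma uG_neg (g : SL(2, ℝ)) : uG (-g) = uG g := by
  unfold uG
  rw [QE.FM.dirG_neg]

/-- the direction after a matrix which fixes the base point -/
lemma dirG_fix (g k : SL(2, ℝ)) (hk : k • UpperHalfPlane.I = UpperHalfPlane.I) :
    dirG (g * k) = dirG g * phase k Complex.I := by
  rw [QE.FM.dirG_mul, hk, UpperHalfPlane.coe_I]
  unfold dirG
  ring

/-- the entries of a matrix which fixes the base point -/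
lemma fix_iff (k : SL(2, ℝ)) :
    k • UpperHalfPlane.I = UpperHalfPlane.I ↔ k 0 0 = k 1 1 ∧ k 0 1 = - k 1 0 := by
  have h := QE.FM.smul_den k UpperHalfPlane.I
  have hne := QE.FM.den_ne k UpperHalfPlane.I
  rw [UpperHalfPlane.coe_I] at h hne
  constructor
  · intro hk
    rw [hk, UpperHalfPlane.coe_I] at h
    have h1 := congrArg Complex.re h
    have h2 := congrArg Complex.im h
    simp only [den, Complex.mul_re, Complex.mul_im, Complex.add_re, Complex.add_im,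
      Complex.I_re, Complex.I_im, Complex.ofReal_re, Complex.ofReal_im, zero_mul, mul_zero,
      mul_one, one_mul, zero_add, add_zero, sub_zero, zero_sub] at h1 h2
    exact ⟨h2.symm, h1.symm⟩
  · rintro ⟨h1, h2⟩
    apply UpperHalfPlane.ext
    rw [UpperHalfPlane.coe_I]
    refine mul_right_cancel₀ hne ?_
    rw [h, h1, h2, den]
    push_cast
    ring_nf
    rw [Complex.I_sq]
    ring

lemma rot3_fix : rot3 • UpperHalfPlane.I = UpperHalfPlane.I := by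
  rw [fix_iff]
  constructor
  · simp [rot3]
  · simp [rot3]

lemma den_rot3 : den rot3 Complex.I = Complex.exp ((Real.pi / 3 : ℝ) * Complex.I) := by
  rw [Complex.exp_mul_I, ← Complex.ofReal_cos, ← Complex.ofReal_sin, Real.cos_pi_div_three,
    Real.sin_pi_div_three]
  have e0 : rot3 1 0 = Real.sqrt 3 / 2 := by simp [rot3]
  have e1 : rot3 1 1 = 1 / 2 := by simp [rot3]
  rw [den, e0, e1]
  ring

lemma phase_rot3 : phase rot3 Complex.I = (starRingEnd ℂ) w3 := by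
  rw [phase, den_rot3, Complex.norm_exp_ofReal_mul_I, Complex.ofReal_one, div_one, ← map_pow]
  congr 1
  rw [← Complex.exp_nat_mul, w3]
  congr 1
  push_cast
  ring

lemma pG_rot (g : SL(2, ℝ)) : pG (g * rot3) = pG g := by
  unfold pG
  rw [mul_smul, rot3_fix]

lemma uG_rot (g : SL(2, ℝ)) : uG (g * rot3) = w3 * uG g := by
  unfold uG
  rw [dirG_fix g rot3 rot3_fix, phase_rot3, map_mul, Complex.conj_conj]
  ring

/-- a matrix which fixes the base point and the direction -/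
lemma fix_one (k : SL(2, ℝ)) (hk : k • UpperHalfPlane.I = UpperHalfPlane.I)
    (hp : phase k Complex.I = 1) : k = 1 ∨ k = -1 := by
  obtain ⟨h1, h2⟩ := (fix_iff k).1 hk
  have hdet : k 0 0 * k 1 1 - k 0 1 * k 1 0 = 1 := by
    have := k.det_coe
    rwa [Matrix.det_fin_two] at this
  rw [h1, h2] at hdet
  have hn : ‖den k Complex.I‖ = 1 := by
    have h3 : ‖den k Complex.I‖ ^ 2 = 1 := by
      rw [← Complex.normSq_eq_norm_sq, den, Complex.normSq_apply]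
      simp only [Complex.add_re, Complex.mul_re, Complex.ofReal_re, Complex.I_re, mul_zero,
        Complex.ofReal_im, Complex.I_im, mul_one, sub_self, zero_add, Complex.add_im,
        Complex.mul_im, add_zero]
      linarith only [hdet]
    have h4 : (‖den k Complex.I‖ - 1) * (‖den k Complex.I‖ + 1) = 0 := by linarith
    rcases mul_eq_zero.1 h4 with h | h
    · linarith
    · have := norm_nonneg (den k Complex.I)
      linarith
  rw [phase, hn, Complex.ofReal_one, div_one, den] at hp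
  have h3 := congrArg Complex.re hp
  have h4 := congrArg Complex.im hp
  simp only [map_add, map_mul, Complex.conj_ofReal, Complex.conj_I, sq, Complex.add_re,
    Complex.mul_re, Complex.ofReal_re, Complex.neg_re, Complex.I_re, neg_zero, mul_zero,
    Complex.ofReal_im, Complex.neg_im, Complex.I_im, mul_neg, mul_one, sub_neg_eq_add,
    zero_add, add_zero, Complex.add_im, Complex.mul_im, Complex.one_re, Complex.one_im,
    zero_mul, neg_mul, sub_zero, zero_sub] at h3 h4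
  have h5 : k 1 0 = 0 := by
    have h6 : k 1 0 * k 1 0 = 0 := by linarith only [hdet, h3]
    exact mul_self_eq_zero.1 h6
  rw [h5] at hdet h2
  have h6 : (k 1 1 - 1) * (k 1 1 + 1) = 0 := by linarith only [hdet]
  rcases mul_eq_zero.1 h6 with h | h
  · left
    have h7 : k 1 1 = 1 := by linarith
    ext i j
    fin_cases i <;> fin_cases j
    · simpa [h7] using h1
    · simpa using h2
    · simpa using h5
    · simpa using h7
  · right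
    have h7 : k 1 1 = -1 := by linarith
    ext i j
    fin_cases i <;> fin_cases j
    · simpa [h7] using h1
    · simpa using h2
    · simpa using h5
    · simpa using h7

lemma unique (g g' : SL(2, ℝ)) (hp : pG g = pG g') (hu : uG g = uG g') : g' = g ∨ g' = -g := by
  have h1 : g • UpperHalfPlane.I = g' • UpperHalfPlane.I := UpperHalfPlane.ext hp
  have h2 : dirG g = dirG g' := by
    have h3 := mul_left_cancel₀ Complex.I_ne_zero hu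
    exact (starRingEnd ℂ).injective h3
  have hk : (g⁻¹ * g') • UpperHalfPlane.I = UpperHalfPlane.I := by
    rw [mul_smul, ← h1, inv_smul_smul]
  have e : g * (g⁻¹ * g') = g' := by rw [mul_inv_cancel_left]
  have h4 := dirG_fix g (g⁻¹ * g') hk
  rw [e, ← h2] at h4
  have h5 : phase (g⁻¹ * g') Complex.I = 1 := by
    have h6 : dirG g * phase (g⁻¹ * g') Complex.I = dirG g * 1 := by rw [← h4, mul_one]
    exact mul_left_cancel₀ (QE.FM.dirG_ne g) h6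
  rcases fix_one _ hk h5 with h | h
  · left
    rw [← e, h, mul_one]
  · right
    rw [← e, h, mul_neg, mul_one]

lemma compact (K : Set ℂ) (hK : IsCompact K) (hs : K ⊆ UH) : IsCompact (pG ⁻¹' K) := by
  have hr : K ⊆ range UpperHalfPlane.coe := by
    intro z hz
    exact ⟨⟨z, hs hz⟩, rfl⟩
  have h1 : IsCompact (UpperHalfPlane.coe ⁻¹' K) :=
    (UpperHalfPlane.isOpenEmbedding_coe.isInducing.isCompact_preimage_iff hr).2 hK
  exact isProperMap_smul_I.isCompact_preimage h1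

end ROT

/-- **ROT**: the frames, their base points and directions. -/
theorem stmtRot : StmtRot :=
  ⟨ROT.continuous_pG, ROT.continuous_uG, ROT.norm_uG, ROT.pG_mem,
    fun g => ⟨ROT.pG_neg g, ROT.uG_neg g⟩, fun g => ⟨ROT.pG_rot g, ROT.uG_rot g⟩,
    ROT.unique, ROT.compact⟩

end

end U3


end

section

/-!
The area of the set of times at which two transversal geodesics are close (statement ARE).
-/

open MeasureTheory Filter Topology Set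
open UpperHalfPlane hiding I
open scoped ContDiff MatrixGroups

namespace U3

open QE QE.NC QJ

namespace ARE

lemma w3_eq : w3 = Complex.exp (((2 * Real.pi / 3 : ℝ) : ℂ) * Complex.I) := by
  unfold w3
  congr 1
  push_cast
  ring

lemma w3_norm : ‖w3‖ = 1 := by
  rw [w3_eq]
  exact Complex.norm_exp_ofReal_mul_I _

lemma w3_re : w3.re = -(1 / 2) := by
  rw [w3_eq, Complex.exp_ofReal_mul_I_re]
  have h : (2 * Real.pi / 3 : ℝ) = Real.pi - Real.pi / 3 := by ring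
  rw [h, Real.cos_pi_sub, Real.cos_pi_div_three]

lemma w3_sq : w3.re ^ 2 + w3.im ^ 2 = 1 := by
  have h := Complex.sq_norm w3
  rw [w3_norm, Complex.normSq_apply] at h
  nlinarith [h]

/-- the real combinations of two unit vectors at 120 degrees -/
lemma low (X Y : ℝ) : (|X| + |Y|) / 2 ≤ ‖(X : ℂ) - (Y : ℂ) * (starRingEnd ℂ) w3‖ := by
  have h1 : ‖(X : ℂ) - (Y : ℂ) * (starRingEnd ℂ) w3‖ ^ 2 = X ^ 2 + X * Y + Y ^ 2 := by
    rw [Complex.sq_norm, Complex.normSq_apply]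
    have hs := w3_sq
    have hr := w3_re
    simp only [Complex.sub_re, Complex.sub_im, Complex.mul_re, Complex.mul_im, Complex.ofReal_re,
      Complex.ofReal_im, Complex.conj_re, Complex.conj_im]
    have : (X - (Y * w3.re - 0 * -w3.im)) * (X - (Y * w3.re - 0 * -w3.im)) +
        (0 - (Y * -w3.im + 0 * w3.re)) * (0 - (Y * -w3.im + 0 * w3.re))
        = X ^ 2 - 2 * X * Y * w3.re + Y ^ 2 * (w3.re ^ 2 + w3.im ^ 2) := by ring
    rw [this, hs, hr]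
    ring
  have h2 : ((|X| + |Y|) / 2) ^ 2 ≤ X ^ 2 + X * Y + Y ^ 2 := by
    have hX := sq_abs X
    have hY := sq_abs Y
    have hXY : -(|X| * |Y|) ≤ X * Y := by
      rw [← abs_mul]
      exact neg_abs_le _
    nlinarith [sq_nonneg (|X| - |Y|)]
  rw [← h1] at h2
  exact le_of_sq_le_sq h2 (norm_nonneg _)

lemma angle (d d' : ℂ) (hd : ‖d‖ = 1)
    (h : ‖w3 * (Complex.I * (starRingEnd ℂ) d) - Complex.I * (starRingEnd ℂ) d'‖ ≤ 1 / 10)
    (X Y : ℝ) : 2 / 5 * (|X| + |Y|) ≤ ‖(X : ℂ) * d - (Y : ℂ) * d'‖ := by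
  have h1 : ‖(starRingEnd ℂ) w3 * d - d'‖ ≤ 1 / 10 := by
    have e : w3 * (Complex.I * (starRingEnd ℂ) d) - Complex.I * (starRingEnd ℂ) d'
        = Complex.I * (starRingEnd ℂ) ((starRingEnd ℂ) w3 * d - d') := by
      simp only [map_sub, map_mul, Complex.conj_conj]
      ring
    rw [e, norm_mul, Complex.norm_I, one_mul, Complex.norm_conj] at h
    exact h
  have h2 : (X : ℂ) * d - (Y : ℂ) * d'
      = ((X : ℂ) - (Y : ℂ) * (starRingEnd ℂ) w3) * d + (Y : ℂ) * ((starRingEnd ℂ) w3 * d - d') := by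
    ring
  have h3 : ‖((X : ℂ) - (Y : ℂ) * (starRingEnd ℂ) w3) * d‖
      - ‖(Y : ℂ) * ((starRingEnd ℂ) w3 * d - d')‖ ≤ ‖(X : ℂ) * d - (Y : ℂ) * d'‖ := by
    rw [h2]
    have := norm_sub_norm_le (((X : ℂ) - (Y : ℂ) * (starRingEnd ℂ) w3) * d)
      (-((Y : ℂ) * ((starRingEnd ℂ) w3 * d - d')))
    rw [norm_neg, sub_neg_eq_add] at this
    exact this
  have h4 : ‖((X : ℂ) - (Y : ℂ) * (starRingEnd ℂ) w3) * d‖
      = ‖(X : ℂ) - (Y : ℂ) * (starRingEnd ℂ) w3‖ := by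
    rw [norm_mul, hd, mul_one]
  have h5 : ‖(Y : ℂ) * ((starRingEnd ℂ) w3 * d - d')‖ ≤ |Y| * (1 / 10) := by
    rw [norm_mul, Complex.norm_real, Real.norm_eq_abs]
    exact mul_le_mul_of_nonneg_left h1 (abs_nonneg _)
  have h6 := low X Y
  have hX := abs_nonneg X
  have hY := abs_nonneg Y
  rw [h4] at h3
  linarith

lemma dirG_of_uG (g : SL(2, ℝ)) (h : ‖uG g‖ = 1) : ‖dirG g‖ = 1 := by
  unfold uG at h
  rw [norm_mul, Complex.norm_I, one_mul, Complex.norm_conj] at h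
  exact h

/-- the speed -/
lemma vG_eq (ρ : ℍ → ℝ) (g : SL(2, ℝ)) (h : ‖uG g‖ = 1) :
    vG ρ g = ((‖vG ρ g‖ : ℝ) : ℂ) * dirG g := by
  have h1 : 0 < Real.exp (-ρ (g • UpperHalfPlane.I)) * (pG g).im := by
    refine mul_pos (Real.exp_pos _) ?_
    exact (g • UpperHalfPlane.I : ℍ).im_pos
  have h2 : ‖vG ρ g‖ = Real.exp (-ρ (g • UpperHalfPlane.I)) * (pG g).im := by
    unfold vG
    rw [norm_mul, dirG_of_uG g h, mul_one, Complex.norm_real, Real.norm_eq_abs, abs_of_pos h1]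
  rw [h2]
  rfl

/-- two curves with almost constant transversal velocities -/
lemma close {p q p' q' : ℝ → ℂ} {a b : ℂ} {T c ε : ℝ} (hc : 0 < c)
    (hp : ∀ t, HasDerivAt p (p' t) t) (hq : ∀ t, HasDerivAt q (q' t) t)
    (hpa : ∀ t ∈ Icc 0 T, ‖p' t - a‖ ≤ c / 2) (hqb : ∀ t ∈ Icc 0 T, ‖q' t - b‖ ≤ c / 2)
    (hab : ∀ x y : ℝ, c * (|x| + |y|) ≤ ‖(x : ℂ) * a - (y : ℂ) * b‖)
    {s₀ t₀ s₁ t₁ : ℝ} (hs₀ : s₀ ∈ Icc 0 T) (ht₀ : t₀ ∈ Icc 0 T) (hs₁ : s₁ ∈ Icc 0 T)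
    (ht₁ : t₁ ∈ Icc 0 T) (h0 : ‖p s₀ - q t₀‖ ≤ ε) (h1 : ‖p s₁ - q t₁‖ ≤ ε) :
    |s₁ - s₀| + |t₁ - t₀| ≤ 4 * ε / c := by
  have mv : ∀ {f f' : ℝ → ℂ} {a : ℂ}, (∀ t, HasDerivAt f (f' t) t) →
      (∀ t ∈ Icc 0 T, ‖f' t - a‖ ≤ c / 2) → ∀ {x y : ℝ}, x ∈ Icc 0 T → y ∈ Icc 0 T →
      ‖(f y - f x) - ((y - x : ℝ) : ℂ) * a‖ ≤ c / 2 * |y - x| := by
    intro f f' a hf hfa x y hx hy
    have hd : ∀ t ∈ Icc 0 T, HasDerivWithinAt (fun t : ℝ => f t - (t : ℂ) * a) (f' t - a)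
        (Icc 0 T) t := by
      intro t _
      have e1 : HasDerivAt (fun t : ℝ => (t : ℂ) * a) (1 * a) t :=
        (Complex.ofRealCLM.hasDerivAt (x := t)).mul_const a
      rw [one_mul] at e1
      exact ((hf t).sub e1).hasDerivWithinAt
    have := (convex_Icc (0 : ℝ) T).norm_image_sub_le_of_norm_hasDerivWithin_le hd hfa hx hy
    have e2 : f y - (y : ℂ) * a - (f x - (x : ℂ) * a)
        = (f y - f x) - ((y - x : ℝ) : ℂ) * a := by
      push_cast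
      ring
    rw [← e2]
    simpa [Real.norm_eq_abs] using this
  have hP := mv hp hpa hs₀ hs₁
  have hQ := mv hq hqb ht₀ ht₁
  have hA := hab (s₁ - s₀) (t₁ - t₀)
  have key : ‖((s₁ - s₀ : ℝ) : ℂ) * a - ((t₁ - t₀ : ℝ) : ℂ) * b‖
      ≤ c / 2 * |s₁ - s₀| + c / 2 * |t₁ - t₀| + (ε + ε) := by
    have e : ((s₁ - s₀ : ℝ) : ℂ) * a - ((t₁ - t₀ : ℝ) : ℂ) * b
        = -((p s₁ - p s₀) - ((s₁ - s₀ : ℝ) : ℂ) * a)
          + ((q t₁ - q t₀) - ((t₁ - t₀ : ℝ) : ℂ) * b)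
          + ((p s₁ - q t₁) - (p s₀ - q t₀)) := by ring
    rw [e]
    refine (norm_add_le _ _).trans (add_le_add ((norm_add_le _ _).trans (add_le_add ?_ hQ))
      ((norm_sub_le _ _).trans (add_le_add h1 h0)))
    rw [norm_neg]
    exact hP
  rw [le_div_iff₀ hc]
  nlinarith [hA, key, abs_nonneg (s₁ - s₀), abs_nonneg (t₁ - t₀)]

lemma area {S : Set (ℝ × ℝ)} {r : ℝ} (hr : 0 ≤ r)
    (h : ∀ x ∈ S, ∀ y ∈ S, |y.1 - x.1| + |y.2 - x.2| ≤ r) :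
    (volume : Measure (ℝ × ℝ)) S ≤ ENNReal.ofReal (4 * r ^ 2) := by
  rcases S.eq_empty_or_nonempty with he | ⟨x, hx⟩
  · rw [he, measure_empty]
    exact zero_le
  · have hsub : S ⊆ Icc (x.1 - r) (x.1 + r) ×ˢ Icc (x.2 - r) (x.2 + r) := by
      intro y hy
      have h1 := h x hx y hy
      have h2 := abs_nonneg (y.1 - x.1)
      have h3 := abs_nonneg (y.2 - x.2)
      have h4 : |y.1 - x.1| ≤ r := by linarith
      have h5 : |y.2 - x.2| ≤ r := by linarith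
      rw [abs_le] at h4 h5
      refine ⟨⟨?_, ?_⟩, ?_, ?_⟩ <;> linarith [h4.1, h4.2, h5.1, h5.2]
    refine (measure_mono hsub).trans ?_
    rw [Measure.volume_eq_prod, Measure.prod_prod, Real.volume_Icc, Real.volume_Icc,
      ← ENNReal.ofReal_mul (by linarith)]
    refine ENNReal.ofReal_le_ofReal (le_of_eq ?_)
    ring

end ARE

open _root_.U3.ARE in
theorem stmtAre (hVel : StmtVel) (hRot : StmtRot) : StmtAre := by
  intro Γ ρ Φ hF hΦ K hK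
  obtain ⟨hvc, hv0, hder⟩ := hVel Γ ρ Φ hF hΦ
  have huG := hRot.2.2.1
  rcases K.eq_empty_or_nonempty with hKe | hKn
  · exact ⟨1, 1, one_pos, one_pos, fun v hv => by simp [hKe] at hv⟩
  have hcV : Continuous fun p : ℝ × SL(2, ℝ) => vG ρ (Φ p.1 p.2) := hvc.comp hΦ.cont
  obtain ⟨k0, hk0⟩ := hKn
  have hne : (Icc (0 : ℝ) 1 ×ˢ K).Nonempty := ⟨(0, k0), ⟨le_refl _, zero_le_one⟩, hk0⟩
  obtain ⟨p0, hp0, hmin⟩ := ((isCompact_Icc : IsCompact (Icc (0 : ℝ) 1)).prod hK).exists_isMinOn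
    hne hcV.norm.continuousOn
  have hm0 : 0 < ‖vG ρ (Φ p0.1 p0.2)‖ := norm_pos_iff.2 (hv0 _)
  obtain ⟨m0, hm0e⟩ : ∃ m0, m0 = ‖vG ρ (Φ p0.1 p0.2)‖ := ⟨_, rfl⟩
  rw [← hm0e] at hm0
  have hlow : ∀ s ∈ Icc (0 : ℝ) 1, ∀ v ∈ K, m0 ≤ ‖vG ρ (Φ s v)‖ := by
    intro s hs v hv
    rw [hm0e]
    have h := isMinOn_iff.1 hmin (s, v) (Set.mk_mem_prod hs hv)
    exact h
  obtain ⟨c, hce⟩ : ∃ c, c = 2 / 5 * m0 := ⟨_, rfl⟩
  have hc : 0 < c := by rw [hce]; positivity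
  have hopen : IsOpen {p : ℝ × SL(2, ℝ) | ‖vG ρ (Φ p.1 p.2) - vG ρ (Φ 0 p.2)‖ < c / 4} := by
    refine isOpen_lt ?_ continuous_const
    exact (hcV.sub (hcV.comp (continuous_const.prodMk continuous_snd))).norm
  have hsub : ({(0 : ℝ)} : Set ℝ) ×ˢ K
      ⊆ {p : ℝ × SL(2, ℝ) | ‖vG ρ (Φ p.1 p.2) - vG ρ (Φ 0 p.2)‖ < c / 4} := by
    rintro ⟨s, v⟩ ⟨hs, hv⟩
    have hs' : s = 0 := hs
    subst hs'
    rw [Set.mem_ofPred_eq, sub_self, norm_zero]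
    positivity
  obtain ⟨u, w, hu, hw, h0u, hKw, huw⟩ :=
    generalized_tube_lemma (isCompact_singleton : IsCompact ({(0 : ℝ)} : Set ℝ)) hK hopen hsub
  obtain ⟨T0, hT0, hT0u⟩ := Metric.isOpen_iff.1 hu 0 (h0u rfl)
  obtain ⟨T, hTe⟩ : ∃ T, T = min 1 (T0 / 2) := ⟨_, rfl⟩
  have hT : 0 < T := by rw [hTe]; exact lt_min one_pos (by positivity)
  have hT1 : T ≤ 1 := by rw [hTe]; exact min_le_left _ _
  have hT2 : T ≤ T0 / 2 := by rw [hTe]; exact min_le_right _ _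
  have hosc0 : ∀ s ∈ Icc (0 : ℝ) T, ∀ v ∈ K, ‖vG ρ (Φ s v) - vG ρ (Φ 0 v)‖ < c / 4 := by
    intro s hs v hv
    have hsu : s ∈ u := by
      apply hT0u
      rw [Metric.mem_ball, Real.dist_eq, sub_zero, abs_of_nonneg hs.1]
      linarith [hs.2]
    have h := huw (Set.mk_mem_prod hsu (hKw hv))
    rw [Set.mem_ofPred_eq] at h
    exact h
  have hosc : ∀ v ∈ K, ∀ s ∈ Icc (0 : ℝ) T, ∀ s' ∈ Icc (0 : ℝ) T,
      ‖vG ρ (Φ s' v) - vG ρ (Φ s v)‖ ≤ c / 2 := by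
    intro v hv s hs s' hs'
    have e : vG ρ (Φ s' v) - vG ρ (Φ s v)
        = (vG ρ (Φ s' v) - vG ρ (Φ 0 v)) - (vG ρ (Φ s v) - vG ρ (Φ 0 v)) := by ring
    rw [e]
    refine (norm_sub_le _ _).trans ?_
    linarith [hosc0 s hs v hv, hosc0 s' hs' v hv]
  refine ⟨T, 64 / c ^ 2, hT, by positivity, ?_⟩
  intro v hv v' hv' ε hε
  have hmain := area (S := {x : ℝ × ℝ | x.1 ∈ Icc 0 T ∧ x.2 ∈ Icc 0 T ∧
        ‖pG (Φ x.1 v) - pG (Φ x.2 v')‖ ≤ ε ∧ ‖w3 * uG (Φ x.1 v) - uG (Φ x.2 v')‖ ≤ 1 / 10})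
    (r := 4 * ε / c) (by positivity) (by
      rintro ⟨s₀, t₀⟩ ⟨hs₀, ht₀, h0, hw0⟩ ⟨s₁, t₁⟩ ⟨hs₁, ht₁, h1, _⟩
      simp only at hs₀ ht₀ h0 hw0 hs₁ ht₁ h1 ⊢
      refine close (p := fun s => pG (Φ s v)) (q := fun s => pG (Φ s v'))
        (p' := fun s => vG ρ (Φ s v)) (q' := fun s => vG ρ (Φ s v'))
        (a := vG ρ (Φ s₀ v)) (b := vG ρ (Φ t₀ v')) (T := T) (c := c) (ε := ε) hc
        (fun t => hder v t) (fun t => hder v' t)
        (fun t ht => hosc v hv s₀ hs₀ t ht) (fun t ht => hosc v' hv' t₀ ht₀ t ht)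
        ?_ hs₀ ht₀ hs₁ ht₁ h0 h1
      intro x y
      have hA : m0 ≤ ‖vG ρ (Φ s₀ v)‖ := hlow s₀ ⟨hs₀.1, hs₀.2.trans hT1⟩ v hv
      have hB : m0 ≤ ‖vG ρ (Φ t₀ v')‖ := hlow t₀ ⟨ht₀.1, ht₀.2.trans hT1⟩ v' hv'
      have hang := angle (dirG (Φ s₀ v)) (dirG (Φ t₀ v')) (dirG_of_uG _ (huG _)) hw0
        (x * ‖vG ρ (Φ s₀ v)‖) (y * ‖vG ρ (Φ t₀ v')‖)
      have e : (x : ℂ) * vG ρ (Φ s₀ v) - (y : ℂ) * vG ρ (Φ t₀ v')
          = ((x * ‖vG ρ (Φ s₀ v)‖ : ℝ) : ℂ) * dirG (Φ s₀ v)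
            - ((y * ‖vG ρ (Φ t₀ v')‖ : ℝ) : ℂ) * dirG (Φ t₀ v') := by
        conv_lhs => rw [vG_eq ρ (Φ s₀ v) (huG _), vG_eq ρ (Φ t₀ v') (huG _)]
        push_cast
        ring
      rw [e]
      refine le_trans ?_ hang
      rw [abs_mul, abs_mul, abs_norm, abs_norm, hce]
      have hx := mul_le_mul_of_nonneg_left hA (abs_nonneg x)
      have hy := mul_le_mul_of_nonneg_left hB (abs_nonneg y)
      linarith)
  refine hmain.trans (ENNReal.ofReal_le_ofReal (le_of_eq ?_))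
  field_simp
  ring

end U3


end

section

/-!
NCR: the mass of the pairs of close points with directions at about 120 degrees is bounded by the
mass of the pairs of geodesics which cross at 120 degrees.
-/

open MeasureTheory Filter Topology Set
open UpperHalfPlane hiding I
open scoped ContDiff MatrixGroups ENNReal

namespace U3

open QE QE.NC QJ

namespace NCR

theorem second : SecondCountableTopology SL(2, ℝ) := by
  have h : Topology.IsInducing (fun g : SL(2, ℝ) => (g : Matrix (Fin 2) (Fin 2) ℝ)) := ⟨rfl⟩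
  have h2 : SecondCountableTopology (Matrix (Fin 2) (Fin 2) ℝ) :=
    inferInstanceAs (SecondCountableTopology (Fin 2 → Fin 2 → ℝ))
  exact h.secondCountableTopology

/-- the pairs which come `ε`-close within time `T` -/
def MM (Φ : ℝ → SL(2, ℝ) → SL(2, ℝ)) (T ε η : ℝ) (F : Set ℂ) : Set (SL(2, ℝ) × SL(2, ℝ)) :=
  {x | ∃ p ∈ Icc (0 : ℝ) T ×ˢ Icc (0 : ℝ) T, (Φ p.1 x.1, Φ p.2 x.2) ∈ Nn ε η F}

theorem Nn_closed (hp : Continuous pG) (hu : Continuous uG) (ε η : ℝ) {F : Set ℂ}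
    (hF : IsClosed F) : IsClosed (Nn ε η F) := by
  have h1 : IsClosed {x : SL(2, ℝ) × SL(2, ℝ) | pG x.1 ∈ F} :=
    hF.preimage (hp.comp continuous_fst)
  have h2 : IsClosed {x : SL(2, ℝ) × SL(2, ℝ) | ‖pG x.1 - pG x.2‖ ≤ ε} :=
    isClosed_le ((hp.comp continuous_fst).sub (hp.comp continuous_snd)).norm continuous_const
  have h3 : IsClosed {x : SL(2, ℝ) × SL(2, ℝ) | ‖w3 * uG x.1 - uG x.2‖ ≤ η} :=
    isClosed_le ((continuous_const.mul (hu.comp continuous_fst)).sub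
      (hu.comp continuous_snd)).norm continuous_const
  exact h1.inter (h2.inter h3)

theorem Nn_mono {ε ε' η η' : ℝ} (F : Set ℂ) (h : ε ≤ ε') (h' : η ≤ η') :
    Nn ε η F ⊆ Nn ε' η' F :=
  fun _ hx => ⟨hx.1, hx.2.1.trans h, hx.2.2.trans h'⟩

theorem MM_mono (Φ : ℝ → SL(2, ℝ) → SL(2, ℝ)) (T : ℝ) {ε ε' η η' : ℝ} (F : Set ℂ) (h : ε ≤ ε')
    (h' : η ≤ η') : MM Φ T ε η F ⊆ MM Φ T ε' η' F := by
  rintro x ⟨p, hp, hx⟩
  exact ⟨p, hp, Nn_mono F h h' hx⟩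

theorem cont_two {ρ : ℍ → ℝ} {Φ : ℝ → SL(2, ℝ) → SL(2, ℝ)} (hΦ : GFlow ρ Φ) :
    Continuous fun q : (ℝ × ℝ) × (SL(2, ℝ) × SL(2, ℝ)) => (Φ q.1.1 q.2.1, Φ q.1.2 q.2.2) := by
  have h1 : Continuous fun q : (ℝ × ℝ) × (SL(2, ℝ) × SL(2, ℝ)) => Φ q.1.1 q.2.1 :=
    hΦ.cont.comp (continuous_fst.fst.prodMk continuous_snd.fst)
  have h2 : Continuous fun q : (ℝ × ℝ) × (SL(2, ℝ) × SL(2, ℝ)) => Φ q.1.2 q.2.2 :=
    hΦ.cont.comp (continuous_fst.snd.prodMk continuous_snd.snd)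
  exact h1.prodMk h2

/-- the set of all `(s, t, x)` -/
def SS (Φ : ℝ → SL(2, ℝ) → SL(2, ℝ)) (T ε η : ℝ) (F : Set ℂ) :
    Set ((ℝ × ℝ) × (SL(2, ℝ) × SL(2, ℝ))) :=
  {q | q.1 ∈ Icc (0 : ℝ) T ×ˢ Icc (0 : ℝ) T ∧ (Φ q.1.1 q.2.1, Φ q.1.2 q.2.2) ∈ Nn ε η F}

theorem SS_closed {ρ : ℍ → ℝ} {Φ : ℝ → SL(2, ℝ) → SL(2, ℝ)} (hΦ : GFlow ρ Φ)
    (hp : Continuous pG) (hu : Continuous uG) (T ε η : ℝ) {F : Set ℂ} (hF : IsClosed F) :
    IsClosed (SS Φ T ε η F) :=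
  ((isClosed_Icc.prod isClosed_Icc).preimage continuous_fst).inter
    ((Nn_closed hp hu ε η hF).preimage (cont_two hΦ))

theorem MM_closed {ρ : ℍ → ℝ} {Φ : ℝ → SL(2, ℝ) → SL(2, ℝ)} (hΦ : GFlow ρ Φ)
    (hp : Continuous pG) (hu : Continuous uG) (T ε η : ℝ) {F : Set ℂ} (hF : IsClosed F) :
    IsClosed (MM Φ T ε η F) := by
  have hK : IsCompact (Icc (0 : ℝ) T ×ˢ Icc (0 : ℝ) T) := isCompact_Icc.prod isCompact_Icc
  have : CompactSpace ↥(Icc (0 : ℝ) T ×ˢ Icc (0 : ℝ) T) := isCompact_iff_compactSpace.1 hK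
  have hc : Continuous fun q : ↥(Icc (0 : ℝ) T ×ˢ Icc (0 : ℝ) T) × (SL(2, ℝ) × SL(2, ℝ)) =>
      ((q.1 : ℝ × ℝ), q.2) := (continuous_subtype_val.comp continuous_fst).prodMk continuous_snd
  have h1 := (SS_closed hΦ hp hu T ε η hF).preimage hc
  have h2 := isClosedMap_snd_of_compactSpace _ h1
  convert h2 using 1
  ext x
  constructor
  · rintro ⟨p, hp', hx⟩
    exact ⟨(⟨p, hp'⟩, x), ⟨hp', hx⟩, rfl⟩
  · rintro ⟨⟨⟨p, hp'⟩, y⟩, ⟨_, hx⟩, rfl⟩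
    exact ⟨p, hp', hx⟩

theorem inter_sub {ρ : ℍ → ℝ} {Φ : ℝ → SL(2, ℝ) → SL(2, ℝ)} (hΦ : GFlow ρ Φ)
    (hp : Continuous pG) (hu : Continuous uG) (T : ℝ) {F : Set ℂ} (hF : IsClosed F) :
    (⋂ n : ℕ, MM Φ T (1 / ((n : ℝ) + 1)) (1 / ((n : ℝ) + 1)) F) ⊆ Cc Φ T 0 F := by
  intro x hx
  rw [mem_iInter] at hx
  have hmono : ∀ n : ℕ, 1 / (((n + 1 : ℕ) : ℝ) + 1) ≤ 1 / ((n : ℝ) + 1) := by
    intro n
    apply one_div_le_one_div_of_le (by positivity)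
    push_cast
    linarith
  have hcx : Continuous fun p : ℝ × ℝ => (Φ p.1 x.1, Φ p.2 x.2) :=
    (cont_two hΦ).comp (continuous_id.prodMk continuous_const)
  let A : ℕ → Set (ℝ × ℝ) := fun n => {p | p ∈ Icc (0 : ℝ) T ×ˢ Icc (0 : ℝ) T ∧
    (Φ p.1 x.1, Φ p.2 x.2) ∈ Nn (1 / ((n : ℝ) + 1)) (1 / ((n : ℝ) + 1)) F}
  have hAc : ∀ n, IsClosed (A n) := fun n =>
    (isClosed_Icc.prod isClosed_Icc).inter ((Nn_closed hp hu _ _ hF).preimage hcx)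
  obtain ⟨p, hpA⟩ := IsCompact.nonempty_iInter_of_sequence_nonempty_isCompact_isClosed A
    (fun n p hpn => ⟨hpn.1, Nn_mono F (hmono n) (hmono n) hpn.2⟩)
    (fun n => by
      obtain ⟨p, hp1, hp2⟩ := hx n
      exact ⟨p, hp1, hp2⟩)
    ((isCompact_Icc.prod isCompact_Icc).of_isClosed_subset (hAc 0) fun p hp0 => hp0.1) hAc
  rw [mem_iInter] at hpA
  have hz : ∀ a : ℝ, (∀ n : ℕ, a ≤ 1 / ((n : ℝ) + 1)) → a ≤ 0 := fun a ha =>
    ge_of_tendsto' tendsto_one_div_add_atTop_nhds_zero_nat ha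
  have h0 := hpA 0
  refine ⟨p.1, h0.1.1, p.2, h0.1.2, h0.2.1, ?_, ?_⟩
  · have h1 : ‖pG (Φ p.1 x.1) - pG (Φ p.2 x.2)‖ ≤ 0 := hz _ fun n => (hpA n).2.2.1
    exact sub_eq_zero.1 (norm_le_zero_iff.1 h1)
  · exact hz _ fun n => (hpA n).2.2.2

theorem key [MeasurableSpace SL(2, ℝ)] [BorelSpace SL(2, ℝ)] {ρ : ℍ → ℝ}
    {Φ : ℝ → SL(2, ℝ) → SL(2, ℝ)} (hΦ : GFlow ρ Φ) (hp : Continuous pG) (hu : Continuous uG)
    {ν : Measure SL(2, ℝ)} [SigmaFinite ν] (hinv : ∀ t, Measure.map (Φ t) ν = ν)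
    {T ε η c : ℝ} (hT : 0 < T) {F : Set ℂ} (hF : IsClosed F)
    (harea : ∀ x ∈ MM Φ T ε η F, (volume : Measure (ℝ × ℝ))
      {p | p ∈ Icc (0 : ℝ) T ×ˢ Icc (0 : ℝ) T ∧ (Φ p.1 x.1, Φ p.2 x.2) ∈ Nn ε η F}
        ≤ ENNReal.ofReal c) :
    ENNReal.ofReal (T ^ 2) * (ν.prod ν) (Nn ε η F)
      ≤ ENNReal.ofReal c * (ν.prod ν) (MM Φ T ε η F) := by
  have := second
  have hS : MeasurableSet (SS Φ T ε η F) := (SS_closed hΦ hp hu T ε η hF).measurableSet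
  have hN : MeasurableSet (Nn ε η F) := (Nn_closed hp hu ε η hF).measurableSet
  have hM : MeasurableSet (MM Φ T ε η F) := (MM_closed hΦ hp hu T ε η hF).measurableSet
  have hfl : ∀ t, Continuous (Φ t) := fun t => hΦ.cont.comp (continuous_const.prodMk continuous_id)
  have hmp : ∀ t, MeasurePreserving (Φ t) ν ν := fun t => ⟨(hfl t).measurable, hinv t⟩
  have e1 := Measure.prod_apply (μ := (volume : Measure (ℝ × ℝ))) (ν := ν.prod ν) hS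
  have e2 := Measure.prod_apply_symm (μ := (volume : Measure (ℝ × ℝ))) (ν := ν.prod ν) hS
  have h1 : ENNReal.ofReal (T ^ 2) * (ν.prod ν) (Nn ε η F)
      ≤ ((volume : Measure (ℝ × ℝ)).prod (ν.prod ν)) (SS Φ T ε η F) := by
    rw [e1]
    have hvol : (volume : Measure (ℝ × ℝ)) (Icc (0 : ℝ) T ×ˢ Icc (0 : ℝ) T)
        = ENNReal.ofReal (T ^ 2) := by
      rw [Measure.volume_eq_prod, Measure.prod_prod, Real.volume_Icc, ← ENNReal.ofReal_mul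
        (by linarith)]
      congr 1
      ring
    calc ENNReal.ofReal (T ^ 2) * (ν.prod ν) (Nn ε η F)
        = ∫⁻ _ in Icc (0 : ℝ) T ×ˢ Icc (0 : ℝ) T, (ν.prod ν) (Nn ε η F) := by
          rw [setLIntegral_const, hvol, mul_comm]
      _ = ∫⁻ p in Icc (0 : ℝ) T ×ˢ Icc (0 : ℝ) T, (ν.prod ν) (Prod.mk p ⁻¹' SS Φ T ε η F) := by
          refine setLIntegral_congr_fun (measurableSet_Icc.prod measurableSet_Icc) ?_
          intro p hp'
          have h2 : Prod.mk p ⁻¹' SS Φ T ε η F = (Prod.map (Φ p.1) (Φ p.2)) ⁻¹' Nn ε η F := by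
            ext x
            exact ⟨fun h => h.2, fun h => ⟨hp', h⟩⟩
          show (ν.prod ν) (Nn ε η F) = (ν.prod ν) (Prod.mk p ⁻¹' SS Φ T ε η F)
          rw [h2, ((hmp p.1).prod (hmp p.2)).measure_preimage hN.nullMeasurableSet]
      _ ≤ ∫⁻ p, (ν.prod ν) (Prod.mk p ⁻¹' SS Φ T ε η F) := setLIntegral_le_lintegral _ _
  refine h1.trans ?_
  rw [e2]
  calc ∫⁻ x, (volume : Measure (ℝ × ℝ)) ((fun p => (p, x)) ⁻¹' SS Φ T ε η F) ∂(ν.prod ν)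
      ≤ ∫⁻ x, (MM Φ T ε η F).indicator (fun _ => ENNReal.ofReal c) x ∂(ν.prod ν) := by
        refine lintegral_mono fun x => ?_
        by_cases hx : x ∈ MM Φ T ε η F
        · rw [indicator_of_mem hx]
          exact harea x hx
        · rw [indicator_of_notMem hx]
          have : (fun p => (p, x)) ⁻¹' SS Φ T ε η F = ∅ := by
            ext p
            simp only [mem_empty_iff_false, iff_false]
            intro h
            exact hx ⟨p, h.1, h.2⟩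
          rw [this, measure_empty]
    _ = ENNReal.ofReal c * (ν.prod ν) (MM Φ T ε η F) := by
        rw [lintegral_indicator hM, setLIntegral_const]

end NCR

open _root_.U3.NCR in
theorem stmtNcr (hAre : StmtAre) (hRot : StmtRot) : StmtNcr := by
  intro _ _ Γ ρ Φ ν _ _ hFac hΦ hinv F hFc hFU
  have := second
  obtain ⟨hp, hu, -, -, -, -, -, hpre⟩ := hRot
  obtain ⟨ε₁, hε₁, hth⟩ := hFc.exists_cthickening_subset_open QE.isOpen_UH hFU
  have hF1 : IsCompact (Metric.cthickening ε₁ F) := hFc.cthickening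
  have hK1 := hpre _ hF1 hth
  let L : Set SL(2, ℝ) := (fun q : ℝ × SL(2, ℝ) => Φ (-q.1) q.2) ''
    (Icc (0 : ℝ) 1 ×ˢ (pG ⁻¹' Metric.cthickening ε₁ F))
  have hL : IsCompact L := (isCompact_Icc.prod hK1).image
    (hΦ.cont.comp ((continuous_fst.neg).prodMk continuous_snd))
  have hLmem : ∀ s ∈ Icc (0 : ℝ) 1, ∀ g, pG (Φ s g) ∈ Metric.cthickening ε₁ F → g ∈ L := by
    intro s hs g hg
    refine ⟨(s, Φ s g), ⟨hs, hg⟩, ?_⟩
    show Φ (-s) (Φ s g) = g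
    rw [← hΦ.add, neg_add_cancel, hΦ.zero]
  obtain ⟨T₀, C₀, hT₀, hC₀, hA⟩ := hAre Γ ρ Φ hFac hΦ L hL
  obtain ⟨T, hTe⟩ : ∃ T, T = min 1 T₀ := ⟨_, rfl⟩
  have hT : 0 < T := by rw [hTe]; exact lt_min one_pos hT₀
  have hT1 : T ≤ 1 := by rw [hTe]; exact min_le_left _ _
  have hT2 : T ≤ T₀ := by rw [hTe]; exact min_le_right _ _
  refine ⟨T, C₀ / T ^ 2, hT, by positivity, ?_⟩
  intro F' hF'c hF' b hb
  have hb0 : 0 < b := by
    by_contra h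
    rw [ENNReal.ofReal_of_nonpos (not_lt.1 h)] at hb
    exact not_lt_zero hb
  have hsubL : ∀ {ε η : ℝ}, ε ≤ ε₁ → MM Φ T ε η F' ⊆ L ×ˢ L := by
    rintro ε η hε x ⟨p, hp', hx⟩
    have h1 : pG (Φ p.1 x.1) ∈ F := hF' hx.1
    refine ⟨hLmem p.1 ⟨hp'.1.1, hp'.1.2.trans hT1⟩ x.1 (Metric.self_subset_cthickening F h1),
      hLmem p.2 ⟨hp'.2.1, hp'.2.2.trans hT1⟩ x.2 ?_⟩
    refine Metric.mem_cthickening_of_dist_le _ (pG (Φ p.1 x.1)) ε₁ F h1 ?_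
    rw [dist_eq_norm, norm_sub_rev]
    exact hx.2.1.trans hε
  -- the masses of the sets `MM`
  have htend : Tendsto (fun n : ℕ => (ν.prod ν) (MM Φ T (1 / ((n : ℝ) + 1)) (1 / ((n : ℝ) + 1)) F'))
      atTop (𝓝 ((ν.prod ν) (⋂ n : ℕ, MM Φ T (1 / ((n : ℝ) + 1)) (1 / ((n : ℝ) + 1)) F'))) := by
    refine tendsto_measure_iInter_atTop
      (fun n => (MM_closed hΦ hp hu T _ _ hF'c.isClosed).measurableSet.nullMeasurableSet) ?_ ?_
    · intro m n hmn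
      have h : 1 / ((n : ℝ) + 1) ≤ 1 / ((m : ℝ) + 1) := by
        apply one_div_le_one_div_of_le (by positivity)
        have : (m : ℝ) ≤ n := by exact_mod_cast hmn
        linarith
      exact MM_mono Φ T F' h h
    · obtain ⟨n, hn⟩ := exists_nat_one_div_lt hε₁
      refine ⟨n, ne_of_lt ?_⟩
      refine (measure_mono (hsubL hn.le)).trans_lt ?_
      rw [Measure.prod_prod]
      exact ENNReal.mul_lt_top hL.measure_lt_top hL.measure_lt_top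
  have hlt : (ν.prod ν) (⋂ n : ℕ, MM Φ T (1 / ((n : ℝ) + 1)) (1 / ((n : ℝ) + 1)) F')
      < ENNReal.ofReal b :=
    (measure_mono (inter_sub hΦ hp hu T hF'c.isClosed)).trans_lt hb
  have hev := htend.eventually_lt_const hlt
  have hsm : ∀ᶠ n : ℕ in atTop, 1 / ((n : ℝ) + 1) < min ε₁ (1 / 10) :=
    tendsto_one_div_add_atTop_nhds_zero_nat.eventually_lt_const (lt_min hε₁ (by norm_num))
  obtain ⟨n, hn1, hn2⟩ := (hev.and hsm).exists
  obtain ⟨η, hηe⟩ : ∃ η : ℝ, η = 1 / ((n : ℝ) + 1) := ⟨_, rfl⟩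
  rw [← hηe] at hn1 hn2
  have hη : 0 < η := by rw [hηe]; positivity
  refine ⟨η, hη, ?_⟩
  filter_upwards [Ioc_mem_nhdsGT hη] with ε hε
  have hεε₁ : ε ≤ ε₁ := hε.2.trans (hn2.le.trans (min_le_left _ _))
  have hη10 : η ≤ 1 / 10 := hn2.le.trans (min_le_right _ _)
  have hk := key hΦ hp hu hinv (T := T) (ε := ε) (η := η) (c := C₀ * ε ^ 2) hT hF'c.isClosed (by
    intro x hx
    have hxL := hsubL hεε₁ hx
    refine (measure_mono ?_).trans (hA x.1 hxL.1 x.2 hxL.2 ε hε.1)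
    rintro p ⟨hp1, hp2⟩
    exact ⟨⟨hp1.1.1, hp1.1.2.trans hT2⟩, ⟨hp1.2.1, hp1.2.2.trans hT2⟩, hp2.2.1,
      hp2.2.2.trans hη10⟩)
  have hk2 : ENNReal.ofReal (T ^ 2) * (ν.prod ν) (Nn ε η F')
      ≤ ENNReal.ofReal (C₀ * ε ^ 2) * ENNReal.ofReal b :=
    hk.trans (mul_le_mul_right ((measure_mono (MM_mono Φ T F' hε.2 le_rfl)).trans hn1.le) _)
  have hT2pos : (0 : ℝ) < T ^ 2 := by positivity
  rw [← ENNReal.ofReal_mul (by positivity)] at hk2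
  have e3 : C₀ / T ^ 2 * b * ε ^ 2 = (C₀ * ε ^ 2 * b) / T ^ 2 := by
    field_simp
  rw [e3, ENNReal.ofReal_div_of_pos hT2pos, ENNReal.le_div_iff_mul_le
    (Or.inl (ENNReal.ofReal_pos.2 hT2pos).ne') (Or.inl ENNReal.ofReal_ne_top), mul_comm]
  exact hk2

end U3


end

section

/-!
TRV: the transversal crossings of two geodesics are isolated, hence countable.
-/

open MeasureTheory Filter Topology Set
open UpperHalfPlane hiding I
open scoped ContDiff MatrixGroups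

namespace U3

open QE QE.NC QJ

namespace TRV

theorem parallel {A B : ℝ} (hA : A ≠ 0) (hB : B ≠ 0) {p q : ℂ} (hp : ‖p‖ = 1) (hq : ‖q‖ = 1)
    {x y : ℝ} (hxy : x ≠ 0 ∨ y ≠ 0) (h : (x : ℂ) * ((A : ℂ) * p) = (y : ℂ) * ((B : ℂ) * q)) :
    p = q ∨ p = -q := by
  have h1 : ((x * A : ℝ) : ℂ) * p = ((y * B : ℝ) : ℂ) * q := by
    push_cast
    linear_combination h
  have h2 : |x * A| = |y * B| := by
    have h3 := congrArg norm h1
    rw [norm_mul, norm_mul, hp, hq, mul_one, mul_one, Complex.norm_real, Complex.norm_real,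
      Real.norm_eq_abs, Real.norm_eq_abs] at h3
    exact h3
  have h3 : y * B ≠ 0 := by
    intro h0
    rw [h0, abs_zero] at h2
    have h4 := abs_eq_zero.mp h2
    rcases hxy with h5 | h5
    · exact (mul_ne_zero h5 hA) h4
    · exact (mul_ne_zero h5 hB) h0
  have h3' : ((y * B : ℝ) : ℂ) ≠ 0 := by exact_mod_cast h3
  rcases abs_eq_abs.mp h2 with h4 | h4
  · left
    rw [h4] at h1
    exact mul_left_cancel₀ h3' h1
  · right
    rw [h4] at h1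
    apply mul_left_cancel₀ h3'
    rw [Complex.ofReal_neg] at h1
    linear_combination -h1

theorem norm_dirG (hRot : StmtRot) (g : SL(2, ℝ)) : ‖dirG g‖ = 1 := by
  have h := hRot.2.2.1 g
  unfold uG at h
  rwa [norm_mul, Complex.norm_I, one_mul, RCLike.norm_conj] at h

end TRV

open _root_.U3.TRV in
theorem stmtTrv (hVel : StmtVel) (hRot : StmtRot) : StmtTrv := by
  intro Γ ρ Φ hF hΦ v w S
  obtain ⟨-, -, hder⟩ := hVel Γ ρ Φ hF hΦ
  obtain ⟨Q, hQdef⟩ : ∃ Q : Set (ℝ × ℝ), Q = {x | pG (Φ x.1 w) = pG (Φ x.2 v) ∧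
    uG (Φ x.1 w) ≠ uG (Φ x.2 v) ∧ uG (Φ x.1 w) ≠ -uG (Φ x.2 v)} := ⟨_, rfl⟩
  have hQ : Q.Countable := by
    have hdisc : DiscreteTopology Q := by
      rw [discreteTopology_subtype_iff]
      rintro ⟨t0, s0⟩ hx
      rw [hQdef] at hx
      obtain ⟨h1, h2, h3⟩ := hx
      have d1 : HasFDerivAt (fun x : ℝ × ℝ => pG (Φ x.1 w))
          ((ContinuousLinearMap.toSpanSingleton ℝ (vG ρ (Φ t0 w))).comp
            (ContinuousLinearMap.fst ℝ ℝ ℝ)) (t0, s0) :=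
        HasFDerivAt.comp (g := fun s : ℝ => pG (Φ s w)) (f := fun x : ℝ × ℝ => x.1) (t0, s0)
          (hder w t0).hasFDerivAt hasFDerivAt_fst
      have d2 : HasFDerivAt (fun x : ℝ × ℝ => pG (Φ x.2 v))
          ((ContinuousLinearMap.toSpanSingleton ℝ (vG ρ (Φ s0 v))).comp
            (ContinuousLinearMap.snd ℝ ℝ ℝ)) (t0, s0) :=
        HasFDerivAt.comp (g := fun s : ℝ => pG (Φ s v)) (f := fun x : ℝ × ℝ => x.2) (t0, s0)
          (hder v s0).hasFDerivAt hasFDerivAt_snd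
      have d3 := d1.sub d2
      obtain ⟨L, hL⟩ : ∃ L : ℝ × ℝ →L[ℝ] ℂ, L =
        (ContinuousLinearMap.comp (ContinuousLinearMap.toSpanSingleton ℝ (vG ρ (Φ t0 w)))
            (ContinuousLinearMap.fst ℝ ℝ ℝ)) -
          (ContinuousLinearMap.comp (ContinuousLinearMap.toSpanSingleton ℝ (vG ρ (Φ s0 v)))
            (ContinuousLinearMap.snd ℝ ℝ ℝ)) := ⟨_, rfl⟩
      have d4 : HasFDerivAt (fun x : ℝ × ℝ => pG (Φ x.1 w) - pG (Φ x.2 v)) L (t0, s0) := by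
        rw [hL]
        exact d3
      have hLx : ∀ x : ℝ × ℝ, L x = (x.1 : ℂ) * vG ρ (Φ t0 w) - (x.2 : ℂ) * vG ρ (Φ s0 v) := by
        intro x
        rw [hL]
        simp
      have hker : LinearMap.ker (L : ℝ × ℝ →ₗ[ℝ] ℂ) = ⊥ := by
        rw [LinearMap.ker_eq_bot']
        rintro ⟨x, y⟩ hxy
        have h4 : (x : ℂ) * vG ρ (Φ t0 w) - (y : ℂ) * vG ρ (Φ s0 v) = 0 := by
          rw [← hLx (x, y)]
          exact hxy
        by_contra hne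
        have h5 : x ≠ 0 ∨ y ≠ 0 := by
          by_contra hcon
          push Not at hcon
          exact hne (by rw [hcon.1, hcon.2]; rfl)
        have him : ∀ g : SL(2, ℝ),
            Real.exp (-ρ (g • UpperHalfPlane.I)) * (pG g).im ≠ 0 := by
          intro g
          exact mul_ne_zero (Real.exp_pos _).ne' (g • UpperHalfPlane.I : ℍ).im_pos.ne'
        have h6 := parallel (him (Φ t0 w)) (him (Φ s0 v)) (norm_dirG hRot (Φ t0 w))
          (norm_dirG hRot (Φ s0 v)) h5 (sub_eq_zero.mp h4)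
        rcases h6 with h6 | h6
        · exact h2 (by unfold uG; rw [h6])
        · exact h3 (by unfold uG; rw [h6, map_neg, mul_neg])
      obtain ⟨K, -, hK⟩ := (L : ℝ × ℝ →ₗ[ℝ] ℂ).exists_antilipschitzWith hker
      have hev := d4.eventually_ne (c := (0 : ℂ)) ⟨K, hK⟩
      rw [Filter.inf_principal_eq_bot]
      filter_upwards [hev] with z hz hzQ
      rw [hQdef] at hzQ
      exact hz (sub_eq_zero.mpr hzQ.1)
    exact Set.countable_coe_iff.mp countable_of_Lindelof_of_discrete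
  refine (hQ.image Prod.fst).mono ?_
  rintro t ⟨-, s, -, h1, h2, h3⟩
  refine ⟨(t, s), ?_, rfl⟩
  rw [hQdef]
  exact ⟨h1, h2, h3⟩

end U3


end

section

/-!
CON: over a geodesic arc, an invariant measure is carried by the tangent vectors of the arc; points
have measure zero.
-/

open MeasureTheory Filter Topology Set
open UpperHalfPlane hiding I
open scoped ContDiff MatrixGroups

namespace U3

open QE QE.NC QJ

noncomputable section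

namespace CON

variable {ρ : ℍ → ℝ} {Φ : ℝ → SL(2, ℝ) → SL(2, ℝ)}

lemma cont_t (hΦ : GFlow ρ Φ) (v : SL(2, ℝ)) : Continuous fun s => Φ s v :=
  hΦ.cont.comp (continuous_id.prodMk continuous_const)

lemma cont_g (hΦ : GFlow ρ Φ) (t : ℝ) : Continuous (Φ t) :=
  hΦ.cont.comp (continuous_const.prodMk continuous_id)

lemma inj (hΦ : GFlow ρ Φ) (t : ℝ) : Function.Injective (Φ t) := by
  intro a b hab
  have h := congrArg (Φ (-t)) hab
  simpa [← hΦ.add, hΦ.zero] using h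

/-- the set of frames over the arc -/
def Aset (Φ : ℝ → SL(2, ℝ) → SL(2, ℝ)) (v : SL(2, ℝ)) (S : ℝ) : Set SL(2, ℝ) :=
  {w | ∃ s ∈ Icc (-S) S, pG w = pG (Φ s v)}

/-- the set of tangent frames of the arc -/
def Bset (Φ : ℝ → SL(2, ℝ) → SL(2, ℝ)) (v : SL(2, ℝ)) (S : ℝ) : Set SL(2, ℝ) :=
  {w | ∃ s ∈ Icc (-S) S, pG w = pG (Φ s v) ∧ (uG w = uG (Φ s v) ∨ uG w = -uG (Φ s v))}

lemma closedA (hΦ : GFlow ρ Φ) (hp : Continuous pG) (v : SL(2, ℝ)) (S : ℝ) :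
    IsClosed (Aset Φ v S) := by
  have h1 : IsCompact ((fun s => pG (Φ s v)) '' Icc (-S) S) :=
    isCompact_Icc.image (hp.comp (cont_t hΦ v))
  have h2 : Aset Φ v S = pG ⁻¹' ((fun s => pG (Φ s v)) '' Icc (-S) S) := by
    ext w
    simp only [Aset, mem_ofPred_eq, mem_preimage, mem_image]
    constructor
    · rintro ⟨s, hs, h⟩
      exact ⟨s, hs, h.symm⟩
    · rintro ⟨s, hs, h⟩
      exact ⟨s, hs, h.symm⟩
  rw [h2]
  exact h1.isClosed.preimage hp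

lemma closedB (hΦ : GFlow ρ Φ) (hp : Continuous pG) (hu : Continuous uG) (v : SL(2, ℝ)) (S : ℝ) :
    IsClosed (Bset Φ v S) := by
  have h1 : IsCompact ((fun s => (pG (Φ s v), uG (Φ s v))) '' Icc (-S) S) :=
    isCompact_Icc.image ((hp.comp (cont_t hΦ v)).prodMk (hu.comp (cont_t hΦ v)))
  have h1' : IsCompact ((fun s => (pG (Φ s v), -uG (Φ s v))) '' Icc (-S) S) :=
    isCompact_Icc.image ((hp.comp (cont_t hΦ v)).prodMk (hu.comp (cont_t hΦ v)).neg)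
  have h2 : Bset Φ v S = (fun w => (pG w, uG w)) ⁻¹'
      ((fun s => (pG (Φ s v), uG (Φ s v))) '' Icc (-S) S ∪
        (fun s => (pG (Φ s v), -uG (Φ s v))) '' Icc (-S) S) := by
    ext w
    simp only [Bset, mem_ofPred_eq, mem_preimage, mem_union, mem_image, Prod.mk.injEq]
    constructor
    · rintro ⟨s, hs, h, h' | h'⟩
      · exact Or.inl ⟨s, hs, h.symm, h'.symm⟩
      · exact Or.inr ⟨s, hs, h.symm, h'.symm⟩
    · rintro (⟨s, hs, h, h'⟩ | ⟨s, hs, h, h'⟩)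
      · exact ⟨s, hs, h.symm, Or.inl h'.symm⟩
      · exact ⟨s, hs, h.symm, Or.inr h'.symm⟩
  rw [h2]
  exact (h1.isClosed.union h1'.isClosed).preimage (hp.prodMk hu)

lemma part1 [MeasurableSpace SL(2, ℝ)] [BorelSpace SL(2, ℝ)] (ν : Measure SL(2, ℝ))
    [SigmaFinite ν] (hΦ : GFlow ρ Φ) (hp : Continuous pG) (hu : Continuous uG)
    (hinv : ∀ t, Measure.map (Φ t) ν = ν) (v : SL(2, ℝ)) (S : ℝ)
    (hT : ∀ (v w : SL(2, ℝ)) (S : ℝ), Set.Countable {t | t ∈ Icc (-S) S ∧ ∃ s ∈ Icc (-S) S,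
      pG (Φ t w) = pG (Φ s v) ∧ uG (Φ t w) ≠ uG (Φ s v) ∧ uG (Φ t w) ≠ -uG (Φ s v)}) :
    ν (Aset Φ v S \ Bset Φ v S) = 0 := by
  have hZ : MeasurableSet (Aset Φ v S \ Bset Φ v S) :=
    (closedA hΦ hp v S).measurableSet.diff (closedB hΦ hp hu v S).measurableSet
  set Z := Aset Φ v S \ Bset Φ v S with hZdef
  have hE : MeasurableSet {x : ℝ × SL(2, ℝ) | x.1 ∈ Icc (0 : ℝ) 1 ∧ Φ x.1 x.2 ∈ Z} := by
    have h1 : Measurable fun x : ℝ × SL(2, ℝ) => Φ x.1 x.2 := hΦ.cont.measurable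
    exact (measurable_fst measurableSet_Icc).inter (h1 hZ)
  have h0 : ((volume : Measure ℝ).prod ν)
      {x : ℝ × SL(2, ℝ) | x.1 ∈ Icc (0 : ℝ) 1 ∧ Φ x.1 x.2 ∈ Z} = 0 := by
    rw [Measure.prod_apply_symm hE]
    have : ∀ w : SL(2, ℝ), (volume : Measure ℝ) ((fun x : ℝ => (x, w)) ⁻¹'
        {x : ℝ × SL(2, ℝ) | x.1 ∈ Icc (0 : ℝ) 1 ∧ Φ x.1 x.2 ∈ Z}) = 0 := by
      intro w
      refine Set.Countable.measure_zero ?_ _
      refine (hT v w (max |S| 1)).mono ?_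
      rintro t ⟨ht, ⟨s, hs, hps⟩, hB⟩
      have hS1 : |S| ≤ max |S| 1 := le_max_left _ _
      have h11 : (1 : ℝ) ≤ max |S| 1 := le_max_right _ _
      have ht' : t ∈ Icc (0 : ℝ) 1 := ht
      have hSa : S ≤ |S| := le_abs_self S
      refine ⟨⟨by linarith [ht'.1], by linarith [ht'.2]⟩, s,
        ⟨by linarith [hs.1], by linarith [hs.2]⟩, hps, ?_, ?_⟩
      · intro h
        exact hB ⟨s, hs, hps, Or.inl h⟩
      · intro h
        exact hB ⟨s, hs, hps, Or.inr h⟩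
    rw [lintegral_congr this]
    simp
  have h2 := Measure.measure_ae_null_of_prod_null h0
  have h3 : ∃ t ∈ Icc (0 : ℝ) 1, ν (Prod.mk t ⁻¹'
      {x : ℝ × SL(2, ℝ) | x.1 ∈ Icc (0 : ℝ) 1 ∧ Φ x.1 x.2 ∈ Z}) = 0 := by
    by_contra hcon
    push Not at hcon
    have h4 : (volume : Measure ℝ) (Icc (0 : ℝ) 1) = 0 := by
      refine measure_mono_null ?_ h2
      intro t ht
      exact hcon t ht
    simp at h4
  obtain ⟨t, ht, h5⟩ := h3
  have h6 : Prod.mk t ⁻¹' {x : ℝ × SL(2, ℝ) | x.1 ∈ Icc (0 : ℝ) 1 ∧ Φ x.1 x.2 ∈ Z}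
      = Φ t ⁻¹' Z := by
    ext w
    simp only [mem_preimage, mem_ofPred_eq]
    exact ⟨fun h => h.2, fun h => ⟨ht, h⟩⟩
  rw [h6] at h5
  have h7 := Measure.map_apply (μ := ν) (cont_g hΦ t).measurable hZ
  rw [hinv t] at h7
  rw [h7, h5]

lemma part2 [MeasurableSpace SL(2, ℝ)] [BorelSpace SL(2, ℝ)] (ν : Measure SL(2, ℝ))
    [IsFiniteMeasureOnCompacts ν] (hΦ : GFlow ρ Φ)
    (hv : ∀ g, vG ρ g ≠ 0) (hd : ∀ g t, HasDerivAt (fun s => pG (Φ s g)) (vG ρ (Φ t g)) t)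
    (hinv : ∀ t, Measure.map (Φ t) ν = ν) (w : SL(2, ℝ)) : ν {w} = 0 := by
  by_contra hcon
  have h1 : ∀ t, ν {Φ t w} = ν {w} := by
    intro t
    have h7 := Measure.map_apply (μ := ν) (cont_g hΦ t).measurable
      (measurableSet_singleton (Φ t w))
    rw [hinv t] at h7
    rw [h7]
    congr 1
    ext x
    simp only [mem_preimage, mem_singleton_iff]
    exact ⟨fun h => inj hΦ t h, fun h => by rw [h]⟩
  have hc : IsCompact ((fun t => Φ t w) '' Icc (0 : ℝ) 1) := isCompact_Icc.image (cont_t hΦ w)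
  have hpre : IsPreconnected ((fun t => Φ t w) '' Icc (0 : ℝ) 1) :=
    isPreconnected_Icc.image _ (cont_t hΦ w).continuousOn
  have hnt : ((fun t => Φ t w) '' Icc (0 : ℝ) 1).Nontrivial := by
    by_contra hn
    rw [Set.not_nontrivial_iff] at hn
    have hconst : ∀ t ∈ Icc (0 : ℝ) 1, Φ t w = w := by
      intro t ht
      have := hn (mem_image_of_mem _ ht) (mem_image_of_mem _ (left_mem_Icc.2 zero_le_one))
      simpa [hΦ.zero] using this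
    have hev : (fun s => pG (Φ s w)) =ᶠ[𝓝 (1 / 2 : ℝ)] fun _ => pG w := by
      filter_upwards [Icc_mem_nhds (show (0 : ℝ) < 1 / 2 by norm_num)
        (show (1 / 2 : ℝ) < 1 by norm_num)] with s hs
      rw [hconst s hs]
    have h8 : HasDerivAt (fun s => pG (Φ s w)) 0 (1 / 2 : ℝ) :=
      (hasDerivAt_const (1 / 2 : ℝ) (pG w)).congr_of_eventuallyEq hev
    exact hv _ ((hd w (1 / 2)).unique h8)
  have hinf := hpre.infinite_of_nontrivial hnt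
  have htop : ν ((fun t => Φ t w) '' Icc (0 : ℝ) 1) = ⊤ := by
    refine hinf.meas_eq_top ⟨ν {w}, hcon, ?_⟩
    rintro x ⟨t, -, rfl⟩
    exact (h1 t).ge
  exact (hc.measure_lt_top (μ := ν)).ne htop

end CON

/-- CON -/
theorem stmtCon (hVel : StmtVel) (hTrv : StmtTrv) (hRot : StmtRot) : StmtCon := by
  intro _ _ Γ ρ Φ ν _ _ hF hΦ hinv
  obtain ⟨hp, hu, -⟩ := hRot
  obtain ⟨-, hv, hd⟩ := hVel Γ ρ Φ hF hΦ
  refine ⟨fun v S => ?_, fun w => CON.part2 ν hΦ hv hd hinv w⟩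
  exact CON.part1 ν hΦ hp hu hinv v S (hTrv Γ ρ Φ hF hΦ)

end

end U3


end

section

/-!
GEO: the geometric input for the invariant measure.
-/

open MeasureTheory Filter Topology Set
open UpperHalfPlane hiding I
open scoped ContDiff MatrixGroups ENNReal

namespace U3

open QE QE.NC QJ

namespace GEO

theorem w3_re : w3.re = -1 / 2 := by
  have h : w3 = Complex.exp (((2 * Real.pi / 3 : ℝ) : ℂ) * Complex.I) := by
    unfold w3
    congr 1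
    push_cast
    ring
  rw [h, Complex.exp_ofReal_mul_I_re]
  have h2 : (2 * Real.pi / 3 : ℝ) = Real.pi - Real.pi / 3 := by ring
  rw [h2, Real.cos_pi_sub, Real.cos_pi_div_three]
  ring

theorem w3_ne_one : w3 ≠ 1 := by
  intro h
  have h1 := w3_re
  rw [h, Complex.one_re] at h1
  norm_num at h1

theorem w3_ne_neg_one : w3 ≠ -1 := by
  intro h
  have h1 := w3_re
  rw [h, Complex.neg_re, Complex.one_re] at h1
  norm_num at h1

theorem cont_neg : Continuous fun g : SL(2, ℝ) => -g := by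
  have h : (fun g : SL(2, ℝ) => -g) = fun g => (-1) * g := by
    funext g
    rw [neg_one_mul]
  rw [h]
  exact continuous_const.mul continuous_id

/-- the arc of base points -/
def arc (Φ : ℝ → SL(2, ℝ) → SL(2, ℝ)) (S : ℝ) (v : SL(2, ℝ)) : Set ℂ :=
  (fun s => pG (Φ s v)) '' Icc (-S) S

/-- the tangent vectors -/
def tvp (Φ : ℝ → SL(2, ℝ) → SL(2, ℝ)) (S : ℝ) (v : SL(2, ℝ)) : Set (ℂ × ℂ) :=
  (fun s => (pG (Φ s v), uG (Φ s v))) '' Icc (-S) S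

/-- the opposite tangent vectors -/
def tvm (Φ : ℝ → SL(2, ℝ) → SL(2, ℝ)) (S : ℝ) (v : SL(2, ℝ)) : Set (ℂ × ℂ) :=
  (fun s => (pG (Φ s v), -uG (Φ s v))) '' Icc (-S) S

/-- the frames whose geodesics meet `F` within time `T` -/
def K0 (Φ : ℝ → SL(2, ℝ) → SL(2, ℝ)) (T : ℝ) (F : Set ℂ) : Set SL(2, ℝ) :=
  {w | ∃ s ∈ Icc 0 T, pG (Φ s w) ∈ F}

theorem cont_fl {ρ : ℍ → ℝ} {Φ : ℝ → SL(2, ℝ) → SL(2, ℝ)} (hΦ : GFlow ρ Φ) (v : SL(2, ℝ)) :
    Continuous fun s => Φ s v :=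
  hΦ.cont.comp (continuous_id.prodMk continuous_const)

theorem K0_cpt {ρ : ℍ → ℝ} {Φ : ℝ → SL(2, ℝ) → SL(2, ℝ)} (hΦ : GFlow ρ Φ) (T : ℝ) {F : Set ℂ}
    (hF : IsCompact (pG ⁻¹' F)) : IsCompact (K0 Φ T F) := by
  have h : K0 Φ T F = (fun p : ℝ × SL(2, ℝ) => Φ (-p.1) p.2) '' (Icc 0 T ×ˢ (pG ⁻¹' F)) := by
    ext w
    constructor
    · rintro ⟨s, hs, hw⟩
      refine ⟨(s, Φ s w), ⟨hs, hw⟩, ?_⟩
      show Φ (-s) (Φ s w) = w
      rw [← hΦ.add, neg_add_cancel, hΦ.zero]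
    · rintro ⟨⟨s, g⟩, ⟨hs, hg⟩, rfl⟩
      refine ⟨s, hs, ?_⟩
      show pG (Φ s (Φ (-s) g)) ∈ F
      rw [← hΦ.add, add_neg_cancel, hΦ.zero]
      exact hg
  rw [h]
  exact (isCompact_Icc.prod hF).image
    (hΦ.cont.comp ((continuous_fst.neg).prodMk continuous_snd))

theorem Sg_cpt {ρ : ℍ → ℝ} {Φ : ℝ → SL(2, ℝ) → SL(2, ℝ)} (hΦ : GFlow ρ Φ) (S : ℝ)
    (v : SL(2, ℝ)) : IsCompact (Sg Φ S v) := by
  have h : Sg Φ S v = (fun s => Φ s v) '' Icc (-S) S ∪ (fun s => -Φ s v) '' Icc (-S) S := by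
    ext w
    constructor
    · rintro ⟨s, hs, hw | hw⟩
      · exact Or.inl ⟨s, hs, hw.symm⟩
      · exact Or.inr ⟨s, hs, hw.symm⟩
    · rintro (⟨s, hs, hw⟩ | ⟨s, hs, hw⟩)
      · exact ⟨s, hs, Or.inl hw.symm⟩
      · exact ⟨s, hs, Or.inr hw.symm⟩
  rw [h]
  exact (isCompact_Icc.image (cont_fl hΦ v)).union
    (isCompact_Icc.image (cont_neg.comp (cont_fl hΦ v)))

theorem Cc_sub (Φ : ℝ → SL(2, ℝ) → SL(2, ℝ)) (T η : ℝ) (F : Set ℂ) :
    Cc Φ T η F ⊆ K0 Φ T F ×ˢ K0 Φ T F := by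
  rintro x ⟨s, hs, t, ht, h1, h2, -⟩
  exact ⟨⟨s, hs, h1⟩, ⟨t, ht, h2 ▸ h1⟩⟩

theorem Cc_mono (Φ : ℝ → SL(2, ℝ) → SL(2, ℝ)) (T η : ℝ) {F F' : Set ℂ} (h : F' ⊆ F) :
    Cc Φ T η F' ⊆ Cc Φ T η F := by
  rintro x ⟨s, hs, t, ht, h1, h2, h3⟩
  exact ⟨s, hs, t, ht, h h1, h2, h3⟩

theorem K0_mono (Φ : ℝ → SL(2, ℝ) → SL(2, ℝ)) (T : ℝ) {F F' : Set ℂ} (h : F' ⊆ F) :
    K0 Φ T F' ⊆ K0 Φ T F := by
  rintro x ⟨s, hs, h1⟩
  exact ⟨s, hs, h h1⟩

theorem two_pts (puniq : ∀ g g' : SL(2, ℝ), pG g = pG g' → uG g = uG g' → g' = g ∨ g' = -g)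
    (p u : ℂ) : Set.Countable {g : SL(2, ℝ) | pG g = p ∧ uG g = u} := by
  rcases Set.eq_empty_or_nonempty {g : SL(2, ℝ) | pG g = p ∧ uG g = u} with h | ⟨g0, h0⟩
  · rw [h]
    exact countable_empty
  · apply (Set.toFinite ({g0, -g0} : Set SL(2, ℝ))).countable.mono
    rintro g ⟨hp, hu⟩
    rcases puniq g0 g (h0.1.trans hp.symm) (h0.2.trans hu.symm) with h | h
    · exact Or.inl h
    · exact Or.inr h

/-- a frame on the segment `Sg`, flowed within time `T`, has its base point on the longer arc -/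
theorem arc_of_Sg {ρ : ℍ → ℝ} {Φ : ℝ → SL(2, ℝ) → SL(2, ℝ)} (hΦ : GFlow ρ Φ)
    (pneg : ∀ g : SL(2, ℝ), pG (-g) = pG g) {S T s : ℝ} (hs : s ∈ Icc 0 T)
    {v w : SL(2, ℝ)} (hw : w ∈ Sg Φ S v) : pG (Φ s w) ∈ arc Φ (S + T) v := by
  obtain ⟨t, ht, hw⟩ := hw
  refine ⟨s + t, ⟨by linarith [hs.1, ht.1, hs.2], by linarith [hs.2, ht.2]⟩, ?_⟩
  show pG (Φ (s + t) v) = pG (Φ s w)
  rcases hw with hw | hw
  · rw [hw, hΦ.add]
  · rw [hw, hΦ.neg, pneg, hΦ.add]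

theorem rot_null [MeasurableSpace SL(2, ℝ)] [BorelSpace SL(2, ℝ)]
    {Φ : ℝ → SL(2, ℝ) → SL(2, ℝ)} {ν : Measure SL(2, ℝ)} {S : ℝ} {v : ℕ → SL(2, ℝ)}
    (nu1 : ∀ g : SL(2, ℝ), ‖uG g‖ = 1)
    (puniq : ∀ g g' : SL(2, ℝ), pG g = pG g' → uG g = uG g' → g' = g ∨ g' = -g)
    (hpt : ∀ w : SL(2, ℝ), ν {w} = 0)
    (htrv : ∀ v w : SL(2, ℝ), Set.Countable {t | t ∈ Icc (-S) S ∧ ∃ s ∈ Icc (-S) S,
      pG (Φ t w) = pG (Φ s v) ∧ uG (Φ t w) ≠ uG (Φ s v) ∧ uG (Φ t w) ≠ -uG (Φ s v)}) :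
    ν {g | (pG g, uG g) ∈ (⋃ i, (tvp Φ S (v i) ∪ tvm Φ S (v i))) ∧
      (pG g, w3 * uG g) ∈ (⋃ i, (tvp Φ S (v i) ∪ tvm Φ S (v i)))} = 0 := by
  have hna : NullSingletonClass ν := ⟨hpt⟩
  have key : ∀ x : ℂ × ℂ, x ∈ (⋃ i, (tvp Φ S (v i) ∪ tvm Φ S (v i))) →
      ∃ i, ∃ s ∈ Icc (-S) S, x.1 = pG (Φ s (v i)) ∧
        (x.2 = uG (Φ s (v i)) ∨ x.2 = -uG (Φ s (v i))) := by
    intro x hx
    obtain ⟨i, hi⟩ := mem_iUnion.1 hx
    rcases hi with ⟨s, hs, hx⟩ | ⟨s, hs, hx⟩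
    · exact ⟨i, s, hs, by rw [← hx], Or.inl (by rw [← hx])⟩
    · exact ⟨i, s, hs, by rw [← hx], Or.inr (by rw [← hx])⟩
  have hc : Set.Countable (⋃ i : ℕ, ⋃ j : ℕ,
      ⋃ t ∈ {t | t ∈ Icc (-S) S ∧ ∃ s ∈ Icc (-S) S,
        pG (Φ t (v i)) = pG (Φ s (v j)) ∧ uG (Φ t (v i)) ≠ uG (Φ s (v j)) ∧
          uG (Φ t (v i)) ≠ -uG (Φ s (v j))},
      ({g : SL(2, ℝ) | pG g = pG (Φ t (v i)) ∧ uG g = uG (Φ t (v i))} ∪
        {g : SL(2, ℝ) | pG g = pG (Φ t (v i)) ∧ uG g = -uG (Φ t (v i))})) := by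
    refine countable_iUnion fun i => countable_iUnion fun j => ?_
    refine (htrv (v j) (v i)).biUnion fun t _ => ?_
    exact (two_pts puniq _ _).union (two_pts puniq _ _)
  refine measure_mono_null ?_ (hc.measure_zero ν)
  rintro g ⟨h1, h2⟩
  obtain ⟨i, t, ht, hp, hu⟩ := key _ h1
  obtain ⟨j, s, hs, hp', hu'⟩ := key _ h2
  have hg0 : uG g ≠ 0 := by
    intro h
    have h3 := nu1 g
    rw [h, norm_zero] at h3
    norm_num at h3
  have e1 : ∀ c : ℂ, w3 * uG g = c * uG g → w3 = c := fun c hc' => mul_right_cancel₀ hg0 hc'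
  have hne : uG (Φ t (v i)) ≠ uG (Φ s (v j)) ∧ uG (Φ t (v i)) ≠ -uG (Φ s (v j)) := by
    simp only at hu hu'
    constructor
    · intro h
      rcases hu with hu | hu <;> rcases hu' with hu' | hu'
      · exact w3_ne_one (e1 1 (by rw [hu', one_mul, hu, h]))
      · exact w3_ne_neg_one (e1 (-1) (by rw [hu', neg_one_mul, hu, h]))
      · exact w3_ne_neg_one (e1 (-1) (by rw [hu', neg_one_mul, hu, h, neg_neg]))
      · exact w3_ne_one (e1 1 (by rw [hu', one_mul, hu, h]))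
    · intro h
      rcases hu with hu | hu <;> rcases hu' with hu' | hu'
      · exact w3_ne_neg_one (e1 (-1) (by rw [hu', neg_one_mul, hu, h, neg_neg]))
      · exact w3_ne_one (e1 1 (by rw [hu', one_mul, hu, h]))
      · exact w3_ne_one (e1 1 (by rw [hu', one_mul, hu, h, neg_neg]))
      · exact w3_ne_neg_one (e1 (-1) (by rw [hu', neg_one_mul, hu, h, neg_neg]))
  refine mem_iUnion.2 ⟨i, mem_iUnion.2 ⟨j, mem_iUnion₂.2 ⟨t, ?_, ?_⟩⟩⟩
  · exact ⟨ht, s, hs, hp.symm.trans hp', hne.1, hne.2⟩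
  · rcases hu with hu | hu
    · exact Or.inl ⟨hp, hu⟩
    · exact Or.inr ⟨hp, hu⟩

end GEO

open _root_.U3.GEO in
theorem stmtGeo (hNcr : StmtNcr) (hNuc : StmtNuc) (hCon : StmtCon) (hTrv : StmtTrv)
    (hRot : StmtRot) : StmtGeo := by
  intro _ _ Γ ρ Φ ν _ _ hFac hlap hΦ hinv F hFc hFU
  obtain ⟨T, C, hT, hC, hN⟩ := hNcr Γ ρ Φ ν hFac hΦ hinv F hFc hFU
  obtain ⟨v, S, hS, hnull⟩ := hNuc Γ ρ Φ ν hFac hlap hΦ F hFc hFU T hT
  obtain ⟨hcon, hpt⟩ := hCon Γ ρ Φ ν hFac hΦ hinv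
  have hTrv' := hTrv Γ ρ Φ hFac hΦ
  obtain ⟨cp, cu, nu1, pUH, pneg, prot, puniq, pcpt⟩ := hRot
  have hK0c : IsCompact (K0 Φ T F) := K0_cpt hΦ T (pcpt F hFc hFU)
  have hK0m : MeasurableSet (K0 Φ T F) := hK0c.isClosed.measurableSet
  have hK0f : ν (K0 Φ T F) < ⊤ := hK0c.measure_lt_top
  have hSgm : ∀ i, MeasurableSet (Sg Φ S (v i)) := fun i => (Sg_cpt hΦ S (v i)).isClosed.measurableSet
  refine ⟨fun N => ⋃ i ∈ Finset.range N, arc Φ (S + T) (v i),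
    ⋃ i, (tvp Φ (S + T) (v i) ∪ tvm Φ (S + T) (v i)), ?_, ?_, ?_, ?_, ?_, ?_⟩
  · intro N
    refine (Finset.range N).finite_toSet.isClosed_biUnion fun i _ => ?_
    exact (isCompact_Icc.image (cp.comp (cont_fl hΦ (v i)))).isClosed
  · refine MeasurableSet.iUnion fun i => ?_
    have c1 : Continuous fun s => (pG (Φ s (v i)), uG (Φ s (v i))) :=
      (cp.comp (cont_fl hΦ (v i))).prodMk (cu.comp (cont_fl hΦ (v i)))
    have c2 : Continuous fun s => (pG (Φ s (v i)), -uG (Φ s (v i))) :=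
      (cp.comp (cont_fl hΦ (v i))).prodMk (cu.comp (cont_fl hΦ (v i))).neg
    exact ((isCompact_Icc.image c1).isClosed.union
      (isCompact_Icc.image c2).isClosed).measurableSet
  · intro N
    refine measure_mono_null ?_ (measure_iUnion_null fun i => hcon (v i) (S + T))
    rintro g ⟨h1, h2⟩
    obtain ⟨i, -, s, hs, hp⟩ := mem_iUnion₂.1 h1
    refine mem_iUnion.2 ⟨i, ⟨s, hs, hp.symm⟩, ?_⟩
    rintro ⟨t, ht, hp', hu | hu⟩
    · exact h2 (mem_iUnion.2 ⟨i, Or.inl ⟨t, ht, by rw [hp', hu]⟩⟩)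
    · exact h2 (mem_iUnion.2 ⟨i, Or.inr ⟨t, ht, by rw [hp', hu]⟩⟩)
  · exact rot_null nu1 puniq hpt fun v w => hTrv' v w (S + T)
  · have hb : (ν.prod ν) (Cc Φ T 0 F) < ENNReal.ofReal
        ((ν (K0 Φ T F) * ν (K0 Φ T F)).toReal + 1) := by
      have hfin : ν (K0 Φ T F) * ν (K0 Φ T F) ≠ ⊤ := ENNReal.mul_ne_top hK0f.ne hK0f.ne
      calc (ν.prod ν) (Cc Φ T 0 F) ≤ (ν.prod ν) (K0 Φ T F ×ˢ K0 Φ T F) :=
            measure_mono (Cc_sub Φ T 0 F)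
        _ = ENNReal.ofReal ((ν (K0 Φ T F) * ν (K0 Φ T F)).toReal) := by
            rw [Measure.prod_prod, ENNReal.ofReal_toReal hfin]
        _ < _ := by
            rw [ENNReal.ofReal_lt_ofReal_iff (by positivity)]
            linarith
    obtain ⟨η, hη, hev⟩ := hN F hFc Subset.rfl _ hb
    exact ⟨C * ((ν (K0 Φ T F) * ν (K0 Φ T F)).toReal + 1), η, hη, hev⟩
  · intro δ hδ
    have hbp : 0 < δ / C := div_pos hδ hC
    set b : ℝ := δ / C with hbdef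
    set m : ℝ := (ν (K0 Φ T F)).toReal with hm
    have hm0 : 0 ≤ m := ENNReal.toReal_nonneg
    have hmK : ν (K0 Φ T F) = ENNReal.ofReal m := (ENNReal.ofReal_toReal hK0f.ne).symm
    set q : ℝ := b / (2 * m + 1) with hq
    have hqp : 0 < q := by positivity
    let R : ℕ → Set SL(2, ℝ) := fun N =>
      (K0 Φ T F ∩ ⋃ i, Sg Φ S (v i)) \ ⋃ j ∈ Finset.range N, Sg Φ S (v j)
    have hRm : ∀ N, MeasurableSet (R N) := fun N =>
      (hK0m.inter (MeasurableSet.iUnion hSgm)).diff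
        ((Finset.range N).measurableSet_biUnion fun j _ => hSgm j)
    have hRa : Antitone R := by
      intro N M hNM w hw
      refine ⟨hw.1, fun h => hw.2 ?_⟩
      obtain ⟨j, hj, hwj⟩ := mem_iUnion₂.1 h
      exact mem_iUnion₂.2 ⟨j, Finset.mem_range.2 ((Finset.mem_range.1 hj).trans_le hNM), hwj⟩
    have hRe : (⋂ N, R N) = ∅ := by
      refine eq_empty_iff_forall_notMem.2 fun w hw => ?_
      obtain ⟨i, hi⟩ := mem_iUnion.1 ((mem_iInter.1 hw 0).1.2)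
      exact (mem_iInter.1 hw (i + 1)).2
        (mem_iUnion₂.2 ⟨i, Finset.mem_range.2 (Nat.lt_succ_self i), hi⟩)
    have hRf : ∃ i, ν (R i) ≠ ⊤ :=
      ⟨0, ((measure_mono (fun w hw => hw.1.1)).trans_lt hK0f).ne⟩
    have hRt := tendsto_measure_iInter_atTop (μ := ν) (fun N => (hRm N).nullMeasurableSet) hRa hRf
    rw [hRe, measure_empty] at hRt
    have hpos : (0 : ℝ≥0∞) < ENNReal.ofReal q := ENNReal.ofReal_pos.2 hqp
    obtain ⟨N, hNq⟩ := (hRt.eventually (gt_mem_nhds hpos)).exists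
    refine ⟨N, fun F' hF' hF'F hdis => ?_⟩
    have hsub : Cc Φ T 0 F' ⊆ (Cc Φ T 0 F ∩
        {x | (∀ i, x.1 ∉ Sg Φ S (v i)) ∧ ∀ i, x.2 ∉ Sg Φ S (v i)}) ∪
        (R N ×ˢ K0 Φ T F ∪ K0 Φ T F ×ˢ R N) := by
      intro x hx
      have hxF := Cc_mono Φ T 0 hF'F hx
      obtain ⟨hx1, hx2⟩ := Cc_sub Φ T 0 F hxF
      obtain ⟨s, hs, t, ht, h1, h2, -⟩ := hx
      have hno1 : ∀ j ∈ Finset.range N, x.1 ∉ Sg Φ S (v j) := by
        intro j hj hxj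
        exact disjoint_left.1 hdis h1
          (mem_iUnion₂.2 ⟨j, hj, arc_of_Sg hΦ (fun g => (pneg g).1) hs hxj⟩)
      have hno2 : ∀ j ∈ Finset.range N, x.2 ∉ Sg Φ S (v j) := by
        intro j hj hxj
        exact disjoint_left.1 hdis (h2 ▸ h1)
          (mem_iUnion₂.2 ⟨j, hj, arc_of_Sg hΦ (fun g => (pneg g).1) ht hxj⟩)
      by_cases ha : ∀ i, x.1 ∉ Sg Φ S (v i)
      · by_cases hb : ∀ i, x.2 ∉ Sg Φ S (v i)
        · exact Or.inl ⟨hxF, ha, hb⟩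
        · push Not at hb
          obtain ⟨i, hi⟩ := hb
          refine Or.inr (Or.inr ⟨hx1, ⟨hx2, mem_iUnion.2 ⟨i, hi⟩⟩, fun h => ?_⟩)
          obtain ⟨j, hj, hwj⟩ := mem_iUnion₂.1 h
          exact hno2 j hj hwj
      · push Not at ha
        obtain ⟨i, hi⟩ := ha
        refine Or.inr (Or.inl ⟨⟨⟨hx1, mem_iUnion.2 ⟨i, hi⟩⟩, fun h => ?_⟩, hx2⟩)
        obtain ⟨j, hj, hwj⟩ := mem_iUnion₂.1 h
        exact hno1 j hj hwj
    have hlt : (ν.prod ν) (Cc Φ T 0 F') < ENNReal.ofReal b := by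
      have hNq' : ν (R N) ≤ ENNReal.ofReal q := le_of_lt hNq
      calc (ν.prod ν) (Cc Φ T 0 F') ≤ _ := measure_mono hsub
        _ ≤ _ := measure_union_le _ _
        _ ≤ 0 + (ν (R N) * ν (K0 Φ T F) + ν (K0 Φ T F) * ν (R N)) := by
            refine add_le_add hnull.le ((measure_union_le _ _).trans ?_)
            rw [Measure.prod_prod, Measure.prod_prod]
        _ ≤ 0 + (ENNReal.ofReal q * ENNReal.ofReal m + ENNReal.ofReal m * ENNReal.ofReal q) := by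
            rw [hmK]
            gcongr
        _ = ENNReal.ofReal (q * m + m * q) := by
            rw [zero_add, ← ENNReal.ofReal_mul hqp.le, ← ENNReal.ofReal_mul hm0,
              ← ENNReal.ofReal_add (by positivity) (by positivity)]
        _ < ENNReal.ofReal b := by
            rw [ENNReal.ofReal_lt_ofReal_iff hbp]
            have h1 : q * (2 * m + 1) = b := by
              rw [hq]
              field_simp
            nlinarith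
    obtain ⟨η, hη, hev⟩ := hN F' hF' hF'F b hlt
    refine ⟨η, hη, ?_⟩
    have hCb : C * b = δ := by
      rw [hbdef]
      field_simp
    rw [hCb] at hev
    exact hev

end U3


end

section

/-!
The geometric input for the local measure.
-/

open MeasureTheory Filter Topology Set
open UpperHalfPlane hiding I
open scoped ContDiff MatrixGroups

namespace U3

open QE QE.NC QJ

noncomputable section

namespace GEV

lemma muV_le [MeasurableSpace SL(2, ℝ)] [BorelSpace SL(2, ℝ)] (hpG : Continuous pG)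
    (ν : Measure SL(2, ℝ)) {F : Set ℂ} (hF : IsCompact F) {f : ℂ → ℝ} {M : ℝ}
    (hM : ∀ z ∈ F, f z ≤ M) : muV ν F f ≤ ENNReal.ofReal M • ν := by
  unfold muV
  have hmeas : MeasurableSet (pG ⁻¹' F) := hF.isClosed.measurableSet.preimage hpG.measurable
  calc (ν.restrict (pG ⁻¹' F)).withDensity (fun g => ENNReal.ofReal (f (pG g)))
      ≤ (ν.restrict (pG ⁻¹' F)).withDensity (fun _ => ENNReal.ofReal M) := by
        refine withDensity_mono ?_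
        refine (ae_restrict_iff' hmeas).2 (Filter.Eventually.of_forall fun g hg => ?_)
        exact ENNReal.ofReal_le_ofReal (hM _ hg)
    _ = ENNReal.ofReal M • (ν.restrict (pG ⁻¹' F)) := withDensity_const _
    _ ≤ ENNReal.ofReal M • ν := by
        refine Measure.le_iff.2 fun s _ => ?_
        rw [Measure.smul_apply, Measure.smul_apply]
        exact mul_le_mul_right (Measure.restrict_le_self s) _

lemma prod_le [MeasurableSpace SL(2, ℝ)] (μ ν : Measure SL(2, ℝ)) [SFinite ν] {c : ENNReal}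
    (h : μ ≤ c • ν) (S : Set (SL(2, ℝ) × SL(2, ℝ))) :
    (μ.prod μ) S ≤ c * (c * (ν.prod ν) S) := by
  have h1 : μ.prod μ ≤ (c • ν).prod (c • ν) := Measure.prod_mono h h
  have h2 : (c • ν).prod (c • ν) = c • (c • (ν.prod ν)) := by
    rw [Measure.prod_smul_left, Measure.prod_smul_right]
  calc (μ.prod μ) S ≤ ((c • ν).prod (c • ν)) S := h1 S
    _ = c * (c * (ν.prod ν) S) := by
      rw [h2, Measure.smul_apply, Measure.smul_apply, smul_eq_mul, smul_eq_mul]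

lemma bound {x : ENNReal} {M b e : ℝ} (hM : 0 ≤ M) (hb : 0 ≤ b) (he : 0 ≤ e)
    (h : x ≤ ENNReal.ofReal M * (ENNReal.ofReal M * ENNReal.ofReal (b * e))) :
    x.toReal ≤ M * (M * b) * e := by
  have h1 : ENNReal.ofReal M * (ENNReal.ofReal M * ENNReal.ofReal (b * e))
      = ENNReal.ofReal (M * (M * b) * e) := by
    rw [← ENNReal.ofReal_mul hM, ← ENNReal.ofReal_mul hM]
    congr 1; ring
  rw [h1] at h
  exact ENNReal.toReal_le_of_le_ofReal (by positivity) h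

end GEV

open _root_.U3.GEV in
theorem stmtGev (hGeo : StmtGeo) (hRot : StmtRot) : StmtGev := by
  intro _ _ Γ ρ Φ ν _ _ hFac hlap hfl hinv F V f hF hFU hVF hf hf0
  obtain ⟨G, B, h1, h2, h3, h4, ⟨b, η, hη, h5⟩, h6⟩ := hGeo Γ ρ Φ ν hFac hlap hfl hinv F hF hFU
  have hpG : Continuous pG := hRot.1
  obtain ⟨M₀, hM₀⟩ := hF.exists_bound_of_continuousOn hf.continuousOn
  set M : ℝ := max M₀ 0 with hMdef
  have hM0 : 0 ≤ M := le_max_right _ _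
  have hM : ∀ z ∈ F, f z ≤ M := fun z hz =>
    (le_abs_self _).trans ((hM₀ z hz).trans (le_max_left _ _))
  have hle : muV ν F f ≤ ENNReal.ofReal M • ν := muV_le hpG ν hF hM
  have hnull : ∀ S : Set SL(2, ℝ), ν S = 0 → muV ν F f S = 0 := by
    intro S hS
    refine le_antisymm ((hle S).trans ?_) zero_le
    rw [Measure.smul_apply, hS, smul_zero]
  refine ⟨G, B, ⟨h1, h2, fun N => hnull _ (h3 N), hnull _ h4, ?_, ?_⟩⟩
  · intro K hK hKV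
    refine ⟨M * (M * |b|), η, hη, ?_⟩
    filter_upwards [h5] with ε hε
    refine bound hM0 (abs_nonneg b) (sq_nonneg ε) ?_
    refine (prod_le _ ν hle _).trans ?_
    gcongr
    calc (ν.prod ν) {x | pG x.1 ∈ K ∧ ‖pG x.1 - pG x.2‖ ≤ ε ∧ ‖w3 * uG x.1 - uG x.2‖ ≤ η}
        ≤ (ν.prod ν) (Nn ε η F) := measure_mono fun x hx => ⟨hVF (hKV hx.1), hx.2⟩
      _ ≤ ENNReal.ofReal (b * ε ^ 2) := hε
      _ ≤ ENNReal.ofReal (|b| * ε ^ 2) := by
          refine ENNReal.ofReal_le_ofReal ?_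
          gcongr
          exact le_abs_self b
  · intro K hK hKV δ hδ
    have hδ' : 0 < δ / (M * M + 1) := by positivity
    obtain ⟨N, hN⟩ := h6 _ hδ'
    refine ⟨N, fun K' hK' hK'K hdis => ?_⟩
    obtain ⟨η', hη', h7⟩ := hN K' hK' (hK'K.trans (hKV.trans hVF)) hdis
    refine ⟨η', hη', ?_⟩
    filter_upwards [h7] with ε hε
    have h8 : ((muV ν F f).prod (muV ν F f)) {x | pG x.1 ∈ K' ∧ ‖pG x.1 - pG x.2‖ ≤ ε ∧
        ‖w3 * uG x.1 - uG x.2‖ ≤ η'} ≤ ENNReal.ofReal M * (ENNReal.ofReal M *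
          ENNReal.ofReal (δ / (M * M + 1) * ε ^ 2)) := by
      refine (prod_le _ ν hle _).trans ?_
      gcongr
      exact hε
    refine (bound hM0 hδ'.le (sq_nonneg ε) h8).trans ?_
    have h9 : M * (M * (δ / (M * M + 1))) ≤ δ := by
      rw [show M * (M * (δ / (M * M + 1))) = δ * (M * M) / (M * M + 1) by ring]
      rw [div_le_iff₀ (by positivity)]
      nlinarith [mul_nonneg hM0 hM0]
    gcongr

end

end U3


end

section

/-!
LCZ: localisation.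
-/

open Complex MeasureTheory Filter Topology Set
open scoped ContDiff

namespace U3

open QE QJ

namespace LCZ

/-- localisation near a compact set -/
theorem exists_loc {U : Set ℂ} {g : ℂ → ℝ} {h : ℕ → ℝ} {φ : ℕ → ℂ → ℂ} (hU : IsOpen U)
    (hg : ContDiffOn ℝ ∞ g U) (hgp : ∀ z ∈ U, 0 < g z) (H : LocU U g h φ) {K : Set ℂ}
    (hK : IsCompact K) (hKU : K ⊆ U) :
    ∃ (V F : Set ℂ) (σ : ℂ → ℝ) (φ' : ℕ → ℂ → ℂ), K ⊆ V ∧ V ⊆ F ∧ F ⊆ U ∧ IsCompact F ∧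
      Agree V U g h φ σ φ' := by
  obtain ⟨χ₀, hχ₀, hχ1, -⟩ := exists_cutoff hU hK hKU
  -- the real part of the cutoff
  obtain ⟨χ, hχ⟩ : ∃ χ : ℂ → ℝ, ∀ z, χ z = (χ₀ z).re := ⟨_, fun _ => rfl⟩
  have hχT : Test U (fun z => (χ z : ℂ)) := by
    have hs : ContDiff ℝ ∞ χ := by
      have : χ = fun z => reCLM (χ₀ z) := by
        funext z
        rw [hχ]
        rfl
      rw [this]
      exact reCLM.contDiff.comp hχ₀.smooth
    have hsub : Function.support (fun z => (χ z : ℂ)) ⊆ Function.support χ₀ := by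
      intro z hz h0
      apply hz
      simp [hχ, h0]
    refine ⟨ofRealCLM.contDiff.comp hs, ?_, (closure_mono hsub).trans hχ₀.sub⟩
    exact hχ₀.supp.of_isClosed_subset (isClosed_tsupport _) (closure_mono hsub)
  obtain ⟨V, hVdef⟩ : ∃ V, V = interior {z | χ₀ z = 1} := ⟨_, rfl⟩
  have hVo : IsOpen V := by
    rw [hVdef]
    exact isOpen_interior
  have hV0 : ∀ z ∈ V, χ₀ z = 1 := by
    intro z hz
    rw [hVdef] at hz
    have h1 : z ∈ {z | χ₀ z = 1} := interior_subset hz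
    exact h1
  have hV1 : ∀ z ∈ V, χ z = 1 := by
    intro z hz
    rw [hχ, hV0 z hz, one_re]
  have hKV : K ⊆ V := by
    intro z hz
    rw [hVdef, mem_interior_iff_mem_nhds]
    exact hχ1 z hz
  have hVF : V ⊆ tsupport χ₀ := by
    intro z hz
    apply subset_tsupport
    simp [hV0 z hz]
  have hVU : V ⊆ U := hVF.trans hχ₀.sub
  have hχ0 : ∀ z, z ∉ U → χ z = 0 := by
    intro z hz
    have h1 : (χ z : ℂ) = 0 :=
      image_eq_zero_of_notMem_tsupport (f := fun z => (χ z : ℂ)) fun hh => hz (hχT.sub hh)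
    exact_mod_cast h1
  -- the functions
  obtain ⟨ψ, hψ⟩ : ∃ ψ : ℕ → ℂ → ℂ, ∀ n, ψ n = fun z => (χ z : ℂ) * φ n z := ⟨_, fun _ => rfl⟩
  have hψV : ∀ n, ∀ z ∈ V, ψ n z = φ n z := by
    intro n z hz
    rw [hψ]
    simp [hV1 z hz]
  obtain ⟨S, hS⟩ : ∃ S : ℂ → ℂ, S = fun z => (χ z : ℂ) * ((1 / 2 * Real.log (g z) : ℝ) : ℂ) :=
    ⟨_, rfl⟩
  have hST : Test U S := by
    rw [hS]
    apply hχT.mul hU
    apply ofRealCLM.contDiff.comp_contDiffOn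
    exact contDiffOn_const.mul (hg.log fun z hz => (hgp z hz).ne')
  obtain ⟨σ, hσ⟩ : ∃ σ : ℂ → ℝ, ∀ z, σ z = (S z).re := ⟨_, fun _ => rfl⟩
  have hσs : ContDiff ℝ ∞ σ := by
    have : σ = fun z => reCLM (S z) := by
      funext z
      rw [hσ]
      rfl
    rw [this]
    exact reCLM.contDiff.comp hST.smooth
  have hgV : ∀ z ∈ V, Real.exp (2 * σ z) = g z := by
    intro z hz
    have e1 : σ z = 1 / 2 * Real.log (g z) := by
      rw [hσ, hS]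
      simp only [hV1 z hz, ofReal_one, one_mul, ofReal_re]
    rw [e1]
    have e2 : 2 * (1 / 2 * Real.log (g z)) = Real.log (g z) := by ring
    rw [e2, Real.exp_log (hgp z (hVU hz))]
  refine ⟨V, tsupport χ₀, σ, ψ, hKV, hVF, hχ₀.sub, hχ₀.supp, hVo, hVU, hgV, hψV, ?_⟩
  refine ⟨hVo, H.hpos, H.hlim, hσs, ?_, ?_, ?_, ?_⟩
  · intro n
    rw [hψ]
    exact (hχT.mul hU (H.smooth n)).smooth
  · intro n z
    rw [hψ]
    simp only [map_mul, conj_ofReal]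
    by_cases hz : z ∈ U
    · rw [H.real n z hz]
    · rw [hχ0 z hz]
      simp
  · intro n z hz
    have e1 : dz (dzb (ψ n)) z = dz (dzb (φ n)) z :=
      dz_congr_on hVo (fun w hw => dzb_congr_on hVo (hψV n) hw) hz
    rw [e1, H.eig n z (hVU hz), hψV n z hz, ← hgV z hz]
    unfold ex
    norm_num
  · intro K' hK' hK'V
    obtain ⟨C, hC⟩ := H.bdd K' hK' (hK'V.trans hVU)
    refine ⟨C, ?_⟩
    filter_upwards [hC] with n hn
    refine le_of_eq_of_le ?_ hn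
    refine setIntegral_congr_fun hK'.measurableSet fun z hz => ?_
    show ‖ψ n z‖ ^ 2 = ‖φ n z‖ ^ 2
    rw [hψV n z (hK'V hz)]

end LCZ

/-- Module LCZ. -/
theorem stmtLcz : StmtLcz := by
  intro U g h φ hU hg hgp H K hK hKU
  exact LCZ.exists_loc hU hg hgp H hK hKU

end U3


end

section

/-!
WGA: a subsequence along which all the products of jets converge weakly.
-/

open MeasureTheory Filter Topology Set
open UpperHalfPlane hiding I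
open scoped ContDiff MatrixGroups

namespace U3

open QE QE.NC QJ

noncomputable section

namespace WGA

variable {V : Set ℂ} {σ : ℂ → ℝ} {h : ℕ → ℝ} {φ : ℕ → ℂ → ℂ}

lemma isOpenUH : IsOpen UH := isOpen_lt continuous_const Complex.continuous_im

lemma contDiffOn_gr {ρ : ℍ → ℝ} (hρ : ContDiffOn ℝ ∞ (ro ρ) UH) : ContDiffOn ℝ ∞ (gr ρ) UH := by
  have h1 : ContDiffOn ℝ ∞ (fun z : ℂ => Real.exp (2 * ro ρ z) / z.im ^ 2) UH := by
    refine (contDiffOn_const.mul hρ).exp.div ((Complex.imCLM.contDiff.contDiffOn).pow 2) ?_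
    intro z hz
    have hz' : 0 < z.im := hz
    exact (pow_pos hz' 2).ne'
  exact h1

lemma gr_pos {ρ : ℍ → ℝ} {z : ℂ} (hz : z ∈ UH) : 0 < gr ρ z := by
  have hz' : 0 < z.im := hz
  unfold gr
  positivity

lemma conj_E (L : LocB V σ h φ) (j : ℤ) (n : ℕ) (z : ℂ) :
    (starRingEnd ℂ) (E σ h φ j n z) = (-1) ^ j * E σ h φ (-j) n z := by
  obtain ⟨m, rfl | rfl⟩ := j.eq_nat_or_neg
  · rw [JETA.E_nat, JETA.E_neg L m, zpow_natCast, ← mul_assoc, ← mul_pow]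
    norm_num
  · rw [JETA.E_neg L m, neg_neg, JETA.E_nat, zpow_neg, zpow_natCast]
    simp only [map_mul, map_pow, map_neg, map_one, Complex.conj_conj]
    rw [← inv_pow]
    norm_num

lemma zero_off {ζ : ℂ → ℂ} (hζ : Test V ζ) {z : ℂ} (hz : z ∉ V) : ζ z = 0 :=
  image_eq_zero_of_notMem_tsupport fun hh => hz (hζ.sub hh)

lemma hlimC (L : LocB V σ h φ) : Tendsto (fun n => (h n : ℂ)) atTop (𝓝 0) := by
  have h1 := (Complex.continuous_ofReal.tendsto 0).comp L.hlim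
  rw [Complex.ofReal_zero] at h1
  exact h1

/-- the translation relation for the products of two jets -/
lemma rel (hGroA : StmtGroA) (hIntA : StmtIntA) (hIbpA : StmtIbpA) (hJetC : StmtJetC)
    (L : LocB V σ h φ) {ζ : ℂ → ℂ} (hζ : Test V ζ) (j m : ℤ) :
    Tendsto (fun n => (∫ z, ζ z * (E σ h φ (j + 1) n z * E σ h φ m n z))
      + ∫ z, ζ z * (E σ h φ j n z * E σ h φ (m + 1) n z)) atTop (𝓝 0) := by
  have hσ := L.sm
  have hG := hGroA V σ h φ L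
  obtain ⟨dj, ⟨A1, hA1, h1⟩, -⟩ := hJetC V σ h φ L j
  obtain ⟨dm, ⟨A2, hA2, h2⟩, -⟩ := hJetC V σ h φ L m
  obtain ⟨dj1, -, -⟩ := hJetC V σ h φ L (j + 1)
  obtain ⟨dm1, -, -⟩ := hJetC V σ h φ L (m + 1)
  have du : Dom V h φ 2 (fun n z => E σ h φ j n z * E σ h φ m n z) := dj.mul L.op dm
  have dB : Dom V h φ 2 (fun n z => A1 n z * E σ h φ m n z + E σ h φ j n z * A2 n z) :=
    (hA1.mul L.op dm).add L.op (dj.mul L.op hA2)
  have zu := (hIntA V h φ _ L.hpos L.hlim L.smφ hG du.smooth).2.2.1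
    (du.mono (by norm_num : 2 ≤ 3)).bq
  have zB := (hIntA V h φ _ L.hpos L.hlim L.smφ hG dB.smooth).2.2.1
    (dB.mono (by norm_num : 2 ≤ 3)).bq
  have i1 := (hIbpA V σ h _ (j + m) L.op L.sm L.hpos du.smooth zu ζ hζ).1
  have i2 := (hlimC L).mul (IBP.lim_test L.hpos dB.smooth zB hζ)
  have i3 := i1.sub i2
  rw [mul_zero, sub_zero] at i3
  refine i3.congr fun n => ?_
  have e : ∀ z, ζ z * ((h n : ℂ) * D σ (j + m) (fun z => E σ h φ j n z * E σ h φ m n z) z)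
      = (ζ z * (E σ h φ (j + 1) n z * E σ h φ m n z) + ζ z * (E σ h φ j n z * E σ h φ (m + 1) n z))
        + (h n : ℂ) ^ 2 * (ζ z * (A1 n z * E σ h φ m n z + E σ h φ j n z * A2 n z)) := by
    intro z
    by_cases hz : z ∈ V
    · rw [D_mul hσ j m (cd_at (dj.smooth n) z) (cd_at (dm.smooth n) z)]
      linear_combination ζ z * E σ h φ m n z * h1 n z hz + ζ z * E σ h φ j n z * h2 n z hz
    · rw [zero_off hζ hz]; ring
  have k1 : Integrable (fun z => ζ z * (E σ h φ (j + 1) n z * E σ h φ m n z)) :=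
    hζ.integrable_mul L.op ((dj1.smooth n).mul (dm.smooth n)).continuous.continuousOn
  have k2 : Integrable (fun z => ζ z * (E σ h φ j n z * E σ h φ (m + 1) n z)) :=
    hζ.integrable_mul L.op ((dj.smooth n).mul (dm1.smooth n)).continuous.continuousOn
  have k3 : Integrable (fun z => ζ z * (A1 n z * E σ h φ m n z + E σ h φ j n z * A2 n z)) :=
    hζ.integrable_mul L.op (dB.smooth n).continuous.continuousOn
  have k12 : Integrable (fun z => ζ z * (E σ h φ (j + 1) n z * E σ h φ m n z)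
      + ζ z * (E σ h φ j n z * E σ h φ (m + 1) n z)) := k1.add k2
  simp only [e]
  rw [integral_add k12 (k3.const_mul _), integral_add k1 k2, integral_const_mul]
  ring

/-- bounded integrals of the products of two jets -/
lemma bdd2 (hGroA : StmtGroA) (hIntA : StmtIntA) (hJetC : StmtJetC) (L : LocB V σ h φ) (j m : ℤ)
    {K : Set ℂ} (hK : IsCompact K) (hKV : K ⊆ V) :
    ∃ C : ℝ, ∀ᶠ n in atTop, ∫ z in K, ‖E σ h φ j n z * E σ h φ m n z‖ ≤ C := by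
  rcases K.eq_empty_or_nonempty with rfl | ⟨z₀, hz₀⟩
  · exact ⟨0, Filter.Eventually.of_forall fun n => by simp⟩
  have hG := hGroA V σ h φ L
  have du : Dom V h φ 2 (fun n z => E σ h φ j n z * E σ h φ m n z) :=
    (hJetC V σ h φ L j).1.mul L.op (hJetC V σ h φ L m).1
  obtain ⟨C, hC⟩ := (hIntA V h φ _ L.hpos L.hlim L.smφ hG du.smooth).1 du.bq K hK hKV
  obtain ⟨r, hr⟩ := hK.isBounded.subset_closedBall z₀
  refine ⟨C * max r 1, ?_⟩
  filter_upwards [hC] with n hn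
  have h1 := hn z₀ hz₀ (max r 1) (lt_of_lt_of_le one_pos (le_max_right _ _))
  have h2 : K ∩ Metric.closedBall z₀ (max r 1) = K :=
    inter_eq_left.2 (hr.trans (Metric.closedBall_subset_closedBall (le_max_left _ _)))
  rw [h2] at h1
  exact h1

end WGA

open _root_.U3.WGA in
theorem stmtWga (hGroA : StmtGroA) (hIntA : StmtIntA) (hIbpA : StmtIbpA) (hJetC : StmtJetC)
    (hLcz : StmtLcz) (hEcg : StmtEcg) (hSub : StmtSub) : StmtWga := by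
  intro Γ ρ h φ hF hL
  have hU : IsOpen UH := isOpenUH
  have hg := contDiffOn_gr hF.smooth
  have hgp : ∀ z ∈ UH, 0 < gr ρ z := fun z hz => gr_pos hz
  obtain ⟨σ₀, hσ₀⟩ : ∃ σ₀ : ℂ → ℝ, ∀ z, σ₀ z = 1 / 2 * Real.log (gr ρ z) := ⟨_, fun _ => rfl⟩
  obtain ⟨e, he⟩ : ∃ e : ℤ → ℕ → ℂ → ℂ, e = E σ₀ h φ := ⟨_, rfl⟩
  -- the jets of local data
  have hag : ∀ (V : Set ℂ) (σ : ℂ → ℝ) (φ' : ℕ → ℂ → ℂ), Agree V UH (gr ρ) h φ σ φ' →
      ∀ j n, ∀ z ∈ V, E σ h φ' j n z = e j n z := by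
    intro V σ φ' A
    rw [he]
    refine (hEcg V σ σ₀ h φ' φ A.op (fun z hz => ?_) A.eφ).1
    rw [hσ₀, ← A.eg z hz, Real.log_exp]
    ring
  have hloc : ∀ K, IsCompact K → K ⊆ UH → ∃ (V : Set ℂ) (σ : ℂ → ℝ) (φ' : ℕ → ℂ → ℂ), K ⊆ V ∧
      Agree V UH (gr ρ) h φ σ φ' := by
    intro K hK hKU
    obtain ⟨V, F, σ, φ', h1, -, -, -, h2⟩ := hLcz UH (gr ρ) h φ hU hg hgp hL K hK hKU
    exact ⟨V, σ, φ', h1, h2⟩
  have hcont : ∀ j n, ContinuousOn (e j n) UH := by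
    intro j n z hz
    obtain ⟨V, σ, φ', h1, A⟩ := hloc {z} isCompact_singleton (by simpa using hz)
    have hzV : z ∈ V := h1 rfl
    have h2 : ContinuousAt (E σ h φ' j n) z :=
      ((hJetC V σ h φ' A.loc j).1.smooth n).continuous.continuousAt
    refine (h2.congr ?_).continuousWithinAt
    filter_upwards [A.op.mem_nhds hzV] with w hw
    exact hag V σ φ' A j n w hw
  have hconj : ∀ j n, ∀ z ∈ UH, (starRingEnd ℂ) (e j n z) = (-1) ^ j * e (-j) n z := by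
    intro j n z hz
    obtain ⟨V, σ, φ', h1, A⟩ := hloc {z} isCompact_singleton (by simpa using hz)
    have hzV : z ∈ V := h1 rfl
    rw [← hag V σ φ' A j n z hzV, ← hag V σ φ' A (-j) n z hzV]
    exact conj_E A.loc j n z
  have hbdd : ∀ (j m : ℤ) K, IsCompact K → K ⊆ UH →
      ∃ C : ℝ, ∀ᶠ n in atTop, ∫ z in K, ‖e j n z * e m n z‖ ≤ C := by
    intro j m K hK hKU
    obtain ⟨V, σ, φ', h1, A⟩ := hloc K hK hKU
    obtain ⟨C, hC⟩ := bdd2 hGroA hIntA hJetC A.loc j m hK h1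
    refine ⟨C, ?_⟩
    filter_upwards [hC] with n hn
    refine le_trans (le_of_eq ?_) hn
    refine setIntegral_congr_fun hK.measurableSet fun z hz => ?_
    show ‖e j n z * e m n z‖ = ‖E σ h φ' j n z * E σ h φ' m n z‖
    rw [hag V σ φ' A j n z (h1 hz), hag V σ φ' A m n z (h1 hz)]
  have hrel : ∀ (j m : ℤ) (ζ : ℂ → ℂ), Test UH ζ → Tendsto (fun n =>
      (∫ z, ζ z * (e (j + 1) n z * e m n z)) + ∫ z, ζ z * (e j n z * e (m + 1) n z)) atTop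
      (𝓝 0) := by
    intro j m ζ hζ
    obtain ⟨V, σ, φ', h1, A⟩ := hloc (tsupport ζ) hζ.supp hζ.sub
    have hζV : Test V ζ := ⟨hζ.smooth, hζ.supp, h1⟩
    refine (rel hGroA hIntA hIbpA hJetC A.loc hζV j m).congr fun n => ?_
    have ee : ∀ a b : ℤ, ∫ z, ζ z * (E σ h φ' a n z * E σ h φ' b n z)
        = ∫ z, ζ z * (e a n z * e b n z) := by
      intro a b
      congr 1
      funext z
      by_cases hz : z ∈ V
      · rw [hag V σ φ' A a n z hz, hag V σ φ' A b n z hz]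
      · rw [zero_off hζV hz, zero_mul, zero_mul]
    rw [ee, ee]
  -- the subsequence
  obtain ⟨s, hs, hlim⟩ := hSub UH (fun i n z => e (Denumerable.ofNat ℤ i) n z * e 0 n z) hU
    (fun i n => (hcont _ n).mul (hcont 0 n)) (fun i K hK hKU => hbdd _ 0 K hK hKU)
  have hlim' : ∀ (k : ℤ) (ζ : ℂ → ℂ), Test UH ζ →
      ∃ L : ℂ, Tendsto (fun n => ∫ z, ζ z * (e k (s n) z * e 0 (s n) z)) atTop (𝓝 L) := by
    intro k ζ hζ
    have h1 := hlim (Encodable.encode k) ζ hζ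
    simpa only [Denumerable.ofNat_encode] using h1
  obtain ⟨P, hP⟩ : ∃ P : ℤ → (ℂ → ℂ) → ℂ, ∀ k ζ, Test UH ζ →
      Tendsto (fun n => ∫ z, ζ z * (e k (s n) z * e 0 (s n) z)) atTop (𝓝 (P k ζ)) := by
    classical
    refine ⟨fun k ζ => if hζ : Test UH ζ then (hlim' k ζ hζ).choose else 0, fun k ζ hζ => ?_⟩
    beta_reduce
    rw [dif_pos hζ]
    exact (hlim' k ζ hζ).choose_spec
  refine ⟨s, P, fun j n z => e j (s n) z, hs, ?_, fun j n => hcont j (s n),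
    fun j n z hz => hconj j (s n) z hz, ?_⟩
  · intro V σ φ' A j n z hz
    exact hag V σ φ' A j (s n) z hz
  · -- all the products
    have hrel' : ∀ (j m : ℤ) (ζ : ℂ → ℂ), Test UH ζ → Tendsto (fun n =>
        (∫ z, ζ z * (e (j + 1) (s n) z * e m (s n) z))
          + ∫ z, ζ z * (e j (s n) z * e (m + 1) (s n) z)) atTop (𝓝 0) := fun j m ζ hζ =>
      (hrel j m ζ hζ).comp hs.tendsto_atTop
    have key : ∀ (m j : ℤ) (ζ : ℂ → ℂ), Test UH ζ →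
        Tendsto (fun n => ∫ z, ζ z * (e j (s n) z * e m (s n) z)) atTop
          (𝓝 ((-1) ^ m * P (j + m) ζ)) := by
      intro m
      induction m using Int.induction_on with
      | zero =>
        intro j ζ hζ
        rw [zpow_zero, one_mul, add_zero]
        exact hP j ζ hζ
      | succ m ih =>
        intro j ζ hζ
        have h1 := (hrel' j m ζ hζ).sub (ih (j + 1) ζ hζ)
        have e1 : (0 : ℂ) - (-1) ^ (m : ℤ) * P (j + 1 + m) ζ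
            = (-1) ^ ((m : ℤ) + 1) * P (j + ((m : ℤ) + 1)) ζ := by
          rw [zpow_add_one₀ (by norm_num), show j + 1 + (m : ℤ) = j + ((m : ℤ) + 1) by ring]
          ring
        rw [e1] at h1
        refine h1.congr fun n => ?_
        ring
      | pred m ih =>
        intro j ζ hζ
        have h1 := (hrel' (j - 1) (-m - 1) ζ hζ).sub (ih (j - 1) ζ hζ)
        rw [sub_add_cancel, sub_add_cancel] at h1
        have e1 : (0 : ℂ) - (-1) ^ (-(m : ℤ)) * P (j - 1 + -(m : ℤ)) ζ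
            = (-1) ^ (-(m : ℤ) - 1) * P (j + (-(m : ℤ) - 1)) ζ := by
          rw [zpow_sub_one₀ (by norm_num), show j - 1 + -(m : ℤ) = j + (-(m : ℤ) - 1) by ring]
          norm_num
        rw [e1] at h1
        refine h1.congr fun n => ?_
        ring
    exact fun j m ζ hζ => key m j ζ hζ

end

end U3


end

section

/-!
WGB: the transport identities of the limit measure.
-/

open MeasureTheory Filter Topology Set
open UpperHalfPlane hiding I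
open scoped ContDiff MatrixGroups

namespace U3

open QE QE.NC QJ

noncomputable section

namespace WGB

lemma uh_open : IsOpen UH := isOpen_lt continuous_const Complex.continuous_im

lemma ex_ne (σ : ℂ → ℝ) (k : ℤ) (z : ℂ) : ex σ k z ≠ 0 := by
  unfold ex
  exact_mod_cast (Real.exp_pos _).ne'

lemma ex_add (σ : ℂ → ℝ) (j k : ℤ) (z : ℂ) : ex σ j z * ex σ k z = ex σ (j + k) z := by
  unfold ex
  rw [← Complex.ofReal_mul, ← Real.exp_add]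
  push_cast
  ring_nf

lemma diff_sig {σ : ℂ → ℝ} (hσ : ContDiff ℝ ∞ σ) (z : ℂ) :
    DifferentiableAt ℝ (fun w => (σ w : ℂ)) z :=
  (Complex.ofRealCLM.contDiff.comp hσ).contDiffAt.differentiableAt (by simp)

lemma fderiv_ex {σ : ℂ → ℝ} (hσ : ContDiff ℝ ∞ σ) (k : ℤ) (z v : ℂ) :
    fderiv ℝ (ex σ k) z v = k * ex σ k z * fderiv ℝ (fun w => (σ w : ℂ)) z v := by
  have hd : DifferentiableAt ℝ σ z := hσ.contDiffAt.differentiableAt (by simp)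
  have h1 : HasFDerivAt (fun w => Real.exp (k * σ w))
      (Real.exp (k * σ z) • ((k : ℝ) • fderiv ℝ σ z)) z :=
    (hd.hasFDerivAt.const_mul (k : ℝ)).exp
  have h2 : HasFDerivAt (ex σ k)
      (Complex.ofRealCLM.comp (Real.exp (k * σ z) • ((k : ℝ) • fderiv ℝ σ z))) z :=
    Complex.ofRealCLM.hasFDerivAt.comp z h1
  have h3 : HasFDerivAt (fun w => (σ w : ℂ)) (Complex.ofRealCLM.comp (fderiv ℝ σ z)) z :=
    Complex.ofRealCLM.hasFDerivAt.comp z hd.hasFDerivAt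
  rw [h2.fderiv, h3.fderiv]
  simp only [ContinuousLinearMap.comp_apply, smul_apply, smul_eq_mul,
    Complex.ofRealCLM_apply, ex]
  push_cast
  ring

lemma diff_ex {σ : ℂ → ℝ} (hσ : ContDiff ℝ ∞ σ) (k : ℤ) (z : ℂ) :
    DifferentiableAt ℝ (ex σ k) z := by
  have hd : DifferentiableAt ℝ σ z := hσ.contDiffAt.differentiableAt (by simp)
  have h1 : HasFDerivAt (fun w => Real.exp (k * σ w))
      (Real.exp (k * σ z) • ((k : ℝ) • fderiv ℝ σ z)) z :=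
    (hd.hasFDerivAt.const_mul (k : ℝ)).exp
  exact (Complex.ofRealCLM.hasFDerivAt.comp z h1).differentiableAt

lemma dz_ex {σ : ℂ → ℝ} (hσ : ContDiff ℝ ∞ σ) (k : ℤ) (z : ℂ) :
    dz (ex σ k) z = k * ex σ k z * dz (fun w => (σ w : ℂ)) z := by
  unfold dz
  rw [fderiv_ex hσ, fderiv_ex hσ]
  ring

lemma dzb_ex {σ : ℂ → ℝ} (hσ : ContDiff ℝ ∞ σ) (k : ℤ) (z : ℂ) :
    dzb (ex σ k) z = k * ex σ k z * dzb (fun w => (σ w : ℂ)) z := by
  unfold dzb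
  rw [fderiv_ex hσ, fderiv_ex hσ]
  ring

lemma D_form {σ : ℂ → ℝ} (hσ : ContDiff ℝ ∞ σ) {ζ : ℂ → ℂ} (hζ : ContDiff ℝ ∞ ζ) (k : ℤ) (z : ℂ) :
    D σ (-k) ζ z = 2 * (ex σ (-1) z * dz ζ z - k * dz (ex σ (-1)) z * ζ z) := by
  have hd : DifferentiableAt ℝ ζ z := hζ.contDiffAt.differentiableAt (by simp)
  unfold D
  rw [neg_neg]
  have h1 : dz (fun w => ex σ k w * ζ w) z = dz (ex σ k) z * ζ z + ex σ k z * dz ζ z :=
    dz_mul (diff_ex hσ k z) hd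
  rw [h1, dz_ex hσ, dz_ex hσ]
  have h2 : ex σ (-k - 1) z * ex σ k z = ex σ (-1) z := by
    rw [ex_add]; congr 1; ring
  have h3 : 2 * ex σ (-k - 1) z * ((k : ℂ) * ex σ k z * dz (fun w => (σ w : ℂ)) z * ζ z
      + ex σ k z * dz ζ z)
      = 2 * (ex σ (-k - 1) z * ex σ k z) * (k * dz (fun w => (σ w : ℂ)) z * ζ z + dz ζ z) := by
    ring
  rw [h3, h2]
  push_cast
  ring

lemma Db_form {σ : ℂ → ℝ} (hσ : ContDiff ℝ ∞ σ) {ζ : ℂ → ℂ} (hζ : ContDiff ℝ ∞ ζ) (k : ℤ) (z : ℂ) :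
    Db σ (-k) ζ z = 2 * (ex σ (-1) z * dzb ζ z + k * dzb (ex σ (-1)) z * ζ z) := by
  have hd : DifferentiableAt ℝ ζ z := hζ.contDiffAt.differentiableAt (by simp)
  unfold Db
  rw [neg_neg]
  have h1 : dzb (fun w => ex σ (-k) w * ζ w) z
      = dzb (ex σ (-k)) z * ζ z + ex σ (-k) z * dzb ζ z :=
    dzb_mul (diff_ex hσ (-k) z) hd
  rw [h1, dzb_ex hσ, dzb_ex hσ]
  have h2 : ex σ (k - 1) z * ex σ (-k) z = ex σ (-1) z := by
    rw [ex_add]; congr 1; ring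
  have h3 : 2 * ex σ (k - 1) z * (((-k : ℤ) : ℂ) * ex σ (-k) z * dzb (fun w => (σ w : ℂ)) z * ζ z
      + ex σ (-k) z * dzb ζ z)
      = 2 * (ex σ (k - 1) z * ex σ (-k) z)
        * (((-k : ℤ) : ℂ) * dzb (fun w => (σ w : ℂ)) z * ζ z + dzb ζ z) := by
    ring
  rw [h3, h2]
  push_cast
  ring

/-- the conformal factor and the weight -/
lemma aR_eq {ρ : ℍ → ℝ} {σ : ℂ → ℝ} {z : ℂ} (hz : z ∈ UH) (h : Real.exp (2 * σ z) = gr ρ z) :
    aR ρ z = ex σ (-1) z := by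
  have hz' : 0 < z.im := hz
  unfold aR ex
  congr 1
  have h1 : (Real.exp (ro ρ z) / z.im) ^ 2 = Real.exp (σ z) ^ 2 := by
    rw [← Real.exp_nat_mul, div_pow, ← Real.exp_nat_mul]
    push_cast
    rw [h]
    rfl
  have h2 : Real.exp (ro ρ z) / z.im = Real.exp (σ z) :=
    (sq_eq_sq₀ (by positivity) (Real.exp_pos _).le).1 h1
  have h3 : z.im * Real.exp (-(ro ρ z)) = (Real.exp (ro ρ z) / z.im)⁻¹ := by
    rw [inv_div, Real.exp_neg]
    field_simp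
  rw [h3, h2, ← Real.exp_neg]
  congr 1
  push_cast
  ring

lemma contDiffOn_gr {Γ : Subgroup SL(2, ℝ)} {ρ : ℍ → ℝ} (hρ : Fac Γ ρ) :
    ContDiffOn ℝ ∞ (gr ρ) UH := by
  have h1 : ContDiffOn ℝ ∞ (fun z => 2 * ro ρ z) UH := contDiffOn_const.mul hρ.smooth
  have h2 : ContDiffOn ℝ ∞ (fun z => Real.exp (2 * ro ρ z)) UH := h1.exp
  have h3 : ContDiffOn ℝ ∞ (fun z : ℂ => z.im ^ 2) UH :=
    (Complex.imCLM.contDiff.pow 2).contDiffOn
  have h4 : ContDiffOn ℝ ∞ (fun z : ℂ => Real.exp (2 * ro ρ z) / z.im ^ 2) UH :=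
    h2.div h3 fun z hz => by
      have : (0 : ℝ) < z.im := hz
      positivity
  exact h4

lemma gr_pos (ρ : ℍ → ℝ) {z : ℂ} (hz : z ∈ UH) : 0 < gr ρ z := by
  have : (0 : ℝ) < z.im := hz
  unfold gr
  positivity

lemma gr_nonneg (ρ : ℍ → ℝ) (z : ℂ) : 0 ≤ gr ρ z := by
  unfold gr
  positivity

/-- a subsequence of local data -/
lemma locB_comp {V : Set ℂ} {σ : ℂ → ℝ} {h : ℕ → ℝ} {φ : ℕ → ℂ → ℂ} (H : LocB V σ h φ)
    {s : ℕ → ℕ} (hs : StrictMono s) : LocB V σ (fun k => h (s k)) (fun k => φ (s k)) where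
  op := H.op
  hpos := fun n => H.hpos _
  hlim := H.hlim.comp hs.tendsto_atTop
  sm := H.sm
  smφ := fun n => H.smφ _
  real := fun n => H.real _
  eig := fun n => H.eig _
  bdd := fun K hK hKV => by
    obtain ⟨C, hC⟩ := H.bdd K hK hKV
    exact ⟨C, hs.tendsto_atTop.eventually hC⟩

/-- the integrand -/
def J (ρ : ℍ → ℝ) (k : ℤ) (ζ : ℂ → ℂ) (g : SL(2, ℝ)) : ℂ :=
  (aR ρ (pG g) * dz ζ (pG g) - k * dz (aR ρ) (pG g) * ζ (pG g))
      * (starRingEnd ℂ) (dirG g) ^ (k - 1)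
    + (aR ρ (pG g) * dzb ζ (pG g) + k * dzb (aR ρ) (pG g) * ζ (pG g))
      * (starRingEnd ℂ) (dirG g) ^ (k + 1)

/-- the integrand of the transport identity -/
def T (σ : ℂ → ℝ) (k : ℤ) (ζ : ℂ → ℂ) (g : SL(2, ℝ)) : ℂ :=
  ex σ 2 (pG g) * (Db σ (-k) ζ (pG g) * uG g ^ (k + 1) - D σ (-k) ζ (pG g) * uG g ^ (k - 1))

lemma J_zero {ρ : ℍ → ℝ} {k : ℤ} {ζ : ℂ → ℂ} {g : SL(2, ℝ)} (hg : pG g ∉ tsupport ζ) :
    J ρ k ζ g = 0 := by
  have h0 : ζ =ᶠ[𝓝 (pG g)] fun _ => 0 := notMem_tsupport_iff_eventuallyEq.mp hg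
  have h1 : ζ (pG g) = 0 := h0.self_of_nhds
  have h2 : dz ζ (pG g) = 0 := by rw [dz_congr h0, dz_const]
  have h3 : dzb ζ (pG g) = 0 := by rw [dzb_congr h0, dzb_const]
  simp only [J, h1, h2, h3, mul_zero, sub_zero, add_zero, zero_mul]

lemma T_zero {σ : ℂ → ℝ} {k : ℤ} {ζ : ℂ → ℂ} {g : SL(2, ℝ)} (hg : pG g ∉ tsupport ζ) :
    T σ k ζ g = 0 := by
  have h0 : ζ =ᶠ[𝓝 (pG g)] fun _ => 0 := notMem_tsupport_iff_eventuallyEq.mp hg
  have h1 : (fun w => ex σ (-k) w * ζ w) =ᶠ[𝓝 (pG g)] fun _ => 0 := by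
    filter_upwards [h0] with w hw
    rw [hw, mul_zero]
  have h2 : (fun w => ex σ (-(-k)) w * ζ w) =ᶠ[𝓝 (pG g)] fun _ => 0 := by
    filter_upwards [h0] with w hw
    rw [hw, mul_zero]
  have hD : D σ (-k) ζ (pG g) = 0 := by
    unfold D
    rw [dz_congr h2, dz_const, mul_zero]
  have hDb : Db σ (-k) ζ (pG g) = 0 := by
    unfold Db
    rw [dzb_congr h1, dzb_const, mul_zero]
  simp only [T, hD, hDb, zero_mul, sub_zero, mul_zero]

lemma uG_pow (g : SL(2, ℝ)) (k : ℤ) :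
    uG g ^ k = Complex.I ^ k * (starRingEnd ℂ) (dirG g) ^ k := by
  unfold uG
  rw [mul_zpow]

/-- the two integrands agree over `V` -/
lemma T_eq {V : Set ℂ} {ρ : ℍ → ℝ} {σ : ℂ → ℝ} (hV : IsOpen V) (hVU : V ⊆ UH)
    (hσ : ContDiff ℝ ∞ σ) (hg : ∀ z ∈ V, Real.exp (2 * σ z) = gr ρ z) {ζ : ℂ → ℂ}
    (hζ : ContDiff ℝ ∞ ζ) (k : ℤ) {g : SL(2, ℝ)} (hp : pG g ∈ V) :
    T σ k ζ g = 2 * Complex.I ^ (k + 1) * ((gr ρ (pG g) : ℂ) * J ρ k ζ g) := by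
  have haR : ∀ z ∈ V, aR ρ z = ex σ (-1) z := fun z hz => aR_eq (hVU hz) (hg z hz)
  have h1 : dz (aR ρ) (pG g) = dz (ex σ (-1)) (pG g) := dz_congr_on hV haR hp
  have h2 : dzb (aR ρ) (pG g) = dzb (ex σ (-1)) (pG g) := dzb_congr_on hV haR hp
  have h3 : ex σ 2 (pG g) = (gr ρ (pG g) : ℂ) := by
    unfold ex
    rw [← hg _ hp]
    norm_num
  have hI : Complex.I ^ (k - 1) = -Complex.I ^ (k + 1) := by
    have h4 : Complex.I ^ (k + 1) = Complex.I ^ (k - 1) * Complex.I ^ (2 : ℤ) := by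
      rw [← zpow_add₀ Complex.I_ne_zero]
      congr 1
      ring
    have h5 : Complex.I ^ (2 : ℤ) = -1 := by
      have := Complex.I_sq
      exact_mod_cast this
    rw [h4, h5]
    ring
  unfold T J
  rw [D_form hσ hζ, Db_form hσ hζ, uG_pow, uG_pow, hI, h3, haR _ hp, h1, h2]
  ring

end WGB

open _root_.U3.WGB

theorem stmtWgb (hDir : StmtDir) (hLcz : StmtLcz) (hEcg : StmtEcg) (hRot : StmtRot) :
    StmtWgb := by
  intro _ _ Γ ρ h φ s P μ _ hρ hU hs hlim hmom k ζ hζ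
  obtain ⟨hpc, huc, hun, hpU, -, -, -, hpK⟩ := hRot
  have hK : IsCompact (tsupport ζ) := hζ.supp
  obtain ⟨V, F, σ, φ', hKV, hVF, hFU, hF, hA⟩ := hLcz UH (gr ρ) h φ uh_open (contDiffOn_gr hρ)
    (fun z hz => gr_pos ρ hz) hU (tsupport ζ) hK hζ.sub
  have hFm : MeasurableSet (pG ⁻¹' F) := (hF.isClosed.preimage hpc).measurableSet
  have hrest : ∀ f : SL(2, ℝ) → ℂ, (∀ g, pG g ∉ F → f g = 0) →
      ∫ g in pG ⁻¹' F, f g ∂μ = ∫ g, f g ∂μ := fun f hf =>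
    setIntegral_eq_integral_of_forall_compl_eq_zero fun g hg => hf g hg
  have hLim : LimM V σ (fun k => h (s k)) (fun k => φ' (s k)) (μ.restrict (pG ⁻¹' F)) pG uG := by
    refine ⟨?_, hpc.measurable, huc.measurable, hun, ⟨F, hF, ?_⟩, ?_⟩
    · rw [Measure.restrict_apply_univ]
      exact (hpK F hF hFU).measure_lt_top.ne
    · exact ae_restrict_mem hFm
    · intro j m ξ hξ
      have h1 := hlim V σ φ' hA j m ξ hξ
      have h2 : ∫ o in pG ⁻¹' F, ξ (pG o) * uG o ^ (j + m) ∂μ = P (j + m) ξ := by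
        rw [hrest]
        · exact hmom (j + m) ξ (hξ.mono hA.sub)
        · intro g hg
          have : pG g ∉ tsupport ξ := fun hh => hg (hVF (hξ.sub hh))
          rw [image_eq_zero_of_notMem_tsupport this, zero_mul]
      rw [h2]
      have h3 := (hEcg univ σ σ h φ' φ' isOpen_univ (fun _ _ => rfl) (fun _ _ _ => rfl)).2
      refine h1.congr fun n => ?_
      refine integral_congr_ae (Eventually.of_forall fun z => ?_)
      change ξ z * (E σ h φ' j (s n) z * E σ h φ' m (s n) z)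
        = ξ z * (E σ (fun k => h (s k)) (fun k => φ' (s k)) j n z
          * E σ (fun k => h (s k)) (fun k => φ' (s k)) m n z)
      rw [h3 s j n z, h3 s m n z]
  have hDM := hDir V σ (fun k => h (s k)) (fun k => φ' (s k)) SL(2, ℝ) (μ.restrict (pG ⁻¹' F))
    pG uG (locB_comp hA.loc hs) hLim
  have htr := hDM.transport k ζ ⟨hζ.smooth, hζ.supp, hKV⟩
  -- both integrands vanish outside of the support
  have hTJ : ∀ g, T σ k ζ g = 2 * Complex.I ^ (k + 1) * ((gr ρ (pG g) : ℂ) * J ρ k ζ g) := by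
    intro g
    by_cases hg : pG g ∈ tsupport ζ
    · exact T_eq hA.op hA.sub hA.loc.sm hA.eg hζ.smooth k (hKV hg)
    · rw [T_zero hg, J_zero hg]
      simp
  have hT : ∫ g, T σ k ζ g ∂μ = 0 := by
    rw [← hrest (T σ k ζ) fun g hg => T_zero fun hh => hg (hVF (hKV hh))]
    exact htr
  have hJ : ∫ g, (gr ρ (pG g) : ℂ) * J ρ k ζ g ∂μ = 0 := by
    have h1 : ∫ g, T σ k ζ g ∂μ
        = 2 * Complex.I ^ (k + 1) * ∫ g, (gr ρ (pG g) : ℂ) * J ρ k ζ g ∂μ := by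
      rw [← integral_const_mul]
      exact integral_congr_ae (Eventually.of_forall hTJ)
    rw [hT] at h1
    have h2 : (2 : ℂ) * Complex.I ^ (k + 1) ≠ 0 :=
      mul_ne_zero two_ne_zero (zpow_ne_zero _ Complex.I_ne_zero)
    exact (mul_eq_zero.mp h1.symm).resolve_left h2
  have hgc : Continuous fun g : SL(2, ℝ) => gr ρ (pG g) :=
    (contDiffOn_gr hρ).continuousOn.comp_continuous hpc hpU
  change ∫ g, J ρ k ζ g ∂(μ.withDensity fun g => ENNReal.ofReal (gr ρ (pG g))) = 0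
  have hwd := integral_withDensity_eq_integral_toReal_smul (μ := μ)
    (f := fun g => ENNReal.ofReal (gr ρ (pG g))) (hgc.measurable.ennreal_ofReal)
    (Eventually.of_forall fun g => ENNReal.ofReal_lt_top) (J ρ k ζ)
  rw [hwd, ← hJ]
  refine integral_congr_ae (Eventually.of_forall fun g => ?_)
  change (ENNReal.ofReal (gr ρ (pG g))).toReal • J ρ k ζ g = (gr ρ (pG g) : ℂ) * J ρ k ζ g
  rw [ENNReal.toReal_ofReal (gr_nonneg ρ _), Complex.real_smul]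

end

end U3


end

section

/-!
Third order statistics of all eigenfunctions on surfaces of negative curvature: statements of the
transfer to the local waves.
-/

open MeasureTheory Filter Topology Set UpperHalfPlane MatrixGroups
open scoped ContDiff

namespace U3

open QE QJ

noncomputable section

/-! ### Derivatives -/

/-- LWU: the local theorem for mixed derivatives on an open set -/
def StmtLwU : Prop :=
  ∀ (U : Set ℂ) (g : ℂ → ℝ) (h : ℕ → ℝ) (φ : ℕ → ℂ → ℂ), IsOpen U → ContDiffOn ℝ ∞ g U →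
    (∀ z ∈ U, 0 < g z) → LocU U g h φ → ∀ (ζ : ℂ → ℂ), Test U ζ →
    (∀ a b : ℕ, Tendsto (fun n => ∫ z, ζ z * Wg g h φ a b n z) atTop (𝓝 0)) ∧
    (∀ a b : Fin 2 → ℕ, ∑ i, ((a i : ℤ) - b i) = 0 → Tendsto (fun n => (∫ z, ζ z *
      ∏ i, Wg g h φ (a i) (b i) n z) - (∏ i, cW (a i) (b i))
        * QJ.P ((a 0 : ℤ) - b 0) ((a 1 : ℤ) - b 1) * ∫ z, ζ z * φ n z ^ 2) atTop (𝓝 0)) ∧
    (E3V U g h φ → ∀ a b : Fin 3 → ℕ, Tendsto (fun n => ∫ z, ζ z *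
      ∏ i, Wg g h φ (a i) (b i) n z) atTop (𝓝 0))

/-- LWEU: products of at most four mixed derivatives, multiplied by `h`, are small in `L¹_loc` -/
def StmtLweU : Prop :=
  ∀ (U : Set ℂ) (g : ℂ → ℝ) (h : ℕ → ℝ) (φ : ℕ → ℂ → ℂ), IsOpen U → ContDiffOn ℝ ∞ g U →
    (∀ z ∈ U, 0 < g z) → LocU U g h φ → ∀ K, IsCompact K → K ⊆ U →
    ∀ (r : ℕ) (a b : Fin r → ℕ), r ≤ 4 →
      Tendsto (fun n => h n * ∫ z in K, ‖∏ i, W h φ (a i) (b i) n z‖) atTop (𝓝 0)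

/-- MAINU: the mean over the angle of a product of at most four derivatives of the local wave -/
def StmtMainU : Prop :=
  ∀ (ρ : ℍ → ℝ) (φ : ℕ → ℍ → ℝ) (m : ℕ → ℝ),
    ContDiffOn ℝ ∞ (fun w : ℂ => ρ (ofComplex w)) {w | 0 < w.im} → (∀ n, 0 < m n) →
    (∀ n, ContDiffOn ℝ ∞ (fun w : ℂ => φ n (ofComplex w)) {w | 0 < w.im}) →
    LocU {z | 0 < z.im} (fun z => Real.exp (2 * ρ (ofComplex z)) / z.im ^ 2)
      (fun n => 1 / m n) (fun n z => (φ n (ofComplex z) : ℂ)) →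
    ∀ (r : ℕ) (k : Fin r → ℕ) (v : ∀ i, Fin (k i) → ℂ), r ≤ 4 →
      ∀ ψ : ℂ → ℝ, ContDiff ℝ ∞ ψ → HasCompactSupport ψ → tsupport ψ ⊆ {w | 0 < w.im} →
      Tendsto (fun n => ((∫ z, ψ z * angJet ρ (φ n) (m n) k v (ofComplex z) : ℝ) : ℂ)
        - ∑ a ∈ Fintype.piFinset fun i => Finset.range (k i + 1),
          if ∑ i, ((a i : ℤ) - (k i - a i : ℕ)) = 0 then
            (∏ i, sc (v i) (a i)) * ∫ z, (ψ z : ℂ) * ∏ i,
              Wg (fun z => Real.exp (2 * ρ (ofComplex z)) / z.im ^ 2) (fun n => 1 / m n)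
                (fun n z => (φ n (ofComplex z) : ℂ)) (a i) (k i - a i) n z
          else 0) atTop (𝓝 0)

/-- LOGU: the local theorem for the derivatives of the local waves, and for the directional
derivatives of the eigenfunctions -/
def StmtLogU : Prop :=
  ∀ (ρ : ℍ → ℝ) (φ : ℕ → ℍ → ℝ) (m : ℕ → ℝ),
    ContDiffOn ℝ ∞ (fun w : ℂ => ρ (ofComplex w)) {w | 0 < w.im} → (∀ n, 0 < m n) →
    (∀ n, ContDiffOn ℝ ∞ (fun w : ℂ => φ n (ofComplex w)) {w | 0 < w.im}) →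
    LocU {z | 0 < z.im} (fun z => Real.exp (2 * ρ (ofComplex z)) / z.im ^ 2)
      (fun n => 1 / m n) (fun n z => (φ n (ofComplex z) : ℂ)) →
    E3V {z | 0 < z.im} (fun z => Real.exp (2 * ρ (ofComplex z)) / z.im ^ 2)
      (fun n => 1 / m n) (fun n z => (φ n (ofComplex z) : ℂ)) →
    ∀ ψ : ℂ → ℝ, ContDiff ℝ ∞ ψ → HasCompactSupport ψ → tsupport ψ ⊆ {w | 0 < w.im} →
    (∀ (k : Fin 1 → ℕ) (v : ∀ i, Fin (k i) → ℂ),
      Tendsto (fun n => ∫ z, ψ z * angJet ρ (φ n) (m n) k v (ofComplex z)) atTop (𝓝 0)) ∧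
    (∀ (k : Fin 2 → ℕ) (v : ∀ i, Fin (k i) → ℂ),
      Tendsto (fun n => (∫ z, ψ z * angJet ρ (φ n) (m n) k v (ofComplex z))
        - covar (v 0) (v 1) * ∫ z, ψ z * φ n (ofComplex z) ^ 2) atTop (𝓝 0)) ∧
    (∀ (k : Fin 3 → ℕ) (v : ∀ i, Fin (k i) → ℂ),
      Tendsto (fun n => ∫ z, ψ z * angJet ρ (φ n) (m n) k v (ofComplex z)) atTop (𝓝 0)) ∧
    (∀ (k : Fin 3 → ℕ) (v : ∀ i, Fin (k i) → ℂ),
      Tendsto (fun n => ∫ z, ψ z * ∏ i, (1 / m n) ^ k i *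
        iteratedFDeriv ℝ (k i) (fun w : ℂ => φ n (ofComplex w)) z (v i)) atTop (𝓝 0))

/-! ### Distinct points -/

/-- DSPB: the jets at displaced points are dominated -/
def StmtDspB : Prop :=
  ∀ (V : Set ℂ) (σ : ℂ → ℝ) (h : ℕ → ℝ) (φ : ℕ → ℂ → ℂ), LocB V σ h φ → ∀ K, IsCompact K → K ⊆ V →
    ∀ (N : ℕ) (R : ℝ), ∃ S : ℕ → ℂ → ℝ, (∀ n z, 1 ≤ S n z) ∧ (∀ n, Continuous (S n)) ∧
      (∀ᶠ n in atTop, ∀ z ∈ K, ∀ y : ℂ, ‖y‖ ≤ R → z + h n * y ∈ V ∧ RR h φ N n (z + h n * y) ≤ S n z) ∧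
      Tendsto (fun n => h n * ∫ z in K, S n z ^ 2) atTop (𝓝 0)

/-- DERB: the derivatives of the displaced integrals with respect to the displacement -/
def StmtDerB : Prop :=
  ∀ (V : Set ℂ) (σ : ℂ → ℝ) (h : ℕ → ℝ) (φ : ℕ → ℂ → ℂ), LocB V σ h φ → ∀ (ζ : ℂ → ℂ), Test V ζ →
    ∀ (r : ℕ) (x : Fin r → ℂ) (j : Fin r → ℤ), r ≤ 4 →
      (∀ n, ContDiff ℝ 1 (Aj σ h φ ζ x j n)) ∧
      ∀ ε > 0, ∀ᶠ n in atTop, ∀ l : ℂ, ‖l‖ ≤ 1 →
        ‖2 * dz (Aj σ h φ ζ x j n) l - ∑ i, x i * Aj σ h φ ζ x (j + Pi.single i 1) n l‖ ≤ ε ∧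
        ‖2 * dzb (Aj σ h φ ζ x j n) l
          + ∑ i, (starRingEnd ℂ) (x i) * Aj σ h φ ζ x (j - Pi.single i 1) n l‖ ≤ ε

/-- RELB: the translation relations at displaced points -/
def StmtRelB : Prop :=
  ∀ (V : Set ℂ) (σ : ℂ → ℝ) (h : ℕ → ℝ) (φ : ℕ → ℂ → ℂ), LocB V σ h φ → ∀ (ζ : ℂ → ℂ), Test V ζ →
    ∀ (r : ℕ) (x : Fin r → ℂ) (j : Fin r → ℤ), r ≤ 4 → ∀ ε > 0, ∀ᶠ n in atTop, ∀ l : ℂ, ‖l‖ ≤ 1 →
      ‖∑ i, Aj σ h φ ζ x (j + Pi.single i 1) n l‖ ≤ ε ∧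
      ‖∑ i, Aj σ h φ ζ x (j - Pi.single i 1) n l‖ ≤ ε

/-- TPC: one, two and three points -/
def StmtTpc : Prop :=
  ∀ (V : Set ℂ) (σ : ℂ → ℝ) (h : ℕ → ℝ) (φ : ℕ → ℂ → ℂ), LocB V σ h φ → ∀ (ζ : ℂ → ℂ), Test V ζ →
    (∀ x : Fin 1 → ℂ, Tendsto (fun n => ∫ θ, Aj σ h φ ζ x 0 n (uu θ ^ 2) ∂angle) atTop (𝓝 0)) ∧
    (∀ x : Fin 2 → ℂ, Tendsto (fun n => (∫ θ, Aj σ h φ ζ x 0 n (uu θ ^ 2) ∂angle)
      - (Berry.waveK (x 0 - x 1) : ℂ) * ∫ z, ζ z * φ n z ^ 2) atTop (𝓝 0)) ∧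
    ((∀ a b c : ℤ, Tendsto (E3 σ h φ ζ a b c) atTop (𝓝 0)) →
      ∀ x : Fin 3 → ℂ, Tendsto (fun n => ∫ θ, Aj σ h φ ζ x 0 n (uu θ ^ 2) ∂angle) atTop (𝓝 0))

/-- TLU: the local theorem at distinct points -/
def StmtTlU : Prop :=
  ∀ (U : Set ℂ) (g : ℂ → ℝ) (h : ℕ → ℝ) (φ : ℕ → ℂ → ℂ), IsOpen U → ContDiffOn ℝ ∞ g U →
    (∀ z ∈ U, 0 < g z) → LocU U g h φ → ∀ (ζ : ℂ → ℂ), Test U ζ →
    (∀ x : Fin 1 → ℂ, Tendsto (fun n => ∫ θ, (∫ z, ζ z * PD g h φ x n θ z) ∂angle) atTop (𝓝 0)) ∧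
    (∀ x : Fin 2 → ℂ, Tendsto (fun n => (∫ θ, (∫ z, ζ z * PD g h φ x n θ z) ∂angle)
      - (Berry.waveK (x 0 - x 1) : ℂ) * ∫ z, ζ z * φ n z ^ 2) atTop (𝓝 0)) ∧
    (E3V U g h φ →
      ∀ x : Fin 3 → ℂ, Tendsto (fun n => ∫ θ, (∫ z, ζ z * PD g h φ x n θ z) ∂angle) atTop (𝓝 0))

/-- DSUU: the functions and their first derivatives at displaced points are dominated -/
def StmtDsuU : Prop :=
  ∀ (U : Set ℂ) (g : ℂ → ℝ) (h : ℕ → ℝ) (φ : ℕ → ℂ → ℂ), IsOpen U → ContDiffOn ℝ ∞ g U →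
    (∀ z ∈ U, 0 < g z) → LocU U g h φ → ∀ K, IsCompact K → K ⊆ U → ∀ R : ℝ,
    ∃ S : ℕ → ℂ → ℝ, (∀ n z, 1 ≤ S n z) ∧ (∀ n, Continuous (S n)) ∧
      (∀ᶠ n in atTop, ∀ z ∈ K, ∀ y : ℂ, ‖y‖ ≤ R → z + h n * y ∈ U ∧
        ‖φ n (z + h n * y)‖ ^ 2 ≤ S n z ∧ ‖(h n : ℂ) * dz (φ n) (z + h n * y)‖ ^ 2 ≤ S n z ∧
        ‖(h n : ℂ) * dzb (φ n) (z + h n * y)‖ ^ 2 ≤ S n z) ∧
      Tendsto (fun n => h n * ∫ z in K, S n z ^ 2) atTop (𝓝 0)

/-- PTSU: the local theorem for the local waves at distinct points -/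
def StmtPtsU : Prop :=
  ∀ (ρ : ℍ → ℝ) (φ : ℕ → ℍ → ℝ) (m : ℕ → ℝ),
    ContDiffOn ℝ ∞ (fun w : ℂ => ρ (ofComplex w)) {w | 0 < w.im} → (∀ n, 0 < m n) →
    (∀ n, ContDiffOn ℝ ∞ (fun w : ℂ => φ n (ofComplex w)) {w | 0 < w.im}) →
    LocU {z | 0 < z.im} (fun z => Real.exp (2 * ρ (ofComplex z)) / z.im ^ 2)
      (fun n => 1 / m n) (fun n z => (φ n (ofComplex z) : ℂ)) →
    E3V {z | 0 < z.im} (fun z => Real.exp (2 * ρ (ofComplex z)) / z.im ^ 2)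
      (fun n => 1 / m n) (fun n z => (φ n (ofComplex z) : ℂ)) →
    ∀ ψ : ℂ → ℝ, ContDiff ℝ ∞ ψ → HasCompactSupport ψ → tsupport ψ ⊆ {w | 0 < w.im} →
    (∀ x : Fin 1 → ℂ,
      Tendsto (fun n => ∫ z, ψ z * angProd ρ (φ n) (m n) x (ofComplex z)) atTop (𝓝 0)) ∧
    (∀ x : Fin 2 → ℂ,
      Tendsto (fun n => (∫ z, ψ z * angProd ρ (φ n) (m n) x (ofComplex z))
        - Berry.waveK (x 0 - x 1) * ∫ z, ψ z * φ n (ofComplex z) ^ 2) atTop (𝓝 0)) ∧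
    (∀ x : Fin 3 → ℂ,
      Tendsto (fun n => ∫ z, ψ z * angProd ρ (φ n) (m n) x (ofComplex z)) atTop (𝓝 0))

/-! ### Closed surfaces -/

/-- SRF: the hypotheses `LocU` for normalised eigenfunctions of closed surfaces -/
def StmtSrf : Prop :=
  ∀ (Γ : Subgroup SL(2, ℝ)) [Countable Γ] (D : Set ℍ) (ρ : ℍ → ℝ) (φ : ℕ → ℍ → ℝ) (m : ℕ → ℝ),
    MeasurableSet D → IsFundamentalDomain Γ D (volume : Measure ℍ) →
    (∃ K : Set ℍ, IsCompact K ∧ ∀ z, ∃ γ ∈ Γ, γ • z ∈ K) →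
    ContDiffOn ℝ ∞ (fun w : ℂ => ρ (ofComplex w)) {w | 0 < w.im} →
    (∀ γ ∈ Γ, ∀ z, ρ (γ • z) = ρ z) → Berry.REigenSeq Γ ρ φ m →
    (∀ n, ContDiffOn ℝ ∞ (fun w : ℂ => φ n (ofComplex w)) {w | 0 < w.im}) →
    (∀ n, Berry.rAvg ρ D (fun z => φ n z ^ 2) = 1) →
    ∃ N : ℕ, (∀ n, 0 < m (n + N)) ∧
      LocU {z | 0 < z.im} (fun z => Real.exp (2 * ρ (ofComplex z)) / z.im ^ 2)
        (fun n => 1 / m (n + N)) (fun n z => (φ (n + N) (ofComplex z) : ℂ))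

/-- FNU: the final theorem -/
def StmtFnU : Prop :=
  ∀ (Γ : Subgroup SL(2, ℝ)) [Countable Γ] (D : Set ℍ) (ρ : ℍ → ℝ) (φ : ℕ → ℍ → ℝ) (m : ℕ → ℝ),
    MeasurableSet D → IsFundamentalDomain Γ D (volume : Measure ℍ) →
    (∃ K : Set ℍ, IsCompact K ∧ ∀ z, ∃ γ ∈ Γ, γ • z ∈ K) →
    ContDiffOn ℝ ∞ (fun w : ℂ => ρ (ofComplex w)) {w | 0 < w.im} →
    (∀ γ ∈ Γ, ∀ z, ρ (γ • z) = ρ z) →
    (∀ z : ℍ, 0 < 1 + z.im ^ 2 * Laplacian.laplacian (fun w : ℂ => ρ (ofComplex w)) z) →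
    Berry.REigenSeq Γ ρ φ m →
    (∀ n, ContDiffOn ℝ ∞ (fun w : ℂ => φ n (ofComplex w)) {w | 0 < w.im}) →
    (∀ n, Berry.rAvg ρ D (fun z => φ n z ^ 2) = 1) →
    ∀ w : ℍ → ℝ, ContDiffOn ℝ ∞ (fun z : ℂ => w (ofComplex z)) {z | 0 < z.im} →
    (∀ γ ∈ Γ, ∀ z, w (γ • z) = w z) →
    (∀ x : ℂ, Tendsto (fun n => ∫ p, w p.1 * Berry.rWave ρ (φ n) (m n) x p
      ∂(Berry.rFrameProb ρ D)) atTop (𝓝 0)) ∧
    (∀ x y : ℂ, Tendsto (fun n => (∫ p, w p.1 * (Berry.rWave ρ (φ n) (m n) x p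
        * Berry.rWave ρ (φ n) (m n) y p) ∂(Berry.rFrameProb ρ D))
      - Berry.waveK (x - y) * Berry.rAvg ρ D (fun z => w z * φ n z ^ 2)) atTop (𝓝 0)) ∧
    (∀ x y z : ℂ, Tendsto (fun n => ∫ p, w p.1 * (Berry.rWave ρ (φ n) (m n) x p
        * Berry.rWave ρ (φ n) (m n) y p * Berry.rWave ρ (φ n) (m n) z p)
          ∂(Berry.rFrameProb ρ D)) atTop (𝓝 0)) ∧
    (∀ (k : Fin 1 → ℕ) (v : ∀ i, Fin (k i) → ℂ), Tendsto (fun n =>
      ∫ p, w p.1 * jetProd k v (fun x => Berry.rWave ρ (φ n) (m n) x p) ∂(Berry.rFrameProb ρ D))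
        atTop (𝓝 0)) ∧
    (∀ (k : Fin 2 → ℕ) (v : ∀ i, Fin (k i) → ℂ), Tendsto (fun n =>
      (∫ p, w p.1 * jetProd k v (fun x => Berry.rWave ρ (φ n) (m n) x p) ∂(Berry.rFrameProb ρ D))
        - covar (v 0) (v 1) * Berry.rAvg ρ D (fun z => w z * φ n z ^ 2)) atTop (𝓝 0)) ∧
    (∀ (k : Fin 3 → ℕ) (v : ∀ i, Fin (k i) → ℂ), Tendsto (fun n =>
      ∫ p, w p.1 * jetProd k v (fun x => Berry.rWave ρ (φ n) (m n) x p) ∂(Berry.rFrameProb ρ D))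
        atTop (𝓝 0))

/-- FND: the directional form of the final theorem -/
def StmtFnd : Prop :=
  ∀ (Γ : Subgroup SL(2, ℝ)) [Countable Γ] (D : Set ℍ) (ρ : ℍ → ℝ) (φ : ℕ → ℍ → ℝ) (m : ℕ → ℝ),
    MeasurableSet D → IsFundamentalDomain Γ D (volume : Measure ℍ) →
    (∃ K : Set ℍ, IsCompact K ∧ ∀ z, ∃ γ ∈ Γ, γ • z ∈ K) →
    ContDiffOn ℝ ∞ (fun w : ℂ => ρ (ofComplex w)) {w | 0 < w.im} →
    (∀ γ ∈ Γ, ∀ z, ρ (γ • z) = ρ z) →
    (∀ z : ℍ, 0 < 1 + z.im ^ 2 * Laplacian.laplacian (fun w : ℂ => ρ (ofComplex w)) z) →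
    Berry.REigenSeq Γ ρ φ m →
    (∀ n, ContDiffOn ℝ ∞ (fun w : ℂ => φ n (ofComplex w)) {w | 0 < w.im}) →
    (∀ n, Berry.rAvg ρ D (fun z => φ n z ^ 2) = 1) →
    ∀ ψ : ℂ → ℝ, ContDiff ℝ ∞ ψ → HasCompactSupport ψ → tsupport ψ ⊆ {w | 0 < w.im} →
    ∀ (k : Fin 3 → ℕ) (v : ∀ i, Fin (k i) → ℂ),
      Tendsto (fun n => ∫ z, ψ z * ∏ i, (1 / m n) ^ k i *
        iteratedFDeriv ℝ (k i) (fun w : ℂ => φ n (ofComplex w)) z (v i)) atTop (𝓝 0)

end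

end U3


end

section

/-!
TLU: the local theorem at distinct points, transferred to the hypotheses `LocU`.
-/

open Complex MeasureTheory Filter Topology Set
open scoped ContDiff

namespace U3

open QE QJ

noncomputable section

namespace TLU

/-- for large `n` the two integrals agree -/
lemma eventually_eq {V U : Set ℂ} {g : ℂ → ℝ} {σ : ℂ → ℝ} {h : ℕ → ℝ} {φ φ' : ℕ → ℂ → ℂ}
    (hA : Agree V U g h φ σ φ') {ζ : ℂ → ℂ} (hζ : Test V ζ) {r : ℕ} (x : Fin r → ℂ) :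
    (fun n => ∫ θ, Aj σ h φ' ζ x 0 n (uu θ ^ 2) ∂angle) =ᶠ[atTop]
      fun n => ∫ θ, (∫ z, ζ z * PD g h φ x n θ z) ∂angle := by
  have hL := hA.loc
  filter_upwards [TL.eventually_mem hL.op hL.sm.continuous hL.hpos hL.hlim hζ.supp hζ.sub x]
    with n hn
  congr 1
  funext θ
  unfold Aj
  congr 1
  funext z
  by_cases hz : z ∈ tsupport ζ
  · congr 1
    unfold PD
    refine Finset.prod_congr rfl fun i _ => ?_
    have h1 := hn z hz (uu θ ^ 2) (by rw [norm_pow, norm_uu, one_pow]) i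
    have hg : g z = Real.exp (σ z) ^ 2 := by
      rw [← hA.eg z (hζ.sub hz), ← Real.exp_nat_mul]
      norm_num
    have e1 : (Real.sqrt (g z))⁻¹ = Real.exp (-σ z) := by
      rw [hg, Real.sqrt_sq (Real.exp_pos _).le, Real.exp_neg]
    rw [e1, ← hA.eφ n _ h1]
    rfl
  · rw [image_eq_zero_of_notMem_tsupport hz, zero_mul, zero_mul]

/-- the mass integrals agree -/
lemma mass_eq {V U : Set ℂ} {g : ℂ → ℝ} {σ : ℂ → ℝ} {h : ℕ → ℝ} {φ φ' : ℕ → ℂ → ℂ}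
    (hA : Agree V U g h φ σ φ') {ζ : ℂ → ℂ} (hζ : Test V ζ) (n : ℕ) :
    ∫ z, ζ z * φ' n z ^ 2 = ∫ z, ζ z * φ n z ^ 2 := by
  refine integral_congr_ae (Filter.Eventually.of_forall fun z => ?_)
  by_cases hz : z ∈ tsupport ζ
  · simp only [hA.eφ n z (hζ.sub hz)]
  · simp only [image_eq_zero_of_notMem_tsupport hz, zero_mul]

end TLU

/-- TLU -/
theorem stmtTlU (hTpc : StmtTpc) (hLcz : StmtLcz) : StmtTlU := by
  intro U g h φ hU hg hgp H ζ hζ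
  obtain ⟨V, F, σ, φ', hKV, -, -, -, hA⟩ := hLcz U g h φ hU hg hgp H (tsupport ζ) hζ.supp hζ.sub
  have hζV : Test V ζ := ⟨hζ.smooth, hζ.supp, hKV⟩
  obtain ⟨t1, t2, t3⟩ := hTpc V σ h φ' hA.loc ζ hζV
  refine ⟨fun x => (t1 x).congr' (TLU.eventually_eq hA hζV x), fun x => ?_, fun hE x =>
    (t3 (hE V σ φ' hA ζ hζV) x).congr' (TLU.eventually_eq hA hζV x)⟩
  refine (t2 x).congr' ?_
  filter_upwards [TLU.eventually_eq hA hζV x] with n hn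
  rw [hn, TLU.mass_eq hA hζV]

end

end U3


end

section

/-!
The directional form of the final theorem.
-/

open MeasureTheory Filter Topology Set UpperHalfPlane MatrixGroups
open scoped ContDiff

namespace U3

open QE QE.NC QJ

noncomputable section

/-- FND: the directional form of the final theorem -/
theorem stmtFnd (hSrf : StmtSrf) (hE3g : StmtE3g) (hLogU : StmtLogU) : StmtFnd := by
  intro Γ _ D ρ φ m hD hDΓ hcpt hρ hinv hK hseq hφ hn ψ hψ hψc hψs k v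
  obtain ⟨N, hm, hloc⟩ := hSrf Γ D ρ φ m hD hDΓ hcpt hρ hinv hseq hφ hn
  have hfac : Fac Γ ρ := ⟨hρ, hinv, hcpt⟩
  have he3 := hE3g Γ ρ (fun n => 1 / m (n + N)) (fun n z => (φ (n + N) (ofComplex z) : ℂ)) hfac hK
    hloc
  have h1 := (hLogU ρ (fun n => φ (n + N)) (fun n => m (n + N)) hρ hm (fun n => hφ (n + N)) hloc
    he3 ψ hψ hψc hψs).2.2.2 k v
  exact (tendsto_add_atTop_iff_nat N).1 h1

end

end U3


end
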