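import Mathlib
import Pool.Agent.BWM.C13
import Pool.Agent.BWM.C22
import Pool.Agent.BWM.C23

/-! Parts: QJ.FINP, U3.MAINU, U3.FNU -/

section

/-!
All the moments of order at most three of the local waves.
-/

open MeasureTheory Filter Topology Set UpperHalfPlane MatrixGroups
open scoped ContDiff

namespace QJ

open QE

noncomputable section

namespace FINP

variable {Γ : Subgroup SL(2, ℝ)} {ρ : ℍ → ℝ} {D : Set ℍ} {φ : ℕ → ℍ → ℝ} {m : ℕ → ℝ}

theorem continuous_of_smooth {f : ℍ → ℝ}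
    (hf : ContDiffOn ℝ ∞ (fun w : ℂ => f (ofComplex w)) {w | 0 < w.im}) : Continuous f := by
  rw [continuous_iff_continuousAt]
  intro z
  have ho : IsOpen {w : ℂ | 0 < w.im} := isOpen_lt continuous_const Complex.continuous_im
  have h1 : ContinuousAt (fun w : ℂ => f (ofComplex w)) (z : ℂ) :=
    hf.continuousOn.continuousAt (ho.mem_nhds z.im_pos)
  have h2 : ContinuousAt (fun z : ℍ => f (ofComplex (z : ℂ))) z :=
    ContinuousAt.comp (g := fun w : ℂ => f (ofComplex w)) (f := fun z : ℍ => (z : ℂ)) h1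
      UpperHalfPlane.continuous_coe.continuousAt
  simpa only [ofComplex_apply] using h2

lemma pt (hg : Berry.Geo Γ ρ D) (hm : Tendsto m atTop atTop) {k : ℕ} (x : Fin k → ℂ) :
    ∀ᶠ n in atTop, 0 < m n ∧ ∀ i, ∀ z : ℍ,
      ‖x i / ((m n * Real.exp (ρ z) : ℝ) : ℂ)‖ < 1 := by
  obtain ⟨R, hR⟩ := hg.bdd
  have h0 := hm.eventually_gt_atTop 0
  have h1 : ∀ᶠ n in atTop, ∀ i, ‖x i‖ * Real.exp R < m n := by
    rw [eventually_all]
    exact fun i => hm.eventually_gt_atTop _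
  filter_upwards [h0, h1] with n hn0 hn1
  refine ⟨hn0, fun i z => ?_⟩
  have hn := hn1 i
  rw [norm_div, Complex.norm_real, Real.norm_of_nonneg (by positivity),
    div_lt_one (mul_pos hn0 (Real.exp_pos _))]
  have h1 : Real.exp (-R) ≤ Real.exp (ρ z) := Real.exp_le_exp.2 (abs_le.1 (hR z)).1
  calc ‖x i‖ = ‖x i‖ * Real.exp R * Real.exp (-R) := by
        rw [mul_assoc, ← Real.exp_add, add_neg_cancel, Real.exp_zero, mul_one]
    _ < m n * Real.exp (-R) := by gcongr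
    _ ≤ m n * Real.exp (ρ z) := by gcongr

lemma key [Countable Γ] (hg : Berry.Geo Γ ρ D)
    (hK : ∃ K : Set ℍ, IsCompact K ∧ ∀ z, ∃ γ ∈ Γ, γ • z ∈ K) (hρc : Continuous ρ)
    (hpc : ∀ n, Continuous (φ n)) (hφ : Berry.REigenSeq Γ ρ φ m) {ζ : ℂ → ℝ}
    (hζ : ∀ f : ℍ → ℝ, Continuous f → (∀ γ ∈ Γ, ∀ z, f (γ • z) = f z) →
        Berry.rAvg ρ D f = ∫ w, ζ w * f (ofComplex w)) {k : ℕ} (x : Fin k → ℂ) :
    ∀ᶠ n in atTop, ∫ z, ζ z * angProd ρ (φ n) (m n) x (ofComplex z)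
      = ∫ p, ∏ i, Berry.rWave ρ (φ n) (m n) (x i) p ∂(Berry.rFrameProb ρ D) := by
  filter_upwards [pt hg hφ.tendsto x] with n hn
  obtain ⟨hm0, hn⟩ := hn
  have hcond : IsProbabilityMeasure (ProbabilityTheory.cond (Berry.area ρ) D) :=
    ProbabilityTheory.cond_isProbabilityMeasure_of_finite (Berry.area_ne_zero hg)
      (Berry.area_ne_top hg)
  obtain ⟨C₂, hC₂⟩ := Berry.bdd_of_cocompact (hpc n) (hφ.invariant n) hK
  have hcw : ∀ i, Continuous (Berry.rWave ρ (φ n) (m n) (x i)) := fun i =>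
    rWave_continuous (hpc n) hρc (hn i) hm0.ne'
  have i3 : Integrable (fun p => ∏ i, Berry.rWave ρ (φ n) (m n) (x i) p)
      ((ProbabilityTheory.cond (Berry.area ρ) D).prod ang) := by
    refine Integrable.of_bound (continuous_finsetProd _ fun i _ => hcw i).aestronglyMeasurable
      (∏ _i : Fin k, |C₂|) (Eventually.of_forall fun p => ?_)
    rw [norm_prod]
    refine Finset.prod_le_prod (fun _ _ => norm_nonneg _) fun i _ => ?_
    rw [Real.norm_eq_abs]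
    exact (hC₂ _).trans (le_abs_self _)
  have e1 : ∫ p, ∏ i, Berry.rWave ρ (φ n) (m n) (x i) p ∂(Berry.rFrameProb ρ D)
      = Berry.rAvg ρ D (angProd ρ (φ n) (m n) x) := by
    unfold Berry.rFrameProb
    rw [integral_prod _ i3]
    rfl
  rw [e1]
  exact (hζ _ (angProd_continuous (hpc n) hρc hn hm0.ne')
    (angProd_inv (hφ.invariant n) hg.inv (m n) x)).symm

end FINP

open _root_.QJ.FINP in
theorem stmtFinP (hTest : StmtTest) (hPts : StmtPts) : StmtFinP := by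
  intro Γ _ D hDm hD hK ρ hρ hρΓ φ m hφ hs hQ
  have hρc : Continuous ρ := FINP.continuous_of_smooth hρ
  have hpc : ∀ n, Continuous (φ n) := fun n => FINP.continuous_of_smooth (hs n)
  have hgeo : Berry.Geo Γ ρ D := (Berry.surf_of_cocompact hD hDm hK hρc hρΓ hφ).geo
  obtain ⟨ζ, hζ1, hζ2, hζ3, -, hζ⟩ := hTest Γ ρ D hgeo hρ hK
  have hcond : IsProbabilityMeasure (ProbabilityTheory.cond (Berry.area ρ) D) :=
    ProbabilityTheory.cond_isProbabilityMeasure_of_finite (Berry.area_ne_zero hgeo)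
      (Berry.area_ne_top hgeo)
  have hI : ∫ z, ζ z = 1 := by
    have h1 := hζ (fun _ => 1) continuous_const (fun _ _ _ => rfl)
    unfold Berry.rAvg at h1
    rw [integral_const, probReal_univ, one_smul] at h1
    simp only [mul_one] at h1
    exact h1.symm
  obtain ⟨p1, p2, p3⟩ := hPts Γ ρ φ m hρ hφ hs hQ ζ hζ1 hζ2 hζ3
  refine ⟨fun x => ?_, fun x y => ?_, fun x y z => ?_⟩
  · refine (p1 ![x]).congr' ?_
    filter_upwards [key hgeo hK hρc hpc hφ hζ ![x]] with n hn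
    rw [hn]
    simp only [Fin.prod_univ_succ, Finset.univ_eq_empty, Finset.prod_empty, mul_one,
      Matrix.cons_val_zero]
  · have h2 := p2 ![x, y]
    rw [hI, mul_one] at h2
    refine h2.congr' ?_
    filter_upwards [key hgeo hK hρc hpc hφ hζ ![x, y]] with n hn
    rw [hn]
    simp only [Fin.prod_univ_two, Matrix.cons_val_zero, Matrix.cons_val_one]
  · refine (p3 ![x, y, z]).congr' ?_
    filter_upwards [key hgeo hK hρc hpc hφ hζ ![x, y, z]] with n hn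
    rw [hn]
    simp only [Fin.prod_univ_three, Matrix.cons_val_zero, Matrix.cons_val_one,
      Matrix.cons_val_two, Matrix.tail_cons, Matrix.head_cons]

end

end QJ


end

section

/-!
Cubic and quartic statistics of quantum ergodic eigenfunctions: the mean over the angle of a product
of at most four derivatives of the local wave (module MAIN).
-/

open MeasureTheory Filter Topology Set UpperHalfPlane MatrixGroups
open scoped ContDiff

namespace U3

open QJ QE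

noncomputable section

namespace MAIN

theorem lah_gt : ∀ a i : ℕ, a < i → lah a i = 0
  | 0, 0, h => absurd h (lt_irrefl 0)
  | 0, _ + 1, _ => rfl
  | _ + 1, 0, h => absurd h (Nat.not_lt_zero _)
  | a + 1, i + 1, h => by
    have h1 : a < i := by omega
    simp only [lah]
    rw [lah_gt a (i + 1) (by omega), lah_gt a i h1]
    ring

theorem lah_self : ∀ a : ℕ, lah a a = 1
  | 0 => rfl
  | a + 1 => by
    simp only [lah]
    rw [lah_gt a (a + 1) (by omega), lah_self a]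
    ring

/-- the factor of the leading part -/
def bb (ρ : ℍ → ℝ) (z : ℂ) : ℝ := z.im * Real.exp (-ρ (ofComplex z))

/-- the conformal factor -/
def e1 (ρ : ℍ → ℝ) (z : ℂ) : ℝ := Real.exp (-ρ (ofComplex z))

/-- the coefficients -/
def kap (ρ : ℍ → ℝ) (k a i j : ℕ) (z : ℂ) (θ : ℝ) : ℂ :=
  ((lah a i * lah (k - a) j : ℝ) : ℂ)
    * (((bb ρ z : ℂ) * uu θ ^ 2) ^ i * ((e1 ρ z : ℂ) * uu θ * (Real.sin θ : ℝ)) ^ (a - i))
    * ((starRingEnd ℂ) ((bb ρ z : ℂ) * uu θ ^ 2) ^ j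
      * (starRingEnd ℂ) ((e1 ρ z : ℂ) * uu θ * (Real.sin θ : ℝ)) ^ (k - a - j))

/-- the derivative of the local wave in terms of the rescaled derivatives `w i j` -/
def JJ (ρ : ℍ → ℝ) (h : ℝ) (w : ℕ → ℕ → ℂ) {k : ℕ} (v : Fin k → ℂ) (z : ℂ) (θ : ℝ) : ℂ :=
  ∑ a ∈ Finset.range (k + 1), sc v a * ∑ i ∈ Finset.range (a + 1),
    ∑ j ∈ Finset.range (k - a + 1), kap ρ k a i j z θ * (h : ℂ) ^ (k - i - j) * w i j

/-- the leading part -/
def LL (ρ : ℍ → ℝ) (w : ℕ → ℕ → ℂ) {k : ℕ} (v : Fin k → ℂ) (z : ℂ) (θ : ℝ) : ℂ :=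
  ∑ a ∈ Finset.range (k + 1), sc v a * (kap ρ k a a (k - a) z θ * w a (k - a))

/-- the remainder -/
def RM (ρ : ℍ → ℝ) (h : ℝ) (w : ℕ → ℕ → ℂ) {k : ℕ} (v : Fin k → ℂ) (z : ℂ) (θ : ℝ) : ℂ :=
  ∑ a ∈ Finset.range (k + 1), sc v a * ∑ i ∈ Finset.range (a + 1),
    ∑ j ∈ Finset.range (k - a + 1),
      if i = a ∧ j = k - a then 0 else kap ρ k a i j z θ * (h : ℂ) ^ (k - i - j - 1) * w i j

theorem JJ_eq (ρ : ℍ → ℝ) (h : ℝ) (w : ℕ → ℕ → ℂ) {k : ℕ} (v : Fin k → ℂ) (z : ℂ) (θ : ℝ) :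
    JJ ρ h w v z θ = LL ρ w v z θ + h * RM ρ h w v z θ := by
  unfold JJ LL RM
  rw [Finset.mul_sum, ← Finset.sum_add_distrib]
  apply Finset.sum_congr rfl
  intro a ha
  have ha' : a ≤ k := Nat.lt_succ_iff.mp (Finset.mem_range.mp ha)
  have h1 : ∑ i ∈ Finset.range (a + 1), ∑ j ∈ Finset.range (k - a + 1),
      (if i = a ∧ j = k - a then kap ρ k a a (k - a) z θ * w a (k - a) else 0) =
      kap ρ k a a (k - a) z θ * w a (k - a) := by
    rw [Finset.sum_eq_single a]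
    · rw [Finset.sum_eq_single (k - a)]
      · rw [if_pos ⟨rfl, rfl⟩]
      · intro j _ hj
        rw [if_neg (fun h => hj h.2)]
      · intro hj
        exact absurd (Finset.mem_range.mpr (Nat.lt_succ_self _)) hj
    · intro i _ hi
      apply Finset.sum_eq_zero
      intro j _
      rw [if_neg (fun h => hi h.1)]
    · intro hi
      exact absurd (Finset.mem_range.mpr (Nat.lt_succ_self _)) hi
  rw [← h1]
  have h3 : ∀ x S T u : ℂ, x * S + u * (x * T) = x * (S + u * T) := fun x S T u => by ring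
  rw [h3]
  congr 1
  rw [Finset.mul_sum, ← Finset.sum_add_distrib]
  apply Finset.sum_congr rfl
  intro i hi
  have hi' : i ≤ a := Nat.lt_succ_iff.mp (Finset.mem_range.mp hi)
  rw [Finset.mul_sum, ← Finset.sum_add_distrib]
  apply Finset.sum_congr rfl
  intro j hj
  have hj' : j ≤ k - a := Nat.lt_succ_iff.mp (Finset.mem_range.mp hj)
  by_cases hc : i = a ∧ j = k - a
  · rw [if_pos hc, if_pos hc, hc.1, hc.2]
    have h4 : k - a - (k - a) = 0 := by omega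
    rw [h4]
    ring
  · rw [if_neg hc, if_neg hc]
    have h4 : k - i - j = (k - i - j - 1) + 1 := by
      have : i + j < k := by
        by_contra hlt
        apply hc
        omega
      omega
    rw [h4, pow_succ]
    simp only [Nat.add_sub_cancel]
    ring

theorem wexp_eq (hWexp : StmtWexp) (ρ φ : ℍ → ℝ) (m : ℝ) (hm : 0 < m)
    (hφ : ContDiffOn ℝ ∞ (fun w : ℂ => φ (ofComplex w)) {w | 0 < w.im}) (z : ℂ) (hz : 0 < z.im)
    (θ : ℝ) {k : ℕ} (v : Fin k → ℂ) :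
    ((iteratedFDeriv ℝ k (fun x => Berry.rWave ρ φ m x (ofComplex z, θ)) 0 v : ℝ) : ℂ) =
      JJ ρ (1 / m) (fun i j => ((1 / m : ℝ) : ℂ) ^ (i + j)
        * dz^[i] (dzb^[j] (fun w : ℂ => (φ (ofComplex w) : ℂ))) z) v z θ := by
  rw [hWexp ρ φ m hm hφ z hz θ k v _ _ rfl rfl]
  unfold JJ
  apply Finset.sum_congr rfl
  intro a ha
  have ha' : a ≤ k := Nat.lt_succ_iff.mp (Finset.mem_range.mp ha)
  congr 1
  apply Finset.sum_congr rfl
  intro i hi
  have hi' : i ≤ a := Nat.lt_succ_iff.mp (Finset.mem_range.mp hi)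
  apply Finset.sum_congr rfl
  intro j hj
  have hj' : j ≤ k - a := Nat.lt_succ_iff.mp (Finset.mem_range.mp hj)
  have hc : (z.im : ℂ) * (((1 / m : ℝ) : ℂ) * ((Real.exp (-ρ (ofComplex z)) : ℝ) : ℂ)) * uu θ ^ 2 =
      ((1 / m : ℝ) : ℂ) * ((bb ρ z : ℂ) * uu θ ^ 2) := by
    unfold bb
    push_cast
    ring
  have hd : (((1 / m : ℝ) : ℂ) * ((Real.exp (-ρ (ofComplex z)) : ℝ) : ℂ)) * uu θ
      * ((Real.sin θ : ℝ) : ℂ) =
      ((1 / m : ℝ) : ℂ) * ((e1 ρ z : ℂ) * uu θ * (Real.sin θ : ℝ)) := by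
    unfold e1
    ring
  rw [hc, hd]
  have hcc : (starRingEnd ℂ) (((1 / m : ℝ) : ℂ) * ((bb ρ z : ℂ) * uu θ ^ 2)) =
      ((1 / m : ℝ) : ℂ) * (starRingEnd ℂ) ((bb ρ z : ℂ) * uu θ ^ 2) := by
    rw [map_mul, Complex.conj_ofReal]
  have hdd : (starRingEnd ℂ) (((1 / m : ℝ) : ℂ) * ((e1 ρ z : ℂ) * uu θ * (Real.sin θ : ℝ))) =
      ((1 / m : ℝ) : ℂ) * (starRingEnd ℂ) ((e1 ρ z : ℂ) * uu θ * (Real.sin θ : ℝ)) := by
    rw [map_mul, Complex.conj_ofReal]
  rw [hcc, hdd]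
  unfold kap
  beta_reduce
  generalize ((1 / m : ℝ) : ℂ) = H
  generalize (starRingEnd ℂ) ((bb ρ z : ℂ) * uu θ ^ 2) = c'
  generalize (starRingEnd ℂ) ((e1 ρ z : ℂ) * uu θ * ((Real.sin θ : ℝ) : ℂ)) = d'
  generalize (bb ρ z : ℂ) * uu θ ^ 2 = c
  generalize (e1 ρ z : ℂ) * uu θ * ((Real.sin θ : ℝ) : ℂ) = d
  generalize dz^[i] (dzb^[j] (fun w : ℂ => (φ (ofComplex w) : ℂ))) z = D
  generalize ((lah a i * lah (k - a) j : ℝ) : ℂ) = Λ
  rw [mul_pow, mul_pow, mul_pow, mul_pow]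
  have e : H ^ i * H ^ (a - i) * (H ^ j * H ^ (k - a - j)) = H ^ (k - i - j) * H ^ (i + j) := by
    rw [← pow_add, ← pow_add, ← pow_add, ← pow_add]
    congr 1
    omega
  calc Λ * (H ^ i * c ^ i * (H ^ (a - i) * d ^ (a - i))) *
        (H ^ j * c' ^ j * (H ^ (k - a - j) * d' ^ (k - a - j))) * D
      = (H ^ i * H ^ (a - i) * (H ^ j * H ^ (k - a - j))) *
        (Λ * (c ^ i * d ^ (a - i)) * (c' ^ j * d' ^ (k - a - j)) * D) := by ring
    _ = Λ * (c ^ i * d ^ (a - i)) * (c' ^ j * d' ^ (k - a - j)) * H ^ (k - i - j) *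
        (H ^ (i + j) * D) := by rw [e]; ring

theorem conj_uu (θ : ℝ) : (starRingEnd ℂ) (uu θ) = (uu θ)⁻¹ := by
  have h := norm_uu θ
  rw [Complex.inv_def, Complex.normSq_eq_norm_sq, h]
  simp

theorem kap_lead (ρ : ℍ → ℝ) {k a : ℕ} (ha : a ≤ k) (z : ℂ) (θ : ℝ) :
    kap ρ k a a (k - a) z θ = (bb ρ z : ℂ) ^ k * uu θ ^ (2 * ((a : ℤ) - (k - a : ℕ))) := by
  unfold kap
  rw [lah_self, lah_self, Nat.sub_self, Nat.sub_self, pow_zero, pow_zero, mul_one, mul_one,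
    map_mul, map_pow, conj_uu, Complex.conj_ofReal, mul_pow, mul_pow]
  have h1 : (bb ρ z : ℂ) ^ k = (bb ρ z : ℂ) ^ a * (bb ρ z : ℂ) ^ (k - a) := by
    rw [← pow_add]
    congr 1
    omega
  have h2 : uu θ ^ (2 * ((a : ℤ) - (k - a : ℕ))) = (uu θ ^ 2) ^ a * ((uu θ)⁻¹ ^ 2) ^ (k - a) := by
    rw [← pow_mul, ← pow_mul, inv_pow, ← zpow_natCast, ← zpow_natCast, ← zpow_neg,
      ← zpow_add₀ (uu_ne θ)]
    congr 1
    push_cast
    ring
  rw [h1, h2]
  push_cast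
  ring

theorem norm_kap_le {ρ : ℍ → ℝ} {k a i j : ℕ} {z : ℂ} {B : ℝ} (ha : a ≤ k) (hi : i ≤ a)
    (hj : j ≤ k - a) (hb : |bb ρ z| ≤ B) (he : |e1 ρ z| ≤ B) (θ : ℝ) :
    ‖kap ρ k a i j z θ‖ ≤ |lah a i * lah (k - a) j| * B ^ k := by
  have hc : ‖(bb ρ z : ℂ) * uu θ ^ 2‖ ≤ B := by
    rw [norm_mul, norm_pow, norm_uu, one_pow, mul_one, Complex.norm_real, Real.norm_eq_abs]
    exact hb
  have hd : ‖(e1 ρ z : ℂ) * uu θ * ((Real.sin θ : ℝ) : ℂ)‖ ≤ B := by
    rw [norm_mul, norm_mul, norm_uu, mul_one, Complex.norm_real, Complex.norm_real,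
      Real.norm_eq_abs, Real.norm_eq_abs]
    calc |e1 ρ z| * |Real.sin θ| ≤ |e1 ρ z| * 1 :=
          mul_le_mul_of_nonneg_left (Real.abs_sin_le_one θ) (abs_nonneg _)
      _ ≤ B := by rw [mul_one]; exact he
  have hB : 0 ≤ B := (abs_nonneg _).trans hb
  unfold kap
  rw [norm_mul, norm_mul, norm_mul, norm_mul, norm_pow, norm_pow, norm_pow, norm_pow,
    RCLike.norm_conj, RCLike.norm_conj, Complex.norm_real, Real.norm_eq_abs]
  have e : B ^ k = (B ^ i * B ^ (a - i)) * (B ^ j * B ^ (k - a - j)) := by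
    rw [← pow_add, ← pow_add, ← pow_add]
    congr 1
    omega
  rw [e, mul_assoc]
  apply mul_le_mul_of_nonneg_left _ (abs_nonneg _)
  (clear * - hc hd hB; gcongr)

/-- the sum of the norms of the rescaled derivatives -/
def SS (w : ℕ → ℕ → ℂ) (k : ℕ) : ℝ :=
  ∑ p ∈ Finset.range (k + 1) ×ˢ Finset.range (k + 1), ‖w p.1 p.2‖

theorem le_SS (w : ℕ → ℕ → ℂ) {k i j : ℕ} (hi : i ≤ k) (hj : j ≤ k) : ‖w i j‖ ≤ SS w k := by
  unfold SS
  refine Finset.single_le_sum (f := fun p : ℕ × ℕ => ‖w p.1 p.2‖) (fun p _ => norm_nonneg _)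
    (a := (i, j)) ?_
  rw [Finset.mem_product, Finset.mem_range, Finset.mem_range]
  exact ⟨by simp only; omega, by simp only; omega⟩

/-- the constant of the bounds -/
def CC {k : ℕ} (v : Fin k → ℂ) (B : ℝ) : ℝ :=
  ∑ a ∈ Finset.range (k + 1), ‖sc v a‖ * (|lah a a * lah (k - a) (k - a)| * B ^ k) +
  ∑ a ∈ Finset.range (k + 1), ‖sc v a‖ * ∑ i ∈ Finset.range (a + 1),
    ∑ j ∈ Finset.range (k - a + 1), |lah a i * lah (k - a) j| * B ^ k

theorem norm_LR_le {ρ : ℍ → ℝ} {h : ℝ} {w : ℕ → ℕ → ℂ} {k : ℕ} (v : Fin k → ℂ) {z : ℂ} {B : ℝ}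
    (h0 : 0 ≤ h) (h1 : h ≤ 1) (hb : |bb ρ z| ≤ B) (he : |e1 ρ z| ≤ B) (θ : ℝ) :
    ‖LL ρ w v z θ‖ + ‖RM ρ h w v z θ‖ ≤ CC v B * SS w k := by
  have hB : 0 ≤ B := (abs_nonneg _).trans hb
  have hL : ‖LL ρ w v z θ‖ ≤ (∑ a ∈ Finset.range (k + 1),
      ‖sc v a‖ * (|lah a a * lah (k - a) (k - a)| * B ^ k)) * SS w k := by
    unfold LL
    refine (norm_sum_le _ _).trans ?_
    rw [Finset.sum_mul]
    apply Finset.sum_le_sum
    intro a ha
    have ha' : a ≤ k := Nat.lt_succ_iff.mp (Finset.mem_range.mp ha)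
    rw [norm_mul, norm_mul, mul_assoc]
    apply mul_le_mul_of_nonneg_left _ (norm_nonneg _)
    exact mul_le_mul (norm_kap_le ha' le_rfl le_rfl hb he θ) (le_SS w ha' (Nat.sub_le _ _))
      (norm_nonneg _) (by positivity)
  have hR : ‖RM ρ h w v z θ‖ ≤ (∑ a ∈ Finset.range (k + 1), ‖sc v a‖ *
      ∑ i ∈ Finset.range (a + 1), ∑ j ∈ Finset.range (k - a + 1),
        |lah a i * lah (k - a) j| * B ^ k) * SS w k := by
    unfold RM
    refine (norm_sum_le _ _).trans ?_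
    rw [Finset.sum_mul]
    apply Finset.sum_le_sum
    intro a ha
    have ha' : a ≤ k := Nat.lt_succ_iff.mp (Finset.mem_range.mp ha)
    rw [norm_mul, mul_assoc]
    apply mul_le_mul_of_nonneg_left _ (norm_nonneg _)
    refine (norm_sum_le _ _).trans ?_
    rw [Finset.sum_mul]
    apply Finset.sum_le_sum
    intro i hi
    have hi' : i ≤ a := Nat.lt_succ_iff.mp (Finset.mem_range.mp hi)
    refine (norm_sum_le _ _).trans ?_
    rw [Finset.sum_mul]
    apply Finset.sum_le_sum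
    intro j hj
    have hj' : j ≤ k - a := Nat.lt_succ_iff.mp (Finset.mem_range.mp hj)
    have hS0 : 0 ≤ SS w k := (norm_nonneg _).trans (le_SS w (Nat.zero_le k) (Nat.zero_le k))
    split_ifs with hc
    · rw [norm_zero]
      (clear * - hB hS0; positivity)
    · rw [norm_mul, norm_mul, norm_pow, Complex.norm_real, Real.norm_eq_abs, abs_of_nonneg h0]
      have h2 : h ^ (k - i - j - 1) ≤ 1 := pow_le_one₀ h0 h1
      calc ‖kap ρ k a i j z θ‖ * h ^ (k - i - j - 1) * ‖w i j‖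
          ≤ ‖kap ρ k a i j z θ‖ * 1 * ‖w i j‖ := by gcongr
        _ = ‖kap ρ k a i j z θ‖ * ‖w i j‖ := by rw [mul_one]
        _ ≤ (|lah a i * lah (k - a) j| * B ^ k) * SS w k :=
            mul_le_mul (norm_kap_le ha' hi' hj' hb he θ) (le_SS w (hi'.trans ha') (by omega))
              (norm_nonneg _) (by positivity)
  unfold CC
  rw [add_mul]
  exact add_le_add hL hR

theorem prod_diff {ι : Type} (s : Finset ι) (L R : ι → ℂ) (M : ι → ℝ) {h : ℝ} (h0 : 0 ≤ h)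
    (h1 : h ≤ 1) (hM : ∀ i ∈ s, ‖L i‖ + ‖R i‖ ≤ M i) :
    ‖∏ i ∈ s, (L i + h * R i) - ∏ i ∈ s, L i‖ ≤ h * s.card * ∏ i ∈ s, M i := by
  classical
  induction s using Finset.induction_on with
  | empty => simp
  | insert a s ha ih =>
    have hMa := hM a (Finset.mem_insert_self a s)
    have hMs : ∀ i ∈ s, ‖L i‖ + ‖R i‖ ≤ M i := fun i hi => hM i (Finset.mem_insert_of_mem hi)
    have ih' := ih hMs
    have hhR : ∀ i, ‖(h : ℂ) * R i‖ ≤ ‖R i‖ := by
      intro i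
      rw [norm_mul, Complex.norm_real, Real.norm_eq_abs, abs_of_nonneg h0]
      calc h * ‖R i‖ ≤ 1 * ‖R i‖ := mul_le_mul_of_nonneg_right h1 (norm_nonneg _)
        _ = ‖R i‖ := one_mul _
    have hP : ‖∏ i ∈ s, (L i + h * R i)‖ ≤ ∏ i ∈ s, M i := by
      rw [norm_prod]
      apply Finset.prod_le_prod
      · intro i _
        exact norm_nonneg _
      · intro i hi
        calc ‖L i + h * R i‖ ≤ ‖L i‖ + ‖(h : ℂ) * R i‖ := norm_add_le _ _
          _ ≤ ‖L i‖ + ‖R i‖ := by linarith [hhR i]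
          _ ≤ M i := hMs i hi
    rw [Finset.prod_insert ha, Finset.prod_insert ha, Finset.prod_insert ha,
      Finset.card_insert_of_notMem ha]
    have e : (L a + h * R a) * ∏ i ∈ s, (L i + h * R i) - L a * ∏ i ∈ s, L i =
        L a * (∏ i ∈ s, (L i + h * R i) - ∏ i ∈ s, L i) +
          h * (R a * ∏ i ∈ s, (L i + h * R i)) := by ring
    rw [e]
    have hMa0 : 0 ≤ M a := (by positivity : (0 : ℝ) ≤ ‖L a‖ + ‖R a‖).trans hMa
    have hLa : ‖L a‖ ≤ M a := by linarith [norm_nonneg (R a)]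
    have hRa : ‖R a‖ ≤ M a := by linarith [norm_nonneg (L a)]
    have t1 : ‖L a * (∏ i ∈ s, (L i + h * R i) - ∏ i ∈ s, L i)‖ ≤
        M a * (h * s.card * ∏ i ∈ s, M i) := by
      rw [norm_mul]
      exact mul_le_mul hLa ih' (norm_nonneg _) hMa0
    have t2 : ‖(h : ℂ) * (R a * ∏ i ∈ s, (L i + h * R i))‖ ≤ h * (M a * ∏ i ∈ s, M i) := by
      rw [norm_mul, norm_mul, Complex.norm_real, Real.norm_eq_abs, abs_of_nonneg h0]
      exact mul_le_mul_of_nonneg_left (mul_le_mul hRa hP (norm_nonneg _) hMa0) h0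
    refine (norm_add_le _ _).trans ((add_le_add t1 t2).trans (le_of_eq ?_))
    push_cast
    ring

/-! ### Continuity -/

theorem continuous_cut {X : Type} [TopologicalSpace X] {ψ : ℂ → ℂ} {U : Set ℂ} (hU : IsOpen U)
    (hψ : Continuous ψ) (hs : tsupport ψ ⊆ U) {p : X → ℂ} (hp : Continuous p) {G : X → ℂ}
    (hG : ContinuousOn G (p ⁻¹' U)) : Continuous fun x => ψ (p x) * G x := by
  rw [continuous_iff_continuousAt]
  intro x
  by_cases hx : p x ∈ U
  · exact (hψ.comp hp).continuousAt.mul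
      (hG.continuousAt ((hU.preimage hp).mem_nhds hx))
  · have h1 : p x ∈ (tsupport ψ)ᶜ := fun h => hx (hs h)
    have h2 : ∀ᶠ y in 𝓝 x, ψ (p y) * G y = 0 := by
      filter_upwards [((isClosed_tsupport ψ).isOpen_compl.preimage hp).mem_nhds h1] with y hy
      have : ψ (p y) = 0 := image_eq_zero_of_notMem_tsupport hy
      rw [this, zero_mul]
    have h3 : ContinuousAt (fun _ : X => (0 : ℂ)) x := continuousAt_const
    exact h3.congr (h2.mono fun y hy => hy.symm)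

theorem continuous_ang {F : ℂ × ℝ → ℂ} (hF : Continuous F) :
    Continuous fun z : ℂ => ∫ θ, F (z, θ) ∂ang := by
  have h : (fun z : ℂ => ∫ θ, F (z, θ) ∂ang) =
      fun z : ℂ => (2 * Real.pi)⁻¹ • ∫ θ in (0 : ℝ)..(2 * Real.pi), F (z, θ) := by
    funext z
    exact ang_int _
  rw [h]
  have h2 : Continuous fun z : ℂ => ∫ θ in (0 : ℝ)..(2 * Real.pi), F (z, θ) :=
    intervalIntegral.continuous_parametric_intervalIntegral_of_continuous'
      (f := fun z θ => F (z, θ)) (by exact hF) _ _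
  exact h2.const_smul ((2 * Real.pi)⁻¹ : ℝ)

theorem ang_integrable {f : ℝ → ℂ} (hf : Continuous f) : Integrable f ang := by
  have hp : (0 : ℝ) < 2 * Real.pi := by positivity
  have h1 : IntegrableOn f (Set.Ioc 0 (2 * Real.pi)) volume := hf.integrableOn_Ioc
  unfold ang ProbabilityTheory.cond
  apply h1.smul_measure
  rw [Real.volume_Ioc, sub_zero]
  simp [Real.pi_pos]

theorem contDiffOn_iter {f : ℂ → ℂ} {U : Set ℂ} (hU : IsOpen U) (hf : ContDiffOn ℝ ∞ f U)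
    (a b : ℕ) : ContDiffOn ℝ ∞ (dz^[a] (dzb^[b] f)) U := by
  have h1 : ContDiffOn ℝ ∞ (dzb^[b] f) U := by
    induction b with
    | zero => exact hf
    | succ b ih =>
      rw [Function.iterate_succ_apply']
      exact contDiffOn_dzb hU ih
  induction a with
  | zero => exact h1
  | succ a ih =>
    rw [Function.iterate_succ_apply']
    exact contDiffOn_dz hU ih

theorem contOn_e1 {ρ : ℍ → ℝ} {U : Set ℂ} (hρ : ContinuousOn (fun w : ℂ => ρ (ofComplex w)) U) :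
    ContinuousOn (e1 ρ) U := by
  unfold e1
  exact Real.continuous_exp.comp_continuousOn hρ.neg

theorem contOn_bb {ρ : ℍ → ℝ} {U : Set ℂ} (hρ : ContinuousOn (fun w : ℂ => ρ (ofComplex w)) U) :
    ContinuousOn (bb ρ) U := by
  unfold bb
  exact Complex.continuous_im.continuousOn.mul (contOn_e1 hρ)

theorem fst_comp {Y : Type} [TopologicalSpace Y] {U : Set ℂ} {f : ℂ → Y} (hf : ContinuousOn f U) :
    ContinuousOn (fun p : ℂ × ℝ => f p.1) (Prod.fst ⁻¹' U) :=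
  hf.comp continuous_fst.continuousOn (fun _ h => h)

theorem contOn_kap {ρ : ℍ → ℝ} {U : Set ℂ}
    (hρ : ContinuousOn (fun w : ℂ => ρ (ofComplex w)) U) (k a i j : ℕ) :
    ContinuousOn (fun p : ℂ × ℝ => kap ρ k a i j p.1 p.2) (Prod.fst ⁻¹' U) := by
  have hu : ContinuousOn (fun p : ℂ × ℝ => uu p.2) (Prod.fst ⁻¹' U) :=
    (continuous_uu.comp continuous_snd).continuousOn
  have hs : ContinuousOn (fun p : ℂ × ℝ => ((Real.sin p.2 : ℝ) : ℂ)) (Prod.fst ⁻¹' U) :=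
    (Complex.continuous_ofReal.comp (Real.continuous_sin.comp continuous_snd)).continuousOn
  have hA : ContinuousOn (fun p : ℂ × ℝ => (bb ρ p.1 : ℂ) * uu p.2 ^ 2) (Prod.fst ⁻¹' U) :=
    (Complex.continuous_ofReal.comp_continuousOn (fst_comp (contOn_bb hρ))).mul (hu.pow 2)
  have hB : ContinuousOn (fun p : ℂ × ℝ => (e1 ρ p.1 : ℂ) * uu p.2 * ((Real.sin p.2 : ℝ) : ℂ))
      (Prod.fst ⁻¹' U) :=
    ((Complex.continuous_ofReal.comp_continuousOn (fst_comp (contOn_e1 hρ))).mul hu).mul hs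
  have hcA := Complex.continuous_conj.comp_continuousOn hA
  have hcB := Complex.continuous_conj.comp_continuousOn hB
  unfold kap
  exact (continuousOn_const.mul ((hA.pow i).mul (hB.pow (a - i)))).mul
    ((hcA.pow j).mul (hcB.pow (k - a - j)))

theorem contOn_JJ {ρ : ℍ → ℝ} {U : Set ℂ} (hρ : ContinuousOn (fun w : ℂ => ρ (ofComplex w)) U)
    (h : ℝ) {w : ℂ → ℕ → ℕ → ℂ} (hw : ∀ i j, ContinuousOn (fun z => w z i j) U) {k : ℕ}
    (v : Fin k → ℂ) :
    ContinuousOn (fun p : ℂ × ℝ => JJ ρ h (w p.1) v p.1 p.2) (Prod.fst ⁻¹' U) := by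
  unfold JJ
  refine continuousOn_finsetSum _ fun a _ => ?_
  refine continuousOn_const.mul ?_
  refine continuousOn_finsetSum _ fun i _ => ?_
  refine continuousOn_finsetSum _ fun j _ => ?_
  exact ((contOn_kap hρ k a i j).mul continuousOn_const).mul (fst_comp (hw i j))

theorem contOn_LL {ρ : ℍ → ℝ} {U : Set ℂ} (hρ : ContinuousOn (fun w : ℂ => ρ (ofComplex w)) U)
    {w : ℂ → ℕ → ℕ → ℂ} (hw : ∀ i j, ContinuousOn (fun z => w z i j) U) {k : ℕ}
    (v : Fin k → ℂ) :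
    ContinuousOn (fun p : ℂ × ℝ => LL ρ (w p.1) v p.1 p.2) (Prod.fst ⁻¹' U) := by
  unfold LL
  refine continuousOn_finsetSum _ fun a _ => ?_
  refine continuousOn_const.mul ?_
  exact (contOn_kap hρ k a a (k - a)).mul (fst_comp (hw a (k - a)))

/-! ### The two sides -/

theorem upper_open : IsOpen {w : ℂ | 0 < w.im} := isOpen_lt continuous_const Complex.continuous_im

theorem psi_zero {ψ : ℂ → ℝ} (hψU : tsupport ψ ⊆ {w | 0 < w.im}) {z : ℂ} (hz : ¬ 0 < z.im) :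
    ψ z = 0 := image_eq_zero_of_notMem_tsupport (fun h => hz (hψU h))

/-- the rescaled derivatives -/
def ww (φ : ℍ → ℝ) (h : ℝ) (z : ℂ) (i j : ℕ) : ℂ :=
  (h : ℂ) ^ (i + j) * dz^[i] (dzb^[j] (fun w : ℂ => (φ (ofComplex w) : ℂ))) z

theorem contOn_ww {φ : ℍ → ℝ} (hφ : ContDiffOn ℝ ∞ (fun w : ℂ => φ (ofComplex w)) {w | 0 < w.im})
    (h : ℝ) (i j : ℕ) : ContinuousOn (fun z => ww φ h z i j) {w | 0 < w.im} := by
  have h1 : ContDiffOn ℝ ∞ (fun w : ℂ => (φ (ofComplex w) : ℂ)) {w | 0 < w.im} :=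
    Complex.ofRealCLM.contDiff.comp_contDiffOn hφ
  unfold ww
  exact continuousOn_const.mul (contDiffOn_iter upper_open h1 i j).continuousOn

theorem left_eq (hWexp : StmtWexp) (ρ φ : ℍ → ℝ) (m : ℝ) (hm : 0 < m)
    (hφ : ContDiffOn ℝ ∞ (fun w : ℂ => φ (ofComplex w)) {w | 0 < w.im}) {r : ℕ} (k : Fin r → ℕ)
    (v : ∀ i, Fin (k i) → ℂ) {ψ : ℂ → ℝ} (hψU : tsupport ψ ⊆ {w | 0 < w.im}) :
    ((∫ z, ψ z * angJet ρ φ m k v (ofComplex z) : ℝ) : ℂ) =
      ∫ z : ℂ, ∫ θ, (ψ z : ℂ) * ∏ s, JJ ρ (1 / m) (ww φ (1 / m) z) (v s) z θ ∂ang := by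
  rw [← integral_complex_ofReal]
  congr 1
  funext z
  by_cases hz : 0 < z.im
  · rw [Complex.ofReal_mul]
    unfold angJet
    rw [← integral_complex_ofReal, ← integral_const_mul]
    congr 1
    funext θ
    unfold jetProd
    rw [Complex.ofReal_prod]
    congr 1
    apply Finset.prod_congr rfl
    intro s _
    exact wexp_eq hWexp ρ φ m hm hφ z hz θ (v s)
  · rw [psi_zero hψU hz]
    simp

theorem prod_zpow_sum {ι : Type} (S : Finset ι) {u : ℂ} (hu : u ≠ 0) (f : ι → ℤ) :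
    ∏ s ∈ S, u ^ (f s) = u ^ (∑ s ∈ S, f s) := by
  classical
  induction S using Finset.induction_on with
  | empty => simp
  | insert a S ha ih => rw [Finset.prod_insert ha, Finset.sum_insert ha, zpow_add₀ hu, ih]

theorem sqrt_inv (ρ : ℍ → ℝ) {z : ℂ} (hz : 0 < z.im) :
    (Real.sqrt (Real.exp (2 * ρ (ofComplex z)) / z.im ^ 2))⁻¹ = bb ρ z := by
  have h1 : Real.exp (2 * ρ (ofComplex z)) / z.im ^ 2 = (Real.exp (ρ (ofComplex z)) / z.im) ^ 2 := by
    rw [div_pow, ← Real.exp_nat_mul]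
    norm_num
  rw [h1, Real.sqrt_sq (by positivity)]
  unfold bb
  rw [inv_div, Real.exp_neg]
  field_simp

theorem LL_prod (ρ : ℍ → ℝ) (w : ℕ → ℕ → ℂ) {r : ℕ} (k : Fin r → ℕ) (v : ∀ i, Fin (k i) → ℂ)
    (z : ℂ) (θ : ℝ) : ∏ s, LL ρ w (v s) z θ =
      ∑ a ∈ Fintype.piFinset fun i => Finset.range (k i + 1),
        ((∏ i, sc (v i) (a i)) * ∏ i, ((bb ρ z : ℂ) ^ (k i) * w (a i) (k i - a i))) *
          uu θ ^ (2 * ∑ i, ((a i : ℤ) - (k i - a i : ℕ))) := by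
  unfold LL
  rw [Finset.prod_univ_sum]
  apply Finset.sum_congr rfl
  intro a ha
  rw [Fintype.mem_piFinset] at ha
  rw [Finset.mul_sum, ← prod_zpow_sum _ (uu_ne θ), ← Finset.prod_mul_distrib,
    ← Finset.prod_mul_distrib]
  apply Finset.prod_congr rfl
  intro i _
  have hi : a i ≤ k i := Nat.lt_succ_iff.mp (Finset.mem_range.mp (ha i))
  rw [kap_lead ρ hi z θ]
  ring

theorem ang_LL (ρ : ℍ → ℝ) (w : ℕ → ℕ → ℂ) {r : ℕ} (k : Fin r → ℕ) (v : ∀ i, Fin (k i) → ℂ)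
    (z : ℂ) (c : ℂ) : ∫ θ, c * ∏ s, LL ρ w (v s) z θ ∂ang =
      ∑ a ∈ Fintype.piFinset fun i => Finset.range (k i + 1),
        if ∑ i, ((a i : ℤ) - (k i - a i : ℕ)) = 0 then
          (∏ i, sc (v i) (a i)) * (c * ∏ i, ((bb ρ z : ℂ) ^ (k i) * w (a i) (k i - a i)))
        else 0 := by
  simp only [LL_prod]
  rw [integral_const_mul, integral_finsetSum _
    (fun a _ => (ang_integrable ((continuous_uu_zpow _).const_mul _ : Continuous _)))]
  rw [Finset.mul_sum]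
  apply Finset.sum_congr rfl
  intro a _
  rw [integral_const_mul, ang_zpow]
  by_cases h : ∑ i, ((a i : ℤ) - (k i - a i : ℕ)) = 0
  · rw [if_pos h, if_pos (by rw [h, mul_zero])]
    ring
  · rw [if_neg h, if_neg (by intro h2; apply h; omega)]
    ring

theorem tsupport_coe (ψ : ℂ → ℝ) : tsupport (fun z => (ψ z : ℂ)) ⊆ tsupport ψ := by
  apply closure_mono
  intro z hz
  rw [Function.mem_support] at hz ⊢
  intro h
  apply hz
  rw [h, Complex.ofReal_zero]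

theorem right_eq {ρ : ℍ → ℝ} (hρ : ContinuousOn (fun w : ℂ => ρ (ofComplex w)) {w | 0 < w.im})
    (φ : ℕ → ℍ → ℝ) (m : ℕ → ℝ)
    (hφ : ∀ n, ContDiffOn ℝ ∞ (fun w : ℂ => φ n (ofComplex w)) {w | 0 < w.im}) {r : ℕ}
    (k : Fin r → ℕ) (v : ∀ i, Fin (k i) → ℂ) {ψ : ℂ → ℝ} (hψ : Continuous ψ)
    (hψc : HasCompactSupport ψ) (hψU : tsupport ψ ⊆ {w | 0 < w.im}) (n : ℕ) :
    (∑ a ∈ Fintype.piFinset fun i => Finset.range (k i + 1),
      if ∑ i, ((a i : ℤ) - (k i - a i : ℕ)) = 0 then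
        (∏ i, sc (v i) (a i)) * ∫ z, (ψ z : ℂ) * ∏ i,
          Wg (fun z => Real.exp (2 * ρ (ofComplex z)) / z.im ^ 2) (fun n => 1 / m n)
            (fun n z => (φ n (ofComplex z) : ℂ)) (a i) (k i - a i) n z
      else 0) =
    ∫ z : ℂ, ∫ θ, (ψ z : ℂ) * ∏ s, LL ρ (ww (φ n) (1 / m n) z) (v s) z θ ∂ang := by
  have hψ' : Continuous fun z => (ψ z : ℂ) := Complex.continuous_ofReal.comp hψ
  have hψc' : HasCompactSupport fun z => (ψ z : ℂ) := hψc.comp_left Complex.ofReal_zero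
  have hs' : tsupport (fun z => (ψ z : ℂ)) ⊆ {w | 0 < w.im} := (tsupport_coe ψ).trans hψU
  have hint : ∀ a : Fin r → ℕ, Integrable fun z : ℂ => (ψ z : ℂ) *
      ∏ i, ((bb ρ z : ℂ) ^ (k i) * ww (φ n) (1 / m n) z (a i) (k i - a i)) := by
    intro a
    apply Continuous.integrable_of_hasCompactSupport
    · refine continuous_cut (p := fun z => z) upper_open hψ' hs' continuous_id ?_
      refine continuousOn_finsetProd _ fun i _ => ?_
      refine ContinuousOn.mul ?_ (contOn_ww (hφ n) _ _ _)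
      exact (Complex.continuous_ofReal.comp_continuousOn (contOn_bb hρ)).pow _
    · exact hψc'.mul_right
  simp only [ang_LL]
  rw [integral_finsetSum]
  · apply Finset.sum_congr rfl
    intro a ha
    rw [Fintype.mem_piFinset] at ha
    by_cases hc : ∑ i, ((a i : ℤ) - (k i - a i : ℕ)) = 0
    · simp only [if_pos hc]
      rw [integral_const_mul]
      congr 2
      funext z
      by_cases hz : 0 < z.im
      · congr 1
        apply Finset.prod_congr rfl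
        intro i _
        have hi : a i ≤ k i := Nat.lt_succ_iff.mp (Finset.mem_range.mp (ha i))
        unfold Wg
        beta_reduce
        rw [sqrt_inv ρ hz, Nat.add_sub_cancel' hi, Complex.ofReal_pow]
        rfl
      · rw [psi_zero hψU hz]
        simp
    · simp only [if_neg hc]
      simp
  · intro a _
    by_cases hc : ∑ i, ((a i : ℤ) - (k i - a i : ℕ)) = 0
    · simp only [if_pos hc]
      exact (hint a).const_mul _
    · simp only [if_neg hc]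
      exact integrable_zero _ _ _

theorem contOn_SS {U : Set ℂ} {w : ℂ → ℕ → ℕ → ℂ}
    (hw : ∀ i j, ContinuousOn (fun z => w z i j) U) (k : ℕ) :
    ContinuousOn (fun z => SS (w z) k) U := by
  unfold SS
  exact continuousOn_finsetSum _ fun p _ => (hw p.1 p.2).norm

theorem diff_bound {ρ : ℍ → ℝ} (hρ : ContinuousOn (fun w : ℂ => ρ (ofComplex w)) {w | 0 < w.im})
    {h : ℝ} (h0 : 0 ≤ h) (h1 : h ≤ 1) {w : ℂ → ℕ → ℕ → ℂ}
    (hw : ∀ i j, ContinuousOn (fun z => w z i j) {w : ℂ | 0 < w.im}) {r : ℕ} (k : Fin r → ℕ)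
    (v : ∀ i, Fin (k i) → ℂ) {ψ : ℂ → ℝ} (hψ : Continuous ψ) (hψc : HasCompactSupport ψ)
    (hψU : tsupport ψ ⊆ {w | 0 < w.im}) {B M : ℝ} (hb : ∀ z ∈ tsupport ψ, |bb ρ z| ≤ B)
    (he : ∀ z ∈ tsupport ψ, |e1 ρ z| ≤ B) (hM : ∀ z, |ψ z| ≤ M) :
    ‖(∫ z : ℂ, ∫ θ, (ψ z : ℂ) * ∏ s, JJ ρ h (w z) (v s) z θ ∂ang) -
        ∫ z : ℂ, ∫ θ, (ψ z : ℂ) * ∏ s, LL ρ (w z) (v s) z θ ∂ang‖ ≤
      M * r * (∏ s, CC (v s) B) * (h * ∫ z in tsupport ψ, ∏ s, SS (w z) (k s)) := by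
  have hψ' : Continuous fun z => (ψ z : ℂ) := Complex.continuous_ofReal.comp hψ
  have hs' : tsupport (fun z => (ψ z : ℂ)) ⊆ {w | 0 < w.im} := (tsupport_coe ψ).trans hψU
  have cJ : Continuous fun p : ℂ × ℝ => (ψ p.1 : ℂ) * ∏ s, JJ ρ h (w p.1) (v s) p.1 p.2 :=
    continuous_cut upper_open hψ' hs' continuous_fst
      (continuousOn_finsetProd _ fun s _ => contOn_JJ hρ h hw (v s))
  have cL : Continuous fun p : ℂ × ℝ => (ψ p.1 : ℂ) * ∏ s, LL ρ (w p.1) (v s) p.1 p.2 :=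
    continuous_cut upper_open hψ' hs' continuous_fst
      (continuousOn_finsetProd _ fun s _ => contOn_LL hρ hw (v s))
  have z0 : ∀ z ∉ tsupport ψ, (ψ z : ℂ) = 0 := fun z hz => by
    rw [image_eq_zero_of_notMem_tsupport hz, Complex.ofReal_zero]
  have hsupp : ∀ F : ℂ → ℝ → ℂ, HasCompactSupport fun z => ∫ θ, (ψ z : ℂ) * F z θ ∂ang := by
    intro F
    apply HasCompactSupport.intro hψc
    intro z hz
    simp only [z0 z hz, zero_mul, integral_zero]
  have iJ : Integrable fun z : ℂ => ∫ θ, (ψ z : ℂ) * ∏ s, JJ ρ h (w z) (v s) z θ ∂ang :=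
    (continuous_ang cJ).integrable_of_hasCompactSupport (hsupp _)
  have iL : Integrable fun z : ℂ => ∫ θ, (ψ z : ℂ) * ∏ s, LL ρ (w z) (v s) z θ ∂ang :=
    (continuous_ang cL).integrable_of_hasCompactSupport (hsupp _)
  rw [← integral_sub iJ iL]
  have hz0 : ∀ z ∉ tsupport ψ, (∫ θ, (ψ z : ℂ) * ∏ s, JJ ρ h (w z) (v s) z θ ∂ang) -
      (∫ θ, (ψ z : ℂ) * ∏ s, LL ρ (w z) (v s) z θ ∂ang) = 0 := by
    intro z hz
    simp only [z0 z hz, zero_mul, integral_zero, sub_zero]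
  rw [← setIntegral_eq_integral_of_forall_compl_eq_zero hz0]
  have hiS : IntegrableOn (fun z => ∏ s, SS (w z) (k s)) (tsupport ψ) :=
    ContinuousOn.integrableOn_compact hψc
      (continuousOn_finsetProd _ fun s _ => (contOn_SS hw (k s)).mono hψU)
  have hfin : M * r * (∏ s, CC (v s) B) * (h * ∫ z in tsupport ψ, ∏ s, SS (w z) (k s)) =
      ∫ z in tsupport ψ, (M * r * (∏ s, CC (v s) B) * h) * ∏ s, SS (w z) (k s) := by
    rw [integral_const_mul]
    ring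
  rw [hfin]
  refine norm_integral_le_of_norm_le (hiS.const_mul _) ?_
  refine (ae_restrict_iff' (isClosed_tsupport ψ).measurableSet).mpr (Eventually.of_forall ?_)
  intro z hz
  have cJz : Continuous fun θ => (ψ z : ℂ) * ∏ s, JJ ρ h (w z) (v s) z θ :=
    cJ.comp (Continuous.prodMk_right z)
  have cLz : Continuous fun θ => (ψ z : ℂ) * ∏ s, LL ρ (w z) (v s) z θ :=
    cL.comp (Continuous.prodMk_right z)
  rw [← integral_sub (ang_integrable cJz) (ang_integrable cLz)]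
  have hpt : ∀ θ, ‖(ψ z : ℂ) * ∏ s, JJ ρ h (w z) (v s) z θ -
      (ψ z : ℂ) * ∏ s, LL ρ (w z) (v s) z θ‖ ≤
      (M * r * (∏ s, CC (v s) B) * h) * ∏ s, SS (w z) (k s) := by
    intro θ
    rw [← mul_sub, norm_mul]
    have e : ∏ s, JJ ρ h (w z) (v s) z θ =
        ∏ s, (LL ρ (w z) (v s) z θ + h * RM ρ h (w z) (v s) z θ) :=
      Finset.prod_congr rfl fun s _ => JJ_eq ρ h (w z) (v s) z θ
    rw [e]
    have h3 := prod_diff Finset.univ (fun s => LL ρ (w z) (v s) z θ)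
      (fun s => RM ρ h (w z) (v s) z θ) (fun s => CC (v s) B * SS (w z) (k s)) h0 h1
      (fun s _ => norm_LR_le (v s) h0 h1 (hb z hz) (he z hz) θ)
    rw [Finset.card_univ, Fintype.card_fin, Finset.prod_mul_distrib] at h3
    have h4 : ‖(ψ z : ℂ)‖ ≤ M := by
      rw [Complex.norm_real, Real.norm_eq_abs]
      exact hM z
    calc ‖(ψ z : ℂ)‖ * ‖∏ s, (LL ρ (w z) (v s) z θ + h * RM ρ h (w z) (v s) z θ) -
          ∏ s, LL ρ (w z) (v s) z θ‖
        ≤ M * (h * r * ((∏ s, CC (v s) B) * ∏ s, SS (w z) (k s))) :=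
          mul_le_mul h4 h3 (norm_nonneg _) ((norm_nonneg _).trans h4)
      _ = _ := by ring
  have h5 := norm_integral_le_of_norm_le_const (μ := ang) (Eventually.of_forall hpt)
  rw [probReal_univ, mul_one] at h5
  exact h5

theorem prod_SS (w : ℕ → ℕ → ℂ) {r : ℕ} (k : Fin r → ℕ) : ∏ s, SS w (k s) =
    ∑ P ∈ Fintype.piFinset fun s => Finset.range (k s + 1) ×ˢ Finset.range (k s + 1),
      ‖∏ s, w (P s).1 (P s).2‖ := by
  unfold SS
  rw [Finset.prod_univ_sum]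
  apply Finset.sum_congr rfl
  intro P _
  rw [norm_prod]

end MAIN

open _root_.U3.MAIN in
theorem stmtMainU (hWexp : StmtWexp) (hLWE : StmtLweU) : StmtMainU := by
  intro ρ φ m hρ hm hφ hQE r k v hr ψ hψ hψc hψU
  have hρc := hρ.continuousOn
  -- the two sides
  have hsides : ∀ n, ((∫ z, ψ z * angJet ρ (φ n) (m n) k v (ofComplex z) : ℝ) : ℂ)
        - (∑ a ∈ Fintype.piFinset fun i => Finset.range (k i + 1),
          if ∑ i, ((a i : ℤ) - (k i - a i : ℕ)) = 0 then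
            (∏ i, sc (v i) (a i)) * ∫ z, (ψ z : ℂ) * ∏ i,
              Wg (fun z => Real.exp (2 * ρ (ofComplex z)) / z.im ^ 2) (fun n => 1 / m n)
                (fun n z => (φ n (ofComplex z) : ℂ)) (a i) (k i - a i) n z
          else 0) =
      (∫ z : ℂ, ∫ θ, (ψ z : ℂ) * ∏ s, JJ ρ (1 / m n) (ww (φ n) (1 / m n) z) (v s) z θ ∂ang) -
        ∫ z : ℂ, ∫ θ, (ψ z : ℂ) * ∏ s, LL ρ (ww (φ n) (1 / m n) z) (v s) z θ ∂ang := by
    intro n
    rw [left_eq hWexp ρ (φ n) (m n) (hm n) (hφ n) k v hψU,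
      right_eq hρc φ m hφ k v hψ.continuous hψc hψU n]
  simp only [hsides]
  -- bounds
  obtain ⟨B1, hB1⟩ := hψc.isCompact.exists_bound_of_continuousOn ((contOn_bb hρc).mono hψU)
  obtain ⟨B2, hB2⟩ := hψc.isCompact.exists_bound_of_continuousOn ((contOn_e1 hρc).mono hψU)
  obtain ⟨M, hM⟩ := hψc.exists_bound_of_continuous hψ.continuous
  have hlim : Tendsto (fun n => 1 / m n) atTop (𝓝 0) := hQE.hlim
  have hev : ∀ᶠ n in atTop, 1 / m n ≤ 1 := hlim.eventually_le_const one_pos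
  have hg : ContDiffOn ℝ ∞ (fun z : ℂ => Real.exp (2 * ρ (ofComplex z)) / z.im ^ 2)
      {z | 0 < z.im} := by
    apply ContDiffOn.div
    · exact Real.contDiff_exp.comp_contDiffOn (contDiffOn_const.mul hρ)
    · exact (Complex.imCLM.contDiff.pow 2).contDiffOn
    · intro z hz
      exact pow_ne_zero 2 (ne_of_gt hz)
  have hE : ∀ P : Fin r → ℕ × ℕ, Tendsto (fun n => 1 / m n *
      ∫ z in tsupport ψ, ‖∏ s, ww (φ n) (1 / m n) z (P s).1 (P s).2‖) atTop (𝓝 0) := by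
    intro P
    exact hLWE {z | 0 < z.im} _ (fun n => 1 / m n) (fun n z => (φ n (ofComplex z) : ℂ)) upper_open
      hg (fun z hz => div_pos (Real.exp_pos _) (pow_pos hz 2)) hQE (tsupport ψ) hψc hψU r
      (fun s => (P s).1) (fun s => (P s).2) hr
  have hsum : Tendsto (fun n => 1 / m n * ∫ z in tsupport ψ, ∏ s, SS (ww (φ n) (1 / m n) z) (k s))
      atTop (𝓝 0) := by
    have h1 := tendsto_finsetSum
      (Fintype.piFinset fun s => Finset.range (k s + 1) ×ˢ Finset.range (k s + 1))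
      (fun P _ => hE P)
    rw [Finset.sum_const_zero] at h1
    refine h1.congr fun n => ?_
    rw [← Finset.mul_sum]
    congr 1
    simp only [prod_SS]
    rw [integral_finsetSum]
    intro P _
    apply ContinuousOn.integrableOn_compact hψc
    refine ContinuousOn.norm ?_
    exact continuousOn_finsetProd _ fun s _ => (contOn_ww (hφ n) _ _ _).mono hψU
  have hlast := hsum.const_mul (M * r * ∏ s, CC (v s) (max B1 B2))
  rw [mul_zero] at hlast
  refine squeeze_zero_norm' ?_ hlast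
  filter_upwards [hev] with n hn
  exact diff_bound hρc (one_div_pos.mpr (hm n)).le hn (contOn_ww (hφ n) _) k v hψ.continuous hψc
    hψU (fun z hz => (hB1 z hz).trans (le_max_left _ _))
    (fun z hz => (hB2 z hz).trans (le_max_right _ _)) hM

end

end U3


end

section

/-!
FNU: all the moments of order at most three of the local waves, for all eigenfunctions.
-/

open MeasureTheory Filter Topology Set UpperHalfPlane MatrixGroups
open scoped ContDiff

namespace U3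

open QE QJ

noncomputable section

namespace FNU

variable {Γ : Subgroup SL(2, ℝ)} {ρ : ℍ → ℝ} {D : Set ℍ} {φ : ℕ → ℍ → ℝ} {m : ℕ → ℝ}

/-- the average of `w F` over points and frames -/
lemma fub [Countable Γ] (hg : Berry.Geo Γ ρ D)
    (hK : ∃ K : Set ℍ, IsCompact K ∧ ∀ z, ∃ γ ∈ Γ, γ • z ∈ K) {ζ : ℂ → ℝ}
    (hζ : ∀ f : ℍ → ℝ, Continuous f → (∀ γ ∈ Γ, ∀ z, f (γ • z) = f z) →
        Berry.rAvg ρ D f = ∫ w, ζ w * f (ofComplex w)) {w : ℍ → ℝ} (hw : Continuous w)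
    (hwi : ∀ γ ∈ Γ, ∀ z, w (γ • z) = w z) {F : ℍ × ℝ → ℝ} (hF : Continuous F) {C : ℝ}
    (hC : ∀ p, ‖F p‖ ≤ C) (hG : Continuous fun z => ∫ θ, F (z, θ) ∂angle)
    (hGi : ∀ γ ∈ Γ, ∀ z, (∫ θ, F (γ • z, θ) ∂angle) = ∫ θ, F (z, θ) ∂angle) :
    ∫ z, (ζ z * w (ofComplex z)) * (∫ θ, F (ofComplex z, θ) ∂angle)
      = ∫ p, w p.1 * F p ∂(Berry.rFrameProb ρ D) := by
  have hcond : IsProbabilityMeasure (ProbabilityTheory.cond (Berry.area ρ) D) :=
    ProbabilityTheory.cond_isProbabilityMeasure_of_finite (Berry.area_ne_zero hg)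
      (Berry.area_ne_top hg)
  have hprob : IsProbabilityMeasure (Berry.rFrameProb ρ D) := Berry.rFrameProb_isProb hg
  have hang := Berry.angle_prob
  obtain ⟨C', hC'⟩ := Berry.bdd_of_cocompact hw hwi hK
  have hint : Integrable (fun p : ℍ × ℝ => w p.1 * F p) (Berry.rFrameProb ρ D) := by
    refine Integrable.of_bound ((hw.comp continuous_fst).mul hF).aestronglyMeasurable
      (|C'| * |C|) (Eventually.of_forall fun p => ?_)
    rw [norm_mul]
    refine mul_le_mul ?_ ((hC p).trans (le_abs_self _)) (norm_nonneg _) (abs_nonneg _)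
    rw [Real.norm_eq_abs]
    exact (hC' _).trans (le_abs_self _)
  have e1 : ∫ p, w p.1 * F p ∂(Berry.rFrameProb ρ D)
      = Berry.rAvg ρ D (fun z => w z * ∫ θ, F (z, θ) ∂angle) := by
    unfold Berry.rFrameProb at hint ⊢
    rw [integral_prod _ hint]
    unfold Berry.rAvg
    refine integral_congr_ae (Eventually.of_forall fun z => ?_)
    simp only
    rw [integral_const_mul]
  rw [e1, hζ (fun z => w z * ∫ θ, F (z, θ) ∂angle) (hw.mul hG)
    fun γ hγ z => by rw [hwi γ hγ, hGi γ hγ]]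
  refine integral_congr_ae (Eventually.of_forall fun z => ?_)
  simp only
  ring

lemma keyP [Countable Γ] (hg : Berry.Geo Γ ρ D)
    (hK : ∃ K : Set ℍ, IsCompact K ∧ ∀ z, ∃ γ ∈ Γ, γ • z ∈ K) (hρc : Continuous ρ)
    (hpc : ∀ n, Continuous (φ n)) (hφ : Berry.REigenSeq Γ ρ φ m) {ζ : ℂ → ℝ}
    (hζ : ∀ f : ℍ → ℝ, Continuous f → (∀ γ ∈ Γ, ∀ z, f (γ • z) = f z) →
        Berry.rAvg ρ D f = ∫ w, ζ w * f (ofComplex w)) {w : ℍ → ℝ} (hw : Continuous w)
    (hwi : ∀ γ ∈ Γ, ∀ z, w (γ • z) = w z) {k : ℕ} (x : Fin k → ℂ) :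
    ∀ᶠ n in atTop, ∫ z, (ζ z * w (ofComplex z)) * angProd ρ (φ n) (m n) x (ofComplex z)
      = ∫ p, w p.1 * ∏ i, Berry.rWave ρ (φ n) (m n) (x i) p ∂(Berry.rFrameProb ρ D) := by
  filter_upwards [QJ.FINP.pt hg hφ.tendsto x] with n hn
  obtain ⟨hm0, hn⟩ := hn
  obtain ⟨C₂, hC₂⟩ := Berry.bdd_of_cocompact (hpc n) (hφ.invariant n) hK
  have hcw : ∀ i, Continuous (Berry.rWave ρ (φ n) (m n) (x i)) := fun i =>
    rWave_continuous (hpc n) hρc (hn i) hm0.ne'
  refine fub hg hK hζ hw hwi (F := fun p => ∏ i, Berry.rWave ρ (φ n) (m n) (x i) p)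
    (C := ∏ _i : Fin k, |C₂|) (continuous_finsetProd _ fun i _ => hcw i) (fun p => ?_)
    (angProd_continuous (hpc n) hρc hn hm0.ne') (angProd_inv (hφ.invariant n) hg.inv (m n) x)
  rw [norm_prod]
  refine Finset.prod_le_prod (fun _ _ => norm_nonneg _) fun i _ => ?_
  rw [Real.norm_eq_abs]
  exact (hC₂ _).trans (le_abs_self _)

lemma keyJ [Countable Γ] (hInvg : StmtInvg) (hg : Berry.Geo Γ ρ D)
    (hK : ∃ K : Set ℍ, IsCompact K ∧ ∀ z, ∃ γ ∈ Γ, γ • z ∈ K) (hρc : Continuous ρ)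
    (hφ : Berry.REigenSeq Γ ρ φ m)
    (hs : ∀ n, ContDiffOn ℝ ∞ (fun w : ℂ => φ n (ofComplex w)) {w | 0 < w.im}) {ζ : ℂ → ℝ}
    (hζ : ∀ f : ℍ → ℝ, Continuous f → (∀ γ ∈ Γ, ∀ z, f (γ • z) = f z) →
        Berry.rAvg ρ D f = ∫ w, ζ w * f (ofComplex w)) {w : ℍ → ℝ} (hw : Continuous w)
    (hwi : ∀ γ ∈ Γ, ∀ z, w (γ • z) = w z) (r : ℕ) (k : Fin r → ℕ) (v : ∀ i, Fin (k i) → ℂ) :
    ∀ᶠ n in atTop, ∫ z, (ζ z * w (ofComplex z)) * angJet ρ (φ n) (m n) k v (ofComplex z)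
      = ∫ p, w p.1 * jetProd k v (fun x => Berry.rWave ρ (φ n) (m n) x p)
        ∂(Berry.rFrameProb ρ D) := by
  filter_upwards [hφ.tendsto.eventually_gt_atTop 0] with n hn
  obtain ⟨hc, hc', hi⟩ := hInvg Γ ρ (φ n) (m n) hn hρc hg.inv (hφ.invariant n) (hs n) r k v
  obtain ⟨C, hC⟩ := QJ.FUB.bounded (hφ.invariant n) hg.inv hK (m n) k v hc
  exact fub hg hK hζ hw hwi hc hC hc' hi

/-- the weighted test function -/
lemma test_mul {ζ : ℂ → ℝ} (h1 : ContDiff ℝ ∞ ζ) (h2 : HasCompactSupport ζ)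
    (h3 : tsupport ζ ⊆ {w | 0 < w.im}) {f : ℂ → ℝ} (hf : ContDiffOn ℝ ∞ f {z | 0 < z.im}) :
    ContDiff ℝ ∞ (fun z => ζ z * f z) ∧ HasCompactSupport (fun z => ζ z * f z) ∧
      tsupport (fun z => ζ z * f z) ⊆ {w | 0 < w.im} := by
  have hsub : tsupport (fun z => ζ z * f z) ⊆ tsupport ζ := closure_mono fun z hz => by
    simp only [Function.mem_support] at hz ⊢
    exact left_ne_zero_of_mul hz
  have ho : IsOpen {w : ℂ | 0 < w.im} := isOpen_lt continuous_const Complex.continuous_im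
  refine ⟨?_, h2.mul_right, hsub.trans h3⟩
  rw [contDiff_iff_contDiffAt]
  intro z
  by_cases hz : z ∈ tsupport ζ
  · exact h1.contDiffAt.mul (hf.contDiffAt (ho.mem_nhds (h3 hz)))
  · have h4 : (fun z => ζ z * f z) =ᶠ[𝓝 z] fun _ => 0 := by
      filter_upwards [(isClosed_tsupport ζ).isOpen_compl.mem_nhds hz] with y hy
      rw [image_eq_zero_of_notMem_tsupport hy, zero_mul]
    exact (contDiffAt_const (c := (0 : ℝ))).congr_of_eventuallyEq h4

end FNU

open _root_.U3.FNU in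
/-- FNU -/
theorem stmtFnU (hSrf : StmtSrf) (hE3g : StmtE3g) (hTest : QJ.StmtTest) (hPtsU : StmtPtsU)
    (hLogU : StmtLogU) (hInvg : QJ.StmtInvg) (hFub : QJ.StmtFub) : StmtFnU := by
  have _ := hFub
  intro Γ _ D ρ φ m hDm hD hK hρ hρΓ hneg hφ hs hq w hws hwi
  have hρc : Continuous ρ := QJ.FINP.continuous_of_smooth hρ
  have hwc : Continuous w := QJ.FINP.continuous_of_smooth hws
  have hpc : ∀ n, Continuous (φ n) := fun n => QJ.FINP.continuous_of_smooth (hs n)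
  have hgeo : Berry.Geo Γ ρ D := (Berry.surf_of_cocompact hD hDm hK hρc hρΓ hφ).geo
  obtain ⟨N, hmN, hloc⟩ := hSrf Γ D ρ φ m hDm hD hK hρ hρΓ hφ hs hq
  have hfac : QE.NC.Fac Γ ρ := ⟨hρ, hρΓ, hK⟩
  have hE : E3V {z | 0 < z.im} (fun z => Real.exp (2 * ρ (ofComplex z)) / z.im ^ 2)
      (fun n => 1 / m (n + N)) (fun n z => (φ (n + N) (ofComplex z) : ℂ)) :=
    hE3g Γ ρ _ _ hfac hneg hloc
  obtain ⟨ζ, hζ1, hζ2, hζ3, -, hζ⟩ := hTest Γ ρ D hgeo hρ hK
  obtain ⟨t1, t2, t3⟩ := test_mul hζ1 hζ2 hζ3 hws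
  obtain ⟨p1, p2, p3⟩ := hPtsU ρ (fun n => φ (n + N)) (fun n => m (n + N)) hρ hmN
    (fun n => hs (n + N)) hloc hE _ t1 t2 t3
  obtain ⟨q1, q2, q3, -⟩ := hLogU ρ (fun n => φ (n + N)) (fun n => m (n + N)) hρ hmN
    (fun n => hs (n + N)) hloc hE _ t1 t2 t3
  have hmass : ∀ n, ∫ z, (ζ z * w (ofComplex z)) * φ n (ofComplex z) ^ 2
      = Berry.rAvg ρ D (fun z => w z * φ n z ^ 2) := by
    intro n
    rw [hζ (fun z => w z * φ n z ^ 2) (hwc.mul ((hpc n).pow 2))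
      fun γ hγ z => by rw [hwi γ hγ, hφ.invariant n γ hγ]]
    refine integral_congr_ae (Eventually.of_forall fun z => ?_)
    simp only
    ring
  have kP : ∀ {k : ℕ} (x : Fin k → ℂ), ∀ᶠ n in atTop,
      ∫ z, (ζ z * w (ofComplex z)) * angProd ρ (φ (n + N)) (m (n + N)) x (ofComplex z)
      = ∫ p, w p.1 * ∏ i, Berry.rWave ρ (φ (n + N)) (m (n + N)) (x i) p
        ∂(Berry.rFrameProb ρ D) := fun x =>
    (tendsto_add_atTop_nat N).eventually (keyP hgeo hK hρc hpc hφ hζ hwc hwi x)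
  have kJ : ∀ (r : ℕ) (k : Fin r → ℕ) (v : ∀ i, Fin (k i) → ℂ), ∀ᶠ n in atTop,
      ∫ z, (ζ z * w (ofComplex z)) * angJet ρ (φ (n + N)) (m (n + N)) k v (ofComplex z)
      = ∫ p, w p.1 * jetProd k v (fun x => Berry.rWave ρ (φ (n + N)) (m (n + N)) x p)
        ∂(Berry.rFrameProb ρ D) := fun r k v =>
    (tendsto_add_atTop_nat N).eventually (keyJ hInvg hgeo hK hρc hφ hs hζ hwc hwi r k v)
  refine ⟨fun x => ?_, fun x y => ?_, fun x y z => ?_, fun k v => ?_, fun k v => ?_,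
    fun k v => ?_⟩
  · refine (tendsto_add_atTop_iff_nat N).1 ((p1 ![x]).congr' ?_)
    filter_upwards [kP ![x]] with n hn
    rw [hn]
    simp only [Fin.prod_univ_succ, Finset.univ_eq_empty, Finset.prod_empty, mul_one,
      Matrix.cons_val_zero]
  · refine (tendsto_add_atTop_iff_nat N).1 ((p2 ![x, y]).congr' ?_)
    filter_upwards [kP ![x, y]] with n hn
    rw [hn, hmass]
    simp only [Fin.prod_univ_two, Matrix.cons_val_zero, Matrix.cons_val_one]
  · refine (tendsto_add_atTop_iff_nat N).1 ((p3 ![x, y, z]).congr' ?_)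
    filter_upwards [kP ![x, y, z]] with n hn
    rw [hn]
    simp only [Fin.prod_univ_three, Matrix.cons_val_zero, Matrix.cons_val_one,
      Matrix.cons_val_two, Matrix.tail_cons, Matrix.head_cons]
  · refine (tendsto_add_atTop_iff_nat N).1 ((q1 k v).congr' ?_)
    filter_upwards [kJ 1 k v] with n hn
    rw [hn]
  · refine (tendsto_add_atTop_iff_nat N).1 ((q2 k v).congr' ?_)
    filter_upwards [kJ 2 k v] with n hn
    rw [hn, hmass]
  · refine (tendsto_add_atTop_iff_nat N).1 ((q3 k v).congr' ?_)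
    filter_upwards [kJ 3 k v] with n hn
    rw [hn]

end

end U3


end
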