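import Mathlib
import Pool.Agent.BWM.C22
import Pool.Agent.BWM.C23

/-! Parts: U3.NUC, QJ.TPA, QJ.TPB, U3.TPC -/

section

/-!
Third order statistics of all eigenfunctions on surfaces of negative curvature: apart from
countably many geodesics, the pairs which cross at 120 degrees are negligible.
-/

open MeasureTheory Filter Topology Set
open UpperHalfPlane hiding I
open scoped ContDiff MatrixGroups ENNReal

namespace U3

open QE QE.NC QJ

noncomputable section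

namespace NUC

/-- greedy choice of a maximal independent finite set -/
theorem greedy {α : Type*} (A : Set α) (R : α → α → Prop) (N : ℕ)
    (h : ∀ t : Finset α, (↑t : Set α) ⊆ A → (∀ a ∈ t, ∀ b ∈ t, a ≠ b → ¬ R a b) → t.card ≤ N)
    (hs : ∀ a b, R a b → R b a) :
    ∃ t : Finset α, (↑t : Set α) ⊆ A ∧ ∀ v ∈ A, ∃ w ∈ t, v = w ∨ R w v := by
  classical
  set P : ℕ → Prop := fun n => ∃ t : Finset α, (↑t : Set α) ⊆ A ∧
    (∀ a ∈ t, ∀ b ∈ t, a ≠ b → ¬ R a b) ∧ t.card = n with hP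
  have hP0 : P 0 := ⟨∅, by simp, by simp, by simp⟩
  obtain ⟨t, ht1, ht2, ht3⟩ : P (Nat.findGreatest P N) := Nat.findGreatest_spec (Nat.zero_le N) hP0
  refine ⟨t, ht1, ?_⟩
  intro v hv
  by_contra hc
  push Not at hc
  have hvt : v ∉ t := fun hvt => (hc v hvt).1 rfl
  have hP1 : P (t.card + 1) := by
    refine ⟨insert v t, ?_, ?_, Finset.card_insert_of_notMem hvt⟩
    · intro x hx
      rw [Finset.coe_insert] at hx
      rcases hx with rfl | hx
      · exact hv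
      · exact ht1 hx
    · intro a ha b hb hab
      rcases Finset.mem_insert.1 ha with rfl | ha'
      · rcases Finset.mem_insert.1 hb with rfl | hb'
        · exact absurd rfl hab
        · exact fun hR => (hc b hb').2 (hs _ _ hR)
      · rcases Finset.mem_insert.1 hb with rfl | hb'
        · exact (hc a ha').2
        · exact ht2 a ha' b hb' hab
  have h1 : t.card + 1 ≤ N := by
    obtain ⟨t', h1', h2', h3'⟩ := hP1
    rw [← h3']
    exact h t' h1' h2'
  have h2 := Nat.le_findGreatest h1 hP1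
  omega

theorem exists_N (e M : ℝ≥0∞) (he : e ≠ 0) (hM : M ≠ ⊤) :
    ∃ N : ℕ, ∀ c : ℕ, (c : ℝ≥0∞) * e ≤ M → c ≤ N := by
  obtain ⟨N, hN⟩ := ENNReal.exists_nat_gt (ENNReal.div_ne_top hM he)
  refine ⟨N, fun c hc => ?_⟩
  have h1 : (c : ℝ≥0∞) ≤ M / e := (ENNReal.le_div_iff_mul_le (Or.inl he) (Or.inr hM)).2 hc
  have h2 : (c : ℝ≥0∞) < N := h1.trans_lt hN
  exact_mod_cast h2.le

variable {ρ : ℍ → ℝ} {Φ : ℝ → SL(2, ℝ) → SL(2, ℝ)}

theorem cont_s (hΦ : GFlow ρ Φ) (v : SL(2, ℝ)) : Continuous fun s => Φ s v :=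
  hΦ.cont.comp (continuous_id.prodMk continuous_const)

theorem cont_neg : Continuous fun g : SL(2, ℝ) => -g := by
  have h : (fun g : SL(2, ℝ) => -g) = fun g => (-1) * g := by
    funext g
    rw [neg_mul, one_mul]
  rw [h]
  exact continuous_const.mul continuous_id

theorem Sg_compact (hΦ : GFlow ρ Φ) (S : ℝ) (v : SL(2, ℝ)) : IsCompact (Sg Φ S v) := by
  have h : Sg Φ S v = (fun s => Φ s v) '' Icc (-S) S ∪ (fun s => -Φ s v) '' Icc (-S) S := by
    ext w
    constructor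
    · rintro ⟨s, hs, rfl | rfl⟩
      · exact Or.inl ⟨s, hs, rfl⟩
      · exact Or.inr ⟨s, hs, rfl⟩
    · rintro (⟨s, hs, rfl⟩ | ⟨s, hs, rfl⟩)
      · exact ⟨s, hs, Or.inl rfl⟩
      · exact ⟨s, hs, Or.inr rfl⟩
  rw [h]
  exact (isCompact_Icc.image (cont_s hΦ v)).union
    (isCompact_Icc.image (cont_neg.comp (cont_s hΦ v)))

theorem flow_inv (hΦ : GFlow ρ Φ) (s : ℝ) (v : SL(2, ℝ)) : Φ (-s) (Φ s v) = v := by
  rw [← hΦ.add, neg_add_cancel, hΦ.zero]

theorem Sg_self (hΦ : GFlow ρ Φ) {S : ℝ} (hS : 0 ≤ S) (v : SL(2, ℝ)) : v ∈ Sg Φ S v :=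
  ⟨0, ⟨by linarith, hS⟩, Or.inl (hΦ.zero v).symm⟩

theorem Sg_symm (hΦ : GFlow ρ Φ) {S : ℝ} {v w : SL(2, ℝ)} (h : w ∈ Sg Φ S v) : v ∈ Sg Φ S w := by
  obtain ⟨s, hs, h | h⟩ := h
  · exact ⟨-s, ⟨by linarith [hs.2], by linarith [hs.1]⟩, Or.inl (by rw [h, flow_inv hΦ])⟩
  · refine ⟨-s, ⟨by linarith [hs.2], by linarith [hs.1]⟩, Or.inr ?_⟩
    rw [h, hΦ.neg, flow_inv hΦ, neg_neg]

theorem Sg_trans (hΦ : GFlow ρ Φ) {S S' : ℝ} {v w u : SL(2, ℝ)} (h : w ∈ Sg Φ S v)
    (h' : u ∈ Sg Φ S' w) : u ∈ Sg Φ (S + S') v := by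
  obtain ⟨s, hs, h⟩ := h
  obtain ⟨s', hs', h'⟩ := h'
  refine ⟨s' + s, ⟨by linarith [hs.1, hs'.1], by linarith [hs.2, hs'.2]⟩, ?_⟩
  rw [hΦ.add]
  rcases h with rfl | rfl <;> rcases h' with rfl | rfl
  · exact Or.inl rfl
  · exact Or.inr rfl
  · exact Or.inr (hΦ.neg _ _)
  · left
    rw [hΦ.neg, neg_neg]

theorem Sg_mono {S S' : ℝ} (h : S ≤ S') (v : SL(2, ℝ)) : Sg Φ S v ⊆ Sg Φ S' v := by
  rintro w ⟨s, hs, hw⟩
  exact ⟨s, ⟨by linarith [hs.1], by linarith [hs.2]⟩, hw⟩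

/-- a compact set which contains both components of the crossing pairs -/
def K0 (Φ : ℝ → SL(2, ℝ) → SL(2, ℝ)) (T : ℝ) (F : Set ℂ) : Set SL(2, ℝ) :=
  (fun p : ℝ × SL(2, ℝ) => Φ (-p.1) p.2) '' (Icc 0 T ×ˢ (pG ⁻¹' F))

theorem K0_compact (hRot : StmtRot) (hΦ : GFlow ρ Φ) (T : ℝ) {F : Set ℂ} (hF : IsCompact F)
    (hFU : F ⊆ UH) : IsCompact (K0 Φ T F) :=
  (isCompact_Icc.prod (hRot.2.2.2.2.2.2.2 F hF hFU)).image
    (hΦ.cont.comp (continuous_fst.neg.prodMk continuous_snd))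

theorem Cc_sub (hΦ : GFlow ρ Φ) (T : ℝ) (F : Set ℂ) :
    Cc Φ T 0 F ⊆ K0 Φ T F ×ˢ K0 Φ T F := by
  rintro x ⟨s, hs, t, ht, h1, h2, -⟩
  exact ⟨⟨(s, Φ s x.1), ⟨hs, h1⟩, flow_inv hΦ s x.1⟩,
    ⟨(t, Φ t x.2), ⟨ht, by rw [h2] at h1; exact h1⟩, flow_inv hΦ t x.2⟩⟩

theorem Cc_compact (hRot : StmtRot) (hΦ : GFlow ρ Φ) (T : ℝ) {F : Set ℂ} (hF : IsCompact F)
    (hFU : F ⊆ UH) : IsCompact (Cc Φ T 0 F) := by
  have hK := K0_compact hRot hΦ T hF hFU
  set Z : Set ((ℝ × ℝ) × (SL(2, ℝ) × SL(2, ℝ))) :=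
    ((Icc 0 T ×ˢ Icc 0 T) ×ˢ (K0 Φ T F ×ˢ K0 Φ T F)) ∩
    {z | pG (Φ z.1.1 z.2.1) ∈ F ∧ pG (Φ z.1.1 z.2.1) = pG (Φ z.1.2 z.2.2) ∧
      ‖w3 * uG (Φ z.1.1 z.2.1) - uG (Φ z.1.2 z.2.2)‖ ≤ 0} with hZ
  have c1 : Continuous fun z : (ℝ × ℝ) × (SL(2, ℝ) × SL(2, ℝ)) => Φ z.1.1 z.2.1 :=
    hΦ.cont.comp ((continuous_fst.comp continuous_fst).prodMk (continuous_fst.comp continuous_snd))
  have c2 : Continuous fun z : (ℝ × ℝ) × (SL(2, ℝ) × SL(2, ℝ)) => Φ z.1.2 z.2.2 :=
    hΦ.cont.comp ((continuous_snd.comp continuous_fst).prodMk (continuous_snd.comp continuous_snd))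
  have hcl : IsClosed {z : (ℝ × ℝ) × (SL(2, ℝ) × SL(2, ℝ)) | pG (Φ z.1.1 z.2.1) ∈ F ∧
      pG (Φ z.1.1 z.2.1) = pG (Φ z.1.2 z.2.2) ∧
      ‖w3 * uG (Φ z.1.1 z.2.1) - uG (Φ z.1.2 z.2.2)‖ ≤ 0} := by
    refine (hF.isClosed.preimage (hRot.1.comp c1)).inter (IsClosed.inter ?_ ?_)
    · exact isClosed_eq (hRot.1.comp c1) (hRot.1.comp c2)
    · exact isClosed_le (((continuous_const.mul (hRot.2.1.comp c1)).sub
        (hRot.2.1.comp c2)).norm) continuous_const
  have hZc : IsCompact Z :=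
    ((isCompact_Icc.prod isCompact_Icc).prod (hK.prod hK)).inter_right hcl
  have himg : Cc Φ T 0 F = Prod.snd '' Z := by
    ext x
    constructor
    · intro hx
      have hx' := Cc_sub hΦ T F hx
      obtain ⟨s, hs, t, ht, h1, h2, h3⟩ := hx
      exact ⟨((s, t), x), ⟨⟨⟨hs, ht⟩, hx'⟩, h1, h2, h3⟩, rfl⟩
    · rintro ⟨⟨⟨s, t⟩, x'⟩, ⟨⟨⟨hs, ht⟩, -⟩, h1, h2, h3⟩, rfl⟩
      exact ⟨s, hs, t, ht, h1, h2, h3⟩
  rw [himg]
  exact hZc.image continuous_snd

/-- the point of crossing -/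
theorem cross (hRot : StmtRot) {T : ℝ} {F : Set ℂ} {v v' : SL(2, ℝ)}
    (h : (v, v') ∈ Cc Φ T 0 F) : ∃ s ∈ Icc 0 T, ∃ t ∈ Icc 0 T,
      Φ t v' = Φ s v * rot3 ∨ Φ t v' = -(Φ s v * rot3) := by
  obtain ⟨s, hs, t, ht, -, h2, h3⟩ := h
  refine ⟨s, hs, t, ht, ?_⟩
  have h4 : w3 * uG (Φ s v) = uG (Φ t v') := by
    have := norm_le_zero_iff.1 h3
    exact sub_eq_zero.1 this
  obtain ⟨e1, e2⟩ := hRot.2.2.2.2.2.1 (Φ s v)
  exact hRot.2.2.2.2.2.2.1 (Φ s v * rot3) (Φ t v') (by rw [e1]; exact h2) (by rw [e2]; exact h4)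

variable [MeasurableSpace SL(2, ℝ)] [BorelSpace SL(2, ℝ)]

/-- (a): the segments with positive measure are covered by countably many segments -/
theorem atoms (hΦ : GFlow ρ Φ) (ν : Measure SL(2, ℝ)) [IsFiniteMeasureOnCompacts ν]
    {K : Set SL(2, ℝ)} (hK : IsCompact K) {S0 : ℝ} (hS0 : 0 ≤ S0) :
    ∃ v : ℕ → SL(2, ℝ), ∀ w ∈ K, ν (Sg Φ S0 w) ≠ 0 → ∃ i, w ∈ Sg Φ (S0 + S0) (v i) := by
  set K1 : Set SL(2, ℝ) := (fun p : ℝ × SL(2, ℝ) => Φ p.1 p.2) '' (Icc (-S0) S0 ×ˢ K) ∪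
    (fun p : ℝ × SL(2, ℝ) => -Φ p.1 p.2) '' (Icc (-S0) S0 ×ˢ K) with hK1
  have hK1c : IsCompact K1 :=
    ((isCompact_Icc.prod hK).image hΦ.cont).union
      ((isCompact_Icc.prod hK).image (cont_neg.comp hΦ.cont))
  have hsub : ∀ w ∈ K, Sg Φ S0 w ⊆ K1 := by
    rintro w hw u ⟨s, hs, rfl | rfl⟩
    · exact Or.inl ⟨(s, w), ⟨hs, hw⟩, rfl⟩
    · exact Or.inr ⟨(s, w), ⟨hs, hw⟩, rfl⟩
  have key : ∀ m : ℕ, ∃ t : Finset SL(2, ℝ), (↑t : Set SL(2, ℝ)) ⊆ K ∧
      ∀ w ∈ K, (m : ℝ≥0∞)⁻¹ ≤ ν (Sg Φ S0 w) → ∃ u ∈ t, w ∈ Sg Φ (S0 + S0) u := by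
    intro m
    obtain ⟨N, hN⟩ := exists_N ((m : ℝ≥0∞)⁻¹) (ν K1) (by simp) hK1c.measure_lt_top.ne
    obtain ⟨t, ht1, ht2⟩ := greedy {w | w ∈ K ∧ (m : ℝ≥0∞)⁻¹ ≤ ν (Sg Φ S0 w)}
      (fun a b => (Sg Φ S0 a ∩ Sg Φ S0 b).Nonempty) N (by
        intro t ht hd
        apply hN
        have h1 : ν (⋃ a ∈ t, Sg Φ S0 a) = ∑ a ∈ t, ν (Sg Φ S0 a) := by
          apply measure_biUnion_finset
          · intro a ha b hb hab
            rw [Function.onFun, Set.disjoint_iff_inter_eq_empty]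
            exact Set.not_nonempty_iff_eq_empty.1 (hd a ha b hb hab)
          · intro a _
            exact (Sg_compact hΦ S0 a).measurableSet
        have h2 : ν (⋃ a ∈ t, Sg Φ S0 a) ≤ ν K1 := by
          apply measure_mono
          apply Set.iUnion₂_subset
          intro a ha
          exact hsub a (ht ha).1
        have h3 := Finset.card_nsmul_le_sum t (fun a => ν (Sg Φ S0 a)) ((m : ℝ≥0∞)⁻¹)
          (fun a ha => (ht ha).2)
        rw [nsmul_eq_mul] at h3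
        exact h3.trans (h1 ▸ h2))
      (fun a b h => by rwa [Set.inter_comm] at h)
    refine ⟨t, fun x hx => (ht1 hx).1, ?_⟩
    intro w hw hw2
    obtain ⟨u, hu, h⟩ := ht2 w ⟨hw, hw2⟩
    refine ⟨u, hu, ?_⟩
    rcases h with rfl | ⟨y, hy1, hy2⟩
    · exact Sg_self hΦ (by linarith) w
    · exact Sg_trans hΦ hy1 (Sg_symm hΦ hy2)
  choose t ht1 ht2 using key
  have hcount : (insert (1 : SL(2, ℝ)) (⋃ m, (↑(t m) : Set SL(2, ℝ)))).Countable :=
    (Set.countable_iUnion fun m => (t m).countable_toSet).insert 1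
  obtain ⟨v, hv⟩ := hcount.exists_eq_range ⟨1, Set.mem_insert _ _⟩
  refine ⟨v, ?_⟩
  intro w hw h0
  obtain ⟨m, hm⟩ := ENNReal.exists_inv_nat_lt h0
  obtain ⟨u, hu, h⟩ := ht2 m w hw hm.le
  have : u ∈ Set.range v := by
    rw [← hv]
    exact Or.inr (Set.mem_iUnion.2 ⟨m, hu⟩)
  obtain ⟨i, rfl⟩ := this
  exact ⟨i, h⟩

omit [BorelSpace SL(2, ℝ)] in
/-- (b) -/
theorem inter_null (hRot : StmtRot) (hΦ : GFlow ρ Φ) (ν : Measure SL(2, ℝ)) {T : ℝ} (hT : 0 < T)
    {F : Set ℂ} {O : Set SL(2, ℝ)} (hO : ∀ w ∈ K0 Φ T F, w ∉ O → ν (Sg Φ (2 * T) w) = 0)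
    {v₁ v₂ : SL(2, ℝ)}
    (hJ : Set.Countable {s | s ∈ Icc 0 T ∧ ∃ τ ∈ Icc (-T) T, ∃ s' ∈ Icc 0 T,
      Φ τ (Φ s v₁ * rot3) = Φ s' v₂ * rot3 ∨ Φ τ (Φ s v₁ * rot3) = -(Φ s' v₂ * rot3)}) :
    ν ({v' | (v₁, v') ∈ Cc Φ T 0 F ∧ v' ∉ O} ∩ {v' | (v₂, v') ∈ Cc Φ T 0 F ∧ v' ∉ O}) = 0 := by
  set J := {s | s ∈ Icc 0 T ∧ ∃ τ ∈ Icc (-T) T, ∃ s' ∈ Icc 0 T,
      Φ τ (Φ s v₁ * rot3) = Φ s' v₂ * rot3 ∨ Φ τ (Φ s v₁ * rot3) = -(Φ s' v₂ * rot3)} with hJd
  have hsub : ({v' | (v₁, v') ∈ Cc Φ T 0 F ∧ v' ∉ O} ∩ {v' | (v₂, v') ∈ Cc Φ T 0 F ∧ v' ∉ O}) ⊆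
      ⋃ s ∈ J, {v' | v' ∈ K0 Φ T F ∧ v' ∉ O ∧ ∃ t ∈ Icc 0 T,
        Φ t v' = Φ s v₁ * rot3 ∨ Φ t v' = -(Φ s v₁ * rot3)} := by
    rintro v' ⟨⟨h1, h2⟩, ⟨h3, -⟩⟩
    obtain ⟨s, hs, t, ht, h⟩ := cross hRot h1
    obtain ⟨s', hs', t', ht', h'⟩ := cross hRot h3
    have hsJ : s ∈ J := by
      refine ⟨hs, t' - t, ⟨by linarith [ht.2, ht'.1], by linarith [ht.1, ht'.2]⟩, s', hs', ?_⟩
      have e0 : Φ (t' - t) (Φ t v') = Φ t' v' := by
        rw [← hΦ.add]; congr 1; ring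
      rcases h with h | h
      · rw [← h, e0]
        exact h'
      · have e1 : Φ s v₁ * rot3 = -Φ t v' := by rw [h, neg_neg]
        rw [e1, hΦ.neg, e0]
        rcases h' with h' | h'
        · right; rw [h']
        · left; rw [h', neg_neg]
    exact Set.mem_iUnion₂.2 ⟨s, hsJ, (Cc_sub hΦ T F h1).2, h2, t, ht, h⟩
  refine measure_mono_null hsub ?_
  rw [measure_biUnion_null_iff hJ]
  intro s _
  set X := {v' | v' ∈ K0 Φ T F ∧ v' ∉ O ∧ ∃ t ∈ Icc 0 T,
        Φ t v' = Φ s v₁ * rot3 ∨ Φ t v' = -(Φ s v₁ * rot3)} with hX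
  rcases Set.eq_empty_or_nonempty X with he | ⟨w, hw⟩
  · rw [he]; exact measure_empty
  · obtain ⟨hw1, hw2, t0, ht0, hw3⟩ := hw
    refine measure_mono_null ?_ (hO w hw1 hw2)
    rintro v' ⟨-, -, t, ht, h⟩
    have a1 : Φ t v' ∈ Sg Φ 0 (Φ t0 w) := by
      refine ⟨0, ⟨by norm_num, le_refl _⟩, ?_⟩
      rw [hΦ.zero]
      rcases h with h | h <;> rcases hw3 with hw3 | hw3
      · left; rw [h, hw3]
      · right; rw [h, hw3, neg_neg]
      · right; rw [h, hw3]
      · left; rw [h, hw3]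
    obtain ⟨z, hz, a1⟩ := a1
    have hz0 : z = 0 := le_antisymm hz.2 (by have := hz.1; rwa [neg_zero] at this)
    rw [hz0, hΦ.zero] at a1
    refine ⟨t0 - t, ⟨by linarith [ht.2, ht0.1], by linarith [ht.1, ht0.2]⟩, ?_⟩
    have e : Φ (t0 - t) w = Φ (-t) (Φ t0 w) := by
      rw [← hΦ.add]; congr 1; ring
    rw [e]
    rcases a1 with a1 | a1
    · left; rw [← a1, flow_inv hΦ]
    · right
      have a2 : Φ t0 w = -Φ t v' := by rw [a1, neg_neg]
      rw [a2, hΦ.neg, flow_inv hΦ, neg_neg]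

end NUC

open _root_.U3.NUC in
theorem stmtNuc (hRot : StmtRot) (hJac : StmtJac) : StmtNuc := by
  intro _ _ Γ ρ Φ ν _ _ hFac hlap hΦ F hF hFU T hT
  have hK := K0_compact hRot hΦ T hF hFU
  obtain ⟨v, hv⟩ := atoms hΦ ν hK (S0 := 2 * T) (by linarith)
  refine ⟨v, 2 * T + 2 * T, by linarith, ?_⟩
  set O : Set SL(2, ℝ) := ⋃ i, Sg Φ (2 * T + 2 * T) (v i) with hO
  have hOm : MeasurableSet O :=
    MeasurableSet.iUnion fun i => (Sg_compact hΦ _ (v i)).measurableSet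
  have hOn : ∀ w ∈ K0 Φ T F, w ∉ O → ν (Sg Φ (2 * T) w) = 0 := by
    intro w hw hwO
    by_contra h0
    obtain ⟨i, hi⟩ := hv w hw h0
    exact hwO (Set.mem_iUnion.2 ⟨i, hi⟩)
  have hCm : MeasurableSet (Cc Φ T 0 F) := (Cc_compact hRot hΦ T hF hFU).measurableSet
  have hCv : ∀ w, MeasurableSet {v' | (w, v') ∈ Cc Φ T 0 F ∧ v' ∉ O} := by
    intro w
    exact (measurable_prodMk_left hCm).inter hOm.compl
  have hCK : ∀ w, {v' | (w, v') ∈ Cc Φ T 0 F ∧ v' ∉ O} ⊆ K0 Φ T F :=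
    fun w v' h => (Cc_sub hΦ T F h.1).2
  -- (c)
  have hW : ∀ m : ℕ, ν {w | w ∈ K0 Φ T F ∧ w ∉ O ∧
      (m : ℝ≥0∞)⁻¹ ≤ ν {v' | (w, v') ∈ Cc Φ T 0 F ∧ v' ∉ O}} = 0 := by
    intro m
    obtain ⟨N, hN⟩ := exists_N ((m : ℝ≥0∞)⁻¹) (ν (K0 Φ T F)) (by simp) hK.measure_lt_top.ne
    obtain ⟨t, ht1, ht2⟩ := greedy {w | w ∈ K0 Φ T F ∧ w ∉ O ∧
      (m : ℝ≥0∞)⁻¹ ≤ ν {v' | (w, v') ∈ Cc Φ T 0 F ∧ v' ∉ O}}
      (fun a b => b ∈ Sg Φ (2 * T) a) N (by
        intro t ht hd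
        apply hN
        have h1 : ν (⋃ a ∈ t, {v' | (a, v') ∈ Cc Φ T 0 F ∧ v' ∉ O}) =
            ∑ a ∈ t, ν {v' | (a, v') ∈ Cc Φ T 0 F ∧ v' ∉ O} := by
          apply measure_biUnion_finset₀
          · intro a ha b hb hab
            exact inter_null hRot hΦ ν hT hOn
              (hJac Γ ρ Φ hFac hlap hΦ a b T hT (hd a ha b hb hab))
          · intro a _
            exact (hCv a).nullMeasurableSet
        have h2 : ν (⋃ a ∈ t, {v' | (a, v') ∈ Cc Φ T 0 F ∧ v' ∉ O}) ≤ ν (K0 Φ T F) := by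
          apply measure_mono
          apply Set.iUnion₂_subset
          intro a _
          exact hCK a
        have h3 := Finset.card_nsmul_le_sum t
          (fun a => ν {v' | (a, v') ∈ Cc Φ T 0 F ∧ v' ∉ O}) ((m : ℝ≥0∞)⁻¹)
          (fun a ha => (ht ha).2.2)
        rw [nsmul_eq_mul] at h3
        exact h3.trans (h1 ▸ h2))
      (fun a b h => Sg_symm hΦ h)
    have hsub : {w | w ∈ K0 Φ T F ∧ w ∉ O ∧
        (m : ℝ≥0∞)⁻¹ ≤ ν {v' | (w, v') ∈ Cc Φ T 0 F ∧ v' ∉ O}} ⊆ ⋃ a ∈ t, Sg Φ (2 * T) a := by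
      intro w hw
      obtain ⟨u, hu, h⟩ := ht2 w hw
      refine Set.mem_iUnion₂.2 ⟨u, hu, ?_⟩
      rcases h with rfl | h
      · exact Sg_self hΦ (by linarith) w
      · exact h
    refine measure_mono_null hsub ?_
    refine (measure_biUnion_null_iff (μ := ν) (I := (↑t : Set SL(2, ℝ)))
      (s := fun a => Sg Φ (2 * T) a) t.countable_toSet).2 ?_
    intro a ha
    exact hOn a (ht1 ha).1 (ht1 ha).2.1
  have hset : Cc Φ T 0 F ∩ {x | (∀ i, x.1 ∉ Sg Φ (2 * T + 2 * T) (v i)) ∧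
      ∀ i, x.2 ∉ Sg Φ (2 * T + 2 * T) (v i)} = Cc Φ T 0 F ∩ (Oᶜ ×ˢ Oᶜ) := by
    ext x
    simp only [hO, Set.mem_inter_iff, Set.mem_ofPred_eq, Set.mem_prod, Set.mem_compl_iff,
      Set.mem_iUnion, not_exists]
  rw [hset, Measure.measure_prod_null (hCm.inter (hOm.compl.prod hOm.compl))]
  have hN : ν (⋃ m : ℕ, {w | w ∈ K0 Φ T F ∧ w ∉ O ∧
      (m : ℝ≥0∞)⁻¹ ≤ ν {v' | (w, v') ∈ Cc Φ T 0 F ∧ v' ∉ O}}) = 0 :=
    measure_iUnion_null hW
  have hae := compl_mem_ae_iff.2 hN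
  filter_upwards [hae] with w hw
  show ν (Prod.mk w ⁻¹' (Cc Φ T 0 F ∩ Oᶜ ×ˢ Oᶜ)) = 0
  by_cases hwO : w ∈ O
  · have : Prod.mk w ⁻¹' (Cc Φ T 0 F ∩ Oᶜ ×ˢ Oᶜ) = ∅ := by
      ext v'
      constructor
      · rintro ⟨-, h, -⟩
        exact h hwO
      · exact fun h => h.elim
    rw [this]; exact measure_empty
  · have hle : Prod.mk w ⁻¹' (Cc Φ T 0 F ∩ Oᶜ ×ˢ Oᶜ) ⊆
        {v' | (w, v') ∈ Cc Φ T 0 F ∧ v' ∉ O} := fun v' h => ⟨h.1, h.2.2⟩
    refine measure_mono_null hle ?_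
    by_contra h0
    obtain ⟨m, hm⟩ := ENNReal.exists_inv_nat_lt h0
    have hwK : w ∈ K0 Φ T F := by
      have hne : {v' | (w, v') ∈ Cc Φ T 0 F ∧ v' ∉ O}.Nonempty := nonempty_of_measure_ne_zero h0
      obtain ⟨v', hv', -⟩ := hne
      exact (Cc_sub hΦ T F hv').1
    exact hw (Set.mem_iUnion.2 ⟨m, hwK, hwO, hm.le⟩)

end

end U3


end

section

/-!
TPA: one and two displaced points.
-/

open Complex MeasureTheory Filter Topology Set
open scoped ContDiff

namespace QJ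

open QE

noncomputable section

namespace TPA

/-! ### Averages over the angle -/

lemma integrable_circle {F : ℂ → ℂ} (hF : Continuous F) :
    Integrable (fun θ => F (uu θ ^ 2)) ang := by
  obtain ⟨M, hM⟩ := (isCompact_closedBall (0 : ℂ) 1).exists_bound_of_continuousOn hF.continuousOn
  refine Integrable.of_bound (hF.comp (continuous_uu.pow 2)).aestronglyMeasurable M ?_
  refine Filter.Eventually.of_forall fun θ => hM _ ?_
  rw [mem_closedBall_zero_iff, norm_pow, norm_uu, one_pow]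

lemma uu_sq (θ : ℝ) : uu θ ^ 2 = uu (2 * θ) := by
  unfold uu
  rw [← Complex.exp_nat_mul]
  congr 1
  push_cast
  ring

lemma uu_periodic : Function.Periodic uu (2 * Real.pi) := by
  intro θ
  unfold uu
  have h1 : -((θ + 2 * Real.pi : ℝ) : ℂ) * I = -(θ : ℂ) * I - 2 * Real.pi * I := by
    push_cast
    ring
  rw [h1, Complex.exp_sub, Complex.exp_two_pi_mul_I, div_one]

/-- doubling the angle -/
lemma int_sq {F : ℂ → ℂ} (hF : Continuous F) :
    ∫ θ, F (uu θ ^ 2) ∂ang = ∫ θ, F (uu θ) ∂ang := by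
  rw [ang_int, ang_int]
  congr 1
  have hc : Continuous fun t : ℝ => F (uu t) := hF.comp continuous_uu
  have h1 : ∫ t in (0 : ℝ)..(2 * Real.pi), F (uu t ^ 2)
      = ∫ t in (0 : ℝ)..(2 * Real.pi), (fun s => F (uu s)) (2 * t) := by
    simp only [uu_sq]
  rw [h1, intervalIntegral.integral_comp_mul_left (fun s => F (uu s))
    (two_ne_zero : (2 : ℝ) ≠ 0), mul_zero]
  have hper : Function.Periodic (fun s => F (uu s)) (2 * Real.pi) := by
    intro s
    simp only [uu_periodic s]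
  have h2 : ∫ s in (0 : ℝ)..(2 * (2 * Real.pi)), F (uu s)
      = (∫ s in (0 : ℝ)..(2 * Real.pi), F (uu s))
        + ∫ s in (2 * Real.pi)..(2 * (2 * Real.pi)), F (uu s) :=
    (intervalIntegral.integral_add_adjacent_intervals (hc.intervalIntegrable _ _)
      (hc.intervalIntegrable _ _)).symm
  have h3 : ∫ s in (2 * Real.pi)..(2 * (2 * Real.pi)), F (uu s)
      = ∫ s in (0 : ℝ)..(2 * Real.pi), F (uu s) := by
    have h4 := hper.intervalIntegral_add_eq (2 * Real.pi) 0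
    rw [zero_add] at h4
    have h5 : 2 * (2 * Real.pi) = 2 * Real.pi + 2 * Real.pi := by ring
    rw [h5]
    exact h4
  rw [h2, h3, ← two_smul ℝ (∫ s in (0 : ℝ)..(2 * Real.pi), F (uu s)), smul_smul,
    inv_mul_cancel₀ (two_ne_zero), one_smul]

/-! ### The plane wave -/

lemma hasFDerivAt_pw (X l : ℂ) : HasFDerivAt (fun l : ℂ => ee X l)
    (ee X l • (I • (Complex.ofRealCLM.comp
      (Complex.reCLM.comp (ContinuousLinearMap.mul ℝ ℂ X))))) l := by
  have h1 : HasFDerivAt (fun l : ℂ => (((X * l).re : ℝ) : ℂ))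
      (Complex.ofRealCLM.comp (Complex.reCLM.comp (ContinuousLinearMap.mul ℝ ℂ X))) l :=
    (Complex.ofRealCLM.comp (Complex.reCLM.comp
      (ContinuousLinearMap.mul ℝ ℂ X))).hasFDerivAt
  exact (h1.const_mul I).cexp

lemma contDiff_pw (X : ℂ) : ContDiff ℝ 1 (fun l : ℂ => ee X l) := by
  unfold ee
  have h1 : ContDiff ℝ 1 fun l : ℂ => (((X * l).re : ℝ) : ℂ) :=
    (Complex.ofRealCLM.comp (Complex.reCLM.comp (ContinuousLinearMap.mul ℝ ℂ X))).contDiff
  exact (contDiff_const.mul h1).cexp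

lemma dz_pw (X l : ℂ) : 2 * dz (fun l : ℂ => ee X l) l = I * X * ee X l := by
  unfold dz
  rw [(hasFDerivAt_pw X l).fderiv]
  have h1 : (X : ℂ) = (X.re : ℂ) + (X.im : ℂ) * I := (Complex.re_add_im X).symm
  have h2 : (ee X l • (I • (Complex.ofRealCLM.comp
      (Complex.reCLM.comp (ContinuousLinearMap.mul ℝ ℂ X))))) 1 = ee X l * (I * (X.re : ℂ)) := by
    simp
  have h3 : (ee X l • (I • (Complex.ofRealCLM.comp
      (Complex.reCLM.comp (ContinuousLinearMap.mul ℝ ℂ X))))) I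
      = ee X l * (I * (-(X.im : ℂ))) := by
    simp
  rw [h2, h3]
  linear_combination (-(I * ee X l)) * h1

lemma dzb_pw (X l : ℂ) : 2 * dzb (fun l : ℂ => ee X l) l
    = I * (starRingEnd ℂ) X * ee X l := by
  unfold dzb
  rw [(hasFDerivAt_pw X l).fderiv]
  have h1 : (starRingEnd ℂ) X = (X.re : ℂ) - (X.im : ℂ) * I := by
    apply Complex.ext <;> simp
  have h2 : (ee X l • (I • (Complex.ofRealCLM.comp
      (Complex.reCLM.comp (ContinuousLinearMap.mul ℝ ℂ X))))) 1 = ee X l * (I * (X.re : ℂ)) := by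
    simp
  have h3 : (ee X l • (I • (Complex.ofRealCLM.comp
      (Complex.reCLM.comp (ContinuousLinearMap.mul ℝ ℂ X))))) I
      = ee X l * (I * (-(X.im : ℂ))) := by
    simp
  rw [h2, h3, h1]
  ring

end TPA

open _root_.QJ.TPA in
/-- **(TPA)** One and two points. -/
theorem stmtTpa (hDer : StmtDer) (hRel : StmtRel) (hRad : StmtRad) (hTwo : StmtTwo) :
    StmtTpa := by
  intro V σ h φ hL ζ hζ
  have hone : IsProbabilityMeasure angle := (inferInstance : IsProbabilityMeasure ang)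
  refine ⟨?_, ?_⟩
  · -- one point
    intro x
    rw [Metric.tendsto_atTop']
    intro ε hε
    have h1 := hRel V σ h φ hL ζ hζ 1 x (-Pi.single 0 1) (by norm_num) (ε / 2) (half_pos hε)
    obtain ⟨N, hN⟩ := Filter.eventually_atTop.mp h1
    refine ⟨N, fun n hn => ?_⟩
    rw [dist_zero_right]
    have h2 : ‖∫ θ, Aj σ h φ ζ x 0 n (uu θ ^ 2) ∂angle‖ ≤ ε / 2 * (angle.real Set.univ) := by
      refine norm_integral_le_of_norm_le_const (Filter.Eventually.of_forall fun θ => ?_)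
      have h3 := (hN n hn.le (uu θ ^ 2) (by rw [norm_pow, norm_uu, one_pow])).1
      rw [Fin.sum_univ_one, neg_add_cancel] at h3
      exact h3
    rw [probReal_univ, mul_one] at h2
    linarith
  · -- two points
    intro x
    set X : ℂ := x 0 - x 1 with hX
    set c : ℂ := ∫ z, ζ z with hc
    -- the value at the centre
    have h0 : Tendsto (fun n => Aj σ h φ ζ x 0 n 0) atTop (𝓝 c) := by
      have h1 := hTwo V σ h φ hL 0 0 ζ hζ
      have h2 : P 0 0 = 1 := by simp [P]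
      rw [h2, one_mul] at h1
      refine h1.congr fun n => ?_
      unfold Aj
      refine integral_congr_ae (Filter.Eventually.of_forall fun z => ?_)
      simp only [Fin.prod_univ_two, zero_mul, mul_zero, add_zero, Pi.zero_apply]
    have hK : ∫ θ, ee X (uu θ ^ 2) ∂angle = (Berry.waveK X : ℂ) :=
      (int_sq (contDiff_pw X).continuous).trans (int_ee X)
    rw [Metric.tendsto_atTop']
    intro ε hε
    set δ : ℝ := ε / (4 * (2 + ‖x 1‖)) with hδ
    have hb : 0 < 2 + ‖x 1‖ := by positivity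
    have hδ0 : 0 < δ := by positivity
    set e0 : Fin 2 → ℤ := Pi.single 0 1 with he0
    have hD0 := (hDer V σ h φ hL ζ hζ 2 x 0 (by norm_num))
    have hD1 := (hDer V σ h φ hL ζ hζ 2 x e0 (by norm_num))
    obtain ⟨N, hN⟩ := Filter.eventually_atTop.mp (((((hD0.2 δ hδ0).and (hD1.2 δ hδ0)).and
      (hRel V σ h φ hL ζ hζ 2 x 0 (by norm_num) δ hδ0)).and
      (hRel V σ h φ hL ζ hζ 2 x e0 (by norm_num) δ hδ0)).and
      ((Metric.tendsto_nhds.mp h0) (ε / 4) (by positivity)))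
    refine ⟨N, fun n hn => ?_⟩
    obtain ⟨⟨⟨⟨ha, hb'⟩, hr0⟩, hr1⟩, hz⟩ := hN n hn.le
    have hdA0 : ∀ l, DifferentiableAt ℝ (Aj σ h φ ζ x 0 n) l := fun l =>
      (hD0.1 n).contDiffAt.differentiableAt (by simp)
    have hdA1 : ∀ l, DifferentiableAt ℝ (Aj σ h φ ζ x e0 n) l := fun l =>
      (hD1.1 n).contDiffAt.differentiableAt (by simp)
    have hdp : ∀ l, DifferentiableAt ℝ (fun l : ℂ => ee X l) l := fun l =>
      (hasFDerivAt_pw X l).differentiableAt
    have hq0 : ContDiff ℝ 1 (fun l => Aj σ h φ ζ x 0 n l - c * ee X l) :=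
      (hD0.1 n).sub (contDiff_const.mul (contDiff_pw X))
    have hq1 : ContDiff ℝ 1 (fun l => Aj σ h φ ζ x e0 n l - (c * I) * ee X l) :=
      (hD1.1 n).sub (contDiff_const.mul (contDiff_pw X))
    have hmain := hRad (fun l => Aj σ h φ ζ x 0 n l - c * ee X l)
      (fun l => Aj σ h φ ζ x e0 n l - (c * I) * ee X l) X ((1 + ‖x 1‖) * δ) hq0 hq1
      (by positivity) (by
        intro l hl
        have ha1 := (ha l hl).1
        have hb1 := (hb' l hl).2
        have hr01 := (hr0 l hl).1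
        have hr11 := (hr1 l hl).2
        rw [Fin.sum_univ_two] at ha1 hb1 hr01 hr11
        rw [zero_add, zero_add] at ha1 hr01
        rw [← he0] at ha1 hr01
        rw [← he0, sub_self] at hb1 hr11
        constructor
        · rw [dz_sub (hdA0 l) ((hdp l).const_mul c), dz_const_mul c (hdp l), mul_sub]
          have h1 : 2 * dz (Aj σ h φ ζ x 0 n) l - 2 * (c * dz (fun l : ℂ => ee X l) l)
              - X * (Aj σ h φ ζ x e0 n l - c * I * ee X l)
              = (2 * dz (Aj σ h φ ζ x 0 n) l - (x 0 * Aj σ h φ ζ x e0 n l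
                  + x 1 * Aj σ h φ ζ x (Pi.single 1 1) n l))
                + x 1 * (Aj σ h φ ζ x e0 n l + Aj σ h φ ζ x (Pi.single 1 1) n l) := by
            have h2 := dz_pw X l
            rw [hX] at h2 ⊢
            linear_combination (-c) * h2
          rw [h1]
          refine (norm_add_le _ _).trans ?_
          rw [norm_mul]
          have h3 := mul_le_mul_of_nonneg_left hr01 (norm_nonneg (x 1))
          linarith
        · rw [dzb_sub (hdA1 l) ((hdp l).const_mul (c * I)), dzb_const_mul (c * I) (hdp l), mul_sub]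
          have h1 : 2 * dzb (Aj σ h φ ζ x e0 n) l - 2 * (c * I * dzb (fun l : ℂ => ee X l) l)
              + (starRingEnd ℂ) X * (Aj σ h φ ζ x 0 n l - c * ee X l)
              = (2 * dzb (Aj σ h φ ζ x e0 n) l + ((starRingEnd ℂ) (x 0) * Aj σ h φ ζ x 0 n l
                  + (starRingEnd ℂ) (x 1) * Aj σ h φ ζ x (e0 - Pi.single 1 1) n l))
                - (starRingEnd ℂ) (x 1) * (Aj σ h φ ζ x 0 n l
                  + Aj σ h φ ζ x (e0 - Pi.single 1 1) n l) := by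
            have h2 := dzb_pw X l
            rw [hX, map_sub] at h2 ⊢
            linear_combination (-(c * I)) * h2 - c * ((starRingEnd ℂ) (x 0) - (starRingEnd ℂ) (x 1))
              * ee (x 0 - x 1) l * Complex.I_sq
          rw [h1]
          refine (norm_sub_le _ _).trans ?_
          rw [norm_mul, RCLike.norm_conj]
          have h3 := mul_le_mul_of_nonneg_left hr11 (norm_nonneg (x 1))
          linarith)
    have hi0 : Integrable (fun θ => Aj σ h φ ζ x 0 n (uu θ ^ 2)) angle :=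
      integrable_circle (hD0.1 n).continuous
    have hi1 : Integrable (fun θ => c * ee X (uu θ ^ 2)) angle :=
      (integrable_circle (contDiff_pw X).continuous).const_mul c
    rw [integral_sub hi0 hi1, integral_const_mul, hK] at hmain
    rw [dist_eq_norm, mul_comm ((Berry.waveK X : ℂ)) c]
    refine lt_of_le_of_lt hmain ?_
    have h5 : ee X 0 = 1 := by simp [ee]
    rw [dist_eq_norm] at hz
    have h6 : (1 + ‖x 1‖) * δ ≤ ε / 4 := by
      rw [hδ, mul_div_assoc', div_le_div_iff₀ (by positivity) (by norm_num)]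
      nlinarith [norm_nonneg (x 1)]
    simp only [h5, mul_one]
    linarith

end

end QJ


end

section

/-!
TPB: three points.
-/

open MeasureTheory Filter Topology Set
open scoped ContDiff

namespace QJ

open QE

noncomputable section

namespace TPB

/-- uniformly small on the unit disc for large `n` -/
def Sm (F : ℕ → ℂ → ℂ) : Prop := ∀ ε > 0, ∀ᶠ n in atTop, ∀ l : ℂ, ‖l‖ ≤ 1 → ‖F n l‖ ≤ ε

lemma Sm.congr {F G : ℕ → ℂ → ℂ} (hF : Sm F) (h : ∀ n l, F n l = G n l) : Sm G := by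
  intro ε hε
  filter_upwards [hF ε hε] with n hn l hl
  rw [← h]
  exact hn l hl

lemma Sm.comb {F G : ℕ → ℂ → ℂ} (hF : Sm F) (hG : Sm G) (a b : ℂ) :
    Sm (fun n l => a * F n l + b * G n l) := by
  intro ε hε
  have h1 : 0 < ε / (2 * (‖a‖ + 1)) := by positivity
  have h2 : 0 < ε / (2 * (‖b‖ + 1)) := by positivity
  filter_upwards [hF _ h1, hG _ h2] with n k1 k2 l hl
  have j1 := k1 l hl
  have j2 := k2 l hl
  have i1 : ‖a * F n l‖ ≤ ε / 2 := by
    rw [norm_mul]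
    calc ‖a‖ * ‖F n l‖ ≤ (‖a‖ + 1) * (ε / (2 * (‖a‖ + 1))) := by gcongr; linarith
      _ = ε / 2 := by field_simp
  have i2 : ‖b * G n l‖ ≤ ε / 2 := by
    rw [norm_mul]
    calc ‖b‖ * ‖G n l‖ ≤ (‖b‖ + 1) * (ε / (2 * (‖b‖ + 1))) := by gcongr; linarith
      _ = ε / 2 := by field_simp
  calc ‖a * F n l + b * G n l‖ ≤ ‖a * F n l‖ + ‖b * G n l‖ := norm_add_le _ _
    _ ≤ ε := by linarith

/-- the algebra of the three points -/
lemma key (A : (Fin 3 → ℤ) → ℕ → ℂ → ℂ) (x : Fin 3 → ℂ) (hA : ∀ j n, ContDiff ℝ 1 (A j n))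
    (hz : ∀ j : Fin 3 → ℤ, Sm fun n l => 2 * dz (A j n) l - ∑ i, x i * A (j + Pi.single i 1) n l)
    (hzb : ∀ j : Fin 3 → ℤ, Sm fun n l => 2 * dzb (A j n) l
      + ∑ i, (starRingEnd ℂ) (x i) * A (j - Pi.single i 1) n l)
    (hp : ∀ j : Fin 3 → ℤ, Sm fun n l => ∑ i : Fin 3, A (j + Pi.single i 1) n l)
    (hm : ∀ j : Fin 3 → ℤ, Sm fun n l => ∑ i : Fin 3, A (j - Pi.single i 1) n l)
    (hRad : StmtRad) (ν ν' : ℂ) (h1 : 1 + ν + ν' = 0) (h2 : ν * ν' = 1)
    (h3 : (starRingEnd ℂ) ν = ν') (h4 : (starRingEnd ℂ) ν' = ν)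
    (h0 : Tendsto (fun n => A (0 + Pi.single 1 1 - Pi.single 0 1) n 0 - ν' * A 0 n 0) atTop
      (𝓝 0)) :
    Tendsto (fun n => ∫ θ, (A (0 + Pi.single 1 1 - Pi.single 0 1) n (uu θ ^ 2)
      - ν' * A 0 n (uu θ ^ 2)) ∂angle) atTop (𝓝 0) := by
  set s0 : Fin 3 → ℤ := Pi.single 0 1 with hs0
  set s1 : Fin 3 → ℤ := Pi.single 1 1 with hs1
  set s2 : Fin 3 → ℤ := Pi.single 2 1 with hs2
  have hp' : ∀ j : Fin 3 → ℤ, Sm fun n l => A (j + s0) n l + A (j + s1) n l + A (j + s2) n l := fun j =>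
    (hp j).congr fun n l => Fin.sum_univ_three _
  have hm' : ∀ j : Fin 3 → ℤ, Sm fun n l => A (j - s0) n l + A (j - s1) n l + A (j - s2) n l := fun j =>
    (hm j).congr fun n l => Fin.sum_univ_three _
  -- the three term relation
  have hT : ∀ j : Fin 3 → ℤ, Sm fun n l => A (j + s0 + s0) n l + A (j + s0 + s1) n l + A (j + s1 + s1) n l := by
    intro j
    refine (((hp' (j + s1)).comb (hp' (j + s0)) 1 1).comb (hm' (j + s0 + s1 + s2)) 1 (-1)).congr
      fun n l => ?_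
    rw [show j + s1 + s0 = j + s0 + s1 by abel, show j + s0 + s1 + s2 - s0 = j + s1 + s2 by abel,
      show j + s0 + s1 + s2 - s1 = j + s0 + s2 by abel,
      show j + s0 + s1 + s2 - s2 = j + s0 + s1 by abel]
    ring
  set P : (Fin 3 → ℤ) → ℕ → ℂ → ℂ := fun j n l => A (j + s1 - s0) n l - ν' * A j n l with hP
  have c1 : ∀ j : Fin 3 → ℤ, Sm fun n l => P (j + s1) n l - ν * P (j + s0) n l := by
    intro j
    refine (hT (j - s0)).congr fun n l => ?_
    change _ = A (j + s1 + s1 - s0) n l - ν' * A (j + s1) n l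
      - ν * (A (j + s0 + s1 - s0) n l - ν' * A (j + s0) n l)
    rw [show j - s0 + s0 + s0 = j + s0 by abel, show j - s0 + s0 + s1 = j + s1 by abel,
      show j - s0 + s1 + s1 = j + s1 + s1 - s0 by abel, show j + s0 + s1 - s0 = j + s1 by abel]
    linear_combination (A (j + s1) n l) * h1 - (A (j + s0) n l) * h2
  have pP : ∀ j : Fin 3 → ℤ, Sm fun n l => P (j + s0) n l + P (j + s1) n l + P (j + s2) n l := by
    intro j
    refine ((hp' (j + s1 - s0)).comb (hp' j) 1 (-ν')).congr fun n l => ?_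
    change _ = (A (j + s0 + s1 - s0) n l - ν' * A (j + s0) n l)
      + (A (j + s1 + s1 - s0) n l - ν' * A (j + s1) n l)
      + (A (j + s2 + s1 - s0) n l - ν' * A (j + s2) n l)
    rw [show j + s0 + s1 - s0 = j + s1 - s0 + s0 by abel,
      show j + s1 + s1 - s0 = j + s1 - s0 + s1 by abel,
      show j + s2 + s1 - s0 = j + s1 - s0 + s2 by abel]
    ring
  have mP : ∀ j : Fin 3 → ℤ, Sm fun n l => P (j - s0) n l + P (j - s1) n l + P (j - s2) n l := by
    intro j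
    refine ((hm' (j + s1 - s0)).comb (hm' j) 1 (-ν')).congr fun n l => ?_
    change _ = (A (j - s0 + s1 - s0) n l - ν' * A (j - s0) n l)
      + (A (j - s1 + s1 - s0) n l - ν' * A (j - s1) n l)
      + (A (j - s2 + s1 - s0) n l - ν' * A (j - s2) n l)
    rw [show j - s0 + s1 - s0 = j + s1 - s0 - s0 by abel,
      show j - s1 + s1 - s0 = j + s1 - s0 - s1 by abel,
      show j - s2 + s1 - s0 = j + s1 - s0 - s2 by abel]
    ring
  have c2 : ∀ j : Fin 3 → ℤ, Sm fun n l => P (j + s2) n l - ν' * P (j + s0) n l := by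
    intro j
    refine ((pP j).comb (c1 j) 1 (-1)).congr fun n l => ?_
    linear_combination (P (j + s0) n l) * h1
  have c3 : ∀ j : Fin 3 → ℤ, Sm fun n l => P (j - s1) n l - ν' * P (j - s0) n l := by
    intro j
    refine ((c1 (j - s0 - s1)).comb (c1 (j - s0 - s1)) (-ν') 0).congr fun n l => ?_
    rw [show j - s0 - s1 + s1 = j - s0 by abel, show j - s0 - s1 + s0 = j - s1 by abel]
    linear_combination (P (j - s1) n l) * h2
  have c4 : ∀ j : Fin 3 → ℤ, Sm fun n l => P (j - s2) n l - ν * P (j - s0) n l := by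
    intro j
    refine ((mP j).comb (c3 j) 1 (-1)).congr fun n l => ?_
    linear_combination (P (j - s0) n l) * h1
  have dA : ∀ j n l, DifferentiableAt ℝ (A j n) l := fun j n l =>
    ((hA j n).differentiable (by norm_num)) l
  have dP : ∀ j n l, dz (P j n) l = dz (A (j + s1 - s0) n) l - ν' * dz (A j n) l := by
    intro j n l
    change dz (fun l => A (j + s1 - s0) n l - ν' * A j n l) l = _
    rw [dz_sub (dA _ n l) ((dA _ n l).const_mul _), dz_const_mul _ (dA _ n l)]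
  have dbP : ∀ j n l, dzb (P j n) l = dzb (A (j + s1 - s0) n) l - ν' * dzb (A j n) l := by
    intro j n l
    change dzb (fun l => A (j + s1 - s0) n l - ν' * A j n l) l = _
    rw [dzb_sub (dA _ n l) ((dA _ n l).const_mul _), dzb_const_mul _ (dA _ n l)]
  -- the system
  set X : ℂ := x 0 + ν * x 1 + ν' * x 2 with hX
  have E0 : Sm fun n l => 2 * dz (P 0 n) l - X * P (0 + s0) n l := by
    have t1 := (hz (0 + s1 - s0)).comb (hz 0) 1 (-ν')
    have t2 := (c1 0).comb (c2 0) (x 1) (x 2)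
    refine (t1.comb t2 1 1).congr fun n l => ?_
    rw [dP, Fin.sum_univ_three, Fin.sum_univ_three, ← hs0, ← hs1, ← hs2]
    simp only [hP]
    rw [show (0 : Fin 3 → ℤ) + s1 - s0 + s0 = 0 + s1 by abel,
      show (0 : Fin 3 → ℤ) + s0 + s1 - s0 = 0 + s1 by abel,
      show (0 : Fin 3 → ℤ) + s1 - s0 + s1 = 0 + s1 + s1 - s0 by abel,
      show (0 : Fin 3 → ℤ) + s1 - s0 + s2 = 0 + s2 + s1 - s0 by abel]
    ring
  have E1 : Sm fun n l => 2 * dzb (P (0 + s0) n) l + (starRingEnd ℂ) X * P 0 n l := by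
    have t1 := (hzb (0 + s0 + s1 - s0)).comb (hzb (0 + s0)) 1 (-ν')
    have t2 := (c3 (0 + s0)).comb (c4 (0 + s0)) ((starRingEnd ℂ) (x 1)) ((starRingEnd ℂ) (x 2))
    refine (t1.comb t2 1 (-1)).congr fun n l => ?_
    rw [dbP, Fin.sum_univ_three, Fin.sum_univ_three, ← hs0, ← hs1, ← hs2, hX, map_add, map_add,
      map_mul, map_mul, h3, h4]
    simp only [hP]
    rw [show (0 : Fin 3 → ℤ) + s0 - s0 = 0 by abel,
      show (0 : Fin 3 → ℤ) + s0 + s1 - s0 - s0 = 0 + s1 - s0 by abel,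
      show (0 : Fin 3 → ℤ) + s0 + s1 - s0 - s1 = 0 + s0 - s1 + s1 - s0 by abel,
      show (0 : Fin 3 → ℤ) + s0 + s1 - s0 - s2 = 0 + s0 - s2 + s1 - s0 by abel]
    ring
  rw [Metric.tendsto_nhds]
  intro ε hε
  have e3 : 0 < ε / 8 := by positivity
  filter_upwards [E0 (ε / 8) e3, E1 (ε / 8) e3, Metric.tendsto_nhds.mp h0 (ε / 2) (by positivity)]
    with n k1 k2 k3
  have k4 := hRad (P 0 n) (P (0 + s0) n) X (ε / 8)
    ((hA _ n).sub (contDiff_const.mul (hA _ n))) ((hA _ n).sub (contDiff_const.mul (hA _ n)))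
    e3.le (fun l hl => ⟨k1 l hl, k2 l hl⟩)
  rw [dist_zero_right] at k3 ⊢
  have k5 : ‖P 0 n 0‖ < ε / 2 := k3
  exact k4.trans_lt (by linarith)

end TPB

open _root_.QJ.TPB in
theorem stmtTpb (hDer : StmtDer) (hRel : StmtRel) (hRad : StmtRad) (hCub : StmtCub) : StmtTpb := by
  intro V σ h φ hL ζ hζ x
  set A : (Fin 3 → ℤ) → ℕ → ℂ → ℂ := fun j => Aj σ h φ ζ x j with hAdef
  have hd := fun j => hDer V σ h φ hL ζ hζ 3 x j (by norm_num)
  have hr := fun j => hRel V σ h φ hL ζ hζ 3 x j (by norm_num)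
  have hz : ∀ j : Fin 3 → ℤ, Sm fun n l => 2 * dz (A j n) l - ∑ i, x i * A (j + Pi.single i 1) n l := by
    intro j ε hε
    filter_upwards [(hd j).2 ε hε] with n hn l hl
    exact (hn l hl).1
  have hzb : ∀ j : Fin 3 → ℤ, Sm fun n l => 2 * dzb (A j n) l
      + ∑ i, (starRingEnd ℂ) (x i) * A (j - Pi.single i 1) n l := by
    intro j ε hε
    filter_upwards [(hd j).2 ε hε] with n hn l hl
    exact (hn l hl).2
  have hp : ∀ j : Fin 3 → ℤ, Sm fun n l => ∑ i : Fin 3, A (j + Pi.single i 1) n l := by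
    intro j ε hε
    filter_upwards [hr j ε hε] with n hn l hl
    exact (hn l hl).1
  have hm : ∀ j : Fin 3 → ℤ, Sm fun n l => ∑ i : Fin 3, A (j - Pi.single i 1) n l := by
    intro j ε hε
    filter_upwards [hr j ε hε] with n hn l hl
    exact (hn l hl).2
  have hA : ∀ j n, ContDiff ℝ 1 (A j n) := fun j => (hd j).1
  have hv : ∀ j n, A j n 0 = E3 σ h φ ζ (j 0) (j 1) (j 2) n := by
    intro j n
    refine integral_congr_ae (Filter.Eventually.of_forall fun z => ?_)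
    change ζ z * ∏ i, E σ h φ (j i) n (z + ((h n * Real.exp (-σ z) : ℝ) : ℂ) * (0 * x i)) = _
    rw [Fin.prod_univ_three]
    simp only [zero_mul, mul_zero, add_zero]
  have hlim : ∀ j : Fin 3 → ℤ, j 0 + j 1 + j 2 = 0 → Tendsto (fun n => A j n 0) atTop (𝓝 0) := by
    intro j hj
    refine (hCub V σ h φ hL ζ hζ (j 0) (j 1) (j 2) hj).congr fun n => (hv j n).symm
  have l1 : Tendsto (fun n => A (0 + Pi.single 1 1 - Pi.single 0 1) n 0) atTop (𝓝 0) := by
    refine hlim _ ?_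
    simp
  have l2 : Tendsto (fun n => A 0 n 0) atTop (𝓝 0) := hlim 0 (by simp)
  -- the cube roots of unity
  obtain ⟨w, w', w1, w2, w3, w4, w5⟩ : ∃ w w' : ℂ, 1 + w + w' = 0 ∧ w * w' = 1 ∧
      (starRingEnd ℂ) w = w' ∧ (starRingEnd ℂ) w' = w ∧ w - w' ≠ 0 := by
    have hs : Real.sqrt 3 * Real.sqrt 3 = 3 := Real.mul_self_sqrt (by norm_num)
    have hs0 : Real.sqrt 3 ≠ 0 := by positivity
    refine ⟨⟨-1 / 2, Real.sqrt 3 / 2⟩, ⟨-1 / 2, -(Real.sqrt 3 / 2)⟩, ?_, ?_, ?_, ?_, ?_⟩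
    · apply Complex.ext
      · simp
        norm_num
      · simp
    · apply Complex.ext
      · simp only [Complex.mul_re, Complex.one_re]
        linarith only [hs]
      · simp only [Complex.mul_im, Complex.one_im]
        ring
    · apply Complex.ext <;> simp
    · apply Complex.ext <;> simp
    · intro h0
      have := congrArg Complex.im h0
      simp only [Complex.sub_im, Complex.zero_im] at this
      apply hs0
      linarith
  have r1 := key A x hA hz hzb hp hm hRad w w' w1 w2 w3 w4 (by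
    have := l1.sub (l2.const_mul w')
    rwa [mul_zero, sub_zero] at this)
  have r2 := key A x hA hz hzb hp hm hRad w' w (by rw [← w1]; ring) (by rw [← w2]; ring) w4 w3 (by
    have := l1.sub (l2.const_mul w)
    rwa [mul_zero, sub_zero] at this)
  have r3 := (r1.sub r2).const_mul (w - w')⁻¹
  rw [sub_zero, mul_zero] at r3
  refine r3.congr fun n => ?_
  have hu : Continuous fun θ : ℝ => uu θ ^ 2 := continuous_uu.pow 2
  have hprob : IsProbabilityMeasure angle := Berry.angle_prob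
  have hi : ∀ j, Integrable (fun θ => A j n (uu θ ^ 2)) angle := by
    intro j
    have hc : Continuous (A j n) := (hA j n).continuous
    obtain ⟨C, hC⟩ := (isCompact_closedBall (0 : ℂ) 1).exists_bound_of_continuousOn hc.continuousOn
    refine Integrable.of_bound (hc.comp hu).aestronglyMeasurable C
      (Filter.Eventually.of_forall fun θ => hC _ ?_)
    rw [mem_closedBall_zero_iff, norm_pow, norm_uu, one_pow]
  have i1 : Integrable (fun θ => A (0 + Pi.single 1 1 - Pi.single 0 1) n (uu θ ^ 2)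
      - w' * A 0 n (uu θ ^ 2)) angle := (hi _).sub ((hi 0).const_mul w')
  have i2 : Integrable (fun θ => A (0 + Pi.single 1 1 - Pi.single 0 1) n (uu θ ^ 2)
      - w * A 0 n (uu θ ^ 2)) angle := (hi _).sub ((hi 0).const_mul w)
  rw [← integral_sub i1 i2, ← integral_const_mul]
  refine integral_congr_ae (Filter.Eventually.of_forall fun θ => ?_)
  change (w - w')⁻¹ * ((A (0 + Pi.single 1 1 - Pi.single 0 1) n (uu θ ^ 2)
    - w' * A 0 n (uu θ ^ 2)) - (A (0 + Pi.single 1 1 - Pi.single 0 1) n (uu θ ^ 2)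
    - w * A 0 n (uu θ ^ 2))) = A 0 n (uu θ ^ 2)
  field_simp
  ring

end

end QJ


end

section

/-!
TPC: one, two and three displaced points, without equidistribution.
-/

open Complex MeasureTheory Filter Topology Set
open scoped ContDiff

namespace U3

open QE QJ

noncomputable section

namespace TPC

/-- the value at the centre of the two-point integral -/
lemma aj_zero (σ : ℂ → ℝ) (h : ℕ → ℝ) (φ : ℕ → ℂ → ℂ) (ζ : ℂ → ℂ) (x : Fin 2 → ℂ) (n : ℕ) :
    Aj σ h φ ζ x 0 n 0 = ∫ z, ζ z * φ n z ^ 2 := by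
  have hE : ∀ z, E σ h φ 0 n z = φ n z := fun z => rfl
  unfold Aj
  refine integral_congr_ae (Filter.Eventually.of_forall fun z => ?_)
  simp only [Fin.prod_univ_two, zero_mul, mul_zero, add_zero, Pi.zero_apply, hE]
  ring

end TPC

open QJ.TPA QJ.TPB _root_.U3.TPC in
/-- **(TPC)** One, two and three points. -/
theorem stmtTpc (hDerB : StmtDerB) (hRelB : StmtRelB) (hRad : QJ.StmtRad) : StmtTpc := by
  intro V σ h φ hL ζ hζ
  have hone : IsProbabilityMeasure angle := (inferInstance : IsProbabilityMeasure ang)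
  refine ⟨?_, ?_, ?_⟩
  · -- one point
    intro x
    rw [Metric.tendsto_atTop']
    intro ε hε
    have h1 := hRelB V σ h φ hL ζ hζ 1 x (-Pi.single 0 1) (by norm_num) (ε / 2) (half_pos hε)
    obtain ⟨N, hN⟩ := Filter.eventually_atTop.mp h1
    refine ⟨N, fun n hn => ?_⟩
    rw [dist_zero_right]
    have h2 : ‖∫ θ, Aj σ h φ ζ x 0 n (uu θ ^ 2) ∂angle‖ ≤ ε / 2 * (angle.real Set.univ) := by
      refine norm_integral_le_of_norm_le_const (Filter.Eventually.of_forall fun θ => ?_)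
      have h3 := (hN n hn.le (uu θ ^ 2) (by rw [norm_pow, norm_uu, one_pow])).1
      rw [Fin.sum_univ_one, neg_add_cancel] at h3
      exact h3
    rw [probReal_univ, mul_one] at h2
    linarith
  · -- two points
    intro x
    set X : ℂ := x 0 - x 1 with hX
    have hK : ∫ θ, ee X (uu θ ^ 2) ∂angle = (Berry.waveK X : ℂ) :=
      (int_sq (contDiff_pw X).continuous).trans (int_ee X)
    rw [Metric.tendsto_atTop']
    intro ε hε
    set δ : ℝ := ε / (4 * (2 + ‖x 1‖)) with hδ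
    have hb : 0 < 2 + ‖x 1‖ := by positivity
    have hδ0 : 0 < δ := by positivity
    set e0 : Fin 2 → ℤ := Pi.single 0 1 with he0
    have hD0 := (hDerB V σ h φ hL ζ hζ 2 x 0 (by norm_num))
    have hD1 := (hDerB V σ h φ hL ζ hζ 2 x e0 (by norm_num))
    obtain ⟨N, hN⟩ := Filter.eventually_atTop.mp ((((hD0.2 δ hδ0).and (hD1.2 δ hδ0)).and
      (hRelB V σ h φ hL ζ hζ 2 x 0 (by norm_num) δ hδ0)).and
      (hRelB V σ h φ hL ζ hζ 2 x e0 (by norm_num) δ hδ0))
    refine ⟨N, fun n hn => ?_⟩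
    obtain ⟨⟨⟨ha, hb'⟩, hr0⟩, hr1⟩ := hN n hn.le
    set c : ℂ := ∫ z, ζ z * φ n z ^ 2 with hc
    have hdA0 : ∀ l, DifferentiableAt ℝ (Aj σ h φ ζ x 0 n) l := fun l =>
      (hD0.1 n).contDiffAt.differentiableAt (by simp)
    have hdA1 : ∀ l, DifferentiableAt ℝ (Aj σ h φ ζ x e0 n) l := fun l =>
      (hD1.1 n).contDiffAt.differentiableAt (by simp)
    have hdp : ∀ l, DifferentiableAt ℝ (fun l : ℂ => ee X l) l := fun l =>
      (hasFDerivAt_pw X l).differentiableAt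
    have hq0 : ContDiff ℝ 1 (fun l => Aj σ h φ ζ x 0 n l - c * ee X l) :=
      (hD0.1 n).sub (contDiff_const.mul (contDiff_pw X))
    have hq1 : ContDiff ℝ 1 (fun l => Aj σ h φ ζ x e0 n l - (c * I) * ee X l) :=
      (hD1.1 n).sub (contDiff_const.mul (contDiff_pw X))
    have hmain := hRad (fun l => Aj σ h φ ζ x 0 n l - c * ee X l)
      (fun l => Aj σ h φ ζ x e0 n l - (c * I) * ee X l) X ((1 + ‖x 1‖) * δ) hq0 hq1
      (by positivity) (by
        intro l hl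
        have ha1 := (ha l hl).1
        have hb1 := (hb' l hl).2
        have hr01 := (hr0 l hl).1
        have hr11 := (hr1 l hl).2
        rw [Fin.sum_univ_two] at ha1 hb1 hr01 hr11
        rw [zero_add, zero_add] at ha1 hr01
        rw [← he0] at ha1 hr01
        rw [← he0, sub_self] at hb1 hr11
        constructor
        · rw [dz_sub (hdA0 l) ((hdp l).const_mul c), dz_const_mul c (hdp l), mul_sub]
          have h1 : 2 * dz (Aj σ h φ ζ x 0 n) l - 2 * (c * dz (fun l : ℂ => ee X l) l)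
              - X * (Aj σ h φ ζ x e0 n l - c * I * ee X l)
              = (2 * dz (Aj σ h φ ζ x 0 n) l - (x 0 * Aj σ h φ ζ x e0 n l
                  + x 1 * Aj σ h φ ζ x (Pi.single 1 1) n l))
                + x 1 * (Aj σ h φ ζ x e0 n l + Aj σ h φ ζ x (Pi.single 1 1) n l) := by
            have h2 := dz_pw X l
            rw [hX] at h2 ⊢
            linear_combination (-c) * h2
          rw [h1]
          refine (norm_add_le _ _).trans ?_
          rw [norm_mul]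
          have h3 := mul_le_mul_of_nonneg_left hr01 (norm_nonneg (x 1))
          linarith
        · rw [dzb_sub (hdA1 l) ((hdp l).const_mul (c * I)), dzb_const_mul (c * I) (hdp l), mul_sub]
          have h1 : 2 * dzb (Aj σ h φ ζ x e0 n) l - 2 * (c * I * dzb (fun l : ℂ => ee X l) l)
              + (starRingEnd ℂ) X * (Aj σ h φ ζ x 0 n l - c * ee X l)
              = (2 * dzb (Aj σ h φ ζ x e0 n) l + ((starRingEnd ℂ) (x 0) * Aj σ h φ ζ x 0 n l
                  + (starRingEnd ℂ) (x 1) * Aj σ h φ ζ x (e0 - Pi.single 1 1) n l))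
                - (starRingEnd ℂ) (x 1) * (Aj σ h φ ζ x 0 n l
                  + Aj σ h φ ζ x (e0 - Pi.single 1 1) n l) := by
            have h2 := dzb_pw X l
            rw [hX, map_sub] at h2 ⊢
            linear_combination (-(c * I)) * h2 - c * ((starRingEnd ℂ) (x 0) - (starRingEnd ℂ) (x 1))
              * ee (x 0 - x 1) l * Complex.I_sq
          rw [h1]
          refine (norm_sub_le _ _).trans ?_
          rw [norm_mul, RCLike.norm_conj]
          have h3 := mul_le_mul_of_nonneg_left hr11 (norm_nonneg (x 1))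
          linarith)
    have hi0 : Integrable (fun θ => Aj σ h φ ζ x 0 n (uu θ ^ 2)) angle :=
      integrable_circle (hD0.1 n).continuous
    have hi1 : Integrable (fun θ => c * ee X (uu θ ^ 2)) angle :=
      (integrable_circle (contDiff_pw X).continuous).const_mul c
    have h5 : ee X 0 = 1 := by simp [ee]
    rw [integral_sub hi0 hi1, integral_const_mul, hK] at hmain
    simp only [h5, mul_one, aj_zero, ← hc, sub_self, norm_zero, zero_add] at hmain
    rw [dist_zero_right, mul_comm ((Berry.waveK X : ℂ)) c]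
    refine lt_of_le_of_lt hmain ?_
    have h6 : (1 + ‖x 1‖) * δ ≤ ε / 4 := by
      rw [hδ, mul_div_assoc', div_le_div_iff₀ (by positivity) (by norm_num)]
      nlinarith [norm_nonneg (x 1)]
    linarith
  · -- three points
    intro hE x
    set A : (Fin 3 → ℤ) → ℕ → ℂ → ℂ := fun j => Aj σ h φ ζ x j with hAdef
    have hd := fun j => hDerB V σ h φ hL ζ hζ 3 x j (by norm_num)
    have hr := fun j => hRelB V σ h φ hL ζ hζ 3 x j (by norm_num)
    have hz : ∀ j : Fin 3 → ℤ,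
        Sm fun n l => 2 * dz (A j n) l - ∑ i, x i * A (j + Pi.single i 1) n l := by
      intro j ε hε
      filter_upwards [(hd j).2 ε hε] with n hn l hl
      exact (hn l hl).1
    have hzb : ∀ j : Fin 3 → ℤ, Sm fun n l => 2 * dzb (A j n) l
        + ∑ i, (starRingEnd ℂ) (x i) * A (j - Pi.single i 1) n l := by
      intro j ε hε
      filter_upwards [(hd j).2 ε hε] with n hn l hl
      exact (hn l hl).2
    have hp : ∀ j : Fin 3 → ℤ, Sm fun n l => ∑ i : Fin 3, A (j + Pi.single i 1) n l := by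
      intro j ε hε
      filter_upwards [hr j ε hε] with n hn l hl
      exact (hn l hl).1
    have hm : ∀ j : Fin 3 → ℤ, Sm fun n l => ∑ i : Fin 3, A (j - Pi.single i 1) n l := by
      intro j ε hε
      filter_upwards [hr j ε hε] with n hn l hl
      exact (hn l hl).2
    have hA : ∀ j n, ContDiff ℝ 1 (A j n) := fun j => (hd j).1
    have hv : ∀ j n, A j n 0 = E3 σ h φ ζ (j 0) (j 1) (j 2) n := by
      intro j n
      refine integral_congr_ae (Filter.Eventually.of_forall fun z => ?_)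
      change ζ z * ∏ i, E σ h φ (j i) n (z + ((h n * Real.exp (-σ z) : ℝ) : ℂ) * (0 * x i)) = _
      rw [Fin.prod_univ_three]
      simp only [zero_mul, mul_zero, add_zero]
    have hlim : ∀ j : Fin 3 → ℤ, Tendsto (fun n => A j n 0) atTop (𝓝 0) := by
      intro j
      exact (hE (j 0) (j 1) (j 2)).congr fun n => (hv j n).symm
    have l1 : Tendsto (fun n => A (0 + Pi.single 1 1 - Pi.single 0 1) n 0) atTop (𝓝 0) := hlim _
    have l2 : Tendsto (fun n => A 0 n 0) atTop (𝓝 0) := hlim 0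
    -- the cube roots of unity
    obtain ⟨w, w', w1, w2, w3, w4, w5⟩ : ∃ w w' : ℂ, 1 + w + w' = 0 ∧ w * w' = 1 ∧
        (starRingEnd ℂ) w = w' ∧ (starRingEnd ℂ) w' = w ∧ w - w' ≠ 0 := by
      have hs : Real.sqrt 3 * Real.sqrt 3 = 3 := Real.mul_self_sqrt (by norm_num)
      have hs0 : Real.sqrt 3 ≠ 0 := by positivity
      refine ⟨⟨-1 / 2, Real.sqrt 3 / 2⟩, ⟨-1 / 2, -(Real.sqrt 3 / 2)⟩, ?_, ?_, ?_, ?_, ?_⟩
      · apply Complex.ext
        · simp
          norm_num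
        · simp
      · apply Complex.ext
        · simp only [Complex.mul_re, Complex.one_re]
          linarith
        · simp only [Complex.mul_im, Complex.one_im]
          ring
      · apply Complex.ext <;> simp
      · apply Complex.ext <;> simp
      · intro h0
        have := congrArg Complex.im h0
        simp only [Complex.sub_im, Complex.zero_im] at this
        apply hs0
        linarith
    have r1 := key A x hA hz hzb hp hm hRad w w' w1 w2 w3 w4 (by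
      have := l1.sub (l2.const_mul w')
      rwa [mul_zero, sub_zero] at this)
    have r2 := key A x hA hz hzb hp hm hRad w' w (by rw [← w1]; ring) (by rw [← w2]; ring) w4 w3 (by
      have := l1.sub (l2.const_mul w)
      rwa [mul_zero, sub_zero] at this)
    have r3 := (r1.sub r2).const_mul (w - w')⁻¹
    rw [sub_zero, mul_zero] at r3
    refine r3.congr fun n => ?_
    have hi : ∀ j, Integrable (fun θ => A j n (uu θ ^ 2)) angle := fun j =>
      integrable_circle (hA j n).continuous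
    have i1 : Integrable (fun θ => A (0 + Pi.single 1 1 - Pi.single 0 1) n (uu θ ^ 2)
        - w' * A 0 n (uu θ ^ 2)) angle := (hi _).sub ((hi 0).const_mul w')
    have i2 : Integrable (fun θ => A (0 + Pi.single 1 1 - Pi.single 0 1) n (uu θ ^ 2)
        - w * A 0 n (uu θ ^ 2)) angle := (hi _).sub ((hi 0).const_mul w)
    rw [← integral_sub i1 i2, ← integral_const_mul]
    refine integral_congr_ae (Filter.Eventually.of_forall fun θ => ?_)
    change (w - w')⁻¹ * ((A (0 + Pi.single 1 1 - Pi.single 0 1) n (uu θ ^ 2)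
      - w' * A 0 n (uu θ ^ 2)) - (A (0 + Pi.single 1 1 - Pi.single 0 1) n (uu θ ^ 2)
      - w * A 0 n (uu θ ^ 2))) = A 0 n (uu θ ^ 2)
    field_simp
    ring

end

end U3


end
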