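import Mathlib
import Pool.Agent.BWM.C18
import Pool.Agent.BWM.C19
import Pool.Agent.BWM.C20
import Pool.Agent.BWM.C21

/-! Parts: NCV.Inf, NCV.Lip, NCV.Fl, NCV.InvB, NCV.Inv, NCV.Flow -/

section

/-!
Infinitesimal invariance of the measure `e^{2ρ} μ` under the geodesic field (helper72, NC_INF).
-/

open MeasureTheory Filter Topology Set
open UpperHalfPlane hiding I
open scoped ContDiff MatrixGroups ENNReal NNReal

namespace QE

namespace NC

noncomputable section

/-! ## reduction to Fourier components, for a general field -/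

lemma rq_zero (q : ℂ × ℂ) : rq 0 q = q := by
  unfold rq
  refine Prod.ext ?_ ?_ <;> simp

lemma rq_eq_smul (φ : ℝ) (q : ℂ × ℂ) : rq φ q = Complex.exp (φ * Complex.I) • q := by
  unfold rq
  refine Prod.ext ?_ ?_ <;> simp

/-- the derivative of a Fourier component -/
lemma fderiv_Hk (k : ℤ) {H : ℂ × ℂ → ℂ} (hH : ContDiff ℝ ∞ H) (q v : ℂ × ℂ) :
    fderiv ℝ (Hk k H) q v = ∫ φ in (0 : ℝ)..(2 * Real.pi),
      Complex.exp (-(k : ℂ) * φ * Complex.I) * fderiv ℝ H (rq φ q) (rq φ v) := by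
  have hf := contDiff_fk k hH
  have hd : Differentiable ℝ H := hH.differentiable (by simp)
  have h1 := (hasFDerivAt_param (hf.of_le (by simp)) 0 (2 * Real.pi) q).fderiv
  have h2 : fderiv ℝ (Hk k H) q v = (∫ t in (0:ℝ)..(2 * Real.pi), (fderiv ℝ (fun p : ℝ × (ℂ × ℂ) =>
      Complex.exp (-(k : ℂ) * p.1 * Complex.I) * H (rq p.1 p.2)) (t, q)).comp
        (ContinuousLinearMap.inr ℝ ℝ (ℂ × ℂ))) v := by
    rw [← h1]
    rfl
  rw [h2]
  have hint : IntervalIntegrable (fun t : ℝ => (fderiv ℝ (fun p : ℝ × (ℂ × ℂ) =>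
      Complex.exp (-(k : ℂ) * p.1 * Complex.I) * H (rq p.1 p.2)) (t, q)).comp
        (ContinuousLinearMap.inr ℝ ℝ (ℂ × ℂ))) volume 0 (2 * Real.pi) := by
    refine Continuous.intervalIntegrable ?_ _ _
    have hc := hf.continuous_fderiv (by simp)
    exact (hc.comp (continuous_id.prodMk continuous_const)).clm_comp_const _
  rw [ContinuousLinearMap.intervalIntegral_apply hint]
  refine intervalIntegral.integral_congr fun t _ => ?_
  simp only [ContinuousLinearMap.comp_apply]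
  have h3 : HasFDerivAt (fun q' : ℂ × ℂ => (t, q')) (ContinuousLinearMap.inr ℝ ℝ (ℂ × ℂ)) q :=
    hasFDerivAt_prodMk_right t q
  have h4 := ((hf.differentiable (by simp)) (t, q)).hasFDerivAt.comp q h3
  have h5 : HasFDerivAt (fun q' : ℂ × ℂ => Complex.exp (-(k : ℂ) * t * Complex.I) * H (rq t q'))
      ((fderiv ℝ (fun p : ℝ × (ℂ × ℂ) =>
      Complex.exp (-(k : ℂ) * p.1 * Complex.I) * H (rq p.1 p.2)) (t, q)).comp
        (ContinuousLinearMap.inr ℝ ℝ (ℂ × ℂ))) q := h4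
  have hr : HasFDerivAt (fun q => rq t q) (rqL t) q := by
    have := (rqL t).hasFDerivAt (x := q)
    exact this.congr_of_eventuallyEq (Eventually.of_forall fun q => (rqL_apply t q).symm)
  have h6 : HasFDerivAt (fun q' : ℂ × ℂ => H (rq t q')) ((fderiv ℝ H (rq t q)).comp (rqL t)) q :=
    (hd (rq t q)).hasFDerivAt.comp q hr
  have h7 := h5.unique (h6.const_mul (Complex.exp (-(k : ℂ) * t * Complex.I)))
  have h8 := congrArg (fun L : ℂ × ℂ →L[ℝ] ℂ => L v) h7
  simp only [_root_.smul_apply, smul_eq_mul, ContinuousLinearMap.comp_apply,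
    rqL_apply] at h8
  exact h8

/-- the derivative of a Fourier component along the fibres -/
lemma fderiv_Hk_rot (k : ℤ) {H : ℂ × ℂ → ℂ} (hH : ContDiff ℝ ∞ H) (q : ℂ × ℂ) :
    fderiv ℝ (Hk k H) q (Complex.I • q) = Complex.I * k * Hk k H q := by
  have hKd : Differentiable ℝ (Hk k H) := (Hk_smooth _ hH).differentiable (by simp)
  have he : HasDerivAt (fun ψ : ℝ => Complex.exp (ψ * Complex.I)) Complex.I 0 := by
    have h1 : HasDerivAt (fun ψ : ℝ => (ψ : ℂ) * Complex.I) (1 * Complex.I) 0 :=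
      (Complex.ofRealCLM.hasDerivAt).mul_const Complex.I
    have := h1.cexp
    simpa using this
  have h1 : HasDerivAt (fun ψ : ℝ => rq ψ q) (Complex.I • q) 0 := by
    have := he.smul_const q
    simpa only [rq_eq_smul] using this
  have h2 : HasDerivAt (fun ψ : ℝ => Hk k H (rq ψ q)) (fderiv ℝ (Hk k H) q (Complex.I • q)) 0 := by
    have h3 : HasFDerivAt (Hk k H) (fderiv ℝ (Hk k H) q) ((fun ψ : ℝ => rq ψ q) 0) := by
      simp only [rq_zero]
      exact (hKd q).hasFDerivAt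
    exact h3.comp_hasDerivAt 0 h1
  have h3 : HasDerivAt (fun ψ : ℝ => Hk k H (rq ψ q)) (Complex.I * k * Hk k H q) 0 := by
    have h4 : HasDerivAt (fun ψ : ℝ => (k : ℂ) * (ψ : ℂ) * Complex.I) ((k : ℂ) * 1 * Complex.I) 0 :=
      ((Complex.ofRealCLM.hasDerivAt).const_mul (k : ℂ)).mul_const Complex.I
    have h5 := h4.cexp.mul_const (Hk k H q)
    simp only [Hk_rq]
    refine h5.congr_deriv ?_
    simp only [Complex.ofReal_zero, mul_zero, zero_mul, Complex.exp_zero]
    ring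
  exact h2.unique h3

/-- reduction to the Fourier components -/
theorem field_of_Hk [MeasurableSpace SL(2, ℝ)] [BorelSpace SL(2, ℝ)] {μ : Measure SL(2, ℝ)} [IsFiniteMeasureOnCompacts μ]
    {W : SL(2, ℝ) → ℂ × ℂ} (hW : Continuous W) {H : ℂ × ℂ → ℂ}
    (hH : ContDiff ℝ ∞ H) (hc : HasCompactSupport H)
    (hk : ∀ k : ℤ, ∫ g, fderiv ℝ (Hk k H) (iota g) (W g) ∂μ = 0) :
    ∫ g, fderiv ℝ H (iota g) (W g) ∂μ = 0 := by
  obtain ⟨R, hR⟩ : ∃ R : ℝ, ∀ q, q ∈ tsupport H → ‖q‖ ≤ R := by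
    obtain ⟨R, hR⟩ := (IsCompact.isBounded hc).exists_norm_le
    exact ⟨R, hR⟩
  set C : Set SL(2, ℝ) := iota ⁻¹' Metric.closedBall 0 R with hC
  have hCc : IsCompact C := iota_compact (isCompact_closedBall 0 R)
  set D : ℝ → SL(2, ℝ) → ℂ := fun φ g => fderiv ℝ H (rq φ (iota g)) (rq φ (W g)) with hD
  have hout : ∀ (φ : ℝ) (g : SL(2, ℝ)), g ∉ C → D φ g = 0 := by
    intro φ g hg
    have h1 : rq φ (iota g) ∉ tsupport H := by
      intro h
      apply hg
      have := hR _ h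
      rw [norm_rq] at this
      simpa [hC] using this
    have h2 : fderiv ℝ H (rq φ (iota g)) = 0 := by
      by_contra h
      exact h1 (support_fderiv_subset ℝ h)
    simp only [hD]
    rw [h2]; rfl
  set τ : ℝ → ℂ := fun φ => ∫ g, D φ g ∂μ with hτ
  have hfc : Continuous (fderiv ℝ H) := hH.continuous_fderiv (by simp)
  have hcont : Continuous (Function.uncurry D) := by
    have h1 : Continuous fun p : ℝ × SL(2, ℝ) => rq p.1 (iota p.2) :=
      continuous_rq_comp continuous_fst (iota_continuous.comp continuous_snd)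
    have h2 : Continuous fun p : ℝ × SL(2, ℝ) => rq p.1 (W p.2) :=
      continuous_rq_comp continuous_fst (hW.comp continuous_snd)
    exact (hfc.comp h1).clm_apply h2
  have hτc : Continuous τ := by
    have h1 := continuous_parametric_integral_of_continuous (μ := μ) hcont hCc
    refine h1.congr fun φ => ?_
    exact setIntegral_eq_integral_of_forall_compl_eq_zero fun g hg => hout φ g hg
  have hτp : Function.Periodic τ (2 * Real.pi) := by
    intro φ
    simp only [hτ, hD, rq_two_pi]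
  have hz : ∀ k : ℤ, ∫ φ in (0 : ℝ)..(2 * Real.pi),
      Complex.exp (-(k : ℂ) * φ * Complex.I) * τ φ = 0 := by
    intro k
    have hsw := integral_swap (μ := μ) hCc (a := 0) (b := 2 * Real.pi)
      (f := fun (φ : ℝ) (g : SL(2, ℝ)) => Complex.exp (-(k : ℂ) * φ * Complex.I) * D φ g) ?_ ?_
    · have e1 : ∀ g : SL(2, ℝ), ∫ φ in (0 : ℝ)..(2 * Real.pi),
          Complex.exp (-(k : ℂ) * φ * Complex.I) * D φ g =
          fderiv ℝ (Hk k H) (iota g) (W g) := fun g => (fderiv_Hk k hH (iota g) (W g)).symm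
      simp only [e1, hk k, integral_const_mul] at hsw
      exact hsw.symm
    · have h1 : Continuous fun p : ℝ × SL(2, ℝ) =>
          Complex.exp (-(k : ℂ) * (p.1 : ℂ) * Complex.I) := by fun_prop
      exact h1.mul hcont
    · intro φ _ g hg
      simp only [hout φ g hg, mul_zero]
  have h0 := fourier_unique hτc hτp hz 0
  simpa only [hτ, hD, rq_zero] using h0

/-! ## smoothness -/

section fac

variable {Γ : Subgroup SL(2, ℝ)} {ρ : ℍ → ℝ}

lemma ro_coe (ρ : ℍ → ℝ) (z : ℍ) : ro ρ (z : ℂ) = ρ z := by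
  unfold ro
  rw [ofComplex_apply]

lemma Fac.cont (h : Fac Γ ρ) : Continuous ρ := by
  have h1 : Continuous fun z : ℍ => ro ρ (z : ℂ) :=
    h.smooth.continuousOn.comp_continuous UpperHalfPlane.continuous_coe fun z => z.im_pos
  simpa only [ro_coe] using h1

lemma Fac.hasFDerivAt (h : Fac Γ ρ) {z : ℂ} (hz : z ∈ UH) :
    HasFDerivAt (ro ρ) (fderiv ℝ (ro ρ) z) z :=
  ((h.smooth.contDiffAt (isOpen_UH_FI.mem_nhds hz)).differentiableAt (by simp)).hasFDerivAt

lemma Fac.contPr (h : Fac Γ ρ) : Continuous (Pr ρ) := by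
  have h1 : ContinuousOn (fderiv ℝ (ro ρ)) UH :=
    (h.smooth.fderiv_of_isOpen isOpen_UH_FI (m := ∞) (by simp)).continuousOn
  have hproj : Continuous fun g : SL(2, ℝ) => g • UpperHalfPlane.I :=
    continuous_id.smul continuous_const
  have h2 : Continuous fun g : SL(2, ℝ) =>
      fderiv ℝ (ro ρ) ((g • UpperHalfPlane.I : ℍ) : ℂ) :=
    h1.comp_continuous (UpperHalfPlane.continuous_coe.comp hproj) fun g =>
      (g • UpperHalfPlane.I : ℍ).im_pos
  have h3 : Continuous fun g : SL(2, ℝ) => (iota g).2 := continuous_snd.comp iota_continuous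
  have h4 : Continuous fun g : SL(2, ℝ) => 1 / den g Complex.I ^ 2 := by
    simp only [← iota_snd]
    exact continuous_const.div (h3.pow 2) fun g => pow_ne_zero 2 (iota_snd_ne g)
  exact h2.clm_apply h4

/-- the factor `e^{2ρ}` as a complex function -/
def E2 (ρ : ℍ → ℝ) (z : ℂ) : ℂ := ((Real.exp (2 * ro ρ z) : ℝ) : ℂ)

lemma Fac.smooth_E2 (h : Fac Γ ρ) : ContDiffOn ℝ ∞ (E2 ρ) UH :=
  Complex.ofRealCLM.contDiff.comp_contDiffOn ((contDiffOn_const.mul h.smooth).exp)

lemma Fac.smooth_aR (h : Fac Γ ρ) : ContDiffOn ℝ ∞ (aR ρ) UH := by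
  have h1 : ContDiffOn ℝ ∞ (fun z : ℂ => z.im) UH := Complex.imCLM.contDiff.contDiffOn
  exact Complex.ofRealCLM.contDiff.comp_contDiffOn (h1.mul h.smooth.neg.exp)

/-- the coefficient of `om ^ (m + 1)` -/
def TA (ρ : ℍ → ℝ) (m : ℤ) (ζ : ℂ → ℂ) (z : ℂ) : ℂ :=
  -Complex.I * (E2 ρ z * (aR ρ z * dzb ζ z + m * dzb (aR ρ) z * ζ z))

/-- the coefficient of `om ^ (m - 1)` -/
def TB (ρ : ℍ → ℝ) (m : ℤ) (ζ : ℂ → ℂ) (z : ℂ) : ℂ :=
  Complex.I * (E2 ρ z * (aR ρ z * dz ζ z - m * dz (aR ρ) z * ζ z))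

lemma TA_test (h : Fac Γ ρ) (m : ℤ) {ζ : ℂ → ℂ} (hζ : Test UH ζ) : Test UH (TA ρ m ζ) := by
  have h1 := (hζ.dzb.mul isOpen_UH_FI (h.smooth_E2.mul h.smooth_aR))
  have h2 := (hζ.mul isOpen_UH_FI (h.smooth_E2.mul (contDiffOn_dzb isOpen_UH_FI h.smooth_aR)))
  have h3 := (h1.add (h2.smul (m : ℂ))).smul (-Complex.I)
  have e : TA ρ m ζ = fun z => -Complex.I * ((dzb ζ z * (E2 ρ z * aR ρ z)) +
      (m : ℂ) * (ζ z * (E2 ρ z * dzb (aR ρ) z))) := by
    funext z
    unfold TA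
    ring
  rw [e]
  exact h3

lemma TB_test (h : Fac Γ ρ) (m : ℤ) {ζ : ℂ → ℂ} (hζ : Test UH ζ) : Test UH (TB ρ m ζ) := by
  have h1 := (hζ.dz.mul isOpen_UH_FI (h.smooth_E2.mul h.smooth_aR))
  have h2 := (hζ.mul isOpen_UH_FI (h.smooth_E2.mul (contDiffOn_dz isOpen_UH_FI h.smooth_aR)))
  have h3 := (h1.add (h2.smul (-(m : ℂ)))).smul Complex.I
  have e : TB ρ m ζ = fun z => Complex.I * ((dz ζ z * (E2 ρ z * aR ρ z)) +
      (-(m : ℂ)) * (ζ z * (E2 ρ z * dz (aR ρ) z))) := by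
    funext z
    unfold TB
    ring
  rw [e]
  exact h3

lemma fderiv_aR (h : Fac Γ ρ) {z : ℂ} (hz : z ∈ UH) (v : ℂ) :
    fderiv ℝ (aR ρ) z v = ((Real.exp (-(ro ρ z)) * (v.im - z.im * fderiv ℝ (ro ρ) z v) : ℝ) : ℂ) := by
  have h1 : HasFDerivAt (fun z : ℂ => z.im) Complex.imCLM z := Complex.imCLM.hasFDerivAt
  have h2 := (h.hasFDerivAt hz).neg.exp
  have h3 := h1.mul h2
  have h4 := (Complex.ofRealCLM.hasFDerivAt).comp z h3
  have h5 : HasFDerivAt (aR ρ) _ z := h4
  rw [h5.fderiv]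
  simp only [ContinuousLinearMap.comp_apply, Complex.ofRealCLM_apply]
  congr 1
  simp
  ring

lemma dz_aR (h : Fac Γ ρ) {z : ℂ} (hz : z ∈ UH) :
    dz (aR ρ) z = (Real.exp (-(ro ρ z)) : ℝ) * (-(Complex.I / 2) - z.im *
      ((fderiv ℝ (ro ρ) z 1 : ℝ) - Complex.I * (fderiv ℝ (ro ρ) z Complex.I : ℝ)) / 2) := by
  unfold dz
  rw [fderiv_aR h hz, fderiv_aR h hz]
  simp only [Complex.one_im, Complex.I_im]
  push_cast
  ring

lemma dzb_aR (h : Fac Γ ρ) {z : ℂ} (hz : z ∈ UH) :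
    dzb (aR ρ) z = (Real.exp (-(ro ρ z)) : ℝ) * (Complex.I / 2 - z.im *
      ((fderiv ℝ (ro ρ) z 1 : ℝ) + Complex.I * (fderiv ℝ (ro ρ) z Complex.I : ℝ)) / 2) := by
  unfold dzb
  rw [fderiv_aR h hz, fderiv_aR h hz]
  simp only [Complex.one_im, Complex.I_im]
  push_cast
  ring

/-- `P ρ` in terms of the Wirtinger derivatives -/
lemma Pr_eq (ρ : ℍ → ℝ) (g : SL(2, ℝ)) :
    ((Pr ρ g : ℝ) : ℂ) = (((g • UpperHalfPlane.I : ℍ) : ℂ).im : ℂ) *
      (((fderiv ℝ (ro ρ) ((g • UpperHalfPlane.I : ℍ) : ℂ) 1 : ℝ) -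
        Complex.I * (fderiv ℝ (ro ρ) ((g • UpperHalfPlane.I : ℍ) : ℂ) Complex.I : ℝ)) / 2 *
          (om g)⁻¹ +
      ((fderiv ℝ (ro ρ) ((g • UpperHalfPlane.I : ℍ) : ℂ) 1 : ℝ) +
        Complex.I * (fderiv ℝ (ro ρ) ((g • UpperHalfPlane.I : ℍ) : ℂ) Complex.I : ℝ)) / 2 *
          om g) := by
  set z : ℂ := ((g • UpperHalfPlane.I : ℍ) : ℂ) with hz
  set j := (iota g).2 with hj
  have hj0 : j ≠ 0 := iota_snd_ne g
  have hjc : (starRingEnd ℂ) j ≠ 0 := by rwa [Ne, map_eq_zero]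
  have him := im_smul_I g
  rw [← hj, ← hz] at him
  have hden : den g Complex.I = j := (iota_snd g).symm
  set v : ℂ := 1 / j ^ 2 with hv
  have hv1 : v = (z.im : ℂ) * (om g)⁻¹ := by
    unfold om
    rw [hv, ← hj]
    field_simp
    linear_combination -(1 : ℂ) * him
  have hv2 : (starRingEnd ℂ) v = (z.im : ℂ) * om g := by
    rw [hv1, map_mul, Complex.conj_ofReal]
    congr 1
    unfold om
    rw [map_inv₀, map_div₀, Complex.conj_conj, inv_div]
  have hPr : Pr ρ g = v.re * fderiv ℝ (ro ρ) z 1 + v.im * fderiv ℝ (ro ρ) z Complex.I := by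
    unfold Pr
    rw [hden, ← hv, ← hz]
    have h : v = (v.re : ℝ) • (1 : ℂ) + (v.im : ℝ) • Complex.I := by simp
    conv_lhs => rw [h]
    rw [map_add, map_smul, map_smul, smul_eq_mul, smul_eq_mul]
  have hre : (v.re : ℂ) = (v + (starRingEnd ℂ) v) / 2 := by
    rw [Complex.add_conj]; push_cast; ring
  have hIm : (v.im : ℂ) = (v - (starRingEnd ℂ) v) / (2 * Complex.I) := by
    rw [Complex.sub_conj]
    have : Complex.I ≠ 0 := Complex.I_ne_zero
    field_simp
    push_cast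
    ring
  rw [hPr]
  push_cast
  rw [hre, hIm, hv2, hv1]
  have hI : Complex.I ≠ 0 := Complex.I_ne_zero
  field_simp
  ring_nf
  rw [Complex.I_sq]
  ring

/-- the geodesic field with the density `e^{2ρ}` -/
def Wf (ρ : ℍ → ℝ) (g : SL(2, ℝ)) : ℂ × ℂ := Real.exp (2 * ρ (g • UpperHalfPlane.I)) • XV ρ g

lemma Wf_cont (h : Fac Γ ρ) : Continuous (Wf ρ) := by
  have hproj : Continuous fun g : SL(2, ℝ) => g • UpperHalfPlane.I :=
    continuous_id.smul continuous_const
  have h1 : Continuous fun g : SL(2, ℝ) => ρ (g • UpperHalfPlane.I) := h.cont.comp hproj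
  have h2 : Continuous fun g : SL(2, ℝ) => Vq (iota g) := continuous_Vq.comp iota_continuous
  have h3 : Continuous fun g : SL(2, ℝ) => Complex.I • iota g := by
    exact Continuous.smul (f := fun _ : SL(2, ℝ) => Complex.I) continuous_const iota_continuous
  unfold Wf XV
  exact (Real.continuous_exp.comp (continuous_const.mul h1)).smul
    ((Real.continuous_exp.comp h1.neg).smul (h2.add ((h.contPr.div_const 2).smul h3)))

lemma Pr_neg (ρ : ℍ → ℝ) (g : SL(2, ℝ)) : Pr ρ (-g) = Pr ρ g := by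
  have hsm : (-g) • UpperHalfPlane.I = g • UpperHalfPlane.I := by
    apply UpperHalfPlane.ext
    rw [smul_I_eq, smul_I_eq, iota_neg]
    simp
  unfold Pr
  rw [hsm, ← iota_snd, ← iota_snd, iota_neg]
  simp

lemma Wf_neg (ρ : ℍ → ℝ) (g : SL(2, ℝ)) : Wf ρ (-g) = -Wf ρ g := by
  have hsm : (-g) • UpperHalfPlane.I = g • UpperHalfPlane.I := by
    apply UpperHalfPlane.ext
    rw [smul_I_eq, smul_I_eq, iota_neg]
    simp
  have h5 : Vq (-iota g) = -Vq (iota g) := by
    unfold Vq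
    refine Prod.ext ?_ ?_ <;> simp [neg_div]
  unfold Wf XV
  rw [hsm, Pr_neg, iota_neg, h5, smul_neg, smul_neg, ← neg_add, smul_neg, smul_neg]

/-- the derivative of an even component along the geodesic field -/
lemma field_even (h : Fac Γ ρ) (m : ℤ) {H : ℂ × ℂ → ℂ} (hH : ContDiff ℝ ∞ H)
    (ht : Test UH (zet (Hk (2 * m) H))) (g : SL(2, ℝ)) :
    fderiv ℝ (Hk (2 * m) H) (iota g) (Wf ρ g) =
      om g ^ (m + 1) * TA ρ m (zet (Hk (2 * m) H)) ((g • UpperHalfPlane.I : ℍ) : ℂ) +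
      om g ^ (m - 1) * TB ρ m (zet (Hk (2 * m) H)) ((g • UpperHalfPlane.I : ℍ) : ℂ) := by
  have hxx := XX_even m hH ht g
  unfold XX at hxx
  have hrot := fderiv_Hk_rot (2 * m) hH (iota g)
  rw [Hk_even] at hrot
  unfold Wf XV
  rw [map_smul, map_smul, map_add, map_smul, hxx, hrot]
  set z : ℂ := ((g • UpperHalfPlane.I : ℍ) : ℂ) with hz
  have hzU : z ∈ UH := (g • UpperHalfPlane.I : ℍ).im_pos
  have hro : ρ (g • UpperHalfPlane.I) = ro ρ z := (ro_coe ρ _).symm
  rw [hro]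
  simp only [Complex.real_smul]
  have hP := Pr_eq ρ g
  rw [← hz] at hP
  have ho := om_ne g
  unfold cA cB TA TB E2 aR
  have hdz := dz_aR h hzU
  have hdzb := dzb_aR h hzU
  unfold aR at hdz hdzb
  rw [hdz, hdzb]
  push_cast at hP ⊢
  rw [hP, zpow_add_one₀ ho, zpow_sub_one₀ ho]
  generalize Complex.exp (2 * (ro ρ z : ℂ)) = e2
  generalize Complex.exp (-(ro ρ z : ℂ)) = e1
  linear_combination (om g ^ m * om g * e2 * e1 * m * zet (Hk (2 * m) H) z / 2 -
    om g ^ m * (om g)⁻¹ * e2 * e1 * m * zet (Hk (2 * m) H) z / 2) * Complex.I_sq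

end fac

/-- **infinitesimal invariance** -/
theorem stmtInf : StmtInf := by
  intro _ _ Γ ρ u μ _ hF hu hneg hcoef H hH hc
  have e0 : ∫ g, fderiv ℝ H (iota g) (XV ρ g) ∂(nuR ρ μ) =
      ∫ g, fderiv ℝ H (iota g) (Wf ρ g) ∂μ := by
    have hproj : Continuous fun g : SL(2, ℝ) => g • UpperHalfPlane.I :=
      continuous_id.smul continuous_const
    have hcn : Continuous fun g : SL(2, ℝ) =>
        ENNReal.ofReal (Real.exp (2 * ρ (g • UpperHalfPlane.I))) :=
      ENNReal.continuous_ofReal.comp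
        (Real.continuous_exp.comp (continuous_const.mul (hF.cont.comp hproj)))
    unfold nuR
    rw [integral_withDensity_eq_integral_toReal_smul hcn.measurable
      (ae_of_all _ fun g => ENNReal.ofReal_lt_top)]
    refine integral_congr_ae (ae_of_all _ fun g => ?_)
    simp only
    rw [ENNReal.toReal_ofReal (Real.exp_pos _).le]
    unfold Wf
    rw [map_smul]
  rw [e0]
  refine field_of_Hk (Wf_cont hF) hH hc fun k => ?_
  obtain ⟨R, hR0, hR⟩ : ∃ R : ℝ, 0 < R ∧ ∀ q, R < ‖q‖ → H q = 0 := by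
    obtain ⟨R, hR⟩ := (IsCompact.isBounded hc).exists_norm_le
    refine ⟨max R 1, lt_max_of_lt_right one_pos, fun q hq => ?_⟩
    apply image_eq_zero_of_notMem_tsupport
    intro h
    exact absurd (hR q h) (not_le.2 (lt_of_le_of_lt (le_max_left _ _) hq))
  rcases Int.even_or_odd' k with ⟨m, rfl | rfl⟩
  · -- even components
    have ht : Test UH (zet (Hk (2 * m) H)) :=
      zet_test (Hk_smooth _ hH) hR0 fun q hq => Hk_zero_of hR _ hq
    set ζ := zet (Hk (2 * m) H) with hζ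
    have hA := TA_test hF m ht
    have hB := TB_test hF m ht
    have cont : ∀ {f : ℂ → ℂ}, Test UH f → Continuous fun z : ℍ => f z := fun h =>
      h.smooth.continuous.comp UpperHalfPlane.continuous_coe
    have hdirc : Continuous fun g : SL(2, ℝ) => dirG g := by
      have h1 : Continuous fun g : SL(2, ℝ) => (iota g).2 := continuous_snd.comp iota_continuous
      simp only [dirG_eq]
      exact continuous_const.mul ((Complex.continuous_conj.comp h1).div h1 iota_snd_ne)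
    have hproj : Continuous fun g : SL(2, ℝ) => g • UpperHalfPlane.I :=
      continuous_id.smul continuous_const
    have integ : ∀ {f : ℂ → ℂ}, Test UH f → ∀ k : ℤ, Integrable (fun g : SL(2, ℝ) =>
        f ((g • UpperHalfPlane.I : ℍ) : ℂ) * (starRingEnd ℂ) (dirG g ^ k)) μ := by
      intro f hf k
      refine Continuous.integrable_of_hasCompactSupport ?_ ?_
      · refine ((cont hf).comp hproj).mul (Complex.continuous_conj.comp ?_)
        refine hdirc.zpow₀ k fun g => Or.inl ?_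
        intro h
        have := norm_dirG_FI g
        rw [h, norm_zero] at this
        exact zero_ne_one this
      · have hK : IsCompact ((fun g : SL(2, ℝ) => g • UpperHalfPlane.I) ⁻¹'
            tsupport fun z : ℍ => f z) :=
          isProperMap_smul_I.isCompact_preimage hf.compact_H
        refine HasCompactSupport.intro hK fun g hg => ?_
        have : f ((g • UpperHalfPlane.I : ℍ) : ℂ) = 0 :=
          image_eq_zero_of_notMem_tsupport (f := fun z : ℍ => f z) hg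
        rw [this, zero_mul]
    have e1 : ∀ g : SL(2, ℝ), fderiv ℝ (Hk (2 * m) H) (iota g) (Wf ρ g) =
        Complex.I ^ (m + 1) * (TA ρ m ζ ((g • UpperHalfPlane.I : ℍ) : ℂ) *
          (starRingEnd ℂ) (dirG g ^ (m + 1))) + Complex.I ^ (m - 1) *
          (TB ρ m ζ ((g • UpperHalfPlane.I : ℍ) : ℂ) * (starRingEnd ℂ) (dirG g ^ (m - 1))) := by
      intro g
      rw [field_even hF m hH ht, om_pow, om_pow]
      ring
    simp only [e1]
    rw [integral_add ((integ hA _).const_mul _) ((integ hB _).const_mul _), integral_const_mul,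
      integral_const_mul, hcoef (m + 1) (fun z => TA ρ m ζ z) (cont hA) hA.compact_H,
      hcoef (m - 1) (fun z => TB ρ m ζ z) (cont hB) hB.compact_H,
      integral_uhp (fun z => TA ρ m ζ z * u (m + 1) z),
      integral_uhp (fun z => TB ρ m ζ z * u (m - 1) z)]
    have hI : Complex.I ^ (m + 1) = Complex.I ^ m * Complex.I := zpow_add_one₀ Complex.I_ne_zero m
    have hI' : Complex.I ^ (m - 1) = Complex.I ^ m * (-Complex.I) := by
      rw [zpow_sub_one₀ Complex.I_ne_zero, Complex.inv_I]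
    rw [hI, hI', mul_assoc, mul_assoc, ← mul_add, ← integral_const_mul, ← integral_const_mul,
      ← integral_add ((integrable_test hA (hu.loc _)).const_mul _)
        ((integrable_test hB (hu.loc _)).const_mul _)]
    have htr := hu.transport m ζ ht
    have e2 : ∫ z in UH, (Complex.I * (TA ρ m ζ z * u (m + 1) z / (z.im : ℂ) ^ 2) +
        -Complex.I * (TB ρ m ζ z * u (m - 1) z / (z.im : ℂ) ^ 2)) =
        ∫ z, ((aR ρ z * dz ζ z - m * dz (aR ρ) z * ζ z) * u (m - 1) z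
      + (aR ρ z * dzb ζ z + m * dzb (aR ρ) z * ζ z) * u (m + 1) z) * gR ρ z := by
      have e3 : ∫ z in UH, ((aR ρ z * dz ζ z - m * dz (aR ρ) z * ζ z) * u (m - 1) z
          + (aR ρ z * dzb ζ z + m * dzb (aR ρ) z * ζ z) * u (m + 1) z) * gR ρ z =
          ∫ z, ((aR ρ z * dz ζ z - m * dz (aR ρ) z * ζ z) * u (m - 1) z
          + (aR ρ z * dzb ζ z + m * dzb (aR ρ) z * ζ z) * u (m + 1) z) * gR ρ z := by
        refine setIntegral_eq_integral_of_forall_compl_eq_zero fun z hz => ?_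
        have hz' : z ∉ tsupport ζ := fun h => hz (ht.sub h)
        have f1 : ζ z = 0 := image_eq_zero_of_notMem_tsupport hz'
        have f2 : dz ζ z = 0 :=
          image_eq_zero_of_notMem_tsupport fun h => hz' (tsupport_dz_subset ζ h)
        have f3 : dzb ζ z = 0 :=
          image_eq_zero_of_notMem_tsupport fun h => hz' (tsupport_dzb_subset ζ h)
        rw [f1, f2, f3]; ring
      rw [← e3]
      refine setIntegral_congr_fun isOpen_UH_FI.measurableSet fun z _ => ?_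
      unfold TA TB E2 gR
      push_cast
      linear_combination (-(Complex.exp (2 * (ro ρ z : ℂ))) * (aR ρ z * dzb ζ z +
        m * dzb (aR ρ) z * ζ z) * u (m + 1) z / (z.im : ℂ) ^ 2 -
        Complex.exp (2 * (ro ρ z : ℂ)) * (aR ρ z * dz ζ z - m * dz (aR ρ) z * ζ z) *
          u (m - 1) z / (z.im : ℂ) ^ 2) * Complex.I_sq
    rw [e2, htr, mul_zero]
  · -- odd components
    set K := Hk (2 * m + 1) H with hK
    have hodd : ∀ q, K (-q) = -K q := Hk_neg ⟨m, rfl⟩ H
    have hKd : Differentiable ℝ K := (Hk_smooth _ hH).differentiable (by simp)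
    have hXX : ∀ g : SL(2, ℝ), fderiv ℝ K (iota (-g)) (Wf ρ (-g)) =
        -fderiv ℝ K (iota g) (Wf ρ g) := by
      intro g
      set q := iota g with hq
      have h1 : HasFDerivAt (fun q => K (-q)) (-(fderiv ℝ K (-q))) q := by
        have := (hKd (-q)).hasFDerivAt.comp q (hasFDerivAt_id q).neg
        refine this.congr_fderiv ?_
        ext v <;> simp
      have h2 : HasFDerivAt (fun q => K (-q)) (-(fderiv ℝ K q)) q := by
        have := (hKd q).hasFDerivAt.neg
        exact this.congr_of_eventuallyEq (Eventually.of_forall fun q => hodd q)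
      have h3 := h1.unique h2
      have h4 : fderiv ℝ K (-q) = fderiv ℝ K q := neg_injective h3
      rw [iota_neg, ← hq, h4, Wf_neg, map_neg]
    have hme : MeasurableEmbedding fun g : SL(2, ℝ) => -g := negH.measurableEmbedding
    have h1 : ∫ g, fderiv ℝ K (iota g) (Wf ρ g) ∂μ = -∫ g, fderiv ℝ K (iota g) (Wf ρ g) ∂μ := by
      conv_lhs => rw [← hneg]
      rw [hme.integral_map, integral_congr_ae (ae_of_all _ hXX)]
      exact integral_neg _
    have h2 : (2 : ℂ) * ∫ g, fderiv ℝ K (iota g) (Wf ρ g) ∂μ = 0 := by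
      linear_combination h1
    exact (mul_eq_zero.1 h2).resolve_left two_ne_zero

end

end NC

end QE


end

section

/-!
# Bounds and Lipschitz estimates of `ρ`, `P ρ`, `H ρ` on the frames (helper74)
-/

open MeasureTheory Filter Topology Set
open UpperHalfPlane hiding I
open scoped ContDiff MatrixGroups ENNReal

namespace QE

namespace NC

noncomputable section

namespace LipAux

/-- the open set containing the pairs of rows -/
def RowSet : Set (ℂ × ℂ) := {q | q.2 ≠ 0} ∩ (fun q => q.1 / q.2) ⁻¹' UH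

theorem isOpen_RowSet : IsOpen RowSet := by
  have h : ContinuousOn (fun q : ℂ × ℂ => q.1 / q.2) {q | q.2 ≠ 0} :=
    continuous_fst.continuousOn.div continuous_snd.continuousOn fun q hq => hq
  have ho : IsOpen {q : ℂ × ℂ | q.2 ≠ 0} := isOpen_ne_fun continuous_snd continuous_const
  exact h.isOpen_inter_preimage ho isOpen_UH

theorem iota_mem (g : SL(2, ℝ)) : iota g ∈ RowSet := by
  refine ⟨iota_snd_ne g, ?_⟩
  show (iota g).1 / (iota g).2 ∈ UH
  rw [← smul_I_eq]
  exact coe_mem_UH _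

theorem dd_nonneg (v w : SL(2, ℝ)) : 0 ≤ dd v w := by
  unfold dd nn; positivity

theorem dd_mul_left (γ v w : SL(2, ℝ)) : dd (γ * v) (γ * w) = dd v w := by
  unfold dd
  congr 1
  group

theorem norm_iota_sub (v w : SL(2, ℝ)) {R : ℝ} (hR : ∀ i j, |v i j| ≤ R) :
    ‖iota w - iota v‖ ≤ R * dd v w := by
  set h : SL(2, ℝ) := v⁻¹ * w with hh
  have hw : w = v * h := by rw [hh]; group
  have e : ∀ i j, w i j = v i 0 * h 0 j + v i 1 * h 1 j := by
    intro i j
    conv_lhs => rw [hw]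
    show ((v * h : SL(2, ℝ)) : Matrix (Fin 2) (Fin 2) ℝ) i j = _
    rw [Matrix.SpecialLinearGroup.coe_mul, Matrix.mul_apply, Fin.sum_univ_two]
  have hd : dd v w = |h 0 0 - 1| + |h 0 1| + |h 1 0| + |h 1 1 - 1| := rfl
  have hR0 : 0 ≤ R := (abs_nonneg _).trans (hR 0 0)
  have b0 : ∀ i, |w i 0 - v i 0| ≤ R * |h 0 0 - 1| + R * |h 1 0| := by
    intro i
    have h1 : w i 0 - v i 0 = v i 0 * (h 0 0 - 1) + v i 1 * h 1 0 := by rw [e]; ring
    rw [h1]
    refine (abs_add_le _ _).trans ?_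
    rw [abs_mul, abs_mul]
    gcongr <;> exact hR _ _
  have b1 : ∀ i, |w i 1 - v i 1| ≤ R * |h 0 1| + R * |h 1 1 - 1| := by
    intro i
    have h1 : w i 1 - v i 1 = v i 0 * h 0 1 + v i 1 * (h 1 1 - 1) := by rw [e]; ring
    rw [h1]
    refine (abs_add_le _ _).trans ?_
    rw [abs_mul, abs_mul]
    gcongr <;> exact hR _ _
  have c : ∀ i, ‖((⟨w i 1, w i 0⟩ : ℂ) - ⟨v i 1, v i 0⟩)‖ ≤ R * dd v w := by
    intro i
    refine (Complex.norm_le_abs_re_add_abs_im _).trans ?_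
    simp only [Complex.sub_re, Complex.sub_im]
    have h0 := b0 i
    have h1 := b1 i
    rw [hd]
    linarith
  exact max_le (c 0) (c 1)

theorem entry_le (v : SL(2, ℝ)) {R : ℝ} (hR : ‖iota v‖ ≤ R) : ∀ i j, |v i j| ≤ R := by
  have h1 : ‖(iota v).1‖ ≤ R := (norm_fst_le _).trans hR
  have h2 : ‖(iota v).2‖ ≤ R := (norm_snd_le _).trans hR
  have a := (Complex.abs_re_le_norm _).trans h1
  have b := (Complex.abs_im_le_norm _).trans h1
  have c := (Complex.abs_re_le_norm _).trans h2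
  have d := (Complex.abs_im_le_norm _).trans h2
  intro i j
  fin_cases i <;> fin_cases j
  · exact b
  · exact a
  · exact d
  · exact c

theorem main {Γ : Subgroup SL(2, ℝ)} {K : Set ℍ} (hK : IsCompact K)
    (hKc : ∀ z, ∃ γ ∈ Γ, γ • z ∈ K) {F : SL(2, ℝ) → ℝ} {f : ℂ × ℂ → ℝ}
    (hf : ContDiffOn ℝ 1 f RowSet) (hF : ∀ g, F g = f (iota g))
    (hinv : ∀ γ ∈ Γ, ∀ g, F (γ * g) = F g) :
    Continuous F ∧ ∃ B L : ℝ, 0 ≤ B ∧ 0 ≤ L ∧ (∀ g, |F g| ≤ B) ∧
      ∀ v w, |F w - F v| ≤ L * dd v w := by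
  have hFe : F = fun g => f (iota g) := funext hF
  refine ⟨?_, ?_⟩
  · rw [hFe]
    exact hf.continuousOn.comp_continuous iota_continuous iota_mem
  have hKi : IsCompact ((fun g : SL(2, ℝ) => g • UpperHalfPlane.I) ⁻¹' K) :=
    isProperMap_smul_I.isCompact_preimage hK
  set K' := (fun g : SL(2, ℝ) => g • UpperHalfPlane.I) ⁻¹' K with hK'
  have hC : IsCompact (iota '' K') := hKi.image iota_continuous
  have hCW : iota '' K' ⊆ RowSet := by rintro _ ⟨g, -, rfl⟩; exact iota_mem g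
  obtain ⟨δ, hδ, hδW⟩ := hC.exists_cthickening_subset_open isOpen_RowSet hCW
  have hT : IsCompact (Metric.cthickening δ (iota '' K')) := hC.cthickening
  obtain ⟨M, hM⟩ := hT.exists_bound_of_continuousOn
    ((hf.continuousOn_fderiv_of_isOpen isOpen_RowSet le_rfl).mono hδW)
  obtain ⟨B, hB⟩ := hC.exists_bound_of_continuousOn (f := f) (hf.continuousOn.mono hCW)
  obtain ⟨R, hR⟩ := hC.exists_bound_of_continuousOn (f := fun q : ℂ × ℂ => q) continuousOn_id
  have hfund : ∀ g : SL(2, ℝ), ∃ γ ∈ Γ, γ * g ∈ K' := by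
    intro g
    obtain ⟨γ, hγ, h⟩ := hKc (g • UpperHalfPlane.I)
    refine ⟨γ, hγ, ?_⟩
    show (γ * g) • UpperHalfPlane.I ∈ K
    rw [mul_smul]
    exact h
  have hb : ∀ g, |F g| ≤ max B 0 := by
    intro g
    obtain ⟨γ, hγ, h⟩ := hfund g
    rw [← hinv γ hγ g, hF]
    exact (hB _ ⟨_, h, rfl⟩).trans (le_max_left _ _)
  refine ⟨max B 0, max M 0 * max R 0 + 2 * max B 0 * max R 0 / δ, le_max_right _ _, ?_, hb, ?_⟩
  · have h1 : 0 ≤ max M 0 := le_max_right _ _
    have h2 : 0 ≤ max R 0 := le_max_right _ _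
    have h3 : 0 ≤ max B 0 := le_max_right _ _
    (clear * - hδ; positivity)
  intro v w
  obtain ⟨γ, hγ, hv⟩ := hfund v
  rw [← hinv γ hγ v, ← hinv γ hγ w, ← dd_mul_left γ v w]
  generalize γ * v = v' at hv
  generalize γ * w = w'
  have h1 : 0 ≤ max M 0 := le_max_right _ _
  have h2 : 0 ≤ max R 0 := le_max_right _ _
  have h3 : 0 ≤ max B 0 := le_max_right _ _
  have hd := dd_nonneg v' w'
  have hvC : iota v' ∈ iota '' K' := ⟨v', hv, rfl⟩
  have hn : ‖iota w' - iota v'‖ ≤ max R 0 * dd v' w' :=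
    norm_iota_sub v' w' (entry_le v' ((hR _ hvC).trans (le_max_left _ _)))
  by_cases hs : max R 0 * dd v' w' ≤ δ
  · have hcb : Metric.closedBall (iota v') δ ⊆ Metric.cthickening δ (iota '' K') :=
      Metric.closedBall_subset_cthickening hvC δ
    have key := Convex.norm_image_sub_le_of_norm_fderiv_le (𝕜 := ℝ) (f := f)
      (s := Metric.closedBall (iota v') δ) (C := max M 0) (x := iota v') (y := iota w')
      (fun q hq => (hf.differentiableOn (by simp)).differentiableAt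
        (isOpen_RowSet.mem_nhds (hδW (hcb hq))))
      (fun q hq => (hM q (hcb hq)).trans (le_max_left _ _))
      (convex_closedBall _ _) (Metric.mem_closedBall_self hδ.le)
      (by rw [Metric.mem_closedBall, dist_eq_norm]; exact hn.trans hs)
    rw [← hF, ← hF, Real.norm_eq_abs] at key
    refine key.trans ?_
    have h4 : max M 0 * ‖iota w' - iota v'‖ ≤ max M 0 * (max R 0 * dd v' w') := by gcongr
    have h5 : 0 ≤ 2 * max B 0 * max R 0 / δ * dd v' w' := by (clear * - hδ hd; positivity)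
    linarith
  · push Not at hs
    have h4 : |F w' - F v'| ≤ 2 * max B 0 := by
      have a := hb w'
      have b := hb v'
      have c := abs_sub (F w') (F v')
      linarith
    refine h4.trans ?_
    have h5 : 2 * max B 0 ≤ 2 * max B 0 * max R 0 / δ * dd v' w' := by
      have h6 : 2 * max B 0 * max R 0 / δ * dd v' w'
          = 2 * max B 0 * ((max R 0 * dd v' w') / δ) := by ring
      rw [h6]
      have h7 : 1 ≤ (max R 0 * dd v' w') / δ := by
        rw [le_div_iff₀ hδ]; linarith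
      nlinarith only [h3, h7]
    have h8 : 0 ≤ max M 0 * max R 0 * dd v' w' := by (clear * - hd; positivity)
    linarith

variable {Γ : Subgroup SL(2, ℝ)} {ρ : ℍ → ℝ}

theorem ro_coe (ρ : ℍ → ℝ) (z : ℍ) : ro ρ (z : ℂ) = ρ z := by
  unfold ro; rw [ofComplex_apply]

theorem contDiffOn_quot : ContDiffOn ℝ ∞ (fun q : ℂ × ℂ => q.1 / q.2) RowSet := by
  have h : ContDiffOn ℝ ∞ (fun q : ℂ × ℂ => q.1 * q.2⁻¹) RowSet :=
    contDiff_fst.contDiffOn.mul (contDiff_snd.contDiffOn.inv fun q hq => hq.1)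
  exact h.congr fun q _ => div_eq_mul_inv _ _

theorem contDiffOn_sq (c : ℂ) : ContDiffOn ℝ ∞ (fun q : ℂ × ℂ => c / q.2 ^ 2) RowSet := by
  have h : ContDiffOn ℝ ∞ (fun q : ℂ × ℂ => c * (q.2 ^ 2)⁻¹) RowSet :=
    contDiffOn_const.mul ((contDiff_snd.pow 2).contDiffOn.inv fun q hq => pow_ne_zero 2 hq.1)
  exact h.congr fun q _ => div_eq_mul_inv _ _

theorem contDiffOn_f1 (h : Fac Γ ρ) : ContDiffOn ℝ ∞ (fun q : ℂ × ℂ => ro ρ (q.1 / q.2)) RowSet :=
  h.smooth.comp contDiffOn_quot fun q hq => hq.2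

theorem contDiffOn_f2 (h : Fac Γ ρ) (c : ℂ) :
    ContDiffOn ℝ ∞ (fun q : ℂ × ℂ => fderiv ℝ (ro ρ) (q.1 / q.2) (c / q.2 ^ 2)) RowSet := by
  have h1 : ContDiffOn ℝ ∞ (fderiv ℝ (ro ρ)) UH :=
    h.smooth.fderiv_of_isOpen isOpen_UH (by simp)
  exact (h1.comp contDiffOn_quot fun q hq => hq.2).clm_apply (contDiffOn_sq c)

/-- `P ρ` (`c = 1`) and `H ρ` (`c = I`) -/
def QQ (ρ : ℍ → ℝ) (c : ℂ) (g : SL(2, ℝ)) : ℝ :=
  fderiv ℝ (ro ρ) ((g • UpperHalfPlane.I : ℍ) : ℂ) (c / den g Complex.I ^ 2)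

theorem QQ_iota (ρ : ℍ → ℝ) (c : ℂ) (g : SL(2, ℝ)) :
    QQ ρ c g = (fun q : ℂ × ℂ => fderiv ℝ (ro ρ) (q.1 / q.2) (c / q.2 ^ 2)) (iota g) := by
  show _ = fderiv ℝ (ro ρ) ((iota g).1 / (iota g).2) (c / (iota g).2 ^ 2)
  rw [← smul_I_eq, iota_snd]
  rfl

theorem ro_mob {γ : SL(2, ℝ)} (h : ∀ z, ρ (γ • z) = ρ z) (z : ℂ) : ro ρ (mob γ z) = ro ρ z := by
  unfold ro
  rw [ofComplex_mob, h]

theorem QQ_mul (hf : Fac Γ ρ) (c : ℂ) {γ : SL(2, ℝ)} (h : ∀ z, ρ (γ • z) = ρ z) (g : SL(2, ℝ)) :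
    QQ ρ c (γ * g) = QQ ρ c g := by
  have hz : ((g • UpperHalfPlane.I : ℍ) : ℂ) ∈ UH := coe_mem_UH _
  have he : (fun z => ro ρ (mob γ z)) = ro ρ := funext fun z => ro_mob h z
  have hd : DifferentiableAt ℝ (ro ρ) (mob γ ((g • UpperHalfPlane.I : ℍ) : ℂ)) :=
    (hf.smooth.differentiableOn (by simp)).differentiableAt (isOpen_UH.mem_nhds (mob_mem _ _))
  unfold QQ
  rw [mul_smul, ← mob_coe, den_mul γ g I_mem_UH, mob_I]
  conv_rhs => rw [← he]
  have e : (fun w => ro ρ (mob γ w)) = ro ρ ∘ mob γ := rfl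
  rw [e, fderiv_comp _ hd (differentiableAt_mob γ hz), ContinuousLinearMap.comp_apply,
    fderiv_mob γ hz]
  congr 1
  rw [mul_pow, div_mul_div_comm, one_mul]

theorem QQ_neg (ρ : ℍ → ℝ) (c : ℂ) (g : SL(2, ℝ)) : QQ ρ c (-g) = QQ ρ c g := by
  unfold QQ
  rw [neg_smul_eq, den_neg, neg_sq]

theorem exists_smul_I (z : ℍ) : ∃ g : SL(2, ℝ), g • UpperHalfPlane.I = z :=
  MulAction.exists_smul_eq SL(2, ℝ) UpperHalfPlane.I z

end LipAux

open _root_.QE.NC.LipAux

theorem stmtLip : StmtLip := by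
  intro Γ ρ hf
  obtain ⟨K, hK, hKc⟩ := hf.cpt
  have hP : ∀ g, Pr ρ g = QQ ρ 1 g := fun g => rfl
  have hH : ∀ g, Hr ρ g = QQ ρ Complex.I g := fun g => rfl
  have c1 : ContDiffOn ℝ 1 (fun q : ℂ × ℂ => ro ρ (q.1 / q.2)) RowSet :=
    (contDiffOn_f1 hf).of_le (by simp)
  have c2 : ∀ c, ContDiffOn ℝ 1 (fun q : ℂ × ℂ => fderiv ℝ (ro ρ) (q.1 / q.2) (c / q.2 ^ 2)) RowSet :=
    fun c => (contDiffOn_f2 hf c).of_le (by simp)
  obtain ⟨k1, B1, L1, hB1, hL1, b1, l1⟩ := main hK hKc (F := fun g => ρ (g • UpperHalfPlane.I)) c1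
    (fun g => by
      show _ = ro ρ ((iota g).1 / (iota g).2)
      rw [← smul_I_eq, ro_coe])
    (fun γ hγ g => by
      show ρ ((γ * g) • UpperHalfPlane.I) = _
      rw [mul_smul, hf.inv γ hγ])
  obtain ⟨k2, B2, L2, hB2, hL2, b2, l2⟩ := main hK hKc (F := QQ ρ 1) (c2 1) (QQ_iota ρ 1)
    (fun γ hγ g => QQ_mul hf 1 (hf.inv γ hγ) g)
  obtain ⟨k3, B3, L3, hB3, hL3, b3, l3⟩ := main hK hKc (F := QQ ρ Complex.I) (c2 Complex.I)
    (QQ_iota ρ Complex.I) (fun γ hγ g => QQ_mul hf Complex.I (hf.inv γ hγ) g)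
  refine ⟨fun γ hγ g => ⟨QQ_mul hf 1 hγ g, QQ_mul hf Complex.I hγ g⟩,
    fun g => ⟨QQ_neg ρ 1 g, QQ_neg ρ Complex.I g⟩, ?_, k2, k3, max B1 (max B2 B3),
    max L1 (max L2 L3), le_max_of_le_left hB1, le_max_of_le_left hL1, ?_, ?_, ?_, ?_, ?_, ?_⟩
  · have h : ρ = fun z : ℍ => ro ρ (z : ℂ) := funext fun z => (ro_coe ρ z).symm
    rw [h]
    exact hf.smooth.continuousOn.comp_continuous UpperHalfPlane.continuous_coe coe_mem_UH
  · intro z
    obtain ⟨g, rfl⟩ := exists_smul_I z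
    exact (b1 g).trans (le_max_left _ _)
  · exact fun g => (b2 g).trans ((le_max_left _ _).trans (le_max_right _ _))
  · exact fun g => (b3 g).trans ((le_max_right _ _).trans (le_max_right _ _))
  · exact fun v w => (l1 v w).trans (mul_le_mul_of_nonneg_right (le_max_left _ _) (dd_nonneg v w))
  · exact fun v w => (l2 v w).trans (mul_le_mul_of_nonneg_right
      ((le_max_left _ _).trans (le_max_right _ _)) (dd_nonneg v w))
  · exact fun v w => (l3 v w).trans (mul_le_mul_of_nonneg_right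
      ((le_max_right _ _).trans (le_max_right _ _)) (dd_nonneg v w))

end

end NC

end QE


end

section

/-!
# Closed surfaces of negative curvature: the flow and the distance (helper75)
-/

open MeasureTheory Filter Topology Set
open UpperHalfPlane hiding I
open scoped ContDiff MatrixGroups ENNReal

namespace QE

namespace NC

noncomputable section

namespace Fl

/-! ### scalar estimates -/

/-- global Gronwall estimate for a scalar function -/
theorem gron {N N' : ℝ → ℝ} {K : ℝ} (hd : ∀ t, HasDerivAt N (N' t) t)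
    (hb : ∀ t, |N' t| ≤ K * N t) (t : ℝ) : N t ≤ Real.exp (K * |t|) * N 0 := by
  rcases le_total 0 t with ht | ht
  · have h1 : ∀ s, HasDerivAt (fun s => N s * Real.exp (-(K * s)))
        ((N' s - K * N s) * Real.exp (-(K * s))) s := by
      intro s
      have e0 : HasDerivAt (fun s : ℝ => K * s) (K * 1) s := (hasDerivAt_id s).const_mul K
      have e1 : HasDerivAt (fun s : ℝ => -(K * s)) (-(K * 1)) s := e0.neg
      have e2 := (hd s).mul e1.exp
      exact e2.congr_deriv (by ring)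
    have h2 : Antitone (fun s => N s * Real.exp (-(K * s))) := by
      apply antitone_of_deriv_nonpos (fun s => (h1 s).differentiableAt)
      intro s
      rw [(h1 s).deriv]
      have := (abs_le.1 (hb s)).2
      exact mul_nonpos_of_nonpos_of_nonneg (by linarith) (Real.exp_pos _).le
    have h3 := h2 ht
    simp only [mul_zero, neg_zero, Real.exp_zero, mul_one] at h3
    rw [abs_of_nonneg ht]
    have h4 : N t = Real.exp (K * t) * (N t * Real.exp (-(K * t))) := by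
      rw [mul_comm (N t), ← mul_assoc, ← Real.exp_add]
      simp
    rw [h4]
    exact mul_le_mul_of_nonneg_left h3 (Real.exp_pos _).le
  · have h1 : ∀ s, HasDerivAt (fun s => N s * Real.exp (K * s))
        ((N' s + K * N s) * Real.exp (K * s)) s := by
      intro s
      have e0 : HasDerivAt (fun s : ℝ => K * s) (K * 1) s := (hasDerivAt_id s).const_mul K
      have e2 := (hd s).mul e0.exp
      exact e2.congr_deriv (by ring)
    have h2 : Monotone (fun s => N s * Real.exp (K * s)) := by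
      apply monotone_of_deriv_nonneg (fun s => (h1 s).differentiableAt)
      intro s
      rw [(h1 s).deriv]
      have := (abs_le.1 (hb s)).1
      exact mul_nonneg (by linarith) (Real.exp_pos _).le
    have h3 := h2 ht
    simp only [mul_zero, Real.exp_zero, mul_one] at h3
    rw [abs_of_nonpos ht]
    have h4 : N t = Real.exp (K * -t) * (N t * Real.exp (K * t)) := by
      rw [mul_comm (N t), ← mul_assoc, ← Real.exp_add]
      simp
    rw [h4]
    exact mul_le_mul_of_nonneg_left h3 (Real.exp_pos _).le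

theorem abs_mul_le {x y X Y : ℝ} (hx : |x| ≤ X) (hy : |y| ≤ Y) : |x * y| ≤ X * Y := by
  rw [abs_mul]
  exact mul_le_mul hx hy (abs_nonneg _) (le_trans (abs_nonneg _) hx)

/-- the sum of the absolute values of four numbers -/
def S4 (a b c d : ℝ) : ℝ := |a| + |b| + |c| + |d|

theorem S4_nonneg (a b c d : ℝ) : 0 ≤ S4 a b c d := by
  unfold S4; positivity

theorem S4_sq (a b c d : ℝ) : S4 a b c d ^ 2 ≤ 4 * (a ^ 2 + b ^ 2 + c ^ 2 + d ^ 2) := by
  unfold S4
  have h1 := sq_abs a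
  have h2 := sq_abs b
  have h3 := sq_abs c
  have h4 := sq_abs d
  linarith only [h1, h2, h3, h4, sq_nonneg (|a| - |b|), sq_nonneg (|a| - |c|), sq_nonneg (|a| - |d|), sq_nonneg (|b| - |c|), sq_nonneg (|b| - |d|), sq_nonneg (|c| - |d|)]

theorem sq_le_S4 (a b c d : ℝ) : a ^ 2 + b ^ 2 + c ^ 2 + d ^ 2 ≤ S4 a b c d ^ 2 := by
  unfold S4
  have h1 := sq_abs a
  have h2 := sq_abs b
  have h3 := sq_abs c
  have h4 := sq_abs d
  linarith only [h1, h2, h3, h4, mul_nonneg (abs_nonneg a) (abs_nonneg b), mul_nonneg (abs_nonneg a) (abs_nonneg c), mul_nonneg (abs_nonneg a) (abs_nonneg d), mul_nonneg (abs_nonneg b) (abs_nonneg c), mul_nonneg (abs_nonneg b) (abs_nonneg d), mul_nonneg (abs_nonneg c) (abs_nonneg d)]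

/-- the derivative of the sum of squares -/
theorem sq_deriv {a b c d a' b' c' d' : ℝ → ℝ} (t : ℝ) (ha : HasDerivAt a (a' t) t)
    (hb : HasDerivAt b (b' t) t) (hc : HasDerivAt c (c' t) t) (hd : HasDerivAt d (d' t) t) :
    HasDerivAt (fun s => a s ^ 2 + b s ^ 2 + c s ^ 2 + d s ^ 2)
      (2 * (a t * a' t + b t * b' t + c t * c' t + d t * d' t)) t := by
  have := (((ha.pow 2).add (hb.pow 2)).add (hc.pow 2)).add (hd.pow 2)
  exact this.congr_deriv (by push_cast; ring)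

/-- if the derivatives are bounded by `C` times the sum of the absolute values, the square sum
satisfies the hypothesis of `gron` -/
theorem sq_bound {a b c d a' b' c' d' C : ℝ} (hC : 0 ≤ C) (ha : |a'| ≤ C * S4 a b c d)
    (hb : |b'| ≤ C * S4 a b c d) (hc : |c'| ≤ C * S4 a b c d) (hd : |d'| ≤ C * S4 a b c d) :
    |2 * (a * a' + b * b' + c * c' + d * d')| ≤ (8 * C) * (a ^ 2 + b ^ 2 + c ^ 2 + d ^ 2) := by
  have h0 := S4_nonneg a b c d
  have h1 := abs_mul_le (le_refl |a|) ha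
  have h2 := abs_mul_le (le_refl |b|) hb
  have h3 := abs_mul_le (le_refl |c|) hc
  have h4 := abs_mul_le (le_refl |d|) hd
  have h5 : |a * a' + b * b' + c * c' + d * d'| ≤ C * S4 a b c d ^ 2 := by
    calc |a * a' + b * b' + c * c' + d * d'|
        ≤ |a * a'| + |b * b'| + |c * c'| + |d * d'| := by
          refine (abs_add_le _ _).trans ?_
          gcongr
          refine (abs_add_le _ _).trans ?_
          gcongr
          exact abs_add_le _ _
      _ ≤ |a| * (C * S4 a b c d) + |b| * (C * S4 a b c d) + |c| * (C * S4 a b c d) +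
          |d| * (C * S4 a b c d) := by linarith
      _ = C * S4 a b c d ^ 2 := by unfold S4; ring
  have h6 := S4_sq a b c d
  rw [abs_mul, abs_of_pos (by norm_num : (0 : ℝ) < 2)]
  linarith only [h5, mul_le_mul_of_nonneg_left h6 hC]

theorem le_of_sq_le_sq_real {x y : ℝ} (h : x ^ 2 ≤ y ^ 2) (hy : 0 ≤ y) : x ≤ y :=
  le_of_not_gt fun h' => by nlinarith

/-- the final form: four functions whose derivatives are bounded by `C` times their sum -/
theorem four {a b c d a' b' c' d' : ℝ → ℝ} {C : ℝ} (hC : 0 ≤ C)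
    (ha : ∀ t, HasDerivAt a (a' t) t) (hb : ∀ t, HasDerivAt b (b' t) t)
    (hc : ∀ t, HasDerivAt c (c' t) t) (hd : ∀ t, HasDerivAt d (d' t) t)
    (ba : ∀ t, |a' t| ≤ C * S4 (a t) (b t) (c t) (d t))
    (bb : ∀ t, |b' t| ≤ C * S4 (a t) (b t) (c t) (d t))
    (bc : ∀ t, |c' t| ≤ C * S4 (a t) (b t) (c t) (d t))
    (bd : ∀ t, |d' t| ≤ C * S4 (a t) (b t) (c t) (d t)) (t : ℝ) :
    S4 (a t) (b t) (c t) (d t) ≤ 2 * Real.exp (4 * C * |t|) * S4 (a 0) (b 0) (c 0) (d 0) := by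
  have h1 := gron (K := 8 * C) (fun t => sq_deriv t (ha t) (hb t) (hc t) (hd t))
    (fun t => sq_bound hC (ba t) (bb t) (bc t) (bd t)) t
  have h2 := S4_sq (a t) (b t) (c t) (d t)
  have h3 := sq_le_S4 (a 0) (b 0) (c 0) (d 0)
  have h4 : Real.exp (8 * C * |t|) = Real.exp (4 * C * |t|) ^ 2 := by
    rw [← Real.exp_nat_mul]; congr 1; push_cast; ring
  rw [h4] at h1
  have h5 : S4 (a t) (b t) (c t) (d t) ^ 2 ≤
      (2 * Real.exp (4 * C * |t|) * S4 (a 0) (b 0) (c 0) (d 0)) ^ 2 := by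
    have := mul_le_mul_of_nonneg_left h3 (sq_nonneg (Real.exp (4 * C * |t|)))
    linarith only [h1, h2, this]
  exact le_of_sq_le_sq_real h5 (by
    have := S4_nonneg (a 0) (b 0) (c 0) (d 0)
    positivity)

/-! ### the entries -/

theorem ent00 (v w : SL(2, ℝ)) : (v⁻¹ * w) 0 0 = v 1 1 * w 0 0 - v 0 1 * w 1 0 := by
  simp [Matrix.SpecialLinearGroup.coe_mul, Matrix.SpecialLinearGroup.coe_inv,
    Matrix.adjugate_fin_two, Matrix.mul_apply, Fin.sum_univ_two]
  ring

theorem ent01 (v w : SL(2, ℝ)) : (v⁻¹ * w) 0 1 = v 1 1 * w 0 1 - v 0 1 * w 1 1 := by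
  simp [Matrix.SpecialLinearGroup.coe_mul, Matrix.SpecialLinearGroup.coe_inv,
    Matrix.adjugate_fin_two, Matrix.mul_apply, Fin.sum_univ_two]
  ring

theorem ent10 (v w : SL(2, ℝ)) : (v⁻¹ * w) 1 0 = -(v 1 0 * w 0 0) + v 0 0 * w 1 0 := by
  simp [Matrix.SpecialLinearGroup.coe_mul, Matrix.SpecialLinearGroup.coe_inv,
    Matrix.adjugate_fin_two, Matrix.mul_apply, Fin.sum_univ_two]

theorem ent11 (v w : SL(2, ℝ)) : (v⁻¹ * w) 1 1 = -(v 1 0 * w 0 1) + v 0 0 * w 1 1 := by
  simp [Matrix.SpecialLinearGroup.coe_mul, Matrix.SpecialLinearGroup.coe_inv,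
    Matrix.adjugate_fin_two, Matrix.mul_apply, Fin.sum_univ_two]

theorem dd_eq (v w : SL(2, ℝ)) : dd v w = S4 (v 1 1 * w 0 0 - v 0 1 * w 1 0 - 1)
    (v 1 1 * w 0 1 - v 0 1 * w 1 1) (-(v 1 0 * w 0 0) + v 0 0 * w 1 0)
    (-(v 1 0 * w 0 1) + v 0 0 * w 1 1 - 1) := by
  unfold dd nn S4
  rw [ent00, ent01, ent10, ent11]

/-- the diagonal coefficient of `AA` -/
def ca (ρ : ℍ → ℝ) (g : SL(2, ℝ)) : ℝ := Real.exp (-ρ (g • UpperHalfPlane.I)) / 2

/-- the off-diagonal coefficient of `AA` -/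
def cb (ρ : ℍ → ℝ) (g : SL(2, ℝ)) : ℝ := Real.exp (-ρ (g • UpperHalfPlane.I)) * Pr ρ g / 2

section

variable {ρ : ℍ → ℝ} {Φ : ℝ → SL(2, ℝ) → SL(2, ℝ)}

theorem der00 (hΦ : GFlow ρ Φ) (g : SL(2, ℝ)) (t : ℝ) : HasDerivAt (fun s => Φ s g 0 0)
    (Φ t g 0 0 * ca ρ (Φ t g) + Φ t g 0 1 * cb ρ (Φ t g)) t := by
  have h := hΦ.deriv g t 0 0
  refine h.congr_deriv ?_
  simp [AA, ca, cb, Matrix.mul_apply, Fin.sum_univ_two]
  ring

theorem der01 (hΦ : GFlow ρ Φ) (g : SL(2, ℝ)) (t : ℝ) : HasDerivAt (fun s => Φ s g 0 1)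
    (-(Φ t g 0 0 * cb ρ (Φ t g)) - Φ t g 0 1 * ca ρ (Φ t g)) t := by
  have h := hΦ.deriv g t 0 1
  refine h.congr_deriv ?_
  simp [AA, ca, cb, Matrix.mul_apply, Fin.sum_univ_two]
  ring

theorem der10 (hΦ : GFlow ρ Φ) (g : SL(2, ℝ)) (t : ℝ) : HasDerivAt (fun s => Φ s g 1 0)
    (Φ t g 1 0 * ca ρ (Φ t g) + Φ t g 1 1 * cb ρ (Φ t g)) t := by
  have h := hΦ.deriv g t 1 0
  refine h.congr_deriv ?_
  simp [AA, ca, cb, Matrix.mul_apply, Fin.sum_univ_two]
  ring

theorem der11 (hΦ : GFlow ρ Φ) (g : SL(2, ℝ)) (t : ℝ) : HasDerivAt (fun s => Φ s g 1 1)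
    (-(Φ t g 1 0 * cb ρ (Φ t g)) - Φ t g 1 1 * ca ρ (Φ t g)) t := by
  have h := hΦ.deriv g t 1 1
  refine h.congr_deriv ?_
  simp [AA, ca, cb, Matrix.mul_apply, Fin.sum_univ_two]
  ring

end

theorem exp_lip {x y B : ℝ} (hx : x ≤ B) (hy : y ≤ B) :
    |Real.exp x - Real.exp y| ≤ Real.exp B * |x - y| := by
  wlog h : x ≤ y generalizing x y with H
  · have := H hy hx (le_of_not_ge h)
    rw [abs_sub_comm, abs_sub_comm x y]
    exact this
  have h1 : Real.exp x = Real.exp y * Real.exp (x - y) := by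
    rw [← Real.exp_add]; congr 1; ring
  have h2 := Real.add_one_le_exp (x - y)
  have h3 : Real.exp x ≤ Real.exp y := Real.exp_le_exp.2 h
  have h4 : Real.exp y ≤ Real.exp B := Real.exp_le_exp.2 hy
  rw [abs_sub_comm, abs_of_nonneg (by linarith), abs_sub_comm, abs_of_nonneg (by linarith)]
  have h5 : Real.exp y - Real.exp x = Real.exp y * (1 - Real.exp (x - y)) := by rw [h1]; ring
  rw [h5]
  have h6 : 1 - Real.exp (x - y) ≤ y - x := by linarith
  have h7 := Real.exp_pos y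
  calc Real.exp y * (1 - Real.exp (x - y)) ≤ Real.exp y * (y - x) :=
        mul_le_mul_of_nonneg_left h6 h7.le
    _ ≤ Real.exp B * (y - x) := mul_le_mul_of_nonneg_right h4 (by linarith)

/-- linear combinations -/
theorem lin5 {M C D a b c d x₁ x₂ x₃ x₄ y : ℝ} (ha : |a| ≤ M) (hb : |b| ≤ M)
    (hc : |c| ≤ M) (hd : |d| ≤ M) (h1 : |x₁| ≤ D) (h2 : |x₂| ≤ D) (h3 : |x₃| ≤ D)
    (h4 : |x₄| ≤ D) (hy : |y| ≤ C * D) :
    |x₁ * a + x₂ * b + x₃ * c + x₄ * d + y| ≤ (4 * M + C) * D := by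
  have e1 := abs_mul_le h1 ha
  have e2 := abs_mul_le h2 hb
  have e3 := abs_mul_le h3 hc
  have e4 := abs_mul_le h4 hd
  calc |x₁ * a + x₂ * b + x₃ * c + x₄ * d + y|
      ≤ |x₁ * a| + |x₂ * b| + |x₃ * c| + |x₄ * d| + |y| := by
        refine (abs_add_le _ _).trans ?_
        gcongr
        refine (abs_add_le _ _).trans ?_
        gcongr
        refine (abs_add_le _ _).trans ?_
        gcongr
        exact abs_add_le _ _
    _ ≤ D * M + D * M + D * M + D * M + C * D := by linarith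
    _ = (4 * M + C) * D := by ring

theorem le_S4_1 (a b c d : ℝ) : |a| ≤ S4 a b c d := by
  unfold S4; linarith [abs_nonneg a, abs_nonneg b, abs_nonneg c, abs_nonneg d]

theorem le_S4_2 (a b c d : ℝ) : |b| ≤ S4 a b c d := by
  unfold S4; linarith [abs_nonneg a, abs_nonneg b, abs_nonneg c, abs_nonneg d]

theorem le_S4_3 (a b c d : ℝ) : |c| ≤ S4 a b c d := by
  unfold S4; linarith [abs_nonneg a, abs_nonneg b, abs_nonneg c, abs_nonneg d]

theorem le_S4_4 (a b c d : ℝ) : |d| ≤ S4 a b c d := by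
  unfold S4; linarith [abs_nonneg a, abs_nonneg b, abs_nonneg c, abs_nonneg d]

section

variable {ρ : ℍ → ℝ} {Φ : ℝ → SL(2, ℝ) → SL(2, ℝ)}

/-- growth of the distance along the flow -/
theorem dflow (hΦ : GFlow ρ Φ) {M C : ℝ} (hM : 0 ≤ M) (hC : 0 ≤ C)
    (ha : ∀ g, |ca ρ g| ≤ M) (hb : ∀ g, |cb ρ g| ≤ M)
    (hda : ∀ v w, |ca ρ w - ca ρ v| ≤ C * dd v w) (hdb : ∀ v w, |cb ρ w - cb ρ v| ≤ C * dd v w)
    (v w : SL(2, ℝ)) (t : ℝ) :
    dd (Φ t v) (Φ t w) ≤ 2 * Real.exp (4 * (4 * M + C) * |t|) * dd v w := by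
  have hK : 0 ≤ 4 * M + C := by linarith
  have key := four (C := 4 * M + C)
    (a := fun s => Φ s v 1 1 * Φ s w 0 0 - Φ s v 0 1 * Φ s w 1 0 - 1)
    (b := fun s => Φ s v 1 1 * Φ s w 0 1 - Φ s v 0 1 * Φ s w 1 1)
    (c := fun s => -(Φ s v 1 0 * Φ s w 0 0) + Φ s v 0 0 * Φ s w 1 0)
    (d := fun s => -(Φ s v 1 0 * Φ s w 0 1) + Φ s v 0 0 * Φ s w 1 1 - 1)
    (a' := fun s => (Φ s v 1 1 * Φ s w 0 0 - Φ s v 0 1 * Φ s w 1 0 - 1) * ca ρ (Φ s w) +
      (Φ s v 1 1 * Φ s w 0 1 - Φ s v 0 1 * Φ s w 1 1) * cb ρ (Φ s w) +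
      (Φ s v 1 1 * Φ s w 0 0 - Φ s v 0 1 * Φ s w 1 0 - 1) * (-ca ρ (Φ s v)) +
      (-(Φ s v 1 0 * Φ s w 0 0) + Φ s v 0 0 * Φ s w 1 0) * cb ρ (Φ s v) +
      (ca ρ (Φ s w) - ca ρ (Φ s v)))
    (b' := fun s => (Φ s v 1 1 * Φ s w 0 0 - Φ s v 0 1 * Φ s w 1 0 - 1) * (-cb ρ (Φ s w)) +
      (Φ s v 1 1 * Φ s w 0 1 - Φ s v 0 1 * Φ s w 1 1) * (-ca ρ (Φ s w)) +
      (Φ s v 1 1 * Φ s w 0 1 - Φ s v 0 1 * Φ s w 1 1) * (-ca ρ (Φ s v)) +
      (-(Φ s v 1 0 * Φ s w 0 1) + Φ s v 0 0 * Φ s w 1 1 - 1) * cb ρ (Φ s v) +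
      -(cb ρ (Φ s w) - cb ρ (Φ s v)))
    (c' := fun s => (-(Φ s v 1 0 * Φ s w 0 0) + Φ s v 0 0 * Φ s w 1 0) * ca ρ (Φ s w) +
      (-(Φ s v 1 0 * Φ s w 0 1) + Φ s v 0 0 * Φ s w 1 1 - 1) * cb ρ (Φ s w) +
      (Φ s v 1 1 * Φ s w 0 0 - Φ s v 0 1 * Φ s w 1 0 - 1) * (-cb ρ (Φ s v)) +
      (-(Φ s v 1 0 * Φ s w 0 0) + Φ s v 0 0 * Φ s w 1 0) * ca ρ (Φ s v) +
      (cb ρ (Φ s w) - cb ρ (Φ s v)))
    (d' := fun s => (-(Φ s v 1 0 * Φ s w 0 0) + Φ s v 0 0 * Φ s w 1 0) * (-cb ρ (Φ s w)) +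
      (-(Φ s v 1 0 * Φ s w 0 1) + Φ s v 0 0 * Φ s w 1 1 - 1) * (-ca ρ (Φ s w)) +
      (Φ s v 1 1 * Φ s w 0 1 - Φ s v 0 1 * Φ s w 1 1) * (-cb ρ (Φ s v)) +
      (-(Φ s v 1 0 * Φ s w 0 1) + Φ s v 0 0 * Φ s w 1 1 - 1) * ca ρ (Φ s v) +
      -(ca ρ (Φ s w) - ca ρ (Φ s v)))
    hK
    (fun s => ((((der11 hΦ v s).mul (der00 hΦ w s)).sub
      ((der01 hΦ v s).mul (der10 hΦ w s))).sub_const 1).congr_deriv (by ring))
    (fun s => ((((der11 hΦ v s).mul (der01 hΦ w s)).sub
      ((der01 hΦ v s).mul (der11 hΦ w s)))).congr_deriv (by ring))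
    (fun s => ((((der10 hΦ v s).mul (der00 hΦ w s)).neg.add
      ((der00 hΦ v s).mul (der10 hΦ w s)))).congr_deriv (by ring))
    (fun s => ((((der10 hΦ v s).mul (der01 hΦ w s)).neg.add
      ((der00 hΦ v s).mul (der11 hΦ w s))).sub_const 1).congr_deriv (by ring))
    (fun s => lin5 (ha _) (hb _) (by rw [abs_neg]; exact ha _) (hb _) (le_S4_1 _ _ _ _)
      (le_S4_2 _ _ _ _) (le_S4_1 _ _ _ _) (le_S4_3 _ _ _ _)
      (by rw [← dd_eq]; exact hda _ _))
    (fun s => lin5 (by rw [abs_neg]; exact hb _) (by rw [abs_neg]; exact ha _)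
      (by rw [abs_neg]; exact ha _) (hb _) (le_S4_1 _ _ _ _)
      (le_S4_2 _ _ _ _) (le_S4_2 _ _ _ _) (le_S4_4 _ _ _ _)
      (by rw [← dd_eq, abs_neg]; exact hdb _ _))
    (fun s => lin5 (ha _) (hb _) (by rw [abs_neg]; exact hb _) (ha _) (le_S4_3 _ _ _ _)
      (le_S4_4 _ _ _ _) (le_S4_1 _ _ _ _) (le_S4_3 _ _ _ _)
      (by rw [← dd_eq]; exact hdb _ _))
    (fun s => lin5 (by rw [abs_neg]; exact hb _) (by rw [abs_neg]; exact ha _)
      (by rw [abs_neg]; exact hb _) (ha _) (le_S4_3 _ _ _ _)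
      (le_S4_4 _ _ _ _) (le_S4_2 _ _ _ _) (le_S4_4 _ _ _ _)
      (by rw [← dd_eq, abs_neg]; exact hda _ _)) t
  rw [dd_eq, dd_eq v w]
  simpa only [hΦ.zero] using key

theorem mvt {f f' : ℝ → ℝ} {C : ℝ} (hf : ∀ s, HasDerivAt f (f' s) s)
    (hb : ∀ s, |s| ≤ 1 → |f' s| ≤ C) {t : ℝ} (ht : |t| ≤ 1) : |f t - f 0| ≤ C * |t| := by
  have h := Convex.norm_image_sub_le_of_norm_hasDerivWithin_le (f := f) (f' := f') (C := C)
    (s := Icc (-1 : ℝ) 1) (x := 0) (y := t) (fun x _ => (hf x).hasDerivWithinAt)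
    (fun x hx => by
      rw [Real.norm_eq_abs]
      exact hb x (abs_le.2 hx)) (convex_Icc _ _) (by norm_num) (abs_le.1 ht)
  simpa using h

theorem lin2 {M D a b x₁ x₂ : ℝ} (hM : 0 ≤ M) (ha : |a| ≤ M) (hb : |b| ≤ M)
    (h : |x₁| + |x₂| ≤ D) : |x₁ * a + x₂ * b| ≤ M * D := by
  have e1 := abs_mul_le (le_refl |x₁|) ha
  have e2 := abs_mul_le (le_refl |x₂|) hb
  calc |x₁ * a + x₂ * b| ≤ |x₁ * a| + |x₂ * b| := abs_add_le _ _
    _ ≤ |x₁| * M + |x₂| * M := by linarith
    _ = M * (|x₁| + |x₂|) := by ring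
    _ ≤ M * D := mul_le_mul_of_nonneg_left h hM

/-- the distance of a point to its image under the flow -/
theorem dmove (hΦ : GFlow ρ Φ) {M : ℝ} (hM : 0 ≤ M)
    (ha : ∀ g, |ca ρ g| ≤ M) (hb : ∀ g, |cb ρ g| ≤ M) (v : SL(2, ℝ)) (t : ℝ) (ht : |t| ≤ 1) :
    dd v (Φ t v) ≤ 4 * (M * (4 * Real.exp (4 * M))) * |t| := by
  set p : ℝ → ℝ := fun s => v 1 1 * Φ s v 0 0 - v 0 1 * Φ s v 1 0 with hp
  set q : ℝ → ℝ := fun s => v 1 1 * Φ s v 0 1 - v 0 1 * Φ s v 1 1 with hq
  set r : ℝ → ℝ := fun s => -(v 1 0 * Φ s v 0 0) + v 0 0 * Φ s v 1 0 with hr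
  set u : ℝ → ℝ := fun s => -(v 1 0 * Φ s v 0 1) + v 0 0 * Φ s v 1 1 with hu
  have dp : ∀ s, HasDerivAt p (p s * ca ρ (Φ s v) + q s * cb ρ (Φ s v)) s := fun s =>
    (((der00 hΦ v s).const_mul _).sub ((der10 hΦ v s).const_mul _)).congr_deriv
      (by simp only [hp, hq]; ring)
  have dq : ∀ s, HasDerivAt q (p s * (-cb ρ (Φ s v)) + q s * (-ca ρ (Φ s v))) s := fun s =>
    (((der01 hΦ v s).const_mul _).sub ((der11 hΦ v s).const_mul _)).congr_deriv
      (by simp only [hp, hq]; ring)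
  have dr : ∀ s, HasDerivAt r (r s * ca ρ (Φ s v) + u s * cb ρ (Φ s v)) s := fun s =>
    (((der00 hΦ v s).const_mul _).neg.add ((der10 hΦ v s).const_mul _)).congr_deriv
      (by simp only [hr, hu]; ring)
  have du : ∀ s, HasDerivAt u (r s * (-cb ρ (Φ s v)) + u s * (-ca ρ (Φ s v))) s := fun s =>
    (((der01 hΦ v s).const_mul _).neg.add ((der11 hΦ v s).const_mul _)).congr_deriv
      (by simp only [hr, hu]; ring)
  have na : ∀ g, |-ca ρ g| ≤ M := fun g => by rw [abs_neg]; exact ha g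
  have nb : ∀ g, |-cb ρ g| ≤ M := fun g => by rw [abs_neg]; exact hb g
  have s12 : ∀ s, |p s| + |q s| ≤ S4 (p s) (q s) (r s) (u s) := fun s => by
    unfold S4; linarith [abs_nonneg (r s), abs_nonneg (u s)]
  have s34 : ∀ s, |r s| + |u s| ≤ S4 (p s) (q s) (r s) (u s) := fun s => by
    unfold S4; linarith [abs_nonneg (p s), abs_nonneg (q s)]
  have bp : ∀ s, |p s * ca ρ (Φ s v) + q s * cb ρ (Φ s v)| ≤ M * S4 (p s) (q s) (r s) (u s) :=
    fun s => lin2 hM (ha _) (hb _) (s12 s)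
  have bq : ∀ s, |p s * (-cb ρ (Φ s v)) + q s * (-ca ρ (Φ s v))| ≤
    M * S4 (p s) (q s) (r s) (u s) := fun s => lin2 hM (nb _) (na _) (s12 s)
  have br : ∀ s, |r s * ca ρ (Φ s v) + u s * cb ρ (Φ s v)| ≤ M * S4 (p s) (q s) (r s) (u s) :=
    fun s => lin2 hM (ha _) (hb _) (s34 s)
  have bu : ∀ s, |r s * (-cb ρ (Φ s v)) + u s * (-ca ρ (Φ s v))| ≤
    M * S4 (p s) (q s) (r s) (u s) := fun s => lin2 hM (nb _) (na _) (s34 s)
  have hdet : v 0 0 * v 1 1 - v 0 1 * v 1 0 = 1 := by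
    have := v.det_coe
    rwa [Matrix.det_fin_two] at this
  have p0 : p 0 = 1 := by simp only [hp, hΦ.zero]; linarith
  have q0 : q 0 = 0 := by simp only [hq, hΦ.zero]; ring
  have r0 : r 0 = 0 := by simp only [hr, hΦ.zero]; ring
  have u0 : u 0 = 1 := by simp only [hu, hΦ.zero]; linarith
  have hS : ∀ s, |s| ≤ 1 → M * S4 (p s) (q s) (r s) (u s) ≤ M * (4 * Real.exp (4 * M)) := by
    intro s hs
    have h1 := four hM dp dq dr du bp bq br bu s
    have h2 : S4 (p 0) (q 0) (r 0) (u 0) = 2 := by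
      rw [p0, q0, r0, u0]; unfold S4; norm_num
    rw [h2] at h1
    have h3 : Real.exp (4 * M * |s|) ≤ Real.exp (4 * M) := by
      apply Real.exp_le_exp.2
      nlinarith only [hM, hs]
    apply mul_le_mul_of_nonneg_left _ hM
    linarith
  have ep := mvt dp (fun s hs => (bp s).trans (hS s hs)) ht
  have eq := mvt dq (fun s hs => (bq s).trans (hS s hs)) ht
  have er := mvt dr (fun s hs => (br s).trans (hS s hs)) ht
  have eu := mvt du (fun s hs => (bu s).trans (hS s hs)) ht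
  rw [p0] at ep
  rw [q0, sub_zero] at eq
  rw [r0, sub_zero] at er
  rw [u0] at eu
  rw [dd_eq]
  change S4 (p t - 1) (q t) (r t) (u t - 1) ≤ _
  unfold S4
  linarith

end

end Fl

/-- the flow and the distance -/
theorem stmtFl (hLip : StmtLip) : StmtFl := by
  intro Γ ρ Φ hF hΦ
  obtain ⟨-, -, -, -, -, B, L, hB, hL, bρ, bP, -, lρ, lP, -⟩ := hLip Γ ρ hF
  have hE : ∀ g : SL(2, ℝ), 0 < Real.exp (-ρ (g • UpperHalfPlane.I)) ∧
      Real.exp (-ρ (g • UpperHalfPlane.I)) ≤ Real.exp B := fun g =>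
    ⟨Real.exp_pos _, Real.exp_le_exp.2 (by linarith [(abs_le.1 (bρ (g • UpperHalfPlane.I))).1])⟩
  have hEB : 0 < Real.exp B := Real.exp_pos B
  have hEL : ∀ v w : SL(2, ℝ), |Real.exp (-ρ (w • UpperHalfPlane.I)) -
      Real.exp (-ρ (v • UpperHalfPlane.I))| ≤ Real.exp B * (L * dd v w) := by
    intro v w
    have h1 := Fl.exp_lip (x := -ρ (w • UpperHalfPlane.I)) (y := -ρ (v • UpperHalfPlane.I))
      (B := B) (by linarith [(abs_le.1 (bρ (w • UpperHalfPlane.I))).1])
      (by linarith [(abs_le.1 (bρ (v • UpperHalfPlane.I))).1])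
    refine h1.trans (mul_le_mul_of_nonneg_left ?_ hEB.le)
    have h2 := lρ v w
    rw [abs_sub_comm] at h2
    have h3 : -ρ (w • UpperHalfPlane.I) - -ρ (v • UpperHalfPlane.I) =
      ρ (v • UpperHalfPlane.I) - ρ (w • UpperHalfPlane.I) := by ring
    rw [h3]
    exact h2
  set M : ℝ := Real.exp B * (1 + B) with hMdef
  have hM : 0 ≤ M := by positivity
  have ha : ∀ g, |Fl.ca ρ g| ≤ M := by
    intro g
    have h1 := hE g
    unfold Fl.ca
    rw [abs_of_pos (by linarith)]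
    have : Real.exp B ≤ M := by rw [hMdef]; nlinarith
    linarith
  have hb : ∀ g, |Fl.cb ρ g| ≤ M := by
    intro g
    have h1 := hE g
    unfold Fl.cb
    have h2 : |Real.exp (-ρ (g • UpperHalfPlane.I)) * Pr ρ g| ≤ Real.exp B * B :=
      Fl.abs_mul_le (by rw [abs_of_pos h1.1]; exact h1.2) (bP g)
    rw [abs_div, abs_of_pos (by norm_num : (0 : ℝ) < 2)]
    have h3 : Real.exp B * B ≤ M := by rw [hMdef]; linarith only [hEB]
    have h4 := abs_nonneg (Real.exp (-ρ (g • UpperHalfPlane.I)) * Pr ρ g)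
    linarith
  have hdd : ∀ v w, 0 ≤ dd v w := fun v w => by
    unfold dd nn; positivity
  have hda : ∀ v w, |Fl.ca ρ w - Fl.ca ρ v| ≤ (M * L) * dd v w := by
    intro v w
    unfold Fl.ca
    rw [← sub_div, abs_div, abs_of_pos (by norm_num : (0 : ℝ) < 2)]
    have h1 := hEL v w
    have h2 : 0 ≤ Real.exp B * (L * dd v w) := by have := hdd v w; positivity
    have h3 : Real.exp B * (L * dd v w) ≤ M * L * dd v w := by
      rw [hMdef]
      have h4 : 0 ≤ Real.exp B * B * L * dd v w := by have := hdd v w; positivity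
      nlinarith
    linarith
  have hdb : ∀ v w, |Fl.cb ρ w - Fl.cb ρ v| ≤ (M * L) * dd v w := by
    intro v w
    unfold Fl.cb
    rw [← sub_div, abs_div, abs_of_pos (by norm_num : (0 : ℝ) < 2)]
    have h1 := hEL v w
    have h2 := lP v w
    have h3 := hdd v w
    have e1 : Real.exp (-ρ (w • UpperHalfPlane.I)) * Pr ρ w -
        Real.exp (-ρ (v • UpperHalfPlane.I)) * Pr ρ v =
        Real.exp (-ρ (w • UpperHalfPlane.I)) * (Pr ρ w - Pr ρ v) +
        (Real.exp (-ρ (w • UpperHalfPlane.I)) - Real.exp (-ρ (v • UpperHalfPlane.I))) *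
          Pr ρ v := by ring
    have e2 := Fl.abs_mul_le (x := Real.exp (-ρ (w • UpperHalfPlane.I))) (X := Real.exp B)
      (by rw [abs_of_pos (hE w).1]; exact (hE w).2) h2
    have e3 := Fl.abs_mul_le h1 (bP v)
    have e4 : |Real.exp (-ρ (w • UpperHalfPlane.I)) * Pr ρ w -
        Real.exp (-ρ (v • UpperHalfPlane.I)) * Pr ρ v| ≤
        Real.exp B * (L * dd v w) + Real.exp B * (L * dd v w) * B := by
      rw [e1]
      exact (abs_add_le _ _).trans (add_le_add e2 e3)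
    have e5 : Real.exp B * (L * dd v w) + Real.exp B * (L * dd v w) * B = M * L * dd v w := by
      rw [hMdef]; ring
    have e6 : 0 ≤ M * L * dd v w := by positivity
    linarith
  refine ⟨max 2 (4 * (M * (4 * Real.exp (4 * M)))), 4 * (4 * M + M * L), ?_, by positivity, ?_, ?_⟩
  · exact le_trans (by norm_num) (le_max_left _ _)
  · intro v w t
    have h := Fl.dflow hΦ hM (C := M * L) (by positivity) ha hb hda hdb v w t
    refine h.trans ?_
    have h1 : (2 : ℝ) ≤ max 2 (4 * (M * (4 * Real.exp (4 * M)))) := le_max_left _ _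
    have h2 : 0 ≤ Real.exp (4 * (4 * M + M * L) * |t|) * dd v w :=
      mul_nonneg (Real.exp_pos _).le (hdd v w)
    nlinarith
  · intro v t ht
    have h := Fl.dmove hΦ hM ha hb v t ht
    refine h.trans ?_
    exact mul_le_mul_of_nonneg_right (le_max_right _ _) (abs_nonneg t)

end

end NC

end QE


end

section

/-!
# Extension of Lipschitz functions from `SL(2, ℝ)` (module NC_INV, helper38)
-/

open MeasureTheory Filter Topology Set
open UpperHalfPlane hiding I
open scoped ContDiff MatrixGroups ENNReal NNReal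

namespace QE

namespace NC

namespace Inv

noncomputable section

/-- the determinant -/
def dt (q : ℂ × ℂ) : ℝ := q.1.im * q.2.re - q.1.re * q.2.im

/-- multiply the first row -/
def sc (l : ℝ) (q : ℂ × ℂ) : ℂ × ℂ := (l • q.1, q.2)

/-- the matrix with normalised first row -/
def mk2 (q : ℂ × ℂ) (h : 0 < dt q) : SL(2, ℝ) :=
  ⟨!![q.1.im / dt q, q.1.re / dt q; q.2.im, q.2.re], by
    rw [Matrix.det_fin_two_of]
    have h' : q.1.im * q.2.re - q.1.re * q.2.im = dt q := rfl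
    have hne := h.ne'
    field_simp
    linarith⟩

/-- the projection to `SL(2, ℝ)` -/
def pj (q : ℂ × ℂ) : SL(2, ℝ) := if h : 0 < dt q then mk2 q h else 1

theorem dt_iota (g : SL(2, ℝ)) : dt (iota g) = 1 := by
  have h := g.2
  rw [Matrix.det_fin_two] at h
  exact h

theorem dt_sc (l : ℝ) (q : ℂ × ℂ) : dt (sc l q) = l * dt q := by
  simp only [dt, sc, Complex.smul_im, Complex.smul_re, smul_eq_mul]
  ring

theorem iota_pj {q : ℂ × ℂ} (h : 0 < dt q) : iota (pj q) = sc (dt q)⁻¹ q := by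
  have e : pj q = mk2 q h := dif_pos h
  rw [e]
  unfold iota sc mk2
  refine Prod.ext (Complex.ext ?_ ?_) (Complex.ext ?_ ?_)
  · show q.1.re / dt q = ((dt q)⁻¹ • q.1).re
    rw [Complex.smul_re, smul_eq_mul, div_eq_inv_mul]
  · show q.1.im / dt q = ((dt q)⁻¹ • q.1).im
    rw [Complex.smul_im, smul_eq_mul, div_eq_inv_mul]
  · rfl
  · rfl

theorem sc_sc (l m : ℝ) (q : ℂ × ℂ) : sc l (sc m q) = sc (l * m) q := by
  simp [sc, mul_smul]

theorem sc_one (q : ℂ × ℂ) : sc 1 q = q := by simp [sc]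

theorem sc_iota_pj {q : ℂ × ℂ} (h : 0 < dt q) : sc (dt q) (iota (pj q)) = q := by
  rw [iota_pj h, sc_sc, mul_inv_cancel₀ h.ne', sc_one]

theorem iota_inj : Function.Injective iota := iota_closedEmbedding.injective

theorem pj_sc_iota {l : ℝ} (hl : 0 < l) (g : SL(2, ℝ)) : pj (sc l (iota g)) = g := by
  have h : dt (sc l (iota g)) = l := by rw [dt_sc, dt_iota, mul_one]
  apply iota_inj
  rw [iota_pj (by rw [h]; exact hl), h, sc_sc, inv_mul_cancel₀ hl.ne', sc_one]

theorem pj_iota (g : SL(2, ℝ)) : pj (iota g) = g := by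
  have := pj_sc_iota one_pos g
  rwa [sc_one] at this

theorem continuous_dt : Continuous dt := by
  unfold dt
  fun_prop

theorem continuousOn_pj : ContinuousOn pj {q | 0 < dt q} := by
  rw [iota_closedEmbedding.isInducing.continuousOn_iff]
  have h : ContinuousOn (fun q : ℂ × ℂ => sc (dt q)⁻¹ q) {q | 0 < dt q} := by
    have h1 : ContinuousOn (fun q : ℂ × ℂ => (dt q)⁻¹) {q | 0 < dt q} :=
      continuous_dt.continuousOn.inv₀ fun q hq => (ne_of_gt hq)
    unfold sc
    exact (h1.smul continuous_fst.continuousOn).prodMk continuous_snd.continuousOn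
  exact h.congr fun q hq => iota_pj hq

/-- the cutoff of the function -/
def eta (d : ℝ) : ℝ := max 0 (min 1 (2 - 4 * |d - 1|))

/-- the cutoff of the vector field -/
def chi (d : ℝ) : ℝ := max 0 (min 1 (4 * d - 1))

theorem continuous_eta : Continuous eta := by unfold eta; fun_prop

theorem continuous_chi : Continuous chi := by unfold chi; fun_prop

theorem eta_nonneg (d : ℝ) : 0 ≤ eta d := le_max_left _ _

theorem eta_le (d : ℝ) : eta d ≤ 1 := max_le zero_le_one (min_le_left _ _)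

theorem eta_one : eta 1 = 1 := by norm_num [eta]

theorem chi_one : chi 1 = 1 := by norm_num [chi]

theorem chi_zero {d : ℝ} (h : d ≤ 1 / 4) : chi d = 0 := by
  unfold chi
  rw [max_eq_left]
  exact (min_le_right _ _).trans (by linarith)

theorem eta_pos {d : ℝ} (h : eta d ≠ 0) : |d - 1| < 1 / 2 := by
  by_contra hc
  push Not at hc
  apply h
  unfold eta
  rw [max_eq_left]
  exact (min_le_right _ _).trans (by linarith)

theorem eta_lip (a b : ℝ) : |eta a - eta b| ≤ 4 * |a - b| := by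
  have h1 : |eta a - eta b| ≤ |min 1 (2 - 4 * |a - 1|) - min 1 (2 - 4 * |b - 1|)| := by
    have := abs_max_sub_max_le_abs (min 1 (2 - 4 * |a - 1|)) (min 1 (2 - 4 * |b - 1|)) 0
    unfold eta
    rwa [max_comm 0, max_comm 0]
  have h2 : |min 1 (2 - 4 * |a - 1|) - min 1 (2 - 4 * |b - 1|)| ≤
      |(2 - 4 * |a - 1|) - (2 - 4 * |b - 1|)| := by
    have := abs_min_sub_min_le_max 1 (2 - 4 * |a - 1|) 1 (2 - 4 * |b - 1|)
    refine this.trans (max_le ?_ le_rfl)
    simp
  have h3 : |(2 - 4 * |a - 1|) - (2 - 4 * |b - 1|)| = 4 * |(|a - 1| - |b - 1|)| := by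
    have : (2 - 4 * |a - 1|) - (2 - 4 * |b - 1|) = -(4 * (|a - 1| - |b - 1|)) := by ring
    rw [this, abs_neg, abs_mul]
    norm_num
  have h4 : |(|a - 1| - |b - 1|)| ≤ |(a - 1) - (b - 1)| := abs_abs_sub_abs_le _ _
  have h5 : (a - 1) - (b - 1) = a - b := by ring
  rw [h5] at h4
  linarith

/-- continuity of a cut off function -/
theorem cont_cut {B : Type} [NormedAddCommGroup B] [NormedSpace ℝ B] {a : ℂ × ℂ → ℝ}
    {b : ℂ × ℂ → B} (ha : Continuous a) (h0 : ∀ q, dt q ≤ 1 / 4 → a q = 0)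
    (hb : ContinuousOn b {q | 0 < dt q}) : Continuous fun q => a q • b q := by
  rw [continuous_iff_continuousAt]
  intro q
  by_cases h : 0 < dt q
  · have : {q | 0 < dt q} ∈ 𝓝 q := (isOpen_lt continuous_const continuous_dt).mem_nhds h
    exact ha.continuousAt.smul (hb.continuousAt this)
  · have h1 : {q | dt q < 1 / 4} ∈ 𝓝 q := by
      refine (isOpen_lt continuous_dt continuous_const).mem_nhds ?_
      show dt q < 1 / 4
      linarith
    have e : (fun q => a q • b q) =ᶠ[𝓝 q] fun _ => 0 := by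
      filter_upwards [h1] with y hy
      rw [h0 y (le_of_lt hy), zero_smul]
    exact continuousAt_const.congr e.symm

/-- the extended function -/
def ext (f : SL(2, ℝ) → ℂ) (q : ℂ × ℂ) : ℂ := eta (dt q) • f (pj q)

theorem ext_iota (f : SL(2, ℝ) → ℂ) (g : SL(2, ℝ)) : ext f (iota g) = f g := by
  unfold ext
  rw [dt_iota, eta_one, one_smul, pj_iota]

theorem dt_sub (q p : ℂ × ℂ) : |dt q - dt p| ≤ 2 * (‖q‖ + ‖p‖) * ‖q - p‖ := by
  have a1 : |q.1.im - p.1.im| ≤ ‖q - p‖ := by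
    have := (Complex.abs_im_le_norm (q.1 - p.1)).trans (norm_fst_le (q - p))
    simpa using this
  have a2 : |q.1.re - p.1.re| ≤ ‖q - p‖ := by
    have := (Complex.abs_re_le_norm (q.1 - p.1)).trans (norm_fst_le (q - p))
    simpa using this
  have a3 : |q.2.im - p.2.im| ≤ ‖q - p‖ := by
    have := (Complex.abs_im_le_norm (q.2 - p.2)).trans (norm_snd_le (q - p))
    simpa using this
  have a4 : |q.2.re - p.2.re| ≤ ‖q - p‖ := by
    have := (Complex.abs_re_le_norm (q.2 - p.2)).trans (norm_snd_le (q - p))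
    simpa using this
  have b1 : |q.2.re| ≤ ‖q‖ := (Complex.abs_re_le_norm _).trans (norm_snd_le q)
  have b2 : |q.2.im| ≤ ‖q‖ := (Complex.abs_im_le_norm _).trans (norm_snd_le q)
  have b3 : |p.1.im| ≤ ‖p‖ := (Complex.abs_im_le_norm _).trans (norm_fst_le p)
  have b4 : |p.1.re| ≤ ‖p‖ := (Complex.abs_re_le_norm _).trans (norm_fst_le p)
  have e : dt q - dt p = (q.1.im - p.1.im) * q.2.re + p.1.im * (q.2.re - p.2.re) -
      (q.1.re - p.1.re) * q.2.im - p.1.re * (q.2.im - p.2.im) := by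
    unfold dt; ring
  have c1 := mul_le_mul a1 b1 (abs_nonneg _) (norm_nonneg _)
  have c2 := mul_le_mul b3 a4 (abs_nonneg _) (norm_nonneg _)
  have c3 := mul_le_mul a2 b2 (abs_nonneg _) (norm_nonneg _)
  have c4 := mul_le_mul b4 a3 (abs_nonneg _) (norm_nonneg _)
  rw [← abs_mul] at c1 c2 c3 c4
  rw [e, abs_le]
  have d1 := abs_le.1 c1
  have d2 := abs_le.1 c2
  have d3 := abs_le.1 c3
  have d4 := abs_le.1 c4
  constructor <;> (first | linarith only [d1, d2, d3, d4] | nlinarith [d1.1, d1.2, d2.1, d2.2, d3.1, d3.2, d4.1, d4.2])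

/-- the extension of a Lipschitz function is Lipschitz -/
theorem ext_lip {f : SL(2, ℝ) → ℂ} {R M C : ℝ} (hR : 0 ≤ R) (hM : 0 ≤ M) (hC : 0 ≤ C)
    (h1 : ∀ g, R < ‖iota g‖ → f g = 0) (h2 : ∀ v w, ‖f v - f w‖ ≤ C * ‖iota v - iota w‖)
    (h3 : ∀ g, ‖f g‖ ≤ M) : ∃ K : ℝ≥0, LipschitzWith K (ext f) := by
  set T : ℝ := 2 * R + 1 with hT
  have hT1 : 1 ≤ T := by linarith
  set δ : ℝ := 1 / (16 * (T + 1)) with hδ
  have hδ0 : 0 < δ := by positivity
  have hδ1 : δ ≤ 1 := by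
    rw [hδ, div_le_one (by positivity)]; linarith
  set K₁ : ℝ := 16 * (T + 1) * M + C * (4 + 32 * (T + 1) * T) with hK₁
  have hK₁0 : 0 ≤ K₁ := by positivity
  set K₂ : ℝ := 2 * M / δ with hK₂
  have hK₂0 : 0 ≤ K₂ := by positivity
  -- the bound
  have hb : ∀ q, ‖ext f q‖ ≤ M := by
    intro q
    unfold ext
    rw [norm_smul, Real.norm_of_nonneg (eta_nonneg _)]
    calc eta (dt q) * ‖f (pj q)‖ ≤ 1 * M :=
          mul_le_mul (eta_le _) (h3 _) (norm_nonneg _) zero_le_one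
      _ = M := one_mul M
  have key : ∀ q p, ext f q ≠ 0 → ‖ext f q - ext f p‖ ≤ (K₁ + K₂) * ‖q - p‖ := by
    intro q p hq
    by_cases hfar : δ ≤ ‖q - p‖
    · have e1 : ‖ext f q - ext f p‖ ≤ 2 * M := by
        have := (norm_sub_le (ext f q) (ext f p)).trans (add_le_add (hb q) (hb p))
        linarith
      have e2 : 2 * M ≤ K₂ * ‖q - p‖ := by
        rw [hK₂, div_mul_eq_mul_div, le_div_iff₀ hδ0]
        exact mul_le_mul_of_nonneg_left hfar (by positivity)
      have e3 : 0 ≤ K₁ * ‖q - p‖ := by positivity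
      linarith
    · push Not at hfar
      have hη : eta (dt q) ≠ 0 := by
        intro h
        apply hq
        unfold ext
        rw [h, zero_smul]
      have hf : f (pj q) ≠ 0 := by
        intro h
        apply hq
        unfold ext
        rw [h, smul_zero]
      obtain ⟨g1, g2⟩ := abs_lt.1 (eta_pos hη)
      have hd1 : 1 / 2 < dt q := by linarith
      have hd2 : dt q < 3 / 2 := by linarith
      have hd0 : 0 < dt q := by linarith only [g1]
      have hRq : ‖iota (pj q)‖ ≤ R := by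
        by_contra hc
        push Not at hc
        exact hf (h1 _ hc)
      have hq1 : ‖q.1‖ ≤ T := by
        have e := congrArg Prod.fst (sc_iota_pj hd0)
        have e' : dt q • (iota (pj q)).1 = q.1 := e
        rw [← e', norm_smul, Real.norm_of_nonneg hd0.le]
        have := (norm_fst_le (iota (pj q))).trans hRq
        calc dt q * ‖(iota (pj q)).1‖ ≤ 3 / 2 * R :=
              mul_le_mul hd2.le this (norm_nonneg _) (by norm_num)
          _ ≤ T := by linarith only [hR]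
      have hq2 : ‖q.2‖ ≤ T := by
        have e := congrArg Prod.snd (sc_iota_pj hd0)
        have e' : (iota (pj q)).2 = q.2 := e
        rw [← e']
        have := (norm_snd_le (iota (pj q))).trans hRq
        linarith
      have hqT : ‖q‖ ≤ T := max_le hq1 hq2
      have hpT : ‖p‖ ≤ T + 1 := by
        have e : p = q - (q - p) := by abel
        have := norm_sub_le q (q - p)
        rw [← e] at this
        linarith only [hδ1, hfar, hqT, this]
      have hdd : |dt q - dt p| ≤ 4 * (T + 1) * ‖q - p‖ := by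
        refine (dt_sub q p).trans (mul_le_mul_of_nonneg_right ?_ (norm_nonneg _))
        linarith
      have hdd2 : |dt q - dt p| ≤ 1 / 4 := by
        refine hdd.trans ?_
        have : 4 * (T + 1) * ‖q - p‖ ≤ 4 * (T + 1) * δ :=
          mul_le_mul_of_nonneg_left hfar.le (by positivity)
        refine this.trans (le_of_eq ?_)
        rw [hδ]; field_simp; norm_num
      obtain ⟨g3, g4⟩ := abs_le.1 hdd2
      have hp1 : 1 / 4 ≤ dt p := by linarith
      have hp0 : 0 < dt p := by linarith only [g1, g4]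
      -- the distance of the projections
      have hpr : ‖iota (pj q) - iota (pj p)‖ ≤ (4 + 32 * (T + 1) * T) * ‖q - p‖ := by
        rw [iota_pj hd0, iota_pj hp0]
        have e1 : ‖(dt q)⁻¹ • q.1 - (dt p)⁻¹ • p.1‖ ≤ (4 + 32 * (T + 1) * T) * ‖q - p‖ := by
          have e2 : (dt q)⁻¹ • q.1 - (dt p)⁻¹ • p.1 =
              (dt p)⁻¹ • (q.1 - p.1) + ((dt q)⁻¹ - (dt p)⁻¹) • q.1 := by
            rw [smul_sub, sub_smul]; abel
          rw [e2]
          refine (norm_add_le _ _).trans ?_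
          rw [norm_smul, norm_smul]
          have e3 : ‖(dt p)⁻¹‖ ≤ 4 := by
            rw [Real.norm_of_nonneg (inv_nonneg.2 hp0.le)]
            rw [inv_le_comm₀ hp0 (by norm_num)]
            linarith only [g1, g4]
          have e4 : ‖q.1 - p.1‖ ≤ ‖q - p‖ := norm_fst_le (q - p)
          have e5 : ‖(dt q)⁻¹ - (dt p)⁻¹‖ ≤ 8 * (4 * (T + 1) * ‖q - p‖) := by
            have e6 : (dt q)⁻¹ - (dt p)⁻¹ = (dt p)⁻¹ * (dt q)⁻¹ * (dt p - dt q) := by
              field_simp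
            rw [e6, Real.norm_eq_abs, abs_mul, abs_mul, abs_sub_comm (dt p)]
            refine mul_le_mul ?_ hdd (abs_nonneg _) (by norm_num)
            rw [abs_of_pos (inv_pos.2 hp0), abs_of_pos (inv_pos.2 hd0)]
            have e7 : (dt q)⁻¹ ≤ 2 := by
              rw [inv_le_comm₀ hd0 (by norm_num)]
              linarith only [g1]
            have e8 : (dt p)⁻¹ ≤ 4 := by
              rw [inv_le_comm₀ hp0 (by norm_num)]
              linarith only [g1, g4]
            have e9 := mul_le_mul e8 e7 (inv_nonneg.2 hd0.le) (by norm_num)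
            linarith only [e9]
          have f1 := mul_le_mul e3 e4 (norm_nonneg _) (by norm_num)
          have f2 := mul_le_mul e5 hq1 (norm_nonneg _) (by positivity)
          calc _ ≤ 4 * ‖q - p‖ + 8 * (4 * (T + 1) * ‖q - p‖) * T := add_le_add f1 f2
            _ = _ := by ring
        have e2 : ‖q.2 - p.2‖ ≤ (4 + 32 * (T + 1) * T) * ‖q - p‖ := by
          have := norm_snd_le (q - p)
          have h4 : (1 : ℝ) ≤ 4 + 32 * (T + 1) * T := by
            have : 0 ≤ 32 * (T + 1) * T := by positivity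
            linarith
          calc ‖q.2 - p.2‖ ≤ 1 * ‖q - p‖ := by rw [one_mul]; exact this
            _ ≤ _ := mul_le_mul_of_nonneg_right h4 (norm_nonneg _)
        exact max_le e1 e2
      have e0 : ext f q - ext f p = (eta (dt q) - eta (dt p)) • f (pj p) +
          eta (dt q) • (f (pj q) - f (pj p)) := by
        unfold ext
        rw [sub_smul, smul_sub]; abel
      rw [e0]
      refine (norm_add_le _ _).trans ?_
      rw [norm_smul, norm_smul]
      have f1 : ‖eta (dt q) - eta (dt p)‖ * ‖f (pj p)‖ ≤ 4 * (4 * (T + 1) * ‖q - p‖) * M := by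
        refine mul_le_mul ?_ (h3 _) (norm_nonneg _) (by positivity)
        rw [Real.norm_eq_abs]
        exact (eta_lip _ _).trans (mul_le_mul_of_nonneg_left hdd (by norm_num))
      have f2 : ‖eta (dt q)‖ * ‖f (pj q) - f (pj p)‖ ≤
          1 * (C * ((4 + 32 * (T + 1) * T) * ‖q - p‖)) := by
        refine mul_le_mul ?_ ?_ (norm_nonneg _) zero_le_one
        · rw [Real.norm_of_nonneg (eta_nonneg _)]; exact eta_le _
        · exact (h2 _ _).trans (mul_le_mul_of_nonneg_left hpr hC)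
      have f3 : 0 ≤ K₂ * ‖q - p‖ := by (clear * - hM hR; positivity)
      calc _ ≤ 4 * (4 * (T + 1) * ‖q - p‖) * M + 1 * (C * ((4 + 32 * (T + 1) * T) * ‖q - p‖)) :=
            add_le_add f1 f2
        _ = K₁ * ‖q - p‖ := by rw [hK₁]; ring
        _ ≤ (K₁ + K₂) * ‖q - p‖ := by linarith only [f3]
  refine ⟨⟨K₁ + K₂, by positivity⟩, LipschitzWith.of_dist_le_mul fun q p => ?_⟩
  rw [dist_eq_norm, dist_eq_norm]
  show ‖ext f q - ext f p‖ ≤ (K₁ + K₂) * ‖q - p‖
  by_cases hq : ext f q = 0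
  · by_cases hp : ext f p = 0
    · rw [hq, hp, sub_zero, norm_zero]; (clear * - hR hM hC; positivity)
    · rw [norm_sub_rev (ext f q), norm_sub_rev q]
      exact key p q hp
  · exact key q p hq

theorem ext_supp {f : SL(2, ℝ) → ℂ} {R : ℝ} (h1 : ∀ g, R < ‖iota g‖ → f g = 0)
    {q : ℂ × ℂ} (hq : 2 * R < ‖q‖) : ext f q = 0 := by
  by_contra hne
  have hη : eta (dt q) ≠ 0 := by
    intro h
    apply hne
    unfold ext
    rw [h, zero_smul]
  have hf : f (pj q) ≠ 0 := by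
    intro h
    apply hne
    unfold ext
    rw [h, smul_zero]
  obtain ⟨g1, g2⟩ := abs_lt.1 (eta_pos hη)
  have hd0 : 0 < dt q := by linarith only [g1]
  have hRq : ‖iota (pj q)‖ ≤ R := by
    by_contra hc
    push Not at hc
    exact hf (h1 _ hc)
  have hR : 0 ≤ R := (norm_nonneg _).trans hRq
  have hq1 : ‖q.1‖ ≤ 2 * R := by
    have e := congrArg Prod.fst (sc_iota_pj hd0)
    have e' : dt q • (iota (pj q)).1 = q.1 := e
    rw [← e', norm_smul, Real.norm_of_nonneg hd0.le]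
    have := (norm_fst_le (iota (pj q))).trans hRq
    exact mul_le_mul (by linarith only [g2]) this (norm_nonneg _) (by norm_num)
  have hq2 : ‖q.2‖ ≤ 2 * R := by
    have e := congrArg Prod.snd (sc_iota_pj hd0)
    have e' : (iota (pj q)).2 = q.2 := e
    rw [← e']
    have := (norm_snd_le (iota (pj q))).trans hRq
    linarith
  have : ‖q‖ ≤ 2 * R := max_le hq1 hq2
  linarith only [hq, this]

/-- a Lipschitz function differentiable along a curve has a line derivative -/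
theorem line_of_curve {F : ℂ × ℂ → ℂ} {K : ℝ≥0} (hF : LipschitzWith K F) {c : ℝ → ℂ × ℂ}
    {w : ℂ × ℂ} {y : ℂ} (hc : HasDerivAt c w 0) (hy : HasDerivAt (fun s => F (c s)) y 0) :
    HasLineDerivAt ℝ F y (c 0) w := by
  unfold HasLineDerivAt
  have h1 : HasDerivAt (fun s => F (c 0 + s • w) - F (c s)) 0 0 := by
    rw [hasDerivAt_iff_isLittleO]
    have h2 := (hasDerivAt_iff_isLittleO.1 hc)
    refine (Asymptotics.IsBigO.of_bound (K : ℝ) (Eventually.of_forall fun s => ?_)).trans_isLittleO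
      h2
    simp only [sub_zero, smul_zero, zero_smul, add_zero, sub_self]
    have := hF.dist_le_mul (c 0 + s • w) (c s)
    rw [dist_eq_norm, dist_eq_norm, norm_sub_rev (c 0 + s • w)] at this
    refine this.trans (le_of_eq ?_)
    congr 2
    abel
  have h3 := h1.add hy
  rw [zero_add] at h3
  refine h3.congr_of_eventuallyEq (Eventually.of_forall fun s => ?_)
  simp

end

end Inv

end NC

end QE


end

section

/-!
# Infinitesimal invariance implies invariance (module NC_INV, helper38)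
-/

open MeasureTheory Filter Topology Set
open UpperHalfPlane hiding I
open scoped ContDiff MatrixGroups ENNReal NNReal

namespace QE

namespace NC

namespace Inv

noncomputable section

variable {ρ : ℍ → ℝ} {Φ : ℝ → SL(2, ℝ) → SL(2, ℝ)}

theorem mk_deriv {a b : ℝ → ℝ} {a' b' t : ℝ} (ha : HasDerivAt a a' t) (hb : HasDerivAt b b' t) :
    HasDerivAt (fun s => (⟨a s, b s⟩ : ℂ)) ⟨a', b'⟩ t := by
  have h := (ha.ofReal_comp).add ((hb.ofReal_comp).mul_const Complex.I)
  have e1 : (fun s => (⟨a s, b s⟩ : ℂ)) = fun s => ((a s : ℝ) : ℂ) + ((b s : ℝ) : ℂ) * Complex.I :=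
    funext fun s => Complex.mk_eq_add_mul_I _ _
  rw [e1, Complex.mk_eq_add_mul_I]
  exact h

/-- the flow in linear coordinates -/
theorem iota_deriv (hΦ : GFlow ρ Φ) (g : SL(2, ℝ)) (t : ℝ) :
    HasDerivAt (fun s => iota (Φ s g)) (XV ρ (Φ t g)) t := by
  have h1 := (mk_deriv (Fl.der01 hΦ g t) (Fl.der00 hΦ g t)).prodMk
    (mk_deriv (Fl.der11 hΦ g t) (Fl.der10 hΦ g t))
  refine h1.congr_deriv ?_
  unfold XV Vq iota Fl.ca Fl.cb
  generalize Real.exp (-ρ (Φ t g • UpperHalfPlane.I)) = E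
  generalize Pr ρ (Φ t g) = P
  refine Prod.ext (Complex.ext ?_ ?_) (Complex.ext ?_ ?_)
  · simp
    ring
  · simp
    ring
  · simp
    ring
  · simp
    ring

theorem XV_cont (h1 : Continuous ρ) (h2 : Continuous (Pr ρ)) : Continuous (XV ρ) := by
  have h3 : Continuous fun g : SL(2, ℝ) => g • UpperHalfPlane.I := continuous_id.smul continuous_const
  have h4 : Continuous fun g : SL(2, ℝ) => Real.exp (-ρ (g • UpperHalfPlane.I)) :=
    Real.continuous_exp.comp (h1.comp h3).neg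
  have h5 : Continuous fun g : SL(2, ℝ) => Vq (iota g) := continuous_Vq.comp iota_continuous
  have h6 : Continuous fun g : SL(2, ℝ) => (Pr ρ g / 2) • (Complex.I • iota g) :=
    (h2.div_const 2).smul (iota_continuous.const_smul Complex.I)
  exact h4.smul (h5.add h6)

theorem sc_deriv (l : ℝ) {c : ℝ → ℂ × ℂ} {w : ℂ × ℂ} {t : ℝ} (h : HasDerivAt c w t) :
    HasDerivAt (fun s => sc l (c s)) (sc l w) t := by
  have h1 : HasDerivAt (fun s => (c s).1) w.1 t :=
    (ContinuousLinearMap.fst ℝ ℂ ℂ).hasFDerivAt.comp_hasDerivAt t h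
  have h2 : HasDerivAt (fun s => (c s).2) w.2 t :=
    (ContinuousLinearMap.snd ℝ ℂ ℂ).hasFDerivAt.comp_hasDerivAt t h
  exact (h1.const_smul l).prodMk h2

variable [MeasurableSpace SL(2, ℝ)] [BorelSpace SL(2, ℝ)]

/-- **the integral of the derivative of a Lipschitz function along the flow vanishes** -/
theorem int_zero {ν : Measure SL(2, ℝ)} [IsFiniteMeasureOnCompacts ν]
    (h1 : Continuous ρ) (h2 : Continuous (Pr ρ)) (hΦ : GFlow ρ Φ)
    (hν : ∀ H : ℂ × ℂ → ℂ, ContDiff ℝ ∞ H → HasCompactSupport H →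
      ∫ g, fderiv ℝ H (iota g) (XV ρ g) ∂ν = 0)
    {f Y : SL(2, ℝ) → ℂ} {R M C : ℝ} (hR : 0 ≤ R) (hM : 0 ≤ M) (hC : 0 ≤ C)
    (b1 : ∀ g, R < ‖iota g‖ → f g = 0) (b2 : ∀ v w, ‖f v - f w‖ ≤ C * ‖iota v - iota w‖)
    (b3 : ∀ g, ‖f g‖ ≤ M) (hY : Continuous Y)
    (hd : ∀ g, HasDerivAt (fun s => f (Φ s g)) (Y g) 0) : ∫ g, Y g ∂ν = 0 := by
  obtain ⟨K, hK⟩ := ext_lip hR hM hC b1 b2 b3
  have hX := XV_cont h1 h2
  set W : ℂ × ℂ → ℂ × ℂ := fun q => chi (dt q) • sc (dt q) (XV ρ (pj q)) with hW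
  set Z : ℂ × ℂ → ℂ := fun q => chi (dt q) • (eta (dt q) • Y (pj q)) with hZ
  have hχ : Continuous fun q : ℂ × ℂ => chi (dt q) := continuous_chi.comp continuous_dt
  have hη : Continuous fun q : ℂ × ℂ => eta (dt q) := continuous_eta.comp continuous_dt
  have cW : Continuous W := by
    refine cont_cut hχ (fun q hq => chi_zero hq) ?_
    have h5 : ContinuousOn (fun q => XV ρ (pj q)) {q | 0 < dt q} :=
      hX.comp_continuousOn continuousOn_pj
    have h6 : ContinuousOn (fun q => (XV ρ (pj q)).1) {q | 0 < dt q} :=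
      continuous_fst.comp_continuousOn h5
    have h7 : ContinuousOn (fun q => (XV ρ (pj q)).2) {q | 0 < dt q} :=
      continuous_snd.comp_continuousOn h5
    exact (continuous_dt.continuousOn.smul h6).prodMk h7
  have cZ : Continuous Z := by
    refine cont_cut hχ (fun q hq => chi_zero hq) ?_
    exact hη.continuousOn.smul (hY.comp_continuousOn continuousOn_pj)
  have hline : ∀ q, HasLineDerivAt ℝ (ext f) (Z q) q (W q) := by
    intro q
    by_cases h : 0 < dt q
    · have e1 : HasDerivAt (fun s => sc (dt q) (iota (Φ s (pj q)))) (sc (dt q) (XV ρ (pj q))) 0 := by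
        have := sc_deriv (dt q) (iota_deriv hΦ (pj q) 0)
        rwa [hΦ.zero] at this
      have e2 : HasDerivAt (fun s => ext f (sc (dt q) (iota (Φ s (pj q)))))
          (eta (dt q) • Y (pj q)) 0 := by
        have e3 : (fun s => ext f (sc (dt q) (iota (Φ s (pj q))))) =
            fun s => eta (dt q) • f (Φ s (pj q)) := by
          funext s
          unfold ext
          rw [dt_sc, dt_iota, mul_one, pj_sc_iota h]
        rw [e3]
        exact (hd (pj q)).const_smul (eta (dt q))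
      have e4 := line_of_curve hK e1 e2
      simp only [hΦ.zero, sc_iota_pj h] at e4
      exact e4.smul (chi (dt q))
    · have h0 : chi (dt q) = 0 := chi_zero (by linarith)
      simp only [hW, hZ, h0, zero_smul]
      unfold HasLineDerivAt
      simp only [smul_zero, add_zero]
      exact hasDerivAt_const _ _
  set μ : Measure (ℂ × ℂ) := Measure.addHaar with hμ
  have hWi : ∀ g, W (iota g) = XV ρ g := by
    intro g
    simp only [hW]
    rw [dt_iota, chi_one, one_smul, sc_one, pj_iota]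
  have hZi : ∀ g, Z (iota g) = Y g := by
    intro g
    simp only [hZ]
    rw [dt_iota, chi_one, one_smul, eta_one, one_smul, pj_iota]
  have hsupp : HasCompactSupport (ext f) := by
    refine HasCompactSupport.intro (isCompact_closedBall (0 : ℂ × ℂ) (2 * R)) fun q hq => ?_
    rw [mem_closedBall_zero_iff, not_le] at hq
    exact ext_supp b1 hq
  have hz : ∀ n, ∫ g, fderiv ℝ (Fried.mol μ (ext f) n) (iota g) (XV ρ g) ∂ν = 0 := fun n =>
    hν _ (Fried.mol_smooth hK.continuous n) (Fried.mol_supp hsupp n)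
  set S : Set SL(2, ℝ) := iota ⁻¹' Metric.closedBall (0 : ℂ × ℂ) (2 * R + 1) with hS
  have hSc : IsCompact S := iota_compact (isCompact_closedBall _ _)
  have hlim : Tendsto (fun n => ∫ g, fderiv ℝ (Fried.mol μ (ext f) n) (iota g) (XV ρ g) ∂ν) atTop
      (𝓝 (∫ g, Y g ∂ν)) := by
    refine tendsto_integral_of_dominated_convergence (S.indicator fun g => K * ‖XV ρ g‖) ?_ ?_ ?_ ?_
    · intro n
      have h5 : Continuous (fderiv ℝ (Fried.mol μ (ext f) n)) :=
        (Fried.mol_smooth hK.continuous n).continuous_fderiv (by simp)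
      exact ((h5.comp iota_continuous).clm_apply hX).aestronglyMeasurable
    · refine (integrable_indicator_iff hSc.isClosed.measurableSet).2 ?_
      exact (continuous_const.mul hX.norm).continuousOn.integrableOn_compact hSc
    · intro n
      refine ae_of_all _ fun g => ?_
      by_cases hg : g ∈ S
      · rw [indicator_of_mem hg]
        refine (ContinuousLinearMap.le_opNorm _ _).trans ?_
        exact mul_le_mul_of_nonneg_right (Fried.mol_fderiv hK n _) (norm_nonneg _)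
      · rw [indicator_of_notMem hg]
        have hg' : 2 * R + 1 < ‖iota g‖ := by
          by_contra hc
          push Not at hc
          exact hg (mem_closedBall_zero_iff.2 hc)
        rw [Fried.mol_zero (fun q hq => ext_supp b1 hq) n hg']
        simp
    · refine ae_of_all _ fun g => ?_
      have := Fried.mol_tendsto (μ := μ) hK cW cZ hline (iota g)
      rwa [hWi, hZi] at this
  simp only [hz] at hlim
  exact (tendsto_nhds_unique hlim tendsto_const_nhds)

omit [MeasurableSpace SL(2, ℝ)] [BorelSpace SL(2, ℝ)] in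
theorem dd_le (v w : SL(2, ℝ)) {R : ℝ} (hR : ∀ i j, |v i j| ≤ R) :
    dd v w ≤ 8 * R * ‖iota v - iota w‖ := by
  have hR0 : 0 ≤ R := (abs_nonneg _).trans (hR 0 0)
  set N := ‖iota v - iota w‖ with hN
  have a0 : ∀ i, |w i 0 - v i 0| ≤ N := by
    intro i
    rw [abs_sub_comm]
    fin_cases i
    · exact (Complex.abs_im_le_norm ((iota v - iota w).1)).trans (norm_fst_le _)
    · exact (Complex.abs_im_le_norm ((iota v - iota w).2)).trans (norm_snd_le _)
  have a1 : ∀ i, |w i 1 - v i 1| ≤ N := by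
    intro i
    rw [abs_sub_comm]
    fin_cases i
    · exact (Complex.abs_re_le_norm ((iota v - iota w).1)).trans (norm_fst_le _)
    · exact (Complex.abs_re_le_norm ((iota v - iota w).2)).trans (norm_snd_le _)
  have hdet : v 0 0 * v 1 1 - v 0 1 * v 1 0 = 1 := by
    have h := v.2
    rw [Matrix.det_fin_two] at h
    exact h
  have hm : ∀ {x y : ℝ}, |x| ≤ R → |y| ≤ N → |x * y| ≤ R * N := by
    intro x y hx hy
    rw [abs_mul]
    exact mul_le_mul hx hy (abs_nonneg _) hR0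
  have e : dd v w = |v 1 1 * w 0 0 - v 0 1 * w 1 0 - 1| + |v 1 1 * w 0 1 - v 0 1 * w 1 1| +
      |-(v 1 0 * w 0 0) + v 0 0 * w 1 0| + |-(v 1 0 * w 0 1) + v 0 0 * w 1 1 - 1| := by
    unfold dd nn
    rw [Fl.ent00, Fl.ent01, Fl.ent10, Fl.ent11]
  have b1 : |v 1 1 * w 0 0 - v 0 1 * w 1 0 - 1| ≤ 2 * (R * N) := by
    have : v 1 1 * w 0 0 - v 0 1 * w 1 0 - 1 =
        v 1 1 * (w 0 0 - v 0 0) - v 0 1 * (w 1 0 - v 1 0) := by linear_combination hdet
    rw [this]
    refine (abs_sub _ _).trans ?_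
    linarith [hm (hR 1 1) (a0 0), hm (hR 0 1) (a0 1)]
  have b2 : |v 1 1 * w 0 1 - v 0 1 * w 1 1| ≤ 2 * (R * N) := by
    have : v 1 1 * w 0 1 - v 0 1 * w 1 1 =
        v 1 1 * (w 0 1 - v 0 1) - v 0 1 * (w 1 1 - v 1 1) := by ring
    rw [this]
    refine (abs_sub _ _).trans ?_
    linarith [hm (hR 1 1) (a1 0), hm (hR 0 1) (a1 1)]
  have b3 : |-(v 1 0 * w 0 0) + v 0 0 * w 1 0| ≤ 2 * (R * N) := by
    have : -(v 1 0 * w 0 0) + v 0 0 * w 1 0 =
        v 0 0 * (w 1 0 - v 1 0) - v 1 0 * (w 0 0 - v 0 0) := by ring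
    rw [this]
    refine (abs_sub _ _).trans ?_
    linarith [hm (hR 0 0) (a0 1), hm (hR 1 0) (a0 0)]
  have b4 : |-(v 1 0 * w 0 1) + v 0 0 * w 1 1 - 1| ≤ 2 * (R * N) := by
    have : -(v 1 0 * w 0 1) + v 0 0 * w 1 1 - 1 =
        v 0 0 * (w 1 1 - v 1 1) - v 1 0 * (w 0 1 - v 0 1) := by linear_combination hdet
    rw [this]
    refine (abs_sub _ _).trans ?_
    linarith [hm (hR 0 0) (a1 1), hm (hR 1 0) (a1 0)]
  rw [e]
  linarith

end

end Inv

open _root_.QE.NC.Inv in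
/-- **infinitesimal invariance implies invariance** -/
theorem stmtInv (hLip : StmtLip) (hFl : StmtFl) : StmtInv := by
  intro _ _ Γ ρ Φ ν _ hF hΦ hν t
  obtain ⟨-, -, hρc, hPc, -, -⟩ := hLip Γ ρ hF
  obtain ⟨c, L, hc1, hL, hPF⟩ := hFl Γ ρ Φ hF hΦ
  have hX := XV_cont hρc hPc
  have hcont : ∀ s, Continuous (Φ s) := fun s => hΦ.cont.comp (continuous_const.prodMk continuous_id)
  have hinv1 : ∀ s g, Φ (-s) (Φ s g) = g := fun s g => by rw [← hΦ.add, neg_add_cancel, hΦ.zero]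
  have hinv2 : ∀ s g, Φ s (Φ (-s) g) = g := fun s g => by rw [← hΦ.add, add_neg_cancel, hΦ.zero]
  let e : SL(2, ℝ) ≃ₜ SL(2, ℝ) :=
    { toFun := Φ t
      invFun := Φ (-t)
      left_inv := hinv1 t
      right_inv := hinv2 t
      continuous_toFun := hcont t
      continuous_invFun := hcont (-t) }
  have hme : MeasurableEmbedding (Φ t) := e.measurableEmbedding
  have : IsFiniteMeasureOnCompacts (Measure.map (Φ t) ν) := by
    refine ⟨fun K hK => ?_⟩
    rw [hme.map_apply]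
    exact (e.isCompact_preimage.2 hK).measure_lt_top
  refine measure_ext_iota fun H hH hc => ?_
  rw [hme.integral_map]
  have hHd : Differentiable ℝ H := hH.differentiable (by simp)
  have hHf : Continuous (fderiv ℝ H) := hH.continuous_fderiv (by simp)
  -- the derivative along the flow
  have hder : ∀ (g : SL(2, ℝ)) (s : ℝ), HasDerivAt (fun r => H (iota (Φ r g)))
      (fderiv ℝ H (iota (Φ s g)) (XV ρ (Φ s g))) s := fun g s =>
    (hHd (iota (Φ s g))).hasFDerivAt.comp_hasDerivAt s (iota_deriv hΦ g s)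
  have hYc : Continuous (Function.uncurry fun (s : ℝ) (g : SL(2, ℝ)) =>
      fderiv ℝ H (iota (Φ s g)) (XV ρ (Φ s g))) :=
    (hHf.comp (iota_continuous.comp hΦ.cont)).clm_apply (hX.comp hΦ.cont)
  obtain ⟨M, hM⟩ := hH.continuous.bounded_above_of_compact_support hc
  have hM0 : 0 ≤ M := (norm_nonneg _).trans (hM 0)
  obtain ⟨KH, hKH⟩ := hH.lipschitzWith_of_hasCompactSupport hc (by simp)
  -- all times
  have hzero : ∀ s, ∫ g, fderiv ℝ H (iota (Φ s g)) (XV ρ (Φ s g)) ∂ν = 0 := by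
    intro s
    -- bounds of the support
    have hk : IsCompact (iota ⁻¹' tsupport H) := iota_compact hc
    obtain ⟨R₁, hR₁⟩ := (hk.image iota_continuous).isBounded.exists_norm_le
    obtain ⟨R₂, hR₂⟩ := ((hk.image (hcont (-s))).image iota_continuous).isBounded.exists_norm_le
    set R : ℝ := max (max R₁ R₂) 0 with hRdef
    have hR0 : 0 ≤ R := le_max_right _ _
    have hs1 : ∀ g, H (iota (Φ s g)) ≠ 0 → ‖iota (Φ s g)‖ ≤ R ∧ ‖iota g‖ ≤ R := by
      intro g hg
      have h5 : Φ s g ∈ iota ⁻¹' tsupport H := subset_tsupport _ hg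
      refine ⟨(hR₁ _ ⟨_, h5, rfl⟩).trans ((le_max_left _ _).trans (le_max_left _ _)), ?_⟩
      refine (hR₂ _ ⟨_, ⟨_, h5, rfl⟩, ?_⟩).trans ((le_max_right _ _).trans (le_max_left _ _))
      rw [hinv1]
    set A : ℝ := c * Real.exp (L * |s|) with hA
    have hA0 : 0 ≤ A := by positivity
    set C : ℝ := KH * (R * (A * (8 * R))) with hC
    have hC0 : 0 ≤ C := by (clear * - hc1; positivity)
    have key : ∀ v w, H (iota (Φ s v)) ≠ 0 →
        ‖H (iota (Φ s v)) - H (iota (Φ s w))‖ ≤ C * ‖iota v - iota w‖ := by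
      intro v w hv
      obtain ⟨k1, k2⟩ := hs1 v hv
      have e1 := hKH.dist_le_mul (iota (Φ s v)) (iota (Φ s w))
      rw [dist_eq_norm, dist_eq_norm, norm_sub_rev (iota (Φ s v))] at e1
      have e2 := LipAux.norm_iota_sub (Φ s v) (Φ s w) (LipAux.entry_le _ k1)
      have e3 := hPF.dflow v w s
      have e4 := dd_le v w (LipAux.entry_le _ k2)
      have e5 : dd (Φ s v) (Φ s w) ≤ A * (8 * R * ‖iota v - iota w‖) :=
        e3.trans (mul_le_mul_of_nonneg_left e4 hA0)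
      calc _ ≤ (KH : ℝ) * ‖iota (Φ s w) - iota (Φ s v)‖ := e1
        _ ≤ KH * (R * (A * (8 * R * ‖iota v - iota w‖))) :=
            mul_le_mul_of_nonneg_left (e2.trans (mul_le_mul_of_nonneg_left e5 hR0)) KH.coe_nonneg
        _ = C * ‖iota v - iota w‖ := by rw [hC]; ring
    refine int_zero (f := fun g => H (iota (Φ s g))) hρc hPc hΦ hν hR0 hM0 hC0 ?_ ?_ ?_ ?_ ?_
    · intro g hg
      by_contra hne
      exact absurd (hs1 g hne).2 (not_le.2 hg)
    · intro v w
      by_cases hv : H (iota (Φ s v)) = 0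
      · by_cases hw : H (iota (Φ s w)) = 0
        · simp only [hv, hw, sub_zero, norm_zero]; (clear * - hc1; positivity)
        · rw [norm_sub_rev (H (iota (Φ s v))), norm_sub_rev (iota v)]
          exact key w v hw
      · exact key v w hv
    · exact fun g => hM _
    · exact hYc.comp (continuous_const.prodMk continuous_id)
    · intro g
      have h5 := hder g s
      have h6 : HasDerivAt (fun r : ℝ => s + r) 1 0 := (hasDerivAt_id (0 : ℝ)).const_add s
      have h7 : HasDerivAt (fun r => H (iota (Φ r g)))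
          (fderiv ℝ H (iota (Φ s g)) (XV ρ (Φ s g))) ((fun r : ℝ => s + r) 0) := by
        simpa using h5
      have h8 := h7.scomp (0 : ℝ) h6
      rw [one_smul] at h8
      refine h8.congr_of_eventuallyEq (Eventually.of_forall fun r => ?_)
      show H (iota (Φ s (Φ r g))) = H (iota (Φ (s + r) g))
      rw [hΦ.add]
  -- Fubini
  set KK : Set SL(2, ℝ) := (fun p : ℝ × SL(2, ℝ) => Φ (-p.1) p.2) '' (uIcc 0 t ×ˢ (iota ⁻¹' tsupport H))
    with hKK
  have hKKc : IsCompact KK := by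
    refine (isCompact_uIcc.prod (iota_compact hc)).image ?_
    exact hΦ.cont.comp (continuous_fst.neg.prodMk continuous_snd)
  have hout : ∀ r ∈ uIcc 0 t, ∀ g ∉ KK, fderiv ℝ H (iota (Φ r g)) (XV ρ (Φ r g)) = 0 := by
    intro r hr g hg
    have h5 : iota (Φ r g) ∉ tsupport H := by
      intro h
      refine hg ⟨(r, Φ r g), ⟨hr, h⟩, ?_⟩
      simp only [hinv1]
    have h6 : fderiv ℝ H (iota (Φ r g)) = 0 := by
      by_contra h
      exact h5 (support_fderiv_subset ℝ h)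
    rw [h6]; rfl
  have hswap := integral_swap (μ := ν) hKKc hYc hout
  simp only [hzero, intervalIntegral.integral_zero] at hswap
  have hftc : ∀ g : SL(2, ℝ), ∫ r in (0 : ℝ)..t, fderiv ℝ H (iota (Φ r g)) (XV ρ (Φ r g)) =
      H (iota (Φ t g)) - H (iota g) := by
    intro g
    have h5 := intervalIntegral.integral_eq_sub_of_hasDerivAt (a := 0) (b := t)
      (fun r _ => hder g r)
      ((hYc.comp (continuous_id.prodMk continuous_const)).intervalIntegrable _ _)
    rw [h5, hΦ.zero]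
  simp only [hftc] at hswap
  have i1 : Integrable (fun g => H (iota (Φ t g))) ν := by
    refine Continuous.integrable_of_hasCompactSupport
      (hH.continuous.comp (iota_continuous.comp (hcont t))) ?_
    refine HasCompactSupport.intro (K := Φ (-t) '' (iota ⁻¹' tsupport H))
      ((iota_compact hc).image (hcont _)) fun g hg => ?_
    by_contra h
    exact hg ⟨Φ t g, subset_tsupport _ h, hinv1 t g⟩
  have i2 : Integrable (fun g => H (iota g)) ν := integrable_iota hH.continuous hc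
  have e2 := integral_sub i1 i2
  rw [hswap] at e2
  exact sub_eq_zero.1 e2.symm

end NC

end QE


end

section

/-!
# Existence of the geodesic flow  (module NC_FLOW, helper53)
-/

open MeasureTheory Filter Topology Set Metric
open UpperHalfPlane hiding I
open scoped ContDiff MatrixGroups ENNReal NNReal

namespace QE

namespace NC

namespace FL

noncomputable section

attribute [local instance] Matrix.normedAddCommGroup Matrix.normedSpace

/-- 2 x 2 matrices, with the sup norm of the entries -/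
abbrev M2 := Matrix (Fin 2) (Fin 2) ℝ

lemma ent (M : M2) (i j : Fin 2) : |M i j| ≤ ‖M‖ := Matrix.norm_entry_le_entrywise_sup_norm M

lemma ent_sub (M N : M2) (i j : Fin 2) : |M i j - N i j| ≤ ‖M - N‖ := ent (M - N) i j

/-! ### bounded Lipschitz functions on a set -/

/-- bounded and Lipschitz on `S` -/
def LB (S : Set M2) (F : M2 → ℝ) : Prop :=
  ∃ C K : ℝ, 0 ≤ C ∧ 0 ≤ K ∧ (∀ x ∈ S, |F x| ≤ C) ∧ ∀ x ∈ S, ∀ y ∈ S, |F x - F y| ≤ K * ‖x - y‖

variable {S : Set M2} {F G : M2 → ℝ}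

lemma LB.congr (hF : LB S F) (h : ∀ x ∈ S, G x = F x) : LB S G := by
  obtain ⟨C, K, hC, hK, h1, h2⟩ := hF
  refine ⟨C, K, hC, hK, fun x hx => by rw [h x hx]; exact h1 x hx, fun x hx y hy => ?_⟩
  rw [h x hx, h y hy]
  exact h2 x hx y hy

lemma LB.mono {S' : Set M2} (hF : LB S F) (h : S' ⊆ S) : LB S' F := by
  obtain ⟨C, K, hC, hK, h1, h2⟩ := hF
  exact ⟨C, K, hC, hK, fun x hx => h1 x (h hx), fun x hx y hy => h2 x (h hx) y (h hy)⟩

lemma LB.const (c : ℝ) : LB S (fun _ => c) :=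
  ⟨|c|, 0, abs_nonneg _, le_rfl, fun _ _ => le_rfl, fun x _ y _ => by simp⟩

lemma LB.add (hF : LB S F) (hG : LB S G) : LB S (fun x => F x + G x) := by
  obtain ⟨C, K, hC, hK, h1, h2⟩ := hF
  obtain ⟨C', K', hC', hK', h1', h2'⟩ := hG
  refine ⟨C + C', K + K', by positivity, by positivity, fun x hx => ?_, fun x hx y hy => ?_⟩
  · exact (abs_add_le _ _).trans (add_le_add (h1 x hx) (h1' x hx))
  · rw [show F x + G x - (F y + G y) = (F x - F y) + (G x - G y) by ring, add_mul]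
    exact (abs_add_le _ _).trans (add_le_add (h2 x hx y hy) (h2' x hx y hy))

lemma LB.mul (hF : LB S F) (hG : LB S G) : LB S (fun x => F x * G x) := by
  obtain ⟨C, K, hC, hK, h1, h2⟩ := hF
  obtain ⟨C', K', hC', hK', h1', h2'⟩ := hG
  refine ⟨C * C', C * K' + K * C', by positivity, by positivity, fun x hx => ?_,
    fun x hx y hy => ?_⟩
  · rw [abs_mul]
    exact mul_le_mul (h1 x hx) (h1' x hx) (abs_nonneg _) hC
  · rw [show F x * G x - F y * G y = F x * (G x - G y) + (F x - F y) * G y by ring]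
    refine (abs_add_le _ _).trans ?_
    rw [abs_mul, abs_mul, add_mul]
    refine add_le_add ?_ ?_
    · rw [mul_assoc]
      exact mul_le_mul (h1 x hx) (h2' x hx y hy) (abs_nonneg _) hC
    · rw [mul_right_comm]
      exact mul_le_mul (h2 x hx y hy) (h1' y hy) (abs_nonneg _) (by positivity)

lemma LB.cmul (c : ℝ) (hF : LB S F) : LB S (fun x => c * F x) := (LB.const c).mul hF

lemma LB.neg (hF : LB S F) : LB S (fun x => -F x) :=
  (hF.cmul (-1)).congr fun x _ => by ring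

lemma LB.sub (hF : LB S F) (hG : LB S G) : LB S (fun x => F x - G x) :=
  (hF.add hG.neg).congr fun x _ => by ring

lemma LB.entry {R : ℝ} (hR : 0 ≤ R) (hS : ∀ x ∈ S, ‖x‖ ≤ R) (i j : Fin 2) :
    LB S (fun x => x i j) :=
  ⟨R, 1, hR, zero_le_one, fun x hx => (ent x i j).trans (hS x hx), fun x _ y _ => by
    rw [one_mul]; exact ent_sub x y i j⟩

lemma LB.comp (hF : LB S F) {g : ℝ → ℝ} {C' K' : ℝ} (hC' : 0 ≤ C') (hK' : 0 ≤ K')
    (h1 : ∀ x ∈ S, |g (F x)| ≤ C')
    (h2 : ∀ x ∈ S, ∀ y ∈ S, |g (F x) - g (F y)| ≤ K' * |F x - F y|) :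
    LB S (fun x => g (F x)) := by
  obtain ⟨C, K, hC, hK, h3, h4⟩ := hF
  refine ⟨C', K' * K, hC', by positivity, h1, fun x hx y hy => (h2 x hx y hy).trans ?_⟩
  rw [mul_assoc]
  exact mul_le_mul_of_nonneg_left (h4 x hx y hy) hK'

/-! ### normalisation of the determinant -/

/-- cut-off in the determinant -/
def th (s : ℝ) : ℝ := max 0 (min 1 (2 * s - 1))

lemma th_one : th 1 = 1 := by norm_num [th]

lemma th_zero {s : ℝ} (h : s < 1 / 2) : th s = 0 := by
  unfold th
  rw [max_eq_left]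
  exact (min_le_right _ _).trans (by linarith)

lemma th_nonneg (s : ℝ) : 0 ≤ th s := le_max_left _ _

lemma th_le (s : ℝ) : th s ≤ 1 := max_le zero_le_one (min_le_left _ _)

lemma th_lip (s t : ℝ) : |th s - th t| ≤ 2 * |s - t| := by
  unfold th
  rw [max_comm 0, max_comm 0]
  refine (abs_max_sub_max_le_abs _ _ _).trans ((abs_min_sub_min_le_max _ _ _ _).trans ?_)
  rw [sub_self, abs_zero, max_eq_right (abs_nonneg _),
    show 2 * s - 1 - (2 * t - 1) = 2 * (s - t) by ring, abs_mul, abs_of_pos (by norm_num)]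

/-- normalisation -/
def nrm (M : M2) : SL(2, ℝ) :=
  if h : 0 < M.det then
    ⟨(Real.sqrt M.det)⁻¹ • M, by
      rw [Matrix.det_smul, Fintype.card_fin, inv_pow, Real.sq_sqrt h.le]
      exact inv_mul_cancel₀ h.ne'⟩
  else 1

lemma nrm_apply {M : M2} (h : 0 < M.det) (i j : Fin 2) :
    nrm M i j = (Real.sqrt M.det)⁻¹ * M i j := by
  unfold nrm
  rw [dif_pos h]
  rfl

lemma nrm_coe (g : SL(2, ℝ)) : nrm (g : M2) = g := by
  ext i j
  have h : (g : M2).det = 1 := g.det_coe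
  rw [nrm_apply (by rw [h]; exact one_pos), h, Real.sqrt_one, inv_one, one_mul]

/-- the set of matrices which are bounded and have a determinant bounded below -/
def SR (R : ℝ) : Set M2 := {M | ‖M‖ ≤ R ∧ 1 / 2 ≤ M.det}

lemma LB.det {R : ℝ} (hR : 0 ≤ R) (hS : ∀ x ∈ S, ‖x‖ ≤ R) : LB S (fun x => x.det) :=
  (((LB.entry hR hS 0 0).mul (LB.entry hR hS 1 1)).sub
    ((LB.entry hR hS 0 1).mul (LB.entry hR hS 1 0))).congr fun x _ => Matrix.det_fin_two x

lemma inv_sqrt_lip {s t : ℝ} (hs : 1 / 2 ≤ s) (ht : 1 / 2 ≤ t) :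
    |(Real.sqrt s)⁻¹ - (Real.sqrt t)⁻¹| ≤ 2 * |s - t| := by
  obtain ⟨a, ha⟩ : ∃ a, a = Real.sqrt s := ⟨_, rfl⟩
  obtain ⟨b, hb⟩ : ∃ b, b = Real.sqrt t := ⟨_, rfl⟩
  have ha0 : 0 ≤ a := by rw [ha]; exact Real.sqrt_nonneg _
  have hb0 : 0 ≤ b := by rw [hb]; exact Real.sqrt_nonneg _
  have ha2 : a ^ 2 = s := by rw [ha]; exact Real.sq_sqrt (by linarith)
  have hb2 : b ^ 2 = t := by rw [hb]; exact Real.sq_sqrt (by linarith only [ht])
  have ha1 : 1 / 2 ≤ a := by nlinarith only [hs, ha2, ha0]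
  have hb1 : 1 / 2 ≤ b := by nlinarith only [ht, hb2, hb0]
  have hab : 1 / 2 ≤ a * b := by nlinarith only [ha2, ht, hb2, hs, mul_nonneg ha0 hb0]
  rw [← ha, ← hb, ← ha2, ← hb2, show a⁻¹ - b⁻¹ = (a * b)⁻¹ * (b - a) by field_simp,
    show a ^ 2 - b ^ 2 = (a + b) * (a - b) by ring, abs_mul, abs_mul, abs_sub_comm b a,
    ← mul_assoc]
  refine mul_le_mul_of_nonneg_right ?_ (abs_nonneg _)
  rw [abs_of_nonneg (by positivity), abs_of_nonneg (by positivity)]
  refine (inv_anti₀ (by norm_num) hab).trans ?_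
  norm_num
  linarith

lemma inv_sqrt_le {s : ℝ} (hs : 1 / 2 ≤ s) : |(Real.sqrt s)⁻¹| ≤ 2 := by
  have h1 : 1 / 2 ≤ Real.sqrt s := Real.le_sqrt_of_sq_le (by norm_num; linarith)
  rw [abs_of_nonneg (by positivity)]
  refine (inv_anti₀ (by norm_num) h1).trans ?_
  norm_num

lemma lb_nrm {R : ℝ} (hR : 0 ≤ R) (i j : Fin 2) : LB (SR R) (fun M => FL.nrm M i j) := by
  have hS : ∀ x ∈ SR R, ‖x‖ ≤ R := fun x hx => hx.1
  refine (((LB.det hR hS).comp (g := fun s => (Real.sqrt s)⁻¹) zero_le_two zero_le_two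
    (fun x hx => inv_sqrt_le hx.2) (fun x hx y hy => inv_sqrt_lip hx.2 hy.2)).mul
    (LB.entry hR hS i j)).congr fun x hx => ?_
  exact nrm_apply (by have := hx.2; linarith) i j

/-- the distance `dd` is controlled by the difference of the entries -/
lemma dd_le {m δ : ℝ} (v w : SL(2, ℝ)) (hm : ∀ i j, |v i j| ≤ m)
    (hδ : ∀ i j, |w i j - v i j| ≤ δ) : dd v w ≤ 8 * m * δ := by
  have hdet : v 0 0 * v 1 1 - v 0 1 * v 1 0 = 1 := by
    have := v.det_coe
    rwa [Matrix.det_fin_two] at this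
  have e : ((v⁻¹ * w : SL(2, ℝ)) : M2) =
      !![v 1 1 * w 0 0 - v 0 1 * w 1 0, v 1 1 * w 0 1 - v 0 1 * w 1 1;
        -v 1 0 * w 0 0 + v 0 0 * w 1 0, -v 1 0 * w 0 1 + v 0 0 * w 1 1] := by
    rw [Matrix.SpecialLinearGroup.coe_mul, Matrix.SpecialLinearGroup.coe_inv,
      Matrix.adjugate_fin_two]
    ext i j
    fin_cases i <;> fin_cases j <;> simp [Matrix.mul_apply, Fin.sum_univ_two] <;> ring
  have hm0 : 0 ≤ m := (abs_nonneg _).trans (hm 0 0)
  have hp : ∀ {a b c d : ℝ}, |a| ≤ m → |b| ≤ δ → |c| ≤ m → |d| ≤ δ → |a * b + c * d| ≤ 2 * m * δ := by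
    intro a b c d h1 h2 h3 h4
    refine (abs_add_le _ _).trans ?_
    rw [abs_mul, abs_mul]
    have h5 := mul_le_mul h1 h2 (abs_nonneg _) hm0
    have h6 := mul_le_mul h3 h4 (abs_nonneg _) hm0
    linarith
  unfold dd nn
  rw [e]
  simp only [Matrix.of_apply, Matrix.cons_val', Matrix.cons_val_zero, Matrix.cons_val_one,
    Matrix.cons_val_fin_one]
  have h00 : v 1 1 * w 0 0 - v 0 1 * w 1 0 - 1 =
      v 1 1 * (w 0 0 - v 0 0) + (-v 0 1) * (w 1 0 - v 1 0) := by linear_combination hdet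
  have h01 : v 1 1 * w 0 1 - v 0 1 * w 1 1 =
      v 1 1 * (w 0 1 - v 0 1) + (-v 0 1) * (w 1 1 - v 1 1) := by ring
  have h10 : -v 1 0 * w 0 0 + v 0 0 * w 1 0 =
      (-v 1 0) * (w 0 0 - v 0 0) + v 0 0 * (w 1 0 - v 1 0) := by ring
  have h11 : -v 1 0 * w 0 1 + v 0 0 * w 1 1 - 1 =
      (-v 1 0) * (w 0 1 - v 0 1) + v 0 0 * (w 1 1 - v 1 1) := by linear_combination hdet
  rw [h00, h01, h10, h11]
  have k1 := hp (hm 1 1) (hδ 0 0) (by rw [abs_neg]; exact hm 0 1) (hδ 1 0)
  have k2 := hp (hm 1 1) (hδ 0 1) (by rw [abs_neg]; exact hm 0 1) (hδ 1 1)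
  have k3 := hp (by rw [abs_neg]; exact hm 1 0) (hδ 0 0) (hm 0 0) (hδ 1 0)
  have k4 := hp (by rw [abs_neg]; exact hm 1 0) (hδ 0 1) (hm 0 0) (hδ 1 1)
  linarith

/-- functions of the frame which are Lipschitz for `dd`, composed with the normalisation -/
lemma lb_lift {R : ℝ} (hR : 0 ≤ R) {q : SL(2, ℝ) → ℝ} {B L : ℝ} (hB : 0 ≤ B) (hL : 0 ≤ L)
    (h1 : ∀ g, |q g| ≤ B) (h2 : ∀ v w, |q w - q v| ≤ L * dd v w) :
    LB (SR R) (fun M => q (FL.nrm M)) := by
  have h : ∀ i j : Fin 2, ∃ C K : ℝ, 0 ≤ C ∧ 0 ≤ K ∧ (∀ x ∈ SR R, |FL.nrm x i j| ≤ C) ∧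
      ∀ x ∈ SR R, ∀ y ∈ SR R, |FL.nrm x i j - FL.nrm y i j| ≤ K * ‖x - y‖ := fun i j => lb_nrm hR i j
  choose C K hC hK h3 h4 using h
  obtain ⟨m, hm⟩ : ∃ m, m = ∑ i, ∑ j, C i j := ⟨_, rfl⟩
  obtain ⟨k, hk⟩ : ∃ k, k = ∑ i, ∑ j, K i j := ⟨_, rfl⟩
  have hCm : ∀ i j, C i j ≤ m := by
    intro i j
    rw [hm]
    exact (Finset.single_le_sum (f := fun j => C i j) (fun j _ => hC i j) (Finset.mem_univ j)).trans
      (Finset.single_le_sum (f := fun i => ∑ j, C i j) (fun i _ => Finset.sum_nonneg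
        fun j _ => hC i j) (Finset.mem_univ i))
  have hKk : ∀ i j, K i j ≤ k := by
    intro i j
    rw [hk]
    exact (Finset.single_le_sum (f := fun j => K i j) (fun j _ => hK i j) (Finset.mem_univ j)).trans
      (Finset.single_le_sum (f := fun i => ∑ j, K i j) (fun i _ => Finset.sum_nonneg
        fun j _ => hK i j) (Finset.mem_univ i))
  have hm0 : 0 ≤ m := (hC 0 0).trans (hCm 0 0)
  have hk0 : 0 ≤ k := (hK 0 0).trans (hKk 0 0)
  refine ⟨B, L * (8 * m * k), hB, by positivity, fun x _ => h1 _, fun x hx y hy => ?_⟩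
  refine (h2 _ _).trans ?_
  rw [mul_assoc]
  refine mul_le_mul_of_nonneg_left ?_ hL
  rw [mul_assoc]
  refine dd_le (m := m) (δ := k * ‖x - y‖) _ _ (fun i j => (h3 i j y hy).trans (hCm i j))
    (fun i j => (h4 i j x hx y hy).trans ?_)
  exact mul_le_mul_of_nonneg_right (hKk i j) (norm_nonneg _)

/-! ### the field -/

/-- the geodesic field, extended to all matrices -/
def fld (ρ : ℍ → ℝ) (M : M2) : M2 := th M.det • (M * AA ρ (nrm M))

lemma fld_coe (ρ : ℍ → ℝ) (g : SL(2, ℝ)) : fld ρ (g : M2) = (g : M2) * AA ρ g := by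
  unfold fld
  rw [nrm_coe, g.det_coe, th_one, one_smul]

/-- what is needed of `ρ` -/
structure Lp (ρ : ℍ → ℝ) (B L : ℝ) : Prop where
  B0 : 0 ≤ B
  L0 : 0 ≤ L
  rb : ∀ z, |ρ z| ≤ B
  pb : ∀ g, |Pr ρ g| ≤ B
  rl : ∀ v w : SL(2, ℝ), |ρ (w • UpperHalfPlane.I) - ρ (v • UpperHalfPlane.I)| ≤ L * dd v w
  pl : ∀ v w : SL(2, ℝ), |Pr ρ w - Pr ρ v| ≤ L * dd v w

variable {ρ : ℍ → ℝ} {B L : ℝ}

lemma AA_apply (ρ : ℍ → ℝ) (g : SL(2, ℝ)) :
    AA ρ g 0 0 = Real.exp (-ρ (g • UpperHalfPlane.I)) * (1 / 2) ∧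
    AA ρ g 0 1 = Real.exp (-ρ (g • UpperHalfPlane.I)) * (-(Pr ρ g / 2)) ∧
    AA ρ g 1 0 = Real.exp (-ρ (g • UpperHalfPlane.I)) * (Pr ρ g / 2) ∧
    AA ρ g 1 1 = Real.exp (-ρ (g • UpperHalfPlane.I)) * (-(1 / 2)) := by
  unfold AA
  refine ⟨?_, ?_, ?_, ?_⟩ <;> simp [Matrix.smul_apply]

lemma exp_lip {B x y : ℝ} (hx : |x| ≤ B) (hy : |y| ≤ B) :
    |Real.exp (-x) - Real.exp (-y)| ≤ Real.exp B * |x - y| := by
  wlog h : x ≤ y generalizing x y
  · rw [abs_sub_comm, abs_sub_comm x y]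
    exact this hy hx (le_of_not_ge h)
  have h1 : Real.exp (-y) ≤ Real.exp (-x) := Real.exp_le_exp.2 (by linarith)
  have h2 : Real.exp (-x) ≤ Real.exp B := Real.exp_le_exp.2 (by linarith [(abs_le.1 hx).1])
  have h3 : 1 + (x - y) ≤ Real.exp (x - y) := by linarith [Real.add_one_le_exp (x - y)]
  have h4 : Real.exp (-y) = Real.exp (-x) * Real.exp (x - y) := by
    rw [← Real.exp_add]; congr 1; ring
  rw [abs_of_nonneg (by linarith), abs_of_nonpos (by linarith), h4]
  have h5 := Real.exp_pos (-x)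
  nlinarith only [h, h2, h3, h5]

lemma lb_AA (h : Lp ρ B L) {R : ℝ} (hR : 0 ≤ R) (i j : Fin 2) :
    LB (SR R) (fun M => AA ρ (nrm M) i j) := by
  have h1 : LB (SR R) (fun M => Real.exp (-ρ (nrm M • UpperHalfPlane.I))) := by
    have h2 := lb_lift hR (q := fun g => ρ (g • UpperHalfPlane.I)) h.B0 h.L0 (fun g => h.rb _) h.rl
    refine h2.comp (g := fun s => Real.exp (-s)) (C' := Real.exp B) (K' := Real.exp B)
      (Real.exp_pos _).le (Real.exp_pos _).le (fun x _ => ?_) (fun x _ y _ => exp_lip (h.rb _) (h.rb _))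
    rw [abs_of_pos (Real.exp_pos _)]
    refine Real.exp_le_exp.2 ?_
    linarith [(abs_le.1 (h.rb (nrm x • UpperHalfPlane.I))).1]
  have h3 := lb_lift hR (q := Pr ρ) h.B0 h.L0 h.pb h.pl
  fin_cases i <;> fin_cases j
  · exact (h1.mul (LB.const (1 / 2))).congr fun x _ => (AA_apply ρ _).1
  · exact (h1.mul (h3.cmul (-(1 / 2)))).congr fun x _ => by
      refine (AA_apply ρ _).2.1.trans ?_
      ring
  · exact (h1.mul (h3.cmul (1 / 2))).congr fun x _ => by
      refine (AA_apply ρ _).2.2.1.trans ?_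
      ring
  · exact (h1.mul (LB.const (-(1 / 2)))).congr fun x _ => (AA_apply ρ _).2.2.2

lemma AA_le (h : Lp ρ B L) (g : SL(2, ℝ)) (i j : Fin 2) :
    |AA ρ g i j| ≤ Real.exp B * (1 + B) := by
  obtain ⟨h00, h01, h10, h11⟩ := AA_apply ρ g
  have h1 : Real.exp (-ρ (g • UpperHalfPlane.I)) ≤ Real.exp B := Real.exp_le_exp.2 (by
    linarith only [(abs_le.1 (h.rb (g • UpperHalfPlane.I))).1])
  have h2 := Real.exp_pos (-ρ (g • UpperHalfPlane.I))
  have hB := h.B0
  have h3 : |Pr ρ g / 2| ≤ 1 + B := by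
    rw [abs_div, abs_of_pos (by norm_num : (0 : ℝ) < 2)]
    linarith only [hB, h.pb g]
  have h4 : |(1 / 2 : ℝ)| ≤ 1 + B := by rw [abs_of_pos (by norm_num)]; linarith only [hB]
  fin_cases i <;> fin_cases j
  · refine (congrArg abs h00).trans_le ?_
    rw [abs_mul, abs_of_pos h2]
    exact mul_le_mul h1 h4 (abs_nonneg _) (Real.exp_pos _).le
  · refine (congrArg abs h01).trans_le ?_
    rw [abs_mul, abs_of_pos h2, abs_neg]
    exact mul_le_mul h1 h3 (abs_nonneg _) (Real.exp_pos _).le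
  · refine (congrArg abs h10).trans_le ?_
    rw [abs_mul, abs_of_pos h2]
    exact mul_le_mul h1 h3 (abs_nonneg _) (Real.exp_pos _).le
  · refine (congrArg abs h11).trans_le ?_
    rw [abs_mul, abs_of_pos h2, abs_neg]
    exact mul_le_mul h1 h4 (abs_nonneg _) (Real.exp_pos _).le

lemma fld_apply (ρ : ℍ → ℝ) (M : M2) (i j : Fin 2) :
    fld ρ M i j = th M.det * (M i 0 * AA ρ (nrm M) 0 j + M i 1 * AA ρ (nrm M) 1 j) := by
  unfold fld
  rw [Matrix.smul_apply, Matrix.mul_apply, Fin.sum_univ_two, smul_eq_mul]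

lemma fld_lin (h : Lp ρ B L) (M : M2) :
    ‖fld ρ M‖ ≤ (2 * (Real.exp B * (1 + B))) * ‖M‖ := by
  have hB := h.B0
  rw [Matrix.norm_le_iff (by positivity)]
  intro i j
  rw [Real.norm_eq_abs, fld_apply, abs_mul, abs_of_nonneg (th_nonneg _)]
  have h1 : |M i 0 * AA ρ (nrm M) 0 j + M i 1 * AA ρ (nrm M) 1 j| ≤
      (2 * (Real.exp B * (1 + B))) * ‖M‖ := by
    refine (abs_add_le _ _).trans ?_
    rw [abs_mul, abs_mul]
    have h2 := mul_le_mul (ent M i 0) (AA_le h (nrm M) 0 j) (abs_nonneg _) (norm_nonneg _)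
    have h3 := mul_le_mul (ent M i 1) (AA_le h (nrm M) 1 j) (abs_nonneg _) (norm_nonneg _)
    linarith
  calc th M.det * |M i 0 * AA ρ (nrm M) 0 j + M i 1 * AA ρ (nrm M) 1 j|
      ≤ 1 * |M i 0 * AA ρ (nrm M) 0 j + M i 1 * AA ρ (nrm M) 1 j| :=
        mul_le_mul_of_nonneg_right (th_le _) (abs_nonneg _)
    _ ≤ _ := by rw [one_mul]; exact h1

lemma fld_lip (h : Lp ρ B L) {R : ℝ} (hR : 0 ≤ R) :
    ∃ K : ℝ≥0, LipschitzOnWith K (fld ρ) (closedBall 0 R) := by
  have key : ∀ i j : Fin 2, ∃ K : ℝ, 0 ≤ K ∧ ∀ x ∈ closedBall (0 : M2) R,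
      ∀ y ∈ closedBall (0 : M2) R, |fld ρ x i j - fld ρ y i j| ≤ K * ‖x - y‖ := by
    intro i j
    have hS : ∀ x ∈ SR R, ‖x‖ ≤ R := fun x hx => hx.1
    have hG : LB (SR R) (fun M => M i 0 * AA ρ (nrm M) 0 j + M i 1 * AA ρ (nrm M) 1 j) :=
      ((LB.entry hR hS i 0).mul (lb_AA h hR 0 j)).add ((LB.entry hR hS i 1).mul (lb_AA h hR 1 j))
    have hT : LB (closedBall (0 : M2) R) (fun M => th M.det) :=
      (LB.det hR fun x hx => by rwa [mem_closedBall_zero_iff] at hx).comp zero_le_one zero_le_two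
        (fun x _ => by rw [abs_of_nonneg (th_nonneg _)]; exact th_le _)
        (fun x _ y _ => th_lip _ _)
    have hsub : SR R ⊆ closedBall (0 : M2) R := fun x hx => by
      rw [mem_closedBall_zero_iff]; exact hx.1
    obtain ⟨C, K, hC, hK, h1, h2⟩ := (hT.mono hsub).mul hG
    obtain ⟨C', K', hC', hK', h1', h2'⟩ := hG
    obtain ⟨C'', K'', hC'', hK'', h1'', h2''⟩ := hT
    have hz : ∀ x ∈ closedBall (0 : M2) R, x ∉ SR R → th x.det = 0 := by
      intro x hx hn
      refine th_zero ?_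
      by_contra hcon
      exact hn ⟨by rwa [mem_closedBall_zero_iff] at hx, le_of_not_gt hcon⟩
    have hone : ∀ x ∈ SR R, ∀ y ∈ closedBall (0 : M2) R, y ∉ SR R →
        |fld ρ x i j - fld ρ y i j| ≤ (K + C' * K'') * ‖x - y‖ := by
      intro x hx y hy hn
      have hy0 := hz y hy hn
      rw [fld_apply, fld_apply, hy0, zero_mul, sub_zero, abs_mul]
      have h3 : |th x.det - th y.det| ≤ K'' * ‖x - y‖ := h2'' x (hsub hx) y hy
      rw [hy0, sub_zero] at h3
      have h4 := h1' x hx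
      have h5 := mul_le_mul h3 h4 (abs_nonneg _) (by positivity)
      have h6 : 0 ≤ K * ‖x - y‖ := by positivity
      refine h5.trans ?_
      linarith
    refine ⟨K + C' * K'', by positivity, fun x hx y hy => ?_⟩
    by_cases hxS : x ∈ SR R
    · by_cases hyS : y ∈ SR R
      · rw [fld_apply, fld_apply]
        refine (h2 x hxS y hyS).trans ?_
        have h6 : 0 ≤ C' * K'' * ‖x - y‖ := by positivity
        linarith
      · exact hone x hxS y hy hyS
    · by_cases hyS : y ∈ SR R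
      · rw [abs_sub_comm, norm_sub_rev]
        exact hone y hyS x hx hxS
      · rw [fld_apply, fld_apply, hz x hx hxS, hz y hy hyS, zero_mul, zero_mul, sub_zero, abs_zero]
        (clear * - hK hC' hK''; positivity)
  choose K hK hl using key
  obtain ⟨k, hk⟩ : ∃ k, k = ∑ i, ∑ j, K i j := ⟨_, rfl⟩
  have hKk : ∀ i j, K i j ≤ k := by
    intro i j
    rw [hk]
    exact (Finset.single_le_sum (f := fun j => K i j) (fun j _ => hK i j) (Finset.mem_univ j)).trans
      (Finset.single_le_sum (f := fun i => ∑ j, K i j) (fun i _ => Finset.sum_nonneg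
        fun j _ => hK i j) (Finset.mem_univ i))
  have hk0 : 0 ≤ k := (hK 0 0).trans (hKk 0 0)
  refine ⟨k.toNNReal, LipschitzOnWith.of_dist_le_mul fun x hx y hy => ?_⟩
  rw [Real.coe_toNNReal _ hk0, dist_eq_norm, dist_eq_norm, Matrix.norm_le_iff (by positivity)]
  intro i j
  refine (hl i j x hx y hy).trans ?_
  exact mul_le_mul_of_nonneg_right (hKk i j) (norm_nonneg _)

/-- clamping of the entries -/
def clamp (R : ℝ) (M : M2) : M2 := Matrix.of fun i j => max (-R) (min R (M i j))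

lemma fld_ok (h : Lp ρ B L) : FG.Fld (fld ρ) (2 * (Real.exp B * (1 + B))) clamp where
  nn := by have := h.B0; positivity
  lin := fld_lin h
  lip := fun R hR => fld_lip h hR
  Pl := by
    intro R _
    refine LipschitzWith.of_dist_le_mul fun x y => ?_
    rw [NNReal.coe_one, one_mul, dist_eq_norm, dist_eq_norm, Matrix.norm_le_iff (norm_nonneg _)]
    intro i j
    rw [Matrix.sub_apply, Real.norm_eq_abs]
    unfold clamp
    rw [Matrix.of_apply, Matrix.of_apply, max_comm (-R), max_comm (-R)]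
    refine (abs_max_sub_max_le_abs _ _ _).trans ((abs_min_sub_min_le_max _ _ _ _).trans ?_)
    rw [sub_self, abs_zero, max_eq_right (abs_nonneg _)]
    exact ent_sub x y i j
  Pid := by
    intro R x hx
    ext i j
    have h1 := (ent x i j).trans hx
    rw [abs_le] at h1
    unfold clamp
    rw [Matrix.of_apply, min_eq_right h1.2, max_eq_right h1.1]
  Pb := by
    intro R x hR
    rw [Matrix.norm_le_iff hR]
    intro i j
    unfold clamp
    rw [Matrix.of_apply, Real.norm_eq_abs, abs_le]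
    exact ⟨le_max_left _ _, max_le (by linarith) (min_le_left _ _)⟩
  Ple := by
    intro R x hR
    rw [Matrix.norm_le_iff (norm_nonneg _)]
    intro i j
    unfold clamp
    have h1 := ent x i j
    rw [abs_le] at h1
    have hx := norm_nonneg x
    rw [Matrix.of_apply, Real.norm_eq_abs, abs_le]
    refine ⟨?_, max_le (by linarith) ((min_le_right _ _).trans h1.2)⟩
    rcases le_total R (x i j) with h2 | h2
    · rw [min_eq_left h2]
      exact le_max_of_le_right (by linarith)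
    · rw [min_eq_right h2]
      exact le_max_of_le_right h1.1

/-- entrywise derivatives -/
lemma deriv_ent {γ : ℝ → M2} {γ' : M2} {t : ℝ} :
    HasDerivAt γ γ' t ↔ ∀ i j, HasDerivAt (fun s => γ s i j) (γ' i j) t := by
  constructor
  · intro h i j
    exact hasDerivAt_pi.1 (hasDerivAt_pi.1 h i) j
  · intro h
    exact hasDerivAt_pi.2 fun i => hasDerivAt_pi.2 fun j => h i j

/-- the determinant is preserved -/
lemma det_const {γ : ℝ → M2} (hγ : ∀ t, HasDerivAt γ (fld ρ (γ t)) t) (t : ℝ) :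
    (γ t).det = (γ 0).det := by
  have h1 : ∀ t, HasDerivAt (fun s => (γ s).det) 0 t := by
    intro t
    have h2 := fun i j => deriv_ent.1 (hγ t) i j
    have h3 := ((h2 0 0).mul (h2 1 1)).sub ((h2 0 1).mul (h2 1 0))
    have h4 : (fun s => (γ s).det) = fun s => γ s 0 0 * γ s 1 1 - γ s 0 1 * γ s 1 0 := by
      funext s
      exact Matrix.det_fin_two _
    rw [h4]
    refine h3.congr_deriv ?_
    rw [fld_apply, fld_apply, fld_apply, fld_apply]
    obtain ⟨h00, h01, h10, h11⟩ := AA_apply ρ (nrm (γ t))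
    rw [h00, h01, h10, h11]
    ring
  exact is_const_of_deriv_eq_zero (fun s => (h1 s).differentiableAt) (fun s => (h1 s).deriv) t 0

end

end FL

open _root_.QE.NC.FL in
/-- MODULE NC_FLOW: existence of the geodesic flow -/
theorem stmtFlow (hLip : StmtLip) : StmtFlow := by
  intro Γ ρ hΓ
  obtain ⟨hinv, hneg, -, -, -, B, L, hB, hL, hrb, hpb, -, hrl, hpl, -⟩ := hLip Γ ρ hΓ
  let _i1 : NormedAddCommGroup M2 := Matrix.normedAddCommGroup
  let _i2 : NormedSpace ℝ M2 := Matrix.normedSpace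
  obtain ⟨φ, h0, hd, hc, hu⟩ := FG.exists_flow (fld_ok ⟨hB, hL, hrb, hpb, hrl, hpl⟩)
  have hdet : ∀ (t : ℝ) (g : SL(2, ℝ)), (φ t (g : M2)).det = 1 := by
    intro t g
    rw [det_const (hd g) t, h0, g.det_coe]
  -- the flow
  obtain ⟨Φ, hΦ⟩ : ∃ Φ : ℝ → SL(2, ℝ) → SL(2, ℝ), ∀ t g, ((Φ t g : SL(2, ℝ)) : M2) = φ t (g : M2) :=
    ⟨fun t g => ⟨φ t (g : M2), hdet t g⟩, fun t g => rfl⟩
  -- uniqueness
  have huniq : ∀ β : ℝ → SL(2, ℝ), (∀ t (i j : Fin 2), HasDerivAt (fun s => β s i j)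
      (((β t : M2) * AA ρ (β t)) i j) t) → ∀ t, β t = Φ t (β 0) := by
    intro β hβ t
    apply Subtype.ext
    have h1 := hu (fun s => (β s : M2)) (fun s => by
      rw [fld_coe]
      exact deriv_ent.2 fun i j => hβ s i j) t
    exact h1.trans (hΦ t (β 0)).symm
  have hder : ∀ g t (i j : Fin 2), HasDerivAt (fun s => Φ s g i j)
      (((Φ t g : M2) * AA ρ (Φ t g)) i j) t := by
    intro g t i j
    have h1 := deriv_ent.1 (hd g t) i j
    rw [← hΦ, fld_coe] at h1
    refine h1.congr_of_eventuallyEq (Filter.Eventually.of_forall fun s => ?_)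
    exact congrFun (congrFun (hΦ s g) i) j
  have hzero : ∀ g, Φ 0 g = g := fun g => Subtype.ext ((hΦ 0 g).trans (h0 g))
  have hleft : ∀ γ : SL(2, ℝ), (∀ z, ρ (γ • z) = ρ z) → ∀ t g, Φ t (γ * g) = γ * Φ t g := by
    intro γ hγ t g
    have h1 := huniq (fun s => γ * Φ s g) (fun s i j => ?_) t
    · simp only [hzero] at h1
      exact h1.symm
    · have h2 : AA ρ (γ * Φ s g) = AA ρ (Φ s g) := by
        unfold AA
        rw [(hinv γ hγ _).1, mul_smul, hγ]
      rw [h2]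
      have h3 : ∀ r, (γ * Φ r g) i j = γ i 0 * Φ r g 0 j + γ i 1 * Φ r g 1 j := by
        intro r
        rw [Matrix.SpecialLinearGroup.coe_mul, Matrix.mul_apply, Fin.sum_univ_two]
      have h4 := ((hder g s 0 j).const_mul (γ i 0)).add ((hder g s 1 j).const_mul (γ i 1))
      refine (h4.congr_deriv ?_).congr_of_eventuallyEq (Filter.Eventually.of_forall h3)
      have h5 : ((γ : M2) * ((Φ s g : M2) * AA ρ (Φ s g))) i j =
          γ i 0 * ((Φ s g : M2) * AA ρ (Φ s g)) 0 j +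
            γ i 1 * ((Φ s g : M2) * AA ρ (Φ s g)) 1 j := by
        rw [Matrix.mul_apply, Fin.sum_univ_two]
      rw [Matrix.SpecialLinearGroup.coe_mul, Matrix.mul_assoc, h5]
  refine ⟨Φ, hzero, ?_, ?_, hder, hleft, ?_⟩
  · intro s t g
    have h1 := huniq (fun r => Φ (r + t) g) (fun r i j => ?_) s
    · simp only [zero_add] at h1
      exact h1
    · have h2 := (hder g (r + t) i j).comp_add_const r t
      exact h2
  · have h1 : Continuous fun p : ℝ × SL(2, ℝ) => φ p.1 (p.2 : M2) :=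
      hc.comp (continuous_fst.prodMk (continuous_subtype_val.comp continuous_snd))
    exact continuous_induced_rng.2 (h1.congr fun p => (hΦ p.1 p.2).symm)
  · intro t g
    have h1 := hleft (-1) (fun z => ?_) t g
    · rw [neg_one_mul, neg_one_mul] at h1
      exact h1
    · have h2 : (-1 : SL(2, ℝ)) • z = z := by
        have h3 : (-(1 : SL(2, ℝ))) • z = (1 : SL(2, ℝ)) • z := by
          exact neg_smul_eq 1 z
        rw [h3, one_smul]
      rw [h2]

end NC

end QE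


end
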