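import Mathlib
import Pool.Agent.BWM.C20
import Pool.Agent.BWM.C21

/-! Parts: NCV.Atoms, NCV.Alg, NCV.Mass -/

section

/-!
# No directional atoms in negative curvature
-/

open MeasureTheory Filter Topology Set
open UpperHalfPlane hiding I
open scoped ContDiff MatrixGroups ENNReal

namespace QE

namespace NC

noncomputable section

/-! ### the curvature -/

section curv

variable {Γ : Subgroup SL(2, ℝ)} {ρ : ℍ → ℝ}

theorem at_smooth (hF : Fac Γ ρ) (z : ℍ) : ContDiffAt ℝ ∞ (ro ρ) (z : ℂ) :=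
  hF.smooth.contDiffAt (isOpen_UH.mem_nhds (coe_mem_UH z))

theorem at_lap_cont (hF : Fac Γ ρ) : Continuous (lapR ρ) := by
  have h1 : Continuous fun z : ℍ => Laplacian.laplacian (ro ρ) (z : ℂ) := by
    rw [continuous_iff_continuousAt]
    intro z
    have h2 : ContinuousAt (Laplacian.laplacian (ro ρ)) (z : ℂ) := by
      rw [InnerProductSpace.laplacian_eq_iteratedFDeriv_complexPlane]
      have h3 : ContinuousAt (iteratedFDeriv ℝ 2 (ro ρ)) (z : ℂ) :=
        (at_smooth hF z).continuousAt_iteratedFDeriv (WithTop.coe_le_coe.2 le_top)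
      have h4 : ∀ m : Fin 2 → ℂ, ContinuousAt (fun x => iteratedFDeriv ℝ 2 (ro ρ) x m) (z : ℂ) :=
        fun m => h3.eval_const m
      exact (h4 _).add (h4 _)
    exact ContinuousAt.comp (f := fun z : ℍ => (z : ℂ)) h2 continuous_coe.continuousAt
  unfold lapR
  exact continuous_const.add ((continuous_im.pow 2).mul h1)

theorem at_lap_inv (hF : Fac Γ ρ) {γ : SL(2, ℝ)} (hγ : γ ∈ Γ) (z : ℍ) :
    lapR ρ (γ • z) = lapR ρ z := by
  have hz := coe_mem_UH z
  have h0 := den_ne_zero γ hz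
  have e1 : (fun w => ro ρ (mob γ w)) = ro ρ := by
    funext w
    unfold ro
    rw [ofComplex_mob, hF.inv γ hγ]
  have han : AnalyticAt ℂ (mob γ) (z : ℂ) := by
    have hd : DifferentiableOn ℂ (mob γ) UH := fun w hw =>
      (hasDerivAt_mob γ hw).differentiableAt.differentiableWithinAt
    exact hd.analyticAt (isOpen_UH.mem_nhds hz)
  have h1 : ContDiffAt ℝ 2 (ro ρ) (mob γ (z : ℂ)) := by
    rw [mob_coe]
    exact (at_smooth hF (γ • z)).of_le (WithTop.coe_le_coe.2 le_top)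
  have h2 := Berry.laplacian_conformal h1 han
  rw [e1, (hasDerivAt_mob γ hz).deriv, mob_coe] at h2
  have h3 : (γ • z).im = z.im / ‖den γ z‖ ^ 2 := by
    have := mob_im γ hz
    rw [mob_coe] at this
    exact this
  unfold lapR
  rw [h2, h3, norm_div, norm_pow, norm_one]
  have h4 : ‖den γ z‖ ≠ 0 := norm_ne_zero_iff.2 h0
  field_simp

theorem at_kap_bd (hF : Fac Γ ρ) (hρ : Continuous ρ) (hlap : ∀ z, 0 < lapR ρ z) :
    ∃ k₀ k₁ : ℝ, 0 < k₀ ∧ (∀ v, k₀ ≤ kap ρ v) ∧ ∀ v, kap ρ v ≤ k₁ := by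
  set f : ℍ → ℝ := fun z => Real.exp (-(2 * ρ z)) * lapR ρ z with hf
  have hfc : Continuous f := (Real.continuous_exp.comp (hρ.const_mul 2).neg).mul (at_lap_cont hF)
  have hfi : ∀ γ ∈ Γ, ∀ z, f (γ • z) = f z := fun γ hγ z => by
    simp only [hf, hF.inv γ hγ, at_lap_inv hF hγ]
  obtain ⟨K, hK, hKc⟩ := hF.cpt
  have hne : K.Nonempty := by
    obtain ⟨γ, -, h⟩ := hKc UpperHalfPlane.I
    exact ⟨_, h⟩
  obtain ⟨a, -, ha⟩ := hK.exists_isMinOn hne hfc.continuousOn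
  obtain ⟨b, -, hb⟩ := hK.exists_isMaxOn hne hfc.continuousOn
  refine ⟨f a, f b, mul_pos (Real.exp_pos _) (hlap a), fun v => ?_, fun v => ?_⟩
  · obtain ⟨γ, hγ, h⟩ := hKc (v • UpperHalfPlane.I)
    have h1 := ha h
    rw [mem_ofPred_eq, hfi γ hγ] at h1
    exact h1
  · obtain ⟨γ, hγ, h⟩ := hKc (v • UpperHalfPlane.I)
    have h1 := hb h
    rw [mem_ofPred_eq, hfi γ hγ] at h1
    exact h1

end curv

/-! ### change of the constants -/

section mono

theorem at_nn_nonneg (g : SL(2, ℝ)) : 0 ≤ nn g := by unfold nn; positivity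

theorem at_dd_nonneg (v w : SL(2, ℝ)) : 0 ≤ dd v w := at_nn_nonneg _

variable {Γ : Subgroup SL(2, ℝ)} {x y τ : SL(2, ℝ) → SL(2, ℝ) → ℝ} {c c' r r' : ℝ}
  {Φ : ℝ → SL(2, ℝ) → SL(2, ℝ)} {κ : SL(2, ℝ) → ℝ}

theorem at_alg_mono (h : PairAlg Γ x y τ c r) (hc : c ≤ c') (h0 : 0 < r') (hr : r' ≤ r) :
    PairAlg Γ x y τ c' r' := by
  have hd := at_dd_nonneg
  refine ⟨h.one_le.trans hc, h0, hr.trans h.rle, h.xc, h.yc, h.tc, h.xi, h.yi, h.ti, h.dsymm,
    ?_, ?_, ?_, ?_, ?_, ?_, ?_, ?_⟩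
  · intro v w u h1 h2
    exact (h.dtri v w u (h1.trans hr) (h2.trans hr)).trans
      (mul_le_mul_of_nonneg_right hc (add_nonneg (hd _ _) (hd _ _)))
  · intro v w h1
    exact (h.dle v w (h1.trans hr)).trans (mul_le_mul_of_nonneg_right hc (by positivity))
  · intro v w h1
    exact (h.xle v w (h1.trans hr)).trans (mul_le_mul_of_nonneg_right hc (hd _ _))
  · intro v w h1
    exact (h.yle v w (h1.trans hr)).trans (mul_le_mul_of_nonneg_right hc (hd _ _))
  · intro v w h1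
    exact (h.tle v w (h1.trans hr)).trans (mul_le_mul_of_nonneg_right hc (hd _ _))
  · intro v w u h1 h2
    exact (h.xcc v w u (h1.trans hr) (h2.trans hr)).trans
      (mul_le_mul_of_nonneg_right hc (by positivity))
  · intro v w u h1 h2
    exact (h.ycc v w u (h1.trans hr) (h2.trans hr)).trans
      (mul_le_mul_of_nonneg_right hc (by positivity))
  · intro v w u h1 h2
    exact (h.tcc v w u (h1.trans hr) (h2.trans hr)).trans
      (mul_le_mul_of_nonneg_right hc (by positivity))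

theorem at_fl_mono {L : ℝ} (h : PairFl Φ c L) (hc : c ≤ c') : PairFl Φ c' L := by
  have hd := at_dd_nonneg
  refine ⟨fun v w t => (h.dflow v w t).trans ?_, fun v t ht => (h.dmove v t ht).trans ?_⟩
  · exact mul_le_mul_of_nonneg_right (mul_le_mul_of_nonneg_right hc (Real.exp_pos _).le) (hd _ _)
  · exact mul_le_mul_of_nonneg_right hc (abs_nonneg _)

theorem at_der_mono (h : PairDer Φ x y τ κ c r) (hc : c ≤ c') (hr : r' ≤ r) :
    PairDer Φ x y τ κ c' r' := by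
  have hd := at_dd_nonneg
  have h2 : ∀ v w, c * dd v w ^ 2 ≤ c' * dd v w ^ 2 := fun v w =>
    mul_le_mul_of_nonneg_right hc (by positivity)
  have h1 : ∀ v w, c * dd v w ≤ c' * dd v w := fun v w =>
    mul_le_mul_of_nonneg_right hc (hd _ _)
  refine ⟨?_, ?_, ?_, ?_, ?_, ?_⟩
  · intro v w hw
    obtain ⟨a, ha, hb⟩ := h.xd v w (hw.trans hr)
    exact ⟨a, ha, hb.trans (h2 _ _)⟩
  · intro v w hw
    obtain ⟨a, ha, hb⟩ := h.yd v w (hw.trans hr)
    exact ⟨a, ha, hb.trans (h2 _ _)⟩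
  · intro v w hw
    obtain ⟨a, ha, hb⟩ := h.td v w (hw.trans hr)
    exact ⟨a, ha, hb.trans (h2 _ _)⟩
  · intro v w hw
    obtain ⟨a, ha, hb⟩ := h.xm v w (hw.trans hr)
    exact ⟨a, ha, hb.trans (h1 _ _)⟩
  · intro v w hw
    obtain ⟨a, ha, hb⟩ := h.ym v w (hw.trans hr)
    exact ⟨a, ha, hb.trans (h1 _ _)⟩
  · intro v w hw
    obtain ⟨a, ha, hb⟩ := h.tm v w (hw.trans hr)
    exact ⟨a, ha, hb.trans (h1 _ _)⟩

end mono

/-! ### the boxes -/

section box

theorem at_kset_neg {g : SL(2, ℝ)} {d ε : ℝ} (h : g ∈ Kset d ε) : -g ∈ Kset d ε := by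
  obtain ⟨h1, h2⟩ := h
  refine ⟨?_, ?_⟩
  · have e : ∀ i j, (-g) i j = -(g i j) := fun i j => rfl
    rw [e, e, e, e]
    calc _ = (g 0 0 - g 1 1) ^ 2 + (g 0 1 + g 1 0) ^ 2 := by ring
      _ < _ := h1
  · have e : ∀ i j, (-g) i j = -(g i j) := fun i j => rfl
    rw [e, e, abs_sub_comm]
    calc _ = |g 0 1 - g 1 0| := by congr 1; ring
      _ < _ := h2

theorem at_real {a b c e d ε : ℝ} (hdet : a * e - b * c = 1)
    (h1 : (a - e) ^ 2 + (b + c) ^ 2 < d ^ 2) (h2 : |b - c| < ε) (hs : 0 ≤ a + e) (hd : 0 < d)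
    (hd1 : d ≤ 1) (hε1 : ε ≤ 1) :
    |a - 1| + |b| + |c| + |e - 1| ≤ 3 * (d + ε) ∧ |b + c| ≤ d ∧ |a - e| ≤ d := by
  have hε : 0 ≤ ε := (abs_nonneg _).trans h2.le
  have h3 : |a - e| ≤ d := abs_le_of_sq_le_sq (by linarith only [h1, sq_nonneg (b + c)]) hd.le
  have h4 : |b + c| ≤ d := abs_le_of_sq_le_sq (by linarith only [h1, sq_nonneg (a - e)]) hd.le
  refine ⟨?_, h4, h3⟩
  have h5 : (b - c) ^ 2 ≤ ε ^ 2 := by
    rw [← sq_abs (b - c)]
    exact pow_le_pow_left₀ (abs_nonneg _) h2.le 2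
  have h6 : |a + e - 2| * (a + e + 2) ≤ d ^ 2 + ε ^ 2 := by
    have e1 : |a + e - 2| * (a + e + 2) = |(a - e) ^ 2 + (b + c) ^ 2 - (b - c) ^ 2| := by
      have e2 : |a + e + 2| = a + e + 2 := abs_of_nonneg (by linarith)
      calc |a + e - 2| * (a + e + 2) = |a + e - 2| * |a + e + 2| := by rw [e2]
        _ = |(a + e - 2) * (a + e + 2)| := (abs_mul _ _).symm
        _ = _ := ?_
      congr 1
      linear_combination 4 * hdet
    rw [e1, abs_le]
    constructor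
    · linarith only [h1, h5, sq_nonneg (a - e), sq_nonneg (b + c)]
    · linarith only [h1, sq_nonneg (b - c), sq_nonneg ε]
  have h7 : |a + e - 2| * 2 ≤ d + ε := by
    have h8 : |a + e - 2| * 2 ≤ |a + e - 2| * (a + e + 2) :=
      mul_le_mul_of_nonneg_left (by linarith) (abs_nonneg _)
    nlinarith only [h6, h8, hd, hd1, hε1, hε]
  have k1 := abs_le.1 h3
  have k2 := abs_le.1 h4
  have k3 := abs_le.1 h2.le
  have k4 : |a + e - 2| ≤ (d + ε) / 2 := by linarith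
  have k5 := abs_le.1 k4
  have m1 : |a - 1| + |e - 1| ≤ (d + ε) / 2 + d := by
    rcases abs_cases (a - 1) with ⟨q1, -⟩ | ⟨q1, -⟩ <;> rcases abs_cases (e - 1) with ⟨q2, -⟩ | ⟨q2, -⟩
      <;> rw [q1, q2] <;> linarith
  have m2 : |b| + |c| ≤ d + ε := by
    rcases abs_cases b with ⟨q1, -⟩ | ⟨q1, -⟩ <;> rcases abs_cases c with ⟨q2, -⟩ | ⟨q2, -⟩
      <;> rw [q1, q2] <;> linarith
  linarith

theorem at_kset_nn {g : SL(2, ℝ)} {d ε : ℝ} (hd : 0 < d) (hd1 : d ≤ 1) (hε1 : ε ≤ 1)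
    (h : g ∈ Kset d ε) (hs : 0 ≤ g 0 0 + g 1 1) :
    nn g ≤ 3 * (d + ε) ∧ |g 0 1 + g 1 0| ≤ d ∧ |g 0 0 - g 1 1| ≤ d := by
  obtain ⟨h1, h2⟩ := h
  have hdet : g 0 0 * g 1 1 - g 0 1 * g 1 0 = 1 := by
    have := g.det_coe
    rw [Matrix.det_fin_two] at this
    exact this
  exact at_real hdet h1 h2 hs hd hd1 hε1

/-- the set in Theorem N -/
def at_set (ρ : ℍ → ℝ) (r δ ε : ℝ) (v : SL(2, ℝ)) : Set SL(2, ℝ) :=
  {w | dd v w ≤ r ∧ |xx ρ v w| ≤ δ ∧ |tt ρ v w| ≤ δ ∧ |yy ρ v w| ≤ ε}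

theorem at_mem {ρ : ℍ → ℝ} {B r d ε ε' : ℝ} (hBρ : ∀ z, |ρ z| ≤ B)
    (hBP : ∀ g, |Pr ρ g| ≤ B) (hBH : ∀ g, |Hr ρ g| ≤ B) (hd : 0 < d) (hd1 : d ≤ 1)
    (hε1 : ε ≤ 1) (hr : 3 * (d + ε) ≤ r) (hε' : ε + 2 * B * d ≤ ε') {v w : SL(2, ℝ)}
    (h : v⁻¹ * w ∈ Kset d ε) (hs : 0 ≤ (v⁻¹ * w) 0 0 + (v⁻¹ * w) 1 1) :
    w ∈ at_set ρ r (Real.exp B * d) ε' v := by
  obtain ⟨h1, h2, h3⟩ := at_kset_nn hd hd1 hε1 h hs
  have h4 : |(v⁻¹ * w) 0 1 - (v⁻¹ * w) 1 0| < ε := h.2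
  have hexp : Real.exp (ρ (v • UpperHalfPlane.I)) ≤ Real.exp B :=
    Real.exp_le_exp.2 ((le_abs_self _).trans (hBρ _))
  refine ⟨h1.trans hr, ?_, ?_, ?_⟩
  · unfold xx
    rw [abs_mul, abs_of_pos (Real.exp_pos _)]
    exact mul_le_mul hexp h2 (abs_nonneg _) (Real.exp_pos _).le
  · unfold tt
    rw [abs_mul, abs_of_pos (Real.exp_pos _)]
    exact mul_le_mul hexp h3 (abs_nonneg _) (Real.exp_pos _).le
  · unfold yy
    have h5 : |((v⁻¹ * w) 0 0 - (v⁻¹ * w) 1 1) * Pr ρ v| ≤ d * B := by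
      rw [abs_mul]
      exact mul_le_mul h3 (hBP v) (abs_nonneg _) hd.le
    have h6 : |((v⁻¹ * w) 0 1 + (v⁻¹ * w) 1 0) * Hr ρ v| ≤ d * B := by
      rw [abs_mul]
      exact mul_le_mul h2 (hBH v) (abs_nonneg _) hd.le
    have h7 : |(v⁻¹ * w) 1 0 - (v⁻¹ * w) 0 1| ≤ ε := by rw [abs_sub_comm]; exact h4.le
    calc _ ≤ |(v⁻¹ * w) 1 0 - (v⁻¹ * w) 0 1 - ((v⁻¹ * w) 0 0 - (v⁻¹ * w) 1 1) * Pr ρ v|
          + |((v⁻¹ * w) 0 1 + (v⁻¹ * w) 1 0) * Hr ρ v| := abs_add_le _ _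
      _ ≤ |(v⁻¹ * w) 1 0 - (v⁻¹ * w) 0 1| + |((v⁻¹ * w) 0 0 - (v⁻¹ * w) 1 1) * Pr ρ v|
          + |((v⁻¹ * w) 0 1 + (v⁻¹ * w) 1 0) * Hr ρ v| := by gcongr; exact abs_sub _ _
      _ ≤ ε + d * B + d * B := by gcongr
      _ ≤ ε' := by linarith

theorem at_subset {ρ : ℍ → ℝ} {B r d ε ε' : ℝ} (hBρ : ∀ z, |ρ z| ≤ B)
    (hBP : ∀ g, |Pr ρ g| ≤ B) (hBH : ∀ g, |Hr ρ g| ≤ B) (hd : 0 < d) (hd1 : d ≤ 1)
    (hε1 : ε ≤ 1) (hr : 3 * (d + ε) ≤ r) (hε' : ε + 2 * B * d ≤ ε') (v : SL(2, ℝ)) :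
    (fun w => v⁻¹ * w) ⁻¹' (Kset d ε) ⊆
      at_set ρ r (Real.exp B * d) ε' v ∪ (fun g => -g) ⁻¹' (at_set ρ r (Real.exp B * d) ε' v) := by
  intro w hw
  rw [mem_preimage] at hw
  by_cases hs : 0 ≤ (v⁻¹ * w) 0 0 + (v⁻¹ * w) 1 1
  · exact Or.inl (at_mem hBρ hBP hBH hd hd1 hε1 hr hε' hw hs)
  · right
    rw [mem_preimage]
    have e : v⁻¹ * -w = -(v⁻¹ * w) := mul_neg _ _
    refine at_mem hBρ hBP hBH hd hd1 hε1 hr hε' ?_ ?_
    · rw [e]
      exact at_kset_neg hw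
    · rw [e]
      have e2 : ∀ i j, (-(v⁻¹ * w)) i j = -((v⁻¹ * w) i j) := fun i j => rfl
      rw [e2, e2]
      linarith [not_le.1 hs]

end box

/-! ### the measures -/

section meas

variable [MeasurableSpace SL(2, ℝ)] [BorelSpace SL(2, ℝ)]

theorem at_nu_fin {ρ : ℍ → ℝ} {B : ℝ} (hBρ : ∀ z, |ρ z| ≤ B) (μ : Measure SL(2, ℝ))
    [IsFiniteMeasureOnCompacts μ] : IsFiniteMeasureOnCompacts (nuR ρ μ) := by
  refine ⟨fun K hK => ?_⟩
  unfold nuR
  rw [withDensity_apply _ hK.measurableSet]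
  have h1 : ∫⁻ g in K, ENNReal.ofReal (Real.exp (2 * ρ (g • UpperHalfPlane.I))) ∂μ
      ≤ ∫⁻ _ in K, ENNReal.ofReal (Real.exp (2 * B)) ∂μ := by
    refine lintegral_mono fun g => ENNReal.ofReal_le_ofReal (Real.exp_le_exp.2 ?_)
    linarith [(le_abs_self _).trans (hBρ (g • UpperHalfPlane.I))]
  refine h1.trans_lt ?_
  rw [setLIntegral_const]
  exact ENNReal.mul_lt_top ENNReal.ofReal_lt_top hK.measure_lt_top

omit [BorelSpace SL(2, ℝ)] in
theorem at_mu_le {ρ : ℍ → ℝ} {B : ℝ} (hBρ : ∀ z, |ρ z| ≤ B) (μ : Measure SL(2, ℝ)) :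
    μ ≤ ENNReal.ofReal (Real.exp (2 * B)) • nuR ρ μ := by
  refine Measure.le_iff.2 fun s hs => ?_
  rw [Measure.smul_apply, smul_eq_mul]
  unfold nuR
  rw [withDensity_apply _ hs, ← lintegral_const_mul' _ _ ENNReal.ofReal_ne_top]
  calc μ s = ∫⁻ _ in s, 1 ∂μ := by rw [setLIntegral_one]
    _ ≤ _ := by
      refine lintegral_mono fun g => ?_
      rw [← ENNReal.ofReal_mul (Real.exp_pos _).le, ← Real.exp_add, ← ENNReal.ofReal_one]
      refine ENNReal.ofReal_le_ofReal ?_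
      rw [← Real.exp_zero]
      refine Real.exp_le_exp.2 ?_
      linarith only [(neg_le_of_abs_le (hBρ (g • UpperHalfPlane.I)))]

theorem at_pair_le {ρ : ℍ → ℝ} {B r d ε ε' : ℝ} (hBρ : ∀ z, |ρ z| ≤ B)
    (hBP : ∀ g, |Pr ρ g| ≤ B) (hBH : ∀ g, |Hr ρ g| ≤ B) (hd : 0 < d) (hd1 : d ≤ 1)
    (hε1 : ε ≤ 1) (hr : 3 * (d + ε) ≤ r) (hε' : ε + 2 * B * d ≤ ε') {μ : Measure SL(2, ℝ)}
    (hneg : Measure.map (fun g => -g) μ = μ) (D : Set ℍ) {η : ℝ}
    (h : PM D (nuR ρ μ) (fun v w => dd v w ≤ r ∧ |xx ρ v w| ≤ Real.exp B * d ∧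
      |tt ρ v w| ≤ Real.exp B * d ∧ |yy ρ v w| ≤ ε') ≤ ENNReal.ofReal (η * (Real.exp B * d) ^ 2)) :
    pairMass D μ (Kset d ε) ≤
      ENNReal.ofReal (2 * Real.exp (2 * B) * Real.exp (2 * B) * (η * (Real.exp B * d) ^ 2)) := by
  set A : SL(2, ℝ) → Set SL(2, ℝ) := at_set ρ r (Real.exp B * d) ε' with hA
  set E : ℝ≥0∞ := ENNReal.ofReal (Real.exp (2 * B)) with hE
  have hle := at_mu_le hBρ μ
  have hn : Measurable fun g : SL(2, ℝ) => -g := neg_cont.measurable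
  have h1 : ∀ v, μ ((fun w => v⁻¹ * w) ⁻¹' (Kset d ε)) ≤ 2 * E * nuR ρ μ (A v) := by
    intro v
    calc μ ((fun w => v⁻¹ * w) ⁻¹' (Kset d ε))
        ≤ μ (A v ∪ (fun g => -g) ⁻¹' (A v)) :=
          measure_mono (at_subset hBρ hBP hBH hd hd1 hε1 hr hε' v)
      _ ≤ μ (A v) + μ ((fun g => -g) ⁻¹' (A v)) := measure_union_le _ _
      _ ≤ μ (A v) + μ (A v) := by
          refine add_le_add le_rfl ?_
          refine (Measure.le_map_apply hn.aemeasurable _).trans (le_of_eq ?_)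
          rw [hneg]
      _ = 2 * μ (A v) := (two_mul _).symm
      _ ≤ 2 * (E * nuR ρ μ (A v)) := by
          gcongr
          exact hle _
      _ = _ := by rw [mul_assoc]
  calc pairMass D μ (Kset d ε)
      = ∫⁻ v in Berry.Fd D, μ ((fun w => v⁻¹ * w) ⁻¹' (Kset d ε)) ∂μ := rfl
    _ ≤ ∫⁻ v in Berry.Fd D, 2 * E * nuR ρ μ (A v) ∂μ := lintegral_mono h1
    _ ≤ ∫⁻ v in Berry.Fd D, 2 * E * nuR ρ μ (A v) ∂(E • nuR ρ μ) :=
        lintegral_mono' (Measure.restrict_mono le_rfl hle) le_rfl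
    _ = E * (2 * E * PM D (nuR ρ μ) (fun v w => dd v w ≤ r ∧ |xx ρ v w| ≤ Real.exp B * d ∧
      |tt ρ v w| ≤ Real.exp B * d ∧ |yy ρ v w| ≤ ε')) := by
        rw [Measure.restrict_smul, lintegral_smul_measure, lintegral_const_mul' _ _
          (ENNReal.mul_ne_top (by simp) ENNReal.ofReal_ne_top), smul_eq_mul]
        rfl
    _ ≤ E * (2 * E * ENNReal.ofReal (η * (Real.exp B * d) ^ 2)) := by gcongr
    _ = _ := by
        rw [hE, show (2 : ℝ≥0∞) = ENNReal.ofReal 2 by simp, ← ENNReal.ofReal_mul (by norm_num),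
          ← ENNReal.ofReal_mul (by positivity), ← ENNReal.ofReal_mul (Real.exp_pos _).le]
        congr 1
        ring

end meas

/-- **no directional atoms** -/
theorem stmtAtoms (hLip : StmtLip) (hInf : StmtInf) (hFlow : StmtFlow) (hFl : StmtFl)
    (hInv : StmtInv) (hAlg : StmtAlg) (hDer : StmtDer) (hMass : StmtMass) (hN : StmtN) :
    StmtAtoms := by
  intro Γ _ D ρ u hDm hD hF hlap hu
  let _ : MeasurableSpace SL(2, ℝ) := borel _
  have : BorelSpace SL(2, ℝ) := ⟨rfl⟩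
  obtain ⟨μ, p, -, hfc, hleft, hneg, hpm, hp0, hpi, hpae, hpsq, hproj, hcoef⟩ :=
    exists_measure hDm hD hF.cpt hu.toLimFam0
  have := hfc
  have hμ : FlowMeas0 Γ D μ p := ⟨hleft, hneg, hpm, hp0, hpi, hpsq, hproj⟩
  obtain ⟨Φ, hΦ⟩ := hFlow Γ ρ hF
  obtain ⟨-, -, hρc, -, -, B, -, hB0, -, hBρ, hBP, hBH, -⟩ := hLip Γ ρ hF
  have := at_nu_fin hBρ μ
  have hinf := hInf Γ ρ u μ hF hu hneg hcoef
  have hinv := hInv Γ ρ Φ (nuR ρ μ) hF hΦ hinf
  obtain ⟨c₁, r₁, hA⟩ := hAlg Γ ρ hF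
  obtain ⟨c₂, L, hc₂, hL, hFL⟩ := hFl Γ ρ Φ hF hΦ
  obtain ⟨c₃, r₃, hc₃, hr₃, hDD⟩ := hDer Γ ρ Φ hF hΦ
  obtain ⟨k₀, k₁, hk₀, hklo, hkhi⟩ := at_kap_bd hF hρc hlap
  set c : ℝ := max c₁ (max c₂ c₃) with hc
  set r : ℝ := min r₁ r₃ with hr
  have hr0 : 0 < r := lt_min hA.rpos hr₃
  have hr1 : r ≤ 1 := (min_le_left _ _).trans hA.rle
  have hsys : PairSys Γ Φ (xx ρ) (yy ρ) (tt ρ) (kap ρ) c r L k₀ k₁ :=
    ⟨at_alg_mono hA (le_max_left _ _) hr0 (min_le_left _ _),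
      at_fl_mono hFL ((le_max_left _ _).trans (le_max_right _ _)),
      at_der_mono hDD ((le_max_right _ _).trans (le_max_right _ _)) (min_le_right _ _),
      hL, hk₀, hΦ.zero, hΦ.add, hΦ.cont, fun γ hγ => hΦ.left γ (hF.inv γ hγ), hklo, hkhi⟩
  have hms := hMass Γ D ρ Φ μ p hDm hD hF hμ hinv r hr0 hr1
  have hth := hN Γ D Φ (xx ρ) (yy ρ) (tt ρ) (kap ρ) c r L k₀ k₁ (nuR ρ μ) hsys hms
  obtain ⟨C, -, hC⟩ := hμ.pair_bound hD hDm
  refine ⟨p, hpm, hp0, hpi, hpae, hpsq, fun ζ hζ hζc hζU hζ0 => ?_⟩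
  refine FejerN.fejer_tendsto hDm hD hμ hu.toLimFam0 hcoef
    ⟨C, fun d hd hd1 => hC d hd (by linarith)⟩ ?_ hζ hζc hζU hζ0
  intro η hη
  have hE : 0 < 2 * Real.exp (2 * B) * Real.exp (2 * B) * Real.exp B ^ 2 := by positivity
  obtain ⟨ε', hε', δ₀, hδ₀, h⟩ :=
    hth (η / (2 * Real.exp (2 * B) * Real.exp (2 * B) * Real.exp B ^ 2)) (by positivity)
  refine ⟨min (ε' / 2) (min 1 (r / 6)), by positivity,
    min (δ₀ / Real.exp B) (min (ε' / (4 * (B + 1))) (min 1 (r / 6))), by (clear * - hδ₀ hε' hB0 hr0; positivity),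
    fun d hd hdd => ?_⟩
  have h1 : d < δ₀ / Real.exp B := hdd.trans_le (min_le_left _ _)
  have h2 : d < ε' / (4 * (B + 1)) :=
    hdd.trans_le ((min_le_right _ _).trans (min_le_left _ _))
  have h3 : d < 1 := hdd.trans_le ((min_le_right _ _).trans ((min_le_right _ _).trans
    (min_le_left _ _)))
  have h4 : d < r / 6 := hdd.trans_le ((min_le_right _ _).trans ((min_le_right _ _).trans
    (min_le_right _ _)))
  have h5 : min (ε' / 2) (min 1 (r / 6)) ≤ ε' / 2 := min_le_left _ _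
  have h6 : min (ε' / 2) (min 1 (r / 6)) ≤ 1 := (min_le_right _ _).trans (min_le_left _ _)
  have h7 : min (ε' / 2) (min 1 (r / 6)) ≤ r / 6 := (min_le_right _ _).trans (min_le_right _ _)
  have h8 : Real.exp B * d < δ₀ := by
    rw [lt_div_iff₀ (Real.exp_pos _)] at h1
    linarith
  have h9 : 2 * B * d ≤ ε' / 2 := by
    rw [lt_div_iff₀ (by positivity)] at h2
    linarith only [hd, h2]
  have h10 := at_pair_le (D := D) hBρ hBP hBH hd h3.le h6 (by linarith) (by linarith) hneg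
    (h (Real.exp B * d) (by positivity) h8)
  refine h10.trans (ENNReal.ofReal_le_ofReal (le_of_eq ?_))
  field_simp

end

end NC

end QE


end

section

/-!
# Closed surfaces of negative curvature: the coordinates of pairs, algebraic part   (helper7)
-/

open MeasureTheory Filter Topology Set
open UpperHalfPlane hiding I
open scoped ContDiff MatrixGroups ENNReal

namespace QE

namespace NC

noncomputable section

namespace ALGm

theorem m00 (g h : SL(2, ℝ)) : (g * h) 0 0 = g 0 0 * h 0 0 + g 0 1 * h 1 0 := by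
  show (g.1 * h.1) 0 0 = _
  rw [Matrix.mul_apply, Fin.sum_univ_two]

theorem m01 (g h : SL(2, ℝ)) : (g * h) 0 1 = g 0 0 * h 0 1 + g 0 1 * h 1 1 := by
  show (g.1 * h.1) 0 1 = _
  rw [Matrix.mul_apply, Fin.sum_univ_two]

theorem m10 (g h : SL(2, ℝ)) : (g * h) 1 0 = g 1 0 * h 0 0 + g 1 1 * h 1 0 := by
  show (g.1 * h.1) 1 0 = _
  rw [Matrix.mul_apply, Fin.sum_univ_two]

theorem m11 (g h : SL(2, ℝ)) : (g * h) 1 1 = g 1 0 * h 0 1 + g 1 1 * h 1 1 := by
  show (g.1 * h.1) 1 1 = _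
  rw [Matrix.mul_apply, Fin.sum_univ_two]

theorem i00 (g : SL(2, ℝ)) : g⁻¹ 0 0 = g 1 1 := by
  rw [Matrix.SpecialLinearGroup.SL2_inv_expl]; rfl

theorem i01 (g : SL(2, ℝ)) : g⁻¹ 0 1 = -g 0 1 := by
  rw [Matrix.SpecialLinearGroup.SL2_inv_expl]; rfl

theorem i10 (g : SL(2, ℝ)) : g⁻¹ 1 0 = -g 1 0 := by
  rw [Matrix.SpecialLinearGroup.SL2_inv_expl]; rfl

theorem i11 (g : SL(2, ℝ)) : g⁻¹ 1 1 = g 0 0 := by
  rw [Matrix.SpecialLinearGroup.SL2_inv_expl]; rfl

theorem dt (g : SL(2, ℝ)) : g 0 0 * g 1 1 - g 0 1 * g 1 0 = 1 := by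
  have h := g.2
  rw [Matrix.det_fin_two] at h
  exact h

theorem ec (i j : Fin 2) : Continuous fun g : SL(2, ℝ) => g i j :=
  (continuous_apply j).comp ((continuous_apply i).comp continuous_subtype_val)

theorem nn_nonneg (g : SL(2, ℝ)) : 0 ≤ nn g := by unfold nn; positivity

theorem nn_inv (g : SL(2, ℝ)) : nn g⁻¹ = nn g := by
  unfold nn
  rw [i00, i01, i10, i11, abs_neg, abs_neg]
  ring

theorem dd_symm (v w : SL(2, ℝ)) : dd w v = dd v w := by
  unfold dd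
  rw [← nn_inv (v⁻¹ * w), mul_inv_rev, inv_inv]

/-- entries of a product, minus the linear part -/
theorem prod_err (g h : SL(2, ℝ)) :
    |(g * h) 0 0 - 1 - (g 0 0 - 1) - (h 0 0 - 1)| + |(g * h) 0 1 - g 0 1 - h 0 1| +
      |(g * h) 1 0 - g 1 0 - h 1 0| + |(g * h) 1 1 - 1 - (g 1 1 - 1) - (h 1 1 - 1)|
        ≤ nn g * nn h := by
  rw [m00, m01, m10, m11]
  set a := g 0 0 - 1 with ha
  set b := g 0 1 with hb
  set c := g 1 0 with hc
  set d := g 1 1 - 1 with hd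
  set a' := h 0 0 - 1 with ha'
  set b' := h 0 1 with hb'
  set c' := h 1 0 with hc'
  set d' := h 1 1 - 1 with hd'
  have e1 : g 0 0 * h 0 0 + b * c' - 1 - a - a' = a * a' + b * c' := by
    rw [ha, ha']; ring
  have e2 : g 0 0 * b' + b * h 1 1 - b - b' = a * b' + b * d' := by
    rw [ha, hd']; ring
  have e3 : c * h 0 0 + g 1 1 * c' - c - c' = c * a' + d * c' := by
    rw [ha', hd]; ring
  have e4 : c * b' + g 1 1 * h 1 1 - 1 - d - d' = c * b' + d * d' := by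
    rw [hd, hd']; ring
  rw [e1, e2, e3, e4]
  have hn : nn g = |a| + |b| + |c| + |d| := rfl
  have hn' : nn h = |a'| + |b'| + |c'| + |d'| := rfl
  rw [hn, hn']
  have f : ∀ p q r s : ℝ, |p * q + r * s| ≤ |p| * |q| + |r| * |s| := by
    intro p q r s
    calc |p * q + r * s| ≤ |p * q| + |r * s| := abs_add_le _ _
      _ = _ := by rw [abs_mul, abs_mul]
  have h1 := f a a' b c'
  have h2 := f a b' b d'
  have h3 := f c a' d c'
  have h4 := f c b' d d'
  have A := abs_nonneg a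
  have B := abs_nonneg b
  have C := abs_nonneg c
  have D := abs_nonneg d
  have A' := abs_nonneg a'
  have B' := abs_nonneg b'
  have C' := abs_nonneg c'
  have D' := abs_nonneg d'
  have k1 := mul_nonneg A C'
  have k2 := mul_nonneg A D'
  have k3 := mul_nonneg B A'
  have k4 := mul_nonneg B B'
  have k5 := mul_nonneg C C'
  have k6 := mul_nonneg C D'
  have k7 := mul_nonneg D A'
  have k8 := mul_nonneg D B'
  linarith only [h1, h2, h3, h4, k1, k2, k3, k4, k5, k6, k7, k8]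

theorem nn_mul (g h : SL(2, ℝ)) : nn (g * h) ≤ nn g + nn h + nn g * nn h := by
  have h1 := prod_err g h
  have t : ∀ p q r : ℝ, |p| ≤ |p - q - r| + |q| + |r| := by
    intro p q r
    calc |p| = |(p - q - r) + q + r| := by congr 1; ring
      _ ≤ |(p - q - r) + q| + |r| := abs_add_le _ _
      _ ≤ _ := by gcongr; exact abs_add_le _ _
  have t1 := t ((g * h) 0 0 - 1) (g 0 0 - 1) (h 0 0 - 1)
  have t2 := t ((g * h) 0 1) (g 0 1) (h 0 1)
  have t3 := t ((g * h) 1 0) (g 1 0) (h 1 0)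
  have t4 := t ((g * h) 1 1 - 1) (g 1 1 - 1) (h 1 1 - 1)
  have e1 : nn (g * h) = |(g * h) 0 0 - 1| + |(g * h) 0 1| + |(g * h) 1 0| + |(g * h) 1 1 - 1| := rfl
  have e2 : nn g = |g 0 0 - 1| + |g 0 1| + |g 1 0| + |g 1 1 - 1| := rfl
  have e3 : nn h = |h 0 0 - 1| + |h 0 1| + |h 1 0| + |h 1 1 - 1| := rfl
  linarith

theorem dd_tri (v w u : SL(2, ℝ)) (h1 : dd v w ≤ 1) : dd v u ≤ 2 * (dd v w + dd w u) := by
  have e : v⁻¹ * u = (v⁻¹ * w) * (w⁻¹ * u) := by group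
  have h2 := nn_mul (v⁻¹ * w) (w⁻¹ * u)
  have h3 : 0 ≤ nn (w⁻¹ * u) := nn_nonneg _
  have h0 : 0 ≤ nn (v⁻¹ * w) := nn_nonneg _
  unfold dd at *
  rw [e]
  linarith only [h2, h0, mul_le_mul_of_nonneg_right h1 h3]

/-- the three linear functionals -/
def sf (g : SL(2, ℝ)) : ℝ := g 0 1 + g 1 0
def tf (g : SL(2, ℝ)) : ℝ := g 0 0 - g 1 1
def qf (g : SL(2, ℝ)) : ℝ := g 1 0 - g 0 1

theorem sf_le (g : SL(2, ℝ)) : |sf g| ≤ nn g := by
  have h := abs_add_le (g 0 1) (g 1 0)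
  have h1 := abs_nonneg (g 0 0 - 1)
  have h2 := abs_nonneg (g 1 1 - 1)
  unfold sf nn
  linarith

theorem qf_le (g : SL(2, ℝ)) : |qf g| ≤ nn g := by
  have h := abs_sub (g 1 0) (g 0 1)
  have h1 := abs_nonneg (g 0 0 - 1)
  have h2 := abs_nonneg (g 1 1 - 1)
  unfold qf nn
  linarith

theorem tf_le (g : SL(2, ℝ)) : |tf g| ≤ nn g := by
  have h := abs_sub (g 0 0 - 1) (g 1 1 - 1)
  have h1 := abs_nonneg (g 0 1)
  have h2 := abs_nonneg (g 1 0)
  have e : g 0 0 - g 1 1 = (g 0 0 - 1) - (g 1 1 - 1) := by ring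
  unfold tf nn
  rw [e]
  linarith

theorem sf_mul (g h : SL(2, ℝ)) : |sf (g * h) - sf g - sf h| ≤ nn g * nn h := by
  have h1 := prod_err g h
  have e : sf (g * h) - sf g - sf h = ((g * h) 0 1 - g 0 1 - h 0 1) +
      ((g * h) 1 0 - g 1 0 - h 1 0) := by unfold sf; ring
  rw [e]
  refine (abs_add_le _ _).trans (le_trans ?_ h1)
  have h2 := abs_nonneg ((g * h) 0 0 - 1 - (g 0 0 - 1) - (h 0 0 - 1))
  have h3 := abs_nonneg ((g * h) 1 1 - 1 - (g 1 1 - 1) - (h 1 1 - 1))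
  linarith

theorem qf_mul (g h : SL(2, ℝ)) : |qf (g * h) - qf g - qf h| ≤ nn g * nn h := by
  have h1 := prod_err g h
  have e : qf (g * h) - qf g - qf h = ((g * h) 1 0 - g 1 0 - h 1 0) -
      ((g * h) 0 1 - g 0 1 - h 0 1) := by unfold qf; ring
  rw [e]
  refine (abs_sub _ _).trans (le_trans ?_ h1)
  have h2 := abs_nonneg ((g * h) 0 0 - 1 - (g 0 0 - 1) - (h 0 0 - 1))
  have h3 := abs_nonneg ((g * h) 1 1 - 1 - (g 1 1 - 1) - (h 1 1 - 1))
  linarith

theorem tf_mul (g h : SL(2, ℝ)) : |tf (g * h) - tf g - tf h| ≤ nn g * nn h := by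
  have h1 := prod_err g h
  have e : tf (g * h) - tf g - tf h = ((g * h) 0 0 - 1 - (g 0 0 - 1) - (h 0 0 - 1)) -
      ((g * h) 1 1 - 1 - (g 1 1 - 1) - (h 1 1 - 1)) := by unfold tf; ring
  rw [e]
  refine (abs_sub _ _).trans (le_trans ?_ h1)
  have h2 := abs_nonneg ((g * h) 0 1 - g 0 1 - h 0 1)
  have h3 := abs_nonneg ((g * h) 1 0 - g 1 0 - h 1 0)
  linarith

/-- close to `1` the three functionals control the distance -/
theorem nn_le (g : SL(2, ℝ)) (hg : nn g ≤ 1) : nn g ≤ 2 * (|sf g| + |qf g| + |tf g|) := by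
  have hs := sf_le g
  have hq := qf_le g
  have ht := tf_le g
  have hdet := dt g
  have eb : g 0 1 = (sf g - qf g) / 2 := by unfold sf qf; ring
  have ec : g 1 0 = (sf g + qf g) / 2 := by unfold sf qf; ring
  have hb : |g 0 1| ≤ (|sf g| + |qf g|) / 2 := by
    rw [eb, abs_div, abs_of_pos (by norm_num : (0 : ℝ) < 2)]
    have := abs_sub (sf g) (qf g)
    linarith
  have hc : |g 1 0| ≤ (|sf g| + |qf g|) / 2 := by
    rw [ec, abs_div, abs_of_pos (by norm_num : (0 : ℝ) < 2)]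
    have := abs_add_le (sf g) (qf g)
    linarith
  have h1 := abs_nonneg (g 0 1)
  have h2 := abs_nonneg (g 1 0)
  have h0 := abs_nonneg (g 0 0 - 1)
  have h3 := abs_nonneg (g 1 1 - 1)
  have hn : nn g = |g 0 0 - 1| + |g 0 1| + |g 1 0| + |g 1 1 - 1| := rfl
  -- the trace
  set tr : ℝ := g 0 0 + g 1 1 - 2 with htr
  have etr : tr * (tr + 4) = tf g ^ 2 + sf g ^ 2 - qf g ^ 2 := by
    have : (g 0 0 + g 1 1) ^ 2 - 4 = tf g ^ 2 + sf g ^ 2 - qf g ^ 2 := by
      unfold tf sf qf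
      linear_combination (4 : ℝ) * hdet
    rw [← this, htr]; ring
  have htr1 : -1 ≤ tr := by
    have a1 := neg_abs_le (g 0 0 - 1)
    have a2 := neg_abs_le (g 1 1 - 1)
    rw [htr]
    linarith only [hg, h1, h2, hn, a1, a2]
  have habs : |tr| * 3 ≤ |sf g| + |qf g| + |tf g| := by
    have k1 : |tr| * (tr + 4) = |tf g ^ 2 + sf g ^ 2 - qf g ^ 2| := by
      rw [← etr, abs_mul, abs_of_pos (by linarith only [htr1] : (0 : ℝ) < tr + 4)]
    have k2 : |tr| * 3 ≤ |tr| * (tr + 4) :=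
      mul_le_mul_of_nonneg_left (by linarith only [htr1]) (abs_nonneg _)
    have k3 : |tf g ^ 2 + sf g ^ 2 - qf g ^ 2| ≤ |tf g| ^ 2 + |sf g| ^ 2 + |qf g| ^ 2 := by
      rw [abs_le]
      have s1 := sq_abs (tf g)
      have s2 := sq_abs (sf g)
      have s3 := sq_abs (qf g)
      constructor <;> linarith only [s1, s2, s3, sq_nonneg (tf g), sq_nonneg (sf g), sq_nonneg (qf g)]
    have k4 : |tf g| ^ 2 ≤ |tf g| := by
      have := abs_nonneg (tf g)
      nlinarith only [hg, this, ht]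
    have k5 : |sf g| ^ 2 ≤ |sf g| := by
      have := abs_nonneg (sf g)
      nlinarith only [hg, this, hs]
    have k6 : |qf g| ^ 2 ≤ |qf g| := by
      have := abs_nonneg (qf g)
      nlinarith only [hg, this, hq]
    linarith
  have ea : |g 0 0 - 1| ≤ (|tr| + |tf g|) / 2 := by
    have e : g 0 0 - 1 = (tr + tf g) / 2 := by rw [htr]; unfold tf; ring
    rw [e, abs_div, abs_of_pos (by norm_num : (0 : ℝ) < 2)]
    have := abs_add_le tr (tf g)
    linarith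
  have ed : |g 1 1 - 1| ≤ (|tr| + |tf g|) / 2 := by
    have e : g 1 1 - 1 = (tr - tf g) / 2 := by rw [htr]; unfold tf; ring
    rw [e, abs_div, abs_of_pos (by norm_num : (0 : ℝ) < 2)]
    have := abs_sub tr (tf g)
    linarith
  have n1 := abs_nonneg (sf g)
  have n2 := abs_nonneg (qf g)
  have n3 := abs_nonneg (tf g)
  linarith

end ALGm

open _root_.QE.NC.ALGm

theorem stmtAlg (hLip : StmtLip) : StmtAlg := by
  intro Γ ρ hF
  obtain ⟨hinv, -, cρ, cP, cH, B, L, hB, hL, bρ, bP, bH, lρ, lP, lH⟩ := hLip Γ ρ hF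
  have hE : 1 ≤ Real.exp B := Real.one_le_exp hB
  have hE0 : 0 < Real.exp B := Real.exp_pos B
  have eB : ∀ z, Real.exp (ρ z) ≤ Real.exp B := fun z => Real.exp_le_exp.2 ((abs_le.1 (bρ z)).2)
  have eBn : ∀ z, Real.exp (-ρ z) ≤ Real.exp B := fun z =>
    Real.exp_le_exp.2 (by have := (abs_le.1 (bρ z)).1; linarith)
  -- the coordinates in terms of the functionals
  have ex : ∀ v w, xx ρ v w = Real.exp (ρ (v • UpperHalfPlane.I)) * sf (v⁻¹ * w) := fun v w => rfl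
  have et : ∀ v w, tt ρ v w = Real.exp (ρ (v • UpperHalfPlane.I)) * tf (v⁻¹ * w) := fun v w => rfl
  have ey : ∀ v w, yy ρ v w = qf (v⁻¹ * w) - tf (v⁻¹ * w) * Pr ρ v + sf (v⁻¹ * w) * Hr ρ v :=
    fun v w => rfl
  -- exponentials are Lipschitz
  have lE : ∀ v w : SL(2, ℝ), |Real.exp (ρ (v • UpperHalfPlane.I)) -
      Real.exp (ρ (w • UpperHalfPlane.I))| ≤ Real.exp B * (L * dd v w) := by
    have key : ∀ a b : ℝ, a ≤ B → b ≤ B → |Real.exp a - Real.exp b| ≤ Real.exp B * |a - b| := by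
      have one : ∀ a b : ℝ, a ≤ b → b ≤ B → Real.exp b - Real.exp a ≤ Real.exp B * (b - a) := by
        intro a b hab hb
        have h1 : Real.exp a = Real.exp b * Real.exp (a - b) := by
          rw [← Real.exp_add]; congr 1; ring
        have h2 := Real.add_one_le_exp (a - b)
        have h3 : Real.exp b - Real.exp a ≤ Real.exp b * (b - a) := by
          rw [h1]
          nlinarith only [h2, Real.exp_pos b]
        refine h3.trans (mul_le_mul_of_nonneg_right (Real.exp_le_exp.2 hb) (by linarith))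
      intro a b ha hb
      rcases le_total a b with h | h
      · rw [abs_sub_comm, abs_of_nonneg (sub_nonneg.2 (Real.exp_le_exp.2 h)), abs_sub_comm a b,
          abs_of_nonneg (sub_nonneg.2 h)]
        exact one a b h hb
      · rw [abs_of_nonneg (sub_nonneg.2 (Real.exp_le_exp.2 h)), abs_of_nonneg (sub_nonneg.2 h)]
        exact one b a h ha
    intro v w
    refine (key _ _ (abs_le.1 (bρ _)).2 (abs_le.1 (bρ _)).2).trans ?_
    refine mul_le_mul_of_nonneg_left ?_ hE0.le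
    rw [abs_sub_comm]
    exact lρ v w
  -- continuity
  have hsm : Continuous fun g : SL(2, ℝ) => g • UpperHalfPlane.I := continuous_id.smul continuous_const
  have hinvmul : Continuous fun p : SL(2, ℝ) × SL(2, ℝ) => p.1⁻¹ * p.2 :=
    continuous_fst.inv.mul continuous_snd
  have cE : Continuous fun p : SL(2, ℝ) × SL(2, ℝ) => Real.exp (ρ (p.1 • UpperHalfPlane.I)) :=
    Real.continuous_exp.comp (cρ.comp (hsm.comp continuous_fst))
  have ce : ∀ i j : Fin 2, Continuous fun p : SL(2, ℝ) × SL(2, ℝ) => (p.1⁻¹ * p.2) i j :=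
    fun i j => (ec i j).comp hinvmul
  -- invariance of the quotient
  have hq : ∀ γ v w : SL(2, ℝ), (γ * v)⁻¹ * (γ * w) = v⁻¹ * w := by
    intro γ v w; group
  have hri : ∀ γ ∈ Γ, ∀ v : SL(2, ℝ), ρ ((γ * v) • UpperHalfPlane.I) = ρ (v • UpperHalfPlane.I) := by
    intro γ hγ v
    rw [mul_smul]
    exact hF.inv γ hγ _
  -- dd w u
  have hwu : ∀ v w u : SL(2, ℝ), dd v w ≤ 1 → dd w u ≤ 2 * (dd v w + dd v u) := by
    intro v w u h
    have h1 : dd w v ≤ 1 := by rw [dd_symm]; exact h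
    have h2 := dd_tri w v u h1
    rwa [dd_symm v w] at h2
  have dn : ∀ v w : SL(2, ℝ), 0 ≤ dd v w := fun v w => nn_nonneg _
  have hprod : ∀ v w u : SL(2, ℝ), v⁻¹ * u = (v⁻¹ * w) * (w⁻¹ * u) := by
    intro v w u; group
  -- the constant
  set c : ℝ := 4 * (1 + B) * (1 + L) * Real.exp B with hc
  have hBL : 1 ≤ (1 + B) * (1 + L) := by nlinarith [mul_nonneg hB hL]
  have hc1 : 4 * ((1 + B) * (1 + L)) ≤ c := by
    rw [hc]
    nlinarith
  have hc4 : 4 * (1 + B) * Real.exp B ≤ c := by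
    rw [hc]
    have : 0 ≤ 4 * (1 + B) * Real.exp B := by positivity
    nlinarith only [hL, this]
  have hc5 : 4 * (1 + L) * Real.exp B ≤ c := by
    rw [hc]
    have : 0 ≤ 4 * (1 + L) * Real.exp B := by positivity
    nlinarith only [hB, this]
  have hc0 : 4 ≤ c := by linarith
  have hc6 : 4 * Real.exp B ≤ c := by
    have : 0 ≤ L * Real.exp B := mul_nonneg hL hE0.le
    linarith only [hc5, this]
  have hcp : 0 ≤ c := by linarith
  -- general bound for x and τ under the change of base point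
  have gen : ∀ f : SL(2, ℝ) → ℝ, (∀ g, |f g| ≤ nn g) → (∀ g h, |f (g * h) - f g - f h| ≤ nn g * nn h) →
      ∀ v w u : SL(2, ℝ), dd v w ≤ 1 → dd v u ≤ 1 →
      |Real.exp (ρ (v • UpperHalfPlane.I)) * f (v⁻¹ * u)
        - Real.exp (ρ (v • UpperHalfPlane.I)) * f (v⁻¹ * w)
        - Real.exp (ρ (w • UpperHalfPlane.I)) * f (w⁻¹ * u)| ≤ c * (dd v w + dd v u) ^ 2 := by
    intro f hf1 hf2 v w u h1 h2
    have h3 := hwu v w u h1
    set D := dd v w + dd v u with hD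
    have hD0 : 0 ≤ D := add_nonneg (dn _ _) (dn _ _)
    have hvw : dd v w ≤ D := by have := dn v u; linarith
    have hf3 : |f (w⁻¹ * u)| ≤ 2 * D := (hf1 _).trans h3
    have hf4 : |f (v⁻¹ * u) - f (v⁻¹ * w) - f (w⁻¹ * u)| ≤ D * (2 * D) := by
      rw [hprod v w u]
      exact (hf2 _ _).trans (mul_le_mul hvw h3 (dn w u) hD0)
    have e : Real.exp (ρ (v • UpperHalfPlane.I)) * f (v⁻¹ * u)
        - Real.exp (ρ (v • UpperHalfPlane.I)) * f (v⁻¹ * w)
        - Real.exp (ρ (w • UpperHalfPlane.I)) * f (w⁻¹ * u) =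
        Real.exp (ρ (v • UpperHalfPlane.I)) * (f (v⁻¹ * u) - f (v⁻¹ * w) - f (w⁻¹ * u)) +
        (Real.exp (ρ (v • UpperHalfPlane.I)) - Real.exp (ρ (w • UpperHalfPlane.I))) *
          f (w⁻¹ * u) := by ring
    rw [e]
    have k1 : |Real.exp (ρ (v • UpperHalfPlane.I)) * (f (v⁻¹ * u) - f (v⁻¹ * w) - f (w⁻¹ * u))| ≤
        Real.exp B * (D * (2 * D)) := by
      rw [abs_mul, abs_of_pos (Real.exp_pos _)]
      exact mul_le_mul (eB _) hf4 (abs_nonneg _) hE0.le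
    have k2 : |(Real.exp (ρ (v • UpperHalfPlane.I)) - Real.exp (ρ (w • UpperHalfPlane.I))) *
          f (w⁻¹ * u)| ≤ (Real.exp B * (L * D)) * (2 * D) := by
      rw [abs_mul]
      refine mul_le_mul ((lE v w).trans ?_) hf3 (abs_nonneg _) (by (clear * - hL hD0; positivity))
      exact mul_le_mul_of_nonneg_left (mul_le_mul_of_nonneg_left hvw hL) hE0.le
    refine (abs_add_le _ _).trans ((add_le_add k1 k2).trans ?_)
    have e2 : Real.exp B * (D * (2 * D)) + Real.exp B * (L * D) * (2 * D) =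
        (2 * (1 + L) * Real.exp B) * D ^ 2 := by ring
    rw [e2]
    refine mul_le_mul_of_nonneg_right ?_ (sq_nonneg D)
    have : 0 ≤ 2 * (1 + L) * Real.exp B := by positivity
    linarith only [hBL, hc1, hc5]
  refine ⟨c, 1, ?_⟩
  refine
    { one_le := by linarith
      rpos := one_pos
      rle := le_rfl
      xc := ?_
      yc := ?_
      tc := ?_
      xi := ?_
      yi := ?_
      ti := ?_
      dsymm := dd_symm
      dtri := ?_
      dle := ?_
      xle := ?_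
      yle := ?_
      tle := ?_
      xcc := ?_
      ycc := ?_
      tcc := ?_ }
  · exact cE.mul ((ce 0 1).add (ce 1 0))
  · exact (((ce 1 0).sub (ce 0 1)).sub (((ce 0 0).sub (ce 1 1)).mul (cP.comp continuous_fst))).add
      (((ce 0 1).add (ce 1 0)).mul (cH.comp continuous_fst))
  · exact cE.mul ((ce 0 0).sub (ce 1 1))
  · intro γ hγ v w
    rw [ex, ex, hq, hri γ hγ]
  · intro γ hγ v w
    have := hinv γ (hF.inv γ hγ) v
    rw [ey, ey, hq, this.1, this.2]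
  · intro γ hγ v w
    rw [et, et, hq, hri γ hγ]
  · intro v w u h1 _
    refine (dd_tri v w u h1).trans ?_
    exact mul_le_mul_of_nonneg_right (by linarith) (add_nonneg (dn _ _) (dn _ _))
  · intro v w h
    have h1 := nn_le (v⁻¹ * w) h
    have hs : |sf (v⁻¹ * w)| ≤ Real.exp B * |xx ρ v w| := by
      have e1 : sf (v⁻¹ * w) = Real.exp (-ρ (v • UpperHalfPlane.I)) * xx ρ v w := by
        rw [ex, ← mul_assoc, ← Real.exp_add]
        simp
      rw [e1, abs_mul, abs_of_pos (Real.exp_pos _)]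
      exact mul_le_mul_of_nonneg_right (eBn _) (abs_nonneg _)
    have ht : |tf (v⁻¹ * w)| ≤ Real.exp B * |tt ρ v w| := by
      have e1 : tf (v⁻¹ * w) = Real.exp (-ρ (v • UpperHalfPlane.I)) * tt ρ v w := by
        rw [et, ← mul_assoc, ← Real.exp_add]
        simp
      rw [e1, abs_mul, abs_of_pos (Real.exp_pos _)]
      exact mul_le_mul_of_nonneg_right (eBn _) (abs_nonneg _)
    have hqq : |qf (v⁻¹ * w)| ≤ |yy ρ v w| + B * |tf (v⁻¹ * w)| + B * |sf (v⁻¹ * w)| := by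
      have e1 : qf (v⁻¹ * w) = yy ρ v w + tf (v⁻¹ * w) * Pr ρ v - sf (v⁻¹ * w) * Hr ρ v := by
        rw [ey]; ring
      have a1 : |tf (v⁻¹ * w) * Pr ρ v| ≤ B * |tf (v⁻¹ * w)| := by
        rw [abs_mul, mul_comm]
        exact mul_le_mul_of_nonneg_right (bP v) (abs_nonneg _)
      have a2 : |sf (v⁻¹ * w) * Hr ρ v| ≤ B * |sf (v⁻¹ * w)| := by
        rw [abs_mul, mul_comm]
        exact mul_le_mul_of_nonneg_right (bH v) (abs_nonneg _)
      calc |qf (v⁻¹ * w)| = |yy ρ v w + tf (v⁻¹ * w) * Pr ρ v - sf (v⁻¹ * w) * Hr ρ v| := by rw [← e1]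
        _ ≤ |yy ρ v w + tf (v⁻¹ * w) * Pr ρ v| + |sf (v⁻¹ * w) * Hr ρ v| := abs_sub _ _
        _ ≤ |yy ρ v w| + |tf (v⁻¹ * w) * Pr ρ v| + |sf (v⁻¹ * w) * Hr ρ v| := by
          gcongr; exact abs_add_le _ _
        _ ≤ _ := by linarith only [a1, a2]
    have h2 : dd v w ≤ 2 * (|yy ρ v w| + (1 + B) * |tf (v⁻¹ * w)| + (1 + B) * |sf (v⁻¹ * w)|) := by
      refine h1.trans ?_
      linarith only [hqq]
    have h3 : (1 + B) * |tf (v⁻¹ * w)| ≤ (1 + B) * (Real.exp B * |tt ρ v w|) :=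
      mul_le_mul_of_nonneg_left ht (by linarith only [hB])
    have h4 : (1 + B) * |sf (v⁻¹ * w)| ≤ (1 + B) * (Real.exp B * |xx ρ v w|) :=
      mul_le_mul_of_nonneg_left hs (by linarith only [hB])
    have h5 : 4 * (1 + B) * Real.exp B * |tt ρ v w| ≤ c * |tt ρ v w| :=
      mul_le_mul_of_nonneg_right hc4 (abs_nonneg _)
    have h6 : 4 * (1 + B) * Real.exp B * |xx ρ v w| ≤ c * |xx ρ v w| :=
      mul_le_mul_of_nonneg_right hc4 (abs_nonneg _)
    have h7 : 4 * |yy ρ v w| ≤ c * |yy ρ v w| := mul_le_mul_of_nonneg_right hc0 (abs_nonneg _)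
    have p1 : 0 ≤ (1 + B) * (Real.exp B * |tt ρ v w|) := by (clear * - hB; positivity)
    have p2 : 0 ≤ (1 + B) * (Real.exp B * |xx ρ v w|) := by (clear * - hB; positivity)
    have p3 := abs_nonneg (yy ρ v w)
    have : c * (|xx ρ v w| + |yy ρ v w| + |tt ρ v w|) =
      c * |xx ρ v w| + c * |yy ρ v w| + c * |tt ρ v w| := by ring
    rw [this]
    linarith only [h2, h3, h4, h5, h6, h7, p1, p2, p3]
  · intro v w _
    rw [ex, abs_mul, abs_of_pos (Real.exp_pos _)]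
    refine mul_le_mul ((eB _).trans (by linarith)) (sf_le _) (abs_nonneg _) hcp
  · intro v w _
    rw [ey]
    have a1 : |tf (v⁻¹ * w) * Pr ρ v| ≤ dd v w * B := by
      rw [abs_mul]
      exact mul_le_mul (tf_le _) (bP v) (abs_nonneg _) (dn v w)
    have a2 : |sf (v⁻¹ * w) * Hr ρ v| ≤ dd v w * B := by
      rw [abs_mul]
      exact mul_le_mul (sf_le _) (bH v) (abs_nonneg _) (dn v w)
    have a3 : |qf (v⁻¹ * w)| ≤ dd v w := qf_le _
    have a4 : |qf (v⁻¹ * w) - tf (v⁻¹ * w) * Pr ρ v + sf (v⁻¹ * w) * Hr ρ v| ≤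
        |qf (v⁻¹ * w)| + |tf (v⁻¹ * w) * Pr ρ v| + |sf (v⁻¹ * w) * Hr ρ v| := by
      refine (abs_add_le _ _).trans ?_
      gcongr
      exact abs_sub _ _
    have a5 : (1 + 2 * B) * dd v w ≤ c * dd v w := by
      refine mul_le_mul_of_nonneg_right ?_ (dn v w)
      nlinarith only [hL, hc1, hB]
    linarith
  · intro v w _
    rw [et, abs_mul, abs_of_pos (Real.exp_pos _)]
    refine mul_le_mul ((eB _).trans (by linarith)) (tf_le _) (abs_nonneg _) hcp
  · intro v w u h1 h2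
    rw [ex, ex, ex]
    exact gen sf sf_le sf_mul v w u h1 h2
  · intro v w u h1 h2
    have h3 := hwu v w u h1
    rw [ey, ey, ey]
    set D := dd v w + dd v u with hD
    have hD0 : 0 ≤ D := add_nonneg (dn _ _) (dn _ _)
    have hvw : dd v w ≤ D := by have := dn v u; linarith
    have herr : ∀ f : SL(2, ℝ) → ℝ, (∀ g h, |f (g * h) - f g - f h| ≤ nn g * nn h) →
        |f (v⁻¹ * u) - f (v⁻¹ * w) - f (w⁻¹ * u)| ≤ D * (2 * D) := by
      intro f hf2
      rw [hprod v w u]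
      exact (hf2 _ _).trans (mul_le_mul hvw h3 (dn w u) hD0)
    have q1 := herr qf qf_mul
    have q2 := herr tf tf_mul
    have q3 := herr sf sf_mul
    have r1 : |tf (w⁻¹ * u)| ≤ 2 * D := (tf_le _).trans h3
    have r2 : |sf (w⁻¹ * u)| ≤ 2 * D := (sf_le _).trans h3
    have r3 : |Pr ρ w - Pr ρ v| ≤ L * D := (lP v w).trans (mul_le_mul_of_nonneg_left hvw hL)
    have r4 : |Hr ρ w - Hr ρ v| ≤ L * D := (lH v w).trans (mul_le_mul_of_nonneg_left hvw hL)
    have e : qf (v⁻¹ * u) - tf (v⁻¹ * u) * Pr ρ v + sf (v⁻¹ * u) * Hr ρ v -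
        (qf (v⁻¹ * w) - tf (v⁻¹ * w) * Pr ρ v + sf (v⁻¹ * w) * Hr ρ v) -
        (qf (w⁻¹ * u) - tf (w⁻¹ * u) * Pr ρ w + sf (w⁻¹ * u) * Hr ρ w) =
        (qf (v⁻¹ * u) - qf (v⁻¹ * w) - qf (w⁻¹ * u)) -
        (tf (v⁻¹ * u) - tf (v⁻¹ * w) - tf (w⁻¹ * u)) * Pr ρ v +
        (sf (v⁻¹ * u) - sf (v⁻¹ * w) - sf (w⁻¹ * u)) * Hr ρ v +
        tf (w⁻¹ * u) * (Pr ρ w - Pr ρ v) - sf (w⁻¹ * u) * (Hr ρ w - Hr ρ v) := by ring
    rw [e]
    have t2 : |(tf (v⁻¹ * u) - tf (v⁻¹ * w) - tf (w⁻¹ * u)) * Pr ρ v| ≤ D * (2 * D) * B := by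
      rw [abs_mul]
      exact mul_le_mul q2 (bP v) (abs_nonneg _) (by positivity)
    have t3 : |(sf (v⁻¹ * u) - sf (v⁻¹ * w) - sf (w⁻¹ * u)) * Hr ρ v| ≤ D * (2 * D) * B := by
      rw [abs_mul]
      exact mul_le_mul q3 (bH v) (abs_nonneg _) (by positivity)
    have t4 : |tf (w⁻¹ * u) * (Pr ρ w - Pr ρ v)| ≤ 2 * D * (L * D) := by
      rw [abs_mul]
      exact mul_le_mul r1 r3 (abs_nonneg _) (by positivity)
    have t5 : |sf (w⁻¹ * u) * (Hr ρ w - Hr ρ v)| ≤ 2 * D * (L * D) := by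
      rw [abs_mul]
      exact mul_le_mul r2 r4 (abs_nonneg _) (by positivity)
    have tot : ∀ p q r s t : ℝ, |p - q + r + s - t| ≤ |p| + |q| + |r| + |s| + |t| := by
      intro p q r s t
      calc |p - q + r + s - t| ≤ |p - q + r + s| + |t| := abs_sub _ _
        _ ≤ |p - q + r| + |s| + |t| := by gcongr; exact abs_add_le _ _
        _ ≤ |p - q| + |r| + |s| + |t| := by gcongr; exact abs_add_le _ _
        _ ≤ |p| + |q| + |r| + |s| + |t| := by gcongr; exact abs_sub _ _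
    refine (tot _ _ _ _ _).trans ?_
    have fin : D * (2 * D) + D * (2 * D) * B + D * (2 * D) * B + 2 * D * (L * D) + 2 * D * (L * D)
        = (2 + 4 * B + 4 * L) * D ^ 2 := by ring
    have fin2 : (2 + 4 * B + 4 * L) * D ^ 2 ≤ c * D ^ 2 := by
      refine mul_le_mul_of_nonneg_right ?_ (sq_nonneg D)
      linarith only [hc1, mul_nonneg hB hL]
    linarith only [q1, t2, t3, t4, t5, fin2]
  · intro v w u h1 h2
    rw [et, et, et]
    exact gen tf tf_le tf_mul v w u h1 h2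

end

end NC

end QE


end

section

/-!
# Closed surfaces of negative curvature: the measure (module NC_MASS, helper14)

The measure `nuR ρ μ = e^{2ρ} μ` satisfies `MassSys` (quadratic bound and uniform integrability of the
masses of boxes).
-/

open MeasureTheory Filter Topology Set
open UpperHalfPlane hiding I
open scoped ContDiff MatrixGroups ENNReal

namespace QE

namespace NC

noncomputable section

variable [MeasurableSpace SL(2, ℝ)] [BorelSpace SL(2, ℝ)]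
variable {Γ : Subgroup SL(2, ℝ)} {D : Set ℍ} {μ : Measure SL(2, ℝ)} {p : ℍ → ℝ} {ρ : ℍ → ℝ}

omit [MeasurableSpace SL(2, ℝ)] [BorelSpace SL(2, ℝ)] in
/-- a measure with invariant density is invariant -/
theorem map_withDensity_of_inv {X : Type*} [MeasurableSpace X] {μ : Measure X} {T : X → X}
    {f : X → ℝ≥0∞} (hT : Measurable T) (hμ : Measure.map T μ = μ) (hf : Measurable f)
    (hfT : ∀ x, f (T x) = f x) : Measure.map T (μ.withDensity f) = μ.withDensity f := by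
  ext S hS
  rw [Measure.map_apply hT hS, withDensity_apply _ (hT hS), withDensity_apply _ hS]
  conv_rhs => rw [← hμ, setLIntegral_map hS hf hT]
  simp only [hfT]

/-- `e^{2ρ} μ` is again a measure with square integrable projection -/
theorem flowMeas0_nuR (hμ : FlowMeas0 Γ D μ p) (hρ : Measurable ρ)
    (hinv : ∀ γ ∈ Γ, ∀ z, ρ (γ • z) = ρ z) {B : ℝ} (hB : ∀ z, |ρ z| ≤ B) :
    FlowMeas0 Γ D (nuR ρ μ) (fun z => Real.exp (2 * ρ z) * p z) := by
  have hE : Measurable fun z : ℍ => ENNReal.ofReal (Real.exp (2 * ρ z)) :=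
    ((hρ.const_mul 2).exp).ennreal_ofReal
  have hf : Measurable fun g : SL(2, ℝ) =>
      ENNReal.ofReal (Real.exp (2 * ρ (g • UpperHalfPlane.I))) := hE.comp Berry.proj_measurable
  refine ⟨?_, ?_, ?_, ?_, ?_, ?_, ?_⟩
  · intro γ hγ
    refine map_withDensity_of_inv (continuous_const_mul γ).measurable (hμ.left γ hγ) hf ?_
    intro g
    have : (γ * g) • UpperHalfPlane.I = γ • (g • UpperHalfPlane.I) := mul_smul γ g _
    rw [this, hinv γ hγ]
  · refine map_withDensity_of_inv neg_cont.measurable hμ.neg hf ?_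
    intro g
    have : (-g) • UpperHalfPlane.I = g • UpperHalfPlane.I := by
      apply UpperHalfPlane.ext
      rw [smul_I_coe, smul_I_coe]
      simp only [Matrix.SpecialLinearGroup.coe_neg, Matrix.neg_apply, neg_mul_neg, neg_sq]
    rw [this]
  · exact ((hρ.const_mul 2).exp).mul hμ.pmeas
  · intro z
    exact mul_nonneg (Real.exp_pos _).le (hμ.pnonneg z)
  · intro γ hγ z
    simp only [hinv γ hγ, hμ.pinv γ hγ]
  · have h1 : IntegrableOn (fun z => Real.exp (4 * B) * p z ^ 2) D (volume : Measure ℍ) :=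
      hμ.psq.const_mul _
    refine h1.mono' ?_ ?_
    · exact ((((hρ.const_mul 2).exp).mul hμ.pmeas).pow_const 2).aestronglyMeasurable
    · refine ae_of_all _ fun z => ?_
      rw [Real.norm_of_nonneg (sq_nonneg _), mul_pow]
      refine mul_le_mul_of_nonneg_right ?_ (sq_nonneg _)
      rw [← Real.exp_nat_mul]
      refine Real.exp_le_exp.2 ?_
      have := (abs_le.1 (hB z)).2
      push_cast
      linarith
  · intro S hS
    unfold nuR
    rw [withDensity_apply _ (Berry.proj_measurable hS)]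
    have h := hμ.lintegral_proj hE hS
    unfold Berry.Fd at h
    rw [h]
    refine lintegral_congr fun z => ?_
    rw [mul_comm, ← ENNReal.ofReal_mul (Real.exp_pos _).le]

/-- the set of the elements which move `i` by about less than `d` -/
def Bl (d : ℝ) : Set SL(2, ℝ) := {g | (g 0 0 - g 1 1) ^ 2 + (g 0 1 + g 1 0) ^ 2 < d ^ 2}

omit [MeasurableSpace SL(2, ℝ)] [BorelSpace SL(2, ℝ)] in
/-- boxes are contained in balls of bounded radius -/
theorem Bx_subset_two {r δ : ℝ} (hr : r ≤ 1) (v : SL(2, ℝ)) :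
    Bx (xx ρ) (tt ρ) r δ v ⊆ (fun w => v⁻¹ * w) ⁻¹' Bl 2 := by
  rintro w ⟨h1, -, -⟩
  simp only [dd, nn] at h1
  simp only [Bl, mem_preimage, mem_ofPred_eq]
  generalize (v⁻¹ * w) = g at *
  have a1 := abs_nonneg (g 0 0 - 1)
  have a2 := abs_nonneg (g 0 1)
  have a3 := abs_nonneg (g 1 0)
  have a4 := abs_nonneg (g 1 1 - 1)
  have e1 : |g 0 0 - g 1 1| ≤ |g 0 0 - 1| + |g 1 1 - 1| := by
    have := abs_sub (g 0 0 - 1) (g 1 1 - 1)
    have e : g 0 0 - 1 - (g 1 1 - 1) = g 0 0 - g 1 1 := by ring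
    rwa [e] at this
  have e2 : |g 0 1 + g 1 0| ≤ |g 0 1| + |g 1 0| := abs_add_le _ _
  have e3 : |g 0 0 - g 1 1| ≤ 1 := by linarith
  have e4 : |g 0 1 + g 1 0| ≤ 1 := by linarith
  have e5 : (g 0 0 - g 1 1) ^ 2 ≤ 1 := by
    rw [← sq_abs]
    exact pow_le_one₀ (abs_nonneg _) e3
  have e6 : (g 0 1 + g 1 0) ^ 2 ≤ 1 := by
    rw [← sq_abs]
    exact pow_le_one₀ (abs_nonneg _) e4
  linarith

omit [MeasurableSpace SL(2, ℝ)] [BorelSpace SL(2, ℝ)] in
/-- boxes are contained in balls of a comparable radius -/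
theorem Bx_subset {B : ℝ} (hB : ∀ z, |ρ z| ≤ B) {r δ : ℝ} (hδ : 0 < δ) (v : SL(2, ℝ)) :
    Bx (xx ρ) (tt ρ) r δ v ⊆ (fun w => v⁻¹ * w) ⁻¹' Bl (2 * Real.exp B * δ) := by
  rintro w ⟨-, h2, h3⟩
  simp only [xx, tt] at h2 h3
  simp only [Bl, mem_preimage, mem_ofPred_eq]
  generalize (v⁻¹ * w) = g at *
  have h0 := (abs_le.1 (hB (v • UpperHalfPlane.I))).1
  generalize ρ (v • UpperHalfPlane.I) = s at *
  have hs := Real.exp_pos s
  have hB' : 1 ≤ Real.exp B * Real.exp s := by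
    rw [← Real.exp_add]
    exact Real.one_le_exp (by linarith)
  have key : ∀ a : ℝ, |Real.exp s * a| ≤ δ → a ^ 2 ≤ (Real.exp B * δ) ^ 2 := by
    intro a ha
    rw [← sq_abs a]
    refine pow_le_pow_left₀ (abs_nonneg _) ?_ 2
    rw [abs_mul, abs_of_pos hs] at ha
    calc |a| = 1 * |a| := (one_mul _).symm
      _ ≤ (Real.exp B * Real.exp s) * |a| := by gcongr
      _ = Real.exp B * (Real.exp s * |a|) := by ring
      _ ≤ Real.exp B * δ := by gcongr
  have k1 := key _ h2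
  have k2 := key _ h3
  have hp : 0 < Real.exp B * δ := by positivity
  linarith only [k1, k2, sq_pos_of_pos hp]

omit [MeasurableSpace SL(2, ℝ)] [BorelSpace SL(2, ℝ)] in
/-- tails of integrable functions -/
theorem tail_lintegral {X : Type*} [MeasurableSpace X] {m : Measure X} {F : X → ℝ≥0∞}
    (hF : Measurable F) (hfin : ∫⁻ x, F x ∂m ≠ ⊤) {ε : ℝ} (hε : 0 < ε) :
    ∃ n : ℕ, ∫⁻ x, (if F x ≤ n then 0 else F x) ∂m ≤ ENNReal.ofReal ε := by
  have hlim : Tendsto (fun n : ℕ => ∫⁻ x, (if F x ≤ n then 0 else F x) ∂m) atTop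
      (𝓝 (∫⁻ _, 0 ∂m)) := by
    refine tendsto_lintegral_of_dominated_convergence F (fun n => ?_) (fun n => ?_) hfin ?_
    · exact Measurable.ite (measurableSet_le hF measurable_const) measurable_const hF
    · refine ae_of_all _ fun z => ?_
      simp only
      split_ifs
      · exact zero_le
      · exact le_rfl
    · filter_upwards [ae_lt_top hF hfin] with x hx
      refine tendsto_const_nhds.congr' ?_
      obtain ⟨N, hN⟩ := ENNReal.exists_nat_gt hx.ne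
      filter_upwards [eventually_ge_atTop N] with n hn
      rw [if_pos]
      refine hN.le.trans ?_
      exact_mod_cast hn
  rw [lintegral_zero] at hlim
  have h2 : ∀ᶠ n : ℕ in atTop, ∫⁻ x, (if F x ≤ n then 0 else F x) ∂m < ENNReal.ofReal ε :=
    hlim.eventually_lt_const (ENNReal.ofReal_pos.2 hε)
  obtain ⟨n, hn⟩ := h2.exists
  exact ⟨n, hn.le⟩

/-- the exceptional points for small balls -/
theorem exc_small [Countable Γ] (hμ : FlowMeas0 Γ D μ p)
    (hD : IsFundamentalDomain Γ D (volume : Measure ℍ)) (hDm : MeasurableSet D) {η : ℝ}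
    (hη : 0 < η) : ∃ M : ℝ, 0 < M ∧ ∀ d : ℝ, 0 < d → d ≤ 1 →
      ∫⁻ v in Berry.Fd D, (if μ ((fun w => v⁻¹ * w) ⁻¹' Bl d) ≤ ENNReal.ofReal (M * d ^ 2) then 0
        else μ ((fun w => v⁻¹ * w) ⁻¹' Bl d)) ∂μ ≤ ENNReal.ofReal (η * d ^ 2) := by
  set A : ℝ≥0∞ := ∫⁻ z in D, ENNReal.ofReal (p z) ^ 2 with hA
  have hAt : A ≠ ⊤ := by
    have h := hμ.psq_ne_top
    have e : ∀ z, ENNReal.ofReal (p z) ^ 2 = ENNReal.ofReal (p z ^ 2) :=
      fun z => (ENNReal.ofReal_pow (hμ.pnonneg z) 2).symm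
    rw [hA]
    simp only [e]
    exact h
  set l : ℝ := η / (400 * (A.toReal + 1)) with hl
  have hA0 : 0 ≤ A.toReal := ENNReal.toReal_nonneg
  have hl0 : 0 < l := by positivity
  obtain ⟨R, hR, hRt⟩ := hμ.tail (ε := η * l / 400) (by positivity)
  have hR0 : (0 : ℝ) < R := by exact_mod_cast hR
  refine ⟨200 * R, by positivity, fun d hd hd1 => ?_⟩
  set q : ℍ → ℝ≥0∞ := fun z => ENNReal.ofReal (p z - R) with hq
  have hqm : Measurable q := (hμ.pmeas.sub_const _).ennreal_ofReal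
  have hqi : ∀ γ ∈ Γ, ∀ z, q (γ • z) = q z := by
    intro γ hγ z
    simp only [hq, hμ.pinv γ hγ z]
  set Φ : ℍ → ℝ≥0∞ := fun z => ∫⁻ w in Metric.ball z d, q w with hΦ
  have hΦm : Measurable Φ := ball_meas hqm _
  have hmass : ∀ v : SL(2, ℝ), μ ((fun w => v⁻¹ * w) ⁻¹' Bl d) ≤
      ENNReal.ofReal (100 * R * d ^ 2) + Φ (v • UpperHalfPlane.I) := by
    intro v
    refine (hμ.mass_le v hd).trans ?_
    calc ∫⁻ z in Metric.ball (v • UpperHalfPlane.I) d, ENNReal.ofReal (p z)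
        ≤ ∫⁻ z in Metric.ball (v • UpperHalfPlane.I) d, (ENNReal.ofReal R + q z) := by
          apply lintegral_mono
          intro z
          simp only [hq]
          calc ENNReal.ofReal (p z) = ENNReal.ofReal (R + (p z - R)) := by
                congr 1
                ring
            _ ≤ _ := ENNReal.ofReal_add_le
      _ = ENNReal.ofReal R * volume (Metric.ball (v • UpperHalfPlane.I) d) +
            Φ (v • UpperHalfPlane.I) := by
          rw [lintegral_add_left measurable_const, setLIntegral_const]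
      _ ≤ ENNReal.ofReal R * ENNReal.ofReal (100 * d ^ 2) + Φ (v • UpperHalfPlane.I) := by
          gcongr
          exact vol_ball_le _ hd.le hd1
      _ = _ := by
          rw [← ENNReal.ofReal_mul hR0.le]
          congr 2
          ring
  have hpt : ∀ v : SL(2, ℝ), (if μ ((fun w => v⁻¹ * w) ⁻¹' Bl d) ≤
      ENNReal.ofReal (200 * R * d ^ 2) then 0 else μ ((fun w => v⁻¹ * w) ⁻¹' Bl d)) ≤
      2 * Φ (v • UpperHalfPlane.I) := by
    intro v
    have hm := hmass v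
    generalize μ ((fun w => v⁻¹ * w) ⁻¹' Bl d) = m at *
    have e2 : ENNReal.ofReal (200 * R * d ^ 2) =
        ENNReal.ofReal (100 * R * d ^ 2) + ENNReal.ofReal (100 * R * d ^ 2) := by
      rw [← ENNReal.ofReal_add (by positivity) (by positivity)]
      congr 1
      ring
    rw [e2, two_mul]
    generalize Φ (v • UpperHalfPlane.I) = φ at *
    generalize ENNReal.ofReal (100 * R * d ^ 2) = b₀ at *
    split_ifs with h
    · exact zero_le
    · push Not at h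
      rcases le_total b₀ φ with h1 | h1
      · exact hm.trans (by gcongr)
      · exact absurd (lt_of_lt_of_le h (hm.trans (by gcongr))) (lt_irrefl _)
  calc _ ≤ ∫⁻ v in Berry.Fd D, 2 * Φ (v • UpperHalfPlane.I) ∂μ := lintegral_mono hpt
    _ = 2 * ∫⁻ z in D, ENNReal.ofReal (p z) * Φ z := by
        rw [lintegral_const_mul' _ _ (by norm_num)]
        congr 1
        exact hμ.lintegral_proj hΦm hDm
    _ ≤ 2 * (ENNReal.ofReal (100 * d ^ 2) *
          (ENNReal.ofReal l * ∫⁻ z in D, ENNReal.ofReal (p z) ^ 2) +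
          ENNReal.ofReal (100 * d ^ 2) * ((ENNReal.ofReal l)⁻¹ * ∫⁻ z in D, q z ^ 2)) := by
        gcongr
        exact bilin hD hμ.pm hqm hqi hd.le hd1 (ENNReal.ofReal l)
          (ENNReal.ofReal_pos.2 hl0).ne' ENNReal.ofReal_ne_top
    _ ≤ 2 * (ENNReal.ofReal (η / 4 * d ^ 2) + ENNReal.ofReal (η / 4 * d ^ 2)) := by
        gcongr
        · rw [← hA, ← ENNReal.ofReal_toReal hAt, ← ENNReal.ofReal_mul hl0.le,
            ← ENNReal.ofReal_mul (by positivity)]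
          apply ENNReal.ofReal_le_ofReal
          have h1 : l * A.toReal ≤ η / 400 := by
            rw [hl, div_mul_eq_mul_div, div_le_div_iff₀ (by positivity) (by positivity)]
            linarith only [hη]
          linarith only [mul_le_mul_of_nonneg_right h1 (sq_nonneg d)]
        · calc ENNReal.ofReal (100 * d ^ 2) * ((ENNReal.ofReal l)⁻¹ * ∫⁻ z in D, q z ^ 2)
              ≤ ENNReal.ofReal (100 * d ^ 2) * (ENNReal.ofReal l⁻¹ *
                ENNReal.ofReal (η * l / 400)) := by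
                rw [ENNReal.ofReal_inv_of_pos hl0]
                gcongr
            _ = ENNReal.ofReal (η / 4 * d ^ 2) := by
                rw [← ENNReal.ofReal_mul (by positivity), ← ENNReal.ofReal_mul (by positivity)]
                congr 1
                field_simp
                ring
    _ = ENNReal.ofReal (η * d ^ 2) := by
        rw [show (2 : ℝ≥0∞) = ENNReal.ofReal 2 by simp, ← ENNReal.ofReal_add (by positivity)
          (by positivity), ← ENNReal.ofReal_mul (by positivity)]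
        congr 1
        ring

omit [MeasurableSpace SL(2, ℝ)] [BorelSpace SL(2, ℝ)] in
theorem ite_le_ite {a b s t : ℝ≥0∞} (hab : a ≤ b) (hst : s ≤ t) :
    (if a ≤ t then 0 else a) ≤ (if b ≤ s then 0 else b) := by
  by_cases h : b ≤ s
  · rw [if_pos (hab.trans (h.trans hst))]
    exact zero_le
  · rw [if_neg h]
    split_ifs
    · exact zero_le
    · exact hab

/-- the quadratic bound -/
theorem box_bound [Countable Γ] (hμ : FlowMeas0 Γ D μ p)
    (hD : IsFundamentalDomain Γ D (volume : Measure ℍ)) (hDm : MeasurableSet D) {B : ℝ}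
    (hB : ∀ z, |ρ z| ≤ B) {r : ℝ} (hr : r ≤ 1) :
    ∃ C : ℝ, 0 ≤ C ∧ ∀ δ : ℝ, 0 < δ → δ ≤ 1 →
      ∫⁻ v in Berry.Fd D, μ (Bx (xx ρ) (tt ρ) r δ v) ∂μ ≤ ENNReal.ofReal (C * δ ^ 2) := by
  obtain ⟨C, hC, hb⟩ := hμ.pair_bound hD hDm
  set K : ℝ := 2 * Real.exp B with hK
  have hK0 : 0 < K := by positivity
  refine ⟨4 * C * K ^ 2, by positivity, fun δ hδ hδ1 => ?_⟩
  rcases le_total (K * δ) 1 with h | h
  · have h1 := hb (K * δ) (by positivity) (by linarith)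
    refine le_trans (lintegral_mono fun v => measure_mono (Bx_subset hB hδ v)) (h1.trans ?_)
    refine ENNReal.ofReal_le_ofReal ?_
    linarith only [mul_nonneg hC (sq_nonneg (K * δ))]
  · have h1 := hb 2 (by positivity) (by norm_num)
    refine le_trans (lintegral_mono fun v => measure_mono (Bx_subset_two hr v)) (h1.trans ?_)
    refine ENNReal.ofReal_le_ofReal ?_
    have h2 : 1 ≤ (K * δ) ^ 2 := one_le_pow₀ h
    linarith only [mul_le_mul_of_nonneg_left h2 hC]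

/-- uniform integrability -/
theorem box_ui [Countable Γ] [SFinite μ] (hμ : FlowMeas0 Γ D μ p)
    (hD : IsFundamentalDomain Γ D (volume : Measure ℍ)) (hDm : MeasurableSet D) {B : ℝ}
    (hB : ∀ z, |ρ z| ≤ B) {r : ℝ} (hr : r ≤ 1) (η : ℝ) (hη : 0 < η) :
    ∃ M : ℝ, 0 < M ∧ ∀ δ : ℝ, 0 < δ → δ ≤ 1 →
      ∫⁻ v in Berry.Fd D, (if μ (Bx (xx ρ) (tt ρ) r δ v) ≤ ENNReal.ofReal (M * δ ^ 2) then 0
        else μ (Bx (xx ρ) (tt ρ) r δ v)) ∂μ ≤ ENNReal.ofReal (η * δ ^ 2) := by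
  obtain ⟨C, hC, hb⟩ := hμ.pair_bound hD hDm
  set K : ℝ := 2 * Real.exp B with hK
  have hK0 : 0 < K := by positivity
  obtain ⟨M₁, hM₁, h1⟩ := exc_small hμ hD hDm (η := η / K ^ 2) (by positivity)
  have hF : Measurable fun v : SL(2, ℝ) => μ ((fun w => v⁻¹ * w) ⁻¹' Bl 2) := mass_meas (ball_meas' 2)
  have hfin : ∫⁻ v in Berry.Fd D, μ ((fun w => v⁻¹ * w) ⁻¹' Bl 2) ∂μ ≠ ⊤ :=
    ne_top_of_le_ne_top ENNReal.ofReal_ne_top (hb 2 (by norm_num) (by norm_num))
  obtain ⟨n, hn⟩ := tail_lintegral hF hfin (ε := η / K ^ 2) (by positivity)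
  refine ⟨max (M₁ * K ^ 2) (n * K ^ 2), lt_of_lt_of_le (by positivity) (le_max_left _ _),
    fun δ hδ hδ1 => ?_⟩
  rcases le_total (K * δ) 1 with h | h
  · refine le_trans (lintegral_mono fun v => ?_) ((h1 (K * δ) (by positivity) h).trans_eq ?_)
    · have hsub : μ (Bx (xx ρ) (tt ρ) r δ v) ≤ μ ((fun w => v⁻¹ * w) ⁻¹' Bl (K * δ)) :=
        measure_mono (Bx_subset hB hδ v)
      have hM : ENNReal.ofReal (M₁ * (K * δ) ^ 2) ≤
          ENNReal.ofReal (max (M₁ * K ^ 2) (n * K ^ 2) * δ ^ 2) := by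
        refine ENNReal.ofReal_le_ofReal ?_
        have := mul_le_mul_of_nonneg_right (le_max_left (M₁ * K ^ 2) (n * K ^ 2)) (sq_nonneg δ)
        calc M₁ * (K * δ) ^ 2 = M₁ * K ^ 2 * δ ^ 2 := by ring
          _ ≤ _ := this
      exact ite_le_ite hsub hM
    · congr 1
      field_simp
  · refine le_trans (lintegral_mono fun v => ?_) (hn.trans ?_)
    · have hsub : μ (Bx (xx ρ) (tt ρ) r δ v) ≤ μ ((fun w => v⁻¹ * w) ⁻¹' Bl 2) :=
        measure_mono (Bx_subset_two hr v)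
      have hM : (n : ℝ≥0∞) ≤ ENNReal.ofReal (max (M₁ * K ^ 2) (n * K ^ 2) * δ ^ 2) := by
        rw [← ENNReal.ofReal_natCast]
        refine ENNReal.ofReal_le_ofReal ?_
        have h4 := mul_le_mul_of_nonneg_right (le_max_right (M₁ * K ^ 2) (n * K ^ 2)) (sq_nonneg δ)
        have h5 : 1 ≤ (K * δ) ^ 2 := one_le_pow₀ h
        have h6 : (0 : ℝ) ≤ n := Nat.cast_nonneg n
        calc (n : ℝ) = n * 1 := (mul_one _).symm
          _ ≤ n * (K * δ) ^ 2 := by gcongr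
          _ = n * K ^ 2 * δ ^ 2 := by ring
          _ ≤ _ := h4
      exact ite_le_ite hsub hM
    · refine ENNReal.ofReal_le_ofReal ?_
      rw [div_le_iff₀ (by positivity)]
      have h5 : 1 ≤ (K * δ) ^ 2 := one_le_pow₀ h
      linarith only [mul_le_mul_of_nonneg_left h5 hη.le]

omit [MeasurableSpace SL(2, ℝ)] [BorelSpace SL(2, ℝ)] in
/-- **Module NC_MASS.** -/
theorem stmtMass (hLip : StmtLip) : StmtMass := by
  intro _ _ Γ _ D ρ Φ μ p hDm hD hFac hμ hflow r hr hr1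
  obtain ⟨-, -, hρc, -, -, B, L, hB0, hL0, hρB, -⟩ := hLip Γ ρ hFac
  have hν := flowMeas0_nuR hμ hρc.measurable hFac.inv hρB
  have hsf := hν.sigmaFinite hD
  have hfin : (volume : Measure ℍ) D ≠ ⊤ := Berry.finite_of_cocompact hD hFac.cpt
  exact ⟨hsf, hν.left, hflow, hν.isFund hD, hν.fd_ne_top hDm hfin,
    box_bound hν hD hDm hρB hr1, fun η hη => box_ui hν hD hDm hρB hr1 η hη⟩

end

end NC

end QE


end
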