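import Mathlib
import Pool.Agent.BWM.C21

/-! Parts: NCV.Der -/

section

/-!
# Derivatives of the coordinates of pairs along the geodesic flow (module NC_DER, helper96)
-/

open MeasureTheory Filter Topology Set
open UpperHalfPlane hiding I
open scoped ContDiff MatrixGroups ENNReal

namespace QE

namespace NC

noncomputable section

namespace Der

/-- the domain of the linear coordinates -/
def Om : Set (ℂ × ℂ) := {q | q.2 ≠ 0 ∧ 0 < (q.1 / q.2).im}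

lemma isOpen_Om : IsOpen Om := by
  have h1 : IsOpen {q : ℂ × ℂ | q.2 ≠ 0} := isOpen_ne_fun continuous_snd continuous_const
  have h2 : ContinuousOn (fun q : ℂ × ℂ => (q.1 / q.2).im) {q : ℂ × ℂ | q.2 ≠ 0} := by
    refine Complex.continuous_im.comp_continuousOn ?_
    exact ContinuousOn.div continuous_fst.continuousOn continuous_snd.continuousOn fun q hq => hq
  have h3 := h2.isOpen_inter_preimage h1 (isOpen_Ioi : IsOpen (Ioi (0 : ℝ)))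
  exact h3

def F0 (f : ℂ → ℝ) (q : ℂ × ℂ) : ℝ := f (q.1 / q.2)

def F1 (f : ℂ → ℝ) (q : ℂ × ℂ) : ℝ := fderiv ℝ f (q.1 / q.2) (1 / q.2 ^ 2)

def F2 (f : ℂ → ℝ) (q : ℂ × ℂ) : ℝ := fderiv ℝ f (q.1 / q.2) (Complex.I / q.2 ^ 2)

lemma isOpen_UH : IsOpen UH := isOpen_lt continuous_const Complex.continuous_im

lemma contDiffAt_f {f : ℂ → ℝ} (hf : ContDiffOn ℝ ∞ f UH) {z : ℂ} (hz : 0 < z.im) :
    ContDiffAt ℝ ∞ f z := hf.contDiffAt (isOpen_UH.mem_nhds hz)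

lemma contDiffAt_df {f : ℂ → ℝ} (hf : ContDiffOn ℝ ∞ f UH) {z : ℂ} (hz : 0 < z.im) :
    ContDiffAt ℝ ∞ (fderiv ℝ f) z :=
  (contDiffAt_f hf hz).fderiv_right (m := ∞) (by simp)

lemma contDiffAt_q {q : ℂ × ℂ} (hq : q.2 ≠ 0) :
    ContDiffAt ℝ ∞ (fun q : ℂ × ℂ => q.1 / q.2) q := by
  have h := (contDiffAt_fst (𝕜 := ℝ) (E := ℂ) (F := ℂ) (n := ∞) (p := q)).mul
    ((contDiffAt_snd (𝕜 := ℝ) (E := ℂ) (F := ℂ) (n := ∞) (p := q)).inv hq)
  have e : (fun q : ℂ × ℂ => q.1 / q.2) = fun q : ℂ × ℂ => q.1 * (q.2)⁻¹ := by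
    ext q; rw [div_eq_mul_inv]
  rw [e]
  exact h

lemma contDiffAt_u {q : ℂ × ℂ} (hq : q.2 ≠ 0) (c : ℂ) :
    ContDiffAt ℝ ∞ (fun q : ℂ × ℂ => c / q.2 ^ 2) q := by
  have h := (contDiffAt_const (𝕜 := ℝ) (E := ℂ × ℂ) (F := ℂ) (n := ∞) (x := q) (c := c)).mul
    (((contDiffAt_snd (𝕜 := ℝ) (E := ℂ) (F := ℂ) (n := ∞) (p := q)).pow 2).inv
      (pow_ne_zero 2 hq))
  have e : (fun q : ℂ × ℂ => c / q.2 ^ 2) = fun q : ℂ × ℂ => c * (q.2 ^ 2)⁻¹ := by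
    ext q; rw [div_eq_mul_inv]
  rw [e]
  exact h

lemma contDiffOn_F0 {f : ℂ → ℝ} (hf : ContDiffOn ℝ ∞ f UH) : ContDiffOn ℝ ∞ (F0 f) Om := by
  intro q hq
  refine ContDiffAt.contDiffWithinAt ?_
  exact ContDiffAt.comp q (contDiffAt_f hf hq.2) (contDiffAt_q hq.1)

lemma contDiffOn_F1 {f : ℂ → ℝ} (hf : ContDiffOn ℝ ∞ f UH) : ContDiffOn ℝ ∞ (F1 f) Om := by
  intro q hq
  refine ContDiffAt.contDiffWithinAt ?_
  exact ContDiffAt.clm_apply (ContDiffAt.comp q (contDiffAt_df hf hq.2) (contDiffAt_q hq.1))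
    (contDiffAt_u hq.1 1)

lemma contDiffOn_F2 {f : ℂ → ℝ} (hf : ContDiffOn ℝ ∞ f UH) : ContDiffOn ℝ ∞ (F2 f) Om := by
  intro q hq
  refine ContDiffAt.contDiffWithinAt ?_
  exact ContDiffAt.clm_apply (ContDiffAt.comp q (contDiffAt_df hf hq.2) (contDiffAt_q hq.1))
    (contDiffAt_u hq.1 Complex.I)

lemma iota_mem (v : SL(2, ℝ)) : iota v ∈ Om := by
  refine ⟨iota_snd_ne v, ?_⟩
  rw [← smul_I_eq]
  exact (v • UpperHalfPlane.I : ℍ).im_pos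

/-! ### derivatives along paths -/

lemma path_z {c : ℝ → ℂ × ℂ} {δ : ℂ × ℂ} {s : ℝ} (hc : HasDerivAt c δ s) (h2 : (c s).2 ≠ 0) :
    HasDerivAt (fun s => (c s).1 / (c s).2) ((δ.1 * (c s).2 - (c s).1 * δ.2) / (c s).2 ^ 2) s := by
  have h1 : HasDerivAt (fun s => (c s).1) δ.1 s :=
    (ContinuousLinearMap.fst ℝ ℂ ℂ).hasFDerivAt.comp_hasDerivAt s hc
  have h3 : HasDerivAt (fun s => (c s).2) δ.2 s :=
    (ContinuousLinearMap.snd ℝ ℂ ℂ).hasFDerivAt.comp_hasDerivAt s hc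
  exact h1.div h3 h2

lemma path_u {c : ℝ → ℂ × ℂ} {δ : ℂ × ℂ} {s : ℝ} (hc : HasDerivAt c δ s) (h2 : (c s).2 ≠ 0)
    (k : ℂ) :
    HasDerivAt (fun s => k / (c s).2 ^ 2) (-(2 * k * δ.2 / (c s).2 ^ 3)) s := by
  have h3 : HasDerivAt (fun s => (c s).2) δ.2 s :=
    (ContinuousLinearMap.snd ℝ ℂ ℂ).hasFDerivAt.comp_hasDerivAt s hc
  have h4 := (hasDerivAt_const s k).div (h3.pow 2) (pow_ne_zero 2 h2)
  have hv : -(2 * k * δ.2 / (c s).2 ^ 3) =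
      (0 * (c s).2 ^ 2 - k * (((2 : ℕ) : ℂ) * (c s).2 ^ (2 - 1) * δ.2)) / ((c s).2 ^ 2) ^ 2 := by
    field_simp
    push_cast
    ring
  rw [hv]
  exact h4

lemma path_F0 {f : ℂ → ℝ} (hf : ContDiffOn ℝ ∞ f UH) {c : ℝ → ℂ × ℂ} {δ : ℂ × ℂ} {s : ℝ}
    (hc : HasDerivAt c δ s) (h2 : c s ∈ Om) :
    HasDerivAt (fun s => F0 f (c s)) (fderiv ℝ f ((c s).1 / (c s).2)
      ((δ.1 * (c s).2 - (c s).1 * δ.2) / (c s).2 ^ 2)) s := by
  have h3 := ((contDiffAt_f hf h2.2).differentiableAt (by simp)).hasFDerivAt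
  exact h3.comp_hasDerivAt s (path_z hc h2.1)

lemma path_F {f : ℂ → ℝ} (hf : ContDiffOn ℝ ∞ f UH) {c : ℝ → ℂ × ℂ} {δ : ℂ × ℂ} {s : ℝ}
    (hc : HasDerivAt c δ s) (h2 : c s ∈ Om) (k : ℂ) :
    HasDerivAt (fun s => fderiv ℝ f ((c s).1 / (c s).2) (k / (c s).2 ^ 2))
      (fderiv ℝ (fderiv ℝ f) ((c s).1 / (c s).2)
        ((δ.1 * (c s).2 - (c s).1 * δ.2) / (c s).2 ^ 2) (k / (c s).2 ^ 2)
      + fderiv ℝ f ((c s).1 / (c s).2) (-(2 * k * δ.2 / (c s).2 ^ 3))) s := by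
  have h3 := ((contDiffAt_df hf h2.2).differentiableAt (by simp)).hasFDerivAt
  have h4 := h3.comp_hasDerivAt s (path_z hc h2.1)
  exact h4.clm_apply (path_u hc h2.1 k)

lemma line (q δ : ℂ × ℂ) : HasDerivAt (fun s : ℝ => q + s • δ) δ 0 := by
  simpa using ((hasDerivAt_id (0 : ℝ)).smul_const δ).const_add q

lemma fderiv_of_path {F : ℂ × ℂ → ℝ} (hF : ContDiffOn ℝ ∞ F Om) {c : ℝ → ℂ × ℂ} {δ : ℂ × ℂ} {s : ℝ}
    (hc : HasDerivAt c δ s) (h2 : c s ∈ Om) :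
    HasDerivAt (fun s => F (c s)) (fderiv ℝ F (c s) δ) s := by
  have h3 := ((hF.contDiffAt (isOpen_Om.mem_nhds h2)).differentiableAt (by simp)).hasFDerivAt
  exact h3.comp_hasDerivAt s hc

lemma fderiv_F0 {f : ℂ → ℝ} (hf : ContDiffOn ℝ ∞ f UH) {q : ℂ × ℂ} (hq : q ∈ Om) (δ : ℂ × ℂ) :
    fderiv ℝ (F0 f) q δ =
      fderiv ℝ f (q.1 / q.2) ((δ.1 * q.2 - q.1 * δ.2) / q.2 ^ 2) := by
  have h1 := fderiv_of_path (contDiffOn_F0 hf) (line q δ) (by simpa using hq)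
  have h2 := path_F0 hf (line q δ) (by simpa using hq)
  simpa using h1.unique h2

lemma fderiv_F1 {f : ℂ → ℝ} (hf : ContDiffOn ℝ ∞ f UH) {q : ℂ × ℂ} (hq : q ∈ Om) (δ : ℂ × ℂ) :
    fderiv ℝ (F1 f) q δ =
      fderiv ℝ (fderiv ℝ f) (q.1 / q.2) ((δ.1 * q.2 - q.1 * δ.2) / q.2 ^ 2) (1 / q.2 ^ 2)
      + fderiv ℝ f (q.1 / q.2) (-(2 * δ.2 / q.2 ^ 3)) := by
  have h1 := fderiv_of_path (contDiffOn_F1 hf) (line q δ) (by simpa using hq)
  have h2 := path_F hf (line q δ) (by simpa using hq) 1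
  have h3 := h1.unique h2
  simpa using h3

lemma fderiv_F2 {f : ℂ → ℝ} (hf : ContDiffOn ℝ ∞ f UH) {q : ℂ × ℂ} (hq : q ∈ Om) (δ : ℂ × ℂ) :
    fderiv ℝ (F2 f) q δ =
      fderiv ℝ (fderiv ℝ f) (q.1 / q.2) ((δ.1 * q.2 - q.1 * δ.2) / q.2 ^ 2)
        (Complex.I / q.2 ^ 2)
      + fderiv ℝ f (q.1 / q.2) (-(2 * Complex.I * δ.2 / q.2 ^ 3)) := by
  have h1 := fderiv_of_path (contDiffOn_F2 hf) (line q δ) (by simpa using hq)
  have h2 := path_F hf (line q δ) (by simpa using hq) Complex.I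
  have h3 := h1.unique h2
  simpa using h3

/-! ### the directions -/

/-- the direction `P` -/
def VP (q : ℂ × ℂ) : ℂ × ℂ :=
  (Complex.I * (starRingEnd ℂ) q.1 / 2, Complex.I * (starRingEnd ℂ) q.2 / 2)

/-- the direction `R` -/
def VR (q : ℂ × ℂ) : ℂ × ℂ := (Complex.I * q.1 / 2, Complex.I * q.2 / 2)

variable {f : ℂ → ℝ} (hf : ContDiffOn ℝ ∞ f UH) (v : SL(2, ℝ))

lemma dz_H : ((Vq (iota v)).1 * (iota v).2 - (iota v).1 * (Vq (iota v)).2) / (iota v).2 ^ 2 =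
    Complex.I / (iota v).2 ^ 2 := by
  congr 1
  have h := iota_det v
  simp only [Vq]
  linear_combination h / 2

lemma dz_P : ((VP (iota v)).1 * (iota v).2 - (iota v).1 * (VP (iota v)).2) / (iota v).2 ^ 2 =
    1 / (iota v).2 ^ 2 := by
  congr 1
  have h := iota_det v
  simp only [VP]
  linear_combination (-Complex.I / 2) * h - Complex.I_sq

lemma dz_R : ((VR (iota v)).1 * (iota v).2 - (iota v).1 * (VR (iota v)).2) / (iota v).2 ^ 2 =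
    0 := by
  simp only [VR]
  rw [div_eq_zero_iff]
  left; ring

lemma dz_S : ((iota v).1 * (iota v).2 - (iota v).1 * (iota v).2) / (iota v).2 ^ 2 = 0 := by
  simp

include hf

lemma F0_H : fderiv ℝ (F0 f) (iota v) (Vq (iota v)) = F2 f (iota v) := by
  rw [fderiv_F0 hf (iota_mem v), dz_H]; rfl

lemma F0_P : fderiv ℝ (F0 f) (iota v) (VP (iota v)) = F1 f (iota v) := by
  rw [fderiv_F0 hf (iota_mem v), dz_P]; rfl

lemma F0_R : fderiv ℝ (F0 f) (iota v) (VR (iota v)) = 0 := by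
  rw [fderiv_F0 hf (iota_mem v), dz_R, map_zero]

lemma F0_S : fderiv ℝ (F0 f) (iota v) (iota v) = 0 := by
  rw [fderiv_F0 hf (iota_mem v), dz_S, map_zero]

lemma F1_R : fderiv ℝ (F1 f) (iota v) (VR (iota v)) = -F2 f (iota v) := by
  rw [fderiv_F1 hf (iota_mem v), dz_R, map_zero, zero_apply, zero_add, F2,
    ← map_neg]
  congr 1
  have h := iota_snd_ne v
  simp only [VR]
  field_simp

lemma F2_R : fderiv ℝ (F2 f) (iota v) (VR (iota v)) = F1 f (iota v) := by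
  rw [fderiv_F2 hf (iota_mem v), dz_R, map_zero, zero_apply, zero_add, F1]
  congr 1
  have h := iota_snd_ne v
  simp only [VR]
  field_simp
  linear_combination -Complex.I_sq

lemma F1_S : fderiv ℝ (F1 f) (iota v) (iota v) = -(2 * F1 f (iota v)) := by
  rw [fderiv_F1 hf (iota_mem v), dz_S, map_zero, zero_apply, zero_add, F1]
  have h := iota_snd_ne v
  have h2 : -(2 * (iota v).2 / (iota v).2 ^ 3) = (-2 : ℝ) • (1 / (iota v).2 ^ 2) := by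
    rw [Complex.real_smul]; push_cast; field_simp
  rw [h2, map_smul, smul_eq_mul]; ring

lemma lap_eq : 1 + fderiv ℝ (F1 f) (iota v) (VP (iota v)) + fderiv ℝ (F2 f) (iota v) (Vq (iota v))
    = 1 + ((v • UpperHalfPlane.I : ℍ) : ℂ).im ^ 2 *
      Laplacian.laplacian f ((v • UpperHalfPlane.I : ℍ) : ℂ) := by
  have h := iota_snd_ne v
  rw [fderiv_F1 hf (iota_mem v), fderiv_F2 hf (iota_mem v), dz_P, dz_H, smul_I_eq]
  set D := fderiv ℝ (fderiv ℝ f) ((iota v).1 / (iota v).2) with hD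
  set E := fderiv ℝ f ((iota v).1 / (iota v).2) with hE
  have e1 : -(2 * (VP (iota v)).2 / (iota v).2 ^ 3) =
      -(-(2 * Complex.I * (Vq (iota v)).2 / (iota v).2 ^ 3)) := by
    simp only [VP, Vq]; field_simp
  rw [e1, map_neg]
  have hlap : Laplacian.laplacian f ((iota v).1 / (iota v).2) = D 1 1 + D Complex.I Complex.I := by
    rw [InnerProductSpace.laplacian_eq_iteratedFDeriv_complexPlane]
    simp only [iteratedFDeriv_two_apply]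
    rfl
  rw [hlap]
  set u : ℂ := 1 / (iota v).2 ^ 2 with hu
  have hI : Complex.I / (iota v).2 ^ 2 = Complex.I * u := by rw [hu]; ring
  have hu1 : u = (u.re : ℝ) • (1 : ℂ) + (u.im : ℝ) • Complex.I := by
    rw [Complex.real_smul, Complex.real_smul]
    apply Complex.ext <;> simp
  have hu2 : Complex.I * u = (-u.im : ℝ) • (1 : ℂ) + (u.re : ℝ) • Complex.I := by
    rw [Complex.real_smul, Complex.real_smul]
    apply Complex.ext <;> simp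
  have hn : ((iota v).1 / (iota v).2).im ^ 2 = u.re ^ 2 + u.im ^ 2 := by
    have h1 := im_smul_I v
    rw [smul_I_eq, Complex.mul_conj] at h1
    have h2 : ((iota v).1 / (iota v).2).im * Complex.normSq (iota v).2 = 1 := by
      exact_mod_cast h1
    have h3 : u.re ^ 2 + u.im ^ 2 = Complex.normSq u := by
      rw [Complex.normSq_apply]; ring
    have h4 : Complex.normSq (iota v).2 ≠ 0 := by
      rw [Ne, Complex.normSq_eq_zero]; exact h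
    rw [h3, hu, map_div₀, map_pow, map_one, eq_div_iff (pow_ne_zero 2 h4), ← mul_pow, h2, one_pow]
  rw [hn, hI]
  have t1 : D u u = u.re ^ 2 * D 1 1 + u.re * u.im * D 1 Complex.I + u.im * u.re * D Complex.I 1
      + u.im ^ 2 * D Complex.I Complex.I := by
    conv_lhs => rw [hu1]
    simp only [map_add, map_smul, add_apply, smul_apply,
      smul_eq_mul]
    ring
  have t2 : D (Complex.I * u) (Complex.I * u) = u.im ^ 2 * D 1 1 - u.re * u.im * D 1 Complex.I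
      - u.im * u.re * D Complex.I 1 + u.re ^ 2 * D Complex.I Complex.I := by
    conv_lhs => rw [hu2]
    simp only [map_add, map_smul, add_apply, smul_apply,
      smul_eq_mul]
    ring
  rw [t1, t2]
  ring

/-! ### the uniform Taylor estimate -/

omit hf in
lemma taylor {F : ℂ × ℂ → ℝ} (hF : ContDiffOn ℝ ∞ F Om) {S : Set (ℂ × ℂ)} (hS : IsCompact S)
    (hSO : S ⊆ Om) : ∃ C r : ℝ, 0 ≤ C ∧ 0 < r ∧ ∀ q ∈ S, ∀ q', ‖q' - q‖ ≤ r →
      |F q' - F q - fderiv ℝ F q (q' - q)| ≤ C * ‖q' - q‖ ^ 2 := by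
  obtain ⟨r, hr, hrO⟩ := hS.exists_cthickening_subset_open isOpen_Om hSO
  have hc : IsCompact (Metric.cthickening r S) := hS.cthickening
  have hd : ∀ q ∈ Om, ContDiffAt ℝ ∞ (fderiv ℝ F) q := fun q hq =>
    (hF.contDiffAt (isOpen_Om.mem_nhds hq)).fderiv_right (m := ∞) (by simp)
  have hdd : ContinuousOn (fderiv ℝ (fderiv ℝ F)) (Metric.cthickening r S) := fun q hq =>
    (((hd q (hrO hq)).fderiv_right (m := ∞) (by simp)).continuousAt).continuousWithinAt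
  have hdn : ContinuousOn (fun x => ‖fderiv ℝ (fderiv ℝ F) x‖) (Metric.cthickening r S) :=
    (continuous_norm (E := (ℂ × ℂ) →L[ℝ] (ℂ × ℂ) →L[ℝ] ℝ)).comp_continuousOn hdd
  obtain ⟨C, hC'⟩ := hc.bddAbove_image hdn
  have hC : ∀ x ∈ Metric.cthickening r S, ‖fderiv ℝ (fderiv ℝ F) x‖ ≤ C := fun x hx =>
    hC' ⟨x, hx, rfl⟩
  refine ⟨max C 0, r, le_max_right _ _, hr, fun q hq q' hq' => ?_⟩
  set ρ := ‖q' - q‖ with hρ
  have hball : Metric.closedBall q ρ ⊆ Metric.cthickening r S := fun x hx =>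
    Metric.mem_cthickening_of_dist_le x q r S hq ((Metric.mem_closedBall.1 hx).trans hq')
  have hconv : Convex ℝ (Metric.closedBall q ρ) := convex_closedBall q ρ
  have hqm : q ∈ Metric.closedBall q ρ := Metric.mem_closedBall_self (norm_nonneg _)
  have hqm' : q' ∈ Metric.closedBall q ρ := by
    rw [Metric.mem_closedBall, dist_eq_norm]
  have h1 : ∀ x ∈ Metric.closedBall q ρ, ‖fderiv ℝ F x - fderiv ℝ F q‖ ≤ max C 0 * ρ := by
    intro x hx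
    have h2 := hconv.norm_image_sub_le_of_norm_fderiv_le (𝕜 := ℝ) (f := fderiv ℝ F)
      (C := max C 0) (fun y hy => (hd y (hrO (hball hy))).differentiableAt (by simp))
      (fun y hy => (hC y (hball hy)).trans (le_max_left _ _)) hqm hx
    refine h2.trans ?_
    refine mul_le_mul_of_nonneg_left ?_ (le_max_right _ _)
    rwa [Metric.mem_closedBall, dist_eq_norm] at hx
  have h3 := hconv.norm_image_sub_le_of_norm_fderiv_le' (𝕜 := ℝ) (f := F) (φ := fderiv ℝ F q)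
    (C := max C 0 * ρ)
    (fun y hy => (hF.contDiffAt (isOpen_Om.mem_nhds (hrO (hball hy)))).differentiableAt (by simp))
    h1 hqm hqm'
  rw [Real.norm_eq_abs] at h3
  refine h3.trans (le_of_eq ?_)
  rw [← hρ]; ring

/-! ### the linear coordinates of `w = v g` -/

omit hf in
lemma sub_iota (w : SL(2, ℝ)) : iota w - iota v =
    (((v⁻¹ * w) 0 0 + (v⁻¹ * w) 1 1 - 2) / 2) • iota v + ((v⁻¹ * w) 0 0 - (v⁻¹ * w) 1 1) • Vq (iota v)
      + ((v⁻¹ * w) 0 1 + (v⁻¹ * w) 1 0) • VP (iota v)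
      + ((v⁻¹ * w) 1 0 - (v⁻¹ * w) 0 1) • VR (iota v) := by
  obtain ⟨g, rfl⟩ : ∃ g, w = v * g := ⟨v⁻¹ * w, by group⟩
  have e : v⁻¹ * (v * g) = g := by group
  rw [e]
  have h : ∀ i j : Fin 2, (v * g) i j = v i 0 * g 0 j + v i 1 * g 1 j := fun i j => by
    have : (v * g) i j = (v.1 * g.1) i j := rfl
    rw [this]
    simp [Matrix.mul_apply, Fin.sum_univ_two]
  unfold iota Vq VP VR
  simp only [h]
  refine Prod.ext (Complex.ext ?_ ?_) (Complex.ext ?_ ?_)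
  all_goals
    simp
    ring

/-! ### paths in the group -/

omit hf in
lemma iota_path {p : ℝ → SL(2, ℝ)} {M : Matrix (Fin 2) (Fin 2) ℝ} {s : ℝ}
    (h : ∀ i j, HasDerivAt (fun s => p s i j) (M i j) s) :
    HasDerivAt (fun s => iota (p s)) ((⟨M 0 1, M 0 0⟩, ⟨M 1 1, M 1 0⟩) : ℂ × ℂ) s := by
  have hc : ∀ i j k l : Fin 2, HasDerivAt (fun s => (⟨p s i j, p s k l⟩ : ℂ)) ⟨M i j, M k l⟩ s := by
    intro i j k l
    have h1 := (h i j).ofReal_comp.add ((h k l).ofReal_comp.mul_const Complex.I)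
    have e : (fun s => (⟨p s i j, p s k l⟩ : ℂ)) =
        fun s => ((p s i j : ℝ) : ℂ) + ((p s k l : ℝ) : ℂ) * Complex.I := by
      ext s; apply Complex.ext <;> simp
    have e2 : (⟨M i j, M k l⟩ : ℂ) = ((M i j : ℝ) : ℂ) + ((M k l : ℝ) : ℂ) * Complex.I := by
      apply Complex.ext <;> simp
    rw [e, e2]
    exact h1
  exact (hc 0 1 0 0).prodMk (hc 1 1 1 0)

omit hf in
lemma mul_entry (v g : SL(2, ℝ)) (i j : Fin 2) : (v * g) i j = v i 0 * g 0 j + v i 1 * g 1 j := by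
  have : (v * g) i j = (v.1 * g.1) i j := rfl
  rw [this]
  simp [Matrix.mul_apply, Fin.sum_univ_two]

/-- the flow in the direction `P` -/
def bS (s : ℝ) : SL(2, ℝ) :=
  ⟨!![Real.cosh (s / 2), Real.sinh (s / 2); Real.sinh (s / 2), Real.cosh (s / 2)], by
    rw [Matrix.det_fin_two_of, ← sq, ← sq, Real.cosh_sq_sub_sinh_sq]⟩

omit hf in
lemma path_aS : HasDerivAt (fun s => iota (v * aS s)) (Vq (iota v)) 0 := by
  have h1 : HasDerivAt (fun s : ℝ => Real.exp (s / 2)) (1 / 2) 0 := by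
    have := ((hasDerivAt_id (0 : ℝ)).div_const 2).exp
    simpa using this
  have h2 : HasDerivAt (fun s : ℝ => Real.exp (-(s / 2))) (-(1 / 2)) 0 := by
    have := (((hasDerivAt_id (0 : ℝ)).div_const 2).fun_neg).exp
    simpa using this
  have h := iota_path (p := fun s => v * aS s) (s := 0)
    (M := !![v 0 0 / 2, -(v 0 1 / 2); v 1 0 / 2, -(v 1 1 / 2)]) (by
      intro i j
      have e : ∀ s, (v * aS s) i j = v i 0 * (aS s) 0 j + v i 1 * (aS s) 1 j :=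
        fun s => mul_entry v (aS s) i j
      simp only [e]
      fin_cases i <;> fin_cases j
      · simpa [aS, div_eq_mul_inv] using h1.const_mul (v 0 0)
      · simpa [aS, div_eq_mul_inv] using h2.const_mul (v 0 1)
      · simpa [aS, div_eq_mul_inv] using h1.const_mul (v 1 0)
      · simpa [aS, div_eq_mul_inv] using h2.const_mul (v 1 1))
  convert h using 1
  unfold Vq iota
  refine Prod.ext (Complex.ext ?_ ?_) (Complex.ext ?_ ?_)
  all_goals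
    simp
    try ring

omit hf in
lemma path_bS : HasDerivAt (fun s => iota (v * bS s)) (VP (iota v)) 0 := by
  have h1 : HasDerivAt (fun s : ℝ => Real.cosh (s / 2)) 0 0 := by
    have := ((hasDerivAt_id (0 : ℝ)).div_const 2).cosh
    simpa using this
  have h2 : HasDerivAt (fun s : ℝ => Real.sinh (s / 2)) (1 / 2) 0 := by
    have := ((hasDerivAt_id (0 : ℝ)).div_const 2).sinh
    simpa using this
  have h := iota_path (p := fun s => v * bS s) (s := 0)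
    (M := !![v 0 1 / 2, v 0 0 / 2; v 1 1 / 2, v 1 0 / 2]) (by
      intro i j
      have e : ∀ s, (v * bS s) i j = v i 0 * (bS s) 0 j + v i 1 * (bS s) 1 j :=
        fun s => mul_entry v (bS s) i j
      simp only [e]
      fin_cases i <;> fin_cases j
      · simpa [bS, div_eq_mul_inv] using (h1.const_mul (v 0 0)).fun_add (h2.const_mul (v 0 1))
      · simpa [bS, div_eq_mul_inv] using (h2.const_mul (v 0 0)).fun_add (h1.const_mul (v 0 1))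
      · simpa [bS, div_eq_mul_inv] using (h1.const_mul (v 1 0)).fun_add (h2.const_mul (v 1 1))
      · simpa [bS, div_eq_mul_inv] using (h2.const_mul (v 1 0)).fun_add (h1.const_mul (v 1 1)))
  convert h using 1
  unfold VP iota
  refine Prod.ext (Complex.ext ?_ ?_) (Complex.ext ?_ ?_)
  all_goals
    simp
    try ring

/-! ### the functions on the frames -/

omit hf in
lemma ro_eq (ρ : ℍ → ℝ) : F0 (ro ρ) (iota v) = ρ (v • UpperHalfPlane.I) := by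
  unfold F0 ro
  rw [← smul_I_eq, ofComplex_apply]

omit hf in
lemma Pr_eq (ρ : ℍ → ℝ) : F1 (ro ρ) (iota v) = Pr ρ v := by
  unfold F1 Pr
  rw [← smul_I_eq, ← iota_snd]

omit hf in
lemma Hr_eq (ρ : ℍ → ℝ) : F2 (ro ρ) (iota v) = Hr ρ v := by
  unfold F2 Hr
  rw [← smul_I_eq, ← iota_snd]

/-- `H P ρ` -/
def HP (ρ : ℍ → ℝ) (v : SL(2, ℝ)) : ℝ := fderiv ℝ (F1 (ro ρ)) (iota v) (Vq (iota v))

/-- `P P ρ` -/
def PP (ρ : ℍ → ℝ) (v : SL(2, ℝ)) : ℝ := fderiv ℝ (F1 (ro ρ)) (iota v) (VP (iota v))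

/-- `H H ρ` -/
def HH (ρ : ℍ → ℝ) (v : SL(2, ℝ)) : ℝ := fderiv ℝ (F2 (ro ρ)) (iota v) (Vq (iota v))

omit hf in
lemma HP_inv {ρ : ℍ → ℝ} (hρ : ContDiffOn ℝ ∞ (ro ρ) UH) {γ : SL(2, ℝ)}
    (hγ : ∀ g, Pr ρ (γ * g) = Pr ρ g) : HP ρ (γ * v) = HP ρ v := by
  have h1 := fderiv_of_path (contDiffOn_F1 hρ) (path_aS (γ * v)) (iota_mem _)
  have h2 := fderiv_of_path (contDiffOn_F1 hρ) (path_aS v) (iota_mem _)
  have e : (fun s => F1 (ro ρ) (iota (γ * v * aS s))) = fun s => F1 (ro ρ) (iota (v * aS s)) := by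
    ext s
    rw [Pr_eq, Pr_eq, mul_assoc, hγ]
  rw [e] at h1
  have h3 := h1.unique h2
  have e0 : aS 0 = 1 := by
    ext i j; fin_cases i <;> fin_cases j <;> simp [aS]
  rw [e0, mul_one, mul_one] at h3
  exact h3

omit hf in
lemma PP_inv {ρ : ℍ → ℝ} (hρ : ContDiffOn ℝ ∞ (ro ρ) UH) {γ : SL(2, ℝ)}
    (hγ : ∀ g, Pr ρ (γ * g) = Pr ρ g) : PP ρ (γ * v) = PP ρ v := by
  have h1 := fderiv_of_path (contDiffOn_F1 hρ) (path_bS (γ * v)) (iota_mem _)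
  have h2 := fderiv_of_path (contDiffOn_F1 hρ) (path_bS v) (iota_mem _)
  have e : (fun s => F1 (ro ρ) (iota (γ * v * bS s))) = fun s => F1 (ro ρ) (iota (v * bS s)) := by
    ext s
    rw [Pr_eq, Pr_eq, mul_assoc, hγ]
  rw [e] at h1
  have h3 := h1.unique h2
  have e0 : bS 0 = 1 := by
    ext i j; fin_cases i <;> fin_cases j <;> simp [bS]
  rw [e0, mul_one, mul_one] at h3
  exact h3

/-! ### compactness -/

omit hf in
lemma frames_compact {K : Set ℍ} (hK : IsCompact K) : ∃ S : Set (ℂ × ℂ), IsCompact S ∧ S ⊆ Om ∧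
    ∀ v : SL(2, ℝ), v • UpperHalfPlane.I ∈ K → iota v ∈ S := by
  obtain ⟨M, hM⟩ := hK.exists_bound_of_continuousOn (f := fun z : ℍ => (z : ℂ))
    UpperHalfPlane.continuous_coe.continuousOn
  obtain ⟨m, hm⟩ := hK.exists_bound_of_continuousOn (f := fun z : ℍ => (z.im)⁻¹)
    ((UpperHalfPlane.continuous_im.inv₀ fun z => z.im_pos.ne').continuousOn)
  refine ⟨Metric.closedBall 0 ((1 + |M|) * (1 + |m|)) ∩
    {q : ℂ × ℂ | q.1 * (starRingEnd ℂ) q.2 - (starRingEnd ℂ) q.1 * q.2 = 2 * Complex.I}, ?_, ?_, ?_⟩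
  · refine (isCompact_closedBall _ _).inter_right (isClosed_eq ?_ continuous_const)
    fun_prop
  · rintro q ⟨-, hq⟩
    simp only [Set.mem_ofPred_eq] at hq
    have h2 : q.2 ≠ 0 := by
      intro h
      rw [h] at hq
      simp at hq
    refine ⟨h2, ?_⟩
    have h3 : (q.1 / q.2).im * Complex.normSq q.2 = 1 := by
      have h4 : (q.1 / q.2) * (Complex.normSq q.2 : ℂ) = q.1 * (starRingEnd ℂ) q.2 := by
        rw [← Complex.mul_conj]; field_simp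
      have h5 := congrArg Complex.im h4
      rw [Complex.im_mul_ofReal] at h5
      have h6 := congrArg Complex.im hq
      simp only [Complex.sub_im, Complex.mul_im, Complex.conj_im, Complex.conj_re, Complex.I_im,
        Complex.I_re, Complex.re_ofNat, Complex.im_ofNat] at h6
      rw [h5]
      simp only [Complex.mul_im, Complex.conj_im, Complex.conj_re]
      linarith only [h6]
    have h7 : 0 < Complex.normSq q.2 := Complex.normSq_pos.2 h2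
    by_contra hneg
    push Not at hneg
    linarith only [h3, mul_nonneg (neg_nonneg.2 hneg) h7.le]
  · intro v hv
    refine ⟨?_, iota_det v⟩
    rw [mem_closedBall_zero_iff]
    have h1 := hM _ hv
    have h2 := hm _ hv
    set z : ℍ := v • UpperHalfPlane.I with hz
    have h3 : z.im * ‖(iota v).2‖ ^ 2 = 1 := by
      have := im_smul_I v
      rw [Complex.mul_conj, Complex.normSq_eq_norm_sq] at this
      exact_mod_cast this
    have h4 : ‖(iota v).2‖ ^ 2 = (z.im)⁻¹ := by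
      field_simp [z.im_pos.ne']
      linarith
    have h5 : ‖(iota v).2‖ ≤ 1 + |m| := by
      have h6 : ‖(iota v).2‖ ^ 2 ≤ |m| := by
        rw [h4]
        exact (le_abs_self _).trans (h2.trans (le_abs_self m))
      linarith only [h6, norm_nonneg (iota v).2, sq_nonneg (‖(iota v).2‖ - 1)]
    have h6 : (iota v).1 = (z : ℂ) * (iota v).2 := by
      rw [hz, smul_I_eq, div_mul_cancel₀ _ (iota_snd_ne v)]
    have h7 : ‖(iota v).1‖ ≤ |M| * (1 + |m|) := by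
      rw [h6, norm_mul]
      exact mul_le_mul (h1.trans (le_abs_self M)) h5 (norm_nonneg _) (abs_nonneg _)
    rw [Prod.norm_def]
    refine max_le (h7.trans ?_) (h5.trans ?_)
    · linarith only [abs_nonneg m]
    · nlinarith only [abs_nonneg M, abs_nonneg m]

omit hf in
lemma norm_Vq (q : ℂ × ℂ) : ‖Vq q‖ ≤ ‖q‖ := by
  rw [Prod.norm_def, Prod.norm_def]
  simp only [Vq, norm_neg, norm_div, RCLike.norm_conj, RCLike.norm_ofNat]
  have h1 := norm_nonneg q.1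
  have h2 := norm_nonneg q.2
  exact max_le_max (by linarith) (by linarith)

omit hf in
lemma norm_VP (q : ℂ × ℂ) : ‖VP q‖ ≤ ‖q‖ := by
  rw [Prod.norm_def, Prod.norm_def]
  simp only [VP, norm_mul, Complex.norm_I, one_mul, norm_div, RCLike.norm_conj, RCLike.norm_ofNat]
  have h1 := norm_nonneg q.1
  have h2 := norm_nonneg q.2
  exact max_le_max (by linarith) (by linarith)

omit hf in
lemma norm_VR (q : ℂ × ℂ) : ‖VR q‖ ≤ ‖q‖ := by
  rw [Prod.norm_def, Prod.norm_def]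
  simp only [VR, norm_mul, Complex.norm_I, one_mul, norm_div, RCLike.norm_ofNat]
  have h1 := norm_nonneg q.1
  have h2 := norm_nonneg q.2
  exact max_le_max (by linarith) (by linarith)

omit hf in
lemma entries (g : SL(2, ℝ)) : |g 0 0 - g 1 1| ≤ nn g ∧ |g 0 1 + g 1 0| ≤ nn g ∧
    |g 1 0 - g 0 1| ≤ nn g ∧ |g 0 0 + g 1 1 - 2| ≤ nn g ^ 2 ∧ |g 0 0 + g 1 1 - 2| ≤ nn g := by
  have h := g.det_coe
  rw [Matrix.det_fin_two] at h
  unfold nn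
  have a := abs_nonneg (g 0 0 - 1)
  have b := abs_nonneg (g 0 1)
  have c := abs_nonneg (g 1 0)
  have d := abs_nonneg (g 1 1 - 1)
  refine ⟨?_, ?_, ?_, ?_, ?_⟩
  · have : g 0 0 - g 1 1 = (g 0 0 - 1) - (g 1 1 - 1) := by ring
    rw [this]
    have := abs_sub (g 0 0 - 1) (g 1 1 - 1)
    linarith
  · have := abs_add_le (g 0 1) (g 1 0)
    linarith
  · have := abs_sub (g 1 0) (g 0 1)
    linarith
  · have e : g 0 0 + g 1 1 - 2 = g 0 1 * g 1 0 - (g 0 0 - 1) * (g 1 1 - 1) := by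
      linear_combination h
    rw [e]
    have h1 := abs_sub (g 0 1 * g 1 0) ((g 0 0 - 1) * (g 1 1 - 1))
    rw [abs_mul, abs_mul] at h1
    refine h1.trans ?_
    nlinarith [mul_nonneg a b, mul_nonneg a c, mul_nonneg a d, mul_nonneg b c, mul_nonneg b d,
      mul_nonneg c d, sq_nonneg |g 0 0 - 1|, sq_nonneg |g 0 1|, sq_nonneg |g 1 0|,
      sq_nonneg |g 1 1 - 1|]
  · have : g 0 0 + g 1 1 - 2 = (g 0 0 - 1) + (g 1 1 - 1) := by ring
    rw [this]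
    have := abs_add_le (g 0 0 - 1) (g 1 1 - 1)
    linarith

omit hf in
lemma nn_nonneg (g : SL(2, ℝ)) : 0 ≤ nn g := by unfold nn; positivity

omit hf in
lemma norm_sub_iota (v w : SL(2, ℝ)) : ‖iota w - iota v‖ ≤ 4 * ‖iota v‖ * dd v w := by
  rw [sub_iota]
  unfold dd
  obtain ⟨h1, h2, h3, -, h4⟩ := entries (v⁻¹ * w)
  have h0 := nn_nonneg (v⁻¹ * w)
  have hq := norm_nonneg (iota v)
  refine (norm_add_le _ _).trans ?_
  have t4 : ‖((v⁻¹ * w) 1 0 - (v⁻¹ * w) 0 1) • VR (iota v)‖ ≤ nn (v⁻¹ * w) * ‖iota v‖ := by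
    rw [norm_smul, Real.norm_eq_abs]
    exact mul_le_mul h3 (norm_VR _) (norm_nonneg _) h0
  have t3 : ‖((v⁻¹ * w) 0 1 + (v⁻¹ * w) 1 0) • VP (iota v)‖ ≤ nn (v⁻¹ * w) * ‖iota v‖ := by
    rw [norm_smul, Real.norm_eq_abs]
    exact mul_le_mul h2 (norm_VP _) (norm_nonneg _) h0
  have t2 : ‖((v⁻¹ * w) 0 0 - (v⁻¹ * w) 1 1) • Vq (iota v)‖ ≤ nn (v⁻¹ * w) * ‖iota v‖ := by
    rw [norm_smul, Real.norm_eq_abs]
    exact mul_le_mul h1 (norm_Vq _) (norm_nonneg _) h0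
  have t1 : ‖(((v⁻¹ * w) 0 0 + (v⁻¹ * w) 1 1 - 2) / 2) • iota v‖ ≤ nn (v⁻¹ * w) * ‖iota v‖ := by
    rw [norm_smul, Real.norm_eq_abs, abs_div, abs_two]
    refine mul_le_mul_of_nonneg_right ?_ hq
    linarith only [h4, h0]
  have h5 := norm_add_le ((((v⁻¹ * w) 0 0 + (v⁻¹ * w) 1 1 - 2) / 2) • iota v
    + ((v⁻¹ * w) 0 0 - (v⁻¹ * w) 1 1) • Vq (iota v)) (((v⁻¹ * w) 0 1 + (v⁻¹ * w) 1 0) • VP (iota v))
  have h6 := norm_add_le ((((v⁻¹ * w) 0 0 + (v⁻¹ * w) 1 1 - 2) / 2) • iota v)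
    (((v⁻¹ * w) 0 0 - (v⁻¹ * w) 1 1) • Vq (iota v))
  linarith only [t4, t3, t2, t1, h5, h6]

omit hf in
lemma taylorK {F : ℂ × ℂ → ℝ} (hF : ContDiffOn ℝ ∞ F Om) {K : Set ℍ} (hK : IsCompact K) :
    ∃ C r : ℝ, 0 ≤ C ∧ 0 < r ∧ ∀ v w : SL(2, ℝ), v • UpperHalfPlane.I ∈ K → dd v w ≤ r →
      |F (iota w) - F (iota v) - (((v⁻¹ * w) 0 0 + (v⁻¹ * w) 1 1 - 2) / 2 *
          fderiv ℝ F (iota v) (iota v)
        + ((v⁻¹ * w) 0 0 - (v⁻¹ * w) 1 1) * fderiv ℝ F (iota v) (Vq (iota v))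
        + ((v⁻¹ * w) 0 1 + (v⁻¹ * w) 1 0) * fderiv ℝ F (iota v) (VP (iota v))
        + ((v⁻¹ * w) 1 0 - (v⁻¹ * w) 0 1) * fderiv ℝ F (iota v) (VR (iota v)))|
      ≤ C * dd v w ^ 2 := by
  obtain ⟨S, hS, hSO, hSm⟩ := frames_compact hK
  obtain ⟨C, r, hC, hr, h⟩ := taylor hF hS hSO
  obtain ⟨R, hR⟩ := hS.isBounded.exists_norm_le
  refine ⟨C * (4 * |R|) ^ 2, r / (1 + 4 * |R|), by (clear * - hC; positivity), by positivity, fun v w hv hd => ?_⟩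
  have h1 := norm_sub_iota v w
  have h2 := (hR _ (hSm v hv)).trans (le_abs_self R)
  have h0 : 0 ≤ dd v w := nn_nonneg _
  have h3 : ‖iota w - iota v‖ ≤ 4 * |R| * dd v w :=
    h1.trans (mul_le_mul_of_nonneg_right (by linarith only [h2]) h0)
  have h4 : ‖iota w - iota v‖ ≤ r := by
    rw [le_div_iff₀ (by positivity)] at hd
    refine h3.trans (le_trans ?_ hd)
    linarith only [h0]
  have h5 := h _ (hSm v hv) _ h4
  have e : fderiv ℝ F (iota v) (iota w - iota v) =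
      ((v⁻¹ * w) 0 0 + (v⁻¹ * w) 1 1 - 2) / 2 * fderiv ℝ F (iota v) (iota v)
        + ((v⁻¹ * w) 0 0 - (v⁻¹ * w) 1 1) * fderiv ℝ F (iota v) (Vq (iota v))
        + ((v⁻¹ * w) 0 1 + (v⁻¹ * w) 1 0) * fderiv ℝ F (iota v) (VP (iota v))
        + ((v⁻¹ * w) 1 0 - (v⁻¹ * w) 0 1) * fderiv ℝ F (iota v) (VR (iota v)) := by
    rw [sub_iota]
    simp only [map_add, map_smul, smul_eq_mul]
  rw [← e]
  refine h5.trans ?_
  rw [mul_assoc, ← mul_pow]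
  exact mul_le_mul_of_nonneg_left (pow_le_pow_left₀ (norm_nonneg _) h3 2) hC

omit hf in
lemma dd_left (γ v w : SL(2, ℝ)) : (γ * v)⁻¹ * (γ * w) = v⁻¹ * w := by group

omit hf in
lemma taylor_rho {Γ : Subgroup SL(2, ℝ)} {ρ : ℍ → ℝ} (hF : Fac Γ ρ)
    (hP : ∀ γ ∈ Γ, ∀ g, Pr ρ (γ * g) = Pr ρ g) (hH : ∀ γ ∈ Γ, ∀ g, Hr ρ (γ * g) = Hr ρ g) :
    ∃ C r : ℝ, 0 ≤ C ∧ 0 < r ∧ ∀ v w : SL(2, ℝ), dd v w ≤ r →
      |ρ (w • UpperHalfPlane.I) - ρ (v • UpperHalfPlane.I) -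
        (((v⁻¹ * w) 0 0 - (v⁻¹ * w) 1 1) * Hr ρ v + ((v⁻¹ * w) 0 1 + (v⁻¹ * w) 1 0) * Pr ρ v)|
      ≤ C * dd v w ^ 2 := by
  obtain ⟨K, hK, hKc⟩ := hF.cpt
  obtain ⟨C, r, hC, hr, h⟩ := taylorK (contDiffOn_F0 hF.smooth) hK
  refine ⟨C, r, hC, hr, fun v w hd => ?_⟩
  obtain ⟨γ, hγ, hz⟩ := hKc (v • UpperHalfPlane.I)
  have e1 : dd (γ * v) (γ * w) = dd v w := by unfold dd; rw [dd_left]
  have h1 := h (γ * v) (γ * w) (by rwa [mul_smul]) (by rwa [e1])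
  rw [e1, dd_left, ro_eq, ro_eq, mul_smul, mul_smul, hF.inv γ hγ, hF.inv γ hγ,
    F0_H hF.smooth, F0_P hF.smooth, F0_R hF.smooth, F0_S hF.smooth, Pr_eq, Hr_eq, hP γ hγ,
    hH γ hγ] at h1
  convert h1 using 2
  ring

omit hf in
lemma taylor_Pr {Γ : Subgroup SL(2, ℝ)} {ρ : ℍ → ℝ} (hF : Fac Γ ρ)
    (hP : ∀ γ ∈ Γ, ∀ g, Pr ρ (γ * g) = Pr ρ g) (hH : ∀ γ ∈ Γ, ∀ g, Hr ρ (γ * g) = Hr ρ g)
    {B : ℝ} (hB : ∀ g, |Pr ρ g| ≤ B) :
    ∃ C r : ℝ, 0 ≤ C ∧ 0 < r ∧ ∀ v w : SL(2, ℝ), dd v w ≤ r →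
      |Pr ρ w - Pr ρ v - (((v⁻¹ * w) 0 0 - (v⁻¹ * w) 1 1) * HP ρ v
        + ((v⁻¹ * w) 0 1 + (v⁻¹ * w) 1 0) * PP ρ v
        - ((v⁻¹ * w) 1 0 - (v⁻¹ * w) 0 1) * Hr ρ v)|
      ≤ C * dd v w ^ 2 := by
  obtain ⟨K, hK, hKc⟩ := hF.cpt
  obtain ⟨C, r, hC, hr, h⟩ := taylorK (contDiffOn_F1 hF.smooth) hK
  refine ⟨C + |B|, r, by positivity, hr, fun v w hd => ?_⟩
  obtain ⟨γ, hγ, hz⟩ := hKc (v • UpperHalfPlane.I)
  have e1 : dd (γ * v) (γ * w) = dd v w := by unfold dd; rw [dd_left]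
  have h1 := h (γ * v) (γ * w) (by rwa [mul_smul]) (by rwa [e1])
  have e2 : fderiv ℝ (F1 (ro ρ)) (iota (γ * v)) (Vq (iota (γ * v))) = HP ρ v :=
    HP_inv v hF.smooth (hP γ hγ)
  have e3 : fderiv ℝ (F1 (ro ρ)) (iota (γ * v)) (VP (iota (γ * v))) = PP ρ v :=
    PP_inv v hF.smooth (hP γ hγ)
  rw [e1, dd_left, Pr_eq, Pr_eq, hP γ hγ, hP γ hγ, e2, e3, F1_R hF.smooth, F1_S hF.smooth,
    Pr_eq, Hr_eq, hP γ hγ, hH γ hγ] at h1
  have h2 := (entries (v⁻¹ * w)).2.2.2.1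
  have h3 : |((v⁻¹ * w) 0 0 + (v⁻¹ * w) 1 1 - 2) * Pr ρ v| ≤ dd v w ^ 2 * |B| := by
    rw [abs_mul]
    exact mul_le_mul h2 ((hB v).trans (le_abs_self B)) (abs_nonneg _) (sq_nonneg _)
  set g := v⁻¹ * w with hg
  have h4 : Pr ρ w - Pr ρ v - ((g 0 0 - g 1 1) * HP ρ v + (g 0 1 + g 1 0) * PP ρ v
      - (g 1 0 - g 0 1) * Hr ρ v) =
      (Pr ρ w - Pr ρ v - ((g 0 0 + g 1 1 - 2) / 2 * -(2 * Pr ρ v)
        + (g 0 0 - g 1 1) * HP ρ v + (g 0 1 + g 1 0) * PP ρ v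
        + (g 1 0 - g 0 1) * -Hr ρ v)) - (g 0 0 + g 1 1 - 2) * Pr ρ v := by ring
  rw [h4]
  refine (abs_sub _ _).trans ?_
  have h5 : (C + |B|) * dd v w ^ 2 = C * dd v w ^ 2 + dd v w ^ 2 * |B| := by ring
  rw [h5]
  exact add_le_add h1 h3

/-! ### derivatives along the flow -/

section flow

variable {ρ : ℍ → ℝ} {Φ : ℝ → SL(2, ℝ) → SL(2, ℝ)}

omit hf in
lemma flow_mat (hΦ : GFlow ρ Φ) (v : SL(2, ℝ)) (i : Fin 2) :
    HasDerivAt (fun s => Φ s v i 0) (Real.exp (-ρ (v • UpperHalfPlane.I)) *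
      (v i 0 / 2 + v i 1 * (Pr ρ v / 2))) 0 ∧
    HasDerivAt (fun s => Φ s v i 1) (Real.exp (-ρ (v • UpperHalfPlane.I)) *
      (-(v i 0 * (Pr ρ v / 2)) - v i 1 / 2)) 0 := by
  have h0 := hΦ.deriv v 0 i 0
  have h1 := hΦ.deriv v 0 i 1
  rw [hΦ.zero] at h0 h1
  constructor
  · convert h0 using 1
    simp [AA, Matrix.mul_apply, Fin.sum_univ_two]
    ring
  · convert h1 using 1
    simp [AA, Matrix.mul_apply, Fin.sum_univ_two]
    ring

omit hf in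
lemma flow_iota (hΦ : GFlow ρ Φ) (v : SL(2, ℝ)) :
    HasDerivAt (fun s => iota (Φ s v)) (Real.exp (-ρ (v • UpperHalfPlane.I)) •
      (Vq (iota v) + Pr ρ v • VR (iota v))) 0 := by
  have h := iota_path (p := fun s => Φ s v) (s := 0)
    (M := !![Real.exp (-ρ (v • UpperHalfPlane.I)) * (v 0 0 / 2 + v 0 1 * (Pr ρ v / 2)),
      Real.exp (-ρ (v • UpperHalfPlane.I)) * (-(v 0 0 * (Pr ρ v / 2)) - v 0 1 / 2);
      Real.exp (-ρ (v • UpperHalfPlane.I)) * (v 1 0 / 2 + v 1 1 * (Pr ρ v / 2)),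
      Real.exp (-ρ (v • UpperHalfPlane.I)) * (-(v 1 0 * (Pr ρ v / 2)) - v 1 1 / 2)]) (by
      intro i j
      fin_cases i <;> fin_cases j
      · exact (flow_mat hΦ v 0).1
      · exact (flow_mat hΦ v 0).2
      · exact (flow_mat hΦ v 1).1
      · exact (flow_mat hΦ v 1).2)
  convert h using 1
  generalize Real.exp (-ρ (v • UpperHalfPlane.I)) = α
  unfold Vq VR iota
  refine Prod.ext (Complex.ext ?_ ?_) (Complex.ext ?_ ?_)
  all_goals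
    simp
    try ring

omit hf in
lemma flow_F (hΦ : GFlow ρ Φ) {F : ℂ × ℂ → ℝ} (hF : ContDiffOn ℝ ∞ F Om) (v : SL(2, ℝ)) :
    HasDerivAt (fun s => F (iota (Φ s v))) (Real.exp (-ρ (v • UpperHalfPlane.I)) *
      (fderiv ℝ F (iota v) (Vq (iota v)) + Pr ρ v * fderiv ℝ F (iota v) (VR (iota v)))) 0 := by
  have h := fderiv_of_path hF (flow_iota hΦ v) (iota_mem _)
  rw [hΦ.zero] at h
  simpa only [map_add, map_smul, smul_eq_mul] using h

omit hf in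
lemma flow_rho (hΦ : GFlow ρ Φ) (hρ : ContDiffOn ℝ ∞ (ro ρ) UH) (v : SL(2, ℝ)) :
    HasDerivAt (fun s => ρ (Φ s v • UpperHalfPlane.I))
      (Real.exp (-ρ (v • UpperHalfPlane.I)) * Hr ρ v) 0 := by
  have h := flow_F hΦ (contDiffOn_F0 hρ) v
  rw [F0_H hρ, F0_R hρ, Hr_eq, mul_zero, add_zero] at h
  simpa only [ro_eq] using h

omit hf in
lemma flow_Pr (hΦ : GFlow ρ Φ) (hρ : ContDiffOn ℝ ∞ (ro ρ) UH) (v : SL(2, ℝ)) :
    HasDerivAt (fun s => Pr ρ (Φ s v))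
      (Real.exp (-ρ (v • UpperHalfPlane.I)) * (HP ρ v - Pr ρ v * Hr ρ v)) 0 := by
  have h := flow_F hΦ (contDiffOn_F1 hρ) v
  rw [F1_R hρ, Hr_eq] at h
  simp only [Pr_eq] at h
  convert h using 1
  unfold HP
  ring

omit hf in
lemma flow_Hr (hΦ : GFlow ρ Φ) (hρ : ContDiffOn ℝ ∞ (ro ρ) UH) (v : SL(2, ℝ)) :
    HasDerivAt (fun s => Hr ρ (Φ s v))
      (Real.exp (-ρ (v • UpperHalfPlane.I)) * (HH ρ v + Pr ρ v ^ 2)) 0 := by
  have h := flow_F hΦ (contDiffOn_F2 hρ) v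
  rw [F2_R hρ, Pr_eq] at h
  simp only [Hr_eq] at h
  convert h using 1
  unfold HH
  ring

omit hf in
lemma inv_entries (v w : SL(2, ℝ)) :
    (v⁻¹ * w) 0 0 = v 1 1 * w 0 0 - v 0 1 * w 1 0 ∧
    (v⁻¹ * w) 0 1 = v 1 1 * w 0 1 - v 0 1 * w 1 1 ∧
    (v⁻¹ * w) 1 0 = v 0 0 * w 1 0 - v 1 0 * w 0 0 ∧
    (v⁻¹ * w) 1 1 = v 0 0 * w 1 1 - v 1 0 * w 0 1 := by
  have h : v⁻¹ = ⟨!![v.1 1 1, -v.1 0 1; -v.1 1 0, v.1 0 0], by
      have := v.2
      rw [Matrix.det_fin_two] at this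
      rw [Matrix.det_fin_two_of]; linarith only [this]⟩ := Matrix.SpecialLinearGroup.SL2_inv_expl v
  have e : ∀ i j, (v⁻¹ * w) i j = v⁻¹ i 0 * w 0 j + v⁻¹ i 1 * w 1 j := fun i j => mul_entry _ _ i j
  simp only [e]
  rw [h]
  refine ⟨?_, ?_, ?_, ?_⟩ <;> simp <;> ring

omit hf in
lemma flow_entries (hΦ : GFlow ρ Φ) (v w : SL(2, ℝ)) :
    HasDerivAt (fun s => ((Φ s v)⁻¹ * Φ s w) 0 0)
      (Real.exp (-ρ (w • UpperHalfPlane.I)) / 2 * ((v⁻¹ * w) 0 0 + (v⁻¹ * w) 0 1 * Pr ρ w)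
        - Real.exp (-ρ (v • UpperHalfPlane.I)) / 2 * ((v⁻¹ * w) 0 0 - Pr ρ v * (v⁻¹ * w) 1 0)) 0 ∧
    HasDerivAt (fun s => ((Φ s v)⁻¹ * Φ s w) 0 1)
      (Real.exp (-ρ (w • UpperHalfPlane.I)) / 2 * (-((v⁻¹ * w) 0 0 * Pr ρ w) - (v⁻¹ * w) 0 1)
        - Real.exp (-ρ (v • UpperHalfPlane.I)) / 2 * ((v⁻¹ * w) 0 1 - Pr ρ v * (v⁻¹ * w) 1 1)) 0 ∧
    HasDerivAt (fun s => ((Φ s v)⁻¹ * Φ s w) 1 0)
      (Real.exp (-ρ (w • UpperHalfPlane.I)) / 2 * ((v⁻¹ * w) 1 0 + (v⁻¹ * w) 1 1 * Pr ρ w)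
        - Real.exp (-ρ (v • UpperHalfPlane.I)) / 2 * (Pr ρ v * (v⁻¹ * w) 0 0 - (v⁻¹ * w) 1 0)) 0 ∧
    HasDerivAt (fun s => ((Φ s v)⁻¹ * Φ s w) 1 1)
      (Real.exp (-ρ (w • UpperHalfPlane.I)) / 2 * (-((v⁻¹ * w) 1 0 * Pr ρ w) - (v⁻¹ * w) 1 1)
        - Real.exp (-ρ (v • UpperHalfPlane.I)) / 2 * (Pr ρ v * (v⁻¹ * w) 0 1 - (v⁻¹ * w) 1 1)) 0 := by
  obtain ⟨a1, a2, a3, a4⟩ := inv_entries v w
  have v0 := flow_mat hΦ v 0
  have v1 := flow_mat hΦ v 1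
  have w0 := flow_mat hΦ w 0
  have w1 := flow_mat hΦ w 1
  have z1 := hΦ.zero v
  have z2 := hΦ.zero w
  have e1 : ∀ s, ((Φ s v)⁻¹ * Φ s w) 0 0 = _ := fun s => (inv_entries (Φ s v) (Φ s w)).1
  have e2 : ∀ s, ((Φ s v)⁻¹ * Φ s w) 0 1 = _ := fun s => (inv_entries (Φ s v) (Φ s w)).2.1
  have e3 : ∀ s, ((Φ s v)⁻¹ * Φ s w) 1 0 = _ := fun s => (inv_entries (Φ s v) (Φ s w)).2.2.1
  have e4 : ∀ s, ((Φ s v)⁻¹ * Φ s w) 1 1 = _ := fun s => (inv_entries (Φ s v) (Φ s w)).2.2.2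
  simp only [e1, e2, e3, e4]
  rw [a1, a2, a3, a4]
  refine ⟨?_, ?_, ?_, ?_⟩
  · have h := (v1.2.fun_mul w0.1).fun_sub (v0.2.fun_mul w1.1)
    rw [z1, z2] at h
    exact h.congr_deriv (by ring)
  · have h := (v1.2.fun_mul w0.2).fun_sub (v0.2.fun_mul w1.2)
    rw [z1, z2] at h
    exact h.congr_deriv (by ring)
  · have h := (v0.1.fun_mul w1.1).fun_sub (v1.1.fun_mul w0.1)
    rw [z1, z2] at h
    exact h.congr_deriv (by ring)
  · have h := (v0.1.fun_mul w1.2).fun_sub (v1.1.fun_mul w0.2)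
    rw [z1, z2] at h
    exact h.congr_deriv (by ring)

omit hf in
lemma flow_entries_w (hΦ : GFlow ρ Φ) (v w : SL(2, ℝ)) :
    HasDerivAt (fun s => (v⁻¹ * Φ s w) 0 0)
      (Real.exp (-ρ (w • UpperHalfPlane.I)) / 2 * ((v⁻¹ * w) 0 0 + (v⁻¹ * w) 0 1 * Pr ρ w)) 0 ∧
    HasDerivAt (fun s => (v⁻¹ * Φ s w) 0 1)
      (Real.exp (-ρ (w • UpperHalfPlane.I)) / 2 * (-((v⁻¹ * w) 0 0 * Pr ρ w) - (v⁻¹ * w) 0 1)) 0 ∧
    HasDerivAt (fun s => (v⁻¹ * Φ s w) 1 0)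
      (Real.exp (-ρ (w • UpperHalfPlane.I)) / 2 * ((v⁻¹ * w) 1 0 + (v⁻¹ * w) 1 1 * Pr ρ w)) 0 ∧
    HasDerivAt (fun s => (v⁻¹ * Φ s w) 1 1)
      (Real.exp (-ρ (w • UpperHalfPlane.I)) / 2 * (-((v⁻¹ * w) 1 0 * Pr ρ w) - (v⁻¹ * w) 1 1)) 0 := by
  obtain ⟨a1, a2, a3, a4⟩ := inv_entries v w
  have w0 := flow_mat hΦ w 0
  have w1 := flow_mat hΦ w 1
  have e1 : ∀ s, (v⁻¹ * Φ s w) 0 0 = _ := fun s => (inv_entries v (Φ s w)).1
  have e2 : ∀ s, (v⁻¹ * Φ s w) 0 1 = _ := fun s => (inv_entries v (Φ s w)).2.1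
  have e3 : ∀ s, (v⁻¹ * Φ s w) 1 0 = _ := fun s => (inv_entries v (Φ s w)).2.2.1
  have e4 : ∀ s, (v⁻¹ * Φ s w) 1 1 = _ := fun s => (inv_entries v (Φ s w)).2.2.2
  simp only [e1, e2, e3, e4]
  rw [a1, a2, a3, a4]
  refine ⟨?_, ?_, ?_, ?_⟩
  · have h := (w0.1.const_mul (v 1 1)).fun_sub (w1.1.const_mul (v 0 1))
    exact h.congr_deriv (by ring)
  · have h := (w0.2.const_mul (v 1 1)).fun_sub (w1.2.const_mul (v 0 1))
    exact h.congr_deriv (by ring)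
  · have h := (w1.1.const_mul (v 0 0)).fun_sub (w0.1.const_mul (v 1 0))
    exact h.congr_deriv (by ring)
  · have h := (w1.2.const_mul (v 0 0)).fun_sub (w0.2.const_mul (v 1 0))
    exact h.congr_deriv (by ring)

end flow

/-! ### estimates -/

section est

open Asymptotics

variable {l : Filter (SL(2, ℝ) × SL(2, ℝ))}

omit hf in
lemma o11 {f g d : SL(2, ℝ) × SL(2, ℝ) → ℝ} (h1 : f =O[l] d) (h2 : g =O[l] d) :
    (fun p => f p * g p) =O[l] fun p => d p ^ 2 := by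
  simpa [sq] using h1.mul h2

omit hf in
lemma o0 {f g d : SL(2, ℝ) × SL(2, ℝ) → ℝ} (h1 : f =O[l] fun _ => (1 : ℝ)) (h2 : g =O[l] d) :
    (fun p => f p * g p) =O[l] d := by
  simpa using h1.mul h2

end est

end Der

open Asymptotics in
/-- **the derivatives of the coordinates of pairs** -/
theorem stmtDer (hLip : StmtLip) : StmtDer := by
  intro Γ ρ Φ hF hΦ
  obtain ⟨hinv, -, -, -, -, B, L, hB0, hL0, bρ, bP, bH, lρ, lP, -⟩ := hLip Γ ρ hF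
  have hP : ∀ γ ∈ Γ, ∀ g, Pr ρ (γ * g) = Pr ρ g := fun γ hγ g => (hinv γ (hF.inv γ hγ) g).1
  have hH : ∀ γ ∈ Γ, ∀ g, Hr ρ (γ * g) = Hr ρ g := fun γ hγ g => (hinv γ (hF.inv γ hγ) g).2
  obtain ⟨C1, r1, hC1, hr1, t1⟩ := Der.taylor_rho hF hP hH
  obtain ⟨C2, r2, hC2, hr2, t2⟩ := Der.taylor_Pr hF hP hH bP
  set r : ℝ := min 1 (min r1 r2) with hr
  have hr0 : 0 < r := lt_min one_pos (lt_min hr1 hr2)
  set S : Set (SL(2, ℝ) × SL(2, ℝ)) := {p | dd p.1 p.2 ≤ r} with hS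
  -- the functions
  let δ : SL(2, ℝ) × SL(2, ℝ) → ℝ := fun p => dd p.1 p.2
  let τ : SL(2, ℝ) × SL(2, ℝ) → ℝ := fun p => (p.1⁻¹ * p.2) 0 0 - (p.1⁻¹ * p.2) 1 1
  let x : SL(2, ℝ) × SL(2, ℝ) → ℝ := fun p => (p.1⁻¹ * p.2) 0 1 + (p.1⁻¹ * p.2) 1 0
  let θ : SL(2, ℝ) × SL(2, ℝ) → ℝ := fun p => (p.1⁻¹ * p.2) 1 0 - (p.1⁻¹ * p.2) 0 1
  let σ : SL(2, ℝ) × SL(2, ℝ) → ℝ := fun p => (p.1⁻¹ * p.2) 0 0 + (p.1⁻¹ * p.2) 1 1 - 2
  let E : SL(2, ℝ) × SL(2, ℝ) → ℝ := fun p =>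
    Real.exp (ρ (p.1 • UpperHalfPlane.I) - ρ (p.2 • UpperHalfPlane.I)) - 1
  let P : SL(2, ℝ) × SL(2, ℝ) → ℝ := fun p => Pr ρ p.1
  let P' : SL(2, ℝ) × SL(2, ℝ) → ℝ := fun p => Pr ρ p.2
  let H : SL(2, ℝ) × SL(2, ℝ) → ℝ := fun p => Hr ρ p.1
  let π : SL(2, ℝ) × SL(2, ℝ) → ℝ := fun p => Pr ρ p.2 - Pr ρ p.1
  let e1 : SL(2, ℝ) × SL(2, ℝ) → ℝ := fun p => E p + (τ p * H p + x p * P p)
  let e2 : SL(2, ℝ) × SL(2, ℝ) → ℝ := fun p => π p - (τ p * Der.HP ρ p.1 + x p * Der.PP ρ p.1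
    - θ p * H p)
  have hδ0 : ∀ p, 0 ≤ δ p := fun p => Der.nn_nonneg _
  have hτ : τ =O[𝓟 S] δ := isBigO_principal.2 ⟨1, fun p _ => by
    rw [one_mul, Real.norm_eq_abs, Real.norm_eq_abs]
    exact (Der.entries _).1.trans (le_abs_self _)⟩
  have hx : x =O[𝓟 S] δ := isBigO_principal.2 ⟨1, fun p _ => by
    rw [one_mul, Real.norm_eq_abs, Real.norm_eq_abs]
    exact (Der.entries _).2.1.trans (le_abs_self _)⟩
  have hθ : θ =O[𝓟 S] δ := isBigO_principal.2 ⟨1, fun p _ => by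
    rw [one_mul, Real.norm_eq_abs, Real.norm_eq_abs]
    exact (Der.entries _).2.2.1.trans (le_abs_self _)⟩
  have hσ : σ =O[𝓟 S] fun p => δ p ^ 2 := isBigO_principal.2 ⟨1, fun p _ => by
    rw [one_mul, Real.norm_eq_abs, Real.norm_eq_abs]
    exact (Der.entries _).2.2.2.1.trans (le_abs_self _)⟩
  have hσ1 : σ =O[𝓟 S] δ := isBigO_principal.2 ⟨1, fun p _ => by
    rw [one_mul, Real.norm_eq_abs, Real.norm_eq_abs]
    exact (Der.entries _).2.2.2.2.trans (le_abs_self _)⟩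
  have hPb : P =O[𝓟 S] fun _ => (1 : ℝ) := isBigO_principal.2 ⟨B, fun p _ => by
    rw [norm_one, mul_one]; exact bP _⟩
  have hPb' : P' =O[𝓟 S] fun _ => (1 : ℝ) := isBigO_principal.2 ⟨B, fun p _ => by
    rw [norm_one, mul_one]; exact bP _⟩
  have hHb : H =O[𝓟 S] fun _ => (1 : ℝ) := isBigO_principal.2 ⟨B, fun p _ => by
    rw [norm_one, mul_one]; exact bH _⟩
  have hπ : π =O[𝓟 S] δ := isBigO_principal.2 ⟨L, fun p _ => by
    rw [Real.norm_eq_abs, Real.norm_eq_abs, abs_of_nonneg (hδ0 p)]; exact lP _ _⟩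
  have hδ1 : δ =O[𝓟 S] fun _ => (1 : ℝ) := isBigO_principal.2 ⟨1, fun p hp => by
    rw [norm_one, mul_one, Real.norm_eq_abs, abs_of_nonneg (hδ0 p)]
    exact (hp : dd p.1 p.2 ≤ r).trans (min_le_left _ _)⟩
  -- the exponential
  have hexp : ∀ s : ℝ, |s| ≤ 2 * B → |Real.exp s - 1| ≤ Real.exp (2 * B) * |s| ∧
      |Real.exp s - 1 - s| ≤ Real.exp (2 * B) * s ^ 2 := by
    intro s hs
    have a1 := Real.add_one_le_exp s
    have a2 : Real.exp s - 1 ≤ s * Real.exp s := by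
      have h1 := Real.add_one_le_exp (-s)
      have h2 := mul_le_mul_of_nonneg_right h1 (Real.exp_pos s).le
      rw [← Real.exp_add, neg_add_cancel, Real.exp_zero] at h2
      linarith
    have a3 : Real.exp s ≤ Real.exp (2 * B) := Real.exp_le_exp.2 ((le_abs_self s).trans hs)
    have a4 : (1 : ℝ) ≤ Real.exp (2 * B) := Real.one_le_exp (by linarith)
    have a5 : |Real.exp s - 1| ≤ Real.exp (2 * B) * |s| := by
      rcases le_total 0 s with h | h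
      · rw [abs_of_nonneg h, abs_of_nonneg (by linarith)]
        nlinarith only [a2, a3, h]
      · have h6 : Real.exp s ≤ 1 := Real.exp_le_one_iff.2 h
        rw [abs_of_nonpos h, abs_of_nonpos (by linarith)]
        nlinarith only [a1, a4, h]
    refine ⟨a5, ?_⟩
    rw [abs_of_nonneg (by linarith)]
    have a6 : Real.exp s - 1 - s ≤ s * (Real.exp s - 1) := by linarith
    refine a6.trans ((le_abs_self _).trans ?_)
    rw [abs_mul, ← sq_abs s]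
    linarith only [mul_le_mul_of_nonneg_left a5 (abs_nonneg s)]
  have hEs : ∀ p : SL(2, ℝ) × SL(2, ℝ),
      |ρ (p.1 • UpperHalfPlane.I) - ρ (p.2 • UpperHalfPlane.I)| ≤ 2 * B ∧
      |ρ (p.1 • UpperHalfPlane.I) - ρ (p.2 • UpperHalfPlane.I)| ≤ L * δ p := fun p => by
    constructor
    · have h1 := bρ (p.1 • UpperHalfPlane.I)
      have h2 := bρ (p.2 • UpperHalfPlane.I)
      have h3 := abs_sub (ρ (p.1 • UpperHalfPlane.I)) (ρ (p.2 • UpperHalfPlane.I))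
      linarith
    · rw [abs_sub_comm]; exact lρ _ _
  have hE : E =O[𝓟 S] δ := isBigO_principal.2 ⟨Real.exp (2 * B) * L, fun p _ => by
    rw [Real.norm_eq_abs, Real.norm_eq_abs, abs_of_nonneg (hδ0 p)]
    refine (hexp _ (hEs p).1).1.trans ?_
    rw [mul_assoc]
    exact mul_le_mul_of_nonneg_left (hEs p).2 (Real.exp_pos _).le⟩
  have he1 : e1 =O[𝓟 S] fun p => δ p ^ 2 := isBigO_principal.2
    ⟨Real.exp (2 * B) * L ^ 2 + C1, fun p hp => by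
    have h1 := (hexp _ (hEs p).1).2
    have h2 := t1 p.1 p.2 ((hp : dd p.1 p.2 ≤ r).trans ((min_le_right _ _).trans (min_le_left _ _)))
    rw [Real.norm_eq_abs, Real.norm_eq_abs, abs_of_nonneg (sq_nonneg (δ p)), add_mul]
    have h3 : e1 p = (Real.exp (ρ (p.1 • UpperHalfPlane.I) - ρ (p.2 • UpperHalfPlane.I)) - 1
        - (ρ (p.1 • UpperHalfPlane.I) - ρ (p.2 • UpperHalfPlane.I)))
        - (ρ (p.2 • UpperHalfPlane.I) - ρ (p.1 • UpperHalfPlane.I) - (τ p * H p + x p * P p)) := by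
      show E p + (τ p * H p + x p * P p) = _
      show (Real.exp (ρ (p.1 • UpperHalfPlane.I) - ρ (p.2 • UpperHalfPlane.I)) - 1)
        + (τ p * H p + x p * P p) = _
      ring
    rw [h3]
    refine (abs_sub _ _).trans (add_le_add (h1.trans ?_) h2)
    rw [mul_assoc, ← mul_pow]
    refine mul_le_mul_of_nonneg_left ?_ (Real.exp_pos _).le
    exact sq_le_sq' (by linarith [(abs_le.1 (hEs p).2).1]) ((abs_le.1 (hEs p).2).2)⟩
  have he2 : e2 =O[𝓟 S] fun p => δ p ^ 2 := isBigO_principal.2 ⟨C2, fun p hp => by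
    have h2 := t2 p.1 p.2 ((hp : dd p.1 p.2 ≤ r).trans ((min_le_right _ _).trans (min_le_right _ _)))
    rw [Real.norm_eq_abs, Real.norm_eq_abs, abs_of_nonneg (sq_nonneg (δ p))]
    exact h2⟩
  -- bounded functions
  let α : SL(2, ℝ) × SL(2, ℝ) → ℝ := fun p => Real.exp (-ρ (p.1 • UpperHalfPlane.I))
  let β : SL(2, ℝ) × SL(2, ℝ) → ℝ := fun p => Real.exp (-ρ (p.2 • UpperHalfPlane.I))
  have hα : α =O[𝓟 S] fun _ => (1 : ℝ) := isBigO_principal.2 ⟨Real.exp B, fun p _ => by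
    rw [norm_one, mul_one, Real.norm_eq_abs, abs_of_pos (Real.exp_pos _)]
    exact Real.exp_le_exp.2 (by linarith [(abs_le.1 (bρ (p.1 • UpperHalfPlane.I))).1])⟩
  have hβ : β =O[𝓟 S] fun _ => (1 : ℝ) := isBigO_principal.2 ⟨Real.exp B, fun p _ => by
    rw [norm_one, mul_one, Real.norm_eq_abs, abs_of_pos (Real.exp_pos _)]
    exact Real.exp_le_exp.2 (by linarith [(abs_le.1 (bρ (p.2 • UpperHalfPlane.I))).1])⟩
  have h1 : (fun _ : SL(2, ℝ) × SL(2, ℝ) => (1 : ℝ)) =O[𝓟 S] fun _ => (1 : ℝ) :=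
    isBigO_refl _ _
  have hE1 : (fun p => E p + 1) =O[𝓟 S] fun _ => (1 : ℝ) := (hE.trans hδ1).add h1
  have hσ2 : (fun p => σ p + 2) =O[𝓟 S] fun _ => (1 : ℝ) :=
    (hσ1.trans hδ1).add (isBigO_const_const (2 : ℝ) one_ne_zero _)
  have hT : (fun p => θ p - P' p * τ p) =O[𝓟 S] δ := hθ.sub (Der.o0 hPb' hτ)
  have hU : (fun p => P' p * E p + π p) =O[𝓟 S] δ := (Der.o0 hPb' hE).add hπ
  have hET : (fun p => E p * (θ p - P' p * τ p)) =O[𝓟 S] fun p => δ p ^ 2 := Der.o11 hE hT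
  have hτπ : (fun p => τ p * π p) =O[𝓟 S] fun p => δ p ^ 2 := Der.o11 hτ hπ
  have hEσ : (fun p => E p * σ p) =O[𝓟 S] fun p => δ p ^ 2 := Der.o11 hE hσ1
  have hxU : (fun p => x p * (P' p * E p + π p)) =O[𝓟 S] fun p => δ p ^ 2 := Der.o11 hx hU
  have k1 : (fun p => (1 / 2) * (E p * (θ p - P' p * τ p)) - (1 / 2) * (τ p * π p))
      =O[𝓟 S] fun p => δ p ^ 2 :=
    (hET.const_mul_left _).sub (hτπ.const_mul_left _)
  have k2 : (fun p => α p * ((1 / 2) * (x p * E p) + (1 / 2) * ((P' p * (E p + 1) - P p) * σ p)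
      + E p * π p - (1 / 2) * (P p * (E p * σ p)) - (1 / 2) * (P p * (x p * (P' p * E p + π p)))
      + (1 / 2) * (H p * (E p * (θ p - P' p * τ p))) - (1 / 2) * (H p * (τ p * π p)) + e2 p))
      =O[𝓟 S] fun p => δ p ^ 2 := by
    refine Der.o0 hα ?_
    refine (((((((IsBigO.const_mul_left (Der.o11 hx hE) _).add
      (IsBigO.const_mul_left (Der.o0 ((Der.o0 hPb' hE1).sub hPb) hσ) _)).add
      (Der.o11 hE hπ)).sub (IsBigO.const_mul_left (Der.o0 hPb hEσ) _)).sub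
      (IsBigO.const_mul_left (Der.o0 hPb hxU) _)).add
      (IsBigO.const_mul_left (Der.o0 hHb hET) _)).sub
      (IsBigO.const_mul_left (Der.o0 hHb hτπ) _)).add he2
  have k3 : (fun p => e1 p + (1 / 2) * (E p * σ p) + (1 / 2) * (x p * (P' p * E p + π p)))
      =O[𝓟 S] fun p => δ p ^ 2 :=
    (he1.add (hEσ.const_mul_left _)).add (hxU.const_mul_left _)
  have k4 : (fun p => (1 / 2) * ((E p + 1) * (θ p - P' p * τ p))) =O[𝓟 S] δ :=
    IsBigO.const_mul_left (Der.o0 hE1 hT) _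
  have k5 : (fun p => β p * ((1 / 2) * (x p + (σ p + 2) * π p - P p * (P' p * x p)
      + H p * (θ p - P' p * τ p)))) =O[𝓟 S] δ := by
    refine Der.o0 hβ (IsBigO.const_mul_left ?_ _)
    exact ((hx.add (Der.o0 hσ2 hπ)).sub (Der.o0 hPb (Der.o0 hPb' hx))).add (Der.o0 hHb hT)
  have k6 : (fun p => E p + (1 / 2) * ((E p + 1) * (σ p + P' p * x p))) =O[𝓟 S] δ :=
    hE.add (IsBigO.const_mul_left (Der.o0 hE1 (hσ1.add (Der.o0 hPb' hx))) _)
  obtain ⟨c1, hc1⟩ := isBigO_principal.1 k1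
  obtain ⟨c2, hc2⟩ := isBigO_principal.1 k2
  obtain ⟨c3, hc3⟩ := isBigO_principal.1 k3
  obtain ⟨c4, hc4⟩ := isBigO_principal.1 k4
  obtain ⟨c5, hc5⟩ := isBigO_principal.1 k5
  obtain ⟨c6, hc6⟩ := isBigO_principal.1 k6
  set c : ℝ := 1 + |c1| + |c2| + |c3| + |c4| + |c5| + |c6| with hc
  have p1 := abs_nonneg c1
  have p2 := abs_nonneg c2
  have p3 := abs_nonneg c3
  have p4 := abs_nonneg c4
  have p5 := abs_nonneg c5
  have p6 := abs_nonneg c6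
  have wk2 : ∀ {ci R : ℝ} (p : SL(2, ℝ) × SL(2, ℝ)), ‖R‖ ≤ ci * ‖δ p ^ 2‖ → |ci| ≤ c →
      |R| ≤ c * dd p.1 p.2 ^ 2 := by
    intro ci R p h h'
    rw [Real.norm_eq_abs, Real.norm_eq_abs, abs_of_nonneg (sq_nonneg (δ p))] at h
    exact h.trans (mul_le_mul_of_nonneg_right ((le_abs_self ci).trans h') (sq_nonneg _))
  have wk1 : ∀ {ci R : ℝ} (p : SL(2, ℝ) × SL(2, ℝ)), ‖R‖ ≤ ci * ‖δ p‖ → |ci| ≤ c →
      |R| ≤ c * dd p.1 p.2 := by
    intro ci R p h h'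
    rw [Real.norm_eq_abs, Real.norm_eq_abs, abs_of_nonneg (hδ0 p)] at h
    exact h.trans (mul_le_mul_of_nonneg_right ((le_abs_self ci).trans h') (hδ0 p))
  -- the exponentials
  have aα : ∀ p, Real.exp (ρ (p.1 • UpperHalfPlane.I)) * α p = 1 := fun p => by
    show Real.exp (ρ (p.1 • UpperHalfPlane.I)) * Real.exp (-ρ (p.1 • UpperHalfPlane.I)) = 1
    rw [← Real.exp_add, add_neg_cancel, Real.exp_zero]
  have aβ : ∀ p, Real.exp (ρ (p.1 • UpperHalfPlane.I)) * β p = E p + 1 := fun p => by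
    show Real.exp (ρ (p.1 • UpperHalfPlane.I)) * Real.exp (-ρ (p.2 • UpperHalfPlane.I)) =
      Real.exp (ρ (p.1 • UpperHalfPlane.I) - ρ (p.2 • UpperHalfPlane.I)) - 1 + 1
    rw [← Real.exp_add, sub_add_cancel, sub_eq_add_neg]
  have αβ : ∀ p, β p = α p * (E p + 1) := fun p => by
    rw [← aβ p, ← mul_assoc, mul_comm (α p), aα p, one_mul]
  refine ⟨c, r, by rw [hc]; linarith, hr0, ⟨?_, ?_, ?_, ?_, ?_, ?_⟩⟩
  · intro v w hd
    obtain ⟨d00, d01, d10, d11⟩ := Der.flow_entries hΦ v w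
    have dρ := Der.flow_rho hΦ hF.smooth v
    have h := dρ.exp.fun_mul (d01.fun_add d10)
    rw [hΦ.zero, hΦ.zero] at h
    refine ⟨_, h, ?_⟩
    have h2 := wk2 (v, w) (hc1 (v, w) hd) (by rw [hc]; linarith)
    convert h2 using 2
    have A : Real.exp (ρ (v • UpperHalfPlane.I)) * Real.exp (-ρ (v • UpperHalfPlane.I)) = 1 :=
      aα (v, w)
    have Bq : Real.exp (ρ (v • UpperHalfPlane.I)) * Real.exp (-ρ (w • UpperHalfPlane.I)) =
      Real.exp (ρ (v • UpperHalfPlane.I) - ρ (w • UpperHalfPlane.I)) - 1 + 1 := aβ (v, w)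
    simp only [E, P', π, τ, θ, yy]
    linear_combination (Hr ρ v * ((v⁻¹ * w) 0 1 + (v⁻¹ * w) 1 0) +
      (((v⁻¹ * w) 1 0 - (v⁻¹ * w) 0 1) - Pr ρ v * ((v⁻¹ * w) 0 0 - (v⁻¹ * w) 1 1)) / 2) * A +
      (((v⁻¹ * w) 1 0 - (v⁻¹ * w) 0 1) - Pr ρ w * ((v⁻¹ * w) 0 0 - (v⁻¹ * w) 1 1)) / 2 * Bq
  · intro v w hd
    obtain ⟨d00, d01, d10, d11⟩ := Der.flow_entries hΦ v w
    have dP := Der.flow_Pr hΦ hF.smooth v
    have dH := Der.flow_Hr hΦ hF.smooth v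
    have h := ((d10.fun_sub d01).fun_sub ((d00.fun_sub d11).fun_mul dP)).fun_add
      ((d01.fun_add d10).fun_mul dH)
    rw [hΦ.zero, hΦ.zero] at h
    refine ⟨_, h, ?_⟩
    have h2 := wk2 (v, w) (hc2 (v, w) hd) (by rw [hc]; linarith)
    convert h2 using 2
    have A : Real.exp (ρ (v • UpperHalfPlane.I)) * Real.exp (-ρ (v • UpperHalfPlane.I)) = 1 :=
      aα (v, w)
    have Bq : Real.exp (-ρ (w • UpperHalfPlane.I)) = Real.exp (-ρ (v • UpperHalfPlane.I)) *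
      (Real.exp (ρ (v • UpperHalfPlane.I) - ρ (w • UpperHalfPlane.I)) - 1 + 1) := αβ (v, w)
    have hlap : lapR ρ (v • UpperHalfPlane.I) = 1 + Der.PP ρ v + Der.HH ρ v :=
      (Der.lap_eq hF.smooth v).symm
    have he : Real.exp (-(2 * ρ (v • UpperHalfPlane.I))) =
        Real.exp (-ρ (v • UpperHalfPlane.I)) ^ 2 := by
      rw [← Real.exp_nat_mul]; congr 1; push_cast; ring
    simp only [E, P, P', H, π, τ, x, θ, σ, α, e2, kap, xx, hlap, he]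
    rw [Bq]
    linear_combination (-(Real.exp (-ρ (v • UpperHalfPlane.I)) * (1 + Der.PP ρ v + Der.HH ρ v) *
      ((v⁻¹ * w) 0 1 + (v⁻¹ * w) 1 0))) * A
  · intro v w hd
    obtain ⟨d00, d01, d10, d11⟩ := Der.flow_entries hΦ v w
    have dρ := Der.flow_rho hΦ hF.smooth v
    have h := dρ.exp.fun_mul (d00.fun_sub d11)
    rw [hΦ.zero, hΦ.zero] at h
    refine ⟨_, h, ?_⟩
    have h2 := wk2 (v, w) (hc3 (v, w) hd) (by rw [hc]; linarith)
    convert h2 using 2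
    have A : Real.exp (ρ (v • UpperHalfPlane.I)) * Real.exp (-ρ (v • UpperHalfPlane.I)) = 1 :=
      aα (v, w)
    have Bq : Real.exp (ρ (v • UpperHalfPlane.I)) * Real.exp (-ρ (w • UpperHalfPlane.I)) =
      Real.exp (ρ (v • UpperHalfPlane.I) - ρ (w • UpperHalfPlane.I)) - 1 + 1 := aβ (v, w)
    simp only [E, P, P', H, π, τ, x, σ, e1]
    linear_combination (Hr ρ v * ((v⁻¹ * w) 0 0 - (v⁻¹ * w) 1 1) -
      (((v⁻¹ * w) 0 0 + (v⁻¹ * w) 1 1) - Pr ρ v * ((v⁻¹ * w) 0 1 + (v⁻¹ * w) 1 0)) / 2) * A +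
      (((v⁻¹ * w) 0 0 + (v⁻¹ * w) 1 1) + Pr ρ w * ((v⁻¹ * w) 0 1 + (v⁻¹ * w) 1 0)) / 2 * Bq
  · intro v w hd
    obtain ⟨d00, d01, d10, d11⟩ := Der.flow_entries_w hΦ v w
    have h := (d01.fun_add d10).const_mul (Real.exp (ρ (v • UpperHalfPlane.I)))
    refine ⟨_, h, ?_⟩
    have h2 := wk1 (v, w) (hc4 (v, w) hd) (by rw [hc]; linarith)
    convert h2 using 2
    have Bq : Real.exp (ρ (v • UpperHalfPlane.I)) * Real.exp (-ρ (w • UpperHalfPlane.I)) =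
      Real.exp (ρ (v • UpperHalfPlane.I) - ρ (w • UpperHalfPlane.I)) - 1 + 1 := aβ (v, w)
    simp only [E, P', τ, θ]
    linear_combination
      (((v⁻¹ * w) 1 0 - (v⁻¹ * w) 0 1) - Pr ρ w * ((v⁻¹ * w) 0 0 - (v⁻¹ * w) 1 1)) / 2 * Bq
  · intro v w hd
    obtain ⟨d00, d01, d10, d11⟩ := Der.flow_entries_w hΦ v w
    have h := ((d10.fun_sub d01).fun_sub ((d00.fun_sub d11).mul_const (Pr ρ v))).fun_add
      ((d01.fun_add d10).mul_const (Hr ρ v))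
    refine ⟨_, h, ?_⟩
    have h2 := wk1 (v, w) (hc5 (v, w) hd) (by rw [hc]; linarith)
    convert h2 using 2
    simp only [P, P', H, π, τ, x, θ, σ, β]
    ring
  · intro v w hd
    obtain ⟨d00, d01, d10, d11⟩ := Der.flow_entries_w hΦ v w
    have h := (d00.fun_sub d11).const_mul (Real.exp (ρ (v • UpperHalfPlane.I)))
    refine ⟨_, h, ?_⟩
    have h2 := wk1 (v, w) (hc6 (v, w) hd) (by rw [hc]; linarith)
    convert h2 using 2
    have Bq : Real.exp (ρ (v • UpperHalfPlane.I)) * Real.exp (-ρ (w • UpperHalfPlane.I)) =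
      Real.exp (ρ (v • UpperHalfPlane.I) - ρ (w • UpperHalfPlane.I)) - 1 + 1 := aβ (v, w)
    simp only [E, P', x, σ]
    linear_combination
      (((v⁻¹ * w) 0 0 + (v⁻¹ * w) 1 1) + Pr ρ w * ((v⁻¹ * w) 0 1 + (v⁻¹ * w) 1 0)) / 2 * Bq

end

end NC

end QE


end
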