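import Mathlib
import Pool.Agent.BWM.C05
import Pool.Agent.BWM.C17
import Pool.Agent.BWM.C33

/-! Parts: QJ.GRO, QJ.INT, QJ.TWO, QJ.IFO, QJ.FOU, QJ.CUB, U3.GROA, U3.INTA, U3.NULB, U3.SML, U3.E3S, U3.PAR, U3.TRIP, U3.ENDL -/

section

/-!
Growth of the jets of quantum ergodic sequences, from the Morawetz estimate and the pointwise bound.
-/

open Complex MeasureTheory Filter Topology Set Metric
open scoped ContDiff Manifold

namespace QJ

open QE

noncomputable section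

namespace GRO

/-! ### The real equation -/

theorem fderiv_ofReal {u : ℂ → ℝ} {z : ℂ} (hu : DifferentiableAt ℝ u z) (v : ℂ) :
    fderiv ℝ (fun w => (u w : ℂ)) z v = ((fderiv ℝ u z v : ℝ) : ℂ) := by
  have h : HasFDerivAt (fun w => (u w : ℂ)) (ofRealCLM.comp (fderiv ℝ u z)) z :=
    (ofRealCLM.hasFDerivAt (x := u z)).comp z hu.hasFDerivAt
  rw [h.fderiv]
  rfl

theorem contDiff_d1 {u : ℂ → ℝ} (hu : ContDiff ℝ ∞ u) : ContDiff ℝ ∞ (d1 u) := by
  have h : ContDiff ℝ ∞ (fderiv ℝ u) := hu.fderiv_right (by simp)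
  exact h.clm_apply contDiff_const

theorem contDiff_d2 {u : ℂ → ℝ} (hu : ContDiff ℝ ∞ u) : ContDiff ℝ ∞ (d2 u) := by
  have h : ContDiff ℝ ∞ (fderiv ℝ u) := hu.fderiv_right (by simp)
  exact h.clm_apply contDiff_const

theorem lap_eq {u : ℂ → ℝ} (hu : ContDiff ℝ ∞ u) (z : ℂ) :
    4 * (dz (dzb (fun w => (u w : ℂ))) z).re = lap u z := by
  have hud : Differentiable ℝ u := hu.differentiable (by simp)
  have h1 : Differentiable ℝ (d1 u) := (contDiff_d1 hu).differentiable (by simp)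
  have h2 : Differentiable ℝ (d2 u) := (contDiff_d2 hu).differentiable (by simp)
  have hF : dzb (fun w => (u w : ℂ)) =
      fun w => (1 / 2 : ℂ) * (((d1 u w : ℝ) : ℂ) + I * ((d2 u w : ℝ) : ℂ)) := by
    funext w
    unfold dzb d1 d2
    rw [fderiv_ofReal (hud w), fderiv_ofReal (hud w)]
  have hd : ∀ v, fderiv ℝ (fun w => (1 / 2 : ℂ) * (((d1 u w : ℝ) : ℂ) + I * ((d2 u w : ℝ) : ℂ))) z v
      = (1 / 2) * (((fderiv ℝ (d1 u) z v : ℝ) : ℂ) + I * ((fderiv ℝ (d2 u) z v : ℝ) : ℂ)) := by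
    intro v
    have e1 : HasFDerivAt (fun w => ((d1 u w : ℝ) : ℂ)) (ofRealCLM.comp (fderiv ℝ (d1 u) z)) z :=
      (ofRealCLM.hasFDerivAt (x := d1 u z)).comp z (h1 z).hasFDerivAt
    have e2 : HasFDerivAt (fun w => ((d2 u w : ℝ) : ℂ)) (ofRealCLM.comp (fderiv ℝ (d2 u) z)) z :=
      (ofRealCLM.hasFDerivAt (x := d2 u z)).comp z (h2 z).hasFDerivAt
    have e3 := (e1.add (e2.const_mul I)).const_mul (1 / 2 : ℂ)
    have e4 : fderiv ℝ (fun w => (1 / 2 : ℂ) * (((d1 u w : ℝ) : ℂ) + I * ((d2 u w : ℝ) : ℂ))) z =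
        (1 / 2 : ℂ) • (ofRealCLM.comp (fderiv ℝ (d1 u) z) + I • ofRealCLM.comp (fderiv ℝ (d2 u) z)) :=
      e3.fderiv
    rw [e4]
    simp [smul_eq_mul]
    ring
  rw [hF]
  have hdz : dz (fun w => (1 / 2 : ℂ) * (((d1 u w : ℝ) : ℂ) + I * ((d2 u w : ℝ) : ℂ))) z =
      (1 / 2) * ((1 / 2) * (((fderiv ℝ (d1 u) z 1 : ℝ) : ℂ) + I * ((fderiv ℝ (d2 u) z 1 : ℝ) : ℂ)) -
        I * ((1 / 2) * (((fderiv ℝ (d1 u) z I : ℝ) : ℂ) + I * ((fderiv ℝ (d2 u) z I : ℝ) : ℂ)))) := by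
    rw [← hd, ← hd]
    rfl
  rw [hdz]
  have hlap : lap u z = fderiv ℝ (d1 u) z 1 + fderiv ℝ (d2 u) z I := rfl
  rw [hlap]
  have hI : (1 / 2 : ℂ) * ((1 / 2) * (((fderiv ℝ (d1 u) z 1 : ℝ) : ℂ) + I * ((fderiv ℝ (d2 u) z 1 : ℝ) : ℂ)) -
        I * ((1 / 2) * (((fderiv ℝ (d1 u) z I : ℝ) : ℂ) + I * ((fderiv ℝ (d2 u) z I : ℝ) : ℂ)))) =
      (((1 / 4) * (fderiv ℝ (d1 u) z 1 + fderiv ℝ (d2 u) z I) : ℝ) : ℂ) +
        (((1 / 4) * (fderiv ℝ (d2 u) z 1 - fderiv ℝ (d1 u) z I) : ℝ) : ℂ) * I := by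
    push_cast
    linear_combination (-(1 / 4 : ℂ)) * ((fderiv ℝ (d2 u) z I : ℝ) : ℂ) * Complex.I_mul_I
  rw [hI, Complex.add_re, Complex.ofReal_re, Complex.re_ofReal_mul, Complex.I_re]
  ring

/-- the real part of the eigenfunction -/
def ru (φ : ℕ → ℂ → ℂ) (n : ℕ) (z : ℂ) : ℝ := (φ n z).re

theorem ru_eq {V : Set ℂ} {σ : ℂ → ℝ} {h : ℕ → ℝ} {φ : ℕ → ℂ → ℂ} (hL : Loc V σ h φ) (n : ℕ) :
    φ n = fun z => ((ru φ n z : ℝ) : ℂ) := by
  funext z
  exact (Complex.conj_eq_iff_re.mp (hL.real n z)).symm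

theorem norm_sq_eq {V : Set ℂ} {σ : ℂ → ℝ} {h : ℕ → ℝ} {φ : ℕ → ℂ → ℂ} (hL : Loc V σ h φ) (n : ℕ)
    (z : ℂ) : ‖φ n z‖ ^ 2 = ru φ n z ^ 2 := by
  have h1 : φ n z = ((ru φ n z : ℝ) : ℂ) := congrFun (ru_eq hL n) z
  rw [h1, Complex.norm_real, Real.norm_eq_abs, sq_abs]

theorem contDiff_ru {V : Set ℂ} {σ : ℂ → ℝ} {h : ℕ → ℝ} {φ : ℕ → ℂ → ℂ} (hL : Loc V σ h φ) (n : ℕ) :
    ContDiff ℝ ∞ (ru φ n) := reCLM.contDiff.comp (hL.smφ n)

theorem ru_eig {V : Set ℂ} {σ : ℂ → ℝ} {h : ℕ → ℝ} {φ : ℕ → ℂ → ℂ} (hL : Loc V σ h φ) (n : ℕ) {z : ℂ}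
    (hz : z ∈ V) : h n ^ 2 * lap (ru φ n) z = - (Real.exp (2 * σ z) * ru φ n z) := by
  have h1 := hL.eig n z hz
  rw [← lap_eq (contDiff_ru hL n), ← ru_eq hL n]
  have h2 := congrArg Complex.re h1
  have h3 : (4 * (h n : ℂ) ^ 2 * dz (dzb (φ n)) z).re = 4 * h n ^ 2 * (dz (dzb (φ n)) z).re := by
    have : (4 * (h n : ℂ) ^ 2 : ℂ) = ((4 * h n ^ 2 : ℝ) : ℂ) := by push_cast; ring
    rw [this, Complex.re_ofReal_mul]
  have h4 : (-ex σ 2 z * φ n z).re = - (Real.exp (2 * σ z) * ru φ n z) := by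
    have : -ex σ 2 z = ((-Real.exp (2 * σ z) : ℝ) : ℂ) := by
      unfold ex
      push_cast
      rfl
    rw [this, Complex.re_ofReal_mul]
    unfold ru
    ring
  rw [h3] at h2
  rw [h4] at h2
  rw [← h2]
  ring

/-! ### Integrals over balls -/

theorem vol_closedBall (z : ℂ) {r : ℝ} (hr : 0 ≤ r) :
    (volume (closedBall z r)).toReal = Real.pi * r ^ 2 := by
  rw [Complex.volume_closedBall, ENNReal.toReal_mul, ENNReal.toReal_pow, ENNReal.toReal_ofReal hr]
  simp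
  ring

/-- integrals over balls as integrals over a fixed ball -/
theorem setIntegral_ball (f : ℂ → ℝ) (w : ℂ) (ρ : ℝ) :
    ∫ v in closedBall w ρ, f v = ∫ u in closedBall (0 : ℂ) ρ, f (w + u) := by
  have h := (measurePreserving_add_left (volume : Measure ℂ) w).setIntegral_preimage_emb
    (MeasurableEquiv.addLeft w).measurableEmbedding f (closedBall w ρ)
  have h2 : (fun x => w + x) ⁻¹' closedBall w ρ = closedBall (0 : ℂ) ρ := by
    ext x
    simp [mem_closedBall, dist_eq_norm]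
  rw [← h, h2]

theorem integrable_shift {f : ℂ → ℝ} (hf : Continuous f) {S : Set ℂ} (hS : IsCompact S) (ρ : ℝ) :
    Integrable (Function.uncurry fun (w u : ℂ) => f (w + u))
      ((volume.restrict S).prod (volume.restrict (closedBall (0 : ℂ) ρ))) := by
  rw [Measure.prod_restrict]
  have hc : ContinuousOn (Function.uncurry fun (w u : ℂ) => f (w + u))
      (S ×ˢ closedBall (0 : ℂ) ρ) := by
    apply Continuous.continuousOn
    exact hf.comp (continuous_fst.add continuous_snd)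
  exact hc.integrableOn_compact (hS.prod (isCompact_closedBall _ _))

theorem integrable_avg {f : ℂ → ℝ} (hf : Continuous f) {S : Set ℂ} (hS : IsCompact S) (ρ : ℝ) :
    IntegrableOn (fun w => ∫ v in closedBall w ρ, f v) S := by
  have h := (integrable_shift hf hS ρ).integral_prod_left
  have h2 : (fun w => ∫ v in closedBall w ρ, f v) = fun w => ∫ u in closedBall (0 : ℂ) ρ, f (w + u) := by
    funext w
    exact setIntegral_ball f w ρ
  rw [h2]
  exact h

/-- the average over small balls -/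
theorem avg_le {f : ℂ → ℝ} (hf : Continuous f) (h0 : ∀ z, 0 ≤ f z) {S T : Set ℂ}
    (hS : IsCompact S) (hT : IsCompact T) {ρ : ℝ} (hρ : 0 ≤ ρ)
    (hST : ∀ w ∈ S, closedBall w ρ ⊆ T) :
    ∫ w in S, ∫ v in closedBall w ρ, f v ≤ Real.pi * ρ ^ 2 * ∫ v in T, f v := by
  have h2 : (fun w => ∫ v in closedBall w ρ, f v) = fun w => ∫ u in closedBall (0 : ℂ) ρ, f (w + u) := by
    funext w
    exact setIntegral_ball f w ρ
  rw [h2, integral_integral_swap (integrable_shift hf hS ρ)]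
  have h3 : ∀ u ∈ closedBall (0 : ℂ) ρ, ∫ w in S, f (w + u) ≤ ∫ v in T, f v := by
    intro u hu
    have h := (measurePreserving_add_right (volume : Measure ℂ) u).setIntegral_preimage_emb
      (MeasurableEquiv.addRight u).measurableEmbedding f T
    rw [← h]
    apply setIntegral_mono_set
    · have hTp : IsCompact ((fun x => x + u) ⁻¹' T) :=
        (Homeomorph.addRight u).isCompact_preimage.mpr hT
      exact (hf.comp (continuous_id.add continuous_const)).continuousOn.integrableOn_compact hTp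
    · exact Filter.Eventually.of_forall fun w => h0 _
    · apply LE.le.eventuallyLE
      intro w hw
      apply hST w hw
      rw [mem_closedBall, dist_eq_norm] at hu ⊢
      simpa using hu
  calc ∫ u in closedBall (0 : ℂ) ρ, ∫ w in S, f (w + u)
      ≤ ∫ u in closedBall (0 : ℂ) ρ, ∫ v in T, f v := by
        apply integral_mono_of_nonneg
        · exact Filter.Eventually.of_forall fun u => integral_nonneg fun w => h0 _
        · exact integrableOn_const (by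
            rw [Complex.volume_closedBall]
            exact ENNReal.mul_ne_top (ENNReal.pow_ne_top ENNReal.ofReal_ne_top) ENNReal.coe_ne_top)
        · rw [EventuallyLE, ae_restrict_iff' measurableSet_closedBall]
          exact Filter.Eventually.of_forall h3
    _ = Real.pi * ρ ^ 2 * ∫ v in T, f v := by
        rw [setIntegral_const, smul_eq_mul]
        congr 1
        exact vol_closedBall 0 hρ

/-! ### The mass -/

theorem exists_cutoff_real {U K : Set ℂ} (hU : IsOpen U) (hK : IsCompact K) (hKU : K ⊆ U) :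
    ∃ f : ℂ → ℝ, Test U (fun z => (f z : ℂ)) ∧ (∀ z ∈ K, f z = 1) ∧ (∀ z, 0 ≤ f z ∧ f z ≤ 1) ∧
      Continuous f ∧ HasCompactSupport f ∧ ∀ z, z ∉ U → f z = 0 := by
  obtain ⟨K', hK', hKK', hK'U⟩ := exists_compact_between hK hU hKU
  obtain ⟨f, hf1, hf2, hf3⟩ := exists_contMDiffMap_one_nhds_of_subset_interior (n := (⊤ : ℕ∞)) 𝓘(ℝ, ℂ)
    hK.isClosed hKK'
  have hfs : ContDiff ℝ ∞ (f : ℂ → ℝ) := f.contMDiff.contDiff
  have hsupp : Function.support (fun z => (f z : ℂ)) ⊆ K' := by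
    intro z hz
    by_contra h
    exact hz (by simp [hf2 z h])
  have hts : tsupport (fun z => (f z : ℂ)) ⊆ K' :=
    closure_minimal hsupp hK'.isClosed
  refine ⟨fun z => f z, ⟨ofRealCLM.contDiff.comp hfs,
    hK'.of_isClosed_subset (isClosed_tsupport _) hts, hts.trans hK'U⟩, ?_, ?_, hfs.continuous, ?_, ?_⟩
  · intro z hz
    have := hf1.filter_mono (nhds_le_nhdsSet hz)
    exact this.self_of_nhds
  · exact fun z => hf3 z
  · exact HasCompactSupport.intro hK' fun z hz => hf2 z hz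
  · intro z hz
    exact hf2 z fun h => hz (hK'U h)

theorem mass_core {V : Set ℂ} {σ : ℂ → ℝ} {h : ℕ → ℝ} {φ : ℕ → ℂ → ℂ} (hL : Loc V σ h φ)
    {K U : Set ℂ} (hU : IsOpen U) (hK : IsCompact K) (hKU : K ⊆ U) (hUV : U ⊆ V) :
    ∃ f : ℂ → ℝ, (∀ z, 0 ≤ f z ∧ f z ≤ 1) ∧ Continuous f ∧ HasCompactSupport f ∧
      (∀ z, z ∉ U → f z = 0) ∧
      ∀ B : ℝ, ∫ z, f z < B → ∀ᶠ n in atTop, ∫ w in K, ‖φ n w‖ ^ 2 ≤ B := by
  obtain ⟨f, hf1, hf2, hf3, hf4, hf5, hf6⟩ := exists_cutoff_real hU hK hKU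
  refine ⟨f, hf3, hf4, hf5, hf6, ?_⟩
  intro B hB
  have h1 := hL.mass _ (hf1.mono hUV)
  have h2 : ∀ n, ∫ z, (f z : ℂ) * (φ n z * φ n z) = ((∫ z, f z * ‖φ n z‖ ^ 2 : ℝ) : ℂ) := by
    intro n
    refine Eq.trans ?_ integral_complex_ofReal
    apply integral_congr_ae
    apply Filter.Eventually.of_forall
    intro z
    have h3 : φ n z = ((ru φ n z : ℝ) : ℂ) := congrFun (ru_eq hL n) z
    simp only
    rw [norm_sq_eq hL, h3]
    push_cast
    ring
  have h3 : (∫ z, (f z : ℂ)) = ((∫ z, f z : ℝ) : ℂ) := integral_complex_ofReal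
  rw [h3] at h1
  have h4 : Tendsto (fun n => ∫ z, f z * ‖φ n z‖ ^ 2) atTop (𝓝 (∫ z, f z)) := by
    have h5 := (Complex.continuous_re.tendsto _).comp h1
    rw [Complex.ofReal_re] at h5
    apply h5.congr
    intro n
    simp only [Function.comp]
    rw [h2 n, Complex.ofReal_re]
  filter_upwards [h4.eventually (gt_mem_nhds hB)] with n hn
  have hcont : Continuous fun z => ‖φ n z‖ ^ 2 := ((hL.smφ n).continuous.norm).pow 2
  have hint : Integrable fun z => f z * ‖φ n z‖ ^ 2 :=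
    (hf4.mul hcont).integrable_of_hasCompactSupport hf5.mul_right
  calc ∫ w in K, ‖φ n w‖ ^ 2 = ∫ w in K, f w * ‖φ n w‖ ^ 2 := by
        apply setIntegral_congr_fun hK.measurableSet
        intro w hw
        simp only
        rw [hf2 w hw, one_mul]
    _ ≤ ∫ w, f w * ‖φ n w‖ ^ 2 :=
        setIntegral_le_integral hint (Filter.Eventually.of_forall fun z =>
          mul_nonneg (hf3 z).1 (by positivity))
    _ ≤ B := hn.le

/-- a bound of the mass on compact sets -/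
theorem mass_bound {V : Set ℂ} {σ : ℂ → ℝ} {h : ℕ → ℝ} {φ : ℕ → ℂ → ℂ} (hL : Loc V σ h φ)
    {K : Set ℂ} (hK : IsCompact K) (hKV : K ⊆ V) :
    ∃ M : ℝ, 0 ≤ M ∧ ∀ᶠ n in atTop, ∫ w in K, ‖φ n w‖ ^ 2 ≤ M := by
  obtain ⟨f, hf1, _, _, _, hf5⟩ := mass_core hL hL.op hK hKV subset_rfl
  refine ⟨(∫ z, f z) + 1, ?_, hf5 _ (by linarith)⟩
  have : 0 ≤ ∫ z, f z := integral_nonneg fun z => (hf1 z).1
  linarith

/-- the mass on balls -/
theorem mass_ball {V : Set ℂ} {σ : ℂ → ℝ} {h : ℕ → ℝ} {φ : ℕ → ℂ → ℂ} (hL : Loc V σ h φ)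
    {z : ℂ} {r : ℝ} (hr : 0 < r) (hV : closedBall z (2 * r) ⊆ V) :
    ∀ᶠ n in atTop, ∫ w in closedBall z r, ‖φ n w‖ ^ 2 ≤ 13 * r ^ 2 := by
  obtain ⟨f, hf1, hf2, hf3, hf4, hf5⟩ := mass_core hL (K := closedBall z r) (U := ball z (2 * r))
    isOpen_ball (isCompact_closedBall _ _) (closedBall_subset_ball (by linarith))
    (ball_subset_closedBall.trans hV)
  apply hf5
  have h1 : ∫ w, f w = ∫ w in closedBall z (2 * r), f w := by
    rw [setIntegral_eq_integral_of_forall_compl_eq_zero]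
    intro w hw
    exact hf4 w fun h => hw (ball_subset_closedBall h)
  have hfin : volume (closedBall z (2 * r)) ≠ ⊤ := by
    rw [Complex.volume_closedBall]
    exact ENNReal.mul_ne_top (ENNReal.pow_ne_top ENNReal.ofReal_ne_top) ENNReal.coe_ne_top
  have h2 : ∫ w in closedBall z (2 * r), f w ≤ ∫ w in closedBall z (2 * r), (1 : ℝ) := by
    apply setIntegral_mono_on
    · exact hf2.continuousOn.integrableOn_compact (isCompact_closedBall _ _)
    · exact integrableOn_const hfin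
    · exact measurableSet_closedBall
    · exact fun w _ => (hf1 w).2
  have h3 : ∫ w in closedBall z (2 * r), (1 : ℝ) = Real.pi * (2 * r) ^ 2 := by
    rw [setIntegral_const, smul_eq_mul, mul_one]
    exact vol_closedBall z (by linarith)
  rw [h1]
  have h4 : Real.pi * (2 * r) ^ 2 < 13 * r ^ 2 := by
    have hpi := Real.pi_lt_d2
    have hr2 : 0 < r ^ 2 := by positivity
    nlinarith only [hr2, hpi]
  linarith

/-! ### The growth -/

theorem mor_apply (hMor : StmtMor) {V : Set ℂ} {σ : ℂ → ℝ} {h : ℕ → ℝ} {φ : ℕ → ℂ → ℂ}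
    (hL : Loc V σ h φ) {K1 : Set ℂ} (hK1 : IsCompact K1) (hK1V : K1 ⊆ V) :
    ∃ C : ℝ, 0 < C ∧ ∀ (n : ℕ) (z : ℂ) (r r0 : ℝ), h n ≤ r → r ≤ r0 → r0 ≤ 1 →
      closedBall z (3 * r0) ⊆ K1 →
      ∫ w in closedBall z r, ‖φ n w‖ ^ 2 ≤
        C * (r / r0) * ∫ w in closedBall z (3 * r0), ‖φ n w‖ ^ 2 := by
  have hg : ContDiff ℝ ∞ (fun z => Real.exp (2 * σ z)) := (contDiff_const.mul hL.sm).exp
  obtain ⟨B0, hB0⟩ := hK1.exists_bound_of_continuousOn hL.sm.continuous.continuousOn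
  obtain ⟨B1, hB1⟩ := hK1.exists_bound_of_continuousOn (contDiff_d1 hg).continuous.continuousOn
  obtain ⟨B2, hB2⟩ := hK1.exists_bound_of_continuousOn (contDiff_d2 hg).continuous.continuousOn
  obtain ⟨C, hC, h1⟩ := hMor (Real.exp (-(2 * B0))) (max (Real.exp (2 * B0)) (max B1 B2))
    (Real.exp_pos _)
  refine ⟨C, hC, ?_⟩
  intro n z r r0 hr hr0 hr1 hsub
  have h2 := h1 (ru φ n) (fun z => Real.exp (2 * σ z)) z (h n) r r0 (contDiff_ru hL n) hg
    (hL.hpos n) hr hr0 hr1 ?_ ?_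
  · simp only [norm_sq_eq hL]
    exact h2
  · intro w hw
    have hw1 := hsub hw
    have e0 := hB0 w hw1
    rw [Real.norm_eq_abs, abs_le] at e0
    have e1 := hB1 w hw1
    have e2 := hB2 w hw1
    refine ⟨?_, ?_, ?_, ?_⟩
    · exact Real.exp_le_exp.mpr (by linarith)
    · exact (Real.exp_le_exp.mpr (by linarith)).trans (le_max_left _ _)
    · exact e1.trans ((le_max_left _ _).trans (le_max_right _ _))
    · exact e2.trans ((le_max_right _ _).trans (le_max_right _ _))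
  · intro w hw
    exact ru_eig hL n (hK1V (hsub hw))

theorem RR_nonneg (h : ℕ → ℝ) (φ : ℕ → ℂ → ℂ) (N n : ℕ) (z : ℂ) : 0 ≤ RR h φ N n z := by
  unfold RR
  positivity

theorem cont_sq {V : Set ℂ} {σ : ℂ → ℝ} {h : ℕ → ℝ} {φ : ℕ → ℂ → ℂ} (hL : Loc V σ h φ) (n : ℕ) :
    Continuous fun z => ‖φ n z‖ ^ 2 := ((hL.smφ n).continuous.norm).pow 2

theorem sq_mono {V : Set ℂ} {σ : ℂ → ℝ} {h : ℕ → ℝ} {φ : ℕ → ℂ → ℂ} (hL : Loc V σ h φ) (n : ℕ)
    {S T : Set ℂ} (hT : IsCompact T) (hST : S ⊆ T) :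
    ∫ w in S, ‖φ n w‖ ^ 2 ≤ ∫ w in T, ‖φ n w‖ ^ 2 := by
  apply setIntegral_mono_set
  · exact (cont_sq hL n).continuousOn.integrableOn_compact hT
  · exact Filter.Eventually.of_forall fun z => by positivity
  · exact LE.le.eventuallyLE hST

/-- the constants for a compact set -/
theorem setup (hMor : StmtMor) (hPtw : StmtPtw) {V : Set ℂ} {σ : ℂ → ℝ} {h : ℕ → ℝ}
    {φ : ℕ → ℂ → ℂ} (hL : Loc V σ h φ) {K : Set ℂ} (hK : IsCompact K) (hKV : K ⊆ V) (N : ℕ) :
    ∃ δ c C1 C2 : ℝ, 0 < δ ∧ δ ≤ 1 ∧ 1 ≤ c ∧ 0 ≤ C1 ∧ 0 < C2 ∧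
      IsCompact (cthickening (3 * δ) K) ∧ cthickening (3 * δ) K ⊆ V ∧
      (∀ᶠ n in atTop, ∀ z ∈ K, RR h φ N n z ≤
        C1 * (1 + 1 / h n ^ 2 * ∫ w in closedBall z (c * h n), ‖φ n w‖ ^ 2)) ∧
      (∀ n, ∀ z ∈ K, ∀ r r0 : ℝ, h n ≤ r → r ≤ r0 → r0 ≤ δ →
        ∫ w in closedBall z r, ‖φ n w‖ ^ 2 ≤
          C2 * (r / r0) * ∫ w in closedBall z (3 * r0), ‖φ n w‖ ^ 2) := by
  obtain ⟨δ0, hδ0, hδV⟩ := hK.exists_cthickening_subset_open hL.op hKV
  have hδ1 : 3 * min 1 (δ0 / 3) ≤ δ0 := by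
    have := min_le_right 1 (δ0 / 3)
    linarith
  have hδ2 : cthickening (3 * min 1 (δ0 / 3)) K ⊆ V := (cthickening_mono hδ1 K).trans hδV
  obtain ⟨c, C, hc, hptw⟩ := hPtw V σ h φ hL K hK hKV N
  obtain ⟨C2, hC2, hmor⟩ := mor_apply hMor hL hK.cthickening hδ2
  refine ⟨min 1 (δ0 / 3), max c 1, max C 0, C2, lt_min one_pos (by linarith), min_le_left _ _,
    le_max_right _ _, le_max_right _ _, hC2, hK.cthickening, hδ2, ?_, ?_⟩
  · filter_upwards [hptw] with n hn z hz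
    have h1 := hn z hz
    have hpos := hL.hpos n
    have h2 : ∫ w in closedBall z (c * h n), ‖φ n w‖ ^ 2 ≤
        ∫ w in closedBall z (max c 1 * h n), ‖φ n w‖ ^ 2 := by
      apply sq_mono hL n (isCompact_closedBall _ _)
      apply closedBall_subset_closedBall
      exact mul_le_mul_of_nonneg_right (le_max_left _ _) hpos.le
    have h3 : 0 ≤ ∫ w in closedBall z (c * h n), ‖φ n w‖ ^ 2 :=
      integral_nonneg fun w => by positivity
    have h4 : (0 : ℝ) ≤ 1 / h n ^ 2 := by positivity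
    have h5 : 1 + 1 / h n ^ 2 * ∫ w in closedBall z (c * h n), ‖φ n w‖ ^ 2 ≤
        1 + 1 / h n ^ 2 * ∫ w in closedBall z (max c 1 * h n), ‖φ n w‖ ^ 2 := by
      have := mul_le_mul_of_nonneg_left h2 h4
      linarith only [this]
    have h6 : 0 ≤ 1 + 1 / h n ^ 2 * ∫ w in closedBall z (c * h n), ‖φ n w‖ ^ 2 := by (clear * - hpos; positivity)
    calc RR h φ N n z ≤ C * (1 + 1 / h n ^ 2 * ∫ w in closedBall z (c * h n), ‖φ n w‖ ^ 2) := h1
      _ ≤ max C 0 * (1 + 1 / h n ^ 2 * ∫ w in closedBall z (c * h n), ‖φ n w‖ ^ 2) :=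
          mul_le_mul_of_nonneg_right (le_max_left _ _) h6
      _ ≤ _ := mul_le_mul_of_nonneg_left h5 (le_max_right _ _)
  · intro n z hz r r0 hr hr0 hr1
    apply hmor n z r r0 hr hr0 (hr1.trans (min_le_left _ _))
    apply (closedBall_subset_cthickening hz (3 * r0)).trans
    apply cthickening_mono
    linarith only [hr1]

theorem small (hMor : StmtMor) (hPtw : StmtPtw) {V : Set ℂ} {σ : ℂ → ℝ} {h : ℕ → ℝ}
    {φ : ℕ → ℂ → ℂ} (hL : Loc V σ h φ) {K : Set ℂ} (hK : IsCompact K) (hKV : K ⊆ V) (N : ℕ)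
    {ε : ℝ} (hε : 0 < ε) : ∀ᶠ n in atTop, ∀ z ∈ K, h n * RR h φ N n z ≤ ε := by
  obtain ⟨δ, c, C1, C2, hδ, hδ1, hc, hC1, hC2, hKc, hKcV, hptw, hmor⟩ := setup hMor hPtw hL hK hKV N
  obtain ⟨A, hA⟩ : ∃ A : ℝ, A = 208 * C1 * C2 * c + 1 := ⟨_, rfl⟩
  have hA1 : 0 < A := by
    rw [hA]
    (clear * - hC1 hC2 hc; positivity)
  obtain ⟨r0, hr0⟩ : ∃ r0 : ℝ, r0 = min (3 * δ / 8) (ε / (2 * A)) := ⟨_, rfl⟩
  have hr0pos : 0 < r0 := by
    rw [hr0]
    exact lt_min (by linarith only [hδ]) (by positivity)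
  have hr0δ : r0 ≤ 3 * δ / 8 := by
    rw [hr0]
    exact min_le_left _ _
  have hr0ε : A * r0 ≤ ε / 2 := by
    have h1 : r0 ≤ ε / (2 * A) := by
      rw [hr0]
      exact min_le_right _ _
    calc A * r0 ≤ A * (ε / (2 * A)) := mul_le_mul_of_nonneg_left h1 hA1.le
      _ = ε / 2 := by field_simp
  obtain ⟨t, htK, htf, htc⟩ := hK.finite_cover_balls hr0pos
  have hmass : ∀ᶠ n in atTop, ∀ i ∈ t, ∫ w in closedBall i (4 * r0), ‖φ n w‖ ^ 2 ≤
      13 * (4 * r0) ^ 2 := by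
    rw [Filter.eventually_all_finite htf]
    intro i hi
    apply mass_ball hL (by linarith)
    apply ((closedBall_subset_cthickening (htK hi) (2 * (4 * r0))).trans
      (cthickening_mono ?_ K)).trans hKcV
    linarith
  have hh1 : ∀ᶠ n in atTop, C1 * h n < ε / 2 := by
    have h1 := hL.hlim.const_mul C1
    rw [mul_zero] at h1
    exact h1.eventually (gt_mem_nhds (by linarith))
  have hh2 : ∀ᶠ n in atTop, c * h n < r0 := by
    have h1 := hL.hlim.const_mul c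
    rw [mul_zero] at h1
    exact h1.eventually (gt_mem_nhds hr0pos)
  filter_upwards [hptw, hmass, hh1, hh2] with n hn1 hn2 hn3 hn4 z hz
  have hpos := hL.hpos n
  have hcn : h n ≤ c * h n := by nlinarith only [hc, hpos]
  have h1 := hmor n z hz (c * h n) r0 hcn hn4.le (by linarith only [hr0δ, hn4, hpos, hcn])
  obtain ⟨i, hi, hzi⟩ : ∃ i ∈ t, z ∈ ball i r0 := by
    have := htc hz
    simpa using this
  have h2 : ∫ w in closedBall z (3 * r0), ‖φ n w‖ ^ 2 ≤ 13 * (4 * r0) ^ 2 := by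
    apply le_trans _ (hn2 i hi)
    apply sq_mono hL n (isCompact_closedBall _ _)
    apply closedBall_subset_closedBall'
    rw [mem_ball] at hzi
    linarith
  have h3 := hn1 z hz
  have h4 : ∫ w in closedBall z (c * h n), ‖φ n w‖ ^ 2 ≤ C2 * (c * h n / r0) * (13 * (4 * r0) ^ 2) :=
    h1.trans (mul_le_mul_of_nonneg_left h2 (by positivity))
  calc h n * RR h φ N n z
      ≤ h n * (C1 * (1 + 1 / h n ^ 2 * ∫ w in closedBall z (c * h n), ‖φ n w‖ ^ 2)) :=
        mul_le_mul_of_nonneg_left h3 hpos.le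
    _ ≤ h n * (C1 * (1 + 1 / h n ^ 2 * (C2 * (c * h n / r0) * (13 * (4 * r0) ^ 2)))) := by
        apply mul_le_mul_of_nonneg_left _ hpos.le
        apply mul_le_mul_of_nonneg_left _ hC1
        have := mul_le_mul_of_nonneg_left h4 (by positivity : (0 : ℝ) ≤ 1 / h n ^ 2)
        linarith only [this]
    _ = C1 * h n + (A - 1) * r0 := by
        rw [hA]
        have hne : h n ≠ 0 := hpos.ne'
        have hr0ne : r0 ≠ 0 := hr0pos.ne'
        field_simp
        ring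
    _ ≤ ε := by
        have : (A - 1) * r0 = A * r0 - r0 := by ring
        linarith

theorem growth (hMor : StmtMor) (hPtw : StmtPtw) {V : Set ℂ} {σ : ℂ → ℝ} {h : ℕ → ℝ}
    {φ : ℕ → ℂ → ℂ} (hL : Loc V σ h φ) {K : Set ℂ} (hK : IsCompact K) (hKV : K ⊆ V) (N : ℕ) :
    ∃ C : ℝ, ∀ᶠ n in atTop, ∀ z ∈ K, ∀ s > 0,
      ∫ w in K ∩ closedBall z s, RR h φ N n w ≤ C * s := by
  obtain ⟨δ, c, C1, C2, hδ, hδ1, hc, hC1, hC2, hKc, hKcV, hptw, hmor⟩ := setup hMor hPtw hL hK hKV N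
  obtain ⟨M, hM, hmass⟩ := mass_bound hL hKc hKcV
  obtain ⟨vK, hvK⟩ : ∃ vK : ℝ, vK = (volume K).toReal := ⟨_, rfl⟩
  have hvK0 : 0 ≤ vK := by
    rw [hvK]
    exact ENNReal.toReal_nonneg
  refine ⟨C1 * (2 / δ * (vK + Real.pi * c ^ 2 * M)) +
    C1 * (Real.pi + Real.pi * c ^ 2 * (C2 * ((1 + c) / δ) * M)) +
    C1 * (Real.pi + Real.pi * (C2 * (c / δ) * M)), ?_⟩
  have hpi := Real.pi_pos
  have hA1 : 0 ≤ C1 * (2 / δ * (vK + Real.pi * c ^ 2 * M)) := by positivity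
  have hA2 : 0 ≤ C1 * (Real.pi + Real.pi * c ^ 2 * (C2 * ((1 + c) / δ) * M)) := by (clear * - hC1 hc hC2 hδ hM; positivity)
  have hA3 : 0 ≤ C1 * (Real.pi + Real.pi * (C2 * (c / δ) * M)) := by positivity
  have hh2 : ∀ᶠ n in atTop, c * h n < δ / 2 := by
    have h1 := hL.hlim.const_mul c
    rw [mul_zero] at h1
    exact h1.eventually (gt_mem_nhds (by linarith only [hδ]))
  filter_upwards [hptw, hmass, hh2] with n hn1 hn2 hn3 z hz s hs
  have hpos := hL.hpos n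
  have hcn : h n ≤ c * h n := by nlinarith only [hc, hpos]
  have hcontS := cont_sq hL n
  have hS : IsCompact (K ∩ closedBall z s) := hK.inter_right isClosed_closedBall
  have hSfin : volume (K ∩ closedBall z s) ≠ ⊤ := hS.measure_lt_top.ne
  have hSK : (volume (K ∩ closedBall z s)).toReal ≤ vK := by
    rw [hvK]
    exact ENNReal.toReal_mono hK.measure_lt_top.ne (measure_mono inter_subset_left)
  have hSs : (volume (K ∩ closedBall z s)).toReal ≤ Real.pi * s ^ 2 := by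
    rw [← vol_closedBall z hs.le]
    exact ENNReal.toReal_mono (isCompact_closedBall z s).measure_lt_top.ne
      (measure_mono inter_subset_right)
  -- the basic inequality
  have key : ∀ T : Set ℂ, IsCompact T → (∀ w ∈ K ∩ closedBall z s, closedBall w (c * h n) ⊆ T) →
      ∫ w in K ∩ closedBall z s, RR h φ N n w ≤
        C1 * ((volume (K ∩ closedBall z s)).toReal + Real.pi * c ^ 2 * ∫ w in T, ‖φ n w‖ ^ 2) := by
    intro T hT hST
    have hint := integrable_avg hcontS hS (c * h n)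
    calc ∫ w in K ∩ closedBall z s, RR h φ N n w
        ≤ ∫ w in K ∩ closedBall z s,
            C1 * (1 + 1 / h n ^ 2 * ∫ v in closedBall w (c * h n), ‖φ n v‖ ^ 2) := by
          apply integral_mono_of_nonneg
          · exact Filter.Eventually.of_forall fun w => RR_nonneg h φ N n w
          · exact ((integrableOn_const hSfin).add (hint.const_mul _)).const_mul _
          · rw [EventuallyLE, ae_restrict_iff' hS.measurableSet]
            exact Filter.Eventually.of_forall fun w hw => hn1 w hw.1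
      _ = C1 * ((volume (K ∩ closedBall z s)).toReal + 1 / h n ^ 2 *
            ∫ w in K ∩ closedBall z s, ∫ v in closedBall w (c * h n), ‖φ n v‖ ^ 2) := by
          rw [integral_const_mul]
          congr 1
          have hi1 : Integrable (fun _ : ℂ => (1 : ℝ)) (volume.restrict (K ∩ closedBall z s)) :=
            integrableOn_const hSfin
          have hi2 : Integrable (fun w => 1 / h n ^ 2 * ∫ v in closedBall w (c * h n), ‖φ n v‖ ^ 2)
            (volume.restrict (K ∩ closedBall z s)) := hint.const_mul _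
          rw [integral_add hi1 hi2, integral_const_mul, setIntegral_const, smul_eq_mul, mul_one]
          rfl
      _ ≤ C1 * ((volume (K ∩ closedBall z s)).toReal + 1 / h n ^ 2 *
            (Real.pi * (c * h n) ^ 2 * ∫ w in T, ‖φ n w‖ ^ 2)) := by
          apply mul_le_mul_of_nonneg_left _ hC1
          have := mul_le_mul_of_nonneg_left (avg_le hcontS (fun v => by positivity) hS hT
            (by positivity : 0 ≤ c * h n) hST) (by positivity : (0 : ℝ) ≤ 1 / h n ^ 2)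
          linarith
      _ = _ := by
          have hne : h n ≠ 0 := hpos.ne'
          field_simp
  rcases le_or_gt (δ / 2) s with hs1 | hs1
  · -- large radius
    have h1 := key _ hKc (by
      intro w hw
      apply (closedBall_subset_cthickening hw.1 (c * h n)).trans
      apply cthickening_mono
      linarith only [hn3, hpos, hcn])
    have h2 : C1 * ((volume (K ∩ closedBall z s)).toReal +
        Real.pi * c ^ 2 * ∫ w in cthickening (3 * δ) K, ‖φ n w‖ ^ 2) ≤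
        C1 * (vK + Real.pi * c ^ 2 * M) := by
      apply mul_le_mul_of_nonneg_left _ hC1
      have := mul_le_mul_of_nonneg_left hn2 (by positivity : 0 ≤ Real.pi * c ^ 2)
      linarith
    have h3 : C1 * (vK + Real.pi * c ^ 2 * M) ≤
        C1 * (2 / δ * (vK + Real.pi * c ^ 2 * M)) * s := by
      have h4 : 1 ≤ 2 / δ * s := by
        rw [div_mul_eq_mul_div, le_div_iff₀ hδ]
        linarith
      have h5 : 0 ≤ C1 * (vK + Real.pi * c ^ 2 * M) := by (clear * - hC1 hvK0 hc hM; positivity)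
      calc C1 * (vK + Real.pi * c ^ 2 * M) = C1 * (vK + Real.pi * c ^ 2 * M) * 1 := by ring
        _ ≤ C1 * (vK + Real.pi * c ^ 2 * M) * (2 / δ * s) := mul_le_mul_of_nonneg_left h4 h5
        _ = _ := by ring
    have h6 := mul_nonneg hA2 hs.le
    have h7 := mul_nonneg hA3 hs.le
    linarith
  · rcases le_or_gt (h n) s with hs2 | hs2
    · -- intermediate radius
      have h1 := key (closedBall z (s + c * h n)) (isCompact_closedBall _ _) (by
        intro w hw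
        apply closedBall_subset_closedBall'
        have := mem_closedBall.mp hw.2
        linarith only [this])
      have h2 := hmor n z hz (s + c * h n) δ (by linarith only [hs, hcn]) (by linarith) le_rfl
      have h3 : ∫ w in closedBall z (3 * δ), ‖φ n w‖ ^ 2 ≤ M :=
        (sq_mono hL n hKc (closedBall_subset_cthickening hz _)).trans hn2
      have h4 : ∫ w in closedBall z (s + c * h n), ‖φ n w‖ ^ 2 ≤ C2 * ((1 + c) / δ) * M * s := by
        calc _ ≤ C2 * ((s + c * h n) / δ) * ∫ w in closedBall z (3 * δ), ‖φ n w‖ ^ 2 := h2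
          _ ≤ C2 * ((s + c * h n) / δ) * M := mul_le_mul_of_nonneg_left h3 (by positivity)
          _ ≤ C2 * ((s + c * s) / δ) * M := by
              (clear * - hs2 hc hδ hC2 hM; gcongr)
          _ = _ := by ring
      have h5 : C1 * ((volume (K ∩ closedBall z s)).toReal +
          Real.pi * c ^ 2 * ∫ w in closedBall z (s + c * h n), ‖φ n w‖ ^ 2) ≤
          C1 * (Real.pi * s + Real.pi * c ^ 2 * (C2 * ((1 + c) / δ) * M * s)) := by
        apply mul_le_mul_of_nonneg_left _ hC1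
        have h6 := mul_le_mul_of_nonneg_left h4 (by positivity : 0 ≤ Real.pi * c ^ 2)
        have h7 : Real.pi * s ^ 2 ≤ Real.pi * s := by
          apply mul_le_mul_of_nonneg_left _ hpi.le
          nlinarith only [hδ1, hs, hs1]
        linarith only [hSs, h6, h7]
      have h8 := mul_nonneg hA1 hs.le
      have h9 := mul_nonneg hA3 hs.le
      have h10 : C1 * (Real.pi * s + Real.pi * c ^ 2 * (C2 * ((1 + c) / δ) * M * s)) =
          C1 * (Real.pi + Real.pi * c ^ 2 * (C2 * ((1 + c) / δ) * M)) * s := by ring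
      linarith only [h1, h5, h8, h9]
    · -- small radius
      have h1 : ∀ w ∈ K ∩ closedBall z s, RR h φ N n w ≤ C1 * (1 + C2 * (c / δ) * M / h n) := by
        intro w hw
        have h2 := hmor n w hw.1 (c * h n) δ hcn (by linarith) le_rfl
        have h3 : ∫ w in closedBall w (3 * δ), ‖φ n w‖ ^ 2 ≤ M :=
          (sq_mono hL n hKc (closedBall_subset_cthickening hw.1 _)).trans hn2
        have h4 : ∫ v in closedBall w (c * h n), ‖φ n v‖ ^ 2 ≤ C2 * (c * h n / δ) * M :=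
          h2.trans (mul_le_mul_of_nonneg_left h3 (by positivity))
        calc RR h φ N n w
            ≤ C1 * (1 + 1 / h n ^ 2 * ∫ v in closedBall w (c * h n), ‖φ n v‖ ^ 2) := hn1 w hw.1
          _ ≤ C1 * (1 + 1 / h n ^ 2 * (C2 * (c * h n / δ) * M)) := by
              apply mul_le_mul_of_nonneg_left _ hC1
              have := mul_le_mul_of_nonneg_left h4 (by positivity : (0 : ℝ) ≤ 1 / h n ^ 2)
              linarith only [this]
          _ = _ := by
              have hne : h n ≠ 0 := hpos.ne'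
              field_simp
      have h2 : ∫ w in K ∩ closedBall z s, RR h φ N n w ≤
          C1 * (1 + C2 * (c / δ) * M / h n) * (Real.pi * s ^ 2) := by
        calc ∫ w in K ∩ closedBall z s, RR h φ N n w
            ≤ ∫ w in K ∩ closedBall z s, C1 * (1 + C2 * (c / δ) * M / h n) := by
              apply integral_mono_of_nonneg
              · exact Filter.Eventually.of_forall fun w => RR_nonneg h φ N n w
              · exact integrableOn_const hSfin
              · rw [EventuallyLE, ae_restrict_iff' hS.measurableSet]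
                exact Filter.Eventually.of_forall h1
          _ = (volume (K ∩ closedBall z s)).toReal * (C1 * (1 + C2 * (c / δ) * M / h n)) := by
              rw [setIntegral_const, smul_eq_mul]
              rfl
          _ ≤ Real.pi * s ^ 2 * (C1 * (1 + C2 * (c / δ) * M / h n)) :=
              mul_le_mul_of_nonneg_right hSs (by positivity)
          _ = _ := by ring
      have h3 : C1 * (1 + C2 * (c / δ) * M / h n) * (Real.pi * s ^ 2) ≤
          C1 * (Real.pi + Real.pi * (C2 * (c / δ) * M)) * s := by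
        have h4 : s ^ 2 ≤ s := by nlinarith only [hδ1, hs, hs1]
        have h5 : s ^ 2 / h n ≤ s := by
          rw [div_le_iff₀ hpos]
          nlinarith only [hs, hs2]
        have h6 : C1 * (1 + C2 * (c / δ) * M / h n) * (Real.pi * s ^ 2) =
            C1 * (Real.pi * s ^ 2 + Real.pi * (C2 * (c / δ) * M) * (s ^ 2 / h n)) := by
          field_simp
        have h7 : C1 * (Real.pi + Real.pi * (C2 * (c / δ) * M)) * s =
            C1 * (Real.pi * s + Real.pi * (C2 * (c / δ) * M) * s) := by ring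
        rw [h6, h7]
        (clear * - h4 h5 hC2 hc hδ hM hC1; gcongr)
      have h8 := mul_nonneg hA1 hs.le
      have h9 := mul_nonneg hA2 hs.le
      linarith only [h2, h3, h8, h9]

end GRO

/-- GRO: growth of the jets of quantum ergodic sequences -/
theorem stmtGro (hMor : StmtMor) (hPtw : StmtPtw) : StmtGro := by
  intro V σ h φ hL
  exact ⟨fun K hK hKV N => GRO.growth hMor hPtw hL hK hKV N,
    fun K hK hKV N ε hε => GRO.small hMor hPtw hL hK hKV N hε⟩

end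

end QJ


end

section

/-!
Cubic and quartic statistics of quantum ergodic eigenfunctions: INT, integrals of dominated
functions.
-/

open Complex MeasureTheory Filter Topology Set
open scoped ContDiff

namespace QJ

open QE

namespace INT

lemma smooth_dz (f : ℂ → ℂ) (hf : ContDiff ℝ ∞ f) : ∀ a : ℕ, ContDiff ℝ ∞ (dz^[a] f)
  | 0 => hf
  | a + 1 => by
      rw [Function.iterate_succ_apply']
      exact contDiff_dz (smooth_dz f hf a)

lemma smooth_dzb (f : ℂ → ℂ) (hf : ContDiff ℝ ∞ f) : ∀ a : ℕ, ContDiff ℝ ∞ (dzb^[a] f)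
  | 0 => hf
  | a + 1 => by
      rw [Function.iterate_succ_apply']
      exact contDiff_dzb (smooth_dzb f hf a)

lemma cont_W (h : ℕ → ℝ) (φ : ℕ → ℂ → ℂ) (hφ : ∀ n, ContDiff ℝ ∞ (φ n)) (a b n : ℕ) :
    Continuous (W h φ a b n) := by
  have h1 : Continuous (dz^[a] (dzb^[b] (φ n))) :=
    (smooth_dz _ (smooth_dzb _ (hφ n) b) a).continuous
  exact continuous_const.mul h1

lemma cont_RR (h : ℕ → ℝ) (φ : ℕ → ℂ → ℂ) (hφ : ∀ n, ContDiff ℝ ∞ (φ n)) (N n : ℕ) :
    Continuous (RR h φ N n) := by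
  refine continuous_const.add (continuous_finset_sum _ fun a _ =>
    continuous_finset_sum _ fun b _ => ?_)
  exact ((cont_W h φ hφ a b n).norm).pow 2

lemma one_le_RR (h : ℕ → ℝ) (φ : ℕ → ℂ → ℂ) (N n : ℕ) (z : ℂ) : 1 ≤ RR h φ N n z := by
  unfold RR
  have : 0 ≤ ∑ a ∈ Finset.range (N + 1), ∑ b ∈ Finset.range (N + 1), ‖W h φ a b n z‖ ^ 2 :=
    Finset.sum_nonneg fun a _ => Finset.sum_nonneg fun b _ => by positivity
  linarith

lemma intOn {f : ℂ → ℝ} (hf : Continuous f) {K : Set ℂ} (hK : IsCompact K) :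
    IntegrableOn f K := hf.continuousOn.integrableOn_compact hK

lemma int_RR {V : Set ℂ} {h : ℕ → ℝ} {φ : ℕ → ℂ → ℂ} (hG : Grow V h φ) {K : Set ℂ}
    (hK : IsCompact K) (hKV : K ⊆ V) (N : ℕ) :
    ∃ C : ℝ, 0 ≤ C ∧ ∀ᶠ n in atTop, ∫ z in K, RR h φ N n z ≤ C := by
  rcases K.eq_empty_or_nonempty with rfl | ⟨z0, hz0⟩
  · refine ⟨0, le_refl _, Filter.Eventually.of_forall fun n => ?_⟩
    simp
  · obtain ⟨C, hC⟩ := hG.grow K hK hKV N
    obtain ⟨s, hs⟩ := hK.isBounded.subset_closedBall z0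
    have h1 : K ∩ Metric.closedBall z0 (max s 1) = K :=
      inter_eq_left.mpr (hs.trans (Metric.closedBall_subset_closedBall (le_max_left _ _)))
    refine ⟨|C * max s 1|, abs_nonneg _, ?_⟩
    filter_upwards [hC] with n hn
    have h2 := hn z0 hz0 (max s 1) (lt_of_lt_of_le one_pos (le_max_right _ _))
    rw [h1] at h2
    exact h2.trans (le_abs_self _)

/-- from the square to the function -/
lemma le_of_sq {x C R : ℝ} (q : ℕ) (hx : 0 ≤ x) (hR : 0 ≤ R) (h : x ^ 2 ≤ C * R ^ (2 * q)) :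
    x ≤ √|C| * R ^ q := by
  have h1 : 0 ≤ √|C| * R ^ q := by positivity
  rw [← sq_le_sq₀ hx h1, mul_pow, Real.sq_sqrt (abs_nonneg _), ← pow_mul, mul_comm q 2]
  exact h.trans (mul_le_mul_of_nonneg_right (le_abs_self C) (by positivity))

end INT

open _root_.QJ.INT in
/-- INT: integrals of dominated functions -/
theorem stmtInt : StmtInt := by
  intro V h φ u hpos hlim hφ hG hu
  refine ⟨?_, ?_, ?_⟩
  · intro hB K hK hKV
    obtain ⟨N, C, hC⟩ := hB K hK hKV
    obtain ⟨C1, hC1, hI⟩ := int_RR hG hK hKV N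
    refine ⟨√|C| * C1, ?_⟩
    filter_upwards [hC, hI] with n hn hn1
    have h1 : ∀ z ∈ K, ‖u n z‖ ≤ √|C| * RR h φ N n z := by
      intro z hz
      have h2 := le_of_sq (C := C) (R := RR h φ N n z) 1 (norm_nonneg (u n z))
        (zero_le_one.trans (one_le_RR h φ N n z)) (hn z hz)
      rwa [pow_one] at h2
    calc ∫ z in K, ‖u n z‖ ≤ ∫ z in K, √|C| * RR h φ N n z :=
          setIntegral_mono_on (intOn (hu n).continuous.norm hK)
            (intOn (continuous_const.mul (cont_RR h φ hφ N n)) hK) hK.measurableSet h1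
      _ = √|C| * ∫ z in K, RR h φ N n z := integral_const_mul _ _
      _ ≤ √|C| * C1 := mul_le_mul_of_nonneg_left hn1 (Real.sqrt_nonneg _)
  · intro hB K hK hKV
    obtain ⟨N, C, hC⟩ := hB K hK hKV
    obtain ⟨C1, hC1, hI⟩ := int_RR hG hK hKV N
    have hS := hG.small K hK hKV N 1 one_pos
    have hz : Tendsto (fun n => |C| * (h n * C1)) atTop (𝓝 0) := by
      have := (hlim.mul_const C1).const_mul |C|
      simpa using this
    refine squeeze_zero' (Filter.Eventually.of_forall fun n => ?_) ?_ hz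
    · exact integral_nonneg fun z => by positivity
    · filter_upwards [hC, hI, hS] with n hn hn1 hn2
      have hh := hpos n
      have h1 : ∀ z ∈ K, ‖(h n : ℂ) * u n z‖ ^ 2 ≤ |C| * h n * RR h φ N n z := by
        intro z hz
        have hR := one_le_RR h φ N n z
        rw [norm_mul, mul_pow, Complex.norm_real, Real.norm_eq_abs, sq_abs]
        calc h n ^ 2 * ‖u n z‖ ^ 2 ≤ h n ^ 2 * (|C| * RR h φ N n z ^ 2) := by
              refine mul_le_mul_of_nonneg_left ((hn z hz).trans ?_) (by positivity)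
              exact mul_le_mul_of_nonneg_right (le_abs_self C) (by positivity)
          _ = |C| * (h n * RR h φ N n z) * (h n * RR h φ N n z) := by ring
          _ ≤ |C| * (h n * RR h φ N n z) * 1 :=
              mul_le_mul_of_nonneg_left (hn2 z hz) (by positivity)
          _ = |C| * h n * RR h φ N n z := by ring
      calc ∫ z in K, ‖(h n : ℂ) * u n z‖ ^ 2 ≤ ∫ z in K, |C| * h n * RR h φ N n z :=
            setIntegral_mono_on
              (intOn ((continuous_const.mul (hu n).continuous).norm.pow 2) hK)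
              (intOn (continuous_const.mul (cont_RR h φ hφ N n)) hK) hK.measurableSet h1
        _ = |C| * h n * ∫ z in K, RR h φ N n z := integral_const_mul _ _
        _ ≤ |C| * h n * C1 := mul_le_mul_of_nonneg_left hn1 (by positivity)
        _ = |C| * (h n * C1) := by ring
  · intro hB K hK hKV
    obtain ⟨N, C, hC⟩ := hB K hK hKV
    obtain ⟨C1, hC1, hI⟩ := int_RR hG hK hKV N
    rw [Metric.tendsto_atTop']
    intro δ hδ
    have hD : 0 < √|C| * C1 + 1 := by positivity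
    have hS := hG.small K hK hKV N (δ / (√|C| * C1 + 1) / 2) (by positivity)
    have hev : ∀ᶠ n in atTop, dist (h n * ∫ z in K, ‖u n z‖) 0 < δ := by
      filter_upwards [hC, hI, hS] with n hn hn1 hn2
      have hh := hpos n
      have h1 : ∀ z ∈ K, ‖u n z‖ ≤ √|C| * RR h φ N n z ^ 2 := fun z hz =>
        le_of_sq (C := C) (R := RR h φ N n z) 2 (norm_nonneg (u n z))
          (zero_le_one.trans (one_le_RR h φ N n z)) (hn z hz)
      have h2 : h n * ∫ z in K, ‖u n z‖ ≤ √|C| * (δ / (√|C| * C1 + 1) / 2) * C1 := by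
        calc h n * ∫ z in K, ‖u n z‖ = ∫ z in K, h n * ‖u n z‖ := (integral_const_mul _ _).symm
          _ ≤ ∫ z in K, √|C| * (δ / (√|C| * C1 + 1) / 2) * RR h φ N n z := by
              refine setIntegral_mono_on
                (intOn (continuous_const.mul (hu n).continuous.norm) hK)
                (intOn (continuous_const.mul (cont_RR h φ hφ N n)) hK) hK.measurableSet ?_
              intro z hz
              have hR := one_le_RR h φ N n z
              calc h n * ‖u n z‖ ≤ h n * (√|C| * RR h φ N n z ^ 2) :=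
                    mul_le_mul_of_nonneg_left (h1 z hz) hh.le
                _ = √|C| * (h n * RR h φ N n z) * RR h φ N n z := by ring
                _ ≤ √|C| * (δ / (√|C| * C1 + 1) / 2) * RR h φ N n z := by
                    refine mul_le_mul_of_nonneg_right ?_ (by positivity)
                    exact mul_le_mul_of_nonneg_left (hn2 z hz) (Real.sqrt_nonneg _)
          _ = √|C| * (δ / (√|C| * C1 + 1) / 2) * ∫ z in K, RR h φ N n z :=
              integral_const_mul _ _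
          _ ≤ √|C| * (δ / (√|C| * C1 + 1) / 2) * C1 :=
              mul_le_mul_of_nonneg_left hn1 (by positivity)
      have h3 : 0 ≤ h n * ∫ z in K, ‖u n z‖ :=
        mul_nonneg hh.le (integral_nonneg fun z => norm_nonneg _)
      rw [Real.dist_eq, sub_zero, abs_of_nonneg h3]
      refine lt_of_le_of_lt h2 ?_
      have h4 : √|C| * (δ / (√|C| * C1 + 1) / 2) * C1 =
          (√|C| * C1) / (√|C| * C1 + 1) * (δ / 2) := by ring
      rw [h4]
      have h5 : (√|C| * C1) / (√|C| * C1 + 1) ≤ 1 := by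
        rw [div_le_one hD]
        linarith
      calc (√|C| * C1) / (√|C| * C1 + 1) * (δ / 2) ≤ 1 * (δ / 2) :=
            mul_le_mul_of_nonneg_right h5 (by positivity)
        _ < δ := by linarith
    obtain ⟨n0, hn0⟩ := Filter.eventually_atTop.mp hev
    exact ⟨n0, fun n hn => hn0 n hn.le⟩

end QJ


end

section

/-!
The two-jet limits.
-/

open Complex MeasureTheory Filter Topology Set
open scoped ContDiff

namespace QJ

open QE

noncomputable section

namespace TWO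

variable {V : Set ℂ} {σ : ℂ → ℝ} {h : ℕ → ℝ} {φ : ℕ → ℂ → ℂ}

/-- the integral of two jets -/
def I2 (σ : ℂ → ℝ) (h : ℕ → ℝ) (φ : ℕ → ℂ → ℂ) (ζ : ℂ → ℂ) (j m : ℤ) (n : ℕ) : ℂ :=
  ∫ z, ζ z * (E σ h φ j n z * E σ h φ m n z)

lemma hlim4 (hInt : StmtInt) (L : Loc V σ h φ) (hG : Grow V h φ) {u : ℕ → ℂ → ℂ}
    (hu : ∀ n, ContDiff ℝ ∞ (u n)) (hB : Bq V h φ 4 u) {ζ : ℂ → ℂ} (hζ : Test V ζ) :
    Tendsto (fun n => (h n : ℂ) * ∫ z, ζ z * u n z) atTop (𝓝 0) :=
  IBP.lim_test L.hpos hu ((hInt V h φ u L.hpos L.hlim L.smφ hG hu).2.2 hB) hζ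

lemma hlimC (L : Loc V σ h φ) : Tendsto (fun n => (h n : ℂ)) atTop (𝓝 0) := by
  have h1 := (Complex.continuous_ofReal.tendsto 0).comp L.hlim
  rw [Complex.ofReal_zero] at h1
  exact h1

lemma zero_off {ζ : ℂ → ℂ} (hζ : Test V ζ) {z : ℂ} (hz : z ∉ V) : ζ z = 0 :=
  image_eq_zero_of_notMem_tsupport fun hh => hz (hζ.sub hh)

lemma rec_step (hInt : StmtInt) (hIbp : StmtIbp) (hJ : StmtJetA) (L : Loc V σ h φ)
    (hG : Grow V h φ) {ζ : ℂ → ℂ} (hζ : Test V ζ) (j m : ℤ) :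
    Tendsto (fun n => I2 σ h φ ζ (j + 1) m n + I2 σ h φ ζ j (m + 1) n) atTop (𝓝 0) := by
  have hσ := L.sm
  obtain ⟨dj, ⟨A1, hA1, h1⟩, -⟩ := hJ V σ h φ L j
  obtain ⟨dm, ⟨A2, hA2, h2⟩, -⟩ := hJ V σ h φ L m
  obtain ⟨dj1, -, -⟩ := hJ V σ h φ L (j + 1)
  obtain ⟨dm1, -, -⟩ := hJ V σ h φ L (m + 1)
  have du : Dom V h φ 2 (fun n z => E σ h φ j n z * E σ h φ m n z) := dj.mul L.op dm
  have dB : Dom V h φ 2 (fun n z => A1 n z * E σ h φ m n z + E σ h φ j n z * A2 n z) :=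
    (hA1.mul L.op dm).add L.op (dj.mul L.op hA2)
  have i1 := (hIbp V σ h φ _ (j + m) L.op L.sm L.hpos L.hlim L.smφ hG du.smooth
    (du.mono (by norm_num : 2 ≤ 4)).bq ζ hζ).1
  have i2 := (hlimC L).mul (hlim4 hInt L hG dB.smooth (dB.mono (by norm_num : 2 ≤ 4)).bq hζ)
  have i3 := i1.sub i2
  rw [mul_zero, sub_zero] at i3
  refine i3.congr fun n => ?_
  have e : ∀ z, ζ z * ((h n : ℂ) * D σ (j + m) (fun z => E σ h φ j n z * E σ h φ m n z) z)
      = (ζ z * (E σ h φ (j + 1) n z * E σ h φ m n z) + ζ z * (E σ h φ j n z * E σ h φ (m + 1) n z))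
        + (h n : ℂ) ^ 2 * (ζ z * (A1 n z * E σ h φ m n z + E σ h φ j n z * A2 n z)) := by
    intro z
    by_cases hz : z ∈ V
    · rw [D_mul hσ j m (cd_at (dj.smooth n) z) (cd_at (dm.smooth n) z)]
      linear_combination ζ z * E σ h φ m n z * h1 n z hz + ζ z * E σ h φ j n z * h2 n z hz
    · rw [zero_off hζ hz]; ring
  have k1 : Integrable (fun z => ζ z * (E σ h φ (j + 1) n z * E σ h φ m n z)) :=
    hζ.integrable_mul L.op ((dj1.smooth n).mul (dm.smooth n)).continuous.continuousOn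
  have k2 : Integrable (fun z => ζ z * (E σ h φ j n z * E σ h φ (m + 1) n z)) :=
    hζ.integrable_mul L.op ((dj.smooth n).mul (dm1.smooth n)).continuous.continuousOn
  have k3 : Integrable (fun z => ζ z * (A1 n z * E σ h φ m n z + E σ h φ j n z * A2 n z)) :=
    hζ.integrable_mul L.op (dB.smooth n).continuous.continuousOn
  have k12 : Integrable (fun z => ζ z * (E σ h φ (j + 1) n z * E σ h φ m n z)
      + ζ z * (E σ h φ j n z * E σ h φ (m + 1) n z)) := k1.add k2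
  unfold I2
  simp only [e]
  rw [integral_add k12 (k3.const_mul _), integral_add k1 k2, integral_const_mul]
  ring

/-- the case of spin `k ≥ 1` -/
lemma zero_pos (hInt : StmtInt) (hJ : StmtJetA) (hJB : StmtJetB) (L : Loc V σ h φ)
    (hG : Grow V h φ) {ζ : ℂ → ℂ} (hζ : Test V ζ) (k : ℕ) (hk : 1 ≤ k) :
    Tendsto (I2 σ h φ ζ 0 k) atTop (𝓝 0) := by
  have hσ := L.sm
  obtain ⟨A, hA, hE⟩ := hJB V σ h φ L k 0
  obtain ⟨dk, -, -⟩ := hJ V σ h φ L k
  have dφ : Dom V h φ 1 φ := Dom.phi L.smφ L.op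
  have dB : Dom V h φ 2 (fun n z => φ n z * A n z) := dφ.mul L.op hA
  have i1 := L.mom k hk _ (test_mul hζ (contDiff_ex hσ (-(k : ℤ))))
  have i2 := hlim4 hInt L hG dB.smooth (dB.mono (by norm_num : 2 ≤ 4)).bq hζ
  have i3 := (i1.sub i2).const_mul ((2 : ℂ) ^ k)
  rw [sub_zero, mul_zero] at i3
  refine i3.congr fun n => ?_
  have e0 : E σ h φ 0 = φ := rfl
  have c2 : (2 : ℂ) ^ k * (2 : ℂ)⁻¹ ^ k = 1 := by
    rw [← mul_pow]; norm_num
  have e : ∀ z, ζ z * (E σ h φ 0 n z * E σ h φ k n z)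
      = (2 : ℂ) ^ k * (ζ z * ex σ (-(k : ℤ)) z * (φ n z * ((h n : ℂ) ^ k * dz^[k] (φ n) z)))
        - (2 : ℂ) ^ k * (h n : ℂ) * (ζ z * (φ n z * A n z)) := by
    intro z
    by_cases hz : z ∈ V
    · have h1 := hE n z hz
      have e1 : (-((k : ℤ) + ((0 : ℕ) : ℤ))) = -(k : ℤ) := by push_cast; ring
      have e2 : ((k : ℤ) - ((0 : ℕ) : ℤ)) = (k : ℤ) := by push_cast; ring
      have e3 : W h φ k 0 n z = (h n : ℂ) ^ k * dz^[k] (φ n) z := rfl
      rw [e1, e2, e3, pow_zero, add_zero, mul_one] at h1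
      rw [e0]
      linear_combination (-(2 : ℂ) ^ k * ζ z * φ n z) * h1
        - (ζ z * φ n z * E σ h φ k n z) * c2
    · rw [zero_off hζ hz]; ring
  have k1 : Integrable (fun z => ζ z * ex σ (-(k : ℤ)) z * (φ n z * ((h n : ℂ) ^ k * dz^[k] (φ n) z))) :=
    (test_mul hζ (contDiff_ex hσ (-(k : ℤ)))).integrable_mul L.op
      ((L.smφ n).mul (contDiff_const.mul (contDiff_iter_dz (L.smφ n) k))).continuous.continuousOn
  have k2 : Integrable (fun z => ζ z * (φ n z * A n z)) :=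
    hζ.integrable_mul L.op (dB.smooth n).continuous.continuousOn
  unfold I2
  simp only [e]
  rw [integral_sub (k1.const_mul _) (k2.const_mul _), integral_const_mul, integral_const_mul]
  ring

/-- the case of spin `0` against any spin -/
lemma zero_all (hInt : StmtInt) (hJ : StmtJetA) (hJB : StmtJetB) (L : Loc V σ h φ)
    (hG : Grow V h φ) {ζ : ℂ → ℂ} (hζ : Test V ζ) (k : ℤ) :
    Tendsto (I2 σ h φ ζ 0 k) atTop (𝓝 (P 0 k * ∫ z, ζ z)) := by
  rcases lt_trichotomy k 0 with hk | hk | hk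
  · obtain ⟨m, rfl⟩ : ∃ m : ℕ, k = -(m : ℤ) := ⟨(-k).toNat, by omega⟩
    have hm : 1 ≤ m := by omega
    have hP : P 0 (-(m : ℤ)) = 0 := by
      unfold P; rw [if_neg (by omega)]
    rw [hP, zero_mul]
    have i1 := zero_pos hInt hJ hJB L hG hζ.conj m hm
    have i2 := (((Complex.continuous_conj.tendsto (0 : ℂ)).comp i1)).const_mul ((-1 : ℂ) ^ m)
    rw [map_zero, mul_zero] at i2
    refine i2.congr fun n => ?_
    show (-1 : ℂ) ^ m * (starRingEnd ℂ) (I2 σ h φ (fun z => (starRingEnd ℂ) (ζ z)) 0 m n) = _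
    unfold I2
    rw [← integral_conj, ← integral_const_mul]
    refine integral_congr_ae (Filter.Eventually.of_forall fun z => ?_)
    have e0 : E σ h φ 0 = φ := rfl
    have e1 : E σ h φ (m : ℤ) = jet σ h φ m := rfl
    have e2 := congrFun (congrFun (JETA.E_neg L m) n) z
    show (-1 : ℂ) ^ m * (starRingEnd ℂ) ((starRingEnd ℂ) (ζ z) * (E σ h φ 0 n z * E σ h φ m n z))
      = ζ z * (E σ h φ 0 n z * E σ h φ (-(m : ℤ)) n z)
    rw [e2, e0, e1, map_mul, map_mul, Complex.conj_conj, L.real n z]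
    ring
  · subst hk
    have hP : P 0 0 = 1 := by unfold P; simp
    rw [hP, one_mul]
    exact L.mass ζ hζ
  · obtain ⟨m, rfl⟩ : ∃ m : ℕ, k = (m : ℤ) := ⟨k.toNat, by omega⟩
    have hP : P 0 (m : ℤ) = 0 := by
      unfold P; rw [if_neg (by omega)]
    rw [hP, zero_mul]
    exact zero_pos hInt hJ hJB L hG hζ m (by omega)

lemma P_succ (j m : ℤ) : P (j + 1) m = - P j (m + 1) := by
  unfold P
  by_cases hjm : j + 1 + m = 0
  · rw [if_pos hjm, if_pos (by omega), zpow_add_one₀ (by norm_num)]; ring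
  · rw [if_neg hjm, if_neg (by omega)]; ring

end TWO

open _root_.QJ.TWO in
theorem stmtTwo (hGro : StmtGro) (hInt : StmtInt) (hIbp : StmtIbp) (hJetA : StmtJetA)
    (hJetB : StmtJetB) : StmtTwo := by
  intro V σ h φ L j m ζ hζ
  have hG := hGro V σ h φ L
  have hr := rec_step hInt hIbp hJetA L hG hζ
  have h0 := zero_all hInt hJetA hJetB L hG hζ
  have key : ∀ j : ℤ, ∀ m : ℤ, Tendsto (I2 σ h φ ζ j m) atTop (𝓝 (P j m * ∫ z, ζ z)) := by
    intro j
    induction j using Int.induction_on with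
    | zero => exact h0
    | succ j ih =>
      intro m
      have i1 := (hr j m).sub (ih (m + 1))
      rw [zero_sub] at i1
      rw [TWO.P_succ, neg_mul]
      refine i1.congr fun n => ?_
      ring
    | pred j ih =>
      intro m
      have i1 := (hr (-(j : ℤ) - 1) (m - 1)).sub (ih (m - 1))
      rw [zero_sub] at i1
      have e1 : -(j : ℤ) - 1 + 1 = -(j : ℤ) := by ring
      have e2 : m - 1 + 1 = m := by ring
      have e3 := TWO.P_succ (-(j : ℤ) - 1) (m - 1)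
      rw [e1, e2] at e3
      rw [e1, e2, e3, neg_mul, neg_neg] at i1
      refine i1.congr fun n => ?_
      ring
  exact key j m

end

end QJ


end

section

/-!
Integration by parts for products of four and of three jets.
-/

open Complex MeasureTheory Filter Topology Set
open scoped ContDiff

namespace QJ

open QE

noncomputable section

namespace IFO

variable {V : Set ℂ} {σ : ℂ → ℝ} {h : ℕ → ℝ} {φ : ℕ → ℂ → ℂ}

/-- the raising step: a sequence `S` with `h D u = S + h² B` tends weakly to zero -/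
lemma up_of (hInt : StmtInt) (hIbp : StmtIbp) (L : Loc V σ h φ) (hG : Grow V h φ) {ζ : ℂ → ℂ}
    (hζ : Test V ζ) (k : ℤ) {u B S : ℕ → ℂ → ℂ} (hu : Dom V h φ 4 u) (hB : Dom V h φ 4 B)
    (hS : ∀ n, ContDiff ℝ ∞ (S n))
    (he : ∀ n, ∀ z ∈ V, (h n : ℂ) * D σ k (u n) z = S n z + (h n : ℂ) ^ 2 * B n z) :
    Tendsto (fun n => ∫ z, ζ z * S n z) atTop (𝓝 0) := by
  have i1 := (hIbp V σ h φ u k L.op L.sm L.hpos L.hlim L.smφ hG hu.smooth hu.bq ζ hζ).1
  have i2 := (TWO.hlimC L).mul (TWO.hlim4 hInt L hG hB.smooth hB.bq hζ)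
  have i3 := i1.sub i2
  rw [mul_zero, sub_zero] at i3
  refine i3.congr fun n => ?_
  have e : ∀ z, ζ z * ((h n : ℂ) * D σ k (u n) z)
      = ζ z * S n z + (h n : ℂ) ^ 2 * (ζ z * B n z) := by
    intro z
    by_cases hz : z ∈ V
    · rw [he n z hz]; ring
    · rw [TWO.zero_off hζ hz]; ring
  have k1 : Integrable (fun z => ζ z * S n z) :=
    hζ.integrable_mul L.op (hS n).continuous.continuousOn
  have k2 : Integrable (fun z => ζ z * B n z) :=
    hζ.integrable_mul L.op (hB.smooth n).continuous.continuousOn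
  simp only [e]
  rw [integral_add k1 (k2.const_mul _), integral_const_mul]
  ring

/-- the lowering step -/
lemma down_of (hInt : StmtInt) (hIbp : StmtIbp) (L : Loc V σ h φ) (hG : Grow V h φ) {ζ : ℂ → ℂ}
    (hζ : Test V ζ) (k : ℤ) {u B S : ℕ → ℂ → ℂ} (hu : Dom V h φ 4 u) (hB : Dom V h φ 4 B)
    (hS : ∀ n, ContDiff ℝ ∞ (S n))
    (he : ∀ n, ∀ z ∈ V, (h n : ℂ) * Db σ k (u n) z = - S n z + (h n : ℂ) ^ 2 * B n z) :
    Tendsto (fun n => ∫ z, ζ z * S n z) atTop (𝓝 0) := by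
  have i1 := (hIbp V σ h φ u k L.op L.sm L.hpos L.hlim L.smφ hG hu.smooth hu.bq ζ hζ).2
  have i2 := (TWO.hlimC L).mul (TWO.hlim4 hInt L hG hB.smooth hB.bq hζ)
  have i3 := i2.sub i1
  rw [mul_zero, sub_zero] at i3
  refine i3.congr fun n => ?_
  have e : ∀ z, ζ z * ((h n : ℂ) * Db σ k (u n) z)
      = (h n : ℂ) ^ 2 * (ζ z * B n z) - ζ z * S n z := by
    intro z
    by_cases hz : z ∈ V
    · rw [he n z hz]; ring
    · rw [TWO.zero_off hζ hz]; ring
  have k1 : Integrable (fun z => ζ z * S n z) :=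
    hζ.integrable_mul L.op (hS n).continuous.continuousOn
  have k2 : Integrable (fun z => ζ z * B n z) :=
    hζ.integrable_mul L.op (hB.smooth n).continuous.continuousOn
  simp only [e]
  rw [integral_sub (k2.const_mul _) k1, integral_const_mul]
  ring

lemma add_three {S f g k : ℂ → ℂ} (hf : Integrable f) (hg : Integrable g) (hk : Integrable k)
    (he : ∀ z, S z = f z + g z + k z) :
    ∫ z, S z = (∫ z, f z) + (∫ z, g z) + ∫ z, k z := by
  have h1 : Integrable (fun z => f z + g z) := hf.add hg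
  simp only [he]
  rw [integral_add h1 hk, integral_add hf hg]

lemma add_four {S f g k l : ℂ → ℂ} (hf : Integrable f) (hg : Integrable g) (hk : Integrable k)
    (hl : Integrable l) (he : ∀ z, S z = f z + g z + k z + l z) :
    ∫ z, S z = (∫ z, f z) + (∫ z, g z) + (∫ z, k z) + ∫ z, l z := by
  have h1 : Integrable (fun z => f z + g z) := hf.add hg
  have h2 : Integrable (fun z => f z + g z + k z) := h1.add hk
  simp only [he]
  rw [integral_add h2 hl, integral_add h1 hk, integral_add hf hg]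

lemma four (hInt : StmtInt) (hIbp : StmtIbp) (hJ : StmtJetA) (L : Loc V σ h φ)
    (hG : Grow V h φ) {ζ : ℂ → ℂ} (hζ : Test V ζ) (a b c d : ℤ) :
    Tendsto (fun n => E4 σ h φ ζ (a + 1) b c d n + E4 σ h φ ζ a (b + 1) c d n
      + E4 σ h φ ζ a b (c + 1) d n + E4 σ h φ ζ a b c (d + 1) n) atTop (𝓝 0) := by
  have hσ := L.sm
  obtain ⟨da, ⟨A1, hA1, h1⟩, -⟩ := hJ V σ h φ L a
  obtain ⟨db, ⟨A2, hA2, h2⟩, -⟩ := hJ V σ h φ L b
  obtain ⟨dc, ⟨A3, hA3, h3⟩, -⟩ := hJ V σ h φ L c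
  obtain ⟨dd, ⟨A4, hA4, h4⟩, -⟩ := hJ V σ h φ L d
  have da1 := (hJ V σ h φ L (a + 1)).1
  have db1 := (hJ V σ h φ L (b + 1)).1
  have dc1 := (hJ V σ h φ L (c + 1)).1
  have dd1 := (hJ V σ h φ L (d + 1)).1
  have hV := L.op
  have pr : ∀ {u v w x : ℕ → ℂ → ℂ}, Dom V h φ 1 u → Dom V h φ 1 v → Dom V h φ 1 w →
      Dom V h φ 1 x → Dom V h φ 4 (fun n z => u n z * v n z * w n z * x n z) := by
    intro u v w x hu hv hw hx
    exact ((hu.mul hV hv).mul hV hw).mul hV hx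
  have du := pr da db dc dd
  have q1 := pr da1 db dc dd
  have q2 := pr da db1 dc dd
  have q3 := pr da db dc1 dd
  have q4 := pr da db dc dd1
  have hB := (((pr hA1 db dc dd).add hV (pr da hA2 dc dd)).add hV (pr da db hA3 dd)).add hV
    (pr da db dc hA4)
  have hS := ((q1.add hV q2).add hV q3).add hV q4
  have key := up_of hInt hIbp L hG hζ (a + b + c + d) du hB hS.smooth ?_
  · refine key.congr fun n => ?_
    have k1 := hζ.integrable_mul hV (q1.smooth n).continuous.continuousOn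
    have k2 := hζ.integrable_mul hV (q2.smooth n).continuous.continuousOn
    have k3 := hζ.integrable_mul hV (q3.smooth n).continuous.continuousOn
    have k4 := hζ.integrable_mul hV (q4.smooth n).continuous.continuousOn
    unfold E4
    exact add_four k1 k2 k3 k4 fun z => by ring
  · intro n z hz
    have sa := cd_at (da.smooth n) z
    have sb := cd_at (db.smooth n) z
    have sc := cd_at (dc.smooth n) z
    have sd := cd_at (dd.smooth n) z
    have m1 := D_mul hσ a b sa sb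
    have m2 := D_mul hσ (a + b) c (sa.fun_mul sb) sc
    have m3 := D_mul hσ (a + b + c) d ((sa.fun_mul sb).fun_mul sc) sd
    rw [m3, m2, m1]
    linear_combination (E σ h φ b n z * E σ h φ c n z * E σ h φ d n z) * h1 n z hz
      + (E σ h φ a n z * E σ h φ c n z * E σ h φ d n z) * h2 n z hz
      + (E σ h φ a n z * E σ h φ b n z * E σ h φ d n z) * h3 n z hz
      + (E σ h φ a n z * E σ h φ b n z * E σ h φ c n z) * h4 n z hz

lemma three_up (hInt : StmtInt) (hIbp : StmtIbp) (hJ : StmtJetA) (L : Loc V σ h φ)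
    (hG : Grow V h φ) {ζ : ℂ → ℂ} (hζ : Test V ζ) (a b c : ℤ) :
    Tendsto (fun n => E3 σ h φ ζ (a + 1) b c n + E3 σ h φ ζ a (b + 1) c n
      + E3 σ h φ ζ a b (c + 1) n) atTop (𝓝 0) := by
  have hσ := L.sm
  obtain ⟨da, ⟨A1, hA1, h1⟩, -⟩ := hJ V σ h φ L a
  obtain ⟨db, ⟨A2, hA2, h2⟩, -⟩ := hJ V σ h φ L b
  obtain ⟨dc, ⟨A3, hA3, h3⟩, -⟩ := hJ V σ h φ L c
  have da1 := (hJ V σ h φ L (a + 1)).1
  have db1 := (hJ V σ h φ L (b + 1)).1
  have dc1 := (hJ V σ h φ L (c + 1)).1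
  have hV := L.op
  have pr : ∀ {u v w : ℕ → ℂ → ℂ}, Dom V h φ 1 u → Dom V h φ 1 v → Dom V h φ 1 w →
      Dom V h φ 4 (fun n z => u n z * v n z * w n z) := by
    intro u v w hu hv hw
    exact ((hu.mul hV hv).mul hV hw).mono (by norm_num)
  have du := pr da db dc
  have q1 := pr da1 db dc
  have q2 := pr da db1 dc
  have q3 := pr da db dc1
  have hB := ((pr hA1 db dc).add hV (pr da hA2 dc)).add hV (pr da db hA3)
  have hS := (q1.add hV q2).add hV q3
  have key := up_of hInt hIbp L hG hζ (a + b + c) du hB hS.smooth ?_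
  · refine key.congr fun n => ?_
    have k1 := hζ.integrable_mul hV (q1.smooth n).continuous.continuousOn
    have k2 := hζ.integrable_mul hV (q2.smooth n).continuous.continuousOn
    have k3 := hζ.integrable_mul hV (q3.smooth n).continuous.continuousOn
    unfold E3
    exact add_three k1 k2 k3 fun z => by ring
  · intro n z hz
    have sa := cd_at (da.smooth n) z
    have sb := cd_at (db.smooth n) z
    have sc := cd_at (dc.smooth n) z
    have m1 := D_mul hσ a b sa sb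
    have m2 := D_mul hσ (a + b) c (sa.fun_mul sb) sc
    rw [m2, m1]
    linear_combination (E σ h φ b n z * E σ h φ c n z) * h1 n z hz
      + (E σ h φ a n z * E σ h φ c n z) * h2 n z hz
      + (E σ h φ a n z * E σ h φ b n z) * h3 n z hz

lemma three_down (hInt : StmtInt) (hIbp : StmtIbp) (hJ : StmtJetA) (L : Loc V σ h φ)
    (hG : Grow V h φ) {ζ : ℂ → ℂ} (hζ : Test V ζ) (a b c : ℤ) :
    Tendsto (fun n => E3 σ h φ ζ (a - 1) b c n + E3 σ h φ ζ a (b - 1) c n
      + E3 σ h φ ζ a b (c - 1) n) atTop (𝓝 0) := by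
  have hσ := L.sm
  obtain ⟨da, -, ⟨A1, hA1, h1⟩⟩ := hJ V σ h φ L a
  obtain ⟨db, -, ⟨A2, hA2, h2⟩⟩ := hJ V σ h φ L b
  obtain ⟨dc, -, ⟨A3, hA3, h3⟩⟩ := hJ V σ h φ L c
  have da1 := (hJ V σ h φ L (a - 1)).1
  have db1 := (hJ V σ h φ L (b - 1)).1
  have dc1 := (hJ V σ h φ L (c - 1)).1
  have hV := L.op
  have pr : ∀ {u v w : ℕ → ℂ → ℂ}, Dom V h φ 1 u → Dom V h φ 1 v → Dom V h φ 1 w →
      Dom V h φ 4 (fun n z => u n z * v n z * w n z) := by
    intro u v w hu hv hw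
    exact ((hu.mul hV hv).mul hV hw).mono (by norm_num)
  have du := pr da db dc
  have q1 := pr da1 db dc
  have q2 := pr da db1 dc
  have q3 := pr da db dc1
  have hB := ((pr hA1 db dc).add hV (pr da hA2 dc)).add hV (pr da db hA3)
  have hS := (q1.add hV q2).add hV q3
  have key := down_of hInt hIbp L hG hζ (a + b + c) du hB hS.smooth ?_
  · refine key.congr fun n => ?_
    have k1 := hζ.integrable_mul hV (q1.smooth n).continuous.continuousOn
    have k2 := hζ.integrable_mul hV (q2.smooth n).continuous.continuousOn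
    have k3 := hζ.integrable_mul hV (q3.smooth n).continuous.continuousOn
    unfold E3
    exact add_three k1 k2 k3 fun z => by ring
  · intro n z hz
    have sa := cd_at (da.smooth n) z
    have sb := cd_at (db.smooth n) z
    have sc := cd_at (dc.smooth n) z
    have m1 := Db_mul hσ a b sa sb
    have m2 := Db_mul hσ (a + b) c (sa.fun_mul sb) sc
    rw [m2, m1]
    linear_combination (E σ h φ b n z * E σ h φ c n z) * h1 n z hz
      + (E σ h φ a n z * E σ h φ c n z) * h2 n z hz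
      + (E σ h φ a n z * E σ h φ b n z) * h3 n z hz

end IFO

open _root_.QJ.IFO in
theorem stmtIfo (hGro : StmtGro) (hInt : StmtInt) (hIbp : StmtIbp) (hJetA : StmtJetA) :
    StmtIfo := by
  intro V σ h φ L ζ hζ
  have hG := hGro V σ h φ L
  exact ⟨four hInt hIbp hJetA L hG hζ, three_up hInt hIbp hJetA L hG hζ,
    three_down hInt hIbp hJetA L hG hζ⟩

end

end QJ


end

section

/-!
FOU: the four-jet integrals.
-/

open Complex MeasureTheory Filter Topology Set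
open scoped ContDiff

namespace QJ

open QE

namespace FOU

/-- the null sequences -/
def nul : Submodule ℂ (ℕ → ℂ) where
  carrier := {f | Tendsto f atTop (𝓝 0)}
  add_mem' := by
    intro f g hf hg
    have h1 := Tendsto.add hf hg
    rw [add_zero] at h1
    exact h1
  zero_mem' := by
    exact tendsto_const_nhds
  smul_mem' := by
    intro c f hf
    have h1 := Tendsto.const_mul c hf
    rw [mul_zero] at h1
    exact h1

theorem mem_nul (f : ℕ → ℂ) : f ∈ nul ↔ Tendsto f atTop (𝓝 0) := Iff.rfl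

theorem P_comm (j m : ℤ) : P j m = P m j := by
  unfold P
  by_cases hh : j + m = 0
  · have h2 : m + j = 0 := by omega
    have h3 : m = -j := by omega
    rw [if_pos hh, if_pos h2, h3, zpow_neg]
    rcases Int.even_or_odd j with he | ho
    · rw [he.neg_one_zpow]; simp
    · rw [ho.neg_one_zpow]; norm_num
  · have h2 : ¬ m + j = 0 := by omega
    rw [if_neg hh, if_neg h2]

theorem P_shift (j m : ℤ) : P (j + 1) (m - 1) = - P j m := by
  unfold P
  by_cases hh : j + m = 0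
  · have h2 : (j + 1) + (m - 1) = 0 := by omega
    rw [if_pos hh, if_pos h2, zpow_add₀ (by norm_num : (-1 : ℂ) ≠ 0)]
    simp
  · have h2 : ¬ (j + 1) + (m - 1) = 0 := by omega
    rw [if_neg hh, if_neg h2]; simp

theorem P_shift' (j m : ℤ) : P (j - 1) (m + 1) = - P j m := by
  have h := P_shift (j - 1) (m + 1)
  rw [sub_add_cancel, add_sub_cancel_right] at h
  rw [h, neg_neg]

theorem P_move (j m : ℤ) : P (j + 1) m = - P j (m + 1) := by
  have h := P_shift j (m + 1)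
  rw [add_sub_cancel_right] at h
  exact h

theorem wk_ab (a b c d : ℤ) : wk b a c d = wk a b c d := by
  unfold wk
  rw [P_comm b a]; ring

theorem wk_bc (a b c d : ℤ) : wk a c b d = wk a b c d := by
  unfold wk
  rw [P_comm c b]; ring

theorem wk_cd (a b c d : ℤ) : wk a b d c = wk a b c d := by
  unfold wk
  rw [P_comm d c]; ring

theorem wk_second (a b c d : ℤ) :
    wk (a + 1) (b + 1) (c - 1) (d - 1) + wk (a - 1) (b - 1) (c + 1) (d + 1) - 2 * wk a b c d
      = P (a + 1) (b + 1) * P (c - 1) (d - 1) + P (a - 1) (b - 1) * P (c + 1) (d + 1)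
        - 2 * (P a b * P c d) := by
  unfold wk
  rw [P_shift a c, P_shift b d, P_shift a d, P_shift b c, P_shift' a c, P_shift' b d,
    P_shift' a d, P_shift' b c]
  ring

theorem wk_first (a b c d : ℤ) :
    wk (a + 1) b c d + wk a (b + 1) c d + wk a b (c + 1) d + wk a b c (d + 1) = 0 := by
  unfold wk
  rw [P_move a b, P_move a c, P_move a d, P_move b d, P_move b c, P_move c d]
  ring

theorem wk_zero : wk 0 0 0 0 = 3 := by
  unfold wk P
  norm_num

theorem E4_ab (σ : ℂ → ℝ) (h : ℕ → ℝ) (φ : ℕ → ℂ → ℂ) (ζ : ℂ → ℂ) (a b c d : ℤ) (n : ℕ) :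
    E4 σ h φ ζ b a c d n = E4 σ h φ ζ a b c d n := by
  unfold E4
  congr 1
  funext z
  ring

theorem E4_bc (σ : ℂ → ℝ) (h : ℕ → ℝ) (φ : ℕ → ℂ → ℂ) (ζ : ℂ → ℂ) (a b c d : ℤ) (n : ℕ) :
    E4 σ h φ ζ a c b d n = E4 σ h φ ζ a b c d n := by
  unfold E4
  congr 1
  funext z
  ring

theorem E4_cd (σ : ℂ → ℝ) (h : ℕ → ℝ) (φ : ℕ → ℂ → ℂ) (ζ : ℂ → ℂ) (a b c d : ℤ) (n : ℕ) :
    E4 σ h φ ζ a b d c n = E4 σ h φ ζ a b c d n := by
  unfold E4
  congr 1
  funext z
  ring

end FOU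

open _root_.QJ.FOU

/-- the four-jet integrals -/
theorem stmtFou (hSec : StmtSec) (hIfo : StmtIfo) (hAlf : StmtAlf) : StmtFou := by
  intro V σ h φ hL ζ hζ a b c d habcd
  set I : ℂ := ∫ z, ζ z with hI
  let g : ℤ → ℤ → ℤ → ℤ → ℕ → ℂ := fun a b c d n => E4 σ h φ ζ a b c d n - wk a b c d * I
  let e : ℤ → ℤ → ℤ → ℤ → (ℕ → ℂ) ⧸ nul := fun a b c d => Submodule.Quotient.mk (g a b c d)
  have key := hAlf ((ℕ → ℂ) ⧸ nul) e ?_ ?_ ?_ ?_ ?_ a b c d habcd
  · have h1 : e a b c d = Submodule.Quotient.mk (cl4 a b c d • g 0 0 0 0) := by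
      rw [key]; rfl
    have h2 : g a b c d - cl4 a b c d • g 0 0 0 0 ∈ nul := (Submodule.Quotient.eq nul).1 h1
    rw [mem_nul] at h2
    refine h2.congr (fun n => ?_)
    simp only [g, Pi.sub_apply, Pi.smul_apply, smul_eq_mul, wk_zero]
    ring
  · intro a b c d
    simp only [e, g, wk_ab a b c d, E4_ab σ h φ ζ a b c d]
  · intro a b c d
    simp only [e, g, wk_bc a b c d, E4_bc σ h φ ζ a b c d]
  · intro a b c d
    simp only [e, g, wk_cd a b c d, E4_cd σ h φ ζ a b c d]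
  · intro a b c d hs
    have h1 : e (a + 1) (b + 1) (c - 1) (d - 1) + e (a - 1) (b - 1) (c + 1) (d + 1)
        = Submodule.Quotient.mk (g (a + 1) (b + 1) (c - 1) (d - 1)
          + g (a - 1) (b - 1) (c + 1) (d + 1)) := rfl
    have h2 : (2 : ℂ) • e a b c d = Submodule.Quotient.mk ((2 : ℂ) • g a b c d) := rfl
    rw [h1, h2]
    refine (Submodule.Quotient.eq nul).2 ?_
    rw [mem_nul]
    have h3 := hSec V σ h φ hL ζ hζ a b c d hs
    rw [← hI, ← wk_second a b c d] at h3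
    have h4 := h3.sub (tendsto_const_nhds (x := (wk (a + 1) (b + 1) (c - 1) (d - 1)
      + wk (a - 1) (b - 1) (c + 1) (d + 1) - 2 * wk a b c d) * I))
    rw [sub_self] at h4
    refine h4.congr (fun n => ?_)
    simp only [g, Pi.sub_apply, Pi.add_apply, Pi.smul_apply, smul_eq_mul]
    ring
  · intro a b c d hs
    have h1 : e (a + 1) b c d + e a (b + 1) c d + e a b (c + 1) d + e a b c (d + 1)
        = Submodule.Quotient.mk (g (a + 1) b c d + g a (b + 1) c d + g a b (c + 1) d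
          + g a b c (d + 1)) := rfl
    rw [h1]
    refine (Submodule.Quotient.mk_eq_zero nul).2 ?_
    rw [mem_nul]
    refine ((hIfo V σ h φ hL ζ hζ).1 a b c d).congr (fun n => ?_)
    simp only [g, Pi.add_apply]
    have h5 := wk_first a b c d
    linear_combination I * h5

end QJ


end

section

/-!
The three-jet integrals tend to zero.
-/

open Complex MeasureTheory Filter Topology Set
open scoped ContDiff

namespace QJ

open QE

noncomputable section

namespace CUB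

variable {V : Set ℂ} {σ : ℂ → ℝ} {h : ℕ → ℝ} {φ : ℕ → ℂ → ℂ}

lemma smE (L : Loc V σ h φ) (j : ℤ) (n : ℕ) : ContDiff ℝ ∞ (E σ h φ j n) :=
  (stmtJetA V σ h φ L j).1.smooth n

lemma conj_E (L : Loc V σ h φ) (j : ℤ) (n : ℕ) (z : ℂ) :
    (starRingEnd ℂ) (E σ h φ j n z) = (-1 : ℂ) ^ j * E σ h φ (-j) n z := by
  obtain ⟨m, rfl | rfl⟩ := j.eq_nat_or_neg
  · have e1 := congrFun (congrFun (JETA.E_neg L m) n) z
    have e2 : E σ h φ (m : ℤ) n z = jet σ h φ m n z := rfl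
    rw [e1, e2, zpow_natCast, ← mul_assoc, ← mul_pow]
    norm_num
  · have e1 := congrFun (congrFun (JETA.E_neg L m) n) z
    have e2 : E σ h φ (m : ℤ) n z = jet σ h φ m n z := rfl
    rw [e1, neg_neg, e2, map_mul, Complex.conj_conj, map_pow, map_neg, map_one, zpow_neg,
      zpow_natCast, ← inv_pow, inv_neg, inv_one]

/-! ### Step 1 -/

lemma class3 (hIfo : StmtIfo) (hAlt : StmtAlt) (L : Loc V σ h φ) {ζ : ℂ → ℂ} (hζ : Test V ζ)
    (a b c : ℤ) (habc : a + b + c = 0) :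
    Tendsto (fun n => E3 σ h φ ζ a b c n - cl3 b c * E3 σ h φ ζ 0 0 0 n) atTop (𝓝 0) := by
  obtain ⟨-, hup, hdn⟩ := hIfo V σ h φ L ζ hζ
  let e : ℤ → ℤ → ℤ → (ℕ → ℂ) ⧸ FOU.nul := fun a b c => FOU.nul.mkQ (E3 σ h φ ζ a b c)
  have s1 : ∀ a b c, E3 σ h φ ζ b a c = E3 σ h φ ζ a b c := by
    intro a b c
    funext n
    unfold E3
    refine integral_congr_ae (Filter.Eventually.of_forall fun z => ?_)
    show ζ z * (E σ h φ b n z * E σ h φ a n z * E σ h φ c n z) = _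
    ring
  have s2 : ∀ a b c, E3 σ h φ ζ a c b = E3 σ h φ ζ a b c := by
    intro a b c
    funext n
    unfold E3
    refine integral_congr_ae (Filter.Eventually.of_forall fun z => ?_)
    show ζ z * (E σ h φ a n z * E σ h φ c n z * E σ h φ b n z) = _
    ring
  have h1 := hAlt _ e (fun a b c => by show FOU.nul.mkQ _ = FOU.nul.mkQ _; rw [s1])
    (fun a b c => by show FOU.nul.mkQ _ = FOU.nul.mkQ _; rw [s2])
    (fun a b c _ => by
      show FOU.nul.mkQ _ + FOU.nul.mkQ _ + FOU.nul.mkQ _ = 0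
      rw [← map_add, ← map_add, Submodule.mkQ_apply, Submodule.Quotient.mk_eq_zero]
      exact hup a b c)
    (fun a b c _ => by
      show FOU.nul.mkQ _ + FOU.nul.mkQ _ + FOU.nul.mkQ _ = 0
      rw [← map_add, ← map_add, Submodule.mkQ_apply, Submodule.Quotient.mk_eq_zero]
      exact hdn a b c) a b c habc
  have h2 : FOU.nul.mkQ (E3 σ h φ ζ a b c - cl3 b c • E3 σ h φ ζ 0 0 0) = 0 := by
    rw [map_sub, map_smul, sub_eq_zero]
    exact h1
  rw [Submodule.mkQ_apply, Submodule.Quotient.mk_eq_zero] at h2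
  exact h2

/-! ### Step 3 -/

/-- the inner sum -/
def X (σ : ℂ → ℝ) (h : ℕ → ℝ) (φ : ℕ → ℂ → ℂ) (w : ℂ) (N c n : ℕ) (z : ℂ) : ℂ :=
  ∑ b ∈ Finset.range N, w ^ (b : ℤ) * (E σ h φ (-(b : ℤ) - c) n z * E σ h φ b n z)

/-- the outer sum -/
def S (σ : ℂ → ℝ) (h : ℕ → ℝ) (φ : ℕ → ℂ → ℂ) (w : ℂ) (N n : ℕ) (z : ℂ) : ℂ :=
  ∑ c ∈ Finset.range N, w ^ (-(c : ℤ)) * (E σ h φ c n z * X σ h φ w N c n z)

lemma cont_X (L : Loc V σ h φ) (w : ℂ) (N c n : ℕ) : Continuous (X σ h φ w N c n) := by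
  unfold X
  exact continuous_finsetSum _ fun b _ => continuous_const.mul
    ((smE L _ n).continuous.mul (smE L _ n).continuous)

lemma cont_S (L : Loc V σ h φ) (w : ℂ) (N n : ℕ) : Continuous (S σ h φ w N n) := by
  unfold S
  exact continuous_finsetSum _ fun c _ => continuous_const.mul
    ((smE L _ n).continuous.mul (cont_X L w N c n))

lemma normsq_E (L : Loc V σ h φ) (c n : ℕ) (z : ℂ) :
    ((‖E σ h φ c n z‖ ^ 2 : ℝ) : ℂ) = (-1 : ℂ) ^ c * (E σ h φ c n z * E σ h φ (-(c : ℤ)) n z) := by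
  have h1 := Complex.mul_conj' (E σ h φ c n z)
  rw [conj_E L, zpow_natCast] at h1
  push_cast
  rw [← h1]
  ring

lemma normsq_X (L : Loc V σ h φ) {w : ℂ} (hw : (starRingEnd ℂ) w = w⁻¹) (hw0 : w ≠ 0)
    (N c n : ℕ) (z : ℂ) :
    ((‖X σ h φ w N c n z‖ ^ 2 : ℝ) : ℂ) = ∑ b ∈ Finset.range N, ∑ b' ∈ Finset.range N,
      w ^ ((b : ℤ) - b') * (-1) ^ c * (E σ h φ (-(b : ℤ) - c) n z * E σ h φ b n z
        * E σ h φ ((b' : ℤ) + c) n z * E σ h φ (-(b' : ℤ)) n z) := by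
  have h1 := Complex.mul_conj' (X σ h φ w N c n z)
  have h2 : (starRingEnd ℂ) (X σ h φ w N c n z) = ∑ b' ∈ Finset.range N,
      w ^ (-(b' : ℤ)) * (-1) ^ c * (E σ h φ ((b' : ℤ) + c) n z * E σ h φ (-(b' : ℤ)) n z) := by
    unfold X
    rw [map_sum]
    refine Finset.sum_congr rfl fun b _ => ?_
    rw [map_mul, map_mul, conj_E L, conj_E L, map_zpow₀, hw, inv_zpow', neg_sub]
    have e1 : (-1 : ℂ) ^ (-(b : ℤ) - c) * (-1 : ℂ) ^ (b : ℤ) = (-1) ^ c := by
      rw [← zpow_add₀ (by norm_num : (-1 : ℂ) ≠ 0), show -(b : ℤ) - c + b = -(c : ℤ) by ring,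
        zpow_neg, zpow_natCast, ← inv_pow, inv_neg, inv_one]
    have e2 : (c : ℤ) - -(b : ℤ) = (b : ℤ) + c := by ring
    rw [e2, ← e1]
    ring
  push_cast
  rw [← h1, h2]
  unfold X
  rw [Finset.sum_mul_sum]
  refine Finset.sum_congr rfl fun b _ => Finset.sum_congr rfl fun b' _ => ?_
  rw [sub_eq_add_neg (b : ℤ) (b' : ℤ), zpow_add₀ hw0]
  ring

lemma int_sum {ζ : ℂ → ℂ} (hV : IsOpen V) (hζ : Test V ζ) {ι : Type} (s : Finset ι) (k : ι → ℂ)
    (f : ι → ℂ → ℂ) (hf : ∀ i, Continuous (f i)) :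
    ∫ z, ∑ i ∈ s, k i * (ζ z * f i z) = ∑ i ∈ s, k i * ∫ z, ζ z * f i z := by
  rw [integral_finsetSum]
  · exact Finset.sum_congr rfl fun i _ => integral_const_mul _ _
  · intro i _
    exact (hζ.integrable_mul hV (hf i).continuousOn).const_mul _

lemma int_sum2 {ζ : ℂ → ℂ} (hV : IsOpen V) (hζ : Test V ζ) (s t : Finset ℕ) (k : ℕ → ℕ → ℂ)
    (f : ℕ → ℕ → ℂ → ℂ) (hf : ∀ i j, Continuous (f i j)) :
    ∫ z, ∑ i ∈ s, ∑ j ∈ t, k i j * (ζ z * f i j z)
      = ∑ i ∈ s, ∑ j ∈ t, k i j * ∫ z, ζ z * f i j z := by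
  have h1 := int_sum hV hζ (s ×ˢ t) (fun p => k p.1 p.2) (fun p => f p.1 p.2)
    (fun p => hf p.1 p.2)
  simp only [Finset.sum_product] at h1
  exact h1

lemma int_sum3 {ζ : ℂ → ℂ} (hV : IsOpen V) (hζ : Test V ζ) (s t u : Finset ℕ)
    (k : ℕ → ℕ → ℕ → ℂ) (f : ℕ → ℕ → ℕ → ℂ → ℂ) (hf : ∀ i j l, Continuous (f i j l)) :
    ∫ z, ∑ i ∈ s, ∑ j ∈ t, ∑ l ∈ u, k i j l * (ζ z * f i j l z)
      = ∑ i ∈ s, ∑ j ∈ t, ∑ l ∈ u, k i j l * ∫ z, ζ z * f i j l z := by
  have h1 := int_sum hV hζ (s ×ˢ (t ×ˢ u)) (fun p => k p.1 p.2.1 p.2.2)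
    (fun p => f p.1 p.2.1 p.2.2) (fun p => hf p.1 p.2.1 p.2.2)
  simp only [Finset.sum_product] at h1
  exact h1

lemma int_S (L : Loc V σ h φ) {ζ : ℂ → ℂ} (hζ : Test V ζ) {w : ℂ} (hw0 : w ≠ 0) (N n : ℕ) :
    ∫ z, ζ z * S σ h φ w N n z = ∑ b ∈ Finset.range N, ∑ c ∈ Finset.range N,
      w ^ ((b : ℤ) - c) * E3 σ h φ ζ (-(b : ℤ) - c) b c n := by
  unfold E3
  rw [← int_sum2 L.op hζ (Finset.range N) (Finset.range N) (fun b c => w ^ ((b : ℤ) - c))
    (fun b c z => E σ h φ (-(b : ℤ) - c) n z * E σ h φ b n z * E σ h φ c n z)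
    (fun b c => ((smE L _ n).continuous.mul (smE L _ n).continuous).mul (smE L _ n).continuous)]
  refine integral_congr_ae (Filter.Eventually.of_forall fun z => ?_)
  show ζ z * S σ h φ w N n z = _
  unfold S X
  simp only [Finset.mul_sum]
  rw [Finset.sum_comm]
  refine Finset.sum_congr rfl fun b _ => Finset.sum_congr rfl fun c _ => ?_
  rw [sub_eq_add_neg (b : ℤ) (c : ℤ), zpow_add₀ hw0]
  ring

/-- the majorant -/
def R (σ : ℂ → ℝ) (h : ℕ → ℝ) (φ : ℕ → ℂ → ℂ) (ζ : ℂ → ℂ) (w : ℂ) (t : ℝ) (N n : ℕ) : ℂ :=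
  (1 / 2) * ((t : ℂ) * (∑ c ∈ Finset.range N, (-1) ^ c
      * ∫ z, ζ z * (E σ h φ c n z * E σ h φ (-(c : ℤ)) n z))
    + (t : ℂ)⁻¹ * ∑ c ∈ Finset.range N, ∑ b ∈ Finset.range N, ∑ b' ∈ Finset.range N,
      w ^ ((b : ℤ) - b') * (-1) ^ c
        * E4 σ h φ ζ (-(b : ℤ) - c) b ((b' : ℤ) + c) (-(b' : ℤ)) n)

lemma norm_w {w : ℂ} (hw : (starRingEnd ℂ) w = w⁻¹) (hw0 : w ≠ 0) : ‖w‖ = 1 := by
  have h1 := Complex.mul_conj' w
  rw [hw, mul_inv_cancel₀ hw0] at h1
  have h2 : (‖w‖ : ℝ) ^ 2 = 1 := by exact_mod_cast h1.symm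
  have h3 := norm_nonneg w
  nlinarith only [h2, h3]

lemma two_mul_le {t a b : ℝ} (ht : 0 < t) : a * b ≤ (t * a ^ 2 + t⁻¹ * b ^ 2) / 2 := by
  have h1 : t * (a - t⁻¹ * b) ^ 2 = t * a ^ 2 + t⁻¹ * b ^ 2 - 2 * (a * b) := by
    field_simp
    ring
  have h2 : 0 ≤ t * (a - t⁻¹ * b) ^ 2 := by positivity
  linarith

lemma main_ineq (L : Loc V σ h φ) {r : ℂ → ℝ} (hζ : Test V (fun z => (r z : ℂ)))
    (hr : ∀ z, 0 ≤ r z) {w : ℂ} (hw : (starRingEnd ℂ) w = w⁻¹) (hw0 : w ≠ 0) {t : ℝ}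
    (ht : 0 < t) (N n : ℕ) :
    ‖∫ z, (r z : ℂ) * S σ h φ w N n z‖ ≤ ‖R σ h φ (fun z => (r z : ℂ)) w t N n‖ := by
  have hrc : Continuous r := by
    have h1 := Complex.continuous_re.comp hζ.smooth.continuous
    exact h1
  have hrs : HasCompactSupport r := by
    have h1 := hζ.supp.comp_left (g := Complex.re) Complex.zero_re
    exact h1
  set f : ℂ → ℝ := fun z => r z * ((t * ∑ c ∈ Finset.range N, ‖E σ h φ c n z‖ ^ 2
    + t⁻¹ * ∑ c ∈ Finset.range N, ‖X σ h φ w N c n z‖ ^ 2) / 2) with hf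
  have hfc : Continuous f := by
    refine hrc.mul (Continuous.div_const ((continuous_const.mul (continuous_finsetSum _ fun c _ =>
      ((smE L _ n).continuous.norm.pow 2))).add (continuous_const.mul
        (continuous_finsetSum _ fun c _ => ((cont_X L w N c n).norm.pow 2)))) 2)
  have hfi : Integrable f := hfc.integrable_of_hasCompactSupport hrs.mul_right
  have hpt : ∀ z, ‖(r z : ℂ) * S σ h φ w N n z‖ ≤ f z := by
    intro z
    rw [norm_mul, Complex.norm_real, Real.norm_of_nonneg (hr z)]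
    refine mul_le_mul_of_nonneg_left ?_ (hr z)
    rw [Finset.mul_sum, Finset.mul_sum, ← Finset.sum_add_distrib, Finset.sum_div]
    unfold S
    refine (norm_sum_le _ _).trans (Finset.sum_le_sum fun c _ => ?_)
    rw [norm_mul, norm_zpow, norm_w hw hw0, one_zpow, one_mul, norm_mul]
    exact two_mul_le ht
  have hSi : Integrable (fun z => (r z : ℂ) * S σ h φ w N n z) :=
    hζ.integrable_mul L.op (cont_S L w N n).continuousOn
  have h1 : ‖∫ z, (r z : ℂ) * S σ h φ w N n z‖ ≤ ∫ z, f z :=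
    (norm_integral_le_integral_norm _).trans (integral_mono hSi.norm hfi hpt)
  have h2 : ((∫ z, f z : ℝ) : ℂ) = R σ h φ (fun z => (r z : ℂ)) w t N n := by
    rw [← integral_complex_ofReal]
    have e : ∀ z, ((f z : ℝ) : ℂ) = (1 / 2) * ((t : ℂ) * (∑ c ∈ Finset.range N, (-1) ^ c
        * ((r z : ℂ) * (E σ h φ c n z * E σ h φ (-(c : ℤ)) n z)))
      + (t : ℂ)⁻¹ * ∑ c ∈ Finset.range N, ∑ b ∈ Finset.range N, ∑ b' ∈ Finset.range N,
        w ^ ((b : ℤ) - b') * (-1) ^ c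
          * ((r z : ℂ) * (E σ h φ (-(b : ℤ) - c) n z * E σ h φ b n z
        * E σ h φ ((b' : ℤ) + c) n z * E σ h φ (-(b' : ℤ)) n z))) := by
      intro z
      have e1 : ((∑ c ∈ Finset.range N, ‖E σ h φ c n z‖ ^ 2 : ℝ) : ℂ)
          = ∑ c ∈ Finset.range N, (-1) ^ c * (E σ h φ c n z * E σ h φ (-(c : ℤ)) n z) := by
        rw [Complex.ofReal_sum]
        exact Finset.sum_congr rfl fun c _ => normsq_E L c n z
      have e2 : ((∑ c ∈ Finset.range N, ‖X σ h φ w N c n z‖ ^ 2 : ℝ) : ℂ)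
          = ∑ c ∈ Finset.range N, ∑ b ∈ Finset.range N, ∑ b' ∈ Finset.range N,
            w ^ ((b : ℤ) - b') * (-1) ^ c * (E σ h φ (-(b : ℤ) - c) n z * E σ h φ b n z
            * E σ h φ ((b' : ℤ) + c) n z * E σ h φ (-(b' : ℤ)) n z) := by
        rw [Complex.ofReal_sum]
        exact Finset.sum_congr rfl fun c _ => normsq_X L hw hw0 N c n z
      have e3 : ((f z : ℝ) : ℂ) = (r z : ℂ) * (((t : ℂ)
          * ((∑ c ∈ Finset.range N, ‖E σ h φ c n z‖ ^ 2 : ℝ) : ℂ)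
          + (t : ℂ)⁻¹ * ((∑ c ∈ Finset.range N, ‖X σ h φ w N c n z‖ ^ 2 : ℝ) : ℂ)) / 2) := by
        rw [hf]
        simp only [Complex.ofReal_mul, Complex.ofReal_add, Complex.ofReal_div,
          Complex.ofReal_inv, Complex.ofReal_ofNat]
      have e4 : (∑ c ∈ Finset.range N, (-1 : ℂ) ^ c
          * ((r z : ℂ) * (E σ h φ c n z * E σ h φ (-(c : ℤ)) n z)))
          = (r z : ℂ) * ∑ c ∈ Finset.range N, (-1) ^ c
            * (E σ h φ c n z * E σ h φ (-(c : ℤ)) n z) := by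
        rw [Finset.mul_sum]
        exact Finset.sum_congr rfl fun c _ => by ring
      have e5 : (∑ c ∈ Finset.range N, ∑ b ∈ Finset.range N, ∑ b' ∈ Finset.range N,
          w ^ ((b : ℤ) - b') * (-1) ^ c
          * ((r z : ℂ) * (E σ h φ (-(b : ℤ) - c) n z * E σ h φ b n z
          * E σ h φ ((b' : ℤ) + c) n z * E σ h φ (-(b' : ℤ)) n z)))
          = (r z : ℂ) * ∑ c ∈ Finset.range N, ∑ b ∈ Finset.range N, ∑ b' ∈ Finset.range N,
            w ^ ((b : ℤ) - b') * (-1) ^ c * (E σ h φ (-(b : ℤ) - c) n z * E σ h φ b n z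
            * E σ h φ ((b' : ℤ) + c) n z * E σ h φ (-(b' : ℤ)) n z) := by
        rw [Finset.mul_sum]
        refine Finset.sum_congr rfl fun c _ => ?_
        rw [Finset.mul_sum]
        refine Finset.sum_congr rfl fun b _ => ?_
        rw [Finset.mul_sum]
        exact Finset.sum_congr rfl fun b' _ => by ring
      rw [e3, e4, e5, e1, e2]
      ring
    simp only [e]
    have c1 : ∀ c : ℕ, Continuous (fun z => E σ h φ c n z * E σ h φ (-(c : ℤ)) n z) := fun c =>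
      (smE L _ n).continuous.mul (smE L _ n).continuous
    have c2 : ∀ c b b' : ℕ, Continuous (fun z => E σ h φ (-(b : ℤ) - c) n z * E σ h φ b n z
        * E σ h φ ((b' : ℤ) + c) n z * E σ h φ (-(b' : ℤ)) n z) := fun c b b' =>
      (((smE L _ n).continuous.mul (smE L _ n).continuous).mul (smE L _ n).continuous).mul
        (smE L _ n).continuous
    have i1 : Integrable (fun z => (t : ℂ) * (∑ c ∈ Finset.range N, (-1 : ℂ) ^ c
        * ((r z : ℂ) * (E σ h φ c n z * E σ h φ (-(c : ℤ)) n z)))) :=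
      (integrable_finsetSum _ fun c _ =>
        (hζ.integrable_mul L.op (c1 c).continuousOn).const_mul _).const_mul _
    have i2 : Integrable (fun z => (t : ℂ)⁻¹ * ∑ c ∈ Finset.range N, ∑ b ∈ Finset.range N,
        ∑ b' ∈ Finset.range N, w ^ ((b : ℤ) - b') * (-1) ^ c
          * ((r z : ℂ) * (E σ h φ (-(b : ℤ) - c) n z * E σ h φ b n z
        * E σ h φ ((b' : ℤ) + c) n z * E σ h φ (-(b' : ℤ)) n z))) :=
      (integrable_finsetSum _ fun c _ => integrable_finsetSum _ fun b _ =>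
        integrable_finsetSum _ fun b' _ =>
        (hζ.integrable_mul L.op (c2 c b b').continuousOn).const_mul _).const_mul _
    rw [integral_const_mul, integral_add i1 i2, integral_const_mul, integral_const_mul,
      int_sum L.op hζ _ _ _ c1, int_sum3 L.op hζ _ _ _ (fun c b b' => w ^ ((b : ℤ) - b') * (-1) ^ c)
        (fun c b b' z => E σ h φ (-(b : ℤ) - c) n z * E σ h φ b n z
        * E σ h φ ((b' : ℤ) + c) n z * E σ h φ (-(b' : ℤ)) n z) c2]
    rfl
  calc ‖∫ z, (r z : ℂ) * S σ h φ w N n z‖ ≤ ∫ z, f z := h1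
    _ ≤ |∫ z, f z| := le_abs_self _
    _ = ‖R σ h φ (fun z => (r z : ℂ)) w t N n‖ := by
      rw [← h2, Complex.norm_real, Real.norm_eq_abs]

lemma lim_one (hTwo : StmtTwo) (L : Loc V σ h φ) {ζ : ℂ → ℂ} (hζ : Test V ζ) (N : ℕ) :
    Tendsto (fun n => ∑ c ∈ Finset.range N, (-1 : ℂ) ^ c
      * ∫ z, ζ z * (E σ h φ c n z * E σ h φ (-(c : ℤ)) n z)) atTop (𝓝 (N * ∫ z, ζ z)) := by
  have h1 : Tendsto (fun n => ∑ c ∈ Finset.range N, (-1 : ℂ) ^ c
      * ∫ z, ζ z * (E σ h φ c n z * E σ h φ (-(c : ℤ)) n z)) atTop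
      (𝓝 (∑ c ∈ Finset.range N, (-1 : ℂ) ^ c * (P c (-(c : ℤ)) * ∫ z, ζ z))) :=
    tendsto_finsetSum _ fun c _ => (hTwo V σ h φ L c (-(c : ℤ)) ζ hζ).const_mul _
  have h2 : ∑ c ∈ Finset.range N, (-1 : ℂ) ^ c * (P c (-(c : ℤ)) * ∫ z, ζ z)
      = N * ∫ z, ζ z := by
    have h3 : ∀ c ∈ Finset.range N, (-1 : ℂ) ^ c * (P c (-(c : ℤ)) * ∫ z, ζ z) = ∫ z, ζ z := by
      intro c _
      unfold P
      rw [if_pos (by ring), zpow_natCast, ← mul_assoc, ← mul_pow]
      norm_num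
    rw [Finset.sum_congr rfl h3, Finset.sum_const, Finset.card_range, nsmul_eq_mul]
  rwa [h2] at h1

lemma lim_two (hFou : StmtFou) (L : Loc V σ h φ) {ζ : ℂ → ℂ} (hζ : Test V ζ) {w : ℂ} {N : ℕ}
    (s2 : ∑ c ∈ Finset.range N, ∑ b ∈ Finset.range N, ∑ b' ∈ Finset.range N,
      w ^ ((b : ℤ) - b') * (-1) ^ c * cl4 (-(b : ℤ) - c) b ((b' : ℤ) + c) (-(b' : ℤ)) = 0)
    (s3 : ∑ c ∈ Finset.range N, ∑ b ∈ Finset.range N, ∑ b' ∈ Finset.range N,
      w ^ ((b : ℤ) - b') * (-1) ^ c * wk (-(b : ℤ) - c) b ((b' : ℤ) + c) (-(b' : ℤ))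
        = (N : ℂ) ^ 2 + 1) :
    Tendsto (fun n => ∑ c ∈ Finset.range N, ∑ b ∈ Finset.range N, ∑ b' ∈ Finset.range N,
      w ^ ((b : ℤ) - b') * (-1) ^ c
        * E4 σ h φ ζ (-(b : ℤ) - c) b ((b' : ℤ) + c) (-(b' : ℤ)) n) atTop
      (𝓝 (((N : ℂ) ^ 2 + 1) * ∫ z, ζ z)) := by
  have h1 : Tendsto (fun n => ∑ c ∈ Finset.range N, ∑ b ∈ Finset.range N,
      ∑ b' ∈ Finset.range N, w ^ ((b : ℤ) - b') * (-1) ^ c
        * (E4 σ h φ ζ (-(b : ℤ) - c) b ((b' : ℤ) + c) (-(b' : ℤ)) n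
          - (wk (-(b : ℤ) - c) b ((b' : ℤ) + c) (-(b' : ℤ)) * (∫ z, ζ z)
        + cl4 (-(b : ℤ) - c) b ((b' : ℤ) + c) (-(b' : ℤ))
          * (E4 σ h φ ζ 0 0 0 0 n - 3 * ∫ z, ζ z)))) atTop
      (𝓝 (∑ c ∈ Finset.range N, ∑ b ∈ Finset.range N,
      ∑ b' ∈ Finset.range N, w ^ ((b : ℤ) - b') * (-1) ^ c * 0)) :=
    tendsto_finsetSum _ fun c _ => tendsto_finsetSum _ fun b _ => tendsto_finsetSum _ fun b' _ =>
      (hFou V σ h φ L ζ hζ _ _ _ _ (by ring)).const_mul _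
  simp only [mul_zero, Finset.sum_const_zero] at h1
  have h2 := h1.add_const (((N : ℂ) ^ 2 + 1) * ∫ z, ζ z)
  rw [zero_add] at h2
  refine h2.congr fun n => ?_
  simp only [mul_sub, mul_add, Finset.sum_sub_distrib, Finset.sum_add_distrib, ← mul_assoc,
    ← Finset.sum_mul]
  rw [s2, s3]
  ring

lemma lim_S (hIfo : StmtIfo) (hAlt : StmtAlt) (L : Loc V σ h φ) {ζ : ℂ → ℂ} (hζ : Test V ζ)
    {w : ℂ} (hw0 : w ≠ 0) {N : ℕ}
    (s1 : ∑ b ∈ Finset.range N, ∑ c ∈ Finset.range N,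
      w ^ ((b : ℤ) - c) * cl3 (b : ℤ) c = (N : ℂ) ^ 2 / 2) :
    Tendsto (fun n => (∫ z, ζ z * S σ h φ w N n z)
      - (N : ℂ) ^ 2 / 2 * E3 σ h φ ζ 0 0 0 n) atTop (𝓝 0) := by
  have h1 : Tendsto (fun n => ∑ b ∈ Finset.range N, ∑ c ∈ Finset.range N,
      w ^ ((b : ℤ) - c) * (E3 σ h φ ζ (-(b : ℤ) - c) b c n
        - cl3 (b : ℤ) c * E3 σ h φ ζ 0 0 0 n)) atTop
      (𝓝 (∑ b ∈ Finset.range N, ∑ c ∈ Finset.range N, w ^ ((b : ℤ) - c) * 0)) :=
    tendsto_finsetSum _ fun b _ => tendsto_finsetSum _ fun c _ =>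
      (class3 hIfo hAlt L hζ _ _ _ (by ring)).const_mul _
  simp only [mul_zero, Finset.sum_const_zero] at h1
  refine h1.congr fun n => ?_
  rw [int_S L hζ hw0]
  simp only [mul_sub, Finset.sum_sub_distrib, ← mul_assoc, ← Finset.sum_mul]
  rw [s1]

lemma nonneg_case (hTwo : StmtTwo) (hIfo : StmtIfo) (hAlt : StmtAlt) (hFou : StmtFou)
    (hSum : StmtSum) (L : Loc V σ h φ) {r : ℂ → ℝ} (hζ : Test V (fun z => (r z : ℂ)))
    (hr : ∀ z, 0 ≤ r z) : Tendsto (E3 σ h φ (fun z => (r z : ℂ)) 0 0 0) atTop (𝓝 0) := by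
  set w : ℂ := Complex.exp (2 * Real.pi * Complex.I / 3) with hwdef
  have hw0 : w ≠ 0 := Complex.exp_ne_zero _
  have hw : (starRingEnd ℂ) w = w⁻¹ := by
    rw [hwdef, ← Complex.exp_conj, ← Complex.exp_neg]
    congr 1
    simp only [map_div₀, map_mul, Complex.conj_ofReal, Complex.conj_I, map_ofNat]
    ring
  set I₀ : ℂ := ∫ z, (r z : ℂ) with hI
  rw [Metric.tendsto_atTop]
  intro ε hε
  obtain ⟨m, hm⟩ := exists_nat_gt (‖I₀‖ / ε)
  have hm0 : (0 : ℝ) < m := lt_of_le_of_lt (by positivity) hm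
  have hmI : ‖I₀‖ < m * ε := (div_lt_iff₀ hε).1 hm
  have hm1 : 0 < m := by exact_mod_cast hm0
  have hm1' : (1 : ℝ) ≤ m := by exact_mod_cast hm1
  set N : ℕ := 36 * m ^ 2 with hN
  have hN0 : 0 < N := by positivity
  have hN6 : 6 ∣ N := ⟨6 * m ^ 2, by rw [hN]; ring⟩
  obtain ⟨s1, s2, s3⟩ := hSum w N hwdef hN6 hN0
  set t : ℝ := 6 * m with ht
  have ht0 : 0 < t := by positivity
  have l1 := lim_one hTwo L hζ N
  have l2 := lim_two hFou L hζ s2 s3
  have l3 := lim_S hIfo hAlt L hζ hw0 s1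
  have lR : Tendsto (R σ h φ (fun z => (r z : ℂ)) w t N) atTop
      (𝓝 ((1 / 2) * ((t : ℂ) * (N * I₀) + (t : ℂ)⁻¹ * (((N : ℂ) ^ 2 + 1) * I₀)))) :=
    ((l1.const_mul _).add (l2.const_mul _)).const_mul _
  have l4 := lR.norm.add l3.norm
  rw [norm_zero, add_zero] at l4
  have hlim : ‖(1 / 2) * ((t : ℂ) * (N * I₀) + (t : ℂ)⁻¹ * (((N : ℂ) ^ 2 + 1) * I₀))‖
      < 648 * m ^ 4 * ε := by
    have e1 : (1 / 2) * ((t : ℂ) * (N * I₀) + (t : ℂ)⁻¹ * (((N : ℂ) ^ 2 + 1) * I₀))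
        = (((1 / 2) * (t * N + t⁻¹ * ((N : ℝ) ^ 2 + 1)) : ℝ) : ℂ) * I₀ := by
      push_cast; ring
    rw [e1, norm_mul, Complex.norm_real, Real.norm_of_nonneg (by positivity)]
    have e2 : (1 / 2) * (t * N + t⁻¹ * ((N : ℝ) ^ 2 + 1)) = 216 * (m : ℝ) ^ 3 + 1 / (12 * m) := by
      rw [ht, hN]
      push_cast
      field_simp
      ring
    rw [e2]
    have e3 : 216 * (m : ℝ) ^ 3 + 1 / (12 * m) ≤ 648 * (m : ℝ) ^ 3 := by
      have h1 : 1 / (12 * (m : ℝ)) ≤ 1 := by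
        rw [div_le_one (by positivity)]; linarith only [hm1']
      have h2 : (1 : ℝ) ≤ (m : ℝ) ^ 3 := one_le_pow₀ hm1'
      linarith only [h1, h2]
    calc (216 * (m : ℝ) ^ 3 + 1 / (12 * m)) * ‖I₀‖ ≤ (648 * (m : ℝ) ^ 3) * ‖I₀‖ :=
          mul_le_mul_of_nonneg_right e3 (norm_nonneg _)
      _ < (648 * (m : ℝ) ^ 3) * (m * ε) := mul_lt_mul_of_pos_left hmI (by positivity)
      _ = 648 * m ^ 4 * ε := by ring
  have hev := l4.eventually (gt_mem_nhds hlim)
  obtain ⟨n₀, hn₀⟩ := Filter.eventually_atTop.1 hev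
  refine ⟨n₀, fun n hn => ?_⟩
  rw [dist_zero_right]
  have h1 := hn₀ n hn
  have h2 := main_ineq L hζ hr hw hw0 ht0 N n
  set T := E3 σ h φ (fun z => (r z : ℂ)) 0 0 0 n with hT
  have h3 : ‖(N : ℂ) ^ 2 / 2 * T‖ ≤ ‖∫ z, (r z : ℂ) * S σ h φ w N n z‖
      + ‖(∫ z, (r z : ℂ) * S σ h φ w N n z) - (N : ℂ) ^ 2 / 2 * T‖ := by
    have e1 : (N : ℂ) ^ 2 / 2 * T = (∫ z, (r z : ℂ) * S σ h φ w N n z)
        - ((∫ z, (r z : ℂ) * S σ h φ w N n z) - (N : ℂ) ^ 2 / 2 * T) := by ring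
    calc ‖(N : ℂ) ^ 2 / 2 * T‖ = ‖(∫ z, (r z : ℂ) * S σ h φ w N n z)
        - ((∫ z, (r z : ℂ) * S σ h φ w N n z) - (N : ℂ) ^ 2 / 2 * T)‖ := by rw [← e1]
      _ ≤ _ := norm_sub_le _ _
  have h4 : ‖(N : ℂ) ^ 2 / 2 * T‖ = 648 * (m : ℝ) ^ 4 * ‖T‖ := by
    have e1 : (N : ℂ) ^ 2 / 2 * T = ((648 * (m : ℝ) ^ 4 : ℝ) : ℂ) * T := by
      rw [hN]; push_cast; ring
    rw [e1, norm_mul, Complex.norm_real, Real.norm_of_nonneg (by positivity)]
  have h5 : 648 * (m : ℝ) ^ 4 * ‖T‖ < 648 * m ^ 4 * ε := by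
    rw [← h4]
    linarith only [h2, h1, h3]
  exact lt_of_mul_lt_mul_left h5 (by positivity)

end CUB

open _root_.QJ.CUB in
theorem stmtCub (hGro : StmtGro) (hTwo : StmtTwo) (hIfo : StmtIfo) (hAlt : StmtAlt)
    (hFou : StmtFou) (hSum : StmtSum) : StmtCub := by
  intro V σ h φ L ζ hζ a b c habc
  have _ := hGro
  have h0 : Tendsto (fun n => E3 σ h φ ζ 0 0 0 n) atTop (𝓝 0) := by
    refine Test.induct_nonneg L.op (F := fun n ζ => E3 σ h φ ζ 0 0 0 n) ?_ ?_ ?_ hζ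
    · intro n ξ ξ' h1 h2
      exact Test.int_add L.op (((smE L 0 n).mul (smE L 0 n)).mul (smE L 0 n)).contDiffOn h1 h2
    · intro n k ξ _
      exact Test.int_smul k ξ
    · intro r h1 h2
      exact nonneg_case hTwo hIfo hAlt hFou hSum L h1 h2
  have h1 := (class3 hIfo hAlt L hζ a b c habc).add (h0.const_mul (cl3 b c))
  rw [mul_zero, add_zero] at h1
  refine h1.congr fun n => ?_
  ring

end

end QJ


end

section

/-!
Growth of the jets of arbitrary sequences of eigenfunctions, from the Morawetz estimate and the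
pointwise bound.
-/

open Complex MeasureTheory Filter Topology Set Metric
open scoped ContDiff Manifold

namespace U3

open QE QJ QJ.GRO

noncomputable section

namespace GROA

theorem ru_eq {V : Set ℂ} {σ : ℂ → ℝ} {h : ℕ → ℝ} {φ : ℕ → ℂ → ℂ} (hL : LocB V σ h φ) (n : ℕ) :
    φ n = fun z => ((ru φ n z : ℝ) : ℂ) := by
  funext z
  exact (Complex.conj_eq_iff_re.mp (hL.real n z)).symm

theorem norm_sq_eq {V : Set ℂ} {σ : ℂ → ℝ} {h : ℕ → ℝ} {φ : ℕ → ℂ → ℂ} (hL : LocB V σ h φ) (n : ℕ)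
    (z : ℂ) : ‖φ n z‖ ^ 2 = ru φ n z ^ 2 := by
  have h1 : φ n z = ((ru φ n z : ℝ) : ℂ) := congrFun (ru_eq hL n) z
  rw [h1, Complex.norm_real, Real.norm_eq_abs, sq_abs]

theorem contDiff_ru {V : Set ℂ} {σ : ℂ → ℝ} {h : ℕ → ℝ} {φ : ℕ → ℂ → ℂ} (hL : LocB V σ h φ) (n : ℕ) :
    ContDiff ℝ ∞ (ru φ n) := reCLM.contDiff.comp (hL.smφ n)

theorem ru_eig {V : Set ℂ} {σ : ℂ → ℝ} {h : ℕ → ℝ} {φ : ℕ → ℂ → ℂ} (hL : LocB V σ h φ) (n : ℕ) {z : ℂ}
    (hz : z ∈ V) : h n ^ 2 * lap (ru φ n) z = - (Real.exp (2 * σ z) * ru φ n z) := by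
  have h1 := hL.eig n z hz
  rw [← lap_eq (contDiff_ru hL n), ← ru_eq hL n]
  have h2 := congrArg Complex.re h1
  have h3 : (4 * (h n : ℂ) ^ 2 * dz (dzb (φ n)) z).re = 4 * h n ^ 2 * (dz (dzb (φ n)) z).re := by
    have : (4 * (h n : ℂ) ^ 2 : ℂ) = ((4 * h n ^ 2 : ℝ) : ℂ) := by push_cast; ring
    rw [this, Complex.re_ofReal_mul]
  have h4 : (-ex σ 2 z * φ n z).re = - (Real.exp (2 * σ z) * ru φ n z) := by
    have : -ex σ 2 z = ((-Real.exp (2 * σ z) : ℝ) : ℂ) := by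
      unfold ex
      push_cast
      rfl
    rw [this, Complex.re_ofReal_mul]
    unfold ru
    ring
  rw [h3] at h2
  rw [h4] at h2
  rw [← h2]
  ring

/-- a bound of the mass on compact sets -/
theorem mass_bound {V : Set ℂ} {σ : ℂ → ℝ} {h : ℕ → ℝ} {φ : ℕ → ℂ → ℂ} (hL : LocB V σ h φ)
    {K : Set ℂ} (hK : IsCompact K) (hKV : K ⊆ V) :
    ∃ M : ℝ, 0 ≤ M ∧ ∀ᶠ n in atTop, ∫ w in K, ‖φ n w‖ ^ 2 ≤ M := by
  obtain ⟨C, hC⟩ := hL.bdd K hK hKV
  refine ⟨max C 0, le_max_right _ _, ?_⟩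
  filter_upwards [hC] with n hn
  exact hn.trans (le_max_left _ _)

theorem mor_apply (hMor : StmtMor) {V : Set ℂ} {σ : ℂ → ℝ} {h : ℕ → ℝ} {φ : ℕ → ℂ → ℂ}
    (hL : LocB V σ h φ) {K1 : Set ℂ} (hK1 : IsCompact K1) (hK1V : K1 ⊆ V) :
    ∃ C : ℝ, 0 < C ∧ ∀ (n : ℕ) (z : ℂ) (r r0 : ℝ), h n ≤ r → r ≤ r0 → r0 ≤ 1 →
      closedBall z (3 * r0) ⊆ K1 →
      ∫ w in closedBall z r, ‖φ n w‖ ^ 2 ≤
        C * (r / r0) * ∫ w in closedBall z (3 * r0), ‖φ n w‖ ^ 2 := by
  have hg : ContDiff ℝ ∞ (fun z => Real.exp (2 * σ z)) := (contDiff_const.mul hL.sm).exp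
  obtain ⟨B0, hB0⟩ := hK1.exists_bound_of_continuousOn hL.sm.continuous.continuousOn
  obtain ⟨B1, hB1⟩ := hK1.exists_bound_of_continuousOn (contDiff_d1 hg).continuous.continuousOn
  obtain ⟨B2, hB2⟩ := hK1.exists_bound_of_continuousOn (contDiff_d2 hg).continuous.continuousOn
  obtain ⟨C, hC, h1⟩ := hMor (Real.exp (-(2 * B0))) (max (Real.exp (2 * B0)) (max B1 B2))
    (Real.exp_pos _)
  refine ⟨C, hC, ?_⟩
  intro n z r r0 hr hr0 hr1 hsub
  have h2 := h1 (ru φ n) (fun z => Real.exp (2 * σ z)) z (h n) r r0 (contDiff_ru hL n) hg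
    (hL.hpos n) hr hr0 hr1 ?_ ?_
  · simp only [norm_sq_eq hL]
    exact h2
  · intro w hw
    have hw1 := hsub hw
    have e0 := hB0 w hw1
    rw [Real.norm_eq_abs, abs_le] at e0
    have e1 := hB1 w hw1
    have e2 := hB2 w hw1
    refine ⟨?_, ?_, ?_, ?_⟩
    · exact Real.exp_le_exp.mpr (by linarith)
    · exact (Real.exp_le_exp.mpr (by linarith)).trans (le_max_left _ _)
    · exact e1.trans ((le_max_left _ _).trans (le_max_right _ _))
    · exact e2.trans ((le_max_right _ _).trans (le_max_right _ _))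
  · intro w hw
    exact ru_eig hL n (hK1V (hsub hw))

theorem cont_sq {V : Set ℂ} {σ : ℂ → ℝ} {h : ℕ → ℝ} {φ : ℕ → ℂ → ℂ} (hL : LocB V σ h φ) (n : ℕ) :
    Continuous fun z => ‖φ n z‖ ^ 2 := ((hL.smφ n).continuous.norm).pow 2

theorem sq_mono {V : Set ℂ} {σ : ℂ → ℝ} {h : ℕ → ℝ} {φ : ℕ → ℂ → ℂ} (hL : LocB V σ h φ) (n : ℕ)
    {S T : Set ℂ} (hT : IsCompact T) (hST : S ⊆ T) :
    ∫ w in S, ‖φ n w‖ ^ 2 ≤ ∫ w in T, ‖φ n w‖ ^ 2 := by
  apply setIntegral_mono_set
  · exact (cont_sq hL n).continuousOn.integrableOn_compact hT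
  · exact Filter.Eventually.of_forall fun z => by positivity
  · exact LE.le.eventuallyLE hST

/-- the constants for a compact set -/
theorem setup (hMor : StmtMor) (hPtw : StmtPtwB) {V : Set ℂ} {σ : ℂ → ℝ} {h : ℕ → ℝ}
    {φ : ℕ → ℂ → ℂ} (hL : LocB V σ h φ) {K : Set ℂ} (hK : IsCompact K) (hKV : K ⊆ V) (N : ℕ) :
    ∃ δ c C1 C2 : ℝ, 0 < δ ∧ δ ≤ 1 ∧ 1 ≤ c ∧ 0 ≤ C1 ∧ 0 < C2 ∧
      IsCompact (cthickening (3 * δ) K) ∧ cthickening (3 * δ) K ⊆ V ∧
      (∀ᶠ n in atTop, ∀ z ∈ K, RR h φ N n z ≤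
        C1 * (1 + 1 / h n ^ 2 * ∫ w in closedBall z (c * h n), ‖φ n w‖ ^ 2)) ∧
      (∀ n, ∀ z ∈ K, ∀ r r0 : ℝ, h n ≤ r → r ≤ r0 → r0 ≤ δ →
        ∫ w in closedBall z r, ‖φ n w‖ ^ 2 ≤
          C2 * (r / r0) * ∫ w in closedBall z (3 * r0), ‖φ n w‖ ^ 2) := by
  obtain ⟨δ0, hδ0, hδV⟩ := hK.exists_cthickening_subset_open hL.op hKV
  have hδ1 : 3 * min 1 (δ0 / 3) ≤ δ0 := by
    have := min_le_right 1 (δ0 / 3)
    linarith only [this]
  have hδ2 : cthickening (3 * min 1 (δ0 / 3)) K ⊆ V := (cthickening_mono hδ1 K).trans hδV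
  obtain ⟨c, C, hc, hptw⟩ := hPtw V σ h φ hL K hK hKV N
  obtain ⟨C2, hC2, hmor⟩ := mor_apply hMor hL hK.cthickening hδ2
  refine ⟨min 1 (δ0 / 3), max c 1, max C 0, C2, lt_min one_pos (by linarith), min_le_left _ _,
    le_max_right _ _, le_max_right _ _, hC2, hK.cthickening, hδ2, ?_, ?_⟩
  · filter_upwards [hptw] with n hn z hz
    have h1 := hn z hz
    have hpos := hL.hpos n
    have h2 : ∫ w in closedBall z (c * h n), ‖φ n w‖ ^ 2 ≤
        ∫ w in closedBall z (max c 1 * h n), ‖φ n w‖ ^ 2 := by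
      apply sq_mono hL n (isCompact_closedBall _ _)
      apply closedBall_subset_closedBall
      exact mul_le_mul_of_nonneg_right (le_max_left _ _) hpos.le
    have h3 : 0 ≤ ∫ w in closedBall z (c * h n), ‖φ n w‖ ^ 2 :=
      integral_nonneg fun w => by positivity
    have h4 : (0 : ℝ) ≤ 1 / h n ^ 2 := by positivity
    have h5 : 1 + 1 / h n ^ 2 * ∫ w in closedBall z (c * h n), ‖φ n w‖ ^ 2 ≤
        1 + 1 / h n ^ 2 * ∫ w in closedBall z (max c 1 * h n), ‖φ n w‖ ^ 2 := by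
      have := mul_le_mul_of_nonneg_left h2 h4
      linarith
    have h6 : 0 ≤ 1 + 1 / h n ^ 2 * ∫ w in closedBall z (c * h n), ‖φ n w‖ ^ 2 := by positivity
    calc RR h φ N n z ≤ C * (1 + 1 / h n ^ 2 * ∫ w in closedBall z (c * h n), ‖φ n w‖ ^ 2) := h1
      _ ≤ max C 0 * (1 + 1 / h n ^ 2 * ∫ w in closedBall z (c * h n), ‖φ n w‖ ^ 2) :=
          mul_le_mul_of_nonneg_right (le_max_left _ _) h6
      _ ≤ _ := mul_le_mul_of_nonneg_left h5 (le_max_right _ _)
  · intro n z hz r r0 hr hr0 hr1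
    apply hmor n z r r0 hr hr0 (hr1.trans (min_le_left _ _))
    apply (closedBall_subset_cthickening hz (3 * r0)).trans
    apply cthickening_mono
    linarith

theorem growth (hMor : StmtMor) (hPtw : StmtPtwB) {V : Set ℂ} {σ : ℂ → ℝ} {h : ℕ → ℝ}
    {φ : ℕ → ℂ → ℂ} (hL : LocB V σ h φ) {K : Set ℂ} (hK : IsCompact K) (hKV : K ⊆ V) (N : ℕ) :
    ∃ C : ℝ, ∀ᶠ n in atTop, ∀ z ∈ K, ∀ s > 0,
      ∫ w in K ∩ closedBall z s, RR h φ N n w ≤ C * s := by
  obtain ⟨δ, c, C1, C2, hδ, hδ1, hc, hC1, hC2, hKc, hKcV, hptw, hmor⟩ := setup hMor hPtw hL hK hKV N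
  obtain ⟨M, hM, hmass⟩ := mass_bound hL hKc hKcV
  obtain ⟨vK, hvK⟩ : ∃ vK : ℝ, vK = (volume K).toReal := ⟨_, rfl⟩
  have hvK0 : 0 ≤ vK := by
    rw [hvK]
    exact ENNReal.toReal_nonneg
  refine ⟨C1 * (2 / δ * (vK + Real.pi * c ^ 2 * M)) +
    C1 * (Real.pi + Real.pi * c ^ 2 * (C2 * ((1 + c) / δ) * M)) +
    C1 * (Real.pi + Real.pi * (C2 * (c / δ) * M)), ?_⟩
  have hpi := Real.pi_pos
  have hA1 : 0 ≤ C1 * (2 / δ * (vK + Real.pi * c ^ 2 * M)) := by positivity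
  have hA2 : 0 ≤ C1 * (Real.pi + Real.pi * c ^ 2 * (C2 * ((1 + c) / δ) * M)) := by (clear * - hC1 hc hC2 hδ hM; positivity)
  have hA3 : 0 ≤ C1 * (Real.pi + Real.pi * (C2 * (c / δ) * M)) := by (clear * - hC1 hC2 hc hδ hM; positivity)
  have hh2 : ∀ᶠ n in atTop, c * h n < δ / 2 := by
    have h1 := hL.hlim.const_mul c
    rw [mul_zero] at h1
    exact h1.eventually (gt_mem_nhds (by linarith only [hδ]))
  filter_upwards [hptw, hmass, hh2] with n hn1 hn2 hn3 z hz s hs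
  have hpos := hL.hpos n
  have hcn : h n ≤ c * h n := by nlinarith only [hc, hpos]
  have hcontS := cont_sq hL n
  have hS : IsCompact (K ∩ closedBall z s) := hK.inter_right isClosed_closedBall
  have hSfin : volume (K ∩ closedBall z s) ≠ ⊤ := hS.measure_lt_top.ne
  have hSK : (volume (K ∩ closedBall z s)).toReal ≤ vK := by
    rw [hvK]
    exact ENNReal.toReal_mono hK.measure_lt_top.ne (measure_mono inter_subset_left)
  have hSs : (volume (K ∩ closedBall z s)).toReal ≤ Real.pi * s ^ 2 := by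
    rw [← vol_closedBall z hs.le]
    exact ENNReal.toReal_mono (isCompact_closedBall z s).measure_lt_top.ne
      (measure_mono inter_subset_right)
  -- the basic inequality
  have key : ∀ T : Set ℂ, IsCompact T → (∀ w ∈ K ∩ closedBall z s, closedBall w (c * h n) ⊆ T) →
      ∫ w in K ∩ closedBall z s, RR h φ N n w ≤
        C1 * ((volume (K ∩ closedBall z s)).toReal + Real.pi * c ^ 2 * ∫ w in T, ‖φ n w‖ ^ 2) := by
    intro T hT hST
    have hint := integrable_avg hcontS hS (c * h n)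
    calc ∫ w in K ∩ closedBall z s, RR h φ N n w
        ≤ ∫ w in K ∩ closedBall z s,
            C1 * (1 + 1 / h n ^ 2 * ∫ v in closedBall w (c * h n), ‖φ n v‖ ^ 2) := by
          apply integral_mono_of_nonneg
          · exact Filter.Eventually.of_forall fun w => RR_nonneg h φ N n w
          · exact ((integrableOn_const hSfin).add (hint.const_mul _)).const_mul _
          · rw [EventuallyLE, ae_restrict_iff' hS.measurableSet]
            exact Filter.Eventually.of_forall fun w hw => hn1 w hw.1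
      _ = C1 * ((volume (K ∩ closedBall z s)).toReal + 1 / h n ^ 2 *
            ∫ w in K ∩ closedBall z s, ∫ v in closedBall w (c * h n), ‖φ n v‖ ^ 2) := by
          rw [integral_const_mul]
          congr 1
          have hi1 : Integrable (fun _ : ℂ => (1 : ℝ)) (volume.restrict (K ∩ closedBall z s)) :=
            integrableOn_const hSfin
          have hi2 : Integrable (fun w => 1 / h n ^ 2 * ∫ v in closedBall w (c * h n), ‖φ n v‖ ^ 2)
            (volume.restrict (K ∩ closedBall z s)) := hint.const_mul _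
          rw [integral_add hi1 hi2, integral_const_mul, setIntegral_const, smul_eq_mul, mul_one]
          rfl
      _ ≤ C1 * ((volume (K ∩ closedBall z s)).toReal + 1 / h n ^ 2 *
            (Real.pi * (c * h n) ^ 2 * ∫ w in T, ‖φ n w‖ ^ 2)) := by
          apply mul_le_mul_of_nonneg_left _ hC1
          have := mul_le_mul_of_nonneg_left (avg_le hcontS (fun v => by positivity) hS hT
            (by positivity : 0 ≤ c * h n) hST) (by positivity : (0 : ℝ) ≤ 1 / h n ^ 2)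
          linarith
      _ = _ := by
          have hne : h n ≠ 0 := hpos.ne'
          field_simp
  rcases le_or_gt (δ / 2) s with hs1 | hs1
  · -- large radius
    have h1 := key _ hKc (by
      intro w hw
      apply (closedBall_subset_cthickening hw.1 (c * h n)).trans
      apply cthickening_mono
      linarith)
    have h2 : C1 * ((volume (K ∩ closedBall z s)).toReal +
        Real.pi * c ^ 2 * ∫ w in cthickening (3 * δ) K, ‖φ n w‖ ^ 2) ≤
        C1 * (vK + Real.pi * c ^ 2 * M) := by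
      apply mul_le_mul_of_nonneg_left _ hC1
      have := mul_le_mul_of_nonneg_left hn2 (by positivity : 0 ≤ Real.pi * c ^ 2)
      linarith
    have h3 : C1 * (vK + Real.pi * c ^ 2 * M) ≤
        C1 * (2 / δ * (vK + Real.pi * c ^ 2 * M)) * s := by
      have h4 : 1 ≤ 2 / δ * s := by
        rw [div_mul_eq_mul_div, le_div_iff₀ hδ]
        linarith
      have h5 : 0 ≤ C1 * (vK + Real.pi * c ^ 2 * M) := by positivity
      calc C1 * (vK + Real.pi * c ^ 2 * M) = C1 * (vK + Real.pi * c ^ 2 * M) * 1 := by ring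
        _ ≤ C1 * (vK + Real.pi * c ^ 2 * M) * (2 / δ * s) := mul_le_mul_of_nonneg_left h4 h5
        _ = _ := by ring
    have h6 := mul_nonneg hA2 hs.le
    have h7 := mul_nonneg hA3 hs.le
    linarith only [h1, h2, h3, h6, h7]
  · rcases le_or_gt (h n) s with hs2 | hs2
    · -- intermediate radius
      have h1 := key (closedBall z (s + c * h n)) (isCompact_closedBall _ _) (by
        intro w hw
        apply closedBall_subset_closedBall'
        have := mem_closedBall.mp hw.2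
        linarith)
      have h2 := hmor n z hz (s + c * h n) δ (by linarith) (by linarith) le_rfl
      have h3 : ∫ w in closedBall z (3 * δ), ‖φ n w‖ ^ 2 ≤ M :=
        (sq_mono hL n hKc (closedBall_subset_cthickening hz _)).trans hn2
      have h4 : ∫ w in closedBall z (s + c * h n), ‖φ n w‖ ^ 2 ≤ C2 * ((1 + c) / δ) * M * s := by
        calc _ ≤ C2 * ((s + c * h n) / δ) * ∫ w in closedBall z (3 * δ), ‖φ n w‖ ^ 2 := h2
          _ ≤ C2 * ((s + c * h n) / δ) * M := mul_le_mul_of_nonneg_left h3 (by positivity)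
          _ ≤ C2 * ((s + c * s) / δ) * M := by
              (clear * - hs2 hc hδ hC2 hM; gcongr)
          _ = _ := by ring
      have h5 : C1 * ((volume (K ∩ closedBall z s)).toReal +
          Real.pi * c ^ 2 * ∫ w in closedBall z (s + c * h n), ‖φ n w‖ ^ 2) ≤
          C1 * (Real.pi * s + Real.pi * c ^ 2 * (C2 * ((1 + c) / δ) * M * s)) := by
        apply mul_le_mul_of_nonneg_left _ hC1
        have h6 := mul_le_mul_of_nonneg_left h4 (by positivity : 0 ≤ Real.pi * c ^ 2)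
        have h7 : Real.pi * s ^ 2 ≤ Real.pi * s := by
          apply mul_le_mul_of_nonneg_left _ hpi.le
          nlinarith only [hδ1, hs, hs1]
        linarith only [hSs, h6, h7]
      have h8 := mul_nonneg hA1 hs.le
      have h9 := mul_nonneg hA3 hs.le
      have h10 : C1 * (Real.pi * s + Real.pi * c ^ 2 * (C2 * ((1 + c) / δ) * M * s)) =
          C1 * (Real.pi + Real.pi * c ^ 2 * (C2 * ((1 + c) / δ) * M)) * s := by ring
      linarith only [h1, h5, h8, h9]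
    · -- small radius
      have h1 : ∀ w ∈ K ∩ closedBall z s, RR h φ N n w ≤ C1 * (1 + C2 * (c / δ) * M / h n) := by
        intro w hw
        have h2 := hmor n w hw.1 (c * h n) δ hcn (by linarith) le_rfl
        have h3 : ∫ w in closedBall w (3 * δ), ‖φ n w‖ ^ 2 ≤ M :=
          (sq_mono hL n hKc (closedBall_subset_cthickening hw.1 _)).trans hn2
        have h4 : ∫ v in closedBall w (c * h n), ‖φ n v‖ ^ 2 ≤ C2 * (c * h n / δ) * M :=
          h2.trans (mul_le_mul_of_nonneg_left h3 (by positivity))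
        calc RR h φ N n w
            ≤ C1 * (1 + 1 / h n ^ 2 * ∫ v in closedBall w (c * h n), ‖φ n v‖ ^ 2) := hn1 w hw.1
          _ ≤ C1 * (1 + 1 / h n ^ 2 * (C2 * (c * h n / δ) * M)) := by
              apply mul_le_mul_of_nonneg_left _ hC1
              have := mul_le_mul_of_nonneg_left h4 (by positivity : (0 : ℝ) ≤ 1 / h n ^ 2)
              linarith
          _ = _ := by
              have hne : h n ≠ 0 := hpos.ne'
              field_simp
      have h2 : ∫ w in K ∩ closedBall z s, RR h φ N n w ≤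
          C1 * (1 + C2 * (c / δ) * M / h n) * (Real.pi * s ^ 2) := by
        calc ∫ w in K ∩ closedBall z s, RR h φ N n w
            ≤ ∫ w in K ∩ closedBall z s, C1 * (1 + C2 * (c / δ) * M / h n) := by
              apply integral_mono_of_nonneg
              · exact Filter.Eventually.of_forall fun w => RR_nonneg h φ N n w
              · exact integrableOn_const hSfin
              · rw [EventuallyLE, ae_restrict_iff' hS.measurableSet]
                exact Filter.Eventually.of_forall h1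
          _ = (volume (K ∩ closedBall z s)).toReal * (C1 * (1 + C2 * (c / δ) * M / h n)) := by
              rw [setIntegral_const, smul_eq_mul]
              rfl
          _ ≤ Real.pi * s ^ 2 * (C1 * (1 + C2 * (c / δ) * M / h n)) :=
              mul_le_mul_of_nonneg_right hSs (by positivity)
          _ = _ := by ring
      have h3 : C1 * (1 + C2 * (c / δ) * M / h n) * (Real.pi * s ^ 2) ≤
          C1 * (Real.pi + Real.pi * (C2 * (c / δ) * M)) * s := by
        have h4 : s ^ 2 ≤ s := by nlinarith only [hδ1, hs, hs1]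
        have h5 : s ^ 2 / h n ≤ s := by
          rw [div_le_iff₀ hpos]
          nlinarith only [hs, hs2]
        have h6 : C1 * (1 + C2 * (c / δ) * M / h n) * (Real.pi * s ^ 2) =
            C1 * (Real.pi * s ^ 2 + Real.pi * (C2 * (c / δ) * M) * (s ^ 2 / h n)) := by
          field_simp
        have h7 : C1 * (Real.pi + Real.pi * (C2 * (c / δ) * M)) * s =
            C1 * (Real.pi * s + Real.pi * (C2 * (c / δ) * M) * s) := by ring
        rw [h6, h7]
        (clear * - h4 h5 hC2 hc hδ hM hC1; gcongr)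
      have h8 := mul_nonneg hA1 hs.le
      have h9 := mul_nonneg hA2 hs.le
      linarith only [h2, h3, h8, h9]

theorem bdd (hMor : StmtMor) (hPtw : StmtPtwB) {V : Set ℂ} {σ : ℂ → ℝ} {h : ℕ → ℝ}
    {φ : ℕ → ℂ → ℂ} (hL : LocB V σ h φ) {K : Set ℂ} (hK : IsCompact K) (hKV : K ⊆ V) (N : ℕ) :
    ∃ C : ℝ, ∀ᶠ n in atTop, ∀ z ∈ K, h n * RR h φ N n z ≤ C := by
  obtain ⟨δ, c, C1, C2, hδ, hδ1, hc, hC1, hC2, hKc, hKcV, hptw, hmor⟩ := setup hMor hPtw hL hK hKV N
  obtain ⟨M, hM, hmass⟩ := mass_bound hL hKc hKcV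
  refine ⟨C1 + C1 * (C2 * (c / δ) * M), ?_⟩
  have hh2 : ∀ᶠ n in atTop, c * h n < δ := by
    have h1 := hL.hlim.const_mul c
    rw [mul_zero] at h1
    exact h1.eventually (gt_mem_nhds hδ)
  have hh1 : ∀ᶠ n in atTop, h n < 1 := hL.hlim.eventually (gt_mem_nhds one_pos)
  filter_upwards [hptw, hmass, hh2, hh1] with n hn1 hn2 hn3 hn4 z hz
  have hpos := hL.hpos n
  have hcn : h n ≤ c * h n := by nlinarith
  have h2 := hmor n z hz (c * h n) δ hcn hn3.le le_rfl
  have h3 : ∫ w in closedBall z (3 * δ), ‖φ n w‖ ^ 2 ≤ M :=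
    (sq_mono hL n hKc (closedBall_subset_cthickening hz _)).trans hn2
  have h4 : ∫ v in closedBall z (c * h n), ‖φ n v‖ ^ 2 ≤ C2 * (c * h n / δ) * M :=
    h2.trans (mul_le_mul_of_nonneg_left h3 (by positivity))
  calc h n * RR h φ N n z
      ≤ h n * (C1 * (1 + 1 / h n ^ 2 * ∫ v in closedBall z (c * h n), ‖φ n v‖ ^ 2)) :=
        mul_le_mul_of_nonneg_left (hn1 z hz) hpos.le
    _ ≤ h n * (C1 * (1 + 1 / h n ^ 2 * (C2 * (c * h n / δ) * M))) := by
        apply mul_le_mul_of_nonneg_left _ hpos.le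
        apply mul_le_mul_of_nonneg_left _ hC1
        have := mul_le_mul_of_nonneg_left h4 (by positivity : (0 : ℝ) ≤ 1 / h n ^ 2)
        linarith
    _ = C1 * h n + C1 * (C2 * (c / δ) * M) := by
        have hne : h n ≠ 0 := hpos.ne'
        field_simp
    _ ≤ C1 + C1 * (C2 * (c / δ) * M) := by
        have : C1 * h n ≤ C1 * 1 := mul_le_mul_of_nonneg_left hn4.le hC1
        linarith

end GROA

/-- GROA: growth of the jets -/
theorem stmtGroA (hMor : QJ.StmtMor) (hPtwB : StmtPtwB) : StmtGroA := by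
  intro V σ h φ hL
  exact ⟨fun K hK hKV N => GROA.growth hMor hPtwB hL hK hKV N,
    fun K hK hKV N => GROA.bdd hMor hPtwB hL hK hKV N⟩

end

end U3


end

section

/-!
Third order statistics of all eigenfunctions: INTA, integrals of dominated functions.
-/

open Complex MeasureTheory Filter Topology Set
open scoped ContDiff

namespace U3

open QE QJ

namespace INTA

open QJ.INT (intOn cont_RR le_of_sq)

/-- the integrals of `RR` over a compact set are bounded -/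
lemma int_RR {V : Set ℂ} {h : ℕ → ℝ} {φ : ℕ → ℂ → ℂ} (hG : GrowA V h φ) {K : Set ℂ}
    (hK : IsCompact K) (hKV : K ⊆ V) (N : ℕ) :
    ∃ C : ℝ, 0 ≤ C ∧ ∀ᶠ n in atTop, ∫ z in K, RR h φ N n z ≤ C := by
  rcases K.eq_empty_or_nonempty with rfl | ⟨z0, hz0⟩
  · refine ⟨0, le_refl _, Filter.Eventually.of_forall fun n => ?_⟩
    simp
  · obtain ⟨C, hC⟩ := hG.grow K hK hKV N
    obtain ⟨s, hs⟩ := hK.isBounded.subset_closedBall z0
    have h1 : K ∩ Metric.closedBall z0 (max s 1) = K :=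
      inter_eq_left.mpr (hs.trans (Metric.closedBall_subset_closedBall (le_max_left _ _)))
    refine ⟨|C * max s 1|, abs_nonneg _, ?_⟩
    filter_upwards [hC] with n hn
    have h2 := hn z0 hz0 (max s 1) (lt_of_lt_of_le one_pos (le_max_right _ _))
    rw [h1] at h2
    exact h2.trans (le_abs_self _)

/-- `h ∫ RR²` is bounded -/
lemma int_RR2 {V : Set ℂ} {h : ℕ → ℝ} {φ : ℕ → ℂ → ℂ} (hφ : ∀ n, ContDiff ℝ ∞ (φ n))
    (hG : GrowA V h φ) {K : Set ℂ} (hK : IsCompact K) (hKV : K ⊆ V) (N : ℕ) :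
    ∃ C : ℝ, 0 ≤ C ∧ ∀ᶠ n in atTop, ∫ z in K, h n * RR h φ N n z ^ 2 ≤ C := by
  obtain ⟨C1, hC1, hI⟩ := int_RR hG hK hKV N
  obtain ⟨C2, hC2⟩ := hG.bdd K hK hKV N
  refine ⟨|C2| * C1, by positivity, ?_⟩
  filter_upwards [hI, hC2] with n hn1 hn2
  calc ∫ z in K, h n * RR h φ N n z ^ 2 ≤ ∫ z in K, |C2| * RR h φ N n z := by
        refine setIntegral_mono_on
          (intOn (continuous_const.mul ((cont_RR h φ hφ N n).pow 2)) hK)
          (intOn (continuous_const.mul (cont_RR h φ hφ N n)) hK) hK.measurableSet ?_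
        intro z hz
        have hR := one_le_RR h φ N n z
        calc h n * RR h φ N n z ^ 2 = (h n * RR h φ N n z) * RR h φ N n z := by ring
          _ ≤ |C2| * RR h φ N n z :=
            mul_le_mul_of_nonneg_right ((hn2 z hz).trans (le_abs_self _)) (by linarith)
    _ = |C2| * ∫ z in K, RR h φ N n z := integral_const_mul _ _
    _ ≤ |C2| * C1 := mul_le_mul_of_nonneg_left hn1 (abs_nonneg _)

/-- `√(C R³) ≤ (δ C R² + R/δ)/2` -/
lemma three_halves {x C R δ : ℝ} (hx : 0 ≤ x) (hR : 1 ≤ R) (hδ : 0 < δ)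
    (h : x ^ 2 ≤ C * R ^ 3) : x ≤ δ * |C| * R ^ 2 + R / δ := by
  have h0 : 0 ≤ δ * |C| * R ^ 2 + R / δ := by positivity
  rw [← sq_le_sq₀ hx h0]
  have h1 : x ^ 2 ≤ |C| * R ^ 3 := by
    refine h.trans (mul_le_mul_of_nonneg_right (le_abs_self C) (by positivity))
  have h2 : (δ * |C| * R ^ 2) * (R / δ) = |C| * R ^ 3 := by
    field_simp
  have h3 : 0 ≤ δ * |C| * R ^ 2 := by positivity
  have h4 : 0 ≤ R / δ := by positivity
  nlinarith [mul_nonneg h3 h4, sq_nonneg (δ * |C| * R ^ 2), sq_nonneg (R / δ)]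

end INTA

open _root_.U3.INTA in
open QJ.INT (intOn cont_RR le_of_sq) in
/-- INTA: integrals of dominated functions -/
theorem stmtIntA : StmtIntA := by
  intro V h φ u hpos hlim hφ hG hu
  refine ⟨?_, ?_, ?_, ?_, ?_⟩
  · intro hB K hK hKV
    obtain ⟨N, C, hC⟩ := hB K hK hKV
    obtain ⟨C1, hC1⟩ := hG.grow K hK hKV N
    refine ⟨√|C| * C1, ?_⟩
    filter_upwards [hC, hC1] with n hn hn1 z hz s hs
    have hKc : IsCompact (K ∩ Metric.closedBall z s) :=
      hK.inter_right Metric.isClosed_closedBall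
    have h1 : ∀ w ∈ K ∩ Metric.closedBall z s, ‖u n w‖ ≤ √|C| * RR h φ N n w := by
      intro w hw
      have h2 := le_of_sq (C := C) (R := RR h φ N n w) 1 (norm_nonneg (u n w))
        (zero_le_one.trans (one_le_RR h φ N n w)) (hn w hw.1)
      rwa [pow_one] at h2
    calc ∫ w in K ∩ Metric.closedBall z s, ‖u n w‖
        ≤ ∫ w in K ∩ Metric.closedBall z s, √|C| * RR h φ N n w :=
          setIntegral_mono_on (intOn (hu n).continuous.norm hKc)
            (intOn (continuous_const.mul (cont_RR h φ hφ N n)) hKc) hKc.measurableSet h1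
      _ = √|C| * ∫ w in K ∩ Metric.closedBall z s, RR h φ N n w := integral_const_mul _ _
      _ ≤ √|C| * (C1 * s) := mul_le_mul_of_nonneg_left (hn1 z hz s hs) (Real.sqrt_nonneg _)
      _ = √|C| * C1 * s := by ring
  · intro hB K hK hKV
    obtain ⟨N, C, hC⟩ := hB K hK hKV
    obtain ⟨C2, hC2, hI2⟩ := int_RR2 hφ hG hK hKV N
    have hz : Tendsto (fun n => |C| * (h n * C2)) atTop (𝓝 0) := by
      have := (hlim.mul_const C2).const_mul |C|
      simpa using this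
    refine squeeze_zero' (Filter.Eventually.of_forall fun n => ?_) ?_ hz
    · exact integral_nonneg fun z => by positivity
    · filter_upwards [hC, hI2] with n hn hn1
      have hh := hpos n
      calc ∫ z in K, ‖(h n : ℂ) * u n z‖ ^ 2
          ≤ ∫ z in K, (|C| * h n) * (h n * RR h φ N n z ^ 2) := by
            refine setIntegral_mono_on
              (intOn ((continuous_const.mul (hu n).continuous).norm.pow 2) hK)
              (intOn (continuous_const.mul (continuous_const.mul ((cont_RR h φ hφ N n).pow 2))) hK)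
              hK.measurableSet ?_
            intro z hz
            have hR := one_le_RR h φ N n z
            rw [norm_mul, mul_pow, Complex.norm_real, Real.norm_eq_abs, sq_abs]
            calc h n ^ 2 * ‖u n z‖ ^ 2 ≤ h n ^ 2 * (|C| * RR h φ N n z ^ 2) := by
                  refine mul_le_mul_of_nonneg_left ((hn z hz).trans ?_) (by positivity)
                  exact mul_le_mul_of_nonneg_right (le_abs_self C) (by positivity)
              _ = (|C| * h n) * (h n * RR h φ N n z ^ 2) := by ring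
        _ = (|C| * h n) * ∫ z in K, h n * RR h φ N n z ^ 2 := integral_const_mul _ _
        _ ≤ (|C| * h n) * C2 := mul_le_mul_of_nonneg_left hn1 (by positivity)
        _ = |C| * (h n * C2) := by ring
  · intro hB K hK hKV
    obtain ⟨N, C, hC⟩ := hB K hK hKV
    obtain ⟨C1, hC1, hI⟩ := int_RR hG hK hKV N
    obtain ⟨C2, hC2, hI2⟩ := int_RR2 hφ hG hK hKV N
    rw [Metric.tendsto_atTop']
    intro ε hε
    set δ : ℝ := ε / (2 * (|C| * C2 + 1)) with hδd
    have hδ : 0 < δ := by positivity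
    have hz : Tendsto (fun n => h n * (C1 / δ)) atTop (𝓝 0) := by
      have := hlim.mul_const (C1 / δ)
      simpa using this
    have hz2 : ∀ᶠ n in atTop, h n * (C1 / δ) < ε / 2 := by
      exact hz.eventually_lt_const (by positivity)
    have hev : ∀ᶠ n in atTop, dist (h n * ∫ z in K, ‖u n z‖) 0 < ε := by
      filter_upwards [hC, hI, hI2, hz2] with n hn hn1 hn2 hn3
      have hh := hpos n
      have h1 : ∀ z ∈ K, h n * ‖u n z‖
          ≤ (δ * |C|) * (h n * RR h φ N n z ^ 2) + (h n / δ) * RR h φ N n z := by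
        intro z hz
        have h2 := three_halves (norm_nonneg (u n z)) (one_le_RR h φ N n z) hδ (hn z hz)
        calc h n * ‖u n z‖ ≤ h n * (δ * |C| * RR h φ N n z ^ 2 + RR h φ N n z / δ) :=
              mul_le_mul_of_nonneg_left h2 hh.le
          _ = _ := by ring
      have hc1 : IntegrableOn (fun z => (δ * |C|) * (h n * RR h φ N n z ^ 2)) K :=
        intOn (continuous_const.mul (continuous_const.mul ((cont_RR h φ hφ N n).pow 2))) hK
      have hc2 : IntegrableOn (fun z => (h n / δ) * RR h φ N n z) K :=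
        intOn (continuous_const.mul (cont_RR h φ hφ N n)) hK
      have h2 : h n * ∫ z in K, ‖u n z‖ ≤ (δ * |C|) * C2 + (h n / δ) * C1 := by
        calc h n * ∫ z in K, ‖u n z‖ = ∫ z in K, h n * ‖u n z‖ := (integral_const_mul _ _).symm
          _ ≤ ∫ z in K, ((δ * |C|) * (h n * RR h φ N n z ^ 2) + (h n / δ) * RR h φ N n z) :=
              setIntegral_mono_on
                (intOn (continuous_const.mul (hu n).continuous.norm) hK)
                (hc1.add hc2) hK.measurableSet h1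
          _ = (∫ z in K, (δ * |C|) * (h n * RR h φ N n z ^ 2))
              + ∫ z in K, (h n / δ) * RR h φ N n z := integral_add hc1 hc2
          _ = (δ * |C|) * (∫ z in K, h n * RR h φ N n z ^ 2)
              + (h n / δ) * ∫ z in K, RR h φ N n z := by
              exact congrArg₂ (· + ·) (integral_const_mul _ _) (integral_const_mul _ _)
          _ ≤ (δ * |C|) * C2 + (h n / δ) * C1 :=
              add_le_add (mul_le_mul_of_nonneg_left hn2 (by positivity))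
                (mul_le_mul_of_nonneg_left hn1 (by positivity))
      have h3 : 0 ≤ h n * ∫ z in K, ‖u n z‖ :=
        mul_nonneg hh.le (integral_nonneg fun z => norm_nonneg _)
      rw [Real.dist_eq, sub_zero, abs_of_nonneg h3]
      refine lt_of_le_of_lt h2 ?_
      have h4 : (δ * |C|) * C2 ≤ ε / 2 := by
        have h5 : δ * (2 * (|C| * C2 + 1)) = ε := by
          rw [hδd]
          field_simp
        nlinarith
      have h6 : (h n / δ) * C1 = h n * (C1 / δ) := by ring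
      rw [h6]
      linarith
    obtain ⟨n0, hn0⟩ := Filter.eventually_atTop.mp hev
    exact ⟨n0, fun n hn => hn0 n hn.le⟩
  · intro hB K hK hKV
    obtain ⟨N, C, hC⟩ := hB K hK hKV
    obtain ⟨C2, hC2, hI2⟩ := int_RR2 hφ hG hK hKV N
    have hz : Tendsto (fun n => √|C| * (h n * C2)) atTop (𝓝 0) := by
      have := (hlim.mul_const C2).const_mul √|C|
      simpa using this
    refine squeeze_zero' (Filter.Eventually.of_forall fun n => ?_) ?_ hz
    · exact mul_nonneg (hpos n).le (integral_nonneg fun z => norm_nonneg _)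
    · filter_upwards [hC, hI2] with n hn hn1
      have hh := hpos n
      calc h n * ∫ z in K, ‖(h n : ℂ) * u n z‖
          ≤ h n * ∫ z in K, √|C| * (h n * RR h φ N n z ^ 2) := by
            refine mul_le_mul_of_nonneg_left ?_ hh.le
            refine setIntegral_mono_on
              (intOn (continuous_const.mul (hu n).continuous).norm hK)
              (intOn (continuous_const.mul (continuous_const.mul ((cont_RR h φ hφ N n).pow 2))) hK)
              hK.measurableSet ?_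
            intro z hz
            have h2 := le_of_sq (C := C) (R := RR h φ N n z) 2 (norm_nonneg (u n z))
              (zero_le_one.trans (one_le_RR h φ N n z)) (hn z hz)
            rw [norm_mul, Complex.norm_real, Real.norm_eq_abs, abs_of_pos hh]
            calc h n * ‖u n z‖ ≤ h n * (√|C| * RR h φ N n z ^ 2) :=
                  mul_le_mul_of_nonneg_left h2 hh.le
              _ = √|C| * (h n * RR h φ N n z ^ 2) := by ring
        _ = h n * (√|C| * ∫ z in K, h n * RR h φ N n z ^ 2) := by rw [integral_const_mul]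
        _ ≤ h n * (√|C| * C2) :=
            mul_le_mul_of_nonneg_left (mul_le_mul_of_nonneg_left hn1 (Real.sqrt_nonneg _)) hh.le
        _ = √|C| * (h n * C2) := by ring
  · intro hB hS K hK hKV
    obtain ⟨N, C, hC⟩ := hB K hK hKV
    have hz : Tendsto (fun n => √|C| * (h n * ∫ z in K, RR h φ N n z ^ 2)) atTop (𝓝 0) := by
      have := (hS K hK hKV N).const_mul √|C|
      simpa using this
    refine squeeze_zero' (Filter.Eventually.of_forall fun n => ?_) ?_ hz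
    · exact mul_nonneg (hpos n).le (integral_nonneg fun z => norm_nonneg _)
    · filter_upwards [hC] with n hn
      have hh := hpos n
      calc h n * ∫ z in K, ‖u n z‖ ≤ h n * ∫ z in K, √|C| * RR h φ N n z ^ 2 := by
            refine mul_le_mul_of_nonneg_left ?_ hh.le
            refine setIntegral_mono_on (intOn (hu n).continuous.norm hK)
              (intOn (continuous_const.mul ((cont_RR h φ hφ N n).pow 2)) hK)
              hK.measurableSet ?_
            intro z hz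
            exact le_of_sq (C := C) (R := RR h φ N n z) 2 (norm_nonneg (u n z))
              (zero_le_one.trans (one_le_RR h φ N n z)) (hn z hz)
        _ = h n * (√|C| * ∫ z in K, RR h φ N n z ^ 2) := by rw [integral_const_mul]
        _ = √|C| * (h n * ∫ z in K, RR h φ N n z ^ 2) := by ring

end U3


end

section

/-!
NULB: the quadratic form `A C' + C A' - 2 B B'` of two bounded potentials is bounded. Otherwise a
subsequence, multiplied by numbers which tend to zero, contradicts the theorem for null potentials.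
-/

open Complex MeasureTheory Filter Topology Set
open scoped ContDiff

namespace U3

open QE QJ

noncomputable section

namespace NULB

variable {V : Set ℂ} {σ : ℂ → ℝ}

/-- the factors -/
def ep (k : ℕ) : ℂ := ((Real.sqrt (1 / ((k : ℝ) + 1)) : ℝ) : ℂ)

lemma norm_ep_sq (k : ℕ) : ‖ep k‖ ^ 2 = 1 / ((k : ℝ) + 1) := by
  unfold ep
  rw [Complex.norm_real, Real.norm_of_nonneg (Real.sqrt_nonneg _),
    Real.sq_sqrt (by positivity)]

lemma tend_ep : Tendsto (fun k : ℕ => ‖ep k‖ ^ 2) atTop (𝓝 0) := by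
  simp only [norm_ep_sq]
  exact tendsto_one_div_add_atTop_nhds_zero_nat

/-- a bounded sequence becomes null after multiplication, along subsequences -/
lemma null {u : ℕ → ℂ → ℂ} (hu : L2b V u) {r : ℕ → ℕ} (hr : StrictMono r) :
    L2z V (fun k z => ep k * u (r k) z) := by
  intro K hK hKV
  obtain ⟨C, hC⟩ := hu K hK hKV
  have h1 := hr.tendsto_atTop.eventually hC
  have h2 : Tendsto (fun k => ‖ep k‖ ^ 2 * C) atTop (𝓝 0) := by
    simpa using tend_ep.mul_const C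
  refine squeeze_zero' (Eventually.of_forall fun k => ?_) ?_ h2
  · exact integral_nonneg fun z => by positivity
  · filter_upwards [h1] with k hk
    have e : ∀ z, ‖ep k * u (r k) z‖ ^ 2 = ‖ep k‖ ^ 2 * ‖u (r k) z‖ ^ 2 := fun z => by
      rw [norm_mul, mul_pow]
    simp only [e]
    rw [integral_const_mul]
    exact mul_le_mul_of_nonneg_left hk (by positivity)

lemma sc {u : ℕ → ℂ → ℂ} (su : ∀ n, ContDiff ℝ ∞ (u n)) (r : ℕ → ℕ) (k : ℕ) :
    ContDiff ℝ ∞ (fun z => ep k * u (r k) z) :=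
  contDiff_const.mul (su _)

/-- the scaled potentials are null -/
lemma pot {N : ℤ} {A B C x y : ℕ → ℂ → ℂ} (hσ : ContDiff ℝ ∞ σ) (sA : ∀ n, ContDiff ℝ ∞ (A n))
    (sC : ∀ n, ContDiff ℝ ∞ (C n)) (P : PotB V σ N A B C x y) {r : ℕ → ℕ} (hr : StrictMono r) :
    Pot V σ N (fun k z => ep k * A (r k) z) (fun k z => ep k * B (r k) z)
      (fun k z => ep k * C (r k) z) (fun k z => ep k * x (r k) z)
      (fun k z => ep k * y (r k) z) := by
  have eD : ∀ (l : ℤ) (k : ℕ) (f : ℂ → ℂ), ContDiff ℝ ∞ f → ∀ z,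
      D σ l (fun w => ep k * f w) z = ep k * D σ l f z := fun l k f hf z =>
    D_const_mul hσ l (ep k) (cd_at hf z)
  have eDb : ∀ (l : ℤ) (k : ℕ) (f : ℂ → ℂ), ContDiff ℝ ∞ f → ∀ z,
      Db σ l (fun w => ep k * f w) z = ep k * Db σ l f z := fun l k f hf z =>
    Db_const_mul hσ l (ep k) (cd_at hf z)
  have sa : ∀ n, ContDiff ℝ ∞ (fun w => A n w - D σ (N + 1) (x n) w) := fun n =>
    (sA n).sub (contDiff_D hσ _ (P.sx n))
  have sc' : ∀ n, ContDiff ℝ ∞ (fun w => C n w - Db σ (N - 1) (y n) w) := fun n =>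
    (sC n).sub (contDiff_Db hσ _ (P.sy n))
  have ea : ∀ (k : ℕ) z, ep k * A (r k) z - D σ (N + 1) (fun z => ep k * x (r k) z) z
      = ep k * (A (r k) z - D σ (N + 1) (x (r k)) z) := fun k z => by
    rw [eD _ _ _ (P.sx _)]
    ring
  have ec : ∀ (k : ℕ) z, ep k * C (r k) z - Db σ (N - 1) (fun z => ep k * y (r k) z) z
      = ep k * (C (r k) z - Db σ (N - 1) (y (r k)) z) := fun k z => by
    rw [eDb _ _ _ (P.sy _)]
    ring
  refine ⟨fun k => sc P.sx r k, fun k => sc P.sy r k, ?_, ?_, null P.lx hr, null P.ly hr, ?_, ?_,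
    ?_, ?_⟩
  · intro k z hz
    rw [eDb _ _ _ (P.sx _), P.hx _ z hz]
    ring
  · intro k z hz
    rw [eD _ _ _ (P.sy _), P.hy _ z hz]
    ring
  · simp only [ea]
    exact null P.la hr
  · simp only [ec]
    exact null P.lc hr
  · simp only [ea]
    have h := null P.lda hr
    refine (show (fun (k : ℕ) z => Db σ (N + 2) (fun w => ep k *
      (A (r k) w - D σ (N + 1) (x (r k)) w)) z) = _ from ?_) ▸ h
    funext k z
    exact eDb _ _ _ (sa _) z
  · simp only [ec]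
    have h := null P.ldc hr
    refine (show (fun (k : ℕ) z => D σ (N - 2) (fun w => ep k *
      (C (r k) w - Db σ (N - 1) (y (r k)) w)) z) = _ from ?_) ▸ h
    funext k z
    exact eD _ _ _ (sc' _) z

end NULB

open _root_.U3.NULB

theorem stmtNulB (hNid : QJ.StmtNid) : StmtNulB := by
  intro V σ N A B C x y A' B' C' x' y' hV hσ sA sB sC sA' sB' sC' P P' ζ hζ
  by_contra hcon
  push Not at hcon
  have hf : ∀ k : ℕ, ∃ᶠ n in atTop, (k : ℝ) < ‖∫ z, ζ z *
      (A n z * C' n z + C n z * A' n z - 2 * (B n z * B' n z))‖ := fun k => hcon k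
  obtain ⟨r, hr, hI⟩ := extraction_forall_of_frequently hf
  have h := stmtNul hNid V σ N _ _ _ _ _ _ _ _ _ _ hV hσ (fun k => sc sA r k)
    (fun k => sc sB r k) (fun k => sc sC r k) (fun k => sc sA' r k) (fun k => sc sB' r k)
    (fun k => sc sC' r k) (pot hσ sA sC P hr) (pot hσ sA' sC' P' hr) ζ hζ
  have e : ∀ k : ℕ, ‖∫ z, ζ z * (ep k * A (r k) z * (ep k * C' (r k) z)
      + ep k * C (r k) z * (ep k * A' (r k) z) - 2 * (ep k * B (r k) z * (ep k * B' (r k) z)))‖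
      = 1 / ((k : ℝ) + 1) * ‖∫ z, ζ z * (A (r k) z * C' (r k) z + C (r k) z * A' (r k) z
        - 2 * (B (r k) z * B' (r k) z))‖ := by
    intro k
    rw [← norm_ep_sq, ← norm_pow, ← norm_mul, ← integral_const_mul]
    congr 1
    refine integral_congr_ae (Eventually.of_forall fun z => ?_)
    simp only []
    ring
  have h1 := h.norm
  simp only [e, norm_zero] at h1
  have h2 : ∀ᶠ k : ℕ in atTop, 1 / ((k : ℝ) + 1) * ‖∫ z, ζ z * (A (r k) z * C' (r k) z
      + C (r k) z * A' (r k) z - 2 * (B (r k) z * B' (r k) z))‖ < 1 / 2 :=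
    h1.eventually (gt_mem_nhds (by norm_num))
  obtain ⟨k, hk1, hk2⟩ := (h2.and (eventually_ge_atTop 1)).exists
  have h3 := hI k
  have hk3 : (1 : ℝ) ≤ k := by exact_mod_cast hk2
  have h4 : 1 / ((k : ℝ) + 1) * k < 1 / 2 :=
    lt_of_le_of_lt (mul_le_mul_of_nonneg_left h3.le (by positivity)) hk1
  rw [one_div, inv_mul_lt_iff₀ (by positivity)] at h4
  linarith

end

end U3


end

section

/-!
Module SML: the jets are small in `L⁴` after multiplication by `h`.
-/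

open Complex MeasureTheory Filter Topology Set
open scoped ContDiff

namespace U3

open QE QJ

noncomputable section

namespace SML

variable {V : Set ℂ} {σ : ℂ → ℝ} {h : ℕ → ℝ} {φ : ℕ → ℂ → ℂ}

/-! ### Conjugation -/

lemma conj_E (L : LocB V σ h φ) (j : ℤ) (n : ℕ) (z : ℂ) :
    (starRingEnd ℂ) (E σ h φ j n z) = (-1) ^ j * E σ h φ (-j) n z := by
  obtain ⟨m, rfl | rfl⟩ := j.eq_nat_or_neg
  · rw [JETA.E_nat, U3.JETA.E_neg L m, zpow_natCast, ← mul_assoc, ← mul_pow]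
    norm_num
  · rw [U3.JETA.E_neg L m, neg_neg, JETA.E_nat, zpow_neg, zpow_natCast]
    simp only [map_mul, map_pow, map_neg, map_one, Complex.conj_conj]
    rw [← inv_pow]
    norm_num

lemma c0 (L : LocB V σ h φ) (n : ℕ) (z : ℂ) :
    (starRingEnd ℂ) (E σ h φ 0 n z) = E σ h φ 0 n z := by
  have := conj_E L 0 n z
  simpa using this

lemma c1 (L : LocB V σ h φ) (n : ℕ) (z : ℂ) :
    (starRingEnd ℂ) (E σ h φ 1 n z) = - E σ h φ (-1) n z := by
  have := conj_E L 1 n z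
  simpa using this

lemma cm1 (L : LocB V σ h φ) (n : ℕ) (z : ℂ) :
    (starRingEnd ℂ) (E σ h φ (-1) n z) = - E σ h φ 1 n z := by
  have := conj_E L (-1) n z
  rw [neg_neg] at this
  rw [this, zpow_neg, zpow_one]
  norm_num

lemma c2 (L : LocB V σ h φ) (n : ℕ) (z : ℂ) :
    (starRingEnd ℂ) (E σ h φ 2 n z) = E σ h φ (-2) n z := by
  have := conj_E L 2 n z
  rw [this]
  norm_num

/-! ### Cutoff functions -/

lemma cut (hV : IsOpen V) {K : Set ℂ} (hK : IsCompact K) (hKV : K ⊆ V) :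
    ∃ ζ : ℂ → ℂ, Test V ζ ∧ (∀ z, ζ z = ((ζ z).re : ℂ)) ∧ (∀ z, 0 ≤ (ζ z).re) ∧
      ∀ z ∈ K, ζ z = 1 := by
  obtain ⟨χ, hχ, h1, -⟩ := exists_cutoff hV hK hKV
  have e : ∀ z, χ z * (starRingEnd ℂ) (χ z) = ((‖χ z‖ ^ 2 : ℝ) : ℂ) := by
    intro z
    rw [Complex.mul_conj']
    push_cast
    rfl
  refine ⟨fun z => χ z * (starRingEnd ℂ) (χ z), test_mul hχ hχ.conj.smooth, fun z => ?_,
    fun z => ?_, fun z hz => ?_⟩
  · show χ z * (starRingEnd ℂ) (χ z) = (((χ z * (starRingEnd ℂ) (χ z)).re : ℝ) : ℂ)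
    rw [e z, Complex.ofReal_re]
  · show 0 ≤ (χ z * (starRingEnd ℂ) (χ z)).re
    rw [e z, Complex.ofReal_re]
    positivity
  · have h2 : χ z = 1 := (h1 z hz).self_of_nhds
    show χ z * (starRingEnd ℂ) (χ z) = 1
    rw [h2, map_one, one_mul]

/-- the integral over a compact set is bounded by the integral against the cutoff function -/
lemma le_int {ζ : ℂ → ℂ} {K : Set ℂ} (hζ : Test V ζ) (hr : ∀ z, ζ z = ((ζ z).re : ℂ))
    (h0 : ∀ z, 0 ≤ (ζ z).re) (hK : IsCompact K) (h1 : ∀ z ∈ K, ζ z = 1) {F : ℂ → ℝ}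
    (hF : Continuous F) (hF0 : ∀ z, 0 ≤ F z) :
    ∫ z in K, F z ≤ ‖∫ z, ζ z * (F z : ℂ)‖ := by
  have e1 : ∀ z, ζ z * (F z : ℂ) = (((ζ z).re * F z : ℝ) : ℂ) := by
    intro z
    rw [hr z, Complex.ofReal_re]
    push_cast
    rfl
  have e2 : ∫ z, ζ z * (F z : ℂ) = ((∫ z, (ζ z).re * F z : ℝ) : ℂ) :=
    (integral_congr_ae (Filter.Eventually.of_forall e1)).trans integral_complex_ofReal
  have hi : Integrable fun z => (ζ z).re * F z := by
    have h2 := (test_int hζ (f := fun z => (F z : ℂ)) (Complex.continuous_ofReal.comp hF)).re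
    refine h2.congr (Filter.Eventually.of_forall fun z => ?_)
    show (ζ z * (F z : ℂ)).re = _
    rw [e1 z, Complex.ofReal_re]
  have h3 : 0 ≤ ∫ z, (ζ z).re * F z := integral_nonneg fun z => mul_nonneg (h0 z) (hF0 z)
  rw [e2, Complex.norm_real, Real.norm_of_nonneg h3]
  have e3 : ∫ z in K, F z = ∫ z in K, (ζ z).re * F z := by
    refine setIntegral_congr_fun hK.measurableSet fun z hz => ?_
    show F z = (ζ z).re * F z
    rw [h1 z hz, Complex.one_re, one_mul]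
  rw [e3]
  exact setIntegral_le_integral hi (Filter.Eventually.of_forall fun z => mul_nonneg (h0 z) (hF0 z))

/-! ### Sequences which are small in `L⁴` after multiplication by `h` -/

/-- `h ∫ ‖u‖⁴ → 0` on compact sets -/
def Q4 (V : Set ℂ) (h : ℕ → ℝ) (u : ℕ → ℂ → ℂ) : Prop :=
  ∀ K, IsCompact K → K ⊆ V → Tendsto (fun n => h n * ∫ z in K, ‖u n z‖ ^ 4) atTop (𝓝 0)

lemma int_on {K : Set ℂ} (hK : IsCompact K) {F : ℂ → ℝ} (hF : Continuous F) :
    IntegrableOn F K := hF.continuousOn.integrableOn_compact hK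

lemma add_pow_four (a b : ℝ) : (a + b) ^ 4 ≤ 8 * (a ^ 4 + b ^ 4) := by
  linarith only [mul_nonneg (sq_nonneg (a - b)) (sq_nonneg (a + b)), sq_nonneg ((a - b) ^ 2)]

lemma Q4.add (hh : ∀ n, 0 < h n) {u v : ℕ → ℂ → ℂ} (cu : ∀ n, Continuous (u n))
    (cv : ∀ n, Continuous (v n)) (hu : Q4 V h u) (hv : Q4 V h v) :
    Q4 V h (fun n z => u n z + v n z) := by
  intro K hK hKV
  have h1 := ((hu K hK hKV).add (hv K hK hKV)).const_mul 8
  rw [add_zero, mul_zero] at h1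
  refine squeeze_zero (fun n => mul_nonneg (hh n).le (integral_nonneg fun z => by positivity))
    (fun n => ?_) h1
  have i1 : IntegrableOn (fun z => ‖u n z‖ ^ 4) K := int_on hK ((cu n).norm.pow 4)
  have i2 : IntegrableOn (fun z => ‖v n z‖ ^ 4) K := int_on hK ((cv n).norm.pow 4)
  have h2 : ∫ z in K, ‖u n z + v n z‖ ^ 4 ≤ ∫ z in K, 8 * (‖u n z‖ ^ 4 + ‖v n z‖ ^ 4) := by
    refine setIntegral_mono (int_on hK (((cu n).add (cv n)).norm.pow 4))
      ((i1.add i2).const_mul 8) fun z => ?_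
    calc ‖u n z + v n z‖ ^ 4 ≤ (‖u n z‖ + ‖v n z‖) ^ 4 := by gcongr; exact norm_add_le _ _
      _ ≤ 8 * (‖u n z‖ ^ 4 + ‖v n z‖ ^ 4) := add_pow_four _ _
  rw [integral_const_mul, integral_add i1 i2] at h2
  calc h n * ∫ z in K, ‖u n z + v n z‖ ^ 4
      ≤ h n * (8 * ((∫ z in K, ‖u n z‖ ^ 4) + ∫ z in K, ‖v n z‖ ^ 4)) :=
        mul_le_mul_of_nonneg_left h2 (hh n).le
    _ = 8 * (h n * (∫ z in K, ‖u n z‖ ^ 4) + h n * ∫ z in K, ‖v n z‖ ^ 4) := by ring

/-- domination -/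
lemma Q4.of_le (hh : ∀ n, 0 < h n) {u v : ℕ → ℂ → ℂ} (cu : ∀ n, Continuous (u n))
    (cv : ∀ n, Continuous (v n)) {b : ℂ → ℝ} (hb : Continuous b)
    (hle : ∀ n, ∀ z ∈ V, ‖u n z‖ ≤ b z * ‖v n z‖) (hv : Q4 V h v) : Q4 V h u := by
  intro K hK hKV
  obtain ⟨M, hM⟩ := hK.exists_bound_of_continuousOn hb.continuousOn
  have h1 := (hv K hK hKV).const_mul (M ^ 4)
  rw [mul_zero] at h1
  refine squeeze_zero (fun n => mul_nonneg (hh n).le (integral_nonneg fun z => by positivity))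
    (fun n => ?_) h1
  have i2 := int_on hK ((cv n).norm.pow 4)
  have h2 : ∫ z in K, ‖u n z‖ ^ 4 ≤ ∫ z in K, M ^ 4 * ‖v n z‖ ^ 4 := by
    refine setIntegral_mono_on (int_on hK ((cu n).norm.pow 4)) (i2.const_mul _)
      hK.measurableSet fun z hz => ?_
    have h3 : ‖u n z‖ ≤ M * ‖v n z‖ := by
      refine (hle n z (hKV hz)).trans ?_
      have h4 := (le_abs_self (b z)).trans (hM z hz)
      gcongr
    calc ‖u n z‖ ^ 4 ≤ (M * ‖v n z‖) ^ 4 := by gcongr
      _ = M ^ 4 * ‖v n z‖ ^ 4 := by ring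
  rw [integral_const_mul] at h2
  calc h n * ∫ z in K, ‖u n z‖ ^ 4 ≤ h n * (M ^ 4 * ∫ z in K, ‖v n z‖ ^ 4) :=
        mul_le_mul_of_nonneg_left h2 (hh n).le
    _ = M ^ 4 * (h n * ∫ z in K, ‖v n z‖ ^ 4) := by ring

/-- `h A` for `A` dominated by the jets -/
lemma Q4.hA (hIntA : StmtIntA) (L : LocB V σ h φ) (G : GrowA V h φ) {A : ℕ → ℂ → ℂ}
    (hA : Dom V h φ 1 A) : Q4 V h (fun n z => (h n : ℂ) * A n z) := by
  intro K hK hKV
  have hAA := hA.mul L.op hA
  have h1 := (hIntA V h φ _ L.hpos L.hlim L.smφ G hAA.smooth).2.1 hAA.bq K hK hKV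
  have h2 : Tendsto (fun n => h n ^ 3 * ∫ z in K, ‖(h n : ℂ) * (A n z * A n z)‖ ^ 2) atTop
      (𝓝 0) := by
    have := (L.hlim.pow 3).mul h1
    simpa using this
  refine h2.congr fun n => ?_
  rw [show h n ^ 3 = h n * h n ^ 2 by ring, mul_assoc, ← integral_const_mul]
  congr 1
  refine integral_congr_ae (Filter.Eventually.of_forall fun z => ?_)
  show h n ^ 2 * ‖(h n : ℂ) * (A n z * A n z)‖ ^ 2 = ‖(h n : ℂ) * A n z‖ ^ 4
  rw [norm_mul, norm_mul, norm_mul, Complex.norm_real, Real.norm_of_nonneg (L.hpos n).le]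
  ring

/-! ### The four-jet integrals -/

lemma cE (hJetC : StmtJetC) (L : LocB V σ h φ) (j : ℤ) (n : ℕ) : Continuous (E σ h φ j n) :=
  ((hJetC V σ h φ L j).1.smooth n).continuous

lemma E4_int (hJetC : StmtJetC) (L : LocB V σ h φ) {ζ : ℂ → ℂ} (hζ : Test V ζ) (a b c d : ℤ)
    (n : ℕ) : Integrable fun z => ζ z * (E σ h φ a n z * E σ h φ b n z * E σ h φ c n z *
      E σ h φ d n z) :=
  test_int hζ ((((cE hJetC L a n).mul (cE hJetC L b n)).mul (cE hJetC L c n)).mul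
    (cE hJetC L d n))

/-- the difference of products -/
def SS (σ : ℂ → ℝ) (h : ℕ → ℝ) (φ : ℕ → ℂ → ℂ) (n : ℕ) (z : ℂ) : ℂ :=
  E σ h φ 0 n z * E σ h φ 1 n z - E σ h φ 2 n z * E σ h φ (-1) n z

lemma SS_sq (L : LocB V σ h φ) (n : ℕ) (z : ℂ) : ((‖SS σ h φ n z‖ ^ 2 : ℝ) : ℂ) =
    - (E σ h φ 0 n z * E σ h φ 1 n z * E σ h φ 0 n z * E σ h φ (-1) n z)
      + E σ h φ 0 n z * E σ h φ 1 n z * E σ h φ (-2) n z * E σ h φ 1 n z
      + E σ h φ 2 n z * E σ h φ (-1) n z * E σ h φ 0 n z * E σ h φ (-1) n z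
      - E σ h φ 2 n z * E σ h φ (-1) n z * E σ h φ (-2) n z * E σ h φ 1 n z := by
  push_cast
  rw [← Complex.mul_conj']
  unfold SS
  rw [map_sub, map_mul, map_mul, c0 L, c1 L, c2 L, cm1 L]
  ring

lemma SS_cont (hJetC : StmtJetC) (L : LocB V σ h φ) (n : ℕ) : Continuous (SS σ h φ n) :=
  ((cE hJetC L 0 n).mul (cE hJetC L 1 n)).sub ((cE hJetC L 2 n).mul (cE hJetC L (-1) n))

lemma SS_lim (hJetC : StmtJetC) (hHcl : StmtHcl) (L : LocB V σ h φ) {ζ : ℂ → ℂ}
    (hζ : Test V ζ) : Tendsto (fun n => (h n : ℂ) * ∫ z, ζ z * ((‖SS σ h φ n z‖ ^ 2 : ℝ) : ℂ))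
      atTop (𝓝 0) := by
  have t1 := hHcl V σ h φ L ζ hζ 0 1 0 (-1) (by norm_num)
  have t2 := hHcl V σ h φ L ζ hζ 0 1 (-2) 1 (by norm_num)
  have t3 := hHcl V σ h φ L ζ hζ 2 (-1) 0 (-1) (by norm_num)
  have t4 := hHcl V σ h φ L ζ hζ 2 (-1) (-2) 1 (by norm_num)
  have k1 : cl4 0 1 0 (-1) = -1 / 3 := if_neg (by decide)
  have k2 : cl4 0 1 (-2) 1 = -1 / 3 := if_neg (by decide)
  have k3 : cl4 2 (-1) 0 (-1) = -1 / 3 := if_neg (by decide)
  have k4 : cl4 2 (-1) (-2) 1 = -1 / 3 := if_neg (by decide)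
  rw [k1] at t1
  rw [k2] at t2
  rw [k3] at t3
  rw [k4] at t4
  have t5 := ((t2.sub t1).add t3).sub t4
  rw [sub_zero, add_zero, sub_zero] at t5
  refine t5.congr fun n => ?_
  have e : ∫ z, ζ z * ((‖SS σ h φ n z‖ ^ 2 : ℝ) : ℂ) = E4 σ h φ ζ 0 1 (-2) 1 n
      - E4 σ h φ ζ 0 1 0 (-1) n + E4 σ h φ ζ 2 (-1) 0 (-1) n - E4 σ h φ ζ 2 (-1) (-2) 1 n := by
    have i1 := E4_int hJetC L hζ 0 1 0 (-1) n
    have i2 := E4_int hJetC L hζ 0 1 (-2) 1 n
    have i3 := E4_int hJetC L hζ 2 (-1) 0 (-1) n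
    have i4 := E4_int hJetC L hζ 2 (-1) (-2) 1 n
    have i5 : Integrable fun z =>
        ζ z * (E σ h φ 0 n z * E σ h φ 1 n z * E σ h φ (-2) n z * E σ h φ 1 n z)
        - ζ z * (E σ h φ 0 n z * E σ h φ 1 n z * E σ h φ 0 n z * E σ h φ (-1) n z) := i2.sub i1
    have i6 : Integrable fun z =>
        ζ z * (E σ h φ 0 n z * E σ h φ 1 n z * E σ h φ (-2) n z * E σ h φ 1 n z)
        - ζ z * (E σ h φ 0 n z * E σ h φ 1 n z * E σ h φ 0 n z * E σ h φ (-1) n z)
        + ζ z * (E σ h φ 2 n z * E σ h φ (-1) n z * E σ h φ 0 n z * E σ h φ (-1) n z) := i5.add i3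
    unfold E4
    rw [← integral_sub i2 i1, ← integral_add i5 i3, ← integral_sub i6 i4]
    refine integral_congr_ae (Filter.Eventually.of_forall fun z => ?_)
    simp only []
    rw [SS_sq L]
    ring
  rw [e]
  ring

lemma SS_small (hJetC : StmtJetC) (hHcl : StmtHcl) (L : LocB V σ h φ) {K : Set ℂ}
    (hK : IsCompact K) (hKV : K ⊆ V) :
    Tendsto (fun n => h n * ∫ z in K, ‖SS σ h φ n z‖ ^ 2) atTop (𝓝 0) := by
  obtain ⟨ζ, hζ, hr, h0, h1⟩ := cut L.op hK hKV
  have t1 := (SS_lim hJetC hHcl L hζ).norm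
  rw [norm_zero] at t1
  refine squeeze_zero (fun n => mul_nonneg (L.hpos n).le (integral_nonneg fun z => by positivity))
    (fun n => ?_) t1
  rw [norm_mul, Complex.norm_real, Real.norm_of_nonneg (L.hpos n).le]
  exact mul_le_mul_of_nonneg_left (le_int hζ hr h0 hK h1 ((SS_cont hJetC L n).norm.pow 2)
    fun z => by positivity) (L.hpos n).le

/-! ### The energy density -/

/-- the energy density -/
def UU (σ : ℂ → ℝ) (h : ℕ → ℝ) (φ : ℕ → ℂ → ℂ) (n : ℕ) (z : ℂ) : ℝ :=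
  1 / 2 * (‖E σ h φ 0 n z‖ ^ 2 + ‖E σ h φ 1 n z‖ ^ 2)

lemma UU_nonneg (n : ℕ) (z : ℂ) : 0 ≤ UU σ h φ n z := by
  unfold UU; positivity

lemma UU_smooth (hJetC : StmtJetC) (L : LocB V σ h φ) (n : ℕ) : ContDiff ℝ ∞ (UU σ h φ n) :=
  contDiff_const.mul ((((hJetC V σ h φ L 0).1.smooth n).norm_sq ℝ).add
    (((hJetC V σ h φ L 1).1.smooth n).norm_sq ℝ))

lemma UU_eq (L : LocB V σ h φ) (n : ℕ) (z : ℂ) : ((UU σ h φ n z : ℝ) : ℂ) =
    1 / 2 * (E σ h φ 0 n z * E σ h φ 0 n z - E σ h φ 1 n z * E σ h φ (-1) n z) := by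
  unfold UU
  push_cast
  rw [← Complex.mul_conj', ← Complex.mul_conj', c0 L, c1 L]
  ring

lemma grad_eq {U : ℂ → ℝ} (hU : ContDiff ℝ ∞ U) (hσ : ContDiff ℝ ∞ σ) (z : ℂ) :
    d1 U z ^ 2 + d2 U z ^ 2
      = Real.exp (2 * σ z) * ‖D σ 0 (fun w => ((U w : ℝ) : ℂ)) z‖ ^ 2 := by
  have hd : DifferentiableAt ℝ U z := (hU.differentiable (by simp)) z
  have hUc : ContDiff ℝ ∞ (fun w => ((U w : ℝ) : ℂ)) := ofRealCLM.contDiff.comp hU
  have hf : ∀ v : ℂ, fderiv ℝ (fun w => ((U w : ℝ) : ℂ)) z v = ((fderiv ℝ U z v : ℝ) : ℂ) := by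
    intro v
    have h1 : HasFDerivAt (fun w => ((U w : ℝ) : ℂ)) (ofRealCLM.comp (fderiv ℝ U z)) z :=
      ofRealCLM.hasFDerivAt.comp z hd.hasFDerivAt
    rw [h1.fderiv]
    rfl
  have e1 : dz (fun w => ((U w : ℝ) : ℂ)) z = 1 / 2 * ((d1 U z : ℂ) - I * (d2 U z : ℂ)) := by
    unfold dz d1 d2
    rw [hf, hf]
  have e2 : D σ 0 (fun w => ((U w : ℝ) : ℂ)) z
      = ex σ (-1) z * ((d1 U z : ℂ) - I * (d2 U z : ℂ)) := by
    rw [D_eq hσ 0 (cd_at hUc z), e1]
    push_cast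
    ring
  have e3 : ‖((d1 U z : ℂ) - I * (d2 U z : ℂ))‖ ^ 2 = d1 U z ^ 2 + d2 U z ^ 2 := by
    rw [← Complex.normSq_eq_norm_sq, Complex.normSq_apply]
    simp
    ring
  rw [e2, norm_mul, mul_pow, e3, norm_ex, ← mul_assoc, ← Real.exp_nat_mul, ← Real.exp_add]
  have e4 : 2 * σ z + ((2 : ℕ) : ℝ) * (((-1 : ℤ) : ℝ) * σ z) = 0 := by push_cast; ring
  rw [e4, Real.exp_zero, one_mul]

lemma hD_UU (hJetC : StmtJetC) (L : LocB V σ h φ) : ∃ R, Dom V h φ 2 R ∧ ∀ n, ∀ z ∈ V,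
    (h n : ℂ) * D σ 0 (fun w => ((UU σ h φ n w : ℝ) : ℂ)) z
      = 1 / 2 * SS σ h φ n z + (h n : ℂ) ^ 2 * R n z := by
  obtain ⟨d0, ⟨A0, hA0, j0⟩, -⟩ := hJetC V σ h φ L 0
  obtain ⟨d1, ⟨A1, hA1, j1⟩, -⟩ := hJetC V σ h φ L 1
  obtain ⟨dm, ⟨A2, hA2, j2⟩, -⟩ := hJetC V σ h φ L (-1)
  have hσ := L.sm
  refine ⟨_, ((((d0.mul L.op hA0).smul L.op 2).sub L.op (hA1.mul L.op dm)).sub L.op
    (d1.mul L.op hA2)).smul L.op (1 / 2), fun n z hz => ?_⟩
  have s0 := d0.smooth n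
  have s1 := d1.smooth n
  have sm := dm.smooth n
  have e0 : (fun w => ((UU σ h φ n w : ℝ) : ℂ)) = fun w => (1 / 2 : ℂ) *
      (E σ h φ 0 n w * E σ h φ 0 n w - E σ h φ 1 n w * E σ h φ (-1) n w) := by
    funext w; exact UU_eq L n w
  have p0 : DifferentiableAt ℝ (fun w => E σ h φ 0 n w * E σ h φ 0 n w) z :=
    (cd_at s0 z).fun_mul (cd_at s0 z)
  have p1 : DifferentiableAt ℝ (fun w => E σ h φ 1 n w * E σ h φ (-1) n w) z :=
    (cd_at s1 z).fun_mul (cd_at sm z)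
  have m0 := D_mul hσ 0 0 (cd_at s0 z) (cd_at s0 z)
  have m1 := D_mul hσ 1 (-1) (cd_at s1 z) (cd_at sm z)
  rw [add_zero] at m0
  rw [show (1 : ℤ) + (-1) = 0 by norm_num] at m1
  have k0 := j0 n z hz
  have k1 := j1 n z hz
  have k2 := j2 n z hz
  rw [show (0 : ℤ) + 1 = 1 by norm_num] at k0
  rw [show (1 : ℤ) + 1 = 2 by norm_num] at k1
  rw [show (-1 : ℤ) + 1 = 0 by norm_num] at k2
  rw [e0, D_const_mul hσ 0 _ (p0.fun_sub p1), D_sub hσ 0 p0 p1, m0, m1]
  unfold SS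
  linear_combination E σ h φ 0 n z * k0 - 1 / 2 * E σ h φ (-1) n z * k1
    - 1 / 2 * E σ h φ 1 n z * k2

lemma grad_small (hIntA : StmtIntA) (hJetC : StmtJetC) (hHcl : StmtHcl) (L : LocB V σ h φ)
    (G : GrowA V h φ) {K : Set ℂ} (hK : IsCompact K) (hKV : K ⊆ V) :
    Tendsto (fun n => h n * ∫ z in K,
      h n ^ 2 * (d1 (UU σ h φ n) z ^ 2 + d2 (UU σ h φ n) z ^ 2)) atTop (𝓝 0) := by
  obtain ⟨R, hR, hE⟩ := hD_UU hJetC L
  have hσ := L.sm
  have t1 := (hIntA V h φ _ L.hpos L.hlim L.smφ G hR.smooth).2.1 hR.bq K hK hKV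
  have t2 : Tendsto (fun n => h n ^ 3 * ∫ z in K, ‖(h n : ℂ) * R n z‖ ^ 2) atTop (𝓝 0) := by
    have := (L.hlim.pow 3).mul t1
    simpa using this
  have t3 := SS_small hJetC hHcl L hK hKV
  obtain ⟨M, hM⟩ := hK.exists_bound_of_continuousOn
    (f := fun z => Real.exp (2 * σ z)) (by
      have := hσ.continuous
      fun_prop)
  have t4 := (t3.add t2).const_mul (2 * M)
  rw [add_zero, mul_zero] at t4
  have hM0 : ∀ z ∈ K, Real.exp (2 * σ z) ≤ M := fun z hz =>
    (le_abs_self _).trans (hM z hz)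
  have hc : ∀ n, Continuous fun z => h n ^ 2 * (d1 (UU σ h φ n) z ^ 2 + d2 (UU σ h φ n) z ^ 2) := by
    intro n
    have hU := UU_smooth hJetC L n
    have e : (fun z => h n ^ 2 * (d1 (UU σ h φ n) z ^ 2 + d2 (UU σ h φ n) z ^ 2))
        = fun z => h n ^ 2 * (Real.exp (2 * σ z) *
          ‖D σ 0 (fun w => ((UU σ h φ n w : ℝ) : ℂ)) z‖ ^ 2) := by
      funext z; rw [grad_eq hU hσ z]
    rw [e]
    have hD := (contDiff_D hσ 0 (f := fun w => ((UU σ h φ n w : ℝ) : ℂ))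
      (ofRealCLM.contDiff.comp hU)).continuous
    have hs := hσ.continuous
    fun_prop
  refine squeeze_zero (fun n => mul_nonneg (L.hpos n).le (integral_nonneg fun z => by positivity))
    (fun n => ?_) t4
  have i1 : IntegrableOn (fun z => ‖SS σ h φ n z‖ ^ 2) K :=
    int_on hK ((SS_cont hJetC L n).norm.pow 2)
  have i2 := int_on hK (F := fun z => h n ^ 2 * ‖(h n : ℂ) * R n z‖ ^ 2)
    (continuous_const.mul ((continuous_const.mul (hR.smooth n).continuous).norm.pow 2))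
  have h2 : ∫ z in K, h n ^ 2 * (d1 (UU σ h φ n) z ^ 2 + d2 (UU σ h φ n) z ^ 2)
      ≤ ∫ z in K, 2 * M * (‖SS σ h φ n z‖ ^ 2 + h n ^ 2 * ‖(h n : ℂ) * R n z‖ ^ 2) := by
    refine setIntegral_mono_on (int_on hK (hc n)) ((i1.add i2).const_mul _)
      hK.measurableSet fun z hz => ?_
    rw [grad_eq (UU_smooth hJetC L n) hσ z]
    have a1 := hE n z (hKV hz)
    have a2 : h n ^ 2 * (Real.exp (2 * σ z) * ‖D σ 0 (fun w => ((UU σ h φ n w : ℝ) : ℂ)) z‖ ^ 2)
        = Real.exp (2 * σ z) *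
          ‖(h n : ℂ) * D σ 0 (fun w => ((UU σ h φ n w : ℝ) : ℂ)) z‖ ^ 2 := by
      rw [norm_mul, Complex.norm_real, Real.norm_of_nonneg (L.hpos n).le]
      ring
    rw [a2, a1]
    have a3 : ‖1 / 2 * SS σ h φ n z + (h n : ℂ) ^ 2 * R n z‖
        ≤ 1 / 2 * ‖SS σ h φ n z‖ + h n * ‖(h n : ℂ) * R n z‖ := by
      refine (norm_add_le _ _).trans (le_of_eq ?_)
      rw [norm_mul, norm_mul, norm_mul, norm_pow, Complex.norm_real,
        Real.norm_of_nonneg (L.hpos n).le]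
      norm_num
      ring
    have a4 : ‖1 / 2 * SS σ h φ n z + (h n : ℂ) ^ 2 * R n z‖ ^ 2
        ≤ 2 * (‖SS σ h φ n z‖ ^ 2 + h n ^ 2 * ‖(h n : ℂ) * R n z‖ ^ 2) := by
      calc _ ≤ (1 / 2 * ‖SS σ h φ n z‖ + h n * ‖(h n : ℂ) * R n z‖) ^ 2 := by gcongr
        _ ≤ _ := by
          nlinarith [sq_nonneg (1 / 2 * ‖SS σ h φ n z‖ - h n * ‖(h n : ℂ) * R n z‖),
            sq_nonneg ‖SS σ h φ n z‖, sq_nonneg (h n * ‖(h n : ℂ) * R n z‖)]
    have a5 := hM0 z hz
    have a6 : 0 ≤ ‖SS σ h φ n z‖ ^ 2 + h n ^ 2 * ‖(h n : ℂ) * R n z‖ ^ 2 := by (clear * -; positivity)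
    calc Real.exp (2 * σ z) * ‖1 / 2 * SS σ h φ n z + (h n : ℂ) ^ 2 * R n z‖ ^ 2
        ≤ M * (2 * (‖SS σ h φ n z‖ ^ 2 + h n ^ 2 * ‖(h n : ℂ) * R n z‖ ^ 2)) := by
          gcongr
          exact (Real.exp_pos _).le.trans a5
      _ = _ := by ring
  have h3 : ∫ z in K, 2 * M * (‖SS σ h φ n z‖ ^ 2 + h n ^ 2 * ‖(h n : ℂ) * R n z‖ ^ 2)
      = 2 * M * ((∫ z in K, ‖SS σ h φ n z‖ ^ 2)
          + h n ^ 2 * ∫ z in K, ‖(h n : ℂ) * R n z‖ ^ 2) := by
    rw [integral_const_mul, integral_add i1 i2, integral_const_mul]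
  rw [h3] at h2
  calc h n * ∫ z in K, h n ^ 2 * (d1 (UU σ h φ n) z ^ 2 + d2 (UU σ h φ n) z ^ 2)
      ≤ h n * (2 * M * ((∫ z in K, ‖SS σ h φ n z‖ ^ 2)
          + h n ^ 2 * ∫ z in K, ‖(h n : ℂ) * R n z‖ ^ 2)) :=
        mul_le_mul_of_nonneg_left h2 (L.hpos n).le
    _ = 2 * M * (h n * (∫ z in K, ‖SS σ h φ n z‖ ^ 2)
          + h n ^ 3 * ∫ z in K, ‖(h n : ℂ) * R n z‖ ^ 2) := by ring

lemma UU_small (hIntA : StmtIntA) (hJetC : StmtJetC) (hHcl : StmtHcl) (hPoi : StmtPoi)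
    (L : LocB V σ h φ) (G : GrowA V h φ) {K : Set ℂ} (hK : IsCompact K) (hKV : K ⊆ V) :
    Tendsto (fun n => h n * ∫ z in K, UU σ h φ n z ^ 2) atTop (𝓝 0) := by
  refine hPoi V h (UU σ h φ) L.op L.hpos L.hlim (UU_smooth hJetC L) UU_nonneg ?_
    (fun K hK hKV => grad_small hIntA hJetC hHcl L G hK hKV) K hK hKV
  have d0 := (hJetC V σ h φ L 0).1
  have d1 := (hJetC V σ h φ L 1).1
  have dm := (hJetC V σ h φ L (-1)).1
  have dU : Dom V h φ 2 (fun n z => ((UU σ h φ n z : ℝ) : ℂ)) :=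
    (((d0.mul L.op d0).sub L.op (d1.mul L.op dm)).smul L.op (1 / 2)).congr L.op
      (fun n => ofRealCLM.contDiff.comp (UU_smooth hJetC L n)) fun n z _ => (UU_eq L n z).symm
  have h1 := (hIntA V h φ _ L.hpos L.hlim L.smφ G dU.smooth).1 dU.bq
  intro K hK hKV
  obtain ⟨C, hC⟩ := h1 K hK hKV
  refine ⟨C, ?_⟩
  filter_upwards [hC] with n hn z hz s hs
  refine le_trans (le_of_eq ?_) (hn z hz s hs)
  refine integral_congr_ae (Filter.Eventually.of_forall fun w => ?_)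
  show UU σ h φ n w = ‖((UU σ h φ n w : ℝ) : ℂ)‖
  rw [Complex.norm_real, Real.norm_of_nonneg (UU_nonneg n w)]

lemma zero_small (hIntA : StmtIntA) (hJetC : StmtJetC) (hHcl : StmtHcl) (hPoi : StmtPoi)
    (L : LocB V σ h φ) (G : GrowA V h φ) {ζ : ℂ → ℂ} (hζ : Test V ζ) :
    Tendsto (fun n => (h n : ℂ) * E4 σ h φ ζ 0 0 0 0 n) atTop (𝓝 0) := by
  obtain ⟨M, hM⟩ := IBP.norm_int_le hζ
  have hK : IsCompact (tsupport ζ) := hζ.supp
  have t1 := (UU_small hIntA hJetC hHcl hPoi L G hK hζ.sub).const_mul (|M| * 4)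
  rw [mul_zero] at t1
  refine squeeze_zero_norm (fun n => ?_) t1
  have c4 : Continuous fun z => E σ h φ 0 n z * E σ h φ 0 n z * E σ h φ 0 n z * E σ h φ 0 n z :=
    (((cE hJetC L 0 n).mul (cE hJetC L 0 n)).mul (cE hJetC L 0 n)).mul (cE hJetC L 0 n)
  have h1 := hM _ c4
  have cU := (UU_smooth hJetC L n).continuous
  have h2 : ∫ z in tsupport ζ, ‖E σ h φ 0 n z * E σ h φ 0 n z * E σ h φ 0 n z * E σ h φ 0 n z‖
      ≤ ∫ z in tsupport ζ, 4 * UU σ h φ n z ^ 2 := by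
    refine setIntegral_mono (int_on hK c4.norm) ((int_on hK (cU.pow 2)).const_mul 4) fun z => ?_
    show ‖E σ h φ 0 n z * E σ h φ 0 n z * E σ h φ 0 n z * E σ h φ 0 n z‖ ≤ 4 * UU σ h φ n z ^ 2
    rw [norm_mul, norm_mul, norm_mul]
    unfold UU
    nlinarith only []
  rw [integral_const_mul] at h2
  have h3 : 0 ≤ ∫ z in tsupport ζ, ‖E σ h φ 0 n z * E σ h φ 0 n z * E σ h φ 0 n z *
      E σ h φ 0 n z‖ := integral_nonneg fun z => norm_nonneg _
  rw [norm_mul, Complex.norm_real, Real.norm_of_nonneg (L.hpos n).le]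
  unfold E4
  calc h n * ‖∫ z, ζ z * (E σ h φ 0 n z * E σ h φ 0 n z * E σ h φ 0 n z * E σ h φ 0 n z)‖
      ≤ h n * (|M| * (4 * ∫ z in tsupport ζ, UU σ h φ n z ^ 2)) := by
        refine mul_le_mul_of_nonneg_left (h1.trans ?_) (L.hpos n).le
        exact (mul_le_mul_of_nonneg_right (le_abs_self M) h3).trans
          (mul_le_mul_of_nonneg_left h2 (abs_nonneg M))
    _ = |M| * 4 * (h n * ∫ z in tsupport ζ, UU σ h φ n z ^ 2) := by ring

lemma all_small (hIntA : StmtIntA) (hJetC : StmtJetC) (hHcl : StmtHcl) (hPoi : StmtPoi)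
    (L : LocB V σ h φ) (G : GrowA V h φ) {ζ : ℂ → ℂ} (hζ : Test V ζ) {a b c d : ℤ}
    (hs : a + b + c + d = 0) : Tendsto (fun n => (h n : ℂ) * E4 σ h φ ζ a b c d n) atTop (𝓝 0) := by
  have t1 := hHcl V σ h φ L ζ hζ a b c d hs
  have t2 := (zero_small hIntA hJetC hHcl hPoi L G hζ).const_mul (cl4 a b c d)
  rw [mul_zero] at t2
  have t3 := t1.add t2
  rw [add_zero] at t3
  refine t3.congr fun n => ?_
  ring

lemma Q4_E (hIntA : StmtIntA) (hJetC : StmtJetC) (hHcl : StmtHcl) (hPoi : StmtPoi)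
    (L : LocB V σ h φ) (G : GrowA V h φ) (j : ℤ) : Q4 V h (E σ h φ j) := by
  intro K hK hKV
  obtain ⟨ζ, hζ, hr, h0, h1⟩ := cut L.op hK hKV
  have t1 := (all_small hIntA hJetC hHcl hPoi L G hζ (a := j) (b := j) (c := -j) (d := -j)
    (by ring)).norm
  rw [norm_zero] at t1
  refine squeeze_zero (fun n => mul_nonneg (L.hpos n).le (integral_nonneg fun z => by positivity))
    (fun n => ?_) t1
  rw [norm_mul, Complex.norm_real, Real.norm_of_nonneg (L.hpos n).le]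
  refine mul_le_mul_of_nonneg_left ?_ (L.hpos n).le
  have h2 := le_int (F := fun z => ‖E σ h φ j n z‖ ^ 4) hζ hr h0 hK h1
    ((cE hJetC L j n).norm.pow 4) fun z => by positivity
  refine h2.trans (le_of_eq ?_)
  unfold E4
  congr 1
  refine integral_congr_ae (Filter.Eventually.of_forall fun z => ?_)
  show ζ z * ((‖E σ h φ j n z‖ ^ 4 : ℝ) : ℂ) = ζ z * (E σ h φ j n z * E σ h φ j n z *
    E σ h φ (-j) n z * E σ h φ (-j) n z)
  congr 1
  have e1 : ((‖E σ h φ j n z‖ ^ 4 : ℝ) : ℂ) = ((‖E σ h φ j n z‖ : ℂ) ^ 2) ^ 2 := by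
    push_cast; ring
  have e2 : ((-1 : ℂ) ^ j) * ((-1 : ℂ) ^ j) = 1 := by
    rw [← mul_zpow]; norm_num
  rw [e1, ← Complex.mul_conj', conj_E L]
  linear_combination (E σ h φ j n z * E σ h φ j n z *
    E σ h φ (-j) n z * E σ h φ (-j) n z) * e2

lemma Q4_W (hIntA : StmtIntA) (hJetC : StmtJetC) (hJetW : StmtJetW) (hHcl : StmtHcl)
    (hPoi : StmtPoi) (L : LocB V σ h φ) (G : GrowA V h φ) (a b : ℕ) : Q4 V h (W h φ a b) := by
  obtain ⟨A, hA, hE⟩ := hJetW V σ h φ L a b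
  have q1 := Q4_E hIntA hJetC hHcl hPoi L G ((a : ℤ) - b)
  have q2 := Q4.hA hIntA L G hA
  have cA : ∀ n, Continuous fun z => (h n : ℂ) * A n z := fun n =>
    continuous_const.mul (hA.smooth n).continuous
  have cE' : ∀ n, Continuous fun z => (2 : ℂ)⁻¹ ^ (a + b) * (-1) ^ b *
      E σ h φ ((a : ℤ) - b) n z := fun n =>
    continuous_const.mul (cE hJetC L ((a : ℤ) - b) n)
  have q3 : Q4 V h (fun n z => (2 : ℂ)⁻¹ ^ (a + b) * (-1) ^ b * E σ h φ ((a : ℤ) - b) n z) := by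
    refine Q4.of_le L.hpos cE' (cE hJetC L ((a : ℤ) - b))
      (b := fun _ => ‖(2 : ℂ)⁻¹ ^ (a + b) * (-1) ^ b‖) continuous_const (fun n z _ => ?_) q1
    rw [norm_mul]
  have q4 := Q4.add L.hpos cE' cA q3 q2
  have cS : ∀ n, Continuous fun z => (2 : ℂ)⁻¹ ^ (a + b) * (-1) ^ b *
      E σ h φ ((a : ℤ) - b) n z + (h n : ℂ) * A n z := fun n => (cE' n).add (cA n)
  refine Q4.of_le L.hpos (fun n => (contDiff_W L.smφ a b n).continuous)
    cS (b := fun z => ‖ex σ (a + b) z‖)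
    (contDiff_ex L.sm _).continuous.norm (fun n z hz => ?_) q4
  rw [← hE n z hz, ← norm_mul, ← mul_assoc, ex_mul]
  have e : (a : ℤ) + b + -((a : ℤ) + b) = 0 := by ring
  rw [e, ex_zero, one_mul]

end SML

open _root_.U3.SML in
theorem stmtSml (hGroA : StmtGroA) (hIntA : StmtIntA) (hIbpA : StmtIbpA) (hJetC : StmtJetC)
    (hJetW : StmtJetW) (hHcl : StmtHcl) (hPoi : StmtPoi) : StmtSml := by
  intro V σ h φ L K hK hKV N
  have _ := hIbpA
  have G := hGroA V σ h φ L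
  have q := Q4_W hIntA hJetC hJetW hHcl hPoi L G
  set s : Finset (ℕ × ℕ) := Finset.range (N + 1) ×ˢ Finset.range (N + 1) with hs
  have hRR : ∀ n z, RR h φ N n z = 1 + ∑ i ∈ s, ‖W h φ i.1 i.2 n z‖ ^ 2 := by
    intro n z
    unfold RR
    rw [hs, Finset.sum_product]
  have t1 : Tendsto (fun n => h n * ∫ _ in K, (1 : ℝ)) atTop (𝓝 0) := by
    have := L.hlim.mul_const (∫ _ in K, (1 : ℝ))
    simpa using this
  have t2 : Tendsto (fun n => ∑ i ∈ s, h n * ∫ z in K, ‖W h φ i.1 i.2 n z‖ ^ 4) atTop (𝓝 0) := by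
    have := tendsto_finsetSum s fun i _ => q i.1 i.2 K hK hKV
    simpa using this
  have t3 := (t1.add (t2.const_mul (s.card : ℝ))).const_mul 2
  rw [mul_zero, add_zero, mul_zero] at t3
  refine squeeze_zero (fun n => mul_nonneg (L.hpos n).le (integral_nonneg fun z => by positivity))
    (fun n => ?_) t3
  have cW : ∀ i : ℕ × ℕ, Continuous fun z => ‖W h φ i.1 i.2 n z‖ ^ 4 := fun i =>
    (contDiff_W L.smφ i.1 i.2 n).continuous.norm.pow 4
  have i1 : IntegrableOn (fun _ : ℂ => (1 : ℝ)) K := int_on hK continuous_const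
  have i2 : ∀ i ∈ s, IntegrableOn (fun z => ‖W h φ i.1 i.2 n z‖ ^ 4) K := fun i _ =>
    int_on hK (cW i)
  have i3 : IntegrableOn (fun z => ∑ i ∈ s, ‖W h φ i.1 i.2 n z‖ ^ 4) K :=
    integrable_finsetSum s i2
  have h2 : ∫ z in K, RR h φ N n z ^ 2
      ≤ ∫ z in K, 2 * (1 + (s.card : ℝ) * ∑ i ∈ s, ‖W h φ i.1 i.2 n z‖ ^ 4) := by
    refine setIntegral_mono (int_on hK ((continuous_RR L.smφ N n).pow 2))
      ((i1.add (i3.const_mul _)).const_mul 2) fun z => ?_
    show RR h φ N n z ^ 2 ≤ 2 * (1 + (s.card : ℝ) * ∑ i ∈ s, ‖W h φ i.1 i.2 n z‖ ^ 4)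
    rw [hRR]
    have h3 := sq_sum_le_card_mul_sum_sq (s := s) (f := fun i => ‖W h φ i.1 i.2 n z‖ ^ 2)
    have h4 : ∑ i ∈ s, (‖W h φ i.1 i.2 n z‖ ^ 2) ^ 2 = ∑ i ∈ s, ‖W h φ i.1 i.2 n z‖ ^ 4 :=
      Finset.sum_congr rfl fun i _ => by ring
    rw [h4] at h3
    nlinarith [sq_nonneg (1 - ∑ i ∈ s, ‖W h φ i.1 i.2 n z‖ ^ 2)]
  rw [integral_const_mul, integral_add i1 (i3.const_mul _), integral_const_mul,
    integral_finsetSum s i2] at h2
  calc h n * ∫ z in K, RR h φ N n z ^ 2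
      ≤ h n * (2 * ((∫ _ in K, (1 : ℝ)) + (s.card : ℝ) *
          ∑ i ∈ s, ∫ z in K, ‖W h φ i.1 i.2 n z‖ ^ 4)) :=
        mul_le_mul_of_nonneg_left h2 (L.hpos n).le
    _ = 2 * (h n * (∫ _ in K, (1 : ℝ)) + (s.card : ℝ) *
          ∑ i ∈ s, h n * ∫ z in K, ‖W h φ i.1 i.2 n z‖ ^ 4) := by
        rw [← Finset.mul_sum]; ring

end

end U3


end

section

/-!
E3S: the three-jet integrals in terms of those with equal spins.
-/

open Complex MeasureTheory Filter Topology Set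
open scoped ContDiff

namespace U3

open QE QJ

namespace E3S

theorem swap_ab (σ : ℂ → ℝ) (h : ℕ → ℝ) (φ : ℕ → ℂ → ℂ) (ζ : ℂ → ℂ) (a b c : ℤ) :
    E3 σ h φ ζ b a c = E3 σ h φ ζ a b c := by
  funext n
  unfold E3
  refine integral_congr_ae (Filter.Eventually.of_forall fun z => ?_)
  show ζ z * (E σ h φ b n z * E σ h φ a n z * E σ h φ c n z) = _
  ring

theorem swap_bc (σ : ℂ → ℝ) (h : ℕ → ℝ) (φ : ℕ → ℂ → ℂ) (ζ : ℂ → ℂ) (a b c : ℤ) :
    E3 σ h φ ζ a c b = E3 σ h φ ζ a b c := by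
  funext n
  unfold E3
  refine integral_congr_ae (Filter.Eventually.of_forall fun z => ?_)
  show ζ z * (E σ h φ a n z * E σ h φ c n z * E σ h φ b n z) = _
  ring

end E3S

theorem stmtE3s (hIfoB : StmtIfoB) (hAltS : StmtAltS) : StmtE3s := by
  intro V σ h φ L ζ hζ a b c s habc
  obtain ⟨-, hup, hdn⟩ := hIfoB V σ h φ L ζ hζ
  let e : ℤ → ℤ → ℤ → (ℕ → ℂ) ⧸ FOU.nul := fun a b c => FOU.nul.mkQ (E3 σ h φ ζ a b c)
  have h1 := hAltS _ e s (fun a b c => by
      show FOU.nul.mkQ _ = FOU.nul.mkQ _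
      rw [E3S.swap_ab])
    (fun a b c => by
      show FOU.nul.mkQ _ = FOU.nul.mkQ _
      rw [E3S.swap_bc])
    (fun a b c _ => by
      show FOU.nul.mkQ _ + FOU.nul.mkQ _ + FOU.nul.mkQ _ = 0
      rw [← map_add, ← map_add, Submodule.mkQ_apply, Submodule.Quotient.mk_eq_zero]
      exact hup a b c)
    (fun a b c _ => by
      show FOU.nul.mkQ _ + FOU.nul.mkQ _ + FOU.nul.mkQ _ = 0
      rw [← map_add, ← map_add, Submodule.mkQ_apply, Submodule.Quotient.mk_eq_zero]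
      exact hdn a b c) a b c habc
  by_cases h3 : 3 ∣ s
  · rw [if_pos h3] at h1
    have h2 : FOU.nul.mkQ (E3 σ h φ ζ a b c
        - cl3 b c • E3 σ h φ ζ (s / 3) (s / 3) (s / 3)) = 0 := by
      rw [map_sub, map_smul, sub_eq_zero]
      exact h1
    rw [Submodule.mkQ_apply, Submodule.Quotient.mk_eq_zero] at h2
    simp only [if_pos h3]
    exact h2
  · rw [if_neg h3] at h1
    have h2 : FOU.nul.mkQ (E3 σ h φ ζ a b c) = 0 := h1
    rw [Submodule.mkQ_apply, Submodule.Quotient.mk_eq_zero] at h2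
    simp only [if_neg h3, sub_zero]
    exact h2

end U3


end

section

/-!
Integrals depending on a parameter: smoothness and derivatives.
-/

open Complex MeasureTheory Filter Topology Set
open scoped ContDiff

namespace U3

open QE QJ

noncomputable section

namespace PAR

variable {Ω : Type} [MeasurableSpace Ω] {μ : Measure Ω} {p v : Ω → ℂ}

/-- the derivative of a smooth function in the first variable -/
def G1 (F : ℂ × ℂ → ℂ) (w : ℂ) : ℂ × ℂ → ℂ := fun q => fderiv ℝ F q (w, 0)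

lemma contDiff_G1 {F : ℂ × ℂ → ℂ} (hF : ContDiff ℝ ∞ F) (w : ℂ) : ContDiff ℝ ∞ (G1 F w) := by
  unfold G1
  exact (hF.fderiv_right (m := ∞) (by simp)).clm_apply contDiff_const

lemma hasFDerivAt_slice {F : ℂ × ℂ → ℂ} (hF : ContDiff ℝ ∞ F) (x y : ℂ) :
    HasFDerivAt (fun x => F (x, y)) ((fderiv ℝ F (x, y)).comp (ContinuousLinearMap.inl ℝ ℂ ℂ)) x := by
  have h1 : HasFDerivAt F (fderiv ℝ F (x, y)) (x, y) :=
    ((hF.differentiable (by simp)) (x, y)).hasFDerivAt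
  have h2 : HasFDerivAt (fun x : ℂ => ((x, y) : ℂ × ℂ)) (ContinuousLinearMap.inl ℝ ℂ ℂ) x :=
    hasFDerivAt_prodMk_left x y
  exact h1.comp x h2

lemma fderiv_slice {F : ℂ × ℂ → ℂ} (hF : ContDiff ℝ ∞ F) (x y w : ℂ) :
    fderiv ℝ (fun x => F (x, y)) x w = G1 F w (x, y) := by
  rw [(hasFDerivAt_slice hF x y).fderiv]
  simp [G1]

lemma meas_slice {F : ℂ × ℂ → ℂ} (hF : Continuous F) (hp : Measurable p) (x : ℂ) :
    Measurable fun o => F (x, p o) :=
  hF.measurable.comp (measurable_const.prodMk hp)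

lemma int_slice [IsFiniteMeasure μ] {F : ℂ × ℂ → ℂ} (hF : Continuous F) (hp : Measurable p)
    (hv : Measurable v) (hv1 : ∀ o, ‖v o‖ ≤ 1) {K : Set ℂ} (hK : IsCompact K)
    (hpK : ∀ᵐ o ∂μ, p o ∈ K) (x : ℂ) : Integrable (fun o => F (x, p o) * v o) μ := by
  obtain ⟨C, hC⟩ := (isCompact_singleton (x := x)).prod hK |>.exists_bound_of_continuousOn
    hF.continuousOn
  refine Integrable.of_bound ((meas_slice hF hp x).mul hv).aestronglyMeasurable C ?_
  filter_upwards [hpK] with o ho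
  rw [norm_mul]
  have h1 := hC (x, p o) ⟨rfl, ho⟩
  calc ‖F (x, p o)‖ * ‖v o‖ ≤ ‖F (x, p o)‖ * 1 := by gcongr; exact hv1 o
    _ ≤ C := by rw [mul_one]; exact h1

lemma hasFDerivAt_int [IsFiniteMeasure μ] {F : ℂ × ℂ → ℂ} (hF : ContDiff ℝ ∞ F)
    (hp : Measurable p) (hv : Measurable v) (hv1 : ∀ o, ‖v o‖ ≤ 1) {K : Set ℂ} (hK : IsCompact K)
    (hpK : ∀ᵐ o ∂μ, p o ∈ K) (x₀ : ℂ) :
    HasFDerivAt (fun x => ∫ o, F (x, p o) * v o ∂μ)
      (∫ o, v o • (fderiv ℝ F (x₀, p o)).comp (ContinuousLinearMap.inl ℝ ℂ ℂ) ∂μ) x₀ ∧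
    Integrable (fun o => v o • (fderiv ℝ F (x₀, p o)).comp (ContinuousLinearMap.inl ℝ ℂ ℂ)) μ := by
  have hcF' : Continuous fun q : ℂ × ℂ => (fderiv ℝ F q).comp (ContinuousLinearMap.inl ℝ ℂ ℂ) :=
    ((hF.continuous_fderiv (by simp))).clm_comp continuous_const
  obtain ⟨C, hC⟩ := ((isCompact_closedBall x₀ 1).prod hK).exists_bound_of_continuousOn
    hcF'.continuousOn
  have hmeas : AEStronglyMeasurable
      (fun o => v o • (fderiv ℝ F (x₀, p o)).comp (ContinuousLinearMap.inl ℝ ℂ ℂ)) μ := by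
    refine hv.aestronglyMeasurable.smul ?_
    have h1 : StronglyMeasurable fun o => ((x₀, p o) : ℂ × ℂ) :=
      (measurable_const.prodMk hp).stronglyMeasurable
    exact (hcF'.comp_stronglyMeasurable h1).aestronglyMeasurable
  have hb : ∀ᵐ o ∂μ, ∀ x ∈ Metric.closedBall x₀ 1,
      ‖v o • (fderiv ℝ F (x, p o)).comp (ContinuousLinearMap.inl ℝ ℂ ℂ)‖ ≤ C := by
    filter_upwards [hpK] with o ho x hx
    have h1 := hC (x, p o) ⟨hx, ho⟩
    rw [norm_smul]
    calc ‖v o‖ * ‖(fderiv ℝ F (x, p o)).comp (ContinuousLinearMap.inl ℝ ℂ ℂ)‖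
        ≤ 1 * ‖(fderiv ℝ F (x, p o)).comp (ContinuousLinearMap.inl ℝ ℂ ℂ)‖ := by
          gcongr; exact hv1 o
      _ ≤ C := by rw [one_mul]; exact h1
  refine ⟨hasFDerivAt_integral_of_dominated_of_fderiv_le (bound := fun _ => C)
    (F' := fun x o => v o • (fderiv ℝ F (x, p o)).comp (ContinuousLinearMap.inl ℝ ℂ ℂ))
    (Metric.closedBall_mem_nhds x₀ one_pos) ?_ ?_ hmeas hb (integrable_const C) ?_, ?_⟩
  · exact Eventually.of_forall fun x =>
      ((meas_slice hF.continuous hp x).mul hv).aestronglyMeasurable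
  · exact int_slice hF.continuous hp hv hv1 hK hpK x₀
  · refine Eventually.of_forall fun o x _ => ?_
    have h1 := (hasFDerivAt_slice hF x (p o)).mul_const' (v o)
    exact h1.congr_fderiv (by ext w; simp [mul_comm])
  · refine Integrable.of_bound hmeas C ?_
    filter_upwards [hb] with o ho
    exact ho x₀ (Metric.mem_closedBall_self zero_le_one)

lemma fderiv_int [IsFiniteMeasure μ] {F : ℂ × ℂ → ℂ} (hF : ContDiff ℝ ∞ F)
    (hp : Measurable p) (hv : Measurable v) (hv1 : ∀ o, ‖v o‖ ≤ 1) {K : Set ℂ} (hK : IsCompact K)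
    (hpK : ∀ᵐ o ∂μ, p o ∈ K) (x w : ℂ) :
    fderiv ℝ (fun x => ∫ o, F (x, p o) * v o ∂μ) x w = ∫ o, G1 F w (x, p o) * v o ∂μ := by
  obtain ⟨h1, h2⟩ := hasFDerivAt_int hF hp hv hv1 hK hpK x
  rw [h1.fderiv, ContinuousLinearMap.integral_apply h2]
  refine integral_congr_ae (Eventually.of_forall fun o => ?_)
  simp [G1, mul_comm]

lemma contDiff_int [IsFiniteMeasure μ] (hp : Measurable p) (hv : Measurable v)
    (hv1 : ∀ o, ‖v o‖ ≤ 1) {K : Set ℂ} (hK : IsCompact K) (hpK : ∀ᵐ o ∂μ, p o ∈ K) (n : ℕ) :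
    ∀ {F : ℂ × ℂ → ℂ}, ContDiff ℝ ∞ F → ContDiff ℝ n (fun x => ∫ o, F (x, p o) * v o ∂μ) := by
  induction n with
  | zero =>
    intro F hF
    refine contDiff_zero.2 ?_
    exact continuous_iff_continuousAt.2 fun x =>
      (hasFDerivAt_int hF hp hv hv1 hK hpK x).1.continuousAt
  | succ n ih =>
    intro F hF
    have h : ContDiff ℝ ((n : WithTop ℕ∞) + 1) (fun x => ∫ o, F (x, p o) * v o ∂μ) := by
      rw [contDiff_succ_iff_fderiv_apply]
      refine ⟨fun x => (hasFDerivAt_int hF hp hv hv1 hK hpK x).1.differentiableAt,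
        fun h => by simp at h, fun w => ?_⟩
      have e : (fun x => fderiv ℝ (fun x => ∫ o, F (x, p o) * v o ∂μ) x w)
          = fun x => ∫ o, G1 F w (x, p o) * v o ∂μ := by
        funext x; exact fderiv_int hF hp hv hv1 hK hpK x w
      rw [e]
      exact ih (contDiff_G1 hF w)
    exact_mod_cast h

end PAR

open _root_.U3.PAR

/-- PAR -/
theorem stmtPar : StmtPar := by
  intro Ω _ μ p v F hμ hp hv hv1 hK hF
  obtain ⟨K, hK, hpK⟩ := hK
  have : IsFiniteMeasure μ := ⟨lt_top_iff_ne_top.2 hμ⟩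
  have hI : ∀ w x, Integrable (fun o => G1 F w (x, p o) * v o) μ := fun w x =>
    int_slice (contDiff_G1 hF w).continuous hp hv hv1 hK hpK x
  refine ⟨contDiff_infty.2 fun n => contDiff_int hp hv hv1 hK hpK n hF, fun z => ?_, fun z => ?_⟩
  · unfold dz
    simp only [fderiv_int hF hp hv hv1 hK hpK, fderiv_slice hF]
    rw [← integral_const_mul, ← integral_sub (hI 1 z) ((hI I z).const_mul I),
      ← integral_const_mul]
    refine integral_congr_ae (Eventually.of_forall fun o => ?_)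
    simp only
    ring
  · unfold dzb
    simp only [fderiv_int hF hp hv hv1 hK hpK, fderiv_slice hF]
    rw [← integral_const_mul, ← integral_add (hI 1 z) ((hI I z).const_mul I),
      ← integral_const_mul]
    refine integral_congr_ae (Eventually.of_forall fun o => ?_)
    simp only
    ring

end

end U3


end

section

/-!
TRIP: the triples of mollified moments.
-/

open Complex MeasureTheory Filter Topology Set
open scoped ContDiff

namespace U3

open QE QJ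

noncomputable section

namespace TRIP

lemma norm_sgn (m : ℤ) (x : ℂ) : ‖(-1 : ℂ) ^ m * x‖ = ‖x‖ := by
  rw [norm_mul, norm_zpow, norm_neg, norm_one, one_zpow, one_mul]

lemma lg_sgn {V : Set ℂ} {u : ℕ → ℂ → ℂ} (hu : LG V u) (m : ℤ) :
    LG V (fun n z => (-1 : ℂ) ^ m * u n z) := by
  intro K hK hKV
  obtain ⟨C, hC⟩ := hu K hK hKV
  refine ⟨C, ?_⟩
  filter_upwards [hC] with n hn z hz s hs
  simp only [norm_sgn]
  exact hn z hz s hs

lemma l2z_congr {V : Set ℂ} {u v : ℕ → ℂ → ℂ} (hu : L2z V u) (h : ∀ n z, ‖v n z‖ = ‖u n z‖) :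
    L2z V v := by
  intro K hK hKV
  refine (hu K hK hKV).congr fun n => ?_
  simp only [h]

lemma sgn_succ (m : ℤ) : (-1 : ℂ) ^ (m + 1) = - (-1 : ℂ) ^ m := by
  rw [zpow_add₀ (by norm_num : (-1 : ℂ) ≠ 0), zpow_one]; ring

lemma sgn_pred (m : ℤ) : (-1 : ℂ) ^ (m - 1) = - (-1 : ℂ) ^ m := by
  have h := sgn_succ (m - 1)
  rw [sub_add_cancel] at h
  rw [h, neg_neg]

end TRIP

open _root_.U3.TRIP in
/-- the triples of mollified moments -/
theorem stmtTriP (hPeS : StmtPeS) (hPeG : StmtPeG) (hPeT : StmtPeT) : StmtTriP := by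
  intro β V σ Ω _ μ p u ε j m hβ hV hσ hD hε hlim
  have S : ∀ (k : ℤ) (n : ℕ), ContDiff ℝ ∞ (pe β σ (ε n) μ p u k) := fun k n =>
    (hPeS β V σ Ω μ p u hβ hσ hD (ε n) (hε n) k).1
  have G : ∀ k : ℤ, LG V (fun n => pe β σ (ε n) μ p u k) := fun k =>
    hPeG β V σ Ω μ p u ε k hβ hV hσ hD hε hlim
  refine
    { sA := fun n => contDiff_const.mul (S (j + m + 2) n)
      sB := fun n => contDiff_const.mul (S (j + m) n)
      sC := fun n => contDiff_const.mul (S (j + m - 2) n)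
      gA := lg_sgn (G (j + m + 2)) (m + 1)
      gB := lg_sgn (G (j + m)) m
      gC := lg_sgn (G (j + m - 2)) (m - 1)
      eA := ?_
      eC := ?_ }
  · have h1 := hPeT β V σ Ω μ p u ε (j + m + 1) hβ hV hσ hD hε hlim
    have e1 : j + m + 1 + 1 = j + m + 2 := by ring
    have e2 : j + m + 1 - 1 = j + m := by ring
    rw [e1, e2] at h1
    refine l2z_congr h1 fun n z => ?_
    rw [Db_const_mul hσ (j + m + 2) _ (cd_at (S (j + m + 2) n) z),
      D_const_mul hσ (j + m) _ (cd_at (S (j + m) n) z), sgn_succ m]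
    rw [← norm_sgn (m + 1) (Db σ (j + m + 2) (pe β σ (ε n) μ p u (j + m + 2)) z
      - D σ (j + m) (pe β σ (ε n) μ p u (j + m)) z), sgn_succ m]
    congr 1
    ring
  · have h1 := hPeT β V σ Ω μ p u ε (j + m - 1) hβ hV hσ hD hε hlim
    have e1 : j + m - 1 + 1 = j + m := by ring
    have e2 : j + m - 1 - 1 = j + m - 2 := by ring
    rw [e1, e2] at h1
    refine l2z_congr h1 fun n z => ?_
    rw [D_const_mul hσ (j + m - 2) _ (cd_at (S (j + m - 2) n) z),
      Db_const_mul hσ (j + m) _ (cd_at (S (j + m) n) z), sgn_pred m]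
    rw [← norm_sgn m (Db σ (j + m) (pe β σ (ε n) μ p u (j + m)) z
      - D σ (j + m - 2) (pe β σ (ε n) μ p u (j + m - 2)) z)]
    congr 1
    ring

end

end U3


end

section

/-!
An invariant functional carried by geodesic arcs vanishes (`StmtEnd`).
-/

open Complex MeasureTheory Filter Topology Set
open scoped ContDiff

namespace U3

open QE QJ

noncomputable section

namespace ENDL

/-- bounded measurable functions -/
def BM {X : Type} [MeasurableSpace X] (h : X → ℂ) : Prop :=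
  Measurable h ∧ ∃ C : ℝ, ∀ o, ‖h o‖ ≤ C

section BM

variable {Ω : Type} [MeasurableSpace Ω] {μ : Measure Ω} [IsFiniteMeasure μ]

theorem BM.int {h : Ω → ℂ} (hh : BM h) : Integrable (fun o => ‖h o‖ ^ 2) μ := by
  obtain ⟨hm, C, hC⟩ := hh
  refine Integrable.of_bound (hm.norm.pow_const 2).aestronglyMeasurable (C ^ 2)
    (Filter.Eventually.of_forall fun o => ?_)
  rw [Real.norm_of_nonneg (by positivity)]
  exact pow_le_pow_left₀ (norm_nonneg _) (hC o) 2

theorem BM.sub {X : Type} [MeasurableSpace X] {h k : X → ℂ} (hh : BM h) (hk : BM k) :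
    BM (fun o => h o - k o) := by
  obtain ⟨hm, C, hC⟩ := hh
  obtain ⟨km, D, hD⟩ := hk
  exact ⟨hm.sub km, C + D, fun o => (norm_sub_le _ _).trans (add_le_add (hC o) (hD o))⟩

theorem BM.comp {X Y : Type} [MeasurableSpace X] [MeasurableSpace Y] {h : Y → ℂ} (hh : BM h)
    {a : X → Y} (ha : Measurable a) : BM (fun o => h (a o)) := by
  obtain ⟨hm, C, hC⟩ := hh
  exact ⟨hm.comp ha, C, fun o => hC _⟩

theorem BM.nonneg {X : Type} [MeasurableSpace X] {h : X → ℂ} (hh : BM h) [Nonempty X] :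
    ∃ C : ℝ, 0 ≤ C ∧ ∀ o, ‖h o‖ ≤ C := by
  obtain ⟨hm, C, hC⟩ := hh
  exact ⟨C, (norm_nonneg _).trans (hC (Classical.arbitrary X)), hC⟩

theorem sq_tri (x y z : ℂ) : ‖x - y‖ ^ 2 ≤ 2 * ‖x - z‖ ^ 2 + 2 * ‖z - y‖ ^ 2 := by
  have h1 : ‖x - y‖ ≤ ‖x - z‖ + ‖z - y‖ := by
    have := norm_add_le (x - z) (z - y)
    rwa [sub_add_sub_cancel] at this
  have h2 : ‖x - y‖ ^ 2 ≤ (‖x - z‖ + ‖z - y‖) ^ 2 := pow_le_pow_left₀ (norm_nonneg _) h1 2
  linarith only [h2, sq_nonneg (‖x - z‖ - ‖z - y‖)]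

theorem tri {a b c : Ω → ℂ} (ha : BM a) (hb : BM b) (hc : BM c) :
    ∫ o, ‖a o - b o‖ ^ 2 ∂μ ≤ 2 * ∫ o, ‖a o - c o‖ ^ 2 ∂μ + 2 * ∫ o, ‖c o - b o‖ ^ 2 ∂μ := by
  rw [← integral_const_mul, ← integral_const_mul, ← integral_add
    ((ha.sub hc).int.const_mul 2) ((hc.sub hb).int.const_mul 2)]
  exact integral_mono (ha.sub hb).int
    (((ha.sub hc).int.const_mul 2).add ((hc.sub hb).int.const_mul 2)) fun o => sq_tri _ _ _

end BM

/-- the trigonometric polynomial with coefficients `f` -/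
def Ph {Ω : Type} (p u : Ω → ℂ) (J : Finset ℤ) (f : ℤ → ℂ → ℂ) (o : Ω) : ℂ :=
  ∑ j ∈ J, f j (p o) * u o ^ j

theorem bm_Ph {Ω : Type} [MeasurableSpace Ω] {p u : Ω → ℂ} (hp : Measurable p) (hu : Measurable u)
    (hu1 : ∀ o, ‖u o‖ = 1) {U : Set ℂ} (J : Finset ℤ) {f : ℤ → ℂ → ℂ} (hf : ∀ j, Test U (f j)) :
    BM (Ph p u J f) := by
  have hb : ∀ j, ∃ C : ℝ, ∀ z, ‖f j z‖ ≤ C := fun j =>
    (hf j).smooth.continuous.bounded_above_of_compact_support (hf j).supp
  choose C hC using hb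
  refine ⟨Finset.measurable_fun_sum J fun j _ =>
    (((hf j).smooth.continuous.measurable).comp hp).mul (hu.pow_const j),
    ∑ j ∈ J, C j, fun o => ?_⟩
  refine (norm_sum_le _ _).trans (Finset.sum_le_sum fun j _ => ?_)
  rw [norm_mul, norm_zpow, hu1 o, one_zpow, mul_one]
  exact hC j _

/-- the approximation of a function on the base space, together with its rotation -/
theorem dens_pull (hDens : StmtDens) {Ω : Type} [MeasurableSpace Ω] {μ : Measure Ω}
    [IsFiniteMeasure μ] {p u : Ω → ℂ} (hp : Measurable p) (hu : Measurable u)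
    (hu1 : ∀ o, ‖u o‖ = 1) {w : ℂ} (hw : ‖w‖ = 1) {O : Set ℂ} (hO : IsOpen O) {F : ℂ × ℂ → ℂ}
    (hF : BM F) (hF0 : ∀ x, x.1 ∉ O → F x = 0) {ε : ℝ} (hε : 0 < ε) :
    ∃ (J : Finset ℤ) (f : ℤ → ℂ → ℂ), (∀ j, Test O (f j)) ∧
      ∫ o, ‖F (p o, u o) - Ph p u J f o‖ ^ 2 ∂μ ≤ ε ∧
      ∫ o, ‖F (p o, w * u o) - Ph p (fun o => w * u o) J f o‖ ^ 2 ∂μ ≤ ε := by
  have ha : Measurable (fun o => (p o, u o)) := hp.prodMk hu
  have hu' : Measurable (fun o => w * u o) := hu.const_mul w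
  have hu1' : ∀ o, ‖w * u o‖ = 1 := fun o => by rw [norm_mul, hw, hu1, mul_one]
  have hb : Measurable (fun o => (p o, w * u o)) := hp.prodMk hu'
  obtain ⟨J, f, hf, hle⟩ := hDens O (μ.map (fun o => (p o, u o)) + μ.map (fun o => (p o, w * u o)))
    hO (by
      rw [Measure.add_apply, Measure.map_apply ha MeasurableSet.univ,
        Measure.map_apply hb MeasurableSet.univ]
      exact ENNReal.add_ne_top.mpr ⟨measure_ne_top _ _, measure_ne_top _ _⟩) (by
      have hs : MeasurableSet {x : ℂ × ℂ | ‖x.2‖ ≠ 1} :=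
        (measurableSet_eq_fun measurable_snd.norm measurable_const).compl
      rw [Measure.add_apply, Measure.map_apply ha hs, Measure.map_apply hb hs]
      have e1 : (fun o => (p o, u o)) ⁻¹' {x : ℂ × ℂ | ‖x.2‖ ≠ 1} = ∅ := by
        ext o
        simp [hu1 o]
      have e2 : (fun o => (p o, w * u o)) ⁻¹' {x : ℂ × ℂ | ‖x.2‖ ≠ 1} = ∅ := by
        ext o
        simp [hu1 o, hw]
      rw [e1, e2, measure_empty, add_zero]) F hF.1 hF.2 hF0 ε hε
  refine ⟨J, f, hf, ?_⟩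
  have hm : Measurable (fun x : ℂ × ℂ => ‖F x - ∑ j ∈ J, f j x.1 * x.2 ^ j‖ ^ 2) :=
    (hF.1.sub (Finset.measurable_fun_sum J fun j _ =>
      (((hf j).smooth.continuous.measurable).comp measurable_fst).mul
        (measurable_snd.pow_const j))).norm.pow_const 2
  have i1 : Integrable (fun o => ‖F (p o, u o) - Ph p u J f o‖ ^ 2) μ :=
    ((hF.comp ha).sub (bm_Ph hp hu hu1 J hf)).int
  have i2 : Integrable (fun o => ‖F (p o, w * u o) - Ph p (fun o => w * u o) J f o‖ ^ 2) μ :=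
    ((hF.comp hb).sub (bm_Ph hp hu' hu1' J hf)).int
  rw [integral_add_measure ((integrable_map_measure hm.aestronglyMeasurable ha.aemeasurable).mpr i1)
    ((integrable_map_measure hm.aestronglyMeasurable hb.aemeasurable).mpr i2),
    integral_map ha.aemeasurable hm.aestronglyMeasurable,
    integral_map hb.aemeasurable hm.aestronglyMeasurable] at hle
  have n1 : 0 ≤ ∫ o, ‖F (p o, u o) - Ph p u J f o‖ ^ 2 ∂μ :=
    integral_nonneg fun o => by positivity
  have n2 : 0 ≤ ∫ o, ‖F (p o, w * u o) - Ph p (fun o => w * u o) J f o‖ ^ 2 ∂μ :=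
    integral_nonneg fun o => by positivity
  unfold Ph at *
  constructor
  · linarith
  · linarith

theorem test_add {U : Set ℂ} {ζ ξ : ℂ → ℂ} (hζ : Test U ζ) (hξ : Test U ξ) :
    Test U (fun z => ζ z + ξ z) := by
  have hs : Function.support (fun z => ζ z + ξ z) ⊆ tsupport ζ ∪ tsupport ξ := by
    intro z hz
    by_contra hcon
    rw [Set.mem_union, not_or] at hcon
    apply hz
    show ζ z + ξ z = 0
    rw [image_eq_zero_of_notMem_tsupport hcon.1, image_eq_zero_of_notMem_tsupport hcon.2, add_zero]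
  have hts : tsupport (fun z => ζ z + ξ z) ⊆ tsupport ζ ∪ tsupport ξ :=
    closure_minimal hs ((isClosed_tsupport _).union (isClosed_tsupport _))
  have hK : IsCompact (tsupport ζ ∪ tsupport ξ) :=
    IsCompact.union hζ.supp hξ.supp
  exact ⟨hζ.smooth.add hξ.smooth, hK.of_isClosed_subset (isClosed_tsupport _) hts,
    hts.trans (Set.union_subset hζ.sub hξ.sub)⟩

/-- the difference of two families -/
theorem diff_fam {U V : Set ℂ} (hUV : U ⊆ V) {t : ℤ → (ℂ → ℂ) → ℂ}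
    (hadd : ∀ j ζ ζ', Test V ζ → Test V ζ' → t j (fun z => ζ z + ζ' z) = t j ζ + t j ζ')
    (hmul : ∀ j (c : ℂ) ζ, Test V ζ → t j (fun z => c * ζ z) = c * t j ζ)
    (J J' : Finset ℤ) {f f' : ℤ → ℂ → ℂ} (hf : ∀ j, Test U (f j)) (hf' : ∀ j, Test U (f' j)) :
    ∃ (I : Finset ℤ) (d : ℤ → ℂ → ℂ), (∀ j, Test U (d j)) ∧
      ∑ j ∈ I, t j (d j) = ∑ j ∈ J, t j (f j) - ∑ j ∈ J', t j (f' j) ∧
      ∀ (Ω : Type) (p u : Ω → ℂ) (o : Ω), Ph p u I d o = Ph p u J f o - Ph p u J' f' o := by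
  classical
  have hc : ∀ (c : ℂ) {ζ : ℂ → ℂ}, Test U ζ → Test U (fun z => c * ζ z) := by
    intro c ζ hζ
    refine ⟨contDiff_const.mul hζ.smooth, hζ.supp.mul_left, (closure_mono ?_).trans hζ.sub⟩
    intro z hz
    simp only [Function.mem_support] at hz ⊢
    intro h0
    exact hz (by simp [h0])
  refine ⟨J ∪ J', fun j z => (if j ∈ J then 1 else 0) * f j z + (if j ∈ J' then -1 else 0) * f' j z,
    fun j => test_add (hc _ (hf j)) (hc _ (hf' j)), ?_, ?_⟩
  · have e : ∀ j, t j (fun z => (if j ∈ J then (1 : ℂ) else 0) * f j z +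
        (if j ∈ J' then (-1 : ℂ) else 0) * f' j z) =
        (if j ∈ J then t j (f j) else 0) - (if j ∈ J' then t j (f' j) else 0) := by
      intro j
      rw [hadd j _ _ ((hc _ (hf j)).mono hUV) ((hc _ (hf' j)).mono hUV),
        hmul j _ _ ((hf j).mono hUV), hmul j _ _ ((hf' j).mono hUV)]
      split_ifs <;> ring
    rw [Finset.sum_congr rfl fun j _ => e j, Finset.sum_sub_distrib, Finset.sum_ite_mem,
      Finset.sum_ite_mem, Finset.union_inter_cancel_left, Finset.union_inter_cancel_right]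
  · intro Ω p u o
    unfold Ph
    have e : ∀ j, ((if j ∈ J then (1 : ℂ) else 0) * f j (p o) +
        (if j ∈ J' then (-1 : ℂ) else 0) * f' j (p o)) * u o ^ j =
        (if j ∈ J then f j (p o) * u o ^ j else 0) -
          (if j ∈ J' then f' j (p o) * u o ^ j else 0) := by
      intro j
      split_ifs <;> ring
    rw [Finset.sum_congr rfl fun j _ => e j, Finset.sum_sub_distrib, Finset.sum_ite_mem,
      Finset.sum_ite_mem, Finset.union_inter_cancel_left, Finset.union_inter_cancel_right]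

/-- removal of the cutoff function -/
theorem bound_of {Ω : Type} [MeasurableSpace Ω] {μ : Measure Ω} [IsFiniteMeasure μ] {p u : Ω → ℂ}
    (hp : Measurable p) (hu : Measurable u) (hu1 : ∀ o, ‖u o‖ = 1) {t : ℤ → (ℂ → ℂ) → ℂ}
    {O : Set ℂ} (hO : IsOpen O) {C : ℝ} (hC : 0 ≤ C)
    (hb : ∀ ζ : ℂ → ℝ, Test O (fun z => (ζ z : ℂ)) → (∀ z, 0 ≤ ζ z ∧ ζ z ≤ 1) →
      ∀ (J : Finset ℤ) (f : ℤ → ℂ → ℂ), (∀ j, ContDiff ℝ ∞ (f j)) →
      ‖∑ j ∈ J, t j (fun z => (ζ z : ℂ) * f j z)‖ ^ 2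
        ≤ C * ∫ o, ζ (p o) * ‖∑ j ∈ J, f j (p o) * u o ^ j‖ ^ 2 ∂μ)
    (J : Finset ℤ) {f : ℤ → ℂ → ℂ} (hf : ∀ j, Test O (f j)) :
    ‖∑ j ∈ J, t j (f j)‖ ^ 2 ≤ C * ∫ o, ‖Ph p u J f o‖ ^ 2 ∂μ := by
  obtain ⟨ζ, hζ, hζ1, hζ2, hζc, -, -⟩ := GRO.exists_cutoff_real hO
    (J.isCompact_biUnion fun j _ => ((hf j).supp : IsCompact (tsupport (f j))))
    (iUnion₂_subset fun j _ => (hf j).sub)
  have h1 := hb ζ hζ hζ2 J f fun j => (hf j).smooth
  have h2 : ∑ j ∈ J, t j (fun z => (ζ z : ℂ) * f j z) = ∑ j ∈ J, t j (f j) := by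
    refine Finset.sum_congr rfl fun j hj => ?_
    congr 1
    funext z
    by_cases hz : z ∈ tsupport (f j)
    · rw [hζ1 z (mem_iUnion₂.mpr ⟨j, hj, hz⟩)]
      simp
    · rw [image_eq_zero_of_notMem_tsupport hz, mul_zero]
  rw [h2] at h1
  refine h1.trans (mul_le_mul_of_nonneg_left ?_ hC)
  have hP := bm_Ph hp hu hu1 J hf
  obtain ⟨hPm, M, hM⟩ := id hP
  refine integral_mono (Integrable.of_bound
    ((hζc.measurable.comp hp).mul (hPm.norm.pow_const 2)).aestronglyMeasurable (M ^ 2)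
    (Filter.Eventually.of_forall fun o => ?_)) hP.int fun o => ?_
  · have h3 := hζ2 (p o)
    change ‖ζ (p o) * ‖Ph p u J f o‖ ^ 2‖ ≤ M ^ 2
    have h4 : ‖Ph p u J f o‖ ^ 2 ≤ M ^ 2 := pow_le_pow_left₀ (norm_nonneg _) (hM o) 2
    have h5 : 0 ≤ ‖Ph p u J f o‖ ^ 2 := by positivity
    rw [Real.norm_of_nonneg (mul_nonneg h3.1 h5)]
    nlinarith only [h4, h3]
  · change ζ (p o) * ‖Ph p u J f o‖ ^ 2 ≤ ‖Ph p u J f o‖ ^ 2
    have h5 : 0 ≤ ‖Ph p u J f o‖ ^ 2 := by positivity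
    nlinarith only [(hζ2 (p o)).2]

/-- the functional is small on families which approximate a function that vanishes on `B` -/
theorem key (hDens : StmtDens) {Ω : Type} [MeasurableSpace Ω] {μ : Measure Ω}
    [IsFiniteMeasure μ] {p u : Ω → ℂ} (hp : Measurable p) (hu : Measurable u)
    (hu1 : ∀ o, ‖u o‖ = 1) {U V : Set ℂ} (hU : IsOpen U) (hUV : U ⊆ V) {t : ℤ → (ℂ → ℂ) → ℂ}
    (hadd : ∀ j ζ ζ', Test V ζ → Test V ζ' → t j (fun z => ζ z + ζ' z) = t j ζ + t j ζ')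
    (hmul : ∀ j (c : ℂ) ζ, Test V ζ → t j (fun z => c * ζ z) = c * t j ζ)
    {G : ℕ → Set ℂ} {B : Set (ℂ × ℂ)} {C : ℝ} (hC : 0 ≤ C)
    (hb : ∀ (J : Finset ℤ) (f : ℤ → ℂ → ℂ), (∀ j, Test U (f j)) →
      ‖∑ j ∈ J, t j (f j)‖ ^ 2 ≤ C * ∫ o, ‖Ph p u J f o‖ ^ 2 ∂μ)
    (hs : ∀ δ > 0, ∃ N, ∀ (J : Finset ℤ) (f : ℤ → ℂ → ℂ), (∀ j, Test (U ∩ (G N)ᶜ) (f j)) →
      ‖∑ j ∈ J, t j (f j)‖ ^ 2 ≤ δ * ∫ o, ‖Ph p u J f o‖ ^ 2 ∂μ)
    (hG : ∀ N, IsClosed (G N)) (hGB : ∀ N, μ {o | p o ∈ G N ∧ (p o, u o) ∉ B} = 0)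
    {F : ℂ × ℂ → ℂ} (hF : BM F) (hF0 : ∀ x, x.1 ∉ U → F x = 0)
    (hFB : μ {o | F (p o, u o) ≠ 0 ∧ (p o, u o) ∈ B} = 0) {ε : ℝ} (hε : 0 < ε) :
    ∃ η > 0, ∀ (J : Finset ℤ) (f : ℤ → ℂ → ℂ), (∀ j, Test U (f j)) →
      ∫ o, ‖F (p o, u o) - Ph p u J f o‖ ^ 2 ∂μ ≤ η → ‖∑ j ∈ J, t j (f j)‖ ^ 2 ≤ ε := by
  set I : ℝ := ∫ o, ‖F (p o, u o)‖ ^ 2 ∂μ with hI
  have hI0 : 0 ≤ I := integral_nonneg fun o => by positivity
  obtain ⟨N, hN⟩ := hs (ε / (8 * (I + 1))) (by (clear * - hε; positivity))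
  have hη : 0 < min 1 (ε / (16 * (C + 1))) := lt_min one_pos (by positivity)
  refine ⟨min 1 (ε / (16 * (C + 1))), hη, fun J f hf hle => ?_⟩
  set η := min 1 (ε / (16 * (C + 1))) with hηd
  have hη1 : η ≤ 1 := min_le_left _ _
  have hη2 : 16 * (C + 1) * η ≤ ε := by
    have h1 : η ≤ ε / (16 * (C + 1)) := min_le_right _ _
    rw [le_div_iff₀ (by positivity)] at h1
    linarith
  -- the function off `G N`
  have hO : IsOpen (U ∩ (G N)ᶜ) := hU.inter (hG N).isOpen_compl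
  classical
  have hF' : BM (fun x : ℂ × ℂ => if x.1 ∈ G N then 0 else F x) := by
    obtain ⟨hm, M, hM⟩ := hF
    refine ⟨Measurable.ite (measurable_fst (hG N).measurableSet) measurable_const hm, M,
      fun x => ?_⟩
    show ‖if x.1 ∈ G N then 0 else F x‖ ≤ M
    split_ifs
    · rw [norm_zero]
      exact (norm_nonneg _).trans (hM x)
    · exact hM x
  obtain ⟨J', f', hf', hle', -⟩ := dens_pull hDens (μ := μ) hp hu hu1 (w := 1) (norm_one) hO hF'
    (fun x hx => by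
      show (if x.1 ∈ G N then 0 else F x) = 0
      split_ifs with hG'
      · rfl
      · exact hF0 x fun hxU => hx ⟨hxU, hG'⟩) hη
  have hae : ∀ᵐ o ∂μ, (if p o ∈ G N then 0 else F (p o, u o)) = F (p o, u o) := by
    rw [ae_iff]
    refine measure_mono_null ?_ (measure_union_null (hGB N) hFB)
    intro o ho
    rw [mem_ofPred_eq] at ho
    by_cases h1 : p o ∈ G N
    · rw [if_pos h1] at ho
      by_cases h2 : (p o, u o) ∈ B
      · exact Or.inr ⟨fun h3 => ho h3.symm, h2⟩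
      · exact Or.inl ⟨h1, h2⟩
    · rw [if_neg h1] at ho
      exact absurd rfl ho
  have hle2 : ∫ o, ‖F (p o, u o) - Ph p u J' f' o‖ ^ 2 ∂μ ≤ η := by
    refine le_trans (le_of_eq (integral_congr_ae ?_)) hle'
    filter_upwards [hae] with o ho
    show ‖F (p o, u o) - Ph p u J' f' o‖ ^ 2 =
      ‖(if p o ∈ G N then 0 else F (p o, u o)) - Ph p u J' f' o‖ ^ 2
    rw [ho]
  have hf'U : ∀ j, Test U (f' j) := fun j => (hf' j).mono inter_subset_left
  have ha : Measurable (fun o => (p o, u o)) := hp.prodMk hu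
  have bF : BM (fun o => F (p o, u o)) := hF.comp ha
  have b1 := bm_Ph hp hu hu1 J hf
  have b2 := bm_Ph hp hu hu1 J' hf'U
  obtain ⟨I', d, hd, hd1, hd2⟩ := diff_fam hUV hadd hmul J J' hf hf'U
  have h1 := hb I' d hd
  have h2 : ∫ o, ‖Ph p u I' d o‖ ^ 2 ∂μ ≤ 4 * η := by
    have e : (fun o => ‖Ph p u I' d o‖ ^ 2) = fun o => ‖Ph p u J f o - Ph p u J' f' o‖ ^ 2 := by
      funext o
      rw [hd2]
    rw [e]
    have h3 := tri (μ := μ) b1 b2 bF
    have e2 : ∫ o, ‖Ph p u J f o - F (p o, u o)‖ ^ 2 ∂μ =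
        ∫ o, ‖F (p o, u o) - Ph p u J f o‖ ^ 2 ∂μ :=
      integral_congr_ae (Filter.Eventually.of_forall fun o => by simp only [norm_sub_rev])
    rw [e2] at h3
    linarith
  have h3 := hN J' f' hf'
  have h4 : ∫ o, ‖Ph p u J' f' o‖ ^ 2 ∂μ ≤ 2 * I + 2 * η := by
    have z0 : BM (fun _ : Ω => (0 : ℂ)) := ⟨measurable_const, 0, fun o => by simp⟩
    have h5 := tri (μ := μ) z0 b2 bF
    simp only [zero_sub, norm_neg] at h5
    linarith only [hle2, h5]
  rw [hd1] at h1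
  have h5 : ‖∑ j ∈ J, t j (f j)‖ ^ 2 ≤
      2 * ‖∑ j ∈ J, t j (f j) - ∑ j ∈ J', t j (f' j)‖ ^ 2 + 2 * ‖∑ j ∈ J', t j (f' j)‖ ^ 2 := by
    have := sq_tri (∑ j ∈ J, t j (f j)) 0 (∑ j ∈ J', t j (f' j))
    simpa using this
  have h6 : C * ∫ o, ‖Ph p u I' d o‖ ^ 2 ∂μ ≤ C * (4 * η) := mul_le_mul_of_nonneg_left h2 hC
  have h7 : ε / (8 * (I + 1)) * ∫ o, ‖Ph p u J' f' o‖ ^ 2 ∂μ ≤
      ε / (8 * (I + 1)) * (2 * (I + 1)) := by
    refine mul_le_mul_of_nonneg_left ?_ (by (clear * - hε; positivity))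
    linarith
  have h8 : ε / (8 * (I + 1)) * (2 * (I + 1)) = ε / 4 := by
    field_simp
    ring
  rw [h8] at h7
  nlinarith

theorem w3_norm : ‖w3‖ = 1 := by
  unfold w3
  rw [show (2 * Real.pi * Complex.I / 3 : ℂ) = ((2 * Real.pi / 3 : ℝ) : ℂ) * Complex.I by
    push_cast; ring]
  exact Complex.norm_exp_ofReal_mul_I _

theorem w3_cube : w3 ^ 3 = 1 := by
  unfold w3
  rw [← Complex.exp_nat_mul]
  rw [show ((3 : ℕ) : ℂ) * (2 * Real.pi * Complex.I / 3) = 2 * Real.pi * Complex.I by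
    push_cast; ring]
  exact Complex.exp_two_pi_mul_I

theorem w3_zpow {j : ℤ} (hj : (3 : ℤ) ∣ j) : w3 ^ j = 1 := by
  obtain ⟨k, rfl⟩ := hj
  rw [zpow_mul]
  have : w3 ^ (3 : ℤ) = 1 := by
    have := w3_cube
    exact_mod_cast this
  rw [this, one_zpow]

end ENDL

open _root_.U3.ENDL in
/-- **(ENDL)** -/
theorem stmtEnd (hDens : StmtDens) : StmtEnd := by
  intro V Ω _ μ p u t G B hV hμ hp hu hu1 hadd hmul h3 hbd hsm hG hB hGB hrot j₀ ζ₀ hζ₀
  have : IsFiniteMeasure μ := ⟨lt_top_iff_ne_top.mpr hμ⟩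
  obtain ⟨K, hK, hK1, hK2⟩ := exists_compact_between (hζ₀.supp : IsCompact (tsupport ζ₀)) hV
    hζ₀.sub
  set U : Set ℂ := interior K with hUd
  have hU : IsOpen U := isOpen_interior
  have hUK : U ⊆ K := interior_subset
  have hUV : U ⊆ V := hUK.trans hK2
  have hζU : Test U ζ₀ := ⟨hζ₀.smooth, hζ₀.supp, hK1⟩
  -- the two bounds
  obtain ⟨C₀, hC₀⟩ := hbd K hK hK2
  have hb : ∀ (J : Finset ℤ) (f : ℤ → ℂ → ℂ), (∀ j, Test U (f j)) →
      ‖∑ j ∈ J, t j (f j)‖ ^ 2 ≤ max C₀ 0 * ∫ o, ‖Ph p u J f o‖ ^ 2 ∂μ := by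
    intro J f hf
    refine bound_of hp hu hu1 hU (le_max_right _ _) ?_ J hf
    intro ζ hζ hζ1 J f hf
    refine (hC₀ ζ (hζ.mono hUV) hζ1 ?_ J f hf).trans
      (mul_le_mul_of_nonneg_right (le_max_left _ _) (integral_nonneg fun o =>
        mul_nonneg (hζ1 _).1 (by positivity)))
    intro z hz
    have e : tsupport (fun z => (ζ z : ℂ)) = tsupport ζ := by
      unfold tsupport
      congr 1
      ext z
      simp
    exact hUK (hζ.sub (by rw [e]; exact hz))
  have hs : ∀ δ > 0, ∃ N, ∀ (J : Finset ℤ) (f : ℤ → ℂ → ℂ), (∀ j, Test (U ∩ (G N)ᶜ) (f j)) →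
      ‖∑ j ∈ J, t j (f j)‖ ^ 2 ≤ δ * ∫ o, ‖Ph p u J f o‖ ^ 2 ∂μ := by
    intro δ hδ
    obtain ⟨N, hN⟩ := hsm K hK hK2 δ hδ
    refine ⟨N, fun J f hf => bound_of hp hu hu1 (hU.inter (hG N).isOpen_compl) hδ.le ?_ J hf⟩
    intro ζ hζ hζ1 J f hf
    have e : tsupport (fun z => (ζ z : ℂ)) = tsupport ζ := by
      unfold tsupport
      congr 1
      ext z
      simp
    have hsub := hζ.sub
    rw [e] at hsub
    refine hN ζ (hζ.mono (inter_subset_left.trans hUV)) hζ1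
      (hsub.trans (inter_subset_left.trans hUK)) ?_ J f hf
    rw [disjoint_left]
    exact fun z hz => (hsub hz).2
  have hC : 0 ≤ max C₀ 0 := le_max_right _ _
  -- the functions
  classical
  obtain ⟨M, hM⟩ := hζ₀.smooth.continuous.bounded_above_of_compact_support hζ₀.supp
  set F₀ : ℂ × ℂ → ℂ := fun x => if ‖x.2‖ = 1 then ζ₀ x.1 * x.2 ^ j₀ else 0 with hF₀
  have bF₀ : BM F₀ := by
    refine ⟨Measurable.ite (measurableSet_eq_fun measurable_snd.norm measurable_const)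
      ((hζ₀.smooth.continuous.measurable.comp measurable_fst).mul (measurable_snd.pow_const j₀))
      measurable_const, M, fun x => ?_⟩
    show ‖if ‖x.2‖ = 1 then ζ₀ x.1 * x.2 ^ j₀ else 0‖ ≤ M
    split_ifs with hx
    · rw [norm_mul, norm_zpow, hx, one_zpow, mul_one]
      exact hM _
    · rw [norm_zero]
      exact (norm_nonneg _).trans (hM 0)
  have zF₀ : ∀ x, x.1 ∉ U → F₀ x = 0 := by
    intro x hx
    show (if ‖x.2‖ = 1 then ζ₀ x.1 * x.2 ^ j₀ else 0) = 0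
    split_ifs
    · rw [image_eq_zero_of_notMem_tsupport fun h => hx (hK1 h), zero_mul]
    · rfl
  set F₁ : ℂ × ℂ → ℂ := fun x => if x ∈ B then F₀ x else 0 with hF₁
  have bF₁ : BM F₁ := by
    obtain ⟨hm, M, hM⟩ := bF₀
    refine ⟨Measurable.ite hB hm measurable_const, M, fun x => ?_⟩
    show ‖if x ∈ B then F₀ x else 0‖ ≤ M
    split_ifs
    · exact hM x
    · rw [norm_zero]
      exact (norm_nonneg _).trans (hM x)
  have zF₁ : ∀ x, x.1 ∉ U → F₁ x = 0 := by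
    intro x hx
    show (if x ∈ B then F₀ x else 0) = 0
    split_ifs
    · exact zF₀ x hx
    · rfl
  have bF₂ : BM (fun x : ℂ × ℂ => F₁ (x.1, w3 * x.2)) :=
    bF₁.comp (measurable_fst.prodMk (measurable_snd.const_mul w3))
  by_contra hne
  have hpos : 0 < ‖t j₀ ζ₀‖ ^ 2 := by
    have := norm_pos_iff.mpr hne
    positivity
  set ε : ℝ := ‖t j₀ ζ₀‖ ^ 2 / 8 with hε
  have hε0 : 0 < ε := by positivity
  obtain ⟨η₁, hη₁, k₁⟩ := key hDens (μ := μ) hp hu hu1 hU hUV hadd hmul hC hb hs hG hGB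
    (bF₀.sub bF₁) (fun x hx => by simp only [zF₀ x hx, zF₁ x hx, sub_zero]) (by
      have : {o | F₀ (p o, u o) - F₁ (p o, u o) ≠ 0 ∧ (p o, u o) ∈ B} = ∅ := by
        ext o
        simp only [mem_ofPred_eq, mem_empty_iff_false, iff_false, not_and]
        intro h1 h2
        apply h1
        show F₀ (p o, u o) - (if (p o, u o) ∈ B then F₀ (p o, u o) else 0) = 0
        rw [if_pos h2, sub_self]
      rw [this, measure_empty]) hε0
  obtain ⟨η₂, hη₂, k₂⟩ := key hDens (μ := μ) hp hu hu1 hU hUV hadd hmul hC hb hs hG hGB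
    bF₂ (fun x hx => zF₁ _ hx) (by
      refine measure_mono_null ?_ hrot
      rintro o ⟨h1, h2⟩
      refine ⟨h2, ?_⟩
      by_contra h4
      apply h1
      show (if (p o, w3 * u o) ∈ B then F₀ (p o, w3 * u o) else 0) = 0
      rw [if_neg h4]) hε0
  obtain ⟨J, f, hf, l₁, l₂⟩ := dens_pull hDens (μ := μ) hp hu hu1 w3_norm hU bF₁ zF₁
    (lt_min hη₁ hη₂)
  -- the first difference
  obtain ⟨I, d, hd, hd1, hd2⟩ := diff_fam hUV hadd hmul {j₀} J (f := fun _ => ζ₀)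
    (fun _ => hζU) hf
  have a1 : ‖∑ j ∈ I, t j (d j)‖ ^ 2 ≤ ε := by
    refine k₁ I d hd (le_trans (le_of_eq ?_) (l₁.trans (min_le_left _ _)))
    refine integral_congr_ae (Filter.Eventually.of_forall fun o => ?_)
    have e1 : F₀ (p o, u o) = ζ₀ (p o) * u o ^ j₀ := by
      show (if ‖u o‖ = 1 then ζ₀ (p o) * u o ^ j₀ else 0) = _
      rw [if_pos (hu1 o)]
    have e2 : Ph p u {j₀} (fun _ => ζ₀) o = ζ₀ (p o) * u o ^ j₀ := by
      unfold Ph
      rw [Finset.sum_singleton]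
    simp only [hd2, e1, e2]
    rw [show ζ₀ (p o) * u o ^ j₀ - F₁ (p o, u o) - (ζ₀ (p o) * u o ^ j₀ - Ph p u J f o) =
      -(F₁ (p o, u o) - Ph p u J f o) by ring, norm_neg]
  -- the rotated family
  have hc : ∀ j, Test U (fun z => w3 ^ j * f j z) := by
    intro j
    refine ⟨contDiff_const.mul (hf j).smooth, (hf j).supp.mul_left,
      (closure_mono ?_).trans (hf j).sub⟩
    intro z hz
    simp only [Function.mem_support] at hz ⊢
    intro h0
    exact hz (by simp [h0])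
  have a2 : ‖∑ j ∈ J, t j (fun z => w3 ^ j * f j z)‖ ^ 2 ≤ ε := by
    refine k₂ J _ hc (le_trans (le_of_eq ?_) (l₂.trans (min_le_right _ _)))
    refine integral_congr_ae (Filter.Eventually.of_forall fun o => ?_)
    have e1 : Ph p u J (fun j z => w3 ^ j * f j z) o = Ph p (fun o => w3 * u o) J f o := by
      unfold Ph
      refine Finset.sum_congr rfl fun j _ => ?_
      rw [mul_zpow]
      ring
    simp only [e1]
  have e3 : ∑ j ∈ J, t j (fun z => w3 ^ j * f j z) = ∑ j ∈ J, t j (f j) := by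
    refine Finset.sum_congr rfl fun j _ => ?_
    rw [hmul j _ _ ((hf j).mono hUV)]
    by_cases hj : (3 : ℤ) ∣ j
    · rw [w3_zpow hj, one_mul]
    · rw [h3 j _ ((hf j).mono hUV) hj, mul_zero]
  rw [e3] at a2
  rw [hd1, Finset.sum_singleton] at a1
  have a3 := sq_tri (t j₀ ζ₀) 0 (∑ j ∈ J, t j (f j))
  simp only [sub_zero] at a3
  linarith only [hε, hε0, a1, a2, a3]

end

end U3


end
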