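import Mathlib
import Pool.Agent.BWM.C17
import Pool.Agent.BWM.C22
import Pool.Agent.BWM.C34

/-! Parts: QJ.VIR, QJ.PWF, U3.HCL, U3.DIR, U3.KSZ, U3.PEO, U3.XBD, U3.CUBI, QJ.REL, QJ.RAD, QJ.MAIN -/

section

/-!
VIR: the virial identity.
-/

open Complex MeasureTheory Filter Topology Set
open scoped ContDiff

namespace QJ

open QE

noncomputable section

namespace VIR

/-- directional derivative -/
def dv (v : ℂ) (u : ℂ → ℝ) (z : ℂ) : ℝ := fderiv ℝ u z v

lemma d1_eq (u : ℂ → ℝ) : d1 u = dv 1 u := rfl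

lemma d2_eq (u : ℂ → ℝ) : d2 u = dv Complex.I u := rfl

lemma contDiff_dv {u : ℂ → ℝ} (hu : ContDiff ℝ ∞ u) (v : ℂ) : ContDiff ℝ ∞ (dv v u) :=
  (hu.fderiv_right (m := ∞) (by simp)).clm_apply contDiff_const

lemma dat {u : ℂ → ℝ} (hu : ContDiff ℝ ∞ u) (z : ℂ) : DifferentiableAt ℝ u z :=
  (hu.differentiable (by simp)) z

lemma dv_mul {f g : ℂ → ℝ} (hf : ContDiff ℝ ∞ f) (hg : ContDiff ℝ ∞ g) (v z : ℂ) :
    dv v (fun w => f w * g w) z = dv v f z * g z + f z * dv v g z := by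
  unfold dv
  rw [fderiv_fun_mul (dat hf z) (dat hg z)]
  simp only [add_apply, smul_apply, smul_eq_mul]
  ring

lemma dv_add {f g : ℂ → ℝ} (hf : ContDiff ℝ ∞ f) (hg : ContDiff ℝ ∞ g) (v z : ℂ) :
    dv v (fun w => f w + g w) z = dv v f z + dv v g z := by
  unfold dv
  rw [fderiv_fun_add (dat hf z) (dat hg z)]
  rfl

lemma dv_sub {f g : ℂ → ℝ} (hf : ContDiff ℝ ∞ f) (hg : ContDiff ℝ ∞ g) (v z : ℂ) :
    dv v (fun w => f w - g w) z = dv v f z - dv v g z := by
  unfold dv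
  rw [fderiv_fun_sub (dat hf z) (dat hg z)]
  rfl

lemma dv_const_mul {f : ℂ → ℝ} (c : ℝ) (hf : ContDiff ℝ ∞ f) (v z : ℂ) :
    dv v (fun w => c * f w) z = c * dv v f z := by
  unfold dv
  rw [fderiv_const_mul (dat hf z)]
  rfl

lemma dv_comm {u : ℂ → ℝ} (hu : ContDiff ℝ ∞ u) (v w z : ℂ) :
    dv v (dv w u) z = dv w (dv v u) z := by
  have hu2 : ContDiffAt ℝ 2 u z := hu.contDiffAt.of_le (WithTop.coe_le_coe.2 le_top)
  have hd : ContDiffAt ℝ 1 (fderiv ℝ u) z := hu2.fderiv_right (m := 1) (by norm_num)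
  have hd' : DifferentiableAt ℝ (fderiv ℝ u) z := hd.differentiableAt (by norm_num)
  have hsym : ∀ v w : ℂ, fderiv ℝ (fderiv ℝ u) z v w = fderiv ℝ (fderiv ℝ u) z w v :=
    fun v w => (hu2.isSymmSndFDerivAt (by simp)).eq v w
  have key : ∀ v w : ℂ, fderiv ℝ (fun x => fderiv ℝ u x v) z w = fderiv ℝ (fderiv ℝ u) z w v := by
    intro v w
    rw [fderiv_clm_apply hd' (differentiableAt_const v)]
    simp
  have e1 : dv v (dv w u) z = fderiv ℝ (fderiv ℝ u) z v w := key w v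
  have e2 : dv w (dv v u) z = fderiv ℝ (fderiv ℝ u) z w v := key v w
  rw [e1, e2, hsym]

lemma int_dv {f : ℂ → ℝ} (hf : ContDiff ℝ ∞ f) (hc : HasCompactSupport f) (v : ℂ) :
    Integrable (fun z => dv v f z) ∧ ∫ z, dv v f z = 0 := by
  have h := integral_mul_fderiv_eq_neg_fderiv_mul_of_integrable (𝕜 := ℝ) (μ := (volume : Measure ℂ))
    (f := fun _ : ℂ => (1 : ℝ)) (g := f) (v := v)
  have hfi : Integrable (fun z => fderiv ℝ f z v) := by
    have hcont : Continuous (fun z => fderiv ℝ f z v) :=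
      (hf.continuous_fderiv (by simp)).clm_apply continuous_const
    exact hcont.integrable_of_hasCompactSupport (hc.fderiv_apply (𝕜 := ℝ) v)
  have hfi2 : Integrable f := hf.continuous.integrable_of_hasCompactSupport hc
  have h2 := h (by simp) (by simpa using hfi) (by simpa using hfi2) (fun x _ => by fun_prop)
    (fun x _ => hf.differentiable (by simp) x)
  refine ⟨hfi, ?_⟩
  have h3 : ∫ z, fderiv ℝ f z v = 0 := by simpa using h2
  exact h3

/-- the components of the vector field -/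
def VV (v : ℂ) (u g Z c X q : ℂ → ℝ) (h : ℝ) (z : ℂ) : ℝ :=
  h ^ 2 * (X z * dv v u z) - h ^ 2 / 2 * (Z z * q z) + 1 / 2 * (Z z * (g z * (u z * u z)))
    + h ^ 2 * (c z * (u z * dv v u z)) - h ^ 2 / 2 * ((u z * u z) * dv v c z)

lemma dv_VV {u g Z c X q : ℂ → ℝ} (hu : ContDiff ℝ ∞ u) (hg : ContDiff ℝ ∞ g)
    (hZ : ContDiff ℝ ∞ Z) (hc : ContDiff ℝ ∞ c) (hX : ContDiff ℝ ∞ X) (hq : ContDiff ℝ ∞ q)
    (h : ℝ) (v z : ℂ) :
    ContDiff ℝ ∞ (VV v u g Z c X q h) ∧ dv v (VV v u g Z c X q h) z =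
      h ^ 2 * (dv v X z * dv v u z + X z * dv v (dv v u) z)
      - h ^ 2 / 2 * (dv v Z z * q z + Z z * dv v q z)
      + 1 / 2 * (dv v Z z * (g z * (u z * u z)) + Z z * (dv v g z * (u z * u z)
        + g z * (dv v u z * u z + u z * dv v u z)))
      + h ^ 2 * (dv v c z * (u z * dv v u z) + c z * (dv v u z * dv v u z
        + u z * dv v (dv v u) z))
      - h ^ 2 / 2 * ((dv v u z * u z + u z * dv v u z) * dv v c z
        + (u z * u z) * dv v (dv v c) z) := by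
  have hu' := contDiff_dv hu v
  have hc' := contDiff_dv hc v
  have i1 : ContDiff ℝ ∞ (fun z => X z * dv v u z) := hX.mul hu'
  have i2 : ContDiff ℝ ∞ (fun z => Z z * q z) := hZ.mul hq
  have i3 : ContDiff ℝ ∞ (fun z => u z * u z) := hu.mul hu
  have i4 : ContDiff ℝ ∞ (fun z => g z * (u z * u z)) := hg.mul i3
  have i5 : ContDiff ℝ ∞ (fun z => Z z * (g z * (u z * u z))) := hZ.mul i4
  have i6 : ContDiff ℝ ∞ (fun z => u z * dv v u z) := hu.mul hu'
  have i7 : ContDiff ℝ ∞ (fun z => c z * (u z * dv v u z)) := hc.mul i6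
  have i8 : ContDiff ℝ ∞ (fun z => (u z * u z) * dv v c z) := i3.mul hc'
  have j1 : ContDiff ℝ ∞ (fun z => h ^ 2 * (X z * dv v u z)) := contDiff_const.mul i1
  have j2 : ContDiff ℝ ∞ (fun z => h ^ 2 / 2 * (Z z * q z)) := contDiff_const.mul i2
  have j3 : ContDiff ℝ ∞ (fun z => 1 / 2 * (Z z * (g z * (u z * u z)))) := contDiff_const.mul i5
  have j4 : ContDiff ℝ ∞ (fun z => h ^ 2 * (c z * (u z * dv v u z))) := contDiff_const.mul i7
  have j5 : ContDiff ℝ ∞ (fun z => h ^ 2 / 2 * ((u z * u z) * dv v c z)) := contDiff_const.mul i8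
  have k1 : ContDiff ℝ ∞ (fun z => h ^ 2 * (X z * dv v u z) - h ^ 2 / 2 * (Z z * q z)) :=
    j1.sub j2
  have k2 : ContDiff ℝ ∞ (fun z => h ^ 2 * (X z * dv v u z) - h ^ 2 / 2 * (Z z * q z)
    + 1 / 2 * (Z z * (g z * (u z * u z)))) := k1.add j3
  have k3 : ContDiff ℝ ∞ (fun z => h ^ 2 * (X z * dv v u z) - h ^ 2 / 2 * (Z z * q z)
    + 1 / 2 * (Z z * (g z * (u z * u z))) + h ^ 2 * (c z * (u z * dv v u z))) := k2.add j4
  have k4 : ContDiff ℝ ∞ (VV v u g Z c X q h) := k3.sub j5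
  refine ⟨k4, ?_⟩
  unfold VV
  rw [dv_sub k3 j5, dv_add k2 j4, dv_add k1 j3, dv_sub j1 j2, dv_const_mul _ i1,
    dv_const_mul _ i2, dv_const_mul _ i5, dv_const_mul _ i7, dv_const_mul _ i8,
    dv_mul hX hu', dv_mul hZ hq, dv_mul hZ i4, dv_mul hg i3, dv_mul hu hu, dv_mul hc i6,
    dv_mul hu hu', dv_mul i3 hc', dv_mul hu hu]

lemma supp_VV {u g Z c X q : ℂ → ℝ} {K : Set ℂ} (hK : IsCompact K)
    (hX : ∀ z, z ∉ K → X z = 0) (hZ : ∀ z, z ∉ K → Z z = 0) (hc : ∀ z, z ∉ K → c z = 0)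
    {v : ℂ} (hc' : ∀ z, z ∉ K → dv v c z = 0) (h : ℝ) :
    HasCompactSupport (VV v u g Z c X q h) := by
  refine HasCompactSupport.intro hK fun z hz => ?_
  unfold VV
  rw [hX z hz, hZ z hz, hc z hz, hc' z hz]
  ring

end VIR

open _root_.QJ.VIR in
theorem stmtVir : StmtVir := by
  intro u g Z₁ Z₂ c h hu hg hZ₁ hZ₂ hc sZ₁ sZ₂ sc heq
  simp only [lap, d1_eq, d2_eq] at heq ⊢
  have hu1 := contDiff_dv hu 1
  have hu2 := contDiff_dv hu Complex.I
  set X : ℂ → ℝ := fun z => Z₁ z * dv 1 u z + Z₂ z * dv Complex.I u z with hXd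
  set q : ℂ → ℝ := fun z => dv 1 u z * dv 1 u z + dv Complex.I u z * dv Complex.I u z with hqd
  have hX : ContDiff ℝ ∞ X := (hZ₁.mul hu1).add (hZ₂.mul hu2)
  have hq : ContDiff ℝ ∞ q := (hu1.mul hu1).add (hu2.mul hu2)
  set K : Set ℂ := tsupport Z₁ ∪ tsupport Z₂ ∪ tsupport c with hKd
  have hK : IsCompact K := (sZ₁.isCompact.union sZ₂.isCompact).union sc.isCompact
  have k1 : ∀ z, z ∉ K → Z₁ z = 0 := fun z hz =>
    image_eq_zero_of_notMem_tsupport fun h1 => hz (Or.inl (Or.inl h1))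
  have k2 : ∀ z, z ∉ K → Z₂ z = 0 := fun z hz =>
    image_eq_zero_of_notMem_tsupport fun h1 => hz (Or.inl (Or.inr h1))
  have k3 : ∀ z, z ∉ K → c z = 0 := fun z hz =>
    image_eq_zero_of_notMem_tsupport fun h1 => hz (Or.inr h1)
  have k4 : ∀ z, z ∉ K → X z = 0 := fun z hz => by
    rw [hXd]
    simp only
    rw [k1 z hz, k2 z hz]
    ring
  have k5 : ∀ v z, z ∉ K → dv v c z = 0 := fun v z hz => by
    have h1 : fderiv ℝ c z = 0 := by
      by_contra h2
      exact hz (Or.inr (tsupport_fderiv_subset ℝ (subset_closure h2)))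
    unfold dv
    rw [h1]
    rfl
  have s1 : HasCompactSupport (VV 1 u g Z₁ c X q h) := supp_VV hK k4 k1 k3 (k5 1) h
  have s2 : HasCompactSupport (VV Complex.I u g Z₂ c X q h) :=
    supp_VV hK k4 k2 k3 (k5 Complex.I) h
  have c1 := (dv_VV hu hg hZ₁ hc hX hq h 1 0).1
  have c2 := (dv_VV hu hg hZ₂ hc hX hq h Complex.I 0).1
  obtain ⟨i1, j1⟩ := int_dv c1 s1 1
  obtain ⟨i2, j2⟩ := int_dv c2 s2 Complex.I
  have key : ∀ z, h ^ 2 * (dv 1 Z₁ z * dv 1 u z ^ 2 + (dv 1 Z₂ z + dv Complex.I Z₁ z) *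
        (dv 1 u z * dv Complex.I u z) + dv Complex.I Z₂ z * dv Complex.I u z ^ 2)
      + (c z - (dv 1 Z₁ z + dv Complex.I Z₂ z) / 2) *
        (h ^ 2 * (dv 1 u z ^ 2 + dv Complex.I u z ^ 2))
      + ((dv 1 Z₁ z + dv Complex.I Z₂ z) / 2 - c z) * (g z * u z ^ 2)
      + (Z₁ z * dv 1 g z + Z₂ z * dv Complex.I g z) / 2 * u z ^ 2
      - h ^ 2 / 2 * (dv 1 (dv 1 c) z + dv Complex.I (dv Complex.I c) z) * u z ^ 2 =
      dv 1 (VV 1 u g Z₁ c X q h) z + dv Complex.I (VV Complex.I u g Z₂ c X q h) z := by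
    intro z
    have e0 : (X z + c z * u z) * (h ^ 2 * (dv 1 (dv 1 u) z +
        dv Complex.I (dv Complex.I u) z) + g z * u z) = 0 := by
      by_cases hz : Z₁ z ≠ 0 ∨ Z₂ z ≠ 0 ∨ c z ≠ 0
      · rw [heq z hz]
        ring
      · push Not at hz
        rw [hXd]
        simp only
        rw [hz.1, hz.2.1, hz.2.2]
        ring
    have e1 := dv_comm hu 1 Complex.I z
    have x1 : ∀ v, dv v X z = dv v Z₁ z * dv 1 u z + Z₁ z * dv v (dv 1 u) z +
        (dv v Z₂ z * dv Complex.I u z + Z₂ z * dv v (dv Complex.I u) z) := by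
      intro v
      rw [hXd, dv_add (hZ₁.mul hu1) (hZ₂.mul hu2), dv_mul hZ₁ hu1, dv_mul hZ₂ hu2]
    have x2 : ∀ v, dv v q z = dv v (dv 1 u) z * dv 1 u z + dv 1 u z * dv v (dv 1 u) z +
        (dv v (dv Complex.I u) z * dv Complex.I u z +
          dv Complex.I u z * dv v (dv Complex.I u) z) := by
      intro v
      rw [hqd, dv_add (hu1.mul hu1) (hu2.mul hu2), dv_mul hu1 hu1, dv_mul hu2 hu2]
    rw [(dv_VV hu hg hZ₁ hc hX hq h 1 z).2, (dv_VV hu hg hZ₂ hc hX hq h Complex.I z).2,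
      x1, x1, x2, x2, e1]
    have e2 : X z = Z₁ z * dv 1 u z + Z₂ z * dv Complex.I u z := rfl
    have e3 : q z = dv 1 u z * dv 1 u z + dv Complex.I u z * dv Complex.I u z := rfl
    rw [e2] at e0
    rw [e2, e3]
    linear_combination (-1 : ℝ) * e0
  simp only [key]
  rw [integral_add i1 i2, j1, j2, add_zero]

end

end QJ


end

section

/-!
PWF: fourth moments of the random plane wave.
-/

open MeasureTheory Filter Topology Set
open scoped ContDiff

namespace QJ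

open QE

noncomputable section

namespace PWF

/-- the wave `√2 cos (Re (x u) + s + m π/2)` -/
def gc (u : ℂ) (s : ℝ) (m : ℕ) (x : ℂ) : ℂ :=
  ((Real.sqrt 2 * Real.cos ((x * u).re + s + m * (Real.pi / 2)) : ℝ) : ℂ)

theorem gc_hasFDerivAt (u : ℂ) (s : ℝ) (m : ℕ) (x : ℂ) :
    ∃ L : ℂ →L[ℝ] ℂ, HasFDerivAt (gc u s m) L x ∧
      ∀ v, L v = gc u s (m + 1) x * (((v * u).re : ℝ) : ℂ) := by
  set A : ℂ →L[ℝ] ℝ := Complex.reCLM.comp ((ContinuousLinearMap.mul ℝ ℂ).flip u) with hA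
  have hAv : ∀ v, A v = (v * u).re := fun v => rfl
  have h1 : HasFDerivAt (fun x : ℂ => A x + s + m * (Real.pi / 2)) A x :=
    (A.hasFDerivAt.add_const s).add_const _
  have h2 : HasFDerivAt (fun x : ℂ => Real.sqrt 2 * Real.cos (A x + s + m * (Real.pi / 2)))
      (Real.sqrt 2 • (-Real.sin (A x + s + m * (Real.pi / 2)) • A)) x :=
    h1.cos.const_mul (Real.sqrt 2)
  have h3 := (Complex.ofRealCLM.hasFDerivAt
    (x := Real.sqrt 2 * Real.cos (A x + s + m * (Real.pi / 2)))).comp x h2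
  refine ⟨_, h3, fun v => ?_⟩
  have e1 : Real.cos (A x + s + (m + 1 : ℕ) * (Real.pi / 2))
      = -Real.sin (A x + s + m * (Real.pi / 2)) := by
    have : A x + s + (m + 1 : ℕ) * (Real.pi / 2) = (A x + s + m * (Real.pi / 2)) + Real.pi / 2 := by
      push_cast
      ring
    rw [this, Real.cos_add_pi_div_two]
  unfold gc
  rw [← hAv, ← hAv, e1]
  show ((Real.sqrt 2 * (-Real.sin (A x + s + m * (Real.pi / 2)) * A v) : ℝ) : ℂ) = _
  push_cast
  ring

theorem gc_diff (u : ℂ) (s : ℝ) (m : ℕ) (x : ℂ) : DifferentiableAt ℝ (gc u s m) x := by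
  obtain ⟨L, hL, -⟩ := gc_hasFDerivAt u s m x
  exact hL.differentiableAt

theorem gc_fderiv (u : ℂ) (s : ℝ) (m : ℕ) (x v : ℂ) :
    fderiv ℝ (gc u s m) x v = gc u s (m + 1) x * (((v * u).re : ℝ) : ℂ) := by
  obtain ⟨L, hL, h⟩ := gc_hasFDerivAt u s m x
  rw [hL.fderiv, h]

theorem gc_dz (u : ℂ) (s : ℝ) (m : ℕ) (x : ℂ) :
    dz (gc u s m) x = u / 2 * gc u s (m + 1) x := by
  unfold dz
  rw [gc_fderiv, gc_fderiv]
  have e1 : (((1 * u).re : ℝ) : ℂ) - Complex.I * ((((Complex.I * u).re : ℝ)) : ℂ) = u := by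
    apply Complex.ext <;> simp
  linear_combination (1 / 2) * gc u s (m + 1) x * e1

theorem gc_dzb (u : ℂ) (s : ℝ) (m : ℕ) (x : ℂ) :
    dzb (gc u s m) x = (starRingEnd ℂ) u / 2 * gc u s (m + 1) x := by
  unfold dzb
  rw [gc_fderiv, gc_fderiv]
  have e1 : (((1 * u).re : ℝ) : ℂ) + Complex.I * ((((Complex.I * u).re : ℝ)) : ℂ)
      = (starRingEnd ℂ) u := by
    apply Complex.ext <;> simp
  linear_combination (1 / 2) * gc u s (m + 1) x * e1

theorem gc_dz_iter (u : ℂ) (s : ℝ) (c : ℂ) (m a : ℕ) :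
    dz^[a] (fun x => c * gc u s m x) = fun x => c * (u / 2) ^ a * gc u s (m + a) x := by
  induction a with
  | zero => simp
  | succ a ih =>
    rw [Function.iterate_succ_apply', ih]
    funext x
    rw [dz_const_mul _ (gc_diff u s (m + a) x), gc_dz]
    rw [show m + (a + 1) = m + a + 1 by ring]
    ring

theorem gc_dzb_iter (u : ℂ) (s : ℝ) (m b : ℕ) :
    dzb^[b] (gc u s m) = fun x => ((starRingEnd ℂ) u / 2) ^ b * gc u s (m + b) x := by
  induction b with
  | zero => simp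
  | succ b ih =>
    rw [Function.iterate_succ_apply', ih]
    funext x
    rw [dzb_const_mul _ (gc_diff u s (m + b) x), gc_dzb]
    rw [show m + (b + 1) = m + b + 1 by ring]
    ring

theorem gc_zero (θ s : ℝ) (x : ℂ) : ((planeWave θ s x : ℝ) : ℂ) = gc (uu θ) s 0 x := by
  unfold planeWave gc uu
  simp [neg_mul]

theorem planeWave_smooth (θ s : ℝ) : ContDiff ℝ ∞ (planeWave θ s) := by
  unfold planeWave
  have h1 : ContDiff ℝ ∞ (fun x : ℂ => (x * Complex.exp (-(θ * Complex.I))).re) :=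
    Complex.reCLM.contDiff.comp (contDiff_id.mul contDiff_const)
  exact contDiff_const.mul ((h1.add contDiff_const).cos)

/-- the phase factor at the origin -/
def Cs (s : ℝ) (m : ℕ) : ℝ := Real.sqrt 2 * Real.cos (s + m * (Real.pi / 2))

/-- one iterated derivative of the plane wave -/
theorem one_jet (hIter : StmtIter) (θ s : ℝ) (k : ℕ) (v : Fin k → ℂ) :
    ((iteratedFDeriv ℝ k (planeWave θ s) 0 v : ℝ) : ℂ)
      = ∑ a ∈ Finset.range (k + 1), sc v a * (2 : ℂ)⁻¹ ^ k * uu θ ^ ((a : ℤ) - (k - a : ℕ))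
        * (Cs s k : ℂ) := by
  rw [hIter Set.univ (planeWave θ s) isOpen_univ (mem_univ _)
    (planeWave_smooth θ s).contDiffOn k v]
  refine Finset.sum_congr rfl fun a ha => ?_
  have hak : a ≤ k := Nat.lt_succ_iff.mp (Finset.mem_range.mp ha)
  have e0 : (fun w => ((planeWave θ s w : ℝ) : ℂ)) = gc (uu θ) s 0 := by
    funext x
    exact gc_zero θ s x
  rw [e0, gc_dzb_iter, gc_dz_iter]
  have hu : uu θ ≠ 0 := uu_ne θ
  have hc : (starRingEnd ℂ) (uu θ) = (uu θ)⁻¹ := by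
    rw [Complex.inv_def, Complex.normSq_eq_norm_sq, norm_uu]
    simp
  have e1 : 0 + (k - a) + a = k := by omega
  have e2 : gc (uu θ) s (0 + (k - a) + a) 0 = (Cs s k : ℂ) := by
    rw [e1]
    unfold gc Cs
    simp
  have e3 : (2 : ℂ)⁻¹ ^ k = (2 : ℂ)⁻¹ ^ (k - a) * (2 : ℂ)⁻¹ ^ a := by
    rw [← pow_add]
    congr 1
    omega
  have e4 : uu θ ^ ((a : ℤ) - (k - a : ℕ)) = uu θ ^ a * ((uu θ)⁻¹) ^ (k - a) := by
    rw [zpow_sub₀ hu, zpow_natCast, zpow_natCast, inv_pow, div_eq_mul_inv]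
  simp only []
  rw [e2, hc, e3, e4, div_eq_mul_inv, div_eq_mul_inv, mul_pow, mul_pow]
  ring

/-- the mean of a shifted cosine of positive frequency is zero -/
theorem mean_cos (n : ℕ) (hn : n ≠ 0) (c : ℝ) :
    ∫ s in (0 : ℝ)..(2 * Real.pi), Real.cos ((n : ℝ) * s + c) = 0 := by
  have h0 : (n : ℝ) ≠ 0 := by exact_mod_cast hn
  rw [intervalIntegral.integral_comp_mul_add (fun x => Real.cos x) h0 c, integral_cos]
  have e1 : (n : ℝ) * (2 * Real.pi) + c = c + (n : ℝ) * (2 * Real.pi) := by ring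
  rw [e1, Real.sin_add_nat_mul_two_pi]
  simp

/-- the product formula -/
theorem prod_formula (s α β γ δ : ℝ) :
    Real.cos (s + α) * Real.cos (s + β) * Real.cos (s + γ) * Real.cos (s + δ)
      = (Real.cos (α + β - γ - δ) + Real.cos (α - β + γ - δ) + Real.cos (α - β - γ + δ)) / 8
        + (1 / 8) * Real.cos (((4 : ℕ) : ℝ) * s + (α + β + γ + δ))
        + (1 / 8) * Real.cos (((2 : ℕ) : ℝ) * s + (α + β + γ - δ))
        + (1 / 8) * Real.cos (((2 : ℕ) : ℝ) * s + (α + β - γ + δ))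
        + (1 / 8) * Real.cos (((2 : ℕ) : ℝ) * s + (α - β + γ + δ))
        + (1 / 8) * Real.cos (((2 : ℕ) : ℝ) * s + (-α + β + γ + δ)) := by
  set A := s + α with hA
  set B := s + β with hB
  set C := s + γ with hC
  set E' := s + δ with hE
  have e1 : α + β - γ - δ = A + B - C - E' := by rw [hA, hB, hC, hE]; ring
  have e2 : α - β + γ - δ = A - B + C - E' := by rw [hA, hB, hC, hE]; ring
  have e3 : α - β - γ + δ = A - B - C + E' := by rw [hA, hB, hC, hE]; ring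
  have e4 : ((4 : ℕ) : ℝ) * s + (α + β + γ + δ) = A + B + C + E' := by
    rw [hA, hB, hC, hE]; push_cast; ring
  have e5 : ((2 : ℕ) : ℝ) * s + (α + β + γ - δ) = A + B + C - E' := by
    rw [hA, hB, hC, hE]; push_cast; ring
  have e6 : ((2 : ℕ) : ℝ) * s + (α + β - γ + δ) = A + B - C + E' := by
    rw [hA, hB, hC, hE]; push_cast; ring
  have e7 : ((2 : ℕ) : ℝ) * s + (α - β + γ + δ) = A - B + C + E' := by
    rw [hA, hB, hC, hE]; push_cast; ring
  have e8 : ((2 : ℕ) : ℝ) * s + (-α + β + γ + δ) = -(A - B - C - E') := by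
    rw [hA, hB, hC, hE]; push_cast; ring
  rw [e1, e2, e3, e4, e5, e6, e7, e8, Real.cos_neg]
  clear_value A B C E'
  simp only [Real.cos_add, Real.cos_sub, Real.sin_add, Real.sin_sub]
  ring

/-- the mean of a product of four shifted cosines -/
theorem mean_four (α β γ δ : ℝ) :
    ∫ s, Real.cos (s + α) * Real.cos (s + β) * Real.cos (s + γ) * Real.cos (s + δ) ∂angle
      = (Real.cos (α + β - γ - δ) + Real.cos (α - β + γ - δ) + Real.cos (α - β - γ + δ)) / 8 := by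
  have h := ang_int (fun s => Real.cos (s + α) * Real.cos (s + β) * Real.cos (s + γ)
    * Real.cos (s + δ))
  rw [show (∫ s, Real.cos (s + α) * Real.cos (s + β) * Real.cos (s + γ) * Real.cos (s + δ) ∂angle)
    = ∫ s, Real.cos (s + α) * Real.cos (s + β) * Real.cos (s + γ) * Real.cos (s + δ) ∂ang from rfl,
    h]
  simp only [prod_formula _ α β γ δ]
  have hi : ∀ (n : ℕ) (c : ℝ), IntervalIntegrable
      (fun s : ℝ => (1 / 8) * Real.cos ((n : ℝ) * s + c)) volume 0 (2 * Real.pi) := by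
    intro n c
    refine Continuous.intervalIntegrable ?_ _ _
    fun_prop
  have hz : ∀ (n : ℕ) (c : ℝ), n ≠ 0 →
      ∫ s in (0 : ℝ)..(2 * Real.pi), (1 / 8) * Real.cos ((n : ℝ) * s + c) = 0 := by
    intro n c hn
    rw [intervalIntegral.integral_const_mul, mean_cos n hn c, mul_zero]
  set T := (Real.cos (α + β - γ - δ) + Real.cos (α - β + γ - δ) + Real.cos (α - β - γ + δ)) / 8
    with hT
  have i0 : IntervalIntegrable (fun _ : ℝ => T) volume 0 (2 * Real.pi) :=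
    intervalIntegrable_const
  have i1 := i0.add (hi 4 (α + β + γ + δ))
  have i2 := i1.add (hi 2 (α + β + γ - δ))
  have i3 := i2.add (hi 2 (α + β - γ + δ))
  have i4 := i3.add (hi 2 (α - β + γ + δ))
  rw [intervalIntegral.integral_add i4 (hi 2 _), intervalIntegral.integral_add i3 (hi 2 _),
    intervalIntegral.integral_add i2 (hi 2 _), intervalIntegral.integral_add i1 (hi 2 _),
    intervalIntegral.integral_add i0 (hi 4 _), hz 4 _ (by norm_num), hz 2 _ (by norm_num),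
    hz 2 _ (by norm_num), hz 2 _ (by norm_num), hz 2 _ (by norm_num),
    intervalIntegral.integral_const]
  have hp : Real.pi ≠ 0 := Real.pi_ne_zero
  simp only [smul_eq_mul]
  field_simp
  ring

/-- the cosine at half-integer multiples with even numerator -/
theorem cos_even (x : ℝ) (t : ℤ) (h : x = (t : ℝ) * Real.pi) : Real.cos x = (-1) ^ t := by
  rw [h, Real.cos_int_mul_pi]

/-- the mean over the phase -/
theorem mean_phase (k b : Fin 4 → ℕ) (h : ∑ i, ((k i : ℤ) - 2 * b i) = 0) :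
    ∫ s, ∏ i, Cs s (k i) ∂angle
      = (-1 : ℝ) ^ (∑ i, b i) * ((1 / 2) * ((-1) ^ (k 2 + k 3) + (-1) ^ (k 1 + k 3)
        + (-1) ^ (k 1 + k 2))) := by
  have e1 : ∀ s, ∏ i, Cs s (k i) = 4 * (Real.cos (s + k 0 * (Real.pi / 2))
      * Real.cos (s + k 1 * (Real.pi / 2)) * Real.cos (s + k 2 * (Real.pi / 2))
      * Real.cos (s + k 3 * (Real.pi / 2))) := by
    intro s
    rw [Fin.prod_univ_four]
    unfold Cs
    have h2 : Real.sqrt 2 ^ 2 = 2 := Real.sq_sqrt (by norm_num)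
    have h4 : Real.sqrt 2 ^ 4 = 4 := by
      rw [show (4 : ℕ) = 2 * 2 by norm_num, pow_mul, h2]
      norm_num
    linear_combination (Real.cos (s + k 0 * (Real.pi / 2))
      * Real.cos (s + k 1 * (Real.pi / 2)) * Real.cos (s + k 2 * (Real.pi / 2))
      * Real.cos (s + k 3 * (Real.pi / 2))) * h4
  simp only [e1]
  rw [integral_const_mul, mean_four]
  rw [Fin.sum_univ_four] at h
  set B : ℤ := ((b 0 + b 1 + b 2 + b 3 : ℕ) : ℤ) with hB
  have hk : (k 0 : ℤ) = 2 * B - k 1 - k 2 - k 3 := by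
    rw [hB]
    push_cast
    linarith
  have hkR : (k 0 : ℝ) = 2 * (B : ℝ) - k 1 - k 2 - k 3 := by
    exact_mod_cast hk
  have hm : (-1 : ℝ) ≠ 0 := by norm_num
  have key : ∀ p q : ℕ, (-1 : ℝ) ^ (B - p - q) = (-1) ^ (∑ i, b i) * (-1) ^ (p + q) := by
    intro p q
    rw [Fin.sum_univ_four, zpow_sub₀ hm, zpow_sub₀ hm, hB, zpow_natCast, zpow_natCast,
      zpow_natCast, pow_add (-1 : ℝ) p q]
    rcases neg_one_pow_eq_or ℝ p with hp | hp <;> rcases neg_one_pow_eq_or ℝ q with hq | hq <;>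
      rw [hp, hq] <;> ring
  rw [cos_even _ (B - k 2 - k 3) (by rw [hkR]; push_cast; ring),
    cos_even _ (B - k 1 - k 3) (by rw [hkR]; push_cast; ring),
    cos_even _ (B - k 1 - k 2) (by rw [hkR]; push_cast; ring), key, key, key]
  ring

/-- the class function -/
theorem cl4_eq (k a b : Fin 4 → ℕ) (hk : ∀ i, k i = a i + b i)
    (h : ∑ i, ((a i : ℤ) - b i) = 0) :
    (((1 / 2) * ((-1) ^ (k 2 + k 3) + (-1) ^ (k 1 + k 3) + (-1) ^ (k 1 + k 2)) : ℝ) : ℂ)
      = 3 / 2 * cl4 ((a 0 : ℤ) - b 0) ((a 1 : ℤ) - b 1) ((a 2 : ℤ) - b 2) ((a 3 : ℤ) - b 3) := by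
  rw [Fin.sum_univ_four] at h
  have k1 := hk 1
  have k2 := hk 2
  have k3 := hk 3
  unfold cl4
  rw [pow_add, pow_add, pow_add]
  rcases Nat.even_or_odd (k 1) with h1 | h1 <;> rcases Nat.even_or_odd (k 2) with h2 | h2 <;>
    rcases Nat.even_or_odd (k 3) with h3 | h3
  · rw [h1.neg_one_pow, h2.neg_one_pow, h3.neg_one_pow, if_pos (by
      obtain ⟨u1, hu1⟩ := h1; obtain ⟨u2, hu2⟩ := h2; obtain ⟨u3, hu3⟩ := h3
      omega)]
    push_cast; norm_num
  · rw [h1.neg_one_pow, h2.neg_one_pow, h3.neg_one_pow, if_neg (by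
      obtain ⟨u1, hu1⟩ := h1; obtain ⟨u2, hu2⟩ := h2; obtain ⟨u3, hu3⟩ := h3
      omega)]
    push_cast; norm_num
  · rw [h1.neg_one_pow, h2.neg_one_pow, h3.neg_one_pow, if_neg (by
      obtain ⟨u1, hu1⟩ := h1; obtain ⟨u2, hu2⟩ := h2; obtain ⟨u3, hu3⟩ := h3
      omega)]
    push_cast; norm_num
  · rw [h1.neg_one_pow, h2.neg_one_pow, h3.neg_one_pow, if_neg (by
      obtain ⟨u1, hu1⟩ := h1; obtain ⟨u2, hu2⟩ := h2; obtain ⟨u3, hu3⟩ := h3
      omega)]
    push_cast; norm_num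
  · rw [h1.neg_one_pow, h2.neg_one_pow, h3.neg_one_pow, if_neg (by
      obtain ⟨u1, hu1⟩ := h1; obtain ⟨u2, hu2⟩ := h2; obtain ⟨u3, hu3⟩ := h3
      omega)]
    push_cast; norm_num
  · rw [h1.neg_one_pow, h2.neg_one_pow, h3.neg_one_pow, if_neg (by
      obtain ⟨u1, hu1⟩ := h1; obtain ⟨u2, hu2⟩ := h2; obtain ⟨u3, hu3⟩ := h3
      omega)]
    push_cast; norm_num
  · rw [h1.neg_one_pow, h2.neg_one_pow, h3.neg_one_pow, if_neg (by
      obtain ⟨u1, hu1⟩ := h1; obtain ⟨u2, hu2⟩ := h2; obtain ⟨u3, hu3⟩ := h3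
      omega)]
    push_cast; norm_num
  · rw [h1.neg_one_pow, h2.neg_one_pow, h3.neg_one_pow, if_pos (by
      obtain ⟨u1, hu1⟩ := h1; obtain ⟨u2, hu2⟩ := h2; obtain ⟨u3, hu3⟩ := h3
      omega)]
    push_cast; norm_num

/-- the product of the derivatives -/
theorem jetProd_eq (hIter : StmtIter) (θ s : ℝ) (k : Fin 4 → ℕ) (v : ∀ i, Fin (k i) → ℂ) :
    ((jetProd k v (planeWave θ s) : ℝ) : ℂ)
      = (∑ a ∈ Fintype.piFinset fun i => Finset.range (k i + 1),
        (∏ i, sc (v i) (a i) * (2 : ℂ)⁻¹ ^ (k i)) * uu θ ^ (∑ i, ((a i : ℤ) - (k i - a i : ℕ))))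
        * ((∏ i, Cs s (k i) : ℝ) : ℂ) := by
  unfold jetProd
  rw [Complex.ofReal_prod]
  have e1 : ∀ i, ((iteratedFDeriv ℝ (k i) (planeWave θ s) 0 (v i) : ℝ) : ℂ)
      = ∑ a ∈ Finset.range (k i + 1), sc (v i) a * (2 : ℂ)⁻¹ ^ (k i)
        * uu θ ^ ((a : ℤ) - (k i - a : ℕ)) * (Cs s (k i) : ℂ) := fun i => one_jet hIter θ s _ _
  simp only [e1]
  rw [Finset.prod_univ_sum, Finset.sum_mul]
  refine Finset.sum_congr rfl fun a _ => ?_
  rw [Finset.prod_mul_distrib, Finset.prod_mul_distrib, Complex.ofReal_prod]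
  congr 1
  congr 1
  have : ∀ s : Finset (Fin 4), ∏ i ∈ s, uu θ ^ ((a i : ℤ) - (k i - a i : ℕ))
      = uu θ ^ (∑ i ∈ s, ((a i : ℤ) - (k i - a i : ℕ))) := by
    intro s
    induction s using Finset.induction_on with
    | empty => simp
    | insert i s hi ih =>
      rw [Finset.prod_insert hi, Finset.sum_insert hi, ih, zpow_add₀ (uu_ne θ)]
  exact this Finset.univ

end PWF

open _root_.QJ.PWF in
theorem stmtPwf (hIter : StmtIter) : StmtPwf := by
  intro k v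
  have e1 : ((planeMean k v : ℝ) : ℂ)
      = ∫ θ, (∫ s, ((jetProd k v (planeWave θ s) : ℝ) : ℂ) ∂angle) ∂angle := by
    unfold planeMean
    rw [← integral_complex_ofReal]
    refine integral_congr_ae (ae_of_all _ fun θ => ?_)
    show ((∫ s, jetProd k v (planeWave θ s) ∂angle : ℝ) : ℂ) = _
    rw [← integral_complex_ofReal]
  rw [e1]
  simp only [jetProd_eq hIter]
  simp only [integral_const_mul]
  rw [integral_mul_const]
  have e2 : ∫ θ, (∑ a ∈ Fintype.piFinset fun i => Finset.range (k i + 1),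
      (∏ i, sc (v i) (a i) * (2 : ℂ)⁻¹ ^ (k i)) * uu θ ^ (∑ i, ((a i : ℤ) - (k i - a i : ℕ))))
        ∂angle = ∑ a ∈ Fintype.piFinset fun i => Finset.range (k i + 1),
      (∏ i, sc (v i) (a i) * (2 : ℂ)⁻¹ ^ (k i)) *
        (if ∑ i, ((a i : ℤ) - (k i - a i : ℕ)) = 0 then 1 else 0) := by
    rw [integral_finsetSum]
    · refine Finset.sum_congr rfl fun a _ => ?_
      rw [integral_const_mul]
      congr 1
      exact ang_zpow _
    · intro a _
      refine Integrable.const_mul ?_ _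
      refine Integrable.of_bound (continuous_uu_zpow _).aestronglyMeasurable 1
        (Eventually.of_forall fun θ => ?_)
      rw [norm_zpow, norm_uu, one_zpow]
  rw [e2, Finset.sum_mul]
  refine Finset.sum_congr rfl fun a ha => ?_
  have hak : ∀ i, a i ≤ k i := fun i => by
    have := Fintype.mem_piFinset.mp ha i
    exact Nat.lt_succ_iff.mp (Finset.mem_range.mp this)
  by_cases h : ∑ i, ((a i : ℤ) - (k i - a i : ℕ)) = 0
  · rw [if_pos h, if_pos h, mul_one]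
    set b : Fin 4 → ℕ := fun i => k i - a i with hb
    have hkab : ∀ i, k i = a i + b i := fun i => by
      have := hak i
      simp only [hb]
      omega
    have h2 : ∑ i, ((k i : ℤ) - 2 * b i) = 0 := by
      rw [← h]
      refine Finset.sum_congr rfl fun i _ => ?_
      have h3 := hkab i
      show ((k i : ℤ)) - 2 * (b i : ℤ) = (a i : ℤ) - (b i : ℤ)
      omega
    rw [integral_complex_ofReal, mean_phase k b h2, Complex.ofReal_mul, cl4_eq k a b hkab h]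
    have e3 : ∀ i, cW (a i) (k i - a i) = (2 : ℂ)⁻¹ ^ (k i) * (-1) ^ (b i) := by
      intro i
      unfold cW
      rw [show a i + (k i - a i) = k i from by have := hak i; omega]
    simp only [e3]
    rw [← mul_assoc]
    congr 1
    simp only [← mul_assoc]
    rw [Finset.prod_mul_distrib (g := fun i => (-1 : ℂ) ^ (b i)), Finset.prod_pow_eq_pow_sum]
    push_cast
    ring
  · rw [if_neg h, if_neg h, mul_zero, zero_mul]

end

end QJ


end

section

/-!
HCL: the four-jet integrals, multiplied by `h`, are given by the class function.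
-/

open Complex MeasureTheory Filter Topology Set
open scoped ContDiff

namespace U3

open QE QJ

noncomputable section

namespace HCL

variable {V : Set ℂ} {σ : ℂ → ℝ} {h : ℕ → ℝ} {φ : ℕ → ℂ → ℂ}

lemma zero_off {ζ : ℂ → ℂ} (hζ : Test V ζ) {z : ℂ} (hz : z ∉ V) : ζ z = 0 :=
  image_eq_zero_of_notMem_tsupport fun hh => hz (hζ.sub hh)

lemma hlimC (L : LocB V σ h φ) : Tendsto (fun n => (h n : ℂ)) atTop (𝓝 0) := by
  have h1 := (Complex.continuous_ofReal.tendsto 0).comp L.hlim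
  rw [Complex.ofReal_zero] at h1
  exact h1

/-- `h ∫ ζ u → 0` if `h ∫_K ‖u‖ → 0` -/
lemma lim_test (hpos : ∀ n, 0 < h n) {u : ℕ → ℂ → ℂ} (hu : ∀ n, ContDiff ℝ ∞ (u n))
    (hz : HZ V h u) {ζ : ℂ → ℂ} (hζ : Test V ζ) :
    Tendsto (fun n => (h n : ℂ) * ∫ z, ζ z * u n z) atTop (𝓝 0) := by
  obtain ⟨C, hC⟩ := hζ.smooth.continuous.bounded_above_of_compact_support hζ.supp
  have hK : IsCompact (tsupport ζ) := hζ.supp
  have h1 := (hz (tsupport ζ) hK hζ.sub).const_mul C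
  rw [mul_zero] at h1
  refine squeeze_zero_norm (fun n => ?_) h1
  have e1 : ∫ z, ζ z * u n z = ∫ z in tsupport ζ, ζ z * u n z := by
    refine (setIntegral_eq_integral_of_forall_compl_eq_zero fun z hz => ?_).symm
    rw [image_eq_zero_of_notMem_tsupport hz, zero_mul]
  have e2 : ‖∫ z in tsupport ζ, ζ z * u n z‖ ≤ ∫ z in tsupport ζ, C * ‖u n z‖ := by
    refine norm_integral_le_of_norm_le ?_ ?_
    · exact ((hu n).continuous.norm.const_smul C).continuousOn.integrableOn_compact hK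
    · refine Filter.Eventually.of_forall fun z => ?_
      rw [norm_mul]
      exact mul_le_mul_of_nonneg_right (hC z) (norm_nonneg _)
  rw [norm_mul, Complex.norm_real, Real.norm_of_nonneg (hpos n).le, e1]
  rw [integral_const_mul] at e2
  calc h n * ‖∫ z in tsupport ζ, ζ z * u n z‖ ≤ h n * (C * ∫ z in tsupport ζ, ‖u n z‖) :=
        mul_le_mul_of_nonneg_left e2 (hpos n).le
    _ = C * (h n * ∫ z in tsupport ζ, ‖u n z‖) := by ring

/-- the raising step with an additional factor `h`: a sequence `S` with `h D u = S + h² B` satisfies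
`h ∫ ζ S → 0` -/
lemma up_h (hInt : StmtIntA) (hIbp : StmtIbpA) (L : LocB V σ h φ) (hG : GrowA V h φ) {ζ : ℂ → ℂ}
    (hζ : Test V ζ) (k : ℤ) {u B S : ℕ → ℂ → ℂ} (hu : Dom V h φ 4 u) (hB : Dom V h φ 4 B)
    (hS : ∀ n, ContDiff ℝ ∞ (S n))
    (he : ∀ n, ∀ z ∈ V, (h n : ℂ) * D σ k (u n) z = S n z + (h n : ℂ) ^ 2 * B n z) :
    Tendsto (fun n => (h n : ℂ) * ∫ z, ζ z * S n z) atTop (𝓝 0) := by
  have su : ∀ n, ContDiff ℝ ∞ (fun z => (h n : ℂ) * u n z) :=
    fun n => contDiff_const.mul (hu.smooth n)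
  have sB : ∀ n, ContDiff ℝ ∞ (fun z => (h n : ℂ) * B n z) :=
    fun n => contDiff_const.mul (hB.smooth n)
  have zu : HZ V h (fun n z => (h n : ℂ) * u n z) :=
    (hInt V h φ u L.hpos L.hlim L.smφ hG hu.smooth).2.2.2.1 hu.bq
  have zB : HZ V h (fun n z => (h n : ℂ) * B n z) :=
    (hInt V h φ B L.hpos L.hlim L.smφ hG hB.smooth).2.2.2.1 hB.bq
  have i1 := (hIbp V σ h (fun n z => (h n : ℂ) * u n z) k L.op L.sm L.hpos su zu ζ hζ).1
  have i2 := (hlimC L).mul (lim_test L.hpos sB zB hζ)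
  have i3 := i1.sub i2
  rw [mul_zero, sub_zero] at i3
  refine i3.congr fun n => ?_
  have e : ∀ z, ζ z * ((h n : ℂ) * D σ k (fun z => (h n : ℂ) * u n z) z)
      = (h n : ℂ) * (ζ z * S n z) + (h n : ℂ) ^ 3 * (ζ z * B n z) := by
    intro z
    by_cases hz : z ∈ V
    · rw [D_const_mul L.sm k _ (cd_at (hu.smooth n) z)]
      linear_combination ζ z * (h n : ℂ) * he n z hz
    · rw [zero_off hζ hz]; ring
  have e' : ∀ z, ζ z * ((h n : ℂ) * B n z) = (h n : ℂ) * (ζ z * B n z) := fun z => by ring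
  have k1 : Integrable (fun z => ζ z * S n z) :=
    hζ.integrable_mul L.op (hS n).continuous.continuousOn
  have k2 : Integrable (fun z => ζ z * B n z) :=
    hζ.integrable_mul L.op (hB.smooth n).continuous.continuousOn
  simp only [e, e']
  rw [integral_add (k1.const_mul _) (k2.const_mul _), integral_const_mul, integral_const_mul,
    integral_const_mul]
  ring

lemma add_four {S f g k l : ℂ → ℂ} (hf : Integrable f) (hg : Integrable g) (hk : Integrable k)
    (hl : Integrable l) (he : ∀ z, S z = f z + g z + k z + l z) :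
    ∫ z, S z = (∫ z, f z) + (∫ z, g z) + (∫ z, k z) + ∫ z, l z := by
  have h1 : Integrable (fun z => f z + g z) := hf.add hg
  have h2 : Integrable (fun z => f z + g z + k z) := h1.add hk
  simp only [he]
  rw [integral_add h2 hl, integral_add h1 hk, integral_add hf hg]

/-- the first recursion -/
lemma first (hInt : StmtIntA) (hIbp : StmtIbpA) (hJ : StmtJetC) (L : LocB V σ h φ)
    (hG : GrowA V h φ) {ζ : ℂ → ℂ} (hζ : Test V ζ) (a b c d : ℤ) :
    Tendsto (fun n => (h n : ℂ) * (E4 σ h φ ζ (a + 1) b c d n + E4 σ h φ ζ a (b + 1) c d n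
      + E4 σ h φ ζ a b (c + 1) d n + E4 σ h φ ζ a b c (d + 1) n)) atTop (𝓝 0) := by
  have hσ := L.sm
  obtain ⟨da, ⟨A1, hA1, h1⟩, -⟩ := hJ V σ h φ L a
  obtain ⟨db, ⟨A2, hA2, h2⟩, -⟩ := hJ V σ h φ L b
  obtain ⟨dc, ⟨A3, hA3, h3⟩, -⟩ := hJ V σ h φ L c
  obtain ⟨dd, ⟨A4, hA4, h4⟩, -⟩ := hJ V σ h φ L d
  have da1 := (hJ V σ h φ L (a + 1)).1
  have db1 := (hJ V σ h φ L (b + 1)).1
  have dc1 := (hJ V σ h φ L (c + 1)).1
  have dd1 := (hJ V σ h φ L (d + 1)).1
  have hV := L.op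
  have pr : ∀ {u v w x : ℕ → ℂ → ℂ}, Dom V h φ 1 u → Dom V h φ 1 v → Dom V h φ 1 w →
      Dom V h φ 1 x → Dom V h φ 4 (fun n z => u n z * v n z * w n z * x n z) := by
    intro u v w x hu hv hw hx
    exact ((hu.mul hV hv).mul hV hw).mul hV hx
  have du := pr da db dc dd
  have q1 := pr da1 db dc dd
  have q2 := pr da db1 dc dd
  have q3 := pr da db dc1 dd
  have q4 := pr da db dc dd1
  have hB := (((pr hA1 db dc dd).add hV (pr da hA2 dc dd)).add hV (pr da db hA3 dd)).add hV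
    (pr da db dc hA4)
  have hS := ((q1.add hV q2).add hV q3).add hV q4
  have key := up_h hInt hIbp L hG hζ (a + b + c + d) du hB hS.smooth ?_
  · refine key.congr fun n => ?_
    have k1 := hζ.integrable_mul hV (q1.smooth n).continuous.continuousOn
    have k2 := hζ.integrable_mul hV (q2.smooth n).continuous.continuousOn
    have k3 := hζ.integrable_mul hV (q3.smooth n).continuous.continuousOn
    have k4 := hζ.integrable_mul hV (q4.smooth n).continuous.continuousOn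
    unfold E4
    refine congrArg (fun t => (h n : ℂ) * t) ?_
    exact add_four k1 k2 k3 k4 fun z => by ring
  · intro n z hz
    have sa := cd_at (da.smooth n) z
    have sb := cd_at (db.smooth n) z
    have sc := cd_at (dc.smooth n) z
    have sd := cd_at (dd.smooth n) z
    have m1 := D_mul hσ a b sa sb
    have m2 := D_mul hσ (a + b) c (sa.fun_mul sb) sc
    have m3 := D_mul hσ (a + b + c) d ((sa.fun_mul sb).fun_mul sc) sd
    rw [m3, m2, m1]
    linear_combination (E σ h φ b n z * E σ h φ c n z * E σ h φ d n z) * h1 n z hz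
      + (E σ h φ a n z * E σ h φ c n z * E σ h φ d n z) * h2 n z hz
      + (E σ h φ a n z * E σ h φ b n z * E σ h φ d n z) * h3 n z hz
      + (E σ h φ a n z * E σ h φ b n z * E σ h φ c n z) * h4 n z hz

lemma three_int {f g k : ℂ → ℂ} (hf : Integrable f) (hg : Integrable g) (hk : Integrable k) :
    ∫ z, (f z + g z - 2 * k z) = (∫ z, f z) + (∫ z, g z) - 2 * ∫ z, k z := by
  have h1 : Integrable (fun z => f z + g z) := hf.add hg
  rw [integral_sub h1 (hk.const_mul 2), integral_add hf hg, integral_const_mul]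

/-- the second recursion: the second differences are bounded -/
lemma second (hTriQ : StmtTriQ) (hNf : StmtNf) (L : LocB V σ h φ) {ζ : ℂ → ℂ} (hζ : Test V ζ)
    (a b c d : ℤ) (habcd : a + b + c + d = 0) :
    Tendsto (fun n => (h n : ℂ) * (E4 σ h φ ζ (a + 1) (b + 1) (c - 1) (d - 1) n
      + E4 σ h φ ζ (a - 1) (b - 1) (c + 1) (d + 1) n - 2 * E4 σ h φ ζ a b c d n))
      atTop (𝓝 0) := by
  have T1 := hTriQ V σ h φ L a b
  have T2 := hTriQ V σ h φ L c d
  have hcd : c + d = -(a + b) := by omega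
  rw [hcd] at T2
  obtain ⟨-, c0, hc0⟩ := hNf V σ (a + b) _ _ _ _ _ _ L.op L.sm T1 T2 ζ hζ
  have main : ∀ n, E4 σ h φ ζ (a + 1) (b + 1) (c - 1) (d - 1) n
      + E4 σ h φ ζ (a - 1) (b - 1) (c + 1) (d + 1) n - 2 * E4 σ h φ ζ a b c d n
      = ∫ z, ζ z * (E σ h φ (a + 1) n z * E σ h φ (b + 1) n z
            * (E σ h φ (c - 1) n z * E σ h φ (d - 1) n z)
          + E σ h φ (a - 1) n z * E σ h φ (b - 1) n z
            * (E σ h φ (c + 1) n z * E σ h φ (d + 1) n z)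
          - 2 * (E σ h φ a n z * E σ h φ b n z * (E σ h φ c n z * E σ h φ d n z))) := by
    intro n
    have j1 : Integrable fun z => ζ z * (E σ h φ (a + 1) n z * E σ h φ (b + 1) n z
        * E σ h φ (c - 1) n z * E σ h φ (d - 1) n z) := by
      have h1 := test_int hζ ((T1.sA n).continuous.mul (T2.sC n).continuous)
      exact h1.congr (Eventually.of_forall fun z => by simp only [Pi.mul_apply]; ring)
    have j2 : Integrable fun z => ζ z * (E σ h φ (a - 1) n z * E σ h φ (b - 1) n z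
        * E σ h φ (c + 1) n z * E σ h φ (d + 1) n z) := by
      have h1 := test_int hζ ((T1.sC n).continuous.mul (T2.sA n).continuous)
      exact h1.congr (Eventually.of_forall fun z => by simp only [Pi.mul_apply]; ring)
    have j3 : Integrable fun z => ζ z * (E σ h φ a n z * E σ h φ b n z
        * E σ h φ c n z * E σ h φ d n z) := by
      have h1 := test_int hζ ((T1.sB n).continuous.mul (T2.sB n).continuous)
      exact h1.congr (Eventually.of_forall fun z => by simp only [Pi.mul_apply]; ring)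
    unfold E4
    rw [← three_int j1 j2 j3]
    refine integral_congr_ae (Eventually.of_forall fun z => ?_)
    ring
  have hh : Tendsto (fun n => h n * c0) atTop (𝓝 0) := by
    have h1 := L.hlim.mul_const c0
    rwa [zero_mul] at h1
  refine squeeze_zero_norm' ?_ hh
  filter_upwards [hc0] with n hn
  rw [main n, norm_mul, Complex.norm_real, Real.norm_of_nonneg (L.hpos n).le]
  exact mul_le_mul_of_nonneg_left hn (L.hpos n).le

end HCL

open _root_.U3.HCL in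
/-- the four-jet integrals, multiplied by `h`, are given by the class function -/
theorem stmtHcl (hGroA : StmtGroA) (hIntA : StmtIntA) (hIbpA : StmtIbpA) (hJetC : StmtJetC)
    (hTriQ : StmtTriQ) (hNf : StmtNf) (hAlf : QJ.StmtAlf) : StmtHcl := by
  intro V σ h φ L ζ hζ a b c d habcd
  have hG := hGroA V σ h φ L
  let g : ℤ → ℤ → ℤ → ℤ → ℕ → ℂ := fun a b c d n => (h n : ℂ) * E4 σ h φ ζ a b c d n
  let e : ℤ → ℤ → ℤ → ℤ → (ℕ → ℂ) ⧸ FOU.nul := fun a b c d => FOU.nul.mkQ (g a b c d)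
  have key := hAlf _ e
    (fun a b c d => by
      show FOU.nul.mkQ _ = FOU.nul.mkQ _
      refine congrArg _ ?_
      funext n
      show (h n : ℂ) * E4 σ h φ ζ b a c d n = (h n : ℂ) * E4 σ h φ ζ a b c d n
      rw [FOU.E4_ab])
    (fun a b c d => by
      show FOU.nul.mkQ _ = FOU.nul.mkQ _
      refine congrArg _ ?_
      funext n
      show (h n : ℂ) * E4 σ h φ ζ a c b d n = (h n : ℂ) * E4 σ h φ ζ a b c d n
      rw [FOU.E4_bc])
    (fun a b c d => by
      show FOU.nul.mkQ _ = FOU.nul.mkQ _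
      refine congrArg _ ?_
      funext n
      show (h n : ℂ) * E4 σ h φ ζ a b d c n = (h n : ℂ) * E4 σ h φ ζ a b c d n
      rw [FOU.E4_cd])
    (fun a b c d hs => by
      show FOU.nul.mkQ _ + FOU.nul.mkQ _ = (2 : ℂ) • FOU.nul.mkQ _
      rw [← map_add, ← map_smul, ← sub_eq_zero, ← map_sub, Submodule.mkQ_apply,
        Submodule.Quotient.mk_eq_zero]
      refine (second hTriQ hNf L hζ a b c d hs).congr fun n => ?_
      simp only [g, Pi.sub_apply, Pi.add_apply, Pi.smul_apply, smul_eq_mul]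
      ring)
    (fun a b c d _ => by
      show FOU.nul.mkQ _ + FOU.nul.mkQ _ + FOU.nul.mkQ _ + FOU.nul.mkQ _ = 0
      rw [← map_add, ← map_add, ← map_add, Submodule.mkQ_apply, Submodule.Quotient.mk_eq_zero]
      refine (first hIntA hIbpA hJetC L hG hζ a b c d).congr fun n => ?_
      simp only [g, Pi.add_apply]
      ring)
    a b c d habcd
  have h2 : FOU.nul.mkQ (g a b c d - cl4 a b c d • g 0 0 0 0) = 0 := by
    rw [map_sub, map_smul, sub_eq_zero]
    exact key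
  rw [Submodule.mkQ_apply, Submodule.Quotient.mk_eq_zero] at h2
  have h3 : Tendsto (g a b c d - cl4 a b c d • g 0 0 0 0) atTop (𝓝 0) := h2
  refine h3.congr fun n => ?_
  simp only [g, Pi.sub_apply, Pi.smul_apply, smul_eq_mul]
  ring

end

end U3


end

section

/-!
U3, module DIR: the properties of the limit measure (growth, no odd moments, transport).
-/

open Complex MeasureTheory Filter Topology Set
open scoped ContDiff Manifold

namespace U3

open QE QJ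

noncomputable section

namespace DIR

variable {V : Set ℂ} {σ : ℂ → ℝ} {h : ℕ → ℝ} {φ : ℕ → ℂ → ℂ}

theorem cutoff {U K : Set ℂ} (hU : IsOpen U) (hK : IsCompact K) (hKU : K ⊆ U) :
    ∃ f : ℂ → ℝ, Test U (fun z => (f z : ℂ)) ∧ (∀ z ∈ K, f z = 1) ∧ (∀ z, 0 ≤ f z ∧ f z ≤ 1) ∧
      Continuous f ∧ HasCompactSupport f ∧ ∀ z, z ∉ U → f z = 0 := by
  obtain ⟨K', hK', hKK', hK'U⟩ := exists_compact_between hK hU hKU
  obtain ⟨f, hf1, hf2, hf3⟩ := exists_contMDiffMap_one_nhds_of_subset_interior (n := (⊤ : ℕ∞)) 𝓘(ℝ, ℂ)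
    hK.isClosed hKK'
  have hfs : ContDiff ℝ ∞ (f : ℂ → ℝ) := f.contMDiff.contDiff
  have hsupp : Function.support (fun z => (f z : ℂ)) ⊆ K' := by
    intro z hz
    by_contra h
    exact hz (by simp [hf2 z h])
  have hts : tsupport (fun z => (f z : ℂ)) ⊆ K' :=
    closure_minimal hsupp hK'.isClosed
  refine ⟨fun z => f z, ⟨ofRealCLM.contDiff.comp hfs,
    hK'.of_isClosed_subset (isClosed_tsupport _) hts, hts.trans hK'U⟩, ?_, ?_, hfs.continuous, ?_, ?_⟩
  · intro z hz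
    have := hf1.filter_mono (nhds_le_nhdsSet hz)
    exact this.self_of_nhds
  · exact fun z => hf3 z
  · exact HasCompactSupport.intro hK' fun z hz => hf2 z hz
  · intro z hz
    exact hf2 z fun h => hz (hK'U h)

/-- test functions times the powers of the direction are integrable -/
theorem integ {Ω : Type} [MeasurableSpace Ω] {μ : Measure Ω} {p u : Ω → ℂ}
    (hfin : μ Set.univ ≠ ⊤) (hp : Measurable p) (hu : Measurable u) (hunit : ∀ o, ‖u o‖ = 1)
    {f : ℂ → ℂ} (hf : Continuous f) (hc : HasCompactSupport f) (k : ℤ) :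
    Integrable (fun o => f (p o) * u o ^ k) μ := by
  have : IsFiniteMeasure μ := ⟨lt_top_iff_ne_top.2 hfin⟩
  obtain ⟨C, hC⟩ := hc.exists_bound_of_continuous hf
  refine Integrable.of_bound ((hf.measurable.comp hp).mul (hu.pow_const k)).aestronglyMeasurable C
    (ae_of_all _ fun o => ?_)
  rw [norm_mul, norm_zpow, hunit, one_zpow, mul_one]
  exact hC _

/-- integration against a sequence which tends to zero in `L²` -/
theorem test_l2z {ζ : ℂ → ℂ} (hζ : Test V ζ) {e : ℕ → ℂ → ℂ} (he : L2z V e)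
    (se : ∀ n, ContDiff ℝ ∞ (e n)) : Tendsto (fun n => ∫ z, ζ z * e n z) atTop (𝓝 0) := by
  have hK : IsCompact (tsupport ζ) := hζ.supp
  rw [Metric.tendsto_nhds]
  intro ε hε
  obtain ⟨G, hG⟩ : ∃ G, G = ∫ z in tsupport ζ, ‖ζ z‖ ^ 2 := ⟨_, rfl⟩
  have hG0 : 0 ≤ G := by
    rw [hG]
    exact integral_nonneg fun z => by positivity
  obtain ⟨l, hl⟩ : ∃ l, l = ε / (G + 1) := ⟨_, rfl⟩
  have hl0 : 0 < l := by
    rw [hl]
    positivity
  have hlG : l * G ≤ ε := by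
    have : l * (G + 1) = ε := by
      rw [hl]
      field_simp
    nlinarith
  have h1 := (he _ hK hζ.sub).eventually (gt_mem_nhds (show (0 : ℝ) < l * ε by positivity))
  filter_upwards [h1] with n hn
  rw [dist_zero_right]
  have e1 : ∫ z, ζ z * e n z = ∫ z in tsupport ζ, ζ z * e n z := by
    symm
    apply setIntegral_eq_integral_of_forall_compl_eq_zero
    intro z hz
    rw [image_eq_zero_of_notMem_tsupport hz, zero_mul]
  have c1 : IntegrableOn (fun z => ‖ζ z‖ ^ 2) (tsupport ζ) :=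
    (hζ.smooth.continuous.norm.pow 2).continuousOn.integrableOn_compact hK
  have c2 : IntegrableOn (fun z => ‖e n z‖ ^ 2) (tsupport ζ) :=
    ((se n).continuous.norm.pow 2).continuousOn.integrableOn_compact hK
  have e2 : ‖∫ z in tsupport ζ, ζ z * e n z‖
      ≤ (l * G + l⁻¹ * ∫ z in tsupport ζ, ‖e n z‖ ^ 2) / 2 := by
    calc ‖∫ z in tsupport ζ, ζ z * e n z‖ ≤ ∫ z in tsupport ζ, ‖ζ z * e n z‖ :=
          norm_integral_le_integral_norm _
      _ ≤ ∫ z in tsupport ζ, (l * ‖ζ z‖ ^ 2 + l⁻¹ * ‖e n z‖ ^ 2) / 2 := by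
          refine integral_mono_of_nonneg (Filter.Eventually.of_forall fun z => norm_nonneg _)
            (((c1.const_mul _).add (c2.const_mul _)).div_const 2)
            (Filter.Eventually.of_forall fun z => ?_)
          simp only [norm_mul]
          have h2 : 0 ≤ l⁻¹ * (l * ‖ζ z‖ - ‖e n z‖) ^ 2 := by positivity
          have h3 : l⁻¹ * (l * ‖ζ z‖ - ‖e n z‖) ^ 2
              = l * ‖ζ z‖ ^ 2 - 2 * (‖ζ z‖ * ‖e n z‖) + l⁻¹ * ‖e n z‖ ^ 2 := by
            field_simp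
            ring
          rw [h3] at h2
          linarith
      _ = _ := by
          rw [integral_div, integral_add (c1.const_mul _) (c2.const_mul _), integral_const_mul,
            integral_const_mul, hG]
  have e3 : l⁻¹ * ∫ z in tsupport ζ, ‖e n z‖ ^ 2 < ε := by
    rw [inv_mul_lt_iff₀ hl0]
    exact hn
  rw [e1]
  linarith

/-- integration by parts -/
theorem parts_Db (hσ : ContDiff ℝ ∞ σ) (k : ℤ) {ψ A : ℂ → ℂ} (hψ : Test V ψ)
    (hA : ContDiff ℝ ∞ A) :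
    ∫ z, ex σ 2 z * ψ z * Db σ (k + 1) A z = - ∫ z, ex σ 2 z * Db σ (-k) ψ z * A z := by
  have h1 := int_Db hσ (F := fun z => ψ z * A z) (hψ.smooth.mul hA) hψ.supp.mul_right
  have e : ∀ z, ex σ 2 z * Db σ 1 (fun z => ψ z * A z) z
      = ex σ 2 z * Db σ (-k) ψ z * A z + ex σ 2 z * ψ z * Db σ (k + 1) A z := by
    intro z
    have a1 := Db_mul hσ (-k) (k + 1) (cd_at hψ.smooth z) (cd_at hA z)
    rw [show -k + (k + 1) = 1 by ring] at a1
    rw [a1]
    ring
  have i1 : Integrable fun z => ex σ 2 z * Db σ (-k) ψ z * A z := by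
    have := test_int (test_Db hσ (-k) hψ) ((contDiff_ex hσ 2).mul hA).continuous
    refine this.congr (Filter.Eventually.of_forall fun z => ?_)
    simp only []; ring
  have i2 : Integrable fun z => ex σ 2 z * ψ z * Db σ (k + 1) A z := by
    have := test_int hψ ((contDiff_ex hσ 2).mul (contDiff_Db hσ (k + 1) hA)).continuous
    refine this.congr (Filter.Eventually.of_forall fun z => ?_)
    simp only []; ring
  simp only [e] at h1
  rw [integral_add i1 i2] at h1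
  linear_combination h1

/-- integration by parts -/
theorem parts_D (hσ : ContDiff ℝ ∞ σ) (k : ℤ) {ψ A : ℂ → ℂ} (hψ : Test V ψ)
    (hA : ContDiff ℝ ∞ A) :
    ∫ z, ex σ 2 z * ψ z * D σ (k - 1) A z = - ∫ z, ex σ 2 z * D σ (-k) ψ z * A z := by
  have h1 := int_D hσ (F := fun z => ψ z * A z) (hψ.smooth.mul hA) hψ.supp.mul_right
  have e : ∀ z, ex σ 2 z * D σ (-1) (fun z => ψ z * A z) z
      = ex σ 2 z * D σ (-k) ψ z * A z + ex σ 2 z * ψ z * D σ (k - 1) A z := by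
    intro z
    have a1 := D_mul hσ (-k) (k - 1) (cd_at hψ.smooth z) (cd_at hA z)
    rw [show -k + (k - 1) = -1 by ring] at a1
    rw [a1]
    ring
  have i1 : Integrable fun z => ex σ 2 z * D σ (-k) ψ z * A z := by
    have := test_int (test_D hσ (-k) hψ) ((contDiff_ex hσ 2).mul hA).continuous
    refine this.congr (Filter.Eventually.of_forall fun z => ?_)
    simp only []; ring
  have i2 : Integrable fun z => ex σ 2 z * ψ z * D σ (k - 1) A z := by
    have := test_int hψ ((contDiff_ex hσ 2).mul (contDiff_D hσ (k - 1) hA)).continuous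
    refine this.congr (Filter.Eventually.of_forall fun z => ?_)
    simp only []; ring
  simp only [e] at h1
  rw [integral_add i1 i2] at h1
  linear_combination h1

variable {Ω : Type} [MeasurableSpace Ω] {μ : Measure Ω} {p u : Ω → ℂ}

/-- the odd moments vanish -/
theorem odd_zero (M : LimM V σ h φ μ p u) (k : ℤ) (hk : Odd k) (ζ : ℂ → ℂ) (hζ : Test V ζ) :
    ∫ o, ζ (p o) * u o ^ k ∂μ = 0 := by
  have h1 := M.lim k 0 ζ hζ
  have h2 := M.lim 0 k ζ hζ
  have e : (fun n => ∫ z, ζ z * (E σ h φ k n z * E σ h φ 0 n z))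
      = fun n => ∫ z, ζ z * (E σ h φ 0 n z * E σ h φ k n z) := by
    funext n
    congr 1
    funext z
    ring
  rw [e] at h1
  have h3 := tendsto_nhds_unique h1 h2
  rw [add_zero, zero_add, zpow_zero, one_mul, hk.neg_one_zpow] at h3
  linear_combination (1 / 2 : ℂ) * h3

/-- the transport equation -/
theorem transport (hTriQ : StmtTriQ) (L : LocB V σ h φ) (M : LimM V σ h φ μ p u) (k : ℤ)
    (ψ : ℂ → ℂ) (hψ : Test V ψ) :
    ∫ o, ex σ 2 (p o) * (Db σ (-k) ψ (p o) * u o ^ (k + 1) - D σ (-k) ψ (p o) * u o ^ (k - 1)) ∂μ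
      = 0 := by
  have hσ := L.sm
  have T := hTriQ V σ h φ L (k - 1) 0
  have hA := T.sA
  have hB := T.sB
  have he := T.eA
  have t1 : Test V (fun z => ex σ 2 z * Db σ (-k) ψ z) := by
    have := test_mul (test_Db hσ (-k) hψ) (contDiff_ex hσ 2)
    have e : (fun z => ex σ 2 z * Db σ (-k) ψ z) = fun z => Db σ (-k) ψ z * ex σ 2 z := by
      funext z
      ring
    rw [e]
    exact this
  have t2 : Test V (fun z => ex σ 2 z * D σ (-k) ψ z) := by
    have := test_mul (test_D hσ (-k) hψ) (contDiff_ex hσ 2)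
    have e : (fun z => ex σ 2 z * D σ (-k) ψ z) = fun z => D σ (-k) ψ z * ex σ 2 z := by
      funext z
      ring
    rw [e]
    exact this
  have t3 : Test V (fun z => ex σ 2 z * ψ z) := by
    have := test_mul hψ (contDiff_ex hσ 2)
    have e : (fun z => ex σ 2 z * ψ z) = fun z => ψ z * ex σ 2 z := by
      funext z
      ring
    rw [e]
    exact this
  have l1 := M.lim k 1 _ t1
  have l2 := M.lim (k - 1) 0 _ t2
  have q1 : k - 1 + 0 + 2 = k + 1 := by ring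
  have q2 : k - 1 + 0 = k - 1 := by ring
  have q3 : k - 1 + 1 = k := by ring
  have q4 : (0 : ℤ) + 1 = 1 := by ring
  rw [q1, q2] at he
  simp only [q3, q4] at he hA
  have l0 := test_l2z t3 he (fun n => (contDiff_Db hσ _ (hA n)).add (contDiff_D hσ _ (hB n)))
  have key : ∀ n, (∫ z, ex σ 2 z * ψ z *
      (Db σ (k + 1) (fun z => E σ h φ k n z * E σ h φ 1 n z) z
        + D σ (k - 1) (fun z => E σ h φ (k - 1) n z * E σ h φ 0 n z) z))
      = - (∫ z, ex σ 2 z * Db σ (-k) ψ z * (E σ h φ k n z * E σ h φ 1 n z))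
        - ∫ z, ex σ 2 z * D σ (-k) ψ z * (E σ h φ (k - 1) n z * E σ h φ 0 n z) := by
    intro n
    have a1 := parts_Db hσ k hψ (hA n)
    have a2 := parts_D hσ k hψ (hB n)
    have i1 : Integrable fun z => ex σ 2 z * ψ z *
        Db σ (k + 1) (fun z => E σ h φ k n z * E σ h φ 1 n z) z := by
      have := test_int hψ ((contDiff_ex hσ 2).mul (contDiff_Db hσ (k + 1) (hA n))).continuous
      refine this.congr (Filter.Eventually.of_forall fun z => ?_)
      simp only []; ring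
    have i2 : Integrable fun z => ex σ 2 z * ψ z *
        D σ (k - 1) (fun z => E σ h φ (k - 1) n z * E σ h φ 0 n z) z := by
      have := test_int hψ ((contDiff_ex hσ 2).mul (contDiff_D hσ (k - 1) (hB n))).continuous
      refine this.congr (Filter.Eventually.of_forall fun z => ?_)
      simp only []; ring
    have e : ∀ z, ex σ 2 z * ψ z *
      (Db σ (k + 1) (fun z => E σ h φ k n z * E σ h φ 1 n z) z
        + D σ (k - 1) (fun z => E σ h φ (k - 1) n z * E σ h φ 0 n z) z)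
      = ex σ 2 z * ψ z * Db σ (k + 1) (fun z => E σ h φ k n z * E σ h φ 1 n z) z
        + ex σ 2 z * ψ z * D σ (k - 1) (fun z => E σ h φ (k - 1) n z * E σ h φ 0 n z) z := by
      intro z
      ring
    simp only [e]
    rw [integral_add i1 i2, a1, a2]
    ring
  have l3 := (l1.neg).sub l2
  have l4 := tendsto_nhds_unique (l0.congr key) l3
  rw [zpow_one, zpow_zero, one_mul, q2] at l4
  have i1 := integ M.fin M.mp M.mu M.unit t1.smooth.continuous t1.supp (k + 1)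
  have i2 := integ M.fin M.mp M.mu M.unit t2.smooth.continuous t2.supp (k - 1)
  have e : ∀ o, ex σ 2 (p o) * (Db σ (-k) ψ (p o) * u o ^ (k + 1) - D σ (-k) ψ (p o) * u o ^ (k - 1))
      = ex σ 2 (p o) * Db σ (-k) ψ (p o) * u o ^ (k + 1)
        - ex σ 2 (p o) * D σ (-k) ψ (p o) * u o ^ (k - 1) := by
    intro o
    ring
  simp only [e]
  rw [integral_sub i1 i2]
  linear_combination -l4

/-- linear growth -/
theorem grow (hGroA : StmtGroA) (L : LocB V σ h φ) (M : LimM V σ h φ μ p u) :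
    ∀ K, IsCompact K → K ⊆ V → ∃ C : ℝ, ∀ z ∈ K, ∀ s > 0,
      (μ (p ⁻¹' (K ∩ Metric.closedBall z s))).toReal ≤ C * s := by
  intro K hK hKV
  have : IsFiniteMeasure μ := ⟨lt_top_iff_ne_top.2 M.fin⟩
  obtain ⟨K1, hK1, hKK1, hK1V⟩ := exists_compact_between hK L.op hKV
  obtain ⟨C, hC⟩ := (hGroA V σ h φ L).grow K1 hK1 hK1V 0
  refine ⟨2 * C, fun z hz s hs => ?_⟩
  have hS : IsCompact (K ∩ Metric.closedBall z s) := hK.inter_right Metric.isClosed_closedBall
  have hU : IsOpen (interior K1 ∩ Metric.ball z (2 * s)) :=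
    isOpen_interior.inter Metric.isOpen_ball
  have hSU : K ∩ Metric.closedBall z s ⊆ interior K1 ∩ Metric.ball z (2 * s) := by
    rintro w ⟨hw1, hw2⟩
    refine ⟨hKK1 hw1, ?_⟩
    rw [Metric.mem_closedBall] at hw2
    rw [Metric.mem_ball]
    linarith
  obtain ⟨f, hf1, hf2, hf3, hf4, hf5, hf6⟩ := cutoff hU hS hSU
  have hT : Test V (fun z => (f z : ℂ)) :=
    hf1.mono (inter_subset_left.trans (interior_subset.trans hK1V))
  have lim := M.lim 0 0 _ hT
  have hE : E σ h φ 0 = φ := rfl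
  rw [hE] at lim
  have hTc : IsCompact (K1 ∩ Metric.closedBall z (2 * s)) :=
    hK1.inter_right Metric.isClosed_closedBall
  have hb : ∀ᶠ n in atTop, ‖∫ w, (f w : ℂ) * (φ n w * φ n w)‖ ≤ C * (2 * s) := by
    filter_upwards [hC] with n hn
    refine le_trans ?_ (hn z (interior_subset (hKK1 hz)) (2 * s) (by linarith))
    calc ‖∫ w, (f w : ℂ) * (φ n w * φ n w)‖ ≤ ∫ w, ‖(f w : ℂ) * (φ n w * φ n w)‖ :=
          norm_integral_le_integral_norm _
      _ ≤ ∫ w, (K1 ∩ Metric.closedBall z (2 * s)).indicator (RR h φ 0 n) w := by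
          refine integral_mono_of_nonneg (Filter.Eventually.of_forall fun w => norm_nonneg _)
            ?_ (Filter.Eventually.of_forall fun w => ?_)
          · rw [integrable_indicator_iff hTc.measurableSet]
            exact (continuous_RR L.smφ 0 n).continuousOn.integrableOn_compact hTc
          · simp only []
            by_cases hw : w ∈ interior K1 ∩ Metric.ball z (2 * s)
            · have hw' : w ∈ K1 ∩ Metric.closedBall z (2 * s) :=
                ⟨interior_subset hw.1, Metric.ball_subset_closedBall hw.2⟩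
              rw [indicator_of_mem hw']
              have a1 := W_sq_le (h := h) (φ := φ) (a := 0) (b := 0) (N := 0) le_rfl le_rfl n w
              rw [W_zero] at a1
              have a2 := hf3 w
              rw [norm_mul, norm_mul, Complex.norm_real, Real.norm_of_nonneg a2.1]
              have a3 : 0 ≤ ‖φ n w‖ * ‖φ n w‖ := by positivity
              nlinarith
            · rw [hf6 w hw]
              simp only [ofReal_zero, zero_mul, norm_zero]
              exact indicator_nonneg (fun x _ => (RR_pos h φ 0 n x).le) w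
      _ = _ := integral_indicator hTc.measurableSet
  have hlim := le_of_tendsto lim.norm hb
  have hmeas : MeasurableSet (p ⁻¹' (K ∩ Metric.closedBall z s)) := M.mp hS.measurableSet
  have e1 : (∫ o, ((f (p o) : ℝ) : ℂ) * u o ^ ((0 : ℤ) + 0) ∂μ) = ((∫ o, f (p o) ∂μ : ℝ) : ℂ) := by
    rw [← integral_complex_ofReal]
    congr 1
    funext o
    rw [add_zero, zpow_zero, mul_one]
  rw [e1, zpow_zero, one_mul, Complex.norm_real] at hlim
  have i1 : Integrable (fun o => f (p o)) μ := by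
    refine Integrable.of_bound (hf4.measurable.comp M.mp).aestronglyMeasurable 1
      (ae_of_all _ fun o => ?_)
    rw [Real.norm_of_nonneg (hf3 _).1]
    exact (hf3 _).2
  have e2 : (μ (p ⁻¹' (K ∩ Metric.closedBall z s))).toReal
      = ∫ o, (p ⁻¹' (K ∩ Metric.closedBall z s)).indicator (fun _ => (1 : ℝ)) o ∂μ := by
    rw [integral_indicator hmeas, setIntegral_const, smul_eq_mul, mul_one]
    rfl
  have e3 : ∫ o, (p ⁻¹' (K ∩ Metric.closedBall z s)).indicator (fun _ => (1 : ℝ)) o ∂μ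
      ≤ ∫ o, f (p o) ∂μ := by
    refine integral_mono_of_nonneg (Filter.Eventually.of_forall fun o =>
      indicator_nonneg (fun _ _ => zero_le_one) o) i1 (Filter.Eventually.of_forall fun o => ?_)
    by_cases ho : o ∈ p ⁻¹' (K ∩ Metric.closedBall z s)
    · simp only []
      rw [indicator_of_mem ho, hf2 _ ho]
    · simp only []
      rw [indicator_of_notMem ho]
      exact (hf3 _).1
  rw [e2]
  have e4 : ∫ o, f (p o) ∂μ ≤ ‖∫ o, f (p o) ∂μ‖ := Real.le_norm_self _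
  linarith

end DIR

/-- DIR: the properties of the limit measure -/
theorem stmtDir (hGroA : StmtGroA) (hTriQ : StmtTriQ) : StmtDir := by
  intro V σ h φ Ω _ μ p u L M
  exact
    { fin := M.fin
      mp := M.mp
      mu := M.mu
      unit := M.unit
      cpt := M.cpt
      grow := DIR.grow hGroA L M
      odd := DIR.odd_zero M
      transport := DIR.transport hTriQ L M }

end

end U3


end

section

/-!
KSZ: the size of the kernel of the mollifier.
-/

open Complex MeasureTheory Filter Topology Set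
open scoped ContDiff

namespace U3

open QE QJ

noncomputable section

namespace KSZ

lemma norm_exp_sub_one_le (x : ℝ) : ‖Complex.exp ((x : ℂ) * Complex.I) - 1‖ ≤ |x| := by
  have h := Real.norm_exp_I_mul_ofReal_sub_one_le (x := x)
  rw [mul_comm, Real.norm_eq_abs] at h
  exact h

lemma contDiff_sg {σ : ℂ → ℝ} (hσ : ContDiff ℝ ∞ σ) : ContDiff ℝ ∞ (sg σ) :=
  contDiff_dz (contDiff_sig hσ)

end KSZ

theorem stmtKsz : StmtKsz := by
  intro β σ K hβ hσ hK
  obtain ⟨S, hS⟩ := hK.exists_bound_of_continuousOn hσ.continuous.continuousOn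
  obtain ⟨G, hG⟩ := hK.exists_bound_of_continuousOn (KSZ.contDiff_sg hσ).continuous.continuousOn
  obtain ⟨B, hB⟩ := (isCompact_Icc (a := (0 : ℝ)) (b := 1)).exists_bound_of_continuousOn
    hβ.smooth.continuous.continuousOn
  have hB0 : 0 ≤ B := (norm_nonneg _).trans (hB 0 ⟨le_rfl, zero_le_one⟩)
  have hβB : ∀ t, 0 ≤ t → β t ≤ B := by
    intro t ht
    rcases le_total 1 t with h | h
    · rw [hβ.supp t h]; exact hB0
    · exact (le_abs_self _).trans (hB t ⟨ht, h⟩)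
  have e1 : 0 < Real.exp (2 * |S|) := Real.exp_pos _
  have e2 : 0 < Real.exp |S| := Real.exp_pos _
  refine ⟨Real.exp (2 * |S|) * B + Real.exp |S| + 2 * |G|, by positivity, ?_⟩
  intro ε hε z hz w hw
  have hε2 : 0 < ε ^ 2 := by positivity
  have hr : 0 ≤ r2 σ z w / ε ^ 2 := by unfold r2; positivity
  have hσz : |σ z| ≤ |S| := (hS z hz).trans (le_abs_self _)
  have hσw : |σ w| ≤ |S| := (hS w hw).trans (le_abs_self _)
  have hgz : ‖sg σ z‖ ≤ |G| := (hG z hz).trans (le_abs_self _)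
  have hgw : ‖sg σ w‖ ≤ |G| := (hG w hw).trans (le_abs_self _)
  have him : |((sg σ z + sg σ w) * (w - z)).im| ≤ 2 * |G| * ‖w - z‖ := by
    refine (Complex.abs_im_le_norm _).trans ?_
    rw [norm_mul]
    have : ‖sg σ z + sg σ w‖ ≤ 2 * |G| := by
      have := norm_add_le (sg σ z) (sg σ w); linarith
    exact mul_le_mul_of_nonneg_right this (norm_nonneg _)
  have hC : 2 * |G| * ‖w - z‖ ≤ (Real.exp (2 * |S|) * B + Real.exp |S| + 2 * |G|) * ‖w - z‖ := by
    refine mul_le_mul_of_nonneg_right ?_ (norm_nonneg _)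
    have : 0 ≤ Real.exp (2 * |S|) * B := by positivity
    linarith
  refine ⟨?_, ?_, ?_, ?_, ?_⟩
  · unfold ke gb
    have := hβ.nonneg (r2 σ z w / ε ^ 2)
    positivity
  · unfold ke gb
    rw [← mul_div_assoc]
    refine div_le_div_of_nonneg_right ?_ hε2.le
    have h1 : Real.exp (2 * σ w) * β (r2 σ z w / ε ^ 2) ≤ Real.exp (2 * |S|) * B := by
      refine mul_le_mul ?_ (hβB _ hr) (hβ.nonneg _) e1.le
      refine Real.exp_le_exp.2 ?_
      have := (le_abs_self (σ w)).trans hσw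
      linarith
    have : 0 ≤ 2 * |G| := by positivity
    linarith
  · intro hd
    unfold ke gb
    rw [hβ.supp, zero_div, mul_zero]
    rw [le_div_iff₀ hε2, one_mul]
    unfold r2
    have h1 : Real.exp |S| * ε ≤ ‖w - z‖ := by
      refine le_trans ?_ hd.le
      refine mul_le_mul_of_nonneg_right ?_ hε.le
      have a : 0 ≤ Real.exp (2 * |S|) * B := by positivity
      have b : 0 ≤ 2 * |G| := by positivity
      linarith
    have h2 : (Real.exp |S| * ε) ^ 2 ≤ ‖w - z‖ ^ 2 := pow_le_pow_left₀ (by positivity) h1 2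
    have h3 : Real.exp (-(2 * |S|)) ≤ Real.exp (σ z + σ w) := by
      refine Real.exp_le_exp.2 ?_
      have a := neg_le_of_abs_le hσz
      have b := neg_le_of_abs_le hσw
      linarith
    have h4 : Real.exp (-(2 * |S|)) * (Real.exp |S| * ε) ^ 2 = ε ^ 2 := by
      rw [mul_pow, ← Real.exp_nat_mul, ← mul_assoc, ← Real.exp_add]
      have : -(2 * |S|) + ((2 : ℕ) : ℝ) * |S| = 0 := by push_cast; ring
      rw [this, Real.exp_zero, one_mul]
    rw [← h4]
    exact mul_le_mul h3 h2 (by positivity) (Real.exp_pos _).le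
  · refine le_trans ?_ hC
    unfold ta
    exact (KSZ.norm_exp_sub_one_le _).trans him
  · refine le_trans ?_ hC
    unfold ta
    rw [← Complex.exp_neg, ← neg_mul, ← Complex.ofReal_neg]
    refine (KSZ.norm_exp_sub_one_le _).trans ?_
    rw [abs_neg]
    exact him

end

end U3


end

section

/-!
Third order statistics: the odd mollified moments vanish (PEO).

The integrand of the mollified moment at `z` is a test function of the base point, after
multiplication by a cut-off function which is equal to one close to the compact set.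
-/

open Complex MeasureTheory Filter Topology Set
open scoped ContDiff

namespace U3

open QE QJ

namespace PEO

variable {β : ℝ → ℝ} {σ : ℂ → ℝ}

theorem contDiff_sg (hσ : ContDiff ℝ ∞ σ) : ContDiff ℝ ∞ (sg σ) :=
  contDiff_dz (ofRealCLM.contDiff.comp hσ)

theorem contDiff_ke (hβ : Bump β) (hσ : ContDiff ℝ ∞ σ) (ε : ℝ) (z : ℂ) :
    ContDiff ℝ ∞ (fun w => (ke β σ ε z w : ℂ)) := by
  have h1 : ContDiff ℝ ∞ (fun w => r2 σ z w) := by
    unfold r2
    exact (Real.contDiff_exp.comp (contDiff_const.add hσ)).mul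
      ((contDiff_id.sub contDiff_const).norm_sq ℝ)
  have h2 : ContDiff ℝ ∞ (fun w => ke β σ ε z w) := by
    unfold ke gb
    exact (Real.contDiff_exp.comp (contDiff_const.mul hσ)).mul
      ((hβ.smooth.comp (h1.div_const _)).div_const _)
  exact ofRealCLM.contDiff.comp h2

theorem contDiff_ta (hσ : ContDiff ℝ ∞ σ) (k : ℤ) (z : ℂ) :
    ContDiff ℝ ∞ (fun w => (ta σ z w)⁻¹ ^ k) := by
  have h1 : ContDiff ℝ ∞ (fun w : ℂ => ((((sg σ z + sg σ w) * (w - z)).im : ℝ) : ℂ) * I) := by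
    refine ContDiff.mul ?_ contDiff_const
    refine ofRealCLM.contDiff.comp ?_
    exact imCLM.contDiff.comp ((contDiff_const.add (contDiff_sg hσ)).mul
      (contDiff_id.sub contDiff_const))
  have h2 : (fun w => (ta σ z w)⁻¹ ^ k) = fun w =>
      Complex.exp ((k : ℂ) * -(((((sg σ z + sg σ w) * (w - z)).im : ℝ) : ℂ) * I)) := by
    funext w
    unfold ta
    rw [← Complex.exp_neg, ← Complex.exp_int_mul]
  rw [h2]
  exact Complex.contDiff_exp.comp (contDiff_const.mul h1.neg)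

end PEO

open _root_.U3.PEO in
/-- PEO: the odd mollified moments vanish. -/
theorem stmtPeO (hKsz : StmtKsz) : StmtPeO := by
  intro β V σ Ω _ μ p u k hβ hV hσ hD hk K hK hKV
  obtain ⟨δ, hδ, hδV⟩ := hK.exists_cthickening_subset_open hV hKV
  obtain ⟨χ, hχ, hχ1, -⟩ := QE.exists_cutoff hV hK.cthickening hδV
  obtain ⟨K₀, hK₀, h0⟩ := hD.cpt
  obtain ⟨C, hC, hke⟩ := hKsz β σ (K₀ ∪ Metric.cthickening δ K) hβ hσ (hK₀.union hK.cthickening)
  have hε : ∀ᶠ ε in 𝓝[>] (0 : ℝ), 0 < ε ∧ C * ε < δ := by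
    refine (eventually_mem_nhdsWithin).and ?_
    have h1 : Tendsto (fun ε : ℝ => C * ε) (𝓝 0) (𝓝 (C * 0)) :=
      (continuous_const.mul continuous_id).tendsto 0
    rw [mul_zero] at h1
    exact (h1.mono_left nhdsWithin_le_nhds).eventually (gt_mem_nhds hδ)
  filter_upwards [hε] with ε hε z hz
  have hT : Test V (fun w => χ w * ((ke β σ ε z w : ℂ) * (ta σ z w)⁻¹ ^ k)) :=
    hχ.mul hV ((contDiff_ke hβ hσ ε z).mul (contDiff_ta hσ k z)).contDiffOn
  have h1 := hD.odd k hk _ hT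
  have h2 : pe β σ ε μ p u k z =
      ∫ o, (χ (p o) * ((ke β σ ε z (p o) : ℂ) * (ta σ z (p o))⁻¹ ^ k)) * u o ^ k ∂μ := by
    unfold pe
    refine integral_congr_ae ?_
    filter_upwards [h0] with o ho
    have hz1 : z ∈ Metric.cthickening δ K := Metric.self_subset_cthickening K hz
    obtain ⟨-, -, h3, -, -⟩ := hke ε hε.1 z (Or.inr hz1) (p o) (Or.inl ho)
    by_cases h4 : C * ε < ‖p o - z‖
    · rw [h3 h4]
      simp
    · have h5 : p o ∈ Metric.cthickening δ K := by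
        refine Metric.mem_cthickening_of_dist_le (p o) z δ K hz ?_
        rw [dist_eq_norm]
        linarith
      have h6 : χ (p o) = 1 := (hχ1 _ h5).self_of_nhds
      rw [h6, one_mul, mul_zpow]
      ring
  rw [h2, h1]

end U3


end

section

/-!
XBD: the pairs at about 120 degrees.
-/

open Complex MeasureTheory Filter Topology Set
open scoped ContDiff

namespace U3

open QE QJ

namespace XBD

lemma norm_ta (σ : ℂ → ℝ) (z w : ℂ) : ‖ta σ z w‖ = 1 := by
  unfold ta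
  exact Complex.norm_exp_ofReal_mul_I _

lemma norm_w3 : ‖w3‖ = 1 := by
  unfold w3
  have h : (2 * Real.pi * Complex.I / 3 : ℂ) = ((2 * Real.pi / 3 : ℝ) : ℂ) * Complex.I := by
    push_cast; ring
  rw [h]
  exact Complex.norm_exp_ofReal_mul_I _

/-- directions at about 120 degrees -/
lemma dir_le {a a' v v' : ℂ} {η κ : ℝ} (ha : ‖a‖ = 1) (ha' : ‖a'‖ = 1) (hv : ‖v‖ = 1)
    (hv' : ‖v'‖ = 1) (h1 : ‖a - 1‖ ≤ κ) (h2 : ‖a' - 1‖ ≤ κ)
    (h : ‖w3 * ((a * v) / (a' * v')) - 1‖ < η) : ‖w3 * v - v'‖ ≤ η + 2 * κ := by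
  have hn1 : a' ≠ 0 := by
    rw [← norm_ne_zero_iff, ha']
    norm_num
  have hn2 : v' ≠ 0 := by
    rw [← norm_ne_zero_iff, hv']
    norm_num
  have e1 : w3 * (a * v) - a' * v' = (w3 * ((a * v) / (a' * v')) - 1) * (a' * v') := by
    field_simp
  have e2 : ‖w3 * (a * v) - a' * v'‖ ≤ η := by
    rw [e1, norm_mul, norm_mul, ha', hv', one_mul, mul_one]
    exact h.le
  have e3 : w3 * v - v' = (w3 * (a * v) - a' * v') - w3 * ((a - 1) * v) + (a' - 1) * v' := by ring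
  rw [e3]
  refine (norm_add_le _ _).trans ?_
  have e4 := norm_sub_le (w3 * (a * v) - a' * v') (w3 * ((a - 1) * v))
  have e5 : ‖w3 * ((a - 1) * v)‖ ≤ κ := by
    rw [norm_mul, norm_mul, norm_w3, hv, one_mul, mul_one]
    exact h1
  have e6 : ‖(a' - 1) * v'‖ ≤ κ := by
    rw [norm_mul, hv', mul_one]
    exact h2
  linarith only [e2, e4, e5, e6]

end XBD

open _root_.U3.XBD in
/-- **XBD** -/
theorem stmtXbd (hKsz : StmtKsz) : StmtXbd := by
  classical
  intro β V σ Ω _ μ p u K hβ hσ hD hK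
  obtain ⟨K1, hK1, hpK1⟩ := hD.cpt
  obtain ⟨C0, hC0, hks⟩ := hKsz β σ (K ∪ K1) hβ hσ (hK.union hK1)
  have hfin : IsFiniteMeasure μ := ⟨lt_top_iff_ne_top.2 hD.fin⟩
  have hpi := Real.pi_pos
  refine ⟨4 * Real.pi * C0 ^ 6, by positivity, ?_⟩
  intro ζ hζc hζ01 hζK O hO hζO η hη b hb hpairs
  have hts : IsCompact (tsupport ζ) := hK.of_isClosed_subset (isClosed_tsupport _) hζK
  obtain ⟨δ, hδ, hδO⟩ := hts.exists_thickening_subset_open hO hζO
  obtain ⟨e1, he1, hp1⟩ := mem_nhdsGT_iff_exists_Ioo_subset.1 hpairs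
  have he1' : 0 < e1 := he1
  have hev : ∀ᶠ ε in 𝓝[>] (0 : ℝ), 0 < ε ∧ 2 * C0 * ε < e1 ∧ C0 * ε < δ ∧ 2 * C0 ^ 2 * ε ≤ η := by
    have h0 : ∀ᶠ ε in 𝓝[>] (0 : ℝ), 0 < ε := eventually_mem_nhdsWithin
    have hc : ∀ c r : ℝ, 0 < c → 0 < r → ∀ᶠ ε in 𝓝[>] (0 : ℝ), c * ε < r := by
      intro c r hc hr
      have h1 : ∀ᶠ ε in 𝓝 (0 : ℝ), c * ε < r := by
        have : Tendsto (fun ε : ℝ => c * ε) (𝓝 0) (𝓝 (c * 0)) :=
          (continuous_const.mul continuous_id).tendsto 0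
        rw [mul_zero] at this
        exact this.eventually (gt_mem_nhds hr)
      exact h1.filter_mono nhdsWithin_le_nhds
    filter_upwards [h0, hc (2 * C0) e1 (by positivity) he1', hc C0 δ hC0 hδ,
      hc (2 * C0 ^ 2) η (by positivity) hη] with ε h1 h2 h3 h4
    exact ⟨h1, h2, h3, h4.le⟩
  filter_upwards [hev] with ε hε
  obtain ⟨h0, h1, h2, h3⟩ := hε
  -- the set of pairs
  set S : Set (Ω × Ω) := {x | p x.1 ∈ O ∧ ‖p x.1 - p x.2‖ ≤ 2 * C0 * ε ∧
    ‖w3 * u x.1 - u x.2‖ ≤ 2 * η} with hSdef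
  have hSm : MeasurableSet S := by
    have m1 : Measurable fun x : Ω × Ω => p x.1 := hD.mp.comp measurable_fst
    have m2 : Measurable fun x : Ω × Ω => p x.2 := hD.mp.comp measurable_snd
    have m3 : Measurable fun x : Ω × Ω => u x.1 := hD.mu.comp measurable_fst
    have m4 : Measurable fun x : Ω × Ω => u x.2 := hD.mu.comp measurable_snd
    exact (m1 hO.measurableSet).inter
      ((measurableSet_le (m1.sub m2).norm measurable_const).inter
        (measurableSet_le ((m3.const_mul w3).sub m4).norm measurable_const))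
  have hSb : (μ.prod μ).real S ≤ b * (2 * C0 * ε) ^ 2 :=
    hp1 (show 2 * C0 * ε ∈ Ioo 0 e1 from ⟨by positivity, h1⟩)
  -- the comparison function
  set c : ℝ := (C0 / ε ^ 2) ^ 2 with hc
  have hc0 : 0 < c := by positivity
  set A : Set (ℂ × (Ω × Ω)) := {y | ‖p y.2.1 - y.1‖ ≤ C0 * ε ∧ y.2 ∈ S} with hAdef
  have hAm : MeasurableSet A := by
    have m1 : Measurable fun y : ℂ × (Ω × Ω) => p y.2.1 :=
      hD.mp.comp (measurable_fst.comp measurable_snd)
    exact (measurableSet_le (m1.sub measurable_fst).norm measurable_const).inter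
      (measurable_snd hSm)
  set g : ℂ × (Ω × Ω) → ℝ := A.indicator (fun _ => c) with hg
  have hgm : Measurable g := measurable_const.indicator hAm
  have hg0 : ∀ y, 0 ≤ g y := fun y => indicator_nonneg (fun _ _ => hc0.le) y
  have hgc : ∀ y, g y ≤ c := fun y => indicator_le_self' (fun _ _ => hc0.le) y
  have hζi : Integrable ζ := hζc.integrable_of_hasCompactSupport hts
  have hGi : Integrable (fun y : ℂ × (Ω × Ω) => ζ y.1 * g y) (volume.prod (μ.prod μ)) := by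
    refine (hζi.comp_fst (μ.prod μ)).mul_bdd (c := c) hgm.aestronglyMeasurable ?_
    filter_upwards with y
    rw [Real.norm_eq_abs, abs_of_nonneg (hg0 y)]
    exact hgc y
  -- the kernel is below the comparison function
  have hae : ∀ᵐ x ∂(μ.prod μ), p x.1 ∈ K1 ∧ p x.2 ∈ K1 :=
    (Measure.quasiMeasurePreserving_fst.ae hpK1).and (Measure.quasiMeasurePreserving_snd.ae hpK1)
  set F : ℂ → Ω × Ω → ℝ := fun z x => ke β σ ε z (p x.1) * ke β σ ε z (p x.2) *
    (if ‖w3 * (((ta σ z (p x.1))⁻¹ * u x.1) / ((ta σ z (p x.2))⁻¹ * u x.2)) - 1‖ < η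
      then 1 else 0) with hF
  have hFle : ∀ z ∈ tsupport ζ, ∀ᵐ x ∂(μ.prod μ), 0 ≤ F z x ∧ F z x ≤ g (z, x) := by
    intro z hz
    filter_upwards [hae] with x hx
    have hzL : z ∈ K ∪ K1 := Or.inl (hζK hz)
    obtain ⟨a1, a2, a3, a4, a5⟩ := hks ε h0 z hzL (p x.1) (Or.inr hx.1)
    obtain ⟨b1, b2, b3, b4, b5⟩ := hks ε h0 z hzL (p x.2) (Or.inr hx.2)
    have hkk : 0 ≤ ke β σ ε z (p x.1) * ke β σ ε z (p x.2) := mul_nonneg a1 b1
    by_cases hcond : ‖w3 * (((ta σ z (p x.1))⁻¹ * u x.1) / ((ta σ z (p x.2))⁻¹ * u x.2)) - 1‖ < η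
    · have eF : F z x = ke β σ ε z (p x.1) * ke β σ ε z (p x.2) := by
        simp only [hF, if_pos hcond, mul_one]
      rw [eF]
      refine ⟨hkk, ?_⟩
      by_cases hz1 : C0 * ε < ‖p x.1 - z‖
      · rw [a3 hz1, zero_mul]
        exact hg0 _
      by_cases hz2 : C0 * ε < ‖p x.2 - z‖
      · rw [b3 hz2, mul_zero]
        exact hg0 _
      rw [not_lt] at hz1 hz2
      have hmem : (z, x) ∈ A := by
        refine ⟨hz1, ?_, ?_, ?_⟩
        · apply hδO
          rw [Metric.mem_thickening_iff]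
          exact ⟨z, hz, by rw [dist_eq_norm]; linarith only [h2, hz1]⟩
        · have e2 : p x.1 - p x.2 = (p x.1 - z) - (p x.2 - z) := by ring
          rw [e2]
          exact (norm_sub_le _ _).trans (by linarith only [hz1, hz2])
        · have n1 : ‖(ta σ z (p x.1))⁻¹‖ = 1 := by rw [norm_inv, norm_ta, inv_one]
          have n2 : ‖(ta σ z (p x.2))⁻¹‖ = 1 := by rw [norm_inv, norm_ta, inv_one]
          have d1 : ‖(ta σ z (p x.1))⁻¹ - 1‖ ≤ C0 ^ 2 * ε :=
            a5.trans (by nlinarith only [hC0, hz1])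
          have d2 : ‖(ta σ z (p x.2))⁻¹ - 1‖ ≤ C0 ^ 2 * ε :=
            b5.trans (by nlinarith only [hC0, hz2])
          have := dir_le n1 n2 (hD.unit x.1) (hD.unit x.2) d1 d2 hcond
          linarith
      have eg : g (z, x) = c := indicator_of_mem hmem _
      rw [eg, hc, sq]
      exact mul_le_mul a2 b2 b1 (by positivity)
    · have eF : F z x = 0 := by
        simp only [hF, if_neg hcond, mul_zero]
      rw [eF]
      exact ⟨le_rfl, hg0 _⟩
  -- slices
  have hslice : ∀ z, Integrable (fun x => g (z, x)) (μ.prod μ) := by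
    intro z
    refine Integrable.of_bound (hgm.comp measurable_prodMk_left).aestronglyMeasurable c ?_
    filter_upwards with x
    rw [Real.norm_eq_abs, abs_of_nonneg (hg0 _)]
    exact hgc _
  have hinner : ∀ z, 0 ≤ ζ z * ∫ x, F z x ∂(μ.prod μ) ∧
      ζ z * ∫ x, F z x ∂(μ.prod μ) ≤ ∫ x, ζ z * g (z, x) ∂(μ.prod μ) := by
    intro z
    by_cases hz : z ∈ tsupport ζ
    · have hf := hFle z hz
      have q1 : 0 ≤ ∫ x, F z x ∂(μ.prod μ) :=
        integral_nonneg_of_ae (hf.mono fun x hx => hx.1)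
      have q2 : ∫ x, F z x ∂(μ.prod μ) ≤ ∫ x, g (z, x) ∂(μ.prod μ) :=
        integral_mono_of_nonneg (hf.mono fun x hx => hx.1) (hslice z) (hf.mono fun x hx => hx.2)
      refine ⟨mul_nonneg (hζ01 z).1 q1, ?_⟩
      rw [integral_const_mul]
      exact mul_le_mul_of_nonneg_left q2 (hζ01 z).1
    · have hz0 : ζ z = 0 := image_eq_zero_of_notMem_tsupport hz
      rw [hz0]
      simp
  have hstep1 : ∫ z, ζ z * ∫ x, F z x ∂(μ.prod μ) ≤
      ∫ z, ∫ x, ζ z * g (z, x) ∂(μ.prod μ) :=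
    integral_mono_of_nonneg (Eventually.of_forall fun z => (hinner z).1)
      hGi.integral_prod_left (Eventually.of_forall fun z => (hinner z).2)
  have hswap : ∫ z, ∫ x, ζ z * g (z, x) ∂(μ.prod μ) =
      ∫ x, (∫ z, ζ z * g (z, x)) ∂(μ.prod μ) :=
    integral_integral_swap (f := fun z x => ζ z * g (z, x)) hGi
  -- the inner integral after the exchange
  have hball : ∀ a : ℂ, volume.real (Metric.closedBall a (C0 * ε)) = Real.pi * (C0 * ε) ^ 2 := by
    intro a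
    unfold Measure.real
    rw [Complex.volume_closedBall, ENNReal.toReal_mul, ENNReal.toReal_pow,
      ENNReal.toReal_ofReal (by positivity), ENNReal.coe_toReal, NNReal.coe_real_pi]
    ring
  have hin2 : ∀ x, 0 ≤ ∫ z, ζ z * g (z, x) ∧
      ∫ z, ζ z * g (z, x) ≤ S.indicator (fun _ => c * (Real.pi * (C0 * ε) ^ 2)) x := by
    intro x
    refine ⟨integral_nonneg fun z => mul_nonneg (hζ01 z).1 (hg0 _), ?_⟩
    by_cases hx : x ∈ S
    · rw [indicator_of_mem hx]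
      set B := Metric.closedBall (p x.1) (C0 * ε) with hB
      have hBfin : volume B ≠ ⊤ := measure_closedBall_lt_top.ne
      have hBi : Integrable (B.indicator fun _ : ℂ => c) :=
        (integrable_indicator_iff measurableSet_closedBall).2 (integrableOn_const hBfin)
      have hle : ∀ z, ζ z * g (z, x) ≤ B.indicator (fun _ => c) z := by
        intro z
        by_cases hzB : z ∈ B
        · rw [indicator_of_mem hzB]
          exact (mul_le_of_le_one_left (hg0 _) (hζ01 z).2).trans (hgc _)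
        · rw [indicator_of_notMem hzB]
          have : (z, x) ∉ A := by
            intro hmem
            apply hzB
            rw [hB, Metric.mem_closedBall, dist_comm, dist_eq_norm]
            exact hmem.1
          have eg : g (z, x) = 0 := indicator_of_notMem this _
          rw [eg, mul_zero]
      have := integral_mono_of_nonneg
        (Eventually.of_forall fun z => mul_nonneg (hζ01 z).1 (hg0 (z, x))) hBi
        (Eventually.of_forall hle)
      refine this.trans (le_of_eq ?_)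
      rw [integral_indicator measurableSet_closedBall, setIntegral_const, smul_eq_mul, hball,
        mul_comm]
    · rw [indicator_of_notMem hx]
      have : ∀ z, ζ z * g (z, x) = 0 := by
        intro z
        have hn : (z, x) ∉ A := fun hmem => hx hmem.2
        have eg : g (z, x) = 0 := indicator_of_notMem hn _
        rw [eg, mul_zero]
      simp [this]
  have hSi : Integrable (S.indicator fun _ => c * (Real.pi * (C0 * ε) ^ 2)) (μ.prod μ) :=
    (integrable_indicator_iff hSm).2 (integrableOn_const (measure_ne_top _ _))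
  have hstep2 : ∫ x, (∫ z, ζ z * g (z, x)) ∂(μ.prod μ) ≤
      (μ.prod μ).real S * (c * (Real.pi * (C0 * ε) ^ 2)) := by
    refine (integral_mono_of_nonneg (Eventually.of_forall fun x => (hin2 x).1) hSi
      (Eventually.of_forall fun x => (hin2 x).2)).trans (le_of_eq ?_)
    rw [integral_indicator hSm, setIntegral_const, smul_eq_mul]
  show ∫ z, ζ z * ∫ x, F z x ∂(μ.prod μ) ≤ 4 * Real.pi * C0 ^ 6 * b
  refine (hstep1.trans (hswap.le.trans hstep2)).trans ?_
  have hfinal : b * (2 * C0 * ε) ^ 2 * (c * (Real.pi * (C0 * ε) ^ 2)) =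
      4 * Real.pi * C0 ^ 6 * b := by
    rw [hc]
    field_simp
    ring
  rw [← hfinal]
  exact mul_le_mul_of_nonneg_right hSb (by positivity)

end U3


end

section

/-!
CUBI: the cubic inequality.
-/

open Complex MeasureTheory Filter Topology Set
open scoped ContDiff

namespace U3

open QE QJ

noncomputable section

namespace CUBI

variable {V : Set ℂ} {σ : ℂ → ℝ} {h : ℕ → ℝ} {φ : ℕ → ℂ → ℂ}

/-! ### The jets -/

lemma smE (L : LocB V σ h φ) (j : ℤ) (n : ℕ) : ContDiff ℝ ∞ (E σ h φ j n) :=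
  (stmtJetC V σ h φ L j).1.smooth n

lemma cE (L : LocB V σ h φ) (j : ℤ) (n : ℕ) : Continuous (E σ h φ j n) := (smE L j n).continuous

lemma conj_E (L : LocB V σ h φ) (j : ℤ) (n : ℕ) (z : ℂ) :
    (starRingEnd ℂ) (E σ h φ j n z) = (-1 : ℂ) ^ j * E σ h φ (-j) n z := by
  obtain ⟨m, rfl | rfl⟩ := j.eq_nat_or_neg
  · have e1 := congrFun (congrFun (JETA.E_neg L m) n) z
    have e2 : E σ h φ (m : ℤ) n z = jet σ h φ m n z := rfl
    rw [e1, e2, zpow_natCast, ← mul_assoc, ← mul_pow]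
    norm_num
  · have e1 := congrFun (congrFun (JETA.E_neg L m) n) z
    have e2 : E σ h φ (m : ℤ) n z = jet σ h φ m n z := rfl
    rw [e1, neg_neg, e2, map_mul, Complex.conj_conj, map_pow, map_neg, map_one, zpow_neg,
      zpow_natCast, ← inv_pow, inv_neg, inv_one]

/-! ### The root of unity -/

lemma w3_ne : w3 ≠ 0 := Complex.exp_ne_zero _

lemma conj_w3 : (starRingEnd ℂ) w3 = w3⁻¹ := by
  unfold w3
  rw [← Complex.exp_conj, ← Complex.exp_neg]
  congr 1
  simp only [map_div₀, map_mul, Complex.conj_ofReal, Complex.conj_I, map_ofNat]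
  ring

lemma w3_sub (j k : ℤ) : w3 ^ (j - k) = w3 ^ j * w3 ^ (-k) := by
  rw [sub_eq_add_neg, zpow_add₀ w3_ne]

lemma norm_w3z (k : ℤ) : ‖w3 ^ k‖ = 1 := by
  rw [norm_zpow, XBD.norm_w3, one_zpow]

lemma neg_one_sq (k : ℤ) : (-1 : ℂ) ^ k * (-1 : ℂ) ^ k = 1 := by
  rw [← mul_zpow]
  norm_num

/-! ### Integrals of sums -/

lemma int_sum {ζ : ℂ → ℂ} (hζ : Test V ζ) {ι : Type} (s : Finset ι) (k : ι → ℂ)
    (f : ι → ℂ → ℂ) (hf : ∀ i, Continuous (f i)) :
    ∫ z, ∑ i ∈ s, k i * (ζ z * f i z) = ∑ i ∈ s, k i * ∫ z, ζ z * f i z := by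
  rw [integral_finsetSum]
  · exact Finset.sum_congr rfl fun i _ => integral_const_mul _ _
  · intro i _
    exact (test_int hζ (hf i)).const_mul _

lemma int_sum2 {ζ : ℂ → ℂ} (hζ : Test V ζ) {ι κ : Type} (s : Finset ι) (t : Finset κ)
    (k : ι → κ → ℂ) (f : ι → κ → ℂ → ℂ) (hf : ∀ i j, Continuous (f i j)) :
    ∫ z, ∑ i ∈ s, ∑ j ∈ t, k i j * (ζ z * f i j z)
      = ∑ i ∈ s, ∑ j ∈ t, k i j * ∫ z, ζ z * f i j z := by
  have h1 := int_sum hζ (s ×ˢ t) (fun p => k p.1 p.2) (fun p => f p.1 p.2)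
    (fun p => hf p.1 p.2)
  simp only [Finset.sum_product] at h1
  exact h1

lemma int_sum3 {ζ : ℂ → ℂ} (hζ : Test V ζ) {ι κ τ : Type} (s : Finset ι) (t : Finset κ)
    (u : Finset τ) (k : ι → κ → τ → ℂ) (f : ι → κ → τ → ℂ → ℂ)
    (hf : ∀ i j l, Continuous (f i j l)) :
    ∫ z, ∑ i ∈ s, ∑ j ∈ t, ∑ l ∈ u, k i j l * (ζ z * f i j l z)
      = ∑ i ∈ s, ∑ j ∈ t, ∑ l ∈ u, k i j l * ∫ z, ζ z * f i j l z := by
  have h1 := int_sum hζ (s ×ˢ (t ×ˢ u)) (fun p => k p.1 p.2.1 p.2.2)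
    (fun p => f p.1 p.2.1 p.2.2) (fun p => hf p.1 p.2.1 p.2.2)
  simp only [Finset.sum_product] at h1
  exact h1

/-! ### The sums -/

/-- the inner sum -/
def X (σ : ℂ → ℝ) (h : ℕ → ℝ) (φ : ℕ → ℂ → ℂ) (M c n : ℕ) (z : ℂ) : ℂ :=
  ∑ b ∈ Finset.range M ×ˢ Finset.range M, w3 ^ ((b.1 : ℤ) + b.2)
    * (E σ h φ (-((b.1 : ℤ) + b.2) - c) n z * E σ h φ (b.1 + b.2) n z)

/-- the sum of the test functions -/
def Y (σ : ℂ → ℝ) (h : ℕ → ℝ) (φ : ℕ → ℂ → ℂ) (J : Finset ℤ) (f : ℤ → ℂ → ℂ) (c n : ℕ)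
    (z : ℂ) : ℂ :=
  ∑ j ∈ J, f j z * E σ h φ (c + j) n z

/-- the outer sum -/
def S (σ : ℂ → ℝ) (h : ℕ → ℝ) (φ : ℕ → ℂ → ℂ) (J : Finset ℤ) (f : ℤ → ℂ → ℂ) (M n : ℕ)
    (z : ℂ) : ℂ :=
  ∑ c ∈ Finset.range M, w3 ^ (-(c : ℤ)) * (Y σ h φ J f c n z * X σ h φ M c n z)

lemma cont_X (L : LocB V σ h φ) (M c n : ℕ) : Continuous (X σ h φ M c n) := by
  unfold X
  exact continuous_finsetSum _ fun b _ => continuous_const.mul ((cE L _ n).mul (cE L _ n))

lemma cont_Y (L : LocB V σ h φ) (J : Finset ℤ) {f : ℤ → ℂ → ℂ} (hf : ∀ j, Continuous (f j))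
    (c n : ℕ) : Continuous (Y σ h φ J f c n) := by
  unfold Y
  exact continuous_finsetSum _ fun j _ => (hf j).mul (cE L _ n)

lemma cont_S (L : LocB V σ h φ) (J : Finset ℤ) {f : ℤ → ℂ → ℂ} (hf : ∀ j, Continuous (f j))
    (M n : ℕ) : Continuous (S σ h φ J f M n) := by
  unfold S
  exact continuous_finsetSum _ fun c _ => continuous_const.mul
    ((cont_Y L J hf c n).mul (cont_X L M c n))

lemma normsq_X (L : LocB V σ h φ) (M c n : ℕ) (z : ℂ) :
    ((‖X σ h φ M c n z‖ ^ 2 : ℝ) : ℂ) = ∑ b ∈ Finset.range M ×ˢ Finset.range M,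
      ∑ b' ∈ Finset.range M ×ˢ Finset.range M,
      w3 ^ (((b.1 : ℤ) + b.2) - (b'.1 + b'.2)) * (-1) ^ c *
        (E σ h φ (-((b.1 : ℤ) + b.2) - c) n z * E σ h φ (b.1 + b.2) n z
          * E σ h φ (b'.1 + b'.2 + c) n z * E σ h φ (-((b'.1 : ℤ) + b'.2)) n z) := by
  have h1 := Complex.mul_conj' (X σ h φ M c n z)
  have h2 : (starRingEnd ℂ) (X σ h φ M c n z) = ∑ b' ∈ Finset.range M ×ˢ Finset.range M,
      w3 ^ (-((b'.1 : ℤ) + b'.2)) * (-1) ^ c * (E σ h φ (b'.1 + b'.2 + c) n z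
        * E σ h φ (-((b'.1 : ℤ) + b'.2)) n z) := by
    unfold X
    rw [map_sum]
    refine Finset.sum_congr rfl fun b _ => ?_
    rw [map_mul, map_mul, conj_E L, conj_E L, map_zpow₀, conj_w3, inv_zpow', neg_sub]
    have e1 : (-1 : ℂ) ^ (-((b.1 : ℤ) + b.2) - c) * (-1 : ℂ) ^ ((b.1 : ℤ) + b.2) = (-1) ^ c := by
      rw [← zpow_add₀ (by norm_num : (-1 : ℂ) ≠ 0),
        show -((b.1 : ℤ) + b.2) - c + ((b.1 : ℤ) + b.2) = -(c : ℤ) by ring,
        zpow_neg, zpow_natCast, ← inv_pow, inv_neg, inv_one]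
    have e2 : (c : ℤ) - -((b.1 : ℤ) + b.2) = (b.1 : ℤ) + b.2 + c := by ring
    rw [e2, ← e1]
    ring
  push_cast
  rw [← h1, h2]
  unfold X
  rw [Finset.sum_mul_sum]
  refine Finset.sum_congr rfl fun b _ => Finset.sum_congr rfl fun b' _ => ?_
  rw [w3_sub ((b.1 : ℤ) + b.2) ((b'.1 : ℤ) + b'.2)]
  ring

lemma normsq_Y (L : LocB V σ h φ) (J : Finset ℤ) (f : ℤ → ℂ → ℂ) (c n : ℕ) (z : ℂ) :
    ((‖Y σ h φ J f c n z‖ ^ 2 : ℝ) : ℂ) = ∑ j ∈ J, ∑ l ∈ J, (-1 : ℂ) ^ ((c : ℤ) + l) *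
      (f j z * (starRingEnd ℂ) (f l z) * (E σ h φ (c + j) n z * E σ h φ (-((c : ℤ) + l)) n z)) := by
  have h1 := Complex.mul_conj' (Y σ h φ J f c n z)
  have h2 : (starRingEnd ℂ) (Y σ h φ J f c n z) = ∑ l ∈ J,
      (-1 : ℂ) ^ ((c : ℤ) + l) * ((starRingEnd ℂ) (f l z) * E σ h φ (-((c : ℤ) + l)) n z) := by
    unfold Y
    rw [map_sum]
    refine Finset.sum_congr rfl fun l _ => ?_
    rw [map_mul, conj_E L]
    ring
  push_cast
  rw [← h1, h2]
  unfold Y
  rw [Finset.sum_mul_sum]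
  refine Finset.sum_congr rfl fun j _ => Finset.sum_congr rfl fun l _ => ?_
  ring

lemma int_S (L : LocB V σ h φ) {ζ : ℂ → ℂ} (hζ : Test V ζ) (J : Finset ℤ) {f : ℤ → ℂ → ℂ}
    (hf : ∀ j, Continuous (f j)) (M n : ℕ) :
    ∫ z, ζ z * S σ h φ J f M n z = ∑ j ∈ J, ∑ c ∈ Finset.range M,
      ∑ b ∈ Finset.range M ×ˢ Finset.range M,
      w3 ^ (((b.1 : ℤ) + b.2) - c) * E3 σ h φ (fun z => ζ z * f j z) (c + j)
        (-((b.1 : ℤ) + b.2) - c) (b.1 + b.2) n := by
  unfold E3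
  have h1 := int_sum3 hζ J (Finset.range M) (Finset.range M ×ˢ Finset.range M)
    (fun _ c b => w3 ^ (((b.1 : ℤ) + b.2) - (c : ℤ)))
    (fun j c b z => f j z * (E σ h φ (c + j) n z * E σ h φ (-((b.1 : ℤ) + b.2) - c) n z
      * E σ h φ (b.1 + b.2) n z))
    (fun j c b => (hf j).mul (((cE L _ n).mul (cE L _ n)).mul (cE L _ n)))
  have h2 : ∀ (j : ℤ) (c : ℕ) (b : ℕ × ℕ), (∫ z, ζ z * f j z * (E σ h φ (c + j) n z
      * E σ h φ (-((b.1 : ℤ) + b.2) - c) n z * E σ h φ (b.1 + b.2) n z))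
      = ∫ z, ζ z * (f j z * (E σ h φ (c + j) n z * E σ h φ (-((b.1 : ℤ) + b.2) - c) n z
      * E σ h φ (b.1 + b.2) n z)) := by
    intro j c b
    refine integral_congr_ae (Filter.Eventually.of_forall fun z => ?_)
    simp only []
    ring
  simp only [h2]
  rw [← h1]
  refine integral_congr_ae (Filter.Eventually.of_forall fun z => ?_)
  show ζ z * S σ h φ J f M n z = _
  unfold S X Y
  simp only [Finset.mul_sum, Finset.sum_mul]
  rw [Finset.sum_comm (s := J) (t := Finset.range M)]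
  refine Finset.sum_congr rfl fun c _ => ?_
  rw [Finset.sum_comm (t := J)]
  refine Finset.sum_congr rfl fun j _ => Finset.sum_congr rfl fun b _ => ?_
  rw [w3_sub ((b.1 : ℤ) + b.2) (c : ℤ)]
  ring

/-! ### The Cauchy-Schwarz inequality -/

lemma two_mul_le {t a b : ℝ} (ht : 0 < t) : 2 * (a * b) ≤ t * a ^ 2 + t⁻¹ * b ^ 2 := by
  have h1 : t * (a - t⁻¹ * b) ^ 2 = t * a ^ 2 + t⁻¹ * b ^ 2 - 2 * (a * b) := by
    field_simp
    ring
  have h2 : 0 ≤ t * (a - t⁻¹ * b) ^ 2 := by positivity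
  linarith

lemma cs_sq {I A B : ℝ} (hI : 0 ≤ I) (hA : 0 ≤ A) (hB : 0 ≤ B)
    (hh : ∀ t : ℝ, 0 < t → 2 * I ≤ t * A + t⁻¹ * B) : I ^ 2 ≤ A * B := by
  have h1 : ∀ x : ℝ, 0 ≤ A * (x * x) + (-(2 * I)) * x + B := by
    intro x
    rcases le_or_gt x 0 with hx | hx
    · have e1 : 0 ≤ A * (x * x) := mul_nonneg hA (mul_self_nonneg x)
      have e2 : 0 ≤ (-(2 * I)) * x := by nlinarith only [hI, hx]
      linarith
    · have e1 := mul_le_mul_of_nonneg_left (hh x hx) hx.le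
      have e2 : x * (x * A + x⁻¹ * B) = A * (x * x) + B := by
        field_simp
      rw [e2] at e1
      linarith
  have h2 := discrim_le_zero h1
  unfold discrim at h2
  linarith only [h2]

lemma main_ineq (L : LocB V σ h φ) {r : ℂ → ℝ} (hζ : Test V (fun z => (r z : ℂ)))
    (hr : ∀ z, 0 ≤ r z) (J : Finset ℤ) {f : ℤ → ℂ → ℂ} (hf : ∀ j, Continuous (f j)) (M n : ℕ) :
    ‖∫ z, (r z : ℂ) * S σ h φ J f M n z‖ ^ 2
      ≤ (∫ z, r z * ∑ c ∈ Finset.range M, ‖Y σ h φ J f c n z‖ ^ 2)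
        * (∫ z, r z * ∑ c ∈ Finset.range M, ‖X σ h φ M c n z‖ ^ 2) := by
  have hrc : Continuous r := Complex.continuous_re.comp hζ.smooth.continuous
  have hrs : HasCompactSupport r := hζ.supp.comp_left (g := Complex.re) Complex.zero_re
  have cY : Continuous fun z => ∑ c ∈ Finset.range M, ‖Y σ h φ J f c n z‖ ^ 2 :=
    continuous_finsetSum _ fun c _ => (cont_Y L J hf c n).norm.pow 2
  have cX : Continuous fun z => ∑ c ∈ Finset.range M, ‖X σ h φ M c n z‖ ^ 2 :=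
    continuous_finsetSum _ fun c _ => (cont_X L M c n).norm.pow 2
  have iY : Integrable fun z => r z * ∑ c ∈ Finset.range M, ‖Y σ h φ J f c n z‖ ^ 2 :=
    (hrc.mul cY).integrable_of_hasCompactSupport hrs.mul_right
  have iX : Integrable fun z => r z * ∑ c ∈ Finset.range M, ‖X σ h φ M c n z‖ ^ 2 :=
    (hrc.mul cX).integrable_of_hasCompactSupport hrs.mul_right
  have iS : Integrable fun z => (r z : ℂ) * S σ h φ J f M n z := test_int hζ (cont_S L J hf M n)
  refine cs_sq (norm_nonneg _)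
    (integral_nonneg fun z => mul_nonneg (hr z) (Finset.sum_nonneg fun c _ => by positivity))
    (integral_nonneg fun z => mul_nonneg (hr z) (Finset.sum_nonneg fun c _ => by positivity)) ?_
  intro t ht
  have hpt : ∀ z, 2 * ‖(r z : ℂ) * S σ h φ J f M n z‖
      ≤ t * (r z * ∑ c ∈ Finset.range M, ‖Y σ h φ J f c n z‖ ^ 2)
        + t⁻¹ * (r z * ∑ c ∈ Finset.range M, ‖X σ h φ M c n z‖ ^ 2) := by
    intro z
    rw [norm_mul, Complex.norm_real, Real.norm_of_nonneg (hr z)]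
    have e1 : 2 * ‖S σ h φ J f M n z‖ ≤ t * ∑ c ∈ Finset.range M, ‖Y σ h φ J f c n z‖ ^ 2
        + t⁻¹ * ∑ c ∈ Finset.range M, ‖X σ h φ M c n z‖ ^ 2 := by
      rw [Finset.mul_sum, Finset.mul_sum, ← Finset.sum_add_distrib]
      have e2 : ‖S σ h φ J f M n z‖ ≤ ∑ c ∈ Finset.range M,
          ‖Y σ h φ J f c n z‖ * ‖X σ h φ M c n z‖ := by
        unfold S
        refine (norm_sum_le _ _).trans (Finset.sum_le_sum fun c _ => ?_)
        rw [norm_mul, norm_w3z, one_mul, norm_mul]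
      calc 2 * ‖S σ h φ J f M n z‖ ≤ 2 * ∑ c ∈ Finset.range M,
          ‖Y σ h φ J f c n z‖ * ‖X σ h φ M c n z‖ := by linarith
        _ = ∑ c ∈ Finset.range M, 2 * (‖Y σ h φ J f c n z‖ * ‖X σ h φ M c n z‖) := by
          rw [Finset.mul_sum]
        _ ≤ _ := Finset.sum_le_sum fun c _ => two_mul_le ht
    have e3 := mul_le_mul_of_nonneg_left e1 (hr z)
    calc 2 * (r z * ‖S σ h φ J f M n z‖) = r z * (2 * ‖S σ h φ J f M n z‖) := by ring
      _ ≤ _ := e3
      _ = _ := by ring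
  have h1 : 2 * ‖∫ z, (r z : ℂ) * S σ h φ J f M n z‖
      ≤ ∫ z, 2 * ‖(r z : ℂ) * S σ h φ J f M n z‖ := by
    rw [integral_const_mul]
    exact mul_le_mul_of_nonneg_left (norm_integral_le_integral_norm _) (by norm_num)
  refine h1.trans ?_
  rw [← integral_const_mul t, ← integral_const_mul t⁻¹,
    ← integral_add (iY.const_mul t) (iX.const_mul t⁻¹)]
  exact integral_mono (iS.norm.const_mul 2) ((iY.const_mul t).add (iX.const_mul t⁻¹)) hpt

/-! ### The limit of the first factor -/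

section meas

variable {Ω : Type} [MeasurableSpace Ω] {μ : Measure Ω} {p u : Ω → ℂ}

lemma lim_Y (L : LocB V σ h φ) (hM : LimM V σ h φ μ p u) {r : ℂ → ℝ}
    (hζ : Test V (fun z => (r z : ℂ))) (J : Finset ℤ) {f : ℤ → ℂ → ℂ}
    (hf : ∀ j, ContDiff ℝ ∞ (f j)) (M : ℕ) :
    Tendsto (fun n => ∫ z, r z * ∑ c ∈ Finset.range M, ‖Y σ h φ J f c n z‖ ^ 2) atTop
      (𝓝 (M * ∫ o, r (p o) * ‖∑ j ∈ J, f j (p o) * u o ^ j‖ ^ 2 ∂μ)) := by
  have hfc : ∀ j l, ContDiff ℝ ∞ fun z => f j z * (starRingEnd ℂ) (f l z) := fun j l =>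
    (hf j).mul (conjCLE.contDiff.comp (hf l))
  have hT : ∀ j l, Test V fun z => (r z : ℂ) * (f j z * (starRingEnd ℂ) (f l z)) := fun j l =>
    test_mul hζ (hfc j l)
  -- the integrals as sums
  have e1 : ∀ n, ((∫ z, r z * ∑ c ∈ Finset.range M, ‖Y σ h φ J f c n z‖ ^ 2 : ℝ) : ℂ)
      = ∑ c ∈ Finset.range M, ∑ j ∈ J, ∑ l ∈ J, (-1 : ℂ) ^ ((c : ℤ) + l) *
        ∫ z, (r z : ℂ) * (f j z * (starRingEnd ℂ) (f l z))
          * (E σ h φ (c + j) n z * E σ h φ (-((c : ℤ) + l)) n z) := by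
    intro n
    have h1 := int_sum3 hζ (Finset.range M) J J (fun c _ l => (-1 : ℂ) ^ ((c : ℤ) + l))
      (fun c j l z => f j z * (starRingEnd ℂ) (f l z)
        * (E σ h φ (c + j) n z * E σ h φ (-((c : ℤ) + l)) n z))
      (fun c j l => (hfc j l).continuous.mul ((cE L _ n).mul (cE L _ n)))
    have h2 : ∀ (c : ℕ) (j l : ℤ), (∫ z, (r z : ℂ) * (f j z * (starRingEnd ℂ) (f l z))
          * (E σ h φ (c + j) n z * E σ h φ (-((c : ℤ) + l)) n z))
        = ∫ z, (r z : ℂ) * (f j z * (starRingEnd ℂ) (f l z)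
          * (E σ h φ (c + j) n z * E σ h φ (-((c : ℤ) + l)) n z)) := by
      intro c j l
      refine integral_congr_ae (Filter.Eventually.of_forall fun z => ?_)
      simp only []
      ring
    simp only [h2]
    rw [← h1, ← integral_complex_ofReal]
    refine integral_congr_ae (Filter.Eventually.of_forall fun z => ?_)
    show ((r z * ∑ c ∈ Finset.range M, ‖Y σ h φ J f c n z‖ ^ 2 : ℝ) : ℂ) = _
    rw [Complex.ofReal_mul, Complex.ofReal_sum, Finset.mul_sum]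
    refine Finset.sum_congr rfl fun c _ => ?_
    rw [normsq_Y L, Finset.mul_sum]
    refine Finset.sum_congr rfl fun j _ => ?_
    rw [Finset.mul_sum]
    refine Finset.sum_congr rfl fun l _ => ?_
    ring
  have e2 : ((M * ∫ o, r (p o) * ‖∑ j ∈ J, f j (p o) * u o ^ j‖ ^ 2 ∂μ : ℝ) : ℂ)
      = ∑ c ∈ Finset.range M, ∑ j ∈ J, ∑ l ∈ J, (-1 : ℂ) ^ ((c : ℤ) + l) *
        ((-1) ^ (-((c : ℤ) + l)) * ∫ o, (r (p o) : ℂ) * (f j (p o) * (starRingEnd ℂ) (f l (p o)))
          * u o ^ ((c : ℤ) + j + -((c : ℤ) + l)) ∂μ) := by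
    have h1 : ∀ c ∈ Finset.range M, (∑ j ∈ J, ∑ l ∈ J, (-1 : ℂ) ^ ((c : ℤ) + l) *
        ((-1) ^ (-((c : ℤ) + l)) * ∫ o, (r (p o) : ℂ) * (f j (p o) * (starRingEnd ℂ) (f l (p o)))
          * u o ^ ((c : ℤ) + j + -((c : ℤ) + l)) ∂μ))
        = ((∫ o, r (p o) * ‖∑ j ∈ J, f j (p o) * u o ^ j‖ ^ 2 ∂μ : ℝ) : ℂ) := by
      intro c _
      have k1 : ∀ j l : ℤ, (-1 : ℂ) ^ ((c : ℤ) + l) *
        ((-1) ^ (-((c : ℤ) + l)) * ∫ o, (r (p o) : ℂ) * (f j (p o) * (starRingEnd ℂ) (f l (p o)))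
          * u o ^ ((c : ℤ) + j + -((c : ℤ) + l)) ∂μ)
          = ∫ o, (r (p o) : ℂ) * (f j (p o) * (starRingEnd ℂ) (f l (p o))) * u o ^ (j - l) ∂μ := by
        intro j l
        rw [← mul_assoc, ← zpow_add₀ (by norm_num : (-1 : ℂ) ≠ 0),
          show (c : ℤ) + l + -((c : ℤ) + l) = 0 by ring, zpow_zero, one_mul,
          show (c : ℤ) + j + -((c : ℤ) + l) = j - l by ring]
      simp only [k1]
      have k2 : ∀ j l : ℤ, Integrable (fun o => (r (p o) : ℂ) * (f j (p o)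
          * (starRingEnd ℂ) (f l (p o))) * u o ^ (j - l)) μ := fun j l =>
        DIR.integ hM.fin hM.mp hM.mu hM.unit (hT j l).smooth.continuous (hT j l).supp (j - l)
      have k3 : ∀ j : ℤ, (∑ l ∈ J, ∫ o, (r (p o) : ℂ) * (f j (p o)
          * (starRingEnd ℂ) (f l (p o))) * u o ^ (j - l) ∂μ)
          = ∫ o, ∑ l ∈ J, (r (p o) : ℂ) * (f j (p o)
          * (starRingEnd ℂ) (f l (p o))) * u o ^ (j - l) ∂μ := fun j =>
        (integral_finsetSum _ fun l _ => k2 j l).symm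
      simp only [k3]
      rw [← integral_finsetSum _ (fun j _ => integrable_finsetSum _ fun l _ => k2 j l),
        ← integral_complex_ofReal]
      refine integral_congr_ae (Filter.Eventually.of_forall fun o => ?_)
      have hu0 : u o ≠ 0 := by
        rw [← norm_ne_zero_iff, hM.unit o]
        norm_num
      have hcu : (starRingEnd ℂ) (u o) = (u o)⁻¹ := by
        have k4 := Complex.mul_conj' (u o)
        rw [hM.unit o] at k4
        field_simp
        rw [mul_comm]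
        simpa using k4
      have k5 := Complex.mul_conj' (∑ j ∈ J, f j (p o) * u o ^ j)
      simp only []
      rw [Complex.ofReal_mul, Complex.ofReal_pow, ← k5, map_sum, Finset.sum_mul_sum,
        Finset.mul_sum]
      refine Finset.sum_congr rfl fun j _ => ?_
      rw [Finset.mul_sum]
      refine Finset.sum_congr rfl fun l _ => ?_
      rw [map_mul, map_zpow₀, hcu, inv_zpow', sub_eq_add_neg, zpow_add₀ hu0]
      ring
    rw [Finset.sum_congr rfl h1, Finset.sum_const, Finset.card_range, nsmul_eq_mul]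
    push_cast
    rfl
  have h1 : Tendsto (fun n => ((∫ z, r z * ∑ c ∈ Finset.range M, ‖Y σ h φ J f c n z‖ ^ 2 : ℝ) : ℂ))
      atTop (𝓝 ((M * ∫ o, r (p o) * ‖∑ j ∈ J, f j (p o) * u o ^ j‖ ^ 2 ∂μ : ℝ) : ℂ)) := by
    simp only [e1]
    rw [e2]
    exact tendsto_finsetSum _ fun c _ => tendsto_finsetSum _ fun j _ => tendsto_finsetSum _
      fun l _ => (hM.lim _ _ _ (hT j l)).const_mul _
  have h2 := (Complex.continuous_re.tendsto _).comp h1
  exact h2

end meas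

/-! ### The bump -/

lemma exists_bump : ∃ β : ℝ → ℝ, Bump β := by
  set β₀ : ℝ → ℝ := fun t => Real.smoothTransition (1 - t) with hβ₀
  have sm : ContDiff ℝ ∞ β₀ := Real.smoothTransition.contDiff.comp (contDiff_const.sub contDiff_id)
  have nn : ∀ t, 0 ≤ β₀ t := fun t => Real.smoothTransition.nonneg _
  have sp : ∀ t, 1 ≤ t → β₀ t = 0 := fun t ht =>
    Real.smoothTransition.zero_of_nonpos (by linarith)
  have hc : Continuous fun z : ℂ => β₀ (‖z‖ ^ 2) := sm.continuous.comp (continuous_norm.pow 2)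
  have hs : HasCompactSupport fun z : ℂ => β₀ (‖z‖ ^ 2) := by
    refine HasCompactSupport.intro (isCompact_closedBall (0 : ℂ) 1) fun z hz => ?_
    rw [Metric.mem_closedBall, dist_zero_right, not_le] at hz
    exact sp _ (by nlinarith only [hz])
  have hp : 0 < ∫ z : ℂ, β₀ (‖z‖ ^ 2) := by
    refine hc.integral_pos_of_hasCompactSupport_nonneg_nonzero hs (fun z => nn _) (x := 0) ?_
    have : β₀ (‖(0 : ℂ)‖ ^ 2) = 1 := by
      rw [hβ₀]
      simp
    simp only [this]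
    norm_num
  refine ⟨fun t => β₀ t / ∫ z : ℂ, β₀ (‖z‖ ^ 2), sm.div_const _, fun t => div_nonneg (nn t) hp.le,
    fun t ht => by rw [sp t ht, zero_div], ?_⟩
  rw [integral_div, div_self hp.ne']

lemma ke_nonneg {β : ℝ → ℝ} (hβ : Bump β) (σ : ℂ → ℝ) (ε : ℝ) (z w : ℂ) : 0 ≤ ke β σ ε z w := by
  unfold ke gb
  have := hβ.nonneg (r2 σ z w / ε ^ 2)
  positivity

/-! ### The kernel at a fixed point -/

section ker

variable {Ω : Type} [MeasurableSpace Ω] {μ : Measure Ω} {κ : Ω → ℝ} {U : Ω → ℂ}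

lemma cont_GM (M : ℕ) : Continuous (GM M) := by
  unfold GM
  exact continuous_finsetSum _ fun b _ => continuous_pow b

lemma cont_FM (M : ℕ) : Continuous (FM M) := by
  unfold FM
  have h1 : Continuous fun t : ℂ => GM M (w3 * t) := (cont_GM M).comp (continuous_const.mul continuous_id)
  have h2 : Continuous fun t : ℂ => GM M ((starRingEnd ℂ) w3 * t) :=
    (cont_GM M).comp (continuous_const.mul continuous_id)
  exact (continuous_const.mul ((h1.pow 2).mul (Complex.continuous_conj.comp (h1.pow 2)))).add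
    (((h1.pow 2).mul (h2.pow 2)).mul (cont_GM M))

lemma quot_meas (hU : Measurable U) : Measurable fun x : Ω × Ω => U x.1 / U x.2 :=
  (hU.comp measurable_fst).div (hU.comp measurable_snd)

lemma quot_norm (hU1 : ∀ o, ‖U o‖ = 1) (x : Ω × Ω) : ‖U x.1 / U x.2‖ = 1 := by
  rw [norm_div, hU1, hU1, div_one]

lemma sq_sub_le {t : ℂ} (ht : ‖t‖ = 1) : ‖t ^ 2 - 1‖ ^ 2 ≤ 4 := by
  have h1 : ‖t ^ 2 - 1‖ ≤ 2 := by
    refine (norm_sub_le _ _).trans ?_
    rw [norm_pow, ht, norm_one]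
    norm_num
  have h2 := norm_nonneg (t ^ 2 - 1)
  nlinarith

lemma int_kk [IsFiniteMeasure μ] (hκ : Integrable κ μ) :
    Integrable (fun x : Ω × Ω => κ x.1 * κ x.2) (μ.prod μ) := hκ.mul_prod hκ

lemma int_sqk [IsFiniteMeasure μ] (hκ : Integrable κ μ) (hU : Measurable U)
    (hU1 : ∀ o, ‖U o‖ = 1) :
    Integrable (fun x : Ω × Ω => κ x.1 * κ x.2 * ‖(U x.1 / U x.2) ^ 2 - 1‖ ^ 2) (μ.prod μ) := by
  refine (int_kk hκ).mul_bdd (c := 4) ?_ (ae_of_all _ fun x => ?_)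
  · exact ((((quot_meas hU).pow_const 2).sub_const 1).norm.pow_const 2).aestronglyMeasurable
  · rw [Real.norm_eq_abs, abs_of_nonneg (by positivity)]
    exact sq_sub_le (quot_norm hU1 x)

lemma meas_ind (hU : Measurable U) (η : ℝ) : Measurable fun x : Ω × Ω =>
    (if ‖w3 * (U x.1 / U x.2) - 1‖ < η then (1 : ℝ) else 0) := by
  refine Measurable.ite ?_ measurable_const measurable_const
  exact measurableSet_lt (((quot_meas hU).const_mul w3).sub_const 1).norm measurable_const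

lemma ind_bd (x : Prop) [Decidable x] : ‖(if x then (1 : ℝ) else 0)‖ ≤ 1 := by
  split_ifs <;> simp

lemma int_ind [IsFiniteMeasure μ] (hκ : Integrable κ μ) (hU : Measurable U) (η : ℝ) :
    Integrable (fun x : Ω × Ω => κ x.1 * κ x.2 *
      (if ‖w3 * (U x.1 / U x.2) - 1‖ < η then (1 : ℝ) else 0)) (μ.prod μ) :=
  (int_kk hκ).mul_bdd (c := 1) (meas_ind hU η).aestronglyMeasurable (ae_of_all _ fun _ => ind_bd _)

lemma ker_bound [IsFiniteMeasure μ] (hκ : Integrable κ μ) (hκ0 : ∀ o, 0 ≤ κ o)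
    (hU : Measurable U) (hU1 : ∀ o, ‖U o‖ = 1) (M : ℕ) {CF η : ℝ}
    (hF : ∀ t : ℂ, ‖t‖ = 1 → ‖FM M t‖ ≤ ‖t ^ 2 - 1‖ ^ 2 *
      (CF * (M : ℝ) ^ 3 + (if ‖w3 * t - 1‖ < η then (M : ℝ) ^ 5 else 0))) :
    ‖∫ x : Ω × Ω, (κ x.1 * κ x.2 : ℝ) * FM M (U x.1 / U x.2) ∂(μ.prod μ)‖ ≤
      CF * (M : ℝ) ^ 3 * (∫ x : Ω × Ω, κ x.1 * κ x.2 * ‖(U x.1 / U x.2) ^ 2 - 1‖ ^ 2 ∂(μ.prod μ))
      + 4 * (M : ℝ) ^ 5 * ∫ x : Ω × Ω, κ x.1 * κ x.2 *
        (if ‖w3 * (U x.1 / U x.2) - 1‖ < η then (1 : ℝ) else 0) ∂(μ.prod μ) := by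
  refine (norm_integral_le_integral_norm _).trans ?_
  have i2 := (int_sqk hκ hU hU1).const_mul (CF * (M : ℝ) ^ 3)
  have i3 := (int_ind hκ hU η).const_mul (4 * (M : ℝ) ^ 5)
  rw [← integral_const_mul, ← integral_const_mul, ← integral_add i2 i3]
  refine integral_mono_of_nonneg (ae_of_all _ fun x => norm_nonneg _) (i2.add i3)
    (ae_of_all _ fun x => ?_)
  simp only []
  have ht := quot_norm hU1 x
  have hk : 0 ≤ κ x.1 * κ x.2 := mul_nonneg (hκ0 _) (hκ0 _)
  rw [norm_mul, Complex.norm_real, Real.norm_of_nonneg hk]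
  have h1 := mul_le_mul_of_nonneg_left (hF _ ht) hk
  refine h1.trans ?_
  show _ ≤ CF * (M : ℝ) ^ 3 * (κ x.1 * κ x.2 * ‖(U x.1 / U x.2) ^ 2 - 1‖ ^ 2)
      + 4 * (M : ℝ) ^ 5 * (κ x.1 * κ x.2 *
        (if ‖w3 * (U x.1 / U x.2) - 1‖ < η then (1 : ℝ) else 0))
  have h2 := sq_sub_le ht
  split_ifs with hc
  · have h3 : κ x.1 * κ x.2 * (M : ℝ) ^ 5 * ‖(U x.1 / U x.2) ^ 2 - 1‖ ^ 2
        ≤ κ x.1 * κ x.2 * (M : ℝ) ^ 5 * 4 := mul_le_mul_of_nonneg_left h2 (by positivity)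
    linarith
  · linarith only []

lemma ker_two [IsFiniteMeasure μ] (hκ : Integrable κ μ) (hU : Measurable U)
    (hU1 : ∀ o, ‖U o‖ = 1) :
    ((∫ x : Ω × Ω, κ x.1 * κ x.2 * ‖(U x.1 / U x.2) ^ 2 - 1‖ ^ 2 ∂(μ.prod μ) : ℝ) : ℂ)
      = 2 * ((∫ o, (κ o : ℂ) * U o ^ (0 : ℤ) ∂μ) * ∫ o, (κ o : ℂ) * U o ^ (0 : ℤ) ∂μ)
        - 2 * ((∫ o, (κ o : ℂ) * U o ^ (2 : ℤ) ∂μ) * ∫ o, (κ o : ℂ) * U o ^ (-2 : ℤ) ∂μ) := by
  have hi : ∀ k : ℤ, Integrable (fun o => (κ o : ℂ) * U o ^ k) μ := by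
    intro k
    refine hκ.ofReal.mul_bdd (c := 1) (hU.pow_const k).aestronglyMeasurable (ae_of_all _ fun o => ?_)
    rw [norm_zpow, hU1, one_zpow]
  have hp : ∀ k l : ℤ, Integrable (fun x : Ω × Ω => ((κ x.1 : ℂ) * U x.1 ^ k)
      * ((κ x.2 : ℂ) * U x.2 ^ l)) (μ.prod μ) := fun k l => (hi k).mul_prod (hi l)
  have hq : ∀ k l : ℤ, ∫ x : Ω × Ω, ((κ x.1 : ℂ) * U x.1 ^ k)
      * ((κ x.2 : ℂ) * U x.2 ^ l) ∂(μ.prod μ)
      = (∫ o, (κ o : ℂ) * U o ^ k ∂μ) * ∫ o, (κ o : ℂ) * U o ^ l ∂μ := fun k l =>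
    integral_prod_mul (fun o => (κ o : ℂ) * U o ^ k) (fun o => (κ o : ℂ) * U o ^ l)
  have e : ∀ x : Ω × Ω, ((κ x.1 * κ x.2 * ‖(U x.1 / U x.2) ^ 2 - 1‖ ^ 2 : ℝ) : ℂ)
      = 2 * (((κ x.1 : ℂ) * U x.1 ^ (0 : ℤ)) * ((κ x.2 : ℂ) * U x.2 ^ (0 : ℤ)))
        - ((κ x.1 : ℂ) * U x.1 ^ (2 : ℤ)) * ((κ x.2 : ℂ) * U x.2 ^ (-2 : ℤ))
        - ((κ x.1 : ℂ) * U x.1 ^ (-2 : ℤ)) * ((κ x.2 : ℂ) * U x.2 ^ (2 : ℤ)) := by
    intro x
    have hne : ∀ o, U o ≠ 0 := fun o => by
      rw [← norm_ne_zero_iff, hU1 o]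
      norm_num
    have hcu : ∀ o, (starRingEnd ℂ) (U o) = (U o)⁻¹ := by
      intro o
      have k4 := Complex.mul_conj' (U o)
      rw [hU1 o] at k4
      have := hne o
      field_simp
      rw [mul_comm]
      simpa using k4
    have k1 := Complex.mul_conj' ((U x.1 / U x.2) ^ 2 - 1)
    rw [Complex.ofReal_mul, Complex.ofReal_mul, Complex.ofReal_pow, ← k1]
    simp only [map_sub, map_pow, map_div₀, hcu, map_one]
    have n1 := hne x.1
    have n2 := hne x.2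
    rw [zpow_zero, zpow_zero, zpow_neg, zpow_neg, show ((2 : ℤ)) = ((2 : ℕ) : ℤ) by norm_num,
      zpow_natCast, zpow_natCast]
    field_simp
    ring
  have i1 : Integrable (fun x : Ω × Ω =>
      2 * (((κ x.1 : ℂ) * U x.1 ^ (0 : ℤ)) * ((κ x.2 : ℂ) * U x.2 ^ (0 : ℤ)))
        - ((κ x.1 : ℂ) * U x.1 ^ (2 : ℤ)) * ((κ x.2 : ℂ) * U x.2 ^ (-2 : ℤ))) (μ.prod μ) :=
    ((hp 0 0).const_mul 2).sub (hp 2 (-2))
  rw [← integral_complex_ofReal]
  simp only [e]
  rw [integral_sub i1 (hp (-2) 2),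
    integral_sub ((hp 0 0).const_mul 2) (hp 2 (-2)), integral_const_mul, hq, hq, hq]
  ring

lemma ker_ind [IsFiniteMeasure μ] (hκ : Integrable κ μ) (hκ0 : ∀ o, 0 ≤ κ o) (hU : Measurable U)
    (η : ℝ) :
    0 ≤ ∫ x : Ω × Ω, κ x.1 * κ x.2 *
        (if ‖w3 * (U x.1 / U x.2) - 1‖ < η then (1 : ℝ) else 0) ∂(μ.prod μ) ∧
    ∫ x : Ω × Ω, κ x.1 * κ x.2 *
        (if ‖w3 * (U x.1 / U x.2) - 1‖ < η then (1 : ℝ) else 0) ∂(μ.prod μ)
      ≤ ‖∫ o, (κ o : ℂ) * U o ^ (0 : ℤ) ∂μ‖ ^ 2 := by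
  have h0 : ∀ x : Ω × Ω, 0 ≤ (if ‖w3 * (U x.1 / U x.2) - 1‖ < η then (1 : ℝ) else 0) := fun x => by
    split_ifs <;> norm_num
  have h1 : ∀ x : Ω × Ω, (if ‖w3 * (U x.1 / U x.2) - 1‖ < η then (1 : ℝ) else 0) ≤ 1 := fun x => by
    split_ifs <;> norm_num
  refine ⟨integral_nonneg fun x => mul_nonneg (mul_nonneg (hκ0 _) (hκ0 _)) (h0 x), ?_⟩
  have e1 : ∫ o, (κ o : ℂ) * U o ^ (0 : ℤ) ∂μ = ((∫ o, κ o ∂μ : ℝ) : ℂ) := by
    rw [← integral_complex_ofReal]
    simp only [zpow_zero, mul_one]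
  have e2 : ‖∫ o, (κ o : ℂ) * U o ^ (0 : ℤ) ∂μ‖ ^ 2 = ∫ x : Ω × Ω, κ x.1 * κ x.2 ∂(μ.prod μ) := by
    rw [e1, Complex.norm_real, Real.norm_of_nonneg (integral_nonneg hκ0), integral_prod_mul]
    ring
  rw [e2]
  refine integral_mono (int_ind hκ hU η) (int_kk hκ) fun x => ?_
  exact mul_le_of_le_one_right (mul_nonneg (hκ0 _) (hκ0 _)) (h1 x)

end ker

/-! ### The Wick terms -/

section wick

variable {Ω : Type} [MeasurableSpace Ω] {μ : Measure Ω} {p u : Ω → ℂ} {β : ℝ → ℝ}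

/-- the odd moments vanish, uniformly in the order -/
lemma odd_zero (hβ : Bump β) (hV : IsOpen V) (hσ : ContDiff ℝ ∞ σ) (hD : DirM V σ μ p u)
    {K : Set ℂ} (hK : IsCompact K) (hKV : K ⊆ V) :
    ∀ᶠ ε in 𝓝[>] (0 : ℝ), ∀ z ∈ K, ∀ k : ℤ, Odd k → pe β σ ε μ p u k z = 0 := by
  obtain ⟨δ, hδ, hδV⟩ := hK.exists_cthickening_subset_open hV hKV
  obtain ⟨χ, hχ, hχ1, -⟩ := QE.exists_cutoff hV hK.cthickening hδV
  obtain ⟨K₀, hK₀, h0⟩ := hD.cpt
  obtain ⟨C, hC, hke⟩ := stmtKsz β σ (K₀ ∪ Metric.cthickening δ K) hβ hσ (hK₀.union hK.cthickening)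
  have hε : ∀ᶠ ε in 𝓝[>] (0 : ℝ), 0 < ε ∧ C * ε < δ := by
    refine (eventually_mem_nhdsWithin).and ?_
    have h1 : Tendsto (fun ε : ℝ => C * ε) (𝓝 0) (𝓝 (C * 0)) :=
      (continuous_const.mul continuous_id).tendsto 0
    rw [mul_zero] at h1
    exact (h1.mono_left nhdsWithin_le_nhds).eventually (gt_mem_nhds hδ)
  filter_upwards [hε] with ε hε z hz k hk
  have hT : Test V (fun w => χ w * ((ke β σ ε z w : ℂ) * (ta σ z w)⁻¹ ^ k)) :=
    hχ.mul hV ((PEO.contDiff_ke hβ hσ ε z).mul (PEO.contDiff_ta hσ k z)).contDiffOn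
  have h1 := hD.odd k hk _ hT
  have h2 : pe β σ ε μ p u k z =
      ∫ o, (χ (p o) * ((ke β σ ε z (p o) : ℂ) * (ta σ z (p o))⁻¹ ^ k)) * u o ^ k ∂μ := by
    unfold pe
    refine integral_congr_ae ?_
    filter_upwards [h0] with o ho
    have hz1 : z ∈ Metric.cthickening δ K := Metric.self_subset_cthickening K hz
    obtain ⟨-, -, h3, -, -⟩ := hke ε hε.1 z (Or.inr hz1) (p o) (Or.inl ho)
    by_cases h4 : C * ε < ‖p o - z‖
    · rw [h3 h4]
      simp
    · have h5 : p o ∈ Metric.cthickening δ K := by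
        refine Metric.mem_cthickening_of_dist_le (p o) z δ K hz ?_
        rw [dist_eq_norm]
        linarith
      have h6 : χ (p o) = 1 := (hχ1 _ h5).self_of_nhds
      rw [h6, one_mul, mul_zpow]
      ring
  rw [h2, h1]

/-- the kernel at a point, as a function on `Ω` -/
def kz (β : ℝ → ℝ) (σ : ℂ → ℝ) (ε : ℝ) (p : Ω → ℂ) (z : ℂ) (o : Ω) : ℝ := ke β σ ε z (p o)

/-- the transported direction -/
def uz (σ : ℂ → ℝ) (p u : Ω → ℂ) (z : ℂ) (o : Ω) : ℂ := (ta σ z (p o))⁻¹ * u o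

lemma cont_ke2 (hβ : Bump β) (hσ : ContDiff ℝ ∞ σ) (ε : ℝ) :
    Continuous fun x : ℂ × ℂ => ke β σ ε x.1 x.2 := by
  have h1 := (PES.contDiff_FK hβ.smooth hσ ε 0).continuous
  have h2 := Complex.continuous_re.comp h1
  refine h2.congr fun x => ?_
  show (PES.FK β σ ε 0 x).re = _
  unfold PES.FK
  rw [zpow_zero, mul_one, Complex.ofReal_re]

lemma cont_ta2 (hσ : ContDiff ℝ ∞ σ) : Continuous fun x : ℂ × ℂ => (ta σ x.1 x.2)⁻¹ := by
  have h4 : Continuous (sg σ) := (PES.contDiff_sg hσ).continuous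
  have h0 : Continuous fun x : ℂ × ℂ => ta σ x.1 x.2 := by
    unfold ta
    refine Complex.continuous_exp.comp (Continuous.mul ?_ continuous_const)
    refine Complex.continuous_ofReal.comp (Complex.continuous_im.comp ?_)
    exact ((h4.comp continuous_fst).add (h4.comp continuous_snd)).mul
      (continuous_snd.sub continuous_fst)
  refine h0.inv₀ fun x => ?_
  rw [← norm_ne_zero_iff, XBD.norm_ta]
  norm_num

lemma kz_int [IsFiniteMeasure μ] (hβ : Bump β) (hσ : ContDiff ℝ ∞ σ) (hp : Measurable p)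
    (hc : ∃ K, IsCompact K ∧ ∀ᵐ o ∂μ, p o ∈ K) (ε : ℝ) (z : ℂ) :
    Integrable (kz β σ ε p z) μ := by
  obtain ⟨K, hK, hpK⟩ := hc
  have h1 : Continuous fun w => ke β σ ε z w :=
    (cont_ke2 hβ hσ ε).comp (f := fun w : ℂ => (z, w)) (continuous_const.prodMk continuous_id)
  obtain ⟨C, hC⟩ := hK.exists_bound_of_continuousOn h1.continuousOn
  refine Integrable.of_bound (h1.measurable.comp hp).aestronglyMeasurable C ?_
  filter_upwards [hpK] with o ho
  exact hC _ ho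

lemma uz_meas (hσ : ContDiff ℝ ∞ σ) (hp : Measurable p) (hu : Measurable u) (z : ℂ) :
    Measurable (uz σ p u z) := by
  have h1 := (cont_ta2 hσ).comp (f := fun w : ℂ => (z, w)) (continuous_const.prodMk continuous_id)
  have h2 : Measurable fun o => (ta σ z (p o))⁻¹ := h1.measurable.comp hp
  unfold uz
  exact h2.mul hu

lemma uz_norm (hu : ∀ o, ‖u o‖ = 1) (z : ℂ) (o : Ω) : ‖uz σ p u z o‖ = 1 := by
  unfold uz
  rw [norm_mul, norm_inv, XBD.norm_ta, hu, inv_one, one_mul]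

/-- the pairs at about 120 degrees, as a function of the point -/
def Xi (β : ℝ → ℝ) (σ : ℂ → ℝ) (ε η : ℝ) (μ : Measure Ω) (p u : Ω → ℂ) (z : ℂ) : ℝ :=
  ∫ x : Ω × Ω, ke β σ ε z (p x.1) * ke β σ ε z (p x.2) *
        (if ‖w3 * (((ta σ z (p x.1))⁻¹ * u x.1) / ((ta σ z (p x.2))⁻¹ * u x.2)) - 1‖ < η
          then 1 else 0) ∂(μ.prod μ)

lemma Xi_meas [IsFiniteMeasure μ] (hβ : Bump β) (hσ : ContDiff ℝ ∞ σ) (hp : Measurable p)
    (hu : Measurable u) (ε η : ℝ) : StronglyMeasurable (Xi β σ ε η μ p u) := by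
  have m1 : Measurable fun y : ℂ × (Ω × Ω) => ke β σ ε y.1 (p y.2.1) :=
    (cont_ke2 hβ hσ ε).measurable.comp
      (measurable_fst.prodMk (hp.comp (measurable_fst.comp measurable_snd)))
  have m2 : Measurable fun y : ℂ × (Ω × Ω) => ke β σ ε y.1 (p y.2.2) :=
    (cont_ke2 hβ hσ ε).measurable.comp
      (measurable_fst.prodMk (hp.comp (measurable_snd.comp measurable_snd)))
  have m3 : Measurable fun y : ℂ × (Ω × Ω) => (ta σ y.1 (p y.2.1))⁻¹ * u y.2.1 :=
    ((cont_ta2 hσ).measurable.comp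
      (measurable_fst.prodMk (hp.comp (measurable_fst.comp measurable_snd)))).mul
      (hu.comp (measurable_fst.comp measurable_snd))
  have m4 : Measurable fun y : ℂ × (Ω × Ω) => (ta σ y.1 (p y.2.2))⁻¹ * u y.2.2 :=
    ((cont_ta2 hσ).measurable.comp
      (measurable_fst.prodMk (hp.comp (measurable_snd.comp measurable_snd)))).mul
      (hu.comp (measurable_snd.comp measurable_snd))
  have m5 : Measurable fun y : ℂ × (Ω × Ω) => (if ‖w3 * (((ta σ y.1 (p y.2.1))⁻¹ * u y.2.1) /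
      ((ta σ y.1 (p y.2.2))⁻¹ * u y.2.2)) - 1‖ < η then (1 : ℝ) else 0) := by
    refine Measurable.ite ?_ measurable_const measurable_const
    exact measurableSet_lt (((m3.div m4).const_mul w3).sub_const 1).norm measurable_const
  have m6 := ((m1.mul m2).mul m5).stronglyMeasurable
  exact m6.integral_prod_right (ν := μ.prod μ)

lemma cont_wkp {P : ℤ → ℂ → ℂ} (hP : ∀ k, Continuous (P k)) (a b c d : ℤ) :
    Continuous (wkp P a b c d) := by
  unfold wkp
  have h : ∀ j k : ℤ, Continuous fun z => P j z * P k z := fun j k => (hP j).mul (hP k)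
  exact ((continuous_const.mul (h _ _)).add (continuous_const.mul (h _ _))).add
    (continuous_const.mul (h _ _))

lemma wick_bound [IsFiniteMeasure μ] (hWks : StmtWks) (hPeS : StmtPeS) (hβ : Bump β)
    (hσ : ContDiff ℝ ∞ σ) (hD : DirM V σ μ p u) {r : ℂ → ℝ} (hζ : Test V (fun z => (r z : ℂ)))
    (hr : ∀ z, 0 ≤ r z) {M : ℕ} (hM6 : 6 ∣ M) (hM0 : 0 < M) {CF η : ℝ} (hCF : 0 ≤ CF)
    (hF : ∀ t : ℂ, ‖t‖ = 1 → ‖FM M t‖ ≤ ‖t ^ 2 - 1‖ ^ 2 *
      (CF * (M : ℝ) ^ 3 + (if ‖w3 * t - 1‖ < η then (M : ℝ) ^ 5 else 0)))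
    {ε : ℝ} (hε : 0 < ε)
    (hodd : ∀ z ∈ tsupport r, ∀ k : ℤ, Odd k → pe β σ ε μ p u k z = 0) :
    ‖∑ c ∈ Finset.range M, ∑ b ∈ Finset.range M ×ˢ Finset.range M,
      ∑ b' ∈ Finset.range M ×ˢ Finset.range M,
        w3 ^ (((b.1 : ℤ) + b.2) - (b'.1 + b'.2)) * (-1) ^ c *
          ∫ z, (r z : ℂ) * wkp (pe β σ ε μ p u) (-((b.1 : ℤ) + b.2) - c) (b.1 + b.2)
            (b'.1 + b'.2 + c) (-((b'.1 : ℤ) + b'.2)) z‖
      ≤ CF * (M : ℝ) ^ 3 * ‖∫ z, (r z : ℂ) * (2 * (pe β σ ε μ p u 0 z * pe β σ ε μ p u 0 z)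
        - 2 * (pe β σ ε μ p u 2 z * pe β σ ε μ p u (-2) z))‖
        + 4 * (M : ℝ) ^ 5 * ∫ z, r z * Xi β σ ε η μ p u z := by
  have hPc : ∀ k, Continuous (pe β σ ε μ p u k) := fun k =>
    (hPeS β V σ Ω μ p u hβ hσ hD ε hε k).1.continuous
  have hrc : Continuous r := Complex.continuous_re.comp hζ.smooth.continuous
  have hrs : HasCompactSupport r := hζ.supp.comp_left (g := Complex.re) Complex.zero_re
  have h1 := int_sum3 hζ (Finset.range M) (Finset.range M ×ˢ Finset.range M)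
    (Finset.range M ×ˢ Finset.range M)
    (fun c b b' => w3 ^ (((b.1 : ℤ) + b.2) - (b'.1 + b'.2)) * (-1) ^ c)
    (fun c b b' z => wkp (pe β σ ε μ p u) (-((b.1 : ℤ) + b.2) - c) (b.1 + b.2)
            (b'.1 + b'.2 + c) (-((b'.1 : ℤ) + b'.2)) z)
    (fun c b b' => cont_wkp hPc _ _ _ _)
  rw [← h1]
  set H : ℂ → ℂ := fun z => 2 * (pe β σ ε μ p u 0 z * pe β σ ε μ p u 0 z)
        - 2 * (pe β σ ε μ p u 2 z * pe β σ ε μ p u (-2) z) with hH
  have hHc : Continuous H := (continuous_const.mul ((hPc 0).mul (hPc 0))).sub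
    (continuous_const.mul ((hPc 2).mul (hPc (-2))))
  have key : ∀ z ∈ tsupport r, ‖∑ c ∈ Finset.range M, ∑ b ∈ Finset.range M ×ˢ Finset.range M,
      ∑ b' ∈ Finset.range M ×ˢ Finset.range M,
        w3 ^ (((b.1 : ℤ) + b.2) - (b'.1 + b'.2)) * (-1) ^ c *
          wkp (pe β σ ε μ p u) (-((b.1 : ℤ) + b.2) - c) (b.1 + b.2)
            (b'.1 + b'.2 + c) (-((b'.1 : ℤ) + b'.2)) z‖
      ≤ CF * (M : ℝ) ^ 3 * (H z).re + 4 * (M : ℝ) ^ 5 * Xi β σ ε η μ p u z := by
    intro z hz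
    have k1 := kz_int (μ := μ) hβ hσ hD.mp hD.cpt ε z
    have k2 := uz_meas hσ hD.mp hD.mu z
    have k3 := uz_norm (σ := σ) (p := p) hD.unit z
    rw [hWks Ω μ (kz β σ ε p z) (uz σ p u z) M (pe β σ ε μ p u) z hD.fin k1 k2 k3
      (fun k => rfl) (hodd z hz) hM6 hM0]
    have k4 := ker_bound k1 (fun o => ke_nonneg hβ σ ε z (p o)) k2 k3 M hF
    have k5 := congrArg Complex.re (ker_two k1 k2 k3)
    rw [Complex.ofReal_re] at k5
    rw [k5] at k4
    exact k4
  have iH : Integrable fun z => r z * (H z).re :=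
    (hrc.mul (Complex.continuous_re.comp hHc)).integrable_of_hasCompactSupport hrs.mul_right
  have hXi : ∀ z, 0 ≤ Xi β σ ε η μ p u z ∧ Xi β σ ε η μ p u z ≤ ‖pe β σ ε μ p u 0 z‖ ^ 2 := fun z =>
    ker_ind (kz_int (μ := μ) hβ hσ hD.mp hD.cpt ε z) (fun o => ke_nonneg hβ σ ε z (p o))
      (uz_meas hσ hD.mp hD.mu z) η
  have iX : Integrable fun z => r z * Xi β σ ε η μ p u z := by
    have i0 : Integrable fun z => r z * ‖pe β σ ε μ p u 0 z‖ ^ 2 :=
      (hrc.mul ((hPc 0).norm.pow 2)).integrable_of_hasCompactSupport hrs.mul_right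
    refine i0.mono' (hrc.measurable.aestronglyMeasurable.mul
      (Xi_meas hβ hσ hD.mp hD.mu ε η).aestronglyMeasurable) (ae_of_all _ fun z => ?_)
    rw [Real.norm_eq_abs, abs_of_nonneg (mul_nonneg (hr z) (hXi z).1)]
    exact mul_le_mul_of_nonneg_left (hXi z).2 (hr z)
  have hpt : ∀ z, ‖∑ c ∈ Finset.range M, ∑ b ∈ Finset.range M ×ˢ Finset.range M,
      ∑ b' ∈ Finset.range M ×ˢ Finset.range M,
        w3 ^ (((b.1 : ℤ) + b.2) - (b'.1 + b'.2)) * (-1) ^ c *
          ((r z : ℂ) * wkp (pe β σ ε μ p u) (-((b.1 : ℤ) + b.2) - c) (b.1 + b.2)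
            (b'.1 + b'.2 + c) (-((b'.1 : ℤ) + b'.2)) z)‖
      ≤ CF * (M : ℝ) ^ 3 * (r z * (H z).re) + 4 * (M : ℝ) ^ 5 * (r z * Xi β σ ε η μ p u z) := by
    intro z
    have e1 : (∑ c ∈ Finset.range M, ∑ b ∈ Finset.range M ×ˢ Finset.range M,
      ∑ b' ∈ Finset.range M ×ˢ Finset.range M,
        w3 ^ (((b.1 : ℤ) + b.2) - (b'.1 + b'.2)) * (-1) ^ c *
          ((r z : ℂ) * wkp (pe β σ ε μ p u) (-((b.1 : ℤ) + b.2) - c) (b.1 + b.2)
            (b'.1 + b'.2 + c) (-((b'.1 : ℤ) + b'.2)) z))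
        = (r z : ℂ) * ∑ c ∈ Finset.range M, ∑ b ∈ Finset.range M ×ˢ Finset.range M,
      ∑ b' ∈ Finset.range M ×ˢ Finset.range M,
        w3 ^ (((b.1 : ℤ) + b.2) - (b'.1 + b'.2)) * (-1) ^ c *
          wkp (pe β σ ε μ p u) (-((b.1 : ℤ) + b.2) - c) (b.1 + b.2)
            (b'.1 + b'.2 + c) (-((b'.1 : ℤ) + b'.2)) z := by
      rw [Finset.mul_sum]
      refine Finset.sum_congr rfl fun c _ => ?_
      rw [Finset.mul_sum]
      refine Finset.sum_congr rfl fun b _ => ?_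
      rw [Finset.mul_sum]
      exact Finset.sum_congr rfl fun b' _ => by ring
    rw [e1, norm_mul, Complex.norm_real, Real.norm_of_nonneg (hr z)]
    by_cases hz : z ∈ tsupport r
    · have := mul_le_mul_of_nonneg_left (key z hz) (hr z)
      linarith
    · have hz0 : r z = 0 := image_eq_zero_of_notMem_tsupport hz
      rw [hz0]
      simp
  refine (norm_integral_le_integral_norm _).trans ?_
  have i2 := iH.const_mul (CF * (M : ℝ) ^ 3)
  have i3 := iX.const_mul (4 * (M : ℝ) ^ 5)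
  have e2 : ∫ z, (CF * (M : ℝ) ^ 3 * (r z * (H z).re)
      + 4 * (M : ℝ) ^ 5 * (r z * Xi β σ ε η μ p u z))
      = CF * (M : ℝ) ^ 3 * (∫ z, r z * (H z).re)
        + 4 * (M : ℝ) ^ 5 * ∫ z, r z * Xi β σ ε η μ p u z := by
    rw [← integral_const_mul, ← integral_const_mul]
    exact integral_add i2 i3
  refine (le_trans (integral_mono_of_nonneg (g := fun z => CF * (M : ℝ) ^ 3 * (r z * (H z).re)
      + 4 * (M : ℝ) ^ 5 * (r z * Xi β σ ε η μ p u z)) (ae_of_all _ fun z => norm_nonneg _)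
      (i2.add i3) (ae_of_all _ hpt)) e2.le).trans ?_
  have e3 : ∫ z, r z * (H z).re = (∫ z, (r z : ℂ) * H z).re := by
    have k1 := integral_re (𝕜 := ℂ) (test_int hζ hHc)
    rw [show (∫ z, (r z : ℂ) * H z).re = RCLike.re (∫ z, (r z : ℂ) * H z) from rfl, ← k1]
    refine integral_congr_ae (Filter.Eventually.of_forall fun z => ?_)
    show r z * (H z).re = ((r z : ℂ) * H z).re
    rw [Complex.re_ofReal_mul]
  have e4 : ∫ z, r z * (H z).re ≤ ‖∫ z, (r z : ℂ) * H z‖ := by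
    rw [e3]
    exact Complex.re_le_norm _
  have e5 : 0 ≤ CF * (M : ℝ) ^ 3 := by positivity
  have e6 := mul_le_mul_of_nonneg_left e4 e5
  linarith

end wick

/-! ### The limits -/

lemma lim_S (hE3s : StmtE3s) (hCls : StmtCls) (L : LocB V σ h φ) {ζ : ℂ → ℂ} (hζ : Test V ζ)
    (J : Finset ℤ) {f : ℤ → ℂ → ℂ} (hf : ∀ j, ContDiff ℝ ∞ (f j)) {M : ℕ} (hM6 : 6 ∣ M)
    (hM0 : 0 < M) :
    Tendsto (fun n => (∫ z, ζ z * S σ h φ J f M n z)
      - (M : ℂ) ^ 3 / 2 * TT σ h φ J (fun j z => ζ z * f j z) n) atTop (𝓝 0) := by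
  have h1 : Tendsto (fun n => ∑ j ∈ J, ∑ c ∈ Finset.range M,
      ∑ b ∈ Finset.range M ×ˢ Finset.range M, w3 ^ (((b.1 : ℤ) + b.2) - c) *
        (E3 σ h φ (fun z => ζ z * f j z) (c + j) (-((b.1 : ℤ) + b.2) - c) (b.1 + b.2) n
          - (if 3 ∣ j then cl3 (-((b.1 : ℤ) + b.2) - c) (b.1 + b.2)
            * E3 σ h φ (fun z => ζ z * f j z) (j / 3) (j / 3) (j / 3) n else 0))) atTop
      (𝓝 (∑ j ∈ J, ∑ c ∈ Finset.range M,
      ∑ b ∈ Finset.range M ×ˢ Finset.range M, w3 ^ (((b.1 : ℤ) + b.2) - c) * 0)) :=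
    tendsto_finsetSum _ fun j _ => tendsto_finsetSum _ fun c _ => tendsto_finsetSum _ fun b _ =>
      (hE3s V σ h φ L _ (test_mul hζ (hf j)) _ _ _ j (by ring)).const_mul _
  simp only [mul_zero, Finset.sum_const_zero] at h1
  refine h1.congr fun n => ?_
  rw [int_S L hζ J (fun j => (hf j).continuous)]
  have h2 : ∀ j : ℤ, (∑ c ∈ Finset.range M, ∑ b ∈ Finset.range M ×ˢ Finset.range M,
      w3 ^ (((b.1 : ℤ) + b.2) - c) * (if 3 ∣ j then cl3 (-((b.1 : ℤ) + b.2) - c) (b.1 + b.2)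
            * E3 σ h φ (fun z => ζ z * f j z) (j / 3) (j / 3) (j / 3) n else 0))
      = (M : ℂ) ^ 3 / 2 * (if 3 ∣ j then E3 σ h φ (fun z => ζ z * f j z) (j / 3) (j / 3) (j / 3) n
        else 0) := by
    intro j
    by_cases hj : 3 ∣ j
    · simp only [if_pos hj]
      rw [← (hCls M hM6 hM0).2, Finset.sum_mul]
      refine Finset.sum_congr rfl fun c _ => ?_
      rw [Finset.sum_mul]
      exact Finset.sum_congr rfl fun b _ => by ring
    · simp only [if_neg hj, mul_zero, Finset.sum_const_zero]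
  unfold TT
  simp only [mul_sub, Finset.sum_sub_distrib]
  rw [Finset.sum_congr rfl fun j _ => h2 j, Finset.mul_sum]

lemma lim_X (hFouB : StmtFouB) (hCls : StmtCls) {Ω : Type} [MeasurableSpace Ω] {μ : Measure Ω}
    {p u : Ω → ℂ} {β : ℝ → ℝ} (hβ : Bump β) (L : LocB V σ h φ) (hM : LimM V σ h φ μ p u)
    {ε : ℕ → ℝ} (hε : ∀ n, 0 < ε n) (hε0 : Tendsto ε atTop (𝓝 0)) {r : ℂ → ℝ}
    (hζ : Test V (fun z => (r z : ℂ))) {M : ℕ} (hM6 : 6 ∣ M) (hM0 : 0 < M) :
    Tendsto (fun n => ((∫ z, r z * ∑ c ∈ Finset.range M, ‖X σ h φ M c n z‖ ^ 2 : ℝ) : ℂ)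
      - ∑ c ∈ Finset.range M, ∑ b ∈ Finset.range M ×ˢ Finset.range M,
        ∑ b' ∈ Finset.range M ×ˢ Finset.range M,
        w3 ^ (((b.1 : ℤ) + b.2) - (b'.1 + b'.2)) * (-1) ^ c *
          ∫ z, (r z : ℂ) * wkp (pe β σ (ε n) μ p u) (-((b.1 : ℤ) + b.2) - c) (b.1 + b.2)
            (b'.1 + b'.2 + c) (-((b'.1 : ℤ) + b'.2)) z) atTop (𝓝 0) := by
  have h1 : Tendsto (fun n => ∑ c ∈ Finset.range M, ∑ b ∈ Finset.range M ×ˢ Finset.range M,
        ∑ b' ∈ Finset.range M ×ˢ Finset.range M,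
        w3 ^ (((b.1 : ℤ) + b.2) - (b'.1 + b'.2)) * (-1) ^ c *
        (E4 σ h φ (fun z => (r z : ℂ)) (-((b.1 : ℤ) + b.2) - c) (b.1 + b.2)
            (b'.1 + b'.2 + c) (-((b'.1 : ℤ) + b'.2)) n
          - ((∫ z, (r z : ℂ) * wkp (pe β σ (ε n) μ p u) (-((b.1 : ℤ) + b.2) - c) (b.1 + b.2)
            (b'.1 + b'.2 + c) (-((b'.1 : ℤ) + b'.2)) z)
            + cl4 (-((b.1 : ℤ) + b.2) - c) (b.1 + b.2) (b'.1 + b'.2 + c) (-((b'.1 : ℤ) + b'.2))
              * (E4 σ h φ (fun z => (r z : ℂ)) 0 0 0 0 n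
                - ∫ z, (r z : ℂ) * wkp (pe β σ (ε n) μ p u) 0 0 0 0 z)))) atTop
      (𝓝 (∑ c ∈ Finset.range M, ∑ b ∈ Finset.range M ×ˢ Finset.range M,
        ∑ b' ∈ Finset.range M ×ˢ Finset.range M,
        w3 ^ (((b.1 : ℤ) + b.2) - (b'.1 + b'.2)) * (-1) ^ c * 0)) :=
    tendsto_finsetSum _ fun c _ => tendsto_finsetSum _ fun b _ => tendsto_finsetSum _ fun b' _ =>
      (hFouB β V σ h φ Ω μ p u ε hβ L hM hε hε0 _ hζ _ _ _ _ (by ring)).const_mul _
  simp only [mul_zero, Finset.sum_const_zero] at h1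
  refine h1.congr fun n => ?_
  have e1 : ((∫ z, r z * ∑ c ∈ Finset.range M, ‖X σ h φ M c n z‖ ^ 2 : ℝ) : ℂ)
      = ∑ c ∈ Finset.range M, ∑ b ∈ Finset.range M ×ˢ Finset.range M,
        ∑ b' ∈ Finset.range M ×ˢ Finset.range M,
        w3 ^ (((b.1 : ℤ) + b.2) - (b'.1 + b'.2)) * (-1) ^ c *
          E4 σ h φ (fun z => (r z : ℂ)) (-((b.1 : ℤ) + b.2) - c) (b.1 + b.2)
            (b'.1 + b'.2 + c) (-((b'.1 : ℤ) + b'.2)) n := by
    unfold E4
    rw [← int_sum3 hζ (Finset.range M) (Finset.range M ×ˢ Finset.range M)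
      (Finset.range M ×ˢ Finset.range M)
      (fun c b b' => w3 ^ (((b.1 : ℤ) + b.2) - (b'.1 + b'.2)) * (-1) ^ c)
      (fun c b b' z => E σ h φ (-((b.1 : ℤ) + b.2) - c) n z * E σ h φ (b.1 + b.2) n z
          * E σ h φ (b'.1 + b'.2 + c) n z * E σ h φ (-((b'.1 : ℤ) + b'.2)) n z)
      (fun c b b' => (((cE L _ n).mul (cE L _ n)).mul (cE L _ n)).mul (cE L _ n)),
      ← integral_complex_ofReal]
    refine integral_congr_ae (Filter.Eventually.of_forall fun z => ?_)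
    show ((r z * ∑ c ∈ Finset.range M, ‖X σ h φ M c n z‖ ^ 2 : ℝ) : ℂ) = _
    rw [Complex.ofReal_mul, Complex.ofReal_sum, Finset.mul_sum]
    refine Finset.sum_congr rfl fun c _ => ?_
    rw [normsq_X L, Finset.mul_sum]
    refine Finset.sum_congr rfl fun b _ => ?_
    rw [Finset.mul_sum]
    exact Finset.sum_congr rfl fun b' _ => by ring
  rw [e1]
  have s1 := (hCls M hM6 hM0).1
  simp only [mul_sub, mul_add, Finset.sum_sub_distrib, Finset.sum_add_distrib, ← mul_assoc,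
    ← Finset.sum_mul]
  rw [s1]
  ring

/-- the choice of the number of terms -/
lemma choose_M {c I δ : ℝ} (hc : 0 ≤ c) (hI : 0 ≤ I) (hδ : 0 < δ) :
    ∃ M : ℕ, 6 ∣ M ∧ 0 < M ∧ 4 * I * c / (M : ℝ) ^ 2 ≤ δ / 2 := by
  obtain ⟨m, hm⟩ := exists_nat_gt (8 * I * c / δ)
  have h0 : 0 ≤ 8 * I * c / δ := by positivity
  have hm0 : (0 : ℝ) < m := lt_of_le_of_lt h0 hm
  have hm1 : 0 < m := by exact_mod_cast hm0
  have hm2 : (1 : ℝ) ≤ m := by exact_mod_cast hm1
  refine ⟨6 * m, ⟨m, rfl⟩, by positivity, ?_⟩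
  rw [div_lt_iff₀ hδ] at hm
  rw [div_le_iff₀ (by positivity)]
  push_cast
  have h1 : (m : ℝ) ≤ (6 * (m : ℝ)) ^ 2 := by nlinarith only [hm2]
  have h2 : δ / 2 * m ≤ δ / 2 * (6 * (m : ℝ)) ^ 2 := mul_le_mul_of_nonneg_left h1 (by positivity)
  linarith

end CUBI

open _root_.U3.CUBI in
/-- **CUBI**: the cubic inequality -/
theorem stmtCubI (hDir : StmtDir) (hE3s : StmtE3s) (hFouB : StmtFouB) (hFir : StmtFir)
    (hWks : StmtWks) (hCls : StmtCls) (hJbd : StmtJbd) (hXbd : StmtXbd) (hPeS : StmtPeS) :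
    StmtCubI := by
  intro V σ h φ Ω _ μ p u L hM K hK hKV
  obtain ⟨β, hβ⟩ := exists_bump
  have hD := hDir V σ h φ Ω μ p u L hM
  have : IsFiniteMeasure μ := ⟨lt_top_iff_ne_top.2 hD.fin⟩
  obtain ⟨CX, hCX, hX⟩ := hXbd β V σ Ω μ p u K hβ L.sm hD hK
  refine ⟨16 * CX, by positivity, ?_⟩
  intro r hζ hr hrK O hO hrO J f hf η hη b hb hpairs δ hδ
  have hr0 : ∀ z, 0 ≤ r z := fun z => (hr z).1
  have hrc : Continuous r := Complex.continuous_re.comp hζ.smooth.continuous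
  -- the angle
  set η' : ℝ := min (η / 2) (1 / 10) with hη'
  have hη0 : 0 < η' := lt_min (by linarith) (by norm_num)
  have hη2 : 2 * η' ≤ η := by
    have := min_le_left (η / 2) (1 / 10)
    linarith
  obtain ⟨CF, hCF, hF⟩ := hFir η' hη0 (min_le_right _ _)
  -- the sequence
  set ε : ℕ → ℝ := fun n => 1 / ((n : ℝ) + 1) with hεdef
  have hε : ∀ n, 0 < ε n := fun n => by
    rw [hεdef]
    positivity
  have hε0 : Tendsto ε atTop (𝓝 0) := tendsto_one_div_add_atTop_nhds_zero_nat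
  have hεr : Tendsto ε atTop (𝓝[>] (0 : ℝ)) :=
    tendsto_nhdsWithin_iff.2 ⟨hε0, Eventually.of_forall hε⟩
  obtain ⟨c0, hc0⟩ := hJbd β V σ Ω μ p u ε hβ L.op L.sm hD hε hε0 _ hζ
  set I : ℝ := ∫ o, r (p o) * ‖∑ j ∈ J, f j (p o) * u o ^ j‖ ^ 2 ∂μ with hI
  have hI0 : 0 ≤ I := integral_nonneg fun o => mul_nonneg (hr0 _) (by (clear * -; positivity))
  set c1 : ℝ := max c0 0 with hc1
  have hc10 : 0 ≤ c1 := le_max_right _ _
  obtain ⟨M, hM6, hM0, hMb⟩ := choose_M (c := CF * c1) (I := I) (by (clear * - hCF; positivity)) hI0 hδ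
  have hM0' : (0 : ℝ) < M := by exact_mod_cast hM0
  -- the pairs
  have hX1 := hX r hrc hr hrK O hO hrO η' hη0 b hb (by
    filter_upwards [hpairs] with e he
    refine le_trans ?_ he
    refine ENNReal.toReal_mono (measure_ne_top _ _) (measure_mono ?_)
    rintro x ⟨h1, h2, h3⟩
    exact ⟨h1, h2, h3.trans hη2⟩)
  have hX2 : ∀ᶠ n in atTop, ∫ z, r z * Xi β σ (ε n) η' μ p u z ≤ CX * b := hεr.eventually hX1
  have hts : IsCompact (tsupport r) := hK.of_isClosed_subset (isClosed_tsupport _) hrK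
  have hodd := hεr.eventually (odd_zero hβ L.op L.sm hD hts (hrK.trans hKV))
  -- the sequences
  set A : ℕ → ℝ := fun n => ∫ z, r z * ∑ c ∈ Finset.range M, ‖Y σ h φ J f c n z‖ ^ 2 with hA
  set B : ℕ → ℝ := fun n => ∫ z, r z * ∑ c ∈ Finset.range M, ‖X σ h φ M c n z‖ ^ 2 with hB
  set G : ℕ → ℂ := fun n => ∑ c ∈ Finset.range M, ∑ b ∈ Finset.range M ×ˢ Finset.range M,
        ∑ b' ∈ Finset.range M ×ˢ Finset.range M,
        w3 ^ (((b.1 : ℤ) + b.2) - (b'.1 + b'.2)) * (-1) ^ c *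
          ∫ z, (r z : ℂ) * wkp (pe β σ (ε n) μ p u) (-((b.1 : ℤ) + b.2) - c) (b.1 + b.2)
            (b'.1 + b'.2 + c) (-((b'.1 : ℤ) + b'.2)) z with hG
  set T : ℕ → ℂ := TT σ h φ J (fun j z => (r z : ℂ) * f j z) with hT
  set e1 : ℕ → ℝ := fun n => ‖(B n : ℂ) - G n‖ with he1
  set e2 : ℕ → ℝ := fun n => ‖(∫ z, (r z : ℂ) * S σ h φ J f M n z) - (M : ℂ) ^ 3 / 2 * T n‖ with he2
  have lA : Tendsto A atTop (𝓝 (M * I)) := lim_Y L hM hζ J hf M
  have lB : Tendsto e1 atTop (𝓝 0) := by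
    have := (lim_X hFouB hCls hβ L hM hε hε0 hζ hM6 hM0).norm
    rw [norm_zero] at this
    exact this
  have lS : Tendsto e2 atTop (𝓝 0) := by
    have := (lim_S hE3s hCls L hζ J hf hM6 hM0).norm
    rw [norm_zero] at this
    exact this
  set D0 : ℝ := CF * (M : ℝ) ^ 3 * c1 + 4 * (M : ℝ) ^ 5 * (CX * b) with hD0
  have hD00 : 0 ≤ D0 := by (clear * - hCF hM0 hCX hb; positivity)
  have hGb : ∀ᶠ n in atTop, ‖G n‖ ≤ D0 := by
    filter_upwards [hX2, hc0, hodd] with n h1 h2 h3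
    have k1 := wick_bound hWks hPeS hβ L.sm hD hζ hr0 hM6 hM0 hCF.le (hF M hM6 hM0) (hε n) h3
    have k2 : ‖∫ z, (r z : ℂ) * (2 * (pe β σ (ε n) μ p u 0 z * pe β σ (ε n) μ p u 0 z)
        - 2 * (pe β σ (ε n) μ p u 2 z * pe β σ (ε n) μ p u (-2) z))‖ ≤ c1 :=
      h2.trans (le_max_left _ _)
    have k3 : 0 ≤ CF * (M : ℝ) ^ 3 := by positivity
    have k4 : 0 ≤ 4 * (M : ℝ) ^ 5 := by positivity
    have k5 := mul_le_mul_of_nonneg_left k2 k3
    have k6 := mul_le_mul_of_nonneg_left h1 k4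
    rw [hD0]
    refine k1.trans ?_
    linarith
  have hA0 : ∀ n, 0 ≤ A n := fun n => integral_nonneg fun z =>
    mul_nonneg (hr0 z) (Finset.sum_nonneg fun c _ => by positivity)
  have hB0 : ∀ n, 0 ≤ B n := fun n => integral_nonneg fun z =>
    mul_nonneg (hr0 z) (Finset.sum_nonneg fun c _ => by positivity)
  -- the comparison sequence
  set g : ℕ → ℝ := fun n => 2 / (M : ℝ) ^ 3 * (Real.sqrt (A n * (D0 + e1 n)) + e2 n) with hg
  have lg : Tendsto g atTop (𝓝 (2 / (M : ℝ) ^ 3 * (Real.sqrt (M * I * (D0 + 0)) + 0))) :=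
    (((lA.mul (lB.const_add D0)).sqrt).add lS).const_mul _
  have lg2 := lg.pow 2
  have hlim : (2 / (M : ℝ) ^ 3 * (Real.sqrt (M * I * (D0 + 0)) + 0)) ^ 2
      ≤ 16 * CX * b * I + δ / 2 := by
    rw [add_zero, add_zero, mul_pow, Real.sq_sqrt (by (clear * - hM0 hI0 hCF hCX hb; positivity))]
    have k1 : (2 / (M : ℝ) ^ 3) ^ 2 * (M * I * D0) = 4 * I * (CF * c1) / (M : ℝ) ^ 2
        + 16 * CX * b * I := by
      rw [hD0]
      field_simp
      ring
    rw [k1]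
    linarith only [hMb]
  have hev : ∀ᶠ n in atTop, g n ^ 2 < 16 * CX * b * I + δ :=
    lg2.eventually (gt_mem_nhds (by linarith only [hδ, hlim]))
  filter_upwards [hev, hGb] with n h1 h2
  have k1 : B n ≤ D0 + e1 n := by
    have m1 : ‖(B n : ℂ)‖ ≤ ‖G n‖ + ‖(B n : ℂ) - G n‖ := by
      have := norm_add_le (G n) ((B n : ℂ) - G n)
      rwa [add_sub_cancel] at this
    rw [Complex.norm_real, Real.norm_of_nonneg (hB0 n)] at m1
    have m2 : e1 n = ‖(B n : ℂ) - G n‖ := rfl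
    linarith
  have k2 : ‖∫ z, (r z : ℂ) * S σ h φ J f M n z‖ ≤ Real.sqrt (A n * (D0 + e1 n)) := by
    refine Real.le_sqrt_of_sq_le ?_
    refine (main_ineq L hζ hr0 J (fun j => (hf j).continuous) M n).trans ?_
    exact mul_le_mul_of_nonneg_left k1 (hA0 n)
  have k3 : ‖(M : ℂ) ^ 3 / 2 * T n‖ ≤ ‖∫ z, (r z : ℂ) * S σ h φ J f M n z‖ + e2 n := by
    have m1 := norm_sub_le (∫ z, (r z : ℂ) * S σ h φ J f M n z)
      ((∫ z, (r z : ℂ) * S σ h φ J f M n z) - (M : ℂ) ^ 3 / 2 * T n)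
    rwa [sub_sub_cancel] at m1
  have k4 : ‖(M : ℂ) ^ 3 / 2 * T n‖ = (M : ℝ) ^ 3 / 2 * ‖T n‖ := by
    rw [norm_mul, norm_div, norm_pow, Complex.norm_natCast]
    norm_num
  have k5 : ‖T n‖ ≤ g n := by
    rw [k4] at k3
    have m1 : (M : ℝ) ^ 3 / 2 * ‖T n‖ ≤ Real.sqrt (A n * (D0 + e1 n)) + e2 n := by linarith only [k2, k3]
    have m2 : ‖T n‖ = 2 / (M : ℝ) ^ 3 * ((M : ℝ) ^ 3 / 2 * ‖T n‖) := by
      field_simp
    rw [m2]
    exact mul_le_mul_of_nonneg_left m1 (by positivity)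
  have k6 : ‖T n‖ ^ 2 ≤ g n ^ 2 := pow_le_pow_left₀ (norm_nonneg _) k5 2
  have k7 : 16 * CX * b * (∫ o, r (p o) * ‖∑ j ∈ J, f j (p o) * u o ^ j‖ ^ 2 ∂μ)
      = 16 * CX * b * I := rfl
  rw [k7]
  linarith only [h1, k6]

end

end U3


end

section

/-!
Cubic statistics at distinct points: the translation relations (REL).
-/

open MeasureTheory Filter Topology Set
open scoped ContDiff

namespace QJ

open QE

noncomputable section

namespace REL

variable {V : Set ℂ} {σ : ℂ → ℝ} {h : ℕ → ℝ} {φ : ℕ → ℂ → ℂ}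

/-! ### Conjugation -/

lemma conj_E (L : Loc V σ h φ) (j : ℤ) (n : ℕ) (z : ℂ) :
    (starRingEnd ℂ) (E σ h φ j n z) = (-1) ^ j * E σ h φ (-j) n z := by
  obtain ⟨m, rfl | rfl⟩ := j.eq_nat_or_neg
  · rw [JETA.E_nat, JETA.E_neg L m, zpow_natCast, ← mul_assoc, ← mul_pow]
    norm_num
  · rw [JETA.E_neg L m, neg_neg, JETA.E_nat, zpow_neg, zpow_natCast]
    simp only [map_mul, map_pow, map_neg, map_one, Complex.conj_conj]
    rw [← inv_pow]
    norm_num

/-! ### The chain rule -/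

lemma fderiv_eq (f : ℂ → ℂ) (p u : ℂ) :
    fderiv ℝ f p u = dz f p * u + dzb f p * (starRingEnd ℂ) u := by
  have h1 : u = (u.re : ℝ) • (1 : ℂ) + (u.im : ℝ) • Complex.I := by
    apply Complex.ext <;> simp
  have h2 : fderiv ℝ f p u = u.re • fderiv ℝ f p 1 + u.im • fderiv ℝ f p Complex.I := by
    conv_lhs => rw [h1]
    rw [map_add, map_smul, map_smul]
  rw [h2]
  have h3 : u = (u.re : ℂ) + (u.im : ℂ) * Complex.I := (Complex.re_add_im u).symm
  have h4 : (starRingEnd ℂ) u = (u.re : ℂ) - (u.im : ℂ) * Complex.I := by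
    apply Complex.ext <;> simp
  rw [h4]
  nth_rewrite 3 [h3]
  unfold dz dzb
  simp only [Complex.real_smul]
  linear_combination ((u.im : ℂ) * fderiv ℝ f p Complex.I) * Complex.I_sq

lemma dz_comp_disp {f η : ℂ → ℂ} (hf : ContDiff ℝ ∞ f) (hη : ContDiff ℝ ∞ η)
    (hr : ∀ z, (starRingEnd ℂ) (η z) = η z) (y z : ℂ) :
    dz (fun w => f (w + η w * y)) z =
      dz f (z + η z * y) * (1 + dz η z * y) +
        dzb f (z + η z * y) * (dz η z * (starRingEnd ℂ) y) := by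
  have hd : HasFDerivAt (fun w => w + η w * y)
      (ContinuousLinearMap.id ℝ ℂ + (fderiv ℝ η z).smulRight y) z := by
    have h1 := (hasFDerivAt_id (𝕜 := ℝ) z).add ((cd_at hη z).hasFDerivAt.smul_const y)
    exact h1
  have hc : HasFDerivAt (fun w => f (w + η w * y))
      ((fderiv ℝ f (z + η z * y)).comp
        (ContinuousLinearMap.id ℝ ℂ + (fderiv ℝ η z).smulRight y)) z :=
    HasFDerivAt.comp z (cd_at hf (z + η z * y)).hasFDerivAt hd
  have hv : ∀ v : ℂ, fderiv ℝ (fun w => f (w + η w * y)) z v =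
      dz f (z + η z * y) * (v + fderiv ℝ η z v * y) +
        dzb f (z + η z * y) * ((starRingEnd ℂ) v + fderiv ℝ η z v * (starRingEnd ℂ) y) := by
    intro v
    rw [hc.fderiv]
    have h1 : ((fderiv ℝ f (z + η z * y)).comp
        (ContinuousLinearMap.id ℝ ℂ + (fderiv ℝ η z).smulRight y)) v =
        fderiv ℝ f (z + η z * y) (v + fderiv ℝ η z v * y) := rfl
    rw [h1, fderiv_eq]
    have h2 : (starRingEnd ℂ) (fderiv ℝ η z v) = fderiv ℝ η z v := by
      have h3 := fderiv_conj (cd_at hη z) v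
      have h4 : (fun w => (starRingEnd ℂ) (η w)) = η := funext hr
      rw [h4] at h3
      exact h3.symm
    rw [map_add, map_mul, h2]
  have e1 : dz (fun w => f (w + η w * y)) z = (1 / 2) *
      (fderiv ℝ (fun w => f (w + η w * y)) z 1 -
        Complex.I * fderiv ℝ (fun w => f (w + η w * y)) z Complex.I) := rfl
  rw [e1, hv, hv]
  have e2 : dz η z = (1 / 2) * (fderiv ℝ η z 1 - Complex.I * fderiv ℝ η z Complex.I) := rfl
  rw [e2, map_one (starRingEnd ℂ), Complex.conj_I]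
  linear_combination (-(1 / 2) * dz f (z + η z * y) + (1 / 2) * dzb f (z + η z * y)) *
    Complex.I_sq

/-! ### The derivative of a displaced jet -/

lemma Aj_fun (σ : ℂ → ℝ) (h : ℕ → ℝ) (n : ℕ) (z : ℂ) :
    ((h n * Real.exp (-σ z) : ℝ) : ℂ) = (h n : ℂ) * ex σ (-1) z := by
  unfold ex
  push_cast
  ring_nf

lemma dz_sm (hσ : ContDiff ℝ ∞ σ) (c z : ℂ) :
    dz (fun w => c * ex σ (-1) w) z =
      -(c * (dz (fun w => (σ w : ℂ)) z * ex σ (-1) z)) := by
  rw [dz_const_mul c (cd_at (contDiff_ex hσ _) z), dz_ex hσ]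
  push_cast
  ring

/-- the displaced point -/
def dp (σ : ℂ → ℝ) (h : ℕ → ℝ) (n : ℕ) (y z : ℂ) : ℂ := z + (h n : ℂ) * ex σ (-1) z * y

lemma contDiff_dp (hσ : ContDiff ℝ ∞ σ) (n : ℕ) (y : ℂ) : ContDiff ℝ ∞ (dp σ h n y) :=
  contDiff_id.add ((contDiff_const.mul (contDiff_ex hσ _)).mul contDiff_const)

/-- the coefficient of the derivative of the jet coming from the connection -/
def Bc (σ : ℂ → ℝ) (h : ℕ → ℝ) (φ : ℕ → ℂ → ℂ) (j : ℤ) (n : ℕ) (z : ℂ) : ℂ :=
  2 * j * ex σ (-1) z * dz (fun w => (σ w : ℂ)) z * E σ h φ j n z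

lemma step (hσ : ContDiff ℝ ∞ σ) {j : ℤ} {n : ℕ} {a : ℂ} (hE : ContDiff ℝ ∞ (E σ h φ j n))
    (y z : ℂ)
    (hA : (h n : ℂ) * D σ j (E σ h φ j n) (dp σ h n y z) =
      E σ h φ (j + 1) n (dp σ h n y z) + (h n : ℂ) ^ 2 * a) :
    2 * (h n : ℂ) * ex σ (-1) z * dz (fun w => E σ h φ j n (dp σ h n y w)) z =
      E σ h φ (j + 1) n (dp σ h n y z) + ((h n : ℂ) ^ 2 * a +
        (h n : ℂ) * Bc σ h φ j n (dp σ h n y z) +
        2 * (ex σ (-1) z - ex σ (-1) (dp σ h n y z)) *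
          ((h n : ℂ) * dz (E σ h φ j n) (dp σ h n y z)) -
        2 * (h n : ℂ) * (ex σ (-1) z * ex σ (-1) z * dz (fun w => (σ w : ℂ)) z) *
          (y * ((h n : ℂ) * dz (E σ h φ j n) (dp σ h n y z)) +
            (starRingEnd ℂ) y * ((h n : ℂ) * dzb (E σ h φ j n) (dp σ h n y z)))) := by
  have h1 := dz_comp_disp hE (η := fun w => (h n : ℂ) * ex σ (-1) w)
    (contDiff_const.mul (contDiff_ex hσ _))
    (fun w => by simp only [map_mul, Complex.conj_ofReal, conj_ex]) y z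
  rw [dz_sm hσ] at h1
  have h2 : (fun w => E σ h φ j n (dp σ h n y w)) =
      fun w => E σ h φ j n (w + (h n : ℂ) * ex σ (-1) w * y) := rfl
  rw [h2, h1]
  rw [D_eq hσ j (cd_at hE _)] at hA
  unfold Bc dp at *
  linear_combination hA

/-! ### Domination of the displaced functions -/

lemma disp (hDsp : StmtDsp) (L : Loc V σ h φ) {K : Set ℂ} (hK : IsCompact K) (hKV : K ⊆ V)
    (R : ℝ) {ι : Type} (s : Finset ι) (u : ι → ℕ → ℂ → ℂ) (hu : ∀ i ∈ s, Bq V h φ 1 (u i)) :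
    ∃ (S : ℕ → ℂ → ℝ) (c : ℝ), 0 ≤ c ∧ (∀ n z, 1 ≤ S n z) ∧ (∀ n, Continuous (S n)) ∧
      (∀ᶠ n in atTop, ∀ z ∈ K, ∀ y : ℂ, ‖y‖ ≤ R → z + h n * y ∈ V ∧
        ∀ i ∈ s, ‖u i n (z + h n * y)‖ ≤ c * √(S n z)) ∧
      Tendsto (fun n => h n * ∫ z in K, S n z ^ 2) atTop (𝓝 0) := by
  obtain ⟨δ, hδ, hδV⟩ := hK.exists_cthickening_subset_open L.op hKV
  have hK' : IsCompact (Metric.cthickening δ K) := hK.cthickening
  choose! N C hC0 hC using fun i (hi : i ∈ s) => (hu i hi).pos hK' hδV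
  obtain ⟨S, hS1, hSc, hS, hlim⟩ := hDsp V σ h φ L K hK hKV (s.sup N) R
  have hCs : ∀ i ∈ s, C i ≤ ∑ k ∈ s, C k := fun i hi =>
    Finset.single_le_sum (f := C) (fun k hk => (hC0 k hk).le) hi
  have hC0' : 0 ≤ ∑ k ∈ s, C k := Finset.sum_nonneg fun k hk => (hC0 k hk).le
  refine ⟨S, √(∑ k ∈ s, C k), Real.sqrt_nonneg _, hS1, hSc, ?_, hlim⟩
  have e1 : ∀ᶠ n in atTop, ∀ i ∈ s, ∀ z ∈ Metric.cthickening δ K,
      ‖u i n z‖ ^ 2 ≤ C i * RR h φ (s.sup N) n z ^ 1 := by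
    rw [Filter.eventually_all_finset]
    intro i hi
    exact hC i hi _ (Finset.le_sup hi)
  have e2 : ∀ᶠ n in atTop, h n * |R| < δ := by
    have h1 : Tendsto (fun n => h n * |R|) atTop (𝓝 (0 * |R|)) := L.hlim.mul_const _
    rw [zero_mul] at h1
    exact h1.eventually (gt_mem_nhds hδ)
  filter_upwards [hS, e1, e2] with n h1 h2 h3 z hz y hy
  obtain ⟨h4, h5⟩ := h1 z hz y hy
  refine ⟨h4, fun i hi => ?_⟩
  have hmem : z + h n * y ∈ Metric.cthickening δ K := by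
    refine Metric.mem_cthickening_of_dist_le _ z δ K hz ?_
    rw [dist_eq_norm, add_sub_cancel_left, norm_mul, Complex.norm_real,
      Real.norm_of_nonneg (L.hpos n).le]
    have : h n * ‖y‖ ≤ h n * |R| :=
      mul_le_mul_of_nonneg_left (hy.trans (le_abs_self R)) (L.hpos n).le
    linarith
  have h6 := h2 i hi _ hmem
  rw [pow_one] at h6
  have h7 : ‖u i n (z + h n * y)‖ ^ 2 ≤ (∑ k ∈ s, C k) * S n z := by
    refine h6.trans ?_
    exact mul_le_mul (hCs i hi) h5 (RR_pos h φ _ n _).le hC0'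
  rw [← Real.sqrt_mul hC0']
  exact Real.le_sqrt_of_sq_le h7

lemma lip_ex (hσ : ContDiff ℝ ∞ σ) {K : Set ℂ} (hK : IsCompact K) (R : ℝ) :
    ∃ Λ : ℝ, 0 ≤ Λ ∧ ∀ z ∈ K, ∀ v : ℂ, ‖v‖ ≤ R →
      ‖ex σ (-1) z - ex σ (-1) (z + v)‖ ≤ Λ * ‖v‖ := by
  obtain ⟨ρ, hρ⟩ := hK.isBounded.subset_closedBall (0 : ℂ)
  have hcc : IsCompact (Metric.closedBall (0 : ℂ) (ρ + |R|)) := isCompact_closedBall _ _
  have hcont : Continuous (fderiv ℝ (ex σ (-1))) :=
    (contDiff_ex hσ (-1)).continuous_fderiv (by simp)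
  obtain ⟨Λ, hΛ⟩ := hcc.exists_bound_of_continuousOn hcont.continuousOn
  refine ⟨max Λ 0, le_max_right _ _, fun z hz v hv => ?_⟩
  have hz1 : ‖z‖ ≤ ρ := by simpa using hρ hz
  have hz2 : z ∈ Metric.closedBall (0 : ℂ) (ρ + |R|) := by
    rw [mem_closedBall_zero_iff]
    have := abs_nonneg R
    linarith
  have hz3 : z + v ∈ Metric.closedBall (0 : ℂ) (ρ + |R|) := by
    rw [mem_closedBall_zero_iff]
    have := norm_add_le z v
    have := le_abs_self R
    linarith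
  have h1 := (convex_closedBall (0 : ℂ) (ρ + |R|)).norm_image_sub_le_of_norm_fderiv_le (𝕜 := ℝ)
    (f := ex σ (-1)) (C := max Λ 0) (fun x _ => cd_at (contDiff_ex hσ _) x)
    (fun x hx => (hΛ x hx).trans (le_max_left _ _)) hz3 hz2
  rw [sub_add_cancel_left, norm_neg] at h1
  exact h1

/-! ### The pointwise estimate -/

lemma dz_prod {r : ℕ} (G : Fin r → ℂ → ℂ) (hG : ∀ k, ContDiff ℝ ∞ (G k)) (z : ℂ) :
    dz (fun w => ∏ k, G k w) z = ∑ i, dz (G i) z * ∏ k ∈ Finset.univ.erase i, G k z := by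
  have h1 := HasFDerivAt.finsetProd (u := Finset.univ) (g := G)
    (g' := fun i => fderiv ℝ (G i) z) (x := z) (fun i _ => (cd_at (hG i) z).hasFDerivAt)
  have h2 : dz (fun w => ∏ k, G k w) z = (1 / 2) * (fderiv ℝ (fun w => ∏ k, G k w) z 1 -
      Complex.I * fderiv ℝ (fun w => ∏ k, G k w) z Complex.I) := rfl
  rw [h2, h1.fderiv]
  simp only [sum_apply, smul_apply, smul_eq_mul]
  rw [Finset.mul_sum, ← Finset.sum_sub_distrib, Finset.mul_sum]
  refine Finset.sum_congr rfl fun i _ => ?_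
  unfold dz
  ring

lemma step_le (hσ : ContDiff ℝ ∞ σ) {j : ℤ} {n : ℕ} {a : ℂ} (hE : ContDiff ℝ ∞ (E σ h φ j n))
    {y z : ℂ} {b M P X Λ : ℝ} (_hb : 0 ≤ b) (hM : 0 ≤ M) (hP : 0 ≤ P) (hX : 0 ≤ X) (hΛ : 0 ≤ Λ)
    (hh0 : 0 ≤ h n) (hh1 : h n ≤ 1)
    (hA : (h n : ℂ) * D σ j (E σ h φ j n) (dp σ h n y z) =
      E σ h φ (j + 1) n (dp σ h n y z) + (h n : ℂ) ^ 2 * a)
    (ha : ‖a‖ ≤ b) (hB : ‖Bc σ h φ j n (dp σ h n y z)‖ ≤ b)
    (hu : ‖(h n : ℂ) * dz (E σ h φ j n) (dp σ h n y z)‖ ≤ b)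
    (hv : ‖(h n : ℂ) * dzb (E σ h φ j n) (dp σ h n y z)‖ ≤ b)
    (hMz : ‖ex σ (-1) z‖ ≤ M) (hPz : ‖dz (fun w => (σ w : ℂ)) z‖ ≤ P) (hy : ‖y‖ ≤ X)
    (hL : ‖ex σ (-1) z - ex σ (-1) (dp σ h n y z)‖ ≤ Λ * (h n * (M * X))) :
    ‖2 * (h n : ℂ) * ex σ (-1) z * dz (fun w => E σ h φ j n (dp σ h n y w)) z -
      E σ h φ (j + 1) n (dp σ h n y z)‖ ≤
      h n * ((2 + 2 * Λ * M * X + 4 * M ^ 2 * P * X) * b) := by
  rw [step hσ hE y z hA, add_sub_cancel_left]
  have hn : ‖(h n : ℂ)‖ = h n := by rw [Complex.norm_real, Real.norm_of_nonneg hh0]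
  have t1 : ‖(h n : ℂ) ^ 2 * a‖ ≤ h n * b := by
    rw [norm_mul, norm_pow, hn]
    have : h n ^ 2 ≤ h n := by nlinarith only [hh0, hh1]
    exact mul_le_mul this ha (norm_nonneg _) hh0
  have t2 : ‖(h n : ℂ) * Bc σ h φ j n (dp σ h n y z)‖ ≤ h n * b := by
    rw [norm_mul, hn]
    exact mul_le_mul_of_nonneg_left hB hh0
  have t3 : ‖2 * (ex σ (-1) z - ex σ (-1) (dp σ h n y z)) *
      ((h n : ℂ) * dz (E σ h φ j n) (dp σ h n y z))‖ ≤ h n * (2 * Λ * M * X * b) := by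
    rw [norm_mul, norm_mul, Complex.norm_ofNat]
    have : 2 * ‖ex σ (-1) z - ex σ (-1) (dp σ h n y z)‖ ≤ 2 * (Λ * (h n * (M * X))) := by
      linarith
    calc 2 * ‖ex σ (-1) z - ex σ (-1) (dp σ h n y z)‖ *
          ‖(h n : ℂ) * dz (E σ h φ j n) (dp σ h n y z)‖
        ≤ 2 * (Λ * (h n * (M * X))) * b := mul_le_mul this hu (norm_nonneg _) (by positivity)
      _ = h n * (2 * Λ * M * X * b) := by ring
  have t4 : ‖2 * (h n : ℂ) * (ex σ (-1) z * ex σ (-1) z * dz (fun w => (σ w : ℂ)) z) *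
      (y * ((h n : ℂ) * dz (E σ h φ j n) (dp σ h n y z)) +
        (starRingEnd ℂ) y * ((h n : ℂ) * dzb (E σ h φ j n) (dp σ h n y z)))‖ ≤
      h n * (4 * M ^ 2 * P * X * b) := by
    have s1 : ‖ex σ (-1) z * ex σ (-1) z * dz (fun w => (σ w : ℂ)) z‖ ≤ M * M * P := by
      rw [norm_mul, norm_mul]
      gcongr
    have s2 : ‖y * ((h n : ℂ) * dz (E σ h φ j n) (dp σ h n y z)) +
        (starRingEnd ℂ) y * ((h n : ℂ) * dzb (E σ h φ j n) (dp σ h n y z))‖ ≤
        X * b + X * b := by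
      refine (norm_add_le _ _).trans (add_le_add ?_ ?_)
      · rw [norm_mul]
        exact mul_le_mul hy hu (norm_nonneg _) hX
      · rw [norm_mul, RCLike.norm_conj]
        exact mul_le_mul hy hv (norm_nonneg _) hX
    rw [norm_mul, norm_mul, norm_mul, Complex.norm_ofNat, hn]
    calc 2 * h n * ‖ex σ (-1) z * ex σ (-1) z * dz (fun w => (σ w : ℂ)) z‖ *
          ‖y * ((h n : ℂ) * dz (E σ h φ j n) (dp σ h n y z)) +
            (starRingEnd ℂ) y * ((h n : ℂ) * dzb (E σ h φ j n) (dp σ h n y z))‖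
        ≤ 2 * h n * (M * M * P) * (X * b + X * b) := by
          refine mul_le_mul ?_ s2 (norm_nonneg _) (by positivity)
          exact mul_le_mul_of_nonneg_left s1 (by positivity)
      _ = h n * (4 * M ^ 2 * P * X * b) := by ring
  refine (norm_sub_le _ _).trans ?_
  refine (add_le_add (norm_add₃_le) t4).trans ?_
  linarith only [t1, t2, t3]

/-- the product estimate: `T i` is close to `e i` and everything is bounded by `b` -/
lemma prod_le {r : ℕ} (hr : r ≤ 4) (T e g : Fin r → ℂ) (ζ ζ' : ℂ) {b c₁ η Z Z' : ℝ} (hb : 1 ≤ b)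
    (hη : 0 ≤ η) (hc₁ : 0 ≤ c₁) (hZ : ‖ζ‖ ≤ Z) (hZ' : ‖ζ'‖ ≤ Z')
    (hg : ∀ k, ‖g k‖ ≤ b) (hT : ∀ k, ‖T k - e k‖ ≤ η * (c₁ * b)) :
    ‖(∑ i, ζ * (e i * ∏ k ∈ Finset.univ.erase i, g k)) -
      (2 * (η : ℂ) * ζ' * (∏ k, g k) + ∑ i, ζ * (T i * ∏ k ∈ Finset.univ.erase i, g k))‖ ≤
      η * ((2 * Z' + 4 * Z * c₁) * b ^ 4) := by
  have hZ0 : 0 ≤ Z := (norm_nonneg _).trans hZ
  have hZ0' : 0 ≤ Z' := (norm_nonneg _).trans hZ'
  have hb0 : 0 ≤ b := by linarith
  have h1 : (∑ i, ζ * (e i * ∏ k ∈ Finset.univ.erase i, g k)) -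
      (2 * (η : ℂ) * ζ' * (∏ k, g k) + ∑ i, ζ * (T i * ∏ k ∈ Finset.univ.erase i, g k)) =
      -(2 * (η : ℂ) * ζ' * (∏ k, g k)) -
        ∑ i, ζ * ((T i - e i) * ∏ k ∈ Finset.univ.erase i, g k) := by
    have h2 : ∑ i, ζ * ((T i - e i) * ∏ k ∈ Finset.univ.erase i, g k) =
        (∑ i, ζ * (T i * ∏ k ∈ Finset.univ.erase i, g k)) -
          ∑ i, ζ * (e i * ∏ k ∈ Finset.univ.erase i, g k) := by
      rw [← Finset.sum_sub_distrib]
      exact Finset.sum_congr rfl fun i _ => by ring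
    rw [h2]
    ring
  rw [h1]
  have hprod : ∀ s : Finset (Fin r), ‖∏ k ∈ s, g k‖ ≤ b ^ s.card := by
    intro s
    rw [norm_prod]
    exact (Finset.prod_le_prod (fun _ _ => norm_nonneg _) fun k _ => hg k).trans_eq
      (Finset.prod_const b)
  have t1 : ‖2 * (η : ℂ) * ζ' * (∏ k, g k)‖ ≤ η * (2 * Z' * b ^ 4) := by
    rw [norm_mul, norm_mul, norm_mul, Complex.norm_ofNat, Complex.norm_real,
      Real.norm_of_nonneg hη]
    have h3 : ‖∏ k, g k‖ ≤ b ^ 4 := (hprod Finset.univ).trans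
      (pow_le_pow_right₀ hb (by rw [Finset.card_univ, Fintype.card_fin]; exact hr))
    calc 2 * η * ‖ζ'‖ * ‖∏ k, g k‖ ≤ 2 * η * Z' * b ^ 4 := by gcongr
      _ = η * (2 * Z' * b ^ 4) := by ring
  have t2 : ‖∑ i, ζ * ((T i - e i) * ∏ k ∈ Finset.univ.erase i, g k)‖ ≤
      η * (4 * Z * c₁ * b ^ 4) := by
    have h4 : ∀ i : Fin r, ‖ζ * ((T i - e i) * ∏ k ∈ Finset.univ.erase i, g k)‖ ≤
        η * (Z * c₁ * b ^ 4) := by
      intro i
      have hr1 : 1 ≤ r := by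
        have := i.2
        omega
      have h5 : (Finset.univ.erase i).card = r - 1 := by
        rw [Finset.card_erase_of_mem (Finset.mem_univ i), Finset.card_univ, Fintype.card_fin]
      have h6 := hprod (Finset.univ.erase i)
      rw [h5] at h6
      rw [norm_mul, norm_mul]
      calc ‖ζ‖ * (‖T i - e i‖ * ‖∏ k ∈ Finset.univ.erase i, g k‖)
          ≤ Z * (η * (c₁ * b) * b ^ (r - 1)) := by
            gcongr
            exact hT i
        _ = η * (Z * c₁ * b ^ r) := by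
            have : b ^ r = b * b ^ (r - 1) := by
              rw [← pow_succ']
              congr 1
              omega
            rw [this]
            ring
        _ ≤ η * (Z * c₁ * b ^ 4) := by
            (clear * - hb hr hZ0 hc₁ hη; gcongr)
    refine (norm_sum_le _ _).trans ((Finset.sum_le_sum fun i _ => h4 i).trans ?_)
    rw [Finset.sum_const, Finset.card_univ, Fintype.card_fin, nsmul_eq_mul]
    have h7 : (r : ℝ) ≤ 4 := by exact_mod_cast hr
    have h8 : 0 ≤ η * (Z * c₁ * b ^ 4) := by positivity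
    nlinarith
  refine (norm_sub_le _ _).trans ?_
  rw [norm_neg]
  linarith only [t1, t2]

/-- a continuous function is bounded on a compact set by a nonnegative constant -/
lemma bd_on {f : ℂ → ℂ} (hf : Continuous f) {K : Set ℂ} (hK : IsCompact K) :
    ∃ M : ℝ, 0 ≤ M ∧ ∀ z ∈ K, ‖f z‖ ≤ M := by
  obtain ⟨M, hM⟩ := hK.exists_bound_of_continuousOn hf.continuousOn
  exact ⟨max M 0, le_max_right _ _, fun z hz => (hM z hz).trans (le_max_left _ _)⟩

lemma prod_single {r : ℕ} (j : Fin r → ℤ) (n : ℕ) (p : Fin r → ℂ) (i : Fin r) :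
    ∏ k, E σ h φ ((j + Pi.single i 1 : Fin r → ℤ) k) n (p k) =
      E σ h φ (j i + 1) n (p i) * ∏ k ∈ Finset.univ.erase i, E σ h φ (j k) n (p k) := by
  rw [← Finset.mul_prod_erase _ _ (Finset.mem_univ i)]
  congr 1
  · simp
  · refine Finset.prod_congr rfl fun k hk => ?_
    have hki : k ≠ i := Finset.ne_of_mem_erase hk
    simp [hki]

lemma plus (hDsp : StmtDsp) (hJ : StmtJetA) (L : Loc V σ h φ) {ζ : ℂ → ℂ} (hζ : Test V ζ)
    {r : ℕ} (x : Fin r → ℂ) (j : Fin r → ℤ) (hr : r ≤ 4) {ε : ℝ} (hε : 0 < ε) :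
    ∀ᶠ n in atTop, ∀ l : ℂ, ‖l‖ ≤ 1 → ‖∑ i, Aj σ h φ ζ x (j + Pi.single i 1) n l‖ ≤ ε := by
  have hσ := L.sm
  have hE : ∀ (k : ℤ) (n : ℕ), ContDiff ℝ ∞ (E σ h φ k n) := fun k n =>
    (hJ V σ h φ L k).1.smooth n
  choose A hAd hA using fun i => (hJ V σ h φ L (j i)).2.1
  have hs := contDiff_sig hσ
  -- the family of dominated functions
  set u : Fin r × Fin 5 → ℕ → ℂ → ℂ := fun p =>
    (![E σ h φ (j p.1), A p.1, Bc σ h φ (j p.1),
      fun n z => (h n : ℂ) * dz (E σ h φ (j p.1) n) z,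
      fun n z => (h n : ℂ) * dzb (E σ h φ (j p.1) n) z] : Fin 5 → ℕ → ℂ → ℂ) p.2 with hu
  have huB : ∀ p ∈ (Finset.univ : Finset (Fin r × Fin 5)), Bq V h φ 1 (u p) := by
    rintro ⟨i, k⟩ -
    have d0 := (hJ V σ h φ L (j i)).1
    fin_cases k
    · exact d0.bq
    · exact (hAd i).bq
    · have := d0.bq.fn_mul (b := fun z => 2 * (j i : ℂ) * ex σ (-1) z *
        dz (fun w => (σ w : ℂ)) z)
        (((continuous_const.mul (contDiff_ex hσ _).continuous).mul
          (contDiff_dz hs).continuous).continuousOn)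
      exact this
    · exact d0.hdz.bq
    · exact d0.hdzb.bq
  have hK : IsCompact (tsupport ζ) := hζ.supp
  obtain ⟨M, hM, hMz⟩ := bd_on (contDiff_ex hσ (-1)).continuous hK
  obtain ⟨P, hP, hPz⟩ := bd_on (contDiff_dz hs).continuous hK
  obtain ⟨Z, hZ, hZz⟩ := bd_on hζ.smooth.continuous hK
  obtain ⟨Z', hZ', hZz'⟩ := bd_on
    (contDiff_dz ((contDiff_ex hσ (-1)).mul hζ.smooth)).continuous hK
  set X : ℝ := ∑ i, ‖x i‖ with hX
  have hX0 : 0 ≤ X := Finset.sum_nonneg fun i _ => norm_nonneg _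
  have hxX : ∀ (i : Fin r) (l : ℂ), ‖l‖ ≤ 1 → ‖l * x i‖ ≤ X := by
    intro i l hl
    rw [norm_mul]
    have h1 : ‖x i‖ ≤ X :=
      Finset.single_le_sum (f := fun i => ‖x i‖) (fun _ _ => norm_nonneg _) (Finset.mem_univ i)
    nlinarith [norm_nonneg (x i), norm_nonneg l]
  obtain ⟨Λ, hΛ, hLip⟩ := lip_ex hσ hK (M * X)
  obtain ⟨S, c, hc, hS1, hSc, hS, hlim⟩ := disp hDsp L hK hζ.sub (M * X) Finset.univ u huB
  set c₁ : ℝ := 2 + 2 * Λ * M * X + 4 * M ^ 2 * P * X with hc₁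
  have hc₁0 : 0 ≤ c₁ := by (clear * - hΛ hM hP; positivity)
  set C : ℝ := (2 * Z' + 4 * Z * c₁) * (max c 1) ^ 4 with hC
  have hC0 : 0 ≤ C := by (clear * - hZ' hZ hΛ hM hP; positivity)
  have e1 : ∀ᶠ n in atTop, h n < 1 := L.hlim.eventually (gt_mem_nhds one_pos)
  have e2 : ∀ᶠ n in atTop, C * (h n * ∫ z in tsupport ζ, S n z ^ 2) < ε := by
    have h1 := hlim.const_mul C
    rw [mul_zero] at h1
    exact h1.eventually (gt_mem_nhds hε)
  filter_upwards [hS, e1, e2] with n h1 h2 h3 l hl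
  have hh0 : 0 ≤ h n := (L.hpos n).le
  -- abbreviations
  have hdp : ∀ k, ContDiff ℝ ∞ (dp σ h n (l * x k)) := fun k => contDiff_dp hσ n _
  set G : Fin r → ℂ → ℂ := fun k z => E σ h φ (j k) n (dp σ h n (l * x k) z) with hG
  have hGs : ∀ k, ContDiff ℝ ∞ (G k) := fun k => (hE (j k) n).comp (hdp k)
  set e : Fin r → ℂ → ℂ := fun k z => E σ h φ (j k + 1) n (dp σ h n (l * x k) z) with he
  have hes : ∀ k, ContDiff ℝ ∞ (e k) := fun k => (hE (j k + 1) n).comp (hdp k)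
  have hprodc : ∀ s : Finset (Fin r), ContDiff ℝ ∞ fun z => ∏ k ∈ s, G k z := fun s =>
    contDiff_prod fun k _ => hGs k
  -- the integrals
  have hAj : ∀ i, Aj σ h φ ζ x (j + Pi.single i 1) n l =
      ∫ z, ζ z * (e i z * ∏ k ∈ Finset.univ.erase i, G k z) := by
    intro i
    unfold Aj
    refine integral_congr_ae (Filter.Eventually.of_forall fun z => ?_)
    have h4 : ∏ k, E σ h φ ((j + Pi.single i 1 : Fin r → ℤ) k) n
        (z + ((h n * Real.exp (-σ z) : ℝ) : ℂ) * (l * x k)) =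
        ∏ k, E σ h φ ((j + Pi.single i 1 : Fin r → ℤ) k) n (dp σ h n (l * x k) z) := by
      refine Finset.prod_congr rfl fun k _ => ?_
      rw [Aj_fun]
      rfl
    show ζ z * ∏ k, E σ h φ ((j + Pi.single i 1 : Fin r → ℤ) k) n
        (z + ((h n * Real.exp (-σ z) : ℝ) : ℂ) * (l * x k)) = _
    rw [h4, prod_single]
  have hint : ∀ i, Integrable fun z => ζ z * (e i z * ∏ k ∈ Finset.univ.erase i, G k z) :=
    fun i => test_int hζ ((hes i).mul (hprodc _)).continuous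
  have hsum : ∑ i, Aj σ h φ ζ x (j + Pi.single i 1) n l =
      ∫ z, ∑ i, ζ z * (e i z * ∏ k ∈ Finset.univ.erase i, G k z) := by
    rw [integral_finsetSum _ fun i _ => hint i]
    exact Finset.sum_congr rfl fun i _ => hAj i
  -- the total derivative
  have hexζ : ContDiff ℝ ∞ fun w => ex σ (-1) w * ζ w := (contDiff_ex hσ _).mul hζ.smooth
  set H : ℂ → ℂ := fun z => 2 * (h n : ℂ) * ((ex σ (-1) z * ζ z) * ∏ k, G k z) with hH
  have hHs : ContDiff ℝ ∞ H := contDiff_const.mul (hexζ.mul (hprodc _))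
  have hHc : HasCompactSupport H := (hζ.supp.mul_left.mul_right).mul_left
  have hH0 := integral_dz_eq_zero hHs hHc
  have hdH : ∀ z, dz H z = 2 * (h n : ℂ) * dz (fun w => ex σ (-1) w * ζ w) z * (∏ k, G k z) +
      ∑ i, ζ z * ((2 * (h n : ℂ) * ex σ (-1) z * dz (G i) z) *
        ∏ k ∈ Finset.univ.erase i, G k z) := by
    intro z
    have h5 : dz H z = 2 * (h n : ℂ) * dz (fun w => (ex σ (-1) w * ζ w) * ∏ k, G k w) z :=
      dz_const_mul _ (cd_at (hexζ.mul (hprodc _)) z)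
    rw [h5, dz_mul (cd_at hexζ z) (cd_at (hprodc _) z), dz_prod G hGs, mul_add, Finset.mul_sum,
      Finset.mul_sum]
    congr 1
    · ring
    · exact Finset.sum_congr rfl fun i _ => by ring
  have hHi : Integrable (dz H) :=
    (contDiff_dz hHs).continuous.integrable_of_hasCompactSupport hHc.dz
  have hsi : Integrable fun z => ∑ i, ζ z * (e i z * ∏ k ∈ Finset.univ.erase i, G k z) :=
    integrable_finsetSum _ fun i _ => hint i
  have hdiff : ∑ i, Aj σ h φ ζ x (j + Pi.single i 1) n l =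
      ∫ z, ((∑ i, ζ z * (e i z * ∏ k ∈ Finset.univ.erase i, G k z)) - dz H z) := by
    rw [integral_sub hsi hHi, hH0, sub_zero, hsum]
  rw [hdiff]
  -- the estimate
  have hzero : ∀ z, z ∉ tsupport ζ →
      (∑ i, ζ z * (e i z * ∏ k ∈ Finset.univ.erase i, G k z)) - dz H z = 0 := by
    intro z hz
    have h6 : ζ z = 0 := image_eq_zero_of_notMem_tsupport hz
    have h7 : dz (fun w => ex σ (-1) w * ζ w) z = 0 := by
      have h8 : ζ =ᶠ[𝓝 z] fun _ => 0 := notMem_tsupport_iff_eventuallyEq.mp hz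
      have h9 : (fun w => ex σ (-1) w * ζ w) =ᶠ[𝓝 z] fun _ => 0 := by
        filter_upwards [h8] with w hw
        rw [hw, mul_zero]
      rw [dz_congr h9, dz_const]
    rw [hdH, h6, h7]
    simp
  have hbound : ∀ z ∈ tsupport ζ,
      ‖(∑ i, ζ z * (e i z * ∏ k ∈ Finset.univ.erase i, G k z)) - dz H z‖ ≤
        C * (h n * S n z ^ 2) := by
    intro z hz
    have hy : ∀ k, ‖ex σ (-1) z * (l * x k)‖ ≤ M * X := by
      intro k
      rw [norm_mul]
      exact mul_le_mul (hMz z hz) (hxX k l hl) (norm_nonneg _) hM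
    have hdpe : ∀ k, z + (h n : ℂ) * (ex σ (-1) z * (l * x k)) = dp σ h n (l * x k) z := by
      intro k
      unfold dp
      ring
    have hs1 : 1 ≤ √(S n z) := Real.one_le_sqrt.2 (hS1 n z)
    set b : ℝ := max c 1 * √(S n z) with hb
    have hb1 : 1 ≤ b := by
      have : 1 ≤ max c 1 := le_max_right _ _
      nlinarith only [hs1, this]
    have hcb : c * √(S n z) ≤ b := mul_le_mul_of_nonneg_right (le_max_left _ _) (by positivity)
    have hub : ∀ p, ‖u p n (dp σ h n (l * x p.1) z)‖ ≤ b := by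
      intro p
      have h10 := (h1 z hz _ (hy p.1)).2 p (Finset.mem_univ _)
      rw [hdpe] at h10
      exact h10.trans hcb
    have hVd : ∀ k, dp σ h n (l * x k) z ∈ V := by
      intro k
      have h10 := (h1 z hz _ (hy k)).1
      rwa [hdpe] at h10
    rw [hdH]
    have h11 := prod_le hr (fun i => 2 * (h n : ℂ) * ex σ (-1) z * dz (G i) z) (fun i => e i z)
      (fun i => G i z) (ζ z) (dz (fun w => ex σ (-1) w * ζ w) z) hb1 hh0 hc₁0 (hZz z hz)
      (hZz' z hz) (fun k => hub (k, 0)) (fun k => ?_)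
    · refine h11.trans_eq ?_
      rw [hC, hb, mul_pow]
      have h12 : √(S n z) ^ 4 = S n z ^ 2 := by
        rw [show (4 : ℕ) = 2 * 2 by norm_num, pow_mul, Real.sq_sqrt (by linarith [hS1 n z])]
      rw [h12]
      ring
    · refine step_le hσ (hE (j k) n) (by linarith) hM hP hX0 hΛ hh0 h2.le
        (hA k n _ (hVd k)) (hub (k, 1)) (hub (k, 2)) (hub (k, 3)) (hub (k, 4)) (hMz z hz)
        (hPz z hz) (hxX k l hl) ?_
      have hv : ‖(h n : ℂ) * (ex σ (-1) z * (l * x k))‖ ≤ h n * (M * X) := by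
        rw [norm_mul, Complex.norm_real, Real.norm_of_nonneg hh0]
        exact mul_le_mul_of_nonneg_left (hy k) hh0
      have hv1 : ‖(h n : ℂ) * (ex σ (-1) z * (l * x k))‖ ≤ M * X := by
        refine hv.trans ?_
        have : 0 ≤ M * X := by positivity
        nlinarith only [h2, this]
      have h13 := hLip z hz _ hv1
      rw [hdpe] at h13
      exact h13.trans (mul_le_mul_of_nonneg_left hv hΛ)
  have hfin : ‖∫ z, ((∑ i, ζ z * (e i z * ∏ k ∈ Finset.univ.erase i, G k z)) - dz H z)‖ ≤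
      C * (h n * ∫ z in tsupport ζ, S n z ^ 2) := by
    refine (norm_integral_le_integral_norm _).trans ?_
    have h14 : ∫ z, ‖(∑ i, ζ z * (e i z * ∏ k ∈ Finset.univ.erase i, G k z)) - dz H z‖ =
        ∫ z in tsupport ζ,
          ‖(∑ i, ζ z * (e i z * ∏ k ∈ Finset.univ.erase i, G k z)) - dz H z‖ := by
      refine (setIntegral_eq_integral_of_forall_compl_eq_zero fun z hz => ?_).symm
      rw [hzero z hz, norm_zero]
    rw [h14, ← integral_const_mul, ← integral_const_mul]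
    refine setIntegral_mono_on (hsi.sub hHi).norm.integrableOn ?_ hK.measurableSet hbound
    have : Continuous fun z => C * (h n * S n z ^ 2) :=
      continuous_const.mul (continuous_const.mul ((hSc n).pow 2))
    exact this.continuousOn.integrableOn_compact hK
  linarith

/-- conjugation exchanges the two relations -/
lemma conj_Aj (L : Loc V σ h φ) (ζ : ℂ → ℂ) {r : ℕ} (x : Fin r → ℂ) (j : Fin r → ℤ) (n : ℕ)
    (l : ℂ) : (starRingEnd ℂ) (Aj σ h φ ζ x j n l) =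
      (-1) ^ (∑ i, j i) * Aj σ h φ (fun z => (starRingEnd ℂ) (ζ z)) x (-j) n l := by
  unfold Aj
  rw [← integral_conj, ← integral_const_mul]
  refine integral_congr_ae (Filter.Eventually.of_forall fun z => ?_)
  simp only [map_mul, map_prod]
  have h1 : ∏ i, (starRingEnd ℂ) (E σ h φ (j i) n
      (z + ((h n * Real.exp (-σ z) : ℝ) : ℂ) * (l * x i))) =
      (∏ i, (-1 : ℂ) ^ (j i)) * ∏ i, E σ h φ ((-j) i) n
        (z + ((h n * Real.exp (-σ z) : ℝ) : ℂ) * (l * x i)) := by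
    rw [← Finset.prod_mul_distrib]
    exact Finset.prod_congr rfl fun i _ => conj_E L _ n _
  have h2 : ∏ i, (-1 : ℂ) ^ (j i) = (-1) ^ (∑ i, j i) := by
    have h3 : ∀ s : Finset (Fin r), ∏ i ∈ s, (-1 : ℂ) ^ (j i) = (-1) ^ (∑ i ∈ s, j i) := by
      intro s
      induction s using Finset.induction_on with
      | empty => simp
      | insert a s ha ih =>
        rw [Finset.prod_insert ha, Finset.sum_insert ha, ih, zpow_add₀ (by norm_num)]
    exact h3 _
  push_cast at h1 ⊢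
  rw [h1, h2]
  ring

end REL

open _root_.QJ.REL in
theorem stmtRel (hDsp : StmtDsp) (hJetA : StmtJetA) : StmtRel := by
  intro V σ h φ L ζ hζ r x j hr ε hε
  filter_upwards [plus hDsp hJetA L hζ x j hr hε,
    plus hDsp hJetA L hζ.conj x (-j) hr hε] with n h1 h2 l hl
  refine ⟨h1 l hl, ?_⟩
  have h3 : ∀ i : Fin r, (starRingEnd ℂ) (Aj σ h φ ζ x (j - Pi.single i 1) n l) =
      (-1) ^ ((∑ i, j i) - 1) *
        Aj σ h φ (fun z => (starRingEnd ℂ) (ζ z)) x (-j + Pi.single i 1) n l := by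
    intro i
    rw [conj_Aj L]
    have h4 : ∑ k, (j - Pi.single i 1 : Fin r → ℤ) k = (∑ k, j k) - 1 := by
      simp only [Pi.sub_apply, Finset.sum_sub_distrib, Finset.sum_pi_single', Finset.mem_univ,
        if_true]
    have h5 : -(j - Pi.single i 1 : Fin r → ℤ) = -j + Pi.single i 1 := by
      rw [neg_sub, sub_eq_add_neg, add_comm]
    rw [h4, h5]
  have h6 : ‖∑ i, Aj σ h φ ζ x (j - Pi.single i 1) n l‖ =
      ‖∑ i, Aj σ h φ (fun z => (starRingEnd ℂ) (ζ z)) x (-j + Pi.single i 1) n l‖ := by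
    rw [← RCLike.norm_conj, map_sum, Finset.sum_congr rfl fun i _ => h3 i, ← Finset.mul_sum,
      norm_mul, norm_zpow, norm_neg, norm_one, one_zpow, one_mul]
  rw [h6]
  exact h2 l hl

end

end QJ


end

section

/-!
RAD: rotation averages of approximate solutions of the Helmholtz equation.
-/

open Complex MeasureTheory Filter Topology Set
open scoped ContDiff

namespace QJ

open QE

noncomputable section

namespace RAD

/-- derivative of an integral over the angle with a parameter -/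
lemma hasDerivAt_param {F F' : ℝ → ℝ → ℂ} (hF : Continuous (Function.uncurry F))
    (hF' : Continuous (Function.uncurry F'))
    (hd : ∀ s θ, HasDerivAt (fun s => F s θ) (F' s θ) s) (s : ℝ) :
    HasDerivAt (fun s => ∫ θ, F s θ ∂ang) (∫ θ, F' s θ ∂ang) s := by
  have hFs : ∀ s, Continuous (F s) := fun s => hF.comp (by fun_prop : Continuous fun θ => (s, θ))
  have hFs' : ∀ s, Continuous (F' s) := fun s => hF'.comp (by fun_prop : Continuous fun θ => (s, θ))
  have hK : IsCompact (Icc (s - 1) (s + 1) ×ˢ Icc 0 (2 * Real.pi)) :=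
    isCompact_Icc.prod isCompact_Icc
  obtain ⟨B, hB⟩ := hK.exists_bound_of_continuousOn hF'.continuousOn
  have h := (intervalIntegral.hasDerivAt_integral_of_dominated_loc_of_deriv_le
    (μ := volume) (a := 0) (b := 2 * Real.pi) (F := F) (F' := F') (x₀ := s)
    (s := Icc (s - 1) (s + 1)) (bound := fun _ => B)
    (Icc_mem_nhds (by linarith) (by linarith))
    (Eventually.of_forall fun x => (hFs x).aestronglyMeasurable)
    ((hFs s).intervalIntegrable _ _) ((hFs' s).aestronglyMeasurable)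
    (Eventually.of_forall fun t ht x hx => by
      rw [uIoc_of_le (by positivity)] at ht
      exact hB (x, t) ⟨hx, ht.1.le, ht.2⟩)
    intervalIntegrable_const
    (Eventually.of_forall fun t _ x _ => hd x t)).2
  have h2 : (fun s => ∫ θ, F s θ ∂ang)
      = fun s => (2 * Real.pi)⁻¹ • ∫ θ in (0 : ℝ)..(2 * Real.pi), F s θ := by
    funext x; rw [ang_int]
  rw [h2, ang_int]
  exact h.const_smul (2 * Real.pi)⁻¹

/-- the integral of a derivative over a period -/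
lemma int_deriv {f f' : ℝ → ℂ} (hf' : Continuous f') (hd : ∀ θ, HasDerivAt f (f' θ) θ)
    (hp : f (2 * Real.pi) = f 0) : ∫ θ, f' θ ∂ang = 0 := by
  rw [ang_int, intervalIntegral.integral_eq_sub_of_hasDerivAt (fun x _ => hd x)
    (hf'.intervalIntegrable _ _), hp, sub_self, smul_zero]

lemma fderiv_eq (q : ℂ → ℂ) (z w : ℂ) :
    fderiv ℝ q z w = dz q z * w + dzb q z * (starRingEnd ℂ) w := by
  have hw : w = (w.re : ℝ) • (1 : ℂ) + (w.im : ℝ) • I := by
    simp [Complex.re_add_im]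
  have h1 : fderiv ℝ q z w = (w.re : ℂ) * fderiv ℝ q z 1 + (w.im : ℂ) * fderiv ℝ q z I := by
    conv_lhs => rw [hw]
    rw [map_add, map_smul, map_smul]
    simp
  rw [h1]
  unfold dz dzb
  have h2 : w = w.re + w.im * I := (Complex.re_add_im w).symm
  have h3 : (starRingEnd ℂ) w = w.re - w.im * I := by
    apply Complex.ext <;> simp
  rw [h3]
  conv_rhs => rw [show w = w.re + w.im * I from h2]
  have hI : I * I = -1 := I_mul_I
  simp only [add_re, ofReal_re, mul_re, I_re, mul_zero, ofReal_im, I_im, mul_one, sub_self,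
    add_zero, add_im, mul_im, zero_add]
  linear_combination ((w.im : ℂ) * fderiv ℝ q z I) * hI

/-- the unimodular function `e^{-2iθ}` -/
def EE (θ : ℝ) : ℂ := uu θ ^ 2

lemma norm_EE (θ : ℝ) : ‖EE θ‖ = 1 := by simp [EE, norm_uu]

lemma continuous_EE : Continuous EE := by unfold EE; exact continuous_uu.pow 2

lemma conj_EE (θ : ℝ) : EE θ * (starRingEnd ℂ) (EE θ) = 1 := by
  rw [Complex.mul_conj, Complex.normSq_eq_norm_sq, norm_EE]; simp

lemma EE_eq (θ : ℝ) : EE θ = Complex.exp (-(2 * (θ : ℂ) * I)) := by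
  unfold EE uu
  rw [← Complex.exp_nat_mul]
  congr 1; push_cast; ring

lemma hasDerivAt_EE (θ : ℝ) : HasDerivAt EE (-(2 * I) * EE θ) θ := by
  have h1 : HasDerivAt (fun θ : ℝ => -(2 * (θ : ℂ) * I)) (-(2 * I)) θ := by
    have := (((Complex.ofRealCLM.hasDerivAt (x := θ)).const_mul (2 : ℂ)).mul_const I).fun_neg
    simpa using this
  have h2 := h1.cexp
  have h3 : EE = fun θ : ℝ => Complex.exp (-(2 * (θ : ℂ) * I)) := funext EE_eq
  rw [h3]
  simpa [mul_comm] using h2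

lemma EE_period : EE (2 * Real.pi) = EE 0 := by
  rw [EE_eq, EE_eq]
  have h1 : -(2 * ((2 * Real.pi : ℝ) : ℂ) * I) = ((-2 : ℤ) : ℂ) * (2 * Real.pi * I) := by
    push_cast; ring
  rw [h1, Complex.exp_int_mul_two_pi_mul_I]
  simp

lemma int_EE : ∫ θ, EE θ ∂ang = 0 := by
  have h := ang_zpow 2
  rw [if_neg (by norm_num)] at h
  rw [← h]
  congr 1

lemma continuous_dz {q : ℂ → ℂ} (hq : ContDiff ℝ 1 q) : Continuous (dz q) := by
  have h := hq.continuous_fderiv one_ne_zero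
  unfold dz
  exact continuous_const.mul ((h.clm_apply continuous_const).sub
    (continuous_const.mul (h.clm_apply continuous_const)))

lemma continuous_dzb {q : ℂ → ℂ} (hq : ContDiff ℝ 1 q) : Continuous (dzb q) := by
  have h := hq.continuous_fderiv one_ne_zero
  unfold dzb
  exact continuous_const.mul ((h.clm_apply continuous_const).add
    (continuous_const.mul (h.clm_apply continuous_const)))

/-- derivative along a curve -/
lemma hasDerivAt_curve {q : ℂ → ℂ} (hq : ContDiff ℝ 1 q) {c : ℝ → ℂ} {c' : ℂ} {t : ℝ}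
    (hc : HasDerivAt c c' t) :
    HasDerivAt (fun t => q (c t)) (dz q (c t) * c' + dzb q (c t) * (starRingEnd ℂ) c') t := by
  rw [← fderiv_eq]
  exact ((hq.differentiable one_ne_zero (c t)).hasFDerivAt).comp_hasDerivAt t hc

lemma int_of_cont {f : ℝ → ℂ} (hf : Continuous f) : Integrable f ang := by
  refine Integrable.smul_measure ?_ ?_
  · exact (hf.integrableOn_Icc (a := 0) (b := 2 * Real.pi)).mono_set Ioc_subset_Icc_self
  · rw [Real.volume_Ioc]
    simp [Real.pi_pos]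

lemma norm_int_le {f : ℝ → ℂ} {B : ℝ} (h : ∀ θ, ‖f θ‖ ≤ B) : ‖∫ θ, f θ ∂ang‖ ≤ B := by
  have := norm_integral_le_of_norm_le_const (μ := ang) (Eventually.of_forall h)
  simpa using this

/-- the derivative of the first mean -/
lemma deriv_zero {q₀ q₁ : ℂ → ℂ} {X : ℂ} {ε : ℝ} (h0 : ContDiff ℝ 1 q₀) (h1 : ContDiff ℝ 1 q₁)
    (hb : ∀ l : ℂ, ‖l‖ ≤ 1 → ‖2 * dz q₀ l - X * q₁ l‖ ≤ ε) (s : ℝ) :
    ∃ d : ℂ, HasDerivAt (fun s : ℝ => ∫ θ, q₀ (s * EE θ) ∂ang) d s ∧
      (0 < s → s ≤ 1 → ‖d - X * ∫ θ, EE θ * q₁ (s * EE θ) ∂ang‖ ≤ ε) := by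
  have hz := continuous_dz h0
  have hzb := continuous_dzb h0
  have hE := continuous_EE
  have hc0 := h0.continuous
  have hc1 := h1.continuous
  have hcj : Continuous fun θ => (starRingEnd ℂ) (EE θ) := Complex.continuous_conj.comp hE
  refine ⟨_, hasDerivAt_param (F := fun s θ => q₀ (s * EE θ))
    (F' := fun s θ => dz q₀ (s * EE θ) * EE θ + dzb q₀ (s * EE θ) * (starRingEnd ℂ) (EE θ))
    ?_ ?_ ?_ s, ?_⟩
  · simp only [Function.uncurry_def]
    fun_prop
  · simp only [Function.uncurry_def]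
    exact ((hz.comp (by fun_prop)).mul (hE.comp continuous_snd)).add
      ((hzb.comp (by fun_prop)).mul (hcj.comp continuous_snd))
  · intro s θ
    have hc : HasDerivAt (fun s : ℝ => (s : ℂ) * EE θ) (EE θ) s := by
      simpa using (Complex.ofRealCLM.hasDerivAt (x := s)).mul_const (EE θ)
    exact hasDerivAt_curve h0 hc
  · intro hs hs1
    have hsE : Continuous fun θ => (s : ℂ) * EE θ := by fun_prop
    have iA : Integrable (fun θ => dz q₀ (s * EE θ) * EE θ) ang :=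
      int_of_cont ((hz.comp hsE).mul hE)
    have iB : Integrable (fun θ => dzb q₀ (s * EE θ) * (starRingEnd ℂ) (EE θ)) ang :=
      int_of_cont ((hzb.comp hsE).mul hcj)
    have hper := int_deriv (f := fun θ => q₀ (s * EE θ))
      (f' := fun θ => dz q₀ (s * EE θ) * (s * (-(2 * I) * EE θ))
        + dzb q₀ (s * EE θ) * (starRingEnd ℂ) (s * (-(2 * I) * EE θ)))
      (((hz.comp hsE).mul (by fun_prop)).add ((hzb.comp hsE).mul
        (Complex.continuous_conj.comp (by fun_prop))))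
      (fun θ => hasDerivAt_curve h0 ((hasDerivAt_EE θ).const_mul (s : ℂ)))
      (by simp only [EE_period])
    have heq : ∀ θ, dz q₀ (s * EE θ) * (s * (-(2 * I) * EE θ))
        + dzb q₀ (s * EE θ) * (starRingEnd ℂ) (s * (-(2 * I) * EE θ))
        = (-(2 * I) * s) * (dz q₀ (s * EE θ) * EE θ
          - dzb q₀ (s * EE θ) * (starRingEnd ℂ) (EE θ)) := by
      intro θ
      simp only [map_mul, map_neg, map_ofNat, Complex.conj_I, Complex.conj_ofReal]
      ring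
    simp only [heq] at hper
    rw [integral_const_mul, integral_sub iA iB] at hper
    have hs0 : (s : ℂ) ≠ 0 := by exact_mod_cast hs.ne'
    have hAB : (∫ θ, dz q₀ (s * EE θ) * EE θ ∂ang)
        = ∫ θ, dzb q₀ (s * EE θ) * (starRingEnd ℂ) (EE θ) ∂ang := by
      have : -(2 * I) * (s : ℂ) ≠ 0 := mul_ne_zero (by simp) hs0
      have := (mul_eq_zero.1 hper).resolve_left this
      exact sub_eq_zero.1 this
    have hfin : (∫ θ, (dz q₀ (s * EE θ) * EE θ + dzb q₀ (s * EE θ) * (starRingEnd ℂ) (EE θ)) ∂ang)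
        - X * ∫ θ, EE θ * q₁ (s * EE θ) ∂ang
        = ∫ θ, EE θ * (2 * dz q₀ (s * EE θ) - X * q₁ (s * EE θ)) ∂ang := by
      have iC : Integrable (fun θ => X * (EE θ * q₁ (s * EE θ))) ang := int_of_cont (by fun_prop)
      have iAA : Integrable (fun θ => dz q₀ (s * EE θ) * EE θ + dz q₀ (s * EE θ) * EE θ) ang :=
        iA.add iA
      rw [integral_add iA iB, ← hAB, ← integral_const_mul, ← integral_add iA iA,
        ← integral_sub iAA iC]
      congr 1
      funext θ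
      ring
    rw [hfin]
    apply norm_int_le
    intro θ
    rw [norm_mul, norm_EE, one_mul]
    apply hb
    rw [norm_mul, norm_EE, mul_one, Complex.norm_real, Real.norm_eq_abs, abs_of_pos hs]
    exact hs1

/-- the derivative of the second mean -/
lemma deriv_one {q₀ q₁ : ℂ → ℂ} {X : ℂ} {ε : ℝ} (h0 : ContDiff ℝ 1 q₀) (h1 : ContDiff ℝ 1 q₁)
    (hb : ∀ l : ℂ, ‖l‖ ≤ 1 → ‖2 * dzb q₁ l + (starRingEnd ℂ) X * q₀ l‖ ≤ ε) (s : ℝ) :
    ∃ d : ℂ, HasDerivAt (fun s : ℝ => ∫ θ, EE θ * q₁ (s * EE θ) ∂ang) d s ∧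
      (0 < s → s ≤ 1 → ‖d + (s : ℂ)⁻¹ * (∫ θ, EE θ * q₁ (s * EE θ) ∂ang)
        + (starRingEnd ℂ) X * ∫ θ, q₀ (s * EE θ) ∂ang‖ ≤ ε) := by
  have hz := continuous_dz h1
  have hzb := continuous_dzb h1
  have hE := continuous_EE
  have hc0 := h0.continuous
  have hc1 := h1.continuous
  have hcj : Continuous fun θ => (starRingEnd ℂ) (EE θ) := Complex.continuous_conj.comp hE
  refine ⟨_, hasDerivAt_param (F := fun s θ => EE θ * q₁ (s * EE θ))
    (F' := fun s θ => EE θ * (dz q₁ (s * EE θ) * EE θ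
      + dzb q₁ (s * EE θ) * (starRingEnd ℂ) (EE θ))) ?_ ?_ ?_ s, ?_⟩
  · simp only [Function.uncurry_def]
    fun_prop
  · simp only [Function.uncurry_def]
    exact (hE.comp continuous_snd).mul (((hz.comp (by fun_prop)).mul (hE.comp continuous_snd)).add
      ((hzb.comp (by fun_prop)).mul (hcj.comp continuous_snd)))
  · intro s θ
    have hc : HasDerivAt (fun s : ℝ => (s : ℂ) * EE θ) (EE θ) s := by
      simpa using (Complex.ofRealCLM.hasDerivAt (x := s)).mul_const (EE θ)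
    exact (hasDerivAt_curve h1 hc).const_mul (EE θ)
  · intro hs hs1
    have hsE : Continuous fun θ => (s : ℂ) * EE θ := by fun_prop
    have iQ : Integrable (fun θ => EE θ * q₁ (s * EE θ)) ang := int_of_cont (by fun_prop)
    have iA : Integrable (fun θ => EE θ * (dz q₁ (s * EE θ) * EE θ)) ang :=
      int_of_cont (hE.mul ((hz.comp hsE).mul hE))
    have iB : Integrable (fun θ => dzb q₁ (s * EE θ)) ang :=
      int_of_cont (hzb.comp hsE)
    have hper := int_deriv (f := fun θ => EE θ * q₁ (s * EE θ))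
      (f' := fun θ => (-(2 * I) * EE θ) * q₁ (s * EE θ)
        + EE θ * (dz q₁ (s * EE θ) * (s * (-(2 * I) * EE θ))
        + dzb q₁ (s * EE θ) * (starRingEnd ℂ) (s * (-(2 * I) * EE θ))))
      ((by fun_prop : Continuous fun θ => (-(2 * I) * EE θ) * q₁ (s * EE θ)).add
        (hE.mul (((hz.comp hsE).mul (by fun_prop)).add ((hzb.comp hsE).mul
        (Complex.continuous_conj.comp (by fun_prop))))))
      (fun θ => (hasDerivAt_EE θ).fun_mul
        (hasDerivAt_curve h1 ((hasDerivAt_EE θ).const_mul (s : ℂ))))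
      (by simp only [EE_period])
    have heq : ∀ θ, (-(2 * I) * EE θ) * q₁ (s * EE θ)
        + EE θ * (dz q₁ (s * EE θ) * (s * (-(2 * I) * EE θ))
        + dzb q₁ (s * EE θ) * (starRingEnd ℂ) (s * (-(2 * I) * EE θ)))
        = (-(2 * I)) * (EE θ * q₁ (s * EE θ) + s * (EE θ * (dz q₁ (s * EE θ) * EE θ)
          - dzb q₁ (s * EE θ))) := by
      intro θ
      simp only [map_mul, map_neg, map_ofNat, Complex.conj_I, Complex.conj_ofReal]
      linear_combination (2 * I * s * dzb q₁ (s * EE θ)) * conj_EE θ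
    simp only [heq] at hper
    have hAmB : Integrable (fun θ => EE θ * (dz q₁ (s * EE θ) * EE θ) - dzb q₁ (s * EE θ)) ang :=
      iA.sub iB
    rw [integral_const_mul, integral_add iQ (hAmB.const_mul (s : ℂ)), integral_const_mul,
      integral_sub iA iB] at hper
    have hs0 : (s : ℂ) ≠ 0 := by exact_mod_cast hs.ne'
    have hrel := (mul_eq_zero.1 hper).resolve_left (by simp : -(2 * I) ≠ 0)
    have hF' : (∫ θ, EE θ * (dz q₁ (s * EE θ) * EE θ
        + dzb q₁ (s * EE θ) * (starRingEnd ℂ) (EE θ)) ∂ang)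
        = (∫ θ, EE θ * (dz q₁ (s * EE θ) * EE θ) ∂ang) + ∫ θ, dzb q₁ (s * EE θ) ∂ang := by
      rw [← integral_add iA iB]
      congr 1
      funext θ
      linear_combination (dzb q₁ (s * EE θ)) * conj_EE θ
    have hfin : (∫ θ, EE θ * (dz q₁ (s * EE θ) * EE θ
        + dzb q₁ (s * EE θ) * (starRingEnd ℂ) (EE θ)) ∂ang)
        + (s : ℂ)⁻¹ * (∫ θ, EE θ * q₁ (s * EE θ) ∂ang)
        + (starRingEnd ℂ) X * ∫ θ, q₀ (s * EE θ) ∂ang
        = ∫ θ, (2 * dzb q₁ (s * EE θ) + (starRingEnd ℂ) X * q₀ (s * EE θ)) ∂ang := by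
      rw [hF', integral_add (iB.const_mul 2) (int_of_cont (by fun_prop)), integral_const_mul,
        integral_const_mul]
      have h2 : (s : ℂ)⁻¹ * (∫ θ, EE θ * q₁ (s * EE θ) ∂ang)
          = -((∫ θ, EE θ * (dz q₁ (s * EE θ) * EE θ) ∂ang) - ∫ θ, dzb q₁ (s * EE θ) ∂ang) := by
        rw [inv_mul_eq_div, div_eq_iff hs0]
        linear_combination hrel
      rw [h2]
      ring
    rw [hfin]
    apply norm_int_le
    intro θ
    apply hb
    rw [norm_mul, norm_EE, mul_one, Complex.norm_real, Real.norm_eq_abs, abs_of_pos hs]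
    exact hs1

end RAD

open _root_.QJ.RAD in
/-- RAD: rotation averages of approximate solutions of the Helmholtz equation -/
theorem stmtRad : StmtRad := by
  intro q₀ q₁ X ε h0 h1 hε hb
  have hd0 := fun s => deriv_zero h0 h1 (fun l hl => (hb l hl).1) s
  have hd1 := fun s => deriv_one h0 h1 (fun l hl => (hb l hl).2) s
  choose d0 hd0 he0 using hd0
  choose d1 hd1 he1 using hd1
  set Q0 : ℝ → ℂ := fun s : ℝ => ∫ θ, q₀ (s * EE θ) ∂ang with hQ0
  set Q1 : ℝ → ℂ := fun s : ℝ => ∫ θ, EE θ * q₁ (s * EE θ) ∂ang with hQ1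
  have hgoal : ∫ θ, q₀ (uu θ ^ 2) ∂angle = Q0 1 := by
    simp only [hQ0, Complex.ofReal_one, one_mul]
    rfl
  rw [hgoal]
  have hQ00 : Q0 0 = q₀ 0 := by
    simp [hQ0]
  have hQ10 : Q1 0 = 0 := by
    simp only [hQ1, Complex.ofReal_zero, zero_mul]
    rw [integral_mul_const, int_EE, zero_mul]
  -- the energy
  have hy : ∀ s, HasDerivAt (fun s => ‖Q0 s‖ ^ 2 + ‖Q1 s‖ ^ 2)
      (2 * inner ℝ (Q0 s) (d0 s) + 2 * inner ℝ (Q1 s) (d1 s)) s := fun s =>
    (hd0 s).norm_sq.add (hd1 s).norm_sq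
  have hbd : ∀ s, 0 < s → s ≤ 1 → 2 * inner ℝ (Q0 s) (d0 s) + 2 * inner ℝ (Q1 s) (d1 s)
      ≤ 2 * ε * (‖Q0 s‖ + ‖Q1 s‖) := by
    intro s hs hs1
    obtain ⟨e0, he0d⟩ : ∃ e, e = d0 s - X * Q1 s := ⟨_, rfl⟩
    obtain ⟨e1, he1d⟩ : ∃ e, e = d1 s + (s : ℂ)⁻¹ * Q1 s + (starRingEnd ℂ) X * Q0 s := ⟨_, rfl⟩
    have hn0 : ‖e0‖ ≤ ε := by rw [he0d]; exact he0 s hs hs1
    have hn1 : ‖e1‖ ≤ ε := by rw [he1d]; exact he1 s hs hs1
    have hA : d0 s = X * Q1 s + e0 := by rw [he0d]; ring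
    have hB : d1 s = e1 - (s⁻¹ : ℝ) • Q1 s - (starRingEnd ℂ) X * Q0 s := by
      rw [he1d, Complex.real_smul]; push_cast; ring
    have hcross : inner ℝ (Q0 s) (X * Q1 s) = inner ℝ (Q1 s) ((starRingEnd ℂ) X * Q0 s) := by
      simp only [Complex.inner, mul_re, mul_im, conj_re, conj_im]
      ring
    rw [hA, hB, inner_add_right, inner_sub_right, inner_sub_right, inner_smul_right,
      real_inner_self_eq_norm_sq, hcross]
    have hi0 : inner ℝ (Q0 s) e0 ≤ ‖Q0 s‖ * ε :=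
      (real_inner_le_norm _ _).trans (mul_le_mul_of_nonneg_left hn0 (norm_nonneg _))
    have hi1 : inner ℝ (Q1 s) e1 ≤ ‖Q1 s‖ * ε :=
      (real_inner_le_norm _ _).trans (mul_le_mul_of_nonneg_left hn1 (norm_nonneg _))
    have hpos : 0 ≤ s⁻¹ * ‖Q1 s‖ ^ 2 := by (clear * - hs; positivity)
    linarith only [hi0, hi1, hpos]
  have hmain : ∀ δ : ℝ, 0 < δ → ‖Q0 1‖ ≤ ‖q₀ 0‖ + δ + 2 * ε := by
    intro δ hδ
    set f : ℝ → ℝ := fun s => Real.sqrt (‖Q0 s‖ ^ 2 + ‖Q1 s‖ ^ 2 + δ ^ 2) with hf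
    have hpos : ∀ s, 0 < ‖Q0 s‖ ^ 2 + ‖Q1 s‖ ^ 2 + δ ^ 2 := fun s => by positivity
    have hfd : ∀ s, HasDerivAt f ((2 * inner ℝ (Q0 s) (d0 s) + 2 * inner ℝ (Q1 s) (d1 s))
        / (2 * Real.sqrt (‖Q0 s‖ ^ 2 + ‖Q1 s‖ ^ 2 + δ ^ 2))) s := fun s =>
      ((hy s).add_const (δ ^ 2)).sqrt (hpos s).ne'
    have h := Convex.image_sub_le_mul_sub_of_deriv_le (convex_Icc (0 : ℝ) 1) (f := f)
      (fun s _ => (hfd s).continuousAt.continuousWithinAt)
      (fun s _ => (hfd s).differentiableAt.differentiableWithinAt) (C := 2 * ε) ?_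
      0 ⟨le_rfl, zero_le_one⟩ 1 ⟨zero_le_one, le_rfl⟩ zero_le_one
    · have h1 : ‖Q0 1‖ ≤ f 1 := by
        apply Real.le_sqrt_of_sq_le
        have := sq_nonneg ‖Q1 1‖
        have := sq_nonneg δ
        linarith
      have h2 : f 0 ≤ ‖q₀ 0‖ + δ := by
        simp only [hf, hQ00, hQ10]
        apply Real.sqrt_le_iff.2
        refine ⟨by positivity, ?_⟩
        have := norm_nonneg (q₀ 0)
        rw [norm_zero]
        nlinarith only [hδ, this]
      linarith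
    · intro s hs
      rw [interior_Icc] at hs
      rw [(hfd s).deriv]
      have hsq : 0 < Real.sqrt (‖Q0 s‖ ^ 2 + ‖Q1 s‖ ^ 2 + δ ^ 2) := Real.sqrt_pos.2 (hpos s)
      rw [div_le_iff₀ (by positivity)]
      refine (hbd s hs.1 hs.2.le).trans ?_
      have h1 : ‖Q0 s‖ ≤ Real.sqrt (‖Q0 s‖ ^ 2 + ‖Q1 s‖ ^ 2 + δ ^ 2) := by
        apply Real.le_sqrt_of_sq_le
        have := sq_nonneg ‖Q1 s‖
        have := sq_nonneg δ
        linarith
      have h2 : ‖Q1 s‖ ≤ Real.sqrt (‖Q0 s‖ ^ 2 + ‖Q1 s‖ ^ 2 + δ ^ 2) := by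
        apply Real.le_sqrt_of_sq_le
        have := sq_nonneg ‖Q0 s‖
        have := sq_nonneg δ
        linarith
      nlinarith only [hε, h1, h2]
  apply le_of_forall_pos_le_add
  intro δ hδ
  have := hmain δ hδ
  linarith

end

end QJ


end

section

/-!
Cubic and quartic statistics of quantum ergodic eigenfunctions: the mean over the angle of a product
of at most four derivatives of the local wave (module MAIN).
-/

open MeasureTheory Filter Topology Set UpperHalfPlane MatrixGroups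
open scoped ContDiff

namespace QJ

open QE

noncomputable section

namespace MAIN

theorem lah_gt : ∀ a i : ℕ, a < i → lah a i = 0
  | 0, 0, h => absurd h (lt_irrefl 0)
  | 0, _ + 1, _ => rfl
  | _ + 1, 0, h => absurd h (Nat.not_lt_zero _)
  | a + 1, i + 1, h => by
    have h1 : a < i := by omega
    simp only [lah]
    rw [lah_gt a (i + 1) (by omega), lah_gt a i h1]
    ring

theorem lah_self : ∀ a : ℕ, lah a a = 1
  | 0 => rfl
  | a + 1 => by
    simp only [lah]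
    rw [lah_gt a (a + 1) (by omega), lah_self a]
    ring

/-- the factor of the leading part -/
def bb (ρ : ℍ → ℝ) (z : ℂ) : ℝ := z.im * Real.exp (-ρ (ofComplex z))

/-- the conformal factor -/
def e1 (ρ : ℍ → ℝ) (z : ℂ) : ℝ := Real.exp (-ρ (ofComplex z))

/-- the coefficients -/
def kap (ρ : ℍ → ℝ) (k a i j : ℕ) (z : ℂ) (θ : ℝ) : ℂ :=
  ((lah a i * lah (k - a) j : ℝ) : ℂ)
    * (((bb ρ z : ℂ) * uu θ ^ 2) ^ i * ((e1 ρ z : ℂ) * uu θ * (Real.sin θ : ℝ)) ^ (a - i))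
    * ((starRingEnd ℂ) ((bb ρ z : ℂ) * uu θ ^ 2) ^ j
      * (starRingEnd ℂ) ((e1 ρ z : ℂ) * uu θ * (Real.sin θ : ℝ)) ^ (k - a - j))

/-- the derivative of the local wave in terms of the rescaled derivatives `w i j` -/
def JJ (ρ : ℍ → ℝ) (h : ℝ) (w : ℕ → ℕ → ℂ) {k : ℕ} (v : Fin k → ℂ) (z : ℂ) (θ : ℝ) : ℂ :=
  ∑ a ∈ Finset.range (k + 1), sc v a * ∑ i ∈ Finset.range (a + 1),
    ∑ j ∈ Finset.range (k - a + 1), kap ρ k a i j z θ * (h : ℂ) ^ (k - i - j) * w i j

/-- the leading part -/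
def LL (ρ : ℍ → ℝ) (w : ℕ → ℕ → ℂ) {k : ℕ} (v : Fin k → ℂ) (z : ℂ) (θ : ℝ) : ℂ :=
  ∑ a ∈ Finset.range (k + 1), sc v a * (kap ρ k a a (k - a) z θ * w a (k - a))

/-- the remainder -/
def RM (ρ : ℍ → ℝ) (h : ℝ) (w : ℕ → ℕ → ℂ) {k : ℕ} (v : Fin k → ℂ) (z : ℂ) (θ : ℝ) : ℂ :=
  ∑ a ∈ Finset.range (k + 1), sc v a * ∑ i ∈ Finset.range (a + 1),
    ∑ j ∈ Finset.range (k - a + 1),
      if i = a ∧ j = k - a then 0 else kap ρ k a i j z θ * (h : ℂ) ^ (k - i - j - 1) * w i j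

theorem JJ_eq (ρ : ℍ → ℝ) (h : ℝ) (w : ℕ → ℕ → ℂ) {k : ℕ} (v : Fin k → ℂ) (z : ℂ) (θ : ℝ) :
    JJ ρ h w v z θ = LL ρ w v z θ + h * RM ρ h w v z θ := by
  unfold JJ LL RM
  rw [Finset.mul_sum, ← Finset.sum_add_distrib]
  apply Finset.sum_congr rfl
  intro a ha
  have ha' : a ≤ k := Nat.lt_succ_iff.mp (Finset.mem_range.mp ha)
  have h1 : ∑ i ∈ Finset.range (a + 1), ∑ j ∈ Finset.range (k - a + 1),
      (if i = a ∧ j = k - a then kap ρ k a a (k - a) z θ * w a (k - a) else 0) =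
      kap ρ k a a (k - a) z θ * w a (k - a) := by
    rw [Finset.sum_eq_single a]
    · rw [Finset.sum_eq_single (k - a)]
      · rw [if_pos ⟨rfl, rfl⟩]
      · intro j _ hj
        rw [if_neg (fun h => hj h.2)]
      · intro hj
        exact absurd (Finset.mem_range.mpr (Nat.lt_succ_self _)) hj
    · intro i _ hi
      apply Finset.sum_eq_zero
      intro j _
      rw [if_neg (fun h => hi h.1)]
    · intro hi
      exact absurd (Finset.mem_range.mpr (Nat.lt_succ_self _)) hi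
  rw [← h1]
  have h3 : ∀ x S T u : ℂ, x * S + u * (x * T) = x * (S + u * T) := fun x S T u => by ring
  rw [h3]
  congr 1
  rw [Finset.mul_sum, ← Finset.sum_add_distrib]
  apply Finset.sum_congr rfl
  intro i hi
  have hi' : i ≤ a := Nat.lt_succ_iff.mp (Finset.mem_range.mp hi)
  rw [Finset.mul_sum, ← Finset.sum_add_distrib]
  apply Finset.sum_congr rfl
  intro j hj
  have hj' : j ≤ k - a := Nat.lt_succ_iff.mp (Finset.mem_range.mp hj)
  by_cases hc : i = a ∧ j = k - a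
  · rw [if_pos hc, if_pos hc, hc.1, hc.2]
    have h4 : k - a - (k - a) = 0 := by omega
    rw [h4]
    ring
  · rw [if_neg hc, if_neg hc]
    have h4 : k - i - j = (k - i - j - 1) + 1 := by
      have : i + j < k := by
        by_contra hlt
        apply hc
        omega
      omega
    rw [h4, pow_succ]
    simp only [Nat.add_sub_cancel]
    ring

theorem wexp_eq (hWexp : StmtWexp) (ρ φ : ℍ → ℝ) (m : ℝ) (hm : 0 < m)
    (hφ : ContDiffOn ℝ ∞ (fun w : ℂ => φ (ofComplex w)) {w | 0 < w.im}) (z : ℂ) (hz : 0 < z.im)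
    (θ : ℝ) {k : ℕ} (v : Fin k → ℂ) :
    ((iteratedFDeriv ℝ k (fun x => Berry.rWave ρ φ m x (ofComplex z, θ)) 0 v : ℝ) : ℂ) =
      JJ ρ (1 / m) (fun i j => ((1 / m : ℝ) : ℂ) ^ (i + j)
        * dz^[i] (dzb^[j] (fun w : ℂ => (φ (ofComplex w) : ℂ))) z) v z θ := by
  rw [hWexp ρ φ m hm hφ z hz θ k v _ _ rfl rfl]
  unfold JJ
  apply Finset.sum_congr rfl
  intro a ha
  have ha' : a ≤ k := Nat.lt_succ_iff.mp (Finset.mem_range.mp ha)
  congr 1
  apply Finset.sum_congr rfl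
  intro i hi
  have hi' : i ≤ a := Nat.lt_succ_iff.mp (Finset.mem_range.mp hi)
  apply Finset.sum_congr rfl
  intro j hj
  have hj' : j ≤ k - a := Nat.lt_succ_iff.mp (Finset.mem_range.mp hj)
  have hc : (z.im : ℂ) * (((1 / m : ℝ) : ℂ) * ((Real.exp (-ρ (ofComplex z)) : ℝ) : ℂ)) * uu θ ^ 2 =
      ((1 / m : ℝ) : ℂ) * ((bb ρ z : ℂ) * uu θ ^ 2) := by
    unfold bb
    push_cast
    ring
  have hd : (((1 / m : ℝ) : ℂ) * ((Real.exp (-ρ (ofComplex z)) : ℝ) : ℂ)) * uu θ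
      * ((Real.sin θ : ℝ) : ℂ) =
      ((1 / m : ℝ) : ℂ) * ((e1 ρ z : ℂ) * uu θ * (Real.sin θ : ℝ)) := by
    unfold e1
    ring
  rw [hc, hd]
  have hcc : (starRingEnd ℂ) (((1 / m : ℝ) : ℂ) * ((bb ρ z : ℂ) * uu θ ^ 2)) =
      ((1 / m : ℝ) : ℂ) * (starRingEnd ℂ) ((bb ρ z : ℂ) * uu θ ^ 2) := by
    rw [map_mul, Complex.conj_ofReal]
  have hdd : (starRingEnd ℂ) (((1 / m : ℝ) : ℂ) * ((e1 ρ z : ℂ) * uu θ * (Real.sin θ : ℝ))) =
      ((1 / m : ℝ) : ℂ) * (starRingEnd ℂ) ((e1 ρ z : ℂ) * uu θ * (Real.sin θ : ℝ)) := by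
    rw [map_mul, Complex.conj_ofReal]
  rw [hcc, hdd]
  unfold kap
  beta_reduce
  generalize ((1 / m : ℝ) : ℂ) = H
  generalize (starRingEnd ℂ) ((bb ρ z : ℂ) * uu θ ^ 2) = c'
  generalize (starRingEnd ℂ) ((e1 ρ z : ℂ) * uu θ * ((Real.sin θ : ℝ) : ℂ)) = d'
  generalize (bb ρ z : ℂ) * uu θ ^ 2 = c
  generalize (e1 ρ z : ℂ) * uu θ * ((Real.sin θ : ℝ) : ℂ) = d
  generalize dz^[i] (dzb^[j] (fun w : ℂ => (φ (ofComplex w) : ℂ))) z = D
  generalize ((lah a i * lah (k - a) j : ℝ) : ℂ) = Λ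
  rw [mul_pow, mul_pow, mul_pow, mul_pow]
  have e : H ^ i * H ^ (a - i) * (H ^ j * H ^ (k - a - j)) = H ^ (k - i - j) * H ^ (i + j) := by
    rw [← pow_add, ← pow_add, ← pow_add, ← pow_add]
    congr 1
    omega
  calc Λ * (H ^ i * c ^ i * (H ^ (a - i) * d ^ (a - i))) *
        (H ^ j * c' ^ j * (H ^ (k - a - j) * d' ^ (k - a - j))) * D
      = (H ^ i * H ^ (a - i) * (H ^ j * H ^ (k - a - j))) *
        (Λ * (c ^ i * d ^ (a - i)) * (c' ^ j * d' ^ (k - a - j)) * D) := by ring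
    _ = Λ * (c ^ i * d ^ (a - i)) * (c' ^ j * d' ^ (k - a - j)) * H ^ (k - i - j) *
        (H ^ (i + j) * D) := by rw [e]; ring

theorem conj_uu (θ : ℝ) : (starRingEnd ℂ) (uu θ) = (uu θ)⁻¹ := by
  have h := norm_uu θ
  rw [Complex.inv_def, Complex.normSq_eq_norm_sq, h]
  simp

theorem kap_lead (ρ : ℍ → ℝ) {k a : ℕ} (ha : a ≤ k) (z : ℂ) (θ : ℝ) :
    kap ρ k a a (k - a) z θ = (bb ρ z : ℂ) ^ k * uu θ ^ (2 * ((a : ℤ) - (k - a : ℕ))) := by
  unfold kap
  rw [lah_self, lah_self, Nat.sub_self, Nat.sub_self, pow_zero, pow_zero, mul_one, mul_one,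
    map_mul, map_pow, conj_uu, Complex.conj_ofReal, mul_pow, mul_pow]
  have h1 : (bb ρ z : ℂ) ^ k = (bb ρ z : ℂ) ^ a * (bb ρ z : ℂ) ^ (k - a) := by
    rw [← pow_add]
    congr 1
    omega
  have h2 : uu θ ^ (2 * ((a : ℤ) - (k - a : ℕ))) = (uu θ ^ 2) ^ a * ((uu θ)⁻¹ ^ 2) ^ (k - a) := by
    rw [← pow_mul, ← pow_mul, inv_pow, ← zpow_natCast, ← zpow_natCast, ← zpow_neg,
      ← zpow_add₀ (uu_ne θ)]
    congr 1
    push_cast
    ring
  rw [h1, h2]
  push_cast
  ring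

theorem norm_kap_le {ρ : ℍ → ℝ} {k a i j : ℕ} {z : ℂ} {B : ℝ} (ha : a ≤ k) (hi : i ≤ a)
    (hj : j ≤ k - a) (hb : |bb ρ z| ≤ B) (he : |e1 ρ z| ≤ B) (θ : ℝ) :
    ‖kap ρ k a i j z θ‖ ≤ |lah a i * lah (k - a) j| * B ^ k := by
  have hc : ‖(bb ρ z : ℂ) * uu θ ^ 2‖ ≤ B := by
    rw [norm_mul, norm_pow, norm_uu, one_pow, mul_one, Complex.norm_real, Real.norm_eq_abs]
    exact hb
  have hd : ‖(e1 ρ z : ℂ) * uu θ * ((Real.sin θ : ℝ) : ℂ)‖ ≤ B := by
    rw [norm_mul, norm_mul, norm_uu, mul_one, Complex.norm_real, Complex.norm_real,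
      Real.norm_eq_abs, Real.norm_eq_abs]
    calc |e1 ρ z| * |Real.sin θ| ≤ |e1 ρ z| * 1 :=
          mul_le_mul_of_nonneg_left (Real.abs_sin_le_one θ) (abs_nonneg _)
      _ ≤ B := by rw [mul_one]; exact he
  have hB : 0 ≤ B := (abs_nonneg _).trans hb
  unfold kap
  rw [norm_mul, norm_mul, norm_mul, norm_mul, norm_pow, norm_pow, norm_pow, norm_pow,
    RCLike.norm_conj, RCLike.norm_conj, Complex.norm_real, Real.norm_eq_abs]
  have e : B ^ k = (B ^ i * B ^ (a - i)) * (B ^ j * B ^ (k - a - j)) := by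
    rw [← pow_add, ← pow_add, ← pow_add]
    congr 1
    omega
  rw [e, mul_assoc]
  apply mul_le_mul_of_nonneg_left _ (abs_nonneg _)
  gcongr

/-- the sum of the norms of the rescaled derivatives -/
def SS (w : ℕ → ℕ → ℂ) (k : ℕ) : ℝ :=
  ∑ p ∈ Finset.range (k + 1) ×ˢ Finset.range (k + 1), ‖w p.1 p.2‖

theorem le_SS (w : ℕ → ℕ → ℂ) {k i j : ℕ} (hi : i ≤ k) (hj : j ≤ k) : ‖w i j‖ ≤ SS w k := by
  unfold SS
  refine Finset.single_le_sum (f := fun p : ℕ × ℕ => ‖w p.1 p.2‖) (fun p _ => norm_nonneg _)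
    (a := (i, j)) ?_
  rw [Finset.mem_product, Finset.mem_range, Finset.mem_range]
  exact ⟨by simp only; omega, by simp only; omega⟩

/-- the constant of the bounds -/
def CC {k : ℕ} (v : Fin k → ℂ) (B : ℝ) : ℝ :=
  ∑ a ∈ Finset.range (k + 1), ‖sc v a‖ * (|lah a a * lah (k - a) (k - a)| * B ^ k) +
  ∑ a ∈ Finset.range (k + 1), ‖sc v a‖ * ∑ i ∈ Finset.range (a + 1),
    ∑ j ∈ Finset.range (k - a + 1), |lah a i * lah (k - a) j| * B ^ k

theorem norm_LR_le {ρ : ℍ → ℝ} {h : ℝ} {w : ℕ → ℕ → ℂ} {k : ℕ} (v : Fin k → ℂ) {z : ℂ} {B : ℝ}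
    (h0 : 0 ≤ h) (h1 : h ≤ 1) (hb : |bb ρ z| ≤ B) (he : |e1 ρ z| ≤ B) (θ : ℝ) :
    ‖LL ρ w v z θ‖ + ‖RM ρ h w v z θ‖ ≤ CC v B * SS w k := by
  have hB : 0 ≤ B := (abs_nonneg _).trans hb
  have hL : ‖LL ρ w v z θ‖ ≤ (∑ a ∈ Finset.range (k + 1),
      ‖sc v a‖ * (|lah a a * lah (k - a) (k - a)| * B ^ k)) * SS w k := by
    unfold LL
    refine (norm_sum_le _ _).trans ?_
    rw [Finset.sum_mul]
    apply Finset.sum_le_sum
    intro a ha
    have ha' : a ≤ k := Nat.lt_succ_iff.mp (Finset.mem_range.mp ha)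
    rw [norm_mul, norm_mul, mul_assoc]
    apply mul_le_mul_of_nonneg_left _ (norm_nonneg _)
    exact mul_le_mul (norm_kap_le ha' le_rfl le_rfl hb he θ) (le_SS w ha' (Nat.sub_le _ _))
      (norm_nonneg _) (by positivity)
  have hR : ‖RM ρ h w v z θ‖ ≤ (∑ a ∈ Finset.range (k + 1), ‖sc v a‖ *
      ∑ i ∈ Finset.range (a + 1), ∑ j ∈ Finset.range (k - a + 1),
        |lah a i * lah (k - a) j| * B ^ k) * SS w k := by
    unfold RM
    refine (norm_sum_le _ _).trans ?_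
    rw [Finset.sum_mul]
    apply Finset.sum_le_sum
    intro a ha
    have ha' : a ≤ k := Nat.lt_succ_iff.mp (Finset.mem_range.mp ha)
    rw [norm_mul, mul_assoc]
    apply mul_le_mul_of_nonneg_left _ (norm_nonneg _)
    refine (norm_sum_le _ _).trans ?_
    rw [Finset.sum_mul]
    apply Finset.sum_le_sum
    intro i hi
    have hi' : i ≤ a := Nat.lt_succ_iff.mp (Finset.mem_range.mp hi)
    refine (norm_sum_le _ _).trans ?_
    rw [Finset.sum_mul]
    apply Finset.sum_le_sum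
    intro j hj
    have hj' : j ≤ k - a := Nat.lt_succ_iff.mp (Finset.mem_range.mp hj)
    have hS0 : 0 ≤ SS w k := (norm_nonneg _).trans (le_SS w (Nat.zero_le k) (Nat.zero_le k))
    split_ifs with hc
    · rw [norm_zero]
      (clear * - hB hS0; positivity)
    · rw [norm_mul, norm_mul, norm_pow, Complex.norm_real, Real.norm_eq_abs, abs_of_nonneg h0]
      have h2 : h ^ (k - i - j - 1) ≤ 1 := pow_le_one₀ h0 h1
      calc ‖kap ρ k a i j z θ‖ * h ^ (k - i - j - 1) * ‖w i j‖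
          ≤ ‖kap ρ k a i j z θ‖ * 1 * ‖w i j‖ := by gcongr
        _ = ‖kap ρ k a i j z θ‖ * ‖w i j‖ := by rw [mul_one]
        _ ≤ (|lah a i * lah (k - a) j| * B ^ k) * SS w k :=
            mul_le_mul (norm_kap_le ha' hi' hj' hb he θ) (le_SS w (hi'.trans ha') (by omega))
              (norm_nonneg _) (by (clear * - hB; positivity))
  unfold CC
  rw [add_mul]
  exact add_le_add hL hR

theorem prod_diff {ι : Type} (s : Finset ι) (L R : ι → ℂ) (M : ι → ℝ) {h : ℝ} (h0 : 0 ≤ h)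
    (h1 : h ≤ 1) (hM : ∀ i ∈ s, ‖L i‖ + ‖R i‖ ≤ M i) :
    ‖∏ i ∈ s, (L i + h * R i) - ∏ i ∈ s, L i‖ ≤ h * s.card * ∏ i ∈ s, M i := by
  classical
  induction s using Finset.induction_on with
  | empty => simp
  | insert a s ha ih =>
    have hMa := hM a (Finset.mem_insert_self a s)
    have hMs : ∀ i ∈ s, ‖L i‖ + ‖R i‖ ≤ M i := fun i hi => hM i (Finset.mem_insert_of_mem hi)
    have ih' := ih hMs
    have hhR : ∀ i, ‖(h : ℂ) * R i‖ ≤ ‖R i‖ := by
      intro i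
      rw [norm_mul, Complex.norm_real, Real.norm_eq_abs, abs_of_nonneg h0]
      calc h * ‖R i‖ ≤ 1 * ‖R i‖ := mul_le_mul_of_nonneg_right h1 (norm_nonneg _)
        _ = ‖R i‖ := one_mul _
    have hP : ‖∏ i ∈ s, (L i + h * R i)‖ ≤ ∏ i ∈ s, M i := by
      rw [norm_prod]
      apply Finset.prod_le_prod
      · intro i _
        exact norm_nonneg _
      · intro i hi
        calc ‖L i + h * R i‖ ≤ ‖L i‖ + ‖(h : ℂ) * R i‖ := norm_add_le _ _
          _ ≤ ‖L i‖ + ‖R i‖ := by linarith [hhR i]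
          _ ≤ M i := hMs i hi
    rw [Finset.prod_insert ha, Finset.prod_insert ha, Finset.prod_insert ha,
      Finset.card_insert_of_notMem ha]
    have e : (L a + h * R a) * ∏ i ∈ s, (L i + h * R i) - L a * ∏ i ∈ s, L i =
        L a * (∏ i ∈ s, (L i + h * R i) - ∏ i ∈ s, L i) +
          h * (R a * ∏ i ∈ s, (L i + h * R i)) := by ring
    rw [e]
    have hMa0 : 0 ≤ M a := (by positivity : (0 : ℝ) ≤ ‖L a‖ + ‖R a‖).trans hMa
    have hLa : ‖L a‖ ≤ M a := by linarith [norm_nonneg (R a)]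
    have hRa : ‖R a‖ ≤ M a := by linarith [norm_nonneg (L a)]
    have t1 : ‖L a * (∏ i ∈ s, (L i + h * R i) - ∏ i ∈ s, L i)‖ ≤
        M a * (h * s.card * ∏ i ∈ s, M i) := by
      rw [norm_mul]
      exact mul_le_mul hLa ih' (norm_nonneg _) hMa0
    have t2 : ‖(h : ℂ) * (R a * ∏ i ∈ s, (L i + h * R i))‖ ≤ h * (M a * ∏ i ∈ s, M i) := by
      rw [norm_mul, norm_mul, Complex.norm_real, Real.norm_eq_abs, abs_of_nonneg h0]
      exact mul_le_mul_of_nonneg_left (mul_le_mul hRa hP (norm_nonneg _) hMa0) h0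
    refine (norm_add_le _ _).trans ((add_le_add t1 t2).trans (le_of_eq ?_))
    push_cast
    ring

/-! ### Continuity -/

theorem continuous_cut {X : Type} [TopologicalSpace X] {ψ : ℂ → ℂ} {U : Set ℂ} (hU : IsOpen U)
    (hψ : Continuous ψ) (hs : tsupport ψ ⊆ U) {p : X → ℂ} (hp : Continuous p) {G : X → ℂ}
    (hG : ContinuousOn G (p ⁻¹' U)) : Continuous fun x => ψ (p x) * G x := by
  rw [continuous_iff_continuousAt]
  intro x
  by_cases hx : p x ∈ U
  · exact (hψ.comp hp).continuousAt.mul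
      (hG.continuousAt ((hU.preimage hp).mem_nhds hx))
  · have h1 : p x ∈ (tsupport ψ)ᶜ := fun h => hx (hs h)
    have h2 : ∀ᶠ y in 𝓝 x, ψ (p y) * G y = 0 := by
      filter_upwards [((isClosed_tsupport ψ).isOpen_compl.preimage hp).mem_nhds h1] with y hy
      have : ψ (p y) = 0 := image_eq_zero_of_notMem_tsupport hy
      rw [this, zero_mul]
    have h3 : ContinuousAt (fun _ : X => (0 : ℂ)) x := continuousAt_const
    exact h3.congr (h2.mono fun y hy => hy.symm)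

theorem continuous_ang {F : ℂ × ℝ → ℂ} (hF : Continuous F) :
    Continuous fun z : ℂ => ∫ θ, F (z, θ) ∂ang := by
  have h : (fun z : ℂ => ∫ θ, F (z, θ) ∂ang) =
      fun z : ℂ => (2 * Real.pi)⁻¹ • ∫ θ in (0 : ℝ)..(2 * Real.pi), F (z, θ) := by
    funext z
    exact ang_int _
  rw [h]
  have h2 : Continuous fun z : ℂ => ∫ θ in (0 : ℝ)..(2 * Real.pi), F (z, θ) :=
    intervalIntegral.continuous_parametric_intervalIntegral_of_continuous'
      (f := fun z θ => F (z, θ)) (by exact hF) _ _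
  exact h2.const_smul ((2 * Real.pi)⁻¹ : ℝ)

theorem ang_integrable {f : ℝ → ℂ} (hf : Continuous f) : Integrable f ang := by
  have hp : (0 : ℝ) < 2 * Real.pi := by positivity
  have h1 : IntegrableOn f (Set.Ioc 0 (2 * Real.pi)) volume := hf.integrableOn_Ioc
  unfold ang ProbabilityTheory.cond
  apply h1.smul_measure
  rw [Real.volume_Ioc, sub_zero]
  simp [Real.pi_pos]

theorem contDiffOn_iter {f : ℂ → ℂ} {U : Set ℂ} (hU : IsOpen U) (hf : ContDiffOn ℝ ∞ f U)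
    (a b : ℕ) : ContDiffOn ℝ ∞ (dz^[a] (dzb^[b] f)) U := by
  have h1 : ContDiffOn ℝ ∞ (dzb^[b] f) U := by
    induction b with
    | zero => exact hf
    | succ b ih =>
      rw [Function.iterate_succ_apply']
      exact contDiffOn_dzb hU ih
  induction a with
  | zero => exact h1
  | succ a ih =>
    rw [Function.iterate_succ_apply']
    exact contDiffOn_dz hU ih

theorem contOn_e1 {ρ : ℍ → ℝ} {U : Set ℂ} (hρ : ContinuousOn (fun w : ℂ => ρ (ofComplex w)) U) :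
    ContinuousOn (e1 ρ) U := by
  unfold e1
  exact Real.continuous_exp.comp_continuousOn hρ.neg

theorem contOn_bb {ρ : ℍ → ℝ} {U : Set ℂ} (hρ : ContinuousOn (fun w : ℂ => ρ (ofComplex w)) U) :
    ContinuousOn (bb ρ) U := by
  unfold bb
  exact Complex.continuous_im.continuousOn.mul (contOn_e1 hρ)

theorem fst_comp {Y : Type} [TopologicalSpace Y] {U : Set ℂ} {f : ℂ → Y} (hf : ContinuousOn f U) :
    ContinuousOn (fun p : ℂ × ℝ => f p.1) (Prod.fst ⁻¹' U) :=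
  hf.comp continuous_fst.continuousOn (fun _ h => h)

theorem contOn_kap {ρ : ℍ → ℝ} {U : Set ℂ}
    (hρ : ContinuousOn (fun w : ℂ => ρ (ofComplex w)) U) (k a i j : ℕ) :
    ContinuousOn (fun p : ℂ × ℝ => kap ρ k a i j p.1 p.2) (Prod.fst ⁻¹' U) := by
  have hu : ContinuousOn (fun p : ℂ × ℝ => uu p.2) (Prod.fst ⁻¹' U) :=
    (continuous_uu.comp continuous_snd).continuousOn
  have hs : ContinuousOn (fun p : ℂ × ℝ => ((Real.sin p.2 : ℝ) : ℂ)) (Prod.fst ⁻¹' U) :=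
    (Complex.continuous_ofReal.comp (Real.continuous_sin.comp continuous_snd)).continuousOn
  have hA : ContinuousOn (fun p : ℂ × ℝ => (bb ρ p.1 : ℂ) * uu p.2 ^ 2) (Prod.fst ⁻¹' U) :=
    (Complex.continuous_ofReal.comp_continuousOn (fst_comp (contOn_bb hρ))).mul (hu.pow 2)
  have hB : ContinuousOn (fun p : ℂ × ℝ => (e1 ρ p.1 : ℂ) * uu p.2 * ((Real.sin p.2 : ℝ) : ℂ))
      (Prod.fst ⁻¹' U) :=
    ((Complex.continuous_ofReal.comp_continuousOn (fst_comp (contOn_e1 hρ))).mul hu).mul hs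
  have hcA := Complex.continuous_conj.comp_continuousOn hA
  have hcB := Complex.continuous_conj.comp_continuousOn hB
  unfold kap
  exact (continuousOn_const.mul ((hA.pow i).mul (hB.pow (a - i)))).mul
    ((hcA.pow j).mul (hcB.pow (k - a - j)))

theorem contOn_JJ {ρ : ℍ → ℝ} {U : Set ℂ} (hρ : ContinuousOn (fun w : ℂ => ρ (ofComplex w)) U)
    (h : ℝ) {w : ℂ → ℕ → ℕ → ℂ} (hw : ∀ i j, ContinuousOn (fun z => w z i j) U) {k : ℕ}
    (v : Fin k → ℂ) :
    ContinuousOn (fun p : ℂ × ℝ => JJ ρ h (w p.1) v p.1 p.2) (Prod.fst ⁻¹' U) := by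
  unfold JJ
  refine continuousOn_finsetSum _ fun a _ => ?_
  refine continuousOn_const.mul ?_
  refine continuousOn_finsetSum _ fun i _ => ?_
  refine continuousOn_finsetSum _ fun j _ => ?_
  exact ((contOn_kap hρ k a i j).mul continuousOn_const).mul (fst_comp (hw i j))

theorem contOn_LL {ρ : ℍ → ℝ} {U : Set ℂ} (hρ : ContinuousOn (fun w : ℂ => ρ (ofComplex w)) U)
    {w : ℂ → ℕ → ℕ → ℂ} (hw : ∀ i j, ContinuousOn (fun z => w z i j) U) {k : ℕ}
    (v : Fin k → ℂ) :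
    ContinuousOn (fun p : ℂ × ℝ => LL ρ (w p.1) v p.1 p.2) (Prod.fst ⁻¹' U) := by
  unfold LL
  refine continuousOn_finsetSum _ fun a _ => ?_
  refine continuousOn_const.mul ?_
  exact (contOn_kap hρ k a a (k - a)).mul (fst_comp (hw a (k - a)))

/-! ### The two sides -/

theorem upper_open : IsOpen {w : ℂ | 0 < w.im} := isOpen_lt continuous_const Complex.continuous_im

theorem psi_zero {ψ : ℂ → ℝ} (hψU : tsupport ψ ⊆ {w | 0 < w.im}) {z : ℂ} (hz : ¬ 0 < z.im) :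
    ψ z = 0 := image_eq_zero_of_notMem_tsupport (fun h => hz (hψU h))

/-- the rescaled derivatives -/
def ww (φ : ℍ → ℝ) (h : ℝ) (z : ℂ) (i j : ℕ) : ℂ :=
  (h : ℂ) ^ (i + j) * dz^[i] (dzb^[j] (fun w : ℂ => (φ (ofComplex w) : ℂ))) z

theorem contOn_ww {φ : ℍ → ℝ} (hφ : ContDiffOn ℝ ∞ (fun w : ℂ => φ (ofComplex w)) {w | 0 < w.im})
    (h : ℝ) (i j : ℕ) : ContinuousOn (fun z => ww φ h z i j) {w | 0 < w.im} := by
  have h1 : ContDiffOn ℝ ∞ (fun w : ℂ => (φ (ofComplex w) : ℂ)) {w | 0 < w.im} :=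
    Complex.ofRealCLM.contDiff.comp_contDiffOn hφ
  unfold ww
  exact continuousOn_const.mul (contDiffOn_iter upper_open h1 i j).continuousOn

theorem left_eq (hWexp : StmtWexp) (ρ φ : ℍ → ℝ) (m : ℝ) (hm : 0 < m)
    (hφ : ContDiffOn ℝ ∞ (fun w : ℂ => φ (ofComplex w)) {w | 0 < w.im}) {r : ℕ} (k : Fin r → ℕ)
    (v : ∀ i, Fin (k i) → ℂ) {ψ : ℂ → ℝ} (hψU : tsupport ψ ⊆ {w | 0 < w.im}) :
    ((∫ z, ψ z * angJet ρ φ m k v (ofComplex z) : ℝ) : ℂ) =
      ∫ z : ℂ, ∫ θ, (ψ z : ℂ) * ∏ s, JJ ρ (1 / m) (ww φ (1 / m) z) (v s) z θ ∂ang := by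
  rw [← integral_complex_ofReal]
  congr 1
  funext z
  by_cases hz : 0 < z.im
  · rw [Complex.ofReal_mul]
    unfold angJet
    rw [← integral_complex_ofReal, ← integral_const_mul]
    congr 1
    funext θ
    unfold jetProd
    rw [Complex.ofReal_prod]
    congr 1
    apply Finset.prod_congr rfl
    intro s _
    exact wexp_eq hWexp ρ φ m hm hφ z hz θ (v s)
  · rw [psi_zero hψU hz]
    simp

theorem prod_zpow_sum {ι : Type} (S : Finset ι) {u : ℂ} (hu : u ≠ 0) (f : ι → ℤ) :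
    ∏ s ∈ S, u ^ (f s) = u ^ (∑ s ∈ S, f s) := by
  classical
  induction S using Finset.induction_on with
  | empty => simp
  | insert a S ha ih => rw [Finset.prod_insert ha, Finset.sum_insert ha, zpow_add₀ hu, ih]

theorem sqrt_inv (ρ : ℍ → ℝ) {z : ℂ} (hz : 0 < z.im) :
    (Real.sqrt (Real.exp (2 * ρ (ofComplex z)) / z.im ^ 2))⁻¹ = bb ρ z := by
  have h1 : Real.exp (2 * ρ (ofComplex z)) / z.im ^ 2 = (Real.exp (ρ (ofComplex z)) / z.im) ^ 2 := by
    rw [div_pow, ← Real.exp_nat_mul]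
    norm_num
  rw [h1, Real.sqrt_sq (by positivity)]
  unfold bb
  rw [inv_div, Real.exp_neg]
  field_simp

theorem LL_prod (ρ : ℍ → ℝ) (w : ℕ → ℕ → ℂ) {r : ℕ} (k : Fin r → ℕ) (v : ∀ i, Fin (k i) → ℂ)
    (z : ℂ) (θ : ℝ) : ∏ s, LL ρ w (v s) z θ =
      ∑ a ∈ Fintype.piFinset fun i => Finset.range (k i + 1),
        ((∏ i, sc (v i) (a i)) * ∏ i, ((bb ρ z : ℂ) ^ (k i) * w (a i) (k i - a i))) *
          uu θ ^ (2 * ∑ i, ((a i : ℤ) - (k i - a i : ℕ))) := by
  unfold LL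
  rw [Finset.prod_univ_sum]
  apply Finset.sum_congr rfl
  intro a ha
  rw [Fintype.mem_piFinset] at ha
  rw [Finset.mul_sum, ← prod_zpow_sum _ (uu_ne θ), ← Finset.prod_mul_distrib,
    ← Finset.prod_mul_distrib]
  apply Finset.prod_congr rfl
  intro i _
  have hi : a i ≤ k i := Nat.lt_succ_iff.mp (Finset.mem_range.mp (ha i))
  rw [kap_lead ρ hi z θ]
  ring

theorem ang_LL (ρ : ℍ → ℝ) (w : ℕ → ℕ → ℂ) {r : ℕ} (k : Fin r → ℕ) (v : ∀ i, Fin (k i) → ℂ)
    (z : ℂ) (c : ℂ) : ∫ θ, c * ∏ s, LL ρ w (v s) z θ ∂ang =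
      ∑ a ∈ Fintype.piFinset fun i => Finset.range (k i + 1),
        if ∑ i, ((a i : ℤ) - (k i - a i : ℕ)) = 0 then
          (∏ i, sc (v i) (a i)) * (c * ∏ i, ((bb ρ z : ℂ) ^ (k i) * w (a i) (k i - a i)))
        else 0 := by
  simp only [LL_prod]
  rw [integral_const_mul, integral_finsetSum _
    (fun a _ => (ang_integrable ((continuous_uu_zpow _).const_mul _ : Continuous _)))]
  rw [Finset.mul_sum]
  apply Finset.sum_congr rfl
  intro a _
  rw [integral_const_mul, ang_zpow]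
  by_cases h : ∑ i, ((a i : ℤ) - (k i - a i : ℕ)) = 0
  · rw [if_pos h, if_pos (by rw [h, mul_zero])]
    ring
  · rw [if_neg h, if_neg (by intro h2; apply h; omega)]
    ring

theorem tsupport_coe (ψ : ℂ → ℝ) : tsupport (fun z => (ψ z : ℂ)) ⊆ tsupport ψ := by
  apply closure_mono
  intro z hz
  rw [Function.mem_support] at hz ⊢
  intro h
  apply hz
  rw [h, Complex.ofReal_zero]

theorem right_eq {ρ : ℍ → ℝ} (hρ : ContinuousOn (fun w : ℂ => ρ (ofComplex w)) {w | 0 < w.im})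
    (φ : ℕ → ℍ → ℝ) (m : ℕ → ℝ)
    (hφ : ∀ n, ContDiffOn ℝ ∞ (fun w : ℂ => φ n (ofComplex w)) {w | 0 < w.im}) {r : ℕ}
    (k : Fin r → ℕ) (v : ∀ i, Fin (k i) → ℂ) {ψ : ℂ → ℝ} (hψ : Continuous ψ)
    (hψc : HasCompactSupport ψ) (hψU : tsupport ψ ⊆ {w | 0 < w.im}) (n : ℕ) :
    (∑ a ∈ Fintype.piFinset fun i => Finset.range (k i + 1),
      if ∑ i, ((a i : ℤ) - (k i - a i : ℕ)) = 0 then
        (∏ i, sc (v i) (a i)) * ∫ z, (ψ z : ℂ) * ∏ i,
          Wg (fun z => Real.exp (2 * ρ (ofComplex z)) / z.im ^ 2) (fun n => 1 / m n)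
            (fun n z => (φ n (ofComplex z) : ℂ)) (a i) (k i - a i) n z
      else 0) =
    ∫ z : ℂ, ∫ θ, (ψ z : ℂ) * ∏ s, LL ρ (ww (φ n) (1 / m n) z) (v s) z θ ∂ang := by
  have hψ' : Continuous fun z => (ψ z : ℂ) := Complex.continuous_ofReal.comp hψ
  have hψc' : HasCompactSupport fun z => (ψ z : ℂ) := hψc.comp_left Complex.ofReal_zero
  have hs' : tsupport (fun z => (ψ z : ℂ)) ⊆ {w | 0 < w.im} := (tsupport_coe ψ).trans hψU
  have hint : ∀ a : Fin r → ℕ, Integrable fun z : ℂ => (ψ z : ℂ) *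
      ∏ i, ((bb ρ z : ℂ) ^ (k i) * ww (φ n) (1 / m n) z (a i) (k i - a i)) := by
    intro a
    apply Continuous.integrable_of_hasCompactSupport
    · refine continuous_cut (p := fun z => z) upper_open hψ' hs' continuous_id ?_
      refine continuousOn_finsetProd _ fun i _ => ?_
      refine ContinuousOn.mul ?_ (contOn_ww (hφ n) _ _ _)
      exact (Complex.continuous_ofReal.comp_continuousOn (contOn_bb hρ)).pow _
    · exact hψc'.mul_right
  simp only [ang_LL]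
  rw [integral_finsetSum]
  · apply Finset.sum_congr rfl
    intro a ha
    rw [Fintype.mem_piFinset] at ha
    by_cases hc : ∑ i, ((a i : ℤ) - (k i - a i : ℕ)) = 0
    · simp only [if_pos hc]
      rw [integral_const_mul]
      congr 2
      funext z
      by_cases hz : 0 < z.im
      · congr 1
        apply Finset.prod_congr rfl
        intro i _
        have hi : a i ≤ k i := Nat.lt_succ_iff.mp (Finset.mem_range.mp (ha i))
        unfold Wg
        beta_reduce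
        rw [sqrt_inv ρ hz, Nat.add_sub_cancel' hi, Complex.ofReal_pow]
        rfl
      · rw [psi_zero hψU hz]
        simp
    · simp only [if_neg hc]
      simp
  · intro a _
    by_cases hc : ∑ i, ((a i : ℤ) - (k i - a i : ℕ)) = 0
    · simp only [if_pos hc]
      exact (hint a).const_mul _
    · simp only [if_neg hc]
      exact integrable_zero _ _ _

theorem contOn_SS {U : Set ℂ} {w : ℂ → ℕ → ℕ → ℂ}
    (hw : ∀ i j, ContinuousOn (fun z => w z i j) U) (k : ℕ) :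
    ContinuousOn (fun z => SS (w z) k) U := by
  unfold SS
  exact continuousOn_finsetSum _ fun p _ => (hw p.1 p.2).norm

theorem diff_bound {ρ : ℍ → ℝ} (hρ : ContinuousOn (fun w : ℂ => ρ (ofComplex w)) {w | 0 < w.im})
    {h : ℝ} (h0 : 0 ≤ h) (h1 : h ≤ 1) {w : ℂ → ℕ → ℕ → ℂ}
    (hw : ∀ i j, ContinuousOn (fun z => w z i j) {w : ℂ | 0 < w.im}) {r : ℕ} (k : Fin r → ℕ)
    (v : ∀ i, Fin (k i) → ℂ) {ψ : ℂ → ℝ} (hψ : Continuous ψ) (hψc : HasCompactSupport ψ)
    (hψU : tsupport ψ ⊆ {w | 0 < w.im}) {B M : ℝ} (hb : ∀ z ∈ tsupport ψ, |bb ρ z| ≤ B)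
    (he : ∀ z ∈ tsupport ψ, |e1 ρ z| ≤ B) (hM : ∀ z, |ψ z| ≤ M) :
    ‖(∫ z : ℂ, ∫ θ, (ψ z : ℂ) * ∏ s, JJ ρ h (w z) (v s) z θ ∂ang) -
        ∫ z : ℂ, ∫ θ, (ψ z : ℂ) * ∏ s, LL ρ (w z) (v s) z θ ∂ang‖ ≤
      M * r * (∏ s, CC (v s) B) * (h * ∫ z in tsupport ψ, ∏ s, SS (w z) (k s)) := by
  have hψ' : Continuous fun z => (ψ z : ℂ) := Complex.continuous_ofReal.comp hψ
  have hs' : tsupport (fun z => (ψ z : ℂ)) ⊆ {w | 0 < w.im} := (tsupport_coe ψ).trans hψU
  have cJ : Continuous fun p : ℂ × ℝ => (ψ p.1 : ℂ) * ∏ s, JJ ρ h (w p.1) (v s) p.1 p.2 :=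
    continuous_cut upper_open hψ' hs' continuous_fst
      (continuousOn_finsetProd _ fun s _ => contOn_JJ hρ h hw (v s))
  have cL : Continuous fun p : ℂ × ℝ => (ψ p.1 : ℂ) * ∏ s, LL ρ (w p.1) (v s) p.1 p.2 :=
    continuous_cut upper_open hψ' hs' continuous_fst
      (continuousOn_finsetProd _ fun s _ => contOn_LL hρ hw (v s))
  have z0 : ∀ z ∉ tsupport ψ, (ψ z : ℂ) = 0 := fun z hz => by
    rw [image_eq_zero_of_notMem_tsupport hz, Complex.ofReal_zero]
  have hsupp : ∀ F : ℂ → ℝ → ℂ, HasCompactSupport fun z => ∫ θ, (ψ z : ℂ) * F z θ ∂ang := by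
    intro F
    apply HasCompactSupport.intro hψc
    intro z hz
    simp only [z0 z hz, zero_mul, integral_zero]
  have iJ : Integrable fun z : ℂ => ∫ θ, (ψ z : ℂ) * ∏ s, JJ ρ h (w z) (v s) z θ ∂ang :=
    (continuous_ang cJ).integrable_of_hasCompactSupport (hsupp _)
  have iL : Integrable fun z : ℂ => ∫ θ, (ψ z : ℂ) * ∏ s, LL ρ (w z) (v s) z θ ∂ang :=
    (continuous_ang cL).integrable_of_hasCompactSupport (hsupp _)
  rw [← integral_sub iJ iL]
  have hz0 : ∀ z ∉ tsupport ψ, (∫ θ, (ψ z : ℂ) * ∏ s, JJ ρ h (w z) (v s) z θ ∂ang) -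
      (∫ θ, (ψ z : ℂ) * ∏ s, LL ρ (w z) (v s) z θ ∂ang) = 0 := by
    intro z hz
    simp only [z0 z hz, zero_mul, integral_zero, sub_zero]
  rw [← setIntegral_eq_integral_of_forall_compl_eq_zero hz0]
  have hiS : IntegrableOn (fun z => ∏ s, SS (w z) (k s)) (tsupport ψ) :=
    ContinuousOn.integrableOn_compact hψc
      (continuousOn_finsetProd _ fun s _ => (contOn_SS hw (k s)).mono hψU)
  have hfin : M * r * (∏ s, CC (v s) B) * (h * ∫ z in tsupport ψ, ∏ s, SS (w z) (k s)) =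
      ∫ z in tsupport ψ, (M * r * (∏ s, CC (v s) B) * h) * ∏ s, SS (w z) (k s) := by
    rw [integral_const_mul]
    ring
  rw [hfin]
  refine norm_integral_le_of_norm_le (hiS.const_mul _) ?_
  refine (ae_restrict_iff' (isClosed_tsupport ψ).measurableSet).mpr (Eventually.of_forall ?_)
  intro z hz
  have cJz : Continuous fun θ => (ψ z : ℂ) * ∏ s, JJ ρ h (w z) (v s) z θ :=
    cJ.comp (Continuous.prodMk_right z)
  have cLz : Continuous fun θ => (ψ z : ℂ) * ∏ s, LL ρ (w z) (v s) z θ :=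
    cL.comp (Continuous.prodMk_right z)
  rw [← integral_sub (ang_integrable cJz) (ang_integrable cLz)]
  have hpt : ∀ θ, ‖(ψ z : ℂ) * ∏ s, JJ ρ h (w z) (v s) z θ -
      (ψ z : ℂ) * ∏ s, LL ρ (w z) (v s) z θ‖ ≤
      (M * r * (∏ s, CC (v s) B) * h) * ∏ s, SS (w z) (k s) := by
    intro θ
    rw [← mul_sub, norm_mul]
    have e : ∏ s, JJ ρ h (w z) (v s) z θ =
        ∏ s, (LL ρ (w z) (v s) z θ + h * RM ρ h (w z) (v s) z θ) :=
      Finset.prod_congr rfl fun s _ => JJ_eq ρ h (w z) (v s) z θ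
    rw [e]
    have h3 := prod_diff Finset.univ (fun s => LL ρ (w z) (v s) z θ)
      (fun s => RM ρ h (w z) (v s) z θ) (fun s => CC (v s) B * SS (w z) (k s)) h0 h1
      (fun s _ => norm_LR_le (v s) h0 h1 (hb z hz) (he z hz) θ)
    rw [Finset.card_univ, Fintype.card_fin, Finset.prod_mul_distrib] at h3
    have h4 : ‖(ψ z : ℂ)‖ ≤ M := by
      rw [Complex.norm_real, Real.norm_eq_abs]
      exact hM z
    calc ‖(ψ z : ℂ)‖ * ‖∏ s, (LL ρ (w z) (v s) z θ + h * RM ρ h (w z) (v s) z θ) -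
          ∏ s, LL ρ (w z) (v s) z θ‖
        ≤ M * (h * r * ((∏ s, CC (v s) B) * ∏ s, SS (w z) (k s))) :=
          mul_le_mul h4 h3 (norm_nonneg _) ((norm_nonneg _).trans h4)
      _ = _ := by ring
  have h5 := norm_integral_le_of_norm_le_const (μ := ang) (Eventually.of_forall hpt)
  rw [probReal_univ, mul_one] at h5
  exact h5

theorem prod_SS (w : ℕ → ℕ → ℂ) {r : ℕ} (k : Fin r → ℕ) : ∏ s, SS w (k s) =
    ∑ P ∈ Fintype.piFinset fun s => Finset.range (k s + 1) ×ˢ Finset.range (k s + 1),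
      ‖∏ s, w (P s).1 (P s).2‖ := by
  unfold SS
  rw [Finset.prod_univ_sum]
  apply Finset.sum_congr rfl
  intro P _
  rw [norm_prod]

end MAIN

open _root_.QJ.MAIN in
theorem stmtMain (hWexp : StmtWexp) (hLWE : StmtLWE) : StmtMain := by
  intro ρ φ m hρ hm hφ hQE r k v hr ψ hψ hψc hψU
  have hρc := hρ.continuousOn
  -- the two sides
  have hsides : ∀ n, ((∫ z, ψ z * angJet ρ (φ n) (m n) k v (ofComplex z) : ℝ) : ℂ)
        - (∑ a ∈ Fintype.piFinset fun i => Finset.range (k i + 1),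
          if ∑ i, ((a i : ℤ) - (k i - a i : ℕ)) = 0 then
            (∏ i, sc (v i) (a i)) * ∫ z, (ψ z : ℂ) * ∏ i,
              Wg (fun z => Real.exp (2 * ρ (ofComplex z)) / z.im ^ 2) (fun n => 1 / m n)
                (fun n z => (φ n (ofComplex z) : ℂ)) (a i) (k i - a i) n z
          else 0) =
      (∫ z : ℂ, ∫ θ, (ψ z : ℂ) * ∏ s, JJ ρ (1 / m n) (ww (φ n) (1 / m n) z) (v s) z θ ∂ang) -
        ∫ z : ℂ, ∫ θ, (ψ z : ℂ) * ∏ s, LL ρ (ww (φ n) (1 / m n) z) (v s) z θ ∂ang := by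
    intro n
    rw [left_eq hWexp ρ (φ n) (m n) (hm n) (hφ n) k v hψU,
      right_eq hρc φ m hφ k v hψ.continuous hψc hψU n]
  simp only [hsides]
  -- bounds
  obtain ⟨B1, hB1⟩ := hψc.isCompact.exists_bound_of_continuousOn ((contOn_bb hρc).mono hψU)
  obtain ⟨B2, hB2⟩ := hψc.isCompact.exists_bound_of_continuousOn ((contOn_e1 hρc).mono hψU)
  obtain ⟨M, hM⟩ := hψc.exists_bound_of_continuous hψ.continuous
  have hlim : Tendsto (fun n => 1 / m n) atTop (𝓝 0) := hQE.hlim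
  have hev : ∀ᶠ n in atTop, 1 / m n ≤ 1 := hlim.eventually_le_const one_pos
  have hg : ContDiffOn ℝ ∞ (fun z : ℂ => Real.exp (2 * ρ (ofComplex z)) / z.im ^ 2)
      {z | 0 < z.im} := by
    apply ContDiffOn.div
    · exact Real.contDiff_exp.comp_contDiffOn (contDiffOn_const.mul hρ)
    · exact (Complex.imCLM.contDiff.pow 2).contDiffOn
    · intro z hz
      exact pow_ne_zero 2 (ne_of_gt hz)
  have hE : ∀ P : Fin r → ℕ × ℕ, Tendsto (fun n => 1 / m n *
      ∫ z in tsupport ψ, ‖∏ s, ww (φ n) (1 / m n) z (P s).1 (P s).2‖) atTop (𝓝 0) := by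
    intro P
    exact hLWE {z | 0 < z.im} _ (fun n => 1 / m n) (fun n z => (φ n (ofComplex z) : ℂ)) upper_open
      hg (fun z hz => div_pos (Real.exp_pos _) (pow_pos hz 2)) hQE (tsupport ψ) hψc hψU r
      (fun s => (P s).1) (fun s => (P s).2) hr
  have hsum : Tendsto (fun n => 1 / m n * ∫ z in tsupport ψ, ∏ s, SS (ww (φ n) (1 / m n) z) (k s))
      atTop (𝓝 0) := by
    have h1 := tendsto_finsetSum
      (Fintype.piFinset fun s => Finset.range (k s + 1) ×ˢ Finset.range (k s + 1))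
      (fun P _ => hE P)
    rw [Finset.sum_const_zero] at h1
    refine h1.congr fun n => ?_
    rw [← Finset.mul_sum]
    congr 1
    simp only [prod_SS]
    rw [integral_finsetSum]
    intro P _
    apply ContinuousOn.integrableOn_compact hψc
    refine ContinuousOn.norm ?_
    exact continuousOn_finsetProd _ fun s _ => (contOn_ww (hφ n) _ _ _).mono hψU
  have hlast := hsum.const_mul (M * r * ∏ s, CC (v s) (max B1 B2))
  rw [mul_zero] at hlast
  refine squeeze_zero_norm' ?_ hlast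
  filter_upwards [hev] with n hn
  exact diff_bound hρc (one_div_pos.mpr (hm n)).le hn (contOn_ww (hφ n) _) k v hψ.continuous hψc
    hψU (fun z hz => (hB1 z hz).trans (le_max_left _ _))
    (fun z hz => (hB2 z hz).trans (le_max_right _ _)) hM

end

end QJ


end
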