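import Mathlib
import Pool.Agent.BWM.C17
import Pool.Agent.BWM.C23
import Pool.Agent.BWM.C28

/-! Parts: QJ.SUM, U3.CLS, U3.JCA, U3.SUB -/

section

/-!
SUM: the finite sums of the cubic argument.
-/

open Complex MeasureTheory Filter Topology Set

namespace QJ

namespace SUM

theorem root_facts {w : ℂ} (hw : w = Complex.exp (2 * Real.pi * Complex.I / 3)) :
    w ^ 3 = 1 ∧ w ≠ 1 ∧ w ≠ 0 ∧ 1 + w + w ^ 2 = 0 := by
  have hp : IsPrimitiveRoot w 3 := by
    rw [hw]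
    exact_mod_cast Complex.isPrimitiveRoot_exp 3 (by norm_num)
  have h3 : w ^ 3 = 1 := hp.pow_eq_one
  have h1 : w ≠ 1 := hp.ne_one (by norm_num)
  have h0 : w ≠ 0 := by
    rintro rfl
    norm_num at h3
  refine ⟨h3, h1, h0, ?_⟩
  have h : (w - 1) * (1 + w + w ^ 2) = 0 := by
    have : (w - 1) * (1 + w + w ^ 2) = w ^ 3 - 1 := by ring
    rw [this, h3, sub_self]
  rcases mul_eq_zero.1 h with h | h
  · exact absurd (sub_eq_zero.1 h) h1
  · exact h

theorem geom_zero {z : ℂ} {N : ℕ} (h6 : z ^ 6 = 1) (h1 : z ≠ 1) (hN : 6 ∣ N) :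
    ∑ b ∈ Finset.range N, z ^ b = 0 := by
  obtain ⟨k, rfl⟩ := hN
  rw [geom_sum_eq h1, pow_mul, h6, one_pow, sub_self, zero_div]

theorem double_zero {z y : ℂ} {N : ℕ} (h6 : z ^ 6 = 1) (h1 : z ≠ 1) (hN : 6 ∣ N) :
    ∑ b ∈ Finset.range N, ∑ c ∈ Finset.range N, z ^ b * y ^ c = 0 := by
  rw [← Finset.sum_mul_sum, geom_zero h6 h1 hN, zero_mul]

theorem zsub {w : ℂ} (h0 : w ≠ 0) (b c : ℕ) : w ^ ((b : ℤ) - c) = w ^ b * w⁻¹ ^ c := by
  rw [zpow_sub₀ h0, zpow_natCast, zpow_natCast, div_eq_mul_inv, inv_pow]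

theorem cl3_term {w : ℂ} (h3 : w ^ 3 = 1) (h0 : w ≠ 0) (hs : 1 + w + w ^ 2 = 0) (b c : ℕ) :
    w ^ ((b : ℤ) - c) * cl3 (b : ℤ) c = (1 / 2) * ((w ^ 2) ^ b * ((w ^ 2)⁻¹) ^ c) + 1 / 2 := by
  have h2 : (w ^ 2) ^ b * ((w ^ 2)⁻¹) ^ c = w ^ (2 * ((b : ℤ) - c)) := by
    rw [← zsub (pow_ne_zero 2 h0), ← zpow_natCast w 2, ← zpow_mul]
    norm_num
  rw [h2]
  set k : ℤ := (b : ℤ) - c with hk
  have hz3 : w ^ (3 : ℤ) = 1 := by exact_mod_cast h3
  have hcl : cl3 (b : ℤ) c = if k % 3 = 0 then 1 else -1 / 2 := rfl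
  rw [hcl]
  have hw2 : w ^ 2 = -w - 1 := by linear_combination hs
  obtain ⟨m, hm⟩ : ∃ m : ℤ, k = 3 * m ∨ k = 3 * m + 1 ∨ k = 3 * m + 2 := ⟨k / 3, by omega⟩
  rcases hm with hm | hm | hm
  · have e1 : w ^ k = 1 := by rw [hm, zpow_mul, hz3, one_zpow]
    have e2 : w ^ (2 * k) = 1 := by rw [mul_comm, zpow_mul, e1, one_zpow]
    rw [if_pos (by omega), e1, e2]; norm_num
  · have e1 : w ^ k = w := by rw [hm, zpow_add₀ h0, zpow_mul, hz3, one_zpow, zpow_one, one_mul]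
    have e2 : w ^ (2 * k) = w ^ 2 := by
      rw [mul_comm, zpow_mul, e1]; norm_cast
    rw [if_neg (by omega), e1, e2, hw2]; ring
  · have e1 : w ^ k = w ^ 2 := by
      rw [hm, zpow_add₀ h0, zpow_mul, hz3, one_zpow, one_mul]; norm_cast
    have e2 : w ^ (2 * k) = w := by
      rw [mul_comm, zpow_mul, e1]
      have : ((w ^ 2) ^ (2 : ℤ) : ℂ) = w ^ 3 * w := by
        norm_cast
        ring
      rw [this, h3, one_mul]
    rw [if_neg (by omega), e1, e2, hw2]; ring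

theorem neg_pow_zsub (b c : ℕ) : ((-1 : ℂ)) ^ ((b : ℤ) - c) = (-1) ^ b * (-1) ^ c := by
  rw [zsub (by norm_num), show ((-1 : ℂ)⁻¹) = -1 by norm_num]

theorem neg_one_even {k : ℤ} (h : k % 2 = 0) : ((-1 : ℂ)) ^ k = 1 :=
  (Int.even_iff.2 h).neg_one_zpow

theorem neg_one_odd {k : ℤ} (h : k % 2 = 1) : ((-1 : ℂ)) ^ k = -1 :=
  (Int.odd_iff.2 h).neg_one_zpow

theorem cl4_even (b b' c : ℕ) (hc : c % 2 = 0) :
    cl4 (-(b : ℤ) - c) b ((b' : ℤ) + c) (-(b' : ℤ)) = 1 / 3 + (2 / 3) * ((-1) ^ b * (-1) ^ b') := by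
  rw [← neg_pow_zsub, cl4]
  by_cases h : ((b : ℤ) - b') % 2 = 0
  · rw [neg_one_even h, if_pos (by refine ⟨?_, ?_, ?_⟩ <;> omega)]
    norm_num
  · rw [neg_one_odd (by omega), if_neg (by omega)]
    norm_num

theorem cl4_odd (b b' c : ℕ) (hc : c % 2 = 1) :
    cl4 (-(b : ℤ) - c) b ((b' : ℤ) + c) (-(b' : ℤ)) = -1 / 3 := by
  rw [cl4, if_neg (by omega)]

/-- the three pairings -/
theorem wk_term (b b' c : ℕ) :
    wk (-(b : ℤ) - c) b ((b' : ℤ) + c) (-(b' : ℤ)) =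
      (if c = 0 then (-1) ^ b * (-1) ^ b' else 0) + (if b' = b then (-1) ^ c else 0) +
      (if c = 0 then (if b = 0 then (if b' = 0 then 1 else 0) else 0) else 0) := by
  rw [wk]
  congr 1
  · congr 1
    · by_cases hc : c = 0
      · subst hc
        rw [if_pos rfl, P, P, if_pos (by push_cast; ring), if_pos (by push_cast; ring),
          ← neg_pow_zsub, ← zpow_add₀ (by norm_num)]
        have h : (-(b : ℤ) - ((0 : ℕ) : ℤ) + ((b' : ℤ) + ((0 : ℕ) : ℤ))) = -((b : ℤ) - b') := by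
          push_cast; ring
        rw [h, zpow_neg, ← inv_zpow, show ((-1 : ℂ)⁻¹) = -1 by norm_num]
      · rw [if_neg hc, P, if_neg (by omega), zero_mul]
    · by_cases h : b' = b
      · subst h
        rw [if_pos rfl, P, P, if_pos (by ring), if_pos (by ring), ← zpow_add₀ (by norm_num)]
        have h : (-(b' : ℤ) - c + b') = -(c : ℤ) := by ring
        rw [h, zpow_neg, ← inv_zpow, show ((-1 : ℂ)⁻¹) = -1 by norm_num, zpow_natCast]
      · rw [if_neg h, P, if_neg (by omega), zero_mul]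
  · by_cases hc : c = 0
    · by_cases hb : b = 0
      · by_cases hb' : b' = 0
        · subst hc hb hb'
          simp [P]
        · rw [if_pos hc, if_pos hb, if_neg hb', P, if_neg (by omega), zero_mul]
      · rw [if_pos hc, if_neg hb, P, if_neg (by omega), zero_mul]
    · rw [if_neg hc, P, if_neg (by omega), zero_mul]

end SUM

open _root_.QJ.SUM in
theorem stmtSum : StmtSum := by
  intro w N hw hN hN0
  obtain ⟨h3, h1, h0, hs⟩ := root_facts hw
  have h6 : w ^ 6 = 1 := by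
    have : w ^ 6 = (w ^ 3) ^ 2 := by ring
    rw [this, h3, one_pow]
  have hm6 : (-w) ^ 6 = 1 := by
    have : (-w) ^ 6 = w ^ 6 := by ring
    rw [this, h6]
  have hm1 : -w ≠ 1 := by
    intro h
    have h4 : (-w) ^ 3 = 1 := by rw [h, one_pow]
    have h5 : (-w) ^ 3 = -1 := by
      have : (-w) ^ 3 = -(w ^ 3) := by ring
      rw [this, h3]
    rw [h4] at h5
    norm_num at h5
  have hq6 : (w ^ 2) ^ 6 = 1 := by
    have : (w ^ 2) ^ 6 = (w ^ 6) ^ 2 := by ring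
    rw [this, h6, one_pow]
  have hq1 : w ^ 2 ≠ 1 := by
    intro h
    have : w = w ^ 3 := by
      calc w = w ^ 2 * w := by rw [h, one_mul]
        _ = w ^ 3 := by ring
    exact h1 (this.trans h3)
  have hsq : ∀ k : ℕ, ((-1 : ℂ)) ^ k * (-1) ^ k = 1 := by
    intro k
    rw [← mul_pow]; norm_num
  refine ⟨?_, ?_, ?_⟩
  · have e1 : ∀ b ∈ Finset.range N, ∑ c ∈ Finset.range N, w ^ ((b : ℤ) - c) * cl3 (b : ℤ) c =
        ∑ c ∈ Finset.range N, ((1 / 2) * ((w ^ 2) ^ b * ((w ^ 2)⁻¹) ^ c) + 1 / 2) := fun b _ =>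
      Finset.sum_congr rfl fun c _ => cl3_term h3 h0 hs b c
    rw [Finset.sum_congr rfl e1]
    simp only [Finset.sum_add_distrib, ← Finset.mul_sum, Finset.sum_const, Finset.card_range,
      nsmul_eq_mul]
    rw [← Finset.sum_mul, geom_zero hq6 hq1 hN]
    ring
  · refine Finset.sum_eq_zero fun c _ => ?_
    have hA : ∑ b ∈ Finset.range N, ∑ b' ∈ Finset.range N, w ^ b * w⁻¹ ^ b' = 0 :=
      double_zero h6 h1 hN
    have hB : ∑ b ∈ Finset.range N, ∑ b' ∈ Finset.range N, (-w) ^ b * (-w⁻¹) ^ b' = 0 :=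
      double_zero hm6 hm1 hN
    rcases Nat.mod_two_eq_zero_or_one c with hc | hc
    · have e1 : ∀ b b' : ℕ, w ^ ((b : ℤ) - b') * (-1) ^ c *
          cl4 (-(b : ℤ) - c) b ((b' : ℤ) + c) (-(b' : ℤ)) =
          ((-1) ^ c / 3) * (w ^ b * w⁻¹ ^ b') + (2 * (-1) ^ c / 3) * ((-w) ^ b * (-w⁻¹) ^ b') := by
        intro b b'
        rw [cl4_even b b' c hc, zsub h0, neg_pow w, neg_pow w⁻¹]
        ring
      simp only [e1, Finset.sum_add_distrib, ← Finset.mul_sum]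
      simp only [← Finset.mul_sum] at hA hB
      rw [hA, hB]
      ring
    · have e1 : ∀ b b' : ℕ, w ^ ((b : ℤ) - b') * (-1) ^ c *
          cl4 (-(b : ℤ) - c) b ((b' : ℤ) + c) (-(b' : ℤ)) =
          (-(-1) ^ c / 3) * (w ^ b * w⁻¹ ^ b') := by
        intro b b'
        rw [cl4_odd b b' c hc, zsub h0]
        ring
      simp only [e1, ← Finset.mul_sum]
      simp only [← Finset.mul_sum] at hA
      rw [hA]
      ring
  · have e1 : ∀ c b b' : ℕ, w ^ ((b : ℤ) - b') * (-1) ^ c *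
        wk (-(b : ℤ) - c) b ((b' : ℤ) + c) (-(b' : ℤ)) =
        (if c = 0 then (-w) ^ b * (-w⁻¹) ^ b' else 0) + (if b' = b then 1 else 0) +
        (if c = 0 then (if b = 0 then (if b' = 0 then 1 else 0) else 0) else 0) := by
      intro c b b'
      rw [wk_term, mul_add, mul_add]
      congr 1
      · congr 1
        · by_cases hc : c = 0
          · subst hc
            rw [if_pos rfl, if_pos rfl, zsub h0, neg_pow w, neg_pow w⁻¹, pow_zero]
            ring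
          · rw [if_neg hc, if_neg hc, mul_zero]
        · by_cases h : b' = b
          · subst h
            rw [if_pos rfl, if_pos rfl, sub_self, zpow_zero, one_mul, hsq]
          · rw [if_neg h, if_neg h, mul_zero]
      · by_cases hc : c = 0
        · by_cases hb : b = 0
          · by_cases hb' : b' = 0
            · subst hc hb hb'
              simp
            · rw [if_pos hc, if_pos hb, if_neg hb', mul_zero]
          · rw [if_pos hc, if_neg hb, mul_zero]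
        · rw [if_neg hc, mul_zero]
    simp only [e1, Finset.sum_add_distrib]
    have s1 : ∑ c ∈ Finset.range N, ∑ b ∈ Finset.range N, ∑ b' ∈ Finset.range N,
        (if c = 0 then (-w) ^ b * (-w⁻¹) ^ b' else 0) = 0 := by
      refine Finset.sum_eq_zero fun c _ => ?_
      by_cases hc : c = 0
      · simp only [if_pos hc]
        exact double_zero hm6 hm1 hN
      · simp only [if_neg hc, Finset.sum_const_zero]
    have s2 : ∑ c ∈ Finset.range N, ∑ b ∈ Finset.range N, ∑ b' ∈ Finset.range N,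
        (if b' = b then (1 : ℂ) else 0) = (N : ℂ) ^ 2 := by
      have : ∀ b ∈ Finset.range N, ∑ b' ∈ Finset.range N, (if b' = b then (1 : ℂ) else 0) = 1 := by
        intro b hb
        rw [Finset.sum_ite_eq' (Finset.range N) b, if_pos hb]
      rw [Finset.sum_congr rfl fun c _ => Finset.sum_congr rfl this]
      simp only [Finset.sum_const, Finset.card_range, nsmul_eq_mul, mul_one]
      ring
    have s3 : ∑ c ∈ Finset.range N, ∑ b ∈ Finset.range N, ∑ b' ∈ Finset.range N,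
        (if c = 0 then (if b = 0 then (if b' = 0 then (1 : ℂ) else 0) else 0) else 0) = 1 := by
      have h0m : 0 ∈ Finset.range N := Finset.mem_range.2 hN0
      rw [Finset.sum_eq_single_of_mem 0 h0m, Finset.sum_eq_single_of_mem 0 h0m,
        Finset.sum_eq_single_of_mem 0 h0m]
      · simp
      · intro b _ hb
        simp [hb]
      · intro b _ hb
        simp [hb]
      · intro c _ hc
        simp [hc]
    rw [s1, s2, s3]
    ring

end QJ


end

section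

/-!
CLS: the sums of the class functions of the cubic argument.
-/

open Complex MeasureTheory Filter Topology Set
open scoped ContDiff

namespace U3

open QE QJ

namespace CLS

/-- a double geometric sum over a square vanishes -/
theorem pair_zero {z : ℂ} {N : ℕ} (h6 : z ^ 6 = 1) (h1 : z ≠ 1) (hN : 6 ∣ N) :
    ∑ b ∈ Finset.range N ×ˢ Finset.range N, z ^ (b.1 + b.2) = 0 := by
  rw [Finset.sum_product]
  simp only [pow_add]
  rw [← Finset.sum_mul_sum, QJ.SUM.geom_zero h6 h1 hN, zero_mul]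

theorem quad_zero {z y : ℂ} {N : ℕ} (h6 : z ^ 6 = 1) (h1 : z ≠ 1) (hN : 6 ∣ N) :
    ∑ b ∈ Finset.range N ×ˢ Finset.range N, ∑ b' ∈ Finset.range N ×ˢ Finset.range N,
      z ^ (b.1 + b.2) * y ^ (b'.1 + b'.2) = 0 := by
  rw [← Finset.sum_mul_sum, pair_zero h6 h1 hN, zero_mul]

theorem cl3_swap (B c : ℕ) : cl3 (-(B : ℤ) - c) B = cl3 (B : ℤ) c := by
  have h : ((-(B : ℤ) - c - B) % 3 = 0) ↔ (((B : ℤ) - c) % 3 = 0) := by omega
  simp only [cl3, h]

end CLS

open _root_.U3.CLS in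
theorem stmtCls : StmtCls := by
  intro M hM hM0
  obtain ⟨h3, h1, h0, hs⟩ := QJ.SUM.root_facts (w := w3) rfl
  have h6 : w3 ^ 6 = 1 := by
    have : w3 ^ 6 = (w3 ^ 3) ^ 2 := by ring
    rw [this, h3, one_pow]
  have hm6 : (-w3) ^ 6 = 1 := by
    have : (-w3) ^ 6 = w3 ^ 6 := by ring
    rw [this, h6]
  have hm1 : -w3 ≠ 1 := by
    intro h
    have h4 : (-w3) ^ 3 = 1 := by rw [h, one_pow]
    have h5 : (-w3) ^ 3 = -1 := by
      have : (-w3) ^ 3 = -(w3 ^ 3) := by ring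
      rw [this, h3]
    rw [h4] at h5
    norm_num at h5
  have hq6 : (w3 ^ 2) ^ 6 = 1 := by
    have : (w3 ^ 2) ^ 6 = (w3 ^ 6) ^ 2 := by ring
    rw [this, h6, one_pow]
  have hq1 : w3 ^ 2 ≠ 1 := by
    intro h
    have : w3 = w3 ^ 3 := by
      calc w3 = w3 ^ 2 * w3 := by rw [h, one_mul]
        _ = w3 ^ 3 := by ring
    exact h1 (this.trans h3)
  refine ⟨?_, ?_⟩
  · refine Finset.sum_eq_zero fun c _ => ?_
    have hA : ∑ b ∈ Finset.range M ×ˢ Finset.range M, ∑ b' ∈ Finset.range M ×ˢ Finset.range M,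
        w3 ^ (b.1 + b.2) * w3⁻¹ ^ (b'.1 + b'.2) = 0 := quad_zero h6 h1 hM
    have hB : ∑ b ∈ Finset.range M ×ˢ Finset.range M, ∑ b' ∈ Finset.range M ×ˢ Finset.range M,
        (-w3) ^ (b.1 + b.2) * (-w3⁻¹) ^ (b'.1 + b'.2) = 0 := quad_zero hm6 hm1 hM
    rcases Nat.mod_two_eq_zero_or_one c with hc | hc
    · have e1 : ∀ b b' : ℕ × ℕ, w3 ^ (((b.1 : ℤ) + b.2) - (b'.1 + b'.2)) * (-1) ^ c *
          cl4 (-((b.1 : ℤ) + b.2) - c) (b.1 + b.2) (b'.1 + b'.2 + c) (-((b'.1 : ℤ) + b'.2)) =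
          ((-1) ^ c / 3) * (w3 ^ (b.1 + b.2) * w3⁻¹ ^ (b'.1 + b'.2))
            + (2 * (-1) ^ c / 3) * ((-w3) ^ (b.1 + b.2) * (-w3⁻¹) ^ (b'.1 + b'.2)) := by
        intro b b'
        have h4 := QJ.SUM.cl4_even (b.1 + b.2) (b'.1 + b'.2) c hc
        have h5 := QJ.SUM.zsub h0 (b.1 + b.2) (b'.1 + b'.2)
        push_cast at h4 h5
        rw [h4, h5, neg_pow w3, neg_pow w3⁻¹]
        ring
      simp only [e1, Finset.sum_add_distrib, ← Finset.mul_sum]
      simp only [← Finset.mul_sum] at hA hB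
      rw [hA, hB]
      ring
    · have e1 : ∀ b b' : ℕ × ℕ, w3 ^ (((b.1 : ℤ) + b.2) - (b'.1 + b'.2)) * (-1) ^ c *
          cl4 (-((b.1 : ℤ) + b.2) - c) (b.1 + b.2) (b'.1 + b'.2 + c) (-((b'.1 : ℤ) + b'.2)) =
          (-(-1) ^ c / 3) * (w3 ^ (b.1 + b.2) * w3⁻¹ ^ (b'.1 + b'.2)) := by
        intro b b'
        have h4 := QJ.SUM.cl4_odd (b.1 + b.2) (b'.1 + b'.2) c hc
        have h5 := QJ.SUM.zsub h0 (b.1 + b.2) (b'.1 + b'.2)
        push_cast at h4 h5
        rw [h4, h5]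
        ring
      simp only [e1, ← Finset.mul_sum]
      simp only [← Finset.mul_sum] at hA
      rw [hA]
      ring
  · have e1 : ∀ (c : ℕ) (b : ℕ × ℕ),
        w3 ^ (((b.1 : ℤ) + b.2) - c) * cl3 (-((b.1 : ℤ) + b.2) - c) (b.1 + b.2) =
          (1 / 2) * ((w3 ^ 2) ^ (b.1 + b.2) * ((w3 ^ 2)⁻¹) ^ c) + 1 / 2 := by
      intro c b
      have h4 := QJ.SUM.cl3_term h3 h0 hs (b.1 + b.2) c
      rw [← cl3_swap] at h4
      push_cast at h4
      rw [h4]
    simp only [e1, Finset.sum_add_distrib, ← Finset.mul_sum, ← Finset.sum_mul]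
    rw [pair_zero hq6 hq1 hM]
    simp only [zero_mul, mul_zero, zero_add, Finset.sum_const,
      Finset.card_range, Finset.card_product, nsmul_eq_mul]
    push_cast
    ring

end U3


end

section

/-!
Third order statistics of all eigenfunctions on surfaces of negative curvature: the coordinates of
two nearby points of a rotated orbit (helper83).
-/

open MeasureTheory Filter Topology Set
open UpperHalfPlane hiding I
open scoped ContDiff MatrixGroups

namespace U3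

open QE QE.NC QJ

noncomputable section

namespace JCA

/-! ### the rotation -/

theorem r00 : rot3 0 0 = 1 / 2 := rfl
theorem r01 : rot3 0 1 = -(Real.sqrt 3 / 2) := rfl
theorem r10 : rot3 1 0 = Real.sqrt 3 / 2 := rfl
theorem r11 : rot3 1 1 = 1 / 2 := rfl

theorem s3 : Real.sqrt 3 * Real.sqrt 3 = 3 := Real.mul_self_sqrt (by norm_num)

theorem den_rot3 : den rot3 Complex.I = ((1 / 2 : ℝ) : ℂ) + ((Real.sqrt 3 / 2 : ℝ) : ℂ) * Complex.I := by
  unfold den
  rw [r10, r11]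
  ring

theorem iota_rot3 : iota rot3 = (Complex.I * den rot3 Complex.I, den rot3 Complex.I) := by
  rw [den_rot3]
  unfold iota
  rw [r00, r01, r10, r11]
  refine Prod.ext (Complex.ext ?_ ?_) (Complex.ext ?_ ?_) <;> simp

theorem rot3_I : rot3 • UpperHalfPlane.I = UpperHalfPlane.I := by
  apply UpperHalfPlane.ext
  have h := iota_snd_ne rot3
  rw [smul_I_eq, iota_rot3]
  rw [iota_rot3] at h
  rw [mul_div_cancel_right₀ _ h]
  rfl

theorem mul_rot3_I (v : SL(2, ℝ)) : (v * rot3) • UpperHalfPlane.I = v • UpperHalfPlane.I := by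
  rw [mul_smul, rot3_I]

theorem den_mul_rot3 (v : SL(2, ℝ)) :
    den (v * rot3) Complex.I = den v Complex.I * den rot3 Complex.I := by
  rw [den_mul v rot3 I_mem_UH, mob_I, rot3_I]
  rfl

theorem den_rot3_sq : den rot3 Complex.I ^ 2
    = ((-(1 / 2) : ℝ) : ℂ) + ((Real.sqrt 3 / 2 : ℝ) : ℂ) * Complex.I := by
  rw [den_rot3]
  have h : ((Real.sqrt 3 : ℝ) : ℂ) * ((Real.sqrt 3 : ℝ) : ℂ) = 3 := by
    rw [← Complex.ofReal_mul, s3]; norm_num
  have hI := Complex.I_mul_I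
  push_cast
  linear_combination (1 / 4 : ℂ) * Complex.I * Complex.I * h + (3 / 4 : ℂ) * hI

theorem Pr_rot (ρ : ℍ → ℝ) (v : SL(2, ℝ)) :
    Pr ρ v = -(1 / 2) * Pr ρ (v * rot3) + Real.sqrt 3 / 2 * Hr ρ (v * rot3) := by
  have h0 : den v Complex.I ≠ 0 := den_ne_zero v I_mem_UH
  have h1 : den rot3 Complex.I ≠ 0 := den_ne_zero rot3 I_mem_UH
  have e : (1 / den v Complex.I ^ 2 : ℂ)
      = (-(1 / 2) : ℝ) • (1 / den (v * rot3) Complex.I ^ 2)
        + (Real.sqrt 3 / 2 : ℝ) • (Complex.I / den (v * rot3) Complex.I ^ 2) := by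
    rw [den_mul_rot3, Complex.real_smul, Complex.real_smul]
    have e2 : (1 / den v Complex.I ^ 2 : ℂ)
        = den rot3 Complex.I ^ 2 / (den v Complex.I * den rot3 Complex.I) ^ 2 := by
      field_simp
    rw [e2, den_rot3_sq]
    ring
  unfold Pr Hr
  rw [mul_rot3_I, e, map_add, map_smul, map_smul, smul_eq_mul, smul_eq_mul]

/-! ### the entries -/

theorem mul_ent (v g : SL(2, ℝ)) (i j : Fin 2) : (v * g) i j = v i 0 * g 0 j + v i 1 * g 1 j := by
  show ((v * g : SL(2, ℝ)) : Matrix (Fin 2) (Fin 2) ℝ) i j = _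
  rw [Matrix.SpecialLinearGroup.coe_mul, Matrix.mul_apply, Fin.sum_univ_two]

theorem conj_eq (v w : SL(2, ℝ)) :
    (v * rot3)⁻¹ * (w * rot3) = rot3⁻¹ * ((v⁻¹ * w) * rot3) := by group

theorem c_sum (v w : SL(2, ℝ)) :
    ((v * rot3)⁻¹ * (w * rot3)) 0 1 + ((v * rot3)⁻¹ * (w * rot3)) 1 0
      = -(Real.sqrt 3 / 2) * ((v⁻¹ * w) 0 0 - (v⁻¹ * w) 1 1)
        - 1 / 2 * ((v⁻¹ * w) 0 1 + (v⁻¹ * w) 1 0) := by
  rw [conj_eq, Fl.ent01, Fl.ent10]
  simp only [mul_ent (v⁻¹ * w) rot3, r00, r01, r10, r11]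
  linear_combination (-(1 / 4 : ℝ)) * ((v⁻¹ * w) 0 1 + (v⁻¹ * w) 1 0) * s3

theorem c_dif (v w : SL(2, ℝ)) :
    ((v * rot3)⁻¹ * (w * rot3)) 0 0 - ((v * rot3)⁻¹ * (w * rot3)) 1 1
      = -(1 / 2) * ((v⁻¹ * w) 0 0 - (v⁻¹ * w) 1 1)
        + Real.sqrt 3 / 2 * ((v⁻¹ * w) 0 1 + (v⁻¹ * w) 1 0) := by
  rw [conj_eq, Fl.ent00, Fl.ent11]
  simp only [mul_ent (v⁻¹ * w) rot3, r00, r01, r10, r11]
  linear_combination (-(1 / 4 : ℝ)) * ((v⁻¹ * w) 0 0 - (v⁻¹ * w) 1 1) * s3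

theorem c_alt (v w : SL(2, ℝ)) :
    ((v * rot3)⁻¹ * (w * rot3)) 1 0 - ((v * rot3)⁻¹ * (w * rot3)) 0 1
      = (v⁻¹ * w) 1 0 - (v⁻¹ * w) 0 1 := by
  rw [conj_eq, Fl.ent01, Fl.ent10]
  simp only [mul_ent (v⁻¹ * w) rot3, r00, r01, r10, r11]
  linear_combination (1 / 4 : ℝ) * ((v⁻¹ * w) 1 0 - (v⁻¹ * w) 0 1) * s3

/-! ### second order estimate -/

theorem quad {f f' : ℝ → ℝ} {C : ℝ} (hC : 0 ≤ C) (hf : ∀ s, HasDerivAt f (f' s) s)
    (hb : ∀ s, |s| ≤ 1 → |f' s - f' 0| ≤ C * |s|) {a : ℝ} (ha : |a| ≤ 1) :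
    |f a - f 0 - f' 0 * a| ≤ C * a ^ 2 := by
  have hg : ∀ s, HasDerivAt (fun s => f s - f' 0 * s) (f' s - f' 0) s := fun s =>
    ((hf s).sub ((hasDerivAt_id s).const_mul (f' 0))).congr_deriv (by ring)
  have h := Convex.norm_image_sub_le_of_norm_hasDerivWithin_le (f := fun s => f s - f' 0 * s)
    (f' := fun s => f' s - f' 0) (C := C * |a|)
    (s := Icc (-|a|) |a|) (x := 0) (y := a) (fun x _ => (hg x).hasDerivWithinAt)
    (fun x hx => by
      rw [Real.norm_eq_abs]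
      have hx' : |x| ≤ |a| := abs_le.2 hx
      exact (hb x (hx'.trans ha)).trans (mul_le_mul_of_nonneg_left hx' hC)) (convex_Icc _ _)
    ⟨by linarith [abs_nonneg a], abs_nonneg a⟩ (abs_le.1 le_rfl)
  have e1 : f a - f' 0 * a - (f 0 - f' 0 * 0) = f a - f 0 - f' 0 * a := by ring
  simp only [Real.norm_eq_abs, sub_zero, e1] at h
  refine h.trans (le_of_eq ?_)
  rw [mul_assoc, abs_mul_abs_self]
  ring

/-- bounds and increments of the coefficients -/
theorem coef {Γ : Subgroup SL(2, ℝ)} {ρ : ℍ → ℝ} (hF : Fac Γ ρ) :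
    ∃ M D : ℝ, 0 ≤ M ∧ 0 ≤ D ∧ (∀ g, |Fl.ca ρ g| ≤ M) ∧ (∀ g, |Fl.cb ρ g| ≤ M) ∧
      (∀ v w, |Fl.ca ρ w - Fl.ca ρ v| ≤ D * dd v w) ∧
      (∀ v w, |Fl.cb ρ w - Fl.cb ρ v| ≤ D * dd v w) := by
  obtain ⟨-, -, -, -, -, B, L, hB, hL, bρ, bP, -, lρ, lP, -⟩ := stmtLip Γ ρ hF
  have hE : ∀ g : SL(2, ℝ), 0 < Real.exp (-ρ (g • UpperHalfPlane.I)) ∧
      Real.exp (-ρ (g • UpperHalfPlane.I)) ≤ Real.exp B := fun g =>
    ⟨Real.exp_pos _, Real.exp_le_exp.2 (by linarith [(abs_le.1 (bρ (g • UpperHalfPlane.I))).1])⟩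
  have hEB : 0 < Real.exp B := Real.exp_pos B
  have hEL : ∀ v w : SL(2, ℝ), |Real.exp (-ρ (w • UpperHalfPlane.I)) -
      Real.exp (-ρ (v • UpperHalfPlane.I))| ≤ Real.exp B * (L * dd v w) := by
    intro v w
    have h1 := Fl.exp_lip (x := -ρ (w • UpperHalfPlane.I)) (y := -ρ (v • UpperHalfPlane.I))
      (B := B) (by linarith [(abs_le.1 (bρ (w • UpperHalfPlane.I))).1])
      (by linarith [(abs_le.1 (bρ (v • UpperHalfPlane.I))).1])
    refine h1.trans (mul_le_mul_of_nonneg_left ?_ hEB.le)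
    have h2 := lρ v w
    rw [abs_sub_comm] at h2
    have h3 : -ρ (w • UpperHalfPlane.I) - -ρ (v • UpperHalfPlane.I) =
      ρ (v • UpperHalfPlane.I) - ρ (w • UpperHalfPlane.I) := by ring
    rw [h3]
    exact h2
  set M : ℝ := Real.exp B * (1 + B) with hMdef
  have hM : 0 ≤ M := by positivity
  have hdd : ∀ v w, 0 ≤ dd v w := fun v w => by
    unfold dd nn; (clear * -; positivity)
  refine ⟨M, M * L, hM, by positivity, ?_, ?_, ?_, ?_⟩
  · intro g
    have h1 := hE g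
    unfold Fl.ca
    rw [abs_of_pos (by linarith)]
    have : Real.exp B ≤ M := by rw [hMdef]; nlinarith only [hB, hEB]
    linarith
  · intro g
    have h1 := hE g
    unfold Fl.cb
    have h2 : |Real.exp (-ρ (g • UpperHalfPlane.I)) * Pr ρ g| ≤ Real.exp B * B :=
      Fl.abs_mul_le (by rw [abs_of_pos h1.1]; exact h1.2) (bP g)
    rw [abs_div, abs_of_pos (by norm_num : (0 : ℝ) < 2)]
    have h3 : Real.exp B * B ≤ M := by rw [hMdef]; nlinarith
    have h4 := abs_nonneg (Real.exp (-ρ (g • UpperHalfPlane.I)) * Pr ρ g)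
    linarith
  · intro v w
    unfold Fl.ca
    rw [← sub_div, abs_div, abs_of_pos (by norm_num : (0 : ℝ) < 2)]
    have h1 := hEL v w
    have h2 : 0 ≤ Real.exp B * (L * dd v w) := by have := hdd v w; positivity
    have h3 : Real.exp B * (L * dd v w) ≤ M * L * dd v w := by
      rw [hMdef]
      have h4 : 0 ≤ Real.exp B * B * L * dd v w := by have := hdd v w; positivity
      nlinarith
    linarith
  · intro v w
    unfold Fl.cb
    rw [← sub_div, abs_div, abs_of_pos (by norm_num : (0 : ℝ) < 2)]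
    have h1 := hEL v w
    have h2 := lP v w
    have h3 := hdd v w
    have e1 : Real.exp (-ρ (w • UpperHalfPlane.I)) * Pr ρ w -
        Real.exp (-ρ (v • UpperHalfPlane.I)) * Pr ρ v =
        Real.exp (-ρ (w • UpperHalfPlane.I)) * (Pr ρ w - Pr ρ v) +
        (Real.exp (-ρ (w • UpperHalfPlane.I)) - Real.exp (-ρ (v • UpperHalfPlane.I))) *
          Pr ρ v := by ring
    have e2 := Fl.abs_mul_le (x := Real.exp (-ρ (w • UpperHalfPlane.I))) (X := Real.exp B)
      (by rw [abs_of_pos (hE w).1]; exact (hE w).2) h2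
    have e3 := Fl.abs_mul_le h1 (bP v)
    have e4 : |Real.exp (-ρ (w • UpperHalfPlane.I)) * Pr ρ w -
        Real.exp (-ρ (v • UpperHalfPlane.I)) * Pr ρ v| ≤
        Real.exp B * (L * dd v w) + Real.exp B * (L * dd v w) * B := by
      rw [e1]
      exact (abs_add_le _ _).trans (add_le_add e2 e3)
    have e5 : Real.exp B * (L * dd v w) + Real.exp B * (L * dd v w) * B = M * L * dd v w := by
      rw [hMdef]; ring
    have e6 : 0 ≤ M * L * dd v w := by positivity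
    linarith

/-- a sum of three small terms -/
theorem three {x y z a b c C₁ C₂ : ℝ} (hx : |x| ≤ C₁) (ha : |a| ≤ C₂) (hy : |y| ≤ C₁)
    (hb : |b| ≤ C₂) (hc : |c| ≤ z) : |x * a + y * b + 2 * c| ≤ 2 * (C₁ * C₂) + 2 * z := by
  have e1 := Fl.abs_mul_le hx ha
  have e2 := Fl.abs_mul_le hy hb
  have e3 : |2 * c| ≤ 2 * z := by
    rw [abs_mul, abs_of_pos (by norm_num : (0 : ℝ) < 2)]; linarith
  have h1 := abs_add_le (x * a + y * b) (2 * c)
  have h2 := abs_add_le (x * a) (y * b)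
  linarith

theorem fin1 {E C t P H S : ℝ} (hE : 0 ≤ E) (hC : 0 ≤ C) (ht : 0 ≤ t) (hP : 0 ≤ P) (hH : 0 ≤ H)
    (hS : |S| ≤ 2 * (C * t)) : E * |S| ≤ (2 * E + 1 + 2 * P + 2 * H) * (C + 1) * t := by
  have h1 := mul_le_mul_of_nonneg_left hS hE
  have h2 : 0 ≤ 2 * E * t := by positivity
  have h3 : 0 ≤ (1 + 2 * P + 2 * H) * ((C + 1) * t) := by positivity
  linarith

theorem fin2 {E C t P H S R Z : ℝ} (hE : 0 ≤ E) (hC : 0 ≤ C) (ht : 0 ≤ t) (hZ : |Z| ≤ C * t)
    (hR : |R| ≤ 2 * (C * t)) (hS : |S| ≤ 2 * (C * t)) :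
    |Z - R * P + S * H| ≤ (2 * E + 1 + 2 * |P| + 2 * |H|) * (C + 1) * t := by
  have h1 := abs_add_le (Z - R * P) (S * H)
  have h2 := abs_sub Z (R * P)
  rw [abs_mul] at h1 h2
  have h3 := mul_le_mul_of_nonneg_right hR (abs_nonneg P)
  have h4 := mul_le_mul_of_nonneg_right hS (abs_nonneg H)
  have h5 : 0 ≤ 2 * E * ((C + 1) * t) := by positivity
  have h6 : 0 ≤ (1 + 2 * |P| + 2 * |H|) * t := by positivity
  linarith

theorem comb {s x y t : ℝ} (hs : 0 ≤ s) (hs2 : s ≤ 2) (hx : |x| ≤ t) (hy : |y| ≤ t) :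
    |-(s / 2) * x - 1 / 2 * y| ≤ 2 * t ∧ |-(1 / 2) * x + s / 2 * y| ≤ 2 * t := by
  have h0 : |s / 2| ≤ 1 := by rw [abs_of_nonneg (by positivity)]; linarith
  have h1 : |(1 / 2 : ℝ)| ≤ 1 := by rw [abs_of_pos (by norm_num)]; norm_num
  have n0 : |-(s / 2)| ≤ 1 := by rw [abs_neg]; exact h0
  have n1 : |(-(1 / 2) : ℝ)| ≤ 1 := by rw [abs_neg]; exact h1
  have a1 := Fl.abs_mul_le n0 hx
  have a2 := Fl.abs_mul_le h1 hy
  have a3 := Fl.abs_mul_le n1 hx
  have a4 := Fl.abs_mul_le h0 hy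
  constructor
  · have := abs_sub (-(s / 2) * x) (1 / 2 * y)
    linarith
  · have := abs_add_le (-(1 / 2) * x) (s / 2 * y)
    linarith only [a3, a4, this]

end JCA

open _root_.U3.JCA

theorem stmtJca : StmtJca := by
  intro Γ ρ Φ hF hΦ v
  obtain ⟨M, D, hM, hD, ha, hb, hda, hdb⟩ := coef hF
  obtain ⟨c, L, hc, hL, hPF⟩ := stmtFl stmtLip Γ ρ Φ hF hΦ
  -- the entries of `v⁻¹ Φ_s v`
  set p : ℝ → ℝ := fun s => v 1 1 * Φ s v 0 0 - v 0 1 * Φ s v 1 0 with hp
  set q : ℝ → ℝ := fun s => v 1 1 * Φ s v 0 1 - v 0 1 * Φ s v 1 1 with hq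
  set r : ℝ → ℝ := fun s => -(v 1 0 * Φ s v 0 0) + v 0 0 * Φ s v 1 0 with hr
  set u : ℝ → ℝ := fun s => -(v 1 0 * Φ s v 0 1) + v 0 0 * Φ s v 1 1 with hu
  have dp : ∀ s, HasDerivAt p (p s * Fl.ca ρ (Φ s v) + q s * Fl.cb ρ (Φ s v)) s := fun s =>
    (((Fl.der00 hΦ v s).const_mul _).sub ((Fl.der10 hΦ v s).const_mul _)).congr_deriv
      (by simp only [hp, hq]; ring)
  have dq : ∀ s, HasDerivAt q (p s * (-Fl.cb ρ (Φ s v)) + q s * (-Fl.ca ρ (Φ s v))) s := fun s =>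
    (((Fl.der01 hΦ v s).const_mul _).sub ((Fl.der11 hΦ v s).const_mul _)).congr_deriv
      (by simp only [hp, hq]; ring)
  have dr : ∀ s, HasDerivAt r (r s * Fl.ca ρ (Φ s v) + u s * Fl.cb ρ (Φ s v)) s := fun s =>
    (((Fl.der00 hΦ v s).const_mul _).neg.add ((Fl.der10 hΦ v s).const_mul _)).congr_deriv
      (by simp only [hr, hu]; ring)
  have du : ∀ s, HasDerivAt u (r s * (-Fl.cb ρ (Φ s v)) + u s * (-Fl.ca ρ (Φ s v))) s := fun s =>
    (((Fl.der01 hΦ v s).const_mul _).neg.add ((Fl.der11 hΦ v s).const_mul _)).congr_deriv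
      (by simp only [hr, hu]; ring)
  have hdet : v 0 0 * v 1 1 - v 0 1 * v 1 0 = 1 := by
    have := v.det_coe
    rwa [Matrix.det_fin_two] at this
  have p0 : p 0 = 1 := by simp only [hp, hΦ.zero]; linarith
  have q0 : q 0 = 0 := by simp only [hq, hΦ.zero]; ring
  have r0 : r 0 = 0 := by simp only [hr, hΦ.zero]; ring
  have u0 : u 0 = 1 := by simp only [hu, hΦ.zero]; linarith
  have hdm : ∀ s, |s| ≤ 1 → |p s - 1| + |q s| + |r s| + |u s - 1| ≤ c * |s| := by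
    intro s hs
    have h := hPF.dmove v s hs
    rw [Fl.dd_eq] at h
    exact h
  have hda' : ∀ s, |s| ≤ 1 → |Fl.ca ρ (Φ s v) - Fl.ca ρ (Φ 0 v)| ≤ D * (c * |s|) := by
    intro s hs
    rw [hΦ.zero]
    exact (hda v (Φ s v)).trans (mul_le_mul_of_nonneg_left (hPF.dmove v s hs) hD)
  have hdb' : ∀ s, |s| ≤ 1 → |Fl.cb ρ (Φ s v) - Fl.cb ρ (Φ 0 v)| ≤ D * (c * |s|) := by
    intro s hs
    rw [hΦ.zero]
    exact (hdb v (Φ s v)).trans (mul_le_mul_of_nonneg_left (hPF.dmove v s hs) hD)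
  set C : ℝ := 2 * (M * c) + 2 * (D * c) with hCdef
  have hC : 0 ≤ C := by have : 0 ≤ c := by linarith
                        positivity
  have hCs : ∀ s : ℝ, 2 * (c * |s| * M) + 2 * (D * (c * |s|)) = C * |s| := fun s => by
    rw [hCdef]; ring
  have hC0 : ∀ s : ℝ, 2 * (c * |s| * M) + 2 * 0 ≤ C * |s| := fun s => by
    have : 0 ≤ D * (c * |s|) := by have : 0 ≤ c := by linarith
                                   positivity
    rw [← hCs s]; linarith
  -- the three functionals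
  have k1 : ∀ a, |a| ≤ 1 → |(p a - u a) - 2 * Fl.ca ρ v * a| ≤ C * a ^ 2 := by
    intro a ha1
    have h := quad (f := fun s => p s - u s)
      (f' := fun s => (p s + u s - 2) * Fl.ca ρ (Φ s v) + (q s + r s) * Fl.cb ρ (Φ s v)
        + 2 * Fl.ca ρ (Φ s v)) (C := C) hC
      (fun s => ((dp s).sub (du s)).congr_deriv (by ring))
      (fun s hs => by
        have e : (p s + u s - 2) * Fl.ca ρ (Φ s v) + (q s + r s) * Fl.cb ρ (Φ s v)
            + 2 * Fl.ca ρ (Φ s v) - ((p 0 + u 0 - 2) * Fl.ca ρ (Φ 0 v)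
            + (q 0 + r 0) * Fl.cb ρ (Φ 0 v) + 2 * Fl.ca ρ (Φ 0 v))
            = (p s + u s - 2) * Fl.ca ρ (Φ s v) + (q s + r s) * Fl.cb ρ (Φ s v)
              + 2 * (Fl.ca ρ (Φ s v) - Fl.ca ρ (Φ 0 v)) := by
          rw [p0, q0, r0, u0]; ring
        simp only [e]
        rw [← hCs s]
        have hm := hdm s hs
        refine three ?_ (ha _) ?_ (hb _) (hda' s hs)
        · have := abs_add_le (p s - 1) (u s - 1)
          have e2 : p s + u s - 2 = (p s - 1) + (u s - 1) := by ring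
          rw [e2]
          linarith only [hm, this, abs_nonneg (q s), abs_nonneg (r s)]
        · have := abs_add_le (q s) (r s)
          linarith [abs_nonneg (p s - 1), abs_nonneg (u s - 1)]) ha1
    have e : p a - u a - (p 0 - u 0) - ((p 0 + u 0 - 2) * Fl.ca ρ (Φ 0 v)
        + (q 0 + r 0) * Fl.cb ρ (Φ 0 v) + 2 * Fl.ca ρ (Φ 0 v)) * a
        = (p a - u a) - 2 * Fl.ca ρ v * a := by
      rw [p0, q0, r0, u0, hΦ.zero]; ring
    simp only [e] at h
    exact h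
  have k2 : ∀ a, |a| ≤ 1 → |q a + r a| ≤ C * a ^ 2 := by
    intro a ha1
    have h := quad (f := fun s => q s + r s)
      (f' := fun s => (u s - p s) * Fl.cb ρ (Φ s v) + (r s - q s) * Fl.ca ρ (Φ s v)
        + 2 * 0) (C := C) hC
      (fun s => ((dq s).add (dr s)).congr_deriv (by ring))
      (fun s hs => by
        have e : (u s - p s) * Fl.cb ρ (Φ s v) + (r s - q s) * Fl.ca ρ (Φ s v)
            + 2 * 0 - ((u 0 - p 0) * Fl.cb ρ (Φ 0 v)
            + (r 0 - q 0) * Fl.ca ρ (Φ 0 v) + 2 * 0)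
            = (u s - p s) * Fl.cb ρ (Φ s v) + (r s - q s) * Fl.ca ρ (Φ s v)
              + 2 * 0 := by
          rw [p0, q0, r0, u0]; ring
        simp only [e]
        refine le_trans ?_ (hC0 s)
        have hm := hdm s hs
        refine three ?_ (hb _) ?_ (ha _) (by simp)
        · have := abs_sub (u s - 1) (p s - 1)
          have e2 : u s - p s = (u s - 1) - (p s - 1) := by ring
          rw [e2]
          linarith [abs_nonneg (q s), abs_nonneg (r s)]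
        · have := abs_sub (r s) (q s)
          linarith [abs_nonneg (p s - 1), abs_nonneg (u s - 1)]) ha1
    have e : q a + r a - (q 0 + r 0) - ((u 0 - p 0) * Fl.cb ρ (Φ 0 v)
        + (r 0 - q 0) * Fl.ca ρ (Φ 0 v) + 2 * 0) * a
        = q a + r a := by
      rw [p0, q0, r0, u0]; ring
    simp only [e] at h
    exact h
  have k3 : ∀ a, |a| ≤ 1 → |(r a - q a) - 2 * Fl.cb ρ v * a| ≤ C * a ^ 2 := by
    intro a ha1
    have h := quad (f := fun s => r s - q s)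
      (f' := fun s => (p s + u s - 2) * Fl.cb ρ (Φ s v) + (q s + r s) * Fl.ca ρ (Φ s v)
        + 2 * Fl.cb ρ (Φ s v)) (C := C) hC
      (fun s => ((dr s).sub (dq s)).congr_deriv (by ring))
      (fun s hs => by
        have e : (p s + u s - 2) * Fl.cb ρ (Φ s v) + (q s + r s) * Fl.ca ρ (Φ s v)
            + 2 * Fl.cb ρ (Φ s v) - ((p 0 + u 0 - 2) * Fl.cb ρ (Φ 0 v)
            + (q 0 + r 0) * Fl.ca ρ (Φ 0 v) + 2 * Fl.cb ρ (Φ 0 v))
            = (p s + u s - 2) * Fl.cb ρ (Φ s v) + (q s + r s) * Fl.ca ρ (Φ s v)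
              + 2 * (Fl.cb ρ (Φ s v) - Fl.cb ρ (Φ 0 v)) := by
          rw [p0, q0, r0, u0]; ring
        simp only [e]
        rw [← hCs s]
        have hm := hdm s hs
        refine three ?_ (hb _) ?_ (ha _) (hdb' s hs)
        · have := abs_add_le (p s - 1) (u s - 1)
          have e2 : p s + u s - 2 = (p s - 1) + (u s - 1) := by ring
          rw [e2]
          linarith [abs_nonneg (q s), abs_nonneg (r s)]
        · have := abs_add_le (q s) (r s)
          linarith [abs_nonneg (p s - 1), abs_nonneg (u s - 1)]) ha1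
    have e : r a - q a - (r 0 - q 0) - ((p 0 + u 0 - 2) * Fl.cb ρ (Φ 0 v)
        + (q 0 + r 0) * Fl.ca ρ (Φ 0 v) + 2 * Fl.cb ρ (Φ 0 v)) * a
        = (r a - q a) - 2 * Fl.cb ρ v * a := by
      rw [p0, q0, r0, u0, hΦ.zero]; ring
    simp only [e] at h
    exact h
  -- the coordinates
  set E : ℝ := Real.exp (ρ (v • UpperHalfPlane.I)) with hE
  have hE0 : 0 < E := Real.exp_pos _
  have hEi : E * (2 * Fl.ca ρ v) = 1 := by
    rw [hE]; unfold Fl.ca
    have : Real.exp (ρ (v • UpperHalfPlane.I)) * Real.exp (-ρ (v • UpperHalfPlane.I)) = 1 := by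
      rw [← Real.exp_add, add_neg_cancel, Real.exp_zero]
    linear_combination this
  have hcb : Fl.cb ρ v = Fl.ca ρ v * Pr ρ v := by unfold Fl.cb Fl.ca; ring
  have hPr := Pr_rot ρ v
  set P' : ℝ := Pr ρ (v * rot3) with hP'
  set H' : ℝ := Hr ρ (v * rot3) with hH'
  have hs0 : 0 ≤ Real.sqrt 3 := Real.sqrt_nonneg _
  have hs2 : Real.sqrt 3 ≤ 2 := by
    rw [Real.sqrt_le_left (by norm_num)]; norm_num
  have e00 : ∀ a, (v⁻¹ * Φ a v) 0 0 = p a := fun a => Fl.ent00 _ _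
  have e01 : ∀ a, (v⁻¹ * Φ a v) 0 1 = q a := fun a => Fl.ent01 _ _
  have e10 : ∀ a, (v⁻¹ * Φ a v) 1 0 = r a := fun a => Fl.ent10 _ _
  have e11 : ∀ a, (v⁻¹ * Φ a v) 1 1 = u a := fun a => Fl.ent11 _ _
  refine ⟨(2 * E + 1 + 2 * |P'| + 2 * |H'|) * (C + 1), 1, by (clear * - hM hc hD; positivity), one_pos, ?_⟩
  intro a haI
  have ha1 : |a| ≤ 1 := abs_le.2 haI
  have K1 := k1 a ha1
  have K2 := k2 a ha1
  have K3 := k3 a ha1
  set X : ℝ := (p a - u a) - 2 * Fl.ca ρ v * a with hX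
  set Y : ℝ := q a + r a with hY
  set Z : ℝ := (r a - q a) - 2 * Fl.cb ρ v * a with hZ
  set S : ℝ := -(Real.sqrt 3 / 2) * X - 1 / 2 * Y with hS
  set R : ℝ := -(1 / 2) * X + Real.sqrt 3 / 2 * Y with hR
  obtain ⟨bS, bR⟩ : |S| ≤ 2 * (C * a ^ 2) ∧ |R| ≤ 2 * (C * a ^ 2) := comb hs0 hs2 K1 K2
  refine ⟨?_, ?_, ?_⟩
  · have e : xx ρ (v * rot3) (Φ a v * rot3) + Real.sqrt 3 / 2 * a = E * S := by
      unfold xx
      rw [c_sum, mul_rot3_I, e00, e01, e10, e11, hS, hX, hY]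
      linear_combination (Real.sqrt 3 / 2 * a) * (-hEi)
    rw [e, abs_mul, abs_of_pos hE0]
    exact fin1 hE0.le hC (sq_nonneg a) (abs_nonneg P') (abs_nonneg H') bS
  · have e : yy ρ (v * rot3) (Φ a v * rot3) = Z - R * P' + S * H' := by
      unfold yy
      rw [c_alt, c_sum, c_dif, e00, e01, e10, e11, ← hP', ← hH', hR, hS, hX, hY, hZ, hcb, hPr]
      ring
    rw [e]
    exact fin2 hE0.le hC (sq_nonneg a) K3 bR bS
  · have e : tt ρ (v * rot3) (Φ a v * rot3) + a / 2 = E * R := by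
      unfold tt
      rw [c_dif, mul_rot3_I, e00, e01, e10, e11, hR, hX, hY]
      linear_combination (a / 2) * (-hEi)
    rw [e, abs_mul, abs_of_pos hE0]
    exact fin1 hE0.le hC (sq_nonneg a) (abs_nonneg P') (abs_nonneg H') bR

end

end U3


end

section

/-!
A subsequence along which countably many locally bounded sequences converge weakly.
-/

open MeasureTheory Filter Topology Set
open UpperHalfPlane hiding I
open scoped ContDiff MatrixGroups

namespace U3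

open QE QE.NC QJ

noncomputable section

namespace SUB

/-- diagonal extraction -/
lemma diag {ι : Type*} [Countable ι] (a : ι → ℕ → ℂ)
    (h : ∀ i, ∃ C : ℝ, ∀ᶠ n in atTop, ‖a i n‖ ≤ C) :
    ∃ s : ℕ → ℕ, StrictMono s ∧ ∀ i, ∃ L : ℂ, Tendsto (fun n => a i (s n)) atTop (𝓝 L) := by
  classical
  choose C hC using h
  let b : ℕ → ι → ℂ := fun n i => if ‖a i n‖ ≤ C i then a i n else 0
  have hcpt : IsCompact (Set.pi univ fun i => Metric.closedBall (0 : ℂ) |C i|) :=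
    isCompact_univ_pi fun i => isCompact_closedBall _ _
  have hb : ∀ n, b n ∈ Set.pi univ fun i => Metric.closedBall (0 : ℂ) |C i| := by
    intro n i _
    simp only [b, mem_closedBall_zero_iff]
    split_ifs with h
    · exact h.trans (le_abs_self _)
    · simp
  obtain ⟨L, _, s, hs, hL⟩ := hcpt.tendsto_subseq hb
  refine ⟨s, hs, fun i => ⟨L i, ?_⟩⟩
  have h1 : Tendsto (fun n => b (s n) i) atTop (𝓝 (L i)) := (tendsto_pi_nhds.1 hL) i
  refine h1.congr' ?_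
  have h2 := hs.tendsto_atTop.eventually (hC i)
  filter_upwards [h2] with n hn
  simp only [b, if_pos hn]

/-- the test functions supported in `K` -/
def TK (U K : Set ℂ) : Set C(ℂ, ℂ) := {g | Test U g ∧ tsupport g ⊆ K}

lemma dens (U K : Set ℂ) (hK : IsCompact K) :
    ∃ D : Set C(ℂ, ℂ), D.Countable ∧ D ⊆ TK U K ∧
      ∀ g ∈ TK U K, ∀ ε > 0, ∃ g' ∈ D, ∀ z, ‖g z - g' z‖ ≤ ε := by
  obtain ⟨D, hDc, hDd⟩ := TopologicalSpace.exists_countable_dense (TK U K)
  refine ⟨Subtype.val '' D, hDc.image _, ?_, ?_⟩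
  · rintro _ ⟨g, _, rfl⟩
    exact g.2
  intro g hg ε hε
  have h1 : TendstoUniformlyOn (fun (g' : C(ℂ, ℂ)) a => g' a) g (𝓝 g) K :=
    (ContinuousMap.tendsto_iff_forall_isCompact_tendstoUniformlyOn (F := id)).1 tendsto_id K hK
  have h2 := Metric.tendstoUniformlyOn_iff.1 h1 ε hε
  have h3 : ∀ᶠ g' : TK U K in 𝓝 ⟨g, hg⟩, ∀ x ∈ K, dist (g x) ((g' : C(ℂ, ℂ)) x) < ε :=
    (continuous_subtype_val.tendsto (⟨g, hg⟩ : TK U K)).eventually h2
  obtain ⟨g', hg'D, hg'⟩ := hDd.inter_nhds_nonempty h3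
  refine ⟨g', ⟨g', hg'D, rfl⟩, fun z => ?_⟩
  by_cases hz : z ∈ K
  · rw [← dist_eq_norm]
    exact (hg' z hz).le
  · have e1 : g z = 0 := image_eq_zero_of_notMem_tsupport fun h => hz (hg.2 h)
    have e2 : (g' : C(ℂ, ℂ)) z = 0 := image_eq_zero_of_notMem_tsupport fun h => hz (g'.2.2 h)
    rw [e1, e2, sub_zero, norm_zero]
    exact hε.le

/-- the basic estimate -/
lemma est {K : Set ℂ} (hK : IsCompact K) {f : ℂ → ℂ} (hf : ContinuousOn f K) {g g' : C(ℂ, ℂ)}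
    (hg : tsupport g ⊆ K) (hg' : tsupport g' ⊆ K) {ε : ℝ} (h : ∀ z, ‖g z - g' z‖ ≤ ε) :
    ‖(∫ z, g z * f z) - ∫ z, g' z * f z‖ ≤ ε * ∫ z in K, ‖f z‖ := by
  have red : ∀ k : C(ℂ, ℂ), tsupport k ⊆ K → (∫ z, k z * f z) = ∫ z in K, k z * f z := by
    intro k hk
    symm
    apply setIntegral_eq_integral_of_forall_compl_eq_zero
    intro z hz
    rw [image_eq_zero_of_notMem_tsupport fun h => hz (hk h), zero_mul]
  have hI : ∀ k : C(ℂ, ℂ), IntegrableOn (fun z => k z * f z) K := fun k =>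
    (k.continuous.continuousOn.mul hf).integrableOn_compact hK
  rw [red g hg, red g' hg', ← integral_sub (hI g) (hI g'), ← integral_const_mul]
  apply norm_integral_le_of_norm_le
  · exact ((hf.norm).integrableOn_compact hK).const_mul ε
  · refine Eventually.of_forall fun z => ?_
    rw [← sub_mul, norm_mul]
    exact mul_le_mul_of_nonneg_right (h z) (norm_nonneg _)

end SUB

open _root_.U3.SUB in
/-- SUB -/
theorem stmtSub : StmtSub := by
  intro U f hU hf hb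
  have : LocallyCompactSpace U := hU.locallyCompactSpace
  let X : CompactExhaustion U := CompactExhaustion.choice U
  let K : ℕ → Set ℂ := fun m => Subtype.val '' X m
  have hK : ∀ m, IsCompact (K m) := fun m => (X.isCompact m).image continuous_subtype_val
  have hKU : ∀ m, K m ⊆ U := by
    rintro m _ ⟨z, _, rfl⟩
    exact z.2
  have hsup : ∀ S : Set ℂ, IsCompact S → S ⊆ U → ∃ m, S ⊆ K m := by
    intro S hS hSU
    have h1 : IsCompact ((Subtype.val : U → ℂ) ⁻¹' S) := by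
      rw [Subtype.isCompact_iff, Subtype.image_preimage_coe, inter_eq_right.2 hSU]
      exact hS
    obtain ⟨m, hm⟩ := X.exists_superset_of_isCompact h1
    exact ⟨m, fun z hz => ⟨⟨z, hSU hz⟩, hm hz, rfl⟩⟩
  choose D hDc hDs hD using fun m => dens U (K m) (hK m)
  have : ∀ m, Countable (D m) := fun m => (hDc m).to_subtype
  have hnb : ∀ (m : ℕ) (g : C(ℂ, ℂ)), g ∈ TK U (K m) → ∀ i, ∃ C : ℝ, ∀ᶠ n in atTop,
      ‖∫ z, g z * f i n z‖ ≤ C := by
    intro m g hg i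
    obtain ⟨C, hC⟩ := hb i (K m) (hK m) (hKU m)
    obtain ⟨M, hM⟩ := (hg.1.supp.exists_bound_of_continuous g.continuous)
    refine ⟨M * C, ?_⟩
    filter_upwards [hC] with n hn
    have h0 : tsupport (0 : C(ℂ, ℂ)) ⊆ K m := by
      have : tsupport ((0 : C(ℂ, ℂ)) : ℂ → ℂ) = ∅ := by simp
      rw [this]
      exact empty_subset _
    have h1 := est (hK m) ((hf i n).mono (hKU m)) hg.2 h0 (ε := M)
      (fun z => by simpa using hM z)
    have e : (∫ z, (0 : C(ℂ, ℂ)) z * f i n z) = 0 := by simp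
    rw [e, sub_zero] at h1
    have hM0 : 0 ≤ M := (norm_nonneg _).trans (hM 0)
    exact h1.trans (mul_le_mul_of_nonneg_left hn hM0)
  obtain ⟨s, hs, hL⟩ := diag (ι := (Σ m, D m) × ℕ)
    (fun x n => ∫ z, (x.1.2 : C(ℂ, ℂ)) z * f x.2 n z)
    (fun x => hnb x.1.1 _ (hDs x.1.1 x.1.2.2) x.2)
  refine ⟨s, hs, fun i ζ hζ => ?_⟩
  obtain ⟨m, hm⟩ := hsup _ hζ.supp hζ.sub
  let g : C(ℂ, ℂ) := ⟨ζ, hζ.smooth.continuous⟩
  have hg : g ∈ TK U (K m) := ⟨hζ, hm⟩
  obtain ⟨C, hC⟩ := hb i (K m) (hK m) (hKU m)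
  have hC' : ∀ᶠ n in atTop, ∫ z in K m, ‖f i (s n) z‖ ≤ C := hs.tendsto_atTop.eventually hC
  apply cauchySeq_tendsto_of_complete
  rw [Metric.cauchySeq_iff]
  intro ε hε
  have hC0 : 0 < |C| + 1 := by positivity
  obtain ⟨g', hg', hgg⟩ := hD m g hg (ε / (4 * (|C| + 1))) (by positivity)
  obtain ⟨L, hL'⟩ := hL (⟨m, ⟨g', hg'⟩⟩, i)
  have hcs := Metric.cauchySeq_iff.1 hL'.cauchySeq (ε / 4) (by positivity)
  obtain ⟨N₁, hN₁⟩ := hcs
  obtain ⟨N₂, hN₂⟩ := eventually_atTop.1 hC'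
  have key : ∀ n ≥ N₂, dist (∫ z, ζ z * f i (s n) z) (∫ z, g' z * f i (s n) z) ≤ ε / 4 := by
    intro n hn
    rw [dist_eq_norm]
    refine (est (hK m) ((hf i (s n)).mono (hKU m)) (g := g) (g' := g') hm (hDs m hg').2 hgg).trans ?_
    have h1 : ∫ z in K m, ‖f i (s n) z‖ ≤ |C| + 1 :=
      (hN₂ n hn).trans ((le_abs_self C).trans (by linarith))
    calc ε / (4 * (|C| + 1)) * ∫ z in K m, ‖f i (s n) z‖
        ≤ ε / (4 * (|C| + 1)) * (|C| + 1) := by
          apply mul_le_mul_of_nonneg_left h1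
          positivity
      _ = ε / 4 := by field_simp
  refine ⟨max N₁ N₂, fun p hp q hq => ?_⟩
  have a1 := key p (le_trans (le_max_right _ _) hp)
  have a2 := key q (le_trans (le_max_right _ _) hq)
  have a3 := hN₁ p (le_trans (le_max_left _ _) hp) q (le_trans (le_max_left _ _) hq)
  simp only at a3
  calc dist (∫ z, ζ z * f i (s p) z) (∫ z, ζ z * f i (s q) z)
      ≤ dist (∫ z, ζ z * f i (s p) z) (∫ z, g' z * f i (s p) z)
        + dist (∫ z, g' z * f i (s p) z) (∫ z, g' z * f i (s q) z)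
        + dist (∫ z, g' z * f i (s q) z) (∫ z, ζ z * f i (s q) z) := dist_triangle4 _ _ _ _
    _ < ε := by
      rw [dist_comm (∫ z, g' z * f i (s q) z) (∫ z, ζ z * f i (s q) z)]
      linarith

end

end U3


end
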