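import Mathlib
import Pool.Agent.BWM.C01
import Pool.Agent.BWM.C17

/-! Parts: QJ.MOR, QJ.NID, U3.PTWB, U3.PEG, U3.PET, U3.DENS -/

section

/-!
MOR: linear growth of the mass of solutions of `h² Δ u = - g u`, by the Morawetz multiplier.
-/

open Complex MeasureTheory Filter Topology Set
open scoped ContDiff

namespace QJ

namespace MOR

noncomputable section

/-! ### Calculus of `d1`, `d2` -/

lemma cd_d1 {F : ℂ → ℝ} (hF : ContDiff ℝ ∞ F) : ContDiff ℝ ∞ (d1 F) := by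
  unfold d1
  exact (hF.fderiv_right (m := ∞) (by simp)).clm_apply contDiff_const

lemma cd_d2 {F : ℂ → ℝ} (hF : ContDiff ℝ ∞ F) : ContDiff ℝ ∞ (d2 F) := by
  unfold d2
  exact (hF.fderiv_right (m := ∞) (by simp)).clm_apply contDiff_const

lemma df {F : ℂ → ℝ} (hF : ContDiff ℝ ∞ F) (z : ℂ) : DifferentiableAt ℝ F z :=
  (hF.differentiable (by simp)) z

lemma d1_mul {F H : ℂ → ℝ} (hF : ContDiff ℝ ∞ F) (hH : ContDiff ℝ ∞ H) (z : ℂ) :
    d1 (fun w => F w * H w) z = d1 F z * H z + F z * d1 H z := by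
  unfold d1
  rw [fderiv_fun_mul (df hF z) (df hH z)]
  simp; ring

lemma d2_mul {F H : ℂ → ℝ} (hF : ContDiff ℝ ∞ F) (hH : ContDiff ℝ ∞ H) (z : ℂ) :
    d2 (fun w => F w * H w) z = d2 F z * H z + F z * d2 H z := by
  unfold d2
  rw [fderiv_fun_mul (df hF z) (df hH z)]
  simp; ring

lemma d1_add {F H : ℂ → ℝ} (hF : ContDiff ℝ ∞ F) (hH : ContDiff ℝ ∞ H) (z : ℂ) :
    d1 (fun w => F w + H w) z = d1 F z + d1 H z := by
  unfold d1
  rw [fderiv_fun_add (df hF z) (df hH z)]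
  simp

lemma d2_add {F H : ℂ → ℝ} (hF : ContDiff ℝ ∞ F) (hH : ContDiff ℝ ∞ H) (z : ℂ) :
    d2 (fun w => F w + H w) z = d2 F z + d2 H z := by
  unfold d2
  rw [fderiv_fun_add (df hF z) (df hH z)]
  simp

lemma d1_sub {F H : ℂ → ℝ} (hF : ContDiff ℝ ∞ F) (hH : ContDiff ℝ ∞ H) (z : ℂ) :
    d1 (fun w => F w - H w) z = d1 F z - d1 H z := by
  unfold d1
  rw [fderiv_fun_sub (df hF z) (df hH z)]
  simp

lemma d2_sub {F H : ℂ → ℝ} (hF : ContDiff ℝ ∞ F) (hH : ContDiff ℝ ∞ H) (z : ℂ) :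
    d2 (fun w => F w - H w) z = d2 F z - d2 H z := by
  unfold d2
  rw [fderiv_fun_sub (df hF z) (df hH z)]
  simp

lemma d1_cmul {F : ℂ → ℝ} (hF : ContDiff ℝ ∞ F) (c : ℝ) (z : ℂ) :
    d1 (fun w => c * F w) z = c * d1 F z := by
  unfold d1
  rw [fderiv_const_mul (df hF z)]
  simp

lemma d2_cmul {F : ℂ → ℝ} (hF : ContDiff ℝ ∞ F) (c : ℝ) (z : ℂ) :
    d2 (fun w => c * F w) z = c * d2 F z := by
  unfold d2
  rw [fderiv_const_mul (df hF z)]
  simp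

lemma d1_pow {F : ℂ → ℝ} (hF : ContDiff ℝ ∞ F) (n : ℕ) (z : ℂ) :
    d1 (fun w => F w ^ n) z = n * F z ^ (n - 1) * d1 F z := by
  unfold d1
  rw [fderiv_fun_pow n (df hF z)]
  simp [mul_assoc]

lemma d2_pow {F : ℂ → ℝ} (hF : ContDiff ℝ ∞ F) (n : ℕ) (z : ℂ) :
    d2 (fun w => F w ^ n) z = n * F z ^ (n - 1) * d2 F z := by
  unfold d2
  rw [fderiv_fun_pow n (df hF z)]
  simp [mul_assoc]

/-! ### The coordinates and the weight -/

/-- the first coordinate -/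
def X (z₀ : ℂ) (z : ℂ) : ℝ := (z - z₀).re

/-- the second coordinate -/
def Y (z₀ : ℂ) (z : ℂ) : ℝ := (z - z₀).im

/-- the weight `(s² + r²)^{-1/2}` -/
def p (z₀ : ℂ) (r : ℝ) (z : ℂ) : ℝ := (Real.sqrt (X z₀ z ^ 2 + Y z₀ z ^ 2 + r ^ 2))⁻¹

lemma cd_X (z₀ : ℂ) : ContDiff ℝ ∞ (X z₀) :=
  Complex.reCLM.contDiff.comp (contDiff_id.sub contDiff_const)

lemma cd_Y (z₀ : ℂ) : ContDiff ℝ ∞ (Y z₀) :=
  Complex.imCLM.contDiff.comp (contDiff_id.sub contDiff_const)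

lemma fd_X (z₀ z v : ℂ) : fderiv ℝ (X z₀) z v = v.re := by
  have : HasFDerivAt (X z₀) (Complex.reCLM : ℂ →L[ℝ] ℝ) z := by
    have h := (Complex.reCLM.hasFDerivAt (x := z - z₀)).comp z
      ((hasFDerivAt_id z).sub_const z₀)
    rw [ContinuousLinearMap.comp_id] at h
    exact h
  rw [this.fderiv]; rfl

lemma fd_Y (z₀ z v : ℂ) : fderiv ℝ (Y z₀) z v = v.im := by
  have : HasFDerivAt (Y z₀) (Complex.imCLM : ℂ →L[ℝ] ℝ) z := by
    have h := (Complex.imCLM.hasFDerivAt (x := z - z₀)).comp z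
      ((hasFDerivAt_id z).sub_const z₀)
    rw [ContinuousLinearMap.comp_id] at h
    exact h
  rw [this.fderiv]; rfl

lemma d1_X (z₀ z : ℂ) : d1 (X z₀) z = 1 := by unfold d1; rw [fd_X]; simp
lemma d2_X (z₀ z : ℂ) : d2 (X z₀) z = 0 := by unfold d2; rw [fd_X]; simp
lemma d1_Y (z₀ z : ℂ) : d1 (Y z₀) z = 0 := by unfold d1; rw [fd_Y]; simp
lemma d2_Y (z₀ z : ℂ) : d2 (Y z₀) z = 1 := by unfold d2; rw [fd_Y]; simp

lemma rho_pos (z₀ : ℂ) {r : ℝ} (hr : 0 < r) (z : ℂ) : 0 < X z₀ z ^ 2 + Y z₀ z ^ 2 + r ^ 2 := by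
  positivity

lemma cd_p (z₀ : ℂ) {r : ℝ} (hr : 0 < r) : ContDiff ℝ ∞ (p z₀ r) := by
  unfold p
  refine ContDiff.inv ?_ ?_
  · refine ContDiff.sqrt ?_ ?_
    · exact (((cd_X z₀).pow 2).add ((cd_Y z₀).pow 2)).add contDiff_const
    · intro z; exact (rho_pos z₀ hr z).ne'
  · intro z; exact (Real.sqrt_pos.2 (rho_pos z₀ hr z)).ne'

lemma p_pos (z₀ : ℂ) {r : ℝ} (hr : 0 < r) (z : ℂ) : 0 < p z₀ r z := by
  unfold p; exact inv_pos.2 (Real.sqrt_pos.2 (rho_pos z₀ hr z))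

lemma p_sq (z₀ : ℂ) {r : ℝ} (hr : 0 < r) (z : ℂ) :
    p z₀ r z ^ 2 * (X z₀ z ^ 2 + Y z₀ z ^ 2 + r ^ 2) = 1 := by
  unfold p
  rw [inv_pow, Real.sq_sqrt (rho_pos z₀ hr z).le]
  exact inv_mul_cancel₀ (rho_pos z₀ hr z).ne'

/-- the derivative of `p`, from the identity `p² ρ = 1` -/
lemma d1_p (z₀ : ℂ) {r : ℝ} (hr : 0 < r) (z : ℂ) :
    d1 (p z₀ r) z = - (X z₀ z * p z₀ r z ^ 3) := by
  have hp := cd_p z₀ hr
  have hrho : ContDiff ℝ ∞ (fun w => X z₀ w ^ 2 + Y z₀ w ^ 2 + r ^ 2) :=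
    (((cd_X z₀).pow 2).add ((cd_Y z₀).pow 2)).add contDiff_const
  have h1 : d1 (fun w => p z₀ r w ^ 2 * (X z₀ w ^ 2 + Y z₀ w ^ 2 + r ^ 2)) z = 0 := by
    have : (fun w => p z₀ r w ^ 2 * (X z₀ w ^ 2 + Y z₀ w ^ 2 + r ^ 2)) = fun _ => (1 : ℝ) := by
      funext w; exact p_sq z₀ hr w
    rw [this]; unfold d1; simp
  have h2 : d1 (fun w => X z₀ w ^ 2 + Y z₀ w ^ 2 + r ^ 2) z = 2 * X z₀ z := by
    have e : d1 (fun w => X z₀ w ^ 2 + Y z₀ w ^ 2 + r ^ 2) z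
        = d1 (fun w => X z₀ w ^ 2) z + d1 (fun w => Y z₀ w ^ 2) z := by
      unfold d1
      rw [fderiv_add_const, fderiv_fun_add (df ((cd_X z₀).pow 2) z) (df ((cd_Y z₀).pow 2) z)]
      simp
    rw [e, d1_pow (cd_X z₀), d1_pow (cd_Y z₀), d1_X, d1_Y]
    simp
  rw [d1_mul (hp.pow 2) hrho, d1_pow hp, h2] at h1
  have h3 := p_sq z₀ hr z
  have hpp := p_pos z₀ hr z
  have h4 : 2 * p z₀ r z * (d1 (p z₀ r) z * (X z₀ z ^ 2 + Y z₀ z ^ 2 + r ^ 2) + p z₀ r z * X z₀ z)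
      = 0 := by
    have : (2 : ℕ) - 1 = 1 := rfl
    rw [this] at h1
    push_cast at h1
    linear_combination h1
  have h5 : d1 (p z₀ r) z * (X z₀ z ^ 2 + Y z₀ z ^ 2 + r ^ 2) + p z₀ r z * X z₀ z = 0 := by
    rcases mul_eq_zero.1 h4 with h | h
    · exfalso; linarith
    · exact h
  linear_combination (p z₀ r z ^ 2) * h5 - (d1 (p z₀ r) z) * h3

lemma d2_p (z₀ : ℂ) {r : ℝ} (hr : 0 < r) (z : ℂ) :
    d2 (p z₀ r) z = - (Y z₀ z * p z₀ r z ^ 3) := by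
  have hp := cd_p z₀ hr
  have hrho : ContDiff ℝ ∞ (fun w => X z₀ w ^ 2 + Y z₀ w ^ 2 + r ^ 2) :=
    (((cd_X z₀).pow 2).add ((cd_Y z₀).pow 2)).add contDiff_const
  have h1 : d2 (fun w => p z₀ r w ^ 2 * (X z₀ w ^ 2 + Y z₀ w ^ 2 + r ^ 2)) z = 0 := by
    have : (fun w => p z₀ r w ^ 2 * (X z₀ w ^ 2 + Y z₀ w ^ 2 + r ^ 2)) = fun _ => (1 : ℝ) := by
      funext w; exact p_sq z₀ hr w
    rw [this]; unfold d2; simp
  have h2 : d2 (fun w => X z₀ w ^ 2 + Y z₀ w ^ 2 + r ^ 2) z = 2 * Y z₀ z := by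
    have e : d2 (fun w => X z₀ w ^ 2 + Y z₀ w ^ 2 + r ^ 2) z
        = d2 (fun w => X z₀ w ^ 2) z + d2 (fun w => Y z₀ w ^ 2) z := by
      unfold d2
      rw [fderiv_add_const, fderiv_fun_add (df ((cd_X z₀).pow 2) z) (df ((cd_Y z₀).pow 2) z)]
      simp
    rw [e, d2_pow (cd_X z₀), d2_pow (cd_Y z₀), d2_X, d2_Y]
    simp
  rw [d2_mul (hp.pow 2) hrho, d2_pow hp, h2] at h1
  have h3 := p_sq z₀ hr z
  have hpp := p_pos z₀ hr z
  have h4 : 2 * p z₀ r z * (d2 (p z₀ r) z * (X z₀ z ^ 2 + Y z₀ z ^ 2 + r ^ 2) + p z₀ r z * Y z₀ z)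
      = 0 := by
    have : (2 : ℕ) - 1 = 1 := rfl
    rw [this] at h1
    push_cast at h1
    linear_combination h1
  have h5 : d2 (p z₀ r) z * (X z₀ z ^ 2 + Y z₀ z ^ 2 + r ^ 2) + p z₀ r z * Y z₀ z = 0 := by
    rcases mul_eq_zero.1 h4 with h | h
    · exfalso; linarith
    · exact h
  linear_combination (p z₀ r z ^ 2) * h5 - (d2 (p z₀ r) z) * h3

/-! ### The weight of order zero -/

/-- the weight `(f - f_r) / 2` -/
def c0 (z₀ : ℂ) (r : ℝ) (z : ℂ) : ℝ := (1 / 2) * (p z₀ r z - r ^ 2 * p z₀ r z ^ 3)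

lemma cd_c0 (z₀ : ℂ) {r : ℝ} (hr : 0 < r) : ContDiff ℝ ∞ (c0 z₀ r) := by
  unfold c0
  exact contDiff_const.mul ((cd_p z₀ hr).sub (contDiff_const.mul ((cd_p z₀ hr).pow 3)))

lemma d1_c0 (z₀ : ℂ) {r : ℝ} (hr : 0 < r) (z : ℂ) :
    d1 (c0 z₀ r) z = X z₀ z * ((1 / 2) * (3 * r ^ 2 * p z₀ r z ^ 5 - p z₀ r z ^ 3)) := by
  have hp := cd_p z₀ hr
  have e : d1 (c0 z₀ r) z = (1 / 2) * (d1 (p z₀ r) z - r ^ 2 * d1 (fun w => p z₀ r w ^ 3) z) := by
    unfold c0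
    rw [d1_cmul (hp.sub (contDiff_const.mul (hp.pow 3))),
      d1_sub hp (contDiff_const.mul (hp.pow 3)), d1_cmul (hp.pow 3)]
  rw [e, d1_pow hp, d1_p z₀ hr]
  push_cast
  ring

lemma d2_c0 (z₀ : ℂ) {r : ℝ} (hr : 0 < r) (z : ℂ) :
    d2 (c0 z₀ r) z = Y z₀ z * ((1 / 2) * (3 * r ^ 2 * p z₀ r z ^ 5 - p z₀ r z ^ 3)) := by
  have hp := cd_p z₀ hr
  have e : d2 (c0 z₀ r) z = (1 / 2) * (d2 (p z₀ r) z - r ^ 2 * d2 (fun w => p z₀ r w ^ 3) z) := by
    unfold c0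
    rw [d2_cmul (hp.sub (contDiff_const.mul (hp.pow 3))),
      d2_sub hp (contDiff_const.mul (hp.pow 3)), d2_cmul (hp.pow 3)]
  rw [e, d2_pow hp, d2_p z₀ hr]
  push_cast
  ring

/-- the second factor of the gradient of `c0` -/
def w0 (z₀ : ℂ) (r : ℝ) (z : ℂ) : ℝ := (1 / 2) * (3 * r ^ 2 * p z₀ r z ^ 5 - p z₀ r z ^ 3)

lemma cd_w0 (z₀ : ℂ) {r : ℝ} (hr : 0 < r) : ContDiff ℝ ∞ (w0 z₀ r) := by
  unfold w0
  exact contDiff_const.mul ((contDiff_const.mul ((cd_p z₀ hr).pow 5)).sub ((cd_p z₀ hr).pow 3))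

lemma d1_w0 (z₀ : ℂ) {r : ℝ} (hr : 0 < r) (z : ℂ) :
    d1 (w0 z₀ r) z = X z₀ z * ((1 / 2) * (3 * p z₀ r z ^ 5 - 15 * r ^ 2 * p z₀ r z ^ 7)) := by
  have hp := cd_p z₀ hr
  have e : d1 (w0 z₀ r) z = (1 / 2) * (3 * r ^ 2 * d1 (fun w => p z₀ r w ^ 5) z
      - d1 (fun w => p z₀ r w ^ 3) z) := by
    unfold w0
    rw [d1_cmul ((contDiff_const.mul (hp.pow 5)).sub (hp.pow 3)),
      d1_sub (contDiff_const.mul (hp.pow 5)) (hp.pow 3), d1_cmul (hp.pow 5)]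
  rw [e, d1_pow hp, d1_pow hp, d1_p z₀ hr]
  push_cast
  ring

lemma d2_w0 (z₀ : ℂ) {r : ℝ} (hr : 0 < r) (z : ℂ) :
    d2 (w0 z₀ r) z = Y z₀ z * ((1 / 2) * (3 * p z₀ r z ^ 5 - 15 * r ^ 2 * p z₀ r z ^ 7)) := by
  have hp := cd_p z₀ hr
  have e : d2 (w0 z₀ r) z = (1 / 2) * (3 * r ^ 2 * d2 (fun w => p z₀ r w ^ 5) z
      - d2 (fun w => p z₀ r w ^ 3) z) := by
    unfold w0
    rw [d2_cmul ((contDiff_const.mul (hp.pow 5)).sub (hp.pow 3)),
      d2_sub (contDiff_const.mul (hp.pow 5)) (hp.pow 3), d2_cmul (hp.pow 5)]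
  rw [e, d2_pow hp, d2_pow hp, d2_p z₀ hr]
  push_cast
  ring

/-- the Laplacian of `c0` -/
def L0 (z₀ : ℂ) (r : ℝ) (z : ℂ) : ℝ := (3 * r ^ 2 * p z₀ r z ^ 5 - p z₀ r z ^ 3)
  + (X z₀ z ^ 2 + Y z₀ z ^ 2) * ((1 / 2) * (3 * p z₀ r z ^ 5 - 15 * r ^ 2 * p z₀ r z ^ 7))

lemma lap_c0 (z₀ : ℂ) {r : ℝ} (hr : 0 < r) (z : ℂ) : lap (c0 z₀ r) z = L0 z₀ r z := by
  have e1 : d1 (c0 z₀ r) = fun w => X z₀ w * w0 z₀ r w := by
    funext w; exact d1_c0 z₀ hr w
  have e2 : d2 (c0 z₀ r) = fun w => Y z₀ w * w0 z₀ r w := by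
    funext w; exact d2_c0 z₀ hr w
  unfold lap
  rw [e1, e2, d1_mul (cd_X z₀) (cd_w0 z₀ hr), d2_mul (cd_Y z₀) (cd_w0 z₀ hr), d1_X, d2_Y,
    d1_w0 z₀ hr, d2_w0 z₀ hr]
  unfold w0 L0
  ring

lemma lap_mul {F H : ℂ → ℝ} (hF : ContDiff ℝ ∞ F) (hH : ContDiff ℝ ∞ H) (z : ℂ) :
    lap (fun w => F w * H w) z = lap F z * H z + 2 * (d1 F z * d1 H z + d2 F z * d2 H z)
      + F z * lap H z := by
  have e1 : d1 (fun w => F w * H w) = fun w => d1 F w * H w + F w * d1 H w := by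
    funext w; exact d1_mul hF hH w
  have e2 : d2 (fun w => F w * H w) = fun w => d2 F w * H w + F w * d2 H w := by
    funext w; exact d2_mul hF hH w
  have a1 : d1 (fun w => d1 F w * H w + F w * d1 H w) z
      = d1 (fun w => d1 F w * H w) z + d1 (fun w => F w * d1 H w) z :=
    d1_add ((cd_d1 hF).mul hH) (hF.mul (cd_d1 hH)) z
  have a2 : d2 (fun w => d2 F w * H w + F w * d2 H w) z
      = d2 (fun w => d2 F w * H w) z + d2 (fun w => F w * d2 H w) z :=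
    d2_add ((cd_d2 hF).mul hH) (hF.mul (cd_d2 hH)) z
  unfold lap
  rw [e1, e2, a1, a2, d1_mul (cd_d1 hF) hH, d1_mul hF (cd_d1 hH), d2_mul (cd_d2 hF) hH,
    d2_mul hF (cd_d2 hH)]
  ring

/-! ### The cutoff -/

/-- the bump function of radii one and two -/
def bb : ContDiffBump (0 : ℂ) := ⟨1, 2, one_pos, one_lt_two⟩

/-- the cutoff at scale `R` about `z₀` -/
def chi (z₀ : ℂ) (R : ℝ) (z : ℂ) : ℝ := bb (((R⁻¹ : ℝ) : ℂ) * (z - z₀))

lemma hd_scale (z₀ : ℂ) (a : ℝ) (z : ℂ) :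
    HasFDerivAt (fun w : ℂ => ((a : ℝ) : ℂ) * (w - z₀)) (a • ContinuousLinearMap.id ℝ ℂ) z := by
  have h := ((hasFDerivAt_id (𝕜 := ℝ) z).sub_const z₀).const_smul a
  have e : (fun w : ℂ => ((a : ℝ) : ℂ) * (w - z₀)) = a • fun x : ℂ => x - z₀ := by
    funext w; simp [Complex.real_smul]
  rw [e]
  exact h

lemma d1_scale {F : ℂ → ℝ} (hF : ContDiff ℝ ∞ F) (z₀ : ℂ) (a : ℝ) (z : ℂ) :
    d1 (fun w => F (((a : ℝ) : ℂ) * (w - z₀))) z = a * d1 F (((a : ℝ) : ℂ) * (z - z₀)) := by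
  have h := ((df hF (((a : ℝ) : ℂ) * (z - z₀))).hasFDerivAt).comp z (hd_scale z₀ a z)
  unfold d1
  have e : (fun w => F (((a : ℝ) : ℂ) * (w - z₀))) = F ∘ fun w : ℂ => ((a : ℝ) : ℂ) * (w - z₀) := rfl
  rw [e, h.fderiv]
  simp

lemma d2_scale {F : ℂ → ℝ} (hF : ContDiff ℝ ∞ F) (z₀ : ℂ) (a : ℝ) (z : ℂ) :
    d2 (fun w => F (((a : ℝ) : ℂ) * (w - z₀))) z = a * d2 F (((a : ℝ) : ℂ) * (z - z₀)) := by
  have h := ((df hF (((a : ℝ) : ℂ) * (z - z₀))).hasFDerivAt).comp z (hd_scale z₀ a z)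
  unfold d2
  have e : (fun w => F (((a : ℝ) : ℂ) * (w - z₀))) = F ∘ fun w : ℂ => ((a : ℝ) : ℂ) * (w - z₀) := rfl
  rw [e, h.fderiv]
  simp

lemma cd_bb : ContDiff ℝ ∞ (bb : ℂ → ℝ) := bb.contDiff

lemma cd_lin (z₀ : ℂ) (a : ℝ) : ContDiff ℝ ∞ (fun w : ℂ => ((a : ℝ) : ℂ) * (w - z₀)) :=
  contDiff_const.mul (contDiff_id.sub contDiff_const)

lemma cd_chi (z₀ : ℂ) (R : ℝ) : ContDiff ℝ ∞ (chi z₀ R) := cd_bb.comp (cd_lin z₀ R⁻¹)

lemma lap_chi (z₀ : ℂ) (R : ℝ) (z : ℂ) :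
    lap (chi z₀ R) z = R⁻¹ ^ 2 * lap bb (((R⁻¹ : ℝ) : ℂ) * (z - z₀)) := by
  have e1 : d1 (chi z₀ R) = fun w => R⁻¹ * d1 bb (((R⁻¹ : ℝ) : ℂ) * (w - z₀)) := by
    funext w; exact d1_scale cd_bb z₀ R⁻¹ w
  have e2 : d2 (chi z₀ R) = fun w => R⁻¹ * d2 bb (((R⁻¹ : ℝ) : ℂ) * (w - z₀)) := by
    funext w; exact d2_scale cd_bb z₀ R⁻¹ w
  unfold lap
  rw [e1, e2, d1_cmul (F := fun w => d1 bb (((R⁻¹ : ℝ) : ℂ) * (w - z₀)))
    ((cd_d1 cd_bb).comp (cd_lin z₀ R⁻¹)), d2_cmul (F := fun w => d2 bb (((R⁻¹ : ℝ) : ℂ) * (w - z₀)))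
    ((cd_d2 cd_bb).comp (cd_lin z₀ R⁻¹)), d1_scale (cd_d1 cd_bb), d2_scale (cd_d2 cd_bb)]
  ring

lemma exists_bound {F : ℂ → ℝ} (hF : Continuous F) (hs : HasCompactSupport F) :
    ∃ A : ℝ, ∀ z, |F z| ≤ A := by
  obtain ⟨A, hA⟩ := hs.exists_bound_of_continuous hF
  exact ⟨A, fun z => hA z⟩

lemma hcs_d1 {F : ℂ → ℝ} (hs : HasCompactSupport F) : HasCompactSupport (d1 F) := by
  unfold d1
  exact (hs.fderiv (𝕜 := ℝ)).comp_left (g := fun L : ℂ →L[ℝ] ℝ => L 1) (by simp)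

lemma hcs_d2 {F : ℂ → ℝ} (hs : HasCompactSupport F) : HasCompactSupport (d2 F) := by
  unfold d2
  exact (hs.fderiv (𝕜 := ℝ)).comp_left (g := fun L : ℂ →L[ℝ] ℝ => L Complex.I) (by simp)

/-- the bounds of the derivatives of the bump function -/
lemma exists_A : ∃ A : ℝ, 0 ≤ A ∧ ∀ z, |d1 bb z| ≤ A ∧ |d2 bb z| ≤ A ∧ |lap bb z| ≤ A := by
  have hs : HasCompactSupport (bb : ℂ → ℝ) := bb.hasCompactSupport
  obtain ⟨A1, h1⟩ := exists_bound (cd_d1 cd_bb).continuous (hcs_d1 hs)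
  obtain ⟨A2, h2⟩ := exists_bound (cd_d2 cd_bb).continuous (hcs_d2 hs)
  obtain ⟨A3, h3⟩ := exists_bound (F := lap bb)
    (((cd_d1 (cd_d1 cd_bb)).add (cd_d2 (cd_d2 cd_bb))).continuous)
    ((hcs_d1 (hcs_d1 hs)).add (hcs_d2 (hcs_d2 hs)))
  refine ⟨|A1| + |A2| + |A3|, by (clear * -; positivity), fun z => ⟨?_, ?_, ?_⟩⟩
  · linarith only [h1 z, le_abs_self A1, abs_nonneg A2, abs_nonneg A3]
  · linarith [h2 z, le_abs_self A2, abs_nonneg A1, abs_nonneg A3]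
  · linarith [h3 z, le_abs_self A3, abs_nonneg A1, abs_nonneg A2]

lemma norm_lin (z₀ : ℂ) {R : ℝ} (hR : 0 < R) (z : ℂ) :
    ‖((R⁻¹ : ℝ) : ℂ) * (z - z₀)‖ = dist z z₀ / R := by
  rw [norm_mul, Complex.norm_real, Real.norm_of_nonneg (inv_pos.2 hR).le, dist_eq_norm]
  field_simp

lemma chi_one (z₀ : ℂ) {R : ℝ} (hR : 0 < R) {z : ℂ} (hz : dist z z₀ ≤ R) : chi z₀ R z = 1 := by
  unfold chi
  apply bb.one_of_mem_closedBall
  rw [Metric.mem_closedBall, dist_zero_right, norm_lin z₀ hR]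
  exact (div_le_one hR).2 hz

lemma chi_zero (z₀ : ℂ) {R : ℝ} (hR : 0 < R) {z : ℂ} (hz : 2 * R ≤ dist z z₀) :
    chi z₀ R z = 0 := by
  unfold chi
  apply bb.zero_of_le_dist
  rw [dist_zero_right, norm_lin z₀ hR]
  exact (le_div_iff₀ hR).2 hz

lemma chi_nonneg (z₀ : ℂ) (R : ℝ) (z : ℂ) : 0 ≤ chi z₀ R z := bb.nonneg

lemma chi_le_one (z₀ : ℂ) (R : ℝ) (z : ℂ) : chi z₀ R z ≤ 1 := bb.le_one

lemma hcs_chi (z₀ : ℂ) {R : ℝ} (hR : 0 < R) : HasCompactSupport (chi z₀ R) := by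
  apply HasCompactSupport.intro (isCompact_closedBall z₀ (2 * R))
  intro z hz
  rw [Metric.mem_closedBall, not_le] at hz
  exact chi_zero z₀ hR hz.le

/-- a function which is constant near a point has vanishing derivatives there -/
lemma der_zero {F : ℂ → ℝ} {c : ℝ} {s : Set ℂ} (hs : IsOpen s) (h : ∀ w ∈ s, F w = c) {z : ℂ}
    (hz : z ∈ s) : d1 F z = 0 ∧ d2 F z = 0 ∧ lap F z = 0 := by
  have h1 : ∀ w ∈ s, fderiv ℝ F w = 0 := by
    intro w hw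
    have : F =ᶠ[𝓝 w] fun _ => c := by
      filter_upwards [hs.mem_nhds hw] with v hv using h v hv
    rw [this.fderiv_eq]; simp
  have h2 : ∀ w ∈ s, d1 F w = 0 := by intro w hw; unfold d1; rw [h1 w hw]; simp
  have h3 : ∀ w ∈ s, d2 F w = 0 := by intro w hw; unfold d2; rw [h1 w hw]; simp
  have h4 : d1 (d1 F) z = 0 := by
    have : d1 F =ᶠ[𝓝 z] fun _ => (0 : ℝ) := by
      filter_upwards [hs.mem_nhds hz] with v hv using h2 v hv
    conv_lhs => rw [d1]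
    rw [this.fderiv_eq]; simp
  have h5 : d2 (d2 F) z = 0 := by
    have : d2 F =ᶠ[𝓝 z] fun _ => (0 : ℝ) := by
      filter_upwards [hs.mem_nhds hz] with v hv using h3 v hv
    conv_lhs => rw [d2]
    rw [this.fderiv_eq]; simp
  refine ⟨h2 z hz, h3 z hz, ?_⟩
  unfold lap; rw [h4, h5]; ring

lemma chi_der_in (z₀ : ℂ) {R : ℝ} (hR : 0 < R) {z : ℂ} (hz : dist z z₀ < R) :
    d1 (chi z₀ R) z = 0 ∧ d2 (chi z₀ R) z = 0 ∧ lap (chi z₀ R) z = 0 :=
  der_zero (s := Metric.ball z₀ R) Metric.isOpen_ball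
    (fun _ hw => chi_one z₀ hR (Metric.mem_ball.1 hw).le) (Metric.mem_ball.2 hz)

lemma chi_der_out (z₀ : ℂ) {R : ℝ} (hR : 0 < R) {z : ℂ} (hz : 2 * R < dist z z₀) :
    d1 (chi z₀ R) z = 0 ∧ d2 (chi z₀ R) z = 0 ∧ lap (chi z₀ R) z = 0 := by
  refine der_zero (s := (Metric.closedBall z₀ (2 * R))ᶜ) Metric.isClosed_closedBall.isOpen_compl
    (c := 0) (fun w hw => ?_) ?_
  · rw [mem_compl_iff, Metric.mem_closedBall, not_le] at hw
    exact chi_zero z₀ hR hw.le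
  · rw [mem_compl_iff, Metric.mem_closedBall, not_le]; exact hz

lemma chi_bounds (z₀ : ℂ) {R A : ℝ} (hR : 0 < R)
    (hA : ∀ z, |d1 bb z| ≤ A ∧ |d2 bb z| ≤ A ∧ |lap bb z| ≤ A) (z : ℂ) :
    |d1 (chi z₀ R) z| ≤ A / R ∧ |d2 (chi z₀ R) z| ≤ A / R ∧ |lap (chi z₀ R) z| ≤ A / R ^ 2 := by
  obtain ⟨h1, h2, h3⟩ := hA (((R⁻¹ : ℝ) : ℂ) * (z - z₀))
  have hi : 0 < R⁻¹ := inv_pos.2 hR
  refine ⟨?_, ?_, ?_⟩
  · have e : d1 (chi z₀ R) z = R⁻¹ * d1 bb (((R⁻¹ : ℝ) : ℂ) * (z - z₀)) :=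
      d1_scale cd_bb z₀ R⁻¹ z
    rw [e, abs_mul, abs_of_pos hi, div_eq_inv_mul]
    exact mul_le_mul_of_nonneg_left h1 hi.le
  · have e : d2 (chi z₀ R) z = R⁻¹ * d2 bb (((R⁻¹ : ℝ) : ℂ) * (z - z₀)) :=
      d2_scale cd_bb z₀ R⁻¹ z
    rw [e, abs_mul, abs_of_pos hi, div_eq_inv_mul]
    exact mul_le_mul_of_nonneg_left h2 hi.le
  · rw [lap_chi, abs_mul, abs_of_pos (pow_pos hi 2), div_eq_inv_mul, ← inv_pow]
    exact mul_le_mul_of_nonneg_left h3 (pow_pos hi 2).le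

/-! ### The pointwise inequality -/

/-- the integrand of the virial identity in terms of the values of the functions at a point -/
lemma key_identity {k k1 k2 kk x y p r h u a b g g1 g2 : ℝ} (hp : p ^ 2 * (x ^ 2 + y ^ 2 + r ^ 2) = 1) :
    h ^ 2 * ((k1 * (p * x) + k * (p - x ^ 2 * p ^ 3)) * a ^ 2
        + ((k1 * (p * y) + k * (- (x * y * p ^ 3))) + (k2 * (p * x) + k * (- (x * y * p ^ 3)))) * (a * b)
        + (k2 * (p * y) + k * (p - y ^ 2 * p ^ 3)) * b ^ 2)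
      + (k * ((1 / 2) * (p - r ^ 2 * p ^ 3)) - ((k1 * (p * x) + k * (p - x ^ 2 * p ^ 3))
        + (k2 * (p * y) + k * (p - y ^ 2 * p ^ 3))) / 2) * (h ^ 2 * (a ^ 2 + b ^ 2))
      + (((k1 * (p * x) + k * (p - x ^ 2 * p ^ 3)) + (k2 * (p * y) + k * (p - y ^ 2 * p ^ 3))) / 2
        - k * ((1 / 2) * (p - r ^ 2 * p ^ 3))) * (g * u ^ 2)
      + (k * (p * x) * g1 + k * (p * y) * g2) / 2 * u ^ 2
      - h ^ 2 / 2 * (kk * ((1 / 2) * (p - r ^ 2 * p ^ 3))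
        + 2 * (k1 * (x * ((1 / 2) * (3 * r ^ 2 * p ^ 5 - p ^ 3)))
          + k2 * (y * ((1 / 2) * (3 * r ^ 2 * p ^ 5 - p ^ 3))))
        + k * ((3 * r ^ 2 * p ^ 5 - p ^ 3)
          + (x ^ 2 + y ^ 2) * ((1 / 2) * (3 * p ^ 5 - 15 * r ^ 2 * p ^ 7)))) * u ^ 2
    = k * (h ^ 2 * p ^ 3 * (x * b - y * a) ^ 2 + r ^ 2 * p ^ 3 * g * u ^ 2
        + (p * x * g1 + p * y * g2) / 2 * u ^ 2
        - h ^ 2 / 2 * ((3 * r ^ 2 * p ^ 5 - p ^ 3)
          + (x ^ 2 + y ^ 2) * ((1 / 2) * (3 * p ^ 5 - 15 * r ^ 2 * p ^ 7))) * u ^ 2)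
      + h ^ 2 * (k1 * a + k2 * b) * (p * x * a + p * y * b)
      - (k1 * (p * x) + k2 * (p * y)) / 2 * (h ^ 2 * (a ^ 2 + b ^ 2) - g * u ^ 2)
      - h ^ 2 / 2 * (kk * ((1 / 2) * (p - r ^ 2 * p ^ 3))
        + (k1 * (p * x) + k2 * (p * y)) * (3 * r ^ 2 * p ^ 4 - p ^ 2)) * u ^ 2 := by
  linear_combination (-(k * p * (g * u ^ 2)) / 2 + (k * p * (h ^ 2 * (a ^ 2 + b ^ 2))) / 2
    - k * p * (h ^ 2 * (a ^ 2 + b ^ 2))) * hp

lemma abs_px {x y p r : ℝ} (hp : p ^ 2 * (x ^ 2 + y ^ 2 + r ^ 2) = 1) : |p * x| ≤ 1 ∧ |p * y| ≤ 1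
    ∧ p ^ 2 * r ^ 2 ≤ 1 ∧ p ^ 2 * (x ^ 2 + y ^ 2) ≤ 1 := by
  have a1 : 0 ≤ (p * x) ^ 2 := sq_nonneg _
  have a2 : 0 ≤ (p * y) ^ 2 := sq_nonneg _
  have a3 : 0 ≤ (p * r) ^ 2 := sq_nonneg _
  refine ⟨?_, ?_, ?_, ?_⟩
  · rw [← sq_le_one_iff_abs_le_one]; nlinarith only [hp]
  · rw [← sq_le_one_iff_abs_le_one]; nlinarith only [hp]
  · nlinarith
  · nlinarith

/-- the pointwise lower bound of the integrand -/
lemma key_bound {k k1 k2 kk x y p r h u a b g g1 g2 m G A R : ℝ} (hp0 : 0 < p)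
    (hp : p ^ 2 * (x ^ 2 + y ^ 2 + r ^ 2) = 1) (hk0 : 0 ≤ k) (hk1 : k ≤ 1) (hA : 0 ≤ A) (hR : 0 < R)
    (hR1 : R ≤ 1) (h1 : |k1| ≤ A / R) (h2 : |k2| ≤ A / R) (h3 : |kk| ≤ A / R ^ 2)
    (hh : 0 < h) (hhR : h ≤ R) (h5 : 5 * h ^ 2 ≤ m * r ^ 2) (hm : 0 < m) (hg : m ≤ g) (hgG : g ≤ G)
    (hg1 : |g1| ≤ G) (hg2 : |g2| ≤ G) (hin : x ^ 2 + y ^ 2 < R ^ 2 → k1 = 0 ∧ k2 = 0 ∧ kk = 0) :
    k * (m / 2 * r ^ 2 * p ^ 3 * u ^ 2) - (3 * A + A * G + G) / R * (h ^ 2 * (a ^ 2 + b ^ 2) + u ^ 2)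
    ≤ k * (h ^ 2 * p ^ 3 * (x * b - y * a) ^ 2 + r ^ 2 * p ^ 3 * g * u ^ 2
        + (p * x * g1 + p * y * g2) / 2 * u ^ 2
        - h ^ 2 / 2 * ((3 * r ^ 2 * p ^ 5 - p ^ 3)
          + (x ^ 2 + y ^ 2) * ((1 / 2) * (3 * p ^ 5 - 15 * r ^ 2 * p ^ 7))) * u ^ 2)
      + h ^ 2 * (k1 * a + k2 * b) * (p * x * a + p * y * b)
      - (k1 * (p * x) + k2 * (p * y)) / 2 * (h ^ 2 * (a ^ 2 + b ^ 2) - g * u ^ 2)
      - h ^ 2 / 2 * (kk * ((1 / 2) * (p - r ^ 2 * p ^ 3))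
        + (k1 * (p * x) + k2 * (p * y)) * (3 * r ^ 2 * p ^ 4 - p ^ 2)) * u ^ 2 := by
  obtain ⟨hx, hy, hrr, hss⟩ := abs_px hp
  have hU : 0 ≤ u ^ 2 := sq_nonneg u
  have hG : 0 ≤ G := by linarith only [hm, hg, hgG]
  have hW : 0 ≤ h ^ 2 * (a ^ 2 + b ^ 2) := by (clear * - hh; positivity)
  have hp3 : 0 < p ^ 3 := by positivity
  set X1 := p * x with hX1
  set Y1 := p * y with hY1
  set B := A / R with hB
  have hB0 : 0 ≤ B := by positivity
  clear_value X1 Y1 B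
  -- the bulk
  have hL : (3 * r ^ 2 * p ^ 5 - p ^ 3)
      + (x ^ 2 + y ^ 2) * ((1 / 2) * (3 * p ^ 5 - 15 * r ^ 2 * p ^ 7)) ≤ 5 * p ^ 3 := by
    have e : (3 * r ^ 2 * p ^ 5 - p ^ 3)
        + (x ^ 2 + y ^ 2) * ((1 / 2) * (3 * p ^ 5 - 15 * r ^ 2 * p ^ 7))
        = p ^ 3 * (3 * (p ^ 2 * r ^ 2) - 1 + 3 / 2 * (p ^ 2 * (x ^ 2 + y ^ 2)))
          - 15 / 2 * (x ^ 2 + y ^ 2) * r ^ 2 * p ^ 7 := by ring
    have e2 : 0 ≤ 15 / 2 * (x ^ 2 + y ^ 2) * r ^ 2 * p ^ 7 := by (clear * - hp0; positivity)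
    have e3 : p ^ 3 * (3 * (p ^ 2 * r ^ 2) - 1 + 3 / 2 * (p ^ 2 * (x ^ 2 + y ^ 2))) ≤ p ^ 3 * 5 :=
      mul_le_mul_of_nonneg_left (by linarith only [hp, hrr]) hp3.le
    linarith
  have hT6 : m / 2 * r ^ 2 * p ^ 3 * u ^ 2 ≤ r ^ 2 * p ^ 3 * g * u ^ 2
      - h ^ 2 / 2 * ((3 * r ^ 2 * p ^ 5 - p ^ 3)
          + (x ^ 2 + y ^ 2) * ((1 / 2) * (3 * p ^ 5 - 15 * r ^ 2 * p ^ 7))) * u ^ 2 := by
    have e1 : h ^ 2 / 2 * ((3 * r ^ 2 * p ^ 5 - p ^ 3)
          + (x ^ 2 + y ^ 2) * ((1 / 2) * (3 * p ^ 5 - 15 * r ^ 2 * p ^ 7))) ≤ h ^ 2 / 2 * (5 * p ^ 3) :=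
      mul_le_mul_of_nonneg_left hL (by positivity)
    have e2 : h ^ 2 / 2 * (5 * p ^ 3) ≤ m / 2 * r ^ 2 * p ^ 3 := by
      have := mul_le_mul_of_nonneg_right h5 (show 0 ≤ p ^ 3 / 2 by positivity)
      linarith only [this]
    have e3 : m * (r ^ 2 * p ^ 3) ≤ g * (r ^ 2 * p ^ 3) :=
      mul_le_mul_of_nonneg_right hg (by positivity)
    have e4 : m / 2 * r ^ 2 * p ^ 3 ≤ r ^ 2 * p ^ 3 * g - h ^ 2 / 2 * ((3 * r ^ 2 * p ^ 5 - p ^ 3)
          + (x ^ 2 + y ^ 2) * ((1 / 2) * (3 * p ^ 5 - 15 * r ^ 2 * p ^ 7))) := by linarith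
    have e5 := mul_le_mul_of_nonneg_right e4 hU
    linarith only [e5]
  have hT5 : -(G * u ^ 2) ≤ (X1 * g1 + Y1 * g2) / 2 * u ^ 2 := by
    have f1 : |X1 * g1| ≤ G := by
      rw [abs_mul]
      calc |X1| * |g1| ≤ 1 * G := mul_le_mul hx hg1 (abs_nonneg _) zero_le_one
        _ = G := one_mul _
    have f2 : |Y1 * g2| ≤ G := by
      rw [abs_mul]
      calc |Y1| * |g2| ≤ 1 * G := mul_le_mul hy hg2 (abs_nonneg _) zero_le_one
        _ = G := one_mul _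
    have f3 : -G ≤ (X1 * g1 + Y1 * g2) / 2 := by
      have := (abs_le.1 f1).1; have := (abs_le.1 f2).1; linarith
    have := mul_le_mul_of_nonneg_right f3 hU
    linarith only [this]
  have hbulk : k * (m / 2 * r ^ 2 * p ^ 3 * u ^ 2) - G * u ^ 2
      ≤ k * (h ^ 2 * p ^ 3 * (x * b - y * a) ^ 2 + r ^ 2 * p ^ 3 * g * u ^ 2
        + (X1 * g1 + Y1 * g2) / 2 * u ^ 2
        - h ^ 2 / 2 * ((3 * r ^ 2 * p ^ 5 - p ^ 3)
          + (x ^ 2 + y ^ 2) * ((1 / 2) * (3 * p ^ 5 - 15 * r ^ 2 * p ^ 7))) * u ^ 2) := by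
    have f0 : 0 ≤ h ^ 2 * p ^ 3 * (x * b - y * a) ^ 2 := by (clear * - hh hp0; positivity)
    have f1 : m / 2 * r ^ 2 * p ^ 3 * u ^ 2 - G * u ^ 2
      ≤ h ^ 2 * p ^ 3 * (x * b - y * a) ^ 2 + r ^ 2 * p ^ 3 * g * u ^ 2
        + (X1 * g1 + Y1 * g2) / 2 * u ^ 2
        - h ^ 2 / 2 * ((3 * r ^ 2 * p ^ 5 - p ^ 3)
          + (x ^ 2 + y ^ 2) * ((1 / 2) * (3 * p ^ 5 - 15 * r ^ 2 * p ^ 7))) * u ^ 2 := by linarith
    have f2 := mul_le_mul_of_nonneg_left f1 hk0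
    have f3 : k * (G * u ^ 2) ≤ 1 * (G * u ^ 2) := mul_le_mul_of_nonneg_right hk1 (by (clear * - hG; positivity))
    linarith only [f2, f3]
  -- the cutoff terms
  have hT1 : -(2 * B * (h ^ 2 * (a ^ 2 + b ^ 2))) ≤ h ^ 2 * (k1 * a + k2 * b) * (X1 * a + Y1 * b) := by
    have f1 : |k1 * a + k2 * b| ≤ B * (|a| + |b|) := by
      calc |k1 * a + k2 * b| ≤ |k1 * a| + |k2 * b| := abs_add_le _ _
        _ = |k1| * |a| + |k2| * |b| := by rw [abs_mul, abs_mul]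
        _ ≤ B * |a| + B * |b| := add_le_add (mul_le_mul_of_nonneg_right h1 (abs_nonneg _))
            (mul_le_mul_of_nonneg_right h2 (abs_nonneg _))
        _ = _ := by ring
    have f2 : |X1 * a + Y1 * b| ≤ |a| + |b| := by
      calc |X1 * a + Y1 * b| ≤ |X1 * a| + |Y1 * b| := abs_add_le _ _
        _ = |X1| * |a| + |Y1| * |b| := by rw [abs_mul, abs_mul]
        _ ≤ 1 * |a| + 1 * |b| := add_le_add (mul_le_mul_of_nonneg_right hx (abs_nonneg _))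
            (mul_le_mul_of_nonneg_right hy (abs_nonneg _))
        _ = _ := by ring
    have f3 : |(k1 * a + k2 * b) * (X1 * a + Y1 * b)| ≤ 2 * B * (a ^ 2 + b ^ 2) := by
      rw [abs_mul]
      calc |k1 * a + k2 * b| * |X1 * a + Y1 * b| ≤ (B * (|a| + |b|)) * (|a| + |b|) :=
            mul_le_mul f1 f2 (abs_nonneg _) (by positivity)
        _ = B * (|a| + |b|) ^ 2 := by ring
        _ ≤ B * (2 * (a ^ 2 + b ^ 2)) := by
            apply mul_le_mul_of_nonneg_left _ hB0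
            linarith only [sq_nonneg (|a| - |b|), sq_abs a, sq_abs b]
        _ = _ := by ring
    have f4 := mul_le_mul_of_nonneg_left (abs_le.1 f3).1 (sq_nonneg h)
    linarith only [f4]
  have hq : |k1 * X1 + k2 * Y1| ≤ 2 * B := by
    calc |k1 * X1 + k2 * Y1| ≤ |k1 * X1| + |k2 * Y1| := abs_add_le _ _
      _ = |k1| * |X1| + |k2| * |Y1| := by rw [abs_mul, abs_mul]
      _ ≤ B * 1 + B * 1 := add_le_add (mul_le_mul h1 hx (abs_nonneg _) hB0)
            (mul_le_mul h2 hy (abs_nonneg _) hB0)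
      _ = _ := by ring
  have hT2 : (k1 * X1 + k2 * Y1) / 2 * (h ^ 2 * (a ^ 2 + b ^ 2) - g * u ^ 2)
      ≤ B * (h ^ 2 * (a ^ 2 + b ^ 2) + G * u ^ 2) := by
    have f1 : |h ^ 2 * (a ^ 2 + b ^ 2) - g * u ^ 2| ≤ h ^ 2 * (a ^ 2 + b ^ 2) + G * u ^ 2 := by
      have g0 : 0 ≤ g * u ^ 2 := mul_nonneg (by linarith only [hm, hg]) hU
      have g3 : g * u ^ 2 ≤ G * u ^ 2 := mul_le_mul_of_nonneg_right hgG hU
      rw [abs_le]; constructor <;> (first | linarith only [hW, g3] | linarith only [g0, g3] | linarith)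
    have f2 : |(k1 * X1 + k2 * Y1) / 2| ≤ B := by
      rw [abs_div, abs_of_pos (show (0 : ℝ) < 2 by norm_num)]; linarith only [hq]
    calc (k1 * X1 + k2 * Y1) / 2 * (h ^ 2 * (a ^ 2 + b ^ 2) - g * u ^ 2)
        ≤ |(k1 * X1 + k2 * Y1) / 2 * (h ^ 2 * (a ^ 2 + b ^ 2) - g * u ^ 2)| := le_abs_self _
      _ = |(k1 * X1 + k2 * Y1) / 2| * |h ^ 2 * (a ^ 2 + b ^ 2) - g * u ^ 2| := abs_mul _ _
      _ ≤ B * (h ^ 2 * (a ^ 2 + b ^ 2) + G * u ^ 2) := mul_le_mul f2 f1 (abs_nonneg _) hB0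
  have hT34 : h ^ 2 / 2 * (kk * ((1 / 2) * (p - r ^ 2 * p ^ 3))
        + (k1 * X1 + k2 * Y1) * (3 * r ^ 2 * p ^ 4 - p ^ 2)) * u ^ 2 ≤ 3 * B * u ^ 2 := by
    by_cases hs : x ^ 2 + y ^ 2 < R ^ 2
    · obtain ⟨z1, z2, z3⟩ := hin hs
      rw [z1, z2, z3]
      have : 0 ≤ 3 * B * u ^ 2 := by (clear * - hB0; positivity)
      simpa using this
    · push Not at hs
      have hpR : p ^ 2 * R ^ 2 ≤ 1 := by
        have := mul_le_mul_of_nonneg_left hs (sq_nonneg p)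
        linarith only [hss, this]
      have hpR1 : p * R ≤ 1 := by
        have : (p * R) ^ 2 ≤ 1 := by rw [mul_pow]; exact hpR
        exact (abs_le.1 ((sq_le_one_iff_abs_le_one _).1 this)).2
      have hpi : p ≤ 1 / R := by rw [le_div_iff₀ hR]; exact hpR1
      have hh2 : h ^ 2 ≤ R ^ 2 := by
        apply pow_le_pow_left₀ hh.le hhR
      have hph : p ^ 2 * h ^ 2 ≤ 1 := by
        have := mul_le_mul_of_nonneg_left hh2 (sq_nonneg p)
        linarith only [hpR, this]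
      have f1 : h ^ 2 * |kk| ≤ A := by
        calc h ^ 2 * |kk| ≤ R ^ 2 * (A / R ^ 2) := mul_le_mul hh2 h3 (abs_nonneg _) (by positivity)
          _ = A := by field_simp
      have f2 : |(1 / 2) * (p - r ^ 2 * p ^ 3)| ≤ (1 / 2) * p := by
        have e : p - r ^ 2 * p ^ 3 = p * (1 - p ^ 2 * r ^ 2) := by ring
        have e1 : 0 ≤ p * (1 - p ^ 2 * r ^ 2) := mul_nonneg hp0.le (by linarith only [hrr])
        have e2 : 0 ≤ p * (p ^ 2 * r ^ 2) := by positivity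
        rw [e, abs_of_nonneg (by linarith only [e1])]
        linarith only [e2]
      have f3 : |h ^ 2 / 2 * (kk * ((1 / 2) * (p - r ^ 2 * p ^ 3)))| ≤ B := by
        have e : h ^ 2 / 2 * (kk * ((1 / 2) * (p - r ^ 2 * p ^ 3)))
            = (h ^ 2 * kk) * ((1 / 2) * (p - r ^ 2 * p ^ 3)) / 2 := by ring
        rw [e, abs_div, abs_mul, abs_mul, abs_of_nonneg (sq_nonneg h),
          abs_of_pos (show (0 : ℝ) < 2 by norm_num)]
        have e2 : h ^ 2 * |kk| * |(1 / 2) * (p - r ^ 2 * p ^ 3)| ≤ A * ((1 / 2) * (1 / R)) := by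
          apply mul_le_mul f1 _ (abs_nonneg _) hA
          linarith only [hpi, f2]
        have e3 : A * ((1 / 2) * (1 / R)) = B / 2 := by rw [hB]; ring
        linarith only [hB0, e2, e3]
      have f4 : |3 * r ^ 2 * p ^ 4 - p ^ 2| ≤ 2 * p ^ 2 := by
        have e : 3 * r ^ 2 * p ^ 4 - p ^ 2 = p ^ 2 * (3 * (p ^ 2 * r ^ 2) - 1) := by ring
        rw [e, abs_mul, abs_of_nonneg (sq_nonneg p), mul_comm]
        apply mul_le_mul_of_nonneg_right _ (sq_nonneg p)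
        have : 0 ≤ p ^ 2 * r ^ 2 := by positivity
        rw [abs_le]; constructor <;> (first | linarith only [hp, hss] | linarith only [hrr] | linarith)
      have f5 : |h ^ 2 / 2 * ((k1 * X1 + k2 * Y1) * (3 * r ^ 2 * p ^ 4 - p ^ 2))| ≤ 2 * B := by
        rw [abs_mul, abs_mul, abs_of_nonneg (show 0 ≤ h ^ 2 / 2 by positivity)]
        calc h ^ 2 / 2 * (|k1 * X1 + k2 * Y1| * |3 * r ^ 2 * p ^ 4 - p ^ 2|)
            ≤ h ^ 2 / 2 * ((2 * B) * (2 * p ^ 2)) := by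
              apply mul_le_mul_of_nonneg_left _ (by positivity)
              exact mul_le_mul hq f4 (abs_nonneg _) (by positivity)
          _ = 2 * B * (p ^ 2 * h ^ 2) := by ring
          _ ≤ 2 * B * 1 := mul_le_mul_of_nonneg_left hph (by positivity)
          _ = 2 * B := by ring
      have f6 : h ^ 2 / 2 * (kk * ((1 / 2) * (p - r ^ 2 * p ^ 3))
        + (k1 * X1 + k2 * Y1) * (3 * r ^ 2 * p ^ 4 - p ^ 2)) ≤ 3 * B := by
        have := (abs_le.1 f3).2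
        have := (abs_le.1 f5).2
        linarith
      exact mul_le_mul_of_nonneg_right f6 hU
  -- the sum
  have hfin : G * u ^ 2 + 2 * B * (h ^ 2 * (a ^ 2 + b ^ 2)) + B * (h ^ 2 * (a ^ 2 + b ^ 2) + G * u ^ 2)
      + 3 * B * u ^ 2 ≤ (3 * A + A * G + G) / R * (h ^ 2 * (a ^ 2 + b ^ 2) + u ^ 2) := by
    have e : (3 * A + A * G + G) / R = 3 * B + B * G + G / R := by rw [hB]; field_simp
    have hGR : G ≤ G / R := by
      rw [le_div_iff₀ hR]
      calc G * R ≤ G * 1 := mul_le_mul_of_nonneg_left hR1 hG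
        _ = G := mul_one _
    rw [e]
    have q1 : 0 ≤ B * G * (h ^ 2 * (a ^ 2 + b ^ 2)) := by (clear * - hB0 hG hh; positivity)
    have q2 : 0 ≤ G / R * (h ^ 2 * (a ^ 2 + b ^ 2)) := by (clear * - hG hR hh; positivity)
    have q3 : G * u ^ 2 ≤ G / R * u ^ 2 := mul_le_mul_of_nonneg_right hGR hU
    linarith only [q1, q2, q3]
  linarith

/-! ### The main estimate -/

section main

variable (z₀ : ℂ) (r r₀ : ℝ)

/-- the vector field -/
def Z1 (z : ℂ) : ℝ := chi z₀ r₀ z * (p z₀ r z * X z₀ z)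

/-- the vector field -/
def Z2 (z : ℂ) : ℝ := chi z₀ r₀ z * (p z₀ r z * Y z₀ z)

/-- the weight -/
def cc (z : ℂ) : ℝ := chi z₀ r₀ z * c0 z₀ r z

variable {z₀ r r₀}

lemma cd_Z1 (hr : 0 < r) : ContDiff ℝ ∞ (Z1 z₀ r r₀) :=
  (cd_chi z₀ r₀).mul ((cd_p z₀ hr).mul (cd_X z₀))

lemma cd_Z2 (hr : 0 < r) : ContDiff ℝ ∞ (Z2 z₀ r r₀) :=
  (cd_chi z₀ r₀).mul ((cd_p z₀ hr).mul (cd_Y z₀))

lemma cd_cc (hr : 0 < r) : ContDiff ℝ ∞ (cc z₀ r r₀) :=
  (cd_chi z₀ r₀).mul (cd_c0 z₀ hr)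

lemma d1_Z1 (hr : 0 < r) (z : ℂ) : d1 (Z1 z₀ r r₀) z = d1 (chi z₀ r₀) z * (p z₀ r z * X z₀ z)
    + chi z₀ r₀ z * (p z₀ r z - X z₀ z ^ 2 * p z₀ r z ^ 3) := by
  have hp := cd_p z₀ hr
  have e : d1 (Z1 z₀ r r₀) z = _ := d1_mul (cd_chi z₀ r₀) (hp.mul (cd_X z₀)) z
  rw [e, d1_mul hp (cd_X z₀), d1_p z₀ hr, d1_X]; ring

lemma d2_Z1 (hr : 0 < r) (z : ℂ) : d2 (Z1 z₀ r r₀) z = d2 (chi z₀ r₀) z * (p z₀ r z * X z₀ z)
    + chi z₀ r₀ z * (- (X z₀ z * Y z₀ z * p z₀ r z ^ 3)) := by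
  have hp := cd_p z₀ hr
  have e : d2 (Z1 z₀ r r₀) z = _ := d2_mul (cd_chi z₀ r₀) (hp.mul (cd_X z₀)) z
  rw [e, d2_mul hp (cd_X z₀), d2_p z₀ hr, d2_X]; ring

lemma d1_Z2 (hr : 0 < r) (z : ℂ) : d1 (Z2 z₀ r r₀) z = d1 (chi z₀ r₀) z * (p z₀ r z * Y z₀ z)
    + chi z₀ r₀ z * (- (X z₀ z * Y z₀ z * p z₀ r z ^ 3)) := by
  have hp := cd_p z₀ hr
  have e : d1 (Z2 z₀ r r₀) z = _ := d1_mul (cd_chi z₀ r₀) (hp.mul (cd_Y z₀)) z
  rw [e, d1_mul hp (cd_Y z₀), d1_p z₀ hr, d1_Y]; ring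

lemma d2_Z2 (hr : 0 < r) (z : ℂ) : d2 (Z2 z₀ r r₀) z = d2 (chi z₀ r₀) z * (p z₀ r z * Y z₀ z)
    + chi z₀ r₀ z * (p z₀ r z - Y z₀ z ^ 2 * p z₀ r z ^ 3) := by
  have hp := cd_p z₀ hr
  have e : d2 (Z2 z₀ r r₀) z = _ := d2_mul (cd_chi z₀ r₀) (hp.mul (cd_Y z₀)) z
  rw [e, d2_mul hp (cd_Y z₀), d2_p z₀ hr, d2_Y]; ring

lemma lap_cc (hr : 0 < r) (z : ℂ) : lap (cc z₀ r r₀) z
    = lap (chi z₀ r₀) z * c0 z₀ r z + 2 * (d1 (chi z₀ r₀) z * d1 (c0 z₀ r) z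
      + d2 (chi z₀ r₀) z * d2 (c0 z₀ r) z) + chi z₀ r₀ z * L0 z₀ r z := by
  have e : lap (cc z₀ r r₀) z = _ := lap_mul (cd_chi z₀ r₀) (cd_c0 z₀ hr) z
  rw [e, lap_c0 z₀ hr]

/-- the integrand of the virial identity -/
def Igd (h : ℝ) (u g : ℂ → ℝ) (Z₁ Z₂ c : ℂ → ℝ) (z : ℂ) : ℝ :=
  (h ^ 2 * (d1 Z₁ z * d1 u z ^ 2 + (d1 Z₂ z + d2 Z₁ z) * (d1 u z * d2 u z)
        + d2 Z₂ z * d2 u z ^ 2)
      + (c z - (d1 Z₁ z + d2 Z₂ z) / 2) * (h ^ 2 * (d1 u z ^ 2 + d2 u z ^ 2))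
      + ((d1 Z₁ z + d2 Z₂ z) / 2 - c z) * (g z * u z ^ 2)
      + (Z₁ z * d1 g z + Z₂ z * d2 g z) / 2 * u z ^ 2
      - h ^ 2 / 2 * lap c z * u z ^ 2)

lemma cont_Igd (h : ℝ) {u g Z₁ Z₂ c : ℂ → ℝ} (hu : ContDiff ℝ ∞ u) (hg : ContDiff ℝ ∞ g)
    (h1 : ContDiff ℝ ∞ Z₁) (h2 : ContDiff ℝ ∞ Z₂) (hc : ContDiff ℝ ∞ c) :
    Continuous (Igd h u g Z₁ Z₂ c) := by
  have a1 := (cd_d1 hu).continuous
  have a2 := (cd_d2 hu).continuous
  have a3 := (cd_d1 hg).continuous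
  have a4 := (cd_d2 hg).continuous
  have a5 := (cd_d1 h1).continuous
  have a6 := (cd_d2 h1).continuous
  have a7 := (cd_d1 h2).continuous
  have a8 := (cd_d2 h2).continuous
  have a9 : Continuous (lap c) := ((cd_d1 (cd_d1 hc)).add (cd_d2 (cd_d2 hc))).continuous
  have b1 := hu.continuous
  have b2 := hg.continuous
  have b3 := h1.continuous
  have b4 := h2.continuous
  have b5 := hc.continuous
  unfold Igd
  fun_prop

end main

section main2

variable {z₀ : ℂ} {r r₀ : ℝ}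

lemma sq_add_eq (z₀ z : ℂ) : X z₀ z ^ 2 + Y z₀ z ^ 2 = dist z z₀ ^ 2 := by
  unfold X Y
  rw [dist_eq_norm, ← Complex.normSq_eq_norm_sq, Complex.normSq_apply]
  ring

lemma Igd_bound {m G A h : ℝ} {u g : ℂ → ℝ} (hA0 : 0 ≤ A)
    (hA : ∀ z, |d1 bb z| ≤ A ∧ |d2 bb z| ≤ A ∧ |lap bb z| ≤ A) (hr : 0 < r) (hr0 : 0 < r₀)
    (hr1 : r₀ ≤ 1) (hh : 0 < h) (hhR : h ≤ r₀) (h5 : 5 * h ^ 2 ≤ m * r ^ 2) (hm : 0 < m) (z : ℂ)
    (hg : m ≤ g z ∧ g z ≤ G ∧ |d1 g z| ≤ G ∧ |d2 g z| ≤ G) :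
    chi z₀ r₀ z * (m / 2 * r ^ 2 * p z₀ r z ^ 3 * u z ^ 2)
      - (3 * A + A * G + G) / r₀ * (h ^ 2 * (d1 u z ^ 2 + d2 u z ^ 2) + u z ^ 2)
      ≤ Igd h u g (Z1 z₀ r r₀) (Z2 z₀ r r₀) (cc z₀ r r₀) z := by
  obtain ⟨hg0, hg1, hg2, hg3⟩ := hg
  obtain ⟨b1, b2, b3⟩ := chi_bounds z₀ hr0 hA z
  have hin : X z₀ z ^ 2 + Y z₀ z ^ 2 < r₀ ^ 2 →
      d1 (chi z₀ r₀) z = 0 ∧ d2 (chi z₀ r₀) z = 0 ∧ lap (chi z₀ r₀) z = 0 := by
    intro hz
    rw [sq_add_eq] at hz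
    exact chi_der_in z₀ hr0 (lt_of_pow_lt_pow_left₀ 2 hr0.le hz)
  have key := key_bound (k := chi z₀ r₀ z) (k1 := d1 (chi z₀ r₀) z) (k2 := d2 (chi z₀ r₀) z)
    (kk := lap (chi z₀ r₀) z) (x := X z₀ z) (y := Y z₀ z) (u := u z) (a := d1 u z) (b := d2 u z)
    (p_pos z₀ hr z) (p_sq z₀ hr z) (chi_nonneg z₀ r₀ z) (chi_le_one z₀ r₀ z) hA0 hr0 hr1 b1 b2 b3 hh
    hhR h5 hm hg0 hg1 hg2 hg3 hin
  rw [← key_identity (p_sq z₀ hr z)] at key
  refine key.trans (le_of_eq ?_)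
  unfold Igd
  rw [d1_Z1 hr, d2_Z1 hr, d1_Z2 hr, d2_Z2 hr, lap_cc hr, d1_c0 z₀ hr, d2_c0 z₀ hr]
  unfold Z1 Z2 cc c0 L0
  rfl

lemma Igd_zero {h : ℝ} {u g : ℂ → ℝ} (hr : 0 < r) (hr0 : 0 < r₀) (z : ℂ)
    (hz : z ∉ Metric.closedBall z₀ (2 * r₀)) :
    Igd h u g (Z1 z₀ r r₀) (Z2 z₀ r r₀) (cc z₀ r r₀) z = 0 := by
  rw [Metric.mem_closedBall, not_le] at hz
  obtain ⟨e1, e2, e3⟩ := chi_der_out z₀ hr0 hz
  have e0 := chi_zero z₀ hr0 hz.le
  unfold Igd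
  rw [d1_Z1 hr, d2_Z1 hr, d1_Z2 hr, d2_Z2 hr, lap_cc hr]
  unfold Z1 Z2 cc
  rw [e0, e1, e2, e3]
  ring

lemma p_lower (hr : 0 < r) {z : ℂ} (hz : z ∈ Metric.closedBall z₀ r) :
    1 / (4 * r) ≤ r ^ 2 * p z₀ r z ^ 3 := by
  have h1 := p_sq z₀ hr z
  have hp := p_pos z₀ hr z
  rw [sq_add_eq] at h1
  have hd : dist z z₀ ≤ r := Metric.mem_closedBall.1 hz
  have hd2 : dist z z₀ ^ 2 ≤ r ^ 2 := pow_le_pow_left₀ dist_nonneg hd 2
  set q := p z₀ r z
  -- q² ≥ 1 / (2 r²)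
  have h2 : 1 ≤ q ^ 2 * (2 * r ^ 2) := by
    have := mul_le_mul_of_nonneg_left hd2 (sq_nonneg q)
    linarith
  have h3 : 1 ≤ q * (2 * r) := by
    by_contra hc
    push Not at hc
    have hc2 : (q * (2 * r)) ^ 2 < 1 := by
      have h0 : 0 ≤ q * (2 * r) := by positivity
      calc (q * (2 * r)) ^ 2 < 1 ^ 2 := pow_lt_pow_left₀ hc h0 two_ne_zero
        _ = 1 := one_pow 2
    linarith only [h2, hc2]
  rw [div_le_iff₀ (by positivity)]
  have h4 : 1 * 1 ≤ (q ^ 2 * (2 * r ^ 2)) * (q * (2 * r)) :=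
    mul_le_mul h2 h3 zero_le_one (by positivity)
  linarith only [h4]

lemma main_ineq (hVir : StmtVir) {m G A h : ℝ} {u g : ℂ → ℝ} (hA0 : 0 ≤ A)
    (hA : ∀ z, |d1 bb z| ≤ A ∧ |d2 bb z| ≤ A ∧ |lap bb z| ≤ A) (hu : ContDiff ℝ ∞ u)
    (hgs : ContDiff ℝ ∞ g) (hr : 0 < r) (hrr : r ≤ r₀)
    (hr1 : r₀ ≤ 1) (hh : 0 < h) (hhR : h ≤ r₀) (h5 : 5 * h ^ 2 ≤ m * r ^ 2) (hm : 0 < m)
    (hg : ∀ z ∈ Metric.closedBall z₀ (3 * r₀), m ≤ g z ∧ g z ≤ G ∧ |d1 g z| ≤ G ∧ |d2 g z| ≤ G)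
    (heq : ∀ z ∈ Metric.closedBall z₀ (3 * r₀), h ^ 2 * lap u z = - (g z * u z)) :
    m / (8 * r) * ∫ z in Metric.closedBall z₀ r, u z ^ 2
      ≤ (3 * A + A * G + G) / r₀ * ∫ z in Metric.closedBall z₀ (2 * r₀),
        (h ^ 2 * (d1 u z ^ 2 + d2 u z ^ 2) + u z ^ 2) := by
  have hr0 : 0 < r₀ := hr.trans_le hrr
  have hsub : Metric.closedBall z₀ (2 * r₀) ⊆ Metric.closedBall z₀ (3 * r₀) :=
    Metric.closedBall_subset_closedBall (by linarith)
  have hsub2 : Metric.closedBall z₀ r ⊆ Metric.closedBall z₀ (2 * r₀) :=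
    Metric.closedBall_subset_closedBall (by linarith)
  have hcs := hcs_chi z₀ hr0
  have h0 : ∫ z, Igd h u g (Z1 z₀ r r₀) (Z2 z₀ r r₀) (cc z₀ r r₀) z = 0 := by
    refine hVir u g (Z1 z₀ r r₀) (Z2 z₀ r r₀) (cc z₀ r r₀) h hu hgs (cd_Z1 hr) (cd_Z2 hr) (cd_cc hr)
      hcs.mul_right hcs.mul_right hcs.mul_right ?_
    intro z hz
    apply heq z
    apply hsub
    by_contra hc
    rw [Metric.mem_closedBall, not_le] at hc
    have e0 := chi_zero z₀ hr0 hc.le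
    unfold Z1 Z2 cc at hz
    rw [e0] at hz
    simp at hz
  have h1 : ∫ z in Metric.closedBall z₀ (2 * r₀),
      Igd h u g (Z1 z₀ r r₀) (Z2 z₀ r r₀) (cc z₀ r r₀) z = 0 := by
    rw [setIntegral_eq_integral_of_forall_compl_eq_zero (fun z hz => Igd_zero hr hr0 z hz)]
    exact h0
  have cI : Continuous (Igd h u g (Z1 z₀ r r₀) (Z2 z₀ r r₀) (cc z₀ r r₀)) :=
    cont_Igd h hu hgs (cd_Z1 hr) (cd_Z2 hr) (cd_cc hr)
  have c1 := hu.continuous
  have c2 := (cd_d1 hu).continuous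
  have c3 := (cd_d2 hu).continuous
  have c4 := (cd_p z₀ hr).continuous
  have c5 := (cd_chi z₀ r₀).continuous
  have cF : Continuous (fun z => chi z₀ r₀ z * (m / 2 * r ^ 2 * p z₀ r z ^ 3 * u z ^ 2)) := by
    fun_prop
  have cE : Continuous (fun z => h ^ 2 * (d1 u z ^ 2 + d2 u z ^ 2) + u z ^ 2) := by fun_prop
  have hK := isCompact_closedBall z₀ (2 * r₀)
  have iF := (cF.continuousOn (s := Metric.closedBall z₀ (2 * r₀))).integrableOn_compact hK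
    (μ := volume)
  have iE := ((cE.continuousOn (s := Metric.closedBall z₀ (2 * r₀))).integrableOn_compact hK
    (μ := volume))
  have iI := (cI.continuousOn (s := Metric.closedBall z₀ (2 * r₀))).integrableOn_compact hK
    (μ := volume)
  have h2 : (∫ z in Metric.closedBall z₀ (2 * r₀),
        chi z₀ r₀ z * (m / 2 * r ^ 2 * p z₀ r z ^ 3 * u z ^ 2))
      - (3 * A + A * G + G) / r₀ * ∫ z in Metric.closedBall z₀ (2 * r₀),
        (h ^ 2 * (d1 u z ^ 2 + d2 u z ^ 2) + u z ^ 2) ≤ 0 := by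
    rw [← integral_const_mul, ← integral_sub iF (iE.const_mul _), ← h1]
    refine setIntegral_mono_on (iF.sub (iE.const_mul _)) iI measurableSet_closedBall ?_
    intro z hz
    exact Igd_bound hA0 hA hr hr0 hr1 hh hhR h5 hm z (hg z (hsub hz))
  have h3 : m / (8 * r) * ∫ z in Metric.closedBall z₀ r, u z ^ 2
      ≤ ∫ z in Metric.closedBall z₀ (2 * r₀),
        chi z₀ r₀ z * (m / 2 * r ^ 2 * p z₀ r z ^ 3 * u z ^ 2) := by
    have a1 : m / (8 * r) * ∫ z in Metric.closedBall z₀ r, u z ^ 2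
        ≤ ∫ z in Metric.closedBall z₀ r,
          chi z₀ r₀ z * (m / 2 * r ^ 2 * p z₀ r z ^ 3 * u z ^ 2) := by
      rw [← integral_const_mul]
      refine setIntegral_mono_on ?_ (iF.mono_set hsub2) measurableSet_closedBall ?_
      · have c6 : Continuous fun z => m / (8 * r) * u z ^ 2 := by fun_prop
        exact c6.continuousOn.integrableOn_compact (isCompact_closedBall z₀ r)
      · intro z hz
        rw [chi_one z₀ hr0 ((Metric.mem_closedBall.1 hz).trans hrr), one_mul]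
        have b1 := p_lower hr hz
        have b2 : m / (8 * r) ≤ m / 2 * r ^ 2 * p z₀ r z ^ 3 := by
          have := mul_le_mul_of_nonneg_left b1 (show 0 ≤ m / 2 by positivity)
          calc m / (8 * r) = m / 2 * (1 / (4 * r)) := by field_simp; norm_num
            _ ≤ m / 2 * (r ^ 2 * p z₀ r z ^ 3) := this
            _ = _ := by ring
        exact mul_le_mul_of_nonneg_right b2 (sq_nonneg _)
    refine a1.trans ?_
    refine setIntegral_mono_set iF ?_ hsub2.eventuallyLE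
    refine Filter.Eventually.of_forall fun z => ?_
    have := chi_nonneg z₀ r₀ z
    have hp := p_pos z₀ hr z
    show 0 ≤ chi z₀ r₀ z * (m / 2 * r ^ 2 * p z₀ r z ^ 3 * u z ^ 2)
    (clear * - this hm hr hp; positivity)
  linarith

end main2

end

end MOR

/-- MOR: linear growth of the mass -/
theorem stmtMor (hVir : StmtVir) (hCac : StmtCac) : StmtMor := by
  intro m G hm
  obtain ⟨A, hA0, hA⟩ := MOR.exists_A
  obtain ⟨D, hD, hCac⟩ := hCac G
  -- the constant for `5 h² ≤ m r²`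
  set K : ℝ := 3 * A + A * |G| + |G| with hK
  set C₁ : ℝ := 8 * K * (D + 1) / m + 1 with hC1
  set κ : ℝ := 1 + 5 / m with hκ
  have hK0 : 0 ≤ K := by (clear * - hA0; positivity)
  have hC1p : 1 ≤ C₁ := by
    have : 0 ≤ 8 * K * (D + 1) / m := by (clear * - hA0 hD hm; positivity)
    linarith only [this]
  have hκ1 : 1 ≤ κ := by
    have : 0 ≤ 5 / m := by positivity
    linarith
  have hκm : 5 ≤ m * κ ^ 2 := by
    have e : m * κ ^ 2 = m + 10 + 25 / m := by rw [hκ]; field_simp; ring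
    have : 0 ≤ 25 / m := by positivity
    linarith only [hm, e, this]
  refine ⟨κ * C₁, by positivity, ?_⟩
  intro u g z₀ h r r₀ hu hg hh hhr hrr hr1 hgb heq
  have hr : 0 < r := hh.trans_le hhr
  have hr0 : 0 < r₀ := hr.trans_le hrr
  have hGG : 0 ≤ G := by
    obtain ⟨a1, a2, -, -⟩ := hgb z₀ (Metric.mem_closedBall_self (by positivity))
    linarith
  have habs : |G| = G := abs_of_nonneg hGG
  have cu : Continuous fun z => u z ^ 2 := hu.continuous.pow 2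
  have iu : ∀ R : ℝ, IntegrableOn (fun z => u z ^ 2) (Metric.closedBall z₀ R) volume := fun R =>
    cu.continuousOn.integrableOn_compact (isCompact_closedBall z₀ R)
  have mono : ∀ R R' : ℝ, R ≤ R' → ∫ z in Metric.closedBall z₀ R, u z ^ 2
      ≤ ∫ z in Metric.closedBall z₀ R', u z ^ 2 := by
    intro R R' hRR
    refine setIntegral_mono_set (iu R') (Filter.Eventually.of_forall fun z => sq_nonneg _)
      (Metric.closedBall_subset_closedBall hRR).eventuallyLE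
  have hM0 : 0 ≤ ∫ z in Metric.closedBall z₀ (3 * r₀), u z ^ 2 :=
    integral_nonneg fun z => sq_nonneg _
  -- the estimate for large radii
  have big : ∀ ρ : ℝ, κ * h ≤ ρ → ρ ≤ r₀ → ∫ z in Metric.closedBall z₀ ρ, u z ^ 2
      ≤ C₁ * (ρ / r₀) * ∫ z in Metric.closedBall z₀ (3 * r₀), u z ^ 2 := by
    intro ρ h1 h2
    have hρ : 0 < ρ := by
      have : 0 < κ * h := by positivity
      linarith only [h1, this]
    have h5 : 5 * h ^ 2 ≤ m * ρ ^ 2 := by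
      calc 5 * h ^ 2 ≤ (m * κ ^ 2) * h ^ 2 := mul_le_mul_of_nonneg_right hκm (sq_nonneg h)
        _ = m * (κ * h) ^ 2 := by ring
        _ ≤ m * ρ ^ 2 := mul_le_mul_of_nonneg_left (pow_le_pow_left₀ (by positivity) h1 2) hm.le
    have key := MOR.main_ineq hVir (z₀ := z₀) (r := ρ) (r₀ := r₀) hA0 hA hu hg hρ h2 hr1 hh
      (hhr.trans hrr) h5 hm hgb heq
    have hcac := hCac u g z₀ h r₀ hu hh (hhr.trans hrr)
      (fun z hz => by
        obtain ⟨a1, a2, -, -⟩ := hgb z hz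
        rw [abs_of_nonneg (by linarith)]; exact a2) heq
    have c2 := (MOR.cd_d1 hu).continuous
    have c3 := (MOR.cd_d2 hu).continuous
    have cE : Continuous (fun z => h ^ 2 * (d1 u z ^ 2 + d2 u z ^ 2)) := by fun_prop
    have iE := ((cE.continuousOn (s := Metric.closedBall z₀ (2 * r₀))).integrableOn_compact
      (isCompact_closedBall z₀ (2 * r₀)) (μ := volume))
    rw [integral_add iE (iu (2 * r₀))] at key
    have hmon := mono (2 * r₀) (3 * r₀) (by linarith)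
    set M := ∫ z in Metric.closedBall z₀ (3 * r₀), u z ^ 2
    set S := ∫ z in Metric.closedBall z₀ ρ, u z ^ 2
    have hKG : 3 * A + A * G + G = K := by rw [hK, habs]
    rw [hKG] at key
    have k1 : m / (8 * ρ) * S ≤ K / r₀ * ((D + 1) * M) := by
      refine key.trans (mul_le_mul_of_nonneg_left ?_ (by positivity))
      linarith
    have k2 : S ≤ (8 * K * (D + 1) / m) * (ρ / r₀) * M := by
      have := mul_le_mul_of_nonneg_left k1 (show 0 ≤ 8 * ρ / m by positivity)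
      calc S = 8 * ρ / m * (m / (8 * ρ) * S) := by field_simp
        _ ≤ 8 * ρ / m * (K / r₀ * ((D + 1) * M)) := this
        _ = _ := by ring
    have k3 : 0 ≤ (ρ / r₀) * M := by (clear * - hρ hr0; positivity)
    calc S ≤ (8 * K * (D + 1) / m) * (ρ / r₀) * M := k2
      _ ≤ C₁ * (ρ / r₀) * M := by rw [hC1]; linarith only [k3]
  have hq : 0 ≤ r / r₀ := by positivity
  by_cases c1 : κ * h ≤ r
  · refine (big r c1 hrr).trans ?_
    apply mul_le_mul_of_nonneg_right _ hM0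
    apply mul_le_mul_of_nonneg_right _ hq
    nlinarith only [hκ1, hC1p]
  · push Not at c1
    by_cases c2 : κ * h ≤ r₀
    · refine (mono r (κ * h) c1.le).trans ((big (κ * h) le_rfl c2).trans ?_)
      apply mul_le_mul_of_nonneg_right _ hM0
      have : κ * h / r₀ ≤ κ * (r / r₀) := by
        rw [mul_div_assoc]
        apply mul_le_mul_of_nonneg_left _ (by positivity)
        exact div_le_div_of_nonneg_right hhr hr0.le
      calc C₁ * (κ * h / r₀) ≤ C₁ * (κ * (r / r₀)) := mul_le_mul_of_nonneg_left this (by positivity)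
        _ = κ * C₁ * (r / r₀) := by ring
    · push Not at c2
      refine (mono r (3 * r₀) (by linarith)).trans ?_
      have h1 : 1 ≤ κ * (r / r₀) := by
        rw [mul_div_assoc', le_div_iff₀ hr0, one_mul]
        have := mul_le_mul_of_nonneg_left hhr (show 0 ≤ κ by positivity)
        linarith
      have h2 : 1 ≤ κ * C₁ * (r / r₀) := by
        calc (1 : ℝ) = 1 * 1 := by ring
          _ ≤ (κ * (r / r₀)) * C₁ := mul_le_mul h1 hC1p zero_le_one (by positivity)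
          _ = _ := by ring
      calc ∫ z in Metric.closedBall z₀ (3 * r₀), u z ^ 2
          = 1 * ∫ z in Metric.closedBall z₀ (3 * r₀), u z ^ 2 := (one_mul _).symm
        _ ≤ _ := mul_le_mul_of_nonneg_right h2 hM0

end QJ


end

section

/-!
NID: the null form identity
-/

open Complex MeasureTheory Filter Topology Set
open scoped ContDiff

namespace QJ

open QE

noncomputable section

namespace NID

variable {σ : ℂ → ℝ}

lemma Dm (hσ : ContDiff ℝ ∞ σ) {k l m : ℤ} (h : k + l = m) {f g : ℂ → ℂ} (hf : ContDiff ℝ ∞ f)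
    (hg : ContDiff ℝ ∞ g) (z : ℂ) :
    D σ m (fun w => f w * g w) z = D σ k f z * g z + f z * D σ l g z := by
  subst h
  exact D_mul hσ k l (cd_at hf z) (cd_at hg z)

lemma Dbm (hσ : ContDiff ℝ ∞ σ) {k l m : ℤ} (h : k + l = m) {f g : ℂ → ℂ} (hf : ContDiff ℝ ∞ f)
    (hg : ContDiff ℝ ∞ g) (z : ℂ) :
    Db σ m (fun w => f w * g w) z = Db σ k f z * g z + f z * Db σ l g z := by
  subst h
  exact Db_mul hσ k l (cd_at hf z) (cd_at hg z)

lemma Da (hσ : ContDiff ℝ ∞ σ) (k : ℤ) {f g : ℂ → ℂ} (hf : ContDiff ℝ ∞ f)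
    (hg : ContDiff ℝ ∞ g) (z : ℂ) :
    D σ k (fun w => f w + g w) z = D σ k f z + D σ k g z := D_add hσ k (cd_at hf z) (cd_at hg z)

lemma Dba (hσ : ContDiff ℝ ∞ σ) (k : ℤ) {f g : ℂ → ℂ} (hf : ContDiff ℝ ∞ f)
    (hg : ContDiff ℝ ∞ g) (z : ℂ) :
    Db σ k (fun w => f w + g w) z = Db σ k f z + Db σ k g z :=
  Db_add hσ k (cd_at hf z) (cd_at hg z)

lemma Ds (hσ : ContDiff ℝ ∞ σ) (k : ℤ) {f g : ℂ → ℂ} (hf : ContDiff ℝ ∞ f)
    (hg : ContDiff ℝ ∞ g) (z : ℂ) :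
    D σ k (fun w => f w - g w) z = D σ k f z - D σ k g z := D_sub hσ k (cd_at hf z) (cd_at hg z)

lemma Dbs (hσ : ContDiff ℝ ∞ σ) (k : ℤ) {f g : ℂ → ℂ} (hf : ContDiff ℝ ∞ f)
    (hg : ContDiff ℝ ∞ g) (z : ℂ) :
    Db σ k (fun w => f w - g w) z = Db σ k f z - Db σ k g z :=
  Db_sub hσ k (cd_at hf z) (cd_at hg z)

/-- the potential of spin `-1` -/
def FD (σ : ℂ → ℝ) (N : ℤ) (x y x' y' ζ : ℂ → ℂ) (z : ℂ) : ℂ :=
  ζ z * (x z * Db σ (-N - 1) y' z - y z * Db σ (-N + 1) x' z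
      + (x' z * Db σ (N - 1) y z - y' z * Db σ (N + 1) x z))
    - Db σ 0 ζ z * (y z * x' z + y' z * x z) + D σ 0 ζ z * (2 * (y z * y' z))

/-- the potential of spin `1` -/
def FB (σ : ℂ → ℝ) (N : ℤ) (x y x' y' ζ : ℂ → ℂ) (z : ℂ) : ℂ :=
  ζ z * (y z * D σ (-N + 1) x' z - x z * D σ (-N - 1) y' z
      + (y' z * D σ (N + 1) x z - x' z * D σ (N - 1) y z))
    - D σ 0 ζ z * (y z * x' z + y' z * x z) + Db σ 0 ζ z * (2 * (x z * x' z))

variable {N : ℤ} {x y x' y' ζ : ℂ → ℂ}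

lemma D_FD (hσ : ContDiff ℝ ∞ σ) (hx : ContDiff ℝ ∞ x) (hy : ContDiff ℝ ∞ y)
    (hx' : ContDiff ℝ ∞ x') (hy' : ContDiff ℝ ∞ y') (hζ : ContDiff ℝ ∞ ζ) (z : ℂ) :
    D σ (-1) (FD σ N x y x' y' ζ) z =
      D σ 0 ζ z * (x z * Db σ (-N - 1) y' z - y z * Db σ (-N + 1) x' z
        + (x' z * Db σ (N - 1) y z - y' z * Db σ (N + 1) x z))
      + ζ z * (D σ (N + 1) x z * Db σ (-N - 1) y' z + x z * D σ (-N - 1 - 1) (Db σ (-N - 1) y') z
        - (D σ (N - 1) y z * Db σ (-N + 1) x' z + y z * D σ (-N + 1 - 1) (Db σ (-N + 1) x') z)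
        + (D σ (-N + 1) x' z * Db σ (N - 1) y z + x' z * D σ (N - 1 - 1) (Db σ (N - 1) y) z
        - (D σ (-N - 1) y' z * Db σ (N + 1) x z + y' z * D σ (N + 1 - 1) (Db σ (N + 1) x) z)))
      - (D σ (0 - 1) (Db σ 0 ζ) z * (y z * x' z + y' z * x z) + Db σ 0 ζ z *
        (D σ (N - 1) y z * x' z + y z * D σ (-N + 1) x' z
          + (D σ (-N - 1) y' z * x z + y' z * D σ (N + 1) x z)))
      + (D σ 1 (D σ 0 ζ) z * (2 * (y z * y' z)) + D σ 0 ζ z *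
        (2 * (D σ (N - 1) y z * y' z + y z * D σ (-N - 1) y' z))) := by
  have c1 := contDiff_Db hσ (-N - 1) hy'
  have c2 := contDiff_Db hσ (-N + 1) hx'
  have c3 := contDiff_Db hσ (N - 1) hy
  have c4 := contDiff_Db hσ (N + 1) hx
  have c5 := contDiff_Db hσ 0 hζ
  have c6 := contDiff_D hσ 0 hζ
  have d1 := hx.mul c1
  have d2 := hy.mul c2
  have d3 := hx'.mul c3
  have d4 := hy'.mul c4
  have d5 := (d1.sub d2).add (d3.sub d4)
  have d6 := (hy.mul hx').add (hy'.mul hx)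
  have d7 := hy.mul hy'
  have d8 : ContDiff ℝ ∞ fun z => 2 * (y z * y' z) := contDiff_const.mul d7
  unfold FD
  rw [Da hσ (-1) ((hζ.mul d5).sub (c5.mul d6)) (c6.mul d8),
    Ds hσ (-1) (hζ.mul d5) (c5.mul d6),
    Dm hσ (show (0 : ℤ) + -1 = -1 by ring) hζ d5,
    Dm hσ (show (0 - 1 : ℤ) + 0 = -1 by ring) c5 d6,
    Dm hσ (show (1 : ℤ) + -2 = -1 by ring) c6 d8,
    Da hσ (-1) (d1.sub d2) (d3.sub d4), Ds hσ (-1) d1 d2, Ds hσ (-1) d3 d4,
    Dm hσ (show (N + 1) + (-N - 1 - 1) = -1 by ring) hx c1,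
    Dm hσ (show (N - 1) + (-N + 1 - 1) = -1 by ring) hy c2,
    Dm hσ (show (-N + 1) + (N - 1 - 1) = -1 by ring) hx' c3,
    Dm hσ (show (-N - 1) + (N + 1 - 1) = -1 by ring) hy' c4,
    Da hσ 0 (hy.mul hx') (hy'.mul hx),
    Dm hσ (show (N - 1) + (-N + 1) = 0 by ring) hy hx',
    Dm hσ (show (-N - 1) + (N + 1) = 0 by ring) hy' hx,
    D_const_mul hσ (-2) 2 (cd_at d7 z),
    Dm hσ (show (N - 1) + (-N - 1) = -2 by ring) hy hy']

lemma Db_FB (hσ : ContDiff ℝ ∞ σ) (hx : ContDiff ℝ ∞ x) (hy : ContDiff ℝ ∞ y)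
    (hx' : ContDiff ℝ ∞ x') (hy' : ContDiff ℝ ∞ y') (hζ : ContDiff ℝ ∞ ζ) (z : ℂ) :
    Db σ 1 (FB σ N x y x' y' ζ) z =
      Db σ 0 ζ z * (y z * D σ (-N + 1) x' z - x z * D σ (-N - 1) y' z
        + (y' z * D σ (N + 1) x z - x' z * D σ (N - 1) y z))
      + ζ z * (Db σ (N - 1) y z * D σ (-N + 1) x' z + y z * Db σ (-N + 1 + 1) (D σ (-N + 1) x') z
        - (Db σ (N + 1) x z * D σ (-N - 1) y' z + x z * Db σ (-N - 1 + 1) (D σ (-N - 1) y') z)
        + (Db σ (-N - 1) y' z * D σ (N + 1) x z + y' z * Db σ (N + 1 + 1) (D σ (N + 1) x) z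
        - (Db σ (-N + 1) x' z * D σ (N - 1) y z + x' z * Db σ (N - 1 + 1) (D σ (N - 1) y) z)))
      - (Db σ 1 (D σ 0 ζ) z * (y z * x' z + y' z * x z) + D σ 0 ζ z *
        (Db σ (N - 1) y z * x' z + y z * Db σ (-N + 1) x' z
          + (Db σ (-N - 1) y' z * x z + y' z * Db σ (N + 1) x z)))
      + (Db σ (-1) (Db σ 0 ζ) z * (2 * (x z * x' z)) + Db σ 0 ζ z *
        (2 * (Db σ (N + 1) x z * x' z + x z * Db σ (-N + 1) x' z))) := by
  have c1 := contDiff_D hσ (-N - 1) hy'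
  have c2 := contDiff_D hσ (-N + 1) hx'
  have c3 := contDiff_D hσ (N - 1) hy
  have c4 := contDiff_D hσ (N + 1) hx
  have c5 := contDiff_Db hσ 0 hζ
  have c6 := contDiff_D hσ 0 hζ
  have d1 := hx.mul c1
  have d2 := hy.mul c2
  have d3 := hx'.mul c3
  have d4 := hy'.mul c4
  have d5 := (d2.sub d1).add (d4.sub d3)
  have d6 := (hy.mul hx').add (hy'.mul hx)
  have d7 := hx.mul hx'
  have d8 : ContDiff ℝ ∞ fun z => 2 * (x z * x' z) := contDiff_const.mul d7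
  unfold FB
  rw [Dba hσ 1 ((hζ.mul d5).sub (c6.mul d6)) (c5.mul d8),
    Dbs hσ 1 (hζ.mul d5) (c6.mul d6),
    Dbm hσ (show (0 : ℤ) + 1 = 1 by ring) hζ d5,
    Dbm hσ (show (1 : ℤ) + 0 = 1 by ring) c6 d6,
    Dbm hσ (show (-1 : ℤ) + 2 = 1 by ring) c5 d8,
    Dba hσ 1 (d2.sub d1) (d4.sub d3), Dbs hσ 1 d2 d1, Dbs hσ 1 d4 d3,
    Dbm hσ (show (N + 1) + (-N - 1 + 1) = 1 by ring) hx c1,
    Dbm hσ (show (N - 1) + (-N + 1 + 1) = 1 by ring) hy c2,
    Dbm hσ (show (-N + 1) + (N - 1 + 1) = 1 by ring) hx' c3,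
    Dbm hσ (show (-N - 1) + (N + 1 + 1) = 1 by ring) hy' c4,
    Dba hσ 0 (hy.mul hx') (hy'.mul hx),
    Dbm hσ (show (N - 1) + (-N + 1) = 0 by ring) hy hx',
    Dbm hσ (show (-N - 1) + (N + 1) = 0 by ring) hy' hx,
    Db_const_mul hσ 2 2 (cd_at d7 z),
    Dbm hσ (show (N + 1) + (-N + 1) = 2 by ring) hx hx']

lemma test_zero {V : Set ℂ} {ζ : ℂ → ℂ} (hζ : Test V ζ) {z : ℂ} (hz : z ∉ V) : ζ z = 0 := by
  by_contra h
  exact hz (hζ.sub (subset_tsupport ζ h))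

/-- the pointwise identity -/
lemma point {V : Set ℂ} (hσ : ContDiff ℝ ∞ σ) (hx : ContDiff ℝ ∞ x) (hy : ContDiff ℝ ∞ y)
    (hx' : ContDiff ℝ ∞ x') (hy' : ContDiff ℝ ∞ y') (hζ : Test V ζ)
    (h1 : ∀ z ∈ V, Db σ (N + 1) x z = D σ (N - 1) y z)
    (h2 : ∀ z ∈ V, Db σ (-N + 1) x' z = D σ (-N - 1) y' z) (z : ℂ) :
    ζ z * (D σ (N + 1) x z * Db σ (-N - 1) y' z
        + Db σ (N - 1) y z * D σ (-N + 1) x' z
        - Db σ (N + 1) x z * D σ (-N - 1) y' z - D σ (N - 1) y z * Db σ (-N + 1) x' z) =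
      (Db σ 1 (D σ 0 ζ) z * (x z * y' z + x' z * y z)
          - D σ 1 (D σ 0 ζ) z * (y z * y' z) - Db σ (-1) (Db σ 0 ζ) z * (x z * x' z)
          + 2 * ζ z * curv σ z * ((N - 1) * (x' z * y z) - (N + 1) * (x z * y' z))) +
      (1 / 2) * (D σ (-1) (FD σ N x y x' y' ζ) z + Db σ 1 (FB σ N x y x' y' ζ) z) := by
  rw [D_FD hσ hx hy hx' hy' hζ.smooth z, Db_FB hσ hx hy hx' hy' hζ.smooth z,
    comm hσ (-N + 1) hx' z, comm hσ (-N - 1) hy' z, comm hσ (N + 1) hx z, comm hσ (N - 1) hy z]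
  have k0 := comm hσ 0 hζ.smooth z
  rw [zero_add] at k0
  by_cases hz : z ∈ V
  · rw [h1 z hz, h2 z hz, k0]
    push_cast
    ring
  · have a1 := test_zero hζ hz
    have a2 := test_zero (test_D hσ 0 hζ) hz
    have a3 := test_zero (test_Db hσ 0 hζ) hz
    have a4 := test_zero (test_D hσ 1 (test_D hσ 0 hζ)) hz
    have a5 := test_zero (test_Db hσ 1 (test_D hσ 0 hζ)) hz
    have a6 := test_zero (test_Db hσ (-1) (test_Db hσ 0 hζ)) hz
    have a7 := test_zero (test_D hσ (0 - 1) (test_Db hσ 0 hζ)) hz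
    rw [a1, a2, a3, a4, a5, a6, a7]
    ring

end NID

theorem stmtNid : StmtNid := by
  intro V σ N x y x' y' ζ _ hσ hx hy hx' hy' hζ h1 h2
  have hp := NID.point hσ hx hy hx' hy' hζ h1 h2
  have c1 := contDiff_D hσ (-N - 1) hy'
  have c2 := contDiff_D hσ (-N + 1) hx'
  have c3 := contDiff_D hσ (N - 1) hy
  have c4 := contDiff_D hσ (N + 1) hx
  have b1 := contDiff_Db hσ (-N - 1) hy'
  have b2 := contDiff_Db hσ (-N + 1) hx'
  have b3 := contDiff_Db hσ (N - 1) hy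
  have b4 := contDiff_Db hσ (N + 1) hx
  have tD := test_D hσ 0 hζ
  have tB := test_Db hσ 0 hζ
  have sFD : ContDiff ℝ ∞ (NID.FD σ N x y x' y' ζ) :=
    ((hζ.smooth.mul (((hx.mul b1).sub (hy.mul b2)).add ((hx'.mul b3).sub (hy'.mul b4)))).sub
      (tB.smooth.mul ((hy.mul hx').add (hy'.mul hx)))).add
      (tD.smooth.mul (contDiff_const.mul (hy.mul hy')))
  have sFB : ContDiff ℝ ∞ (NID.FB σ N x y x' y' ζ) :=
    ((hζ.smooth.mul (((hy.mul c2).sub (hx.mul c1)).add ((hy'.mul c4).sub (hx'.mul c3)))).sub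
      (tD.smooth.mul ((hy.mul hx').add (hy'.mul hx)))).add
      (tB.smooth.mul (contDiff_const.mul (hx.mul hx')))
  have kFD : HasCompactSupport (NID.FD σ N x y x' y' ζ) :=
    (hζ.supp.mul_right.sub tB.supp.mul_right).add tD.supp.mul_right
  have kFB : HasCompactSupport (NID.FB σ N x y x' y' ζ) :=
    (hζ.supp.mul_right.sub tD.supp.mul_right).add tB.supp.mul_right
  have z1 := int_D hσ sFD kFD
  have z2 := int_Db hσ sFB kFB
  have tFD : Test Set.univ (NID.FD σ N x y x' y' ζ) := ⟨sFD, kFD, Set.subset_univ _⟩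
  have tFB : Test Set.univ (NID.FB σ N x y x' y' ζ) := ⟨sFB, kFB, Set.subset_univ _⟩
  have sG := (((c4.mul b1).add (b3.mul c2)).sub (b4.mul c1)).sub (c3.mul b2)
  have i1 := test_int hζ ((contDiff_ex hσ 2).mul sG).continuous
  have i2 := test_int (test_D hσ (-1) tFD) (contDiff_ex hσ 2).continuous
  have i3 := test_int (test_Db hσ 1 tFB) (contDiff_ex hσ 2).continuous
  have z1' : ∫ z, D σ (-1) (NID.FD σ N x y x' y' ζ) z * ex σ 2 z = 0 := by
    rw [← z1]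
    exact integral_congr_ae (Filter.Eventually.of_forall fun z => mul_comm _ _)
  have z2' : ∫ z, Db σ 1 (NID.FB σ N x y x' y' ζ) z * ex σ 2 z = 0 := by
    rw [← z2]
    exact integral_congr_ae (Filter.Eventually.of_forall fun z => mul_comm _ _)
  have e1 : ∀ z, ex σ 2 z * (Db σ 1 (D σ 0 ζ) z * (x z * y' z + x' z * y z)
          - D σ 1 (D σ 0 ζ) z * (y z * y' z) - Db σ (-1) (Db σ 0 ζ) z * (x z * x' z)
          + 2 * ζ z * curv σ z * ((N - 1) * (x' z * y z) - (N + 1) * (x z * y' z))) =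
      ex σ 2 z * (ζ z * (D σ (N + 1) x z * Db σ (-N - 1) y' z
        + Db σ (N - 1) y z * D σ (-N + 1) x' z
        - Db σ (N + 1) x z * D σ (-N - 1) y' z - D σ (N - 1) y z * Db σ (-N + 1) x' z)) -
      (1 / 2) * (D σ (-1) (NID.FD σ N x y x' y' ζ) z * ex σ 2 z +
        Db σ 1 (NID.FB σ N x y x' y' ζ) z * ex σ 2 z) := by
    intro z
    rw [hp z]
    ring
  have i1' : Integrable fun z => ex σ 2 z * (ζ z * (D σ (N + 1) x z * Db σ (-N - 1) y' z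
        + Db σ (N - 1) y z * D σ (-N + 1) x' z
        - Db σ (N + 1) x z * D σ (-N - 1) y' z - D σ (N - 1) y z * Db σ (-N + 1) x' z)) := by
    refine i1.congr (Filter.Eventually.of_forall fun z => ?_)
    simp only []
    ring
  have i4 : Integrable fun z => (1 / 2 : ℂ) * (D σ (-1) (NID.FD σ N x y x' y' ζ) z * ex σ 2 z +
        Db σ 1 (NID.FB σ N x y x' y' ζ) z * ex σ 2 z) := (i2.add i3).const_mul _
  simp only [e1]
  rw [integral_sub i1' i4, integral_const_mul, integral_add i2 i3, z1', z2', add_zero, mul_zero,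
    sub_zero]

end

end QJ


end

section

/-!
PTW: the jets are bounded by the local `L²` norm of `φ` at scale `h`.
-/

open Complex MeasureTheory Filter Topology Set
open scoped ContDiff

namespace U3

open QJ QE QE.EllAux

noncomputable section

namespace PTW

/-- the local `L²` norm at scale `h` -/
def SS (h : ℕ → ℝ) (φ : ℕ → ℂ → ℂ) (c : ℝ) (n : ℕ) (z : ℂ) : ℝ :=
  1 / h n ^ 2 * ∫ w in Metric.closedBall z (c * h n), ‖φ n w‖ ^ 2

/-- pointwise bounds by the local `L²` norm at scale `h` -/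
def PB (V : Set ℂ) (h : ℕ → ℝ) (φ : ℕ → ℂ → ℂ) (u : ℕ → ℂ → ℂ) : Prop :=
  ∀ K, IsCompact K → K ⊆ V → ∃ c C : ℝ, 0 < c ∧ 0 ≤ C ∧
    ∀ᶠ n in atTop, ∀ z ∈ K, ‖u n z‖ ≤ C * √(SS h φ c n z)

/-- the same for all the rescaled derivatives of order at most `k` -/
def PK (V : Set ℂ) (h : ℕ → ℝ) (φ : ℕ → ℂ → ℂ) : ℕ → (ℕ → ℂ → ℂ) → Prop
  | 0, u => PB V h φ u
  | k + 1, u => PB V h φ u ∧ PK V h φ k (fun n z => (h n : ℂ) * dz (u n) z)
      ∧ PK V h φ k (fun n z => (h n : ℂ) * dzb (u n) z)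

variable {V : Set ℂ} {h : ℕ → ℝ} {φ : ℕ → ℂ → ℂ}

lemma SS_nonneg (c : ℝ) (n : ℕ) (z : ℂ) : 0 ≤ SS h φ c n z := by
  unfold SS
  exact mul_nonneg (by positivity) (integral_nonneg fun w => by positivity)

lemma SS_le {n : ℕ} (hφ : Continuous (φ n)) {c c' : ℝ} {z z' : ℂ}
    (hs : Metric.closedBall z (c * h n) ⊆ Metric.closedBall z' (c' * h n)) :
    SS h φ c n z ≤ SS h φ c' n z' := by
  unfold SS
  refine mul_le_mul_of_nonneg_left ?_ (by positivity)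
  refine setIntegral_mono_set ?_ (Filter.Eventually.of_forall fun w => ?_) hs.eventuallyLE
  · exact (hφ.norm.pow 2).continuousOn.integrableOn_compact (isCompact_closedBall _ _)
  · show 0 ≤ ‖φ n w‖ ^ 2
    positivity

lemma SS_mono {n : ℕ} (hh : 0 < h n) (hφ : Continuous (φ n)) {c c' : ℝ} (hc : c ≤ c') (z : ℂ) :
    SS h φ c n z ≤ SS h φ c' n z :=
  SS_le hφ (Metric.closedBall_subset_closedBall (by gcongr))

lemma SS_shift {n : ℕ} (hφ : Continuous (φ n)) (c : ℝ) {z z' : ℂ}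
    (hz : dist z z' ≤ h n) : SS h φ c n z ≤ SS h φ (c + 1) n z' := by
  refine SS_le hφ fun w hw => ?_
  rw [Metric.mem_closedBall] at hw ⊢
  calc dist w z' ≤ dist w z + dist z z' := dist_triangle _ _ _
    _ ≤ c * h n + h n := add_le_add hw hz
    _ = _ := by ring

lemma PB.congr {u v : ℕ → ℂ → ℂ} (hu : PB V h φ u) (he : ∀ n, ∀ z ∈ V, u n z = v n z) :
    PB V h φ v := by
  intro K hK hKV
  obtain ⟨c, C, hc, hC, h1⟩ := hu K hK hKV
  refine ⟨c, C, hc, hC, ?_⟩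
  filter_upwards [h1] with n hn z hz
  rw [← he n z (hKV hz)]
  exact hn z hz

lemma PB.add (hh : ∀ n, 0 < h n) (hφ : ∀ n, Continuous (φ n)) {u v : ℕ → ℂ → ℂ}
    (hu : PB V h φ u) (hv : PB V h φ v) : PB V h φ (fun n z => u n z + v n z) := by
  intro K hK hKV
  obtain ⟨c, C, hc, hC, h1⟩ := hu K hK hKV
  obtain ⟨c', C', hc', hC', h2⟩ := hv K hK hKV
  refine ⟨max c c', C + C', lt_max_of_lt_left hc, add_nonneg hC hC', ?_⟩
  filter_upwards [h1, h2] with n hn hn' z hz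
  have e1 := Real.sqrt_le_sqrt (SS_mono (hh n) (hφ n) (le_max_left c c') z)
  have e2 := Real.sqrt_le_sqrt (SS_mono (hh n) (hφ n) (le_max_right c c') z)
  calc ‖u n z + v n z‖ ≤ ‖u n z‖ + ‖v n z‖ := norm_add_le _ _
    _ ≤ C * √(SS h φ c n z) + C' * √(SS h φ c' n z) := add_le_add (hn z hz) (hn' z hz)
    _ ≤ C * √(SS h φ (max c c') n z) + C' * √(SS h φ (max c c') n z) := by gcongr
    _ = _ := by ring

lemma PB.const_mul {u : ℕ → ℂ → ℂ} (hu : PB V h φ u) {c : ℕ → ℂ} {B : ℝ}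
    (hc : ∀ᶠ n in atTop, ‖c n‖ ≤ B) : PB V h φ (fun n z => c n * u n z) := by
  intro K hK hKV
  obtain ⟨c', C, hc', hC, h1⟩ := hu K hK hKV
  refine ⟨c', max B 0 * C, hc', mul_nonneg (le_max_right _ _) hC, ?_⟩
  filter_upwards [h1, hc] with n hn hcn z hz
  rw [norm_mul, mul_assoc]
  exact mul_le_mul (hcn.trans (le_max_left _ _)) (hn z hz) (norm_nonneg _) (le_max_right _ _)

lemma PB.fn_mul {u : ℕ → ℂ → ℂ} (hu : PB V h φ u) {b : ℂ → ℂ} (hb : ContinuousOn b V) :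
    PB V h φ (fun n z => b z * u n z) := by
  intro K hK hKV
  obtain ⟨c', C, hc', hC, h1⟩ := hu K hK hKV
  obtain ⟨B, hB⟩ := hK.exists_bound_of_continuousOn (hb.mono hKV)
  refine ⟨c', max B 0 * C, hc', mul_nonneg (le_max_right _ _) hC, ?_⟩
  filter_upwards [h1] with n hn z hz
  rw [norm_mul, mul_assoc]
  exact mul_le_mul ((hB z hz).trans (le_max_left _ _)) (hn z hz) (norm_nonneg _) (le_max_right _ _)

lemma PB.conj {u : ℕ → ℂ → ℂ} (hu : PB V h φ u) :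
    PB V h φ (fun n z => (starRingEnd ℂ) (u n z)) := by
  intro K hK hKV
  obtain ⟨c, C, hc, hC, h1⟩ := hu K hK hKV
  refine ⟨c, C, hc, hC, ?_⟩
  filter_upwards [h1] with n hn z hz
  rw [RCLike.norm_conj]
  exact hn z hz

/-- the interior estimate at scale `h` -/
lemma PB.ell (hV : IsOpen V) (hh : ∀ n, 0 < h n) (hh0 : Tendsto h atTop (𝓝 0))
    (hφ : ∀ n, Continuous (φ n)) {v : ℕ → ℂ → ℂ} (hv : SmoothSeq V v) (h1 : PB V h φ v)
    (h2 : PB V h φ (hLap h v)) : PB V h φ (fun n z => (h n : ℂ) * dz (v n) z) := by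
  intro K hK hKV
  obtain ⟨δ, hδ, hδV⟩ := hK.exists_cthickening_subset_open hV hKV
  obtain ⟨c1, C1, hc1, hC1, e1⟩ := h1 _ hK.cthickening hδV
  obtain ⟨c2, C2, hc2, hC2, e2⟩ := h2 _ hK.cthickening hδV
  have hκ : 0 ≤ ∫ u, kap u := integral_nonneg kap_nonneg
  refine ⟨max c1 c2 + 1, (∫ u, kap u) * (C1 + C2), by positivity, by (clear * - hκ hC1 hC2; positivity), ?_⟩
  have hsmall : ∀ᶠ n in atTop, h n ≤ δ := (hh0.eventually_lt_const hδ).mono fun n hn => hn.le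
  filter_upwards [e1, e2, hsmall] with n hn1 hn2 hn3 z hz
  have hsub : ∀ w, dist w z ≤ h n → w ∈ Metric.cthickening δ K := fun w hw =>
    Metric.mem_cthickening_of_dist_le w z δ K hz (hw.trans hn3)
  have hb := scale_bound hV (hv n) (hh n) (z := z) fun w hw =>
    hδV (hsub w (Metric.mem_closedBall.1 hw))
  refine hb.trans ?_
  have hkey : ∀ w : ℂ, kap w * (‖v n (z + (h n : ℂ) * w)‖
      + ‖(h n : ℂ) ^ 2 * dz (dzb (v n)) (z + (h n : ℂ) * w)‖)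
      ≤ kap w * ((C1 + C2) * √(SS h φ (max c1 c2 + 1) n z)) := by
    intro w
    by_cases hw : 1 < ‖w‖
    · rw [kap_eq_zero hw, zero_mul, zero_mul]
    · refine mul_le_mul_of_nonneg_left ?_ (kap_nonneg w)
      rw [not_lt] at hw
      have hd : dist (z + (h n : ℂ) * w) z ≤ h n := by
        rw [dist_eq_norm, add_sub_cancel_left, norm_mul, Complex.norm_real,
          Real.norm_of_nonneg (hh n).le]
        calc h n * ‖w‖ ≤ h n * 1 := mul_le_mul_of_nonneg_left hw (hh n).le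
          _ = h n := mul_one _
      have a1 := hn1 _ (hsub _ hd)
      have a2 := hn2 _ (hsub _ hd)
      have b1 : √(SS h φ c1 n (z + (h n : ℂ) * w)) ≤ √(SS h φ (max c1 c2 + 1) n z) :=
        Real.sqrt_le_sqrt ((SS_mono (hh n) (hφ n) (le_max_left c1 c2) _).trans
          (SS_shift (hφ n) _ hd))
      have b2 : √(SS h φ c2 n (z + (h n : ℂ) * w)) ≤ √(SS h φ (max c1 c2 + 1) n z) :=
        Real.sqrt_le_sqrt ((SS_mono (hh n) (hφ n) (le_max_right c1 c2) _).trans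
          (SS_shift (hφ n) _ hd))
      calc ‖v n (z + (h n : ℂ) * w)‖ + ‖(h n : ℂ) ^ 2 * dz (dzb (v n)) (z + (h n : ℂ) * w)‖
          ≤ C1 * √(SS h φ c1 n (z + (h n : ℂ) * w)) + C2 * √(SS h φ c2 n (z + (h n : ℂ) * w)) :=
            add_le_add a1 a2
        _ ≤ C1 * √(SS h φ (max c1 c2 + 1) n z) + C2 * √(SS h φ (max c1 c2 + 1) n z) := by
            (clear * - b1 hC1 b2 hC2; gcongr)
        _ = _ := by ring
  calc ∫ u, kap u * (‖v n (z + (h n : ℂ) * u)‖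
        + ‖(h n : ℂ) ^ 2 * dz (dzb (v n)) (z + (h n : ℂ) * u)‖)
      ≤ ∫ u, kap u * ((C1 + C2) * √(SS h φ (max c1 c2 + 1) n z)) :=
        integral_mono_of_nonneg
          (Filter.Eventually.of_forall fun w => mul_nonneg (kap_nonneg w) (by positivity))
          (kap_integrable.mul_const _) (Filter.Eventually.of_forall hkey)
    _ = _ := by rw [integral_mul_const]; ring

lemma PB.ellb (hV : IsOpen V) (hh : ∀ n, 0 < h n) (hh0 : Tendsto h atTop (𝓝 0))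
    (hφ : ∀ n, Continuous (φ n)) {v : ℕ → ℂ → ℂ} (hv : SmoothSeq V v) (h1 : PB V h φ v)
    (h2 : PB V h φ (hLap h v)) : PB V h φ (fun n z => (h n : ℂ) * dzb (v n) z) := by
  have h3 : PB V h φ (hLap h (fun n z => (starRingEnd ℂ) (v n z))) := by
    refine h2.conj.congr fun n z hz => ?_
    unfold hLap
    rw [dz_congr_on hV (f := dzb fun w => (starRingEnd ℂ) (v n w))
      (g := fun w => (starRingEnd ℂ) (dz (v n) w)) (fun w hw => dzb_conj (hv.dAt hV n hw)) hz,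
      dz_conj ((SmoothSeq.dz hV hv).dAt hV n hz), map_mul, map_pow, conj_ofReal,
      dz_dzb_comm (((hv n).contDiffAt (hV.mem_nhds hz)).of_le (WithTop.coe_le_coe.2 le_top))]
  have h4 := (PB.ell hV hh hh0 hφ hv.conj h1.conj h3).conj
  refine h4.congr fun n z hz => ?_
  rw [dz_conj (hv.dAt hV n hz)]; simp

lemma PK.congr (hV : IsOpen V) {k : ℕ} : ∀ {u v : ℕ → ℂ → ℂ}, PK V h φ k u →
    (∀ n, ∀ z ∈ V, u n z = v n z) → PK V h φ k v := by
  induction k with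
  | zero => intro u v hu he; exact PB.congr hu he
  | succ k ih =>
    intro u v hu he
    refine ⟨hu.1.congr he, ih hu.2.1 fun n z hz => ?_, ih hu.2.2 fun n z hz => ?_⟩
    · rw [dz_congr_on hV (he n) hz]
    · rw [dzb_congr_on hV (he n) hz]

lemma PK.pb {k : ℕ} {u : ℕ → ℂ → ℂ} (hu : PK V h φ k u) : PB V h φ u := by
  cases k with
  | zero => exact hu
  | succ k => exact hu.1

lemma PK.mono {k : ℕ} : ∀ {u : ℕ → ℂ → ℂ}, PK V h φ (k + 1) u → PK V h φ k u := by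
  induction k with
  | zero => intro u hu; exact hu.1
  | succ k ih => intro u hu; exact ⟨hu.1, ih hu.2.1, ih hu.2.2⟩

lemma PK.add (hV : IsOpen V) (hh : ∀ n, 0 < h n) (hφ : ∀ n, Continuous (φ n)) {k : ℕ} :
    ∀ {u v : ℕ → ℂ → ℂ}, PK V h φ k u → SmoothSeq V u →
    PK V h φ k v → SmoothSeq V v → PK V h φ k (fun n z => u n z + v n z) := by
  induction k with
  | zero => intro u v hu su hv sv; exact PB.add hh hφ hu hv
  | succ k ih =>
    intro u v hu su hv sv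
    refine ⟨hu.1.add hh hφ hv.1, ?_, ?_⟩
    · refine (ih hu.2.1 (su.hdz hV) hv.2.1 (sv.hdz hV)).congr hV fun n z hz => ?_
      rw [dz_add (su.dAt hV n hz) (sv.dAt hV n hz)]; ring
    · refine (ih hu.2.2 (su.hdzb hV) hv.2.2 (sv.hdzb hV)).congr hV fun n z hz => ?_
      rw [dzb_add (su.dAt hV n hz) (sv.dAt hV n hz)]; ring

lemma PK.const_mul (hV : IsOpen V) {c : ℕ → ℂ} {B : ℝ} (hc : ∀ᶠ n in atTop, ‖c n‖ ≤ B)
    {k : ℕ} : ∀ {u : ℕ → ℂ → ℂ}, PK V h φ k u → SmoothSeq V u →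
    PK V h φ k (fun n z => c n * u n z) := by
  induction k with
  | zero => intro u hu su; exact PB.const_mul hu hc
  | succ k ih =>
    intro u hu su
    refine ⟨hu.1.const_mul hc, ?_, ?_⟩
    · refine (ih hu.2.1 (su.hdz hV)).congr hV fun n z hz => ?_
      rw [dz_const_mul _ (su.dAt hV n hz)]; ring
    · refine (ih hu.2.2 (su.hdzb hV)).congr hV fun n z hz => ?_
      rw [dzb_const_mul _ (su.dAt hV n hz)]; ring

lemma PK.fn_mul (hV : IsOpen V) (hh : ∀ n, 0 < h n) (hh0 : Tendsto h atTop (𝓝 0))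
    (hφ : ∀ n, Continuous (φ n)) {k : ℕ} :
    ∀ {u : ℕ → ℂ → ℂ} {b : ℂ → ℂ}, PK V h φ k u → SmoothSeq V u →
    ContDiffOn ℝ ∞ b V → PK V h φ k (fun n z => b z * u n z) := by
  induction k with
  | zero => intro u b hu su hb; exact PB.fn_mul hu hb.continuousOn
  | succ k ih =>
    intro u b hu su hb
    have hbz := contDiffOn_dz hV hb
    have hbzb := contDiffOn_dzb hV hb
    have hbd' : ∀ z ∈ V, DifferentiableAt ℝ b z := fun z hz =>
      (hb.contDiffAt (hV.mem_nhds hz)).differentiableAt (by simp)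
    refine ⟨hu.1.fn_mul hb.continuousOn, ?_, ?_⟩
    · have t1 := ih hu.2.1 (su.hdz hV) hb
      have t2 := (ih hu.mono su hbz).const_mul hV (hbd hh0) (su.fn_mul hbz)
      refine (t1.add hV hh hφ ((su.hdz hV).fn_mul hb) t2 ((su.fn_mul hbz).const_mul _)).congr hV
        fun n z hz => ?_
      rw [dz_mul (hbd' z hz) (su.dAt hV n hz)]; ring
    · have t1 := ih hu.2.2 (su.hdzb hV) hb
      have t2 := (ih hu.mono su hbzb).const_mul hV (hbd hh0) (su.fn_mul hbzb)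
      refine (t1.add hV hh hφ ((su.hdzb hV).fn_mul hb) t2 ((su.fn_mul hbzb).const_mul _)).congr hV
        fun n z hz => ?_
      rw [dzb_mul (hbd' z hz) (su.dAt hV n hz)]; ring

lemma PK.step (hV : IsOpen V) (hh : ∀ n, 0 < h n) (hh0 : Tendsto h atTop (𝓝 0))
    (hφ : ∀ n, Continuous (φ n)) {k : ℕ} :
    ∀ {v : ℕ → ℂ → ℂ}, SmoothSeq V v → PK V h φ k v → PK V h φ k (hLap h v) →
      PK V h φ (k + 1) v := by
  have hc : ∀ (v : ℕ → ℂ → ℂ), SmoothSeq V v → ∀ n, ∀ z ∈ V, dz (dzb (v n)) z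
      = dzb (dz (v n)) z := fun v hv n z hz =>
    dz_dzb_comm (((hv n).contDiffAt (hV.mem_nhds hz)).of_le (WithTop.coe_le_coe.2 le_top))
  induction k with
  | zero =>
    intro v hv h1 h2
    exact ⟨h1, PB.ell hV hh hh0 hφ hv h1 h2, PB.ellb hV hh hh0 hφ hv h1 h2⟩
  | succ k ih =>
    intro v hv h1 h2
    refine ⟨h1.1, ih (hv.hdz hV) h1.2.1 ?_, ih (hv.hdzb hV) h1.2.2 ?_⟩
    · refine h2.2.1.congr hV fun n z hz => ?_
      have e1 : ∀ w ∈ V, dzb (fun w => (h n : ℂ) * dz (v n) w) w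
          = (h n : ℂ) * dz (dzb (v n)) w := by
        intro w hw
        rw [dzb_const_mul _ ((SmoothSeq.dz hV hv).dAt hV n hw), hc v hv n w hw]
      unfold hLap
      rw [dz_congr_on hV e1 hz, dz_const_mul _ ((SmoothSeq.dz hV (SmoothSeq.dzb hV hv)).dAt hV n hz),
        dz_const_mul _ ((SmoothSeq.dz hV (SmoothSeq.dzb hV hv)).dAt hV n hz)]
      ring
    · refine h2.2.2.congr hV fun n z hz => ?_
      have e1 : ∀ w ∈ V, dzb (fun w => (h n : ℂ) * dzb (v n) w) w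
          = (h n : ℂ) * dzb (dzb (v n)) w := by
        intro w hw
        rw [dzb_const_mul _ ((SmoothSeq.dzb hV hv).dAt hV n hw)]
      have e2 := hc (fun n => dzb (v n)) (SmoothSeq.dzb hV hv) n
      unfold hLap
      rw [dz_congr_on hV e1 hz,
        dz_const_mul _ ((SmoothSeq.dzb hV (SmoothSeq.dzb hV hv)).dAt hV n hz), e2 z hz,
        dzb_const_mul _ ((SmoothSeq.dz hV (SmoothSeq.dzb hV hv)).dAt hV n hz)]
      ring

/-- all the rescaled derivatives of a solution -/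
lemma PK.all (hV : IsOpen V) (hh : ∀ n, 0 < h n) (hh0 : Tendsto h atTop (𝓝 0))
    (hφ : ∀ n, Continuous (φ n)) {v : ℕ → ℂ → ℂ} (hv : SmoothSeq V v) (h1 : PB V h φ v)
    {b : ℂ → ℂ} (hb : ContDiffOn ℝ ∞ b V) (he : ∀ n, ∀ z ∈ V, hLap h v n z = b z * v n z)
    (k : ℕ) : PK V h φ k v := by
  induction k with
  | zero => exact h1
  | succ k ih =>
    exact PK.step hV hh hh0 hφ hv ih ((ih.fn_mul hV hh hh0 hφ hv hb).congr hV
      fun n z hz => (he n z hz).symm)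

/-- the function itself -/
lemma PB.base (hSup : StmtSup) {σ : ℂ → ℝ} (L : LocB V σ h φ) : PB V h φ φ := by
  obtain ⟨C0, hC0, hS⟩ := hSup
  intro K hK hKV
  obtain ⟨δ, hδ, hδV⟩ := hK.exists_cthickening_subset_open L.op hKV
  obtain ⟨B, hB⟩ := hK.cthickening.exists_bound_of_continuousOn
    ((contDiff_ex L.sm 2).continuous.continuousOn (s := Metric.cthickening δ K))
  refine ⟨3, √(C0 * (1 + B ^ 2)), by norm_num, Real.sqrt_nonneg _, ?_⟩
  have hsmall : ∀ᶠ n in atTop, h n < δ / 3 := L.hlim.eventually_lt_const (by positivity)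
  filter_upwards [hsmall] with n hn z hz
  have hh := L.hpos n
  have hφ : Continuous (φ n) := (L.smφ n).continuous
  have hsub : ∀ w ∈ Metric.closedBall z (3 * h n), w ∈ Metric.cthickening δ K := fun w hw =>
    Metric.mem_cthickening_of_dist_le w z δ K hz
      ((Metric.mem_closedBall.1 hw).trans (by linarith))
  have h1 := hS (φ n) z (h n) (L.smφ n) hh
  have h2 : ∫ w in Metric.closedBall z (3 * h n),
      (‖φ n w‖ ^ 2 + ‖(h n : ℂ) ^ 2 * dz (dzb (φ n)) w‖ ^ 2) ≤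
      (1 + B ^ 2) * ∫ w in Metric.closedBall z (3 * h n), ‖φ n w‖ ^ 2 := by
    rw [← integral_const_mul]
    have i1 : Continuous fun w => ‖φ n w‖ ^ 2 + ‖(h n : ℂ) ^ 2 * dz (dzb (φ n)) w‖ ^ 2 :=
      (hφ.norm.pow 2).add ((continuous_const.mul
        (contDiff_dz (contDiff_dzb (L.smφ n))).continuous).norm.pow 2)
    have i2 : Continuous fun w => (1 + B ^ 2) * ‖φ n w‖ ^ 2 := continuous_const.mul (hφ.norm.pow 2)
    refine setIntegral_mono_on (i1.continuousOn.integrableOn_compact (isCompact_closedBall _ _))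
      (i2.continuousOn.integrableOn_compact (isCompact_closedBall _ _))
      measurableSet_closedBall fun w hw => ?_
    have e1 := L.eig n w (hδV (hsub w hw))
    have e2 : (h n : ℂ) ^ 2 * dz (dzb (φ n)) w = -(1 / 4) * (ex σ 2 w * φ n w) := by
      linear_combination (1 / 4) * e1
    have e3 : ‖(h n : ℂ) ^ 2 * dz (dzb (φ n)) w‖ ≤ B * ‖φ n w‖ := by
      rw [e2, norm_mul, norm_mul]
      have e4 : ‖(-(1 / 4) : ℂ)‖ ≤ 1 := by norm_num
      have e5 := hB w (hsub w hw)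
      calc ‖(-(1 / 4) : ℂ)‖ * (‖ex σ 2 w‖ * ‖φ n w‖) ≤ 1 * (B * ‖φ n w‖) := by gcongr
        _ = _ := one_mul _
    have e6 : ‖(h n : ℂ) ^ 2 * dz (dzb (φ n)) w‖ ^ 2 ≤ (B * ‖φ n w‖) ^ 2 :=
      pow_le_pow_left₀ (norm_nonneg _) e3 2
    linarith only [e6]
  have h3 : ‖φ n z‖ ^ 2 ≤ C0 * (1 + B ^ 2) * SS h φ 3 n z := by
    refine h1.trans ?_
    unfold SS
    calc C0 / h n ^ 2 * _ ≤ C0 / h n ^ 2 * ((1 + B ^ 2) *
          ∫ w in Metric.closedBall z (3 * h n), ‖φ n w‖ ^ 2) :=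
          mul_le_mul_of_nonneg_left h2 (by positivity)
      _ = _ := by ring
  rw [← Real.sqrt_mul (by positivity)]
  exact Real.le_sqrt_of_sq_le h3

/-- bounds by one plus the local `L²` norm -/
def QB (h : ℕ → ℝ) (φ : ℕ → ℂ → ℂ) (K : Set ℂ) (F : ℕ → ℂ → ℝ) : Prop :=
  ∃ c C : ℝ, 0 < c ∧ 0 ≤ C ∧ ∀ᶠ n in atTop, ∀ z ∈ K, F n z ≤ C * (1 + SS h φ c n z)

lemma QB.one (K : Set ℂ) : QB h φ K (fun _ _ => 1) := by
  refine ⟨1, 1, one_pos, zero_le_one, Filter.Eventually.of_forall fun n z _ => ?_⟩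
  have := SS_nonneg (h := h) (φ := φ) 1 n z
  simp only []
  linarith

lemma QB.zero (K : Set ℂ) : QB h φ K (fun _ _ => 0) := by
  refine ⟨1, 1, one_pos, zero_le_one, Filter.Eventually.of_forall fun n z _ => ?_⟩
  have := SS_nonneg (h := h) (φ := φ) 1 n z
  simp only []
  linarith

lemma QB.add (hh : ∀ n, 0 < h n) (hφ : ∀ n, Continuous (φ n)) {K : Set ℂ} {F G : ℕ → ℂ → ℝ}
    (hF : QB h φ K F) (hG : QB h φ K G) : QB h φ K (fun n z => F n z + G n z) := by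
  obtain ⟨c, C, hc, hC, h1⟩ := hF
  obtain ⟨c', C', hc', hC', h2⟩ := hG
  refine ⟨max c c', C + C', lt_max_of_lt_left hc, add_nonneg hC hC', ?_⟩
  filter_upwards [h1, h2] with n hn hn' z hz
  have e1 := SS_mono (hh n) (hφ n) (le_max_left c c') z
  have e2 := SS_mono (hh n) (hφ n) (le_max_right c c') z
  calc F n z + G n z ≤ C * (1 + SS h φ c n z) + C' * (1 + SS h φ c' n z) :=
        add_le_add (hn z hz) (hn' z hz)
    _ ≤ C * (1 + SS h φ (max c c') n z) + C' * (1 + SS h φ (max c c') n z) := by gcongr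
    _ = _ := by ring

lemma QB.sum (hh : ∀ n, 0 < h n) (hφ : ∀ n, Continuous (φ n)) {K : Set ℂ}
    (F : ℕ → ℕ → ℂ → ℝ) (hF : ∀ a, QB h φ K (F a)) (N : ℕ) :
    QB h φ K (fun n z => ∑ a ∈ Finset.range N, F a n z) := by
  induction N with
  | zero => simpa using QB.zero (h := h) (φ := φ) K
  | succ N ih =>
    simp only [Finset.sum_range_succ]
    exact ih.add hh hφ (hF N)

lemma PB.qb {K : Set ℂ} (hK : IsCompact K) (hKV : K ⊆ V) {u : ℕ → ℂ → ℂ} (hu : PB V h φ u) :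
    QB h φ K (fun n z => ‖u n z‖ ^ 2) := by
  obtain ⟨c, C, hc, hC, h1⟩ := hu K hK hKV
  refine ⟨c, C ^ 2, hc, sq_nonneg C, ?_⟩
  filter_upwards [h1] with n hn z hz
  have e0 := SS_nonneg (h := h) (φ := φ) c n z
  calc ‖u n z‖ ^ 2 ≤ (C * √(SS h φ c n z)) ^ 2 := pow_le_pow_left₀ (norm_nonneg _) (hn z hz) 2
    _ = C ^ 2 * SS h φ c n z := by rw [mul_pow, Real.sq_sqrt e0]
    _ ≤ C ^ 2 * (1 + SS h φ c n z) := by gcongr; linarith

lemma it_smooth (hφ : ∀ n, ContDiff ℝ ∞ (φ n)) (b a n : ℕ) :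
    ContDiff ℝ ∞ (dz^[a] (dzb^[b] (φ n))) := by
  have h1 : ContDiff ℝ ∞ (dzb^[b] (φ n)) := by
    induction b with
    | zero => exact hφ n
    | succ b ih => rw [Function.iterate_succ_apply']; exact contDiff_dzb ih
  induction a with
  | zero => exact h1
  | succ a ih => rw [Function.iterate_succ_apply']; exact contDiff_dz ih

lemma pk_W (hV : IsOpen V) (hφ : ∀ n, ContDiff ℝ ∞ (φ n)) (h1 : ∀ k, PK V h φ k φ) (a b : ℕ) :
    ∀ k, PK V h φ k (W h φ a b) := by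
  have hb : ∀ b k, PK V h φ k (W h φ 0 b) := by
    intro b
    induction b with
    | zero =>
      intro k
      refine (h1 k).congr hV fun n z _ => ?_
      simp [W]
    | succ b ih =>
      intro k
      refine (ih (k + 1)).2.2.congr hV fun n z _ => ?_
      have e : W h φ 0 b n = fun w => (h n : ℂ) ^ b * dzb^[b] (φ n) w := by
        funext w
        simp [W]
      have hd : DifferentiableAt ℝ (dzb^[b] (φ n)) z := by
        have := it_smooth hφ b 0 n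
        exact (this.differentiable (by simp)) z
      rw [e, dzb_const_mul _ hd]
      unfold W
      rw [Function.iterate_zero, id_eq, Function.iterate_succ_apply', zero_add, pow_succ]
      ring
  induction a with
  | zero => exact hb b
  | succ a ih =>
    intro k
    refine (ih (k + 1)).2.1.congr hV fun n z _ => ?_
    have e : W h φ a b n = fun w => (h n : ℂ) ^ (a + b) * dz^[a] (dzb^[b] (φ n)) w := rfl
    have hd : DifferentiableAt ℝ (dz^[a] (dzb^[b] (φ n))) z :=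
      ((it_smooth hφ b a n).differentiable (by simp)) z
    rw [e, dz_const_mul _ hd]
    unfold W
    rw [Function.iterate_succ_apply', show a + 1 + b = a + b + 1 by ring, pow_succ]
    ring

end PTW

/-- PTW: the jets are bounded by the local `L²` norm of `φ` at scale `h` -/
theorem stmtPtwB (hSup : StmtSup) : StmtPtwB := by
  intro V σ h φ L K hK hKV N
  have hφ : ∀ n, Continuous (φ n) := fun n => (L.smφ n).continuous
  have hsm : SmoothSeq V φ := fun n => (L.smφ n).contDiffOn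
  have hbase := PTW.PB.base hSup L
  have hb : ContDiffOn ℝ ∞ (fun z => -(1 / 4) * ex σ 2 z) V :=
    (contDiff_const.mul (contDiff_ex L.sm 2)).contDiffOn
  have hall := PTW.PK.all L.op L.hpos L.hlim hφ hsm hbase hb (fun n z hz => by
    have e1 := L.eig n z hz
    unfold hLap
    linear_combination (1 / 4) * e1)
  have hW : ∀ a b, PTW.PB V h φ (W h φ a b) := fun a b =>
    (PTW.pk_W L.op L.smφ hall a b 0).pb
  have hR : PTW.QB h φ K (fun n z => 1 + ∑ a ∈ Finset.range (N + 1), ∑ b ∈ Finset.range (N + 1),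
      ‖W h φ a b n z‖ ^ 2) := by
    refine (PTW.QB.one K).add L.hpos hφ ?_
    exact PTW.QB.sum L.hpos hφ _ (fun a => PTW.QB.sum L.hpos hφ _
      (fun b => (hW a b).qb hK hKV) (N + 1)) (N + 1)
  obtain ⟨c, C, hc, _, h1⟩ := hR
  exact ⟨c, C, hc, h1⟩

end

end U3


end

section

/-!
PEG: linear growth of the mollified moments
-/

open Complex MeasureTheory Filter Topology Set
open scoped ContDiff

namespace U3

open QE QJ

noncomputable section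

namespace PEG

lemma norm_ta (σ : ℂ → ℝ) (z w : ℂ) : ‖ta σ z w‖ = 1 := by
  unfold ta
  exact Complex.norm_exp_ofReal_mul_I _

lemma norm_kern (β : ℝ → ℝ) (σ : ℂ → ℝ) (ε : ℝ) (z w v : ℂ) (hv : ‖v‖ = 1) (k : ℤ)
    (h0 : 0 ≤ ke β σ ε z w) :
    ‖(ke β σ ε z w : ℂ) * ((ta σ z w)⁻¹ * v) ^ k‖ = ke β σ ε z w := by
  rw [norm_mul, norm_zpow, norm_mul, norm_inv, norm_ta, hv, Complex.norm_real, Real.norm_eq_abs,
    abs_of_nonneg h0]
  simp

/-- a bound of the integral of a norm by a lower integral -/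
lemma int_norm_le (f : ℂ → ℂ) (S : Set ℂ) (b : ℝ) (hb : 0 ≤ b)
    (h : ∫⁻ x in S, ENNReal.ofReal ‖f x‖ ≤ ENNReal.ofReal b) : ∫ x in S, ‖f x‖ ≤ b := by
  have h1 := norm_integral_le_lintegral_norm (μ := volume.restrict S) (fun x => ‖f x‖)
  simp only [norm_norm] at h1
  refine (le_trans (Real.le_norm_self _) h1).trans ?_
  exact ENNReal.toReal_le_of_le_ofReal hb h

variable {Ω : Type} [MeasurableSpace Ω] (μ : Measure Ω) (p u : Ω → ℂ)

/-- pointwise bound of the mollified moments -/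
lemma pe_le (β : ℝ → ℝ) (σ : ℂ → ℝ) (ε c r : ℝ) (k : ℤ) (K1 L : Set ℂ) (x : ℂ)
    (hu : ∀ o, ‖u o‖ = 1) (hL : ∀ᵐ o ∂μ, p o ∈ L)
    (h0 : ∀ w ∈ L, 0 ≤ ke β σ ε x w) (h1 : ∀ w ∈ L, ke β σ ε x w ≤ c)
    (h2 : ∀ w ∈ L, r < ‖w - x‖ → ke β σ ε x w = 0)
    (h3 : ∀ w, dist w x ≤ r → w ∈ K1)
    (hm : MeasurableSet (p ⁻¹' (K1 ∩ Metric.closedBall x r))) :
    ENNReal.ofReal ‖pe β σ ε μ p u k x‖
      ≤ ENNReal.ofReal c * μ (p ⁻¹' (K1 ∩ Metric.closedBall x r)) := by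
  have e1 : ENNReal.ofReal ‖pe β σ ε μ p u k x‖
      ≤ ∫⁻ o, ENNReal.ofReal ‖(ke β σ ε x (p o) : ℂ) * ((ta σ x (p o))⁻¹ * u o) ^ k‖ ∂μ := by
    refine (ENNReal.ofReal_le_ofReal (norm_integral_le_lintegral_norm _)).trans ?_
    exact ENNReal.ofReal_toReal_le
  refine e1.trans ?_
  have e2 : ∫⁻ o, ENNReal.ofReal ‖(ke β σ ε x (p o) : ℂ) * ((ta σ x (p o))⁻¹ * u o) ^ k‖ ∂μ
      ≤ ∫⁻ o, (p ⁻¹' (K1 ∩ Metric.closedBall x r)).indicator (fun _ => ENNReal.ofReal c) o ∂μ := by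
    refine lintegral_mono_ae ?_
    filter_upwards [hL] with o ho
    rw [norm_kern β σ ε x (p o) (u o) (hu o) k (h0 _ ho)]
    by_cases hd : dist (p o) x ≤ r
    · rw [indicator_of_mem (show o ∈ p ⁻¹' (K1 ∩ Metric.closedBall x r) from
        ⟨h3 _ hd, Metric.mem_closedBall.2 hd⟩)]
      exact ENNReal.ofReal_le_ofReal (h1 _ ho)
    · rw [h2 _ ho (by rw [← dist_eq_norm]; exact not_le.1 hd), ENNReal.ofReal_zero]
      exact zero_le
  refine e2.trans ?_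
  rw [lintegral_indicator hm, lintegral_const, Measure.restrict_apply_univ]

/-- the swap of the two integrals -/
lemma swap [IsFiniteMeasure μ] (hp : Measurable p) (K1 S : Set ℂ) (hK1 : MeasurableSet K1)
    (hS : MeasurableSet S) (z : ℂ) (s r : ℝ) (hSz : S ⊆ Metric.closedBall z s) :
    ∫⁻ x in S, μ (p ⁻¹' (K1 ∩ Metric.closedBall x r))
      ≤ μ (p ⁻¹' (K1 ∩ Metric.closedBall z (s + r))) * (ENNReal.ofReal r ^ 2 * NNReal.pi) := by
  set T : Set (ℂ × Ω) := {q | p q.2 ∈ K1 ∧ dist (p q.2) q.1 ≤ r} with hT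
  have hTm : MeasurableSet T := by
    have a1 : Measurable fun q : ℂ × Ω => p q.2 := hp.comp measurable_snd
    exact (a1 hK1).inter (measurableSet_le (a1.dist measurable_fst) measurable_const)
  have e1 : ∫⁻ x in S, μ (p ⁻¹' (K1 ∩ Metric.closedBall x r))
      = ((volume.restrict S).prod μ) T := by
    rw [Measure.prod_apply hTm]
    rfl
  rw [e1, Measure.prod_apply_symm hTm]
  have hm2 : MeasurableSet (p ⁻¹' (K1 ∩ Metric.closedBall z (s + r))) :=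
    hp (hK1.inter Metric.isClosed_closedBall.measurableSet)
  have e2 : ∫⁻ o, (volume.restrict S) ((fun x => (x, o)) ⁻¹' T) ∂μ
      ≤ ∫⁻ o, (p ⁻¹' (K1 ∩ Metric.closedBall z (s + r))).indicator
        (fun _ => ENNReal.ofReal r ^ 2 * NNReal.pi) o ∂μ := by
    refine lintegral_mono fun o => ?_
    rw [Measure.restrict_apply (measurable_prodMk_right hTm)]
    by_cases ho : p o ∈ K1 ∧ dist (p o) z ≤ s + r
    · rw [indicator_of_mem (show o ∈ p ⁻¹' (K1 ∩ Metric.closedBall z (s + r)) from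
        ⟨ho.1, Metric.mem_closedBall.2 ho.2⟩), ← Complex.volume_closedBall (p o) r]
      refine measure_mono ?_
      rintro x ⟨hx, -⟩
      rw [Metric.mem_closedBall, dist_comm]
      exact hx.2
    · have : (fun x => (x, o)) ⁻¹' T ∩ S = ∅ := by
        ext x
        simp only [mem_inter_iff, mem_preimage, mem_empty_iff_false, iff_false, not_and]
        intro hx hxS
        refine ho ⟨hx.1, ?_⟩
        have h1 := hSz hxS
        rw [Metric.mem_closedBall] at h1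
        have h2 : dist (p o) x ≤ r := hx.2
        linarith [dist_triangle (p o) x z]
      rw [this, measure_empty]
      exact zero_le
  refine e2.trans ?_
  rw [lintegral_indicator hm2, lintegral_const, Measure.restrict_apply_univ, mul_comm]

end PEG

/-- PEG -/
theorem stmtPeG (hKsz : StmtKsz) : StmtPeG := by
  intro β V σ Ω _ μ p u ε k hβ hV hσ hD hε hε0 K hK hKV
  have : IsFiniteMeasure μ := ⟨lt_top_iff_ne_top.2 hD.fin⟩
  obtain ⟨L, hL, hLo⟩ := hD.cpt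
  obtain ⟨r0, hr0, hr0V⟩ := hK.exists_cthickening_subset_open hV hKV
  set K1 := Metric.cthickening r0 K with hK1
  have hK1c : IsCompact K1 := hK.cthickening
  have hKK1 : K ⊆ K1 := Metric.self_subset_cthickening K
  obtain ⟨C1', hC1'⟩ := hD.grow K1 hK1c hr0V
  obtain ⟨C0, hC0, hke⟩ := hKsz β σ (K ∪ L) hβ hσ (hK.union hL)
  set C1 := max C1' 0 with hC1def
  have hC1 : 0 ≤ C1 := le_max_right _ _
  have hC1g : ∀ z ∈ K1, ∀ s > 0,
      μ (p ⁻¹' (K1 ∩ Metric.closedBall z s)) ≤ ENNReal.ofReal (C1 * s) := by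
    intro z hz s hs
    rw [← ENNReal.ofReal_toReal (measure_ne_top μ _)]
    refine ENNReal.ofReal_le_ofReal ((hC1' z hz s hs).trans ?_)
    exact mul_le_mul_of_nonneg_right (le_max_left _ _) hs.le
  refine ⟨Real.pi * C0 ^ 2 * C1 + Real.pi * C0 ^ 3 * C1 * (1 + C0), ?_⟩
  have hev : ∀ᶠ n in atTop, ε n < r0 / C0 :=
    hε0.eventually (gt_mem_nhds (div_pos hr0 hC0))
  filter_upwards [hev] with n hn z hz s hs
  have hεn := hε n
  have hρ : C0 * ε n ≤ r0 := by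
    rw [lt_div_iff₀ hC0] at hn
    linarith
  have hρ0 : 0 < C0 * ε n := mul_pos hC0 hεn
  have hc0 : 0 ≤ C0 / ε n ^ 2 := by positivity
  have hK1m : MeasurableSet K1 := hK1c.measurableSet
  have hSm : MeasurableSet (K ∩ Metric.closedBall z s) :=
    hK.measurableSet.inter Metric.isClosed_closedBall.measurableSet
  have hpt : ∀ x ∈ K, ENNReal.ofReal ‖pe β σ (ε n) μ p u k x‖
      ≤ ENNReal.ofReal (C0 / ε n ^ 2) * μ (p ⁻¹' (K1 ∩ Metric.closedBall x (C0 * ε n))) := by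
    intro x hx
    refine PEG.pe_le μ p u β σ (ε n) _ _ k K1 L x hD.unit hLo ?_ ?_ ?_ ?_ ?_
    · intro w hw
      exact (hke (ε n) hεn x (Or.inl hx) w (Or.inr hw)).1
    · intro w hw
      exact (hke (ε n) hεn x (Or.inl hx) w (Or.inr hw)).2.1
    · intro w hw
      exact (hke (ε n) hεn x (Or.inl hx) w (Or.inr hw)).2.2.1
    · intro w hw
      exact Metric.mem_cthickening_of_dist_le w x r0 K hx (hw.trans hρ)
    · exact hD.mp (hK1m.inter Metric.isClosed_closedBall.measurableSet)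
  have hpt2 : ∫⁻ x in K ∩ Metric.closedBall z s, ENNReal.ofReal ‖pe β σ (ε n) μ p u k x‖
      ≤ ∫⁻ x in K ∩ Metric.closedBall z s,
        ENNReal.ofReal (C0 / ε n ^ 2) * μ (p ⁻¹' (K1 ∩ Metric.closedBall x (C0 * ε n))) := by
    refine setLIntegral_mono' hSm fun x hx => hpt x hx.1
  have hpi : (NNReal.pi : ENNReal) = ENNReal.ofReal Real.pi := by
    rw [ENNReal.ofReal, ← NNReal.coe_real_pi, Real.toNNReal_coe]
  by_cases hsε : s ≤ ε n
  · -- small balls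
    have hb : ∫⁻ x in K ∩ Metric.closedBall z s, ENNReal.ofReal ‖pe β σ (ε n) μ p u k x‖
        ≤ ENNReal.ofReal (C0 / ε n ^ 2 * (C1 * (C0 * ε n)) * (s ^ 2 * Real.pi)) := by
      refine hpt2.trans ?_
      have h1 : ∫⁻ x in K ∩ Metric.closedBall z s,
          ENNReal.ofReal (C0 / ε n ^ 2) * μ (p ⁻¹' (K1 ∩ Metric.closedBall x (C0 * ε n)))
          ≤ ∫⁻ x in K ∩ Metric.closedBall z s,
            ENNReal.ofReal (C0 / ε n ^ 2 * (C1 * (C0 * ε n))) := by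
        refine setLIntegral_mono' hSm fun x hx => ?_
        rw [ENNReal.ofReal_mul hc0]
        exact mul_le_mul' le_rfl (hC1g x (hKK1 hx.1) _ hρ0)
      refine h1.trans ?_
      rw [lintegral_const, Measure.restrict_apply_univ,
        ENNReal.ofReal_mul (p := C0 / ε n ^ 2 * (C1 * (C0 * ε n))) (by positivity)]
      refine mul_le_mul' le_rfl ?_
      refine (measure_mono inter_subset_right).trans ?_
      rw [Complex.volume_closedBall, ENNReal.ofReal_mul (p := s ^ 2) (by positivity), hpi,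
        ENNReal.ofReal_pow hs.le]
    refine (PEG.int_norm_le _ _ _ (by positivity) hb).trans ?_
    have h2 : C0 / ε n ^ 2 * (C1 * (C0 * ε n)) * (s ^ 2 * Real.pi)
        = Real.pi * C0 ^ 2 * C1 * (s / ε n) * s := by
      field_simp
    rw [h2]
    have h3 : s / ε n ≤ 1 := by
      rw [div_le_one hεn]
      exact hsε
    have h4 : Real.pi * C0 ^ 2 * C1 * (s / ε n) ≤ Real.pi * C0 ^ 2 * C1 * 1 :=
      mul_le_mul_of_nonneg_left h3 (by positivity)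
    have h5 : 0 ≤ Real.pi * C0 ^ 3 * C1 * (1 + C0) := by positivity
    refine mul_le_mul_of_nonneg_right ?_ hs.le
    linarith
  · -- large balls
    have hsε' : ε n < s := not_le.1 hsε
    have hb : ∫⁻ x in K ∩ Metric.closedBall z s, ENNReal.ofReal ‖pe β σ (ε n) μ p u k x‖
        ≤ ENNReal.ofReal (C0 / ε n ^ 2 * (C1 * (s + C0 * ε n) * ((C0 * ε n) ^ 2 * Real.pi))) := by
      refine hpt2.trans ?_
      rw [lintegral_const_mul' _ _ ENNReal.ofReal_ne_top, ENNReal.ofReal_mul hc0]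
      refine mul_le_mul' le_rfl ?_
      refine (PEG.swap μ p hD.mp K1 _ hK1m hSm z s (C0 * ε n) inter_subset_right).trans ?_
      rw [ENNReal.ofReal_mul (p := C1 * (s + C0 * ε n)) (mul_nonneg hC1 (by positivity)),
        ENNReal.ofReal_mul (p := (C0 * ε n) ^ 2) (by positivity), hpi, ENNReal.ofReal_pow hρ0.le]
      exact mul_le_mul' (hC1g z (hKK1 hz) _ (by positivity)) le_rfl
    refine (PEG.int_norm_le _ _ _ (by positivity) hb).trans ?_
    have h2 : C0 / ε n ^ 2 * (C1 * (s + C0 * ε n) * ((C0 * ε n) ^ 2 * Real.pi))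
        = Real.pi * C0 ^ 3 * C1 * (s + C0 * ε n) := by
      field_simp
    rw [h2]
    have h3 : s + C0 * ε n ≤ (1 + C0) * s := by
      have := mul_le_mul_of_nonneg_left hsε'.le hC0.le
      linarith
    have h4 : Real.pi * C0 ^ 3 * C1 * (s + C0 * ε n) ≤ Real.pi * C0 ^ 3 * C1 * ((1 + C0) * s) :=
      mul_le_mul_of_nonneg_left h3 (by positivity)
    have h5 : 0 ≤ Real.pi * C0 ^ 2 * C1 * s := by positivity
    nlinarith

end

end U3


end

section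

/-!
PET: transport of the mollified moments
-/

open Complex MeasureTheory Filter Topology Set
open scoped ContDiff

namespace U3

open QE QJ

noncomputable section

namespace PET

/-- the kernel without the density, as a function of two variables -/
def FG (β : ℝ → ℝ) (σ : ℂ → ℝ) (ε : ℝ) (k : ℤ) (x : ℂ × ℂ) : ℂ :=
  (gb β σ ε x.1 x.2 : ℂ) * (ta σ x.1 x.2)⁻¹ ^ k

lemma contDiff_FG {β : ℝ → ℝ} {σ : ℂ → ℝ} (hβ : ContDiff ℝ ∞ β) (hσ : ContDiff ℝ ∞ σ) (ε : ℝ)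
    (k : ℤ) : ContDiff ℝ ∞ (FG β σ ε k) := by
  have h1 : FG β σ ε k = fun x => ex σ (-2) x.2 * PES.FK β σ ε k x := by
    funext x
    have h2 : ex σ (-2) x.2 * (Real.exp (2 * σ x.2) : ℂ) = 1 := by
      have := ex_mul σ (-2) 2 x.2
      rw [show (-2 : ℤ) + 2 = 0 by norm_num, ex_zero] at this
      simpa [ex] using this
    unfold FG PES.FK ke
    rw [Complex.ofReal_mul]
    linear_combination (-(gb β σ ε x.1 x.2 : ℂ) * (ta σ x.1 x.2)⁻¹ ^ k) * h2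
  rw [h1]
  exact ((contDiff_ex hσ (-2)).comp contDiff_snd).mul (PES.contDiff_FK hβ hσ ε k)

lemma fderiv_fst {F : ℂ × ℂ → ℂ} (hF : ContDiff ℝ ∞ F) (z w v : ℂ) :
    fderiv ℝ (fun x => F (x, w)) z v = fderiv ℝ F (z, w) (v, 0) := by
  have h1 : HasFDerivAt F (fderiv ℝ F (z, w)) (z, w) :=
    (hF.differentiable (by simp)).differentiableAt.hasFDerivAt
  have h2 : HasFDerivAt (fun x : ℂ => (x, w)) (ContinuousLinearMap.inl ℝ ℂ ℂ) z :=
    hasFDerivAt_prodMk_left z w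
  have h3 := h1.comp z h2
  have h4 : fderiv ℝ (fun x => F (x, w)) z
      = (fderiv ℝ F (z, w)).comp (ContinuousLinearMap.inl ℝ ℂ ℂ) := h3.fderiv
  rw [h4]
  rfl

lemma cont_fderiv {F : ℂ × ℂ → ℂ} (hF : ContDiff ℝ ∞ F) (z v : ℂ) :
    Continuous fun w => fderiv ℝ (fun x => F (x, w)) z v := by
  simp only [fderiv_fst hF]
  have h1 : Continuous (fderiv ℝ F) := hF.continuous_fderiv (by simp)
  exact (h1.comp (by fun_prop : Continuous fun w : ℂ => (z, w))).clm_apply continuous_const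

lemma cont_D {F : ℂ × ℂ → ℂ} {σ : ℂ → ℝ} (hσ : ContDiff ℝ ∞ σ) (hF : ContDiff ℝ ∞ F) (k : ℤ)
    (z : ℂ) : Continuous fun w => D σ k (fun x => F (x, w)) z := by
  have h1 : ContDiff ℝ ∞ fun x : ℂ × ℂ => ex σ (-k) x.1 * F x :=
    ((contDiff_ex hσ (-k)).comp contDiff_fst).mul hF
  unfold D dz
  have h2 := cont_fderiv h1 z 1
  have h3 := cont_fderiv h1 z I
  simp only at h2 h3
  exact continuous_const.mul (continuous_const.mul (h2.sub (continuous_const.mul h3)))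

lemma cont_Db {F : ℂ × ℂ → ℂ} {σ : ℂ → ℝ} (hσ : ContDiff ℝ ∞ σ) (hF : ContDiff ℝ ∞ F) (k : ℤ)
    (z : ℂ) : Continuous fun w => Db σ k (fun x => F (x, w)) z := by
  have h1 : ContDiff ℝ ∞ fun x : ℂ × ℂ => ex σ k x.1 * F x :=
    ((contDiff_ex hσ k).comp contDiff_fst).mul hF
  unfold Db dzb
  have h2 := cont_fderiv h1 z 1
  have h3 := cont_fderiv h1 z I
  simp only at h2 h3
  exact continuous_const.mul (continuous_const.mul (h2.add (continuous_const.mul h3)))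

variable {Ω : Type} [MeasurableSpace Ω] {μ : Measure Ω} {p u : Ω → ℂ}

lemma integrable_comp [IsFiniteMeasure μ] (hp : Measurable p) (hu : Measurable u)
    (hu1 : ∀ o, ‖u o‖ = 1) {L : Set ℂ} (hL : IsCompact L) (hLo : ∀ᵐ o ∂μ, p o ∈ L)
    {G : ℂ → ℂ} (hG : Continuous G) (k : ℤ) : Integrable (fun o => G (p o) * u o ^ k) μ := by
  obtain ⟨c, hc⟩ := hL.exists_bound_of_continuousOn hG.continuousOn
  refine Integrable.of_bound ((hG.measurable.comp hp).mul (hu.pow_const k)).aestronglyMeasurable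
    c ?_
  filter_upwards [hLo] with o ho
  rw [norm_mul, norm_zpow, hu1, one_zpow, mul_one]
  exact hc _ ho

lemma D_congr (σ : ℂ → ℝ) (k : ℤ) {f g : ℂ → ℂ} {z : ℂ} (h : f =ᶠ[𝓝 z] g) :
    D σ k f z = D σ k g z := by
  have h1 : (fun w => ex σ (-k) w * f w) =ᶠ[𝓝 z] fun w => ex σ (-k) w * g w :=
    h.mono fun x hx => by simp only [hx]
  unfold D
  rw [dz_congr h1]

lemma Db_congr (σ : ℂ → ℝ) (k : ℤ) {f g : ℂ → ℂ} {z : ℂ} (h : f =ᶠ[𝓝 z] g) :
    Db σ k f z = Db σ k g z := by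
  have h1 : (fun w => ex σ k w * f w) =ᶠ[𝓝 z] fun w => ex σ k w * g w :=
    h.mono fun x hx => by simp only [hx]
  unfold Db
  rw [dzb_congr h1]

/-- the representation of the transport error -/
lemma repr (hPeS : StmtPeS) {β : ℝ → ℝ} {V : Set ℂ} {σ : ℂ → ℝ} (hβ : Bump β)
    (hV : IsOpen V) (hσ : ContDiff ℝ ∞ σ) (hD : DirM V σ μ p u) (k : ℤ) {L : Set ℂ}
    (hL : IsCompact L) (hLo : ∀ᵐ o ∂μ, p o ∈ L) {χ : ℂ → ℂ} (hχ : Test V χ) {ε : ℝ} (hε : 0 < ε)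
    (z : ℂ) (hloc : ∀ w ∈ L, (fun y => χ y * FG β σ ε k (z, y)) =ᶠ[𝓝 w] fun y => FG β σ ε k (z, y)) :
    Db σ (k + 1) (pe β σ ε μ p u (k + 1)) z - D σ (k - 1) (pe β σ ε μ p u (k - 1)) z
      = ∫ o, ((Db σ (k + 1) (fun x => (ke β σ ε x (p o) : ℂ) * (ta σ x (p o))⁻¹ ^ (k + 1)) z
          + ex σ 2 (p o) * Db σ (-k) (fun y => (gb β σ ε z y : ℂ) * (ta σ z y)⁻¹ ^ k) (p o))
            * u o ^ (k + 1)
        - (D σ (k - 1) (fun x => (ke β σ ε x (p o) : ℂ) * (ta σ x (p o))⁻¹ ^ (k - 1)) z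
          + ex σ 2 (p o) * D σ (-k) (fun y => (gb β σ ε z y : ℂ) * (ta σ z y)⁻¹ ^ k) (p o))
            * u o ^ (k - 1)) ∂μ := by
  have : IsFiniteMeasure μ := ⟨lt_top_iff_ne_top.2 hD.fin⟩
  have hf : ContDiff ℝ ∞ fun y => FG β σ ε k (z, y) :=
    (contDiff_FG hβ.smooth hσ ε k).comp (contDiff_const.prodMk contDiff_id)
  have hT : Test V (fun y => χ y * FG β σ ε k (z, y)) := test_mul hχ hf
  have h0 := hD.transport k _ hT
  have e1 := (hPeS β V σ Ω μ p u hβ hσ hD ε hε (k + 1)).2.2 (k + 1) z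
  have e2 := (hPeS β V σ Ω μ p u hβ hσ hD ε hε (k - 1)).2.1 (k - 1) z
  have i1 : Integrable (fun o => Db σ (k + 1)
      (fun x => (ke β σ ε x (p o) : ℂ) * (ta σ x (p o))⁻¹ ^ (k + 1)) z * u o ^ (k + 1)) μ :=
    integrable_comp hD.mp hD.mu hD.unit hL hLo
      (cont_Db hσ (PES.contDiff_FK hβ.smooth hσ ε (k + 1)) (k + 1) z) (k + 1)
  have i2 : Integrable (fun o => D σ (k - 1)
      (fun x => (ke β σ ε x (p o) : ℂ) * (ta σ x (p o))⁻¹ ^ (k - 1)) z * u o ^ (k - 1)) μ :=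
    integrable_comp hD.mp hD.mu hD.unit hL hLo
      (cont_D hσ (PES.contDiff_FK hβ.smooth hσ ε (k - 1)) (k - 1) z) (k - 1)
  have i3 : Integrable (fun o => (ex σ 2 (p o) *
      Db σ (-k) (fun y => (gb β σ ε z y : ℂ) * (ta σ z y)⁻¹ ^ k) (p o)) * u o ^ (k + 1)) μ :=
    integrable_comp (G := fun w => ex σ 2 w *
      Db σ (-k) (fun y => (gb β σ ε z y : ℂ) * (ta σ z y)⁻¹ ^ k) w) hD.mp hD.mu hD.unit hL hLo
      ((contDiff_ex hσ 2).continuous.mul (contDiff_Db hσ (-k) hf).continuous) (k + 1)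
  have i4 : Integrable (fun o => (ex σ 2 (p o) *
      D σ (-k) (fun y => (gb β σ ε z y : ℂ) * (ta σ z y)⁻¹ ^ k) (p o)) * u o ^ (k - 1)) μ :=
    integrable_comp (G := fun w => ex σ 2 w *
      D σ (-k) (fun y => (gb β σ ε z y : ℂ) * (ta σ z y)⁻¹ ^ k) w) hD.mp hD.mu hD.unit hL hLo
      ((contDiff_ex hσ 2).continuous.mul (contDiff_D hσ (-k) hf).continuous) (k - 1)
  have h1 : ∫ o, ex σ 2 (p o) *
      (Db σ (-k) (fun y => χ y * FG β σ ε k (z, y)) (p o) * u o ^ (k + 1)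
        - D σ (-k) (fun y => χ y * FG β σ ε k (z, y)) (p o) * u o ^ (k - 1)) ∂μ
      = ∫ o, ((ex σ 2 (p o) *
          Db σ (-k) (fun y => (gb β σ ε z y : ℂ) * (ta σ z y)⁻¹ ^ k) (p o)) * u o ^ (k + 1)
        - (ex σ 2 (p o) *
          D σ (-k) (fun y => (gb β σ ε z y : ℂ) * (ta σ z y)⁻¹ ^ k) (p o)) * u o ^ (k - 1)) ∂μ := by
    refine integral_congr_ae ?_
    filter_upwards [hLo] with o ho
    rw [Db_congr σ (-k) (hloc _ ho), D_congr σ (-k) (hloc _ ho)]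
    simp only [FG]
    ring
  rw [h1, integral_sub i3 i4] at h0
  rw [e1, e2]
  have h2 : ∀ a b c d e f : ℂ, (a + b) * c - (d + e) * f = (a * c + b * c) - (d * f + e * f) := by
    intros
    ring
  simp only [h2]
  have j1 := integral_sub (i1.add i3) (i2.add i4)
  have j2 := integral_add i1 i3
  have j3 := integral_add i2 i4
  simp only [Pi.add_apply] at j1
  rw [j1, j2, j3]
  linear_combination (-1 : ℂ) * h0

end PET

open _root_.U3.PET in
/-- PET -/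
theorem stmtPeT (hPeS : StmtPeS) (hKer : StmtKer) (hKem : StmtKem) (hKsz : StmtKsz) :
    StmtPeT := by
  intro β V σ Ω _ μ p u ε k hβ hV hσ hD hε hε0 K hK hKV
  have : IsFiniteMeasure μ := ⟨lt_top_iff_ne_top.2 hD.fin⟩
  obtain ⟨L, hL, hLo⟩ := hD.cpt
  obtain ⟨r0, hr0, hr0V⟩ := hK.exists_cthickening_subset_open hV hKV
  set K1 := Metric.cthickening r0 K with hK1
  have hK1c : IsCompact K1 := hK.cthickening
  have hKK1 : K ⊆ K1 := Metric.self_subset_cthickening K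
  obtain ⟨χ, hχ, hχ1, -⟩ := QE.exists_cutoff hV hK1c hr0V
  obtain ⟨C1', hC1'⟩ := hD.grow K1 hK1c hr0V
  set C1 := max C1' 0 with hC1def
  have hC1 : 0 ≤ C1 := le_max_right _ _
  set Q := Metric.cthickening 1 (K1 ∪ L) with hQ
  have hQc : IsCompact Q := (hK1c.union hL).cthickening
  have hQs : K1 ∪ L ⊆ Q := Metric.self_subset_cthickening _
  obtain ⟨Ca, εa, hCa, hεa, ha⟩ := hKer β σ k Q hβ hσ hQc
  obtain ⟨Cb, εb, hCb, hεb, hb⟩ := hKem β σ k Q hβ hσ hQc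
  obtain ⟨Cc, hCc, hc⟩ := hKsz β σ Q hβ hσ hQc
  set C := max Ca (max Cb Cc) with hCdef
  have hCaC : Ca ≤ C := le_max_left _ _
  have hCbC : Cb ≤ C := (le_max_left _ _).trans (le_max_right _ _)
  have hCcC : Cc ≤ C := (le_max_right _ _).trans (le_max_right _ _)
  have hC : 0 < C := lt_of_lt_of_le hCa hCaC
  obtain ⟨s, hs⟩ := hK.isBounded.subset_closedBall (0 : ℂ)
  set M := (μ Set.univ).toReal with hM
  have hM0 : 0 ≤ M := ENNReal.toReal_nonneg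
  set Y := 4 * Real.pi * C ^ 5 * C1 * M with hY
  have hev1 : ∀ᶠ n in atTop, C * ε n < r0 := by
    have h1 : Tendsto (fun n => C * ε n) atTop (𝓝 (C * 0)) := hε0.const_mul C
    rw [mul_zero] at h1
    exact h1.eventually (gt_mem_nhds hr0)
  have hev : ∀ᶠ n in atTop, ∫ z in K, ‖Db σ (k + 1) (pe β σ (ε n) μ p u (k + 1)) z
      - D σ (k - 1) (pe β σ (ε n) μ p u (k - 1)) z‖ ^ 2 ≤ Y * ε n := by
    filter_upwards [hev1, hε0.eventually (gt_mem_nhds hεa), hε0.eventually (gt_mem_nhds hεb)]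
      with n hn1 hn2 hn3
    have hεn := hε n
    have hρ0 : 0 < C * ε n := mul_pos hC hεn
    -- the local identity of the test function
    have hloc : ∀ z ∈ K, ∀ w ∈ L, (fun y => χ y * FG β σ (ε n) k (z, y))
        =ᶠ[𝓝 w] fun y => FG β σ (ε n) k (z, y) := by
      intro z hz w hw
      by_cases hw1 : w ∈ K1
      · filter_upwards [hχ1 w hw1] with y hy
        rw [hy, one_mul]
      · have hd : C * ε n < dist w z := by
          by_contra hcon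
          exact hw1 (Metric.mem_cthickening_of_dist_le w z r0 K hz
            ((not_lt.1 hcon).trans hn1.le))
        have hopen : ∀ᶠ y in 𝓝 w, C * ε n < dist y z :=
          (continuous_id.dist continuous_const).continuousAt.eventually (lt_mem_nhds hd)
        have hball : ∀ᶠ y in 𝓝 w, dist y w < 1 := Metric.ball_mem_nhds w one_pos
        filter_upwards [hopen, hball] with y hy1 hy2
        have hyQ : y ∈ Q := Metric.mem_cthickening_of_dist_le y w 1 _ (Or.inr hw) hy2.le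
        have hz1 : z ∈ Q := hQs (Or.inl (hKK1 hz))
        have hk0 : ke β σ (ε n) z y = 0 := by
          refine (hc (ε n) hεn z hz1 y hyQ).2.2.1 ?_
          rw [← dist_eq_norm]
          exact lt_of_le_of_lt (mul_le_mul_of_nonneg_right hCcC hεn.le) hy1
        have hg0 : gb β σ (ε n) z y = 0 := by
          unfold ke at hk0
          exact (mul_eq_zero.1 hk0).resolve_left (Real.exp_pos _).ne'
        simp only [FG, hg0, ofReal_zero, zero_mul, mul_zero]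
    -- the pointwise bound
    have hpt : ∀ z ∈ K, ENNReal.ofReal ‖Db σ (k + 1) (pe β σ (ε n) μ p u (k + 1)) z
        - D σ (k - 1) (pe β σ (ε n) μ p u (k - 1)) z‖
        ≤ ENNReal.ofReal (2 * C / ε n) * μ (p ⁻¹' (K1 ∩ Metric.closedBall z (C * ε n))) := by
      intro z hz
      rw [repr hPeS hβ hV hσ hD k hL hLo hχ hεn z (hloc z hz)]
      have hzQ : z ∈ Q := hQs (Or.inl (hKK1 hz))
      refine (ENNReal.ofReal_le_ofReal (norm_integral_le_lintegral_norm _)).trans ?_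
      refine ENNReal.ofReal_toReal_le.trans ?_
      have hm : MeasurableSet (p ⁻¹' (K1 ∩ Metric.closedBall z (C * ε n))) :=
        hD.mp (hK1c.measurableSet.inter Metric.isClosed_closedBall.measurableSet)
      have e2 : ∫⁻ o, (p ⁻¹' (K1 ∩ Metric.closedBall z (C * ε n))).indicator
          (fun _ => ENNReal.ofReal (2 * C / ε n)) o ∂μ
          = ENNReal.ofReal (2 * C / ε n) * μ (p ⁻¹' (K1 ∩ Metric.closedBall z (C * ε n))) := by
        rw [lintegral_indicator hm, lintegral_const, Measure.restrict_apply_univ]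
      rw [← e2]
      refine lintegral_mono_ae ?_
      filter_upwards [hLo] with o ho
      have hoQ : p o ∈ Q := hQs (Or.inr ho)
      obtain ⟨a1, a2⟩ := ha (ε n) hεn hn2 z hzQ (p o) hoQ
      obtain ⟨b1, b2⟩ := hb (ε n) hεn hn3 z hzQ (p o) hoQ
      by_cases hd : dist (p o) z ≤ C * ε n
      · rw [indicator_of_mem (show o ∈ p ⁻¹' (K1 ∩ Metric.closedBall z (C * ε n)) from
          ⟨Metric.mem_cthickening_of_dist_le _ z r0 K hz (hd.trans hn1.le),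
            Metric.mem_closedBall.2 hd⟩)]
        refine ENNReal.ofReal_le_ofReal ((norm_sub_le _ _).trans ?_)
        rw [norm_mul, norm_mul, norm_zpow, norm_zpow, hD.unit, one_zpow, one_zpow, mul_one, mul_one]
        have c1 : Ca / ε n ≤ C / ε n := div_le_div_of_nonneg_right hCaC hεn.le
        have c2 : Cb / ε n ≤ C / ε n := div_le_div_of_nonneg_right hCbC hεn.le
        have c3 : 2 * C / ε n = C / ε n + C / ε n := by ring
        rw [c3]
        exact add_le_add (a1.trans c1) (b1.trans c2)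
      · have hd' : C * ε n < ‖p o - z‖ := by
          rw [← dist_eq_norm]
          exact not_le.1 hd
        rw [a2 (lt_of_le_of_lt (mul_le_mul_of_nonneg_right hCaC hεn.le) hd'),
          b2 (lt_of_le_of_lt (mul_le_mul_of_nonneg_right hCbC hεn.le) hd'), zero_mul, zero_mul,
          sub_zero, norm_zero, ENNReal.ofReal_zero]
        exact zero_le
    have hpt2 : ∀ z ∈ K, ENNReal.ofReal ‖(Db σ (k + 1) (pe β σ (ε n) μ p u (k + 1)) z
        - D σ (k - 1) (pe β σ (ε n) μ p u (k - 1)) z) ^ 2‖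
        ≤ ENNReal.ofReal ((2 * C / ε n) ^ 2 * (C1 * (C * ε n)))
          * μ (p ⁻¹' (K1 ∩ Metric.closedBall z (C * ε n))) := by
      intro z hz
      have h1 := hpt z hz
      have h2 : μ (p ⁻¹' (K1 ∩ Metric.closedBall z (C * ε n)))
          ≤ ENNReal.ofReal (C1 * (C * ε n)) := by
        rw [← ENNReal.ofReal_toReal (measure_ne_top μ _)]
        refine ENNReal.ofReal_le_ofReal ((hC1' z (hKK1 hz) _ hρ0).trans ?_)
        exact mul_le_mul_of_nonneg_right (le_max_left _ _) hρ0.le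
      have h3 : 0 ≤ 2 * C / ε n := by positivity
      rw [norm_pow, ENNReal.ofReal_pow (norm_nonneg _), ENNReal.ofReal_mul (by positivity),
        ENNReal.ofReal_pow h3]
      refine (pow_le_pow_left' h1 2).trans ?_
      rw [mul_pow, sq (μ _), mul_assoc]
      exact mul_le_mul' le_rfl (mul_le_mul' h2 le_rfl)
    have hint : ∫⁻ z in K, ENNReal.ofReal ‖(Db σ (k + 1) (pe β σ (ε n) μ p u (k + 1)) z
        - D σ (k - 1) (pe β σ (ε n) μ p u (k - 1)) z) ^ 2‖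
        ≤ ENNReal.ofReal ((2 * C / ε n) ^ 2 * (C1 * (C * ε n))
          * (M * ((C * ε n) ^ 2 * Real.pi))) := by
      refine (setLIntegral_mono' hK.measurableSet hpt2).trans ?_
      have hpi : (NNReal.pi : ENNReal) = ENNReal.ofReal Real.pi := by
        rw [ENNReal.ofReal, ← NNReal.coe_real_pi, Real.toNNReal_coe]
      have hn0 : 0 ≤ (2 * C / ε n) ^ 2 * (C1 * (C * ε n)) := by (clear * - hCa hεn; positivity)
      rw [lintegral_const_mul' _ _ ENNReal.ofReal_ne_top, ENNReal.ofReal_mul hn0]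
      refine mul_le_mul' le_rfl ?_
      refine (PEG.swap μ p hD.mp K1 _ hK1c.measurableSet hK.measurableSet 0 s (C * ε n) hs).trans ?_
      rw [ENNReal.ofReal_mul hM0, ENNReal.ofReal_mul (p := (C * ε n) ^ 2) (by positivity), hpi,
        ENNReal.ofReal_pow hρ0.le, hM, ENNReal.ofReal_toReal hD.fin]
      exact mul_le_mul' (measure_mono (subset_univ _)) le_rfl
    have hfin := PEG.int_norm_le _ K _ (by (clear * - hCa hεn; positivity)) hint
    simp only [norm_pow] at hfin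
    refine hfin.trans (le_of_eq ?_)
    rw [hY]
    field_simp
    ring
  refine squeeze_zero' (Eventually.of_forall fun n => integral_nonneg fun z => by positivity) hev ?_
  have := hε0.const_mul Y
  rwa [mul_zero] at this

end

end U3


end

section

/-!
DENS: density of the trigonometric polynomials with test functions as coefficients.
-/

open Complex MeasureTheory Filter Topology Set
open scoped ContDiff

namespace U3

open QE QJ

noncomputable section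

namespace DENS

/-- trigonometric polynomials with smooth coefficients, on the unit circle -/
def Pol (g : ℂ × ℂ → ℂ) : Prop :=
  ∃ (ι : Type) (s : Finset ι) (k : ι → ℤ) (f : ι → ℂ → ℂ), (∀ i, ContDiff ℝ ∞ (f i)) ∧
    ∀ x : ℂ × ℂ, ‖x.2‖ = 1 → g x = ∑ i ∈ s, f i x.1 * x.2 ^ (k i)

theorem Pol.add {g g' : ℂ × ℂ → ℂ} (h : Pol g) (h' : Pol g') : Pol (fun x => g x + g' x) := by
  obtain ⟨ι, s, k, f, hf, he⟩ := h
  obtain ⟨ι', s', k', f', hf', he'⟩ := h'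
  refine ⟨ι ⊕ ι', s.disjSum s', Sum.elim k k', Sum.elim f f', ?_, ?_⟩
  · rintro (i | i)
    · exact hf i
    · exact hf' i
  · intro x hx
    rw [Finset.sum_disjSum]
    beta_reduce
    rw [he x hx, he' x hx]
    rfl

theorem Pol.mul {g g' : ℂ × ℂ → ℂ} (h : Pol g) (h' : Pol g') : Pol (fun x => g x * g' x) := by
  obtain ⟨ι, s, k, f, hf, he⟩ := h
  obtain ⟨ι', s', k', f', hf', he'⟩ := h'
  refine ⟨ι × ι', s ×ˢ s', fun p => k p.1 + k' p.2, fun p z => f p.1 z * f' p.2 z, ?_, ?_⟩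
  · intro p
    exact (hf p.1).mul (hf' p.2)
  · intro x hx
    have hx0 : x.2 ≠ 0 := by
      intro h0; rw [h0, norm_zero] at hx; exact zero_ne_one hx
    beta_reduce
    rw [he x hx, he' x hx, Finset.sum_mul_sum, Finset.sum_product]
    refine Finset.sum_congr rfl fun i _ => Finset.sum_congr rfl fun j _ => ?_
    simp only
    rw [zpow_add₀ hx0]; ring

theorem Pol.const (c : ℂ) : Pol (fun _ => c) := by
  refine ⟨Unit, {()}, fun _ => 0, fun _ _ => c, fun _ => contDiff_const, ?_⟩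
  intro x _
  simp

theorem Pol.fst : Pol (fun x => x.1) := by
  refine ⟨Unit, {()}, fun _ => 0, fun _ z => z, fun _ => contDiff_id, ?_⟩
  intro x _
  simp

theorem Pol.snd : Pol (fun x => x.2) := by
  refine ⟨Unit, {()}, fun _ => 1, fun _ _ => 1, fun _ => contDiff_const, ?_⟩
  intro x _
  simp

theorem Pol.star {g : ℂ × ℂ → ℂ} (h : Pol g) : Pol (fun x => (starRingEnd ℂ) (g x)) := by
  obtain ⟨ι, s, k, f, hf, he⟩ := h
  refine ⟨ι, s, fun i => - k i, fun i z => (starRingEnd ℂ) (f i z), ?_, ?_⟩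
  · intro i
    exact Complex.conjCLE.contDiff.comp (hf i)
  · intro x hx
    beta_reduce
    rw [he x hx, map_sum]
    refine Finset.sum_congr rfl fun i _ => ?_
    have h1 : (starRingEnd ℂ) x.2 = (x.2)⁻¹ := by
      rw [Complex.inv_def, Complex.normSq_eq_norm_sq, hx]; simp
    rw [map_mul, map_zpow₀, h1, inv_zpow, zpow_neg]

/-- the star subalgebra of trigonometric polynomials on a subset of `ℂ × circle` -/
def alg (Y : Set (ℂ × ℂ)) : StarSubalgebra ℂ C(Y, ℂ) where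
  carrier := {g | ∃ p, Pol p ∧ ∀ y : Y, g y = p y.1}
  mul_mem' := by
    rintro a b ⟨p, hp, ha⟩ ⟨q, hq, hb⟩
    exact ⟨_, hp.mul hq, fun y => by rw [ContinuousMap.mul_apply, ha y, hb y]⟩
  add_mem' := by
    rintro a b ⟨p, hp, ha⟩ ⟨q, hq, hb⟩
    exact ⟨_, hp.add hq, fun y => by rw [ContinuousMap.add_apply, ha y, hb y]⟩
  algebraMap_mem' := fun c => ⟨_, Pol.const c, fun _ => rfl⟩
  star_mem' := by
    rintro a ⟨p, hp, ha⟩
    exact ⟨_, hp.star, fun y => by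
      rw [ContinuousMap.star_apply, ha y]; rfl⟩

theorem alg_sep (Y : Set (ℂ × ℂ)) : (alg Y).SeparatesPoints := by
  intro x y hxy
  by_cases h1 : x.1.1 = y.1.1
  · have h2 : x.1.2 ≠ y.1.2 := by
      intro h2; exact hxy (Subtype.ext (Prod.ext h1 h2))
    refine ⟨fun y => y.1.2, ⟨⟨fun y => y.1.2, by fun_prop⟩, ⟨_, Pol.snd, fun _ => rfl⟩, rfl⟩, h2⟩
  · refine ⟨fun y => y.1.1, ⟨⟨fun y => y.1.1, by fun_prop⟩, ⟨_, Pol.fst, fun _ => rfl⟩, rfl⟩, h1⟩

theorem approx {L : Set ℂ} (hL : IsCompact L) {H : ℂ × ℂ → ℂ} (hH : Continuous H) {δ : ℝ}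
    (hδ : 0 < δ) : ∃ p, Pol p ∧ ∀ x : ℂ × ℂ, x.1 ∈ L → ‖x.2‖ = 1 → ‖H x - p x‖ ≤ δ := by
  have hY : IsCompact (L ×ˢ Metric.sphere (0 : ℂ) 1) := hL.prod (isCompact_sphere 0 1)
  set Y := L ×ˢ Metric.sphere (0 : ℂ) 1 with hYdef
  have : CompactSpace Y := isCompact_iff_compactSpace.mp hY
  have htop := ContinuousMap.starSubalgebra_topologicalClosure_eq_top_of_separatesPoints (alg Y)
    (alg_sep Y)
  let H' : C(Y, ℂ) := ⟨fun y => H y.1, by fun_prop⟩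
  have hmem : H' ∈ (alg Y).topologicalClosure := by rw [htop]; exact StarSubalgebra.mem_top
  have hcl : H' ∈ closure ((alg Y : Set C(Y, ℂ))) := hmem
  obtain ⟨g, ⟨p, hp, hg⟩, hd⟩ := Metric.mem_closure_iff.mp hcl δ hδ
  refine ⟨p, hp, fun x hx1 hx2 => ?_⟩
  have hxY : x ∈ Y := ⟨hx1, by simpa using hx2⟩
  have h1 := (H' - g).norm_coe_le_norm ⟨x, hxY⟩
  rw [dist_eq_norm] at hd
  rw [ContinuousMap.sub_apply, hg ⟨x, hxY⟩] at h1
  exact h1.trans hd.le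

end DENS

open _root_.U3.DENS in
theorem stmtDens : StmtDens := by
  intro O θ hO hθ hsupp F hF hFb hFO ε hε
  obtain ⟨C, hC⟩ := hFb
  have hC0 : 0 ≤ C := (norm_nonneg _).trans (hC 0)
  have : IsFiniteMeasure θ := ⟨lt_top_iff_ne_top.mpr hθ⟩
  have : IsFiniteMeasure (θ.map Prod.fst) := Measure.isFiniteMeasure_map θ _
  -- the compact set
  have hε1 : 0 < ε / (36 * (C ^ 2 + 1)) := by positivity
  obtain ⟨K, hKO, hK, hKm⟩ := hO.measurableSet.exists_isCompact_sdiff_lt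
    (μ := θ.map Prod.fst) (measure_ne_top _ _) (ENNReal.ofReal_pos.mpr hε1).ne'
  have hA : MeasurableSet (O \ K) := hO.measurableSet.diff hK.measurableSet
  rw [Measure.map_apply measurable_fst hA] at hKm
  set A : Set (ℂ × ℂ) := Prod.fst ⁻¹' (O \ K) with hAdef
  have hAm : MeasurableSet A := measurable_fst hA
  obtain ⟨χ, hχ, hχ1, hχ2⟩ := exists_cutoff hO hK hKO
  -- the continuous function
  have hFm : MemLp F (ENNReal.ofReal 2) θ :=
    MemLp.of_bound hF.aestronglyMeasurable C (Eventually.of_forall hC)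
  obtain ⟨H, hHs, hHi, hHc, hHm⟩ := hFm.exists_hasCompactSupport_integral_rpow_sub_le
    (p := 2) (by norm_num) (ε := ε / 9) (by positivity)
  have hHi' : ∫ x, ‖F x - H x‖ ^ 2 ∂θ ≤ ε / 9 := by
    refine le_of_eq_of_le (integral_congr_ae (Eventually.of_forall fun x => ?_)) hHi
    beta_reduce
    rw [Real.rpow_two]
  set M : ℝ := θ.real Set.univ with hM
  have hM0 : 0 ≤ M := measureReal_nonneg
  set δ : ℝ := Real.sqrt (ε / (9 * (M + 1))) with hδdef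
  have hδ : 0 < δ := Real.sqrt_pos.mpr (by positivity)
  have hδ2 : δ ^ 2 = ε / (9 * (M + 1)) := Real.sq_sqrt (by positivity)
  obtain ⟨p, ⟨ι, s, k, f, hf, hp⟩, hHp⟩ := approx hχ.supp hHc hδ
  classical
  refine ⟨s.image k, fun j z => χ z * ∑ i ∈ s with k i = j, f i z, ?_, ?_⟩
  · intro j
    exact hχ.mul hO (ContDiff.sum fun i _ => hf i).contDiffOn
  · have hae : ∀ᵐ x ∂θ, ‖x.2‖ = 1 := by
      rw [ae_iff]; exact hsupp
    have hbd : ∀ᵐ x ∂θ, ‖F x - ∑ j ∈ s.image k, (χ x.1 * ∑ i ∈ s with k i = j, f i x.1) * x.2 ^ j‖ ^ 2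
        ≤ 3 * (A.indicator (fun _ => 4 * C ^ 2) x + ‖F x - H x‖ ^ 2 + δ ^ 2) := by
      filter_upwards [hae] with x hx
      have e1 : ∑ j ∈ s.image k, (χ x.1 * ∑ i ∈ s with k i = j, f i x.1) * x.2 ^ j = χ x.1 * p x := by
        rw [hp x hx, ← Finset.sum_fiberwise_of_maps_to (s := s) (t := s.image k) (g := k)
          (fun i hi => Finset.mem_image_of_mem k hi), Finset.mul_sum]
        refine Finset.sum_congr rfl fun j _ => ?_
        rw [mul_assoc, Finset.sum_mul]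
        congr 1
        refine Finset.sum_congr rfl fun i hi => ?_
        rw [(Finset.mem_filter.mp hi).2]
      rw [e1]
      have e2 : F x - χ x.1 * p x
          = (1 - χ x.1) * F x + χ x.1 * (F x - H x) + χ x.1 * (H x - p x) := by ring
      have b1 : ‖(1 - χ x.1) * F x‖ ^ 2 ≤ A.indicator (fun _ => 4 * C ^ 2) x := by
        by_cases hxA : x ∈ A
        · rw [Set.indicator_of_mem hxA]
          have h1 : ‖(1 - χ x.1) * F x‖ ≤ 2 * C := by
            rw [norm_mul]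
            have h2 : ‖1 - χ x.1‖ ≤ 2 := by
              refine (norm_sub_le _ _).trans ?_
              rw [norm_one]; linarith [hχ2 x.1]
            exact mul_le_mul h2 (hC x) (norm_nonneg _) (by norm_num)
          calc ‖(1 - χ x.1) * F x‖ ^ 2 ≤ (2 * C) ^ 2 := pow_le_pow_left₀ (norm_nonneg _) h1 2
            _ = 4 * C ^ 2 := by ring
        · rw [Set.indicator_of_notMem hxA]
          have h0 : (1 - χ x.1) * F x = 0 := by
            by_cases hxO : x.1 ∈ O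
            · have hxK : x.1 ∈ K := by
                by_contra hxK; exact hxA ⟨hxO, hxK⟩
              rw [(hχ1 x.1 hxK).self_of_nhds, sub_self, zero_mul]
            · rw [hFO x hxO, mul_zero]
          rw [h0, norm_zero]; norm_num
      have b2 : ‖χ x.1 * (F x - H x)‖ ^ 2 ≤ ‖F x - H x‖ ^ 2 := by
        refine pow_le_pow_left₀ (norm_nonneg _) ?_ 2
        rw [norm_mul]
        exact mul_le_of_le_one_left (norm_nonneg _) (hχ2 _)
      have b3 : ‖χ x.1 * (H x - p x)‖ ^ 2 ≤ δ ^ 2 := by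
        refine pow_le_pow_left₀ (norm_nonneg _) ?_ 2
        by_cases hxs : x.1 ∈ tsupport χ
        · rw [norm_mul]
          exact (mul_le_of_le_one_left (norm_nonneg _) (hχ2 _)).trans (hHp x hxs hx)
        · rw [image_eq_zero_of_notMem_tsupport hxs, zero_mul, norm_zero]; exact hδ.le
      have b4 : ‖F x - χ x.1 * p x‖ ^ 2
          ≤ 3 * (‖(1 - χ x.1) * F x‖ ^ 2 + ‖χ x.1 * (F x - H x)‖ ^ 2
            + ‖χ x.1 * (H x - p x)‖ ^ 2) := by
        rw [e2]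
        have h3 := norm_add₃_le (a := (1 - χ x.1) * F x) (b := χ x.1 * (F x - H x))
          (c := χ x.1 * (H x - p x))
        have h4 := pow_le_pow_left₀ (norm_nonneg _) h3 2
        refine h4.trans ?_
        linarith only [sq_nonneg (‖(1 - χ x.1) * F x‖ - ‖χ x.1 * (F x - H x)‖), sq_nonneg (‖(1 - χ x.1) * F x‖ - ‖χ x.1 * (H x - p x)‖), sq_nonneg (‖χ x.1 * (F x - H x)‖ - ‖χ x.1 * (H x - p x)‖)]
      linarith
    have i1 : Integrable (A.indicator (fun _ => 4 * C ^ 2)) θ :=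
      (integrable_const _).indicator hAm
    have i2 : Integrable (fun x => ‖F x - H x‖ ^ 2) θ := by
      have h2 : MemLp (fun x => F x - H x) 2 θ := by
        have h3 : MemLp (F - H) 2 θ := by
          have h4 := hFm.sub hHm
          simpa using h4
        exact h3
      exact h2.integrable_norm_pow (by norm_num)
    have i3 : Integrable (fun _ : ℂ × ℂ => δ ^ 2) θ := integrable_const _
    have i4 : Integrable (fun x => 3 * (A.indicator (fun _ => 4 * C ^ 2) x + ‖F x - H x‖ ^ 2 + δ ^ 2)) θ :=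
      ((i1.add i2).add i3).const_mul 3
    refine (integral_mono_of_nonneg (Eventually.of_forall fun x => by positivity) i4 hbd).trans ?_
    have e5 : ∫ x, (A.indicator (fun _ => 4 * C ^ 2) x + ‖F x - H x‖ ^ 2 + δ ^ 2) ∂θ
        = (∫ x, A.indicator (fun _ => 4 * C ^ 2) x ∂θ) + (∫ x, ‖F x - H x‖ ^ 2 ∂θ)
          + ∫ _x : ℂ × ℂ, δ ^ 2 ∂θ := by
      have e6 := integral_add (i1.add i2) i3
      have e7 := integral_add i1 i2
      simp only [Pi.add_apply] at e6 e7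
      rw [e6, e7]
    rw [integral_const_mul, e5, integral_const, integral_indicator hAm, setIntegral_const]
    have c1 : θ.real A • (4 * C ^ 2) ≤ ε / 9 := by
      have h1 : θ.real A ≤ ε / (36 * (C ^ 2 + 1)) := by
        rw [Measure.real]
        exact ENNReal.toReal_le_of_le_ofReal hε1.le hKm.le
      rw [smul_eq_mul]
      calc θ.real A * (4 * C ^ 2) ≤ ε / (36 * (C ^ 2 + 1)) * (4 * C ^ 2) :=
            mul_le_mul_of_nonneg_right h1 (by positivity)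
        _ ≤ ε / (36 * (C ^ 2 + 1)) * (4 * (C ^ 2 + 1)) :=
            mul_le_mul_of_nonneg_left (by linarith) hε1.le
        _ = ε / 9 := by field_simp; norm_num
    have c3 : θ.real Set.univ • δ ^ 2 ≤ ε / 9 := by
      rw [smul_eq_mul, hδ2, ← hM]
      calc M * (ε / (9 * (M + 1))) ≤ (M + 1) * (ε / (9 * (M + 1))) :=
            mul_le_mul_of_nonneg_right (by linarith) (by positivity)
        _ = ε / 9 := by field_simp
    linarith

end

end U3


end
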