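import Mathlib
import Pool.Agent.BWM.C01
import Pool.Agent.BWM.C17

/-! Parts: QJ.CAC, QJ.PTW, U3.POI, U3.ALTS, U3.APX, U3.PEW, U3.WKS -/

section

/-!
CAC: Caccioppoli inequality.
-/

open Complex MeasureTheory Filter Topology Set
open scoped ContDiff

namespace QJ

open QE

noncomputable section

namespace CAC

theorem cd_d1 {u : ℂ → ℝ} (hu : ContDiff ℝ ∞ u) : ContDiff ℝ ∞ (d1 u) :=
  (hu.fderiv_right (m := ∞) (by simp)).clm_apply contDiff_const

theorem cd_d2 {u : ℂ → ℝ} (hu : ContDiff ℝ ∞ u) : ContDiff ℝ ∞ (d2 u) :=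
  (hu.fderiv_right (m := ∞) (by simp)).clm_apply contDiff_const

theorem int_zero {F : ℂ → ℝ} (hF : ContDiff ℝ ∞ F) (hc : HasCompactSupport F) (v : ℂ) :
    ∫ z, fderiv ℝ F z v = 0 := by
  have h1 : Continuous fun z => fderiv ℝ F z v :=
    (hF.continuous_fderiv (by simp)).clm_apply continuous_const
  have h2 : HasCompactSupport fun z => fderiv ℝ F z v := by
    have := hc.fderiv (𝕜 := ℝ)
    exact this.comp_left (g := fun L : ℂ →L[ℝ] ℝ => L v) (by simp)
  have h := integral_mul_fderiv_eq_neg_fderiv_mul_of_integrable (𝕜 := ℝ) (μ := volume)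
    (f := fun _ : ℂ => (1 : ℝ)) (g := F) (v := v) (by simp)
    (by simpa using h1.integrable_of_hasCompactSupport h2)
    (by simpa using hF.continuous.integrable_of_hasCompactSupport hc)
    (fun x _ => differentiableAt_const _) (fun x _ => (hF.differentiable (by simp)) x)
  simpa using h

theorem prod_rule {c u w : ℂ → ℝ} (hc : ContDiff ℝ ∞ c) (hu : ContDiff ℝ ∞ u)
    (hw : ContDiff ℝ ∞ w) (z v : ℂ) :
    fderiv ℝ (fun z => c z ^ 2 * u z * w z) z v =
      2 * c z * fderiv ℝ c z v * u z * w z + c z ^ 2 * fderiv ℝ u z v * w z +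
        c z ^ 2 * u z * fderiv ℝ w z v := by
  have h1 := (hc.differentiable (by simp) z).hasFDerivAt
  have h2 := (hu.differentiable (by simp) z).hasFDerivAt
  have h3 := (hw.differentiable (by simp) z).hasFDerivAt
  have h4 : HasFDerivAt (fun z => c z ^ 2 * u z * w z) _ z := ((h1.pow 2).mul h2).mul h3
  rw [h4.fderiv]
  simp
  ring

/-- The integral of the divergence of the vector field `χ² u ∇u`. -/
theorem div_zero {c u : ℂ → ℝ} (hc : ContDiff ℝ ∞ c) (hu : ContDiff ℝ ∞ u)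
    (hcc : HasCompactSupport c) :
    ∫ z, (2 * c z * u z * (d1 c z * d1 u z + d2 c z * d2 u z) +
      c z ^ 2 * (d1 u z ^ 2 + d2 u z ^ 2) + c z ^ 2 * u z * lap u z) = 0 := by
  have hF : ∀ w : ℂ → ℝ, ContDiff ℝ ∞ w → ContDiff ℝ ∞ fun z => c z ^ 2 * u z * w z :=
    fun w hw => ((hc.pow 2).mul hu).mul hw
  have hS : ∀ w : ℂ → ℝ, HasCompactSupport fun z => c z ^ 2 * u z * w z := by
    intro w
    refine HasCompactSupport.intro hcc fun z hz => ?_
    rw [image_eq_zero_of_notMem_tsupport hz]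
    simp
  have h1 := int_zero (hF _ (cd_d1 hu)) (hS (d1 u)) 1
  have h2 := int_zero (hF _ (cd_d2 hu)) (hS (d2 u)) Complex.I
  have hint : ∀ (w : ℂ → ℝ) (v : ℂ), ContDiff ℝ ∞ w →
      Integrable fun z => fderiv ℝ (fun z => c z ^ 2 * u z * w z) z v := by
    intro w v hw
    refine Continuous.integrable_of_hasCompactSupport
      (((hF w hw).continuous_fderiv (by simp)).clm_apply continuous_const) ?_
    exact ((hS w).fderiv (𝕜 := ℝ)).comp_left (g := fun L : ℂ →L[ℝ] ℝ => L v) (by simp)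
  have h3 := integral_add (hint _ 1 (cd_d1 hu)) (hint _ Complex.I (cd_d2 hu))
  rw [h1, h2, add_zero] at h3
  rw [← h3]
  refine integral_congr_ae (Filter.Eventually.of_forall fun z => ?_)
  simp only
  rw [prod_rule hc hu (cd_d1 hu), prod_rule hc hu (cd_d2 hu)]
  simp only [lap, d1, d2]
  ring

/-- The cutoff at scale one. -/
def bb : ContDiffBump (0 : ℂ) := ⟨2, 5 / 2, by norm_num, by norm_num⟩

/-- The cutoff. -/
def chi (z₀ : ℂ) (r : ℝ) (z : ℂ) : ℝ := bb (r⁻¹ • (z - z₀))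

theorem bb_smooth : ContDiff ℝ ∞ (bb : ℂ → ℝ) := bb.contDiff

theorem chi_smooth (z₀ : ℂ) (r : ℝ) : ContDiff ℝ ∞ (chi z₀ r) :=
  bb_smooth.comp ((contDiff_id.sub contDiff_const).const_smul r⁻¹)

theorem exists_bound : ∃ C0 : ℝ, 0 < C0 ∧ ∀ z, ‖fderiv ℝ (bb : ℂ → ℝ) z‖ ≤ C0 := by
  have h1 : Continuous (fderiv ℝ (bb : ℂ → ℝ)) :=
    bb_smooth.continuous_fderiv (by simp)
  have h2 : HasCompactSupport (fderiv ℝ (bb : ℂ → ℝ)) := bb.hasCompactSupport.fderiv (𝕜 := ℝ)
  obtain ⟨C, hC⟩ := h2.exists_bound_of_continuous h1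
  exact ⟨max C 1, lt_of_lt_of_le one_pos (le_max_right _ _), fun z => (hC z).trans (le_max_left _ _)⟩

theorem chi_deriv (z₀ : ℂ) (r : ℝ) (z v : ℂ) :
    fderiv ℝ (chi z₀ r) z v = r⁻¹ * fderiv ℝ (bb : ℂ → ℝ) (r⁻¹ • (z - z₀)) v := by
  have h1 : HasFDerivAt (fun z : ℂ => r⁻¹ • (z - z₀)) (r⁻¹ • ContinuousLinearMap.id ℝ ℂ) z :=
    ((hasFDerivAt_id z).sub_const z₀).const_smul r⁻¹
  have h2 := ((bb_smooth.differentiable (by simp)) (r⁻¹ • (z - z₀))).hasFDerivAt
  have h3 := (h2.comp z h1).fderiv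
  have h4 : (chi z₀ r) = (bb : ℂ → ℝ) ∘ fun z : ℂ => r⁻¹ • (z - z₀) := rfl
  rw [h4, h3]
  simp

theorem chi_one {z₀ : ℂ} {r : ℝ} (hr : 0 < r) {z : ℂ}
    (hz : z ∈ Metric.closedBall z₀ (2 * r)) : chi z₀ r z = 1 := by
  unfold chi
  apply bb.one_of_mem_closedBall
  rw [mem_closedBall_zero_iff, norm_smul, Real.norm_eq_abs, abs_of_pos (inv_pos.2 hr)]
  rw [Metric.mem_closedBall, dist_eq_norm] at hz
  change r⁻¹ * ‖z - z₀‖ ≤ 2
  rw [inv_mul_le_iff₀ hr]
  linarith

theorem chi_zero {z₀ : ℂ} {r : ℝ} (hr : 0 < r) {z : ℂ}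
    (hz : z ∉ Metric.closedBall z₀ (3 * r)) : chi z₀ r z = 0 := by
  unfold chi
  apply bb.zero_of_le_dist
  rw [dist_zero_right, norm_smul, Real.norm_eq_abs, abs_of_pos (inv_pos.2 hr)]
  rw [Metric.mem_closedBall, dist_eq_norm, not_le] at hz
  change 5 / 2 ≤ r⁻¹ * ‖z - z₀‖
  rw [le_inv_mul_iff₀ hr]
  linarith only [hr, hz]

end CAC

open _root_.QJ.CAC in
theorem stmtCac : StmtCac := by
  intro G
  obtain ⟨C0, hC0, hb⟩ := exists_bound
  refine ⟨2 * (4 * C0 ^ 2 + |G|), by positivity, ?_⟩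
  intro u g z₀ h r hu hh hhr hg heq
  have hr : 0 < r := lt_of_lt_of_le hh hhr
  set c := chi z₀ r with hcdef
  have hc : ContDiff ℝ ∞ c := chi_smooth z₀ r
  have hcc : HasCompactSupport c :=
    HasCompactSupport.intro (isCompact_closedBall z₀ (3 * r)) fun z hz => chi_zero hr hz
  set B := Metric.closedBall z₀ (3 * r) with hBdef
  set Dv : ℂ → ℝ := fun z => 2 * c z * u z * (d1 c z * d1 u z + d2 c z * d2 u z) +
      c z ^ 2 * (d1 u z ^ 2 + d2 u z ^ 2) + c z ^ 2 * u z * lap u z with hDv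
  have hDint : ∫ z, Dv z = 0 := div_zero hc hu hcc
  have hDcont : Continuous Dv := by
    have c1 := hc.continuous
    have c2 := hu.continuous
    have c3 := (cd_d1 hc).continuous
    have c4 := (cd_d2 hc).continuous
    have c5 := (cd_d1 hu).continuous
    have c6 := (cd_d2 hu).continuous
    have c7 : Continuous (lap u) :=
      ((cd_d1 (cd_d1 hu)).continuous).add ((cd_d2 (cd_d2 hu)).continuous)
    rw [hDv]
    fun_prop
  have hDsupp : HasCompactSupport Dv := by
    refine HasCompactSupport.intro hcc fun z hz => ?_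
    rw [hDv]
    simp only
    rw [image_eq_zero_of_notMem_tsupport hz]
    simp
  have hDi : Integrable Dv := hDcont.integrable_of_hasCompactSupport hDsupp
  -- the derivative of the cutoff
  have hgrad : ∀ z, h ^ 2 * (d1 c z ^ 2 + d2 c z ^ 2) ≤ 2 * C0 ^ 2 := by
    intro z
    have hq : h * r⁻¹ ≤ 1 := by
      rw [← div_eq_mul_inv, div_le_one hr]
      exact hhr
    have hq0 : 0 ≤ h * r⁻¹ := by positivity
    have e1 : d1 c z = r⁻¹ * fderiv ℝ (bb : ℂ → ℝ) (r⁻¹ • (z - z₀)) 1 := chi_deriv z₀ r z 1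
    have e2 : d2 c z = r⁻¹ * fderiv ℝ (bb : ℂ → ℝ) (r⁻¹ • (z - z₀)) Complex.I :=
      chi_deriv z₀ r z Complex.I
    have f1 : |fderiv ℝ (bb : ℂ → ℝ) (r⁻¹ • (z - z₀)) 1| ≤ C0 := by
      have := (fderiv ℝ (bb : ℂ → ℝ) (r⁻¹ • (z - z₀))).le_opNorm 1
      rw [norm_one, mul_one, Real.norm_eq_abs] at this
      exact this.trans (hb _)
    have f2 : |fderiv ℝ (bb : ℂ → ℝ) (r⁻¹ • (z - z₀)) Complex.I| ≤ C0 := by
      have := (fderiv ℝ (bb : ℂ → ℝ) (r⁻¹ • (z - z₀))).le_opNorm Complex.I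
      rw [Complex.norm_I, mul_one, Real.norm_eq_abs] at this
      exact this.trans (hb _)
    rw [e1, e2]
    set p := fderiv ℝ (bb : ℂ → ℝ) (r⁻¹ • (z - z₀)) 1
    set q := fderiv ℝ (bb : ℂ → ℝ) (r⁻¹ • (z - z₀)) Complex.I
    have g1 : p ^ 2 ≤ C0 ^ 2 := sq_le_sq' (abs_le.1 f1).1 (abs_le.1 f1).2
    have g2 : q ^ 2 ≤ C0 ^ 2 := sq_le_sq' (abs_le.1 f2).1 (abs_le.1 f2).2
    have g3 : (h * r⁻¹) ^ 2 ≤ 1 := pow_le_one₀ hq0 hq
    calc h ^ 2 * ((r⁻¹ * p) ^ 2 + (r⁻¹ * q) ^ 2) = (h * r⁻¹) ^ 2 * (p ^ 2 + q ^ 2) := by ring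
      _ ≤ 1 * (C0 ^ 2 + C0 ^ 2) := by
        apply mul_le_mul g3 (add_le_add g1 g2) (by positivity) (by norm_num)
      _ = 2 * C0 ^ 2 := by ring
  have hc1 : ∀ z, c z ^ 2 ≤ 1 := by
    intro z
    have h1 : 0 ≤ c z := bb.nonneg
    have h2 : c z ≤ 1 := bb.le_one
    exact pow_le_one₀ h1 h2
  -- the pointwise inequality
  have hpt : ∀ z, 1 / 2 * (h ^ 2 * (c z ^ 2 * (d1 u z ^ 2 + d2 u z ^ 2))) ≤
      h ^ 2 * Dv z + (4 * C0 ^ 2 + |G|) * B.indicator (fun z => u z ^ 2) z := by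
    intro z
    by_cases hz : z ∈ B
    · rw [indicator_of_mem hz]
      have e1 : h ^ 2 * Dv z = h ^ 2 * (2 * c z * u z * (d1 c z * d1 u z + d2 c z * d2 u z)) +
          h ^ 2 * (c z ^ 2 * (d1 u z ^ 2 + d2 u z ^ 2)) - g z * (c z ^ 2 * u z ^ 2) := by
        have := heq z hz
        rw [hDv]
        calc _ = h ^ 2 * (2 * c z * u z * (d1 c z * d1 u z + d2 c z * d2 u z)) +
            h ^ 2 * (c z ^ 2 * (d1 u z ^ 2 + d2 u z ^ 2)) +
              c z ^ 2 * u z * (h ^ 2 * lap u z) := by ring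
          _ = _ := by rw [this]; ring
      have e2 : g z * (c z ^ 2 * u z ^ 2) ≤ |G| * u z ^ 2 := by
        have h1 : g z ≤ |G| := (le_abs_self _).trans ((hg z hz).trans (le_abs_self _))
        calc g z * (c z ^ 2 * u z ^ 2) ≤ |G| * (c z ^ 2 * u z ^ 2) :=
              mul_le_mul_of_nonneg_right h1 (by positivity)
          _ ≤ |G| * (1 * u z ^ 2) := by
              apply mul_le_mul_of_nonneg_left _ (abs_nonneg G)
              exact mul_le_mul_of_nonneg_right (hc1 z) (sq_nonneg _)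
          _ = |G| * u z ^ 2 := by ring
      have e3 : -(h ^ 2 * (2 * c z * u z * (d1 c z * d1 u z + d2 c z * d2 u z))) ≤
          1 / 2 * (h ^ 2 * (c z ^ 2 * (d1 u z ^ 2 + d2 u z ^ 2))) +
            2 * u z ^ 2 * (h ^ 2 * (d1 c z ^ 2 + d2 c z ^ 2)) := by
        have k1 : 0 ≤ h ^ 2 * ((c z * d1 u z + 2 * (u z * d1 c z)) ^ 2 +
            (c z * d2 u z + 2 * (u z * d2 c z)) ^ 2) := by positivity
        linarith only [k1]
      have e4 : 2 * u z ^ 2 * (h ^ 2 * (d1 c z ^ 2 + d2 c z ^ 2)) ≤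
          2 * u z ^ 2 * (2 * C0 ^ 2) :=
        mul_le_mul_of_nonneg_left (hgrad z) (by positivity)
      rw [e1]
      linarith only [e2, e3, e4]
    · rw [indicator_of_notMem hz, hDv]
      have hz0 : c z = 0 := chi_zero hr hz
      simp [hz0]
  -- integration
  have hPcont : Continuous fun z => h ^ 2 * (c z ^ 2 * (d1 u z ^ 2 + d2 u z ^ 2)) := by
    have c1 := hc.continuous
    have c5 := (cd_d1 hu).continuous
    have c6 := (cd_d2 hu).continuous
    fun_prop
  have hPsupp : HasCompactSupport fun z => h ^ 2 * (c z ^ 2 * (d1 u z ^ 2 + d2 u z ^ 2)) := by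
    refine HasCompactSupport.intro hcc fun z hz => ?_
    rw [image_eq_zero_of_notMem_tsupport hz]
    simp
  have hPi := hPcont.integrable_of_hasCompactSupport (μ := volume) hPsupp
  have hBi : IntegrableOn (fun z => u z ^ 2) B volume :=
    (hu.continuous.pow 2).continuousOn.integrableOn_compact (isCompact_closedBall _ _)
  have hIi : Integrable (B.indicator fun z => u z ^ 2) volume :=
    hBi.integrable_indicator Metric.isClosed_closedBall.measurableSet
  have hmono := integral_mono (hPi.const_mul (1 / 2))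
    ((hDi.const_mul (h ^ 2)).add (hIi.const_mul (4 * C0 ^ 2 + |G|))) hpt
  have hI1 : ∫ z, 1 / 2 * (h ^ 2 * (c z ^ 2 * (d1 u z ^ 2 + d2 u z ^ 2))) =
      1 / 2 * ∫ z, h ^ 2 * (c z ^ 2 * (d1 u z ^ 2 + d2 u z ^ 2)) :=
    integral_const_mul (1 / 2) fun z => h ^ 2 * (c z ^ 2 * (d1 u z ^ 2 + d2 u z ^ 2))
  have hI2 : ∫ z, h ^ 2 * Dv z = 0 := by
    rw [integral_const_mul, hDint, mul_zero]
  have hI3 : ∫ z, (4 * C0 ^ 2 + |G|) * B.indicator (fun z => u z ^ 2) z =
      (4 * C0 ^ 2 + |G|) * ∫ z in B, u z ^ 2 := by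
    rw [integral_const_mul, integral_indicator Metric.isClosed_closedBall.measurableSet]
  have hI4 := integral_add (hDi.const_mul (h ^ 2)) (hIi.const_mul (4 * C0 ^ 2 + |G|))
  rw [hI2, hI3, zero_add] at hI4
  rw [hI1] at hmono
  have hmono2 : 1 / 2 * ∫ z, h ^ 2 * (c z ^ 2 * (d1 u z ^ 2 + d2 u z ^ 2)) ≤
      (4 * C0 ^ 2 + |G|) * ∫ z in B, u z ^ 2 := hI4 ▸ hmono
  have hfin : ∫ z in Metric.closedBall z₀ (2 * r), h ^ 2 * (d1 u z ^ 2 + d2 u z ^ 2) ≤
      ∫ z, h ^ 2 * (c z ^ 2 * (d1 u z ^ 2 + d2 u z ^ 2)) := by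
    have h1 : ∫ z in Metric.closedBall z₀ (2 * r), h ^ 2 * (d1 u z ^ 2 + d2 u z ^ 2) =
        ∫ z in Metric.closedBall z₀ (2 * r), h ^ 2 * (c z ^ 2 * (d1 u z ^ 2 + d2 u z ^ 2)) := by
      refine setIntegral_congr_fun Metric.isClosed_closedBall.measurableSet fun z hz => ?_
      have : c z = 1 := chi_one hr hz
      rw [this]
      ring
    rw [h1]
    exact setIntegral_le_integral hPi (Filter.Eventually.of_forall fun z => by
      change 0 ≤ h ^ 2 * (c z ^ 2 * (d1 u z ^ 2 + d2 u z ^ 2))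
      (clear * - hh; positivity))
  linarith only [hmono2, hfin]

end

end QJ


end

section

/-!
PTW: the jets are bounded by the local `L²` norm of `φ` at scale `h`.
-/

open Complex MeasureTheory Filter Topology Set
open scoped ContDiff

namespace QJ

open QE QE.EllAux

noncomputable section

namespace PTW

/-- the local `L²` norm at scale `h` -/
def SS (h : ℕ → ℝ) (φ : ℕ → ℂ → ℂ) (c : ℝ) (n : ℕ) (z : ℂ) : ℝ :=
  1 / h n ^ 2 * ∫ w in Metric.closedBall z (c * h n), ‖φ n w‖ ^ 2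

/-- pointwise bounds by the local `L²` norm at scale `h` -/
def PB (V : Set ℂ) (h : ℕ → ℝ) (φ : ℕ → ℂ → ℂ) (u : ℕ → ℂ → ℂ) : Prop :=
  ∀ K, IsCompact K → K ⊆ V → ∃ c C : ℝ, 0 < c ∧ 0 ≤ C ∧
    ∀ᶠ n in atTop, ∀ z ∈ K, ‖u n z‖ ≤ C * √(SS h φ c n z)

/-- the same for all the rescaled derivatives of order at most `k` -/
def PK (V : Set ℂ) (h : ℕ → ℝ) (φ : ℕ → ℂ → ℂ) : ℕ → (ℕ → ℂ → ℂ) → Prop
  | 0, u => PB V h φ u
  | k + 1, u => PB V h φ u ∧ PK V h φ k (fun n z => (h n : ℂ) * dz (u n) z)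
      ∧ PK V h φ k (fun n z => (h n : ℂ) * dzb (u n) z)

variable {V : Set ℂ} {h : ℕ → ℝ} {φ : ℕ → ℂ → ℂ}

lemma SS_nonneg (c : ℝ) (n : ℕ) (z : ℂ) : 0 ≤ SS h φ c n z := by
  unfold SS
  exact mul_nonneg (by positivity) (integral_nonneg fun w => by positivity)

lemma SS_le {n : ℕ} (hφ : Continuous (φ n)) {c c' : ℝ} {z z' : ℂ}
    (hs : Metric.closedBall z (c * h n) ⊆ Metric.closedBall z' (c' * h n)) :
    SS h φ c n z ≤ SS h φ c' n z' := by
  unfold SS
  refine mul_le_mul_of_nonneg_left ?_ (by positivity)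
  refine setIntegral_mono_set ?_ (Filter.Eventually.of_forall fun w => ?_) hs.eventuallyLE
  · exact (hφ.norm.pow 2).continuousOn.integrableOn_compact (isCompact_closedBall _ _)
  · show 0 ≤ ‖φ n w‖ ^ 2
    positivity

lemma SS_mono {n : ℕ} (hh : 0 < h n) (hφ : Continuous (φ n)) {c c' : ℝ} (hc : c ≤ c') (z : ℂ) :
    SS h φ c n z ≤ SS h φ c' n z :=
  SS_le hφ (Metric.closedBall_subset_closedBall (by gcongr))

lemma SS_shift {n : ℕ} (hφ : Continuous (φ n)) (c : ℝ) {z z' : ℂ}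
    (hz : dist z z' ≤ h n) : SS h φ c n z ≤ SS h φ (c + 1) n z' := by
  refine SS_le hφ fun w hw => ?_
  rw [Metric.mem_closedBall] at hw ⊢
  calc dist w z' ≤ dist w z + dist z z' := dist_triangle _ _ _
    _ ≤ c * h n + h n := add_le_add hw hz
    _ = _ := by ring

lemma PB.congr {u v : ℕ → ℂ → ℂ} (hu : PB V h φ u) (he : ∀ n, ∀ z ∈ V, u n z = v n z) :
    PB V h φ v := by
  intro K hK hKV
  obtain ⟨c, C, hc, hC, h1⟩ := hu K hK hKV
  refine ⟨c, C, hc, hC, ?_⟩
  filter_upwards [h1] with n hn z hz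
  rw [← he n z (hKV hz)]
  exact hn z hz

lemma PB.add (hh : ∀ n, 0 < h n) (hφ : ∀ n, Continuous (φ n)) {u v : ℕ → ℂ → ℂ}
    (hu : PB V h φ u) (hv : PB V h φ v) : PB V h φ (fun n z => u n z + v n z) := by
  intro K hK hKV
  obtain ⟨c, C, hc, hC, h1⟩ := hu K hK hKV
  obtain ⟨c', C', hc', hC', h2⟩ := hv K hK hKV
  refine ⟨max c c', C + C', lt_max_of_lt_left hc, add_nonneg hC hC', ?_⟩
  filter_upwards [h1, h2] with n hn hn' z hz
  have e1 := Real.sqrt_le_sqrt (SS_mono (hh n) (hφ n) (le_max_left c c') z)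
  have e2 := Real.sqrt_le_sqrt (SS_mono (hh n) (hφ n) (le_max_right c c') z)
  calc ‖u n z + v n z‖ ≤ ‖u n z‖ + ‖v n z‖ := norm_add_le _ _
    _ ≤ C * √(SS h φ c n z) + C' * √(SS h φ c' n z) := add_le_add (hn z hz) (hn' z hz)
    _ ≤ C * √(SS h φ (max c c') n z) + C' * √(SS h φ (max c c') n z) := by gcongr
    _ = _ := by ring

lemma PB.const_mul {u : ℕ → ℂ → ℂ} (hu : PB V h φ u) {c : ℕ → ℂ} {B : ℝ}
    (hc : ∀ᶠ n in atTop, ‖c n‖ ≤ B) : PB V h φ (fun n z => c n * u n z) := by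
  intro K hK hKV
  obtain ⟨c', C, hc', hC, h1⟩ := hu K hK hKV
  refine ⟨c', max B 0 * C, hc', mul_nonneg (le_max_right _ _) hC, ?_⟩
  filter_upwards [h1, hc] with n hn hcn z hz
  rw [norm_mul, mul_assoc]
  exact mul_le_mul (hcn.trans (le_max_left _ _)) (hn z hz) (norm_nonneg _) (le_max_right _ _)

lemma PB.fn_mul {u : ℕ → ℂ → ℂ} (hu : PB V h φ u) {b : ℂ → ℂ} (hb : ContinuousOn b V) :
    PB V h φ (fun n z => b z * u n z) := by
  intro K hK hKV
  obtain ⟨c', C, hc', hC, h1⟩ := hu K hK hKV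
  obtain ⟨B, hB⟩ := hK.exists_bound_of_continuousOn (hb.mono hKV)
  refine ⟨c', max B 0 * C, hc', mul_nonneg (le_max_right _ _) hC, ?_⟩
  filter_upwards [h1] with n hn z hz
  rw [norm_mul, mul_assoc]
  exact mul_le_mul ((hB z hz).trans (le_max_left _ _)) (hn z hz) (norm_nonneg _) (le_max_right _ _)

lemma PB.conj {u : ℕ → ℂ → ℂ} (hu : PB V h φ u) :
    PB V h φ (fun n z => (starRingEnd ℂ) (u n z)) := by
  intro K hK hKV
  obtain ⟨c, C, hc, hC, h1⟩ := hu K hK hKV
  refine ⟨c, C, hc, hC, ?_⟩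
  filter_upwards [h1] with n hn z hz
  rw [RCLike.norm_conj]
  exact hn z hz

/-- the interior estimate at scale `h` -/
lemma PB.ell (hV : IsOpen V) (hh : ∀ n, 0 < h n) (hh0 : Tendsto h atTop (𝓝 0))
    (hφ : ∀ n, Continuous (φ n)) {v : ℕ → ℂ → ℂ} (hv : SmoothSeq V v) (h1 : PB V h φ v)
    (h2 : PB V h φ (hLap h v)) : PB V h φ (fun n z => (h n : ℂ) * dz (v n) z) := by
  intro K hK hKV
  obtain ⟨δ, hδ, hδV⟩ := hK.exists_cthickening_subset_open hV hKV
  obtain ⟨c1, C1, hc1, hC1, e1⟩ := h1 _ hK.cthickening hδV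
  obtain ⟨c2, C2, hc2, hC2, e2⟩ := h2 _ hK.cthickening hδV
  have hκ : 0 ≤ ∫ u, kap u := integral_nonneg kap_nonneg
  refine ⟨max c1 c2 + 1, (∫ u, kap u) * (C1 + C2), by positivity, by (clear * - hκ hC1 hC2; positivity), ?_⟩
  have hsmall : ∀ᶠ n in atTop, h n ≤ δ := (hh0.eventually_lt_const hδ).mono fun n hn => hn.le
  filter_upwards [e1, e2, hsmall] with n hn1 hn2 hn3 z hz
  have hsub : ∀ w, dist w z ≤ h n → w ∈ Metric.cthickening δ K := fun w hw =>
    Metric.mem_cthickening_of_dist_le w z δ K hz (hw.trans hn3)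
  have hb := scale_bound hV (hv n) (hh n) (z := z) fun w hw =>
    hδV (hsub w (Metric.mem_closedBall.1 hw))
  refine hb.trans ?_
  have hkey : ∀ w : ℂ, kap w * (‖v n (z + (h n : ℂ) * w)‖
      + ‖(h n : ℂ) ^ 2 * dz (dzb (v n)) (z + (h n : ℂ) * w)‖)
      ≤ kap w * ((C1 + C2) * √(SS h φ (max c1 c2 + 1) n z)) := by
    intro w
    by_cases hw : 1 < ‖w‖
    · rw [kap_eq_zero hw, zero_mul, zero_mul]
    · refine mul_le_mul_of_nonneg_left ?_ (kap_nonneg w)
      rw [not_lt] at hw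
      have hd : dist (z + (h n : ℂ) * w) z ≤ h n := by
        rw [dist_eq_norm, add_sub_cancel_left, norm_mul, Complex.norm_real,
          Real.norm_of_nonneg (hh n).le]
        calc h n * ‖w‖ ≤ h n * 1 := mul_le_mul_of_nonneg_left hw (hh n).le
          _ = h n := mul_one _
      have a1 := hn1 _ (hsub _ hd)
      have a2 := hn2 _ (hsub _ hd)
      have b1 : √(SS h φ c1 n (z + (h n : ℂ) * w)) ≤ √(SS h φ (max c1 c2 + 1) n z) :=
        Real.sqrt_le_sqrt ((SS_mono (hh n) (hφ n) (le_max_left c1 c2) _).trans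
          (SS_shift (hφ n) _ hd))
      have b2 : √(SS h φ c2 n (z + (h n : ℂ) * w)) ≤ √(SS h φ (max c1 c2 + 1) n z) :=
        Real.sqrt_le_sqrt ((SS_mono (hh n) (hφ n) (le_max_right c1 c2) _).trans
          (SS_shift (hφ n) _ hd))
      calc ‖v n (z + (h n : ℂ) * w)‖ + ‖(h n : ℂ) ^ 2 * dz (dzb (v n)) (z + (h n : ℂ) * w)‖
          ≤ C1 * √(SS h φ c1 n (z + (h n : ℂ) * w)) + C2 * √(SS h φ c2 n (z + (h n : ℂ) * w)) :=
            add_le_add a1 a2
        _ ≤ C1 * √(SS h φ (max c1 c2 + 1) n z) + C2 * √(SS h φ (max c1 c2 + 1) n z) := by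
            gcongr
        _ = _ := by ring
  calc ∫ u, kap u * (‖v n (z + (h n : ℂ) * u)‖
        + ‖(h n : ℂ) ^ 2 * dz (dzb (v n)) (z + (h n : ℂ) * u)‖)
      ≤ ∫ u, kap u * ((C1 + C2) * √(SS h φ (max c1 c2 + 1) n z)) :=
        integral_mono_of_nonneg
          (Filter.Eventually.of_forall fun w => mul_nonneg (kap_nonneg w) (by positivity))
          (kap_integrable.mul_const _) (Filter.Eventually.of_forall hkey)
    _ = _ := by rw [integral_mul_const]; ring

lemma PB.ellb (hV : IsOpen V) (hh : ∀ n, 0 < h n) (hh0 : Tendsto h atTop (𝓝 0))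
    (hφ : ∀ n, Continuous (φ n)) {v : ℕ → ℂ → ℂ} (hv : SmoothSeq V v) (h1 : PB V h φ v)
    (h2 : PB V h φ (hLap h v)) : PB V h φ (fun n z => (h n : ℂ) * dzb (v n) z) := by
  have h3 : PB V h φ (hLap h (fun n z => (starRingEnd ℂ) (v n z))) := by
    refine h2.conj.congr fun n z hz => ?_
    unfold hLap
    rw [dz_congr_on hV (f := dzb fun w => (starRingEnd ℂ) (v n w))
      (g := fun w => (starRingEnd ℂ) (dz (v n) w)) (fun w hw => dzb_conj (hv.dAt hV n hw)) hz,
      dz_conj ((SmoothSeq.dz hV hv).dAt hV n hz), map_mul, map_pow, conj_ofReal,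
      dz_dzb_comm (((hv n).contDiffAt (hV.mem_nhds hz)).of_le (WithTop.coe_le_coe.2 le_top))]
  have h4 := (PB.ell hV hh hh0 hφ hv.conj h1.conj h3).conj
  refine h4.congr fun n z hz => ?_
  rw [dz_conj (hv.dAt hV n hz)]; simp

lemma PK.congr (hV : IsOpen V) {k : ℕ} : ∀ {u v : ℕ → ℂ → ℂ}, PK V h φ k u →
    (∀ n, ∀ z ∈ V, u n z = v n z) → PK V h φ k v := by
  induction k with
  | zero => intro u v hu he; exact PB.congr hu he
  | succ k ih =>
    intro u v hu he
    refine ⟨hu.1.congr he, ih hu.2.1 fun n z hz => ?_, ih hu.2.2 fun n z hz => ?_⟩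
    · rw [dz_congr_on hV (he n) hz]
    · rw [dzb_congr_on hV (he n) hz]

lemma PK.pb {k : ℕ} {u : ℕ → ℂ → ℂ} (hu : PK V h φ k u) : PB V h φ u := by
  cases k with
  | zero => exact hu
  | succ k => exact hu.1

lemma PK.mono {k : ℕ} : ∀ {u : ℕ → ℂ → ℂ}, PK V h φ (k + 1) u → PK V h φ k u := by
  induction k with
  | zero => intro u hu; exact hu.1
  | succ k ih => intro u hu; exact ⟨hu.1, ih hu.2.1, ih hu.2.2⟩

lemma PK.add (hV : IsOpen V) (hh : ∀ n, 0 < h n) (hφ : ∀ n, Continuous (φ n)) {k : ℕ} :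
    ∀ {u v : ℕ → ℂ → ℂ}, PK V h φ k u → SmoothSeq V u →
    PK V h φ k v → SmoothSeq V v → PK V h φ k (fun n z => u n z + v n z) := by
  induction k with
  | zero => intro u v hu su hv sv; exact PB.add hh hφ hu hv
  | succ k ih =>
    intro u v hu su hv sv
    refine ⟨hu.1.add hh hφ hv.1, ?_, ?_⟩
    · refine (ih hu.2.1 (su.hdz hV) hv.2.1 (sv.hdz hV)).congr hV fun n z hz => ?_
      rw [dz_add (su.dAt hV n hz) (sv.dAt hV n hz)]; ring
    · refine (ih hu.2.2 (su.hdzb hV) hv.2.2 (sv.hdzb hV)).congr hV fun n z hz => ?_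
      rw [dzb_add (su.dAt hV n hz) (sv.dAt hV n hz)]; ring

lemma PK.const_mul (hV : IsOpen V) {c : ℕ → ℂ} {B : ℝ} (hc : ∀ᶠ n in atTop, ‖c n‖ ≤ B)
    {k : ℕ} : ∀ {u : ℕ → ℂ → ℂ}, PK V h φ k u → SmoothSeq V u →
    PK V h φ k (fun n z => c n * u n z) := by
  induction k with
  | zero => intro u hu su; exact PB.const_mul hu hc
  | succ k ih =>
    intro u hu su
    refine ⟨hu.1.const_mul hc, ?_, ?_⟩
    · refine (ih hu.2.1 (su.hdz hV)).congr hV fun n z hz => ?_
      rw [dz_const_mul _ (su.dAt hV n hz)]; ring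
    · refine (ih hu.2.2 (su.hdzb hV)).congr hV fun n z hz => ?_
      rw [dzb_const_mul _ (su.dAt hV n hz)]; ring

lemma PK.fn_mul (hV : IsOpen V) (hh : ∀ n, 0 < h n) (hh0 : Tendsto h atTop (𝓝 0))
    (hφ : ∀ n, Continuous (φ n)) {k : ℕ} :
    ∀ {u : ℕ → ℂ → ℂ} {b : ℂ → ℂ}, PK V h φ k u → SmoothSeq V u →
    ContDiffOn ℝ ∞ b V → PK V h φ k (fun n z => b z * u n z) := by
  induction k with
  | zero => intro u b hu su hb; exact PB.fn_mul hu hb.continuousOn
  | succ k ih =>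
    intro u b hu su hb
    have hbz := contDiffOn_dz hV hb
    have hbzb := contDiffOn_dzb hV hb
    have hbd' : ∀ z ∈ V, DifferentiableAt ℝ b z := fun z hz =>
      (hb.contDiffAt (hV.mem_nhds hz)).differentiableAt (by simp)
    refine ⟨hu.1.fn_mul hb.continuousOn, ?_, ?_⟩
    · have t1 := ih hu.2.1 (su.hdz hV) hb
      have t2 := (ih hu.mono su hbz).const_mul hV (hbd hh0) (su.fn_mul hbz)
      refine (t1.add hV hh hφ ((su.hdz hV).fn_mul hb) t2 ((su.fn_mul hbz).const_mul _)).congr hV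
        fun n z hz => ?_
      rw [dz_mul (hbd' z hz) (su.dAt hV n hz)]; ring
    · have t1 := ih hu.2.2 (su.hdzb hV) hb
      have t2 := (ih hu.mono su hbzb).const_mul hV (hbd hh0) (su.fn_mul hbzb)
      refine (t1.add hV hh hφ ((su.hdzb hV).fn_mul hb) t2 ((su.fn_mul hbzb).const_mul _)).congr hV
        fun n z hz => ?_
      rw [dzb_mul (hbd' z hz) (su.dAt hV n hz)]; ring

lemma PK.step (hV : IsOpen V) (hh : ∀ n, 0 < h n) (hh0 : Tendsto h atTop (𝓝 0))
    (hφ : ∀ n, Continuous (φ n)) {k : ℕ} :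
    ∀ {v : ℕ → ℂ → ℂ}, SmoothSeq V v → PK V h φ k v → PK V h φ k (hLap h v) →
      PK V h φ (k + 1) v := by
  have hc : ∀ (v : ℕ → ℂ → ℂ), SmoothSeq V v → ∀ n, ∀ z ∈ V, dz (dzb (v n)) z
      = dzb (dz (v n)) z := fun v hv n z hz =>
    dz_dzb_comm (((hv n).contDiffAt (hV.mem_nhds hz)).of_le (WithTop.coe_le_coe.2 le_top))
  induction k with
  | zero =>
    intro v hv h1 h2
    exact ⟨h1, PB.ell hV hh hh0 hφ hv h1 h2, PB.ellb hV hh hh0 hφ hv h1 h2⟩
  | succ k ih =>
    intro v hv h1 h2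
    refine ⟨h1.1, ih (hv.hdz hV) h1.2.1 ?_, ih (hv.hdzb hV) h1.2.2 ?_⟩
    · refine h2.2.1.congr hV fun n z hz => ?_
      have e1 : ∀ w ∈ V, dzb (fun w => (h n : ℂ) * dz (v n) w) w
          = (h n : ℂ) * dz (dzb (v n)) w := by
        intro w hw
        rw [dzb_const_mul _ ((SmoothSeq.dz hV hv).dAt hV n hw), hc v hv n w hw]
      unfold hLap
      rw [dz_congr_on hV e1 hz, dz_const_mul _ ((SmoothSeq.dz hV (SmoothSeq.dzb hV hv)).dAt hV n hz),
        dz_const_mul _ ((SmoothSeq.dz hV (SmoothSeq.dzb hV hv)).dAt hV n hz)]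
      ring
    · refine h2.2.2.congr hV fun n z hz => ?_
      have e1 : ∀ w ∈ V, dzb (fun w => (h n : ℂ) * dzb (v n) w) w
          = (h n : ℂ) * dzb (dzb (v n)) w := by
        intro w hw
        rw [dzb_const_mul _ ((SmoothSeq.dzb hV hv).dAt hV n hw)]
      have e2 := hc (fun n => dzb (v n)) (SmoothSeq.dzb hV hv) n
      unfold hLap
      rw [dz_congr_on hV e1 hz,
        dz_const_mul _ ((SmoothSeq.dzb hV (SmoothSeq.dzb hV hv)).dAt hV n hz), e2 z hz,
        dzb_const_mul _ ((SmoothSeq.dz hV (SmoothSeq.dzb hV hv)).dAt hV n hz)]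
      ring

/-- all the rescaled derivatives of a solution -/
lemma PK.all (hV : IsOpen V) (hh : ∀ n, 0 < h n) (hh0 : Tendsto h atTop (𝓝 0))
    (hφ : ∀ n, Continuous (φ n)) {v : ℕ → ℂ → ℂ} (hv : SmoothSeq V v) (h1 : PB V h φ v)
    {b : ℂ → ℂ} (hb : ContDiffOn ℝ ∞ b V) (he : ∀ n, ∀ z ∈ V, hLap h v n z = b z * v n z)
    (k : ℕ) : PK V h φ k v := by
  induction k with
  | zero => exact h1
  | succ k ih =>
    exact PK.step hV hh hh0 hφ hv ih ((ih.fn_mul hV hh hh0 hφ hv hb).congr hV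
      fun n z hz => (he n z hz).symm)

/-- the function itself -/
lemma PB.base (hSup : StmtSup) {σ : ℂ → ℝ} (L : Loc V σ h φ) : PB V h φ φ := by
  obtain ⟨C0, hC0, hS⟩ := hSup
  intro K hK hKV
  obtain ⟨δ, hδ, hδV⟩ := hK.exists_cthickening_subset_open L.op hKV
  obtain ⟨B, hB⟩ := hK.cthickening.exists_bound_of_continuousOn
    ((contDiff_ex L.sm 2).continuous.continuousOn (s := Metric.cthickening δ K))
  refine ⟨3, √(C0 * (1 + B ^ 2)), by norm_num, Real.sqrt_nonneg _, ?_⟩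
  have hsmall : ∀ᶠ n in atTop, h n < δ / 3 := L.hlim.eventually_lt_const (by positivity)
  filter_upwards [hsmall] with n hn z hz
  have hh := L.hpos n
  have hφ : Continuous (φ n) := (L.smφ n).continuous
  have hsub : ∀ w ∈ Metric.closedBall z (3 * h n), w ∈ Metric.cthickening δ K := fun w hw =>
    Metric.mem_cthickening_of_dist_le w z δ K hz
      ((Metric.mem_closedBall.1 hw).trans (by linarith))
  have h1 := hS (φ n) z (h n) (L.smφ n) hh
  have h2 : ∫ w in Metric.closedBall z (3 * h n),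
      (‖φ n w‖ ^ 2 + ‖(h n : ℂ) ^ 2 * dz (dzb (φ n)) w‖ ^ 2) ≤
      (1 + B ^ 2) * ∫ w in Metric.closedBall z (3 * h n), ‖φ n w‖ ^ 2 := by
    rw [← integral_const_mul]
    have i1 : Continuous fun w => ‖φ n w‖ ^ 2 + ‖(h n : ℂ) ^ 2 * dz (dzb (φ n)) w‖ ^ 2 :=
      (hφ.norm.pow 2).add ((continuous_const.mul
        (contDiff_dz (contDiff_dzb (L.smφ n))).continuous).norm.pow 2)
    have i2 : Continuous fun w => (1 + B ^ 2) * ‖φ n w‖ ^ 2 := continuous_const.mul (hφ.norm.pow 2)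
    refine setIntegral_mono_on (i1.continuousOn.integrableOn_compact (isCompact_closedBall _ _))
      (i2.continuousOn.integrableOn_compact (isCompact_closedBall _ _))
      measurableSet_closedBall fun w hw => ?_
    have e1 := L.eig n w (hδV (hsub w hw))
    have e2 : (h n : ℂ) ^ 2 * dz (dzb (φ n)) w = -(1 / 4) * (ex σ 2 w * φ n w) := by
      linear_combination (1 / 4) * e1
    have e3 : ‖(h n : ℂ) ^ 2 * dz (dzb (φ n)) w‖ ≤ B * ‖φ n w‖ := by
      rw [e2, norm_mul, norm_mul]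
      have e4 : ‖(-(1 / 4) : ℂ)‖ ≤ 1 := by norm_num
      have e5 := hB w (hsub w hw)
      calc ‖(-(1 / 4) : ℂ)‖ * (‖ex σ 2 w‖ * ‖φ n w‖) ≤ 1 * (B * ‖φ n w‖) := by (clear * - e4 e5; gcongr)
        _ = _ := one_mul _
    have e6 : ‖(h n : ℂ) ^ 2 * dz (dzb (φ n)) w‖ ^ 2 ≤ (B * ‖φ n w‖) ^ 2 :=
      pow_le_pow_left₀ (norm_nonneg _) e3 2
    linarith only [e6]
  have h3 : ‖φ n z‖ ^ 2 ≤ C0 * (1 + B ^ 2) * SS h φ 3 n z := by
    refine h1.trans ?_
    unfold SS
    calc C0 / h n ^ 2 * _ ≤ C0 / h n ^ 2 * ((1 + B ^ 2) *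
          ∫ w in Metric.closedBall z (3 * h n), ‖φ n w‖ ^ 2) :=
          mul_le_mul_of_nonneg_left h2 (by positivity)
      _ = _ := by ring
  rw [← Real.sqrt_mul (by positivity)]
  exact Real.le_sqrt_of_sq_le h3

/-- bounds by one plus the local `L²` norm -/
def QB (h : ℕ → ℝ) (φ : ℕ → ℂ → ℂ) (K : Set ℂ) (F : ℕ → ℂ → ℝ) : Prop :=
  ∃ c C : ℝ, 0 < c ∧ 0 ≤ C ∧ ∀ᶠ n in atTop, ∀ z ∈ K, F n z ≤ C * (1 + SS h φ c n z)

lemma QB.one (K : Set ℂ) : QB h φ K (fun _ _ => 1) := by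
  refine ⟨1, 1, one_pos, zero_le_one, Filter.Eventually.of_forall fun n z _ => ?_⟩
  have := SS_nonneg (h := h) (φ := φ) 1 n z
  simp only []
  linarith

lemma QB.zero (K : Set ℂ) : QB h φ K (fun _ _ => 0) := by
  refine ⟨1, 1, one_pos, zero_le_one, Filter.Eventually.of_forall fun n z _ => ?_⟩
  have := SS_nonneg (h := h) (φ := φ) 1 n z
  simp only []
  linarith

lemma QB.add (hh : ∀ n, 0 < h n) (hφ : ∀ n, Continuous (φ n)) {K : Set ℂ} {F G : ℕ → ℂ → ℝ}
    (hF : QB h φ K F) (hG : QB h φ K G) : QB h φ K (fun n z => F n z + G n z) := by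
  obtain ⟨c, C, hc, hC, h1⟩ := hF
  obtain ⟨c', C', hc', hC', h2⟩ := hG
  refine ⟨max c c', C + C', lt_max_of_lt_left hc, add_nonneg hC hC', ?_⟩
  filter_upwards [h1, h2] with n hn hn' z hz
  have e1 := SS_mono (hh n) (hφ n) (le_max_left c c') z
  have e2 := SS_mono (hh n) (hφ n) (le_max_right c c') z
  calc F n z + G n z ≤ C * (1 + SS h φ c n z) + C' * (1 + SS h φ c' n z) :=
        add_le_add (hn z hz) (hn' z hz)
    _ ≤ C * (1 + SS h φ (max c c') n z) + C' * (1 + SS h φ (max c c') n z) := by gcongr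
    _ = _ := by ring

lemma QB.sum (hh : ∀ n, 0 < h n) (hφ : ∀ n, Continuous (φ n)) {K : Set ℂ}
    (F : ℕ → ℕ → ℂ → ℝ) (hF : ∀ a, QB h φ K (F a)) (N : ℕ) :
    QB h φ K (fun n z => ∑ a ∈ Finset.range N, F a n z) := by
  induction N with
  | zero => simpa using QB.zero (h := h) (φ := φ) K
  | succ N ih =>
    simp only [Finset.sum_range_succ]
    exact ih.add hh hφ (hF N)

lemma PB.qb {K : Set ℂ} (hK : IsCompact K) (hKV : K ⊆ V) {u : ℕ → ℂ → ℂ} (hu : PB V h φ u) :
    QB h φ K (fun n z => ‖u n z‖ ^ 2) := by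
  obtain ⟨c, C, hc, hC, h1⟩ := hu K hK hKV
  refine ⟨c, C ^ 2, hc, sq_nonneg C, ?_⟩
  filter_upwards [h1] with n hn z hz
  have e0 := SS_nonneg (h := h) (φ := φ) c n z
  calc ‖u n z‖ ^ 2 ≤ (C * √(SS h φ c n z)) ^ 2 := pow_le_pow_left₀ (norm_nonneg _) (hn z hz) 2
    _ = C ^ 2 * SS h φ c n z := by rw [mul_pow, Real.sq_sqrt e0]
    _ ≤ C ^ 2 * (1 + SS h φ c n z) := by gcongr; linarith

lemma it_smooth (hφ : ∀ n, ContDiff ℝ ∞ (φ n)) (b a n : ℕ) :
    ContDiff ℝ ∞ (dz^[a] (dzb^[b] (φ n))) := by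
  have h1 : ContDiff ℝ ∞ (dzb^[b] (φ n)) := by
    induction b with
    | zero => exact hφ n
    | succ b ih => rw [Function.iterate_succ_apply']; exact contDiff_dzb ih
  induction a with
  | zero => exact h1
  | succ a ih => rw [Function.iterate_succ_apply']; exact contDiff_dz ih

lemma pk_W (hV : IsOpen V) (hφ : ∀ n, ContDiff ℝ ∞ (φ n)) (h1 : ∀ k, PK V h φ k φ) (a b : ℕ) :
    ∀ k, PK V h φ k (W h φ a b) := by
  have hb : ∀ b k, PK V h φ k (W h φ 0 b) := by
    intro b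
    induction b with
    | zero =>
      intro k
      refine (h1 k).congr hV fun n z _ => ?_
      simp [W]
    | succ b ih =>
      intro k
      refine (ih (k + 1)).2.2.congr hV fun n z _ => ?_
      have e : W h φ 0 b n = fun w => (h n : ℂ) ^ b * dzb^[b] (φ n) w := by
        funext w
        simp [W]
      have hd : DifferentiableAt ℝ (dzb^[b] (φ n)) z := by
        have := it_smooth hφ b 0 n
        exact (this.differentiable (by simp)) z
      rw [e, dzb_const_mul _ hd]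
      unfold W
      rw [Function.iterate_zero, id_eq, Function.iterate_succ_apply', zero_add, pow_succ]
      ring
  induction a with
  | zero => exact hb b
  | succ a ih =>
    intro k
    refine (ih (k + 1)).2.1.congr hV fun n z _ => ?_
    have e : W h φ a b n = fun w => (h n : ℂ) ^ (a + b) * dz^[a] (dzb^[b] (φ n)) w := rfl
    have hd : DifferentiableAt ℝ (dz^[a] (dzb^[b] (φ n))) z :=
      ((it_smooth hφ b a n).differentiable (by simp)) z
    rw [e, dz_const_mul _ hd]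
    unfold W
    rw [Function.iterate_succ_apply', show a + 1 + b = a + b + 1 by ring, pow_succ]
    ring

end PTW

/-- PTW: the jets are bounded by the local `L²` norm of `φ` at scale `h` -/
theorem stmtPtw (hSup : StmtSup) : StmtPtw := by
  intro V σ h φ L K hK hKV N
  have hφ : ∀ n, Continuous (φ n) := fun n => (L.smφ n).continuous
  have hsm : SmoothSeq V φ := fun n => (L.smφ n).contDiffOn
  have hbase := PTW.PB.base hSup L
  have hb : ContDiffOn ℝ ∞ (fun z => -(1 / 4) * ex σ 2 z) V :=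
    (contDiff_const.mul (contDiff_ex L.sm 2)).contDiffOn
  have hall := PTW.PK.all L.op L.hpos L.hlim hφ hsm hbase hb (fun n z hz => by
    have e1 := L.eig n z hz
    unfold hLap
    linear_combination (1 / 4) * e1)
  have hW : ∀ a b, PTW.PB V h φ (W h φ a b) := fun a b =>
    (PTW.pk_W L.op L.smφ hall a b 0).pb
  have hR : PTW.QB h φ K (fun n z => 1 + ∑ a ∈ Finset.range (N + 1), ∑ b ∈ Finset.range (N + 1),
      ‖W h φ a b n z‖ ^ 2) := by
    refine (PTW.QB.one K).add L.hpos hφ ?_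
    exact PTW.QB.sum L.hpos hφ _ (fun a => PTW.QB.sum L.hpos hφ _
      (fun b => (hW a b).qb hK hKV) (N + 1)) (N + 1)
  obtain ⟨c, C, hc, _, h1⟩ := hR
  exact ⟨c, C, hc, h1⟩

end

end QJ


end

section

/-!
U3, step POI: slowly varying densities with linear growth are small after multiplication by `h`.
-/

open Complex MeasureTheory Filter Topology Set
open scoped ContDiff Pointwise

namespace U3

open QE QJ

noncomputable section

namespace POI

/-- the square of the gradient -/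
def gr (U : ℂ → ℝ) (z : ℂ) : ℝ := d1 U z ^ 2 + d2 U z ^ 2

lemma gr_nonneg (U : ℂ → ℝ) (z : ℂ) : 0 ≤ gr U z := by
  unfold gr; positivity

lemma cont_fderiv {U : ℂ → ℝ} (hU : ContDiff ℝ ∞ U) : Continuous (fderiv ℝ U) :=
  hU.continuous_fderiv (by simp)

lemma cont_gr {U : ℂ → ℝ} (hU : ContDiff ℝ ∞ U) : Continuous (gr U) := by
  have h := cont_fderiv hU
  unfold gr d1 d2
  exact ((h.clm_apply continuous_const).pow 2).add ((h.clm_apply continuous_const).pow 2)

lemma fderiv_sq_le (U : ℂ → ℝ) (z v : ℂ) : (fderiv ℝ U z v) ^ 2 ≤ ‖v‖ ^ 2 * gr U z := by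
  have e : fderiv ℝ U z v = v.re * d1 U z + v.im * d2 U z := by
    have hv : v = (v.re : ℝ) • (1 : ℂ) + (v.im : ℝ) • Complex.I := by
      simp [Complex.re_add_im]
    conv_lhs => rw [hv]
    rw [map_add, map_smul, map_smul]
    simp [d1, d2]
  rw [e]
  have hn : ‖v‖ ^ 2 = v.re ^ 2 + v.im ^ 2 := by
    rw [← Complex.normSq_eq_norm_sq, Complex.normSq_apply]; ring
  rw [hn, gr]
  linarith only [sq_nonneg (v.re * d2 U z - v.im * d1 U z)]

/-- one-dimensional inequality along a segment -/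
lemma seg_le {U : ℂ → ℝ} (hU : ContDiff ℝ ∞ U) (z v : ℂ) :
    (U (z + v) - U z) ^ 2 ≤ ∫ s in (0 : ℝ)..1, ‖v‖ ^ 2 * gr U (z + (s : ℝ) • v) := by
  have hc : Continuous (fun s : ℝ => fderiv ℝ U (z + s • v) v) := by
    have := cont_fderiv hU
    fun_prop
  have hd : ∀ s : ℝ, HasDerivAt (fun s : ℝ => U (z + s • v)) (fderiv ℝ U (z + s • v) v) s := by
    intro s
    have h1 : HasFDerivAt U (fderiv ℝ U (z + s • v)) (z + s • v) :=
      (hU.differentiable (by simp) _).hasFDerivAt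
    have h2 : HasDerivAt (fun s : ℝ => z + s • v) v s := by
      simpa using ((hasDerivAt_id s).smul_const v).const_add z
    exact h1.comp_hasDerivAt s h2
  have e : ∫ s in (0 : ℝ)..1, fderiv ℝ U (z + s • v) v = U (z + v) - U z := by
    rw [intervalIntegral.integral_eq_sub_of_hasDerivAt (fun s _ => hd s)
      (hc.intervalIntegrable _ _)]
    simp
  rw [← e]
  set a := ∫ s in (0 : ℝ)..1, fderiv ℝ U (z + s • v) v with ha
  have h2 : ∫ s in (0 : ℝ)..1, (2 * a * fderiv ℝ U (z + s • v) v - a ^ 2)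
      ≤ ∫ s in (0 : ℝ)..1, ‖v‖ ^ 2 * gr U (z + (s : ℝ) • v) := by
    apply intervalIntegral.integral_mono_on zero_le_one
    · exact (Continuous.intervalIntegrable (by fun_prop) _ _)
    · have := cont_gr hU
      exact (Continuous.intervalIntegrable (by fun_prop) _ _)
    · intro s _
      have := fderiv_sq_le U (z + s • v) v
      linarith only [this, sq_nonneg (fderiv ℝ U (z + s • v) v - a)]
  have h3 : ∫ s in (0 : ℝ)..1, (2 * a * fderiv ℝ U (z + s • v) v - a ^ 2) = a ^ 2 := by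
    rw [intervalIntegral.integral_sub (Continuous.intervalIntegrable (by fun_prop) _ _)
      (Continuous.intervalIntegrable (by fun_prop) _ _), intervalIntegral.integral_const_mul,
      ← ha]
    simp
    ring
  linarith

/-- translation of an integral over a compact set -/
lemma trans_le {G : ℂ → ℝ} (hG : Continuous G) (h0 : ∀ z, 0 ≤ G z) {K K1 : Set ℂ}
    (hK1 : IsCompact K1) (v : ℂ) (hs : ∀ z ∈ K, z + v ∈ K1) :
    ∫ z in K, G (z + v) ≤ ∫ z in K1, G z := by
  have hK1m : MeasurableSet K1 := hK1.measurableSet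
  have e : ∫ z in K1, G z = ∫ z in (fun z => z + v) ⁻¹' K1, G (z + v) := by
    rw [← (measurePreserving_add_right (volume : Measure ℂ) v).setIntegral_preimage_emb
      (measurableEmbedding_addRight v)]
  rw [e]
  have hcomp : IsCompact ((fun z => z + v) ⁻¹' K1) :=
    (Homeomorph.addRight v).isClosedEmbedding.isCompact_preimage hK1
  apply setIntegral_mono_set
  · exact (hG.comp (continuous_add_const v)).continuousOn.integrableOn_compact hcomp
  · exact Eventually.of_forall (fun z => h0 _)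
  · exact (show K ⊆ (fun z => z + v) ⁻¹' K1 from hs).eventuallyLE

/-- the translation difference in `L²` -/
lemma diff_le {U : ℂ → ℝ} (hU : ContDiff ℝ ∞ U) {K K1 : Set ℂ} (hK : IsCompact K)
    (hK1 : IsCompact K1) (v : ℂ) (hs : ∀ z ∈ K, ∀ s ∈ Icc (0 : ℝ) 1, z + s • v ∈ K1) :
    ∫ z in K, (U (z + v) - U z) ^ 2 ≤ ‖v‖ ^ 2 * ∫ z in K1, gr U z := by
  have hgc := cont_gr hU
  have hUc := hU.continuous
  have h1 : ∫ z in K, (U (z + v) - U z) ^ 2
      ≤ ∫ z in K, ∫ s in (0 : ℝ)..1, ‖v‖ ^ 2 * gr U (z + (s : ℝ) • v) := by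
    apply setIntegral_mono_on
    · exact (Continuous.continuousOn (by fun_prop)).integrableOn_compact hK
    · refine ContinuousOn.integrableOn_compact hK (Continuous.continuousOn ?_)
      apply intervalIntegral.continuous_parametric_intervalIntegral_of_continuous'
      fun_prop
    · exact hK.measurableSet
    · intro z _
      exact seg_le hU z v
  refine h1.trans ?_
  have h2 : ∫ z in K, ∫ s in (0 : ℝ)..1, ‖v‖ ^ 2 * gr U (z + (s : ℝ) • v)
      = ∫ s in (0 : ℝ)..1, ∫ z in K, ‖v‖ ^ 2 * gr U (z + (s : ℝ) • v) := by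
    simp only [intervalIntegral.integral_of_le zero_le_one]
    rw [integral_integral_swap]
    have hcont : Continuous (Function.uncurry
        (fun (z : ℂ) (s : ℝ) => ‖v‖ ^ 2 * gr U (z + (s : ℝ) • v))) := by
      unfold Function.uncurry
      fun_prop
    rw [Measure.prod_restrict]
    exact (hcont.continuousOn.integrableOn_compact (hK.prod isCompact_Icc)).mono_set
      (Set.prod_mono subset_rfl Ioc_subset_Icc_self)
  rw [h2]
  have h3 : ∫ s in (0 : ℝ)..1, ∫ z in K, ‖v‖ ^ 2 * gr U (z + (s : ℝ) • v)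
      ≤ ∫ s in (0 : ℝ)..1, ‖v‖ ^ 2 * ∫ z in K1, gr U z := by
    apply intervalIntegral.integral_mono_on zero_le_one
    · apply Continuous.intervalIntegrable
      have : (fun s : ℝ => ∫ z in K, ‖v‖ ^ 2 * gr U (z + (s : ℝ) • v))
          = fun s : ℝ => ∫ z in K, (fun (s : ℝ) (z : ℂ) => ‖v‖ ^ 2 * gr U (z + (s : ℝ) • v)) s z :=
        rfl
      rw [this]
      apply continuous_parametric_integral_of_continuous
      · unfold Function.uncurry
        fun_prop
      · exact hK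
    · exact Continuous.intervalIntegrable continuous_const _ _
    · intro s hs'
      rw [integral_const_mul]
      exact mul_le_mul_of_nonneg_left
        (trans_le hgc (gr_nonneg U) hK1 _ (fun z hz => hs z hz s hs')) (by positivity)
  refine h3.trans ?_
  simp

/-- the mean over a small ball -/
lemma mean_eq (U : ℂ → ℝ) (z : ℂ) {h R : ℝ} (hh : 0 < h) (hR : 0 < R) :
    ∫ y in Metric.closedBall (0 : ℂ) R, U (z + h • y)
      = (h ^ 2)⁻¹ * ∫ w in Metric.closedBall z (h * R), U w := by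
  have h1 := Measure.setIntegral_comp_smul_of_pos (volume : Measure ℂ) (fun y => U (z + y))
    (Metric.closedBall (0 : ℂ) R) hh
  rw [h1]
  have h2 : h • Metric.closedBall (0 : ℂ) R = Metric.closedBall 0 (h * R) := by
    rw [smul_closedBall _ _ hR.le, smul_zero, Real.norm_of_nonneg hh.le]
  rw [h2, Complex.finrank_real_complex, smul_eq_mul]
  congr 1
  have h3 := (measurePreserving_add_left (volume : Measure ℂ) z).setIntegral_preimage_emb
      (measurableEmbedding_addLeft z) U (Metric.closedBall z (h * R))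
  rw [← h3]
  have h4 : (fun x => z + x) ⁻¹' Metric.closedBall z (h * R) = Metric.closedBall 0 (h * R) := by
    ext y
    simp [dist_eq_norm]
  rw [h4]

/-- the main inequality for one function -/
lemma key {U : ℂ → ℝ} (hU : ContDiff ℝ ∞ U) (h0 : ∀ z, 0 ≤ U z) {K K1 : Set ℂ}
    (hK : IsCompact K) (hK1 : IsCompact K1) {h R C : ℝ} (hh : 0 < h) (hR : 0 < R)
    (hsub : ∀ z ∈ K, Metric.closedBall z (h * R) ⊆ K1) (hKK : K ⊆ K1)
    (hC : ∀ z ∈ K1, ∀ s > 0, ∫ w in K1 ∩ Metric.closedBall z s, U w ≤ C * s) :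
    Real.pi * R ^ 2 * ∫ z in K, U z ^ 2 ≤ 2 * (C * R / h) * (∫ z in K, U z)
      + Real.pi * R ^ 2 * (R ^ 2 * ∫ z in K1, h ^ 2 * gr U z) := by
  have hUc := hU.continuous
  set B := Metric.closedBall (0 : ℂ) R with hB
  have hBc : IsCompact B := isCompact_closedBall _ _
  have hvol : (volume B).toReal = Real.pi * R ^ 2 := by
    rw [hB, Complex.volume_closedBall]
    simp [ENNReal.toReal_mul, hR.le, mul_comm]
  have hvol' : ∀ c : ℝ, ∫ _ in B, c = Real.pi * R ^ 2 * c := by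
    intro c
    rw [setIntegral_const, Measure.real, hvol, smul_eq_mul]
  -- the pointwise inequality after integration over the ball
  have h1 : ∀ z ∈ K, Real.pi * R ^ 2 * U z ^ 2 ≤ 2 * (C * R / h) * U z
      + ∫ y in B, (U (z + h • y) - U z) ^ 2 := by
    intro z hz
    have a1 : ∫ _ in B, U z ^ 2
        ≤ ∫ y in B, (2 * U z * U (z + h • y) + (U (z + h • y) - U z) ^ 2) := by
      apply setIntegral_mono_on
      · exact continuousOn_const.integrableOn_compact hBc
      · exact (Continuous.continuousOn (by fun_prop)).integrableOn_compact hBc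
      · exact hBc.measurableSet
      · intro y _
        linarith only [sq_nonneg (U (z + h • y))]
    rw [hvol', integral_add, integral_const_mul, mean_eq U z hh hR] at a1
    · have a2 : ∫ w in Metric.closedBall z (h * R), U w ≤ C * (h * R) := by
        have := hC z (hKK hz) (h * R) (by positivity)
        rwa [inter_eq_self_of_subset_right (hsub z hz)] at this
      have a3 : 2 * U z * ((h ^ 2)⁻¹ * ∫ w in Metric.closedBall z (h * R), U w)
          ≤ 2 * U z * ((h ^ 2)⁻¹ * (C * (h * R))) := by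
        have := h0 z
        (clear * - a2 hh this; gcongr)
      have a4 : 2 * U z * ((h ^ 2)⁻¹ * (C * (h * R))) = 2 * (C * R / h) * U z := by
        field_simp
      linarith only [a1, a3, a4]
    · exact (Continuous.continuousOn (by fun_prop)).integrableOn_compact hBc
    · exact (Continuous.continuousOn (by fun_prop)).integrableOn_compact hBc
  have hcont : Continuous (Function.uncurry (fun (z y : ℂ) => (U (z + h • y) - U z) ^ 2)) := by
    unfold Function.uncurry
    fun_prop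
  have hci : Continuous (fun z : ℂ => ∫ y in B, (U (z + h • y) - U z) ^ 2) := by
    have := continuous_parametric_integral_of_continuous (μ := (volume : Measure ℂ)) hcont hBc
    exact this
  -- integration over K
  have h2 : ∫ z in K, Real.pi * R ^ 2 * U z ^ 2 ≤ ∫ z in K, (2 * (C * R / h) * U z
      + ∫ y in B, (U (z + h • y) - U z) ^ 2) := by
    apply setIntegral_mono_on
    · exact (Continuous.continuousOn (by fun_prop)).integrableOn_compact hK
    · exact (Continuous.continuousOn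
        ((continuous_const.mul hUc).add hci)).integrableOn_compact hK
    · exact hK.measurableSet
    · exact h1
  rw [integral_const_mul, integral_add, integral_const_mul] at h2
  rotate_left
  · exact (Continuous.continuousOn (by fun_prop)).integrableOn_compact hK
  · exact hci.continuousOn.integrableOn_compact hK
  refine h2.trans ?_
  gcongr
  -- Fubini
  rw [integral_integral_swap]
  rotate_left
  · rw [Measure.prod_restrict]
    exact hcont.continuousOn.integrableOn_compact (hK.prod hBc)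
  have h3 : ∫ y in B, ∫ z in K, (U (z + h • y) - U z) ^ 2
      ≤ ∫ _ in B, (R ^ 2 * ∫ z in K1, h ^ 2 * gr U z) := by
    apply setIntegral_mono_on
    · have hcont' : Continuous (Function.uncurry
          (fun (y z : ℂ) => (U (z + h • y) - U z) ^ 2)) := by
        unfold Function.uncurry
        fun_prop
      have := continuous_parametric_integral_of_continuous (μ := (volume : Measure ℂ)) hcont' hK
      exact this.continuousOn.integrableOn_compact hBc
    · exact continuousOn_const.integrableOn_compact hBc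
    · exact hBc.measurableSet
    · intro y hy
      have hy' : ‖y‖ ≤ R := by simpa [hB] using hy
      have hd := diff_le hU hK hK1 (h • y) (by
        intro z hz s hs
        apply hsub z hz
        rw [Metric.mem_closedBall, dist_eq_norm, add_sub_cancel_left, norm_smul, norm_smul,
          Real.norm_of_nonneg hs.1, Real.norm_of_nonneg hh.le]
        calc s * (h * ‖y‖) ≤ 1 * (h * R) := by
              gcongr
              exact hs.2
          _ = h * R := one_mul _)
      refine hd.trans ?_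
      rw [norm_smul, Real.norm_of_nonneg hh.le, integral_const_mul, ← mul_assoc]
      have hg : 0 ≤ ∫ z in K1, gr U z := integral_nonneg (gr_nonneg U)
      apply mul_le_mul_of_nonneg_right _ hg
      nlinarith only [mul_le_mul hy' hy' (norm_nonneg y) hR.le]
  refine h3.trans ?_
  rw [hvol']

end POI

open _root_.U3.POI in
/-- POI -/
theorem stmtPoi : StmtPoi := by
  intro V h U hV hpos hlim hU h0 hgr hgrad K hK hKV
  rcases K.eq_empty_or_nonempty with rfl | ⟨z0, hz0⟩
  · simp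
  obtain ⟨δ, hδ, hδV⟩ := hK.exists_cthickening_subset_open hV hKV
  set K1 := Metric.cthickening δ K with hK1def
  have hK1 : IsCompact K1 := hK.cthickening
  have hKK : K ⊆ K1 := Metric.self_subset_cthickening K
  obtain ⟨C0, hC0⟩ := hgr K1 hK1 hδV
  obtain ⟨s0, hs0⟩ := hK.isBounded.subset_closedBall z0
  set s1 := max s0 1 with hs1
  have hs1pos : 0 < s1 := lt_of_lt_of_le one_pos (le_max_right _ _)
  set C := max C0 0 with hC
  have hCn : 0 ≤ C := le_max_right _ _
  have hpi := Real.pi_pos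
  rw [Metric.tendsto_atTop']
  intro ε hε
  -- choice of R
  obtain ⟨R, hR1, hR2⟩ : ∃ R : ℝ, 0 < R ∧ 2 * C * (C * s1) / (Real.pi * R) < ε / 2 := by
    refine ⟨(4 * C * (C * s1) / (Real.pi * ε)) + 1, by (clear * - hε; positivity), ?_⟩
    rw [div_lt_iff₀ (by (clear * - hε; positivity))]
    have : 0 ≤ 4 * C * (C * s1) / (Real.pi * ε) := by positivity
    have e : ε / 2 * (Real.pi * (4 * C * (C * s1) / (Real.pi * ε) + 1))
        = 2 * C * (C * s1) + ε / 2 * Real.pi := by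
      field_simp
      ring
    rw [e]
    have : 0 < ε / 2 * Real.pi := by positivity
    linarith only [this]
  have e1 : ∀ᶠ n in atTop, h n * R ≤ δ := by
    have : Tendsto (fun n => h n * R) atTop (𝓝 0) := by simpa using hlim.mul_const R
    exact (this.eventually_lt_const hδ).mono fun n hn => hn.le
  have e2 : ∀ᶠ n in atTop, R ^ 2 * (h n * ∫ z in K1, h n ^ 2 * (d1 (U n) z ^ 2 + d2 (U n) z ^ 2))
      < ε / 2 := by
    have : Tendsto (fun n => R ^ 2 * (h n * ∫ z in K1,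
        h n ^ 2 * (d1 (U n) z ^ 2 + d2 (U n) z ^ 2))) atTop (𝓝 0) := by
      simpa using (hgrad K1 hK1 hδV).const_mul (R ^ 2)
    exact this.eventually_lt_const (by positivity)
  obtain ⟨N, hN⟩ := eventually_atTop.1 (e1.and (e2.and hC0))
  refine ⟨N, fun n hn => ?_⟩
  obtain ⟨g1, g2, g3⟩ := hN n hn.le
  have hh := hpos n
  have hCs : ∀ z ∈ K1, ∀ s > 0, ∫ w in K1 ∩ Metric.closedBall z s, U n w ≤ C * s := by
    intro z hz s hs
    exact (g3 z hz s hs).trans (mul_le_mul_of_nonneg_right (le_max_left _ _) hs.le)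
  have hsub : ∀ z ∈ K, Metric.closedBall z (h n * R) ⊆ K1 := by
    intro z hz
    exact (Metric.closedBall_subset_closedBall g1).trans
      (Metric.closedBall_subset_cthickening hz δ)
  have k := key (hU n) (h0 n) hK hK1 hh hR1 hsub hKK hCs
  have hUK : ∫ z in K, U n z ≤ C * s1 := by
    refine le_trans ?_ (hCs z0 (hKK hz0) s1 hs1pos)
    apply setIntegral_mono_set
    · exact (hU n).continuous.continuousOn.integrableOn_compact
        (hK1.inter_right Metric.isClosed_closedBall)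
    · exact Eventually.of_forall (fun z => h0 n _)
    · refine (subset_inter hKK ?_).eventuallyLE
      exact hs0.trans (Metric.closedBall_subset_closedBall (le_max_left _ _))
  have hn0 : 0 ≤ h n * ∫ z in K, U n z ^ 2 :=
    mul_nonneg hh.le (integral_nonneg fun z => sq_nonneg _)
  rw [Real.dist_eq, sub_zero, abs_of_nonneg hn0]
  have hg : (∫ z in K1, h n ^ 2 * gr (U n) z)
      = ∫ z in K1, h n ^ 2 * (d1 (U n) z ^ 2 + d2 (U n) z ^ 2) := rfl
  rw [hg] at k
  set J := ∫ z in K1, h n ^ 2 * (d1 (U n) z ^ 2 + d2 (U n) z ^ 2)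
  set I2 := ∫ z in K, U n z ^ 2
  set I1 := ∫ z in K, U n z
  have k2 : Real.pi * R ^ 2 * I2 ≤ 2 * (C * R / h n) * (C * s1) + Real.pi * R ^ 2 * (R ^ 2 * J) := by
    refine k.trans ?_
    have : 0 ≤ 2 * (C * R / h n) := by (clear * - hR1 hh; positivity)
    have := mul_le_mul_of_nonneg_left hUK this
    linarith only [this]
  have k3 : h n * I2 ≤ 2 * C * (C * s1) / (Real.pi * R) + R ^ 2 * (h n * J) := by
    have e3 : 2 * (C * R / h n) * (C * s1) + Real.pi * R ^ 2 * (R ^ 2 * J)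
        = (Real.pi * R ^ 2 / h n) *
          (2 * C * (C * s1) / (Real.pi * R) + R ^ 2 * (h n * J)) := by
      field_simp
    rw [e3] at k2
    have e4 : Real.pi * R ^ 2 * I2 = (Real.pi * R ^ 2 / h n) * (h n * I2) := by
      field_simp
    rw [e4] at k2
    exact le_of_mul_le_mul_left k2 (by positivity)
  linarith only [hR2, g2, k3]

end

end U3


end

section

/-!
# Module ALTS: symmetric functions on `{a + b + c = s}` with the two recursions
-/

open Complex MeasureTheory Filter Topology Set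
open scoped ContDiff

namespace U3

open QE QJ

namespace ALTS

section

variable {X : Type} [AddCommGroup X] {e : ℤ → ℤ → ℤ → X} {s : ℤ}

/-- translation invariance, one step -/
theorem step
    (h3 : ∀ a b c, a + b + c = s - 1 → e (a + 1) b c + e a (b + 1) c + e a b (c + 1) = 0)
    (h4 : ∀ a b c, a + b + c = s + 1 → e (a - 1) b c + e a (b - 1) c + e a b (c - 1) = 0)
    (a b c : ℤ) (h : a + b + c = s) : e (a + 1) (b + 1) (c - 2) = e a b c := by
  have e1 := h3 a b (c - 1) (by omega)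
  have e2 := h4 (a + 1) (b + 1) (c - 1) (by omega)
  have r1 : c - 1 + 1 = c := by ring
  have r2 : a + 1 - 1 = a := by ring
  have r3 : b + 1 - 1 = b := by ring
  have r4 : c - 1 - 1 = c - 2 := by ring
  rw [r1] at e1
  rw [r2, r3, r4] at e2
  have e3 : e (a + 1) (b + 1) (c - 2) - e a b c =
      (e a (b + 1) (c - 1) + e (a + 1) b (c - 1) + e (a + 1) (b + 1) (c - 2)) -
      (e (a + 1) b (c - 1) + e a (b + 1) (c - 1) + e a b c) := by abel
  rw [e1, e2, sub_zero] at e3
  exact sub_eq_zero.1 e3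

/-- translation invariance -/
theorem tr1
    (h3 : ∀ a b c, a + b + c = s - 1 → e (a + 1) b c + e a (b + 1) c + e a b (c + 1) = 0)
    (h4 : ∀ a b c, a + b + c = s + 1 → e (a - 1) b c + e a (b - 1) c + e a b (c - 1) = 0)
    (i : ℤ) (a b c : ℤ) (h : a + b + c = s) : e (a + i) (b + i) (c - 2 * i) = e a b c := by
  induction i using Int.induction_on with
  | zero => simp
  | succ i ih =>
    rw [← ih]
    have := step h3 h4 (a + i) (b + i) (c - 2 * i) (by omega)
    rw [← this]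
    congr 1 <;> ring
  | pred i ih =>
    rw [← ih]
    have := step h3 h4 (a + (-i - 1)) (b + (-i - 1)) (c - 2 * (-i - 1)) (by omega)
    rw [← this]
    congr 1 <;> ring

/-- functions on the plane only depend on the class modulo the lattice -/
theorem cls (h2 : ∀ a b c, e a c b = e a b c)
    (h3 : ∀ a b c, a + b + c = s - 1 → e (a + 1) b c + e a (b + 1) c + e a b (c + 1) = 0)
    (h4 : ∀ a b c, a + b + c = s + 1 → e (a - 1) b c + e a (b - 1) c + e a b (c - 1) = 0)
    (a b c a' b' c' j : ℤ) (h : a + b + c = s) (h' : a' + b' + c' = s)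
    (hj : a' - a - (b' - b) = 3 * j) : e a' b' c' = e a b c := by
  have e1 := tr1 h3 h4 (a' - a - j) a b c h
  have e2 := tr1 h3 h4 j (a + (a' - a - j)) (c - 2 * (a' - a - j)) (b + (a' - a - j)) (by omega)
  rw [h2 _ (b + (a' - a - j)) (c - 2 * (a' - a - j)), e1] at e2
  rw [← e2, h2]
  congr 1 <;> omega

end

end ALTS

theorem stmtAltS (hAlt : QJ.StmtAlt) : StmtAltS := by
  intro X _ _ e s h1 h2 h3 h4 a b c h
  by_cases hs : (3 : ℤ) ∣ s
  · rw [if_pos hs]
    have hm : 3 * (s / 3) = s := Int.mul_ediv_cancel' hs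
    set m := s / 3 with hmdef
    have e1 := hAlt X (fun a b c => e (a + m) (b + m) (c + m)) (fun a b c => h1 _ _ _)
      (fun a b c => h2 _ _ _)
      (fun a b c h => by
        have := h3 (a + m) (b + m) (c + m) (by omega)
        show e (a + 1 + m) (b + m) (c + m) + e (a + m) (b + 1 + m) (c + m)
          + e (a + m) (b + m) (c + 1 + m) = 0
        rw [show a + 1 + m = a + m + 1 by ring, show b + 1 + m = b + m + 1 by ring,
          show c + 1 + m = c + m + 1 by ring]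
        exact this)
      (fun a b c h => by
        have := h4 (a + m) (b + m) (c + m) (by omega)
        show e (a - 1 + m) (b + m) (c + m) + e (a + m) (b - 1 + m) (c + m)
          + e (a + m) (b + m) (c - 1 + m) = 0
        rw [show a - 1 + m = a + m - 1 by ring, show b - 1 + m = b + m - 1 by ring,
          show c - 1 + m = c + m - 1 by ring]
        exact this) (a - m) (b - m) (c - m) (by omega)
    simp only [sub_add_cancel, zero_add] at e1
    rw [e1]
    congr 1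
    unfold cl3
    rw [sub_sub_sub_cancel_right]
  · rw [if_neg hs]
    have e0 := h3 (a - 1) b c (by omega)
    rw [sub_add_cancel] at e0
    have rot1 : e b c a = e a b c := by rw [h2 b a c, h1 a b c]
    have rot2 : e c a b = e a b c := by rw [h1 a c b, h2 a b c]
    have hmod : s % 3 = 1 ∨ s % 3 = 2 := by omega
    have key : e (a - 1) (b + 1) c = e a b c ∧ e (a - 1) b (c + 1) = e a b c := by
      rcases hmod with hr | hr
      · constructor
        · rw [← rot2]
          exact ALTS.cls h2 h3 h4 c a b (a - 1) (b + 1) c ((a - 1 - c - (b + 1 - a)) / 3)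
            (by omega) (by omega) (by omega)
        · rw [← rot1]
          exact ALTS.cls h2 h3 h4 b c a (a - 1) b (c + 1) ((a - 1 - b - (b - c)) / 3)
            (by omega) (by omega) (by omega)
      · constructor
        · rw [← rot1]
          exact ALTS.cls h2 h3 h4 b c a (a - 1) (b + 1) c ((a - 1 - b - (b + 1 - c)) / 3)
            (by omega) (by omega) (by omega)
        · rw [← rot2]
          exact ALTS.cls h2 h3 h4 c a b (a - 1) b (c + 1) ((a - 1 - c - (b - a)) / 3)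
            (by omega) (by omega) (by omega)
    rw [key.1, key.2] at e0
    have e5 : (3 : ℂ) • e a b c = 0 := by
      rw [← e0, show (3 : ℂ) = 1 + 1 + 1 by norm_num, add_smul, add_smul, one_smul]
    exact (smul_eq_zero.1 e5).resolve_left (by norm_num)

end U3


end

section

/-!
APX: the mollifier is an approximate identity.
-/

open Complex MeasureTheory Filter Topology Set
open scoped ContDiff

namespace U3

open QE QJ

noncomputable section

namespace APX

variable {β : ℝ → ℝ} {σ : ℂ → ℝ} {ζ : ℂ → ℂ}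

lemma sig_cd (hσ : ContDiff ℝ ∞ σ) : ContDiff ℝ ∞ (fun w => (σ w : ℂ)) :=
  ofRealCLM.contDiff.comp hσ

lemma sg_cont (hσ : ContDiff ℝ ∞ σ) : Continuous (sg σ) := (contDiff_dz (sig_cd hσ)).continuous

lemma ta_cont (hσ : ContDiff ℝ ∞ σ) (w : ℂ) : Continuous (fun z => ta σ z w) := by
  unfold ta
  have h2 : Continuous (fun z : ℂ => ((sg σ z + sg σ w) * (w - z)).im) :=
    Complex.continuous_im.comp
      (((sg_cont hσ).add continuous_const).mul (continuous_const.sub continuous_id))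
  exact Complex.continuous_exp.comp ((Complex.continuous_ofReal.comp h2).mul continuous_const)

lemma ta_ne (z w : ℂ) : ta σ z w ≠ 0 := Complex.exp_ne_zero _

lemma ta_self (w : ℂ) : ta σ w w = 1 := by
  unfold ta
  simp

lemma ta_norm (z w : ℂ) (k : ℤ) : ‖(ta σ z w)⁻¹ ^ k‖ = 1 := by
  have h : ‖ta σ z w‖ = 1 := by
    unfold ta
    exact Complex.norm_exp_ofReal_mul_I _
  rw [norm_zpow, norm_inv, h, inv_one, one_zpow]

lemma taz_cont (hσ : ContDiff ℝ ∞ σ) (w : ℂ) (k : ℤ) :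
    Continuous (fun z => (ta σ z w)⁻¹ ^ k) :=
  ((ta_cont hσ w).inv₀ fun z => ta_ne z w).zpow₀ k fun z => Or.inl (inv_ne_zero (ta_ne z w))

/-- Change of variables. -/
lemma cov {E : Type*} [NormedAddCommGroup E] [NormedSpace ℝ E] (f : ℂ → E) (w : ℂ) {ε : ℝ}
    (hε : 0 < ε) : ∫ z, f z = ∫ y, (ε ^ 2) • f (w + ε • y) := by
  have h1 : ∫ y : ℂ, f (w + ε • y) = |(ε ^ 2)⁻¹| • ∫ x, f (w + x) := by
    have h := MeasureTheory.Measure.integral_comp_smul (volume : Measure ℂ) (fun x => f (w + x)) ε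
    rw [Complex.finrank_real_complex] at h
    exact h
  rw [integral_smul, h1, abs_of_pos (by positivity), smul_smul, mul_inv_cancel₀ (by positivity),
    one_smul, integral_add_left_eq_self f w]

/-- The rescaled kernel. -/
def kr (β : ℝ → ℝ) (σ : ℂ → ℝ) (ε : ℝ) (w y : ℂ) : ℝ :=
  Real.exp (2 * σ w) * β (Real.exp (σ (w + ε • y) + σ w) * ‖y‖ ^ 2)

lemma ke_eq {ε : ℝ} (hε : 0 < ε) (w y : ℂ) : ε ^ 2 * ke β σ ε (w + ε • y) w = kr β σ ε w y := by
  unfold ke gb kr r2
  have h1 : ‖w - (w + ε • y)‖ = ε * ‖y‖ := by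
    have : w - (w + ε • y) = -(ε • y) := by ring
    rw [this, norm_neg, norm_smul, Real.norm_of_nonneg hε.le]
  have h2 : Real.exp (σ (w + ε • y) + σ w) * ‖w - (w + ε • y)‖ ^ 2 / ε ^ 2
      = Real.exp (σ (w + ε • y) + σ w) * ‖y‖ ^ 2 := by
    rw [h1]
    field_simp
  rw [h2]
  field_simp

lemma beta_bdd (hβ : Bump β) : ∃ B : ℝ, 0 ≤ B ∧ ∀ t, 0 ≤ t → β t ≤ B := by
  obtain ⟨B, hB⟩ := (isCompact_Icc (a := (0 : ℝ)) (b := 1)).exists_bound_of_continuousOn
    hβ.smooth.continuous.continuousOn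
  have hB0 : 0 ≤ B := (norm_nonneg _).trans (hB 0 ⟨le_refl _, zero_le_one⟩)
  refine ⟨B, hB0, fun t ht => ?_⟩
  by_cases h : t ≤ 1
  · exact (le_abs_self _).trans (hB t ⟨ht, h⟩)
  · rw [hβ.supp t (not_le.1 h).le]
    exact hB0

lemma kr_nonneg (hβ : Bump β) (ε : ℝ) (w y : ℂ) : 0 ≤ kr β σ ε w y :=
  mul_nonneg (Real.exp_pos _).le (hβ.nonneg _)

lemma ptw (hβ : Bump β) {B C M N : ℝ} (hB : ∀ t, 0 ≤ t → β t ≤ B)
    (hC : ∀ z, ‖ζ z‖ ≤ C) (hM : ∀ z ∈ tsupport ζ, |σ z| ≤ M) {w : ℂ} (hN : |σ w| ≤ N)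
    (ε : ℝ) (y : ℂ) :
    ‖ζ (w + ε • y)‖ * kr β σ ε w y ≤
      (Metric.closedBall (0 : ℂ) (Real.exp ((M + N) / 2))).indicator
        (fun _ => C * (Real.exp (2 * N) * B)) y := by
  have hC0 : 0 ≤ C := (norm_nonneg _).trans (hC 0)
  by_cases hy : y ∈ Metric.closedBall (0 : ℂ) (Real.exp ((M + N) / 2))
  · rw [Set.indicator_of_mem hy]
    refine mul_le_mul (hC _) ?_ (kr_nonneg hβ ε w y) hC0
    unfold kr
    refine mul_le_mul ?_ (hB _ (by positivity)) (hβ.nonneg _) (Real.exp_pos _).le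
    exact Real.exp_le_exp.2 (by linarith [le_abs_self (σ w)])
  · rw [Set.indicator_of_notMem hy]
    by_cases hz : ζ (w + ε • y) = 0
    · rw [hz, norm_zero, zero_mul]
    · have hs : w + ε • y ∈ tsupport ζ := subset_closure hz
      have h1 := hM _ hs
      have hy' : Real.exp ((M + N) / 2) < ‖y‖ := by
        rw [mem_closedBall_zero_iff, not_le] at hy
        exact hy
      have h2 : Real.exp (M + N) ≤ ‖y‖ ^ 2 := by
        have h3 : Real.exp (M + N) = Real.exp ((M + N) / 2) ^ 2 := by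
          rw [sq, ← Real.exp_add]
          congr 1
          ring
        rw [h3]
        exact pow_le_pow_left₀ (Real.exp_pos _).le hy'.le 2
      have h4 : 1 ≤ Real.exp (σ (w + ε • y) + σ w) * ‖y‖ ^ 2 := by
        have h5 : Real.exp (-(M + N)) ≤ Real.exp (σ (w + ε • y) + σ w) :=
          Real.exp_le_exp.2 (by linarith [neg_abs_le (σ w), neg_abs_le (σ (w + ε • y))])
        calc (1 : ℝ) = Real.exp (-(M + N)) * Real.exp (M + N) := by
              rw [← Real.exp_add, neg_add_cancel, Real.exp_zero]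
          _ ≤ _ := mul_le_mul h5 h2 (Real.exp_pos _).le (Real.exp_pos _).le
      have h6 : kr β σ ε w y = 0 := by
        unfold kr
        rw [hβ.supp _ h4, mul_zero]
      rw [h6, mul_zero]

lemma int_bound (c r : ℝ) : Integrable ((Metric.closedBall (0 : ℂ) r).indicator fun _ => c) :=
  (integrable_indicator_iff measurableSet_closedBall).2
    (integrableOn_const (measure_closedBall_lt_top).ne)

lemma mass (hβ : Bump β) (w : ℂ) :
    ∫ y : ℂ, Real.exp (2 * σ w) * β (Real.exp (σ w + σ w) * ‖y‖ ^ 2) = 1 := by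
  have h1 := cov (fun z : ℂ => β (‖z‖ ^ 2)) 0 (Real.exp_pos (σ w))
  rw [hβ.mass] at h1
  rw [h1]
  refine integral_congr_ae (Eventually.of_forall fun y => ?_)
  have h2 : Real.exp (2 * σ w) = Real.exp (σ w) ^ 2 := by
    rw [sq, ← Real.exp_add]
    congr 1
    ring
  have h3 : ‖(0 : ℂ) + Real.exp (σ w) • y‖ ^ 2 = Real.exp (σ w + σ w) * ‖y‖ ^ 2 := by
    rw [zero_add, norm_smul, Real.norm_of_nonneg (Real.exp_pos _).le, mul_pow, sq (Real.exp (σ w)),
      ← Real.exp_add]
  change Real.exp (2 * σ w) * β (Real.exp (σ w + σ w) * ‖y‖ ^ 2)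
    = Real.exp (σ w) ^ 2 • β (‖(0 : ℂ) + Real.exp (σ w) • y‖ ^ 2)
  rw [h3, h2, smul_eq_mul]

lemma kr_cont (hβ : Bump β) (hσ : ContDiff ℝ ∞ σ) (w : ℂ) :
    Continuous (fun x : ℝ × ℂ => kr β σ x.1 w x.2) := by
  unfold kr
  have h1 := hβ.smooth.continuous
  have h2 := hσ.continuous
  fun_prop

end APX

open _root_.U3.APX in
theorem stmtApx : StmtApx := by
  intro β σ k ζ hβ hσ hζ hζc
  obtain ⟨B, -, hB⟩ := beta_bdd hβ
  obtain ⟨C, hC⟩ := hζ.bounded_above_of_compact_support hζc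
  have hζt : IsCompact (tsupport ζ) := hζc
  obtain ⟨M, hM'⟩ := hζt.exists_bound_of_continuousOn (f := σ) hσ.continuous.continuousOn
  have hM : ∀ z ∈ tsupport ζ, |σ z| ≤ M := hM'
  constructor
  · intro w
    -- the rescaled integrand
    have hF : Continuous (fun x : ℝ × ℂ => ζ (w + x.1 • x.2) *
        ((kr β σ x.1 w x.2 : ℂ) * (ta σ (w + x.1 • x.2) w)⁻¹ ^ k)) := by
      have h0 : Continuous (fun x : ℝ × ℂ => w + x.1 • x.2) := by fun_prop
      have h1 : Continuous (fun x : ℝ × ℂ => ζ (w + x.1 • x.2)) := hζ.comp h0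
      have h2 : Continuous (fun x : ℝ × ℂ => (kr β σ x.1 w x.2 : ℂ)) :=
        Complex.continuous_ofReal.comp (kr_cont hβ hσ w)
      have h3 : Continuous (fun x : ℝ × ℂ => (ta σ (w + x.1 • x.2) w)⁻¹ ^ k) :=
        (taz_cont hσ w k).comp h0
      exact h1.mul (h2.mul h3)
    have hlim : Tendsto (fun ε : ℝ => ∫ y, ζ (w + ε • y) *
        ((kr β σ ε w y : ℂ) * (ta σ (w + ε • y) w)⁻¹ ^ k)) (𝓝[>] 0)
        (𝓝 (∫ y, ζ (w + (0 : ℝ) • y) *
          ((kr β σ 0 w y : ℂ) * (ta σ (w + (0 : ℝ) • y) w)⁻¹ ^ k))) := by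
      refine tendsto_integral_filter_of_dominated_convergence
        ((Metric.closedBall (0 : ℂ) (Real.exp ((M + |σ w|) / 2))).indicator
          (fun _ => C * (Real.exp (2 * |σ w|) * B))) ?_ ?_ (int_bound _ _) ?_
      · refine Eventually.of_forall fun ε => ?_
        exact (hF.comp (Continuous.prodMk_right ε)).aestronglyMeasurable
      · refine Eventually.of_forall fun ε => Eventually.of_forall fun y => ?_
        rw [norm_mul, norm_mul, ta_norm, mul_one, Complex.norm_real,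
          Real.norm_of_nonneg (kr_nonneg hβ ε w y)]
        exact ptw hβ hB hC hM le_rfl ε y
      · refine Eventually.of_forall fun y => ?_
        have h1 : Continuous (fun ε : ℝ => ζ (w + ε • y) *
            ((kr β σ ε w y : ℂ) * (ta σ (w + ε • y) w)⁻¹ ^ k)) :=
          hF.comp (Continuous.prodMk_left y)
        exact (h1.tendsto 0).mono_left nhdsWithin_le_nhds
    have hval : ∫ y, ζ (w + (0 : ℝ) • y) *
        ((kr β σ 0 w y : ℂ) * (ta σ (w + (0 : ℝ) • y) w)⁻¹ ^ k) = ζ w := by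
      have h1 : ∀ y : ℂ, ζ (w + (0 : ℝ) • y) *
          ((kr β σ 0 w y : ℂ) * (ta σ (w + (0 : ℝ) • y) w)⁻¹ ^ k) = ζ w *
          ((Real.exp (2 * σ w) * β (Real.exp (σ w + σ w) * ‖y‖ ^ 2) : ℝ) : ℂ) := by
        intro y
        unfold kr
        rw [zero_smul, add_zero, ta_self, inv_one, one_zpow, mul_one]
      rw [integral_congr_ae (Eventually.of_forall h1), integral_const_mul, integral_complex_ofReal,
        mass hβ w]
      simp
    rw [hval] at hlim
    refine hlim.congr' ?_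
    filter_upwards [self_mem_nhdsWithin] with ε hε
    have hε' : (0 : ℝ) < ε := hε
    rw [cov (fun z => ζ z * ((ke β σ ε z w : ℂ) * (ta σ z w)⁻¹ ^ k)) w hε']
    refine integral_congr_ae (Eventually.of_forall fun y => ?_)
    change ζ (w + ε • y) * ((kr β σ ε w y : ℂ) * (ta σ (w + ε • y) w)⁻¹ ^ k)
      = (ε ^ 2) • (ζ (w + ε • y) * ((ke β σ ε (w + ε • y) w : ℂ) * (ta σ (w + ε • y) w)⁻¹ ^ k))
    have h5 : ∀ (r : ℝ) (x : ℂ), r • x = (r : ℂ) * x := fun r x => Complex.real_smul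
    rw [← ke_eq hε' w y, h5 (ε ^ 2)]
    push_cast
    ring
  · intro K hK
    obtain ⟨N, hN⟩ := hK.exists_bound_of_continuousOn (f := σ) hσ.continuous.continuousOn
    refine ⟨∫ y, (Metric.closedBall (0 : ℂ) (Real.exp ((M + N) / 2))).indicator
      (fun _ => C * (Real.exp (2 * N) * B)) y, 1, one_pos, fun ε hε _ w hw => ?_⟩
    rw [cov (fun z => ‖ζ z‖ * ke β σ ε z w) w hε]
    have h1 : ∀ y : ℂ, (ε ^ 2) • (‖ζ (w + ε • y)‖ * ke β σ ε (w + ε • y) w)
        = ‖ζ (w + ε • y)‖ * kr β σ ε w y := by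
      intro y
      rw [← ke_eq hε w y, smul_eq_mul]
      ring
    rw [integral_congr_ae (Eventually.of_forall h1)]
    refine integral_mono_of_nonneg (Eventually.of_forall fun y => ?_) (int_bound _ _)
      (Eventually.of_forall fun y => ?_)
    · exact mul_nonneg (norm_nonneg _) (kr_nonneg hβ ε w y)
    · exact ptw hβ hB hC hM (hN w hw) ε y

end

end U3


end

section

/-!
Weak convergence of the mollified moments.
-/

open Complex MeasureTheory Filter Topology Set
open scoped ContDiff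

namespace U3

open QE QJ

noncomputable section

namespace PEW

variable {β : ℝ → ℝ} {σ : ℂ → ℝ}

lemma cont_sg (hσ : ContDiff ℝ ∞ σ) : Continuous (sg σ) :=
  (contDiff_dz (contDiff_sig hσ)).continuous

lemma cont_ke (hβ : Bump β) (hσ : ContDiff ℝ ∞ σ) (ε : ℝ) :
    Continuous (fun x : ℂ × ℂ => ke β σ ε x.1 x.2) := by
  have h1 := hβ.smooth.continuous
  have h2 := hσ.continuous
  unfold ke gb r2
  fun_prop

lemma cont_ta (hσ : ContDiff ℝ ∞ σ) : Continuous (fun x : ℂ × ℂ => ta σ x.1 x.2) := by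
  have h1 := cont_sg hσ
  unfold ta
  refine Complex.continuous_exp.comp ((continuous_ofReal.comp (Complex.continuous_im.comp ?_)).mul
    continuous_const)
  exact ((h1.comp continuous_fst).add (h1.comp continuous_snd)).mul
    (continuous_snd.sub continuous_fst)

lemma ta_ne (z w : ℂ) : ta σ z w ≠ 0 := Complex.exp_ne_zero _

lemma norm_ta (z w : ℂ) : ‖ta σ z w‖ = 1 := by
  unfold ta
  exact Complex.norm_exp_ofReal_mul_I _

lemma cont_ker (hβ : Bump β) (hσ : ContDiff ℝ ∞ σ) (ε : ℝ) (k : ℤ) :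
    Continuous (fun x : ℂ × ℂ => (ke β σ ε x.1 x.2 : ℂ) * (ta σ x.1 x.2)⁻¹ ^ k) := by
  refine (continuous_ofReal.comp (cont_ke hβ hσ ε)).mul ?_
  exact ((cont_ta hσ).inv₀ fun x => ta_ne x.1 x.2).zpow₀ k fun x =>
    Or.inl (inv_ne_zero (ta_ne x.1 x.2))

lemma ke_nonneg (hβ : Bump β) (ε : ℝ) (z w : ℂ) : 0 ≤ ke β σ ε z w := by
  unfold ke gb
  have := hβ.nonneg (r2 σ z w / ε ^ 2)
  positivity

lemma norm_ker (hβ : Bump β) (ε : ℝ) (k : ℤ) (z w : ℂ) :
    ‖(ke β σ ε z w : ℂ) * (ta σ z w)⁻¹ ^ k‖ = ke β σ ε z w := by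
  rw [norm_mul, norm_zpow, norm_inv, norm_ta, inv_one, one_zpow, mul_one, Complex.norm_real,
    Real.norm_of_nonneg (ke_nonneg hβ ε z w)]

lemma meas_zpow (k : ℤ) : Measurable (fun z : ℂ => z ^ k) := by
  rcases k with k | k
  · simp only [Int.ofNat_eq_natCast, zpow_natCast]
    fun_prop
  · simp only [zpow_negSucc]
    fun_prop

end PEW

open _root_.U3.PEW

theorem stmtPeW (hApx : StmtApx) : StmtPeW := by
  intro β V σ Ω _ μ p u ε k hβ hσ hD hε hε0 ζ hζ hζc
  have : IsFiniteMeasure μ := ⟨lt_top_iff_ne_top.2 hD.fin⟩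
  obtain ⟨K, hK, hpK⟩ := hD.cpt
  obtain ⟨hlim, hbd⟩ := hApx β σ k ζ hβ hσ hζ hζc
  obtain ⟨C, ε₀, hε₀, hC⟩ := hbd K hK
  -- the joint integrand
  set ker : ℝ → ℂ → ℂ → ℂ := fun e z w => (ke β σ e z w : ℂ) * (ta σ z w)⁻¹ ^ k with hker
  have huk : Measurable (fun o => u o ^ k) := (meas_zpow k).comp hD.mu
  have hnu : ∀ o, ‖u o ^ k‖ = 1 := fun o => by rw [norm_zpow, hD.unit o, one_zpow]
  have hmeas : ∀ e : ℝ, Measurable (fun x : ℂ × Ω => ζ x.1 * ker e x.1 (p x.2) * u x.2 ^ k) := by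
    intro e
    have h1 : Measurable (fun x : ℂ × Ω => ker e x.1 (p x.2)) :=
      (cont_ker hβ hσ e k).measurable.comp (measurable_fst.prodMk (hD.mp.comp measurable_snd))
    exact ((hζ.measurable.comp measurable_fst).mul h1).mul (huk.comp measurable_snd)
  have hpe : ∀ n z, ζ z * pe β σ (ε n) μ p u k z
      = ∫ o, ζ z * ker (ε n) z (p o) * u o ^ k ∂μ := by
    intro n z
    unfold pe
    rw [← integral_const_mul]
    refine integral_congr_ae (Eventually.of_forall fun o => ?_)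
    simp only [hker, mul_zpow]
    ring
  -- integrability on the product
  have hint : ∀ n, Integrable (fun x : ℂ × Ω => ζ x.1 * ker (ε n) x.1 (p x.2) * u x.2 ^ k)
      (volume.prod μ) := by
    intro n
    -- the kernel is bounded on the product of the support of `ζ` and `K`
    have hcont : Continuous (fun x : ℂ × ℂ => ke β σ (ε n) x.1 x.2) := cont_ke hβ hσ (ε n)
    obtain ⟨B, hB⟩ := (hζc.isCompact.prod hK).exists_bound_of_continuousOn hcont.continuousOn
    have hdom : Integrable (fun x : ℂ × Ω => ‖ζ x.1‖ * |B|) (volume.prod μ) := by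
      have h1 : Integrable (fun z => ‖ζ z‖) (volume : Measure ℂ) :=
        (hζ.norm.integrable_of_hasCompactSupport hζc.norm)
      have h2 : Integrable (fun _ : Ω => |B|) μ := integrable_const _
      exact h1.mul_prod h2
    refine hdom.mono' (hmeas (ε n)).aestronglyMeasurable ?_
    have hae : ∀ᵐ x : ℂ × Ω ∂(volume.prod μ), p x.2 ∈ K :=
      (Measure.quasiMeasurePreserving_snd (μ := (volume : Measure ℂ)) (ν := μ)).ae hpK
    filter_upwards [hae] with x hx
    rw [norm_mul, norm_mul, hnu, mul_one, hker]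
    simp only
    rw [norm_ker hβ]
    by_cases hz : x.1 ∈ tsupport ζ
    · have h1 := hB (x.1, p x.2) ⟨hz, hx⟩
      rw [Real.norm_of_nonneg (ke_nonneg hβ _ _ _)] at h1
      exact mul_le_mul_of_nonneg_left (h1.trans (le_abs_self B)) (norm_nonneg _)
    · rw [image_eq_zero_of_notMem_tsupport hz]
      simp
  have hswap : ∀ n, ∫ z, ζ z * pe β σ (ε n) μ p u k z
      = ∫ o, (∫ z : ℂ, ζ z * ker (ε n) z (p o) * u o ^ k) ∂μ := by
    intro n
    simp only [hpe]
    exact integral_integral_swap (f := fun z o => ζ z * ker (ε n) z (p o) * u o ^ k) (hint n)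
  simp only [hswap]
  have hev : ∀ᶠ n in atTop, ε n < ε₀ := (tendsto_order.1 hε0).2 _ hε₀
  have hε0' : Tendsto ε atTop (𝓝[>] 0) :=
    tendsto_nhdsWithin_iff.2 ⟨hε0, Eventually.of_forall fun n => hε n⟩
  refine tendsto_integral_filter_of_dominated_convergence (fun _ => C) ?_ ?_ (integrable_const _) ?_
  · refine Eventually.of_forall fun n => ?_
    have h1 : StronglyMeasurable (fun x : Ω × ℂ => ζ x.2 * ker (ε n) x.2 (p x.1) * u x.1 ^ k) :=
      ((hmeas (ε n)).comp measurable_swap).stronglyMeasurable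
    exact h1.integral_prod_right'.aestronglyMeasurable
  · filter_upwards [hev] with n hn
    filter_upwards [hpK] with o ho
    have h1 := hC (ε n) (hε n) hn (p o) ho
    refine (norm_integral_le_integral_norm _).trans (le_trans (le_of_eq ?_) h1)
    refine integral_congr_ae (Eventually.of_forall fun z => ?_)
    simp only
    rw [norm_mul, norm_mul, hnu, mul_one, hker]
    simp only
    rw [norm_ker hβ]
  · refine Eventually.of_forall fun o => ?_
    have h1 : ∀ n, ∫ z, ζ z * ker (ε n) z (p o) * u o ^ k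
        = (∫ z, ζ z * ker (ε n) z (p o)) * u o ^ k := fun n => integral_mul_const _ _
    simp only [h1]
    exact ((hlim (p o)).comp hε0').mul_const _

end

end U3


end

section

/-!
Third order statistics of all eigenfunctions on surfaces of negative curvature: the sum of the Wick
terms of the cubic argument (module WKS).
-/

open Complex MeasureTheory Filter Topology Set
open scoped ContDiff

namespace U3

open QE QJ

namespace WKS

theorem GM_sq (M : ℕ) (z : ℂ) :
    GM M z ^ 2 = ∑ b ∈ Finset.range M ×ˢ Finset.range M, z ^ (b.1 + b.2) := by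
  rw [sq, GM, Finset.sum_mul_sum, Finset.sum_product]
  simp only [pow_add]

theorem w3_norm : ‖w3‖ = 1 := by
  have e : (2 * Real.pi * Complex.I / 3 : ℂ) = ((2 * Real.pi / 3 : ℝ) : ℂ) * Complex.I := by
    push_cast
    ring
  rw [w3, e, Complex.norm_exp_ofReal_mul_I]

theorem w3_ne : w3 ≠ 0 := by
  intro h
  have := w3_norm
  rw [h] at this
  simp at this

theorem w3_cube : w3 ^ 3 = 1 := by
  rw [w3, ← Complex.exp_nat_mul]
  have e : ((3 : ℕ) : ℂ) * (2 * Real.pi * Complex.I / 3) = 2 * Real.pi * Complex.I := by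
    push_cast
    ring
  rw [e, Complex.exp_two_pi_mul_I]

theorem GM_zero {M : ℕ} (h6 : 6 ∣ M) : GM M (-w3) = 0 := by
  have h1 : (-w3) ≠ 1 := by
    intro h
    have h2 : w3 = -1 := by rw [← h, neg_neg]
    have h3 := w3_cube
    rw [h2] at h3
    norm_num at h3
  obtain ⟨k, rfl⟩ := h6
  have h2 : (-w3) ^ (6 * k) = 1 := by
    rw [pow_mul]
    have h3 : (-w3) ^ 6 = (w3 ^ 3) ^ 2 := by ring
    rw [h3, w3_cube]
    simp
  rw [GM, geom_sum_eq h1, h2]
  simp

/-- the expansion of the kernel -/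
theorem FM_eq (M : ℕ) {t : ℂ} (ht : ‖t‖ = 1) :
    FM M t = ∑ c ∈ Finset.range M, ∑ b ∈ Finset.range M ×ˢ Finset.range M,
      ∑ b' ∈ Finset.range M ×ˢ Finset.range M,
        (w3 ^ (((b.1 : ℤ) + b.2) - (b'.1 + b'.2)) * t ^ (((b.1 : ℤ) + b.2) - (b'.1 + b'.2))
          + w3 ^ (((b.1 : ℤ) + b.2) - (b'.1 + b'.2)) *
            t ^ (((b.1 : ℤ) + b.2) + (b'.1 + b'.2) + c)) := by
  have ht0 : t ≠ 0 := by
    intro h
    rw [h] at ht
    simp at ht
  have hw0 := w3_ne
  have hwt : ‖w3 * t‖ = 1 := by rw [norm_mul, w3_norm, ht, one_mul]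
  have hc : (starRingEnd ℂ) w3 = w3⁻¹ := (Complex.inv_eq_conj w3_norm).symm
  have hc2 : (starRingEnd ℂ) (GM M (w3 * t) ^ 2)
      = ∑ b ∈ Finset.range M ×ˢ Finset.range M, ((w3 * t)⁻¹) ^ (b.1 + b.2) := by
    rw [GM_sq, map_sum]
    refine Finset.sum_congr rfl fun b _ => ?_
    rw [map_pow, Complex.inv_eq_conj hwt]
  simp only [Finset.sum_add_distrib]
  rw [FM]
  congr 1
  · rw [Finset.sum_const, Finset.card_range, nsmul_eq_mul, hc2, GM_sq, Finset.sum_mul_sum]
    congr 1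
    refine Finset.sum_congr rfl fun b _ => Finset.sum_congr rfl fun b' _ => ?_
    rw [← mul_zpow, zpow_sub₀ (mul_ne_zero hw0 ht0), inv_pow, div_eq_mul_inv]
    congr 1
  · rw [GM_sq, GM_sq, GM, Finset.sum_mul_sum, Finset.mul_sum]
    refine Finset.sum_congr rfl fun c _ => ?_
    rw [Finset.sum_mul]
    refine Finset.sum_congr rfl fun b _ => ?_
    rw [Finset.sum_mul]
    refine Finset.sum_congr rfl fun b' _ => ?_
    rw [hc, mul_pow, mul_pow, zpow_sub₀ hw0, zpow_add₀ ht0, zpow_add₀ ht0, zpow_natCast]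
    have e1 : w3 ^ ((b.1 : ℤ) + b.2) = w3 ^ (b.1 + b.2) := by
      rw [← zpow_natCast]
      push_cast
      rfl
    have e2 : w3 ^ ((b'.1 : ℤ) + b'.2) = w3 ^ (b'.1 + b'.2) := by
      rw [← zpow_natCast]
      push_cast
      rfl
    have e3 : t ^ ((b.1 : ℤ) + b.2) = t ^ (b.1 + b.2) := by
      rw [← zpow_natCast]
      push_cast
      rfl
    have e4 : t ^ ((b'.1 : ℤ) + b'.2) = t ^ (b'.1 + b'.2) := by
      rw [← zpow_natCast]
      push_cast
      rfl
    rw [e1, e2, e3, e4, inv_pow]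
    ring

end WKS

open _root_.U3.WKS

/-- WKS -/
theorem stmtWks : StmtWks := by
  intro Ω _ μ κ U M P z hfin hκ hUm hU hP hodd h6 hM
  haveI : IsFiniteMeasure μ := ⟨lt_top_iff_ne_top.2 hfin⟩
  have hU0 : ∀ o, U o ≠ 0 := fun o h => by
    have := hU o
    rw [h] at this
    simp at this
  -- the functions
  have hf : ∀ k : ℤ, Integrable (fun o => (κ o : ℂ) * U o ^ k) μ := by
    intro k
    refine hκ.ofReal.mul_bdd (c := 1) ?_ (Eventually.of_forall fun o => ?_)
    · exact (hUm.pow_const k).aestronglyMeasurable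
    · rw [norm_zpow, hU o, one_zpow]
  have hprod : ∀ k : ℤ, Integrable (fun x : Ω × Ω => ((κ x.1 * κ x.2 : ℝ) : ℂ) *
      (U x.1 / U x.2) ^ k) (μ.prod μ) := by
    intro k
    refine ((hf k).mul_prod (hf (-k))).congr (Eventually.of_forall fun x => ?_)
    simp only
    rw [div_zpow, zpow_neg]
    push_cast
    ring
  have hE : ∀ k : ℤ, ∫ x : Ω × Ω, ((κ x.1 * κ x.2 : ℝ) : ℂ) * (U x.1 / U x.2) ^ k ∂(μ.prod μ)
      = P k z * P (-k) z := by
    intro k
    rw [hP, hP, ← integral_prod_mul]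
    congr 1
    ext x
    rw [div_zpow, zpow_neg]
    push_cast
    ring
  have hT : ∀ (w v : ℂ) (k l : ℤ), Integrable (fun x : Ω × Ω =>
      w * (((κ x.1 * κ x.2 : ℝ) : ℂ) * (U x.1 / U x.2) ^ k)
        + v * (((κ x.1 * κ x.2 : ℝ) : ℂ) * (U x.1 / U x.2) ^ l)) (μ.prod μ) :=
    fun w v k l => ((hprod k).const_mul w).add ((hprod l).const_mul v)
  have hTi : ∀ (w v : ℂ) (k l : ℤ), ∫ x : Ω × Ω,
      (w * (((κ x.1 * κ x.2 : ℝ) : ℂ) * (U x.1 / U x.2) ^ k)
        + v * (((κ x.1 * κ x.2 : ℝ) : ℂ) * (U x.1 / U x.2) ^ l)) ∂(μ.prod μ)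
      = w * (P k z * P (-k) z) + v * (P l z * P (-l) z) := by
    intro w v k l
    rw [integral_add ((hprod k).const_mul w) ((hprod l).const_mul v), integral_const_mul,
      integral_const_mul, hE, hE]
  -- the right hand side
  have hR : ∫ x : Ω × Ω, ((κ x.1 * κ x.2 : ℝ) : ℂ) * FM M (U x.1 / U x.2) ∂(μ.prod μ)
      = ∑ c ∈ Finset.range M, ∑ b ∈ Finset.range M ×ˢ Finset.range M,
      ∑ b' ∈ Finset.range M ×ˢ Finset.range M,
        (w3 ^ (((b.1 : ℤ) + b.2) - (b'.1 + b'.2)) *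
          (P (((b.1 : ℤ) + b.2) - (b'.1 + b'.2)) z * P (-(((b.1 : ℤ) + b.2) - (b'.1 + b'.2))) z)
          + w3 ^ (((b.1 : ℤ) + b.2) - (b'.1 + b'.2)) *
            (P (((b.1 : ℤ) + b.2) + (b'.1 + b'.2) + c) z *
              P (-(((b.1 : ℤ) + b.2) + (b'.1 + b'.2) + c)) z)) := by
    have e : ∀ x : Ω × Ω, ((κ x.1 * κ x.2 : ℝ) : ℂ) * FM M (U x.1 / U x.2)
        = ∑ c ∈ Finset.range M, ∑ b ∈ Finset.range M ×ˢ Finset.range M,
          ∑ b' ∈ Finset.range M ×ˢ Finset.range M,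
          (w3 ^ (((b.1 : ℤ) + b.2) - (b'.1 + b'.2)) * (((κ x.1 * κ x.2 : ℝ) : ℂ) *
            (U x.1 / U x.2) ^ (((b.1 : ℤ) + b.2) - (b'.1 + b'.2)))
          + w3 ^ (((b.1 : ℤ) + b.2) - (b'.1 + b'.2)) * (((κ x.1 * κ x.2 : ℝ) : ℂ) *
            (U x.1 / U x.2) ^ (((b.1 : ℤ) + b.2) + (b'.1 + b'.2) + c))) := by
      intro x
      rw [FM_eq M (t := U x.1 / U x.2) (by rw [norm_div, hU, hU, div_one])]
      simp only [Finset.mul_sum]
      refine Finset.sum_congr rfl fun c _ => Finset.sum_congr rfl fun b _ =>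
        Finset.sum_congr rfl fun b' _ => ?_
      ring
    rw [integral_congr_ae (Eventually.of_forall e),
      integral_finsetSum _ fun c _ => integrable_finsetSum _ fun b _ =>
      integrable_finsetSum _ fun b' _ => hT _ _ _ _]
    refine Finset.sum_congr rfl fun c _ => ?_
    rw [integral_finsetSum _ fun b _ =>
      integrable_finsetSum _ fun b' _ => hT _ _ _ _]
    refine Finset.sum_congr rfl fun b _ => ?_
    rw [integral_finsetSum _ fun b' _ => hT _ _ _ _]
    exact Finset.sum_congr rfl fun b' _ => hTi _ _ _ _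
  rw [hR]
  -- the left hand side
  have h0 : ∀ c : ℕ, ∑ b ∈ Finset.range M ×ˢ Finset.range M,
      ∑ b' ∈ Finset.range M ×ˢ Finset.range M,
        (-w3) ^ (b.1 + b.2) * ((-w3)⁻¹ ^ (b'.1 + b'.2) * ((-1) ^ c * (P (-(c : ℤ)) z * P c z)))
        = 0 := by
    intro c
    simp only [← Finset.mul_sum]
    rw [← Finset.sum_mul, ← GM_sq, GM_zero h6]
    ring
  have hL : ∀ (c : ℕ) (b b' : ℕ × ℕ), w3 ^ (((b.1 : ℤ) + b.2) - (b'.1 + b'.2)) * (-1) ^ c *
          wkp P (-((b.1 : ℤ) + b.2) - c) (b.1 + b.2) (b'.1 + b'.2 + c) (-((b'.1 : ℤ) + b'.2)) z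
      = (-w3) ^ (b.1 + b.2) * ((-w3)⁻¹ ^ (b'.1 + b'.2) * ((-1) ^ c * (P (-(c : ℤ)) z * P c z)))
        + (w3 ^ (((b.1 : ℤ) + b.2) - (b'.1 + b'.2)) *
          (P (((b.1 : ℤ) + b.2) - (b'.1 + b'.2)) z * P (-(((b.1 : ℤ) + b.2) - (b'.1 + b'.2))) z)
          + w3 ^ (((b.1 : ℤ) + b.2) - (b'.1 + b'.2)) *
            (P (((b.1 : ℤ) + b.2) + (b'.1 + b'.2) + c) z *
              P (-(((b.1 : ℤ) + b.2) + (b'.1 + b'.2) + c)) z)) := by
    intro c b b'
    have e1 : (-w3) ^ (b.1 + b.2) = (-w3) ^ ((b.1 : ℤ) + b.2) := by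
      rw [← zpow_natCast]
      push_cast
      rfl
    have e2 : (-w3)⁻¹ ^ (b'.1 + b'.2) = ((-w3) ^ ((b'.1 : ℤ) + b'.2))⁻¹ := by
      rw [← zpow_natCast, inv_zpow]
      push_cast
      rfl
    rw [e1, e2]
    generalize (b.1 : ℤ) + b.2 = B
    generalize (b'.1 : ℤ) + b'.2 = B'
    have e3 : (-w3) ^ B * ((-w3) ^ B')⁻¹ = w3 ^ (B - B') * (-1) ^ (B - B') := by
      rw [← div_eq_mul_inv, ← zpow_sub₀ (neg_ne_zero.2 w3_ne), ← mul_zpow, mul_neg_one]
    have e4 : ((-1 : ℂ)) ^ c * (-1) ^ c = 1 := by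
      rw [← mul_pow]
      simp
    have e5 : (-w3) ^ B * (((-w3) ^ B')⁻¹ * ((-1) ^ c * (P (-(c : ℤ)) z * P c z)))
        = w3 ^ (B - B') * (-1) ^ (B - B') * ((-1) ^ c * (P (-(c : ℤ)) z * P c z)) := by
      rw [← mul_assoc, e3]
    rw [e5, wkp]
    have i1 : -B - (c : ℤ) + B = -c := by ring
    have i2 : B' + (c : ℤ) + -B' = c := by ring
    have i3 : -B - (c : ℤ) + (B' + c) = -(B - B') := by ring
    have i4 : B + -B' = B - B' := by ring
    have i5 : -B - (c : ℤ) + -B' = -(B + B' + c) := by ring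
    have i6 : B + (B' + (c : ℤ)) = B + B' + c := by ring
    rw [i1, i2, i3, i4, i5, i6, zpow_natCast]
    linear_combination (w3 ^ (B - B') * (P (-(B - B')) z * P (B - B') z)
      + w3 ^ (B - B') * (P (-(B + B' + c)) z * P (B + B' + c) z)) * e4
  have hS : ∀ c : ℕ, ∑ b ∈ Finset.range M ×ˢ Finset.range M,
      ∑ b' ∈ Finset.range M ×ˢ Finset.range M,
        w3 ^ (((b.1 : ℤ) + b.2) - (b'.1 + b'.2)) * (-1) ^ c *
          wkp P (-((b.1 : ℤ) + b.2) - c) (b.1 + b.2) (b'.1 + b'.2 + c) (-((b'.1 : ℤ) + b'.2)) z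
      = ∑ b ∈ Finset.range M ×ˢ Finset.range M,
      ∑ b' ∈ Finset.range M ×ˢ Finset.range M,
        (w3 ^ (((b.1 : ℤ) + b.2) - (b'.1 + b'.2)) *
          (P (((b.1 : ℤ) + b.2) - (b'.1 + b'.2)) z * P (-(((b.1 : ℤ) + b.2) - (b'.1 + b'.2))) z)
          + w3 ^ (((b.1 : ℤ) + b.2) - (b'.1 + b'.2)) *
            (P (((b.1 : ℤ) + b.2) + (b'.1 + b'.2) + c) z *
              P (-(((b.1 : ℤ) + b.2) + (b'.1 + b'.2) + c)) z)) := by
    intro c
    rw [Finset.sum_congr rfl fun b _ => Finset.sum_congr rfl fun b' _ => hL c b b']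
    rw [Finset.sum_congr rfl fun b _ => Finset.sum_add_distrib, Finset.sum_add_distrib, h0 c,
      zero_add]
  exact Finset.sum_congr rfl fun c _ => hS c

end U3


end
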