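import Mathlib
import Pool.Agent.BWM.C17
import Pool.Agent.BWM.C22
import Pool.Agent.BWM.C23
import Pool.Agent.BWM.C24
import Pool.Agent.BWM.C26
import Pool.Agent.BWM.C27
import Pool.Agent.BWM.C28
import Pool.Agent.BWM.C29
import Pool.Agent.BWM.C31
import Pool.Agent.BWM.C32
import Pool.Agent.BWM.C33
import Pool.Agent.BWM.C34
import Pool.Agent.BWM.C35
import Pool.Agent.BWM.C36
import Pool.Agent.BWM.C37
import Pool.Agent.BWM.C38
import Pool.Agent.BWM.C39

/-! Parts: QJ.JETB, QJ.ONE, QJ.TRI, QJ.AllA, U3.NFM, U3.TRIQ, U3.AllA, U3.VEL, U3.INF, U3.ECG, U3.WGL, U3.E3G, U3.AllG, QJ.DSU, QJ.AllC, QJ.INVG, QJ.AllB, U3.LWU, U3.LOGU -/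

section

/-!
The rescaled mixed derivatives are covariant jets up to `O(h)`.
-/

open Complex MeasureTheory Filter Topology Set
open scoped ContDiff

namespace QJ

open QE

noncomputable section

namespace JETB

variable {V : Set ℂ} {σ : ℂ → ℝ} {h : ℕ → ℝ} {φ : ℕ → ℂ → ℂ}

/-- the conclusion for given `a`, `b` -/
def Cl (V : Set ℂ) (σ : ℂ → ℝ) (h : ℕ → ℝ) (φ : ℕ → ℂ → ℂ) (a b : ℕ) : Prop :=
  ∃ A, Dom V h φ 1 A ∧ ∀ n, ∀ z ∈ V,
    ex σ (-(a + b)) z * W h φ a b n z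
      = (2 : ℂ)⁻¹ ^ (a + b) * (-1) ^ b * E σ h φ ((a : ℤ) - b) n z + (h n : ℂ) * A n z

lemma cl_zero (L : Loc V σ h φ) : Cl V σ h φ 0 0 := by
  refine ⟨fun _ _ => 0, Dom.of_fn L.op L.hlim 1 contDiff_const, fun n z _ => ?_⟩
  have e0 : E σ h φ (((0 : ℕ) : ℤ) - ((0 : ℕ) : ℤ)) = φ := rfl
  have e1 : (-(((0 : ℕ) : ℤ) + ((0 : ℕ) : ℤ))) = 0 := by norm_num
  rw [e0, e1, W_zero, ex_zero]
  simp

lemma step_b (hJ : StmtJetA) (L : Loc V σ h φ) {a b : ℕ} (hc : Cl V σ h φ a b) :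
    Cl V σ h φ a (b + 1) := by
  obtain ⟨A, hA, hE⟩ := hc
  obtain ⟨dE, -, A1, hA1, hD⟩ := hJ V σ h φ L ((a : ℤ) - b)
  have hσ := L.sm
  have hs := contDiff_dzb (contDiff_sig hσ)
  set c : ℂ := (2 : ℂ)⁻¹ ^ (a + b) * (-1) ^ b with hcdef
  have t1 := (hA1.hmul L.op L.hlim).smul L.op (2⁻¹ * c)
  have t2 := dE.fn_mul L.op L.hlim (b := fun z => -(c * (((a : ℤ) - b : ℤ) : ℂ)
    * (ex σ (-1) z * dzb (fun w => (σ w : ℂ)) z)))
    (contDiff_const.mul ((contDiff_ex hσ (-1)).mul hs)).neg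
  have t3 := hA.hdzb.fn_mul L.op L.hlim (contDiff_ex hσ (-1))
  have t4 := (Dom.W (h := h) L.smφ L.op a b).fn_mul L.op L.hlim (b := fun z => ((a : ℂ) + b)
    * (ex σ (-1) z * dzb (fun w => (σ w : ℂ)) z * ex σ (-(a + b)) z))
    (contDiff_const.mul (((contDiff_ex hσ (-1)).mul hs).mul (contDiff_ex hσ _)))
  refine ⟨_, ((t1.add L.op t2).add L.op t3).add L.op t4, fun n z hz => ?_⟩
  have sE := dE.smooth n
  have sA := hA.smooth n
  have sW := contDiff_W (h := h) L.smφ a b n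
  have hEn := hE n
  have h1 := dzb_congr_on L.op hEn hz
  rw [dzb_mul (cd_at (contDiff_ex hσ _) z) (cd_at sW z), dzb_ex hσ,
    dzb_add ((cd_at sE z).const_mul _) ((cd_at sA z).const_mul _), dzb_const_mul _ (cd_at sE z),
    dzb_const_mul _ (cd_at sA z)] at h1
  have h2 := hD n z hz
  rw [Db_eq hσ _ (cd_at sE z)] at h2
  have e1 : ((a : ℤ) - ((b + 1 : ℕ) : ℤ)) = (a : ℤ) - b - 1 := by push_cast; ring
  have e2 : (-((a : ℤ) + ((b + 1 : ℕ) : ℤ))) = -1 + (-((a : ℤ) + b)) := by push_cast; ring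
  rw [e1, e2, ← ex_mul, ← hdzb_W L.smφ, ← add_assoc, pow_succ, pow_succ]
  have e3 : (2 : ℂ)⁻¹ ^ (a + b) * (2 : ℂ)⁻¹ * ((-1) ^ b * -1) = -(2⁻¹ * c) := by
    rw [hcdef]; ring
  rw [e3]
  push_cast at h1 h2 ⊢
  linear_combination (h n : ℂ) * ex σ (-1) z * h1 + (2⁻¹ * c) * h2

lemma step_a (hJ : StmtJetA) (L : Loc V σ h φ) {a b : ℕ} (hc : Cl V σ h φ a b) :
    Cl V σ h φ (a + 1) b := by
  obtain ⟨A, hA, hE⟩ := hc
  obtain ⟨dE, ⟨A1, hA1, hD⟩, -⟩ := hJ V σ h φ L ((a : ℤ) - b)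
  have hσ := L.sm
  have hs := contDiff_dz (contDiff_sig hσ)
  set c : ℂ := (2 : ℂ)⁻¹ ^ (a + b) * (-1) ^ b with hcdef
  have t1 := (hA1.hmul L.op L.hlim).smul L.op (2⁻¹ * c)
  have t2 := dE.fn_mul L.op L.hlim (b := fun z => (c * (((a : ℤ) - b : ℤ) : ℂ)
    * (ex σ (-1) z * dz (fun w => (σ w : ℂ)) z)))
    (contDiff_const.mul ((contDiff_ex hσ (-1)).mul hs))
  have t3 := hA.hdz.fn_mul L.op L.hlim (contDiff_ex hσ (-1))
  have t4 := (Dom.W (h := h) L.smφ L.op a b).fn_mul L.op L.hlim (b := fun z => ((a : ℂ) + b)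
    * (ex σ (-1) z * dz (fun w => (σ w : ℂ)) z * ex σ (-(a + b)) z))
    (contDiff_const.mul (((contDiff_ex hσ (-1)).mul hs).mul (contDiff_ex hσ _)))
  refine ⟨_, ((t1.add L.op t2).add L.op t3).add L.op t4, fun n z hz => ?_⟩
  have sE := dE.smooth n
  have sA := hA.smooth n
  have sW := contDiff_W (h := h) L.smφ a b n
  have hEn := hE n
  have h1 := dz_congr_on L.op hEn hz
  rw [dz_mul (cd_at (contDiff_ex hσ _) z) (cd_at sW z), dz_ex hσ,
    dz_add ((cd_at sE z).const_mul _) ((cd_at sA z).const_mul _), dz_const_mul _ (cd_at sE z),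
    dz_const_mul _ (cd_at sA z)] at h1
  have h2 := hD n z hz
  rw [D_eq hσ _ (cd_at sE z)] at h2
  have e1 : (((a + 1 : ℕ) : ℤ) - (b : ℤ)) = (a : ℤ) - b + 1 := by push_cast; ring
  have e2 : (-(((a + 1 : ℕ) : ℤ) + (b : ℤ))) = -1 + (-((a : ℤ) + b)) := by push_cast; ring
  have e4 : a + 1 + b = a + b + 1 := by ring
  rw [e1, e2, ← ex_mul, ← hdz_W L.smφ, e4, pow_succ]
  have e3 : (2 : ℂ)⁻¹ ^ (a + b) * (2 : ℂ)⁻¹ * (-1) ^ b = 2⁻¹ * c := by
    rw [hcdef]; ring
  rw [e3]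
  push_cast at h1 h2 ⊢
  linear_combination (h n : ℂ) * ex σ (-1) z * h1 + (2⁻¹ * c) * h2

end JETB

open _root_.QJ.JETB in
theorem stmtJetB (hJetA : StmtJetA) : StmtJetB := by
  intro V σ h φ L a b
  have h0 : ∀ b : ℕ, Cl V σ h φ 0 b := by
    intro b
    induction b with
    | zero => exact cl_zero L
    | succ b ih => exact step_b hJetA L ih
  have h1 : ∀ a : ℕ, Cl V σ h φ a b := by
    intro a
    induction a with
    | zero => exact h0 b
    | succ a ih => exact step_a hJetA L ih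
  exact h1 a

end

end QJ


end

section

/-!
The one-jet limits.
-/

open Complex MeasureTheory Filter Topology Set
open scoped ContDiff

namespace QJ

open QE

noncomputable section

namespace ONE

variable {V : Set ℂ} {σ : ℂ → ℝ} {h : ℕ → ℝ} {φ : ℕ → ℂ → ℂ}

lemma step (hInt : StmtInt) (hIbp : StmtIbp) (hJ : StmtJetA) (L : Loc V σ h φ)
    (hG : Grow V h φ) {ζ : ℂ → ℂ} (hζ : Test V ζ) (j : ℤ) :
    Tendsto (fun n => ∫ z, ζ z * E σ h φ (j + 1) n z) atTop (𝓝 0) := by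
  obtain ⟨dj, ⟨A1, hA1, h1⟩, -⟩ := hJ V σ h φ L j
  obtain ⟨dj1, -, -⟩ := hJ V σ h φ L (j + 1)
  have i1 := (hIbp V σ h φ _ j L.op L.sm L.hpos L.hlim L.smφ hG dj.smooth
    (dj.mono (by norm_num : 1 ≤ 4)).bq ζ hζ).1
  have i2 := (TWO.hlimC L).mul
    (TWO.hlim4 hInt L hG hA1.smooth (hA1.mono (by norm_num : 1 ≤ 4)).bq hζ)
  have i3 := i1.sub i2
  rw [mul_zero, sub_zero] at i3
  refine i3.congr fun n => ?_
  have e : ∀ z, ζ z * ((h n : ℂ) * D σ j (E σ h φ j n) z)
      = ζ z * E σ h φ (j + 1) n z + (h n : ℂ) ^ 2 * (ζ z * A1 n z) := by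
    intro z
    by_cases hz : z ∈ V
    · rw [h1 n z hz]; ring
    · rw [TWO.zero_off hζ hz]; ring
  have k1 : Integrable (fun z => ζ z * E σ h φ (j + 1) n z) :=
    hζ.integrable_mul L.op (dj1.smooth n).continuous.continuousOn
  have k2 : Integrable (fun z => ζ z * A1 n z) :=
    hζ.integrable_mul L.op (hA1.smooth n).continuous.continuousOn
  simp only [e]
  rw [integral_add k1 (k2.const_mul _), integral_const_mul]
  ring

end ONE

open _root_.QJ.ONE in
theorem stmtOne (hGro : StmtGro) (hInt : StmtInt) (hIbp : StmtIbp) (hJetA : StmtJetA) :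
    StmtOne := by
  intro V σ h φ L j ζ hζ
  have := step hInt hIbp hJetA L (hGro V σ h φ L) hζ (j - 1)
  rwa [sub_add_cancel] at this

end

end QJ


end

section

/-!
TRI: products of jets form triples.
-/

open Complex MeasureTheory Filter Topology Set
open scoped ContDiff

namespace QJ

open QE

noncomputable section

namespace TRI

variable {V : Set ℂ} {σ : ℂ → ℝ} {h : ℕ → ℝ} {φ : ℕ → ℂ → ℂ}

lemma l2z_congr {u v : ℕ → ℂ → ℂ} (hu : L2z V u) (he : ∀ n, ∀ z ∈ V, v n z = u n z) :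
    L2z V v := by
  intro K hK hKV
  refine (hu K hK hKV).congr fun n => ?_
  refine setIntegral_congr_fun hK.measurableSet fun z hz => ?_
  rw [he n z (hKV hz)]

/-- the raising operator kills the constants which occur -/
lemma D_P (hσ : ContDiff ℝ ∞ σ) (a b : ℤ) (z : ℂ) : D σ (a + b) (fun _ => P a b) z = 0 := by
  by_cases hab : a + b = 0
  · rw [hab]
    exact D_zero_const hσ _ z
  · have h1 : P a b = 0 := if_neg hab
    rw [h1, D_eq hσ _ (differentiableAt_const (0 : ℂ)), dz_const]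
    simp

lemma Db_P (hσ : ContDiff ℝ ∞ σ) (a b : ℤ) (z : ℂ) : Db σ (a + b) (fun _ => P a b) z = 0 := by
  by_cases hab : a + b = 0
  · rw [hab]
    exact Db_zero_const hσ _ z
  · have h1 : P a b = 0 := if_neg hab
    rw [h1, Db_eq hσ _ (differentiableAt_const (0 : ℂ)), dzb_const]
    simp

lemma D_prod (hσ : ContDiff ℝ ∞ σ) (a b : ℤ) {f g : ℂ → ℂ} (hf : ContDiff ℝ ∞ f)
    (hg : ContDiff ℝ ∞ g) (z : ℂ) :
    D σ (a + b) (fun w => f w * g w - P a b) z = D σ a f z * g z + f z * D σ b g z := by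
  rw [D_sub hσ _ ((cd_at hf z).fun_mul (cd_at hg z)) (differentiableAt_const _), D_P hσ, sub_zero,
    D_mul hσ a b (cd_at hf z) (cd_at hg z)]

lemma Db_prod (hσ : ContDiff ℝ ∞ σ) (a b : ℤ) {f g : ℂ → ℂ} (hf : ContDiff ℝ ∞ f)
    (hg : ContDiff ℝ ∞ g) (z : ℂ) :
    Db σ (a + b) (fun w => f w * g w - P a b) z = Db σ a f z * g z + f z * Db σ b g z := by
  rw [Db_sub hσ _ ((cd_at hf z).fun_mul (cd_at hg z)) (differentiableAt_const _), Db_P hσ,
    sub_zero, Db_mul hσ a b (cd_at hf z) (cd_at hg z)]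

lemma nul (hL : Loc V σ h φ) (hE : ∀ j, Dom V h φ 1 (E σ h φ j)) (hTwo : StmtTwo) (j m : ℤ) :
    Nul V h φ (fun n z => E σ h φ j n z * E σ h φ m n z - P j m) where
  smooth n := (((hE j).smooth n).mul ((hE m).smooth n)).sub contDiff_const
  bd := by
    have h1 := (hE j).bq.mul (hE m).bq
    have h2 : Bq V h φ 2 (fun _ _ => -P j m) :=
      Bq.of_fn 2 (b := fun _ => -P j m) continuousOn_const
    have h3 := Bq.add (q := 2) h1 h2
    exact h3
  weak ζ hζ := by
    have h1 := hTwo V σ h φ hL j m ζ hζ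
    have h2 : ∀ n, ∫ z, ζ z * (E σ h φ j n z * E σ h φ m n z - P j m) =
        (∫ z, ζ z * (E σ h φ j n z * E σ h φ m n z)) - P j m * ∫ z, ζ z := by
      intro n
      have i1 : Integrable (fun z => ζ z * (E σ h φ j n z * E σ h φ m n z)) :=
        test_int hζ (((hE j).smooth n).continuous.mul ((hE m).smooth n).continuous)
      have i2 : Integrable (fun z => ζ z * P j m) := test_int hζ continuous_const
      have e1 : (fun z => ζ z * (E σ h φ j n z * E σ h φ m n z - P j m)) =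
          fun z => ζ z * (E σ h φ j n z * E σ h φ m n z) - ζ z * P j m := by
        funext z
        ring
      rw [e1, integral_sub i1 i2, integral_mul_const]
      ring
    simp only [h2]
    have h3 := h1.sub_const (P j m * ∫ z, ζ z)
    rwa [sub_self] at h3

/-- the error of a Leibniz rule -/
lemma err (hInt : StmtInt) (hL : Loc V σ h φ) (hG : Grow V h φ)
    {A1 A2 A3 A4 B1 B2 B3 B4 u : ℕ → ℂ → ℂ} (a1 : Dom V h φ 1 A1) (a2 : Dom V h φ 1 A2)
    (a3 : Dom V h φ 1 A3) (a4 : Dom V h φ 1 A4) (b1 : Dom V h φ 1 B1) (b2 : Dom V h φ 1 B2)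
    (b3 : Dom V h φ 1 B3) (b4 : Dom V h φ 1 B4)
    (hu : ∀ n, ∀ z ∈ V, (h n : ℂ) * u n z = (h n : ℂ) ^ 2 *
      (A1 n z * B1 n z + A2 n z * B2 n z + (A3 n z * B3 n z + A4 n z * B4 n z))) :
    L2z V u := by
  have hR : Dom V h φ 2 (fun n z =>
      A1 n z * B1 n z + A2 n z * B2 n z + (A3 n z * B3 n z + A4 n z * B4 n z)) :=
    Dom.add hL.op (Dom.add hL.op (Dom.mul hL.op a1 b1) (Dom.mul hL.op a2 b2))
      (Dom.add hL.op (Dom.mul hL.op a3 b3) (Dom.mul hL.op a4 b4))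
  have h1 := (hInt V h φ _ hL.hpos hL.hlim hL.smφ hG hR.smooth).2.1 hR.bq
  refine l2z_congr h1 fun n z hz => ?_
  have h2 := hu n z hz
  have h3 : (h n : ℂ) ≠ 0 := by exact_mod_cast (hL.hpos n).ne'
  have h4 : (h n : ℂ) * u n z = (h n : ℂ) * ((h n : ℂ) *
      (A1 n z * B1 n z + A2 n z * B2 n z + (A3 n z * B3 n z + A4 n z * B4 n z))) := by
    rw [h2]
    ring
  exact mul_left_cancel₀ h3 h4

end TRI

open _root_.QJ.TRI in
theorem stmtTri (hGro : StmtGro) (hInt : StmtInt) (hJetA : StmtJetA) (hTwo : StmtTwo) :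
    StmtTri := by
  intro V σ h φ hL j m
  have hG := hGro V σ h φ hL
  have hJ := hJetA V σ h φ hL
  have hE : ∀ j, Dom V h φ 1 (E σ h φ j) := fun j => (hJ j).1
  refine ⟨nul hL hE hTwo _ _, nul hL hE hTwo _ _, nul hL hE hTwo _ _, ?_, ?_⟩
  · -- the raised pair
    obtain ⟨A1, hA1, e1⟩ := (hJ (j + 1)).2.2
    obtain ⟨A2, hA2, e2⟩ := (hJ (m + 1)).2.2
    obtain ⟨A3, hA3, e3⟩ := (hJ j).2.1
    obtain ⟨A4, hA4, e4⟩ := (hJ m).2.1
    refine err hInt hL hG hA1 (hE (j + 1)) hA3 (hE j) (hE (m + 1)) hA2 (hE m) hA4 ?_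
    intro n z hz
    have f1 := e1 n z hz
    have f2 := e2 n z hz
    have f3 := e3 n z hz
    have f4 := e4 n z hz
    rw [add_sub_cancel_right] at f1 f2
    have k : j + m + 2 = (j + 1) + (m + 1) := by ring
    rw [k, Db_prod hL.sm (j + 1) (m + 1) ((hE (j + 1)).smooth n) ((hE (m + 1)).smooth n),
      D_prod hL.sm j m ((hE j).smooth n) ((hE m).smooth n)]
    linear_combination E σ h φ (m + 1) n z * f1 + E σ h φ (j + 1) n z * f2
      + E σ h φ m n z * f3 + E σ h φ j n z * f4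
  · -- the lowered pair
    obtain ⟨A1, hA1, e1⟩ := (hJ (j - 1)).2.1
    obtain ⟨A2, hA2, e2⟩ := (hJ (m - 1)).2.1
    obtain ⟨A3, hA3, e3⟩ := (hJ j).2.2
    obtain ⟨A4, hA4, e4⟩ := (hJ m).2.2
    refine err hInt hL hG hA1 (hE (j - 1)) hA3 (hE j) (hE (m - 1)) hA2 (hE m) hA4 ?_
    intro n z hz
    have f1 := e1 n z hz
    have f2 := e2 n z hz
    have f3 := e3 n z hz
    have f4 := e4 n z hz
    rw [sub_add_cancel] at f1 f2
    have k : j + m - 2 = (j - 1) + (m - 1) := by ring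
    rw [k, D_prod hL.sm (j - 1) (m - 1) ((hE (j - 1)).smooth n) ((hE (m - 1)).smooth n),
      Db_prod hL.sm j m ((hE j).smooth n) ((hE m).smooth n)]
    linear_combination E σ h φ (m - 1) n z * f1 + E σ h φ (j - 1) n z * f2
      + E σ h φ m n z * f3 + E σ h φ j n z * f4

end

end QJ


end

section

/-!
The local theorems, assembled.
-/

namespace QJ

theorem ptw : StmtPtw := stmtPtw stmtSup
theorem mor : StmtMor := stmtMor stmtVir stmtCac
theorem gro : StmtGro := stmtGro mor ptw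
theorem ibp : StmtIbp := stmtIbp stmtInt
theorem jetB : StmtJetB := stmtJetB stmtJetA
theorem two : StmtTwo := stmtTwo gro stmtInt ibp stmtJetA jetB
theorem one : StmtOne := stmtOne gro stmtInt ibp stmtJetA
theorem pot : StmtPot := stmtPot stmtCau stmtHol stmtInt
theorem nul : StmtNul := stmtNul stmtNid
theorem tri : StmtTri := stmtTri gro stmtInt stmtJetA two
theorem sec : StmtSec := stmtSec gro tri pot nul two
theorem ifo : StmtIfo := stmtIfo gro stmtInt ibp stmtJetA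
theorem fou : StmtFou := stmtFou sec ifo stmtAlf
theorem cub : StmtCub := stmtCub gro two ifo stmtAlt fou stmtSum
theorem lw : StmtLW := stmtLW gro stmtInt stmtJetA jetB two one cub fou
theorem lwe : StmtLWE := stmtLWE gro stmtInt
theorem wexp : StmtWexp := stmtWexp stmtComp stmtIter
theorem pwt : StmtPwt := stmtPwt stmtIter
theorem pwf : StmtPwf := stmtPwf stmtIter

end QJ


end

section

/-!
NF: the null form of two triples.
-/

open Complex MeasureTheory Filter Topology Set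
open scoped ContDiff

namespace U3

open QE QJ

namespace NFM

theorem l2z_mono {V V' : Set ℂ} (h : V' ⊆ V) {u : ℕ → ℂ → ℂ} (hu : L2z V u) : L2z V' u :=
  fun K hK hKV => hu K hK (hKV.trans h)

theorem l2b_mono {V V' : Set ℂ} (h : V' ⊆ V) {u : ℕ → ℂ → ℂ} (hu : L2b V u) : L2b V' u :=
  fun K hK hKV => hu K hK (hKV.trans h)

theorem pot_mono {V V' : Set ℂ} (h : V' ⊆ V) {σ : ℂ → ℝ} {N : ℤ} {A B C x y : ℕ → ℂ → ℂ}
    (hp : Pot V σ N A B C x y) : Pot V' σ N A B C x y :=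
  ⟨hp.sx, hp.sy, fun n z hz => hp.hx n z (h hz), fun n z hz => hp.hy n z (h hz),
    l2z_mono h hp.lx, l2z_mono h hp.ly, l2z_mono h hp.la, l2z_mono h hp.lc,
    l2z_mono h hp.lda, l2z_mono h hp.ldc⟩

theorem potB_mono {V V' : Set ℂ} (h : V' ⊆ V) {σ : ℂ → ℝ} {N : ℤ} {A B C x y : ℕ → ℂ → ℂ}
    (hp : PotB V σ N A B C x y) : PotB V' σ N A B C x y :=
  ⟨hp.sx, hp.sy, fun n z hz => hp.hx n z (h hz), fun n z hz => hp.hy n z (h hz),
    l2b_mono h hp.lx, l2b_mono h hp.ly, l2b_mono h hp.la, l2b_mono h hp.lc,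
    l2b_mono h hp.lda, l2b_mono h hp.ldc⟩

end NFM

open _root_.U3.NFM in
theorem stmtNf (hPotZ : StmtPotZ) (hPotB : StmtPotB) (hNulZ : StmtNulZ) (hNulB : StmtNulB) :
    StmtNf := by
  intro V σ N A B C A' B' C' hV hσ hT hT' ζ hζ
  have hK : IsCompact (tsupport ζ) := hζ.supp
  have hKV : tsupport ζ ⊆ V := hζ.sub
  refine ⟨?_, ?_⟩
  · rintro (hZ | hZ)
    · obtain ⟨V1, x, y, hV1, hK1, -, hp⟩ := hPotZ V σ N A B C hV hσ hZ (tsupport ζ) hK hKV
      obtain ⟨V2, x', y', hV2, hK2, -, hp'⟩ := hPotB V σ (-N) A' B' C' hV hσ hT' (tsupport ζ) hK hKV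
      exact hNulZ (V1 ∩ V2) σ N A B C x y A' B' C' x' y' (hV1.inter hV2) hσ hT.sA hT.sB hT.sC
        hT'.sA hT'.sB hT'.sC (pot_mono inter_subset_left hp) (potB_mono inter_subset_right hp')
        ζ ⟨hζ.smooth, hζ.supp, subset_inter hK1 hK2⟩
    · obtain ⟨V1, x', y', hV1, hK1, -, hp'⟩ := hPotZ V σ (-N) A' B' C' hV hσ hZ (tsupport ζ) hK hKV
      obtain ⟨V2, x, y, hV2, hK2, -, hp⟩ := hPotB V σ N A B C hV hσ hT (tsupport ζ) hK hKV
      have hp2 : PotB V2 σ (- -N) A B C x y := by rw [neg_neg]; exact hp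
      have h1 := hNulZ (V1 ∩ V2) σ (-N) A' B' C' x' y' A B C x y (hV1.inter hV2) hσ hT'.sA hT'.sB
        hT'.sC hT.sA hT.sB hT.sC (pot_mono inter_subset_left hp')
        (potB_mono inter_subset_right hp2) ζ ⟨hζ.smooth, hζ.supp, subset_inter hK1 hK2⟩
      refine h1.congr fun n => ?_
      refine integral_congr_ae (Filter.Eventually.of_forall fun z => ?_)
      change ζ z * (A' n z * C n z + C' n z * A n z - 2 * (B' n z * B n z))
        = ζ z * (A n z * C' n z + C n z * A' n z - 2 * (B n z * B' n z))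
      ring
  · obtain ⟨V1, x, y, hV1, hK1, -, hp⟩ := hPotB V σ N A B C hV hσ hT (tsupport ζ) hK hKV
    obtain ⟨V2, x', y', hV2, hK2, -, hp'⟩ := hPotB V σ (-N) A' B' C' hV hσ hT' (tsupport ζ) hK hKV
    exact hNulB (V1 ∩ V2) σ N A B C x y A' B' C' x' y' (hV1.inter hV2) hσ hT.sA hT.sB hT.sC
      hT'.sA hT'.sB hT'.sC (potB_mono inter_subset_left hp) (potB_mono inter_subset_right hp')
      ζ ⟨hζ.smooth, hζ.supp, subset_inter hK1 hK2⟩

end U3


end

section

/-!
TRIQ: products of jets form triples (no equidistribution).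
-/

open Complex MeasureTheory Filter Topology Set
open scoped ContDiff

namespace U3

open QE QJ

noncomputable section

namespace TRIQ

variable {V : Set ℂ} {σ : ℂ → ℝ} {h : ℕ → ℝ} {φ : ℕ → ℂ → ℂ}

lemma l2z_congr {u v : ℕ → ℂ → ℂ} (hu : L2z V u) (he : ∀ n, ∀ z ∈ V, v n z = u n z) :
    L2z V v := by
  intro K hK hKV
  refine (hu K hK hKV).congr fun n => ?_
  refine setIntegral_congr_fun hK.measurableSet fun z hz => ?_
  rw [he n z (hKV hz)]

/-- the error of a Leibniz rule -/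
lemma err (hInt : StmtIntA) (hL : LocB V σ h φ) (hG : GrowA V h φ)
    {A1 A2 A3 A4 B1 B2 B3 B4 u : ℕ → ℂ → ℂ} (a1 : Dom V h φ 1 A1) (a2 : Dom V h φ 1 A2)
    (a3 : Dom V h φ 1 A3) (a4 : Dom V h φ 1 A4) (b1 : Dom V h φ 1 B1) (b2 : Dom V h φ 1 B2)
    (b3 : Dom V h φ 1 B3) (b4 : Dom V h φ 1 B4)
    (hu : ∀ n, ∀ z ∈ V, (h n : ℂ) * u n z = (h n : ℂ) ^ 2 *
      (A1 n z * B1 n z + A2 n z * B2 n z + (A3 n z * B3 n z + A4 n z * B4 n z))) :
    L2z V u := by
  have hR : Dom V h φ 2 (fun n z =>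
      A1 n z * B1 n z + A2 n z * B2 n z + (A3 n z * B3 n z + A4 n z * B4 n z)) :=
    Dom.add hL.op (Dom.add hL.op (Dom.mul hL.op a1 b1) (Dom.mul hL.op a2 b2))
      (Dom.add hL.op (Dom.mul hL.op a3 b3) (Dom.mul hL.op a4 b4))
  have h1 := (hInt V h φ _ hL.hpos hL.hlim hL.smφ hG hR.smooth).2.1 hR.bq
  refine l2z_congr h1 fun n z hz => ?_
  have h2 := hu n z hz
  have h3 : (h n : ℂ) ≠ 0 := by exact_mod_cast (hL.hpos n).ne'
  have h4 : (h n : ℂ) * u n z = (h n : ℂ) * ((h n : ℂ) *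
      (A1 n z * B1 n z + A2 n z * B2 n z + (A3 n z * B3 n z + A4 n z * B4 n z))) := by
    rw [h2]
    ring
  exact mul_left_cancel₀ h3 h4

end TRIQ

open _root_.U3.TRIQ in
theorem stmtTriQ (hGroA : StmtGroA) (hIntA : StmtIntA) (hJetC : StmtJetC) : StmtTriQ := by
  intro V σ h φ hL j m
  have hG := hGroA V σ h φ hL
  have hJ := hJetC V σ h φ hL
  have hE : ∀ j, Dom V h φ 1 (E σ h φ j) := fun j => (hJ j).1
  have hP : ∀ a b : ℤ, Dom V h φ 2 (fun n z => E σ h φ a n z * E σ h φ b n z) := fun a b =>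
    Dom.mul hL.op (hE a) (hE b)
  have hLG : ∀ a b : ℤ, LG V (fun n z => E σ h φ a n z * E σ h φ b n z) := fun a b =>
    (hIntA V h φ _ hL.hpos hL.hlim hL.smφ hG (hP a b).smooth).1 (hP a b).bq
  refine ⟨(hP _ _).smooth, (hP _ _).smooth, (hP _ _).smooth, hLG _ _, hLG _ _, hLG _ _, ?_, ?_⟩
  · -- the raised pair
    obtain ⟨A1, hA1, e1⟩ := (hJ (j + 1)).2.2
    obtain ⟨A2, hA2, e2⟩ := (hJ (m + 1)).2.2
    obtain ⟨A3, hA3, e3⟩ := (hJ j).2.1
    obtain ⟨A4, hA4, e4⟩ := (hJ m).2.1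
    refine err hIntA hL hG hA1 (hE (j + 1)) hA3 (hE j) (hE (m + 1)) hA2 (hE m) hA4 ?_
    intro n z hz
    have f1 := e1 n z hz
    have f2 := e2 n z hz
    have f3 := e3 n z hz
    have f4 := e4 n z hz
    rw [add_sub_cancel_right] at f1 f2
    have k : j + m + 2 = (j + 1) + (m + 1) := by ring
    rw [k, Db_mul hL.sm (j + 1) (m + 1) (cd_at ((hE (j + 1)).smooth n) z)
      (cd_at ((hE (m + 1)).smooth n) z),
      D_mul hL.sm j m (cd_at ((hE j).smooth n) z) (cd_at ((hE m).smooth n) z)]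
    linear_combination E σ h φ (m + 1) n z * f1 + E σ h φ (j + 1) n z * f2
      + E σ h φ m n z * f3 + E σ h φ j n z * f4
  · -- the lowered pair
    obtain ⟨A1, hA1, e1⟩ := (hJ (j - 1)).2.1
    obtain ⟨A2, hA2, e2⟩ := (hJ (m - 1)).2.1
    obtain ⟨A3, hA3, e3⟩ := (hJ j).2.2
    obtain ⟨A4, hA4, e4⟩ := (hJ m).2.2
    refine err hIntA hL hG hA1 (hE (j - 1)) hA3 (hE j) (hE (m - 1)) hA2 (hE m) hA4 ?_
    intro n z hz
    have f1 := e1 n z hz
    have f2 := e2 n z hz
    have f3 := e3 n z hz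
    have f4 := e4 n z hz
    rw [sub_add_cancel] at f1 f2
    have k : j + m - 2 = (j - 1) + (m - 1) := by ring
    rw [k, D_mul hL.sm (j - 1) (m - 1) (cd_at ((hE (j - 1)).smooth n) z)
      (cd_at ((hE (m - 1)).smooth n) z),
      Db_mul hL.sm j m (cd_at ((hE j).smooth n) z) (cd_at ((hE m).smooth n) z)]
    linear_combination E σ h φ (m - 1) n z * f1 + E σ h φ (j - 1) n z * f2
      + E σ h φ m n z * f3 + E σ h φ j n z * f4

end

end U3


end

section

/-!
The local theorem on three-jet integrals, assembled.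
-/

namespace U3

theorem ptwB : StmtPtwB := stmtPtwB QJ.stmtSup
theorem groA : StmtGroA := stmtGroA QJ.mor ptwB
theorem potZ : StmtPotZ := stmtPotZ QJ.stmtCau QJ.stmtHol
theorem potB : StmtPotB := stmtPotB stmtCauB stmtHolB
theorem nulZ : StmtNulZ := stmtNulZ QJ.stmtNid
theorem nulB : StmtNulB := stmtNulB QJ.stmtNid
theorem nf : StmtNf := stmtNf potZ potB nulZ nulB
theorem jetW : StmtJetW := stmtJetW stmtJetC
theorem triQ : StmtTriQ := stmtTriQ groA stmtIntA stmtJetC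
theorem hcl : StmtHcl := stmtHcl groA stmtIntA stmtIbpA stmtJetC triQ nf QJ.stmtAlf
theorem sml : StmtSml := stmtSml groA stmtIntA stmtIbpA stmtJetC jetW hcl stmtPoi
theorem ifoB : StmtIfoB := stmtIfoB groA stmtIntA stmtIbpA stmtJetC sml
theorem altS : StmtAltS := stmtAltS QJ.stmtAlt
theorem e3s : StmtE3s := stmtE3s ifoB altS
theorem dir : StmtDir := stmtDir groA triQ
theorem kem : StmtKem := stmtKem stmtKer
theorem peS : StmtPeS := stmtPeS stmtPar
theorem peG : StmtPeG := stmtPeG stmtKsz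
theorem peT : StmtPeT := stmtPeT peS stmtKer kem stmtKsz
theorem peW : StmtPeW := stmtPeW stmtApx
theorem peO : StmtPeO := stmtPeO stmtKsz
theorem triP : StmtTriP := stmtTriP peS peG peT
theorem triD : StmtTriD := stmtTriD dir triQ triP peW
theorem fouB : StmtFouB := stmtFouB ifoB nf triQ triP triD dir peO QJ.stmtAlf
theorem jbd : StmtJbd := stmtJbd nf triP
theorem xbd : StmtXbd := stmtXbd stmtKsz
theorem cubI : StmtCubI := stmtCubI dir e3s fouB stmtFir stmtWks stmtCls jbd xbd peS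
theorem endL : StmtEnd := stmtEnd stmtDens
theorem e3z : StmtE3z := stmtE3z e3s cubI endL

end U3


end

section

/-!
# The velocity of the geodesics (module U3_VEL, helper49)
-/

open MeasureTheory Filter Topology Set
open UpperHalfPlane hiding I
open scoped ContDiff MatrixGroups

namespace U3

open QE QE.NC QJ

noncomputable section

namespace VEL

theorem ro_coe (ρ : ℍ → ℝ) (z : ℍ) : ro ρ (z : ℂ) = ρ z := by
  unfold ro
  rw [ofComplex_apply]

theorem cont_rho {Γ : Subgroup SL(2, ℝ)} {ρ : ℍ → ℝ} (h : Fac Γ ρ) : Continuous ρ := by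
  have h1 : Continuous fun z : ℍ => ro ρ (z : ℂ) :=
    h.smooth.continuousOn.comp_continuous UpperHalfPlane.continuous_coe fun z => coe_mem_UH z
  have h2 : (fun z : ℍ => ro ρ (z : ℂ)) = ρ := funext fun z => ro_coe ρ z
  rwa [h2] at h1

/-- the velocity in the linear coordinates -/
theorem vG_eq (ρ : ℍ → ℝ) (g : SL(2, ℝ)) :
    vG ρ g = ((Real.exp (-ρ (g • UpperHalfPlane.I)) : ℝ) : ℂ) * Complex.I / (iota g).2 ^ 2 := by
  have h := iota_snd_ne g
  have h4 : (starRingEnd ℂ) (iota g).2 ≠ 0 := by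
    rwa [Ne, map_eq_zero]
  have h5 := im_smul_I g
  have h6 : ((((g • UpperHalfPlane.I : ℍ) : ℂ).im : ℝ) : ℂ) =
      1 / ((iota g).2 * (starRingEnd ℂ) (iota g).2) := by
    rw [eq_div_iff (mul_ne_zero h h4)]
    exact h5
  unfold vG pG
  rw [dirG_eq]
  push_cast
  rw [h6]
  field_simp

theorem cont_vG {Γ : Subgroup SL(2, ℝ)} {ρ : ℍ → ℝ} (h : Fac Γ ρ) : Continuous (vG ρ) := by
  have e : vG ρ = fun g => ((Real.exp (-ρ (g • UpperHalfPlane.I)) : ℝ) : ℂ) * Complex.I /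
      (iota g).2 ^ 2 := funext fun g => vG_eq ρ g
  rw [e]
  have h3 : Continuous fun g : SL(2, ℝ) => g • UpperHalfPlane.I := continuous_id.smul continuous_const
  have h4 : Continuous fun g : SL(2, ℝ) => Real.exp (-ρ (g • UpperHalfPlane.I)) :=
    Real.continuous_exp.comp ((cont_rho h).comp h3).neg
  have h5 : Continuous fun g : SL(2, ℝ) => (iota g).2 := continuous_snd.comp iota_continuous
  exact ((Complex.continuous_ofReal.comp h4).mul continuous_const).div (h5.pow 2)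
    fun g => pow_ne_zero 2 (iota_snd_ne g)

theorem vG_ne (ρ : ℍ → ℝ) (g : SL(2, ℝ)) : vG ρ g ≠ 0 := by
  rw [vG_eq]
  refine div_ne_zero (mul_ne_zero ?_ Complex.I_ne_zero) (pow_ne_zero 2 (iota_snd_ne g))
  exact_mod_cast (Real.exp_pos _).ne'

theorem deriv_pG {ρ : ℍ → ℝ} {Φ : ℝ → SL(2, ℝ) → SL(2, ℝ)} (hΦ : GFlow ρ Φ) (g : SL(2, ℝ)) (t : ℝ) :
    HasDerivAt (fun s => pG (Φ s g)) (vG ρ (Φ t g)) t := by
  have h0 := Inv.iota_deriv hΦ g t
  have h1 : HasDerivAt (fun s => (iota (Φ s g)).1) (XV ρ (Φ t g)).1 t :=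
    (ContinuousLinearMap.fst ℝ ℂ ℂ).hasFDerivAt.comp_hasDerivAt t h0
  have h2 : HasDerivAt (fun s => (iota (Φ s g)).2) (XV ρ (Φ t g)).2 t :=
    (ContinuousLinearMap.snd ℝ ℂ ℂ).hasFDerivAt.comp_hasDerivAt t h0
  have h3 := h1.div h2 (iota_snd_ne (Φ t g))
  have e1 : (fun s => pG (Φ s g)) = fun s => (iota (Φ s g)).1 / (iota (Φ s g)).2 :=
    funext fun s => smul_I_eq (Φ s g)
  rw [e1]
  refine h3.congr_deriv ?_
  rw [vG_eq]
  have hd := iota_det (Φ t g)
  congr 1
  unfold XV Vq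
  simp only [Prod.smul_fst, Prod.smul_snd, Prod.fst_add, Prod.snd_add, Complex.real_smul,
    smul_eq_mul]
  linear_combination ((Real.exp (-ρ (Φ t g • UpperHalfPlane.I)) : ℝ) : ℂ) / 2 * hd

end VEL

theorem stmtVel : StmtVel := fun _ ρ _ hF hΦ =>
  ⟨VEL.cont_vG hF, VEL.vG_ne ρ, fun g t => VEL.deriv_pG hΦ g t⟩

end

end U3


end

section

/-!
INF: infinitesimal invariance from the transport identities
-/

open MeasureTheory Filter Topology Set
open UpperHalfPlane hiding I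
open scoped ContDiff MatrixGroups ENNReal NNReal

namespace U3

open QE QE.NC QJ

noncomputable section

namespace INF

variable {Γ : Subgroup SL(2, ℝ)} {ρ : ℍ → ℝ}

lemma XV_cont (h : Fac Γ ρ) : Continuous (XV ρ) := by
  have hproj : Continuous fun g : SL(2, ℝ) => g • UpperHalfPlane.I :=
    continuous_id.smul continuous_const
  have h1 : Continuous fun g : SL(2, ℝ) => ρ (g • UpperHalfPlane.I) := h.cont.comp hproj
  have h2 : Continuous fun g : SL(2, ℝ) => Vq (iota g) := continuous_Vq.comp iota_continuous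
  have h3 : Continuous fun g : SL(2, ℝ) => Complex.I • iota g := by
    exact Continuous.smul (f := fun _ : SL(2, ℝ) => Complex.I) continuous_const iota_continuous
  unfold XV
  exact (Real.continuous_exp.comp h1.neg).smul (h2.add ((h.contPr.div_const 2).smul h3))

lemma XV_neg (ρ : ℍ → ℝ) (g : SL(2, ℝ)) : XV ρ (-g) = -XV ρ g := by
  have hsm : (-g) • UpperHalfPlane.I = g • UpperHalfPlane.I := by
    apply UpperHalfPlane.ext
    rw [smul_I_eq, smul_I_eq, iota_neg]
    simp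
  have h5 : Vq (-iota g) = -Vq (iota g) := by
    unfold Vq
    refine Prod.ext ?_ ?_ <;> simp [neg_div]
  unfold XV
  rw [hsm, Pr_neg, iota_neg, h5, smul_neg, smul_neg, ← neg_add, smul_neg]

/-- the derivative of an even component along the geodesic field -/
lemma even_eq (h : Fac Γ ρ) (m : ℤ) {H : ℂ × ℂ → ℂ} (hH : ContDiff ℝ ∞ H)
    (ht : Test UH (zet (Hk (2 * m) H))) (g : SL(2, ℝ)) :
    fderiv ℝ (Hk (2 * m) H) (iota g) (XV ρ g) = Complex.I ^ m *
      ((aR ρ (pG g) * dz (zet (Hk (2 * m) H)) (pG g)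
          - m * dz (aR ρ) (pG g) * zet (Hk (2 * m) H) (pG g)) * (starRingEnd ℂ) (dirG g) ^ (m - 1)
        + (aR ρ (pG g) * dzb (zet (Hk (2 * m) H)) (pG g)
          + m * dzb (aR ρ) (pG g) * zet (Hk (2 * m) H) (pG g))
          * (starRingEnd ℂ) (dirG g) ^ (m + 1)) := by
  have h1 := field_even h m hH ht g
  unfold Wf at h1
  rw [map_smul, Complex.real_smul, om_pow, om_pow] at h1
  have hro : ρ (g • UpperHalfPlane.I) = ro ρ ((g • UpperHalfPlane.I : ℍ) : ℂ) := (ro_coe ρ _).symm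
  unfold TA TB E2 at h1
  rw [hro] at h1
  have he : ((Real.exp (2 * ro ρ ((g • UpperHalfPlane.I : ℍ) : ℂ)) : ℝ) : ℂ) ≠ 0 := by
    exact_mod_cast (Real.exp_pos _).ne'
  have hI : Complex.I ^ (m + 1) = Complex.I ^ m * Complex.I := zpow_add_one₀ Complex.I_ne_zero m
  have hI' : Complex.I ^ (m - 1) = Complex.I ^ m * (-Complex.I) := by
    rw [zpow_sub_one₀ Complex.I_ne_zero, Complex.inv_I]
  rw [hI, hI', map_zpow₀, map_zpow₀] at h1
  refine mul_left_cancel₀ he ?_
  rw [h1]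
  unfold pG
  generalize (starRingEnd ℂ) (dirG g) ^ (m + 1) = A
  generalize (starRingEnd ℂ) (dirG g) ^ (m - 1) = B
  generalize ((Real.exp (2 * ro ρ ((g • UpperHalfPlane.I : ℍ) : ℂ)) : ℝ) : ℂ) = e
  generalize Complex.I ^ m = J
  linear_combination (-(J * A * e * (aR ρ ((g • UpperHalfPlane.I : ℍ) : ℂ) *
    dzb (zet (Hk (2 * m) H)) ((g • UpperHalfPlane.I : ℍ) : ℂ) +
      m * dzb (aR ρ) ((g • UpperHalfPlane.I : ℍ) : ℂ) *
        zet (Hk (2 * m) H) ((g • UpperHalfPlane.I : ℍ) : ℂ))) -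
    J * B * e * (aR ρ ((g • UpperHalfPlane.I : ℍ) : ℂ) *
    dz (zet (Hk (2 * m) H)) ((g • UpperHalfPlane.I : ℍ) : ℂ) -
      m * dz (aR ρ) ((g • UpperHalfPlane.I : ℍ) : ℂ) *
        zet (Hk (2 * m) H) ((g • UpperHalfPlane.I : ℍ) : ℂ))) * Complex.I_sq

end INF

/-- INF -/
theorem stmtInfU : StmtInfU := by
  intro _ _ Γ ρ ν _ hF hneg htr H hH hc
  refine field_of_Hk (INF.XV_cont hF) hH hc fun k => ?_
  obtain ⟨R, hR0, hR⟩ : ∃ R : ℝ, 0 < R ∧ ∀ q, R < ‖q‖ → H q = 0 := by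
    obtain ⟨R, hR⟩ := (IsCompact.isBounded hc).exists_norm_le
    refine ⟨max R 1, lt_max_of_lt_right one_pos, fun q hq => ?_⟩
    apply image_eq_zero_of_notMem_tsupport
    intro h
    exact absurd (hR q h) (not_le.2 (lt_of_le_of_lt (le_max_left _ _) hq))
  rcases Int.even_or_odd' k with ⟨m, rfl | rfl⟩
  · -- even components
    have ht : Test UH (zet (Hk (2 * m) H)) :=
      zet_test (Hk_smooth _ hH) hR0 fun q hq => Hk_zero_of hR _ hq
    simp only [INF.even_eq hF m hH ht]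
    rw [integral_const_mul, htr m _ ht, mul_zero]
  · -- odd components
    set K := Hk (2 * m + 1) H with hK
    have hodd : ∀ q, K (-q) = -K q := Hk_neg ⟨m, rfl⟩ H
    have hKd : Differentiable ℝ K := (Hk_smooth _ hH).differentiable (by simp)
    have hXX : ∀ g : SL(2, ℝ), fderiv ℝ K (iota (-g)) (XV ρ (-g)) =
        -fderiv ℝ K (iota g) (XV ρ g) := by
      intro g
      set q := iota g with hq
      have h1 : HasFDerivAt (fun q => K (-q)) (-(fderiv ℝ K (-q))) q := by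
        have := (hKd (-q)).hasFDerivAt.comp q (hasFDerivAt_id q).neg
        refine this.congr_fderiv ?_
        ext v <;> simp
      have h2 : HasFDerivAt (fun q => K (-q)) (-(fderiv ℝ K q)) q := by
        have := (hKd q).hasFDerivAt.neg
        exact this.congr_of_eventuallyEq (Eventually.of_forall fun q => hodd q)
      have h3 := h1.unique h2
      have h4 : fderiv ℝ K (-q) = fderiv ℝ K q := neg_injective h3
      rw [iota_neg, ← hq, h4, INF.XV_neg, map_neg]
    have hme : MeasurableEmbedding fun g : SL(2, ℝ) => -g := negH.measurableEmbedding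
    have h1 : ∫ g, fderiv ℝ K (iota g) (XV ρ g) ∂ν = -∫ g, fderiv ℝ K (iota g) (XV ρ g) ∂ν := by
      conv_lhs => rw [← hneg]
      rw [hme.integral_map, integral_congr_ae (ae_of_all _ hXX)]
      exact integral_neg _
    have h2 : (2 : ℂ) * ∫ g, fderiv ℝ K (iota g) (XV ρ g) ∂ν = 0 := by
      linear_combination h1
    exact (mul_eq_zero.1 h2).resolve_left two_ne_zero

end

end U3


end

section

/-!
ECG: the jets depend only on the local data.
-/

open Complex MeasureTheory Filter Topology Set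
open scoped ContDiff

namespace U3

open QE QJ

namespace ECG

theorem dz_germ {f g : ℂ → ℂ} {z : ℂ} (h : f =ᶠ[𝓝 z] g) : dz f z = dz g z := by
  unfold dz
  rw [h.fderiv_eq]

theorem D_germ {σ σ' : ℂ → ℝ} {f g : ℂ → ℂ} {z : ℂ} (k : ℤ) (hσ : σ =ᶠ[𝓝 z] σ')
    (h : f =ᶠ[𝓝 z] g) : D σ k f z = D σ' k g z := by
  have h1 : (fun w => ex σ (-k) w * f w) =ᶠ[𝓝 z] (fun w => ex σ' (-k) w * g w) := by
    filter_upwards [hσ, h] with w h1 h2
    unfold ex
    rw [h1, h2]
  unfold D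
  rw [dz_germ h1]
  unfold ex
  rw [hσ.self_of_nhds]

theorem jet_eq {V : Set ℂ} {σ σ' : ℂ → ℝ} {h : ℕ → ℝ} {φ φ' : ℕ → ℂ → ℂ} (hV : IsOpen V)
    (hσ : ∀ z ∈ V, σ z = σ' z) (hφ : ∀ n, ∀ z ∈ V, φ n z = φ' n z) (m n : ℕ) :
    ∀ z ∈ V, jet σ h φ m n z = jet σ' h φ' m n z := by
  induction m with
  | zero => exact hφ n
  | succ m ih =>
    intro z hz
    change (h n : ℂ) * D σ m (jet σ h φ m n) z = (h n : ℂ) * D σ' m (jet σ' h φ' m n) z
    rw [D_germ (m : ℤ) (Filter.eventuallyEq_of_mem (hV.mem_nhds hz) hσ)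
      (Filter.eventuallyEq_of_mem (hV.mem_nhds hz) ih)]

theorem jet_comp (σ : ℂ → ℝ) (h : ℕ → ℝ) (φ : ℕ → ℂ → ℂ) (s : ℕ → ℕ) (m n : ℕ) :
    jet σ (fun k => h (s k)) (fun k => φ (s k)) m n = jet σ h φ m (s n) := by
  induction m with
  | zero => rfl
  | succ m ih =>
    funext z
    change (h (s n) : ℂ) * D σ m (jet σ (fun k => h (s k)) (fun k => φ (s k)) m n) z
      = (h (s n) : ℂ) * D σ m (jet σ h φ m (s n)) z
    rw [ih]

end ECG

open _root_.U3.ECG in
theorem stmtEcg : StmtEcg := by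
  intro V σ σ' h φ φ' hV hσ hφ
  refine ⟨?_, ?_⟩
  · intro j n z hz
    cases j with
    | ofNat m => exact jet_eq hV hσ hφ m n z hz
    | negSucc m =>
      change (-1) ^ (m + 1) * (starRingEnd ℂ) (jet σ h φ (m + 1) n z)
        = (-1) ^ (m + 1) * (starRingEnd ℂ) (jet σ' h φ' (m + 1) n z)
      rw [jet_eq hV hσ hφ (m + 1) n z hz]
  · intro s j n z
    cases j with
    | ofNat m => exact congrFun (jet_comp σ h φ s m n) z
    | negSucc m =>
      change (-1) ^ (m + 1) * (starRingEnd ℂ)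
          (jet σ (fun k => h (s k)) (fun k => φ (s k)) (m + 1) n z)
        = (-1) ^ (m + 1) * (starRingEnd ℂ) (jet σ h φ (m + 1) (s n) z)
      rw [jet_comp σ h φ s (m + 1) n]

end U3


end

section

/-!
Third order statistics: the global limit measure (WGL).
-/

open MeasureTheory Filter Topology Set
open UpperHalfPlane hiding I
open scoped ContDiff MatrixGroups

namespace U3

open QE QE.NC QJ

namespace WGL

/-- the conformal factor along the frames is continuous -/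
theorem gr_cont {Γ : Subgroup SL(2, ℝ)} {ρ : ℍ → ℝ} (hF : Fac Γ ρ) : ContinuousOn (gr ρ) UH := by
  have h1 : ContinuousOn (fun z : ℂ => ρ (ofComplex z)) UH := hF.smooth.continuousOn
  have h2 : ContinuousOn (fun z : ℂ => z.im ^ 2) UH := (Complex.continuous_im.pow 2).continuousOn
  unfold gr
  refine ContinuousOn.div ?_ h2 fun z hz => ?_
  · exact Real.continuous_exp.comp_continuousOn (continuousOn_const.mul h1)
  · have : 0 < z.im := hz
    positivity

theorem gr_pos (ρ : ℍ → ℝ) {z : ℂ} (hz : z ∈ UH) : 0 < gr ρ z := by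
  have : 0 < z.im := hz
  unfold gr
  positivity

theorem fin_compacts [MeasurableSpace SL(2, ℝ)] [BorelSpace SL(2, ℝ)] (μ : Measure SL(2, ℝ))
    [IsFiniteMeasureOnCompacts μ] {d : SL(2, ℝ) → ℝ} (hd : Continuous d) :
    IsFiniteMeasureOnCompacts (μ.withDensity fun g => ENNReal.ofReal (d g)) := by
  refine ⟨fun K hK => ?_⟩
  rw [withDensity_apply _ hK.measurableSet]
  obtain ⟨C, hC⟩ := (hK.image hd).bddAbove
  have h1 : ∫⁻ g in K, ENNReal.ofReal (d g) ∂μ ≤ ∫⁻ _ in K, ENNReal.ofReal C ∂μ := by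
    refine setLIntegral_mono' hK.measurableSet fun g hg => ENNReal.ofReal_le_ofReal ?_
    exact hC ⟨g, hg, rfl⟩
  refine h1.trans_lt ?_
  rw [setLIntegral_const]
  exact ENNReal.mul_lt_top ENNReal.ofReal_lt_top hK.measure_lt_top

end WGL

open _root_.U3.WGL in
theorem stmtWgl (hWga : StmtWga) (hRmk : StmtRmk) (hWgb : StmtWgb) (hInfU : StmtInfU)
    (hRot : StmtRot) : StmtWgl := by
  intro _ _ Γ ρ Φ h φ hF hΦ hL
  obtain ⟨hpc, huc, hun, hpU, hneg, -, -, -⟩ := hRot
  obtain ⟨s, P, e, hs, hAg, hec, hej, hlim⟩ := hWga Γ ρ h φ hF hL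
  obtain ⟨μ, hμf, hμs, hμn, hμ⟩ := hRmk e P hec hej hlim
  have hdc : Continuous fun g : SL(2, ℝ) => gr ρ (pG g) :=
    (gr_cont hF).comp_continuous hpc hpU
  have hdm : Measurable fun g : SL(2, ℝ) => ENNReal.ofReal (gr ρ (pG g)) :=
    hdc.measurable.ennreal_ofReal
  have hνf := fin_compacts μ hdc
  have hνs : SigmaFinite (μ.withDensity fun g => ENNReal.ofReal (gr ρ (pG g))) :=
    SigmaFinite.withDensity_ofReal _
  have hνn : Measure.map (fun g => -g) (μ.withDensity fun g => ENNReal.ofReal (gr ρ (pG g))) =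
      μ.withDensity fun g => ENNReal.ofReal (gr ρ (pG g)) := by
    refine map_withDensity_of_inv neg_cont.measurable hμn hdm fun g => ?_
    rw [(hneg g).1]
  have hlimV : ∀ (V : Set ℂ) (σ : ℂ → ℝ) (φ' : ℕ → ℂ → ℂ), Agree V UH (gr ρ) h φ σ φ' →
      ∀ (j m : ℤ) (ζ : ℂ → ℂ), Test V ζ →
        Tendsto (fun n => ∫ z, ζ z * (E σ h φ' j (s n) z * E σ h φ' m (s n) z)) atTop
          (𝓝 ((-1) ^ m * P (j + m) ζ)) := by
    intro V σ φ' hA j m ζ hζ
    refine (hlim j m ζ ⟨hζ.smooth, hζ.supp, hζ.sub.trans hA.sub⟩).congr fun n => ?_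
    refine integral_congr_ae (ae_of_all _ fun z => ?_)
    simp only
    by_cases hz : z ∈ V
    · rw [hAg V σ φ' hA j n z hz, hAg V σ φ' hA m n z hz]
    · have h0 : ζ z = 0 := image_eq_zero_of_notMem_tsupport fun h => hz (hζ.sub h)
      rw [h0, zero_mul, zero_mul]
  have htr := hWgb Γ ρ h φ s P μ hF hL hs hlimV hμ
  have hinv := stmtInv stmtLip (stmtFl stmtLip) Γ ρ Φ _ hF hΦ (hInfU Γ ρ _ hF hνn htr)
  refine ⟨s, _, hs, hνf, hνs, hinv, fun V σ φ' hA j m ζ hζ => ?_⟩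
  have hζU : Test UH ζ := ⟨hζ.smooth, hζ.supp, hζ.sub.trans hA.sub⟩
  have e1 : ∫ g, ζ (pG g) * ((Real.exp (-(2 * σ (pG g))) : ℝ) : ℂ) * uG g ^ (j + m)
      ∂(μ.withDensity fun g => ENNReal.ofReal (gr ρ (pG g))) = P (j + m) ζ := by
    rw [← hμ (j + m) ζ hζU, integral_withDensity_eq_integral_toReal_smul hdm
      (ae_of_all _ fun g => ENNReal.ofReal_lt_top)]
    refine integral_congr_ae (ae_of_all _ fun g => ?_)
    simp only
    rw [ENNReal.toReal_ofReal (gr_pos ρ (hpU g)).le]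
    by_cases hz : pG g ∈ V
    · rw [← hA.eg _ hz, Complex.real_smul, Real.exp_neg]
      push_cast
      have : Complex.exp (2 * (σ (pG g) : ℂ)) ≠ 0 := Complex.exp_ne_zero _
      field_simp
    · have h0 : ζ (pG g) = 0 := image_eq_zero_of_notMem_tsupport fun h => hz (hζ.sub h)
      simp [h0]
  rw [e1]
  exact hlimV V σ φ' hA j m ζ hζ

end U3


end

section

/-!
E3G: on closed surfaces of negative curvature the three-jet integrals tend to zero.
-/

open MeasureTheory Filter Topology Set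
open UpperHalfPlane hiding I
open scoped ContDiff MatrixGroups

namespace U3

open QE QE.NC QJ

namespace E3G

theorem locU_sub {U : Set ℂ} {g : ℂ → ℝ} {h : ℕ → ℝ} {φ : ℕ → ℂ → ℂ} (L : LocU U g h φ)
    {s : ℕ → ℕ} (hs : Tendsto s atTop atTop) :
    LocU U g (fun n => h (s n)) (fun n => φ (s n)) where
  hpos n := L.hpos _
  hlim := L.hlim.comp hs
  smooth n := L.smooth _
  real n z hz := L.real _ z hz
  eig n z hz := L.eig _ z hz
  bdd K hK hKU := by
    obtain ⟨C, hC⟩ := L.bdd K hK hKU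
    exact ⟨C, hs.eventually hC⟩

theorem locB_sub {V V1 : Set ℂ} {σ : ℂ → ℝ} {h : ℕ → ℝ} {φ : ℕ → ℂ → ℂ} (L : LocB V σ h φ)
    (hop : IsOpen V1) (hV : V1 ⊆ V) {s : ℕ → ℕ} (hs : Tendsto s atTop atTop) :
    LocB V1 σ (fun n => h (s n)) (fun n => φ (s n)) where
  op := hop
  hpos n := L.hpos _
  hlim := L.hlim.comp hs
  sm := L.sm
  smφ n := L.smφ _
  real n z := L.real _ z
  eig n z hz := L.eig _ z (hV hz)
  bdd K hK hKU := by
    obtain ⟨C, hC⟩ := L.bdd K hK (hKU.trans hV)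
    exact ⟨C, hs.eventually hC⟩

theorem agree_sub {V U : Set ℂ} {g : ℂ → ℝ} {h : ℕ → ℝ} {φ : ℕ → ℂ → ℂ} {σ : ℂ → ℝ}
    {φ' : ℕ → ℂ → ℂ} (A : Agree V U g h φ σ φ') {s : ℕ → ℕ} (hs : Tendsto s atTop atTop) :
    Agree V U g (fun n => h (s n)) (fun n => φ (s n)) σ (fun n => φ' (s n)) where
  op := A.op
  sub := A.sub
  eg := A.eg
  eφ n z hz := A.eφ _ z hz
  loc := locB_sub A.loc A.op (fun _ hx => hx) hs

variable [MeasurableSpace SL(2, ℝ)] [BorelSpace SL(2, ℝ)]

theorem muV_fin {ν : Measure SL(2, ℝ)} [IsFiniteMeasureOnCompacts ν] {F : Set ℂ} {f : ℂ → ℝ}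
    (hC : IsCompact (pG ⁻¹' F)) (hp : Continuous pG) (hf : Continuous f) :
    muV ν F f Set.univ ≠ ⊤ := by
  have hm : MeasurableSet (pG ⁻¹' F) := hC.measurableSet
  obtain ⟨M, hM⟩ := hC.exists_bound_of_continuousOn (f := fun g => f (pG g))
    (hf.comp hp).continuousOn
  unfold muV
  rw [withDensity_apply _ MeasurableSet.univ, Measure.restrict_univ]
  have h1 : ∫⁻ g in pG ⁻¹' F, ENNReal.ofReal (f (pG g)) ∂ν ≤
      ENNReal.ofReal M * ν (pG ⁻¹' F) := by
    calc ∫⁻ g in pG ⁻¹' F, ENNReal.ofReal (f (pG g)) ∂ν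
        ≤ ∫⁻ _ in pG ⁻¹' F, ENNReal.ofReal M ∂ν := by
          refine setLIntegral_mono' hm fun g hg => ENNReal.ofReal_le_ofReal ?_
          exact (le_abs_self _).trans (hM g hg)
      _ = ENNReal.ofReal M * ν (pG ⁻¹' F) := by
          rw [setLIntegral_const]
  exact ne_top_of_le_ne_top (ENNReal.mul_ne_top ENNReal.ofReal_ne_top hC.measure_lt_top.ne) h1

theorem muV_cpt {ν : Measure SL(2, ℝ)} {F : Set ℂ} {f : ℂ → ℝ}
    (hC : IsCompact (pG ⁻¹' F)) : ∀ᵐ o ∂(muV ν F f), pG o ∈ F := by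
  have hm : MeasurableSet (pG ⁻¹' F) := hC.measurableSet
  have h1 : ∀ᵐ o ∂(ν.restrict (pG ⁻¹' F)), o ∈ pG ⁻¹' F := ae_restrict_mem hm
  exact (withDensity_absolutelyContinuous _ _).ae_le h1

theorem muV_int {ν : Measure SL(2, ℝ)} {F : Set ℂ} {f : ℂ → ℝ}
    (hp : Continuous pG) (hf : Continuous f) (hf0 : ∀ z, 0 ≤ f z) {ζ : ℂ → ℂ}
    (hζ : tsupport ζ ⊆ F) (k : ℤ) :
    ∫ o, ζ (pG o) * uG o ^ k ∂(muV ν F f) =
      ∫ g, ζ (pG g) * ((f (pG g) : ℝ) : ℂ) * uG g ^ k ∂ν := by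
  unfold muV
  have hme : Measurable (fun g : SL(2, ℝ) => ENNReal.ofReal (f (pG g))) :=
    (hf.comp hp).measurable.ennreal_ofReal
  rw [integral_withDensity_eq_integral_toReal_smul hme
    (Filter.Eventually.of_forall fun _ => ENNReal.ofReal_lt_top)]
  rw [setIntegral_eq_integral_of_forall_compl_eq_zero]
  · refine integral_congr_ae (Filter.Eventually.of_forall fun g => ?_)
    show (ENNReal.ofReal (f (pG g))).toReal • (ζ (pG g) * uG g ^ k) = _
    rw [ENNReal.toReal_ofReal (hf0 _), Complex.real_smul]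
    ring
  · intro g hg
    have h1 : ζ (pG g) = 0 := by
      by_contra hne
      exact hg (hζ (subset_tsupport _ hne))
    show (ENNReal.ofReal (f (pG g))).toReal • (ζ (pG g) * uG g ^ k) = 0
    rw [h1, zero_mul, smul_zero]

end E3G

theorem stmtE3g (hWgl : StmtWgl) (hE3z : StmtE3z) (hGev : StmtGev) (_hLcz : StmtLcz)
    (hEcg : StmtEcg) (hRot : StmtRot) : StmtE3g := by
  intro Γ ρ h φ hFac hlap hLoc V σ φ' hAg ζ hζ a b c
  let _ : MeasurableSpace SL(2, ℝ) := borel _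
  have : BorelSpace SL(2, ℝ) := ⟨rfl⟩
  obtain ⟨hpc, huc, hu1, -, -, -, -, hcpt⟩ := hRot
  obtain ⟨Φ, hΦ⟩ := NC.stmtFlow NC.stmtLip Γ ρ hFac
  refine tendsto_of_subseq_tendsto fun ns hns => ?_
  obtain ⟨s, ν, hs, hfc, hsf, hinv, hlim⟩ := hWgl Γ ρ Φ (fun n => h (ns n)) (fun n => φ (ns n))
    hFac hΦ (E3G.locU_sub hLoc hns)
  have := hfc
  have := hsf
  refine ⟨s, ?_⟩
  have hst : Tendsto s atTop atTop := hs.tendsto_atTop
  have hnss : Tendsto (fun n => ns (s n)) atTop atTop := hns.comp hst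
  -- a relatively compact neighbourhood of the support
  obtain ⟨V1, hV1o, hKV1, hV1V, hV1c⟩ := exists_open_between_and_isCompact_closure
    (hζ.supp : IsCompact (tsupport ζ)) hAg.op hζ.sub
  have hFU : closure V1 ⊆ UH := hV1V.trans hAg.sub
  have hV1F : V1 ⊆ closure V1 := subset_closure
  have hV1V' : V1 ⊆ V := hV1F.trans hV1V
  have hCc : IsCompact (pG ⁻¹' (closure V1)) := hcpt _ hV1c hFU
  set f : ℂ → ℝ := fun z => Real.exp (-(2 * σ z)) with hfdef
  have hfcont : Continuous f := by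
    have := hAg.loc.sm.continuous
    exact Real.continuous_exp.comp (continuous_const.mul this).neg
  have hf0 : ∀ z, 0 ≤ f z := fun z => (Real.exp_pos _).le
  obtain ⟨G, B, hGeo⟩ := hGev Γ ρ Φ ν hFac hlap hΦ hinv (closure V1) V1 f hV1c hFU hV1F hfcont hf0
  have hAg1 := E3G.agree_sub hAg hns
  have hLoc2 : LocB V1 σ (fun n => h (ns (s n))) (fun n => φ' (ns (s n))) :=
    E3G.locB_sub hAg.loc hV1o hV1V' hnss
  -- jets of the subsequences
  have hE1 : ∀ j n z, E σ (fun k => h (ns (s k))) (fun k => φ' (ns (s k))) j n z =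
      E σ h φ' j (ns (s n)) z := fun j n z =>
    (hEcg V σ σ h φ' φ' hAg.op (fun _ _ => rfl) (fun _ _ _ => rfl)).2 (fun k => ns (s k)) j n z
  have hE2 : ∀ j n z, E σ (fun k => h (ns k)) (fun k => φ' (ns k)) j n z =
      E σ h φ' j (ns n) z := fun j n z =>
    (hEcg V σ σ h φ' φ' hAg.op (fun _ _ => rfl) (fun _ _ _ => rfl)).2 ns j n z
  have hLim : LimM V1 σ (fun n => h (ns (s n))) (fun n => φ' (ns (s n))) (muV ν (closure V1) f)
      pG uG := by
    refine ⟨E3G.muV_fin hCc hpc hfcont, hpc.measurable, huc.measurable, hu1,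
      ⟨closure V1, hV1c, E3G.muV_cpt hCc⟩, ?_⟩
    intro j m ζ' hζ'
    have hζ'V : Test V ζ' := ⟨hζ'.smooth, hζ'.supp, hζ'.sub.trans hV1V'⟩
    have h1 := hlim V σ (fun n => φ' (ns n)) hAg1 j m ζ' hζ'V
    rw [E3G.muV_int hpc hfcont hf0 (hζ'.sub.trans hV1F)]
    refine h1.congr fun n => ?_
    refine integral_congr_ae (Filter.Eventually.of_forall fun z => ?_)
    show ζ' z * (E σ (fun k => h (ns k)) (fun k => φ' (ns k)) j (s n) z *
      E σ (fun k => h (ns k)) (fun k => φ' (ns k)) m (s n) z) =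
      ζ' z * (E σ (fun k => h (ns (s k))) (fun k => φ' (ns (s k))) j n z *
      E σ (fun k => h (ns (s k))) (fun k => φ' (ns (s k))) m n z)
    rw [hE1 j n z, hE1 m n z, hE2 j (s n) z, hE2 m (s n) z]
  have hfin := hE3z V1 σ (fun n => h (ns (s n))) (fun n => φ' (ns (s n))) SL(2, ℝ)
    (muV ν (closure V1) f) pG uG G B hLoc2 hLim hGeo ζ ⟨hζ.smooth, hζ.supp, hKV1⟩ a b c
  refine hfin.congr fun n => ?_
  unfold E3
  refine integral_congr_ae (Filter.Eventually.of_forall fun z => ?_)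
  show ζ z * (E σ (fun k => h (ns (s k))) (fun k => φ' (ns (s k))) a n z *
      E σ (fun k => h (ns (s k))) (fun k => φ' (ns (s k))) b n z *
      E σ (fun k => h (ns (s k))) (fun k => φ' (ns (s k))) c n z) =
      ζ z * (E σ h φ' a (ns (s n)) z * E σ h φ' b (ns (s n)) z * E σ h φ' c (ns (s n)) z)
  rw [hE1 a n z, hE1 b n z, hE1 c n z]

end U3


end

section

/-!
The three-jet integrals of eigenfunctions of closed surfaces of negative curvature tend to zero:
assembly.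
-/

namespace U3

theorem are : StmtAre := stmtAre stmtVel stmtRot
theorem ncr : StmtNcr := stmtNcr are stmtRot
theorem jac : StmtJac := stmtJac stmtRot stmtJca
theorem nuc : StmtNuc := stmtNuc stmtRot jac
theorem trv : StmtTrv := stmtTrv stmtVel stmtRot
theorem con : StmtCon := stmtCon stmtVel trv stmtRot
theorem geo : StmtGeo := stmtGeo ncr nuc con trv stmtRot
theorem gev : StmtGev := stmtGev geo stmtRot
theorem wga : StmtWga := stmtWga groA stmtIntA stmtIbpA stmtJetC stmtLcz stmtEcg stmtSub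
theorem wgb : StmtWgb := stmtWgb dir stmtLcz stmtEcg stmtRot
theorem wgl : StmtWgl := stmtWgl wga stmtRmk wgb stmtInfU stmtRot
theorem e3g : StmtE3g := stmtE3g wgl e3z gev stmtLcz stmtEcg stmtRot

end U3


end

section

/-!
DSU: the functions and their first derivatives at displaced points are dominated.
-/

open MeasureTheory Filter Topology Set
open scoped ContDiff

namespace QJ

open QE

noncomputable section

theorem stmtDsu (hDsp : StmtDsp) : StmtDsu := by
  intro U g h φ hU hg hgp H K hK hKU R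
  obtain ⟨V, σ, ψ, hKV, hVU, hL, he, -⟩ := LW.exists_loc hU hg hgp H hK hKU
  obtain ⟨S, h1, hc, hev, hlim⟩ := hDsp V σ h ψ hL K hK hKV 1 R
  refine ⟨S, h1, hc, ?_, hlim⟩
  filter_upwards [hev] with n hn z hz y hy
  obtain ⟨hV, hRR⟩ := hn z hz y hy
  have key : ∀ a b : ℕ, a ≤ 1 → b ≤ 1 → ‖W h φ a b n (z + h n * y)‖ ^ 2 ≤ S n z := by
    intro a b ha hb
    rw [← LW.W_congr hL.op he a b n hV]
    exact (W_sq_le ha hb n _).trans hRR
  refine ⟨hVU hV, ?_, ?_, ?_⟩
  · have := key 0 0 (by norm_num) (by norm_num)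
    simpa [W] using this
  · have := key 1 0 (by norm_num) (by norm_num)
    simpa [W] using this
  · have := key 0 1 (by norm_num) (by norm_num)
    simpa [W] using this

end

end QJ


end

section

/-!
The theorem on the moments of order at most three, assembled.
-/

namespace QJ

theorem dsp : StmtDsp := stmtDsp gro ptw
theorem der : StmtDer := stmtDer dsp stmtJetA
theorem rel : StmtRel := stmtRel dsp stmtJetA
theorem tpa : StmtTpa := stmtTpa der rel stmtRad two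
theorem tpb : StmtTpb := stmtTpb der rel stmtRad cub
theorem tl : StmtTL := stmtTL tpa tpb
theorem dsu : StmtDsu := stmtDsu dsp
theorem pts : StmtPts := stmtPts tl dsu
theorem finP : StmtFinP := stmtFinP stmtTest pts

end QJ


end

section

/-!
INVG: the angular means of products of derivatives of the local waves are continuous and invariant.
-/

open MeasureTheory Filter Topology Set UpperHalfPlane MatrixGroups
open scoped ContDiff

namespace QJ

open QE

namespace INVG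

lemma smooth_iter (a b : ℕ) {U : Set ℂ} (hU : IsOpen U) {f : ℂ → ℂ} (hf : ContDiffOn ℝ ∞ f U) :
    ContDiffOn ℝ ∞ (dz^[a] (dzb^[b] f)) U := by
  have h1 : ContDiffOn ℝ ∞ (dzb^[b] f) U := by
    induction b with
    | zero => simpa using hf
    | succ b ih => rw [Function.iterate_succ_apply']; exact contDiffOn_dzb hU ih
  induction a with
  | zero => simpa using h1
  | succ a ih => rw [Function.iterate_succ_apply']; exact contDiffOn_dz hU ih

lemma isOpen_half : IsOpen {w : ℂ | 0 < w.im} :=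
  isOpen_lt continuous_const Complex.continuous_im

lemma comp_coe_continuous {F : ℂ → ℂ} (hF : ContinuousOn F {w | 0 < w.im}) :
    Continuous (fun p : ℍ × ℝ => F (p.1 : ℂ)) :=
  hF.comp_continuous (UpperHalfPlane.continuous_coe.comp continuous_fst) (fun p => p.1.im_pos)

/-- the local wave at the translated point -/
lemma rWave_smul {Γ : Subgroup SL(2, ℝ)} {ρ φ : ℍ → ℝ} {m : ℝ}
    (hρ : ∀ γ ∈ Γ, ∀ z, ρ (γ • z) = ρ z) (hφ : ∀ γ ∈ Γ, ∀ z, φ (γ • z) = φ z) {γ : SL(2, ℝ)}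
    (hγ : γ ∈ Γ) {z : ℍ} {α : ℝ} (hα : ∀ θ, γ * Berry.frame (z, θ) = Berry.frame (γ • z, α + θ))
    (x : ℂ) (θ : ℝ) :
    Berry.rWave ρ φ m x (γ • z, α + θ) = Berry.rWave ρ φ m x (z, θ) := by
  unfold Berry.rWave
  simp only
  rw [← hα θ, mul_smul, hφ γ hγ, hρ γ hγ]

lemma rWave_periodic {ρ φ : ℍ → ℝ} {m : ℝ} (z : ℍ) (x : ℂ) (θ : ℝ) :
    Berry.rWave ρ φ m x (z, θ + 2 * Real.pi) = Berry.rWave ρ φ m x (z, θ) := by
  unfold Berry.rWave
  simp only [Berry.frame_periodic]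

end INVG

open _root_.QJ.INVG

theorem stmtInvg (hWexp : StmtWexp) : StmtInvg := by
  intro Γ ρ φ m hm hρ hρi hφi hφ r k v
  have hφc : ContDiffOn ℝ ∞ (fun w : ℂ => (φ (ofComplex w) : ℂ)) {w | 0 < w.im} :=
    Complex.ofRealCLM.contDiff.comp_contDiffOn hφ
  have hc : Continuous (fun p : ℍ × ℝ => jetProd k v (fun x => Berry.rWave ρ φ m x p)) := by
    unfold jetProd
    refine continuous_finsetProd _ fun i _ => ?_
    set c : ℍ × ℝ → ℂ := fun p => ((p.1 : ℂ).im : ℂ) * (((1 / m : ℝ) : ℂ)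
      * ((Real.exp (-ρ p.1) : ℝ) : ℂ)) * uu p.2 ^ 2 with hcdef
    set d : ℍ × ℝ → ℂ := fun p => (((1 / m : ℝ) : ℂ) * ((Real.exp (-ρ p.1) : ℝ) : ℂ)) * uu p.2
      * (Real.sin p.2 : ℂ) with hddef
    have hec : Continuous fun p : ℍ × ℝ => ((Real.exp (-ρ p.1) : ℝ) : ℂ) :=
      Complex.continuous_ofReal.comp (Real.continuous_exp.comp (hρ.comp continuous_fst).neg)
    have huc : Continuous fun p : ℍ × ℝ => uu p.2 := QE.continuous_uu.comp continuous_snd
    have hcc : Continuous c := by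
      refine ((Complex.continuous_ofReal.comp (Complex.continuous_im.comp
        (UpperHalfPlane.continuous_coe.comp continuous_fst))).mul
          (continuous_const.mul hec)).mul (huc.pow 2)
    have hdc : Continuous d := by
      refine ((continuous_const.mul hec).mul huc).mul ?_
      exact Complex.continuous_ofReal.comp (Real.continuous_sin.comp continuous_snd)
    have e : (fun p : ℍ × ℝ =>
        ((iteratedFDeriv ℝ (k i) (fun x => Berry.rWave ρ φ m x p) 0 (v i) : ℝ) : ℂ))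
        = fun p => ∑ a ∈ Finset.range (k i + 1), sc (v i) a *
          ∑ i' ∈ Finset.range (a + 1), ∑ j ∈ Finset.range (k i - a + 1),
            ((lah a i' * lah (k i - a) j : ℝ) : ℂ) * (c p ^ i' * d p ^ (a - i'))
              * ((starRingEnd ℂ) (c p) ^ j * (starRingEnd ℂ) (d p) ^ (k i - a - j))
              * dz^[i'] (dzb^[j] (fun w : ℂ => (φ (ofComplex w) : ℂ))) (p.1 : ℂ) := by
      funext p
      have h := hWexp ρ φ m hm hφ (p.1 : ℂ) p.1.im_pos p.2 (k i) (v i) (c p) (d p)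
        (by simp only [hcdef, ofComplex_apply]) (by simp only [hddef, ofComplex_apply])
      rw [ofComplex_apply] at h
      exact h
    have h1 : Continuous (fun p : ℍ × ℝ =>
        ((iteratedFDeriv ℝ (k i) (fun x => Berry.rWave ρ φ m x p) 0 (v i) : ℝ) : ℂ)) := by
      rw [e]
      refine continuous_finsetSum _ fun a _ => continuous_const.mul ?_
      refine continuous_finsetSum _ fun i' _ => continuous_finsetSum _ fun j _ => ?_
      refine ((continuous_const.mul ((hcc.pow _).mul (hdc.pow _))).mul ?_).mul ?_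
      · exact ((Complex.continuous_conj.comp hcc).pow _).mul
          ((Complex.continuous_conj.comp hdc).pow _)
      · exact comp_coe_continuous (smooth_iter i' j isOpen_half hφc).continuousOn
    have h2 := Complex.continuous_re.comp h1
    simpa [Function.comp_def] using h2
  refine ⟨hc, ?_, ?_⟩
  · unfold angJet
    change Continuous fun z => ∫ θ, jetProd k v (fun x => Berry.rWave ρ φ m x (z, θ)) ∂ang
    simp only [ang_int, smul_eq_mul]
    refine continuous_const.mul ?_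
    exact intervalIntegral.continuous_parametric_intervalIntegral_of_continuous' hc _ _
  · intro γ hγ z
    change ∫ θ, jetProd k v (fun x => Berry.rWave ρ φ m x (γ • z, θ)) ∂ang
      = ∫ θ, jetProd k v (fun x => Berry.rWave ρ φ m x (z, θ)) ∂ang
    obtain ⟨α, hα⟩ := Berry.mul_frame γ z
    have hper : Function.Periodic (fun θ => jetProd k v
        (fun x => Berry.rWave ρ φ m x (γ • z, θ))) (2 * Real.pi) := by
      intro θ
      simp only [rWave_periodic]
    rw [← ang_shift hper α]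
    simp only [rWave_smul hρi hφi hγ hα]

end QJ


end

section

/-!
The theorem on the jets of the local waves, assembled.
-/

namespace QJ

theorem main : StmtMain := stmtMain wexp lwe
theorem locG : StmtLocG := stmtLocG main lw pwt pwf
theorem invg : StmtInvg := stmtInvg wexp
theorem fub : StmtFub := stmtFub invg
theorem fin : StmtFin := stmtFin stmtTest locG invg fub

end QJ


end

section

/-!
Third order statistics of all eigenfunctions on surfaces of negative curvature: the local theorem for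
mixed derivatives.
-/

open Complex MeasureTheory Filter Topology Set
open scoped ContDiff

namespace U3

open QE QJ

noncomputable section

namespace LWU

variable {V : Set ℂ} {σ : ℂ → ℝ} {h : ℕ → ℝ} {φ : ℕ → ℂ → ℂ}

/-- dominated sequences multiplied by `h` are small -/
lemma hz (hIntA : StmtIntA) (L : LocB V σ h φ) (hG : GrowA V h φ) (hS : Small V h φ)
    {u : ℕ → ℂ → ℂ} (hu : ∀ n, ContDiff ℝ ∞ (u n)) (hB : Bq V h φ 4 u) : HZ V h u :=
  (hIntA V h φ u L.hpos L.hlim L.smφ hG hu).2.2.2.2 hB hS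

lemma hlimC (L : LocB V σ h φ) : Tendsto (fun n => (h n : ℂ)) atTop (𝓝 0) := by
  have h1 := (Complex.continuous_ofReal.tendsto 0).comp L.hlim
  rw [Complex.ofReal_zero] at h1
  exact h1

/-- the error terms vanish -/
lemma err (hIntA : StmtIntA) (L : LocB V σ h φ) (hG : GrowA V h φ) (hS : Small V h φ) {r : ℕ}
    (hr : r ≤ 4) {R : ℕ → ℂ → ℂ} (hR : Dom V h φ r R) {ζ : ℂ → ℂ} (hζ : Test V ζ) :
    Tendsto (fun n => ∫ z, ζ z * ((h n : ℂ) * R n z)) atTop (𝓝 0) := by
  have h1 := IBP.lim_test L.hpos hR.smooth (hz hIntA L hG hS hR.smooth (hR.bq.mono hr)) hζ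
  refine h1.congr fun n => ?_
  rw [← integral_const_mul]
  congr 1
  funext z
  ring

/-- the products of the mixed derivatives and of the covariant jets -/
theorem main {g : ℂ → ℝ} {ψ : ℕ → ℂ → ℂ} (hIntA : StmtIntA) (hJetC : StmtJetC)
    (hJetW : StmtJetW) (L : LocB V σ h ψ) (hG : GrowA V h ψ) (hS : Small V h ψ)
    (he : ∀ n, ∀ z ∈ V, ψ n z = φ n z) (hg : ∀ z ∈ V, g z = Real.exp (σ z) ^ 2) {ζ : ℂ → ℂ}
    (hζ : Test V ζ) {r : ℕ} (hr : r ≤ 4) (a b : Fin r → ℕ) :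
    Tendsto (fun n => (∫ z, ζ z * ∏ i, Wg g h φ (a i) (b i) n z) -
      (∏ i, cW (a i) (b i)) * ∫ z, ζ z * ∏ i, E σ h ψ ((a i : ℤ) - b i) n z) atTop (𝓝 0) := by
  choose A hA hA2 using fun i => hJetW V σ h ψ L (a i) (b i)
  obtain ⟨h1, R, hR, hR2⟩ := LW.prod_expand (φ := ψ) L.op L.hlim r
    (fun i n z => Wg g h φ (a i) (b i) n z)
    (fun i n z => cW (a i) (b i) * E σ h ψ ((a i : ℤ) - b i) n z) A
    (fun i => ((hJetC V σ h ψ L _).1).smul L.op _) hA
    (fun i n z hz => by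
      rw [LW.Wg_eq L.op he hg _ _ n hz, hA2 i n z hz]
      rfl)
  refine (err hIntA L hG hS hr hR hζ).congr fun n => ?_
  have e1 : ∫ z, ζ z * ∏ i, Wg g h φ (a i) (b i) n z =
      ∫ z, ζ z * (∏ i, (cW (a i) (b i) * E σ h ψ ((a i : ℤ) - b i) n z) + (h n : ℂ) * R n z) :=
    LW.int_congr hζ fun z hz => hR2 n z hz
  have e2 : (∏ i, cW (a i) (b i)) * ∫ z, ζ z * ∏ i, E σ h ψ ((a i : ℤ) - b i) n z =
      ∫ z, ζ z * ∏ i, (cW (a i) (b i) * E σ h ψ ((a i : ℤ) - b i) n z) := by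
    rw [← integral_const_mul]
    congr 1
    funext z
    rw [Finset.prod_mul_distrib]
    ring
  rw [e1, e2, ← integral_sub]
  · congr 1
    funext z
    ring
  · exact test_int hζ ((h1.smooth n).continuous.add
      (continuous_const.mul (hR.smooth n).continuous))
  · exact test_int hζ (h1.smooth n).continuous

/-- one jet -/
lemma one (hIntA : StmtIntA) (hIbpA : StmtIbpA) (hJ : StmtJetC) (L : LocB V σ h φ)
    (hG : GrowA V h φ) (hS : Small V h φ) {ζ : ℂ → ℂ} (hζ : Test V ζ) (j : ℤ) :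
    Tendsto (fun n => ∫ z, ζ z * E σ h φ j n z) atTop (𝓝 0) := by
  obtain ⟨i, rfl⟩ : ∃ i : ℤ, j = i + 1 := ⟨j - 1, by ring⟩
  obtain ⟨dj, ⟨A1, hA1, h1⟩, -⟩ := hJ V σ h φ L i
  obtain ⟨dj1, -, -⟩ := hJ V σ h φ L (i + 1)
  have i1 := (hIbpA V σ h _ i L.op L.sm L.hpos dj.smooth
    (hz hIntA L hG hS dj.smooth (dj.mono (by norm_num : 1 ≤ 4)).bq) ζ hζ).1
  have i2 := (hlimC L).mul (IBP.lim_test L.hpos hA1.smooth
    (hz hIntA L hG hS hA1.smooth (hA1.mono (by norm_num : 1 ≤ 4)).bq) hζ)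
  have i3 := i1.sub i2
  rw [mul_zero, sub_zero] at i3
  refine i3.congr fun n => ?_
  have e : ∀ z, ζ z * ((h n : ℂ) * D σ i (E σ h φ i n) z)
      = ζ z * E σ h φ (i + 1) n z + (h n : ℂ) ^ 2 * (ζ z * A1 n z) := by
    intro z
    by_cases hz : z ∈ V
    · rw [h1 n z hz]; ring
    · rw [TWO.zero_off hζ hz]; ring
  have k1 : Integrable (fun z => ζ z * E σ h φ (i + 1) n z) :=
    hζ.integrable_mul L.op (dj1.smooth n).continuous.continuousOn
  have k2 : Integrable (fun z => ζ z * A1 n z) :=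
    hζ.integrable_mul L.op (hA1.smooth n).continuous.continuousOn
  simp only [e]
  rw [integral_add k1 (k2.const_mul _), integral_const_mul]
  ring

/-- two jets: the recursion -/
lemma rec_step (hIntA : StmtIntA) (hIbpA : StmtIbpA) (hJ : StmtJetC) (L : LocB V σ h φ)
    (hG : GrowA V h φ) (hS : Small V h φ) {ζ : ℂ → ℂ} (hζ : Test V ζ) (j m : ℤ) :
    Tendsto (fun n => TWO.I2 σ h φ ζ (j + 1) m n + TWO.I2 σ h φ ζ j (m + 1) n) atTop (𝓝 0) := by
  have hσ := L.sm
  obtain ⟨dj, ⟨A1, hA1, h1⟩, -⟩ := hJ V σ h φ L j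
  obtain ⟨dm, ⟨A2, hA2, h2⟩, -⟩ := hJ V σ h φ L m
  obtain ⟨dj1, -, -⟩ := hJ V σ h φ L (j + 1)
  obtain ⟨dm1, -, -⟩ := hJ V σ h φ L (m + 1)
  have du : Dom V h φ 2 (fun n z => E σ h φ j n z * E σ h φ m n z) := dj.mul L.op dm
  have dB : Dom V h φ 2 (fun n z => A1 n z * E σ h φ m n z + E σ h φ j n z * A2 n z) :=
    (hA1.mul L.op dm).add L.op (dj.mul L.op hA2)
  have i1 := (hIbpA V σ h _ (j + m) L.op L.sm L.hpos du.smooth
    (hz hIntA L hG hS du.smooth (du.mono (by norm_num : 2 ≤ 4)).bq) ζ hζ).1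
  have i2 := (hlimC L).mul (IBP.lim_test L.hpos dB.smooth
    (hz hIntA L hG hS dB.smooth (dB.mono (by norm_num : 2 ≤ 4)).bq) hζ)
  have i3 := i1.sub i2
  rw [mul_zero, sub_zero] at i3
  refine i3.congr fun n => ?_
  have e : ∀ z, ζ z * ((h n : ℂ) * D σ (j + m) (fun z => E σ h φ j n z * E σ h φ m n z) z)
      = (ζ z * (E σ h φ (j + 1) n z * E σ h φ m n z) + ζ z * (E σ h φ j n z * E σ h φ (m + 1) n z))
        + (h n : ℂ) ^ 2 * (ζ z * (A1 n z * E σ h φ m n z + E σ h φ j n z * A2 n z)) := by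
    intro z
    by_cases hz : z ∈ V
    · rw [D_mul hσ j m (cd_at (dj.smooth n) z) (cd_at (dm.smooth n) z)]
      linear_combination ζ z * E σ h φ m n z * h1 n z hz + ζ z * E σ h φ j n z * h2 n z hz
    · rw [TWO.zero_off hζ hz]; ring
  have k1 : Integrable (fun z => ζ z * (E σ h φ (j + 1) n z * E σ h φ m n z)) :=
    hζ.integrable_mul L.op ((dj1.smooth n).mul (dm.smooth n)).continuous.continuousOn
  have k2 : Integrable (fun z => ζ z * (E σ h φ j n z * E σ h φ (m + 1) n z)) :=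
    hζ.integrable_mul L.op ((dj.smooth n).mul (dm1.smooth n)).continuous.continuousOn
  have k3 : Integrable (fun z => ζ z * (A1 n z * E σ h φ m n z + E σ h φ j n z * A2 n z)) :=
    hζ.integrable_mul L.op (dB.smooth n).continuous.continuousOn
  have k12 : Integrable (fun z => ζ z * (E σ h φ (j + 1) n z * E σ h φ m n z)
      + ζ z * (E σ h φ j n z * E σ h φ (m + 1) n z)) := k1.add k2
  unfold TWO.I2
  simp only [e]
  rw [integral_add k12 (k3.const_mul _), integral_add k1 k2, integral_const_mul]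
  ring

/-- two jets -/
lemma two (hIntA : StmtIntA) (hIbpA : StmtIbpA) (hJ : StmtJetC) (L : LocB V σ h φ)
    (hG : GrowA V h φ) (hS : Small V h φ) {ζ : ℂ → ℂ} (hζ : Test V ζ) (j : ℤ) : ∀ m : ℤ,
    Tendsto (fun n => TWO.I2 σ h φ ζ j m n - (-1) ^ j * TWO.I2 σ h φ ζ 0 (j + m) n)
      atTop (𝓝 0) := by
  have hr := rec_step hIntA hIbpA hJ L hG hS hζ
  induction j using Int.induction_on with
  | zero =>
    intro m
    simp
  | succ j ih =>
    intro m
    have i1 := (hr j m).sub (ih (m + 1))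
    rw [sub_zero] at i1
    refine i1.congr fun n => ?_
    have e1 : ((j : ℤ) + (m + 1)) = (j : ℤ) + 1 + m := by ring
    rw [e1, zpow_add_one₀ (by norm_num : (-1 : ℂ) ≠ 0)]
    ring
  | pred j ih =>
    intro m
    have i1 := (hr (-(j : ℤ) - 1) (m - 1)).sub (ih (m - 1))
    rw [sub_zero] at i1
    refine i1.congr fun n => ?_
    have e1 : -(j : ℤ) - 1 + 1 = -(j : ℤ) := by ring
    have e2 : m - 1 + 1 = m := by ring
    have e3 : -(j : ℤ) + (m - 1) = -(j : ℤ) - 1 + m := by ring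
    rw [e1, e2, e3, zpow_sub_one₀ (by norm_num : (-1 : ℂ) ≠ 0)]
    have e4 : ((-1 : ℂ))⁻¹ = -1 := by norm_num
    rw [e4]
    ring

end LWU

open _root_.U3.LWU in
theorem stmtLwU (hGroA : StmtGroA) (hIntA : StmtIntA) (hIbpA : StmtIbpA) (hJetC : StmtJetC)
    (hJetW : StmtJetW) (hSml : StmtSml) (hLcz : StmtLcz) : StmtLwU := by
  intro U g h φ hU hg hgp H ζ hζ
  obtain ⟨V, F, σ, ψ, hKV, -, -, -, hA⟩ := hLcz U g h φ hU hg hgp H (tsupport ζ) hζ.supp hζ.sub
  have L := hA.loc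
  have hζV : Test V ζ := ⟨hζ.smooth, hζ.supp, hKV⟩
  have hG := hGroA V σ h ψ L
  have hS := hSml V σ h ψ L
  have hgV : ∀ z ∈ V, g z = Real.exp (σ z) ^ 2 := by
    intro z hz
    rw [← hA.eg z hz, ← Real.exp_nat_mul]
    norm_num
  have key : ∀ {r : ℕ} (_ : r ≤ 4) (a b : Fin r → ℕ), Tendsto (fun n =>
      (∫ z, ζ z * ∏ i, Wg g h φ (a i) (b i) n z) -
      (∏ i, cW (a i) (b i)) * ∫ z, ζ z * ∏ i, E σ h ψ ((a i : ℤ) - b i) n z) atTop (𝓝 0) :=
    fun hr a b => main hIntA hJetC hJetW L hG hS hA.eφ hgV hζV hr a b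
  refine ⟨?_, ?_, ?_⟩
  · intro a b
    have k1 := key (r := 1) (by norm_num) (fun _ => a) (fun _ => b)
    have k2 := one hIntA hIbpA hJetC L hG hS hζV ((a : ℤ) - b)
    have k3 := k1.add (k2.const_mul (cW a b))
    simp only [Fin.prod_univ_one, mul_zero, add_zero] at k3
    refine k3.congr fun n => ?_
    ring
  · intro a b hab
    have k1 := key (r := 2) (by norm_num) a b
    have k2 := two hIntA hIbpA hJetC L hG hS hζV ((a 0 : ℤ) - b 0) ((a 1 : ℤ) - b 1)
    have k3 := k1.add (k2.const_mul (∏ i, cW (a i) (b i)))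
    rw [mul_zero, add_zero] at k3
    refine k3.congr fun n => ?_
    have hab' : ((a 0 : ℤ) - b 0) + ((a 1 : ℤ) - b 1) = 0 := by
      rw [← hab, Fin.sum_univ_two]
    have e1 : TWO.I2 σ h ψ ζ 0 0 n = ∫ z, ζ z * φ n z ^ 2 := by
      unfold TWO.I2
      refine LW.int_congr hζV fun z hz => ?_
      have e3 : E σ h ψ 0 n z = ψ n z := rfl
      rw [e3, hA.eφ n z hz]
      ring
    have e2 : QJ.P ((a 0 : ℤ) - b 0) ((a 1 : ℤ) - b 1) = (-1) ^ ((a 0 : ℤ) - b 0) := by
      unfold QJ.P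
      rw [if_pos hab']
    rw [hab', e1, e2]
    have e4 : TWO.I2 σ h ψ ζ ((a 0 : ℤ) - b 0) ((a 1 : ℤ) - b 1) n =
        ∫ z, ζ z * ∏ i, E σ h ψ ((a i : ℤ) - b i) n z := by
      unfold TWO.I2
      simp only [Fin.prod_univ_two]
    rw [e4]
    ring
  · intro hE a b
    have k1 := key (r := 3) (by norm_num) a b
    have k2 := hE V σ ψ hA ζ hζV ((a 0 : ℤ) - b 0) ((a 1 : ℤ) - b 1) ((a 2 : ℤ) - b 2)
    have k3 := k1.add (k2.const_mul (∏ i, cW (a i) (b i)))
    rw [mul_zero, add_zero] at k3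
    refine k3.congr fun n => ?_
    have e1 : E3 σ h ψ ζ ((a 0 : ℤ) - b 0) ((a 1 : ℤ) - b 1) ((a 2 : ℤ) - b 2) n =
        ∫ z, ζ z * ∏ i, E σ h ψ ((a i : ℤ) - b i) n z := by
      unfold E3
      simp only [Fin.prod_univ_three]
    rw [e1]
    ring

end

end U3


end

section

/-!
The local theorem for the local waves and for the directional derivatives of the eigenfunctions,
without quantum ergodicity.
-/

open MeasureTheory Filter Topology Set UpperHalfPlane MatrixGroups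
open scoped ContDiff

namespace U3

open QE QJ

noncomputable section

namespace LOGU

theorem dz_add_left (f : ℂ → ℂ) (z : ℂ) : dz (fun y => f (z + y)) = fun y => dz f (z + y) := by
  funext y
  unfold dz
  rw [fderiv_comp_add_left]

theorem dzb_add_left (f : ℂ → ℂ) (z : ℂ) : dzb (fun y => f (z + y)) = fun y => dzb f (z + y) := by
  funext y
  unfold dzb
  rw [fderiv_comp_add_left]

theorem iter_add_left (f : ℂ → ℂ) (z : ℂ) (a b : ℕ) :
    dz^[a] (dzb^[b] (fun y => f (z + y))) = fun y => dz^[a] (dzb^[b] f) (z + y) := by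
  have hb : dzb^[b] (fun y => f (z + y)) = fun y => dzb^[b] f (z + y) := by
    induction b with
    | zero => rfl
    | succ b ih =>
      rw [Function.iterate_succ_apply', ih, dzb_add_left, Function.iterate_succ_apply']
  rw [hb]
  induction a with
  | zero => rfl
  | succ a ih =>
    rw [Function.iterate_succ_apply', ih, dz_add_left, Function.iterate_succ_apply']

/-- the iterated derivative at a point of an open set, in terms of the Wirtinger derivatives -/
theorem iter_eq (hIter : StmtIter) {f : ℂ → ℝ} {U : Set ℂ} (hU : IsOpen U)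
    (hf : ContDiffOn ℝ ∞ f U) {z : ℂ} (hz : z ∈ U) (k : ℕ) (v : Fin k → ℂ) :
    ((iteratedFDeriv ℝ k f z v : ℝ) : ℂ)
      = ∑ a ∈ Finset.range (k + 1), sc v a * dz^[a] (dzb^[k - a] (fun w => (f w : ℂ))) z := by
  have hU' : IsOpen ((fun y => z + y) ⁻¹' U) := hU.preimage (continuous_const.add continuous_id)
  have h0 : (0 : ℂ) ∈ (fun y => z + y) ⁻¹' U := by simpa using hz
  have hF : ContDiffOn ℝ ∞ (fun y => f (z + y)) ((fun y => z + y) ⁻¹' U) :=
    hf.comp (contDiff_const.add contDiff_id).contDiffOn (fun y hy => hy)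
  have h1 := hIter _ _ hU' h0 hF k v
  rw [iteratedFDeriv_comp_add_left] at h1
  simp only [add_zero] at h1
  rw [h1]
  refine Finset.sum_congr rfl fun a _ => ?_
  have h2 := congrFun (iter_add_left (fun w => ((f w : ℝ) : ℂ)) z a (k - a)) 0
  simp only [add_zero] at h2
  rw [h2]

theorem contDiffOn_iter {f : ℂ → ℂ} {U : Set ℂ} (hU : IsOpen U) (hf : ContDiffOn ℝ ∞ f U)
    (a b : ℕ) : ContDiffOn ℝ ∞ (dz^[a] (dzb^[b] f)) U := by
  have h1 : ContDiffOn ℝ ∞ (dzb^[b] f) U := by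
    induction b with
    | zero => exact hf
    | succ b ih =>
      rw [Function.iterate_succ_apply']
      exact contDiffOn_dzb hU ih
  induction a with
  | zero => exact h1
  | succ a ih =>
    rw [Function.iterate_succ_apply']
    exact contDiffOn_dz hU ih

/-- the rescaled iterated derivative, in terms of the rescaled Wirtinger derivatives -/
theorem fac_eq (hIter : StmtIter) {g : ℂ → ℝ} {U : Set ℂ} (hU : IsOpen U)
    (hg : ∀ z ∈ U, 0 < g z) {φ : ℕ → ℂ → ℝ} {m : ℕ → ℝ} (n : ℕ)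
    (hφ : ContDiffOn ℝ ∞ (φ n) U) {z : ℂ} (hz : z ∈ U) (k : ℕ) (v : Fin k → ℂ) :
    (((1 / m n) ^ k * iteratedFDeriv ℝ k (φ n) z v : ℝ) : ℂ)
      = ∑ a ∈ Finset.range (k + 1), sc v a * (((Real.sqrt (g z) ^ k : ℝ) : ℂ) *
        Wg g (fun n => 1 / m n) (fun n z => (φ n z : ℂ)) a (k - a) n z) := by
  rw [Complex.ofReal_mul, iter_eq hIter hU hφ hz, Finset.mul_sum]
  refine Finset.sum_congr rfl fun a ha => ?_
  have ha' : a + (k - a) = k := by
    have := Finset.mem_range.mp ha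
    omega
  have hs : Real.sqrt (g z) ≠ 0 := (Real.sqrt_pos.mpr (hg z hz)).ne'
  have h1 : ((Real.sqrt (g z) ^ k : ℝ) : ℂ) * (((Real.sqrt (g z))⁻¹ ^ k : ℝ) : ℂ) = 1 := by
    rw [← Complex.ofReal_mul, ← mul_pow, mul_inv_cancel₀ hs, one_pow, Complex.ofReal_one]
  unfold Wg W
  simp only [ha']
  rw [Complex.ofReal_pow (1 / m n) k]
  calc ((1 / m n : ℝ) : ℂ) ^ k * (sc v a * dz^[a] (dzb^[k - a] fun w => (φ n w : ℂ)) z)
      = sc v a * (1 * (((1 / m n : ℝ) : ℂ) ^ k * dz^[a] (dzb^[k - a] fun w => (φ n w : ℂ)) z)) := by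
        ring
    _ = _ := by
        rw [← h1]
        ring

theorem fourth (hLW : StmtLwU) (hIter : StmtIter) {g : ℂ → ℝ} {U : Set ℂ} (hU : IsOpen U)
    (hg1 : ContDiffOn ℝ ∞ g U) (hg : ∀ z ∈ U, 0 < g z) {φ : ℕ → ℂ → ℝ} {m : ℕ → ℝ}
    (hφ : ∀ n, ContDiffOn ℝ ∞ (φ n) U)
    (H : LocU U g (fun n => 1 / m n) (fun n z => (φ n z : ℂ)))
    (H3 : E3V U g (fun n => 1 / m n) (fun n z => (φ n z : ℂ))) {ψ : ℂ → ℝ}
    (hψ : ContDiff ℝ ∞ ψ) (hψc : HasCompactSupport ψ) (hψs : tsupport ψ ⊆ U) (k : Fin 3 → ℕ)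
    (v : ∀ i, Fin (k i) → ℂ) :
    Tendsto (fun n => ∫ z, ψ z * ∏ i, (1 / m n) ^ k i * iteratedFDeriv ℝ (k i) (φ n) z (v i))
      atTop (𝓝 0) := by
  have hT := LOCG.test_ofReal hψ hψc hψs
  have hsq : ContDiffOn ℝ ∞ (fun z => ((Real.sqrt (g z) ^ (∑ i, k i) : ℝ) : ℂ)) U :=
    Complex.ofRealCLM.contDiff.comp_contDiffOn ((hg1.sqrt fun z hz => (hg z hz).ne').pow _)
  have hZ : Test U (fun z => (ψ z : ℂ) * ((Real.sqrt (g z) ^ (∑ i, k i) : ℝ) : ℂ)) := hT.mul hU hsq
  obtain ⟨-, -, L3⟩ := hLW U g _ _ hU hg1 hg H _ hZ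
  have L3' := L3 H3
  have hW : ∀ (n a b : ℕ), ContinuousOn (fun z =>
      Wg g (fun n => 1 / m n) (fun n z => (φ n z : ℂ)) a b n z) U := by
    intro n a b
    unfold Wg W
    have h1 : ContDiffOn ℝ ∞ (fun w => ((φ n w : ℝ) : ℂ)) U :=
      Complex.ofRealCLM.contDiff.comp_contDiffOn (hφ n)
    have h2 : ContinuousOn (fun z => (((Real.sqrt (g z))⁻¹ ^ (a + b) : ℝ) : ℂ)) U := by
      refine Complex.continuous_ofReal.comp_continuousOn (ContinuousOn.pow ?_ _)
      exact (Real.continuous_sqrt.comp_continuousOn hg1.continuousOn).inv₀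
        fun z hz => (Real.sqrt_pos.mpr (hg z hz)).ne'
    exact h2.mul (continuousOn_const.mul (contDiffOn_iter hU h1 a b).continuousOn)
  apply LOCG.tendsto_real
  rw [Complex.ofReal_zero]
  have key : ∀ n, ((∫ z, ψ z * ∏ i, (1 / m n) ^ k i * iteratedFDeriv ℝ (k i) (φ n) z (v i) : ℝ) : ℂ)
      = ∑ a ∈ Fintype.piFinset fun i => Finset.range (k i + 1), (∏ i, sc (v i) (a i)) *
        ∫ z, ((ψ z : ℂ) * ((Real.sqrt (g z) ^ (∑ i, k i) : ℝ) : ℂ)) *
          ∏ i, Wg g (fun n => 1 / m n) (fun n z => (φ n z : ℂ)) (a i) (k i - a i) n z := by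
    intro n
    have e1 : ((∫ z, ψ z * ∏ i, (1 / m n) ^ k i * iteratedFDeriv ℝ (k i) (φ n) z (v i) : ℝ) : ℂ)
        = ∫ z, ∑ a ∈ Fintype.piFinset fun i => Finset.range (k i + 1), (∏ i, sc (v i) (a i)) *
          (((ψ z : ℂ) * ((Real.sqrt (g z) ^ (∑ i, k i) : ℝ) : ℂ)) *
          ∏ i, Wg g (fun n => 1 / m n) (fun n z => (φ n z : ℂ)) (a i) (k i - a i) n z) := by
      refine (integral_complex_ofReal (f := fun z : ℂ => ψ z * ∏ i,
        (1 / m n) ^ k i * iteratedFDeriv ℝ (k i) (φ n) z (v i))).symm.trans ?_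
      refine integral_congr_ae (Filter.Eventually.of_forall fun z => ?_)
      beta_reduce
      by_cases hz : z ∈ U
      · rw [Complex.ofReal_mul, Complex.ofReal_prod,
          Finset.prod_congr rfl fun i _ => fac_eq hIter hU hg n (hφ n) hz (k i) (v i),
          Finset.prod_univ_sum, Finset.mul_sum]
        refine Finset.sum_congr rfl fun a _ => ?_
        rw [Finset.prod_mul_distrib, Finset.prod_mul_distrib, ← Complex.ofReal_prod,
          Finset.prod_pow_eq_pow_sum]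
        ring
      · have h0 : ψ z = 0 := image_eq_zero_of_notMem_tsupport fun h => hz (hψs h)
        rw [h0]
        simp
    rw [e1, integral_finsetSum]
    · exact Finset.sum_congr rfl fun a _ => integral_const_mul _ _
    · intro a _
      exact (hZ.integrable_mul hU (continuousOn_finsetProd _ fun i _ => hW n _ _)).const_mul _
  simp only [key]
  have h3 := tendsto_finsetSum (Fintype.piFinset fun i => Finset.range (k i + 1))
    (f := fun (a : Fin 3 → ℕ) (n : ℕ) => (∏ i, sc (v i) (a i)) *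
        ∫ z, ((ψ z : ℂ) * ((Real.sqrt (g z) ^ (∑ i, k i) : ℝ) : ℂ)) *
          ∏ i, Wg g (fun n => 1 / m n) (fun n z => (φ n z : ℂ)) (a i) (k i - a i) n z)
    (a := fun _ => 0) (x := atTop) (fun a _ => by
      simpa using (L3' a fun i => k i - a i).const_mul (∏ i, sc (v i) (a i)))
  simpa using h3

end LOGU

open _root_.U3.LOGU LOCG in
/-- LOGU: the local theorem for the derivatives of the local waves, and for the directional
derivatives of the eigenfunctions -/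
theorem stmtLogU (hMainU : StmtMainU) (hLwU : StmtLwU) (hPwt : QJ.StmtPwt) (hIter : QJ.StmtIter) :
    StmtLogU := by
  classical
  intro ρ φ m hρ hm hs H H3 ψ hψ hψc hψs
  have hU : IsOpen {z : ℂ | 0 < z.im} := isOpen_lt continuous_const Complex.continuous_im
  have hg1 : ContDiffOn ℝ ∞ (fun z : ℂ => Real.exp (2 * ρ (ofComplex z)) / z.im ^ 2)
      {z | 0 < z.im} := by
    apply ContDiffOn.div
    · exact Real.contDiff_exp.comp_contDiffOn (contDiffOn_const.mul hρ)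
    · exact (Complex.imCLM.contDiff.pow 2).contDiffOn
    · intro z hz
      have hz' : 0 < z.im := hz
      positivity
  have hg2 : ∀ z ∈ {z : ℂ | 0 < z.im}, 0 < Real.exp (2 * ρ (ofComplex z)) / z.im ^ 2 := by
    intro z hz
    have hz' : 0 < z.im := hz
    positivity
  have hT := test_ofReal hψ hψc hψs
  obtain ⟨L1, L2, L3⟩ := hLwU _ _ _ _ hU hg1 hg2 H _ hT
  have L3' := L3 H3
  -- the general principle
  have gen : ∀ (r : ℕ) (k : Fin r → ℕ) (v : ∀ i, Fin (k i) → ℂ) (L : (Fin r → ℕ) → ℕ → ℂ),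
      r ≤ 4 → (∀ a : Fin r → ℕ, ∑ i, ((a i : ℤ) - (k i - a i : ℕ)) = 0 →
        Tendsto (fun n => (∫ z, (ψ z : ℂ) * ∏ i,
          Wg (fun z => Real.exp (2 * ρ (ofComplex z)) / z.im ^ 2) (fun n => 1 / m n)
            (fun n z => (φ n (ofComplex z) : ℂ)) (a i) (k i - a i) n z) - L a n)
          atTop (𝓝 0)) →
      Tendsto (fun n => ((∫ z, ψ z * angJet ρ (φ n) (m n) k v (ofComplex z) : ℝ) : ℂ)
        - ∑ a ∈ Fintype.piFinset fun i => Finset.range (k i + 1),
          if ∑ i, ((a i : ℤ) - (k i - a i : ℕ)) = 0 then (∏ i, sc (v i) (a i)) * L a n else 0)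
        atTop (𝓝 0) := by
    intro r k v L hr hL
    have h1 := hMainU ρ φ m hρ hm hs H r k v hr ψ hψ hψc hψs
    have h2 : Tendsto (fun n => ∑ a ∈ Fintype.piFinset fun i => Finset.range (k i + 1),
        if ∑ i, ((a i : ℤ) - (k i - a i : ℕ)) = 0 then (∏ i, sc (v i) (a i)) *
          ((∫ z, (ψ z : ℂ) * ∏ i,
          Wg (fun z => Real.exp (2 * ρ (ofComplex z)) / z.im ^ 2) (fun n => 1 / m n)
            (fun n z => (φ n (ofComplex z) : ℂ)) (a i) (k i - a i) n z) - L a n) else 0)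
        atTop (𝓝 0) := by
      have h3 := tendsto_finsetSum (Fintype.piFinset fun i => Finset.range (k i + 1))
        (f := fun a n => if ∑ i, ((a i : ℤ) - (k i - a i : ℕ)) = 0 then (∏ i, sc (v i) (a i)) *
          ((∫ z, (ψ z : ℂ) * ∏ i,
          Wg (fun z => Real.exp (2 * ρ (ofComplex z)) / z.im ^ 2) (fun n => 1 / m n)
            (fun n z => (φ n (ofComplex z) : ℂ)) (a i) (k i - a i) n z) - L a n) else 0)
        (a := fun _ => 0) (x := atTop) (fun a _ => by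
          by_cases ha : ∑ i, ((a i : ℤ) - (k i - a i : ℕ)) = 0
          · simp only [ha, if_true]
            simpa using (hL a ha).const_mul (∏ i, sc (v i) (a i))
          · simp only [ha, if_false]
            exact tendsto_const_nhds)
      simpa using h3
    have h3 := h1.add h2
    rw [add_zero] at h3
    refine h3.congr fun n => ?_
    rw [sub_add_eq_add_sub, sub_eq_sub_iff_add_eq_add, add_assoc]
    congr 1
    rw [← Finset.sum_add_distrib]
    refine Finset.sum_congr rfl fun a _ => ?_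
    split_ifs
    · ring
    · ring
  have hint : ∀ n, ∫ z, (ψ z : ℂ) * (φ n (ofComplex z) : ℂ) ^ 2
      = ((∫ z, ψ z * φ n (ofComplex z) ^ 2 : ℝ) : ℂ) := by
    intro n
    refine (integral_congr_ae (Eventually.of_forall fun z => ?_)).trans integral_ofReal
    simp
  refine ⟨fun k v => ?_, fun k v => ?_, fun k v => ?_, fun k v => ?_⟩
  · -- order one
    apply tendsto_real
    have h1 := gen 1 k v (fun _ _ => 0) (by norm_num) (fun a ha => by
      have h3 := L1 (a 0) (k 0 - a 0)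
      simp only [Fin.prod_univ_one, sub_zero]
      exact h3)
    simpa using h1
  · -- order two
    apply tendsto_real
    have h1 := gen 2 k v (fun a n => (∏ i, cW (a i) (k i - a i))
        * QJ.P ((a 0 : ℤ) - (k 0 - a 0 : ℕ)) ((a 1 : ℤ) - (k 1 - a 1 : ℕ))
        * ∫ z, (ψ z : ℂ) * (φ n (ofComplex z) : ℂ) ^ 2)
      (by norm_num) (fun a ha => L2 a (fun i => k i - a i) ha)
    have h2 : ∀ n, ∑ a ∈ Fintype.piFinset fun i => Finset.range (k i + 1),
          (if ∑ i, ((a i : ℤ) - (k i - a i : ℕ)) = 0 then (∏ i, sc (v i) (a i)) *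
            ((∏ i, cW (a i) (k i - a i))
        * QJ.P ((a 0 : ℤ) - (k 0 - a 0 : ℕ)) ((a 1 : ℤ) - (k 1 - a 1 : ℕ))
        * ∫ z, (ψ z : ℂ) * (φ n (ofComplex z) : ℂ) ^ 2) else 0)
        = ((covar (v 0) (v 1) * ∫ z, ψ z * φ n (ofComplex z) ^ 2 : ℝ) : ℂ) := by
      intro n
      rw [Complex.ofReal_mul, hPwt, sum_two, Finset.sum_mul]
      refine Finset.sum_congr rfl fun x _ => ?_
      rw [Finset.sum_mul]
      refine Finset.sum_congr rfl fun y _ => ?_
      simp only [Fin.sum_univ_two, Fin.prod_univ_two, Matrix.cons_val_zero, Matrix.cons_val_one]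
      split_ifs with h3
      · rw [hint]
        ring
      · rw [P_zero h3]
        ring
    refine h1.congr fun n => ?_
    rw [h2 n, Complex.ofReal_sub]
  · -- order three
    apply tendsto_real
    have h1 := gen 3 k v (fun _ _ => 0) (by norm_num) (fun a ha => by
      have h3 := L3' a (fun i => k i - a i)
      simpa using h3)
    simpa using h1
  · -- directional derivatives
    exact fourth hLwU hIter hU hg1 hg2 (φ := fun n w => φ n (ofComplex w)) (m := m)
      (fun n => hs n) H H3 hψ hψc hψs k v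

end

end U3


end
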