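import Mathlib
import Pool.Agent.BWM.C21

/-! Parts: NCV.Stmts2, NCV.SumA, NCV.SumB, NCV.Kstep, NCV.Tiny, NCV.Grow, NCV.Cover, NCV.Sum -/

section

/-!
# Closed surfaces of negative curvature: the parts of `StmtDiag`
-/

open MeasureTheory Filter Topology Set
open UpperHalfPlane hiding I
open scoped ContDiff MatrixGroups ENNReal

namespace QE

namespace NC

noncomputable section

/-- pairs much closer than `δ` in the directions transversal to the flow -/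
def Ty (x y τ : SL(2, ℝ) → SL(2, ℝ) → ℝ) (r q δ : ℝ) (v w : SL(2, ℝ)) : Prop :=
  dd v w ≤ r ∧ |x v w| + |y v w| ≤ q * δ ∧ |τ v w| ≤ 2 * δ

/-- pairs at comparable distance which cross in a bounded time -/
def Cr (Φ : ℝ → SL(2, ℝ) → SL(2, ℝ)) (x y τ : SL(2, ℝ) → SL(2, ℝ) → ℝ) (r A T δ : ℝ)
    (v w : SL(2, ℝ)) : Prop :=
  dd v w ≤ r ∧ |τ v w| ≤ A * δ ∧ δ / A ≤ |x v w| + |y v w| ∧
    |x v w| + |y v w| ≤ A * δ ∧ ∃ t : ℝ, |t| ≤ T ∧ x (Φ t v) (Φ t w) = 0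

/-- pairs which are `δ`-close at time `0`, on the side `σ`, and at distance `≥ 4 δ` on the same side at
the times `j m`, `0 < |j| ≤ K` -/
def Wk (Φ : ℝ → SL(2, ℝ) → SL(2, ℝ)) (x y τ : SL(2, ℝ) → SL(2, ℝ) → ℝ) (r σ A m : ℝ) (K : ℕ)
    (δ : ℝ) (v w : SL(2, ℝ)) : Prop :=
  dd v w ≤ r ∧ 0 ≤ σ * x v w ∧ σ * x v w ≤ δ ∧ |τ v w| ≤ δ ∧ |y v w| ≤ A * δ ∧
    ∀ j : ℤ, j ≠ 0 → |j| ≤ (K : ℤ) → 4 * δ ≤ σ * x (Φ (j * m) v) (Φ (j * m) w)

/-- the mass of the pairs which are much closer than `δ` -/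
def StmtTiny : Prop :=
  ∀ [MeasurableSpace SL(2, ℝ)] [BorelSpace SL(2, ℝ)] (Γ : Subgroup SL(2, ℝ)) [Countable Γ]
    (D : Set ℍ) (Φ : ℝ → SL(2, ℝ) → SL(2, ℝ)) (x y τ : SL(2, ℝ) → SL(2, ℝ) → ℝ)
    (κ : SL(2, ℝ) → ℝ) (c r L k₀ k₁ : ℝ) (ν : Measure SL(2, ℝ)),
    PairSys Γ Φ x y τ κ c r L k₀ k₁ → MassSys Γ D Φ x τ r ν →
    ∃ C : ℝ, 0 ≤ C ∧ ∀ q : ℝ, 0 < q → q ≤ 1 → ∃ δ₀ : ℝ, 0 < δ₀ ∧ ∀ δ : ℝ, 0 < δ → δ < δ₀ →
      PM D ν (Ty x y τ r q δ) ≤ ENNReal.ofReal (C * q * δ ^ 2)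

/-- the mass of the pairs `Wk` -/
def StmtKstep : Prop :=
  ∀ [MeasurableSpace SL(2, ℝ)] [BorelSpace SL(2, ℝ)] (Γ : Subgroup SL(2, ℝ)) [Countable Γ]
    (D : Set ℍ) (Φ : ℝ → SL(2, ℝ) → SL(2, ℝ)) (x y τ : SL(2, ℝ) → SL(2, ℝ) → ℝ)
    (κ : SL(2, ℝ) → ℝ) (c r L k₀ k₁ : ℝ) (ν : Measure SL(2, ℝ)),
    PairSys Γ Φ x y τ κ c r L k₀ k₁ → MassSys Γ D Φ x τ r ν →
    ∀ σ A m η : ℝ, (σ = 1 ∨ σ = -1) → 1 ≤ A → 0 < m → 0 < η → ∃ K : ℕ, ∃ δ₀ : ℝ, 0 < δ₀ ∧
      ∀ δ : ℝ, 0 < δ → δ < δ₀ → PM D ν (Wk Φ x y τ r σ A m K δ) ≤ ENNReal.ofReal (η * δ ^ 2)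

/-- the covering -/
def StmtCover : Prop :=
  ∀ (Γ : Subgroup SL(2, ℝ)) (Φ : ℝ → SL(2, ℝ) → SL(2, ℝ))
    (x y τ : SL(2, ℝ) → SL(2, ℝ) → ℝ) (κ : SL(2, ℝ) → ℝ) (c r L k₀ k₁ : ℝ),
    PairSys Γ Φ x y τ κ c r L k₀ k₁ →
    ∀ A q : ℝ, 1 ≤ A → 0 < q → q ≤ 1 → ∃ m : ℝ, 0 < m ∧ ∀ K : ℕ, ∃ A' T δ₀ : ℝ, 1 ≤ A' ∧
      0 < T ∧ 0 < δ₀ ∧ ∀ δ : ℝ, 0 < δ → δ < δ₀ → ∀ v w : SL(2, ℝ), dd v w ≤ r →
        |x v w| ≤ δ → |τ v w| ≤ δ → |y v w| ≤ A * δ →
        Ty x y τ r q δ (Φ (m / 2) v) (Φ (m / 2) w) ∨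
        Ty x y τ r q δ (Φ (-(m / 2)) v) (Φ (-(m / 2)) w) ∨
        Cr Φ x y τ r A' T δ v w ∨
        Wk Φ x y τ r 1 A m K δ v w ∨ Wk Φ x y τ r (-1) A m K δ v w

end

end NC

end QE


end

section

/-!
# Crossing pairs: the analytic part (helper70)
-/

open MeasureTheory Filter Topology Set
open UpperHalfPlane hiding I
open scoped ContDiff MatrixGroups ENNReal

namespace QE

namespace NC

noncomputable section

/-- mean value inequality -/
theorem mvt {f : ℝ → ℝ} {a C R : ℝ}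
    (h : ∀ t, |t| ≤ R → ∃ f' : ℝ, HasDerivAt f f' t ∧ |f' - a| ≤ C) {t t' : ℝ} (ht : |t| ≤ R)
    (ht' : |t'| ≤ R) : |f t - f t' - (t - t') * a| ≤ C * |t - t'| := by
  have hcv : Convex ℝ (Icc (-R) R) := convex_Icc _ _
  have h1 := hcv.norm_image_sub_le_of_norm_hasDerivWithin_le (𝕜 := ℝ)
    (f := fun t => f t - t * a) (f' := fun t => deriv f t - a) (C := C) (x := t') (y := t)
    (fun s hs => by
      obtain ⟨f', hf, _⟩ := h s (abs_le.2 hs)
      rw [hf.deriv]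
      have h2 : HasDerivAt (fun t => f t - t * a) (f' - 1 * a) s :=
        hf.sub ((hasDerivAt_id s).mul_const a)
      rw [one_mul] at h2
      exact h2.hasDerivWithinAt)
    (fun s hs => by
      obtain ⟨f', hf, hb⟩ := h s (abs_le.2 hs)
      rw [hf.deriv]
      exact hb) (abs_le.1 ht') (abs_le.1 ht)
  simp only [Real.norm_eq_abs] at h1
  have e : f t - t * a - (f t' - t' * a) = f t - f t' - (t - t') * a := by ring
  rwa [e] at h1

/-- continuity from a Lipschitz estimate -/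
theorem cont_of_lip {f : ℝ → ℝ} {C R : ℝ}
    (h : ∀ t t', |t| ≤ R → |t'| ≤ R → |f t - f t'| ≤ C * |t - t'|) :
    ContinuousOn f (Icc (-R) R) := by
  have h1 : LipschitzOnWith (Real.toNNReal C) f (Icc (-R) R) := by
    refine LipschitzOnWith.of_dist_le_mul fun t ht t' ht' => ?_
    rw [Real.dist_eq, Real.dist_eq]
    refine (h t t' (abs_le.2 ht) (abs_le.2 ht')).trans ?_
    gcongr
    exact Real.le_coe_toNNReal C
  exact h1.continuousOn

/-- a common zero of the two coordinates -/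
theorem zero_core {X T : ℝ → ℝ → ℝ} {y₀ Y δ : ℝ} (hY : 0 < Y) (hδ : 0 < δ) (hy1 : Y ≤ |y₀|)
    (h1 : ∀ s t t', |s| ≤ 4 * δ → |t| ≤ 4 * δ / Y → |t'| ≤ 4 * δ / Y →
      |X t s - X t' s - (t - t') * y₀| ≤ Y / 4 * |t - t'|)
    (h2 : ∀ t s s', |t| ≤ 4 * δ / Y → |s| ≤ 4 * δ → |s'| ≤ 4 * δ →
      |X t s - X t s'| ≤ 1 / 8 * |s - s'|)
    (h3 : ∀ s t t', |s| ≤ 4 * δ → |t| ≤ 4 * δ / Y → |t'| ≤ 4 * δ / Y →
      |T t s - T t' s| ≤ Y / 8 * |t - t'|)
    (h4 : ∀ t s s', |t| ≤ 4 * δ / Y → |s| ≤ 4 * δ → |s'| ≤ 4 * δ →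
      |T t s - T t s' - (s - s')| ≤ 1 / 8 * |s - s'|)
    (hX : |X 0 0| ≤ δ) (hT : |T 0 0| ≤ δ) :
    ∃ t₀ s₀ : ℝ, |t₀| ≤ 4 * δ / Y ∧ |s₀| ≤ 4 * δ ∧ X t₀ s₀ = 0 ∧ T t₀ s₀ = 0 := by
  set t₁ := 4 * δ / Y with ht₁
  set s₁ := 4 * δ with hs₁
  have ht₁0 : 0 < t₁ := by positivity
  have hs₁0 : 0 < s₁ := by positivity
  have hYt : Y * t₁ = 4 * δ := mul_div_cancel₀ _ hY.ne'
  have z0 : |(0 : ℝ)| ≤ t₁ := by rw [abs_zero]; exact ht₁0.le
  have z1 : |(0 : ℝ)| ≤ s₁ := by rw [abs_zero]; exact hs₁0.le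
  have e1 : |s₁| ≤ s₁ := by rw [abs_of_pos hs₁0]
  have e2 : |-s₁| ≤ s₁ := by rw [abs_neg, abs_of_pos hs₁0]
  -- the zero of `T t`
  have hex : ∀ t, |t| ≤ t₁ → ∃ s, |s| ≤ s₁ ∧ T t s = 0 := by
    intro t ht
    have hT0 : |T t 0| ≤ 3 / 2 * δ := by
      have h5 := h3 0 t 0 z1 ht z0
      rw [sub_zero] at h5
      have h6 : Y / 8 * |t| ≤ δ / 2 := by
        calc Y / 8 * |t| ≤ Y / 8 * t₁ := by (clear * - ht hY; gcongr)
          _ = δ / 2 := by linarith only [hYt]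
      have h7 : |T t 0| ≤ |T t 0 - T 0 0| + |T 0 0| := by
        have := abs_add_le (T t 0 - T 0 0) (T 0 0)
        simpa using this
      linarith
    have hc : ContinuousOn (T t) (Icc (-s₁) s₁) := cont_of_lip (C := 9 / 8) fun s s' hs hs' => by
      have h5 := h4 t s s' ht hs hs'
      have h6 := abs_add_le (T t s - T t s' - (s - s')) (s - s')
      rw [sub_add_cancel] at h6
      linarith only [h5, h6]
    have hp : 0 ≤ T t s₁ := by
      have h5 := h4 t s₁ 0 ht e1 z1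
      rw [sub_zero, abs_of_pos hs₁0] at h5
      have h6 := (abs_le.1 h5).1
      have h7 := (abs_le.1 hT0).1
      linarith only [hδ, h6, h7]
    have hn : T t (-s₁) ≤ 0 := by
      have h5 := h4 t (-s₁) 0 ht e2 z1
      rw [sub_zero, abs_neg, abs_of_pos hs₁0] at h5
      have h6 := (abs_le.1 h5).2
      have h7 := (abs_le.1 hT0).2
      linarith
    obtain ⟨s, hs, h5⟩ := intermediate_value_Icc (by linarith : -s₁ ≤ s₁) hc ⟨hn, hp⟩
    exact ⟨s, abs_le.2 hs, h5⟩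
  choose! σ hσ using hex
  -- the curve is Lipschitz
  have hlip : ∀ t t', |t| ≤ t₁ → |t'| ≤ t₁ → |σ t - σ t'| ≤ Y / 7 * |t - t'| := by
    intro t t' ht ht'
    have h5 := h4 t (σ t) (σ t') ht (hσ t ht).1 (hσ t' ht').1
    have h6 := h3 (σ t') t t' (hσ t' ht').1 ht ht'
    rw [(hσ t ht).2] at h5
    rw [(hσ t' ht').2, sub_zero] at h6
    have h7 : |σ t - σ t'| ≤ |0 - T t (σ t') - (σ t - σ t')| + |T t (σ t')| := by
      have := abs_add_le (0 - T t (σ t') - (σ t - σ t')) (T t (σ t'))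
      have e : 0 - T t (σ t') - (σ t - σ t') + T t (σ t') = -(σ t - σ t') := by ring
      rw [e, abs_neg] at this
      exact this
    linarith
  have hc : ContinuousOn (fun t => X t (σ t)) (Icc (-t₁) t₁) := by
    refine cont_of_lip (C := |y₀| + Y / 4 + Y) fun t t' ht ht' => ?_
    have h5 := h1 (σ t) t t' (hσ t ht).1 ht ht'
    have h6 := h2 t' (σ t) (σ t') ht' (hσ t ht).1 (hσ t' ht').1
    have h7 := hlip t t' ht ht'
    have h8 : |X t (σ t) - X t' (σ t')| ≤ |X t (σ t) - X t' (σ t) - (t - t') * y₀| +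
        |t - t'| * |y₀| + |X t' (σ t) - X t' (σ t')| := by
      have a1 := abs_add_le (X t (σ t) - X t' (σ t) - (t - t') * y₀) ((t - t') * y₀)
      have a2 := abs_add_le (X t (σ t) - X t' (σ t)) (X t' (σ t) - X t' (σ t'))
      rw [sub_add_cancel] at a1
      rw [abs_mul] at a1
      have e : X t (σ t) - X t' (σ t) + (X t' (σ t) - X t' (σ t')) = X t (σ t) - X t' (σ t') := by
        ring
      rw [e] at a2
      linarith
    have h9 : (|y₀| + Y / 4 + Y) * |t - t'| = Y / 4 * |t - t'| + |t - t'| * |y₀| +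
        Y * |t - t'| := by ring
    have h10 : 0 ≤ Y * |t - t'| := by positivity
    rw [h9]
    linarith
  -- the values at the end points
  have hend : ∀ t, |t| = t₁ → |X t (σ t) - t * y₀| ≤ 5 / 2 * δ := by
    intro t ht
    have ht' : |t| ≤ t₁ := ht.le
    have h5 := h1 (σ t) t 0 (hσ t ht').1 ht' z0
    have h6 := h2 0 (σ t) 0 z0 (hσ t ht').1 z1
    rw [sub_zero, ht] at h5
    rw [sub_zero] at h6
    have h7 := (hσ t ht').1
    have a1 : |X t (σ t) - t * y₀| ≤ |X t (σ t) - X 0 (σ t) - t * y₀| + |X 0 (σ t) - X 0 0|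
        + |X 0 0| := by
      have a2 := abs_add_le (X t (σ t) - X 0 (σ t) - t * y₀) (X 0 (σ t) - X 0 0 + X 0 0)
      have a3 := abs_add_le (X 0 (σ t) - X 0 0) (X 0 0)
      have e : X t (σ t) - X 0 (σ t) - t * y₀ + (X 0 (σ t) - X 0 0 + X 0 0)
          = X t (σ t) - t * y₀ := by ring
      rw [e] at a2
      linarith
    have h8 : Y / 4 * t₁ = δ := by linarith
    linarith
  have hbig : 4 * δ ≤ t₁ * |y₀| := by
    calc 4 * δ = t₁ * Y := by rw [← hYt]; ring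
      _ ≤ t₁ * |y₀| := by gcongr
  have hy0 : 0 < |y₀| := hY.trans_le hy1
  have hyy : y₀ * y₀ = |y₀| * |y₀| := (abs_mul_abs_self y₀).symm
  have hpos : 0 ≤ y₀ * X t₁ (σ t₁) := by
    have h5 := hend t₁ (abs_of_pos ht₁0)
    have h6 : |y₀ * (X t₁ (σ t₁) - t₁ * y₀)| ≤ |y₀| * (5 / 2 * δ) := by
      rw [abs_mul]; gcongr
    have h7 := (abs_le.1 h6).1
    have h8 : |y₀| * (4 * δ) ≤ |y₀| * (t₁ * |y₀|) := by gcongr
    have h9 : y₀ * (X t₁ (σ t₁) - t₁ * y₀) = y₀ * X t₁ (σ t₁) - t₁ * (|y₀| * |y₀|) := by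
      rw [← hyy]; ring
    rw [h9] at h7
    have h10 : 0 < |y₀| * δ := by positivity
    nlinarith
  have hneg : y₀ * X (-t₁) (σ (-t₁)) ≤ 0 := by
    have h5 := hend (-t₁) (by rw [abs_neg]; exact abs_of_pos ht₁0)
    have h6 : |y₀ * (X (-t₁) (σ (-t₁)) - -t₁ * y₀)| ≤ |y₀| * (5 / 2 * δ) := by
      rw [abs_mul]; (clear * - h5 hy0; gcongr)
    have h7 := (abs_le.1 h6).2
    have h8 : |y₀| * (4 * δ) ≤ |y₀| * (t₁ * |y₀|) := by (clear * - hbig hy0; gcongr)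
    have h9 : y₀ * (X (-t₁) (σ (-t₁)) - -t₁ * y₀)
        = y₀ * X (-t₁) (σ (-t₁)) + t₁ * (|y₀| * |y₀|) := by
      rw [← hyy]; ring
    rw [h9] at h7
    have h10 : 0 < |y₀| * δ := by positivity
    linarith only [h7, h8, h10]
  obtain ⟨t₀, ht₀, h5⟩ := intermediate_value_Icc (by linarith : -t₁ ≤ t₁)
    (continuousOn_const.mul hc : ContinuousOn (fun t => y₀ * X t (σ t)) (Icc (-t₁) t₁))
    ⟨hneg, hpos⟩
  have ht₀' : |t₀| ≤ t₁ := abs_le.2 ht₀
  refine ⟨t₀, σ t₀, ht₀', (hσ t₀ ht₀').1, ?_, (hσ t₀ ht₀').2⟩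
  have h5' : y₀ * X t₀ (σ t₀) = 0 := h5
  rcases mul_eq_zero.1 h5' with h6 | h6
  · rw [h6, abs_zero] at hy0
    exact absurd hy0 (lt_irrefl _)
  · exact h6

/-- near the common zero the two coordinates are small -/
theorem area_core {X T : ℝ → ℝ → ℝ} {y₀ Y δ η : ℝ} (hY : 0 < Y) (hδ : 0 < δ) (hη : 0 < η)
    (hηδ : η ≤ δ) (hy1 : Y ≤ |y₀|) (hy2 : |y₀| ≤ 2 * Y)
    (h1 : ∀ s t t', |s| ≤ 8 * δ → |t| ≤ 8 * δ / Y → |t'| ≤ 8 * δ / Y →
      |X t s - X t' s - (t - t') * y₀| ≤ Y / 4 * |t - t'|)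
    (h2 : ∀ t s s', |t| ≤ 8 * δ / Y → |s| ≤ 8 * δ → |s'| ≤ 8 * δ →
      |X t s - X t s'| ≤ 1 / 8 * |s - s'|)
    (h3 : ∀ s t t', |s| ≤ 8 * δ → |t| ≤ 8 * δ / Y → |t'| ≤ 8 * δ / Y →
      |T t s - T t' s| ≤ Y / 8 * |t - t'|)
    (h4 : ∀ t s s', |t| ≤ 8 * δ / Y → |s| ≤ 8 * δ → |s'| ≤ 8 * δ →
      |T t s - T t s' - (s - s')| ≤ 1 / 8 * |s - s'|)
    (hX : |X 0 0| ≤ δ) (hT : |T 0 0| ≤ δ) :
    ∃ t₀ s₀ : ℝ, |t₀| ≤ 4 * δ / Y ∧ |s₀| ≤ 4 * δ ∧ ∀ t s, |t - t₀| ≤ η / (4 * Y) →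
      |s - s₀| ≤ η / 4 → |t| ≤ 8 * δ / Y ∧ |s| ≤ 8 * δ ∧ |X t s| ≤ η ∧ |T t s| ≤ η := by
  have i1 : 4 * δ / Y ≤ 8 * δ / Y := by gcongr; norm_num
  have i2 : 4 * δ ≤ 8 * δ := by linarith
  obtain ⟨t₀, s₀, ht₀, hs₀, hX₀, hT₀⟩ := zero_core (X := X) (T := T) hY hδ hy1
    (fun s t t' a b c => h1 s t t' (a.trans i2) (b.trans i1) (c.trans i1))
    (fun t s s' a b c => h2 t s s' (a.trans i1) (b.trans i2) (c.trans i2))
    (fun s t t' a b c => h3 s t t' (a.trans i2) (b.trans i1) (c.trans i1))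
    (fun t s s' a b c => h4 t s s' (a.trans i1) (b.trans i2) (c.trans i2)) hX hT
  refine ⟨t₀, s₀, ht₀, hs₀, fun t s ht hs => ?_⟩
  have j1 : |t| ≤ 8 * δ / Y := by
    have a1 := abs_add_le (t - t₀) t₀
    rw [sub_add_cancel] at a1
    have a2 : η / (4 * Y) ≤ 4 * δ / Y := by
      rw [div_le_div_iff₀ (by positivity) hY]
      nlinarith only [hY, hδ, hηδ]
    have a3 : 4 * δ / Y + 4 * δ / Y = 8 * δ / Y := by ring
    linarith only [ht₀, ht, a1, a2, a3]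
  have j2 : |s| ≤ 8 * δ := by
    have a1 := abs_add_le (s - s₀) s₀
    rw [sub_add_cancel] at a1
    linarith
  have k1 : |t₀| ≤ 8 * δ / Y := ht₀.trans i1
  have k2 : |s₀| ≤ 8 * δ := hs₀.trans i2
  have hYη : Y * (η / (4 * Y)) = η / 4 := by field_simp
  refine ⟨j1, j2, ?_, ?_⟩
  · have a1 := h1 s t t₀ j2 j1 k1
    have a2 := h2 t₀ s s₀ k1 j2 k2
    rw [hX₀, sub_zero] at a2
    have a3 : |X t s| ≤ |X t s - X t₀ s - (t - t₀) * y₀| + |t - t₀| * |y₀| + |X t₀ s| := by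
      have b1 := abs_add_le (X t s - X t₀ s - (t - t₀) * y₀) ((t - t₀) * y₀ + X t₀ s)
      have b2 := abs_add_le ((t - t₀) * y₀) (X t₀ s)
      rw [abs_mul] at b2
      have e : X t s - X t₀ s - (t - t₀) * y₀ + ((t - t₀) * y₀ + X t₀ s) = X t s := by ring
      rw [e] at b1
      linarith
    have a4 : Y / 4 * |t - t₀| ≤ η / 16 := by
      calc Y / 4 * |t - t₀| ≤ Y / 4 * (η / (4 * Y)) := by gcongr
        _ = η / 16 := by linarith
    have a5 : |t - t₀| * |y₀| ≤ η / 2 := by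
      calc |t - t₀| * |y₀| ≤ η / (4 * Y) * (2 * Y) := by gcongr
        _ = η / 2 := by linarith only [hYη]
    linarith
  · have a1 := h3 s t t₀ j2 j1 k1
    have a2 := h4 t₀ s s₀ k1 j2 k2
    rw [hT₀, sub_zero] at a2
    have a3 : |T t s| ≤ |T t s - T t₀ s| + |T t₀ s - (s - s₀)| + |s - s₀| := by
      have b1 := abs_add_le (T t s - T t₀ s) (T t₀ s - (s - s₀) + (s - s₀))
      have b2 := abs_add_le (T t₀ s - (s - s₀)) (s - s₀)
      have e : T t s - T t₀ s + (T t₀ s - (s - s₀) + (s - s₀)) = T t s := by ring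
      rw [e] at b1
      linarith only [b1, b2]
    have a4 : Y / 8 * |t - t₀| ≤ η / 32 := by
      calc Y / 8 * |t - t₀| ≤ Y / 8 * (η / (4 * Y)) := by gcongr
        _ = η / 32 := by linarith only [hYη]
    linarith only [hη, hs, a1, a2, a3, a4]

end

end NC

end QE


end

section

/-!
# Crossing pairs: the dynamical part (helper70)
-/

open MeasureTheory Filter Topology Set
open UpperHalfPlane hiding I
open scoped ContDiff MatrixGroups ENNReal

namespace QE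

namespace NC

noncomputable section

variable {Γ : Subgroup SL(2, ℝ)} {Φ : ℝ → SL(2, ℝ) → SL(2, ℝ)}
  {x y τ : SL(2, ℝ) → SL(2, ℝ) → ℝ} {κ : SL(2, ℝ) → ℝ} {c r L k₀ k₁ : ℝ}

namespace PairSys

variable (S : PairSys Γ Φ x y τ κ c r L k₀ k₁)

include S

theorem comm (s t : ℝ) (g : SL(2, ℝ)) : Φ s (Φ t g) = Φ t (Φ s g) := by
  rw [← S.add, ← S.add, add_comm]

/-- a derivative at `0` along the flow gives one at `t` -/
theorem shift_d {f : SL(2, ℝ) → SL(2, ℝ) → ℝ} {v w : SL(2, ℝ)} {t f' : ℝ}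
    (h : HasDerivAt (fun s => f (Φ s (Φ t v)) (Φ s (Φ t w))) f' 0) :
    HasDerivAt (fun s => f (Φ s v) (Φ s w)) f' t := by
  have h1 : HasDerivAt (fun s => f (Φ s (Φ t v)) (Φ s (Φ t w))) f' (t - t) := by
    rwa [sub_self]
  have h2 := HasDerivAt.comp_sub_const t t h1
  refine h2.congr_of_eventuallyEq (Eventually.of_forall fun s => ?_)
  beta_reduce
  rw [← S.add, ← S.add, sub_add_cancel]

theorem shift_m {f : SL(2, ℝ) → SL(2, ℝ) → ℝ} {v w : SL(2, ℝ)} {t f' : ℝ}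
    (h : HasDerivAt (fun s => f v (Φ s (Φ t w))) f' 0) :
    HasDerivAt (fun s => f v (Φ s w)) f' t := by
  have h1 : HasDerivAt (fun s => f v (Φ s (Φ t w))) f' (t - t) := by
    rwa [sub_self]
  have h2 := HasDerivAt.comp_sub_const t t h1
  refine h2.congr_of_eventuallyEq (Eventually.of_forall fun s => ?_)
  beta_reduce
  rw [← S.add, sub_add_cancel]

theorem c0 : 0 < c := by linarith [S.one_le]

omit S in
theorem dd_nonneg' (v w : SL(2, ℝ)) : 0 ≤ dd v w := by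
  unfold dd nn
  positivity

/-- the distance on the rectangle -/
theorem dd_rect {v w : SL(2, ℝ)} {d t s : ℝ} (hd : dd v w ≤ d) (hdr : d ≤ r)
    (ht : |t| ≤ 1) (hs : |s| ≤ 1) (hsr : c * |s| ≤ r) :
    dd (Φ t v) (Φ s (Φ t w)) ≤ c ^ 3 * Real.exp L * (d + |s|) := by
  have hc := S.c0
  have h1 := S.dmove w s hs
  have h2 := S.dtri v w (Φ s w) (hd.trans hdr) (h1.trans hsr)
  have h3 := S.dflow v (Φ s w) t
  rw [S.comm s t]
  have h4 : Real.exp (L * |t|) ≤ Real.exp L := by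
    apply Real.exp_le_exp.2
    have := S.Lnn
    nlinarith only [ht, this]
  have hd0 : 0 ≤ d := (PairSys.dd_nonneg' v w).trans hd
  have h5 : dd v (Φ s w) ≤ c ^ 2 * (d + |s|) := by
    calc dd v (Φ s w) ≤ c * (dd v w + dd w (Φ s w)) := h2
      _ ≤ c * (d + c * |s|) := by (clear * - hd h1 hc; gcongr)
      _ ≤ c * (c * d + c * |s|) := by
          gcongr
          have := S.one_le
          nlinarith
      _ = c ^ 2 * (d + |s|) := by ring
  calc dd (Φ t v) (Φ t (Φ s w)) ≤ c * Real.exp (L * |t|) * dd v (Φ s w) := h3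
    _ ≤ c * Real.exp L * (c ^ 2 * (d + |s|)) := by
        have := dd_nonneg' v (Φ s w)
        (clear * - h4 hc h5 this; gcongr)
    _ = c ^ 3 * Real.exp L * (d + |s|) := by ring

/-- **the area lemma** for pairs -/
theorem area {Y δ η : ℝ} (hY : 0 < Y) (hδ : 0 < δ) (hη : 0 < η) (hηδ : η ≤ δ)
    (hδY : δ ≤ Y / (128 * (k₁ + 1) * c * (5 * c ^ 4 * Real.exp L)))
    (hYr : Y ≤ r / (8 * c * (5 * c ^ 4 * Real.exp L) ^ 2))
    {v w : SL(2, ℝ)} (hd : dd v w ≤ r) (hx : |x v w| ≤ δ) (hτ : |τ v w| ≤ δ)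
    (hy1 : Y ≤ |y v w|) (hy2 : |y v w| ≤ 2 * Y) :
    ∃ t₀ s₀ : ℝ, |t₀| ≤ 4 * δ / Y ∧ |s₀| ≤ 4 * δ ∧ ∀ t s, |t - t₀| ≤ η / (4 * Y) →
      |s - s₀| ≤ η / 4 → |t| ≤ 8 * δ / Y ∧ |s| ≤ 8 * δ ∧ dd (Φ t v) (Φ s (Φ t w)) ≤ r ∧
        |x (Φ t v) (Φ s (Φ t w))| ≤ η ∧ |τ (Φ t v) (Φ s (Φ t w))| ≤ η ∧
        Y / 2 ≤ |y (Φ t v) (Φ s (Φ t w))| ∧ |y (Φ t v) (Φ s (Φ t w))| ≤ 4 * Y := by
  have hc := S.c0
  have hc1 := S.one_le
  have hk₁ : 0 < k₁ := S.kpos.trans_le ((S.klo v).trans (S.khi v))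
  have hE : 1 ≤ Real.exp L := Real.one_le_exp S.Lnn
  set K := 5 * c ^ 4 * Real.exp L with hK
  have hK5 : 5 ≤ K := by
    have h1 : 1 ≤ c ^ 4 := one_le_pow₀ hc1
    rw [hK]
    nlinarith only [hE, h1]
  have hK0 : 0 < K := by linarith
  have hcK : K ≤ c * K := by nlinarith only [hc1, hK5]
  have hkK : 1 ≤ (k₁ + 1) * c * K := by
    have : 1 ≤ (k₁ + 1) * c := by nlinarith only [hc1, hk₁]
    nlinarith only [hk₁, hK5, hcK]
  -- `Y ≤ 1/8`, `K Y ≤ r`
  have hYr' : 8 * c * K ^ 2 * Y ≤ r := by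
    rw [le_div_iff₀ (by positivity)] at hYr
    linarith
  have hr1 := S.rle
  have q1 : K * Y ≤ r := by
    have : K * Y ≤ 8 * c * K ^ 2 * Y := by
      have h1 : K ≤ 8 * c * K ^ 2 := by nlinarith only [hK5, hc1]
      gcongr
    linarith
  have q2 : c * (K * Y) ^ 2 ≤ Y / 8 := by
    have h1 : c * (K * Y) ^ 2 = (8 * c * K ^ 2 * Y) * (Y / 8) := by ring
    rw [h1]
    have h2 : (8 * c * K ^ 2 * Y) * (Y / 8) ≤ 1 * (Y / 8) := by
      gcongr
      linarith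
    linarith
  have q3 : c * (K * Y) ≤ 1 / 8 := by
    have h1 : 8 * (c * (K * Y)) ≤ 8 * c * K ^ 2 * Y := by
      have : 0 ≤ c * (K * Y) := by positivity
      nlinarith only [hK5, this]
    linarith
  have hδY' : 128 * ((k₁ + 1) * c * K) * δ ≤ Y := by
    rw [le_div_iff₀ (by positivity)] at hδY
    linarith
  have q4 : 128 * δ ≤ Y := by
    have : 128 * δ ≤ 128 * ((k₁ + 1) * c * K) * δ := by nlinarith only [hδ, hkK]
    linarith
  have hY1 : Y ≤ 1 := by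
    have : 5 * Y ≤ K * Y := by gcongr
    linarith
  have hδ1 : 128 * δ ≤ 1 := by linarith
  -- the distance on the rectangle
  have hdv : dd v w ≤ 4 * c * Y := by
    have h1 := S.dle v w hd
    have h2 : |x v w| + |y v w| + |τ v w| ≤ 4 * Y := by linarith
    calc dd v w ≤ c * (|x v w| + |y v w| + |τ v w|) := h1
      _ ≤ c * (4 * Y) := by gcongr
      _ = 4 * c * Y := by ring
  have hcr : 4 * c * Y ≤ r := by
    have h1 : 4 * c ≤ K := by
      have h2 : c ≤ c ^ 4 := by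
        calc c = c ^ 1 := (pow_one c).symm
          _ ≤ c ^ 4 := pow_le_pow_right₀ hc1 (by norm_num)
      rw [hK]
      nlinarith only [h2, hc, hE]
    calc 4 * c * Y ≤ K * Y := by gcongr
      _ ≤ r := q1
  have hrect : ∀ t s, |t| ≤ 8 * δ / Y → |s| ≤ 8 * δ → dd (Φ t v) (Φ s (Φ t w)) ≤ K * Y := by
    intro t s ht hs
    have ht1 : |t| ≤ 1 := by
      refine ht.trans ?_
      rw [div_le_one hY]
      linarith
    have hs1 : |s| ≤ 1 := by linarith
    have hsr : c * |s| ≤ r := by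
      calc c * |s| ≤ c * (8 * δ) := by gcongr
        _ ≤ c * (4 * Y) := mul_le_mul_of_nonneg_left (by linarith) hc.le
        _ = 4 * c * Y := by ring
        _ ≤ r := hcr
    refine (S.dd_rect hdv hcr ht1 hs1 hsr).trans ?_
    calc c ^ 3 * Real.exp L * (4 * c * Y + |s|) ≤ c ^ 3 * Real.exp L * (4 * c * Y + c * Y) := by
          gcongr
          calc |s| ≤ 8 * δ := hs
            _ ≤ 1 * Y := by linarith
            _ ≤ c * Y := by gcongr
      _ = K * Y := by rw [hK]; ring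
  have hrr : ∀ t s, |t| ≤ 8 * δ / Y → |s| ≤ 8 * δ → dd (Φ t v) (Φ s (Φ t w)) ≤ r :=
    fun t s ht hs => (hrect t s ht hs).trans q1
  have z0 : |(0 : ℝ)| ≤ 8 * δ / Y := by rw [abs_zero]; positivity
  have z1 : |(0 : ℝ)| ≤ 8 * δ := by rw [abs_zero]; positivity
  have hsq : ∀ t s, |t| ≤ 8 * δ / Y → |s| ≤ 8 * δ →
      c * dd (Φ t v) (Φ s (Φ t w)) ^ 2 ≤ Y / 8 := by
    intro t s ht hs
    have h1 := hrect t s ht hs
    have h2 := PairSys.dd_nonneg' (Φ t v) (Φ s (Φ t w))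
    calc c * dd (Φ t v) (Φ s (Φ t w)) ^ 2 ≤ c * (K * Y) ^ 2 := by (clear * - h2 h1 hc; gcongr)
      _ ≤ Y / 8 := q2
  have hli : ∀ t s, |t| ≤ 8 * δ / Y → |s| ≤ 8 * δ →
      c * dd (Φ t v) (Φ s (Φ t w)) ≤ 1 / 8 := by
    intro t s ht hs
    have h1 := hrect t s ht hs
    calc c * dd (Φ t v) (Φ s (Φ t w)) ≤ c * (K * Y) := by (clear * - h1 hc; gcongr)
      _ ≤ 1 / 8 := q3
  -- `y` does not change much
  have hyt : ∀ s t t', |s| ≤ 8 * δ → |t| ≤ 8 * δ / Y → |t'| ≤ 8 * δ / Y →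
      |y (Φ t v) (Φ s (Φ t w)) - y (Φ t' v) (Φ s (Φ t' w))|
        ≤ (k₁ + 1) * c * (K * Y) * |t - t'| := by
    intro s t t' hs ht ht'
    have h1 := mvt (f := fun t => y (Φ t v) (Φ t (Φ s w))) (a := 0)
      (C := (k₁ + 1) * c * (K * Y)) (R := 8 * δ / Y) (fun u hu => ?_) ht ht'
    · simp only [mul_zero, sub_zero] at h1
      simpa only [S.comm s] using h1
    · have e := S.comm s u w
      have h2 := hrect u s hu hs
      rw [e] at h2
      have h3 := h2.trans q1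
      obtain ⟨y', hy', hb⟩ := S.yd _ _ h3
      refine ⟨y', S.shift_d (f := y) hy', ?_⟩
      rw [sub_zero]
      have h4 := S.xle _ _ h3
      have h5 := abs_add_le (y' - κ (Φ u v) * x (Φ u v) (Φ u (Φ s w)))
        (κ (Φ u v) * x (Φ u v) (Φ u (Φ s w)))
      rw [sub_add_cancel, abs_mul] at h5
      have h6 : |κ (Φ u v)| ≤ k₁ := by
        rw [abs_of_pos (S.kpos.trans_le (S.klo _))]
        exact S.khi _
      have h7 := PairSys.dd_nonneg' (Φ u v) (Φ u (Φ s w))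
      have h8 : |κ (Φ u v)| * |x (Φ u v) (Φ u (Φ s w))| ≤ k₁ * (c * (K * Y)) := by
        refine mul_le_mul h6 (h4.trans ?_) (abs_nonneg _) hk₁.le
        gcongr
      have h9 : c * dd (Φ u v) (Φ u (Φ s w)) ^ 2 ≤ c * (K * Y) := by
        have h10 : dd (Φ u v) (Φ u (Φ s w)) ^ 2 ≤ dd (Φ u v) (Φ u (Φ s w)) := by
          have h11 := mul_le_mul_of_nonneg_left (h3.trans hr1) h7
          rwa [mul_one, ← sq] at h11
        gcongr
        exact h10.trans h2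
      calc |y'| ≤ |y' - κ (Φ u v) * x (Φ u v) (Φ u (Φ s w))| +
            |κ (Φ u v)| * |x (Φ u v) (Φ u (Φ s w))| := h5
        _ ≤ c * (K * Y) + k₁ * (c * (K * Y)) := add_le_add (hb.trans h9) h8
        _ = (k₁ + 1) * c * (K * Y) := by ring
  have hys : ∀ t s s', |t| ≤ 8 * δ / Y → |s| ≤ 8 * δ → |s'| ≤ 8 * δ →
      |y (Φ t v) (Φ s (Φ t w)) - y (Φ t v) (Φ s' (Φ t w))| ≤ c * (K * Y) * |s - s'| := by
    intro t s s' ht hs hs'
    have h1 := mvt (f := fun s => y (Φ t v) (Φ s (Φ t w))) (a := 0)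
      (C := c * (K * Y)) (R := 8 * δ) (fun u hu => ?_) hs hs'
    · simpa only [mul_zero, sub_zero] using h1
    · obtain ⟨y', hy', hb⟩ := S.ym _ _ (hrr t u ht hu)
      refine ⟨y', S.shift_m (f := y) hy', ?_⟩
      rw [sub_zero]
      refine hb.trans ?_
      have := hrect t u ht hu
      gcongr
  have hy0 : ∀ t s, |t| ≤ 8 * δ / Y → |s| ≤ 8 * δ →
      |y (Φ t v) (Φ s (Φ t w)) - y v w| ≤ Y / 8 := by
    intro t s ht hs
    have h1 := hyt s t 0 hs ht z0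
    have h2 := hys 0 s 0 z0 hs z1
    simp only [S.zero] at h1 h2
    rw [sub_zero] at h1 h2
    have h3 := abs_add_le (y (Φ t v) (Φ s (Φ t w)) - y v (Φ s w)) (y v (Φ s w) - y v w)
    rw [sub_add_sub_cancel] at h3
    have h4 : (k₁ + 1) * c * (K * Y) * |t| ≤ Y / 16 := by
      calc (k₁ + 1) * c * (K * Y) * |t| ≤ (k₁ + 1) * c * (K * Y) * (8 * δ / Y) := by gcongr
        _ = (128 * ((k₁ + 1) * c * K) * δ) / 16 := by field_simp; ring
        _ ≤ Y / 16 := by gcongr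
    have h5 : c * (K * Y) * |s| ≤ Y / 16 := by
      calc c * (K * Y) * |s| ≤ 1 / 8 * (8 * δ) := by gcongr
        _ ≤ Y / 16 := by linarith
    linarith only [h1, h2, h3, h4, h5]
  -- the four estimates
  have H1 : ∀ s t t', |s| ≤ 8 * δ → |t| ≤ 8 * δ / Y → |t'| ≤ 8 * δ / Y →
      |x (Φ t v) (Φ s (Φ t w)) - x (Φ t' v) (Φ s (Φ t' w)) - (t - t') * y v w|
        ≤ Y / 4 * |t - t'| := by
    intro s t t' hs ht ht'
    have h1 := mvt (f := fun t => x (Φ t v) (Φ t (Φ s w))) (a := y v w)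
      (C := Y / 4) (R := 8 * δ / Y) (fun u hu => ?_) ht ht'
    · simpa only [S.comm s] using h1
    · have e := S.comm s u w
      have h2 := hrr u s hu hs
      have h3 := hsq u s hu hs
      have h4 := hy0 u s hu hs
      rw [e] at h2 h3 h4
      obtain ⟨x', hx', hb⟩ := S.xd _ _ h2
      refine ⟨x', S.shift_d (f := x) hx', ?_⟩
      have h5 := abs_add_le (x' - y (Φ u v) (Φ u (Φ s w))) (y (Φ u v) (Φ u (Φ s w)) - y v w)
      rw [sub_add_sub_cancel] at h5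
      linarith only [h3, h4, hb, h5]
  have H2 : ∀ t s s', |t| ≤ 8 * δ / Y → |s| ≤ 8 * δ → |s'| ≤ 8 * δ →
      |x (Φ t v) (Φ s (Φ t w)) - x (Φ t v) (Φ s' (Φ t w))| ≤ 1 / 8 * |s - s'| := by
    intro t s s' ht hs hs'
    have h1 := mvt (f := fun s => x (Φ t v) (Φ s (Φ t w))) (a := 0)
      (C := 1 / 8) (R := 8 * δ) (fun u hu => ?_) hs hs'
    · simpa only [mul_zero, sub_zero] using h1
    · obtain ⟨y', hy', hb⟩ := S.xm _ _ (hrr t u ht hu)
      refine ⟨y', S.shift_m (f := x) hy', ?_⟩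
      rw [sub_zero]
      exact hb.trans (hli t u ht hu)
  have H3 : ∀ s t t', |s| ≤ 8 * δ → |t| ≤ 8 * δ / Y → |t'| ≤ 8 * δ / Y →
      |τ (Φ t v) (Φ s (Φ t w)) - τ (Φ t' v) (Φ s (Φ t' w))| ≤ Y / 8 * |t - t'| := by
    intro s t t' hs ht ht'
    have h1 := mvt (f := fun t => τ (Φ t v) (Φ t (Φ s w))) (a := 0)
      (C := Y / 8) (R := 8 * δ / Y) (fun u hu => ?_) ht ht'
    · simp only [mul_zero, sub_zero] at h1
      simpa only [S.comm s] using h1
    · have e := S.comm s u w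
      have h2 := hrr u s hu hs
      have h3 := hsq u s hu hs
      rw [e] at h2 h3
      obtain ⟨x', hx', hb⟩ := S.td _ _ h2
      refine ⟨x', S.shift_d (f := τ) hx', ?_⟩
      rw [sub_zero]
      linarith
  have H4 : ∀ t s s', |t| ≤ 8 * δ / Y → |s| ≤ 8 * δ → |s'| ≤ 8 * δ →
      |τ (Φ t v) (Φ s (Φ t w)) - τ (Φ t v) (Φ s' (Φ t w)) - (s - s')| ≤ 1 / 8 * |s - s'| := by
    intro t s s' ht hs hs'
    have h1 := mvt (f := fun s => τ (Φ t v) (Φ s (Φ t w))) (a := 1)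
      (C := 1 / 8) (R := 8 * δ) (fun u hu => ?_) hs hs'
    · simpa only [mul_one] using h1
    · obtain ⟨y', hy', hb⟩ := S.tm _ _ (hrr t u ht hu)
      exact ⟨y', S.shift_m (f := τ) hy', hb.trans (hli t u ht hu)⟩
  obtain ⟨t₀, s₀, ht₀, hs₀, hb⟩ := area_core (X := fun t s => x (Φ t v) (Φ s (Φ t w)))
    (T := fun t s => τ (Φ t v) (Φ s (Φ t w))) hY hδ hη hηδ hy1 hy2 H1 H2 H3 H4
    (by simpa only [S.zero] using hx) (by simpa only [S.zero] using hτ)
  refine ⟨t₀, s₀, ht₀, hs₀, fun t s ht hs => ?_⟩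
  obtain ⟨a1, a2, a3, a4⟩ := hb t s ht hs
  have a5 := hy0 t s a1 a2
  have a6 := abs_sub_abs_le_abs_sub (y (Φ t v) (Φ s (Φ t w))) (y v w)
  have a7 := abs_sub_abs_le_abs_sub (y v w) (y (Φ t v) (Φ s (Φ t w)))
  rw [abs_sub_comm] at a7
  exact ⟨a1, a2, hrr t s a1 a2, a3, a4, by linarith only [hδ, hy1, q4, a5, a7], by linarith only [hδ, hy2, q4, a5, a6]⟩

end PairSys

end

end NC

end QE


end

section

/-!
# The mass of the pairs `Wk` (module NCV_KSTEP, helper30)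
-/

open MeasureTheory Filter Topology Set
open UpperHalfPlane hiding I
open scoped ContDiff MatrixGroups ENNReal

namespace QE

namespace NC

noncomputable section

namespace Kst30

variable {Γ : Subgroup SL(2, ℝ)} {Φ : ℝ → SL(2, ℝ) → SL(2, ℝ)}
  {x y τ : SL(2, ℝ) → SL(2, ℝ) → ℝ} {κ : SL(2, ℝ) → ℝ} {c r L k₀ k₁ : ℝ}

theorem abs_of_sign {σ a δ : ℝ} (hσ : σ = 1 ∨ σ = -1) (h0 : 0 ≤ σ * a) (h1 : σ * a ≤ δ) :
    |a| ≤ δ := by
  rcases hσ with h | h
  · rw [h, one_mul] at h0 h1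
    rw [abs_of_nonneg h0]
    exact h1
  · rw [h, neg_one_mul] at h0 h1
    rw [abs_of_nonpos (by linarith)]
    exact h1

/-- the distance of the points of a pair -/
theorem dd_Wk (S : PairSys Γ Φ x y τ κ c r L k₀ k₁) {σ A m δ : ℝ} (hσ : σ = 1 ∨ σ = -1) {K : ℕ}
    {v w : SL(2, ℝ)} (h : Wk Φ x y τ r σ A m K δ v w) : dd v w ≤ c * (A + 2) * δ := by
  obtain ⟨h1, h2, h3, h4, h5, -⟩ := h
  have hx := abs_of_sign hσ h2 h3
  have hc : 0 ≤ c := zero_le_one.trans S.one_le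
  calc dd v w ≤ c * (|x v w| + |y v w| + |τ v w|) := S.dle v w h1
    _ ≤ c * (δ + A * δ + δ) := by (clear * - hx h5 h4 hc; gcongr)
    _ = c * (A + 2) * δ := by ring

/-- two pairs with the same second point -/
theorem Z_of (S : PairSys Γ Φ x y τ κ c r L k₀ k₁) {σ A m δ : ℝ} (hσ : σ = 1 ∨ σ = -1)
    (hA : 1 ≤ A) (hδ : 0 < δ) {K : ℕ} (hr : 2 * c ^ 3 * (A + 2) * δ ≤ r) {v v₀ w : SL(2, ℝ)}
    (h : Wk Φ x y τ r σ A m K δ v w) (h' : Wk Φ x y τ r σ A m K δ v₀ w) :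
    v ∈ Bx x τ r (2 * c ^ 3 * (A + 2) * δ) v₀ := by
  have hc1 := S.one_le
  have hc : 0 < c := zero_lt_one.trans_le hc1
  have d1 := dd_Wk S hσ h
  have d2 := dd_Wk S hσ h'
  have h1 := h.1
  have h2 := h'.1
  have d3 : dd v₀ v ≤ 2 * c ^ 2 * (A + 2) * δ := by
    have h3 := S.dtri v₀ w v h2 (by rw [S.dsymm]; exact h1)
    rw [S.dsymm v w] at h3
    calc dd v₀ v ≤ c * (dd v₀ w + dd v w) := h3
      _ ≤ c * (c * (A + 2) * δ + c * (A + 2) * δ) := by (clear * - d2 d1 hc1; gcongr)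
      _ = 2 * c ^ 2 * (A + 2) * δ := by ring
  have hA2 : 0 < A + 2 := by linarith
  have hc23 : 2 * c ^ 2 * (A + 2) * δ ≤ 2 * c ^ 3 * (A + 2) * δ := by
    have : c ^ 2 ≤ c ^ 3 := pow_le_pow_right₀ hc1 (by norm_num)
    gcongr
  have d4 : dd v₀ v ≤ r := d3.trans (hc23.trans hr)
  have e : c * (2 * c ^ 2 * (A + 2) * δ) = 2 * c ^ 3 * (A + 2) * δ := by ring
  refine ⟨d4, ?_, ?_⟩
  · calc |x v₀ v| ≤ c * dd v₀ v := S.xle v₀ v d4
      _ ≤ c * (2 * c ^ 2 * (A + 2) * δ) := by gcongr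
      _ = _ := e
  · calc |τ v₀ v| ≤ c * dd v₀ v := S.tle v₀ v d4
      _ ≤ c * (2 * c ^ 2 * (A + 2) * δ) := by gcongr
      _ = _ := e

/-- **the crossing** -/
theorem cross_of (S : PairSys Γ Φ x y τ κ c r L k₀ k₁) {σ A m δ E : ℝ} (hσ : σ = 1 ∨ σ = -1)
    (hA : 1 ≤ A) (hm : 0 < m) (hδ : 0 < δ) {k K : ℕ} (hk : 0 < k) (hkK : k ≤ K)
    (hE : E = c ^ 2 * Real.exp (L * (K * m)) * (A + 2)) (h1 : 4 * c * E ^ 2 * δ ≤ 1)
    (h2 : 2 * c * E * δ ≤ r) {v w w' : SL(2, ℝ)} (hX : Wk Φ x y τ r σ A m K δ v w)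
    (hY : Wk Φ x y τ r σ A m K δ (Φ (k * m) v) (Φ (k * m) w')) :
    Cr Φ x y τ r (4 * c ^ 2 * E) (K * m) δ w w' := by
  have hc1 := S.one_le
  have hc : 0 < c := zero_lt_one.trans_le hc1
  have hA2 : 0 < A + 2 := by linarith only [hA]
  have hK : (k : ℝ) * m ≤ K * m := by
    have : (k : ℝ) ≤ K := by exact_mod_cast hkK
    gcongr
  have hkm : 0 < (k : ℝ) * m := by
    have : (0 : ℝ) < k := by exact_mod_cast hk
    positivity
  have hLK : 1 ≤ Real.exp (L * (K * m)) :=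
    Real.one_le_exp (mul_nonneg S.Lnn (hkm.le.trans hK))
  have hE0 : 0 < E := by
    rw [hE]; positivity
  have hcE : c ≤ E := by
    rw [hE]
    calc c = c * 1 * 1 := by ring
      _ ≤ c ^ 2 * Real.exp (L * (K * m)) * (A + 2) := by
        have : c ≤ c ^ 2 := by nlinarith
        gcongr
        linarith
  have hE1 : 1 ≤ E := hc1.trans hcE
  -- the distances
  have hsmall : c * (A + 2) * δ ≤ E * δ := by
    rw [hE]
    have : c * (A + 2) ≤ c ^ 2 * Real.exp (L * (K * m)) * (A + 2) := by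
      calc c * (A + 2) = c * 1 * (A + 2) := by ring
        _ ≤ c ^ 2 * Real.exp (L * (K * m)) * (A + 2) := by
          have : c ≤ c ^ 2 := by nlinarith
          (clear * - this hLK hc1 hA; gcongr)
    gcongr
  have hEr : E * δ ≤ r := by
    refine le_trans ?_ h2
    have : E * δ * 1 ≤ E * δ * (2 * c) := by
      apply mul_le_mul_of_nonneg_left _ (by positivity)
      linarith
    linarith
  have hflow : ∀ (a b : SL(2, ℝ)) (t : ℝ), |t| ≤ K * m → dd a b ≤ c * (A + 2) * δ →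
      dd (Φ t a) (Φ t b) ≤ E * δ := by
    intro a b t ht hab
    calc dd (Φ t a) (Φ t b) ≤ c * Real.exp (L * |t|) * dd a b := S.dflow a b t
      _ ≤ c * Real.exp (L * (K * m)) * (c * (A + 2) * δ) := by
        have hL := S.Lnn
        have hd := dd_nonneg a b
        gcongr
      _ = E * δ := by rw [hE]; ring
  have habs1 : |(k : ℝ) * m| ≤ K * m := by rw [abs_of_pos hkm]; exact hK
  have habs2 : |-((k : ℝ) * m)| ≤ K * m := by rw [abs_neg]; exact habs1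
  have dX := dd_Wk S hσ hX
  have dY := dd_Wk S hσ hY
  have d1 : dd v w ≤ E * δ := dX.trans hsmall
  have d2 : dd (Φ (k * m) v) (Φ (k * m) w') ≤ E * δ := dY.trans hsmall
  have d3 : dd v w' ≤ E * δ := by
    have h3 := hflow _ _ (-((k : ℝ) * m)) habs2 dY
    rwa [← S.add, ← S.add, neg_add_cancel, S.zero, S.zero] at h3
  have d4 : dd (Φ (k * m) v) (Φ (k * m) w) ≤ E * δ := hflow _ _ _ habs1 dX
  -- the values of `x`
  obtain ⟨-, x1, x2, -, -, x3⟩ := hX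
  obtain ⟨-, y1, y2, -, -, y3⟩ := hY
  have hj : ∀ j : ℤ, |j| = (k : ℤ) → j ≠ 0 := by
    intro j hj h0
    rw [h0, abs_zero] at hj
    omega
  have x4 : 4 * δ ≤ σ * x (Φ (k * m) v) (Φ (k * m) w) := by
    have h3 := x3 (k : ℤ) (by omega) (by rw [abs_of_nonneg (by omega)]; exact_mod_cast hkK)
    rwa [Int.cast_natCast] at h3
  have y4 : 4 * δ ≤ σ * x v w' := by
    have h3 := y3 (-(k : ℤ)) (by omega)
      (by rw [abs_neg, abs_of_nonneg (by omega)]; exact_mod_cast hkK)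
    rw [Int.cast_neg, Int.cast_natCast, neg_mul] at h3
    rwa [← S.add, ← S.add, neg_add_cancel, S.zero, S.zero] at h3
  have hσσ : |σ| = 1 := by
    rcases hσ with h | h
    · rw [h, abs_one]
    · rw [h, abs_neg, abs_one]
  have herr : ∀ a b : ℝ, 0 ≤ a → 0 ≤ b → a ≤ E * δ → b ≤ E * δ → c * (a + b) ^ 2 ≤ δ := by
    intro a b ha hb ha' hb'
    calc c * (a + b) ^ 2 ≤ c * (E * δ + E * δ) ^ 2 := by (clear * - ha hb ha' hb' hc1; gcongr)
      _ = (4 * c * E ^ 2 * δ) * δ := by ring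
      _ ≤ 1 * δ := by gcongr
      _ = δ := one_mul δ
  -- at time `0`
  have z0 : 2 * δ ≤ σ * x w w' := by
    have h3 := S.xcc v w w' (d1.trans hEr) (d3.trans hEr)
    have h4 := h3.trans (herr _ _ (dd_nonneg _ _) (dd_nonneg _ _) d1 d3)
    have h5 : |σ * (x v w' - x v w - x w w')| ≤ δ := by
      rw [abs_mul, hσσ, one_mul]; exact h4
    have h6 := (abs_le.1 h5).2
    have h7 : σ * (x v w' - x v w - x w w') = σ * x v w' - σ * x v w - σ * x w w' := by ring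
    rw [h7] at h6
    linarith
  -- at time `k m`
  have z1 : σ * x (Φ (k * m) w) (Φ (k * m) w') ≤ -(2 * δ) := by
    have h3 := S.xcc (Φ (k * m) v) (Φ (k * m) w) (Φ (k * m) w') (d4.trans hEr) (d2.trans hEr)
    have h4 := h3.trans (herr _ _ (dd_nonneg _ _) (dd_nonneg _ _) d4 d2)
    have h5 : |σ * (x (Φ (k * m) v) (Φ (k * m) w') - x (Φ (k * m) v) (Φ (k * m) w)
        - x (Φ (k * m) w) (Φ (k * m) w'))| ≤ δ := by
      rw [abs_mul, hσσ, one_mul]; exact h4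
    have h6 := (abs_le.1 h5).1
    have h7 : σ * (x (Φ (k * m) v) (Φ (k * m) w') - x (Φ (k * m) v) (Φ (k * m) w)
        - x (Φ (k * m) w) (Φ (k * m) w')) = σ * x (Φ (k * m) v) (Φ (k * m) w')
        - σ * x (Φ (k * m) v) (Φ (k * m) w) - σ * x (Φ (k * m) w) (Φ (k * m) w') := by ring
    rw [h7] at h6
    linarith
  -- the distance of `w` and `w'`
  have dw : dd w w' ≤ 2 * c * E * δ := by
    have h3 := S.dtri w v w' (by rw [S.dsymm]; exact d1.trans hEr) (d3.trans hEr)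
    rw [S.dsymm v w] at h3
    calc dd w w' ≤ c * (dd v w + dd v w') := h3
      _ ≤ c * (E * δ + E * δ) := by gcongr
      _ = 2 * c * E * δ := by ring
  have dwr : dd w w' ≤ r := dw.trans h2
  have xw := S.xle w w' dwr
  have yw := S.yle w w' dwr
  have tw := S.tle w w' dwr
  have hcd : c * dd w w' ≤ 2 * c ^ 2 * E * δ := by
    calc c * dd w w' ≤ c * (2 * c * E * δ) := by gcongr
      _ = 2 * c ^ 2 * E * δ := by ring
  have hA' : 1 ≤ 4 * c ^ 2 * E := by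
    have hc2 : 1 ≤ c ^ 2 := one_le_pow₀ hc1
    nlinarith only [hc1, hcE]
  have hpos : 0 ≤ 2 * c ^ 2 * E * δ := by positivity
  refine ⟨dwr, ?_, ?_, ?_, ?_⟩
  · calc |τ w w'| ≤ 2 * c ^ 2 * E * δ := tw.trans hcd
      _ ≤ 4 * c ^ 2 * E * δ := by linarith
  · have h3 : δ / (4 * c ^ 2 * E) ≤ δ := div_le_self hδ.le hA'
    have h4 : 2 * δ ≤ |x w w'| := by
      calc 2 * δ ≤ σ * x w w' := z0
        _ ≤ |σ * x w w'| := le_abs_self _
        _ = |x w w'| := by rw [abs_mul, hσσ, one_mul]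
    have h5 := abs_nonneg (y w w')
    linarith
  · calc |x w w'| + |y w w'| ≤ 2 * c ^ 2 * E * δ + 2 * c ^ 2 * E * δ :=
          add_le_add (xw.trans hcd) (yw.trans hcd)
      _ = 4 * c ^ 2 * E * δ := by ring
  · -- the intermediate value theorem
    have hcont : Continuous fun t : ℝ => σ * x (Φ t w) (Φ t w') := by
      have h3 : Continuous fun t : ℝ => (Φ t w, Φ t w') :=
        (S.cont.comp (continuous_id.prodMk continuous_const)).prodMk
          (S.cont.comp (continuous_id.prodMk continuous_const))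
      exact continuous_const.mul (S.xc.comp h3)
    have h3 := intermediate_value_Icc' (a := 0) (b := (k : ℝ) * m) hkm.le
      (f := fun t : ℝ => σ * x (Φ t w) (Φ t w')) hcont.continuousOn
    have h4 : (0 : ℝ) ∈ Icc (σ * x (Φ (k * m) w) (Φ (k * m) w')) (σ * x (Φ 0 w) (Φ 0 w')) := by
      rw [S.zero, S.zero]
      exact ⟨by linarith, by linarith⟩
    obtain ⟨t, ht, ht0⟩ := h3 h4
    refine ⟨t, ?_, ?_⟩
    · rw [abs_of_nonneg ht.1]
      exact ht.2.trans hK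
    · have ht0' : σ * x (Φ t w) (Φ t w') = 0 := ht0
      rcases mul_eq_zero.1 ht0' with h5 | h5
      · exfalso
        rw [h5, abs_zero] at hσσ
        exact zero_ne_one hσσ
      · exact h5

/-! ### measurability and invariance -/

theorem cont_flow2 (S : PairSys Γ Φ x y τ κ c r L k₀ k₁) (s : ℝ) :
    Continuous fun p : SL(2, ℝ) × SL(2, ℝ) => (Φ s p.1, Φ s p.2) :=
  ((S.cont_flow s).comp continuous_fst).prodMk ((S.cont_flow s).comp continuous_snd)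

theorem closed_Wk (S : PairSys Γ Φ x y τ κ c r L k₀ k₁) (σ A m : ℝ) (K : ℕ) (δ : ℝ) :
    IsClosed {p : SL(2, ℝ) × SL(2, ℝ) | Wk Φ x y τ r σ A m K δ p.1 p.2} := by
  have h1 : IsClosed {p : SL(2, ℝ) × SL(2, ℝ) | dd p.1 p.2 ≤ r} :=
    isClosed_le continuous_dd continuous_const
  have h2 : IsClosed {p : SL(2, ℝ) × SL(2, ℝ) | 0 ≤ σ * x p.1 p.2} :=
    isClosed_le continuous_const (continuous_const.mul S.xc)
  have h3 : IsClosed {p : SL(2, ℝ) × SL(2, ℝ) | σ * x p.1 p.2 ≤ δ} :=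
    isClosed_le (continuous_const.mul S.xc) continuous_const
  have h4 : IsClosed {p : SL(2, ℝ) × SL(2, ℝ) | |τ p.1 p.2| ≤ δ} :=
    isClosed_le S.tc.abs continuous_const
  have h5 : IsClosed {p : SL(2, ℝ) × SL(2, ℝ) | |y p.1 p.2| ≤ A * δ} :=
    isClosed_le S.yc.abs continuous_const
  have h6 : IsClosed {p : SL(2, ℝ) × SL(2, ℝ) | ∀ j : ℤ, j ≠ 0 → |j| ≤ (K : ℤ) →
      4 * δ ≤ σ * x (Φ (j * m) p.1) (Φ (j * m) p.2)} := by
    have e : {p : SL(2, ℝ) × SL(2, ℝ) | ∀ j : ℤ, j ≠ 0 → |j| ≤ (K : ℤ) →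
        4 * δ ≤ σ * x (Φ (j * m) p.1) (Φ (j * m) p.2)} =
        ⋂ j : ℤ, ⋂ _ : j ≠ 0, ⋂ _ : |j| ≤ (K : ℤ),
          {p : SL(2, ℝ) × SL(2, ℝ) | 4 * δ ≤ σ * x (Φ (j * m) p.1) (Φ (j * m) p.2)} := by
      ext p
      simp only [mem_iInter, mem_ofPred_eq]
    rw [e]
    refine isClosed_iInter fun j => isClosed_iInter fun _ => isClosed_iInter fun _ => ?_
    exact isClosed_le continuous_const
      (continuous_const.mul (S.xc.comp (cont_flow2 S (j * m))))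
  exact h1.inter (h2.inter (h3.inter (h4.inter (h5.inter h6))))

theorem closed_Cr (S : PairSys Γ Φ x y τ κ c r L k₀ k₁) (A T δ : ℝ) :
    IsClosed {p : SL(2, ℝ) × SL(2, ℝ) | Cr Φ x y τ r A T δ p.1 p.2} := by
  have h1 : IsClosed {p : SL(2, ℝ) × SL(2, ℝ) | dd p.1 p.2 ≤ r} :=
    isClosed_le continuous_dd continuous_const
  have h4 : IsClosed {p : SL(2, ℝ) × SL(2, ℝ) | |τ p.1 p.2| ≤ A * δ} :=
    isClosed_le S.tc.abs continuous_const
  have h5 : IsClosed {p : SL(2, ℝ) × SL(2, ℝ) | δ / A ≤ |x p.1 p.2| + |y p.1 p.2|} :=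
    isClosed_le continuous_const (S.xc.abs.add S.yc.abs)
  have h6 : IsClosed {p : SL(2, ℝ) × SL(2, ℝ) | |x p.1 p.2| + |y p.1 p.2| ≤ A * δ} :=
    isClosed_le (S.xc.abs.add S.yc.abs) continuous_const
  have h7 : IsClosed {p : SL(2, ℝ) × SL(2, ℝ) | ∃ t : ℝ, |t| ≤ T ∧
      x (Φ t p.1) (Φ t p.2) = 0} := by
    have hcl : IsClosed {q : Icc (-T) T × (SL(2, ℝ) × SL(2, ℝ)) |
        x (Φ q.1 q.2.1) (Φ q.1 q.2.2) = 0} := by
      refine isClosed_eq ?_ continuous_const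
      have a1 : Continuous fun q : Icc (-T) T × (SL(2, ℝ) × SL(2, ℝ)) => (q.1 : ℝ) :=
        continuous_subtype_val.comp continuous_fst
      have a2 : Continuous fun q : Icc (-T) T × (SL(2, ℝ) × SL(2, ℝ)) => q.2.1 :=
        continuous_fst.comp continuous_snd
      have a3 : Continuous fun q : Icc (-T) T × (SL(2, ℝ) × SL(2, ℝ)) => q.2.2 :=
        continuous_snd.comp continuous_snd
      exact S.xc.comp ((S.cont.comp (a1.prodMk a2)).prodMk (S.cont.comp (a1.prodMk a3)))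
    have h8 := isClosedMap_snd_of_compactSpace (X := Icc (-T) T) (Y := SL(2, ℝ) × SL(2, ℝ))
      _ hcl
    have e : {p : SL(2, ℝ) × SL(2, ℝ) | ∃ t : ℝ, |t| ≤ T ∧ x (Φ t p.1) (Φ t p.2) = 0} =
        Prod.snd '' {q : Icc (-T) T × (SL(2, ℝ) × SL(2, ℝ)) |
          x (Φ q.1 q.2.1) (Φ q.1 q.2.2) = 0} := ?_
    · rw [e]
      exact h8
    ext p
    simp only [mem_ofPred_eq, mem_image, Prod.exists]
    constructor
    · rintro ⟨t, ht, h9⟩
      exact ⟨⟨t, abs_le.1 ht⟩, p.1, p.2, h9, rfl⟩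
    · rintro ⟨t, a, b, h9, h10⟩
      refine ⟨t, abs_le.2 t.2, ?_⟩
      rw [← h10]
      exact h9
  exact h1.inter (h4.inter (h5.inter (h6.inter h7)))

theorem inv_Wk (S : PairSys Γ Φ x y τ κ c r L k₀ k₁) (σ A m : ℝ) (K : ℕ) (δ : ℝ)
    {γ : SL(2, ℝ)} (hγ : γ ∈ Γ) (v w : SL(2, ℝ)) :
    Wk Φ x y τ r σ A m K δ (γ * v) (γ * w) ↔ Wk Φ x y τ r σ A m K δ v w := by
  unfold Wk
  simp only [dd_left, S.xi γ hγ, S.yi γ hγ, S.ti γ hγ, S.left γ hγ]

end Kst30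

open _root_.QE.NC.Kst30

theorem stmtKstep (hC : StmtCross) : StmtKstep := by
  intro _ _ Γ _ D Φ x y τ κ c r L k₀ k₁ ν S M σ A m η hσ hA hm hη
  have hsf := M.sf
  have hc1 := S.one_le
  have hc : 0 < c := zero_lt_one.trans_le hc1
  have hA2 : 0 < A + 2 := by linarith
  have hr := S.rpos
  set B : ℝ := 2 * c ^ 3 * (A + 2) with hB
  have hB0 : 0 < B := by positivity
  have hB1 : 1 ≤ B := by
    have h1 : 1 ≤ c ^ 3 := one_le_pow₀ hc1
    nlinarith
  obtain ⟨R, hR, hui⟩ := M.ui (η / (2 * B ^ 2)) (by positivity)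
  -- the number of steps
  set V : ℝ≥0∞ := ν (Berry.Fd D) with hV
  have hVt : V ≠ ⊤ := M.fin
  have hV0 : 0 ≤ V.toReal := ENNReal.toReal_nonneg
  set n : ℕ := ⌈4 * (R * B ^ 2) * V.toReal / η⌉₊ + 1 with hn
  have hnpos : 0 < n := by rw [hn]; omega
  have hn0 : (0 : ℝ) < n := by exact_mod_cast hnpos
  have hnm : 4 * (R * B ^ 2) * V.toReal ≤ η * n := by
    have h1 : 4 * (R * B ^ 2) * V.toReal / η ≤ n := by
      rw [hn]
      push_cast
      linarith only [Nat.le_ceil (4 * (R * B ^ 2) * V.toReal / η)]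
    rw [div_le_iff₀ hη] at h1
    linarith
  set E : ℝ := c ^ 2 * Real.exp (L * (n * m)) * (A + 2) with hE
  have hE0 : 0 < E := by positivity
  have hnm0 : 0 < (n : ℝ) * m := by (clear * - hm; positivity)
  have hA' : 1 ≤ 4 * c ^ 2 * E := by
    have h1 : 1 ≤ c ^ 2 := one_le_pow₀ hc1
    have h2 : 1 ≤ Real.exp (L * (n * m)) := Real.one_le_exp (mul_nonneg S.Lnn hnm0.le)
    have h3 : 1 ≤ E := by
      rw [hE]
      calc (1 : ℝ) = 1 * 1 * 1 := by ring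
        _ ≤ c ^ 2 * Real.exp (L * (n * m)) * (A + 2) := by
          gcongr
          linarith
    nlinarith only [h1, h3]
  obtain ⟨d₀, hd₀, hcr⟩ := hC Γ D Φ x y τ κ c r L k₀ k₁ ν S M (n * m) (4 * c ^ 2 * E)
    (η / (4 * n)) hnm0 hA' (by (clear * - hη; positivity))
  refine ⟨n, min d₀ (min (1 / B) (min (r / B) (min (1 / (4 * c * E ^ 2)) (r / (2 * c * E))))),
    by positivity, fun δ hδ hδ0 => ?_⟩
  have b0 : δ < d₀ := hδ0.trans_le (min_le_left _ _)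
  have b1 : B * δ ≤ 1 := by
    have := hδ0.le.trans ((min_le_right _ _).trans (min_le_left _ _))
    rw [le_div_iff₀ hB0] at this
    linarith
  have b2 : B * δ ≤ r := by
    have := hδ0.le.trans ((min_le_right _ _).trans ((min_le_right _ _).trans (min_le_left _ _)))
    rw [le_div_iff₀ hB0] at this
    linarith
  have b3 : 4 * c * E ^ 2 * δ ≤ 1 := by
    have := hδ0.le.trans ((min_le_right _ _).trans ((min_le_right _ _).trans
      ((min_le_right _ _).trans (min_le_left _ _))))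
    rw [le_div_iff₀ (by positivity)] at this
    linarith
  have b4 : 2 * c * E * δ ≤ r := by
    have := hδ0.le.trans ((min_le_right _ _).trans ((min_le_right _ _).trans
      ((min_le_right _ _).trans (min_le_right _ _))))
    rw [le_div_iff₀ (by positivity)] at this
    linarith only [this]
  have hBδ : 0 < B * δ := by positivity
  -- the sets
  have hXm : MeasurableSet {p : SL(2, ℝ) × SL(2, ℝ) | Wk Φ x y τ r σ A m n δ p.1 p.2} :=
    (closed_Wk S σ A m n δ).measurableSet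
  have hZm := measSet_Bx_pair S.xc S.tc r (B * δ)
  have hWm : MeasurableSet {p : SL(2, ℝ) × SL(2, ℝ) |
      Cr Φ x y τ r (4 * c ^ 2 * E) (n * m) δ p.1 p.2} :=
    (closed_Cr S (4 * c ^ 2 * E) (n * m) δ).measurableSet
  have iX : ∀ γ ∈ Γ, ∀ v w, Wk Φ x y τ r σ A m n δ (γ * v) (γ * w) ↔
      Wk Φ x y τ r σ A m n δ v w := fun γ hγ v w => inv_Wk S σ A m n δ hγ v w
  have iZ : ∀ γ ∈ Γ, ∀ v w, (γ * w ∈ Bx x τ r (B * δ) (γ * v)) ↔
      (w ∈ Bx x τ r (B * δ) v) := by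
    intro γ hγ v w
    unfold Bx
    simp only [Set.mem_ofPred_eq]
    rw [dd_left, S.xi γ hγ, S.ti γ hγ]
  -- the function
  set l : ℝ≥0∞ := ENNReal.ofReal (R * (B * δ) ^ 2) with hl
  have hl0 : l ≠ 0 := (ENNReal.ofReal_pos.2 (by positivity)).ne'
  have hlt : l ≠ ⊤ := ENNReal.ofReal_ne_top
  set f : SL(2, ℝ) → ℝ≥0∞ := fun v =>
    if ν (Bx x τ r (B * δ) v) ≤ l then ν {w | Wk Φ x y τ r σ A m n δ v w} else 0 with hf
  have mX := meas_mass (ν := ν) (P := Wk Φ x y τ r σ A m n δ) hXm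
  have mZ : Measurable fun v : SL(2, ℝ) => ν (Bx x τ r (B * δ) v) :=
    meas_mass (ν := ν) (P := fun v w => w ∈ Bx x τ r (B * δ) v) hZm
  have hfm : Measurable f :=
    Measurable.ite (measurableSet_le mZ measurable_const) mX measurable_const
  have hXB : ∀ v : SL(2, ℝ), ν {w | Wk Φ x y τ r σ A m n δ v w} ≤ ν (Bx x τ r (B * δ) v) := by
    intro v
    apply measure_mono
    rintro w ⟨h1, h2, h3, h4, -, -⟩
    have h5 : δ ≤ B * δ := by nlinarith only [hB1, hδ]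
    exact ⟨h1, (abs_of_sign hσ h2 h3).trans h5, h4.trans h5⟩
  have hfl : ∀ g, f g ≤ l := by
    intro g
    simp only [hf]
    split_ifs with h
    · exact (hXB g).trans h
    · exact zero_le
  have hZinv : ∀ γ ∈ Γ, ∀ g, ν (Bx x τ r (B * δ) (γ * g)) = ν (Bx x τ r (B * δ) g) :=
    fun γ hγ g => M.mass_inv (P := fun v w => w ∈ Bx x τ r (B * δ) v) hZm iZ hγ g
  have hfinv : ∀ γ ∈ Γ, ∀ g, f (γ * g) = f g := by
    intro γ hγ g
    simp only [hf, hZinv γ hγ g, M.mass_inv hXm iX hγ g]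
  set I₁ := ∫⁻ g in Berry.Fd D, f g ∂ν with hI₁
  have hI₁t : I₁ ≠ ⊤ := by
    refine ne_top_of_le_ne_top (ENNReal.mul_ne_top hlt hVt) ?_
    calc I₁ ≤ ∫⁻ g in Berry.Fd D, l ∂ν := lintegral_mono hfl
      _ = l * V := by rw [setLIntegral_const]
  -- correlations
  set P : ℝ≥0∞ := PM D ν (Cr Φ x y τ r (4 * c ^ 2 * E) (n * m) δ) with hP
  have hPb : P ≤ ENNReal.ofReal (η / (4 * n) * δ ^ 2) := hcr δ hδ b0
  have hcor : ∀ k : ℕ, 0 < k → k < n →
      ∫⁻ g in Berry.Fd D, f g * f (Φ (k * m) g) ∂ν ≤ l * P := by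
    intro k hk hkn
    have hYm : MeasurableSet {p : SL(2, ℝ) × SL(2, ℝ) |
        Wk Φ x y τ r σ A m n δ (Φ (k * m) p.1) (Φ (k * m) p.2)} :=
      (cont_flow2 S (k * m)).measurable hXm
    have h1 := triple (ν := ν) M (X := Wk Φ x y τ r σ A m n δ)
      (Y := fun v w => Wk Φ x y τ r σ A m n δ (Φ (k * m) v) (Φ (k * m) w))
      (Z := fun v w => w ∈ Bx x τ r (B * δ) v)
      (W := Cr Φ x y τ r (4 * c ^ 2 * E) (n * m) δ) hXm hYm hZm hWm iX
      (fun γ hγ v w => by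
        simp only [S.left γ hγ]
        exact iX γ hγ _ _) iZ
      (fun v v₀ w h h' => Z_of S hσ hA hδ b2 h h')
      (fun v w w' h h' => cross_of S hσ hA hm hδ hk hkn.le hE b3 b4 h h') l
    refine le_trans (lintegral_mono fun v => ?_) h1
    have h2 : ν {w | Wk Φ x y τ r σ A m n δ (Φ (k * m) v) (Φ (k * m) w)} =
        ν {w | Wk Φ x y τ r σ A m n δ (Φ (k * m) v) w} :=
      (mp_flow S M (k * m)).measure_preimage (measSet_snd hXm _).nullMeasurableSet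
    have h3 : f (Φ (k * m) v) ≤ ν {w | Wk Φ x y τ r σ A m n δ (Φ (k * m) v) w} := by
      simp only [hf]
      split_ifs
      · exact le_rfl
      · exact zero_le
    show f v * f (Φ (k * m) v) ≤ if ν {w | w ∈ Bx x τ r (B * δ) v} ≤ l then
      ν {w | Wk Φ x y τ r σ A m n δ v w} *
        ν {w | Wk Φ x y τ r σ A m n δ (Φ (k * m) v) (Φ (k * m) w)} else 0
    rw [h2]
    by_cases h4 : ν (Bx x τ r (B * δ) v) ≤ l
    · have h5 : ν {w | w ∈ Bx x τ r (B * δ) v} ≤ l := h4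
      have h6 : f v = ν {w | Wk Φ x y τ r σ A m n δ v w} := by simp only [hf, if_pos h4]
      rw [if_pos h5, h6]
      (clear * - h3; gcongr)
    · have h5 : ¬ ν {w | w ∈ Bx x τ r (B * δ) v} ≤ l := h4
      have h6 : f v = 0 := by simp only [hf, if_neg h4]
      rw [if_neg h5, h6, zero_mul]
  have hav := averaging S M hfm hfinv hlt hfl n m hcor hI₁t
  -- the main part
  have hmain : I₁ ≤ ENNReal.ofReal (η / 4 * δ ^ 2 + η / 4 * δ ^ 2) := by
    have h1 : (n * l) * I₁ ≤ (n * l) * ENNReal.ofReal (η / 4 * δ ^ 2 + η / 4 * δ ^ 2) := by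
      refine hav.trans ?_
      have h2 : (n : ℝ≥0∞) ^ 2 * (l * P) ≤ n * l * ENNReal.ofReal (η / 4 * δ ^ 2) := by
        have h3 : (n : ℝ≥0∞) * P ≤ ENNReal.ofReal (η / 4 * δ ^ 2) := by
          calc (n : ℝ≥0∞) * P ≤ ENNReal.ofReal n * ENNReal.ofReal (η / (4 * n) * δ ^ 2) := by
                rw [ENNReal.ofReal_natCast]
                (clear * - hPb; gcongr)
            _ = ENNReal.ofReal (η / 4 * δ ^ 2) := by
                rw [← ENNReal.ofReal_mul hn0.le]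
                congr 1
                field_simp
        calc (n : ℝ≥0∞) ^ 2 * (l * P) = n * l * (n * P) := by ring
          _ ≤ _ := by (clear * - h3; gcongr)
      have h4 : l ^ 2 * V ≤ n * l * ENNReal.ofReal (η / 4 * δ ^ 2) := by
        have h5 : l * V ≤ n * ENNReal.ofReal (η / 4 * δ ^ 2) := by
          rw [← ENNReal.ofReal_toReal hVt, hl, ← ENNReal.ofReal_mul (by positivity),
            ← ENNReal.ofReal_natCast, ← ENNReal.ofReal_mul hn0.le]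
          apply ENNReal.ofReal_le_ofReal
          have h6 : 4 * (R * B ^ 2) * V.toReal * δ ^ 2 ≤ η * n * δ ^ 2 := by (clear * - hnm hδ; gcongr)
          linarith only [h6]
        calc l ^ 2 * V = l * (l * V) := by ring
          _ ≤ l * (n * ENNReal.ofReal (η / 4 * δ ^ 2)) := by (clear * - h5; gcongr)
          _ = _ := by ring
      calc (n : ℝ≥0∞) ^ 2 * (l * P) + l ^ 2 * V
          ≤ n * l * ENNReal.ofReal (η / 4 * δ ^ 2) + n * l * ENNReal.ofReal (η / 4 * δ ^ 2) :=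
            add_le_add h2 h4
        _ = _ := by rw [← mul_add, ENNReal.ofReal_add (by positivity) (by positivity)]
    have hne : (n : ℝ≥0∞) * l ≠ 0 := mul_ne_zero (by exact_mod_cast hnpos.ne') hl0
    have hnt : (n : ℝ≥0∞) * l ≠ ⊤ := ENNReal.mul_ne_top (ENNReal.natCast_ne_top n) hlt
    exact (ENNReal.mul_le_mul_iff_right hne hnt).1 h1
  -- the exceptional part
  have hexc := hui (B * δ) hBδ b1
  have hexc2 : ENNReal.ofReal (η / (2 * B ^ 2) * (B * δ) ^ 2) = ENNReal.ofReal (η / 2 * δ ^ 2) := by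
    congr 1
    field_simp
  rw [hexc2] at hexc
  -- conclusion
  have hsplit : ∀ v : SL(2, ℝ), ν {w | Wk Φ x y τ r σ A m n δ v w} ≤ f v +
      (if ν (Bx x τ r (B * δ) v) ≤ ENNReal.ofReal (R * (B * δ) ^ 2) then 0
        else ν (Bx x τ r (B * δ) v)) := by
    intro v
    by_cases h : ν (Bx x τ r (B * δ) v) ≤ l
    · have h' : ν (Bx x τ r (B * δ) v) ≤ ENNReal.ofReal (R * (B * δ) ^ 2) := h
      rw [if_pos h']
      simp only [hf, if_pos h, add_zero, le_refl]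
    · have h' : ¬ ν (Bx x τ r (B * δ) v) ≤ ENNReal.ofReal (R * (B * δ) ^ 2) := h
      rw [if_neg h']
      simp only [hf, if_neg h, zero_add]
      exact hXB v
  show ∫⁻ v in Berry.Fd D, ν {w | Wk Φ x y τ r σ A m n δ v w} ∂ν ≤ ENNReal.ofReal (η * δ ^ 2)
  calc ∫⁻ v in Berry.Fd D, ν {w | Wk Φ x y τ r σ A m n δ v w} ∂ν
      ≤ ∫⁻ v in Berry.Fd D, (f v +
        (if ν (Bx x τ r (B * δ) v) ≤ ENNReal.ofReal (R * (B * δ) ^ 2) then 0
          else ν (Bx x τ r (B * δ) v))) ∂ν := lintegral_mono hsplit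
    _ = I₁ + _ := lintegral_add_left hfm _
    _ ≤ ENNReal.ofReal (η / 4 * δ ^ 2 + η / 4 * δ ^ 2) + ENNReal.ofReal (η / 2 * δ ^ 2) :=
        add_le_add hmain hexc
    _ = ENNReal.ofReal (η * δ ^ 2) := by
        rw [← ENNReal.ofReal_add (by positivity) (by positivity)]
        congr 1
        ring

end

end NC

end QE


end

section

/-!
# The mass of the pairs which are much closer than `δ` (helper64)
-/

open MeasureTheory Filter Topology Set
open UpperHalfPlane hiding I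
open scoped ContDiff MatrixGroups ENNReal

namespace QE

namespace NC

noncomputable section

namespace Tiny64

variable {Γ : Subgroup SL(2, ℝ)} {Φ : ℝ → SL(2, ℝ) → SL(2, ℝ)}
  {x y τ : SL(2, ℝ) → SL(2, ℝ) → ℝ} {κ : SL(2, ℝ) → ℝ} {c r L k₀ k₁ : ℝ}

/-- the pair `(v, w)` is moved into the box of size `2 q δ` -/
theorem cover (S : PairSys Γ Φ x y τ κ c r L k₀ k₁) {q δ : ℝ} (hq : 0 < q) (hq1 : q ≤ 1)
    (hδ : 0 < δ) (hδ1 : 3 * δ ≤ 1) (h1 : 18 * c ^ 3 * δ ≤ q) (h2 : 6 * c ^ 2 * δ ≤ r)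
    {v w : SL(2, ℝ)} (hT : Ty x y τ r q δ v w) :
    ∃ k : ℤ, |(k : ℝ)| ≤ 2 / q + 1 / 2 ∧ Φ (-(k * (q * δ))) w ∈ Bx x τ r (2 * (q * δ)) v := by
  obtain ⟨hd, hxy, hτ⟩ := hT
  have hc := PairSys.c0 S
  have hc1 := S.one_le
  have hqδ : 0 < q * δ := mul_pos hq hδ
  have hqδ1 : q * δ ≤ δ := by nlinarith only [hq1, hδ]
  refine ⟨round (τ v w / (q * δ)), ?_, ?_⟩
  · have a1 := abs_sub_round (τ v w / (q * δ))
    have a2 : |τ v w / (q * δ)| ≤ 2 / q := by
      rw [abs_div, abs_of_pos hqδ, div_le_div_iff₀ hqδ hq]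
      nlinarith only [hq, hτ]
    have a3 := abs_sub_abs_le_abs_sub ((round (τ v w / (q * δ)) : ℤ) : ℝ) (τ v w / (q * δ))
    rw [abs_sub_comm] at a3
    linarith
  · set k : ℝ := ((round (τ v w / (q * δ)) : ℤ) : ℝ) with hk
    set s : ℝ := k * (q * δ) with hs
    have a1 : |τ v w - s| ≤ q * δ / 2 := by
      have b1 := abs_sub_round (τ v w / (q * δ))
      rw [← hk] at b1
      have b2 : τ v w - s = (τ v w / (q * δ) - k) * (q * δ) := by
        rw [hs, sub_mul, div_mul_cancel₀ _ hqδ.ne']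
      rw [b2, abs_mul, abs_of_pos hqδ]
      nlinarith only [hqδ, b1]
    have a2 : |s| ≤ 3 * δ := by
      have b1 := abs_sub_abs_le_abs_sub s (τ v w)
      rw [abs_sub_comm] at b1
      linarith
    have hdv : dd v w ≤ 3 * c * δ := by
      calc dd v w ≤ c * (|x v w| + |y v w| + |τ v w|) := S.dle v w hd
        _ ≤ c * (q * δ + 2 * δ) := by gcongr
        _ ≤ c * (δ + 2 * δ) := by gcongr
        _ = 3 * c * δ := by ring
    have hdu : ∀ u, |u| ≤ 3 * δ → dd v (Φ u w) ≤ 6 * c ^ 2 * δ := by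
      intro u hu
      have b1 := S.dmove w u (hu.trans hδ1)
      have b2 : c * |u| ≤ c * (3 * δ) := by gcongr
      have b3 : c * (3 * δ) ≤ r := by
        refine le_trans ?_ h2
        have : c ≤ c ^ 2 := by nlinarith only [hc1]
        nlinarith only [hδ, this]
      have b4 := S.dtri v w (Φ u w) hd (b1.trans (b2.trans b3))
      calc dd v (Φ u w) ≤ c * (dd v w + dd w (Φ u w)) := b4
        _ ≤ c * (3 * c * δ + c * (3 * δ)) := by gcongr; exact b1.trans b2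
        _ = 6 * c ^ 2 * δ := by ring
    have hsm : |-s| ≤ 3 * δ := by rwa [abs_neg]
    have h0 : |(0 : ℝ)| ≤ 3 * δ := by rw [abs_zero]; positivity
    have hcd : ∀ u, |u| ≤ 3 * δ → c * dd v (Φ u w) ≤ 6 * c ^ 3 * δ := by
      intro u hu
      calc c * dd v (Φ u w) ≤ c * (6 * c ^ 2 * δ) := by gcongr; exact hdu u hu
        _ = 6 * c ^ 3 * δ := by ring
    have herr : 6 * c ^ 3 * δ * |-s - 0| ≤ q * δ := by
      rw [sub_zero]
      calc 6 * c ^ 3 * δ * |-s| ≤ 6 * c ^ 3 * δ * (3 * δ) := by gcongr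
        _ = (18 * c ^ 3 * δ) * δ := by ring
        _ ≤ q * δ := by gcongr
    have hτs : |τ v (Φ (-s) w) - τ v w - (-s)| ≤ q * δ := by
      have b1 := mvt (f := fun u => τ v (Φ u w)) (a := 1) (C := 6 * c ^ 3 * δ) (R := 3 * δ)
        (fun u hu => by
          obtain ⟨t', ht', hb⟩ := S.tm v (Φ u w) ((hdu u hu).trans h2)
          exact ⟨t', PairSys.shift_m S (f := τ) ht', hb.trans (hcd u hu)⟩) hsm h0
      simp only [S.zero] at b1
      have b2 : τ v (Φ (-s) w) - τ v w - (-s - 0) * 1 = τ v (Φ (-s) w) - τ v w - (-s) := by ring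
      rw [b2] at b1
      exact b1.trans herr
    have hxs : |x v (Φ (-s) w) - x v w| ≤ q * δ := by
      have b1 := mvt (f := fun u => x v (Φ u w)) (a := 0) (C := 6 * c ^ 3 * δ) (R := 3 * δ)
        (fun u hu => by
          obtain ⟨t', ht', hb⟩ := S.xm v (Φ u w) ((hdu u hu).trans h2)
          refine ⟨t', PairSys.shift_m S (f := x) ht', ?_⟩
          rw [sub_zero]
          exact hb.trans (hcd u hu)) hsm h0
      simp only [S.zero, mul_zero] at b1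
      rw [sub_zero (x v (Φ (-s) w) - x v w)] at b1
      exact b1.trans herr
    refine ⟨(hdu _ hsm).trans h2, ?_, ?_⟩
    · have b1 := abs_add_le (x v (Φ (-s) w) - x v w) (x v w)
      rw [sub_add_cancel] at b1
      have b2 := abs_nonneg (y v w)
      linarith
    · have b1 := abs_add_le (τ v (Φ (-s) w) - τ v w - (-s)) (τ v w - s)
      have e : τ v (Φ (-s) w) - τ v w - (-s) + (τ v w - s) = τ v (Φ (-s) w) := by ring
      rw [e] at b1
      linarith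

variable [MeasurableSpace SL(2, ℝ)] {D : Set ℍ} {ν : Measure SL(2, ℝ)}

/-- subadditivity -/
theorem PM_le_sum [SFinite ν] {α : Type*} (A : Finset α) {P : SL(2, ℝ) → SL(2, ℝ) → Prop}
    {Q : α → SL(2, ℝ) → SL(2, ℝ) → Prop}
    (hQ : ∀ i ∈ A, MeasurableSet {p : SL(2, ℝ) × SL(2, ℝ) | Q i p.1 p.2})
    (h : ∀ v w, P v w → ∃ i ∈ A, Q i v w) : PM D ν P ≤ ∑ i ∈ A, PM D ν (Q i) := by
  unfold PM
  rw [← lintegral_finsetSum A fun i hi => meas_mass (hQ i hi)]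
  refine lintegral_mono fun v => ?_
  refine le_trans (measure_mono (t := ⋃ i ∈ A, {w | Q i v w}) ?_) (measure_biUnion_finset_le A _)
  intro w hw
  obtain ⟨i, hi, hq⟩ := h v w hw
  simp only [mem_iUnion]
  exact ⟨i, hi, hq⟩

end Tiny64

open _root_.QE.NC.Tiny64

theorem stmtTiny : StmtTiny := by
  intro _ _ Γ _ D Φ x y τ κ c r L k₀ k₁ ν S M
  obtain ⟨C, hC, hbox⟩ := M.box
  have hsf := M.sf
  have hc := PairSys.c0 S
  have hr := S.rpos
  refine ⟨36 * C, by positivity, fun q hq hq1 => ?_⟩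
  refine ⟨min (1 / 3) (min (q / (18 * c ^ 3)) (r / (6 * c ^ 2))), by positivity,
    fun δ hδ hδ0 => ?_⟩
  have d1 : 3 * δ ≤ 1 := by
    have := hδ0.le.trans (min_le_left _ _)
    linarith
  have d2 : 18 * c ^ 3 * δ ≤ q := by
    have := hδ0.le.trans ((min_le_right _ _).trans (min_le_left _ _))
    rw [le_div_iff₀ (by positivity)] at this
    linarith
  have d3 : 6 * c ^ 2 * δ ≤ r := by
    have := hδ0.le.trans ((min_le_right _ _).trans (min_le_right _ _))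
    rw [le_div_iff₀ (by positivity)] at this
    linarith
  have hqδ : 0 < q * δ := mul_pos hq hδ
  have hb := hbox (2 * (q * δ)) (by positivity) (by nlinarith)
  set K : ℕ := ⌈2 / q + 1 / 2⌉₊ with hK
  have hK1 : (K : ℝ) ≤ 2 / q + 3 / 2 := by
    have := (Nat.ceil_lt_add_one (a := 2 / q + 1 / 2) (by positivity)).le
    rw [← hK] at this
    linarith only [this]
  have hPm := measSet_Bx_pair S.xc S.tc r (2 * (q * δ))
  have hinv : ∀ γ ∈ Γ, ∀ v w, (γ * w ∈ Bx x τ r (2 * (q * δ)) (γ * v)) ↔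
      (w ∈ Bx x τ r (2 * (q * δ)) v) := by
    intro γ hγ v w
    unfold Bx
    simp only [Set.mem_ofPred_eq]
    rw [dd_left, S.xi γ hγ, S.ti γ hγ]
  have hfl : ∀ k : ℤ, PM D ν (fun v w => Φ (-(k * (q * δ))) w ∈ Bx x τ r (2 * (q * δ)) v) ≤
      ENNReal.ofReal (C * (2 * (q * δ)) ^ 2) := by
    intro k
    have e := PM_flow_set S M (P := fun v w => w ∈ Bx x τ r (2 * (q * δ)) v) hPm hinv 0
      (-(k * (q * δ)))
    simp only [S.zero] at e
    rw [e]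
    exact hb
  have hms : ∀ k : ℤ, MeasurableSet {p : SL(2, ℝ) × SL(2, ℝ) |
      Φ (-(k * (q * δ))) p.2 ∈ Bx x τ r (2 * (q * δ)) p.1} := fun k =>
    (measurable_fst.prodMk ((S.cont_flow (-(k * (q * δ)))).measurable.comp measurable_snd)) hPm
  have hsum : PM D ν (Ty x y τ r q δ) ≤ ∑ k ∈ Finset.Icc (-(K : ℤ)) K,
      PM D ν (fun v w => Φ (-(k * (q * δ))) w ∈ Bx x τ r (2 * (q * δ)) v) := by
    refine PM_le_sum (Finset.Icc (-(K : ℤ)) K) (fun k _ => hms k) fun v w hvw => ?_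
    obtain ⟨k, hk, hkb⟩ := cover S hq hq1 hδ d1 d2 d3 hvw
    refine ⟨k, ?_, hkb⟩
    have h1 : |(k : ℝ)| ≤ (K : ℝ) := hk.trans (Nat.le_ceil _)
    rw [Finset.mem_Icc, ← abs_le]
    exact_mod_cast h1
  refine hsum.trans ((Finset.sum_le_sum fun k _ => hfl k).trans ?_)
  rw [Finset.sum_const, Int.card_Icc, nsmul_eq_mul, ← ENNReal.ofReal_natCast,
    ← ENNReal.ofReal_mul (Nat.cast_nonneg _)]
  apply ENNReal.ofReal_le_ofReal
  have hcard : (((K : ℤ) + 1 - -(K : ℤ)).toNat : ℝ) = 2 * K + 1 := by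
    have : (((K : ℤ) + 1 - -(K : ℤ)).toNat) = 2 * K + 1 := by omega
    rw [this]
    push_cast
    ring
  rw [hcard]
  have h9 : q * (2 * (K : ℝ) + 1) ≤ 9 := by
    have e : q * (2 / q) = 2 := by field_simp
    have h3 : q * K ≤ q * (2 / q + 3 / 2) := by gcongr
    linarith only [hq1, e, h3]
  calc (2 * (K : ℝ) + 1) * (C * (2 * (q * δ)) ^ 2)
      = (q * (2 * (K : ℝ) + 1)) * (4 * C * q * δ ^ 2) := by ring
    _ ≤ 9 * (4 * C * q * δ ^ 2) := by
        apply mul_le_mul_of_nonneg_right h9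
        positivity
    _ = 36 * C * q * δ ^ 2 := by ring

end

end NC

end QE


end

section

/-!
# Closed surfaces of negative curvature: the growth lemma (NC_GROW)

Approximate solutions of `X' = Y`, `Y' = K X` with `0 < k₀ ≤ K ≤ k₁`: `X Y` increases, and
`X² + Y²` grows exponentially once `X Y ≥ 0`.
-/

open Set Real

namespace QE

namespace NC

/-- `X' = Y`, `Y' = K X` up to an error `e (|X| + |Y|)` on `[0, T]`, `k₀ ≤ K ≤ k₁`. -/
structure GrowSys (k₀ k₁ e T : ℝ) (X Y K : ℝ → ℝ) : Prop where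
  klo : ∀ t ∈ Icc (0 : ℝ) T, k₀ ≤ K t
  khi : ∀ t ∈ Icc (0 : ℝ) T, K t ≤ k₁
  der : ∀ t ∈ Icc (0 : ℝ) T, ∃ x' y' : ℝ, HasDerivAt X x' t ∧ HasDerivAt Y y' t ∧
    |x' - Y t| ≤ e * (|X t| + |Y t|) ∧ |y' - K t * X t| ≤ e * (|X t| + |Y t|)

namespace Grow

theorem mono_of_der {g : ℝ → ℝ} {T : ℝ}
    (h : ∀ t ∈ Icc (0 : ℝ) T, ∃ g' : ℝ, HasDerivAt g g' t ∧ 0 ≤ g') :
    MonotoneOn g (Icc 0 T) := by
  apply monotoneOn_of_deriv_nonneg (convex_Icc 0 T)
  · intro t ht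
    obtain ⟨g', hg, _⟩ := h t ht
    exact hg.continuousAt.continuousWithinAt
  · intro t ht
    obtain ⟨g', hg, _⟩ := h t (interior_subset ht)
    exact hg.differentiableAt.differentiableWithinAt
  · intro t ht
    obtain ⟨g', hg, h0⟩ := h t (interior_subset ht)
    rw [hg.deriv]
    exact h0

/-- smaller error -/
theorem weaken {k₀ k₁ e e' T : ℝ} {X Y K : ℝ → ℝ} (h : GrowSys k₀ k₁ e T X Y K) (he : e ≤ e') :
    GrowSys k₀ k₁ e' T X Y K := by
  refine ⟨h.klo, h.khi, ?_⟩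
  intro t ht
  obtain ⟨x', y', h1, h2, h3, h4⟩ := h.der t ht
  have h5 : e * (|X t| + |Y t|) ≤ e' * (|X t| + |Y t|) :=
    mul_le_mul_of_nonneg_right he (by positivity)
  exact ⟨x', y', h1, h2, h3.trans h5, h4.trans h5⟩

/-- a shift in time -/
theorem shift {k₀ k₁ e T : ℝ} {X Y K : ℝ → ℝ} (h : GrowSys k₀ k₁ e T X Y K) {s S : ℝ}
    (hs : 0 ≤ s) (hS : s + S ≤ T) :
    GrowSys k₀ k₁ e S (fun t => X (s + t)) (fun t => Y (s + t)) (fun t => K (s + t)) := by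
  have hm : ∀ t ∈ Icc (0 : ℝ) S, s + t ∈ Icc (0 : ℝ) T := by
    intro t ht
    exact ⟨by linarith [ht.1], by linarith [ht.2]⟩
  refine ⟨fun t ht => h.klo _ (hm t ht), fun t ht => h.khi _ (hm t ht), ?_⟩
  intro t ht
  obtain ⟨x', y', h1, h2, h3, h4⟩ := h.der (s + t) (hm t ht)
  refine ⟨x', y', ?_, ?_, h3, h4⟩
  · exact HasDerivAt.comp_const_add s t h1
  · exact HasDerivAt.comp_const_add s t h2

/-- reversal of time -/
theorem reverse {k₀ k₁ e T : ℝ} {X Y K : ℝ → ℝ} (h : GrowSys k₀ k₁ e T X Y K) :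
    GrowSys k₀ k₁ e T (fun t => X (T - t)) (fun t => -Y (T - t)) (fun t => K (T - t)) := by
  have hm : ∀ t ∈ Icc (0 : ℝ) T, T - t ∈ Icc (0 : ℝ) T := by
    intro t ht
    exact ⟨by linarith [ht.2], by linarith [ht.1]⟩
  refine ⟨fun t ht => h.klo _ (hm t ht), fun t ht => h.khi _ (hm t ht), ?_⟩
  intro t ht
  obtain ⟨x', y', h1, h2, h3, h4⟩ := h.der (T - t) (hm t ht)
  refine ⟨-x', y', ?_, ?_, ?_, ?_⟩
  · exact HasDerivAt.comp_const_sub T t h1
  · have h5 := (HasDerivAt.comp_const_sub T t h2).neg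
    rw [neg_neg] at h5
    exact h5
  · rw [abs_neg]
    have h6 : -x' - -Y (T - t) = -(x' - Y (T - t)) := by ring
    rw [h6, abs_neg]
    exact h3
  · rw [abs_neg]
    exact h4

/-- the derivative of `X Y` -/
theorem der_f {k₀ k₁ e T : ℝ} {X Y K : ℝ → ℝ} (h : GrowSys k₀ k₁ e T X Y K) (he : 0 ≤ e)
    {m : ℝ} (hm1 : m ≤ 1) (hm2 : m ≤ k₀) (hm3 : 4 * e ≤ m) :
    ∀ t ∈ Icc (0 : ℝ) T, ∃ f' : ℝ, HasDerivAt (fun s => X s * Y s) f' t ∧
      m / 2 * (X t ^ 2 + Y t ^ 2) ≤ f' := by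
  intro t ht
  obtain ⟨x', y', h1, h2, h3, h4⟩ := h.der t ht
  refine ⟨x' * Y t + X t * y', h1.mul h2, ?_⟩
  have hk := h.klo t ht
  set a := |X t| with ha
  set b := |Y t| with hb
  have ha0 : 0 ≤ a := abs_nonneg _
  have hb0 : 0 ≤ b := abs_nonneg _
  have ha2 : a ^ 2 = X t ^ 2 := sq_abs _
  have hb2 : b ^ 2 = Y t ^ 2 := sq_abs _
  have e1 : -(e * (a + b) * b) ≤ (x' - Y t) * Y t := by
    have : |(x' - Y t) * Y t| ≤ e * (a + b) * b := by
      rw [abs_mul]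
      exact mul_le_mul_of_nonneg_right h3 hb0
    exact (abs_le.mp this).1
  have e2 : -(e * (a + b) * a) ≤ X t * (y' - K t * X t) := by
    have : |X t * (y' - K t * X t)| ≤ e * (a + b) * a := by
      rw [abs_mul, mul_comm]
      exact mul_le_mul_of_nonneg_right h4 ha0
    exact (abs_le.mp this).1
  have e3 : x' * Y t + X t * y' = Y t ^ 2 + K t * X t ^ 2 + (x' - Y t) * Y t
      + X t * (y' - K t * X t) := by ring
  have e4 : e * (a + b) * b + e * (a + b) * a ≤ 2 * e * (X t ^ 2 + Y t ^ 2) := by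
    rw [← ha2, ← hb2]
    linarith only [mul_nonneg he (sq_nonneg (a - b))]
  have e5 : m * X t ^ 2 ≤ K t * X t ^ 2 :=
    mul_le_mul_of_nonneg_right (hm2.trans hk) (sq_nonneg _)
  have e6 : m * Y t ^ 2 ≤ Y t ^ 2 := by nlinarith only [hm1]
  have e7 : 2 * e * (X t ^ 2 + Y t ^ 2) ≤ m / 2 * (X t ^ 2 + Y t ^ 2) :=
    mul_le_mul_of_nonneg_right (by linarith only [hm3]) (by positivity)
  rw [e3]
  linarith

/-- the derivative of `X² + Y²` -/
theorem der_E {k₀ k₁ e T : ℝ} {X Y K : ℝ → ℝ} (h : GrowSys k₀ k₁ e T X Y K) (he : 0 ≤ e)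
    (hk0 : 0 ≤ k₀) {C : ℝ} (hC : 1 + k₁ + 4 * e ≤ C) :
    ∀ t ∈ Icc (0 : ℝ) T, ∃ f' : ℝ, HasDerivAt (fun s => X s ^ 2 + Y s ^ 2) f' t ∧
      |f'| ≤ C * (X t ^ 2 + Y t ^ 2) := by
  intro t ht
  obtain ⟨x', y', h1, h2, h3, h4⟩ := h.der t ht
  refine ⟨2 * X t * x' + 2 * Y t * y', ?_, ?_⟩
  · have h5 : HasDerivAt (fun s => X s ^ 2 + Y s ^ 2) _ t := (h1.pow 2).add (h2.pow 2)
    convert h5 using 1
    push_cast
    ring
  have hk := h.klo t ht
  have hk' := h.khi t ht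
  set a := |X t| with ha
  set b := |Y t| with hb
  have ha0 : 0 ≤ a := abs_nonneg _
  have hb0 : 0 ≤ b := abs_nonneg _
  have ha2 : a ^ 2 = X t ^ 2 := sq_abs _
  have hb2 : b ^ 2 = Y t ^ 2 := sq_abs _
  have e1 : |X t * (x' - Y t)| ≤ e * (a + b) * a := by
    rw [abs_mul, mul_comm]
    exact mul_le_mul_of_nonneg_right h3 ha0
  have e2 : |Y t * (y' - K t * X t)| ≤ e * (a + b) * b := by
    rw [abs_mul, mul_comm]
    exact mul_le_mul_of_nonneg_right h4 hb0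
  have e3 : 2 * X t * x' + 2 * Y t * y' = 2 * (X t * (x' - Y t)) + 2 * (Y t * (y' - K t * X t))
      + 2 * (1 + K t) * (X t * Y t) := by ring
  have e4 : |2 * (1 + K t) * (X t * Y t)| ≤ (1 + k₁) * (X t ^ 2 + Y t ^ 2) := by
    rw [abs_mul, abs_mul (X t), abs_of_nonneg (by linarith : (0 : ℝ) ≤ 2 * (1 + K t)), ← ha2, ← hb2]
    have : 2 * (1 + K t) * (a * b) ≤ 2 * (1 + k₁) * (a * b) :=
      mul_le_mul_of_nonneg_right (by linarith) (by (clear * -; positivity))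
    have h1k : 0 ≤ 1 + k₁ := by linarith
    linarith only [this, mul_nonneg h1k (sq_nonneg (a - b))]
  have e5 : 2 * (e * (a + b) * a) + 2 * (e * (a + b) * b) ≤ 4 * e * (X t ^ 2 + Y t ^ 2) := by
    rw [← ha2, ← hb2]
    nlinarith [mul_nonneg he (sq_nonneg (a - b))]
  have e6 : (1 + k₁ + 4 * e) * (X t ^ 2 + Y t ^ 2) ≤ C * (X t ^ 2 + Y t ^ 2) :=
    mul_le_mul_of_nonneg_right hC (by (clear * -; positivity))
  rw [e3]
  calc |2 * (X t * (x' - Y t)) + 2 * (Y t * (y' - K t * X t)) + 2 * (1 + K t) * (X t * Y t)|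
      ≤ |2 * (X t * (x' - Y t))| + |2 * (Y t * (y' - K t * X t))|
        + |2 * (1 + K t) * (X t * Y t)| := by
        refine (abs_add_le _ _).trans ?_
        have := abs_add_le (2 * (X t * (x' - Y t))) (2 * (Y t * (y' - K t * X t)))
        linarith
    _ ≤ C * (X t ^ 2 + Y t ^ 2) := by
        rw [abs_mul 2 (X t * (x' - Y t)), abs_mul 2 (Y t * (y' - K t * X t)), abs_two]
        linarith

/-- the two-sided exponential bound for `X² + Y²` -/
theorem E_bound {k₀ k₁ e T : ℝ} {X Y K : ℝ → ℝ} (h : GrowSys k₀ k₁ e T X Y K) (he : 0 ≤ e)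
    (hk0 : 0 ≤ k₀) {C : ℝ} (hC : 1 + k₁ + 4 * e ≤ C) {t : ℝ} (ht : t ∈ Icc (0 : ℝ) T) :
    exp (-(C * t)) * (X 0 ^ 2 + Y 0 ^ 2) ≤ X t ^ 2 + Y t ^ 2 ∧
      X t ^ 2 + Y t ^ 2 ≤ exp (C * t) * (X 0 ^ 2 + Y 0 ^ 2) := by
  have hT : 0 ≤ T := ht.1.trans ht.2
  have h0 : (0 : ℝ) ∈ Icc (0 : ℝ) T := ⟨le_rfl, hT⟩
  have hder := der_E h he hk0 hC
  constructor
  · have hm : MonotoneOn (fun s => exp (C * s) * (X s ^ 2 + Y s ^ 2)) (Icc 0 T) := by
      apply mono_of_der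
      intro s hs
      obtain ⟨f', h1, h2⟩ := hder s hs
      have h3 : HasDerivAt (fun s : ℝ => exp (C * s)) (exp (C * s) * C) s := by
        have := ((hasDerivAt_id s).const_mul C).exp
        simpa using this
      refine ⟨_, h3.mul h1, ?_⟩
      have h4 := (abs_le.mp h2).1
      have h5 : 0 < exp (C * s) := exp_pos _
      have h6 : 0 ≤ exp (C * s) * (C * (X s ^ 2 + Y s ^ 2) + f') :=
        mul_nonneg h5.le (by linarith)
      linarith
    have h1 := hm h0 ht ht.1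
    simp only [mul_zero, exp_zero, one_mul] at h1
    have h2 : exp (-(C * t)) * (X 0 ^ 2 + Y 0 ^ 2)
        ≤ exp (-(C * t)) * (exp (C * t) * (X t ^ 2 + Y t ^ 2)) :=
      mul_le_mul_of_nonneg_left h1 (exp_pos _).le
    rw [← mul_assoc, ← exp_add, neg_add_cancel, exp_zero, one_mul] at h2
    exact h2
  · have hm : MonotoneOn (fun s => -(exp (-(C * s)) * (X s ^ 2 + Y s ^ 2))) (Icc 0 T) := by
      apply mono_of_der
      intro s hs
      obtain ⟨f', h1, h2⟩ := hder s hs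
      have h3 : HasDerivAt (fun s : ℝ => exp (-(C * s))) (exp (-(C * s)) * (-C)) s := by
        have := (((hasDerivAt_id s).const_mul C).neg).exp
        simpa using this
      refine ⟨_, (h3.mul h1).neg, ?_⟩
      have h4 := (abs_le.mp h2).2
      have h5 : 0 < exp (-(C * s)) := exp_pos _
      have h6 : 0 ≤ exp (-(C * s)) * (C * (X s ^ 2 + Y s ^ 2) - f') :=
        mul_nonneg h5.le (by linarith)
      linarith
    have h1 := hm h0 ht ht.1
    simp only [mul_zero, exp_zero, one_mul, neg_zero] at h1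
    have h1' : exp (-(C * t)) * (X t ^ 2 + Y t ^ 2) ≤ X 0 ^ 2 + Y 0 ^ 2 := by linarith
    have h2 : exp (C * t) * (exp (-(C * t)) * (X t ^ 2 + Y t ^ 2))
        ≤ exp (C * t) * (X 0 ^ 2 + Y 0 ^ 2) :=
      mul_le_mul_of_nonneg_left h1' (exp_pos _).le
    rw [← mul_assoc, ← exp_add, add_neg_cancel, exp_zero, one_mul] at h2
    exact h2

/-- `X Y` is monotone -/
theorem f_mono {k₀ k₁ e T : ℝ} {X Y K : ℝ → ℝ} (h : GrowSys k₀ k₁ e T X Y K) (he : 0 ≤ e)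
    {m : ℝ} (hm0 : 0 ≤ m) (hm1 : m ≤ 1) (hm2 : m ≤ k₀) (hm3 : 4 * e ≤ m) :
    MonotoneOn (fun s => X s * Y s) (Icc 0 T) := by
  apply mono_of_der
  intro s hs
  obtain ⟨f', h1, h2⟩ := der_f h he hm1 hm2 hm3 s hs
  exact ⟨f', h1, le_trans (by (clear * - hm0; positivity)) h2⟩

/-- exponential growth of `X Y` once it is nonnegative -/
theorem f_exp {k₀ k₁ e T : ℝ} {X Y K : ℝ → ℝ} (h : GrowSys k₀ k₁ e T X Y K) (he : 0 ≤ e)
    {m : ℝ} (hm0 : 0 ≤ m) (hm1 : m ≤ 1) (hm2 : m ≤ k₀) (hm3 : 4 * e ≤ m)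
    {t : ℝ} (ht : t ∈ Icc (0 : ℝ) T) : exp (m * t) * (X 0 * Y 0) ≤ X t * Y t := by
  have hT : 0 ≤ T := ht.1.trans ht.2
  have h0 : (0 : ℝ) ∈ Icc (0 : ℝ) T := ⟨le_rfl, hT⟩
  have hm : MonotoneOn (fun s => exp (-(m * s)) * (X s * Y s)) (Icc 0 T) := by
    apply mono_of_der
    intro s hs
    obtain ⟨f', h1, h2⟩ := der_f h he hm1 hm2 hm3 s hs
    have h3 : HasDerivAt (fun s : ℝ => exp (-(m * s))) (exp (-(m * s)) * (-m)) s := by
      have := (((hasDerivAt_id s).const_mul m).neg).exp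
      simpa using this
    refine ⟨_, h3.mul h1, ?_⟩
    have h5 : 0 < exp (-(m * s)) := exp_pos _
    have h7 : m * (X s * Y s) ≤ m / 2 * (X s ^ 2 + Y s ^ 2) := by
      nlinarith [mul_nonneg hm0 (sq_nonneg (X s - Y s))]
    have h6 : 0 ≤ exp (-(m * s)) * (f' - m * (X s * Y s)) :=
      mul_nonneg h5.le (by linarith)
    linarith
  have h1 := hm h0 ht ht.1
  simp only [mul_zero, exp_zero, one_mul, neg_zero] at h1
  have h2 : exp (m * t) * (X 0 * Y 0) ≤ exp (m * t) * (exp (-(m * t)) * (X t * Y t)) :=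
    mul_le_mul_of_nonneg_left h1 (exp_pos _).le
  rw [← mul_assoc (exp (m * t)) (exp (-(m * t))), ← exp_add, add_neg_cancel, exp_zero,
    one_mul] at h2
  exact h2

/-- the gain in `X Y` after time one -/
theorem f_one {k₀ k₁ e T : ℝ} {X Y K : ℝ → ℝ} (h : GrowSys k₀ k₁ e T X Y K) (he : 0 ≤ e)
    (hk0 : 0 ≤ k₀) {C : ℝ} (hC0 : 0 ≤ C) (hC : 1 + k₁ + 4 * e ≤ C)
    {m : ℝ} (hm0 : 0 ≤ m) (hm1 : m ≤ 1) (hm2 : m ≤ k₀) (hm3 : 4 * e ≤ m) (hT : 1 ≤ T)
    (hf : 0 ≤ X 0 * Y 0) : m / 2 * exp (-C) * (X 0 ^ 2 + Y 0 ^ 2) ≤ X 1 * Y 1 := by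
  have h' : GrowSys k₀ k₁ e 1 X Y K := by
    have hm : ∀ t ∈ Icc (0 : ℝ) 1, t ∈ Icc (0 : ℝ) T := fun t ht => ⟨ht.1, ht.2.trans hT⟩
    exact ⟨fun t ht => h.klo t (hm t ht), fun t ht => h.khi t (hm t ht),
      fun t ht => h.der t (hm t ht)⟩
  have hmn : MonotoneOn (fun s => X s * Y s - m / 2 * exp (-C) * (X 0 ^ 2 + Y 0 ^ 2) * s)
      (Icc 0 1) := by
    apply mono_of_der
    intro s hs
    obtain ⟨f', h1, h2⟩ := der_f h' he hm1 hm2 hm3 s hs
    have h3 : HasDerivAt (fun s : ℝ => m / 2 * exp (-C) * (X 0 ^ 2 + Y 0 ^ 2) * s)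
        (m / 2 * exp (-C) * (X 0 ^ 2 + Y 0 ^ 2)) s := by
      have := (hasDerivAt_id s).const_mul (m / 2 * exp (-C) * (X 0 ^ 2 + Y 0 ^ 2))
      simpa using this
    refine ⟨_, h1.sub h3, ?_⟩
    have h4 := (E_bound h' he hk0 hC hs).1
    have h5 : exp (-C) ≤ exp (-(C * s)) := by
      apply exp_le_exp.mpr
      nlinarith only [hC0, hs.2]
    have h6 : exp (-C) * (X 0 ^ 2 + Y 0 ^ 2) ≤ exp (-(C * s)) * (X 0 ^ 2 + Y 0 ^ 2) :=
      mul_le_mul_of_nonneg_right h5 (by positivity)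
    have h7 : m / 2 * (exp (-C) * (X 0 ^ 2 + Y 0 ^ 2)) ≤ m / 2 * (X s ^ 2 + Y s ^ 2) :=
      mul_le_mul_of_nonneg_left (h6.trans h4) (by linarith)
    linarith
  have h1 := hmn (⟨le_rfl, zero_le_one⟩ : (0 : ℝ) ∈ Icc (0 : ℝ) 1)
    (⟨zero_le_one, le_rfl⟩ : (1 : ℝ) ∈ Icc (0 : ℝ) 1) zero_le_one
  simp only [mul_zero, sub_zero, mul_one] at h1
  linarith

/-- forward growth -/
theorem fwd {k₀ k₁ e T : ℝ} {X Y K : ℝ → ℝ} (h : GrowSys k₀ k₁ e T X Y K) (he : 0 ≤ e)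
    (hk0 : 0 ≤ k₀) {C : ℝ} (hC0 : 0 ≤ C) (hC : 1 + k₁ + 4 * e ≤ C)
    {m : ℝ} (hm0 : 0 < m) (hm1 : m ≤ 1) (hm2 : m ≤ k₀) (hm3 : 4 * e ≤ m)
    (hf : 0 ≤ X 0 * Y 0) :
    (∀ t ∈ Icc (0 : ℝ) T, 0 ≤ X t * Y t ∧
      m / 4 * exp (-(2 * C) - m) * exp (m * t) * (X 0 ^ 2 + Y 0 ^ 2) ≤ X t ^ 2 + Y t ^ 2) ∧
    ∀ t ∈ Icc (1 : ℝ) T, m / 4 * exp (-(2 * C) - m) * (|X t| + |Y t|) ≤ |X t| := by
  have hfn : ∀ t ∈ Icc (0 : ℝ) T, 0 ≤ X t * Y t := by
    intro t ht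
    have hT : 0 ≤ T := ht.1.trans ht.2
    exact hf.trans (f_mono h he hm0.le hm1 hm2 hm3 ⟨le_rfl, hT⟩ ht ht.1)
  constructor
  · intro t ht
    refine ⟨hfn t ht, ?_⟩
    set E0 := X 0 ^ 2 + Y 0 ^ 2 with hE0
    have hE0n : 0 ≤ E0 := by positivity
    rcases le_or_gt t 1 with h1 | h1
    · have h2 := (E_bound h he hk0 hC ht).1
      have h3 : m / 4 * exp (-(2 * C) - m) * exp (m * t) ≤ exp (-(C * t)) := by
        have h4 : exp (-(2 * C) - m) * exp (m * t) ≤ exp (-(C * t)) := by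
          rw [← exp_add]
          apply exp_le_exp.mpr
          linarith only [mul_nonneg hC0 (by linarith [ht.1] : (0 : ℝ) ≤ 2 - t), mul_nonneg hm0.le (by linarith : (0 : ℝ) ≤ 1 - t)]
        have h5 : 0 ≤ exp (-(2 * C) - m) * exp (m * t) := by positivity
        calc m / 4 * exp (-(2 * C) - m) * exp (m * t)
            = m / 4 * (exp (-(2 * C) - m) * exp (m * t)) := by ring
          _ ≤ 1 * (exp (-(2 * C) - m) * exp (m * t)) :=
              mul_le_mul_of_nonneg_right (by linarith) h5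
          _ ≤ exp (-(C * t)) := by rw [one_mul]; exact h4
      exact (mul_le_mul_of_nonneg_right h3 hE0n).trans h2
    · have hT1 : 1 ≤ T := h1.le.trans ht.2
      have h2 := f_one h he hk0 hC0 hC hm0.le hm1 hm2 hm3 hT1 hf
      have h3 := f_exp (shift h (s := 1) (S := T - 1) zero_le_one (by linarith)) he hm0.le hm1 hm2
        hm3 (t := t - 1) ⟨by linarith, by linarith [ht.2]⟩
      simp only [add_zero, add_sub_cancel] at h3
      have h4 : exp (m * (t - 1)) * (m / 2 * exp (-C) * E0) ≤ X t * Y t :=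
        (mul_le_mul_of_nonneg_left h2 (exp_pos _).le).trans h3
      have h5 : 2 * (X t * Y t) ≤ X t ^ 2 + Y t ^ 2 := by linarith only [sq_nonneg (X t - Y t)]
      have h6 : exp (-(2 * C) - m) * exp (m * t) ≤ exp (m * (t - 1)) * exp (-C) := by
        rw [← exp_add, ← exp_add]
        apply exp_le_exp.mpr
        linarith only [hC0]
      have h7 : m / 4 * (exp (-(2 * C) - m) * exp (m * t)) * E0
          ≤ m * (exp (m * (t - 1)) * exp (-C)) * E0 := by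
        apply mul_le_mul_of_nonneg_right _ hE0n
        have h8 : m * (exp (-(2 * C) - m) * exp (m * t)) ≤ m * (exp (m * (t - 1)) * exp (-C)) :=
          mul_le_mul_of_nonneg_left h6 hm0.le
        have h9 : 0 ≤ m * (exp (-(2 * C) - m) * exp (m * t)) := by positivity
        linarith
      linarith only [h4, h5, h7]
  · intro t ht
    have ht0 : t ∈ Icc (0 : ℝ) T := ⟨zero_le_one.trans ht.1, ht.2⟩
    have hs0 : t - 1 ∈ Icc (0 : ℝ) T := ⟨by linarith [ht.1], by linarith [ht.2]⟩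
    have hsh := shift h (s := t - 1) (S := 1) (by linarith [ht.1]) (by linarith [ht.2])
    have h2 := f_one hsh he hk0 hC0 hC hm0.le hm1 hm2 hm3 le_rfl (by
      simpa using hfn _ hs0)
    have h3 := (E_bound hsh he hk0 hC (t := 1) ⟨zero_le_one, le_rfl⟩).2
    simp only [add_zero, sub_add_cancel, mul_one] at h2 h3
    -- `X t Y t ≥ (m/2) e^{-2C} E t`
    have h4 : m / 2 * exp (-(2 * C)) * (X t ^ 2 + Y t ^ 2) ≤ X t * Y t := by
      refine le_trans ?_ h2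
      have h5 : exp (-(2 * C)) * (X t ^ 2 + Y t ^ 2)
          ≤ exp (-(2 * C)) * (exp C * (X (t - 1) ^ 2 + Y (t - 1) ^ 2)) :=
        mul_le_mul_of_nonneg_left h3 (exp_pos _).le
      have h6 : exp (-(2 * C)) * (exp C * (X (t - 1) ^ 2 + Y (t - 1) ^ 2))
          = exp (-C) * (X (t - 1) ^ 2 + Y (t - 1) ^ 2) := by
        rw [← mul_assoc, ← exp_add]
        congr 2
        ring
      rw [h6] at h5
      have h7 := mul_le_mul_of_nonneg_left h5 (by linarith : (0 : ℝ) ≤ m / 2)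
      linarith
    set a := |X t| with ha
    set b := |Y t| with hb
    have ha0 : 0 ≤ a := abs_nonneg _
    have hb0 : 0 ≤ b := abs_nonneg _
    have ha2 : a ^ 2 = X t ^ 2 := sq_abs _
    have hb2 : b ^ 2 = Y t ^ 2 := sq_abs _
    have hab : X t * Y t ≤ a * b := by
      rw [ha, hb, ← abs_mul]
      exact le_abs_self _
    rw [← ha2, ← hb2] at h4
    set c' := m / 2 * exp (-(2 * C)) with hc'
    have hc'0 : 0 < c' := by positivity
    have hc'1 : c' ≤ 1 := by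
      have : exp (-(2 * C)) ≤ 1 := by
        rw [exp_le_one_iff]
        linarith
      nlinarith only [hm1, hc', hm0, this]
    have h5 : c' * b ≤ a := by
      rcases hb0.lt_or_eq with h6 | h6
      · have h7 : c' * b * b ≤ a * b := by linarith only [hab, h4, mul_nonneg hc'0.le (sq_nonneg a)]
        exact le_of_mul_le_mul_right h7 h6
      · rw [← h6]
        simpa using ha0
    have h6 : m / 4 * exp (-(2 * C) - m) ≤ c' / 2 := by
      have h7 : exp (-(2 * C) - m) ≤ exp (-(2 * C)) := exp_le_exp.mpr (by linarith)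
      have h8 := mul_le_mul_of_nonneg_left h7 (by linarith : (0 : ℝ) ≤ m / 4)
      rw [hc']
      linarith
    calc m / 4 * exp (-(2 * C) - m) * (a + b) ≤ c' / 2 * (a + b) :=
          mul_le_mul_of_nonneg_right h6 (by positivity)
      _ ≤ a := by nlinarith only [h5, ha0, hc'1]

end Grow

/-- **NC_GROW**: growth of approximate solutions of `X' = Y`, `Y' = K X`. -/
theorem grow (k₀ k₁ : ℝ) (hk₀ : 0 < k₀) :
    ∃ e₀ c₁ c₂ C : ℝ, 0 < e₀ ∧ 0 < c₁ ∧ 0 < c₂ ∧ c₂ ≤ 1 ∧ 0 ≤ C ∧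
      ∀ (T : ℝ) (X Y K : ℝ → ℝ), GrowSys k₀ k₁ e₀ T X Y K →
        (∀ t ∈ Icc (0 : ℝ) T, exp (-(C * t)) * (X 0 ^ 2 + Y 0 ^ 2) ≤ X t ^ 2 + Y t ^ 2 ∧
          X t ^ 2 + Y t ^ 2 ≤ exp (C * t) * (X 0 ^ 2 + Y 0 ^ 2)) ∧
        (0 ≤ X 0 * Y 0 →
          (∀ t ∈ Icc (0 : ℝ) T, 0 ≤ X t * Y t ∧
            c₂ * exp (c₁ * t) * (X 0 ^ 2 + Y 0 ^ 2) ≤ X t ^ 2 + Y t ^ 2) ∧
          ∀ t ∈ Icc (1 : ℝ) T, c₂ * (|X t| + |Y t|) ≤ |X t|) ∧
        (X T * Y T ≤ 0 →
          (∀ t ∈ Icc (0 : ℝ) T, X t * Y t ≤ 0 ∧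
            c₂ * exp (c₁ * (T - t)) * (X T ^ 2 + Y T ^ 2) ≤ X t ^ 2 + Y t ^ 2) ∧
          ∀ t ∈ Icc (0 : ℝ) (T - 1), c₂ * (|X t| + |Y t|) ≤ |X t|) ∧
        (∀ s t : ℝ, 0 ≤ s → s ≤ t → t ≤ T → X s * Y s ≤ X t * Y t) := by
  set m := min 1 k₀ with hm
  have hm0 : 0 < m := lt_min one_pos hk₀
  have hm1 : m ≤ 1 := min_le_left _ _
  have hm2 : m ≤ k₀ := min_le_right _ _
  set e := m / 4 with he
  have he0 : 0 < e := by positivity
  have hm3 : 4 * e ≤ m := by rw [he]; linarith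
  set C := max 0 (1 + k₁ + 4 * e) with hC
  have hC0 : 0 ≤ C := le_max_left _ _
  have hC1 : 1 + k₁ + 4 * e ≤ C := le_max_right _ _
  refine ⟨e, m, m / 4 * exp (-(2 * C) - m), C, he0, hm0, by positivity, ?_, hC0, ?_⟩
  · have h1 : exp (-(2 * C) - m) ≤ 1 := by
      rw [exp_le_one_iff]
      linarith
    have h2 := mul_le_mul_of_nonneg_left h1 (by linarith : (0 : ℝ) ≤ m / 4)
    linarith only [hm1, h2]
  intro T X Y K h
  refine ⟨fun t ht => Grow.E_bound h he0.le hk₀.le hC1 ht,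
    fun hf => Grow.fwd h he0.le hk₀.le hC0 hC1 hm0 hm1 hm2 hm3 hf, ?_, ?_⟩
  · intro hf
    have hr := Grow.fwd (Grow.reverse h) he0.le hk₀.le hC0 hC1 hm0 hm1 hm2 hm3 (by
      simp only [sub_zero]
      linarith only [hf])
    constructor
    · intro t ht
      have h1 := hr.1 (T - t) ⟨by linarith [ht.2], by linarith [ht.1]⟩
      simp only [sub_zero, sub_sub_cancel, neg_sq] at h1
      exact ⟨by linarith only [h1], h1.2⟩
    · intro t ht
      have h1 := hr.2 (T - t) ⟨by linarith [ht.2], by linarith [ht.1]⟩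
      simp only [sub_sub_cancel, abs_neg] at h1
      exact h1
  · intro s t hs hst htT
    exact Grow.f_mono h he0.le hm0.le hm1 hm2 hm3 ⟨hs, hst.trans htT⟩ ⟨hs.trans hst, htT⟩ hst

end NC

end QE


end

section

/-!
# Closed surfaces of negative curvature: the covering (module NCV_COVER)
-/

open MeasureTheory Filter Topology Set
open UpperHalfPlane hiding I
open scoped ContDiff MatrixGroups ENNReal

namespace QE

namespace NC

noncomputable section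

/-- the derivative of `X² + Y² + ε²` -/
theorem cv_der {X Y κ : ℝ → ℝ} {k₁ ε t x' y' : ℝ} (hk₁ : 0 ≤ k₁) (hκ : |κ t| ≤ k₁)
    (hx : HasDerivAt X x' t) (hy : HasDerivAt Y y' t) (h1 : |x' - Y t| ≤ ε)
    (h2 : |y' - κ t * X t| ≤ ε) :
    ∃ g' : ℝ, HasDerivAt (fun s => X s ^ 2 + Y s ^ 2 + ε ^ 2) g' t ∧
      |g'| ≤ (2 + k₁) * (X t ^ 2 + Y t ^ 2 + ε ^ 2) := by
  refine ⟨2 * X t * x' + 2 * Y t * y', ?_, ?_⟩
  · have h5 : HasDerivAt (fun s => X s ^ 2 + Y s ^ 2 + ε ^ 2) _ t :=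
      ((hx.pow 2).add (hy.pow 2)).add_const (ε ^ 2)
    convert h5 using 1
    push_cast
    ring
  have hε : 0 ≤ ε := (abs_nonneg _).trans h1
  set a := |X t| with ha
  set b := |Y t| with hb
  have ha0 : 0 ≤ a := abs_nonneg _
  have hb0 : 0 ≤ b := abs_nonneg _
  have ha2 : a ^ 2 = X t ^ 2 := sq_abs _
  have hb2 : b ^ 2 = Y t ^ 2 := sq_abs _
  have e1 : |X t * (x' - Y t)| ≤ a * ε := by
    rw [abs_mul]; exact mul_le_mul_of_nonneg_left h1 ha0
  have e2 : |Y t * (y' - κ t * X t)| ≤ b * ε := by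
    rw [abs_mul]; exact mul_le_mul_of_nonneg_left h2 hb0
  have e3 : 2 * X t * x' + 2 * Y t * y' = 2 * (X t * (x' - Y t)) + 2 * (Y t * (y' - κ t * X t))
      + 2 * (1 + κ t) * (X t * Y t) := by ring
  have e4 : |2 * (1 + κ t) * (X t * Y t)| ≤ (1 + k₁) * (a ^ 2 + b ^ 2) := by
    rw [abs_mul, abs_mul (X t), abs_mul, abs_two]
    have h3 : |1 + κ t| ≤ 1 + k₁ := by
      refine (abs_add_le _ _).trans ?_
      rw [abs_one]; linarith
    have h4 : 2 * |1 + κ t| * (a * b) ≤ 2 * (1 + k₁) * (a * b) := by gcongr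
    have h5 : 0 ≤ 1 + k₁ := by linarith
    linarith only [h4, mul_nonneg h5 (sq_nonneg (a - b))]
  rw [e3, ← ha2, ← hb2]
  have e5 := abs_add_le (2 * (X t * (x' - Y t)) + 2 * (Y t * (y' - κ t * X t)))
    (2 * (1 + κ t) * (X t * Y t))
  have e6 := abs_add_le (2 * (X t * (x' - Y t))) (2 * (Y t * (y' - κ t * X t)))
  rw [abs_mul 2 (X t * (x' - Y t)), abs_mul 2 (Y t * (y' - κ t * X t)), abs_two] at e6
  linarith only [e1, e2, e4, e5, e6, sq_nonneg (a - ε), sq_nonneg (b - ε), mul_nonneg hk₁ (sq_nonneg ε)]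

/-- lower bound for `X² + Y² + ε²` -/
theorem cv_low {X Y κ : ℝ → ℝ} {k₁ ε R : ℝ} (hk₁ : 0 ≤ k₁) (hκ : ∀ t, |κ t| ≤ k₁)
    (h : ∀ t, |t| ≤ R → ∃ x' y' : ℝ, HasDerivAt X x' t ∧ HasDerivAt Y y' t ∧
      |x' - Y t| ≤ ε ∧ |y' - κ t * X t| ≤ ε) {s t : ℝ} (hs : |s| ≤ R) (ht : |t| ≤ R) :
    Real.exp (-((2 + k₁) * (2 * R))) * (X s ^ 2 + Y s ^ 2 + ε ^ 2) ≤
      X t ^ 2 + Y t ^ 2 + ε ^ 2 := by
  set M := 2 + k₁ with hM
  have hM0 : 0 < M := by positivity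
  set g : ℝ → ℝ := fun u => X u ^ 2 + Y u ^ 2 + ε ^ 2 with hg
  have hg0 : ∀ u, 0 ≤ g u := fun u => by simp only [hg]; positivity
  have hder : ∀ u ∈ Icc (-R) R, ∃ g' : ℝ, HasDerivAt g g' u ∧ |g'| ≤ M * g u := by
    intro u hu
    obtain ⟨x', y', h1, h2, h3, h4⟩ := h u (abs_le.2 hu)
    exact cv_der hk₁ (hκ u) h1 h2 h3 h4
  have hm1 : MonotoneOn (fun u => Real.exp (M * u) * g u) (Icc (-R) R) := by
    have hd : ∀ u ∈ Icc (-R) R, ∃ p : ℝ, HasDerivAt (fun u => Real.exp (M * u) * g u) p u ∧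
        0 ≤ p := by
      intro u hu
      obtain ⟨g', h1, h2⟩ := hder u hu
      have h3 : HasDerivAt (fun s : ℝ => Real.exp (M * s)) (Real.exp (M * u) * M) u := by
        have := ((hasDerivAt_id u).const_mul M).exp
        simpa using this
      refine ⟨_, h3.mul h1, ?_⟩
      have h4 := (abs_le.mp h2).1
      have h6 : 0 ≤ Real.exp (M * u) * (M * g u + g') :=
        mul_nonneg (Real.exp_pos _).le (by linarith)
      linarith
    refine monotoneOn_of_deriv_nonneg (convex_Icc _ _) (fun u hu => ?_) (fun u hu => ?_)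
      (fun u hu => ?_)
    · obtain ⟨p, hp, -⟩ := hd u hu
      exact hp.continuousAt.continuousWithinAt
    · obtain ⟨p, hp, -⟩ := hd u (interior_subset hu)
      exact hp.differentiableAt.differentiableWithinAt
    · obtain ⟨p, hp, h0⟩ := hd u (interior_subset hu)
      rw [hp.deriv]
      exact h0
  have hm2 : MonotoneOn (fun u => -(Real.exp (-(M * u)) * g u)) (Icc (-R) R) := by
    have hd : ∀ u ∈ Icc (-R) R, ∃ p : ℝ, HasDerivAt (fun u => -(Real.exp (-(M * u)) * g u)) p u ∧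
        0 ≤ p := by
      intro u hu
      obtain ⟨g', h1, h2⟩ := hder u hu
      have h3 : HasDerivAt (fun s : ℝ => Real.exp (-(M * s))) (Real.exp (-(M * u)) * (-M)) u := by
        have := (((hasDerivAt_id u).const_mul M).neg).exp
        simpa using this
      refine ⟨_, (h3.mul h1).neg, ?_⟩
      have h4 := (abs_le.mp h2).2
      have h6 : 0 ≤ Real.exp (-(M * u)) * (M * g u - g') :=
        mul_nonneg (Real.exp_pos _).le (by linarith)
      linarith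
    refine monotoneOn_of_deriv_nonneg (convex_Icc _ _) (fun u hu => ?_) (fun u hu => ?_)
      (fun u hu => ?_)
    · obtain ⟨p, hp, -⟩ := hd u hu
      exact hp.continuousAt.continuousWithinAt
    · obtain ⟨p, hp, -⟩ := hd u (interior_subset hu)
      exact hp.differentiableAt.differentiableWithinAt
    · obtain ⟨p, hp, h0⟩ := hd u (interior_subset hu)
      rw [hp.deriv]
      exact h0
  have hs' := abs_le.1 hs
  have ht' := abs_le.1 ht
  show Real.exp (-(M * (2 * R))) * g s ≤ g t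
  rcases le_total s t with hst | hst
  · have h1 : Real.exp (M * s) * g s ≤ Real.exp (M * t) * g t := hm1 hs' ht' hst
    have h2 : Real.exp (-(M * (2 * R))) * g s ≤ Real.exp (-(M * t)) * (Real.exp (M * s) * g s) := by
      rw [← mul_assoc (Real.exp (-(M * t))), ← Real.exp_add]
      refine mul_le_mul_of_nonneg_right (Real.exp_le_exp.2 ?_) (hg0 s)
      nlinarith only [hs', ht', hk₁]
    have h3 : Real.exp (-(M * t)) * (Real.exp (M * s) * g s) ≤
        Real.exp (-(M * t)) * (Real.exp (M * t) * g t) :=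
      mul_le_mul_of_nonneg_left h1 (Real.exp_pos _).le
    rw [← mul_assoc (Real.exp (-(M * t))) (Real.exp (M * t)), ← Real.exp_add, neg_add_cancel,
      Real.exp_zero, one_mul] at h3
    exact h2.trans h3
  · have h1' : -(Real.exp (-(M * t)) * g t) ≤ -(Real.exp (-(M * s)) * g s) := hm2 ht' hs' hst
    have h1 : Real.exp (-(M * s)) * g s ≤ Real.exp (-(M * t)) * g t := by linarith
    have h2 : Real.exp (-(M * (2 * R))) * g s ≤ Real.exp (M * t) * (Real.exp (-(M * s)) * g s) := by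
      rw [← mul_assoc (Real.exp (M * t)), ← Real.exp_add]
      refine mul_le_mul_of_nonneg_right (Real.exp_le_exp.2 ?_) (hg0 s)
      nlinarith only [hs', ht', hk₁]
    have h3 : Real.exp (M * t) * (Real.exp (-(M * s)) * g s) ≤
        Real.exp (M * t) * (Real.exp (-(M * t)) * g t) :=
      mul_le_mul_of_nonneg_left h1 (Real.exp_pos _).le
    rw [← mul_assoc (Real.exp (M * t)) (Real.exp (-(M * t))), ← Real.exp_add, add_neg_cancel,
      Real.exp_zero, one_mul] at h3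
    exact h2.trans h3

/-- a continuous function without zeros on an interval has constant sign -/
theorem cv_sign {X : ℝ → ℝ} {R : ℝ} (hc : ContinuousOn X (Icc (-R) R))
    (h : ∀ t, |t| ≤ R → X t ≠ 0) :
    (∀ t, |t| ≤ R → 0 < X t) ∨ ∀ t, |t| ≤ R → X t < 0 := by
  by_cases h1 : ∀ t, |t| ≤ R → 0 < X t
  · exact Or.inl h1
  right
  push Not at h1
  obtain ⟨t, ht, hXt⟩ := h1
  intro s hs
  by_contra hcon
  have hs0 : 0 ≤ X s := not_lt.1 hcon
  have hu : uIcc t s ⊆ Icc (-R) R := uIcc_subset_Icc (abs_le.1 ht) (abs_le.1 hs)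
  have h2 := intermediate_value_uIcc (hc.mono hu)
  have h3 : (0 : ℝ) ∈ uIcc (X t) (X s) := by
    rw [uIcc_of_le (hXt.trans hs0)]
    exact ⟨hXt, hs0⟩
  obtain ⟨u, hu1, hu2⟩ := h2 h3
  exact h u (abs_le.2 (hu hu1)) hu2

theorem cv_sq (u v : ℝ) : (|u| + |v|) ^ 2 ≤ 2 * (u ^ 2 + v ^ 2) := by
  linarith only [sq_nonneg (|u| - |v|), sq_abs u, sq_abs v]

theorem cv_sq' (u v : ℝ) : u ^ 2 + v ^ 2 ≤ (|u| + |v|) ^ 2 := by
  linarith only [mul_nonneg (abs_nonneg u) (abs_nonneg v), sq_abs u, sq_abs v]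

theorem stmtCover : StmtCover := by
  intro Γ Φ x y τ κ c r L k₀ k₁ S A q hA hq hq1
  obtain ⟨e₀, c₁, c₂, C, he₀, hc₁, hc₂, hc₂1, hC, hG⟩ := grow k₀ k₁ S.kpos
  have hk₁ : 0 < k₁ := S.kpos.trans_le ((S.klo 1).trans (S.khi 1))
  have hc0 := S.c0
  -- the choice of `m`
  obtain ⟨m, hm2, hm⟩ : ∃ m : ℝ, 2 ≤ m ∧
      32 * (1 + A ^ 2) ≤ c₂ ^ 3 * Real.exp (c₁ * (m / 2)) * q ^ 2 := by
    refine ⟨2 + 2 / c₁ * (32 * (1 + A ^ 2) / (c₂ ^ 3 * q ^ 2)), ?_, ?_⟩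
    · have : 0 ≤ 2 / c₁ * (32 * (1 + A ^ 2) / (c₂ ^ 3 * q ^ 2)) := by positivity
      linarith
    · have h1 : 32 * (1 + A ^ 2) / (c₂ ^ 3 * q ^ 2) ≤
          c₁ * ((2 + 2 / c₁ * (32 * (1 + A ^ 2) / (c₂ ^ 3 * q ^ 2))) / 2) := by
        have e : c₁ * ((2 + 2 / c₁ * (32 * (1 + A ^ 2) / (c₂ ^ 3 * q ^ 2))) / 2) =
            c₁ + 32 * (1 + A ^ 2) / (c₂ ^ 3 * q ^ 2) := by
          field_simp
        rw [e]; linarith
      have h2 := Real.add_one_le_exp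
        (c₁ * ((2 + 2 / c₁ * (32 * (1 + A ^ 2) / (c₂ ^ 3 * q ^ 2))) / 2))
      have h3 : 32 * (1 + A ^ 2) / (c₂ ^ 3 * q ^ 2) ≤
          Real.exp (c₁ * ((2 + 2 / c₁ * (32 * (1 + A ^ 2) / (c₂ ^ 3 * q ^ 2))) / 2)) := by
        linarith only [h1, h2]
      rw [div_le_iff₀ (by positivity)] at h3
      calc 32 * (1 + A ^ 2) ≤ _ := h3
        _ = _ := by ring
  have hm0 : 0 < m := by linarith
  refine ⟨m, hm0, fun K => ?_⟩
  set T := ((K : ℝ) + 1) * m with hT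
  have hK0 : (0 : ℝ) ≤ K := Nat.cast_nonneg K
  have hTm : m ≤ T := by rw [hT]; nlinarith
  have hT0 : 0 < T := hm0.trans_le hTm
  have hKT : (K : ℝ) * m ≤ T := by rw [hT]; nlinarith
  set C₁ := c * Real.exp (L * T) * (c * (2 + A)) with hC₁
  have hC₁0 : 0 < C₁ := by positivity
  set b := Real.exp (-((2 + k₁) * (2 * T))) with hb
  have hb0 : 0 < b := Real.exp_pos _
  have hb1 : b ≤ 1 := by
    rw [hb, Real.exp_le_one_iff]
    have : 0 ≤ (2 + k₁) * (2 * T) := by positivity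
    linarith
  set a := b * q / 2 with ha
  have ha0 : 0 < a := by positivity
  set δ₀ := min (r / C₁) (min (1 / (T * (c * C₁ ^ 2))) (min 1 e₀ * a / (c * C₁ ^ 2))) with hδ₀
  have hrp := S.rpos
  refine ⟨max (1 + A) (1 / a), T, δ₀, ?_, hT0, by positivity, ?_⟩
  · exact le_max_of_le_left (by linarith)
  intro δ hδ hδδ v w hd hx hτ hy
  -- smallness of `δ`
  have d1 : C₁ * δ ≤ r := by
    have := (hδδ.trans_le (min_le_left _ _)).le
    rw [le_div_iff₀ hC₁0] at this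
    linarith
  have d2 : T * (c * (C₁ * δ) ^ 2) ≤ δ := by
    have := (hδδ.trans_le ((min_le_right _ _).trans (min_le_left _ _))).le
    rw [le_div_iff₀ (by positivity)] at this
    calc T * (c * (C₁ * δ) ^ 2) = (δ * (T * (c * C₁ ^ 2))) * δ := by ring
      _ ≤ 1 * δ := by gcongr
      _ = δ := one_mul _
  have d3 : c * (C₁ * δ) ^ 2 ≤ min 1 e₀ * a * δ := by
    have := (hδδ.trans_le ((min_le_right _ _).trans (min_le_right _ _))).le
    rw [le_div_iff₀ (by positivity)] at this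
    calc c * (C₁ * δ) ^ 2 = (δ * (c * C₁ ^ 2)) * δ := by ring
      _ ≤ (min 1 e₀ * a) * δ := by gcongr
  set ε := c * (C₁ * δ) ^ 2 with hε
  have hε0 : 0 ≤ ε := by positivity
  have d4 : ε ≤ a * δ := by
    refine d3.trans ?_
    have : min 1 e₀ * (a * δ) ≤ 1 * (a * δ) := by gcongr; exact min_le_left _ _
    linarith
  have d5 : ε ≤ e₀ * (a * δ) := by
    refine d3.trans ?_
    have : min 1 e₀ * (a * δ) ≤ e₀ * (a * δ) := by gcongr; exact min_le_right _ _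
    linarith
  -- the distance
  have hdd : dd v w ≤ c * (2 + A) * δ := by
    calc dd v w ≤ c * (|x v w| + |y v w| + |τ v w|) := S.dle v w hd
      _ ≤ c * (δ + A * δ + δ) := by gcongr
      _ = _ := by ring
  have hD : ∀ t, |t| ≤ T → dd (Φ t v) (Φ t w) ≤ C₁ * δ := by
    intro t ht
    have hL := S.Lnn
    have h0 := PairSys.dd_nonneg' v w
    calc dd (Φ t v) (Φ t w) ≤ c * Real.exp (L * |t|) * dd v w := S.dflow v w t
      _ ≤ c * Real.exp (L * T) * (c * (2 + A) * δ) := by gcongr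
      _ = C₁ * δ := by rw [hC₁]; ring
  have hDr : ∀ t, |t| ≤ T → dd (Φ t v) (Φ t w) ≤ r := fun t ht => (hD t ht).trans d1
  have hDs : ∀ t, |t| ≤ T → c * dd (Φ t v) (Φ t w) ^ 2 ≤ ε := by
    intro t ht
    have h0 := PairSys.dd_nonneg' (Φ t v) (Φ t w)
    have h1 := hD t ht
    rw [hε]
    gcongr
  set X : ℝ → ℝ := fun t => x (Φ t v) (Φ t w) with hX
  set Y : ℝ → ℝ := fun t => y (Φ t v) (Φ t w) with hY
  set κ' : ℝ → ℝ := fun t => κ (Φ t v) with hκ'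
  have hκ : ∀ t, |κ' t| ≤ k₁ := fun t => by
    rw [abs_of_pos (S.kpos.trans_le (S.klo _))]
    exact S.khi _
  have hder : ∀ t, |t| ≤ T → ∃ x' y' : ℝ, HasDerivAt X x' t ∧ HasDerivAt Y y' t ∧
      |x' - Y t| ≤ ε ∧ |y' - κ' t * X t| ≤ ε := by
    intro t ht
    obtain ⟨x', h1, h2⟩ := S.xd _ _ (hDr t ht)
    obtain ⟨y', h3, h4⟩ := S.yd _ _ (hDr t ht)
    exact ⟨x', y', S.shift_d (f := x) h1, S.shift_d (f := y) h3, h2.trans (hDs t ht),
      h4.trans (hDs t ht)⟩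
  have z0 : |(0 : ℝ)| ≤ T := by rw [abs_zero]; exact hT0.le
  have hτt : ∀ t, |t| ≤ T → |τ (Φ t v) (Φ t w)| ≤ 2 * δ := by
    intro t ht
    have h1 := mvt (f := fun t => τ (Φ t v) (Φ t w)) (a := 0) (C := ε) (R := T) (fun u hu => ?_)
      ht z0
    · simp only [mul_zero, sub_zero, S.zero] at h1
      have h2 := abs_add_le (τ (Φ t v) (Φ t w) - τ v w) (τ v w)
      rw [sub_add_cancel] at h2
      have h3 : ε * |t| ≤ δ := by
        calc ε * |t| ≤ ε * T := by gcongr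
          _ = T * ε := mul_comm _ _
          _ ≤ δ := d2
      linarith
    · obtain ⟨t', h1, h2⟩ := S.td _ _ (hDr u hu)
      refine ⟨t', S.shift_d (f := τ) h1, ?_⟩
      rw [sub_zero]
      exact h2.trans (hDs u hu)
  have hmT : |m / 2| ≤ T := by rw [abs_of_pos (by positivity)]; linarith
  have hmT' : |-(m / 2)| ≤ T := by rw [abs_neg]; exact hmT
  by_cases h1 : |X (m / 2)| + |Y (m / 2)| ≤ q * δ
  · exact Or.inl ⟨hDr _ hmT, h1, hτt _ hmT⟩
  by_cases h2 : |X (-(m / 2))| + |Y (-(m / 2))| ≤ q * δ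
  · exact Or.inr (Or.inl ⟨hDr _ hmT', h2, hτt _ hmT'⟩)
  rw [not_le] at h1 h2
  right; right
  -- lower bounds for `X² + Y²`
  have hsq := cv_sq
  have hsq' := cv_sq'
  have hqδ : 0 < q * δ := by positivity
  have hE1 : (q * δ) ^ 2 / 2 ≤ X (m / 2) ^ 2 + Y (m / 2) ^ 2 := by
    have h3 := hsq (X (m / 2)) (Y (m / 2))
    have h4 : (q * δ) ^ 2 ≤ (|X (m / 2)| + |Y (m / 2)|) ^ 2 :=
      pow_le_pow_left₀ hqδ.le h1.le 2
    linarith only [h3, h4]
  have hE2 : (q * δ) ^ 2 / 2 ≤ X (-(m / 2)) ^ 2 + Y (-(m / 2)) ^ 2 := by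
    have h3 := hsq (X (-(m / 2))) (Y (-(m / 2)))
    have h4 : (q * δ) ^ 2 ≤ (|X (-(m / 2))| + |Y (-(m / 2))|) ^ 2 :=
      pow_le_pow_left₀ hqδ.le h2.le 2
    linarith only [h3, h4]
  have hN : ∀ t, |t| ≤ T → a * δ ≤ |X t| + |Y t| := by
    intro t ht
    have h3 := cv_low hk₁.le hκ hder hmT ht
    have h4 : b * ((q * δ) ^ 2 / 2) ≤ b * (X (m / 2) ^ 2 + Y (m / 2) ^ 2 + ε ^ 2) := by
      gcongr
      have := sq_nonneg ε
      linarith only [hE1, this]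
    have h5 : ε ^ 2 ≤ (a * δ) ^ 2 := pow_le_pow_left₀ hε0 d4 2
    have h6 : (a * δ) ^ 2 ≤ b * ((q * δ) ^ 2 / 4) := by
      have e1 : (a * δ) ^ 2 = b * (b * ((q * δ) ^ 2 / 4)) := by rw [ha]; ring
      rw [e1]
      have h7 : b * ((q * δ) ^ 2 / 4) ≤ 1 * ((q * δ) ^ 2 / 4) := by (clear * - hb1 hq hδ; gcongr)
      rw [one_mul] at h7
      gcongr
    have h7 : (a * δ) ^ 2 ≤ X t ^ 2 + Y t ^ 2 := by
      have e2 : b * ((q * δ) ^ 2 / 2) = b * ((q * δ) ^ 2 / 4) + b * ((q * δ) ^ 2 / 4) := by ring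
      linarith only [h3, h4, h5, h6]
    have h8 := h7.trans (hsq' (X t) (Y t))
    exact le_of_sq_le_sq h8 (by (clear * -; positivity))
  by_cases h3 : ∃ t, |t| ≤ T ∧ X t = 0
  · left
    have h4 := hN 0 z0
    simp only [hX, hY, S.zero] at h4
    have hA' : (1 + A) ≤ max (1 + A) (1 / a) := le_max_left _ _
    refine ⟨hd, ?_, ?_, ?_, h3⟩
    · calc |τ v w| ≤ 1 * δ := by linarith only [hτ]
        _ ≤ (1 + A) * δ := by gcongr; linarith only [hA]
        _ ≤ max (1 + A) (1 / a) * δ := by gcongr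
    · refine le_trans ?_ h4
      rw [div_le_iff₀ (by positivity)]
      have h5 : 1 / a ≤ max (1 + A) (1 / a) := le_max_right _ _
      calc δ = a * δ * (1 / a) := by field_simp
        _ ≤ a * δ * max (1 + A) (1 / a) := by (clear * - h5 hq hδ; gcongr)
    · calc |x v w| + |y v w| ≤ (1 + A) * δ := by linarith only [hx, hy]
        _ ≤ max (1 + A) (1 / a) * δ := by (clear * - hA' hδ; gcongr)
  push Not at h3
  right
  -- the growth system
  have hsys : ∀ s S', |s| ≤ T → |s + S'| ≤ T → 0 ≤ S' →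
      GrowSys k₀ k₁ e₀ S' (fun t => X (s + t)) (fun t => Y (s + t)) (fun t => κ' (s + t)) := by
    intro s S' hs hS hS0
    have hin : ∀ t ∈ Icc (0 : ℝ) S', |s + t| ≤ T := by
      intro t ht
      have a1 := abs_le.1 hs
      have a2 := abs_le.1 hS
      exact abs_le.2 ⟨by linarith only [a1, ht.1], by linarith only [a2, ht.2]⟩
    refine ⟨fun t _ => S.klo _, fun t _ => S.khi _, fun t ht => ?_⟩
    obtain ⟨x', y', a1, a2, a3, a4⟩ := hder _ (hin t ht)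
    have a5 : ε ≤ e₀ * (|X (s + t)| + |Y (s + t)|) := by
      refine d5.trans ?_
      have := hN _ (hin t ht)
      (clear * - this he₀; gcongr)
    exact ⟨x', y', HasDerivAt.comp_const_add s t a1, HasDerivAt.comp_const_add s t a2,
      a3.trans a5, a4.trans a5⟩
  have hX0 : X 0 = x v w := by simp only [hX, S.zero]
  have hY0 : Y 0 = y v w := by simp only [hY, S.zero]
  have hE0 : X 0 ^ 2 + Y 0 ^ 2 ≤ (1 + A ^ 2) * δ ^ 2 := by
    rw [hX0, hY0]
    have a1 : x v w ^ 2 ≤ δ ^ 2 := by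
      rw [← sq_abs]; exact pow_le_pow_left₀ (abs_nonneg _) hx 2
    have a2 : y v w ^ 2 ≤ (A * δ) ^ 2 := by
      rw [← sq_abs]; exact pow_le_pow_left₀ (abs_nonneg _) hy 2
    linarith only [a1, a2]
  have hexp : 16 * (1 + A ^ 2) ≤ c₂ * Real.exp (c₁ * (m / 2)) * (q ^ 2 / 2) := by
    have a1 : c₂ ^ 3 ≤ c₂ := by
      calc c₂ ^ 3 = c₂ ^ 2 * c₂ := by ring
        _ ≤ 1 * c₂ := by gcongr; exact pow_le_one₀ hc₂.le hc₂1
        _ = c₂ := one_mul _
    have a2 : c₂ ^ 3 * Real.exp (c₁ * (m / 2)) * q ^ 2 ≤ c₂ * Real.exp (c₁ * (m / 2)) * q ^ 2 := by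
      (clear * - a1 hq; gcongr)
    linarith only [hm, a2]
  -- the sign of `X Y` at `± m / 2`
  have hf1 : 0 ≤ X (m / 2) * Y (m / 2) := by
    by_contra hcon
    have hcon' := (not_le.1 hcon).le
    have g := hsys 0 (m / 2) z0 (by rw [zero_add]; exact hmT) (by positivity)
    have g3 := ((hG _ _ _ _ g).2.2.1 (by rw [zero_add]; exact hcon')).1 0
      ⟨le_rfl, by positivity⟩
    simp only [zero_add, sub_zero] at g3
    have g4 := g3.2
    have g5 : c₂ * Real.exp (c₁ * (m / 2)) * ((q * δ) ^ 2 / 2) ≤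
        c₂ * Real.exp (c₁ * (m / 2)) * (X (m / 2) ^ 2 + Y (m / 2) ^ 2) := by (clear * - hE1 hc₂; gcongr)
    have g6 : c₂ * Real.exp (c₁ * (m / 2)) * ((q * δ) ^ 2 / 2) =
        (c₂ * Real.exp (c₁ * (m / 2)) * (q ^ 2 / 2)) * δ ^ 2 := by ring
    have g7 : 16 * (1 + A ^ 2) * δ ^ 2 ≤ (c₂ * Real.exp (c₁ * (m / 2)) * (q ^ 2 / 2)) * δ ^ 2 := by
      (clear * - hexp hδ; gcongr)
    have g8 : 0 < (1 + A ^ 2) * δ ^ 2 := by positivity
    linarith only [hE0, g3, g5, g7, g8]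
  have hf2 : X (-(m / 2)) * Y (-(m / 2)) ≤ 0 := by
    by_contra hcon
    have hcon' := (not_le.1 hcon).le
    have g := hsys (-(m / 2)) (m / 2) hmT' (by rw [neg_add_cancel]; exact z0) (by positivity)
    have g3 := ((hG _ _ _ _ g).2.1 (by rw [add_zero]; exact hcon')).1 (m / 2)
      ⟨by positivity, le_rfl⟩
    simp only [neg_add_cancel, add_zero] at g3
    have g4 := g3.2
    have g5 : c₂ * Real.exp (c₁ * (m / 2)) * ((q * δ) ^ 2 / 2) ≤
        c₂ * Real.exp (c₁ * (m / 2)) * (X (-(m / 2)) ^ 2 + Y (-(m / 2)) ^ 2) := by (clear * - hE2 hc₂; gcongr)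
    have g6 : c₂ * Real.exp (c₁ * (m / 2)) * ((q * δ) ^ 2 / 2) =
        (c₂ * Real.exp (c₁ * (m / 2)) * (q ^ 2 / 2)) * δ ^ 2 := by ring
    have g7 : 16 * (1 + A ^ 2) * δ ^ 2 ≤ (c₂ * Real.exp (c₁ * (m / 2)) * (q ^ 2 / 2)) * δ ^ 2 := by
      (clear * - hexp hδ; gcongr)
    have g8 : 0 < (1 + A ^ 2) * δ ^ 2 := by positivity
    linarith only [hE0, g3, g5, g7, g8]
  -- the conclusion of the growth
  have hfin : ∀ s E' z : ℝ, m / 2 ≤ s → (q * δ) ^ 2 / 2 ≤ E' →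
      c₂ * Real.exp (c₁ * s) * E' ≤ X z ^ 2 + Y z ^ 2 → c₂ * (|X z| + |Y z|) ≤ |X z| →
      4 * δ ≤ |X z| := by
    intro s E' z hs hE' g1 g2
    have g3 : c₂ * Real.exp (c₁ * (m / 2)) * ((q * δ) ^ 2 / 2) ≤ c₂ * Real.exp (c₁ * s) * E' := by
      have : Real.exp (c₁ * (m / 2)) ≤ Real.exp (c₁ * s) := Real.exp_le_exp.2 (by (clear * - hs hc₁; gcongr))
      (clear * - this hc₂ hE' hq hδ; gcongr)
    have g4 := hsq' (X z) (Y z)
    have g5 : (c₂ * (|X z| + |Y z|)) ^ 2 ≤ |X z| ^ 2 := pow_le_pow_left₀ (by (clear * - hc₂; positivity)) g2 2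
    have g6 : (4 * δ) ^ 2 ≤ |X z| ^ 2 := by
      calc (4 * δ) ^ 2 = 16 * 1 * δ ^ 2 := by ring
        _ ≤ 16 * (1 + A ^ 2) * δ ^ 2 := by
            gcongr
            exact le_add_of_nonneg_right (sq_nonneg A)
        _ ≤ (c₂ ^ 3 * Real.exp (c₁ * (m / 2)) * q ^ 2 / 2) * δ ^ 2 := by gcongr; linarith only [hm]
        _ = c₂ ^ 2 * (c₂ * Real.exp (c₁ * (m / 2)) * ((q * δ) ^ 2 / 2)) := by ring
        _ ≤ c₂ ^ 2 * (|X z| + |Y z|) ^ 2 := by gcongr; linarith only [g1, g3, g4]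
        _ = (c₂ * (|X z| + |Y z|)) ^ 2 := by ring
        _ ≤ |X z| ^ 2 := g5
    exact le_of_sq_le_sq g6 (abs_nonneg _)
  have hbig : ∀ j : ℤ, j ≠ 0 → |j| ≤ (K : ℤ) → 4 * δ ≤ |X (j * m)| ∧ |(j : ℝ) * m| ≤ T := by
    intro j hj0 hjK
    have hjK' : |(j : ℝ)| ≤ K := by exact_mod_cast hjK
    have hjT : |(j : ℝ) * m| ≤ T := by
      rw [abs_mul, abs_of_pos hm0]
      exact (mul_le_mul_of_nonneg_right hjK' hm0.le).trans hKT
    refine ⟨?_, hjT⟩
    have hjT' := abs_le.1 hjT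
    rcases lt_or_gt_of_ne hj0 with hj | hj
    · -- `j < 0`
      have hj1 : (j : ℝ) ≤ -1 := by exact_mod_cast (by omega : j ≤ -1)
      have hjm : (j : ℝ) * m ≤ -m := by
        have := mul_le_mul_of_nonneg_right hj1 hm0.le
        rwa [neg_one_mul] at this
      have g := hsys (-T) (T - m / 2) (by rw [abs_neg, abs_of_pos hT0])
        (by rw [show -T + (T - m / 2) = -(m / 2) by ring]; exact hmT') (by linarith only [hm2, hTm])
      have e1 : -T + (T - m / 2) = -(m / 2) := by ring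
      have e2 : -T + (j * m + T) = j * m := by ring
      have g3 := (hG _ _ _ _ g).2.2.1 (by rw [e1]; exact hf2)
      have g4 := g3.1 (j * m + T) ⟨by linarith only [hjT'], by linarith only [hm2, hjm]⟩
      have g5 := g3.2 (j * m + T) ⟨by linarith only [hjT'], by linarith only [hm2, hjm]⟩
      rw [e1, e2] at g4
      rw [e2] at g5
      exact hfin _ _ _ (by linarith only [hjm]) hE2 g4.2 g5
    · have hj1 : (1 : ℝ) ≤ j := by exact_mod_cast (by omega : 1 ≤ j)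
      have hjm : m ≤ (j : ℝ) * m := le_mul_of_one_le_left hm0.le hj1
      have g := hsys (m / 2) (T - m / 2) hmT
        (by rw [show m / 2 + (T - m / 2) = T by ring, abs_of_pos hT0]) (by linarith only [hm2, hTm])
      have e2 : m / 2 + (j * m - m / 2) = j * m := by ring
      have g3 := (hG _ _ _ _ g).2.1 (by rw [add_zero]; exact hf1)
      have g4 := g3.1 (j * m - m / 2) ⟨by linarith only [hm2, hjm], by linarith only [hjT']⟩
      have g5 := g3.2 (j * m - m / 2) ⟨by linarith only [hm2, hjm], by linarith only [hjT']⟩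
      rw [add_zero, e2] at g4
      rw [e2] at g5
      exact hfin _ _ _ (by linarith only [hjm]) hE1 g4.2 g5
  -- the sign of `X`
  have hXc : ContinuousOn X (Icc (-T) T) := by
    intro t ht
    obtain ⟨x', y', a1, -⟩ := hder t (abs_le.2 ht)
    exact a1.continuousAt.continuousWithinAt
  rcases cv_sign hXc h3 with hs | hs
  · left
    refine ⟨hd, ?_, ?_, hτ, hy, fun j hj0 hjK => ?_⟩
    · have := hs 0 z0
      rw [hX0] at this
      rw [one_mul]; exact this.le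
    · rw [one_mul]; exact (le_abs_self _).trans hx
    · obtain ⟨a1, a2⟩ := hbig j hj0 hjK
      rw [abs_of_pos (hs _ a2)] at a1
      rw [one_mul]; exact a1
  · right
    refine ⟨hd, ?_, ?_, hτ, hy, fun j hj0 hjK => ?_⟩
    · have := hs 0 z0
      rw [hX0] at this
      linarith only [this]
    · have := neg_abs_le (x v w)
      linarith only [hx, this]
    · obtain ⟨a1, a2⟩ := hbig j hj0 hjK
      rw [abs_of_neg (hs _ a2)] at a1
      have e : X (j * m) = x (Φ (j * m) v) (Φ (j * m) w) := rfl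
      rw [e] at a1
      linarith only [a1]

end

end NC

end QE


end

section

/-!
# Crossing pairs: the dyadic bound (helper70)
-/

open MeasureTheory Filter Topology Set
open UpperHalfPlane hiding I
open scoped ContDiff MatrixGroups ENNReal

namespace QE

namespace NC

noncomputable section

/-- at most four dyadic scales are comparable to a given number -/
theorem count4 (u : ℝ) :
    ∑' l : ℕ, (if 1 / 2 ^ l / 2 ≤ u ∧ u ≤ 4 * (1 / 2 ^ l) then (1 : ℝ≥0∞) else 0) ≤ 4 := by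
  classical
  set A : ℕ → Prop := fun l => 1 / (2 : ℝ) ^ l / 2 ≤ u ∧ u ≤ 4 * (1 / 2 ^ l) with hA
  by_cases hex : ∃ l, A l
  · set l₁ := Nat.find hex with hl₁
    have h1 : A l₁ := Nat.find_spec hex
    have hsub : ∀ l, l ∉ Finset.Icc l₁ (l₁ + 3) → (if A l then (1 : ℝ≥0∞) else 0) = 0 := by
      intro l hl
      rw [if_neg]
      intro hAl
      apply hl
      rw [Finset.mem_Icc]
      refine ⟨Nat.find_min' hex hAl, ?_⟩
      by_contra hlt
      push Not at hlt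
      have h2 : (1 : ℝ) / 2 ^ l₁ / 2 ≤ 4 * (1 / 2 ^ l) := h1.1.trans hAl.2
      have h3 : (2 : ℝ) ^ (l₁ + 4) ≤ 2 ^ l := pow_le_pow_right₀ (by norm_num) (by omega)
      have h4 : (1 : ℝ) / 2 ^ l ≤ 1 / 2 ^ (l₁ + 4) := one_div_le_one_div_of_le (by positivity) h3
      have h5 : (1 : ℝ) / 2 ^ (l₁ + 4) = 1 / 2 ^ l₁ / 16 := by
        rw [pow_add]; field_simp; norm_num
      have h6 : (0 : ℝ) < 1 / 2 ^ l₁ := by positivity
      rw [h5] at h4
      linarith only [h2, h4, h6]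
    rw [tsum_eq_sum hsub]
    calc ∑ l ∈ Finset.Icc l₁ (l₁ + 3), (if A l then (1 : ℝ≥0∞) else 0)
        ≤ ∑ l ∈ Finset.Icc l₁ (l₁ + 3), (1 : ℝ≥0∞) := by
          refine Finset.sum_le_sum fun l _ => ?_
          split_ifs <;> simp
      _ = 4 := by
          rw [Finset.sum_const, Nat.card_Icc]
          have : l₁ + 3 + 1 - l₁ = 4 := by omega
          rw [this]
          simp
  · push Not at hex
    have h0 : ∀ l, (if A l then (1 : ℝ≥0∞) else 0) = 0 := fun l => if_neg (hex l)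
    have h1 : ∑' l : ℕ, (if A l then (1 : ℝ≥0∞) else 0) = 0 := by
      rw [ENNReal.tsum_eq_zero]
      exact h0
    refine le_trans (le_of_eq h1) zero_le

variable {Γ : Subgroup SL(2, ℝ)} {Φ : ℝ → SL(2, ℝ) → SL(2, ℝ)}
  {x y τ : SL(2, ℝ) → SL(2, ℝ) → ℝ} {κ : SL(2, ℝ) → ℝ} {c r L k₀ k₁ : ℝ}

/-- the pairs of the dyadic bound -/
def XB (x y τ : SL(2, ℝ) → SL(2, ℝ) → ℝ) (r δ a b : ℝ) (v w : SL(2, ℝ)) : Prop :=
  dd v w ≤ r ∧ |x v w| ≤ δ ∧ |τ v w| ≤ δ ∧ a ≤ |y v w| ∧ |y v w| ≤ b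

variable [MeasurableSpace SL(2, ℝ)] [BorelSpace SL(2, ℝ)] {D : Set ℍ} {ν : Measure SL(2, ℝ)}

theorem PairSys.meas_XB (S : PairSys Γ Φ x y τ κ c r L k₀ k₁) (δ a b : ℝ) :
    MeasurableSet {p : SL(2, ℝ) × SL(2, ℝ) | XB x y τ r δ a b p.1 p.2} :=
  (measSet_dd_le r).inter ((measSet_abs_le S.xc δ).inter ((measSet_abs_le S.tc δ).inter
    ((measSet_le_abs S.yc a).inter (measSet_abs_le S.yc b))))

omit [MeasurableSpace SL(2, ℝ)] [BorelSpace SL(2, ℝ)] in
theorem PairSys.inv_XB (S : PairSys Γ Φ x y τ κ c r L k₀ k₁) (δ a b : ℝ) :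
    ∀ γ ∈ Γ, ∀ v w, XB x y τ r δ a b (γ * v) (γ * w) ↔ XB x y τ r δ a b v w := by
  intro γ hγ v w
  unfold XB
  rw [dd_left, S.xi γ hγ, S.ti γ hγ, S.yi γ hγ]

omit [BorelSpace SL(2, ℝ)] in
theorem PM_prod [SFinite ν] {P : SL(2, ℝ) → SL(2, ℝ) → Prop}
    (hP : MeasurableSet {p : SL(2, ℝ) × SL(2, ℝ) | P p.1 p.2}) :
    PM D ν P = ((ν.restrict (Berry.Fd D)).prod ν) {p | P p.1 p.2} := by
  rw [Measure.prod_apply hP]
  rfl

theorem PM_shift [Countable Γ] (S : PairSys Γ Φ x y τ κ c r L k₀ k₁)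
    (M : MassSys Γ D Φ x τ r ν) {P : SL(2, ℝ) → SL(2, ℝ) → Prop}
    (hP : MeasurableSet {p : SL(2, ℝ) × SL(2, ℝ) | P p.1 p.2})
    (hinv : ∀ γ ∈ Γ, ∀ v w, P (γ * v) (γ * w) ↔ P v w) (s t : ℝ) :
    ∫⁻ p, {p : SL(2, ℝ) × SL(2, ℝ) | P p.1 p.2}.indicator (fun _ => (1 : ℝ≥0∞))
      (Φ s p.1, Φ t p.2) ∂((ν.restrict (Berry.Fd D)).prod ν) = PM D ν P := by
  have := M.sf
  have hm : MeasurableSet {p : SL(2, ℝ) × SL(2, ℝ) | P (Φ s p.1) (Φ t p.2)} :=
    (((S.cont_flow s).measurable.comp measurable_fst).prodMk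
      ((S.cont_flow t).measurable.comp measurable_snd)) hP
  rw [← PM_flow_set S M hP hinv s t, PM_prod hm,
    ← one_mul (((ν.restrict (Berry.Fd D)).prod ν) {p | P (Φ s p.1) (Φ t p.2)}),
    ← lintegral_indicator_const hm]
  rfl

/-- **comparison of the masses at two scales** -/
theorem compare [Countable Γ] (S : PairSys Γ Φ x y τ κ c r L k₀ k₁)
    (M : MassSys Γ D Φ x τ r ν) {Y δ η : ℝ} (hY : 0 < Y) (hδ : 0 < δ) (hη : 0 < η) (hηδ : η ≤ δ)
    (hδY : δ ≤ Y / (128 * (k₁ + 1) * c * (5 * c ^ 4 * Real.exp L)))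
    (hYr : Y ≤ r / (8 * c * (5 * c ^ 4 * Real.exp L) ^ 2)) :
    PM D ν (XB x y τ r δ Y (2 * Y)) ≤ ENNReal.ofReal (δ ^ 2) *
      (ENNReal.ofReal (1024 / η ^ 2) * PM D ν (XB x y τ r η (Y / 2) (4 * Y))) := by
  classical
  have := M.sf
  set a := 8 * δ / Y with ha
  set b := 8 * δ with hb
  set lam : Measure (ℝ × ℝ) := ((volume : Measure ℝ).restrict (Icc (-a) a)).prod
    ((volume : Measure ℝ).restrict (Icc (-b) b)) with hlam
  set pi : Measure (SL(2, ℝ) × SL(2, ℝ)) := (ν.restrict (Berry.Fd D)).prod ν with hpi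
  set Q : Set (SL(2, ℝ) × SL(2, ℝ)) := {p | XB x y τ r η (Y / 2) (4 * Y) p.1 p.2} with hQ
  set P : Set (SL(2, ℝ) × SL(2, ℝ)) := {p | XB x y τ r δ Y (2 * Y) p.1 p.2} with hP
  have hQm : MeasurableSet Q := S.meas_XB _ _ _
  have hPm : MeasurableSet P := S.meas_XB _ _ _
  set F : SL(2, ℝ) × SL(2, ℝ) → ℝ × ℝ → ℝ≥0∞ := fun p q =>
    Q.indicator (fun _ => (1 : ℝ≥0∞)) (Φ q.1 p.1, Φ q.2 (Φ q.1 p.2)) with hF
  have hFm : Measurable (Function.uncurry F) := by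
    have h1 : Continuous fun z : (SL(2, ℝ) × SL(2, ℝ)) × (ℝ × ℝ) => Φ z.2.1 z.1.1 :=
      S.cont.comp (continuous_snd.fst.prodMk continuous_fst.fst)
    have h2 : Continuous fun z : (SL(2, ℝ) × SL(2, ℝ)) × (ℝ × ℝ) => Φ z.2.1 z.1.2 :=
      S.cont.comp (continuous_snd.fst.prodMk continuous_fst.snd)
    have h3 : Continuous fun z : (SL(2, ℝ) × SL(2, ℝ)) × (ℝ × ℝ) => Φ z.2.2 (Φ z.2.1 z.1.2) :=
      S.cont.comp (continuous_snd.snd.prodMk h2)
    exact (measurable_const.indicator hQm).comp (h1.prodMk h3).measurable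
  -- the total
  have htot : ∫⁻ p, ∫⁻ q, F p q ∂lam ∂pi
      = PM D ν (XB x y τ r η (Y / 2) (4 * Y)) * (ENNReal.ofReal (2 * a) * ENNReal.ofReal (2 * b)) := by
    rw [lintegral_lintegral_swap hFm.aemeasurable]
    have h1 : ∀ q : ℝ × ℝ, ∫⁻ p, F p q ∂pi = PM D ν (XB x y τ r η (Y / 2) (4 * Y)) := by
      intro q
      rw [← PM_shift S M (S.meas_XB η (Y / 2) (4 * Y)) (S.inv_XB η (Y / 2) (4 * Y)) q.1 (q.2 + q.1)]
      refine lintegral_congr fun p => ?_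
      simp only [hF, S.add]
      rfl
    simp only [h1]
    rw [lintegral_const, hlam, ← univ_prod_univ, Measure.prod_prod]
    simp only [Measure.restrict_apply MeasurableSet.univ, univ_inter, Real.volume_Icc, sub_neg_eq_add]
    rw [← two_mul, ← two_mul]
  -- the lower bound
  have hlow : ∀ p ∈ P, ENNReal.ofReal (η / (2 * Y)) * ENNReal.ofReal (η / 2) ≤ ∫⁻ q, F p q ∂lam := by
    rintro ⟨v, w⟩ ⟨p1, p2, p3, p4, p5⟩
    obtain ⟨t₀, s₀, ht₀, hs₀, hb'⟩ := S.area hY hδ hη hηδ hδY hYr p1 p2 p3 p4 p5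
    set B : Set (ℝ × ℝ) := Icc (t₀ - η / (4 * Y)) (t₀ + η / (4 * Y)) ×ˢ
      Icc (s₀ - η / 4) (s₀ + η / 4) with hB
    have hBm : MeasurableSet B := measurableSet_Icc.prod measurableSet_Icc
    have hmem : ∀ q ∈ B, |q.1| ≤ a ∧ |q.2| ≤ b ∧ (Φ q.1 v, Φ q.2 (Φ q.1 w)) ∈ Q := by
      rintro ⟨t, s⟩ ⟨h1, h2⟩
      obtain ⟨b1, b2, b3, b4, b5, b6, b7⟩ := hb' t s (abs_le.2 ⟨by linarith [h1.1], by linarith only [h1.2]⟩)
        (abs_le.2 ⟨by linarith [h2.1], by linarith [h2.2]⟩)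
      exact ⟨b1, b2, b3, b4, b5, b6, b7⟩
    have h1 : lam B = ENNReal.ofReal (η / (2 * Y)) * ENNReal.ofReal (η / 2) := by
      have hη4 : 0 < η / (4 * Y) := by positivity
      have i1 : Icc (t₀ - η / (4 * Y)) (t₀ + η / (4 * Y)) ⊆ Icc (-a) a := by
        intro t ht
        have := (hmem (t, s₀) ⟨ht, ⟨by linarith, by linarith⟩⟩).1
        exact abs_le.1 this
      have i2 : Icc (s₀ - η / 4) (s₀ + η / 4) ⊆ Icc (-b) b := by
        intro s hs
        have := (hmem (t₀, s) ⟨⟨by linarith, by linarith⟩, hs⟩).2.1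
        exact abs_le.1 this
      rw [hlam, hB, Measure.prod_prod, Measure.restrict_apply measurableSet_Icc,
        Measure.restrict_apply measurableSet_Icc, inter_eq_left.2 i1, inter_eq_left.2 i2,
        Real.volume_Icc, Real.volume_Icc]
      congr 2
      · field_simp
        ring
      · ring
    rw [← h1]
    calc lam B = ∫⁻ q, B.indicator (fun _ => (1 : ℝ≥0∞)) q ∂lam := by
          rw [lintegral_indicator_const hBm, one_mul]
      _ ≤ ∫⁻ q, F (v, w) q ∂lam := by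
          refine lintegral_mono fun q => ?_
          by_cases hq : q ∈ B
          · have h2 := (hmem q hq).2.2
            simp only [hF, indicator_of_mem h2, indicator_of_mem hq, le_refl]
          · rw [indicator_of_notMem hq]
            exact zero_le
  have hmain : ENNReal.ofReal (η / (2 * Y)) * ENNReal.ofReal (η / 2) * pi P ≤
      PM D ν (XB x y τ r η (Y / 2) (4 * Y)) * (ENNReal.ofReal (2 * a) * ENNReal.ofReal (2 * b)) := by
    rw [← htot]
    calc ENNReal.ofReal (η / (2 * Y)) * ENNReal.ofReal (η / 2) * pi P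
        = ∫⁻ p, P.indicator (fun _ => ENNReal.ofReal (η / (2 * Y)) * ENNReal.ofReal (η / 2)) p ∂pi := by
          rw [lintegral_indicator_const hPm]
      _ ≤ _ := by
          refine lintegral_mono fun p => ?_
          by_cases hp : p ∈ P
          · rw [indicator_of_mem hp]
            exact hlow p hp
          · rw [indicator_of_notMem hp]
            exact zero_le
  rw [PM_prod hPm]
  set m := PM D ν (XB x y τ r η (Y / 2) (4 * Y)) with hm
  have e1 : ENNReal.ofReal (η / (2 * Y)) * ENNReal.ofReal (η / 2)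
      = ENNReal.ofReal (η ^ 2 / (4 * Y)) := by
    rw [← ENNReal.ofReal_mul (by positivity)]
    congr 1
    field_simp
    ring
  have e2 : ENNReal.ofReal (2 * a) * ENNReal.ofReal (2 * b)
      = ENNReal.ofReal (256 * δ ^ 2 / Y) := by
    rw [← ENNReal.ofReal_mul (by positivity)]
    congr 1
    rw [ha, hb]
    field_simp
    ring
  rw [e1, e2] at hmain
  have h3 : ENNReal.ofReal (4 * Y / η ^ 2) * (ENNReal.ofReal (η ^ 2 / (4 * Y)) * pi P) ≤
      ENNReal.ofReal (4 * Y / η ^ 2) * (m * ENNReal.ofReal (256 * δ ^ 2 / Y)) := by gcongr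
  rw [← mul_assoc, ← ENNReal.ofReal_mul (by positivity)] at h3
  have e3 : 4 * Y / η ^ 2 * (η ^ 2 / (4 * Y)) = 1 := by field_simp
  rw [e3, ENNReal.ofReal_one, one_mul] at h3
  refine h3.trans (le_of_eq ?_)
  rw [mul_comm m, ← mul_assoc, ← mul_assoc, ← ENNReal.ofReal_mul (by positivity),
    ← ENNReal.ofReal_mul (by positivity)]
  congr 2
  field_simp
  ring

/-- the sum over the dyadic scales -/
theorem sum_scales (S : PairSys Γ Φ x y τ κ c r L k₀ k₁)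
    (M : MassSys Γ D Φ x τ r ν) {C : ℝ} (hC : ∀ δ : ℝ, 0 < δ → δ ≤ 1 →
      ∫⁻ v in Berry.Fd D, ν (Bx x τ r δ v) ∂ν ≤ ENNReal.ofReal (C * δ ^ 2)) {η : ℝ} (hη : 0 < η)
    (hη1 : η ≤ 1) :
    ∑' l : ℕ, PM D ν (XB x y τ r η (1 / 2 ^ l / 2) (4 * (1 / 2 ^ l))) ≤
      4 * ENNReal.ofReal (C * η ^ 2) := by
  classical
  have := M.sf
  set pi : Measure (SL(2, ℝ) × SL(2, ℝ)) := (ν.restrict (Berry.Fd D)).prod ν with hpi
  set B : Set (SL(2, ℝ) × SL(2, ℝ)) := {p | p.2 ∈ Bx x τ r η p.1} with hB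
  have hBm : MeasurableSet B := measSet_Bx_pair S.xc S.tc r η
  have h1 : ∀ l : ℕ, PM D ν (XB x y τ r η (1 / 2 ^ l / 2) (4 * (1 / 2 ^ l)))
      = ∫⁻ p, {p : SL(2, ℝ) × SL(2, ℝ) | XB x y τ r η (1 / 2 ^ l / 2) (4 * (1 / 2 ^ l))
          p.1 p.2}.indicator (fun _ => (1 : ℝ≥0∞)) p ∂pi := by
    intro l
    rw [PM_prod (S.meas_XB _ _ _), lintegral_indicator_const (S.meas_XB _ _ _), one_mul]
  simp only [h1]
  rw [← lintegral_tsum fun l => (measurable_const.indicator (S.meas_XB _ _ _)).aemeasurable]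
  calc ∫⁻ p, ∑' l : ℕ, {p : SL(2, ℝ) × SL(2, ℝ) | XB x y τ r η (1 / 2 ^ l / 2) (4 * (1 / 2 ^ l))
          p.1 p.2}.indicator (fun _ => (1 : ℝ≥0∞)) p ∂pi
      ≤ ∫⁻ p, B.indicator (fun _ => (4 : ℝ≥0∞)) p ∂pi := by
        refine lintegral_mono fun p => ?_
        by_cases hp : p ∈ B
        · rw [indicator_of_mem hp]
          refine le_trans (ENNReal.tsum_le_tsum fun l => ?_) (count4 |y p.1 p.2|)
          by_cases hl : XB x y τ r η (1 / 2 ^ l / 2) (4 * (1 / 2 ^ l)) p.1 p.2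
          · have e : {p : SL(2, ℝ) × SL(2, ℝ) | XB x y τ r η (1 / 2 ^ l / 2) (4 * (1 / 2 ^ l))
                p.1 p.2}.indicator (fun _ => (1 : ℝ≥0∞)) p = 1 := indicator_of_mem (by exact hl) _
            rw [e, if_pos ⟨hl.2.2.2.1, hl.2.2.2.2⟩]
          · have e : {p : SL(2, ℝ) × SL(2, ℝ) | XB x y τ r η (1 / 2 ^ l / 2) (4 * (1 / 2 ^ l))
                p.1 p.2}.indicator (fun _ => (1 : ℝ≥0∞)) p = 0 := indicator_of_notMem (by exact hl) _
            rw [e]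
            exact zero_le
        · rw [indicator_of_notMem hp]
          have h2 : ∀ l : ℕ, {p : SL(2, ℝ) × SL(2, ℝ) | XB x y τ r η (1 / 2 ^ l / 2)
              (4 * (1 / 2 ^ l)) p.1 p.2}.indicator (fun _ => (1 : ℝ≥0∞)) p = 0 := by
            intro l
            refine indicator_of_notMem (fun hl => hp ?_) _
            obtain ⟨a1, a2, a3, _, _⟩ := hl
            exact ⟨a1, a2, a3⟩
          simp only [h2, tsum_zero, le_refl]
    _ = 4 * pi B := lintegral_indicator_const hBm _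
    _ ≤ 4 * ENNReal.ofReal (C * η ^ 2) := by
        gcongr
        rw [hpi, Measure.prod_apply hBm]
        exact hC η hη hη1

omit [MeasurableSpace SL(2, ℝ)] [BorelSpace SL(2, ℝ)] in
/-- **The dyadic bound.** -/
theorem stmtSum : StmtSum := by
  intro _ _ Γ _ D Φ x y τ κ c r L k₀ k₁ ν S M
  obtain ⟨C, hC0, hC⟩ := M.box
  have hc := S.c0
  have hk₁ : 0 < k₁ := S.kpos.trans_le ((S.klo 1).trans (S.khi 1))
  set K := 5 * c ^ 4 * Real.exp L with hK
  have hK0 : 0 < K := by positivity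
  set c₀ : ℝ := 1 / (128 * (k₁ + 1) * c * K) with hc₀
  have hc₀0 : 0 < c₀ := by positivity
  obtain ⟨l₀, hl₀⟩ := exists_pow_lt_of_lt_one (show 0 < r / (8 * c * K ^ 2) by
    have := S.rpos; positivity) (by norm_num : (1 / 2 : ℝ) < 1)
  set η : ℕ → ℝ := fun n => 1 / ((n : ℝ) + 1) with hη
  have hη0 : ∀ n, 0 < η n := fun n => by positivity
  have hη1 : ∀ n, η n ≤ 1 := fun n => by
    rw [hη]
    exact (div_le_one (by positivity)).2 (by linarith [Nat.cast_nonneg (α := ℝ) n])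
  have hηt : Tendsto η atTop (𝓝 0) := tendsto_one_div_add_atTop_nhds_zero_nat
  set g : ℕ → ℕ → ℝ≥0∞ := fun n l => ENNReal.ofReal (1024 / η n ^ 2) *
    PM D ν (XB x y τ r (η n) (1 / 2 ^ l / 2) (4 * (1 / 2 ^ l))) with hg
  refine ⟨c₀, hc₀0, l₀, fun l => liminf (fun n => g n l) atTop, ?_, ?_⟩
  · -- summability
    have h1 : ∀ n, ∑' l, g n l ≤ ENNReal.ofReal (4096 * C) := by
      intro n
      simp only [hg]
      rw [ENNReal.tsum_mul_left]
      calc ENNReal.ofReal (1024 / η n ^ 2) *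
            ∑' l : ℕ, PM D ν (XB x y τ r (η n) (1 / 2 ^ l / 2) (4 * (1 / 2 ^ l)))
          ≤ ENNReal.ofReal (1024 / η n ^ 2) * (4 * ENNReal.ofReal (C * η n ^ 2)) := by
            gcongr
            exact sum_scales S M hC (hη0 n) (hη1 n)
        _ = ENNReal.ofReal (4096 * C) := by
            have h0 := hη0 n
            rw [show (4 : ℝ≥0∞) = ENNReal.ofReal 4 by norm_num,
              ← ENNReal.ofReal_mul (by positivity), ← ENNReal.ofReal_mul (by positivity)]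
            congr 1
            field_simp
            ring
    have h2 : ∑' l, liminf (fun n => g n l) atTop ≤ ENNReal.ofReal (4096 * C) := by
      rw [← lintegral_count]
      refine (lintegral_liminf_le fun n => measurable_from_top).trans ?_
      refine liminf_le_of_frequently_le' (Frequently.of_forall fun n => ?_)
      rw [lintegral_count]
      exact h1 n
    exact ne_top_of_le_ne_top ENNReal.ofReal_ne_top h2
  · intro l hl δ hδ hδl
    have hY : (0 : ℝ) < 1 / 2 ^ l := by positivity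
    have hYr : (1 : ℝ) / 2 ^ l ≤ r / (8 * c * K ^ 2) := by
      have h1 : ((1 : ℝ) / 2) ^ l ≤ (1 / 2) ^ l₀ := pow_le_pow_of_le_one (by norm_num) (by norm_num) hl
      rw [one_div_pow, one_div_pow] at h1
      rw [one_div_pow] at hl₀
      linarith
    have hδY : δ ≤ 1 / 2 ^ l / (128 * (k₁ + 1) * c * K) := by
      refine hδl.trans (le_of_eq ?_)
      rw [hc₀]
      field_simp
    have e2 : (2 : ℝ) / 2 ^ l = 2 * (1 / 2 ^ l) := by ring
    have h1 : PM D ν (XB x y τ r δ (1 / 2 ^ l) (2 * (1 / 2 ^ l))) ≤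
        liminf (fun n => g n l) atTop * ENNReal.ofReal (δ ^ 2) := by
      have hδ2 : ENNReal.ofReal (δ ^ 2) ≠ 0 := (ENNReal.ofReal_pos.2 (by positivity)).ne'
      rw [← ENNReal.div_le_iff hδ2 ENNReal.ofReal_ne_top]
      refine le_liminf_of_le (by isBoundedDefault) ?_
      filter_upwards [hηt.eventually_le_const hδ] with n hn
      rw [ENNReal.div_le_iff hδ2 ENNReal.ofReal_ne_top, mul_comm (g n l)]
      exact compare S M hY hδ (hη0 n) hn hδY hYr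
    rw [e2]
    exact h1

end

end NC

end QE


end
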