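import Mathlib
import Pool.Agent.BWM.C18
import Pool.Agent.BWM.C21
import Pool.Agent.BWM.C28
import Pool.Agent.BWM.C29
import Pool.Agent.BWM.C30
import Pool.Agent.BWM.C42
import Pool.Agent.BWM.C43

/-! Parts: NCV.Conv, NCV.Setup, NCV.Lim, NCV.Dfin, NCV.CrossA, NCV.CrossB, NCV.Cross, NCV.All -/

section

/-!
# Closed surfaces of negative curvature: fourth moments and quantum ergodicity on the surface

If the fourth moments of normalised eigenfunctions tend to `3`, their squares become equidistributed.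
-/

open UpperHalfPlane MeasureTheory MatrixGroups Filter Topology Set Berry
open scoped ENNReal ContDiff

namespace QE

namespace NC

noncomputable section

variable {Γ : Subgroup SL(2, ℝ)} {ρ : ℍ → ℝ} {D : Set ℍ}

/-- the local wave at the origin -/
theorem rWave_origin (φ : ℍ → ℝ) (m : ℝ) (p : ℍ × ℝ) : rWave ρ φ m 0 p = φ p.1 := by
  unfold rWave
  rw [zero_div, add_zero, show (Complex.I : ℂ) = ((UpperHalfPlane.I : ℍ) : ℂ) from rfl,
    ofComplex_apply, frame_smul_I]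

theorem angle_prob : IsProbabilityMeasure
    (ProbabilityTheory.cond (volume : Measure ℝ) (Set.Ioc 0 (2 * Real.pi))) := by
  refine ProbabilityTheory.cond_isProbabilityMeasure_of_finite ?_ ?_
  · rw [Real.volume_Ioc]
    simp [Real.pi_pos]
  · rw [Real.volume_Ioc]
    exact ENNReal.ofReal_ne_top

theorem area_prob [Countable Γ] (hg : Geo Γ ρ D) :
    IsProbabilityMeasure (ProbabilityTheory.cond (area ρ) D) :=
  ProbabilityTheory.cond_isProbabilityMeasure_of_finite (area_ne_zero hg) (area_ne_top hg)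

/-- averages over the frames of functions of the base point -/
theorem rFrame_base [Countable Γ] (hg : Geo Γ ρ D) {f : ℍ → ℝ} :
    ∫ p, f p.1 ∂(rFrameProb ρ D) = rAvg ρ D f := by
  have h1 := area_prob hg
  have h2 := angle_prob
  unfold rFrameProb rAvg
  rw [integral_fun_fst, measureReal_def]
  simp

/-- continuous invariant functions are integrable -/
theorem integrable_area [Countable Γ] (hg : Geo Γ ρ D)
    (hK : ∃ K : Set ℍ, IsCompact K ∧ ∀ z, ∃ γ ∈ Γ, γ • z ∈ K) {f : ℍ → ℝ} (hf : Continuous f)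
    (hfi : ∀ γ ∈ Γ, ∀ z, f (γ • z) = f z) :
    Integrable f (ProbabilityTheory.cond (area ρ) D) := by
  have h1 := area_prob hg
  obtain ⟨C, hC⟩ := bdd_of_cocompact hf hfi hK
  exact Integrable.of_bound hf.aestronglyMeasurable C (Eventually.of_forall fun z => by
    rw [Real.norm_eq_abs]; exact hC z)

/-- one half of the convergence of the squares -/
theorem mass_le_of_four [Countable Γ] (hg : Geo Γ ρ D)
    (hK : ∃ K : Set ℍ, IsCompact K ∧ ∀ z, ∃ γ ∈ Γ, γ • z ∈ K)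
    {φ : ℕ → ℍ → ℝ} (hc : ∀ n, Continuous (φ n)) (hinv : ∀ n, ∀ γ ∈ Γ, ∀ z, φ n (γ • z) = φ n z)
    (hn : ∀ n, rAvg ρ D (fun z => φ n z ^ 2) = 1)
    (H : ∀ g : ℍ → ℝ, Continuous g → (∀ γ ∈ Γ, ∀ z, g (γ • z) = g z) → ∀ ε > 0,
      ∀ᶠ n in atTop, 3 * rAvg ρ D (fun z => g z * φ n z ^ 2) ^ 2 - ε
        ≤ rAvg ρ D (fun z => g z ^ 2) * rAvg ρ D (fun z => φ n z ^ 4))
    (h4 : Tendsto (fun n => rAvg ρ D (fun z => φ n z ^ 4)) atTop (𝓝 3))
    {f : ℍ → ℝ} (hf : Continuous f) (hfi : ∀ γ ∈ Γ, ∀ z, f (γ • z) = f z) {η : ℝ} (hη : 0 < η) :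
    ∀ᶠ n in atTop, rAvg ρ D (fun z => f z * φ n z ^ 2) ≤ rAvg ρ D f + η := by
  have hP := area_prob hg
  set b : ℝ := rAvg ρ D (fun z => f z ^ 2) with hb
  have hb0 : 0 ≤ b := integral_nonneg fun z => sq_nonneg _
  set t : ℝ := η / (b + 1) with ht
  have ht0 : 0 < t := by positivity
  have htb : t * b ≤ η := by
    rw [ht, div_mul_eq_mul_div, div_le_iff₀ (by positivity)]
    nlinarith
  set g : ℍ → ℝ := fun z => 1 + t * f z with hgd
  have hgc : Continuous g := continuous_const.add (continuous_const.mul hf)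
  have hgi : ∀ γ ∈ Γ, ∀ z, g (γ • z) = g z := fun γ hγ z => by simp only [hgd, hfi γ hγ]
  set G : ℝ := rAvg ρ D (fun z => g z ^ 2) with hG
  have hG0 : 0 ≤ G := integral_nonneg fun z => sq_nonneg _
  have i1 : Integrable f (ProbabilityTheory.cond (area ρ) D) := integrable_area hg hK hf hfi
  have i2 : Integrable (fun z => f z ^ 2) (ProbabilityTheory.cond (area ρ) D) :=
    integrable_area hg hK (hf.pow 2) fun γ hγ z => by
      show f (γ • z) ^ 2 = f z ^ 2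
      rw [hfi γ hγ]
  have eG : G = 1 + 2 * t * rAvg ρ D f + t ^ 2 * b := by
    rw [hG, hb]
    unfold rAvg
    have e : (fun z => g z ^ 2) = fun z => (1 + 2 * t * f z) + t ^ 2 * f z ^ 2 := by
      funext z; simp only [hgd]; ring
    have k1 : Integrable (fun z => 1 + 2 * t * f z) (ProbabilityTheory.cond (area ρ) D) :=
      (integrable_const _).add (i1.const_mul _)
    rw [e, integral_add k1 (i2.const_mul _),
      integral_add (integrable_const _) (i1.const_mul _), integral_const_mul, integral_const_mul]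
    simp
  have ea : ∀ n, rAvg ρ D (fun z => g z * φ n z ^ 2)
      = 1 + t * rAvg ρ D (fun z => f z * φ n z ^ 2) := by
    intro n
    have j1 : Integrable (fun z => φ n z ^ 2) (ProbabilityTheory.cond (area ρ) D) :=
      integrable_area hg hK ((hc n).pow 2) fun γ hγ z => by
        show φ n (γ • z) ^ 2 = φ n z ^ 2
        rw [hinv n γ hγ]
    have j2 : Integrable (fun z => f z * φ n z ^ 2) (ProbabilityTheory.cond (area ρ) D) :=
      integrable_area hg hK (hf.mul ((hc n).pow 2)) fun γ hγ z => by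
        show f (γ • z) * φ n (γ • z) ^ 2 = f z * φ n z ^ 2
        rw [hfi γ hγ, hinv n γ hγ]
    have e : (fun z => g z * φ n z ^ 2) = fun z => φ n z ^ 2 + t * (f z * φ n z ^ 2) := by
      funext z; simp only [hgd]; ring
    have e0 := hn n
    unfold rAvg at e0 ⊢
    rw [e, integral_add j1 (j2.const_mul _), integral_const_mul, e0]
  have h1 := H g hgc hgi (3 * t * η / 4) (by positivity)
  have h2 := h4.eventually_lt_const (show (3 : ℝ) < 3 + 3 * t * η / 4 / (G + 1) by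
    have : 0 < 3 * t * η / 4 / (G + 1) := by positivity
    linarith)
  filter_upwards [h1, h2] with n n1 n2
  rw [ea n] at n1
  set a := rAvg ρ D (fun z => f z * φ n z ^ 2) with ha
  set A := rAvg ρ D (fun z => φ n z ^ 4) with hA
  have h3 : G * A ≤ 3 * G + 3 * t * η / 4 := by
    have h5 : G * A ≤ G * (3 + 3 * t * η / 4 / (G + 1)) := mul_le_mul_of_nonneg_left n2.le hG0
    have h6 : G * (3 * t * η / 4 / (G + 1)) ≤ 3 * t * η / 4 := by
      rw [mul_div_assoc', div_le_iff₀ (by positivity)]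
      have : 0 ≤ 3 * t * η / 4 := by positivity
      linarith only [this]
    linarith
  have h7 : 3 * (1 + 2 * (t * a)) ≤ 3 * G + 3 * t * η / 2 := by
    linarith only [n1, h3, sq_nonneg (t * a)]
  rw [eG] at h7
  have h8 : t * (2 * (a - rAvg ρ D f)) ≤ t * (t * b + η / 2) := by linarith only [h7]
  have h9 := le_of_mul_le_mul_left h8 ht0
  linarith only [hη, htb, h9]

/-- **Fourth moments close to `3` imply equidistribution of the squares.** -/
theorem mass_of_four [Countable Γ] (hg : Geo Γ ρ D)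
    (hK : ∃ K : Set ℍ, IsCompact K ∧ ∀ z, ∃ γ ∈ Γ, γ • z ∈ K)
    {φ : ℕ → ℍ → ℝ} (hc : ∀ n, Continuous (φ n)) (hinv : ∀ n, ∀ γ ∈ Γ, ∀ z, φ n (γ • z) = φ n z)
    (hn : ∀ n, rAvg ρ D (fun z => φ n z ^ 2) = 1)
    (H : ∀ g : ℍ → ℝ, Continuous g → (∀ γ ∈ Γ, ∀ z, g (γ • z) = g z) → ∀ ε > 0,
      ∀ᶠ n in atTop, 3 * rAvg ρ D (fun z => g z * φ n z ^ 2) ^ 2 - ε
        ≤ rAvg ρ D (fun z => g z ^ 2) * rAvg ρ D (fun z => φ n z ^ 4))
    (h4 : Tendsto (fun n => rAvg ρ D (fun z => φ n z ^ 4)) atTop (𝓝 3))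
    {f : ℍ → ℝ} (hf : Continuous f) (hfi : ∀ γ ∈ Γ, ∀ z, f (γ • z) = f z) :
    Tendsto (fun n => rAvg ρ D (fun z => f z * φ n z ^ 2)) atTop (𝓝 (rAvg ρ D f)) := by
  rw [Metric.tendsto_nhds]
  intro η hη
  have h1 := mass_le_of_four hg hK hc hinv hn H h4 hf hfi (half_pos hη)
  have h2 := mass_le_of_four hg hK hc hinv hn H h4 (f := fun z => -f z) hf.neg
    (fun γ hγ z => by rw [hfi γ hγ]) (half_pos hη)
  filter_upwards [h1, h2] with n n1 n2
  have e1 : rAvg ρ D (fun z => -f z * φ n z ^ 2) = -rAvg ρ D (fun z => f z * φ n z ^ 2) := by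
    unfold rAvg
    rw [← integral_neg]
    congr 1; funext z; ring
  have e2 : rAvg ρ D (fun z => -f z) = -rAvg ρ D f := by
    unfold rAvg
    rw [integral_neg]
  rw [e1, e2] at n2
  rw [Real.dist_eq, abs_lt]
  constructor <;> linarith

end

end NC

end QE


end

section

/-!
# Closed surfaces of negative curvature: the local hypotheses for sequences of eigenfunctions
-/

open MeasureTheory Filter Topology Set
open UpperHalfPlane hiding I
open scoped ContDiff MatrixGroups ENNReal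

namespace QE

namespace NC

noncomputable section

variable {Γ : Subgroup SL(2, ℝ)} {D : Set ℍ} {ρ : ℍ → ℝ} {φ : ℕ → ℍ → ℝ} {m : ℕ → ℝ}


lemma continuous_of_ro (h : ContDiffOn ℝ ∞ (ro ρ) UH) : Continuous ρ := by
  have h1 : Continuous fun z : ℍ => ro ρ (z : ℂ) :=
    h.continuousOn.comp_continuous continuous_coe fun z => z.im_pos
  exact h1.congr fun z => ro_coe ρ z

lemma contDiffOn_aR (h : ContDiffOn ℝ ∞ (ro ρ) UH) : ContDiffOn ℝ ∞ (aR ρ) UH := by
  have h1 : ContDiffOn ℝ ∞ (fun z : ℂ => z.im * Real.exp (-(ro ρ z))) UH :=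
    (Complex.imCLM.contDiff.contDiffOn).mul h.neg.exp
  exact Complex.ofRealCLM.contDiff.comp_contDiffOn h1

lemma contDiffOn_gR (h : ContDiffOn ℝ ∞ (ro ρ) UH) : ContDiffOn ℝ ∞ (gR ρ) UH := by
  have h1 : ContDiffOn ℝ ∞ (fun z : ℂ => Real.exp (2 * ro ρ z) / z.im ^ 2) UH := by
    refine (contDiffOn_const.mul h).exp.div ((Complex.imCLM.contDiff.contDiffOn).pow 2) ?_
    intro z hz
    have hz' : 0 < z.im := hz
    exact (pow_pos hz' 2).ne'
  exact Complex.ofRealCLM.contDiff.comp_contDiffOn h1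

lemma aR_sq_gR (ρ : ℍ → ℝ) {z : ℂ} (hz : z ∈ UH) : aR ρ z ^ 2 * gR ρ z = 1 := by
  have hz' : 0 < z.im := hz
  have h1 : (z.im * Real.exp (-(ro ρ z))) ^ 2 * (Real.exp (2 * ro ρ z) / z.im ^ 2) = 1 := by
    have e1 : Real.exp (-(ro ρ z)) ^ 2 * Real.exp (2 * ro ρ z) = 1 := by
      rw [← Real.exp_nat_mul, ← Real.exp_add]
      push_cast
      rw [show 2 * -(ro ρ z) + 2 * ro ρ z = 0 by ring, Real.exp_zero]
    have h0 : z.im ^ 2 ≠ 0 := (pow_pos hz' 2).ne'
    calc (z.im * Real.exp (-(ro ρ z))) ^ 2 * (Real.exp (2 * ro ρ z) / z.im ^ 2)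
        = (z.im ^ 2 / z.im ^ 2) * (Real.exp (-(ro ρ z)) ^ 2 * Real.exp (2 * ro ρ z)) := by ring
      _ = 1 := by rw [e1, div_self h0, one_mul]
  unfold aR gR
  exact_mod_cast h1

/-- the local hypotheses for a sequence of eigenfunctions of a conformal metric which is bounded
in `L⁴` -/
theorem setup_of_eigenR (hro : ContDiffOn ℝ ∞ (ro ρ) UH) (hφ : Berry.REigenSeq Γ ρ φ m)
    (hs : ∀ n, ContDiffOn ℝ ∞ (fun w : ℂ => φ n (ofComplex w)) UH)
    (hm : ∀ n, 1 ≤ m n) (hb : LBdd 4 UH (fun n z => (φ n (ofComplex z) : ℂ))) :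
    Setup UH (gR ρ) (aR ρ) (fun n => 1 / m n) (fun n z => (φ n (ofComplex z) : ℂ)) := by
  have hU : IsOpen UH := isOpen_UH
  have hsm : SmoothSeq UH (fun n z => (φ n (ofComplex z) : ℂ)) := fun n =>
    Complex.ofRealCLM.contDiff.comp_contDiffOn (hs n)
  have hpos : ∀ n, 0 < 1 / m n := fun n => by
    have := hm n
    positivity
  have hlim : Tendsto (fun n => 1 / m n) atTop (𝓝 0) := by
    simpa [one_div, Function.comp_def] using tendsto_inv_atTop_zero.comp hφ.tendsto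
  have heig : ∀ n, ∀ z ∈ UH, 4 * (((1 / m n : ℝ)) : ℂ) ^ 2
      * dz (dzb (fun z => (φ n (ofComplex z) : ℂ))) z = - gR ρ z * (φ n (ofComplex z) : ℂ) := by
    intro n z hz
    have hz' : 0 < z.im := hz
    have hm0 : m n ≠ 0 := by have := hm n; linarith
    have hcd : ContDiffAt ℝ 2 (fun w : ℂ => φ n (ofComplex w)) z :=
      (hφ.smooth _).contDiffAt (hU.mem_nhds hz)
    have h4 := four_dz_dzb hcd
    have he := hφ.eigen n ⟨z, hz'⟩
    have hoc : ofComplex z = ⟨z, hz'⟩ := ofComplex_apply_of_im_pos hz'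
    have hre : (z.im : ℝ) ^ 2 * (Laplacian.laplacian (fun w : ℂ => φ n (ofComplex w)) z)
        = - (m n ^ 2 * Real.exp (2 * ro ρ z) * φ n (ofComplex z)) := by
      unfold ro
      rw [hoc]; exact he
    have hrc : ((z.im : ℝ) : ℂ) ^ 2 * ((Laplacian.laplacian (fun w : ℂ =>
        φ n (ofComplex w)) z : ℝ) : ℂ) = - ((m n : ℂ) ^ 2 * ((Real.exp (2 * ro ρ z) : ℝ) : ℂ)
          * (φ n (ofComplex z) : ℂ)) := by
      exact_mod_cast congrArg (fun x : ℝ => (x : ℂ)) hre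
    rw [← h4] at hrc
    have him : ((z.im : ℝ) : ℂ) ≠ 0 := by exact_mod_cast hz'.ne'
    have hmc : (m n : ℂ) ≠ 0 := by exact_mod_cast hm0
    have hg : gR ρ z = ((Real.exp (2 * ro ρ z) : ℝ) : ℂ) / ((z.im : ℝ) : ℂ) ^ 2 := by
      unfold gR
      rw [Complex.ofReal_div, Complex.ofReal_pow]
    have h1m : (((1 / m n : ℝ)) : ℂ) = 1 / (m n : ℂ) := by
      rw [Complex.ofReal_div, Complex.ofReal_one]
    rw [hg, h1m]
    field_simp
    linear_combination hrc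
  refine ⟨hU, hpos, hlim, contDiffOn_aR hro, contDiffOn_gR hro, fun z _ => Complex.conj_ofReal _,
    fun z hz => aR_sq_gR ρ hz, ?_, fun n z _ => Complex.conj_ofReal _, heig⟩
  refine tame_of_eigen hU hlim (ellProp hU hpos hlim) hsm hb
    (b := fun z => -(1 / 4) * gR ρ z) (contDiffOn_const.mul (contDiffOn_gR hro)) fun n z hz => ?_
  have := heig n z hz
  unfold hLap
  linear_combination (1 / 4) * this

/-- **the module** -/
theorem stmtSetup : StmtSetup := fun _ _ _ _ hF hφ hs hm hb =>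
  setup_of_eigenR hF.smooth hφ hs hm hb

/-- boundedness on compact sets, from bounded averages with respect to the conformal metric -/
lemma bdd_of_rAvg [Countable Γ] (hD : IsFundamentalDomain Γ D (volume : Measure ℍ))
    (hDm : MeasurableSet D) (hK : ∃ K : Set ℍ, IsCompact K ∧ ∀ z, ∃ γ ∈ Γ, γ • z ∈ K)
    (hρ : Continuous ρ) (hρΓ : ∀ γ ∈ Γ, ∀ z, ρ (γ • z) = ρ z) {K : Set ℂ} (hKc : IsCompact K)
    (hKU : K ⊆ {w | 0 < w.im}) : ∃ M : ℝ, 0 ≤ M ∧ ∀ f : ℍ → ℝ, Continuous f → (∀ z, 0 ≤ f z) →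
      (∀ γ ∈ Γ, ∀ z, f (γ • z) = f z) →
        ∫ w in K, f (ofComplex w) ≤ M * Berry.rAvg ρ D f := by
  obtain ⟨ζ, h1, h2, h3, h4, ⟨c₀, hc₀, h5⟩, h6⟩ := exists_test' hD hDm hK hρ hρΓ hKc hKU
  have hg : Berry.Geo Γ ρ D := ⟨hD, hDm, Berry.finite_of_cocompact hD hK, hρΓ,
    Berry.bdd_of_cocompact hρ hρΓ hK, Berry.unif_of_cocompact hρ hρΓ hK⟩
  have hA0 : 0 < (Berry.area ρ D).toReal :=
    ENNReal.toReal_pos (Berry.area_ne_zero hg) (Berry.area_ne_top hg)
  refine ⟨1 / c₀ * (Berry.area ρ D).toReal, by positivity, fun f hf hf0 hinv => ?_⟩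
  have hav := rAvg_eq hg hK h1 h2 h3 h6 hf hinv
  have i1 : Integrable (fun w => ζ w * f (ofComplex w)) :=
    (Surf.continuous_cut_mul h1 h3 hf).integrable_of_hasCompactSupport h2.mul_right
  have i2 : IntegrableOn (fun w => f (ofComplex w)) K := by
    refine ContinuousOn.integrableOn_compact hKc fun w hw => ?_
    have hw' : 0 < w.im := hKU hw
    have h7 : ContinuousAt (fun w : ℂ => (ofComplex w : ℍ)) w :=
      (contMDiffAt_ofComplex (n := 1) hw').continuousAt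
    exact (ContinuousAt.comp (f := fun w : ℂ => (ofComplex w : ℍ)) hf.continuousAt
      h7).continuousWithinAt
  calc ∫ w in K, f (ofComplex w) ≤ ∫ w in K, 1 / c₀ * (ζ w * f (ofComplex w)) := by
        refine setIntegral_mono_on i2 (i1.const_mul _).integrableOn hKc.measurableSet
          fun w hw => ?_
        have h8 := h5 w hw
        have h9 := hf0 (ofComplex w)
        calc f (ofComplex w) = 1 / c₀ * (c₀ * f (ofComplex w)) := by field_simp
          _ ≤ 1 / c₀ * (ζ w * f (ofComplex w)) := by (clear * - h8 h9 hc₀; gcongr)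
    _ ≤ ∫ w, 1 / c₀ * (ζ w * f (ofComplex w)) := by
        refine setIntegral_le_integral (i1.const_mul _) (Eventually.of_forall fun w => ?_)
        have h8 := h4 w
        have h9 := hf0 (ofComplex w)
        show 0 ≤ 1 / c₀ * (ζ w * f (ofComplex w))
        positivity
    _ = 1 / c₀ * ∫ w, ζ w * f (ofComplex w) := integral_const_mul _ _
    _ = 1 / c₀ * (Berry.area ρ D).toReal * Berry.rAvg ρ D f := by
        rw [hav]
        field_simp

/-- fourth powers of the functions -/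
theorem bdd4R [Countable Γ] (hD : IsFundamentalDomain Γ D (volume : Measure ℍ))
    (hDm : MeasurableSet D) (hK : ∃ K : Set ℍ, IsCompact K ∧ ∀ z, ∃ γ ∈ Γ, γ • z ∈ K)
    (hρ : Continuous ρ) (hρΓ : ∀ γ ∈ Γ, ∀ z, ρ (γ • z) = ρ z)
    (hc : ∀ n, Continuous (φ n)) (hinv : ∀ n, ∀ γ ∈ Γ, ∀ z, φ n (γ • z) = φ n z) {C : ℝ}
    (hC : ∀ n, Berry.rAvg ρ D (fun z => φ n z ^ 4) ≤ C) :
    LBdd 4 UH (fun n z => (φ n (ofComplex z) : ℂ)) := by
  intro K hKc hKU
  obtain ⟨M, hM0, hM⟩ := bdd_of_rAvg hD hDm hK hρ hρΓ hKc hKU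
  refine ⟨M * C, Eventually.of_forall fun n => ?_⟩
  have h1 := hM (fun z => φ n z ^ 4) ((hc n).pow 4) (fun z => by positivity)
    (fun γ hγ z => by simp only [hinv n γ hγ z])
  have e : ∀ w : ℂ, ‖((φ n (ofComplex w) : ℝ) : ℂ)‖ ^ 4 = φ n (ofComplex w) ^ 4 := by
    intro w
    rw [Complex.norm_real, Real.norm_eq_abs]
    exact Even.pow_abs (by decide) _
  simp only [e]
  exact h1.trans (mul_le_mul_of_nonneg_left (hC n) hM0)

/-- the same for infinitely many indices (the bound holds eventually or along a subsequence) -/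
theorem bdd4R_ev [Countable Γ] (hD : IsFundamentalDomain Γ D (volume : Measure ℍ))
    (hDm : MeasurableSet D) (hK : ∃ K : Set ℍ, IsCompact K ∧ ∀ z, ∃ γ ∈ Γ, γ • z ∈ K)
    (hρ : Continuous ρ) (hρΓ : ∀ γ ∈ Γ, ∀ z, ρ (γ • z) = ρ z)
    (hc : ∀ n, Continuous (φ n)) (hinv : ∀ n, ∀ γ ∈ Γ, ∀ z, φ n (γ • z) = φ n z) {C : ℝ}
    (hC : ∀ᶠ n in atTop, Berry.rAvg ρ D (fun z => φ n z ^ 4) ≤ C) :
    LBdd 4 UH (fun n z => (φ n (ofComplex z) : ℂ)) := by
  intro K hKc hKU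
  obtain ⟨M, hM0, hM⟩ := bdd_of_rAvg hD hDm hK hρ hρΓ hKc hKU
  refine ⟨M * C, ?_⟩
  filter_upwards [hC] with n hn
  have h1 := hM (fun z => φ n z ^ 4) ((hc n).pow 4) (fun z => by positivity)
    (fun γ hγ z => by simp only [hinv n γ hγ z])
  have e : ∀ w : ℂ, ‖((φ n (ofComplex w) : ℝ) : ℂ)‖ ^ 4 = φ n (ofComplex w) ^ 4 := by
    intro w
    rw [Complex.norm_real, Real.norm_eq_abs]
    exact Even.pow_abs (by decide) _
  simp only [e]
  exact h1.trans (mul_le_mul_of_nonneg_left hn hM0)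

end

end NC

end QE


end

section

/-!
# Module LIM: the weak limits of the products of jets for a conformal metric form a `LimFamR`  (helper76)

Adaptation of helper67's HypTransport and HypLimits to a general real weight `a`.
-/

open MeasureTheory Filter Topology Complex
open UpperHalfPlane hiding I
open scoped ContDiff MatrixGroups

set_option linter.unusedSectionVars false

namespace QE

namespace NC

noncomputable section

namespace LimM

/-- the coefficient of `LL` in the commutator -/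
def bw (a : ℂ → ℂ) (z : ℂ) : ℂ := -(2 * I) * dzb a z

/-- the coefficient of `LLb` in the commutator -/
def bc (a : ℂ → ℂ) (z : ℂ) : ℂ := 2 * I * dz a z

variable {h : ℕ → ℝ} {φ : ℕ → ℂ → ℂ} {a g : ℂ → ℂ}

theorem dA {f : ℂ → ℂ} (hf : ContDiffOn ℝ ∞ f UH) {z : ℂ} (hz : z ∈ UH) :
    DifferentiableAt ℝ f z :=
  (hf.contDiffAt (isOpen_UH.mem_nhds hz)).differentiableAt (by simp)

theorem bw_smooth (ha : ContDiffOn ℝ ∞ a UH) : ContDiffOn ℝ ∞ (bw a) UH :=
  contDiffOn_const.mul (contDiffOn_dzb isOpen_UH ha)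

theorem bc_smooth (ha : ContDiffOn ℝ ∞ a UH) : ContDiffOn ℝ ∞ (bc a) UH :=
  contDiffOn_const.mul (contDiffOn_dz isOpen_UH ha)

/-- the commutator of the two operators -/
theorem comm_exact (ha : ContDiffOn ℝ ∞ a UH) {u : ℕ → ℂ → ℂ} (hu : SmoothSeq UH u) (n : ℕ) (z : ℂ)
    (hz : z ∈ UH) :
    LLb h a (LL h a u) n z = LL h a (LLb h a u) n z
      + (h n : ℂ) * (bw a z * LL h a u n z + bc a z * LLb h a u n z) := by
  have hda : DifferentiableAt ℝ a z := dA ha hz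
  have s1 : DifferentiableAt ℝ (dz (u n)) z := (SmoothSeq.dz isOpen_UH hu).dAt isOpen_UH n hz
  have s2 : DifferentiableAt ℝ (dzb (u n)) z := (SmoothSeq.dzb isOpen_UH hu).dAt isOpen_UH n hz
  have e1 : dzb (LL h a u n) z
      = -(2 * I * h n) * (dzb a z * dz (u n) z + a z * dzb (dz (u n)) z) := by
    unfold LL
    have : (fun z => -(2 * I * (h n : ℂ)) * a z * dz (u n) z)
        = fun z => -(2 * I * (h n : ℂ)) * (a z * dz (u n) z) := by funext w; ring
    rw [this, dzb_const_mul _ (hda.fun_mul s1), dzb_mul hda s1]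
  have e2 : dz (LLb h a u n) z
      = -(2 * I * h n) * (dz a z * dzb (u n) z + a z * dz (dzb (u n)) z) := by
    unfold LLb
    have : (fun z => -(2 * I * (h n : ℂ)) * a z * dzb (u n) z)
        = fun z => -(2 * I * (h n : ℂ)) * (a z * dzb (u n) z) := by funext w; ring
    rw [this, dz_const_mul _ (hda.fun_mul s2), dz_mul hda s2]
  have e3 : LLb h a (LL h a u) n z = -(2 * I * h n) * a z * dzb (LL h a u n) z := rfl
  have e4 : LL h a (LLb h a u) n z = -(2 * I * h n) * a z * dz (LLb h a u n) z := rfl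
  have e5 : LL h a u n z = -(2 * I * h n) * a z * dz (u n) z := rfl
  have e6 : LLb h a u n z = -(2 * I * h n) * a z * dzb (u n) z := rfl
  rw [e3, e4, e1, e2, e5, e6, dz_dzb_comm (((hu n).contDiffAt
    (isOpen_UH.mem_nhds hz)).of_le (WithTop.coe_le_coe.2 le_top))]
  unfold bw bc
  ring

section S

variable (S : Setup UH g a h φ)

include S

/-- `L̄ E_1 = φ + h b E_1` -/
theorem LLb_one_exact (n : ℕ) (z : ℂ) (hz : z ∈ UH) :
    LLb h a (jet h a φ 1) n z = jet h a φ 0 n z + (h n : ℂ) * (bw a z * jet h a φ 1 n z) := by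
  have hda : DifferentiableAt ℝ a z := dA S.ha hz
  have s1 : DifferentiableAt ℝ (dz (φ n)) z :=
    (SmoothSeq.dz isOpen_UH S.tame.smooth).dAt isOpen_UH n hz
  have e1 : dzb (LL h a φ n) z
      = -(2 * I * h n) * (dzb a z * dz (φ n) z + a z * dzb (dz (φ n)) z) := by
    unfold LL
    have : (fun z => -(2 * I * (h n : ℂ)) * a z * dz (φ n) z)
        = fun z => -(2 * I * (h n : ℂ)) * (a z * dz (φ n) z) := by funext w; ring
    rw [this, dzb_const_mul _ (hda.fun_mul s1), dzb_mul hda s1]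
  have e3 : LLb h a (jet h a φ 1) n z
      = -(2 * I * h n) * a z * dzb (LL h a φ n) z := rfl
  have e5 : jet h a φ 1 n z = -(2 * I * h n) * a z * dz (φ n) z := rfl
  have e6 : jet h a φ 0 n z = φ n z := rfl
  have hI : I ^ 2 = -1 := I_sq
  have hc : dz (dzb (φ n)) z = dzb (dz (φ n)) z := dz_dzb_comm (((S.tame.smooth n).contDiffAt
    (isOpen_UH.mem_nhds hz)).of_le (WithTop.coe_le_coe.2 le_top))
  have hag := S.ag z hz
  have heig := S.eig n z hz
  rw [hc] at heig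
  rw [e3, e1, e5, e6]
  unfold bw
  linear_combination (4 * (h n : ℂ) ^ 2 * a z ^ 2 * dzb (dz (φ n)) z) * hI
    - a z ^ 2 * heig + φ n z * hag

/-- the second order expansion of `L̄ E_{m+1}` -/
theorem LLb_exp (m : ℕ) : Near2 UH h (LLb h a (jet h a φ (m + 1))) (jet h a φ m)
    (fun n z => ((m : ℂ) + 1) * (bw a z * jet h a φ (m + 1) n z)
      + (m : ℂ) * (bc a z * jet h a φ (m - 1) n z)) := by
  have hU := isOpen_UH
  have hB := bw_smooth S.ha
  have hC := bc_smooth S.ha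
  induction m with
  | zero =>
    refine ⟨_, Tame.zero isOpen_UH, fun n z hz => ?_⟩
    rw [LLb_one_exact S n z hz]
    simp
  | succ m ih =>
    obtain ⟨w, hw, hw'⟩ := ih
    have t1 := (hw.LL isOpen_UH S.hlim S.ha)
    have j1 := S.tame_jet (m + 1)
    have j2 := S.tame_jet (m - 1)
    have hbz : ContDiffOn ℝ ∞ (fun z => a z * dz (bw a) z) UH :=
      S.ha.mul (contDiffOn_dz hU hB)
    have hcz : ContDiffOn ℝ ∞ (fun z => a z * dz (bc a) z) UH :=
      S.ha.mul (contDiffOn_dz hU hC)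
    -- derivatives of the coefficients
    have t2 := (j1.fn_mul hU S.hlim hbz).smul hU (-(2 * I) * ((m : ℂ) + 1))
    have t3 := (j2.fn_mul hU S.hlim hcz).smul hU (-(2 * I) * (m : ℂ))
    -- the error of `L̄ e_{m+1}` in the second term
    have t4 := (((j1.fn_mul hU S.hlim hB).smul hU ((m : ℂ) + 1)).add hU
      ((j2.fn_mul hU S.hlim hC).smul hU (m : ℂ))).fn_mul hU S.hlim hC
    have hbdh : ∀ᶠ n in atTop, ‖((h n : ℝ) : ℂ)‖ ≤ 1 := hbd S.hlim
    have t5 := (hw.fn_mul hU S.hlim hC).const_mul hU hbdh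
    refine ⟨_, (((t1.add hU t2).add hU t3).add hU t4).add hU t5, fun n z hz => ?_⟩
    have s0 : SmoothSeq UH (jet h a φ (m + 1)) := (S.tame_jet (m + 1)).smooth
    have e0 := comm_exact (h := h) S.ha s0 n z hz
    have e1 : jet h a φ (m + 1 + 1) = LL h a (jet h a φ (m + 1)) := rfl
    have d1 : DifferentiableAt ℝ (jet h a φ m n) z := (S.tame_jet m).smooth.dAt isOpen_UH n hz
    have d2 : DifferentiableAt ℝ (jet h a φ (m + 1) n) z := s0.dAt isOpen_UH n hz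
    have d3 : DifferentiableAt ℝ (jet h a φ (m - 1) n) z :=
      (S.tame_jet (m - 1)).smooth.dAt isOpen_UH n hz
    have d4 : DifferentiableAt ℝ (w n) z := hw.smooth.dAt isOpen_UH n hz
    have dB : DifferentiableAt ℝ (bw a) z := dA hB hz
    have dC : DifferentiableAt ℝ (bc a) z := dA hC hz
    have x1 := (dB.fun_mul d2).const_mul ((m : ℂ) + 1)
    have x2 := (dC.fun_mul d3).const_mul (m : ℂ)
    have e2 : dz (LLb h a (jet h a φ (m + 1)) n) z = dz (jet h a φ m n) z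
        + (h n : ℂ) * (((m : ℂ) + 1) * (dz (bw a) z * jet h a φ (m + 1) n z
            + bw a z * dz (jet h a φ (m + 1) n) z)
          + (m : ℂ) * (dz (bc a) z * jet h a φ (m - 1) n z
            + bc a z * dz (jet h a φ (m - 1) n) z)) + (h n : ℂ) ^ 2 * dz (w n) z := by
      rw [dz_congr_on isOpen_UH (hw' n) hz]
      rw [dz_add (d1.fun_add ((x1.fun_add x2).const_mul _))
        (d4.const_mul _), dz_add d1 ((x1.fun_add x2).const_mul _),
        dz_const_mul _ (x1.fun_add x2), dz_const_mul _ d4,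
        dz_add x1 x2, dz_const_mul _ (dB.fun_mul d2), dz_const_mul _ (dC.fun_mul d3),
        dz_mul dB d2, dz_mul dC d3]
    have e3 : LL h a (LLb h a (jet h a φ (m + 1))) n z
        = -(2 * I * h n) * a z * dz (LLb h a (jet h a φ (m + 1)) n) z := rfl
    have e4 : ∀ k, jet h a φ (k + 1) n z
        = -(2 * I * h n) * a z * dz (jet h a φ k n) z := fun k => rfl
    have e5 : LL h a w n z = -(2 * I * h n) * a z * dz (w n) z := rfl
    have e6 : (m : ℂ) * (-(2 * I * h n) * a z * dz (jet h a φ (m - 1) n) z)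
        = (m : ℂ) * jet h a φ m n z := by
      rcases Nat.eq_zero_or_pos m with h0 | h0
      · rw [h0]; simp
      · obtain ⟨k, rfl⟩ : ∃ k, m = k + 1 := ⟨m - 1, by omega⟩
        rw [Nat.add_sub_cancel, e4 k]
    have e7 := hw' n z hz
    have e8 : (m + 1 - 1 : ℕ) = m := by omega
    rw [e1, e0, e3, e2, e8]
    have e9 := e4 m
    have e10 := e4 (m + 1)
    have e11 : LL h a (jet h a φ (m + 1)) n z = jet h a φ (m + 1 + 1) n z := rfl
    rw [e5]
    push_cast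
    linear_combination (-1 : ℂ) * e9 - (h n : ℂ) * ((m : ℂ) + 1) * bw a z * e10
      + (h n : ℂ) * bc a z * e6
      + (h n : ℂ) * bc a z * e7 - (h n : ℂ) * ((m : ℂ) + 1) * bw a z * e11

/-- the derivative of a product of two jets, exactly -/
theorem LL_prod_exact (j m : ℕ) (n : ℕ) (z : ℂ) (hz : z ∈ UH) :
    -(2 * I * h n) * a z * dz (fun z => jet h a φ j n z * jet h a φ m n z) z
      = jet h a φ (j + 1) n z * jet h a φ m n z + jet h a φ j n z * jet h a φ (m + 1) n z := by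
  have d1 : DifferentiableAt ℝ (jet h a φ j n) z := (S.tame_jet j).smooth.dAt isOpen_UH n hz
  have d2 : DifferentiableAt ℝ (jet h a φ m n) z := (S.tame_jet m).smooth.dAt isOpen_UH n hz
  have e4 : ∀ k, jet h a φ (k + 1) n z
      = -(2 * I * h n) * a z * dz (jet h a φ k n) z := fun k => rfl
  rw [dz_mul d1 d2, e4 j, e4 m]
  ring

theorem LLb_prod_exact (j m : ℕ) (n : ℕ) (z : ℂ) (hz : z ∈ UH) :
    -(2 * I * h n) * a z * dzb (fun z => jet h a φ j n z * jet h a φ m n z) z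
      = LLb h a (jet h a φ j) n z * jet h a φ m n z
        + jet h a φ j n z * LLb h a (jet h a φ m) n z := by
  have d1 : DifferentiableAt ℝ (jet h a φ j n) z := (S.tame_jet j).smooth.dAt isOpen_UH n hz
  have d2 : DifferentiableAt ℝ (jet h a φ m n) z := (S.tame_jet m).smooth.dAt isOpen_UH n hz
  have e3 : ∀ k, LLb h a (jet h a φ k) n z
      = -(2 * I * h n) * a z * dzb (jet h a φ k n) z := fun k => rfl
  rw [dzb_mul d1 d2, e3 j, e3 m]
  ring

theorem a_ne {z : ℂ} (hz : z ∈ UH) : a z ≠ 0 := by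
  intro h0
  have := S.ag z hz
  rw [h0] at this
  simp at this

theorem smooth_inv : ContDiffOn ℝ ∞ (fun z => (a z)⁻¹) UH :=
  S.ha.inv fun _ hz => a_ne S hz

theorem g_eq {z : ℂ} (hz : z ∈ UH) : g z = ((a z)⁻¹) ^ 2 := by
  have h1 := S.ag z hz
  have h2 := a_ne S hz
  field_simp
  linear_combination h1

/-- the derivatives of `ζ / a` -/
theorem dz_div {ζ : ℂ → ℂ} (hζ : Test UH ζ) {z : ℂ} (hz : z ∈ UH) :
    dz (fun z => ζ z * (a z)⁻¹) z
      = dz ζ z * (a z)⁻¹ - dz a z * (ζ z * ((a z)⁻¹) ^ 2) := by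
  have hζ1 : Test UH (fun z => ζ z * (a z)⁻¹) := hζ.mul isOpen_UH (smooth_inv S)
  have hd := hζ1.smooth.differentiable (by simp) z
  have h2 : dz ζ z = dz (fun z => (ζ z * (a z)⁻¹) * a z) z := by
    refine dz_congr_on isOpen_UH (fun w hw => ?_) hz
    rw [mul_assoc, inv_mul_cancel₀ (a_ne S hw), mul_one]
  have h3 : dz (fun z => (ζ z * (a z)⁻¹) * a z) z
      = dz (fun z => ζ z * (a z)⁻¹) z * a z + (ζ z * (a z)⁻¹) * dz a z :=
    dz_mul hd (dA S.ha hz)
  rw [h3] at h2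
  have ha := a_ne S hz
  rw [h2]
  field_simp
  ring

theorem dzb_div {ζ : ℂ → ℂ} (hζ : Test UH ζ) {z : ℂ} (hz : z ∈ UH) :
    dzb (fun z => ζ z * (a z)⁻¹) z
      = dzb ζ z * (a z)⁻¹ - dzb a z * (ζ z * ((a z)⁻¹) ^ 2) := by
  have hζ1 : Test UH (fun z => ζ z * (a z)⁻¹) := hζ.mul isOpen_UH (smooth_inv S)
  have hd := hζ1.smooth.differentiable (by simp) z
  have h2 : dzb ζ z = dzb (fun z => (ζ z * (a z)⁻¹) * a z) z := by
    refine dzb_congr_on isOpen_UH (fun w hw => ?_) hz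
    rw [mul_assoc, inv_mul_cancel₀ (a_ne S hw), mul_one]
  have h3 : dzb (fun z => (ζ z * (a z)⁻¹) * a z) z
      = dzb (fun z => ζ z * (a z)⁻¹) z * a z + (ζ z * (a z)⁻¹) * dzb a z :=
    dzb_mul hd (dA S.ha hz)
  rw [h3] at h2
  have ha := a_ne S hz
  rw [h2]
  field_simp
  ring

/-- the test functions `ζ b / a²` and so on -/
theorem tst {ζ f : ℂ → ℂ} (hζ : Test UH ζ) (hf : ContDiffOn ℝ ∞ f UH) :
    Test UH (fun z => ζ z * (((a z)⁻¹) ^ 2 * f z)) :=
  hζ.mul isOpen_UH (((smooth_inv S).pow 2).mul hf)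

/-- the integrated identity behind the transport equation -/
theorem transport_id (m : ℕ) : ∃ w, Tame UH h w ∧ ∀ n, ∀ ζ, Test UH ζ →
    2 * I * (∫ z, dz (fun z => ζ z * (a z)⁻¹) z * (jet h a φ 0 n z * jet h a φ m n z))
      - 2 * I * (∫ z, dzb (fun z => ζ z * (a z)⁻¹) z
          * (jet h a φ 1 n z * jet h a φ (m + 1) n z))
      = -((m : ℂ) + 2) * (∫ z, (ζ z * (((a z)⁻¹) ^ 2 * bw a z))
          * (jet h a φ 1 n z * jet h a φ (m + 1) n z))
        - (m : ℂ) * (∫ z, (ζ z * (((a z)⁻¹) ^ 2 * bc a z))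
          * (jet h a φ 1 n z * jet h a φ (m - 1) n z))
        - (h n : ℂ) * (∫ z, (ζ z * ((a z)⁻¹) ^ 2) * (jet h a φ 1 n z * w n z)) := by
  obtain ⟨w, hw, hw'⟩ := LLb_exp S m
  refine ⟨w, hw, fun n ζ hζ => ?_⟩
  have hζ1 : Test UH (fun z => ζ z * (a z)⁻¹) := hζ.mul isOpen_UH (smooth_inv S)
  have hζ2 : Test UH (fun z => ζ z * ((a z)⁻¹) ^ 2) :=
    hζ.mul isOpen_UH ((smooth_inv S).pow 2)
  have hζB := tst S hζ (bw_smooth S.ha)
  have hζC := tst S hζ (bc_smooth S.ha)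
  have sA : ContDiffOn ℝ ∞ (fun z => jet h a φ 0 n z * jet h a φ m n z) UH :=
    ((S.tame_jet 0).smooth n).mul ((S.tame_jet m).smooth n)
  have sB : ContDiffOn ℝ ∞ (fun z => jet h a φ 1 n z * jet h a φ (m + 1) n z) UH :=
    ((S.tame_jet 1).smooth n).mul ((S.tame_jet (m + 1)).smooth n)
  have sD : ContDiffOn ℝ ∞ (fun z => jet h a φ 1 n z * jet h a φ (m - 1) n z) UH :=
    ((S.tame_jet 1).smooth n).mul ((S.tame_jet (m - 1)).smooth n)
  have sE : ContDiffOn ℝ ∞ (fun z => jet h a φ 1 n z * w n z) UH :=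
    ((S.tame_jet 1).smooth n).mul (hw.smooth n)
  have i1 := integral_mul_dz isOpen_UH hζ1 sA
  have i2 := integral_mul_dzb isOpen_UH hζ1 sB
  have g1 := hζB.int isOpen_UH sB
  have g2 := hζC.int isOpen_UH sD
  have g3 := hζ2.int isOpen_UH sE
  have g4 := hζ1.int isOpen_UH (contDiffOn_dz isOpen_UH sA)
  have g5 := hζ1.int isOpen_UH (contDiffOn_dzb isOpen_UH sB)
  have hn : (h n : ℂ) ≠ 0 := by exact_mod_cast (S.hpos n).ne'
  -- pointwise identity
  have pw : ∀ z, -(2 * I) * ((ζ z * (a z)⁻¹)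
        * dz (fun z => jet h a φ 0 n z * jet h a φ m n z) z)
      + 2 * I * ((ζ z * (a z)⁻¹)
        * dzb (fun z => jet h a φ 1 n z * jet h a φ (m + 1) n z) z)
      = -((m : ℂ) + 2) * ((ζ z * (((a z)⁻¹) ^ 2 * bw a z))
          * (jet h a φ 1 n z * jet h a φ (m + 1) n z))
        + -(m : ℂ) * ((ζ z * (((a z)⁻¹) ^ 2 * bc a z))
          * (jet h a φ 1 n z * jet h a φ (m - 1) n z))
        + -(h n : ℂ) * ((ζ z * ((a z)⁻¹) ^ 2) * (jet h a φ 1 n z * w n z)) := by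
    intro z
    by_cases hz : z ∈ UH
    · have p1 := LL_prod_exact S 0 m n z hz
      have p2 := LLb_prod_exact S 1 (m + 1) n z hz
      rw [LLb_one_exact S n z hz, hw' n z hz] at p2
      have ha := a_ne S hz
      set A' := dz (fun z => jet h a φ 0 n z * jet h a φ m n z) z
      set B' := dzb (fun z => jet h a φ 1 n z * jet h a φ (m + 1) n z) z
      have q1 : -(2 * I) * A' = (jet h a φ (0 + 1) n z * jet h a φ m n z
          + jet h a φ 0 n z * jet h a φ (m + 1) n z) * ((h n : ℂ)⁻¹ * (a z)⁻¹) := by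
        rw [← p1]; field_simp
      have q2 : 2 * I * B' = -(((jet h a φ 0 n z + (h n : ℂ) * (bw a z * jet h a φ 1 n z))
          * jet h a φ (m + 1) n z + jet h a φ 1 n z * (jet h a φ m n z + (h n : ℂ)
            * (((m : ℂ) + 1) * (bw a z * jet h a φ (m + 1) n z)
              + (m : ℂ) * (bc a z * jet h a φ (m - 1) n z))
            + (h n : ℂ) ^ 2 * w n z)) * ((h n : ℂ)⁻¹ * (a z)⁻¹)) := by
        rw [← p2]; field_simp
      have e : -(2 * I) * ((ζ z * (a z)⁻¹) * A')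
          + 2 * I * ((ζ z * (a z)⁻¹) * B')
          = (ζ z * (a z)⁻¹) * (-(2 * I) * A' + 2 * I * B') := by ring
      rw [e, q1, q2]
      field_simp
      ring
    · have h0 := (hζ.zero_of_notMem hz).1
      rw [h0]; ring
  have t1 : ∫ z, (-(2 * I) * ((ζ z * (a z)⁻¹)
        * dz (fun z => jet h a φ 0 n z * jet h a φ m n z) z)
      + 2 * I * ((ζ z * (a z)⁻¹)
        * dzb (fun z => jet h a φ 1 n z * jet h a φ (m + 1) n z) z))
      = ∫ z, (-((m : ℂ) + 2) * ((ζ z * (((a z)⁻¹) ^ 2 * bw a z))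
            * (jet h a φ 1 n z * jet h a φ (m + 1) n z))
        + -(m : ℂ) * ((ζ z * (((a z)⁻¹) ^ 2 * bc a z))
            * (jet h a φ 1 n z * jet h a φ (m - 1) n z))
        + -(h n : ℂ) * ((ζ z * ((a z)⁻¹) ^ 2) * (jet h a φ 1 n z * w n z))) :=
    integral_congr_ae (Filter.Eventually.of_forall pw)
  have t2 : ∫ z, (-(2 * I) * ((ζ z * (a z)⁻¹)
        * dz (fun z => jet h a φ 0 n z * jet h a φ m n z) z)
      + 2 * I * ((ζ z * (a z)⁻¹)
        * dzb (fun z => jet h a φ 1 n z * jet h a φ (m + 1) n z) z))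
      = -(2 * I) * (∫ z, (ζ z * (a z)⁻¹)
        * dz (fun z => jet h a φ 0 n z * jet h a φ m n z) z)
      + 2 * I * (∫ z, (ζ z * (a z)⁻¹)
        * dzb (fun z => jet h a φ 1 n z * jet h a φ (m + 1) n z) z) := by
    rw [integral_add (g4.const_mul _) (g5.const_mul _), integral_const_mul, integral_const_mul]
  have t3 : ∫ z, (-((m : ℂ) + 2) * ((ζ z * (((a z)⁻¹) ^ 2 * bw a z))
            * (jet h a φ 1 n z * jet h a φ (m + 1) n z))
        + -(m : ℂ) * ((ζ z * (((a z)⁻¹) ^ 2 * bc a z))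
            * (jet h a φ 1 n z * jet h a φ (m - 1) n z))
        + -(h n : ℂ) * ((ζ z * ((a z)⁻¹) ^ 2) * (jet h a φ 1 n z * w n z)))
      = -((m : ℂ) + 2) * (∫ z, (ζ z * (((a z)⁻¹) ^ 2 * bw a z))
            * (jet h a φ 1 n z * jet h a φ (m + 1) n z))
        + -(m : ℂ) * (∫ z, (ζ z * (((a z)⁻¹) ^ 2 * bc a z))
            * (jet h a φ 1 n z * jet h a φ (m - 1) n z))
        + -(h n : ℂ) * (∫ z, (ζ z * ((a z)⁻¹) ^ 2) * (jet h a φ 1 n z * w n z)) := by
    have g12 : Integrable (fun z => -((m : ℂ) + 2) * ((ζ z * (((a z)⁻¹) ^ 2 * bw a z))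
            * (jet h a φ 1 n z * jet h a φ (m + 1) n z))
        + -(m : ℂ) * ((ζ z * (((a z)⁻¹) ^ 2 * bc a z))
            * (jet h a φ 1 n z * jet h a φ (m - 1) n z))) :=
      (g1.const_mul _).add (g2.const_mul _)
    rw [integral_add g12 (g3.const_mul _),
      integral_add (g1.const_mul _) (g2.const_mul _), integral_const_mul, integral_const_mul,
      integral_const_mul]
  rw [t2, t3] at t1
  rw [i1, i2] at t1
  linear_combination t1

variable {u : ℤ → ℂ → ℂ} (hl : ∀ k, LocL2 UH (u k)) (hw : JLim UH h a φ u)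

include hl hw

/-- the transport equation for positive `k` -/
theorem transport_pos (m : ℕ) {ζ : ℂ → ℂ} (hζ : Test UH ζ) :
    ∫ z, ((a z * dz ζ z - ((m + 1 : ℤ) : ℂ) * dz a z * ζ z) * u ((m + 1 : ℤ) - 1) z
      + (a z * dzb ζ z + ((m + 1 : ℤ) : ℂ) * dzb a z * ζ z) * u ((m + 1 : ℤ) + 1) z)
        * g z = 0 := by
  obtain ⟨w, hwt, hid⟩ := transport_id S m
  have hζ1 : Test UH (fun z => ζ z * (a z)⁻¹) := hζ.mul isOpen_UH (smooth_inv S)
  have hζ2 : Test UH (fun z => ζ z * ((a z)⁻¹) ^ 2) :=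
    hζ.mul isOpen_UH ((smooth_inv S).pow 2)
  have hζB := tst S hζ (bw_smooth S.ha)
  have hζC := tst S hζ (bc_smooth S.ha)
  -- the limits
  have tA : Tendsto (fun n => ∫ z, dz (fun z => ζ z * (a z)⁻¹) z
      * (jet h a φ 0 n z * jet h a φ m n z)) atTop
      (𝓝 (∫ z, dz (fun z => ζ z * (a z)⁻¹) z * u (m : ℤ) z)) :=
    (S.lim_zero hl hw (m : ℤ)).test hζ1.dz
  have wB : WLim UH (fun n z => jet h a φ 1 n z * jet h a φ (m + 1) n z)
      (fun z => -u ((m : ℤ) + 2) z) := by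
    have := hw 1 ((m + 1 : ℕ) : ℤ)
    refine this.congr_right fun z _ => ?_
    have e : (1 : ℤ) + ((m + 1 : ℕ) : ℤ) = (m : ℤ) + 2 := by push_cast; ring
    rw [e]; simp
  have tB := wB.test hζ1.dzb
  have tC := wB.test hζB
  have tD : Tendsto (fun n => (m : ℂ) * ∫ z, (ζ z * (((a z)⁻¹) ^ 2 * bc a z))
      * (jet h a φ 1 n z * jet h a φ (m - 1) n z)) atTop
      (𝓝 ((m : ℂ) * ∫ z, (ζ z * (((a z)⁻¹) ^ 2 * bc a z)) * -u (m : ℤ) z)) := by
    rcases Nat.eq_zero_or_pos m with h0 | h0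
    · rw [h0]; simp
    · have wD : WLim UH (fun n z => jet h a φ 1 n z * jet h a φ (m - 1) n z)
          (fun z => -u (m : ℤ) z) := by
        have := hw 1 ((m - 1 : ℕ) : ℤ)
        refine this.congr_right fun z _ => ?_
        have e : (1 : ℤ) + ((m - 1 : ℕ) : ℤ) = (m : ℤ) := by omega
        rw [e]; simp
      exact (wD.test hζC).const_mul _
  have tE := tendsto_h_int S.hlim (S.tame_jet 1) hwt hζ2
  have lim1 := (tA.const_mul (2 * I)).sub (tB.const_mul (2 * I))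
  have lim2 := ((tC.const_mul (-((m : ℂ) + 2))).sub tD).sub tE
  have heq := tendsto_nhds_unique (lim1.congr fun n => hid n ζ hζ) lim2
  -- integrability
  have j1 := hζ1.dz.int_LocL2 (hl (m : ℤ))
  have j2 := hζ1.dzb.int_LocL2 (hl ((m : ℤ) + 2))
  have j3 := hζB.int_LocL2 (hl ((m : ℤ) + 2))
  have j4 := hζC.int_LocL2 (hl (m : ℤ))
  have n1 : ∀ f g : ℂ → ℂ, ∫ z, f z * -g z = -∫ z, f z * g z := by
    intro f g
    rw [← integral_neg]
    exact integral_congr_ae (Filter.Eventually.of_forall fun z => by beta_reduce; ring)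
  rw [n1, n1, n1] at heq
  have e1 : ((m + 1 : ℤ) - 1) = (m : ℤ) := by ring
  have e2 : ((m + 1 : ℤ) + 1) = (m : ℤ) + 2 := by ring
  rw [e1, e2]
  have hI : I ^ 2 = -1 := I_sq
  have pw : ∀ z : ℂ, ((a z * dz ζ z - ((m + 1 : ℤ) : ℂ) * dz a z * ζ z) * u (m : ℤ) z
      + (a z * dzb ζ z + ((m + 1 : ℤ) : ℂ) * dzb a z * ζ z) * u ((m : ℤ) + 2) z)
        * g z
      = (dz (fun z => ζ z * (a z)⁻¹) z * u (m : ℤ) z
        + dzb (fun z => ζ z * (a z)⁻¹) z * u ((m : ℤ) + 2) z)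
        + (I / 2 * (m : ℂ) * ((ζ z * (((a z)⁻¹) ^ 2 * bc a z)) * u (m : ℤ) z)
        + I / 2 * ((m : ℂ) + 2) * ((ζ z * (((a z)⁻¹) ^ 2 * bw a z)) * u ((m : ℤ) + 2) z)) := by
    intro z
    by_cases hz : z ∈ UH
    · rw [dz_div S hζ hz, dzb_div S hζ hz, g_eq S hz]
      have ha := a_ne S hz
      unfold bw bc
      have ea : a z * (a z)⁻¹ = 1 := mul_inv_cancel₀ ha
      push_cast
      linear_combination ((a z)⁻¹ * (dz ζ z * u (m : ℤ) z + dzb ζ z * u ((m : ℤ) + 2) z)) * ea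
        + (-(m : ℂ) * ζ z * ((a z)⁻¹) ^ 2 * dz a z * u (m : ℤ) z
          + ((m : ℂ) + 2) * ζ z * ((a z)⁻¹) ^ 2 * dzb a z * u ((m : ℤ) + 2) z) * hI
    · obtain ⟨h0, h1, h2⟩ := hζ.zero_of_notMem hz
      obtain ⟨_, h3, h4⟩ := hζ1.zero_of_notMem hz
      rw [h0, h1, h2, h3, h4]; ring
  have t1 : ∫ z : ℂ, ((a z * dz ζ z - ((m + 1 : ℤ) : ℂ) * dz a z * ζ z) * u (m : ℤ) z
      + (a z * dzb ζ z + ((m + 1 : ℤ) : ℂ) * dzb a z * ζ z) * u ((m : ℤ) + 2) z)
        * g z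
      = ((∫ z, dz (fun z => ζ z * (a z)⁻¹) z * u (m : ℤ) z)
        + ∫ z, dzb (fun z => ζ z * (a z)⁻¹) z * u ((m : ℤ) + 2) z)
        + (I / 2 * (m : ℂ) * (∫ z, (ζ z * (((a z)⁻¹) ^ 2 * bc a z)) * u (m : ℤ) z)
        + I / 2 * ((m : ℂ) + 2)
          * (∫ z, (ζ z * (((a z)⁻¹) ^ 2 * bw a z)) * u ((m : ℤ) + 2) z)) := by
    have j12 : Integrable (fun z => dz (fun z => ζ z * (a z)⁻¹) z * u (m : ℤ) z
        + dzb (fun z => ζ z * (a z)⁻¹) z * u ((m : ℤ) + 2) z) := j1.add j2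
    have j34 : Integrable (fun z => I / 2 * (m : ℂ) * ((ζ z * (((a z)⁻¹) ^ 2 * bc a z))
          * u (m : ℤ) z)
        + I / 2 * ((m : ℂ) + 2)
          * ((ζ z * (((a z)⁻¹) ^ 2 * bw a z)) * u ((m : ℤ) + 2) z)) :=
      (j4.const_mul _).add (j3.const_mul _)
    rw [integral_congr_ae (Filter.Eventually.of_forall pw),
      integral_add j12 j34, integral_add j1 j2,
      integral_add (j4.const_mul _) (j3.const_mul _), integral_const_mul, integral_const_mul]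
  rw [t1]
  linear_combination (-(I / 2)) * heq
    + ((∫ z, dz (fun z => ζ z * (a z)⁻¹) z * u (m : ℤ) z)
      + ∫ z, dzb (fun z => ζ z * (a z)⁻¹) z * u ((m : ℤ) + 2) z) * hI

/-- the transport equation: the limit measure is invariant under the geodesic flow -/
theorem limit_transport (k : ℤ) {ζ : ℂ → ℂ} (hζ : Test UH ζ) :
    ∫ z, ((a z * dz ζ z - (k : ℂ) * dz a z * ζ z) * u (k - 1) z
      + (a z * dzb ζ z + (k : ℂ) * dzb a z * ζ z) * u (k + 1) z)
        * g z = 0 := by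
  rcases Int.even_or_odd k with hk | hk
  · -- the functions `u (k - 1)` and `u (k + 1)` vanish
    have h1 : Odd (k - 1) := by
      obtain ⟨r, rfl⟩ := hk
      exact ⟨r - 1, by ring⟩
    have h2 : Odd (k + 1) := by
      obtain ⟨r, rfl⟩ := hk
      exact ⟨r, by ring⟩
    have h3 := (ae_restrict_iff' isOpen_UH.measurableSet).1 (S.lim_odd hl hw (k - 1) h1)
    have h4 := (ae_restrict_iff' isOpen_UH.measurableSet).1 (S.lim_odd hl hw (k + 1) h2)
    rw [← integral_zero ℂ ℂ (μ := volume)]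
    refine integral_congr_ae ?_
    filter_upwards [h3, h4] with z h3 h4
    by_cases hz : z ∈ UH
    · rw [h3 hz, h4 hz]; simp
    · obtain ⟨h0, h1, h2⟩ := hζ.zero_of_notMem hz
      rw [h0, h1, h2]; simp
  · rcases le_or_gt 1 k with h1 | h1
    · obtain ⟨m, rfl⟩ : ∃ m : ℕ, k = (m : ℤ) + 1 := ⟨(k - 1).toNat, by omega⟩
      exact transport_pos S hl hw m hζ
    · have hk0 : k ≤ -1 := by
        obtain ⟨r, rfl⟩ := hk
        omega
      obtain ⟨m, hm⟩ : ∃ m : ℕ, -k = (m : ℤ) + 1 := ⟨(-k - 1).toNat, by omega⟩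
      have hp := transport_pos S hl hw m hζ.conj
      rw [← hm] at hp
      have hc := congrArg (starRingEnd ℂ) hp
      rw [map_zero, ← integral_conj] at hc
      rw [← hc]
      refine integral_congr_ae ?_
      have h3 := (ae_restrict_iff' isOpen_UH.measurableSet).1 (S.lim_conj hl hw (k - 1))
      have h4 := (ae_restrict_iff' isOpen_UH.measurableSet).1 (S.lim_conj hl hw (k + 1))
      filter_upwards [h3, h4] with z h3 h4
      by_cases hz : z ∈ UH
      · have hd := hζ.smooth.differentiable (by simp) z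
        have hda : DifferentiableAt ℝ a z := dA S.ha hz
        have e1 : -k + 1 = -(k - 1) := by ring
        have e2 : -k - 1 = -(k + 1) := by ring
        have ar := S.areal z hz
        have c1 : (starRingEnd ℂ) (dz a z) = dzb a z := by
          have q := dzb_conj hda
          rw [← q]
          exact dzb_congr_on isOpen_UH (fun w hw => S.areal w hw) hz
        have c2 : (starRingEnd ℂ) (dzb a z) = dz a z := by
          rw [← c1, Complex.conj_conj]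
        have c3 : (starRingEnd ℂ) (g z) = g z := by
          rw [g_eq S hz, map_pow, map_inv₀, ar]
        rw [dz_conj hd, dzb_conj hd, e1, e2, h3 hz, h4 hz]
        simp only [map_add, map_sub, map_mul, Complex.conj_conj, map_intCast, ar, c1, c2, c3]
        push_cast
        ring
      · obtain ⟨h0, h1, h2⟩ := hζ.zero_of_notMem hz
        obtain ⟨h0', h1', h2'⟩ := hζ.conj.zero_of_notMem hz
        rw [h0, h1, h2, h1', h2']; simp

end S

/-! ### equivariance of the jets -/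

theorem jet_equiv (S : Setup UH g a h φ) (γ : SL(2, ℝ))
    (ham : ∀ z ∈ UH, a z * (1 / den γ z ^ 2) = a (mob γ z) * phase γ z)
    (hg : ∀ n, ∀ z ∈ UH, φ n (mob γ z) = φ n z) (m : ℕ) :
    ∃ w : ℕ → ℂ → ℂ, Tame UH h w ∧ ∀ n, ∀ z ∈ UH,
      jet h a φ m n z = phase γ z ^ m * jet h a φ m n (mob γ z) + (h n : ℂ) * w n z := by
  have hU := isOpen_UH
  have hh := S.hlim
  induction m with
  | zero =>
    refine ⟨_, Tame.zero hU, fun n z hz => ?_⟩
    show φ n z = _ * φ n (mob γ z) + _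
    rw [hg n z hz]; ring
  | succ m ih =>
    obtain ⟨w, hw, he⟩ := ih
    have hj := fun m => S.tame_jet m
    have hph := contDiffOn_phase γ
    have hphi : ContDiffOn ℝ ∞ (fun z => (phase γ z)⁻¹ ^ m) UH :=
      (hph.inv fun z hz => phase_ne_zero γ hz).pow m
    -- the composition is tame
    have hG : Tame UH h (fun n z => jet h a φ m n (mob γ z)) := by
      have t1 := (((hw.const_mul hU (c := fun n => (h n : ℂ)) (B := 1) (hbd hh)).smul hU (-1)))
      refine (((hj m).add hU t1).fn_mul hU hh hphi).congr hU fun n z hz => ?_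
      rw [he n z hz]
      have h1 : (phase γ z)⁻¹ ^ m * phase γ z ^ m = 1 := by
        rw [← mul_pow, inv_mul_cancel₀ (phase_ne_zero γ hz), one_pow]
      linear_combination (jet h a φ m n (mob γ z)) * h1
    have hpm : ContDiffOn ℝ ∞ (fun z => phase γ z ^ m) UH := hph.pow m
    have hb : ContDiffOn ℝ ∞ (fun z => a z * dz (fun z => phase γ z ^ m) z) UH :=
      S.ha.mul (contDiffOn_dz hU hpm)
    refine ⟨_, ((hG.fn_mul hU hh hb).smul hU (-(2 * I))).add hU (hw.LL hU hh S.ha),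
      fun n z hz => ?_⟩
    have e0 : jet h a φ (m + 1) n z = -(2 * I * h n) * a z * dz (jet h a φ m n) z := rfl
    have e0' : jet h a φ (m + 1) n (mob γ z)
        = -(2 * I * h n) * a (mob γ z) * dz (jet h a φ m n) (mob γ z) := rfl
    have e1 : LL h a w n z = -(2 * I * h n) * a z * dz (w n) z := rfl
    have d1 : DifferentiableAt ℝ (fun z => phase γ z ^ m) z :=
      (hpm.contDiffAt (hU.mem_nhds hz)).differentiableAt (by simp)
    have d2 := hG.smooth.dAt hU n hz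
    have d3 := hw.smooth.dAt hU n hz
    have d4 := (hj m).smooth.dAt hU n (mob_mem γ z)
    rw [e0, e0', e1, dz_congr_on hU (he n) hz, dz_add (d1.fun_mul d2) (d3.const_mul _),
      dz_mul d1 d2, dz_const_mul _ d3, dz_comp_mob γ hz d4]
    have h2 := ham z hz
    linear_combination (-(2 * I * h n) * phase γ z ^ m * dz (jet h a φ m n) (mob γ z)) * h2

theorem E_equiv (S : Setup UH g a h φ) (γ : SL(2, ℝ))
    (ham : ∀ z ∈ UH, a z * (1 / den γ z ^ 2) = a (mob γ z) * phase γ z)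
    (hg : ∀ n, ∀ z ∈ UH, φ n (mob γ z) = φ n z) (k : ℤ) :
    ∃ w : ℕ → ℂ → ℂ, Tame UH h w ∧ ∀ n, ∀ z ∈ UH,
      E h a φ k n z = phase γ z ^ k * E h a φ k n (mob γ z) + (h n : ℂ) * w n z := by
  have hU := isOpen_UH
  cases k with
  | ofNat m =>
    obtain ⟨w, hw, he⟩ := jet_equiv S γ ham hg m
    refine ⟨w, hw, fun n z hz => ?_⟩
    have := he n z hz
    rw [Int.ofNat_eq_natCast, zpow_natCast]
    exact this
  | negSucc m =>
    obtain ⟨w, hw, he⟩ := jet_equiv S γ ham hg (m + 1)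
    refine ⟨_, (hw.conj hU).smul hU ((-1) ^ (m + 1)), fun n z hz => ?_⟩
    show (-1) ^ (m + 1) * (starRingEnd ℂ) (jet h a φ (m + 1) n z)
      = phase γ z ^ (Int.negSucc m) * ((-1) ^ (m + 1)
        * (starRingEnd ℂ) (jet h a φ (m + 1) n (mob γ z))) + _
    rw [he n z hz, map_add, map_mul, map_mul, map_pow, conj_phase γ hz, conj_ofReal,
      zpow_negSucc, inv_pow]
    ring

/-- **Equivariance of the weak limits.** -/
theorem limit_equiv (S : Setup UH g a h φ) {k : ℤ} {v : ℂ → ℂ} (hv : LocL2 UH v)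
    (hw : WLim UH (fun n z => E h a φ 0 n z * E h a φ k n z) v) (γ : SL(2, ℝ))
    (ham : ∀ z ∈ UH, a z * (1 / den γ z ^ 2) = a (mob γ z) * phase γ z)
    (hg : ∀ n, ∀ z ∈ UH, φ n (mob γ z) = φ n z) :
    ∀ᵐ z ∂((volume : Measure ℂ).restrict UH), v z = phase γ z ^ k * v (mob γ z) := by
  have hU := isOpen_UH
  obtain ⟨w, hwt, he⟩ := E_equiv S γ ham hg k
  have hph : ContDiffOn ℝ ∞ (fun z => phase γ z ^ k) UH := by
    cases k with
    | ofNat m =>
      have := (contDiffOn_phase γ).pow m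
      simpa only [Int.ofNat_eq_natCast, zpow_natCast] using this
    | negSucc m =>
      have h1 : ContDiffOn ℝ ∞ (fun z => (phase γ z ^ (m + 1))⁻¹) UH :=
        ((contDiffOn_phase γ).pow (m + 1)).inv fun z hz =>
        pow_ne_zero _ (phase_ne_zero γ hz)
      exact h1.congr fun z _ => zpow_negSucc _ _
  have hint : ∀ {θ : ℂ → ℂ}, Test UH θ → Integrable (fun z => θ z * v (mob γ z)) := by
    intro θ hθ
    exact hθ.int_of_intOn (Mob.integrable_comp γ hv hθ.supp hθ.sub)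
  -- the integrals against test functions
  have key : ∀ {ζ : ℂ → ℂ}, Test UH ζ →
      ∫ z, ζ z * v z = ∫ z, ζ z * phase γ z ^ k * v (mob γ z) := by
    intro ζ hζ
    have hθ : Test UH (fun z => ζ z * phase γ z ^ k) := hζ.mul hU hph
    obtain ⟨K', hK', hKU', ρ, hρ, hT⟩ := Mob.transpose γ hθ
    have L1 := hw.test hζ
    have L2 := hw K' hK' hKU' ρ hρ
    have L3 := tendsto_h_int S.hlim (S.tame_E 0) hwt hζ
    have L4 := L2.add L3
    rw [← hT, add_zero] at L4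
    refine tendsto_nhds_unique L1 (L4.congr fun n => ?_)
    rw [← hT (fun z => E h a φ 0 n z * E h a φ k n z), ← integral_const_mul]
    have i1 : Integrable (fun z => ζ z * phase γ z ^ k
        * (E h a φ 0 n (mob γ z) * E h a φ k n (mob γ z))) := by
      have hc : ContinuousOn (fun z => E h a φ 0 n (mob γ z) * E h a φ k n (mob γ z)) UH :=
        (S.smooth_EE 0 k n).continuousOn.comp (continuousOn_mob γ) fun z _ => mob_mem γ z
      exact hθ.integrable_mul hU hc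
    have i2 : Integrable (fun z => (h n : ℂ) * (ζ z * (E h a φ 0 n z * w n z))) :=
      (hζ.int hU (((S.tame_E 0).smooth.mul hwt.smooth) n)).const_mul _
    rw [← integral_add i1 i2]
    refine integral_congr_ae (Eventually.of_forall fun z => ?_)
    beta_reduce
    by_cases hz : z ∈ UH
    · have e0 : E h a φ 0 n (mob γ z) = E h a φ 0 n z := hg n z hz
      rw [e0, he n z hz]
      ring
    · have h0 : ζ z = 0 := image_eq_zero_of_notMem_tsupport fun hh => hz (hζ.sub hh)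
      rw [h0]; ring
  have hloc : LocallyIntegrableOn (fun z => v z - phase γ z ^ k * v (mob γ z)) UH := by
    rw [locallyIntegrableOn_iff hU.isLocallyClosed]
    intro K hKU hK
    have h1 : IntegrableOn v K := hv.intOn hK hKU
    have h2 := (Mob.integrable_comp γ hv hK hKU).continuousOn_mul
      (hph.continuousOn.mono hKU) hK
    exact h1.sub h2
  have hae := hU.ae_eq_zero_of_integral_contDiff_smul_eq_zero (μ := volume) hloc
    fun g hg1 hg2 hg3 => by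
      have hζ : Test UH (fun z => (g z : ℂ)) := by
        refine ⟨ofRealCLM.contDiff.comp hg1, hg2.comp_left ofReal_zero, ?_⟩
        refine (closure_mono ?_).trans hg3
        intro z hz
        simp only [Function.mem_support] at hz ⊢
        intro h0; exact hz (by rw [h0, ofReal_zero])
      have h1 := key hζ
      have h2 : Integrable (fun z => (g z : ℂ) * v z) := hζ.int_LocL2 hv
      have h3 : Integrable (fun z => (g z : ℂ) * phase γ z ^ k * v (mob γ z)) :=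
        hint (hζ.mul hU hph)
      have h4 := integral_sub h2 h3
      rw [h1, sub_self] at h4
      rw [← h4]
      refine integral_congr_ae (Eventually.of_forall fun z => ?_)
      beta_reduce
      rw [Complex.real_smul]
      ring
  rw [ae_restrict_iff' hU.measurableSet]
  filter_upwards [hae] with z hz hzU
  exact sub_eq_zero.1 (hz hzU)

/-- the weight `e^{-ρ} y` and Möbius transformations -/
theorem aR_mob {ρ : ℍ → ℝ} {γ : SL(2, ℝ)} (hρ : ∀ z, ρ (γ • z) = ρ z) {z : ℂ} (hz : z ∈ UH) :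
    aR ρ z * (1 / den γ z ^ 2) = aR ρ (mob γ z) * phase γ z := by
  have h1 := Mob.aH_mob γ hz
  unfold aH at h1
  have h2 : ro ρ (mob γ z) = ro ρ z := by
    unfold ro
    rw [ofComplex_mob, hρ]
  unfold aR
  rw [h2]
  push_cast
  linear_combination (Complex.exp (-(ro ρ z : ℂ))) * h1

end LimM

theorem stmtLim : StmtLim := by
  intro Γ ρ h φ u hF S hum hu hw hg
  exact
    { meas := hum
      loc := hu
      real := S.lim_real hu hw
      bound := S.lim_bound hu hw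
      conj := S.lim_conj hu hw
      odd := S.lim_odd hu hw
      pos := fun N w hw1 => S.lim_pos hu hw N w hw1
      equiv := fun γ hγ k => LimM.limit_equiv S (hu k) (S.lim_zero hu hw k) γ
        (fun z hz => LimM.aR_mob (hF.inv γ hγ) hz) (hg γ hγ)
      transport := fun k _ hζ => LimM.limit_transport S hu hw k hζ }

end

end NC

end QE


end

section

/-!
# Closed surfaces of negative curvature: the diagonal part (module NCV_DFIN, helper39)
-/

open MeasureTheory Filter Topology Set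
open UpperHalfPlane hiding I
open scoped ContDiff MatrixGroups ENNReal

namespace QE

namespace NC

noncomputable section

namespace DfinAux

variable [MeasurableSpace SL(2, ℝ)]

/-- subadditivity of the mass of pairs -/
theorem PM_or_le {D : Set ℍ} {ν : Measure SL(2, ℝ)} [SFinite ν]
    {P Q : SL(2, ℝ) → SL(2, ℝ) → Prop}
    (hP : MeasurableSet {p : SL(2, ℝ) × SL(2, ℝ) | P p.1 p.2}) :
    PM D ν (fun v w => P v w ∨ Q v w) ≤ PM D ν P + PM D ν Q := by
  unfold PM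
  rw [← lintegral_add_left (meas_mass hP)]
  refine lintegral_mono fun v => ?_
  have h : {w | P v w ∨ Q v w} = {w | P v w} ∪ {w | Q v w} := rfl
  show ν {w | P v w ∨ Q v w} ≤ ν {w | P v w} + ν {w | Q v w}
  rw [h]
  exact measure_union_le _ _

end DfinAux

open _root_.QE.NC.DfinAux

theorem stmtDiag (hT : StmtTiny) (hK : StmtKstep) (hCo : StmtCover) (hC : StmtCross) :
    StmtDiag := by
  intro _ _ Γ _ D Φ x y τ κ c r L k₀ k₁ ν S M A η hA hη
  have hsf := M.sf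
  obtain ⟨C, hC0, hT'⟩ := hT Γ D Φ x y τ κ c r L k₀ k₁ ν S M
  have hC1 : 0 < C + 1 := by linarith
  set q : ℝ := min 1 (η / (8 * (C + 1))) with hqdef
  have hq0 : 0 < q := lt_min one_pos (by positivity)
  have hq1 : q ≤ 1 := min_le_left _ _
  have hCq : C * q ≤ η / 8 := by
    have h1 : q ≤ η / (8 * (C + 1)) := min_le_right _ _
    calc C * q ≤ (C + 1) * (η / (8 * (C + 1))) := by
          apply mul_le_mul (by linarith) h1 hq0.le hC1.le
      _ = η / 8 := by field_simp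
  obtain ⟨δ1, hδ1, hT1⟩ := hT' q hq0 hq1
  obtain ⟨m, hm, hcov⟩ := hCo Γ Φ x y τ κ c r L k₀ k₁ S A q hA hq0 hq1
  obtain ⟨K1, δ2, hδ2, hK1⟩ := hK Γ D Φ x y τ κ c r L k₀ k₁ ν S M 1 A m (η / 8) (Or.inl rfl) hA hm
    (by positivity)
  obtain ⟨K2, δ3, hδ3, hK2⟩ := hK Γ D Φ x y τ κ c r L k₀ k₁ ν S M (-1) A m (η / 8) (Or.inr rfl)
    hA hm (by positivity)
  set K := max K1 K2 with hKdef
  obtain ⟨A', T, δ4, hA', hT0, hδ4, hcov'⟩ := hcov K
  obtain ⟨δ5, hδ5, hC5⟩ := hC Γ D Φ x y τ κ c r L k₀ k₁ ν S M T A' (η / 8) hT0 hA' (by positivity)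
  refine ⟨min (min δ1 δ2) (min δ3 (min δ4 δ5)), by positivity, ?_⟩
  intro δ hδ hlt
  have l1 : δ < δ1 := lt_of_lt_of_le hlt ((min_le_left _ _).trans (min_le_left _ _))
  have l2 : δ < δ2 := lt_of_lt_of_le hlt ((min_le_left _ _).trans (min_le_right _ _))
  have l3 : δ < δ3 := lt_of_lt_of_le hlt ((min_le_right _ _).trans (min_le_left _ _))
  have l4 : δ < δ4 := lt_of_lt_of_le hlt
    ((min_le_right _ _).trans ((min_le_right _ _).trans (min_le_left _ _)))
  have l5 : δ < δ5 := lt_of_lt_of_le hlt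
    ((min_le_right _ _).trans ((min_le_right _ _).trans (min_le_right _ _)))
  -- measurability
  have hTm : MeasurableSet {p : SL(2, ℝ) × SL(2, ℝ) | Ty x y τ r q δ p.1 p.2} := by
    refine (measSet_dd_le r).inter (MeasurableSet.inter ?_ (measSet_abs_le S.tc (2 * δ)))
    exact measurableSet_le ((meas_pair S.xc).abs.add (meas_pair S.yc).abs) measurable_const
  have hTi : ∀ γ ∈ Γ, ∀ v w, Ty x y τ r q δ (γ * v) (γ * w) ↔ Ty x y τ r q δ v w := by
    intro γ hγ v w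
    simp only [Ty, dd_left, S.xi γ hγ, S.yi γ hγ, S.ti γ hγ]
  have hflow : ∀ s : ℝ, Measurable fun p : SL(2, ℝ) × SL(2, ℝ) => (Φ s p.1, Φ s p.2) := fun s =>
    ((S.cont_flow s).measurable.comp measurable_fst).prodMk
      ((S.cont_flow s).measurable.comp measurable_snd)
  have hTm' : ∀ s : ℝ, MeasurableSet {p : SL(2, ℝ) × SL(2, ℝ) |
      Ty x y τ r q δ (Φ s p.1) (Φ s p.2)} := fun s => hflow s hTm
  have hWm : ∀ σ : ℝ, MeasurableSet {p : SL(2, ℝ) × SL(2, ℝ) |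
      Wk Φ x y τ r σ A m K δ p.1 p.2} := by
    intro σ
    have mx := meas_pair S.xc
    refine (measSet_dd_le r).inter (MeasurableSet.inter ?_ (MeasurableSet.inter ?_
      ((measSet_abs_le S.tc δ).inter ((measSet_abs_le S.yc (A * δ)).inter ?_))))
    · exact measurableSet_le measurable_const (mx.const_mul σ)
    · exact measurableSet_le (mx.const_mul σ) measurable_const
    · have h : {p : SL(2, ℝ) × SL(2, ℝ) | ∀ j : ℤ, j ≠ 0 → |j| ≤ (K : ℤ) →
          4 * δ ≤ σ * x (Φ (j * m) p.1) (Φ (j * m) p.2)} =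
          ⋂ j : ℤ, ⋂ _ : j ≠ 0, ⋂ _ : |j| ≤ (K : ℤ), {p : SL(2, ℝ) × SL(2, ℝ) |
            4 * δ ≤ σ * x (Φ (j * m) p.1) (Φ (j * m) p.2)} := by
        ext p
        simp only [Set.mem_iInter, Set.mem_ofPred_eq]
      show MeasurableSet {p : SL(2, ℝ) × SL(2, ℝ) | ∀ j : ℤ, j ≠ 0 → |j| ≤ (K : ℤ) →
          4 * δ ≤ σ * x (Φ (j * m) p.1) (Φ (j * m) p.2)}
      rw [h]
      refine MeasurableSet.iInter fun j => MeasurableSet.iInter fun _ =>
        MeasurableSet.iInter fun _ => ?_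
      exact measurableSet_le measurable_const ((mx.comp (hflow (j * m))).const_mul σ)
  -- the bounds
  have b1 : ∀ s : ℝ, PM D ν (fun v w => Ty x y τ r q δ (Φ s v) (Φ s w)) ≤
      ENNReal.ofReal (η / 8 * δ ^ 2) := by
    intro s
    rw [PM_flow_set S M hTm hTi s s]
    refine (hT1 δ hδ l1).trans (ENNReal.ofReal_le_ofReal ?_)
    exact mul_le_mul_of_nonneg_right hCq (sq_nonneg _)
  have b2 : PM D ν (Wk Φ x y τ r 1 A m K δ) ≤ ENNReal.ofReal (η / 8 * δ ^ 2) := by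
    refine le_trans (PM_mono ?_) (hK1 δ hδ l2)
    rintro v w ⟨h1, h2, h3, h4, h5, h6⟩
    refine ⟨h1, h2, h3, h4, h5, fun j hj hjK => h6 j hj (hjK.trans ?_)⟩
    exact_mod_cast le_max_left K1 K2
  have b3 : PM D ν (Wk Φ x y τ r (-1) A m K δ) ≤ ENNReal.ofReal (η / 8 * δ ^ 2) := by
    refine le_trans (PM_mono ?_) (hK2 δ hδ l3)
    rintro v w ⟨h1, h2, h3, h4, h5, h6⟩
    refine ⟨h1, h2, h3, h4, h5, fun j hj hjK => h6 j hj (hjK.trans ?_)⟩
    exact_mod_cast le_max_right K1 K2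
  have b4 : PM D ν (Cr Φ x y τ r A' T δ) ≤ ENNReal.ofReal (η / 8 * δ ^ 2) := hC5 δ hδ l5
  calc PM D ν (fun v w => dd v w ≤ r ∧ |x v w| ≤ δ ∧ |τ v w| ≤ δ ∧ |y v w| ≤ A * δ)
      ≤ PM D ν (fun v w => Ty x y τ r q δ (Φ (m / 2) v) (Φ (m / 2) w) ∨
        (Ty x y τ r q δ (Φ (-(m / 2)) v) (Φ (-(m / 2)) w) ∨
        (Wk Φ x y τ r 1 A m K δ v w ∨ (Wk Φ x y τ r (-1) A m K δ v w ∨
        Cr Φ x y τ r A' T δ v w)))) := by
        refine PM_mono ?_
        rintro v w ⟨h1, h2, h3, h4⟩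
        rcases hcov' δ hδ l4 v w h1 h2 h3 h4 with h | h | h | h | h
        · exact Or.inl h
        · exact Or.inr (Or.inl h)
        · exact Or.inr (Or.inr (Or.inr (Or.inr h)))
        · exact Or.inr (Or.inr (Or.inl h))
        · exact Or.inr (Or.inr (Or.inr (Or.inl h)))
    _ ≤ ENNReal.ofReal (η / 8 * δ ^ 2) + (ENNReal.ofReal (η / 8 * δ ^ 2) +
        (ENNReal.ofReal (η / 8 * δ ^ 2) + (ENNReal.ofReal (η / 8 * δ ^ 2) +
        ENNReal.ofReal (η / 8 * δ ^ 2)))) := by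
        refine (PM_or_le (hTm' (m / 2))).trans (add_le_add (b1 _) ?_)
        refine (PM_or_le (hTm' (-(m / 2)))).trans (add_le_add (b1 _) ?_)
        refine (PM_or_le (hWm 1)).trans (add_le_add b2 ?_)
        exact (PM_or_le (hWm (-1))).trans (add_le_add b3 b4)
    _ ≤ ENNReal.ofReal (η * δ ^ 2) := by
        have h0 : 0 ≤ η / 8 * δ ^ 2 := by positivity
        rw [← ENNReal.ofReal_add h0 h0, ← ENNReal.ofReal_add h0 (by positivity),
          ← ENNReal.ofReal_add h0 (by positivity), ← ENNReal.ofReal_add h0 (by positivity)]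
        apply ENNReal.ofReal_le_ofReal
        nlinarith [sq_nonneg δ, mul_pos hη (pow_pos hδ 2)]

end

end NC

end QE


end

section

/-!
# Module NC_CROSS, deterministic part
-/

open MeasureTheory Filter Topology Set
open UpperHalfPlane hiding I
open scoped ContDiff MatrixGroups ENNReal

set_option linter.unusedSectionVars false

namespace QE

namespace NC

noncomputable section

namespace Cr

variable {Γ : Subgroup SL(2, ℝ)} {Φ : ℝ → SL(2, ℝ) → SL(2, ℝ)}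
  {x y τ : SL(2, ℝ) → SL(2, ℝ) → ℝ} {κ : SL(2, ℝ) → ℝ} {c r L k₀ k₁ : ℝ}

lemma dd_nonneg (v w : SL(2, ℝ)) : 0 ≤ dd v w := by
  unfold dd nn
  positivity

lemma shift_deriv {f : SL(2, ℝ) → SL(2, ℝ) → ℝ} (hadd : ∀ s t g, Φ (s + t) g = Φ s (Φ t g))
    {v w : SL(2, ℝ)} {t f' : ℝ} (h : HasDerivAt (fun s => f (Φ s (Φ t v)) (Φ s (Φ t w))) f' 0) :
    HasDerivAt (fun s => f (Φ s v) (Φ s w)) f' t := by
  have h1 : HasDerivAt (fun s => f (Φ (s + t) v) (Φ (s + t) w)) f' (t - t) := by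
    simpa only [hadd, sub_self] using h
  have h2 := HasDerivAt.comp_sub_const t t h1
  simpa using h2

lemma shift_deriv2 {f : SL(2, ℝ) → SL(2, ℝ) → ℝ} (hadd : ∀ s t g, Φ (s + t) g = Φ s (Φ t g))
    {v w : SL(2, ℝ)} {t f' : ℝ} (h : HasDerivAt (fun s => f v (Φ s (Φ t w))) f' 0) :
    HasDerivAt (fun s => f v (Φ s w)) f' t := by
  have h1 : HasDerivAt (fun s => f v (Φ (s + t) w)) f' (t - t) := by
    simpa only [hadd, sub_self] using h
  have h2 := HasDerivAt.comp_sub_const t t h1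
  simpa using h2

/-- Lipschitz bound on an interval -/
lemma lip_of {f : ℝ → ℝ} {T C : ℝ} (h : ∀ t, |t| ≤ T → ∃ f' : ℝ, HasDerivAt f f' t ∧ |f'| ≤ C)
    {t₁ t₂ : ℝ} (h1 : |t₁| ≤ T) (h2 : |t₂| ≤ T) : |f t₂ - f t₁| ≤ C * |t₂ - t₁| := by
  have hc : Convex ℝ (Icc (-T) T) := convex_Icc _ _
  have := hc.norm_image_sub_le_of_norm_deriv_le (f := f) (C := C)
    (fun t ht => by
      obtain ⟨f', hf, -⟩ := h t (abs_le.2 ⟨ht.1, ht.2⟩)
      exact hf.differentiableAt)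
    (fun t ht => by
      obtain ⟨f', hf, hb⟩ := h t (abs_le.2 ⟨ht.1, ht.2⟩)
      rw [hf.deriv, Real.norm_eq_abs]; exact hb)
    (show t₁ ∈ Icc (-T) T from ⟨(abs_le.1 h1).1, (abs_le.1 h1).2⟩)
    (show t₂ ∈ Icc (-T) T from ⟨(abs_le.1 h2).1, (abs_le.1 h2).2⟩)
  simpa [Real.norm_eq_abs] using this

section win

variable (S : PairSys Γ Φ x y τ κ c r L k₀ k₁) {v w : SL(2, ℝ)} {T M : ℝ}
  (hM0 : 0 ≤ M) (hM1 : M ≤ r) (hw : ∀ t, |t| ≤ T → dd (Φ t v) (Φ t w) ≤ M)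

include S hM0 hM1 hw

lemma x_der (t : ℝ) (ht : |t| ≤ T) : ∃ x' : ℝ, HasDerivAt (fun s => x (Φ s v) (Φ s w)) x' t ∧
    |x' - y (Φ t v) (Φ t w)| ≤ c * M ^ 2 := by
  obtain ⟨x', h1, h2⟩ := S.xd (Φ t v) (Φ t w) ((hw t ht).trans hM1)
  refine ⟨x', shift_deriv S.add h1, h2.trans ?_⟩
  have hc : 0 ≤ c := by linarith [S.one_le]
  exact mul_le_mul_of_nonneg_left (pow_le_pow_left₀ (dd_nonneg _ _) (hw t ht) 2) hc

lemma y_der (t : ℝ) (ht : |t| ≤ T) : ∃ y' : ℝ, HasDerivAt (fun s => y (Φ s v) (Φ s w)) y' t ∧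
    |y' - κ (Φ t v) * x (Φ t v) (Φ t w)| ≤ c * M ^ 2 := by
  obtain ⟨x', h1, h2⟩ := S.yd (Φ t v) (Φ t w) ((hw t ht).trans hM1)
  refine ⟨x', shift_deriv S.add h1, h2.trans ?_⟩
  have hc : 0 ≤ c := by linarith [S.one_le]
  exact mul_le_mul_of_nonneg_left (pow_le_pow_left₀ (dd_nonneg _ _) (hw t ht) 2) hc

lemma t_der (t : ℝ) (ht : |t| ≤ T) : ∃ y' : ℝ, HasDerivAt (fun s => τ (Φ s v) (Φ s w)) y' t ∧
    |y'| ≤ c * M ^ 2 := by
  obtain ⟨x', h1, h2⟩ := S.td (Φ t v) (Φ t w) ((hw t ht).trans hM1)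
  refine ⟨x', shift_deriv S.add h1, h2.trans ?_⟩
  have hc : 0 ≤ c := by linarith [S.one_le]
  exact mul_le_mul_of_nonneg_left (pow_le_pow_left₀ (dd_nonneg _ _) (hw t ht) 2) hc

lemma x_bd (t : ℝ) (ht : |t| ≤ T) : |x (Φ t v) (Φ t w)| ≤ c * M :=
  (S.xle _ _ ((hw t ht).trans hM1)).trans
    (mul_le_mul_of_nonneg_left (hw t ht) (by linarith [S.one_le]))

lemma y_bd (t : ℝ) (ht : |t| ≤ T) : |y (Φ t v) (Φ t w)| ≤ c * M :=
  (S.yle _ _ ((hw t ht).trans hM1)).trans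
    (mul_le_mul_of_nonneg_left (hw t ht) (by linarith [S.one_le]))

lemma x_lip {t₁ t₂ : ℝ} (h1 : |t₁| ≤ T) (h2 : |t₂| ≤ T) :
    |x (Φ t₂ v) (Φ t₂ w) - x (Φ t₁ v) (Φ t₁ w)| ≤ (2 * c * M) * |t₂ - t₁| := by
  refine lip_of (f := fun s => x (Φ s v) (Φ s w)) (fun t ht => ?_) h1 h2
  obtain ⟨x', h3, h4⟩ := x_der S hM0 hM1 hw t ht
  refine ⟨x', h3, ?_⟩
  have h5 := y_bd S hM0 hM1 hw t ht
  have hc := S.one_le
  have hr := S.rle
  have h6 : c * M ^ 2 ≤ c * M := by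
    refine mul_le_mul_of_nonneg_left ?_ (by linarith)
    nlinarith only [hM0, hM1, hr]
  have h7 : |x'| ≤ |x' - y (Φ t v) (Φ t w)| + |y (Φ t v) (Φ t w)| := by
    have := abs_add_le (x' - y (Φ t v) (Φ t w)) (y (Φ t v) (Φ t w))
    rwa [sub_add_cancel] at this
  linarith

lemma y_lip {t₁ t₂ : ℝ} (h1 : |t₁| ≤ T) (h2 : |t₂| ≤ T) :
    |y (Φ t₂ v) (Φ t₂ w) - y (Φ t₁ v) (Φ t₁ w)| ≤ ((k₁ + 1) * (c * M)) * |t₂ - t₁| := by
  refine lip_of (f := fun s => y (Φ s v) (Φ s w)) (fun t ht => ?_) h1 h2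
  obtain ⟨x', h3, h4⟩ := y_der S hM0 hM1 hw t ht
  refine ⟨x', h3, ?_⟩
  have h5 := x_bd S hM0 hM1 hw t ht
  have hc := S.one_le
  have hr := S.rle
  have h6 : c * M ^ 2 ≤ c * M := by
    refine mul_le_mul_of_nonneg_left ?_ (by linarith)
    nlinarith only [hM0, hM1, hr]
  have hk1 := S.khi (Φ t v)
  have hk0 : 0 ≤ κ (Φ t v) := S.kpos.le.trans (S.klo _)
  have h7 : |x'| ≤ |x' - κ (Φ t v) * x (Φ t v) (Φ t w)| + |κ (Φ t v) * x (Φ t v) (Φ t w)| := by
    have := abs_add_le (x' - κ (Φ t v) * x (Φ t v) (Φ t w)) (κ (Φ t v) * x (Φ t v) (Φ t w))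
    rwa [sub_add_cancel] at this
  have h8 : |κ (Φ t v) * x (Φ t v) (Φ t w)| ≤ k₁ * (c * M) := by
    rw [abs_mul, abs_of_nonneg hk0]
    exact mul_le_mul hk1 h5 (abs_nonneg _) (hk0.trans hk1)
  linarith

lemma t_lip {t₁ t₂ : ℝ} (h1 : |t₁| ≤ T) (h2 : |t₂| ≤ T) :
    |τ (Φ t₂ v) (Φ t₂ w) - τ (Φ t₁ v) (Φ t₁ w)| ≤ (c * M ^ 2) * |t₂ - t₁| :=
  lip_of (f := fun s => τ (Φ s v) (Φ s w)) (t_der S hM0 hM1 hw) h1 h2

/-- lower bound of y at a crossing -/
lemma cross_time (hT : 0 ≤ T) {t₀ : ℝ} (h0 : |t₀| ≤ T) (hcr : x (Φ t₀ v) (Φ t₀ w) = 0) :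
    |x v w| + |y v w| ≤
      2 * (Real.exp (T * (1 + k₁)) * (|y (Φ t₀ v) (Φ t₀ w)| + c * M ^ 2)) := by
  have hc := S.one_le
  have hk1 : 0 < k₁ := S.kpos.trans_le ((S.klo v).trans (S.khi v))
  have hK : 0 < 1 + k₁ := by linarith
  -- the path
  set f : ℝ → ℝ × ℝ := fun s => (x (Φ (t₀ * (1 - s)) v) (Φ (t₀ * (1 - s)) w),
    y (Φ (t₀ * (1 - s)) v) (Φ (t₀ * (1 - s)) w)) with hf
  have hin : ∀ s ∈ Icc (0 : ℝ) 1, |t₀ * (1 - s)| ≤ T := by
    intro s hs
    rw [abs_mul]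
    have : |1 - s| ≤ 1 := abs_le.2 ⟨by linarith [hs.2], by linarith [hs.1]⟩
    nlinarith [abs_nonneg t₀, abs_nonneg (1 - s)]
  have hder : ∀ s ∈ Icc (0 : ℝ) 1, ∃ f' : ℝ × ℝ, HasDerivAt f f' s ∧
      ‖f'‖ ≤ (T * (1 + k₁)) * ‖f s‖ + T * (c * M ^ 2) := by
    intro s hs
    obtain ⟨x', hx1, hx2⟩ := x_der S hM0 hM1 hw _ (hin s hs)
    obtain ⟨y', hy1, hy2⟩ := y_der S hM0 hM1 hw _ (hin s hs)
    have hlin : HasDerivAt (fun s : ℝ => t₀ * (1 - s)) (-t₀) s := by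
      have := ((hasDerivAt_id s).const_sub 1).const_mul t₀
      simpa using this
    have e1 := hx1.comp s hlin
    have e2 := hy1.comp s hlin
    refine ⟨(x' * -t₀, y' * -t₀), e1.prodMk e2, ?_⟩
    have hX : |x (Φ (t₀ * (1 - s)) v) (Φ (t₀ * (1 - s)) w)| ≤ ‖f s‖ := by
      rw [hf, Prod.norm_mk]; exact le_max_left _ _
    have hY : |y (Φ (t₀ * (1 - s)) v) (Φ (t₀ * (1 - s)) w)| ≤ ‖f s‖ := by
      rw [hf, Prod.norm_mk]; exact le_max_right _ _
    have hN : 0 ≤ ‖f s‖ := norm_nonneg _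
    have hM2 : 0 ≤ c * M ^ 2 := by positivity
    have hkk0 : 0 ≤ κ (Φ (t₀ * (1 - s)) v) := S.kpos.le.trans (S.klo _)
    have hkk1 := S.khi (Φ (t₀ * (1 - s)) v)
    have bx : |x'| ≤ (1 + k₁) * ‖f s‖ + c * M ^ 2 := by
      have := abs_add_le (x' - y (Φ (t₀ * (1 - s)) v) (Φ (t₀ * (1 - s)) w))
        (y (Φ (t₀ * (1 - s)) v) (Φ (t₀ * (1 - s)) w))
      rw [sub_add_cancel] at this
      nlinarith only [hx2, hY, this, hk1, hN]
    have by' : |y'| ≤ (1 + k₁) * ‖f s‖ + c * M ^ 2 := by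
      have h7 := abs_add_le (y' - κ (Φ (t₀ * (1 - s)) v) *
        x (Φ (t₀ * (1 - s)) v) (Φ (t₀ * (1 - s)) w))
        (κ (Φ (t₀ * (1 - s)) v) * x (Φ (t₀ * (1 - s)) v) (Φ (t₀ * (1 - s)) w))
      rw [sub_add_cancel] at h7
      have h8 : |κ (Φ (t₀ * (1 - s)) v) * x (Φ (t₀ * (1 - s)) v) (Φ (t₀ * (1 - s)) w)| ≤
          k₁ * ‖f s‖ := by
        rw [abs_mul, abs_of_nonneg hkk0]
        exact mul_le_mul hkk1 hX (abs_nonneg _) hk1.le
      linarith only [hy2, hN, h7, h8]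
    rw [Prod.norm_mk]
    refine max_le ?_ ?_
    · rw [norm_mul, Real.norm_eq_abs, norm_neg, Real.norm_eq_abs]
      calc |x'| * |t₀| ≤ ((1 + k₁) * ‖f s‖ + c * M ^ 2) * T :=
            mul_le_mul bx h0 (abs_nonneg _) (by positivity)
        _ = _ := by ring
    · rw [norm_mul, Real.norm_eq_abs, norm_neg, Real.norm_eq_abs]
      calc |y'| * |t₀| ≤ ((1 + k₁) * ‖f s‖ + c * M ^ 2) * T :=
            mul_le_mul by' h0 (abs_nonneg _) (by positivity)
        _ = _ := by ring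
  have hcont : ContinuousOn f (Icc 0 1) := fun s hs => by
    obtain ⟨f', h1, -⟩ := hder s hs
    exact h1.continuousAt.continuousWithinAt
  have hg := norm_le_gronwallBound_of_norm_deriv_right_le (f := f) (f' := fun s => deriv f s)
    (δ := |y (Φ t₀ v) (Φ t₀ w)|) (K := T * (1 + k₁)) (ε := T * (c * M ^ 2)) (a := 0) (b := 1)
    hcont (fun s hs => by
      obtain ⟨f', h1, -⟩ := hder s ⟨hs.1, hs.2.le⟩
      rw [h1.deriv]
      exact h1.hasDerivWithinAt) (by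
      rw [hf]
      simp only [sub_zero, mul_one]
      rw [Prod.norm_mk, hcr]
      simp) (fun s hs => by
      obtain ⟨f', h1, h2⟩ := hder s ⟨hs.1, hs.2.le⟩
      rw [h1.deriv]
      exact h2) 1 ⟨zero_le_one, le_rfl⟩
  have hf1 : f 1 = (x v w, y v w) := by
    rw [hf]
    simp [S.zero]
  rw [hf1, sub_zero] at hg
  have hx1 : |x v w| ≤ ‖(x v w, y v w)‖ := by rw [Prod.norm_mk]; exact le_max_left _ _
  have hy1 : |y v w| ≤ ‖(x v w, y v w)‖ := by rw [Prod.norm_mk]; exact le_max_right _ _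
  have hgb : gronwallBound (|y (Φ t₀ v) (Φ t₀ w)|) (T * (1 + k₁)) (T * (c * M ^ 2)) 1 ≤
      Real.exp (T * (1 + k₁)) * (|y (Φ t₀ v) (Φ t₀ w)| + c * M ^ 2) := by
    rcases hT.eq_or_lt with h1 | h1
    · rw [← h1]
      simp only [zero_mul, gronwallBound_K0, Real.exp_zero]
      nlinarith only [hc]
    · rw [gronwallBound_of_K_ne_0 (by positivity)]
      beta_reduce
      rw [mul_one]
      have h2 : T * (c * M ^ 2) / (T * (1 + k₁)) ≤ c * M ^ 2 := by
        rw [mul_div_mul_left _ _ h1.ne', div_le_iff₀ hK]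
        have : 0 ≤ c * M ^ 2 := by positivity
        nlinarith only [hk1, this]
      have h3 : 0 ≤ Real.exp (T * (1 + k₁)) - 1 := by
        have := Real.one_le_exp (x := T * (1 + k₁)) (by positivity)
        linarith
      have h4 := mul_le_mul_of_nonneg_right h2 h3
      have h5 : 0 ≤ c * M ^ 2 := by positivity
      linarith only [h4, h5]
  linarith

end win

section move

variable (S : PairSys Γ Φ x y τ κ c r L k₀ k₁) {v w : SL(2, ℝ)} {M ρ₀ : ℝ}
  (hM1 : M ≤ r) (hw : dd v w ≤ M) (hρ0 : 0 ≤ ρ₀) (hρ1 : ρ₀ ≤ 1) (hρr : c * ρ₀ ≤ r)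
  (hM' : c * (M + c * ρ₀) ≤ r)

include S hM1 hw hρ0 hρ1 hρr hM'

lemma move_dd {ρ : ℝ} (h : |ρ| ≤ ρ₀) : dd v (Φ ρ w) ≤ c * (M + c * ρ₀) := by
  have hc := S.one_le
  have h1 := S.dmove w ρ (h.trans hρ1)
  have h2 : c * |ρ| ≤ c * ρ₀ := mul_le_mul_of_nonneg_left h (by linarith)
  have h3 := S.dtri v w (Φ ρ w) (hw.trans hM1) ((h1.trans h2).trans hρr)
  refine h3.trans (mul_le_mul_of_nonneg_left ?_ (by linarith))
  linarith

lemma move_x {ρ : ℝ} (h : |ρ| ≤ ρ₀) :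
    |x v (Φ ρ w) - x v w| ≤ (c * (c * (M + c * ρ₀))) * ρ₀ := by
  have hc := S.one_le
  have key := lip_of (f := fun s => x v (Φ s w)) (T := ρ₀) (C := c * (c * (M + c * ρ₀)))
    (fun t ht => by
      have h1 := move_dd S hM1 hw hρ0 hρ1 hρr hM' ht
      obtain ⟨x', h2, h3⟩ := S.xm v (Φ t w) (h1.trans hM')
      exact ⟨x', shift_deriv2 S.add h2, h3.trans (mul_le_mul_of_nonneg_left h1 (by linarith))⟩)
    (t₁ := 0) (t₂ := ρ) (by simpa using hρ0) h
  simp only [S.zero, sub_zero] at key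
  have h0 : 0 ≤ c * (c * (M + c * ρ₀)) := by
    have := (dd_nonneg v w).trans hw
    positivity
  exact key.trans (mul_le_mul_of_nonneg_left h h0)

lemma move_y {ρ : ℝ} (h : |ρ| ≤ ρ₀) :
    |y v (Φ ρ w) - y v w| ≤ (c * (c * (M + c * ρ₀))) * ρ₀ := by
  have hc := S.one_le
  have key := lip_of (f := fun s => y v (Φ s w)) (T := ρ₀) (C := c * (c * (M + c * ρ₀)))
    (fun t ht => by
      have h1 := move_dd S hM1 hw hρ0 hρ1 hρr hM' ht
      obtain ⟨x', h2, h3⟩ := S.ym v (Φ t w) (h1.trans hM')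
      exact ⟨x', shift_deriv2 S.add h2, h3.trans (mul_le_mul_of_nonneg_left h1 (by linarith))⟩)
    (t₁ := 0) (t₂ := ρ) (by simpa using hρ0) h
  simp only [S.zero, sub_zero] at key
  have h0 : 0 ≤ c * (c * (M + c * ρ₀)) := by
    have := (dd_nonneg v w).trans hw
    positivity
  exact key.trans (mul_le_mul_of_nonneg_left h h0)

lemma move_t {ρ : ℝ} (h : |ρ| ≤ ρ₀) :
    |τ v (Φ ρ w) - (τ v w + ρ)| ≤ (c * (c * (M + c * ρ₀))) * ρ₀ := by
  have hc := S.one_le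
  have key := lip_of (f := fun s => τ v (Φ s w) - s) (T := ρ₀) (C := c * (c * (M + c * ρ₀)))
    (fun t ht => by
      have h1 := move_dd S hM1 hw hρ0 hρ1 hρr hM' ht
      obtain ⟨x', h2, h3⟩ := S.tm v (Φ t w) (h1.trans hM')
      exact ⟨x' - 1, (shift_deriv2 S.add h2).sub (hasDerivAt_id t),
        h3.trans (mul_le_mul_of_nonneg_left h1 (by linarith))⟩)
    (t₁ := 0) (t₂ := ρ) (by simpa using hρ0) h
  simp only [S.zero, sub_zero] at key
  have h0 : 0 ≤ c * (c * (M + c * ρ₀)) := by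
    have := (dd_nonneg v w).trans hw
    positivity
  have e : τ v (Φ ρ w) - (τ v w + ρ) = τ v (Φ ρ w) - ρ - τ v w := by ring
  rw [e]
  exact key.trans (mul_le_mul_of_nonneg_left h h0)

end move

/-- dyadic blocks -/
lemma dyadic {a : ℝ} (h0 : 0 < a) (h1 : a ≤ 1) : ∃ l : ℕ, 1 / 2 ^ l ≤ a ∧ a ≤ 2 / 2 ^ l := by
  obtain ⟨n, hn1, hn2⟩ := exists_nat_pow_near_of_lt_one (y := (1 / 2 : ℝ)) h0 h1 (by norm_num)
    (by norm_num)
  refine ⟨n + 1, ?_, ?_⟩
  · rw [one_div_pow] at hn1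
    exact hn1.le
  · rw [one_div_pow] at hn2
    refine hn2.trans (le_of_eq ?_)
    rw [pow_succ]
    field_simp

end Cr

end

end NC

end QE


end

section

/-!
# Module NC_CROSS: the covering
-/

open MeasureTheory Filter Topology Set
open UpperHalfPlane hiding I
open scoped ContDiff MatrixGroups ENNReal

namespace QE

namespace NC

noncomputable section

namespace Cr

variable {Γ : Subgroup SL(2, ℝ)} {Φ : ℝ → SL(2, ℝ) → SL(2, ℝ)}
  {x y τ : SL(2, ℝ) → SL(2, ℝ) → ℝ} {κ : SL(2, ℝ) → ℝ} {c r L k₀ k₁ : ℝ}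

/-- the sets used in the covering -/
def QQ (x y τ : SL(2, ℝ) → SL(2, ℝ) → ℝ) (r a c₀ : ℝ) (l : ℕ) (v w : SL(2, ℝ)) : Prop :=
  a ≤ c₀ / 2 ^ l ∧ dd v w ≤ r ∧ |x v w| ≤ a ∧ |τ v w| ≤ a ∧ 1 / 2 ^ l ≤ |y v w| ∧
    |y v w| ≤ 2 / 2 ^ l

lemma small (K m : ℝ) (hm : 0 < m) : ∀ᶠ δ in 𝓝 (0 : ℝ), K * δ ≤ m := by
  have h : Tendsto (fun δ : ℝ => K * δ) (𝓝 0) (𝓝 (K * 0)) := tendsto_id.const_mul K
  rw [mul_zero] at h
  exact (h.eventually (gt_mem_nhds hm)).mono fun δ hδ => hδ.le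

lemma floor_grid {a s B : ℝ} (hs : 0 < s) (ha : |a| ≤ B) (N : ℕ) (hN : B / s + 1 ≤ N) :
    ∃ k ∈ Finset.Icc (-(N : ℤ)) N, 0 ≤ a - k * s ∧ a - k * s ≤ s := by
  have h1 := Int.floor_le (a / s)
  have h2 := Int.lt_floor_add_one (a / s)
  have h3 : |a / s| ≤ B / s := by
    rw [abs_div, abs_of_pos hs]
    gcongr
  obtain ⟨h4, h5⟩ := abs_le.1 h3
  refine ⟨⌊a / s⌋, ?_, ?_, ?_⟩
  · rw [Finset.mem_Icc]
    constructor
    · have : (-(N : ℝ)) ≤ (⌊a / s⌋ : ℝ) := by linarith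
      exact_mod_cast this
    · have : (⌊a / s⌋ : ℝ) ≤ (N : ℝ) := by linarith
      exact_mod_cast this
  · rw [le_div_iff₀ hs] at h1
    linarith
  · have : a < ((⌊a / s⌋ : ℝ) + 1) * s := by
      rw [← div_lt_iff₀ hs]; exact h2
    linarith

lemma cover (S : PairSys Γ Φ x y τ κ c r L k₀ k₁) {c₀ : ℝ} (hc₀ : 0 < c₀) {T A : ℝ} (hT : 0 < T)
    (hA : 1 ≤ A) : ∃ (s h b₂ δ₁ : ℝ) (N J : ℕ), 0 < s ∧ 0 < h ∧ 0 < b₂ ∧ 0 < δ₁ ∧
      ∀ δ : ℝ, 0 < δ → δ < δ₁ → ∀ v w : SL(2, ℝ), dd v w ≤ r → |τ v w| ≤ A * δ →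
        δ / A ≤ |x v w| + |y v w| → |x v w| + |y v w| ≤ A * δ →
        (∃ t : ℝ, |t| ≤ T ∧ x (Φ t v) (Φ t w) = 0) →
        ∃ k ∈ Finset.Icc (-(N : ℤ)) N, ∃ j ∈ Finset.Icc (-(J : ℤ)) J, ∃ l : ℕ,
          1 / 2 ^ l ≤ b₂ * δ ∧ QQ x y τ r (2 * h * δ) c₀ l (Φ (k * s) v)
            (Φ (j * (h * δ)) (Φ (k * s) w)) := by
  have hc := S.one_le
  have hr0 := S.rpos
  have hr1 := S.rle
  have hk1 : 0 < k₁ := S.kpos.trans_le ((S.klo 1).trans (S.khi 1))
  have hL := S.Lnn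
  have hA0 : 0 < A := by linarith
  have hc0 : 0 < c := by linarith
  obtain ⟨E, hE⟩ : ∃ E : ℝ, E = Real.exp ((T + 1) * (1 + k₁)) := ⟨_, rfl⟩
  have hE0 : 0 < E := by rw [hE]; exact Real.exp_pos _
  obtain ⟨C2, hC2⟩ : ∃ C : ℝ, C = c * Real.exp (L * (T + 1)) * (2 * c * A) := ⟨_, rfl⟩
  have hC20 : 0 < C2 := by rw [hC2]; have := Real.exp_pos (L * (T + 1)); positivity
  obtain ⟨b₁, hb₁⟩ : ∃ b : ℝ, b = 1 / (8 * A * E) := ⟨_, rfl⟩
  have hb₁0 : 0 < b₁ := by rw [hb₁]; positivity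
  obtain ⟨h, hh1, hh2, hh0⟩ : ∃ h : ℝ, h ≤ 1 / 2 ∧ h ≤ c₀ * b₁ / 4 ∧ 0 < h :=
    ⟨min (1 / 2) (c₀ * b₁ / 4), min_le_left _ _, min_le_right _ _,
      lt_min (by norm_num) (by positivity)⟩
  obtain ⟨s, hs1, hs2, hs3, hs0⟩ : ∃ s : ℝ, s ≤ 1 ∧ 2 * c * C2 * s ≤ h ∧
      (k₁ + 1) * (c * C2) * s ≤ 1 / (16 * A * E) ∧ 0 < s := by
    refine ⟨min 1 (min (h / (2 * c * C2)) (1 / (16 * A * E) / ((k₁ + 1) * (c * C2)))),
      min_le_left _ _, ?_, ?_, ?_⟩
    · have e1 := (min_le_right 1 (min (h / (2 * c * C2))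
        (1 / (16 * A * E) / ((k₁ + 1) * (c * C2))))).trans (min_le_left _ _)
      rw [le_div_iff₀ (by positivity)] at e1
      linarith
    · have e1 := (min_le_right 1 (min (h / (2 * c * C2))
        (1 / (16 * A * E) / ((k₁ + 1) * (c * C2))))).trans (min_le_right _ _)
      rw [le_div_iff₀ (by positivity)] at e1
      linarith
    · exact lt_min one_pos (lt_min (by positivity) (by positivity))
  obtain ⟨C4, hC4⟩ : ∃ C : ℝ, C = c * (C2 + c * (2 * A + 1)) := ⟨_, rfl⟩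
  have hC40 : 0 < C4 := by rw [hC4]; positivity
  obtain ⟨C5, hC5⟩ : ∃ C : ℝ, C = c * C4 * (2 * A + 1) := ⟨_, rfl⟩
  have hC50 : 0 < C5 := by rw [hC5]; positivity
  obtain ⟨N, hN⟩ := exists_nat_ge (T / s + 1)
  obtain ⟨J, hJ⟩ := exists_nat_ge (2 * A / h + 1)
  have hev := (small (c * C2 ^ 2) (1 / (4 * A * E)) (by positivity)).and
    ((small C5 (1 / (16 * A * E)) (by positivity)).and
    ((small C5 h hh0).and
    ((small ((T + 1) * (c * C2 ^ 2)) A hA0).and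
    ((small (c * (2 * A + 1)) r hr0).and
    ((small C4 r hr0).and
    ((small C2 r hr0).and (small (c * C4) 1 one_pos)))))))
  rw [Metric.eventually_nhds_iff] at hev
  obtain ⟨δ₁, hδ₁, hev⟩ := hev
  refine ⟨s, h, c * C4, δ₁, N, J, hs0, hh0, by positivity, hδ₁, ?_⟩
  intro δ hδ hδ' v w hd ht hlo hhi ⟨t₀, ht₀, hcr⟩
  obtain ⟨q1, q2, q3, q4, q5, q6, q7, q8⟩ := hev (y := δ) (by
    rw [Real.dist_eq, sub_zero, abs_of_pos hδ]; exact hδ')
  -- the window
  have hd1 : dd v w ≤ 2 * c * A * δ := by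
    have := S.dle v w hd
    have h2 : |x v w| + |y v w| + |τ v w| ≤ 2 * A * δ := by linarith only [ht, hhi]
    calc dd v w ≤ c * (|x v w| + |y v w| + |τ v w|) := this
      _ ≤ c * (2 * A * δ) := mul_le_mul_of_nonneg_left h2 hc0.le
      _ = _ := by ring
  have hM0 : 0 ≤ C2 * δ := by positivity
  have hw : ∀ t, |t| ≤ T + 1 → dd (Φ t v) (Φ t w) ≤ C2 * δ := by
    intro t ht
    have e1 := S.dflow v w t
    have e2 : Real.exp (L * |t|) ≤ Real.exp (L * (T + 1)) :=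
      Real.exp_le_exp.2 (mul_le_mul_of_nonneg_left ht hL)
    have e3 := dd_nonneg v w
    calc dd (Φ t v) (Φ t w) ≤ c * Real.exp (L * |t|) * dd v w := e1
      _ ≤ c * Real.exp (L * (T + 1)) * (2 * c * A * δ) := by (clear * - e2 hc hd1 e3; gcongr)
      _ = _ := by rw [hC2]; ring
  have hT1 : (0 : ℝ) ≤ T + 1 := by linarith
  have ht₀' : |t₀| ≤ T + 1 := by linarith
  -- lower bound at the crossing
  have c1 := cross_time S hM0 q7 hw hT1 ht₀' hcr
  rw [← hE] at c1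
  have c2 : δ / (4 * A * E) ≤ |y (Φ t₀ v) (Φ t₀ w)| := by
    have e1 : c * (C2 * δ) ^ 2 ≤ δ / (4 * A * E) := by
      calc c * (C2 * δ) ^ 2 = (c * C2 ^ 2 * δ) * δ := by ring
        _ ≤ (1 / (4 * A * E)) * δ := mul_le_mul_of_nonneg_right q1 hδ.le
        _ = _ := by ring
    have e2 : δ / A ≤ 2 * (E * (|y (Φ t₀ v) (Φ t₀ w)| + δ / (4 * A * E))) := by
      refine (hlo.trans c1).trans ?_
      (clear * - e1 hE0; gcongr)
    have e3 : 2 * (E * (|y (Φ t₀ v) (Φ t₀ w)| + δ / (4 * A * E))) =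
        2 * E * |y (Φ t₀ v) (Φ t₀ w)| + δ / (2 * A) := by field_simp; ring
    rw [e3] at e2
    have e4 : δ / A = δ / (2 * A) + δ / (2 * A) := by field_simp; ring
    have e5 : δ / (2 * A) ≤ 2 * E * |y (Φ t₀ v) (Φ t₀ w)| := by linarith only [e2, e4]
    rw [div_le_iff₀ (by positivity)] at e5 ⊢
    calc δ ≤ 2 * E * |y (Φ t₀ v) (Φ t₀ w)| * (2 * A) := e5
      _ = _ := by ring
  -- the grid time
  obtain ⟨k, hk, hk2, hk3⟩ := floor_grid hs0 ht₀ N hN
  obtain ⟨tk, htk⟩ : ∃ t : ℝ, t = k * s := ⟨_, rfl⟩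
  rw [← htk] at hk2 hk3
  have htk1 : |tk| ≤ T + 1 := by
    obtain ⟨e1, e2⟩ := abs_le.1 ht₀
    rw [abs_le]; constructor <;> (first | linarith only [hs1, hk3, e1] | linarith only [hk2, e2] | linarith)
  have hdt : |tk - t₀| ≤ s := by rw [abs_le]; constructor <;> (first | linarith only [hk3] | linarith only [hs0, hk2] | linarith)
  have xk : |x (Φ tk v) (Φ tk w)| ≤ h * δ := by
    have e1 := x_lip S hM0 q7 hw ht₀' htk1
    rw [hcr, sub_zero] at e1
    calc |x (Φ tk v) (Φ tk w)| ≤ 2 * c * (C2 * δ) * |tk - t₀| := e1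
      _ ≤ 2 * c * (C2 * δ) * s := mul_le_mul_of_nonneg_left hdt (by positivity)
      _ = (2 * c * C2 * s) * δ := by ring
      _ ≤ h * δ := mul_le_mul_of_nonneg_right hs2 hδ.le
  have yk : 3 * δ / (16 * A * E) ≤ |y (Φ tk v) (Φ tk w)| := by
    have e1 := y_lip S hM0 q7 hw ht₀' htk1
    have e2 : (k₁ + 1) * (c * (C2 * δ)) * |tk - t₀| ≤ δ / (16 * A * E) := by
      calc (k₁ + 1) * (c * (C2 * δ)) * |tk - t₀| ≤ (k₁ + 1) * (c * (C2 * δ)) * s :=
            mul_le_mul_of_nonneg_left hdt (by positivity)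
        _ = ((k₁ + 1) * (c * C2) * s) * δ := by ring
        _ ≤ 1 / (16 * A * E) * δ := mul_le_mul_of_nonneg_right hs3 hδ.le
        _ = _ := by ring
    have e3 : |y (Φ t₀ v) (Φ t₀ w)| - |y (Φ tk v) (Φ tk w)| ≤
        |y (Φ tk v) (Φ tk w) - y (Φ t₀ v) (Φ t₀ w)| := by
      rw [abs_sub_comm]; exact abs_sub_abs_le_abs_sub _ _
    have e4 : δ / (4 * A * E) = 3 * δ / (16 * A * E) + δ / (16 * A * E) := by field_simp; ring
    linarith only [c2, e1, e2, e3, e4]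
  have zk : |τ (Φ tk v) (Φ tk w)| ≤ 2 * A * δ := by
    have e1 := t_lip S hM0 q7 hw (t₁ := 0) (t₂ := tk) (by simpa using hT1) htk1
    simp only [S.zero, sub_zero] at e1
    have e2 : c * (C2 * δ) ^ 2 * |tk| ≤ A * δ := by
      calc c * (C2 * δ) ^ 2 * |tk| ≤ c * (C2 * δ) ^ 2 * (T + 1) :=
            mul_le_mul_of_nonneg_left htk1 (by positivity)
        _ = ((T + 1) * (c * C2 ^ 2) * δ) * δ := by ring
        _ ≤ A * δ := mul_le_mul_of_nonneg_right q4 hδ.le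
    have e3 := abs_add_le (τ (Φ tk v) (Φ tk w) - τ v w) (τ v w)
    rw [sub_add_cancel] at e3
    linarith only [ht, e1, e2, e3]
  -- the shift
  have hhδ : 0 < h * δ := by positivity
  obtain ⟨j, hj, hj2, hj3⟩ := floor_grid (a := -τ (Φ tk v) (Φ tk w)) (B := 2 * A * δ) hhδ
    (by rw [abs_neg]; exact zk) J (by
      refine le_trans (le_of_eq ?_) hJ
      field_simp)
  obtain ⟨ρ, hρ⟩ : ∃ t : ℝ, t = j * (h * δ) := ⟨_, rfl⟩
  rw [← hρ] at hj2 hj3
  have hρ1 : |ρ| ≤ (2 * A + 1) * δ := by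
    obtain ⟨e1, e2⟩ := abs_le.1 zk
    have e3 : h * δ ≤ 1 / 2 * δ := mul_le_mul_of_nonneg_right hh1 hδ.le
    have e4 : (2 * A + 1) * δ = 2 * A * δ + δ := by ring
    rw [abs_le, e4]; constructor <;> (first | linarith only [hhδ, hj3, e2, e3] | linarith only [hhδ, hj2, e1, e3] | linarith)
  have m0 : 0 ≤ (2 * A + 1) * δ := by positivity
  have m2 : c * ((2 * A + 1) * δ) ≤ r := by linarith only [q5]
  have m1 : (2 * A + 1) * δ ≤ 1 := by
    exact (le_mul_of_one_le_left m0 hc).trans (m2.trans hr1)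
  have m3e : c * (C2 * δ + c * ((2 * A + 1) * δ)) = C4 * δ := by rw [hC4]; ring
  have m3 : c * (C2 * δ + c * ((2 * A + 1) * δ)) ≤ r := by rw [m3e]; exact q6
  have m4 : c * (c * (C2 * δ + c * ((2 * A + 1) * δ))) * ((2 * A + 1) * δ) = C5 * δ * δ := by
    rw [m3e, hC5]; ring
  have d1 := move_dd S q7 (hw tk htk1) m0 m1 m2 m3 hρ1
  have d2 := move_x S q7 (hw tk htk1) m0 m1 m2 m3 hρ1
  have d3 := move_y S q7 (hw tk htk1) m0 m1 m2 m3 hρ1
  have d4 := move_t S q7 (hw tk htk1) m0 m1 m2 m3 hρ1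
  rw [m3e] at d1
  rw [m4] at d2 d3 d4
  have f1 : C5 * δ * δ ≤ h * δ := mul_le_mul_of_nonneg_right q3 hδ.le
  have f2 : C5 * δ * δ ≤ δ / (16 * A * E) := by
    calc C5 * δ * δ ≤ 1 / (16 * A * E) * δ := mul_le_mul_of_nonneg_right q2 hδ.le
      _ = _ := by ring
  have g1 : |x (Φ tk v) (Φ ρ (Φ tk w))| ≤ 2 * h * δ := by
    have e := abs_add_le (x (Φ tk v) (Φ ρ (Φ tk w)) - x (Φ tk v) (Φ tk w)) (x (Φ tk v) (Φ tk w))
    rw [sub_add_cancel] at e
    linarith only [xk, d2, f1, e]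
  have g2 : |τ (Φ tk v) (Φ ρ (Φ tk w))| ≤ 2 * h * δ := by
    have e := abs_add_le (τ (Φ tk v) (Φ ρ (Φ tk w)) - (τ (Φ tk v) (Φ tk w) + ρ))
      (τ (Φ tk v) (Φ tk w) + ρ)
    rw [sub_add_cancel] at e
    have e2 : |τ (Φ tk v) (Φ tk w) + ρ| ≤ h * δ := by
      rw [abs_le]; constructor <;> (first | linarith only [hj3] | linarith only [hhδ, hj2] | linarith)
    linarith only [d4, f1, e, e2]
  have g3 : b₁ * δ ≤ |y (Φ tk v) (Φ ρ (Φ tk w))| := by
    have e3 : |y (Φ tk v) (Φ tk w)| - |y (Φ tk v) (Φ ρ (Φ tk w))| ≤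
        |y (Φ tk v) (Φ ρ (Φ tk w)) - y (Φ tk v) (Φ tk w)| := by
      rw [abs_sub_comm]; exact abs_sub_abs_le_abs_sub _ _
    have e4 : b₁ * δ = 3 * δ / (16 * A * E) - δ / (16 * A * E) := by
      rw [hb₁]; field_simp; ring
    linarith only [yk, d3, f2, e3, e4]
  have g4 : |y (Φ tk v) (Φ ρ (Φ tk w))| ≤ c * C4 * δ := by
    refine (S.yle _ _ (d1.trans q6)).trans ?_
    calc c * dd (Φ tk v) (Φ ρ (Φ tk w)) ≤ c * (C4 * δ) := mul_le_mul_of_nonneg_left d1 hc0.le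
      _ = _ := by ring
  have hyp : 0 < |y (Φ tk v) (Φ ρ (Φ tk w))| := lt_of_lt_of_le (by positivity) g3
  obtain ⟨l, hl1, hl2⟩ := dyadic hyp (g4.trans q8)
  refine ⟨k, hk, j, hj, l, hl1.trans g4, ?_⟩
  rw [← htk, ← hρ]
  refine ⟨?_, d1.trans q6, g1, g2, hl1, hl2⟩
  have p2 : (0 : ℝ) < 2 ^ l := by positivity
  have p3 : b₁ * δ ≤ 2 / 2 ^ l := g3.trans hl2
  rw [le_div_iff₀ p2] at p3 ⊢
  calc 2 * h * δ * 2 ^ l ≤ 2 * (c₀ * b₁ / 4) * δ * 2 ^ l := by (clear * - hh2 hδ; gcongr)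
    _ = c₀ / 2 * (b₁ * δ * 2 ^ l) := by ring
    _ ≤ c₀ / 2 * 2 := mul_le_mul_of_nonneg_left p3 (by positivity)
    _ = c₀ := by ring

end Cr

end

end NC

end QE


end

section

/-!
# Module NC_CROSS: pairs of crossing geodesics
-/

open MeasureTheory Filter Topology Set
open UpperHalfPlane hiding I
open scoped ContDiff MatrixGroups ENNReal

namespace QE

namespace NC

noncomputable section

namespace Cr

variable {Γ : Subgroup SL(2, ℝ)} {D : Set ℍ} {Φ : ℝ → SL(2, ℝ) → SL(2, ℝ)}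
  {x y τ : SL(2, ℝ) → SL(2, ℝ) → ℝ} {κ : SL(2, ℝ) → ℝ} {c r L k₀ k₁ : ℝ}

lemma flow_cont (S : PairSys Γ Φ x y τ κ c r L k₀ k₁) (t : ℝ) : Continuous (Φ t) :=
  S.cont.comp (f := fun g : SL(2, ℝ) => (t, g)) (by fun_prop)

/-- the flow as a homeomorphism -/
def flowHomeo (S : PairSys Γ Φ x y τ κ c r L k₀ k₁) (t : ℝ) : SL(2, ℝ) ≃ₜ SL(2, ℝ) where
  toFun := Φ t
  invFun := Φ (-t)
  left_inv g := by rw [← S.add, neg_add_cancel, S.zero]
  right_inv g := by rw [← S.add, add_neg_cancel, S.zero]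
  continuous_toFun := flow_cont S t
  continuous_invFun := flow_cont S (-t)

lemma dd_left (γ v w : SL(2, ℝ)) : dd (γ * v) (γ * w) = dd v w := by
  unfold dd
  congr 1
  group

lemma cont_entry (i j : Fin 2) : Continuous fun g : SL(2, ℝ) => g i j := by
  have h : Continuous fun g : SL(2, ℝ) => (g : Matrix (Fin 2) (Fin 2) ℝ) := continuous_subtype_val
  exact h.matrix_elem i j

lemma nn_cont : Continuous nn := by
  unfold nn
  have h1 := cont_entry 0 0
  have h2 := cont_entry 0 1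
  have h3 := cont_entry 1 0
  have h4 := cont_entry 1 1
  fun_prop

lemma dd_cont : Continuous fun p : SL(2, ℝ) × SL(2, ℝ) => dd p.1 p.2 :=
  nn_cont.comp (continuous_fst.inv.mul continuous_snd)

lemma QQ_inv (S : PairSys Γ Φ x y τ κ c r L k₀ k₁) (a c₀ : ℝ) (l : ℕ) (γ : SL(2, ℝ)) (hγ : γ ∈ Γ)
    (v w : SL(2, ℝ)) : QQ x y τ r a c₀ l (γ * v) (γ * w) ↔ QQ x y τ r a c₀ l v w := by
  unfold QQ
  rw [dd_left, S.xi γ hγ, S.yi γ hγ, S.ti γ hγ]

variable [MeasurableSpace SL(2, ℝ)] [BorelSpace SL(2, ℝ)] {ν : Measure SL(2, ℝ)}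

lemma QQ_meas (S : PairSys Γ Φ x y τ κ c r L k₀ k₁) (a c₀ : ℝ) (l : ℕ) :
    MeasurableSet {p : SL(2, ℝ) × SL(2, ℝ) | QQ x y τ r a c₀ l p.1 p.2} := by
  have h1 := dd_cont
  have h2 := S.xc
  have h3 := S.yc
  have h4 := S.tc
  refine IsClosed.measurableSet ?_
  unfold QQ
  refine (isClosed_const).inter (((isClosed_le h1 continuous_const)).inter
    ((isClosed_le h2.abs continuous_const).inter ((isClosed_le h4.abs continuous_const).inter
    ((isClosed_le continuous_const h3.abs).inter (isClosed_le h3.abs continuous_const)))))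

lemma mp (S : PairSys Γ Φ x y τ κ c r L k₀ k₁) (W : MassSys Γ D Φ x τ r ν) (t : ℝ) :
    MeasurePreserving (Φ t) ν ν := ⟨(flow_cont S t).measurable, W.flow t⟩

lemma smulInv (W : MassSys Γ D Φ x τ r ν) : SMulInvariantMeasure Γ SL(2, ℝ) ν where
  measure_preimage_smul g s hs := by
    have h := W.left g g.2
    have hm : Measurable fun x : SL(2, ℝ) => (g : SL(2, ℝ)) * x :=
      (continuous_const_mul (g : SL(2, ℝ))).measurable
    conv_rhs => rw [← h, Measure.map_apply hm hs]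
    rfl

lemma set_inv [Countable Γ] (S : PairSys Γ Φ x y τ κ c r L k₀ k₁) (W : MassSys Γ D Φ x τ r ν)
    {f : SL(2, ℝ) → ℝ≥0∞} (hinv : ∀ γ ∈ Γ, ∀ g, f (γ * g) = f g) (s : ℝ) :
    ∫⁻ v in Berry.Fd D, f (Φ s v) ∂ν = ∫⁻ v in Berry.Fd D, f v ∂ν := by
  have := smulInv W
  have hemb : MeasurableEmbedding (Φ s) := (flowHomeo S s).measurableEmbedding
  have h1 := (mp S W s).setLIntegral_comp_preimage_emb hemb f (Φ (-s) ⁻¹' (Berry.Fd D))
  have e2 : Φ s ⁻¹' (Φ (-s) ⁻¹' (Berry.Fd D)) = Berry.Fd D := by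
    ext g
    simp only [Set.mem_preimage, ← S.add, neg_add_cancel, S.zero]
  rw [e2] at h1
  rw [h1]
  have hfund : IsFundamentalDomain Γ (Φ (-s) ⁻¹' (Berry.Fd D)) ν :=
    W.fund.preimage_of_equiv (mp S W (-s)).quasiMeasurePreserving (e := id)
      Function.bijective_id fun γ g => S.left γ γ.2 (-s) g
  exact hfund.setLIntegral_eq W.fund f fun γ g => hinv γ γ.2 g

lemma PM_flow [Countable Γ] (S : PairSys Γ Φ x y τ κ c r L k₀ k₁) (W : MassSys Γ D Φ x τ r ν)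
    {P : SL(2, ℝ) → SL(2, ℝ) → Prop}
    (hP : MeasurableSet {p : SL(2, ℝ) × SL(2, ℝ) | P p.1 p.2})
    (hinv : ∀ γ ∈ Γ, ∀ v w, P (γ * v) (γ * w) ↔ P v w) (s t : ℝ) :
    PM D ν (fun v w => P (Φ s v) (Φ t w)) = PM D ν P := by
  unfold PM
  have e1 : ∀ v, ν {w | P (Φ s v) (Φ t w)} = ν {w | P (Φ s v) w} := fun v => by
    have hm : MeasurableSet {w | P (Φ s v) w} := measurable_prodMk_left hP
    exact (mp S W t).measure_preimage hm.nullMeasurableSet
  simp only [e1]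
  refine set_inv S W (f := fun u => ν {w | P u w}) (fun γ hγ g => ?_) s
  have h := W.left γ hγ
  have hm : MeasurableSet {w | P (γ * g) w} := measurable_prodMk_left hP
  have hmm : Measurable fun x : SL(2, ℝ) => γ * x := (continuous_const_mul γ).measurable
  conv_lhs => rw [← h, Measure.map_apply hmm hm]
  congr 1
  ext w
  exact hinv γ hγ g w

lemma PM_cover [SFinite ν] {ι : Type} [Countable ι] {P : SL(2, ℝ) → SL(2, ℝ) → Prop}
    {Q : ι → SL(2, ℝ) → SL(2, ℝ) → Prop}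
    (hQ : ∀ i, MeasurableSet {p : SL(2, ℝ) × SL(2, ℝ) | Q i p.1 p.2})
    (hcov : ∀ v w, P v w → ∃ i, Q i v w) : PM D ν P ≤ ∑' i, PM D ν (Q i) := by
  have hm : ∀ i, Measurable (fun v => ν {w | Q i v w}) := fun i =>
    measurable_measure_prodMk_left (hQ i)
  unfold PM
  rw [← lintegral_tsum (fun i => (hm i).aemeasurable)]
  refine lintegral_mono fun v => ?_
  refine le_trans (measure_mono ?_) (measure_iUnion_le _)
  intro w hw
  obtain ⟨i, hi⟩ := hcov v w hw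
  exact mem_iUnion.2 ⟨i, hi⟩

/-- the index set of the covering -/
abbrev Ix (N J : ℕ) : Type := (Finset.Icc (-(N : ℤ)) N) × (Finset.Icc (-(J : ℤ)) J) × ℕ

omit [MeasurableSpace SL(2, ℝ)] [BorelSpace SL(2, ℝ)] in
lemma tsum_Ix (N J : ℕ) (f : ℕ → ℝ≥0∞) : ∑' i : Ix N J, f i.2.2 =
    ((Finset.Icc (-(N : ℤ)) N).card : ℝ≥0∞) *
      (((Finset.Icc (-(J : ℤ)) J).card : ℝ≥0∞) * ∑' m, f m) := by
  have e1 : ∑' i : Ix N J, f i.2.2 =
      ∑' (_ : (Finset.Icc (-(N : ℤ)) N)), ∑' (_ : (Finset.Icc (-(J : ℤ)) J)), ∑' m, f m := by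
    rw [ENNReal.tsum_prod']
    refine tsum_congr fun _ => ?_
    rw [ENNReal.tsum_prod']
  rw [e1, tsum_fintype, Finset.sum_const, Finset.card_univ, Fintype.card_coe,
    tsum_fintype, Finset.sum_const, Finset.card_univ, Fintype.card_coe,
    nsmul_eq_mul, nsmul_eq_mul]

end Cr

open _root_.QE.NC.Cr in
/-- MODULE NC_CROSS -/
theorem stmtCross (hS : StmtSum) : StmtCross := by
  intro _ _ Γ _ D Φ x y τ κ c r L k₀ k₁ ν S W T A η hT hA hη
  have := W.sf
  obtain ⟨c₀, hc₀, l₀, a, ha, hsum⟩ := hS Γ D Φ x y τ κ c r L k₀ k₁ ν S W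
  obtain ⟨s, h, b₂, δ₁, N, J, hs, hh, hb₂, hδ₁, hcov⟩ := cover S hc₀ hT hA
  obtain ⟨n₁, hn₁⟩ : ∃ n : ℕ, n = (Finset.Icc (-(N : ℤ)) N).card := ⟨_, rfl⟩
  obtain ⟨n₂, hn₂⟩ : ∃ n : ℕ, n = (Finset.Icc (-(J : ℤ)) J).card := ⟨_, rfl⟩
  obtain ⟨η', hη'⟩ : ∃ e : ℝ, e = η / (n₁ * n₂ * (2 * h) ^ 2 + 1) := ⟨_, rfl⟩
  have hη'0 : 0 < η' := by rw [hη']; (clear * - hη hh; positivity)
  -- the tail
  obtain ⟨l₁, hl₁, htail⟩ : ∃ l₁ : ℕ, l₀ ≤ l₁ ∧ (∑' m, a (m + l₁)) ≤ ENNReal.ofReal η' := by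
    have h1 := ENNReal.tendsto_sum_nat_add a ha
    have h2 : ∀ᶠ i in atTop, (∑' m, a (m + i)) < ENNReal.ofReal η' :=
      h1.eventually (gt_mem_nhds (ENNReal.ofReal_pos.2 hη'0))
    obtain ⟨l₁, h3, h4⟩ := ((eventually_ge_atTop l₀).and h2).exists
    exact ⟨l₁, h3, h4.le⟩
  refine ⟨min δ₁ (1 / 2 ^ l₁ / b₂), lt_min hδ₁ (by positivity), fun δ hδ hδ' => ?_⟩
  have hd1 : δ < δ₁ := hδ'.trans_le (min_le_left _ _)
  have hd2 : b₂ * δ < 1 / 2 ^ l₁ := by
    have := hδ'.trans_le (min_le_right _ _)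
    rw [lt_div_iff₀ hb₂] at this
    linarith
  -- the covering
  set Q : Ix N J → SL(2, ℝ) → SL(2, ℝ) → Prop := fun i v w =>
    QQ x y τ r (2 * h * δ) c₀ (i.2.2 + l₁) (Φ ((i.1 : ℤ) * s) v)
      (Φ ((i.2.1 : ℤ) * (h * δ) + (i.1 : ℤ) * s) w) with hQdef
  have hQm : ∀ i, MeasurableSet {p : SL(2, ℝ) × SL(2, ℝ) | Q i p.1 p.2} := by
    intro i
    have h1 : Measurable fun p : SL(2, ℝ) × SL(2, ℝ) =>
        (Φ ((i.1 : ℤ) * s) p.1, Φ ((i.2.1 : ℤ) * (h * δ) + (i.1 : ℤ) * s) p.2) :=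
      (((flow_cont S _).comp continuous_fst).prodMk
        ((flow_cont S _).comp continuous_snd)).measurable
    exact h1 (QQ_meas S (2 * h * δ) c₀ (i.2.2 + l₁))
  have hcov' : ∀ v w, (dd v w ≤ r ∧ |τ v w| ≤ A * δ ∧ δ / A ≤ |x v w| + |y v w| ∧
        |x v w| + |y v w| ≤ A * δ ∧ ∃ t : ℝ, |t| ≤ T ∧ x (Φ t v) (Φ t w) = 0) → ∃ i, Q i v w := by
    rintro v w ⟨h1, h2, h3, h4, h5⟩
    obtain ⟨k, hk, j, hj, l, hl, hq⟩ := hcov δ hδ hd1 v w h1 h2 h3 h4 h5
    have hll : l₁ ≤ l := by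
      by_contra hc
      push Not at hc
      have h6 : (1 : ℝ) / 2 ^ l₁ ≤ 1 / 2 ^ l :=
        one_div_le_one_div_of_le (by positivity) (pow_le_pow_right₀ (by norm_num) hc.le)
      linarith
    refine ⟨(⟨k, hk⟩, ⟨j, hj⟩, l - l₁), ?_⟩
    show QQ x y τ r (2 * h * δ) c₀ (l - l₁ + l₁) (Φ (k * s) v) (Φ (j * (h * δ) + k * s) w)
    rw [Nat.sub_add_cancel hll, S.add]
    exact hq
  refine (PM_cover hQm hcov').trans ?_
  -- each set
  have hone : ∀ i : Ix N J, PM D ν (Q i) ≤ a (i.2.2 + l₁) * ENNReal.ofReal ((2 * h * δ) ^ 2) := by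
    intro i
    have e1 : PM D ν (Q i) = PM D ν (QQ x y τ r (2 * h * δ) c₀ (i.2.2 + l₁)) :=
      Cr.PM_flow S W (QQ_meas S _ _ _) (QQ_inv S _ _ _) _ _
    rw [e1]
    by_cases hc : 2 * h * δ ≤ c₀ / 2 ^ (i.2.2 + l₁)
    · refine le_trans ?_ (hsum (i.2.2 + l₁) (by omega) (2 * h * δ) (by positivity) hc)
      unfold PM
      refine lintegral_mono fun v => measure_mono fun w hw => ?_
      exact hw.2
    · have e2 : PM D ν (QQ x y τ r (2 * h * δ) c₀ (i.2.2 + l₁)) = 0 := by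
        unfold PM
        have : ∀ v : SL(2, ℝ), {w | QQ x y τ r (2 * h * δ) c₀ (i.2.2 + l₁) v w} = ∅ := by
          intro v
          ext w
          exact ⟨fun hw => (hc hw.1).elim, fun hw => hw.elim⟩
        simp only [this, measure_empty, lintegral_zero]
      rw [e2]
      exact zero_le
  calc (∑' i, PM D ν (Q i)) ≤ ∑' i : Ix N J, a (i.2.2 + l₁) * ENNReal.ofReal ((2 * h * δ) ^ 2) :=
        ENNReal.tsum_le_tsum hone
    _ = n₁ * (n₂ * (∑' m, a (m + l₁))) * ENNReal.ofReal ((2 * h * δ) ^ 2) := by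
        rw [ENNReal.tsum_mul_right, tsum_Ix N J (fun m => a (m + l₁)), ← hn₁, ← hn₂]
    _ ≤ n₁ * (n₂ * ENNReal.ofReal η') * ENNReal.ofReal ((2 * h * δ) ^ 2) := by gcongr
    _ = ENNReal.ofReal (n₁ * (n₂ * η') * (2 * h * δ) ^ 2) := by
        rw [ENNReal.ofReal_mul (by positivity), ENNReal.ofReal_mul (by positivity),
          ENNReal.ofReal_mul (by positivity), ENNReal.ofReal_natCast, ENNReal.ofReal_natCast]
    _ ≤ ENNReal.ofReal (η * δ ^ 2) := by
        refine ENNReal.ofReal_le_ofReal ?_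
        have e1 : (n₁ : ℝ) * (n₂ * η') * (2 * h * δ) ^ 2 =
            (n₁ * n₂ * (2 * h) ^ 2) * η' * δ ^ 2 := by ring
        rw [e1]
        refine mul_le_mul_of_nonneg_right ?_ (sq_nonneg _)
        rw [hη', mul_div_assoc', div_le_iff₀ (by positivity)]
        linarith only [hη]

end

end NC

end QE


end

section

/-!
# Closed surfaces of negative curvature: assembly
-/

open UpperHalfPlane MeasureTheory MatrixGroups Filter Topology Set Berry
open scoped ENNReal ContDiff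

namespace QE

namespace NC

/-- no directional atoms -/
theorem atoms : StmtAtoms := by
  have hC : StmtCross := stmtCross stmtSum
  have hD : StmtDiag := stmtDiag stmtTiny (stmtKstep hC) stmtCover hC
  have hN : StmtN := stmtN stmtSum hD
  exact stmtAtoms stmtLip stmtInf (stmtFlow stmtLip) (stmtFl stmtLip)
    (stmtInv stmtLip (stmtFl stmtLip)) (stmtAlg stmtLip) (stmtDer stmtLip) (stmtMass stmtLip) hN

/-- the fourth moments -/
theorem final : StmtFinal := stmtFinal stmtSetup stmtLim atoms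

variable {Γ : Subgroup SL(2, ℝ)} {ρ : ℍ → ℝ} {D : Set ℍ} {φ : ℕ → ℍ → ℝ} {m : ℕ → ℝ}

/-- the three-point functions -/
theorem three [Countable Γ] (hρ : ContDiffOn ℝ ∞ (fun w : ℂ => ρ (ofComplex w)) {w | 0 < w.im})
    (hρΓ : ∀ γ ∈ Γ, ∀ z, ρ (γ • z) = ρ z)
    (hneg : ∀ z : ℍ, 0 < 1 + z.im ^ 2 * Laplacian.laplacian (fun w : ℂ => ρ (ofComplex w)) z)
    (hDm : MeasurableSet D) (hD : IsFundamentalDomain Γ D (volume : Measure ℍ))
    (hK : ∃ K : Set ℍ, IsCompact K ∧ ∀ z, ∃ γ ∈ Γ, γ • z ∈ K) (hφ : REigenSeq Γ ρ φ m)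
    (hs : ∀ n, ContDiffOn ℝ ∞ (fun w : ℂ => φ n (ofComplex w)) {w | 0 < w.im})
    (x y z : ℂ) {ε : ℝ} (hε : 0 < ε) :
    ∀ᶠ n in atTop, |∫ p, rWave ρ (φ n) (m n) x p * rWave ρ (φ n) (m n) y p
        * rWave ρ (φ n) (m n) z p ∂(rFrameProb ρ D)|
      ≤ ε * rAvg ρ D (fun z => φ n z ^ 4) ^ ((3 : ℝ) / 4) :=
  three_allR stmtSetup stmtLim atoms hDm hD ⟨hρ, hρΓ, hK⟩ hneg hφ hs x y z hε

/-- equidistribution of the squares -/
theorem mass [Countable Γ] (hρ : ContDiffOn ℝ ∞ (fun w : ℂ => ρ (ofComplex w)) {w | 0 < w.im})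
    (hρΓ : ∀ γ ∈ Γ, ∀ z, ρ (γ • z) = ρ z)
    (hneg : ∀ z : ℍ, 0 < 1 + z.im ^ 2 * Laplacian.laplacian (fun w : ℂ => ρ (ofComplex w)) z)
    (hDm : MeasurableSet D) (hD : IsFundamentalDomain Γ D (volume : Measure ℍ))
    (hK : ∃ K : Set ℍ, IsCompact K ∧ ∀ z, ∃ γ ∈ Γ, γ • z ∈ K) (hφ : REigenSeq Γ ρ φ m)
    (hs : ∀ n, ContDiffOn ℝ ∞ (fun w : ℂ => φ n (ofComplex w)) {w | 0 < w.im})
    (hn : ∀ n, rAvg ρ D (fun z => φ n z ^ 2) = 1)
    (h4 : Tendsto (fun n => rAvg ρ D (fun z => φ n z ^ 4)) atTop (𝓝 3))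
    {f : ℍ → ℝ} (hf : Continuous f) (hfi : ∀ γ ∈ Γ, ∀ z, f (γ • z) = f z) :
    Tendsto (fun n => rAvg ρ D (fun z => f z * φ n z ^ 2)) atTop (𝓝 (rAvg ρ D f)) := by
  have hg : Geo Γ ρ D := geo_of hDm hD hK (continuous_of_smooth hρ) hρΓ
  refine mass_of_four hg hK (fun n => continuous_of_smooth (hs n)) hφ.invariant hn
    (fun g hgc hgi ε hε => ?_) h4 hf hfi
  have key := final Γ ρ hρ hρΓ hneg D hDm hD hK φ m hφ hs hn (fun _ => 1) g continuous_const
    (fun _ => one_pos) (fun _ _ _ => rfl) hgc hgi 1 (fun _ => 1) (fun _ => 0) ε hε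
  filter_upwards [key] with n h
  simp only [Finset.univ_unique, Finset.sum_singleton, sub_zero, waveK_zero, one_mul, one_pow,
    mul_one, rWave_origin] at h
  rw [rFrame_base hg (f := fun z => φ n z ^ 4)] at h
  exact h

end NC

end QE


end
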