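import Mathlib
import Pool.Agent.BWM.C13
import Pool.Agent.BWM.C17
import Pool.Agent.BWM.C23

/-! Parts: U3.DERB, U3.RELB, U3.PTSU -/

section

/-!
The derivatives of the displaced integrals with respect to the displacement.
-/

open Complex MeasureTheory Filter Topology Set
open scoped ContDiff

namespace U3

open QJ QE

noncomputable section

namespace DER

variable {V : Set ℂ} {σ : ℂ → ℝ} {h : ℕ → ℝ} {φ : ℕ → ℂ → ℂ}

/-! ### Parametric integrals -/

/-- the derivative in the first variable -/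
def F1 (F : ℂ → ℂ → ℂ) (l z : ℂ) : ℂ →L[ℝ] ℂ :=
  (fderiv ℝ (Function.uncurry F) (l, z)).comp (ContinuousLinearMap.inl ℝ ℂ ℂ)

lemma F1_cont {F : ℂ → ℂ → ℂ} (hF : ContDiff ℝ ∞ (Function.uncurry F)) :
    Continuous (Function.uncurry (F1 F)) := by
  have h1 : Continuous (fderiv ℝ (Function.uncurry F)) := hF.continuous_fderiv (by simp)
  exact (h1.comp (continuous_fst.prodMk continuous_snd)).clm_comp continuous_const

lemma F1_has {F : ℂ → ℂ → ℂ} (hF : ContDiff ℝ ∞ (Function.uncurry F)) (l z : ℂ) :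
    HasFDerivAt (fun l => F l z) (F1 F l z) l :=
  HasFDerivAt.comp l (f := fun l => (l, z)) ((hF.differentiable (by simp)) (l, z)).hasFDerivAt
    (hasFDerivAt_prodMk_left l z)

lemma hasFDeriv_param {F : ℂ → ℂ → ℂ} (hF : ContDiff ℝ ∞ (Function.uncurry F)) {K : Set ℂ}
    (hK : IsCompact K) (l₀ : ℂ) :
    HasFDerivAt (fun l => ∫ z in K, F l z) (∫ z in K, F1 F l₀ z) l₀ := by
  have hF'c := F1_cont hF
  obtain ⟨C, hC⟩ := ((isCompact_closedBall l₀ 1).prod hK).exists_bound_of_continuousOn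
    hF'c.continuousOn
  have hs : ∀ l : ℂ, Continuous fun z : ℂ => (l, z) := fun l => by fun_prop
  refine hasFDerivAt_integral_of_dominated_of_fderiv_le (s := Metric.ball l₀ 1)
    (bound := fun _ => C) (F' := F1 F) (Metric.ball_mem_nhds _ one_pos) ?_ ?_ ?_ ?_ ?_ ?_
  · filter_upwards with l
    exact (hF.continuous.comp (hs l)).aestronglyMeasurable
  · exact (hF.continuous.comp (hs l₀)).continuousOn.integrableOn_compact hK
  · exact (hF'c.comp (hs l₀)).aestronglyMeasurable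
  · refine (ae_restrict_iff' hK.measurableSet).mpr (ae_of_all _ fun z hz l hl => ?_)
    exact hC (l, z) ⟨Metric.ball_subset_closedBall hl, hz⟩
  · exact continuousOn_const.integrableOn_compact hK
  · filter_upwards with z l _
    exact F1_has hF l z

lemma contDiff_param {F : ℂ → ℂ → ℂ} (hF : ContDiff ℝ ∞ (Function.uncurry F)) {K : Set ℂ}
    (hK : IsCompact K) : ContDiff ℝ 1 (fun l => ∫ z in K, F l z) := by
  rw [contDiff_one_iff_fderiv]
  refine ⟨fun l => (hasFDeriv_param hF hK l).differentiableAt, ?_⟩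
  have h1 : fderiv ℝ (fun l => ∫ z in K, F l z) = fun l => ∫ z in K, F1 F l z := by
    funext l
    exact (hasFDeriv_param hF hK l).fderiv
  rw [h1]
  exact continuous_parametric_integral_of_continuous (F1_cont hF) hK

lemma fderiv_param {F : ℂ → ℂ → ℂ} (hF : ContDiff ℝ ∞ (Function.uncurry F)) {K : Set ℂ}
    (hK : IsCompact K) (l v : ℂ) :
    fderiv ℝ (fun l => ∫ z in K, F l z) l v = ∫ z in K, fderiv ℝ (fun l => F l z) l v := by
  rw [(hasFDeriv_param hF hK l).fderiv]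
  have h1 : Integrable (F1 F l) (volume.restrict K) :=
    ((F1_cont hF).comp (by fun_prop : Continuous fun z : ℂ => (l, z))).continuousOn.integrableOn_compact
      hK
  rw [ContinuousLinearMap.integral_apply h1]
  refine integral_congr_ae (ae_of_all _ fun z => ?_)
  simp only [(F1_has hF l z).fderiv]

lemma fderiv_cont {F : ℂ → ℂ → ℂ} (hF : ContDiff ℝ ∞ (Function.uncurry F)) (l v : ℂ) :
    Continuous fun z => fderiv ℝ (fun l => F l z) l v := by
  have h1 : (fun z => fderiv ℝ (fun l => F l z) l v) = fun z => F1 F l z v := by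
    funext z
    rw [(F1_has hF l z).fderiv]
  rw [h1]
  exact ((F1_cont hF).comp (by fun_prop : Continuous fun z : ℂ => (l, z))).clm_apply
    continuous_const

lemma dz_param {F : ℂ → ℂ → ℂ} (hF : ContDiff ℝ ∞ (Function.uncurry F)) {K : Set ℂ}
    (hK : IsCompact K) (l : ℂ) :
    dz (fun l => ∫ z in K, F l z) l = ∫ z in K, dz (fun l => F l z) l := by
  unfold dz
  have i1 : IntegrableOn (fun z => fderiv ℝ (fun l => F l z) l 1) K :=
    (fderiv_cont hF l 1).continuousOn.integrableOn_compact hK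
  have i2 : IntegrableOn (fun z => I * fderiv ℝ (fun l => F l z) l I) K :=
    (continuous_const.mul (fderiv_cont hF l I)).continuousOn.integrableOn_compact hK
  rw [fderiv_param hF hK, fderiv_param hF hK, integral_const_mul, integral_sub i1 i2,
    integral_const_mul]

lemma dzb_param {F : ℂ → ℂ → ℂ} (hF : ContDiff ℝ ∞ (Function.uncurry F)) {K : Set ℂ}
    (hK : IsCompact K) (l : ℂ) :
    dzb (fun l => ∫ z in K, F l z) l = ∫ z in K, dzb (fun l => F l z) l := by
  unfold dzb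
  have i1 : IntegrableOn (fun z => fderiv ℝ (fun l => F l z) l 1) K :=
    (fderiv_cont hF l 1).continuousOn.integrableOn_compact hK
  have i2 : IntegrableOn (fun z => I * fderiv ℝ (fun l => F l z) l I) K :=
    (continuous_const.mul (fderiv_cont hF l I)).continuousOn.integrableOn_compact hK
  rw [fderiv_param hF hK, fderiv_param hF hK, integral_const_mul, integral_add i1 i2,
    integral_const_mul]

/-! ### Derivatives of products of displaced functions -/

lemma fderiv_affine {G : ℂ → ℂ} (hG : ContDiff ℝ ∞ G) (z c l v : ℂ) :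
    fderiv ℝ (fun l => G (z + c * l)) l v = fderiv ℝ G (z + c * l) (c * v) := by
  have h1 : HasFDerivAt (fun l : ℂ => z + c * l)
      (c • (ContinuousLinearMap.id ℝ ℂ)) l := ((hasFDerivAt_id l).const_mul c).const_add z
  have h2 : HasFDerivAt (fun l => G (z + c * l))
      ((fderiv ℝ G (z + c * l)).comp (c • (ContinuousLinearMap.id ℝ ℂ))) l :=
    HasFDerivAt.comp l (cd_at hG _).hasFDerivAt h1
  rw [h2.fderiv]
  simp

lemma lin_mul (L : ℂ →L[ℝ] ℂ) (c : ℂ) :
    L (c * 1) - I * L (c * I) = c * (L 1 - I * L I) ∧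
      L (c * 1) + I * L (c * I) = (starRingEnd ℂ) c * (L 1 + I * L I) := by
  have h1 : c * 1 = c.re • (1 : ℂ) + c.im • I := by
    apply Complex.ext <;> simp
  have h2 : c * I = c.re • I - c.im • (1 : ℂ) := by
    apply Complex.ext <;> simp
  have h3 : L (c * 1) = c.re * L 1 + c.im * L I := by
    rw [h1, map_add, map_smul, map_smul]
    simp
  have h4 : L (c * I) = c.re * L I - c.im * L 1 := by
    rw [h2, map_sub, map_smul, map_smul]
    simp
  have h5 : c = c.re + c.im * I := (re_add_im c).symm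
  have h6 : (starRingEnd ℂ) c = c.re - c.im * I := by
    apply Complex.ext <;> simp
  rw [h3, h4, h6]
  constructor
  · nth_rw 5 [h5]
    linear_combination ((c.im : ℂ) * L I) * I_mul_I
  · linear_combination ((c.im : ℂ) * L I) * I_mul_I

lemma dz_affine {G : ℂ → ℂ} (hG : ContDiff ℝ ∞ G) (z c l : ℂ) :
    dz (fun l => G (z + c * l)) l = c * dz G (z + c * l) := by
  unfold dz
  rw [fderiv_affine hG, fderiv_affine hG, (lin_mul _ c).1]
  ring

lemma dzb_affine {G : ℂ → ℂ} (hG : ContDiff ℝ ∞ G) (z c l : ℂ) :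
    dzb (fun l => G (z + c * l)) l = (starRingEnd ℂ) c * dzb G (z + c * l) := by
  unfold dzb
  rw [fderiv_affine hG, fderiv_affine hG, (lin_mul _ c).2]
  ring

lemma fderiv_prod {r : ℕ} {f : Fin r → ℂ → ℂ} {l : ℂ} (hf : ∀ i, DifferentiableAt ℝ (f i) l)
    (v : ℂ) : fderiv ℝ (fun l => ∏ i, f i l) l v =
      ∑ i, fderiv ℝ (f i) l v * ∏ k ∈ Finset.univ.erase i, f k l := by
  have h1 := (HasFDerivAt.finsetProd (u := Finset.univ) fun i _ => (hf i).hasFDerivAt)
  rw [show (fun l => ∏ i, f i l) = (∏ i, f i ·) from rfl, h1.fderiv, _root_.sum_apply]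
  refine Finset.sum_congr rfl fun i _ => ?_
  rw [smul_apply, smul_eq_mul, mul_comm]

lemma diff_prod {r : ℕ} {f : Fin r → ℂ → ℂ} {l : ℂ} (hf : ∀ i, DifferentiableAt ℝ (f i) l) :
    DifferentiableAt ℝ (fun l => ∏ i, f i l) l :=
  (HasFDerivAt.finsetProd (u := Finset.univ) fun i _ => (hf i).hasFDerivAt).differentiableAt

lemma dz_prod {r : ℕ} {f : Fin r → ℂ → ℂ} {l : ℂ} (hf : ∀ i, DifferentiableAt ℝ (f i) l) :
    dz (fun l => ∏ i, f i l) l = ∑ i, dz (f i) l * ∏ k ∈ Finset.univ.erase i, f k l := by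
  unfold dz
  rw [fderiv_prod hf, fderiv_prod hf, Finset.mul_sum, ← Finset.sum_sub_distrib, Finset.mul_sum]
  exact Finset.sum_congr rfl fun i _ => by ring

lemma dzb_prod {r : ℕ} {f : Fin r → ℂ → ℂ} {l : ℂ} (hf : ∀ i, DifferentiableAt ℝ (f i) l) :
    dzb (fun l => ∏ i, f i l) l = ∑ i, dzb (f i) l * ∏ k ∈ Finset.univ.erase i, f k l := by
  unfold dzb
  rw [fderiv_prod hf, fderiv_prod hf, Finset.mul_sum, ← Finset.sum_add_distrib, Finset.mul_sum]
  exact Finset.sum_congr rfl fun i _ => by ring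

/-- the displaced points -/
def wp (σ : ℂ → ℝ) (h : ℕ → ℝ) {r : ℕ} (x : Fin r → ℂ) (n : ℕ) (l z : ℂ) (i : Fin r) : ℂ :=
  z + ((h n * Real.exp (-σ z) : ℝ) : ℂ) * (l * x i)

lemma wp_cont (hσ : ContDiff ℝ ∞ σ) {r : ℕ} (x : Fin r → ℂ) (n : ℕ) (l : ℂ) (i : Fin r) :
    Continuous fun z => wp σ h x n l z i := by
  unfold wp
  have h1 := hσ.continuous
  fun_prop

lemma diff_disp {G : ℂ → ℂ} (hG : ContDiff ℝ ∞ G) (z c x l : ℂ) :
    DifferentiableAt ℝ (fun l => G (z + c * (l * x))) l := by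
  have h1 : DifferentiableAt ℝ (fun l : ℂ => z + c * (l * x)) l := by fun_prop
  exact (cd_at hG (z + c * (l * x))).comp l h1

lemma dz_disp {G : ℂ → ℂ} (hG : ContDiff ℝ ∞ G) (z c x l : ℂ) :
    dz (fun l => G (z + c * (l * x))) l = c * x * dz G (z + c * (l * x)) := by
  have h1 := dz_affine hG z (c * x) l
  rw [show z + c * (l * x) = z + c * x * l by ring, ← h1]
  congr 1
  funext l
  rw [show z + c * (l * x) = z + c * x * l by ring]

lemma dzb_disp {G : ℂ → ℂ} (hG : ContDiff ℝ ∞ G) (z c x l : ℂ) :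
    dzb (fun l => G (z + c * (l * x))) l =
      (starRingEnd ℂ) (c * x) * dzb G (z + c * (l * x)) := by
  have h1 := dzb_affine hG z (c * x) l
  rw [show z + c * (l * x) = z + c * x * l by ring, ← h1]
  congr 1
  funext l
  rw [show z + c * (l * x) = z + c * x * l by ring]

lemma dz_point {r : ℕ} (x : Fin r → ℂ) (n : ℕ) (l z a : ℂ) {G : Fin r → ℂ → ℂ}
    (hG : ∀ i, ContDiff ℝ ∞ (G i)) :
    2 * dz (fun l => a * ∏ i, G i (wp σ h x n l z i)) l =
      a * ∑ i, x i * (((h n * Real.exp (-σ z) : ℝ) : ℂ) * (2 * dz (G i) (wp σ h x n l z i))) *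
        ∏ k ∈ Finset.univ.erase i, G k (wp σ h x n l z k) := by
  have hd : ∀ i, DifferentiableAt ℝ (fun l => G i (wp σ h x n l z i)) l := fun i =>
    diff_disp (hG i) z _ (x i) l
  have hp : DifferentiableAt ℝ (fun l => ∏ i, G i (wp σ h x n l z i)) l :=
    diff_prod hd
  rw [dz_const_mul a hp, dz_prod hd, Finset.mul_sum, Finset.mul_sum, Finset.mul_sum]
  refine Finset.sum_congr rfl fun i _ => ?_
  have h1 : dz (fun l => G i (wp σ h x n l z i)) l = ((h n * Real.exp (-σ z) : ℝ) : ℂ) * x i *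
      dz (G i) (wp σ h x n l z i) := dz_disp (hG i) z _ (x i) l
  rw [h1]
  ring

lemma dzb_point {r : ℕ} (x : Fin r → ℂ) (n : ℕ) (l z a : ℂ) {G : Fin r → ℂ → ℂ}
    (hG : ∀ i, ContDiff ℝ ∞ (G i)) :
    2 * dzb (fun l => a * ∏ i, G i (wp σ h x n l z i)) l =
      a * ∑ i, (starRingEnd ℂ) (x i) * (((h n * Real.exp (-σ z) : ℝ) : ℂ) *
        (2 * dzb (G i) (wp σ h x n l z i))) *
        ∏ k ∈ Finset.univ.erase i, G k (wp σ h x n l z k) := by
  have hd : ∀ i, DifferentiableAt ℝ (fun l => G i (wp σ h x n l z i)) l := fun i =>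
    diff_disp (hG i) z _ (x i) l
  have hp : DifferentiableAt ℝ (fun l => ∏ i, G i (wp σ h x n l z i)) l :=
    diff_prod hd
  rw [dzb_const_mul a hp, dzb_prod hd, Finset.mul_sum, Finset.mul_sum, Finset.mul_sum]
  refine Finset.sum_congr rfl fun i _ => ?_
  have h1 : dzb (fun l => G i (wp σ h x n l z i)) l =
      (starRingEnd ℂ) (((h n * Real.exp (-σ z) : ℝ) : ℂ) * x i) *
      dzb (G i) (wp σ h x n l z i) := dzb_disp (hG i) z _ (x i) l
  rw [h1, map_mul, conj_ofReal]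
  ring

/-! ### The estimate of the error -/

lemma bq_family {ι : Type} [Fintype ι] {u : ι → ℕ → ℂ → ℂ} (hu : ∀ i, Bq V h φ 1 (u i))
    {K : Set ℂ} (hK : IsCompact K) (hKV : K ⊆ V) : ∃ (N : ℕ) (C : ℝ), 1 ≤ C ∧
      ∀ᶠ n in atTop, ∀ i, ∀ z ∈ K, ‖u i n z‖ ^ 2 ≤ C * RR h φ N n z := by
  choose N C hC0 hC using fun i => (hu i).pos hK hKV
  refine ⟨Finset.univ.sup N, 1 + ∑ i, C i, ?_, ?_⟩
  · have : 0 ≤ ∑ i, C i := Finset.sum_nonneg fun i _ => (hC0 i).le
    linarith
  · rw [Filter.eventually_all]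
    intro i
    filter_upwards [hC i (Finset.univ.sup N) (Finset.le_sup (Finset.mem_univ i))] with n hn z hz
    have h1 := hn z hz
    rw [pow_one] at h1
    have h2 : C i ≤ 1 + ∑ i, C i := by
      have := Finset.single_le_sum (f := C) (fun i _ => (hC0 i).le) (Finset.mem_univ i)
      linarith
    refine h1.trans ?_
    exact mul_le_mul_of_nonneg_right h2 (RR_pos h φ _ n z).le

lemma expo (z : ℂ) (n : ℕ) :
    ((h n * Real.exp (-σ z) : ℝ) : ℂ) = (h n : ℂ) * ex σ (-1) z := by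
  unfold ex
  push_cast
  simp

lemma err (hD : StmtDspB) (L : LocB V σ h φ) {ζ : ℂ → ℂ} (hζ : Test V ζ) {r : ℕ} (hr : r ≤ 4)
    (x c : Fin r → ℂ) {Ef Gf Tf Bf : Fin r → ℕ → ℂ → ℂ} (hE : ∀ i, Dom V h φ 1 (Ef i))
    (hT : ∀ i, Dom V h φ 1 (Tf i)) (hB : ∀ i, Dom V h φ 1 (Bf i))
    (heq : ∀ i n, ∀ w ∈ V, (h n : ℂ) * (ex σ (-1) w * Gf i n w) = Tf i n w + (h n : ℂ) * Bf i n w)
    {ε : ℝ} (hε : 0 < ε) : ∀ᶠ n in atTop, ∀ l : ℂ, ‖l‖ ≤ 1 →
      ‖∫ z in tsupport ζ, ζ z * ∑ i, c i * (((h n * Real.exp (-σ z) : ℝ) : ℂ) *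
        Gf i n (wp σ h x n l z i) - Tf i n (wp σ h x n l z i)) *
        ∏ k ∈ Finset.univ.erase i, Ef k n (wp σ h x n l z k)‖ ≤ ε := by
  have hσ := L.sm
  set K := tsupport ζ with hKdef
  have hK : IsCompact K := hζ.supp
  have hKV : K ⊆ V := hζ.sub
  obtain ⟨δ, hδ, hδV⟩ := hK.exists_cthickening_subset_open L.op hKV
  set K' := Metric.cthickening δ K with hK'def
  have hK' : IsCompact K' := hK.cthickening
  have hexp : ContDiff ℝ ∞ fun w => Real.exp (σ w) := Real.contDiff_exp.comp hσ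
  obtain ⟨R₁, hR₁⟩ := hK.exists_bound_of_continuousOn
    (f := fun z => Real.exp (-σ z)) (by have := hσ.continuous; fun_prop)
  obtain ⟨M₁, hM₁⟩ := hK'.exists_bound_of_continuousOn
    (f := fderiv ℝ fun w => Real.exp (σ w)) (hexp.continuous_fderiv (by simp)).continuousOn
  obtain ⟨Z₁, hZ₁⟩ := hK.exists_bound_of_continuousOn (f := ζ) hζ.smooth.continuous.continuousOn
  set R₀ := max R₁ 0 with hR₀
  set M := max M₁ 0 with hM
  set Z := max Z₁ 0 with hZ
  have hR₀0 : 0 ≤ R₀ := le_max_right _ _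
  have hM0 : 0 ≤ M := le_max_right _ _
  have hZ0 : 0 ≤ Z := le_max_right _ _
  set X := ∑ i, ‖x i‖ with hX
  have hX0 : 0 ≤ X := Finset.sum_nonneg fun i _ => norm_nonneg _
  have hXi : ∀ i, ‖x i‖ ≤ X := fun i =>
    Finset.single_le_sum (f := fun i => ‖x i‖) (fun i _ => norm_nonneg _) (Finset.mem_univ i)
  set R := R₀ * X with hR
  have hR0 : 0 ≤ R := mul_nonneg hR₀0 hX0
  set Y := ∑ i, ‖c i‖ with hY
  have hY0 : 0 ≤ Y := Finset.sum_nonneg fun i _ => norm_nonneg _
  -- the family of dominated functions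
  set u : Fin 3 × Fin r → ℕ → ℂ → ℂ := fun p =>
    ![Ef p.2, fun n w => Tf p.2 n w + (h n : ℂ) * Bf p.2 n w, Bf p.2] p.1 with hu
  have hub : ∀ p, Bq V h φ 1 (u p) := by
    rintro ⟨k, i⟩
    fin_cases k
    · exact (hE i).bq
    · exact ((hT i).add L.op ((hB i).hmul L.op L.hlim)).bq
    · exact (hB i).bq
  obtain ⟨N, C, hC1, hC⟩ := bq_family hub hK' hδV
  obtain ⟨S, hS1, hSc, hSev, hSlim⟩ := hD V σ h φ L K hK hKV N R
  set b := Real.sqrt C with hb
  have hb1 : 1 ≤ b := Real.one_le_sqrt.mpr hC1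
  set Q := Z * (Y * ((M * R * R₀ + 1) * b * b ^ 3)) with hQ
  have hQ0 : 0 ≤ Q := by positivity
  have hlim : ∀ᶠ n in atTop, Q * (h n * ∫ z in K, S n z ^ 2) ≤ ε := by
    have h1 := (hSlim.const_mul Q).eventually (gt_mem_nhds (by rw [mul_zero]; exact hε))
    filter_upwards [h1] with n hn
    exact hn.le
  have hsmall : ∀ᶠ n in atTop, h n * R ≤ δ := by
    have h1 : Tendsto (fun n => h n * R) atTop (𝓝 0) := by simpa using L.hlim.mul_const R
    filter_upwards [h1.eventually (gt_mem_nhds hδ)] with n hn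
    exact hn.le
  filter_upwards [hC, hSev, hlim, hsmall] with n hCn hSn hln hsn l hl
  have hh := L.hpos n
  -- the pointwise bound
  have hpt : ∀ z ∈ K, ‖ζ z * ∑ i, c i * (((h n * Real.exp (-σ z) : ℝ) : ℂ) *
        Gf i n (wp σ h x n l z i) - Tf i n (wp σ h x n l z i)) *
        ∏ k ∈ Finset.univ.erase i, Ef k n (wp σ h x n l z k)‖ ≤ Q * (h n * S n z ^ 2) := by
    intro z hz
    set t := Real.sqrt (S n z) with ht
    have hS0 : 0 ≤ S n z := by linarith [hS1 n z]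
    have ht1 : 1 ≤ t := Real.one_le_sqrt.mpr (hS1 n z)
    have ht2 : t ^ 2 = S n z := Real.sq_sqrt hS0
    have hbt : 1 ≤ b * t := by nlinarith
    have hRz : Real.exp (-σ z) ≤ R₀ := by
      have h1 := hR₁ z hz
      rw [Real.norm_of_nonneg (Real.exp_pos _).le] at h1
      exact h1.trans (le_max_left _ _)
    -- displaced points
    have hy : ∀ i, ‖ex σ (-1) z * (l * x i)‖ ≤ R := by
      intro i
      rw [norm_mul, norm_mul, norm_ex]
      have h1 : Real.exp (((-1 : ℤ) : ℝ) * σ z) ≤ R₀ := by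
        rw [show ((-1 : ℤ) : ℝ) * σ z = -σ z by push_cast; ring]
        exact hRz
      calc Real.exp (((-1 : ℤ) : ℝ) * σ z) * (‖l‖ * ‖x i‖) ≤ R₀ * (1 * X) := by
            gcongr
            exact hXi i
        _ = R := by rw [one_mul]
    have hw : ∀ i, wp σ h x n l z i = z + (h n : ℂ) * (ex σ (-1) z * (l * x i)) := by
      intro i
      unfold wp
      rw [expo, mul_assoc]
    have hdist : ∀ i, ‖wp σ h x n l z i - z‖ ≤ h n * R := by
      intro i
      rw [hw, add_sub_cancel_left, norm_mul, Complex.norm_real, Real.norm_of_nonneg hh.le]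
      exact mul_le_mul_of_nonneg_left (hy i) hh.le
    have hwK' : ∀ i, wp σ h x n l z i ∈ K' := fun i =>
      Metric.mem_cthickening_of_dist_le _ z δ K hz (by
        rw [dist_eq_norm]
        exact (hdist i).trans hsn)
    have hwV : ∀ i, wp σ h x n l z i ∈ V := fun i => hδV (hwK' i)
    have hwS : ∀ i, RR h φ N n (wp σ h x n l z i) ≤ S n z := by
      intro i
      rw [hw]
      exact (hSn z hz _ (hy i)).2
    have hub' : ∀ p : Fin 3 × Fin r, ∀ i, ‖u p n (wp σ h x n l z i)‖ ≤ b * t := by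
      intro p i
      have h1 := hCn p _ (hwK' i)
      have h2 : ‖u p n (wp σ h x n l z i)‖ ^ 2 ≤ C * S n z :=
        h1.trans (mul_le_mul_of_nonneg_left (hwS i) (by linarith))
      rw [hb, ht, ← Real.sqrt_mul (by linarith)]
      exact Real.le_sqrt_of_sq_le h2
    have hEb : ∀ i k, ‖Ef k n (wp σ h x n l z i)‖ ≤ b * t := fun i k => hub' (0, k) i
    have hGb : ∀ i, ‖Tf i n (wp σ h x n l z i) + (h n : ℂ) * Bf i n (wp σ h x n l z i)‖ ≤ b * t :=
      fun i => hub' (1, i) i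
    have hBb : ∀ i, ‖Bf i n (wp σ h x n l z i)‖ ≤ b * t := fun i => hub' (2, i) i
    -- the factor
    have hq : ∀ i, ‖ex σ 1 (wp σ h x n l z i) * ex σ (-1) z - 1‖ ≤ M * (h n * R) * R₀ := by
      intro i
      set w := wp σ h x n l z i with hwi
      have h1 : ex σ 1 w * ex σ (-1) z - 1 = (ex σ 1 w - ex σ 1 z) * ex σ (-1) z := by
        rw [sub_mul, ex_mul σ 1 (-1) z, show (1 : ℤ) + -1 = 0 by norm_num, ex_zero]
      have h2 : ex σ 1 w - ex σ 1 z = ((Real.exp (σ w) - Real.exp (σ z) : ℝ) : ℂ) := by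
        unfold ex
        push_cast
        simp
      have h3 : |Real.exp (σ w) - Real.exp (σ z)| ≤ M * ‖w - z‖ := by
        have h4 := (convex_closedBall z δ).norm_image_sub_le_of_norm_fderiv_le
          (f := fun w => Real.exp (σ w)) (𝕜 := ℝ) (C := M)
          (fun v _ => (hexp.differentiable (by simp)) v)
          (fun v hv => (hM₁ v (Metric.mem_cthickening_of_dist_le v z δ K hz
            (Metric.mem_closedBall.mp hv))).trans (le_max_left _ _))
          (Metric.mem_closedBall_self hδ.le) (y := w) (by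
            rw [mem_closedBall_iff_norm]
            exact (hdist i).trans hsn)
        exact h4
      rw [h1, h2, norm_mul, Complex.norm_real, Real.norm_eq_abs, norm_ex,
        show ((-1 : ℤ) : ℝ) * σ z = -σ z by push_cast; ring]
      have h5 := hdist i
      calc |Real.exp (σ w) - Real.exp (σ z)| * Real.exp (-σ z)
          ≤ (M * ‖w - z‖) * R₀ := by gcongr
        _ ≤ M * (h n * R) * R₀ := by gcongr
    have he : ∀ i, ‖((h n * Real.exp (-σ z) : ℝ) : ℂ) * Gf i n (wp σ h x n l z i)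
        - Tf i n (wp σ h x n l z i)‖ ≤ h n * ((M * R * R₀ + 1) * (b * t)) := by
      intro i
      set w := wp σ h x n l z i with hwi
      have h1 := heq i n w (hwV i)
      have h2 : ex σ 1 w * ex σ (-1) w = 1 := by
        rw [ex_mul, show (1 : ℤ) + -1 = 0 by norm_num, ex_zero]
      have h3 : ((h n * Real.exp (-σ z) : ℝ) : ℂ) * Gf i n w - Tf i n w =
          (ex σ 1 w * ex σ (-1) z - 1) * (Tf i n w + (h n : ℂ) * Bf i n w)
            + (h n : ℂ) * Bf i n w := by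
        rw [expo, ← h1]
        linear_combination (-((h n : ℂ) * Gf i n w * ex σ (-1) z)) * h2 + h1
      rw [h3]
      refine (norm_add_le _ _).trans ?_
      rw [norm_mul, norm_mul, Complex.norm_real, Real.norm_of_nonneg hh.le]
      have h4 := hq i
      have h5 := hGb i
      have h6 := hBb i
      calc ‖ex σ 1 w * ex σ (-1) z - 1‖ * ‖Tf i n w + (h n : ℂ) * Bf i n w‖ + h n * ‖Bf i n w‖
          ≤ (M * (h n * R) * R₀) * (b * t) + h n * (b * t) := by gcongr
        _ = h n * ((M * R * R₀ + 1) * (b * t)) := by ring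
    have hprod : ∀ i : Fin r, ‖∏ k ∈ Finset.univ.erase i, Ef k n (wp σ h x n l z k)‖ ≤
        (b * t) ^ 3 := by
      intro i
      rw [norm_prod]
      calc ∏ k ∈ Finset.univ.erase i, ‖Ef k n (wp σ h x n l z k)‖
          ≤ ∏ k ∈ Finset.univ.erase i, (b * t) :=
            Finset.prod_le_prod (fun k _ => norm_nonneg _) fun k _ => hEb k k
        _ = (b * t) ^ (r - 1) := by
            rw [Finset.prod_const, Finset.card_erase_of_mem (Finset.mem_univ i), Finset.card_univ,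
              Fintype.card_fin]
        _ ≤ (b * t) ^ 3 := pow_le_pow_right₀ hbt (by omega)
    rw [norm_mul]
    have hsum : ‖∑ i, c i * (((h n * Real.exp (-σ z) : ℝ) : ℂ) *
        Gf i n (wp σ h x n l z i) - Tf i n (wp σ h x n l z i)) *
        ∏ k ∈ Finset.univ.erase i, Ef k n (wp σ h x n l z k)‖ ≤
        ∑ i, ‖c i‖ * (h n * ((M * R * R₀ + 1) * (b * t)) * (b * t) ^ 3) := by
      refine (norm_sum_le _ _).trans (Finset.sum_le_sum fun i _ => ?_)
      rw [norm_mul, norm_mul, mul_assoc]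
      have h1 := he i
      have h2 := hprod i
      gcongr
    rw [← Finset.sum_mul] at hsum
    have hZz : ‖ζ z‖ ≤ Z := (hZ₁ z hz).trans (le_max_left _ _)
    calc ‖ζ z‖ * ‖∑ i, c i * (((h n * Real.exp (-σ z) : ℝ) : ℂ) *
        Gf i n (wp σ h x n l z i) - Tf i n (wp σ h x n l z i)) *
        ∏ k ∈ Finset.univ.erase i, Ef k n (wp σ h x n l z k)‖
        ≤ Z * (Y * (h n * ((M * R * R₀ + 1) * (b * t)) * (b * t) ^ 3)) := by gcongr
      _ = Q * (h n * (t ^ 2) ^ 2) := by rw [hQ]; ring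
      _ = Q * (h n * S n z ^ 2) := by rw [ht2]
  -- integration
  have hint : IntegrableOn (fun z => Q * (h n * S n z ^ 2)) K :=
    ((continuous_const.mul (continuous_const.mul ((hSc n).pow 2))).continuousOn).integrableOn_compact
      hK
  have h1 := norm_integral_le_of_norm_le hint ((ae_restrict_iff' hK.measurableSet).mpr
    (ae_of_all _ hpt))
  refine h1.trans ?_
  rw [integral_const_mul, integral_const_mul]
  exact hln

lemma prod_add {r : ℕ} (f : ℤ → Fin r → ℂ) (j : Fin r → ℤ) (i : Fin r) :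
    ∏ k, f ((j + Pi.single i 1 : Fin r → ℤ) k) k = f (j i + 1) i * ∏ k ∈ Finset.univ.erase i, f (j k) k := by
  rw [← Finset.mul_prod_erase Finset.univ _ (Finset.mem_univ i)]
  congr 1
  · simp
  · refine Finset.prod_congr rfl fun k hk => ?_
    simp [Pi.single_eq_of_ne (Finset.ne_of_mem_erase hk)]

lemma prod_sub {r : ℕ} (f : ℤ → Fin r → ℂ) (j : Fin r → ℤ) (i : Fin r) :
    ∏ k, f ((j - Pi.single i 1 : Fin r → ℤ) k) k = f (j i - 1) i * ∏ k ∈ Finset.univ.erase i, f (j k) k := by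
  rw [← Finset.mul_prod_erase Finset.univ _ (Finset.mem_univ i)]
  congr 1
  · simp
  · refine Finset.prod_congr rfl fun k hk => ?_
    simp [Pi.single_eq_of_ne (Finset.ne_of_mem_erase hk)]

lemma joint {ζ : ℂ → ℂ} (hσ : ContDiff ℝ ∞ σ) (hζ : ContDiff ℝ ∞ ζ) {r : ℕ} (x : Fin r → ℂ)
    (n : ℕ) {G : Fin r → ℂ → ℂ} (hG : ∀ i, ContDiff ℝ ∞ (G i)) :
    ContDiff ℝ ∞ (Function.uncurry fun l z : ℂ => ζ z * ∏ i, G i (wp σ h x n l z i)) := by
  refine (hζ.comp contDiff_snd).mul (contDiff_prod fun i _ => (hG i).comp ?_)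
  have h1 : ContDiff ℝ ∞ fun q : ℂ × ℂ => ((h n * Real.exp (-σ q.2) : ℝ) : ℂ) :=
    ofRealCLM.contDiff.comp (contDiff_const.mul
      (Real.contDiff_exp.comp (hσ.comp contDiff_snd).neg))
  exact contDiff_snd.add (h1.mul (contDiff_fst.mul contDiff_const))

end DER

open _root_.U3.DER in
theorem stmtDerB (hDsp : StmtDspB) (hJetA : StmtJetC) : StmtDerB := by
  intro V σ h φ L ζ hζ r x j hr
  have hσ := L.sm
  have hE : ∀ m, Dom V h φ 1 (E σ h φ m) := fun m => (hJetA V σ h φ L m).1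
  have hK : IsCompact (tsupport ζ) := hζ.supp
  have hFs : ∀ (j : Fin r → ℤ) (n : ℕ), ContDiff ℝ ∞ (Function.uncurry fun l z : ℂ =>
      ζ z * ∏ i, E σ h φ (j i) n (wp σ h x n l z i)) := fun j n =>
    joint hσ hζ.smooth x n fun i => (hE (j i)).smooth n
  have hA : ∀ (j : Fin r → ℤ) (n : ℕ), Aj σ h φ ζ x j n = fun l =>
      ∫ z in tsupport ζ, ζ z * ∏ i, E σ h φ (j i) n (wp σ h x n l z i) := by
    intro j n
    funext l
    unfold Aj wp
    refine (setIntegral_eq_integral_of_forall_compl_eq_zero fun z hz => ?_).symm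
    rw [image_eq_zero_of_notMem_tsupport hz, zero_mul]
  have hFc : ∀ (j : Fin r → ℤ) (n : ℕ) (l : ℂ), Continuous fun z =>
      ζ z * ∏ i, E σ h φ (j i) n (wp σ h x n l z i) := fun j n l =>
    (hFs j n).continuous.comp (by fun_prop : Continuous fun z : ℂ => (l, z))
  refine ⟨fun n => ?_, fun ε hε => ?_⟩
  · rw [hA]
    exact contDiff_param (hFs j n) hK
  have hup : ∀ i, ∃ A, Dom V h φ 1 A ∧ ∀ n, ∀ z ∈ V, (h n : ℂ) * D σ (j i) (E σ h φ (j i) n) z =
      E σ h φ (j i + 1) n z + (h n : ℂ) ^ 2 * A n z := fun i => (hJetA V σ h φ L (j i)).2.1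
  have hdn : ∀ i, ∃ A, Dom V h φ 1 A ∧ ∀ n, ∀ z ∈ V, (h n : ℂ) * Db σ (j i) (E σ h φ (j i) n) z =
      - E σ h φ (j i - 1) n z + (h n : ℂ) ^ 2 * A n z := fun i => (hJetA V σ h φ L (j i)).2.2
  choose Ap hAp hp using hup
  choose Am hAm hm using hdn
  have hs := contDiff_sig hσ
  have e1 := err hDsp L hζ hr x x (Ef := fun i => E σ h φ (j i))
    (Gf := fun i n w => 2 * dz (E σ h φ (j i) n) w) (Tf := fun i => E σ h φ (j i + 1))
    (Bf := fun i n w => (h n : ℂ) * Ap i n w +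
      (2 * (j i : ℂ) * (ex σ (-1) w * dz (fun w => (σ w : ℂ)) w)) * E σ h φ (j i) n w)
    (fun i => hE _) (fun i => hE _)
    (fun i => ((hAp i).hmul L.op L.hlim).add L.op ((hE (j i)).fn_mul L.op L.hlim
      (contDiff_const.mul ((contDiff_ex hσ (-1)).mul (contDiff_dz hs)))))
    (fun i n w hw => by
      have h1 := hp i n w hw
      rw [D_eq hσ (j i) (cd_at ((hE (j i)).smooth n) w)] at h1
      linear_combination h1) hε
  have e2 := err hDsp L hζ hr x (fun i => (starRingEnd ℂ) (x i)) (Ef := fun i => E σ h φ (j i))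
    (Gf := fun i n w => 2 * dzb (E σ h φ (j i) n) w)
    (Tf := fun i n w => - E σ h φ (j i - 1) n w)
    (Bf := fun i n w => (h n : ℂ) * Am i n w +
      (-2 * (j i : ℂ) * (ex σ (-1) w * dzb (fun w => (σ w : ℂ)) w)) * E σ h φ (j i) n w)
    (fun i => hE _) (fun i => (hE _).neg L.op)
    (fun i => ((hAm i).hmul L.op L.hlim).add L.op ((hE (j i)).fn_mul L.op L.hlim
      (contDiff_const.mul ((contDiff_ex hσ (-1)).mul (contDiff_dzb hs)))))
    (fun i n w hw => by
      have h1 := hm i n w hw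
      rw [Db_eq hσ (j i) (cd_at ((hE (j i)).smooth n) w)] at h1
      linear_combination h1) hε
  filter_upwards [e1, e2] with n h1 h2 l hl
  have hGs : ∀ i, ContDiff ℝ ∞ (E σ h φ (j i) n) := fun i => (hE (j i)).smooth n
  have hi : ∀ (j : Fin r → ℤ) (c : ℂ), IntegrableOn (fun z => c *
      (ζ z * ∏ i, E σ h φ (j i) n (wp σ h x n l z i))) (tsupport ζ) := fun j c =>
    (continuous_const.mul (hFc j n l)).continuousOn.integrableOn_compact hK
  refine ⟨?_, ?_⟩
  · have hd : IntegrableOn (fun z => 2 * dz (fun l => ζ z *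
        ∏ i, E σ h φ (j i) n (wp σ h x n l z i)) l) (tsupport ζ) := by
      refine Continuous.continuousOn ?_ |>.integrableOn_compact hK
      unfold dz
      exact continuous_const.mul (continuous_const.mul ((fderiv_cont (hFs j n) l 1).sub
        (continuous_const.mul (fderiv_cont (hFs j n) l I))))
    have h3 : 2 * dz (Aj σ h φ ζ x j n) l - ∑ i, x i * Aj σ h φ ζ x (j + Pi.single i 1) n l =
        ∫ z in tsupport ζ, ζ z * ∑ i, x i * (((h n * Real.exp (-σ z) : ℝ) : ℂ) *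
          (2 * dz (E σ h φ (j i) n) (wp σ h x n l z i)) -
            E σ h φ (j i + 1) n (wp σ h x n l z i)) *
          ∏ k ∈ Finset.univ.erase i, E σ h φ (j k) n (wp σ h x n l z k) := by
      rw [hA j n, dz_param (hFs j n) hK, ← integral_const_mul]
      simp only [hA]
      simp_rw [← integral_const_mul]
      rw [← integral_finsetSum _ fun i _ => hi _ _, ← integral_sub hd
        (integrable_finsetSum _ fun i _ => hi _ _)]
      refine integral_congr_ae (ae_of_all _ fun z => ?_)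
      simp only []
      rw [dz_point x n l z (ζ z) hGs, Finset.mul_sum, Finset.mul_sum, ← Finset.sum_sub_distrib]
      refine Finset.sum_congr rfl fun i _ => ?_
      rw [prod_add (fun m k => E σ h φ m n (wp σ h x n l z k)) j i]
      ring
    rw [h3]
    exact h1 l hl
  · have hd : IntegrableOn (fun z => 2 * dzb (fun l => ζ z *
        ∏ i, E σ h φ (j i) n (wp σ h x n l z i)) l) (tsupport ζ) := by
      refine Continuous.continuousOn ?_ |>.integrableOn_compact hK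
      unfold dzb
      exact continuous_const.mul (continuous_const.mul ((fderiv_cont (hFs j n) l 1).add
        (continuous_const.mul (fderiv_cont (hFs j n) l I))))
    have h3 : 2 * dzb (Aj σ h φ ζ x j n) l +
        ∑ i, (starRingEnd ℂ) (x i) * Aj σ h φ ζ x (j - Pi.single i 1) n l =
        ∫ z in tsupport ζ, ζ z * ∑ i, (starRingEnd ℂ) (x i) *
          (((h n * Real.exp (-σ z) : ℝ) : ℂ) *
          (2 * dzb (E σ h φ (j i) n) (wp σ h x n l z i)) -
            (- E σ h φ (j i - 1) n (wp σ h x n l z i))) *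
          ∏ k ∈ Finset.univ.erase i, E σ h φ (j k) n (wp σ h x n l z k) := by
      rw [hA j n, dzb_param (hFs j n) hK, ← integral_const_mul]
      simp only [hA]
      simp_rw [← integral_const_mul]
      rw [← integral_finsetSum _ fun i _ => hi _ _, ← integral_add hd
        (integrable_finsetSum _ fun i _ => hi _ _)]
      refine integral_congr_ae (ae_of_all _ fun z => ?_)
      simp only []
      rw [dzb_point x n l z (ζ z) hGs, Finset.mul_sum, Finset.mul_sum, ← Finset.sum_add_distrib]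
      refine Finset.sum_congr rfl fun i _ => ?_
      rw [prod_sub (fun m k => E σ h φ m n (wp σ h x n l z k)) j i]
      ring
    rw [h3]
    exact h2 l hl

end

end U3


end

section

/-!
Cubic statistics at distinct points: the translation relations (REL).
-/

open MeasureTheory Filter Topology Set
open scoped ContDiff

namespace U3

open QJ QE

noncomputable section

namespace REL

variable {V : Set ℂ} {σ : ℂ → ℝ} {h : ℕ → ℝ} {φ : ℕ → ℂ → ℂ}

/-! ### Conjugation -/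

lemma conj_E (L : LocB V σ h φ) (j : ℤ) (n : ℕ) (z : ℂ) :
    (starRingEnd ℂ) (E σ h φ j n z) = (-1) ^ j * E σ h φ (-j) n z := by
  obtain ⟨m, rfl | rfl⟩ := j.eq_nat_or_neg
  · rw [JETA.E_nat, U3.JETA.E_neg L m, zpow_natCast, ← mul_assoc, ← mul_pow]
    norm_num
  · rw [U3.JETA.E_neg L m, neg_neg, JETA.E_nat, zpow_neg, zpow_natCast]
    simp only [map_mul, map_pow, map_neg, map_one, Complex.conj_conj]
    rw [← inv_pow]
    norm_num

/-! ### The chain rule -/

lemma fderiv_eq (f : ℂ → ℂ) (p u : ℂ) :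
    fderiv ℝ f p u = dz f p * u + dzb f p * (starRingEnd ℂ) u := by
  have h1 : u = (u.re : ℝ) • (1 : ℂ) + (u.im : ℝ) • Complex.I := by
    apply Complex.ext <;> simp
  have h2 : fderiv ℝ f p u = u.re • fderiv ℝ f p 1 + u.im • fderiv ℝ f p Complex.I := by
    conv_lhs => rw [h1]
    rw [map_add, map_smul, map_smul]
  rw [h2]
  have h3 : u = (u.re : ℂ) + (u.im : ℂ) * Complex.I := (Complex.re_add_im u).symm
  have h4 : (starRingEnd ℂ) u = (u.re : ℂ) - (u.im : ℂ) * Complex.I := by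
    apply Complex.ext <;> simp
  rw [h4]
  nth_rewrite 3 [h3]
  unfold dz dzb
  simp only [Complex.real_smul]
  linear_combination ((u.im : ℂ) * fderiv ℝ f p Complex.I) * Complex.I_sq

lemma dz_comp_disp {f η : ℂ → ℂ} (hf : ContDiff ℝ ∞ f) (hη : ContDiff ℝ ∞ η)
    (hr : ∀ z, (starRingEnd ℂ) (η z) = η z) (y z : ℂ) :
    dz (fun w => f (w + η w * y)) z =
      dz f (z + η z * y) * (1 + dz η z * y) +
        dzb f (z + η z * y) * (dz η z * (starRingEnd ℂ) y) := by
  have hd : HasFDerivAt (fun w => w + η w * y)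
      (ContinuousLinearMap.id ℝ ℂ + (fderiv ℝ η z).smulRight y) z := by
    have h1 := (hasFDerivAt_id (𝕜 := ℝ) z).add ((cd_at hη z).hasFDerivAt.smul_const y)
    exact h1
  have hc : HasFDerivAt (fun w => f (w + η w * y))
      ((fderiv ℝ f (z + η z * y)).comp
        (ContinuousLinearMap.id ℝ ℂ + (fderiv ℝ η z).smulRight y)) z :=
    HasFDerivAt.comp z (cd_at hf (z + η z * y)).hasFDerivAt hd
  have hv : ∀ v : ℂ, fderiv ℝ (fun w => f (w + η w * y)) z v =
      dz f (z + η z * y) * (v + fderiv ℝ η z v * y) +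
        dzb f (z + η z * y) * ((starRingEnd ℂ) v + fderiv ℝ η z v * (starRingEnd ℂ) y) := by
    intro v
    rw [hc.fderiv]
    have h1 : ((fderiv ℝ f (z + η z * y)).comp
        (ContinuousLinearMap.id ℝ ℂ + (fderiv ℝ η z).smulRight y)) v =
        fderiv ℝ f (z + η z * y) (v + fderiv ℝ η z v * y) := rfl
    rw [h1, fderiv_eq]
    have h2 : (starRingEnd ℂ) (fderiv ℝ η z v) = fderiv ℝ η z v := by
      have h3 := fderiv_conj (cd_at hη z) v
      have h4 : (fun w => (starRingEnd ℂ) (η w)) = η := funext hr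
      rw [h4] at h3
      exact h3.symm
    rw [map_add, map_mul, h2]
  have e1 : dz (fun w => f (w + η w * y)) z = (1 / 2) *
      (fderiv ℝ (fun w => f (w + η w * y)) z 1 -
        Complex.I * fderiv ℝ (fun w => f (w + η w * y)) z Complex.I) := rfl
  rw [e1, hv, hv]
  have e2 : dz η z = (1 / 2) * (fderiv ℝ η z 1 - Complex.I * fderiv ℝ η z Complex.I) := rfl
  rw [e2, map_one (starRingEnd ℂ), Complex.conj_I]
  linear_combination (-(1 / 2) * dz f (z + η z * y) + (1 / 2) * dzb f (z + η z * y)) *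
    Complex.I_sq

/-! ### The derivative of a displaced jet -/

lemma Aj_fun (σ : ℂ → ℝ) (h : ℕ → ℝ) (n : ℕ) (z : ℂ) :
    ((h n * Real.exp (-σ z) : ℝ) : ℂ) = (h n : ℂ) * ex σ (-1) z := by
  unfold ex
  push_cast
  ring_nf

lemma dz_sm (hσ : ContDiff ℝ ∞ σ) (c z : ℂ) :
    dz (fun w => c * ex σ (-1) w) z =
      -(c * (dz (fun w => (σ w : ℂ)) z * ex σ (-1) z)) := by
  rw [dz_const_mul c (cd_at (contDiff_ex hσ _) z), dz_ex hσ]
  push_cast
  ring

/-- the displaced point -/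
def dp (σ : ℂ → ℝ) (h : ℕ → ℝ) (n : ℕ) (y z : ℂ) : ℂ := z + (h n : ℂ) * ex σ (-1) z * y

lemma contDiff_dp (hσ : ContDiff ℝ ∞ σ) (n : ℕ) (y : ℂ) : ContDiff ℝ ∞ (dp σ h n y) :=
  contDiff_id.add ((contDiff_const.mul (contDiff_ex hσ _)).mul contDiff_const)

/-- the coefficient of the derivative of the jet coming from the connection -/
def Bc (σ : ℂ → ℝ) (h : ℕ → ℝ) (φ : ℕ → ℂ → ℂ) (j : ℤ) (n : ℕ) (z : ℂ) : ℂ :=
  2 * j * ex σ (-1) z * dz (fun w => (σ w : ℂ)) z * E σ h φ j n z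

lemma step (hσ : ContDiff ℝ ∞ σ) {j : ℤ} {n : ℕ} {a : ℂ} (hE : ContDiff ℝ ∞ (E σ h φ j n))
    (y z : ℂ)
    (hA : (h n : ℂ) * D σ j (E σ h φ j n) (dp σ h n y z) =
      E σ h φ (j + 1) n (dp σ h n y z) + (h n : ℂ) ^ 2 * a) :
    2 * (h n : ℂ) * ex σ (-1) z * dz (fun w => E σ h φ j n (dp σ h n y w)) z =
      E σ h φ (j + 1) n (dp σ h n y z) + ((h n : ℂ) ^ 2 * a +
        (h n : ℂ) * Bc σ h φ j n (dp σ h n y z) +
        2 * (ex σ (-1) z - ex σ (-1) (dp σ h n y z)) *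
          ((h n : ℂ) * dz (E σ h φ j n) (dp σ h n y z)) -
        2 * (h n : ℂ) * (ex σ (-1) z * ex σ (-1) z * dz (fun w => (σ w : ℂ)) z) *
          (y * ((h n : ℂ) * dz (E σ h φ j n) (dp σ h n y z)) +
            (starRingEnd ℂ) y * ((h n : ℂ) * dzb (E σ h φ j n) (dp σ h n y z)))) := by
  have h1 := dz_comp_disp hE (η := fun w => (h n : ℂ) * ex σ (-1) w)
    (contDiff_const.mul (contDiff_ex hσ _))
    (fun w => by simp only [map_mul, Complex.conj_ofReal, conj_ex]) y z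
  rw [dz_sm hσ] at h1
  have h2 : (fun w => E σ h φ j n (dp σ h n y w)) =
      fun w => E σ h φ j n (w + (h n : ℂ) * ex σ (-1) w * y) := rfl
  rw [h2, h1]
  rw [D_eq hσ j (cd_at hE _)] at hA
  unfold Bc dp at *
  linear_combination hA

/-! ### Domination of the displaced functions -/

lemma disp (hDsp : StmtDspB) (L : LocB V σ h φ) {K : Set ℂ} (hK : IsCompact K) (hKV : K ⊆ V)
    (R : ℝ) {ι : Type} (s : Finset ι) (u : ι → ℕ → ℂ → ℂ) (hu : ∀ i ∈ s, Bq V h φ 1 (u i)) :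
    ∃ (S : ℕ → ℂ → ℝ) (c : ℝ), 0 ≤ c ∧ (∀ n z, 1 ≤ S n z) ∧ (∀ n, Continuous (S n)) ∧
      (∀ᶠ n in atTop, ∀ z ∈ K, ∀ y : ℂ, ‖y‖ ≤ R → z + h n * y ∈ V ∧
        ∀ i ∈ s, ‖u i n (z + h n * y)‖ ≤ c * √(S n z)) ∧
      Tendsto (fun n => h n * ∫ z in K, S n z ^ 2) atTop (𝓝 0) := by
  obtain ⟨δ, hδ, hδV⟩ := hK.exists_cthickening_subset_open L.op hKV
  have hK' : IsCompact (Metric.cthickening δ K) := hK.cthickening
  choose! N C hC0 hC using fun i (hi : i ∈ s) => (hu i hi).pos hK' hδV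
  obtain ⟨S, hS1, hSc, hS, hlim⟩ := hDsp V σ h φ L K hK hKV (s.sup N) R
  have hCs : ∀ i ∈ s, C i ≤ ∑ k ∈ s, C k := fun i hi =>
    Finset.single_le_sum (f := C) (fun k hk => (hC0 k hk).le) hi
  have hC0' : 0 ≤ ∑ k ∈ s, C k := Finset.sum_nonneg fun k hk => (hC0 k hk).le
  refine ⟨S, √(∑ k ∈ s, C k), Real.sqrt_nonneg _, hS1, hSc, ?_, hlim⟩
  have e1 : ∀ᶠ n in atTop, ∀ i ∈ s, ∀ z ∈ Metric.cthickening δ K,
      ‖u i n z‖ ^ 2 ≤ C i * RR h φ (s.sup N) n z ^ 1 := by
    rw [Filter.eventually_all_finset]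
    intro i hi
    exact hC i hi _ (Finset.le_sup hi)
  have e2 : ∀ᶠ n in atTop, h n * |R| < δ := by
    have h1 : Tendsto (fun n => h n * |R|) atTop (𝓝 (0 * |R|)) := L.hlim.mul_const _
    rw [zero_mul] at h1
    exact h1.eventually (gt_mem_nhds hδ)
  filter_upwards [hS, e1, e2] with n h1 h2 h3 z hz y hy
  obtain ⟨h4, h5⟩ := h1 z hz y hy
  refine ⟨h4, fun i hi => ?_⟩
  have hmem : z + h n * y ∈ Metric.cthickening δ K := by
    refine Metric.mem_cthickening_of_dist_le _ z δ K hz ?_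
    rw [dist_eq_norm, add_sub_cancel_left, norm_mul, Complex.norm_real,
      Real.norm_of_nonneg (L.hpos n).le]
    have : h n * ‖y‖ ≤ h n * |R| :=
      mul_le_mul_of_nonneg_left (hy.trans (le_abs_self R)) (L.hpos n).le
    linarith
  have h6 := h2 i hi _ hmem
  rw [pow_one] at h6
  have h7 : ‖u i n (z + h n * y)‖ ^ 2 ≤ (∑ k ∈ s, C k) * S n z := by
    refine h6.trans ?_
    exact mul_le_mul (hCs i hi) h5 (RR_pos h φ _ n _).le hC0'
  rw [← Real.sqrt_mul hC0']
  exact Real.le_sqrt_of_sq_le h7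

lemma lip_ex (hσ : ContDiff ℝ ∞ σ) {K : Set ℂ} (hK : IsCompact K) (R : ℝ) :
    ∃ Λ : ℝ, 0 ≤ Λ ∧ ∀ z ∈ K, ∀ v : ℂ, ‖v‖ ≤ R →
      ‖ex σ (-1) z - ex σ (-1) (z + v)‖ ≤ Λ * ‖v‖ := by
  obtain ⟨ρ, hρ⟩ := hK.isBounded.subset_closedBall (0 : ℂ)
  have hcc : IsCompact (Metric.closedBall (0 : ℂ) (ρ + |R|)) := isCompact_closedBall _ _
  have hcont : Continuous (fderiv ℝ (ex σ (-1))) :=
    (contDiff_ex hσ (-1)).continuous_fderiv (by simp)
  obtain ⟨Λ, hΛ⟩ := hcc.exists_bound_of_continuousOn hcont.continuousOn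
  refine ⟨max Λ 0, le_max_right _ _, fun z hz v hv => ?_⟩
  have hz1 : ‖z‖ ≤ ρ := by simpa using hρ hz
  have hz2 : z ∈ Metric.closedBall (0 : ℂ) (ρ + |R|) := by
    rw [mem_closedBall_zero_iff]
    have := abs_nonneg R
    linarith
  have hz3 : z + v ∈ Metric.closedBall (0 : ℂ) (ρ + |R|) := by
    rw [mem_closedBall_zero_iff]
    have := norm_add_le z v
    have := le_abs_self R
    linarith
  have h1 := (convex_closedBall (0 : ℂ) (ρ + |R|)).norm_image_sub_le_of_norm_fderiv_le (𝕜 := ℝ)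
    (f := ex σ (-1)) (C := max Λ 0) (fun x _ => cd_at (contDiff_ex hσ _) x)
    (fun x hx => (hΛ x hx).trans (le_max_left _ _)) hz3 hz2
  rw [sub_add_cancel_left, norm_neg] at h1
  exact h1

/-! ### The pointwise estimate -/

lemma dz_prod {r : ℕ} (G : Fin r → ℂ → ℂ) (hG : ∀ k, ContDiff ℝ ∞ (G k)) (z : ℂ) :
    dz (fun w => ∏ k, G k w) z = ∑ i, dz (G i) z * ∏ k ∈ Finset.univ.erase i, G k z := by
  have h1 := HasFDerivAt.finsetProd (u := Finset.univ) (g := G)
    (g' := fun i => fderiv ℝ (G i) z) (x := z) (fun i _ => (cd_at (hG i) z).hasFDerivAt)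
  have h2 : dz (fun w => ∏ k, G k w) z = (1 / 2) * (fderiv ℝ (fun w => ∏ k, G k w) z 1 -
      Complex.I * fderiv ℝ (fun w => ∏ k, G k w) z Complex.I) := rfl
  rw [h2, h1.fderiv]
  simp only [sum_apply, smul_apply, smul_eq_mul]
  rw [Finset.mul_sum, ← Finset.sum_sub_distrib, Finset.mul_sum]
  refine Finset.sum_congr rfl fun i _ => ?_
  unfold dz
  ring

lemma step_le (hσ : ContDiff ℝ ∞ σ) {j : ℤ} {n : ℕ} {a : ℂ} (hE : ContDiff ℝ ∞ (E σ h φ j n))
    {y z : ℂ} {b M P X Λ : ℝ} (_hb : 0 ≤ b) (hM : 0 ≤ M) (hP : 0 ≤ P) (hX : 0 ≤ X) (hΛ : 0 ≤ Λ)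
    (hh0 : 0 ≤ h n) (hh1 : h n ≤ 1)
    (hA : (h n : ℂ) * D σ j (E σ h φ j n) (dp σ h n y z) =
      E σ h φ (j + 1) n (dp σ h n y z) + (h n : ℂ) ^ 2 * a)
    (ha : ‖a‖ ≤ b) (hB : ‖Bc σ h φ j n (dp σ h n y z)‖ ≤ b)
    (hu : ‖(h n : ℂ) * dz (E σ h φ j n) (dp σ h n y z)‖ ≤ b)
    (hv : ‖(h n : ℂ) * dzb (E σ h φ j n) (dp σ h n y z)‖ ≤ b)
    (hMz : ‖ex σ (-1) z‖ ≤ M) (hPz : ‖dz (fun w => (σ w : ℂ)) z‖ ≤ P) (hy : ‖y‖ ≤ X)
    (hL : ‖ex σ (-1) z - ex σ (-1) (dp σ h n y z)‖ ≤ Λ * (h n * (M * X))) :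
    ‖2 * (h n : ℂ) * ex σ (-1) z * dz (fun w => E σ h φ j n (dp σ h n y w)) z -
      E σ h φ (j + 1) n (dp σ h n y z)‖ ≤
      h n * ((2 + 2 * Λ * M * X + 4 * M ^ 2 * P * X) * b) := by
  rw [step hσ hE y z hA, add_sub_cancel_left]
  have hn : ‖(h n : ℂ)‖ = h n := by rw [Complex.norm_real, Real.norm_of_nonneg hh0]
  have t1 : ‖(h n : ℂ) ^ 2 * a‖ ≤ h n * b := by
    rw [norm_mul, norm_pow, hn]
    have : h n ^ 2 ≤ h n := by nlinarith only [hh0, hh1]
    exact mul_le_mul this ha (norm_nonneg _) hh0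
  have t2 : ‖(h n : ℂ) * Bc σ h φ j n (dp σ h n y z)‖ ≤ h n * b := by
    rw [norm_mul, hn]
    exact mul_le_mul_of_nonneg_left hB hh0
  have t3 : ‖2 * (ex σ (-1) z - ex σ (-1) (dp σ h n y z)) *
      ((h n : ℂ) * dz (E σ h φ j n) (dp σ h n y z))‖ ≤ h n * (2 * Λ * M * X * b) := by
    rw [norm_mul, norm_mul, Complex.norm_ofNat]
    have : 2 * ‖ex σ (-1) z - ex σ (-1) (dp σ h n y z)‖ ≤ 2 * (Λ * (h n * (M * X))) := by
      linarith
    calc 2 * ‖ex σ (-1) z - ex σ (-1) (dp σ h n y z)‖ *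
          ‖(h n : ℂ) * dz (E σ h φ j n) (dp σ h n y z)‖
        ≤ 2 * (Λ * (h n * (M * X))) * b := mul_le_mul this hu (norm_nonneg _) (by positivity)
      _ = h n * (2 * Λ * M * X * b) := by ring
  have t4 : ‖2 * (h n : ℂ) * (ex σ (-1) z * ex σ (-1) z * dz (fun w => (σ w : ℂ)) z) *
      (y * ((h n : ℂ) * dz (E σ h φ j n) (dp σ h n y z)) +
        (starRingEnd ℂ) y * ((h n : ℂ) * dzb (E σ h φ j n) (dp σ h n y z)))‖ ≤
      h n * (4 * M ^ 2 * P * X * b) := by
    have s1 : ‖ex σ (-1) z * ex σ (-1) z * dz (fun w => (σ w : ℂ)) z‖ ≤ M * M * P := by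
      rw [norm_mul, norm_mul]
      (clear * - hMz hM hPz; gcongr)
    have s2 : ‖y * ((h n : ℂ) * dz (E σ h φ j n) (dp σ h n y z)) +
        (starRingEnd ℂ) y * ((h n : ℂ) * dzb (E σ h φ j n) (dp σ h n y z))‖ ≤
        X * b + X * b := by
      refine (norm_add_le _ _).trans (add_le_add ?_ ?_)
      · rw [norm_mul]
        exact mul_le_mul hy hu (norm_nonneg _) hX
      · rw [norm_mul, RCLike.norm_conj]
        exact mul_le_mul hy hv (norm_nonneg _) hX
    rw [norm_mul, norm_mul, norm_mul, Complex.norm_ofNat, hn]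
    calc 2 * h n * ‖ex σ (-1) z * ex σ (-1) z * dz (fun w => (σ w : ℂ)) z‖ *
          ‖y * ((h n : ℂ) * dz (E σ h φ j n) (dp σ h n y z)) +
            (starRingEnd ℂ) y * ((h n : ℂ) * dzb (E σ h φ j n) (dp σ h n y z))‖
        ≤ 2 * h n * (M * M * P) * (X * b + X * b) := by
          refine mul_le_mul ?_ s2 (norm_nonneg _) (by positivity)
          exact mul_le_mul_of_nonneg_left s1 (by positivity)
      _ = h n * (4 * M ^ 2 * P * X * b) := by ring
  refine (norm_sub_le _ _).trans ?_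
  refine (add_le_add (norm_add₃_le) t4).trans ?_
  linarith only [t1, t2, t3]

/-- the product estimate: `T i` is close to `e i` and everything is bounded by `b` -/
lemma prod_le {r : ℕ} (hr : r ≤ 4) (T e g : Fin r → ℂ) (ζ ζ' : ℂ) {b c₁ η Z Z' : ℝ} (hb : 1 ≤ b)
    (hη : 0 ≤ η) (hc₁ : 0 ≤ c₁) (hZ : ‖ζ‖ ≤ Z) (hZ' : ‖ζ'‖ ≤ Z')
    (hg : ∀ k, ‖g k‖ ≤ b) (hT : ∀ k, ‖T k - e k‖ ≤ η * (c₁ * b)) :
    ‖(∑ i, ζ * (e i * ∏ k ∈ Finset.univ.erase i, g k)) -
      (2 * (η : ℂ) * ζ' * (∏ k, g k) + ∑ i, ζ * (T i * ∏ k ∈ Finset.univ.erase i, g k))‖ ≤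
      η * ((2 * Z' + 4 * Z * c₁) * b ^ 4) := by
  have hZ0 : 0 ≤ Z := (norm_nonneg _).trans hZ
  have hZ0' : 0 ≤ Z' := (norm_nonneg _).trans hZ'
  have hb0 : 0 ≤ b := by linarith
  have h1 : (∑ i, ζ * (e i * ∏ k ∈ Finset.univ.erase i, g k)) -
      (2 * (η : ℂ) * ζ' * (∏ k, g k) + ∑ i, ζ * (T i * ∏ k ∈ Finset.univ.erase i, g k)) =
      -(2 * (η : ℂ) * ζ' * (∏ k, g k)) -
        ∑ i, ζ * ((T i - e i) * ∏ k ∈ Finset.univ.erase i, g k) := by
    have h2 : ∑ i, ζ * ((T i - e i) * ∏ k ∈ Finset.univ.erase i, g k) =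
        (∑ i, ζ * (T i * ∏ k ∈ Finset.univ.erase i, g k)) -
          ∑ i, ζ * (e i * ∏ k ∈ Finset.univ.erase i, g k) := by
      rw [← Finset.sum_sub_distrib]
      exact Finset.sum_congr rfl fun i _ => by ring
    rw [h2]
    ring
  rw [h1]
  have hprod : ∀ s : Finset (Fin r), ‖∏ k ∈ s, g k‖ ≤ b ^ s.card := by
    intro s
    rw [norm_prod]
    exact (Finset.prod_le_prod (fun _ _ => norm_nonneg _) fun k _ => hg k).trans_eq
      (Finset.prod_const b)
  have t1 : ‖2 * (η : ℂ) * ζ' * (∏ k, g k)‖ ≤ η * (2 * Z' * b ^ 4) := by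
    rw [norm_mul, norm_mul, norm_mul, Complex.norm_ofNat, Complex.norm_real,
      Real.norm_of_nonneg hη]
    have h3 : ‖∏ k, g k‖ ≤ b ^ 4 := (hprod Finset.univ).trans
      (pow_le_pow_right₀ hb (by rw [Finset.card_univ, Fintype.card_fin]; exact hr))
    calc 2 * η * ‖ζ'‖ * ‖∏ k, g k‖ ≤ 2 * η * Z' * b ^ 4 := by (clear * - hZ' hη h3 hZ0'; gcongr)
      _ = η * (2 * Z' * b ^ 4) := by ring
  have t2 : ‖∑ i, ζ * ((T i - e i) * ∏ k ∈ Finset.univ.erase i, g k)‖ ≤
      η * (4 * Z * c₁ * b ^ 4) := by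
    have h4 : ∀ i : Fin r, ‖ζ * ((T i - e i) * ∏ k ∈ Finset.univ.erase i, g k)‖ ≤
        η * (Z * c₁ * b ^ 4) := by
      intro i
      have hr1 : 1 ≤ r := by
        have := i.2
        omega
      have h5 : (Finset.univ.erase i).card = r - 1 := by
        rw [Finset.card_erase_of_mem (Finset.mem_univ i), Finset.card_univ, Fintype.card_fin]
      have h6 := hprod (Finset.univ.erase i)
      rw [h5] at h6
      rw [norm_mul, norm_mul]
      calc ‖ζ‖ * (‖T i - e i‖ * ‖∏ k ∈ Finset.univ.erase i, g k‖)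
          ≤ Z * (η * (c₁ * b) * b ^ (r - 1)) := by
            gcongr
            exact hT i
        _ = η * (Z * c₁ * b ^ r) := by
            have : b ^ r = b * b ^ (r - 1) := by
              rw [← pow_succ']
              congr 1
              omega
            rw [this]
            ring
        _ ≤ η * (Z * c₁ * b ^ 4) := by
            (clear * - hb hr hZ0 hc₁ hη; gcongr)
    refine (norm_sum_le _ _).trans ((Finset.sum_le_sum fun i _ => h4 i).trans ?_)
    rw [Finset.sum_const, Finset.card_univ, Fintype.card_fin, nsmul_eq_mul]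
    have h7 : (r : ℝ) ≤ 4 := by exact_mod_cast hr
    have h8 : 0 ≤ η * (Z * c₁ * b ^ 4) := by positivity
    nlinarith
  refine (norm_sub_le _ _).trans ?_
  rw [norm_neg]
  linarith only [t1, t2]

/-- a continuous function is bounded on a compact set by a nonnegative constant -/
lemma bd_on {f : ℂ → ℂ} (hf : Continuous f) {K : Set ℂ} (hK : IsCompact K) :
    ∃ M : ℝ, 0 ≤ M ∧ ∀ z ∈ K, ‖f z‖ ≤ M := by
  obtain ⟨M, hM⟩ := hK.exists_bound_of_continuousOn hf.continuousOn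
  exact ⟨max M 0, le_max_right _ _, fun z hz => (hM z hz).trans (le_max_left _ _)⟩

lemma prod_single {r : ℕ} (j : Fin r → ℤ) (n : ℕ) (p : Fin r → ℂ) (i : Fin r) :
    ∏ k, E σ h φ ((j + Pi.single i 1 : Fin r → ℤ) k) n (p k) =
      E σ h φ (j i + 1) n (p i) * ∏ k ∈ Finset.univ.erase i, E σ h φ (j k) n (p k) := by
  rw [← Finset.mul_prod_erase _ _ (Finset.mem_univ i)]
  congr 1
  · simp
  · refine Finset.prod_congr rfl fun k hk => ?_
    have hki : k ≠ i := Finset.ne_of_mem_erase hk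
    simp [hki]

lemma plus (hDsp : StmtDspB) (hJ : StmtJetC) (L : LocB V σ h φ) {ζ : ℂ → ℂ} (hζ : Test V ζ)
    {r : ℕ} (x : Fin r → ℂ) (j : Fin r → ℤ) (hr : r ≤ 4) {ε : ℝ} (hε : 0 < ε) :
    ∀ᶠ n in atTop, ∀ l : ℂ, ‖l‖ ≤ 1 → ‖∑ i, Aj σ h φ ζ x (j + Pi.single i 1) n l‖ ≤ ε := by
  have hσ := L.sm
  have hE : ∀ (k : ℤ) (n : ℕ), ContDiff ℝ ∞ (E σ h φ k n) := fun k n =>
    (hJ V σ h φ L k).1.smooth n
  choose A hAd hA using fun i => (hJ V σ h φ L (j i)).2.1
  have hs := contDiff_sig hσ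
  -- the family of dominated functions
  set u : Fin r × Fin 5 → ℕ → ℂ → ℂ := fun p =>
    (![E σ h φ (j p.1), A p.1, Bc σ h φ (j p.1),
      fun n z => (h n : ℂ) * dz (E σ h φ (j p.1) n) z,
      fun n z => (h n : ℂ) * dzb (E σ h φ (j p.1) n) z] : Fin 5 → ℕ → ℂ → ℂ) p.2 with hu
  have huB : ∀ p ∈ (Finset.univ : Finset (Fin r × Fin 5)), Bq V h φ 1 (u p) := by
    rintro ⟨i, k⟩ -
    have d0 := (hJ V σ h φ L (j i)).1
    fin_cases k
    · exact d0.bq
    · exact (hAd i).bq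
    · have := d0.bq.fn_mul (b := fun z => 2 * (j i : ℂ) * ex σ (-1) z *
        dz (fun w => (σ w : ℂ)) z)
        (((continuous_const.mul (contDiff_ex hσ _).continuous).mul
          (contDiff_dz hs).continuous).continuousOn)
      exact this
    · exact d0.hdz.bq
    · exact d0.hdzb.bq
  have hK : IsCompact (tsupport ζ) := hζ.supp
  obtain ⟨M, hM, hMz⟩ := bd_on (contDiff_ex hσ (-1)).continuous hK
  obtain ⟨P, hP, hPz⟩ := bd_on (contDiff_dz hs).continuous hK
  obtain ⟨Z, hZ, hZz⟩ := bd_on hζ.smooth.continuous hK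
  obtain ⟨Z', hZ', hZz'⟩ := bd_on
    (contDiff_dz ((contDiff_ex hσ (-1)).mul hζ.smooth)).continuous hK
  set X : ℝ := ∑ i, ‖x i‖ with hX
  have hX0 : 0 ≤ X := Finset.sum_nonneg fun i _ => norm_nonneg _
  have hxX : ∀ (i : Fin r) (l : ℂ), ‖l‖ ≤ 1 → ‖l * x i‖ ≤ X := by
    intro i l hl
    rw [norm_mul]
    have h1 : ‖x i‖ ≤ X :=
      Finset.single_le_sum (f := fun i => ‖x i‖) (fun _ _ => norm_nonneg _) (Finset.mem_univ i)
    nlinarith only [h1, hl, norm_nonneg (x i)]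
  obtain ⟨Λ, hΛ, hLip⟩ := lip_ex hσ hK (M * X)
  obtain ⟨S, c, hc, hS1, hSc, hS, hlim⟩ := disp hDsp L hK hζ.sub (M * X) Finset.univ u huB
  set c₁ : ℝ := 2 + 2 * Λ * M * X + 4 * M ^ 2 * P * X with hc₁
  have hc₁0 : 0 ≤ c₁ := by (clear * - hΛ hM hP; positivity)
  set C : ℝ := (2 * Z' + 4 * Z * c₁) * (max c 1) ^ 4 with hC
  have hC0 : 0 ≤ C := by (clear * - hZ' hZ hΛ hM hP; positivity)
  have e1 : ∀ᶠ n in atTop, h n < 1 := L.hlim.eventually (gt_mem_nhds one_pos)
  have e2 : ∀ᶠ n in atTop, C * (h n * ∫ z in tsupport ζ, S n z ^ 2) < ε := by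
    have h1 := hlim.const_mul C
    rw [mul_zero] at h1
    exact h1.eventually (gt_mem_nhds hε)
  filter_upwards [hS, e1, e2] with n h1 h2 h3 l hl
  have hh0 : 0 ≤ h n := (L.hpos n).le
  -- abbreviations
  have hdp : ∀ k, ContDiff ℝ ∞ (dp σ h n (l * x k)) := fun k => contDiff_dp hσ n _
  set G : Fin r → ℂ → ℂ := fun k z => E σ h φ (j k) n (dp σ h n (l * x k) z) with hG
  have hGs : ∀ k, ContDiff ℝ ∞ (G k) := fun k => (hE (j k) n).comp (hdp k)
  set e : Fin r → ℂ → ℂ := fun k z => E σ h φ (j k + 1) n (dp σ h n (l * x k) z) with he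
  have hes : ∀ k, ContDiff ℝ ∞ (e k) := fun k => (hE (j k + 1) n).comp (hdp k)
  have hprodc : ∀ s : Finset (Fin r), ContDiff ℝ ∞ fun z => ∏ k ∈ s, G k z := fun s =>
    contDiff_prod fun k _ => hGs k
  -- the integrals
  have hAj : ∀ i, Aj σ h φ ζ x (j + Pi.single i 1) n l =
      ∫ z, ζ z * (e i z * ∏ k ∈ Finset.univ.erase i, G k z) := by
    intro i
    unfold Aj
    refine integral_congr_ae (Filter.Eventually.of_forall fun z => ?_)
    have h4 : ∏ k, E σ h φ ((j + Pi.single i 1 : Fin r → ℤ) k) n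
        (z + ((h n * Real.exp (-σ z) : ℝ) : ℂ) * (l * x k)) =
        ∏ k, E σ h φ ((j + Pi.single i 1 : Fin r → ℤ) k) n (dp σ h n (l * x k) z) := by
      refine Finset.prod_congr rfl fun k _ => ?_
      rw [Aj_fun]
      rfl
    show ζ z * ∏ k, E σ h φ ((j + Pi.single i 1 : Fin r → ℤ) k) n
        (z + ((h n * Real.exp (-σ z) : ℝ) : ℂ) * (l * x k)) = _
    rw [h4, prod_single]
  have hint : ∀ i, Integrable fun z => ζ z * (e i z * ∏ k ∈ Finset.univ.erase i, G k z) :=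
    fun i => test_int hζ ((hes i).mul (hprodc _)).continuous
  have hsum : ∑ i, Aj σ h φ ζ x (j + Pi.single i 1) n l =
      ∫ z, ∑ i, ζ z * (e i z * ∏ k ∈ Finset.univ.erase i, G k z) := by
    rw [integral_finsetSum _ fun i _ => hint i]
    exact Finset.sum_congr rfl fun i _ => hAj i
  -- the total derivative
  have hexζ : ContDiff ℝ ∞ fun w => ex σ (-1) w * ζ w := (contDiff_ex hσ _).mul hζ.smooth
  set H : ℂ → ℂ := fun z => 2 * (h n : ℂ) * ((ex σ (-1) z * ζ z) * ∏ k, G k z) with hH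
  have hHs : ContDiff ℝ ∞ H := contDiff_const.mul (hexζ.mul (hprodc _))
  have hHc : HasCompactSupport H := (hζ.supp.mul_left.mul_right).mul_left
  have hH0 := integral_dz_eq_zero hHs hHc
  have hdH : ∀ z, dz H z = 2 * (h n : ℂ) * dz (fun w => ex σ (-1) w * ζ w) z * (∏ k, G k z) +
      ∑ i, ζ z * ((2 * (h n : ℂ) * ex σ (-1) z * dz (G i) z) *
        ∏ k ∈ Finset.univ.erase i, G k z) := by
    intro z
    have h5 : dz H z = 2 * (h n : ℂ) * dz (fun w => (ex σ (-1) w * ζ w) * ∏ k, G k w) z :=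
      dz_const_mul _ (cd_at (hexζ.mul (hprodc _)) z)
    rw [h5, dz_mul (cd_at hexζ z) (cd_at (hprodc _) z), dz_prod G hGs, mul_add, Finset.mul_sum,
      Finset.mul_sum]
    congr 1
    · ring
    · exact Finset.sum_congr rfl fun i _ => by ring
  have hHi : Integrable (dz H) :=
    (contDiff_dz hHs).continuous.integrable_of_hasCompactSupport hHc.dz
  have hsi : Integrable fun z => ∑ i, ζ z * (e i z * ∏ k ∈ Finset.univ.erase i, G k z) :=
    integrable_finsetSum _ fun i _ => hint i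
  have hdiff : ∑ i, Aj σ h φ ζ x (j + Pi.single i 1) n l =
      ∫ z, ((∑ i, ζ z * (e i z * ∏ k ∈ Finset.univ.erase i, G k z)) - dz H z) := by
    rw [integral_sub hsi hHi, hH0, sub_zero, hsum]
  rw [hdiff]
  -- the estimate
  have hzero : ∀ z, z ∉ tsupport ζ →
      (∑ i, ζ z * (e i z * ∏ k ∈ Finset.univ.erase i, G k z)) - dz H z = 0 := by
    intro z hz
    have h6 : ζ z = 0 := image_eq_zero_of_notMem_tsupport hz
    have h7 : dz (fun w => ex σ (-1) w * ζ w) z = 0 := by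
      have h8 : ζ =ᶠ[𝓝 z] fun _ => 0 := notMem_tsupport_iff_eventuallyEq.mp hz
      have h9 : (fun w => ex σ (-1) w * ζ w) =ᶠ[𝓝 z] fun _ => 0 := by
        filter_upwards [h8] with w hw
        rw [hw, mul_zero]
      rw [dz_congr h9, dz_const]
    rw [hdH, h6, h7]
    simp
  have hbound : ∀ z ∈ tsupport ζ,
      ‖(∑ i, ζ z * (e i z * ∏ k ∈ Finset.univ.erase i, G k z)) - dz H z‖ ≤
        C * (h n * S n z ^ 2) := by
    intro z hz
    have hy : ∀ k, ‖ex σ (-1) z * (l * x k)‖ ≤ M * X := by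
      intro k
      rw [norm_mul]
      exact mul_le_mul (hMz z hz) (hxX k l hl) (norm_nonneg _) hM
    have hdpe : ∀ k, z + (h n : ℂ) * (ex σ (-1) z * (l * x k)) = dp σ h n (l * x k) z := by
      intro k
      unfold dp
      ring
    have hs1 : 1 ≤ √(S n z) := Real.one_le_sqrt.2 (hS1 n z)
    set b : ℝ := max c 1 * √(S n z) with hb
    have hb1 : 1 ≤ b := by
      have : 1 ≤ max c 1 := le_max_right _ _
      nlinarith only [hs1, this]
    have hcb : c * √(S n z) ≤ b := mul_le_mul_of_nonneg_right (le_max_left _ _) (by positivity)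
    have hub : ∀ p, ‖u p n (dp σ h n (l * x p.1) z)‖ ≤ b := by
      intro p
      have h10 := (h1 z hz _ (hy p.1)).2 p (Finset.mem_univ _)
      rw [hdpe] at h10
      exact h10.trans hcb
    have hVd : ∀ k, dp σ h n (l * x k) z ∈ V := by
      intro k
      have h10 := (h1 z hz _ (hy k)).1
      rwa [hdpe] at h10
    rw [hdH]
    have h11 := prod_le hr (fun i => 2 * (h n : ℂ) * ex σ (-1) z * dz (G i) z) (fun i => e i z)
      (fun i => G i z) (ζ z) (dz (fun w => ex σ (-1) w * ζ w) z) hb1 hh0 hc₁0 (hZz z hz)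
      (hZz' z hz) (fun k => hub (k, 0)) (fun k => ?_)
    · refine h11.trans_eq ?_
      rw [hC, hb, mul_pow]
      have h12 : √(S n z) ^ 4 = S n z ^ 2 := by
        rw [show (4 : ℕ) = 2 * 2 by norm_num, pow_mul, Real.sq_sqrt (by linarith [hS1 n z])]
      rw [h12]
      ring
    · refine step_le hσ (hE (j k) n) (by linarith) hM hP hX0 hΛ hh0 h2.le
        (hA k n _ (hVd k)) (hub (k, 1)) (hub (k, 2)) (hub (k, 3)) (hub (k, 4)) (hMz z hz)
        (hPz z hz) (hxX k l hl) ?_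
      have hv : ‖(h n : ℂ) * (ex σ (-1) z * (l * x k))‖ ≤ h n * (M * X) := by
        rw [norm_mul, Complex.norm_real, Real.norm_of_nonneg hh0]
        exact mul_le_mul_of_nonneg_left (hy k) hh0
      have hv1 : ‖(h n : ℂ) * (ex σ (-1) z * (l * x k))‖ ≤ M * X := by
        refine hv.trans ?_
        have : 0 ≤ M * X := by positivity
        nlinarith only [h2, this]
      have h13 := hLip z hz _ hv1
      rw [hdpe] at h13
      exact h13.trans (mul_le_mul_of_nonneg_left hv hΛ)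
  have hfin : ‖∫ z, ((∑ i, ζ z * (e i z * ∏ k ∈ Finset.univ.erase i, G k z)) - dz H z)‖ ≤
      C * (h n * ∫ z in tsupport ζ, S n z ^ 2) := by
    refine (norm_integral_le_integral_norm _).trans ?_
    have h14 : ∫ z, ‖(∑ i, ζ z * (e i z * ∏ k ∈ Finset.univ.erase i, G k z)) - dz H z‖ =
        ∫ z in tsupport ζ,
          ‖(∑ i, ζ z * (e i z * ∏ k ∈ Finset.univ.erase i, G k z)) - dz H z‖ := by
      refine (setIntegral_eq_integral_of_forall_compl_eq_zero fun z hz => ?_).symm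
      rw [hzero z hz, norm_zero]
    rw [h14, ← integral_const_mul, ← integral_const_mul]
    refine setIntegral_mono_on (hsi.sub hHi).norm.integrableOn ?_ hK.measurableSet hbound
    have : Continuous fun z => C * (h n * S n z ^ 2) :=
      continuous_const.mul (continuous_const.mul ((hSc n).pow 2))
    exact this.continuousOn.integrableOn_compact hK
  linarith

/-- conjugation exchanges the two relations -/
lemma conj_Aj (L : LocB V σ h φ) (ζ : ℂ → ℂ) {r : ℕ} (x : Fin r → ℂ) (j : Fin r → ℤ) (n : ℕ)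
    (l : ℂ) : (starRingEnd ℂ) (Aj σ h φ ζ x j n l) =
      (-1) ^ (∑ i, j i) * Aj σ h φ (fun z => (starRingEnd ℂ) (ζ z)) x (-j) n l := by
  unfold Aj
  rw [← integral_conj, ← integral_const_mul]
  refine integral_congr_ae (Filter.Eventually.of_forall fun z => ?_)
  simp only [map_mul, map_prod]
  have h1 : ∏ i, (starRingEnd ℂ) (E σ h φ (j i) n
      (z + ((h n * Real.exp (-σ z) : ℝ) : ℂ) * (l * x i))) =
      (∏ i, (-1 : ℂ) ^ (j i)) * ∏ i, E σ h φ ((-j) i) n
        (z + ((h n * Real.exp (-σ z) : ℝ) : ℂ) * (l * x i)) := by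
    rw [← Finset.prod_mul_distrib]
    exact Finset.prod_congr rfl fun i _ => conj_E L _ n _
  have h2 : ∏ i, (-1 : ℂ) ^ (j i) = (-1) ^ (∑ i, j i) := by
    have h3 : ∀ s : Finset (Fin r), ∏ i ∈ s, (-1 : ℂ) ^ (j i) = (-1) ^ (∑ i ∈ s, j i) := by
      intro s
      induction s using Finset.induction_on with
      | empty => simp
      | insert a s ha ih =>
        rw [Finset.prod_insert ha, Finset.sum_insert ha, ih, zpow_add₀ (by norm_num)]
    exact h3 _
  push_cast at h1 ⊢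
  rw [h1, h2]
  ring

end REL

open _root_.U3.REL in
theorem stmtRelB (hDsp : StmtDspB) (hJetA : StmtJetC) : StmtRelB := by
  intro V σ h φ L ζ hζ r x j hr ε hε
  filter_upwards [plus hDsp hJetA L hζ x j hr hε,
    plus hDsp hJetA L hζ.conj x (-j) hr hε] with n h1 h2 l hl
  refine ⟨h1 l hl, ?_⟩
  have h3 : ∀ i : Fin r, (starRingEnd ℂ) (Aj σ h φ ζ x (j - Pi.single i 1) n l) =
      (-1) ^ ((∑ i, j i) - 1) *
        Aj σ h φ (fun z => (starRingEnd ℂ) (ζ z)) x (-j + Pi.single i 1) n l := by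
    intro i
    rw [conj_Aj L]
    have h4 : ∑ k, (j - Pi.single i 1 : Fin r → ℤ) k = (∑ k, j k) - 1 := by
      simp only [Pi.sub_apply, Finset.sum_sub_distrib, Finset.sum_pi_single', Finset.mem_univ,
        if_true]
    have h5 : -(j - Pi.single i 1 : Fin r → ℤ) = -j + Pi.single i 1 := by
      rw [neg_sub, sub_eq_add_neg, add_comm]
    rw [h4, h5]
  have h6 : ‖∑ i, Aj σ h φ ζ x (j - Pi.single i 1) n l‖ =
      ‖∑ i, Aj σ h φ (fun z => (starRingEnd ℂ) (ζ z)) x (-j + Pi.single i 1) n l‖ := by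
    rw [← RCLike.norm_conj, map_sum, Finset.sum_congr rfl fun i _ => h3 i, ← Finset.mul_sum,
      norm_mul, norm_zpow, norm_neg, norm_one, one_zpow, one_mul]
  rw [h6]
  exact h2 l hl

end

end U3


end

section

/-!
PTSU: the local theorem for the local waves at distinct points, without quantum ergodicity.
-/

open MeasureTheory Filter Topology Set UpperHalfPlane MatrixGroups
open scoped ContDiff

namespace U3

open QE QJ

noncomputable section

namespace PTSU

/-- the derivative in terms of the Wirtinger derivatives -/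
lemma fderiv_eq (f : ℂ → ℂ) (w v : ℂ) :
    fderiv ℝ f w v = dz f w * v + dzb f w * (starRingEnd ℂ) v := by
  have h1 : v = v.re • (1 : ℂ) + v.im • Complex.I := by
    apply Complex.ext <;> simp
  have h2 : fderiv ℝ f w v = (v.re : ℂ) * fderiv ℝ f w 1 + (v.im : ℂ) * fderiv ℝ f w Complex.I := by
    conv_lhs => rw [h1]
    rw [map_add, map_smul, map_smul, Complex.real_smul, Complex.real_smul]
  rw [h2]
  have h3 : (v : ℂ) = (v.re : ℂ) + (v.im : ℂ) * Complex.I := (Complex.re_add_im v).symm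
  have h4 : (starRingEnd ℂ) v = (v.re : ℂ) - (v.im : ℂ) * Complex.I := by
    apply Complex.ext <;> simp
  unfold dz dzb
  rw [h4]
  conv_rhs => rw [h3]
  simp only [Complex.add_re, Complex.ofReal_re, Complex.mul_re, Complex.I_re, mul_zero,
    Complex.ofReal_im, Complex.I_im, mul_one, sub_self, add_zero, Complex.add_im, Complex.mul_im,
    zero_add]
  linear_combination ((v.im : ℂ) * fderiv ℝ f w Complex.I) * Complex.I_mul_I

/-- the mean value inequality at the scale `h` -/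
lemma diff_le {Φ : ℂ → ℂ} {U : Set ℂ} (hU : IsOpen U) (hΦ : ContDiffOn ℝ ∞ Φ U) {h R M : ℝ} {z : ℂ}
    (hb : ∀ y : ℂ, ‖y‖ ≤ R → z + h * y ∈ U ∧ ‖(h : ℂ) * dz Φ (z + h * y)‖ ≤ M ∧
      ‖(h : ℂ) * dzb Φ (z + h * y)‖ ≤ M) {y₁ y₂ : ℂ} (h1 : ‖y₁‖ ≤ R) (h2 : ‖y₂‖ ≤ R) :
    ‖Φ (z + h * y₁) - Φ (z + h * y₂)‖ ≤ 2 * M * ‖y₁ - y₂‖ := by
  have hder : ∀ y : ℂ, ‖y‖ ≤ R → HasFDerivAt (fun y : ℂ => Φ (z + h * y))
      ((fderiv ℝ Φ (z + h * y)).comp ((h : ℂ) • ContinuousLinearMap.id ℝ ℂ)) y := by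
    intro y hy
    have e1 : HasFDerivAt Φ (fderiv ℝ Φ (z + h * y)) (z + h * y) :=
      (((hΦ _ (hb y hy).1).contDiffAt (hU.mem_nhds (hb y hy).1)).differentiableAt
        (by simp)).hasFDerivAt
    have e2 : HasFDerivAt (fun y : ℂ => z + (h : ℂ) * y)
        ((h : ℂ) • ContinuousLinearMap.id ℝ ℂ) y :=
      ((hasFDerivAt_id (𝕜 := ℝ) y).const_mul (h : ℂ)).const_add z
    exact e1.comp y e2
  have hM : 0 ≤ M := (norm_nonneg _).trans (hb y₁ h1).2.1
  have key := (convex_closedBall (0 : ℂ) R).norm_image_sub_le_of_norm_hasFDerivWithin_le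
    (𝕜 := ℝ) (f := fun y : ℂ => Φ (z + h * y)) (C := 2 * M)
    (f' := fun y => (fderiv ℝ Φ (z + h * y)).comp ((h : ℂ) • ContinuousLinearMap.id ℝ ℂ))
    (fun y hy => (hder y (by simpa using hy)).hasFDerivWithinAt) ?_
    (x := y₂) (y := y₁) (by simpa using h2) (by simpa using h1)
  · exact key
  · intro y hy
    have hy' : ‖y‖ ≤ R := by simpa using hy
    obtain ⟨-, b1, b2⟩ := hb y hy'
    refine ContinuousLinearMap.opNorm_le_bound _ (by positivity) fun v => ?_
    have e3 : ((fderiv ℝ Φ (z + h * y)).comp ((h : ℂ) • ContinuousLinearMap.id ℝ ℂ)) v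
        = ((h : ℂ) * dz Φ (z + h * y)) * v + ((h : ℂ) * dzb Φ (z + h * y)) * (starRingEnd ℂ) v := by
      change fderiv ℝ Φ (z + h * y) ((h : ℂ) * v) = _
      rw [fderiv_eq, map_mul, Complex.conj_ofReal]
      ring
    rw [e3]
    refine (norm_add_le _ _).trans ?_
    rw [norm_mul _ v, norm_mul _ ((starRingEnd ℂ) v), RCLike.norm_conj]
    have := norm_nonneg v
    nlinarith

/-- the difference of two products -/
lemma prod_diff {ι : Type*} (s : Finset ι) (a b : ι → ℂ) {M δ : ℝ} (hM : 1 ≤ M) (hδ : 0 ≤ δ)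
    (ha : ∀ i, ‖a i‖ ≤ M) (hb : ∀ i, ‖b i‖ ≤ M) (hd : ∀ i, ‖a i - b i‖ ≤ δ) :
    ‖∏ i ∈ s, a i - ∏ i ∈ s, b i‖ ≤ s.card * (δ * M ^ s.card) ∧ ‖∏ i ∈ s, a i‖ ≤ M ^ s.card := by
  classical
  have hM0 : 0 ≤ M := by linarith
  induction s using Finset.induction_on with
  | empty => simp
  | insert i s hi ih =>
    obtain ⟨ih1, ih2⟩ := ih
    rw [Finset.prod_insert hi, Finset.prod_insert hi, Finset.card_insert_of_notMem hi]
    constructor
    · have e1 : a i * ∏ j ∈ s, a j - b i * ∏ j ∈ s, b j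
          = (a i - b i) * ∏ j ∈ s, a j + b i * (∏ j ∈ s, a j - ∏ j ∈ s, b j) := by ring
      rw [e1]
      refine (norm_add_le _ _).trans ?_
      rw [norm_mul, norm_mul]
      have hp : 0 ≤ M ^ s.card := by positivity
      have h1 : ‖a i - b i‖ * ‖∏ j ∈ s, a j‖ ≤ δ * M ^ s.card :=
        mul_le_mul (hd i) ih2 (norm_nonneg _) hδ
      have h2 : ‖b i‖ * ‖∏ j ∈ s, a j - ∏ j ∈ s, b j‖ ≤ M * (s.card * (δ * M ^ s.card)) :=
        mul_le_mul (hb i) ih1 (norm_nonneg _) hM0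
      have h3 : δ * M ^ s.card ≤ δ * M ^ (s.card + 1) := by
        rw [pow_succ]
        have : 0 ≤ δ * M ^ s.card := by positivity
        nlinarith only [hM, this]
      push_cast
      calc _ ≤ δ * M ^ s.card + M * (s.card * (δ * M ^ s.card)) := add_le_add h1 h2
        _ ≤ δ * M ^ (s.card + 1) + M * (s.card * (δ * M ^ s.card)) := by linarith
        _ = _ := by ring
    · rw [norm_mul, pow_succ, mul_comm]
      exact mul_le_mul ih2 (ha i) (norm_nonneg _) (by positivity)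

/-- the frames up to `O(h)` -/
lemma frXi_sub {h : ℕ → ℝ} {e : ℂ → ℝ} {M : ℝ} {x : ℂ} {n : ℕ} (hpos : 0 < h n) (θ : ℝ) {z : ℂ}
    (hM : |e z| ≤ M) (hn : h n * (‖x‖ * M) < 1 / 2) :
    ‖frXi h e x n θ z - uu θ ^ 2 * x‖ ≤ 2 * ‖x‖ * (h n * (‖x‖ * M)) := by
  have hM0 : 0 ≤ M := (abs_nonneg _).trans hM
  have h1 : ‖(h n : ℂ) * x * uu θ * Real.sin θ * e z‖ ≤ h n * (‖x‖ * M) := by
    have h1 := norm_c_le hpos.le x θ
    rw [norm_mul _ ((e z : ℝ) : ℂ), Complex.norm_real, Real.norm_eq_abs, ← mul_assoc]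
    exact mul_le_mul h1 hM (abs_nonneg _) (by have := hpos.le; positivity)
  set c := (h n : ℂ) * x * uu θ * Real.sin θ * e z with hc
  have h2 : 1 / 2 ≤ ‖1 + c‖ := by
    have h2 := norm_sub_norm_le (1 : ℂ) (-c)
    rw [norm_one, norm_neg, sub_neg_eq_add] at h2
    linarith
  have hne : (1 + c) ≠ 0 := by
    intro h0; rw [h0, norm_zero] at h2; linarith
  have e1 : frXi h e x n θ z - uu θ ^ 2 * x = -(x * uu θ ^ 2 * c / (1 + c)) := by
    have e0 : frXi h e x n θ z = x * uu θ ^ 2 / (1 + c) := rfl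
    rw [e0]
    field_simp
    ring
  rw [e1, norm_neg, norm_div, norm_mul, norm_mul, norm_pow, norm_uu, one_pow, mul_one,
    div_le_iff₀ (by linarith)]
  have hx := norm_nonneg x
  calc ‖x‖ * ‖c‖ ≤ ‖x‖ * (h n * (‖x‖ * M)) := by gcongr
    _ = (2 * ‖x‖ * (h n * (‖x‖ * M))) * (1 / 2) := by ring
    _ ≤ (2 * ‖x‖ * (h n * (‖x‖ * M))) * ‖1 + c‖ := by
        have := hpos.le
        exact mul_le_mul_of_nonneg_left h2 (by positivity)

/-- the local waves and the products at displaced points -/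
lemma compare (hDsu : StmtDsuU) {ρ : ℍ → ℝ} {φ : ℕ → ℍ → ℝ} {m : ℕ → ℝ}
    (hρ : ContDiffOn ℝ ∞ (fun w : ℂ => ρ (ofComplex w)) {w | 0 < w.im})
    (hL : LocU HH (gw ρ) (fun n => 1 / m n) (fun n z => (φ n (ofComplex z) : ℂ)))
    {ψ : ℂ → ℝ} (hψ : ContDiff ℝ ∞ ψ) (hψs : HasCompactSupport ψ) (hψU : tsupport ψ ⊆ HH)
    {r : ℕ} (hr : r ≤ 3) (x : Fin r → ℂ) :
    Tendsto (fun n => ((∫ z, ψ z * angProd ρ (φ n) (m n) x (ofComplex z) : ℝ) : ℂ)
      - ∫ θ, (∫ z, (ψ z : ℂ) * PD (gw ρ) (fun n => 1 / m n) (fun n z => (φ n (ofComplex z) : ℂ))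
          x n θ z) ∂angle) atTop (𝓝 0) := by
  set h : ℕ → ℝ := fun n => 1 / m n with hh
  set Φ : ℕ → ℂ → ℂ := fun n z => (φ n (ofComplex z) : ℂ) with hΦ
  set K := tsupport ψ with hKdef
  have hKc : IsCompact K := hψs
  have hpos : ∀ n, 0 < h n := hL.hpos
  have hlim : Tendsto h atTop (𝓝 0) := hL.hlim
  have hmpos : ∀ n, 0 < m n := fun n => one_div_pos.1 (hpos n)
  -- the coefficients
  have heS : ContDiffOn ℝ ∞ (em ρ) HH := Real.contDiff_exp.comp_contDiffOn hρ.neg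
  have haS : ContDiffOn ℝ ∞ (wt (gw ρ)) HH := by
    have h1 : ContDiffOn ℝ ∞ (fun z : ℂ => (z.im : ℂ) * (em ρ z : ℂ)) HH :=
      (Complex.ofRealCLM.contDiff.comp Complex.imCLM.contDiff).contDiffOn.mul
        (Complex.ofRealCLM.contDiff.comp_contDiffOn heS)
    exact h1.congr fun z hz => wt_gw hz
  have hgS : ContDiffOn ℝ ∞ (gw ρ) HH := by
    refine ContDiffOn.div (Real.contDiff_exp.comp_contDiffOn (contDiffOn_const.mul hρ))
      (Complex.imCLM.contDiff.contDiffOn.pow 2) fun z hz => ?_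
    have : (0 : ℝ) < z.im := hz
    exact (pow_pos this 2).ne'
  have hgpos : ∀ z ∈ HH, 0 < gw ρ z := fun z hz => by
    have : (0 : ℝ) < z.im := hz
    exact div_pos (Real.exp_pos _) (pow_pos this 2)
  obtain ⟨A, hA⟩ := hKc.exists_bound_of_continuousOn (haS.continuousOn.mono hψU)
  obtain ⟨M, hM⟩ := hKc.exists_bound_of_continuousOn (heS.continuousOn.mono hψU)
  obtain ⟨B, hB⟩ := hKc.exists_bound_of_continuousOn (f := ψ) hψ.continuous.continuousOn
  obtain ⟨L, hLip⟩ := lip_of_smooth isOpen_HH haS hKc hψU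
  -- enlarge the constants
  set A' := |A| with hA'
  set M' := |M| with hM'
  set B' := |B| with hB'
  have hA2 : ∀ z ∈ K, ‖wt (gw ρ) z‖ ≤ A' := fun z hz => (hA z hz).trans (le_abs_self A)
  have hM2 : ∀ z ∈ K, |em ρ z| ≤ M' := fun z hz => (hM z hz).trans (le_abs_self M)
  have hB2 : ∀ z ∈ K, ‖ψ z‖ ≤ B' := fun z hz => (hB z hz).trans (le_abs_self B)
  have hA0 : 0 ≤ A' := abs_nonneg _
  have hM0 : 0 ≤ M' := abs_nonneg _
  have hB0 : 0 ≤ B' := abs_nonneg _
  set X : ℝ := ∑ i, ‖x i‖ with hX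
  have hX0 : 0 ≤ X := Finset.sum_nonneg fun _ _ => norm_nonneg _
  have hxX : ∀ i, ‖x i‖ ≤ X := fun i =>
    Finset.single_le_sum (f := fun i => ‖x i‖) (fun _ _ => norm_nonneg _) (Finset.mem_univ i)
  set R : ℝ := 2 * A' * X with hR
  obtain ⟨S, hS1, hSc, hSb, hSl⟩ := hDsu HH (gw ρ) h Φ isOpen_HH hgS hgpos hL K hKc hψU R
  have hdisp : ∀ i, Disp h (wt (gw ρ)) K 2 (x i) (frXi h (em ρ) (x i)) := fun i =>
    disp_frame hpos hlim hLip (b := fun z => z.im) (fun z _ w _ => by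
      have := Complex.abs_im_le_norm (z - w)
      rwa [Complex.sub_im] at this) (fun z hz => wt_gw (hψU hz))
      (heS.continuousOn.mono hψU) hM2 (x i)
  have hcont : ∀ᶠ n in atTop, ∀ i, ContinuousOn (fun p : ℝ × ℂ => frXi h (em ρ) (x i) n p.1 p.2)
      (univ ×ˢ K) := eventually_all.2 fun i => (hdisp i).cont
  have hsmall : ∀ᶠ n in atTop, h n * (X * M') < 1 / 2 := by
    have := hlim.mul_const (X * M')
    rw [zero_mul] at this
    exact this.eventually_lt_const (by norm_num)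
  set C : ℝ := 2 * A' * X * (X * M') with hC
  have hC0 : 0 ≤ C := by positivity
  -- the bound
  have hbound : ∀ᶠ n in atTop, ‖((∫ z, ψ z * angProd ρ (φ n) (m n) x (ofComplex z) : ℝ) : ℂ)
      - ∫ θ, (∫ z, (ψ z : ℂ) * PD (gw ρ) h Φ x n θ z) ∂angle‖
      ≤ B' * (6 * C) * (h n * ∫ z in K, S n z ^ 2) := by
    filter_upwards [hSb, hcont, hsmall] with n n1 n2 n3
    set y₁ : Fin r → ℝ → ℂ → ℂ := fun i θ z => wt (gw ρ) z * frXi h (em ρ) (x i) n θ z with hy₁
    set y₂ : Fin r → ℝ → ℂ → ℂ := fun i θ z => wt (gw ρ) z * (uu θ ^ 2 * x i) with hy₂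
    have hn := (hpos n).le
    have hxs : ∀ i, h n * (‖x i‖ * M') < 1 / 2 := fun i => by
      refine lt_of_le_of_lt ?_ n3
      have := hxX i
      gcongr
    have hsub : ∀ i θ, ∀ z ∈ K, ‖frXi h (em ρ) (x i) n θ z - uu θ ^ 2 * x i‖
        ≤ 2 * X * (h n * (X * M')) := fun i θ z hz => by
      refine (frXi_sub (hpos n) θ (hM2 z hz) (hxs i)).trans ?_
      have := hxX i
      gcongr
    have hu2 : ∀ i θ, ‖uu θ ^ 2 * x i‖ ≤ X := fun i θ => by
      rw [norm_mul, norm_pow, norm_uu, one_pow, one_mul]; exact hxX i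
    have hy2R : ∀ i θ, ∀ z ∈ K, ‖y₂ i θ z‖ ≤ R := fun i θ z hz => by
      simp only [hy₂, norm_mul]
      rw [← norm_mul (uu θ ^ 2) (x i)]
      calc ‖wt (gw ρ) z‖ * ‖uu θ ^ 2 * x i‖ ≤ A' * X :=
            mul_le_mul (hA2 z hz) (hu2 i θ) (norm_nonneg _) hA0
        _ ≤ R := by rw [hR]; nlinarith [mul_nonneg hA0 hX0]
    have hy12 : ∀ i θ, ∀ z ∈ K, ‖y₁ i θ z - y₂ i θ z‖ ≤ C * h n := fun i θ z hz => by
      simp only [hy₁, hy₂, ← mul_sub, norm_mul]
      calc ‖wt (gw ρ) z‖ * ‖frXi h (em ρ) (x i) n θ z - uu θ ^ 2 * x i‖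
          ≤ A' * (2 * X * (h n * (X * M'))) :=
            mul_le_mul (hA2 z hz) (hsub i θ z hz) (norm_nonneg _) hA0
        _ = C * h n := by rw [hC]; ring
    have hy1R : ∀ i θ, ∀ z ∈ K, ‖y₁ i θ z‖ ≤ R := fun i θ z hz => by
      simp only [hy₁, norm_mul]
      have e1 : ‖frXi h (em ρ) (x i) n θ z‖ ≤ 2 * X := by
        have e2 : frXi h (em ρ) (x i) n θ z
            = (frXi h (em ρ) (x i) n θ z - uu θ ^ 2 * x i) + uu θ ^ 2 * x i := by ring
        rw [e2]
        refine (norm_add_le _ _).trans ?_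
        have e3 := hsub i θ z hz
        have e4 := hu2 i θ
        nlinarith
      calc ‖wt (gw ρ) z‖ * ‖frXi h (em ρ) (x i) n θ z‖ ≤ A' * (2 * X) :=
            mul_le_mul (hA2 z hz) e1 (norm_nonneg _) hA0
        _ = R := by rw [hR]; ring
    -- the two functions
    set H₁ : ℝ × ℂ → ℂ := fun p => (ψ p.2 : ℂ) * ∏ i, Φ n (p.2 + h n * y₁ i p.1 p.2) with hH₁
    set H₂ : ℝ × ℂ → ℂ := fun p => (ψ p.2 : ℂ) * ∏ i, Φ n (p.2 + h n * y₂ i p.1 p.2) with hH₂
    have cΦ : ContinuousOn (Φ n) HH := (hL.smooth n).continuousOn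
    have ca : ContinuousOn (fun p : ℝ × ℂ => wt (gw ρ) p.2) (univ ×ˢ K) :=
      (haS.continuousOn.mono hψU).comp continuousOn_snd fun p hp => hp.2
    have cψ : ContinuousOn (fun p : ℝ × ℂ => (ψ p.2 : ℂ)) (univ ×ˢ K) :=
      (Complex.continuous_ofReal.comp (hψ.continuous.comp continuous_snd)).continuousOn
    have cu : Continuous fun p : ℝ × ℂ => uu p.1 := continuous_uu.comp continuous_fst
    have cH₁ : ContinuousOn H₁ (univ ×ˢ K) := by
      refine cψ.mul (continuousOn_finsetProd _ fun i _ => ?_)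
      refine cΦ.comp (continuousOn_snd.add (continuousOn_const.mul (ca.mul (n2 i))))
        fun p hp => ?_
      exact (n1 p.2 hp.2 _ (hy1R i p.1 p.2 hp.2)).1
    have cH₂ : ContinuousOn H₂ (univ ×ˢ K) := by
      refine cψ.mul (continuousOn_finsetProd _ fun i _ => ?_)
      refine cΦ.comp (continuousOn_snd.add (continuousOn_const.mul
        (ca.mul ((cu.pow 2).mul continuous_const).continuousOn))) fun p hp => ?_
      exact (n1 p.2 hp.2 _ (hy2R i p.1 p.2 hp.2)).1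
    -- the first integral
    have hset : ∀ f : ℂ → ℝ, ∫ z, ψ z * f z = ∫ z in K, ψ z * f z := by
      intro f
      rw [setIntegral_eq_integral_of_forall_compl_eq_zero]
      intro z hz
      rw [image_eq_zero_of_notMem_tsupport hz, zero_mul]
    have hset' : ∀ f : ℂ → ℂ, ∫ z, (ψ z : ℂ) * f z = ∫ z in K, (ψ z : ℂ) * f z := by
      intro f
      rw [setIntegral_eq_integral_of_forall_compl_eq_zero]
      intro z hz
      rw [image_eq_zero_of_notMem_tsupport hz]; simp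
    have hval : ∀ i θ, ∀ z ∈ K, Berry.rWave ρ (φ n) (m n) (x i) (ofComplex z, θ)
        = φ n (ofComplex (z + h n * y₁ i θ z)) := fun i θ z hz => by
      have hx1 : ‖x i / ((m n * Real.exp (ρ (ofComplex z)) : ℝ) : ℂ)‖ < 1 := by
        have e1 : x i / ((m n * Real.exp (ρ (ofComplex z)) : ℝ) : ℂ)
            = x i * ((h n * em ρ z : ℝ) : ℂ) := by
          have e2 : (h n * em ρ z : ℝ) = (m n * Real.exp (ρ (ofComplex z)))⁻¹ := by
            simp only [hh, QE.em]
            rw [Real.exp_neg, mul_inv, one_div]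
          rw [e2, Complex.ofReal_inv, div_eq_mul_inv]
        rw [e1, norm_mul, Complex.norm_real, Real.norm_eq_abs, abs_mul, abs_of_pos (hpos n)]
        have e3 := hM2 z hz
        have e4 := hxX i
        calc ‖x i‖ * (h n * |em ρ z|) ≤ X * (h n * M') := by gcongr
          _ = h n * (X * M') := by ring
          _ < 1 := by linarith
      have := rWave_eq_disp (hmpos n) (x i) θ (hψU hz) hx1 (n := n) (h := h) rfl
        (a := wt (gw ρ)) (wt_gw (hψU hz)) (φ := φ n)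
      rw [this]
      simp only [hy₁]
      rw [mul_assoc]
      rfl
    have e1 : ((∫ z, ψ z * angProd ρ (φ n) (m n) x (ofComplex z) : ℝ) : ℂ)
        = ∫ θ, (∫ z in K, H₁ (θ, z)) ∂ang := by
      have e0 := integral_integral_swap (f := fun θ z => H₁ (θ, z)) (int_ang hKc cH₁)
      rw [e0, hset]
      refine (integral_ofReal (𝕜 := ℂ) (μ := volume.restrict K) (f := fun z : ℂ => ψ z
        * angProd ρ (φ n) (m n) x (ofComplex z))).symm.trans ?_
      refine setIntegral_congr_fun hKc.measurableSet fun z hz => ?_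
      change ((ψ z * angProd ρ (φ n) (m n) x (ofComplex z) : ℝ) : ℂ) = ∫ θ, H₁ (θ, z) ∂ang
      rw [Complex.ofReal_mul]
      have e2 : ((angProd ρ (φ n) (m n) x (ofComplex z) : ℝ) : ℂ)
          = ∫ θ, ∏ i, Φ n (z + h n * y₁ i θ z) ∂ang := by
        unfold angProd
        refine (integral_ofReal (𝕜 := ℂ) (μ := ang) (f := fun θ : ℝ => ∏ i,
          Berry.rWave ρ (φ n) (m n) (x i) (ofComplex z, θ))).symm.trans ?_
        congr 1
        funext θ
        change ((∏ i, Berry.rWave ρ (φ n) (m n) (x i) (ofComplex z, θ) : ℝ) : ℂ) = _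
        rw [Complex.ofReal_prod]
        refine Finset.prod_congr rfl fun i _ => ?_
        rw [hval i θ z hz]
      rw [e2, ← integral_const_mul]
    have e3 : ∫ θ, (∫ z, (ψ z : ℂ) * PD (gw ρ) h Φ x n θ z) ∂angle
        = ∫ θ, (∫ z in K, H₂ (θ, z)) ∂ang := by
      congr 1
      funext θ
      rw [hset']
      congr 1
      funext z
      simp only [hH₂, PD, hy₂]
      congr 1
      refine Finset.prod_congr rfl fun i _ => ?_
      congr 1
      unfold wt
      push_cast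
      ring
    have iθ₁ := int_ang_left hKc cH₁
    have iθ₂ := int_ang_left hKc cH₂
    rw [e1, e3, ← integral_sub iθ₁ iθ₂]
    have hSint : IntegrableOn (fun z => S n z ^ 2) K :=
      ((hSc n).pow 2).continuousOn.integrableOn_compact hKc
    have hin : ∀ θ, ‖(∫ z in K, H₁ (θ, z)) - ∫ z in K, H₂ (θ, z)‖
        ≤ B' * (6 * C) * (h n * ∫ z in K, S n z ^ 2) := by
      intro θ
      rw [← integral_sub ((sec_cont cH₁ θ).integrableOn_compact hKc)
        ((sec_cont cH₂ θ).integrableOn_compact hKc)]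
      have e5 : B' * (6 * C) * (h n * ∫ z in K, S n z ^ 2)
          = ∫ z in K, (B' * (6 * C) * h n) * S n z ^ 2 := by
        rw [integral_const_mul]; ring
      rw [e5]
      refine norm_integral_le_of_norm_le (hSint.const_mul _) ?_
      refine (ae_restrict_iff' hKc.measurableSet).2 (Eventually.of_forall fun z hz => ?_)
      have hs1 := hS1 n z
      have hs0 : 0 ≤ S n z := by linarith
      set Q := Real.sqrt (S n z) with hQ
      have hQ1 : 1 ≤ Q := Real.one_le_sqrt.2 hs1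
      have hQ2 : Q ^ 2 = S n z := Real.sq_sqrt hs0
      have hQ0 : 0 ≤ Q := by linarith
      have hle : ∀ w : ℂ, ‖w‖ ^ 2 ≤ S n z → ‖w‖ ≤ Q := fun w hw => Real.le_sqrt_of_sq_le hw
      have hd := fun i => diff_le isOpen_HH (hL.smooth n) (h := h n) (R := R) (M := Q) (z := z)
        (fun y hy => ⟨(n1 z hz y hy).1, hle _ (n1 z hz y hy).2.2.1, hle _ (n1 z hz y hy).2.2.2⟩)
        (hy1R i θ z hz) (hy2R i θ z hz)
      have hd' : ∀ i, ‖Φ n (z + h n * y₁ i θ z) - Φ n (z + h n * y₂ i θ z)‖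
          ≤ 2 * Q * (C * h n) := fun i => (hd i).trans (by
        have := hy12 i θ z hz
        gcongr)
      obtain ⟨hp, -⟩ := prod_diff Finset.univ (fun i => Φ n (z + h n * y₁ i θ z))
        (fun i => Φ n (z + h n * y₂ i θ z)) hQ1 (δ := 2 * Q * (C * h n)) (by positivity)
        (fun i => hle _ (n1 z hz _ (hy1R i θ z hz)).2.1)
        (fun i => hle _ (n1 z hz _ (hy2R i θ z hz)).2.1) hd'
      rw [Finset.card_univ, Fintype.card_fin] at hp
      have e6 : H₁ (θ, z) - H₂ (θ, z) = (ψ z : ℂ) * (∏ i, Φ n (z + h n * y₁ i θ z)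
          - ∏ i, Φ n (z + h n * y₂ i θ z)) := by
        simp only [hH₁, hH₂]; ring
      rw [e6, norm_mul, Complex.norm_real]
      have hpow : Q ^ r ≤ Q ^ 3 := pow_le_pow_right₀ hQ1 hr
      have hr3 : (r : ℝ) ≤ 3 := by exact_mod_cast hr
      have hCh : 0 ≤ C * h n := mul_nonneg hC0 hn
      have hp2 : (r : ℝ) * (2 * Q * (C * h n) * Q ^ r) ≤ 6 * C * h n * S n z ^ 2 := by
        calc (r : ℝ) * (2 * Q * (C * h n) * Q ^ r) ≤ 3 * (2 * Q * (C * h n) * Q ^ 3) := by
              gcongr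
          _ = 6 * C * h n * (Q ^ 2) ^ 2 := by ring
          _ = 6 * C * h n * S n z ^ 2 := by rw [hQ2]
      calc ‖ψ z‖ * ‖∏ i, Φ n (z + h n * y₁ i θ z) - ∏ i, Φ n (z + h n * y₂ i θ z)‖
          ≤ B' * (6 * C * h n * S n z ^ 2) :=
            mul_le_mul (hB2 z hz) (hp.trans hp2) (norm_nonneg _) hB0
        _ = B' * (6 * C) * h n * S n z ^ 2 := by ring
    have hfin := norm_integral_le_of_norm_le_const (μ := ang) (Eventually.of_forall hin)
    simpa using hfin
  refine squeeze_zero_norm' hbound ?_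
  have := hSl.const_mul (B' * (6 * C))
  simpa using this

end PTSU

/-- PTSU: the local theorem for the local waves at distinct points -/
theorem stmtPtsU (hTlU : StmtTlU) (hDsuU : StmtDsuU) : StmtPtsU := by
  intro ρ φ m hρ _ _ hL hE ψ hψ hψs hψU
  have hL' : LocU HH (gw ρ) (fun n => 1 / m n) (fun n z => (φ n (ofComplex z) : ℂ)) := hL
  have hgS : ContDiffOn ℝ ∞ (gw ρ) HH := by
    refine ContDiffOn.div (Real.contDiff_exp.comp_contDiffOn (contDiffOn_const.mul hρ))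
      (Complex.imCLM.contDiff.contDiffOn.pow 2) fun z hz => ?_
    have : (0 : ℝ) < z.im := hz
    exact (pow_pos this 2).ne'
  have hgpos : ∀ z ∈ HH, 0 < gw ρ z := fun z hz => by
    have : (0 : ℝ) < z.im := hz
    exact div_pos (Real.exp_pos _) (pow_pos this 2)
  have hT : Test HH (fun z => (ψ z : ℂ)) := by
    refine ⟨Complex.ofRealCLM.contDiff.comp hψ, ?_, ?_⟩
    · exact hψs.comp_left (g := fun t : ℝ => (t : ℂ)) (by simp)
    · refine (closure_mono ?_ : _ ⊆ tsupport ψ).trans hψU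
      intro z hz hz0
      apply hz
      simp [hz0]
  obtain ⟨t1, t2, t3⟩ := hTlU HH (gw ρ) _ _ isOpen_HH hgS hgpos hL' _ hT
  have t3' := t3 hE
  have key : ∀ {r : ℕ} (_ : r ≤ 3) (x : Fin r → ℂ) (c : ℕ → ℝ),
      Tendsto (fun n => (∫ θ, (∫ z, (ψ z : ℂ) * PD (gw ρ) (fun n => 1 / m n)
        (fun n z => (φ n (ofComplex z) : ℂ)) x n θ z) ∂angle) - (c n : ℂ)) atTop (𝓝 0) →
      Tendsto (fun n => (∫ z, ψ z * angProd ρ (φ n) (m n) x (ofComplex z)) - c n) atTop (𝓝 0) := by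
    intro r hr x c hc
    have h1 := PTSU.compare hDsuU hρ hL' hψ hψs hψU hr x
    have h2 := h1.add hc
    simp only [sub_add_sub_cancel, add_zero] at h2
    have h3 := (Complex.continuous_re.tendsto _).comp h2
    simpa [Function.comp_def] using h3
  refine ⟨fun x => ?_, fun x => ?_, fun x => ?_⟩
  · simpa using key (by norm_num) x (fun _ => 0) (by simpa using t1 x)
  · refine key (by norm_num) x _ ?_
    refine (t2 x).congr fun n => ?_
    congr 1
    have hint : ∫ z, (ψ z : ℂ) * (φ n (ofComplex z) : ℂ) ^ 2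
        = ((∫ z, ψ z * φ n (ofComplex z) ^ 2 : ℝ) : ℂ) := by
      refine Eq.trans ?_ (integral_ofReal (𝕜 := ℂ) (μ := volume)
        (f := fun z : ℂ => ψ z * φ n (ofComplex z) ^ 2))
      refine integral_congr_ae (Eventually.of_forall fun z => ?_)
      simp
    rw [hint]
    push_cast
    rfl
  · simpa using key le_rfl x (fun _ => 0) (by simpa using t3' x)

end

end U3


end
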