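import Mathlib
import Pool.Agent.BWM.C12
import Pool.Agent.BWM.C13
import Pool.Agent.BWM.C17
import Pool.Agent.BWM.C23
import Pool.Agent.BWM.C24
import Pool.Agent.BWM.C25
import Pool.Agent.BWM.C26
import Pool.Agent.BWM.C31
import Pool.Agent.BWM.C40

/-! Parts: U3.LWEU, U3.DSUU, U3.SRF, U3.AllT -/

section

/-!
Module LWEU: products of at most four mixed derivatives, multiplied by `h`, are small.
-/

open Complex MeasureTheory Filter Topology Set
open scoped ContDiff

namespace U3

open QE QJ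

noncomputable section

open QJ.LWE in
/-- LWEU: the error terms -/
theorem stmtLweU (hGroA : StmtGroA) (hIntA : StmtIntA) (hSml : StmtSml) (hLcz : StmtLcz) :
    StmtLweU := by
  intro U g h φ hU hg hpos H K hK hKU r a b hr
  obtain ⟨V, F, σ, φ', hKV, hVF, hFU, hF, hA⟩ := hLcz U g h φ hU hg hpos H K hK hKU
  have hL := hA.loc
  have hG := hGroA V σ h φ' hL
  have hS := hSml V σ h φ' hL
  have hsm : ∀ n, ContDiff ℝ ∞ (fun z => ∏ i, W h φ' (a i) (b i) n z) := fun n =>
    contDiff_prod fun i _ => contDiff_W hL.smφ (a i) (b i) n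
  have h1 := (hIntA V h φ' (fun n z => ∏ i, W h φ' (a i) (b i) n z) hL.hpos hL.hlim hL.smφ hG
    hsm).2.2.2.2 ((bq_prod r a b).mono hr) hS K hK hKV
  refine h1.congr fun n => ?_
  congr 1
  apply setIntegral_congr_fun hK.measurableSet
  intro z hz
  simp only
  congr 1
  exact Finset.prod_congr rfl fun i _ => W_congr hA.op hA.eφ (a i) (b i) n (hKV hz)

end

end U3


end

section

/-!
DSUU: the functions and their first derivatives at displaced points are dominated.
-/

open MeasureTheory Filter Topology Set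
open scoped ContDiff

namespace U3

open QE QJ

noncomputable section

namespace DSUU

/-- iterated Wirtinger derivatives of functions which agree on an open set agree there -/
lemma iter_congr {V : Set ℂ} (T : (ℂ → ℂ) → ℂ → ℂ)
    (hT : ∀ f g : ℂ → ℂ, (∀ z ∈ V, f z = g z) → ∀ z ∈ V, T f z = T g z) (a : ℕ) :
    ∀ f g : ℂ → ℂ, (∀ z ∈ V, f z = g z) → ∀ z ∈ V, T^[a] f z = T^[a] g z := by
  induction a with
  | zero => intro f g hfg z hz; exact hfg z hz
  | succ a ih =>
    intro f g hfg z hz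
    rw [Function.iterate_succ_apply, Function.iterate_succ_apply]
    exact ih (T f) (T g) (hT f g hfg) z hz

lemma ev_eq {V : Set ℂ} (hV : IsOpen V) {f g : ℂ → ℂ} (hfg : ∀ z ∈ V, f z = g z) {z : ℂ}
    (hz : z ∈ V) : f =ᶠ[𝓝 z] g := by
  filter_upwards [hV.mem_nhds hz] with w hw
  exact hfg w hw

lemma dz_congr {V : Set ℂ} (hV : IsOpen V) (f g : ℂ → ℂ) (hfg : ∀ z ∈ V, f z = g z) :
    ∀ z ∈ V, dz f z = dz g z := by
  intro z hz
  unfold dz
  rw [(ev_eq hV hfg hz).fderiv_eq]

lemma dzb_congr {V : Set ℂ} (hV : IsOpen V) (f g : ℂ → ℂ) (hfg : ∀ z ∈ V, f z = g z) :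
    ∀ z ∈ V, dzb f z = dzb g z := by
  intro z hz
  unfold dzb
  rw [(ev_eq hV hfg hz).fderiv_eq]

lemma W_congr {V : Set ℂ} (hV : IsOpen V) {h : ℕ → ℝ} {φ ψ : ℕ → ℂ → ℂ}
    (he : ∀ n, ∀ z ∈ V, φ n z = ψ n z) (a b n : ℕ) {z : ℂ} (hz : z ∈ V) :
    W h φ a b n z = W h ψ a b n z := by
  unfold W
  rw [iter_congr dz (dz_congr hV) a _ _ (iter_congr dzb (dzb_congr hV) b _ _ (he n)) z hz]

end DSUU

theorem stmtDsuU (hDspB : StmtDspB) (hLcz : StmtLcz) : StmtDsuU := by
  intro U g h φ hU hg hgp H K hK hKU R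
  obtain ⟨V, F, σ, ψ, hKV, -, -, -, A⟩ := hLcz U g h φ hU hg hgp H K hK hKU
  obtain ⟨S, h1, hc, hev, hlim⟩ := hDspB V σ h ψ A.loc K hK hKV 1 R
  refine ⟨S, h1, hc, ?_, hlim⟩
  filter_upwards [hev] with n hn z hz y hy
  obtain ⟨hV, hRR⟩ := hn z hz y hy
  have key : ∀ a b : ℕ, a ≤ 1 → b ≤ 1 → ‖W h φ a b n (z + h n * y)‖ ^ 2 ≤ S n z := by
    intro a b ha hb
    rw [← DSUU.W_congr A.op A.eφ a b n hV]
    exact (W_sq_le ha hb n _).trans hRR
  refine ⟨A.sub hV, ?_, ?_, ?_⟩
  · have := key 0 0 (by norm_num) (by norm_num)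
    simpa [W] using this
  · have := key 1 0 (by norm_num) (by norm_num)
    simpa [W] using this
  · have := key 0 1 (by norm_num) (by norm_num)
    simpa [W] using this

end

end U3


end

section

/-!
U3, step SRF: normalised eigenfunctions of closed surfaces satisfy the local hypotheses.
-/

open MeasureTheory Filter Topology Set UpperHalfPlane MatrixGroups
open scoped ContDiff

namespace U3

open QE QJ

noncomputable section

/-- SRF -/
theorem stmtSrf : StmtSrf := by
  intro Γ _ D ρ φ m hDm hD hK hρ hρΓ hφ hs hnorm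
  have hρc : Continuous ρ := QE.continuous_of_smooth hρ
  have geo : Berry.Geo Γ ρ D := (Berry.surf_of_cocompact hD hDm hK hρc hρΓ hφ).geo
  obtain ⟨N, hN⟩ := (hφ.tendsto.eventually_ge_atTop 1).exists_forall_of_atTop
  have hU : IsOpen {z : ℂ | 0 < z.im} := isOpen_lt continuous_const Complex.continuous_im
  have hsm : ∀ n, ContDiffOn ℝ ∞ (fun w : ℂ => (φ n (ofComplex w) : ℂ)) {w | 0 < w.im} := fun n =>
    Complex.ofRealCLM.contDiff.comp_contDiffOn (hs n)
  have hm1 : ∀ n, 1 ≤ m (n + N) := fun n => hN _ (Nat.le_add_left _ _)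
  refine ⟨N, fun n => lt_of_lt_of_le one_pos (hm1 n), ?_, ?_, fun n => hsm _, ?_, ?_, ?_⟩
  · intro n
    have := hm1 n
    positivity
  · have h1 : Tendsto (fun n => m (n + N)) atTop atTop :=
      hφ.tendsto.comp (tendsto_add_atTop_nat N)
    simpa [one_div, Function.comp_def] using tendsto_inv_atTop_zero.comp h1
  · intro n z _
    exact Complex.conj_ofReal _
  · intro n z hz
    have hz' : 0 < z.im := hz
    have hm := hm1 n
    have hm0 : m (n + N) ≠ 0 := by linarith
    have hcd : ContDiffAt ℝ 2 (fun w : ℂ => φ (n + N) (ofComplex w)) z :=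
      (hφ.smooth _).contDiffAt (hU.mem_nhds hz)
    have h4 := four_dz_dzb hcd
    have he := hφ.eigen (n + N) ⟨z, hz'⟩
    have hoc : ofComplex z = ⟨z, hz'⟩ := ofComplex_apply_of_im_pos hz'
    have hre : (z.im : ℝ) ^ 2 * (Laplacian.laplacian (fun w : ℂ => φ (n + N) (ofComplex w)) z)
        = - (m (n + N) ^ 2 * Real.exp (2 * ρ (ofComplex z)) * φ (n + N) (ofComplex z)) := by
      rw [hoc]; exact he
    have hrc : ((z.im : ℝ) : ℂ) ^ 2 * ((Laplacian.laplacian (fun w : ℂ =>
        φ (n + N) (ofComplex w)) z : ℝ) : ℂ) = - ((m (n + N) : ℂ) ^ 2 *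
          (Real.exp (2 * ρ (ofComplex z)) : ℂ) * (φ (n + N) (ofComplex z) : ℂ)) := by
      exact_mod_cast congrArg (fun x : ℝ => (x : ℂ)) hre
    rw [← h4] at hrc
    have him : ((z.im : ℝ) : ℂ) ≠ 0 := by exact_mod_cast hz'.ne'
    have hmc : (m (n + N) : ℂ) ≠ 0 := by exact_mod_cast hm0
    push_cast
    push_cast at hrc
    field_simp
    linear_combination hrc
  · intro K' hK' hK'U
    obtain ⟨C, -, hC⟩ := loc_le geo hρc hK hK' hK'U
    refine ⟨C, Eventually.of_forall fun n => ?_⟩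
    have h1 := hC (fun z => φ (n + N) z ^ 2) ((QE.continuous_of_smooth (hs _)).pow 2)
      (fun z => sq_nonneg _) (fun γ hγ z => by
        show φ (n + N) (γ • z) ^ 2 = φ (n + N) z ^ 2
        rw [hφ.invariant (n + N) γ hγ z])
    rw [hnorm (n + N), mul_one] at h1
    refine le_trans (le_of_eq ?_) h1
    refine integral_congr_ae (Eventually.of_forall fun z => ?_)
    simp only
    rw [Complex.norm_real, Real.norm_eq_abs, sq_abs]

end

end U3


end

section

/-!
The third order theorem for all eigenfunctions of closed surfaces of negative curvature: assembly.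
-/

namespace U3

theorem lweU : StmtLweU := stmtLweU groA stmtIntA sml stmtLcz
theorem lwU : StmtLwU := stmtLwU groA stmtIntA stmtIbpA stmtJetC jetW sml stmtLcz
theorem mainU : StmtMainU := stmtMainU QJ.wexp lweU
theorem logU : StmtLogU := stmtLogU mainU lwU QJ.pwt QJ.stmtIter
theorem dspB : StmtDspB := stmtDspB ptwB groA sml
theorem derB : StmtDerB := stmtDerB dspB stmtJetC
theorem relB : StmtRelB := stmtRelB dspB stmtJetC
theorem tpc : StmtTpc := stmtTpc derB relB QJ.stmtRad
theorem tlU : StmtTlU := stmtTlU tpc stmtLcz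
theorem dsuU : StmtDsuU := stmtDsuU dspB stmtLcz
theorem ptsU : StmtPtsU := stmtPtsU tlU dsuU
theorem srf : StmtSrf := stmtSrf
theorem fnU : StmtFnU := stmtFnU srf e3g QJ.stmtTest ptsU logU QJ.invg QJ.fub
theorem fnd : StmtFnd := stmtFnd srf e3g logU

end U3


end
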