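import Mathlib
import Pool.Agent.BWM.C05
import Pool.Agent.BWM.C08
import Pool.Agent.BWM.C11
import Pool.Agent.BWM.C13
import Pool.Agent.BWM.C14

/-! Parts: LibH11.Berry.Three, LibH11.Berry.Trip, LibH11.Berry.Trip2, LibH11.Berry.ALim3, LibH11.Berry.RFin3, LibH11.QEV.Fin, LibH11.QEV.Bridge, LibH11.QEV.Scale, LibH11.QEV.Unb -/

section

/-!
Vanishing of the one-point and three-point functions.
-/

open Complex Filter Topology MeasureTheory ProbabilityTheory Metric
open scoped ENNReal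

namespace Berry

noncomputable section

variable {Ω : Type*} [MeasurableSpace Ω] {P : Measure Ω} [IsProbabilityMeasure P]
  {F : ℂ → Ω → ℝ}

lemma IsZeta.norm {η : ℂ} (h : IsZeta η) : ‖η‖ = 1 := by
  have h1 : (‖η‖ ^ 2 : ℂ) = 1 := by rw [← mul_conj']; exact h.2
  have h2 : ‖η‖ ^ 2 = 1 := by exact_mod_cast h1
  nlinarith [norm_nonneg η]

lemma IsZeta.one_add_ne {η : ℂ} (h : IsZeta η) : 1 + η ≠ 0 := by
  intro h0
  have h1 : (1 + η) * (1 + starRingEnd ℂ η) = 1 := by
    linear_combination h.1 + h.2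
  rw [h0, zero_mul] at h1
  exact zero_ne_one h1

lemma IsZeta.conj {η : ℂ} (h : IsZeta η) : IsZeta (starRingEnd ℂ η) := by
  refine ⟨?_, ?_⟩
  · rw [conj_conj, add_comm]; exact h.1
  · rw [conj_conj, mul_comm]; exact h.2

variable (hF : InvWave P F) (h4 : MemLp (F 0) 4 P)

include hF h4 in
/-- products along the two directions `v`, `-ηv` have vanishing averages in `L²` -/
lemma InvWave.avg_transversal (h : FourPt P F) {η : ℂ} (hη : IsZeta η) (x₁ x₂ : ℂ) :
    Tendsto (fun R : ℝ => (⨍ s in ball (0:ℂ) R,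
      mulX P (hF.toL4 h4 (x₁ + s)) (hF.toL4 h4 (x₂ - η * s)) : Lp ℂ 2 P)) atTop (𝓝 0) := by
  have hcont := hF.continuous_toL4 h4
  set v := ∫ ω, F 0 ω ^ 2 ∂P with hv
  have hα : Continuous fun s : ℂ => x₁ + s := by fun_prop
  have hβ : Continuous fun s : ℂ => x₂ - η * s := by fun_prop
  set A : ℂ → Lp ℂ 2 P := fun s => mulX P (hF.toL4 h4 (x₁ + s)) (hF.toL4 h4 (x₂ - η * s)) with hA
  have hAc : Continuous A :=
    ((mulX P).continuous.comp (hcont.comp hα)).clm_apply (hcont.comp hβ)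
  have hη1 := hη.one_add_ne
  have hpair : Tendsto (fun R : ℝ => pairX P (⨍ s in ball (0:ℂ) R, A s)
      (⨍ s in ball (0:ℂ) R, A s)) atTop (𝓝 0) := by
    refine dbl_avg hAc hAc (g := Kc) (g' := fun s => Kc ((x₁ - x₂) + (1 + η) * s)) (C := 1)
      (q := fun s => -s) (q₂ := fun s => x₁ - x₂ + η * s) (q' := fun _ => 0) (v := v ^ 2)
      Kc_continuous Kc_van Kc_le (by positivity) (Kc_continuous.comp (by fun_prop))
      (Kc_lin_van hη1 _) (fun _ => Kc_le _) ?_
    intro s s'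
    have e1 : pairX P (A s) (A s') = C4 P (hF.toL4 h4 (x₁ + s)) (hF.toL4 h4 (x₂ - η * s))
        (hF.toL4 h4 (x₁ + s')) (hF.toL4 h4 (x₂ - η * s')) := rfl
    rw [e1, hF.C4_F, h, sub_zero, Complex.norm_real, Real.norm_eq_abs, Kc_norm, Kc_norm, Kc_norm]
    have k1 : waveK (x₁ + s' - (x₂ - η * s')) = waveK ((x₁ - x₂) + (1 + η) * (0 + s')) := by
      congr 1; ring
    have k2 : waveK (x₁ + s - (x₁ + s')) = waveK (-s + s') := by
      rw [← waveK_neg]; congr 1; ring
    have k3 : waveK (x₂ - η * s - (x₁ + s')) = waveK (x₁ - x₂ + η * s + s') := by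
      rw [← waveK_neg]; congr 1; ring
    rw [k1, k2, k3]
    have a1 := waveK_abs_le (x₁ + s - (x₂ - η * s))
    have a2 := waveK_abs_le (x₂ - η * s - (x₂ - η * s'))
    have a3 := waveK_abs_le (x₁ + s - (x₂ - η * s'))
    set u1 := waveK ((x₁ - x₂) + (1 + η) * (0 + s')) with hu1
    set u2 := waveK (-s + s') with hu2
    set u3 := waveK (x₁ - x₂ + η * s + s') with hu3
    set w1 := waveK (x₁ + s - (x₂ - η * s)) with hw1
    set w2 := waveK (x₂ - η * s - (x₂ - η * s')) with hw2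
    set w3 := waveK (x₁ + s - (x₂ - η * s')) with hw3
    have e2 : v ^ 2 * (w1 * u1 + u2 * w2 + w3 * u3)
        = v ^ 2 * (u2 * w2) + v ^ 2 * (w3 * u3) + v ^ 2 * (w1 * u1) := by ring
    rw [e2]
    have hv2 : (0:ℝ) ≤ v ^ 2 := by (clear * -; positivity)
    have b : ∀ u w : ℝ, |w| ≤ 1 → |v ^ 2 * (u * w)| ≤ v ^ 2 * |u| := by
      intro u w hw
      rw [abs_mul, abs_of_nonneg hv2, abs_mul]
      refine mul_le_mul_of_nonneg_left ?_ hv2
      nlinarith only [hw, abs_nonneg u]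
    refine (abs_add_three _ _ _).trans (add_le_add (add_le_add (b _ _ a2) ?_) ?_)
    · rw [mul_comm w3 u3]; exact b _ _ a3
    · rw [mul_comm w1 u1]; exact b _ _ a1
  rw [tendsto_zero_iff_norm_tendsto_zero]
  have h1 : ∀ R : ℝ, ‖(⨍ s in ball (0:ℂ) R, A s)‖ =
      Real.sqrt (pairX P (⨍ s in ball (0:ℂ) R, A s) (⨍ s in ball (0:ℂ) R, A s)).re := by
    intro R
    have hco := hF.avg_prod_coeFn h4 hα hβ R
    have n1 := norm_sq_sub_const _ _ hco 0
    have n2 := pairX_self_sub _ _ hco 0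
    rw [ofReal_zero, zero_smul, sub_zero] at n1 n2
    have n3 : ‖(⨍ s in ball (0:ℂ) R, A s)‖ ^ 2 =
        (pairX P (⨍ s in ball (0:ℂ) R, A s) (⨍ s in ball (0:ℂ) R, A s)).re := by
      rw [hA, n1, n2, ofReal_re]
    rw [← n3, Real.sqrt_sq (norm_nonneg _)]
  simp only [h1]
  have h2 := ((Complex.continuous_re.tendsto _).comp hpair).sqrt
  simpa [Function.comp_def] using h2

omit [IsProbabilityMeasure P] in
/-- smeared version of the vanishing of transversal averages -/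
lemma trans_mz {G : ℂ → Lp ℂ 4 P} (hG : Continuous G) {B : ℝ} (hB : ∀ x, ‖G x‖ ≤ B) {η : ℂ}
    (ht : ∀ x₁ x₂ c d, Tendsto (fun R : ℝ => ⨍ s in ball (0:ℂ) R,
      C4 P (G (x₁ + s)) (G (x₂ - η * s)) c d) atTop (𝓝 0))
    {ψ₁ ψ₂ : ℂ → ℂ} (h₁ : TestFn ψ₁) (h₂ : TestFn ψ₂) (t₁ t₂ : ℂ) (c d : Lp ℂ 4 P) :
    MZ (fun s => C4 P (smear ψ₁ G (t₁ + s)) (smear ψ₂ G (t₂ - η * s)) c d) := by
  obtain ⟨M, hM0, hM⟩ := C4_bound (P := P)
  have hB0 : 0 ≤ B := (norm_nonneg _).trans (hB 0)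
  have cs2 := smear_continuous hG h₂
  have cs1 := smear_continuous hG h₁
  set B₂ := (∫ y, ‖ψ₂ y‖) * B with hB₂
  have hB₂0 : 0 ≤ B₂ := mul_nonneg (integral_nonneg fun _ => norm_nonneg _) hB0
  have b2 : ∀ t, ‖smear ψ₂ G t‖ ≤ B₂ := smear_norm_le hB h₂
  have inner : ∀ x₁, MZ (fun s => C4 P (G (x₁ + s)) (smear ψ₂ G (t₂ - η * s)) c d) := by
    intro x₁
    set A : ℂ → ℂ → ℂ := fun s y => C4 P (G (x₁ + s)) (G (t₂ - y - η * s)) c d with hA
    have e : (fun s => C4 P (G (x₁ + s)) (smear ψ₂ G (t₂ - η * s)) c d)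
        = fun s => ∫ y, ψ₂ y * A s y := by
      funext s
      rw [C4_smear2 hG h₂]
      congr 1; funext y
      simp only [hA]
      have : t₂ - η * s - y = t₂ - y - η * s := by ring
      rw [this]
    have hcont : Continuous (fun s => C4 P (G (x₁ + s)) (smear ψ₂ G (t₂ - η * s)) c d) :=
      C4_comp_continuous (hG.comp (by fun_prop)) (cs2.comp (by fun_prop)) continuous_const
        continuous_const
    rw [e] at hcont ⊢
    have hAc : Continuous (Function.uncurry A) := by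
      simp only [hA, Function.uncurry_def]
      exact C4_comp_continuous (hG.comp (by fun_prop)) (hG.comp (by fun_prop))
          continuous_const continuous_const
    have hAb : ∀ s y, ‖A s y‖ ≤ M * B * B * ‖c‖ * ‖d‖ := by
      intro s y
      refine (hM _ _ _ _).trans ?_
      gcongr <;> exact hB _
    exact MZ.smear hAc hAb h₂ hcont (fun y => ht x₁ (t₂ - y) c d)
  set A : ℂ → ℂ → ℂ := fun s y => C4 P (G (t₁ - y + s)) (smear ψ₂ G (t₂ - η * s)) c d with hA
  have e : (fun s => C4 P (smear ψ₁ G (t₁ + s)) (smear ψ₂ G (t₂ - η * s)) c d)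
      = fun s => ∫ y, ψ₁ y * A s y := by
    funext s
    rw [C4_smear1 hG h₁]
    congr 1; funext y
    simp only [hA]
    have : t₁ + s - y = t₁ - y + s := by ring
    rw [this]
  have hcont : Continuous (fun s => C4 P (smear ψ₁ G (t₁ + s)) (smear ψ₂ G (t₂ - η * s)) c d) :=
    C4_comp_continuous (cs1.comp (by fun_prop)) (cs2.comp (by fun_prop)) continuous_const
      continuous_const
  rw [e] at hcont ⊢
  have hAc : Continuous (Function.uncurry A) := by
    simp only [hA, Function.uncurry_def]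
    exact C4_comp_continuous (hG.comp (by fun_prop)) (cs2.comp (by fun_prop))
        continuous_const continuous_const
  have hAb : ∀ s y, ‖A s y‖ ≤ M * B * B₂ * ‖c‖ * ‖d‖ := by
    intro s y
    refine (hM _ _ _ _).trans ?_
    gcongr
    · exact hB _
    · exact b2 _
  exact MZ.smear hAc hAb h₁ hcont (fun y => (inner (t₁ - y)).2)

/-- the primitive cube root of unity -/
def zeta : ℂ := ⟨-(1/2), Real.sqrt 3 / 2⟩

lemma zeta_isZeta : IsZeta zeta := by
  have h3 : Real.sqrt 3 * Real.sqrt 3 = 3 := Real.mul_self_sqrt (by norm_num)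
  constructor
  · apply Complex.ext <;> simp [zeta] <;> norm_num
  · apply Complex.ext
    · simp [zeta]; nlinarith
    · simp [zeta]; ring

include hF h4 in
/-- the three-point function vanishes -/
theorem InvWave.three_point (h : FourPt P F) (x₁ x₂ x₃ : ℂ) :
    ∫ ω, F x₁ ω * F x₂ ω * F x₃ ω ∂P = 0 := by
  have hG := hF.continuous_toL4 h4
  have hW := hF.weakHelm h4
  have hB : ∀ x, ‖hF.toL4 h4 x‖ ≤ ‖hF.toL4 h4 0‖ := fun x => (hF.norm_toL4 h4 x).le
  have ht : ∀ {η : ℂ}, IsZeta η → ∀ x₁ x₂ c d, Tendsto (fun R : ℝ => ⨍ s in ball (0:ℂ) R,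
      C4 P (hF.toL4 h4 (x₁ + s)) (hF.toL4 h4 (x₂ - η * s)) c d) atTop (𝓝 0) := by
    intro η hη x₁ x₂ c d
    have h1 := hF.avg_transversal h4 h hη x₁ x₂
    have h2 : Tendsto (fun R : ℝ => pairX P (⨍ s in ball (0:ℂ) R,
      mulX P (hF.toL4 h4 (x₁ + s)) (hF.toL4 h4 (x₂ - η * s))) (mulX P c d)) atTop
      (𝓝 (pairX P 0 (mulX P c d))) :=
      (((pairX P).flip (mulX P c d)).continuous.tendsto _).comp h1
    have h3 : pairX P 0 (mulX P c d) = 0 := by simp
    rw [h3] at h2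
    refine h2.congr fun R => ?_
    rw [pairX_avg]
    · rfl
    · exact ((mulX P).continuous.comp (hG.comp (by fun_prop))).clm_apply (hG.comp (by fun_prop))
  have hsm : ∀ {φ₁ φ₂ φ₃ : ℂ → ℂ} (k₁ : TestFn φ₁) (k₂ : TestFn φ₂) (k₃ : TestFn φ₃)
      (t₁ t₂ t₃ : ℂ), C3 P (smear φ₁ (hF.toL4 h4) t₁) (smear φ₂ (hF.toL4 h4) t₂)
        (smear φ₃ (hF.toL4 h4) t₃) = 0 := by
    intro φ₁ φ₂ φ₃ k₁ k₂ k₃ t₁ t₂ t₃
    exact core3 (Q := QC3 P (smearLadder hG hW k₁) (smearLadder hG hW k₂) (smearLadder hG hW k₃))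
      zeta_isZeta (QC3_der _ _ _)
      (fun a b c t₁ t₂ t₃ s => C3_smear_shift hG (hF.C3_shift h4) (tl_testFn k₁ a)
        (tl_testFn k₂ b) (tl_testFn k₃ c) t₁ t₂ t₃ s) MZ
      (fun g h hg hh => hg.add hh) (fun k g hg => hg.const_mul k) (fun k hk => hk.const)
      (fun a b c t₁ t₂ t₃ => trans_mz hG hB (ht zeta_isZeta.conj) (tl_testFn k₁ a)
        (tl_testFn k₂ b) t₁ t₂ _ _)
      (fun a b c t₁ t₂ t₃ => trans_mz hG hB (ht zeta_isZeta) (tl_testFn k₁ a)
        (tl_testFn k₂ b) t₁ t₂ _ _) 0 0 0 t₁ t₂ t₃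
  have L := C4_tendsto (smear_approxId hG x₁) (smear_approxId hG x₂) (smear_approxId hG x₃)
    (tendsto_const_nhds (x := one4 P))
  have hz : C3 P (hF.toL4 h4 x₁) (hF.toL4 h4 x₂) (hF.toL4 h4 x₃) = 0 := by
    refine tendsto_nhds_unique L ?_
    refine tendsto_const_nhds.congr fun n => ?_
    exact (hsm (approxId_testFn n) (approxId_testFn n) (approxId_testFn n) x₁ x₂ x₃).symm
  rw [hF.C3_F] at hz
  exact_mod_cast hz

include hF h4 in
/-- the one-point function vanishes -/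
theorem InvWave.one_point (x : ℂ) : ∫ ω, F x ω ∂P = 0 := by
  have hG := hF.continuous_toL4 h4
  have hW := hF.weakHelm h4
  have e1 : ∀ x, C4 P (hF.toL4 h4 x) (one4 P) (one4 P) (one4 P) = ((∫ ω, F x ω ∂P : ℝ) : ℂ) := by
    intro x
    rw [C4_eq, ← integral_complex_ofReal]
    apply integral_congr_ae
    filter_upwards [hF.coeFn_toL4 h4 x, coeFn_one4 (P := P)] with ω h1 h2
    rw [h1, h2]; ring
  have hsh : ∀ x, ∫ ω, F x ω ∂P = ∫ ω, F 0 ω ∂P := fun x => (hF.identDistrib x).integral_eq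
  have hsm : ∀ {φ : ℂ → ℂ} (_ : TestFn φ) (t : ℂ),
      C4 P (smear φ (hF.toL4 h4) t) (one4 P) (one4 P) (one4 P) = 0 := by
    intro φ hφ t
    set f := smearLadder hG hW hφ with hf
    have hconst : ∀ a t s, C4 P (f a (t + s)) (one4 P) (one4 P) (one4 P)
        = C4 P (f a t) (one4 P) (one4 P) (one4 P) := by
      intro a t s
      have hψ := tl_testFn hφ a
      change C4 P (smear (tl φ a) _ (t + s)) _ _ _ = C4 P (smear (tl φ a) _ t) _ _ _
      rw [C4_smear1 hG hψ, C4_smear1 hG hψ]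
      congr 1; funext y; congr 1
      rw [e1, e1, hsh, hsh (t - y)]
    have hd : ∀ a t v, lad v (C4 P (f (a+1) t) (one4 P) (one4 P) (one4 P))
        (C4 P (f (a-1) t) (one4 P) (one4 P) (one4 P)) = 0 := by
      intro a t v
      have h := C4_hasDerivAt (f.deriv' a t v) (hasDerivAt_const (0:ℝ) (one4 P))
        (hasDerivAt_const (0:ℝ) (one4 P)) (hasDerivAt_const (0:ℝ) (one4 P))
      have h2 : (fun s : ℝ => C4 P (f a (t + s * v)) (one4 P) (one4 P) (one4 P))
          = fun _ => C4 P (f a t) (one4 P) (one4 P) (one4 P) := by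
        funext s; exact hconst a t _
      rw [h2] at h
      have h3 := h.unique (hasDerivAt_const _ _)
      have z1 : ∀ x y z : Lp ℂ 4 P, C4 P x 0 y z = 0 := fun x y z => by simp [C4]
      have z2 : ∀ x y z : Lp ℂ 4 P, C4 P x y 0 z = 0 := fun x y z => by simp [C4]
      have z3 : ∀ x y z : Lp ℂ 4 P, C4 P x y z 0 = 0 := fun x y z => by simp [C4]
      rw [z1, z2, z3, C4_sub1, C4_smul1, C4_smul1] at h3
      simpa [lad] using h3
    have h0 := lad_zero_imp (p := ![C4 P (f (-1+1) t) (one4 P) (one4 P) (one4 P), 0, 0, 0])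
      (m := ![C4 P (f (-1-1) t) (one4 P) (one4 P) (one4 P), 0, 0, 0]) (by
        intro v
        have := hd (-1) t v
        simp only [lad] at this ⊢
        simpa using this)
    have h1 := h0.1
    simp at h1
    exact h1
  have L := C4_tendsto (smear_approxId hG x) (tendsto_const_nhds (x := one4 P))
    (tendsto_const_nhds (x := one4 P)) (tendsto_const_nhds (x := one4 P))
  have hz : C4 P (hF.toL4 h4 x) (one4 P) (one4 P) (one4 P) = 0 := by
    refine tendsto_nhds_unique L ?_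
    refine tendsto_const_nhds.congr fun n => ?_
    exact (hsm (approxId_testFn n) x).symm
  rw [e1] at hz
  exact_mod_cast hz

end

end Berry


end

section

/-!
Three-point functions of pair processes with Gaussian four-point functions vanish.
-/

open Complex Filter Topology MeasureTheory Metric InnerProductSpace Laplacian
open scoped ENNReal

namespace Berry

noncomputable section

/-! ### Ladders in three variables -/

/-- continuous bounded functions of four planar variables solving the Helmholtz equation in each of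
the first three variables -/
structure Hel3 (C : (Fin 4 → ℂ) → ℂ) : Prop where
  cont : Continuous C
  bdd : ∃ B : ℝ, ∀ x, ‖C x‖ ≤ B
  helm : ∀ j : Fin 4, j ≠ 3 → ∀ x, WeakHelm (fun z => C (Function.update x j z))

lemma sm_lad3 {C : (Fin 4 → ℂ) → ℂ} (hC : Continuous C) {ψ : Fin 4 → ℂ → ℂ}
    (h : ∀ j, TestFn (ψ j)) {φ : ℂ → ℂ} (hφ : TestFn φ) (a : ℤ) (j : Fin 4)
    (hj : ∀ x, WeakHelm (fun z => C (Function.update x j z)))
    (t : Fin 4 → ℂ) (v : ℂ) :
    sm (Function.update ψ j (fun z => fderiv ℝ (tl φ a) z v)) C t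
      = lad v (sm (Function.update ψ j (tl φ (a+1))) C t)
        (sm (Function.update ψ j (tl φ (a-1))) C t) := by
  have hψ := tl_testFn hφ a
  have e : (fun z => fderiv ℝ (tl φ a) z v) = fun z =>
      (starRingEnd ℂ v / 2) * Wop (tl φ a) z + (v / 2) * Vop (tl φ a) z := by
    funext y; exact fderiv_eq_wop_vop _ _ _
  rw [e, sm_update_lin hC h hψ.wop hψ.vop]
  have h1 : sm (Function.update ψ j (Wop (tl φ a))) C t
      = sm (Function.update ψ j (tl φ (a+1))) C t := by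
    apply sm_slot hC h hψ.wop (tl_testFn hφ (a+1))
    intro x
    exact smear_wop_tl (hj x) hφ a (t j)
  have h2 : sm (Function.update ψ j (Vop (tl φ a))) C t
      = - sm (Function.update ψ j (tl φ (a-1))) C t := by
    have h3 : sm (Function.update ψ j (Vop (tl φ a))) C t
      = sm (Function.update ψ j (fun z => (-1) * tl φ (a-1) z + 0 * tl φ (a-1) z)) C t := by
      apply sm_slot hC h hψ.vop
      · exact ((tl_testFn hφ (a-1)).const_mul (-1)).add ((tl_testFn hφ (a-1)).const_mul 0)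
      intro x
      have := smear_vop_tl (hj x) hφ a (t j)
      simp only [smear, smul_eq_mul] at this
      rw [this, ← integral_neg]
      congr 1; funext z; ring
    rw [h3, sm_update_lin hC h (tl_testFn hφ (a-1)) (tl_testFn hφ (a-1))]
    ring
  rw [h1, h2]
  simp only [lad]
  ring

/-- the ladder family in three variables attached to a function of four variables -/
def Q3 (φ : Fin 4 → ℂ → ℂ) (C : (Fin 4 → ℂ) → ℂ) : ℤ → ℤ → ℤ → ℂ → ℂ → ℂ → ℂ :=
  fun a b c t₁ t₂ t₃ =>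
    sm ![tl (φ 0) a, tl (φ 1) b, tl (φ 2) c, tl (φ 3) 0] C ![t₁, t₂, t₃, 0]

lemma Q3_der {φ : Fin 4 → ℂ → ℂ} (h : ∀ j, TestFn (φ j)) {C : (Fin 4 → ℂ) → ℂ} (hC : Hel3 C) :
    Der3 (Q3 φ C) := by
  intro a b c t₁ t₂ t₃ v₁ v₂ v₃
  have hv := vec_testFn h a b c 0
  have h1 := sm_hasDerivAt hC.cont hv ![t₁, t₂, t₃, 0] ![v₁, v₂, v₃, 0]
  have e1 : (fun s : ℝ => sm ![tl (φ 0) a, tl (φ 1) b, tl (φ 2) c, tl (φ 3) 0] C
      (![t₁, t₂, t₃, 0] + s • ![v₁, v₂, v₃, 0]))
      = fun s : ℝ => Q3 φ C a b c (t₁ + s * v₁) (t₂ + s * v₂) (t₃ + s * v₃) := by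
    funext s
    unfold Q3
    congr 1
    funext i
    fin_cases i <;> simp
  rw [e1] at h1
  refine h1.congr_deriv ?_
  rw [Fin.sum_univ_four]
  simp only [Matrix.cons_val_zero, Matrix.cons_val_one, Matrix.cons_val]
  rw [sm_lad3 hC.cont hv (h 0) a 0 (hC.helm 0 (by decide)),
    sm_lad3 hC.cont hv (h 1) b 1 (hC.helm 1 (by decide)),
    sm_lad3 hC.cont hv (h 2) c 2 (hC.helm 2 (by decide))]
  have z3 : sm (Function.update (![tl (φ 0) a, tl (φ 1) b, tl (φ 2) c, tl (φ 3) 0] :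
      Fin 4 → ℂ → ℂ) 3 (fun z => fderiv ℝ (tl (φ 3) 0) z 0)) C ![t₁, t₂, t₃, 0] = 0 := by
    unfold sm
    simp only [ten_update, map_zero, zero_mul, integral_zero]
  rw [z3, add_zero]
  have u0 : ∀ z : ℂ → ℂ, Function.update (![tl (φ 0) a, tl (φ 1) b, tl (φ 2) c, tl (φ 3) 0] : Fin 4 → ℂ → ℂ) 0 z
    = ![z, tl (φ 1) b, tl (φ 2) c, tl (φ 3) 0] := by
    intro z; funext i; fin_cases i <;> simp
  have u1 : ∀ z : ℂ → ℂ, Function.update (![tl (φ 0) a, tl (φ 1) b, tl (φ 2) c, tl (φ 3) 0] : Fin 4 → ℂ → ℂ) 1 z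
    = ![tl (φ 0) a, z, tl (φ 2) c, tl (φ 3) 0] := by
    intro z; funext i; fin_cases i <;> simp
  have u2 : ∀ z : ℂ → ℂ, Function.update (![tl (φ 0) a, tl (φ 1) b, tl (φ 2) c, tl (φ 3) 0] : Fin 4 → ℂ → ℂ) 2 z
    = ![tl (φ 0) a, tl (φ 1) b, z, tl (φ 3) 0] := by
    intro z; funext i; fin_cases i <;> simp
  simp only [u0, u1, u2]
  rfl

/-- a function of three variables, invariant under joint translations, monochromatic in each
variable, and with vanishing transversal means, vanishes -/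
theorem three_general {C : (Fin 4 → ℂ) → ℂ} (hC : Hel3 C)
    (iC : ∀ x (s : ℂ), C (x + s • ![1, 1, 1, 0]) = C x)
    (hz : ∀ η : ℂ, IsZeta η → ∀ x, Tendsto (fun R : ℝ => ⨍ s in ball (0:ℂ) R,
      C (x + s • ![1, -η, 0, 0])) atTop (𝓝 0)) (t₁ t₂ t₃ : ℂ) : C ![t₁, t₂, t₃, 0] = 0 := by
  obtain ⟨B, hB⟩ := hC.bdd
  have key : ∀ n, sm (aid n) C ![t₁, t₂, t₃, 0] = 0 := by
    intro n
    have h := aid_testFn n
    have hφ : aid n = ![tl (aid n 0) 0, tl (aid n 1) 0, tl (aid n 2) 0, tl (aid n 3) 0] := by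
      funext i; fin_cases i <;> rfl
    have htr : ∀ η : ℂ, IsZeta η → ∀ a b c t₁ t₂ t₃,
        MZ (fun s => Q3 (aid n) C a b c (t₁ + s) (t₂ - η * s) t₃) := by
      intro η hη a b c t₁ t₂ t₃
      have h1 := sm_mz hC.cont hB (vec_testFn h a b c 0) ![1, -η, 0, 0] (hz η hη) ![t₁, t₂, t₃, 0]
      simp only [vec_add_smul, mul_one, mul_zero, add_zero] at h1
      have e : ∀ s : ℂ, t₂ - η * s = t₂ + s * -η := fun s => by ring
      simp only [Q3, e]
      exact h1
    have := core3 (Q := Q3 (aid n) C) zeta_isZeta (Q3_der h hC)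
      (fun a b c t₁ t₂ t₃ s => by
        have h1 := sm_inv (fun x => iC x s) ![tl (aid n 0) a, tl (aid n 1) b, tl (aid n 2) c,
          tl (aid n 3) 0] ![t₁, t₂, t₃, 0]
        rw [vec_add_smul] at h1
        simp only [mul_one, mul_zero, add_zero] at h1
        exact h1) MZ
      (fun g h hg hh => hg.add hh) (fun k g hg => hg.const_mul k) (fun k hk => hk.const)
      (fun a b c t₁ t₂ t₃ => htr _ zeta_isZeta.conj a b c t₁ t₂ t₃)
      (fun a b c t₁ t₂ t₃ => htr _ zeta_isZeta a b c t₁ t₂ t₃) 0 0 0 t₁ t₂ t₃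
    unfold Q3 at this
    rw [← hφ] at this
    exact this
  have h1 := sm_aid_tendsto hC.cont ![t₁, t₂, t₃, 0]
  simp only [key] at h1
  exact (tendsto_nhds_unique h1 tendsto_const_nhds)

/-! ### Weak Helmholtz equation for vector valued functions -/

section Vec

variable {H : Type*} [NormedAddCommGroup H] [InnerProductSpace ℝ H] [CompleteSpace H]

/-- if a smearing of `g` vanishes against all values of `g`, it vanishes against all vectors -/
lemma vec_smear_zero {g : ℂ → H} (hg : Continuous g) {χ : ℂ → ℂ} (hχ : TestFn χ) (t : ℂ)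
    (h0 : ∀ x', smear χ (fun x => ((inner ℝ (g x) (g x') : ℝ) : ℂ)) t = 0) (w : H) :
    smear χ (fun x => ((inner ℝ (g x) w : ℝ) : ℂ)) t = 0 := by
  set G : ℂ → H := fun y => g (t - y) with hG
  have hGc : Continuous G := hg.comp (by fun_prop)
  have hre : Continuous fun y => (χ y).re := Complex.continuous_re.comp hχ.continuous
  have him : Continuous fun y => (χ y).im := Complex.continuous_im.comp hχ.continuous
  have sre : HasCompactSupport fun y => (χ y).re := hχ.2.comp_left (g := Complex.re) rfl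
  have sim : HasCompactSupport fun y => (χ y).im := hχ.2.comp_left (g := Complex.im) rfl
  have i1 : Integrable fun y => (χ y).re • G y :=
    (hre.smul hGc).integrable_of_hasCompactSupport sre.smul_right
  have i2 : Integrable fun y => (χ y).im • G y :=
    (him.smul hGc).integrable_of_hasCompactSupport sim.smul_right
  set v₁ := ∫ y, (χ y).re • G y with hv₁
  set v₂ := ∫ y, (χ y).im • G y with hv₂
  have e1 : ∀ w, inner ℝ v₁ w = ∫ y, (χ y).re * inner ℝ (G y) w := by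
    intro w
    rw [real_inner_comm, hv₁, ← integral_inner i1 w]
    congr 1; funext y
    rw [inner_smul_right, real_inner_comm]
  have e2 : ∀ w, inner ℝ v₂ w = ∫ y, (χ y).im * inner ℝ (G y) w := by
    intro w
    rw [real_inner_comm, hv₂, ← integral_inner i2 w]
    congr 1; funext y
    rw [inner_smul_right, real_inner_comm]
  have key : ∀ w, smear χ (fun x => ((inner ℝ (g x) w : ℝ) : ℂ)) t
      = ((inner ℝ v₁ w : ℝ) : ℂ) + Complex.I * ((inner ℝ v₂ w : ℝ) : ℂ) := by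
    intro w
    rw [e1, e2]
    have hc : Continuous fun y => inner ℝ (G y) w := hGc.inner continuous_const
    have j1 : Integrable fun y => (χ y).re * inner ℝ (G y) w :=
      (hre.mul hc).integrable_of_hasCompactSupport sre.mul_right
    have j2 : Integrable fun y => (χ y).im * inner ℝ (G y) w :=
      (him.mul hc).integrable_of_hasCompactSupport sim.mul_right
    rw [← integral_complex_ofReal, ← integral_complex_ofReal, ← integral_const_mul,
      ← integral_add j1.ofReal (j2.ofReal.const_mul _)]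
    unfold smear
    congr 1; funext y
    have e3 : χ y = ((χ y).re : ℂ) + Complex.I * ((χ y).im : ℂ) := by
      conv_lhs => rw [← Complex.re_add_im (χ y)]
      ring
    rw [smul_eq_mul]
    nth_rewrite 1 [e3]
    push_cast
    ring
  have hz : ∀ x', inner ℝ v₁ (g x') = 0 ∧ inner ℝ v₂ (g x') = 0 := by
    intro x'
    have h1 := h0 x'
    rw [key] at h1
    have hr := congrArg Complex.re h1
    have hi := congrArg Complex.im h1
    simp at hr hi
    exact ⟨hr, hi⟩
  have hv1 : v₁ = 0 := by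
    have : inner ℝ v₁ v₁ = 0 := by
      rw [e1]
      have : ∀ y, inner ℝ (G y) v₁ = 0 := fun y => by
        rw [real_inner_comm]; exact (hz (t - y)).1
      simp only [this, mul_zero, integral_zero]
    exact inner_self_eq_zero.1 this
  have hv2 : v₂ = 0 := by
    have : inner ℝ v₂ v₂ = 0 := by
      rw [e2]
      have : ∀ y, inner ℝ (G y) v₂ = 0 := fun y => by
        rw [real_inner_comm]; exact (hz (t - y)).2
      simp only [this, mul_zero, integral_zero]
    exact inner_self_eq_zero.1 this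
  rw [key, hv1, hv2, inner_zero_left]
  simp

/-- a Hilbert space valued function is monochromatic as soon as its kernel is -/
lemma vec_helm {g : ℂ → H} (hg : Continuous g)
    (h0 : ∀ x', WeakHelm (fun x => ((inner ℝ (g x) (g x') : ℝ) : ℂ))) (w : H) :
    WeakHelm (fun x => ((inner ℝ (g x) w : ℝ) : ℂ)) := by
  intro ψ hψ t
  have gen : ∀ {χ : ℂ → ℂ}, TestFn χ →
      (∀ x', smear χ (fun x => ((inner ℝ (g x) (g x') : ℝ) : ℂ)) t
        = - smear ψ (fun x => ((inner ℝ (g x) (g x') : ℝ) : ℂ)) t) →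
      smear χ (fun x => ((inner ℝ (g x) w : ℝ) : ℂ)) t
        = - smear ψ (fun x => ((inner ℝ (g x) w : ℝ) : ℂ)) t := by
    intro χ hχ h1
    have hsum : TestFn (fun y => χ y + ψ y) := hχ.add hψ
    have hadd : ∀ w, smear (fun y => χ y + ψ y) (fun x => ((inner ℝ (g x) w : ℝ) : ℂ)) t
        = smear χ (fun x => ((inner ℝ (g x) w : ℝ) : ℂ)) t
          + smear ψ (fun x => ((inner ℝ (g x) w : ℝ) : ℂ)) t := by
      intro w
      have hc : Continuous fun x => ((inner ℝ (g x) w : ℝ) : ℂ) :=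
        Complex.continuous_ofReal.comp (hg.inner continuous_const)
      unfold smear
      rw [← integral_add (smear_integrable hχ.continuous hχ.2 hc t)
        (smear_integrable hψ.continuous hψ.2 hc t)]
      congr 1; funext y; rw [add_smul]
    have h2 := vec_smear_zero hg hsum t (fun x' => by rw [hadd, h1 x']; ring) w
    rw [hadd] at h2
    linear_combination h2
  exact ⟨gen hψ.vop.wop fun x' => (h0 x' ψ hψ t).1, gen hψ.wop.vop fun x' => (h0 x' ψ hψ t).2⟩

end Vec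

end

end Berry


end

section

/-!
Three-point functions of pair processes with Gaussian four-point functions vanish.
-/

open Complex Filter Topology MeasureTheory Metric InnerProductSpace Laplacian
open scoped ENNReal

namespace Berry

noncomputable section

variable {H : Type*} [NormedAddCommGroup H] [InnerProductSpace ℝ H] [CompleteSpace H]
  {u : ℂ → ℂ → H} {f : ℂ → H}

/-- averages of processes with small correlations vanish -/
lemma dbl_avgH {A : ℂ → H} (hA : Continuous A)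
    {g : ℂ → ℂ} (hg : Continuous g) (hv : VanInf g) {C : ℝ} (hC : ∀ s, ‖g s‖ ≤ C)
    {q q₂ q' : ℂ → ℂ} {v : ℝ} (hv0 : 0 ≤ v) {g' : ℂ → ℂ} (hg' : Continuous g') (hv' : VanInf g')
    (hC' : ∀ s, ‖g' s‖ ≤ C)
    (hb : ∀ s s', |inner ℝ (A s') (A s)| ≤ v * ‖g (q s + s')‖ + v * ‖g (q₂ s + s')‖
      + v * ‖g' (q' s + s')‖) :
    Tendsto (fun R : ℝ => ⨍ s in ball (0:ℂ) R, A s) atTop (𝓝 0) := by
  rw [tendsto_zero_iff_norm_tendsto_zero]
  have hsq : Tendsto (fun R : ℝ => ‖⨍ s in ball (0:ℂ) R, A s‖ ^ 2) atTop (𝓝 0) := by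
    rw [Metric.tendsto_atTop]
    intro ε hε
    obtain ⟨R₀, hR₀, h1⟩ := unif_avg hg hv hC (ε / (6 * (v + 1))) (by positivity)
    obtain ⟨R₁, hR₁, h2⟩ := unif_avg hg' hv' hC' (ε / (6 * (v + 1))) (by positivity)
    refine ⟨max R₀ R₁, fun R hR => ?_⟩
    have hRpos : 0 < R := lt_of_lt_of_le hR₀ ((le_max_left _ _).trans hR)
    rw [Real.dist_eq, sub_zero, abs_of_nonneg (sq_nonneg _), ← real_inner_self_eq_norm_sq,
      PairP.inner_avg hA]
    set W := ⨍ s in ball (0:ℂ) R, A s with hW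
    have hcW : Continuous fun s => inner ℝ (A s) W := hA.inner continuous_const
    refine lt_of_le_of_lt (le_abs_self _) (lt_of_le_of_lt ?_ (half_lt_self hε))
    rw [← Real.norm_eq_abs]
    refine (avg_norm_le _ R).trans (avg_le_of_le hcW.norm (fun s => ?_) hRpos)
    have e1 : inner ℝ (A s) W = ⨍ s' in ball (0:ℂ) R, inner ℝ (A s') (A s) := by
      rw [real_inner_comm, hW, PairP.inner_avg hA]
    rw [e1]
    have hcB : Continuous fun s' => inner ℝ (A s') (A s) := hA.inner continuous_const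
    refine (avg_norm_le _ R).trans ?_
    have c1 : Continuous fun s' => v * ‖g (q s + s')‖ :=
      continuous_const.mul (hg.comp (continuous_const.add continuous_id)).norm
    have c1' : Continuous fun s' => v * ‖g (q₂ s + s')‖ :=
      continuous_const.mul (hg.comp (continuous_const.add continuous_id)).norm
    have c2 : Continuous fun s' => v * ‖g' (q' s + s')‖ :=
      continuous_const.mul (hg'.comp (continuous_const.add continuous_id)).norm
    have c11 : Continuous fun s' => v * ‖g (q s + s')‖ + v * ‖g (q₂ s + s')‖ := c1.add c1'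
    have c12 : Continuous fun s' => v * ‖g (q s + s')‖ + v * ‖g (q₂ s + s')‖
      + v * ‖g' (q' s + s')‖ := c11.add c2
    refine (avg_mono hcB.norm c12 (fun s' => by
      rw [Real.norm_eq_abs]; exact hb s s') R).trans ?_
    rw [avg_add c11 c2 R, avg_add c1 c1' R]
    have hm : ∀ (k : ℂ → ℂ) (p : ℂ), ⨍ s' in ball (0:ℂ) R, v * ‖k (p + s')‖
        = v * ⨍ s' in ball (0:ℂ) R, ‖k (p + s')‖ := by
      intro k p
      rw [setAverage_eq, setAverage_eq, integral_const_mul, smul_eq_mul, smul_eq_mul]; ring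
    rw [hm g (q s), hm g (q₂ s), hm g' (q' s)]
    have hsm : ∀ z : ℝ, z ≤ ε / (6 * (v + 1)) → v * z ≤ ε / 6 := by
      intro z hz
      calc v * z ≤ v * (ε / (6 * (v + 1))) := mul_le_mul_of_nonneg_left hz hv0
        _ ≤ (v + 1) * (ε / (6 * (v + 1))) := mul_le_mul_of_nonneg_right (by linarith)
            (by positivity)
        _ = ε / 6 := by field_simp
    have b1 := hsm _ (h1 R ((le_max_left _ _).trans hR) (q s))
    have b1' := hsm _ (h1 R ((le_max_left _ _).trans hR) (q₂ s))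
    have b2 := hsm _ (h2 R ((le_max_right _ _).trans hR) (q' s))
    linarith
  have h3 := hsq.sqrt
  simp only [Real.sqrt_zero, Real.sqrt_sq (norm_nonneg _)] at h3
  exact h3

/-- a Gaussian four-point function, in terms of a pair process -/
def WickP (u : ℂ → ℂ → H) (v : ℝ) : Prop :=
  ∀ x₁ x₂ x₃ x₄, inner ℝ (u x₁ x₂) (u x₃ x₄) = v ^ 2 * (waveK (x₁ - x₂) * waveK (x₃ - x₄)
      + waveK (x₁ - x₃) * waveK (x₂ - x₄) + waveK (x₁ - x₄) * waveK (x₂ - x₃))

/-- products along the two directions `v`, `-ηv` have vanishing averages -/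
lemma PairP.avg_transversal (hu : PairP u) {v : ℝ} (hw : WickP u v) {η : ℂ} (hη : IsZeta η)
    (x₁ x₂ : ℂ) :
    Tendsto (fun R : ℝ => ⨍ s in ball (0:ℂ) R, u (x₁ + s) (x₂ - η * s)) atTop (𝓝 0) := by
  have hAc : Continuous fun s => u (x₁ + s) (x₂ - η * s) := hu.cont₂ (by fun_prop) (by fun_prop)
  have hη1 := hη.one_add_ne
  refine dbl_avgH hAc (g := Kc) (g' := fun s => Kc ((x₁ - x₂) + (1 + η) * s)) (C := 1)
    (q := fun s => -s) (q₂ := fun s => x₁ - x₂ + η * s) (q' := fun _ => 0) (v := v ^ 2)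
    Kc_continuous Kc_van Kc_le (by positivity) (Kc_continuous.comp (by fun_prop))
    (Kc_lin_van hη1 _) (fun _ => Kc_le _) ?_
  intro s s'
  rw [real_inner_comm, hw, Kc_norm, Kc_norm, Kc_norm]
  have k1 : waveK (x₁ + s' - (x₂ - η * s')) = waveK ((x₁ - x₂) + (1 + η) * (0 + s')) := by
    congr 1; ring
  have k2 : waveK (x₁ + s - (x₁ + s')) = waveK (-s + s') := by
    rw [← waveK_neg]; congr 1; ring
  have k3 : waveK (x₂ - η * s - (x₁ + s')) = waveK (x₁ - x₂ + η * s + s') := by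
    rw [← waveK_neg]; congr 1; ring
  rw [k1, k2, k3]
  have a1 := waveK_abs_le (x₁ + s - (x₂ - η * s))
  have a2 := waveK_abs_le (x₂ - η * s - (x₂ - η * s'))
  have a3 := waveK_abs_le (x₁ + s - (x₂ - η * s'))
  set u1 := waveK ((x₁ - x₂) + (1 + η) * (0 + s')) with hu1
  set u2 := waveK (-s + s') with hu2
  set u3 := waveK (x₁ - x₂ + η * s + s') with hu3
  set w1 := waveK (x₁ + s - (x₂ - η * s)) with hw1
  set w2 := waveK (x₂ - η * s - (x₂ - η * s')) with hw2
  set w3 := waveK (x₁ + s - (x₂ - η * s')) with hw3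
  have e2 : v ^ 2 * (w1 * u1 + u2 * w2 + w3 * u3)
      = v ^ 2 * (u2 * w2) + v ^ 2 * (w3 * u3) + v ^ 2 * (w1 * u1) := by ring
  rw [e2]
  have hv2 : (0:ℝ) ≤ v ^ 2 := by positivity
  have b : ∀ u w : ℝ, |w| ≤ 1 → |v ^ 2 * (u * w)| ≤ v ^ 2 * |u| := by
    intro u w hw
    rw [abs_mul, abs_of_nonneg hv2, abs_mul]
    refine mul_le_mul_of_nonneg_left ?_ hv2
    nlinarith [abs_nonneg u]
  refine (abs_add_three _ _ _).trans (add_le_add (add_le_add (b _ _ a2) ?_) ?_)
  · rw [mul_comm w3 u3]; exact b _ _ a3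
  · rw [mul_comm w1 u1]; exact b _ _ a1

/-- a pair process together with a process of single values -/
structure TripP (u : ℂ → ℂ → H) (f : ℂ → H) : Prop where
  pair : PairP u
  fcont : Continuous f
  fbdd : ∃ B : ℝ, ∀ x, ‖f x‖ ≤ B
  sym3 : ∀ x y z, inner ℝ (u x y) (f z) = inner ℝ (u z y) (f x)
  stat3 : ∀ x y z s, inner ℝ (u (x + s) (y + s)) (f (z + s)) = inner ℝ (u x y) (f z)

/-- the pair process is monochromatic in the first variable, against every vector -/
lemma PairP.helm_w (hu : PairP u) (y : ℂ) (w : H) :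
    WeakHelm (fun x => ((inner ℝ (u x y) w : ℝ) : ℂ)) :=
  vec_helm (g := fun x => u x y) (hu.cont₂ continuous_id continuous_const)
    (fun x' => hu.helm y x' y) w

/-- **the three-point function vanishes** -/
theorem TripP.three (h : TripP u f) {v : ℝ} (hw : WickP u v) (x y z : ℂ) :
    inner ℝ (u x y) (f z) = 0 := by
  obtain ⟨B, hB⟩ := h.fbdd
  have hu := h.pair
  set C : (Fin 4 → ℂ) → ℂ := fun x => ((inner ℝ (u (x 0) (x 1)) (f (x 2)) : ℝ) : ℂ) with hC
  have hcont : Continuous C := by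
    have h1 : Continuous fun x : Fin 4 → ℂ => u (x 0) (x 1) :=
      hu.cont₂ (continuous_apply 0) (continuous_apply 1)
    have h2 : Continuous fun x : Fin 4 → ℂ => f (x 2) := h.fcont.comp (continuous_apply 2)
    exact Complex.continuous_ofReal.comp (h1.inner h2)
  have hHel : Hel3 C := by
    refine ⟨hcont, ⟨‖u 0 0‖ * B, fun x => ?_⟩, fun j hj x => ?_⟩
    · simp only [hC]
      rw [Complex.norm_real, Real.norm_eq_abs]
      refine (abs_real_inner_le_norm _ _).trans ?_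
      exact mul_le_mul (hu.norm_le _ _) (hB _) (norm_nonneg _) (norm_nonneg _)
    · have c0 : ∀ w : Fin 4 → ℂ, C w = ((inner ℝ (u (w 0) (w 1)) (f (w 2)) : ℝ) : ℂ) := fun _ => rfl
      fin_cases j
      · have e : (fun z => C (Function.update x (0 : Fin 4) z))
            = fun z => ((inner ℝ (u z (x 1)) (f (x 2)) : ℝ) : ℂ) := by
          funext z
          rw [c0]
          have h1 : Function.update x (0 : Fin 4) z 1 = x 1 := Function.update_of_ne (by decide) _ _
          have h2 : Function.update x (0 : Fin 4) z 2 = x 2 := Function.update_of_ne (by decide) _ _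
          rw [Function.update_self, h1, h2]
        simp only [Fin.zero_eta]
        rw [e]
        exact hu.helm_w (x 1) (f (x 2))
      · have e : (fun z => C (Function.update x (1 : Fin 4) z))
            = fun z => ((inner ℝ (u z (x 0)) (f (x 2)) : ℝ) : ℂ) := by
          funext z
          rw [c0]
          have h1 : Function.update x (1 : Fin 4) z 0 = x 0 := Function.update_of_ne (by decide) _ _
          have h2 : Function.update x (1 : Fin 4) z 2 = x 2 := Function.update_of_ne (by decide) _ _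
          rw [Function.update_self, h1, h2, hu.symm]
        simp only [Fin.mk_one]
        rw [e]
        exact hu.helm_w (x 0) (f (x 2))
      · have e : (fun z => C (Function.update x (2 : Fin 4) z))
            = fun z => ((inner ℝ (u z (x 1)) (f (x 0)) : ℝ) : ℂ) := by
          funext z
          rw [c0]
          have h1 : Function.update x (2 : Fin 4) z 0 = x 0 := Function.update_of_ne (by decide) _ _
          have h2 : Function.update x (2 : Fin 4) z 1 = x 1 := Function.update_of_ne (by decide) _ _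
          rw [Function.update_self, h1, h2, h.sym3]
        simp only [Fin.reduceFinMk]
        rw [e]
        exact hu.helm_w (x 1) (f (x 0))
      · exact absurd rfl hj
  have hinv : ∀ x (s : ℂ), C (x + s • ![1, 1, 1, 0]) = C x := by
    intro x s
    have h0 : (x + s • (![1, 1, 1, 0] : Fin 4 → ℂ)) 0 = x 0 + s := by simp
    have h1 : (x + s • (![1, 1, 1, 0] : Fin 4 → ℂ)) 1 = x 1 + s := by simp
    have h2 : (x + s • (![1, 1, 1, 0] : Fin 4 → ℂ)) 2 = x 2 + s := by simp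
    simp only [hC]
    rw [h0, h1, h2, h.stat3]
  have hz : ∀ η : ℂ, IsZeta η → ∀ x, Tendsto (fun R : ℝ => ⨍ s in ball (0:ℂ) R,
      C (x + s • ![1, -η, 0, 0])) atTop (𝓝 0) := by
    intro η hη x
    have h1 := Filter.Tendsto.inner (𝕜 := ℝ) (hu.avg_transversal hw hη (x 0) (x 1))
      (tendsto_const_nhds (x := f (x 2)))
    rw [inner_zero_left] at h1
    have h2 := (Complex.continuous_ofReal.tendsto _).comp h1
    rw [Complex.ofReal_zero] at h2
    refine h2.congr fun R => ?_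
    simp only [Function.comp]
    have hAc : Continuous fun s => u (x 0 + s) (x 1 - η * s) :=
      hu.cont₂ (by fun_prop) (by fun_prop)
    rw [PairP.inner_avg hAc, ← avg_ofReal]
    congr 1; funext s
    have e0 : (x + s • (![1, -η, 0, 0] : Fin 4 → ℂ)) 0 = x 0 + s := by simp
    have e1 : (x + s • (![1, -η, 0, 0] : Fin 4 → ℂ)) 1 = x 1 - η * s := by simp; ring
    have e2 : (x + s • (![1, -η, 0, 0] : Fin 4 → ℂ)) 2 = x 2 := by simp
    simp only [hC]
    rw [e0, e1, e2]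
  have := three_general hHel hinv hz x y z
  simp only [hC] at this
  exact_mod_cast this

/-- a translation invariant monochromatic one-point function vanishes -/
lemma const_helm {k : ℂ} (hW : WeakHelm (fun _ : ℂ => k)) : k = 0 := by
  have h := (mz_of_weakHelm continuous_const (B := ‖k‖) (fun _ => le_rfl) hW)
  exact h.const

end

end Berry


end

section

/-!
Limit objects including the one-point and three-point functions.
-/

open Complex Filter Topology MeasureTheory Metric InnerProductSpace Laplacian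
open scoped ENNReal

namespace Berry

noncomputable section

section Transfer

variable {H H' : Type*} [NormedAddCommGroup H] [InnerProductSpace ℝ H]
  [NormedAddCommGroup H'] [InnerProductSpace ℝ H'] {u : ℂ → ℂ → H} {u' : ℂ → ℂ → H'}

/-- being a pair process only depends on the inner products -/
lemma PairP.transfer (hu : PairP u)
    (h : ∀ x₁ x₂ x₃ x₄, inner ℝ (u' x₁ x₂) (u' x₃ x₄) = inner ℝ (u x₁ x₂) (u x₃ x₄)) :
    PairP u' := by
  refine ⟨cont_of_kernel ?_, fun x y => ?_, fun x₁ x₂ x₃ x₄ => ?_, fun x₁ x₂ x₃ x₄ s => ?_,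
    fun x₂ x₃ x₄ => ?_⟩
  · simp only [h]
    exact (hu.cont₂ (continuous_apply 0) (continuous_apply 1)).inner
      (hu.cont₂ (continuous_apply 2) (continuous_apply 3))
  · have h1 : inner ℝ (u' x y - u' y x) (u' x y - u' y x) = 0 := by
      rw [real_inner_sub_sub_self, h, h, h, hu.symm y x]
      ring
    exact sub_eq_zero.1 (inner_self_eq_zero.1 h1)
  · rw [h, h]; exact hu.symm4 _ _ _ _
  · rw [h, h]; exact hu.stat _ _ _ _ _
  · simp only [h]; exact hu.helm _ _ _

end Transfer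

variable {Ω : Type*} [MeasurableSpace Ω] {P : Measure Ω} [IsProbabilityMeasure P]

/-- three-point function of the `n`-th wave -/
def c3 (P : Measure Ω) (F : ℕ → ℂ → Ω → ℝ) (n : ℕ) (x y z : ℂ) : ℝ :=
  ∫ ω, F n x ω * F n y ω * F n z ω ∂P

/-- one-point function of the `n`-th wave -/
def c1 (P : Measure Ω) (F : ℕ → ℂ → Ω → ℝ) (n : ℕ) (x : ℂ) : ℝ := ∫ ω, F n x ω ∂P

/-- the vectors entering the Gram matrix -/
def Vn3 (F : ℕ → ℂ → Ω → ℝ) (n : ℕ) : Option (ℂ × ℂ) ⊕ ℂ → Ω → ℝ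
  | Sum.inl i => Vn F n i
  | Sum.inr z => F n z

omit [IsProbabilityMeasure P] in
lemma Vn3_meas {F : ℕ → ℂ → Ω → ℝ} {n : ℕ} (hF : SingleW P (F n)) (i : Option (ℂ × ℂ) ⊕ ℂ) :
    Measurable (Vn3 F n i) := by
  cases i with
  | inl i => exact Vn_meas hF i
  | inr z => exact hF.meas z

omit [IsProbabilityMeasure P] in
lemma Vn3_bdd {F : ℕ → ℂ → Ω → ℝ} {n : ℕ} (hF : SingleW P (F n)) (i : Option (ℂ × ℂ) ⊕ ℂ) :
    ∃ K : ℝ, 0 ≤ K ∧ ∀ ω, |Vn3 F n i ω| ≤ K := by
  cases i with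
  | inl i => exact Vn_bdd hF i
  | inr z =>
    obtain ⟨K, hK⟩ := hF.bdd
    exact ⟨|K|, abs_nonneg _, fun ω => (hK z ω).trans (le_abs_self K)⟩

lemma Vn3_int {F : ℕ → ℂ → Ω → ℝ} {n : ℕ} (hF : SingleW P (F n)) (i j : Option (ℂ × ℂ) ⊕ ℂ) :
    Integrable (fun ω => Vn3 F n i ω * Vn3 F n j ω) P := by
  obtain ⟨K, hK0, hK⟩ := Vn3_bdd hF i
  obtain ⟨K', hK'0, hK'⟩ := Vn3_bdd hF j
  refine integrable_bdd (C := K * K') ((Vn3_meas hF i).mul (Vn3_meas hF j)) fun ω => ?_
  rw [abs_mul]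
  exact mul_le_mul (hK ω) (hK' ω) (abs_nonneg _) hK0

lemma Vn3_sq {F : ℕ → ℂ → Ω → ℝ} {n : ℕ} (hF : SingleW P (F n)) {B : ℝ}
    (hB : ∀ x, ∫ ω, F n x ω ^ 4 ∂P ≤ B) (i : Option (ℂ × ℂ) ⊕ ℂ) :
    ∫ ω, Vn3 F n i ω * Vn3 F n i ω ∂P ≤ B + 1 := by
  have hB0 : 0 ≤ B := (integral_nonneg fun ω => by positivity).trans (hB 0)
  cases i with
  | inl i => exact Vn_sq hF hB i
  | inr z =>
    have h1 : ∫ ω, Vn3 F n (Sum.inr z) ω * Vn3 F n (Sum.inr z) ω ∂P
        ≤ ∫ ω, (F n z ω ^ 4 + 1) ∂P := by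
      refine integral_mono (Vn3_int hF _ _) ((hF.int4 z).add (integrable_const 1)) fun ω => ?_
      simp only [Vn3]
      nlinarith [sq_nonneg (F n z ω ^ 2 - 1), sq_nonneg (F n z ω)]
    rw [integral_add (hF.int4 z) (integrable_const 1)] at h1
    simp only [integral_const, probReal_univ, smul_eq_mul, one_mul] at h1
    have := hB z
    linarith

lemma Vn3_bound {F : ℕ → ℂ → Ω → ℝ} {n : ℕ} (hF : SingleW P (F n)) {B : ℝ}
    (hB : ∀ x, ∫ ω, F n x ω ^ 4 ∂P ≤ B) (i j : Option (ℂ × ℂ) ⊕ ℂ) :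
    |∫ ω, Vn3 F n i ω * Vn3 F n j ω ∂P| ≤ B + 1 := by
  have h1 : |∫ ω, Vn3 F n i ω * Vn3 F n j ω ∂P|
      ≤ ∫ ω, (Vn3 F n i ω * Vn3 F n i ω + Vn3 F n j ω * Vn3 F n j ω) / 2 ∂P := by
    rw [← Real.norm_eq_abs]
    refine norm_integral_le_of_norm_le (((Vn3_int hF i i).add (Vn3_int hF j j)).div_const 2)
      (Eventually.of_forall fun ω => ?_)
    rw [Real.norm_eq_abs, abs_le]
    constructor
    · nlinarith [sq_nonneg (Vn3 F n i ω + Vn3 F n j ω)]
    · nlinarith [sq_nonneg (Vn3 F n i ω - Vn3 F n j ω)]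
  rw [integral_div, integral_add (Vn3_int hF i i) (Vn3_int hF j j)] at h1
  have := Vn3_sq hF hB i
  have := Vn3_sq hF hB j
  linarith

/-- asymptotic translation invariance of the one-point and three-point functions -/
structure OddInv (P : Measure Ω) (F : ℕ → ℂ → Ω → ℝ) : Prop where
  inv3 : ∀ x y z s, Tendsto (fun n => c3 P F n (x + s) (y + s) (z + s) - c3 P F n x y z) atTop
    (𝓝 0)
  inv1 : ∀ x s, Tendsto (fun n => c1 P F n (x + s) - c1 P F n x) atTop (𝓝 0)

/-- **Limit objects, including odd moments.** -/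
theorem AWave.limit3 {F : ℕ → ℂ → Ω → ℝ} {B : ℝ} (hF : AWave P F B) (hO : OddInv P F)
    (U : Ultrafilter ℕ) (hU : (U : Filter ℕ) ≤ atTop) :
    ∃ (H : Type) (_ : NormedAddCommGroup H) (_ : InnerProductSpace ℝ H) (_ : CompleteSpace H)
      (u : ℂ → ℂ → H) (one : H) (f : ℂ → H), TripP u f ∧ inner ℝ one one = 1 ∧
      (∀ x₁ x₂ x₃ x₄, Tendsto (fun n => c4 P F n x₁ x₂ x₃ x₄) (U : Filter ℕ)
        (𝓝 (inner ℝ (u x₁ x₂) (u x₃ x₄)))) ∧
      (∀ x y, Tendsto (fun n => c2 P F n x y) (U : Filter ℕ) (𝓝 (inner ℝ (u x y) one))) ∧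
      (∀ x y z, Tendsto (fun n => c3 P F n x y z) (U : Filter ℕ) (𝓝 (inner ℝ (u x y) (f z)))) ∧
      (∀ x y, inner ℝ (f x) (f y) = inner ℝ (u x y) one) ∧
      (∀ x, Tendsto (fun n => c1 P F n x) (U : Filter ℕ) (𝓝 (inner ℝ (f x) one))) ∧
      (∀ x s, inner ℝ (f (x + s)) one = inner ℝ (f x) one) := by
  have hev := hU hF.ev
  obtain ⟨H₀, j1, j2, j3, u₀, one₀, hu₀, -, h4₀, -⟩ := hF.limit U hU
  -- the limits exist
  have hex : ∀ i j : Option (ℂ × ℂ) ⊕ ℂ, ∃ L, Tendsto (fun n => ∫ ω, Vn3 F n i ω * Vn3 F n j ω ∂P)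
      (U : Filter ℕ) (𝓝 L) := fun i j => ultra_lim (C := B + 1)
        (Filter.mem_of_superset hev fun n hn => Vn3_bound hn.1 hn.2 i j)
  choose k hk using hex
  have hsymm : ∀ i j, k i j = k j i := by
    intro i j
    refine tendsto_nhds_unique (hk i j) ((hk j i).congr fun n => ?_)
    congr 1; funext ω; ring
  have hpsd : ∀ (s : Finset (Option (ℂ × ℂ) ⊕ ℂ)) (c : Option (ℂ × ℂ) ⊕ ℂ → ℝ),
      0 ≤ ∑ x ∈ s, ∑ y ∈ s, c x * c y * k x y := by
    intro s c
    have h1 : Tendsto (fun n => ∑ x ∈ s, ∑ y ∈ s, c x * c y * ∫ ω, Vn3 F n x ω * Vn3 F n y ω ∂P)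
        (U : Filter ℕ) (𝓝 (∑ x ∈ s, ∑ y ∈ s, c x * c y * k x y)) :=
      tendsto_finsetSum _ fun x _ => tendsto_finsetSum _ fun y _ => (hk x y).const_mul _
    refine ge_of_tendsto h1 (Filter.mem_of_superset hev fun n hn => ?_)
    have h2 : ∑ x ∈ s, ∑ y ∈ s, c x * c y * ∫ ω, Vn3 F n x ω * Vn3 F n y ω ∂P
        = ∫ ω, (∑ x ∈ s, c x * Vn3 F n x ω) ^ 2 ∂P := by
      have h3 : ∀ ω, (∑ x ∈ s, c x * Vn3 F n x ω) ^ 2
          = ∑ x ∈ s, ∑ y ∈ s, c x * c y * (Vn3 F n x ω * Vn3 F n y ω) := by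
        intro ω
        rw [sq, Finset.sum_mul_sum]
        refine Finset.sum_congr rfl fun x _ => Finset.sum_congr rfl fun y _ => ?_
        ring
      simp only [h3]
      rw [integral_finsetSum _ fun x _ => integrable_finsetSum _ fun y _ =>
        (Vn3_int hn.1 x y).const_mul _]
      refine Finset.sum_congr rfl fun x _ => ?_
      rw [integral_finsetSum _ fun y _ => (Vn3_int hn.1 x y).const_mul _]
      refine Finset.sum_congr rfl fun y _ => ?_
      rw [integral_const_mul]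
    show 0 ≤ ∑ x ∈ s, ∑ y ∈ s, c x * c y * ∫ ω, Vn3 F n x ω * Vn3 F n y ω ∂P
    rw [h2]
    exact integral_nonneg fun ω => sq_nonneg _
  obtain ⟨H, i1, i2, i3, e, he⟩ := exists_hilbert k hsymm hpsd
  set u : ℂ → ℂ → H := fun x y => e (Sum.inl (some (x, y))) with hu
  set one : H := e (Sum.inl none) with hone
  set f : ℂ → H := fun z => e (Sum.inr z) with hf
  have hin : ∀ x₁ x₂ x₃ x₄, Tendsto (fun n => c4 P F n x₁ x₂ x₃ x₄) (U : Filter ℕ)
        (𝓝 (inner ℝ (u x₁ x₂) (u x₃ x₄))) := by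
    intro x₁ x₂ x₃ x₄
    rw [hu, he]
    refine (hk (Sum.inl (some (x₁, x₂))) (Sum.inl (some (x₃, x₄)))).congr fun n => ?_
    unfold c4
    congr 1; funext ω
    simp only [Vn3, Vn]; ring
  have hpair : PairP u := hu₀.transfer fun x₁ x₂ x₃ x₄ =>
    tendsto_nhds_unique (hin x₁ x₂ x₃ x₄) (h4₀ x₁ x₂ x₃ x₄)
  have h2 : ∀ x y, Tendsto (fun n => c2 P F n x y) (U : Filter ℕ) (𝓝 (inner ℝ (u x y) one)) := by
    intro x y
    rw [hu, hone, he]
    refine (hk (Sum.inl (some (x, y))) (Sum.inl none)).congr fun n => ?_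
    unfold c2
    congr 1; funext ω
    simp [Vn3, Vn]
  have h3 : ∀ x y z, Tendsto (fun n => c3 P F n x y z) (U : Filter ℕ)
      (𝓝 (inner ℝ (u x y) (f z))) := by
    intro x y z
    rw [hu, hf, he]
    refine (hk (Sum.inl (some (x, y))) (Sum.inr z)).congr fun n => ?_
    unfold c3
    congr 1
  have hff : ∀ x y, inner ℝ (f x) (f y) = inner ℝ (u x y) one := by
    intro x y
    have h5 : Tendsto (fun n => c2 P F n x y) (U : Filter ℕ) (𝓝 (inner ℝ (f x) (f y))) := by
      rw [hf, he]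
      refine (hk (Sum.inr x) (Sum.inr y)).congr fun n => ?_
      unfold c2
      congr 1
    exact tendsto_nhds_unique h5 (h2 x y)
  have h1 : ∀ x, Tendsto (fun n => c1 P F n x) (U : Filter ℕ) (𝓝 (inner ℝ (f x) one)) := by
    intro x
    rw [hf, hone, he]
    refine (hk (Sum.inr x) (Sum.inl none)).congr fun n => ?_
    unfold c1
    congr 1; funext ω
    simp [Vn3, Vn]
  have hone1 : inner ℝ one one = (1:ℝ) := by
    rw [hone, he]
    have h1 : Tendsto (fun _ : ℕ => (1:ℝ)) (U : Filter ℕ)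
        (𝓝 (k (Sum.inl none) (Sum.inl none))) := by
      refine (hk (Sum.inl none) (Sum.inl none)).congr fun n => ?_
      simp [Vn3, Vn]
    exact tendsto_nhds_unique h1 tendsto_const_nhds
  have hfn : ∀ x, ‖f x‖ ^ 2 ≤ ‖u 0 0‖ := by
    intro x
    rw [← real_inner_self_eq_norm_sq, hff]
    refine (real_inner_le_norm _ _).trans ?_
    have hn1 : ‖one‖ = 1 := by
      have : ‖one‖ ^ 2 = 1 := by rw [← real_inner_self_eq_norm_sq, hone1]
      nlinarith [norm_nonneg one]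
    rw [hn1, mul_one]
    exact hpair.norm_le x x
  have htrip : TripP u f := by
    refine ⟨hpair, ?_, ⟨‖u 0 0‖ + 1, fun x => ?_⟩, fun x y z => ?_, fun x y z s => ?_⟩
    · rw [continuous_iff_continuousAt]
      intro x₀
      rw [ContinuousAt, tendsto_iff_norm_sub_tendsto_zero]
      have e1 : ∀ x, ‖f x - f x₀‖ ^ 2 = inner ℝ (u x x) one - 2 * inner ℝ (u x x₀) one
          + inner ℝ (u x₀ x₀) one := by
        intro x
        rw [← real_inner_self_eq_norm_sq, real_inner_sub_sub_self, hff, hff, hff]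
      have c1 : Continuous fun x => inner ℝ (u x x) one - 2 * inner ℝ (u x x₀) one
          + inner ℝ (u x₀ x₀) one :=
        (((hpair.cont₂ continuous_id continuous_id).inner continuous_const).sub
          (continuous_const.mul ((hpair.cont₂ continuous_id continuous_const).inner
            continuous_const))).add continuous_const
      have t1 : Tendsto (fun x => ‖f x - f x₀‖ ^ 2) (𝓝 x₀) (𝓝 0) := by
        have := c1.tendsto x₀
        simp only [← e1] at this
        simpa using this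
      have t2 := t1.sqrt
      simpa only [Real.sqrt_zero, Real.sqrt_sq (norm_nonneg _)] using t2
    · have h5 := hfn x
      nlinarith [norm_nonneg (f x), norm_nonneg (u 0 0), sq_nonneg (‖f x‖ - 1)]
    · refine tendsto_nhds_unique (h3 x y z) ((h3 z y x).congr fun n => ?_)
      unfold c3; congr 1; funext ω; ring
    · have h5 := (h3 (x + s) (y + s) (z + s)).sub (h3 x y z)
      have h6 := (hO.inv3 x y z s).mono_left hU
      have h7 := tendsto_nhds_unique h5 h6
      linarith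
  refine ⟨H, i1, i2, i3, u, one, f, htrip, hone1, hin, h2, h3, hff, h1, fun x s => ?_⟩
  have h5 := (h1 (x + s)).sub (h1 x)
  have h6 := (hO.inv1 x s).mono_left hU
  have h7 := tendsto_nhds_unique h5 h6
  linarith

/-- **Planck-scale quantum ergodicity forces the odd moments to vanish.** -/
theorem AWave.odd_of_planck {F : ℕ → ℂ → Ω → ℝ} {B : ℝ} (hF : AWave P F B) (hO : OddInv P F)
    {v : ℝ} (hq : AsyPlanck P F v) :
    (∀ x y z, Tendsto (fun n => c3 P F n x y z) atTop (𝓝 0)) ∧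
    ∀ x, Tendsto (fun n => c1 P F n x) atTop (𝓝 0) := by
  constructor
  · intro x y z
    rw [tendsto_iff_ultrafilter]
    intro U hU
    obtain ⟨H, i1, i2, i3, u, one, f, ht, hone, h4, h2, h3, hff, h1, hs⟩ := hF.limit3 hO U hU
    have hcov := fun a => hF.cov_of_planck (v := v) a (hq a) hU ht.pair hone h4 h2
    have hw : WickP u v := fun x₁ x₂ x₃ x₄ => ht.pair.wick hone hcov x₁ x₂ x₃ x₄
    have := h3 x y z
    rw [ht.three hw] at this
    exact this
  · intro x
    rw [tendsto_iff_ultrafilter]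
    intro U hU
    obtain ⟨H, i1, i2, i3, u, one, f, ht, hone, h4, h2, h3, hff, h1, hs⟩ := hF.limit3 hO U hU
    have hW : WeakHelm (fun x => ((inner ℝ (f x) one : ℝ) : ℂ)) := by
      refine vec_helm ht.fcont (fun x' => ?_) one
      simp only [hff]
      exact ht.pair.helm_w x' one
    have hconst : ∀ x, inner ℝ (f x) one = inner ℝ (f 0) one := by
      intro x
      have := hs 0 x
      rw [zero_add] at this
      exact this
    simp only [hconst] at hW
    have h0 := const_helm hW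
    have h5 := h1 x
    rw [hconst x] at h5
    have h6 : inner ℝ (f 0) one = (0:ℝ) := by exact_mod_cast h0
    rw [h6] at h5
    exact h5

end

end Berry


end

section

/-!
Odd moments of the local waves of Laplace eigenfunctions on closed surfaces.
-/

open UpperHalfPlane MeasureTheory ProbabilityTheory MatrixGroups Filter Topology Set
  InnerProductSpace Laplacian
open scoped ENNReal NNReal Pointwise

namespace Berry

noncomputable section

/-- the product of three variables -/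
def pr3 (v : Fin 4 → ℝ) : ℝ := v 0 * v 1 * v 2

/-- the first variable -/
def pr1 (v : Fin 4 → ℝ) : ℝ := v 0

lemma tst_pr3 : Tst pr3 4 := by
  have hb : ∀ (v : Fin 4 → ℝ) (j : Fin 4), |v j| ≤ ‖v‖ := fun v j => by
    rw [← Real.norm_eq_abs]; exact norm_le_pi_norm v j
  refine ⟨by unfold pr3; fun_prop, fun v v' => ?_, fun v => ?_⟩
  · unfold pr3
    set a := ‖v‖ with ha
    set a' := ‖v'‖ with ha'
    set e := ‖v - v'‖ with he
    have ha0 : 0 ≤ a := norm_nonneg _
    have ha'0 : 0 ≤ a' := norm_nonneg _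
    have he0 : 0 ≤ e := norm_nonneg _
    have hd : ∀ j : Fin 4, |v j - v' j| ≤ e := fun j => by
      have := hb (v - v') j
      rwa [Pi.sub_apply] at this
    have e1 : v 0 * v 1 * v 2 - v' 0 * v' 1 * v' 2
        = (v 0 - v' 0) * (v 1 * v 2) + (v 1 - v' 1) * (v' 0 * v 2)
          + (v 2 - v' 2) * (v' 0 * v' 1) := by ring
    set S := 1 + a + a' with hS
    have hS1 : 1 ≤ S := by linarith
    have hM : ∀ x y : ℝ, |x| ≤ S → |y| ≤ S → |x * y| ≤ S ^ 3 := by
      intro x y hx hy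
      rw [abs_mul]
      calc |x| * |y| ≤ S * S := by gcongr
        _ = S ^ 2 := by ring
        _ ≤ S ^ 3 := pow_le_pow_right₀ hS1 (by norm_num)
    have hv : ∀ j, |v j| ≤ S := fun j => (hb v j).trans (by linarith)
    have hv' : ∀ j, |v' j| ≤ S := fun j => (hb v' j).trans (by linarith)
    rw [e1]
    have t : ∀ x y : ℝ, |x| ≤ e → |y| ≤ S ^ 3 → |x * y| ≤ e * S ^ 3 := by
      intro x y hx hy
      rw [abs_mul]; gcongr
    have t1 := t _ _ (hd 0) (hM _ _ (hv 1) (hv 2))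
    have t2 := t _ _ (hd 1) (hM _ _ (hv' 0) (hv 2))
    have t3 := t _ _ (hd 2) (hM _ _ (hv' 0) (hv' 1))
    refine (abs_add_le _ _).trans ?_
    have s2 := abs_add_le ((v 0 - v' 0) * (v 1 * v 2)) ((v 1 - v' 1) * (v' 0 * v 2))
    have s3 : 0 ≤ e * S ^ 3 := by positivity
    nlinarith
  · unfold pr3
    have ha0 : 0 ≤ ‖v‖ := norm_nonneg _
    rw [abs_mul, abs_mul]
    calc |v 0| * |v 1| * |v 2| ≤ ‖v‖ * ‖v‖ * ‖v‖ := by
          gcongr <;> exact hb v _
      _ = ‖v‖ ^ 3 := by ring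
      _ ≤ (1 + ‖v‖) ^ 3 := pow_le_pow_left₀ ha0 (by linarith) 3
      _ ≤ (1 + ‖v‖) ^ 4 := pow_le_pow_right₀ (by linarith) (by norm_num)
      _ ≤ 4 * (1 + ‖v‖) ^ 4 := by nlinarith [pow_nonneg (by linarith : 0 ≤ 1 + ‖v‖) 4]

lemma tst_pr1 : Tst pr1 4 := by
  have hb : ∀ (v : Fin 4 → ℝ) (j : Fin 4), |v j| ≤ ‖v‖ := fun v j => by
    rw [← Real.norm_eq_abs]; exact norm_le_pi_norm v j
  refine ⟨by unfold pr1; fun_prop, fun v v' => ?_, fun v => ?_⟩
  · unfold pr1
    set a := ‖v‖ with ha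
    set a' := ‖v'‖ with ha'
    set e := ‖v - v'‖ with he
    have ha0 : 0 ≤ a := norm_nonneg _
    have ha'0 : 0 ≤ a' := norm_nonneg _
    have he0 : 0 ≤ e := norm_nonneg _
    have hd : |v 0 - v' 0| ≤ e := by
      have := hb (v - v') 0
      rwa [Pi.sub_apply] at this
    have s : (1:ℝ) ≤ (1 + a + a') ^ 3 := one_le_pow₀ (by linarith)
    have s5 : e ≤ e * (1 + a + a') ^ 3 := le_mul_of_one_le_right he0 s
    nlinarith
  · unfold pr1
    have ha0 : 0 ≤ ‖v‖ := norm_nonneg _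
    calc |v 0| ≤ ‖v‖ := hb v 0
      _ ≤ (1 + ‖v‖) ^ 1 := by rw [pow_one]; linarith
      _ ≤ (1 + ‖v‖) ^ 4 := pow_le_pow_right₀ (by linarith) (by norm_num)
      _ ≤ 4 * (1 + ‖v‖) ^ 4 := by nlinarith [pow_nonneg (by linarith : 0 ≤ 1 + ‖v‖) 4]

variable {Γ : Subgroup SL(2, ℝ)} {ρ : ℍ → ℝ} {D : Set ℍ} {φ : ℕ → ℍ → ℝ} {m : ℕ → ℝ} {B : ℝ}

/-- the odd moments of the local waves are asymptotically translation invariant -/
theorem Dat.odd [Countable Γ] (h : Dat Γ ρ D φ m B) {R : ℕ → ℕ} (hR : Tendsto R atTop atTop) :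
    OddInv (rFrameProb ρ D) (wW ρ φ m R) := by
  obtain ⟨κ, hκ, hint⟩ := rFrame_int h.geo
  constructor
  · intro x₁ x₂ x₃ s
    have hc : ∀ y₁ y₂ y₃ : ℂ, ∀ᶠ n in atTop, c3 (rFrameProb ρ D) (wW ρ φ m R) n y₁ y₂ y₃
        = κ * TF D ρ φ m pr3 n ![y₁, y₂, y₃, 0] := by
      intro y₁ y₂ y₃
      filter_upwards [wW_eq (ρ := ρ) (φ := φ) (m := m) hR ‖y₁‖,
        wW_eq (ρ := ρ) (φ := φ) (m := m) hR ‖y₂‖, wW_eq (ρ := ρ) (φ := φ) (m := m) hR ‖y₃‖]
        with n h1 h2 h3
      have e : c3 (rFrameProb ρ D) (fun n => sW ρ (φ n) (m n)) n y₁ y₂ y₃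
          = κ * TF D ρ φ m pr3 n ![y₁, y₂, y₃, 0] := by
        unfold c3 TF
        rw [hint]
        congr 2
      rw [← e]
      unfold c3
      congr 1; funext p
      rw [h1 y₁ le_rfl, h2 y₂ le_rfl, h3 y₃ le_rfl]
    have h1 := (h.shift tst_pr3 ![x₁, x₂, x₃, 0] s).const_mul κ
    rw [mul_zero] at h1
    refine h1.congr' ?_
    filter_upwards [hc (x₁ + s) (x₂ + s) (x₃ + s), hc x₁ x₂ x₃] with n k1 k2
    rw [k1, k2, mul_sub]
    have e : TF D ρ φ m pr3 n (fun j => (![x₁, x₂, x₃, 0] : Fin 4 → ℂ) j + s)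
        = TF D ρ φ m pr3 n ![x₁ + s, x₂ + s, x₃ + s, 0] := by
      unfold TF pr3
      rfl
    rw [e]
  · intro x s
    have hc : ∀ y : ℂ, ∀ᶠ n in atTop, c1 (rFrameProb ρ D) (wW ρ φ m R) n y
        = κ * TF D ρ φ m pr1 n ![y, 0, 0, 0] := by
      intro y
      filter_upwards [wW_eq (ρ := ρ) (φ := φ) (m := m) hR ‖y‖] with n h1
      have e : c1 (rFrameProb ρ D) (fun n => sW ρ (φ n) (m n)) n y
          = κ * TF D ρ φ m pr1 n ![y, 0, 0, 0] := by
        unfold c1 TF
        rw [hint]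
        congr 2
      rw [← e]
      unfold c1
      congr 1; funext p
      rw [h1 y le_rfl]
    have h1 := (h.shift tst_pr1 ![x, 0, 0, 0] s).const_mul κ
    rw [mul_zero] at h1
    refine h1.congr' ?_
    filter_upwards [hc (x + s), hc x] with n k1 k2
    rw [k1, k2, mul_sub]
    have e : TF D ρ φ m pr1 n (fun j => (![x, 0, 0, 0] : Fin 4 → ℂ) j + s)
        = TF D ρ φ m pr1 n ![x + s, 0, 0, 0] := by
      unfold TF pr1
      rfl
    rw [e]

lemma Surf.c3_ev (h : Surf Γ ρ D φ m) {R : ℕ → ℕ} (hR : Tendsto R atTop atTop)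
    (x₁ x₂ x₃ : ℂ) : ∀ᶠ n in atTop, c3 (rFrameProb ρ D) (wW ρ φ m R) n x₁ x₂ x₃
      = ∫ p, rWave ρ (φ n) (m n) x₁ p * rWave ρ (φ n) (m n) x₂ p
        * rWave ρ (φ n) (m n) x₃ p ∂(rFrameProb ρ D) := by
  filter_upwards [h.ev_eq hR ‖x₁‖, h.ev_eq hR ‖x₂‖, h.ev_eq hR ‖x₃‖] with n h1 h2 h3
  unfold c3
  congr 1; funext p
  rw [h1 x₁ le_rfl, h2 x₂ le_rfl, h3 x₃ le_rfl]

lemma Surf.c1_ev (h : Surf Γ ρ D φ m) {R : ℕ → ℕ} (hR : Tendsto R atTop atTop)
    (x : ℂ) : ∀ᶠ n in atTop, c1 (rFrameProb ρ D) (wW ρ φ m R) n x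
      = ∫ p, rWave ρ (φ n) (m n) x p ∂(rFrameProb ρ D) := by
  filter_upwards [h.ev_eq hR ‖x‖] with n h1
  unfold c1
  congr 1; funext p
  rw [h1 x le_rfl]

/-- **Planck-scale quantum ergodicity forces Gaussian moments up to order four.** -/
theorem Surf.gauss_of_planck [Countable Γ] (h : Surf Γ ρ D φ m)
    (hnorm : ∀ n, rAvg ρ D (fun z => φ n z ^ 2) = 1) (hq : ∀ a, RPlanckAt ρ D φ m a) :
    RGaussUpToFour ρ D φ m := by
  have hP := rFrameProb_isProb h.geo
  obtain ⟨B, hB⟩ := h.four_bounded (hq 0)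
  obtain ⟨B₂, hdat⟩ := h.dat hB
  obtain ⟨R, B', hR, hA⟩ := hdat.aWave hB
  have hq' : AsyPlanck (rFrameProb ρ D) (wW ρ φ m R) 1 := fun a => (h.planck_iff hR a).1 (hq a)
  obtain ⟨h3, h1⟩ := hA.odd_of_planck (hdat.odd hR) hq'
  refine ⟨fun x => ?_, fun x y => h.two_of_planck hB hq x y, fun x y z => ?_,
    (h.four_iff' hnorm).2 hq⟩
  · refine (h1 x).congr' ?_
    filter_upwards [h.c1_ev hR x] with n hn
    exact hn
  · refine (h3 x y z).congr' ?_
    filter_upwards [h.c3_ev hR x y z] with n hn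
    exact hn

end

end Berry


end

section

/-!
Quantum ergodic sequences on closed surfaces: the fourth moment decides all correlations of order at
most four.
-/

open MeasureTheory Filter Topology Set MatrixGroups UpperHalfPlane
open scoped ContDiff

namespace QE

noncomputable section

variable {Γ : Subgroup SL(2, ℝ)} {ρ : ℍ → ℝ} {D : Set ℍ}

/-- the value at the origin -/
lemma four_zero [Countable Γ] {φ : ℕ → ℍ → ℝ} {m : ℕ → ℝ} (S : Berry.Surf Γ ρ D φ m)
    (hf : Berry.RFourPt ρ D φ m) :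
    Tendsto (fun n => Berry.rAvg ρ D fun z => φ n z ^ 4) atTop (𝓝 3) := by
  have h1 := hf 0 0 0 0
  have e : Berry.waveK (0 - 0) * Berry.waveK (0 - 0) + Berry.waveK (0 - 0) * Berry.waveK (0 - 0)
      + Berry.waveK (0 - 0) * Berry.waveK (0 - 0) = 3 := by
    rw [sub_zero, Berry.waveK_zero]; norm_num
  rw [e] at h1
  refine h1.congr' ?_
  filter_upwards [S.c4_ev tendsto_id 0 0 0 0] with n hn
  rw [← hn, S.c4_zero]

/-- **The fourth moment and the correlations of order at most four.** -/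
theorem tfae_surface [Countable Γ] (hDm : MeasurableSet D)
    (hD : IsFundamentalDomain Γ D (volume : Measure ℍ))
    (hK : ∃ K : Set ℍ, IsCompact K ∧ ∀ z, ∃ γ ∈ Γ, γ • z ∈ K)
    (hρ : ContDiffOn ℝ ∞ (fun w : ℂ => ρ (ofComplex w)) {w | 0 < w.im})
    (hρΓ : ∀ γ ∈ Γ, ∀ z, ρ (γ • z) = ρ z)
    {φ : ℕ → ℍ → ℝ} {m : ℕ → ℝ} (hφ : Berry.REigenSeq Γ ρ φ m)
    (hs : ∀ n, ContDiffOn ℝ ∞ (fun w : ℂ => φ n (ofComplex w)) {w | 0 < w.im})
    (hq : QuantumErgodic ρ φ m) :
    List.TFAE [Tendsto (fun n => Berry.rAvg ρ D fun z => φ n z ^ 4) atTop (𝓝 3),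
      Berry.RPlanckAt ρ D φ m 0, ∀ a, Berry.RPlanckAt ρ D φ m a, Berry.RFourPt ρ D φ m,
      Berry.RGaussUpToFour ρ D φ m] := by
  have S := Berry.surf_of_cocompact hD hDm hK (continuous_of_smooth hρ) hρΓ hφ
  have hcorr : Tendsto (fun n => Berry.rAvg ρ D fun z => φ n z ^ 4) atTop (𝓝 3) →
      Berry.RGaussUpToFour ρ D φ m := by
    intro h
    obtain ⟨h4, h3, h2, h1⟩ := corr_surface hDm hD hK hρ hρΓ hφ hs hq (C := 4)
      ((h.eventually_lt_const (by norm_num : (3 : ℝ) < 4)).mono fun n hn => hn.le)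
    refine ⟨fun x => ?_, fun x y => ?_, fun x y z => ?_, fun x₁ x₂ x₃ x₄ => ?_⟩
    · have := h1 ![x]
      simpa [Fin.prod_univ_one] using this
    · have := h2 ![x, y]
      simpa [Fin.prod_univ_two] using this
    · have := h3 ![x, y, z]
      simp only [Fin.prod_univ_three] at this
      exact this
    · have a1 := h4 ![x₁, x₂, x₃, x₄]
      simp only [Fin.prod_univ_four] at a1
      have a2 : Tendsto (fun n => (Berry.rAvg ρ D (fun z => φ n z ^ 4) - 3)
          * defc ![x₁, x₂, x₃, x₄]) atTop (𝓝 ((3 - 3) * defc ![x₁, x₂, x₃, x₄])) :=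
        (h.sub_const 3).mul_const _
      have a3 := (a1.add a2).add_const (wick ![x₁, x₂, x₃, x₄])
      rw [sub_self, zero_mul, zero_add, zero_add] at a3
      refine a3.congr fun n => ?_
      simp only [Matrix.cons_val]
      ring
  tfae_have 1 → 5 := hcorr
  tfae_have 5 → 4 := fun h => h.2.2.2
  tfae_have 4 → 3 := by
    intro hf a
    have h3 := four_zero S hf
    have hG := hcorr h3
    obtain ⟨B₁, hB₁⟩ := h3.bddAbove_range
    have hB' : ∀ n, (Berry.rAvg ρ D fun z => φ n z ^ 4) ≤ B₁ := fun n => hB₁ ⟨n, rfl⟩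
    have hP := Berry.rFrameProb_isProb S.geo
    obtain ⟨B₂, hdat⟩ := S.dat hB'
    obtain ⟨R, B', hR, hA⟩ := hdat.aWave hB'
    have h4 : ∀ x₁ x₂ x₃ x₄, Tendsto (fun n => Berry.c4 (Berry.rFrameProb ρ D)
        (Berry.wW ρ φ m R) n x₁ x₂ x₃ x₄) atTop (𝓝 ((1:ℝ) ^ 2 * (Berry.waveK (x₁ - x₂)
          * Berry.waveK (x₃ - x₄) + Berry.waveK (x₁ - x₃) * Berry.waveK (x₂ - x₄)
          + Berry.waveK (x₁ - x₄) * Berry.waveK (x₂ - x₃)))) := by
      intro x₁ x₂ x₃ x₄
      rw [one_pow, one_mul]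
      refine (hf x₁ x₂ x₃ x₄).congr' ?_
      filter_upwards [S.c4_ev hR x₁ x₂ x₃ x₄] with n hn
      exact hn.symm
    rw [S.planck_iff hR]
    refine hA.planck_of_gauss (v := 1) ?_ h4 a
    have h2 := hG.2.1 0 0
    rw [sub_zero, Berry.waveK_zero] at h2
    refine h2.congr' ?_
    filter_upwards [S.c2_ev hR 0 0] with n hn
    exact hn.symm
  tfae_have 3 → 2 := fun h => h 0
  tfae_have 2 → 1 := by
    intro h
    rw [Metric.tendsto_atTop]
    intro ε hε
    obtain ⟨N, hN⟩ := eventually_atTop.1 ((S.upper' h (half_pos hε)).and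
      (lower_surface hDm hD hK hρ hρΓ hφ hs hq (half_pos hε)))
    refine ⟨N, fun n hn => ?_⟩
    obtain ⟨h1, h2⟩ := hN n hn
    rw [Real.dist_eq, abs_lt]
    constructor <;> linarith
  tfae_finish

end

end QE


end

section

/-!
From jets to values, without any hypothesis on weak limits.
-/

open MeasureTheory Filter Topology Set Complex
open scoped ContDiff

namespace QE

noncomputable section

variable {U : Set ℂ} {h : ℕ → ℝ} {a : ℂ → ℂ} {g : ℂ → ℂ} {φ : ℕ → ℂ → ℂ}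

/-- the truncated jet expansion of the rotation average of a product of four values -/
def TN (h : ℕ → ℝ) (a : ℂ → ℂ) (φ : ℕ → ℂ → ℂ) (y : Fin 4 → ℂ) (ζ : ℂ → ℂ) (N n : ℕ) : ℂ :=
  ∑ p ∈ Fintype.piFinset (fun _ : Fin 4 => Finset.Icc (-(N : ℤ)) N),
    (∏ i, CN N (p i) (y i)) * ((if ∑ i, p i = 0 then 1 else 0)
      * ∫ z, ζ z * (E h a φ (p 0) n z * E h a φ (p 1) n z
        * (E h a φ (p 2) n z * E h a φ (p 3) n z)))

namespace Setup

variable (S : Setup U g a h φ)

include S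

/-- **The bridge from jets to values.**  For every sequence bounded in `L⁴` -/
theorem bridge {K : Set ℂ} (hK : IsCompact K) {δ : ℝ} (hδ : 0 < δ)
    (hδU : Metric.cthickening (2 * δ) K ⊆ U) {q : ℤ} (hq : q ≠ 0) (y : Fin 4 → ℂ)
    (ξ : Fin 4 → ℕ → ℝ → ℂ → ℂ) (hξ : ∀ i, Disp h a K q (y i) (ξ i)) {ζ : ℂ → ℂ}
    (hζ : Test U ζ) (hζK : tsupport ζ ⊆ K) {ε : ℝ} (hε : 0 < ε) :
    ∃ N₀ : ℕ, ∀ N ≥ N₀, ∀ᶠ n in atTop,
      ‖(∫ θ, (∫ z, ζ z * ∏ i, φ n (z + h n * a z * ξ i n θ z)) ∂ang) - TN h a φ y ζ N n‖ ≤ ε := by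
  have hKU : K ⊆ U := (Metric.self_subset_cthickening K).trans hδU
  have hset : ∀ f : ℂ → ℂ, ∫ z, ζ z * f z = ∫ z in K, ζ z * f z := by
    intro f
    rw [setIntegral_eq_integral_of_forall_compl_eq_zero]
    intro z hz
    rw [image_eq_zero_of_notMem_tsupport (fun hz' => hz (hζK hz')), zero_mul]
  have hζc : ContinuousOn ζ K := hζ.smooth.continuous.continuousOn
  obtain ⟨N₀, hN₀⟩ := S.rot_close hK hδ hδU q (fun _ => true) y ξ hξ hζc hε
  refine ⟨N₀, fun N hN => ?_⟩
  filter_upwards [hN₀ N hN] with n hn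
  simp only [fld, tay, if_true] at hn
  have e1 := S.rot_expand hK hKU hq y hζc N n
  simp only [Fin.prod_univ_four] at e1
  rw [e1] at hn
  unfold TN
  simp only [hset]
  simp only [Fin.prod_univ_four]
  refine le_trans (le_of_eq ?_) hn
  congr 2
  refine Finset.sum_congr rfl fun p _ => ?_
  congr 2
  congr 1; funext z
  ring

end Setup

end

end QE


end

section

/-!
Quantum ergodic sequences multiplied by constants: two-point and four-point functions.
-/

open Complex MeasureTheory Filter Topology Set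
open scoped ContDiff

namespace QE

noncomputable section

variable {U : Set ℂ} {h : ℕ → ℝ} {a : ℂ → ℂ} {g : ℂ → ℂ} {φ : ℕ → ℂ → ℂ}

lemma dz_iter {f : ℂ → ℂ} (hU : IsOpen U) (hf : ContDiffOn ℝ ∞ f U) (c : ℂ) (k : ℕ) :
    ContDiffOn ℝ ∞ (dz^[k] f) U ∧ ∀ z ∈ U, dz^[k] (fun w => c * f w) z = c * dz^[k] f z := by
  induction k with
  | zero => exact ⟨hf, fun z _ => rfl⟩
  | succ k ih =>
    rw [Function.iterate_succ']
    refine ⟨contDiffOn_dz hU ih.1, fun z hz => ?_⟩
    have h1 : DifferentiableAt ℝ (dz^[k] f) z :=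
      ((ih.1.contDiffAt (hU.mem_nhds hz)).differentiableAt (by simp))
    simp only [Function.comp_apply]
    rw [dz_congr_on hU ih.2 hz, dz_const_mul c h1]

namespace Setup

variable (S : Setup U g a h φ)

include S

/-- the two-point functions, with a constant -/
theorem two_c {c : ℂ} (h0 : ∀ ζ : ℂ → ℂ, Test U ζ →
      Tendsto (fun n => ∫ z, ζ z * (E h a φ 0 n z * E h a φ 0 n z)) atTop (𝓝 (c * ∫ z, ζ z)))
    (h1 : ∀ k : ℕ, 1 ≤ k → ∀ ζ : ℂ → ℂ, Test U ζ →
      Tendsto (fun n => ∫ z, ζ z * (E h a φ 0 n z * E h a φ k n z)) atTop (𝓝 0))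
    (j m : ℤ) {ζ : ℂ → ℂ} (hζ : Test U ζ) :
    Tendsto (fun n => ∫ z, ζ z * (E h a φ j n z * E h a φ m n z)) atTop
      (𝓝 (c * (P j m * ∫ z, ζ z))) := by
  -- the case `j = 0`
  have base : ∀ m : ℤ, Tendsto (fun n => ∫ z, ζ z * (E h a φ 0 n z * E h a φ m n z)) atTop
      (𝓝 (c * (P 0 m * ∫ z, ζ z))) := by
    intro m
    unfold P
    cases m with
    | ofNat m =>
      cases m with
      | zero =>
        have := h0 ζ hζ
        simpa using this
      | succ m =>
        have h2 := h1 (m + 1) (by omega) ζ hζ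
        have h3 : ¬ ((0 : ℤ) + Int.ofNat (m + 1) = 0) := by
          rw [zero_add]; exact Int.ofNat_ne_zero.2 (Nat.succ_ne_zero m)
        rw [if_neg h3, zero_mul, mul_zero]
        exact h2
    | negSucc m =>
      have h2 := h1 (m + 1) (by omega) _ hζ.conj
      have h3 : ¬ ((0 : ℤ) + Int.negSucc m = 0) := by
        rw [zero_add]; exact Int.negSucc_ne_zero m
      rw [if_neg h3, zero_mul, mul_zero]
      have h4 := ((continuous_conj.tendsto 0).comp h2).const_mul ((-1 : ℂ) ^ (m + 1))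
      rw [map_zero, mul_zero] at h4
      refine h4.congr fun n => ?_
      simp only [Function.comp_apply]
      rw [← integral_conj, ← integral_const_mul]
      have e2 := hζ.integral_congr (f := fun z => (-1 : ℂ) ^ (m + 1) * (E h a φ 0 n z
        * (starRingEnd ℂ) (jet h a φ (m + 1) n z)))
        (f' := fun z => E h a φ 0 n z * E h a φ (Int.negSucc m) n z) (fun z _ => by
          show _ = E h a φ 0 n z * ((-1) ^ (m + 1) * (starRingEnd ℂ) (jet h a φ (m + 1) n z))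
          ring)
      rw [← e2]
      have e3 := hζ.integral_congr (f := fun z => (-1 : ℂ) ^ (m + 1) * (E h a φ 0 n z
        * (starRingEnd ℂ) (jet h a φ (m + 1) n z)))
        (f' := fun z => (-1 : ℂ) ^ (m + 1) * ((starRingEnd ℂ) (E h a φ 0 n z)
        * (starRingEnd ℂ) (E h a φ ((m + 1 : ℕ) : ℤ) n z))) (fun z hz => by
          have : (starRingEnd ℂ) (E h a φ 0 n z) = E h a φ 0 n z := S.real n z hz
          rw [this]
          rfl)
      rw [e3]
      refine MeasureTheory.integral_congr_ae (Filter.Eventually.of_forall fun z => ?_)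
      beta_reduce
      simp only [map_mul, starRingEnd_self_apply]
      ring
  have hstep : ∀ j m : ℤ, (0 : ℂ) - c * (P j (m + 1) * ∫ z, ζ z) = c * (P (j + 1) m * ∫ z, ζ z) := by
    intro j m
    unfold P
    have h1 : (j + (m + 1) = 0) ↔ ((j + 1) + m = 0) := by constructor <;> intro h <;> linarith
    by_cases h2 : (j + 1) + m = 0
    · rw [if_pos (h1.2 h2), if_pos h2, zpow_add_one₀ (by norm_num)]; ring
    · rw [if_neg (fun h3 => h2 (h1.1 h3)), if_neg h2]; ring
  -- induction on `j`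
  have up : ∀ j : ℤ, (∀ m : ℤ, Tendsto (fun n => ∫ z, ζ z * (E h a φ j n z * E h a φ m n z)) atTop
      (𝓝 (c * (P j m * ∫ z, ζ z)))) →
      ∀ m : ℤ, Tendsto (fun n => ∫ z, ζ z * (E h a φ (j + 1) n z * E h a φ m n z)) atTop
      (𝓝 (c * (P (j + 1) m * ∫ z, ζ z))) := by
    intro j hj m
    have h2 := (S.int_add j m hζ).sub (hj (m + 1))
    rw [hstep] at h2
    refine h2.congr fun n => ?_
    ring
  have down : ∀ j : ℤ, (∀ m : ℤ, Tendsto (fun n => ∫ z, ζ z * (E h a φ j n z * E h a φ m n z)) atTop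
      (𝓝 (c * (P j m * ∫ z, ζ z)))) →
      ∀ m : ℤ, Tendsto (fun n => ∫ z, ζ z * (E h a φ (j - 1) n z * E h a φ m n z)) atTop
      (𝓝 (c * (P (j - 1) m * ∫ z, ζ z))) := by
    intro j hj m
    have h2 := (S.int_add (j - 1) (m - 1) hζ).sub (hj (m - 1))
    rw [sub_add_cancel, sub_add_cancel] at h2
    have e := hstep (j - 1) (m - 1)
    rw [sub_add_cancel, sub_add_cancel] at e
    have e2 : (0 : ℂ) - c * (P j (m - 1) * ∫ z, ζ z) = c * (P (j - 1) m * ∫ z, ζ z) := by
      rw [← e]; ring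
    rw [e2] at h2
    refine h2.congr fun n => ?_
    ring
  induction j using Int.induction_on generalizing m with
  | zero => exact base m
  | succ j ih => exact up _ ih m
  | pred j ih => exact down _ ih m

/-- the weak limits of the products of two jets -/
theorem jetLim_c {c : ℂ} (h2 : ∀ (j m : ℤ) (η : ℂ → ℂ), Test U η →
      Tendsto (fun n => ∫ z, η z * (E h a φ j n z * E h a φ m n z)) atTop
      (𝓝 (c * (P j m * ∫ z, η z)))) :
    JetLim U h a φ (fun k _ => if k = 0 then c else 0) := by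
  have hloc : ∀ d : ℂ, LocL2 U (fun _ => d) := fun d =>
    LocL2.of_smooth (contDiffOn_const)
  refine ⟨fun k => hloc _, fun j m => ?_⟩
  refine TLim.wlim S.op (S.sm2 j m) (S.bd2 j m) ⟨?_, fun ζ hζ => ?_⟩
  · exact hloc _
  · refine (h2 j m ζ hζ).congr' (Eventually.of_forall fun n => rfl) |>.trans (le_of_eq ?_)
    congr 1
    rw [integral_mul_const]
    unfold P
    by_cases h3 : j + m = 0
    · simp only [h3, if_true]; ring
    · simp only [h3, if_false]; ring

/-- **The local four-point formula, with a constant.** -/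
theorem four_local_c {c : ℂ} (htwo : ∀ (j m : ℤ) (η : ℂ → ℂ), Test U η →
      Tendsto (fun n => ∫ z, η z * (E h a φ j n z * E h a φ m n z)) atTop
      (𝓝 (c * (P j m * ∫ z, η z)))) {K : Set ℂ} (hK : IsCompact K) {δ : ℝ} (hδ : 0 < δ)
    (hδU : Metric.cthickening (2 * δ) K ⊆ U) {q : ℤ} (hq : q ≠ 0) (y : Fin 4 → ℂ)
    (ξ : Fin 4 → ℕ → ℝ → ℂ → ℂ) (hξ : ∀ i, Disp h a K q (y i) (ξ i)) {ζ : ℂ → ℂ}
    (hζ : Test U ζ) (hζK : tsupport ζ ⊆ K) :
    Tendsto (fun n => (∫ θ, (∫ z, ζ z * ∏ i, φ n (z + h n * a z * ξ i n θ z)) ∂ang)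
      - ((c ^ 2 * ∫ z, ζ z) * (wick y : ℂ)
        + ((∫ z, ζ z * (φ n z * φ n z * (φ n z * φ n z))) - 3 * (c ^ 2 * ∫ z, ζ z)) * (defc y : ℂ)))
      atTop (𝓝 0) := by
  set A : ℂ := c ^ 2 * ∫ z, ζ z with hA
  obtain ⟨C₁, hC₁⟩ := (S.bd2 0 0).test_mul (S.sm2 0 0) (S.bd2 0 0) (S.sm2 0 0) hζ
  have hκ : ∀ᶠ n in atTop, ‖(∫ z, ζ z * (φ n z * φ n z * (φ n z * φ n z))) - 3 * A‖
      ≤ C₁ + ‖(3 : ℂ) * A‖ := by
    filter_upwards [hC₁] with n hn
    exact (norm_sub_le _ _).trans (add_le_add hn le_rfl)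
  have L := S.jetLim_c htwo
  have hGam : ∀ j m k l : ℤ, Gam (fun k _ => if k = 0 then c else 0) ζ j m k l
      = A * G j m k l := by
    intro j m k l
    have hW : ∀ (j m : ℤ) (z : ℂ), WW (fun k _ => if k = 0 then c else 0) j m z = c * P j m := by
      intro j m z
      unfold WW P
      by_cases h3 : j + m = 0
      · simp only [h3, if_true]; ring
      · simp only [h3, if_false]; ring
    unfold Gam GW
    simp only [hW]
    rw [integral_mul_const, hA]
    unfold G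
    ring
  refine lim_combine
    (X := fun n => ∫ θ, (∫ z, ζ z * ∏ i, φ n (z + h n * a z * ξ i n θ z)) ∂ang)
    (T := TN h a φ y ζ) (α := fun _ => A)
    (β := fun n => (∫ z, ζ z * (φ n z * φ n z * (φ n z * φ n z))) - 3 * A)
    (C := max ‖A‖ (C₁ + ‖(3 : ℂ) * A‖))
    (fun ε hε => S.bridge hK hδ hδU hq y ξ hξ hζ hζK hε) ?_ (model_wick y) (model_defc y)
    (Eventually.of_forall fun n => le_max_left _ _)
    (hκ.mono fun n hn => hn.trans (le_max_right _ _))
  intro N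
  have h1 : ∀ p : Fin 4 → ℤ, Tendsto (fun n => (if ∑ i, p i = 0 then 1 else 0)
      * (∫ z, ζ z * (E h a φ (p 0) n z * E h a φ (p 1) n z
        * (E h a φ (p 2) n z * E h a φ (p 3) n z)))
      - (A * ((if ∑ i, p i = 0 then 1 else 0) * G (p 0) (p 1) (p 2) (p 3))
        + ((∫ z, ζ z * (φ n z * φ n z * (φ n z * φ n z))) - 3 * A)
          * ((if ∑ i, p i = 0 then 1 else 0) * pat (p 0) (p 1) (p 2) (p 3)))) atTop (𝓝 0) := by
    intro p
    by_cases hp : ∑ i, p i = 0
    · simp only [if_pos hp, one_mul]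
      rw [Fin.sum_univ_four] at hp
      refine (jets_four_var S L hζ (p 0) (p 1) (p 2) (p 3) hp).congr fun n => ?_
      unfold YY
      rw [hGam, hGam]
      have e : G 0 0 0 0 = 3 := by unfold G P; norm_num
      have e2 : ∫ z, ζ z * (E h a φ 0 n z * E h a φ 0 n z * (E h a φ 0 n z * E h a φ 0 n z))
          = ∫ z, ζ z * (φ n z * φ n z * (φ n z * φ n z)) := rfl
      rw [e, e2]
      ring
    · simp only [if_neg hp, zero_mul, mul_zero, add_zero, sub_zero]
      exact tendsto_const_nhds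
  have h2 := tendsto_finset_sum (Fintype.piFinset (fun _ : Fin 4 => Finset.Icc (-(N : ℤ)) N))
    fun p _ => (h1 p).const_mul (∏ i, CN N (p i) (y i))
  simp only [mul_zero, Finset.sum_const_zero] at h2
  refine h2.congr fun n => ?_
  unfold TN
  rw [Finset.mul_sum, Finset.mul_sum, ← Finset.sum_add_distrib, ← Finset.sum_sub_distrib]
  exact Finset.sum_congr rfl fun p _ => by ring

end Setup

/-- a quantum ergodic sequence multiplied by constants -/
theorem setup_scale {g₀ : ℂ → ℝ} (hU : IsOpen U) (hg : ContDiffOn ℝ ∞ g₀ U)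
    (hgpos : ∀ z ∈ U, 0 < g₀ z) (H : LocalQE U g₀ h φ) (s : ℕ → ℝ)
    (hb : LBdd 4 U (fun n z => (s n : ℂ) * φ n z)) :
    Setup U (fun z => (g₀ z : ℂ)) (wt g₀) h (fun n z => (s n : ℂ) * φ n z) := by
  have hgC : ContDiffOn ℝ ∞ (fun z => (g₀ z : ℂ)) U := ofRealCLM.contDiff.comp_contDiffOn hg
  have hsm : SmoothSeq U (fun n z => (s n : ℂ) * φ n z) := fun n =>
    contDiffOn_const.mul (H.smooth n)
  have heig : ∀ n, ∀ z ∈ U, 4 * (h n : ℂ) ^ 2 * dz (dzb (fun w => (s n : ℂ) * φ n w)) z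
      = - ((g₀ z : ℝ) : ℂ) * ((s n : ℂ) * φ n z) := by
    intro n z hz
    have d1 : ∀ w ∈ U, DifferentiableAt ℝ (φ n) w := fun w hw =>
      ((H.smooth n).contDiffAt (hU.mem_nhds hw)).differentiableAt (by simp)
    have d2 : DifferentiableAt ℝ (dzb (φ n)) z :=
      ((contDiffOn_dzb hU (H.smooth n)).contDiffAt (hU.mem_nhds hz)).differentiableAt (by simp)
    have e1 : dz (dzb (fun w => (s n : ℂ) * φ n w)) z = (s n : ℂ) * dz (dzb (φ n)) z := by
      rw [dz_congr_on hU (g := fun w => (s n : ℂ) * dzb (φ n) w)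
        (fun w hw => dzb_const_mul _ (d1 w hw)) hz, dz_const_mul _ d2]
    rw [e1]
    have := H.eig n z hz
    linear_combination (s n : ℂ) * this
  refine ⟨hU, H.hpos, H.hlim, ?_, hgC, fun z _ => conj_ofReal _, ?_, ?_, ?_, heig⟩
  · have h1 : ContDiffOn ℝ ∞ (fun z => (Real.sqrt (g₀ z))⁻¹) U :=
      (hg.sqrt fun z hz => (hgpos z hz).ne').inv fun z hz => (Real.sqrt_pos.2 (hgpos z hz)).ne'
    exact ofRealCLM.contDiff.comp_contDiffOn h1
  · intro z hz
    have h0 := hgpos z hz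
    have h1 : (Real.sqrt (g₀ z)) ^ 2 = g₀ z := Real.sq_sqrt h0.le
    have h2 : (Real.sqrt (g₀ z))⁻¹ ^ 2 * g₀ z = 1 := by
      rw [inv_pow, h1, inv_mul_cancel₀ h0.ne']
    unfold wt
    exact_mod_cast h2
  · refine tame_of_eigen hU H.hlim (ellProp hU H.hpos H.hlim) hsm hb
      (b := fun z => -(1 / 4) * (g₀ z : ℂ)) (contDiffOn_const.mul hgC) fun n z hz => ?_
    have := heig n z hz
    unfold hLap
    linear_combination (1 / 4) * this
  · intro n z hz
    rw [map_mul, conj_ofReal, H.real n z hz]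

/-- its two-point functions -/
theorem two_scale {g₀ : ℂ → ℝ} (hU : IsOpen U) (hg : ContDiffOn ℝ ∞ g₀ U)
    (hgpos : ∀ z ∈ U, 0 < g₀ z) (H : LocalQE U g₀ h φ) {s : ℕ → ℝ}
    (hb : LBdd 4 U (fun n z => (s n : ℂ) * φ n z)) {c : ℝ}
    (hc : Tendsto (fun n => s n ^ 2) atTop (𝓝 c)) (j m : ℤ) (η : ℂ → ℂ) (hη : Test U η) :
    Tendsto (fun n => ∫ z, η z * (E h (wt g₀) (fun n z => (s n : ℂ) * φ n z) j n z
      * E h (wt g₀) (fun n z => (s n : ℂ) * φ n z) m n z)) atTop
      (𝓝 ((c : ℂ) * (P j m * ∫ z, η z))) := by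
  have S := setup_scale hU hg hgpos H s hb
  have hcc : Tendsto (fun n => ((s n ^ 2 : ℝ) : ℂ)) atTop (𝓝 (c : ℂ)) :=
    (continuous_ofReal.tendsto c).comp hc
  refine S.two_c (fun ζ hζ => ?_) (fun k hk ζ hζ => ?_) j m hη
  · refine (hcc.mul (H.mass ζ hζ)).congr fun n => ?_
    rw [← integral_const_mul]
    refine integral_congr_ae (Eventually.of_forall fun z => ?_)
    show ((s n ^ 2 : ℝ) : ℂ) * (ζ z * (φ n z * φ n z))
      = ζ z * (((s n : ℂ) * φ n z) * ((s n : ℂ) * φ n z))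
    push_cast; ring
  · refine S.mom_jet (fun ζ hζ => ?_) hζ
    have h1 := hcc.mul (H.mom k hk ζ hζ)
    rw [mul_zero] at h1
    refine h1.congr fun n => ?_
    rw [← integral_const_mul]
    have e := hζ.integral_congr (f := fun z => ((s n : ℂ) * φ n z) * ((h n : ℂ) ^ k
      * dz^[k] (fun w => (s n : ℂ) * φ n w) z))
      (f' := fun z => ((s n : ℂ) * φ n z) * ((h n : ℂ) ^ k * ((s n : ℂ) * dz^[k] (φ n) z)))
      (fun z hz => by rw [(dz_iter hU (H.smooth n) (s n : ℂ) k).2 z hz])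
    rw [e]
    refine integral_congr_ae (Eventually.of_forall fun z => ?_)
    beta_reduce
    push_cast; ring

end

end QE


end

section

/-!
The four-point formula for all quantum ergodic sequences on closed surfaces, without any bound for the
fourth moments.
-/

open MeasureTheory Filter Topology Set MatrixGroups UpperHalfPlane
open scoped ContDiff

namespace QE

noncomputable section

variable {Γ : Subgroup SL(2, ℝ)} {ρ : ℍ → ℝ} {D : Set ℍ}

/-- the two point functions of the jets, with a constant -/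
def TwoPtC (ρ : ℍ → ℝ) (φ : ℕ → ℍ → ℝ) (h : ℕ → ℝ) (c : ℝ) : Prop :=
  ∀ (j k : ℤ) (η : ℂ → ℂ), Test HH η →
    Tendsto (fun n => ∫ z, η z * (E h (wt (gw ρ)) (fun n z => (φ n (ofComplex z) : ℂ)) j n z
      * E h (wt (gw ρ)) (fun n z => (φ n (ofComplex z) : ℂ)) k n z)) atTop
      (𝓝 ((c : ℂ) * (P j k * ∫ z, η z)))

/-- the setting for quantum ergodic sequences multiplied by constants -/
theorem ws_scale [Countable Γ] (hDm : MeasurableSet D)
    (hD : IsFundamentalDomain Γ D (volume : Measure ℍ))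
    (hK : ∃ K : Set ℍ, IsCompact K ∧ ∀ z, ∃ γ ∈ Γ, γ • z ∈ K)
    (hρ : ContDiffOn ℝ ∞ (fun w : ℂ => ρ (ofComplex w)) {w | 0 < w.im})
    (hρΓ : ∀ γ ∈ Γ, ∀ z, ρ (γ • z) = ρ z)
    {φ : ℕ → ℍ → ℝ} {m : ℕ → ℝ} (hφ : Berry.REigenSeq Γ ρ φ m)
    (hs : ∀ n, ContDiffOn ℝ ∞ (fun w : ℂ => φ n (ofComplex w)) {w | 0 < w.im})
    (hq : QuantumErgodic ρ φ m) {s : ℕ → ℝ} {C : ℝ}
    (hb : ∀ᶠ n in atTop, Berry.rAvg ρ D (fun z => (s n * φ n z) ^ 4) ≤ C) {c : ℝ}
    (hc : Tendsto (fun n => s n ^ 2) atTop (𝓝 c)) :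
    ∃ N, WS Γ ρ D (fun n z => s (n + N) * φ (n + N) z) (fun n => m (n + N))
        (fun n => 1 / m (n + N)) (fun z => ((gw ρ z : ℝ) : ℂ)) ∧
      TwoPtC ρ (fun n z => s (n + N) * φ (n + N) z) (fun n => 1 / m (n + N)) c := by
  obtain ⟨N, H⟩ := localQE_of_surface hρ hφ hs hq
  have hρc := continuous_of_smooth hρ
  have hgeo : Berry.Geo Γ ρ D := ⟨hD, hDm, Berry.finite_of_cocompact hD hK, hρΓ,
    Berry.bdd_of_cocompact hρc hρΓ hK, Berry.unif_of_cocompact hρc hρΓ hK⟩
  have hpc : ∀ n, Continuous fun z => s (n + N) * φ (n + N) z := fun n =>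
    continuous_const.mul (continuous_of_smooth (hs _))
  have hpi : ∀ n, ∀ γ ∈ Γ, ∀ z, s (n + N) * φ (n + N) (γ • z) = s (n + N) * φ (n + N) z :=
    fun n γ hγ z => by rw [hφ.invariant _ γ hγ z]
  have hfun : (fun (n : ℕ) (z : ℂ) => (((s (n + N) * φ (n + N) (ofComplex z) : ℝ)) : ℂ))
      = fun n z => (s (n + N) : ℂ) * (φ (n + N) (ofComplex z) : ℂ) := by
    funext n z
    rw [Complex.ofReal_mul]
  have hL : LBdd 4 HH (fun n z => (s (n + N) : ℂ) * (φ (n + N) (ofComplex z) : ℂ)) := by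
    rw [← hfun]
    intro K' hK' hK'U
    obtain ⟨c, hc0, hc⟩ := loc_le hgeo hρc hK hK' hK'U
    refine ⟨c * C, ?_⟩
    filter_upwards [(tendsto_add_atTop_nat N).eventually hb] with n hn
    have h4 : ∀ z : ℂ, ‖((s (n + N) * φ (n + N) (ofComplex z) : ℝ) : ℂ)‖ ^ 4
        = (s (n + N) * φ (n + N) (ofComplex z)) ^ 4 := fun z => by
      rw [Complex.norm_real, Real.norm_eq_abs]
      exact Even.pow_abs ⟨2, rfl⟩ _
    simp only [h4]
    exact (hc (fun z => (s (n + N) * φ (n + N) z) ^ 4) ((hpc _).pow 4) (fun z => by positivity)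
      (fun γ hγ z => by rw [hpi n γ hγ z])).trans (by gcongr)
  have hgp : ∀ z ∈ HH, 0 < gw ρ z := fun z hz => by
    have : 0 < z.im := hz
    unfold gw
    positivity
  have S := setup_scale isOpen_HH (smooth_weight hρ) hgp H (fun n => s (n + N)) hL
  have hpos : ∀ n, 0 < m (n + N) := fun n => one_div_pos.1 (H.hpos n)
  refine ⟨N, ⟨hgeo, hK, hρc, hpc, hpi, hpos,
    hφ.tendsto.comp (tendsto_add_atTop_nat N), fun n => rfl, ?_⟩, fun j k η hη => ?_⟩
  · simp only [hfun]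
    exact S
  · simp only [hfun]
    exact two_scale isOpen_HH (smooth_weight hρ) hgp H hL
      (hc.comp (tendsto_add_atTop_nat N)) j k η hη

lemma WS.locLim_four_c {φ : ℕ → ℍ → ℝ} {m h : ℕ → ℝ} {g' : ℂ → ℂ} (W : WS Γ ρ D φ m h g') {c : ℝ}
    (htwo : TwoPtC ρ φ h c) (x : Fin 4 → ℂ) :
    LocLim ρ h φ x (c ^ 2 * wick x - 3 * c ^ 2 * defc x) (defc x) := by
  intro K δ hK hδ hδU ξ hξ ψ hψ hψs hψK
  have hKU : K ⊆ HH := (Metric.self_subset_cthickening K).trans hδU
  obtain ⟨hT, hsub⟩ := test_real hψ hψs hψK hKU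
  refine (W.set.four_local_c htwo hK hδ hδU (q := 2) (by norm_num) x ξ hξ hT hsub).congr
    fun n => ?_
  have e2 : ∀ z : ℂ, (φ n (ofComplex z) : ℂ) ^ 4 = (φ n (ofComplex z) : ℂ) * φ n (ofComplex z)
      * ((φ n (ofComplex z) : ℂ) * φ n (ofComplex z)) := fun z => by ring
  simp only [e2]
  push_cast
  ring

/-- the correlations of a quantum ergodic sequence multiplied by constants -/
theorem corr_scale [Countable Γ] (hDm : MeasurableSet D)
    (hD : IsFundamentalDomain Γ D (volume : Measure ℍ))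
    (hK : ∃ K : Set ℍ, IsCompact K ∧ ∀ z, ∃ γ ∈ Γ, γ • z ∈ K)
    (hρ : ContDiffOn ℝ ∞ (fun w : ℂ => ρ (ofComplex w)) {w | 0 < w.im})
    (hρΓ : ∀ γ ∈ Γ, ∀ z, ρ (γ • z) = ρ z)
    {φ : ℕ → ℍ → ℝ} {m : ℕ → ℝ} (hφ : Berry.REigenSeq Γ ρ φ m)
    (hs : ∀ n, ContDiffOn ℝ ∞ (fun w : ℂ => φ n (ofComplex w)) {w | 0 < w.im})
    (hq : QuantumErgodic ρ φ m) {s : ℕ → ℝ} {C : ℝ}
    (hb : ∀ᶠ n in atTop, Berry.rAvg ρ D (fun z => (s n * φ n z) ^ 4) ≤ C) {c : ℝ}
    (hc : Tendsto (fun n => s n ^ 2) atTop (𝓝 c)) (x : Fin 4 → ℂ) :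
    Tendsto (fun n =>
      s n ^ 4 * (∫ p, ∏ i, Berry.rWave ρ (φ n) (m n) (x i) p ∂(Berry.rFrameProb ρ D))
        - (c ^ 2 * wick x + (s n ^ 4 * Berry.rAvg ρ D (fun z => φ n z ^ 4) - 3 * c ^ 2) * defc x))
        atTop (𝓝 0) := by
  obtain ⟨N, W, htwo⟩ := ws_scale hDm hD hK hρ hρΓ hφ hs hq hb hc
  have h1 := W.wrap x (prod_le_four le_rfl) (W.locLim_four_c htwo x)
  rw [← tendsto_add_atTop_iff_nat N]
  refine h1.congr fun n => ?_
  have e1 : ∫ p, ∏ i, Berry.rWave ρ (fun z => s (n + N) * φ (n + N) z) (m (n + N)) (x i) p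
      ∂(Berry.rFrameProb ρ D) = s (n + N) ^ 4 * ∫ p, ∏ i, Berry.rWave ρ (φ (n + N)) (m (n + N))
      (x i) p ∂(Berry.rFrameProb ρ D) := by
    rw [← integral_const_mul]
    congr 1; funext p
    simp only [Fin.prod_univ_four]
    unfold Berry.rWave
    ring
  have e2 : Berry.rAvg ρ D (fun z => (s (n + N) * φ (n + N) z) ^ 4)
      = s (n + N) ^ 4 * Berry.rAvg ρ D (fun z => φ (n + N) z ^ 4) := by
    unfold Berry.rAvg
    rw [← integral_const_mul]
    congr 1; funext z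
    ring
  rw [e1, e2]
  ring

/-- **The four-point formula for quantum ergodic sequences on closed surfaces.** -/
theorem four_surface [Countable Γ] (hDm : MeasurableSet D)
    (hD : IsFundamentalDomain Γ D (volume : Measure ℍ))
    (hK : ∃ K : Set ℍ, IsCompact K ∧ ∀ z, ∃ γ ∈ Γ, γ • z ∈ K)
    (hρ : ContDiffOn ℝ ∞ (fun w : ℂ => ρ (ofComplex w)) {w | 0 < w.im})
    (hρΓ : ∀ γ ∈ Γ, ∀ z, ρ (γ • z) = ρ z)
    {φ : ℕ → ℍ → ℝ} {m : ℕ → ℝ} (hφ : Berry.REigenSeq Γ ρ φ m)
    (hs : ∀ n, ContDiffOn ℝ ∞ (fun w : ℂ => φ n (ofComplex w)) {w | 0 < w.im})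
    (hq : QuantumErgodic ρ φ m) (x : Fin 4 → ℂ) :
    Tendsto (fun n =>
      ((∫ p, ∏ i, Berry.rWave ρ (φ n) (m n) (x i) p ∂(Berry.rFrameProb ρ D))
        - (wick x + (Berry.rAvg ρ D (fun z => φ n z ^ 4) - 3) * defc x))
        / Berry.rAvg ρ D (fun z => φ n z ^ 4)) atTop (𝓝 0) := by
  refine tendsto_of_subseq_tendsto fun ns hns => ?_
  -- the normalising constants
  set κ : ℕ → ℝ := fun n => Berry.rAvg ρ D (fun z => φ (ns n) z ^ 4) with hκ
  set s : ℕ → ℝ := fun n => (Real.sqrt (Real.sqrt (κ n)))⁻¹ with hsdef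
  have hκ2 : ∀ᶠ n in atTop, 2 ≤ κ n := by
    have := hns.eventually (lower_surface hDm hD hK hρ hρΓ hφ hs hq one_pos)
    filter_upwards [this] with n hn
    rw [hκ]
    linarith
  have hs4 : ∀ n, 2 ≤ κ n → s n ^ 4 = (κ n)⁻¹ := by
    intro n hn
    rw [hsdef]
    simp only
    rw [inv_pow]
    congr 1
    have h1 : Real.sqrt (Real.sqrt (κ n)) ^ 4 = (Real.sqrt (Real.sqrt (κ n)) ^ 2) ^ 2 := by ring
    rw [h1, Real.sq_sqrt (Real.sqrt_nonneg _), Real.sq_sqrt (by linarith)]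
  have hs01 : ∀ᶠ n in atTop, s n ^ 2 ∈ Icc (0 : ℝ) 1 := by
    filter_upwards [hκ2] with n hn
    have h4 := hs4 n hn
    have h5 : (s n ^ 2) ^ 2 ≤ 1 := by
      calc (s n ^ 2) ^ 2 = s n ^ 4 := by ring
        _ = (κ n)⁻¹ := h4
        _ ≤ 1 := inv_le_one_of_one_le₀ (by linarith)
    refine ⟨by positivity, ?_⟩
    by_contra hcon
    push Not at hcon
    nlinarith
  obtain ⟨c, -, ms, hms, hc⟩ := isCompact_Icc.tendsto_subseq' hs01.frequently
  refine ⟨ms, ?_⟩
  have hσ : Tendsto (fun n => ns (ms n)) atTop atTop := hns.comp hms.tendsto_atTop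
  have hκ2' : ∀ᶠ n in atTop, 2 ≤ κ (ms n) := hms.tendsto_atTop.eventually hκ2
  have hφ' : Berry.REigenSeq Γ ρ (fun n => φ (ns (ms n))) (fun n => m (ns (ms n))) :=
    ⟨fun n => hφ.invariant _, fun n => hφ.smooth _, fun n => hφ.eigen _, hφ.tendsto.comp hσ⟩
  have hq' : QuantumErgodic ρ (fun n => φ (ns (ms n))) (fun n => m (ns (ms n))) :=
    fun j k ζ h1 h2 h3 => (hq j k ζ h1 h2 h3).comp hσ
  have hb : ∀ᶠ n in atTop, Berry.rAvg ρ D (fun z => (s (ms n) * φ (ns (ms n)) z) ^ 4) ≤ 1 := by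
    filter_upwards [hκ2'] with n hn
    have e2 : Berry.rAvg ρ D (fun z => (s (ms n) * φ (ns (ms n)) z) ^ 4)
        = s (ms n) ^ 4 * κ (ms n) := by
      rw [hκ]
      unfold Berry.rAvg
      rw [← integral_const_mul]
      congr 1; funext z
      ring
    rw [e2, hs4 _ hn, inv_mul_cancel₀ (by linarith)]
  have key := corr_scale hDm hD hK hρ hρΓ hφ' (fun n => hs _) hq' (s := fun n => s (ms n)) hb hc x
  have k2 : Tendsto (fun n => (c ^ 2 - (s (ms n) ^ 2) ^ 2) * (wick x - 3 * defc x)) atTop (𝓝 0) := by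
    have h1 : Tendsto (fun n => c ^ 2 - (s (ms n) ^ 2) ^ 2) atTop (𝓝 (c ^ 2 - c ^ 2)) :=
      (hc.pow 2).const_sub (c ^ 2)
    rw [sub_self] at h1
    have := h1.mul_const (wick x - 3 * defc x)
    rwa [zero_mul] at this
  have k3 := key.add k2
  rw [add_zero] at k3
  refine k3.congr' ?_
  filter_upwards [hκ2'] with n hn
  have h4 := hs4 _ hn
  have hne : κ (ms n) ≠ 0 := by
    intro h0; rw [h0] at hn; linarith
  have e3 : (s (ms n) ^ 2) ^ 2 = (κ (ms n))⁻¹ := by rw [← h4]; ring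
  rw [e3, h4]
  change (κ (ms n))⁻¹ * _ - (c ^ 2 * wick x + ((κ (ms n))⁻¹ * κ (ms n) - 3 * c ^ 2) * defc x)
    + (c ^ 2 - (κ (ms n))⁻¹) * (wick x - 3 * defc x) = (_ - (wick x + (κ (ms n) - 3) * defc x)) / κ (ms n)
  field_simp
  ring

end

end QE


end
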