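import Mathlib
import Pool.Agent.BWM.C05
import Pool.Agent.BWM.C12
import Pool.Agent.BWM.C13
import Pool.Agent.BWM.C15
import Pool.Agent.LibH11.QEV.LocDefs

/-! Parts: Lib_helper67.QE.JetFull, LibH11.QEV.Full3, LibH11.QEV.Fix, LibH11.QEV.Fix2, LibH11.QEV.Mode, LibH11.QEV.Sym, LibH11.QEV.Gen, LibH11.QEV.Mix, LibH11.QEV.Mix2, LibH11.QEV.All, LibH11.QEV.Loc, LibH11.QEV.Loc2, LibH11.QEV.Loc3 -/

section

/-!
If the kurtosis converges to three then all the correlations of four jets are Gaussian.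
-/

open Complex MeasureTheory Filter Topology
open scoped ContDiff

namespace QE

noncomputable section

variable {U : Set ℂ} {h : ℕ → ℝ} {a : ℂ → ℂ} {g : ℂ → ℂ} {φ : ℕ → ℂ → ℂ}

theorem Setup.conj_E (S : Setup U g a h φ) (k : ℤ) (n : ℕ) (z : ℂ) (hz : z ∈ U) :
    (starRingEnd ℂ) (E h a φ k n z) = (-1 : ℂ) ^ k * E h a φ (-k) n z := by
  obtain ⟨q, rfl | rfl⟩ := k.eq_nat_or_neg
  · rw [S.E_neg q n z hz]
    have : E h a φ (q : ℤ) n z = jet h a φ q n z := rfl
    rw [this, zpow_natCast, ← mul_assoc, ← mul_pow]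
    norm_num
  · rw [S.E_neg q n z hz, neg_neg, map_mul, map_pow, map_neg, map_one, starRingEnd_self_apply,
      zpow_neg, zpow_natCast, ← inv_pow]
    norm_num
    rfl

/-- integrals of products of finite sums of products of two jets -/
theorem Setup.int_sum_sum (S : Setup U g a h φ) {ζ : ℂ → ℂ} (hζ : Test U ζ) (n N : ℕ)
    (α β γ δ : ℕ → ℤ) :
    ∑ t ∈ Finset.range N, ∑ u ∈ Finset.range N, ∫ z, ζ z * (E h a φ (α t) n z * E h a φ (β t) n z
      * (E h a φ (γ u) n z * E h a φ (δ u) n z))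
      = ∫ z, ζ z * ((∑ t ∈ Finset.range N, E h a φ (α t) n z * E h a φ (β t) n z)
        * (∑ u ∈ Finset.range N, E h a φ (γ u) n z * E h a φ (δ u) n z)) := by
  have e4 : ∀ t ∈ Finset.range N, ∑ u ∈ Finset.range N, ∫ z, ζ z
      * (E h a φ (α t) n z * E h a φ (β t) n z * (E h a φ (γ u) n z * E h a φ (δ u) n z))
      = ∫ z, ∑ u ∈ Finset.range N, ζ z
      * (E h a φ (α t) n z * E h a φ (β t) n z * (E h a φ (γ u) n z * E h a φ (δ u) n z)) :=
    fun t _ => (integral_finsetSum _ (fun u _ => S.int4 hζ n _ _ _ _)).symm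
  rw [Finset.sum_congr rfl e4, ← integral_finsetSum _ (fun t _ =>
    integrable_finsetSum _ (fun u _ => S.int4 hζ n _ _ _ _))]
  refine MeasureTheory.integral_congr_ae (Filter.Eventually.of_forall fun z => ?_)
  beta_reduce
  rw [Finset.sum_mul_sum, Finset.mul_sum]
  refine Finset.sum_congr rfl fun t _ => ?_
  rw [Finset.mul_sum]

theorem Setup.jets_full (S : Setup U g a h φ) (htwo : ∀ (j m : ℤ) (η : ℂ → ℂ), Test U η →
      Tendsto (fun n => ∫ z, η z * (E h a φ j n z * E h a φ m n z)) atTop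
      (𝓝 (P j m * ∫ z, η z))) {ρ : ℂ → ℝ} (hρ : Test U (fun z => (ρ z : ℂ)))
    (hρ0 : ∀ z, 0 ≤ ρ z)
    (h3 : Tendsto (fun n => ∫ z, (ρ z : ℂ) * (φ n z * φ n z * (φ n z * φ n z))) atTop
      (𝓝 (3 * ∫ z, (ρ z : ℂ)))) (j m k l : ℤ) :
    Tendsto (fun n => ∫ z, (ρ z : ℂ)
      * (E h a φ j n z * E h a φ m n z * (E h a φ k n z * E h a φ l n z))) atTop
      (𝓝 (G j m k l * ∫ z, (ρ z : ℂ))) := by
  have hZ : ∫ z, ((ρ z : ℝ) : ℂ) = ((∫ z, ρ z : ℝ) : ℂ) := integral_ofReal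
  have hρi : ∀ (f : ℂ → ℝ), ContinuousOn f U → Integrable (fun z => ρ z * f z) := by
    intro f hf
    have hρc : Continuous ρ := by
      have := Complex.continuous_re.comp hρ.smooth.continuous
      simpa [Function.comp_def] using this
    have hts : tsupport ρ = tsupport (fun z => (ρ z : ℂ)) := by
      unfold tsupport
      congr 1
      ext z
      simp
    exact integrable_mul_of_tsupport S.op hρc (by
      unfold HasCompactSupport; rw [hts]; exact hρ.supp) (by rw [hts]; exact hρ.sub) hf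
  have key := alg_full (Z := ∫ z, ρ z) (X := fun n j m k l => ∫ z, (ρ z : ℂ)
      * (E h a φ j n z * E h a φ m n z * (E h a φ k n z * E h a φ l n z)))
      (integral_nonneg hρ0) ?_ ?_ ?_ ?_ ?_ ?_ ?_ j m k l
  · rw [hZ]
    exact key
  · intro n j m k l
    refine MeasureTheory.integral_congr_ae (Filter.Eventually.of_forall fun z => ?_)
    beta_reduce; ring
  · intro n j m k l
    refine MeasureTheory.integral_congr_ae (Filter.Eventually.of_forall fun z => ?_)
    beta_reduce; ring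
  · intro n j m k l
    refine MeasureTheory.integral_congr_ae (Filter.Eventually.of_forall fun z => ?_)
    beta_reduce; ring
  · intro j m k l
    rw [← hZ]
    exact S.hmac htwo j m k l hρ
  · have h4 := S.ibp4 0 0 0 (-1) hρ
    refine h4.congr fun n => ?_
    simp only [zero_add, neg_add_cancel]
  · intro N n a' b c d
    unfold blk
    beta_reduce
    rw [S.int_sum_sum hρ n N (fun t => a' + 2 * t) (fun t => b - 2 * t) (fun u => c - 2 * u)
        (fun u => d + 2 * u),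
      S.int_sum_sum hρ n N (fun t => a' + 2 * t) (fun t => b - 2 * t) (fun u => -a' - 2 * u)
        (fun u => -b + 2 * u),
      S.int_sum_sum hρ n N (fun t => -c + 2 * t) (fun t => -d - 2 * t) (fun u => c - 2 * u)
        (fun u => d + 2 * u)]
    set T₁ : ℂ → ℂ := fun z => ∑ t ∈ Finset.range N, E h a φ (a' + 2 * t) n z
      * E h a φ (b - 2 * t) n z with hT₁
    set T₂ : ℂ → ℂ := fun z => ∑ u ∈ Finset.range N, E h a φ (c - 2 * u) n z
      * E h a φ (d + 2 * u) n z with hT₂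
    have c₁ : ContDiffOn ℝ ∞ T₁ U := ContDiffOn.sum fun t _ => (S.sm2 _ _) n
    have c₂ : ContDiffOn ℝ ∞ T₂ U := ContDiffOn.sum fun t _ => (S.sm2 _ _) n
    have i₁ : Integrable (fun z => ρ z * ‖T₁ z‖ ^ 2) := hρi _ (c₁.continuousOn.norm.pow 2)
    have i₂ : Integrable (fun z => ρ z * ‖T₂ z‖ ^ 2) := hρi _ (c₂.continuousOn.norm.pow 2)
    have e₁ : ((-1 : ℂ) ^ (a' + b) * ∫ z, (ρ z : ℂ) * (T₁ z * ∑ u ∈ Finset.range N,
        E h a φ (-a' - 2 * u) n z * E h a φ (-b + 2 * u) n z)).re = ∫ z, ρ z * ‖T₁ z‖ ^ 2 := by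
      rw [← ofReal_re (∫ z, ρ z * ‖T₁ z‖ ^ 2), ← integral_const_mul]
      congr 1
      have e0 : ((∫ z, ρ z * ‖T₁ z‖ ^ 2 : ℝ) : ℂ)
          = ∫ z, ((ρ z * ‖T₁ z‖ ^ 2 : ℝ) : ℂ) := integral_ofReal.symm
      rw [e0]
      have e3 := hρ.integral_congr (f := fun z => (-1 : ℂ) ^ (a' + b) * (T₁ z
        * ∑ u ∈ Finset.range N, E h a φ (-a' - 2 * u) n z * E h a φ (-b + 2 * u) n z))
        (f' := fun z => ((‖T₁ z‖ ^ 2 : ℝ) : ℂ)) (fun z hz => by
          rw [← Complex.normSq_eq_norm_sq, ← mul_conj]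
          have e5 : (starRingEnd ℂ) (T₁ z) = (-1 : ℂ) ^ (a' + b) * ∑ u ∈ Finset.range N,
              E h a φ (-a' - 2 * u) n z * E h a φ (-b + 2 * u) n z := by
            rw [hT₁]
            beta_reduce
            rw [map_sum, Finset.mul_sum]
            refine Finset.sum_congr rfl fun u _ => ?_
            rw [map_mul, S.conj_E _ n z hz, S.conj_E _ n z hz]
            have q1 : (-1 : ℂ) ^ (a' + 2 * (u : ℤ)) * (-1 : ℂ) ^ (b - 2 * (u : ℤ))
                = (-1 : ℂ) ^ (a' + b) := by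
              rw [← zpow_add₀ (by norm_num)]
              congr 1; ring
            have q2 : -(a' + 2 * (u : ℤ)) = -a' - 2 * u := by ring
            have q3 : -(b - 2 * (u : ℤ)) = -b + 2 * u := by ring
            rw [← q1, q2, q3]
            ring
          rw [e5]
          ring)
      refine Eq.trans ?_ (e3.trans ?_)
      · refine MeasureTheory.integral_congr_ae (Filter.Eventually.of_forall fun z => ?_)
        beta_reduce; ring
      · refine MeasureTheory.integral_congr_ae (Filter.Eventually.of_forall fun z => ?_)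
        beta_reduce; push_cast; ring
    have e₂ : ((-1 : ℂ) ^ (c + d) * ∫ z, (ρ z : ℂ) * ((∑ u ∈ Finset.range N,
        E h a φ (-c + 2 * u) n z * E h a φ (-d - 2 * u) n z) * T₂ z)).re
        = ∫ z, ρ z * ‖T₂ z‖ ^ 2 := by
      rw [← ofReal_re (∫ z, ρ z * ‖T₂ z‖ ^ 2), ← integral_const_mul]
      congr 1
      have e0 : ((∫ z, ρ z * ‖T₂ z‖ ^ 2 : ℝ) : ℂ)
          = ∫ z, ((ρ z * ‖T₂ z‖ ^ 2 : ℝ) : ℂ) := integral_ofReal.symm
      rw [e0]
      have e3 := hρ.integral_congr (f := fun z => (-1 : ℂ) ^ (c + d) * ((∑ u ∈ Finset.range N,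
        E h a φ (-c + 2 * u) n z * E h a φ (-d - 2 * u) n z) * T₂ z))
        (f' := fun z => ((‖T₂ z‖ ^ 2 : ℝ) : ℂ)) (fun z hz => by
          rw [← Complex.normSq_eq_norm_sq, ← mul_conj]
          have e5 : (starRingEnd ℂ) (T₂ z) = (-1 : ℂ) ^ (c + d) * ∑ u ∈ Finset.range N,
              E h a φ (-c + 2 * u) n z * E h a φ (-d - 2 * u) n z := by
            rw [hT₂]
            beta_reduce
            rw [map_sum, Finset.mul_sum]
            refine Finset.sum_congr rfl fun u _ => ?_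
            rw [map_mul, S.conj_E _ n z hz, S.conj_E _ n z hz]
            have q1 : (-1 : ℂ) ^ (c - 2 * (u : ℤ)) * (-1 : ℂ) ^ (d + 2 * (u : ℤ))
                = (-1 : ℂ) ^ (c + d) := by
              rw [← zpow_add₀ (by norm_num)]
              congr 1; ring
            have q2 : -(c - 2 * (u : ℤ)) = -c + 2 * u := by ring
            have q3 : -(d + 2 * (u : ℤ)) = -d - 2 * u := by ring
            rw [← q1, q2, q3]
            ring
          rw [e5]
          ring)
      refine Eq.trans ?_ (e3.trans ?_)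
      · refine MeasureTheory.integral_congr_ae (Filter.Eventually.of_forall fun z => ?_)
        beta_reduce; ring
      · refine MeasureTheory.integral_congr_ae (Filter.Eventually.of_forall fun z => ?_)
        beta_reduce; push_cast; ring
    rw [e₁, e₂]
    calc ‖∫ z, (ρ z : ℂ) * (T₁ z * T₂ z)‖
        ≤ ∫ z, ‖(ρ z : ℂ) * (T₁ z * T₂ z)‖ := norm_integral_le_integral_norm _
      _ ≤ ∫ z, (ρ z * ‖T₁ z‖ ^ 2 + ρ z * ‖T₂ z‖ ^ 2) / 2 := by
          refine integral_mono_of_nonneg (Filter.Eventually.of_forall fun z => norm_nonneg _)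
            ((i₁.add i₂).div_const 2) (Filter.Eventually.of_forall fun z => ?_)
          beta_reduce
          rw [norm_mul, norm_mul, Complex.norm_real, Real.norm_of_nonneg (hρ0 z)]
          have h1 : ‖T₁ z‖ * ‖T₂ z‖ ≤ (‖T₁ z‖ ^ 2 + ‖T₂ z‖ ^ 2) / 2 := by
            nlinarith [sq_nonneg (‖T₁ z‖ - ‖T₂ z‖)]
          have := mul_le_mul_of_nonneg_left h1 (hρ0 z)
          linarith
      _ = ((∫ z, ρ z * ‖T₁ z‖ ^ 2) + ∫ z, ρ z * ‖T₂ z‖ ^ 2) / 2 := by
          rw [integral_div, integral_add i₁ i₂]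
  · rw [← hZ]
    exact h3

/-- **kurtosis three implies Gaussian four-jet correlations**, for all total indices -/
theorem LocalQE.jets_full {g : ℂ → ℝ} {φ : ℕ → ℂ → ℂ} (H : LocalQE U g h φ) (hU : IsOpen U)
    (hg : ContDiffOn ℝ ∞ g U) (hgpos : ∀ z ∈ U, 0 < g z) (hb : LBdd 4 U φ)
    (h3 : ∀ ρ : ℂ → ℝ, Test U (fun z => (ρ z : ℂ)) → (∀ z, 0 ≤ ρ z) →
      Tendsto (fun n => ∫ z, (ρ z : ℂ) * (φ n z * φ n z * (φ n z * φ n z))) atTop
      (𝓝 (3 * ∫ z, (ρ z : ℂ)))) {ζ : ℂ → ℂ} (hζ : Test U ζ) (j m k l : ℤ) :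
    Tendsto (fun n => ∫ z, ζ z * (E h (wt g) φ j n z * E h (wt g) φ m n z
        * (E h (wt g) φ k n z * E h (wt g) φ l n z))) atTop (𝓝 (G j m k l * ∫ z, ζ z)) := by
  have S := setup_of_local hU hg hgpos H hb
  have s4 := fun n j m k l => ((S.sm2 j m).mul (S.sm2 k l)) n
  have key := Test.induct_nonneg S.op (F := fun n ζ =>
      (∫ z, ζ z * (E h (wt g) φ j n z * E h (wt g) φ m n z
        * (E h (wt g) φ k n z * E h (wt g) φ l n z))) - G j m k l * (∫ z, ζ z)) ?_ ?_ ?_ hζ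
  · have := key.add_const (G j m k l * ∫ z, ζ z)
    rw [zero_add] at this
    refine this.congr fun n => ?_
    ring
  · intro n ζ ξ hζ hξ
    beta_reduce
    rw [Test.int_add S.op (s4 n j m k l) hζ hξ, Test.integral_add' hζ hξ]
    ring
  · intro n c ζ _
    beta_reduce
    rw [Test.int_smul, integral_const_mul]
    ring
  · intro ρ hρ hρ0
    have := (S.jets_full (S.two_pt H) hρ hρ0 (h3 ρ hρ hρ0) j m k l).sub_const
      (G j m k l * ∫ z, (ρ z : ℂ))
    rw [sub_self] at this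
    exact this

end

end QE


end

section

/-!
Correlations of three jets of arbitrary total index, when the correlations of four jets are Gaussian.
-/

open Complex MeasureTheory Filter Topology
open scoped ContDiff

namespace QE

noncomputable section

variable {U : Set ℂ} {h : ℕ → ℝ} {a : ℂ → ℂ} {g : ℂ → ℂ} {φ : ℕ → ℂ → ℂ}

lemma normP_le_ite (j k : ℤ) : ‖P j k‖ ≤ if j + k = 0 then 1 else 0 := by
  unfold P
  split_ifs
  · rw [norm_zpow]; simp
  · simp

/-- the alternating sums of the pairings of total index zero are bounded -/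
lemma sum_P_le (a b : ℤ) (N : ℕ) :
    ‖∑ t ∈ Finset.range N, P (a + 3 * t) (b - 3 * t)‖ ≤ 1 := by
  by_cases hab : a + b = 0
  · have e : ∀ t : ℕ, P (a + 3 * t) (b - 3 * t) = (-1) ^ a * (-1) ^ t := by
      intro t
      unfold P
      rw [if_pos (by omega), zpow_add₀ (by norm_num), zpow_mul]
      norm_num
    simp only [e]
    rw [← Finset.mul_sum, norm_mul, norm_zpow, norm_neg, norm_one, one_zpow, one_mul]
    have h2 : ∀ N : ℕ, ∑ t ∈ Finset.range N, (-1 : ℂ) ^ t = if Even N then 0 else 1 :=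
      fun N => neg_one_geom_sum
    rw [h2]
    split_ifs <;> simp
  · have e : ∀ t : ℕ, P (a + 3 * t) (b - 3 * t) = 0 := by
      intro t
      unfold P
      rw [if_neg (by omega)]
    simp only [e, Finset.sum_const_zero, norm_zero]
    exact zero_le_one

/-- sums of the Gaussian four point values -/
lemma sum_G_le (a b : ℤ) (N : ℕ) :
    ‖∑ t ∈ Finset.range N, ∑ u ∈ Finset.range N,
      G (a + 3 * t) (b - 3 * t) (-a - 3 * u) (-b + 3 * u)‖ ≤ 1 + 2 * N := by
  have e1 : ∑ t ∈ Finset.range N, ∑ u ∈ Finset.range N,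
      G (a + 3 * t) (b - 3 * t) (-a - 3 * u) (-b + 3 * u)
      = (∑ t ∈ Finset.range N, P (a + 3 * t) (b - 3 * t))
          * (∑ u ∈ Finset.range N, P (-a - 3 * u) (-b + 3 * u))
        + (∑ t ∈ Finset.range N, ∑ u ∈ Finset.range N,
          P (a + 3 * t) (-a - 3 * u) * P (b - 3 * t) (-b + 3 * u))
        + ∑ t ∈ Finset.range N, ∑ u ∈ Finset.range N,
          P (a + 3 * t) (-b + 3 * u) * P (b - 3 * t) (-a - 3 * u) := by
    rw [Finset.sum_mul_sum, ← Finset.sum_add_distrib, ← Finset.sum_add_distrib]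
    refine Finset.sum_congr rfl fun t _ => ?_
    rw [← Finset.sum_add_distrib, ← Finset.sum_add_distrib]
    refine Finset.sum_congr rfl fun u _ => ?_
    unfold G; ring
  have hcount : ∀ (f : ℕ → ℕ → ℂ) (q : ℕ → ℤ), (∀ t u, ‖f t u‖ ≤ if (u : ℤ) = q t then 1 else 0) →
      ‖∑ t ∈ Finset.range N, ∑ u ∈ Finset.range N, f t u‖ ≤ N := by
    intro f q hf
    refine (norm_sum_le _ _).trans ?_
    calc ∑ t ∈ Finset.range N, ‖∑ u ∈ Finset.range N, f t u‖
        ≤ ∑ _t ∈ Finset.range N, (1 : ℝ) := by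
          refine Finset.sum_le_sum fun t _ => ?_
          refine (norm_sum_le _ _).trans ?_
          calc ∑ u ∈ Finset.range N, ‖f t u‖
              ≤ ∑ u ∈ Finset.range N, if (u : ℤ) = q t then (1 : ℝ) else 0 :=
                Finset.sum_le_sum fun u _ => hf t u
            _ ≤ ∑ u ∈ Finset.range N, if u = (q t).toNat then (1 : ℝ) else 0 := by
                refine Finset.sum_le_sum fun u _ => ?_
                by_cases hu : (u : ℤ) = q t
                · rw [if_pos hu, if_pos (by omega)]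
                · rw [if_neg hu]; split_ifs <;> norm_num
            _ ≤ 1 := by
                rw [Finset.sum_ite_eq' (Finset.range N) (q t).toNat (fun _ => (1 : ℝ))]
                split_ifs <;> norm_num
      _ = N := by simp
  have h1 : ‖∑ u ∈ Finset.range N, P (-a - 3 * u) (-b + 3 * u)‖ ≤ 1 := by
    have := sum_P_le (-b) (-a) N
    have e : ∀ u : ℕ, ‖∑ u ∈ Finset.range N, P (-a - 3 * u) (-b + 3 * u)‖
        = ‖∑ u ∈ Finset.range N, P (-b + 3 * u) (-a - 3 * u)‖ := by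
      intro _
      have e2 : ∀ u : ℕ, P (-a - 3 * u) (-b + 3 * u) = P (-b + 3 * u) (-a - 3 * u) := by
        intro u
        unfold P
        by_cases h : -a - 3 * (u : ℤ) + (-b + 3 * u) = 0
        · rw [if_pos h, if_pos (by omega)]
          have : -a - 3 * (u : ℤ) = -(-b + 3 * u) := by omega
          rw [this, zpow_neg, ← inv_zpow]; norm_num
        · rw [if_neg h, if_neg (by omega)]
      simp only [e2]
    rw [e 0]; exact this
  have b1 : ‖(∑ t ∈ Finset.range N, P (a + 3 * t) (b - 3 * t))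
          * (∑ u ∈ Finset.range N, P (-a - 3 * u) (-b + 3 * u))‖ ≤ 1 := by
    rw [norm_mul]
    exact mul_le_one₀ (sum_P_le a b N) (norm_nonneg _) h1
  have b2 := hcount (fun t u => P (a + 3 * t) (-a - 3 * u) * P (b - 3 * t) (-b + 3 * u))
    (fun t => (t : ℤ)) (fun t u => by
      rw [norm_mul]
      have p1 := normP_le_ite (a + 3 * t) (-a - 3 * u)
      have p2 := normP_le_ite (b - 3 * t) (-b + 3 * u)
      by_cases hu : (u : ℤ) = t
      · rw [if_pos hu]
        rw [if_pos (by omega)] at p1 p2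
        exact mul_le_one₀ p1 (norm_nonneg _) p2
      · rw [if_neg hu]
        rw [if_neg (by omega)] at p1
        have : ‖P (a + 3 * t) (-a - 3 * u)‖ = 0 := le_antisymm p1 (norm_nonneg _)
        rw [this, zero_mul])
  have b3 := hcount (fun t u => P (a + 3 * t) (-b + 3 * u) * P (b - 3 * t) (-a - 3 * u))
    (fun t => (b - a - 3 * t) / 3) (fun t u => by
      rw [norm_mul]
      have p1 := normP_le_ite (a + 3 * t) (-b + 3 * u)
      have p2 := normP_le_ite (b - 3 * t) (-a - 3 * u)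
      by_cases hu : a + 3 * (t : ℤ) + (-b + 3 * u) = 0
      · rw [if_pos (by omega)]
        rw [if_pos (by omega)] at p1 p2
        exact mul_le_one₀ p1 (norm_nonneg _) p2
      · rw [if_neg hu] at p1
        have : ‖P (a + 3 * t) (-b + 3 * u)‖ = 0 := le_antisymm p1 (norm_nonneg _)
        rw [this, zero_mul]
        split_ifs <;> norm_num)
  rw [e1]
  calc _ ≤ 1 + (N : ℝ) + N := (norm_add_le _ _).trans (add_le_add ((norm_add_le _ _).trans
        (add_le_add b1 b2)) b3)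
    _ = 1 + 2 * N := by ring

/-- **the correlations of three jets vanish**, for all total indices -/
theorem Setup.three_full (S : Setup U g a h φ) {ρ : ℂ → ℝ} (hρ : Test U (fun z => (ρ z : ℂ)))
    (hρ0 : ∀ z, 0 ≤ ρ z)
    (h4 : ∀ j m k l : ℤ, Tendsto (fun n => ∫ z, (ρ z : ℂ)
      * (E h a φ j n z * E h a φ m n z * (E h a φ k n z * E h a φ l n z))) atTop
      (𝓝 (G j m k l * ∫ z, (ρ z : ℂ)))) (a' b c : ℤ) :
    Tendsto (fun n => ∫ z, (ρ z : ℂ)
      * (E h a φ a' n z * E h a φ b n z * E h a φ c n z)) atTop (𝓝 0) := by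
  have hρi : ∀ (f : ℂ → ℝ), ContinuousOn f U → Integrable (fun z => ρ z * f z) := by
    intro f hf
    have hρc : Continuous ρ := by
      have := Complex.continuous_re.comp hρ.smooth.continuous
      simpa [Function.comp_def] using this
    have hts : tsupport ρ = tsupport (fun z => (ρ z : ℂ)) := by
      unfold tsupport
      congr 1
      ext z
      simp
    exact integrable_mul_of_tsupport S.op hρc (by
      unfold HasCompactSupport; rw [hts]; exact hρ.supp) (by rw [hts]; exact hρ.sub) hf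
  have hZ : ∫ z, ((ρ z : ℝ) : ℂ) = ((∫ z, ρ z : ℝ) : ℂ) := integral_ofReal
  set Z : ℝ := ∫ z, ρ z with hZdef
  have hZ0 : 0 ≤ Z := integral_nonneg hρ0
  -- boundedness of the single factor
  obtain ⟨C, hC⟩ := (S.bd2 c (-c)).test (S.sm2 c (-c)) hρ
  have hV : ∀ᶠ n in atTop, ∫ z, ρ z * ‖E h a φ c n z‖ ^ 2 ≤ |C| := by
    filter_upwards [hC] with n hn
    have e1 : ((∫ z, ρ z * ‖E h a φ c n z‖ ^ 2 : ℝ) : ℂ)
        = (-1) ^ c * ∫ z, (ρ z : ℂ) * (E h a φ c n z * E h a φ (-c) n z) := by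
      rw [← integral_const_mul]
      have e0 : ((∫ z, ρ z * ‖E h a φ c n z‖ ^ 2 : ℝ) : ℂ)
          = ∫ z, ((ρ z * ‖E h a φ c n z‖ ^ 2 : ℝ) : ℂ) := integral_ofReal.symm
      rw [e0]
      have e2 := hρ.integral_congr (f := fun z => ((‖E h a φ c n z‖ ^ 2 : ℝ) : ℂ))
        (f' := fun z => (-1) ^ c * (E h a φ c n z * E h a φ (-c) n z)) (fun z hz => by
          have h1 := S.conj_E c n z hz
          rw [← Complex.normSq_eq_norm_sq, ← mul_conj, h1]
          ring)
      refine Eq.trans ?_ (e2.trans ?_)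
      · refine MeasureTheory.integral_congr_ae (Filter.Eventually.of_forall fun z => ?_)
        beta_reduce; push_cast; ring
      · refine MeasureTheory.integral_congr_ae (Filter.Eventually.of_forall fun z => ?_)
        beta_reduce; ring
    have e3 : |∫ z, ρ z * ‖E h a φ c n z‖ ^ 2| ≤ C := by
      rw [← Real.norm_eq_abs, ← Complex.norm_real, e1, norm_mul, norm_zpow, norm_neg, norm_one,
        one_zpow, one_mul]
      exact hn
    exact (le_abs_self _).trans (e3.trans (le_abs_self C))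
  set Y : ℕ → ℤ → ℤ → ℤ → ℂ := fun n j m k => ∫ z, (ρ z : ℂ)
      * (E h a φ j n z * E h a φ m n z * E h a φ k n z) with hY
  have t1 : ∀ n a b c, Y n a b c = Y n b a c := fun n a b c => by
    simp only [hY]; congr 1; funext z; ring
  have hD : ∀ a b c : ℤ, Tendsto (fun n => Y n (a + 1) b c + Y n a (b + 1) c
      + Y n a b (c + 1)) atTop (𝓝 0) := fun a b c => S.ibp3 a b c hρ
  have hDb : ∀ a b c : ℤ, Tendsto (fun n => Y n (a - 1) b c + Y n a (b - 1) c
      + Y n a b (c - 1)) atTop (𝓝 0) := fun a b c => S.ibp3b a b c hρ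
  have hsh : ∀ t : ℕ, Tendsto (fun n => Y n (a' + 3 * t) (b - 3 * t) c - Y n a' b c) atTop (𝓝 0) := by
    intro t
    have h1 := T_shift_nat t1 hD hDb c t a' (b - 3 * t)
    unfold Asy at h1
    refine h1.congr fun n => ?_
    rw [sub_add_cancel]
  change Tendsto (fun n => Y n a' b c) atTop (𝓝 0)
  rw [tendsto_zero_iff_norm_tendsto_zero, Metric.tendsto_atTop]
  intro ε hε
  -- the number of terms
  obtain ⟨N, hN0, hN⟩ : ∃ N : ℕ, 0 < N ∧ (|C| + 2) * (3 * Z + 1) < N * (ε / 2) ^ 2 := by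
    obtain ⟨N, hN⟩ := exists_nat_gt ((|C| + 2) * (3 * Z + 1) / (ε / 2) ^ 2)
    refine ⟨N + 1, by omega, ?_⟩
    rw [div_lt_iff₀ (by positivity)] at hN
    push_cast
    have : 0 ≤ (ε / 2) ^ 2 := by positivity
    nlinarith only [hN]
  have hNr : (0 : ℝ) < N := by exact_mod_cast hN0
  have hNr1 : (1 : ℝ) ≤ N := by exact_mod_cast hN0
  -- the block
  set T : ℕ → ℂ → ℂ := fun n z => ∑ t ∈ Finset.range N,
    E h a φ (a' + 3 * t) n z * E h a φ (b - 3 * t) n z with hT
  have hTs : ∀ n, ContDiffOn ℝ ∞ (T n) U := fun n => ContDiffOn.sum fun t _ => (S.sm2 _ _) n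
  have hblock : ∀ n, ∑ t ∈ Finset.range N, Y n (a' + 3 * t) (b - 3 * t) c
      = ∫ z, (ρ z : ℂ) * (T n z * E h a φ c n z) := by
    intro n
    simp only [hY]
    rw [← integral_finsetSum _ (fun t _ => S.int3 hρ n _ _ _)]
    refine MeasureTheory.integral_congr_ae (Filter.Eventually.of_forall fun z => ?_)
    beta_reduce
    simp only [hT]
    rw [Finset.sum_mul, Finset.mul_sum]
  have hTT : ∀ n, ((∫ z, ρ z * ‖T n z‖ ^ 2 : ℝ) : ℂ) = (-1) ^ (a' + b)
      * ∑ t ∈ Finset.range N, ∑ u ∈ Finset.range N, ∫ z, (ρ z : ℂ)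
        * (E h a φ (a' + 3 * t) n z * E h a φ (b - 3 * t) n z
          * (E h a φ (-a' - 3 * u) n z * E h a φ (-b + 3 * u) n z)) := by
    intro n
    rw [S.int_sum_sum hρ n N (fun t => a' + 3 * t) (fun t => b - 3 * t) (fun u => -a' - 3 * u)
        (fun u => -b + 3 * u), ← integral_const_mul]
    have e0 : ((∫ z, ρ z * ‖T n z‖ ^ 2 : ℝ) : ℂ)
        = ∫ z, ((ρ z * ‖T n z‖ ^ 2 : ℝ) : ℂ) := integral_ofReal.symm
    rw [e0]
    have e3 := hρ.integral_congr (f := fun z => (-1 : ℂ) ^ (a' + b) * (T n z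
      * ∑ u ∈ Finset.range N, E h a φ (-a' - 3 * u) n z * E h a φ (-b + 3 * u) n z))
      (f' := fun z => ((‖T n z‖ ^ 2 : ℝ) : ℂ)) (fun z hz => by
        rw [← Complex.normSq_eq_norm_sq, ← mul_conj]
        have e5 : (starRingEnd ℂ) (T n z) = (-1 : ℂ) ^ (a' + b) * ∑ u ∈ Finset.range N,
            E h a φ (-a' - 3 * u) n z * E h a φ (-b + 3 * u) n z := by
          simp only [hT]
          rw [map_sum, Finset.mul_sum]
          refine Finset.sum_congr rfl fun u _ => ?_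
          rw [map_mul, S.conj_E _ n z hz, S.conj_E _ n z hz]
          have q1 : (-1 : ℂ) ^ (a' + 3 * (u : ℤ)) * (-1 : ℂ) ^ (b - 3 * (u : ℤ))
              = (-1 : ℂ) ^ (a' + b) := by
            rw [← zpow_add₀ (by norm_num)]
            congr 1; ring
          have q2 : -(a' + 3 * (u : ℤ)) = -a' - 3 * u := by ring
          have q3 : -(b - 3 * (u : ℤ)) = -b + 3 * u := by ring
          rw [← q1, q2, q3]
          ring
        rw [e5]
        ring)
    refine Eq.symm (Eq.trans ?_ (e3.trans ?_))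
    · refine MeasureTheory.integral_congr_ae (Filter.Eventually.of_forall fun z => ?_)
      beta_reduce; ring
    · refine MeasureTheory.integral_congr_ae (Filter.Eventually.of_forall fun z => ?_)
      beta_reduce; push_cast; ring
  -- the limit of the norm of the block
  have hlimT : ∀ᶠ n in atTop, ∫ z, ρ z * ‖T n z‖ ^ 2 ≤ (1 + 2 * N) * Z + 1 := by
    have h1 : Tendsto (fun n => ((∫ z, ρ z * ‖T n z‖ ^ 2 : ℝ) : ℂ)) atTop (𝓝 ((-1) ^ (a' + b)
        * ∑ t ∈ Finset.range N, ∑ u ∈ Finset.range N,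
          (G (a' + 3 * t) (b - 3 * t) (-a' - 3 * u) (-b + 3 * u) * ∫ z, (ρ z : ℂ)))) := by
      refine Tendsto.congr (fun n => (hTT n).symm) ?_
      exact (tendsto_finsetSum _ fun t _ => tendsto_finsetSum _ fun u _ => h4 _ _ _ _).const_mul _
    have h2 := h1.norm
    have h3 : ‖(-1 : ℂ) ^ (a' + b) * ∑ t ∈ Finset.range N, ∑ u ∈ Finset.range N,
          (G (a' + 3 * t) (b - 3 * t) (-a' - 3 * u) (-b + 3 * u) * ∫ z, (ρ z : ℂ))‖
        < (1 + 2 * N) * Z + 1 := by
      have e : ∑ t ∈ Finset.range N, ∑ u ∈ Finset.range N,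
          (G (a' + 3 * t) (b - 3 * t) (-a' - 3 * u) (-b + 3 * u) * ∫ z, (ρ z : ℂ))
          = (∑ t ∈ Finset.range N, ∑ u ∈ Finset.range N,
            G (a' + 3 * t) (b - 3 * t) (-a' - 3 * u) (-b + 3 * u)) * ∫ z, (ρ z : ℂ) := by
        rw [Finset.sum_mul]
        exact Finset.sum_congr rfl fun t _ => by rw [Finset.sum_mul]
      rw [e, norm_mul, norm_mul, norm_zpow, norm_neg, norm_one, one_zpow, one_mul, hZ,
        Complex.norm_real, Real.norm_of_nonneg hZ0]
      have := mul_le_mul_of_nonneg_right (sum_G_le a' b N) hZ0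
      linarith
    filter_upwards [h2.eventually_lt_const h3] with n hn
    rw [Complex.norm_real, Real.norm_eq_abs] at hn
    exact (le_abs_self _).trans hn.le
  -- the shifts
  have hshN : Tendsto (fun n => (∑ t ∈ Finset.range N, Y n (a' + 3 * t) (b - 3 * t) c)
      - N * Y n a' b c) atTop (𝓝 0) := by
    have h1 := tendsto_finsetSum (Finset.range N) fun t _ => hsh t
    simp only [Finset.sum_const_zero] at h1
    refine h1.congr fun n => ?_
    rw [Finset.sum_sub_distrib, Finset.sum_const, Finset.card_range, nsmul_eq_mul]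
  have hsh2 := (tendsto_zero_iff_norm_tendsto_zero.1 hshN).eventually_lt_const
    (show 0 < N * (ε / 2) by positivity)
  obtain ⟨n₀, hn₀⟩ := eventually_atTop.1 (hV.and (hlimT.and hsh2))
  refine ⟨n₀, fun n hn => ?_⟩
  obtain ⟨n1, n2, n3⟩ := hn₀ n hn
  rw [dist_zero_right, norm_norm]
  have i1 : Integrable (fun z => ρ z * ‖E h a φ c n z‖ ^ 2) :=
    hρi _ (((S.tame_E c).smooth n).continuousOn.norm.pow 2)
  have i2 : Integrable (fun z => ρ z * ‖T n z‖ ^ 2) := hρi _ ((hTs n).continuousOn.norm.pow 2)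
  -- Cauchy-Schwarz with the weight `l = 1 / s`
  set s : ℝ := ε / 2 * N / (|C| + 1) with hs
  have hC1 : 0 < |C| + 1 := by positivity
  have hs0 : 0 < s := by positivity
  have hcs : ‖∫ z, (ρ z : ℂ) * (T n z * E h a φ c n z)‖
      ≤ (s * (∫ z, ρ z * ‖E h a φ c n z‖ ^ 2) + s⁻¹ * ∫ z, ρ z * ‖T n z‖ ^ 2) / 2 := by
    calc ‖∫ z, (ρ z : ℂ) * (T n z * E h a φ c n z)‖
        ≤ ∫ z, ‖(ρ z : ℂ) * (T n z * E h a φ c n z)‖ := norm_integral_le_integral_norm _
      _ ≤ ∫ z, (s * (ρ z * ‖E h a φ c n z‖ ^ 2) + s⁻¹ * (ρ z * ‖T n z‖ ^ 2)) / 2 := by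
          refine integral_mono_of_nonneg (Filter.Eventually.of_forall fun z => norm_nonneg _)
            (((i1.const_mul s).add (i2.const_mul s⁻¹)).div_const 2)
            (Filter.Eventually.of_forall fun z => ?_)
          beta_reduce
          rw [norm_mul, norm_mul, Complex.norm_real, Real.norm_of_nonneg (hρ0 z)]
          have h1 : ‖T n z‖ * ‖E h a φ c n z‖
              ≤ (s * ‖E h a φ c n z‖ ^ 2 + s⁻¹ * ‖T n z‖ ^ 2) / 2 := by
            have h2 : 0 ≤ s⁻¹ * (s * ‖E h a φ c n z‖ - ‖T n z‖) ^ 2 := by (clear * - hε hN0; positivity)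
            have h3 : s⁻¹ * (s * ‖E h a φ c n z‖ - ‖T n z‖) ^ 2
                = s * ‖E h a φ c n z‖ ^ 2 - 2 * (‖T n z‖ * ‖E h a φ c n z‖)
                  + s⁻¹ * ‖T n z‖ ^ 2 := by
              field_simp
              ring
            rw [h3] at h2
            linarith only [h2]
          have := mul_le_mul_of_nonneg_left h1 (hρ0 z)
          linarith only [this]
      _ = (s * (∫ z, ρ z * ‖E h a φ c n z‖ ^ 2) + s⁻¹ * ∫ z, ρ z * ‖T n z‖ ^ 2) / 2 := by
          rw [integral_div, integral_add (i1.const_mul s) (i2.const_mul s⁻¹),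
            integral_const_mul, integral_const_mul]
  rw [← hblock n] at hcs
  have k1 : s * (∫ z, ρ z * ‖E h a φ c n z‖ ^ 2) ≤ ε / 2 * N := by
    calc s * (∫ z, ρ z * ‖E h a φ c n z‖ ^ 2) ≤ s * (|C| + 1) := by
          refine mul_le_mul_of_nonneg_left ?_ hs0.le
          linarith only [n1]
      _ = ε / 2 * N := by rw [hs]; field_simp
  have k2 : s⁻¹ * (∫ z, ρ z * ‖T n z‖ ^ 2) ≤ ε / 2 * N := by
    have h5 : ∫ z, ρ z * ‖T n z‖ ^ 2 ≤ (3 * Z + 1) * N := by
      refine n2.trans ?_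
      nlinarith only [hNr1, hZ0]
    have h6 : (3 * Z + 1) * N ≤ (ε / 2 * N) * s := by
      rw [hs]
      rw [mul_div_assoc', le_div_iff₀ hC1]
      have h7 : (|C| + 1) * (3 * Z + 1) ≤ N * (ε / 2) ^ 2 := by
        have h8 : (|C| + 1) * (3 * Z + 1) ≤ (|C| + 2) * (3 * Z + 1) := by
          have : 0 ≤ 3 * Z + 1 := by linarith only [hZ0]
          linarith only [hZ0]
        linarith only [hZ0, hN]
      nlinarith only [hZ0, hN]
    calc s⁻¹ * (∫ z, ρ z * ‖T n z‖ ^ 2) ≤ s⁻¹ * ((ε / 2 * N) * s) :=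
          mul_le_mul_of_nonneg_left (h5.trans h6) (inv_nonneg.2 hs0.le)
      _ = ε / 2 * N := by field_simp
  have k3 : ‖(N : ℂ) * Y n a' b c‖ < ε * N := by
    have e : (N : ℂ) * Y n a' b c = (∑ t ∈ Finset.range N, Y n (a' + 3 * t) (b - 3 * t) c)
        - ((∑ t ∈ Finset.range N, Y n (a' + 3 * t) (b - 3 * t) c) - N * Y n a' b c) := by ring
    rw [e]
    refine (norm_sub_le _ _).trans_lt ?_
    have : ‖∑ t ∈ Finset.range N, Y n (a' + 3 * t) (b - 3 * t) c‖ ≤ ε / 2 * N := by linarith only [hcs, k1, k2]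
    linarith
  rw [norm_mul, Complex.norm_natCast, mul_comm ε] at k3
  exact lt_of_mul_lt_mul_left k3 hNr.le

end

end QE


end

section

/-!
Products of the values of an eigenfunction at nearby points, for a fixed direction of the frame.
-/

open Complex MeasureTheory Filter Topology Set
open scoped ContDiff

namespace QE

noncomputable section

variable {U : Set ℂ} {h : ℕ → ℝ} {a g : ℂ → ℂ} {φ : ℕ → ℂ → ℂ}

namespace Setup

variable (S : Setup U g a h φ)

include S

/-- the means of the jets tend to zero -/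
theorem one_full {ζ : ℂ → ℂ} (hζ : Test U ζ) (j : ℤ) :
    Tendsto (fun n => ∫ z, ζ z * E h a φ j n z) atTop (𝓝 0) := by
  obtain ⟨w', hw', he'⟩ := S.LL_E (j - 1)
  have hE := fun j => (S.tame_E j)
  have b1 : LBdd 2 U (fun _ _ => (1 : ℂ)) := by
    intro K hK _
    exact ⟨∫ z in K, ‖(1 : ℂ)‖ ^ 2, Filter.Eventually.of_forall fun n => le_rfl⟩
  have b0 : LBdd 2 U (fun _ _ => (0 : ℂ)) := LBdd.zero 2 (by norm_num)
  have key := ibp_LL S.op S.hlim S.ha
    (u := fun n z => E h a φ (j - 1) n z) (v := fun _ _ => 1)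
    (u' := fun n z => E h a φ (j - 1 + 1) n z) (v' := fun _ _ => 0) (r := w') (s := fun _ _ => 0)
    (hE _).smooth (fun n => contDiffOn_const) (hE _).smooth (fun n => contDiffOn_const)
    hw'.smooth (fun n => contDiffOn_const)
    ((hE _).bdd4.two_of_four (hE _).smooth) b1 (hw'.bdd4.two_of_four hw'.smooth) b0 he'
    (fun n z hz => by
      beta_reduce
      rw [dz_const, mul_zero, mul_zero, add_zero]) hζ
  refine key.congr fun n => ?_
  congr 1; funext z
  rw [sub_add_cancel]; ring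

/-- **Products and their Taylor polynomials, for a fixed direction.** -/
theorem fix_close {K : Set ℂ} (hK : IsCompact K) {δ : ℝ} (hδ : 0 < δ)
    (hδU : Metric.cthickening (2 * δ) K ⊆ U) (q : ℤ) (b : Fin 4 → Bool) (y : Fin 4 → ℂ)
    (ξ : Fin 4 → ℕ → ℝ → ℂ → ℂ) (hξ : ∀ i, Disp h a K q (y i) (ξ i)) {ζ : ℂ → ℂ}
    (hζ : ContinuousOn ζ K) {ε : ℝ} (hε : 0 < ε) :
    ∃ N₀ : ℕ, ∀ N ≥ N₀, ∀ᶠ n in atTop, ∀ θ : ℝ,
      ‖(∫ z in K, ζ z * (fld h a φ (b 0) (ξ 0) n θ z * fld h a φ (b 1) (ξ 1) n θ z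
          * fld h a φ (b 2) (ξ 2) n θ z * fld h a φ (b 3) (ξ 3) n θ z))
        - ∫ z in K, ζ z * (tay h a φ (b 0) q (y 0) N n θ z * tay h a φ (b 1) q (y 1) N n θ z
          * tay h a φ (b 2) q (y 2) N n θ z * tay h a φ (b 3) q (y 3) N n θ z)‖ ≤ ε := by
  have hKU : K ⊆ U := (Metric.self_subset_cthickening K).trans hδU
  set K₁ := Metric.cthickening δ K with hK₁def
  have hK₁ : IsCompact K₁ := hK.cthickening
  have hK₁U : K₁ ⊆ U := (Metric.cthickening_mono (by linarith) K).trans hδU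
  obtain ⟨M₀, hM₀⟩ := S.tame.bdd4 K₁ hK₁ hK₁U
  obtain ⟨Z₀, hZ₀⟩ := hK.exists_bound_of_continuousOn hζ
  set B : ℝ := max (4 * |M₀|) ((volume K).toReal) with hB
  have hB0 : 0 ≤ B := le_trans (by positivity) (le_max_left _ _)
  obtain ⟨ε₁, hε₁, hclose⟩ := prod4_close hK (abs_nonneg Z₀) hB0 hε
  have hT : ∀ i, ∃ N₀ : ℕ, ∀ N ≥ N₀, ∀ᶠ n in atTop, ∀ θ : ℝ, ∫ z in K,
      ‖φ n (z + h n * a z * ξ i n θ z) - Phi h a φ N (uu θ ^ q * y i) n z‖ ^ 4 ≤ ε₁ := by
    intro i
    obtain ⟨N₀, hN₀⟩ := S.taylor hK hδ hδU (norm_nonneg (y i)) hε₁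
    refine ⟨N₀, fun N hN => hN₀ N hN ℝ (fun θ => uu θ ^ q * y i) (ξ i) (fun θ => ?_) (hξ i).lim ?_
      (hξ i).lip⟩
    · rw [norm_mul, norm_zpow, norm_uu, one_zpow, one_mul]
    · filter_upwards [(hξ i).cont] with n hn θ
      exact hn.comp (by fun_prop : ContinuousOn (fun z : ℂ => (θ, z)) K)
        fun z hz => ⟨mem_univ _, hz⟩
  choose N₀ hN₀ using hT
  refine ⟨∑ i, N₀ i, fun N hN => ?_⟩
  have hNi : ∀ i, N₀ i ≤ N := fun i =>
    (Finset.single_le_sum (f := N₀) (fun _ _ => Nat.zero_le _) (Finset.mem_univ i)).trans hN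
  have e1 : ∀ᶠ n in atTop, ∀ i : Fin 4, ∀ θ : ℝ, ∫ z in K,
      ‖φ n (z + h n * a z * ξ i n θ z) - Phi h a φ N (uu θ ^ q * y i) n z‖ ^ 4 ≤ ε₁ :=
    eventually_all.2 fun i => hN₀ i N (hNi i)
  have e2 : ∀ᶠ n in atTop, ∀ i : Fin 4, ContinuousOn (fun p : ℝ × ℂ => ξ i n p.1 p.2) (univ ×ˢ K) :=
    eventually_all.2 fun i => (hξ i).cont
  have e3 : ∀ᶠ n in atTop, ∀ i : Fin 4, ∀ θ, ∀ z ∈ K, ∀ t ∈ Icc (0 : ℝ) 1,
      z + t • ((h n : ℂ) * a z * ξ i n θ z) ∈ K₁ :=
    eventually_all.2 fun i => S.seg_mem hK hδ hδU (hξ i)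
  have e4 : ∀ᶠ n in atTop, ∀ i : Fin 4, ∀ θ, ∀ z ∈ K, ∀ w ∈ K,
      ‖h n * a z * ξ i n θ z - h n * a w * ξ i n θ w‖ ≤ (1 / 2) * ‖z - w‖ :=
    eventually_all.2 fun i => (hξ i).lip
  filter_upwards [e1, e2, e3, e4, hM₀] with n n1 n2 n3 n4 n5
  -- joint continuity of the fields
  have hmem : ∀ i θ, ∀ z ∈ K, z + (h n : ℂ) * a z * ξ i n θ z ∈ K₁ := by
    intro i θ z hz
    have := n3 i θ z hz 1 (by simp)
    rwa [one_smul] at this
  have cdisp : ∀ i, ContinuousOn (fun p : ℝ × ℂ => p.2 + (h n : ℂ) * a p.2 * ξ i n p.1 p.2)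
      (univ ×ˢ K) := fun i =>
    continuousOn_snd.add ((continuousOn_const.mul ((S.ha.continuousOn.mono hKU).comp
      continuousOn_snd fun p hp => hp.2)).mul (n2 i))
  have cF : ∀ i, ContinuousOn (fun p : ℝ × ℂ => fld h a φ (b i) (ξ i) n p.1 p.2) (univ ×ˢ K) := by
    intro i
    unfold fld
    cases b i with
    | false => simpa using continuousOn_const
    | true =>
      simp only [if_true]
      exact ((S.tame.smooth n).continuousOn.mono hK₁U).comp (cdisp i)
        fun p hp => hmem i p.1 p.2 hp.2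
  have cG : ∀ i, ContinuousOn (fun p : ℝ × ℂ => tay h a φ (b i) q (y i) N n p.1 p.2)
      (univ ×ˢ K) := by
    intro i
    unfold tay
    cases b i with
    | false => simpa using continuousOn_const
    | true =>
      simp only [if_true]
      exact S.Phi_cont hKU q (y i) N n
  have sec : ∀ (H : ℝ × ℂ → ℂ), ContinuousOn H (univ ×ˢ K) → ∀ θ : ℝ,
      ContinuousOn (fun z => H (θ, z)) K := fun H hH θ =>
    hH.comp (by fun_prop : ContinuousOn (fun z : ℂ => (θ, z)) K) fun z hz => ⟨mem_univ _, hz⟩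
  intro θ
  refine hclose (fun i z => fld h a φ (b i) (ξ i) n θ z)
    (fun i z => tay h a φ (b i) q (y i) N n θ z) (fun i => sec _ (cF i) θ)
    (fun i => sec _ (cG i) θ) (fun i => ?_) (fun i => ?_) ζ hζ
    (fun z hz => (hZ₀ z hz).trans (le_abs_self Z₀))
  · unfold fld
    cases b i with
    | false =>
      simp only [Bool.false_eq_true, if_false, norm_one, one_pow]
      rw [integral_const, smul_eq_mul, mul_one, measureReal_restrict_apply_univ]
      exact le_max_right _ _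
    | true =>
      simp only [if_true]
      refine le_trans ?_ (le_max_left _ _)
      have hexp := expand_of_lip (v := fun z => (h n : ℂ) * a z * ξ i n θ z) (n4 i θ)
        (t := 1) (by simp)
      simp only [one_smul] at hexp
      have := integral_comp_le hK hK₁ hexp (fun z hz => hmem i θ z hz) (sec _ (cdisp i) θ)
        (f := fun z => ‖φ n z‖ ^ 4)
        (((S.tame.smooth n).continuousOn.mono hK₁U).norm.pow 4) (fun z _ => by positivity)
      refine this.trans ?_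
      have := n5.trans (le_abs_self M₀)
      linarith
  · unfold fld tay
    cases b i with
    | false =>
      simp only [Bool.false_eq_true, if_false, sub_self, norm_zero]
      simpa using hε₁.le
    | true =>
      simp only [if_true]
      exact n1 i θ

/-- the products of the Taylor polynomials -/
theorem fix_expand {K : Set ℂ} (hK : IsCompact K) (hKU : K ⊆ U) {q : ℤ} {k : ℕ}
    (y : Fin k → ℂ) {ζ : ℂ → ℂ} (hζ : ContinuousOn ζ K) (N n : ℕ) (θ : ℝ) :
    ∫ z in K, ζ z * ∏ i, Phi h a φ N (uu θ ^ q * y i) n z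
      = ∑ p ∈ Fintype.piFinset (fun _ : Fin k => Finset.Icc (-(N : ℤ)) N),
        ((uu θ ^ q) ^ (∑ i, p i)) * ((∏ i, CN N (p i) (y i))
          * ∫ z in K, ζ z * ∏ i, E h a φ (p i) n z) := by
  set s := Fintype.piFinset (fun _ : Fin k => Finset.Icc (-(N : ℤ)) N) with hs
  have hE : ∀ p : Fin k → ℤ, IntegrableOn (fun z => ζ z * ∏ i, E h a φ (p i) n z) K := by
    intro p
    refine ContinuousOn.integrableOn_compact hK ?_
    exact hζ.mul (continuousOn_finset_prod _ fun i _ =>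
      ((S.tame_E (p i)).smooth n).continuousOn.mono hKU)
  have hu : ‖uu θ ^ q‖ = 1 := by rw [norm_zpow, norm_uu, one_zpow]
  have hu0 : uu θ ^ q ≠ 0 := zpow_ne_zero _ (uu_ne θ)
  have e2 : ∀ z, ζ z * ∏ i, Phi h a φ N (uu θ ^ q * y i) n z
      = ∑ p ∈ s, ((uu θ ^ q) ^ (∑ i, p i) * ∏ i, CN N (p i) (y i))
        * (ζ z * ∏ i, E h a φ (p i) n z) := by
    intro z
    have e3 : ∏ i, Phi h a φ N (uu θ ^ q * y i) n z = ∑ p ∈ s,
        ∏ i, ((uu θ ^ q) ^ (p i) * CN N (p i) (y i) * E h a φ (p i) n z) := by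
      rw [hs, ← Finset.prod_univ_sum (fun _ : Fin k => Finset.Icc (-(N : ℤ)) N)
        (fun i j => (uu θ ^ q) ^ j * CN N j (y i) * E h a φ j n z)]
      refine Finset.prod_congr rfl fun i _ => ?_
      rw [Phi_eq]
      exact Finset.sum_congr rfl fun j _ => by rw [CN_rot N hu]
    rw [e3, Finset.mul_sum]
    refine Finset.sum_congr rfl fun p _ => ?_
    rw [Finset.prod_mul_distrib, Finset.prod_mul_distrib]
    have e4 : ∏ i, (uu θ ^ q) ^ (p i) = (uu θ ^ q) ^ (∑ i, p i) := by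
      induction (Finset.univ : Finset (Fin k)) using Finset.induction_on with
      | empty => simp
      | insert i t hi ih => rw [Finset.prod_insert hi, Finset.sum_insert hi, zpow_add₀ hu0, ih]
    rw [e4]; ring
  simp only [e2]
  rw [integral_finset_sum _ fun p _ => (hE p).const_mul _]
  refine Finset.sum_congr rfl fun p _ => ?_
  rw [integral_const_mul]; ring

/-- **The local formula for a fixed direction.** -/
theorem fix_lim {K : Set ℂ} (hK : IsCompact K) (hKU : K ⊆ U) {q : ℤ} {k : ℕ}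
    (y : Fin k → ℂ) (ξ : Fin k → ℕ → ℝ → ℂ → ℂ) {ζ : ℂ → ℂ} (hζ : Test U ζ)
    (hζK : tsupport ζ ⊆ K) (θ : ℝ) {Γ : (Fin k → ℤ) → ℂ} {V : ℂ}
    (hc : ∀ ε > 0, ∃ N₀ : ℕ, ∀ N ≥ N₀, ∀ᶠ n in atTop,
      ‖(∫ z in K, ζ z * ∏ i, φ n (z + h n * a z * ξ i n θ z))
        - ∫ z in K, ζ z * ∏ i, Phi h a φ N (uu θ ^ q * y i) n z‖ ≤ ε)
    (hj : ∀ p : Fin k → ℤ, Tendsto (fun n => ∫ z, ζ z * ∏ i, E h a φ (p i) n z) atTop
      (𝓝 (Γ p * ∫ z, ζ z)))
    (hΓ : ∀ p, ∑ i, p i ≠ 0 → Γ p = 0)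
    (hm : Tendsto (fun N : ℕ => ∑ p ∈ Fintype.piFinset (fun _ : Fin k => Finset.Icc (-(N : ℤ)) N),
      (∏ i, CN N (p i) (y i)) * ((if ∑ i, p i = 0 then 1 else 0) * Γ p)) atTop (𝓝 V)) :
    Tendsto (fun n => ∫ z, ζ z * ∏ i, φ n (z + h n * a z * ξ i n θ z)) atTop
      (𝓝 ((∫ z, ζ z) * V)) := by
  have hset : ∀ f : ℂ → ℂ, ∫ z, ζ z * f z = ∫ z in K, ζ z * f z := by
    intro f
    rw [setIntegral_eq_integral_of_forall_compl_eq_zero]
    intro z hz
    rw [image_eq_zero_of_notMem_tsupport (fun hz' => hz (hζK hz')), zero_mul]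
  have hζc : ContinuousOn ζ K := hζ.smooth.continuous.continuousOn
  have key := lim_combine
    (X := fun n => ∫ z in K, ζ z * ∏ i, φ n (z + h n * a z * ξ i n θ z))
    (T := fun N n => ∫ z in K, ζ z * ∏ i, Phi h a φ N (uu θ ^ q * y i) n z)
    (α := fun _ => ∫ z, ζ z) (β := fun _ => 0) (W₂ := fun _ => 0) (V₂ := 0)
    (C := ‖∫ z, ζ z‖) hc ?_ hm tendsto_const_nhds
    (Eventually.of_forall fun n => le_rfl) (Eventually.of_forall fun n => by simp)
  · have := key.add_const ((∫ z, ζ z) * V)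
    rw [zero_add] at this
    refine this.congr fun n => ?_
    rw [hset (fun z => ∏ i, φ n (z + h n * a z * ξ i n θ z))]
    ring
  · intro N
    have h1 : ∀ p : Fin k → ℤ, Tendsto (fun n => ((uu θ ^ q) ^ (∑ i, p i))
        * ((∏ i, CN N (p i) (y i)) * ∫ z in K, ζ z * ∏ i, E h a φ (p i) n z)
        - (∫ z, ζ z) * ((∏ i, CN N (p i) (y i)) * ((if ∑ i, p i = 0 then 1 else 0) * Γ p)))
          atTop (𝓝 0) := by
      intro p
      have h2 := (((hj p).const_mul (∏ i, CN N (p i) (y i))).const_mul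
        ((uu θ ^ q) ^ (∑ i, p i))).sub_const ((∫ z, ζ z) * ((∏ i, CN N (p i) (y i))
          * ((if ∑ i, p i = 0 then 1 else 0) * Γ p)))
      have e : (uu θ ^ q) ^ (∑ i, p i) * ((∏ i, CN N (p i) (y i)) * (Γ p * ∫ z, ζ z))
          - (∫ z, ζ z) * ((∏ i, CN N (p i) (y i)) * ((if ∑ i, p i = 0 then 1 else 0) * Γ p)) = 0 := by
        by_cases hp : ∑ i, p i = 0
        · rw [hp, if_pos rfl, zpow_zero]; ring
        · rw [hΓ p hp]; ring
      rw [e] at h2
      refine h2.congr fun n => ?_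
      rw [hset (fun z => ∏ i, E h a φ (p i) n z)]
    have h2 := tendsto_finset_sum (Fintype.piFinset (fun _ : Fin k => Finset.Icc (-(N : ℤ)) N))
      fun p _ => h1 p
    simp only [Finset.sum_const_zero] at h2
    refine h2.congr fun n => ?_
    rw [S.fix_expand hK hKU y hζc N n θ, zero_mul, add_zero, Finset.mul_sum,
      ← Finset.sum_sub_distrib]

end Setup

end

end QE


end

section

/-!
The local formulas of order at most four for a fixed direction of the frame.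
-/

open Complex MeasureTheory Filter Topology Set
open scoped ContDiff

namespace QE

noncomputable section

variable {U : Set ℂ} {h : ℕ → ℝ} {a g : ℂ → ℂ} {φ : ℕ → ℂ → ℂ}

lemma disp_zero (h : ℕ → ℝ) (a : ℂ → ℂ) (K : Set ℂ) (q : ℤ) :
    Disp h a K q 0 (fun _ _ _ => 0) :=
  ⟨fun ε hε => Eventually.of_forall fun n θ z _ => by simpa using hε.le,
    Eventually.of_forall fun n => continuousOn_const,
    Eventually.of_forall fun n θ z _ w _ => by simp⟩

namespace Setup

variable (S : Setup U g a h φ)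

include S

theorem fix_four {K : Set ℂ} (hK : IsCompact K) {δ : ℝ} (hδ : 0 < δ)
    (hδU : Metric.cthickening (2 * δ) K ⊆ U) {q : ℤ} (y : Fin 4 → ℂ)
    (ξ : Fin 4 → ℕ → ℝ → ℂ → ℂ) (hξ : ∀ i, Disp h a K q (y i) (ξ i)) {ζ : ℂ → ℂ}
    (hζ : Test U ζ) (hζK : tsupport ζ ⊆ K) (θ : ℝ)
    (hj : ∀ j m k l : ℤ, Tendsto (fun n => ∫ z, ζ z
      * (E h a φ j n z * E h a φ m n z * (E h a φ k n z * E h a φ l n z))) atTop
      (𝓝 (G j m k l * ∫ z, ζ z))) :
    Tendsto (fun n => ∫ z, ζ z * ∏ i, φ n (z + h n * a z * ξ i n θ z)) atTop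
      (𝓝 ((∫ z, ζ z) * (wick y : ℂ))) := by
  have hKU : K ⊆ U := (Metric.self_subset_cthickening K).trans hδU
  have hζc : ContinuousOn ζ K := hζ.smooth.continuous.continuousOn
  refine S.fix_lim hK hKU (q := q) y ξ hζ hζK θ (Γ := fun p => G (p 0) (p 1) (p 2) (p 3)) ?_ ?_ ?_
    (model_wick y)
  · intro ε hε
    obtain ⟨N₀, hN₀⟩ := S.fix_close hK hδ hδU q (fun _ => true) y ξ hξ hζc hε
    refine ⟨N₀, fun N hN => ?_⟩
    filter_upwards [hN₀ N hN] with n hn
    have := hn θ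
    simp only [fld, tay, if_true] at this
    simp only [Fin.prod_univ_four]
    exact this
  · intro p
    refine (hj (p 0) (p 1) (p 2) (p 3)).congr fun n => ?_
    congr 1; funext z
    rw [Fin.prod_univ_four]; ring
  · intro p hp
    rw [Fin.sum_univ_four] at hp
    unfold G P
    have e : ∀ A B C D : ℤ, p 0 + p 1 + p 2 + p 3 = (A + B) + (C + D) →
        (if A + B = 0 then (-1 : ℂ) ^ A else 0) * (if C + D = 0 then (-1 : ℂ) ^ C else 0) = 0 := by
      intro A B C D h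
      by_cases hA : A + B = 0
      · rw [if_neg (show ¬ C + D = 0 by omega), mul_zero]
      · rw [if_neg hA, zero_mul]
    rw [e (p 0) (p 1) (p 2) (p 3) (by ring), e (p 0) (p 2) (p 1) (p 3) (by ring),
      e (p 0) (p 3) (p 1) (p 2) (by ring)]
    ring

theorem fix_three {K : Set ℂ} (hK : IsCompact K) {δ : ℝ} (hδ : 0 < δ)
    (hδU : Metric.cthickening (2 * δ) K ⊆ U) {q : ℤ} (y : Fin 3 → ℂ)
    (ξ : Fin 3 → ℕ → ℝ → ℂ → ℂ) (hξ : ∀ i, Disp h a K q (y i) (ξ i)) {ζ : ℂ → ℂ}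
    (hζ : Test U ζ) (hζK : tsupport ζ ⊆ K) (θ : ℝ)
    (hj : ∀ j m k : ℤ, Tendsto (fun n => ∫ z, ζ z
      * (E h a φ j n z * E h a φ m n z * E h a φ k n z)) atTop (𝓝 0)) :
    Tendsto (fun n => ∫ z, ζ z * ∏ i, φ n (z + h n * a z * ξ i n θ z)) atTop (𝓝 0) := by
  have hKU : K ⊆ U := (Metric.self_subset_cthickening K).trans hδU
  have hζc : ContinuousOn ζ K := hζ.smooth.continuous.continuousOn
  have key := S.fix_lim hK hKU (q := q) y ξ hζ hζK θ (Γ := fun _ => 0) (V := 0) ?_ ?_ ?_ ?_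
  · rwa [mul_zero] at key
  · intro ε hε
    obtain ⟨N₀, hN₀⟩ := S.fix_close hK hδ hδU q ![true, true, true, false] ![y 0, y 1, y 2, 0]
      ![ξ 0, ξ 1, ξ 2, fun _ _ _ => 0] (fun i => by
        fin_cases i
        · exact hξ 0
        · exact hξ 1
        · exact hξ 2
        · exact disp_zero h a K q) hζc hε
    refine ⟨N₀, fun N hN => ?_⟩
    filter_upwards [hN₀ N hN] with n hn
    have := hn θ
    simp only [Matrix.cons_val_zero, Matrix.cons_val_one, Matrix.cons_val, fld, tay, if_true,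
      Bool.false_eq_true, if_false, mul_one] at this
    simp only [Fin.prod_univ_three]
    exact this
  · intro p
    rw [zero_mul]
    refine (hj (p 0) (p 1) (p 2)).congr fun n => ?_
    simp only [Fin.prod_univ_three]
  · intro p _; rfl
  · simp only [mul_zero, Finset.sum_const_zero]
    exact tendsto_const_nhds

theorem fix_two {K : Set ℂ} (hK : IsCompact K) {δ : ℝ} (hδ : 0 < δ)
    (hδU : Metric.cthickening (2 * δ) K ⊆ U) {q : ℤ} (y : Fin 2 → ℂ)
    (ξ : Fin 2 → ℕ → ℝ → ℂ → ℂ) (hξ : ∀ i, Disp h a K q (y i) (ξ i)) {ζ : ℂ → ℂ}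
    (hζ : Test U ζ) (hζK : tsupport ζ ⊆ K) (θ : ℝ)
    (hj : ∀ j m : ℤ, Tendsto (fun n => ∫ z, ζ z * (E h a φ j n z * E h a φ m n z)) atTop
      (𝓝 (P j m * ∫ z, ζ z))) :
    Tendsto (fun n => ∫ z, ζ z * ∏ i, φ n (z + h n * a z * ξ i n θ z)) atTop
      (𝓝 ((∫ z, ζ z) * (Berry.waveK (y 0 - y 1) : ℂ))) := by
  have hKU : K ⊆ U := (Metric.self_subset_cthickening K).trans hδU
  have hζc : ContinuousOn ζ K := hζ.smooth.continuous.continuousOn
  refine S.fix_lim hK hKU (q := q) y ξ hζ hζK θ (Γ := fun p => P (p 0) (p 1)) ?_ ?_ ?_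
    (model_pair y)
  · intro ε hε
    obtain ⟨N₀, hN₀⟩ := S.fix_close hK hδ hδU q ![true, true, false, false] ![y 0, y 1, 0, 0]
      ![ξ 0, ξ 1, fun _ _ _ => 0, fun _ _ _ => 0] (fun i => by
        fin_cases i
        · exact hξ 0
        · exact hξ 1
        · exact disp_zero h a K q
        · exact disp_zero h a K q) hζc hε
    refine ⟨N₀, fun N hN => ?_⟩
    filter_upwards [hN₀ N hN] with n hn
    have := hn θ
    simp only [Matrix.cons_val_zero, Matrix.cons_val_one, Matrix.cons_val, fld, tay, if_true,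
      Bool.false_eq_true, if_false, mul_one] at this
    simp only [Fin.prod_univ_two]
    exact this
  · intro p
    refine (hj (p 0) (p 1)).congr fun n => ?_
    simp only [Fin.prod_univ_two]
  · intro p hp
    rw [Fin.sum_univ_two] at hp
    unfold P
    rw [if_neg hp]

theorem fix_one {K : Set ℂ} (hK : IsCompact K) {δ : ℝ} (hδ : 0 < δ)
    (hδU : Metric.cthickening (2 * δ) K ⊆ U) {q : ℤ} (y : Fin 1 → ℂ)
    (ξ : Fin 1 → ℕ → ℝ → ℂ → ℂ) (hξ : ∀ i, Disp h a K q (y i) (ξ i)) {ζ : ℂ → ℂ}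
    (hζ : Test U ζ) (hζK : tsupport ζ ⊆ K) (θ : ℝ) :
    Tendsto (fun n => ∫ z, ζ z * ∏ i, φ n (z + h n * a z * ξ i n θ z)) atTop (𝓝 0) := by
  have hKU : K ⊆ U := (Metric.self_subset_cthickening K).trans hδU
  have hζc : ContinuousOn ζ K := hζ.smooth.continuous.continuousOn
  have key := S.fix_lim hK hKU (q := q) y ξ hζ hζK θ (Γ := fun _ => 0) (V := 0) ?_ ?_ ?_ ?_
  · rwa [mul_zero] at key
  · intro ε hε
    obtain ⟨N₀, hN₀⟩ := S.fix_close hK hδ hδU q ![true, false, false, false] ![y 0, 0, 0, 0]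
      ![ξ 0, fun _ _ _ => 0, fun _ _ _ => 0, fun _ _ _ => 0] (fun i => by
        fin_cases i
        · exact hξ 0
        · exact disp_zero h a K q
        · exact disp_zero h a K q
        · exact disp_zero h a K q) hζc hε
    refine ⟨N₀, fun N hN => ?_⟩
    filter_upwards [hN₀ N hN] with n hn
    have := hn θ
    simp only [Matrix.cons_val_zero, Matrix.cons_val_one, Matrix.cons_val, fld, tay, if_true,
      Bool.false_eq_true, if_false, mul_one] at this
    simp only [Fin.prod_univ_one]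
    exact this
  · intro p
    rw [zero_mul]
    refine (S.one_full hζ (p 0)).congr fun n => ?_
    simp only [Fin.prod_univ_one]
  · intro p _; rfl
  · simp only [mul_zero, Finset.sum_const_zero]
    exact tendsto_const_nhds

end Setup

end

end QE


end

section

/-!
Two-point functions of values tested against functions of the direction, without any hypothesis on
weak limits.
-/

open MeasureTheory Filter Topology Set Complex
open scoped ContDiff

namespace QE

noncomputable section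

variable {U : Set ℂ} {h : ℕ → ℝ} {a : ℂ → ℂ} {g : ℂ → ℂ} {φ : ℕ → ℂ → ℂ}

/-- the Fourier coefficients of the plane waves -/
def cK (k : ℤ) (w : ℂ) : ℂ := ∫ t, uu t ^ k * ee w (uu t) ∂ang

lemma cK_zero : cK 0 0 = 1 := by
  unfold cK ee
  simp

lemma cos_eq_uu (t : ℝ) : ((Real.cos t : ℝ) : ℂ) = (1 / 2) * (uu t + (uu t)⁻¹) := by
  unfold uu
  rw [← Complex.exp_neg, neg_mul, neg_neg, Complex.ofReal_cos, Complex.cos, neg_mul]
  ring

/-- the Fourier coefficients of the powers of the cosine -/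
lemma int_uu_cos (k : ℤ) (j : ℕ) (hj : j ≤ k.natAbs) :
    ∫ t, uu t ^ k * ((Real.cos t : ℝ) : ℂ) ^ j ∂ang
      = if j = k.natAbs then (1 / 2) ^ j else 0 := by
  have e1 : ∀ t : ℝ, uu t ^ k * ((Real.cos t : ℝ) : ℂ) ^ j
      = ∑ l ∈ Finset.range (j + 1), ((1 / 2) ^ j * (j.choose l : ℂ)) * uu t ^ (k + l - (j - l : ℕ)) := by
    intro t
    rw [cos_eq_uu, mul_pow, add_pow, Finset.mul_sum, Finset.mul_sum]
    refine Finset.sum_congr rfl fun l _ => ?_
    rw [zpow_sub₀ (uu_ne t), zpow_add₀ (uu_ne t), zpow_natCast, zpow_natCast, inv_pow]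
    field_simp
  simp only [e1]
  rw [integral_finset_sum]
  · simp only [integral_const_mul, ang_zpow]
    have hcond : ∀ l ∈ Finset.range (j + 1), ((k + (l : ℤ) - ((j - l : ℕ) : ℤ) = 0) ↔
        (j = k.natAbs ∧ l = if 0 ≤ k then 0 else j)) := by
      intro l hl
      rw [Finset.mem_range] at hl
      split_ifs with hk <;> omega
    by_cases hjk : j = k.natAbs
    · rw [if_pos hjk]
      have hmem : (if 0 ≤ k then 0 else j) ∈ Finset.range (j + 1) := by
        rw [Finset.mem_range]; split_ifs <;> omega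
      rw [Finset.sum_eq_single_of_mem _ hmem]
      · rw [if_pos ((hcond _ hmem).2 ⟨hjk, rfl⟩), mul_one]
        split_ifs <;> simp
      · intro l hl hne
        rw [if_neg (fun h => hne ((hcond l hl).1 h).2), mul_zero]
    · rw [if_neg hjk]
      refine Finset.sum_eq_zero fun l hl => ?_
      rw [if_neg (fun h => hjk ((hcond l hl).1 h).1), mul_zero]
  · intro l _
    refine Integrable.of_bound (continuous_const.mul (continuous_uu_zpow _)).aestronglyMeasurable
      (‖((1 / 2) ^ j * (j.choose l : ℂ))‖) (Eventually.of_forall fun t => ?_)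
    rw [norm_mul, norm_zpow, norm_uu, one_zpow, mul_one]

/-- the Fourier coefficients of the plane waves do not vanish identically -/
lemma cK_ne (k : ℤ) : ∃ w : ℂ, cK k w ≠ 0 := by
  set m := k.natAbs with hm
  -- a small radius
  obtain ⟨r, hr0, hr1, hr2⟩ : ∃ r : ℝ, 0 < r ∧ r ≤ 1 ∧ r * (2 ^ m * m.factorial * 2) < 1 := by
    refine ⟨(2 ^ m * m.factorial * 2 + 1)⁻¹, by positivity, ?_, ?_⟩
    · exact inv_le_one_of_one_le₀ (by
        have : (0 : ℝ) ≤ 2 ^ m * m.factorial * 2 := by positivity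
        linarith)
    · have : (0 : ℝ) < 2 ^ m * m.factorial * 2 + 1 := by positivity
      rw [inv_mul_lt_iff₀ this]
      linarith
  refine ⟨(r : ℂ), fun h0 => ?_⟩
  have hre : ∀ t : ℝ, (((r : ℂ) * uu t).re : ℂ) = (r : ℂ) * (Real.cos t : ℂ) := by
    intro t
    rw [Complex.re_ofReal_mul]
    unfold uu
    rw [← Complex.ofReal_neg, Complex.exp_ofReal_mul_I_re, Real.cos_neg]
    push_cast; ring
  -- the Taylor polynomial
  have e1 : ∫ t, uu t ^ k * ∑ j ∈ Finset.range (m + 1), (I * ((r : ℂ) * (Real.cos t : ℂ))) ^ j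
      / (j.factorial : ℂ) ∂ang = (I * r / 2) ^ m / (m.factorial : ℂ) := by
    have e2 : ∀ t : ℝ, uu t ^ k * ∑ j ∈ Finset.range (m + 1), (I * ((r : ℂ) * (Real.cos t : ℂ))) ^ j
      / (j.factorial : ℂ) = ∑ j ∈ Finset.range (m + 1), ((I * r) ^ j / (j.factorial : ℂ))
        * (uu t ^ k * ((Real.cos t : ℝ) : ℂ) ^ j) := by
      intro t
      rw [Finset.mul_sum]
      refine Finset.sum_congr rfl fun j _ => ?_
      rw [mul_pow, mul_pow, mul_pow]; ring
    simp only [e2]
    rw [integral_finset_sum]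
    · simp only [integral_const_mul]
      rw [Finset.sum_congr rfl fun j hj => by
        rw [int_uu_cos k j (by rw [Finset.mem_range] at hj; omega)]]
      rw [Finset.sum_eq_single_of_mem m (Finset.mem_range.2 (Nat.lt_succ_self m))]
      · rw [if_pos rfl, one_div, inv_pow, div_pow, mul_pow]
        field_simp
      · intro j _ hj
        rw [if_neg hj, mul_zero]
    · intro j _
      have hc : Continuous fun t : ℝ => uu t ^ k * ((Real.cos t : ℝ) : ℂ) ^ j :=
        (continuous_uu_zpow k).mul ((Complex.continuous_ofReal.comp Real.continuous_cos).pow j)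
      refine (Integrable.of_bound hc.aestronglyMeasurable 1 (Eventually.of_forall fun t => ?_)).const_mul _
      rw [norm_mul, norm_zpow, norm_uu, one_zpow, one_mul, norm_pow, Complex.norm_real]
      exact pow_le_one₀ (norm_nonneg _) (Real.abs_cos_le_one t)
  -- the remainder
  have hcont : Continuous fun t => uu t ^ k * (ee (r : ℂ) (uu t)
      - ∑ j ∈ Finset.range (m + 1), (I * ((r : ℂ) * (Real.cos t : ℂ))) ^ j / (j.factorial : ℂ)) := by
    refine (continuous_uu_zpow k).mul ((continuous_ee_uu _).sub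
      (continuous_finset_sum _ fun j _ => ?_))
    fun_prop
  have e3 : ‖∫ t, uu t ^ k * (ee (r : ℂ) (uu t) - ∑ j ∈ Finset.range (m + 1),
      (I * ((r : ℂ) * (Real.cos t : ℂ))) ^ j / (j.factorial : ℂ)) ∂ang‖
      ≤ r ^ (m + 1) * 2 / (m + 1).factorial := by
    calc _ ≤ ∫ t : ℝ, r ^ (m + 1) * 2 / (m + 1).factorial ∂ang := by
          refine norm_integral_le_of_norm_le (integrable_const _) (Eventually.of_forall fun t => ?_)
          rw [norm_mul, norm_zpow, norm_uu, one_zpow, one_mul]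
          unfold ee
          rw [hre]
          have hx : ‖I * ((r : ℂ) * (Real.cos t : ℂ))‖ ≤ r := by
            rw [norm_mul, Complex.norm_I, one_mul, norm_mul, Complex.norm_real, Complex.norm_real,
              Real.norm_of_nonneg hr0.le]
            exact mul_le_of_le_one_right hr0.le (Real.abs_cos_le_one t)
          have hb := Complex.exp_bound (hx.trans hr1) (Nat.succ_pos m)
          refine hb.trans ?_
          calc ‖I * ((r : ℂ) * (Real.cos t : ℂ))‖ ^ (m + 1)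
                * (((m + 1).succ : ℝ) * (((m + 1).factorial : ℝ) * ((m + 1 : ℕ) : ℝ))⁻¹)
              ≤ r ^ (m + 1) * (2 * ((m + 1).factorial : ℝ)⁻¹) := by
                gcongr ?_ * ?_
                · exact pow_le_pow_left₀ (norm_nonneg _) hx _
                · rw [mul_inv, ← mul_assoc, mul_comm ((m + 1).succ : ℝ), mul_assoc, mul_comm (2 : ℝ)]
                  gcongr
                  rw [mul_inv_le_iff₀ (by positivity)]
                  push_cast
                  linarith only []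
            _ = _ := by ring
      _ = _ := by simp
  have hint1 : Integrable (fun t => uu t ^ k * ee (r : ℂ) (uu t)) ang := by
    refine Integrable.of_bound ((continuous_uu_zpow k).mul
      (continuous_ee_uu _)).aestronglyMeasurable 1 (Eventually.of_forall fun t => ?_)
    show ‖uu t ^ k * ee (r : ℂ) (uu t)‖ ≤ 1
    rw [norm_mul, norm_zpow, norm_uu, one_zpow, one_mul]
    unfold ee
    rw [mul_comm I, Complex.norm_exp_ofReal_mul_I]
  have hint2 : Integrable (fun t => uu t ^ k * ∑ j ∈ Finset.range (m + 1),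
      (I * ((r : ℂ) * (Real.cos t : ℂ))) ^ j / (j.factorial : ℂ)) ang := by
    have h1 : Integrable (fun t => uu t ^ k * (ee (r : ℂ) (uu t)
      - ∑ j ∈ Finset.range (m + 1), (I * ((r : ℂ) * (Real.cos t : ℂ))) ^ j / (j.factorial : ℂ)))
        ang := by
      refine (hcont.integrableOn_Icc (μ := volume) (a := 0) (b := 2 * Real.pi)).mono_set
        Ioc_subset_Icc_self |>.smul_measure ?_
      rw [Ne, ENNReal.inv_eq_top, Real.volume_Ioc, ENNReal.ofReal_eq_zero, not_le, sub_zero]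
      positivity
    refine (hint1.sub h1).congr (Eventually.of_forall fun t => ?_)
    simp only [Pi.sub_apply]
    ring
  have e4 : ∫ t, uu t ^ k * (ee (r : ℂ) (uu t) - ∑ j ∈ Finset.range (m + 1),
      (I * ((r : ℂ) * (Real.cos t : ℂ))) ^ j / (j.factorial : ℂ)) ∂ang
      = - ((I * r / 2) ^ m / (m.factorial : ℂ)) := by
    rw [← e1]
    simp only [mul_sub]
    rw [integral_sub hint1 hint2]
    have : ∫ t, uu t ^ k * ee (r : ℂ) (uu t) ∂ang = 0 := h0
    rw [this, zero_sub]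
  rw [e4, norm_neg, norm_div, norm_pow, norm_div, norm_mul, Complex.norm_I, one_mul,
    Complex.norm_real, Real.norm_of_nonneg hr0.le, Complex.norm_natCast] at e3
  have e5 : ‖(2 : ℂ)‖ = 2 := by simp
  rw [e5, div_pow] at e3
  have hf : (0 : ℝ) < m.factorial := by exact_mod_cast Nat.factorial_pos m
  have hf1 : (1 : ℝ) ≤ (m + 1).factorial := by exact_mod_cast Nat.factorial_pos (m + 1)
  have e6 : r ^ (m + 1) * 2 / (m + 1).factorial ≤ r ^ (m + 1) * 2 :=
    div_le_self (by positivity) hf1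
  have e7 := e3.trans e6
  rw [div_div, div_le_iff₀ (by positivity)] at e7
  have e8 : r ^ (m + 1) * 2 * (2 ^ m * (m.factorial : ℝ))
      = r ^ m * (r * (2 ^ m * m.factorial * 2)) := by ring
  rw [e8] at e7
  have hrm : 0 < r ^ m := by positivity
  have : r ^ m * (r * (2 ^ m * m.factorial * 2)) < r ^ m * 1 := by gcongr
  linarith

lemma int_ang_w {K : Set ℂ} (hK : IsCompact K) {H : ℝ × ℂ → ℂ} (hH : ContinuousOn H (univ ×ˢ K))
    (W : ℝ → ℂ) (hW : Continuous W) (hW1 : ∀ θ, ‖W θ‖ ≤ 1) :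
    Integrable (fun θ => W θ * ∫ z in K, H (θ, z)) ang := by
  have h1 : Integrable (fun θ => ∫ z in K, H (θ, z)) ang := int_ang_left hK hH
  exact h1.bdd_mul hW.aestronglyMeasurable (Eventually.of_forall hW1)

/-- the model correlations tested against functions of the direction -/
theorem tendsto_model_w {k : ℕ} (r : ℤ) (y : Fin k → ℂ) :
    Tendsto (fun N : ℕ => ∑ p ∈ Fintype.piFinset (fun _ : Fin k => Finset.Icc (-(N : ℤ)) N),
      (∏ i, CN N (p i) (y i)) * (if r + ∑ i, p i = 0 then 1 else 0)) atTop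
      (𝓝 (∫ t, uu t ^ r * ∏ i, ee (y i) (uu t) ∂ang)) := by
  have h1 : ∀ N : ℕ, ∑ p ∈ Fintype.piFinset (fun _ : Fin k => Finset.Icc (-(N : ℤ)) N),
      (∏ i, CN N (p i) (y i)) * (if r + ∑ i, p i = 0 then 1 else 0)
      = ∫ t, uu t ^ r * ∏ i, pp N (y i) (uu t) ∂ang := by
    intro N
    have e2 : ∀ (p : Fin k → ℤ) (t : ℝ), uu t ^ r * ∏ i, uu t ^ p i = uu t ^ (r + ∑ i, p i) := by
      intro p t
      have e4 : ∏ i, (uu t) ^ (p i) = (uu t) ^ (∑ i, p i) := by
        induction (Finset.univ : Finset (Fin k)) using Finset.induction_on with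
        | empty => simp
        | insert i t hi ih =>
          rw [Finset.prod_insert hi, Finset.sum_insert hi, zpow_add₀ (uu_ne _), ih]
      rw [e4, zpow_add₀ (uu_ne t)]
    have hint : ∀ p ∈ Fintype.piFinset (fun _ : Fin k => Finset.Icc (-(N : ℤ)) N),
        Integrable (fun t => (∏ i, CN N (p i) (y i)) * (uu t ^ r * ∏ i, uu t ^ (p i))) ang := by
      intro p _
      simp only [e2]
      have hc : Continuous (fun t => (∏ i, CN N (p i) (y i)) * uu t ^ (r + ∑ i, p i)) :=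
        continuous_const.mul (continuous_uu_zpow _)
      refine Integrable.of_bound hc.aestronglyMeasurable (‖∏ i, CN N (p i) (y i)‖)
        (Eventually.of_forall fun o => ?_)
      rw [norm_mul, norm_zpow, norm_uu, one_zpow, mul_one]
    have e5 : ∀ p : Fin k → ℤ, (∏ i, CN N (p i) (y i)) * (if r + ∑ i, p i = 0 then 1 else 0)
        = ∫ t, (∏ i, CN N (p i) (y i)) * (uu t ^ r * ∏ i, uu t ^ (p i)) ∂ang := by
      intro p
      simp only [e2]
      rw [integral_const_mul, ang_zpow]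
    rw [Finset.sum_congr rfl fun p _ => e5 p, ← integral_finset_sum _ hint]
    refine integral_congr_ae (Eventually.of_forall fun t => ?_)
    unfold pp
    beta_reduce
    rw [Finset.prod_univ_sum, Finset.mul_sum]
    refine Finset.sum_congr rfl fun p _ => ?_
    rw [Finset.prod_mul_distrib]; ring
  simp only [h1]
  refine tendsto_integral_of_dominated_convergence (fun _ => ∏ i, Real.exp ‖y i‖) (fun N => ?_)
    (integrable_const _) (fun N => Eventually.of_forall fun o => ?_)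
    (Eventually.of_forall fun o => ?_)
  · exact ((continuous_uu_zpow r).mul (continuous_finset_prod _ fun i _ => continuous_pp_uu N (y i)
      continuous_id)).aestronglyMeasurable
  · rw [norm_mul, norm_zpow, norm_uu, one_zpow, one_mul, norm_prod]
    exact Finset.prod_le_prod (fun _ _ => norm_nonneg _) fun i _ => norm_pp_le (norm_uu _) N (y i)
  · exact (tendsto_finset_prod _ fun i _ => tendsto_pp (norm_uu _) (y i)).const_mul _

namespace Setup

variable (S : Setup U g a h φ)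

include S

/-- weighted rotation averages of products of two values and of their Taylor polynomials -/
theorem rot_close_w {K : Set ℂ} (hK : IsCompact K) {δ : ℝ} (hδ : 0 < δ)
    (hδU : Metric.cthickening (2 * δ) K ⊆ U) (q : ℤ) (y : Fin 2 → ℂ)
    (ξ : Fin 2 → ℕ → ℝ → ℂ → ℂ) (hξ : ∀ i, Disp h a K q (y i) (ξ i)) {ζ : ℂ → ℂ}
    (hζ : ContinuousOn ζ K) (W : ℝ → ℂ) (hW : Continuous W) (hW1 : ∀ θ, ‖W θ‖ ≤ 1)
    {ε : ℝ} (hε : 0 < ε) :
    ∃ N₀ : ℕ, ∀ N ≥ N₀, ∀ᶠ n in atTop,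
      ‖(∫ θ, W θ * (∫ z in K, ζ z * (φ n (z + h n * a z * ξ 0 n θ z)
          * φ n (z + h n * a z * ξ 1 n θ z))) ∂ang)
        - ∫ θ, W θ * (∫ z in K, ζ z * (Phi h a φ N (uu θ ^ q * y 0) n z
          * Phi h a φ N (uu θ ^ q * y 1) n z)) ∂ang‖ ≤ ε := by
  have hKU : K ⊆ U := (Metric.self_subset_cthickening K).trans hδU
  set K₁ := Metric.cthickening δ K with hK₁def
  have hK₁ : IsCompact K₁ := hK.cthickening
  have hK₁U : K₁ ⊆ U := (Metric.cthickening_mono (by linarith) K).trans hδU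
  obtain ⟨M₀, hM₀⟩ := S.tame.bdd4 K₁ hK₁ hK₁U
  obtain ⟨Z₀, hZ₀⟩ := hK.exists_bound_of_continuousOn hζ
  set B : ℝ := max (4 * |M₀|) ((volume K).toReal) with hB
  have hB0 : 0 ≤ B := le_trans (by positivity) (le_max_left _ _)
  obtain ⟨ε₁, hε₁, hclose⟩ := prod4_close hK (abs_nonneg Z₀) hB0 hε
  have hT : ∀ i, ∃ N₀ : ℕ, ∀ N ≥ N₀, ∀ᶠ n in atTop, ∀ θ : ℝ, ∫ z in K,
      ‖φ n (z + h n * a z * ξ i n θ z) - Phi h a φ N (uu θ ^ q * y i) n z‖ ^ 4 ≤ ε₁ := by
    intro i
    obtain ⟨N₀, hN₀⟩ := S.taylor hK hδ hδU (norm_nonneg (y i)) hε₁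
    refine ⟨N₀, fun N hN => hN₀ N hN ℝ (fun θ => uu θ ^ q * y i) (ξ i) (fun θ => ?_) (hξ i).lim ?_
      (hξ i).lip⟩
    · rw [norm_mul, norm_zpow, norm_uu, one_zpow, one_mul]
    · filter_upwards [(hξ i).cont] with n hn θ
      exact hn.comp (by fun_prop : ContinuousOn (fun z : ℂ => (θ, z)) K)
        fun z hz => ⟨mem_univ _, hz⟩
  choose N₀ hN₀ using hT
  refine ⟨∑ i, N₀ i, fun N hN => ?_⟩
  have hNi : ∀ i, N₀ i ≤ N := fun i =>
    (Finset.single_le_sum (f := N₀) (fun _ _ => Nat.zero_le _) (Finset.mem_univ i)).trans hN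
  have e1 : ∀ᶠ n in atTop, ∀ i : Fin 2, ∀ θ : ℝ, ∫ z in K,
      ‖φ n (z + h n * a z * ξ i n θ z) - Phi h a φ N (uu θ ^ q * y i) n z‖ ^ 4 ≤ ε₁ :=
    eventually_all.2 fun i => hN₀ i N (hNi i)
  have e2 : ∀ᶠ n in atTop, ∀ i : Fin 2, ContinuousOn (fun p : ℝ × ℂ => ξ i n p.1 p.2) (univ ×ˢ K) :=
    eventually_all.2 fun i => (hξ i).cont
  have e3 : ∀ᶠ n in atTop, ∀ i : Fin 2, ∀ θ, ∀ z ∈ K, ∀ t ∈ Icc (0 : ℝ) 1,
      z + t • ((h n : ℂ) * a z * ξ i n θ z) ∈ K₁ :=
    eventually_all.2 fun i => S.seg_mem hK hδ hδU (hξ i)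
  have e4 : ∀ᶠ n in atTop, ∀ i : Fin 2, ∀ θ, ∀ z ∈ K, ∀ w ∈ K,
      ‖h n * a z * ξ i n θ z - h n * a w * ξ i n θ w‖ ≤ (1 / 2) * ‖z - w‖ :=
    eventually_all.2 fun i => (hξ i).lip
  filter_upwards [e1, e2, e3, e4, hM₀] with n n1 n2 n3 n4 n5
  -- joint continuity of the fields
  have hmem : ∀ i θ, ∀ z ∈ K, z + (h n : ℂ) * a z * ξ i n θ z ∈ K₁ := by
    intro i θ z hz
    have := n3 i θ z hz 1 (by simp)
    rwa [one_smul] at this
  have cdisp : ∀ i, ContinuousOn (fun p : ℝ × ℂ => p.2 + (h n : ℂ) * a p.2 * ξ i n p.1 p.2)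
      (univ ×ˢ K) := fun i =>
    continuousOn_snd.add ((continuousOn_const.mul ((S.ha.continuousOn.mono hKU).comp
      continuousOn_snd fun p hp => hp.2)).mul (n2 i))
  have cF : ∀ i, ContinuousOn (fun p : ℝ × ℂ => φ n (p.2 + (h n : ℂ) * a p.2 * ξ i n p.1 p.2))
      (univ ×ˢ K) := fun i =>
    ((S.tame.smooth n).continuousOn.mono hK₁U).comp (cdisp i) fun p hp => hmem i p.1 p.2 hp.2
  have cG : ∀ i, ContinuousOn (fun p : ℝ × ℂ => Phi h a φ N (uu p.1 ^ q * y i) n p.2)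
      (univ ×ˢ K) := fun i => S.Phi_cont hKU q (y i) N n
  have cζ : ContinuousOn (fun p : ℝ × ℂ => ζ p.2) (univ ×ˢ K) :=
    hζ.comp continuousOn_snd fun p hp => hp.2
  have sec : ∀ (H : ℝ × ℂ → ℂ), ContinuousOn H (univ ×ˢ K) → ∀ θ : ℝ,
      ContinuousOn (fun z => H (θ, z)) K := fun H hH θ =>
    hH.comp (by fun_prop : ContinuousOn (fun z : ℂ => (θ, z)) K) fun z hz => ⟨mem_univ _, hz⟩
  have iF : Integrable (fun θ => W θ * ∫ z in K, ζ z * (φ n (z + h n * a z * ξ 0 n θ z)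
      * φ n (z + h n * a z * ξ 1 n θ z))) ang :=
    int_ang_w hK (cζ.mul ((cF 0).mul (cF 1))) W hW hW1
  have iG : Integrable (fun θ => W θ * ∫ z in K, ζ z * (Phi h a φ N (uu θ ^ q * y 0) n z
      * Phi h a φ N (uu θ ^ q * y 1) n z)) ang :=
    int_ang_w hK (cζ.mul ((cG 0).mul (cG 1))) W hW hW1
  have main : ∀ θ : ℝ, ‖(∫ z in K, ζ z * (φ n (z + h n * a z * ξ 0 n θ z)
      * φ n (z + h n * a z * ξ 1 n θ z)))
        - ∫ z in K, ζ z * (Phi h a φ N (uu θ ^ q * y 0) n z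
      * Phi h a φ N (uu θ ^ q * y 1) n z)‖ ≤ ε := by
    intro θ
    have bφ : ∀ i, ∫ z in K, ‖φ n (z + (h n : ℂ) * a z * ξ i n θ z)‖ ^ 4 ≤ B := by
      intro i
      refine le_trans ?_ (le_max_left _ _)
      have hexp := expand_of_lip (v := fun z => (h n : ℂ) * a z * ξ i n θ z) (n4 i θ)
        (t := 1) (by simp)
      simp only [one_smul] at hexp
      have := integral_comp_le hK hK₁ hexp (fun z hz => hmem i θ z hz) (sec _ (cdisp i) θ)
        (f := fun z => ‖φ n z‖ ^ 4)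
        (((S.tame.smooth n).continuousOn.mono hK₁U).norm.pow 4) (fun z _ => by (clear * -; positivity))
      refine this.trans ?_
      have := n5.trans (le_abs_self M₀)
      linarith only [this]
    have b1 : ∫ z in K, ‖(1 : ℂ)‖ ^ 4 ≤ B := by
      simp only [norm_one, one_pow]
      rw [integral_const, smul_eq_mul, mul_one, measureReal_restrict_apply_univ]
      exact le_max_right _ _
    have hc := hclose
      (fun i z => if hi : i.val < 2 then φ n (z + (h n : ℂ) * a z * ξ ⟨i.val, hi⟩ n θ z) else 1)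
      (fun i z => if hi : i.val < 2 then Phi h a φ N (uu θ ^ q * y ⟨i.val, hi⟩) n z else 1)
      (fun i => by
        by_cases hi : i.val < 2
        · simp only [hi, dif_pos]; exact sec _ (cF ⟨i.val, hi⟩) θ
        · simp only [hi, dif_neg, not_false_eq_true]; exact continuousOn_const)
      (fun i => by
        by_cases hi : i.val < 2
        · simp only [hi, dif_pos]; exact sec _ (cG ⟨i.val, hi⟩) θ
        · simp only [hi, dif_neg, not_false_eq_true]; exact continuousOn_const)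
      (fun i => by
        by_cases hi : i.val < 2
        · simp only [hi, dif_pos]; exact bφ ⟨i.val, hi⟩
        · simp only [hi, dif_neg, not_false_eq_true]; exact b1)
      (fun i => by
        by_cases hi : i.val < 2
        · simp only [hi, dif_pos]; exact n1 ⟨i.val, hi⟩ θ
        · simp only [hi, dif_neg, not_false_eq_true, sub_self, norm_zero]
          simpa using hε₁.le)
      ζ hζ (fun z hz => (hZ₀ z hz).trans (le_abs_self Z₀))
    simpa using hc
  rw [← integral_sub iF iG]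
  calc _ ≤ ∫ θ : ℝ, ε ∂ang := norm_integral_le_of_norm_le (integrable_const _)
        (Eventually.of_forall fun θ => by
          rw [← mul_sub, norm_mul]
          calc _ ≤ 1 * ε := mul_le_mul (hW1 θ) (main θ) (norm_nonneg _) zero_le_one
            _ = ε := one_mul ε)
    _ = ε := by simp

/-- weighted rotation averages of the products of the Taylor polynomials -/
theorem rot_expand_w {K : Set ℂ} (hK : IsCompact K) (hKU : K ⊆ U) {q : ℤ} (hq : q ≠ 0) {k : ℕ}
    (y : Fin k → ℂ) {ζ : ℂ → ℂ} (hζ : ContinuousOn ζ K) (r : ℤ) (N n : ℕ) :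
    ∫ θ, (uu θ ^ q) ^ r * (∫ z in K, ζ z * ∏ i, Phi h a φ N (uu θ ^ q * y i) n z) ∂ang
      = ∑ p ∈ Fintype.piFinset (fun _ : Fin k => Finset.Icc (-(N : ℤ)) N),
        (∏ i, CN N (p i) (y i)) * ((if r + ∑ i, p i = 0 then 1 else 0)
          * ∫ z in K, ζ z * ∏ i, E h a φ (p i) n z) := by
  set s := Fintype.piFinset (fun _ : Fin k => Finset.Icc (-(N : ℤ)) N) with hs
  have hE : ∀ p : Fin k → ℤ, IntegrableOn (fun z => ζ z * ∏ i, E h a φ (p i) n z) K := by
    intro p
    refine ContinuousOn.integrableOn_compact hK ?_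
    exact hζ.mul (continuousOn_finset_prod _ fun i _ =>
      ((S.tame_E (p i)).smooth n).continuousOn.mono hKU)
  have e1 : ∀ θ : ℝ, (uu θ ^ q) ^ r * ∫ z in K, ζ z * ∏ i, Phi h a φ N (uu θ ^ q * y i) n z
      = ∑ p ∈ s, ((uu θ ^ q) ^ (r + ∑ i, p i)) * ((∏ i, CN N (p i) (y i))
          * ∫ z in K, ζ z * ∏ i, E h a φ (p i) n z) := by
    intro θ
    have hu : ‖uu θ ^ q‖ = 1 := by rw [norm_zpow, norm_uu, one_zpow]
    have hu0 : uu θ ^ q ≠ 0 := zpow_ne_zero _ (uu_ne θ)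
    have e2 : ∀ z, ζ z * ∏ i, Phi h a φ N (uu θ ^ q * y i) n z
        = ∑ p ∈ s, ((uu θ ^ q) ^ (∑ i, p i) * ∏ i, CN N (p i) (y i))
          * (ζ z * ∏ i, E h a φ (p i) n z) := by
      intro z
      have e3 : ∏ i, Phi h a φ N (uu θ ^ q * y i) n z = ∑ p ∈ s,
          ∏ i, ((uu θ ^ q) ^ (p i) * CN N (p i) (y i) * E h a φ (p i) n z) := by
        rw [hs, ← Finset.prod_univ_sum (fun _ : Fin k => Finset.Icc (-(N : ℤ)) N)
          (fun i j => (uu θ ^ q) ^ j * CN N j (y i) * E h a φ j n z)]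
        refine Finset.prod_congr rfl fun i _ => ?_
        rw [Phi_eq]
        exact Finset.sum_congr rfl fun j _ => by rw [CN_rot N hu]
      rw [e3, Finset.mul_sum]
      refine Finset.sum_congr rfl fun p _ => ?_
      rw [Finset.prod_mul_distrib, Finset.prod_mul_distrib]
      have e4 : ∏ i, (uu θ ^ q) ^ (p i) = (uu θ ^ q) ^ (∑ i, p i) := by
        induction (Finset.univ : Finset (Fin k)) using Finset.induction_on with
        | empty => simp
        | insert i t hi ih => rw [Finset.prod_insert hi, Finset.sum_insert hi, zpow_add₀ hu0, ih]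
      rw [e4]; ring
    simp only [e2]
    rw [integral_finset_sum _ fun p _ => (hE p).const_mul _, Finset.mul_sum]
    refine Finset.sum_congr rfl fun p _ => ?_
    rw [integral_const_mul, zpow_add₀ hu0]; ring
  simp only [e1]
  rw [integral_finset_sum]
  · refine Finset.sum_congr rfl fun p _ => ?_
    rw [integral_mul_const, ang_zpow_mul hq]
    ring
  · intro p _
    refine Integrable.mul_const ?_ _
    simp only [← zpow_mul]
    refine Integrable.of_bound (continuous_uu_zpow _).aestronglyMeasurable 1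
      (Eventually.of_forall fun θ => ?_)
    rw [norm_zpow, norm_uu, one_zpow]

/-- moving the indices -/
theorem int_move (j m : ℤ) {ζ : ℂ → ℂ} (hζ : Test U ζ) :
    Tendsto (fun n => (∫ z, ζ z * (E h a φ j n z * E h a φ m n z))
      - (-1) ^ j * ∫ z, ζ z * (E h a φ 0 n z * E h a φ (j + m) n z)) atTop (𝓝 0) := by
  have up : ∀ j : ℤ, (∀ m : ℤ, Tendsto (fun n => (∫ z, ζ z * (E h a φ j n z * E h a φ m n z))
      - (-1) ^ j * ∫ z, ζ z * (E h a φ 0 n z * E h a φ (j + m) n z)) atTop (𝓝 0)) →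
      ∀ m : ℤ, Tendsto (fun n => (∫ z, ζ z * (E h a φ (j + 1) n z * E h a φ m n z))
      - (-1) ^ (j + 1) * ∫ z, ζ z * (E h a φ 0 n z * E h a φ (j + 1 + m) n z)) atTop (𝓝 0) := by
    intro j hj m
    have h2 := (S.int_add j m hζ).sub (hj (m + 1))
    rw [sub_zero] at h2
    refine h2.congr fun n => ?_
    have : j + 1 + m = j + (m + 1) := by ring
    rw [this, zpow_add_one₀ (by norm_num)]; ring
  have down : ∀ j : ℤ, (∀ m : ℤ, Tendsto (fun n => (∫ z, ζ z * (E h a φ j n z * E h a φ m n z))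
      - (-1) ^ j * ∫ z, ζ z * (E h a φ 0 n z * E h a φ (j + m) n z)) atTop (𝓝 0)) →
      ∀ m : ℤ, Tendsto (fun n => (∫ z, ζ z * (E h a φ (j - 1) n z * E h a φ m n z))
      - (-1) ^ (j - 1) * ∫ z, ζ z * (E h a φ 0 n z * E h a φ (j - 1 + m) n z)) atTop (𝓝 0) := by
    intro j hj m
    have h2 := (S.int_add (j - 1) (m - 1) hζ).sub (hj (m - 1))
    rw [sub_zero, sub_add_cancel, sub_add_cancel] at h2
    refine h2.congr fun n => ?_
    have : j - 1 + m = j + (m - 1) := by ring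
    rw [this, zpow_sub_one₀ (by norm_num)]
    have : ((-1 : ℂ))⁻¹ = -1 := by norm_num
    rw [this]; ring
  induction j using Int.induction_on generalizing m with
  | zero =>
    refine tendsto_const_nhds.congr fun n => ?_
    rw [zpow_zero, one_mul, zero_add, sub_self]
  | succ j ih => exact up _ ih m
  | pred j ih => exact down _ ih m

/-- **The two-point functions tested against functions of the direction.** -/
theorem two_mode {K : Set ℂ} (hK : IsCompact K) {δ : ℝ} (hδ : 0 < δ)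
    (hδU : Metric.cthickening (2 * δ) K ⊆ U) {q : ℤ} (hq : q ≠ 0) (r : ℤ) (y : Fin 2 → ℂ)
    (ξ : Fin 2 → ℕ → ℝ → ℂ → ℂ) (hξ : ∀ i, Disp h a K q (y i) (ξ i)) {ζ : ℂ → ℂ}
    (hζ : Test U ζ) (hζK : tsupport ζ ⊆ K) :
    Tendsto (fun n => (∫ θ, (uu θ ^ q) ^ r * (∫ z in K, ζ z * (φ n (z + h n * a z * ξ 0 n θ z)
        * φ n (z + h n * a z * ξ 1 n θ z))) ∂ang)
      - (∫ z, ζ z * (E h a φ 0 n z * E h a φ (-r) n z)) * cK r (y 1 - y 0)) atTop (𝓝 0) := by
  have hKU : K ⊆ U := (Metric.self_subset_cthickening K).trans hδU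
  have hset : ∀ f : ℂ → ℂ, ∫ z, ζ z * f z = ∫ z in K, ζ z * f z := by
    intro f
    rw [setIntegral_eq_integral_of_forall_compl_eq_zero]
    intro z hz
    rw [image_eq_zero_of_notMem_tsupport (fun hz' => hz (hζK hz')), zero_mul]
  have hζc : ContinuousOn ζ K := hζ.smooth.continuous.continuousOn
  obtain ⟨C₁, hC₁⟩ := (((S.tame_E 0).bdd4.mul4 (S.tame_E 0).smooth (S.tame_E (-r)).bdd4
    (S.tame_E (-r)).smooth)).test ((S.tame_E 0).smooth.mul (S.tame_E (-r)).smooth) hζ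
  have key := lim_combine
    (X := fun n => ∫ θ, (uu θ ^ q) ^ r * (∫ z in K, ζ z * (φ n (z + h n * a z * ξ 0 n θ z)
        * φ n (z + h n * a z * ξ 1 n θ z))) ∂ang)
    (T := fun N n => ∑ p ∈ Fintype.piFinset (fun _ : Fin 2 => Finset.Icc (-(N : ℤ)) N),
        (∏ i, CN N (p i) (y i)) * ((if r + ∑ i, p i = 0 then 1 else 0)
          * ∫ z in K, ζ z * ∏ i, E h a φ (p i) n z))
    (W₁ := fun N => ∑ p ∈ Fintype.piFinset (fun _ : Fin 2 => Finset.Icc (-(N : ℤ)) N),
        (∏ i, CN N (p i) (y i)) * ((if r + ∑ i, p i = 0 then 1 else 0) * (-1) ^ (p 0)))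
    (W₂ := fun _ => 0)
    (α := fun n => ∫ z, ζ z * (E h a φ 0 n z * E h a φ (-r) n z)) (β := fun _ => 0)
    (V₁ := cK r (y 1 - y 0)) (V₂ := 0) (C := max C₁ 0) ?_ ?_ ?_ tendsto_const_nhds
    (hC₁.mono fun n hn => hn.trans (le_max_left _ _))
    (Eventually.of_forall fun n => by rw [norm_zero]; exact le_max_right _ _)
  · refine key.congr fun n => ?_
    ring
  · intro ε hε
    obtain ⟨N₀, hN₀⟩ := S.rot_close_w hK hδ hδU q y ξ hξ hζc (fun θ => (uu θ ^ q) ^ r)
      (by simp only [← zpow_mul]; exact continuous_uu_zpow _)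
      (fun θ => by rw [norm_zpow, norm_zpow, norm_uu, one_zpow, one_zpow]) hε
    refine ⟨N₀, fun N hN => ?_⟩
    filter_upwards [hN₀ N hN] with n hn
    have e1 := S.rot_expand_w hK hKU hq y hζc r N n
    simp only [Fin.prod_univ_two] at e1
    rw [e1] at hn
    simp only [Fin.prod_univ_two]
    exact hn
  · intro N
    have h1 : ∀ p : Fin 2 → ℤ, Tendsto (fun n => (if r + ∑ i, p i = 0 then 1 else 0)
        * (∫ z in K, ζ z * ∏ i, E h a φ (p i) n z)
        - (∫ z, ζ z * (E h a φ 0 n z * E h a φ (-r) n z))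
          * ((if r + ∑ i, p i = 0 then 1 else 0) * (-1) ^ (p 0))) atTop (𝓝 0) := by
      intro p
      by_cases hp : r + ∑ i, p i = 0
      · simp only [if_pos hp, one_mul]
        rw [Fin.sum_univ_two] at hp
        have hp' : p 0 + p 1 = -r := by linarith
        have h2 := S.int_move (p 0) (p 1) hζ
        rw [hp'] at h2
        refine h2.congr fun n => ?_
        rw [hset (fun z => E h a φ (p 0) n z * E h a φ (p 1) n z)]
        simp only [Fin.prod_univ_two]
        ring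
      · simp only [if_neg hp, zero_mul, mul_zero, sub_zero]
        exact tendsto_const_nhds
    have h2 := tendsto_finset_sum (Fintype.piFinset (fun _ : Fin 2 => Finset.Icc (-(N : ℤ)) N))
      fun p _ => (h1 p).const_mul (∏ i, CN N (p i) (y i))
    simp only [mul_zero, Finset.sum_const_zero] at h2
    refine h2.congr fun n => ?_
    rw [mul_zero, add_zero, Finset.mul_sum, ← Finset.sum_sub_distrib]
    exact Finset.sum_congr rfl fun p _ => by ring
  · -- the model
    have m1 := tendsto_model_w r ![-(y 0), y 1]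
    have e1 : ∀ t : ℝ, uu t ^ r * ∏ i, ee ((![-(y 0), y 1] : Fin 2 → ℂ) i) (uu t)
        = uu t ^ r * ee (y 1 - y 0) (uu t) := by
      intro t
      rw [Fin.prod_univ_two]
      simp only [Matrix.cons_val_zero, Matrix.cons_val_one]
      rw [ee_add]
      congr 2; ring
    simp only [e1] at m1
    refine m1.congr fun N => Finset.sum_congr rfl fun p _ => ?_
    simp only [Fin.prod_univ_two, Matrix.cons_val_zero, Matrix.cons_val_one]
    rw [CN_neg]
    ring

end Setup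

end

end QE


end

section

/-!
From the two-point limits of the jets to quantum ergodicity tested on differential operators.
-/

open Complex MeasureTheory Filter Topology Set
open scoped ContDiff

namespace QE

noncomputable section

variable {U : Set ℂ} {h : ℕ → ℝ} {a : ℂ → ℂ} {g : ℂ → ℂ} {φ : ℕ → ℂ → ℂ}


theorem Near.sum (hU : IsOpen U) {ι : Type} (s : Finset ι) {u v : ι → ℕ → ℂ → ℂ}
    (h1 : ∀ i ∈ s, Near U h (u i) (v i)) :
    Near U h (fun n z => ∑ i ∈ s, u i n z) (fun n z => ∑ i ∈ s, v i n z) := by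
  classical
  induction s using Finset.induction_on with
  | empty => simpa using Near.of_eq hU fun n z _ => rfl
  | insert i t hi ih =>
    simp only [Finset.sum_insert hi]
    exact (h1 i (Finset.mem_insert_self i t)).add hU
      (ih fun j hj => h1 j (Finset.mem_insert_of_mem hj))

lemma hD_one_eq (h : ℝ) (f : ℂ → ℂ) (z : ℂ) :
    hD h 1 f z = (1 / 2) * (-(2 * I * h) * dz f z + -(2 * I * h) * dzb f z) := by
  unfold hD dz dzb
  ring

lemma hD_I_eq (h : ℝ) (f : ℂ → ℂ) (z : ℂ) :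
    hD h I f z = (I / 2) * (-(2 * I * h) * dz f z - -(2 * I * h) * dzb f z) := by
  unfold hD dz dzb
  linear_combination (-I * h * fderiv ℝ f z I) * (I_mul_I)

/-- representation of a sequence by jets, up to tame errors, together with its symbol -/
structure Rep (U : Set ℂ) (h : ℕ → ℝ) (a : ℂ → ℂ) (φ : ℕ → ℂ → ℂ) (u : ℕ → ℂ → ℂ)
    (F : ℂ → ℝ → ℂ) : Prop where
  smooth : SmoothSeq U u
  rep : ∃ (ι : Type) (_ : Fintype ι) (b : ι → ℂ → ℂ) (d : ι → ℤ),
    (∀ i, ContDiffOn ℝ ∞ (b i) U) ∧ Near U h u (fun n z => ∑ i, b i z * E h a φ (d i) n z) ∧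
    ∀ z ∈ U, ∀ θ : ℝ, F z θ = ∑ i, b i z * Complex.exp (-(θ : ℂ) * I) ^ (d i)

namespace Setup

variable (S : Setup U g a h φ)

include S


lemma rep_zero : Rep U h a φ φ (fun _ _ => 1) := by
  refine ⟨S.tame.smooth, Unit, inferInstance, fun _ _ => 1, fun _ => 0, fun _ => contDiffOn_const,
    Near.of_eq S.op fun n z _ => ?_, fun z _ θ => ?_⟩
  · simp only [Finset.univ_unique, Finset.sum_singleton, one_mul]
    rfl
  · simp

lemma LL_bE {b : ℂ → ℂ} (hb : ContDiffOn ℝ ∞ b U) (m : ℤ) :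
    Near U h (QE.LL h a (fun n z => b z * E h a φ m n z)) (fun n z => b z * E h a φ (m + 1) n z) := by
  have h1 : Near U h (QE.LL h a (fun n z => b z * E h a φ m n z))
      (fun n z => b z * QE.LL h a (E h a φ m) n z) := by
    have hdb := contDiffOn_dz S.op hb
    refine ⟨fun n z => (-(2 * I) * (a z * dz b z)) * E h a φ m n z,
      (S.tame_E m).fn_mul S.op S.hlim (contDiffOn_const.mul (S.ha.mul hdb)), fun n z hz => ?_⟩
    unfold QE.LL
    beta_reduce
    rw [dz_mul ((hb.contDiffAt (S.op.mem_nhds hz)).differentiableAt (by simp))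
      ((S.tame_E m).smooth.dAt S.op n hz)]
    ring
  exact h1.trans S.op ((S.LL_E m).fn_mul S.op S.hlim hb)

lemma LLb_bE {b : ℂ → ℂ} (hb : ContDiffOn ℝ ∞ b U) (m : ℤ) :
    Near U h (QE.LLb h a (fun n z => b z * E h a φ m n z))
      (fun n z => b z * E h a φ (m - 1) n z) := by
  have h1 : Near U h (QE.LLb h a (fun n z => b z * E h a φ m n z))
      (fun n z => b z * QE.LLb h a (E h a φ m) n z) := by
    have hdb := contDiffOn_dzb S.op hb
    refine ⟨fun n z => (-(2 * I) * (a z * dzb b z)) * E h a φ m n z,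
      (S.tame_E m).fn_mul S.op S.hlim (contDiffOn_const.mul (S.ha.mul hdb)), fun n z hz => ?_⟩
    unfold QE.LLb
    beta_reduce
    rw [dzb_mul ((hb.contDiffAt (S.op.mem_nhds hz)).differentiableAt (by simp))
      ((S.tame_E m).smooth.dAt S.op n hz)]
    ring
  exact h1.trans S.op ((S.LLb_E m).fn_mul S.op S.hlim hb)

lemma LL_sumE {ι : Type} (s : Finset ι) {b : ι → ℂ → ℂ} (hb : ∀ i, ContDiffOn ℝ ∞ (b i) U)
    (d : ι → ℤ) : Near U h (QE.LL h a (fun n z => ∑ i ∈ s, b i z * E h a φ (d i) n z))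
      (fun n z => ∑ i ∈ s, b i z * E h a φ (d i + 1) n z) := by
  refine Near.trans S.op (Near.of_eq S.op fun n z hz => ?_)
    (Near.sum S.op s fun i _ => S.LL_bE (hb i) (d i))
  unfold QE.LL
  beta_reduce
  rw [← Finset.mul_sum]
  congr 1
  have hd : ∀ i ∈ s, DifferentiableAt ℝ (fun w => b i w * E h a φ (d i) n w) z := fun i _ =>
    (((hb i).contDiffAt (S.op.mem_nhds hz)).differentiableAt (by simp)).fun_mul
      ((S.tame_E (d i)).smooth.dAt S.op n hz)
  unfold dz
  rw [fderiv_fun_sum hd]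
  simp only [sum_apply]
  rw [← Finset.mul_sum, Finset.sum_sub_distrib, Finset.mul_sum]

lemma LLb_sumE {ι : Type} (s : Finset ι) {b : ι → ℂ → ℂ} (hb : ∀ i, ContDiffOn ℝ ∞ (b i) U)
    (d : ι → ℤ) : Near U h (QE.LLb h a (fun n z => ∑ i ∈ s, b i z * E h a φ (d i) n z))
      (fun n z => ∑ i ∈ s, b i z * E h a φ (d i - 1) n z) := by
  refine Near.trans S.op (Near.of_eq S.op fun n z hz => ?_)
    (Near.sum S.op s fun i _ => S.LLb_bE (hb i) (d i))
  unfold QE.LLb
  beta_reduce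
  rw [← Finset.mul_sum]
  congr 1
  have hd : ∀ i ∈ s, DifferentiableAt ℝ (fun w => b i w * E h a φ (d i) n w) z := fun i _ =>
    (((hb i).contDiffAt (S.op.mem_nhds hz)).differentiableAt (by simp)).fun_mul
      ((S.tame_E (d i)).smooth.dAt S.op n hz)
  unfold dzb
  rw [fderiv_fun_sum hd]
  simp only [sum_apply]
  rw [← Finset.mul_sum, Finset.sum_add_distrib, Finset.mul_sum]

/-- the inverse of the weight is smooth -/
lemma inv_smooth : ContDiffOn ℝ ∞ (fun z => (a z)⁻¹) U := S.ha.inv fun _ hz => S.a_ne hz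

/-- one step, for a combination `c₁ L + c₂ L̄` -/
lemma rep_step {u : ℕ → ℂ → ℂ} {F : ℂ → ℝ → ℂ} (hR : Rep U h a φ u F) (c₁ c₂ : ℂ)
    {u' : ℕ → ℂ → ℂ} (hu' : ∀ n, ∀ z ∈ U, u' n z
      = (a z)⁻¹ * (c₁ * QE.LL h a u n z + c₂ * QE.LLb h a u n z)) :
    Rep U h a φ u' (fun z θ => (a z)⁻¹ * (c₁ * Complex.exp (-(θ : ℂ) * I)
      + c₂ * (Complex.exp (-(θ : ℂ) * I))⁻¹) * F z θ) := by
  obtain ⟨hsm, ι, _, b, d, hb, hN, hF⟩ := hR
  have hsum : SmoothSeq U (fun n z => ∑ i, b i z * E h a φ (d i) n z) := fun n =>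
    ContDiffOn.sum fun i _ => (hb i).mul ((S.tame_E (d i)).smooth n)
  refine ⟨?_, ι × Bool, inferInstance,
    fun p z => (a z)⁻¹ * ((if p.2 then c₁ else c₂) * b p.1 z),
    fun p => if p.2 then d p.1 + 1 else d p.1 - 1, ?_, ?_, ?_⟩
  · intro n
    refine ContDiffOn.congr ?_ (hu' n)
    exact S.inv_smooth.mul ((contDiffOn_const.mul (hsm.LL S.op S.ha n)).add
      (contDiffOn_const.mul (hsm.LLb S.op S.ha n)))
  · rintro ⟨i, b'⟩
    exact S.inv_smooth.mul (contDiffOn_const.mul (hb i))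
  · have h1 : Near U h u' (fun n z => (a z)⁻¹ * (c₁ * QE.LL h a u n z + c₂ * QE.LLb h a u n z)) :=
      Near.of_eq S.op hu'
    have h2 : Near U h (QE.LL h a u) (fun n z => ∑ i, b i z * E h a φ (d i + 1) n z) :=
      (hN.LL S.op S.hlim S.ha hsum).trans S.op (S.LL_sumE Finset.univ hb d)
    have h3 : Near U h (QE.LLb h a u) (fun n z => ∑ i, b i z * E h a φ (d i - 1) n z) :=
      (hN.LLb S.op S.hlim S.ha hsum).trans S.op (S.LLb_sumE Finset.univ hb d)
    have h4 := ((h2.smul S.op c₁).add S.op (h3.smul S.op c₂)).fn_mul S.op S.hlim S.inv_smooth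
    refine (h1.trans S.op h4).trans S.op (Near.of_eq S.op fun n z _ => ?_)
    rw [Fintype.sum_prod_type]
    simp only [Fintype.sum_bool, if_true, Bool.false_eq_true, if_false]
    rw [Finset.mul_sum, Finset.mul_sum, ← Finset.sum_add_distrib, Finset.mul_sum]
    exact Finset.sum_congr rfl fun i _ => by ring
  · intro z hz θ
    rw [Fintype.sum_prod_type]
    simp only [Fintype.sum_bool, if_true, Bool.false_eq_true, if_false]
    rw [hF z hz θ, Finset.mul_sum]
    refine Finset.sum_congr rfl fun i _ => ?_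
    rw [zpow_add_one₀ (Complex.exp_ne_zero _), zpow_sub_one₀ (Complex.exp_ne_zero _)]
    ring

/-- the monomials -/
lemma rep_mono {r : ℂ → ℝ} (hr : ∀ z ∈ U, (a z)⁻¹ = (r z : ℂ)) (j k : ℕ) :
    Rep U h a φ (fun n => (hD (h n) 1)^[j] ((hD (h n) I)^[k] (φ n)))
      (fun z θ => (((r z * Real.cos θ) ^ j * (r z * Real.sin θ) ^ k : ℝ) : ℂ)) := by
  have hx : ∀ θ : ℝ, (1 / 2 : ℂ) * Complex.exp (-(θ : ℂ) * I)
      + (1 / 2) * (Complex.exp (-(θ : ℂ) * I))⁻¹ = (Real.cos θ : ℂ) := by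
    intro θ
    rw [← Complex.exp_neg, neg_mul, neg_neg, Complex.ofReal_cos, Complex.cos, neg_mul]
    ring
  have hy : ∀ θ : ℝ, (I / 2 : ℂ) * Complex.exp (-(θ : ℂ) * I)
      + (-(I / 2)) * (Complex.exp (-(θ : ℂ) * I))⁻¹ = (Real.sin θ : ℂ) := by
    intro θ
    rw [← Complex.exp_neg, neg_mul, neg_neg, Complex.ofReal_sin, Complex.sin, neg_mul]
    ring
  induction j with
  | zero =>
    induction k with
    | zero =>
      have h0 := S.rep_zero
      simpa using h0
    | succ k ih =>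
      have h1 := S.rep_step ih (I / 2) (-(I / 2))
        (u' := fun n => (hD (h n) 1)^[0] ((hD (h n) I)^[k + 1] (φ n))) (fun n z hz => by
          simp only [Function.iterate_zero, id_eq]
          rw [Function.iterate_succ_apply', hD_I_eq]
          unfold QE.LL QE.LLb
          field_simp [S.a_ne hz]
          ring)
      refine ⟨h1.smooth, ?_⟩
      obtain ⟨ι, i1, b, d, hb, hN, hF⟩ := h1.rep
      refine ⟨ι, i1, b, d, hb, hN, fun z hz θ => ?_⟩
      rw [← hF z hz θ, hy, hr z hz]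
      push_cast
      ring
  | succ j ih =>
    have h1 := S.rep_step ih (1 / 2) (1 / 2)
      (u' := fun n => (hD (h n) 1)^[j + 1] ((hD (h n) I)^[k] (φ n))) (fun n z hz => by
        rw [Function.iterate_succ_apply', hD_one_eq]
        unfold QE.LL QE.LLb
        field_simp [S.a_ne hz])
    refine ⟨h1.smooth, ?_⟩
    obtain ⟨ι, i1, b, d, hb, hN, hF⟩ := h1.rep
    refine ⟨ι, i1, b, d, hb, hN, fun z hz θ => ?_⟩
    rw [← hF z hz θ, hx, hr z hz]
    push_cast
    ring

/-- the limits of the matrix elements -/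
lemma rep_lim (htwo : ∀ (j m : ℤ) (η : ℂ → ℂ), Test U η →
      Tendsto (fun n => ∫ z, η z * (E h a φ j n z * E h a φ m n z)) atTop
      (𝓝 (P j m * ∫ z, η z))) {u : ℕ → ℂ → ℂ} {F : ℂ → ℝ → ℂ} (hR : Rep U h a φ u F)
    {ζ : ℂ → ℂ} (hζ : Test U ζ) :
    Tendsto (fun n => ∫ z, ζ z * (u n z * φ n z)) atTop
      (𝓝 (∫ z, ζ z * ((1 / (2 * Real.pi) : ℂ) * ∫ θ in (0 : ℝ)..(2 * Real.pi), F z θ))) := by
  obtain ⟨hsm, ι, _, b, d, hb, ⟨w, hw, hw'⟩, hF⟩ := hR
  have hbζ : ∀ i, Test U (fun z => ζ z * b i z) := fun i => hζ.mul S.op (hb i)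
  have h1 : ∀ i, Tendsto (fun n => ∫ z, (ζ z * b i z) * (E h a φ (d i) n z * E h a φ 0 n z)) atTop
      (𝓝 (P (d i) 0 * ∫ z, ζ z * b i z)) := fun i => htwo (d i) 0 _ (hbζ i)
  have h2 := tendsto_finset_sum Finset.univ fun i _ => h1 i
  have h3 := tendsto_h_int S.hlim hw S.tame hζ
  have h4 := h2.add h3
  rw [add_zero] at h4
  have e1 : ∫ z, ζ z * ((1 / (2 * Real.pi) : ℂ) * ∫ θ in (0 : ℝ)..(2 * Real.pi), F z θ)
      = ∑ i, P (d i) 0 * ∫ z, ζ z * b i z := by
    have e2 : ∀ z ∈ U, (1 / (2 * Real.pi) : ℂ) * ∫ θ in (0 : ℝ)..(2 * Real.pi), F z θ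
        = ∑ i, P (d i) 0 * b i z := by
      intro z hz
      have e3 : ∀ k : ℤ, (1 / (2 * Real.pi) : ℂ)
          * ∫ θ in (0 : ℝ)..(2 * Real.pi), Complex.exp (-(θ : ℂ) * I) ^ k = P k 0 := by
        intro k
        unfold P
        rw [add_zero]
        by_cases hk : k = 0
        · subst hk
          simp only [zpow_zero, if_true]
          rw [intervalIntegral.integral_const]
          simp
          field_simp
        · rw [if_neg hk]
          have e4 : ∀ θ : ℝ, Complex.exp (-(θ : ℂ) * I) ^ k = Complex.exp ((-(k : ℂ) * I) * θ) := by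
            intro θ
            rw [← Complex.exp_int_mul]
            congr 1; ring
          simp only [e4]
          rw [integral_exp_mul_complex (by simp [Complex.ext_iff]; exact hk)]
          have h5 : Complex.exp (-(k : ℂ) * I * ((2 * Real.pi : ℝ) : ℂ)) = 1 := by
            rw [Complex.exp_eq_one_iff]
            exact ⟨-k, by push_cast; ring⟩
          rw [h5]
          simp
      have e5 : ∫ θ in (0 : ℝ)..(2 * Real.pi), F z θ
          = ∑ i, b i z * ∫ θ in (0 : ℝ)..(2 * Real.pi), Complex.exp (-(θ : ℂ) * I) ^ (d i) := by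
        simp only [hF z hz]
        rw [intervalIntegral.integral_finsetSum]
        · exact Finset.sum_congr rfl fun i _ => intervalIntegral.integral_const_mul _ _
        · intro i _
          apply Continuous.intervalIntegrable
          refine continuous_const.mul (Continuous.zpow₀ (by fun_prop) _ fun θ => Or.inl
            (Complex.exp_ne_zero _))
      rw [e5, Finset.mul_sum]
      refine Finset.sum_congr rfl fun i _ => ?_
      rw [← e3 (d i)]; ring
    have e6 := hζ.integral_congr e2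
    rw [e6]
    simp only [Finset.mul_sum]
    rw [integral_finset_sum]
    · refine Finset.sum_congr rfl fun i _ => ?_
      rw [← integral_const_mul]
      congr 1; funext z; ring
    · intro i _
      have hi : Integrable (fun z => ζ z * b i z) := hζ.integrable_mul S.op (hb i).continuousOn
      refine (hi.const_mul (P (d i) 0)).congr (Eventually.of_forall fun z => ?_)
      beta_reduce; ring
  rw [e1]
  refine h4.congr fun n => ?_
  have hi1 : ∀ i, Integrable (fun z => (ζ z * b i z) * (E h a φ (d i) n z * E h a φ 0 n z)) :=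
    fun i => (hbζ i).integrable_mul S.op (((S.tame_E (d i)).smooth n).continuousOn.mul
      ((S.tame_E 0).smooth n).continuousOn)
  have hi2 : Integrable (fun z => ζ z * (w n z * φ n z)) :=
    hζ.integrable_mul S.op ((hw.smooth n).continuousOn.mul (S.tame.smooth n).continuousOn)
  rw [hζ.integral_congr (f := fun z => u n z * φ n z) (f' := fun z =>
    (∑ i, b i z * E h a φ (d i) n z + (h n : ℂ) * w n z) * φ n z) (fun z hz => by
      rw [hw' n z hz])]
  rw [← integral_finset_sum _ fun i _ => hi1 i]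
  have e7 : (h n : ℂ) * ∫ z, ζ z * (w n z * φ n z) = ∫ z, (h n : ℂ) * (ζ z * (w n z * φ n z)) :=
    (integral_const_mul _ _).symm
  rw [e7, ← integral_add (integrable_finset_sum _ fun i _ => hi1 i) (hi2.const_mul _)]
  refine integral_congr_ae (Eventually.of_forall fun z => ?_)
  have e8 : E h a φ 0 n z = φ n z := rfl
  simp only [e8]
  rw [add_mul, Finset.sum_mul, mul_add, Finset.mul_sum]
  congr 1
  · exact Finset.sum_congr rfl fun i _ => by ring
  · ring

end Setup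

end

end QE


end

section

/-!
The setting for arbitrary sequences of eigenfunctions with bounded fourth moments.
-/

open MeasureTheory Filter Topology Set MatrixGroups UpperHalfPlane
open scoped ContDiff

namespace QE

noncomputable section

/-- sequences bounded in `L⁴` -/
theorem setup_of_eig {U : Set ℂ} {h : ℕ → ℝ} {φ : ℕ → ℂ → ℂ} {g₀ : ℂ → ℝ} (hU : IsOpen U)
    (hg : ContDiffOn ℝ ∞ g₀ U) (hgpos : ∀ z ∈ U, 0 < g₀ z) (hpos : ∀ n, 0 < h n)
    (hlim : Tendsto h atTop (𝓝 0)) (hsm : SmoothSeq U φ)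
    (hreal : ∀ n, ∀ z ∈ U, (starRingEnd ℂ) (φ n z) = φ n z)
    (heig : ∀ n, ∀ z ∈ U, 4 * (h n : ℂ) ^ 2 * dz (dzb (φ n)) z = - ((g₀ z : ℝ) : ℂ) * φ n z)
    (hb : LBdd 4 U φ) : Setup U (fun z => (g₀ z : ℂ)) (wt g₀) h φ := by
  have hgC : ContDiffOn ℝ ∞ (fun z => (g₀ z : ℂ)) U := Complex.ofRealCLM.contDiff.comp_contDiffOn hg
  refine ⟨hU, hpos, hlim, ?_, hgC, fun z _ => Complex.conj_ofReal _, ?_, ?_, hreal, heig⟩
  · have h1 : ContDiffOn ℝ ∞ (fun z => (Real.sqrt (g₀ z))⁻¹) U :=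
      (hg.sqrt fun z hz => (hgpos z hz).ne').inv fun z hz => (Real.sqrt_pos.2 (hgpos z hz)).ne'
    exact Complex.ofRealCLM.contDiff.comp_contDiffOn h1
  · intro z hz
    have h0 := hgpos z hz
    have h1 : (Real.sqrt (g₀ z)) ^ 2 = g₀ z := Real.sq_sqrt h0.le
    have h2 : (Real.sqrt (g₀ z))⁻¹ ^ 2 * g₀ z = 1 := by
      rw [inv_pow, h1, inv_mul_cancel₀ h0.ne']
    unfold wt
    exact_mod_cast h2
  · refine tame_of_eigen hU hlim (ellProp hU hpos hlim) hsm hb
      (b := fun z => -(1 / 4) * (g₀ z : ℂ)) (contDiffOn_const.mul hgC) fun n z hz => ?_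
    have := heig n z hz
    unfold hLap
    linear_combination (1 / 4) * this

variable {Γ : Subgroup SL(2, ℝ)} {ρ : ℍ → ℝ} {D : Set ℍ}

/-- the equation in the chart -/
lemma eig_chart {φ : ℕ → ℍ → ℝ} {m : ℕ → ℝ} (hφ : Berry.REigenSeq Γ ρ φ m) {n : ℕ}
    (hm : 0 < m n) : ∀ z ∈ HH, 4 * ((1 / m n : ℝ) : ℂ) ^ 2 *
      dz (dzb (fun w : ℂ => (φ n (ofComplex w) : ℂ))) z
      = - ((gw ρ z : ℝ) : ℂ) * (φ n (ofComplex z) : ℂ) := by
  intro z hz
  have hz' : 0 < z.im := hz
  have hm0 : m n ≠ 0 := hm.ne'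
  have hcd : ContDiffAt ℝ 2 (fun w : ℂ => φ n (ofComplex w)) z :=
    (hφ.smooth _).contDiffAt (isOpen_HH.mem_nhds hz)
  have h4 := four_dz_dzb hcd
  have he := hφ.eigen n ⟨z, hz'⟩
  have hoc : ofComplex z = ⟨z, hz'⟩ := ofComplex_apply_of_im_pos hz'
  have hre : (z.im : ℝ) ^ 2 * (Laplacian.laplacian (fun w : ℂ => φ n (ofComplex w)) z)
      = - (m n ^ 2 * Real.exp (2 * ρ (ofComplex z)) * φ n (ofComplex z)) := by
    rw [hoc]; exact he
  have hrc : ((z.im : ℝ) : ℂ) ^ 2 * ((Laplacian.laplacian (fun w : ℂ =>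
      φ n (ofComplex w)) z : ℝ) : ℂ) = - ((m n : ℂ) ^ 2 *
        (Real.exp (2 * ρ (ofComplex z)) : ℂ) * (φ n (ofComplex z) : ℂ)) := by
    exact_mod_cast congrArg (fun x : ℝ => (x : ℂ)) hre
  rw [← h4] at hrc
  have him : ((z.im : ℝ) : ℂ) ≠ 0 := by exact_mod_cast hz'.ne'
  have hmc : (m n : ℂ) ≠ 0 := by exact_mod_cast hm0
  unfold gw
  push_cast
  push_cast at hrc
  field_simp
  linear_combination hrc

/-- the setting for sequences of eigenfunctions with bounded fourth moments -/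
theorem ws_gen [Countable Γ] (hDm : MeasurableSet D)
    (hD : IsFundamentalDomain Γ D (volume : Measure ℍ))
    (hK : ∃ K : Set ℍ, IsCompact K ∧ ∀ z, ∃ γ ∈ Γ, γ • z ∈ K)
    (hρ : ContDiffOn ℝ ∞ (fun w : ℂ => ρ (ofComplex w)) {w | 0 < w.im})
    (hρΓ : ∀ γ ∈ Γ, ∀ z, ρ (γ • z) = ρ z)
    {φ : ℕ → ℍ → ℝ} {m : ℕ → ℝ} (hφ : Berry.REigenSeq Γ ρ φ m)
    (hs : ∀ n, ContDiffOn ℝ ∞ (fun w : ℂ => φ n (ofComplex w)) {w | 0 < w.im}) {C : ℝ}
    (hb : ∀ᶠ n in atTop, Berry.rAvg ρ D (fun z => φ n z ^ 4) ≤ C) :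
    ∃ N, WS Γ ρ D (fun n => φ (n + N)) (fun n => m (n + N)) (fun n => 1 / m (n + N))
        (fun z => ((gw ρ z : ℝ) : ℂ)) := by
  obtain ⟨N, hN⟩ := (hφ.tendsto.eventually_ge_atTop 1).exists_forall_of_atTop
  have hm1 : ∀ n, 1 ≤ m (n + N) := fun n => hN _ (Nat.le_add_left _ _)
  have hpos : ∀ n, 0 < m (n + N) := fun n => lt_of_lt_of_le one_pos (hm1 n)
  have hshift : Tendsto (fun n : ℕ => n + N) atTop atTop := tendsto_add_atTop_nat N
  have hρc := continuous_of_smooth hρ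
  have hgeo : Berry.Geo Γ ρ D := ⟨hD, hDm, Berry.finite_of_cocompact hD hK, hρΓ,
    Berry.bdd_of_cocompact hρc hρΓ hK, Berry.unif_of_cocompact hρc hρΓ hK⟩
  have hpc : ∀ n, Continuous (φ n) := fun n => continuous_of_smooth (hs n)
  have hL : LBdd 4 HH (fun n z => (φ (n + N) (ofComplex z) : ℂ)) := by
    intro K' hK' hK'U
    obtain ⟨c, hc0, hc⟩ := loc_le hgeo hρc hK hK' hK'U
    refine ⟨c * C, ?_⟩
    filter_upwards [hshift.eventually hb] with n hn
    have h4 : ∀ z : ℂ, ‖(φ (n + N) (ofComplex z) : ℂ)‖ ^ 4 = φ (n + N) (ofComplex z) ^ 4 :=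
      fun z => by
        rw [Complex.norm_real, Real.norm_eq_abs]
        exact Even.pow_abs ⟨2, rfl⟩ _
    simp only [h4]
    exact (hc (fun z => φ (n + N) z ^ 4) ((hpc _).pow 4) (fun z => by positivity)
      (fun γ hγ z => by rw [hφ.invariant _ γ hγ z])).trans (by gcongr)
  have hgp : ∀ z ∈ HH, 0 < gw ρ z := fun z hz => by
    have : 0 < z.im := hz
    unfold gw
    positivity
  have hh : Tendsto (fun n => 1 / m (n + N)) atTop (𝓝 0) := by
    have h1 : Tendsto (fun n => m (n + N)) atTop atTop := hφ.tendsto.comp hshift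
    simpa [one_div, Function.comp_def] using tendsto_inv_atTop_zero.comp h1
  have S := setup_of_eig isOpen_HH (smooth_weight hρ) hgp (h := fun n => 1 / m (n + N))
    (φ := fun n z => (φ (n + N) (ofComplex z) : ℂ))
    (fun n => one_div_pos.2 (hpos n)) hh
    (fun n => Complex.ofRealCLM.contDiff.comp_contDiffOn (hs _))
    (fun n z _ => Complex.conj_ofReal _) (fun n z hz => eig_chart hφ (hpos n) z hz) hL
  exact ⟨N, ⟨hgeo, hK, hρc, fun n => hpc _, fun n => hφ.invariant _, hpos,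
    hφ.tendsto.comp hshift, fun n => rfl, S⟩⟩

end

end QE


end

section

/-!
Gaussian correlations up to order four imply quantum ergodicity: averages of products of values of
the local wave.
-/

open MeasureTheory Filter Topology Set MatrixGroups UpperHalfPlane
open scoped ContDiff

namespace QE

noncomputable section

variable {Γ : Subgroup SL(2, ℝ)} {ρ : ℍ → ℝ} {D : Set ℍ}

/-- the average of the products of two values of the local wave, minus a constant -/
def Bf (ρ : ℍ → ℝ) (φ : ℍ → ℝ) (m : ℝ) {M : ℕ} (x : Fin M → Fin 2 → ℂ) (κ : ℝ) (p : ℍ × ℝ) : ℝ :=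
  (M : ℝ)⁻¹ * ∑ i, Berry.rWave ρ φ m (x i 0) p * Berry.rWave ρ φ m (x i 1) p - κ

/-- four points from two pairs -/
def quad (y w : Fin 2 → ℂ) : Fin 4 → ℂ := ![y 0, y 1, w 0, w 1]

lemma Bf_sq (φ : ℍ → ℝ) (m : ℝ) {M : ℕ} (x : Fin M → Fin 2 → ℂ) (κ : ℝ) (p : ℍ × ℝ) :
    Bf ρ φ m x κ p ^ 2 = (M : ℝ)⁻¹ ^ 2 * ∑ i, ∑ j, ∏ l, Berry.rWave ρ φ m (quad (x i) (x j) l) p
      - 2 * κ * (M : ℝ)⁻¹ * ∑ i, ∏ l, Berry.rWave ρ φ m (x i l) p + κ ^ 2 := by
  have e1 : ∑ i, ∑ j, ∏ l, Berry.rWave ρ φ m (quad (x i) (x j) l) p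
      = (∑ i, Berry.rWave ρ φ m (x i 0) p * Berry.rWave ρ φ m (x i 1) p) ^ 2 := by
    rw [sq, Finset.sum_mul_sum]
    refine Finset.sum_congr rfl fun i _ => Finset.sum_congr rfl fun j _ => ?_
    rw [Fin.prod_univ_four]
    show Berry.rWave ρ φ m (x i 0) p * Berry.rWave ρ φ m (x i 1) p * Berry.rWave ρ φ m (x j 0) p
      * Berry.rWave ρ φ m (x j 1) p = _
    ring
  have e2 : ∑ i, ∏ l, Berry.rWave ρ φ m (x i l) p
      = ∑ i, Berry.rWave ρ φ m (x i 0) p * Berry.rWave ρ φ m (x i 1) p :=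
    Finset.sum_congr rfl fun i _ => Fin.prod_univ_two _
  rw [e1, e2]
  unfold Bf
  ring

/-- the average over the angle of the square -/
def Gf (ρ : ℍ → ℝ) (φ : ℍ → ℝ) (m : ℝ) {M : ℕ} (x : Fin M → Fin 2 → ℂ) (κ : ℝ) (z : ℍ) : ℝ :=
  ∫ θ, Bf ρ φ m x κ (z, θ) ^ 2 ∂ang

variable {φ : ℕ → ℍ → ℝ} {m h : ℕ → ℝ} {g' : ℂ → ℂ}

namespace WS

lemma wcp (W : WS Γ ρ D φ m h g') {M : ℕ} (x : Fin M → Fin 2 → ℂ) :
    ∀ᶠ n in atTop, ∀ i l, Continuous (Berry.rWave ρ (φ n) (m n) (x i l)) :=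
  eventually_all.2 fun i => W.wc (x i)

lemma Bf_cont (W : WS Γ ρ D φ m h g') {M : ℕ} (x : Fin M → Fin 2 → ℂ) (κ : ℝ) :
    ∀ᶠ n in atTop, Continuous (Bf ρ (φ n) (m n) x κ) := by
  filter_upwards [W.wcp x] with n hn
  exact (continuous_const.mul (continuous_finset_sum _ fun i _ => (hn i 0).mul (hn i 1))).sub
    continuous_const

lemma wbdd (W : WS Γ ρ D φ m h g') (n : ℕ) : ∃ C : ℝ, 0 ≤ C ∧ ∀ x p,
    |Berry.rWave ρ (φ n) (m n) x p| ≤ C := by
  obtain ⟨C, hC⟩ := Berry.bdd_of_cocompact (W.pc n) (W.pinv n) W.coc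
  exact ⟨C, (abs_nonneg _).trans (hC UpperHalfPlane.I), fun x p => hC _⟩

lemma Bf_bdd (W : WS Γ ρ D φ m h g') {M : ℕ} (x : Fin M → Fin 2 → ℂ) (κ : ℝ) (n : ℕ) :
    ∃ C : ℝ, 0 ≤ C ∧ ∀ p, |Bf ρ (φ n) (m n) x κ p| ≤ C := by
  obtain ⟨C, hC0, hC⟩ := W.wbdd n
  refine ⟨(M : ℝ)⁻¹ * ∑ _i : Fin M, C * C + |κ|, by (clear * - hC0; positivity), fun p => ?_⟩
  unfold Bf
  refine (abs_sub _ _).trans (add_le_add ?_ le_rfl)
  rw [abs_mul, abs_of_nonneg (by positivity : (0 : ℝ) ≤ (M : ℝ)⁻¹)]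
  refine mul_le_mul_of_nonneg_left ?_ (by positivity)
  refine (Finset.abs_sum_le_sum_abs _ _).trans (Finset.sum_le_sum fun i _ => ?_)
  rw [abs_mul]
  exact mul_le_mul (hC _ _) (hC _ _) (abs_nonneg _) hC0

lemma Gf_cont (W : WS Γ ρ D φ m h g') {M : ℕ} (x : Fin M → Fin 2 → ℂ) (κ : ℝ) :
    ∀ᶠ n in atTop, Continuous (Gf ρ (φ n) (m n) x κ) := by
  filter_upwards [W.Bf_cont x κ] with n hn
  unfold Gf
  simp only [ang_int, smul_eq_mul]
  refine continuous_const.mul ?_
  refine intervalIntegral.continuous_parametric_intervalIntegral_of_continuous' ?_ _ _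
  exact hn.pow 2

lemma Gf_inv (W : WS Γ ρ D φ m h g') {M : ℕ} (x : Fin M → Fin 2 → ℂ) (κ : ℝ) (n : ℕ) :
    ∀ γ ∈ Γ, ∀ z, Gf ρ (φ n) (m n) x κ (γ • z) = Gf ρ (φ n) (m n) x κ z := by
  intro γ hγ z
  unfold Gf
  obtain ⟨α, hα⟩ := Berry.mul_frame γ z
  have hper : Function.Periodic (fun θ => Bf ρ (φ n) (m n) x κ (γ • z, θ) ^ 2)
      (2 * Real.pi) := by
    intro θ
    unfold Bf Berry.rWave
    simp only [Berry.frame_periodic]
  rw [← ang_shift hper α]
  congr 1; funext θ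
  have hw : ∀ y : ℂ, Berry.rWave ρ (φ n) (m n) y (γ • z, α + θ)
      = Berry.rWave ρ (φ n) (m n) y (z, θ) := by
    intro y
    unfold Berry.rWave
    simp only
    rw [← hα θ, mul_smul, W.pinv n γ hγ, W.geo.inv γ hγ]
  unfold Bf
  simp only [hw]

lemma Gf_nonneg (φ : ℍ → ℝ) (m : ℝ) {M : ℕ} (x : Fin M → Fin 2 → ℂ) (κ : ℝ) (z : ℍ) :
    0 ≤ Gf ρ φ m x κ z := integral_nonneg fun _ => sq_nonneg _

lemma cond_prob [Countable Γ] (W : WS Γ ρ D φ m h g') :
    IsProbabilityMeasure (ProbabilityTheory.cond (Berry.area ρ) D) :=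
  ProbabilityTheory.cond_isProbabilityMeasure_of_finite (Berry.area_ne_zero W.geo)
    (Berry.area_ne_top W.geo)

lemma int_frame [Countable Γ] {f : ℍ × ℝ → ℝ} (W : WS Γ ρ D φ m h g') (hf : Continuous f) {C : ℝ}
    (hC : ∀ p, |f p| ≤ C) : Integrable f (Berry.rFrameProb ρ D) := by
  have hcond := W.cond_prob
  unfold Berry.rFrameProb
  change Integrable f ((ProbabilityTheory.cond (Berry.area ρ) D).prod ang)
  exact Integrable.of_bound hf.aestronglyMeasurable C (Eventually.of_forall fun p => by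
    rw [Real.norm_eq_abs]; exact hC p)

lemma Gf_avg [Countable Γ] (W : WS Γ ρ D φ m h g') {M : ℕ} (x : Fin M → Fin 2 → ℂ) (κ : ℝ) :
    ∀ᶠ n in atTop, Berry.rAvg ρ D (Gf ρ (φ n) (m n) x κ)
      = ∫ p, Bf ρ (φ n) (m n) x κ p ^ 2 ∂(Berry.rFrameProb ρ D) := by
  filter_upwards [W.Bf_cont x κ] with n hn
  have hcond := W.cond_prob
  obtain ⟨C, hC0, hC⟩ := W.Bf_bdd x κ n
  have i1 : Integrable (fun p => Bf ρ (φ n) (m n) x κ p ^ 2) (Berry.rFrameProb ρ D) :=
    W.int_frame (hn.pow 2) (C := C ^ 2) fun p => by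
      rw [abs_pow]; exact pow_le_pow_left₀ (abs_nonneg _) (hC p) 2
  unfold Berry.rFrameProb at i1 ⊢
  rw [integral_prod _ i1]
  rfl

/-- **The mean squares.** -/
theorem Bf_lim [Countable Γ] (W : WS Γ ρ D φ m h g')
    (H2 : ∀ y : Fin 2 → ℂ, Tendsto (fun n => ∫ p, ∏ l, Berry.rWave ρ (φ n) (m n) (y l) p
      ∂(Berry.rFrameProb ρ D)) atTop (𝓝 (Berry.waveK (y 0 - y 1))))
    (H4 : ∀ y : Fin 4 → ℂ, Tendsto (fun n => ∫ p, ∏ l, Berry.rWave ρ (φ n) (m n) (y l) p
      ∂(Berry.rFrameProb ρ D)) atTop (𝓝 (wick y))) {M : ℕ} (x : Fin M → Fin 2 → ℂ) (κ : ℝ) :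
    Tendsto (fun n => ∫ p, Bf ρ (φ n) (m n) x κ p ^ 2 ∂(Berry.rFrameProb ρ D)) atTop
      (𝓝 ((M : ℝ)⁻¹ ^ 2 * ∑ i, ∑ j, wick (quad (x i) (x j))
        - 2 * κ * (M : ℝ)⁻¹ * ∑ i, Berry.waveK (x i 0 - x i 1) + κ ^ 2)) := by
  have h1 := ((tendsto_finset_sum Finset.univ fun i _ => tendsto_finset_sum Finset.univ
    fun j _ => H4 (quad (x i) (x j))).const_mul ((M : ℝ)⁻¹ ^ 2)).sub
    ((tendsto_finset_sum Finset.univ fun i _ => H2 (x i)).const_mul (2 * κ * (M : ℝ)⁻¹))
  have h2 := h1.add_const (κ ^ 2)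
  refine h2.congr' ?_
  filter_upwards [W.wcp x] with n hn
  have hcond := W.cond_prob
  have hprob : IsProbabilityMeasure (Berry.rFrameProb ρ D) := by
    change IsProbabilityMeasure ((ProbabilityTheory.cond (Berry.area ρ) D).prod ang)
    infer_instance
  obtain ⟨C, hC0, hC⟩ := W.wbdd n
  have hw : ∀ {k : ℕ} (y : Fin k → ℂ), (∀ l, Continuous (Berry.rWave ρ (φ n) (m n) (y l))) →
      Integrable (fun p => ∏ l, Berry.rWave ρ (φ n) (m n) (y l) p) (Berry.rFrameProb ρ D) := by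
    intro k y hy
    refine W.int_frame (continuous_finset_prod _ fun i _ => hy i) (C := ∏ _i : Fin k, C) fun p => ?_
    rw [Finset.abs_prod]
    exact Finset.prod_le_prod (fun _ _ => abs_nonneg _) fun i _ => hC _ _
  have i4 : ∀ i j, Integrable (fun p => ∏ l, Berry.rWave ρ (φ n) (m n) (quad (x i) (x j) l) p)
      (Berry.rFrameProb ρ D) := fun i j => hw _ fun l => by
    fin_cases l
    · exact hn i 0
    · exact hn i 1
    · exact hn j 0
    · exact hn j 1
  have i2 : ∀ i, Integrable (fun p => ∏ l, Berry.rWave ρ (φ n) (m n) (x i l) p)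
      (Berry.rFrameProb ρ D) := fun i => hw _ fun l => hn i l
  simp only [Bf_sq]
  have j4 : Integrable (fun p => (M : ℝ)⁻¹ ^ 2 * ∑ i, ∑ j,
      ∏ l, Berry.rWave ρ (φ n) (m n) (quad (x i) (x j) l) p) (Berry.rFrameProb ρ D) :=
    (integrable_finset_sum _ fun i _ => integrable_finset_sum _ fun j _ => i4 i j).const_mul _
  have j2 : Integrable (fun p => 2 * κ * (M : ℝ)⁻¹ * ∑ i,
      ∏ l, Berry.rWave ρ (φ n) (m n) (x i l) p) (Berry.rFrameProb ρ D) :=
    (integrable_finset_sum _ fun i _ => i2 i).const_mul _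
  have j3 : Integrable (fun p => (M : ℝ)⁻¹ ^ 2 * ∑ i, ∑ j,
      ∏ l, Berry.rWave ρ (φ n) (m n) (quad (x i) (x j) l) p - 2 * κ * (M : ℝ)⁻¹ * ∑ i,
      ∏ l, Berry.rWave ρ (φ n) (m n) (x i l) p) (Berry.rFrameProb ρ D) := j4.sub j2
  rw [integral_add j3 (integrable_const _), integral_sub j4 j2, integral_const_mul,
    integral_const_mul, integral_finset_sum _ fun i _ => integrable_finset_sum _ fun j _ => i4 i j,
    integral_finset_sum _ fun i _ => i2 i, integral_const, probReal_univ, one_smul]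
  congr 2
  congr 1
  refine Finset.sum_congr rfl fun i _ => ?_
  rw [integral_finset_sum _ fun j _ => i4 i j]

end WS

/-- the points of the averages -/
def pts (M : ℕ) (T : ℝ) (a : ℂ) : Fin M → Fin 2 → ℂ :=
  fun i => ![((i : ℕ) : ℂ) * T, ((i : ℕ) : ℂ) * T + a]

/-- the mean squares can be made small -/
lemma pts_small (a : ℂ) {ε : ℝ} (hε : 0 < ε) : ∃ (M : ℕ) (T : ℝ), 0 < M ∧
    (M : ℝ)⁻¹ ^ 2 * ∑ i, ∑ j, wick (quad (pts M T a i) (pts M T a j))
        - 2 * Berry.waveK a * (M : ℝ)⁻¹ * ∑ i, Berry.waveK (pts M T a i 0 - pts M T a i 1)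
        + Berry.waveK a ^ 2 < ε := by
  obtain ⟨N, hN⟩ := Berry.waveK_vanishes (min (ε / 4) 1) (by positivity)
  obtain ⟨M, hM⟩ := exists_nat_gt (4 / ε)
  have hM0 : (0 : ℝ) < M := lt_trans (by positivity) hM
  set T : ℝ := |N| + ‖a‖ with hT
  refine ⟨M, T, by exact_mod_cast hM0, ?_⟩
  have hk : ∀ i, Berry.waveK (pts M T a i 0 - pts M T a i 1) = Berry.waveK a := by
    intro i
    have : pts M T a i 0 - pts M T a i 1 = -a := by
      show ((i : ℕ) : ℂ) * T - (((i : ℕ) : ℂ) * T + a) = -a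
      ring
    rw [this, Berry.waveK_neg]
  have hT0 : 0 ≤ T := by positivity
  have hoff : ∀ i j : Fin M, i ≠ j → T ≤ ‖((i : ℕ) : ℂ) * T - ((j : ℕ) : ℂ) * T‖ := by
    intro i j hij
    rw [← sub_mul, norm_mul, Complex.norm_real, Real.norm_of_nonneg hT0]
    have h1 : (1 : ℝ) ≤ ‖((i : ℕ) : ℂ) - ((j : ℕ) : ℂ)‖ := by
      have h2 : ((i : ℕ) : ℂ) - ((j : ℕ) : ℂ) = (((i : ℕ) : ℤ) - ((j : ℕ) : ℤ) : ℤ) := by
        push_cast; ring
      rw [h2, Complex.norm_intCast]
      have h3 : (((i : ℕ) : ℤ) - ((j : ℕ) : ℤ)) ≠ 0 := by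
        intro h0
        exact hij (Fin.ext (by omega))
      exact_mod_cast Int.one_le_abs h3
    nlinarith
  have hw : ∀ i j : Fin M, wick (quad (pts M T a i) (pts M T a j)) ≤ Berry.waveK a ^ 2
      + (if i = j then 2 else ε / 2) := by
    intro i j
    have e1 : wick (quad (pts M T a i) (pts M T a j)) = Berry.waveK a ^ 2
        + (Berry.waveK (((i : ℕ) : ℂ) * T - ((j : ℕ) : ℂ) * T) ^ 2
        + Berry.waveK (((i : ℕ) : ℂ) * T - ((j : ℕ) : ℂ) * T - a)
          * Berry.waveK (((i : ℕ) : ℂ) * T - ((j : ℕ) : ℂ) * T + a)) := by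
      show Berry.waveK (((i : ℕ) : ℂ) * T - (((i : ℕ) : ℂ) * T + a))
          * Berry.waveK (((j : ℕ) : ℂ) * T - (((j : ℕ) : ℂ) * T + a))
        + Berry.waveK (((i : ℕ) : ℂ) * T - ((j : ℕ) : ℂ) * T)
          * Berry.waveK (((i : ℕ) : ℂ) * T + a - (((j : ℕ) : ℂ) * T + a))
        + Berry.waveK (((i : ℕ) : ℂ) * T - (((j : ℕ) : ℂ) * T + a))
          * Berry.waveK (((i : ℕ) : ℂ) * T + a - ((j : ℕ) : ℂ) * T) = _
      have a1 : ((i : ℕ) : ℂ) * T - (((i : ℕ) : ℂ) * T + a) = -a := by ring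
      have a2 : ((j : ℕ) : ℂ) * T - (((j : ℕ) : ℂ) * T + a) = -a := by ring
      have a3 : ((i : ℕ) : ℂ) * T + a - (((j : ℕ) : ℂ) * T + a)
          = ((i : ℕ) : ℂ) * T - ((j : ℕ) : ℂ) * T := by ring
      have a4 : ((i : ℕ) : ℂ) * T - (((j : ℕ) : ℂ) * T + a)
          = ((i : ℕ) : ℂ) * T - ((j : ℕ) : ℂ) * T - a := by ring
      have a5 : ((i : ℕ) : ℂ) * T + a - ((j : ℕ) : ℂ) * T
          = ((i : ℕ) : ℂ) * T - ((j : ℕ) : ℂ) * T + a := by ring
      rw [a1, a2, a3, a4, a5, Berry.waveK_neg]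
      ring
    rw [e1]
    refine add_le_add le_rfl ?_
    split_ifs with hij
    · have k1 := abs_le.1 (Berry.waveK_abs_le (((i : ℕ) : ℂ) * T - ((j : ℕ) : ℂ) * T))
      have k2 := Berry.waveK_abs_le (((i : ℕ) : ℂ) * T - ((j : ℕ) : ℂ) * T - a)
      have k3 := Berry.waveK_abs_le (((i : ℕ) : ℂ) * T - ((j : ℕ) : ℂ) * T + a)
      have k4 : Berry.waveK (((i : ℕ) : ℂ) * T - ((j : ℕ) : ℂ) * T - a)
          * Berry.waveK (((i : ℕ) : ℂ) * T - ((j : ℕ) : ℂ) * T + a) ≤ 1 := by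
        refine (le_abs_self _).trans ?_
        rw [abs_mul]
        exact mul_le_one₀ k2 (abs_nonneg _) k3
      nlinarith only [k4, k1]
    · have hd := hoff i j hij
      set d := ((i : ℕ) : ℂ) * T - ((j : ℕ) : ℂ) * T with hddef
      have hNT : N ≤ ‖d‖ := by
        have := le_abs_self N
        have := norm_nonneg a
        linarith
      have hNm : N ≤ ‖d - a‖ := by
        have := norm_sub_norm_le d a
        have := le_abs_self N
        linarith
      have hNp : N ≤ ‖d + a‖ := by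
        have := norm_sub_norm_le d (-a)
        rw [norm_neg, sub_neg_eq_add] at this
        have := le_abs_self N
        linarith
      have k1 := hN _ hNT
      have k2 := hN _ hNm
      have k3 := (hN _ hNp).trans (min_le_right _ _)
      have k1' := k1.trans (min_le_left _ _)
      have k1'' := k1.trans (min_le_right _ _)
      have k2' := k2.trans (min_le_left _ _)
      have s1 : Berry.waveK d ^ 2 ≤ ε / 4 := by
        rw [← sq_abs, sq]
        calc |Berry.waveK d| * |Berry.waveK d| ≤ ε / 4 * 1 :=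
              mul_le_mul k1' k1'' (abs_nonneg _) (by positivity)
          _ = ε / 4 := mul_one _
      have s2 : Berry.waveK (d - a) * Berry.waveK (d + a) ≤ ε / 4 := by
        refine (le_abs_self _).trans ?_
        rw [abs_mul]
        calc |Berry.waveK (d - a)| * |Berry.waveK (d + a)| ≤ ε / 4 * 1 :=
              mul_le_mul k2' k3 (abs_nonneg _) (by positivity)
          _ = ε / 4 := mul_one _
      linarith only [s1, s2]
  have hsum : ∑ i : Fin M, ∑ j : Fin M, wick (quad (pts M T a i) (pts M T a j))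
      ≤ (M : ℝ) ^ 2 * (Berry.waveK a ^ 2 + ε / 2) + 2 * M := by
    have h1 : ∀ i : Fin M, ∑ j : Fin M, wick (quad (pts M T a i) (pts M T a j))
        ≤ M * (Berry.waveK a ^ 2 + ε / 2) + 2 := by
      intro i
      calc ∑ j : Fin M, wick (quad (pts M T a i) (pts M T a j))
          ≤ ∑ j : Fin M, ((Berry.waveK a ^ 2 + ε / 2) + (if i = j then 2 else 0)) := by
            refine Finset.sum_le_sum fun j _ => (hw i j).trans ?_
            split_ifs
            · linarith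
            · linarith
        _ = M * (Berry.waveK a ^ 2 + ε / 2) + 2 := by
            rw [Finset.sum_add_distrib, Finset.sum_const, Finset.sum_ite_eq, Finset.card_univ,
              Fintype.card_fin, nsmul_eq_mul, if_pos (Finset.mem_univ _)]
    calc ∑ i : Fin M, ∑ j : Fin M, wick (quad (pts M T a i) (pts M T a j))
        ≤ ∑ _i : Fin M, (M * (Berry.waveK a ^ 2 + ε / 2) + 2) := Finset.sum_le_sum fun i _ => h1 i
      _ = _ := by
          rw [Finset.sum_const, Finset.card_univ, Fintype.card_fin, nsmul_eq_mul]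
          ring
  simp only [hk, Finset.sum_const, Finset.card_univ, Fintype.card_fin, nsmul_eq_mul]
  have h2 : (M : ℝ)⁻¹ ^ 2 * ∑ i : Fin M, ∑ j : Fin M, wick (quad (pts M T a i) (pts M T a j))
      ≤ (M : ℝ)⁻¹ ^ 2 * ((M : ℝ) ^ 2 * (Berry.waveK a ^ 2 + ε / 2) + 2 * M) :=
    mul_le_mul_of_nonneg_left hsum (by positivity)
  have h3 : (M : ℝ)⁻¹ ^ 2 * ((M : ℝ) ^ 2 * (Berry.waveK a ^ 2 + ε / 2) + 2 * M)
      = Berry.waveK a ^ 2 + ε / 2 + 2 / M := by
    field_simp
  have h4 : 2 / (M : ℝ) < ε / 2 := by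
    rw [div_lt_iff₀ hM0]
    rw [div_lt_iff₀ hε] at hM
    linarith only [hM]
  have h5 : 2 * Berry.waveK a * (M : ℝ)⁻¹ * (M * Berry.waveK a) = 2 * Berry.waveK a ^ 2 := by
    field_simp
  rw [h5]
  linarith only [h2, h3, h4]

end

end QE


end

section

/-!
Gaussian correlations up to order four imply the limits of the two-point functions of the jets.
-/

open MeasureTheory Filter Topology Set MatrixGroups UpperHalfPlane
open scoped ContDiff

namespace QE

noncomputable section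

variable {Γ : Subgroup SL(2, ℝ)} {ρ : ℍ → ℝ} {D : Set ℍ} {φ : ℕ → ℍ → ℝ} {m h : ℕ → ℝ} {g' : ℂ → ℂ}

/-- the average against a function of the direction and a test function -/
def XB (ρ : ℍ → ℝ) (φ : ℍ → ℝ) (m : ℝ) (K : Set ℂ) (r : ℤ) (ζ : ℂ → ℂ) {M : ℕ}
    (x : Fin M → Fin 2 → ℂ) (κ : ℝ) : ℂ :=
  ∫ p, (uu p.1 ^ (2 : ℤ)) ^ r * (ζ p.2 * (Bf ρ φ m x κ (ofComplex p.2, p.1) : ℂ))
    ∂(ang.prod (volume.restrict K))

namespace WS

/-- joint continuity in the chart -/
lemma Bf_chart (W : WS Γ ρ D φ m h g') {M : ℕ} (x : Fin M → Fin 2 → ℂ) (κ : ℝ) {K : Set ℂ}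
    (hKU : K ⊆ HH) : ∀ᶠ n in atTop, ContinuousOn
      (fun p : ℝ × ℂ => Bf ρ (φ n) (m n) x κ (ofComplex p.2, p.1)) (univ ×ˢ K) := by
  filter_upwards [W.Bf_cont x κ] with n hn p hp
  have h1 : ContinuousAt (ofComplex : ℂ → ℍ) p.2 :=
    (contMDiffAt_ofComplex (n := 0) (hKU hp.2)).continuousAt
  have h2 : ContinuousAt (fun p : ℝ × ℂ => ((ofComplex p.2, p.1) : ℍ × ℝ)) p :=
    (h1.comp continuousAt_snd).prodMk continuousAt_fst
  exact (hn.continuousAt.comp h2).continuousWithinAt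

/-- the bound by the mean square -/
theorem XB_le [Countable Γ] (W : WS Γ ρ D φ m h g') {K : Set ℂ} (hKc : IsCompact K) (hKU : K ⊆ HH)
    {ζ : ℂ → ℂ} (hζ : Continuous ζ) (r : ℤ) : ∃ C : ℝ, 0 ≤ C ∧ ∀ {M : ℕ} (x : Fin M → Fin 2 → ℂ)
      (κ : ℝ), ∀ᶠ n in atTop, ∀ t : ℝ, 0 < t →
      ‖XB ρ (φ n) (m n) K r ζ x κ‖ ≤ t * C
        + t⁻¹ * (C * ∫ p, Bf ρ (φ n) (m n) x κ p ^ 2 ∂(Berry.rFrameProb ρ D)) := by
  obtain ⟨c, hc0, hc⟩ := loc_le W.geo W.rc W.coc hKc hKU
  set Z : ℝ := ∫ p : ℝ × ℂ, ‖ζ p.2‖ ^ 2 ∂(ang.prod (volume.restrict K)) with hZ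
  have hZ0 : 0 ≤ Z := integral_nonneg fun _ => by positivity
  refine ⟨max Z c, le_max_of_le_left hZ0, fun {M} x κ => ?_⟩
  filter_upwards [W.Bf_chart x κ hKU, W.Gf_cont x κ, W.Gf_avg x κ] with n n1 n2 n3 t ht
  have cζ : ContinuousOn (fun p : ℝ × ℂ => ‖ζ p.2‖ ^ 2) (univ ×ˢ K) :=
    ((hζ.comp continuous_snd).norm.pow 2).continuousOn
  have iζ := real_int_ang hKc cζ
  have iB : Integrable (fun p : ℝ × ℂ => Bf ρ (φ n) (m n) x κ (ofComplex p.2, p.1) ^ 2)
      (ang.prod (volume.restrict K)) := real_int_ang hKc (n1.pow 2)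
  have iS : Integrable (fun p : ℝ × ℂ => t * ‖ζ p.2‖ ^ 2
      + t⁻¹ * Bf ρ (φ n) (m n) x κ (ofComplex p.2, p.1) ^ 2) (ang.prod (volume.restrict K)) :=
    (iζ.const_mul t).add (iB.const_mul t⁻¹)
  have h1 : ‖XB ρ (φ n) (m n) K r ζ x κ‖ ≤ ∫ p : ℝ × ℂ, (t * ‖ζ p.2‖ ^ 2
      + t⁻¹ * Bf ρ (φ n) (m n) x κ (ofComplex p.2, p.1) ^ 2) ∂(ang.prod (volume.restrict K)) := by
    refine norm_integral_le_of_norm_le iS (Eventually.of_forall fun p => ?_)
    rw [norm_mul, norm_zpow, norm_zpow, norm_uu, one_zpow, one_zpow, one_mul, norm_mul,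
      Complex.norm_real, Real.norm_eq_abs]
    set u := ‖ζ p.2‖
    set v := |Bf ρ (φ n) (m n) x κ (ofComplex p.2, p.1)| with hv
    have e : Bf ρ (φ n) (m n) x κ (ofComplex p.2, p.1) ^ 2 = v ^ 2 := (sq_abs _).symm
    rw [e]
    have hu0 : 0 ≤ u := norm_nonneg _
    have hv0 : 0 ≤ v := abs_nonneg _
    have hti : t * t⁻¹ = 1 := mul_inv_cancel₀ ht.ne'
    have h2 : 0 ≤ t⁻¹ * (t * u - v) ^ 2 := by (clear * - ht; positivity)
    have h3 : t⁻¹ * (t * u - v) ^ 2 = t * u ^ 2 + t⁻¹ * v ^ 2 - 2 * (u * v) := by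
      field_simp
      ring
    linarith only [h2, h3, mul_nonneg hu0 hv0]
  have h2 : ∫ p : ℝ × ℂ, Bf ρ (φ n) (m n) x κ (ofComplex p.2, p.1) ^ 2
      ∂(ang.prod (volume.restrict K)) = ∫ z in K, Gf ρ (φ n) (m n) x κ (ofComplex z) := by
    rw [integral_prod_symm _ iB]
    rfl
  have h3 := hc _ n2 (Gf_nonneg (φ n) (m n) x κ) (W.Gf_inv x κ n)
  rw [n3] at h3
  have h4 : 0 ≤ ∫ p, Bf ρ (φ n) (m n) x κ p ^ 2 ∂(Berry.rFrameProb ρ D) :=
    integral_nonneg fun _ => sq_nonneg _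
  rw [integral_add (iζ.const_mul t) (iB.const_mul t⁻¹), integral_const_mul, integral_const_mul,
    h2, ← hZ] at h1
  refine h1.trans (add_le_add ?_ ?_)
  · exact mul_le_mul_of_nonneg_left (le_max_left _ _) ht.le
  · refine mul_le_mul_of_nonneg_left (h3.trans ?_) (by positivity)
    exact mul_le_mul_of_nonneg_right (le_max_right _ _) h4

/-- the limit for fixed points -/
theorem XB_lim (W : WS Γ ρ D φ m h g') {ζ : ℂ → ℂ} (hζ : Test HH ζ) (r : ℤ) {M : ℕ} (hM : 0 < M)
    (x : Fin M → Fin 2 → ℂ) {a : ℂ} (hx : ∀ i, x i 1 - x i 0 = a) (κ : ℝ) :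
    Tendsto (fun n => XB ρ (φ n) (m n) (tsupport ζ) r ζ x κ
      - ((∫ z, ζ z * (E h (wt (gw ρ)) (fun n z => (φ n (ofComplex z) : ℂ)) 0 n z
          * E h (wt (gw ρ)) (fun n z => (φ n (ofComplex z) : ℂ)) (-r) n z)) * cK r a
        - κ * (∫ z, ζ z) * (if r = 0 then 1 else 0))) atTop (𝓝 0) := by
  set K := tsupport ζ with hKdef
  have hKc : IsCompact K := hζ.supp
  have hKU : K ⊆ HH := hζ.sub
  obtain ⟨δ, hδ, hδU⟩ := hKc.exists_cthickening_subset_open isOpen_HH hKU
  have hδU' : Metric.cthickening (2 * (δ / 2)) K ⊆ HH := by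
    rw [mul_div_cancel₀ _ (two_ne_zero)]; exact hδU
  have hi : ∀ i, Tendsto (fun n => (∫ θ, (uu θ ^ (2 : ℤ)) ^ r * (∫ z in K, ζ z
      * ((φ n (ofComplex (z + h n * wt (gw ρ) z * frXi h (em ρ) (x i 0) n θ z)) : ℂ)
        * (φ n (ofComplex (z + h n * wt (gw ρ) z * frXi h (em ρ) (x i 1) n θ z)) : ℂ))) ∂ang)
      - (∫ z, ζ z * (E h (wt (gw ρ)) (fun n z => (φ n (ofComplex z) : ℂ)) 0 n z
          * E h (wt (gw ρ)) (fun n z => (φ n (ofComplex z) : ℂ)) (-r) n z)) * cK r a) atTop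
      (𝓝 0) := by
    intro i
    have := W.set.two_mode hKc (half_pos hδ) hδU' (q := 2) (by norm_num) r (x i)
      (fun l => frXi h (em ρ) (x i l)) (fun l => W.disp hKc hKU (x i l)) hζ le_rfl
    rwa [hx i] at this
  have hsum := (tendsto_finset_sum Finset.univ fun i _ => hi i).const_mul ((M : ℂ)⁻¹)
  rw [Finset.sum_const_zero, mul_zero] at hsum
  refine hsum.congr' ?_
  have hval : ∀ᶠ n in atTop, ∀ i l, ∀ θ, ∀ z ∈ K,
      Berry.rWave ρ (φ n) (m n) (x i l) (ofComplex z, θ)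
        = φ n (ofComplex (z + h n * wt (gw ρ) z * frXi h (em ρ) (x i l) n θ z)) :=
    eventually_all.2 fun i => W.val (x i) hKU
  have hjc : ∀ᶠ n in atTop, ∀ i l, ContinuousOn
      (fun p : ℝ × ℂ => Berry.rWave ρ (φ n) (m n) (x i l) (ofComplex p.2, p.1)) (univ ×ˢ K) :=
    eventually_all.2 fun i => W.jc (x i) hKU
  filter_upwards [hval, hjc] with n n1 n2
  have hM0 : (M : ℂ) ≠ 0 := by exact_mod_cast hM.ne'
  -- the terms on the product
  have cz : Continuous fun θ : ℝ => (uu θ ^ (2 : ℤ)) ^ r := by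
    have : (fun θ : ℝ => (uu θ ^ (2 : ℤ)) ^ r) = fun θ => uu θ ^ (2 * r) := by
      funext θ; rw [zpow_mul]
    rw [this]
    exact continuous_uu_zpow _
  have cw : ContinuousOn (fun p : ℝ × ℂ => (uu p.1 ^ (2 : ℤ)) ^ r * ζ p.2) (univ ×ˢ K) :=
    ((cz.comp continuous_fst).mul (hζ.smooth.continuous.comp continuous_snd)).continuousOn
  have cH : ∀ i, ContinuousOn (fun p : ℝ × ℂ => (uu p.1 ^ (2 : ℤ)) ^ r * (ζ p.2
      * ((Berry.rWave ρ (φ n) (m n) (x i 0) (ofComplex p.2, p.1) : ℂ)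
        * (Berry.rWave ρ (φ n) (m n) (x i 1) (ofComplex p.2, p.1) : ℂ)))) (univ ×ˢ K) := by
    intro i
    have := cw.mul ((Complex.continuous_ofReal.comp_continuousOn (n2 i 0)).mul
      (Complex.continuous_ofReal.comp_continuousOn (n2 i 1)))
    refine this.congr fun p _ => ?_
    simp only [Pi.mul_apply, Function.comp_apply]
    ring
  have iH := fun i => int_ang hKc (cH i)
  have iw := int_ang hKc cw
  have e1 : ∀ i, ∫ θ, (uu θ ^ (2 : ℤ)) ^ r * (∫ z in K, ζ z
      * ((φ n (ofComplex (z + h n * wt (gw ρ) z * frXi h (em ρ) (x i 0) n θ z)) : ℂ)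
        * (φ n (ofComplex (z + h n * wt (gw ρ) z * frXi h (em ρ) (x i 1) n θ z)) : ℂ))) ∂ang
      = ∫ p : ℝ × ℂ, (uu p.1 ^ (2 : ℤ)) ^ r * (ζ p.2
      * ((Berry.rWave ρ (φ n) (m n) (x i 0) (ofComplex p.2, p.1) : ℂ)
        * (Berry.rWave ρ (φ n) (m n) (x i 1) (ofComplex p.2, p.1) : ℂ)))
        ∂(ang.prod (volume.restrict K)) := by
    intro i
    rw [integral_prod _ (iH i)]
    refine integral_congr_ae (Eventually.of_forall fun θ => ?_)
    beta_reduce
    rw [← integral_const_mul]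
    refine setIntegral_congr_fun hKc.measurableSet fun z hz => ?_
    beta_reduce
    rw [n1 i 0 θ z hz, n1 i 1 θ z hz]
  have e2 : ∫ p : ℝ × ℂ, (uu p.1 ^ (2 : ℤ)) ^ r * ζ p.2 ∂(ang.prod (volume.restrict K))
      = (∫ z, ζ z) * (if r = 0 then 1 else 0) := by
    rw [integral_prod_mul (f := fun θ : ℝ => (uu θ ^ (2 : ℤ)) ^ r) (g := ζ), mul_comm]
    congr 1
    · rw [setIntegral_eq_integral_of_forall_compl_eq_zero]
      intro z hz
      exact image_eq_zero_of_notMem_tsupport hz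
    · exact ang_zpow_mul (by norm_num) r
  have e3 : XB ρ (φ n) (m n) K r ζ x κ = (M : ℂ)⁻¹ * (∑ i, ∫ p : ℝ × ℂ, (uu p.1 ^ (2 : ℤ)) ^ r
      * (ζ p.2 * ((Berry.rWave ρ (φ n) (m n) (x i 0) (ofComplex p.2, p.1) : ℂ)
        * (Berry.rWave ρ (φ n) (m n) (x i 1) (ofComplex p.2, p.1) : ℂ)))
        ∂(ang.prod (volume.restrict K))) - κ * ((∫ z, ζ z) * (if r = 0 then 1 else 0)) := by
    rw [← e2, ← integral_finset_sum _ fun i _ => iH i, ← integral_const_mul, ← integral_const_mul,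
      ← integral_sub ((integrable_finset_sum _ fun i _ => iH i).const_mul _) (iw.const_mul _)]
    unfold XB
    refine integral_congr_ae (Eventually.of_forall fun p => ?_)
    simp only
    unfold Bf
    push_cast
    simp only [Finset.mul_sum, mul_sub]
    congr 1
    · refine Finset.sum_congr rfl fun i _ => ?_
      ring
    · ring
  rw [e3]
  simp only [e1]
  rw [Finset.sum_sub_distrib, Finset.sum_const, Finset.card_univ, Fintype.card_fin, nsmul_eq_mul,
    mul_sub, ← mul_assoc (M : ℂ)⁻¹ (M : ℂ), inv_mul_cancel₀ hM0, one_mul]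
  ring

/-- **The limits of the two-point functions.** -/
theorem mode_lim [Countable Γ] (W : WS Γ ρ D φ m h g')
    (H2 : ∀ y : Fin 2 → ℂ, Tendsto (fun n => ∫ p, ∏ l, Berry.rWave ρ (φ n) (m n) (y l) p
      ∂(Berry.rFrameProb ρ D)) atTop (𝓝 (Berry.waveK (y 0 - y 1))))
    (H4 : ∀ y : Fin 4 → ℂ, Tendsto (fun n => ∫ p, ∏ l, Berry.rWave ρ (φ n) (m n) (y l) p
      ∂(Berry.rFrameProb ρ D)) atTop (𝓝 (wick y))) {ζ : ℂ → ℂ} (hζ : Test HH ζ) (r : ℤ) (a : ℂ) :
    Tendsto (fun n => (∫ z, ζ z * (E h (wt (gw ρ)) (fun n z => (φ n (ofComplex z) : ℂ)) 0 n z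
          * E h (wt (gw ρ)) (fun n z => (φ n (ofComplex z) : ℂ)) (-r) n z)) * cK r a
        - Berry.waveK a * (∫ z, ζ z) * (if r = 0 then 1 else 0)) atTop (𝓝 0) := by
  obtain ⟨C, hC0, hC⟩ := W.XB_le (K := tsupport ζ) hζ.supp hζ.sub hζ.smooth.continuous r
  rw [Metric.tendsto_nhds]
  intro ε hε
  set t : ℝ := ε / (3 * (C + 1)) with ht
  have ht0 : 0 < t := by positivity
  have htC : t * C < ε / 3 := by
    have : t * (C + 1) = ε / 3 := by rw [ht]; field_simp
    linarith only [ht0, this]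
  have hε' : 0 < ε * t / (3 * (C + 1)) := by positivity
  obtain ⟨M, T, hM, hMT⟩ := pts_small a hε'
  have hlim := W.Bf_lim H2 H4 (pts M T a) (Berry.waveK a)
  have hX := W.XB_lim hζ r hM (pts M T a) (a := a) (fun i => by
    show ((i : ℕ) : ℂ) * T + a - ((i : ℕ) : ℂ) * T = a
    ring) (Berry.waveK a)
  filter_upwards [hC (pts M T a) (Berry.waveK a), hlim.eventually_lt_const hMT,
    Metric.tendsto_nhds.1 hX (ε / 3) (by positivity)] with n n1 n2 n3
  rw [dist_zero_right] at n3 ⊢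
  have h1 := n1 t ht0
  have h2 : t⁻¹ * (C * ∫ p, Bf ρ (φ n) (m n) (pts M T a) (Berry.waveK a) p ^ 2
      ∂(Berry.rFrameProb ρ D)) ≤ ε / 3 := by
    calc t⁻¹ * (C * ∫ p, Bf ρ (φ n) (m n) (pts M T a) (Berry.waveK a) p ^ 2
          ∂(Berry.rFrameProb ρ D)) ≤ t⁻¹ * (C * (ε * t / (3 * (C + 1)))) := by gcongr
      _ = ε / 3 * (C / (C + 1)) := by field_simp
      _ ≤ ε / 3 * 1 := by
          have : C / (C + 1) ≤ 1 := by rw [div_le_one (by positivity)]; linarith
          gcongr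
      _ = ε / 3 := mul_one _
  set X := XB ρ (φ n) (m n) (tsupport ζ) r ζ (pts M T a) (Berry.waveK a)
  set Y := (∫ z, ζ z * (E h (wt (gw ρ)) (fun n z => (φ n (ofComplex z) : ℂ)) 0 n z
          * E h (wt (gw ρ)) (fun n z => (φ n (ofComplex z) : ℂ)) (-r) n z)) * cK r a
        - Berry.waveK a * (∫ z, ζ z) * (if r = 0 then 1 else 0)
  have h3 : ‖Y‖ ≤ ‖X‖ + ‖X - Y‖ := by
    have := norm_sub_le X (X - Y)
    rwa [sub_sub_cancel] at this
  linarith

/-- **Gaussian correlations imply the two-point functions of a quantum ergodic sequence.** -/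
theorem two_of_gauss [Countable Γ] (W : WS Γ ρ D φ m h g')
    (H2 : ∀ y : Fin 2 → ℂ, Tendsto (fun n => ∫ p, ∏ l, Berry.rWave ρ (φ n) (m n) (y l) p
      ∂(Berry.rFrameProb ρ D)) atTop (𝓝 (Berry.waveK (y 0 - y 1))))
    (H4 : ∀ y : Fin 4 → ℂ, Tendsto (fun n => ∫ p, ∏ l, Berry.rWave ρ (φ n) (m n) (y l) p
      ∂(Berry.rFrameProb ρ D)) atTop (𝓝 (wick y))) : TwoPt ρ φ h := by
  intro j k η hη
  have h0 : ∀ ζ : ℂ → ℂ, Test HH ζ → Tendsto (fun n => ∫ z, ζ z
      * (E h (wt (gw ρ)) (fun n z => (φ n (ofComplex z) : ℂ)) 0 n z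
      * E h (wt (gw ρ)) (fun n z => (φ n (ofComplex z) : ℂ)) 0 n z)) atTop
      (𝓝 (1 * ∫ z, ζ z)) := by
    intro ζ hζ
    have h1 := W.mode_lim H2 H4 hζ 0 0
    rw [cK_zero, Berry.waveK_zero] at h1
    simp only [neg_zero, mul_one, if_true, Complex.ofReal_one, one_mul] at h1
    have h2 := h1.add_const (∫ z, ζ z)
    rw [zero_add] at h2
    rw [one_mul]
    refine h2.congr fun n => ?_
    ring
  have h1 : ∀ k : ℕ, 1 ≤ k → ∀ ζ : ℂ → ℂ, Test HH ζ → Tendsto (fun n => ∫ z, ζ z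
      * (E h (wt (gw ρ)) (fun n z => (φ n (ofComplex z) : ℂ)) 0 n z
      * E h (wt (gw ρ)) (fun n z => (φ n (ofComplex z) : ℂ)) k n z)) atTop (𝓝 0) := by
    intro k hk ζ hζ
    obtain ⟨a, ha⟩ := cK_ne (-(k : ℤ))
    have h1 := W.mode_lim H2 H4 hζ (-(k : ℤ)) a
    have hk0 : ¬ (-(k : ℤ) = 0) := by omega
    rw [neg_neg] at h1
    simp only [if_neg hk0, mul_zero, sub_zero] at h1
    have h2 := h1.mul_const (cK (-(k : ℤ)) a)⁻¹
    rw [zero_mul] at h2
    refine h2.congr fun n => ?_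
    rw [mul_assoc, mul_inv_cancel₀ ha, mul_one]
  have := W.set.two_c h0 h1 j k hη
  rwa [one_mul] at this

end WS

end

end QE


end

section

/-!
All normalised sequences of eigenfunctions on closed surfaces: Gaussian correlations of order at most
four are equivalent to quantum ergodicity together with the fourth moment `3`.
-/

open MeasureTheory Filter Topology Set MatrixGroups UpperHalfPlane
open scoped ContDiff

namespace QE

noncomputable section

variable {Γ : Subgroup SL(2, ℝ)} {ρ : ℍ → ℝ} {D : Set ℍ}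

/-- the inverse of the weight -/
lemma wt_inv {z : ℂ} (hz : 0 < z.im) :
    (wt (gw ρ) z)⁻¹ = ((Real.exp (ρ (ofComplex z)) / z.im : ℝ) : ℂ) := by
  rw [wt_gw hz, ← Complex.ofReal_mul, ← Complex.ofReal_inv]
  congr 1
  rw [Real.exp_neg, mul_inv, inv_inv, div_eq_mul_inv, mul_comm]

/-- quantum ergodicity from the two-point functions of the jets -/
theorem quantum_of_two {φ : ℕ → ℍ → ℝ} {m : ℕ → ℝ} {N : ℕ} {g' : ℂ → ℂ}
    (W : WS Γ ρ D (fun n => φ (n + N)) (fun n => m (n + N)) (fun n => 1 / m (n + N)) g')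
    (htwo : TwoPt ρ (fun n => φ (n + N)) (fun n => 1 / m (n + N))) : QuantumErgodic ρ φ m := by
  intro j k ζ h1 h2 h3
  rw [← tendsto_add_atTop_iff_nat N]
  have hR := W.set.rep_mono (r := fun z => Real.exp (ρ (ofComplex z)) / z.im)
    (fun z hz => wt_inv hz) j k
  have hL := W.set.rep_lim htwo hR (ζ := ζ) ⟨h1, h2, h3⟩
  have e : ∀ z : ℂ, (1 / (2 * Real.pi) : ℂ) * ∫ θ in (0 : ℝ)..(2 * Real.pi),
      ((((Real.exp (ρ (ofComplex z)) / z.im * Real.cos θ) ^ j
        * (Real.exp (ρ (ofComplex z)) / z.im * Real.sin θ) ^ k : ℝ)) : ℂ)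
      = ((1 / (2 * Real.pi) * ∫ θ in (0 : ℝ)..(2 * Real.pi),
        (Real.exp (ρ (ofComplex z)) / z.im * Real.cos θ) ^ j
          * (Real.exp (ρ (ofComplex z)) / z.im * Real.sin θ) ^ k : ℝ) : ℂ) := by
    intro z
    rw [intervalIntegral.integral_ofReal, Complex.ofReal_mul]
    push_cast
    rfl
  simp only [e] at hL
  exact hL

/-- **Gaussian correlations up to order four imply quantum ergodicity.** -/
theorem quantum_of_gauss [Countable Γ] (hDm : MeasurableSet D)
    (hD : IsFundamentalDomain Γ D (volume : Measure ℍ))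
    (hK : ∃ K : Set ℍ, IsCompact K ∧ ∀ z, ∃ γ ∈ Γ, γ • z ∈ K)
    (hρ : ContDiffOn ℝ ∞ (fun w : ℂ => ρ (ofComplex w)) {w | 0 < w.im})
    (hρΓ : ∀ γ ∈ Γ, ∀ z, ρ (γ • z) = ρ z)
    {φ : ℕ → ℍ → ℝ} {m : ℕ → ℝ} (hφ : Berry.REigenSeq Γ ρ φ m)
    (hs : ∀ n, ContDiffOn ℝ ∞ (fun w : ℂ => φ n (ofComplex w)) {w | 0 < w.im})
    (hG : Berry.RGaussUpToFour ρ D φ m) : QuantumErgodic ρ φ m := by
  have S := Berry.surf_of_cocompact hD hDm hK (continuous_of_smooth hρ) hρΓ hφ
  have h3 := four_zero S hG.2.2.2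
  obtain ⟨N, W⟩ := ws_gen hDm hD hK hρ hρΓ hφ hs (C := 4)
    ((h3.eventually_lt_const (by norm_num : (3 : ℝ) < 4)).mono fun n hn => hn.le)
  have hshift : Tendsto (fun n : ℕ => n + N) atTop atTop := tendsto_add_atTop_nat N
  refine quantum_of_two W (W.two_of_gauss (fun y => ?_) fun y => ?_)
  · refine ((hG.2.1 (y 0) (y 1)).comp hshift).congr fun n => ?_
    simp only [Function.comp_apply, Fin.prod_univ_two]
  · refine ((hG.2.2.2 (y 0) (y 1) (y 2) (y 3)).comp hshift).congr fun n => ?_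
    simp only [Function.comp_apply, Fin.prod_univ_four]

/-- four-point functions decide the averages at the Planck scale -/
theorem planck_of_four [Countable Γ] {φ : ℕ → ℍ → ℝ} {m : ℕ → ℝ} (S : Berry.Surf Γ ρ D φ m)
    (h2 : Tendsto (fun n => Berry.rAvg ρ D fun z => φ n z ^ 2) atTop (𝓝 1))
    (hf : Berry.RFourPt ρ D φ m) (a : ℂ) : Berry.RPlanckAt ρ D φ m a := by
  have h3 := four_zero S hf
  obtain ⟨B₁, hB₁⟩ := h3.bddAbove_range
  have hB' : ∀ n, (Berry.rAvg ρ D fun z => φ n z ^ 4) ≤ B₁ := fun n => hB₁ ⟨n, rfl⟩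
  have hP := Berry.rFrameProb_isProb S.geo
  obtain ⟨B₂, hdat⟩ := S.dat hB'
  obtain ⟨R, B', hR, hA⟩ := hdat.aWave hB'
  have h4 : ∀ x₁ x₂ x₃ x₄, Tendsto (fun n => Berry.c4 (Berry.rFrameProb ρ D)
      (Berry.wW ρ φ m R) n x₁ x₂ x₃ x₄) atTop (𝓝 ((1:ℝ) ^ 2 * (Berry.waveK (x₁ - x₂)
        * Berry.waveK (x₃ - x₄) + Berry.waveK (x₁ - x₃) * Berry.waveK (x₂ - x₄)
        + Berry.waveK (x₁ - x₄) * Berry.waveK (x₂ - x₃)))) := by
    intro x₁ x₂ x₃ x₄
    rw [one_pow, one_mul]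
    refine (hf x₁ x₂ x₃ x₄).congr' ?_
    filter_upwards [S.c4_ev hR x₁ x₂ x₃ x₄] with n hn
    exact hn.symm
  rw [S.planck_iff hR]
  exact hA.planck_of_gauss (v := 1) (h2.congr fun n => (S.c2_zero n).symm) h4 a

/-- averages at the Planck scale decide all moments up to order four -/
theorem gauss_of_planck [Countable Γ] {φ : ℕ → ℍ → ℝ} {m : ℕ → ℝ} (S : Berry.Surf Γ ρ D φ m)
    (hq : ∀ a, Berry.RPlanckAt ρ D φ m a) : Berry.RGaussUpToFour ρ D φ m := by
  have hP := Berry.rFrameProb_isProb S.geo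
  obtain ⟨B, hB⟩ := S.four_bounded (hq 0)
  obtain ⟨B₂, hdat⟩ := S.dat hB
  obtain ⟨R, B', hR, hA⟩ := hdat.aWave hB
  have hq' : Berry.AsyPlanck (Berry.rFrameProb ρ D) (Berry.wW ρ φ m R) 1 :=
    fun a => (S.planck_iff hR a).1 (hq a)
  obtain ⟨h3, h1⟩ := hA.odd_of_planck (hdat.odd hR) hq'
  refine ⟨fun x => ?_, fun x y => S.two_of_planck hB hq x y, fun x y z => ?_,
    fun x₁ x₂ x₃ x₄ => ?_⟩
  · refine (h1 x).congr' ?_
    filter_upwards [S.c1_ev hR x] with n hn
    exact hn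
  · refine (h3 x y z).congr' ?_
    filter_upwards [S.c3_ev hR x y z] with n hn
    exact hn
  · have h1 := (hA.gauss_of_planck (v := 1) hq').1 x₁ x₂ x₃ x₄
    rw [one_pow, one_mul] at h1
    refine h1.congr' ?_
    filter_upwards [S.c4_ev hR x₁ x₂ x₃ x₄] with n hn
    exact hn

/-- the second moment is the value of the two-point function at the origin -/
lemma second_of_gauss [Countable Γ] {φ : ℕ → ℍ → ℝ} {m : ℕ → ℝ} (S : Berry.Surf Γ ρ D φ m)
    (hG : Berry.RGaussUpToFour ρ D φ m) :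
    Tendsto (fun n => Berry.rAvg ρ D fun z => φ n z ^ 2) atTop (𝓝 1) := by
  have h1 := hG.2.1 0 0
  rw [sub_zero, Berry.waveK_zero] at h1
  refine h1.congr' ?_
  filter_upwards [S.c2_ev tendsto_id 0 0] with n hn
  rw [← hn, S.c2_zero]

/-- **All sequences of eigenfunctions on closed surfaces.** -/
theorem tfae_all [Countable Γ] (hDm : MeasurableSet D)
    (hD : IsFundamentalDomain Γ D (volume : Measure ℍ))
    (hK : ∃ K : Set ℍ, IsCompact K ∧ ∀ z, ∃ γ ∈ Γ, γ • z ∈ K)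
    (hρ : ContDiffOn ℝ ∞ (fun w : ℂ => ρ (ofComplex w)) {w | 0 < w.im})
    (hρΓ : ∀ γ ∈ Γ, ∀ z, ρ (γ • z) = ρ z)
    {φ : ℕ → ℍ → ℝ} {m : ℕ → ℝ} (hφ : Berry.REigenSeq Γ ρ φ m)
    (hs : ∀ n, ContDiffOn ℝ ∞ (fun w : ℂ => φ n (ofComplex w)) {w | 0 < w.im}) :
    List.TFAE [QuantumErgodic ρ φ m ∧ Tendsto (fun n => Berry.rAvg ρ D fun z => φ n z ^ 4)
        atTop (𝓝 3),
      QuantumErgodic ρ φ m ∧ Berry.RPlanckAt ρ D φ m 0, ∀ a, Berry.RPlanckAt ρ D φ m a,
      Tendsto (fun n => Berry.rAvg ρ D fun z => φ n z ^ 2) atTop (𝓝 1) ∧ Berry.RFourPt ρ D φ m,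
      Berry.RGaussUpToFour ρ D φ m] := by
  have S := Berry.surf_of_cocompact hD hDm hK (continuous_of_smooth hρ) hρΓ hφ
  tfae_have 1 ↔ 2 := by
    constructor
    · rintro ⟨hq, h3⟩
      exact ⟨hq, ((tfae_surface hDm hD hK hρ hρΓ hφ hs hq).out 0 1).1 h3⟩
    · rintro ⟨hq, h0⟩
      exact ⟨hq, ((tfae_surface hDm hD hK hρ hρΓ hφ hs hq).out 0 1).2 h0⟩
  tfae_have 1 → 5 := fun h => ((tfae_surface hDm hD hK hρ hρΓ hφ hs h.1).out 0 4).1 h.2
  tfae_have 5 → 1 := fun hG => ⟨quantum_of_gauss hDm hD hK hρ hρΓ hφ hs hG,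
    four_zero S hG.2.2.2⟩
  tfae_have 5 → 4 := fun hG => ⟨second_of_gauss S hG, hG.2.2.2⟩
  tfae_have 4 → 3 := fun h a => planck_of_four S h.1 h.2 a
  tfae_have 3 → 5 := fun hq => gauss_of_planck S hq
  tfae_finish

end

end QE


end

section

/-!
Moments of the local waves over regions of the surface and in fixed directions.
-/

open MeasureTheory Filter Topology Set MatrixGroups UpperHalfPlane
open scoped ContDiff

namespace QE

noncomputable section

variable {Γ : Subgroup SL(2, ℝ)} {ρ : ℍ → ℝ} {D : Set ℍ}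

/-- from smooth nonnegative to continuous nonnegative test functions -/
lemma cont_lim_nonneg {F : ℕ → ℂ → ℝ} (hF : ∀ᶠ n in atTop, ContinuousOn (F n) HH)
    (hbd : ∀ K : Set ℂ, IsCompact K → K ⊆ HH → ∃ C : ℝ, ∀ᶠ n in atTop, ∫ z in K, |F n z| ≤ C)
    (hloc : ∀ ψ : ℂ → ℝ, ContDiff ℝ ∞ ψ → HasCompactSupport ψ → tsupport ψ ⊆ HH →
      Tendsto (fun n => ∫ z, ψ z * F n z) atTop (𝓝 0)) {ζ : ℂ → ℝ} (hζc : Continuous ζ)
    (hζs : HasCompactSupport ζ) (hζU : tsupport ζ ⊆ HH) (hζ0 : ∀ z, 0 ≤ ζ z) :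
    Tendsto (fun n => ∫ z, ζ z * F n z) atTop (𝓝 0) := by
  have hKc : IsCompact (tsupport ζ) := hζs
  obtain ⟨C, hC⟩ := hbd _ hKc hζU
  rw [Metric.tendsto_nhds]
  intro ε hε
  set δ : ℝ := ε / (12 * (|C| + 1)) with hδ
  have hδ0 : 0 < δ := by positivity
  obtain ⟨ψ, hψ, hψ1, hψ2⟩ := exists_smooth_between hζc hδ0
  have hψ0 : ∀ z, 0 ≤ ψ z := fun z => (le_max_right _ _).trans (hψ1 z)
  have hsupp : Function.support ψ ⊆ Function.support ζ := by
    intro z hz hz0
    apply hz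
    have h1 := hψ2 z
    rw [hz0, max_eq_right (by linarith)] at h1
    exact le_antisymm h1 (hψ0 z)
  have hts : tsupport ψ ⊆ tsupport ζ := closure_mono hsupp
  have hψs : HasCompactSupport ψ := hKc.of_isClosed_subset (isClosed_tsupport _) hts
  have hclose : ∀ z, |ζ z - ψ z| ≤ 3 * δ := by
    intro z
    have h1 := hψ1 z
    have h2 := hψ2 z
    have h3 := hζ0 z
    have h4 := le_max_left (ζ z - 3 * δ) 0
    have h5 : max (ζ z - δ) 0 ≤ ζ z := max_le (by linarith) h3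
    rw [abs_le]
    constructor <;> linarith
  have hl := hloc ψ hψ hψs (hts.trans hζU)
  filter_upwards [hC, hF, (Metric.tendsto_nhds.1 hl) (ε / 2) (by positivity)] with n h1 h2 h3
  rw [dist_zero_right, Real.norm_eq_abs] at h3 ⊢
  have hsetζ : ∫ z, ζ z * F n z = ∫ z in tsupport ζ, ζ z * F n z := by
    rw [setIntegral_eq_integral_of_forall_compl_eq_zero]
    intro z hz
    rw [image_eq_zero_of_notMem_tsupport hz, zero_mul]
  have hsetψ : ∫ z, ψ z * F n z = ∫ z in tsupport ζ, ψ z * F n z := by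
    rw [setIntegral_eq_integral_of_forall_compl_eq_zero]
    intro z hz
    rw [image_eq_zero_of_notMem_tsupport (fun hz' => hz (hts hz')), zero_mul]
  have iζ : IntegrableOn (fun w => ζ w * F n w) (tsupport ζ) :=
    (hζc.continuousOn.mul (h2.mono hζU)).integrableOn_compact hKc
  have iψ : IntegrableOn (fun w => ψ w * F n w) (tsupport ζ) :=
    (hψ.continuous.continuousOn.mul (h2.mono hζU)).integrableOn_compact hKc
  have hdiff : |(∫ w, ζ w * F n w) - ∫ w, ψ w * F n w| ≤ 3 * δ * |C| := by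
    rw [hsetζ, hsetψ, ← integral_sub iζ iψ, ← Real.norm_eq_abs]
    calc ‖∫ w in tsupport ζ, (ζ w * F n w - ψ w * F n w)‖
        ≤ ∫ w in tsupport ζ, 3 * δ * |F n w| := by
          refine norm_integral_le_of_norm_le ?_ (Eventually.of_forall fun w => ?_)
          · exact ((h2.mono hζU).abs.integrableOn_compact hKc).const_mul _
          · rw [← sub_mul, norm_mul, Real.norm_eq_abs, Real.norm_eq_abs]
            exact mul_le_mul_of_nonneg_right (hclose w) (abs_nonneg _)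
      _ ≤ 3 * δ * |C| := by
          rw [integral_const_mul]
          have := h1.trans (le_abs_self C)
          gcongr
  have h6 : 3 * δ * |C| ≤ ε / 4 := by
    have h7 : 0 ≤ |C| := abs_nonneg C
    calc 3 * δ * |C| ≤ 3 * δ * (|C| + 1) := by gcongr; linarith
      _ = ε / 4 := by rw [hδ]; field_simp; norm_num
  have h8 := abs_sub_abs_le_abs_sub (∫ w, ζ w * F n w) (∫ w, ψ w * F n w)
  linarith

/-- from smooth to continuous test functions -/
lemma cont_lim {F : ℕ → ℂ → ℝ} (hF : ∀ᶠ n in atTop, ContinuousOn (F n) HH)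
    (hbd : ∀ K : Set ℂ, IsCompact K → K ⊆ HH → ∃ C : ℝ, ∀ᶠ n in atTop, ∫ z in K, |F n z| ≤ C)
    {v : ℝ} (hloc : ∀ ψ : ℂ → ℝ, ContDiff ℝ ∞ ψ → HasCompactSupport ψ → tsupport ψ ⊆ HH →
      Tendsto (fun n => ∫ z, ψ z * F n z) atTop (𝓝 (v * ∫ z, ψ z))) {ζ : ℂ → ℝ}
    (hζc : Continuous ζ) (hζs : HasCompactSupport ζ) (hζU : tsupport ζ ⊆ HH) :
    Tendsto (fun n => ∫ z, ζ z * F n z) atTop (𝓝 (v * ∫ z, ζ z)) := by
  have hint : ∀ (f : ℂ → ℝ), ContinuousOn f HH → ∀ η : ℂ → ℝ, Continuous η → HasCompactSupport η →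
      tsupport η ⊆ HH → Integrable (fun z => η z * f z) := by
    intro f hf η h1 h2 h3
    exact integrable_mul_of_tsupport isOpen_HH h1 h2 h3 hf
  -- the functions `F - v`
  have hF' : ∀ᶠ n in atTop, ContinuousOn (fun z => F n z - v) HH :=
    hF.mono fun n hn => hn.sub continuousOn_const
  have hbd' : ∀ K : Set ℂ, IsCompact K → K ⊆ HH → ∃ C : ℝ, ∀ᶠ n in atTop,
      ∫ z in K, |F n z - v| ≤ C := by
    intro K hK hKU
    obtain ⟨C, hC⟩ := hbd K hK hKU
    refine ⟨C + |v| * (volume K).toReal, ?_⟩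
    filter_upwards [hC, hF] with n h1 h2
    have i1 : IntegrableOn (fun z => |F n z|) K := (h2.mono hKU).abs.integrableOn_compact hK
    have i2 : IntegrableOn (fun _ : ℂ => |v|) K := continuousOn_const.integrableOn_compact hK
    calc ∫ z in K, |F n z - v| ≤ ∫ z in K, (|F n z| + |v|) := by
          refine integral_mono_of_nonneg (Eventually.of_forall fun z => abs_nonneg _)
            (i1.add i2) (Eventually.of_forall fun z => abs_sub _ _)
      _ = (∫ z in K, |F n z|) + |v| * (volume K).toReal := by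
          rw [integral_add i1 i2, integral_const, smul_eq_mul, measureReal_restrict_apply_univ]
          unfold Measure.real
          ring
      _ ≤ _ := by gcongr
  have hsub : ∀ η : ℂ → ℝ, Continuous η → HasCompactSupport η → tsupport η ⊆ HH → ∀ n,
      ContinuousOn (F n) HH → ∫ z, η z * (F n z - v) = (∫ z, η z * F n z) - v * ∫ z, η z := by
    intro η h1 h2 h3 n hn
    rw [← integral_const_mul, ← integral_sub (hint _ hn η h1 h2 h3)
      ((h1.integrable_of_hasCompactSupport h2).const_mul v)]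
    congr 1; funext z; ring
  have hloc' : ∀ ψ : ℂ → ℝ, ContDiff ℝ ∞ ψ → HasCompactSupport ψ → tsupport ψ ⊆ HH →
      Tendsto (fun n => ∫ z, ψ z * (F n z - v)) atTop (𝓝 0) := by
    intro ψ h1 h2 h3
    have h4 := (hloc ψ h1 h2 h3).sub_const (v * ∫ z, ψ z)
    rw [sub_self] at h4
    refine h4.congr' ?_
    filter_upwards [hF] with n hn
    exact (hsub ψ h1.continuous h2 h3 n hn).symm
  -- positive and negative parts
  set ζp : ℂ → ℝ := fun z => max (ζ z) 0 with hζp
  set ζm : ℂ → ℝ := fun z => max (-ζ z) 0 with hζm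
  have sp : Function.support ζp ⊆ Function.support ζ := by
    intro z hz hz0
    apply hz
    simp only [hζp]
    rw [hz0, max_self]
  have sm : Function.support ζm ⊆ Function.support ζ := by
    intro z hz hz0
    apply hz
    simp only [hζm]
    rw [hz0, neg_zero, max_self]
  have cp : Continuous ζp := hζc.max continuous_const
  have cm : Continuous ζm := hζc.neg.max continuous_const
  have tp : tsupport ζp ⊆ tsupport ζ := closure_mono sp
  have tm : tsupport ζm ⊆ tsupport ζ := closure_mono sm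
  have hKc : IsCompact (tsupport ζ) := hζs
  have l1 := cont_lim_nonneg hF' hbd' hloc' cp (hKc.of_isClosed_subset (isClosed_tsupport _) tp)
    (tp.trans hζU) (fun z => le_max_right _ _)
  have l2 := cont_lim_nonneg hF' hbd' hloc' cm (hKc.of_isClosed_subset (isClosed_tsupport _) tm)
    (tm.trans hζU) (fun z => le_max_right _ _)
  have l3 := l1.sub l2
  rw [sub_zero] at l3
  have l4 := l3.add_const (v * ∫ z, ζ z)
  rw [zero_add] at l4
  refine l4.congr' ?_
  filter_upwards [hF, hF'] with n hn hn'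
  have e1 := hint _ hn' ζp cp (hKc.of_isClosed_subset (isClosed_tsupport _) tp) (tp.trans hζU)
  have e2 := hint _ hn' ζm cm (hKc.of_isClosed_subset (isClosed_tsupport _) tm) (tm.trans hζU)
  have e3 := hsub ζ hζc hζs hζU n hn
  rw [← integral_sub e1 e2]
  have e4 : ∫ z, (ζp z * (F n z - v) - ζm z * (F n z - v)) = ∫ z, ζ z * (F n z - v) := by
    congr 1; funext z
    have : ζp z - ζm z = ζ z := by
      simp only [hζp, hζm]
      rcases le_total 0 (ζ z) with h | h
      · rw [max_eq_left h, max_eq_right (by linarith)]; ring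
      · rw [max_eq_right h, max_eq_left (by linarith)]; ring
    rw [← sub_mul, this]
  rw [e4, e3]
  ring

variable {φ : ℕ → ℍ → ℝ} {m h : ℕ → ℝ} {g' : ℂ → ℂ}

namespace WS

variable {k : ℕ}

/-- the bound for the products in a fixed direction -/
lemma prod_bdd (W : WS Γ ρ D φ m h g') (x : Fin k → ℂ)
    (hk : ∀ a : Fin k → ℝ, |∏ i, a i| ≤ 1 + ∑ i, a i ^ 4) {K : Set ℂ} (hKc : IsCompact K)
    (hKU : K ⊆ HH) : ∃ C : ℝ, ∀ᶠ n in atTop, ∀ θ : ℝ,
      ∫ z in K, |∏ i, Berry.rWave ρ (φ n) (m n) (x i) (ofComplex z, θ)| ≤ C := by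
  obtain ⟨M, hM0, hM⟩ := W.four x hKc hKU
  refine ⟨(volume K).toReal + ∑ _i : Fin k, M, ?_⟩
  filter_upwards [hM, W.jc x hKU] with n n1 n4 θ
  have hci : ∀ i, IntegrableOn (fun z => Berry.rWave ρ (φ n) (m n) (x i)
      (ofComplex z, θ) ^ 4) K := fun i => by
    exact ContinuousOn.integrableOn_compact hKc (ContinuousOn.pow (sec_cont (n4 i) θ) 4)
  have i1 : IntegrableOn (fun _ : ℂ => (1 : ℝ)) K :=
    continuousOn_const.integrableOn_compact hKc
  have i2 : IntegrableOn (fun z => ∑ i, Berry.rWave ρ (φ n) (m n) (x i) (ofComplex z, θ) ^ 4) K :=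
    integrable_finset_sum _ fun i _ => hci i
  calc ∫ z in K, |∏ i, Berry.rWave ρ (φ n) (m n) (x i) (ofComplex z, θ)|
      ≤ ∫ z in K, (1 + ∑ i, Berry.rWave ρ (φ n) (m n) (x i) (ofComplex z, θ) ^ 4) := by
        refine integral_mono_of_nonneg (Eventually.of_forall fun z => abs_nonneg _)
          (i1.add i2) (Eventually.of_forall fun z => hk _)
    _ = (volume K).toReal + ∑ i, ∫ z in K, Berry.rWave ρ (φ n) (m n) (x i) (ofComplex z, θ) ^ 4 := by
        rw [integral_add i1 i2, integral_finset_sum _ fun i _ => hci i, integral_const, smul_eq_mul,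
          mul_one, measureReal_restrict_apply_univ]
        rfl
    _ ≤ _ := add_le_add le_rfl (Finset.sum_le_sum fun i _ => n1 i θ)

/-- **The moments in a fixed direction from the local formulas.** -/
lemma locMoment (W : WS Γ ρ D φ m h g') (x : Fin k → ℂ)
    (hk : ∀ a : Fin k → ℝ, |∏ i, a i| ≤ 1 + ∑ i, a i ^ 4) {v : ℝ}
    (hfix : ∀ (K : Set ℂ) (δ : ℝ), IsCompact K → 0 < δ → Metric.cthickening (2 * δ) K ⊆ HH →
      ∀ ξ : Fin k → ℕ → ℝ → ℂ → ℂ, (∀ i, Disp h (wt (gw ρ)) K 2 (x i) (ξ i)) →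
      ∀ ψ : ℂ → ℝ, ContDiff ℝ ∞ ψ → HasCompactSupport ψ → tsupport ψ ⊆ K → ∀ θ : ℝ,
      Tendsto (fun n => ∫ z, (ψ z : ℂ) * ∏ i, (φ n (ofComplex (z + h n * wt (gw ρ) z
          * ξ i n θ z)) : ℂ)) atTop (𝓝 ((∫ z, (ψ z : ℂ)) * (v : ℂ)))) :
    Berry.LocMoment ρ φ m x v := by
  intro ζ hζc hζs hζU θ
  refine cont_lim (F := fun n z => ∏ i, Berry.rWave ρ (φ n) (m n) (x i) (ofComplex z, θ)) ?_ ?_ ?_
    hζc hζs hζU
  · filter_upwards [W.jc x (K := HH) le_rfl] with n hn
    exact continuousOn_finset_prod _ fun i _ => sec_cont (hn i) θ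
  · intro K hK hKU
    obtain ⟨C, hC⟩ := W.prod_bdd x hk hK hKU
    exact ⟨C, hC.mono fun n hn => hn θ⟩
  · intro ψ hψ hψs hψU
    set K := tsupport ψ with hKdef
    have hKc : IsCompact K := hψs
    obtain ⟨δ, hδ, hδU⟩ := hKc.exists_cthickening_subset_open isOpen_HH hψU
    have hδU' : Metric.cthickening (2 * (δ / 2)) K ⊆ HH := by
      rw [mul_div_cancel₀ _ (two_ne_zero)]; exact hδU
    have h1 := hfix K (δ / 2) hKc (half_pos hδ) hδU' (fun i => frXi h (em ρ) (x i))
      (fun i => W.disp hKc hψU (x i)) ψ hψ hψs le_rfl θ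
    have h3 := (Complex.continuous_re.tendsto _).comp h1
    have e0 : ((∫ z, (ψ z : ℂ)) * (v : ℂ)).re = v * ∫ z, ψ z := by
      have : ∫ z, (ψ z : ℂ) = ((∫ z, ψ z : ℝ) : ℂ) := integral_ofReal
      rw [this, ← Complex.ofReal_mul, Complex.ofReal_re, mul_comm]
    rw [e0] at h3
    refine h3.congr' ?_
    filter_upwards [W.val x hψU] with n n1
    rw [Function.comp_apply]
    have e1 : ∫ z, (ψ z : ℂ) * ∏ i, (φ n (ofComplex (z + h n * wt (gw ρ) z
        * frXi h (em ρ) (x i) n θ z)) : ℂ)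
        = ((∫ z, ψ z * ∏ i, Berry.rWave ρ (φ n) (m n) (x i) (ofComplex z, θ) : ℝ) : ℂ) := by
      refine Eq.trans ?_ (integral_ofReal (𝕜 := ℂ) (μ := volume) (f := fun z : ℂ => ψ z
        * ∏ i, Berry.rWave ρ (φ n) (m n) (x i) (ofComplex z, θ)))
      refine integral_congr_ae (Eventually.of_forall fun z => ?_)
      change _ = ((ψ z * ∏ i, Berry.rWave ρ (φ n) (m n) (x i) (ofComplex z, θ) : ℝ) : ℂ)
      beta_reduce
      by_cases hz : z ∈ K
      · rw [Complex.ofReal_mul, Complex.ofReal_prod]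
        congr 1
        refine Finset.prod_congr rfl fun i _ => ?_
        rw [n1 i θ z hz]
      · rw [image_eq_zero_of_notMem_tsupport hz]; simp
    rw [e1, Complex.ofReal_re]

end WS

end

end QE


end

section

/-!
Moments of the local waves over regions of the surface and in fixed directions: the equivalence.
-/

open MeasureTheory Filter Topology Set MatrixGroups UpperHalfPlane
open scoped ContDiff

namespace QE

noncomputable section

variable {Γ : Subgroup SL(2, ℝ)} {ρ : ℍ → ℝ} {D : Set ℍ}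

/-- if the mean of the fourth power tends to `3` then so do the local means -/
theorem four_weak [Countable Γ] (hDm : MeasurableSet D)
    (hD : IsFundamentalDomain Γ D (volume : Measure ℍ))
    (hK : ∃ K : Set ℍ, IsCompact K ∧ ∀ z, ∃ γ ∈ Γ, γ • z ∈ K)
    (hρ : ContDiffOn ℝ ∞ (fun w : ℂ => ρ (ofComplex w)) {w | 0 < w.im})
    (hρΓ : ∀ γ ∈ Γ, ∀ z, ρ (γ • z) = ρ z)
    {φ : ℕ → ℍ → ℝ} {m : ℕ → ℝ} (hφ : Berry.REigenSeq Γ ρ φ m)
    (hs : ∀ n, ContDiffOn ℝ ∞ (fun w : ℂ => φ n (ofComplex w)) {w | 0 < w.im})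
    (hq : QuantumErgodic ρ φ m)
    (h3 : Tendsto (fun n => Berry.rAvg ρ D fun z => φ n z ^ 4) atTop (𝓝 3)) {ζ : ℂ → ℝ}
    (hζc : Continuous ζ) (hζs : HasCompactSupport ζ) (hζU : tsupport ζ ⊆ HH) (hζ0 : ∀ z, 0 ≤ ζ z) :
    Tendsto (fun n => ∫ z, ζ z * φ n (ofComplex z) ^ 4) atTop (𝓝 (3 * ∫ z, ζ z)) := by
  have hρc := continuous_of_smooth hρ
  have hgeo : Berry.Geo Γ ρ D := ⟨hD, hDm, Berry.finite_of_cocompact hD hK, hρΓ,
    Berry.bdd_of_cocompact hρc hρΓ hK, Berry.unif_of_cocompact hρc hρΓ hK⟩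
  have hpc : ∀ n, Continuous (φ n) := fun n => continuous_of_smooth (hs n)
  have hKc : IsCompact (tsupport ζ) := hζs
  obtain ⟨χ, hχc, hχs, hχU, hχ0, ⟨c₀, hc₀, hlow⟩, h5⟩ := exists_test' hD hDm hK hρc hρΓ hKc hζU
  obtain ⟨M, hM⟩ := hζc.bounded_above_of_compact_support hζs
  have hM0 : 0 ≤ M := (norm_nonneg _).trans (hM 0)
  set C : ℝ := M / c₀ with hC
  have hC0 : 0 ≤ C := by positivity
  set A := (Berry.area ρ D).toReal with hA
  have hA0 : 0 < A := ENNReal.toReal_pos (Berry.area_ne_zero hgeo) (Berry.area_ne_top hgeo)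
  -- the difference
  set η : ℂ → ℝ := fun z => C * χ z - ζ z with hη
  have hηc : Continuous η := (continuous_const.mul hχc).sub hζc
  have hη0 : ∀ z, 0 ≤ η z := by
    intro z
    simp only [hη]
    by_cases hz : z ∈ tsupport ζ
    · have h1 := hlow z hz
      have h2 : ζ z ≤ M := (le_abs_self _).trans (hM z)
      have h3 : M = C * c₀ := by rw [hC]; field_simp
      have h4 : C * c₀ ≤ C * χ z := mul_le_mul_of_nonneg_left h1 hC0
      linarith
    · rw [image_eq_zero_of_notMem_tsupport hz, sub_zero]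
      exact mul_nonneg hC0 (hχ0 z)
  have hηsup : tsupport η ⊆ tsupport χ ∪ tsupport ζ := by
    refine closure_minimal (fun z hz => ?_) ((isClosed_tsupport _).union (isClosed_tsupport _))
    by_contra hcon
    rw [mem_union, not_or] at hcon
    apply hz
    simp only [hη]
    rw [image_eq_zero_of_notMem_tsupport hcon.1, image_eq_zero_of_notMem_tsupport hcon.2]
    ring
  have hηs : HasCompactSupport η :=
    ((show IsCompact (tsupport χ) from hχs).union hKc).of_isClosed_subset (isClosed_tsupport _) hηsup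
  have hηU : tsupport η ⊆ HH := hηsup.trans (union_subset hχU hζU)
  -- integrability
  have hint : ∀ n, ∀ θ : ℂ → ℝ, Continuous θ → HasCompactSupport θ → tsupport θ ⊆ HH →
      Integrable (fun z => θ z * φ n (ofComplex z) ^ 4) := fun n θ h1 h2 h3 =>
    (Surf.continuous_cut_mul h1 h3 ((hpc n).pow 4)).integrable_of_hasCompactSupport h2.mul_right
  have e1 : ∀ n, ∫ z, η z * φ n (ofComplex z) ^ 4
      = C * (∫ z, χ z * φ n (ofComplex z) ^ 4) - ∫ z, ζ z * φ n (ofComplex z) ^ 4 := by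
    intro n
    rw [← integral_const_mul, ← integral_sub ((hint n χ hχc hχs hχU).const_mul C)
      (hint n ζ hζc hζs hζU)]
    congr 1; funext z
    simp only [hη]; ring
  have e2 : ∫ z, η z = C * (∫ z, χ z) - ∫ z, ζ z := by
    rw [← integral_const_mul, ← integral_sub ((hχc.integrable_of_hasCompactSupport hχs).const_mul C)
      (hζc.integrable_of_hasCompactSupport hζs)]
  have hχA : ∫ z, χ z = A := by
    have := h5 (fun _ => 1) continuous_const (fun _ => zero_le_one) (fun _ _ _ => rfl)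
    simpa [Measure.real] using this
  have hχ3 : Tendsto (fun n => ∫ z, χ z * φ n (ofComplex z) ^ 4) atTop (𝓝 (3 * ∫ z, χ z)) := by
    have h6 := h3.const_mul A
    rw [hχA, mul_comm 3 A]
    refine h6.congr fun n => ?_
    have h7 := rAvg_eq hgeo hK hχc hχs hχU h5 (f := fun z => φ n z ^ 4) ((hpc n).pow 4)
      (fun γ hγ z => by beta_reduce; rw [hφ.invariant _ γ hγ z])
    rw [h7, ← hA, mul_inv_cancel_left₀ hA0.ne']
  rw [Metric.tendsto_nhds]
  intro ε hε
  have l1 := lower_local hρ hφ hs hq hζc hζs hζU hζ0 (show 0 < ε / 4 by positivity)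
  have l2 := lower_local hρ hφ hs hq hηc hηs hηU hη0 (show 0 < ε / 4 by positivity)
  have l3 := (hχ3.const_mul C).eventually (Metric.ball_mem_nhds _ (show 0 < ε / 4 by positivity))
  filter_upwards [l1, l2, l3] with n n1 n2 n3
  rw [Real.dist_eq, abs_lt] at n3
  rw [Real.dist_eq, abs_lt]
  rw [e1, e2] at n2
  obtain ⟨n3a, n3b⟩ := n3
  constructor
  · linarith only [hε, n1]
  · linarith only [hε, n2, n3b]

/-- **Quantum ergodicity and the fourth moment give the Gaussian moments in every region and in every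
direction.** -/
theorem local_of_quantum [Countable Γ] (hDm : MeasurableSet D)
    (hD : IsFundamentalDomain Γ D (volume : Measure ℍ))
    (hK : ∃ K : Set ℍ, IsCompact K ∧ ∀ z, ∃ γ ∈ Γ, γ • z ∈ K)
    (hρ : ContDiffOn ℝ ∞ (fun w : ℂ => ρ (ofComplex w)) {w | 0 < w.im})
    (hρΓ : ∀ γ ∈ Γ, ∀ z, ρ (γ • z) = ρ z)
    {φ : ℕ → ℍ → ℝ} {m : ℕ → ℝ} (hφ : Berry.REigenSeq Γ ρ φ m)
    (hs : ∀ n, ContDiffOn ℝ ∞ (fun w : ℂ => φ n (ofComplex w)) {w | 0 < w.im})
    (hq : QuantumErgodic ρ φ m)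
    (h3 : Tendsto (fun n => Berry.rAvg ρ D fun z => φ n z ^ 4) atTop (𝓝 3)) :
    Berry.RLocalGauss ρ φ m := by
  obtain ⟨N, W, htwo⟩ := ws_of_surface hDm hD hK hρ hρΓ hφ hs hq (C := 4)
    ((h3.eventually_lt_const (by norm_num : (3 : ℝ) < 4)).mono fun n hn => hn.le)
  have hw : ∀ r : ℂ → ℝ, Test HH (fun z => (r z : ℂ)) → (∀ z, 0 ≤ r z) →
      Tendsto (fun n => ∫ z, (r z : ℂ) * ((φ (n + N) (ofComplex z) : ℂ)
        * (φ (n + N) (ofComplex z) : ℂ) * ((φ (n + N) (ofComplex z) : ℂ)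
          * (φ (n + N) (ofComplex z) : ℂ)))) atTop (𝓝 (3 * ∫ z, (r z : ℂ))) := by
    intro r hr hr0
    have hrc : Continuous r := by
      have := Complex.continuous_re.comp hr.smooth.continuous
      simpa [Function.comp_def] using this
    have hts : tsupport r = tsupport (fun z => (r z : ℂ)) := by
      unfold tsupport
      congr 1
      ext z
      simp
    have h4 := four_weak hDm hD hK hρ hρΓ hφ hs hq h3 hrc (by
      unfold HasCompactSupport; rw [hts]; exact hr.supp) (by rw [hts]; exact hr.sub) hr0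
    have h5 := (Complex.continuous_ofReal.tendsto _).comp (h4.comp (tendsto_add_atTop_nat N))
    have e0 : ((3 * ∫ z, r z : ℝ) : ℂ) = 3 * ∫ z, (r z : ℂ) := by
      have : ∫ z, (r z : ℂ) = ((∫ z, r z : ℝ) : ℂ) := integral_ofReal
      rw [this]; push_cast; ring
    rw [e0] at h5
    refine h5.congr fun n => ?_
    simp only [Function.comp_apply]
    refine Eq.trans (integral_ofReal (𝕜 := ℂ) (μ := volume) (f := fun z : ℂ => r z
      * φ (n + N) (ofComplex z) ^ 4)).symm ?_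
    refine integral_congr_ae (Eventually.of_forall fun z => ?_)
    change ((r z * φ (n + N) (ofComplex z) ^ 4 : ℝ) : ℂ) = _
    push_cast; ring
  have hr4 : ∀ r : ℂ → ℝ, Test HH (fun z => (r z : ℂ)) → (∀ z, 0 ≤ r z) → ∀ j m' k l : ℤ, _ :=
    fun r hr hr0 => W.set.jets_full htwo hr hr0 (hw r hr hr0)
  have hr3 : ∀ r : ℂ → ℝ, Test HH (fun z => (r z : ℂ)) → (∀ z, 0 ≤ r z) → ∀ j m' k : ℤ, _ :=
    fun r hr hr0 => W.set.three_full hr hr0 (hr4 r hr hr0)
  -- complex test functions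
  have hj4 : ∀ ζ : ℂ → ℂ, Test HH ζ → ∀ j m' k l : ℤ, Tendsto (fun n => ∫ z, ζ z
      * (E (fun n => 1 / m (n + N)) (wt (gw ρ)) (fun n z => (φ (n + N) (ofComplex z) : ℂ)) j n z
        * E (fun n => 1 / m (n + N)) (wt (gw ρ)) (fun n z => (φ (n + N) (ofComplex z) : ℂ)) m' n z
        * (E (fun n => 1 / m (n + N)) (wt (gw ρ)) (fun n z => (φ (n + N) (ofComplex z) : ℂ)) k n z
        * E (fun n => 1 / m (n + N)) (wt (gw ρ)) (fun n z => (φ (n + N) (ofComplex z) : ℂ)) l n z)))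
      atTop (𝓝 (G j m' k l * ∫ z, ζ z)) := by
    intro ζ hζ j m' k l
    have s4 := fun n => ((W.set.sm2 j m').mul (W.set.sm2 k l)) n
    have key := Test.induct_nonneg W.set.op (F := fun n ζ =>
      (∫ z, ζ z * (E (fun n => 1 / m (n + N)) (wt (gw ρ)) (fun n z => (φ (n + N) (ofComplex z) : ℂ)) j n z
        * E (fun n => 1 / m (n + N)) (wt (gw ρ)) (fun n z => (φ (n + N) (ofComplex z) : ℂ)) m' n z
        * (E (fun n => 1 / m (n + N)) (wt (gw ρ)) (fun n z => (φ (n + N) (ofComplex z) : ℂ)) k n z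
        * E (fun n => 1 / m (n + N)) (wt (gw ρ)) (fun n z => (φ (n + N) (ofComplex z) : ℂ)) l n z)))
        - G j m' k l * (∫ z, ζ z)) ?_ ?_ ?_ hζ
    · have := key.add_const (G j m' k l * ∫ z, ζ z)
      rw [zero_add] at this
      refine this.congr fun n => ?_
      ring
    · intro n ζ ξ hζ hξ
      beta_reduce
      rw [Test.int_add W.set.op (s4 n) hζ hξ, Test.integral_add' hζ hξ]
      ring
    · intro n c ζ _
      beta_reduce
      rw [Test.int_smul, integral_const_mul]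
      ring
    · intro r hr hr0
      have := (hr4 r hr hr0 j m' k l).sub_const (G j m' k l * ∫ z, (r z : ℂ))
      rw [sub_self] at this
      exact this
  have hj3 : ∀ ζ : ℂ → ℂ, Test HH ζ → ∀ j m' k : ℤ, Tendsto (fun n => ∫ z, ζ z
      * (E (fun n => 1 / m (n + N)) (wt (gw ρ)) (fun n z => (φ (n + N) (ofComplex z) : ℂ)) j n z
        * E (fun n => 1 / m (n + N)) (wt (gw ρ)) (fun n z => (φ (n + N) (ofComplex z) : ℂ)) m' n z
        * E (fun n => 1 / m (n + N)) (wt (gw ρ)) (fun n z => (φ (n + N) (ofComplex z) : ℂ)) k n z))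
      atTop (𝓝 0) := by
    intro ζ hζ j m' k
    have s3 := fun n => ((W.set.sm2 j m').mul (W.set.tame_E k).smooth) n
    refine Test.induct_nonneg W.set.op (F := fun n ζ =>
      ∫ z, ζ z * (E (fun n => 1 / m (n + N)) (wt (gw ρ)) (fun n z => (φ (n + N) (ofComplex z) : ℂ)) j n z
        * E (fun n => 1 / m (n + N)) (wt (gw ρ)) (fun n z => (φ (n + N) (ofComplex z) : ℂ)) m' n z
        * E (fun n => 1 / m (n + N)) (wt (gw ρ)) (fun n z => (φ (n + N) (ofComplex z) : ℂ)) k n z))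
        ?_ ?_ ?_ hζ
    · intro n ζ ξ hζ hξ
      beta_reduce
      rw [Test.int_add W.set.op (s3 n) hζ hξ]
    · intro n c ζ _
      beta_reduce
      rw [Test.int_smul]
    · intro r hr hr0
      exact hr3 r hr hr0 j m' k
  -- removal of the shift
  have hshift : ∀ {k : ℕ} (x : Fin k → ℂ) (v : ℝ),
      Berry.LocMoment ρ (fun n => φ (n + N)) (fun n => m (n + N)) x v → Berry.LocMoment ρ φ m x v := by
    intro k x v H ζ h1 h2 h3 θ
    rw [← tendsto_add_atTop_iff_nat N]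
    exact H ζ h1 h2 h3 θ
  refine ⟨fun x => hshift x 0 ?_, fun x => hshift x _ ?_, fun x => hshift x 0 ?_,
    fun x => hshift x _ ?_⟩
  · refine W.locMoment x (prod_le_four (by norm_num)) ?_
    intro K δ hKc hδ hδU ξ hξ ψ hψ hψs hψK θ
    obtain ⟨hT, hsub⟩ := test_real hψ hψs hψK ((Metric.self_subset_cthickening K).trans hδU)
    have := W.set.fix_one hKc hδ hδU x ξ hξ hT hsub θ
    simpa using this
  · refine W.locMoment x (prod_le_four (by norm_num)) ?_
    intro K δ hKc hδ hδU ξ hξ ψ hψ hψs hψK θ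
    obtain ⟨hT, hsub⟩ := test_real hψ hψs hψK ((Metric.self_subset_cthickening K).trans hδU)
    exact W.set.fix_two hKc hδ hδU x ξ hξ hT hsub θ (fun j k => htwo j k _ hT)
  · refine W.locMoment x (prod_le_four (by norm_num)) ?_
    intro K δ hKc hδ hδU ξ hξ ψ hψ hψs hψK θ
    obtain ⟨hT, hsub⟩ := test_real hψ hψs hψK ((Metric.self_subset_cthickening K).trans hδU)
    have := W.set.fix_three hKc hδ hδU x ξ hξ hT hsub θ (hj3 _ hT)
    simpa using this
  · refine W.locMoment x (prod_le_four le_rfl) ?_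
    intro K δ hKc hδ hδU ξ hξ ψ hψ hψs hψK θ
    obtain ⟨hT, hsub⟩ := test_real hψ hψs hψK ((Metric.self_subset_cthickening K).trans hδU)
    exact W.set.fix_four hKc hδ hδU x ξ hξ hT hsub θ (hj4 _ hT)

end

end QE


end

section

/-!
The local moments decide the global ones; the equivalence of the six conditions.
-/

open MeasureTheory Filter Topology Set MatrixGroups UpperHalfPlane
open scoped ContDiff

namespace QE

noncomputable section

variable {Γ : Subgroup SL(2, ℝ)} {ρ : ℍ → ℝ} {D : Set ℍ}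

lemma rWave_origin (ρ : ℍ → ℝ) (φ : ℍ → ℝ) (m : ℝ) (p : ℍ × ℝ) : Berry.rWave ρ φ m 0 p = φ p.1 := by
  unfold Berry.rWave
  rw [zero_div, add_zero]
  have : (ofComplex Complex.I : ℍ) = I := by
    rw [ofComplex_apply_of_im_pos (by simp : 0 < Complex.I.im)]
    rfl
  rw [this, Berry.frame_smul_I]

section
variable {φ : ℕ → ℍ → ℝ} {m h : ℕ → ℝ} {g' : ℂ → ℂ}

/-- **Local moments decide the global ones.** -/
lemma WS.global_of_loc [Countable Γ] (W : WS Γ ρ D φ m h g') {k : ℕ} (x : Fin k → ℂ)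
    (hk : ∀ a : Fin k → ℝ, |∏ i, a i| ≤ 1 + ∑ i, a i ^ 4) {v : ℝ}
    (hl : Berry.LocMoment ρ φ m x v) :
    Tendsto (fun n => ∫ p, ∏ i, Berry.rWave ρ (φ n) (m n) (x i) p ∂(Berry.rFrameProb ρ D)) atTop
      (𝓝 v) := by
  obtain ⟨ζ, hζc, hζs, hζU, hζ0, -, h5⟩ := exists_test' (K' := ∅) W.geo.dom W.geo.meas W.coc W.rc
    W.geo.inv isCompact_empty (empty_subset _)
  set K := tsupport ζ with hKdef
  have hKc : IsCompact K := hζs
  obtain ⟨B, hB⟩ := hζc.bounded_above_of_compact_support hζs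
  have hB0 : 0 ≤ B := (norm_nonneg _).trans (hB 0)
  set A := (Berry.area ρ D).toReal with hA
  have hA0 : 0 < A := ENNReal.toReal_pos (Berry.area_ne_zero W.geo) (Berry.area_ne_top W.geo)
  have hζA : ∫ z, ζ z = A := by
    have := h5 (fun _ => 1) continuous_const (fun _ => zero_le_one) (fun _ _ _ => rfl)
    simpa [Measure.real] using this
  obtain ⟨C, hC⟩ := W.prod_bdd x hk hKc hζU
  have hset : ∀ f : ℂ → ℝ, ∫ z, ζ z * f z = ∫ z in K, ζ z * f z := by
    intro f
    rw [setIntegral_eq_integral_of_forall_compl_eq_zero]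
    intro z hz
    rw [image_eq_zero_of_notMem_tsupport hz, zero_mul]
  have lim : Tendsto (fun n => ∫ θ, (∫ z, ζ z * ∏ i, Berry.rWave ρ (φ n) (m n) (x i)
      (ofComplex z, θ)) ∂ang) atTop (𝓝 (∫ _θ : ℝ, v * ∫ z, ζ z ∂volume ∂ang)) := by
    refine tendsto_integral_filter_of_dominated_convergence (fun _ => B * |C|) ?_ ?_
      (integrable_const _) (Eventually.of_forall fun θ => hl ζ hζc hζs hζU θ)
    · filter_upwards [W.jc x hζU] with n hn
      have cζ : ContinuousOn (fun p : ℝ × ℂ => ζ p.2) (univ ×ˢ K) :=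
        (hζc.comp continuous_snd).continuousOn
      have cH : ContinuousOn (fun p : ℝ × ℂ => ζ p.2 * ∏ i, Berry.rWave ρ (φ n) (m n) (x i)
          (ofComplex p.2, p.1)) (univ ×ˢ K) :=
        cζ.mul (continuousOn_finset_prod _ fun i _ => hn i)
      have := (real_int_ang hKc cH).integral_prod_left.aestronglyMeasurable
      simp only [hset]
      exact this
    · filter_upwards [hC, W.jc x hζU] with n hn hn2
      refine Eventually.of_forall fun θ => ?_
      rw [hset]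
      have hi : IntegrableOn (fun z => |∏ i, Berry.rWave ρ (φ n) (m n) (x i) (ofComplex z, θ)|) K :=
        ((continuousOn_finset_prod _ fun i _ => sec_cont (hn2 i) θ).abs).integrableOn_compact hKc
      calc ‖∫ z in K, ζ z * ∏ i, Berry.rWave ρ (φ n) (m n) (x i) (ofComplex z, θ)‖
          ≤ ∫ z in K, B * |∏ i, Berry.rWave ρ (φ n) (m n) (x i) (ofComplex z, θ)| := by
            refine norm_integral_le_of_norm_le (hi.const_mul B) (Eventually.of_forall fun z => ?_)
            rw [norm_mul, Real.norm_eq_abs (∏ i, _)]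
            exact mul_le_mul_of_nonneg_right (hB z) (abs_nonneg _)
        _ = B * ∫ z in K, |∏ i, Berry.rWave ρ (φ n) (m n) (x i) (ofComplex z, θ)| :=
            integral_const_mul _ _
        _ ≤ B * |C| := mul_le_mul_of_nonneg_left ((hn θ).trans (le_abs_self C)) hB0
  have lim2 := lim.const_mul A⁻¹
  have e0 : A⁻¹ * ∫ _θ : ℝ, v * ∫ z, ζ z ∂volume ∂ang = v := by
    rw [integral_const, hζA, probReal_univ, one_smul]
    field_simp
  rw [e0] at lim2
  refine lim2.congr' ?_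
  filter_upwards [W.wc x, W.ac x, W.jc x hζU] with n hn1 hn2 hn3
  obtain ⟨C₂, hC₂⟩ := Berry.bdd_of_cocompact (W.pc n) (W.pinv n) W.coc
  have hcond : IsProbabilityMeasure (ProbabilityTheory.cond (Berry.area ρ) D) :=
    ProbabilityTheory.cond_isProbabilityMeasure_of_finite (Berry.area_ne_zero W.geo)
      (Berry.area_ne_top W.geo)
  have i3 : Integrable (fun p => ∏ i, Berry.rWave ρ (φ n) (m n) (x i) p)
      ((ProbabilityTheory.cond (Berry.area ρ) D).prod ang) := by
    refine Integrable.of_bound (continuous_finset_prod _ fun i _ => hn1 i).aestronglyMeasurable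
      (∏ _i : Fin k, |C₂|) (Eventually.of_forall fun p => ?_)
    rw [norm_prod]
    refine Finset.prod_le_prod (fun _ _ => norm_nonneg _) fun i _ => ?_
    rw [Real.norm_eq_abs]
    exact (hC₂ _).trans (le_abs_self _)
  have e1 : ∫ p, ∏ i, Berry.rWave ρ (φ n) (m n) (x i) p ∂(Berry.rFrameProb ρ D)
      = Berry.rAvg ρ D (angProd ρ (φ n) (m n) x) := by
    unfold Berry.rFrameProb
    rw [integral_prod _ i3]
    rfl
  rw [e1, rAvg_eq W.geo W.coc hζc hζs hζU h5 hn2 (angProd_inv (W.pinv n) W.geo.inv (m n) x), ← hA]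
  congr 1
  have cζ : ContinuousOn (fun p : ℝ × ℂ => ζ p.2) (univ ×ˢ K) :=
    (hζc.comp continuous_snd).continuousOn
  have cH : ContinuousOn (fun p : ℝ × ℂ => ζ p.2 * ∏ i, Berry.rWave ρ (φ n) (m n) (x i)
      (ofComplex p.2, p.1)) (univ ×ˢ K) :=
    cζ.mul (continuousOn_finset_prod _ fun i _ => hn3 i)
  have iH := real_int_ang hKc cH
  simp only [hset]
  rw [integral_integral_swap iH]
  refine integral_congr_ae (Eventually.of_forall fun z => ?_)
  unfold angProd
  beta_reduce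
  rw [integral_const_mul]

end

/-- **The Gaussian moments in every region and in every direction give the global ones.** -/
theorem gauss_of_local [Countable Γ] (hDm : MeasurableSet D)
    (hD : IsFundamentalDomain Γ D (volume : Measure ℍ))
    (hK : ∃ K : Set ℍ, IsCompact K ∧ ∀ z, ∃ γ ∈ Γ, γ • z ∈ K)
    (hρ : ContDiffOn ℝ ∞ (fun w : ℂ => ρ (ofComplex w)) {w | 0 < w.im})
    (hρΓ : ∀ γ ∈ Γ, ∀ z, ρ (γ • z) = ρ z)
    {φ : ℕ → ℍ → ℝ} {m : ℕ → ℝ} (hφ : Berry.REigenSeq Γ ρ φ m)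
    (hs : ∀ n, ContDiffOn ℝ ∞ (fun w : ℂ => φ n (ofComplex w)) {w | 0 < w.im})
    (hl : Berry.RLocalGauss ρ φ m) : Berry.RGaussUpToFour ρ D φ m := by
  have hρc := continuous_of_smooth hρ
  have hgeo : Berry.Geo Γ ρ D := ⟨hD, hDm, Berry.finite_of_cocompact hD hK, hρΓ,
    Berry.bdd_of_cocompact hρc hρΓ hK, Berry.unif_of_cocompact hρc hρΓ hK⟩
  have hpc : ∀ n, Continuous (φ n) := fun n => continuous_of_smooth (hs n)
  -- the fourth moment
  have h3 : Tendsto (fun n => Berry.rAvg ρ D fun z => φ n z ^ 4) atTop (𝓝 3) := by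
    obtain ⟨ζ, hζc, hζs, hζU, hζ0, -, h5⟩ := exists_test' (K' := ∅) hD hDm hK hρc hρΓ
      isCompact_empty (empty_subset _)
    set A := (Berry.area ρ D).toReal with hA
    have hA0 : 0 < A := ENNReal.toReal_pos (Berry.area_ne_zero hgeo) (Berry.area_ne_top hgeo)
    have hζA : ∫ z, ζ z = A := by
      have := h5 (fun _ => 1) continuous_const (fun _ => zero_le_one) (fun _ _ _ => rfl)
      simpa [Measure.real] using this
    have h6 := (hl.2.2.2 (fun _ => 0) ζ hζc hζs hζU 0).const_mul A⁻¹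
    have e : A⁻¹ * ((Berry.waveK (0 - 0) * Berry.waveK (0 - 0) + Berry.waveK (0 - 0)
        * Berry.waveK (0 - 0) + Berry.waveK (0 - 0) * Berry.waveK (0 - 0)) * ∫ z, ζ z) = 3 := by
      rw [sub_zero, Berry.waveK_zero, hζA]
      field_simp
      norm_num
    rw [e] at h6
    refine h6.congr fun n => ?_
    rw [rAvg_eq hgeo hK hζc hζs hζU h5 (f := fun z => φ n z ^ 4) ((hpc n).pow 4)
      (fun γ hγ z => by beta_reduce; rw [hφ.invariant _ γ hγ z]), ← hA]
    congr 1
    refine integral_congr_ae (Eventually.of_forall fun z => ?_)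
    beta_reduce
    simp only [rWave_origin, Finset.prod_const, Finset.card_univ, Fintype.card_fin]
  obtain ⟨N, W⟩ := ws_gen hDm hD hK hρ hρΓ hφ hs (C := 4)
    ((h3.eventually_lt_const (by norm_num : (3 : ℝ) < 4)).mono fun n hn => hn.le)
  have hcomp : ∀ {k : ℕ} (x : Fin k → ℂ) (v : ℝ), Berry.LocMoment ρ φ m x v →
      Berry.LocMoment ρ (fun n => φ (n + N)) (fun n => m (n + N)) x v := by
    intro k x v H ζ h1 h2 h3 θ
    exact (H ζ h1 h2 h3 θ).comp (tendsto_add_atTop_nat N)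
  have main : ∀ {k : ℕ} (x : Fin k → ℂ) (v : ℝ), k ≤ 4 → Berry.LocMoment ρ φ m x v →
      Tendsto (fun n => ∫ p, ∏ i, Berry.rWave ρ (φ n) (m n) (x i) p ∂(Berry.rFrameProb ρ D)) atTop
        (𝓝 v) := by
    intro k x v hk H
    rw [← tendsto_add_atTop_iff_nat N]
    exact W.global_of_loc x (prod_le_four hk) (hcomp x v H)
  refine ⟨fun x => ?_, fun x y => ?_, fun x y z => ?_, fun x₁ x₂ x₃ x₄ => ?_⟩
  · have := main ![x] 0 (by norm_num) (hl.1 _)
    simpa [Fin.prod_univ_one] using this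
  · have := main ![x, y] _ (by norm_num) (hl.2.1 _)
    simpa [Fin.prod_univ_two] using this
  · have := main ![x, y, z] 0 (by norm_num) (hl.2.2.1 _)
    simpa [Fin.prod_univ_three] using this
  · have := main ![x₁, x₂, x₃, x₄] _ le_rfl (hl.2.2.2 _)
    simpa [Fin.prod_univ_four] using this

/-- **All sequences of eigenfunctions on closed surfaces.** -/
theorem tfae_local [Countable Γ] (hDm : MeasurableSet D)
    (hD : IsFundamentalDomain Γ D (volume : Measure ℍ))
    (hK : ∃ K : Set ℍ, IsCompact K ∧ ∀ z, ∃ γ ∈ Γ, γ • z ∈ K)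
    (hρ : ContDiffOn ℝ ∞ (fun w : ℂ => ρ (ofComplex w)) {w | 0 < w.im})
    (hρΓ : ∀ γ ∈ Γ, ∀ z, ρ (γ • z) = ρ z)
    {φ : ℕ → ℍ → ℝ} {m : ℕ → ℝ} (hφ : Berry.REigenSeq Γ ρ φ m)
    (hs : ∀ n, ContDiffOn ℝ ∞ (fun w : ℂ => φ n (ofComplex w)) {w | 0 < w.im}) :
    List.TFAE [QuantumErgodic ρ φ m ∧ Tendsto (fun n => Berry.rAvg ρ D fun z => φ n z ^ 4)
        atTop (𝓝 3),
      QuantumErgodic ρ φ m ∧ Berry.RPlanckAt ρ D φ m 0, ∀ a, Berry.RPlanckAt ρ D φ m a,
      Tendsto (fun n => Berry.rAvg ρ D fun z => φ n z ^ 2) atTop (𝓝 1) ∧ Berry.RFourPt ρ D φ m,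
      Berry.RGaussUpToFour ρ D φ m, Berry.RLocalGauss ρ φ m] := by
  have H := tfae_all hDm hD hK hρ hρΓ hφ hs
  tfae_have 1 ↔ 2 := H.out 0 1
  tfae_have 1 ↔ 3 := H.out 0 2
  tfae_have 1 ↔ 4 := H.out 0 3
  tfae_have 1 ↔ 5 := H.out 0 4
  tfae_have 1 → 6 := fun h => local_of_quantum hDm hD hK hρ hρΓ hφ hs h.1 h.2
  tfae_have 6 → 5 := fun h => gauss_of_local hDm hD hK hρ hρΓ hφ hs h
  tfae_finish

end

end QE


end
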